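import Pool.Agent.Helper52_TP.Part2
import Pool.Agent.Helper50_TP2.QStep
import Pool.Agent.Helper19_TP.Top

/-!
MP_ce3ba7_al, characteristic 2: assembly. Input: the two chains of identities of helper78.
-/

set_option autoImplicit false

namespace Pool.Agent.TP.H52

open H50

/-- MODULE CHAIN2a: from the closure rules to the two hypotheses of Lemma Q -/
def Chain2a : Prop := ∀ (B : Type) [NonUnitalNonAssocRing B], Rules2 B →
  (∀ a b c d e f : B, hh (cm a b) (cm c d) (cm e f) = 0) ∧
    ∀ a b g c d e f : B, hh (cm a b * g) (cm c d) (cm e f) = 0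

/-- MODULE CHAIN2b: from `h(x,[c,d],[e,f]) = 0` to `h = 0` -/
def Chain2b : Prop := ∀ (B : Type) [NonUnitalNonAssocRing B], Rules2 B →
  (∀ u c d e f : B, hh u (cm c d) (cm e f) = 0) → ∀ a b c : B, hh a b c = 0

/-- assembly of characteristic 2 -/
theorem fin2 (ha : Chain2a) (hb : Chain2b) : Char2Stmt := by
  intro F _ h2 S hS
  by_contra hcon
  obtain ⟨B, _, _, _, _, x, h⟩ := primeQ F S hcon
  have h2B : ∀ a : B, a + a = 0 := by
    intro a
    have : (2 : F) • a = 0 := by rw [h2, zero_smul]
    rwa [two_smul] at this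
  have hR := MaxAlg_rules2 h hS h2B
  obtain ⟨h3, h4⟩ := ha B hR
  have h5 := hb B hR (qstep h hR h3 h4)
  refine part2 h2 hS h ?_
  intro a b c
  have h6 := h5 a b c
  unfold hh cm at h6
  simp only [mul_add] at h6
  rw [← h6]
  abel

end Pool.Agent.TP.H52
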