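import Pool.Agent.Helper52_TP.Kap

/-!
MP_ce3ba7_al: an identity whose multilinear part has nonzero coefficient sum.
-/

set_option autoImplicit false
set_option linter.style.haveILetI false

namespace Pool.Agent.TP.H52
open H67
variable {F : Type} [Field F]
theorem rep (G : Fr F) : ∃ (T : Finset (FreeMagma ℕ)) (c : FreeMagma ℕ → F),
    G = ∑ w ∈ T, c w • mo F w := by
  classical
  refine fr_induction (p := fun G => ∃ (T : Finset (FreeMagma ℕ)) (c : FreeMagma ℕ → F),
    G = ∑ w ∈ T, c w • mo F w) (fun w => ⟨{w}, fun _ => 1, by simp⟩) ?_ ?_ G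
  · rintro a b ⟨T, c, rfl⟩ ⟨U, d, rfl⟩
    refine ⟨T ∪ U, fun w => (if w ∈ T then c w else 0) + (if w ∈ U then d w else 0), ?_⟩
    simp only [add_smul, Finset.sum_add_distrib, ite_smul, zero_smul, Finset.sum_ite_mem]
    rw [Finset.inter_eq_right.2 Finset.subset_union_left,
      Finset.inter_eq_right.2 Finset.subset_union_right]
  · rintro a b ⟨T, c, rfl⟩
    exact ⟨T, fun w => a * c w, by rw [Finset.smul_sum]; simp only [smul_smul]⟩

/-- letters of a monomial -/
def lets : FreeMagma ℕ → Multiset ℕ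
  | .of i => {i}
  | .mul a b => lets a + lets b

theorem lets_of (i : ℕ) : lets (FreeMagma.of i) = {i} := rfl
theorem lets_mul (a b : FreeMagma ℕ) : lets (a * b) = lets a + lets b := rfl

/-- the ideal of the squares of the variables -/
noncomputable def SqI (F : Type) [Field F] : Ideal (MvPolynomial ℕ F) :=
  Ideal.span ((fun s => (MvPolynomial.monomial s) 1) '' (Set.range fun i : ℕ => Finsupp.single i 2))

/-- abelianization modulo the squares of the variables -/
noncomputable def Lq (F : Type) [Field F] : Fr F →ₙₐ[F] (MvPolynomial ℕ F ⧸ SqI F) :=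
  ev (fun i => Ideal.Quotient.mk (SqI F) (MvPolynomial.X i))

theorem Lq_mo (w : FreeMagma ℕ) : Lq F (mo F w) =
    Ideal.Quotient.mk (SqI F) (MvPolynomial.monomial (Multiset.toFinsupp (lets w)) 1) := by
  unfold Lq
  rw [ev_mo]
  induction w using FreeMagma.recOnMul with
  | ih1 i =>
    rw [FreeMagma.lift_of, lets_of, Multiset.toFinsupp_singleton]
    rfl
  | ih2 v w ihv ihw =>
    rw [map_mul, ihv, ihw, lets_mul, map_add, ← map_mul, MvPolynomial.monomial_mul, one_mul]

theorem Lq_ne (T : Finset (FreeMagma ℕ)) (c : FreeMagma ℕ → F)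
    (h : Lq F (∑ w ∈ T, c w • mo F w) ≠ 0) : ∃ A : Finset ℕ,
      ∑ w ∈ T with lets w = A.val, c w ≠ 0 := by
  classical
  by_contra hcon
  push Not at hcon
  apply h
  have h1 : Lq F (∑ w ∈ T, c w • mo F w) = Ideal.Quotient.mk (SqI F) (∑ w ∈ T,
      MvPolynomial.monomial (Multiset.toFinsupp (lets w)) (c w)) := by
    rw [map_sum, map_sum]
    refine Finset.sum_congr rfl fun w _ => ?_
    rw [map_smul, Lq_mo]
    have : MvPolynomial.monomial (Multiset.toFinsupp (lets w)) (c w) =
      c w • MvPolynomial.monomial (Multiset.toFinsupp (lets w)) (1 : F) := by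
        rw [MvPolynomial.smul_monomial, smul_eq_mul, mul_one]
    rw [this]
    rfl
  rw [h1, Ideal.Quotient.eq_zero_iff_mem]
  unfold SqI
  rw [MvPolynomial.mem_ideal_span_monomial_image]
  intro e he
  by_contra hne
  push Not at hne
  rw [MvPolynomial.mem_support_iff] at he
  apply he
  have h2 : ∀ i, e i ≤ 1 := by
    intro i
    by_contra hi
    refine hne (Finsupp.single i 2) ⟨i, rfl⟩ ?_
    rw [Finsupp.single_le_iff]
    omega
  have h3 : (Finsupp.toMultiset e) = e.support.val := by
    ext i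
    rw [Finsupp.count_toMultiset]
    by_cases hi : i ∈ e.support
    · rw [Multiset.count_eq_one_of_mem e.support.nodup hi]
      have h4 := h2 i
      have h5 := Finsupp.mem_support_iff.1 hi
      omega
    · rw [Multiset.count_eq_zero_of_notMem hi]
      exact Finsupp.notMem_support_iff.1 hi
  rw [MvPolynomial.coeff_sum]
  have h6 := hcon e.support
  rw [Finset.sum_filter] at h6
  rw [← h6]
  refine Finset.sum_congr rfl fun w _ => ?_
  rw [MvPolynomial.coeff_monomial]
  have h7 : (Multiset.toFinsupp (lets w) = e) ↔ (lets w = e.support.val) := by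
    rw [← h3]
    constructor
    · rintro rfl; simp
    · intro h; rw [h]; simp
  by_cases h8 : lets w = e.support.val
  · rw [if_pos h8, if_pos (h7.2 h8)]
  · rw [if_neg h8, if_neg (fun h => h8 (h7.1 h))]

/-- right normed words -/
def rn : ℕ → FreeMagma ℕ
  | 0 => FreeMagma.of 0
  | k + 1 => FreeMagma.of (k + 1) * rn k

theorem lets_rn (k : ℕ) : lets (rn k) = Multiset.range (k + 1) := by
  induction k with
  | zero => rfl
  | succ k ih =>
    show lets (FreeMagma.of (k + 1) * rn k) = _
    rw [lets_mul, lets_of, ih, Multiset.range_succ (k + 1), Multiset.singleton_add]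

theorem Lq_rn (k : ℕ) : Lq F (mo F (rn k)) ≠ 0 := by
  rw [Lq_mo, lets_rn, Ne, Ideal.Quotient.eq_zero_iff_mem]
  unfold SqI
  rw [MvPolynomial.mem_ideal_span_monomial_image]
  push Not
  refine ⟨Multiset.toFinsupp (Multiset.range (k + 1)), ?_, ?_⟩
  · rw [MvPolynomial.mem_support_iff, MvPolynomial.coeff_monomial, if_pos rfl]
    exact one_ne_zero
  · rintro _ ⟨i, rfl⟩
    rw [Finsupp.single_le_iff, Multiset.toFinsupp_apply]
    have := Multiset.nodup_iff_count_le_one.1 (Multiset.nodup_range (k + 1)) i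
    omega

/-- identities of `B` -/
def IdB (F B : Type) [Field F] [NonUnitalNonAssocRing B] [Module F B] [IsScalarTower F B B]
    [SMulCommClass F B B] (G : Fr F) : Prop := ∀ ψ : ℕ → B, ev ψ G = 0

theorem exists_G {B : Type} [NonUnitalNonAssocRing B] [Module F B] [IsScalarTower F B B]
    [SMulCommClass F B B] {S : Set (MonoidAlgebra F (FreeMagma ℕ))} (hS : AssNil F S)
    (hsat : Sat F S B) : ∃ G : Fr F, IdB F B G ∧ Lq F G ≠ 0 := by
  by_contra hcon
  push Not at hcon
  set P : Submodule F (Fr F) :=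
    LinearMap.ker (Lq F : Fr F →ₗ[F] (MvPolynomial ℕ F ⧸ SqI F)) with hPdef
  have hP : ∀ a ∈ P, ∀ b : Fr F, a * b ∈ P ∧ b * a ∈ P := by
    intro a ha b
    have ha' : Lq F a = 0 := ha
    refine ⟨?_, ?_⟩
    · show Lq F (a * b) = 0
      rw [map_mul, ha', zero_mul]
    · show Lq F (b * a) = 0
      rw [map_mul, ha', mul_zero]
  letI iR := H67.qRing P hP
  haveI iT : IsScalarTower F (Fr F ⧸ P) (Fr F ⧸ P) := H67.q_tower P hP
  haveI iC : SMulCommClass F (Fr F ⧸ P) (Fr F ⧸ P) := H67.q_comm P hP
  set π : Fr F →ₙₐ[F] (Fr F ⧸ P) := H67.qmk P hP with hπ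
  have hsurj : Function.Surjective π := Submodule.Quotient.mk_surjective P
  have hker : ∀ a, π a = 0 ↔ Lq F a = 0 := fun a => Submodule.Quotient.mk_eq_zero P
  have hass : ∀ x y z : Fr F ⧸ P, (x * y) * z = x * (y * z) := by
    intro x y z
    obtain ⟨a, rfl⟩ := hsurj x
    obtain ⟨b, rfl⟩ := hsurj y
    obtain ⟨c, rfl⟩ := hsurj z
    rw [← sub_eq_zero, ← map_mul, ← map_mul, ← map_mul, ← map_mul, ← map_sub, hker, map_sub,
      map_mul, map_mul, map_mul, map_mul, mul_assoc, sub_self]
  obtain ⟨n, V, hV0, hV, hVn⟩ := hS (Fr F ⧸ P) (fun x y => hass x x y) (fun x y => hass y x x)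
    (by
      intro f hf φ
      choose a ha using fun i => hsurj (φ i)
      have e : φ = fun i => π (a i) := funext fun i => (ha i).symm
      change H67.ev φ f = 0
      rw [e, ← H67.ev_comp, hker]
      apply hcon
      intro ψ
      rw [ev_comp]
      exact hsat f hf _)
    hass
  have key : ∀ k, π (mo F (rn k)) ∈ V k := by
    intro k
    induction k with
    | zero => rw [hV0]; trivial
    | succ k ih =>
      show π (mo F (FreeMagma.of (k + 1) * rn k)) ∈ _
      rw [mo_mul, map_mul]
      have := hV 0 k (π (mo F (FreeMagma.of (k + 1)))) (by rw [hV0]; trivial) _ ih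
      rwa [Nat.zero_add] at this
  have h1 := key n
  rw [hVn, Submodule.mem_bot, hker] at h1
  exact Lq_rn n h1

end Pool.Agent.TP.H52
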