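import Pool.Agent.Helper52_TP.Rel

/-!
MP_ce3ba7_al, characteristic 2: balanced words in elements of the T-ideal of squares vanish.
-/

set_option autoImplicit false
set_option linter.unusedSectionVars false

namespace Pool.Agent.TP.H52

open H67

section
variable {C : Type}

/-- squares of type `c` -/
def sqc (c : ZMod 3) (X : Multiset C) : Multiset (C × ZMod 3) :=
  X.map (fun x => (x, c + 1)) + X.map (fun x => (x, c + 2))

/-- letters with three exponents -/
def let3 (Y : ZMod 3 → Multiset C) : Multiset (C × ZMod 3) :=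
  (Y 0).map (fun x => (x, 0)) + (Y 1).map (fun x => (x, 1)) + (Y 2).map (fun x => (x, 2))

theorem sum_single {X : Type} (A : Finset ℕ) (f : ℕ → X) :
    ∑ a ∈ A, (f a ::ₘ (0 : Multiset X)) = A.val.map f := by
  classical
  induction A using Finset.induction_on with
  | empty => rfl
  | insert a A ha ih =>
    rw [Finset.sum_insert ha, ih, Finset.insert_val_of_notMem ha, Multiset.map_cons,
      Multiset.cons_add, zero_add]

theorem exists_t : ∀ (A : Finset ℕ) (X : Multiset C) (_ : C), X.card = A.card →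
    ∃ t : ℕ → C, A.val.map t = X := by
  classical
  intro A
  induction A using Finset.induction_on with
  | empty =>
    intro X z hX
    rw [Finset.card_empty, Multiset.card_eq_zero] at hX
    exact ⟨fun _ => z, by rw [hX]; rfl⟩
  | insert a A ha ih =>
    intro X z hX
    rw [Finset.card_insert_of_notMem ha] at hX
    obtain ⟨x, hx⟩ := Multiset.card_pos_iff_exists_mem.1 (by omega : 0 < X.card)
    obtain ⟨X', rfl⟩ := Multiset.exists_cons_of_mem hx
    rw [Multiset.card_cons] at hX
    obtain ⟨t, ht⟩ := ih X' z (by omega)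
    refine ⟨Function.update t a x, ?_⟩
    rw [Finset.insert_val_of_notMem ha, Multiset.map_cons, Function.update_self, ← ht]
    congr 1
    refine Multiset.map_congr rfl fun b hb => ?_
    have : b ≠ a := by rintro rfl; exact ha hb
    rw [Function.update_of_ne this]

theorem exists_split (X : Multiset C) (n : ℕ) (h : n ≤ X.card) : ∃ Y Z, X = Y + Z ∧
    Y.card = n := by
  induction X using Quotient.inductionOn with
  | _ l =>
    refine ⟨(l.take n : List C), (l.drop n : List C), ?_, ?_⟩
    · show (l : Multiset C) = _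
      rw [Multiset.coe_add, List.take_append_drop]
    · have h' : n ≤ l.length := h
      rw [Multiset.coe_card, List.length_take]
      omega

end

section
variable {F K B C : Type} [Field F] [Field K] [NonUnitalNonAssocRing B] [Module F B]
  [NonUnitalNonAssocRing C] [Module K C] [IsScalarTower K C C] [SMulCommClass K C C]

/-- the relation for multisets -/
def Rel2 (D : ExtD F K B C) (n : ℕ) : Prop := ∀ (c : ZMod 3) (X : Multiset C)
  (Y : ZMod 3 → Multiset C) (e : C), X.card = 2 * (n - 1) → (∀ x ∈ X, Nul (op D) x) →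
  (∀ d, (Y d).card = n) → wd (op D) ((e, 0) ::ₘ (sqc c X + let3 Y)) = 0

theorem rel2 (D : ExtD F K B C) (A : Finset ℕ) (a0 : ℕ) (ha0 : a0 ∈ A)
    (h : ∀ (c : ZMod 3) (e : C)
      (r : ℕ → ZMod 3 → C) (t t' : ℕ → C), (∀ a, Nul (op D) (t a)) →
      (∀ a, Nul (op D) (t' a)) → wd (op D) ((e, 0) ::ₘ (∑ a ∈ A, tri (r a) +
        ∑ a ∈ A.erase a0, ((t a, c + 1) ::ₘ (t a, c + 2) ::ₘ (t' a, c + 1) ::ₘ
          (t' a, c + 2) ::ₘ 0))) = 0) : Rel2 D A.card := by
  classical
  intro c X Y e hX hXn hY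
  obtain ⟨X1, X2, rfl, hX1⟩ := exists_split X (A.card - 1) (by omega)
  have hX2 : X2.card = A.card - 1 := by
    rw [Multiset.card_add] at hX; omega
  have hcard : (A.erase a0).card = A.card - 1 := Finset.card_erase_of_mem ha0
  obtain ⟨t, ht⟩ := exists_t (A.erase a0) X1 0 (by rw [hX1, hcard])
  obtain ⟨t', ht'⟩ := exists_t (A.erase a0) X2 0 (by rw [hX2, hcard])
  choose r hr using fun d => exists_t A (Y d) 0 (hY d)
  have hz : Nul (op D) (0 : C) := fun y => by
    rw [(op_zero D _).1, (op_zero D _).2]; exact ⟨rfl, rfl⟩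
  have h1 := h c e (fun a d => r d a) (fun a => if a ∈ A.erase a0 then t a else 0)
    (fun a => if a ∈ A.erase a0 then t' a else 0) (fun a => by
      split_ifs with h2
      · exact hXn _ (Multiset.mem_add.2 (Or.inl (by
          rw [← ht]; exact Multiset.mem_map_of_mem _ h2)))
      · exact hz) (fun a => by
      split_ifs with h2
      · exact hXn _ (Multiset.mem_add.2 (Or.inr (by
          rw [← ht']; exact Multiset.mem_map_of_mem _ h2)))
      · exact hz)
  have e1 : ∑ a ∈ A, tri (fun d => r d a) = let3 Y := by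
    have : ∀ a, tri (fun d => r d a) = ((r 0 a, (0 : ZMod 3)) ::ₘ 0) +
        ((r 1 a, 1) ::ₘ 0) + ((r 2 a, 2) ::ₘ 0) := by
      intro a
      unfold tri
      simp only [← Multiset.singleton_add, add_zero]
      abel
    simp only [this, Finset.sum_add_distrib, sum_single]
    unfold let3
    rw [← hr 0, ← hr 1, ← hr 2, Multiset.map_map, Multiset.map_map, Multiset.map_map]
    rfl
  have e2 : ∑ a ∈ A.erase a0, (((if a ∈ A.erase a0 then t a else 0), c + 1) ::ₘ
      ((if a ∈ A.erase a0 then t a else 0), c + 2) ::ₘ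
      ((if a ∈ A.erase a0 then t' a else 0), c + 1) ::ₘ
      ((if a ∈ A.erase a0 then t' a else 0), c + 2) ::ₘ 0) = sqc c (X1 + X2) := by
    have : ∀ a ∈ A.erase a0, (((if a ∈ A.erase a0 then t a else 0), c + 1) ::ₘ
        ((if a ∈ A.erase a0 then t a else 0), c + 2) ::ₘ
        ((if a ∈ A.erase a0 then t' a else 0), c + 1) ::ₘ
        ((if a ∈ A.erase a0 then t' a else 0), c + 2) ::ₘ 0) =
        ((t a, c + 1) ::ₘ 0) + ((t a, c + 2) ::ₘ 0) + ((t' a, c + 1) ::ₘ 0) +
          ((t' a, c + 2) ::ₘ 0) := by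
      intro a ha
      rw [if_pos ha, if_pos ha]
      simp only [← Multiset.singleton_add, add_zero]
      abel
    rw [Finset.sum_congr rfl this]
    simp only [Finset.sum_add_distrib, sum_single]
    unfold sqc
    rw [← ht, ← ht', Multiset.map_add, Multiset.map_add, Multiset.map_map, Multiset.map_map,
      Multiset.map_map, Multiset.map_map]
    simp only [Function.comp_def]
    abel
  rw [e1, e2, add_comm (let3 Y)] at h1
  exact h1

/-- words with two occurrences of an element of `B` -/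
def Sp (D : ExtD F K B C) (W : Multiset (C × ZMod 3)) : Prop := Good W ∧ ∃ s : B, 2 ≤ cn (D.j s) W

/-- lists of words with exponents -/
abbrev LW (C : Type) := List (Multiset (C × ZMod 3) × ZMod 3)

/-- shift of a list -/
def shL (c : ZMod 3) (L : LW C) : LW C := L.map fun p => (p.1, p.2 + c)

/-- total word of a list -/
def sumL (L : LW C) : Multiset (C × ZMod 3) := (L.map fun p => sh p.2 p.1).sum

/-- number of elements with exponent `d` -/
def cntL (d : ZMod 3) (L : LW C) : ℕ := L.countP fun p => p.2 = d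

theorem sumL_shL (c : ZMod 3) (L : LW C) : sumL (shL c L) = sh c (sumL L) := by
  unfold sumL shL
  induction L with
  | nil => rfl
  | cons p L ih =>
    simp only [List.map_cons, List.sum_cons, sh_add, sh_sh]
    rw [ih]

theorem sumL_append (L L' : LW C) : sumL (L ++ L') = sumL L + sumL L' := by
  unfold sumL; rw [List.map_append, List.sum_append]

theorem cntL_append (d : ZMod 3) (L L' : LW C) : cntL d (L ++ L') = cntL d L + cntL d L' := by
  unfold cntL; rw [List.countP_append]

theorem cntL_shL (d c : ZMod 3) (L : LW C) : cntL d (shL c L) = cntL (d - c) L := by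
  unfold cntL shL
  rw [List.countP_map]
  refine List.countP_congr fun p _ => ?_
  simp only [Function.comp, decide_eq_true_eq]
  exact eq_sub_iff_add_eq.symm

/-- balanced lists -/
def BL (P : Multiset (C × ZMod 3) → Prop) : ℕ → Set (LW C)
  | 0 => {L | ∃ W, P W ∧ L = [(W, 0)]}
  | k + 1 => {L | ∃ L1 ∈ BL P k, ∃ L2 ∈ BL P k, L = shL 1 L1 ++ shL 2 L2}

theorem BL_mem {P : Multiset (C × ZMod 3) → Prop} (k : ℕ) : ∀ L ∈ BL P k, ∀ p ∈ L, P p.1 := by
  induction k with
  | zero =>
    rintro L ⟨W, hW, rfl⟩ p hp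
    rw [List.mem_singleton] at hp
    rw [hp]; exact hW
  | succ k ih =>
    rintro L ⟨L1, h1, L2, h2, rfl⟩ p hp
    rcases List.mem_append.1 hp with hp | hp
    · obtain ⟨q, hq, rfl⟩ := List.mem_map.1 hp
      exact ih L1 h1 q hq
    · obtain ⟨q, hq, rfl⟩ := List.mem_map.1 hp
      exact ih L2 h2 q hq

theorem BL_good {P : Multiset (C × ZMod 3) → Prop} (hP : ∀ W, P W → Good W) (k : ℕ) :
    ∀ L ∈ BL P k, Good (sumL L) := by
  induction k with
  | zero =>
    rintro L ⟨W, hW, rfl⟩
    unfold sumL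
    simpa using hP W hW
  | succ k ih =>
    rintro L ⟨L1, h1, L2, h2, rfl⟩
    rw [sumL_append, sumL_shL, sumL_shL]
    exact good_mul (ih L1 h1) (ih L2 h2)

theorem BL_cnt0 {P : Multiset (C × ZMod 3) → Prop} : ∀ L ∈ BL P 0, cntL 0 L = 1 := by
  rintro L ⟨W, hW, rfl⟩
  rfl

theorem BL_cnt1 {P : Multiset (C × ZMod 3) → Prop} : ∀ L ∈ BL P 1, cntL 1 L ≥ 1 ∧
    cntL 2 L ≥ 1 := by
  rintro L ⟨L1, h1, L2, h2, rfl⟩
  have e1 : (1 - 1 : ZMod 3) = 0 := by decide
  have e2 : (2 - 2 : ZMod 3) = 0 := by decide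
  refine ⟨?_, ?_⟩
  · rw [cntL_append, cntL_shL, cntL_shL, e1, BL_cnt0 L1 h1]; omega
  · rw [cntL_append, cntL_shL, cntL_shL, e2, BL_cnt0 L2 h2]; omega

theorem BL_cnt2 {P : Multiset (C × ZMod 3) → Prop} (d : ZMod 3) : ∀ L ∈ BL P 2,
    cntL d L ≥ 1 := by
  rintro L ⟨L1, h1, L2, h2, rfl⟩
  rw [cntL_append, cntL_shL, cntL_shL]
  obtain ⟨h3, h4⟩ := BL_cnt1 L1 h1
  obtain ⟨h5, h6⟩ := BL_cnt1 L2 h2
  have e1 : (0 - 1 : ZMod 3) = 2 := by decide
  have e2 : (1 - 2 : ZMod 3) = 2 := by decide
  have e3 : (2 - 1 : ZMod 3) = 1 := by decide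
  rcases z_cases d with rfl | rfl | rfl
  · rw [e1]; omega
  · rw [e2]; omega
  · rw [e3]; omega

theorem BL_cnt {P : Multiset (C × ZMod 3) → Prop} (k : ℕ) : ∀ (d : ZMod 3), ∀ L ∈ BL P (k + 2),
    cntL d L ≥ 2 ^ k := by
  induction k with
  | zero => intro d L hL; exact BL_cnt2 d L hL
  | succ k ih =>
    rintro d L ⟨L1, h1, L2, h2, rfl⟩
    rw [cntL_append, cntL_shL, cntL_shL, pow_succ]
    have := ih (d - 1) L1 h1
    have := ih (d - 2) L2 h2
    omega

/-- spans of balanced words -/
def PP (D : ExtD F K B C) (k : ℕ) : Submodule K C :=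
  Submodule.span K {x | ∃ L ∈ BL (Sp D) k, x = wd (op D) (sumL L)}

theorem PP_op (D : ExtD F K B C) (hA : IsAlt B) (hH : HB B) (k : ℕ) (a b : C)
    (ha : a ∈ PP D k) (hb : b ∈ PP D k) : op D a b ∈ PP D (k + 1) := by
  unfold PP at ha
  induction ha using Submodule.span_induction with
  | mem a ha =>
    unfold PP at hb
    induction hb using Submodule.span_induction with
    | mem b hb =>
      obtain ⟨L1, h1, rfl⟩ := ha
      obtain ⟨L2, h2, rfl⟩ := hb
      rw [wd_mul (lr D hA hH) (BL_good (fun _ h => h.1) k L1 h1)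
        (BL_good (fun _ h => h.1) k L2 h2)]
      refine Submodule.subset_span ⟨_, ⟨L1, h1, L2, h2, rfl⟩, ?_⟩
      rw [sumL_append, sumL_shL, sumL_shL]
    | zero => rw [(op_zero D _).2]; exact Submodule.zero_mem _
    | add b b' _ _ h3 h4 => rw [op_add_right]; exact Submodule.add_mem _ h3 h4
    | smul c b _ h3 => rw [op_smul_right]; exact Submodule.smul_mem _ _ h3
  | zero => rw [(op_zero D _).1]; exact Submodule.zero_mem _
  | add b b' _ _ h3 h4 => rw [op_add_left]; exact Submodule.add_mem _ h3 h4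
  | smul c b _ h3 => rw [op_smul_left]; exact Submodule.smul_mem _ _ h3

theorem PP_zero (D : ExtD F K B C) (hA : IsAlt B) (hH : HB B) (b : B)
    (hb : b ∈ Sq0 F B) : D.j b ∈ PP D 0 := by
  unfold Sq0 at hb
  induction hb using Submodule.span_induction with
  | mem b hb =>
    obtain ⟨s, hs⟩ := SqP_QQ D hA hH hb
    unfold QQ at hs
    refine Submodule.span_mono ?_ hs
    rintro c ⟨W, h1, h2, rfl⟩
    refine ⟨[(W, 0)], ⟨W, ⟨h1, s, h2⟩, rfl⟩, ?_⟩
    unfold sumL
    simp
  | zero => rw [j_zero D]; exact Submodule.zero_mem _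
  | add b b' _ _ h3 h4 => rw [D.j_add]; exact Submodule.add_mem _ h3 h4
  | smul c b _ h3 => rw [D.j_smul]; exact Submodule.smul_mem _ _ h3

theorem PP_dd (D : ExtD F K B C) (hA : IsAlt B) (hH : HB B) (y : ℕ → B)
    (hy : ∀ i, y i ∈ Sq0 F B) (k : ℕ) : ∀ c, D.j (FreeMagma.lift y (dd k c)) ∈ PP D k := by
  induction k with
  | zero => intro c; rw [dd_zero, FreeMagma.lift_of]; exact PP_zero D hA hH _ (hy c)
  | succ k ih =>
    intro c
    rw [dd_succ, map_mul, D.j_mul, mul_op D]
    exact Submodule.add_mem _ (PP_op D hA hH k _ _ (ih _) (ih _))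
      (Submodule.smul_mem _ _ (PP_op D hA hH k _ _ (ih _) (ih _)))

theorem exists_two {s : C} {W : Multiset (C × ZMod 3)} (h : 2 ≤ cn s W) :
    ∃ (i j : ZMod 3) (W' : Multiset (C × ZMod 3)), W = (s, i) ::ₘ (s, j) ::ₘ W' := by
  obtain ⟨i, W1, rfl, h1⟩ := exists_of_cn (s := s) (W := W) (by omega)
  obtain ⟨j, W2, rfl, _⟩ := exists_of_cn (s := s) (W := W1) (by omega)
  exact ⟨i, j, W2, rfl⟩

theorem Sp_nc {D : ExtD F K B C} {W : Multiset (C × ZMod 3)} (h : Sp D W) :
    ∃ p ∈ W, ∃ q ∈ W, p.2 ≠ q.2 := by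
  obtain ⟨h1, s, h2⟩ := h
  rcases h1.2 with h3 | h3
  · obtain ⟨i, j, W', rfl⟩ := exists_two h2
    simp at h3
  · exact h3

theorem sumL_perm {L L' : LW C} (h : L.Perm L') : sumL L = sumL L' := by
  unfold sumL
  exact (h.map _).sum_eq

theorem cntL_perm {L L' : LW C} (d : ZMod 3) (h : L.Perm L') : cntL d L = cntL d L' := by
  unfold cntL
  exact h.countP_eq _

/-- a word of the form square of type `c` times rest -/
def Ty (D : ExtD F K B C) (c : ZMod 3) (p : Multiset (C × ZMod 3) × ZMod 3) : Prop :=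
  ∃ (s : B) (R : Multiset (C × ZMod 3)), sh p.2 p.1 = (D.j s, c + 1) ::ₘ (D.j s, c + 2) ::ₘ R

theorem Ty_sum (D : ExtD F K B C) (c : ZMod 3) (L : LW C) (h : ∀ p ∈ L, Ty D c p) :
    ∃ (X : Multiset C) (R : Multiset (C × ZMod 3)), X.card = L.length ∧
      (∀ x ∈ X, ∃ s : B, x = D.j s) ∧ sumL L = sqc c X + R := by
  induction L with
  | nil => exact ⟨0, 0, rfl, by simp, rfl⟩
  | cons p L ih =>
    obtain ⟨X, R, h1, h2, h3⟩ := ih fun q hq => h q (by simp [hq])
    obtain ⟨s, R', h4⟩ := h p (by simp)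
    refine ⟨D.j s ::ₘ X, R' + R, by simp [h1], ?_, ?_⟩
    · intro x hx
      rcases Multiset.mem_cons.1 hx with rfl | hx
      · exact ⟨s, rfl⟩
      · exact h2 x hx
    · have : sumL (p :: L) = sh p.2 p.1 + sumL L := by
        unfold sumL; rw [List.map_cons, List.sum_cons]
      rw [this, h3, h4]
      unfold sqc
      rw [Multiset.map_cons, Multiset.map_cons]
      simp only [← Multiset.singleton_add]
      abel

/-- pigeonhole -/
theorem pigeon {X : Type} (P : ZMod 3 → X → Prop) (n : ℕ) (L : List X)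
    (h : ∀ x ∈ L, ∃ c, P c x) (hL : 3 * n ≤ L.length) : ∃ (c : ZMod 3) (L1 L2 : List X),
      L.Perm (L1 ++ L2) ∧ L1.length = n ∧ ∀ x ∈ L1, P c x := by
  classical
  let col : X → ZMod 3 := fun x => if h : ∃ c, P c x then h.choose else 0
  have hcol : ∀ x ∈ L, P (col x) x := by
    intro x hx
    have h1 := h x hx
    show P (if h : ∃ c, P c x then h.choose else 0) x
    rw [dif_pos h1]
    exact h1.choose_spec
  have h1 : L.length = (L.filter fun x => col x = 0).length + (L.filter fun x => col x = 1).length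
      + (L.filter fun x => col x = 2).length := by
    clear hL hcol h
    induction L with
    | nil => rfl
    | cons x L ih =>
      simp only [List.filter_cons, List.length_cons]
      rcases z_cases (col x) with h2 | h2 | h2 <;> rw [h2] <;> simp [z02, z12, z20, z21]
        <;> omega
  obtain ⟨c, hc⟩ : ∃ c, n ≤ (L.filter fun x => col x = c).length := by
    by_contra hcon
    push Not at hcon
    have h2 := hcon 0
    have h3 := hcon 1
    have h4 := hcon 2
    omega
  refine ⟨c, (L.filter fun x => col x = c).take n, (L.filter fun x => col x = c).drop n ++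
    L.filter fun x => ¬ (col x = c), ?_, ?_, ?_⟩
  · rw [← List.append_assoc, List.take_append_drop]
    have := List.filter_append_perm (fun x => decide (col x = c)) L
    refine List.Perm.trans this.symm ?_
    simp
  · rw [List.length_take]; omega
  · intro x hx
    have hx2 := List.mem_filter.1 (List.mem_of_mem_take hx)
    have h3 : col x = c := by simpa using hx2.2
    rw [← h3]
    exact hcol x hx2.1

end

end Pool.Agent.TP.H52
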