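import Pool.Agent.Helper52_TP.C2Hyp

/-! Certificate c2 in characteristic 2, generated (helper52). -/

set_option autoImplicit false
set_option maxRecDepth 1000000

namespace Pool.Agent.TP.Chk2

noncomputable def c2_0 : Tr := (.node (.node (.node (.node (.node (.node (.I .jac (.c 1512103782441961079041378905002237328201 (.c 8 (.c 16 .nil))) .nil) (.I .jac (.c 1512103191868961706263182477688868913993 (.c 8 (.c 16 .nil))) .nil)) (.node (.I .jac (.c 42576953795010663218959029878649750345 (.c 8 (.c 16 .nil))) .nil) (.I .jac (.c 105533754468750300593045802417993 (.c 8 (.c 16 .nil))) .nil))) (.node (.node (.I .jac (.c 27951061050494848579379785769086333720457 (.c 8 (.c 16 .nil))) .nil) (.I .jac (.c 1512103782441961064963223238430258354057 (.c 8 (.c 16 .nil))) .nil)) (.node (.I .jac (.c 1911132888452975777501314320077705 (.c 8 (.c 16 .nil))) .nil) (.I .jac (.c 27951055785643122968540376538297009659785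 (.c 8 (.c 16 .nil))) .nil)))) (.node (.node (.node (.I .jac (.c 427058636821846666152103631404146569 (.c 8 (.c 16 .nil))) .nil) (.I .jac (.c 1809230235455531025412364982344585 (.c 8 (.c 16 .nil))) .nil)) (.node (.I .jac (.c 427057993508084562470663629860471689 (.c 8 (.c 16 .nil))) .nil) (.I .jac (.c 101465489572731241235138809397129 (.c 8 (.c 16 .nil))) .nil))) (.node (.node (.I .jac (.c 27951055785643122908012690443949941767113 (.c 8 (.c 16 .nil))) .nil) (.I .jac (.c 3051551917826763369823227314121 (.c 8 (.c 16 .nil))) .nil)) (.node (.I .jac (.c 1859603590828719327337421759899593 (.c 8 (.c 16 .nil))) .nil) (.I .jac (.c 105533754468739142964158285779977 (.c 8 (.c 16 .nil))) .nil))))) (.node (.node (.node (.node (.I .jac (.c 427057993508084089288477468582296585 (.c 8 (.c 16 .nil))) .nil) (.I .jac (.c 101465489572723947598282130405385 (.c 8 (.c 16 .nil))) .nil)) (.node (.I .jac (.c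 15246325749396561 (.c 8 (.c 16 .nil))) .nil) (.I .jac (.c 15456298926219345 (.c 8 (.c 16 .nil))) .nil))) (.node (.node (.I .jac (.c 47680498716043023250607908555 (.c 8 (.c 16 .nil))) .nil) (.I .jac (.c 1649024349379069078081013509515 (.c 8 (.c 16 .nil))) .nil)) (.node (.I .jac (.c 27951061050494848639907477563920710974217 (.c 8 (.c 24 .nil))) .nil) (.I .jac (.c 1512103782441961079041378905002237328137 (.c 8 (.c 24 .nil))) .nil)))) (.node (.node (.node (.I .jac (.c 27951058418068892863957554057219361971977 (.c 8 (.c 24 .nil))) .nil) (.I .jac (.c 1512103191868961706263182477688868913929 (.c 8 (.c 24 .nil))) .nil)) (.node (.I .jac (.c 105533754468750300593045802417929 (.c 8 (.c 24 .nil))) .nil) (.I .jac (.c 1911177411964075743551050339165961 (.c 8 (.c 24 .nil))) .nil))) (.node (.node (.I .jac (.c 27951061050494848518852093974251956532105 (.c 8 (.c 24 .nil))) .nil) (.I .jac (.c 27951053153217539014174880853583831179145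 (.c 8 (.c 24 .nil))) .nil)) (.node (.I .jac (.c 1760086083483829361758892708256649 (.c 8 (.c 24 .nil))) .nil) (.I .jac (.c 1512102601296135297671723270643481494409 (.c 8 (.c 24 .nil))) .nil)))))) (.node (.node (.node (.node (.node (.I .jac (.c 97535117142658802225506092679049 (.c 8 (.c 24 .nil))) .nil) (.I .jac (.c 1911155150111259961664864764831625 (.c 8 (.c 24 .nil))) .nil)) (.node (.I .jac (.c 42576974092320099556365595025629983689 (.c 8 (.c 24 .nil))) .nil) (.I .jac (.c 1859570876265457888126924734394313 (.c 8 (.c 24 .nil))) .nil))) (.node (.node (.I .jac (.c 27951053153217538953647197609480317336521 (.c 8 (.c 24 .nil))) .nil) (.I .jac (.c 1760086083483814173012955851208649 (.c 8 (.c 24 .nil))) .nil)) (.node (.I .jac (.c 42576892903125868487846022299823817673 (.c 8 (.c 24 .nil))) .nil) (.I .jac (.c 651596688508375012468186189874121 (.c 8 (.c 24 .nil))) .nil)))) (.node (.node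 (.node (.I .jac (.c 1859592685926327833225220410189769 (.c 8 (.c 24 .nil))) .nil) (.I .jac (.c 42576953795010653769602236682924913673 (.c 8 (.c 24 .nil))) .nil)) (.node (.I .jac (.c 651596688508365770927126595477513 (.c 8 (.c 24 .nil))) .nil) (.I .jac (.c 2870101301550132088254642183177 (.c 8 (.c 24 .nil))) .nil))) (.node (.node (.I .jac (.c 15456298926198865 (.c 8 (.c 24 .nil))) .nil) (.I .jac (.c 29861451382077989957330510345483 (.c 8 (.c 24 .nil))) .nil)) (.node (.I .jac (.c 44845332836730247624948147915 (.c 8 (.c 24 .nil))) .nil) (.I .jac (.c 27951058418068892863957554057219361971913 (.c 16 (.c 24 .nil))) .nil))))) (.node (.node (.node (.node (.I .jac (.c 42576974092320106643384879185736244937 (.c 16 (.c 24 .nil))) .nil) (.I .jac (.c 1859570876265504724427643779472073 (.c 16 (.c 24 .nil))) .nil)) (.node (.I .jac (.c 42576953795010663218959029878649750217 (.c 16 (.c 24 .nil)))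 .nil) (.I .jac (.c 105533754468750300593045802417865 (.c 16 (.c 24 .nil))) .nil))) (.node (.node (.I .jac (.c 1911177411964075743551050339165897 (.c 16 (.c 24 .nil))) .nil) (.I .jac (.c 1512102306009786965494079912008658879369 (.c 16 (.c 24 .nil))) .nil)) (.node (.I .jac (.c 1911144019257783685212967566403465 (.c 16 (.c 24 .nil))) .nil) (.I .jac (.c 27951058418068892621846798278856606158793 (.c 16 (.c 24 .nil))) .nil)))) (.node (.node (.node (.I .jac (.c 1859570876265442276026685052832713 (.c 16 (.c 24 .nil))) .nil) (.I .jac (.c 1712113961689565885627358955911113 (.c 16 (.c 24 .nil))) .nil)) (.node (.I .jac (.c 42576872605845451114770277207992337353 (.c 16 (.c 24 .nil))) .nil) (.I .jac (.c 10064237432128545199748236233 (.c 16 (.c 24 .nil))) .nil))) (.node (.node (.I .jac (.c 2698162480891381558379040178121 (.c 16 (.c 24 .nil))) .nil) (.I .jac (.c 1859581781071896992296047629789129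 (.c 16 (.c 24 .nil))) .nil)) (.node (.I .jac (.c 1512103191868961635872417890875254706185 (.c 16 (.c 24 .nil))) .nil) (.I .jac (.c 105533754468731704544899941682185 (.c 16 (.c 24 .nil))) .nil)))))))

noncomputable def c2_1 : Tr := (.node (.node (.node (.node (.node (.node (.I .jac (.c 1512102306009786937337782324909974764553 (.c 16 (.c 24 .nil))) .nil) (.I .jac (.c 10065461098107652387135110153 (.c 16 (.c 24 .nil))) .nil)) (.node (.I .jac (.c 93738611484293500497757600954377 (.c 16 (.c 24 .nil))) .nil) (.I .jac (.c 2698162480890786870601550715913 (.c 16 (.c 24 .nil))) .nil))) (.node (.node (.I .jac (.c 15246236343344209 (.c 16 (.c 24 .nil))) .nil) (.I .jac (.c 15456163896945745 (.c 16 (.c 24 .nil))) .nil)) (.node (.I .jac (.c 15456298926186577 (.c 16 (.c 24 .nil))) .nil) (.I .jac (.c 29861451382077989957330510345419 (.c 16 (.c 24 .nil))) .nil)))) (.node (.node (.node (.I .jac (.c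 26751780651399697373232597634059 (.c 16 (.c 24 .nil))) .nil) (.I .jac (.c 1648964913574222538756177290699 (.c 16 (.c 24 .nil))) .nil)) (.node (.I .jac (.c 1464665804442194627370651428491 (.c 16 (.c 24 .nil))) .nil) (.I .jac (.c 42158788763927691662226826955 (.c 16 (.c 24 .nil))) .nil))) (.node (.node (.I .jac (.c 29861625300903855411901044345995 (.c 16 (.c 24 .nil))) .nil) (.I .jac (.c 29862147061938926929693248923915 (.c 16 (.c 24 .nil))) .nil)) (.node (.I .jac (.c 59109074018392946569 (.c 4673 (.c 16 .nil))) .nil) (.I .jac (.c 59109074018392946569 (.c 2113 (.c 24 .nil))) .nil))))) (.node (.node (.node (.node (.I .jac (.c 59109074018392946569 (.c 8 (.c 16 .nil))) (.b 24 .nil)) (.I .jac (.c 13748198893136698249 (.c 4673 (.c 16 .nil))) .nil)) (.node (.I .jac (.c 13748198893136698249 (.c 8 (.c 24 .nil))) (.b 16 .nil)) (.I .jac (.c 13748198893136698249 (.c 2113 (.c 24 .nil))) .nil)))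 (.node (.node (.I .jac (.c 13748198893136698249 (.c 8 (.c 16 .nil))) (.b 24 .nil)) (.I .jac (.c 15456118887244105 (.c 4673 (.c 16 .nil))) .nil)) (.node (.I .jac (.c 15456118887244105 (.c 2113 (.c 24 .nil))) .nil) (.I .jac (.c 59109071234951844809 (.c 8 (.c 24 .nil))) (.b 16 .nil))))) (.node (.node (.node (.I .jac (.c 2306972423229201353 (.c 8 (.c 24 .nil))) (.b 16 .nil)) (.I .jac (.c 13748196208362034185 (.c 4673 (.c 16 .nil))) .nil)) (.node (.I .jac (.c 13748196208362034185 (.c 2113 (.c 24 .nil))) .nil) (.I .jac (.c 13748196208362034185 (.c 8 (.c 16 .nil))) (.b 24 .nil)))) (.node (.node (.I .jac (.c 2306971873338800137 (.c 4673 (.c 16 .nil))) .nil) (.I .jac (.c 3632040653488585 (.c 4673 (.c 16 .nil))) .nil)) (.node (.I .jac (.c 3632040653488585 (.c 8 (.c 24 .nil))) (.b 16 .nil)) (.I .jac (.c 3632040653488585 (.c 8 (.c 16 .nil))) (.b 24 .nil))))))) (.node (.node (.node (.node (.node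 (.I .jac (.c 15456298926182473 (.c 8 (.c 24 .nil))) (.b 16 .nil)) (.I .jac (.c 15456298926182473 (.c 8 (.c 16 .nil))) (.b 24 .nil))) (.node (.I .jac (.c 27951061050494848579379785769086333720329 (.c 8 (.c 32 .nil))) .nil) (.I .jac (.c 1512103782441961064963223238430258353929 (.c 8 (.c 32 .nil))) .nil))) (.node (.node (.I .jac (.c 427058636821846666152103631404146441 (.c 8 (.c 32 .nil))) .nil) (.I .jac (.c 1809230235455531025412364982344457 (.c 8 (.c 32 .nil))) .nil)) (.node (.I .jac (.c 101465489572731241235138809397001 (.c 8 (.c 32 .nil))) .nil) (.I .jac (.c 1911166281013357267248063802697481 (.c 8 (.c 32 .nil))) .nil)))) (.node (.node (.node (.I .jac (.c 1911132888452959950435573782212425 (.c 8 (.c 32 .nil))) .nil) (.I .jac (.c 1760086083483829361758892708256585 (.c 8 (.c 32 .nil))) .nil)) (.node (.I .jac (.c 1512102601296135297671723270643481494345 (.c 8 (.c 32 .nil))) .nil) (.I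 .jac (.c 1809230235455484827416425822613449 (.c 8 (.c 32 .nil))) .nil))) (.node (.node (.I .jac (.c 1760086083483798984267018994226121 (.c 8 (.c 32 .nil))) .nil) (.I .jac (.c 31637737730463973030333874121 (.c 8 (.c 32 .nil))) .nil)) (.node (.I .jac (.c 1809251600792687288661143085918153 (.c 8 (.c 32 .nil))) .nil) (.I .jac (.c 1512102896582526821614077026536761750537 (.c 8 (.c 32 .nil))) .nil))))) (.node (.node (.node (.node (.I .jac (.c 427057993508083616106291307304383497 (.c 8 (.c 32 .nil))) .nil) (.I .jac (.c 101465489572716653961425451675657 (.c 8 (.c 32 .nil))) .nil)) (.node (.I .jac (.c 651601654921532475892036648802313 (.c 8 (.c 32 .nil))) .nil) (.I .jac (.c 427056063571158149899930723770114057 (.c 8 (.c 32 .nil))) .nil))) (.node (.node (.I .jac (.c 651591722123570596944749659643913 (.c 8 (.c 32 .nil))) .nil) (.I .jac (.c 101467951811503808354312734910473 (.c 8 (.c 32 .nil)))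 .nil)) (.node (.I .jac (.c 15038498931148881 (.c 8 (.c 32 .nil))) .nil) (.I .jac (.c 15456208906618961 (.c 8 (.c 32 .nil))) .nil)))) (.node (.node (.node (.I .jac (.c 28269222428992668512465668737931 (.c 8 (.c 32 .nil))) .nil) (.I .jac (.c 27501345054434830069292772576203 (.c 8 (.c 32 .nil))) .nil)) (.node (.I .jac (.c 1585398274573924753962513540619 (.c 8 (.c 32 .nil))) .nil) (.I .jac (.c 1523986205354042911851369686603 (.c 8 (.c 32 .nil))) .nil))) (.node (.node (.I .jac (.c 494339652038483856963364555 (.c 8 (.c 32 .nil))) .nil) (.I .jac (.c 28269556262386938205620111686411 (.c 8 (.c 32 .nil))) .nil)) (.node (.I .jac (.c 1585436747055088008564707153291 (.c 8 (.c 32 .nil))) .nil) (.I .jac (.c 27951061050494848579379785769086333720265 (.c 16 (.c 32 .nil))) .nil)))))))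

noncomputable def c2_2 : Tr := (.node (.node (.node (.node (.node (.node (.I .jac (.c 1911132888452975777501314320077513 (.c 16 (.c 32 .nil))) .nil) (.I .jac (.c 27951055785643122968540376538297009659593 (.c 16 (.c 32 .nil))) .nil)) (.node (.I .jac (.c 427058636821846666152103631404146377 (.c 16 (.c 32 .nil))) .nil) (.I .jac (.c 1809230235455531025412364982344393 (.c 16 (.c 32 .nil))) .nil))) (.node (.node (.I .jac (.c 1512102896582526877926683197569543635657 (.c 16 (.c 32 .nil))) .nil) (.I .jac (.c 1911166281013357267248063802697417 (.c 16 (.c 32 .nil))) .nil)) (.node (.I .jac (.c 1512103782441961036806911905286300602185 (.c 16 (.c 32 .nil))) .nil) (.I .jac (.c 27951050520792141000852311054881784782665 (.c 16 (.c 32 .nil))) .nil)))) (.node (.node (.node (.I .jac (.c 10066684875777433669609463625 (.c 16 (.c 32 .nil))) .nil) (.I .jac (.c 1512102306009786965494079912008658879305 (.c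 16 (.c 32 .nil))) .nil)) (.node (.I .jac (.c 10065461098180296729435276105 (.c 16 (.c 32 .nil))) .nil) (.I .jac (.c 1911144019257783685212967566403401 (.c 16 (.c 32 .nil))) .nil))) (.node (.node (.I .jac (.c 27951055785643122726429632160908738482121 (.c 16 (.c 32 .nil))) .nil) (.I .jac (.c 1809230235455469428084446102834121 (.c 16 (.c 32 .nil))) .nil)) (.node (.I .jac (.c 27951050520792140879796950267161731045321 (.c 16 (.c 32 .nil))) .nil) (.I .jac (.c 427055420260303274284998876733539273 (.c 16 (.c 32 .nil))) .nil))))) (.node (.node (.node (.node (.I .jac (.c 10063013877651720715266098121 (.c 16 (.c 32 .nil))) .nil) (.I .jac (.c 28374916743873793267608813513 (.c 16 (.c 32 .nil))) .nil)) (.node (.I .jac (.c 1809240918100417214955082230360009 (.c 16 (.c 32 .nil))) .nil) (.I .jac (.c 3561367726992465 (.c 16 (.c 32 .nil))) .nil))) (.node (.node (.I .jac (.c 101465489572713007142997112409097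 (.c 16 (.c 32 .nil))) .nil) (.I .jac (.c 10065461098071330215985125385 (.c 16 (.c 32 .nil))) .nil)) (.node (.I .jac (.c 427055420260303037694618589709918217 (.c 16 (.c 32 .nil))) .nil) (.I .jac (.c 28374916743812808375320239113 (.c 16 (.c 32 .nil))) .nil)))) (.node (.node (.node (.I .jac (.c 15038454533815377 (.c 16 (.c 32 .nil))) .nil) (.I .jac (.c 15456163896917073 (.c 16 (.c 32 .nil))) .nil)) (.node (.I .jac (.c 15456253916353617 (.c 16 (.c 32 .nil))) .nil) (.I .jac (.c 29861451382077742659428314440267 (.c 16 (.c 32 .nil))) .nil))) (.node (.node (.I .jac (.c 28269222428992668512465668737867 (.c 16 (.c 32 .nil))) .nil) (.I .jac (.c 26751780651399697373232597633995 (.c 16 (.c 32 .nil))) .nil)) (.node (.I .jac (.c 1585398274573924753962513540555 (.c 16 (.c 32 .nil))) .nil) (.I .jac (.c 29861625300903608113278694259211 (.c 16 (.c 32 .nil))) .nil)))))) (.node (.node (.node (.node (.node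 (.I .jac (.c 28269389345320218300422223471371 (.c 16 (.c 32 .nil))) .nil) (.I .jac (.c 1585417510726982208008530263435 (.c 16 (.c 32 .nil))) .nil)) (.node (.I .jac (.c 29861973140833950736750179422475 (.c 16 (.c 32 .nil))) .nil) (.I .jac (.c 59109074018392946505 (.c 8257 (.c 16 .nil))) .nil))) (.node (.node (.I .jac (.c 59109074018392946505 (.c 2113 (.c 32 .nil))) .nil) (.I .jac (.c 13748198893136698185 (.c 8257 (.c 16 .nil))) .nil)) (.node (.I .jac (.c 13748198893136698185 (.c 8 (.c 32 .nil))) (.b 16 .nil)) (.I .jac (.c 13748198893136698185 (.c 2113 (.c 32 .nil))) .nil)))) (.node (.node (.node (.I .jac (.c 13748198893136698185 (.c 8 (.c 16 .nil))) (.b 32 .nil)) (.I .jac (.c 15456118887244041 (.c 8 (.c 32 .nil))) (.b 16 .nil))) (.node (.I .jac (.c 15456118887244041 (.c 2113 (.c 32 .nil))) .nil) (.I .jac (.c 59109068451510808521 (.c 8257 (.c 16 .nil))) .nil))) (.node (.node (.I .jac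 (.c 59109068451510808521 (.c 8 (.c 32 .nil))) (.b 16 .nil)) (.I .jac (.c 59109068451510808521 (.c 8 (.c 16 .nil))) (.b 32 .nil))) (.node (.I .jac (.c 231046163358604233 (.c 2113 (.c 32 .nil))) .nil) (.I .jac (.c 15038410136445321 (.c 8257 (.c 16 .nil))) .nil))))) (.node (.node (.node (.node (.I .jac (.c 15038410136445321 (.c 8 (.c 32 .nil))) (.b 16 .nil)) (.I .jac (.c 15038410136445321 (.c 2113 (.c 32 .nil))) .nil)) (.node (.I .jac (.c 15038410136445321 (.c 8 (.c 16 .nil))) (.b 32 .nil)) (.I .jac (.c 13748194865974800393 (.c 8257 (.c 16 .nil))) .nil))) (.node (.node (.I .jac (.c 13748194865974800393 (.c 2113 (.c 32 .nil))) .nil) (.I .jac (.c 231045989336561673 (.c 8257 (.c 16 .nil))) .nil)) (.node (.I .jac (.c 231045989336561673 (.c 8 (.c 32 .nil))) (.b 16 .nil)) (.I .jac (.c 231045989336561673 (.c 2113 (.c 32 .nil))) .nil)))) (.node (.node (.node (.I .jac (.c 3561346121425353 (.c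 8257 (.c 16 .nil))) .nil) (.I .jac (.c 15456253916349513 (.c 8257 (.c 16 .nil))) .nil)) (.node (.I .jac (.c 15456253916349513 (.c 2113 (.c 32 .nil))) .nil) (.I .jac (.c 15456253916349513 (.c 8 (.c 16 .nil))) (.b 32 .nil)))) (.node (.node (.I .jac (.c 651601654921560200620872561558217 (.c 24 (.c 32 .nil))) .nil) (.I .jac (.c 97535117142658802225506092678857 (.c 24 (.c 32 .nil))) .nil)) (.node (.I .jac (.c 27951061050494848458324402179417579409161 (.c 24 (.c 32 .nil))) .nil) (.I .jac (.c 1512103782441961036806911905286300602121 (.c 24 (.c 32 .nil))) .nil)))))))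

noncomputable def c2_3 : Tr := (.node (.node (.node (.node (.node (.node (.I .jac (.c 1911132888452944123369833244412681 (.c 24 (.c 32 .nil))) .nil) (.I .jac (.c 10066684875777433669609463561 (.c 24 (.c 32 .nil))) .nil)) (.node (.I .jac (.c 1512102306009786965494079912008658879241 (.c 24 (.c 32 .nil))) .nil) (.I .jac (.c 10065461098180296729435276041 (.c 24 (.c 32 .nil))) .nil))) (.node (.node (.I .jac (.c 1911144019257783685212967566403337 (.c 24 (.c 32 .nil))) .nil) (.I .jac (.c 27951050520792140819269269873301704274889 (.c 24 (.c 32 .nil))) .nil)) (.node (.I .jac (.c 10066684875668460532184331209 (.c 24 (.c 32 .nil))) .nil) (.I .jac (.c 1712113961689535924973081282146249 (.c 24 (.c 32 .nil))) .nil)))) (.node (.node (.node (.I .jac (.c 651601654921513992739479373959177 (.c 24 (.c 32 .nil))) .nil) (.I .jac (.c 97535117142640924779607613918217 (.c 24 (.c 32 .nil))) .nil)) (.node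 (.I .jac (.c 651581789439149858614694249422857 (.c 24 (.c 32 .nil))) .nil) (.I .jac (.c 10061790434706725190145613833 (.c 24 (.c 32 .nil))) .nil))) (.node (.node (.I .jac (.c 15456163896896593 (.c 24 (.c 32 .nil))) .nil) (.I .jac (.c 15456208906586193 (.c 24 (.c 32 .nil))) .nil)) (.node (.I .jac (.c 29861451382077495361526118536139 (.c 24 (.c 32 .nil))) .nil) (.I .jac (.c 27501345054434830069292772576075 (.c 24 (.c 32 .nil))) .nil))))) (.node (.node (.node (.node (.I .jac (.c 26751780651399697373232597633931 (.c 24 (.c 32 .nil))) .nil) (.I .jac (.c 1464665804442194627370651428363 (.c 24 (.c 32 .nil))) .nil)) (.node (.I .jac (.c 29861625300903360814656344173451 (.c 24 (.c 32 .nil))) .nil) (.I .jac (.c 1524004879907878948251688484235 (.c 24 (.c 32 .nil))) .nil))) (.node (.node (.I .jac (.c 59109074018392946441 (.c 8257 (.c 24 .nil))) .nil) (.I .jac (.c 59109074018392946441 (.c 8 (.c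 32 .nil))) (.b 24 .nil))) (.node (.I .jac (.c 59109074018392946441 (.c 4673 (.c 32 .nil))) .nil) (.I .jac (.c 13748198893136698121 (.c 8257 (.c 24 .nil))) .nil)))) (.node (.node (.node (.I .jac (.c 13748198893136698121 (.c 8 (.c 32 .nil))) (.b 24 .nil)) (.I .jac (.c 13748198893136698121 (.c 4673 (.c 32 .nil))) .nil)) (.node (.I .jac (.c 13748198893136698121 (.c 8 (.c 24 .nil))) (.b 32 .nil)) (.I .jac (.c 15456118887243977 (.c 8257 (.c 24 .nil))) .nil))) (.node (.node (.I .jac (.c 15456118887243977 (.c 8 (.c 24 .nil))) (.b 32 .nil)) (.I .jac (.c 59109065668069837769 (.c 8257 (.c 24 .nil))) .nil)) (.node (.I .jac (.c 59109065668069837769 (.c 4673 (.c 32 .nil))) .nil) (.I .jac (.c 59109065668069837769 (.c 8 (.c 24 .nil))) (.b 32 .nil))))))) (.node (.node (.node (.node (.node (.I .jac (.c 9025011228269513 (.c 8257 (.c 24 .nil))) .nil) (.I .jac (.c 9025011228269513 (.c 8 (.c 32 .nil)))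 (.b 24 .nil))) (.node (.I .jac (.c 9025011228269513 (.c 8 (.c 24 .nil))) (.b 32 .nil)) (.I .jac (.c 14832759703961993 (.c 8257 (.c 24 .nil))) .nil))) (.node (.node (.I .jac (.c 14832759703961993 (.c 8 (.c 32 .nil))) (.b 24 .nil)) (.I .jac (.c 14832759703961993 (.c 4673 (.c 32 .nil))) .nil)) (.node (.I .jac (.c 14832759703961993 (.c 8 (.c 24 .nil))) (.b 32 .nil)) (.I .jac (.c 13748193523587632137 (.c 8257 (.c 24 .nil))) .nil)))) (.node (.node (.node (.I .jac (.c 13748193523587632137 (.c 8 (.c 32 .nil))) (.b 24 .nil)) (.I .jac (.c 13748193523587632137 (.c 4673 (.c 32 .nil))) .nil)) (.node (.I .jac (.c 9024976834607113 (.c 8 (.c 32 .nil))) (.b 24 .nil)) (.I .jac (.c 9024976834607113 (.c 4673 (.c 32 .nil))) .nil))) (.node (.node (.I .jac (.c 9024976834607113 (.c 8 (.c 24 .nil))) (.b 32 .nil)) (.I .jac (.c 3491688652046793 (.c 8 (.c 32 .nil))) (.b 24 .nil))) (.node (.I .jac (.c 3491688652046793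 (.c 8 (.c 24 .nil))) (.b 32 .nil)) (.I .jac (.c 15456208906582089 (.c 4673 (.c 32 .nil))) .nil))))) (.node (.node (.node (.node (.I .jac (.c 13748198893136698057 (.c 16 (.c 24 .nil))) (.b 32 .nil)) (.I .jac (.c 15456118887243913 (.c 8321 (.c 24 .nil))) .nil)) (.node (.I .jac (.c 59109062884628932553 (.c 16 (.c 24 .nil))) (.b 32 .nil)) (.I .jac (.c 35473026505673 (.c 16 (.c 32 .nil))) (.b 24 .nil)))) (.node (.node (.I .jac (.c 35473026505673 (.c 16 (.c 24 .nil))) (.b 32 .nil)) (.I .jac (.c 14629225721520521 (.c 8321 (.c 24 .nil))) .nil)) (.node (.I .jac (.c 14629225721520521 (.c 16 (.c 32 .nil))) (.b 24 .nil)) (.I .jac (.c 14629225721520521 (.c 4737 (.c 32 .nil))) .nil)))) (.node (.node (.node (.I .jac (.c 14629225721520521 (.c 16 (.c 24 .nil))) (.b 32 .nil)) (.I .jac (.c 35470870263817 (.c 4737 (.c 32 .nil))) .nil)) (.node (.I .jac (.c 35470870263817 (.c 16 (.c 24 .nil))) (.b 32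 .nil)) (.I .jac (.c 3423058053194185 (.c 8321 (.c 24 .nil))) .nil))) (.node (.node (.I .jac (.c 3423058053194185 (.c 4737 (.c 32 .nil))) .nil) (.I .jac (.c 3423058053194185 (.c 16 (.c 24 .nil))) (.b 32 .nil))) (.node (.I .jac (.c 15456163896880201 (.c 8321 (.c 24 .nil))) .nil) (.I .jac (.c 15456163896880201 (.c 16 (.c 32 .nil))) (.b 24 .nil))))))))

noncomputable def c2_4 : Tr := (.node (.node (.node (.node (.node (.node (.I .jac (.c 15456163896880201 (.c 4737 (.c 32 .nil))) .nil) (.I .jac (.c 15456163896880201 (.c 16 (.c 24 .nil))) (.b 32 .nil))) (.node (.I .jac (.c 2718204233 (.c 8257 (.c 24 .nil))) (.b 16 .nil)) (.I .jac (.c 2718204233 (.c 8 (.c 32 .nil))) (.b 24 (.b 16 .nil))))) (.node (.node (.I .jac (.c 2718204233 (.c 4673 (.c 32 .nil))) (.b 16 .nil)) (.I .jac (.c 2718204233 (.c 8786499 (.c 16 .nil))) .nil)) (.node (.I .jac (.c 2718204233 (.c 35718409 (.c 24 .nil))) .nil) (.I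 .jac (.c 2718204233 (.c 8 (.c 16 .nil))) (.b 32 (.b 24 .nil)))))) (.node (.node (.node (.I .jac (.c 2718204233 (.c 8652867 (.c 24 .nil))) .nil) (.I .jac (.c 2718204233 (.c 174695561 (.c 32 .nil))) .nil)) (.node (.I .jac (.c 2718204233 (.c 4673 (.c 16 .nil))) (.b 32 .nil)) (.I .jac (.c 2718204233 (.c 35718345 (.c 32 .nil))) .nil))) (.node (.node (.I .jac (.c 2718204233 (.c 2113 (.c 24 .nil))) (.b 32 .nil)) (.I .jac (.c 2718204233 (.c 2803779 (.c 32 .nil))) .nil)) (.node (.I .jac (.c 1310925193 (.c 545424585 (.c 16 .nil))) .nil) (.I .jac (.c 1310925193 (.c 174695689 (.c 16 .nil))) .nil))))) (.node (.node (.node (.node (.I .jac (.c 1310925193 (.c 8 (.c 32 .nil))) (.b 16 (.b 24 .nil))) (.I .jac (.c 1310925193 (.c 35718409 (.c 24 .nil))) .nil)) (.node (.I .jac (.c 1310925193 (.c 8 (.c 16 .nil))) (.b 32 (.b 24 .nil))) (.I .jac (.c 1310925193 (.c 8652867 (.c 24 .nil))) .nil))) (.node (.node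 (.I .jac (.c 1310925193 (.c 8 (.c 24 .nil))) (.b 16 (.b 32 .nil))) (.I .jac (.c 1310925193 (.c 8 (.c 16 .nil))) (.b 24 (.b 32 .nil)))) (.node (.I .jac (.c 1310925193 (.c 8 (.c 8786563 .nil))) .nil) (.I .jac (.c 43954691 (.c 545424585 (.c 16 .nil))) .nil)))) (.node (.node (.node (.I .jac (.c 43954691 (.c 174695689 (.c 16 .nil))) .nil) (.I .jac (.c 43954691 (.c 545424521 (.c 24 .nil))) .nil)) (.node (.I .jac (.c 43954691 (.c 8257 (.c 16 .nil))) (.b 24 .nil)) (.I .jac (.c 43954691 (.c 35718409 (.c 24 .nil))) .nil))) (.node (.node (.I .jac (.c 43954691 (.c 174695561 (.c 32 .nil))) .nil) (.I .jac (.c 43954691 (.c 4673 (.c 16 .nil))) (.b 32 .nil))) (.node (.I .jac (.c 43954691 (.c 2113 (.c 24 .nil))) (.b 32 .nil)) (.I .jac (.c 43954691 (.c 8 (.c 16 .nil))) (.b 24 (.b 32 .nil)))))))) (.node (.node (.node (.node (.node (.I .jac (.c 43954691 (.c 2803779 (.c 32 .nil))) .nil) (.I .jac (.c 42576974092320101918705356412332005129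 (.c 8 (.c 40 .nil))) .nil)) (.node (.I .jac (.c 27951055785643122908012690443949941766921 (.c 8 (.c 40 .nil))) .nil) (.I .jac (.c 427058636821846429560832352193444617 (.c 8 (.c 40 .nil))) .nil))) (.node (.node (.I .jac (.c 42576913200413542961749526065342513929 (.c 8 (.c 40 .nil))) .nil) (.I .jac (.c 427057350195049030035896088956977929 (.c 8 (.c 40 .nil))) .nil)) (.node (.I .jac (.c 27951053153217538953647197609480317336393 (.c 8 (.c 40 .nil))) .nil) (.I .jac (.c 651606621363117027878554774109001 (.c 8 (.c 40 .nil))) .nil)))) (.node (.node (.node (.I .jac (.c 651596688508375012468186189873993 (.c 8 (.c 40 .nil))) .nil) (.I .jac (.c 2870101301550745431484650323785 (.c 8 (.c 40 .nil))) .nil)) (.node (.I .jac (.c 1859592685926327833225220410189641 (.c 8 (.c 40 .nil))) .nil) (.I .jac (.c 427058636821845956378289793772237705 (.c 8 (.c 40 .nil))) .nil))) (.node (.node (.I .jac (.c 1809230235455484827416425822613385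 (.c 8 (.c 40 .nil))) .nil) (.I .jac (.c 27951053153217538893119514365376803559305 (.c 8 (.c 40 .nil))) .nil)) (.node (.I .jac (.c 651606621363107786267057026226057 (.c 8 (.c 40 .nil))) .nil) (.I .jac (.c 617629514971217 (.c 8 (.c 40 .nil))) .nil))))) (.node (.node (.node (.node (.I .jac (.c 42576913200413533512397237570979656713 (.c 8 (.c 40 .nil))) .nil) (.I .jac (.c 427057350195048083672236560419042313 (.c 8 (.c 40 .nil))) .nil)) (.node (.I .jac (.c 3051551917824233633037003976713 (.c 8 (.c 40 .nil))) .nil) (.I .jac (.c 42576892903125861400833495191760328713 (.c 8 (.c 40 .nil))) .nil))) (.node (.node (.I .jac (.c 427056063571157913309372238443346953 (.c 8 (.c 40 .nil))) .nil) (.I .jac (.c 651591722123561355438909041458185 (.c 8 (.c 40 .nil))) .nil)) (.node (.I .jac (.c 15038498931112017 (.c 8 (.c 40 .nil))) .nil) (.I .jac (.c 15246281046272081 (.c 8 (.c 40 .nil))) .nil)))) (.node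 (.node (.node (.I .jac (.c 15246325749310545 (.c 8 (.c 40 .nil))) .nil) (.I .jac (.c 28269222428992427897903485613323 (.c 8 (.c 40 .nil))) .nil)) (.node (.I .jac (.c 27501345054434592745137509184843 (.c 8 (.c 40 .nil))) .nil) (.I .jac (.c 44845332836730247624948147787 (.c 8 (.c 40 .nil))) .nil))) (.node (.node (.I .jac (.c 29056135717599600404064026645003 (.c 8 (.c 40 .nil))) .nil) (.I .jac (.c 47683277197737203872376018315 (.c 8 (.c 40 .nil))) .nil)) (.node (.I .jac (.c 29056306106699223560489755089803 (.c 8 (.c 40 .nil))) .nil) (.I .jac (.c 27951058418068892742902176168037983934153 (.c 16 (.c 40 .nil))) .nil)))))))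

noncomputable def c2_5 : Tr := (.node (.node (.node (.node (.node (.node (.I .jac (.c 427058636821846429560832352193444553 (.c 16 (.c 40 .nil))) .nil) (.I .jac (.c 1809230235455515626080385262368457 (.c 16 (.c 40 .nil))) .nil)) (.node (.I .jac (.c 427057350195049030035896088956977865 (.c 16 (.c 40 .nil))) .nil) (.I .jac (.c 3051551917826763369823227313865 (.c 16 (.c 40 .nil))) .nil))) (.node (.node (.I .jac (.c 1859603590828719327337421759899337 (.c 16 (.c 40 .nil))) .nil) (.I .jac (.c 42576974092320097194025833638928027465 (.c 16 (.c 40 .nil))) .nil)) (.node (.I .jac (.c 27951050520792140940324630661021757881161 (.c 16 (.c 40 .nil))) .nil) (.I .jac (.c 10066684875741109290467687241 (.c 16 (.c 40 .nil))) .nil)))) (.node (.node (.node (.I .jac (.c 1712113961689565885627358955910985 (.c 16 (.c 40 .nil))) .nil) (.I .jac (.c 42576872605845451114770277207992337225 (.c 16 (.c 40 .nil)))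 .nil)) (.node (.I .jac (.c 10064237432128545199748236105 (.c 16 (.c 40 .nil))) .nil) (.I .jac (.c 2698162480891381558379040177993 (.c 16 (.c 40 .nil))) .nil))) (.node (.node (.I .jac (.c 1859581781071896992296047629789001 (.c 16 (.c 40 .nil))) .nil) (.I .jac (.c 27951055785643122726429632160908738482057 (.c 16 (.c 40 .nil))) .nil)) (.node (.I .jac (.c 427058636821845719787018514561732489 (.c 16 (.c 40 .nil))) .nil) (.I .jac (.c 27951050520792140879796950267161731045257 (.c 16 (.c 40 .nil))) .nil))))) (.node (.node (.node (.node (.I .jac (.c 1712113961689550905300220118995849 (.c 16 (.c 40 .nil))) .nil) (.I .jac (.c 427055420260303274284998876733539209 (.c 16 (.c 40 .nil))) .nil)) (.node (.I .jac (.c 10063013877651720715266098057 (.c 16 (.c 40 .nil))) .nil) (.I .jac (.c 1809240918100417214955082230359945 (.c 16 (.c 40 .nil))) .nil))) (.node (.node (.I .jac (.c 427057350195047847081321678284722185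 (.c 16 (.c 40 .nil))) .nil) (.I .jac (.c 42576872605845444027759439362436274185 (.c 16 (.c 40 .nil))) .nil)) (.node (.I .jac (.c 10064237432019585310071937033 (.c 16 (.c 40 .nil))) .nil) (.I .jac (.c 427055420260302801104238302686362633 (.c 16 (.c 40 .nil))) .nil)))) (.node (.node (.node (.I .jac (.c 28374916743751823483031730185 (.c 16 (.c 40 .nil))) .nil) (.I .jac (.c 15246236343278673 (.c 16 (.c 40 .nil))) .nil)) (.node (.I .jac (.c 29055794941648019629501533921867 (.c 16 (.c 40 .nil))) .nil) (.I .jac (.c 42158788763927691662226826827 (.c 16 (.c 40 .nil))) .nil))) (.node (.node (.I .jac (.c 443358074123013130916669067 (.c 16 (.c 40 .nil))) .nil) (.I .jac (.c 28269389345319977685149684059275 (.c 16 (.c 40 .nil))) .nil)) (.node (.I .jac (.c 47681887941711471725338787211 (.c 16 (.c 40 .nil))) .nil) (.I .jac (.c 59109071234951844681 (.c 8 (.c 40 .nil))) (.b 16 .nil))))))) (.node (.node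 (.node (.node (.node (.I .jac (.c 59109071234951844681 (.c 2113 (.c 40 .nil))) .nil) (.I .jac (.c 59109071234951844681 (.c 8 (.c 16 .nil))) (.b 40 .nil))) (.node (.I .jac (.c 2306972423229201225 (.c 8 (.c 16 .nil))) (.b 40 .nil)) (.I .jac (.c 15246191640314121 (.c 8 (.c 40 .nil))) (.b 16 .nil)))) (.node (.node (.I .jac (.c 15246191640314121 (.c 8 (.c 16 .nil))) (.b 40 .nil)) (.I .jac (.c 59109068451510808457 (.c 8 (.c 40 .nil))) (.b 16 .nil))) (.node (.I .jac (.c 59109068451510808457 (.c 2113 (.c 40 .nil))) .nil) (.I .jac (.c 59109068451510808457 (.c 8 (.c 16 .nil))) (.b 40 .nil))))) (.node (.node (.node (.I .jac (.c 231046163358604169 (.c 8 (.c 40 .nil))) (.b 16 .nil)) (.I .jac (.c 15038410136445257 (.c 8 (.c 16 .nil))) (.b 40 .nil))) (.node (.I .jac (.c 2306970773558194185 (.c 8 (.c 40 .nil))) (.b 16 .nil)) (.I .jac (.c 2306970773558194185 (.c 8 (.c 16 .nil))) (.b 40 .nil)))) (.node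 (.node (.I .jac (.c 231045815314584585 (.c 8 (.c 16 .nil))) (.b 40 .nil)) (.I .jac (.c 617611520074185 (.c 12865 (.c 16 .nil))) .nil)) (.node (.I .jac (.c 15246325749294153 (.c 12865 (.c 16 .nil))) .nil) (.I .jac (.c 15246325749294153 (.c 8 (.c 40 .nil))) (.b 16 .nil)))))) (.node (.node (.node (.node (.I .jac (.c 15246325749294153 (.c 8 (.c 16 .nil))) (.b 40 .nil)) (.I .jac (.c 42576974092320099556365595025629983433 (.c 24 (.c 40 .nil))) .nil)) (.node (.I .jac (.c 1859570876265457888126924734394057 (.c 24 (.c 40 .nil))) .nil) (.I .jac (.c 651606621363117027878554774108873 (.c 24 (.c 40 .nil))) .nil))) (.node (.node (.I .jac (.c 1760086083483814173012955851208393 (.c 24 (.c 40 .nil))) .nil) (.I .jac (.c 42576892903125868487846022299823817417 (.c 24 (.c 40 .nil))) .nil)) (.node (.I .jac (.c 651596688508375012468186189873865 (.c 24 (.c 40 .nil))) .nil) (.I .jac (.c 2870101301550745431484650323657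 (.c 24 (.c 40 .nil))) .nil)))) (.node (.node (.node (.I .jac (.c 1859592685926327833225220410189513 (.c 24 (.c 40 .nil))) .nil) (.I .jac (.c 42576974092320097194025833638928027401 (.c 24 (.c 40 .nil))) .nil)) (.node (.I .jac (.c 1859570876265442276026685052832521 (.c 24 (.c 40 .nil))) .nil) (.I .jac (.c 27951050520792140940324630661021757881097 (.c 24 (.c 40 .nil))) .nil))) (.node (.node (.I .jac (.c 10066684875741109290467687177 (.c 24 (.c 40 .nil))) .nil) (.I .jac (.c 10064237432128545199748236041 (.c 24 (.c 40 .nil))) .nil)) (.node (.I .jac (.c 2698162480891381558379040177929 (.c 24 (.c 40 .nil))) .nil) (.I .jac (.c 10066684875668460532184331145 (.c 24 (.c 40 .nil))) .nil)))))))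

noncomputable def c2_6 : Tr := (.node (.node (.node (.node (.node (.node (.I .jac (.c 651581789439159100050097116709769 (.c 24 (.c 40 .nil))) .nil) (.I .jac (.c 10061790434743040737723204489 (.c 24 (.c 40 .nil))) .nil)) (.node (.I .jac (.c 1760096547751797123547316855728009 (.c 24 (.c 40 .nil))) .nil) (.I .jac (.c 42576892903125856676158477119718330377 (.c 24 (.c 40 .nil))) .nil))) (.node (.node (.I .jac (.c 42576872605845441665422493413917717513 (.c 24 (.c 40 .nil))) .nil) (.I .jac (.c 2698162480889002807269082722313 (.c 24 (.c 40 .nil))) .nil)) (.node (.I .jac (.c 651581789439140617179291382201353 (.c 24 (.c 40 .nil))) .nil) (.I .jac (.c 10061790434670409642568088585 (.c 24 (.c 40 .nil))) .nil)))) (.node (.node (.node (.I .jac (.c 14832803796683857 (.c 24 (.c 40 .nil))) .nil) (.I .jac (.c 15246236343258193 (.c 24 (.c 40 .nil))) .nil)) (.node (.I .jac (.c 29055794941647775690435288896459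 (.c 24 (.c 40 .nil))) .nil) (.I .jac (.c 27501345054434592745137509184715 (.c 24 (.c 40 .nil))) .nil))) (.node (.node (.I .jac (.c 42158788763927691662226826763 (.c 24 (.c 40 .nil))) .nil) (.I .jac (.c 29055965329248874572629642144651 (.c 24 (.c 40 .nil))) .nil)) (.node (.I .jac (.c 44846659635985718831597993355 (.c 24 (.c 40 .nil))) .nil) (.I .jac (.c 59109071234951844617 (.c 8 (.c 40 .nil))) (.b 24 .nil)))))) (.node (.node (.node (.node (.I .jac (.c 2306972423229201161 (.c 12865 (.c 24 .nil))) .nil) (.I .jac (.c 2306972423229201161 (.c 4673 (.c 40 .nil))) .nil)) (.node (.I .jac (.c 2306972423229201161 (.c 8 (.c 24 .nil))) (.b 40 .nil)) (.I .jac (.c 15246191640314057 (.c 12865 (.c 24 .nil))) .nil))) (.node (.node (.I .jac (.c 15246191640314057 (.c 8 (.c 40 .nil))) (.b 24 .nil)) (.I .jac (.c 15246191640314057 (.c 4673 (.c 40 .nil))) .nil)) (.node (.I .jac (.c 15246191640314057 (.c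 8 (.c 24 .nil))) (.b 40 .nil)) (.I .jac (.c 59109065668069837705 (.c 12865 (.c 24 .nil))) .nil)))) (.node (.node (.node (.I .jac (.c 59109065668069837705 (.c 8 (.c 40 .nil))) (.b 24 .nil)) (.I .jac (.c 59109065668069837705 (.c 8 (.c 24 .nil))) (.b 40 .nil))) (.node (.I .jac (.c 9025011228269449 (.c 12865 (.c 24 .nil))) .nil) (.I .jac (.c 9025011228269449 (.c 8 (.c 40 .nil))) (.b 24 .nil)))) (.node (.node (.I .jac (.c 9025011228269449 (.c 8 (.c 24 .nil))) (.b 40 .nil)) (.I .jac (.c 14832759703961929 (.c 12865 (.c 24 .nil))) .nil)) (.node (.I .jac (.c 14832759703961929 (.c 8 (.c 24 .nil))) (.b 40 .nil)) (.I .jac (.c 2306970223667989513 (.c 12865 (.c 24 .nil))) .nil)))))) (.node (.node (.node (.node (.node (.I .jac (.c 2306970223667989513 (.c 4673 (.c 40 .nil))) .nil) (.I .jac (.c 9024942441010185 (.c 8 (.c 40 .nil))) (.b 24 .nil))) (.node (.I .jac (.c 598967998054857 (.c 12865 (.c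 24 .nil))) .nil) (.I .jac (.c 598967998054857 (.c 8 (.c 40 .nil))) (.b 24 .nil)))) (.node (.node (.I .jac (.c 598967998054857 (.c 4673 (.c 40 .nil))) .nil) (.I .jac (.c 598967998054857 (.c 8 (.c 24 .nil))) (.b 40 .nil))) (.node (.I .jac (.c 15246281046235209 (.c 12865 (.c 24 .nil))) .nil) (.I .jac (.c 15246281046235209 (.c 8 (.c 40 .nil))) (.b 24 .nil))))) (.node (.node (.node (.I .jac (.c 59109071234951844553 (.c 4737 (.c 40 .nil))) .nil) (.I .jac (.c 2306972423229201097 (.c 16 (.c 24 .nil))) (.b 40 .nil))) (.node (.I .jac (.c 15246191640313993 (.c 4737 (.c 40 .nil))) .nil) (.I .jac (.c 59109062884628932489 (.c 4737 (.c 40 .nil))) .nil))) (.node (.node (.I .jac (.c 59109062884628932489 (.c 16 (.c 24 .nil))) (.b 40 .nil)) (.I .jac (.c 35473026505609 (.c 16 (.c 40 .nil))) (.b 24 .nil))) (.node (.I .jac (.c 35473026505609 (.c 4737 (.c 40 .nil))) .nil) (.I .jac (.c 35473026505609 (.c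 16 (.c 24 .nil))) (.b 40 .nil)))))) (.node (.node (.node (.node (.I .jac (.c 14629225721520457 (.c 4737 (.c 40 .nil))) .nil) (.I .jac (.c 2306969673777850377 (.c 16 (.c 40 .nil))) (.b 24 .nil))) (.node (.I .jac (.c 2306969673777850377 (.c 4737 (.c 40 .nil))) .nil) (.I .jac (.c 2306969673777850377 (.c 16 (.c 24 .nil))) (.b 40 .nil)))) (.node (.node (.I .jac (.c 35468714087433 (.c 12929 (.c 24 .nil))) .nil) (.I .jac (.c 580749782704585 (.c 12929 (.c 24 .nil))) .nil)) (.node (.I .jac (.c 580749782704585 (.c 16 (.c 40 .nil))) (.b 24 .nil)) (.I .jac (.c 580749782704585 (.c 4737 (.c 40 .nil))) .nil)))) (.node (.node (.node (.I .jac (.c 580749782704585 (.c 16 (.c 24 .nil))) (.b 40 .nil)) (.I .jac (.c 15246236343241801 (.c 16 (.c 40 .nil))) (.b 24 .nil))) (.node (.I .jac (.c 15246236343241801 (.c 4737 (.c 40 .nil))) .nil) (.I .jac (.c 15246236343241801 (.c 16 (.c 24 .nil))) (.b 40 .nil))))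 (.node (.node (.I .jac (.c 2718204169 (.c 1324065993 (.c 16 .nil))) .nil) (.I .jac (.c 2718204169 (.c 8 (.c 24 .nil))) (.b 40 (.b 16 .nil)))) (.node (.I .jac (.c 2718204169 (.c 21099075 (.c 16 .nil))) .nil) (.I .jac (.c 2718204169 (.c 1324065929 (.c 24 .nil))) .nil)))))))

noncomputable def c2_7 : Tr := (.node (.node (.node (.node (.node (.node (.I .jac (.c 2718204169 (.c 12865 (.c 16 .nil))) (.b 24 .nil)) (.I .jac (.c 2718204169 (.c 8 (.c 40 .nil))) (.b 16 (.b 24 .nil)))) (.node (.I .jac (.c 2718204169 (.c 35718473 (.c 24 .nil))) .nil) (.I .jac (.c 2718204169 (.c 8 (.c 16 .nil))) (.b 40 (.b 24 .nil))))) (.node (.node (.I .jac (.c 2718204169 (.c 2803779 (.c 40 .nil))) .nil) (.I .jac (.c 2718204169 (.c 8 (.c 21099139 .nil))) .nil)) (.node (.I .jac (.c 537002377 (.c 174695753 (.c 16 .nil))) .nil) (.I .jac (.c 537002377 (.c 4673 (.c 40 .nil))) (.b 16 .nil))))) (.node (.node (.node (.I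 .jac (.c 537002377 (.c 1324065929 (.c 24 .nil))) .nil) (.I .jac (.c 537002377 (.c 12865 (.c 16 .nil))) (.b 24 .nil))) (.node (.I .jac (.c 537002377 (.c 35718473 (.c 24 .nil))) .nil) (.I .jac (.c 537002377 (.c 2113 (.c 24 .nil))) (.b 40 .nil)))) (.node (.node (.I .jac (.c 537002377 (.c 8 (.c 21099139 .nil))) .nil) (.I .jac (.c 43655171 (.c 1324065993 (.c 16 .nil))) .nil)) (.node (.I .jac (.c 43655171 (.c 4673 (.c 40 .nil))) (.b 16 .nil)) (.I .jac (.c 43655171 (.c 8 (.c 24 .nil))) (.b 40 (.b 16 .nil))))))) (.node (.node (.node (.node (.I .jac (.c 43655171 (.c 1324065929 (.c 24 .nil))) .nil) (.I .jac (.c 43655171 (.c 8 (.c 40 .nil))) (.b 16 (.b 24 .nil)))) (.node (.I .jac (.c 43655171 (.c 35718473 (.c 24 .nil))) .nil) (.I .jac (.c 43655171 (.c 2113 (.c 40 .nil))) (.b 24 .nil)))) (.node (.node (.I .jac (.c 43655171 (.c 8 (.c 16 .nil))) (.b 40 (.b 24 .nil))) (.I .jac (.c 43655171 (.c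 8 (.c 24 .nil))) (.b 16 (.b 40 .nil)))) (.node (.I .jac (.c 43655171 (.c 2113 (.c 24 .nil))) (.b 40 .nil)) (.I .jac (.c 1809230235455484827416425822613193 (.c 32 (.c 40 .nil))) .nil)))) (.node (.node (.node (.I .jac (.c 651606621363107786267057026225865 (.c 32 (.c 40 .nil))) .nil) (.I .jac (.c 1760086083483798984267018994225865 (.c 32 (.c 40 .nil))) .nil)) (.node (.I .jac (.c 651591722123579838450590277894857 (.c 32 (.c 40 .nil))) .nil) (.I .jac (.c 1809251600792687288661143085917897 (.c 32 (.c 40 .nil))) .nil))) (.node (.node (.I .jac (.c 427058636821845719787018514561732361 (.c 32 (.c 40 .nil))) .nil) (.I .jac (.c 27951050520792140879796950267161731045129 (.c 32 (.c 40 .nil))) .nil)) (.node (.I .jac (.c 10066684875704784911325976329 (.c 32 (.c 40 .nil))) .nil) (.I .jac (.c 427055420260303274284998876733539081 (.c 32 (.c 40 .nil))) .nil)))))) (.node (.node (.node (.node (.node (.I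 .jac (.c 28374916743873793267608813321 (.c 32 (.c 40 .nil))) .nil) (.I .jac (.c 27951050520792140819269269873301704274761 (.c 32 (.c 40 .nil))) .nil)) (.node (.I .jac (.c 10066684875668460532184331081 (.c 32 (.c 40 .nil))) .nil) (.I .jac (.c 1712113961689535924973081282146121 (.c 32 (.c 40 .nil))) .nil))) (.node (.node (.I .jac (.c 651581789439159100050097116709705 (.c 32 (.c 40 .nil))) .nil) (.I .jac (.c 10061790434743040737723204425 (.c 32 (.c 40 .nil))) .nil)) (.node (.I .jac (.c 651591722123533630921387187294217 (.c 32 (.c 40 .nil))) .nil) (.I .jac (.c 31637737730141993933194546185 (.c 32 (.c 40 .nil))) .nil)))) (.node (.node (.node (.I .jac (.c 427055420260302327923477728639448073 (.c 32 (.c 40 .nil))) .nil) (.I .jac (.c 10063013877506449693794530313 (.c 32 (.c 40 .nil))) .nil)) (.node (.I .jac (.c 651581789439131375743888515045385 (.c 32 (.c 40 .nil))) .nil) (.I .jac (.c 10061790434634094094990628873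 (.c 32 (.c 40 .nil))) .nil))) (.node (.node (.I .jac (.c 49484669137443443691131913 (.c 32 (.c 40 .nil))) .nil) (.I .jac (.c 15038498931050577 (.c 32 (.c 40 .nil))) .nil)) (.node (.I .jac (.c 27501345054434355420982245794379 (.c 32 (.c 40 .nil))) .nil) (.I .jac (.c 26751780651399229238009508979339 (.c 32 (.c 40 .nil))) .nil))))) (.node (.node (.node (.node (.I .jac (.c 494339652038483856963364299 (.c 32 (.c 40 .nil))) .nil) (.I .jac (.c 28269556262385975741688524699915 (.c 32 (.c 40 .nil))) .nil)) (.node (.I .jac (.c 59109068451510808329 (.c 8 (.c 32 .nil))) (.b 40 .nil)) (.I .jac (.c 15038410136445129 (.c 8257 (.c 40 .nil))) .nil))) (.node (.node (.I .jac (.c 15038410136445129 (.c 8 (.c 32 .nil))) (.b 40 .nil)) (.I .jac (.c 59109065668069837641 (.c 12865 (.c 32 .nil))) .nil)) (.node (.I .jac (.c 59109065668069837641 (.c 8 (.c 40 .nil))) (.b 32 .nil)) (.I .jac (.c 59109065668069837641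 (.c 8257 (.c 40 .nil))) .nil)))) (.node (.node (.node (.I .jac (.c 59109065668069837641 (.c 8 (.c 32 .nil))) (.b 40 .nil)) (.I .jac (.c 9025011228269385 (.c 8 (.c 40 .nil))) (.b 32 .nil))) (.node (.I .jac (.c 231045467270827017 (.c 8257 (.c 40 .nil))) .nil) (.I .jac (.c 9024908047478793 (.c 8 (.c 32 .nil))) (.b 40 .nil)))) (.node (.node (.I .jac (.c 62886542410185 (.c 12865 (.c 32 .nil))) .nil) (.I .jac (.c 62886542410185 (.c 8 (.c 40 .nil))) (.b 32 .nil))) (.node (.I .jac (.c 62886542410185 (.c 8 (.c 32 .nil))) (.b 40 .nil)) (.I .jac (.c 15038498931046473 (.c 12865 (.c 32 .nil))) .nil)))))))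

noncomputable def c2_8 : Tr := (.node (.node (.node (.node (.node (.node (.I .jac (.c 59109068451510808265 (.c 12929 (.c 32 .nil))) .nil) (.I .jac (.c 59109068451510808265 (.c 16 (.c 40 .nil))) (.b 32 .nil))) (.node (.I .jac (.c 59109068451510808265 (.c 16 (.c 32 .nil))) (.b 40 .nil)) (.I .jac (.c 15038410136445065 (.c 12929 (.c 32 .nil))) .nil))) (.node (.node (.I .jac (.c 15038410136445065 (.c 16 (.c 40 .nil))) (.b 32 .nil)) (.I .jac (.c 15038410136445065 (.c 16 (.c 32 .nil))) (.b 40 .nil))) (.node (.I .jac (.c 59109062884628932425 (.c 16 (.c 40 .nil))) (.b 32 .nil)) (.I .jac (.c 35473026505545 (.c 12929 (.c 32 .nil))) .nil)))) (.node (.node (.node (.I .jac (.c 35473026505545 (.c 16 (.c 40 .nil))) (.b 32 .nil)) (.I .jac (.c 14629225721520393 (.c 12929 (.c 32 .nil))) .nil)) (.node (.I .jac (.c 14629225721520393 (.c 8321 (.c 40 .nil))) .nil) (.I .jac (.c 14629225721520393 (.c 16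 (.c 32 .nil))) (.b 40 .nil)))) (.node (.node (.I .jac (.c 231045293249046537 (.c 16 (.c 32 .nil))) (.b 40 .nil)) (.I .jac (.c 35466557976585 (.c 12929 (.c 32 .nil))) .nil)) (.node (.I .jac (.c 35466557976585 (.c 16 (.c 40 .nil))) (.b 32 .nil)) (.I .jac (.c 35466557976585 (.c 8321 (.c 40 .nil))) .nil))))) (.node (.node (.node (.node (.I .jac (.c 35466557976585 (.c 16 (.c 32 .nil))) (.b 40 .nil)) (.I .jac (.c 59555558875593 (.c 16 (.c 40 .nil))) (.b 32 .nil))) (.node (.I .jac (.c 15038454533712969 (.c 12929 (.c 32 .nil))) .nil) (.I .jac (.c 15038454533712969 (.c 8321 (.c 40 .nil))) .nil))) (.node (.node (.I .jac (.c 15038454533712969 (.c 16 (.c 32 .nil))) (.b 40 .nil)) (.I .jac (.c 2718204105 (.c 1324066057 (.c 16 .nil))) .nil)) (.node (.I .jac (.c 2718204105 (.c 8 (.c 40 .nil))) (.b 32 (.b 16 .nil))) (.I .jac (.c 2718204105 (.c 8257 (.c 40 .nil))) (.b 16 .nil))))) (.node (.node (.node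 (.I .jac (.c 2718204105 (.c 8 (.c 32 .nil))) (.b 40 (.b 16 .nil))) (.I .jac (.c 2718204105 (.c 35718473 (.c 32 .nil))) .nil)) (.node (.I .jac (.c 2718204105 (.c 2113 (.c 40 .nil))) (.b 32 .nil)) (.I .jac (.c 2718204105 (.c 8 (.c 16 .nil))) (.b 40 (.b 32 .nil))))) (.node (.node (.I .jac (.c 2718204105 (.c 8 (.c 32 .nil))) (.b 16 (.b 40 .nil))) (.I .jac (.c 2718204105 (.c 35718409 (.c 40 .nil))) .nil)) (.node (.I .jac (.c 2718204105 (.c 2113 (.c 32 .nil))) (.b 40 .nil)) (.I .jac (.c 2718204105 (.c 8 (.c 16 .nil))) (.b 32 (.b 40 .nil)))))))) (.node (.node (.node (.node (.node (.I .jac (.c 2718204105 (.c 8 (.c 21307523 .nil))) .nil) (.I .jac (.c 169943433 (.c 1324066057 (.c 16 .nil))) .nil)) (.node (.I .jac (.c 169943433 (.c 12865 (.c 32 .nil))) (.b 16 .nil)) (.I .jac (.c 169943433 (.c 8 (.c 40 .nil))) (.b 32 (.b 16 .nil))))) (.node (.node (.I .jac (.c 169943433 (.c 8 (.c 32 .nil)))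 (.b 40 (.b 16 .nil))) (.I .jac (.c 169943433 (.c 21307459 (.c 16 .nil))) .nil)) (.node (.I .jac (.c 169943433 (.c 8 (.c 40 .nil))) (.b 16 (.b 32 .nil))) (.I .jac (.c 169943433 (.c 35718473 (.c 32 .nil))) .nil)))) (.node (.node (.node (.I .jac (.c 169943433 (.c 2113 (.c 40 .nil))) (.b 32 .nil)) (.I .jac (.c 169943433 (.c 20891715 (.c 32 .nil))) .nil)) (.node (.I .jac (.c 169943433 (.c 8 (.c 32 .nil))) (.b 16 (.b 40 .nil))) (.I .jac (.c 169943433 (.c 8 (.c 21307523 .nil))) .nil))) (.node (.node (.I .jac (.c 43356675 (.c 1324066057 (.c 16 .nil))) .nil) (.I .jac (.c 43356675 (.c 12865 (.c 32 .nil))) (.b 16 .nil))) (.node (.I .jac (.c 43356675 (.c 8 (.c 40 .nil))) (.b 32 (.b 16 .nil))) (.I .jac (.c 43356675 (.c 545424713 (.c 16 .nil))) .nil))))) (.node (.node (.node (.node (.I .jac (.c 43356675 (.c 1324065929 (.c 32 .nil))) .nil) (.I .jac (.c 43356675 (.c 35718473 (.c 32 .nil))) .nil))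 (.node (.I .jac (.c 43356675 (.c 8 (.c 16 .nil))) (.b 40 (.b 32 .nil))) (.I .jac (.c 43356675 (.c 545424521 (.c 40 .nil))) .nil))) (.node (.node (.I .jac (.c 43356675 (.c 8257 (.c 16 .nil))) (.b 40 .nil)) (.I .jac (.c 43356675 (.c 35718409 (.c 40 .nil))) .nil)) (.node (.I .jac (.c 43356675 (.c 8 (.c 16 .nil))) (.b 32 (.b 40 .nil))) (.I .jac (.c 43356675 (.c 8652867 (.c 40 .nil))) .nil)))) (.node (.node (.node (.I .jac (.c 59109065668069837513 (.c 12993 (.c 32 .nil))) .nil) (.I .jac (.c 59109065668069837513 (.c 24 (.c 40 .nil))) (.b 32 .nil))) (.node (.I .jac (.c 9025011228269257 (.c 24 (.c 40 .nil))) (.b 32 .nil)) (.I .jac (.c 9025011228269257 (.c 8385 (.c 40 .nil))) .nil))) (.node (.node (.I .jac (.c 14832759703961737 (.c 24 (.c 32 .nil))) (.b 40 .nil)) (.I .jac (.c 59109062884628932361 (.c 12993 (.c 32 .nil))) .nil)) (.node (.I .jac (.c 59109062884628932361 (.c 8385 (.c 40 .nil)))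 .nil) (.I .jac (.c 59109062884628932361 (.c 24 (.c 32 .nil))) (.b 40 .nil))))))))

noncomputable def c2_9 : Tr := (.node (.node (.node (.node (.node (.node (.I .jac (.c 35473026505481 (.c 12993 (.c 32 .nil))) .nil) (.I .jac (.c 35473026505481 (.c 8385 (.c 40 .nil))) .nil)) (.node (.I .jac (.c 35473026505481 (.c 24 (.c 32 .nil))) (.b 40 .nil)) (.I .jac (.c 14629225721520329 (.c 24 (.c 32 .nil))) (.b 40 .nil)))) (.node (.node (.I .jac (.c 9024839260612617 (.c 12993 (.c 32 .nil))) .nil) (.I .jac (.c 9024839260612617 (.c 24 (.c 40 .nil))) (.b 32 .nil))) (.node (.I .jac (.c 9024839260612617 (.c 8385 (.c 40 .nil))) .nil) (.I .jac (.c 35464401931273 (.c 8385 (.c 40 .nil))) .nil)))) (.node (.node (.node (.I .jac (.c 2487083360713 (.c 12993 (.c 32 .nil))) .nil) (.I .jac (.c 2487083360713 (.c 24 (.c 40 .nil))) (.b 32 .nil))) (.node (.I .jac (.c 2487083360713 (.c 8385 (.c 40 .nil))) .nil) (.I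 .jac (.c 2487083360713 (.c 24 (.c 32 .nil))) (.b 40 .nil)))) (.node (.node (.I .jac (.c 14832803796618313 (.c 8385 (.c 40 .nil))) .nil) (.I .jac (.c 2718204041 (.c 545424713 (.c 24 .nil))) .nil)) (.node (.I .jac (.c 2718204041 (.c 8257 (.c 40 .nil))) (.b 24 .nil)) (.I .jac (.c 2718204041 (.c 21307459 (.c 24 .nil))) .nil))))) (.node (.node (.node (.node (.I .jac (.c 2718204041 (.c 1324065993 (.c 32 .nil))) .nil) (.I .jac (.c 2718204041 (.c 8 (.c 40 .nil))) (.b 24 (.b 32 .nil)))) (.node (.I .jac (.c 2718204041 (.c 545424585 (.c 40 .nil))) .nil) (.I .jac (.c 2718204041 (.c 4673 (.c 32 .nil))) (.b 40 .nil)))) (.node (.node (.I .jac (.c 2718204041 (.c 8 (.c 24 .nil))) (.b 32 (.b 40 .nil))) (.I .jac (.c 2718204041 (.c 8786499 (.c 40 .nil))) .nil)) (.node (.I .jac (.c 2718204041 (.c 8 (.c 21307587 .nil))) .nil) (.I .jac (.c 33587593 (.c 1324066057 (.c 24 .nil))) .nil)))) (.node (.node (.node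 (.I .jac (.c 33587593 (.c 8 (.c 40 .nil))) (.b 32 (.b 24 .nil))) (.I .jac (.c 33587593 (.c 545424713 (.c 24 .nil))) .nil)) (.node (.I .jac (.c 33587593 (.c 174695753 (.c 32 .nil))) .nil) (.I .jac (.c 33587593 (.c 8 (.c 24 .nil))) (.b 40 (.b 32 .nil))))) (.node (.node (.I .jac (.c 33587593 (.c 21099075 (.c 32 .nil))) .nil) (.I .jac (.c 33587593 (.c 545424585 (.c 40 .nil))) .nil)) (.node (.I .jac (.c 33587593 (.c 8257 (.c 24 .nil))) (.b 40 .nil)) (.I .jac (.c 33587593 (.c 8 (.c 24 .nil))) (.b 32 (.b 40 .nil)))))))) (.node (.node (.node (.node (.node (.I .jac (.c 33587593 (.c 8 (.c 21307587 .nil))) .nil) (.I .jac (.c 43059203 (.c 545424713 (.c 24 .nil))) .nil)) (.node (.I .jac (.c 43059203 (.c 8257 (.c 40 .nil))) (.b 24 .nil)) (.I .jac (.c 43059203 (.c 8 (.c 32 .nil))) (.b 40 (.b 24 .nil))))) (.node (.node (.I .jac (.c 43059203 (.c 21099075 (.c 32 .nil))) .nil) (.I .jac (.c 43059203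 (.c 545424585 (.c 40 .nil))) .nil)) (.node (.I .jac (.c 43059203 (.c 8257 (.c 24 .nil))) (.b 40 .nil)) (.I .jac (.c 43059203 (.c 8786499 (.c 40 .nil))) .nil)))) (.node (.node (.node (.I .jac (.c 43059203 (.c 8 (.c 21307587 .nil))) .nil) (.I .jac (.c 2718203977 (.c 16 (.c 32 .nil))) (.b 40 (.b 24 .nil)))) (.node (.I .jac (.c 2718203977 (.c 21099139 (.c 32 .nil))) .nil) (.I .jac (.c 2718203977 (.c 16 (.c 32 .nil))) (.b 24 (.b 40 .nil))))) (.node (.node (.I .jac (.c 2718203977 (.c 8786563 (.c 40 .nil))) .nil) (.I .jac (.c 2105737 (.c 1337272585 (.c 24 .nil))) .nil)) (.node (.I .jac (.c 2105737 (.c 12929 (.c 32 .nil))) (.b 24 .nil)) (.I .jac (.c 2105737 (.c 16 (.c 40 .nil))) (.b 32 (.b 24 .nil))))))) (.node (.node (.node (.node (.I .jac (.c 2105737 (.c 553912649 (.c 24 .nil))) .nil) (.I .jac (.c 2105737 (.c 8321 (.c 40 .nil))) (.b 24 .nil))) (.node (.I .jac (.c 2105737 (.c 16 (.c 32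 .nil))) (.b 40 (.b 24 .nil))) (.I .jac (.c 2105737 (.c 21307523 (.c 24 .nil))) .nil))) (.node (.node (.I .jac (.c 2105737 (.c 4737 (.c 40 .nil))) (.b 32 .nil)) (.I .jac (.c 2105737 (.c 16 (.c 24 .nil))) (.b 40 (.b 32 .nil)))) (.node (.I .jac (.c 2105737 (.c 4737 (.c 32 .nil))) (.b 40 .nil)) (.I .jac (.c 2105737 (.c 16 (.c 24 .nil))) (.b 32 (.b 40 .nil)))))) (.node (.node (.node (.I .jac (.c 2105737 (.c 8786563 (.c 40 .nil))) .nil) (.I .jac (.c 2105737 (.c 16 (.c 21307587 .nil))) .nil)) (.node (.I .jac (.c 42762755 (.c 12929 (.c 32 .nil))) (.b 24 .nil)) (.I .jac (.c 42762755 (.c 16 (.c 40 .nil))) (.b 32 (.b 24 .nil))))) (.node (.node (.I .jac (.c 42762755 (.c 21307523 (.c 24 .nil))) .nil) (.I .jac (.c 42762755 (.c 16 (.c 40 .nil))) (.b 24 (.b 32 .nil)))) (.node (.I .jac (.c 42762755 (.c 4737 (.c 40 .nil))) (.b 32 .nil)) (.I .jac (.c 42762755 (.c 8321 (.c 24 .nil))) (.b 40 .nil))))))))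

noncomputable def c2_10 : Tr := (.node (.node (.node (.node (.node (.node (.I .jac (.c 42762755 (.c 16 (.c 32 .nil))) (.b 24 (.b 40 .nil))) (.I .jac (.c 42762755 (.c 16 (.c 21307587 .nil))) .nil)) (.node (.I .jac (.c 18433 (.c 8 (.c 32 .nil))) (.b 40 (.b 24 (.b 16 .nil)))) (.I .jac (.c 18433 (.c 8 (.c 40 .nil))) (.b 24 (.b 32 (.b 16 .nil)))))) (.node (.node (.I .jac (.c 18433 (.c 244148670041478089 (.c 16 .nil))) .nil) (.I .jac (.c 18433 (.c 174695689 (.c 40 .nil))) (.b 16 .nil))) (.node (.I .jac (.c 18433 (.c 4673 (.c 32 .nil))) (.b 40 (.b 16 .nil))) (.I .jac (.c 18433 (.c 8 (.c 24 .nil))) (.b 32 (.b 40 (.b 16 .nil))))))) (.node (.node (.node (.I .jac (.c 18433 (.c 8786499 (.c 40 .nil))) (.b 16 .nil)) (.I .jac (.c 18433 (.c 3632106110100617 (.c 16 .nil))) .nil)) (.node (.I .jac (.c 18433 (.c 8 (.c 21307587 .nil))) (.b 16 .nil)) (.I .jac (.c 18433 (.c 8 (.c 32 .nil))) (.b 40 (.b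 16 (.b 24 .nil)))))) (.node (.node (.I .jac (.c 18433 (.c 3632062472293577 (.c 24 .nil))) .nil) (.I .jac (.c 18433 (.c 21307459 (.c 16 .nil))) (.b 24 .nil))) (.node (.I .jac (.c 18433 (.c 10206474507614089 (.c 24 .nil))) .nil) (.I .jac (.c 18433 (.c 35718473 (.c 32 .nil))) (.b 24 .nil)))))) (.node (.node (.node (.node (.I .jac (.c 18433 (.c 2113 (.c 40 .nil))) (.b 32 (.b 24 .nil))) (.I .jac (.c 18433 (.c 8 (.c 16 .nil))) (.b 40 (.b 32 (.b 24 .nil))))) (.node (.I .jac (.c 18433 (.c 20891715 (.c 32 .nil))) (.b 24 .nil)) (.I .jac (.c 18433 (.c 10206437931930569 (.c 24 .nil))) .nil))) (.node (.node (.I .jac (.c 18433 (.c 35718409 (.c 40 .nil))) (.b 24 .nil)) (.I .jac (.c 18433 (.c 8 (.c 16 .nil))) (.b 32 (.b 40 (.b 24 .nil))))) (.node (.I .jac (.c 18433 (.c 598976858557833 (.c 24 .nil))) .nil) (.I .jac (.c 18433 (.c 8652867 (.c 40 .nil))) (.b 24 .nil))))) (.node (.node (.node (.I .jac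 (.c 18433 (.c 3632084291164297 (.c 24 .nil))) .nil) (.I .jac (.c 18433 (.c 8 (.c 21307523 .nil))) (.b 24 .nil))) (.node (.I .jac (.c 18433 (.c 14025206030552608521 (.c 32 .nil))) .nil) (.I .jac (.c 18433 (.c 1324065993 (.c 16 .nil))) (.b 32 .nil)))) (.node (.node (.I .jac (.c 18433 (.c 12865 (.c 24 .nil))) (.b 16 (.b 32 .nil))) (.I .jac (.c 18433 (.c 8 (.c 40 .nil))) (.b 24 (.b 16 (.b 32 .nil))))) (.node (.I .jac (.c 18433 (.c 3561367726845129 (.c 32 .nil))) .nil) (.I .jac (.c 18433 (.c 21099075 (.c 16 .nil))) (.b 32 .nil))))))) (.node (.node (.node (.node (.node (.I .jac (.c 18433 (.c 12865 (.c 16 .nil))) (.b 24 (.b 32 .nil))) (.I .jac (.c 18433 (.c 2113 (.c 40 .nil))) (.b 24 (.b 32 .nil)))) (.node (.I .jac (.c 18433 (.c 8 (.c 16 .nil))) (.b 40 (.b 24 (.b 32 .nil)))) (.I .jac (.c 18433 (.c 3491710045129993 (.c 32 .nil))) .nil))) (.node (.node (.I .jac (.c 18433 (.c 10206401356312521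 (.c 32 .nil))) .nil) (.I .jac (.c 18433 (.c 12865 (.c 8786563 .nil))) .nil)) (.node (.I .jac (.c 18433 (.c 2379903823379377929 (.c 40 .nil))) .nil) (.I .jac (.c 18433 (.c 545424585 (.c 16 .nil))) (.b 40 .nil))))) (.node (.node (.node (.I .jac (.c 18433 (.c 8257 (.c 24 .nil))) (.b 16 (.b 40 .nil))) (.I .jac (.c 18433 (.c 244148670041477897 (.c 40 .nil))) .nil)) (.node (.I .jac (.c 18433 (.c 174695689 (.c 16 .nil))) (.b 40 .nil)) (.I .jac (.c 18433 (.c 617620517416137 (.c 40 .nil))) .nil))) (.node (.node (.I .jac (.c 18433 (.c 8652867 (.c 24 .nil))) (.b 40 .nil)) (.I .jac (.c 18433 (.c 62889413446985 (.c 40 .nil))) .nil)) (.node (.I .jac (.c 18433 (.c 617629514823817 (.c 40 .nil))) .nil) (.I .jac (.c 18433 (.c 8 (.c 8786563 .nil))) (.b 40 .nil)))))) (.node (.node (.node (.node (.I .jac (.c 18433 (.c 8 (.c 32 .nil))) (.b 21099139 .nil)) (.I .jac (.c 18433 (.c 8 (.c 16 .nil))) (.b 21307587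 .nil))) (.node (.I .jac (.c 105533754468739142964158285779721 (.c 8 (.c 48 .nil))) .nil) (.I .jac (.c 427057993508084089288477468582296329 (.c 8 (.c 48 .nil))) .nil))) (.node (.node (.I .jac (.c 101465489572723947598282130405129 (.c 8 (.c 48 .nil))) .nil) (.I .jac (.c 1512103191868961649950570808237977416521 (.c 8 (.c 48 .nil))) .nil)) (.node (.I .jac (.c 105533754468735423754529113698121 (.c 8 (.c 48 .nil))) .nil) (.I .jac (.c 1512102601296135269515422934336011008841 (.c 8 (.c 48 .nil))) .nil)))) (.node (.node (.node (.I .jac (.c 97535117142651651247146700977993 (.c 8 (.c 48 .nil))) .nil) (.I .jac (.c 42576892903125866125508513263802589001 (.c 8 (.c 48 .nil))) .nil)) (.node (.I .jac (.c 105536290384975911038036627826505 (.c 8 (.c 48 .nil))) .nil) (.I .jac (.c 427057993508083616106291307304383369 (.c 8 (.c 48 .nil))) .nil))) (.node (.node (.I .jac (.c 1512102601296135255437272766182275864457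 (.c 8 (.c 48 .nil))) .nil) (.I .jac (.c 97535117142648075757967005225865 (.c 8 (.c 48 .nil))) .nil)) (.node (.I .jac (.c 42576913200413533512397237570979656649 (.c 8 (.c 48 .nil))) .nil) (.I .jac (.c 3051551917824233633037003976649 (.c 8 (.c 48 .nil))) .nil)))))))

noncomputable def c2_11 : Tr := (.node (.node (.node (.node (.node (.node (.I .jac (.c 651596688508347287845007406880713 (.c 8 (.c 48 .nil))) .nil) (.I .jac (.c 2870101301548905401794626098121 (.c 8 (.c 48 .nil))) .nil)) (.node (.I .jac (.c 427056063571157913309372238443346889 (.c 8 (.c 48 .nil))) .nil) (.I .jac (.c 651591722123561355438909041458121 (.c 8 (.c 48 .nil))) .nil))) (.node (.node (.I .jac (.c 47680498716033141466286721931 (.c 8 (.c 48 .nil))) .nil) (.I .jac (.c 1649004537265422041994225406475 (.c 8 (.c 48 .nil))) .nil)) (.node (.I .jac (.c 1649024349378836623289967057803 (.c 8 (.c 48 .nil))) .nil) (.I .jac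 (.c 42576953795010656131941434981856024265 (.c 16 (.c 48 .nil))) .nil)))) (.node (.node (.node (.I .jac (.c 105533754468739142964158285779657 (.c 16 (.c 48 .nil))) .nil) (.I .jac (.c 1512102896582526849770380112053152561865 (.c 16 (.c 48 .nil))) .nil)) (.node (.I .jac (.c 427057993508084089288477468582296265 (.c 16 (.c 48 .nil))) .nil) (.I .jac (.c 101465489572723947598282130405065 (.c 16 (.c 48 .nil))) .nil))) (.node (.node (.I .jac (.c 3051551917826130935626671381193 (.c 16 (.c 48 .nil))) .nil) (.I .jac (.c 105537558360238163450942167246537 (.c 16 (.c 48 .nil))) .nil)) (.node (.I .jac (.c 42576953795010651407263038383993868105 (.c 16 (.c 48 .nil))) .nil) (.I .jac (.c 105533754468731704544899941681993 (.c 16 (.c 48 .nil))) .nil))))) (.node (.node (.node (.node (.I .jac (.c 10065461098107652387135109961 (.c 16 (.c 48 .nil))) .nil) (.I .jac (.c 93738611484293500497757600954185 (.c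 16 (.c 48 .nil))) .nil)) (.node (.I .jac (.c 427057993508083379515198226665525129 (.c 16 (.c 48 .nil))) .nil) (.I .jac (.c 101465489572713007142997112408969 (.c 16 (.c 48 .nil))) .nil))) (.node (.node (.I .jac (.c 10065461098071330215985125257 (.c 16 (.c 48 .nil))) .nil) (.I .jac (.c 93738611484289995286311130272649 (.c 16 (.c 48 .nil))) .nil)) (.node (.I .jac (.c 427055420260303037694618589709918089 (.c 16 (.c 48 .nil))) .nil) (.I .jac (.c 10063013877615402959898107785 (.c 16 (.c 48 .nil))) .nil)))) (.node (.node (.node (.I .jac (.c 617620517518417 (.c 16 (.c 48 .nil))) .nil) (.I .jac (.c 42576913200413531150059165447389106121 (.c 16 (.c 48 .nil))) .nil)) (.node (.I .jac (.c 427057350195047847081321678284722121 (.c 16 (.c 48 .nil))) .nil) (.I .jac (.c 3051551917823601198840448306121 (.c 16 (.c 48 .nil))) .nil))) (.node (.node (.I .jac (.c 10063013877579085204530183113 (.c 16 (.c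 48 .nil))) .nil) (.I .jac (.c 28374916743751823483031730121 (.c 16 (.c 48 .nil))) .nil)) (.node (.I .jac (.c 3632062472330321 (.c 16 (.c 48 .nil))) .nil) (.I .jac (.c 1585398274573810790886627931339 (.c 16 (.c 48 .nil))) .nil)))))) (.node (.node (.node (.node (.node (.I .jac (.c 1464665804442085089512949216587 (.c 16 (.c 48 .nil))) .nil) (.I .jac (.c 47680498716033141466286721867 (.c 16 (.c 48 .nil))) .nil)) (.node (.I .jac (.c 1648984725330473554080298056203 (.c 16 (.c 48 .nil))) .nil) (.I .jac (.c 1585417510726868244241271213195 (.c 16 (.c 48 .nil))) .nil))) (.node (.node (.I .jac (.c 47681887941701589797060125451 (.c 16 (.c 48 .nil))) .nil) (.I .jac (.c 13748196208362033993 (.c 18497 (.c 16 .nil))) .nil)) (.node (.I .jac (.c 13748196208362033993 (.c 8 (.c 48 .nil))) (.b 16 .nil)) (.I .jac (.c 13748196208362033993 (.c 2113 (.c 48 .nil))) .nil)))) (.node (.node (.node (.I .jac (.c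 13748196208362033993 (.c 8 (.c 16 .nil))) (.b 48 .nil)) (.I .jac (.c 2306971873338799945 (.c 8 (.c 48 .nil))) (.b 16 .nil))) (.node (.I .jac (.c 2306971873338799945 (.c 2113 (.c 48 .nil))) .nil) (.I .jac (.c 3632040653488393 (.c 18497 (.c 16 .nil))) .nil))) (.node (.node (.I .jac (.c 13748194865974800265 (.c 18497 (.c 16 .nil))) .nil) (.I .jac (.c 13748194865974800265 (.c 2113 (.c 48 .nil))) .nil)) (.node (.I .jac (.c 231045989336561545 (.c 8 (.c 48 .nil))) (.b 16 .nil)) (.I .jac (.c 231045989336561545 (.c 2113 (.c 48 .nil))) .nil))))) (.node (.node (.node (.node (.I .jac (.c 231045989336561545 (.c 8 (.c 16 .nil))) (.b 48 .nil)) (.I .jac (.c 3561346121425225 (.c 8 (.c 16 .nil))) (.b 48 .nil))) (.node (.I .jac (.c 2306970773558194121 (.c 8 (.c 48 .nil))) (.b 16 .nil)) (.I .jac (.c 2306970773558194121 (.c 8 (.c 16 .nil))) (.b 48 .nil)))) (.node (.node (.I .jac (.c 617611520074121 (.c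 18497 (.c 16 .nil))) .nil) (.I .jac (.c 3632106110100553 (.c 18497 (.c 16 .nil))) .nil)) (.node (.I .jac (.c 3632106110100553 (.c 8 (.c 48 .nil))) (.b 16 .nil)) (.I .jac (.c 3632106110100553 (.c 8 (.c 16 .nil))) (.b 48 .nil))))) (.node (.node (.node (.I .jac (.c 42576953795010653769602236682924913353 (.c 24 (.c 48 .nil))) .nil) (.I .jac (.c 651601654921541717468315286321865 (.c 24 (.c 48 .nil))) .nil)) (.node (.I .jac (.c 651596688508365770927126595477193 (.c 24 (.c 48 .nil))) .nil) (.I .jac (.c 105536290384975911038036627826377 (.c 24 (.c 48 .nil))) .nil))) (.node (.node (.I .jac (.c 42576953795010651407263038383993868041 (.c 24 (.c 48 .nil))) .nil) (.I .jac (.c 105533754468731704544899941681929 (.c 24 (.c 48 .nil))) .nil)) (.node (.I .jac (.c 1512102306009786937337782324909974764297 (.c 24 (.c 48 .nil))) .nil) (.I .jac (.c 10065461098107652387135109897 (.c 24 (.c 48 .nil))) .nil)))))))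

noncomputable def c2_12 : Tr := (.node (.node (.node (.node (.node (.node (.I .jac (.c 93738611484293500497757600954121 (.c 24 (.c 48 .nil))) .nil) (.I .jac (.c 105535022421139207878223746524937 (.c 24 (.c 48 .nil))) .nil)) (.node (.I .jac (.c 1512102601296135227280972429874805772169 (.c 24 (.c 48 .nil))) .nil) (.I .jac (.c 651601654921513992739479373959049 (.c 24 (.c 48 .nil))) .nil))) (.node (.node (.I .jac (.c 42576892903125856676158477119718330313 (.c 24 (.c 48 .nil))) .nil) (.I .jac (.c 2870101301547678715334610275273 (.c 24 (.c 48 .nil))) .nil)) (.node (.I .jac (.c 10064237431983265346846634953 (.c 24 (.c 48 .nil))) .nil) (.I .jac (.c 2698162480889002807269082722249 (.c 24 (.c 48 .nil))) .nil)))) (.node (.node (.node (.I .jac (.c 10061790434670409642568088521 (.c 24 (.c 48 .nil))) .nil) (.I .jac (.c 2870186216699415475033029961673 (.c 24 (.c 48 .nil))) .nil)) (.node (.I .jac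 (.c 3491710045195345 (.c 24 (.c 48 .nil))) .nil) (.I .jac (.c 3632062472309841 (.c 24 (.c 48 .nil))) .nil))) (.node (.node (.I .jac (.c 3632084291168337 (.c 24 (.c 48 .nil))) .nil) (.I .jac (.c 1648964913573990088154354029515 (.c 24 (.c 48 .nil))) .nil)) (.node (.I .jac (.c 1523986205353931177814504191179 (.c 24 (.c 48 .nil))) .nil) (.I .jac (.c 1464665804442085089512949216523 (.c 24 (.c 48 .nil))) .nil))))) (.node (.node (.node (.node (.I .jac (.c 1524004879907767213530244320395 (.c 24 (.c 48 .nil))) .nil) (.I .jac (.c 44846659635976135201861067531 (.c 24 (.c 48 .nil))) .nil)) (.node (.I .jac (.c 13748196208362033929 (.c 18497 (.c 24 .nil))) .nil) (.I .jac (.c 13748196208362033929 (.c 8 (.c 48 .nil))) (.b 24 .nil)))) (.node (.node (.I .jac (.c 13748196208362033929 (.c 4673 (.c 48 .nil))) .nil) (.I .jac (.c 13748196208362033929 (.c 8 (.c 24 .nil))) (.b 48 .nil))) (.node (.I .jac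 (.c 2306971873338799881 (.c 18497 (.c 24 .nil))) .nil) (.I .jac (.c 2306971873338799881 (.c 8 (.c 24 .nil))) (.b 48 .nil))))) (.node (.node (.node (.I .jac (.c 3632040653488329 (.c 4673 (.c 48 .nil))) .nil) (.I .jac (.c 13748193523587632009 (.c 8 (.c 48 .nil))) (.b 24 .nil))) (.node (.I .jac (.c 3491688652046665 (.c 4673 (.c 48 .nil))) .nil) (.I .jac (.c 3491688652046665 (.c 8 (.c 24 .nil))) (.b 48 .nil)))) (.node (.node (.I .jac (.c 2306970223667989449 (.c 18497 (.c 24 .nil))) .nil) (.I .jac (.c 2306970223667989449 (.c 4673 (.c 48 .nil))) .nil)) (.node (.I .jac (.c 2306970223667989449 (.c 8 (.c 24 .nil))) (.b 48 .nil)) (.I .jac (.c 9024942441010121 (.c 8 (.c 48 .nil))) (.b 24 .nil))))))) (.node (.node (.node (.node (.node (.I .jac (.c 9024942441010121 (.c 4673 (.c 48 .nil))) .nil) (.I .jac (.c 598967998054793 (.c 18497 (.c 24 .nil))) .nil)) (.node (.I .jac (.c 598967998054793 (.c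 8 (.c 48 .nil))) (.b 24 .nil)) (.I .jac (.c 598967998054793 (.c 4673 (.c 48 .nil))) .nil))) (.node (.node (.I .jac (.c 13748196208362033865 (.c 16 (.c 48 .nil))) (.b 24 .nil)) (.I .jac (.c 13748196208362033865 (.c 4737 (.c 48 .nil))) .nil)) (.node (.I .jac (.c 13748196208362033865 (.c 16 (.c 24 .nil))) (.b 48 .nil)) (.I .jac (.c 2306971873338799817 (.c 16 (.c 48 .nil))) (.b 24 .nil))))) (.node (.node (.node (.I .jac (.c 2306971873338799817 (.c 4737 (.c 48 .nil))) .nil) (.I .jac (.c 2306971873338799817 (.c 16 (.c 24 .nil))) (.b 48 .nil))) (.node (.I .jac (.c 3632040653488265 (.c 18561 (.c 24 .nil))) .nil) (.I .jac (.c 13748192181200529289 (.c 18561 (.c 24 .nil))) .nil))) (.node (.node (.I .jac (.c 13748192181200529289 (.c 16 (.c 48 .nil))) (.b 24 .nil)) (.I .jac (.c 13748192181200529289 (.c 4737 (.c 48 .nil))) .nil)) (.node (.I .jac (.c 13748192181200529289 (.c 16 (.c 24 .nil))) (.b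 48 .nil)) (.I .jac (.c 3423058053194057 (.c 18561 (.c 24 .nil))) .nil))))) (.node (.node (.node (.node (.I .jac (.c 3423058053194057 (.c 16 (.c 24 .nil))) (.b 48 .nil)) (.I .jac (.c 2306969673777850313 (.c 16 (.c 48 .nil))) (.b 24 .nil))) (.node (.I .jac (.c 2306969673777850313 (.c 4737 (.c 48 .nil))) .nil) (.I .jac (.c 35468714087369 (.c 18561 (.c 24 .nil))) .nil))) (.node (.node (.I .jac (.c 35468714087369 (.c 16 (.c 24 .nil))) (.b 48 .nil)) (.I .jac (.c 580749782704521 (.c 18561 (.c 24 .nil))) .nil)) (.node (.I .jac (.c 580749782704521 (.c 4737 (.c 48 .nil))) .nil) (.I .jac (.c 3632062472293449 (.c 16 (.c 48 .nil))) (.b 24 .nil))))) (.node (.node (.node (.I .jac (.c 1310925065 (.c 8 (.c 48 .nil))) (.b 24 (.b 16 .nil))) (.I .jac (.c 1310925065 (.c 4673 (.c 48 .nil))) (.b 16 .nil))) (.node (.I .jac (.c 1310925065 (.c 8 (.c 24 .nil))) (.b 48 (.b 16 .nil))) (.I .jac (.c 1310925065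 (.c 43356739 (.c 16 .nil))) .nil))) (.node (.node (.I .jac (.c 1310925065 (.c 2737112201 (.c 24 .nil))) .nil) (.I .jac (.c 1310925065 (.c 18497 (.c 16 .nil))) (.b 24 .nil))) (.node (.I .jac (.c 1310925065 (.c 8 (.c 48 .nil))) (.b 16 (.b 24 .nil))) (.I .jac (.c 1310925065 (.c 35718537 (.c 24 .nil))) .nil)))))))

noncomputable def c2_13 : Tr := (.node (.node (.node (.node (.node (.node (.I .jac (.c 1310925065 (.c 2113 (.c 48 .nil))) (.b 24 .nil)) (.I .jac (.c 1310925065 (.c 8 (.c 16 .nil))) (.b 48 (.b 24 .nil)))) (.node (.I .jac (.c 1310925065 (.c 174695561 (.c 48 .nil))) .nil) (.I .jac (.c 1310925065 (.c 4673 (.c 16 .nil))) (.b 48 .nil)))) (.node (.node (.I .jac (.c 1310925065 (.c 2113 (.c 24 .nil))) (.b 48 .nil)) (.I .jac (.c 1310925065 (.c 8 (.c 16 .nil))) (.b 24 (.b 48 .nil)))) (.node (.I .jac (.c 1310925065 (.c 2803779 (.c 48 .nil))) .nil) (.I .jac (.c 1310925065 (.c 8 (.c 43356803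 .nil))) .nil)))) (.node (.node (.node (.I .jac (.c 537002313 (.c 174695817 (.c 16 .nil))) .nil) (.I .jac (.c 537002313 (.c 8 (.c 24 .nil))) (.b 48 (.b 16 .nil)))) (.node (.I .jac (.c 537002313 (.c 43356739 (.c 16 .nil))) .nil) (.I .jac (.c 537002313 (.c 2737112201 (.c 24 .nil))) .nil))) (.node (.node (.I .jac (.c 537002313 (.c 35718537 (.c 24 .nil))) .nil) (.I .jac (.c 537002313 (.c 2113 (.c 48 .nil))) (.b 24 .nil))) (.node (.I .jac (.c 537002313 (.c 8 (.c 16 .nil))) (.b 48 (.b 24 .nil))) (.I .jac (.c 537002313 (.c 174695561 (.c 48 .nil))) .nil))))) (.node (.node (.node (.node (.I .jac (.c 537002313 (.c 4673 (.c 16 .nil))) (.b 48 .nil)) (.I .jac (.c 537002313 (.c 8 (.c 24 .nil))) (.b 16 (.b 48 .nil)))) (.node (.I .jac (.c 537002313 (.c 35718345 (.c 48 .nil))) .nil) (.I .jac (.c 537002313 (.c 2113 (.c 24 .nil))) (.b 48 .nil)))) (.node (.node (.I .jac (.c 537002313 (.c 8 (.c 16 .nil)))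 (.b 24 (.b 48 .nil))) (.I .jac (.c 21307395 (.c 2737112265 (.c 16 .nil))) .nil)) (.node (.I .jac (.c 21307395 (.c 8 (.c 48 .nil))) (.b 24 (.b 16 .nil))) (.I .jac (.c 21307395 (.c 4673 (.c 48 .nil))) (.b 16 .nil))))) (.node (.node (.node (.I .jac (.c 21307395 (.c 43356739 (.c 16 .nil))) .nil) (.I .jac (.c 21307395 (.c 2737112201 (.c 24 .nil))) .nil)) (.node (.I .jac (.c 21307395 (.c 8 (.c 48 .nil))) (.b 16 (.b 24 .nil))) (.I .jac (.c 21307395 (.c 35718537 (.c 24 .nil))) .nil))) (.node (.node (.I .jac (.c 21307395 (.c 8 (.c 16 .nil))) (.b 48 (.b 24 .nil))) (.I .jac (.c 21307395 (.c 8 (.c 24 .nil))) (.b 16 (.b 48 .nil)))) (.node (.I .jac (.c 21307395 (.c 35718345 (.c 48 .nil))) .nil) (.I .jac (.c 21307395 (.c 2113 (.c 24 .nil))) (.b 48 .nil))))))) (.node (.node (.node (.node (.node (.I .jac (.c 21307395 (.c 2803779 (.c 48 .nil))) .nil) (.I .jac (.c 21307395 (.c 8 (.c 43356803 .nil)))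 .nil)) (.node (.I .jac (.c 1512102896582526821614077026536761750217 (.c 32 (.c 48 .nil))) .nil) (.I .jac (.c 427057993508083616106291307304383177 (.c 32 (.c 48 .nil))) .nil))) (.node (.node (.I .jac (.c 101465489572716653961425451675337 (.c 32 (.c 48 .nil))) .nil) (.I .jac (.c 1512102601296135255437272766182275864265 (.c 32 (.c 48 .nil))) .nil)) (.node (.I .jac (.c 651601654921532475892036648801993 (.c 32 (.c 48 .nil))) .nil) (.I .jac (.c 101465489572713007142997112408841 (.c 32 (.c 48 .nil))) .nil)))) (.node (.node (.node (.I .jac (.c 1512102306009786923259633531360632805129 (.c 32 (.c 48 .nil))) .nil) (.I .jac (.c 427055420260303037694618589709917961 (.c 32 (.c 48 .nil))) .nil)) (.node (.I .jac (.c 101466720686505037251115829520137 (.c 32 (.c 48 .nil))) .nil) (.I .jac (.c 651601654921513992739479373958985 (.c 32 (.c 48 .nil))) .nil))) (.node (.node (.I .jac (.c 1512102306009786909181484737811290911561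 (.c 32 (.c 48 .nil))) .nil) (.I .jac (.c 93738611484286490074864659656521 (.c 32 (.c 48 .nil))) .nil)) (.node (.I .jac (.c 49484669142536990413609801 (.c 32 (.c 48 .nil))) .nil) (.I .jac (.c 97536312314082855488951506397001 (.c 32 (.c 48 .nil))) .nil))))) (.node (.node (.node (.node (.I .jac (.c 427056063571157203537696782463438793 (.c 32 (.c 48 .nil))) .nil) (.I .jac (.c 10063013877506449693794530249 (.c 32 (.c 48 .nil))) .nil)) (.node (.I .jac (.c 3561367726861393 (.c 32 (.c 48 .nil))) .nil) (.I .jac (.c 1523986205353875310796071445067 (.c 32 (.c 48 .nil))) .nil))) (.node (.node (.I .jac (.c 1464665804442030320584098112139 (.c 32 (.c 48 .nil))) .nil) (.I .jac (.c 773197955351518704372683 (.c 32 (.c 48 .nil))) .nil)) (.node (.I .jac (.c 1585417510726754280474012167051 (.c 32 (.c 48 .nil))) .nil) (.I .jac (.c 1524004879907711346169522240011 (.c 32 (.c 48 .nil))) .nil)))) (.node (.node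 (.node (.I .jac (.c 1585436747054803097418120689931 (.c 32 (.c 48 .nil))) .nil) (.I .jac (.c 13748194865974800137 (.c 8 (.c 32 .nil))) (.b 48 .nil))) (.node (.I .jac (.c 231045989336561417 (.c 18497 (.c 32 .nil))) .nil) (.I .jac (.c 3561346121425097 (.c 18497 (.c 32 .nil))) .nil))) (.node (.node (.I .jac (.c 3561346121425097 (.c 8257 (.c 48 .nil))) .nil) (.I .jac (.c 3561346121425097 (.c 8 (.c 32 .nil))) (.b 48 .nil))) (.node (.I .jac (.c 13748193523587631945 (.c 18497 (.c 32 .nil))) .nil) (.I .jac (.c 13748193523587631945 (.c 8 (.c 32 .nil))) (.b 48 .nil))))))))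

noncomputable def c2_14 : Tr := (.node (.node (.node (.node (.node (.node (.I .jac (.c 9024976834606921 (.c 18497 (.c 32 .nil))) .nil) (.I .jac (.c 9024976834606921 (.c 8 (.c 48 .nil))) (.b 32 .nil))) (.node (.I .jac (.c 3491688652046601 (.c 18497 (.c 32 .nil))) .nil) (.I .jac (.c 3491688652046601 (.c 8 (.c 48 .nil))) (.b 32 .nil)))) (.node (.node (.I .jac (.c 3491688652046601 (.c 8 (.c 32 .nil))) (.b 48 .nil)) (.I .jac (.c 231045467270826953 (.c 18497 (.c 32 .nil))) .nil)) (.node (.I .jac (.c 231045467270826953 (.c 8 (.c 48 .nil))) (.b 32 .nil)) (.I .jac (.c 231045467270826953 (.c 8257 (.c 48 .nil))) .nil)))) (.node (.node (.node (.I .jac (.c 9024908047478729 (.c 8 (.c 48 .nil))) (.b 32 .nil)) (.I .jac (.c 62886542410121 (.c 18497 (.c 32 .nil))) .nil)) (.node (.I .jac (.c 62886542410121 (.c 8257 (.c 48 .nil))) .nil) (.I .jac (.c 62886542410121 (.c 8 (.c 32 .nil))) (.b 48 .nil))))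 (.node (.node (.I .jac (.c 3561389332330569 (.c 8257 (.c 48 .nil))) .nil) (.I .jac (.c 3561389332330569 (.c 8 (.c 32 .nil))) (.b 48 .nil))) (.node (.I .jac (.c 13748194865974800073 (.c 18561 (.c 32 .nil))) .nil) (.I .jac (.c 13748194865974800073 (.c 8321 (.c 48 .nil))) .nil))))) (.node (.node (.node (.node (.I .jac (.c 13748194865974800073 (.c 16 (.c 32 .nil))) (.b 48 .nil)) (.I .jac (.c 231045989336561353 (.c 16 (.c 48 .nil))) (.b 32 .nil))) (.node (.I .jac (.c 231045989336561353 (.c 8321 (.c 48 .nil))) .nil) (.I .jac (.c 231045989336561353 (.c 16 (.c 32 .nil))) (.b 48 .nil)))) (.node (.node (.I .jac (.c 3561346121425033 (.c 18561 (.c 32 .nil))) .nil) (.I .jac (.c 3561346121425033 (.c 8321 (.c 48 .nil))) .nil)) (.node (.I .jac (.c 3561346121425033 (.c 16 (.c 32 .nil))) (.b 48 .nil)) (.I .jac (.c 13748192181200529225 (.c 18561 (.c 32 .nil))) .nil)))) (.node (.node (.node (.I .jac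 (.c 35470870263625 (.c 16 (.c 48 .nil))) (.b 32 .nil)) (.I .jac (.c 35470870263625 (.c 8321 (.c 48 .nil))) .nil)) (.node (.I .jac (.c 35470870263625 (.c 16 (.c 32 .nil))) (.b 48 .nil)) (.I .jac (.c 3423058053193993 (.c 16 (.c 48 .nil))) (.b 32 .nil)))) (.node (.node (.I .jac (.c 3423058053193993 (.c 8321 (.c 48 .nil))) .nil) (.I .jac (.c 231045293249046473 (.c 8321 (.c 48 .nil))) .nil)) (.node (.I .jac (.c 231045293249046473 (.c 16 (.c 32 .nil))) (.b 48 .nil)) (.I .jac (.c 35466557976521 (.c 16 (.c 48 .nil))) (.b 32 .nil))))))) (.node (.node (.node (.node (.node (.I .jac (.c 59555558875529 (.c 18561 (.c 32 .nil))) .nil) (.I .jac (.c 59555558875529 (.c 8321 (.c 48 .nil))) .nil)) (.node (.I .jac (.c 3561367726845001 (.c 18561 (.c 32 .nil))) .nil) (.I .jac (.c 3561367726845001 (.c 16 (.c 48 .nil))) (.b 32 .nil)))) (.node (.node (.I .jac (.c 3561367726845001 (.c 8321 (.c 48 .nil))) .nil)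 (.I .jac (.c 1310925001 (.c 2737112329 (.c 16 .nil))) .nil)) (.node (.I .jac (.c 1310925001 (.c 18497 (.c 16 .nil))) (.b 32 .nil)) (.I .jac (.c 1310925001 (.c 8 (.c 16 .nil))) (.b 48 (.b 32 .nil)))))) (.node (.node (.node (.I .jac (.c 1310925001 (.c 545424521 (.c 48 .nil))) .nil) (.I .jac (.c 1310925001 (.c 8257 (.c 16 .nil))) (.b 48 .nil))) (.node (.I .jac (.c 1310925001 (.c 8 (.c 32 .nil))) (.b 16 (.b 48 .nil))) (.I .jac (.c 1310925001 (.c 35718409 (.c 48 .nil))) .nil))) (.node (.node (.I .jac (.c 1310925001 (.c 8 (.c 43655299 .nil))) .nil) (.I .jac (.c 169943369 (.c 2737112329 (.c 16 .nil))) .nil)) (.node (.I .jac (.c 169943369 (.c 18497 (.c 32 .nil))) (.b 16 .nil)) (.I .jac (.c 169943369 (.c 8 (.c 48 .nil))) (.b 32 (.b 16 .nil))))))) (.node (.node (.node (.node (.I .jac (.c 169943369 (.c 8 (.c 32 .nil))) (.b 48 (.b 16 .nil))) (.I .jac (.c 169943369 (.c 43655235 (.c 16 .nil)))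 .nil)) (.node (.I .jac (.c 169943369 (.c 2737112201 (.c 32 .nil))) .nil) (.I .jac (.c 169943369 (.c 8 (.c 48 .nil))) (.b 16 (.b 32 .nil))))) (.node (.node (.I .jac (.c 169943369 (.c 35718537 (.c 32 .nil))) .nil) (.I .jac (.c 169943369 (.c 8 (.c 16 .nil))) (.b 48 (.b 32 .nil)))) (.node (.I .jac (.c 169943369 (.c 43059267 (.c 32 .nil))) .nil) (.I .jac (.c 169943369 (.c 8 (.c 32 .nil))) (.b 16 (.b 48 .nil)))))) (.node (.node (.node (.I .jac (.c 169943369 (.c 2113 (.c 32 .nil))) (.b 48 .nil)) (.I .jac (.c 169943369 (.c 8 (.c 16 .nil))) (.b 32 (.b 48 .nil)))) (.node (.I .jac (.c 169943369 (.c 8 (.c 43655299 .nil))) .nil) (.I .jac (.c 21099011 (.c 18497 (.c 32 .nil))) (.b 16 .nil)))) (.node (.node (.I .jac (.c 21099011 (.c 8 (.c 48 .nil))) (.b 32 (.b 16 .nil))) (.I .jac (.c 21099011 (.c 2737112201 (.c 32 .nil))) .nil)) (.node (.I .jac (.c 21099011 (.c 18497 (.c 16 .nil))) (.b 32 .nil))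 (.I .jac (.c 21099011 (.c 8 (.c 48 .nil))) (.b 16 (.b 32 .nil)))))))))

noncomputable def c2_15 : Tr := (.node (.node (.node (.node (.node (.node (.I .jac (.c 21099011 (.c 35718537 (.c 32 .nil))) .nil) (.I .jac (.c 21099011 (.c 2113 (.c 48 .nil))) (.b 32 .nil))) (.node (.I .jac (.c 21099011 (.c 8 (.c 16 .nil))) (.b 48 (.b 32 .nil))) (.I .jac (.c 21099011 (.c 43059267 (.c 32 .nil))) .nil))) (.node (.node (.I .jac (.c 13748193523587631817 (.c 24 (.c 32 .nil))) (.b 48 .nil)) (.I .jac (.c 9024976834606793 (.c 24 (.c 48 .nil))) (.b 32 .nil))) (.node (.I .jac (.c 3491688652046473 (.c 18625 (.c 32 .nil))) .nil) (.I .jac (.c 3491688652046473 (.c 8385 (.c 48 .nil))) .nil)))) (.node (.node (.node (.I .jac (.c 13748192181200529161 (.c 24 (.c 48 .nil))) (.b 32 .nil)) (.I .jac (.c 13748192181200529161 (.c 24 (.c 32 .nil))) (.b 48 .nil))) (.node (.I .jac (.c 35470870263561 (.c 18625 (.c 32 .nil)))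 .nil) (.I .jac (.c 35470870263561 (.c 24 (.c 48 .nil))) (.b 32 .nil)))) (.node (.node (.I .jac (.c 35470870263561 (.c 8385 (.c 48 .nil))) .nil) (.I .jac (.c 35470870263561 (.c 24 (.c 32 .nil))) (.b 48 .nil))) (.node (.I .jac (.c 3423058053193929 (.c 24 (.c 48 .nil))) (.b 32 .nil)) (.I .jac (.c 9024839260612553 (.c 18625 (.c 32 .nil))) .nil))))) (.node (.node (.node (.node (.I .jac (.c 9024839260612553 (.c 24 (.c 48 .nil))) (.b 32 .nil)) (.I .jac (.c 9024839260612553 (.c 24 (.c 32 .nil))) (.b 48 .nil))) (.node (.I .jac (.c 35464401931209 (.c 18625 (.c 32 .nil))) .nil) (.I .jac (.c 2487083360649 (.c 18625 (.c 32 .nil))) .nil))) (.node (.node (.I .jac (.c 2487083360649 (.c 24 (.c 48 .nil))) (.b 32 .nil)) (.I .jac (.c 2487083360649 (.c 8385 (.c 48 .nil))) .nil)) (.node (.I .jac (.c 2487083360649 (.c 24 (.c 32 .nil))) (.b 48 .nil)) (.I .jac (.c 3491710045129801 (.c 24 (.c 48 .nil))) (.b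 32 .nil))))) (.node (.node (.node (.I .jac (.c 1310924937 (.c 2737112329 (.c 24 .nil))) .nil) (.I .jac (.c 1310924937 (.c 18497 (.c 32 .nil))) (.b 24 .nil))) (.node (.I .jac (.c 1310924937 (.c 43655235 (.c 24 .nil))) .nil) (.I .jac (.c 1310924937 (.c 2737112265 (.c 32 .nil))) .nil))) (.node (.node (.I .jac (.c 1310924937 (.c 18497 (.c 24 .nil))) (.b 32 .nil)) (.I .jac (.c 1310924937 (.c 8 (.c 48 .nil))) (.b 24 (.b 32 .nil)))) (.node (.I .jac (.c 1310924937 (.c 4673 (.c 48 .nil))) (.b 32 .nil)) (.I .jac (.c 1310924937 (.c 43356739 (.c 32 .nil))) .nil)))))) (.node (.node (.node (.node (.node (.I .jac (.c 1310924937 (.c 545424585 (.c 48 .nil))) .nil) (.I .jac (.c 1310924937 (.c 8257 (.c 24 .nil))) (.b 48 .nil))) (.node (.I .jac (.c 1310924937 (.c 8 (.c 32 .nil))) (.b 24 (.b 48 .nil))) (.I .jac (.c 1310924937 (.c 8 (.c 43655363 .nil))) .nil))) (.node (.node (.I .jac (.c 33587529 (.c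 8 (.c 48 .nil))) (.b 32 (.b 24 .nil))) (.I .jac (.c 33587529 (.c 8257 (.c 48 .nil))) (.b 24 .nil))) (.node (.I .jac (.c 33587529 (.c 2737112265 (.c 32 .nil))) .nil) (.I .jac (.c 33587529 (.c 18497 (.c 24 .nil))) (.b 32 .nil))))) (.node (.node (.node (.I .jac (.c 33587529 (.c 4673 (.c 48 .nil))) (.b 32 .nil)) (.I .jac (.c 33587529 (.c 545424585 (.c 48 .nil))) .nil)) (.node (.I .jac (.c 33587529 (.c 8257 (.c 24 .nil))) (.b 48 .nil)) (.I .jac (.c 33587529 (.c 8786499 (.c 48 .nil))) .nil))) (.node (.node (.I .jac (.c 20891651 (.c 2737112329 (.c 24 .nil))) .nil) (.I .jac (.c 20891651 (.c 18497 (.c 32 .nil))) (.b 24 .nil))) (.node (.I .jac (.c 20891651 (.c 8 (.c 48 .nil))) (.b 32 (.b 24 .nil))) (.I .jac (.c 20891651 (.c 545424777 (.c 24 .nil))) .nil))))) (.node (.node (.node (.node (.I .jac (.c 20891651 (.c 8 (.c 32 .nil))) (.b 48 (.b 24 .nil))) (.I .jac (.c 20891651 (.c 43655235 (.c 24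 .nil))) .nil)) (.node (.I .jac (.c 20891651 (.c 2737112265 (.c 32 .nil))) .nil) (.I .jac (.c 20891651 (.c 18497 (.c 24 .nil))) (.b 32 .nil)))) (.node (.node (.I .jac (.c 20891651 (.c 8 (.c 48 .nil))) (.b 24 (.b 32 .nil))) (.I .jac (.c 20891651 (.c 545424585 (.c 48 .nil))) .nil)) (.node (.I .jac (.c 20891651 (.c 8 (.c 24 .nil))) (.b 32 (.b 48 .nil))) (.I .jac (.c 20891651 (.c 8786499 (.c 48 .nil))) .nil)))) (.node (.node (.node (.I .jac (.c 1310924873 (.c 16 (.c 48 .nil))) (.b 32 (.b 24 .nil))) (.I .jac (.c 1310924873 (.c 16 (.c 48 .nil))) (.b 24 (.b 32 .nil)))) (.node (.I .jac (.c 1310924873 (.c 43356803 (.c 32 .nil))) .nil) (.I .jac (.c 1310924873 (.c 16 (.c 24 .nil))) (.b 32 (.b 48 .nil))))) (.node (.node (.I .jac (.c 1310924873 (.c 8786563 (.c 48 .nil))) .nil) (.I .jac (.c 1310924873 (.c 16 (.c 43655363 .nil))) .nil)) (.node (.I .jac (.c 2105673 (.c 2756086025 (.c 24 .nil))) .nil)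 (.I .jac (.c 2105673 (.c 16 (.c 32 .nil))) (.b 48 (.b 24 .nil)))))))))

noncomputable def c2_16 : Tr := (.node (.node (.node (.node (.node (.node (.I .jac (.c 2105673 (.c 18561 (.c 24 .nil))) (.b 32 .nil)) (.I .jac (.c 2105673 (.c 179513737 (.c 32 .nil))) .nil)) (.node (.I .jac (.c 2105673 (.c 16 (.c 32 .nil))) (.b 24 (.b 48 .nil))) (.I .jac (.c 2105673 (.c 4737 (.c 32 .nil))) (.b 48 .nil)))) (.node (.node (.I .jac (.c 2105673 (.c 16 (.c 24 .nil))) (.b 32 (.b 48 .nil))) (.I .jac (.c 2105673 (.c 16 (.c 43655363 .nil))) .nil)) (.node (.I .jac (.c 20685315 (.c 16 (.c 32 .nil))) (.b 48 (.b 24 .nil))) (.I .jac (.c 20685315 (.c 43655299 (.c 24 .nil))) .nil)))) (.node (.node (.node (.I .jac (.c 20685315 (.c 16 (.c 48 .nil))) (.b 24 (.b 32 .nil))) (.I .jac (.c 20685315 (.c 43356803 (.c 32 .nil))) .nil)) (.node (.I .jac (.c 20685315 (.c 16 (.c 32 .nil))) (.b 24 (.b 48 .nil))) (.I .jac (.c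 20685315 (.c 4737 (.c 32 .nil))) (.b 48 .nil)))) (.node (.node (.I .jac (.c 20685315 (.c 16 (.c 24 .nil))) (.b 32 (.b 48 .nil))) (.I .jac (.c 20685315 (.c 8786563 (.c 48 .nil))) .nil)) (.node (.I .jac (.c 20685315 (.c 16 (.c 43655363 .nil))) .nil) (.I .jac (.c 12801 (.c 2379905498923998025 (.c 16 .nil))) .nil))))) (.node (.node (.node (.node (.I .jac (.c 12801 (.c 545424777 (.c 24 .nil))) (.b 16 .nil)) (.I .jac (.c 12801 (.c 8257 (.c 48 .nil))) (.b 24 (.b 16 .nil)))) (.node (.I .jac (.c 12801 (.c 8 (.c 32 .nil))) (.b 48 (.b 24 (.b 16 .nil)))) (.I .jac (.c 12801 (.c 2737112265 (.c 32 .nil))) (.b 16 .nil)))) (.node (.node (.I .jac (.c 12801 (.c 18497 (.c 24 .nil))) (.b 32 (.b 16 .nil))) (.I .jac (.c 12801 (.c 244149027818380169 (.c 16 .nil))) .nil)) (.node (.I .jac (.c 12801 (.c 174695817 (.c 32 .nil))) (.b 16 .nil)) (.I .jac (.c 12801 (.c 4673 (.c 48 .nil))) (.b 32 (.b 16 .nil))))))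 (.node (.node (.node (.I .jac (.c 12801 (.c 8 (.c 24 .nil))) (.b 48 (.b 32 (.b 16 .nil)))) (.I .jac (.c 12801 (.c 244148670041478153 (.c 16 .nil))) .nil)) (.node (.I .jac (.c 12801 (.c 174695689 (.c 48 .nil))) (.b 16 .nil)) (.I .jac (.c 12801 (.c 15246325749294217 (.c 16 .nil))) .nil))) (.node (.node (.I .jac (.c 12801 (.c 18497 (.c 32 .nil))) (.b 16 (.b 24 .nil))) (.I .jac (.c 12801 (.c 8 (.c 48 .nil))) (.b 32 (.b 16 (.b 24 .nil))))) (.node (.I .jac (.c 12801 (.c 15246236343241929 (.c 24 .nil))) .nil) (.I .jac (.c 12801 (.c 43655235 (.c 16 .nil))) (.b 24 .nil))))))) (.node (.node (.node (.node (.node (.I .jac (.c 12801 (.c 8 (.c 16 .nil))) (.b 48 (.b 32 (.b 24 .nil)))) (.I .jac (.c 12801 (.c 14832803796618569 (.c 24 .nil))) .nil)) (.node (.I .jac (.c 12801 (.c 43059267 (.c 32 .nil))) (.b 24 .nil)) (.I .jac (.c 12801 (.c 8257 (.c 16 .nil))) (.b 48 (.b 24 .nil))))) (.node (.node (.I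 .jac (.c 12801 (.c 8 (.c 32 .nil))) (.b 16 (.b 48 (.b 24 .nil)))) (.I .jac (.c 12801 (.c 10206437931930633 (.c 24 .nil))) .nil)) (.node (.I .jac (.c 12801 (.c 35718409 (.c 48 .nil))) (.b 24 .nil)) (.I .jac (.c 12801 (.c 2113 (.c 32 .nil))) (.b 48 (.b 24 .nil)))))) (.node (.node (.node (.I .jac (.c 12801 (.c 8 (.c 16 .nil))) (.b 32 (.b 48 (.b 24 .nil)))) (.I .jac (.c 12801 (.c 598976858557897 (.c 24 .nil))) .nil)) (.node (.I .jac (.c 12801 (.c 8652867 (.c 48 .nil))) (.b 24 .nil)) (.I .jac (.c 12801 (.c 15246281046235273 (.c 24 .nil))) .nil))) (.node (.node (.I .jac (.c 12801 (.c 59934268409707441929 (.c 32 .nil))) .nil) (.I .jac (.c 12801 (.c 2737112265 (.c 16 .nil))) (.b 32 .nil))) (.node (.I .jac (.c 12801 (.c 18497 (.c 24 .nil))) (.b 16 (.b 32 .nil))) (.I .jac (.c 12801 (.c 8 (.c 48 .nil))) (.b 24 (.b 16 (.b 32 .nil)))))))) (.node (.node (.node (.node (.I .jac (.c 12801 (.c 244149027818380041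 (.c 32 .nil))) .nil) (.I .jac (.c 12801 (.c 174695817 (.c 16 .nil))) (.b 32 .nil))) (.node (.I .jac (.c 12801 (.c 4673 (.c 48 .nil))) (.b 16 (.b 32 .nil))) (.I .jac (.c 12801 (.c 8 (.c 24 .nil))) (.b 48 (.b 16 (.b 32 .nil)))))) (.node (.node (.I .jac (.c 12801 (.c 8 (.c 48 .nil))) (.b 16 (.b 24 (.b 32 .nil)))) (.I .jac (.c 12801 (.c 2113 (.c 48 .nil))) (.b 24 (.b 32 .nil)))) (.node (.I .jac (.c 12801 (.c 8 (.c 16 .nil))) (.b 48 (.b 24 (.b 32 .nil)))) (.I .jac (.c 12801 (.c 14832803796618505 (.c 32 .nil))) .nil)))) (.node (.node (.node (.I .jac (.c 12801 (.c 4673 (.c 16 .nil))) (.b 48 (.b 32 .nil))) (.I .jac (.c 12801 (.c 10206401356312585 (.c 32 .nil))) .nil)) (.node (.I .jac (.c 12801 (.c 2113 (.c 24 .nil))) (.b 48 (.b 32 .nil))) (.I .jac (.c 12801 (.c 2803779 (.c 48 .nil))) (.b 32 .nil)))) (.node (.node (.I .jac (.c 12801 (.c 18497 (.c 8786563 .nil))) .nil) (.I .jac (.c 12801 (.c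 244148670041477897 (.c 48 .nil))) .nil)) (.node (.I .jac (.c 12801 (.c 174695689 (.c 16 .nil))) (.b 48 .nil)) (.I .jac (.c 12801 (.c 4673 (.c 32 .nil))) (.b 16 (.b 48 .nil)))))))))

noncomputable def c2_17 : Tr := (.node (.node (.node (.node (.node (.node (.I .jac (.c 12801 (.c 8 (.c 24 .nil))) (.b 32 (.b 16 (.b 48 .nil)))) (.I .jac (.c 12801 (.c 8 (.c 32 .nil))) (.b 16 (.b 24 (.b 48 .nil))))) (.node (.I .jac (.c 12801 (.c 598976858557705 (.c 48 .nil))) .nil) (.I .jac (.c 12801 (.c 8652867 (.c 24 .nil))) (.b 48 .nil)))) (.node (.node (.I .jac (.c 12801 (.c 617629514823817 (.c 48 .nil))) .nil) (.I .jac (.c 12801 (.c 8 (.c 8786563 .nil))) (.b 48 .nil))) (.node (.I .jac (.c 12801 (.c 8257 (.c 43356803 .nil))) .nil) (.I .jac (.c 12801 (.c 4673 (.c 43655299 .nil))) .nil)))) (.node (.node (.node (.I .jac (.c 12801 (.c 8 (.c 24 .nil))) (.b 43655299 .nil)) (.I .jac (.c 42576913200413533512397237570979656393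 (.c 40 (.c 48 .nil))) .nil)) (.node (.I .jac (.c 427057350195048083672236560419041993 (.c 40 (.c 48 .nil))) .nil) (.I .jac (.c 2870101301548905401794626097865 (.c 40 (.c 48 .nil))) .nil))) (.node (.node (.I .jac (.c 427056063571157913309372238443346633 (.c 40 (.c 48 .nil))) .nil) (.I .jac (.c 651591722123561355438909041457865 (.c 40 (.c 48 .nil))) .nil)) (.node (.I .jac (.c 42576913200413531150059165447389105929 (.c 40 (.c 48 .nil))) .nil) (.I .jac (.c 427057350195047847081321678284721929 (.c 40 (.c 48 .nil))) .nil))))) (.node (.node (.node (.node (.I .jac (.c 42576872605845444027759439362436273929 (.c 40 (.c 48 .nil))) .nil) (.I .jac (.c 10063013877579085204530182921 (.c 40 (.c 48 .nil))) .nil)) (.node (.I .jac (.c 28374916743751823483031729929 (.c 40 (.c 48 .nil))) .nil) (.I .jac (.c 42576892903125856676158477119718330185 (.c 40 (.c 48 .nil))) .nil))) (.node (.node (.I .jac (.c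 651596688508328804762888218545993 (.c 40 (.c 48 .nil))) .nil) (.I .jac (.c 2870101301547678715334610275145 (.c 40 (.c 48 .nil))) .nil)) (.node (.I .jac (.c 49484669139990217052337993 (.c 40 (.c 48 .nil))) .nil) (.I .jac (.c 651591722123533630921387187294089 (.c 40 (.c 48 .nil))) .nil)))) (.node (.node (.node (.I .jac (.c 427055420260302327923477728639447945 (.c 40 (.c 48 .nil))) .nil) (.I .jac (.c 10061790434634094094990628745 (.c 40 (.c 48 .nil))) .nil)) (.node (.I .jac (.c 49484669137443443691131785 (.c 40 (.c 48 .nil))) .nil) (.I .jac (.c 31640626589388946877766395785 (.c 40 (.c 48 .nil))) .nil))) (.node (.node (.I .jac (.c 598976858594385 (.c 40 (.c 48 .nil))) .nil) (.I .jac (.c 617620517432401 (.c 40 (.c 48 .nil))) .nil)) (.node (.I .jac (.c 42158788763899815672657011339 (.c 40 (.c 48 .nil))) .nil) (.I .jac (.c 494339652036471487606240459 (.c 40 (.c 48 .nil))) .nil)))))) (.node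 (.node (.node (.node (.node (.I .jac (.c 443358074121107353032652043 (.c 40 (.c 48 .nil))) .nil) (.I .jac (.c 47681887941671944012224146315 (.c 40 (.c 48 .nil))) .nil)) (.node (.I .jac (.c 2306970773558193929 (.c 18497 (.c 40 .nil))) .nil) (.I .jac (.c 2306970773558193929 (.c 12865 (.c 48 .nil))) .nil))) (.node (.node (.I .jac (.c 617611520073929 (.c 18497 (.c 40 .nil))) .nil) (.I .jac (.c 617611520073929 (.c 12865 (.c 48 .nil))) .nil)) (.node (.I .jac (.c 2306970223667989321 (.c 12865 (.c 48 .nil))) .nil) (.I .jac (.c 9024942441009993 (.c 18497 (.c 40 .nil))) .nil)))) (.node (.node (.node (.I .jac (.c 9024942441009993 (.c 8 (.c 40 .nil))) (.b 48 .nil)) (.I .jac (.c 598967998054665 (.c 18497 (.c 40 .nil))) .nil)) (.node (.I .jac (.c 231045467270826889 (.c 18497 (.c 40 .nil))) .nil) (.I .jac (.c 231045467270826889 (.c 12865 (.c 48 .nil))) .nil))) (.node (.node (.I .jac (.c 231045467270826889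 (.c 8 (.c 40 .nil))) (.b 48 .nil)) (.I .jac (.c 9024908047478665 (.c 18497 (.c 40 .nil))) .nil)) (.node (.I .jac (.c 9024908047478665 (.c 8 (.c 48 .nil))) (.b 40 .nil)) (.I .jac (.c 9024908047478665 (.c 12865 (.c 48 .nil))) .nil))))) (.node (.node (.node (.node (.I .jac (.c 62886542410057 (.c 18497 (.c 40 .nil))) .nil) (.I .jac (.c 62886542410057 (.c 8 (.c 48 .nil))) (.b 40 .nil))) (.node (.I .jac (.c 62886542410057 (.c 8 (.c 40 .nil))) (.b 48 .nil)) (.I .jac (.c 617629514823753 (.c 18497 (.c 40 .nil))) .nil))) (.node (.node (.I .jac (.c 617629514823753 (.c 8 (.c 48 .nil))) (.b 40 .nil)) (.I .jac (.c 617629514823753 (.c 12865 (.c 48 .nil))) .nil)) (.node (.I .jac (.c 2306970773558193865 (.c 18561 (.c 40 .nil))) .nil) (.I .jac (.c 2306970773558193865 (.c 16 (.c 48 .nil))) (.b 40 .nil))))) (.node (.node (.node (.I .jac (.c 231045815314584265 (.c 16 (.c 48 .nil))) (.b 40 .nil)) (.I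 .jac (.c 231045815314584265 (.c 12929 (.c 48 .nil))) .nil)) (.node (.I .jac (.c 231045815314584265 (.c 16 (.c 40 .nil))) (.b 48 .nil)) (.I .jac (.c 617611520073865 (.c 18561 (.c 40 .nil))) .nil))) (.node (.node (.I .jac (.c 617611520073865 (.c 16 (.c 48 .nil))) (.b 40 .nil)) (.I .jac (.c 617611520073865 (.c 12929 (.c 48 .nil))) .nil)) (.node (.I .jac (.c 617611520073865 (.c 16 (.c 40 .nil))) (.b 48 .nil)) (.I .jac (.c 2306969673777850185 (.c 18561 (.c 40 .nil))) .nil)))))))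

noncomputable def c2_18 : Tr := (.node (.node (.node (.node (.node (.node (.I .jac (.c 2306969673777850185 (.c 16 (.c 48 .nil))) (.b 40 .nil)) (.I .jac (.c 2306969673777850185 (.c 12929 (.c 48 .nil))) .nil)) (.node (.I .jac (.c 231045293249046409 (.c 18561 (.c 40 .nil))) .nil) (.I .jac (.c 231045293249046409 (.c 12929 (.c 48 .nil))) .nil))) (.node (.node (.I .jac (.c 231045293249046409 (.c 16 (.c 40 .nil))) (.b 48 .nil)) (.I .jac (.c 35466557976457 (.c 12929 (.c 48 .nil))) .nil)) (.node (.I .jac (.c 35466557976457 (.c 16 (.c 40 .nil))) (.b 48 .nil)) (.I .jac (.c 59555558875465 (.c 18561 (.c 40 .nil))) .nil)))) (.node (.node (.node (.I .jac (.c 59555558875465 (.c 16 (.c 48 .nil))) (.b 40 .nil)) (.I .jac (.c 59555558875465 (.c 12929 (.c 48 .nil))) .nil)) (.node (.I .jac (.c 617620517416009 (.c 16 (.c 48 .nil))) (.b 40 .nil)) (.I .jac (.c 617620517416009 (.c 12929 (.c 48 .nil))) .nil)))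 (.node (.node (.I .jac (.c 537002185 (.c 18497 (.c 40 .nil))) (.b 16 .nil)) (.I .jac (.c 537002185 (.c 8 (.c 48 .nil))) (.b 40 (.b 16 .nil)))) (.node (.I .jac (.c 537002185 (.c 1324066185 (.c 16 .nil))) .nil) (.I .jac (.c 537002185 (.c 12865 (.c 48 .nil))) (.b 16 .nil)))))) (.node (.node (.node (.node (.I .jac (.c 537002185 (.c 8 (.c 40 .nil))) (.b 48 (.b 16 .nil))) (.I .jac (.c 537002185 (.c 2737112201 (.c 40 .nil))) .nil)) (.node (.I .jac (.c 537002185 (.c 18497 (.c 16 .nil))) (.b 40 .nil)) (.I .jac (.c 537002185 (.c 35718537 (.c 40 .nil))) .nil))) (.node (.node (.I .jac (.c 537002185 (.c 2113 (.c 48 .nil))) (.b 40 .nil)) (.I .jac (.c 537002185 (.c 8 (.c 16 .nil))) (.b 48 (.b 40 .nil)))) (.node (.I .jac (.c 537002185 (.c 1324065929 (.c 48 .nil))) .nil) (.I .jac (.c 537002185 (.c 12865 (.c 16 .nil))) (.b 48 .nil))))) (.node (.node (.node (.I .jac (.c 537002185 (.c 8 (.c 40 .nil)))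 (.b 16 (.b 48 .nil))) (.I .jac (.c 537002185 (.c 35718473 (.c 48 .nil))) .nil)) (.node (.I .jac (.c 537002185 (.c 2113 (.c 40 .nil))) (.b 48 .nil)) (.I .jac (.c 537002185 (.c 8 (.c 16 .nil))) (.b 40 (.b 48 .nil))))) (.node (.node (.I .jac (.c 537002185 (.c 8 (.c 43954819 .nil))) .nil) (.I .jac (.c 169943305 (.c 8 (.c 48 .nil))) (.b 40 (.b 16 .nil)))) (.node (.I .jac (.c 169943305 (.c 1324066185 (.c 16 .nil))) .nil) (.I .jac (.c 169943305 (.c 8 (.c 40 .nil))) (.b 48 (.b 16 .nil)))))))) (.node (.node (.node (.node (.node (.I .jac (.c 169943305 (.c 2737112201 (.c 40 .nil))) .nil) (.I .jac (.c 169943305 (.c 18497 (.c 16 .nil))) (.b 40 .nil))) (.node (.I .jac (.c 169943305 (.c 8 (.c 16 .nil))) (.b 48 (.b 40 .nil))) (.I .jac (.c 169943305 (.c 8 (.c 40 .nil))) (.b 16 (.b 48 .nil))))) (.node (.node (.I .jac (.c 169943305 (.c 2113 (.c 40 .nil))) (.b 48 .nil)) (.I .jac (.c 169943305 (.c 20891715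 (.c 48 .nil))) .nil)) (.node (.I .jac (.c 8786435 (.c 2737112393 (.c 16 .nil))) .nil) (.I .jac (.c 8786435 (.c 18497 (.c 40 .nil))) (.b 16 .nil))))) (.node (.node (.node (.I .jac (.c 8786435 (.c 8 (.c 48 .nil))) (.b 40 (.b 16 .nil))) (.I .jac (.c 8786435 (.c 1324066185 (.c 16 .nil))) .nil)) (.node (.I .jac (.c 8786435 (.c 8 (.c 40 .nil))) (.b 48 (.b 16 .nil))) (.I .jac (.c 8786435 (.c 18497 (.c 16 .nil))) (.b 40 .nil)))) (.node (.node (.I .jac (.c 8786435 (.c 2113 (.c 48 .nil))) (.b 40 .nil)) (.I .jac (.c 8786435 (.c 8 (.c 16 .nil))) (.b 48 (.b 40 .nil)))) (.node (.I .jac (.c 8786435 (.c 1324065929 (.c 48 .nil))) .nil) (.I .jac (.c 8786435 (.c 12865 (.c 16 .nil))) (.b 48 .nil)))))) (.node (.node (.node (.node (.I .jac (.c 8786435 (.c 35718473 (.c 48 .nil))) .nil) (.I .jac (.c 8786435 (.c 20891715 (.c 48 .nil))) .nil)) (.node (.I .jac (.c 8786435 (.c 8 (.c 43954819 .nil))) .nil) (.I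 .jac (.c 2306970223667989193 (.c 24 (.c 48 .nil))) (.b 40 .nil)))) (.node (.node (.I .jac (.c 2306970223667989193 (.c 12993 (.c 48 .nil))) .nil) (.I .jac (.c 2306970223667989193 (.c 24 (.c 40 .nil))) (.b 48 .nil))) (.node (.I .jac (.c 9024942441009865 (.c 12993 (.c 48 .nil))) .nil) (.I .jac (.c 9024942441009865 (.c 24 (.c 40 .nil))) (.b 48 .nil))))) (.node (.node (.node (.I .jac (.c 598967998054537 (.c 18625 (.c 40 .nil))) .nil) (.I .jac (.c 598967998054537 (.c 24 (.c 48 .nil))) (.b 40 .nil))) (.node (.I .jac (.c 598967998054537 (.c 24 (.c 40 .nil))) (.b 48 .nil)) (.I .jac (.c 2306969673777850121 (.c 18625 (.c 40 .nil))) .nil))) (.node (.node (.I .jac (.c 2306969673777850121 (.c 24 (.c 48 .nil))) (.b 40 .nil)) (.I .jac (.c 2306969673777850121 (.c 12993 (.c 48 .nil))) .nil)) (.node (.I .jac (.c 35468714087177 (.c 12993 (.c 48 .nil))) .nil) (.I .jac (.c 580749782704329 (.c 18625 (.c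 40 .nil))) .nil)))))))

noncomputable def c2_19 : Tr := (.node (.node (.node (.node (.node (.node (.I .jac (.c 9024839260612489 (.c 24 (.c 48 .nil))) (.b 40 .nil)) (.I .jac (.c 35464401931145 (.c 24 (.c 48 .nil))) (.b 40 .nil))) (.node (.I .jac (.c 2487083360585 (.c 24 (.c 40 .nil))) (.b 48 .nil)) (.I .jac (.c 598976858557513 (.c 24 (.c 48 .nil))) (.b 40 .nil)))) (.node (.node (.I .jac (.c 598976858557513 (.c 12993 (.c 48 .nil))) .nil) (.I .jac (.c 537002121 (.c 2737112393 (.c 24 .nil))) .nil)) (.node (.I .jac (.c 537002121 (.c 18497 (.c 40 .nil))) (.b 24 .nil)) (.I .jac (.c 537002121 (.c 1324066185 (.c 24 .nil))) .nil)))) (.node (.node (.node (.I .jac (.c 537002121 (.c 12865 (.c 48 .nil))) (.b 24 .nil)) (.I .jac (.c 537002121 (.c 43954755 (.c 24 .nil))) .nil)) (.node (.I .jac (.c 537002121 (.c 18497 (.c 24 .nil))) (.b 40 .nil)) (.I .jac (.c 537002121 (.c 8 (.c 48 .nil))) (.b 24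 (.b 40 .nil))))) (.node (.node (.I .jac (.c 537002121 (.c 174695817 (.c 40 .nil))) .nil) (.I .jac (.c 537002121 (.c 43356739 (.c 40 .nil))) .nil)) (.node (.I .jac (.c 537002121 (.c 1324065993 (.c 48 .nil))) .nil) (.I .jac (.c 537002121 (.c 12865 (.c 24 .nil))) (.b 48 .nil)))))) (.node (.node (.node (.node (.I .jac (.c 537002121 (.c 8 (.c 40 .nil))) (.b 24 (.b 48 .nil))) (.I .jac (.c 537002121 (.c 21099075 (.c 48 .nil))) .nil)) (.node (.I .jac (.c 537002121 (.c 8 (.c 43954883 .nil))) .nil) (.I .jac (.c 33587465 (.c 1324066185 (.c 24 .nil))) .nil))) (.node (.node (.I .jac (.c 33587465 (.c 8 (.c 40 .nil))) (.b 48 (.b 24 .nil))) (.I .jac (.c 33587465 (.c 2737112265 (.c 40 .nil))) .nil)) (.node (.I .jac (.c 33587465 (.c 18497 (.c 24 .nil))) (.b 40 .nil)) (.I .jac (.c 33587465 (.c 8 (.c 48 .nil))) (.b 24 (.b 40 .nil)))))) (.node (.node (.node (.I .jac (.c 33587465 (.c 43356739 (.c 40 .nil)))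 .nil) (.I .jac (.c 33587465 (.c 12865 (.c 24 .nil))) (.b 48 .nil))) (.node (.I .jac (.c 33587465 (.c 8 (.c 24 .nil))) (.b 40 (.b 48 .nil))) (.I .jac (.c 33587465 (.c 21099075 (.c 48 .nil))) .nil))) (.node (.node (.I .jac (.c 33587465 (.c 8 (.c 43954883 .nil))) .nil) (.I .jac (.c 8652803 (.c 2737112393 (.c 24 .nil))) .nil)) (.node (.I .jac (.c 8652803 (.c 1324066185 (.c 24 .nil))) .nil) (.I .jac (.c 8652803 (.c 8 (.c 40 .nil))) (.b 48 (.b 24 .nil)))))))) (.node (.node (.node (.node (.node (.I .jac (.c 8652803 (.c 18497 (.c 24 .nil))) (.b 40 .nil)) (.I .jac (.c 8652803 (.c 8 (.c 48 .nil))) (.b 24 (.b 40 .nil)))) (.node (.I .jac (.c 8652803 (.c 4673 (.c 48 .nil))) (.b 40 .nil)) (.I .jac (.c 8652803 (.c 8 (.c 24 .nil))) (.b 48 (.b 40 .nil))))) (.node (.node (.I .jac (.c 8652803 (.c 43356739 (.c 40 .nil))) .nil) (.I .jac (.c 8652803 (.c 1324065993 (.c 48 .nil))) .nil)) (.node (.I .jac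 (.c 8652803 (.c 12865 (.c 24 .nil))) (.b 48 .nil)) (.I .jac (.c 8652803 (.c 8 (.c 40 .nil))) (.b 24 (.b 48 .nil)))))) (.node (.node (.node (.I .jac (.c 8652803 (.c 8 (.c 24 .nil))) (.b 40 (.b 48 .nil))) (.I .jac (.c 8652803 (.c 8 (.c 43954883 .nil))) .nil)) (.node (.I .jac (.c 537002057 (.c 16 (.c 40 .nil))) (.b 48 (.b 24 .nil))) (.I .jac (.c 537002057 (.c 16 (.c 48 .nil))) (.b 24 (.b 40 .nil))))) (.node (.node (.I .jac (.c 537002057 (.c 21099139 (.c 48 .nil))) .nil) (.I .jac (.c 2105609 (.c 2756086089 (.c 24 .nil))) .nil)) (.node (.I .jac (.c 2105609 (.c 16 (.c 40 .nil))) (.b 48 (.b 24 .nil))) (.I .jac (.c 2105609 (.c 43954819 (.c 24 .nil))) .nil))))) (.node (.node (.node (.node (.I .jac (.c 2105609 (.c 16 (.c 48 .nil))) (.b 24 (.b 40 .nil))) (.I .jac (.c 2105609 (.c 4737 (.c 48 .nil))) (.b 40 .nil))) (.node (.I .jac (.c 2105609 (.c 16 (.c 24 .nil))) (.b 48 (.b 40 .nil))) (.I .jac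 (.c 2105609 (.c 1337272521 (.c 48 .nil))) .nil))) (.node (.node (.I .jac (.c 2105609 (.c 12929 (.c 24 .nil))) (.b 48 .nil)) (.I .jac (.c 2105609 (.c 4737 (.c 40 .nil))) (.b 48 .nil))) (.node (.I .jac (.c 2105609 (.c 16 (.c 24 .nil))) (.b 40 (.b 48 .nil))) (.I .jac (.c 2105609 (.c 16 (.c 43954883 .nil))) .nil)))) (.node (.node (.node (.I .jac (.c 8520195 (.c 18561 (.c 40 .nil))) (.b 24 .nil)) (.I .jac (.c 8520195 (.c 16 (.c 48 .nil))) (.b 24 (.b 40 .nil)))) (.node (.I .jac (.c 8520195 (.c 16 (.c 24 .nil))) (.b 48 (.b 40 .nil))) (.I .jac (.c 8520195 (.c 43356803 (.c 40 .nil))) .nil))) (.node (.node (.I .jac (.c 8520195 (.c 16 (.c 24 .nil))) (.b 40 (.b 48 .nil))) (.I .jac (.c 8193 (.c 8 (.c 48 .nil))) (.b 40 (.b 24 (.b 16 .nil))))) (.node (.I .jac (.c 8193 (.c 2737112265 (.c 40 .nil))) (.b 16 .nil)) (.I .jac (.c 8193 (.c 244149027818380233 (.c 16 .nil))) .nil)))))))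

noncomputable def c2_20 : Tr := (.node (.node (.node (.node (.node (.node (.I .jac (.c 8193 (.c 174695817 (.c 40 .nil))) (.b 16 .nil)) (.I .jac (.c 8193 (.c 4673 (.c 48 .nil))) (.b 40 (.b 16 .nil)))) (.node (.I .jac (.c 8193 (.c 8 (.c 24 .nil))) (.b 48 (.b 40 (.b 16 .nil)))) (.I .jac (.c 8193 (.c 15038454533713289 (.c 16 .nil))) .nil))) (.node (.node (.I .jac (.c 8193 (.c 43356739 (.c 40 .nil))) (.b 16 .nil)) (.I .jac (.c 8193 (.c 4673 (.c 40 .nil))) (.b 48 (.b 16 .nil)))) (.node (.I .jac (.c 8193 (.c 8 (.c 24 .nil))) (.b 40 (.b 48 (.b 16 .nil)))) (.I .jac (.c 8193 (.c 3561367726845385 (.c 16 .nil))) .nil)))) (.node (.node (.node (.I .jac (.c 8193 (.c 21099075 (.c 48 .nil))) (.b 16 .nil)) (.I .jac (.c 8193 (.c 8 (.c 43954883 .nil))) (.b 16 .nil))) (.node (.I .jac (.c 8193 (.c 18497 (.c 40 .nil))) (.b 16 (.b 24 .nil))) (.I .jac (.c 8193 (.c 15456163896880329 (.c 24 .nil))) .nil)))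 (.node (.node (.I .jac (.c 8193 (.c 59934265606904515529 (.c 24 .nil))) .nil) (.I .jac (.c 8193 (.c 2737112201 (.c 40 .nil))) (.b 24 .nil))) (.node (.I .jac (.c 8193 (.c 18497 (.c 16 .nil))) (.b 40 (.b 24 .nil))) (.I .jac (.c 8193 (.c 8 (.c 48 .nil))) (.b 16 (.b 40 (.b 24 .nil)))))))) (.node (.node (.node (.node (.I .jac (.c 8193 (.c 10206511083363273 (.c 24 .nil))) .nil) (.I .jac (.c 8193 (.c 35718537 (.c 40 .nil))) (.b 24 .nil))) (.node (.I .jac (.c 8193 (.c 8 (.c 16 .nil))) (.b 48 (.b 40 (.b 24 .nil)))) (.I .jac (.c 8193 (.c 14832803796618633 (.c 24 .nil))) .nil))) (.node (.node (.I .jac (.c 8193 (.c 43059267 (.c 40 .nil))) (.b 24 .nil)) (.I .jac (.c 8193 (.c 12865 (.c 16 .nil))) (.b 48 (.b 24 .nil)))) (.node (.I .jac (.c 8193 (.c 8 (.c 40 .nil))) (.b 16 (.b 48 (.b 24 .nil)))) (.I .jac (.c 8193 (.c 8 (.c 16 .nil))) (.b 40 (.b 48 (.b 24 .nil))))))) (.node (.node (.node (.I .jac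 (.c 8193 (.c 20891715 (.c 48 .nil))) (.b 24 .nil)) (.I .jac (.c 8193 (.c 8 (.c 43954819 .nil))) (.b 24 .nil))) (.node (.I .jac (.c 8193 (.c 59934268409707441929 (.c 40 .nil))) .nil) (.I .jac (.c 8193 (.c 2737112265 (.c 16 .nil))) (.b 40 .nil)))) (.node (.node (.I .jac (.c 8193 (.c 18497 (.c 24 .nil))) (.b 16 (.b 40 .nil))) (.I .jac (.c 8193 (.c 244149027818380041 (.c 40 .nil))) .nil)) (.node (.I .jac (.c 8193 (.c 174695817 (.c 16 .nil))) (.b 40 .nil)) (.I .jac (.c 8193 (.c 8 (.c 24 .nil))) (.b 48 (.b 16 (.b 40 .nil))))))))) (.node (.node (.node (.node (.node (.I .jac (.c 8193 (.c 43356739 (.c 16 .nil))) (.b 40 .nil)) (.I .jac (.c 8193 (.c 18497 (.c 16 .nil))) (.b 24 (.b 40 .nil)))) (.node (.I .jac (.c 8193 (.c 8 (.c 48 .nil))) (.b 16 (.b 24 (.b 40 .nil)))) (.I .jac (.c 8193 (.c 8 (.c 16 .nil))) (.b 48 (.b 24 (.b 40 .nil)))))) (.node (.node (.I .jac (.c 8193 (.c 43059267 (.c 24 .nil)))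 (.b 40 .nil)) (.I .jac (.c 8193 (.c 8 (.c 24 .nil))) (.b 16 (.b 48 (.b 40 .nil))))) (.node (.I .jac (.c 8193 (.c 10206401356312585 (.c 40 .nil))) .nil) (.I .jac (.c 8193 (.c 35718345 (.c 48 .nil))) (.b 40 .nil))))) (.node (.node (.node (.I .jac (.c 8193 (.c 8 (.c 16 .nil))) (.b 24 (.b 48 (.b 40 .nil)))) (.I .jac (.c 8193 (.c 2803779 (.c 48 .nil))) (.b 40 .nil))) (.node (.I .jac (.c 8193 (.c 15038498931046537 (.c 40 .nil))) .nil) (.I .jac (.c 8193 (.c 8 (.c 43356803 .nil))) (.b 40 .nil)))) (.node (.node (.I .jac (.c 8193 (.c 8 (.c 48 .nil))) (.b 21099139 .nil)) (.I .jac (.c 8193 (.c 8 (.c 40 .nil))) (.b 16 (.b 24 (.b 48 .nil))))) (.node (.I .jac (.c 8193 (.c 8 (.c 16 .nil))) (.b 40 (.b 24 (.b 48 .nil)))) (.I .jac (.c 8193 (.c 3491710045129993 (.c 48 .nil))) .nil))))) (.node (.node (.node (.node (.I .jac (.c 8193 (.c 8 (.c 16 .nil))) (.b 24 (.b 40 (.b 48 .nil)))) (.I .jac (.c 8193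 (.c 62889413447049 (.c 48 .nil))) .nil)) (.node (.I .jac (.c 8193 (.c 2803779 (.c 40 .nil))) (.b 48 .nil)) (.I .jac (.c 8193 (.c 8 (.c 21099139 .nil))) (.b 48 .nil)))) (.node (.node (.I .jac (.c 8193 (.c 12865 (.c 43356803 .nil))) .nil) (.I .jac (.c 8193 (.c 8 (.c 40 .nil))) (.b 43356803 .nil))) (.node (.I .jac (.c 8193 (.c 8 (.c 24 .nil))) (.b 43954819 .nil)) (.I .jac (.c 8193 (.c 8 (.c 16 .nil))) (.b 43954883 .nil))))) (.node (.node (.node (.I .jac (.c 231045467270826697 (.c 18689 (.c 40 .nil))) .nil) (.I .jac (.c 231045467270826697 (.c 32 (.c 48 .nil))) (.b 40 .nil))) (.node (.I .jac (.c 231045467270826697 (.c 13057 (.c 48 .nil))) .nil) (.I .jac (.c 231045467270826697 (.c 32 (.c 40 .nil))) (.b 48 .nil)))) (.node (.node (.I .jac (.c 9024908047478473 (.c 13057 (.c 48 .nil))) .nil) (.I .jac (.c 62886542409865 (.c 32 (.c 48 .nil))) (.b 40 .nil))) (.node (.I .jac (.c 231045293249046281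 (.c 32 (.c 48 .nil))) (.b 40 .nil)) (.I .jac (.c 231045293249046281 (.c 13057 (.c 48 .nil))) .nil)))))))

noncomputable def c2_21 : Tr := (.node (.node (.node (.node (.node (.node (.I .jac (.c 231045293249046281 (.c 32 (.c 40 .nil))) (.b 48 .nil)) (.I .jac (.c 35466557976329 (.c 32 (.c 48 .nil))) (.b 40 .nil))) (.node (.I .jac (.c 35466557976329 (.c 13057 (.c 48 .nil))) .nil) (.I .jac (.c 35466557976329 (.c 32 (.c 40 .nil))) (.b 48 .nil)))) (.node (.node (.I .jac (.c 59555558875337 (.c 32 (.c 40 .nil))) (.b 48 .nil)) (.I .jac (.c 9024839260612425 (.c 13057 (.c 48 .nil))) .nil)) (.node (.I .jac (.c 35464401931081 (.c 13057 (.c 48 .nil))) .nil) (.I .jac (.c 35464401931081 (.c 32 (.c 40 .nil))) (.b 48 .nil))))) (.node (.node (.node (.I .jac (.c 2487083360521 (.c 32 (.c 48 .nil))) (.b 40 .nil)) (.I .jac (.c 62889413446729 (.c 32 (.c 40 .nil))) (.b 48 .nil))) (.node (.I .jac (.c 169943177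 (.c 2737112393 (.c 32 .nil))) .nil) (.I .jac (.c 169943177 (.c 18497 (.c 40 .nil))) (.b 32 .nil)))) (.node (.node (.I .jac (.c 169943177 (.c 1324066185 (.c 32 .nil))) .nil) (.I .jac (.c 169943177 (.c 12865 (.c 48 .nil))) (.b 32 .nil))) (.node (.I .jac (.c 169943177 (.c 8 (.c 40 .nil))) (.b 48 (.b 32 .nil))) (.I .jac (.c 169943177 (.c 43954755 (.c 32 .nil))) .nil))))) (.node (.node (.node (.node (.I .jac (.c 169943177 (.c 18497 (.c 32 .nil))) (.b 40 .nil)) (.I .jac (.c 169943177 (.c 8 (.c 48 .nil))) (.b 32 (.b 40 .nil)))) (.node (.I .jac (.c 169943177 (.c 8257 (.c 48 .nil))) (.b 40 .nil)) (.I .jac (.c 169943177 (.c 8 (.c 32 .nil))) (.b 48 (.b 40 .nil))))) (.node (.node (.I .jac (.c 169943177 (.c 8 (.c 40 .nil))) (.b 32 (.b 48 .nil))) (.I .jac (.c 169943177 (.c 545424713 (.c 48 .nil))) .nil)) (.node (.I .jac (.c 169943177 (.c 8257 (.c 40 .nil))) (.b 48 .nil)) (.I .jac (.c 169943177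 (.c 21307459 (.c 48 .nil))) .nil)))) (.node (.node (.node (.I .jac (.c 169943177 (.c 8 (.c 43954947 .nil))) .nil) (.I .jac (.c 33587401 (.c 8 (.c 48 .nil))) (.b 40 (.b 32 .nil)))) (.node (.I .jac (.c 33587401 (.c 1324066185 (.c 32 .nil))) .nil) (.I .jac (.c 33587401 (.c 12865 (.c 48 .nil))) (.b 32 .nil)))) (.node (.node (.I .jac (.c 33587401 (.c 8 (.c 40 .nil))) (.b 48 (.b 32 .nil))) (.I .jac (.c 33587401 (.c 43954755 (.c 32 .nil))) .nil)) (.node (.I .jac (.c 33587401 (.c 18497 (.c 32 .nil))) (.b 40 .nil)) (.I .jac (.c 33587401 (.c 8 (.c 48 .nil))) (.b 32 (.b 40 .nil)))))))) (.node (.node (.node (.node (.node (.I .jac (.c 33587401 (.c 545424777 (.c 40 .nil))) .nil) (.I .jac (.c 33587401 (.c 8 (.c 32 .nil))) (.b 48 (.b 40 .nil)))) (.node (.I .jac (.c 33587401 (.c 12865 (.c 32 .nil))) (.b 48 .nil)) (.I .jac (.c 33587401 (.c 8 (.c 32 .nil))) (.b 40 (.b 48 .nil))))) (.node (.node (.I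 .jac (.c 33587401 (.c 21307459 (.c 48 .nil))) .nil) (.I .jac (.c 33587401 (.c 8 (.c 43954947 .nil))) .nil)) (.node (.I .jac (.c 2803715 (.c 18497 (.c 40 .nil))) (.b 32 .nil)) (.I .jac (.c 2803715 (.c 8 (.c 48 .nil))) (.b 40 (.b 32 .nil)))))) (.node (.node (.node (.I .jac (.c 2803715 (.c 12865 (.c 48 .nil))) (.b 32 .nil)) (.I .jac (.c 2803715 (.c 2737112329 (.c 40 .nil))) .nil)) (.node (.I .jac (.c 2803715 (.c 8 (.c 32 .nil))) (.b 48 (.b 40 .nil))) (.I .jac (.c 2803715 (.c 43655235 (.c 40 .nil))) .nil))) (.node (.node (.I .jac (.c 2803715 (.c 8 (.c 40 .nil))) (.b 32 (.b 48 .nil))) (.I .jac (.c 2803715 (.c 8257 (.c 40 .nil))) (.b 48 .nil))) (.node (.I .jac (.c 2803715 (.c 8 (.c 32 .nil))) (.b 40 (.b 48 .nil))) (.I .jac (.c 169943113 (.c 16 (.c 40 .nil))) (.b 48 (.b 32 .nil))))))) (.node (.node (.node (.node (.I .jac (.c 169943113 (.c 43954819 (.c 32 .nil))) .nil) (.I .jac (.c 169943113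 (.c 16 (.c 32 .nil))) (.b 40 (.b 48 .nil)))) (.node (.I .jac (.c 169943113 (.c 21307523 (.c 48 .nil))) .nil) (.I .jac (.c 2105545 (.c 18561 (.c 40 .nil))) (.b 32 .nil)))) (.node (.node (.I .jac (.c 2105545 (.c 16 (.c 48 .nil))) (.b 40 (.b 32 .nil))) (.I .jac (.c 2105545 (.c 16 (.c 40 .nil))) (.b 48 (.b 32 .nil)))) (.node (.I .jac (.c 2105545 (.c 16 (.c 40 .nil))) (.b 32 (.b 48 .nil))) (.I .jac (.c 2105545 (.c 21307523 (.c 48 .nil))) .nil)))) (.node (.node (.node (.I .jac (.c 2105545 (.c 16 (.c 43954947 .nil))) .nil) (.I .jac (.c 2728451 (.c 18561 (.c 40 .nil))) (.b 32 .nil))) (.node (.I .jac (.c 2728451 (.c 12929 (.c 48 .nil))) (.b 32 .nil)) (.I .jac (.c 2728451 (.c 16 (.c 32 .nil))) (.b 48 (.b 40 .nil))))) (.node (.node (.I .jac (.c 2728451 (.c 16 (.c 40 .nil))) (.b 32 (.b 48 .nil))) (.I .jac (.c 2728451 (.c 16 (.c 32 .nil))) (.b 40 (.b 48 .nil)))) (.node (.I .jac (.c 4609 (.c 59934274015313491849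 (.c 16 .nil))) .nil) (.I .jac (.c 4609 (.c 2737112393 (.c 32 .nil))) (.b 16 .nil))))))))

noncomputable def c2_22 : Tr := (.node (.node (.node (.node (.node (.node (.I .jac (.c 4609 (.c 18497 (.c 40 .nil))) (.b 32 (.b 16 .nil))) (.I .jac (.c 4609 (.c 8 (.c 48 .nil))) (.b 40 (.b 32 (.b 16 .nil))))) (.node (.I .jac (.c 4609 (.c 14025210098083634057 (.c 16 .nil))) .nil) (.I .jac (.c 4609 (.c 1324066185 (.c 32 .nil))) (.b 16 .nil)))) (.node (.node (.I .jac (.c 4609 (.c 12865 (.c 48 .nil))) (.b 32 (.b 16 .nil))) (.I .jac (.c 4609 (.c 8 (.c 40 .nil))) (.b 48 (.b 32 (.b 16 .nil))))) (.node (.I .jac (.c 4609 (.c 15456163896880457 (.c 16 .nil))) .nil) (.I .jac (.c 4609 (.c 59934271212510434249 (.c 16 .nil))) .nil)))) (.node (.node (.node (.I .jac (.c 4609 (.c 2737112329 (.c 40 .nil))) (.b 16 .nil)) (.I .jac (.c 4609 (.c 15246236343242121 (.c 16 .nil))) .nil)) (.node (.I .jac (.c 4609 (.c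 43655235 (.c 40 .nil))) (.b 16 .nil)) (.I .jac (.c 4609 (.c 21307459 (.c 48 .nil))) (.b 16 .nil)))) (.node (.node (.I .jac (.c 4609 (.c 15456298926182537 (.c 16 .nil))) .nil) (.I .jac (.c 4609 (.c 43954755 (.c 16 .nil))) (.b 32 .nil))) (.node (.I .jac (.c 4609 (.c 59934265606904515529 (.c 32 .nil))) .nil) (.I .jac (.c 4609 (.c 2737112201 (.c 40 .nil))) (.b 32 .nil)))))) (.node (.node (.node (.node (.I .jac (.c 4609 (.c 18497 (.c 16 .nil))) (.b 40 (.b 32 .nil))) (.I .jac (.c 4609 (.c 8 (.c 48 .nil))) (.b 16 (.b 40 (.b 32 .nil))))) (.node (.I .jac (.c 4609 (.c 10206511083363273 (.c 32 .nil))) .nil) (.I .jac (.c 4609 (.c 35718537 (.c 40 .nil))) (.b 32 .nil)))) (.node (.node (.I .jac (.c 4609 (.c 2113 (.c 48 .nil))) (.b 40 (.b 32 .nil))) (.I .jac (.c 4609 (.c 8 (.c 16 .nil))) (.b 48 (.b 40 (.b 32 .nil))))) (.node (.I .jac (.c 4609 (.c 14832803796618633 (.c 32 .nil))) .nil) (.I .jac (.c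 4609 (.c 43059267 (.c 40 .nil))) (.b 32 .nil))))) (.node (.node (.node (.I .jac (.c 4609 (.c 8 (.c 40 .nil))) (.b 16 (.b 48 (.b 32 .nil)))) (.I .jac (.c 4609 (.c 2113 (.c 40 .nil))) (.b 48 (.b 32 .nil)))) (.node (.I .jac (.c 4609 (.c 8 (.c 16 .nil))) (.b 40 (.b 48 (.b 32 .nil)))) (.I .jac (.c 4609 (.c 3491710045130185 (.c 32 .nil))) .nil))) (.node (.node (.I .jac (.c 4609 (.c 15456208906582153 (.c 32 .nil))) .nil) (.I .jac (.c 4609 (.c 2737112329 (.c 16 .nil))) (.b 40 .nil))) (.node (.I .jac (.c 4609 (.c 18497 (.c 32 .nil))) (.b 16 (.b 40 .nil))) (.I .jac (.c 4609 (.c 8 (.c 48 .nil))) (.b 32 (.b 16 (.b 40 .nil))))))))) (.node (.node (.node (.node (.node (.I .jac (.c 4609 (.c 545424777 (.c 16 .nil))) (.b 40 .nil)) (.I .jac (.c 4609 (.c 8257 (.c 48 .nil))) (.b 16 (.b 40 .nil)))) (.node (.I .jac (.c 4609 (.c 8 (.c 16 .nil))) (.b 48 (.b 32 (.b 40 .nil)))) (.I .jac (.c 4609 (.c 14832803796618569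 (.c 40 .nil))) .nil))) (.node (.node (.I .jac (.c 4609 (.c 43059267 (.c 32 .nil))) (.b 40 .nil)) (.I .jac (.c 4609 (.c 8 (.c 32 .nil))) (.b 16 (.b 48 (.b 40 .nil))))) (.node (.I .jac (.c 4609 (.c 2113 (.c 32 .nil))) (.b 48 (.b 40 .nil))) (.I .jac (.c 4609 (.c 8 (.c 16 .nil))) (.b 32 (.b 48 (.b 40 .nil))))))) (.node (.node (.node (.I .jac (.c 4609 (.c 598976858557897 (.c 40 .nil))) .nil) (.I .jac (.c 4609 (.c 8652867 (.c 48 .nil))) (.b 40 .nil))) (.node (.I .jac (.c 4609 (.c 15246281046235273 (.c 40 .nil))) .nil) (.I .jac (.c 4609 (.c 8 (.c 43655299 .nil))) (.b 40 .nil)))) (.node (.node (.I .jac (.c 4609 (.c 18497 (.c 21307523 .nil))) .nil) (.I .jac (.c 4609 (.c 21307459 (.c 16 .nil))) (.b 48 .nil))) (.node (.I .jac (.c 4609 (.c 12865 (.c 16 .nil))) (.b 32 (.b 48 .nil))) (.I .jac (.c 4609 (.c 8 (.c 40 .nil))) (.b 16 (.b 32 (.b 48 .nil)))))))) (.node (.node (.node (.node (.I .jac (.c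 4609 (.c 3491710045130057 (.c 48 .nil))) .nil) (.I .jac (.c 4609 (.c 3632084291164297 (.c 48 .nil))) .nil)) (.node (.I .jac (.c 4609 (.c 8257 (.c 43954819 .nil))) .nil) (.I .jac (.c 33587273 (.c 24 (.c 48 .nil))) (.b 40 (.b 32 .nil))))) (.node (.node (.I .jac (.c 33587273 (.c 24 (.c 40 .nil))) (.b 48 (.b 32 .nil))) (.I .jac (.c 33587273 (.c 43655363 (.c 40 .nil))) .nil)) (.node (.I .jac (.c 33587273 (.c 24 (.c 32 .nil))) (.b 40 (.b 48 .nil))) (.I .jac (.c 33587273 (.c 21307587 (.c 48 .nil))) .nil)))) (.node (.node (.node (.I .jac (.c 33587273 (.c 24 (.c 43954947 .nil))) .nil) (.I .jac (.c 2105481 (.c 24 (.c 40 .nil))) (.b 48 (.b 32 .nil)))) (.node (.I .jac (.c 2105481 (.c 24 (.c 32 .nil))) (.b 48 (.b 40 .nil))) (.I .jac (.c 2105481 (.c 43655363 (.c 40 .nil))) .nil))) (.node (.node (.I .jac (.c 2105481 (.c 24 (.c 40 .nil))) (.b 32 (.b 48 .nil))) (.I .jac (.c 2105481 (.c 21307587 (.c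 48 .nil))) .nil)) (.node (.I .jac (.c 557571 (.c 24 (.c 48 .nil))) (.b 40 (.b 32 .nil))) (.I .jac (.c 557571 (.c 43954883 (.c 32 .nil))) .nil)))))))

noncomputable def c2_23 : Tr := (.node (.node (.node (.node (.node (.node (.I .jac (.c 557571 (.c 24 (.c 43954947 .nil))) .nil) (.I .jac (.c 2049 (.c 8 (.c 40 .nil))) (.b 48 (.b 32 (.b 24 .nil))))) (.node (.I .jac (.c 2049 (.c 43954755 (.c 32 .nil))) (.b 24 .nil)) (.I .jac (.c 2049 (.c 8 (.c 48 .nil))) (.b 32 (.b 40 (.b 24 .nil)))))) (.node (.node (.I .jac (.c 2049 (.c 8 (.c 32 .nil))) (.b 48 (.b 40 (.b 24 .nil)))) (.I .jac (.c 2049 (.c 15246236343242121 (.c 24 .nil))) .nil)) (.node (.I .jac (.c 2049 (.c 12865 (.c 32 .nil))) (.b 48 (.b 24 .nil))) (.I .jac (.c 2049 (.c 8 (.c 40 .nil))) (.b 32 (.b 48 (.b 24 .nil))))))) (.node (.node (.node (.I .jac (.c 2049 (.c 8257 (.c 40 .nil))) (.b 48 (.b 24 .nil))) (.I .jac (.c 2049 (.c 3632062472293833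 (.c 24 .nil))) .nil)) (.node (.I .jac (.c 2049 (.c 15456298926182537 (.c 24 .nil))) .nil) (.I .jac (.c 2049 (.c 8 (.c 43954947 .nil))) (.b 24 .nil)))) (.node (.node (.I .jac (.c 2049 (.c 12865 (.c 48 .nil))) (.b 24 (.b 32 .nil))) (.I .jac (.c 2049 (.c 8 (.c 40 .nil))) (.b 48 (.b 24 (.b 32 .nil))))) (.node (.I .jac (.c 2049 (.c 15456163896880393 (.c 32 .nil))) .nil) (.I .jac (.c 2049 (.c 43954755 (.c 24 .nil))) (.b 32 .nil)))))) (.node (.node (.node (.node (.I .jac (.c 2049 (.c 43356739 (.c 40 .nil))) (.b 32 .nil)) (.I .jac (.c 2049 (.c 8 (.c 40 .nil))) (.b 24 (.b 48 (.b 32 .nil))))) (.node (.I .jac (.c 2049 (.c 4673 (.c 40 .nil))) (.b 48 (.b 32 .nil))) (.I .jac (.c 2049 (.c 8 (.c 24 .nil))) (.b 40 (.b 48 (.b 32 .nil)))))) (.node (.node (.I .jac (.c 2049 (.c 15456253916349577 (.c 32 .nil))) .nil) (.I .jac (.c 2049 (.c 2737112329 (.c 24 .nil))) (.b 40 .nil))) (.node (.I .jac (.c 2049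 (.c 545424777 (.c 24 .nil))) (.b 40 .nil)) (.I .jac (.c 2049 (.c 8257 (.c 48 .nil))) (.b 24 (.b 40 .nil)))))) (.node (.node (.node (.I .jac (.c 2049 (.c 43655235 (.c 24 .nil))) (.b 40 .nil)) (.I .jac (.c 2049 (.c 244149027818380169 (.c 40 .nil))) .nil)) (.node (.I .jac (.c 2049 (.c 174695817 (.c 32 .nil))) (.b 40 .nil)) (.I .jac (.c 2049 (.c 4673 (.c 48 .nil))) (.b 32 (.b 40 .nil))))) (.node (.node (.I .jac (.c 2049 (.c 15038454533713225 (.c 40 .nil))) .nil) (.I .jac (.c 2049 (.c 43356739 (.c 32 .nil))) (.b 40 .nil))) (.node (.I .jac (.c 2049 (.c 8 (.c 32 .nil))) (.b 24 (.b 48 (.b 40 .nil)))) (.I .jac (.c 2049 (.c 244148670041478153 (.c 40 .nil))) .nil)))))) (.node (.node (.node (.node (.node (.I .jac (.c 2049 (.c 174695689 (.c 48 .nil))) (.b 40 .nil)) (.I .jac (.c 2049 (.c 4673 (.c 32 .nil))) (.b 48 (.b 40 .nil)))) (.node (.I .jac (.c 2049 (.c 8 (.c 24 .nil))) (.b 32 (.b 48 (.b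 40 .nil)))) (.I .jac (.c 2049 (.c 8786499 (.c 48 .nil))) (.b 40 .nil)))) (.node (.node (.I .jac (.c 2049 (.c 15246325749294217 (.c 40 .nil))) .nil) (.I .jac (.c 2049 (.c 8 (.c 32 .nil))) (.b 40 (.b 24 (.b 48 .nil))))) (.node (.I .jac (.c 2049 (.c 3632062472293641 (.c 48 .nil))) .nil) (.I .jac (.c 2049 (.c 12865 (.c 24 .nil))) (.b 32 (.b 48 .nil)))))) (.node (.node (.node (.I .jac (.c 2049 (.c 8 (.c 40 .nil))) (.b 24 (.b 32 (.b 48 .nil)))) (.I .jac (.c 2049 (.c 3561367726845257 (.c 48 .nil))) .nil)) (.node (.I .jac (.c 2049 (.c 21099075 (.c 32 .nil))) (.b 48 .nil)) (.I .jac (.c 2049 (.c 8 (.c 32 .nil))) (.b 24 (.b 40 (.b 48 .nil)))))) (.node (.node (.I .jac (.c 2049 (.c 617620517416329 (.c 48 .nil))) .nil) (.I .jac (.c 2049 (.c 3632106110100617 (.c 48 .nil))) .nil)) (.node (.I .jac (.c 2049 (.c 8 (.c 21307587 .nil))) (.b 48 .nil)) (.I .jac (.c 2049 (.c 12865 (.c 43655363 .nil))) .nil)))))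 (.node (.node (.node (.node (.I .jac (.c 2049 (.c 8 (.c 40 .nil))) (.b 43655363 .nil)) (.I .jac (.c 2049 (.c 4673 (.c 43954947 .nil))) .nil)) (.node (.I .jac (.c 513 (.c 16 (.c 40 .nil))) (.b 48 (.b 32 (.b 24 .nil)))) (.I .jac (.c 513 (.c 15456208906582345 (.c 24 .nil))) .nil))) (.node (.node (.I .jac (.c 513 (.c 43954819 (.c 32 .nil))) (.b 24 .nil)) (.I .jac (.c 513 (.c 16 (.c 48 .nil))) (.b 32 (.b 40 (.b 24 .nil))))) (.node (.I .jac (.c 513 (.c 16 (.c 32 .nil))) (.b 48 (.b 40 (.b 24 .nil)))) (.I .jac (.c 513 (.c 43655299 (.c 40 .nil))) (.b 24 .nil))))) (.node (.node (.node (.I .jac (.c 513 (.c 16 (.c 32 .nil))) (.b 40 (.b 48 (.b 24 .nil)))) (.I .jac (.c 513 (.c 21307523 (.c 48 .nil))) (.b 24 .nil))) (.node (.I .jac (.c 513 (.c 15456208906582281 (.c 32 .nil))) .nil) (.I .jac (.c 513 (.c 43356803 (.c 40 .nil))) (.b 32 .nil)))) (.node (.node (.I .jac (.c 513 (.c 16 (.c 40 .nil)))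 (.b 24 (.b 48 (.b 32 .nil)))) (.I .jac (.c 513 (.c 3561389332330953 (.c 32 .nil))) .nil)) (.node (.I .jac (.c 513 (.c 21099139 (.c 48 .nil))) (.b 32 .nil)) (.I .jac (.c 513 (.c 15456253916349641 (.c 32 .nil))) .nil)))))))

noncomputable def c2_24 : Tr := (.node (.node (.node (.node (.node (.node (.I .jac (.c 513 (.c 16 (.c 43954883 .nil))) (.b 32 .nil)) (.I .jac (.c 513 (.c 16 (.c 32 .nil))) (.b 48 (.b 24 (.b 40 .nil))))) (.node (.I .jac (.c 513 (.c 15246281046235401 (.c 40 .nil))) .nil) (.I .jac (.c 513 (.c 16 (.c 24 .nil))) (.b 48 (.b 32 (.b 40 .nil)))))) (.node (.node (.I .jac (.c 513 (.c 15038498931046729 (.c 40 .nil))) .nil) (.I .jac (.c 513 (.c 16 (.c 32 .nil))) (.b 24 (.b 48 (.b 40 .nil))))) (.node (.I .jac (.c 513 (.c 617629514824137 (.c 40 .nil))) .nil) (.I .jac (.c 513 (.c 8786563 (.c 48 .nil))) (.b 40 .nil))))) (.node (.node (.node (.I .jac (.c 513 (.c 15246325749294281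 (.c 40 .nil))) .nil) (.I .jac (.c 513 (.c 16 (.c 32 .nil))) (.b 40 (.b 24 (.b 48 .nil))))) (.node (.I .jac (.c 513 (.c 21307523 (.c 24 .nil))) (.b 48 .nil)) (.I .jac (.c 513 (.c 3561389332330825 (.c 48 .nil))) .nil))) (.node (.node (.I .jac (.c 513 (.c 21099139 (.c 32 .nil))) (.b 48 .nil)) (.I .jac (.c 513 (.c 16 (.c 32 .nil))) (.b 24 (.b 40 (.b 48 .nil))))) (.node (.I .jac (.c 513 (.c 3632106110100681 (.c 48 .nil))) .nil) (.I .jac (.c 513 (.c 16 (.c 40 .nil))) (.b 43655363 .nil)))))) (.node (.node (.node (.node (.I .jac (.c 513 (.c 8321 (.c 43954883 .nil))) .nil) (.I .jac (.c 513 (.c 4737 (.c 43954947 .nil))) .nil)) (.node (.I .jac (.c 513 (.c 16 (.c 24 .nil))) (.b 43954947 .nil)) (.I .jac (.c 0 (.c 15456163896880457 (.c 24 .nil))) (.b 16 .nil)))) (.node (.node (.I .jac (.c 0 (.c 43954755 (.c 32 .nil))) (.b 24 (.b 16 .nil))) (.I .jac (.c 0 (.c 105535022421161523270053518655305 (.c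 16 .nil))) .nil)) (.node (.I .jac (.c 0 (.c 3632062472293833 (.c 24 .nil))) (.b 16 .nil)) (.I .jac (.c 0 (.c 1911177411964091570801150750051145 (.c 16 .nil))) .nil)))) (.node (.node (.node (.I .jac (.c 0 (.c 8 (.c 43954947 .nil))) (.b 24 (.b 16 .nil))) (.I .jac (.c 0 (.c 15456163896880393 (.c 32 .nil))) (.b 16 .nil))) (.node (.I .jac (.c 0 (.c 43356739 (.c 40 .nil))) (.b 32 (.b 16 .nil))) (.I .jac (.c 0 (.c 3561367726845385 (.c 32 .nil))) (.b 16 .nil)))) (.node (.node (.I .jac (.c 0 (.c 21099075 (.c 48 .nil))) (.b 32 (.b 16 .nil))) (.I .jac (.c 0 (.c 1911166281013373094452074144631689 (.c 16 .nil))) .nil)) (.node (.I .jac (.c 0 (.c 15246236343241993 (.c 40 .nil))) (.b 16 .nil)) (.I .jac (.c 0 (.c 1809240918100478812464852319205321 (.c 16 .nil))) .nil)))))) (.node (.node (.node (.node (.node (.I .jac (.c 0 (.c 617620517416393 (.c 40 .nil))) (.b 16 .nil)) (.I .jac (.c 0 (.c 1859603590828734939574989037145033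 (.c 16 .nil))) .nil)) (.node (.I .jac (.c 0 (.c 15246325749294217 (.c 40 .nil))) (.b 16 .nil)) (.I .jac (.c 0 (.c 8 (.c 43655363 .nil))) (.b 40 (.b 16 .nil))))) (.node (.node (.I .jac (.c 0 (.c 105535022421150365574138632295433 (.c 16 .nil))) .nil) (.I .jac (.c 0 (.c 101466720686519624613324987168777 (.c 16 .nil))) .nil)) (.node (.I .jac (.c 0 (.c 15246325749397073 (.c 16 .nil))) .nil) (.I .jac (.c 0 (.c 8257 (.c 43954883 .nil))) (.b 16 .nil))))) (.node (.node (.node (.I .jac (.c 0 (.c 8 (.c 32 .nil))) (.b 43954883 (.b 16 .nil))) (.I .jac (.c 0 (.c 15456298926219857 (.c 16 .nil))) .nil)) (.node (.I .jac (.c 0 (.c 29055965329249606391974117761995 (.c 16 .nil))) .nil) (.I .jac (.c 0 (.c 28269389345320218300422223471627 (.c 16 .nil))) .nil))) (.node (.node (.I .jac (.c 0 (.c 1648984725330647893078968155723 (.c 16 .nil))) .nil) (.I .jac (.c 0 (.c 1585417510726982208008530263691 (.c 16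 .nil))) .nil)) (.node (.I .jac (.c 0 (.c 47681887941711471725338787531 (.c 16 .nil))) .nil) (.I .jac (.c 0 (.c 29861973140834692636938164206795 (.c 16 .nil))) .nil))))) (.node (.node (.node (.node (.I .jac (.c 0 (.c 1649024349379069078081013509579 (.c 16 .nil))) .nil) (.I .jac (.c 0 (.c 1911144019257846993660289188230921 (.c 24 .nil))) .nil)) (.node (.I .jac (.c 0 (.c 43954755 (.c 32 .nil))) (.b 16 (.b 24 .nil))) (.I .jac (.c 0 (.c 1859581781071975053026125028629257 (.c 24 .nil))) .nil))) (.node (.node (.I .jac (.c 0 (.c 15246236343242121 (.c 16 .nil))) (.b 24 .nil)) (.I .jac (.c 0 (.c 105535022421161523270053518655241 (.c 24 .nil))) .nil)) (.node (.I .jac (.c 0 (.c 3632062472293833 (.c 16 .nil))) (.b 24 .nil)) (.I .jac (.c 0 (.c 21307459 (.c 48 .nil))) (.b 16 (.b 24 .nil)))))) (.node (.node (.node (.I .jac (.c 0 (.c 1911144019257815339436628377186185 (.c 24 .nil))) .nil) (.I .jac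 (.c 0 (.c 15456163896880329 (.c 32 .nil))) (.b 24 .nil))) (.node (.I .jac (.c 0 (.c 43954755 (.c 16 .nil))) (.b 32 (.b 24 .nil))) (.I .jac (.c 0 (.c 1760096547751873067502755542309769 (.c 24 .nil))) .nil))) (.node (.node (.I .jac (.c 0 (.c 14832803796618633 (.c 32 .nil))) (.b 24 .nil)) (.I .jac (.c 0 (.c 43059267 (.c 40 .nil))) (.b 32 (.b 24 .nil)))) (.node (.I .jac (.c 0 (.c 97536312314104308555468785074057 (.c 24 .nil))) .nil) (.I .jac (.c 0 (.c 20891715 (.c 48 .nil))) (.b 32 (.b 24 .nil)))))))))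

noncomputable def c2_25 : Tr := (.node (.node (.node (.node (.node (.node (.I .jac (.c 0 (.c 1911155150111275788822785104923529 (.c 24 .nil))) .nil) (.I .jac (.c 0 (.c 15456208906582153 (.c 32 .nil))) (.b 24 .nil))) (.node (.I .jac (.c 0 (.c 15246236343241929 (.c 40 .nil))) (.b 24 .nil)) (.I .jac (.c 0 (.c 43655235 (.c 16 .nil))) (.b 40 (.b 24 .nil))))) (.node (.node (.I .jac (.c 0 (.c 14832803796618569 (.c 40 .nil))) (.b 24 .nil)) (.I .jac (.c 0 (.c 2870186216703095588852008501193 (.c 24 .nil))) .nil)) (.node (.I .jac (.c 0 (.c 598976858557897 (.c 40 .nil))) (.b 24 .nil)) (.I .jac (.c 0 (.c 8652867 (.c 48 .nil))) (.b 40 (.b 24 .nil)))))) (.node (.node (.node (.I .jac (.c 0 (.c 1859592685926343445417011755076553 (.c 24 .nil))) .nil) (.I .jac (.c 0 (.c 8 (.c 43655299 .nil))) (.b 40 (.b 24 .nil)))) (.node (.I .jac (.c 0 (.c 3632084291312209 (.c 24 .nil))) .nil) (.I .jac (.c 0 (.c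 3632062472293577 (.c 48 .nil))) (.b 24 .nil)))) (.node (.node (.I .jac (.c 0 (.c 21307459 (.c 16 .nil))) (.b 48 (.b 24 .nil))) (.I .jac (.c 0 (.c 97536312314097157533296358586377 (.c 24 .nil))) .nil)) (.node (.I .jac (.c 0 (.c 598976858557833 (.c 48 .nil))) (.b 24 .nil)) (.I .jac (.c 0 (.c 8652867 (.c 40 .nil))) (.b 48 (.b 24 .nil))))))) (.node (.node (.node (.node (.I .jac (.c 0 (.c 12865 (.c 43655299 .nil))) (.b 24 .nil)) (.I .jac (.c 0 (.c 8 (.c 40 .nil))) (.b 43655299 (.b 24 .nil)))) (.node (.I .jac (.c 0 (.c 8257 (.c 43954819 .nil))) (.b 24 .nil)) (.I .jac (.c 0 (.c 29055965329249606391974117761931 (.c 24 .nil))) .nil))) (.node (.node (.I .jac (.c 0 (.c 44846659635985718831597993675 (.c 24 .nil))) .nil) (.I .jac (.c 0 (.c 29861799220489422234331306566859 (.c 24 .nil))) .nil)) (.node (.I .jac (.c 0 (.c 1911144019257831166548458782675721 (.c 32 .nil))) .nil) (.I .jac (.c 0 (.c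 43954755 (.c 24 .nil))) (.b 16 (.b 32 .nil)))))) (.node (.node (.node (.I .jac (.c 0 (.c 15038454533713289 (.c 16 .nil))) (.b 32 .nil)) (.I .jac (.c 0 (.c 101466720686526918294429566385929 (.c 32 .nil))) .nil)) (.node (.I .jac (.c 0 (.c 3561367726845385 (.c 16 .nil))) (.b 32 .nil)) (.I .jac (.c 0 (.c 1911166281013373094452074144631561 (.c 32 .nil))) .nil))) (.node (.node (.I .jac (.c 0 (.c 15456253916349577 (.c 16 .nil))) (.b 32 .nil)) (.I .jac (.c 0 (.c 43954755 (.c 16 .nil))) (.b 24 (.b 32 .nil)))) (.node (.I .jac (.c 0 (.c 1760096547751873067502755542309705 (.c 32 .nil))) .nil) (.I .jac (.c 0 (.c 14832803796618633 (.c 24 .nil))) (.b 32 .nil))))))) (.node (.node (.node (.node (.node (.I .jac (.c 0 (.c 20891715 (.c 48 .nil))) (.b 24 (.b 32 .nil))) (.I .jac (.c 0 (.c 1911155150111275788822785104923465 (.c 32 .nil))) .nil)) (.node (.I .jac (.c 0 (.c 8 (.c 43954819 .nil))) (.b 24 (.b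 32 .nil))) (.I .jac (.c 0 (.c 1809240918100448013709967274651593 (.c 32 .nil))) .nil))) (.node (.node (.I .jac (.c 0 (.c 1760096547751842689920580067480521 (.c 32 .nil))) .nil) (.I .jac (.c 0 (.c 43059267 (.c 24 .nil))) (.b 40 (.b 32 .nil)))) (.node (.I .jac (.c 0 (.c 62889413447113 (.c 40 .nil))) (.b 32 .nil)) (.I .jac (.c 0 (.c 2803779 (.c 48 .nil))) (.b 40 (.b 32 .nil)))))) (.node (.node (.node (.I .jac (.c 0 (.c 1809251600792702688084048477539273 (.c 32 .nil))) .nil) (.I .jac (.c 0 (.c 15038498931046537 (.c 40 .nil))) (.b 32 .nil))) (.node (.I .jac (.c 0 (.c 18497 (.c 21099139 .nil))) (.b 32 .nil)) (.I .jac (.c 0 (.c 8 (.c 48 .nil))) (.b 21099139 (.b 32 .nil))))) (.node (.node (.I .jac (.c 0 (.c 101466720686512330932220408213513 (.c 32 .nil))) .nil) (.I .jac (.c 0 (.c 3561367726845129 (.c 48 .nil))) (.b 32 .nil))) (.node (.I .jac (.c 0 (.c 21099075 (.c 16 .nil))) (.b 48 (.b 32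 .nil))) (.I .jac (.c 0 (.c 97536312314093582022210145440777 (.c 32 .nil))) .nil))))) (.node (.node (.node (.node (.I .jac (.c 0 (.c 31640626589710940674614467593 (.c 32 .nil))) .nil) (.I .jac (.c 0 (.c 101467951811507455216989041445897 (.c 32 .nil))) .nil)) (.node (.I .jac (.c 0 (.c 3561389332330633 (.c 48 .nil))) (.b 32 .nil)) (.I .jac (.c 0 (.c 8 (.c 21099139 .nil))) (.b 48 (.b 32 .nil))))) (.node (.node (.I .jac (.c 0 (.c 15456208906619473 (.c 32 .nil))) .nil) (.I .jac (.c 0 (.c 2113 (.c 43954883 .nil))) (.b 32 .nil))) (.node (.I .jac (.c 0 (.c 8 (.c 16 .nil))) (.b 43954883 (.b 32 .nil))) (.I .jac (.c 0 (.c 28269389345320218300422223471499 (.c 32 .nil))) .nil)))) (.node (.node (.node (.I .jac (.c 0 (.c 1524004879907878948251688484427 (.c 32 .nil))) .nil) (.I .jac (.c 0 (.c 29861799220489174934988801249867 (.c 32 .nil))) .nil)) (.node (.I .jac (.c 0 (.c 1585436747055088008564707153355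 (.c 32 .nil))) .nil) (.I .jac (.c 0 (.c 1859581781071943828734094068896521 (.c 40 .nil))) .nil))) (.node (.node (.I .jac (.c 0 (.c 1809240918100478812464852319205129 (.c 40 .nil))) .nil) (.I .jac (.c 0 (.c 15038454533713225 (.c 16 .nil))) (.b 40 .nil))) (.node (.I .jac (.c 0 (.c 617620517416393 (.c 16 .nil))) (.b 40 .nil)) (.I .jac (.c 0 (.c 15246325749294217 (.c 16 .nil))) (.b 40 .nil))))))))

noncomputable def c2_26 : Tr := (.node (.node (.node (.node (.node (.node (.I .jac (.c 0 (.c 8 (.c 43655363 .nil))) (.b 16 (.b 40 .nil))) (.I .jac (.c 0 (.c 1859581781071928216588078589128521 (.c 40 .nil))) .nil)) (.node (.I .jac (.c 0 (.c 43655235 (.c 16 .nil))) (.b 24 (.b 40 .nil))) (.I .jac (.c 0 (.c 8652867 (.c 48 .nil))) (.b 24 (.b 40 .nil))))) (.node (.node (.I .jac (.c 0 (.c 1809240918100448013709967274651529 (.c 40 .nil))) .nil) (.I .jac (.c 0 (.c 15038454533713097 (.c 32 .nil))) (.b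 40 .nil))) (.node (.I .jac (.c 0 (.c 43356739 (.c 16 .nil))) (.b 32 (.b 40 .nil))) (.I .jac (.c 0 (.c 1809251600792702688084048477539209 (.c 40 .nil))) .nil)))) (.node (.node (.node (.I .jac (.c 0 (.c 15038498931046537 (.c 32 .nil))) (.b 40 .nil)) (.I .jac (.c 0 (.c 8 (.c 43356803 .nil))) (.b 32 (.b 40 .nil)))) (.node (.I .jac (.c 0 (.c 617629514971729 (.c 40 .nil))) .nil) (.I .jac (.c 0 (.c 18497 (.c 8786563 .nil))) (.b 40 .nil)))) (.node (.node (.I .jac (.c 0 (.c 8 (.c 48 .nil))) (.b 8786563 (.b 40 .nil))) (.I .jac (.c 0 (.c 617620517416137 (.c 48 .nil))) (.b 40 .nil))) (.node (.I .jac (.c 0 (.c 8786499 (.c 16 .nil))) (.b 48 (.b 40 .nil))) (.I .jac (.c 0 (.c 598976858557705 (.c 48 .nil))) (.b 40 .nil)))))) (.node (.node (.node (.node (.I .jac (.c 0 (.c 8652867 (.c 24 .nil))) (.b 48 (.b 40 .nil))) (.I .jac (.c 0 (.c 31640626589646541915244722185 (.c 40 .nil))) .nil)) (.node (.I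 .jac (.c 0 (.c 62889413446985 (.c 48 .nil))) (.b 40 .nil)) (.I .jac (.c 0 (.c 2803779 (.c 32 .nil))) (.b 48 (.b 40 .nil))))) (.node (.node (.I .jac (.c 0 (.c 15038498931112529 (.c 40 .nil))) .nil) (.I .jac (.c 0 (.c 8257 (.c 43356803 .nil))) (.b 40 .nil))) (.node (.I .jac (.c 0 (.c 8 (.c 32 .nil))) (.b 43356803 (.b 40 .nil))) (.I .jac (.c 0 (.c 15246281046272593 (.c 40 .nil))) .nil)))) (.node (.node (.node (.I .jac (.c 0 (.c 4673 (.c 43655299 .nil))) (.b 40 .nil)) (.I .jac (.c 0 (.c 8 (.c 24 .nil))) (.b 43655299 (.b 40 .nil)))) (.node (.I .jac (.c 0 (.c 28269556262386697589637214938315 (.c 40 .nil))) .nil) (.I .jac (.c 0 (.c 47683277197737203872376018379 (.c 40 .nil))) .nil))) (.node (.node (.I .jac (.c 0 (.c 29056306106699223560489755089867 (.c 40 .nil))) .nil) (.I .jac (.c 0 (.c 43655235 (.c 21099139 .nil))) .nil)) (.node (.I .jac (.c 0 (.c 2737112265 (.c 21307523 .nil))) .nil)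 (.I .jac (.c 0 (.c 18497 (.c 24 .nil))) (.b 21307523 .nil))))))) (.node (.node (.node (.node (.node (.I .jac (.c 0 (.c 8 (.c 48 .nil))) (.b 24 (.b 21307523 .nil))) (.I .jac (.c 0 (.c 43356739 (.c 21307523 .nil))) .nil)) (.node (.I .jac (.c 0 (.c 35718537 (.c 21307587 .nil))) .nil) (.I .jac (.c 0 (.c 2113 (.c 48 .nil))) (.b 21307587 .nil)))) (.node (.node (.I .jac (.c 0 (.c 8 (.c 16 .nil))) (.b 48 (.b 21307587 .nil))) (.I .jac (.c 0 (.c 21307459 (.c 24 .nil))) (.b 16 (.b 48 .nil)))) (.node (.I .jac (.c 0 (.c 101466720686519624613324987168521 (.c 48 .nil))) .nil) (.I .jac (.c 0 (.c 3561367726845257 (.c 16 .nil))) (.b 48 .nil))))) (.node (.node (.node (.I .jac (.c 0 (.c 21099075 (.c 32 .nil))) (.b 16 (.b 48 .nil))) (.I .jac (.c 0 (.c 3051640828268911628940126690057 (.c 48 .nil))) .nil)) (.node (.I .jac (.c 0 (.c 617620517416329 (.c 16 .nil))) (.b 48 .nil)) (.I .jac (.c 0 (.c 8786499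 (.c 40 .nil))) (.b 16 (.b 48 .nil))))) (.node (.node (.I .jac (.c 0 (.c 105537558360241882727598910245641 (.c 48 .nil))) .nil) (.I .jac (.c 0 (.c 3632106110100617 (.c 16 .nil))) (.b 48 .nil))) (.node (.I .jac (.c 0 (.c 21307459 (.c 16 .nil))) (.b 24 (.b 48 .nil))) (.I .jac (.c 0 (.c 8 (.c 21307523 .nil))) (.b 24 (.b 48 .nil))))))) (.node (.node (.node (.node (.I .jac (.c 0 (.c 8 (.c 16 .nil))) (.b 21307587 (.b 48 .nil))) (.I .jac (.c 0 (.c 1648984725330473554080298056331 (.c 48 .nil))) .nil)) (.node (.I .jac (.c 0 (.c 1585417510726868244241271213323 (.c 48 .nil))) .nil) (.I .jac (.c 0 (.c 1524004879907767213530244320587 (.c 48 .nil))) .nil))) (.node (.node (.I .jac (.c 0 (.c 47681887941701589797060125579 (.c 48 .nil))) .nil) (.I .jac (.c 0 (.c 44846659635976135201861067723 (.c 48 .nil))) .nil)) (.node (.I .jac (.c 0 (.c 494384790464217725687489547 (.c 48 .nil))) .nil) (.I .jac (.c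 0 (.c 47683277197727321800138832715 (.c 48 .nil))) .nil)))) (.node (.node (.node (.I .jac (.c 0 (.c 1649024349378836623289967057867 (.c 48 .nil))) .nil) (.I .jac (.c 0 (.c 35718473 (.c 43655363 .nil))) .nil)) (.node (.I .jac (.c 0 (.c 2113 (.c 40 .nil))) (.b 43655363 .nil)) (.I .jac (.c 0 (.c 8 (.c 16 .nil))) (.b 40 (.b 43655363 .nil))))) (.node (.node (.I .jac (.c 0 (.c 545424585 (.c 43954819 .nil))) .nil) (.I .jac (.c 0 (.c 8257 (.c 24 .nil))) (.b 43954819 .nil))) (.node (.I .jac (.c 0 (.c 8 (.c 32 .nil))) (.b 24 (.b 43954819 .nil))) (.I .jac (.c 0 (.c 174695689 (.c 43954819 .nil))) .nil)))))))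

noncomputable def c2_27 : Tr := (.node (.node (.node (.node (.node (.node (.I .jac (.c 0 (.c 4673 (.c 32 .nil))) (.b 43954819 .nil)) (.I .jac (.c 0 (.c 8 (.c 24 .nil))) (.b 32 (.b 43954819 .nil)))) (.node (.I .jac (.c 0 (.c 545424521 (.c 43954883 .nil))) .nil) (.I .jac (.c 0 (.c 8257 (.c 16 .nil))) (.b 43954883 .nil)))) (.node (.node (.I .jac (.c 0 (.c 8 (.c 32 .nil))) (.b 16 (.b 43954883 .nil))) (.I .jac (.c 0 (.c 174695561 (.c 43954947 .nil))) .nil)) (.node (.I .jac (.c 0 (.c 4673 (.c 16 .nil))) (.b 43954947 .nil)) (.I .jac (.c 0 (.c 8 (.c 24 .nil))) (.b 16 (.b 43954947 .nil)))))) (.node (.node (.node (.I .jac (.c 0 (.c 2803779 (.c 43954947 .nil))) .nil) (.I .jac (.c 0 (.c 8 (.c 28269556262386938205620111686667 .nil))) .nil)) (.node (.I .jac (.c 0 (.c 8 (.c 1649004537265596382040201303627 .nil))) .nil) (.I .jac (.c 0 (.c 8 (.c 29861973140834692636938164206859 .nil))) .nil))) (.node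 (.node (.I .jac (.c 0 (.c 8 (.c 29056306106699955384125721219979 .nil))) .nil) (.I .tdb (.c 40 (.c 18433 (.c 8 (.c 16 .nil)))) (.b 32 (.b 24 .nil)))) (.node (.I .tdb (.c 0 (.c 48 (.c 8 (.c 16 .nil)))) (.b 40 (.b 32 (.b 24 .nil)))) (.I .tdb (.c 48 (.c 12801 (.c 8 (.c 16 .nil)))) (.b 32 (.b 24 .nil))))))) (.node (.node (.node (.node (.I .tdb (.c 0 (.c 40 (.c 8 (.c 16 .nil)))) (.b 48 (.b 32 (.b 24 .nil)))) (.I .tdb (.c 32 (.c 43954691 (.c 8 (.c 16 .nil)))) (.b 24 .nil))) (.node (.I .tdb (.c 0 (.c 48 (.c 8 (.c 16 .nil)))) (.b 32 (.b 40 (.b 24 .nil)))) (.I .tdb (.c 40 (.c 537002377 (.c 8 (.c 16 .nil)))) (.b 24 .nil)))) (.node (.node (.I .tdb (.c 24 (.c 15246191640314249 (.c 8 (.c 16 .nil)))) .nil) (.I .tdb (.c 40 (.c 43655171 (.c 8 (.c 16 .nil)))) (.b 24 .nil))) (.node (.I .tdb (.c 24 (.c 13748196208362034185 (.c 8 (.c 16 .nil)))) .nil) (.I .tdb (.c 48 (.c 1310925065 (.c 8 (.c 16 .nil))))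 (.b 24 .nil))))) (.node (.node (.node (.I .tdb (.c 32 (.c 12801 (.c 8 (.c 16 .nil)))) (.b 48 (.b 24 .nil))) (.I .tdb (.c 0 (.c 40 (.c 8 (.c 16 .nil)))) (.b 32 (.b 48 (.b 24 .nil))))) (.node (.I .tdb (.c 24 (.c 2306971873338800137 (.c 8 (.c 16 .nil)))) .nil) (.I .tdb (.c 48 (.c 537002313 (.c 8 (.c 16 .nil)))) (.b 24 .nil)))) (.node (.node (.I .tdb (.c 48 (.c 21307395 (.c 8 (.c 16 .nil)))) (.b 24 .nil)) (.I .tdb (.c 24 (.c 15456298926182473 (.c 8 (.c 16 .nil)))) .nil)) (.node (.I .tdb (.c 24 (.c 2718204233 (.c 8 (.c 16 .nil)))) (.b 32 .nil)) (.I .tdb (.c 0 (.c 48 (.c 8 (.c 16 .nil)))) (.b 40 (.b 24 (.b 32 .nil))))))))) (.node (.node (.node (.node (.node (.I .tdb (.c 32 (.c 13748198893136698185 (.c 8 (.c 16 .nil)))) .nil) (.I .tdb (.c 48 (.c 12801 (.c 8 (.c 16 .nil)))) (.b 24 (.b 32 .nil)))) (.node (.I .tdb (.c 0 (.c 40 (.c 8 (.c 16 .nil)))) (.b 48 (.b 24 (.b 32 .nil)))) (.I .tdb (.c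 40 (.c 2718204105 (.c 8 (.c 16 .nil)))) (.b 32 .nil)))) (.node (.node (.I .tdb (.c 24 (.c 18433 (.c 8 (.c 16 .nil)))) (.b 40 (.b 32 .nil))) (.I .tdb (.c 0 (.c 48 (.c 8 (.c 16 .nil)))) (.b 24 (.b 40 (.b 32 .nil))))) (.node (.I .tdb (.c 4609 (.c 48 (.c 8 (.c 16 .nil)))) (.b 40 (.b 32 .nil))) (.I .tdb (.c 0 (.c 24 (.c 8 (.c 16 .nil)))) (.b 48 (.b 40 (.b 32 .nil))))))) (.node (.node (.node (.I .tdb (.c 32 (.c 15038410136445321 (.c 8 (.c 16 .nil)))) .nil) (.I .tdb (.c 40 (.c 43356675 (.c 8 (.c 16 .nil)))) (.b 32 .nil))) (.node (.I .tdb (.c 32 (.c 13748194865974800393 (.c 8 (.c 16 .nil)))) .nil) (.I .tdb (.c 48 (.c 1310925001 (.c 8 (.c 16 .nil)))) (.b 32 .nil)))) (.node (.node (.I .tdb (.c 24 (.c 12801 (.c 8 (.c 16 .nil)))) (.b 48 (.b 32 .nil))) (.I .tdb (.c 0 (.c 40 (.c 8 (.c 16 .nil)))) (.b 24 (.b 48 (.b 32 .nil))))) (.node (.I .tdb (.c 32 (.c 231045989336561673 (.c 8 (.c 16 .nil))))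 .nil) (.I .tdb (.c 48 (.c 169943369 (.c 8 (.c 16 .nil)))) (.b 32 .nil)))))) (.node (.node (.node (.node (.I .tdb (.c 48 (.c 21099011 (.c 8 (.c 16 .nil)))) (.b 32 .nil)) (.I .tdb (.c 32 (.c 18433 (.c 8 (.c 16 .nil)))) (.b 24 (.b 40 .nil)))) (.node (.I .tdb (.c 40 (.c 2306972423229201225 (.c 8 (.c 16 .nil)))) .nil) (.I .tdb (.c 24 (.c 43655171 (.c 8 (.c 16 .nil)))) (.b 40 .nil)))) (.node (.node (.I .tdb (.c 24 (.c 18433 (.c 8 (.c 16 .nil)))) (.b 32 (.b 40 .nil))) (.I .tdb (.c 40 (.c 15038410136445257 (.c 8 (.c 16 .nil)))) .nil)) (.node (.I .tdb (.c 32 (.c 43356675 (.c 8 (.c 16 .nil)))) (.b 40 .nil)) (.I .tdb (.c 40 (.c 2306970773558194185 (.c 8 (.c 16 .nil)))) .nil)))) (.node (.node (.node (.I .tdb (.c 48 (.c 537002185 (.c 8 (.c 16 .nil)))) (.b 40 .nil)) (.I .tdb (.c 40 (.c 231045815314584585 (.c 8 (.c 16 .nil)))) .nil)) (.node (.I .tdb (.c 48 (.c 169943305 (.c 8 (.c 16 .nil)))) (.b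 40 .nil)) (.I .tdb (.c 4609 (.c 32 (.c 8 (.c 16 .nil)))) (.b 48 (.b 40 .nil))))) (.node (.node (.I .tdb (.c 0 (.c 24 (.c 8 (.c 16 .nil)))) (.b 32 (.b 48 (.b 40 .nil)))) (.I .tdb (.c 40 (.c 617611520074185 (.c 8 (.c 16 .nil)))) .nil)) (.node (.I .tdb (.c 40 (.c 15246325749294153 (.c 8 (.c 16 .nil)))) .nil) (.I .tdb (.c 0 (.c 43655363 (.c 8 (.c 16 .nil)))) (.b 40 .nil))))))))

noncomputable def c2_28 : Tr := (.node (.node (.node (.node (.node (.node (.I .tdb (.c 0 (.c 48 (.c 8 (.c 16 .nil)))) (.b 21307587 .nil)) (.I .tdb (.c 48 (.c 13748196208362033993 (.c 8 (.c 16 .nil)))) .nil)) (.node (.I .tdb (.c 24 (.c 1310925065 (.c 8 (.c 16 .nil)))) (.b 48 .nil)) (.I .tdb (.c 48 (.c 2306971873338799945 (.c 8 (.c 16 .nil)))) .nil))) (.node (.node (.I .tdb (.c 24 (.c 12801 (.c 8 (.c 16 .nil)))) (.b 32 (.b 48 .nil))) (.I .tdb (.c 0 (.c 40 (.c 8 (.c 16 .nil)))) (.b 24 (.b 32 (.b 48 .nil))))) (.node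 (.I .tdb (.c 48 (.c 231045989336561545 (.c 8 (.c 16 .nil)))) .nil) (.I .tdb (.c 32 (.c 169943369 (.c 8 (.c 16 .nil)))) (.b 48 .nil))))) (.node (.node (.node (.I .tdb (.c 4609 (.c 40 (.c 8 (.c 16 .nil)))) (.b 32 (.b 48 .nil))) (.I .tdb (.c 0 (.c 24 (.c 8 (.c 16 .nil)))) (.b 40 (.b 32 (.b 48 .nil))))) (.node (.I .tdb (.c 32 (.c 21099011 (.c 8 (.c 16 .nil)))) (.b 48 .nil)) (.I .tdb (.c 48 (.c 231045815314584521 (.c 8 (.c 16 .nil)))) .nil))) (.node (.node (.I .tdb (.c 40 (.c 169943305 (.c 8 (.c 16 .nil)))) (.b 48 .nil)) (.I .tdb (.c 8786435 (.c 40 (.c 8 (.c 16 .nil)))) (.b 48 .nil))) (.node (.I .tdb (.c 48 (.c 3632106110100553 (.c 8 (.c 16 .nil)))) .nil) (.I .tdb (.c 0 (.c 21307587 (.c 8 (.c 16 .nil)))) (.b 48 .nil)))))) (.node (.node (.node (.node (.I .tdb (.c 12801 (.c 43655363 (.c 8 (.c 16 .nil)))) .nil) (.I .tdb (.c 4609 (.c 43954947 (.c 8 (.c 16 .nil)))) .nil)) (.node (.I .tdb (.c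 0 (.c 24 (.c 8 (.c 16 .nil)))) (.b 43954947 .nil)) (.I .tdb (.c 16 (.c 59109074018392946569 (.c 8 (.c 24 .nil)))) .nil))) (.node (.node (.I .tdb (.c 32 (.c 2718204233 (.c 8 (.c 24 .nil)))) (.b 16 .nil)) (.I .tdb (.c 40 (.c 18433 (.c 8 (.c 24 .nil)))) (.b 32 (.b 16 .nil)))) (.node (.I .tdb (.c 0 (.c 48 (.c 8 (.c 24 .nil)))) (.b 40 (.b 32 (.b 16 .nil)))) (.I .tdb (.c 32 (.c 43954691 (.c 8 (.c 24 .nil)))) (.b 16 .nil))))) (.node (.node (.node (.I .tdb (.c 16 (.c 59109071234951844809 (.c 8 (.c 24 .nil)))) .nil) (.I .tdb (.c 40 (.c 2718204169 (.c 8 (.c 24 .nil)))) (.b 16 .nil))) (.node (.I .tdb (.c 0 (.c 48 (.c 8 (.c 24 .nil)))) (.b 32 (.b 40 (.b 16 .nil)))) (.I .tdb (.c 16 (.c 2306972423229201353 (.c 8 (.c 24 .nil)))) .nil))) (.node (.node (.I .tdb (.c 48 (.c 8193 (.c 8 (.c 24 .nil)))) (.b 40 (.b 16 .nil))) (.I .tdb (.c 0 (.c 32 (.c 8 (.c 24 .nil)))) (.b 48 (.b 40 (.b 16 .nil))))) (.node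 (.I .tdb (.c 16 (.c 13748196208362034185 (.c 8 (.c 24 .nil)))) .nil) (.I .tdb (.c 48 (.c 1310925065 (.c 8 (.c 24 .nil)))) (.b 16 .nil))))))) (.node (.node (.node (.node (.node (.I .tdb (.c 16 (.c 3632040653488585 (.c 8 (.c 24 .nil)))) .nil) (.I .tdb (.c 48 (.c 21307395 (.c 8 (.c 24 .nil)))) (.b 16 .nil))) (.node (.I .tdb (.c 16 (.c 15456298926182473 (.c 8 (.c 24 .nil)))) .nil) (.I .tdb (.c 0 (.c 43954947 (.c 8 (.c 24 .nil)))) (.b 16 .nil)))) (.node (.node (.I .tdb (.c 32 (.c 59109074018392946441 (.c 8 (.c 24 .nil)))) .nil) (.I .tdb (.c 16 (.c 2718204233 (.c 8 (.c 24 .nil)))) (.b 32 .nil))) (.node (.I .tdb (.c 40 (.c 18433 (.c 8 (.c 24 .nil)))) (.b 16 (.b 32 .nil))) (.I .tdb (.c 16 (.c 1310925193 (.c 8 (.c 24 .nil)))) (.b 32 .nil))))) (.node (.node (.node (.I .tdb (.c 48 (.c 12801 (.c 8 (.c 24 .nil)))) (.b 16 (.b 32 .nil))) (.I .tdb (.c 0 (.c 40 (.c 8 (.c 24 .nil)))) (.b 48 (.b 16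 (.b 32 .nil))))) (.node (.I .tdb (.c 32 (.c 15456118887243977 (.c 8 (.c 24 .nil)))) .nil) (.I .tdb (.c 40 (.c 2718204041 (.c 8 (.c 24 .nil)))) (.b 32 .nil)))) (.node (.node (.I .tdb (.c 0 (.c 48 (.c 8 (.c 24 .nil)))) (.b 16 (.b 40 (.b 32 .nil)))) (.I .tdb (.c 40 (.c 33587593 (.c 8 (.c 24 .nil)))) (.b 32 .nil))) (.node (.I .tdb (.c 2049 (.c 48 (.c 8 (.c 24 .nil)))) (.b 40 (.b 32 .nil))) (.I .tdb (.c 0 (.c 16 (.c 8 (.c 24 .nil)))) (.b 48 (.b 40 (.b 32 .nil)))))))) (.node (.node (.node (.node (.I .tdb (.c 32 (.c 14832759703961993 (.c 8 (.c 24 .nil)))) .nil) (.I .tdb (.c 48 (.c 1310924937 (.c 8 (.c 24 .nil)))) (.b 32 .nil))) (.node (.I .tdb (.c 16 (.c 12801 (.c 8 (.c 24 .nil)))) (.b 48 (.b 32 .nil))) (.I .tdb (.c 0 (.c 40 (.c 8 (.c 24 .nil)))) (.b 16 (.b 48 (.b 32 .nil)))))) (.node (.node (.I .tdb (.c 32 (.c 9024976834607113 (.c 8 (.c 24 .nil)))) .nil) (.I .tdb (.c 48 (.c 33587529 (.c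 8 (.c 24 .nil)))) (.b 32 .nil))) (.node (.I .tdb (.c 2049 (.c 40 (.c 8 (.c 24 .nil)))) (.b 48 (.b 32 .nil))) (.I .tdb (.c 0 (.c 16 (.c 8 (.c 24 .nil)))) (.b 40 (.b 48 (.b 32 .nil))))))) (.node (.node (.node (.I .tdb (.c 32 (.c 3491688652046793 (.c 8 (.c 24 .nil)))) .nil) (.I .tdb (.c 48 (.c 20891651 (.c 8 (.c 24 .nil)))) (.b 32 .nil))) (.node (.I .tdb (.c 0 (.c 43954819 (.c 8 (.c 24 .nil)))) (.b 32 .nil)) (.I .tdb (.c 40 (.c 59109071234951844617 (.c 8 (.c 24 .nil)))) .nil))) (.node (.node (.I .tdb (.c 16 (.c 2718204169 (.c 8 (.c 24 .nil)))) (.b 40 .nil)) (.I .tdb (.c 40 (.c 2306972423229201161 (.c 8 (.c 24 .nil)))) .nil)) (.node (.I .tdb (.c 32 (.c 2718204041 (.c 8 (.c 24 .nil)))) (.b 40 .nil)) (.I .tdb (.c 32 (.c 33587593 (.c 8 (.c 24 .nil)))) (.b 40 .nil))))))))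

noncomputable def c2_29 : Tr := (.node (.node (.node (.node (.node (.node (.I .tdb (.c 32 (.c 43059203 (.c 8 (.c 24 .nil)))) (.b 40 .nil)) (.I .tdb (.c 16 (.c 8193 (.c 8 (.c 24 .nil)))) (.b 48 (.b 40 .nil)))) (.node (.I .tdb (.c 0 (.c 32 (.c 8 (.c 24 .nil)))) (.b 16 (.b 48 (.b 40 .nil)))) (.I .tdb (.c 40 (.c 9024942441010185 (.c 8 (.c 24 .nil)))) .nil))) (.node (.node (.I .tdb (.c 48 (.c 33587465 (.c 8 (.c 24 .nil)))) (.b 40 .nil)) (.I .tdb (.c 2049 (.c 32 (.c 8 (.c 24 .nil)))) (.b 48 (.b 40 .nil)))) (.node (.I .tdb (.c 0 (.c 16 (.c 8 (.c 24 .nil)))) (.b 32 (.b 48 (.b 40 .nil)))) (.I .tdb (.c 40 (.c 598967998054857 (.c 8 (.c 24 .nil)))) .nil)))) (.node (.node (.node (.I .tdb (.c 8652803 (.c 48 (.c 8 (.c 24 .nil)))) (.b 40 .nil)) (.I .tdb (.c 40 (.c 15246281046235209 (.c 8 (.c 24 .nil)))) .nil)) (.node (.I .tdb (.c 48 (.c 13748196208362033929 (.c 8 (.c 24 .nil)))) .nil) (.I .tdb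 (.c 16 (.c 1310925065 (.c 8 (.c 24 .nil)))) (.b 48 .nil)))) (.node (.node (.I .tdb (.c 32 (.c 12801 (.c 8 (.c 24 .nil)))) (.b 16 (.b 48 .nil))) (.I .tdb (.c 0 (.c 40 (.c 8 (.c 24 .nil)))) (.b 32 (.b 16 (.b 48 .nil))))) (.node (.I .tdb (.c 16 (.c 537002313 (.c 8 (.c 24 .nil)))) (.b 48 .nil)) (.I .tdb (.c 40 (.c 8193 (.c 8 (.c 24 .nil)))) (.b 16 (.b 48 .nil))))))) (.node (.node (.node (.node (.I .tdb (.c 0 (.c 32 (.c 8 (.c 24 .nil)))) (.b 40 (.b 16 (.b 48 .nil)))) (.I .tdb (.c 48 (.c 3632040653488329 (.c 8 (.c 24 .nil)))) .nil)) (.node (.I .tdb (.c 16 (.c 21307395 (.c 8 (.c 24 .nil)))) (.b 48 .nil)) (.I .tdb (.c 16 (.c 12801 (.c 8 (.c 24 .nil)))) (.b 32 (.b 48 .nil))))) (.node (.node (.I .tdb (.c 0 (.c 40 (.c 8 (.c 24 .nil)))) (.b 16 (.b 32 (.b 48 .nil)))) (.I .tdb (.c 48 (.c 9024976834606985 (.c 8 (.c 24 .nil)))) .nil)) (.node (.I .tdb (.c 32 (.c 33587529 (.c 8 (.c 24 .nil)))) (.b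 48 .nil)) (.I .tdb (.c 48 (.c 9024942441010121 (.c 8 (.c 24 .nil)))) .nil)))) (.node (.node (.node (.I .tdb (.c 40 (.c 33587465 (.c 8 (.c 24 .nil)))) (.b 48 .nil)) (.I .tdb (.c 2049 (.c 32 (.c 8 (.c 24 .nil)))) (.b 40 (.b 48 .nil)))) (.node (.I .tdb (.c 0 (.c 16 (.c 8 (.c 24 .nil)))) (.b 32 (.b 40 (.b 48 .nil)))) (.I .tdb (.c 8652803 (.c 40 (.c 8 (.c 24 .nil)))) (.b 48 .nil)))) (.node (.node (.I .tdb (.c 48 (.c 3632084291164233 (.c 8 (.c 24 .nil)))) .nil) (.I .tdb (.c 12801 (.c 43655299 (.c 8 (.c 24 .nil)))) .nil)) (.node (.I .tdb (.c 0 (.c 40 (.c 8 (.c 24 .nil)))) (.b 43655299 .nil)) (.I .tdb (.c 8193 (.c 43954819 (.c 8 (.c 24 .nil)))) .nil)))))) (.node (.node (.node (.node (.node (.I .tdb (.c 0 (.c 32 (.c 8 (.c 24 .nil)))) (.b 43954819 .nil)) (.I .tdb (.c 2049 (.c 43954947 (.c 8 (.c 24 .nil)))) .nil)) (.node (.I .tdb (.c 0 (.c 16 (.c 8 (.c 24 .nil)))) (.b 43954947 .nil)) (.I .tdb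 (.c 8 (.c 59109074018392946569 (.c 16 (.c 24 .nil)))) .nil))) (.node (.node (.I .tdb (.c 8 (.c 13748198893136698249 (.c 16 (.c 24 .nil)))) .nil) (.I .tdb (.c 48 (.c 12801 (.c 16 (.c 24 .nil)))) (.b 32 (.b 8 .nil)))) (.node (.I .tdb (.c 0 (.c 40 (.c 16 (.c 24 .nil)))) (.b 48 (.b 32 (.b 8 .nil)))) (.I .tdb (.c 32 (.c 43954691 (.c 16 (.c 24 .nil)))) (.b 8 .nil))))) (.node (.node (.node (.I .tdb (.c 8 (.c 59109071234951844809 (.c 16 (.c 24 .nil)))) .nil) (.I .tdb (.c 40 (.c 2718204169 (.c 16 (.c 24 .nil)))) (.b 8 .nil))) (.node (.I .tdb (.c 32 (.c 18433 (.c 16 (.c 24 .nil)))) (.b 40 (.b 8 .nil))) (.I .tdb (.c 0 (.c 48 (.c 16 (.c 24 .nil)))) (.b 32 (.b 40 (.b 8 .nil)))))) (.node (.node (.I .tdb (.c 48 (.c 8193 (.c 16 (.c 24 .nil)))) (.b 40 (.b 8 .nil))) (.I .tdb (.c 0 (.c 32 (.c 16 (.c 24 .nil)))) (.b 48 (.b 40 (.b 8 .nil))))) (.node (.I .tdb (.c 8 (.c 15246191640314249 (.c 16 (.c 24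 .nil)))) .nil) (.I .tdb (.c 40 (.c 43655171 (.c 16 (.c 24 .nil)))) (.b 8 .nil)))))) (.node (.node (.node (.node (.I .tdb (.c 8 (.c 13748196208362034185 (.c 16 (.c 24 .nil)))) .nil) (.I .tdb (.c 48 (.c 1310925065 (.c 16 (.c 24 .nil)))) (.b 8 .nil))) (.node (.I .tdb (.c 48 (.c 537002313 (.c 16 (.c 24 .nil)))) (.b 8 .nil)) (.I .tdb (.c 40 (.c 8193 (.c 16 (.c 24 .nil)))) (.b 48 (.b 8 .nil))))) (.node (.node (.I .tdb (.c 0 (.c 32 (.c 16 (.c 24 .nil)))) (.b 40 (.b 48 (.b 8 .nil)))) (.I .tdb (.c 8 (.c 15456298926182473 (.c 16 (.c 24 .nil)))) .nil)) (.node (.I .tdb (.c 32 (.c 59109074018392946377 (.c 16 (.c 24 .nil)))) .nil) (.I .tdb (.c 40 (.c 18433 (.c 16 (.c 24 .nil)))) (.b 8 (.b 32 .nil)))))) (.node (.node (.node (.I .tdb (.c 0 (.c 48 (.c 16 (.c 24 .nil)))) (.b 40 (.b 8 (.b 32 .nil)))) (.I .tdb (.c 32 (.c 13748198893136698057 (.c 16 (.c 24 .nil)))) .nil)) (.node (.I .tdb (.c 8 (.c 1310925193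 (.c 16 (.c 24 .nil)))) (.b 32 .nil)) (.I .tdb (.c 8 (.c 43954691 (.c 16 (.c 24 .nil)))) (.b 32 .nil)))) (.node (.node (.I .tdb (.c 0 (.c 48 (.c 16 (.c 24 .nil)))) (.b 8 (.b 40 (.b 32 .nil)))) (.I .tdb (.c 40 (.c 2105737 (.c 16 (.c 24 .nil)))) (.b 32 .nil))) (.node (.I .tdb (.c 513 (.c 48 (.c 16 (.c 24 .nil)))) (.b 40 (.b 32 .nil))) (.I .tdb (.c 0 (.c 8 (.c 16 (.c 24 .nil)))) (.b 48 (.b 40 (.b 32 .nil))))))))))

noncomputable def c2_30 : Tr := (.node (.node (.node (.node (.node (.node (.I .tdb (.c 32 (.c 14629225721520521 (.c 16 (.c 24 .nil)))) .nil) (.I .tdb (.c 48 (.c 1310924873 (.c 16 (.c 24 .nil)))) (.b 32 .nil))) (.node (.I .tdb (.c 8 (.c 12801 (.c 16 (.c 24 .nil)))) (.b 48 (.b 32 .nil))) (.I .tdb (.c 0 (.c 40 (.c 16 (.c 24 .nil)))) (.b 8 (.b 48 (.b 32 .nil)))))) (.node (.node (.I .tdb (.c 513 (.c 40 (.c 16 (.c 24 .nil)))) (.b 48 (.b 32 .nil))) (.I .tdb (.c 0 (.c 8 (.c 16 (.c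 24 .nil)))) (.b 40 (.b 48 (.b 32 .nil))))) (.node (.I .tdb (.c 32 (.c 3423058053194185 (.c 16 (.c 24 .nil)))) .nil) (.I .tdb (.c 48 (.c 20685315 (.c 16 (.c 24 .nil)))) (.b 32 .nil))))) (.node (.node (.node (.I .tdb (.c 32 (.c 15456163896880201 (.c 16 (.c 24 .nil)))) .nil) (.I .tdb (.c 0 (.c 43954755 (.c 16 (.c 24 .nil)))) (.b 32 .nil))) (.node (.I .tdb (.c 40 (.c 59109071234951844553 (.c 16 (.c 24 .nil)))) .nil) (.I .tdb (.c 8 (.c 2718204169 (.c 16 (.c 24 .nil)))) (.b 40 .nil)))) (.node (.node (.I .tdb (.c 32 (.c 18433 (.c 16 (.c 24 .nil)))) (.b 8 (.b 40 .nil))) (.I .tdb (.c 0 (.c 48 (.c 16 (.c 24 .nil)))) (.b 32 (.b 8 (.b 40 .nil))))) (.node (.I .tdb (.c 48 (.c 8193 (.c 16 (.c 24 .nil)))) (.b 8 (.b 40 .nil))) (.I .tdb (.c 0 (.c 32 (.c 16 (.c 24 .nil)))) (.b 48 (.b 8 (.b 40 .nil)))))))) (.node (.node (.node (.node (.I .tdb (.c 8 (.c 43655171 (.c 16 (.c 24 .nil)))) (.b 40 .nil)) (.I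 .tdb (.c 32 (.c 2718203977 (.c 16 (.c 24 .nil)))) (.b 40 .nil))) (.node (.I .tdb (.c 0 (.c 48 (.c 16 (.c 24 .nil)))) (.b 8 (.b 32 (.b 40 .nil)))) (.I .tdb (.c 513 (.c 48 (.c 16 (.c 24 .nil)))) (.b 32 (.b 40 .nil))))) (.node (.node (.I .tdb (.c 0 (.c 8 (.c 16 (.c 24 .nil)))) (.b 48 (.b 32 (.b 40 .nil)))) (.I .tdb (.c 40 (.c 14629225721520457 (.c 16 (.c 24 .nil)))) .nil)) (.node (.I .tdb (.c 8 (.c 8193 (.c 16 (.c 24 .nil)))) (.b 48 (.b 40 .nil))) (.I .tdb (.c 0 (.c 32 (.c 16 (.c 24 .nil)))) (.b 8 (.b 48 (.b 40 .nil))))))) (.node (.node (.node (.I .tdb (.c 513 (.c 32 (.c 16 (.c 24 .nil)))) (.b 48 (.b 40 .nil))) (.I .tdb (.c 0 (.c 8 (.c 16 (.c 24 .nil)))) (.b 32 (.b 48 (.b 40 .nil))))) (.node (.I .tdb (.c 40 (.c 580749782704585 (.c 16 (.c 24 .nil)))) .nil) (.I .tdb (.c 21307459 (.c 18433 (.c 16 (.c 24 .nil)))) .nil))) (.node (.node (.I .tdb (.c 48 (.c 13748196208362033865 (.c 16 (.c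 24 .nil)))) .nil) (.I .tdb (.c 8 (.c 1310925065 (.c 16 (.c 24 .nil)))) (.b 48 .nil))) (.node (.I .tdb (.c 8 (.c 537002313 (.c 16 (.c 24 .nil)))) (.b 48 .nil)) (.I .tdb (.c 40 (.c 8193 (.c 16 (.c 24 .nil)))) (.b 8 (.b 48 .nil)))))))) (.node (.node (.node (.node (.node (.I .tdb (.c 0 (.c 32 (.c 16 (.c 24 .nil)))) (.b 40 (.b 8 (.b 48 .nil)))) (.I .tdb (.c 48 (.c 35470870263689 (.c 16 (.c 24 .nil)))) .nil)) (.node (.I .tdb (.c 32 (.c 2105673 (.c 16 (.c 24 .nil)))) (.b 48 .nil)) (.I .tdb (.c 513 (.c 40 (.c 16 (.c 24 .nil)))) (.b 32 (.b 48 .nil))))) (.node (.node (.I .tdb (.c 0 (.c 8 (.c 16 (.c 24 .nil)))) (.b 40 (.b 32 (.b 48 .nil)))) (.I .tdb (.c 48 (.c 3423058053194057 (.c 16 (.c 24 .nil)))) .nil)) (.node (.I .tdb (.c 8 (.c 8193 (.c 16 (.c 24 .nil)))) (.b 40 (.b 48 .nil))) (.I .tdb (.c 0 (.c 32 (.c 16 (.c 24 .nil)))) (.b 8 (.b 40 (.b 48 .nil))))))) (.node (.node (.node (.I .tdb (.c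 2105609 (.c 40 (.c 16 (.c 24 .nil)))) (.b 48 .nil)) (.I .tdb (.c 48 (.c 580749782704521 (.c 16 (.c 24 .nil)))) .nil)) (.node (.I .tdb (.c 12801 (.c 43655235 (.c 16 (.c 24 .nil)))) .nil) (.I .tdb (.c 0 (.c 40 (.c 16 (.c 24 .nil)))) (.b 43655235 .nil)))) (.node (.node (.I .tdb (.c 8 (.c 24 (.c 59109074018392946569 (.c 16 .nil)))) .nil) (.I .tdb (.c 8 (.c 24 (.c 13748198893136698249 (.c 16 .nil)))) .nil)) (.node (.I .tdb (.c 8 (.c 24 (.c 59109071234951844809 (.c 16 .nil)))) .nil) (.I .tdb (.c 8 (.c 24 (.c 2306972423229201353 (.c 16 .nil)))) .nil))))) (.node (.node (.node (.node (.I .tdb (.c 8 (.c 24 (.c 15246191640314249 (.c 16 .nil)))) .nil) (.I .tdb (.c 8 (.c 16 (.c 59109074018392946569 (.c 24 .nil)))) .nil)) (.node (.I .tdb (.c 8 (.c 16 (.c 13748198893136698249 (.c 24 .nil)))) .nil) (.I .tdb (.c 8 (.c 16 (.c 15246191640314249 (.c 24 .nil)))) .nil))) (.node (.node (.I .tdb (.c 8 (.c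 16 (.c 2306971873338800137 (.c 24 .nil)))) .nil) (.I .tdb (.c 16 (.c 24 (.c 59109074018392946569 (.c 8 .nil)))) .nil)) (.node (.I .tdb (.c 16 (.c 24 (.c 13748198893136698249 (.c 8 .nil)))) .nil) (.I .tdb (.c 16 (.c 24 (.c 15456118887244105 (.c 8 .nil)))) .nil)))) (.node (.node (.node (.I .tdb (.c 16 (.c 24 (.c 59109071234951844809 (.c 8 .nil)))) .nil) (.I .tdb (.c 16 (.c 24 (.c 15246191640314249 (.c 8 .nil)))) .nil)) (.node (.I .tdb (.c 16 (.c 59109074018392946505 (.c 8 (.c 32 .nil)))) .nil) (.I .tdb (.c 24 (.c 2718204233 (.c 8 (.c 32 .nil)))) (.b 16 .nil)))) (.node (.node (.I .tdb (.c 40 (.c 18433 (.c 8 (.c 32 .nil)))) (.b 24 (.b 16 .nil))) (.I .tdb (.c 0 (.c 48 (.c 8 (.c 32 .nil)))) (.b 40 (.b 24 (.b 16 .nil))))) (.node (.I .tdb (.c 16 (.c 13748198893136698185 (.c 8 (.c 32 .nil)))) .nil) (.I .tdb (.c 48 (.c 12801 (.c 8 (.c 32 .nil)))) (.b 24 (.b 16 .nil)))))))))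

noncomputable def c2_31 : Tr := (.node (.node (.node (.node (.node (.node (.I .tdb (.c 0 (.c 40 (.c 8 (.c 32 .nil)))) (.b 48 (.b 24 (.b 16 .nil)))) (.I .tdb (.c 16 (.c 59109068451510808521 (.c 8 (.c 32 .nil)))) .nil)) (.node (.I .tdb (.c 0 (.c 48 (.c 8 (.c 32 .nil)))) (.b 24 (.b 40 (.b 16 .nil)))) (.I .tdb (.c 4609 (.c 48 (.c 8 (.c 32 .nil)))) (.b 40 (.b 16 .nil))))) (.node (.node (.I .tdb (.c 0 (.c 24 (.c 32 (.c 8 .nil)))) (.b 48 (.b 40 (.b 16 .nil)))) (.I .tdb (.c 40 (.c 43356675 (.c 8 (.c 32 .nil)))) (.b 16 .nil))) (.node (.I .tdb (.c 48 (.c 1310925001 (.c 8 (.c 32 .nil)))) (.b 16 .nil)) (.I .tdb (.c 48 (.c 169943369 (.c 8 (.c 32 .nil)))) (.b 16 .nil))))) (.node (.node (.node (.I .tdb (.c 4609 (.c 40 (.c 8 (.c 32 .nil)))) (.b 48 (.b 16 .nil))) (.I .tdb (.c 0 (.c 24 (.c 32 (.c 8 .nil)))) (.b 40 (.b 48 (.b 16 .nil))))) (.node (.I .tdb (.c 16 (.c 15456253916349513 (.c 8 (.c 32 .nil))))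 .nil) (.I .tdb (.c 24 (.c 59109074018392946441 (.c 8 (.c 32 .nil)))) .nil))) (.node (.node (.I .tdb (.c 40 (.c 18433 (.c 8 (.c 32 .nil)))) (.b 16 (.b 24 .nil))) (.I .tdb (.c 24 (.c 15456118887243977 (.c 8 (.c 32 .nil)))) .nil)) (.node (.I .tdb (.c 40 (.c 2718204041 (.c 8 (.c 32 .nil)))) (.b 24 .nil)) (.I .tdb (.c 40 (.c 33587593 (.c 8 (.c 32 .nil)))) (.b 24 .nil)))))) (.node (.node (.node (.node (.I .tdb (.c 24 (.c 14832759703961993 (.c 8 (.c 32 .nil)))) .nil) (.I .tdb (.c 40 (.c 43059203 (.c 8 (.c 32 .nil)))) (.b 24 .nil))) (.node (.I .tdb (.c 24 (.c 13748193523587632137 (.c 8 (.c 32 .nil)))) .nil) (.I .tdb (.c 24 (.c 9024976834607113 (.c 8 (.c 32 .nil)))) .nil))) (.node (.node (.I .tdb (.c 2049 (.c 40 (.c 8 (.c 32 .nil)))) (.b 48 (.b 24 .nil))) (.I .tdb (.c 0 (.c 16 (.c 32 (.c 8 .nil)))) (.b 40 (.b 48 (.b 24 .nil))))) (.node (.I .tdb (.c 48 (.c 20891651 (.c 8 (.c 32 .nil)))) (.b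 24 .nil)) (.I .tdb (.c 24 (.c 15456208906582089 (.c 8 (.c 32 .nil)))) .nil)))) (.node (.node (.node (.I .tdb (.c 0 (.c 43954819 (.c 8 (.c 32 .nil)))) (.b 24 .nil)) (.I .tdb (.c 40 (.c 59109068451510808329 (.c 8 (.c 32 .nil)))) .nil)) (.node (.I .tdb (.c 24 (.c 18433 (.c 8 (.c 32 .nil)))) (.b 16 (.b 40 .nil))) (.I .tdb (.c 40 (.c 231046163358604041 (.c 8 (.c 32 .nil)))) .nil))) (.node (.node (.I .tdb (.c 16 (.c 169943433 (.c 8 (.c 32 .nil)))) (.b 40 .nil)) (.I .tdb (.c 4609 (.c 48 (.c 8 (.c 32 .nil)))) (.b 16 (.b 40 .nil)))) (.node (.I .tdb (.c 0 (.c 24 (.c 32 (.c 8 .nil)))) (.b 48 (.b 16 (.b 40 .nil)))) (.I .tdb (.c 40 (.c 15038410136445129 (.c 8 (.c 32 .nil)))) .nil)))))) (.node (.node (.node (.node (.node (.I .tdb (.c 16 (.c 43356675 (.c 8 (.c 32 .nil)))) (.b 40 .nil)) (.I .tdb (.c 24 (.c 33587593 (.c 8 (.c 32 .nil)))) (.b 40 .nil))) (.node (.I .tdb (.c 40 (.c 14832759703961865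 (.c 8 (.c 32 .nil)))) .nil) (.I .tdb (.c 48 (.c 169943177 (.c 8 (.c 32 .nil)))) (.b 40 .nil)))) (.node (.node (.I .tdb (.c 16 (.c 4609 (.c 8 (.c 32 .nil)))) (.b 48 (.b 40 .nil))) (.I .tdb (.c 0 (.c 24 (.c 32 (.c 8 .nil)))) (.b 16 (.b 48 (.b 40 .nil))))) (.node (.I .tdb (.c 40 (.c 9024908047478793 (.c 8 (.c 32 .nil)))) .nil) (.I .tdb (.c 48 (.c 33587401 (.c 8 (.c 32 .nil)))) (.b 40 .nil))))) (.node (.node (.node (.I .tdb (.c 24 (.c 2049 (.c 8 (.c 32 .nil)))) (.b 48 (.b 40 .nil))) (.I .tdb (.c 0 (.c 16 (.c 32 (.c 8 .nil)))) (.b 24 (.b 48 (.b 40 .nil))))) (.node (.I .tdb (.c 40 (.c 15038498931046473 (.c 8 (.c 32 .nil)))) .nil) (.I .tdb (.c 0 (.c 43356803 (.c 8 (.c 32 .nil)))) (.b 40 .nil)))) (.node (.node (.I .tdb (.c 0 (.c 48 (.c 8 (.c 32 .nil)))) (.b 21099139 .nil)) (.I .tdb (.c 24 (.c 12801 (.c 8 (.c 32 .nil)))) (.b 16 (.b 48 .nil)))) (.node (.I .tdb (.c 0 (.c 40 (.c 8 (.c 32 .nil))))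 (.b 24 (.b 16 (.b 48 .nil)))) (.I .tdb (.c 48 (.c 3561346121425097 (.c 8 (.c 32 .nil)))) .nil))))) (.node (.node (.node (.node (.I .tdb (.c 48 (.c 9024976834606921 (.c 8 (.c 32 .nil)))) .nil) (.I .tdb (.c 24 (.c 33587529 (.c 8 (.c 32 .nil)))) (.b 48 .nil))) (.node (.I .tdb (.c 48 (.c 3491688652046601 (.c 8 (.c 32 .nil)))) .nil) (.I .tdb (.c 48 (.c 231045467270826953 (.c 8 (.c 32 .nil)))) .nil))) (.node (.node (.I .tdb (.c 48 (.c 9024908047478729 (.c 8 (.c 32 .nil)))) .nil) (.I .tdb (.c 40 (.c 33587401 (.c 8 (.c 32 .nil)))) (.b 48 .nil))) (.node (.I .tdb (.c 48 (.c 62886542410121 (.c 8 (.c 32 .nil)))) .nil) (.I .tdb (.c 40 (.c 2803715 (.c 8 (.c 32 .nil)))) (.b 48 .nil))))) (.node (.node (.node (.I .tdb (.c 12801 (.c 43356803 (.c 8 (.c 32 .nil)))) .nil) (.I .tdb (.c 8 (.c 13748198893136698185 (.c 16 (.c 32 .nil)))) .nil)) (.node (.I .tdb (.c 24 (.c 1310925193 (.c 16 (.c 32 .nil))))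 (.b 8 .nil)) (.I .tdb (.c 48 (.c 12801 (.c 16 (.c 32 .nil)))) (.b 24 (.b 8 .nil))))) (.node (.node (.I .tdb (.c 0 (.c 40 (.c 16 (.c 32 .nil)))) (.b 48 (.b 24 (.b 8 .nil)))) (.I .tdb (.c 8 (.c 15456118887244041 (.c 16 (.c 32 .nil)))) .nil)) (.node (.I .tdb (.c 24 (.c 43954691 (.c 16 (.c 32 .nil)))) (.b 8 .nil)) (.I .tdb (.c 0 (.c 48 (.c 16 (.c 32 .nil)))) (.b 24 (.b 40 (.b 8 .nil))))))))))

noncomputable def c2_32 : Tr := (.node (.node (.node (.node (.node (.node (.I .tdb (.c 8 (.c 231046163358604233 (.c 16 (.c 32 .nil)))) .nil) (.I .tdb (.c 40 (.c 43356675 (.c 16 (.c 32 .nil)))) (.b 8 .nil))) (.node (.I .tdb (.c 48 (.c 1310925001 (.c 16 (.c 32 .nil)))) (.b 8 .nil)) (.I .tdb (.c 8 (.c 231045989336561673 (.c 16 (.c 32 .nil)))) .nil))) (.node (.node (.I .tdb (.c 8 (.c 15456253916349513 (.c 16 (.c 32 .nil)))) .nil) (.I .tdb (.c 0 (.c 43954883 (.c 16 (.c 32 .nil)))) (.b 8 .nil))) (.node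 (.I .tdb (.c 8 (.c 2718204233 (.c 16 (.c 32 .nil)))) (.b 24 .nil)) (.I .tdb (.c 40 (.c 18433 (.c 16 (.c 32 .nil)))) (.b 8 (.b 24 .nil)))))) (.node (.node (.node (.I .tdb (.c 0 (.c 48 (.c 16 (.c 32 .nil)))) (.b 40 (.b 8 (.b 24 .nil)))) (.I .tdb (.c 8 (.c 1310925193 (.c 16 (.c 32 .nil)))) (.b 24 .nil))) (.node (.I .tdb (.c 48 (.c 12801 (.c 16 (.c 32 .nil)))) (.b 8 (.b 24 .nil))) (.I .tdb (.c 0 (.c 40 (.c 16 (.c 32 .nil)))) (.b 48 (.b 8 (.b 24 .nil)))))) (.node (.node (.I .tdb (.c 24 (.c 15456118887243913 (.c 16 (.c 32 .nil)))) .nil) (.I .tdb (.c 40 (.c 2718203977 (.c 16 (.c 32 .nil)))) (.b 24 .nil))) (.node (.I .tdb (.c 8 (.c 18433 (.c 16 (.c 32 .nil)))) (.b 40 (.b 24 .nil))) (.I .tdb (.c 24 (.c 14629225721520521 (.c 16 (.c 32 .nil)))) .nil))))) (.node (.node (.node (.node (.I .tdb (.c 40 (.c 42762755 (.c 16 (.c 32 .nil)))) (.b 24 .nil)) (.I .tdb (.c 24 (.c 13748192181200529417 (.c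 16 (.c 32 .nil)))) .nil)) (.node (.I .tdb (.c 24 (.c 35470870263817 (.c 16 (.c 32 .nil)))) .nil) (.I .tdb (.c 513 (.c 40 (.c 16 (.c 32 .nil)))) (.b 48 (.b 24 .nil))))) (.node (.node (.I .tdb (.c 0 (.c 8 (.c 16 (.c 32 .nil)))) (.b 40 (.b 48 (.b 24 .nil)))) (.I .tdb (.c 24 (.c 3423058053194185 (.c 16 (.c 32 .nil)))) .nil)) (.node (.I .tdb (.c 48 (.c 20685315 (.c 16 (.c 32 .nil)))) (.b 24 .nil)) (.I .tdb (.c 24 (.c 15456163896880201 (.c 16 (.c 32 .nil)))) .nil)))) (.node (.node (.node (.I .tdb (.c 0 (.c 48 (.c 16 (.c 32 .nil)))) (.b 24 (.b 8 (.b 40 .nil)))) (.I .tdb (.c 40 (.c 231046163358603977 (.c 16 (.c 32 .nil)))) .nil)) (.node (.I .tdb (.c 8 (.c 169943433 (.c 16 (.c 32 .nil)))) (.b 40 .nil)) (.I .tdb (.c 8 (.c 18433 (.c 16 (.c 32 .nil)))) (.b 24 (.b 40 .nil))))) (.node (.node (.I .tdb (.c 24 (.c 2105737 (.c 16 (.c 32 .nil)))) (.b 40 .nil)) (.I .tdb (.c 513 (.c 48 (.c 16 (.c 32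 .nil)))) (.b 24 (.b 40 .nil)))) (.node (.I .tdb (.c 0 (.c 8 (.c 16 (.c 32 .nil)))) (.b 48 (.b 24 (.b 40 .nil)))) (.I .tdb (.c 40 (.c 14629225721520393 (.c 16 (.c 32 .nil)))) .nil)))))) (.node (.node (.node (.node (.node (.I .tdb (.c 48 (.c 169943113 (.c 16 (.c 32 .nil)))) (.b 40 .nil)) (.I .tdb (.c 8 (.c 4609 (.c 16 (.c 32 .nil)))) (.b 48 (.b 40 .nil)))) (.node (.I .tdb (.c 0 (.c 24 (.c 32 (.c 16 .nil)))) (.b 8 (.b 48 (.b 40 .nil)))) (.I .tdb (.c 2105545 (.c 48 (.c 16 (.c 32 .nil)))) (.b 40 .nil)))) (.node (.node (.I .tdb (.c 2728451 (.c 48 (.c 16 (.c 32 .nil)))) (.b 40 .nil)) (.I .tdb (.c 0 (.c 43356739 (.c 16 (.c 32 .nil)))) (.b 40 .nil))) (.node (.I .tdb (.c 0 (.c 48 (.c 16 (.c 32 .nil)))) (.b 21099075 .nil)) (.I .tdb (.c 48 (.c 231045989336561353 (.c 16 (.c 32 .nil)))) .nil)))) (.node (.node (.node (.I .tdb (.c 8 (.c 169943369 (.c 16 (.c 32 .nil)))) (.b 48 .nil)) (.I .tdb (.c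 4609 (.c 40 (.c 16 (.c 32 .nil)))) (.b 8 (.b 48 .nil)))) (.node (.I .tdb (.c 0 (.c 24 (.c 32 (.c 16 .nil)))) (.b 40 (.b 8 (.b 48 .nil)))) (.I .tdb (.c 8 (.c 21099011 (.c 16 (.c 32 .nil)))) (.b 48 .nil)))) (.node (.node (.I .tdb (.c 8 (.c 12801 (.c 16 (.c 32 .nil)))) (.b 24 (.b 48 .nil))) (.I .tdb (.c 0 (.c 40 (.c 16 (.c 32 .nil)))) (.b 8 (.b 24 (.b 48 .nil))))) (.node (.I .tdb (.c 48 (.c 35470870263625 (.c 16 (.c 32 .nil)))) .nil) (.I .tdb (.c 24 (.c 2105673 (.c 16 (.c 32 .nil)))) (.b 48 .nil)))))) (.node (.node (.node (.node (.I .tdb (.c 513 (.c 40 (.c 16 (.c 32 .nil)))) (.b 24 (.b 48 .nil))) (.I .tdb (.c 0 (.c 8 (.c 16 (.c 32 .nil)))) (.b 40 (.b 24 (.b 48 .nil))))) (.node (.I .tdb (.c 24 (.c 20685315 (.c 16 (.c 32 .nil)))) (.b 48 .nil)) (.I .tdb (.c 12801 (.c 43356739 (.c 16 (.c 32 .nil)))) .nil))) (.node (.node (.I .tdb (.c 4609 (.c 43954755 (.c 16 (.c 32 .nil)))) .nil) (.I .tdb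 (.c 0 (.c 24 (.c 32 (.c 16 .nil)))) (.b 43954755 .nil))) (.node (.I .tdb (.c 513 (.c 43954883 (.c 16 (.c 32 .nil)))) .nil) (.I .tdb (.c 0 (.c 8 (.c 16 (.c 32 .nil)))) (.b 43954883 .nil))))) (.node (.node (.node (.I .tdb (.c 8 (.c 32 (.c 13748198893136698185 (.c 16 .nil)))) .nil) (.I .tdb (.c 8 (.c 32 (.c 59109068451510808521 (.c 16 .nil)))) .nil)) (.node (.I .tdb (.c 8 (.c 32 (.c 231046163358604233 (.c 16 .nil)))) .nil) (.I .tdb (.c 8 (.c 32 (.c 3561346121425353 (.c 16 .nil)))) .nil))) (.node (.node (.I .tdb (.c 8 (.c 32 (.c 15456253916349513 (.c 16 .nil)))) .nil) (.I .tdb (.c 8 (.c 16 (.c 32 (.c 59109074018392946505 .nil)))) .nil)) (.node (.I .tdb (.c 8 (.c 16 (.c 32 (.c 15456118887244041 .nil)))) .nil) (.I .tdb (.c 8 (.c 16 (.c 32 (.c 231046163358604233 .nil)))) .nil)))))))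

noncomputable def c2_33 : Tr := (.node (.node (.node (.node (.node (.node (.I .tdb (.c 8 (.c 16 (.c 32 (.c 13748194865974800393 .nil)))) .nil) (.I .tdb (.c 8 (.c 16 (.c 32 (.c 231045989336561673 .nil)))) .nil)) (.node (.I .tdb (.c 8 (.c 16 (.c 32 (.c 3561346121425353 .nil)))) .nil) (.I .tdb (.c 8 (.c 16 (.c 32 (.c 15456253916349513 .nil)))) .nil))) (.node (.node (.I .tdb (.c 16 (.c 32 (.c 59109074018392946505 (.c 8 .nil)))) .nil) (.I .tdb (.c 16 (.c 32 (.c 13748198893136698185 (.c 8 .nil)))) .nil)) (.node (.I .tdb (.c 16 (.c 32 (.c 15456118887244041 (.c 8 .nil)))) .nil) (.I .tdb (.c 16 (.c 32 (.c 231046163358604233 (.c 8 .nil)))) .nil)))) (.node (.node (.node (.I .tdb (.c 8 (.c 59109074018392946441 (.c 24 (.c 32 .nil)))) .nil) (.I .tdb (.c 16 (.c 2718204233 (.c 24 (.c 32 .nil)))) (.b 8 .nil))) (.node (.I .tdb (.c 16 (.c 1310925193 (.c 24 (.c 32 .nil)))) (.b 8 .nil)) (.I .tdb (.c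 48 (.c 12801 (.c 24 (.c 32 .nil)))) (.b 16 (.b 8 .nil))))) (.node (.node (.I .tdb (.c 0 (.c 40 (.c 24 (.c 32 .nil)))) (.b 48 (.b 16 (.b 8 .nil)))) (.I .tdb (.c 16 (.c 43954691 (.c 24 (.c 32 .nil)))) (.b 8 .nil))) (.node (.I .tdb (.c 8 (.c 59109065668069837769 (.c 24 (.c 32 .nil)))) .nil) (.I .tdb (.c 0 (.c 48 (.c 24 (.c 32 .nil)))) (.b 16 (.b 40 (.b 8 .nil)))))))) (.node (.node (.node (.node (.I .tdb (.c 8 (.c 9025011228269513 (.c 24 (.c 32 .nil)))) .nil) (.I .tdb (.c 40 (.c 33587593 (.c 24 (.c 32 .nil)))) (.b 8 .nil))) (.node (.I .tdb (.c 8 (.c 13748193523587632137 (.c 24 (.c 32 .nil)))) .nil) (.I .tdb (.c 48 (.c 1310924937 (.c 24 (.c 32 .nil)))) (.b 8 .nil)))) (.node (.node (.I .tdb (.c 8 (.c 9024976834607113 (.c 24 (.c 32 .nil)))) .nil) (.I .tdb (.c 2049 (.c 40 (.c 24 (.c 32 .nil)))) (.b 48 (.b 8 .nil)))) (.node (.I .tdb (.c 0 (.c 16 (.c 32 (.c 24 .nil)))) (.b 40 (.b 48 (.b 8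 .nil)))) (.I .tdb (.c 8 (.c 15456208906582089 (.c 24 (.c 32 .nil)))) .nil)))) (.node (.node (.node (.I .tdb (.c 0 (.c 43954819 (.c 24 (.c 32 .nil)))) (.b 8 .nil)) (.I .tdb (.c 16 (.c 59109074018392946377 (.c 24 (.c 32 .nil)))) .nil)) (.node (.I .tdb (.c 8 (.c 2718204233 (.c 24 (.c 32 .nil)))) (.b 16 .nil)) (.I .tdb (.c 0 (.c 48 (.c 24 (.c 32 .nil)))) (.b 40 (.b 8 (.b 16 .nil)))))) (.node (.node (.I .tdb (.c 16 (.c 13748198893136698057 (.c 24 (.c 32 .nil)))) .nil) (.I .tdb (.c 8 (.c 1310925193 (.c 24 (.c 32 .nil)))) (.b 16 .nil))) (.node (.I .tdb (.c 16 (.c 15456118887243913 (.c 24 (.c 32 .nil)))) .nil) (.I .tdb (.c 16 (.c 59109062884628932553 (.c 24 (.c 32 .nil)))) .nil)))))) (.node (.node (.node (.node (.node (.I .tdb (.c 40 (.c 2105737 (.c 24 (.c 32 .nil)))) (.b 16 .nil)) (.I .tdb (.c 513 (.c 48 (.c 24 (.c 32 .nil)))) (.b 40 (.b 16 .nil)))) (.node (.I .tdb (.c 0 (.c 8 (.c 24 (.c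 32 .nil)))) (.b 48 (.b 40 (.b 16 .nil)))) (.I .tdb (.c 40 (.c 42762755 (.c 24 (.c 32 .nil)))) (.b 16 .nil)))) (.node (.node (.I .tdb (.c 16 (.c 13748192181200529417 (.c 24 (.c 32 .nil)))) .nil) (.I .tdb (.c 48 (.c 1310924873 (.c 24 (.c 32 .nil)))) (.b 16 .nil))) (.node (.I .tdb (.c 8 (.c 12801 (.c 24 (.c 32 .nil)))) (.b 48 (.b 16 .nil))) (.I .tdb (.c 0 (.c 40 (.c 24 (.c 32 .nil)))) (.b 8 (.b 48 (.b 16 .nil))))))) (.node (.node (.node (.I .tdb (.c 16 (.c 35470870263817 (.c 24 (.c 32 .nil)))) .nil) (.I .tdb (.c 513 (.c 40 (.c 24 (.c 32 .nil)))) (.b 48 (.b 16 .nil)))) (.node (.I .tdb (.c 0 (.c 8 (.c 24 (.c 32 .nil)))) (.b 40 (.b 48 (.b 16 .nil)))) (.I .tdb (.c 16 (.c 3423058053194185 (.c 24 (.c 32 .nil)))) .nil))) (.node (.node (.I .tdb (.c 48 (.c 20685315 (.c 24 (.c 32 .nil)))) (.b 16 .nil)) (.I .tdb (.c 16 (.c 15456163896880201 (.c 24 (.c 32 .nil)))) .nil)) (.node (.I .tdb (.c 0 (.c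 43954755 (.c 24 (.c 32 .nil)))) (.b 16 .nil)) (.I .tdb (.c 40 (.c 59109065668069837513 (.c 24 (.c 32 .nil)))) .nil))))) (.node (.node (.node (.node (.I .tdb (.c 8 (.c 2718204041 (.c 24 (.c 32 .nil)))) (.b 40 .nil)) (.I .tdb (.c 16 (.c 18433 (.c 24 (.c 32 .nil)))) (.b 8 (.b 40 .nil)))) (.node (.I .tdb (.c 40 (.c 9025011228269257 (.c 24 (.c 32 .nil)))) .nil) (.I .tdb (.c 8 (.c 33587593 (.c 24 (.c 32 .nil)))) (.b 40 .nil)))) (.node (.node (.I .tdb (.c 40 (.c 14832759703961737 (.c 24 (.c 32 .nil)))) .nil) (.I .tdb (.c 16 (.c 2718203977 (.c 24 (.c 32 .nil)))) (.b 40 .nil))) (.node (.I .tdb (.c 0 (.c 48 (.c 24 (.c 32 .nil)))) (.b 8 (.b 16 (.b 40 .nil)))) (.I .tdb (.c 513 (.c 48 (.c 24 (.c 32 .nil)))) (.b 16 (.b 40 .nil)))))) (.node (.node (.node (.I .tdb (.c 0 (.c 8 (.c 24 (.c 32 .nil)))) (.b 48 (.b 16 (.b 40 .nil)))) (.I .tdb (.c 16 (.c 42762755 (.c 24 (.c 32 .nil)))) (.b 40 .nil))) (.node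 (.I .tdb (.c 513 (.c 16 (.c 24 (.c 32 .nil)))) (.b 48 (.b 40 .nil))) (.I .tdb (.c 0 (.c 8 (.c 24 (.c 32 .nil)))) (.b 16 (.b 48 (.b 40 .nil)))))) (.node (.node (.I .tdb (.c 40 (.c 14832803796618313 (.c 24 (.c 32 .nil)))) .nil) (.I .tdb (.c 0 (.c 43059267 (.c 24 (.c 32 .nil)))) (.b 40 .nil))) (.node (.I .tdb (.c 20891715 (.c 18433 (.c 24 (.c 32 .nil)))) .nil) (.I .tdb (.c 48 (.c 13748193523587631817 (.c 24 (.c 32 .nil)))) .nil)))))))

noncomputable def c2_34 : Tr := (.node (.node (.node (.node (.node (.node (.I .tdb (.c 8 (.c 1310924937 (.c 24 (.c 32 .nil)))) (.b 48 .nil)) (.I .tdb (.c 16 (.c 12801 (.c 24 (.c 32 .nil)))) (.b 8 (.b 48 .nil)))) (.node (.I .tdb (.c 0 (.c 40 (.c 24 (.c 32 .nil)))) (.b 16 (.b 8 (.b 48 .nil)))) (.I .tdb (.c 2049 (.c 40 (.c 24 (.c 32 .nil)))) (.b 8 (.b 48 .nil))))) (.node (.node (.I .tdb (.c 0 (.c 16 (.c 32 (.c 24 .nil)))) (.b 40 (.b 8 (.b 48 .nil)))) (.I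 .tdb (.c 48 (.c 35470870263561 (.c 24 (.c 32 .nil)))) .nil)) (.node (.I .tdb (.c 16 (.c 2105673 (.c 24 (.c 32 .nil)))) (.b 48 .nil)) (.I .tdb (.c 40 (.c 33587273 (.c 24 (.c 32 .nil)))) (.b 48 .nil))))) (.node (.node (.node (.I .tdb (.c 48 (.c 2487083360649 (.c 24 (.c 32 .nil)))) .nil) (.I .tdb (.c 0 (.c 20891715 (.c 24 (.c 32 .nil)))) (.b 48 .nil))) (.node (.I .tdb (.c 2049 (.c 43954755 (.c 24 (.c 32 .nil)))) .nil) (.I .tdb (.c 513 (.c 43954819 (.c 24 (.c 32 .nil)))) .nil))) (.node (.node (.I .tdb (.c 8 (.c 32 (.c 59109074018392946441 (.c 24 .nil)))) .nil) (.I .tdb (.c 8 (.c 32 (.c 13748198893136698121 (.c 24 .nil)))) .nil)) (.node (.I .tdb (.c 8 (.c 32 (.c 15456118887243977 (.c 24 .nil)))) .nil) (.I .tdb (.c 8 (.c 32 (.c 13748193523587632137 (.c 24 .nil)))) .nil))))) (.node (.node (.node (.node (.I .tdb (.c 8 (.c 32 (.c 9024976834607113 (.c 24 .nil)))) .nil) (.I .tdb (.c 8 (.c 24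 (.c 32 (.c 13748198893136698121 .nil)))) .nil)) (.node (.I .tdb (.c 8 (.c 24 (.c 32 (.c 59109065668069837769 .nil)))) .nil) (.I .tdb (.c 8 (.c 24 (.c 32 (.c 13748193523587632137 .nil)))) .nil))) (.node (.node (.I .tdb (.c 24 (.c 32 (.c 59109074018392946441 (.c 8 .nil)))) .nil) (.I .tdb (.c 24 (.c 32 (.c 13748198893136698121 (.c 8 .nil)))) .nil)) (.node (.I .tdb (.c 24 (.c 32 (.c 15456118887243977 (.c 8 .nil)))) .nil) (.I .tdb (.c 24 (.c 32 (.c 9025011228269513 (.c 8 .nil)))) .nil)))) (.node (.node (.node (.I .tdb (.c 24 (.c 32 (.c 9024976834607113 (.c 8 .nil)))) .nil) (.I .tdb (.c 24 (.c 32 (.c 15456208906582089 (.c 8 .nil)))) .nil)) (.node (.I .tdb (.c 16 (.c 32 (.c 13748198893136698057 (.c 24 .nil)))) .nil) (.I .tdb (.c 16 (.c 32 (.c 15456118887243913 (.c 24 .nil)))) .nil))) (.node (.node (.I .tdb (.c 16 (.c 32 (.c 59109062884628932553 (.c 24 .nil)))) .nil) (.I .tdb (.c 16 (.c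 32 (.c 13748192181200529417 (.c 24 .nil)))) .nil)) (.node (.I .tdb (.c 16 (.c 32 (.c 35470870263817 (.c 24 .nil)))) .nil) (.I .tdb (.c 16 (.c 32 (.c 3423058053194185 (.c 24 .nil)))) .nil)))))) (.node (.node (.node (.node (.node (.I .tdb (.c 16 (.c 24 (.c 32 (.c 13748198893136698057 .nil)))) .nil) (.I .tdb (.c 16 (.c 24 (.c 32 (.c 59109062884628932553 .nil)))) .nil)) (.node (.I .tdb (.c 16 (.c 24 (.c 32 (.c 35473026505673 .nil)))) .nil) (.I .tdb (.c 16 (.c 24 (.c 32 (.c 14629225721520521 .nil)))) .nil))) (.node (.node (.I .tdb (.c 16 (.c 24 (.c 32 (.c 13748192181200529417 .nil)))) .nil) (.I .tdb (.c 16 (.c 24 (.c 32 (.c 15456163896880201 .nil)))) .nil)) (.node (.I .tdb (.c 24 (.c 32 (.c 59109074018392946377 (.c 16 .nil)))) .nil) (.I .tdb (.c 24 (.c 32 (.c 59109062884628932553 (.c 16 .nil)))) .nil)))) (.node (.node (.node (.I .tdb (.c 24 (.c 32 (.c 14629225721520521 (.c 16 .nil))))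 .nil) (.I .tdb (.c 24 (.c 32 (.c 35470870263817 (.c 16 .nil)))) .nil)) (.node (.I .tdb (.c 24 (.c 32 (.c 3423058053194185 (.c 16 .nil)))) .nil) (.I .tdb (.c 40 (.c 18433 (.c 16 (.c 24 .nil)))) (.b 8257 .nil)))) (.node (.node (.I .tdb (.c 8 (.c 24 (.c 2718204233 (.c 16 .nil)))) (.b 32 .nil)) (.I .tdb (.c 40 (.c 18433 (.c 16 (.c 32 .nil)))) (.b 4673 .nil))) (.node (.I .tdb (.c 0 (.c 48 (.c 16 (.c 32 .nil)))) (.b 40 (.b 4673 .nil))) (.I .tdb (.c 0 (.c 48 (.c 16 (.c 8786499 .nil)))) (.b 40 .nil)))))) (.node (.node (.node (.node (.I .tdb (.c 24 (.c 8257 (.c 1310925193 (.c 16 .nil)))) .nil) (.I .tdb (.c 48 (.c 12801 (.c 16 (.c 24 .nil)))) (.b 8257 .nil))) (.node (.I .tdb (.c 0 (.c 40 (.c 16 (.c 24 .nil)))) (.b 48 (.b 8257 .nil))) (.I .tdb (.c 4673 (.c 32 (.c 1310925193 (.c 16 .nil)))) .nil))) (.node (.node (.I .tdb (.c 48 (.c 12801 (.c 16 (.c 32 .nil)))) (.b 4673 .nil)) (.I .tdb (.c 8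 (.c 32 (.c 43954691 (.c 16 .nil)))) (.b 24 .nil))) (.node (.I .tdb (.c 16 (.c 8257 (.c 2718204233 (.c 24 .nil)))) .nil) (.I .tdb (.c 8 (.c 32 (.c 2718204233 (.c 24 .nil)))) (.b 16 .nil))))) (.node (.node (.node (.I .tdb (.c 2113 (.c 32 (.c 2718204233 (.c 24 .nil)))) .nil) (.I .tdb (.c 8 (.c 16 (.c 2718204233 (.c 24 .nil)))) (.b 32 .nil))) (.node (.I .tdb (.c 40 (.c 18433 (.c 24 (.c 32 .nil)))) (.b 2113 .nil)) (.I .tdb (.c 16 (.c 8257 (.c 1310925193 (.c 24 .nil)))) .nil))) (.node (.node (.I .tdb (.c 2113 (.c 32 (.c 1310925193 (.c 24 .nil)))) .nil) (.I .tdb (.c 0 (.c 40 (.c 24 (.c 32 .nil)))) (.b 48 (.b 2113 .nil)))) (.node (.I .tdb (.c 48 (.c 12801 (.c 24 (.c 8652867 .nil)))) .nil) (.I .tdb (.c 8 (.c 32 (.c 43954691 (.c 24 .nil)))) (.b 16 .nil))))))))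

noncomputable def c2_35 : Tr := (.node (.node (.node (.node (.node (.node (.I .tdb (.c 2113 (.c 32 (.c 43954691 (.c 24 .nil)))) .nil) (.I .tdb (.c 8 (.c 16 (.c 43954691 (.c 24 .nil)))) (.b 32 .nil))) (.node (.I .tdb (.c 16 (.c 24 (.c 8257 (.c 2718204233 .nil)))) .nil) (.I .tdb (.c 16 (.c 24 (.c 8257 (.c 43954691 .nil)))) .nil))) (.node (.node (.I .tdb (.c 8 (.c 24 (.c 32 (.c 2718204233 .nil)))) (.b 16 .nil)) (.I .tdb (.c 24 (.c 2113 (.c 2718204233 (.c 32 .nil)))) .nil)) (.node (.I .tdb (.c 8 (.c 16 (.c 32 (.c 2718204233 .nil)))) (.b 24 .nil)) (.I .tdb (.c 8 (.c 24 (.c 32 (.c 1310925193 .nil)))) (.b 16 .nil))))) (.node (.node (.node (.I .tdb (.c 24 (.c 2113 (.c 1310925193 (.c 32 .nil)))) .nil) (.I .tdb (.c 0 (.c 40 (.c 32 (.c 2803779 .nil)))) (.b 48 .nil))) (.node (.I .tdb (.c 24 (.c 2113 (.c 43954691 (.c 32 .nil)))) .nil) (.I .tdb (.c 8 (.c 16 (.c 32 (.c 43954691 .nil)))) (.b 24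 .nil)))) (.node (.node (.I .tdb (.c 16 (.c 32 (.c 2718204233 (.c 8 .nil)))) (.b 24 .nil)) (.I .tdb (.c 16 (.c 32 (.c 2718204233 (.c 24 .nil)))) (.b 8 .nil))) (.node (.I .tdb (.c 16 (.c 32 (.c 1310925193 (.c 8 .nil)))) (.b 24 .nil)) (.I .tdb (.c 16 (.c 32 (.c 1310925193 (.c 24 .nil)))) (.b 8 .nil)))))) (.node (.node (.node (.node (.I .tdb (.c 8 (.c 16 (.c 8385 (.c 1310925193 .nil)))) .nil) (.I .tdb (.c 40 (.c 18433 (.c 8 (.c 24 .nil)))) (.b 8321 .nil))) (.node (.I .tdb (.c 4737 (.c 32 (.c 2718204233 (.c 8 .nil)))) .nil) (.I .tdb (.c 40 (.c 18433 (.c 8 (.c 32 .nil)))) (.b 4737 .nil)))) (.node (.node (.I .tdb (.c 0 (.c 48 (.c 8 (.c 32 .nil)))) (.b 40 (.b 4737 .nil))) (.I .tdb (.c 48 (.c 12801 (.c 8 (.c 24 .nil)))) (.b 8321 .nil))) (.node (.I .tdb (.c 0 (.c 40 (.c 8 (.c 24 .nil)))) (.b 48 (.b 8321 .nil))) (.I .tdb (.c 4737 (.c 32 (.c 1310925193 (.c 8 .nil)))) .nil)))) (.node (.node (.node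 (.I .tdb (.c 48 (.c 12801 (.c 8 (.c 32 .nil)))) (.b 4737 .nil)) (.I .tdb (.c 16 (.c 59109071234951844681 (.c 8 (.c 40 .nil)))) .nil)) (.node (.I .tdb (.c 24 (.c 2718204169 (.c 8 (.c 40 .nil)))) (.b 16 .nil)) (.I .tdb (.c 32 (.c 18433 (.c 8 (.c 40 .nil)))) (.b 24 (.b 16 .nil))))) (.node (.node (.I .tdb (.c 0 (.c 48 (.c 8 (.c 40 .nil)))) (.b 32 (.b 24 (.b 16 .nil)))) (.I .tdb (.c 24 (.c 537002377 (.c 8 (.c 40 .nil)))) (.b 16 .nil))) (.node (.I .tdb (.c 16 (.c 15246191640314121 (.c 8 (.c 40 .nil)))) .nil) (.I .tdb (.c 24 (.c 43655171 (.c 8 (.c 40 .nil)))) (.b 16 .nil))))))) (.node (.node (.node (.node (.node (.I .tdb (.c 16 (.c 59109068451510808457 (.c 8 (.c 40 .nil)))) .nil) (.I .tdb (.c 32 (.c 2718204105 (.c 8 (.c 40 .nil)))) (.b 16 .nil))) (.node (.I .tdb (.c 32 (.c 169943433 (.c 8 (.c 40 .nil)))) (.b 16 .nil)) (.I .tdb (.c 32 (.c 43356675 (.c 8 (.c 40 .nil)))) (.b 16 .nil)))) (.node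 (.node (.I .tdb (.c 16 (.c 2306970773558194185 (.c 8 (.c 40 .nil)))) .nil) (.I .tdb (.c 48 (.c 537002185 (.c 8 (.c 40 .nil)))) (.b 16 .nil))) (.node (.I .tdb (.c 24 (.c 8193 (.c 8 (.c 40 .nil)))) (.b 48 (.b 16 .nil))) (.I .tdb (.c 0 (.c 32 (.c 8 (.c 40 .nil)))) (.b 24 (.b 48 (.b 16 .nil))))))) (.node (.node (.node (.I .tdb (.c 48 (.c 169943305 (.c 8 (.c 40 .nil)))) (.b 16 .nil)) (.I .tdb (.c 4609 (.c 32 (.c 8 (.c 40 .nil)))) (.b 48 (.b 16 .nil)))) (.node (.I .tdb (.c 0 (.c 24 (.c 40 (.c 8 .nil)))) (.b 32 (.b 48 (.b 16 .nil)))) (.I .tdb (.c 8786435 (.c 48 (.c 8 (.c 40 .nil)))) (.b 16 .nil)))) (.node (.node (.I .tdb (.c 24 (.c 59109071234951844617 (.c 8 (.c 40 .nil)))) .nil) (.I .tdb (.c 16 (.c 2718204169 (.c 8 (.c 40 .nil)))) (.b 24 .nil))) (.node (.I .tdb (.c 24 (.c 2306972423229201161 (.c 8 (.c 40 .nil)))) .nil) (.I .tdb (.c 24 (.c 15246191640314057 (.c 8 (.c 40 .nil)))) .nil)))))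 (.node (.node (.node (.node (.I .tdb (.c 16 (.c 18433 (.c 8 (.c 40 .nil)))) (.b 32 (.b 24 .nil))) (.I .tdb (.c 24 (.c 2306970223667989513 (.c 8 (.c 40 .nil)))) .nil)) (.node (.I .tdb (.c 16 (.c 8193 (.c 8 (.c 40 .nil)))) (.b 48 (.b 24 .nil))) (.I .tdb (.c 0 (.c 32 (.c 8 (.c 40 .nil)))) (.b 16 (.b 48 (.b 24 .nil)))))) (.node (.node (.I .tdb (.c 24 (.c 9024942441010185 (.c 8 (.c 40 .nil)))) .nil) (.I .tdb (.c 2049 (.c 32 (.c 8 (.c 40 .nil)))) (.b 48 (.b 24 .nil)))) (.node (.I .tdb (.c 0 (.c 16 (.c 40 (.c 8 .nil)))) (.b 32 (.b 48 (.b 24 .nil)))) (.I .tdb (.c 24 (.c 598967998054857 (.c 8 (.c 40 .nil)))) .nil)))) (.node (.node (.node (.I .tdb (.c 8652803 (.c 48 (.c 8 (.c 40 .nil)))) (.b 24 .nil)) (.I .tdb (.c 0 (.c 43655299 (.c 8 (.c 40 .nil)))) (.b 24 .nil))) (.node (.I .tdb (.c 32 (.c 59109068451510808329 (.c 8 (.c 40 .nil)))) .nil) (.I .tdb (.c 0 (.c 48 (.c 8 (.c 40 .nil)))) (.b 24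 (.b 16 (.b 32 .nil)))))) (.node (.node (.I .tdb (.c 32 (.c 231046163358604041 (.c 8 (.c 40 .nil)))) .nil) (.I .tdb (.c 16 (.c 169943433 (.c 8 (.c 40 .nil)))) (.b 32 .nil))) (.node (.I .tdb (.c 16 (.c 43356675 (.c 8 (.c 40 .nil)))) (.b 32 .nil)) (.I .tdb (.c 24 (.c 2718204041 (.c 8 (.c 40 .nil)))) (.b 32 .nil))))))))

noncomputable def c2_36 : Tr := (.node (.node (.node (.node (.node (.node (.I .tdb (.c 16 (.c 18433 (.c 8 (.c 40 .nil)))) (.b 24 (.b 32 .nil))) (.I .tdb (.c 0 (.c 48 (.c 8 (.c 40 .nil)))) (.b 16 (.b 24 (.b 32 .nil))))) (.node (.I .tdb (.c 2049 (.c 48 (.c 8 (.c 40 .nil)))) (.b 24 (.b 32 .nil))) (.I .tdb (.c 0 (.c 16 (.c 40 (.c 8 .nil)))) (.b 48 (.b 24 (.b 32 .nil)))))) (.node (.node (.I .tdb (.c 32 (.c 14832759703961865 (.c 8 (.c 40 .nil)))) .nil) (.I .tdb (.c 48 (.c 169943177 (.c 8 (.c 40 .nil)))) (.b 32 .nil))) (.node (.I .tdb (.c 32 (.c 9024908047478793 (.c 8 (.c 40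 .nil)))) .nil) (.I .tdb (.c 0 (.c 48 (.c 8 (.c 40 .nil)))) (.b 8786563 .nil))))) (.node (.node (.node (.I .tdb (.c 48 (.c 2306970773558193929 (.c 8 (.c 40 .nil)))) .nil) (.I .tdb (.c 16 (.c 537002185 (.c 8 (.c 40 .nil)))) (.b 48 .nil))) (.node (.I .tdb (.c 4609 (.c 32 (.c 8 (.c 40 .nil)))) (.b 16 (.b 48 .nil))) (.I .tdb (.c 0 (.c 24 (.c 40 (.c 8 .nil)))) (.b 32 (.b 16 (.b 48 .nil)))))) (.node (.node (.I .tdb (.c 16 (.c 8193 (.c 8 (.c 40 .nil)))) (.b 24 (.b 48 .nil))) (.I .tdb (.c 0 (.c 32 (.c 8 (.c 40 .nil)))) (.b 16 (.b 24 (.b 48 .nil))))) (.node (.I .tdb (.c 48 (.c 9024942441009993 (.c 8 (.c 40 .nil)))) .nil) (.I .tdb (.c 24 (.c 33587465 (.c 8 (.c 40 .nil)))) (.b 48 .nil)))))) (.node (.node (.node (.node (.I .tdb (.c 2049 (.c 32 (.c 8 (.c 40 .nil)))) (.b 24 (.b 48 .nil))) (.I .tdb (.c 0 (.c 16 (.c 40 (.c 8 .nil)))) (.b 32 (.b 24 (.b 48 .nil))))) (.node (.I .tdb (.c 24 (.c 8652803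 (.c 8 (.c 40 .nil)))) (.b 48 .nil)) (.I .tdb (.c 48 (.c 231045467270826889 (.c 8 (.c 40 .nil)))) .nil))) (.node (.node (.I .tdb (.c 16 (.c 4609 (.c 8 (.c 40 .nil)))) (.b 32 (.b 48 .nil))) (.I .tdb (.c 0 (.c 24 (.c 40 (.c 8 .nil)))) (.b 16 (.b 32 (.b 48 .nil))))) (.node (.I .tdb (.c 48 (.c 9024908047478665 (.c 8 (.c 40 .nil)))) .nil) (.I .tdb (.c 32 (.c 33587401 (.c 8 (.c 40 .nil)))) (.b 48 .nil))))) (.node (.node (.node (.I .tdb (.c 24 (.c 2049 (.c 8 (.c 40 .nil)))) (.b 32 (.b 48 .nil))) (.I .tdb (.c 0 (.c 16 (.c 40 (.c 8 .nil)))) (.b 24 (.b 32 (.b 48 .nil))))) (.node (.I .tdb (.c 48 (.c 62886542410057 (.c 8 (.c 40 .nil)))) .nil) (.I .tdb (.c 32 (.c 2803715 (.c 8 (.c 40 .nil)))) (.b 48 .nil)))) (.node (.node (.I .tdb (.c 0 (.c 8786563 (.c 8 (.c 40 .nil)))) (.b 48 .nil)) (.I .tdb (.c 8193 (.c 43356803 (.c 8 (.c 40 .nil)))) .nil)) (.node (.I .tdb (.c 0 (.c 32 (.c 8 (.c 40 .nil))))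 (.b 43356803 .nil)) (.I .tdb (.c 4609 (.c 43655299 (.c 8 (.c 40 .nil)))) .nil)))))) (.node (.node (.node (.node (.node (.I .tdb (.c 0 (.c 16 (.c 40 (.c 8 .nil)))) (.b 43655363 .nil)) (.I .tdb (.c 8 (.c 59109071234951844681 (.c 16 (.c 40 .nil)))) .nil)) (.node (.I .tdb (.c 24 (.c 2718204169 (.c 16 (.c 40 .nil)))) (.b 8 .nil)) (.I .tdb (.c 0 (.c 48 (.c 16 (.c 40 .nil)))) (.b 32 (.b 24 (.b 8 .nil)))))) (.node (.node (.I .tdb (.c 48 (.c 8193 (.c 16 (.c 40 .nil)))) (.b 24 (.b 8 .nil))) (.I .tdb (.c 0 (.c 32 (.c 16 (.c 40 .nil)))) (.b 48 (.b 24 (.b 8 .nil))))) (.node (.I .tdb (.c 8 (.c 59109068451510808457 (.c 16 (.c 40 .nil)))) .nil) (.I .tdb (.c 32 (.c 2718204105 (.c 16 (.c 40 .nil)))) (.b 8 .nil))))) (.node (.node (.node (.I .tdb (.c 0 (.c 48 (.c 16 (.c 40 .nil)))) (.b 24 (.b 32 (.b 8 .nil)))) (.I .tdb (.c 8 (.c 231046163358604169 (.c 16 (.c 40 .nil)))) .nil)) (.node (.I .tdb (.c 32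 (.c 169943433 (.c 16 (.c 40 .nil)))) (.b 8 .nil)) (.I .tdb (.c 4609 (.c 48 (.c 16 (.c 40 .nil)))) (.b 32 (.b 8 .nil))))) (.node (.node (.I .tdb (.c 0 (.c 24 (.c 40 (.c 16 .nil)))) (.b 48 (.b 32 (.b 8 .nil)))) (.I .tdb (.c 8 (.c 231045815314584585 (.c 16 (.c 40 .nil)))) .nil)) (.node (.I .tdb (.c 48 (.c 169943305 (.c 16 (.c 40 .nil)))) (.b 8 .nil)) (.I .tdb (.c 4609 (.c 32 (.c 16 (.c 40 .nil)))) (.b 48 (.b 8 .nil))))))) (.node (.node (.node (.node (.I .tdb (.c 0 (.c 24 (.c 40 (.c 16 .nil)))) (.b 32 (.b 48 (.b 8 .nil)))) (.I .tdb (.c 8 (.c 617611520074185 (.c 16 (.c 40 .nil)))) .nil)) (.node (.I .tdb (.c 8786435 (.c 48 (.c 16 (.c 40 .nil)))) (.b 8 .nil)) (.I .tdb (.c 24 (.c 59109071234951844553 (.c 16 (.c 40 .nil)))) .nil))) (.node (.node (.I .tdb (.c 8 (.c 2718204169 (.c 16 (.c 40 .nil)))) (.b 24 .nil)) (.I .tdb (.c 8 (.c 537002377 (.c 16 (.c 40 .nil)))) (.b 24 .nil))) (.node (.I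 .tdb (.c 24 (.c 15246191640313993 (.c 16 (.c 40 .nil)))) .nil) (.I .tdb (.c 32 (.c 2718203977 (.c 16 (.c 40 .nil)))) (.b 24 .nil))))) (.node (.node (.node (.I .tdb (.c 8 (.c 18433 (.c 16 (.c 40 .nil)))) (.b 32 (.b 24 .nil))) (.I .tdb (.c 32 (.c 2105737 (.c 16 (.c 40 .nil)))) (.b 24 .nil))) (.node (.I .tdb (.c 24 (.c 14629225721520457 (.c 16 (.c 40 .nil)))) .nil) (.I .tdb (.c 48 (.c 537002057 (.c 16 (.c 40 .nil)))) (.b 24 .nil)))) (.node (.node (.I .tdb (.c 24 (.c 35468714087433 (.c 16 (.c 40 .nil)))) .nil) (.I .tdb (.c 2105609 (.c 48 (.c 16 (.c 40 .nil)))) (.b 24 .nil))) (.node (.I .tdb (.c 24 (.c 580749782704585 (.c 16 (.c 40 .nil)))) .nil) (.I .tdb (.c 8520195 (.c 48 (.c 16 (.c 40 .nil)))) (.b 24 .nil))))))))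

noncomputable def c2_37 : Tr := (.node (.node (.node (.node (.node (.node (.I .tdb (.c 32 (.c 59109068451510808265 (.c 16 (.c 40 .nil)))) .nil) (.I .tdb (.c 8 (.c 2718204105 (.c 16 (.c 40 .nil)))) (.b 32 .nil))) (.node (.I .tdb (.c 24 (.c 18433 (.c 16 (.c 40 .nil)))) (.b 8 (.b 32 .nil))) (.I .tdb (.c 0 (.c 48 (.c 16 (.c 40 .nil)))) (.b 24 (.b 8 (.b 32 .nil)))))) (.node (.node (.I .tdb (.c 32 (.c 231046163358603977 (.c 16 (.c 40 .nil)))) .nil) (.I .tdb (.c 8 (.c 169943433 (.c 16 (.c 40 .nil)))) (.b 32 .nil))) (.node (.I .tdb (.c 4609 (.c 48 (.c 16 (.c 40 .nil)))) (.b 8 (.b 32 .nil))) (.I .tdb (.c 0 (.c 24 (.c 40 (.c 16 .nil)))) (.b 48 (.b 8 (.b 32 .nil))))))) (.node (.node (.node (.I .tdb (.c 0 (.c 48 (.c 16 (.c 40 .nil)))) (.b 8 (.b 24 (.b 32 .nil)))) (.I .tdb (.c 24 (.c 2105737 (.c 16 (.c 40 .nil)))) (.b 32 .nil))) (.node (.I .tdb (.c 32 (.c 14629225721520393 (.c 16 (.c 40 .nil))))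 .nil) (.I .tdb (.c 24 (.c 42762755 (.c 16 (.c 40 .nil)))) (.b 32 .nil)))) (.node (.node (.I .tdb (.c 8 (.c 4609 (.c 16 (.c 40 .nil)))) (.b 48 (.b 32 .nil))) (.I .tdb (.c 0 (.c 24 (.c 40 (.c 16 .nil)))) (.b 8 (.b 48 (.b 32 .nil))))) (.node (.I .tdb (.c 32 (.c 35466557976585 (.c 16 (.c 40 .nil)))) .nil) (.I .tdb (.c 2105545 (.c 48 (.c 16 (.c 40 .nil)))) (.b 32 .nil)))))) (.node (.node (.node (.node (.I .tdb (.c 32 (.c 59555558875593 (.c 16 (.c 40 .nil)))) .nil) (.I .tdb (.c 32 (.c 15038454533712969 (.c 16 (.c 40 .nil)))) .nil)) (.node (.I .tdb (.c 0 (.c 43356739 (.c 16 (.c 40 .nil)))) (.b 32 .nil)) (.I .tdb (.c 24 (.c 8193 (.c 16 (.c 40 .nil)))) (.b 8 (.b 48 .nil))))) (.node (.node (.I .tdb (.c 0 (.c 32 (.c 16 (.c 40 .nil)))) (.b 24 (.b 8 (.b 48 .nil)))) (.I .tdb (.c 48 (.c 231045815314584265 (.c 16 (.c 40 .nil)))) .nil)) (.node (.I .tdb (.c 8 (.c 169943305 (.c 16 (.c 40 .nil)))) (.b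 48 .nil)) (.I .tdb (.c 48 (.c 617611520073865 (.c 16 (.c 40 .nil)))) .nil)))) (.node (.node (.node (.I .tdb (.c 8 (.c 8193 (.c 16 (.c 40 .nil)))) (.b 24 (.b 48 .nil))) (.I .tdb (.c 0 (.c 32 (.c 16 (.c 40 .nil)))) (.b 8 (.b 24 (.b 48 .nil))))) (.node (.I .tdb (.c 48 (.c 35468714087241 (.c 16 (.c 40 .nil)))) .nil) (.I .tdb (.c 513 (.c 32 (.c 40 (.c 16 .nil)))) (.b 24 (.b 48 .nil))))) (.node (.node (.I .tdb (.c 0 (.c 8 (.c 16 (.c 40 .nil)))) (.b 32 (.b 24 (.b 48 .nil)))) (.I .tdb (.c 48 (.c 580749782704393 (.c 16 (.c 40 .nil)))) .nil)) (.node (.I .tdb (.c 24 (.c 8520195 (.c 16 (.c 40 .nil)))) (.b 48 .nil)) (.I .tdb (.c 8 (.c 4609 (.c 16 (.c 40 .nil)))) (.b 32 (.b 48 .nil)))))))) (.node (.node (.node (.node (.node (.I .tdb (.c 0 (.c 24 (.c 40 (.c 16 .nil)))) (.b 8 (.b 32 (.b 48 .nil)))) (.I .tdb (.c 48 (.c 35466557976457 (.c 16 (.c 40 .nil)))) .nil)) (.node (.I .tdb (.c 32 (.c 2105545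 (.c 16 (.c 40 .nil)))) (.b 48 .nil)) (.I .tdb (.c 513 (.c 24 (.c 40 (.c 16 .nil)))) (.b 32 (.b 48 .nil))))) (.node (.node (.I .tdb (.c 0 (.c 8 (.c 16 (.c 40 .nil)))) (.b 24 (.b 32 (.b 48 .nil)))) (.I .tdb (.c 48 (.c 617620517416009 (.c 16 (.c 40 .nil)))) .nil)) (.node (.I .tdb (.c 4609 (.c 43655235 (.c 16 (.c 40 .nil)))) .nil) (.I .tdb (.c 0 (.c 24 (.c 40 (.c 16 .nil)))) (.b 43655235 .nil))))) (.node (.node (.node (.I .tdb (.c 8 (.c 40 (.c 59109071234951844681 (.c 16 .nil)))) .nil) (.I .tdb (.c 8 (.c 40 (.c 2306972423229201225 (.c 16 .nil)))) .nil)) (.node (.I .tdb (.c 8 (.c 40 (.c 59109068451510808457 (.c 16 .nil)))) .nil) (.I .tdb (.c 8 (.c 40 (.c 231046163358604169 (.c 16 .nil)))) .nil))) (.node (.node (.I .tdb (.c 8 (.c 40 (.c 231045815314584585 (.c 16 .nil)))) .nil) (.I .tdb (.c 8 (.c 16 (.c 40 (.c 15246191640314121 .nil)))) .nil)) (.node (.I .tdb (.c 8 (.c 16 (.c 40 (.c 15038410136445257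 .nil)))) .nil) (.I .tdb (.c 8 (.c 16 (.c 40 (.c 231045815314584585 .nil)))) .nil))))) (.node (.node (.node (.node (.I .tdb (.c 16 (.c 40 (.c 59109071234951844681 (.c 8 .nil)))) .nil) (.I .tdb (.c 16 (.c 40 (.c 15246191640314121 (.c 8 .nil)))) .nil)) (.node (.I .tdb (.c 16 (.c 40 (.c 59109068451510808457 (.c 8 .nil)))) .nil) (.I .tdb (.c 16 (.c 40 (.c 231046163358604169 (.c 8 .nil)))) .nil))) (.node (.node (.I .tdb (.c 16 (.c 40 (.c 617611520074185 (.c 8 .nil)))) .nil) (.I .tdb (.c 16 (.c 2718204169 (.c 24 (.c 40 .nil)))) (.b 8 .nil))) (.node (.I .tdb (.c 32 (.c 18433 (.c 24 (.c 40 .nil)))) (.b 16 (.b 8 .nil))) (.I .tdb (.c 16 (.c 537002377 (.c 24 (.c 40 .nil)))) (.b 8 .nil))))) (.node (.node (.node (.I .tdb (.c 48 (.c 8193 (.c 24 (.c 40 .nil)))) (.b 16 (.b 8 .nil))) (.I .tdb (.c 0 (.c 32 (.c 24 (.c 40 .nil)))) (.b 48 (.b 16 (.b 8 .nil))))) (.node (.I .tdb (.c 16 (.c 43655171 (.c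 24 (.c 40 .nil)))) (.b 8 .nil)) (.I .tdb (.c 32 (.c 2718204041 (.c 24 (.c 40 .nil)))) (.b 8 .nil)))) (.node (.node (.I .tdb (.c 0 (.c 48 (.c 24 (.c 40 .nil)))) (.b 16 (.b 32 (.b 8 .nil)))) (.I .tdb (.c 8 (.c 9025011228269449 (.c 24 (.c 40 .nil)))) .nil)) (.node (.I .tdb (.c 2049 (.c 48 (.c 24 (.c 40 .nil)))) (.b 32 (.b 8 .nil))) (.I .tdb (.c 0 (.c 16 (.c 40 (.c 24 .nil)))) (.b 48 (.b 32 (.b 8 .nil))))))))))

noncomputable def c2_38 : Tr := (.node (.node (.node (.node (.node (.node (.I .tdb (.c 8 (.c 14832759703961929 (.c 24 (.c 40 .nil)))) .nil) (.I .tdb (.c 8 (.c 9024942441010185 (.c 24 (.c 40 .nil)))) .nil)) (.node (.I .tdb (.c 48 (.c 33587465 (.c 24 (.c 40 .nil)))) (.b 8 .nil)) (.I .tdb (.c 8 (.c 598967998054857 (.c 24 (.c 40 .nil)))) .nil))) (.node (.node (.I .tdb (.c 8652803 (.c 48 (.c 24 (.c 40 .nil)))) (.b 8 .nil)) (.I .tdb (.c 8 (.c 2718204169 (.c 24 (.c 40 .nil)))) (.b 16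 .nil))) (.node (.I .tdb (.c 32 (.c 18433 (.c 24 (.c 40 .nil)))) (.b 8 (.b 16 .nil))) (.I .tdb (.c 16 (.c 15246191640313993 (.c 24 (.c 40 .nil)))) .nil)))) (.node (.node (.node (.I .tdb (.c 8 (.c 43655171 (.c 24 (.c 40 .nil)))) (.b 16 .nil)) (.I .tdb (.c 8 (.c 18433 (.c 24 (.c 40 .nil)))) (.b 32 (.b 16 .nil)))) (.node (.I .tdb (.c 0 (.c 48 (.c 24 (.c 40 .nil)))) (.b 8 (.b 32 (.b 16 .nil)))) (.I .tdb (.c 32 (.c 2105737 (.c 24 (.c 40 .nil)))) (.b 16 .nil)))) (.node (.node (.I .tdb (.c 32 (.c 42762755 (.c 24 (.c 40 .nil)))) (.b 16 .nil)) (.I .tdb (.c 16 (.c 35468714087433 (.c 24 (.c 40 .nil)))) .nil)) (.node (.I .tdb (.c 2105609 (.c 48 (.c 24 (.c 40 .nil)))) (.b 16 .nil)) (.I .tdb (.c 513 (.c 32 (.c 40 (.c 24 .nil)))) (.b 48 (.b 16 .nil))))))) (.node (.node (.node (.node (.I .tdb (.c 0 (.c 8 (.c 24 (.c 40 .nil)))) (.b 32 (.b 48 (.b 16 .nil)))) (.I .tdb (.c 8520195 (.c 48 (.c 24 (.c 40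 .nil)))) (.b 16 .nil))) (.node (.I .tdb (.c 16 (.c 15246236343241801 (.c 24 (.c 40 .nil)))) .nil) (.I .tdb (.c 32 (.c 9025011228269257 (.c 24 (.c 40 .nil)))) .nil))) (.node (.node (.I .tdb (.c 8 (.c 43059203 (.c 24 (.c 40 .nil)))) (.b 32 .nil)) (.I .tdb (.c 32 (.c 59109062884628932361 (.c 24 (.c 40 .nil)))) .nil)) (.node (.I .tdb (.c 16 (.c 2105737 (.c 24 (.c 40 .nil)))) (.b 32 .nil)) (.I .tdb (.c 513 (.c 48 (.c 24 (.c 40 .nil)))) (.b 16 (.b 32 .nil)))))) (.node (.node (.node (.I .tdb (.c 0 (.c 8 (.c 24 (.c 40 .nil)))) (.b 48 (.b 16 (.b 32 .nil)))) (.I .tdb (.c 32 (.c 14629225721520329 (.c 24 (.c 40 .nil)))) .nil)) (.node (.I .tdb (.c 32 (.c 35464401931273 (.c 24 (.c 40 .nil)))) .nil) (.I .tdb (.c 2105481 (.c 48 (.c 24 (.c 40 .nil)))) (.b 32 .nil)))) (.node (.node (.I .tdb (.c 32 (.c 2487083360713 (.c 24 (.c 40 .nil)))) .nil) (.I .tdb (.c 0 (.c 43059267 (.c 24 (.c 40 .nil)))) (.b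 32 .nil))) (.node (.I .tdb (.c 16 (.c 8193 (.c 24 (.c 40 .nil)))) (.b 8 (.b 48 .nil))) (.I .tdb (.c 0 (.c 32 (.c 24 (.c 40 .nil)))) (.b 16 (.b 8 (.b 48 .nil))))))))) (.node (.node (.node (.node (.node (.I .tdb (.c 48 (.c 9024942441009865 (.c 24 (.c 40 .nil)))) .nil) (.I .tdb (.c 8 (.c 33587465 (.c 24 (.c 40 .nil)))) (.b 48 .nil))) (.node (.I .tdb (.c 2049 (.c 32 (.c 24 (.c 40 .nil)))) (.b 8 (.b 48 .nil))) (.I .tdb (.c 0 (.c 16 (.c 40 (.c 24 .nil)))) (.b 32 (.b 8 (.b 48 .nil)))))) (.node (.node (.I .tdb (.c 8 (.c 8193 (.c 24 (.c 40 .nil)))) (.b 16 (.b 48 .nil))) (.I .tdb (.c 0 (.c 32 (.c 24 (.c 40 .nil)))) (.b 8 (.b 16 (.b 48 .nil))))) (.node (.I .tdb (.c 48 (.c 35468714087177 (.c 24 (.c 40 .nil)))) .nil) (.I .tdb (.c 48 (.c 580749782704329 (.c 24 (.c 40 .nil)))) .nil)))) (.node (.node (.node (.I .tdb (.c 32 (.c 33587273 (.c 24 (.c 40 .nil)))) (.b 48 .nil)) (.I .tdb (.c 48 (.c 35464401931145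 (.c 24 (.c 40 .nil)))) .nil)) (.node (.I .tdb (.c 32 (.c 2105481 (.c 24 (.c 40 .nil)))) (.b 48 .nil)) (.I .tdb (.c 48 (.c 2487083360585 (.c 24 (.c 40 .nil)))) .nil))) (.node (.node (.I .tdb (.c 48 (.c 598976858557513 (.c 24 (.c 40 .nil)))) .nil) (.I .tdb (.c 0 (.c 8652867 (.c 24 (.c 40 .nil)))) (.b 48 .nil))) (.node (.I .tdb (.c 8193 (.c 43059267 (.c 24 (.c 40 .nil)))) .nil) (.I .tdb (.c 0 (.c 32 (.c 24 (.c 40 .nil)))) (.b 43059267 .nil)))))) (.node (.node (.node (.node (.I .tdb (.c 0 (.c 16 (.c 40 (.c 24 .nil)))) (.b 43655235 .nil)) (.I .tdb (.c 513 (.c 43655299 (.c 24 (.c 40 .nil)))) .nil)) (.node (.I .tdb (.c 8 (.c 40 (.c 59109065668069837705 (.c 24 .nil)))) .nil) (.I .tdb (.c 8 (.c 40 (.c 2306970223667989513 (.c 24 .nil)))) .nil))) (.node (.node (.I .tdb (.c 8 (.c 40 (.c 9024942441010185 (.c 24 .nil)))) .nil) (.I .tdb (.c 8 (.c 40 (.c 598967998054857 (.c 24 .nil)))) .nil)) (.node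 (.I .tdb (.c 8 (.c 24 (.c 40 (.c 15246191640314057 .nil)))) .nil) (.I .tdb (.c 8 (.c 24 (.c 40 (.c 9025011228269449 .nil)))) .nil)))) (.node (.node (.node (.I .tdb (.c 8 (.c 24 (.c 40 (.c 2306970223667989513 .nil)))) .nil) (.I .tdb (.c 8 (.c 24 (.c 40 (.c 9024942441010185 .nil)))) .nil)) (.node (.I .tdb (.c 8 (.c 24 (.c 40 (.c 598967998054857 .nil)))) .nil) (.I .tdb (.c 8 (.c 24 (.c 40 (.c 15246281046235209 .nil)))) .nil))) (.node (.node (.I .tdb (.c 24 (.c 40 (.c 2306972423229201161 (.c 8 .nil)))) .nil) (.I .tdb (.c 24 (.c 40 (.c 15246191640314057 (.c 8 .nil)))) .nil)) (.node (.I .tdb (.c 24 (.c 40 (.c 9025011228269449 (.c 8 .nil)))) .nil) (.I .tdb (.c 24 (.c 40 (.c 14832759703961929 (.c 8 .nil)))) .nil)))))))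

noncomputable def c2_39 : Tr := (.node (.node (.node (.node (.node (.node (.I .tdb (.c 24 (.c 40 (.c 9024942441010185 (.c 8 .nil)))) .nil) (.I .tdb (.c 24 (.c 40 (.c 598967998054857 (.c 8 .nil)))) .nil)) (.node (.I .tdb (.c 16 (.c 40 (.c 15246191640313993 (.c 24 .nil)))) .nil) (.I .tdb (.c 16 (.c 40 (.c 59109062884628932489 (.c 24 .nil)))) .nil))) (.node (.node (.I .tdb (.c 16 (.c 40 (.c 35473026505609 (.c 24 .nil)))) .nil) (.I .tdb (.c 16 (.c 24 (.c 40 (.c 2306972423229201097 .nil)))) .nil)) (.node (.I .tdb (.c 16 (.c 24 (.c 40 (.c 15246191640313993 .nil)))) .nil) (.I .tdb (.c 16 (.c 24 (.c 40 (.c 14629225721520457 .nil)))) .nil)))) (.node (.node (.node (.I .tdb (.c 24 (.c 40 (.c 15246191640313993 (.c 16 .nil)))) .nil) (.I .tdb (.c 24 (.c 40 (.c 15246236343241801 (.c 16 .nil)))) .nil)) (.node (.I .tdb (.c 24 (.c 12865 (.c 2718204169 (.c 16 .nil)))) .nil) (.I .tdb (.c 8 (.c 24 (.c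 2718204169 (.c 16 .nil)))) (.b 40 .nil)))) (.node (.node (.I .tdb (.c 32 (.c 18433 (.c 16 (.c 40 .nil)))) (.b 4673 .nil)) (.I .tdb (.c 24 (.c 12865 (.c 537002377 (.c 16 .nil)))) .nil)) (.node (.I .tdb (.c 48 (.c 8193 (.c 16 (.c 24 .nil)))) (.b 12865 .nil)) (.I .tdb (.c 0 (.c 32 (.c 16 (.c 24 .nil)))) (.b 48 (.b 12865 .nil))))))) (.node (.node (.node (.node (.I .tdb (.c 0 (.c 32 (.c 16 (.c 40 .nil)))) (.b 48 (.b 4673 .nil))) (.I .tdb (.c 8 (.c 40 (.c 43655171 (.c 16 .nil)))) (.b 24 .nil))) (.node (.I .tdb (.c 4673 (.c 40 (.c 43655171 (.c 16 .nil)))) .nil) (.I .tdb (.c 8 (.c 24 (.c 43655171 (.c 16 .nil)))) (.b 40 .nil)))) (.node (.node (.I .tdb (.c 8 (.c 40 (.c 2718204169 (.c 24 .nil)))) (.b 16 .nil)) (.I .tdb (.c 32 (.c 18433 (.c 24 (.c 20891715 .nil)))) .nil)) (.node (.I .tdb (.c 8 (.c 40 (.c 537002377 (.c 24 .nil)))) (.b 16 .nil)) (.I .tdb (.c 0 (.c 32 (.c 24 (.c 40 .nil)))) (.b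 48 (.b 2113 .nil)))))) (.node (.node (.node (.I .tdb (.c 48 (.c 8193 (.c 24 (.c 20891715 .nil)))) .nil) (.I .tdb (.c 0 (.c 32 (.c 20891715 (.c 24 .nil)))) (.b 48 .nil))) (.node (.I .tdb (.c 8 (.c 40 (.c 43655171 (.c 24 .nil)))) (.b 16 .nil)) (.I .tdb (.c 16 (.c 24 (.c 12865 (.c 43655171 .nil)))) .nil))) (.node (.node (.I .tdb (.c 16 (.c 4673 (.c 2718204169 (.c 40 .nil)))) .nil) (.I .tdb (.c 0 (.c 48 (.c 40 (.c 2803779 .nil)))) (.b 32 .nil))) (.node (.I .tdb (.c 16 (.c 4673 (.c 537002377 (.c 40 .nil)))) .nil) (.I .tdb (.c 8 (.c 24 (.c 40 (.c 537002377 .nil)))) (.b 16 .nil))))))) (.node (.node (.node (.node (.node (.I .tdb (.c 24 (.c 2113 (.c 537002377 (.c 40 .nil)))) .nil) (.I .tdb (.c 8 (.c 16 (.c 40 (.c 537002377 .nil)))) (.b 24 .nil))) (.node (.I .tdb (.c 48 (.c 8193 (.c 40 (.c 2803779 .nil)))) .nil) (.I .tdb (.c 0 (.c 32 (.c 40 (.c 2803779 .nil)))) (.b 48 .nil)))) (.node (.node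 (.I .tdb (.c 16 (.c 4673 (.c 43655171 (.c 40 .nil)))) .nil) (.I .tdb (.c 8 (.c 24 (.c 40 (.c 43655171 .nil)))) (.b 16 .nil))) (.node (.I .tdb (.c 8 (.c 24 (.c 12929 (.c 2718204169 .nil)))) .nil) (.I .tdb (.c 16 (.c 40 (.c 537002377 (.c 8 .nil)))) (.b 24 .nil))))) (.node (.node (.node (.I .tdb (.c 16 (.c 40 (.c 537002377 (.c 24 .nil)))) (.b 8 .nil)) (.I .tdb (.c 8 (.c 24 (.c 12929 (.c 43655171 .nil)))) .nil)) (.node (.I .tdb (.c 16 (.c 40 (.c 43655171 (.c 8 .nil)))) (.b 24 .nil)) (.I .tdb (.c 16 (.c 40 (.c 43655171 (.c 24 .nil)))) (.b 8 .nil)))) (.node (.node (.I .tdb (.c 8 (.c 16 (.c 12993 (.c 2718204169 .nil)))) .nil) (.I .tdb (.c 24 (.c 40 (.c 2718204169 (.c 8 .nil)))) (.b 16 .nil))) (.node (.I .tdb (.c 24 (.c 40 (.c 2718204169 (.c 16 .nil)))) (.b 8 .nil)) (.I .tdb (.c 24 (.c 40 (.c 537002377 (.c 8 .nil)))) (.b 16 .nil)))))) (.node (.node (.node (.node (.I .tdb (.c 24 (.c 40 (.c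 537002377 (.c 16 .nil)))) (.b 8 .nil)) (.I .tdb (.c 32 (.c 18433 (.c 8 (.c 24 .nil)))) (.b 12929 .nil))) (.node (.I .tdb (.c 16 (.c 24 (.c 2718204169 (.c 8 .nil)))) (.b 40 .nil)) (.I .tdb (.c 0 (.c 48 (.c 8 (.c 40 .nil)))) (.b 32 (.b 4737 .nil))))) (.node (.node (.I .tdb (.c 4737 (.c 40 (.c 537002377 (.c 8 .nil)))) .nil) (.I .tdb (.c 16 (.c 24 (.c 537002377 (.c 8 .nil)))) (.b 40 .nil))) (.node (.I .tdb (.c 48 (.c 8193 (.c 8 (.c 40 .nil)))) (.b 4737 .nil)) (.I .tdb (.c 0 (.c 32 (.c 21099139 (.c 8 .nil)))) (.b 48 .nil))))) (.node (.node (.node (.I .tdb (.c 16 (.c 2718204105 (.c 32 (.c 40 .nil)))) (.b 8 .nil)) (.I .tdb (.c 24 (.c 18433 (.c 32 (.c 40 .nil)))) (.b 16 (.b 8 .nil)))) (.node (.I .tdb (.c 16 (.c 169943433 (.c 32 (.c 40 .nil)))) (.b 8 .nil)) (.I .tdb (.c 16 (.c 43356675 (.c 32 (.c 40 .nil)))) (.b 8 .nil)))) (.node (.node (.I .tdb (.c 16 (.c 18433 (.c 32 (.c 40 .nil)))) (.b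 24 (.b 8 .nil))) (.I .tdb (.c 24 (.c 33587593 (.c 32 (.c 40 .nil)))) (.b 8 .nil))) (.node (.I .tdb (.c 2049 (.c 48 (.c 32 (.c 40 .nil)))) (.b 24 (.b 8 .nil))) (.I .tdb (.c 0 (.c 16 (.c 32 (.c 40 .nil)))) (.b 48 (.b 24 (.b 8 .nil))))))))))

noncomputable def c2_40 : Tr := (.node (.node (.node (.node (.node (.node (.I .tdb (.c 24 (.c 43059203 (.c 32 (.c 40 .nil)))) (.b 8 .nil)) (.I .tdb (.c 24 (.c 2049 (.c 32 (.c 40 .nil)))) (.b 48 (.b 8 .nil)))) (.node (.I .tdb (.c 0 (.c 16 (.c 32 (.c 40 .nil)))) (.b 24 (.b 48 (.b 8 .nil)))) (.I .tdb (.c 8 (.c 15038498931046473 (.c 32 (.c 40 .nil)))) .nil))) (.node (.node (.I .tdb (.c 8 (.c 2718204105 (.c 32 (.c 40 .nil)))) (.b 16 .nil)) (.I .tdb (.c 24 (.c 18433 (.c 32 (.c 40 .nil)))) (.b 8 (.b 16 .nil)))) (.node (.I .tdb (.c 0 (.c 48 (.c 32 (.c 40 .nil)))) (.b 24 (.b 8 (.b 16 .nil)))) (.I .tdb (.c 4609 (.c 48 (.c 32 (.c 40 .nil)))) (.b 8 (.b 16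 .nil)))))) (.node (.node (.node (.I .tdb (.c 0 (.c 24 (.c 32 (.c 40 .nil)))) (.b 48 (.b 8 (.b 16 .nil)))) (.I .tdb (.c 8 (.c 43356675 (.c 32 (.c 40 .nil)))) (.b 16 .nil))) (.node (.I .tdb (.c 24 (.c 2718203977 (.c 32 (.c 40 .nil)))) (.b 16 .nil)) (.I .tdb (.c 8 (.c 18433 (.c 32 (.c 40 .nil)))) (.b 24 (.b 16 .nil))))) (.node (.node (.I .tdb (.c 0 (.c 48 (.c 32 (.c 40 .nil)))) (.b 8 (.b 24 (.b 16 .nil)))) (.I .tdb (.c 16 (.c 14629225721520393 (.c 32 (.c 40 .nil)))) .nil)) (.node (.I .tdb (.c 2105545 (.c 48 (.c 32 (.c 40 .nil)))) (.b 16 .nil)) (.I .tdb (.c 513 (.c 24 (.c 40 (.c 32 .nil)))) (.b 48 (.b 16 .nil))))))) (.node (.node (.node (.node (.I .tdb (.c 0 (.c 8 (.c 32 (.c 40 .nil)))) (.b 24 (.b 48 (.b 16 .nil)))) (.I .tdb (.c 16 (.c 15038454533712969 (.c 32 (.c 40 .nil)))) .nil)) (.node (.I .tdb (.c 0 (.c 43356739 (.c 32 (.c 40 .nil)))) (.b 16 .nil)) (.I .tdb (.c 8 (.c 2718204041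 (.c 32 (.c 40 .nil)))) (.b 24 .nil)))) (.node (.node (.I .tdb (.c 8 (.c 33587593 (.c 32 (.c 40 .nil)))) (.b 24 .nil)) (.I .tdb (.c 8 (.c 43059203 (.c 32 (.c 40 .nil)))) (.b 24 .nil))) (.node (.I .tdb (.c 24 (.c 59109062884628932361 (.c 32 (.c 40 .nil)))) .nil) (.I .tdb (.c 8 (.c 18433 (.c 32 (.c 40 .nil)))) (.b 16 (.b 24 .nil)))))) (.node (.node (.node (.I .tdb (.c 513 (.c 48 (.c 32 (.c 40 .nil)))) (.b 16 (.b 24 .nil))) (.I .tdb (.c 0 (.c 8 (.c 32 (.c 40 .nil)))) (.b 48 (.b 16 (.b 24 .nil))))) (.node (.I .tdb (.c 48 (.c 33587273 (.c 32 (.c 40 .nil)))) (.b 24 .nil)) (.I .tdb (.c 513 (.c 16 (.c 40 (.c 32 .nil)))) (.b 48 (.b 24 .nil))))) (.node (.node (.I .tdb (.c 0 (.c 8 (.c 32 (.c 40 .nil)))) (.b 16 (.b 48 (.b 24 .nil)))) (.I .tdb (.c 24 (.c 2487083360713 (.c 32 (.c 40 .nil)))) .nil)) (.node (.I .tdb (.c 557571 (.c 48 (.c 32 (.c 40 .nil)))) (.b 24 .nil)) (.I .tdb (.c 24 (.c 14832803796618313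 (.c 32 (.c 40 .nil)))) .nil)))))) (.node (.node (.node (.node (.node (.I .tdb (.c 8 (.c 169943177 (.c 32 (.c 40 .nil)))) (.b 48 .nil)) (.I .tdb (.c 16 (.c 4609 (.c 32 (.c 40 .nil)))) (.b 8 (.b 48 .nil)))) (.node (.I .tdb (.c 0 (.c 24 (.c 32 (.c 40 .nil)))) (.b 16 (.b 8 (.b 48 .nil)))) (.I .tdb (.c 24 (.c 2049 (.c 32 (.c 40 .nil)))) (.b 8 (.b 48 .nil))))) (.node (.node (.I .tdb (.c 0 (.c 16 (.c 32 (.c 40 .nil)))) (.b 24 (.b 8 (.b 48 .nil)))) (.I .tdb (.c 8 (.c 2803715 (.c 32 (.c 40 .nil)))) (.b 48 .nil))) (.node (.I .tdb (.c 24 (.c 33587273 (.c 32 (.c 40 .nil)))) (.b 48 .nil)) (.I .tdb (.c 513 (.c 16 (.c 40 (.c 32 .nil)))) (.b 24 (.b 48 .nil)))))) (.node (.node (.node (.I .tdb (.c 0 (.c 8 (.c 32 (.c 40 .nil)))) (.b 16 (.b 24 (.b 48 .nil)))) (.I .tdb (.c 24 (.c 557571 (.c 32 (.c 40 .nil)))) (.b 48 .nil))) (.node (.I .tdb (.c 48 (.c 62889413446729 (.c 32 (.c 40 .nil)))) .nil) (.I .tdb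 (.c 0 (.c 2803779 (.c 32 (.c 40 .nil)))) (.b 48 .nil)))) (.node (.node (.I .tdb (.c 4609 (.c 43059267 (.c 32 (.c 40 .nil)))) .nil) (.I .tdb (.c 2049 (.c 43356739 (.c 32 (.c 40 .nil)))) .nil)) (.node (.I .tdb (.c 0 (.c 16 (.c 32 (.c 40 .nil)))) (.b 43356739 .nil)) (.I .tdb (.c 513 (.c 43356803 (.c 32 (.c 40 .nil)))) .nil))))) (.node (.node (.node (.node (.I .tdb (.c 0 (.c 8 (.c 32 (.c 40 .nil)))) (.b 43356803 .nil)) (.I .tdb (.c 8 (.c 40 (.c 59109068451510808329 (.c 32 .nil)))) .nil)) (.node (.I .tdb (.c 8 (.c 40 (.c 231046163358604041 (.c 32 .nil)))) .nil) (.I .tdb (.c 8 (.c 40 (.c 59109065668069837641 (.c 32 .nil)))) .nil))) (.node (.node (.I .tdb (.c 8 (.c 40 (.c 9025011228269385 (.c 32 .nil)))) .nil) (.I .tdb (.c 8 (.c 40 (.c 231045467270827017 (.c 32 .nil)))) .nil)) (.node (.I .tdb (.c 8 (.c 40 (.c 9024908047478793 (.c 32 .nil)))) .nil) (.I .tdb (.c 8 (.c 40 (.c 62886542410185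 (.c 32 .nil)))) .nil)))) (.node (.node (.node (.I .tdb (.c 8 (.c 40 (.c 15038498931046473 (.c 32 .nil)))) .nil) (.I .tdb (.c 8 (.c 32 (.c 59109068451510808329 (.c 40 .nil)))) .nil)) (.node (.I .tdb (.c 8 (.c 32 (.c 231046163358604041 (.c 40 .nil)))) .nil) (.I .tdb (.c 8 (.c 32 (.c 15038410136445129 (.c 40 .nil)))) .nil))) (.node (.node (.I .tdb (.c 8 (.c 32 (.c 59109065668069837641 (.c 40 .nil)))) .nil) (.I .tdb (.c 8 (.c 32 (.c 231045467270827017 (.c 40 .nil)))) .nil)) (.node (.I .tdb (.c 8 (.c 32 (.c 9024908047478793 (.c 40 .nil)))) .nil) (.I .tdb (.c 32 (.c 40 (.c 231046163358604041 (.c 8 .nil)))) .nil)))))))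

noncomputable def c2_41 : Tr := (.node (.node (.node (.node (.node (.node (.I .tdb (.c 32 (.c 40 (.c 15038410136445129 (.c 8 .nil)))) .nil) (.I .tdb (.c 32 (.c 40 (.c 59109065668069837641 (.c 8 .nil)))) .nil)) (.node (.I .tdb (.c 32 (.c 40 (.c 62886542410185 (.c 8 .nil)))) .nil) (.I .tdb (.c 32 (.c 40 (.c 15038498931046473 (.c 8 .nil)))) .nil))) (.node (.node (.I .tdb (.c 16 (.c 40 (.c 35473026505545 (.c 32 .nil)))) .nil) (.I .tdb (.c 16 (.c 40 (.c 231045293249046537 (.c 32 .nil)))) .nil)) (.node (.I .tdb (.c 16 (.c 40 (.c 15038454533712969 (.c 32 .nil)))) .nil) (.I .tdb (.c 16 (.c 32 (.c 15038410136445065 (.c 40 .nil)))) .nil)))) (.node (.node (.node (.I .tdb (.c 16 (.c 32 (.c 35473026505545 (.c 40 .nil)))) .nil) (.I .tdb (.c 16 (.c 32 (.c 35466557976585 (.c 40 .nil)))) .nil)) (.node (.I .tdb (.c 32 (.c 40 (.c 35473026505545 (.c 16 .nil)))) .nil) (.I .tdb (.c 32 (.c 40 (.c 35466557976585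 (.c 16 .nil)))) .nil))) (.node (.node (.I .tdb (.c 0 (.c 48 (.c 16 (.c 32 .nil)))) (.b 24 (.b 12865 .nil))) (.I .tdb (.c 24 (.c 18433 (.c 16 (.c 40 .nil)))) (.b 8257 .nil))) (.node (.I .tdb (.c 0 (.c 48 (.c 16 (.c 40 .nil)))) (.b 24 (.b 8257 .nil))) (.I .tdb (.c 8 (.c 32 (.c 2718204105 (.c 16 .nil)))) (.b 40 .nil)))))) (.node (.node (.node (.node (.I .tdb (.c 0 (.c 48 (.c 16 (.c 21307459 .nil)))) (.b 24 .nil)) (.I .tdb (.c 32 (.c 12865 (.c 169943433 (.c 16 .nil)))) .nil)) (.node (.I .tdb (.c 4609 (.c 48 (.c 16 (.c 32 .nil)))) (.b 12865 .nil)) (.I .tdb (.c 0 (.c 24 (.c 32 (.c 16 .nil)))) (.b 48 (.b 12865 .nil))))) (.node (.node (.I .tdb (.c 4609 (.c 48 (.c 16 (.c 40 .nil)))) (.b 8257 .nil)) (.I .tdb (.c 0 (.c 24 (.c 40 (.c 16 .nil)))) (.b 48 (.b 8257 .nil)))) (.node (.I .tdb (.c 40 (.c 8257 (.c 43356675 (.c 16 .nil)))) .nil) (.I .tdb (.c 8 (.c 32 (.c 43356675 (.c 16 .nil)))) (.b 40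 .nil))))) (.node (.node (.node (.I .tdb (.c 2113 (.c 40 (.c 2718204105 (.c 32 .nil)))) .nil) (.I .tdb (.c 24 (.c 18433 (.c 32 (.c 40 .nil)))) (.b 2113 .nil))) (.node (.I .tdb (.c 0 (.c 48 (.c 32 (.c 40 .nil)))) (.b 24 (.b 2113 .nil))) (.I .tdb (.c 16 (.c 12865 (.c 169943433 (.c 32 .nil)))) .nil))) (.node (.node (.I .tdb (.c 4609 (.c 48 (.c 32 (.c 20891715 .nil)))) .nil) (.I .tdb (.c 0 (.c 24 (.c 32 (.c 20891715 .nil)))) (.b 48 .nil))) (.node (.I .tdb (.c 16 (.c 32 (.c 12865 (.c 2718204105 .nil)))) .nil) (.I .tdb (.c 16 (.c 32 (.c 12865 (.c 169943433 .nil)))) .nil)))))) (.node (.node (.node (.node (.node (.I .tdb (.c 8 (.c 32 (.c 2718204105 (.c 40 .nil)))) (.b 16 .nil)) (.I .tdb (.c 8 (.c 16 (.c 40 (.c 2718204105 .nil)))) (.b 32 .nil))) (.node (.I .tdb (.c 0 (.c 48 (.c 8652867 (.c 40 .nil)))) (.b 24 .nil)) (.I .tdb (.c 4609 (.c 48 (.c 8652867 (.c 40 .nil)))) .nil))) (.node (.node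 (.I .tdb (.c 16 (.c 8257 (.c 43356675 (.c 40 .nil)))) .nil) (.I .tdb (.c 8 (.c 32 (.c 43356675 (.c 40 .nil)))) (.b 16 .nil))) (.node (.I .tdb (.c 8 (.c 32 (.c 12929 (.c 2718204105 .nil)))) .nil) (.I .tdb (.c 8 (.c 32 (.c 12929 (.c 169943433 .nil)))) .nil)))) (.node (.node (.node (.I .tdb (.c 32 (.c 40 (.c 2718204105 (.c 8 .nil)))) (.b 16 .nil)) (.I .tdb (.c 32 (.c 40 (.c 2718204105 (.c 16 .nil)))) (.b 8 .nil))) (.node (.I .tdb (.c 8 (.c 16 (.c 13057 (.c 169943433 .nil)))) .nil) (.I .tdb (.c 32 (.c 40 (.c 169943433 (.c 8 .nil)))) (.b 16 .nil)))) (.node (.node (.I .tdb (.c 32 (.c 40 (.c 169943433 (.c 16 .nil)))) (.b 8 .nil)) (.I .tdb (.c 0 (.c 48 (.c 8 (.c 32 .nil)))) (.b 24 (.b 12929 .nil)))) (.node (.I .tdb (.c 24 (.c 18433 (.c 8 (.c 40 .nil)))) (.b 8321 .nil)) (.I .tdb (.c 16 (.c 32 (.c 2718204105 (.c 8 .nil)))) (.b 40 .nil)))))) (.node (.node (.node (.node (.I .tdb (.c 0 (.c 48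 (.c 8 (.c 21307523 .nil)))) (.b 24 .nil)) (.I .tdb (.c 4609 (.c 48 (.c 8 (.c 40 .nil)))) (.b 8321 .nil))) (.node (.I .tdb (.c 0 (.c 24 (.c 40 (.c 8 .nil)))) (.b 48 (.b 8321 .nil))) (.I .tdb (.c 16 (.c 32 (.c 169943433 (.c 8 .nil)))) (.b 40 .nil)))) (.node (.node (.I .tdb (.c 24 (.c 40 (.c 9025011228269257 (.c 32 .nil)))) .nil) (.I .tdb (.c 24 (.c 40 (.c 59109062884628932361 (.c 32 .nil)))) .nil)) (.node (.I .tdb (.c 24 (.c 40 (.c 35473026505481 (.c 32 .nil)))) .nil) (.I .tdb (.c 24 (.c 40 (.c 14629225721520329 (.c 32 .nil)))) .nil)))) (.node (.node (.node (.I .tdb (.c 24 (.c 40 (.c 35464401931273 (.c 32 .nil)))) .nil) (.I .tdb (.c 24 (.c 40 (.c 14832803796618313 (.c 32 .nil)))) .nil)) (.node (.I .tdb (.c 24 (.c 32 (.c 59109065668069837513 (.c 40 .nil)))) .nil) (.I .tdb (.c 24 (.c 32 (.c 59109062884628932361 (.c 40 .nil)))) .nil))) (.node (.node (.I .tdb (.c 24 (.c 32 (.c 14629225721520329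 (.c 40 .nil)))) .nil) (.I .tdb (.c 24 (.c 32 (.c 9024839260612617 (.c 40 .nil)))) .nil)) (.node (.I .tdb (.c 24 (.c 32 (.c 35464401931273 (.c 40 .nil)))) .nil) (.I .tdb (.c 24 (.c 32 (.c 14832803796618313 (.c 40 .nil)))) .nil)))))))

noncomputable def c2_42 : Tr := (.node (.node (.node (.node (.node (.node (.I .tdb (.c 32 (.c 40 (.c 9025011228269257 (.c 24 .nil)))) .nil) (.I .tdb (.c 32 (.c 40 (.c 14629225721520329 (.c 24 .nil)))) .nil)) (.node (.I .tdb (.c 32 (.c 40 (.c 35464401931273 (.c 24 .nil)))) .nil) (.I .tdb (.c 32 (.c 40 (.c 14832803796618313 (.c 24 .nil)))) .nil))) (.node (.node (.I .tdb (.c 16 (.c 18433 (.c 24 (.c 32 .nil)))) (.b 12865 .nil)) (.I .tdb (.c 0 (.c 48 (.c 24 (.c 32 .nil)))) (.b 16 (.b 12865 .nil)))) (.node (.I .tdb (.c 8 (.c 40 (.c 2718204041 (.c 24 .nil)))) (.b 32 .nil)) (.I .tdb (.c 40 (.c 8257 (.c 2718204041 (.c 24 .nil)))) .nil)))) (.node (.node (.node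 (.I .tdb (.c 16 (.c 18433 (.c 24 (.c 40 .nil)))) (.b 8257 .nil)) (.I .tdb (.c 8 (.c 32 (.c 2718204041 (.c 24 .nil)))) (.b 40 .nil))) (.node (.I .tdb (.c 40 (.c 8257 (.c 33587593 (.c 24 .nil)))) .nil) (.I .tdb (.c 2049 (.c 48 (.c 24 (.c 40 .nil)))) (.b 8257 .nil)))) (.node (.node (.I .tdb (.c 0 (.c 16 (.c 40 (.c 24 .nil)))) (.b 48 (.b 8257 .nil))) (.I .tdb (.c 8 (.c 32 (.c 33587593 (.c 24 .nil)))) (.b 40 .nil))) (.node (.I .tdb (.c 0 (.c 16 (.c 21307459 (.c 24 .nil)))) (.b 48 .nil)) (.I .tdb (.c 8 (.c 40 (.c 43059203 (.c 24 .nil)))) (.b 32 .nil)))))) (.node (.node (.node (.node (.I .tdb (.c 8 (.c 32 (.c 43059203 (.c 24 .nil)))) (.b 40 .nil)) (.I .tdb (.c 8 (.c 40 (.c 2718204041 (.c 32 .nil)))) (.b 24 .nil))) (.node (.I .tdb (.c 4673 (.c 40 (.c 2718204041 (.c 32 .nil)))) .nil) (.I .tdb (.c 16 (.c 18433 (.c 32 (.c 21099075 .nil)))) .nil))) (.node (.node (.I .tdb (.c 24 (.c 12865 (.c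 33587593 (.c 32 .nil)))) .nil) (.I .tdb (.c 8 (.c 40 (.c 33587593 (.c 32 .nil)))) (.b 24 .nil))) (.node (.I .tdb (.c 4673 (.c 40 (.c 33587593 (.c 32 .nil)))) .nil) (.I .tdb (.c 8 (.c 24 (.c 32 (.c 33587593 .nil)))) (.b 40 .nil))))) (.node (.node (.node (.I .tdb (.c 2049 (.c 48 (.c 32 (.c 40 .nil)))) (.b 4673 .nil)) (.I .tdb (.c 0 (.c 16 (.c 32 (.c 40 .nil)))) (.b 48 (.b 4673 .nil)))) (.node (.I .tdb (.c 2049 (.c 48 (.c 32 (.c 21099075 .nil)))) .nil) (.I .tdb (.c 0 (.c 16 (.c 32 (.c 21099075 .nil)))) (.b 48 .nil)))) (.node (.node (.I .tdb (.c 8 (.c 40 (.c 43059203 (.c 32 .nil)))) (.b 24 .nil)) (.I .tdb (.c 24 (.c 32 (.c 12865 (.c 2718204041 .nil)))) .nil)) (.node (.I .tdb (.c 24 (.c 8257 (.c 2718204041 (.c 40 .nil)))) .nil) (.I .tdb (.c 8 (.c 32 (.c 2718204041 (.c 40 .nil)))) (.b 24 .nil))))))) (.node (.node (.node (.node (.node (.I .tdb (.c 4673 (.c 32 (.c 2718204041 (.c 40 .nil))))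 .nil) (.I .tdb (.c 2049 (.c 48 (.c 8786499 (.c 40 .nil)))) .nil)) (.node (.I .tdb (.c 0 (.c 16 (.c 8786499 (.c 40 .nil)))) (.b 48 .nil)) (.I .tdb (.c 8 (.c 32 (.c 43059203 (.c 40 .nil)))) (.b 24 .nil)))) (.node (.node (.I .tdb (.c 8 (.c 24 (.c 13057 (.c 2718204041 .nil)))) .nil) (.I .tdb (.c 8 (.c 24 (.c 13057 (.c 33587593 .nil)))) .nil)) (.node (.I .tdb (.c 8 (.c 24 (.c 13057 (.c 43059203 .nil)))) .nil) (.I .tdb (.c 32 (.c 40 (.c 43059203 (.c 8 .nil)))) (.b 24 .nil))))) (.node (.node (.node (.I .tdb (.c 32 (.c 40 (.c 43059203 (.c 24 .nil)))) (.b 8 .nil)) (.I .tdb (.c 16 (.c 18433 (.c 8 (.c 32 .nil)))) (.b 12993 .nil))) (.node (.I .tdb (.c 0 (.c 48 (.c 8 (.c 32 .nil)))) (.b 16 (.b 12993 .nil))) (.I .tdb (.c 40 (.c 8385 (.c 2718204041 (.c 8 .nil)))) .nil))) (.node (.node (.I .tdb (.c 16 (.c 18433 (.c 8 (.c 40 .nil)))) (.b 8385 .nil)) (.I .tdb (.c 0 (.c 48 (.c 8 (.c 40 .nil)))) (.b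 16 (.b 8385 .nil)))) (.node (.I .tdb (.c 24 (.c 32 (.c 2718204041 (.c 8 .nil)))) (.b 40 .nil)) (.I .tdb (.c 0 (.c 48 (.c 8 (.c 21307587 .nil)))) (.b 16 .nil)))))) (.node (.node (.node (.node (.I .tdb (.c 2049 (.c 48 (.c 8 (.c 32 .nil)))) (.b 12993 .nil)) (.I .tdb (.c 0 (.c 16 (.c 32 (.c 8 .nil)))) (.b 48 (.b 12993 .nil)))) (.node (.I .tdb (.c 32 (.c 12929 (.c 2718203977 (.c 24 .nil)))) .nil) (.I .tdb (.c 40 (.c 8321 (.c 2718203977 (.c 24 .nil)))) .nil))) (.node (.node (.I .tdb (.c 16 (.c 32 (.c 2718203977 (.c 24 .nil)))) (.b 40 .nil)) (.I .tdb (.c 0 (.c 48 (.c 24 (.c 21307523 .nil)))) (.b 8 .nil))) (.node (.I .tdb (.c 513 (.c 48 (.c 24 (.c 32 .nil)))) (.b 12929 .nil)) (.I .tdb (.c 0 (.c 8 (.c 24 (.c 32 .nil)))) (.b 48 (.b 12929 .nil)))))) (.node (.node (.node (.I .tdb (.c 40 (.c 8321 (.c 2105737 (.c 24 .nil)))) .nil) (.I .tdb (.c 16 (.c 32 (.c 2105737 (.c 24 .nil)))) (.b 40 .nil)))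 (.node (.I .tdb (.c 16 (.c 32 (.c 42762755 (.c 24 .nil)))) (.b 40 .nil)) (.I .tdb (.c 16 (.c 40 (.c 2718203977 (.c 32 .nil)))) (.b 24 .nil)))) (.node (.node (.I .tdb (.c 16 (.c 24 (.c 32 (.c 2718203977 .nil)))) (.b 40 .nil)) (.I .tdb (.c 8 (.c 18433 (.c 32 (.c 40 .nil)))) (.b 4737 .nil))) (.node (.I .tdb (.c 8 (.c 18433 (.c 32 (.c 21099139 .nil)))) .nil) (.I .tdb (.c 0 (.c 48 (.c 32 (.c 21099139 .nil)))) (.b 8 .nil))))))))

noncomputable def c2_43 : Tr := (.node (.node (.node (.node (.node (.node (.I .tdb (.c 4737 (.c 40 (.c 2105737 (.c 32 .nil)))) .nil) (.I .tdb (.c 16 (.c 24 (.c 32 (.c 2105737 .nil)))) (.b 40 .nil))) (.node (.I .tdb (.c 0 (.c 8 (.c 32 (.c 21099139 .nil)))) (.b 48 .nil)) (.I .tdb (.c 16 (.c 24 (.c 32 (.c 42762755 .nil)))) (.b 40 .nil)))) (.node (.node (.I .tdb (.c 24 (.c 32 (.c 12929 (.c 2718203977 .nil)))) .nil) (.I .tdb (.c 24 (.c 8321 (.c 2718203977 (.c 40 .nil))))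 .nil)) (.node (.I .tdb (.c 16 (.c 32 (.c 2718203977 (.c 40 .nil)))) (.b 24 .nil)) (.I .tdb (.c 16 (.c 24 (.c 40 (.c 2718203977 .nil)))) (.b 32 .nil))))) (.node (.node (.node (.I .tdb (.c 4737 (.c 32 (.c 2105737 (.c 40 .nil)))) .nil) (.I .tdb (.c 16 (.c 24 (.c 40 (.c 2105737 .nil)))) (.b 32 .nil))) (.node (.I .tdb (.c 16 (.c 32 (.c 42762755 (.c 40 .nil)))) (.b 24 .nil)) (.I .tdb (.c 16 (.c 24 (.c 40 (.c 42762755 .nil)))) (.b 32 .nil)))) (.node (.node (.I .tdb (.c 16 (.c 32 (.c 12993 (.c 2718203977 .nil)))) .nil) (.I .tdb (.c 24 (.c 40 (.c 2718203977 (.c 16 .nil)))) (.b 32 .nil))) (.node (.I .tdb (.c 24 (.c 40 (.c 2718203977 (.c 32 .nil)))) (.b 16 .nil)) (.I .tdb (.c 24 (.c 40 (.c 2105737 (.c 16 .nil)))) (.b 32 .nil)))))) (.node (.node (.node (.node (.I .tdb (.c 24 (.c 40 (.c 2105737 (.c 32 .nil)))) (.b 16 .nil)) (.I .tdb (.c 32 (.c 40 (.c 2718203977 (.c 16 .nil)))) (.b 24 .nil)))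 (.node (.I .tdb (.c 32 (.c 40 (.c 2718203977 (.c 24 .nil)))) (.b 16 .nil)) (.I .tdb (.c 32 (.c 40 (.c 2105737 (.c 16 .nil)))) (.b 24 .nil)))) (.node (.node (.I .tdb (.c 32 (.c 40 (.c 2105737 (.c 24 .nil)))) (.b 16 .nil)) (.I .tdb (.c 8 (.c 18433 (.c 16 (.c 32 .nil)))) (.b 12993 .nil))) (.node (.I .tdb (.c 0 (.c 48 (.c 16 (.c 32 .nil)))) (.b 8 (.b 12993 .nil))) (.I .tdb (.c 40 (.c 8385 (.c 2718203977 (.c 16 .nil)))) .nil)))) (.node (.node (.node (.I .tdb (.c 8 (.c 18433 (.c 16 (.c 40 .nil)))) (.b 8385 .nil)) (.I .tdb (.c 0 (.c 48 (.c 16 (.c 40 .nil)))) (.b 8 (.b 8385 .nil)))) (.node (.I .tdb (.c 24 (.c 32 (.c 2718203977 (.c 16 .nil)))) (.b 40 .nil)) (.I .tdb (.c 24 (.c 32 (.c 2105737 (.c 16 .nil)))) (.b 40 .nil)))) (.node (.node (.I .tdb (.c 0 (.c 48 (.c 16 (.c 24 .nil)))) (.b 1324066057 .nil)) (.I .tdb (.c 0 (.c 48 (.c 16 (.c 24 .nil)))) (.b 545424713 .nil))) (.node (.I .tdb (.c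 40 (.c 8257 (.c 18433 (.c 16 .nil)))) (.b 24 .nil)) (.I .tdb (.c 8 (.c 32 (.c 18433 (.c 16 .nil)))) (.b 40 (.b 24 .nil)))))))) (.node (.node (.node (.node (.node (.I .tdb (.c 24 (.c 21307459 (.c 18433 (.c 16 .nil)))) .nil) (.I .tdb (.c 32 (.c 1324065993 (.c 18433 (.c 16 .nil)))) .nil)) (.node (.I .tdb (.c 8 (.c 40 (.c 18433 (.c 16 .nil)))) (.b 24 (.b 32 .nil))) (.I .tdb (.c 0 (.c 48 (.c 16 (.c 32 .nil)))) (.b 174695753 .nil)))) (.node (.node (.I .tdb (.c 4673 (.c 40 (.c 18433 (.c 16 .nil)))) (.b 32 .nil)) (.I .tdb (.c 8 (.c 24 (.c 18433 (.c 16 .nil)))) (.b 40 (.b 32 .nil)))) (.node (.I .tdb (.c 32 (.c 21099075 (.c 18433 (.c 16 .nil)))) .nil) (.I .tdb (.c 40 (.c 545424585 (.c 18433 (.c 16 .nil)))) .nil)))) (.node (.node (.node (.I .tdb (.c 0 (.c 48 (.c 16 (.c 40 .nil)))) (.b 545424585 .nil)) (.I .tdb (.c 24 (.c 8257 (.c 18433 (.c 16 .nil)))) (.b 40 .nil))) (.node (.I .tdb (.c 0 (.c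 48 (.c 16 (.c 24 .nil)))) (.b 8257 (.b 40 .nil))) (.I .tdb (.c 40 (.c 174695689 (.c 18433 (.c 16 .nil)))) .nil))) (.node (.node (.I .tdb (.c 4673 (.c 32 (.c 18433 (.c 16 .nil)))) (.b 40 .nil)) (.I .tdb (.c 8 (.c 24 (.c 18433 (.c 16 .nil)))) (.b 32 (.b 40 .nil)))) (.node (.I .tdb (.c 0 (.c 48 (.c 16 (.c 32 .nil)))) (.b 4673 (.b 40 .nil))) (.I .tdb (.c 16 (.c 1324066057 (.c 18433 (.c 24 .nil)))) .nil))))) (.node (.node (.node (.node (.I .tdb (.c 32 (.c 12865 (.c 18433 (.c 24 .nil)))) (.b 16 .nil)) (.I .tdb (.c 40 (.c 8257 (.c 18433 (.c 24 .nil)))) (.b 16 .nil))) (.node (.I .tdb (.c 8 (.c 32 (.c 18433 (.c 24 .nil)))) (.b 40 (.b 16 .nil))) (.I .tdb (.c 16 (.c 21307459 (.c 18433 (.c 24 .nil)))) .nil))) (.node (.node (.I .tdb (.c 32 (.c 1324065929 (.c 18433 (.c 24 .nil)))) .nil) (.I .tdb (.c 8 (.c 40 (.c 18433 (.c 24 .nil)))) (.b 16 (.b 32 .nil)))) (.node (.I .tdb (.c 32 (.c 35718473 (.c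 18433 (.c 24 .nil)))) .nil) (.I .tdb (.c 0 (.c 48 (.c 24 (.c 40 .nil)))) (.b 2113 (.b 32 .nil)))))) (.node (.node (.node (.I .tdb (.c 8 (.c 32 (.c 18433 (.c 24 .nil)))) (.b 16 (.b 40 .nil))) (.I .tdb (.c 0 (.c 48 (.c 24 (.c 40 .nil)))) (.b 35718409 .nil))) (.node (.I .tdb (.c 0 (.c 48 (.c 24 (.c 32 .nil)))) (.b 2113 (.b 40 .nil))) (.I .tdb (.c 8 (.c 21307523 (.c 18433 (.c 24 .nil)))) .nil))) (.node (.node (.I .tdb (.c 16 (.c 24 (.c 545424713 (.c 18433 .nil)))) .nil) (.I .tdb (.c 16 (.c 1324065993 (.c 18433 (.c 32 .nil)))) .nil)) (.node (.I .tdb (.c 8 (.c 40 (.c 18433 (.c 32 .nil)))) (.b 24 (.b 16 .nil))) (.I .tdb (.c 4673 (.c 40 (.c 18433 (.c 32 .nil)))) (.b 16 .nil))))))))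

noncomputable def c2_44 : Tr := (.node (.node (.node (.node (.node (.node (.I .tdb (.c 8 (.c 24 (.c 32 (.c 18433 .nil)))) (.b 40 (.b 16 .nil))) (.I .tdb (.c 0 (.c 48 (.c 32 (.c 40 .nil)))) (.b 4673 (.b 16 .nil)))) (.node (.I .tdb (.c 16 (.c 21099075 (.c 18433 (.c 32 .nil)))) .nil) (.I .tdb (.c 16 (.c 12865 (.c 18433 (.c 32 .nil)))) (.b 24 .nil)))) (.node (.node (.I .tdb (.c 8 (.c 40 (.c 18433 (.c 32 .nil)))) (.b 16 (.b 24 .nil))) (.I .tdb (.c 24 (.c 35718473 (.c 18433 (.c 32 .nil)))) .nil)) (.node (.I .tdb (.c 0 (.c 48 (.c 32 (.c 40 .nil)))) (.b 2113 (.b 24 .nil))) (.I .tdb (.c 0 (.c 48 (.c 32 (.c 40 .nil)))) (.b 174695561 .nil))))) (.node (.node (.node (.I .tdb (.c 40 (.c 35718345 (.c 18433 (.c 32 .nil)))) .nil) (.I .tdb (.c 24 (.c 2113 (.c 18433 (.c 32 .nil)))) (.b 40 .nil))) (.node (.I .tdb (.c 8 (.c 16 (.c 32 (.c 18433 .nil)))) (.b 24 (.b 40 .nil))) (.I .tdb (.c 8 (.c 21099139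 (.c 18433 (.c 32 .nil)))) .nil))) (.node (.node (.I .tdb (.c 16 (.c 32 (.c 1324065993 (.c 18433 .nil)))) .nil) (.I .tdb (.c 16 (.c 32 (.c 174695753 (.c 18433 .nil)))) .nil)) (.node (.I .tdb (.c 16 (.c 32 (.c 21099075 (.c 18433 .nil)))) .nil) (.I .tdb (.c 24 (.c 32 (.c 1324065929 (.c 18433 .nil)))) .nil))))) (.node (.node (.node (.node (.I .tdb (.c 24 (.c 32 (.c 35718473 (.c 18433 .nil)))) .nil) (.I .tdb (.c 24 (.c 32 (.c 20891715 (.c 18433 .nil)))) .nil)) (.node (.I .tdb (.c 16 (.c 24 (.c 12865 (.c 18433 .nil)))) (.b 32 .nil)) (.I .tdb (.c 8 (.c 40 (.c 18433 (.c 32 .nil)))) (.b 4737 .nil)))) (.node (.node (.I .tdb (.c 16 (.c 545424585 (.c 18433 (.c 40 .nil)))) .nil) (.I .tdb (.c 24 (.c 8257 (.c 18433 (.c 40 .nil)))) (.b 16 .nil))) (.node (.I .tdb (.c 8 (.c 32 (.c 18433 (.c 40 .nil)))) (.b 24 (.b 16 .nil))) (.I .tdb (.c 16 (.c 8786499 (.c 18433 (.c 40 .nil)))) .nil)))) (.node (.node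 (.node (.I .tdb (.c 24 (.c 35718409 (.c 18433 (.c 40 .nil)))) .nil) (.I .tdb (.c 2113 (.c 32 (.c 18433 (.c 40 .nil)))) (.b 24 .nil))) (.node (.I .tdb (.c 8 (.c 16 (.c 40 (.c 18433 .nil)))) (.b 32 (.b 24 .nil))) (.I .tdb (.c 24 (.c 8652867 (.c 18433 (.c 40 .nil)))) .nil))) (.node (.node (.I .tdb (.c 32 (.c 174695561 (.c 18433 (.c 40 .nil)))) .nil) (.I .tdb (.c 16 (.c 4673 (.c 18433 (.c 40 .nil)))) (.b 32 .nil))) (.node (.I .tdb (.c 8 (.c 24 (.c 40 (.c 18433 .nil)))) (.b 16 (.b 32 .nil))) (.I .tdb (.c 32 (.c 2803779 (.c 18433 (.c 40 .nil)))) .nil)))))) (.node (.node (.node (.node (.node (.I .tdb (.c 4673 (.c 32 (.c 12929 (.c 18433 .nil)))) .nil) (.I .tdb (.c 16 (.c 8257 (.c 12993 (.c 18433 .nil)))) .nil)) (.node (.I .tdb (.c 24 (.c 40 (.c 18433 (.c 16 .nil)))) (.b 8257 .nil)) (.I .tdb (.c 2113 (.c 32 (.c 12993 (.c 18433 .nil)))) .nil))) (.node (.node (.I .jac (.c 617611520074185 (.c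 16 (.c 40 .nil))) (.b 8 .nil)) (.I .tdb (.c 16 (.c 40 (.c 18433 (.c 32 .nil)))) (.b 24 (.b 8 .nil)))) (.node (.I .tdb (.c 8 (.c 32 (.c 179513673 (.c 18433 .nil)))) .nil) (.I .tdb (.c 4737 (.c 40 (.c 18433 (.c 8 .nil)))) (.b 32 .nil))))) (.node (.node (.node (.I .tdb (.c 16 (.c 24 (.c 18433 (.c 8 .nil)))) (.b 40 (.b 32 .nil))) (.I .tdb (.c 0 (.c 48 (.c 8 (.c 40 .nil)))) (.b 4737 (.b 32 .nil)))) (.node (.I .jac (.c 15456298926182473 (.c 16 (.c 24 .nil))) (.b 8 .nil)) (.I .tdb (.c 4737 (.c 40 (.c 18433 (.c 32 .nil)))) (.b 8 .nil)))) (.node (.node (.I .tdb (.c 16 (.c 24 (.c 32 (.c 18433 .nil)))) (.b 40 (.b 8 .nil))) (.I .tdb (.c 0 (.c 48 (.c 32 (.c 40 .nil)))) (.b 4737 (.b 8 .nil)))) (.node (.I .tdb (.c 8 (.c 32 (.c 21099139 (.c 18433 .nil)))) .nil) (.I .tdb (.c 0 (.c 48 (.c 8 (.c 32 .nil)))) (.b 12929 (.b 24 .nil))))))) (.node (.node (.node (.node (.I .tdb (.c 16 (.c 40 (.c 18433 (.c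 24 .nil)))) (.b 32 (.b 8 .nil))) (.I .tdb (.c 0 (.c 48 (.c 8 (.c 40 .nil)))) (.b 8321 (.b 24 .nil)))) (.node (.I .jac (.c 15456253916349513 (.c 16 (.c 32 .nil))) (.b 8 .nil)) (.I .tdb (.c 8 (.c 24 (.c 21307523 (.c 18433 .nil)))) .nil))) (.node (.node (.I .tdb (.c 0 (.c 48 (.c 8 (.c 32 .nil)))) (.b 12993 (.b 16 .nil))) (.I .jac (.c 15246281046235209 (.c 24 (.c 40 .nil))) (.b 8 .nil))) (.node (.I .tdb (.c 24 (.c 40 (.c 18433 (.c 16 .nil)))) (.b 32 (.b 8 .nil))) (.I .jac (.c 15456208906582089 (.c 24 (.c 32 .nil))) (.b 8 .nil))))) (.node (.node (.node (.I .tdb (.c 0 (.c 48 (.c 16 (.c 40 .nil)))) (.b 8385 (.b 8 .nil))) (.I .tdb (.c 0 (.c 48 (.c 8 (.c 24 .nil)))) (.b 1337272585 .nil))) (.node (.I .tdb (.c 0 (.c 48 (.c 8 (.c 24 .nil)))) (.b 553912649 .nil)) (.I .tdb (.c 24 (.c 21307523 (.c 18433 (.c 8 .nil)))) .nil))) (.node (.node (.I .tdb (.c 0 (.c 48 (.c 8 (.c 32 .nil)))) (.b 1337272521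 .nil)) (.I .tdb (.c 16 (.c 32 (.c 18433 (.c 8 .nil)))) (.b 24 (.b 40 .nil)))) (.node (.I .tdb (.c 16 (.c 21307587 (.c 18433 (.c 8 .nil)))) .nil) (.I .tdb (.c 24 (.c 1310925065 (.c 8 (.c 48 .nil)))) (.b 16 .nil))))))))

noncomputable def c2_45 : Tr := (.node (.node (.node (.node (.node (.node (.I .tdb (.c 0 (.c 40 (.c 8 (.c 48 .nil)))) (.b 32 (.b 24 (.b 16 .nil)))) (.I .tdb (.c 24 (.c 537002313 (.c 8 (.c 48 .nil)))) (.b 16 .nil))) (.node (.I .tdb (.c 40 (.c 8193 (.c 8 (.c 48 .nil)))) (.b 24 (.b 16 .nil))) (.I .tdb (.c 0 (.c 32 (.c 8 (.c 48 .nil)))) (.b 40 (.b 24 (.b 16 .nil)))))) (.node (.node (.I .tdb (.c 16 (.c 3632040653488393 (.c 8 (.c 48 .nil)))) .nil) (.I .tdb (.c 24 (.c 21307395 (.c 8 (.c 48 .nil)))) (.b 16 .nil))) (.node (.I .tdb (.c 16 (.c 13748194865974800265 (.c 8 (.c 48 .nil)))) .nil) (.I .tdb (.c 24 (.c 12801 (.c 8 (.c 48 .nil)))) (.b 32 (.b 16 .nil)))))) (.node (.node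 (.node (.I .tdb (.c 0 (.c 40 (.c 8 (.c 48 .nil)))) (.b 24 (.b 32 (.b 16 .nil)))) (.I .tdb (.c 16 (.c 231045989336561545 (.c 8 (.c 48 .nil)))) .nil)) (.node (.I .tdb (.c 16 (.c 3561346121425225 (.c 8 (.c 48 .nil)))) .nil) (.I .tdb (.c 16 (.c 2306970773558194121 (.c 8 (.c 48 .nil)))) .nil))) (.node (.node (.I .tdb (.c 40 (.c 537002185 (.c 8 (.c 48 .nil)))) (.b 16 .nil)) (.I .tdb (.c 16 (.c 231045815314584521 (.c 8 (.c 48 .nil)))) .nil)) (.node (.I .tdb (.c 40 (.c 169943305 (.c 8 (.c 48 .nil)))) (.b 16 .nil)) (.I .tdb (.c 4609 (.c 32 (.c 8 (.c 48 .nil)))) (.b 40 (.b 16 .nil))))))) (.node (.node (.node (.node (.I .tdb (.c 0 (.c 24 (.c 48 (.c 8 .nil)))) (.b 32 (.b 40 (.b 16 .nil)))) (.I .tdb (.c 16 (.c 3632106110100553 (.c 8 (.c 48 .nil)))) .nil)) (.node (.I .tdb (.c 0 (.c 21307587 (.c 8 (.c 48 .nil)))) (.b 16 .nil)) (.I .tdb (.c 0 (.c 40 (.c 8 (.c 48 .nil)))) (.b 32 (.b 16 (.b 24 .nil))))))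 (.node (.node (.I .tdb (.c 16 (.c 21307395 (.c 8 (.c 48 .nil)))) (.b 24 .nil)) (.I .tdb (.c 32 (.c 1310924937 (.c 8 (.c 48 .nil)))) (.b 24 .nil))) (.node (.I .tdb (.c 16 (.c 12801 (.c 8 (.c 48 .nil)))) (.b 32 (.b 24 .nil))) (.I .tdb (.c 24 (.c 9024976834606985 (.c 8 (.c 48 .nil)))) .nil)))) (.node (.node (.node (.I .tdb (.c 2049 (.c 40 (.c 8 (.c 48 .nil)))) (.b 32 (.b 24 .nil))) (.I .tdb (.c 0 (.c 16 (.c 48 (.c 8 .nil)))) (.b 40 (.b 32 (.b 24 .nil))))) (.node (.I .tdb (.c 24 (.c 2306970223667989449 (.c 8 (.c 48 .nil)))) .nil) (.I .tdb (.c 40 (.c 537002121 (.c 8 (.c 48 .nil)))) (.b 24 .nil)))) (.node (.node (.I .tdb (.c 16 (.c 8193 (.c 8 (.c 48 .nil)))) (.b 40 (.b 24 .nil))) (.I .tdb (.c 0 (.c 32 (.c 8 (.c 48 .nil)))) (.b 16 (.b 40 (.b 24 .nil))))) (.node (.I .tdb (.c 24 (.c 9024942441010121 (.c 8 (.c 48 .nil)))) .nil) (.I .tdb (.c 40 (.c 33587465 (.c 8 (.c 48 .nil)))) (.b 24 .nil)))))))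 (.node (.node (.node (.node (.node (.I .tdb (.c 2049 (.c 32 (.c 8 (.c 48 .nil)))) (.b 40 (.b 24 .nil))) (.I .tdb (.c 0 (.c 16 (.c 48 (.c 8 .nil)))) (.b 32 (.b 40 (.b 24 .nil))))) (.node (.I .tdb (.c 0 (.c 21307523 (.c 8 (.c 48 .nil)))) (.b 24 .nil)) (.I .tdb (.c 32 (.c 13748194865974800137 (.c 8 (.c 48 .nil)))) .nil))) (.node (.node (.I .tdb (.c 24 (.c 12801 (.c 8 (.c 48 .nil)))) (.b 16 (.b 32 .nil))) (.I .tdb (.c 0 (.c 40 (.c 8 (.c 48 .nil)))) (.b 24 (.b 16 (.b 32 .nil))))) (.node (.I .tdb (.c 32 (.c 231045989336561417 (.c 8 (.c 48 .nil)))) .nil) (.I .tdb (.c 16 (.c 169943369 (.c 8 (.c 48 .nil)))) (.b 32 .nil))))) (.node (.node (.node (.I .tdb (.c 32 (.c 3561346121425097 (.c 8 (.c 48 .nil)))) .nil) (.I .tdb (.c 24 (.c 1310924937 (.c 8 (.c 48 .nil)))) (.b 32 .nil))) (.node (.I .tdb (.c 16 (.c 12801 (.c 8 (.c 48 .nil)))) (.b 24 (.b 32 .nil))) (.I .tdb (.c 0 (.c 40 (.c 8 (.c 48 .nil))))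 (.b 16 (.b 24 (.b 32 .nil)))))) (.node (.node (.I .tdb (.c 32 (.c 9024976834606921 (.c 8 (.c 48 .nil)))) .nil) (.I .tdb (.c 24 (.c 33587529 (.c 8 (.c 48 .nil)))) (.b 32 .nil))) (.node (.I .tdb (.c 2049 (.c 40 (.c 8 (.c 48 .nil)))) (.b 24 (.b 32 .nil))) (.I .tdb (.c 0 (.c 16 (.c 48 (.c 8 .nil)))) (.b 40 (.b 24 (.b 32 .nil)))))))) (.node (.node (.node (.node (.I .tdb (.c 24 (.c 20891651 (.c 8 (.c 48 .nil)))) (.b 32 .nil)) (.I .tdb (.c 40 (.c 169943177 (.c 8 (.c 48 .nil)))) (.b 32 .nil))) (.node (.I .tdb (.c 40 (.c 33587401 (.c 8 (.c 48 .nil)))) (.b 32 .nil)) (.I .tdb (.c 24 (.c 2049 (.c 8 (.c 48 .nil)))) (.b 40 (.b 32 .nil))))) (.node (.node (.I .tdb (.c 0 (.c 16 (.c 48 (.c 8 .nil)))) (.b 24 (.b 40 (.b 32 .nil)))) (.I .tdb (.c 32 (.c 62886542410121 (.c 8 (.c 48 .nil)))) .nil)) (.node (.I .tdb (.c 40 (.c 2803715 (.c 8 (.c 48 .nil)))) (.b 32 .nil)) (.I .tdb (.c 32 (.c 3561389332330569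 (.c 8 (.c 48 .nil)))) .nil)))) (.node (.node (.node (.I .tdb (.c 0 (.c 40 (.c 8 (.c 48 .nil)))) (.b 8786563 .nil)) (.I .tdb (.c 40 (.c 2306970773558193929 (.c 8 (.c 48 .nil)))) .nil)) (.node (.I .tdb (.c 16 (.c 537002185 (.c 8 (.c 48 .nil)))) (.b 40 .nil)) (.I .tdb (.c 24 (.c 8193 (.c 8 (.c 48 .nil)))) (.b 16 (.b 40 .nil))))) (.node (.node (.I .tdb (.c 0 (.c 32 (.c 8 (.c 48 .nil)))) (.b 24 (.b 16 (.b 40 .nil)))) (.I .tdb (.c 40 (.c 231045815314584329 (.c 8 (.c 48 .nil)))) .nil)) (.node (.I .tdb (.c 16 (.c 8786435 (.c 8 (.c 48 .nil)))) (.b 40 .nil)) (.I .tdb (.c 40 (.c 2306970223667989321 (.c 8 (.c 48 .nil)))) .nil)))))))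

noncomputable def c2_46 : Tr := (.node (.node (.node (.node (.node (.node (.I .tdb (.c 40 (.c 9024942441009993 (.c 8 (.c 48 .nil)))) .nil) (.I .tdb (.c 24 (.c 33587465 (.c 8 (.c 48 .nil)))) (.b 40 .nil))) (.node (.I .tdb (.c 40 (.c 598967998054665 (.c 8 (.c 48 .nil)))) .nil) (.I .tdb (.c 24 (.c 8652803 (.c 8 (.c 48 .nil)))) (.b 40 .nil)))) (.node (.node (.I .tdb (.c 16 (.c 4609 (.c 8 (.c 48 .nil)))) (.b 32 (.b 40 .nil))) (.I .tdb (.c 0 (.c 24 (.c 48 (.c 8 .nil)))) (.b 16 (.b 32 (.b 40 .nil))))) (.node (.I .tdb (.c 32 (.c 33587401 (.c 8 (.c 48 .nil)))) (.b 40 .nil)) (.I .tdb (.c 24 (.c 2049 (.c 8 (.c 48 .nil)))) (.b 32 (.b 40 .nil)))))) (.node (.node (.node (.I .tdb (.c 0 (.c 16 (.c 48 (.c 8 .nil)))) (.b 24 (.b 32 (.b 40 .nil)))) (.I .tdb (.c 32 (.c 2803715 (.c 8 (.c 48 .nil)))) (.b 40 .nil))) (.node (.I .tdb (.c 0 (.c 32 (.c 8 (.c 48 .nil)))) (.b 21099139 .nil)) (.I .tdb (.c 4609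 (.c 21307523 (.c 8 (.c 48 .nil)))) .nil))) (.node (.node (.I .tdb (.c 0 (.c 24 (.c 48 (.c 8 .nil)))) (.b 21307523 .nil)) (.I .tdb (.c 2049 (.c 21307587 (.c 8 (.c 48 .nil)))) .nil)) (.node (.I .tdb (.c 0 (.c 16 (.c 48 (.c 8 .nil)))) (.b 21307587 .nil)) (.I .tdb (.c 8 (.c 13748196208362033993 (.c 16 (.c 48 .nil)))) .nil))))) (.node (.node (.node (.node (.I .tdb (.c 32 (.c 12801 (.c 16 (.c 48 .nil)))) (.b 24 (.b 8 .nil))) (.I .tdb (.c 0 (.c 40 (.c 16 (.c 48 .nil)))) (.b 32 (.b 24 (.b 8 .nil))))) (.node (.I .tdb (.c 8 (.c 13748194865974800265 (.c 16 (.c 48 .nil)))) .nil) (.I .tdb (.c 32 (.c 169943369 (.c 16 (.c 48 .nil)))) (.b 8 .nil)))) (.node (.node (.I .tdb (.c 24 (.c 8193 (.c 16 (.c 48 .nil)))) (.b 40 (.b 8 .nil))) (.I .tdb (.c 0 (.c 32 (.c 16 (.c 48 .nil)))) (.b 24 (.b 40 (.b 8 .nil))))) (.node (.I .tdb (.c 4609 (.c 32 (.c 16 (.c 48 .nil)))) (.b 40 (.b 8 .nil))) (.I .tdb (.c 0 (.c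 24 (.c 48 (.c 16 .nil)))) (.b 32 (.b 40 (.b 8 .nil))))))) (.node (.node (.node (.I .tdb (.c 8786435 (.c 40 (.c 16 (.c 48 .nil)))) (.b 8 .nil)) (.I .tdb (.c 24 (.c 13748196208362033865 (.c 16 (.c 48 .nil)))) .nil)) (.node (.I .tdb (.c 32 (.c 12801 (.c 16 (.c 48 .nil)))) (.b 8 (.b 24 .nil))) (.I .tdb (.c 0 (.c 40 (.c 16 (.c 48 .nil)))) (.b 32 (.b 8 (.b 24 .nil)))))) (.node (.node (.I .tdb (.c 8 (.c 537002313 (.c 16 (.c 48 .nil)))) (.b 24 .nil)) (.I .tdb (.c 40 (.c 8193 (.c 16 (.c 48 .nil)))) (.b 8 (.b 24 .nil)))) (.node (.I .tdb (.c 0 (.c 32 (.c 16 (.c 48 .nil)))) (.b 40 (.b 8 (.b 24 .nil)))) (.I .tdb (.c 24 (.c 3632040653488265 (.c 16 (.c 48 .nil)))) .nil)))))) (.node (.node (.node (.node (.node (.I .tdb (.c 24 (.c 13748192181200529289 (.c 16 (.c 48 .nil)))) .nil) (.I .tdb (.c 0 (.c 40 (.c 16 (.c 48 .nil)))) (.b 8 (.b 32 (.b 24 .nil))))) (.node (.I .tdb (.c 24 (.c 35470870263689 (.c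 16 (.c 48 .nil)))) .nil) (.I .tdb (.c 32 (.c 2105673 (.c 16 (.c 48 .nil)))) (.b 24 .nil)))) (.node (.node (.I .tdb (.c 513 (.c 40 (.c 16 (.c 48 .nil)))) (.b 32 (.b 24 .nil))) (.I .tdb (.c 0 (.c 8 (.c 16 (.c 48 .nil)))) (.b 40 (.b 32 (.b 24 .nil))))) (.node (.I .tdb (.c 24 (.c 3423058053194057 (.c 16 (.c 48 .nil)))) .nil) (.I .tdb (.c 32 (.c 20685315 (.c 16 (.c 48 .nil)))) (.b 24 .nil))))) (.node (.node (.node (.I .tdb (.c 24 (.c 2306969673777850313 (.c 16 (.c 48 .nil)))) .nil) (.I .tdb (.c 40 (.c 537002057 (.c 16 (.c 48 .nil)))) (.b 24 .nil))) (.node (.I .tdb (.c 8 (.c 8193 (.c 16 (.c 48 .nil)))) (.b 40 (.b 24 .nil))) (.I .tdb (.c 0 (.c 32 (.c 16 (.c 48 .nil)))) (.b 8 (.b 40 (.b 24 .nil)))))) (.node (.node (.I .tdb (.c 2105609 (.c 40 (.c 16 (.c 48 .nil)))) (.b 24 .nil)) (.I .tdb (.c 0 (.c 21307459 (.c 16 (.c 48 .nil)))) (.b 24 .nil))) (.node (.I .tdb (.c 32 (.c 13748194865974800073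 (.c 16 (.c 48 .nil)))) .nil) (.I .tdb (.c 8 (.c 1310925001 (.c 16 (.c 48 .nil)))) (.b 32 .nil)))))) (.node (.node (.node (.node (.I .tdb (.c 24 (.c 12801 (.c 16 (.c 48 .nil)))) (.b 8 (.b 32 .nil))) (.I .tdb (.c 0 (.c 40 (.c 16 (.c 48 .nil)))) (.b 24 (.b 8 (.b 32 .nil))))) (.node (.I .tdb (.c 8 (.c 169943369 (.c 16 (.c 48 .nil)))) (.b 32 .nil)) (.I .tdb (.c 4609 (.c 40 (.c 16 (.c 48 .nil)))) (.b 8 (.b 32 .nil))))) (.node (.node (.I .tdb (.c 0 (.c 24 (.c 48 (.c 16 .nil)))) (.b 40 (.b 8 (.b 32 .nil)))) (.I .tdb (.c 32 (.c 13748192181200529225 (.c 16 (.c 48 .nil)))) .nil)) (.node (.I .tdb (.c 24 (.c 1310924873 (.c 16 (.c 48 .nil)))) (.b 32 .nil)) (.I .tdb (.c 8 (.c 12801 (.c 16 (.c 48 .nil)))) (.b 24 (.b 32 .nil)))))) (.node (.node (.node (.I .tdb (.c 0 (.c 40 (.c 16 (.c 48 .nil)))) (.b 8 (.b 24 (.b 32 .nil)))) (.I .tdb (.c 24 (.c 2105673 (.c 16 (.c 48 .nil)))) (.b 32 .nil))) (.node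 (.I .tdb (.c 32 (.c 3423058053193993 (.c 16 (.c 48 .nil)))) .nil) (.I .tdb (.c 8 (.c 4609 (.c 16 (.c 48 .nil)))) (.b 40 (.b 32 .nil))))) (.node (.node (.I .tdb (.c 0 (.c 24 (.c 48 (.c 16 .nil)))) (.b 8 (.b 40 (.b 32 .nil)))) (.I .tdb (.c 32 (.c 35466557976521 (.c 16 (.c 48 .nil)))) .nil)) (.node (.I .tdb (.c 32 (.c 3561367726845001 (.c 16 (.c 48 .nil)))) .nil) (.I .tdb (.c 0 (.c 21099075 (.c 16 (.c 48 .nil)))) (.b 32 .nil))))))))

noncomputable def c2_47 : Tr := (.node (.node (.node (.node (.node (.node (.I .tdb (.c 8 (.c 169943305 (.c 16 (.c 48 .nil)))) (.b 40 .nil)) (.I .tdb (.c 4609 (.c 32 (.c 16 (.c 48 .nil)))) (.b 8 (.b 40 .nil)))) (.node (.I .tdb (.c 0 (.c 24 (.c 48 (.c 16 .nil)))) (.b 32 (.b 8 (.b 40 .nil)))) (.I .tdb (.c 8 (.c 8786435 (.c 16 (.c 48 .nil)))) (.b 40 .nil)))) (.node (.node (.I .tdb (.c 40 (.c 2306969673777850185 (.c 16 (.c 48 .nil)))) .nil) (.I .tdb (.c 24 (.c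 537002057 (.c 16 (.c 48 .nil)))) (.b 40 .nil))) (.node (.I .tdb (.c 8 (.c 8193 (.c 16 (.c 48 .nil)))) (.b 24 (.b 40 .nil))) (.I .tdb (.c 0 (.c 32 (.c 16 (.c 48 .nil)))) (.b 8 (.b 24 (.b 40 .nil))))))) (.node (.node (.node (.I .tdb (.c 40 (.c 580749782704393 (.c 16 (.c 48 .nil)))) .nil) (.I .tdb (.c 8 (.c 4609 (.c 16 (.c 48 .nil)))) (.b 32 (.b 40 .nil)))) (.node (.I .tdb (.c 0 (.c 24 (.c 48 (.c 16 .nil)))) (.b 8 (.b 32 (.b 40 .nil)))) (.I .tdb (.c 40 (.c 35466557976457 (.c 16 (.c 48 .nil)))) .nil))) (.node (.node (.I .tdb (.c 32 (.c 2105545 (.c 16 (.c 48 .nil)))) (.b 40 .nil)) (.I .tdb (.c 8193 (.c 21099075 (.c 16 (.c 48 .nil)))) .nil)) (.node (.I .tdb (.c 0 (.c 32 (.c 16 (.c 48 .nil)))) (.b 21099075 .nil)) (.I .tdb (.c 4609 (.c 21307459 (.c 16 (.c 48 .nil)))) .nil))))) (.node (.node (.node (.node (.I .tdb (.c 0 (.c 24 (.c 48 (.c 16 .nil)))) (.b 21307459 .nil)) (.I .tdb (.c 8 (.c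 48 (.c 16 (.c 24 .nil)))) (.b 1310925065 .nil))) (.node (.I .tdb (.c 8 (.c 48 (.c 16 (.c 32 .nil)))) (.b 12801 (.b 24 .nil))) (.I .tdb (.c 8 (.c 48 (.c 16 (.c 24 .nil)))) (.b 537002313 .nil)))) (.node (.node (.I .tdb (.c 40 (.c 8193 (.c 18497 (.c 16 .nil)))) (.b 24 .nil)) (.I .tdb (.c 0 (.c 32 (.c 18497 (.c 16 .nil)))) (.b 40 (.b 24 .nil)))) (.node (.I .tdb (.c 8 (.c 48 (.c 16 (.c 32 .nil)))) (.b 0 (.b 40 (.b 24 .nil)))) (.I .tdb (.c 8 (.c 48 (.c 16 (.c 24 .nil)))) (.b 21307395 .nil))))) (.node (.node (.node (.I .tdb (.c 32 (.c 1310925001 (.c 18497 (.c 16 .nil)))) .nil) (.I .tdb (.c 8 (.c 48 (.c 16 (.c 32 .nil)))) (.b 1310925001 .nil))) (.node (.I .tdb (.c 24 (.c 12801 (.c 18497 (.c 16 .nil)))) (.b 32 .nil)) (.I .tdb (.c 8 (.c 48 (.c 16 (.c 24 .nil)))) (.b 12801 (.b 32 .nil))))) (.node (.node (.I .tdb (.c 8 (.c 48 (.c 16 (.c 40 .nil)))) (.b 0 (.b 24 (.b 32 .nil)))) (.I .tdb (.c 32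 (.c 169943369 (.c 18497 (.c 16 .nil)))) .nil)) (.node (.I .tdb (.c 8 (.c 48 (.c 16 (.c 32 .nil)))) (.b 169943369 .nil)) (.I .tdb (.c 8 (.c 48 (.c 0 (.c 16 .nil)))) (.b 24 (.b 40 (.b 32 .nil))))))))) (.node (.node (.node (.node (.node (.I .tdb (.c 8 (.c 48 (.c 16 (.c 24 .nil)))) (.b 0 (.b 40 (.b 32 .nil)))) (.I .tdb (.c 40 (.c 537002185 (.c 18497 (.c 16 .nil)))) .nil)) (.node (.I .tdb (.c 24 (.c 8193 (.c 18497 (.c 16 .nil)))) (.b 40 .nil)) (.I .tdb (.c 8 (.c 48 (.c 0 (.c 16 .nil)))) (.b 32 (.b 24 (.b 40 .nil)))))) (.node (.node (.I .tdb (.c 8 (.c 48 (.c 16 (.c 32 .nil)))) (.b 0 (.b 24 (.b 40 .nil)))) (.I .tdb (.c 8 (.c 48 (.c 16 (.c 40 .nil)))) (.b 169943305 .nil))) (.node (.I .tdb (.c 8 (.c 48 (.c 0 (.c 16 .nil)))) (.b 24 (.b 32 (.b 40 .nil)))) (.I .tdb (.c 8 (.c 48 (.c 16 (.c 32 .nil)))) (.b 4609 (.b 40 .nil)))))) (.node (.node (.node (.I .tdb (.c 0 (.c 21307587 (.c 18497 (.c 16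 .nil)))) .nil) (.I .tdb (.c 8 (.c 16 (.c 48 (.c 13748196208362033993 .nil)))) .nil)) (.node (.I .tdb (.c 8 (.c 16 (.c 48 (.c 13748194865974800265 .nil)))) .nil) (.I .tdb (.c 8 (.c 16 (.c 48 (.c 231045989336561545 .nil)))) .nil))) (.node (.node (.I .tdb (.c 8 (.c 16 (.c 48 (.c 617611520074121 .nil)))) .nil) (.I .tdb (.c 16 (.c 48 (.c 8 (.c 24 .nil)))) (.b 1310925065 .nil))) (.node (.I .tdb (.c 16 (.c 48 (.c 8 (.c 32 .nil)))) (.b 12801 (.b 24 .nil))) (.I .tdb (.c 0 (.c 40 (.c 18561 (.c 8 .nil)))) (.b 32 (.b 24 .nil))))))) (.node (.node (.node (.node (.I .tdb (.c 16 (.c 48 (.c 0 (.c 8 .nil)))) (.b 40 (.b 32 (.b 24 .nil)))) (.I .tdb (.c 16 (.c 48 (.c 8 (.c 40 .nil)))) (.b 0 (.b 32 (.b 24 .nil))))) (.node (.I .tdb (.c 16 (.c 48 (.c 8 (.c 24 .nil)))) (.b 537002313 .nil)) (.I .tdb (.c 16 (.c 48 (.c 8 (.c 24 .nil)))) (.b 21307395 .nil)))) (.node (.node (.I .tdb (.c 16 (.c 48 (.c 8 (.c 21307395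 .nil)))) (.b 24 .nil)) (.I .tdb (.c 32 (.c 1310925001 (.c 18561 (.c 8 .nil)))) .nil)) (.node (.I .tdb (.c 16 (.c 48 (.c 8 (.c 32 .nil)))) (.b 1310925001 .nil)) (.I .tdb (.c 24 (.c 12801 (.c 18561 (.c 8 .nil)))) (.b 32 .nil))))) (.node (.node (.node (.I .tdb (.c 16 (.c 48 (.c 8 (.c 40 .nil)))) (.b 0 (.b 24 (.b 32 .nil)))) (.I .tdb (.c 16 (.c 48 (.c 8 (.c 32 .nil)))) (.b 169943369 .nil))) (.node (.I .tdb (.c 4609 (.c 40 (.c 18561 (.c 8 .nil)))) (.b 32 .nil)) (.I .tdb (.c 0 (.c 24 (.c 18561 (.c 8 .nil)))) (.b 40 (.b 32 .nil))))) (.node (.node (.I .tdb (.c 16 (.c 48 (.c 8 (.c 40 .nil)))) (.b 4609 (.b 32 .nil))) (.I .tdb (.c 32 (.c 21099011 (.c 18561 (.c 8 .nil)))) .nil)) (.node (.I .tdb (.c 40 (.c 537002185 (.c 18561 (.c 8 .nil)))) .nil) (.I .tdb (.c 24 (.c 8193 (.c 18561 (.c 8 .nil)))) (.b 40 .nil))))))))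

noncomputable def c2_48 : Tr := (.node (.node (.node (.node (.node (.node (.I .tdb (.c 16 (.c 48 (.c 8 (.c 24 .nil)))) (.b 8193 (.b 40 .nil))) (.I .tdb (.c 0 (.c 32 (.c 18561 (.c 8 .nil)))) (.b 24 (.b 40 .nil)))) (.node (.I .tdb (.c 16 (.c 48 (.c 8 (.c 32 .nil)))) (.b 0 (.b 24 (.b 40 .nil)))) (.I .tdb (.c 16 (.c 48 (.c 8 (.c 40 .nil)))) (.b 169943305 .nil)))) (.node (.node (.I .tdb (.c 4609 (.c 32 (.c 18561 (.c 8 .nil)))) (.b 40 .nil)) (.I .tdb (.c 0 (.c 24 (.c 18561 (.c 8 .nil)))) (.b 32 (.b 40 .nil)))) (.node (.I .tdb (.c 16 (.c 48 (.c 8 (.c 8786435 .nil)))) (.b 40 .nil)) (.I .tdb (.c 16 (.c 48 (.c 8 (.c 40 .nil)))) (.b 8786435 .nil))))) (.node (.node (.node (.I .tdb (.c 16 (.c 48 (.c 0 (.c 8 .nil)))) (.b 21307587 .nil)) (.I .tdb (.c 16 (.c 48 (.c 8 (.c 21307587 .nil)))) (.b 0 .nil))) (.node (.I .tdb (.c 40 (.c 8193 (.c 24 (.c 48 .nil)))) (.b 16 (.b 8 .nil))) (.I .tdb (.c 0 (.c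 32 (.c 24 (.c 48 .nil)))) (.b 40 (.b 16 (.b 8 .nil)))))) (.node (.node (.I .tdb (.c 8 (.c 3632040653488329 (.c 24 (.c 48 .nil)))) .nil) (.I .tdb (.c 16 (.c 21307395 (.c 24 (.c 48 .nil)))) (.b 8 .nil))) (.node (.I .tdb (.c 32 (.c 1310924937 (.c 24 (.c 48 .nil)))) (.b 8 .nil)) (.I .tdb (.c 16 (.c 12801 (.c 24 (.c 48 .nil)))) (.b 32 (.b 8 .nil))))))) (.node (.node (.node (.node (.I .tdb (.c 0 (.c 40 (.c 24 (.c 48 .nil)))) (.b 16 (.b 32 (.b 8 .nil)))) (.I .tdb (.c 32 (.c 33587529 (.c 24 (.c 48 .nil)))) (.b 8 .nil))) (.node (.I .tdb (.c 2049 (.c 40 (.c 24 (.c 48 .nil)))) (.b 32 (.b 8 .nil))) (.I .tdb (.c 0 (.c 16 (.c 48 (.c 24 .nil)))) (.b 40 (.b 32 (.b 8 .nil)))))) (.node (.node (.I .tdb (.c 16 (.c 8193 (.c 24 (.c 48 .nil)))) (.b 40 (.b 8 .nil))) (.I .tdb (.c 0 (.c 32 (.c 24 (.c 48 .nil)))) (.b 16 (.b 40 (.b 8 .nil))))) (.node (.I .tdb (.c 40 (.c 33587465 (.c 24 (.c 48 .nil)))) (.b 8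 .nil)) (.I .tdb (.c 2049 (.c 32 (.c 24 (.c 48 .nil)))) (.b 40 (.b 8 .nil)))))) (.node (.node (.node (.I .tdb (.c 0 (.c 16 (.c 48 (.c 24 .nil)))) (.b 32 (.b 40 (.b 8 .nil)))) (.I .tdb (.c 8 (.c 598967998054793 (.c 24 (.c 48 .nil)))) .nil)) (.node (.I .tdb (.c 8652803 (.c 40 (.c 24 (.c 48 .nil)))) (.b 8 .nil)) (.I .tdb (.c 8 (.c 1310925065 (.c 24 (.c 48 .nil)))) (.b 16 .nil)))) (.node (.node (.I .tdb (.c 40 (.c 8193 (.c 24 (.c 48 .nil)))) (.b 8 (.b 16 .nil))) (.I .tdb (.c 0 (.c 32 (.c 24 (.c 48 .nil)))) (.b 40 (.b 8 (.b 16 .nil))))) (.node (.I .tdb (.c 8 (.c 21307395 (.c 24 (.c 48 .nil)))) (.b 16 .nil)) (.I .tdb (.c 32 (.c 1310924873 (.c 24 (.c 48 .nil)))) (.b 16 .nil))))))) (.node (.node (.node (.node (.node (.I .tdb (.c 8 (.c 12801 (.c 24 (.c 48 .nil)))) (.b 32 (.b 16 .nil))) (.I .tdb (.c 0 (.c 40 (.c 24 (.c 48 .nil)))) (.b 8 (.b 32 (.b 16 .nil))))) (.node (.I .tdb (.c 16 (.c 35470870263689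 (.c 24 (.c 48 .nil)))) .nil) (.I .tdb (.c 32 (.c 2105673 (.c 24 (.c 48 .nil)))) (.b 16 .nil)))) (.node (.node (.I .tdb (.c 16 (.c 3423058053194057 (.c 24 (.c 48 .nil)))) .nil) (.I .tdb (.c 32 (.c 20685315 (.c 24 (.c 48 .nil)))) (.b 16 .nil))) (.node (.I .tdb (.c 40 (.c 537002057 (.c 24 (.c 48 .nil)))) (.b 16 .nil)) (.I .tdb (.c 16 (.c 35468714087369 (.c 24 (.c 48 .nil)))) .nil)))) (.node (.node (.node (.I .tdb (.c 513 (.c 32 (.c 48 (.c 24 .nil)))) (.b 40 (.b 16 .nil))) (.I .tdb (.c 0 (.c 8 (.c 24 (.c 48 .nil)))) (.b 32 (.b 40 (.b 16 .nil))))) (.node (.I .tdb (.c 16 (.c 3632062472293449 (.c 24 (.c 48 .nil)))) .nil) (.I .tdb (.c 8 (.c 1310924937 (.c 24 (.c 48 .nil)))) (.b 32 .nil)))) (.node (.node (.I .tdb (.c 16 (.c 12801 (.c 24 (.c 48 .nil)))) (.b 8 (.b 32 .nil))) (.I .tdb (.c 0 (.c 40 (.c 24 (.c 48 .nil)))) (.b 16 (.b 8 (.b 32 .nil))))) (.node (.I .tdb (.c 32 (.c 9024976834606793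 (.c 24 (.c 48 .nil)))) .nil) (.I .tdb (.c 2049 (.c 40 (.c 24 (.c 48 .nil)))) (.b 8 (.b 32 .nil))))))) (.node (.node (.node (.node (.I .tdb (.c 0 (.c 16 (.c 48 (.c 24 .nil)))) (.b 40 (.b 8 (.b 32 .nil)))) (.I .tdb (.c 16 (.c 1310924873 (.c 24 (.c 48 .nil)))) (.b 32 .nil))) (.node (.I .tdb (.c 513 (.c 40 (.c 24 (.c 48 .nil)))) (.b 16 (.b 32 .nil))) (.I .tdb (.c 0 (.c 8 (.c 24 (.c 48 .nil)))) (.b 40 (.b 16 (.b 32 .nil)))))) (.node (.node (.I .tdb (.c 32 (.c 3423058053193929 (.c 24 (.c 48 .nil)))) .nil) (.I .tdb (.c 16 (.c 20685315 (.c 24 (.c 48 .nil)))) (.b 32 .nil))) (.node (.I .tdb (.c 40 (.c 33587273 (.c 24 (.c 48 .nil)))) (.b 32 .nil)) (.I .tdb (.c 8 (.c 2049 (.c 24 (.c 48 .nil)))) (.b 40 (.b 32 .nil)))))) (.node (.node (.node (.I .tdb (.c 0 (.c 16 (.c 48 (.c 24 .nil)))) (.b 8 (.b 40 (.b 32 .nil)))) (.I .tdb (.c 32 (.c 35464401931209 (.c 24 (.c 48 .nil)))) .nil)) (.node (.I .tdb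 (.c 8 (.c 537002121 (.c 24 (.c 48 .nil)))) (.b 40 .nil)) (.I .tdb (.c 16 (.c 8193 (.c 24 (.c 48 .nil)))) (.b 8 (.b 40 .nil))))) (.node (.node (.I .tdb (.c 0 (.c 32 (.c 24 (.c 48 .nil)))) (.b 16 (.b 8 (.b 40 .nil)))) (.I .tdb (.c 8 (.c 8652803 (.c 24 (.c 48 .nil)))) (.b 40 .nil))) (.node (.I .tdb (.c 40 (.c 35468714087177 (.c 24 (.c 48 .nil)))) .nil) (.I .tdb (.c 16 (.c 2105609 (.c 24 (.c 48 .nil)))) (.b 40 .nil))))))))

noncomputable def c2_49 : Tr := (.node (.node (.node (.node (.node (.node (.I .tdb (.c 513 (.c 32 (.c 48 (.c 24 .nil)))) (.b 16 (.b 40 .nil))) (.I .tdb (.c 0 (.c 8 (.c 24 (.c 48 .nil)))) (.b 32 (.b 16 (.b 40 .nil))))) (.node (.I .tdb (.c 40 (.c 580749782704329 (.c 24 (.c 48 .nil)))) .nil) (.I .tdb (.c 16 (.c 8520195 (.c 24 (.c 48 .nil)))) (.b 40 .nil)))) (.node (.node (.I .tdb (.c 40 (.c 35464401931145 (.c 24 (.c 48 .nil)))) .nil) (.I .tdb (.c 32 (.c 2105481 (.c 24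 (.c 48 .nil)))) (.b 40 .nil))) (.node (.I .tdb (.c 32 (.c 557571 (.c 24 (.c 48 .nil)))) (.b 40 .nil)) (.I .tdb (.c 16 (.c 1310925065 (.c 18497 (.c 24 .nil)))) .nil)))) (.node (.node (.node (.I .tdb (.c 32 (.c 12801 (.c 18497 (.c 24 .nil)))) (.b 16 .nil)) (.I .tdb (.c 8 (.c 48 (.c 24 (.c 32 .nil)))) (.b 12801 (.b 16 .nil)))) (.node (.I .tdb (.c 8 (.c 48 (.c 0 (.c 24 .nil)))) (.b 40 (.b 32 (.b 16 .nil)))) (.I .tdb (.c 40 (.c 8193 (.c 18497 (.c 24 .nil)))) (.b 16 .nil)))) (.node (.node (.I .tdb (.c 0 (.c 32 (.c 18497 (.c 24 .nil)))) (.b 40 (.b 16 .nil))) (.I .tdb (.c 32 (.c 1310924937 (.c 18497 (.c 24 .nil)))) .nil)) (.node (.I .tdb (.c 8 (.c 48 (.c 24 (.c 32 .nil)))) (.b 1310924937 .nil)) (.I .tdb (.c 0 (.c 40 (.c 18497 (.c 24 .nil)))) (.b 16 (.b 32 .nil))))))) (.node (.node (.node (.node (.I .tdb (.c 8 (.c 48 (.c 0 (.c 24 .nil)))) (.b 40 (.b 16 (.b 32 .nil)))) (.I .tdb (.c 8 (.c 48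 (.c 24 (.c 40 .nil)))) (.b 0 (.b 16 (.b 32 .nil))))) (.node (.I .tdb (.c 2049 (.c 40 (.c 18497 (.c 24 .nil)))) (.b 32 .nil)) (.I .tdb (.c 0 (.c 16 (.c 18497 (.c 24 .nil)))) (.b 40 (.b 32 .nil))))) (.node (.node (.I .tdb (.c 8 (.c 48 (.c 0 (.c 24 .nil)))) (.b 16 (.b 40 (.b 32 .nil)))) (.I .tdb (.c 32 (.c 20891651 (.c 18497 (.c 24 .nil)))) .nil)) (.node (.I .tdb (.c 8 (.c 48 (.c 24 (.c 32 .nil)))) (.b 20891651 .nil)) (.I .tdb (.c 40 (.c 537002121 (.c 18497 (.c 24 .nil)))) .nil)))) (.node (.node (.node (.I .tdb (.c 8 (.c 48 (.c 24 (.c 40 .nil)))) (.b 537002121 .nil)) (.I .tdb (.c 16 (.c 8193 (.c 18497 (.c 24 .nil)))) (.b 40 .nil))) (.node (.I .tdb (.c 8 (.c 48 (.c 0 (.c 24 .nil)))) (.b 32 (.b 16 (.b 40 .nil)))) (.I .tdb (.c 8 (.c 48 (.c 24 (.c 32 .nil)))) (.b 0 (.b 16 (.b 40 .nil)))))) (.node (.node (.I .tdb (.c 8 (.c 48 (.c 24 (.c 32 .nil)))) (.b 2049 (.b 40 .nil))) (.I .tdb (.c 8652803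 (.c 40 (.c 18497 (.c 24 .nil)))) .nil)) (.node (.I .tdb (.c 8 (.c 48 (.c 24 (.c 40 .nil)))) (.b 8652803 .nil)) (.I .tdb (.c 8 (.c 48 (.c 24 (.c 21307523 .nil)))) (.b 0 .nil))))))) (.node (.node (.node (.node (.node (.I .tdb (.c 8 (.c 24 (.c 48 (.c 13748193523587632009 .nil)))) .nil) (.I .tdb (.c 8 (.c 24 (.c 48 (.c 9024976834606985 .nil)))) .nil)) (.node (.I .tdb (.c 8 (.c 24 (.c 48 (.c 9024942441010121 .nil)))) .nil) (.I .tdb (.c 24 (.c 48 (.c 8 (.c 32 .nil)))) (.b 12801 (.b 16 .nil))))) (.node (.node (.I .tdb (.c 24 (.c 48 (.c 0 (.c 8 .nil)))) (.b 40 (.b 32 (.b 16 .nil)))) (.I .tdb (.c 16 (.c 537002313 (.c 18625 (.c 8 .nil)))) .nil)) (.node (.I .tdb (.c 24 (.c 48 (.c 8 (.c 32 .nil)))) (.b 0 (.b 40 (.b 16 .nil)))) (.I .tdb (.c 24 (.c 48 (.c 8 (.c 16 .nil)))) (.b 21307395 .nil))))) (.node (.node (.node (.I .tdb (.c 32 (.c 1310924937 (.c 18625 (.c 8 .nil)))) .nil) (.I .tdb (.c 24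 (.c 48 (.c 8 (.c 32 .nil)))) (.b 1310924937 .nil))) (.node (.I .tdb (.c 24 (.c 48 (.c 8 (.c 16 .nil)))) (.b 12801 (.b 32 .nil))) (.I .tdb (.c 24 (.c 48 (.c 0 (.c 8 .nil)))) (.b 40 (.b 16 (.b 32 .nil)))))) (.node (.node (.I .tdb (.c 32 (.c 33587529 (.c 18625 (.c 8 .nil)))) .nil) (.I .tdb (.c 24 (.c 48 (.c 8 (.c 32 .nil)))) (.b 33587529 .nil))) (.node (.I .tdb (.c 24 (.c 48 (.c 8 (.c 16 .nil)))) (.b 0 (.b 40 (.b 32 .nil)))) (.I .tdb (.c 32 (.c 20891651 (.c 18625 (.c 8 .nil)))) .nil))))) (.node (.node (.node (.node (.I .tdb (.c 24 (.c 48 (.c 8 (.c 40 .nil)))) (.b 537002121 .nil)) (.I .tdb (.c 0 (.c 32 (.c 18625 (.c 8 .nil)))) (.b 16 (.b 40 .nil)))) (.node (.I .tdb (.c 40 (.c 33587465 (.c 18625 (.c 8 .nil)))) .nil) (.I .tdb (.c 24 (.c 48 (.c 8 (.c 40 .nil)))) (.b 33587465 .nil)))) (.node (.node (.I .tdb (.c 24 (.c 48 (.c 0 (.c 8 .nil)))) (.b 16 (.b 32 (.b 40 .nil)))) (.I .tdb (.c 24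 (.c 48 (.c 8 (.c 32 .nil)))) (.b 2049 (.b 40 .nil)))) (.node (.I .tdb (.c 16 (.c 48 (.c 24 (.c 32 .nil)))) (.b 12801 (.b 8 .nil))) (.I .tdb (.c 16 (.c 48 (.c 24 (.c 40 .nil)))) (.b 0 (.b 32 (.b 8 .nil))))))) (.node (.node (.node (.I .tdb (.c 8 (.c 537002313 (.c 18561 (.c 24 .nil)))) .nil) (.I .jac (.c 8193 (.c 16 (.c 43954883 .nil))) (.b 8 .nil))) (.node (.I .jac (.c 0 (.c 16 (.c 43655363 .nil))) (.b 40 (.b 8 .nil))) (.I .tdb (.c 40 (.c 8193 (.c 18561 (.c 24 .nil)))) (.b 8 .nil)))) (.node (.node (.I .tdb (.c 16 (.c 48 (.c 24 (.c 40 .nil)))) (.b 8193 (.b 8 .nil))) (.I .tdb (.c 0 (.c 32 (.c 18561 (.c 24 .nil)))) (.b 40 (.b 8 .nil)))) (.node (.I .tdb (.c 16 (.c 48 (.c 0 (.c 24 .nil)))) (.b 32 (.b 40 (.b 8 .nil)))) (.I .tdb (.c 16 (.c 48 (.c 24 (.c 32 .nil)))) (.b 0 (.b 40 (.b 8 .nil))))))))))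

noncomputable def c2_50 : Tr := (.node (.node (.node (.node (.node (.node (.I .tdb (.c 8 (.c 21307395 (.c 18561 (.c 24 .nil)))) .nil) (.I .tdb (.c 16 (.c 48 (.c 24 (.c 32 .nil)))) (.b 1310924873 .nil))) (.node (.I .tdb (.c 8 (.c 12801 (.c 18561 (.c 24 .nil)))) (.b 32 .nil)) (.I .jac (.c 0 (.c 21099139 (.c 48 .nil))) (.b 8 (.b 32 .nil))))) (.node (.node (.I .tdb (.c 16 (.c 48 (.c 0 (.c 24 .nil)))) (.b 40 (.b 8 (.b 32 .nil)))) (.I .tdb (.c 513 (.c 40 (.c 18561 (.c 24 .nil)))) (.b 32 .nil))) (.node (.I .tdb (.c 0 (.c 8 (.c 24 (.c 18561 .nil)))) (.b 40 (.b 32 .nil))) (.I .tdb (.c 32 (.c 20685315 (.c 18561 (.c 24 .nil)))) .nil)))) (.node (.node (.node (.I .tdb (.c 16 (.c 48 (.c 24 (.c 32 .nil)))) (.b 20685315 .nil)) (.I .tdb (.c 16 (.c 48 (.c 24 (.c 20685315 .nil)))) (.b 32 .nil))) (.node (.I .jac (.c 0 (.c 8786563 (.c 48 .nil))) (.b 8 (.b 40 .nil))) (.I .tdb (.c 16 (.c 48 (.c 24 (.c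 32 .nil)))) (.b 0 (.b 8 (.b 40 .nil)))))) (.node (.node (.I .tdb (.c 2105609 (.c 40 (.c 18561 (.c 24 .nil)))) .nil) (.I .tdb (.c 513 (.c 32 (.c 18561 (.c 24 .nil)))) (.b 40 .nil))) (.node (.I .tdb (.c 0 (.c 8 (.c 24 (.c 18561 .nil)))) (.b 32 (.b 40 .nil))) (.I .tdb (.c 16 (.c 48 (.c 24 (.c 32 .nil)))) (.b 513 (.b 40 .nil))))))) (.node (.node (.node (.node (.I .tdb (.c 8520195 (.c 40 (.c 18561 (.c 24 .nil)))) .nil) (.I .tdb (.c 16 (.c 48 (.c 24 (.c 8520195 .nil)))) (.b 40 .nil))) (.node (.I .tdb (.c 16 (.c 48 (.c 24 (.c 40 .nil)))) (.b 8520195 .nil)) (.I .tdb (.c 0 (.c 21307459 (.c 18561 (.c 24 .nil)))) .nil))) (.node (.node (.I .tdb (.c 16 (.c 48 (.c 24 (.c 21307459 .nil)))) (.b 0 .nil)) (.I .tdb (.c 16 (.c 24 (.c 48 (.c 13748196208362033865 .nil)))) .nil)) (.node (.I .tdb (.c 16 (.c 24 (.c 48 (.c 2306971873338799817 .nil)))) .nil) (.I .tdb (.c 16 (.c 24 (.c 48 (.c 3632040653488265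 .nil)))) .nil)))) (.node (.node (.node (.I .tdb (.c 16 (.c 24 (.c 48 (.c 13748192181200529289 .nil)))) .nil) (.I .tdb (.c 16 (.c 24 (.c 48 (.c 3423058053194057 .nil)))) .nil)) (.node (.I .tdb (.c 16 (.c 24 (.c 48 (.c 2306969673777850313 .nil)))) .nil) (.I .tdb (.c 16 (.c 24 (.c 48 (.c 35468714087369 .nil)))) .nil))) (.node (.node (.I .tdb (.c 8 (.c 1310925065 (.c 18625 (.c 16 .nil)))) .nil) (.I .jac (.c 12801 (.c 43655299 (.c 24 .nil))) (.b 8 .nil))) (.node (.I .jac (.c 0 (.c 43954819 (.c 24 .nil))) (.b 32 (.b 8 .nil))) (.I .tdb (.c 32 (.c 12801 (.c 18625 (.c 16 .nil)))) (.b 8 .nil))))))) (.node (.node (.node (.node (.node (.I .tdb (.c 24 (.c 48 (.c 16 (.c 32 .nil)))) (.b 12801 (.b 8 .nil))) (.I .tdb (.c 24 (.c 48 (.c 0 (.c 16 .nil)))) (.b 40 (.b 32 (.b 8 .nil))))) (.node (.I .tdb (.c 24 (.c 48 (.c 16 (.c 40 .nil)))) (.b 0 (.b 32 (.b 8 .nil)))) (.I .jac (.c 8193 (.c 43954819 (.c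 24 .nil))) (.b 8 .nil)))) (.node (.node (.I .jac (.c 0 (.c 43655299 (.c 24 .nil))) (.b 40 (.b 8 .nil))) (.I .tdb (.c 40 (.c 8193 (.c 18625 (.c 16 .nil)))) (.b 8 .nil))) (.node (.I .tdb (.c 0 (.c 32 (.c 18625 (.c 16 .nil)))) (.b 40 (.b 8 .nil))) (.I .tdb (.c 24 (.c 48 (.c 0 (.c 16 .nil)))) (.b 32 (.b 40 (.b 8 .nil))))))) (.node (.node (.node (.I .tdb (.c 8 (.c 21307395 (.c 18625 (.c 16 .nil)))) .nil) (.I .tdb (.c 24 (.c 48 (.c 16 (.c 21307395 .nil)))) (.b 8 .nil))) (.node (.I .tdb (.c 24 (.c 48 (.c 16 (.c 32 .nil)))) (.b 1310924873 .nil)) (.I .tdb (.c 8 (.c 12801 (.c 18625 (.c 16 .nil)))) (.b 32 .nil)))) (.node (.node (.I .jac (.c 0 (.c 43954819 (.c 24 .nil))) (.b 8 (.b 32 .nil))) (.I .tdb (.c 0 (.c 40 (.c 18625 (.c 16 .nil)))) (.b 8 (.b 32 .nil)))) (.node (.I .tdb (.c 24 (.c 48 (.c 0 (.c 16 .nil)))) (.b 40 (.b 8 (.b 32 .nil)))) (.I .tdb (.c 24 (.c 48 (.c 16 (.c 40 .nil)))) (.b 0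 (.b 8 (.b 32 .nil)))))))) (.node (.node (.node (.node (.I .tdb (.c 513 (.c 40 (.c 18625 (.c 16 .nil)))) (.b 32 .nil)) (.I .tdb (.c 0 (.c 8 (.c 16 (.c 18625 .nil)))) (.b 40 (.b 32 .nil)))) (.node (.I .tdb (.c 24 (.c 48 (.c 0 (.c 16 .nil)))) (.b 8 (.b 40 (.b 32 .nil)))) (.I .tdb (.c 24 (.c 48 (.c 16 (.c 40 .nil)))) (.b 513 (.b 32 .nil))))) (.node (.node (.I .jac (.c 0 (.c 43655299 (.c 24 .nil))) (.b 8 (.b 40 .nil))) (.I .tdb (.c 0 (.c 32 (.c 18625 (.c 16 .nil)))) (.b 8 (.b 40 .nil)))) (.node (.I .tdb (.c 24 (.c 48 (.c 0 (.c 16 .nil)))) (.b 32 (.b 8 (.b 40 .nil)))) (.I .tdb (.c 24 (.c 48 (.c 0 (.c 16 .nil)))) (.b 8 (.b 32 (.b 40 .nil))))))) (.node (.node (.node (.I .tdb (.c 24 (.c 48 (.c 16 (.c 32 .nil)))) (.b 513 (.b 40 .nil))) (.I .tdb (.c 24 (.c 48 (.c 16 (.c 40 .nil)))) (.b 2105609 .nil))) (.node (.I .tdb (.c 8520195 (.c 40 (.c 18625 (.c 16 .nil)))) .nil) (.I .tdb (.c 24 (.c 48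 (.c 16 (.c 40 .nil)))) (.b 8520195 .nil)))) (.node (.node (.I .tdb (.c 24 (.c 48 (.c 0 (.c 16 .nil)))) (.b 21307459 .nil)) (.I .tdb (.c 32 (.c 12801 (.c 2737112265 (.c 16 .nil)))) .nil)) (.node (.I .tdb (.c 24 (.c 18497 (.c 16 (.c 40 .nil)))) (.b 0 (.b 32 .nil))) (.I .tdb (.c 8 (.c 48 (.c 16 (.c 40 .nil)))) (.b 24 (.b 0 (.b 32 .nil))))))))))

noncomputable def c2_51 : Tr := (.node (.node (.node (.node (.node (.node (.I .tdb (.c 32 (.c 12801 (.c 174695817 (.c 16 .nil)))) .nil) (.I .tdb (.c 4673 (.c 48 (.c 16 (.c 32 .nil)))) (.b 12801 .nil))) (.node (.I .tdb (.c 8 (.c 24 (.c 32 (.c 16 .nil)))) (.b 48 (.b 12801 .nil))) (.I .tdb (.c 0 (.c 40 (.c 174695817 (.c 16 .nil)))) (.b 32 .nil)))) (.node (.node (.I .tdb (.c 4673 (.c 48 (.c 0 (.c 16 .nil)))) (.b 40 (.b 32 .nil))) (.I .tdb (.c 8 (.c 24 (.c 0 (.c 16 .nil)))) (.b 48 (.b 40 (.b 32 .nil))))) (.node (.I .tdb (.c 0 (.c 40 (.c 43356739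 (.c 16 .nil)))) (.b 32 .nil)) (.I .tdb (.c 40 (.c 8193 (.c 2737112265 (.c 16 .nil)))) .nil)))) (.node (.node (.node (.I .tdb (.c 24 (.c 18497 (.c 0 (.c 16 .nil)))) (.b 32 (.b 40 .nil))) (.I .tdb (.c 4673 (.c 48 (.c 0 (.c 16 .nil)))) (.b 32 (.b 40 .nil)))) (.node (.I .tdb (.c 8 (.c 24 (.c 0 (.c 16 .nil)))) (.b 48 (.b 32 (.b 40 .nil)))) (.I .tdb (.c 40 (.c 8193 (.c 43356739 (.c 16 .nil)))) .nil))) (.node (.node (.I .tdb (.c 0 (.c 32 (.c 43356739 (.c 16 .nil)))) (.b 40 .nil)) (.I .tdb (.c 24 (.c 18497 (.c 16 (.c 21307395 .nil)))) .nil)) (.node (.I .tdb (.c 4673 (.c 48 (.c 16 (.c 21307395 .nil)))) .nil) (.I .tdb (.c 8 (.c 24 (.c 21307395 (.c 16 .nil)))) (.b 48 .nil)))))) (.node (.node (.node (.node (.I .tdb (.c 32 (.c 12801 (.c 2737112201 (.c 24 .nil)))) .nil) (.I .tdb (.c 16 (.c 18497 (.c 24 (.c 32 .nil)))) (.b 12801 .nil))) (.node (.I .tdb (.c 0 (.c 40 (.c 2737112201 (.c 24 .nil))))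 (.b 32 .nil)) (.I .tdb (.c 16 (.c 18497 (.c 0 (.c 24 .nil)))) (.b 40 (.b 32 .nil))))) (.node (.node (.I .tdb (.c 16 (.c 18497 (.c 24 (.c 40 .nil)))) (.b 0 (.b 32 .nil))) (.I .tdb (.c 32 (.c 12801 (.c 35718537 (.c 24 .nil)))) .nil)) (.node (.I .tdb (.c 2113 (.c 48 (.c 24 (.c 32 .nil)))) (.b 12801 .nil)) (.I .tdb (.c 8 (.c 16 (.c 32 (.c 24 .nil)))) (.b 48 (.b 12801 .nil)))))) (.node (.node (.node (.I .tdb (.c 0 (.c 40 (.c 35718537 (.c 24 .nil)))) (.b 32 .nil)) (.I .tdb (.c 32 (.c 12801 (.c 43059267 (.c 24 .nil)))) .nil)) (.node (.I .tdb (.c 40 (.c 8193 (.c 2737112201 (.c 24 .nil)))) .nil) (.I .tdb (.c 0 (.c 32 (.c 2737112201 (.c 24 .nil)))) (.b 40 .nil)))) (.node (.node (.I .tdb (.c 40 (.c 8193 (.c 35718537 (.c 24 .nil)))) .nil) (.I .tdb (.c 0 (.c 32 (.c 35718537 (.c 24 .nil)))) (.b 40 .nil))) (.node (.I .tdb (.c 2113 (.c 48 (.c 24 (.c 32 .nil)))) (.b 0 (.b 40 .nil))) (.I .tdb (.c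 8 (.c 16 (.c 32 (.c 24 .nil)))) (.b 48 (.b 0 (.b 40 .nil))))))))) (.node (.node (.node (.node (.node (.I .tdb (.c 40 (.c 8193 (.c 43059267 (.c 24 .nil)))) .nil) (.I .tdb (.c 0 (.c 32 (.c 43059267 (.c 24 .nil)))) (.b 40 .nil))) (.node (.I .tdb (.c 16 (.c 18497 (.c 24 (.c 21307395 .nil)))) .nil) (.I .tdb (.c 16 (.c 24 (.c 1310925065 (.c 18497 .nil)))) .nil))) (.node (.node (.I .tdb (.c 16 (.c 24 (.c 21307395 (.c 18497 .nil)))) .nil) (.I .tdb (.c 16 (.c 4673 (.c 1310925065 (.c 48 .nil)))) .nil)) (.node (.I .tdb (.c 0 (.c 40 (.c 16 (.c 48 .nil)))) (.b 32 (.b 4673 .nil))) (.I .tdb (.c 8 (.c 24 (.c 48 (.c 1310925065 .nil)))) (.b 16 .nil))))) (.node (.node (.node (.I .tdb (.c 24 (.c 2113 (.c 1310925065 (.c 48 .nil)))) .nil) (.I .tdb (.c 32 (.c 12801 (.c 24 (.c 48 .nil)))) (.b 2113 .nil))) (.node (.I .tdb (.c 8 (.c 16 (.c 48 (.c 1310925065 .nil)))) (.b 24 .nil)) (.I .tdb (.c 0 (.c 40 (.c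 48 (.c 2803779 .nil)))) (.b 32 .nil)))) (.node (.node (.I .tdb (.c 16 (.c 4673 (.c 537002313 (.c 48 .nil)))) .nil) (.I .tdb (.c 0 (.c 32 (.c 16 (.c 48 .nil)))) (.b 40 (.b 4673 .nil)))) (.node (.I .tdb (.c 8 (.c 24 (.c 48 (.c 537002313 .nil)))) (.b 16 .nil)) (.I .tdb (.c 0 (.c 32 (.c 24 (.c 48 .nil)))) (.b 40 (.b 2113 .nil))))))) (.node (.node (.node (.node (.I .tdb (.c 40 (.c 8193 (.c 48 (.c 2803779 .nil)))) .nil) (.I .tdb (.c 0 (.c 32 (.c 48 (.c 2803779 .nil)))) (.b 40 .nil))) (.node (.I .tdb (.c 16 (.c 4673 (.c 21307395 (.c 48 .nil)))) .nil) (.I .tdb (.c 8 (.c 24 (.c 48 (.c 21307395 .nil)))) (.b 16 .nil)))) (.node (.node (.I .tdb (.c 8 (.c 24 (.c 1310925065 (.c 18561 .nil)))) .nil) (.I .tdb (.c 8 (.c 24 (.c 537002313 (.c 18561 .nil)))) .nil)) (.node (.I .tdb (.c 8 (.c 24 (.c 21307395 (.c 18561 .nil)))) .nil) (.I .tdb (.c 8 (.c 16 (.c 1310925065 (.c 18625 .nil)))) .nil)))) (.node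 (.node (.node (.I .jac (.c 8786499 (.c 16 (.c 48 .nil))) (.b 12801 .nil)) (.I .tdb (.c 24 (.c 18561 (.c 8 (.c 32 .nil)))) (.b 12801 .nil))) (.node (.I .tdb (.c 0 (.c 40 (.c 2756085961 (.c 8 .nil)))) (.b 32 .nil)) (.I .tdb (.c 24 (.c 18561 (.c 8 (.c 40 .nil)))) (.b 0 (.b 32 .nil))))) (.node (.node (.I .tdb (.c 32 (.c 12801 (.c 179513737 (.c 8 .nil)))) .nil) (.I .tdb (.c 4737 (.c 48 (.c 0 (.c 8 .nil)))) (.b 40 (.b 32 .nil)))) (.node (.I .tdb (.c 16 (.c 24 (.c 0 (.c 8 .nil)))) (.b 48 (.b 40 (.b 32 .nil)))) (.I .jac (.c 43954755 (.c 16 (.c 24 .nil))) (.b 0 (.b 32 .nil)))))))))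

noncomputable def c2_52 : Tr := (.node (.node (.node (.node (.node (.node (.I .tdb (.c 32 (.c 12801 (.c 43356803 (.c 8 .nil)))) .nil) (.I .tdb (.c 40 (.c 8193 (.c 2756085961 (.c 8 .nil)))) .nil)) (.node (.I .jac (.c 8786499 (.c 16 (.c 48 .nil))) (.b 0 (.b 40 .nil))) (.I .tdb (.c 24 (.c 18561 (.c 8 (.c 32 .nil)))) (.b 0 (.b 40 .nil))))) (.node (.node (.I .tdb (.c 40 (.c 8193 (.c 179513737 (.c 8 .nil)))) .nil) (.I .tdb (.c 0 (.c 32 (.c 179513737 (.c 8 .nil)))) (.b 40 .nil))) (.node (.I .tdb (.c 4737 (.c 48 (.c 0 (.c 8 .nil)))) (.b 32 (.b 40 .nil))) (.I .tdb (.c 16 (.c 24 (.c 0 (.c 8 .nil)))) (.b 48 (.b 32 (.b 40 .nil))))))) (.node (.node (.node (.I .jac (.c 43655235 (.c 16 (.c 24 .nil))) (.b 0 (.b 40 .nil))) (.I .tdb (.c 4737 (.c 48 (.c 8 (.c 32 .nil)))) (.b 0 (.b 40 .nil)))) (.node (.I .tdb (.c 16 (.c 24 (.c 32 (.c 8 .nil)))) (.b 48 (.b 0 (.b 40 .nil)))) (.I .tdb (.c 40 (.c 8193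 (.c 43356803 (.c 8 .nil)))) .nil))) (.node (.node (.I .tdb (.c 8 (.c 13748194865974800137 (.c 32 (.c 48 .nil)))) .nil) (.I .tdb (.c 4609 (.c 40 (.c 32 (.c 48 .nil)))) (.b 16 (.b 8 .nil)))) (.node (.I .tdb (.c 0 (.c 24 (.c 32 (.c 48 .nil)))) (.b 40 (.b 16 (.b 8 .nil)))) (.I .tdb (.c 8 (.c 13748193523587631945 (.c 32 (.c 48 .nil)))) .nil))))) (.node (.node (.node (.node (.I .tdb (.c 8 (.c 231045467270826953 (.c 32 (.c 48 .nil)))) .nil) (.I .tdb (.c 8 (.c 9024908047478729 (.c 32 (.c 48 .nil)))) .nil)) (.node (.I .tdb (.c 24 (.c 2049 (.c 32 (.c 48 .nil)))) (.b 40 (.b 8 .nil))) (.I .tdb (.c 0 (.c 16 (.c 32 (.c 48 .nil)))) (.b 24 (.b 40 (.b 8 .nil)))))) (.node (.node (.I .tdb (.c 8 (.c 3561389332330569 (.c 32 (.c 48 .nil)))) .nil) (.I .tdb (.c 16 (.c 13748194865974800073 (.c 32 (.c 48 .nil)))) .nil)) (.node (.I .tdb (.c 8 (.c 1310925001 (.c 32 (.c 48 .nil)))) (.b 16 .nil)) (.I .tdb (.c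 8 (.c 169943369 (.c 32 (.c 48 .nil)))) (.b 16 .nil))))) (.node (.node (.node (.I .tdb (.c 16 (.c 13748192181200529225 (.c 32 (.c 48 .nil)))) .nil) (.I .tdb (.c 24 (.c 1310924873 (.c 32 (.c 48 .nil)))) (.b 16 .nil))) (.node (.I .tdb (.c 8 (.c 12801 (.c 32 (.c 48 .nil)))) (.b 24 (.b 16 .nil))) (.I .tdb (.c 24 (.c 2105673 (.c 32 (.c 48 .nil)))) (.b 16 .nil)))) (.node (.node (.I .tdb (.c 24 (.c 20685315 (.c 32 (.c 48 .nil)))) (.b 16 .nil)) (.I .tdb (.c 16 (.c 231045293249046473 (.c 32 (.c 48 .nil)))) .nil)) (.node (.I .tdb (.c 8 (.c 4609 (.c 32 (.c 48 .nil)))) (.b 40 (.b 16 .nil))) (.I .tdb (.c 0 (.c 24 (.c 32 (.c 48 .nil)))) (.b 8 (.b 40 (.b 16 .nil))))))))) (.node (.node (.node (.node (.node (.I .tdb (.c 2105545 (.c 40 (.c 32 (.c 48 .nil)))) (.b 16 .nil)) (.I .tdb (.c 16 (.c 59555558875529 (.c 32 (.c 48 .nil)))) .nil)) (.node (.I .tdb (.c 2728451 (.c 40 (.c 32 (.c 48 .nil)))) (.b 16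 .nil)) (.I .tdb (.c 16 (.c 3561367726845001 (.c 32 (.c 48 .nil)))) .nil))) (.node (.node (.I .tdb (.c 0 (.c 21099075 (.c 32 (.c 48 .nil)))) (.b 16 .nil)) (.I .tdb (.c 24 (.c 13748193523587631817 (.c 32 (.c 48 .nil)))) .nil)) (.node (.I .tdb (.c 24 (.c 9024976834606793 (.c 32 (.c 48 .nil)))) .nil) (.I .tdb (.c 2049 (.c 40 (.c 32 (.c 48 .nil)))) (.b 8 (.b 24 .nil)))))) (.node (.node (.node (.I .tdb (.c 0 (.c 16 (.c 32 (.c 48 .nil)))) (.b 40 (.b 8 (.b 24 .nil)))) (.I .tdb (.c 24 (.c 3491688652046473 (.c 32 (.c 48 .nil)))) .nil)) (.node (.I .tdb (.c 8 (.c 20891651 (.c 32 (.c 48 .nil)))) (.b 24 .nil)) (.I .tdb (.c 24 (.c 13748192181200529161 (.c 32 (.c 48 .nil)))) .nil))) (.node (.node (.I .tdb (.c 0 (.c 40 (.c 32 (.c 48 .nil)))) (.b 8 (.b 16 (.b 24 .nil)))) (.I .tdb (.c 24 (.c 9024839260612553 (.c 32 (.c 48 .nil)))) .nil)) (.node (.I .tdb (.c 40 (.c 33587273 (.c 32 (.c 48 .nil)))) (.b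 24 .nil)) (.I .tdb (.c 2105481 (.c 40 (.c 32 (.c 48 .nil)))) (.b 24 .nil)))))) (.node (.node (.node (.node (.I .tdb (.c 24 (.c 2487083360649 (.c 32 (.c 48 .nil)))) .nil) (.I .tdb (.c 557571 (.c 40 (.c 32 (.c 48 .nil)))) (.b 24 .nil))) (.node (.I .tdb (.c 24 (.c 3491710045129801 (.c 32 (.c 48 .nil)))) .nil) (.I .tdb (.c 0 (.c 20891715 (.c 32 (.c 48 .nil)))) (.b 24 .nil)))) (.node (.node (.I .tdb (.c 2803779 (.c 12801 (.c 32 (.c 48 .nil)))) .nil) (.I .tdb (.c 0 (.c 40 (.c 32 (.c 48 .nil)))) (.b 2803779 .nil))) (.node (.I .tdb (.c 40 (.c 231045467270826697 (.c 32 (.c 48 .nil)))) .nil) (.I .tdb (.c 8 (.c 169943177 (.c 32 (.c 48 .nil)))) (.b 40 .nil))))) (.node (.node (.node (.I .tdb (.c 40 (.c 9024908047478473 (.c 32 (.c 48 .nil)))) .nil) (.I .tdb (.c 8 (.c 33587401 (.c 32 (.c 48 .nil)))) (.b 40 .nil))) (.node (.I .tdb (.c 40 (.c 62886542409865 (.c 32 (.c 48 .nil)))) .nil) (.I .tdb (.c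 40 (.c 231045293249046281 (.c 32 (.c 48 .nil)))) .nil))) (.node (.node (.I .tdb (.c 8 (.c 4609 (.c 32 (.c 48 .nil)))) (.b 16 (.b 40 .nil))) (.I .tdb (.c 0 (.c 24 (.c 32 (.c 48 .nil)))) (.b 8 (.b 16 (.b 40 .nil))))) (.node (.I .tdb (.c 16 (.c 2105545 (.c 32 (.c 48 .nil)))) (.b 40 .nil)) (.I .tdb (.c 513 (.c 24 (.c 48 (.c 32 .nil)))) (.b 16 (.b 40 .nil)))))))))

noncomputable def c2_53 : Tr := (.node (.node (.node (.node (.node (.node (.I .tdb (.c 0 (.c 8 (.c 32 (.c 48 .nil)))) (.b 24 (.b 16 (.b 40 .nil)))) (.I .tdb (.c 16 (.c 2728451 (.c 32 (.c 48 .nil)))) (.b 40 .nil))) (.node (.I .tdb (.c 40 (.c 9024839260612425 (.c 32 (.c 48 .nil)))) .nil) (.I .tdb (.c 24 (.c 33587273 (.c 32 (.c 48 .nil)))) (.b 40 .nil)))) (.node (.node (.I .tdb (.c 24 (.c 2105481 (.c 32 (.c 48 .nil)))) (.b 40 .nil)) (.I .tdb (.c 40 (.c 2487083360521 (.c 32 (.c 48 .nil)))) .nil)) (.node (.I .tdb (.c 0 (.c 2803779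 (.c 32 (.c 48 .nil)))) (.b 40 .nil)) (.I .tdb (.c 0 (.c 40 (.c 18497 (.c 32 .nil)))) (.b 24 (.b 16 .nil)))))) (.node (.node (.node (.I .tdb (.c 8 (.c 48 (.c 0 (.c 32 .nil)))) (.b 40 (.b 24 (.b 16 .nil)))) (.I .tdb (.c 4609 (.c 40 (.c 18497 (.c 32 .nil)))) (.b 16 .nil))) (.node (.I .tdb (.c 0 (.c 24 (.c 32 (.c 18497 .nil)))) (.b 40 (.b 16 .nil))) (.I .tdb (.c 8 (.c 48 (.c 0 (.c 32 .nil)))) (.b 24 (.b 40 (.b 16 .nil)))))) (.node (.node (.I .tdb (.c 8 (.c 48 (.c 32 (.c 40 .nil)))) (.b 4609 (.b 16 .nil))) (.I .tdb (.c 8 (.c 48 (.c 32 (.c 21099011 .nil)))) (.b 16 .nil))) (.node (.I .tdb (.c 16 (.c 12801 (.c 18497 (.c 32 .nil)))) (.b 24 .nil)) (.I .tdb (.c 0 (.c 40 (.c 18497 (.c 32 .nil)))) (.b 16 (.b 24 .nil))))))) (.node (.node (.node (.node (.I .tdb (.c 8 (.c 48 (.c 0 (.c 32 .nil)))) (.b 40 (.b 16 (.b 24 .nil)))) (.I .tdb (.c 24 (.c 33587529 (.c 18497 (.c 32 .nil)))) .nil)) (.node (.I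 .tdb (.c 8 (.c 48 (.c 0 (.c 32 .nil)))) (.b 16 (.b 40 (.b 24 .nil)))) (.I .tdb (.c 24 (.c 20891651 (.c 18497 (.c 32 .nil)))) .nil))) (.node (.node (.I .tdb (.c 8 (.c 48 (.c 32 (.c 20891651 .nil)))) (.b 24 .nil)) (.I .tdb (.c 40 (.c 169943177 (.c 18497 (.c 32 .nil)))) .nil)) (.node (.I .tdb (.c 8 (.c 48 (.c 32 (.c 40 .nil)))) (.b 169943177 .nil)) (.I .tdb (.c 16 (.c 4609 (.c 18497 (.c 32 .nil)))) (.b 40 .nil))))) (.node (.node (.node (.I .tdb (.c 0 (.c 24 (.c 32 (.c 18497 .nil)))) (.b 16 (.b 40 .nil))) (.I .tdb (.c 8 (.c 48 (.c 32 (.c 40 .nil)))) (.b 33587401 .nil))) (.node (.I .tdb (.c 24 (.c 2049 (.c 18497 (.c 32 .nil)))) (.b 40 .nil)) (.I .tdb (.c 0 (.c 16 (.c 32 (.c 18497 .nil)))) (.b 24 (.b 40 .nil))))) (.node (.node (.I .tdb (.c 8 (.c 48 (.c 0 (.c 32 .nil)))) (.b 16 (.b 24 (.b 40 .nil)))) (.I .tdb (.c 40 (.c 2803715 (.c 18497 (.c 32 .nil)))) .nil)) (.node (.I .tdb (.c 0 (.c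 21099139 (.c 18497 (.c 32 .nil)))) .nil) (.I .tdb (.c 8 (.c 48 (.c 0 (.c 32 .nil)))) (.b 21099139 .nil))))))) (.node (.node (.node (.node (.node (.I .tdb (.c 8 (.c 32 (.c 13748194865974800137 (.c 48 .nil)))) .nil) (.I .tdb (.c 8 (.c 32 (.c 13748193523587631945 (.c 48 .nil)))) .nil)) (.node (.I .tdb (.c 8 (.c 32 (.c 231045467270826953 (.c 48 .nil)))) .nil) (.I .tdb (.c 8 (.c 32 (.c 9024908047478729 (.c 48 .nil)))) .nil))) (.node (.node (.I .tdb (.c 8 (.c 32 (.c 3561389332330569 (.c 48 .nil)))) .nil) (.I .tdb (.c 16 (.c 1310925001 (.c 18689 (.c 8 .nil)))) .nil)) (.node (.I .tdb (.c 32 (.c 48 (.c 8 (.c 16 .nil)))) (.b 1310925001 .nil)) (.I .tdb (.c 0 (.c 40 (.c 18689 (.c 8 .nil)))) (.b 24 (.b 16 .nil)))))) (.node (.node (.node (.I .tdb (.c 32 (.c 48 (.c 0 (.c 8 .nil)))) (.b 40 (.b 24 (.b 16 .nil)))) (.I .tdb (.c 32 (.c 48 (.c 8 (.c 40 .nil)))) (.b 0 (.b 24 (.b 16 .nil))))) (.node (.I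 .tdb (.c 4609 (.c 40 (.c 18689 (.c 8 .nil)))) (.b 16 .nil)) (.I .tdb (.c 0 (.c 24 (.c 18689 (.c 8 .nil)))) (.b 40 (.b 16 .nil))))) (.node (.node (.I .tdb (.c 32 (.c 48 (.c 8 (.c 40 .nil)))) (.b 4609 (.b 16 .nil))) (.I .tdb (.c 16 (.c 21099011 (.c 18689 (.c 8 .nil)))) .nil)) (.node (.I .tdb (.c 32 (.c 48 (.c 8 (.c 21099011 .nil)))) (.b 16 .nil)) (.I .tdb (.c 32 (.c 48 (.c 8 (.c 24 .nil)))) (.b 1310924937 .nil)))))) (.node (.node (.node (.node (.I .tdb (.c 16 (.c 12801 (.c 18689 (.c 8 .nil)))) (.b 24 .nil)) (.I .tdb (.c 32 (.c 48 (.c 8 (.c 16 .nil)))) (.b 12801 (.b 24 .nil)))) (.node (.I .tdb (.c 32 (.c 48 (.c 0 (.c 8 .nil)))) (.b 40 (.b 16 (.b 24 .nil)))) (.I .tdb (.c 24 (.c 33587529 (.c 18689 (.c 8 .nil)))) .nil))) (.node (.node (.I .tdb (.c 32 (.c 48 (.c 8 (.c 24 .nil)))) (.b 33587529 .nil)) (.I .tdb (.c 32 (.c 48 (.c 8 (.c 16 .nil)))) (.b 0 (.b 40 (.b 24 .nil))))) (.node (.I .tdb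 (.c 32 (.c 48 (.c 8 (.c 40 .nil)))) (.b 2049 (.b 24 .nil))) (.I .tdb (.c 24 (.c 20891651 (.c 18689 (.c 8 .nil)))) .nil)))) (.node (.node (.node (.I .tdb (.c 16 (.c 4609 (.c 18689 (.c 8 .nil)))) (.b 40 .nil)) (.I .tdb (.c 32 (.c 48 (.c 8 (.c 16 .nil)))) (.b 4609 (.b 40 .nil)))) (.node (.I .tdb (.c 0 (.c 24 (.c 18689 (.c 8 .nil)))) (.b 16 (.b 40 .nil))) (.I .tdb (.c 32 (.c 48 (.c 0 (.c 8 .nil)))) (.b 24 (.b 16 (.b 40 .nil)))))) (.node (.node (.I .tdb (.c 40 (.c 33587401 (.c 18689 (.c 8 .nil)))) .nil) (.I .tdb (.c 32 (.c 48 (.c 8 (.c 40 .nil)))) (.b 33587401 .nil))) (.node (.I .tdb (.c 32 (.c 48 (.c 0 (.c 8 .nil)))) (.b 16 (.b 24 (.b 40 .nil)))) (.I .tdb (.c 32 (.c 48 (.c 8 (.c 16 .nil)))) (.b 0 (.b 24 (.b 40 .nil))))))))))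

noncomputable def c2_54 : Tr := (.node (.node (.node (.node (.node (.node (.I .tdb (.c 32 (.c 48 (.c 8 (.c 40 .nil)))) (.b 2803715 .nil)) (.I .tdb (.c 32 (.c 48 (.c 8 (.c 2803715 .nil)))) (.b 40 .nil))) (.node (.I .tdb (.c 0 (.c 21099139 (.c 18689 (.c 8 .nil)))) .nil) (.I .tdb (.c 32 (.c 48 (.c 8 (.c 21099139 .nil)))) (.b 0 .nil)))) (.node (.node (.I .tdb (.c 8 (.c 1310925001 (.c 18561 (.c 32 .nil)))) .nil) (.I .jac (.c 0 (.c 16 (.c 43954947 .nil))) (.b 24 (.b 8 .nil)))) (.node (.I .tdb (.c 24 (.c 12801 (.c 18561 (.c 32 .nil)))) (.b 8 .nil)) (.I .tdb (.c 0 (.c 40 (.c 18561 (.c 32 .nil)))) (.b 24 (.b 8 .nil)))))) (.node (.node (.node (.I .tdb (.c 16 (.c 48 (.c 0 (.c 32 .nil)))) (.b 40 (.b 24 (.b 8 .nil)))) (.I .tdb (.c 8 (.c 169943369 (.c 18561 (.c 32 .nil)))) .nil)) (.node (.I .jac (.c 4609 (.c 16 (.c 43954947 .nil))) (.b 8 .nil)) (.I .tdb (.c 16 (.c 48 (.c 0 (.c 32 .nil)))) (.b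 24 (.b 40 (.b 8 .nil)))))) (.node (.node (.I .tdb (.c 16 (.c 48 (.c 32 (.c 40 .nil)))) (.b 4609 (.b 8 .nil))) (.I .tdb (.c 8 (.c 12801 (.c 18561 (.c 32 .nil)))) (.b 24 .nil))) (.node (.I .jac (.c 0 (.c 21307523 (.c 48 .nil))) (.b 8 (.b 24 .nil))) (.I .tdb (.c 24 (.c 2105673 (.c 18561 (.c 32 .nil)))) .nil))))) (.node (.node (.node (.node (.I .tdb (.c 16 (.c 48 (.c 32 (.c 40 .nil)))) (.b 169943113 .nil)) (.I .tdb (.c 8 (.c 4609 (.c 18561 (.c 32 .nil)))) (.b 40 .nil))) (.node (.I .tdb (.c 0 (.c 24 (.c 32 (.c 18561 .nil)))) (.b 8 (.b 40 .nil))) (.I .tdb (.c 16 (.c 48 (.c 0 (.c 32 .nil)))) (.b 24 (.b 8 (.b 40 .nil)))))) (.node (.node (.I .tdb (.c 16 (.c 48 (.c 32 (.c 40 .nil)))) (.b 2105545 .nil)) (.I .tdb (.c 2728451 (.c 40 (.c 18561 (.c 32 .nil)))) .nil)) (.node (.I .tdb (.c 16 (.c 48 (.c 32 (.c 2728451 .nil)))) (.b 40 .nil)) (.I .tdb (.c 0 (.c 21099075 (.c 18561 (.c 32 .nil)))) .nil))))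 (.node (.node (.node (.I .tdb (.c 16 (.c 48 (.c 0 (.c 32 .nil)))) (.b 21099075 .nil)) (.I .tdb (.c 16 (.c 48 (.c 32 (.c 21099075 .nil)))) (.b 0 .nil))) (.node (.I .tdb (.c 16 (.c 32 (.c 231045989336561353 (.c 48 .nil)))) .nil) (.I .tdb (.c 16 (.c 32 (.c 35470870263625 (.c 48 .nil)))) .nil))) (.node (.node (.I .tdb (.c 16 (.c 32 (.c 35466557976521 (.c 48 .nil)))) .nil) (.I .tdb (.c 16 (.c 32 (.c 3561367726845001 (.c 48 .nil)))) .nil)) (.node (.I .tdb (.c 8 (.c 1310925001 (.c 18689 (.c 16 .nil)))) .nil) (.I .jac (.c 0 (.c 43954819 (.c 32 .nil))) (.b 24 (.b 8 .nil)))))))) (.node (.node (.node (.node (.node (.I .tdb (.c 32 (.c 48 (.c 16 (.c 24 .nil)))) (.b 12801 (.b 8 .nil))) (.I .tdb (.c 0 (.c 40 (.c 18689 (.c 16 .nil)))) (.b 24 (.b 8 .nil)))) (.node (.I .tdb (.c 32 (.c 48 (.c 16 (.c 40 .nil)))) (.b 0 (.b 24 (.b 8 .nil)))) (.I .tdb (.c 8 (.c 169943369 (.c 18689 (.c 16 .nil)))) .nil)))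 (.node (.node (.I .jac (.c 4609 (.c 43954819 (.c 32 .nil))) (.b 8 .nil)) (.I .tdb (.c 32 (.c 48 (.c 0 (.c 16 .nil)))) (.b 24 (.b 40 (.b 8 .nil))))) (.node (.I .tdb (.c 8 (.c 21099011 (.c 18689 (.c 16 .nil)))) .nil) (.I .tdb (.c 32 (.c 48 (.c 16 (.c 21099011 .nil)))) (.b 8 .nil))))) (.node (.node (.node (.I .tdb (.c 24 (.c 1310924873 (.c 18689 (.c 16 .nil)))) .nil) (.I .tdb (.c 32 (.c 48 (.c 16 (.c 24 .nil)))) (.b 1310924873 .nil))) (.node (.I .tdb (.c 0 (.c 40 (.c 18689 (.c 16 .nil)))) (.b 8 (.b 24 .nil))) (.I .tdb (.c 32 (.c 48 (.c 0 (.c 16 .nil)))) (.b 40 (.b 8 (.b 24 .nil)))))) (.node (.node (.I .tdb (.c 24 (.c 2105673 (.c 18689 (.c 16 .nil)))) .nil) (.I .tdb (.c 32 (.c 48 (.c 16 (.c 24 .nil)))) (.b 2105673 .nil))) (.node (.I .tdb (.c 513 (.c 40 (.c 18689 (.c 16 .nil)))) (.b 24 .nil)) (.I .tdb (.c 0 (.c 8 (.c 16 (.c 18689 .nil)))) (.b 40 (.b 24 .nil))))))) (.node (.node (.node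 (.node (.I .tdb (.c 32 (.c 48 (.c 0 (.c 16 .nil)))) (.b 8 (.b 40 (.b 24 .nil)))) (.I .tdb (.c 32 (.c 48 (.c 16 (.c 40 .nil)))) (.b 513 (.b 24 .nil)))) (.node (.I .tdb (.c 32 (.c 48 (.c 16 (.c 24 .nil)))) (.b 20685315 .nil)) (.I .tdb (.c 32 (.c 48 (.c 16 (.c 20685315 .nil)))) (.b 24 .nil)))) (.node (.node (.I .tdb (.c 2105545 (.c 40 (.c 18689 (.c 16 .nil)))) .nil) (.I .tdb (.c 513 (.c 24 (.c 18689 (.c 16 .nil)))) (.b 40 .nil))) (.node (.I .tdb (.c 0 (.c 8 (.c 16 (.c 18689 .nil)))) (.b 24 (.b 40 .nil))) (.I .tdb (.c 32 (.c 48 (.c 16 (.c 40 .nil)))) (.b 2105545 .nil))))) (.node (.node (.node (.I .tdb (.c 32 (.c 48 (.c 16 (.c 40 .nil)))) (.b 2728451 .nil)) (.I .tdb (.c 0 (.c 21099075 (.c 18689 (.c 16 .nil)))) .nil)) (.node (.I .tdb (.c 32 (.c 48 (.c 0 (.c 16 .nil)))) (.b 21099075 .nil)) (.I .tdb (.c 24 (.c 12801 (.c 2737112329 (.c 16 .nil)))) .nil))) (.node (.node (.I .tdb (.c 32 (.c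 18497 (.c 16 (.c 24 .nil)))) (.b 12801 .nil)) (.I .tdb (.c 8 (.c 48 (.c 16 (.c 24 .nil)))) (.b 32 (.b 12801 .nil)))) (.node (.I .tdb (.c 32 (.c 18497 (.c 0 (.c 16 .nil)))) (.b 40 (.b 24 .nil))) (.I .tdb (.c 8 (.c 48 (.c 16 (.c 40 .nil)))) (.b 32 (.b 0 (.b 24 .nil))))))))))

noncomputable def c2_55 : Tr := (.node (.node (.node (.node (.node (.node (.I .tdb (.c 48 (.c 8257 (.c 16 (.c 40 .nil)))) (.b 0 (.b 24 .nil))) (.I .tdb (.c 8 (.c 32 (.c 16 (.c 40 .nil)))) (.b 48 (.b 0 (.b 24 .nil))))) (.node (.I .tdb (.c 24 (.c 12801 (.c 43655235 (.c 16 .nil)))) .nil) (.I .tdb (.c 0 (.c 40 (.c 43655235 (.c 16 .nil)))) (.b 24 .nil)))) (.node (.node (.I .tdb (.c 0 (.c 24 (.c 2737112329 (.c 16 .nil)))) (.b 40 .nil)) (.I .tdb (.c 8 (.c 48 (.c 16 (.c 40 .nil)))) (.b 32 (.b 4609 .nil)))) (.node (.I .tdb (.c 32 (.c 18497 (.c 16 (.c 21099011 .nil)))) .nil) (.I .tdb (.c 16 (.c 18497 (.c 0 (.c 32 .nil))))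 (.b 40 (.b 24 .nil)))))) (.node (.node (.node (.I .tdb (.c 8 (.c 48 (.c 32 (.c 40 .nil)))) (.b 16 (.b 0 (.b 24 .nil)))) (.I .tdb (.c 24 (.c 12801 (.c 35718537 (.c 32 .nil)))) .nil)) (.node (.I .tdb (.c 0 (.c 40 (.c 35718537 (.c 32 .nil)))) (.b 24 .nil)) (.I .tdb (.c 2113 (.c 48 (.c 0 (.c 32 .nil)))) (.b 40 (.b 24 .nil))))) (.node (.node (.I .tdb (.c 8 (.c 16 (.c 32 (.c 0 .nil)))) (.b 48 (.b 40 (.b 24 .nil)))) (.I .tdb (.c 24 (.c 12801 (.c 43059267 (.c 32 .nil)))) .nil)) (.node (.I .tdb (.c 0 (.c 40 (.c 43059267 (.c 32 .nil)))) (.b 24 .nil)) (.I .tdb (.c 16 (.c 18497 (.c 0 (.c 32 .nil)))) (.b 24 (.b 40 .nil))))))) (.node (.node (.node (.node (.I .tdb (.c 16 (.c 18497 (.c 32 (.c 40 .nil)))) (.b 4609 .nil)) (.I .tdb (.c 8 (.c 48 (.c 32 (.c 40 .nil)))) (.b 16 (.b 4609 .nil)))) (.node (.I .tdb (.c 2113 (.c 48 (.c 0 (.c 32 .nil)))) (.b 24 (.b 40 .nil))) (.I .tdb (.c 8 (.c 16 (.c 32 (.c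 0 .nil)))) (.b 48 (.b 24 (.b 40 .nil)))))) (.node (.node (.I .tdb (.c 2113 (.c 48 (.c 32 (.c 40 .nil)))) (.b 4609 .nil)) (.I .tdb (.c 8 (.c 16 (.c 32 (.c 40 .nil)))) (.b 48 (.b 4609 .nil)))) (.node (.I .tdb (.c 4609 (.c 40 (.c 43059267 (.c 32 .nil)))) .nil) (.I .tdb (.c 0 (.c 24 (.c 32 (.c 43059267 .nil)))) (.b 40 .nil))))) (.node (.node (.node (.I .tdb (.c 16 (.c 18497 (.c 32 (.c 21099011 .nil)))) .nil) (.I .tdb (.c 16 (.c 32 (.c 1310925001 (.c 18497 .nil)))) .nil)) (.node (.I .tdb (.c 16 (.c 32 (.c 169943369 (.c 18497 .nil)))) .nil) (.I .tdb (.c 16 (.c 32 (.c 21099011 (.c 18497 .nil)))) .nil))) (.node (.node (.I .tdb (.c 16 (.c 8257 (.c 1310925001 (.c 48 .nil)))) .nil) (.I .tdb (.c 24 (.c 12801 (.c 16 (.c 48 .nil)))) (.b 8257 .nil))) (.node (.I .tdb (.c 0 (.c 40 (.c 16 (.c 48 .nil)))) (.b 24 (.b 8257 .nil))) (.I .tdb (.c 8 (.c 32 (.c 1310925001 (.c 48 .nil)))) (.b 16 .nil)))))))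 (.node (.node (.node (.node (.node (.I .tdb (.c 2113 (.c 32 (.c 1310925001 (.c 48 .nil)))) .nil) (.I .tdb (.c 8 (.c 16 (.c 48 (.c 1310925001 .nil)))) (.b 32 .nil))) (.node (.I .tdb (.c 24 (.c 12801 (.c 32 (.c 48 .nil)))) (.b 2113 .nil)) (.I .tdb (.c 24 (.c 12801 (.c 8652867 (.c 48 .nil)))) .nil))) (.node (.node (.I .tdb (.c 16 (.c 8257 (.c 169943369 (.c 48 .nil)))) .nil) (.I .tdb (.c 2113 (.c 32 (.c 169943369 (.c 48 .nil)))) .nil)) (.node (.I .tdb (.c 4609 (.c 40 (.c 8652867 (.c 48 .nil)))) .nil) (.I .tdb (.c 8 (.c 32 (.c 1310925001 (.c 18561 .nil)))) .nil)))) (.node (.node (.node (.I .tdb (.c 24 (.c 12801 (.c 2756086025 (.c 8 .nil)))) .nil) (.I .tdb (.c 0 (.c 40 (.c 2756086025 (.c 8 .nil)))) (.b 24 .nil))) (.node (.I .jac (.c 21307459 (.c 16 (.c 48 .nil))) (.b 0 (.b 24 .nil))) (.I .tdb (.c 32 (.c 18561 (.c 8 (.c 40 .nil)))) (.b 0 (.b 24 .nil))))) (.node (.node (.I .tdb (.c 24 (.c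 12801 (.c 553912713 (.c 8 .nil)))) .nil) (.I .tdb (.c 48 (.c 8321 (.c 0 (.c 8 .nil)))) (.b 40 (.b 24 .nil)))) (.node (.I .tdb (.c 16 (.c 32 (.c 0 (.c 8 .nil)))) (.b 48 (.b 40 (.b 24 .nil)))) (.I .jac (.c 43954755 (.c 16 (.c 32 .nil))) (.b 0 (.b 24 .nil))))))) (.node (.node (.node (.node (.I .tdb (.c 24 (.c 12801 (.c 43655299 (.c 8 .nil)))) .nil) (.I .tdb (.c 0 (.c 40 (.c 43655299 (.c 8 .nil)))) (.b 24 .nil))) (.node (.I .tdb (.c 0 (.c 24 (.c 2756086025 (.c 8 .nil)))) (.b 40 .nil)) (.I .tdb (.c 32 (.c 18561 (.c 0 (.c 8 .nil)))) (.b 24 (.b 40 .nil))))) (.node (.node (.I .jac (.c 21307459 (.c 16 (.c 48 .nil))) (.b 4609 .nil)) (.I .tdb (.c 4609 (.c 40 (.c 43655299 (.c 8 .nil)))) .nil)) (.node (.I .tdb (.c 32 (.c 18561 (.c 8 (.c 21099011 .nil)))) .nil) (.I .tdb (.c 8 (.c 1310924937 (.c 18625 (.c 32 .nil)))) .nil)))) (.node (.node (.node (.I .jac (.c 0 (.c 21307587 (.c 48 .nil))) (.b 16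 (.b 8 .nil))) (.I .jac (.c 0 (.c 24 (.c 43954947 .nil))) (.b 16 (.b 8 .nil)))) (.node (.I .tdb (.c 0 (.c 40 (.c 18625 (.c 32 .nil)))) (.b 16 (.b 8 .nil))) (.I .tdb (.c 24 (.c 48 (.c 0 (.c 32 .nil)))) (.b 40 (.b 16 (.b 8 .nil)))))) (.node (.node (.I .jac (.c 2049 (.c 24 (.c 43954947 .nil))) (.b 8 .nil)) (.I .tdb (.c 2049 (.c 40 (.c 18625 (.c 32 .nil)))) (.b 8 .nil))) (.node (.I .tdb (.c 0 (.c 16 (.c 32 (.c 18625 .nil)))) (.b 40 (.b 8 .nil))) (.I .tdb (.c 24 (.c 48 (.c 0 (.c 32 .nil)))) (.b 16 (.b 40 (.b 8 .nil))))))))))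

noncomputable def c2_56 : Tr := (.node (.node (.node (.node (.node (.node (.I .tdb (.c 8 (.c 12801 (.c 18625 (.c 32 .nil)))) (.b 16 .nil)) (.I .jac (.c 0 (.c 24 (.c 43954947 .nil))) (.b 8 (.b 16 .nil)))) (.node (.I .tdb (.c 0 (.c 40 (.c 18625 (.c 32 .nil)))) (.b 8 (.b 16 .nil))) (.I .tdb (.c 24 (.c 48 (.c 32 (.c 40 .nil)))) (.b 0 (.b 8 (.b 16 .nil)))))) (.node (.node (.I .jac (.c 513 (.c 21307587 (.c 48 .nil))) (.b 16 .nil)) (.I .tdb (.c 513 (.c 40 (.c 18625 (.c 32 .nil)))) (.b 16 .nil))) (.node (.I .tdb (.c 0 (.c 8 (.c 32 (.c 18625 .nil)))) (.b 40 (.b 16 .nil))) (.I .tdb (.c 24 (.c 48 (.c 32 (.c 40 .nil)))) (.b 513 (.b 16 .nil)))))) (.node (.node (.node (.I .tdb (.c 40 (.c 33587273 (.c 18625 (.c 32 .nil)))) .nil) (.I .tdb (.c 24 (.c 48 (.c 32 (.c 40 .nil)))) (.b 33587273 .nil))) (.node (.I .tdb (.c 8 (.c 2049 (.c 18625 (.c 32 .nil)))) (.b 40 .nil)) (.I .tdb (.c 0 (.c 16 (.c 32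 (.c 18625 .nil)))) (.b 8 (.b 40 .nil))))) (.node (.node (.I .tdb (.c 24 (.c 48 (.c 0 (.c 32 .nil)))) (.b 16 (.b 8 (.b 40 .nil)))) (.I .tdb (.c 2105481 (.c 40 (.c 18625 (.c 32 .nil)))) .nil)) (.node (.I .tdb (.c 513 (.c 16 (.c 18625 (.c 32 .nil)))) (.b 40 .nil)) (.I .tdb (.c 0 (.c 8 (.c 32 (.c 18625 .nil)))) (.b 16 (.b 40 .nil))))))) (.node (.node (.node (.node (.I .tdb (.c 24 (.c 32 (.c 13748193523587631817 (.c 48 .nil)))) .nil) (.I .tdb (.c 24 (.c 32 (.c 9024976834606793 (.c 48 .nil)))) .nil)) (.node (.I .tdb (.c 24 (.c 32 (.c 13748192181200529161 (.c 48 .nil)))) .nil) (.I .tdb (.c 24 (.c 32 (.c 35464401931209 (.c 48 .nil)))) .nil))) (.node (.node (.I .tdb (.c 16 (.c 12801 (.c 18689 (.c 24 .nil)))) (.b 8 .nil)) (.I .tdb (.c 8 (.c 33587529 (.c 18689 (.c 24 .nil)))) .nil)) (.node (.I .tdb (.c 32 (.c 48 (.c 0 (.c 24 .nil)))) (.b 16 (.b 40 (.b 8 .nil)))) (.I .tdb (.c 8 (.c 20891651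 (.c 18689 (.c 24 .nil)))) .nil)))) (.node (.node (.node (.I .tdb (.c 16 (.c 1310924873 (.c 18689 (.c 24 .nil)))) .nil) (.I .jac (.c 0 (.c 43954883 (.c 32 .nil))) (.b 8 (.b 16 .nil)))) (.node (.I .tdb (.c 0 (.c 40 (.c 18689 (.c 24 .nil)))) (.b 8 (.b 16 .nil))) (.I .tdb (.c 32 (.c 48 (.c 0 (.c 24 .nil)))) (.b 40 (.b 8 (.b 16 .nil)))))) (.node (.node (.I .tdb (.c 32 (.c 48 (.c 24 (.c 40 .nil)))) (.b 0 (.b 8 (.b 16 .nil)))) (.I .tdb (.c 16 (.c 2105673 (.c 18689 (.c 24 .nil)))) .nil)) (.node (.I .tdb (.c 513 (.c 40 (.c 18689 (.c 24 .nil)))) (.b 16 .nil)) (.I .tdb (.c 0 (.c 8 (.c 24 (.c 18689 .nil)))) (.b 40 (.b 16 .nil)))))))) (.node (.node (.node (.node (.node (.I .tdb (.c 32 (.c 48 (.c 24 (.c 40 .nil)))) (.b 513 (.b 16 .nil))) (.I .tdb (.c 16 (.c 20685315 (.c 18689 (.c 24 .nil)))) .nil)) (.node (.I .tdb (.c 32 (.c 48 (.c 24 (.c 40 .nil)))) (.b 33587273 .nil)) (.I .tdb (.c 2105481 (.c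 40 (.c 18689 (.c 24 .nil)))) .nil))) (.node (.node (.I .tdb (.c 513 (.c 16 (.c 18689 (.c 24 .nil)))) (.b 40 .nil)) (.I .tdb (.c 0 (.c 8 (.c 24 (.c 18689 .nil)))) (.b 16 (.b 40 .nil)))) (.node (.I .tdb (.c 32 (.c 48 (.c 0 (.c 24 .nil)))) (.b 8 (.b 16 (.b 40 .nil)))) (.I .tdb (.c 32 (.c 48 (.c 24 (.c 40 .nil)))) (.b 2105481 .nil))))) (.node (.node (.node (.I .tdb (.c 557571 (.c 40 (.c 18689 (.c 24 .nil)))) .nil) (.I .tdb (.c 32 (.c 48 (.c 24 (.c 557571 .nil)))) (.b 40 .nil))) (.node (.I .tdb (.c 0 (.c 20891715 (.c 18689 (.c 24 .nil)))) .nil) (.I .tdb (.c 32 (.c 48 (.c 0 (.c 24 .nil)))) (.b 20891715 .nil)))) (.node (.node (.I .tdb (.c 32 (.c 48 (.c 24 (.c 20891715 .nil)))) (.b 0 .nil)) (.I .tdb (.c 0 (.c 40 (.c 2737112329 (.c 24 .nil)))) (.b 16 .nil))) (.node (.I .tdb (.c 32 (.c 18497 (.c 0 (.c 24 .nil)))) (.b 40 (.b 16 .nil))) (.I .tdb (.c 32 (.c 18497 (.c 24 (.c 40 .nil)))) (.b 0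 (.b 16 .nil))))))) (.node (.node (.node (.node (.I .tdb (.c 8 (.c 48 (.c 24 (.c 40 .nil)))) (.b 32 (.b 0 (.b 16 .nil)))) (.I .tdb (.c 16 (.c 12801 (.c 545424777 (.c 24 .nil)))) .nil)) (.node (.I .tdb (.c 0 (.c 40 (.c 545424777 (.c 24 .nil)))) (.b 16 .nil)) (.I .tdb (.c 16 (.c 12801 (.c 43655235 (.c 24 .nil)))) .nil))) (.node (.node (.I .tdb (.c 0 (.c 40 (.c 43655235 (.c 24 .nil)))) (.b 16 .nil)) (.I .tdb (.c 32 (.c 18497 (.c 0 (.c 24 .nil)))) (.b 16 (.b 40 .nil)))) (.node (.I .tdb (.c 2049 (.c 40 (.c 43655235 (.c 24 .nil)))) .nil) (.I .tdb (.c 0 (.c 16 (.c 43655235 (.c 24 .nil)))) (.b 40 .nil))))) (.node (.node (.node (.I .tdb (.c 16 (.c 12801 (.c 2737112265 (.c 32 .nil)))) .nil) (.I .tdb (.c 8 (.c 48 (.c 32 (.c 40 .nil)))) (.b 24 (.b 0 (.b 16 .nil))))) (.node (.I .tdb (.c 16 (.c 12801 (.c 174695817 (.c 32 .nil)))) .nil) (.I .tdb (.c 0 (.c 40 (.c 174695817 (.c 32 .nil)))) (.b 16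 .nil)))) (.node (.node (.I .tdb (.c 2049 (.c 40 (.c 2737112265 (.c 32 .nil)))) .nil) (.I .tdb (.c 0 (.c 16 (.c 32 (.c 2737112265 .nil)))) (.b 40 .nil))) (.node (.I .tdb (.c 24 (.c 18497 (.c 0 (.c 32 .nil)))) (.b 16 (.b 40 .nil))) (.I .tdb (.c 24 (.c 18497 (.c 32 (.c 40 .nil)))) (.b 2049 .nil))))))))

noncomputable def c2_57 : Tr := (.node (.node (.node (.node (.node (.node (.I .tdb (.c 0 (.c 16 (.c 32 (.c 43356739 .nil)))) (.b 40 .nil)) (.I .tdb (.c 24 (.c 32 (.c 33587529 (.c 18497 .nil)))) .nil)) (.node (.I .tdb (.c 24 (.c 32 (.c 20891651 (.c 18497 .nil)))) .nil) (.I .tdb (.c 4673 (.c 32 (.c 1310924937 (.c 48 .nil)))) .nil))) (.node (.node (.I .tdb (.c 8 (.c 24 (.c 48 (.c 1310924937 .nil)))) (.b 32 .nil)) (.I .tdb (.c 16 (.c 12801 (.c 32 (.c 48 .nil)))) (.b 4673 .nil))) (.node (.I .tdb (.c 2049 (.c 40 (.c 24 (.c 48 .nil)))) (.b 8257 .nil)) (.I .tdb (.c 0 (.c 16 (.c 48 (.c 24 .nil))))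 (.b 40 (.b 8257 .nil)))))) (.node (.node (.node (.I .tdb (.c 8 (.c 32 (.c 33587529 (.c 48 .nil)))) (.b 24 .nil)) (.I .tdb (.c 8 (.c 24 (.c 48 (.c 33587529 .nil)))) (.b 32 .nil))) (.node (.I .tdb (.c 2049 (.c 40 (.c 8786499 (.c 48 .nil)))) .nil) (.I .tdb (.c 0 (.c 16 (.c 8786499 (.c 48 .nil)))) (.b 40 .nil)))) (.node (.node (.I .tdb (.c 8 (.c 24 (.c 20891651 (.c 18689 .nil)))) .nil) (.I .tdb (.c 24 (.c 48 (.c 8 (.c 16 .nil)))) (.b 32 (.b 12801 .nil)))) (.node (.I .tdb (.c 32 (.c 18625 (.c 0 (.c 8 .nil)))) (.b 40 (.b 16 .nil))) (.I .tdb (.c 32 (.c 18625 (.c 8 (.c 40 .nil)))) (.b 0 (.b 16 .nil))))))) (.node (.node (.node (.node (.I .jac (.c 43954755 (.c 24 (.c 32 .nil))) (.b 0 (.b 16 .nil))) (.I .tdb (.c 48 (.c 8385 (.c 8 (.c 40 .nil)))) (.b 0 (.b 16 .nil)))) (.node (.I .tdb (.c 24 (.c 32 (.c 8 (.c 40 .nil)))) (.b 48 (.b 0 (.b 16 .nil)))) (.I .tdb (.c 16 (.c 12801 (.c 43655363 (.c 8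 .nil)))) .nil))) (.node (.node (.I .tdb (.c 2049 (.c 40 (.c 2775125257 (.c 8 .nil)))) .nil) (.I .tdb (.c 0 (.c 16 (.c 2775125257 (.c 8 .nil)))) (.b 40 .nil))) (.node (.I .jac (.c 8520195 (.c 24 (.c 48 .nil))) (.b 16 (.b 40 .nil))) (.I .tdb (.c 24 (.c 48 (.c 8 (.c 40 .nil)))) (.b 32 (.b 2049 .nil)))))) (.node (.node (.node (.I .tdb (.c 32 (.c 18625 (.c 8 (.c 40 .nil)))) (.b 2049 .nil)) (.I .jac (.c 42762755 (.c 24 (.c 32 .nil))) (.b 16 (.b 40 .nil)))) (.node (.I .tdb (.c 2049 (.c 40 (.c 43655363 (.c 8 .nil)))) .nil) (.I .tdb (.c 32 (.c 18625 (.c 8 (.c 20891651 .nil)))) .nil))) (.node (.node (.I .tdb (.c 8 (.c 12801 (.c 2756086025 (.c 24 .nil)))) .nil) (.I .jac (.c 3632106110100553 (.c 16 (.c 48 .nil))) (.b 8 .nil))) (.node (.I .jac (.c 8786435 (.c 16 (.c 48 .nil))) (.b 40 (.b 8 .nil))) (.I .jac (.c 0 (.c 3561389332330953 (.c 32 .nil))) (.b 8 .nil))))))) (.node (.node (.node (.node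 (.node (.I .jac (.c 0 (.c 18561 (.c 21307587 .nil))) (.b 8 .nil)) (.I .tdb (.c 0 (.c 40 (.c 2756086025 (.c 24 .nil)))) (.b 8 .nil))) (.node (.I .tdb (.c 32 (.c 18561 (.c 24 (.c 40 .nil)))) (.b 0 (.b 8 .nil))) (.I .tdb (.c 8 (.c 12801 (.c 553912713 (.c 24 .nil)))) .nil))) (.node (.node (.I .jac (.c 18433 (.c 21099139 (.c 32 .nil))) (.b 8 .nil)) (.I .jac (.c 18433 (.c 16 (.c 21307587 .nil))) (.b 8 .nil))) (.node (.I .jac (.c 0 (.c 3632106110100681 (.c 48 .nil))) (.b 8 .nil)) (.I .jac (.c 0 (.c 16 (.c 21307587 .nil))) (.b 48 (.b 8 .nil)))))) (.node (.node (.node (.I .tdb (.c 8 (.c 12801 (.c 43655299 (.c 24 .nil)))) .nil) (.I .tdb (.c 0 (.c 40 (.c 43655299 (.c 24 .nil)))) (.b 8 .nil))) (.node (.I .tdb (.c 513 (.c 40 (.c 2756086025 (.c 24 .nil)))) .nil) (.I .tdb (.c 0 (.c 8 (.c 24 (.c 2756086025 .nil)))) (.b 40 .nil)))) (.node (.node (.I .jac (.c 8786435 (.c 16 (.c 48 .nil))) (.b 8 (.b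 40 .nil))) (.I .tdb (.c 32 (.c 18561 (.c 0 (.c 24 .nil)))) (.b 8 (.b 40 .nil)))) (.node (.I .tdb (.c 32 (.c 18561 (.c 24 (.c 40 .nil)))) (.b 513 .nil)) (.I .tdb (.c 16 (.c 48 (.c 24 (.c 40 .nil)))) (.b 32 (.b 513 .nil))))))) (.node (.node (.node (.node (.I .tdb (.c 513 (.c 40 (.c 43655299 (.c 24 .nil)))) .nil) (.I .tdb (.c 32 (.c 18561 (.c 24 (.c 20685315 .nil)))) .nil)) (.node (.I .tdb (.c 48 (.c 8321 (.c 24 (.c 20685315 .nil)))) .nil) (.I .tdb (.c 16 (.c 32 (.c 20685315 (.c 24 .nil)))) (.b 48 .nil)))) (.node (.node (.I .jac (.c 0 (.c 3632084291164617 (.c 24 .nil))) (.b 8 .nil)) (.I .jac (.c 0 (.c 15456298926182601 (.c 24 .nil))) (.b 8 .nil))) (.node (.I .tdb (.c 0 (.c 40 (.c 2756085961 (.c 32 .nil)))) (.b 8 .nil)) (.I .tdb (.c 24 (.c 18561 (.c 0 (.c 32 .nil)))) (.b 40 (.b 8 .nil)))))) (.node (.node (.node (.I .tdb (.c 8 (.c 12801 (.c 179513737 (.c 32 .nil)))) .nil) (.I .jac (.c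 43655171 (.c 16 (.c 24 .nil))) (.b 40 (.b 8 .nil)))) (.node (.I .jac (.c 18433 (.c 21307523 (.c 24 .nil))) (.b 8 .nil)) (.I .tdb (.c 4737 (.c 48 (.c 32 (.c 40 .nil)))) (.b 0 (.b 8 .nil))))) (.node (.node (.I .tdb (.c 16 (.c 24 (.c 32 (.c 40 .nil)))) (.b 48 (.b 0 (.b 8 .nil)))) (.I .tdb (.c 8 (.c 12801 (.c 43356803 (.c 32 .nil)))) .nil)) (.node (.I .tdb (.c 513 (.c 40 (.c 2756085961 (.c 32 .nil)))) .nil) (.I .tdb (.c 0 (.c 8 (.c 32 (.c 2756085961 .nil)))) (.b 40 .nil))))))))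

noncomputable def c2_58 : Tr := (.node (.node (.node (.node (.node (.node (.I .tdb (.c 24 (.c 18561 (.c 0 (.c 32 .nil)))) (.b 8 (.b 40 .nil))) (.I .tdb (.c 24 (.c 18561 (.c 32 (.c 40 .nil)))) (.b 513 .nil))) (.node (.I .tdb (.c 16 (.c 48 (.c 32 (.c 40 .nil)))) (.b 24 (.b 513 .nil))) (.I .jac (.c 43655171 (.c 16 (.c 24 .nil))) (.b 8 (.b 40 .nil))))) (.node (.node (.I .tdb (.c 4737 (.c 48 (.c 32 (.c 40 .nil)))) (.b 513 .nil)) (.I .tdb (.c 16 (.c 24 (.c 32 (.c 40 .nil)))) (.b 48 (.b 513 .nil)))) (.node (.I .tdb (.c 16 (.c 24 (.c 32 (.c 20685315 .nil)))) (.b 48 .nil)) (.I .tdb (.c 24 (.c 32 (.c 2105673 (.c 18561 .nil)))) .nil)))) (.node (.node (.node (.I .tdb (.c 24 (.c 32 (.c 20685315 (.c 18561 .nil)))) .nil) (.I .tdb (.c 24 (.c 8321 (.c 1310924873 (.c 48 .nil)))) .nil)) (.node (.I .tdb (.c 0 (.c 40 (.c 24 (.c 48 .nil)))) (.b 8 (.b 8321 .nil))) (.I .tdb (.c 16 (.c 32 (.c 1310924873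 (.c 48 .nil)))) (.b 24 .nil)))) (.node (.node (.I .tdb (.c 4737 (.c 32 (.c 1310924873 (.c 48 .nil)))) .nil) (.I .tdb (.c 16 (.c 24 (.c 48 (.c 1310924873 .nil)))) (.b 32 .nil))) (.node (.I .tdb (.c 8 (.c 12801 (.c 32 (.c 48 .nil)))) (.b 4737 .nil)) (.I .tdb (.c 0 (.c 40 (.c 8786563 (.c 48 .nil)))) (.b 8 .nil)))))) (.node (.node (.node (.node (.I .tdb (.c 513 (.c 40 (.c 24 (.c 48 .nil)))) (.b 8321 .nil)) (.I .tdb (.c 0 (.c 8 (.c 24 (.c 48 .nil)))) (.b 40 (.b 8321 .nil)))) (.node (.I .tdb (.c 16 (.c 32 (.c 2105673 (.c 48 .nil)))) (.b 24 .nil)) (.I .tdb (.c 24 (.c 8321 (.c 20685315 (.c 48 .nil)))) .nil))) (.node (.node (.I .tdb (.c 16 (.c 32 (.c 20685315 (.c 48 .nil)))) (.b 24 .nil)) (.I .tdb (.c 4737 (.c 32 (.c 20685315 (.c 48 .nil)))) .nil)) (.node (.I .tdb (.c 16 (.c 24 (.c 48 (.c 20685315 .nil)))) (.b 32 .nil)) (.I .tdb (.c 16 (.c 32 (.c 2105673 (.c 18625 .nil)))) .nil)))) (.node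 (.node (.node (.I .tdb (.c 16 (.c 32 (.c 20685315 (.c 18625 .nil)))) .nil) (.I .tdb (.c 16 (.c 24 (.c 2105673 (.c 18689 .nil)))) .nil)) (.node (.I .tdb (.c 16 (.c 24 (.c 20685315 (.c 18689 .nil)))) .nil) (.I .tdb (.c 8 (.c 12801 (.c 2775125257 (.c 16 .nil)))) .nil))) (.node (.node (.I .jac (.c 0 (.c 15456208906582281 (.c 32 .nil))) (.b 8 .nil)) (.I .tdb (.c 0 (.c 40 (.c 2775125257 (.c 16 .nil)))) (.b 8 .nil))) (.node (.I .jac (.c 21307523 (.c 24 (.c 48 .nil))) (.b 0 (.b 8 .nil))) (.I .tdb (.c 24 (.c 48 (.c 16 (.c 40 .nil)))) (.b 32 (.b 0 (.b 8 .nil))))))))) (.node (.node (.node (.node (.node (.I .tdb (.c 32 (.c 18625 (.c 16 (.c 40 .nil)))) (.b 0 (.b 8 .nil))) (.I .jac (.c 43059203 (.c 24 (.c 32 .nil))) (.b 40 (.b 8 .nil)))) (.node (.I .tdb (.c 8 (.c 12801 (.c 43655363 (.c 16 .nil)))) .nil) (.I .tdb (.c 0 (.c 40 (.c 43655363 (.c 16 .nil)))) (.b 8 .nil)))) (.node (.node (.I .tdb (.c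 513 (.c 40 (.c 2775125257 (.c 16 .nil)))) .nil) (.I .tdb (.c 0 (.c 8 (.c 16 (.c 2775125257 .nil)))) (.b 40 .nil))) (.node (.I .tdb (.c 24 (.c 48 (.c 16 (.c 40 .nil)))) (.b 32 (.b 513 .nil))) (.I .jac (.c 43059203 (.c 24 (.c 32 .nil))) (.b 8 (.b 40 .nil)))))) (.node (.node (.node (.I .jac (.c 43954819 (.c 24 (.c 32 .nil))) (.b 513 .nil)) (.I .tdb (.c 48 (.c 8385 (.c 16 (.c 40 .nil)))) (.b 513 .nil))) (.node (.I .tdb (.c 24 (.c 32 (.c 16 (.c 40 .nil)))) (.b 48 (.b 513 .nil))) (.I .tdb (.c 513 (.c 40 (.c 43655363 (.c 16 .nil)))) .nil))) (.node (.node (.I .tdb (.c 32 (.c 18625 (.c 16 (.c 20685315 .nil)))) .nil) (.I .tdb (.c 0 (.c 40 (.c 59934271212510434121 (.c 16 .nil)))) .nil)) (.node (.I .tdb (.c 24 (.c 2737112329 (.c 16 (.c 40 .nil)))) (.b 0 .nil)) (.I .tdb (.c 32 (.c 18497 (.c 16 (.c 40 .nil)))) (.b 24 (.b 0 .nil))))))) (.node (.node (.node (.node (.I .tdb (.c 0 (.c 40 (.c 2379905498923998025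 (.c 16 .nil)))) .nil) (.I .tdb (.c 24 (.c 545424777 (.c 16 (.c 40 .nil)))) (.b 0 .nil))) (.node (.I .tdb (.c 48 (.c 8257 (.c 16 (.c 40 .nil)))) (.b 24 (.b 0 .nil))) (.I .tdb (.c 8 (.c 32 (.c 16 (.c 40 .nil)))) (.b 48 (.b 24 (.b 0 .nil)))))) (.node (.node (.I .tdb (.c 24 (.c 43655235 (.c 0 (.c 16 .nil)))) (.b 40 .nil)) (.I .tdb (.c 32 (.c 2737112265 (.c 0 (.c 16 .nil)))) (.b 40 .nil))) (.node (.I .tdb (.c 8 (.c 48 (.c 16 (.c 40 .nil)))) (.b 24 (.b 32 (.b 0 .nil)))) (.I .tdb (.c 0 (.c 40 (.c 244149027818380169 (.c 16 .nil)))) .nil)))) (.node (.node (.node (.I .tdb (.c 32 (.c 174695817 (.c 0 (.c 16 .nil)))) (.b 40 .nil)) (.I .tdb (.c 32 (.c 174695817 (.c 16 (.c 40 .nil)))) (.b 0 .nil))) (.node (.I .tdb (.c 4673 (.c 48 (.c 16 (.c 40 .nil)))) (.b 32 (.b 0 .nil))) (.I .tdb (.c 8 (.c 24 (.c 40 (.c 16 .nil)))) (.b 48 (.b 32 (.b 0 .nil)))))) (.node (.node (.I .tdb (.c 0 (.c 40 (.c 15038454533713225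 (.c 16 .nil)))) .nil) (.I .tdb (.c 32 (.c 43356739 (.c 0 (.c 16 .nil)))) (.b 40 .nil))) (.node (.I .tdb (.c 0 (.c 40 (.c 2379903823379378185 (.c 16 .nil)))) .nil) (.I .tdb (.c 0 (.c 40 (.c 244148670041478153 (.c 16 .nil)))) .nil)))))))

noncomputable def c2_59 : Tr := (.node (.node (.node (.node (.node (.node (.I .tdb (.c 0 (.c 40 (.c 617620517416393 (.c 16 .nil)))) .nil) (.I .tdb (.c 0 (.c 40 (.c 15246325749294217 (.c 16 .nil)))) .nil)) (.node (.I .tdb (.c 16 (.c 2737112329 (.c 0 (.c 24 .nil)))) (.b 40 .nil)) (.I .tdb (.c 32 (.c 18497 (.c 24 (.c 40 .nil)))) (.b 16 (.b 0 .nil))))) (.node (.node (.I .tdb (.c 0 (.c 40 (.c 2379905498923997961 (.c 24 .nil)))) .nil) (.I .tdb (.c 16 (.c 545424777 (.c 24 (.c 40 .nil)))) (.b 0 .nil))) (.node (.I .tdb (.c 48 (.c 8257 (.c 24 (.c 40 .nil)))) (.b 16 (.b 0 .nil))) (.I .tdb (.c 8 (.c 32 (.c 24 (.c 40 .nil)))) (.b 48 (.b 16 (.b 0 .nil))))))) (.node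 (.node (.node (.I .tdb (.c 0 (.c 40 (.c 15246236343241929 (.c 24 .nil)))) .nil) (.I .tdb (.c 16 (.c 43655235 (.c 0 (.c 24 .nil)))) (.b 40 .nil))) (.node (.I .tdb (.c 16 (.c 18497 (.c 24 (.c 40 .nil)))) (.b 32 (.b 0 .nil))) (.I .tdb (.c 32 (.c 35718537 (.c 0 (.c 24 .nil)))) (.b 40 .nil)))) (.node (.node (.I .tdb (.c 32 (.c 35718537 (.c 24 (.c 40 .nil)))) (.b 0 .nil)) (.I .tdb (.c 0 (.c 40 (.c 2379903264864635913 (.c 24 .nil)))) .nil)) (.node (.I .tdb (.c 48 (.c 545424521 (.c 24 (.c 40 .nil)))) (.b 0 .nil)) (.I .tdb (.c 16 (.c 8257 (.c 24 (.c 40 .nil)))) (.b 48 (.b 0 .nil))))))) (.node (.node (.node (.node (.I .tdb (.c 8 (.c 32 (.c 24 (.c 40 .nil)))) (.b 16 (.b 48 (.b 0 .nil)))) (.I .tdb (.c 48 (.c 35718409 (.c 0 (.c 24 .nil)))) (.b 40 .nil))) (.node (.I .tdb (.c 2113 (.c 32 (.c 0 (.c 24 .nil)))) (.b 48 (.b 40 .nil))) (.I .tdb (.c 8 (.c 16 (.c 0 (.c 24 .nil)))) (.b 32 (.b 48 (.b 40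 .nil)))))) (.node (.node (.I .tdb (.c 0 (.c 40 (.c 598976858557897 (.c 24 .nil)))) .nil) (.I .tdb (.c 8652867 (.c 48 (.c 0 (.c 24 .nil)))) (.b 40 .nil))) (.node (.I .tdb (.c 16 (.c 24 (.c 12801 (.c 2737112329 .nil)))) .nil) (.I .tdb (.c 0 (.c 40 (.c 59934268409707441929 (.c 32 .nil)))) .nil)))) (.node (.node (.node (.I .tdb (.c 16 (.c 2737112265 (.c 0 (.c 32 .nil)))) (.b 40 .nil)) (.I .tdb (.c 8 (.c 48 (.c 32 (.c 40 .nil)))) (.b 24 (.b 16 (.b 0 .nil))))) (.node (.I .tdb (.c 16 (.c 174695817 (.c 32 (.c 40 .nil)))) (.b 0 .nil)) (.I .tdb (.c 0 (.c 40 (.c 15038454533713097 (.c 32 .nil)))) .nil))) (.node (.node (.I .tdb (.c 16 (.c 43356739 (.c 32 (.c 40 .nil)))) (.b 0 .nil)) (.I .tdb (.c 0 (.c 40 (.c 59934265606904515401 (.c 32 .nil)))) .nil)) (.node (.I .tdb (.c 24 (.c 2737112201 (.c 32 (.c 40 .nil)))) (.b 0 .nil)) (.I .tdb (.c 16 (.c 18497 (.c 32 (.c 40 .nil)))) (.b 24 (.b 0 .nil))))))))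 (.node (.node (.node (.node (.node (.I .tdb (.c 8 (.c 48 (.c 32 (.c 40 .nil)))) (.b 16 (.b 24 (.b 0 .nil)))) (.I .tdb (.c 0 (.c 40 (.c 10206511083363145 (.c 32 .nil)))) .nil)) (.node (.I .tdb (.c 2113 (.c 48 (.c 32 (.c 40 .nil)))) (.b 24 (.b 0 .nil))) (.I .tdb (.c 8 (.c 16 (.c 32 (.c 40 .nil)))) (.b 48 (.b 24 (.b 0 .nil)))))) (.node (.node (.I .tdb (.c 0 (.c 40 (.c 14832803796618505 (.c 32 .nil)))) .nil) (.I .tdb (.c 24 (.c 43059267 (.c 0 (.c 32 .nil)))) (.b 40 .nil))) (.node (.I .tdb (.c 24 (.c 43059267 (.c 32 (.c 40 .nil)))) (.b 0 .nil)) (.I .tdb (.c 0 (.c 40 (.c 244148312264838153 (.c 32 .nil)))) .nil)))) (.node (.node (.node (.I .tdb (.c 0 (.c 40 (.c 10206401356312585 (.c 32 .nil)))) .nil) (.I .tdb (.c 48 (.c 35718345 (.c 0 (.c 32 .nil)))) (.b 40 .nil))) (.node (.I .tdb (.c 8 (.c 16 (.c 32 (.c 0 .nil)))) (.b 24 (.b 48 (.b 40 .nil)))) (.I .tdb (.c 24 (.c 2113 (.c 0 (.c 32 .nil))))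 (.b 48 (.b 40 .nil))))) (.node (.node (.I .tdb (.c 0 (.c 40 (.c 62889413447113 (.c 32 .nil)))) .nil) (.I .tdb (.c 48 (.c 2803779 (.c 0 (.c 32 .nil)))) (.b 40 .nil))) (.node (.I .tdb (.c 48 (.c 2803779 (.c 32 (.c 40 .nil)))) (.b 0 .nil)) (.I .tdb (.c 0 (.c 40 (.c 15038498931046537 (.c 32 .nil)))) .nil))))) (.node (.node (.node (.node (.I .tdb (.c 8 (.c 43356803 (.c 0 (.c 32 .nil)))) (.b 40 .nil)) (.I .tdb (.c 16 (.c 32 (.c 12801 (.c 43356739 .nil)))) .nil)) (.node (.I .jac (.c 0 (.c 21099075 (.c 48 .nil))) (.b 8321 .nil)) (.I .tdb (.c 0 (.c 40 (.c 18497 (.c 24 .nil)))) (.b 8321 .nil)))) (.node (.node (.I .tdb (.c 8 (.c 48 (.c 24 (.c 40 .nil)))) (.b 0 (.b 8321 .nil))) (.I .tdb (.c 16 (.c 24 (.c 12801 (.c 18497 .nil)))) (.b 32 .nil))) (.node (.I .jac (.c 0 (.c 21307459 (.c 48 .nil))) (.b 4737 .nil)) (.I .jac (.c 0 (.c 8 (.c 43954947 .nil))) (.b 4737 .nil))))) (.node (.node (.node (.I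 .tdb (.c 0 (.c 40 (.c 18497 (.c 32 .nil)))) (.b 4737 .nil)) (.I .tdb (.c 0 (.c 40 (.c 18497 (.c 8786563 .nil)))) .nil)) (.node (.I .tdb (.c 8 (.c 48 (.c 0 (.c 8786563 .nil)))) (.b 40 .nil)) (.I .tdb (.c 8 (.c 48 (.c 8786563 (.c 40 .nil)))) (.b 0 .nil)))) (.node (.node (.I .tdb (.c 16 (.c 545424585 (.c 12801 (.c 48 .nil)))) .nil) (.I .tdb (.c 0 (.c 40 (.c 16 (.c 48 .nil)))) (.b 545424585 .nil))) (.node (.I .tdb (.c 24 (.c 8257 (.c 12801 (.c 48 .nil)))) (.b 16 .nil)) (.I .tdb (.c 0 (.c 40 (.c 24 (.c 48 .nil)))) (.b 8257 (.b 16 .nil)))))))))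

noncomputable def c2_60 : Tr := (.node (.node (.node (.node (.node (.node (.I .tdb (.c 8 (.c 32 (.c 12801 (.c 48 .nil)))) (.b 24 (.b 16 .nil))) (.I .tdb (.c 0 (.c 40 (.c 16 (.c 48 .nil)))) (.b 174695689 .nil))) (.node (.I .tdb (.c 0 (.c 40 (.c 32 (.c 48 .nil)))) (.b 4673 (.b 16 .nil))) (.I .tdb (.c 16 (.c 8786499 (.c 12801 (.c 48 .nil)))) .nil))) (.node (.node (.I .tdb (.c 24 (.c 545424521 (.c 12801 (.c 48 .nil)))) .nil) (.I .tdb (.c 0 (.c 40 (.c 24 (.c 48 .nil)))) (.b 545424521 .nil))) (.node (.I .tdb (.c 16 (.c 8257 (.c 12801 (.c 48 .nil)))) (.b 24 .nil)) (.I .tdb (.c 0 (.c 40 (.c 16 (.c 48 .nil)))) (.b 8257 (.b 24 .nil)))))) (.node (.node (.node (.I .tdb (.c 8 (.c 32 (.c 12801 (.c 48 .nil)))) (.b 16 (.b 24 .nil))) (.I .tdb (.c 24 (.c 35718409 (.c 12801 (.c 48 .nil)))) .nil)) (.node (.I .tdb (.c 2113 (.c 32 (.c 12801 (.c 48 .nil)))) (.b 24 .nil)) (.I .tdb (.c 8 (.c 16 (.c 48 (.c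 12801 .nil)))) (.b 32 (.b 24 .nil))))) (.node (.node (.I .tdb (.c 24 (.c 8652867 (.c 12801 (.c 48 .nil)))) .nil) (.I .tdb (.c 0 (.c 40 (.c 24 (.c 48 .nil)))) (.b 2113 (.b 32 .nil)))) (.node (.I .tdb (.c 0 (.c 40 (.c 18561 (.c 24 .nil)))) (.b 8257 .nil)) (.I .tdb (.c 16 (.c 48 (.c 0 (.c 24 .nil)))) (.b 40 (.b 8257 .nil))))))) (.node (.node (.node (.node (.I .tdb (.c 8 (.c 32 (.c 12801 (.c 18561 .nil)))) (.b 24 .nil)) (.I .tdb (.c 4673 (.c 32 (.c 12801 (.c 18561 .nil)))) .nil)) (.node (.I .tdb (.c 8 (.c 24 (.c 12801 (.c 18561 .nil)))) (.b 32 .nil)) (.I .jac (.c 0 (.c 16 (.c 43954947 .nil))) (.b 4673 .nil)))) (.node (.node (.I .tdb (.c 0 (.c 40 (.c 18561 (.c 32 .nil)))) (.b 4673 .nil)) (.I .tdb (.c 16 (.c 48 (.c 0 (.c 32 .nil)))) (.b 40 (.b 4673 .nil)))) (.node (.I .tdb (.c 0 (.c 40 (.c 18561 (.c 8786499 .nil)))) .nil) (.I .tdb (.c 16 (.c 48 (.c 8786499 (.c 40 .nil)))) (.b 0 .nil)))))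 (.node (.node (.node (.I .tdb (.c 2113 (.c 32 (.c 12801 (.c 18625 .nil)))) .nil) (.I .tdb (.c 24 (.c 48 (.c 0 (.c 32 .nil)))) (.b 40 (.b 2113 .nil)))) (.node (.I .tdb (.c 24 (.c 48 (.c 32 (.c 40 .nil)))) (.b 0 (.b 2113 .nil))) (.I .tdb (.c 0 (.c 40 (.c 18625 (.c 8652867 .nil)))) .nil))) (.node (.node (.I .tdb (.c 24 (.c 48 (.c 0 (.c 8652867 .nil)))) (.b 40 .nil)) (.I .tdb (.c 24 (.c 48 (.c 8652867 (.c 40 .nil)))) (.b 0 .nil))) (.node (.I .tdb (.c 8 (.c 32 (.c 12801 (.c 179513737 .nil)))) .nil) (.I .jac (.c 0 (.c 43954819 (.c 32 .nil))) (.b 4673 .nil))))))) (.node (.node (.node (.node (.node (.I .tdb (.c 0 (.c 40 (.c 18689 (.c 16 .nil)))) (.b 4673 .nil)) (.I .tdb (.c 32 (.c 48 (.c 0 (.c 16 .nil)))) (.b 40 (.b 4673 .nil)))) (.node (.I .tdb (.c 32 (.c 48 (.c 16 (.c 40 .nil)))) (.b 0 (.b 4673 .nil))) (.I .tdb (.c 8 (.c 24 (.c 12801 (.c 18689 .nil)))) (.b 16 .nil)))) (.node (.node (.I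 .jac (.c 0 (.c 43954883 (.c 32 .nil))) (.b 2113 .nil)) (.I .tdb (.c 0 (.c 40 (.c 18689 (.c 24 .nil)))) (.b 2113 .nil))) (.node (.I .tdb (.c 32 (.c 48 (.c 0 (.c 24 .nil)))) (.b 40 (.b 2113 .nil))) (.I .tdb (.c 32 (.c 48 (.c 24 (.c 40 .nil)))) (.b 0 (.b 2113 .nil)))))) (.node (.node (.node (.I .tdb (.c 8 (.c 16 (.c 12801 (.c 18689 .nil)))) (.b 24 .nil)) (.I .tdb (.c 8 (.c 24 (.c 12801 (.c 553912713 .nil)))) .nil)) (.node (.I .tdb (.c 8 (.c 16 (.c 12801 (.c 2775125257 .nil)))) .nil) (.I .tdb (.c 8 (.c 16 (.c 12801 (.c 43655363 .nil)))) .nil))) (.node (.node (.I .jac (.c 21307459 (.c 16 (.c 48 .nil))) (.b 24 (.b 0 .nil))) (.I .jac (.c 21099075 (.c 16 (.c 48 .nil))) (.b 32 (.b 0 .nil)))) (.node (.I .tdb (.c 16 (.c 48 (.c 8 (.c 40 .nil)))) (.b 32 (.b 24 (.b 0 .nil)))) (.I .jac (.c 3561367726845385 (.c 16 (.c 32 .nil))) (.b 0 .nil)))))) (.node (.node (.node (.node (.I .tdb (.c 24 (.c 43655299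 (.c 8 (.c 40 .nil)))) (.b 0 .nil)) (.I .tdb (.c 24 (.c 18561 (.c 8 (.c 40 .nil)))) (.b 32 (.b 0 .nil)))) (.node (.I .jac (.c 3632062472293833 (.c 16 (.c 24 .nil))) (.b 0 .nil)) (.I .tdb (.c 0 (.c 40 (.c 15038498931046729 (.c 8 .nil)))) .nil))) (.node (.node (.I .tdb (.c 48 (.c 553912521 (.c 0 (.c 8 .nil)))) (.b 40 .nil)) (.I .tdb (.c 16 (.c 32 (.c 0 (.c 8 .nil)))) (.b 24 (.b 48 (.b 40 .nil))))) (.node (.I .tdb (.c 24 (.c 8321 (.c 0 (.c 8 .nil)))) (.b 48 (.b 40 .nil))) (.I .jac (.c 43954755 (.c 4737 (.c 32 .nil))) (.b 0 .nil))))) (.node (.node (.node (.I .tdb (.c 16 (.c 43655363 (.c 8 (.c 40 .nil)))) (.b 0 .nil)) (.I .tdb (.c 24 (.c 8193 (.c 40 (.c 48 .nil)))) (.b 16 (.b 8 .nil)))) (.node (.I .tdb (.c 0 (.c 32 (.c 40 (.c 48 .nil)))) (.b 24 (.b 16 (.b 8 .nil)))) (.I .tdb (.c 8 (.c 231045467270826889 (.c 40 (.c 48 .nil)))) .nil))) (.node (.node (.I .tdb (.c 32 (.c 169943177 (.c 40 (.c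 48 .nil)))) (.b 8 .nil)) (.I .tdb (.c 8 (.c 9024908047478665 (.c 40 (.c 48 .nil)))) .nil)) (.node (.I .tdb (.c 32 (.c 33587401 (.c 40 (.c 48 .nil)))) (.b 8 .nil)) (.I .tdb (.c 24 (.c 2049 (.c 40 (.c 48 .nil)))) (.b 32 (.b 8 .nil)))))))))

noncomputable def c2_61 : Tr := (.node (.node (.node (.node (.node (.node (.I .tdb (.c 0 (.c 16 (.c 40 (.c 48 .nil)))) (.b 24 (.b 32 (.b 8 .nil)))) (.I .tdb (.c 8 (.c 617629514823753 (.c 40 (.c 48 .nil)))) .nil)) (.node (.I .tdb (.c 0 (.c 8786563 (.c 40 (.c 48 .nil)))) (.b 8 .nil)) (.I .tdb (.c 4609 (.c 32 (.c 40 (.c 48 .nil)))) (.b 8 (.b 16 .nil))))) (.node (.node (.I .tdb (.c 0 (.c 24 (.c 40 (.c 48 .nil)))) (.b 32 (.b 8 (.b 16 .nil)))) (.I .tdb (.c 16 (.c 617611520073865 (.c 40 (.c 48 .nil)))) .nil)) (.node (.I .tdb (.c 8 (.c 8786435 (.c 40 (.c 48 .nil)))) (.b 16 .nil)) (.I .tdb (.c 8 (.c 8193 (.c 40 (.c 48 .nil)))) (.b 24 (.b 16 .nil)))))) (.node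 (.node (.node (.I .tdb (.c 0 (.c 32 (.c 40 (.c 48 .nil)))) (.b 8 (.b 24 (.b 16 .nil)))) (.I .tdb (.c 16 (.c 580749782704393 (.c 40 (.c 48 .nil)))) .nil)) (.node (.I .tdb (.c 16 (.c 231045293249046409 (.c 40 (.c 48 .nil)))) .nil) (.I .tdb (.c 8 (.c 4609 (.c 40 (.c 48 .nil)))) (.b 32 (.b 16 .nil))))) (.node (.node (.I .tdb (.c 0 (.c 24 (.c 40 (.c 48 .nil)))) (.b 8 (.b 32 (.b 16 .nil)))) (.I .tdb (.c 16 (.c 59555558875465 (.c 40 (.c 48 .nil)))) .nil)) (.node (.I .tdb (.c 32 (.c 2728451 (.c 40 (.c 48 .nil)))) (.b 16 .nil)) (.I .tdb (.c 0 (.c 8786499 (.c 40 (.c 48 .nil)))) (.b 16 .nil)))))) (.node (.node (.node (.node (.I .tdb (.c 8 (.c 33587465 (.c 40 (.c 48 .nil)))) (.b 24 .nil)) (.I .tdb (.c 2049 (.c 32 (.c 40 (.c 48 .nil)))) (.b 8 (.b 24 .nil)))) (.node (.I .tdb (.c 0 (.c 16 (.c 40 (.c 48 .nil)))) (.b 32 (.b 8 (.b 24 .nil)))) (.I .tdb (.c 16 (.c 537002057 (.c 40 (.c 48 .nil)))) (.b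 24 .nil)))) (.node (.node (.I .tdb (.c 8 (.c 8193 (.c 40 (.c 48 .nil)))) (.b 16 (.b 24 .nil))) (.I .tdb (.c 0 (.c 32 (.c 40 (.c 48 .nil)))) (.b 8 (.b 16 (.b 24 .nil))))) (.node (.I .tdb (.c 513 (.c 32 (.c 40 (.c 48 .nil)))) (.b 16 (.b 24 .nil))) (.I .tdb (.c 0 (.c 8 (.c 40 (.c 48 .nil)))) (.b 32 (.b 16 (.b 24 .nil))))))) (.node (.node (.node (.I .tdb (.c 16 (.c 8520195 (.c 40 (.c 48 .nil)))) (.b 24 .nil)) (.I .tdb (.c 24 (.c 9024839260612489 (.c 40 (.c 48 .nil)))) .nil)) (.node (.I .tdb (.c 32 (.c 33587273 (.c 40 (.c 48 .nil)))) (.b 24 .nil)) (.I .tdb (.c 32 (.c 557571 (.c 40 (.c 48 .nil)))) (.b 24 .nil)))) (.node (.node (.I .tdb (.c 32 (.c 231045467270826697 (.c 40 (.c 48 .nil)))) .nil) (.I .tdb (.c 8 (.c 169943177 (.c 40 (.c 48 .nil)))) (.b 32 .nil))) (.node (.I .tdb (.c 16 (.c 4609 (.c 40 (.c 48 .nil)))) (.b 8 (.b 32 .nil))) (.I .tdb (.c 0 (.c 24 (.c 40 (.c 48 .nil)))) (.b 16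 (.b 8 (.b 32 .nil))))))))) (.node (.node (.node (.node (.node (.I .tdb (.c 32 (.c 9024908047478473 (.c 40 (.c 48 .nil)))) .nil) (.I .tdb (.c 32 (.c 62886542409865 (.c 40 (.c 48 .nil)))) .nil)) (.node (.I .tdb (.c 32 (.c 231045293249046281 (.c 40 (.c 48 .nil)))) .nil) (.I .tdb (.c 16 (.c 2105545 (.c 40 (.c 48 .nil)))) (.b 32 .nil)))) (.node (.node (.I .tdb (.c 513 (.c 24 (.c 40 (.c 48 .nil)))) (.b 16 (.b 32 .nil))) (.I .tdb (.c 0 (.c 8 (.c 40 (.c 48 .nil)))) (.b 24 (.b 16 (.b 32 .nil))))) (.node (.I .tdb (.c 32 (.c 59555558875337 (.c 40 (.c 48 .nil)))) .nil) (.I .tdb (.c 32 (.c 9024839260612425 (.c 40 (.c 48 .nil)))) .nil)))) (.node (.node (.node (.I .tdb (.c 24 (.c 2105481 (.c 40 (.c 48 .nil)))) (.b 32 .nil)) (.I .tdb (.c 513 (.c 16 (.c 40 (.c 48 .nil)))) (.b 24 (.b 32 .nil)))) (.node (.I .tdb (.c 0 (.c 8 (.c 40 (.c 48 .nil)))) (.b 16 (.b 24 (.b 32 .nil)))) (.I .tdb (.c 24 (.c 557571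 (.c 40 (.c 48 .nil)))) (.b 32 .nil)))) (.node (.node (.I .tdb (.c 32 (.c 62889413446729 (.c 40 (.c 48 .nil)))) .nil) (.I .tdb (.c 2049 (.c 8786499 (.c 40 (.c 48 .nil)))) .nil)) (.node (.I .tdb (.c 0 (.c 16 (.c 40 (.c 48 .nil)))) (.b 8786499 .nil)) (.I .tdb (.c 16 (.c 537002185 (.c 18497 (.c 40 .nil)))) .nil))))) (.node (.node (.node (.node (.I .tdb (.c 24 (.c 8193 (.c 18497 (.c 40 .nil)))) (.b 16 .nil)) (.I .tdb (.c 0 (.c 32 (.c 18497 (.c 40 .nil)))) (.b 24 (.b 16 .nil)))) (.node (.I .tdb (.c 8 (.c 48 (.c 0 (.c 40 .nil)))) (.b 32 (.b 24 (.b 16 .nil)))) (.I .tdb (.c 8 (.c 48 (.c 8786435 (.c 40 .nil)))) (.b 16 .nil)))) (.node (.node (.I .tdb (.c 24 (.c 537002121 (.c 18497 (.c 40 .nil)))) .nil) (.I .tdb (.c 16 (.c 8193 (.c 18497 (.c 40 .nil)))) (.b 24 .nil))) (.node (.I .tdb (.c 0 (.c 32 (.c 18497 (.c 40 .nil)))) (.b 16 (.b 24 .nil))) (.I .tdb (.c 8 (.c 48 (.c 0 (.c 40 .nil)))) (.b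 32 (.b 16 (.b 24 .nil))))))) (.node (.node (.node (.I .tdb (.c 8 (.c 48 (.c 0 (.c 40 .nil)))) (.b 16 (.b 32 (.b 24 .nil)))) (.I .tdb (.c 24 (.c 2049 (.c 18497 (.c 40 .nil)))) (.b 32 .nil))) (.node (.I .tdb (.c 0 (.c 16 (.c 40 (.c 18497 .nil)))) (.b 24 (.b 32 .nil))) (.I .tdb (.c 8 (.c 48 (.c 0 (.c 40 .nil)))) (.b 16 (.b 24 (.b 32 .nil)))))) (.node (.node (.I .tdb (.c 32 (.c 2803715 (.c 18497 (.c 40 .nil)))) .nil) (.I .tdb (.c 16 (.c 537002185 (.c 12865 (.c 48 .nil)))) .nil)) (.node (.I .tdb (.c 8 (.c 40 (.c 16 (.c 48 .nil)))) (.b 537002185 .nil)) (.I .tdb (.c 24 (.c 8193 (.c 12865 (.c 48 .nil)))) (.b 16 .nil))))))))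

noncomputable def c2_62 : Tr := (.node (.node (.node (.node (.node (.node (.I .tdb (.c 8 (.c 40 (.c 24 (.c 48 .nil)))) (.b 8193 (.b 16 .nil))) (.I .tdb (.c 0 (.c 32 (.c 12865 (.c 48 .nil)))) (.b 24 (.b 16 .nil)))) (.node (.I .tdb (.c 8 (.c 40 (.c 32 (.c 48 .nil)))) (.b 0 (.b 24 (.b 16 .nil)))) (.I .tdb (.c 16 (.c 169943305 (.c 12865 (.c 48 .nil)))) .nil))) (.node (.node (.I .tdb (.c 8 (.c 40 (.c 24 (.c 48 .nil)))) (.b 537002121 .nil)) (.I .tdb (.c 8 (.c 40 (.c 24 (.c 48 .nil)))) (.b 33587465 .nil))) (.node (.I .tdb (.c 2049 (.c 32 (.c 12865 (.c 48 .nil)))) (.b 24 .nil)) (.I .tdb (.c 0 (.c 16 (.c 48 (.c 12865 .nil)))) (.b 32 (.b 24 .nil)))))) (.node (.node (.node (.I .tdb (.c 8 (.c 40 (.c 16 (.c 48 .nil)))) (.b 0 (.b 32 (.b 24 .nil)))) (.I .tdb (.c 8 (.c 40 (.c 32 (.c 48 .nil)))) (.b 2049 (.b 24 .nil)))) (.node (.I .tdb (.c 8 (.c 40 (.c 8652803 (.c 48 .nil)))) (.b 24 .nil)) (.I .tdb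 (.c 32 (.c 169943177 (.c 12865 (.c 48 .nil)))) .nil))) (.node (.node (.I .tdb (.c 32 (.c 33587401 (.c 12865 (.c 48 .nil)))) .nil) (.I .tdb (.c 8 (.c 40 (.c 32 (.c 48 .nil)))) (.b 33587401 .nil))) (.node (.I .tdb (.c 8 (.c 40 (.c 0 (.c 48 .nil)))) (.b 16 (.b 24 (.b 32 .nil)))) (.I .tdb (.c 32 (.c 2803715 (.c 12865 (.c 48 .nil)))) .nil))))) (.node (.node (.node (.node (.I .tdb (.c 8 (.c 40 (.c 32 (.c 48 .nil)))) (.b 2803715 .nil)) (.I .tdb (.c 8 (.c 40 (.c 48 (.c 2803715 .nil)))) (.b 32 .nil))) (.node (.I .tdb (.c 0 (.c 8786563 (.c 12865 (.c 48 .nil)))) .nil) (.I .tdb (.c 8 (.c 40 (.c 0 (.c 48 .nil)))) (.b 8786563 .nil)))) (.node (.node (.I .tdb (.c 8 (.c 40 (.c 8786563 (.c 48 .nil)))) (.b 0 .nil)) (.I .tdb (.c 40 (.c 48 (.c 8 (.c 16 .nil)))) (.b 537002185 .nil))) (.node (.I .tdb (.c 24 (.c 8193 (.c 18753 (.c 8 .nil)))) (.b 16 .nil)) (.I .tdb (.c 40 (.c 48 (.c 8 (.c 24 .nil)))) (.b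 8193 (.b 16 .nil)))))) (.node (.node (.node (.I .tdb (.c 4609 (.c 32 (.c 18753 (.c 8 .nil)))) (.b 16 .nil)) (.I .tdb (.c 0 (.c 24 (.c 18753 (.c 8 .nil)))) (.b 32 (.b 16 .nil)))) (.node (.I .tdb (.c 16 (.c 8786435 (.c 18753 (.c 8 .nil)))) .nil) (.I .tdb (.c 24 (.c 537002121 (.c 18753 (.c 8 .nil)))) .nil))) (.node (.node (.I .tdb (.c 16 (.c 8193 (.c 18753 (.c 8 .nil)))) (.b 24 .nil)) (.I .tdb (.c 40 (.c 48 (.c 8 (.c 16 .nil)))) (.b 8193 (.b 24 .nil)))) (.node (.I .tdb (.c 0 (.c 32 (.c 18753 (.c 8 .nil)))) (.b 16 (.b 24 .nil))) (.I .tdb (.c 40 (.c 48 (.c 0 (.c 8 .nil)))) (.b 32 (.b 16 (.b 24 .nil))))))))) (.node (.node (.node (.node (.node (.I .tdb (.c 24 (.c 33587465 (.c 18753 (.c 8 .nil)))) .nil) (.I .tdb (.c 40 (.c 48 (.c 8 (.c 32 .nil)))) (.b 2049 (.b 24 .nil)))) (.node (.I .tdb (.c 24 (.c 8652803 (.c 18753 (.c 8 .nil)))) .nil) (.I .tdb (.c 40 (.c 48 (.c 8 (.c 24 .nil)))) (.b 8652803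 .nil)))) (.node (.node (.I .tdb (.c 40 (.c 48 (.c 8 (.c 8652803 .nil)))) (.b 24 .nil)) (.I .tdb (.c 40 (.c 48 (.c 8 (.c 32 .nil)))) (.b 169943177 .nil))) (.node (.I .tdb (.c 16 (.c 4609 (.c 18753 (.c 8 .nil)))) (.b 32 .nil)) (.I .tdb (.c 40 (.c 48 (.c 8 (.c 16 .nil)))) (.b 4609 (.b 32 .nil)))))) (.node (.node (.node (.I .tdb (.c 0 (.c 24 (.c 18753 (.c 8 .nil)))) (.b 16 (.b 32 .nil))) (.I .tdb (.c 40 (.c 48 (.c 0 (.c 8 .nil)))) (.b 24 (.b 16 (.b 32 .nil))))) (.node (.I .tdb (.c 32 (.c 33587401 (.c 18753 (.c 8 .nil)))) .nil) (.I .tdb (.c 40 (.c 48 (.c 8 (.c 16 .nil)))) (.b 0 (.b 24 (.b 32 .nil)))))) (.node (.node (.I .tdb (.c 40 (.c 48 (.c 8 (.c 2803715 .nil)))) (.b 32 .nil)) (.I .tdb (.c 0 (.c 8786563 (.c 18753 (.c 8 .nil)))) .nil)) (.node (.I .tdb (.c 40 (.c 48 (.c 0 (.c 8 .nil)))) (.b 8786563 .nil)) (.I .tdb (.c 8 (.c 537002185 (.c 18561 (.c 40 .nil)))) .nil))))) (.node (.node (.node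 (.node (.I .tdb (.c 24 (.c 8193 (.c 18561 (.c 40 .nil)))) (.b 8 .nil)) (.I .tdb (.c 0 (.c 32 (.c 18561 (.c 40 .nil)))) (.b 24 (.b 8 .nil)))) (.node (.I .tdb (.c 4609 (.c 32 (.c 18561 (.c 40 .nil)))) (.b 8 .nil)) (.I .tdb (.c 0 (.c 24 (.c 40 (.c 18561 .nil)))) (.b 32 (.b 8 .nil))))) (.node (.node (.I .tdb (.c 16 (.c 48 (.c 0 (.c 40 .nil)))) (.b 24 (.b 32 (.b 8 .nil)))) (.I .tdb (.c 32 (.c 169943113 (.c 18561 (.c 40 .nil)))) .nil)) (.node (.I .tdb (.c 32 (.c 2105545 (.c 18561 (.c 40 .nil)))) .nil) (.I .tdb (.c 513 (.c 24 (.c 40 (.c 18561 .nil)))) (.b 32 .nil))))) (.node (.node (.node (.I .tdb (.c 0 (.c 8 (.c 40 (.c 18561 .nil)))) (.b 24 (.b 32 .nil))) (.I .tdb (.c 16 (.c 48 (.c 0 (.c 40 .nil)))) (.b 8 (.b 24 (.b 32 .nil))))) (.node (.I .tdb (.c 16 (.c 48 (.c 0 (.c 40 .nil)))) (.b 8786499 .nil)) (.I .jac (.c 8193 (.c 43356803 (.c 40 .nil))) (.b 8 .nil)))) (.node (.node (.I .tdb (.c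 16 (.c 40 (.c 0 (.c 48 .nil)))) (.b 32 (.b 24 (.b 8 .nil)))) (.I .tdb (.c 16 (.c 40 (.c 8 (.c 48 .nil)))) (.b 169943305 .nil))) (.node (.I .jac (.c 4609 (.c 43655299 (.c 40 .nil))) (.b 8 .nil)) (.I .jac (.c 0 (.c 43356803 (.c 40 .nil))) (.b 32 (.b 8 .nil)))))))))

noncomputable def c2_63 : Tr := (.node (.node (.node (.node (.node (.node (.I .tdb (.c 4609 (.c 32 (.c 12929 (.c 48 .nil)))) (.b 8 .nil)) (.I .tdb (.c 0 (.c 24 (.c 48 (.c 12929 .nil)))) (.b 32 (.b 8 .nil)))) (.node (.I .tdb (.c 16 (.c 40 (.c 0 (.c 48 .nil)))) (.b 24 (.b 32 (.b 8 .nil)))) (.I .tdb (.c 16 (.c 40 (.c 24 (.c 48 .nil)))) (.b 0 (.b 32 (.b 8 .nil)))))) (.node (.node (.I .tdb (.c 16 (.c 40 (.c 32 (.c 48 .nil)))) (.b 4609 (.b 8 .nil))) (.I .jac (.c 0 (.c 43655299 (.c 40 .nil))) (.b 8 (.b 24 .nil)))) (.node (.I .tdb (.c 16 (.c 40 (.c 0 (.c 48 .nil)))) (.b 32 (.b 8 (.b 24 .nil)))) (.I .tdb (.c 513 (.c 32 (.c 48 (.c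 12929 .nil)))) (.b 24 .nil))))) (.node (.node (.node (.I .tdb (.c 0 (.c 8 (.c 48 (.c 12929 .nil)))) (.b 32 (.b 24 .nil))) (.I .tdb (.c 16 (.c 40 (.c 0 (.c 48 .nil)))) (.b 8 (.b 32 (.b 24 .nil))))) (.node (.I .tdb (.c 16 (.c 40 (.c 8 (.c 48 .nil)))) (.b 0 (.b 32 (.b 24 .nil)))) (.I .tdb (.c 16 (.c 40 (.c 32 (.c 48 .nil)))) (.b 513 (.b 24 .nil))))) (.node (.node (.I .tdb (.c 24 (.c 8520195 (.c 12929 (.c 48 .nil)))) .nil) (.I .tdb (.c 16 (.c 40 (.c 24 (.c 48 .nil)))) (.b 8520195 .nil))) (.node (.I .tdb (.c 16 (.c 40 (.c 8520195 (.c 48 .nil)))) (.b 24 .nil)) (.I .tdb (.c 32 (.c 169943113 (.c 12929 (.c 48 .nil)))) .nil))))) (.node (.node (.node (.node (.I .tdb (.c 16 (.c 40 (.c 0 (.c 48 .nil)))) (.b 24 (.b 8 (.b 32 .nil)))) (.I .tdb (.c 32 (.c 2728451 (.c 12929 (.c 48 .nil)))) .nil)) (.node (.I .tdb (.c 16 (.c 40 (.c 32 (.c 48 .nil)))) (.b 2728451 .nil)) (.I .tdb (.c 16 (.c 40 (.c 2728451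 (.c 48 .nil)))) (.b 32 .nil)))) (.node (.node (.I .tdb (.c 24 (.c 8193 (.c 18753 (.c 16 .nil)))) (.b 8 .nil)) (.I .tdb (.c 40 (.c 48 (.c 16 (.c 24 .nil)))) (.b 8193 (.b 8 .nil)))) (.node (.I .tdb (.c 0 (.c 32 (.c 18753 (.c 16 .nil)))) (.b 24 (.b 8 .nil))) (.I .tdb (.c 8 (.c 169943305 (.c 18753 (.c 16 .nil)))) .nil)))) (.node (.node (.node (.I .tdb (.c 40 (.c 48 (.c 16 (.c 24 .nil)))) (.b 0 (.b 32 (.b 8 .nil)))) (.I .tdb (.c 40 (.c 48 (.c 16 (.c 32 .nil)))) (.b 4609 (.b 8 .nil)))) (.node (.I .tdb (.c 8 (.c 8786435 (.c 18753 (.c 16 .nil)))) .nil) (.I .tdb (.c 24 (.c 537002057 (.c 18753 (.c 16 .nil)))) .nil))) (.node (.node (.I .tdb (.c 40 (.c 48 (.c 16 (.c 24 .nil)))) (.b 537002057 .nil)) (.I .tdb (.c 40 (.c 48 (.c 16 (.c 32 .nil)))) (.b 0 (.b 8 (.b 24 .nil))))) (.node (.I .tdb (.c 24 (.c 2105609 (.c 18753 (.c 16 .nil)))) .nil) (.I .tdb (.c 40 (.c 48 (.c 16 (.c 32 .nil)))) (.b 513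 (.b 24 .nil)))))))) (.node (.node (.node (.node (.node (.I .tdb (.c 24 (.c 8520195 (.c 18753 (.c 16 .nil)))) .nil) (.I .tdb (.c 40 (.c 48 (.c 16 (.c 24 .nil)))) (.b 8520195 .nil))) (.node (.I .tdb (.c 40 (.c 48 (.c 16 (.c 8520195 .nil)))) (.b 24 .nil)) (.I .tdb (.c 40 (.c 48 (.c 16 (.c 32 .nil)))) (.b 169943113 .nil)))) (.node (.node (.I .tdb (.c 32 (.c 2105545 (.c 18753 (.c 16 .nil)))) .nil) (.I .tdb (.c 40 (.c 48 (.c 16 (.c 32 .nil)))) (.b 2105545 .nil))) (.node (.I .tdb (.c 513 (.c 24 (.c 18753 (.c 16 .nil)))) (.b 32 .nil)) (.I .tdb (.c 0 (.c 8 (.c 16 (.c 18753 .nil)))) (.b 24 (.b 32 .nil)))))) (.node (.node (.node (.I .tdb (.c 40 (.c 48 (.c 0 (.c 16 .nil)))) (.b 8 (.b 24 (.b 32 .nil)))) (.I .tdb (.c 40 (.c 48 (.c 16 (.c 32 .nil)))) (.b 2728451 .nil))) (.node (.I .tdb (.c 0 (.c 8786499 (.c 18753 (.c 16 .nil)))) .nil) (.I .tdb (.c 40 (.c 18497 (.c 16 (.c 24 .nil)))) (.b 8193 .nil))))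 (.node (.node (.I .tdb (.c 8 (.c 48 (.c 16 (.c 24 .nil)))) (.b 40 (.b 8193 .nil))) (.I .tdb (.c 40 (.c 18497 (.c 0 (.c 16 .nil)))) (.b 32 (.b 24 .nil)))) (.node (.I .tdb (.c 40 (.c 18497 (.c 16 (.c 32 .nil)))) (.b 0 (.b 24 .nil))) (.I .tdb (.c 8 (.c 48 (.c 16 (.c 32 .nil)))) (.b 40 (.b 0 (.b 24 .nil)))))))) (.node (.node (.node (.node (.I .tdb (.c 48 (.c 12865 (.c 16 (.c 24 .nil)))) (.b 8193 .nil)) (.I .tdb (.c 8 (.c 40 (.c 16 (.c 24 .nil)))) (.b 48 (.b 8193 .nil)))) (.node (.I .tdb (.c 0 (.c 32 (.c 1324066185 (.c 16 .nil)))) (.b 24 .nil)) (.I .tdb (.c 48 (.c 12865 (.c 0 (.c 16 .nil)))) (.b 32 (.b 24 .nil))))) (.node (.node (.I .tdb (.c 8 (.c 40 (.c 0 (.c 16 .nil)))) (.b 48 (.b 32 (.b 24 .nil)))) (.I .tdb (.c 48 (.c 12865 (.c 16 (.c 32 .nil)))) (.b 0 (.b 24 .nil)))) (.node (.I .tdb (.c 8 (.c 40 (.c 16 (.c 32 .nil)))) (.b 48 (.b 0 (.b 24 .nil)))) (.I .tdb (.c 0 (.c 32 (.c 43954755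 (.c 16 .nil)))) (.b 24 .nil))))) (.node (.node (.node (.I .tdb (.c 0 (.c 24 (.c 2737112393 (.c 16 .nil)))) (.b 32 .nil)) (.I .tdb (.c 40 (.c 18497 (.c 0 (.c 16 .nil)))) (.b 24 (.b 32 .nil)))) (.node (.I .tdb (.c 8 (.c 48 (.c 16 (.c 24 .nil)))) (.b 40 (.b 0 (.b 32 .nil)))) (.I .tdb (.c 4609 (.c 32 (.c 1324066185 (.c 16 .nil)))) .nil))) (.node (.node (.I .tdb (.c 0 (.c 24 (.c 1324066185 (.c 16 .nil)))) (.b 32 .nil)) (.I .tdb (.c 48 (.c 12865 (.c 16 (.c 24 .nil)))) (.b 0 (.b 32 .nil)))) (.node (.I .tdb (.c 8 (.c 40 (.c 16 (.c 24 .nil)))) (.b 48 (.b 0 (.b 32 .nil)))) (.I .tdb (.c 48 (.c 12865 (.c 16 (.c 32 .nil)))) (.b 4609 .nil))))))))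

noncomputable def c2_64 : Tr := (.node (.node (.node (.node (.node (.node (.I .tdb (.c 8 (.c 40 (.c 16 (.c 32 .nil)))) (.b 48 (.b 4609 .nil))) (.I .tdb (.c 24 (.c 8193 (.c 35718537 (.c 40 .nil)))) .nil)) (.node (.I .tdb (.c 0 (.c 32 (.c 35718537 (.c 40 .nil)))) (.b 24 .nil)) (.I .tdb (.c 24 (.c 8193 (.c 43059267 (.c 40 .nil)))) .nil))) (.node (.node (.I .tdb (.c 0 (.c 32 (.c 43059267 (.c 40 .nil)))) (.b 24 .nil)) (.I .tdb (.c 16 (.c 18497 (.c 0 (.c 40 .nil)))) (.b 24 (.b 32 .nil)))) (.node (.I .tdb (.c 4609 (.c 32 (.c 35718537 (.c 40 .nil)))) .nil) (.I .tdb (.c 0 (.c 24 (.c 40 (.c 35718537 .nil)))) (.b 32 .nil))))) (.node (.node (.node (.I .tdb (.c 2113 (.c 48 (.c 0 (.c 40 .nil)))) (.b 24 (.b 32 .nil))) (.I .tdb (.c 8 (.c 16 (.c 40 (.c 0 .nil)))) (.b 48 (.b 24 (.b 32 .nil))))) (.node (.I .tdb (.c 4609 (.c 32 (.c 43059267 (.c 40 .nil)))) .nil) (.I .tdb (.c 0 (.c 24 (.c 40 (.c 43059267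 .nil)))) (.b 32 .nil)))) (.node (.node (.I .tdb (.c 2113 (.c 48 (.c 8786435 (.c 40 .nil)))) .nil) (.I .tdb (.c 8 (.c 16 (.c 8786435 (.c 40 .nil)))) (.b 48 .nil))) (.node (.I .tdb (.c 16 (.c 40 (.c 18497 (.c 24 .nil)))) (.b 8193 .nil)) (.I .tdb (.c 0 (.c 32 (.c 12929 (.c 18497 .nil)))) (.b 24 .nil)))))) (.node (.node (.node (.node (.I .tdb (.c 16 (.c 40 (.c 18497 (.c 0 .nil)))) (.b 32 (.b 24 .nil))) (.I .tdb (.c 16 (.c 40 (.c 18497 (.c 32 .nil)))) (.b 0 (.b 24 .nil)))) (.node (.I .tdb (.c 4609 (.c 32 (.c 12929 (.c 18497 .nil)))) .nil) (.I .tdb (.c 0 (.c 24 (.c 12929 (.c 18497 .nil)))) (.b 32 .nil)))) (.node (.node (.I .tdb (.c 16 (.c 40 (.c 18497 (.c 0 .nil)))) (.b 24 (.b 32 .nil))) (.I .tdb (.c 16 (.c 40 (.c 18497 (.c 24 .nil)))) (.b 0 (.b 32 .nil)))) (.node (.I .tdb (.c 16 (.c 40 (.c 18497 (.c 32 .nil)))) (.b 4609 .nil)) (.I .tdb (.c 16 (.c 40 (.c 18497 (.c 8786435 .nil)))) .nil))))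 (.node (.node (.node (.I .tdb (.c 24 (.c 8193 (.c 1324065929 (.c 48 .nil)))) .nil) (.I .tdb (.c 16 (.c 12865 (.c 24 (.c 48 .nil)))) (.b 8193 .nil))) (.node (.I .tdb (.c 0 (.c 32 (.c 1324065929 (.c 48 .nil)))) (.b 24 .nil)) (.I .tdb (.c 16 (.c 12865 (.c 0 (.c 48 .nil)))) (.b 32 (.b 24 .nil))))) (.node (.node (.I .tdb (.c 16 (.c 12865 (.c 32 (.c 48 .nil)))) (.b 0 (.b 24 .nil))) (.I .tdb (.c 8 (.c 40 (.c 32 (.c 48 .nil)))) (.b 16 (.b 0 (.b 24 .nil))))) (.node (.I .tdb (.c 24 (.c 8193 (.c 20891715 (.c 48 .nil)))) .nil) (.I .tdb (.c 0 (.c 32 (.c 20891715 (.c 48 .nil)))) (.b 24 .nil))))))) (.node (.node (.node (.node (.node (.I .tdb (.c 16 (.c 12865 (.c 0 (.c 48 .nil)))) (.b 24 (.b 32 .nil))) (.I .tdb (.c 4609 (.c 32 (.c 35718473 (.c 48 .nil)))) .nil)) (.node (.I .tdb (.c 0 (.c 24 (.c 48 (.c 35718473 .nil)))) (.b 32 .nil)) (.I .tdb (.c 2113 (.c 40 (.c 0 (.c 48 .nil)))) (.b 24 (.b 32 .nil)))))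 (.node (.node (.I .tdb (.c 8 (.c 16 (.c 48 (.c 0 .nil)))) (.b 40 (.b 24 (.b 32 .nil)))) (.I .tdb (.c 2113 (.c 40 (.c 24 (.c 48 .nil)))) (.b 0 (.b 32 .nil)))) (.node (.I .tdb (.c 8 (.c 16 (.c 48 (.c 24 .nil)))) (.b 40 (.b 0 (.b 32 .nil)))) (.I .tdb (.c 4609 (.c 32 (.c 20891715 (.c 48 .nil)))) .nil)))) (.node (.node (.node (.I .tdb (.c 0 (.c 24 (.c 48 (.c 20891715 .nil)))) (.b 32 .nil)) (.I .tdb (.c 2113 (.c 40 (.c 8786435 (.c 48 .nil)))) .nil)) (.node (.I .tdb (.c 8 (.c 16 (.c 8786435 (.c 48 .nil)))) (.b 40 .nil)) (.I .jac (.c 8 (.c 16 (.c 43954883 .nil))) (.b 8193 .nil)))) (.node (.node (.I .tdb (.c 16 (.c 48 (.c 8 (.c 32 .nil)))) (.b 40 (.b 0 (.b 24 .nil)))) (.I .tdb (.c 4609 (.c 32 (.c 12865 (.c 18561 .nil)))) .nil)) (.node (.I .jac (.c 8 (.c 21099139 (.c 48 .nil))) (.b 0 (.b 32 .nil))) (.I .jac (.c 8 (.c 16 (.c 43954947 .nil))) (.b 4609 .nil)))))) (.node (.node (.node (.node (.I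 .tdb (.c 16 (.c 48 (.c 32 (.c 40 .nil)))) (.b 8 (.b 4609 .nil))) (.I .tdb (.c 8 (.c 16 (.c 8786435 (.c 18753 .nil)))) .nil)) (.node (.I .tdb (.c 24 (.c 8193 (.c 1337272713 (.c 8 .nil)))) .nil) (.I .jac (.c 43356739 (.c 16 (.c 40 .nil))) (.b 8193 .nil)))) (.node (.node (.I .tdb (.c 48 (.c 12929 (.c 8 (.c 24 .nil)))) (.b 8193 .nil)) (.I .tdb (.c 16 (.c 40 (.c 8 (.c 24 .nil)))) (.b 48 (.b 8193 .nil)))) (.node (.I .jac (.c 43655235 (.c 16 (.c 40 .nil))) (.b 0 (.b 24 .nil))) (.I .tdb (.c 0 (.c 24 (.c 2756086089 (.c 8 .nil)))) (.b 32 .nil))))) (.node (.node (.node (.I .tdb (.c 40 (.c 18561 (.c 8 (.c 24 .nil)))) (.b 0 (.b 32 .nil))) (.I .tdb (.c 40 (.c 18561 (.c 8 (.c 32 .nil)))) (.b 4609 .nil))) (.node (.I .jac (.c 43356739 (.c 16 (.c 40 .nil))) (.b 0 (.b 32 .nil))) (.I .tdb (.c 4609 (.c 32 (.c 43954819 (.c 8 .nil)))) .nil))) (.node (.node (.I .tdb (.c 40 (.c 18561 (.c 8 (.c 8786435 .nil))))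 .nil) (.I .tdb (.c 8 (.c 537002121 (.c 18625 (.c 40 .nil)))) .nil)) (.node (.I .tdb (.c 16 (.c 8193 (.c 18625 (.c 40 .nil)))) (.b 8 .nil)) (.I .tdb (.c 0 (.c 32 (.c 18625 (.c 40 .nil)))) (.b 16 (.b 8 .nil)))))))))

noncomputable def c2_65 : Tr := (.node (.node (.node (.node (.node (.node (.I .tdb (.c 2049 (.c 32 (.c 18625 (.c 40 .nil)))) (.b 8 .nil)) (.I .tdb (.c 0 (.c 16 (.c 40 (.c 18625 .nil)))) (.b 32 (.b 8 .nil)))) (.node (.I .tdb (.c 8 (.c 8652803 (.c 18625 (.c 40 .nil)))) .nil) (.I .tdb (.c 24 (.c 48 (.c 0 (.c 40 .nil)))) (.b 32 (.b 8 (.b 16 .nil)))))) (.node (.node (.I .tdb (.c 24 (.c 48 (.c 8520195 (.c 40 .nil)))) (.b 16 .nil)) (.I .tdb (.c 8 (.c 537002121 (.c 12993 (.c 48 .nil)))) .nil)) (.node (.I .tdb (.c 16 (.c 8193 (.c 12993 (.c 48 .nil)))) (.b 8 .nil)) (.I .tdb (.c 24 (.c 40 (.c 16 (.c 48 .nil)))) (.b 8193 (.b 8 .nil)))))) (.node (.node (.node (.I .tdb (.c 0 (.c 32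 (.c 12993 (.c 48 .nil)))) (.b 16 (.b 8 .nil))) (.I .tdb (.c 24 (.c 40 (.c 0 (.c 48 .nil)))) (.b 32 (.b 16 (.b 8 .nil))))) (.node (.I .tdb (.c 24 (.c 40 (.c 32 (.c 48 .nil)))) (.b 0 (.b 16 (.b 8 .nil)))) (.I .tdb (.c 24 (.c 40 (.c 8 (.c 48 .nil)))) (.b 33587465 .nil)))) (.node (.node (.I .tdb (.c 2049 (.c 32 (.c 12993 (.c 48 .nil)))) (.b 8 .nil)) (.I .tdb (.c 0 (.c 16 (.c 48 (.c 12993 .nil)))) (.b 32 (.b 8 .nil)))) (.node (.I .tdb (.c 24 (.c 40 (.c 0 (.c 48 .nil)))) (.b 16 (.b 32 (.b 8 .nil)))) (.I .tdb (.c 24 (.c 40 (.c 16 (.c 48 .nil)))) (.b 0 (.b 32 (.b 8 .nil)))))))) (.node (.node (.node (.node (.I .tdb (.c 24 (.c 40 (.c 32 (.c 48 .nil)))) (.b 2049 (.b 8 .nil))) (.I .tdb (.c 8 (.c 8652803 (.c 12993 (.c 48 .nil)))) .nil)) (.node (.I .tdb (.c 24 (.c 40 (.c 8 (.c 48 .nil)))) (.b 8652803 .nil)) (.I .tdb (.c 24 (.c 40 (.c 8652803 (.c 48 .nil)))) (.b 8 .nil)))) (.node (.node (.I .tdb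 (.c 24 (.c 40 (.c 16 (.c 48 .nil)))) (.b 2105609 .nil)) (.I .tdb (.c 513 (.c 32 (.c 48 (.c 12993 .nil)))) (.b 16 .nil))) (.node (.I .tdb (.c 0 (.c 8 (.c 48 (.c 12993 .nil)))) (.b 32 (.b 16 .nil))) (.I .tdb (.c 24 (.c 40 (.c 0 (.c 48 .nil)))) (.b 8 (.b 32 (.b 16 .nil))))))) (.node (.node (.node (.I .tdb (.c 24 (.c 40 (.c 8 (.c 48 .nil)))) (.b 0 (.b 32 (.b 16 .nil)))) (.I .tdb (.c 24 (.c 40 (.c 32 (.c 48 .nil)))) (.b 513 (.b 16 .nil)))) (.node (.I .tdb (.c 16 (.c 8520195 (.c 12993 (.c 48 .nil)))) .nil) (.I .tdb (.c 24 (.c 40 (.c 16 (.c 48 .nil)))) (.b 8520195 .nil)))) (.node (.node (.I .tdb (.c 24 (.c 40 (.c 8520195 (.c 48 .nil)))) (.b 16 .nil)) (.I .tdb (.c 32 (.c 33587273 (.c 12993 (.c 48 .nil)))) .nil)) (.node (.I .tdb (.c 32 (.c 2105481 (.c 12993 (.c 48 .nil)))) .nil) (.I .tdb (.c 24 (.c 40 (.c 32 (.c 48 .nil)))) (.b 2105481 .nil))))))) (.node (.node (.node (.node (.node (.I .tdb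 (.c 513 (.c 16 (.c 48 (.c 12993 .nil)))) (.b 32 .nil)) (.I .tdb (.c 0 (.c 8 (.c 48 (.c 12993 .nil)))) (.b 16 (.b 32 .nil)))) (.node (.I .tdb (.c 24 (.c 40 (.c 0 (.c 48 .nil)))) (.b 8 (.b 16 (.b 32 .nil)))) (.I .tdb (.c 24 (.c 40 (.c 8 (.c 48 .nil)))) (.b 0 (.b 16 (.b 32 .nil)))))) (.node (.node (.I .tdb (.c 24 (.c 40 (.c 16 (.c 48 .nil)))) (.b 513 (.b 32 .nil))) (.I .tdb (.c 40 (.c 48 (.c 24 (.c 32 .nil)))) (.b 0 (.b 16 (.b 8 .nil))))) (.node (.I .tdb (.c 2049 (.c 32 (.c 18753 (.c 24 .nil)))) (.b 8 .nil)) (.I .tdb (.c 0 (.c 16 (.c 18753 (.c 24 .nil)))) (.b 32 (.b 8 .nil)))))) (.node (.node (.node (.I .tdb (.c 40 (.c 48 (.c 0 (.c 24 .nil)))) (.b 16 (.b 32 (.b 8 .nil)))) (.I .tdb (.c 16 (.c 537002057 (.c 18753 (.c 24 .nil)))) .nil)) (.node (.I .tdb (.c 0 (.c 32 (.c 18753 (.c 24 .nil)))) (.b 8 (.b 16 .nil))) (.I .tdb (.c 513 (.c 32 (.c 18753 (.c 24 .nil)))) (.b 16 .nil)))) (.node (.node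 (.I .tdb (.c 0 (.c 8 (.c 24 (.c 18753 .nil)))) (.b 32 (.b 16 .nil))) (.I .tdb (.c 40 (.c 48 (.c 24 (.c 32 .nil)))) (.b 513 (.b 16 .nil)))) (.node (.I .tdb (.c 40 (.c 48 (.c 24 (.c 32 .nil)))) (.b 33587273 .nil)) (.I .tdb (.c 32 (.c 2105481 (.c 18753 (.c 24 .nil)))) .nil))))) (.node (.node (.node (.node (.I .tdb (.c 513 (.c 16 (.c 18753 (.c 24 .nil)))) (.b 32 .nil)) (.I .tdb (.c 0 (.c 8 (.c 24 (.c 18753 .nil)))) (.b 16 (.b 32 .nil)))) (.node (.I .tdb (.c 40 (.c 48 (.c 0 (.c 24 .nil)))) (.b 8 (.b 16 (.b 32 .nil)))) (.I .tdb (.c 32 (.c 557571 (.c 18753 (.c 24 .nil)))) .nil))) (.node (.node (.I .tdb (.c 40 (.c 48 (.c 24 (.c 32 .nil)))) (.b 557571 .nil)) (.I .tdb (.c 0 (.c 8652867 (.c 18753 (.c 24 .nil)))) .nil)) (.node (.I .tdb (.c 40 (.c 48 (.c 0 (.c 24 .nil)))) (.b 8652867 .nil)) (.I .tdb (.c 16 (.c 8193 (.c 2737112393 (.c 24 .nil)))) .nil)))) (.node (.node (.node (.I .tdb (.c 0 (.c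 32 (.c 2737112393 (.c 24 .nil)))) (.b 16 .nil)) (.I .tdb (.c 40 (.c 18497 (.c 24 (.c 32 .nil)))) (.b 0 (.b 16 .nil)))) (.node (.I .tdb (.c 0 (.c 32 (.c 1324066185 (.c 24 .nil)))) (.b 16 .nil)) (.I .tdb (.c 0 (.c 32 (.c 43954755 (.c 24 .nil)))) (.b 16 .nil)))) (.node (.node (.I .tdb (.c 2049 (.c 32 (.c 2737112393 (.c 24 .nil)))) .nil) (.I .tdb (.c 0 (.c 16 (.c 2737112393 (.c 24 .nil)))) (.b 32 .nil))) (.node (.I .tdb (.c 40 (.c 18497 (.c 24 (.c 32 .nil)))) (.b 2049 .nil)) (.I .tdb (.c 8 (.c 48 (.c 24 (.c 32 .nil)))) (.b 40 (.b 2049 .nil)))))))))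

noncomputable def c2_66 : Tr := (.node (.node (.node (.node (.node (.node (.I .tdb (.c 2049 (.c 32 (.c 43954755 (.c 24 .nil)))) .nil) (.I .tdb (.c 0 (.c 16 (.c 43954755 (.c 24 .nil)))) (.b 32 .nil))) (.node (.I .tdb (.c 40 (.c 18497 (.c 24 (.c 8652803 .nil)))) .nil) (.I .tdb (.c 48 (.c 12865 (.c 24 (.c 8652803 .nil)))) .nil))) (.node (.node (.I .tdb (.c 8 (.c 40 (.c 24 (.c 8652803 .nil)))) (.b 48 .nil)) (.I .tdb (.c 16 (.c 8193 (.c 2737112265 (.c 40 .nil)))) .nil)) (.node (.I .tdb (.c 24 (.c 18497 (.c 0 (.c 40 .nil)))) (.b 32 (.b 16 .nil))) (.I .tdb (.c 16 (.c 8193 (.c 174695817 (.c 40 .nil)))) .nil)))) (.node (.node (.node (.I .tdb (.c 0 (.c 32 (.c 174695817 (.c 40 .nil)))) (.b 16 .nil)) (.I .tdb (.c 4673 (.c 48 (.c 0 (.c 40 .nil)))) (.b 32 (.b 16 .nil)))) (.node (.I .tdb (.c 8 (.c 24 (.c 40 (.c 0 .nil)))) (.b 48 (.b 32 (.b 16 .nil)))) (.I .tdb (.c 16 (.c 8193 (.c 43356739 (.c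 40 .nil)))) .nil))) (.node (.node (.I .tdb (.c 2049 (.c 32 (.c 2737112265 (.c 40 .nil)))) .nil) (.I .tdb (.c 0 (.c 16 (.c 40 (.c 2737112265 .nil)))) (.b 32 .nil))) (.node (.I .tdb (.c 2049 (.c 32 (.c 174695817 (.c 40 .nil)))) .nil) (.I .tdb (.c 0 (.c 16 (.c 40 (.c 174695817 .nil)))) (.b 32 .nil)))))) (.node (.node (.node (.node (.I .tdb (.c 0 (.c 16 (.c 40 (.c 43356739 .nil)))) (.b 32 .nil)) (.I .tdb (.c 24 (.c 18497 (.c 8652803 (.c 40 .nil)))) .nil)) (.node (.I .tdb (.c 16 (.c 8193 (.c 12993 (.c 18497 .nil)))) .nil) (.I .tdb (.c 24 (.c 40 (.c 18497 (.c 16 .nil)))) (.b 8193 .nil)))) (.node (.node (.I .tdb (.c 0 (.c 32 (.c 12993 (.c 18497 .nil)))) (.b 16 .nil)) (.I .tdb (.c 24 (.c 40 (.c 18497 (.c 0 .nil)))) (.b 32 (.b 16 .nil)))) (.node (.I .tdb (.c 24 (.c 40 (.c 18497 (.c 32 .nil)))) (.b 0 (.b 16 .nil))) (.I .tdb (.c 24 (.c 40 (.c 18497 (.c 8652803 .nil)))) .nil)))) (.node (.node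 (.node (.I .tdb (.c 8 (.c 40 (.c 16 (.c 48 .nil)))) (.b 24 (.b 8193 .nil))) (.I .tdb (.c 24 (.c 12865 (.c 32 (.c 48 .nil)))) (.b 0 (.b 16 .nil)))) (.node (.I .tdb (.c 8 (.c 40 (.c 32 (.c 48 .nil)))) (.b 24 (.b 0 (.b 16 .nil)))) (.I .tdb (.c 4673 (.c 40 (.c 16 (.c 48 .nil)))) (.b 8193 .nil)))) (.node (.node (.I .tdb (.c 8 (.c 24 (.c 48 (.c 16 .nil)))) (.b 40 (.b 8193 .nil))) (.I .tdb (.c 0 (.c 32 (.c 21099075 (.c 48 .nil)))) (.b 16 .nil))) (.node (.I .tdb (.c 2049 (.c 32 (.c 1324065993 (.c 48 .nil)))) .nil) (.I .tdb (.c 0 (.c 16 (.c 48 (.c 1324065993 .nil)))) (.b 32 .nil))))))) (.node (.node (.node (.node (.node (.I .tdb (.c 24 (.c 12865 (.c 16 (.c 48 .nil)))) (.b 0 (.b 32 .nil))) (.I .tdb (.c 8 (.c 40 (.c 16 (.c 48 .nil)))) (.b 24 (.b 0 (.b 32 .nil))))) (.node (.I .tdb (.c 24 (.c 12865 (.c 32 (.c 48 .nil)))) (.b 2049 .nil)) (.I .tdb (.c 8 (.c 40 (.c 32 (.c 48 .nil)))) (.b 24 (.b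 2049 .nil))))) (.node (.node (.I .tdb (.c 4673 (.c 40 (.c 32 (.c 48 .nil)))) (.b 2049 .nil)) (.I .tdb (.c 8 (.c 24 (.c 32 (.c 48 .nil)))) (.b 40 (.b 2049 .nil)))) (.node (.I .tdb (.c 2049 (.c 32 (.c 21099075 (.c 48 .nil)))) .nil) (.I .tdb (.c 0 (.c 16 (.c 48 (.c 21099075 .nil)))) (.b 32 .nil))))) (.node (.node (.node (.I .tdb (.c 24 (.c 12865 (.c 8652803 (.c 48 .nil)))) .nil) (.I .jac (.c 8 (.c 43954819 (.c 24 .nil))) (.b 8193 .nil))) (.node (.I .tdb (.c 8 (.c 40 (.c 18625 (.c 16 .nil)))) (.b 8193 .nil)) (.I .tdb (.c 0 (.c 32 (.c 12865 (.c 18625 .nil)))) (.b 16 .nil)))) (.node (.node (.I .jac (.c 8 (.c 24 (.c 43954947 .nil))) (.b 0 (.b 16 .nil))) (.I .tdb (.c 8 (.c 40 (.c 18625 (.c 32 .nil)))) (.b 0 (.b 16 .nil)))) (.node (.I .tdb (.c 24 (.c 48 (.c 8 (.c 32 .nil)))) (.b 40 (.b 0 (.b 16 .nil)))) (.I .tdb (.c 24 (.c 48 (.c 32 (.c 40 .nil)))) (.b 8 (.b 0 (.b 16 .nil)))))))) (.node (.node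 (.node (.node (.I .tdb (.c 2049 (.c 32 (.c 12865 (.c 18625 .nil)))) .nil) (.I .tdb (.c 0 (.c 16 (.c 12865 (.c 18625 .nil)))) (.b 32 .nil))) (.node (.I .jac (.c 8 (.c 43954819 (.c 24 .nil))) (.b 0 (.b 32 .nil))) (.I .tdb (.c 8 (.c 40 (.c 18625 (.c 16 .nil)))) (.b 0 (.b 32 .nil))))) (.node (.node (.I .tdb (.c 24 (.c 48 (.c 16 (.c 40 .nil)))) (.b 8 (.b 0 (.b 32 .nil)))) (.I .jac (.c 8 (.c 21307587 (.c 48 .nil))) (.b 2049 .nil))) (.node (.I .jac (.c 8 (.c 24 (.c 43954947 .nil))) (.b 2049 .nil)) (.I .tdb (.c 8 (.c 40 (.c 18625 (.c 32 .nil)))) (.b 2049 .nil))))) (.node (.node (.node (.I .tdb (.c 24 (.c 48 (.c 32 (.c 40 .nil)))) (.b 8 (.b 2049 .nil))) (.I .tdb (.c 8 (.c 40 (.c 18625 (.c 8652803 .nil)))) .nil)) (.node (.I .tdb (.c 8 (.c 24 (.c 537002121 (.c 18753 .nil)))) .nil) (.I .tdb (.c 0 (.c 32 (.c 2775125321 (.c 8 .nil)))) (.b 16 .nil)))) (.node (.node (.I .tdb (.c 40 (.c 18625 (.c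 0 (.c 8 .nil)))) (.b 32 (.b 16 .nil))) (.I .tdb (.c 40 (.c 18625 (.c 8 (.c 32 .nil)))) (.b 0 (.b 16 .nil)))) (.node (.I .jac (.c 42762755 (.c 24 (.c 40 .nil))) (.b 32 (.b 16 .nil))) (.I .tdb (.c 16 (.c 8193 (.c 43954883 (.c 8 .nil)))) .nil)))))))

noncomputable def c2_67 : Tr := (.node (.node (.node (.node (.node (.node (.I .tdb (.c 2049 (.c 32 (.c 2775125321 (.c 8 .nil)))) .nil) (.I .tdb (.c 0 (.c 16 (.c 2775125321 (.c 8 .nil)))) (.b 32 .nil))) (.node (.I .tdb (.c 40 (.c 18625 (.c 0 (.c 8 .nil)))) (.b 16 (.b 32 .nil))) (.I .jac (.c 20891715 (.c 24 (.c 48 .nil))) (.b 0 (.b 32 .nil))))) (.node (.node (.I .tdb (.c 40 (.c 18625 (.c 8 (.c 16 .nil)))) (.b 0 (.b 32 .nil))) (.I .tdb (.c 40 (.c 18625 (.c 8 (.c 32 .nil)))) (.b 2049 .nil))) (.node (.I .jac (.c 42762755 (.c 24 (.c 40 .nil))) (.b 16 (.b 32 .nil))) (.I .tdb (.c 2049 (.c 32 (.c 43954883 (.c 8 .nil)))) .nil)))) (.node (.node (.node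 (.I .tdb (.c 0 (.c 16 (.c 43954883 (.c 8 .nil)))) (.b 32 .nil)) (.I .tdb (.c 40 (.c 18625 (.c 8 (.c 8652803 .nil)))) .nil)) (.node (.I .jac (.c 0 (.c 617629514824137 (.c 40 .nil))) (.b 8 .nil)) (.I .tdb (.c 40 (.c 18561 (.c 24 (.c 32 .nil)))) (.b 0 (.b 8 .nil))))) (.node (.node (.I .jac (.c 18433 (.c 8786563 (.c 40 .nil))) (.b 8 .nil)) (.I .jac (.c 0 (.c 617629514824073 (.c 48 .nil))) (.b 8 .nil))) (.node (.I .jac (.c 0 (.c 8786563 (.c 40 .nil))) (.b 48 (.b 8 .nil))) (.I .jac (.c 0 (.c 12929 (.c 43655363 .nil))) (.b 8 .nil)))))) (.node (.node (.node (.node (.I .jac (.c 0 (.c 16 (.c 40 .nil))) (.b 43655363 (.b 8 .nil))) (.I .tdb (.c 0 (.c 32 (.c 1337272713 (.c 24 .nil)))) (.b 8 .nil))) (.node (.I .tdb (.c 48 (.c 12929 (.c 0 (.c 24 .nil)))) (.b 32 (.b 8 .nil))) (.I .tdb (.c 16 (.c 40 (.c 0 (.c 24 .nil)))) (.b 48 (.b 32 (.b 8 .nil)))))) (.node (.node (.I .tdb (.c 48 (.c 12929 (.c 24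 (.c 32 .nil)))) (.b 0 (.b 8 .nil))) (.I .tdb (.c 16 (.c 40 (.c 24 (.c 32 .nil)))) (.b 48 (.b 0 (.b 8 .nil))))) (.node (.I .jac (.c 43356675 (.c 16 (.c 40 .nil))) (.b 8 (.b 32 .nil))) (.I .tdb (.c 48 (.c 12929 (.c 0 (.c 24 .nil)))) (.b 8 (.b 32 .nil)))))) (.node (.node (.node (.I .tdb (.c 16 (.c 40 (.c 0 (.c 24 .nil)))) (.b 48 (.b 8 (.b 32 .nil)))) (.I .tdb (.c 0 (.c 32 (.c 2756085961 (.c 40 .nil)))) (.b 8 .nil))) (.node (.I .tdb (.c 8 (.c 8193 (.c 179513737 (.c 40 .nil)))) .nil) (.I .tdb (.c 0 (.c 32 (.c 179513737 (.c 40 .nil)))) (.b 8 .nil)))) (.node (.node (.I .tdb (.c 4737 (.c 48 (.c 0 (.c 40 .nil)))) (.b 32 (.b 8 .nil))) (.I .tdb (.c 16 (.c 24 (.c 40 (.c 0 .nil)))) (.b 48 (.b 32 (.b 8 .nil))))) (.node (.I .tdb (.c 8 (.c 8193 (.c 43356803 (.c 40 .nil)))) .nil) (.I .tdb (.c 0 (.c 32 (.c 43356803 (.c 40 .nil)))) (.b 8 .nil))))))) (.node (.node (.node (.node (.node (.I .tdb (.c 24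 (.c 18561 (.c 0 (.c 40 .nil)))) (.b 8 (.b 32 .nil))) (.I .tdb (.c 4737 (.c 48 (.c 0 (.c 40 .nil)))) (.b 8 (.b 32 .nil)))) (.node (.I .tdb (.c 16 (.c 24 (.c 40 (.c 0 .nil)))) (.b 48 (.b 8 (.b 32 .nil)))) (.I .tdb (.c 513 (.c 32 (.c 40 (.c 43356803 .nil)))) .nil))) (.node (.node (.I .tdb (.c 8 (.c 8193 (.c 12993 (.c 18561 .nil)))) .nil) (.I .tdb (.c 0 (.c 8 (.c 12993 (.c 18561 .nil)))) (.b 32 .nil))) (.node (.I .tdb (.c 24 (.c 40 (.c 18561 (.c 0 .nil)))) (.b 8 (.b 32 .nil))) (.I .tdb (.c 24 (.c 40 (.c 18561 (.c 8 .nil)))) (.b 0 (.b 32 .nil)))))) (.node (.node (.node (.I .tdb (.c 24 (.c 40 (.c 18561 (.c 32 .nil)))) (.b 513 .nil)) (.I .tdb (.c 16 (.c 40 (.c 8 (.c 48 .nil)))) (.b 24 (.b 8193 .nil)))) (.node (.I .jac (.c 0 (.c 15246281046235401 (.c 40 .nil))) (.b 8 .nil)) (.I .tdb (.c 4737 (.c 40 (.c 0 (.c 48 .nil)))) (.b 32 (.b 8 .nil))))) (.node (.node (.I .tdb (.c 16 (.c 24 (.c 48 (.c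 0 .nil)))) (.b 40 (.b 32 (.b 8 .nil)))) (.I .tdb (.c 0 (.c 32 (.c 21099139 (.c 48 .nil)))) (.b 8 .nil))) (.node (.I .tdb (.c 513 (.c 32 (.c 48 (.c 1337272521 .nil)))) .nil) (.I .tdb (.c 0 (.c 8 (.c 48 (.c 1337272521 .nil)))) (.b 32 .nil)))))) (.node (.node (.node (.node (.I .tdb (.c 24 (.c 12929 (.c 0 (.c 48 .nil)))) (.b 8 (.b 32 .nil))) (.I .tdb (.c 16 (.c 40 (.c 8 (.c 48 .nil)))) (.b 24 (.b 0 (.b 32 .nil))))) (.node (.I .tdb (.c 24 (.c 12929 (.c 8 (.c 48 .nil)))) (.b 0 (.b 32 .nil))) (.I .tdb (.c 24 (.c 12929 (.c 32 (.c 48 .nil)))) (.b 513 .nil)))) (.node (.node (.I .tdb (.c 16 (.c 40 (.c 32 (.c 48 .nil)))) (.b 24 (.b 513 .nil))) (.I .tdb (.c 513 (.c 32 (.c 48 (.c 179513673 .nil)))) .nil)) (.node (.I .tdb (.c 0 (.c 8 (.c 48 (.c 179513673 .nil)))) (.b 32 .nil)) (.I .tdb (.c 4737 (.c 40 (.c 0 (.c 48 .nil)))) (.b 8 (.b 32 .nil)))))) (.node (.node (.node (.I .tdb (.c 16 (.c 24 (.c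 48 (.c 0 .nil)))) (.b 40 (.b 8 (.b 32 .nil)))) (.I .tdb (.c 4737 (.c 40 (.c 8 (.c 48 .nil)))) (.b 0 (.b 32 .nil)))) (.node (.I .tdb (.c 16 (.c 24 (.c 48 (.c 8 .nil)))) (.b 40 (.b 0 (.b 32 .nil)))) (.I .tdb (.c 513 (.c 32 (.c 48 (.c 21099139 .nil)))) .nil))) (.node (.node (.I .tdb (.c 0 (.c 8 (.c 48 (.c 21099139 .nil)))) (.b 32 .nil)) (.I .tdb (.c 8 (.c 8193 (.c 12929 (.c 18625 .nil)))) .nil)) (.node (.I .tdb (.c 16 (.c 40 (.c 18625 (.c 8 .nil)))) (.b 8193 .nil)) (.I .tdb (.c 0 (.c 32 (.c 12929 (.c 18625 .nil)))) (.b 8 .nil))))))))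

noncomputable def c2_68 : Tr := (.node (.node (.node (.node (.node (.node (.I .tdb (.c 16 (.c 40 (.c 18625 (.c 0 .nil)))) (.b 32 (.b 8 .nil))) (.I .jac (.c 16 (.c 21307587 (.c 48 .nil))) (.b 0 (.b 8 .nil)))) (.node (.I .jac (.c 16 (.c 24 (.c 43954947 .nil))) (.b 0 (.b 8 .nil))) (.I .tdb (.c 16 (.c 40 (.c 18625 (.c 32 .nil)))) (.b 0 (.b 8 .nil))))) (.node (.node (.I .tdb (.c 24 (.c 48 (.c 16 (.c 32 .nil)))) (.b 40 (.b 0 (.b 8 .nil)))) (.I .tdb (.c 24 (.c 48 (.c 32 (.c 40 .nil)))) (.b 16 (.b 0 (.b 8 .nil))))) (.node (.I .tdb (.c 24 (.c 48 (.c 16 (.c 32 .nil)))) (.b 40 (.b 513 .nil))) (.I .tdb (.c 16 (.c 40 (.c 18625 (.c 8520195 .nil)))) .nil)))) (.node (.node (.node (.I .tdb (.c 8 (.c 8193 (.c 2775125321 (.c 16 .nil)))) .nil) (.I .jac (.c 20891651 (.c 24 (.c 48 .nil))) (.b 32 (.b 8 .nil)))) (.node (.I .jac (.c 43059203 (.c 24 (.c 40 .nil))) (.b 32 (.b 8 .nil))) (.I .tdb (.c 8 (.c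 8193 (.c 43954883 (.c 16 .nil)))) .nil))) (.node (.node (.I .tdb (.c 0 (.c 32 (.c 43954883 (.c 16 .nil)))) (.b 8 .nil)) (.I .jac (.c 43059203 (.c 24 (.c 40 .nil))) (.b 8 (.b 32 .nil)))) (.node (.I .tdb (.c 0 (.c 8 (.c 16 (.c 43954883 .nil)))) (.b 32 .nil)) (.I .tdb (.c 24 (.c 2737112393 (.c 0 (.c 16 .nil)))) (.b 32 .nil)))))) (.node (.node (.node (.node (.I .tdb (.c 24 (.c 2737112393 (.c 16 (.c 32 .nil)))) (.b 0 .nil)) (.I .tdb (.c 8 (.c 48 (.c 16 (.c 32 .nil)))) (.b 40 (.b 24 (.b 0 .nil))))) (.node (.I .tdb (.c 0 (.c 32 (.c 14025210098083633993 (.c 16 .nil)))) .nil) (.I .tdb (.c 24 (.c 1324066185 (.c 16 (.c 32 .nil)))) (.b 0 .nil)))) (.node (.node (.I .tdb (.c 0 (.c 32 (.c 15456163896880393 (.c 16 .nil)))) .nil) (.I .tdb (.c 24 (.c 43954755 (.c 0 (.c 16 .nil)))) (.b 32 .nil))) (.node (.I .tdb (.c 24 (.c 43954755 (.c 16 (.c 32 .nil)))) (.b 0 .nil)) (.I .tdb (.c 40 (.c 2737112265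 (.c 0 (.c 16 .nil)))) (.b 32 .nil))))) (.node (.node (.node (.I .tdb (.c 40 (.c 2737112265 (.c 16 (.c 32 .nil)))) (.b 0 .nil)) (.I .tdb (.c 24 (.c 18497 (.c 16 (.c 32 .nil)))) (.b 40 (.b 0 .nil)))) (.node (.I .tdb (.c 8 (.c 48 (.c 16 (.c 32 .nil)))) (.b 24 (.b 40 (.b 0 .nil)))) (.I .tdb (.c 0 (.c 32 (.c 244149027818380233 (.c 16 .nil)))) .nil))) (.node (.node (.I .tdb (.c 40 (.c 174695817 (.c 0 (.c 16 .nil)))) (.b 32 .nil)) (.I .tdb (.c 4673 (.c 48 (.c 16 (.c 32 .nil)))) (.b 40 (.b 0 .nil)))) (.node (.I .tdb (.c 8 (.c 24 (.c 32 (.c 16 .nil)))) (.b 48 (.b 40 (.b 0 .nil)))) (.I .tdb (.c 0 (.c 32 (.c 15038454533713289 (.c 16 .nil)))) .nil)))))) (.node (.node (.node (.node (.node (.I .tdb (.c 40 (.c 43356739 (.c 16 (.c 32 .nil)))) (.b 0 .nil)) (.I .tdb (.c 0 (.c 32 (.c 14025206030552608777 (.c 16 .nil)))) .nil)) (.node (.I .tdb (.c 48 (.c 1324065993 (.c 0 (.c 16 .nil)))) (.b 32 .nil))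 (.I .tdb (.c 8 (.c 40 (.c 0 (.c 16 .nil)))) (.b 24 (.b 48 (.b 32 .nil)))))) (.node (.node (.I .tdb (.c 24 (.c 12865 (.c 0 (.c 16 .nil)))) (.b 48 (.b 32 .nil))) (.I .tdb (.c 48 (.c 174695753 (.c 0 (.c 16 .nil)))) (.b 32 .nil))) (.node (.I .tdb (.c 4673 (.c 40 (.c 0 (.c 16 .nil)))) (.b 48 (.b 32 .nil))) (.I .tdb (.c 8 (.c 24 (.c 0 (.c 16 .nil)))) (.b 40 (.b 48 (.b 32 .nil))))))) (.node (.node (.node (.I .tdb (.c 48 (.c 21099075 (.c 0 (.c 16 .nil)))) (.b 32 .nil)) (.I .tdb (.c 8 (.c 43954883 (.c 0 (.c 16 .nil)))) (.b 32 .nil))) (.node (.I .tdb (.c 16 (.c 1324066185 (.c 0 (.c 24 .nil)))) (.b 32 .nil)) (.I .tdb (.c 16 (.c 43954755 (.c 0 (.c 24 .nil)))) (.b 32 .nil)))) (.node (.node (.I .tdb (.c 40 (.c 2737112201 (.c 0 (.c 24 .nil)))) (.b 32 .nil)) (.I .tdb (.c 16 (.c 18497 (.c 24 (.c 32 .nil)))) (.b 40 (.b 0 .nil)))) (.node (.I .tdb (.c 8 (.c 48 (.c 24 (.c 32 .nil)))) (.b 16 (.b 40 (.b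 0 .nil)))) (.I .tdb (.c 40 (.c 35718537 (.c 24 (.c 32 .nil)))) (.b 0 .nil)))))) (.node (.node (.node (.node (.I .tdb (.c 2113 (.c 48 (.c 24 (.c 32 .nil)))) (.b 40 (.b 0 .nil))) (.I .tdb (.c 8 (.c 16 (.c 32 (.c 24 .nil)))) (.b 48 (.b 40 (.b 0 .nil))))) (.node (.I .tdb (.c 40 (.c 43059267 (.c 0 (.c 24 .nil)))) (.b 32 .nil)) (.I .tdb (.c 40 (.c 43059267 (.c 24 (.c 32 .nil)))) (.b 0 .nil)))) (.node (.node (.I .tdb (.c 0 (.c 32 (.c 14025204674709064713 (.c 24 .nil)))) .nil) (.I .tdb (.c 48 (.c 1324065929 (.c 24 (.c 32 .nil)))) (.b 0 .nil))) (.node (.I .tdb (.c 16 (.c 12865 (.c 24 (.c 32 .nil)))) (.b 48 (.b 0 .nil))) (.I .tdb (.c 8 (.c 40 (.c 24 (.c 32 .nil)))) (.b 16 (.b 48 (.b 0 .nil))))))) (.node (.node (.node (.I .tdb (.c 0 (.c 32 (.c 10206474507614217 (.c 24 .nil)))) .nil) (.I .tdb (.c 0 (.c 32 (.c 3491710045130185 (.c 24 .nil)))) .nil)) (.node (.I .tdb (.c 16 (.c 24 (.c 8193 (.c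 1324066185 .nil)))) .nil) (.I .tdb (.c 0 (.c 32 (.c 59934268409707441929 (.c 40 .nil)))) .nil))) (.node (.node (.I .tdb (.c 16 (.c 2737112265 (.c 0 (.c 40 .nil)))) (.b 32 .nil)) (.I .tdb (.c 0 (.c 32 (.c 244149027818380041 (.c 40 .nil)))) .nil)) (.node (.I .tdb (.c 16 (.c 174695817 (.c 0 (.c 40 .nil)))) (.b 32 .nil)) (.I .tdb (.c 16 (.c 43356739 (.c 0 (.c 40 .nil)))) (.b 32 .nil))))))))

noncomputable def c2_69 : Tr := (.node (.node (.node (.node (.node (.node (.I .tdb (.c 24 (.c 2737112201 (.c 0 (.c 40 .nil)))) (.b 32 .nil)) (.I .tdb (.c 0 (.c 32 (.c 10206511083363145 (.c 40 .nil)))) .nil)) (.node (.I .tdb (.c 0 (.c 32 (.c 244148312264838153 (.c 40 .nil)))) .nil) (.I .tdb (.c 0 (.c 32 (.c 10206401356312585 (.c 40 .nil)))) .nil))) (.node (.node (.I .tdb (.c 48 (.c 35718345 (.c 0 (.c 40 .nil)))) (.b 32 .nil)) (.I .tdb (.c 8 (.c 16 (.c 40 (.c 0 .nil)))) (.b 24 (.b 48 (.b 32 .nil)))))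 (.node (.I .tdb (.c 24 (.c 2113 (.c 0 (.c 40 .nil)))) (.b 48 (.b 32 .nil))) (.I .tdb (.c 0 (.c 32 (.c 15038498931046537 (.c 40 .nil)))) .nil)))) (.node (.node (.node (.I .tdb (.c 8 (.c 43356803 (.c 0 (.c 40 .nil)))) (.b 32 .nil)) (.I .tdb (.c 16 (.c 40 (.c 2737112265 (.c 32 .nil)))) (.b 0 .nil))) (.node (.I .tdb (.c 0 (.c 32 (.c 12929 (.c 174695817 .nil)))) .nil) (.I .tdb (.c 16 (.c 40 (.c 174695817 (.c 0 .nil)))) (.b 32 .nil)))) (.node (.node (.I .tdb (.c 16 (.c 40 (.c 174695817 (.c 32 .nil)))) (.b 0 .nil)) (.I .tdb (.c 24 (.c 40 (.c 2737112201 (.c 32 .nil)))) (.b 0 .nil))) (.node (.I .tdb (.c 0 (.c 32 (.c 12993 (.c 35718537 .nil)))) .nil) (.I .tdb (.c 24 (.c 40 (.c 35718537 (.c 0 .nil)))) (.b 32 .nil)))))) (.node (.node (.node (.node (.I .tdb (.c 24 (.c 40 (.c 35718537 (.c 32 .nil)))) (.b 0 .nil)) (.I .tdb (.c 0 (.c 32 (.c 12993 (.c 43059267 .nil)))) .nil)) (.node (.I .tdb (.c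 24 (.c 40 (.c 43059267 (.c 0 .nil)))) (.b 32 .nil)) (.I .tdb (.c 24 (.c 40 (.c 43059267 (.c 32 .nil)))) (.b 0 .nil)))) (.node (.node (.I .tdb (.c 0 (.c 32 (.c 1337272521 (.c 18497 .nil)))) .nil) (.I .jac (.c 15246325749294217 (.c 16 (.c 40 .nil))) (.b 0 .nil))) (.node (.I .tdb (.c 8 (.c 48 (.c 24 (.c 32 .nil)))) (.b 12929 (.b 0 .nil))) (.I .tdb (.c 24 (.c 12929 (.c 18497 (.c 32 .nil)))) (.b 0 .nil))))) (.node (.node (.node (.I .tdb (.c 4737 (.c 40 (.c 18497 (.c 0 .nil)))) (.b 32 .nil)) (.I .tdb (.c 16 (.c 24 (.c 18497 (.c 0 .nil)))) (.b 40 (.b 32 .nil)))) (.node (.I .tdb (.c 8 (.c 48 (.c 0 (.c 40 .nil)))) (.b 4737 (.b 32 .nil))) (.I .jac (.c 15456298926182537 (.c 16 (.c 24 .nil))) (.b 0 .nil)))) (.node (.node (.I .tdb (.c 0 (.c 32 (.c 21099139 (.c 18497 .nil)))) .nil) (.I .tdb (.c 8 (.c 48 (.c 0 (.c 21099139 .nil)))) (.b 32 .nil))) (.node (.I .tdb (.c 0 (.c 32 (.c 14025206030552608521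 (.c 48 .nil)))) .nil) (.I .tdb (.c 16 (.c 1324065993 (.c 0 (.c 48 .nil)))) (.b 32 .nil))))))) (.node (.node (.node (.node (.node (.I .tdb (.c 16 (.c 1324065993 (.c 32 (.c 48 .nil)))) (.b 0 .nil)) (.I .tdb (.c 24 (.c 12865 (.c 32 (.c 48 .nil)))) (.b 16 (.b 0 .nil)))) (.node (.I .tdb (.c 8 (.c 40 (.c 32 (.c 48 .nil)))) (.b 24 (.b 16 (.b 0 .nil)))) (.I .tdb (.c 0 (.c 32 (.c 244148848929896201 (.c 48 .nil)))) .nil))) (.node (.node (.I .tdb (.c 16 (.c 174695753 (.c 0 (.c 48 .nil)))) (.b 32 .nil)) (.I .tdb (.c 16 (.c 174695753 (.c 32 (.c 48 .nil)))) (.b 0 .nil))) (.node (.I .tdb (.c 4673 (.c 40 (.c 32 (.c 48 .nil)))) (.b 16 (.b 0 .nil))) (.I .tdb (.c 8 (.c 24 (.c 32 (.c 48 .nil)))) (.b 40 (.b 16 (.b 0 .nil))))))) (.node (.node (.node (.I .tdb (.c 0 (.c 32 (.c 14025204674709064521 (.c 48 .nil)))) .nil) (.I .tdb (.c 24 (.c 1324065929 (.c 0 (.c 48 .nil)))) (.b 32 .nil))) (.node (.I .tdb (.c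 24 (.c 1324065929 (.c 32 (.c 48 .nil)))) (.b 0 .nil)) (.I .tdb (.c 16 (.c 12865 (.c 32 (.c 48 .nil)))) (.b 24 (.b 0 .nil))))) (.node (.node (.I .tdb (.c 8 (.c 40 (.c 32 (.c 48 .nil)))) (.b 16 (.b 24 (.b 0 .nil)))) (.I .tdb (.c 0 (.c 32 (.c 10206474507614025 (.c 48 .nil)))) .nil)) (.node (.I .tdb (.c 24 (.c 35718473 (.c 0 (.c 48 .nil)))) (.b 32 .nil)) (.I .tdb (.c 24 (.c 35718473 (.c 32 (.c 48 .nil)))) (.b 0 .nil)))))) (.node (.node (.node (.node (.I .tdb (.c 2113 (.c 40 (.c 32 (.c 48 .nil)))) (.b 24 (.b 0 .nil))) (.I .tdb (.c 8 (.c 16 (.c 32 (.c 48 .nil)))) (.b 40 (.b 24 (.b 0 .nil))))) (.node (.I .jac (.c 12865 (.c 8786563 (.c 48 .nil))) (.b 0 .nil)) (.I .jac (.c 12865 (.c 16 (.c 43655363 .nil))) (.b 0 .nil)))) (.node (.node (.I .jac (.c 8 (.c 16 (.c 43954947 .nil))) (.b 24 (.b 0 .nil))) (.I .tdb (.c 8 (.c 40 (.c 18561 (.c 32 .nil)))) (.b 24 (.b 0 .nil)))) (.node (.I .tdb (.c 16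 (.c 48 (.c 8 (.c 32 .nil)))) (.b 40 (.b 24 (.b 0 .nil)))) (.I .tdb (.c 16 (.c 48 (.c 32 (.c 40 .nil)))) (.b 8 (.b 24 (.b 0 .nil))))))) (.node (.node (.node (.I .tdb (.c 4673 (.c 40 (.c 18561 (.c 0 .nil)))) (.b 32 .nil)) (.I .tdb (.c 8 (.c 24 (.c 18561 (.c 0 .nil)))) (.b 40 (.b 32 .nil)))) (.node (.I .tdb (.c 16 (.c 48 (.c 0 (.c 40 .nil)))) (.b 4673 (.b 32 .nil))) (.I .jac (.c 8 (.c 8786563 (.c 48 .nil))) (.b 40 (.b 0 .nil))))) (.node (.node (.I .jac (.c 8 (.c 16 (.c 43655363 .nil))) (.b 40 (.b 0 .nil))) (.I .tdb (.c 16 (.c 48 (.c 8 (.c 32 .nil)))) (.b 24 (.b 40 (.b 0 .nil))))) (.node (.I .tdb (.c 0 (.c 32 (.c 1324065929 (.c 18625 .nil)))) .nil) (.I .tdb (.c 16 (.c 12865 (.c 18625 (.c 0 .nil)))) (.b 32 .nil))))))))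

noncomputable def c2_70 : Tr := (.node (.node (.node (.node (.node (.node (.I .tdb (.c 24 (.c 48 (.c 0 (.c 16 .nil)))) (.b 12865 (.b 32 .nil))) (.I .jac (.c 12865 (.c 43655299 (.c 24 .nil))) (.b 0 .nil))) (.node (.I .tdb (.c 24 (.c 48 (.c 16 (.c 32 .nil)))) (.b 12865 (.b 0 .nil))) (.I .tdb (.c 16 (.c 12865 (.c 18625 (.c 32 .nil)))) (.b 0 .nil)))) (.node (.node (.I .jac (.c 8 (.c 21307587 (.c 48 .nil))) (.b 16 (.b 0 .nil))) (.I .tdb (.c 24 (.c 48 (.c 8 (.c 32 .nil)))) (.b 40 (.b 16 (.b 0 .nil))))) (.node (.I .tdb (.c 0 (.c 32 (.c 35718473 (.c 18625 .nil)))) .nil) (.I .jac (.c 2113 (.c 21307587 (.c 48 .nil))) (.b 0 .nil))))) (.node (.node (.node (.I .jac (.c 2113 (.c 24 (.c 43954947 .nil))) (.b 0 .nil)) (.I .tdb (.c 2113 (.c 40 (.c 18625 (.c 32 .nil)))) (.b 0 .nil))) (.node (.I .tdb (.c 8 (.c 16 (.c 32 (.c 18625 .nil)))) (.b 40 (.b 0 .nil))) (.I .tdb (.c 24 (.c 48 (.c 8 (.c 32 .nil))))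 (.b 16 (.b 40 (.b 0 .nil)))))) (.node (.node (.I .tdb (.c 24 (.c 48 (.c 32 (.c 40 .nil)))) (.b 2113 (.b 0 .nil))) (.I .tdb (.c 8 (.c 40 (.c 2756085961 (.c 0 .nil)))) (.b 32 .nil))) (.node (.I .jac (.c 8786499 (.c 16 (.c 48 .nil))) (.b 40 (.b 0 .nil))) (.I .jac (.c 8 (.c 3632084291164617 (.c 24 .nil))) (.b 0 .nil)))))) (.node (.node (.node (.node (.I .tdb (.c 24 (.c 18561 (.c 8 (.c 32 .nil)))) (.b 40 (.b 0 .nil))) (.I .tdb (.c 16 (.c 48 (.c 32 (.c 40 .nil)))) (.b 24 (.b 8 (.b 0 .nil))))) (.node (.I .tdb (.c 8 (.c 40 (.c 179513737 (.c 0 .nil)))) (.b 32 .nil)) (.I .jac (.c 18497 (.c 16 (.c 21307587 .nil))) (.b 0 .nil)))) (.node (.node (.I .jac (.c 8 (.c 3632106110100681 (.c 48 .nil))) (.b 0 .nil)) (.I .jac (.c 8 (.c 16 (.c 21307587 .nil))) (.b 48 (.b 0 .nil)))) (.node (.I .jac (.c 8 (.c 4737 (.c 43954947 .nil))) (.b 0 .nil)) (.I .jac (.c 8 (.c 16 (.c 24 .nil))) (.b 43954947 (.b 0 .nil))))))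 (.node (.node (.node (.I .tdb (.c 0 (.c 32 (.c 12865 (.c 43356803 .nil)))) .nil) (.I .tdb (.c 8 (.c 40 (.c 43356803 (.c 0 .nil)))) (.b 32 .nil))) (.node (.I .tdb (.c 8 (.c 40 (.c 43356803 (.c 32 .nil)))) (.b 0 .nil)) (.I .tdb (.c 16 (.c 4673 (.c 8193 (.c 18753 .nil)))) .nil))) (.node (.node (.I .tdb (.c 0 (.c 32 (.c 18753 (.c 16 .nil)))) (.b 4673 .nil)) (.I .tdb (.c 40 (.c 48 (.c 0 (.c 16 .nil)))) (.b 32 (.b 4673 .nil)))) (.node (.I .tdb (.c 40 (.c 48 (.c 16 (.c 32 .nil)))) (.b 0 (.b 4673 .nil))) (.I .tdb (.c 8 (.c 24 (.c 8193 (.c 18753 .nil)))) (.b 16 .nil))))))) (.node (.node (.node (.node (.node (.I .jac (.c 0 (.c 43655363 (.c 40 .nil))) (.b 2113 .nil)) (.I .tdb (.c 0 (.c 32 (.c 18753 (.c 2803779 .nil)))) .nil)) (.node (.I .tdb (.c 40 (.c 48 (.c 0 (.c 2803779 .nil)))) (.b 32 .nil)) (.I .tdb (.c 8 (.c 24 (.c 8193 (.c 1337272713 .nil)))) .nil))) (.node (.node (.I .tdb (.c 24 (.c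 2756086089 (.c 0 (.c 8 .nil)))) (.b 32 .nil)) (.I .tdb (.c 40 (.c 18561 (.c 8 (.c 32 .nil)))) (.b 24 (.b 0 .nil)))) (.node (.I .tdb (.c 24 (.c 1337272713 (.c 0 (.c 8 .nil)))) (.b 32 .nil)) (.I .tdb (.c 0 (.c 32 (.c 15456208906582281 (.c 8 .nil)))) .nil)))) (.node (.node (.node (.I .tdb (.c 24 (.c 43954819 (.c 0 (.c 8 .nil)))) (.b 32 .nil)) (.I .tdb (.c 0 (.c 32 (.c 15038498931046793 (.c 8 .nil)))) .nil)) (.node (.I .tdb (.c 48 (.c 179513673 (.c 0 (.c 8 .nil)))) (.b 32 .nil)) (.I .tdb (.c 4737 (.c 40 (.c 0 (.c 8 .nil)))) (.b 48 (.b 32 .nil))))) (.node (.node (.I .tdb (.c 16 (.c 24 (.c 0 (.c 8 .nil)))) (.b 40 (.b 48 (.b 32 .nil)))) (.I .jac (.c 15246236343242121 (.c 16 (.c 24 .nil))) (.b 0 .nil))) (.node (.I .jac (.c 43655235 (.c 4737 (.c 40 .nil))) (.b 0 .nil)) (.I .tdb (.c 48 (.c 21099139 (.c 0 (.c 8 .nil)))) (.b 32 .nil)))))) (.node (.node (.node (.node (.I .tdb (.c 48 (.c 21099139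 (.c 8 (.c 32 .nil)))) (.b 0 .nil)) (.I .tdb (.c 0 (.c 32 (.c 15456253916349641 (.c 8 .nil)))) .nil)) (.node (.I .tdb (.c 16 (.c 43954883 (.c 0 (.c 8 .nil)))) (.b 32 .nil)) (.I .tdb (.c 8 (.c 169943177 (.c 18689 (.c 40 .nil)))) .nil))) (.node (.node (.I .tdb (.c 8 (.c 33587401 (.c 18689 (.c 40 .nil)))) .nil) (.I .tdb (.c 32 (.c 48 (.c 0 (.c 40 .nil)))) (.b 16 (.b 24 (.b 8 .nil))))) (.node (.I .tdb (.c 8 (.c 2803715 (.c 18689 (.c 40 .nil)))) .nil) (.I .tdb (.c 16 (.c 2728451 (.c 18689 (.c 40 .nil)))) .nil)))) (.node (.node (.node (.I .tdb (.c 32 (.c 48 (.c 2728451 (.c 40 .nil)))) (.b 16 .nil)) (.I .tdb (.c 24 (.c 33587273 (.c 18689 (.c 40 .nil)))) .nil)) (.node (.I .tdb (.c 8 (.c 2049 (.c 18689 (.c 40 .nil)))) (.b 24 .nil)) (.I .tdb (.c 0 (.c 16 (.c 40 (.c 18689 .nil)))) (.b 8 (.b 24 .nil))))) (.node (.node (.I .tdb (.c 32 (.c 48 (.c 0 (.c 40 .nil)))) (.b 16 (.b 8 (.b 24 .nil)))) (.I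 .tdb (.c 32 (.c 48 (.c 0 (.c 40 .nil)))) (.b 8 (.b 16 (.b 24 .nil))))) (.node (.I .tdb (.c 24 (.c 557571 (.c 18689 (.c 40 .nil)))) .nil) (.I .tdb (.c 32 (.c 48 (.c 557571 (.c 40 .nil)))) (.b 24 .nil))))))))

noncomputable def c2_71 : Tr := (.node (.node (.node (.node (.node (.node (.I .tdb (.c 32 (.c 40 (.c 48 (.c 9024908047478473 .nil)))) .nil) (.I .tdb (.c 32 (.c 40 (.c 48 (.c 231045293249046281 .nil)))) .nil)) (.node (.I .tdb (.c 32 (.c 40 (.c 48 (.c 35466557976329 .nil)))) .nil) (.I .tdb (.c 32 (.c 40 (.c 48 (.c 35464401931081 .nil)))) .nil))) (.node (.node (.I .tdb (.c 32 (.c 40 (.c 48 (.c 2487083360521 .nil)))) .nil) (.I .tdb (.c 32 (.c 40 (.c 48 (.c 62889413446729 .nil)))) .nil)) (.node (.I .tdb (.c 16 (.c 4609 (.c 18753 (.c 32 .nil)))) (.b 8 .nil)) (.I .tdb (.c 0 (.c 24 (.c 32 (.c 18753 .nil)))) (.b 16 (.b 8 .nil)))))) (.node (.node (.node (.I .tdb (.c 40 (.c 48 (.c 0 (.c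 32 .nil)))) (.b 24 (.b 16 (.b 8 .nil)))) (.I .tdb (.c 24 (.c 2049 (.c 18753 (.c 32 .nil)))) (.b 8 .nil))) (.node (.I .tdb (.c 0 (.c 16 (.c 32 (.c 18753 .nil)))) (.b 24 (.b 8 .nil))) (.I .tdb (.c 40 (.c 48 (.c 32 (.c 2803715 .nil)))) (.b 8 .nil)))) (.node (.node (.I .tdb (.c 16 (.c 169943113 (.c 18753 (.c 32 .nil)))) .nil) (.I .tdb (.c 8 (.c 4609 (.c 18753 (.c 32 .nil)))) (.b 16 .nil))) (.node (.I .tdb (.c 0 (.c 24 (.c 32 (.c 18753 .nil)))) (.b 8 (.b 16 .nil))) (.I .tdb (.c 16 (.c 2728451 (.c 18753 (.c 32 .nil)))) .nil))))) (.node (.node (.node (.node (.I .tdb (.c 40 (.c 48 (.c 32 (.c 2728451 .nil)))) (.b 16 .nil)) (.I .tdb (.c 24 (.c 33587273 (.c 18753 (.c 32 .nil)))) .nil)) (.node (.I .tdb (.c 8 (.c 2049 (.c 18753 (.c 32 .nil)))) (.b 24 .nil)) (.I .tdb (.c 0 (.c 16 (.c 32 (.c 18753 .nil)))) (.b 8 (.b 24 .nil))))) (.node (.node (.I .tdb (.c 40 (.c 48 (.c 0 (.c 32 .nil)))) (.b 16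 (.b 8 (.b 24 .nil)))) (.I .tdb (.c 24 (.c 2105481 (.c 18753 (.c 32 .nil)))) .nil)) (.node (.I .tdb (.c 513 (.c 16 (.c 18753 (.c 32 .nil)))) (.b 24 .nil)) (.I .tdb (.c 0 (.c 8 (.c 32 (.c 18753 .nil)))) (.b 16 (.b 24 .nil)))))) (.node (.node (.node (.I .tdb (.c 40 (.c 48 (.c 0 (.c 32 .nil)))) (.b 8 (.b 16 (.b 24 .nil)))) (.I .tdb (.c 24 (.c 557571 (.c 18753 (.c 32 .nil)))) .nil)) (.node (.I .tdb (.c 0 (.c 2803779 (.c 18753 (.c 32 .nil)))) .nil) (.I .tdb (.c 40 (.c 48 (.c 0 (.c 32 .nil)))) (.b 2803779 .nil)))) (.node (.node (.I .tdb (.c 16 (.c 4609 (.c 2737112393 (.c 32 .nil)))) .nil) (.I .tdb (.c 0 (.c 24 (.c 32 (.c 43954755 .nil)))) (.b 16 .nil))) (.node (.I .tdb (.c 24 (.c 2049 (.c 2737112393 (.c 32 .nil)))) .nil) (.I .tdb (.c 0 (.c 16 (.c 32 (.c 2737112393 .nil)))) (.b 24 .nil))))))) (.node (.node (.node (.node (.node (.I .tdb (.c 40 (.c 18497 (.c 0 (.c 32 .nil)))) (.b 16 (.b 24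 .nil))) (.I .tdb (.c 24 (.c 2049 (.c 43954755 (.c 32 .nil)))) .nil)) (.node (.I .tdb (.c 0 (.c 16 (.c 32 (.c 43954755 .nil)))) (.b 24 .nil)) (.I .tdb (.c 16 (.c 4609 (.c 2737112329 (.c 40 .nil)))) .nil))) (.node (.node (.I .tdb (.c 16 (.c 4609 (.c 545424777 (.c 40 .nil)))) .nil) (.I .tdb (.c 0 (.c 24 (.c 40 (.c 545424777 .nil)))) (.b 16 .nil))) (.node (.I .tdb (.c 32 (.c 18497 (.c 0 (.c 40 .nil)))) (.b 16 (.b 24 .nil))) (.I .tdb (.c 24 (.c 2049 (.c 545424777 (.c 40 .nil)))) .nil)))) (.node (.node (.node (.I .tdb (.c 0 (.c 16 (.c 40 (.c 545424777 .nil)))) (.b 24 .nil)) (.I .tdb (.c 24 (.c 2049 (.c 43655235 (.c 40 .nil)))) .nil)) (.node (.I .tdb (.c 32 (.c 40 (.c 33587401 (.c 18497 .nil)))) .nil) (.I .tdb (.c 32 (.c 40 (.c 2803715 (.c 18497 .nil)))) .nil))) (.node (.node (.I .tdb (.c 16 (.c 4609 (.c 1324066057 (.c 48 .nil)))) .nil) (.I .tdb (.c 32 (.c 12865 (.c 16 (.c 48 .nil)))) (.b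 4609 .nil))) (.node (.I .tdb (.c 8 (.c 40 (.c 16 (.c 48 .nil)))) (.b 32 (.b 4609 .nil))) (.I .tdb (.c 0 (.c 24 (.c 48 (.c 1324066057 .nil)))) (.b 16 .nil)))))) (.node (.node (.node (.node (.I .tdb (.c 32 (.c 12865 (.c 0 (.c 48 .nil)))) (.b 24 (.b 16 .nil))) (.I .tdb (.c 16 (.c 4609 (.c 545424713 (.c 48 .nil)))) .nil)) (.node (.I .tdb (.c 40 (.c 8257 (.c 16 (.c 48 .nil)))) (.b 4609 .nil)) (.I .tdb (.c 8 (.c 32 (.c 16 (.c 48 .nil)))) (.b 40 (.b 4609 .nil))))) (.node (.node (.I .tdb (.c 0 (.c 24 (.c 48 (.c 545424713 .nil)))) (.b 16 .nil)) (.I .tdb (.c 40 (.c 8257 (.c 24 (.c 48 .nil)))) (.b 0 (.b 16 .nil)))) (.node (.I .tdb (.c 8 (.c 32 (.c 24 (.c 48 .nil)))) (.b 40 (.b 0 (.b 16 .nil)))) (.I .tdb (.c 24 (.c 2049 (.c 1324066057 (.c 48 .nil)))) .nil)))) (.node (.node (.node (.I .tdb (.c 32 (.c 12865 (.c 24 (.c 48 .nil)))) (.b 2049 .nil)) (.I .tdb (.c 8 (.c 40 (.c 24 (.c 48 .nil)))) (.b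 32 (.b 2049 .nil)))) (.node (.I .tdb (.c 0 (.c 16 (.c 48 (.c 1324066057 .nil)))) (.b 24 .nil)) (.I .tdb (.c 32 (.c 12865 (.c 16 (.c 48 .nil)))) (.b 0 (.b 24 .nil))))) (.node (.node (.I .tdb (.c 8 (.c 40 (.c 16 (.c 48 .nil)))) (.b 32 (.b 0 (.b 24 .nil)))) (.I .tdb (.c 40 (.c 8257 (.c 0 (.c 48 .nil)))) (.b 16 (.b 24 .nil)))) (.node (.I .tdb (.c 8 (.c 32 (.c 0 (.c 48 .nil)))) (.b 40 (.b 16 (.b 24 .nil)))) (.I .tdb (.c 8 (.c 40 (.c 18689 (.c 0 .nil)))) (.b 16 (.b 24 .nil)))))))))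

noncomputable def c2_72 : Tr := (.node (.node (.node (.node (.node (.node (.I .tdb (.c 8 (.c 40 (.c 18689 (.c 2803715 .nil)))) .nil) (.I .tdb (.c 16 (.c 4609 (.c 8257 (.c 18753 .nil)))) .nil)) (.node (.I .jac (.c 8 (.c 43655299 (.c 40 .nil))) (.b 4609 .nil)) (.I .tdb (.c 8 (.c 32 (.c 18753 (.c 16 .nil)))) (.b 4609 .nil)))) (.node (.node (.I .tdb (.c 40 (.c 48 (.c 8 (.c 16 .nil)))) (.b 32 (.b 4609 .nil))) (.I .tdb (.c 40 (.c 48 (.c 16 (.c 32 .nil)))) (.b 8 (.b 4609 .nil)))) (.node (.I .tdb (.c 0 (.c 24 (.c 8257 (.c 18753 .nil)))) (.b 16 .nil)) (.I .jac (.c 8 (.c 43655363 (.c 40 .nil))) (.b 0 (.b 16 .nil)))))) (.node (.node (.node (.I .tdb (.c 8 (.c 32 (.c 18753 (.c 24 .nil)))) (.b 0 (.b 16 .nil))) (.I .tdb (.c 40 (.c 48 (.c 24 (.c 32 .nil)))) (.b 8 (.b 0 (.b 16 .nil))))) (.node (.I .tdb (.c 8 (.c 32 (.c 18753 (.c 2803715 .nil)))) .nil) (.I .jac (.c 20685315 (.c 32 (.c 48 .nil)))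 (.b 24 (.b 16 .nil))))) (.node (.node (.I .jac (.c 42762755 (.c 32 (.c 40 .nil))) (.b 24 (.b 16 .nil))) (.I .tdb (.c 16 (.c 4609 (.c 43954947 (.c 8 .nil)))) .nil)) (.node (.I .jac (.c 42762755 (.c 32 (.c 40 .nil))) (.b 16 (.b 24 .nil))) (.I .tdb (.c 24 (.c 2049 (.c 43954947 (.c 8 .nil)))) .nil))))) (.node (.node (.node (.node (.I .tdb (.c 0 (.c 16 (.c 43954947 (.c 8 .nil)))) (.b 24 .nil)) (.I .jac (.c 21307395 (.c 16 (.c 48 .nil))) (.b 24 (.b 8 .nil)))) (.node (.I .tdb (.c 0 (.c 24 (.c 32 (.c 2756086089 .nil)))) (.b 8 .nil)) (.I .tdb (.c 40 (.c 18561 (.c 0 (.c 32 .nil)))) (.b 24 (.b 8 .nil))))) (.node (.node (.I .jac (.c 43655171 (.c 16 (.c 40 .nil))) (.b 24 (.b 8 .nil))) (.I .tdb (.c 8 (.c 4609 (.c 43954819 (.c 32 .nil)))) .nil)) (.node (.I .tdb (.c 0 (.c 24 (.c 32 (.c 43954819 .nil)))) (.b 8 .nil)) (.I .tdb (.c 40 (.c 18561 (.c 0 (.c 32 .nil)))) (.b 8 (.b 24 .nil)))))) (.node (.node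 (.node (.I .tdb (.c 8 (.c 4609 (.c 2756086025 (.c 40 .nil)))) .nil) (.I .jac (.c 43954691 (.c 16 (.c 32 .nil))) (.b 24 (.b 8 .nil)))) (.node (.I .tdb (.c 8 (.c 4609 (.c 43655299 (.c 40 .nil)))) .nil) (.I .tdb (.c 0 (.c 24 (.c 40 (.c 43655299 .nil)))) (.b 8 .nil)))) (.node (.node (.I .tdb (.c 32 (.c 18561 (.c 0 (.c 40 .nil)))) (.b 8 (.b 24 .nil))) (.I .tdb (.c 48 (.c 8321 (.c 0 (.c 40 .nil)))) (.b 8 (.b 24 .nil)))) (.node (.I .tdb (.c 16 (.c 32 (.c 0 (.c 40 .nil)))) (.b 48 (.b 8 (.b 24 .nil)))) (.I .tdb (.c 513 (.c 24 (.c 40 (.c 43655299 .nil)))) .nil)))))) (.node (.node (.node (.node (.node (.I .tdb (.c 32 (.c 40 (.c 169943113 (.c 18561 .nil)))) .nil) (.I .tdb (.c 513 (.c 24 (.c 13057 (.c 18561 .nil)))) .nil)) (.node (.I .tdb (.c 0 (.c 8 (.c 13057 (.c 18561 .nil)))) (.b 24 .nil)) (.I .tdb (.c 32 (.c 40 (.c 18561 (.c 0 .nil)))) (.b 8 (.b 24 .nil))))) (.node (.node (.I .tdb (.c 32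 (.c 40 (.c 18561 (.c 8 .nil)))) (.b 0 (.b 24 .nil))) (.I .tdb (.c 32 (.c 40 (.c 18561 (.c 24 .nil)))) (.b 513 .nil))) (.node (.I .tdb (.c 32 (.c 40 (.c 18561 (.c 2728451 .nil)))) .nil) (.I .tdb (.c 32 (.c 12929 (.c 0 (.c 48 .nil)))) (.b 24 (.b 8 .nil)))))) (.node (.node (.node (.I .tdb (.c 8 (.c 4609 (.c 21307523 (.c 48 .nil)))) .nil) (.I .tdb (.c 513 (.c 24 (.c 48 (.c 1337272585 .nil)))) .nil)) (.node (.I .tdb (.c 0 (.c 8 (.c 48 (.c 1337272585 .nil)))) (.b 24 .nil)) (.I .tdb (.c 32 (.c 12929 (.c 0 (.c 48 .nil)))) (.b 8 (.b 24 .nil))))) (.node (.node (.I .tdb (.c 16 (.c 40 (.c 8 (.c 48 .nil)))) (.b 32 (.b 0 (.b 24 .nil)))) (.I .tdb (.c 32 (.c 12929 (.c 8 (.c 48 .nil)))) (.b 0 (.b 24 .nil)))) (.node (.I .tdb (.c 32 (.c 12929 (.c 24 (.c 48 .nil)))) (.b 513 .nil)) (.I .tdb (.c 16 (.c 40 (.c 24 (.c 48 .nil)))) (.b 32 (.b 513 .nil))))))) (.node (.node (.node (.node (.I .tdb (.c 513 (.c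 24 (.c 48 (.c 553912649 .nil)))) .nil) (.I .tdb (.c 0 (.c 8 (.c 48 (.c 553912649 .nil)))) (.b 24 .nil))) (.node (.I .tdb (.c 40 (.c 8321 (.c 0 (.c 48 .nil)))) (.b 8 (.b 24 .nil))) (.I .tdb (.c 16 (.c 32 (.c 0 (.c 48 .nil)))) (.b 40 (.b 8 (.b 24 .nil)))))) (.node (.node (.I .tdb (.c 40 (.c 8321 (.c 8 (.c 48 .nil)))) (.b 0 (.b 24 .nil))) (.I .tdb (.c 16 (.c 32 (.c 8 (.c 48 .nil)))) (.b 40 (.b 0 (.b 24 .nil))))) (.node (.I .tdb (.c 40 (.c 8321 (.c 24 (.c 48 .nil)))) (.b 513 .nil)) (.I .tdb (.c 16 (.c 32 (.c 24 (.c 48 .nil)))) (.b 40 (.b 513 .nil)))))) (.node (.node (.node (.I .tdb (.c 513 (.c 24 (.c 48 (.c 21307523 .nil)))) .nil) (.I .tdb (.c 16 (.c 40 (.c 18689 (.c 0 .nil)))) (.b 24 (.b 8 .nil)))) (.node (.I .tdb (.c 16 (.c 32 (.c 18753 (.c 0 .nil)))) (.b 24 (.b 8 .nil))) (.I .tdb (.c 40 (.c 48 (.c 16 (.c 24 .nil)))) (.b 32 (.b 513 .nil))))) (.node (.node (.I .jac (.c 20891651 (.c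 32 (.c 48 .nil))) (.b 24 (.b 8 .nil))) (.I .jac (.c 43059203 (.c 32 (.c 40 .nil))) (.b 24 (.b 8 .nil)))) (.node (.I .tdb (.c 8 (.c 4609 (.c 43954947 (.c 16 .nil)))) .nil) (.I .tdb (.c 0 (.c 24 (.c 43954947 (.c 16 .nil)))) (.b 8 .nil))))))))

noncomputable def c2_73 : Tr := (.node (.node (.node (.node (.node (.node (.I .jac (.c 20891651 (.c 32 (.c 48 .nil))) (.b 8 (.b 24 .nil))) (.I .tdb (.c 513 (.c 24 (.c 43954947 (.c 16 .nil)))) .nil)) (.node (.I .tdb (.c 0 (.c 8 (.c 16 (.c 43954947 .nil)))) (.b 24 .nil)) (.I .tdb (.c 0 (.c 24 (.c 59934274015313491849 (.c 16 .nil)))) .nil))) (.node (.node (.I .tdb (.c 32 (.c 2737112393 (.c 0 (.c 16 .nil)))) (.b 24 .nil)) (.I .tdb (.c 32 (.c 2737112393 (.c 16 (.c 24 .nil)))) (.b 0 .nil))) (.node (.I .tdb (.c 0 (.c 24 (.c 14025210098083634057 (.c 16 .nil)))) .nil) (.I .tdb (.c 48 (.c 12865 (.c 16 (.c 24 .nil)))) (.b 32 (.b 0 .nil)))))) (.node (.node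 (.node (.I .tdb (.c 8 (.c 40 (.c 16 (.c 24 .nil)))) (.b 48 (.b 32 (.b 0 .nil)))) (.I .tdb (.c 0 (.c 24 (.c 15456163896880457 (.c 16 .nil)))) .nil)) (.node (.I .tdb (.c 32 (.c 43954755 (.c 0 (.c 16 .nil)))) (.b 24 .nil)) (.I .tdb (.c 32 (.c 43954755 (.c 16 (.c 24 .nil)))) (.b 0 .nil)))) (.node (.node (.I .tdb (.c 0 (.c 24 (.c 59934271212510434249 (.c 16 .nil)))) .nil) (.I .tdb (.c 40 (.c 2737112329 (.c 16 (.c 24 .nil)))) (.b 0 .nil))) (.node (.I .tdb (.c 0 (.c 24 (.c 2379905498923998153 (.c 16 .nil)))) .nil) (.I .tdb (.c 40 (.c 545424777 (.c 16 (.c 24 .nil)))) (.b 0 .nil)))))) (.node (.node (.node (.node (.I .tdb (.c 48 (.c 8257 (.c 16 (.c 24 .nil)))) (.b 40 (.b 0 .nil))) (.I .tdb (.c 8 (.c 32 (.c 16 (.c 24 .nil)))) (.b 48 (.b 40 (.b 0 .nil))))) (.node (.I .tdb (.c 0 (.c 24 (.c 15246236343242121 (.c 16 .nil)))) .nil) (.I .tdb (.c 40 (.c 43655235 (.c 0 (.c 16 .nil)))) (.b 24 .nil))))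 (.node (.node (.I .tdb (.c 0 (.c 24 (.c 3632062472293833 (.c 16 .nil)))) .nil) (.I .tdb (.c 48 (.c 21307459 (.c 0 (.c 16 .nil)))) (.b 24 .nil))) (.node (.I .tdb (.c 8 (.c 43954947 (.c 0 (.c 16 .nil)))) (.b 24 .nil)) (.I .tdb (.c 16 (.c 1324066185 (.c 0 (.c 32 .nil)))) (.b 24 .nil))))) (.node (.node (.node (.I .tdb (.c 40 (.c 2737112201 (.c 0 (.c 32 .nil)))) (.b 24 .nil)) (.I .tdb (.c 0 (.c 24 (.c 32 (.c 10206511083363273 .nil)))) .nil)) (.node (.I .tdb (.c 40 (.c 35718537 (.c 0 (.c 32 .nil)))) (.b 24 .nil)) (.I .tdb (.c 0 (.c 24 (.c 32 (.c 14832803796618633 .nil)))) .nil))) (.node (.node (.I .tdb (.c 40 (.c 43059267 (.c 0 (.c 32 .nil)))) (.b 24 .nil)) (.I .tdb (.c 48 (.c 1324065929 (.c 0 (.c 32 .nil)))) (.b 24 .nil))) (.node (.I .tdb (.c 8 (.c 40 (.c 0 (.c 32 .nil)))) (.b 16 (.b 48 (.b 24 .nil)))) (.I .tdb (.c 16 (.c 12865 (.c 0 (.c 32 .nil)))) (.b 48 (.b 24 .nil)))))))) (.node (.node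 (.node (.node (.node (.I .tdb (.c 0 (.c 24 (.c 32 (.c 10206474507614217 .nil)))) .nil) (.I .tdb (.c 0 (.c 24 (.c 32 (.c 3491710045130185 .nil)))) .nil)) (.node (.I .tdb (.c 16 (.c 32 (.c 2737112393 (.c 24 .nil)))) (.b 0 .nil)) (.I .tdb (.c 16 (.c 32 (.c 1324066185 (.c 0 .nil)))) (.b 24 .nil)))) (.node (.node (.I .tdb (.c 16 (.c 545424777 (.c 0 (.c 40 .nil)))) (.b 24 .nil)) (.I .tdb (.c 0 (.c 24 (.c 40 (.c 15246236343241929 .nil)))) .nil)) (.node (.I .tdb (.c 0 (.c 24 (.c 40 (.c 10206511083363209 .nil)))) .nil) (.I .tdb (.c 32 (.c 43059267 (.c 0 (.c 40 .nil)))) (.b 24 .nil))))) (.node (.node (.node (.I .tdb (.c 48 (.c 545424521 (.c 0 (.c 40 .nil)))) (.b 24 .nil)) (.I .tdb (.c 8 (.c 32 (.c 0 (.c 40 .nil)))) (.b 16 (.b 48 (.b 24 .nil))))) (.node (.I .tdb (.c 16 (.c 8257 (.c 0 (.c 40 .nil)))) (.b 48 (.b 24 .nil))) (.I .tdb (.c 48 (.c 35718409 (.c 0 (.c 40 .nil)))) (.b 24 .nil)))) (.node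 (.node (.I .tdb (.c 2113 (.c 32 (.c 0 (.c 40 .nil)))) (.b 48 (.b 24 .nil))) (.I .tdb (.c 8 (.c 16 (.c 40 (.c 0 .nil)))) (.b 32 (.b 48 (.b 24 .nil))))) (.node (.I .tdb (.c 0 (.c 24 (.c 40 (.c 598976858557897 .nil)))) .nil) (.I .tdb (.c 8652867 (.c 48 (.c 0 (.c 40 .nil)))) (.b 24 .nil)))))) (.node (.node (.node (.node (.I .tdb (.c 0 (.c 24 (.c 12929 (.c 2737112329 .nil)))) .nil) (.I .tdb (.c 16 (.c 40 (.c 2737112329 (.c 0 .nil)))) (.b 24 .nil))) (.node (.I .tdb (.c 0 (.c 24 (.c 12929 (.c 43655235 .nil)))) .nil) (.I .tdb (.c 16 (.c 40 (.c 43655235 (.c 0 .nil)))) (.b 24 .nil)))) (.node (.node (.I .tdb (.c 16 (.c 40 (.c 43655235 (.c 24 .nil)))) (.b 0 .nil)) (.I .tdb (.c 0 (.c 24 (.c 13057 (.c 2737112201 .nil)))) .nil)) (.node (.I .tdb (.c 0 (.c 24 (.c 13057 (.c 35718537 .nil)))) .nil) (.I .tdb (.c 32 (.c 40 (.c 35718537 (.c 0 .nil)))) (.b 24 .nil))))) (.node (.node (.node (.I .tdb (.c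 32 (.c 40 (.c 35718537 (.c 24 .nil)))) (.b 0 .nil)) (.I .tdb (.c 16 (.c 40 (.c 18497 (.c 24 .nil)))) (.b 32 (.b 0 .nil)))) (.node (.I .tdb (.c 0 (.c 24 (.c 21307523 (.c 18497 .nil)))) .nil) (.I .tdb (.c 8 (.c 48 (.c 0 (.c 21307523 .nil)))) (.b 24 .nil)))) (.node (.node (.I .tdb (.c 0 (.c 24 (.c 48 (.c 14025207386396218121 .nil)))) .nil) (.I .tdb (.c 16 (.c 1324066057 (.c 0 (.c 48 .nil)))) (.b 24 .nil))) (.node (.I .tdb (.c 16 (.c 1324066057 (.c 24 (.c 48 .nil)))) (.b 0 .nil)) (.I .tdb (.c 32 (.c 12865 (.c 24 (.c 48 .nil)))) (.b 16 (.b 0 .nil)))))))))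

noncomputable def c2_74 : Tr := (.node (.node (.node (.node (.node (.node (.I .tdb (.c 8 (.c 40 (.c 24 (.c 48 .nil)))) (.b 32 (.b 16 (.b 0 .nil)))) (.I .tdb (.c 0 (.c 24 (.c 48 (.c 2379904940409059081 .nil)))) .nil)) (.node (.I .tdb (.c 16 (.c 545424713 (.c 0 (.c 48 .nil)))) (.b 24 .nil)) (.I .tdb (.c 16 (.c 545424713 (.c 24 (.c 48 .nil)))) (.b 0 .nil)))) (.node (.node (.I .tdb (.c 40 (.c 8257 (.c 24 (.c 48 .nil)))) (.b 16 (.b 0 .nil))) (.I .tdb (.c 8 (.c 32 (.c 24 (.c 48 .nil)))) (.b 40 (.b 16 (.b 0 .nil))))) (.node (.I .tdb (.c 0 (.c 24 (.c 48 (.c 14025204674709064585 .nil)))) .nil) (.I .tdb (.c 32 (.c 1324065929 (.c 0 (.c 48 .nil)))) (.b 24 .nil))))) (.node (.node (.node (.I .tdb (.c 32 (.c 1324065929 (.c 24 (.c 48 .nil)))) (.b 0 .nil)) (.I .tdb (.c 16 (.c 12865 (.c 24 (.c 48 .nil)))) (.b 32 (.b 0 .nil)))) (.node (.I .tdb (.c 8 (.c 40 (.c 24 (.c 48 .nil)))) (.b 16 (.b 32 (.b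 0 .nil)))) (.I .tdb (.c 0 (.c 24 (.c 48 (.c 2379903264864635849 .nil)))) .nil))) (.node (.node (.I .tdb (.c 40 (.c 545424521 (.c 0 (.c 48 .nil)))) (.b 24 .nil)) (.I .tdb (.c 8 (.c 32 (.c 0 (.c 48 .nil)))) (.b 16 (.b 40 (.b 24 .nil))))) (.node (.I .tdb (.c 16 (.c 8257 (.c 0 (.c 48 .nil)))) (.b 40 (.b 24 .nil))) (.I .tdb (.c 40 (.c 545424521 (.c 24 (.c 48 .nil)))) (.b 0 .nil)))))) (.node (.node (.node (.node (.I .tdb (.c 16 (.c 8257 (.c 24 (.c 48 .nil)))) (.b 40 (.b 0 .nil))) (.I .tdb (.c 8 (.c 32 (.c 24 (.c 48 .nil)))) (.b 16 (.b 40 (.b 0 .nil))))) (.node (.I .jac (.c 8 (.c 21099139 (.c 48 .nil))) (.b 32 (.b 0 .nil))) (.I .tdb (.c 8 (.c 40 (.c 18561 (.c 24 .nil)))) (.b 32 (.b 0 .nil))))) (.node (.node (.I .tdb (.c 16 (.c 48 (.c 24 (.c 40 .nil)))) (.b 8 (.b 32 (.b 0 .nil)))) (.I .jac (.c 8257 (.c 21099139 (.c 48 .nil))) (.b 0 .nil))) (.node (.I .jac (.c 8257 (.c 16 (.c 43954883 .nil)))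 (.b 0 .nil)) (.I .tdb (.c 16 (.c 48 (.c 0 (.c 21307459 .nil)))) (.b 24 .nil))))) (.node (.node (.node (.I .tdb (.c 0 (.c 24 (.c 1324065929 (.c 18689 .nil)))) .nil) (.I .tdb (.c 16 (.c 12865 (.c 18689 (.c 0 .nil)))) (.b 24 .nil))) (.node (.I .tdb (.c 32 (.c 48 (.c 0 (.c 16 .nil)))) (.b 12865 (.b 24 .nil))) (.I .jac (.c 12865 (.c 43356803 (.c 32 .nil))) (.b 0 .nil)))) (.node (.node (.I .tdb (.c 32 (.c 48 (.c 16 (.c 24 .nil)))) (.b 12865 (.b 0 .nil))) (.I .tdb (.c 16 (.c 12865 (.c 18689 (.c 24 .nil)))) (.b 0 .nil))) (.node (.I .jac (.c 8 (.c 43954883 (.c 32 .nil))) (.b 16 (.b 0 .nil))) (.I .tdb (.c 8 (.c 40 (.c 18689 (.c 24 .nil)))) (.b 16 (.b 0 .nil)))))))) (.node (.node (.node (.node (.node (.I .tdb (.c 32 (.c 48 (.c 8 (.c 24 .nil)))) (.b 40 (.b 16 (.b 0 .nil)))) (.I .tdb (.c 32 (.c 48 (.c 24 (.c 40 .nil)))) (.b 8 (.b 16 (.b 0 .nil))))) (.node (.I .tdb (.c 32 (.c 48 (.c 8 (.c 24 .nil))))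 (.b 16 (.b 40 (.b 0 .nil)))) (.I .tdb (.c 8 (.c 40 (.c 2756086025 (.c 0 .nil)))) (.b 24 .nil)))) (.node (.node (.I .jac (.c 8 (.c 15456253916349641 (.c 32 .nil))) (.b 0 .nil)) (.I .tdb (.c 16 (.c 48 (.c 24 (.c 40 .nil)))) (.b 32 (.b 8 (.b 0 .nil))))) (.node (.I .tdb (.c 8 (.c 40 (.c 553912713 (.c 0 .nil)))) (.b 24 .nil)) (.I .jac (.c 8 (.c 43356803 (.c 40 .nil))) (.b 32 (.b 0 .nil)))))) (.node (.node (.node (.I .tdb (.c 40 (.c 48 (.c 16 (.c 24 .nil)))) (.b 8 (.b 32 (.b 0 .nil)))) (.I .tdb (.c 0 (.c 24 (.c 8652867 (.c 18753 .nil)))) .nil)) (.node (.I .tdb (.c 40 (.c 48 (.c 0 (.c 8652867 .nil)))) (.b 24 .nil)) (.I .tdb (.c 0 (.c 24 (.c 8257 (.c 2756086089 .nil)))) .nil))) (.node (.node (.I .tdb (.c 8 (.c 32 (.c 2756086089 (.c 0 .nil)))) (.b 24 .nil)) (.I .jac (.c 8 (.c 617629514824137 (.c 40 .nil))) (.b 0 .nil))) (.node (.I .jac (.c 8 (.c 15246325749294281 (.c 40 .nil))) (.b 0 .nil))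 (.I .tdb (.c 8 (.c 32 (.c 2756086089 (.c 24 .nil)))) (.b 0 .nil)))))) (.node (.node (.node (.node (.I .tdb (.c 40 (.c 18561 (.c 24 (.c 32 .nil)))) (.b 8 (.b 0 .nil))) (.I .tdb (.c 16 (.c 48 (.c 24 (.c 32 .nil)))) (.b 40 (.b 8 (.b 0 .nil))))) (.node (.I .tdb (.c 32 (.c 2756086089 (.c 0 (.c 8 .nil)))) (.b 24 .nil)) (.I .tdb (.c 0 (.c 24 (.c 15456208906582345 (.c 8 .nil)))) .nil))) (.node (.node (.I .tdb (.c 32 (.c 43954819 (.c 0 (.c 8 .nil)))) (.b 24 .nil)) (.I .tdb (.c 40 (.c 43655299 (.c 8 (.c 24 .nil)))) (.b 0 .nil))) (.node (.I .jac (.c 15038454533713225 (.c 16 (.c 40 .nil))) (.b 0 .nil)) (.I .jac (.c 15038454533713289 (.c 16 (.c 32 .nil))) (.b 0 .nil))))) (.node (.node (.node (.I .tdb (.c 0 (.c 24 (.c 3632084291164617 (.c 8 .nil)))) .nil) (.I .tdb (.c 48 (.c 21307523 (.c 0 (.c 8 .nil)))) (.b 24 .nil))) (.node (.I .tdb (.c 48 (.c 21307523 (.c 8 (.c 24 .nil)))) (.b 0 .nil)) (.I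 .tdb (.c 16 (.c 43954947 (.c 0 (.c 8 .nil)))) (.b 24 .nil)))) (.node (.node (.I .tdb (.c 16 (.c 43954947 (.c 8 (.c 24 .nil)))) (.b 0 .nil)) (.I .jac (.c 21307395 (.c 24 (.c 48 .nil))) (.b 16 (.b 8 .nil)))) (.node (.I .jac (.c 43655171 (.c 24 (.c 40 .nil))) (.b 16 (.b 8 .nil))) (.I .tdb (.c 8 (.c 2049 (.c 43954883 (.c 32 .nil)))) .nil)))))))

noncomputable def c2_75 : Tr := (.node (.node (.node (.node (.node (.node (.I .tdb (.c 0 (.c 16 (.c 32 (.c 43954883 .nil)))) (.b 8 .nil)) (.I .jac (.c 43655171 (.c 24 (.c 40 .nil))) (.b 8 (.b 16 .nil)))) (.node (.I .tdb (.c 0 (.c 8 (.c 32 (.c 43954883 .nil)))) (.b 16 .nil)) (.I .tdb (.c 32 (.c 18625 (.c 0 (.c 40 .nil)))) (.b 16 (.b 8 .nil))))) (.node (.node (.I .jac (.c 43954691 (.c 24 (.c 32 .nil))) (.b 16 (.b 8 .nil))) (.I .tdb (.c 513 (.c 16 (.c 40 (.c 2775125257 .nil)))) .nil)) (.node (.I .tdb (.c 0 (.c 8 (.c 40 (.c 2775125257 .nil)))) (.b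 16 .nil)) (.I .tdb (.c 513 (.c 16 (.c 40 (.c 562466185 .nil)))) .nil)))) (.node (.node (.node (.I .tdb (.c 0 (.c 8 (.c 40 (.c 562466185 .nil)))) (.b 16 .nil)) (.I .tdb (.c 48 (.c 8385 (.c 0 (.c 40 .nil)))) (.b 8 (.b 16 .nil)))) (.node (.I .tdb (.c 24 (.c 32 (.c 0 (.c 40 .nil)))) (.b 48 (.b 8 (.b 16 .nil)))) (.I .tdb (.c 513 (.c 16 (.c 40 (.c 43655363 .nil)))) .nil))) (.node (.node (.I .tdb (.c 0 (.c 8 (.c 40 (.c 43655363 .nil)))) (.b 16 .nil)) (.I .tdb (.c 48 (.c 8385 (.c 557571 (.c 40 .nil)))) .nil)) (.node (.I .tdb (.c 24 (.c 32 (.c 557571 (.c 40 .nil)))) (.b 48 .nil)) (.I .tdb (.c 0 (.c 8 (.c 13057 (.c 18625 .nil)))) (.b 16 .nil)))))) (.node (.node (.node (.node (.I .tdb (.c 32 (.c 40 (.c 18625 (.c 0 .nil)))) (.b 8 (.b 16 .nil))) (.I .tdb (.c 32 (.c 40 (.c 18625 (.c 8 .nil)))) (.b 0 (.b 16 .nil)))) (.node (.I .tdb (.c 32 (.c 40 (.c 18625 (.c 16 .nil)))) (.b 513 .nil)) (.I .tdb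 (.c 513 (.c 16 (.c 48 (.c 21307587 .nil)))) .nil))) (.node (.node (.I .tdb (.c 0 (.c 8 (.c 48 (.c 21307587 .nil)))) (.b 16 .nil)) (.I .tdb (.c 40 (.c 8385 (.c 557571 (.c 48 .nil)))) .nil)) (.node (.I .tdb (.c 24 (.c 32 (.c 557571 (.c 48 .nil)))) (.b 40 .nil)) (.I .tdb (.c 513 (.c 16 (.c 8385 (.c 18753 .nil)))) .nil)))) (.node (.node (.node (.I .tdb (.c 0 (.c 8 (.c 8385 (.c 18753 .nil)))) (.b 16 .nil)) (.I .tdb (.c 24 (.c 32 (.c 18753 (.c 0 .nil)))) (.b 8 (.b 16 .nil)))) (.node (.I .tdb (.c 40 (.c 48 (.c 8 (.c 32 .nil)))) (.b 24 (.b 0 (.b 16 .nil)))) (.I .tdb (.c 24 (.c 32 (.c 18753 (.c 8 .nil)))) (.b 0 (.b 16 .nil))))) (.node (.node (.I .tdb (.c 40 (.c 48 (.c 16 (.c 32 .nil)))) (.b 24 (.b 513 .nil))) (.I .tdb (.c 24 (.c 32 (.c 18753 (.c 16 .nil)))) (.b 513 .nil))) (.node (.I .tdb (.c 8 (.c 2049 (.c 43954947 (.c 24 .nil)))) .nil) (.I .tdb (.c 0 (.c 16 (.c 43954947 (.c 24 .nil))))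 (.b 8 .nil))))))) (.node (.node (.node (.node (.node (.I .jac (.c 21099011 (.c 32 (.c 48 .nil))) (.b 8 (.b 16 .nil))) (.I .jac (.c 43356675 (.c 32 (.c 40 .nil))) (.b 8 (.b 16 .nil)))) (.node (.I .tdb (.c 513 (.c 16 (.c 43954947 (.c 24 .nil)))) .nil) (.I .tdb (.c 0 (.c 8 (.c 24 (.c 43954947 .nil)))) (.b 16 .nil)))) (.node (.node (.I .tdb (.c 0 (.c 16 (.c 14025210098083634057 (.c 24 .nil)))) .nil) (.I .tdb (.c 32 (.c 43954755 (.c 0 (.c 24 .nil)))) (.b 16 .nil))) (.node (.I .tdb (.c 40 (.c 545424777 (.c 0 (.c 24 .nil)))) (.b 16 .nil)) (.I .tdb (.c 0 (.c 16 (.c 15246236343242121 (.c 24 .nil)))) .nil)))) (.node (.node (.node (.I .tdb (.c 40 (.c 43655235 (.c 0 (.c 24 .nil)))) (.b 16 .nil)) (.I .tdb (.c 8 (.c 40 (.c 0 (.c 24 .nil)))) (.b 32 (.b 48 (.b 16 .nil))))) (.node (.I .tdb (.c 32 (.c 12865 (.c 0 (.c 24 .nil)))) (.b 48 (.b 16 .nil))) (.I .tdb (.c 0 (.c 16 (.c 3632062472293833 (.c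 24 .nil)))) .nil))) (.node (.node (.I .tdb (.c 48 (.c 21307459 (.c 0 (.c 24 .nil)))) (.b 16 .nil)) (.I .tdb (.c 0 (.c 16 (.c 32 (.c 59934274015313491785 .nil)))) .nil)) (.node (.I .tdb (.c 24 (.c 1324066185 (.c 0 (.c 32 .nil)))) (.b 16 .nil)) (.I .tdb (.c 0 (.c 16 (.c 32 (.c 59934268409707442121 .nil)))) .nil))))) (.node (.node (.node (.node (.I .tdb (.c 0 (.c 16 (.c 32 (.c 244149027818380233 .nil)))) .nil) (.I .tdb (.c 40 (.c 174695817 (.c 0 (.c 32 .nil)))) (.b 16 .nil))) (.node (.I .tdb (.c 0 (.c 16 (.c 32 (.c 14025206030552608777 .nil)))) .nil) (.I .tdb (.c 48 (.c 1324065993 (.c 0 (.c 32 .nil)))) (.b 16 .nil)))) (.node (.node (.I .tdb (.c 48 (.c 174695753 (.c 0 (.c 32 .nil)))) (.b 16 .nil)) (.I .tdb (.c 4673 (.c 40 (.c 0 (.c 32 .nil)))) (.b 48 (.b 16 .nil)))) (.node (.I .tdb (.c 8 (.c 24 (.c 32 (.c 0 .nil)))) (.b 40 (.b 48 (.b 16 .nil)))) (.I .tdb (.c 48 (.c 21099075 (.c 0 (.c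 32 .nil)))) (.b 16 .nil))))) (.node (.node (.node (.I .tdb (.c 0 (.c 16 (.c 8385 (.c 1324066185 .nil)))) .nil) (.I .tdb (.c 24 (.c 32 (.c 1324066185 (.c 0 .nil)))) (.b 16 .nil))) (.node (.I .tdb (.c 24 (.c 32 (.c 1324066185 (.c 16 .nil)))) (.b 0 .nil)) (.I .tdb (.c 0 (.c 16 (.c 8385 (.c 43954755 .nil)))) .nil))) (.node (.node (.I .tdb (.c 24 (.c 32 (.c 43954755 (.c 0 .nil)))) (.b 16 .nil)) (.I .tdb (.c 24 (.c 32 (.c 43954755 (.c 16 .nil)))) (.b 0 .nil))) (.node (.I .tdb (.c 24 (.c 2737112329 (.c 0 (.c 40 .nil)))) (.b 16 .nil)) (.I .tdb (.c 24 (.c 545424777 (.c 0 (.c 40 .nil)))) (.b 16 .nil))))))))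

noncomputable def c2_76 : Tr := (.node (.node (.node (.node (.node (.node (.I .tdb (.c 24 (.c 43655235 (.c 0 (.c 40 .nil)))) (.b 16 .nil)) (.I .tdb (.c 32 (.c 2737112265 (.c 0 (.c 40 .nil)))) (.b 16 .nil))) (.node (.I .tdb (.c 0 (.c 16 (.c 40 (.c 15038454533713225 .nil)))) .nil) (.I .tdb (.c 32 (.c 43356739 (.c 0 (.c 40 .nil)))) (.b 16 .nil)))) (.node (.node (.I .tdb (.c 0 (.c 16 (.c 40 (.c 2379903823379378185 .nil)))) .nil) (.I .tdb (.c 0 (.c 16 (.c 40 (.c 244148670041478153 .nil)))) .nil)) (.node (.I .tdb (.c 0 (.c 16 (.c 40 (.c 617620517416393 .nil)))) .nil) (.I .tdb (.c 0 (.c 16 (.c 40 (.c 15246325749294217 .nil)))) .nil)))) (.node (.node (.node (.I .tdb (.c 0 (.c 16 (.c 12993 (.c 2737112329 .nil)))) .nil) (.I .tdb (.c 24 (.c 40 (.c 2737112329 (.c 0 .nil)))) (.b 16 .nil))) (.node (.I .tdb (.c 24 (.c 40 (.c 2737112329 (.c 16 .nil)))) (.b 0 .nil)) (.I .tdb (.c 0 (.c 16 (.c 12993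 (.c 43655235 .nil)))) .nil))) (.node (.node (.I .tdb (.c 24 (.c 40 (.c 43655235 (.c 0 .nil)))) (.b 16 .nil)) (.I .tdb (.c 24 (.c 40 (.c 43655235 (.c 16 .nil)))) (.b 0 .nil))) (.node (.I .tdb (.c 0 (.c 16 (.c 13057 (.c 2737112265 .nil)))) .nil) (.I .tdb (.c 32 (.c 40 (.c 2737112265 (.c 0 .nil)))) (.b 16 .nil)))))) (.node (.node (.node (.node (.I .tdb (.c 32 (.c 40 (.c 2737112265 (.c 16 .nil)))) (.b 0 .nil)) (.I .tdb (.c 0 (.c 16 (.c 13057 (.c 43356739 .nil)))) .nil)) (.node (.I .tdb (.c 32 (.c 40 (.c 43356739 (.c 0 .nil)))) (.b 16 .nil)) (.I .tdb (.c 32 (.c 40 (.c 43356739 (.c 16 .nil)))) (.b 0 .nil)))) (.node (.node (.I .jac (.c 15246191640313993 (.c 24 (.c 40 .nil))) (.b 16 .nil)) (.I .tdb (.c 24 (.c 40 (.c 18497 (.c 16 .nil)))) (.b 32 (.b 0 .nil)))) (.node (.I .tdb (.c 0 (.c 16 (.c 21307587 (.c 18497 .nil)))) .nil) (.I .tdb (.c 8 (.c 48 (.c 0 (.c 21307587 .nil)))) (.b 16 .nil)))))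 (.node (.node (.node (.I .tdb (.c 0 (.c 16 (.c 48 (.c 2379904940409059145 .nil)))) .nil) (.I .tdb (.c 24 (.c 545424713 (.c 0 (.c 48 .nil)))) (.b 16 .nil))) (.node (.I .tdb (.c 24 (.c 545424713 (.c 16 (.c 48 .nil)))) (.b 0 .nil)) (.I .tdb (.c 40 (.c 8257 (.c 16 (.c 48 .nil)))) (.b 24 (.b 0 .nil))))) (.node (.node (.I .tdb (.c 8 (.c 32 (.c 16 (.c 48 .nil)))) (.b 40 (.b 24 (.b 0 .nil)))) (.I .tdb (.c 0 (.c 16 (.c 48 (.c 2379903823379378121 .nil)))) .nil)) (.node (.I .tdb (.c 40 (.c 545424585 (.c 0 (.c 48 .nil)))) (.b 16 .nil)) (.I .tdb (.c 8 (.c 32 (.c 0 (.c 48 .nil)))) (.b 24 (.b 40 (.b 16 .nil))))))))) (.node (.node (.node (.node (.node (.I .tdb (.c 24 (.c 8257 (.c 0 (.c 48 .nil)))) (.b 40 (.b 16 .nil))) (.I .tdb (.c 40 (.c 545424585 (.c 16 (.c 48 .nil)))) (.b 0 .nil))) (.node (.I .tdb (.c 24 (.c 8257 (.c 16 (.c 48 .nil)))) (.b 40 (.b 0 .nil))) (.I .tdb (.c 8 (.c 32 (.c 16 (.c 48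 .nil)))) (.b 24 (.b 40 (.b 0 .nil)))))) (.node (.node (.I .tdb (.c 0 (.c 16 (.c 48 (.c 244148670041478089 .nil)))) .nil) (.I .tdb (.c 40 (.c 174695689 (.c 0 (.c 48 .nil)))) (.b 16 .nil))) (.node (.I .tdb (.c 4673 (.c 32 (.c 0 (.c 48 .nil)))) (.b 40 (.b 16 .nil))) (.I .tdb (.c 8 (.c 24 (.c 48 (.c 0 .nil)))) (.b 32 (.b 40 (.b 16 .nil))))))) (.node (.node (.node (.I .tdb (.c 40 (.c 174695689 (.c 16 (.c 48 .nil)))) (.b 0 .nil)) (.I .tdb (.c 4673 (.c 32 (.c 16 (.c 48 .nil)))) (.b 40 (.b 0 .nil)))) (.node (.I .tdb (.c 8 (.c 24 (.c 48 (.c 16 .nil)))) (.b 32 (.b 40 (.b 0 .nil)))) (.I .tdb (.c 32 (.c 12865 (.c 18625 (.c 0 .nil)))) (.b 16 .nil)))) (.node (.node (.I .tdb (.c 24 (.c 48 (.c 0 (.c 32 .nil)))) (.b 12865 (.b 16 .nil))) (.I .tdb (.c 8 (.c 40 (.c 18625 (.c 16 .nil)))) (.b 32 (.b 0 .nil)))) (.node (.I .tdb (.c 24 (.c 48 (.c 16 (.c 40 .nil)))) (.b 8 (.b 32 (.b 0 .nil)))) (.I .tdb (.c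 0 (.c 16 (.c 545424713 (.c 18625 .nil)))) .nil))))) (.node (.node (.node (.node (.I .tdb (.c 40 (.c 8257 (.c 18625 (.c 0 .nil)))) (.b 16 .nil)) (.I .tdb (.c 24 (.c 48 (.c 0 (.c 40 .nil)))) (.b 8257 (.b 16 .nil)))) (.node (.I .tdb (.c 8 (.c 32 (.c 18625 (.c 0 .nil)))) (.b 40 (.b 16 .nil))) (.I .tdb (.c 40 (.c 8257 (.c 18625 (.c 16 .nil)))) (.b 0 .nil)))) (.node (.node (.I .tdb (.c 24 (.c 48 (.c 16 (.c 40 .nil)))) (.b 8257 (.b 0 .nil))) (.I .tdb (.c 8 (.c 32 (.c 18625 (.c 16 .nil)))) (.b 40 (.b 0 .nil)))) (.node (.I .tdb (.c 24 (.c 48 (.c 0 (.c 21307459 .nil)))) (.b 16 .nil)) (.I .tdb (.c 32 (.c 48 (.c 8 (.c 16 .nil)))) (.b 40 (.b 24 (.b 0 .nil))))))) (.node (.node (.node (.I .tdb (.c 4673 (.c 40 (.c 18689 (.c 0 .nil)))) (.b 16 .nil)) (.I .tdb (.c 8 (.c 24 (.c 18689 (.c 0 .nil)))) (.b 40 (.b 16 .nil)))) (.node (.I .tdb (.c 32 (.c 48 (.c 0 (.c 40 .nil)))) (.b 4673 (.b 16 .nil))) (.I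 .tdb (.c 32 (.c 48 (.c 8 (.c 16 .nil)))) (.b 24 (.b 40 (.b 0 .nil)))))) (.node (.node (.I .tdb (.c 0 (.c 16 (.c 21099075 (.c 18689 .nil)))) .nil) (.I .tdb (.c 32 (.c 48 (.c 0 (.c 21099075 .nil)))) (.b 16 .nil))) (.node (.I .tdb (.c 8 (.c 40 (.c 2775125257 (.c 0 .nil)))) (.b 16 .nil)) (.I .jac (.c 8652867 (.c 24 (.c 48 .nil))) (.b 40 (.b 0 .nil)))))))))

noncomputable def c2_77 : Tr := (.node (.node (.node (.node (.node (.node (.I .jac (.c 8 (.c 15456208906582281 (.c 32 .nil))) (.b 0 .nil)) (.I .tdb (.c 32 (.c 18625 (.c 8 (.c 16 .nil)))) (.b 40 (.b 0 .nil)))) (.node (.I .tdb (.c 24 (.c 48 (.c 16 (.c 40 .nil)))) (.b 32 (.b 8 (.b 0 .nil)))) (.I .tdb (.c 0 (.c 16 (.c 12865 (.c 43655363 .nil)))) .nil))) (.node (.node (.I .tdb (.c 8 (.c 40 (.c 43655363 (.c 0 .nil)))) (.b 16 .nil)) (.I .tdb (.c 8 (.c 40 (.c 43655363 (.c 16 .nil)))) (.b 0 .nil))) (.node (.I .tdb (.c 24 (.c 8257 (.c 18753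 (.c 0 .nil)))) (.b 16 .nil)) (.I .tdb (.c 40 (.c 48 (.c 0 (.c 24 .nil)))) (.b 8257 (.b 16 .nil)))))) (.node (.node (.node (.I .tdb (.c 40 (.c 48 (.c 8 (.c 16 .nil)))) (.b 32 (.b 24 (.b 0 .nil)))) (.I .tdb (.c 0 (.c 16 (.c 174695689 (.c 18753 .nil)))) .nil)) (.node (.I .tdb (.c 4673 (.c 32 (.c 18753 (.c 0 .nil)))) (.b 16 .nil)) (.I .tdb (.c 8 (.c 24 (.c 18753 (.c 0 .nil)))) (.b 32 (.b 16 .nil))))) (.node (.node (.I .tdb (.c 40 (.c 48 (.c 0 (.c 32 .nil)))) (.b 4673 (.b 16 .nil))) (.I .jac (.c 4673 (.c 43655299 (.c 40 .nil))) (.b 0 .nil))) (.node (.I .tdb (.c 4673 (.c 32 (.c 18753 (.c 16 .nil)))) (.b 0 .nil)) (.I .tdb (.c 8 (.c 24 (.c 18753 (.c 16 .nil)))) (.b 32 (.b 0 .nil))))))) (.node (.node (.node (.node (.I .tdb (.c 40 (.c 48 (.c 8 (.c 16 .nil)))) (.b 24 (.b 32 (.b 0 .nil)))) (.I .tdb (.c 40 (.c 48 (.c 16 (.c 32 .nil)))) (.b 4673 (.b 0 .nil)))) (.node (.I .tdb (.c 0 (.c 16 (.c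 8786499 (.c 18753 .nil)))) .nil) (.I .tdb (.c 0 (.c 16 (.c 8257 (.c 43954883 .nil)))) .nil))) (.node (.node (.I .tdb (.c 8 (.c 32 (.c 43954883 (.c 0 .nil)))) (.b 16 .nil)) (.I .tdb (.c 8 (.c 32 (.c 43954883 (.c 16 .nil)))) (.b 0 .nil))) (.node (.I .jac (.c 580749782704521 (.c 24 (.c 48 .nil))) (.b 16 .nil)) (.I .jac (.c 8520195 (.c 24 (.c 40 .nil))) (.b 48 (.b 16 .nil)))))) (.node (.node (.node (.I .tdb (.c 0 (.c 16 (.c 15456253916349769 (.c 8 .nil)))) .nil) (.I .tdb (.c 32 (.c 43954883 (.c 0 (.c 8 .nil)))) (.b 16 .nil))) (.node (.I .jac (.c 20685315 (.c 24 (.c 32 .nil))) (.b 48 (.b 16 .nil))) (.I .tdb (.c 40 (.c 43655363 (.c 8 (.c 16 .nil)))) (.b 0 .nil)))) (.node (.node (.I .jac (.c 14629225721520457 (.c 24 (.c 40 .nil))) (.b 16 .nil)) (.I .tdb (.c 0 (.c 16 (.c 3632106110100937 (.c 8 .nil)))) .nil)) (.node (.I .tdb (.c 24 (.c 43954947 (.c 0 (.c 8 .nil)))) (.b 16 .nil)) (.I .tdb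 (.c 24 (.c 43954947 (.c 8 (.c 16 .nil)))) (.b 0 .nil))))))) (.node (.node (.node (.node (.node (.I .jac (.c 617611520074121 (.c 16 (.c 48 .nil))) (.b 8 .nil)) (.I .tdb (.c 32 (.c 2756086089 (.c 0 (.c 24 .nil)))) (.b 8 .nil))) (.node (.I .jac (.c 8786435 (.c 12929 (.c 48 .nil))) (.b 8 .nil)) (.I .tdb (.c 0 (.c 8 (.c 24 (.c 15456208906582345 .nil)))) .nil))) (.node (.node (.I .tdb (.c 32 (.c 43954819 (.c 0 (.c 24 .nil)))) (.b 8 .nil)) (.I .jac (.c 21099011 (.c 16 (.c 32 .nil))) (.b 48 (.b 8 .nil)))) (.node (.I .tdb (.c 0 (.c 8 (.c 24 (.c 15246281046235529 .nil)))) .nil) (.I .tdb (.c 40 (.c 43655299 (.c 0 (.c 24 .nil)))) (.b 8 .nil))))) (.node (.node (.node (.I .jac (.c 15038410136445321 (.c 16 (.c 32 .nil))) (.b 8 .nil)) (.I .tdb (.c 0 (.c 8 (.c 24 (.c 15456298926182601 .nil)))) .nil)) (.node (.I .tdb (.c 24 (.c 2756086089 (.c 0 (.c 32 .nil)))) (.b 8 .nil)) (.I .tdb (.c 24 (.c 1337272713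 (.c 0 (.c 32 .nil)))) (.b 8 .nil)))) (.node (.node (.I .tdb (.c 0 (.c 8 (.c 32 (.c 15456208906582281 .nil)))) .nil) (.I .tdb (.c 24 (.c 43954819 (.c 0 (.c 32 .nil)))) (.b 8 .nil))) (.node (.I .jac (.c 21307395 (.c 18561 (.c 24 .nil))) (.b 8 .nil)) (.I .jac (.c 21307395 (.c 16 (.c 24 .nil))) (.b 48 (.b 8 .nil))))))) (.node (.node (.node (.node (.I .tdb (.c 0 (.c 8 (.c 32 (.c 15038498931046793 .nil)))) .nil) (.I .jac (.c 15246191640314121 (.c 16 (.c 40 .nil))) (.b 8 .nil))) (.node (.I .jac (.c 15246191640314249 (.c 16 (.c 24 .nil))) (.b 8 .nil)) (.I .tdb (.c 48 (.c 179513673 (.c 0 (.c 32 .nil)))) (.b 8 .nil)))) (.node (.node (.I .tdb (.c 4737 (.c 40 (.c 0 (.c 32 .nil)))) (.b 48 (.b 8 .nil))) (.I .tdb (.c 16 (.c 24 (.c 32 (.c 0 .nil)))) (.b 40 (.b 48 (.b 8 .nil))))) (.node (.I .tdb (.c 0 (.c 8 (.c 32 (.c 3561389332330953 .nil)))) .nil) (.I .tdb (.c 0 (.c 8 (.c 32 (.c 15456253916349641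 .nil)))) .nil)))) (.node (.node (.node (.I .tdb (.c 16 (.c 43954883 (.c 0 (.c 32 .nil)))) (.b 8 .nil)) (.I .tdb (.c 24 (.c 32 (.c 2756086089 (.c 0 .nil)))) (.b 8 .nil))) (.node (.I .tdb (.c 24 (.c 32 (.c 2756086089 (.c 8 .nil)))) (.b 0 .nil)) (.I .tdb (.c 0 (.c 8 (.c 8385 (.c 43954819 .nil)))) .nil))) (.node (.node (.I .tdb (.c 24 (.c 32 (.c 43954819 (.c 0 .nil)))) (.b 8 .nil)) (.I .tdb (.c 24 (.c 32 (.c 43954819 (.c 8 .nil)))) (.b 0 .nil))) (.node (.I .tdb (.c 0 (.c 8 (.c 40 (.c 15246281046235401 .nil)))) .nil) (.I .tdb (.c 24 (.c 43655299 (.c 0 (.c 40 .nil)))) (.b 8 .nil))))))))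

noncomputable def c2_78 : Tr := (.node (.node (.node (.node (.node (.node (.I .tdb (.c 0 (.c 8 (.c 40 (.c 15038498931046729 .nil)))) .nil) (.I .jac (.c 43954691 (.c 8321 (.c 24 .nil))) (.b 8 .nil))) (.node (.I .tdb (.c 48 (.c 553912521 (.c 0 (.c 40 .nil)))) (.b 8 .nil)) (.I .tdb (.c 16 (.c 32 (.c 0 (.c 40 .nil)))) (.b 24 (.b 48 (.b 8 .nil)))))) (.node (.node (.I .tdb (.c 24 (.c 8321 (.c 0 (.c 40 .nil)))) (.b 48 (.b 8 .nil))) (.I .jac (.c 15456118887244105 (.c 16 (.c 24 .nil))) (.b 8 .nil))) (.node (.I .jac (.c 43954691 (.c 4737 (.c 32 .nil))) (.b 8 .nil)) (.I .tdb (.c 0 (.c 8 (.c 40 (.c 15246325749294281 .nil)))) .nil)))) (.node (.node (.node (.I .tdb (.c 16 (.c 43655363 (.c 0 (.c 40 .nil)))) (.b 8 .nil)) (.I .tdb (.c 0 (.c 8 (.c 12993 (.c 2756086025 .nil)))) .nil)) (.node (.I .tdb (.c 0 (.c 8 (.c 12993 (.c 43655299 .nil)))) .nil) (.I .tdb (.c 24 (.c 40 (.c 43655299 (.c 0 .nil))))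 (.b 8 .nil)))) (.node (.node (.I .tdb (.c 24 (.c 40 (.c 43655299 (.c 8 .nil)))) (.b 0 .nil)) (.I .tdb (.c 0 (.c 8 (.c 13057 (.c 2756085961 .nil)))) .nil)) (.node (.I .tdb (.c 32 (.c 40 (.c 2756085961 (.c 0 .nil)))) (.b 8 .nil)) (.I .tdb (.c 32 (.c 40 (.c 2756085961 (.c 8 .nil)))) (.b 0 .nil)))))) (.node (.node (.node (.node (.I .tdb (.c 0 (.c 8 (.c 13057 (.c 179513737 .nil)))) .nil) (.I .jac (.c 15246191640314057 (.c 24 (.c 40 .nil))) (.b 8 .nil))) (.node (.I .tdb (.c 24 (.c 40 (.c 18561 (.c 8 .nil)))) (.b 32 (.b 0 .nil))) (.I .tdb (.c 16 (.c 48 (.c 0 (.c 40 .nil)))) (.b 8385 (.b 8 .nil))))) (.node (.node (.I .tdb (.c 0 (.c 8 (.c 21307587 (.c 18561 .nil)))) .nil) (.I .tdb (.c 0 (.c 8 (.c 48 (.c 257801270351607689 .nil)))) .nil)) (.node (.I .tdb (.c 32 (.c 179513673 (.c 0 (.c 48 .nil)))) (.b 8 .nil)) (.I .tdb (.c 4737 (.c 40 (.c 8 (.c 48 .nil)))) (.b 32 (.b 0 .nil)))))) (.node (.node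 (.node (.I .tdb (.c 16 (.c 24 (.c 48 (.c 8 .nil)))) (.b 40 (.b 32 (.b 0 .nil)))) (.I .tdb (.c 32 (.c 179513673 (.c 8 (.c 48 .nil)))) (.b 0 .nil))) (.node (.I .tdb (.c 0 (.c 8 (.c 48 (.c 257801086529639369 .nil)))) .nil) (.I .tdb (.c 40 (.c 179513609 (.c 0 (.c 48 .nil)))) (.b 8 .nil)))) (.node (.node (.I .tdb (.c 4737 (.c 32 (.c 0 (.c 48 .nil)))) (.b 40 (.b 8 .nil))) (.I .tdb (.c 16 (.c 24 (.c 48 (.c 0 .nil)))) (.b 32 (.b 40 (.b 8 .nil))))) (.node (.I .tdb (.c 40 (.c 179513609 (.c 8 (.c 48 .nil)))) (.b 0 .nil)) (.I .tdb (.c 4737 (.c 32 (.c 8 (.c 48 .nil)))) (.b 40 (.b 0 .nil)))))))) (.node (.node (.node (.node (.node (.I .tdb (.c 16 (.c 24 (.c 48 (.c 8 .nil)))) (.b 32 (.b 40 (.b 0 .nil)))) (.I .tdb (.c 24 (.c 48 (.c 8 (.c 40 .nil)))) (.b 16 (.b 32 (.b 0 .nil))))) (.node (.I .tdb (.c 16 (.c 40 (.c 18625 (.c 8 .nil)))) (.b 32 (.b 0 .nil))) (.I .tdb (.c 0 (.c 8 (.c 1337272521 (.c 18689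 .nil)))) .nil))) (.node (.node (.I .tdb (.c 24 (.c 12929 (.c 18689 (.c 0 .nil)))) (.b 8 .nil)) (.I .tdb (.c 32 (.c 48 (.c 0 (.c 24 .nil)))) (.b 12929 (.b 8 .nil)))) (.node (.I .tdb (.c 32 (.c 48 (.c 8 (.c 40 .nil)))) (.b 16 (.b 24 (.b 0 .nil)))) (.I .tdb (.c 16 (.c 40 (.c 18689 (.c 8 .nil)))) (.b 24 (.b 0 .nil)))))) (.node (.node (.node (.I .tdb (.c 24 (.c 12929 (.c 18689 (.c 8 .nil)))) (.b 0 .nil)) (.I .tdb (.c 32 (.c 48 (.c 8 (.c 24 .nil)))) (.b 12929 (.b 0 .nil)))) (.node (.I .tdb (.c 0 (.c 8 (.c 179513673 (.c 18689 .nil)))) .nil) (.I .tdb (.c 4737 (.c 40 (.c 18689 (.c 0 .nil)))) (.b 8 .nil)))) (.node (.node (.I .tdb (.c 16 (.c 24 (.c 18689 (.c 0 .nil)))) (.b 40 (.b 8 .nil))) (.I .tdb (.c 32 (.c 48 (.c 0 (.c 40 .nil)))) (.b 4737 (.b 8 .nil)))) (.node (.I .tdb (.c 4737 (.c 40 (.c 18689 (.c 8 .nil)))) (.b 0 .nil)) (.I .tdb (.c 16 (.c 24 (.c 18689 (.c 8 .nil)))) (.b 40 (.b 0 .nil)))))))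 (.node (.node (.node (.node (.I .tdb (.c 32 (.c 48 (.c 8 (.c 40 .nil)))) (.b 4737 (.b 0 .nil))) (.I .tdb (.c 32 (.c 48 (.c 0 (.c 21099139 .nil)))) (.b 8 .nil))) (.node (.I .tdb (.c 16 (.c 40 (.c 2775125257 (.c 0 .nil)))) (.b 8 .nil)) (.I .jac (.c 21307459 (.c 24 (.c 48 .nil))) (.b 16 (.b 0 .nil))))) (.node (.node (.I .tdb (.c 32 (.c 18625 (.c 8 (.c 40 .nil)))) (.b 16 (.b 0 .nil))) (.I .tdb (.c 16 (.c 40 (.c 2775125257 (.c 8 .nil)))) (.b 0 .nil))) (.node (.I .tdb (.c 0 (.c 8 (.c 12929 (.c 43655363 .nil)))) .nil) (.I .tdb (.c 16 (.c 40 (.c 43655363 (.c 0 .nil)))) (.b 8 .nil))))) (.node (.node (.node (.I .tdb (.c 16 (.c 40 (.c 43655363 (.c 8 .nil)))) (.b 0 .nil)) (.I .tdb (.c 0 (.c 8 (.c 553912521 (.c 18753 .nil)))) .nil)) (.node (.I .tdb (.c 24 (.c 8321 (.c 18753 (.c 0 .nil)))) (.b 8 .nil)) (.I .tdb (.c 40 (.c 48 (.c 0 (.c 24 .nil)))) (.b 8321 (.b 8 .nil))))) (.node (.node (.I .tdb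 (.c 40 (.c 48 (.c 8 (.c 32 .nil)))) (.b 16 (.b 24 (.b 0 .nil)))) (.I .tdb (.c 16 (.c 32 (.c 18753 (.c 8 .nil)))) (.b 24 (.b 0 .nil)))) (.node (.I .tdb (.c 24 (.c 8321 (.c 18753 (.c 8 .nil)))) (.b 0 .nil)) (.I .tdb (.c 40 (.c 48 (.c 8 (.c 24 .nil)))) (.b 8321 (.b 0 .nil)))))))))

noncomputable def c2_79 : Tr := (.node (.node (.node (.node (.node (.node (.I .tdb (.c 0 (.c 8 (.c 8786563 (.c 18753 .nil)))) .nil) (.I .tdb (.c 40 (.c 48 (.c 0 (.c 8786563 .nil)))) (.b 8 .nil))) (.node (.I .tdb (.c 0 (.c 8 (.c 8321 (.c 2775125321 .nil)))) .nil) (.I .tdb (.c 0 (.c 8 (.c 8321 (.c 43954883 .nil)))) .nil))) (.node (.node (.I .tdb (.c 16 (.c 32 (.c 43954883 (.c 0 .nil)))) (.b 8 .nil)) (.I .tdb (.c 16 (.c 32 (.c 43954883 (.c 8 .nil)))) (.b 0 .nil))) (.node (.I .tdb (.c 0 (.c 8 (.c 4737 (.c 43954947 .nil)))) .nil) (.I .tdb (.c 16 (.c 24 (.c 43954947 (.c 0 .nil)))) (.b 8 .nil))))) (.node (.node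 (.node (.I .tdb (.c 16 (.c 24 (.c 43954947 (.c 8 .nil)))) (.b 0 .nil)) (.I .jac (.c 8652803 (.c 24 (.c 40 .nil))) (.b 48 (.b 8 .nil)))) (.node (.I .tdb (.c 0 (.c 8 (.c 16 (.c 15456253916349769 .nil)))) .nil) (.I .tdb (.c 32 (.c 43954883 (.c 0 (.c 16 .nil)))) (.b 8 .nil)))) (.node (.node (.I .tdb (.c 0 (.c 8 (.c 16 (.c 15246325749294473 .nil)))) .nil) (.I .tdb (.c 40 (.c 43655363 (.c 0 (.c 16 .nil)))) (.b 8 .nil))) (.node (.I .jac (.c 14832759703961929 (.c 24 (.c 40 .nil))) (.b 8 .nil)) (.I .tdb (.c 0 (.c 8 (.c 16 (.c 3632106110100937 .nil)))) .nil))))) (.node (.node (.node (.node (.I .tdb (.c 0 (.c 8 (.c 16 (.c 15456298926182665 .nil)))) .nil) (.I .tdb (.c 24 (.c 15456163896880457 (.c 0 (.c 16 .nil)))) .nil)) (.node (.I .tdb (.c 24 (.c 3632062472293833 (.c 0 (.c 16 .nil)))) .nil) (.I .tdb (.c 32 (.c 15038454533713289 (.c 0 (.c 16 .nil)))) .nil))) (.node (.node (.I .tdb (.c 32 (.c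 15456253916349577 (.c 0 (.c 16 .nil)))) .nil) (.I .tdb (.c 8 (.c 40 (.c 0 (.c 16 .nil)))) (.b 32 (.b 24 (.b 48 .nil))))) (.node (.I .tdb (.c 8 (.c 40 (.c 0 (.c 16 .nil)))) (.b 24 (.b 32 (.b 48 .nil)))) (.I .tdb (.c 8 (.c 32 (.c 0 (.c 16 .nil)))) (.b 24 (.b 40 (.b 48 .nil))))))) (.node (.node (.node (.I .tdb (.c 24 (.c 8257 (.c 0 (.c 16 .nil)))) (.b 40 (.b 48 .nil))) (.I .tdb (.c 16 (.c 59934271212510434249 (.c 0 (.c 24 .nil)))) .nil)) (.node (.I .tdb (.c 16 (.c 3632062472293833 (.c 0 (.c 24 .nil)))) .nil) (.I .tdb (.c 16 (.c 15456298926182537 (.c 0 (.c 24 .nil)))) .nil))) (.node (.node (.I .tdb (.c 32 (.c 15456163896880329 (.c 0 (.c 24 .nil)))) .nil) (.I .tdb (.c 40 (.c 59934271212510434057 (.c 0 (.c 24 .nil)))) .nil)) (.node (.I .tdb (.c 40 (.c 15246236343241929 (.c 0 (.c 24 .nil)))) .nil) (.I .tdb (.c 40 (.c 14832803796618569 (.c 0 (.c 24 .nil)))) .nil)))))) (.node (.node (.node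 (.node (.node (.I .tdb (.c 40 (.c 598976858557897 (.c 0 (.c 24 .nil)))) .nil) (.I .tdb (.c 8 (.c 40 (.c 0 (.c 24 .nil)))) (.b 32 (.b 16 (.b 48 .nil))))) (.node (.I .tdb (.c 48 (.c 3632062472293577 (.c 0 (.c 24 .nil)))) .nil) (.I .tdb (.c 16 (.c 21307459 (.c 0 (.c 24 .nil)))) (.b 48 .nil)))) (.node (.node (.I .tdb (.c 8 (.c 40 (.c 0 (.c 24 .nil)))) (.b 16 (.b 32 (.b 48 .nil)))) (.I .tdb (.c 2113 (.c 40 (.c 0 (.c 24 .nil)))) (.b 32 (.b 48 .nil)))) (.node (.I .tdb (.c 8 (.c 16 (.c 0 (.c 24 .nil)))) (.b 40 (.b 32 (.b 48 .nil)))) (.I .tdb (.c 48 (.c 3491710045130057 (.c 0 (.c 24 .nil)))) .nil)))) (.node (.node (.node (.I .tdb (.c 32 (.c 20891715 (.c 0 (.c 24 .nil)))) (.b 48 .nil)) (.I .tdb (.c 8 (.c 32 (.c 0 (.c 24 .nil)))) (.b 16 (.b 40 (.b 48 .nil))))) (.node (.I .tdb (.c 16 (.c 8257 (.c 0 (.c 24 .nil)))) (.b 40 (.b 48 .nil))) (.I .tdb (.c 16 (.c 24 (.c 14025210098083634057 (.c 0 .nil))))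 .nil))) (.node (.node (.I .tdb (.c 16 (.c 24 (.c 15456163896880457 (.c 0 .nil)))) .nil) (.I .tdb (.c 16 (.c 24 (.c 59934271212510434249 (.c 0 .nil)))) .nil)) (.node (.I .tdb (.c 16 (.c 24 (.c 2379905498923998153 (.c 0 .nil)))) .nil) (.I .tdb (.c 16 (.c 24 (.c 3632062472293833 (.c 0 .nil)))) .nil))))) (.node (.node (.node (.node (.I .tdb (.c 16 (.c 24 (.c 15456298926182537 (.c 0 .nil)))) .nil) (.I .tdb (.c 24 (.c 14832803796618633 (.c 0 (.c 32 .nil)))) .nil)) (.node (.I .tdb (.c 40 (.c 62889413447113 (.c 0 (.c 32 .nil)))) .nil) (.I .tdb (.c 8 (.c 40 (.c 0 (.c 32 .nil)))) (.b 24 (.b 16 (.b 48 .nil)))))) (.node (.node (.I .tdb (.c 8 (.c 40 (.c 0 (.c 32 .nil)))) (.b 16 (.b 24 (.b 48 .nil)))) (.I .tdb (.c 48 (.c 62889413447049 (.c 0 (.c 32 .nil)))) .nil)) (.node (.I .tdb (.c 40 (.c 2803779 (.c 0 (.c 32 .nil)))) (.b 48 .nil)) (.I .tdb (.c 48 (.c 3561389332330633 (.c 0 (.c 32 .nil)))) .nil))))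 (.node (.node (.node (.I .tdb (.c 8 (.c 21099139 (.c 0 (.c 32 .nil)))) (.b 48 .nil)) (.I .tdb (.c 16 (.c 32 (.c 59934274015313491785 (.c 0 .nil)))) .nil)) (.node (.I .tdb (.c 16 (.c 32 (.c 14025210098083633993 (.c 0 .nil)))) .nil) (.I .tdb (.c 16 (.c 32 (.c 59934268409707442121 (.c 0 .nil)))) .nil))) (.node (.node (.I .tdb (.c 16 (.c 32 (.c 244148848929896457 (.c 0 .nil)))) .nil) (.I .tdb (.c 16 (.c 32 (.c 3561367726845385 (.c 0 .nil)))) .nil)) (.node (.I .tdb (.c 24 (.c 32 (.c 14025210098083633929 (.c 0 .nil)))) .nil) (.I .tdb (.c 24 (.c 32 (.c 59934265606904515529 (.c 0 .nil)))) .nil)))))))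

noncomputable def c2_80 : Tr := (.node (.node (.node (.node (.node (.node (.I .tdb (.c 24 (.c 32 (.c 14832803796618633 (.c 0 .nil)))) .nil) (.I .tdb (.c 24 (.c 32 (.c 14025204674709064713 (.c 0 .nil)))) .nil)) (.node (.I .tdb (.c 24 (.c 32 (.c 10206474507614217 (.c 0 .nil)))) .nil) (.I .tdb (.c 24 (.c 32 (.c 3491710045130185 (.c 0 .nil)))) .nil))) (.node (.node (.I .tdb (.c 24 (.c 8321 (.c 2737112393 (.c 0 .nil)))) .nil) (.I .jac (.c 21099011 (.c 8 (.c 48 .nil))) (.b 8321 .nil))) (.node (.I .tdb (.c 16 (.c 24 (.c 2737112393 (.c 0 .nil)))) (.b 32 .nil)) (.I .jac (.c 21307395 (.c 8 (.c 48 .nil))) (.b 4737 .nil))))) (.node (.node (.node (.I .tdb (.c 24 (.c 8321 (.c 1324066185 (.c 0 .nil)))) .nil) (.I .tdb (.c 48 (.c 12865 (.c 0 (.c 24 .nil)))) (.b 8321 .nil))) (.node (.I .tdb (.c 8 (.c 40 (.c 0 (.c 24 .nil)))) (.b 48 (.b 8321 .nil))) (.I .tdb (.c 4737 (.c 32 (.c 1324066185 (.c 0 .nil))))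 .nil))) (.node (.node (.I .tdb (.c 16 (.c 24 (.c 1324066185 (.c 0 .nil)))) (.b 32 .nil)) (.I .jac (.c 43655171 (.c 8 (.c 40 .nil))) (.b 4737 .nil))) (.node (.I .tdb (.c 48 (.c 12865 (.c 0 (.c 32 .nil)))) (.b 4737 .nil)) (.I .tdb (.c 8 (.c 40 (.c 0 (.c 32 .nil)))) (.b 48 (.b 4737 .nil))))))) (.node (.node (.node (.node (.I .tdb (.c 24 (.c 598976858557897 (.c 0 (.c 40 .nil)))) .nil) (.I .tdb (.c 32 (.c 62889413447113 (.c 0 (.c 40 .nil)))) .nil)) (.node (.I .tdb (.c 8 (.c 32 (.c 0 (.c 40 .nil)))) (.b 24 (.b 16 (.b 48 .nil)))) (.I .tdb (.c 16 (.c 8786499 (.c 0 (.c 40 .nil)))) (.b 48 .nil)))) (.node (.node (.I .tdb (.c 8 (.c 32 (.c 0 (.c 40 .nil)))) (.b 16 (.b 24 (.b 48 .nil)))) (.I .tdb (.c 24 (.c 8652867 (.c 0 (.c 40 .nil)))) (.b 48 .nil))) (.node (.I .tdb (.c 8 (.c 16 (.c 40 (.c 0 .nil)))) (.b 24 (.b 32 (.b 48 .nil)))) (.I .tdb (.c 24 (.c 2113 (.c 0 (.c 40 .nil)))) (.b 32 (.b 48 .nil))))))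 (.node (.node (.node (.I .tdb (.c 48 (.c 617629514823817 (.c 0 (.c 40 .nil)))) .nil) (.I .tdb (.c 8 (.c 8786563 (.c 0 (.c 40 .nil)))) (.b 48 .nil))) (.node (.I .tdb (.c 16 (.c 40 (.c 59934271212510434121 (.c 0 .nil)))) .nil) (.I .tdb (.c 16 (.c 40 (.c 2379905498923998025 (.c 0 .nil)))) .nil))) (.node (.node (.I .tdb (.c 16 (.c 40 (.c 15246236343241993 (.c 0 .nil)))) .nil) (.I .tdb (.c 16 (.c 40 (.c 59934268409707442057 (.c 0 .nil)))) .nil)) (.node (.I .tdb (.c 16 (.c 40 (.c 2379903823379378185 (.c 0 .nil)))) .nil) (.I .tdb (.c 16 (.c 40 (.c 244148670041478153 (.c 0 .nil)))) .nil)))))) (.node (.node (.node (.node (.node (.I .tdb (.c 16 (.c 40 (.c 617620517416393 (.c 0 .nil)))) .nil) (.I .tdb (.c 16 (.c 40 (.c 15246325749294217 (.c 0 .nil)))) .nil)) (.node (.I .tdb (.c 24 (.c 40 (.c 2379905498923997961 (.c 0 .nil)))) .nil) (.I .tdb (.c 24 (.c 40 (.c 15246236343241929 (.c 0 .nil))))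 .nil))) (.node (.node (.I .tdb (.c 24 (.c 40 (.c 10206511083363209 (.c 0 .nil)))) .nil) (.I .tdb (.c 24 (.c 40 (.c 14832803796618569 (.c 0 .nil)))) .nil)) (.node (.I .tdb (.c 24 (.c 40 (.c 2379903264864635913 (.c 0 .nil)))) .nil) (.I .tdb (.c 24 (.c 40 (.c 10206437931930633 (.c 0 .nil)))) .nil)))) (.node (.node (.node (.I .tdb (.c 24 (.c 40 (.c 598976858557897 (.c 0 .nil)))) .nil) (.I .tdb (.c 24 (.c 12929 (.c 2737112329 (.c 0 .nil)))) .nil)) (.node (.I .tdb (.c 8 (.c 48 (.c 0 (.c 24 .nil)))) (.b 32 (.b 12929 .nil))) (.I .tdb (.c 32 (.c 18497 (.c 0 (.c 24 .nil)))) (.b 12929 .nil)))) (.node (.node (.I .tdb (.c 16 (.c 24 (.c 2737112329 (.c 0 .nil)))) (.b 40 .nil)) (.I .tdb (.c 8 (.c 48 (.c 0 (.c 40 .nil)))) (.b 32 (.b 4737 .nil)))) (.node (.I .tdb (.c 32 (.c 18497 (.c 0 (.c 40 .nil)))) (.b 4737 .nil)) (.I .tdb (.c 32 (.c 18497 (.c 0 (.c 21099139 .nil)))) .nil))))) (.node (.node (.node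 (.node (.I .jac (.c 43356675 (.c 8 (.c 32 .nil))) (.b 12929 .nil)) (.I .jac (.c 43954691 (.c 8 (.c 32 .nil))) (.b 4737 .nil))) (.node (.I .tdb (.c 48 (.c 8257 (.c 0 (.c 40 .nil)))) (.b 4737 .nil)) (.I .tdb (.c 8 (.c 32 (.c 0 (.c 40 .nil)))) (.b 48 (.b 4737 .nil))))) (.node (.node (.I .tdb (.c 32 (.c 40 (.c 15038454533713097 (.c 0 .nil)))) .nil) (.I .tdb (.c 32 (.c 40 (.c 59934265606904515401 (.c 0 .nil)))) .nil)) (.node (.I .tdb (.c 32 (.c 40 (.c 10206511083363145 (.c 0 .nil)))) .nil) (.I .tdb (.c 32 (.c 40 (.c 244148312264838153 (.c 0 .nil)))) .nil)))) (.node (.node (.node (.I .tdb (.c 32 (.c 40 (.c 62889413447113 (.c 0 .nil)))) .nil) (.I .tdb (.c 32 (.c 12929 (.c 2737112265 (.c 0 .nil)))) .nil)) (.node (.I .tdb (.c 8 (.c 48 (.c 0 (.c 32 .nil)))) (.b 24 (.b 12929 .nil))) (.I .tdb (.c 24 (.c 18497 (.c 0 (.c 32 .nil)))) (.b 12929 .nil)))) (.node (.node (.I .tdb (.c 40 (.c 8321 (.c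 2737112265 (.c 0 .nil)))) .nil) (.I .tdb (.c 8 (.c 48 (.c 0 (.c 40 .nil)))) (.b 24 (.b 8321 .nil)))) (.node (.I .jac (.c 43655171 (.c 8 (.c 24 .nil))) (.b 12929 .nil)) (.I .jac (.c 43954691 (.c 8 (.c 24 .nil))) (.b 8321 .nil))))))))

noncomputable def c2_81 : Tr := (.node (.node (.node (.node (.node (.node (.I .tdb (.c 4673 (.c 48 (.c 0 (.c 21307523 .nil)))) .nil) (.I .tdb (.c 8 (.c 24 (.c 21307523 (.c 0 .nil)))) (.b 48 .nil))) (.node (.I .tdb (.c 32 (.c 12993 (.c 2737112201 (.c 0 .nil)))) .nil) (.I .tdb (.c 8 (.c 48 (.c 0 (.c 32 .nil)))) (.b 16 (.b 12993 .nil))))) (.node (.node (.I .tdb (.c 16 (.c 18497 (.c 0 (.c 32 .nil)))) (.b 12993 .nil)) (.I .jac (.c 20891651 (.c 8 (.c 48 .nil))) (.b 8385 .nil))) (.node (.I .tdb (.c 16 (.c 18497 (.c 0 (.c 40 .nil)))) (.b 8385 .nil)) (.I .tdb (.c 24 (.c 32 (.c 2737112201 (.c 0 .nil)))) (.b 40 .nil))))) (.node (.node (.node (.I .tdb (.c 16 (.c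 18497 (.c 0 (.c 21307587 .nil)))) .nil) (.I .jac (.c 43655171 (.c 8 (.c 16 .nil))) (.b 12993 .nil))) (.node (.I .tdb (.c 2113 (.c 48 (.c 0 (.c 32 .nil)))) (.b 12993 .nil)) (.I .tdb (.c 8 (.c 16 (.c 32 (.c 0 .nil)))) (.b 48 (.b 12993 .nil))))) (.node (.node (.I .tdb (.c 2113 (.c 48 (.c 0 (.c 40 .nil)))) (.b 8385 .nil)) (.I .tdb (.c 8 (.c 16 (.c 40 (.c 0 .nil)))) (.b 48 (.b 8385 .nil)))) (.node (.I .tdb (.c 32 (.c 1337272521 (.c 18497 (.c 0 .nil)))) .nil) (.I .tdb (.c 8 (.c 48 (.c 0 (.c 32 .nil)))) (.b 1337272521 .nil)))))) (.node (.node (.node (.node (.I .tdb (.c 32 (.c 179513673 (.c 18497 (.c 0 .nil)))) .nil) (.I .tdb (.c 32 (.c 21099139 (.c 18497 (.c 0 .nil)))) .nil)) (.node (.I .tdb (.c 40 (.c 553912521 (.c 18497 (.c 0 .nil)))) .nil) (.I .tdb (.c 16 (.c 32 (.c 18497 (.c 0 .nil)))) (.b 24 (.b 40 .nil))))) (.node (.node (.I .tdb (.c 24 (.c 8321 (.c 18497 (.c 0 .nil)))) (.b 40 .nil))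 (.I .tdb (.c 8 (.c 48 (.c 0 (.c 24 .nil)))) (.b 8321 (.b 40 .nil)))) (.node (.I .tdb (.c 8 (.c 48 (.c 0 (.c 40 .nil)))) (.b 179513609 .nil)) (.I .tdb (.c 16 (.c 21307587 (.c 18497 (.c 0 .nil)))) .nil)))) (.node (.node (.node (.I .tdb (.c 8 (.c 32 (.c 0 (.c 48 .nil)))) (.b 24 (.b 16 (.b 40 .nil)))) (.I .tdb (.c 8 (.c 32 (.c 0 (.c 48 .nil)))) (.b 16 (.b 24 (.b 40 .nil))))) (.node (.I .tdb (.c 2113 (.c 32 (.c 0 (.c 48 .nil)))) (.b 24 (.b 40 .nil))) (.I .tdb (.c 8 (.c 16 (.c 48 (.c 0 .nil)))) (.b 32 (.b 24 (.b 40 .nil)))))) (.node (.node (.I .tdb (.c 40 (.c 617629514823817 (.c 0 (.c 48 .nil)))) .nil) (.I .tdb (.c 8 (.c 8786563 (.c 0 (.c 48 .nil)))) (.b 40 .nil))) (.node (.I .tdb (.c 4673 (.c 21307523 (.c 0 (.c 48 .nil)))) .nil) (.I .tdb (.c 8 (.c 24 (.c 48 (.c 0 .nil)))) (.b 21307523 .nil))))))) (.node (.node (.node (.node (.node (.I .tdb (.c 16 (.c 48 (.c 0 (.c 24 .nil)))) (.b 1324066057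 .nil)) (.I .tdb (.c 16 (.c 48 (.c 0 (.c 24 .nil)))) (.b 545424713 .nil))) (.node (.I .tdb (.c 24 (.c 21307459 (.c 18561 (.c 0 .nil)))) .nil) (.I .tdb (.c 32 (.c 174695753 (.c 18561 (.c 0 .nil)))) .nil))) (.node (.node (.I .tdb (.c 16 (.c 48 (.c 0 (.c 32 .nil)))) (.b 174695753 .nil)) (.I .tdb (.c 40 (.c 545424585 (.c 18561 (.c 0 .nil)))) .nil)) (.node (.I .tdb (.c 16 (.c 48 (.c 0 (.c 40 .nil)))) (.b 545424585 .nil)) (.I .tdb (.c 24 (.c 8257 (.c 18561 (.c 0 .nil)))) (.b 40 .nil))))) (.node (.node (.node (.I .tdb (.c 16 (.c 48 (.c 0 (.c 24 .nil)))) (.b 8257 (.b 40 .nil))) (.I .tdb (.c 40 (.c 174695689 (.c 18561 (.c 0 .nil)))) .nil)) (.node (.I .tdb (.c 4673 (.c 32 (.c 18561 (.c 0 .nil)))) (.b 40 .nil)) (.I .tdb (.c 8 (.c 24 (.c 18561 (.c 0 .nil)))) (.b 32 (.b 40 .nil))))) (.node (.node (.I .tdb (.c 16 (.c 48 (.c 0 (.c 32 .nil)))) (.b 4673 (.b 40 .nil))) (.I .tdb (.c 8786499 (.c 40 (.c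 18561 (.c 0 .nil)))) .nil)) (.node (.I .tdb (.c 8 (.c 21307587 (.c 18561 (.c 0 .nil)))) .nil) (.I .tdb (.c 16 (.c 1324066057 (.c 18625 (.c 0 .nil)))) .nil))))) (.node (.node (.node (.node (.I .tdb (.c 24 (.c 48 (.c 0 (.c 16 .nil)))) (.b 1324066057 .nil)) (.I .tdb (.c 16 (.c 21307459 (.c 18625 (.c 0 .nil)))) .nil)) (.node (.I .tdb (.c 32 (.c 35718473 (.c 18625 (.c 0 .nil)))) .nil) (.I .tdb (.c 40 (.c 545424521 (.c 18625 (.c 0 .nil)))) .nil))) (.node (.node (.I .tdb (.c 24 (.c 48 (.c 0 (.c 40 .nil)))) (.b 545424521 .nil)) (.I .tdb (.c 8 (.c 32 (.c 18625 (.c 0 .nil)))) (.b 16 (.b 40 .nil)))) (.node (.I .tdb (.c 16 (.c 8257 (.c 18625 (.c 0 .nil)))) (.b 40 .nil)) (.I .tdb (.c 24 (.c 48 (.c 0 (.c 16 .nil)))) (.b 8257 (.b 40 .nil)))))) (.node (.node (.node (.I .tdb (.c 40 (.c 35718409 (.c 18625 (.c 0 .nil)))) .nil) (.I .tdb (.c 2113 (.c 32 (.c 18625 (.c 0 .nil)))) (.b 40 .nil))) (.node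 (.I .tdb (.c 8 (.c 16 (.c 18625 (.c 0 .nil)))) (.b 32 (.b 40 .nil))) (.I .tdb (.c 24 (.c 48 (.c 0 (.c 32 .nil)))) (.b 2113 (.b 40 .nil))))) (.node (.node (.I .tdb (.c 32 (.c 12865 (.c 2756085961 (.c 0 .nil)))) .nil) (.I .tdb (.c 16 (.c 48 (.c 0 (.c 32 .nil)))) (.b 24 (.b 12865 .nil)))) (.node (.I .tdb (.c 24 (.c 18561 (.c 0 (.c 32 .nil)))) (.b 12865 .nil)) (.I .tdb (.c 32 (.c 12865 (.c 179513737 (.c 0 .nil)))) .nil)))))))

noncomputable def c2_82 : Tr := (.node (.node (.node (.node (.node (.node (.I .tdb (.c 4737 (.c 48 (.c 0 (.c 32 .nil)))) (.b 12865 .nil)) (.I .tdb (.c 16 (.c 24 (.c 32 (.c 0 .nil)))) (.b 48 (.b 12865 .nil)))) (.node (.I .jac (.c 43954691 (.c 16 (.c 24 .nil))) (.b 8257 .nil)) (.I .tdb (.c 16 (.c 24 (.c 21307459 (.c 0 .nil)))) (.b 48 .nil)))) (.node (.node (.I .tdb (.c 16 (.c 174695753 (.c 18689 (.c 0 .nil)))) .nil) (.I .tdb (.c 32 (.c 48 (.c 0 (.c 16 .nil)))) (.b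 174695753 .nil))) (.node (.I .tdb (.c 40 (.c 35718345 (.c 18689 (.c 0 .nil)))) .nil) (.I .tdb (.c 32 (.c 48 (.c 0 (.c 40 .nil)))) (.b 35718345 .nil))))) (.node (.node (.node (.I .tdb (.c 8 (.c 16 (.c 18689 (.c 0 .nil)))) (.b 24 (.b 40 .nil))) (.I .tdb (.c 24 (.c 2113 (.c 18689 (.c 0 .nil)))) (.b 40 .nil))) (.node (.I .tdb (.c 32 (.c 48 (.c 0 (.c 24 .nil)))) (.b 2113 (.b 40 .nil))) (.I .tdb (.c 8 (.c 21099139 (.c 18689 (.c 0 .nil)))) .nil))) (.node (.node (.I .tdb (.c 24 (.c 12865 (.c 2756086025 (.c 0 .nil)))) .nil) (.I .tdb (.c 32 (.c 18561 (.c 0 (.c 24 .nil)))) (.b 12865 .nil))) (.node (.I .tdb (.c 24 (.c 12865 (.c 553912713 (.c 0 .nil)))) .nil) (.I .tdb (.c 48 (.c 8321 (.c 0 (.c 24 .nil)))) (.b 12865 .nil)))))) (.node (.node (.node (.node (.I .tdb (.c 16 (.c 32 (.c 0 (.c 24 .nil)))) (.b 48 (.b 12865 .nil))) (.I .jac (.c 43954691 (.c 16 (.c 32 .nil))) (.b 4673 .nil))) (.node (.I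 .tdb (.c 16 (.c 12865 (.c 2775125257 (.c 0 .nil)))) .nil) (.I .jac (.c 8652803 (.c 24 (.c 48 .nil))) (.b 12865 .nil)))) (.node (.node (.I .tdb (.c 24 (.c 48 (.c 0 (.c 16 .nil)))) (.b 32 (.b 12865 .nil))) (.I .tdb (.c 32 (.c 18625 (.c 0 (.c 16 .nil)))) (.b 12865 .nil))) (.node (.I .jac (.c 43059203 (.c 24 (.c 32 .nil))) (.b 12865 .nil)) (.I .tdb (.c 2113 (.c 40 (.c 2775125257 (.c 0 .nil)))) .nil)))) (.node (.node (.node (.I .tdb (.c 8 (.c 16 (.c 2775125257 (.c 0 .nil)))) (.b 40 .nil)) (.I .tdb (.c 24 (.c 48 (.c 0 (.c 40 .nil)))) (.b 32 (.b 2113 .nil)))) (.node (.I .tdb (.c 32 (.c 18625 (.c 0 (.c 40 .nil)))) (.b 2113 .nil)) (.I .jac (.c 43954691 (.c 24 (.c 32 .nil))) (.b 2113 .nil)))) (.node (.node (.I .tdb (.c 8 (.c 40 (.c 15038498931046729 (.c 0 .nil)))) .nil) (.I .tdb (.c 8 (.c 40 (.c 2454552647364603913 (.c 0 .nil)))) .nil)) (.node (.I .tdb (.c 16 (.c 545424585 (.c 18753 (.c 0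 .nil)))) .nil) (.I .tdb (.c 40 (.c 48 (.c 0 (.c 16 .nil)))) (.b 545424585 .nil))))))) (.node (.node (.node (.node (.node (.I .tdb (.c 16 (.c 8786499 (.c 18753 (.c 0 .nil)))) .nil) (.I .tdb (.c 40 (.c 18561 (.c 0 (.c 24 .nil)))) (.b 8257 .nil))) (.node (.I .jac (.c 43356675 (.c 16 (.c 40 .nil))) (.b 8257 .nil)) (.I .tdb (.c 40 (.c 18561 (.c 0 (.c 32 .nil)))) (.b 4673 .nil)))) (.node (.node (.I .tdb (.c 4673 (.c 32 (.c 1337272713 (.c 0 .nil)))) .nil) (.I .tdb (.c 8 (.c 24 (.c 1337272713 (.c 0 .nil)))) (.b 32 .nil))) (.node (.I .tdb (.c 48 (.c 12929 (.c 0 (.c 32 .nil)))) (.b 4673 .nil)) (.I .tdb (.c 16 (.c 40 (.c 0 (.c 32 .nil)))) (.b 48 (.b 4673 .nil)))))) (.node (.node (.node (.I .jac (.c 20891651 (.c 24 (.c 48 .nil))) (.b 8257 .nil)) (.I .jac (.c 43059203 (.c 24 (.c 40 .nil))) (.b 8257 .nil))) (.node (.I .jac (.c 43655171 (.c 24 (.c 40 .nil))) (.b 2113 .nil)) (.I .tdb (.c 8 (.c 32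 (.c 60768084239834527561 (.c 0 .nil)))) .nil))) (.node (.node (.I .tdb (.c 8 (.c 32 (.c 14306386471475043145 (.c 0 .nil)))) .nil) (.I .tdb (.c 8 (.c 32 (.c 15038498931046793 (.c 0 .nil)))) .nil)) (.node (.I .tdb (.c 8 (.c 32 (.c 257801270351607817 (.c 0 .nil)))) .nil) (.I .tdb (.c 8 (.c 32 (.c 3561389332330953 (.c 0 .nil)))) .nil))))) (.node (.node (.node (.node (.I .jac (.c 20891651 (.c 32 (.c 48 .nil))) (.b 4673 .nil)) (.I .jac (.c 43059203 (.c 32 (.c 40 .nil))) (.b 4673 .nil))) (.node (.I .tdb (.c 8 (.c 24 (.c 60768084239834527625 (.c 0 .nil)))) .nil) (.I .tdb (.c 8 (.c 24 (.c 15456298926182601 (.c 0 .nil)))) .nil))) (.node (.node (.I .tdb (.c 8 (.c 16 (.c 3632106110100937 (.c 0 .nil)))) .nil) (.I .tdb (.c 8 (.c 16 (.c 15456298926182665 (.c 0 .nil)))) .nil)) (.node (.I .tdb (.c 16 (.c 40 (.c 0 (.c 8 .nil)))) (.b 32 (.b 24 (.b 48 .nil)))) (.I .tdb (.c 16 (.c 40 (.c 0 (.c 8 .nil))))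 (.b 24 (.b 32 (.b 48 .nil))))))) (.node (.node (.node (.I .jac (.c 513 (.c 16 (.c 24 .nil))) (.l 13057 (.b 48 .nil))) (.I .com (.c 35466557976329 (.c 13057 .nil)) (.b 48 .nil))) (.node (.I .com (.c 35464401931081 (.c 13057 .nil)) (.b 48 .nil)) (.I .adp (.c 35466557976329 (.c 13057 (.c 48 .nil))) .nil))) (.node (.node (.I .adp (.c 35464401931081 (.c 13057 (.c 48 .nil))) .nil) (.I .jac (.c 4737 (.c 32 (.c 40 .nil))) (.l 513 (.b 48 .nil)))) (.node (.I .adp (.c 513 (.c 257801270351607689 (.c 48 .nil))) .nil) (.I .adp (.c 513 (.c 257801086529639369 (.c 48 .nil))) .nil)))))))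

noncomputable def c2_83 : Tr := (.node (.node (.node (.node (.node (.node (.I .jac (.c 513 (.c 32 (.c 40 .nil))) (.l 4737 (.b 48 .nil))) (.I .com (.c 35470870263689 (.c 4737 .nil)) (.b 48 .nil))) (.node (.I .com (.c 35468714087369 (.c 4737 .nil)) (.b 48 .nil)) (.I .adp (.c 35470870263689 (.c 4737 (.c 48 .nil))) .nil))) (.node (.node (.I .adp (.c 35468714087369 (.c 4737 (.c 48 .nil))) .nil) (.I .jac (.c 2049 (.c 8 (.c 24 .nil))) (.l 13057 (.b 48 .nil)))) (.node (.I .com (.c 9024908047478473 (.c 13057 .nil)) (.b 48 .nil)) (.I .com (.c 9024839260612425 (.c 13057 .nil)) (.b 48 .nil))))) (.node (.node (.node (.I .adp (.c 9024908047478473 (.c 13057 (.c 48 .nil))) .nil) (.I .adp (.c 9024839260612425 (.c 13057 (.c 48 .nil))) .nil)) (.node (.I .jac (.c 4673 (.c 32 (.c 40 .nil))) (.l 2049 (.b 48 .nil))) (.I .adp (.c 2049 (.c 244148848929896329 (.c 48 .nil))) .nil))) (.node (.node (.I .adp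 (.c 2049 (.c 244148670041478089 (.c 48 .nil))) .nil) (.I .jac (.c 2049 (.c 32 (.c 40 .nil))) (.l 4673 (.b 48 .nil)))) (.node (.I .com (.c 9024976834606985 (.c 4673 .nil)) (.b 48 .nil)) (.I .com (.c 9024942441010121 (.c 4673 .nil)) (.b 48 .nil)))))) (.node (.node (.node (.node (.I .adp (.c 9024976834606985 (.c 4673 (.c 48 .nil))) .nil) (.I .adp (.c 9024942441010121 (.c 4673 (.c 48 .nil))) .nil)) (.node (.I .jac (.c 4609 (.c 8 (.c 16 .nil))) (.l 13057 (.b 48 .nil))) (.I .com (.c 231045467270826697 (.c 13057 .nil)) (.b 48 .nil)))) (.node (.node (.I .com (.c 231045293249046281 (.c 13057 .nil)) (.b 48 .nil)) (.I .adp (.c 231045467270826697 (.c 13057 (.c 48 .nil))) .nil)) (.node (.I .adp (.c 231045293249046281 (.c 13057 (.c 48 .nil))) .nil) (.I .jac (.c 2113 (.c 32 (.c 40 .nil))) (.l 4609 (.b 48 .nil)))))) (.node (.node (.node (.I .adp (.c 4609 (.c 10206474507614089 (.c 48 .nil))) .nil)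 (.I .adp (.c 4609 (.c 10206437931930569 (.c 48 .nil))) .nil)) (.node (.I .jac (.c 4609 (.c 32 (.c 40 .nil))) (.l 2113 (.b 48 .nil))) (.I .com (.c 231045989336561545 (.c 2113 .nil)) (.b 48 .nil)))) (.node (.node (.I .com (.c 231045815314584521 (.c 2113 .nil)) (.b 48 .nil)) (.I .adp (.c 231045989336561545 (.c 2113 (.c 48 .nil))) .nil)) (.node (.I .adp (.c 231045815314584521 (.c 2113 (.c 48 .nil))) .nil) (.I .jac (.c 2105673 (.c 18561 (.c 24 .nil))) (.r 32 .nil))))))) (.node (.node (.node (.node (.node (.I .jac (.c 2105673 (.c 16 (.c 48 .nil))) (.b 24 (.r 32 .nil))) (.I .jac (.c 2105737 (.c 16 (.c 24 .nil))) (.b 40 (.r 32 .nil)))) (.node (.I .jac (.c 2105673 (.c 24 (.c 48 .nil))) (.l 8321 .nil)) (.I .jac (.c 513 (.c 24 (.c 48 .nil))) (.b 40 (.l 8321 .nil))))) (.node (.node (.I .com (.c 10066684875704784911325976521 (.c 8321 .nil)) .nil) (.I .jac (.c 513 (.c 16 (.c 32 .nil))) (.r 2775125321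 .nil))) (.node (.I .adp (.c 14025210098083633993 (.c 32 (.c 2049 .nil))) .nil) (.I .com (.c 33587465 (.c 14025210098083633993 .nil)) .nil)))) (.node (.node (.node (.I .jac (.c 33587593 (.c 8 (.c 40 .nil))) (.b 24 (.r 32 .nil))) (.I .jac (.c 33587401 (.c 12865 (.c 48 .nil))) (.r 32 .nil))) (.node (.I .adp (.c 59934268409707442121 (.c 32 (.c 2049 .nil))) .nil) (.I .com (.c 33587465 (.c 59934268409707442121 .nil)) .nil))) (.node (.node (.I .jac (.c 33587529 (.c 8 (.c 48 .nil))) (.b 24 (.r 32 .nil))) (.I .jac (.c 2049 (.c 2737112265 (.c 40 .nil))) (.r 32 .nil))) (.node (.I .jac (.c 2049 (.c 18497 (.c 24 .nil))) (.b 40 (.r 32 .nil))) (.I .jac (.c 2049 (.c 8 (.c 48 .nil))) (.b 24 (.b 40 (.r 32 .nil)))))))) (.node (.node (.node (.node (.I .adp (.c 244149027818380233 (.c 32 (.c 2049 .nil))) .nil) (.I .com (.c 33587465 (.c 244149027818380233 .nil)) .nil)) (.node (.I .jac (.c 33587529 (.c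 4673 (.c 48 .nil))) (.r 32 .nil)) (.I .jac (.c 33587529 (.c 8 (.c 24 .nil))) (.b 48 (.r 32 .nil))))) (.node (.node (.I .jac (.c 2049 (.c 174695817 (.c 40 .nil))) (.r 32 .nil)) (.I .jac (.c 2049 (.c 4673 (.c 48 .nil))) (.b 40 (.r 32 .nil)))) (.node (.I .jac (.c 2049 (.c 8 (.c 24 .nil))) (.b 48 (.b 40 (.r 32 .nil)))) (.I .jac (.c 9025011228269385 (.c 8 (.c 40 .nil))) (.r 32 .nil))))) (.node (.node (.node (.I .jac (.c 33587593 (.c 12865 (.c 24 .nil))) (.r 32 .nil)) (.I .jac (.c 2049 (.c 1324065993 (.c 48 .nil))) (.r 32 .nil))) (.node (.I .jac (.c 2049 (.c 12865 (.c 24 .nil))) (.b 48 (.r 32 .nil))) (.I .jac (.c 2049 (.c 8 (.c 40 .nil))) (.b 24 (.b 48 (.r 32 .nil)))))) (.node (.node (.I .jac (.c 33587529 (.c 24 (.c 48 .nil))) (.l 8257 .nil)) (.I .jac (.c 2049 (.c 24 (.c 48 .nil))) (.b 40 (.l 8257 .nil)))) (.node (.I .com (.c 651591722123579838450590277895113 (.c 8257 .nil)) .nil) (.I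 .jac (.c 2049 (.c 8 (.c 32 .nil))) (.r 2775125321 .nil))))))))

noncomputable def c2_84 : Tr := (.node (.node (.node (.node (.node (.node (.I .adp (.c 13748198893136698185 (.c 32 (.c 2113 .nil))) .nil) (.I .jac (.c 13748198893136698185 (.c 8 (.c 16 .nil))) (.r 32 .nil))) (.node (.I .adp (.c 13748194865974800393 (.c 32 (.c 2113 .nil))) .nil) (.I .jac (.c 13748194865974800393 (.c 8 (.c 16 .nil))) (.r 32 .nil)))) (.node (.node (.I .adp (.c 8193 (.c 2775125321 (.c 2113 .nil))) .nil) (.I .jac (.c 35466557976521 (.c 16 (.c 48 .nil))) (.r 32 .nil))) (.node (.I .jac (.c 35473026505673 (.c 16 (.c 24 .nil))) (.r 32 .nil)) (.I .jac (.c 2105737 (.c 4737 (.c 40 .nil))) (.r 32 .nil))))) (.node (.node (.node (.I .jac (.c 2105737 (.c 24 (.c 40 .nil))) (.l 8321 .nil)) (.I .jac (.c 513 (.c 24 (.c 40 .nil))) (.b 48 (.l 8321 .nil)))) (.node (.I .jac (.c 513 (.c 16 (.c 32 .nil))) (.r 1350544777 .nil))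 (.I .jac (.c 9024908047478729 (.c 8 (.c 48 .nil))) (.r 32 .nil)))) (.node (.node (.I .jac (.c 33587401 (.c 18497 (.c 40 .nil))) (.r 32 .nil)) (.I .jac (.c 2049 (.c 2737112393 (.c 24 .nil))) (.r 32 .nil))) (.node (.I .jac (.c 2049 (.c 18497 (.c 40 .nil))) (.b 24 (.r 32 .nil))) (.I .jac (.c 2049 (.c 8 (.c 48 .nil))) (.b 40 (.b 24 (.r 32 .nil)))))))) (.node (.node (.node (.node (.I .jac (.c 9025011228269513 (.c 8 (.c 24 .nil))) (.r 32 .nil)) (.I .jac (.c 33587593 (.c 4673 (.c 40 .nil))) (.r 32 .nil))) (.node (.I .jac (.c 33587593 (.c 24 (.c 40 .nil))) (.l 8257 .nil)) (.I .com (.c 651606621363126269490052522057545 (.c 8257 .nil)) .nil))) (.node (.node (.I .jac (.c 2049 (.c 8 (.c 32 .nil))) (.r 1350544777 .nil)) (.I .adp (.c 59109074018392946505 (.c 32 (.c 2113 .nil))) .nil)) (.node (.I .jac (.c 59109074018392946505 (.c 8 (.c 16 .nil))) (.r 32 .nil)) (.I .jac (.c 231045989336561673 (.c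 8 (.c 16 .nil))) (.r 32 .nil))))) (.node (.node (.node (.I .jac (.c 35718537 (.c 24 (.c 40 .nil))) (.l 8193 .nil)) (.I .com (.c 2105609 (.c 15456253916349641 .nil)) .nil)) (.node (.I .adp (.c 15456253916349577 (.c 32 (.c 2049 .nil))) .nil) (.I .com (.c 33587465 (.c 15456253916349577 .nil)) .nil))) (.node (.node (.I .com (.c 15456253916365905 (.c 8257 .nil)) .nil) (.I .adp (.c 15456253916349513 (.c 32 (.c 2113 .nil))) .nil)) (.node (.I .jac (.c 15456253916349513 (.c 8 (.c 16 .nil))) (.r 32 .nil)) (.I .jac (.c 35466557976585 (.c 16 (.c 32 .nil))) (.r 40 .nil))))))) (.node (.node (.node (.node (.node (.I .jac (.c 2105737 (.c 16 (.c 24 .nil))) (.b 32 (.r 40 .nil))) (.I .jac (.c 35473026505545 (.c 16 (.c 32 .nil))) (.r 40 .nil))) (.node (.I .jac (.c 513 (.c 24 (.c 48 .nil))) (.b 32 (.l 12929 .nil))) (.I .com (.c 10064237432128545199748236105 (.c 12929 .nil)) .nil))) (.node (.node (.I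 .com (.c 10063013877651720715266098057 (.c 12929 .nil)) .nil) (.I .jac (.c 513 (.c 16 (.c 40 .nil))) (.r 2775125257 .nil))) (.node (.I .adp (.c 2379905498923998025 (.c 40 (.c 2049 .nil))) .nil) (.I .com (.c 33587529 (.c 2379905498923998025 .nil)) .nil)))) (.node (.node (.node (.I .jac (.c 9024908047478793 (.c 8 (.c 32 .nil))) (.r 40 .nil)) (.I .jac (.c 33587401 (.c 8 (.c 32 .nil))) (.b 48 (.r 40 .nil)))) (.node (.I .adp (.c 59934268409707442057 (.c 40 (.c 2049 .nil))) .nil) (.I .com (.c 33587529 (.c 59934268409707442057 .nil)) .nil))) (.node (.node (.I .jac (.c 33587465 (.c 18497 (.c 24 .nil))) (.r 40 .nil)) (.I .jac (.c 33587465 (.c 8 (.c 48 .nil))) (.b 24 (.r 40 .nil)))) (.node (.I .jac (.c 9024942441010185 (.c 8 (.c 24 .nil))) (.r 40 .nil)) (.I .jac (.c 33587593 (.c 8 (.c 24 .nil))) (.b 32 (.r 40 .nil))))))) (.node (.node (.node (.node (.I .jac (.c 33587465 (.c 4673 (.c 48 .nil)))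 (.r 40 .nil)) (.I .jac (.c 9025011228269385 (.c 8 (.c 32 .nil))) (.r 40 .nil))) (.node (.I .jac (.c 2049 (.c 545424585 (.c 48 .nil))) (.r 40 .nil)) (.I .jac (.c 2049 (.c 8257 (.c 24 .nil))) (.b 48 (.r 40 .nil))))) (.node (.node (.I .jac (.c 2049 (.c 8 (.c 32 .nil))) (.b 24 (.b 48 (.r 40 .nil)))) (.I .com (.c 651596688508375012468186189873993 (.c 12865 .nil)) .nil)) (.node (.I .com (.c 651606621363107786267057026226057 (.c 12865 .nil)) .nil) (.I .com (.c 651591722123579838450590277895049 (.c 12865 .nil)) .nil)))) (.node (.node (.node (.I .com (.c 651596688508347287845007406880777 (.c 12865 .nil)) .nil) (.I .adp (.c 2306972423229201225 (.c 40 (.c 2113 .nil))) .nil)) (.node (.I .adp (.c 59109068451510808457 (.c 40 (.c 2113 .nil))) .nil) (.I .jac (.c 2113 (.c 18625 (.c 32 .nil))) (.l 12801 .nil)))) (.node (.node (.I .jac (.c 2113 (.c 24 (.c 48 .nil))) (.b 32 (.l 12801 .nil))) (.I .jac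 (.c 2105737 (.c 4737 (.c 32 .nil))) (.r 40 .nil))) (.node (.I .jac (.c 513 (.c 16 (.c 40 .nil))) (.r 562466185 .nil)) (.I .adp (.c 59934271212510434121 (.c 40 (.c 2049 .nil))) .nil)))))))

noncomputable def c2_85 : Tr := (.node (.node (.node (.node (.node (.node (.I .com (.c 33587529 (.c 59934271212510434121 .nil)) .nil) (.I .adp (.c 244148670041478153 (.c 40 (.c 2049 .nil))) .nil)) (.node (.I .com (.c 33587529 (.c 244148670041478153 .nil)) .nil) (.I .jac (.c 33587593 (.c 4673 (.c 32 .nil))) (.r 40 .nil)))) (.node (.node (.I .jac (.c 2049 (.c 174695689 (.c 48 .nil))) (.r 40 .nil)) (.I .jac (.c 2049 (.c 4673 (.c 32 .nil))) (.b 48 (.r 40 .nil)))) (.node (.I .jac (.c 2049 (.c 8 (.c 24 .nil))) (.b 32 (.b 48 (.r 40 .nil)))) (.I .jac (.c 2049 (.c 24 (.c 32 .nil))) (.b 48 (.l 12865 .nil)))))) (.node (.node (.node (.I .adp (.c 231045815314584585 (.c 40 (.c 2113 .nil))) .nil) (.I .jac (.c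 35718537 (.c 24 (.c 32 .nil))) (.l 12801 .nil))) (.node (.I .jac (.c 12801 (.c 8 (.c 16 .nil))) (.r 562466185 .nil)) (.I .com (.c 15246325749298257 (.c 12929 .nil)) .nil))) (.node (.node (.I .adp (.c 15246325749294217 (.c 40 (.c 2049 .nil))) .nil) (.I .com (.c 33587529 (.c 15246325749294217 .nil)) .nil)) (.node (.I .adp (.c 15246325749294153 (.c 40 (.c 2113 .nil))) .nil) (.I .adp (.c 12801 (.c 43655363 (.c 2113 .nil))) .nil))))) (.node (.node (.node (.node (.I .jac (.c 12801 (.c 8 (.c 16 .nil))) (.r 43655363 .nil)) (.I .jac (.c 513 (.c 32 (.c 40 .nil))) (.l 2756085961 .nil))) (.node (.I .com (.c 35470870263689 (.c 2756085961 .nil)) .nil) (.I .jac (.c 513 (.c 32 (.c 40 .nil))) (.l 179513737 .nil)))) (.node (.node (.I .com (.c 35470870263689 (.c 179513737 .nil)) .nil) (.I .com (.c 35468714087369 (.c 179513737 .nil)) .nil)) (.node (.I .jac (.c 2105737 (.c 16 (.c 24 .nil))) (.r 13057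 .nil)) (.I .com (.c 35466557976585 (.c 1337272585 .nil)) .nil)))) (.node (.node (.node (.I .jac (.c 2105609 (.c 16 (.c 40 .nil))) (.r 18625 .nil)) (.I .com (.c 35473026505545 (.c 553912649 .nil)) .nil)) (.node (.I .com (.c 35466557976585 (.c 553912649 .nil)) .nil) (.I .jac (.c 2049 (.c 32 (.c 40 .nil))) (.l 2737112265 .nil)))) (.node (.node (.I .com (.c 9024942441010121 (.c 2737112265 .nil)) .nil) (.I .jac (.c 2049 (.c 8 (.c 48 .nil))) (.b 24 (.r 13057 .nil)))) (.node (.I .adp (.c 174695817 (.c 13057 (.c 2049 .nil))) .nil) (.I .com (.c 9024942441010121 (.c 174695817 .nil)) .nil)))))) (.node (.node (.node (.node (.node (.I .jac (.c 33587593 (.c 8 (.c 24 .nil))) (.r 13057 .nil)) (.I .jac (.c 2049 (.c 4673 (.c 48 .nil))) (.r 13057 .nil))) (.node (.I .jac (.c 2049 (.c 8 (.c 24 .nil))) (.b 48 (.r 13057 .nil))) (.I .com (.c 9025011228269385 (.c 1324066057 .nil)) .nil))) (.node (.node (.I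 .jac (.c 33587465 (.c 8 (.c 40 .nil))) (.r 18625 .nil)) (.I .jac (.c 2049 (.c 12865 (.c 32 .nil))) (.r 18625 .nil))) (.node (.I .jac (.c 2049 (.c 24 (.c 48 .nil))) (.l 545424713 .nil)) (.I .jac (.c 33587529 (.c 8 (.c 32 .nil))) (.r 18625 .nil))))) (.node (.node (.node (.I .jac (.c 2049 (.c 8257 (.c 40 .nil))) (.r 18625 .nil)) (.I .tdb (.c 32 (.c 40 (.c 18625 (.c 0 .nil)))) (.b 2113 .nil))) (.node (.I .adp (.c 2718204105 (.c 13057 (.c 2113 .nil))) .nil) (.I .jac (.c 2718204105 (.c 8 (.c 16 .nil))) (.r 13057 .nil)))) (.node (.node (.I .jac (.c 2113 (.c 32 (.c 40 .nil))) (.l 169943433 .nil)) (.I .jac (.c 2113 (.c 24 (.c 48 .nil))) (.l 537002313 .nil))) (.node (.I .jac (.c 537002313 (.c 8 (.c 16 .nil))) (.r 18625 .nil)) (.I .com (.c 2105609 (.c 15456208906582281 .nil)) .nil))))) (.node (.node (.node (.node (.I .adp (.c 3561389332330953 (.c 32 (.c 513 .nil))) .nil) (.I .com (.c 2105609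 (.c 3561389332330953 .nil)) .nil)) (.node (.I .jac (.c 513 (.c 21099139 (.c 48 .nil))) (.r 32 .nil)) (.I .jac (.c 18433 (.c 8786499 (.c 16 .nil))) (.l 40 .nil)))) (.node (.node (.I .jac (.c 4609 (.c 8652867 (.c 48 .nil))) (.l 40 .nil)) (.I .jac (.c 0 (.c 15246236343241929 (.c 24 .nil))) (.l 40 .nil))) (.node (.I .jac (.c 0 (.c 598976858557897 (.c 24 .nil))) (.l 40 .nil)) (.I .tdb (.c 16 (.c 48 (.c 8 (.c 32 .nil)))) (.b 24 (.b 0 (.l 40 .nil))))))) (.node (.node (.node (.I .tdb (.c 24 (.c 18561 (.c 8 (.c 32 .nil)))) (.b 0 (.l 40 .nil))) (.I .tdb (.c 16 (.c 48 (.c 0 (.c 32 .nil)))) (.b 24 (.b 8 (.l 40 .nil))))) (.node (.I .com (.c 74500093957907752758059857579305407283366286366713376917848841 (.c 40 .nil)) .nil) (.I .com (.c 1859581781080891539919226693127561 (.c 40 .nil)) .nil))) (.node (.node (.I .com (.c 65903751348250431743063771908006148737120978708178781472457545 (.c 40 .nil))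 .nil) (.I .com (.c 1859581781075895653194264493002185 (.c 40 .nil)) .nil)) (.node (.I .com (.c 231046163427826849 (.c 40 .nil)) .nil) (.I .com (.c 59109065668140129441 (.c 40 .nil)) .nil)))))))

noncomputable def c2_86 : Tr := (.node (.node (.node (.node (.node (.node (.I .com (.c 74500093957907752758059857566805886450789776775608021531358217 (.c 40 .nil)) .nil) (.I .com (.c 2870186217052783070703628226185 (.c 40 .nil)) .nil)) (.node (.I .com (.c 231045467620068513 (.c 40 .nil)) .nil) (.I .jac (.c 18433 (.c 21099075 (.c 16 .nil))) (.r 32 .nil)))) (.node (.node (.I .jac (.c 4609 (.c 43954755 (.c 16 .nil))) (.r 32 .nil)) (.I .jac (.c 0 (.c 3561367726845385 (.c 16 .nil))) (.r 32 .nil))) (.node (.I .jac (.c 0 (.c 15456163896880329 (.c 24 .nil))) (.r 32 .nil)) (.I .jac (.c 0 (.c 20891715 (.c 48 .nil))) (.b 24 (.r 32 .nil)))))) (.node (.node (.node (.I .tdb (.c 16 (.c 48 (.c 8 (.c 40 .nil))))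 (.b 24 (.b 0 (.r 32 .nil)))) (.I .tdb (.c 24 (.c 18561 (.c 8 (.c 40 .nil)))) (.b 0 (.r 32 .nil)))) (.node (.I .tdb (.c 16 (.c 48 (.c 0 (.c 40 .nil)))) (.b 24 (.b 8 (.r 32 .nil)))) (.I .tdb (.c 0 (.c 8 (.c 32 (.c 40 .nil)))) (.b 2756085961 .nil)))) (.node (.node (.I .jac (.c 18433 (.c 8652867 (.c 24 .nil))) (.l 40 .nil)) (.I .com (.c 59109068451580031137 (.c 40 .nil)) .nil)) (.node (.I .com (.c 65903751348250431743063771899188936679420374368877313430296585 (.c 40 .nil)) .nil) (.I .com (.c 15246236611941009 (.c 40 .nil)) .nil))))) (.node (.node (.node (.node (.I .jac (.c 18433 (.c 20891715 (.c 24 .nil))) (.r 32 .nil)) (.I .jac (.c 2049 (.c 43954755 (.c 24 .nil))) (.r 32 .nil))) (.node (.I .adp (.c 21307523 (.c 18625 (.c 513 .nil))) .nil) (.I .jac (.c 0 (.c 43655235 (.c 24 .nil))) (.l 12929 .nil)))) (.node (.node (.I .adp (.c 18625 (.c 32 (.c 513 .nil))) (.l 12929 .nil)) (.I .com (.c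 2105609 (.c 18625 .nil)) (.l 12929 .nil))) (.node (.I .com (.c 3051551917826763369823227313865 (.c 12929 .nil)) .nil) (.I .com (.c 617620517563473 (.c 12929 .nil)) .nil)))) (.node (.node (.node (.I .com (.c 15246236343278673 (.c 12929 .nil)) .nil) (.I .ass (.c 12929 (.c 35473026505545 (.c 32 .nil))) .nil)) (.node (.I .ass (.c 35473026505545 (.c 12929 (.c 32 .nil))) .nil) (.I .com (.c 12929 (.c 35473026505545 .nil)) (.r 32 .nil)))) (.node (.node (.I .ass (.c 12929 (.c 2105609 (.c 18625 .nil))) .nil) (.I .ass (.c 2105609 (.c 12929 (.c 18625 .nil))) .nil)) (.node (.I .com (.c 12929 (.c 2105609 .nil)) (.r 18625 .nil)) (.I .jac (.c 12801 (.c 43059267 (.c 24 .nil))) (.l 32 .nil))))))) (.node (.node (.node (.node (.node (.I .jac (.c 12801 (.c 2803779 (.c 48 .nil))) (.l 32 .nil)) (.I .jac (.c 2049 (.c 43954755 (.c 24 .nil))) (.l 32 .nil))) (.node (.I .jac (.c 0 (.c 43954755 (.c 24 .nil)))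 (.b 16 (.l 32 .nil))) (.I .jac (.c 0 (.c 62889413447113 (.c 40 .nil))) (.l 32 .nil)))) (.node (.node (.I .jac (.c 0 (.c 2803779 (.c 48 .nil))) (.b 40 (.l 32 .nil))) (.I .tdb (.c 24 (.c 48 (.c 0 (.c 40 .nil)))) (.b 16 (.b 8 (.l 32 .nil))))) (.node (.I .com (.c 29219431338612914847243612605233219589382418649756010576090385527497 (.c 32 .nil)) .nil) (.I .com (.c 82361964593872257944173769947454147829455588008969326249822352073 (.c 32 .nil)) .nil)))) (.node (.node (.node (.I .com (.c 24783224170186708860719149059567241173199868443197257919485429653193 (.c 32 .nil)) .nil) (.I .com (.c 101466720694907813738833334209929 (.c 32 .nil)) .nil)) (.node (.I .com (.c 82363963254985834063889962353462675018762698198376643779222995721 (.c 32 .nil)) .nil) (.I .com (.c 24783518859262354015724227941898607488981887871747153292446831384521 (.c 32 .nil)) .nil))) (.node (.node (.I .com (.c 8009034007753174566127033588678893513899209520779704828873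 (.c 32 .nil)) .nil) (.I .com (.c 1760096547760547765812750299074121 (.c 32 .nil)) .nil)) (.node (.I .com (.c 31640626692435011797707558537 (.c 32 .nil)) .nil) (.I .jac (.c 0 (.c 21307459 (.c 16 .nil))) (.r 18625 .nil)))))) (.node (.node (.node (.node (.I .tdb (.c 16 (.c 40 (.c 8 (.c 32 .nil)))) (.b 0 (.b 18625 .nil))) (.I .tdb (.c 0 (.c 8 (.c 32 (.c 12929 .nil)))) (.b 18625 .nil))) (.node (.I .jac (.c 0 (.c 43655235 (.c 24 .nil))) (.b 12929 .nil)) (.I .jac (.c 0 (.c 8786499 (.c 48 .nil))) (.b 12929 .nil)))) (.node (.node (.I .tdb (.c 24 (.c 48 (.c 0 (.c 32 .nil)))) (.b 8 (.b 12929 .nil))) (.I .jac (.c 0 (.c 21099075 (.c 48 .nil))) (.l 8321 .nil))) (.node (.I .tdb (.c 24 (.c 48 (.c 8 (.c 40 .nil)))) (.b 0 (.l 8321 .nil))) (.I .adp (.c 18625 (.c 40 (.c 513 .nil))) (.l 8321 .nil))))) (.node (.node (.node (.I .com (.c 2105673 (.c 18625 .nil)) (.l 8321 .nil)) (.I .com (.c 101466720686505037251115829520393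 (.c 8321 .nil)) .nil)) (.node (.I .com (.c 15456163896917073 (.c 8321 .nil)) .nil) (.I .tdb (.c 24 (.c 48 (.c 0 (.c 16 .nil)))) (.b 32 (.b 8 (.l 40 .nil)))))) (.node (.node (.I .tdb (.c 24 (.c 48 (.c 0 (.c 32 .nil)))) (.b 16 (.b 8 (.l 40 .nil)))) (.I .com (.c 24783224170186708860719149059565438845050381033037368492035342138057 (.c 40 .nil)) .nil)) (.node (.I .com (.c 1760096547767352344220080035171785 (.c 40 .nil)) .nil) (.I .com (.c 2306972423251631265 (.c 40 .nil)) .nil)))))))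

noncomputable def c2_87 : Tr := (.node (.node (.node (.node (.node (.node (.I .com (.c 24783518859262354015724227941898607488981887871747153292446831384457 (.c 40 .nil)) .nil) (.I .com (.c 31640626737771738483866570249 (.c 40 .nil)) .nil)) (.node (.I .com (.c 8009034007753174566127033588678893513899209520779704828809 (.c 40 .nil)) .nil) (.I .com (.c 2306970773902667937 (.c 40 .nil)) .nil))) (.node (.node (.I .jac (.c 0 (.c 20891715 (.c 32 .nil))) (.r 18625 .nil)) (.I .tdb (.c 0 (.c 8 (.c 40 (.c 8321 .nil)))) (.b 18625 .nil))) (.node (.I .tdb (.c 16 (.c 32 (.c 0 (.c 40 .nil)))) (.b 8 (.b 18625 .nil))) (.I .tdb (.c 16 (.c 32 (.c 8 (.c 40 .nil)))) (.b 0 (.b 18625 .nil)))))) (.node (.node (.node (.I .jac (.c 0 (.c 43954755 (.c 24 .nil))) (.b 8321 .nil)) (.I .tdb (.c 0 (.c 8 (.c 40 (.c 18625 .nil)))) (.b 8321 .nil))) (.node (.I .adp (.c 3561367726845385 (.c 32 (.c 2049 .nil))) .nil)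 (.I .com (.c 33587465 (.c 3561367726845385 .nil)) .nil))) (.node (.node (.I .adp (.c 617620517416393 (.c 40 (.c 2049 .nil))) .nil) (.I .com (.c 33587529 (.c 617620517416393 .nil)) .nil)) (.node (.I .com (.c 3632040653488329 (.c 2737112265 .nil)) .nil) (.I .jac (.c 8786435 (.c 8 (.c 48 .nil))) (.b 16 (.l 40 .nil))))))) (.node (.node (.node (.node (.I .jac (.c 0 (.c 8 (.c 43655299 .nil))) (.b 24 (.l 40 .nil))) (.I .jac (.c 0 (.c 18497 (.c 8786563 .nil))) (.l 40 .nil))) (.node (.I .jac (.c 0 (.c 8 (.c 48 .nil))) (.b 8786563 (.l 40 .nil))) (.I .tdb (.c 8 (.c 48 (.c 0 (.c 32 .nil)))) (.b 24 (.b 16 (.l 40 .nil)))))) (.node (.node (.I .com (.c 74504435279809903992057311871039732857745953945127490982150857 (.c 40 .nil)) .nil) (.I .com (.c 1859592685935322407221019840564553 (.c 40 .nil)) .nil)) (.node (.I .com (.c 74495752857537580654899489529475691160123190661307065769905929 (.c 40 .nil))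 .nil) (.I .com (.c 27664030750836998620697701184369756783262042486172782821856302257929 (.c 40 .nil)) .nil)))) (.node (.node (.node (.I .com (.c 1859592685927328965023840533695945 (.c 40 .nil)) .nil) (.I .com (.c 59109062884699224737 (.c 40 .nil)) .nil)) (.node (.I .com (.c 74504435279809903992057311855414876585610805328601543895830537 (.c 40 .nil)) .nil) (.I .jac (.c 21099011 (.c 8 (.c 48 .nil))) (.b 16 (.r 32 .nil))))) (.node (.node (.I .jac (.c 4609 (.c 8 (.c 43954819 .nil))) (.r 32 .nil)) (.I .jac (.c 0 (.c 15456208906582153 (.c 24 .nil))) (.r 32 .nil))) (.node (.I .jac (.c 0 (.c 18497 (.c 21099139 .nil))) (.r 32 .nil)) (.I .jac (.c 0 (.c 8 (.c 48 .nil))) (.b 21099139 (.r 32 .nil)))))))) (.node (.node (.node (.node (.node (.I .tdb (.c 24 (.c 18497 (.c 16 (.c 40 .nil)))) (.b 0 (.r 32 .nil))) (.I .tdb (.c 8 (.c 48 (.c 16 (.c 40 .nil)))) (.b 24 (.b 0 (.r 32 .nil))))) (.node (.I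 .tdb (.c 8 (.c 48 (.c 0 (.c 40 .nil)))) (.b 24 (.b 16 (.r 32 .nil)))) (.I .jac (.c 18433 (.c 8 (.c 8786563 .nil))) (.l 40 .nil)))) (.node (.node (.I .jac (.c 0 (.c 617629514823817 (.c 48 .nil))) (.l 40 .nil)) (.I .jac (.c 0 (.c 8 (.c 8786563 .nil))) (.b 48 (.l 40 .nil)))) (.node (.I .com (.c 27664679660405553208104983353683547926716614130575169180652669671113 (.c 40 .nil)) .nil) (.I .com (.c 27664030750837927638519238748127830947159552253417997175496201146121 (.c 40 .nil)) .nil)))) (.node (.node (.node (.I .com (.c 3051729740691952238626745699977 (.c 40 .nil)) .nil) (.I .jac (.c 15456208906582089 (.c 8 (.c 24 .nil))) (.r 32 .nil))) (.node (.I .jac (.c 0 (.c 3561389332330633 (.c 48 .nil))) (.r 32 .nil)) (.I .jac (.c 0 (.c 8 (.c 21099139 .nil))) (.b 48 (.r 32 .nil))))) (.node (.node (.I .tdb (.c 24 (.c 48 (.c 0 (.c 32 .nil)))) (.b 16 (.l 12865 .nil))) (.I .adp (.c 18625 (.c 32 (.c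 2049 .nil))) (.l 12865 .nil))) (.node (.I .com (.c 33587465 (.c 18625 .nil)) (.l 12865 .nil)) (.I .ass (.c 12865 (.c 9025011228269385 (.c 32 .nil))) .nil))))) (.node (.node (.node (.node (.I .ass (.c 9025011228269385 (.c 12865 (.c 32 .nil))) .nil) (.I .com (.c 12865 (.c 9025011228269385 .nil)) (.r 32 .nil))) (.node (.I .ass (.c 12865 (.c 33587465 (.c 18625 .nil))) .nil) (.I .ass (.c 33587465 (.c 12865 (.c 18625 .nil))) .nil))) (.node (.node (.I .com (.c 12865 (.c 33587465 .nil)) (.r 18625 .nil)) (.I .jac (.c 0 (.c 15456208906582153 (.c 24 .nil))) (.l 32 .nil))) (.node (.I .jac (.c 0 (.c 18497 (.c 21099139 .nil))) (.l 32 .nil)) (.I .jac (.c 0 (.c 8 (.c 48 .nil))) (.b 21099139 (.l 32 .nil)))))) (.node (.node (.node (.I .jac (.c 0 (.c 3561389332330633 (.c 48 .nil))) (.l 32 .nil)) (.I .jac (.c 0 (.c 8 (.c 21099139 .nil))) (.b 48 (.l 32 .nil)))) (.node (.I .jac (.c 8 (.c 21099139 (.c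 48 .nil))) (.b 0 (.l 32 .nil))) (.I .tdb (.c 24 (.c 48 (.c 0 (.c 40 .nil)))) (.b 8 (.b 16 (.l 32 .nil)))))) (.node (.node (.I .com (.c 29220112062374340779692772142339364419449699618982151301797613573833 (.c 32 .nil)) .nil) (.I .com (.c 82365961958573271866848171381574870661362170256856900442600669897 (.c 32 .nil)) .nil)) (.node (.I .tdb (.c 8 (.c 40 (.c 16 (.c 32 .nil)))) (.b 0 (.b 18625 .nil))) (.I .jac (.c 0 (.c 43655299 (.c 24 .nil))) (.b 12865 .nil))))))))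

noncomputable def c2_88 : Tr := (.node (.node (.node (.node (.node (.node (.I .tdb (.c 24 (.c 48 (.c 16 (.c 32 .nil)))) (.b 0 (.b 12865 .nil))) (.I .tdb (.c 24 (.c 48 (.c 0 (.c 32 .nil)))) (.b 16 (.b 12865 .nil)))) (.node (.I .tdb (.c 24 (.c 48 (.c 16 (.c 40 .nil)))) (.b 0 (.l 8257 .nil))) (.I .tdb (.c 0 (.c 16 (.c 40 (.c 18625 .nil)))) (.l 8257 .nil)))) (.node (.node (.I .tdb (.c 24 (.c 48 (.c 0 (.c 40 .nil)))) (.b 16 (.l 8257 .nil))) (.I .jac (.c 2049 (.c 24 (.c 48 .nil))) (.r 40 (.l 8257 .nil)))) (.node (.I .com (.c 101467951811503808354312734910473 (.c 8257 .nil)) .nil) (.I .com (.c 15456208906618961 (.c 8257 .nil)) .nil)))) (.node (.node (.node (.I .ass (.c 8257 (.c 9025011228269385 (.c 40 .nil))) .nil) (.I .ass (.c 9025011228269385 (.c 8257 (.c 40 .nil))) .nil)) (.node (.I .com (.c 8257 (.c 9025011228269385 .nil)) (.r 40 .nil)) (.I .ass (.c 8257 (.c 33587529 (.c 18625 .nil)))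 .nil))) (.node (.node (.I .ass (.c 33587529 (.c 8257 (.c 18625 .nil))) .nil) (.I .com (.c 8257 (.c 33587529 .nil)) (.r 18625 .nil))) (.node (.I .tdb (.c 24 (.c 48 (.c 0 (.c 8 .nil)))) (.b 32 (.b 16 (.l 40 .nil)))) (.I .jac (.c 8 (.c 8786563 (.c 48 .nil))) (.b 0 (.l 40 .nil))))))) (.node (.node (.node (.node (.I .tdb (.c 24 (.c 48 (.c 0 (.c 32 .nil)))) (.b 8 (.b 16 (.l 40 .nil)))) (.I .com (.c 23450673742498311880358975801696815059932006865892573868576633846537 (.c 40 .nil)) .nil)) (.node (.I .com (.c 6441087201774154803902012122330446725508489196653466204937 (.c 40 .nil)) .nil) (.I .jac (.c 8 (.c 8786563 (.c 48 .nil))) (.b 0 (.b 40 .nil))))) (.node (.node (.I .com (.c 21307395 (.c 18625 .nil)) (.b 2113 .nil)) (.I .jac (.c 15456118887244041 (.c 8 (.c 16 .nil))) (.r 32 .nil))) (.node (.I .adp (.c 3561346121425353 (.c 32 (.c 2113 .nil))) .nil) (.I .adp (.c 15246191640314121 (.c 40 (.c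 2113 .nil))) .nil)))) (.node (.node (.node (.I .adp (.c 617611520074185 (.c 40 (.c 2113 .nil))) .nil) (.I .tdb (.c 8 (.c 16 (.c 32 (.c 40 .nil)))) (.l 2718204105 .nil))) (.node (.I .jac (.c 2718204105 (.c 8 (.c 16 .nil))) (.r 13058 .nil)) (.I .tdp (.c 32 (.c 40 (.c 2718204105 (.c 2113 .nil)))) .nil))) (.node (.node (.I .tdb (.c 24 (.c 18433 (.c 8 (.c 32 .nil)))) (.b 16 (.l 40 .nil))) (.I .tdb (.c 0 (.c 48 (.c 16 (.c 32 .nil)))) (.b 24 (.b 8 (.l 40 .nil))))) (.node (.I .tdb (.c 8 (.c 16 (.c 32 (.c 2718204105 .nil)))) (.l 40 .nil)) (.I .tdb (.c 24 (.c 18433 (.c 8 (.c 40 .nil)))) (.b 16 (.r 32 .nil)))))))) (.node (.node (.node (.node (.node (.I .tdb (.c 0 (.c 48 (.c 8 (.c 40 .nil)))) (.b 24 (.b 16 (.r 32 .nil)))) (.I .tdb (.c 24 (.c 18433 (.c 16 (.c 40 .nil)))) (.b 8 (.r 32 .nil)))) (.node (.I .tdb (.c 0 (.c 48 (.c 16 (.c 40 .nil)))) (.b 24 (.b 8 (.r 32 .nil)))) (.I .tdb (.c 8 (.c 16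 (.c 32 (.c 40 .nil)))) (.b 2718204105 .nil)))) (.node (.node (.I .tdb (.c 4609 (.c 48 (.c 16 (.c 32 .nil)))) (.b 8 (.l 40 .nil))) (.I .tdb (.c 0 (.c 24 (.c 32 (.c 16 .nil)))) (.b 48 (.b 8 (.l 40 .nil))))) (.node (.I .tdb (.c 4609 (.c 48 (.c 16 (.c 40 .nil)))) (.b 8 (.r 32 .nil))) (.I .tdb (.c 0 (.c 24 (.c 40 (.c 16 .nil)))) (.b 48 (.b 8 (.r 32 .nil))))))) (.node (.node (.node (.I .adp (.c 21307395 (.c 18625 (.c 2113 .nil))) .nil) (.I .jac (.c 21307395 (.c 8 (.c 16 .nil))) (.r 18625 .nil))) (.node (.I .adp (.c 12801 (.c 2775274258 (.c 2113 .nil))) .nil) (.I .jac (.c 8 (.c 43655299 (.c 24 .nil))) (.l 12801 .nil)))) (.node (.node (.I .tdb (.c 24 (.c 48 (.c 16 (.c 32 .nil)))) (.b 8 (.l 12801 .nil))) (.I .adp (.c 18625 (.c 32 (.c 2113 .nil))) (.l 12801 .nil))) (.node (.I .com (.c 35718409 (.c 18625 .nil)) (.l 12801 .nil)) (.I .jac (.c 12801 (.c 8 (.c 16 .nil))) (.r 2775274258 .nil))))))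 (.node (.node (.node (.node (.I .tdp (.c 18625 (.c 32 (.c 2113 (.c 12801 .nil)))) .nil) (.I .tdb (.c 24 (.c 48 (.c 8 (.c 40 .nil)))) (.b 0 (.b 16 (.l 32 .nil))))) (.node (.I .tdb (.c 24 (.c 48 (.c 16 (.c 40 .nil)))) (.b 0 (.b 8 (.l 32 .nil)))) (.I .tdb (.c 8 (.c 16 (.c 12801 (.c 18625 .nil)))) (.l 32 .nil)))) (.node (.node (.I .tdb (.c 8 (.c 16 (.c 32 (.c 12801 .nil)))) (.r 18625 .nil)) (.I .tdb (.c 0 (.c 40 (.c 8 (.c 32 .nil)))) (.b 16 (.b 18625 .nil)))) (.node (.I .tdb (.c 0 (.c 40 (.c 16 (.c 32 .nil)))) (.b 8 (.b 18625 .nil))) (.I .tdb (.c 8 (.c 16 (.c 32 (.c 12801 .nil)))) (.b 18625 .nil))))) (.node (.node (.node (.I .jac (.c 8 (.c 43655299 (.c 24 .nil))) (.b 12801 .nil)) (.I .tdb (.c 24 (.c 48 (.c 16 (.c 32 .nil)))) (.b 8 (.b 12801 .nil)))) (.node (.I .tdb (.c 8 (.c 16 (.c 32 (.c 18625 .nil)))) (.b 12801 .nil)) (.I .adp (.c 8193 (.c 2775274322 (.c 2113 .nil))) .nil))) (.node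 (.node (.I .tdb (.c 24 (.c 48 (.c 16 (.c 40 .nil)))) (.b 8 (.l 8193 .nil))) (.I .tdb (.c 24 (.c 48 (.c 8 (.c 40 .nil)))) (.b 16 (.l 8193 .nil)))) (.node (.I .adp (.c 18625 (.c 40 (.c 2113 .nil))) (.l 8193 .nil)) (.I .com (.c 35718473 (.c 18625 .nil)) (.l 8193 .nil))))))))

noncomputable def c2_89 : Tr := (.node (.node (.node (.node (.node (.node (.I .jac (.c 8193 (.c 8 (.c 16 .nil))) (.r 2775274322 .nil)) (.I .tdp (.c 18625 (.c 40 (.c 2113 (.c 8193 .nil)))) .nil)) (.node (.I .tdb (.c 0 (.c 32 (.c 18625 (.c 8 .nil)))) (.b 16 (.l 40 .nil))) (.I .jac (.c 0 (.c 8786563 (.c 48 .nil))) (.b 8 (.l 40 .nil))))) (.node (.node (.I .jac (.c 0 (.c 43655299 (.c 24 .nil))) (.b 8 (.l 40 .nil))) (.I .tdb (.c 0 (.c 32 (.c 18625 (.c 16 .nil)))) (.b 8 (.l 40 .nil)))) (.node (.I .tdb (.c 8 (.c 16 (.c 8193 (.c 18625 .nil)))) (.l 40 .nil)) (.I .tdb (.c 8 (.c 16 (.c 40 (.c 8193 .nil)))) (.r 18625 .nil)))))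 (.node (.node (.node (.I .tdb (.c 8 (.c 16 (.c 8193 (.c 18625 .nil)))) (.b 40 .nil)) (.I .tdb (.c 0 (.c 32 (.c 18625 (.c 40 .nil)))) (.b 2113 .nil))) (.node (.I .tdb (.c 8 (.c 16 (.c 40 (.c 18625 .nil)))) (.b 8193 .nil)) (.I .jac (.c 2105609 (.c 24 (.c 40 .nil))) (.l 18561 .nil)))) (.node (.node (.I .jac (.c 513 (.c 12993 (.c 32 .nil))) (.l 18561 .nil)) (.I .jac (.c 513 (.c 24 (.c 40 .nil))) (.b 32 (.l 18561 .nil)))) (.node (.I .com (.c 10063013877615402959898107785 (.c 18561 .nil)) .nil) (.I .com (.c 10064237432019585310071936969 (.c 18561 .nil)) .nil))))) (.node (.node (.node (.node (.I .jac (.c 2105545 (.c 8321 (.c 40 .nil))) (.r 48 .nil)) (.I .jac (.c 2105545 (.c 16 (.c 32 .nil))) (.b 40 (.r 48 .nil)))) (.node (.I .jac (.c 2105609 (.c 12929 (.c 24 .nil))) (.r 48 .nil)) (.I .jac (.c 2105609 (.c 16 (.c 40 .nil))) (.b 24 (.r 48 .nil))))) (.node (.node (.I .jac (.c 2105545 (.c 16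 (.c 40 .nil))) (.b 32 (.r 48 .nil))) (.I .jac (.c 35468714087369 (.c 16 (.c 24 .nil))) (.r 48 .nil))) (.node (.I .jac (.c 2105609 (.c 4737 (.c 40 .nil))) (.r 48 .nil)) (.I .jac (.c 2105609 (.c 16 (.c 24 .nil))) (.b 40 (.r 48 .nil)))))) (.node (.node (.node (.I .jac (.c 2049 (.c 12993 (.c 32 .nil))) (.l 18497 .nil)) (.I .com (.c 651596688508365770927126595477321 (.c 18497 .nil)) .nil)) (.node (.I .com (.c 651591722123570596944749659643785 (.c 18497 .nil)) .nil) (.I .com (.c 651596688508347287845007406880713 (.c 18497 .nil)) .nil))) (.node (.node (.I .jac (.c 2049 (.c 8 (.c 48 .nil))) (.r 1350544649 .nil)) (.I .jac (.c 9024908047478729 (.c 8 (.c 32 .nil))) (.r 48 .nil))) (.node (.I .jac (.c 33587401 (.c 8257 (.c 40 .nil))) (.r 48 .nil)) (.I .jac (.c 2049 (.c 545424713 (.c 24 .nil))) (.r 48 .nil))))))) (.node (.node (.node (.node (.node (.I .jac (.c 2049 (.c 8257 (.c 40 .nil))) (.b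 24 (.r 48 .nil))) (.I .jac (.c 2049 (.c 8 (.c 32 .nil))) (.b 40 (.b 24 (.r 48 .nil))))) (.node (.I .jac (.c 33587465 (.c 12865 (.c 24 .nil))) (.r 48 .nil)) (.I .jac (.c 33587465 (.c 8 (.c 40 .nil))) (.b 24 (.r 48 .nil))))) (.node (.node (.I .jac (.c 33587401 (.c 8 (.c 40 .nil))) (.b 32 (.r 48 .nil))) (.I .adp (.c 244148848929896329 (.c 48 (.c 2049 .nil))) .nil)) (.node (.I .com (.c 33587593 (.c 244148848929896329 .nil)) .nil) (.I .jac (.c 33587529 (.c 8 (.c 24 .nil))) (.b 32 (.r 48 .nil)))))) (.node (.node (.node (.I .jac (.c 33587465 (.c 4673 (.c 40 .nil))) (.r 48 .nil)) (.I .jac (.c 33587465 (.c 8 (.c 24 .nil))) (.b 40 (.r 48 .nil)))) (.node (.I .jac (.c 2049 (.c 174695753 (.c 32 .nil))) (.r 48 .nil)) (.I .jac (.c 2049 (.c 4673 (.c 40 .nil))) (.b 32 (.r 48 .nil))))) (.node (.node (.I .jac (.c 2049 (.c 8 (.c 24 .nil))) (.b 40 (.b 32 (.r 48 .nil)))) (.I .jac (.c 33587529 (.c 8257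 (.c 24 .nil))) (.r 48 .nil))) (.node (.I .jac (.c 2049 (.c 545424585 (.c 40 .nil))) (.r 48 .nil)) (.I .jac (.c 2049 (.c 8257 (.c 24 .nil))) (.b 40 (.r 48 .nil))))))) (.node (.node (.node (.node (.I .jac (.c 2049 (.c 8 (.c 32 .nil))) (.b 24 (.b 40 (.r 48 .nil)))) (.I .tdb (.c 24 (.c 40 (.c 0 (.c 48 .nil)))) (.b 32 (.b 2113 .nil)))) (.node (.I .jac (.c 35718409 (.c 24 (.c 40 .nil))) (.l 18433 .nil)) (.I .jac (.c 13748194865974800265 (.c 8 (.c 16 .nil))) (.r 48 .nil)))) (.node (.node (.I .jac (.c 231045989336561545 (.c 8 (.c 16 .nil))) (.r 48 .nil)) (.I .jac (.c 2306970773558194121 (.c 8 (.c 16 .nil))) (.r 48 .nil))) (.node (.I .jac (.c 2105673 (.c 24 (.c 32 .nil))) (.l 18561 .nil)) (.I .com (.c 10063013877579085204530183113 (.c 18561 .nil)) .nil)))) (.node (.node (.node (.I .jac (.c 35466557976457 (.c 16 (.c 40 .nil))) (.r 48 .nil)) (.I .jac (.c 2105545 (.c 12929 (.c 32 .nil))) (.r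 48 .nil))) (.node (.I .jac (.c 35470870263689 (.c 16 (.c 24 .nil))) (.r 48 .nil)) (.I .com (.c 651601654921541717468315286321993 (.c 18497 .nil)) .nil))) (.node (.node (.I .jac (.c 2049 (.c 8 (.c 48 .nil))) (.r 562466121 .nil)) (.I .jac (.c 9024908047478665 (.c 8 (.c 40 .nil))) (.r 48 .nil))) (.node (.I .jac (.c 33587401 (.c 12865 (.c 32 .nil))) (.r 48 .nil)) (.I .jac (.c 9024976834606985 (.c 8 (.c 24 .nil))) (.r 48 .nil))))))))

noncomputable def c2_90 : Tr := (.node (.node (.node (.node (.node (.node (.I .jac (.c 2113 (.c 24 (.c 32 .nil))) (.b 40 (.l 18433 .nil))) (.I .jac (.c 18433 (.c 8 (.c 16 .nil))) (.r 562466121 .nil))) (.node (.I .jac (.c 13748196208362033993 (.c 8 (.c 16 .nil))) (.r 48 .nil)) (.I .adp (.c 231045815314584521 (.c 48 (.c 2113 .nil))) .nil))) (.node (.node (.I .com (.c 3632106110104657 (.c 18561 .nil)) .nil) (.I .adp (.c 18497 (.c 21307587 (.c 2049 .nil))) .nil))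 (.node (.I .jac (.c 18433 (.c 8 (.c 16 .nil))) (.r 21307587 .nil)) (.I .adp (.c 3632106110100553 (.c 48 (.c 2113 .nil))) .nil)))) (.node (.node (.node (.I .jac (.c 3632106110100553 (.c 8 (.c 16 .nil))) (.r 48 .nil)) (.I .jac (.c 513 (.c 24 (.c 40 .nil))) (.l 2756086025 .nil))) (.node (.I .com (.c 35470870263625 (.c 2756086025 .nil)) .nil) (.I .jac (.c 513 (.c 24 (.c 40 .nil))) (.l 553912713 .nil)))) (.node (.node (.I .jac (.c 513 (.c 32 (.c 48 .nil))) (.l 1337272521 .nil)) (.I .com (.c 35468714087433 (.c 1337272521 .nil)) .nil)) (.node (.I .jac (.c 513 (.c 32 (.c 48 .nil))) (.l 179513673 .nil)) (.I .com (.c 35468714087433 (.c 179513673 .nil)) .nil))))) (.node (.node (.node (.node (.I .adp (.c 2737112329 (.c 12993 (.c 2049 .nil))) .nil) (.I .jac (.c 2049 (.c 24 (.c 40 .nil))) (.l 2737112329 .nil))) (.node (.I .jac (.c 2049 (.c 8 (.c 48 .nil))) (.b 32 (.r 12993 .nil))) (.I .adp (.c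 545424777 (.c 12993 (.c 2049 .nil))) .nil))) (.node (.node (.I .com (.c 9024976834606921 (.c 545424777 .nil)) .nil) (.I .com (.c 9024908047478729 (.c 545424777 .nil)) .nil)) (.node (.I .jac (.c 33587593 (.c 8 (.c 32 .nil))) (.r 12993 .nil)) (.I .jac (.c 2049 (.c 8257 (.c 48 .nil))) (.r 12993 .nil))))) (.node (.node (.node (.I .jac (.c 2049 (.c 8 (.c 32 .nil))) (.b 48 (.r 12993 .nil))) (.I .jac (.c 2049 (.c 32 (.c 48 .nil))) (.l 1324065993 .nil))) (.node (.I .com (.c 9025011228269449 (.c 1324065993 .nil)) .nil) (.I .com (.c 9024942441010185 (.c 1324065993 .nil)) .nil))) (.node (.node (.I .jac (.c 2049 (.c 12865 (.c 24 .nil))) (.r 18689 .nil)) (.I .adp (.c 174695753 (.c 18689 (.c 2049 .nil))) .nil)) (.node (.I .com (.c 9025011228269449 (.c 174695753 .nil)) .nil) (.I .jac (.c 33587529 (.c 8 (.c 24 .nil))) (.r 18689 .nil))))))) (.node (.node (.node (.node (.node (.I .jac (.c 2049 (.c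 4673 (.c 40 .nil))) (.r 18689 .nil)) (.I .jac (.c 2049 (.c 8 (.c 24 .nil))) (.b 40 (.r 18689 .nil)))) (.node (.I .jac (.c 2113 (.c 24 (.c 40 .nil))) (.l 2718204169 .nil)) (.I .jac (.c 2718204169 (.c 8 (.c 16 .nil))) (.r 12993 .nil)))) (.node (.node (.I .adp (.c 537002377 (.c 12993 (.c 2113 .nil))) .nil) (.I .jac (.c 2113 (.c 24 (.c 40 .nil))) (.l 537002377 .nil))) (.node (.I .adp (.c 1310925001 (.c 18689 (.c 2113 .nil))) .nil) (.I .jac (.c 2113 (.c 32 (.c 48 .nil))) (.l 1310925001 .nil))))) (.node (.node (.node (.I .jac (.c 2113 (.c 32 (.c 48 .nil))) (.l 169943369 .nil)) (.I .jac (.c 513 (.c 43356803 (.c 40 .nil))) (.r 32 .nil))) (.node (.I .jac (.c 513 (.c 24 (.c 40 .nil))) (.l 43655299 .nil)) (.I .com (.c 35470870263625 (.c 43655299 .nil)) .nil))) (.node (.node (.I .jac (.c 0 (.c 8786499 (.c 40 .nil))) (.l 18561 .nil)) (.I .tdb (.c 24 (.c 40 (.c 8 (.c 32 .nil)))) (.b 0 (.l 18561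 .nil)))) (.node (.I .adp (.c 12993 (.c 32 (.c 513 .nil))) (.l 18561 .nil)) (.I .com (.c 2105609 (.c 12993 .nil)) (.l 18561 .nil)))))) (.node (.node (.node (.node (.I .com (.c 3051551917826130935626671381193 (.c 18561 .nil)) .nil) (.I .com (.c 105535022421139207878223746525001 (.c 18561 .nil)) .nil)) (.node (.I .com (.c 3632062472330321 (.c 18561 .nil)) .nil) (.I .ass (.c 18561 (.c 35466557976521 (.c 32 .nil))) .nil))) (.node (.node (.I .com (.c 18561 (.c 35466557976521 .nil)) (.r 32 .nil)) (.I .ass (.c 18561 (.c 2105609 (.c 12993 .nil))) .nil)) (.node (.I .ass (.c 2105609 (.c 18561 (.c 12993 .nil))) .nil) (.I .com (.c 18561 (.c 2105609 .nil)) (.r 12993 .nil))))) (.node (.node (.node (.I .jac (.c 0 (.c 15456163896880329 (.c 24 .nil))) (.l 32 .nil)) (.I .jac (.c 0 (.c 43954755 (.c 16 .nil))) (.b 24 (.l 32 .nil)))) (.node (.I .tdb (.c 16 (.c 48 (.c 8 (.c 40 .nil)))) (.b 24 (.b 0 (.l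 32 .nil)))) (.I .tdb (.c 16 (.c 48 (.c 0 (.c 40 .nil)))) (.b 24 (.b 8 (.l 32 .nil)))))) (.node (.node (.I .com (.c 29219431338612430885229781418976216775048210836066696362622595045065 (.c 32 .nil)) .nil) (.I .com (.c 26186512359090472543188603966564548108618235816127469540291805404873 (.c 32 .nil)) .nil)) (.node (.I .com (.c 26186821597830724738774049788021605992987777185030068365066306188233 (.c 32 .nil)) .nil) (.I .com (.c 13748193523934485665 (.c 32 .nil)) .nil)))))))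

noncomputable def c2_91 : Tr := (.node (.node (.node (.node (.node (.node (.I .tdb (.c 16 (.c 48 (.c 0 (.c 32 .nil)))) (.b 8 (.r 12993 .nil))) (.I .jac (.c 0 (.c 8652867 (.c 48 .nil))) (.b 12993 .nil))) (.node (.I .tdb (.c 16 (.c 48 (.c 8 (.c 32 .nil)))) (.b 0 (.b 12993 .nil))) (.I .tdb (.c 0 (.c 8 (.c 32 (.c 18561 .nil)))) (.b 12993 .nil)))) (.node (.node (.I .tdb (.c 24 (.c 40 (.c 8 (.c 32 .nil)))) (.b 0 (.b 18561 .nil))) (.I .tdb (.c 0 (.c 8 (.c 32 (.c 12993 .nil)))) (.b 18561 .nil))) (.node (.I .jac (.c 4609 (.c 21307459 (.c 16 .nil))) (.l 48 .nil)) (.I .jac (.c 8786435 (.c 16 (.c 40 .nil))) (.b 8 (.l 48 .nil)))))) (.node (.node (.node (.I .com (.c 65899851849278097965965088095014964341373399093722929788081865 (.c 48 .nil)) .nil) (.I .com (.c 13748193523657923745 (.c 48 .nil)) .nil)) (.node (.I .jac (.c 2049 (.c 43356739 (.c 40 .nil))) (.r 32 .nil)) (.I .jac (.c 0 (.c 43356739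 (.c 40 .nil))) (.b 16 (.r 32 .nil))))) (.node (.node (.I .jac (.c 0 (.c 43059267 (.c 40 .nil))) (.b 24 (.r 32 .nil))) (.I .tdb (.c 16 (.c 40 (.c 0 (.c 48 .nil)))) (.b 24 (.b 8 (.r 32 .nil))))) (.node (.I .tdb (.c 16 (.c 40 (.c 0 (.c 32 .nil)))) (.b 24 (.b 8 (.b 48 .nil)))) (.I .tdb (.c 0 (.c 8 (.c 32 (.c 48 .nil)))) (.b 1337272521 .nil)))))) (.node (.node (.node (.node (.I .jac (.c 2049 (.c 21307459 (.c 24 .nil))) (.l 48 .nil)) (.I .com (.c 13748194866044022945 (.c 48 .nil)) .nil)) (.node (.I .jac (.c 12801 (.c 43059267 (.c 24 .nil))) (.r 32 .nil)) (.I .tdb (.c 0 (.c 8 (.c 32 (.c 48 .nil)))) (.b 179513673 .nil)))) (.node (.node (.I .jac (.c 0 (.c 43356739 (.c 40 .nil))) (.l 8321 .nil)) (.I .tdb (.c 0 (.c 8 (.c 48 (.c 12993 .nil)))) (.l 8321 .nil))) (.node (.I .tdb (.c 24 (.c 40 (.c 0 (.c 48 .nil)))) (.b 8 (.l 8321 .nil))) (.I .tdb (.c 24 (.c 40 (.c 8 (.c 48 .nil)))) (.b 0 (.l 8321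 .nil)))))) (.node (.node (.node (.I .jac (.c 513 (.c 24 (.c 40 .nil))) (.r 48 (.l 8321 .nil))) (.I .com (.c 1809230235455531025412364982344393 (.c 8321 .nil)) .nil)) (.node (.I .com (.c 1809240918100417214955082230360009 (.c 8321 .nil)) .nil) (.I .ass (.c 8321 (.c 2105737 (.c 12993 .nil))) .nil))) (.node (.node (.I .ass (.c 2105737 (.c 8321 (.c 12993 .nil))) .nil) (.I .com (.c 8321 (.c 2105737 .nil)) (.r 12993 .nil))) (.node (.I .ass (.c 8321 (.c 35470870263625 (.c 48 .nil))) .nil) (.I .ass (.c 35470870263625 (.c 8321 (.c 48 .nil))) .nil)))))) (.node (.node (.node (.node (.node (.I .com (.c 8321 (.c 35470870263625 .nil)) (.r 48 .nil)) (.I .jac (.c 8193 (.c 20891715 (.c 24 .nil))) (.l 48 .nil))) (.node (.I .com (.c 2306971873361229985 (.c 48 .nil)) .nil) (.I .com (.c 8009034007753174566127033556278891886364927917946915446665 (.c 48 .nil)) .nil))) (.node (.node (.I .com (.c 2306970773725327521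 (.c 48 .nil)) .nil) (.I .jac (.c 0 (.c 43059267 (.c 32 .nil))) (.b 12993 .nil))) (.node (.I .tdb (.c 0 (.c 8 (.c 48 (.c 8321 .nil)))) (.b 12993 .nil)) (.I .tdb (.c 16 (.c 32 (.c 0 (.c 48 .nil)))) (.b 8 (.b 12993 .nil)))))) (.node (.node (.node (.I .tdb (.c 16 (.c 32 (.c 8 (.c 48 .nil)))) (.b 0 (.b 12993 .nil))) (.I .tdb (.c 24 (.c 40 (.c 0 (.c 16 .nil)))) (.b 32 (.b 8 (.b 48 .nil))))) (.node (.I .tdb (.c 24 (.c 40 (.c 0 (.c 32 .nil)))) (.b 16 (.b 8 (.b 48 .nil)))) (.I .jac (.c 0 (.c 43356739 (.c 40 .nil))) (.b 8321 .nil)))) (.node (.node (.I .jac (.c 2049 (.c 24 (.c 40 .nil))) (.l 43655235 .nil)) (.I .com (.c 9024976834606921 (.c 43655235 .nil)) .nil)) (.node (.I .com (.c 9024908047478729 (.c 43655235 .nil)) .nil) (.I .adp (.c 18497 (.c 1350648594 (.c 2049 .nil))) .nil))))) (.node (.node (.node (.node (.I .jac (.c 0 (.c 21307523 (.c 24 .nil))) (.l 18497 .nil)) (.I .tdb (.c 24 (.c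 40 (.c 16 (.c 32 .nil)))) (.b 0 (.l 18497 .nil)))) (.node (.I .tdb (.c 0 (.c 16 (.c 32 (.c 12993 .nil)))) (.l 18497 .nil)) (.I .tdb (.c 24 (.c 40 (.c 0 (.c 32 .nil)))) (.b 16 (.l 18497 .nil))))) (.node (.node (.I .jac (.c 2049 (.c 24 (.c 40 .nil))) (.r 32 (.l 18497 .nil))) (.I .com (.c 105533754468739142964158285779721 (.c 18497 .nil)) .nil)) (.node (.I .com (.c 3051551917826130935626671381257 (.c 18497 .nil)) .nil) (.I .com (.c 105536290384975911038036627826505 (.c 18497 .nil)) .nil)))) (.node (.node (.node (.I .com (.c 617629514926161 (.c 18497 .nil)) .nil) (.I .com (.c 3632084291201105 (.c 18497 .nil)) .nil)) (.node (.I .ass (.c 18497 (.c 9024976834606921 (.c 32 .nil))) .nil) (.I .ass (.c 9024976834606921 (.c 18497 (.c 32 .nil))) .nil))) (.node (.node (.I .com (.c 18497 (.c 9024976834606921 .nil)) (.r 32 .nil)) (.I .ass (.c 9024908047478729 (.c 18497 (.c 32 .nil))) .nil)) (.node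 (.I .ass (.c 18497 (.c 33587465 (.c 12993 .nil))) .nil) (.I .ass (.c 33587465 (.c 18497 (.c 12993 .nil))) .nil)))))))

noncomputable def c2_92 : Tr := (.node (.node (.node (.node (.node (.node (.I .com (.c 18497 (.c 33587465 .nil)) (.r 12993 .nil)) (.I .tdp (.c 12993 (.c 32 (.c 18497 (.c 2049 .nil)))) .nil)) (.node (.I .jac (.c 0 (.c 15038498931046537 (.c 40 .nil))) (.l 32 .nil)) (.I .jac (.c 0 (.c 8 (.c 43356803 .nil))) (.b 40 (.l 32 .nil))))) (.node (.node (.I .tdb (.c 8 (.c 48 (.c 0 (.c 24 .nil)))) (.b 40 (.b 16 (.l 32 .nil)))) (.I .tdb (.c 8 (.c 48 (.c 16 (.c 40 .nil)))) (.b 24 (.b 0 (.l 32 .nil))))) (.node (.I .tdb (.c 8 (.c 48 (.c 16 (.c 24 .nil)))) (.b 40 (.b 0 (.l 32 .nil)))) (.I .tdb (.c 0 (.c 16 (.c 12993 (.c 18497 .nil)))) (.l 32 .nil))))) (.node (.node (.node (.I .tdb (.c 24 (.c 40 (.c 18497 (.c 0 .nil)))) (.b 16 (.l 32 .nil))) (.I .tdb (.c 24 (.c 40 (.c 18497 (.c 16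 .nil)))) (.b 0 (.l 32 .nil)))) (.node (.I .com (.c 1809251600817328290237716700417353 (.c 32 .nil)) .nil) (.I .com (.c 29219431338611946923215950238729161199563579974145017446079347480329 (.c 32 .nil)) .nil))) (.node (.node (.I .com (.c 70295418264037085081049688170555673261203244033357058660806432521 (.c 32 .nil)) .nil) (.I .com (.c 29220112062374340779692772142335450373702271758580661658759238668105 (.c 32 .nil)) .nil)) (.node (.I .com (.c 1809251600793674776654951456263753 (.c 32 .nil)) .nil) (.I .com (.c 13748192181547383457 (.c 32 .nil)) .nil))))) (.node (.node (.node (.node (.I .com (.c 231045293600684705 (.c 32 .nil)) .nil) (.I .jac (.c 0 (.c 8 (.c 43655299 .nil))) (.r 12993 .nil))) (.node (.I .tdb (.c 8 (.c 48 (.c 16 (.c 32 .nil)))) (.b 0 (.r 12993 .nil))) (.I .tdb (.c 0 (.c 16 (.c 32 (.c 18497 .nil)))) (.r 12993 .nil)))) (.node (.node (.I .tdb (.c 8 (.c 48 (.c 16 (.c 32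 .nil)))) (.b 0 (.b 12993 .nil))) (.I .tdb (.c 0 (.c 16 (.c 32 (.c 18497 .nil)))) (.b 12993 .nil))) (.node (.I .tdb (.c 24 (.c 40 (.c 0 (.c 32 .nil)))) (.b 16 (.b 18497 .nil))) (.I .com (.c 33587593 (.c 617620517416329 .nil)) .nil)))) (.node (.node (.node (.I .ass (.c 33587593 (.c 1324065993 (.c 32 .nil))) .nil) (.I .jac (.c 617629514823753 (.c 8 (.c 40 .nil))) (.l 48 .nil))) (.node (.I .jac (.c 8786435 (.c 8 (.c 40 .nil))) (.b 16 (.l 48 .nil))) (.I .com (.c 74504435279809903992057311867914761603318924221822301564755657 (.c 48 .nil)) .nil))) (.node (.node (.I .com (.c 58240646186293806597287516726297604439428816240995578852398857 (.c 48 .nil)) .nil) (.I .com (.c 13748192181270821537 (.c 48 .nil)) .nil)) (.node (.I .com (.c 617629531669137 (.c 48 .nil)) .nil) (.I .com (.c 74504435279809903992057311855414876585610805328601543895830473 (.c 48 .nil)) .nil)))))) (.node (.node (.node (.node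 (.node (.I .jac (.c 15038498931046473 (.c 8 (.c 40 .nil))) (.r 32 .nil)) (.I .tdb (.c 8 (.c 40 (.c 0 (.c 48 .nil)))) (.b 24 (.b 16 (.r 32 .nil))))) (.node (.I .jac (.c 33587529 (.c 8 (.c 24 .nil))) (.r 18690 .nil)) (.I .com (.c 58240646186242460541317411872039007048410552847425348944764681 (.c 48 .nil)) .nil))) (.node (.node (.I .tdb (.c 0 (.c 16 (.c 48 (.c 12993 .nil)))) (.l 8257 .nil)) (.I .tdb (.c 24 (.c 40 (.c 0 (.c 48 .nil)))) (.b 16 (.l 8257 .nil)))) (.node (.I .tdb (.c 24 (.c 40 (.c 16 (.c 48 .nil)))) (.b 0 (.l 8257 .nil))) (.I .jac (.c 2049 (.c 24 (.c 40 .nil))) (.r 48 (.l 8257 .nil)))))) (.node (.node (.node (.I .com (.c 1809251600792687288661143085918153 (.c 8257 .nil)) .nil) (.I .ass (.c 33587593 (.c 8257 (.c 12993 .nil))) .nil)) (.node (.I .ass (.c 8257 (.c 9024976834606921 (.c 48 .nil))) .nil) (.I .ass (.c 9024976834606921 (.c 8257 (.c 48 .nil))) .nil))) (.node (.node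 (.I .com (.c 8257 (.c 9024976834606921 .nil)) (.r 48 .nil)) (.I .ass (.c 8257 (.c 9024908047478729 (.c 48 .nil))) .nil)) (.node (.I .ass (.c 9024908047478729 (.c 8257 (.c 48 .nil))) .nil) (.I .com (.c 8257 (.c 9024908047478729 .nil)) (.r 48 .nil)))))) (.node (.node (.node (.node (.I .com (.c 70295418264021313545660038924892751035385032092094293128619817737 (.c 48 .nil)) .nil) (.I .tdb (.c 8 (.c 32 (.c 0 (.c 48 .nil)))) (.b 16 (.b 12993 .nil)))) (.node (.I .tdb (.c 24 (.c 40 (.c 0 (.c 8 .nil)))) (.b 32 (.b 16 (.b 48 .nil)))) (.I .tdb (.c 24 (.c 40 (.c 32 (.c 48 .nil)))) (.b 0 (.b 2113 .nil))))) (.node (.node (.I .com (.c 43655171 (.c 12993 .nil)) (.b 2113 .nil)) (.I .adp (.c 15038410136445321 (.c 32 (.c 2113 .nil))) .nil)) (.node (.I .jac (.c 15038410136445321 (.c 8 (.c 16 .nil))) (.r 32 .nil)) (.I .adp (.c 18433 (.c 1350648594 (.c 2113 .nil))) .nil)))) (.node (.node (.node (.I .jac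 (.c 8 (.c 21307523 (.c 24 .nil))) (.l 18433 .nil)) (.I .jac (.c 8 (.c 8786563 (.c 40 .nil))) (.l 18433 .nil))) (.node (.I .tdb (.c 24 (.c 40 (.c 16 (.c 32 .nil)))) (.b 8 (.l 18433 .nil))) (.I .tdb (.c 24 (.c 40 (.c 8 (.c 32 .nil)))) (.b 16 (.l 18433 .nil))))) (.node (.node (.I .adp (.c 12993 (.c 32 (.c 2113 .nil))) (.l 18433 .nil)) (.I .jac (.c 18433 (.c 8 (.c 16 .nil))) (.r 1350648594 .nil))) (.node (.I .tdp (.c 12993 (.c 32 (.c 18433 (.c 2113 .nil)))) .nil) (.I .tdb (.c 0 (.c 48 (.c 8 (.c 24 .nil)))) (.b 40 (.b 16 (.l 32 .nil))))))))))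

noncomputable def c2_93 : Tr := (.node (.node (.node (.node (.node (.node (.I .tdb (.c 8 (.c 16 (.c 12993 (.c 18433 .nil)))) (.l 32 .nil)) (.I .tdb (.c 24 (.c 40 (.c 18433 (.c 8 .nil)))) (.b 16 (.l 32 .nil)))) (.node (.I .tdb (.c 24 (.c 40 (.c 18433 (.c 16 .nil)))) (.b 8 (.l 32 .nil))) (.I .tdb (.c 0 (.c 48 (.c 8 (.c 32 .nil)))) (.b 16 (.r 12993 .nil))))) (.node (.node (.I .tdb (.c 8 (.c 16 (.c 32 (.c 18433 .nil)))) (.r 12993 .nil)) (.I .tdb (.c 8 (.c 16 (.c 32 (.c 18433 .nil)))) (.b 12993 .nil))) (.node (.I .jac (.c 8 (.c 21307523 (.c 24 .nil))) (.b 18433 .nil)) (.I .tdb (.c 8 (.c 16 (.c 32 (.c 12993 .nil)))) (.b 18433 .nil))))) (.node (.node (.node (.I .com (.c 35718537 (.c 32 .nil)) (.l 1310925001 .nil)) (.I .tdb (.c 24 (.c 12801 (.c 8 (.c 32 .nil)))) (.b 16 (.l 48 .nil)))) (.node (.I .tdb (.c 0 (.c 40 (.c 8 (.c 32 .nil)))) (.b 24 (.b 16 (.l 48 .nil)))) (.I .tdb (.c 8 (.c 16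 (.c 32 (.c 1310925001 .nil)))) (.l 48 .nil)))) (.node (.node (.I .tdb (.c 8 (.c 16 (.c 32 (.c 1310925001 .nil)))) (.b 48 .nil)) (.I .com (.c 35718537 (.c 32 .nil)) (.l 169943369 .nil))) (.node (.I .jac (.c 169943369 (.c 8 (.c 16 .nil))) (.r 18690 .nil)) (.I .tdp (.c 32 (.c 48 (.c 2113 (.c 169943369 .nil)))) .nil))))) (.node (.node (.node (.node (.I .tdb (.c 4609 (.c 40 (.c 8 (.c 48 .nil)))) (.b 16 (.r 32 .nil))) (.I .tdb (.c 0 (.c 24 (.c 48 (.c 8 .nil)))) (.b 40 (.b 16 (.r 32 .nil))))) (.node (.I .tdb (.c 4609 (.c 40 (.c 16 (.c 48 .nil)))) (.b 8 (.r 32 .nil))) (.I .tdb (.c 0 (.c 24 (.c 48 (.c 16 .nil)))) (.b 40 (.b 8 (.r 32 .nil)))))) (.node (.node (.I .tdb (.c 8 (.c 16 (.c 48 (.c 169943369 .nil)))) (.r 32 .nil)) (.I .tdb (.c 8 (.c 16 (.c 32 (.c 169943369 .nil)))) (.b 48 .nil))) (.node (.I .tdb (.c 8 (.c 16 (.c 32 (.c 48 .nil)))) (.b 169943369 .nil)) (.I .adp (.c 8193 (.c 1350648722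 (.c 2113 .nil))) .nil)))) (.node (.node (.node (.I .jac (.c 8 (.c 43356803 (.c 40 .nil))) (.l 8193 .nil)) (.I .tdb (.c 8 (.c 16 (.c 48 (.c 12993 .nil)))) (.l 8193 .nil))) (.node (.I .tdb (.c 24 (.c 40 (.c 8 (.c 48 .nil)))) (.b 16 (.l 8193 .nil))) (.I .tdb (.c 24 (.c 40 (.c 16 (.c 48 .nil)))) (.b 8 (.l 8193 .nil))))) (.node (.node (.I .adp (.c 12993 (.c 48 (.c 2113 .nil))) (.l 8193 .nil)) (.I .jac (.c 2113 (.c 24 (.c 40 .nil))) (.r 48 (.l 8193 .nil)))) (.node (.I .jac (.c 8193 (.c 8 (.c 16 .nil))) (.r 1350648722 .nil)) (.I .tdp (.c 12993 (.c 48 (.c 2113 (.c 8193 .nil)))) .nil)))))) (.node (.node (.node (.node (.node (.I .tdb (.c 8 (.c 16 (.c 8193 (.c 12993 .nil)))) (.l 48 .nil)) (.I .tdb (.c 0 (.c 32 (.c 8 (.c 48 .nil)))) (.b 16 (.r 12993 .nil)))) (.node (.I .tdb (.c 0 (.c 32 (.c 16 (.c 48 .nil)))) (.b 8 (.r 12993 .nil))) (.I .tdb (.c 8 (.c 16 (.c 48 (.c 8193 .nil)))) (.r 12993 .nil))))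 (.node (.node (.I .tdb (.c 0 (.c 32 (.c 8 (.c 48 .nil)))) (.b 16 (.b 12993 .nil))) (.I .tdb (.c 0 (.c 32 (.c 16 (.c 48 .nil)))) (.b 8 (.b 12993 .nil)))) (.node (.I .tdb (.c 0 (.c 32 (.c 12993 (.c 8 .nil)))) (.b 16 (.b 48 .nil))) (.I .tdb (.c 24 (.c 40 (.c 8 (.c 32 .nil)))) (.b 0 (.b 16 (.b 48 .nil))))))) (.node (.node (.node (.I .jac (.c 0 (.c 21307523 (.c 24 .nil))) (.b 8 (.b 48 .nil))) (.I .tdb (.c 0 (.c 32 (.c 12993 (.c 16 .nil)))) (.b 8 (.b 48 .nil)))) (.node (.I .tdb (.c 8 (.c 16 (.c 8193 (.c 12993 .nil)))) (.b 48 .nil)) (.I .tdb (.c 0 (.c 32 (.c 12993 (.c 48 .nil)))) (.b 2113 .nil)))) (.node (.node (.I .tdb (.c 8 (.c 16 (.c 48 (.c 12993 .nil)))) (.b 8193 .nil)) (.I .tdb (.c 24 (.c 40 (.c 8 (.c 48 .nil)))) (.b 16 (.b 8193 .nil)))) (.node (.I .tdb (.c 24 (.c 40 (.c 16 (.c 48 .nil)))) (.b 8 (.b 8193 .nil))) (.I .com (.c 35468714087241 (.c 2756086089 .nil)) .nil))))) (.node (.node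 (.node (.node (.I .jac (.c 513 (.c 24 (.c 32 .nil))) (.l 1337272713 .nil)) (.I .com (.c 35466557976457 (.c 1337272713 .nil)) .nil)) (.node (.I .com (.c 35473026505673 (.c 553912521 .nil)) .nil) (.I .com (.c 35470870263817 (.c 553912521 .nil)) .nil))) (.node (.node (.I .jac (.c 2105545 (.c 16 (.c 32 .nil))) (.r 18753 .nil)) (.I .com (.c 35470870263817 (.c 179513609 .nil)) .nil)) (.node (.I .jac (.c 2105609 (.c 16 (.c 24 .nil))) (.r 18753 .nil)) (.I .jac (.c 2049 (.c 24 (.c 32 .nil))) (.l 2737112393 .nil))))) (.node (.node (.node (.I .com (.c 9024908047478665 (.c 2737112393 .nil)) .nil) (.I .jac (.c 33587529 (.c 8 (.c 48 .nil))) (.r 8385 .nil))) (.node (.I .jac (.c 2049 (.c 18497 (.c 40 .nil))) (.r 8385 .nil)) (.I .jac (.c 2049 (.c 8 (.c 48 .nil))) (.b 40 (.r 8385 .nil))))) (.node (.node (.I .jac (.c 2049 (.c 12865 (.c 48 .nil))) (.r 8385 .nil)) (.I .jac (.c 2049 (.c 40 (.c 48 .nil)))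 (.l 545424585 .nil))) (.node (.I .com (.c 9025011228269513 (.c 545424585 .nil)) .nil) (.I .jac (.c 2049 (.c 8257 (.c 24 .nil))) (.r 18753 .nil))))))))

noncomputable def c2_94 : Tr := (.node (.node (.node (.node (.node (.node (.I .adp (.c 174695689 (.c 18753 (.c 2049 .nil))) .nil) (.I .jac (.c 2049 (.c 40 (.c 48 .nil))) (.l 174695689 .nil))) (.node (.I .com (.c 9024976834607113 (.c 174695689 .nil)) .nil) (.I .jac (.c 2049 (.c 8 (.c 24 .nil))) (.b 32 (.r 18753 .nil))))) (.node (.node (.I .adp (.c 2718204233 (.c 8385 (.c 2113 .nil))) .nil) (.I .jac (.c 2113 (.c 24 (.c 32 .nil))) (.l 2718204233 .nil))) (.node (.I .jac (.c 2718204233 (.c 8 (.c 16 .nil))) (.r 8385 .nil)) (.I .adp (.c 1310925193 (.c 8385 (.c 2113 .nil))) .nil)))) (.node (.node (.node (.I .jac (.c 1310925193 (.c 8 (.c 16 .nil))) (.r 8385 .nil)) (.I .jac (.c 2113 (.c 40 (.c 48 .nil))) (.l 537002185 .nil))) (.node (.I .jac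 (.c 537002185 (.c 8 (.c 16 .nil))) (.r 18753 .nil)) (.I .jac (.c 2113 (.c 40 (.c 48 .nil))) (.l 169943305 .nil)))) (.node (.node (.I .jac (.c 169943305 (.c 8 (.c 16 .nil))) (.r 18753 .nil)) (.I .com (.c 35466557976457 (.c 43954819 .nil)) .nil)) (.node (.I .jac (.c 513 (.c 43356803 (.c 32 .nil))) (.r 40 .nil)) (.I .tdb (.c 0 (.c 8 (.c 40 (.c 8385 .nil)))) (.l 18561 .nil)))))) (.node (.node (.node (.node (.I .tdb (.c 24 (.c 32 (.c 0 (.c 40 .nil)))) (.b 8 (.l 18561 .nil))) (.I .tdb (.c 24 (.c 32 (.c 8 (.c 40 .nil)))) (.b 0 (.l 18561 .nil)))) (.node (.I .jac (.c 513 (.c 24 (.c 32 .nil))) (.r 40 (.l 18561 .nil))) (.I .com (.c 101466720686505037251115829520265 (.c 18561 .nil)) .nil))) (.node (.node (.I .com (.c 3561367726910545 (.c 18561 .nil)) .nil) (.I .ass (.c 2105673 (.c 18561 (.c 8385 .nil))) .nil)) (.node (.I .ass (.c 18561 (.c 35466557976457 (.c 40 .nil))) .nil) (.I .com (.c 18561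 (.c 35466557976457 .nil)) (.r 40 .nil))))) (.node (.node (.node (.I .com (.c 1809240918116188102378439523929481 (.c 40 .nil)) .nil) (.I .com (.c 26186821597830724738774049788021605992987777185030068365066306188169 (.c 40 .nil)) .nil)) (.node (.I .com (.c 1809240918104361380502550347746825 (.c 40 .nil)) .nil) (.I .com (.c 2306970224014843041 (.c 40 .nil)) .nil))) (.node (.node (.I .jac (.c 0 (.c 20891715 (.c 48 .nil))) (.r 8385 .nil)) (.I .tdb (.c 16 (.c 48 (.c 0 (.c 40 .nil)))) (.b 8 (.r 8385 .nil)))) (.node (.I .tdb (.c 16 (.c 48 (.c 0 (.c 40 .nil)))) (.b 8 (.b 8385 .nil))) (.I .tdb (.c 0 (.c 8 (.c 8385 (.c 18561 .nil)))) (.b 40 .nil))))))) (.node (.node (.node (.node (.node (.I .tdb (.c 24 (.c 32 (.c 18561 (.c 0 .nil)))) (.b 8 (.b 40 .nil))) (.I .tdb (.c 24 (.c 32 (.c 18561 (.c 8 .nil)))) (.b 0 (.b 40 .nil)))) (.node (.I .jac (.c 0 (.c 21099075 (.c 32 .nil))) (.b 18561 .nil)) (.I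 .tdb (.c 0 (.c 8 (.c 40 (.c 8385 .nil)))) (.b 18561 .nil)))) (.node (.node (.I .tdb (.c 24 (.c 32 (.c 0 (.c 40 .nil)))) (.b 8 (.b 18561 .nil))) (.I .tdb (.c 24 (.c 32 (.c 8 (.c 40 .nil)))) (.b 0 (.b 18561 .nil)))) (.node (.I .tdb (.c 24 (.c 32 (.c 18561 (.c 40 .nil)))) (.b 513 .nil)) (.I .jac (.c 0 (.c 43356739 (.c 32 .nil))) (.l 12929 .nil))))) (.node (.node (.node (.I .tdb (.c 0 (.c 8 (.c 48 (.c 8385 .nil)))) (.l 12929 .nil)) (.I .tdb (.c 24 (.c 32 (.c 0 (.c 48 .nil)))) (.b 8 (.l 12929 .nil)))) (.node (.I .tdb (.c 24 (.c 32 (.c 8 (.c 48 .nil)))) (.b 0 (.l 12929 .nil))) (.I .jac (.c 513 (.c 24 (.c 32 .nil))) (.r 48 (.l 12929 .nil))))) (.node (.node (.I .com (.c 1809240918100417214955082230359945 (.c 12929 .nil)) .nil) (.I .ass (.c 12929 (.c 2105737 (.c 8385 .nil))) .nil)) (.node (.I .ass (.c 2105737 (.c 12929 (.c 8385 .nil))) .nil) (.I .com (.c 12929 (.c 2105737 .nil)) (.r 8385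 .nil)))))) (.node (.node (.node (.node (.I .ass (.c 12929 (.c 35468714087241 (.c 48 .nil))) .nil) (.I .ass (.c 35468714087241 (.c 12929 (.c 48 .nil))) .nil)) (.node (.I .com (.c 12929 (.c 35468714087241 .nil)) (.r 48 .nil)) (.I .com (.c 82361964593848576266272055259023857175562567186951587467979438793 (.c 48 .nil)) .nil))) (.node (.node (.I .com (.c 82363963254985834063889962353047067330830773565796073341507990409 (.c 48 .nil)) .nil) (.I .com (.c 2306970223836781729 (.c 48 .nil)) .nil)) (.node (.I .jac (.c 0 (.c 43059267 (.c 40 .nil))) (.r 8385 .nil)) (.I .jac (.c 0 (.c 43059267 (.c 40 .nil))) (.b 8385 .nil))))) (.node (.node (.node (.I .tdb (.c 16 (.c 40 (.c 0 (.c 24 .nil)))) (.b 32 (.b 8 (.b 48 .nil)))) (.I .jac (.c 0 (.c 43356739 (.c 32 .nil))) (.b 12929 .nil))) (.node (.I .jac (.c 4609 (.c 20891715 (.c 32 .nil))) (.l 48 .nil)) (.I .com (.c 76104792608246240076934339165141554310972192297531888821362464457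 (.c 48 .nil)) .nil))) (.node (.node (.I .com (.c 82363963254985834063889962353254871174796735882086358560365361929 (.c 48 .nil)) .nil) (.I .jac (.c 4609 (.c 43059267 (.c 32 .nil))) (.r 40 .nil))) (.node (.I .jac (.c 0 (.c 43356739 (.c 32 .nil))) (.b 16 (.r 40 .nil))) (.I .jac (.c 0 (.c 15246236343241929 (.c 24 .nil))) (.r 40 .nil))))))))

noncomputable def c2_95 : Tr := (.node (.node (.node (.node (.node (.node (.I .jac (.c 0 (.c 43059267 (.c 32 .nil))) (.b 24 (.r 40 .nil))) (.I .tdb (.c 16 (.c 32 (.c 0 (.c 48 .nil)))) (.b 24 (.b 8 (.r 40 .nil))))) (.node (.I .tdb (.c 16 (.c 32 (.c 0 (.c 48 .nil)))) (.b 24 (.b 8 (.b 40 .nil)))) (.I .tdb (.c 16 (.c 32 (.c 0 (.c 40 .nil)))) (.b 24 (.b 8 (.b 48 .nil)))))) (.node (.node (.I .tdb (.c 4737 (.c 32 (.c 40 (.c 48 .nil)))) (.b 513 .nil)) (.I .tdb (.c 16 (.c 24 (.c 40 (.c 48 .nil)))) (.b 32 (.b 513 .nil)))) (.node (.I .jac (.c 2049 (.c 24 (.c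 32 .nil))) (.l 43954755 .nil)) (.I .com (.c 9024942441009993 (.c 43954755 .nil)) .nil)))) (.node (.node (.node (.I .com (.c 9024908047478665 (.c 43954755 .nil)) .nil) (.I .jac (.c 0 (.c 21099139 (.c 32 .nil))) (.l 18497 .nil))) (.node (.I .com (.c 101465489572723947598282130405129 (.c 18497 .nil)) .nil) (.I .com (.c 101467951811503808354312734910345 (.c 18497 .nil)) .nil))) (.node (.node (.I .ass (.c 18497 (.c 9024942441009993 (.c 40 .nil))) .nil) (.I .ass (.c 9024942441009993 (.c 18497 (.c 40 .nil))) .nil)) (.node (.I .com (.c 18497 (.c 9024942441009993 .nil)) (.r 40 .nil)) (.I .ass (.c 9024908047478665 (.c 18497 (.c 40 .nil))) .nil))))) (.node (.node (.node (.node (.I .jac (.c 2049 (.c 8 (.c 48 .nil))) (.r 562533202 .nil)) (.I .jac (.c 8193 (.c 8 (.c 43356803 .nil))) (.l 40 .nil))) (.node (.I .tdb (.c 8 (.c 48 (.c 0 (.c 24 .nil)))) (.b 32 (.b 16 (.l 40 .nil)))) (.I .com (.c 1809251600808458222644161614466377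 (.c 40 .nil)) .nil))) (.node (.node (.I .com (.c 26186512359090026768196227558961301156345883085621217037498232634121 (.c 40 .nil)) .nil) (.I .com (.c 1809251600793674776654951456263689 (.c 40 .nil)) .nil)) (.node (.I .tdb (.c 8 (.c 48 (.c 0 (.c 40 .nil)))) (.b 16 (.r 8385 .nil))) (.I .tdb (.c 0 (.c 16 (.c 40 (.c 18497 .nil)))) (.b 8385 .nil))))) (.node (.node (.node (.I .jac (.c 0 (.c 21099139 (.c 32 .nil))) (.b 18497 .nil)) (.I .com (.c 33587593 (.c 3561367726845257 .nil)) .nil)) (.node (.I .jac (.c 0 (.c 43356803 (.c 32 .nil))) (.l 12865 .nil)) (.I .adp (.c 8385 (.c 48 (.c 2049 .nil))) (.l 12865 .nil)))) (.node (.node (.I .com (.c 33587593 (.c 8385 .nil)) (.l 12865 .nil)) (.I .ass (.c 33587593 (.c 12865 (.c 8385 .nil))) .nil)) (.node (.I .ass (.c 12865 (.c 9024942441009993 (.c 48 .nil))) .nil) (.I .ass (.c 9024942441009993 (.c 12865 (.c 48 .nil))) .nil)))))) (.node (.node (.node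 (.node (.node (.I .com (.c 12865 (.c 9024942441009993 .nil)) (.r 48 .nil)) (.I .ass (.c 12865 (.c 9024908047478665 (.c 48 .nil))) .nil)) (.node (.I .ass (.c 9024908047478665 (.c 12865 (.c 48 .nil))) .nil) (.I .com (.c 12865 (.c 9024908047478665 .nil)) (.r 48 .nil)))) (.node (.node (.I .jac (.c 8193 (.c 8 (.c 21099139 .nil))) (.l 48 .nil)) (.I .com (.c 82361964593842655846796627384821413137963789414954527698493143817 (.c 48 .nil)) .nil)) (.node (.I .com (.c 2306969673946643105 (.c 48 .nil)) .nil) (.I .tdb (.c 0 (.c 16 (.c 48 (.c 12865 .nil)))) (.b 8385 .nil))))) (.node (.node (.node (.I .tdb (.c 8 (.c 40 (.c 16 (.c 48 .nil)))) (.b 0 (.b 8385 .nil))) (.I .ass (.c 33587593 (.c 545424585 (.c 40 .nil))) .nil)) (.node (.I .jac (.c 3561389332330569 (.c 8 (.c 32 .nil))) (.l 48 .nil)) (.I .com (.c 70295418264026570724123255045173558057950527221325376179752113929 (.c 48 .nil)) .nil))) (.node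 (.node (.I .com (.c 3561389349175441 (.c 48 .nil)) .nil) (.I .jac (.c 15038498931046473 (.c 8 (.c 32 .nil))) (.r 40 .nil))) (.node (.I .jac (.c 0 (.c 8 (.c 43655299 .nil))) (.b 24 (.r 40 .nil))) (.I .tdb (.c 8 (.c 32 (.c 0 (.c 48 .nil)))) (.b 24 (.b 16 (.r 40 .nil)))))))) (.node (.node (.node (.node (.I .tdb (.c 0 (.c 16 (.c 40 (.c 48 .nil)))) (.b 545424585 .nil)) (.I .com (.c 15456208906582089 (.c 174695689 .nil)) .nil)) (.node (.I .jac (.c 33587465 (.c 8 (.c 24 .nil))) (.r 18754 .nil)) (.I .jac (.c 15246281046235209 (.c 8 (.c 24 .nil))) (.r 40 .nil)))) (.node (.node (.I .jac (.c 8193 (.c 8 (.c 43356803 .nil))) (.r 40 .nil)) (.I .tdb (.c 4673 (.c 32 (.c 40 (.c 48 .nil)))) (.b 2049 .nil))) (.node (.I .tdb (.c 8 (.c 24 (.c 40 (.c 48 .nil)))) (.b 32 (.b 2049 .nil))) (.I .com (.c 43954691 (.c 8385 .nil)) (.b 2113 .nil))))) (.node (.node (.node (.I .com (.c 3561346121425225 (.c 48 .nil))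 (.b 2113 .nil)) (.I .adp (.c 43954691 (.c 8385 (.c 2113 .nil))) .nil)) (.node (.I .jac (.c 2113 (.c 24 (.c 32 .nil))) (.l 43954691 .nil)) (.I .adp (.c 15038410136445257 (.c 40 (.c 2113 .nil))) .nil))) (.node (.node (.I .jac (.c 15038410136445257 (.c 8 (.c 16 .nil))) (.r 40 .nil)) (.I .jac (.c 8 (.c 21099139 (.c 32 .nil))) (.l 18433 .nil))) (.node (.I .com (.c 35718473 (.c 8385 .nil)) (.l 18433 .nil)) (.I .tdb (.c 0 (.c 48 (.c 8 (.c 24 .nil)))) (.b 32 (.b 16 (.l 40 .nil))))))))))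

noncomputable def c2_96 : Tr := (.node (.node (.node (.node (.node (.node (.I .tdb (.c 8 (.c 16 (.c 8385 (.c 18433 .nil)))) (.l 40 .nil)) (.I .tdb (.c 24 (.c 32 (.c 18433 (.c 8 .nil)))) (.b 16 (.l 40 .nil)))) (.node (.I .tdb (.c 24 (.c 32 (.c 18433 (.c 16 .nil)))) (.b 8 (.l 40 .nil))) (.I .com (.c 26186821597830724738774049788025311318388046839486296373474083224329 (.c 40 .nil)) .nil))) (.node (.node (.I .tdb (.c 0 (.c 48 (.c 16 (.c 40 .nil)))) (.b 8 (.r 8385 .nil))) (.I .tdb (.c 8 (.c 16 (.c 40 (.c 18433 .nil)))) (.b 8385 .nil))) (.node (.I .tdb (.c 8 (.c 16 (.c 8385 (.c 18433 .nil)))) (.b 40 .nil)) (.I .tdb (.c 24 (.c 32 (.c 18433 (.c 8 .nil)))) (.b 16 (.b 40 .nil)))))) (.node (.node (.node (.I .tdb (.c 24 (.c 32 (.c 18433 (.c 16 .nil)))) (.b 8 (.b 40 .nil))) (.I .jac (.c 8 (.c 21099139 (.c 32 .nil))) (.b 18433 .nil))) (.node (.I .tdb (.c 8 (.c 16 (.c 40 (.c 8385 .nil)))) (.b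 18433 .nil)) (.I .tdb (.c 24 (.c 32 (.c 8 (.c 40 .nil)))) (.b 16 (.b 18433 .nil))))) (.node (.node (.I .tdb (.c 24 (.c 32 (.c 16 (.c 40 .nil)))) (.b 8 (.b 18433 .nil))) (.I .tdb (.c 24 (.c 32 (.c 18433 (.c 40 .nil)))) (.b 2113 .nil))) (.node (.I .jac (.c 8 (.c 43356803 (.c 32 .nil))) (.l 12801 .nil)) (.I .com (.c 35718537 (.c 8385 .nil)) (.l 12801 .nil)))))) (.node (.node (.node (.node (.I .tdb (.c 0 (.c 40 (.c 16 (.c 24 .nil)))) (.b 32 (.b 8 (.l 48 .nil)))) (.I .adp (.c 537002185 (.c 18754 (.c 2113 .nil))) .nil)) (.node (.I .tdb (.c 8 (.c 16 (.c 40 (.c 48 .nil)))) (.l 537002185 .nil)) (.I .adp (.c 40 (.c 48 (.c 2113 .nil))) (.l 537002185 .nil)))) (.node (.node (.I .com (.c 35718537 (.c 40 .nil)) (.l 537002185 .nil)) (.I .jac (.c 537002185 (.c 8 (.c 16 .nil))) (.r 18754 .nil))) (.node (.I .tdp (.c 40 (.c 48 (.c 2113 (.c 537002185 .nil)))) .nil) (.I .tdb (.c 24 (.c 8193 (.c 8 (.c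 48 .nil)))) (.b 16 (.r 40 .nil)))))) (.node (.node (.node (.I .tdb (.c 0 (.c 32 (.c 8 (.c 48 .nil)))) (.b 24 (.b 16 (.r 40 .nil)))) (.I .tdb (.c 24 (.c 8193 (.c 16 (.c 48 .nil)))) (.b 8 (.r 40 .nil)))) (.node (.I .tdb (.c 0 (.c 32 (.c 16 (.c 48 .nil)))) (.b 24 (.b 8 (.r 40 .nil)))) (.I .tdb (.c 8 (.c 16 (.c 48 (.c 537002185 .nil)))) (.r 40 .nil)))) (.node (.node (.I .tdb (.c 8 (.c 16 (.c 48 (.c 537002185 .nil)))) (.b 40 .nil)) (.I .tdb (.c 8 (.c 16 (.c 40 (.c 537002185 .nil)))) (.b 48 .nil))) (.node (.I .tdb (.c 0 (.c 32 (.c 40 (.c 48 .nil)))) (.b 24 (.b 2113 .nil))) (.I .tdb (.c 8 (.c 16 (.c 40 (.c 48 .nil)))) (.b 537002185 .nil))))))) (.node (.node (.node (.node (.node (.I .com (.c 35718537 (.c 40 .nil)) (.l 169943305 .nil)) (.I .jac (.c 169943305 (.c 8 (.c 16 .nil))) (.r 18754 .nil))) (.node (.I .tdp (.c 40 (.c 48 (.c 2113 (.c 169943305 .nil)))) .nil) (.I .tdb (.c 4609 (.c 32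 (.c 8 (.c 48 .nil)))) (.b 16 (.r 40 .nil))))) (.node (.node (.I .tdb (.c 0 (.c 24 (.c 48 (.c 8 .nil)))) (.b 32 (.b 16 (.r 40 .nil)))) (.I .tdb (.c 4609 (.c 32 (.c 16 (.c 48 .nil)))) (.b 8 (.r 40 .nil)))) (.node (.I .tdb (.c 0 (.c 24 (.c 48 (.c 16 .nil)))) (.b 32 (.b 8 (.r 40 .nil)))) (.I .tdb (.c 8 (.c 16 (.c 48 (.c 169943305 .nil)))) (.r 40 .nil))))) (.node (.node (.node (.I .tdb (.c 8 (.c 16 (.c 48 (.c 169943305 .nil)))) (.b 40 .nil)) (.I .tdb (.c 8 (.c 16 (.c 40 (.c 169943305 .nil)))) (.b 48 .nil))) (.node (.I .tdb (.c 4609 (.c 32 (.c 40 (.c 48 .nil)))) (.b 2113 .nil)) (.I .tdb (.c 0 (.c 24 (.c 40 (.c 48 .nil)))) (.b 32 (.b 2113 .nil))))) (.node (.node (.I .tdb (.c 8 (.c 16 (.c 40 (.c 48 .nil)))) (.b 169943305 .nil)) (.I .jac (.c 35468714087433 (.c 16 (.c 40 .nil))) (.r 24 .nil))) (.node (.I .jac (.c 2105609 (.c 12929 (.c 48 .nil))) (.r 24 .nil)) (.I .jac (.c 2105609 (.c 16 (.c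 40 .nil))) (.b 48 (.r 24 .nil))))))) (.node (.node (.node (.node (.I .jac (.c 35470870263689 (.c 16 (.c 48 .nil))) (.r 24 .nil)) (.I .jac (.c 2105673 (.c 18561 (.c 32 .nil))) (.r 24 .nil))) (.node (.I .jac (.c 2105673 (.c 16 (.c 48 .nil))) (.b 32 (.r 24 .nil))) (.I .jac (.c 2105737 (.c 16 (.c 32 .nil))) (.b 40 (.r 24 .nil))))) (.node (.node (.I .jac (.c 513 (.c 18689 (.c 40 .nil))) (.l 4737 .nil)) (.I .jac (.c 513 (.c 32 (.c 48 .nil))) (.b 40 (.l 4737 .nil)))) (.node (.I .com (.c 10065461098180296729435276169 (.c 4737 .nil)) .nil) (.I .com (.c 10066684875741109290467687369 (.c 4737 .nil)) .nil)))) (.node (.node (.node (.I .adp (.c 14025210098083634057 (.c 24 (.c 2049 .nil))) .nil) (.I .com (.c 33587401 (.c 14025210098083634057 .nil)) .nil)) (.node (.I .jac (.c 9024942441010185 (.c 8 (.c 40 .nil))) (.r 24 .nil)) (.I .jac (.c 33587593 (.c 8 (.c 40 .nil))) (.b 32 (.r 24 .nil))))) (.node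 (.node (.I .jac (.c 33587465 (.c 12865 (.c 48 .nil))) (.r 24 .nil)) (.I .jac (.c 33587465 (.c 8 (.c 40 .nil))) (.b 48 (.r 24 .nil)))) (.node (.I .jac (.c 2049 (.c 1324066185 (.c 32 .nil))) (.r 24 .nil)) (.I .jac (.c 2049 (.c 12865 (.c 48 .nil))) (.b 32 (.r 24 .nil)))))))))

noncomputable def c2_97 : Tr := (.node (.node (.node (.node (.node (.node (.I .jac (.c 2049 (.c 8 (.c 40 .nil))) (.b 48 (.b 32 (.r 24 .nil)))) (.I .jac (.c 9024976834606985 (.c 8 (.c 48 .nil))) (.r 24 .nil))) (.node (.I .jac (.c 33587529 (.c 18497 (.c 32 .nil))) (.r 24 .nil)) (.I .jac (.c 33587529 (.c 8 (.c 48 .nil))) (.b 32 (.r 24 .nil))))) (.node (.node (.I .jac (.c 33587593 (.c 8 (.c 32 .nil))) (.b 40 (.r 24 .nil))) (.I .jac (.c 2049 (.c 32 (.c 48 .nil))) (.b 40 (.l 4673 .nil)))) (.node (.I .com (.c 651601654921560200620872561558409 (.c 4673 .nil)) .nil) (.I .com (.c 651596688508375012468186189874121 (.c 4673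 .nil)) .nil)))) (.node (.node (.node (.I .jac (.c 2049 (.c 8 (.c 24 .nil))) (.r 2794230089 .nil)) (.I .jac (.c 13748196208362034185 (.c 8 (.c 16 .nil))) (.r 24 .nil))) (.node (.I .jac (.c 4609 (.c 8 (.c 16 .nil))) (.r 2794230089 .nil)) (.I .jac (.c 35468714087369 (.c 16 (.c 48 .nil))) (.r 24 .nil)))) (.node (.node (.I .jac (.c 35473026505673 (.c 16 (.c 32 .nil))) (.r 24 .nil)) (.I .jac (.c 2105737 (.c 8321 (.c 40 .nil))) (.r 24 .nil))) (.node (.I .jac (.c 9025011228269513 (.c 8 (.c 32 .nil))) (.r 24 .nil)) (.I .jac (.c 33587593 (.c 8257 (.c 40 .nil))) (.r 24 .nil)))))) (.node (.node (.node (.node (.I .jac (.c 33587593 (.c 32 (.c 40 .nil))) (.l 4673 .nil)) (.I .jac (.c 35718537 (.c 32 (.c 40 .nil))) (.l 4609 .nil))) (.node (.I .com (.c 15456298926186577 (.c 4737 .nil)) .nil) (.I .adp (.c 15456298926182537 (.c 24 (.c 2049 .nil))) .nil))) (.node (.node (.I .com (.c 33587401 (.c 15456298926182537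 .nil)) .nil) (.I .com (.c 15456298926198865 (.c 4673 .nil)) .nil)) (.node (.I .adp (.c 15456298926182473 (.c 24 (.c 2113 .nil))) .nil) (.I .jac (.c 15456298926182473 (.c 8 (.c 16 .nil))) (.r 24 .nil))))) (.node (.node (.node (.I .jac (.c 4609 (.c 8 (.c 16 .nil))) (.r 43954947 .nil)) (.I .jac (.c 513 (.c 43954819 (.c 32 .nil))) (.r 24 .nil))) (.node (.I .adp (.c 3632084291164617 (.c 24 (.c 513 .nil))) .nil) (.I .com (.c 2105545 (.c 3632084291164617 .nil)) .nil))) (.node (.node (.I .jac (.c 513 (.c 21307523 (.c 48 .nil))) (.r 24 .nil)) (.I .com (.c 3561367726845001 (.c 2756086025 .nil)) .nil)) (.node (.I .jac (.c 2105609 (.c 16 (.c 48 .nil))) (.r 12994 .nil)) (.I .tdb (.c 32 (.c 18561 (.c 8 (.c 24 .nil)))) (.b 0 (.l 40 .nil)))))))) (.node (.node (.node (.node (.node (.I .jac (.c 0 (.c 3632062472293833 (.c 16 .nil))) (.r 24 .nil)) (.I .jac (.c 0 (.c 3491710045130185 (.c 32 .nil))) (.r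 24 .nil))) (.node (.I .tdb (.c 16 (.c 48 (.c 0 (.c 40 .nil)))) (.b 32 (.b 8 (.r 24 .nil)))) (.I .jac (.c 18433 (.c 2803779 (.c 32 .nil))) (.l 40 .nil)))) (.node (.node (.I .jac (.c 0 (.c 43356739 (.c 32 .nil))) (.b 16 (.l 40 .nil))) (.I .com (.c 26186512359091364093173356798835817384714191699394783667286493819593 (.c 40 .nil)) .nil)) (.node (.I .com (.c 8007571589547794518489790365394020006113287788426299409097 (.c 40 .nil)) .nil) (.I .com (.c 59109071234974274721 (.c 40 .nil)) .nil)))) (.node (.node (.node (.I .com (.c 8009034007753174566127033523878890258830646315114126130185 (.c 40 .nil)) .nil) (.I .com (.c 15038454802412689 (.c 40 .nil)) .nil)) (.node (.I .jac (.c 18433 (.c 20891715 (.c 32 .nil))) (.r 24 .nil)) (.I .jac (.c 2049 (.c 43954755 (.c 32 .nil))) (.r 24 .nil)))) (.node (.node (.I .jac (.c 0 (.c 43954755 (.c 32 .nil))) (.b 16 (.r 24 .nil))) (.I .tdb (.c 0 (.c 8 (.c 24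 (.c 40 .nil)))) (.b 553912713 .nil))) (.node (.I .adp (.c 21099139 (.c 18689 (.c 513 .nil))) .nil) (.I .jac (.c 513 (.c 32 (.c 48 .nil))) (.l 21099139 .nil)))))) (.node (.node (.node (.node (.I .com (.c 35473026505609 (.c 21099139 .nil)) .nil) (.I .com (.c 35468714087433 (.c 21099139 .nil)) .nil)) (.node (.I .tdb (.c 32 (.c 48 (.c 8 (.c 24 .nil)))) (.b 0 (.l 12929 .nil))) (.I .tdb (.c 0 (.c 8 (.c 24 (.c 18689 .nil)))) (.l 12929 .nil)))) (.node (.node (.I .tdb (.c 32 (.c 48 (.c 0 (.c 24 .nil)))) (.b 8 (.l 12929 .nil))) (.I .adp (.c 24 (.c 18689 (.c 513 .nil))) (.l 12929 .nil))) (.node (.I .com (.c 35473026505609 (.c 24 .nil)) (.l 12929 .nil)) (.I .ass (.c 12929 (.c 35473026505609 (.c 24 .nil))) .nil)))) (.node (.node (.node (.I .ass (.c 35473026505609 (.c 12929 (.c 24 .nil))) .nil) (.I .com (.c 12929 (.c 35473026505609 .nil)) (.r 24 .nil))) (.node (.I .ass (.c 12929 (.c 2105545 (.c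 18689 .nil))) .nil) (.I .ass (.c 2105545 (.c 12929 (.c 18689 .nil))) .nil))) (.node (.node (.I .com (.c 12929 (.c 2105545 .nil)) (.r 18689 .nil)) (.I .com (.c 101465489572716653961425451675337 (.c 18689 .nil)) .nil)) (.node (.I .com (.c 31637737730399577210905877193 (.c 18689 .nil)) .nil) (.I .com (.c 101466720686505037251115829520137 (.c 18689 .nil)) .nil)))))))

noncomputable def c2_98 : Tr := (.node (.node (.node (.node (.node (.node (.I .com (.c 31640626589388946877766395849 (.c 18689 .nil)) .nil) (.I .com (.c 3561367726861393 (.c 18689 .nil)) .nil)) (.node (.I .jac (.c 0 (.c 598976858557897 (.c 40 .nil))) (.r 24 .nil)) (.I .jac (.c 0 (.c 8652867 (.c 48 .nil))) (.b 40 (.r 24 .nil))))) (.node (.node (.I .tdb (.c 32 (.c 48 (.c 0 (.c 16 .nil)))) (.b 40 (.b 8 (.r 24 .nil)))) (.I .jac (.c 0 (.c 21099075 (.c 16 .nil))) (.b 18689 .nil))) (.node (.I .jac (.c 0 (.c 2803779 (.c 40 .nil)))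 (.b 18689 .nil)) (.I .tdb (.c 16 (.c 40 (.c 8 (.c 24 .nil)))) (.b 0 (.b 18689 .nil)))))) (.node (.node (.node (.I .tdb (.c 0 (.c 8 (.c 24 (.c 12929 .nil)))) (.b 18689 .nil)) (.I .tdb (.c 32 (.c 48 (.c 8 (.c 40 .nil)))) (.b 0 (.l 4737 .nil)))) (.node (.I .tdb (.c 0 (.c 8 (.c 40 (.c 18689 .nil)))) (.l 4737 .nil)) (.I .jac (.c 513 (.c 32 (.c 48 .nil))) (.r 40 (.l 4737 .nil))))) (.node (.node (.I .com (.c 1911132888452991604567054858008265 (.c 4737 .nil)) .nil) (.I .com (.c 105533754468750300593045802417865 (.c 4737 .nil)) .nil)) (.node (.I .ass (.c 4737 (.c 35473026505609 (.c 40 .nil))) .nil) (.I .ass (.c 35473026505609 (.c 4737 (.c 40 .nil))) .nil))))) (.node (.node (.node (.node (.I .com (.c 4737 (.c 35473026505609 .nil)) (.r 40 .nil)) (.I .jac (.c 4609 (.c 43059267 (.c 32 .nil))) (.l 40 .nil))) (.node (.I .jac (.c 0 (.c 43059267 (.c 32 .nil))) (.b 24 (.l 40 .nil))) (.I .com (.c 24783224170187136596724733590554267712820617043334426680449784059593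 (.c 40 .nil)) .nil))) (.node (.node (.I .com (.c 24783518859262354015724227941900409827846785712001665744907096832841 (.c 40 .nil)) .nil) (.I .jac (.c 0 (.c 21099075 (.c 16 .nil))) (.r 18689 .nil))) (.node (.I .jac (.c 0 (.c 20891715 (.c 24 .nil))) (.r 18689 .nil)) (.I .tdb (.c 0 (.c 8 (.c 4737 (.c 40 .nil)))) (.b 18689 .nil))))) (.node (.node (.node (.I .tdb (.c 16 (.c 24 (.c 40 (.c 0 .nil)))) (.b 8 (.b 18689 .nil))) (.I .tdb (.c 16 (.c 24 (.c 40 (.c 8 .nil)))) (.b 0 (.b 18689 .nil)))) (.node (.I .jac (.c 0 (.c 43954755 (.c 32 .nil))) (.b 4737 .nil)) (.I .tdb (.c 32 (.c 48 (.c 8 (.c 40 .nil)))) (.b 0 (.b 4737 .nil))))) (.node (.node (.I .com (.c 33587401 (.c 15456163896880457 .nil)) .nil) (.I .adp (.c 3632062472293833 (.c 24 (.c 2049 .nil))) .nil)) (.node (.I .com (.c 33587401 (.c 3632062472293833 .nil)) .nil) (.I .com (.c 3561346121425097 (.c 2737112329 .nil)) .nil)))))) (.node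 (.node (.node (.node (.node (.I .com (.c 3561389332330569 (.c 2737112329 .nil)) .nil) (.I .ass (.c 33587529 (.c 2737112329 (.c 24 .nil))) .nil)) (.node (.I .jac (.c 33587465 (.c 8 (.c 48 .nil))) (.r 12994 .nil)) (.I .jac (.c 3632084291164233 (.c 8 (.c 48 .nil))) (.r 24 .nil)))) (.node (.node (.I .jac (.c 8193 (.c 8 (.c 43954819 .nil))) (.r 24 .nil)) (.I .jac (.c 0 (.c 15456208906582153 (.c 32 .nil))) (.r 24 .nil))) (.node (.I .jac (.c 0 (.c 8 (.c 43954819 .nil))) (.b 32 (.r 24 .nil))) (.I .jac (.c 0 (.c 18497 (.c 21307523 .nil))) (.r 24 .nil))))) (.node (.node (.node (.I .jac (.c 0 (.c 8 (.c 48 .nil))) (.b 21307523 (.r 24 .nil))) (.I .tdb (.c 8 (.c 48 (.c 16 (.c 40 .nil)))) (.b 32 (.b 0 (.r 24 .nil))))) (.node (.I .tdb (.c 8 (.c 48 (.c 0 (.c 40 .nil)))) (.b 32 (.b 16 (.r 24 .nil)))) (.I .tdb (.c 32 (.c 18497 (.c 0 (.c 40 .nil)))) (.b 16 (.r 24 .nil))))) (.node (.node (.I .ass (.c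 33587401 (.c 545424777 (.c 40 .nil))) .nil) (.I .jac (.c 33587593 (.c 8 (.c 32 .nil))) (.r 12994 .nil))) (.node (.I .com (.c 26186512359091364093173356798833964732953085251393677352777828486921 (.c 40 .nil)) .nil) (.I .com (.c 15038498947891345 (.c 40 .nil)) .nil))))) (.node (.node (.node (.node (.I .jac (.c 15456208906582089 (.c 8 (.c 32 .nil))) (.r 24 .nil)) (.I .tdb (.c 0 (.c 16 (.c 40 (.c 24 .nil)))) (.b 545424777 .nil))) (.node (.I .jac (.c 2049 (.c 32 (.c 48 .nil))) (.l 21099075 .nil)) (.I .com (.c 9025011228269449 (.c 21099075 .nil)) .nil))) (.node (.node (.I .com (.c 9024942441010185 (.c 21099075 .nil)) .nil) (.I .tdb (.c 32 (.c 48 (.c 16 (.c 24 .nil)))) (.b 0 (.l 12865 .nil)))) (.node (.I .tdb (.c 0 (.c 16 (.c 18689 (.c 24 .nil)))) (.l 12865 .nil)) (.I .jac (.c 2049 (.c 32 (.c 48 .nil))) (.l 24 (.l 12865 .nil)))))) (.node (.node (.node (.I .ass (.c 12865 (.c 9024942441010185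 (.c 24 .nil))) .nil) (.I .ass (.c 9024942441010185 (.c 12865 (.c 24 .nil))) .nil)) (.node (.I .com (.c 12865 (.c 9024942441010185 .nil)) (.r 24 .nil)) (.I .ass (.c 12865 (.c 33587401 (.c 18689 .nil))) .nil))) (.node (.node (.I .ass (.c 33587401 (.c 12865 (.c 18689 .nil))) .nil) (.I .com (.c 12865 (.c 33587401 .nil)) (.r 18689 .nil))) (.node (.I .com (.c 3561389332334673 (.c 18689 .nil)) .nil) (.I .tdb (.c 32 (.c 48 (.c 0 (.c 8 .nil)))) (.b 40 (.b 16 (.r 24 .nil))))))))))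

noncomputable def c2_99 : Tr := (.node (.node (.node (.node (.node (.node (.I .tdb (.c 32 (.c 48 (.c 0 (.c 40 .nil)))) (.b 8 (.b 16 (.r 24 .nil)))) (.I .tdb (.c 8 (.c 40 (.c 0 (.c 24 .nil)))) (.b 16 (.b 18689 .nil)))) (.node (.I .com (.c 1911155150111259961664864764831625 (.c 4673 .nil)) .nil) (.I .com (.c 15456208906647633 (.c 4673 .nil)) .nil))) (.node (.node (.I .ass (.c 4673 (.c 9024942441010185 (.c 40 .nil))) .nil) (.I .ass (.c 9024942441010185 (.c 4673 (.c 40 .nil))) .nil)) (.node (.I .com (.c 4673 (.c 9024942441010185 .nil)) (.r 40 .nil)) (.I .tdb (.c 32 (.c 48 (.c 0 (.c 8 .nil)))) (.b 24 (.b 16 (.l 40 .nil))))))) (.node (.node (.node (.I .tdb (.c 32 (.c 48 (.c 0 (.c 24 .nil)))) (.b 8 (.b 16 (.l 40 .nil)))) (.I .com (.c 23450673742498722248794897076545645409660943720441369768569949361929 (.c 40 .nil)) .nil)) (.node (.I .tdb (.c 0 (.c 16 (.c 4673 (.c 40 .nil)))) (.b 18689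 .nil)) (.I .tdb (.c 8 (.c 24 (.c 40 (.c 0 .nil)))) (.b 16 (.b 18689 .nil))))) (.node (.node (.I .tdb (.c 8 (.c 24 (.c 40 (.c 16 .nil)))) (.b 0 (.b 18689 .nil))) (.I .jac (.c 15456118887244105 (.c 8 (.c 16 .nil))) (.r 24 .nil))) (.node (.I .adp (.c 3632040653488585 (.c 24 (.c 2113 .nil))) .nil) (.I .jac (.c 3632040653488585 (.c 8 (.c 16 .nil))) (.r 24 .nil)))))) (.node (.node (.node (.node (.I .tdb (.c 32 (.c 18433 (.c 8 (.c 40 .nil)))) (.b 16 (.r 24 .nil))) (.I .tdb (.c 0 (.c 48 (.c 16 (.c 40 .nil)))) (.b 32 (.b 8 (.r 24 .nil))))) (.node (.I .tdb (.c 8 (.c 16 (.c 40 (.c 24 .nil)))) (.b 2718204169 .nil)) (.I .com (.c 35718473 (.c 24 .nil)) (.l 537002377 .nil)))) (.node (.node (.I .tdb (.c 8 (.c 16 (.c 537002377 (.c 24 .nil)))) (.l 40 .nil)) (.I .tdb (.c 48 (.c 8193 (.c 8 (.c 40 .nil)))) (.b 16 (.r 24 .nil)))) (.node (.I .tdb (.c 0 (.c 32 (.c 8 (.c 40 .nil)))) (.b 48 (.b 16 (.r 24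 .nil)))) (.I .tdb (.c 48 (.c 8193 (.c 16 (.c 40 .nil)))) (.b 8 (.r 24 .nil)))))) (.node (.node (.node (.I .tdb (.c 0 (.c 32 (.c 16 (.c 40 .nil)))) (.b 48 (.b 8 (.r 24 .nil)))) (.I .adp (.c 21099011 (.c 18689 (.c 2113 .nil))) .nil)) (.node (.I .adp (.c 12801 (.c 2794229962 (.c 2113 .nil))) .nil) (.I .adp (.c 24 (.c 18689 (.c 2113 .nil))) (.l 12801 .nil)))) (.node (.node (.I .jac (.c 2113 (.c 32 (.c 48 .nil))) (.l 24 (.l 12801 .nil))) (.I .com (.c 10206511083363209 (.c 24 .nil)) (.l 12801 .nil))) (.node (.I .com (.c 10206437931930633 (.c 24 .nil)) (.l 12801 .nil)) (.I .jac (.c 12801 (.c 8 (.c 16 .nil))) (.r 2794229962 .nil))))))) (.node (.node (.node (.node (.node (.I .tdp (.c 24 (.c 18689 (.c 2113 (.c 12801 .nil)))) .nil) (.I .tdb (.c 0 (.c 40 (.c 8 (.c 24 .nil)))) (.b 16 (.l 18689 .nil)))) (.node (.I .tdb (.c 8 (.c 16 (.c 12801 (.c 24 .nil)))) (.l 18689 .nil)) (.I .tdb (.c 0 (.c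 40 (.c 18689 (.c 8 .nil)))) (.b 16 (.r 24 .nil))))) (.node (.node (.I .jac (.c 0 (.c 21307523 (.c 48 .nil))) (.b 8 (.r 24 .nil))) (.I .jac (.c 0 (.c 43954819 (.c 32 .nil))) (.b 8 (.r 24 .nil)))) (.node (.I .tdb (.c 0 (.c 40 (.c 18689 (.c 16 .nil)))) (.b 8 (.r 24 .nil))) (.I .tdb (.c 32 (.c 48 (.c 16 (.c 40 .nil)))) (.b 0 (.b 8 (.r 24 .nil))))))) (.node (.node (.node (.I .tdb (.c 8 (.c 16 (.c 12801 (.c 18689 .nil)))) (.r 24 .nil)) (.I .tdb (.c 0 (.c 40 (.c 16 (.c 24 .nil)))) (.b 8 (.b 18689 .nil)))) (.node (.I .tdb (.c 8 (.c 16 (.c 18689 (.c 24 .nil)))) (.b 12801 .nil)) (.I .jac (.c 8 (.c 21307523 (.c 48 .nil))) (.l 4609 .nil)))) (.node (.node (.I .tdb (.c 32 (.c 48 (.c 16 (.c 40 .nil)))) (.b 8 (.l 4609 .nil))) (.I .adp (.c 18689 (.c 40 (.c 2113 .nil))) (.l 4609 .nil))) (.node (.I .com (.c 35718473 (.c 18689 .nil)) (.l 4609 .nil)) (.I .tdb (.c 32 (.c 48 (.c 0 (.c 8 .nil)))) (.b 16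 (.b 24 (.l 40 .nil)))))))) (.node (.node (.node (.node (.I .tdb (.c 32 (.c 48 (.c 0 (.c 16 .nil)))) (.b 8 (.b 24 (.l 40 .nil)))) (.I .com (.c 24783224170187136596724733590550663056521642191908096146866509139785 (.c 40 .nil)) .nil)) (.node (.I .com (.c 65899851849306263681208984329738137756179310868438678830829385 (.c 40 .nil)) .nil) (.I .com (.c 23450673742498722248794897076543892204964173604974487352999096546121 (.c 40 .nil)) .nil))) (.node (.node (.I .com (.c 58240646186319479625272581884954800165420559385987583829832521 (.c 40 .nil)) .nil) (.I .tdb (.c 0 (.c 24 (.c 2113 (.c 40 .nil)))) (.b 18689 .nil))) (.node (.I .tdb (.c 8 (.c 16 (.c 40 (.c 0 .nil)))) (.b 24 (.b 18689 .nil))) (.I .tdb (.c 8 (.c 16 (.c 40 (.c 24 .nil)))) (.b 0 (.b 18689 .nil)))))) (.node (.node (.node (.I .jac (.c 513 (.c 32 (.c 40 .nil))) (.l 43356803 .nil)) (.I .com (.c 35470870263689 (.c 43356803 .nil)) .nil))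 (.node (.I .com (.c 35468714087369 (.c 43356803 .nil)) .nil) (.I .tdb (.c 32 (.c 40 (.c 8 (.c 24 .nil)))) (.b 0 (.l 18561 .nil))))) (.node (.node (.I .adp (.c 24 (.c 13057 (.c 513 .nil))) (.l 18561 .nil)) (.I .jac (.c 513 (.c 32 (.c 40 .nil))) (.l 24 (.l 18561 .nil)))) (.node (.I .com (.c 35470870263689 (.c 24 .nil)) (.l 18561 .nil)) (.I .com (.c 35468714087369 (.c 24 .nil)) (.l 18561 .nil))))))))

noncomputable def c2_100 : Tr := (.node (.node (.node (.node (.node (.node (.I .ass (.c 35470870263689 (.c 18561 (.c 24 .nil))) .nil) (.I .ass (.c 35468714087369 (.c 18561 (.c 24 .nil))) .nil)) (.node (.I .ass (.c 18561 (.c 2105545 (.c 13057 .nil))) .nil) (.I .ass (.c 2105545 (.c 18561 (.c 13057 .nil))) .nil))) (.node (.node (.I .com (.c 18561 (.c 2105545 .nil)) (.r 13057 .nil)) (.I .jac (.c 0 (.c 43356739 (.c 16 .nil))) (.l 13057 .nil))) (.node (.I .jac (.c 0 (.c 2803779 (.c 48 .nil)))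 (.l 13057 .nil)) (.I .tdb (.c 16 (.c 48 (.c 8 (.c 24 .nil)))) (.b 0 (.l 13057 .nil)))))) (.node (.node (.node (.I .tdb (.c 0 (.c 8 (.c 24 (.c 18561 .nil)))) (.l 13057 .nil)) (.I .com (.c 1809230235455484827416425822613193 (.c 13057 .nil)) .nil)) (.node (.I .com (.c 1809240918100417214955082230359817 (.c 13057 .nil)) .nil) (.I .com (.c 62889413594193 (.c 13057 .nil)) .nil))) (.node (.node (.I .com (.c 31640626589388946877766395913 (.c 13057 .nil)) .nil) (.I .jac (.c 12801 (.c 43655235 (.c 16 .nil))) (.r 24 .nil))) (.node (.I .jac (.c 0 (.c 43655235 (.c 16 .nil))) (.b 40 (.r 24 .nil))) (.I .tdb (.c 16 (.c 48 (.c 0 (.c 32 .nil)))) (.b 40 (.b 8 (.r 24 .nil)))))))) (.node (.node (.node (.node (.I .jac (.c 0 (.c 43356739 (.c 16 .nil))) (.b 13057 .nil)) (.I .jac (.c 0 (.c 2803779 (.c 48 .nil))) (.b 13057 .nil))) (.node (.I .tdb (.c 16 (.c 48 (.c 8 (.c 24 .nil)))) (.b 0 (.b 13057 .nil)))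 (.I .tdb (.c 16 (.c 48 (.c 0 (.c 24 .nil)))) (.b 8 (.b 13057 .nil))))) (.node (.node (.I .tdb (.c 32 (.c 40 (.c 8 (.c 24 .nil)))) (.b 0 (.b 18561 .nil))) (.I .tdb (.c 32 (.c 40 (.c 0 (.c 24 .nil)))) (.b 8 (.b 18561 .nil)))) (.node (.I .jac (.c 2049 (.c 43655235 (.c 40 .nil))) (.r 24 .nil)) (.I .jac (.c 0 (.c 43059267 (.c 40 .nil))) (.b 32 (.r 24 .nil)))))) (.node (.node (.node (.I .jac (.c 2105673 (.c 16 (.c 32 .nil))) (.r 18626 .nil)) (.I .com (.c 8007571589547794518489790332996976570250062043552882351817 (.c 48 .nil)) .nil)) (.node (.I .com (.c 13748196208384464033 (.c 48 .nil)) .nil) (.I .com (.c 8009034007753174566127033523878890258830646315114126130121 (.c 48 .nil)) .nil))) (.node (.node (.I .jac (.c 0 (.c 43655235 (.c 40 .nil))) (.l 4737 .nil)) (.I .tdb (.c 0 (.c 8 (.c 13057 (.c 48 .nil)))) (.l 4737 .nil))) (.node (.I .tdb (.c 32 (.c 40 (.c 48 (.c 0 .nil)))) (.b 8 (.l 4737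 .nil))) (.I .tdb (.c 32 (.c 40 (.c 48 (.c 8 .nil)))) (.b 0 (.l 4737 .nil)))))))) (.node (.node (.node (.node (.node (.I .jac (.c 513 (.c 32 (.c 40 .nil))) (.r 48 (.l 4737 .nil))) (.I .jac (.c 0 (.c 43059267 (.c 24 .nil))) (.r 13057 .nil))) (.node (.I .jac (.c 0 (.c 43655235 (.c 40 .nil))) (.b 4737 .nil)) (.I .com (.c 33587401 (.c 15246236343242121 .nil)) .nil))) (.node (.node (.I .jac (.c 2049 (.c 32 (.c 40 .nil))) (.l 43356739 .nil)) (.I .adp (.c 18497 (.c 1363882186 (.c 2049 .nil))) .nil)) (.node (.I .tdb (.c 32 (.c 40 (.c 16 (.c 24 .nil)))) (.b 0 (.l 18497 .nil))) (.I .tdb (.c 0 (.c 16 (.c 13057 (.c 24 .nil)))) (.l 18497 .nil))))) (.node (.node (.node (.I .tdb (.c 32 (.c 40 (.c 0 (.c 24 .nil)))) (.b 16 (.l 18497 .nil))) (.I .com (.c 9024976834606985 (.c 24 .nil)) (.l 18497 .nil))) (.node (.I .com (.c 9024942441010121 (.c 24 .nil)) (.l 18497 .nil)) (.I .ass (.c 9024976834606985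 (.c 18497 (.c 24 .nil))) .nil))) (.node (.node (.I .ass (.c 9024942441010121 (.c 18497 (.c 24 .nil))) .nil) (.I .ass (.c 18497 (.c 33587401 (.c 13057 .nil))) .nil)) (.node (.I .ass (.c 33587401 (.c 18497 (.c 13057 .nil))) .nil) (.I .com (.c 18497 (.c 33587401 .nil)) (.r 13057 .nil)))))) (.node (.node (.node (.node (.I .jac (.c 2049 (.c 8 (.c 48 .nil))) (.r 1363882186 .nil)) (.I .tdp (.c 24 (.c 13057 (.c 18497 (.c 2049 .nil)))) .nil)) (.node (.I .jac (.c 0 (.c 8 (.c 43356803 .nil))) (.l 13057 .nil)) (.I .tdb (.c 8 (.c 48 (.c 16 (.c 24 .nil)))) (.b 0 (.l 13057 .nil))))) (.node (.node (.I .com (.c 1809230235455469428084446102833929 (.c 13057 .nil)) .nil) (.I .com (.c 28374916743873793267608813321 (.c 13057 .nil)) .nil)) (.node (.I .com (.c 15038498931050577 (.c 13057 .nil)) .nil) (.I .jac (.c 12801 (.c 8 (.c 43655299 .nil))) (.r 24 .nil))))) (.node (.node (.node (.I .jac (.c 0 (.c 15246281046235273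 (.c 40 .nil))) (.r 24 .nil)) (.I .tdb (.c 8 (.c 48 (.c 16 (.c 32 .nil)))) (.b 40 (.b 0 (.r 24 .nil))))) (.node (.I .tdb (.c 0 (.c 16 (.c 13057 (.c 18497 .nil)))) (.r 24 .nil)) (.I .tdb (.c 32 (.c 40 (.c 18497 (.c 0 .nil)))) (.b 16 (.r 24 .nil))))) (.node (.node (.I .tdb (.c 32 (.c 40 (.c 18497 (.c 16 .nil)))) (.b 0 (.r 24 .nil))) (.I .tdb (.c 0 (.c 16 (.c 13057 (.c 18497 .nil)))) (.b 24 .nil))) (.node (.I .tdb (.c 32 (.c 40 (.c 18497 (.c 0 .nil)))) (.b 16 (.b 24 .nil))) (.I .tdb (.c 32 (.c 40 (.c 18497 (.c 16 .nil)))) (.b 0 (.b 24 .nil)))))))))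

noncomputable def c2_101 : Tr := (.node (.node (.node (.node (.node (.node (.I .jac (.c 0 (.c 8 (.c 43356803 .nil))) (.b 13057 .nil)) (.I .tdb (.c 8 (.c 48 (.c 16 (.c 24 .nil)))) (.b 0 (.b 13057 .nil)))) (.node (.I .tdb (.c 0 (.c 16 (.c 18497 (.c 24 .nil)))) (.b 13057 .nil)) (.I .tdb (.c 8 (.c 48 (.c 0 (.c 24 .nil)))) (.b 16 (.b 13057 .nil))))) (.node (.node (.I .tdb (.c 32 (.c 40 (.c 16 (.c 24 .nil)))) (.b 0 (.b 18497 .nil))) (.I .tdb (.c 0 (.c 16 (.c 13057 (.c 24 .nil)))) (.b 18497 .nil))) (.node (.I .tdb (.c 32 (.c 40 (.c 18497 (.c 24 .nil)))) (.b 2049 .nil)) (.I .jac (.c 33587465 (.c 8 (.c 40 .nil))) (.r 18626 .nil))))) (.node (.node (.node (.I .jac (.c 15246281046235209 (.c 8 (.c 40 .nil))) (.r 24 .nil)) (.I .tdb (.c 0 (.c 16 (.c 48 (.c 24 .nil)))) (.b 1324066057 .nil))) (.node (.I .jac (.c 33587529 (.c 8 (.c 32 .nil))) (.r 18626 .nil)) (.I .com (.c 6441087201718780684179843754967028751961387757492629397257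 (.c 48 .nil)) .nil))) (.node (.node (.I .tdb (.c 0 (.c 16 (.c 48 (.c 24 .nil)))) (.b 545424713 .nil)) (.I .adp (.c 13057 (.c 48 (.c 2049 .nil))) (.l 4673 .nil))) (.node (.I .com (.c 33587593 (.c 13057 .nil)) (.l 4673 .nil)) (.I .com (.c 1859570876265504724427643779472137 (.c 4673 .nil)) .nil))))) (.node (.node (.node (.node (.I .com (.c 15246281046337617 (.c 4673 .nil)) .nil) (.I .ass (.c 4673 (.c 9024976834606985 (.c 48 .nil))) .nil)) (.node (.I .ass (.c 9024976834606985 (.c 4673 (.c 48 .nil))) .nil) (.I .com (.c 4673 (.c 9024976834606985 .nil)) (.r 48 .nil)))) (.node (.node (.I .ass (.c 4673 (.c 9024942441010121 (.c 48 .nil))) .nil) (.I .ass (.c 9024942441010121 (.c 4673 (.c 48 .nil))) .nil)) (.node (.I .com (.c 4673 (.c 9024942441010121 .nil)) (.r 48 .nil)) (.I .jac (.c 0 (.c 8 (.c 43356803 .nil))) (.r 13057 .nil))))) (.node (.node (.node (.I .tdb (.c 32 (.c 40 (.c 0 (.c 24 .nil))))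 (.b 8 (.b 16 (.b 48 .nil)))) (.I .adp (.c 15246191640314249 (.c 24 (.c 2113 .nil))) .nil)) (.node (.I .jac (.c 15246191640314249 (.c 8 (.c 16 .nil))) (.r 24 .nil)) (.I .adp (.c 18433 (.c 1363882186 (.c 2113 .nil))) .nil))) (.node (.node (.I .tdb (.c 32 (.c 40 (.c 16 (.c 24 .nil)))) (.b 8 (.l 18433 .nil))) (.I .adp (.c 24 (.c 13057 (.c 2113 .nil))) (.l 18433 .nil))) (.node (.I .jac (.c 2113 (.c 32 (.c 40 .nil))) (.l 24 (.l 18433 .nil))) (.I .com (.c 10206474507614089 (.c 24 .nil)) (.l 18433 .nil))))))) (.node (.node (.node (.node (.node (.I .com (.c 10206437931930569 (.c 24 .nil)) (.l 18433 .nil)) (.I .jac (.c 18433 (.c 8 (.c 16 .nil))) (.r 1363882186 .nil))) (.node (.I .tdp (.c 24 (.c 13057 (.c 18433 (.c 2113 .nil)))) .nil) (.I .tdb (.c 0 (.c 48 (.c 8 (.c 32 .nil)))) (.b 40 (.b 16 (.r 24 .nil)))))) (.node (.node (.I .tdb (.c 8 (.c 16 (.c 13057 (.c 18433 .nil)))) (.r 24 .nil)) (.I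 .tdb (.c 32 (.c 40 (.c 18433 (.c 8 .nil)))) (.b 16 (.r 24 .nil)))) (.node (.I .tdb (.c 32 (.c 40 (.c 18433 (.c 16 .nil)))) (.b 8 (.r 24 .nil))) (.I .tdb (.c 0 (.c 48 (.c 16 (.c 24 .nil)))) (.b 8 (.b 13057 .nil)))))) (.node (.node (.node (.I .tdb (.c 32 (.c 40 (.c 16 (.c 24 .nil)))) (.b 8 (.b 18433 .nil))) (.I .tdb (.c 32 (.c 40 (.c 8 (.c 24 .nil)))) (.b 16 (.b 18433 .nil)))) (.node (.I .tdb (.c 32 (.c 12801 (.c 16 (.c 24 .nil)))) (.b 8 (.l 48 .nil))) (.I .com (.c 35718537 (.c 24 .nil)) (.l 537002313 .nil)))) (.node (.node (.I .tdb (.c 8 (.c 16 (.c 537002313 (.c 24 .nil)))) (.l 48 .nil)) (.I .com (.c 76104792608246240076934339164941802391064041715777732377759665993 (.c 48 .nil)) .nil)) (.node (.I .com (.c 65899851849278097965965088089136996875798728576977422597459785 (.c 48 .nil)) .nil) (.I .com (.c 70295418264026570724123255045077569719790610676815672396375061321 (.c 48 .nil)) .nil)))))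 (.node (.node (.node (.node (.I .com (.c 58240646186293806597287516723534686058996650485499590919533385 (.c 48 .nil)) .nil) (.I .tdb (.c 32 (.c 40 (.c 0 (.c 16 .nil)))) (.b 8 (.b 24 (.b 48 .nil))))) (.node (.I .com (.c 617620517416009 (.c 2756086089 .nil)) .nil) (.I .jac (.c 2105673 (.c 16 (.c 48 .nil))) (.r 8386 .nil)))) (.node (.node (.I .jac (.c 18433 (.c 21099075 (.c 16 .nil))) (.l 32 .nil)) (.I .tdb (.c 40 (.c 18561 (.c 8 (.c 24 .nil)))) (.b 0 (.l 32 .nil)))) (.node (.I .com (.c 82361964593848576266272055259231658498207490894264586793011053257 (.c 32 .nil)) .nil) (.I .com (.c 59109065668238630049 (.c 32 .nil)) .nil)))) (.node (.node (.node (.I .tdb (.c 0 (.c 8 (.c 24 (.c 32 .nil)))) (.b 2756086089 .nil)) (.I .ass (.c 2105609 (.c 1337272713 (.c 24 .nil))) .nil)) (.node (.I .jac (.c 18433 (.c 2803779 (.c 40 .nil))) (.l 32 .nil)) (.I .jac (.c 2049 (.c 43356739 (.c 40 .nil))) (.l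 32 .nil)))) (.node (.node (.I .jac (.c 0 (.c 43356739 (.c 40 .nil))) (.b 16 (.l 32 .nil))) (.I .com (.c 8009034007753174566127033556278891886364927917946915446793 (.c 32 .nil)) .nil)) (.node (.I .jac (.c 513 (.c 40 (.c 48 .nil))) (.l 8786563 .nil)) (.I .tdb (.c 40 (.c 48 (.c 8 (.c 24 .nil)))) (.b 0 (.l 8321 .nil)))))))))

noncomputable def c2_102 : Tr := (.node (.node (.node (.node (.node (.node (.I .tdb (.c 0 (.c 8 (.c 24 (.c 18753 .nil)))) (.l 8321 .nil)) (.I .tdb (.c 40 (.c 48 (.c 0 (.c 24 .nil)))) (.b 8 (.l 8321 .nil)))) (.node (.I .adp (.c 24 (.c 18753 (.c 513 .nil))) (.l 8321 .nil)) (.I .com (.c 35470870263817 (.c 24 .nil)) (.l 8321 .nil)))) (.node (.node (.I .ass (.c 8321 (.c 35470870263817 (.c 24 .nil))) .nil) (.I .ass (.c 35470870263817 (.c 8321 (.c 24 .nil))) .nil)) (.node (.I .com (.c 8321 (.c 35470870263817 .nil)) (.r 24 .nil)) (.I .ass (.c 8321 (.c 2105545 (.c 18753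 .nil))) .nil)))) (.node (.node (.node (.I .ass (.c 2105545 (.c 8321 (.c 18753 .nil))) .nil) (.I .com (.c 8321 (.c 2105545 .nil)) (.r 18753 .nil))) (.node (.I .jac (.c 0 (.c 8786499 (.c 16 .nil))) (.l 18753 .nil)) (.I .tdb (.c 16 (.c 32 (.c 8 (.c 24 .nil)))) (.b 0 (.l 18753 .nil))))) (.node (.node (.I .tdb (.c 0 (.c 8 (.c 24 (.c 8321 .nil)))) (.l 18753 .nil)) (.I .tdb (.c 16 (.c 32 (.c 0 (.c 24 .nil)))) (.b 8 (.l 18753 .nil)))) (.node (.I .com (.c 617620517432401 (.c 18753 .nil)) .nil) (.I .com (.c 3051551917824233633037003976393 (.c 18753 .nil)) .nil))))) (.node (.node (.node (.node (.I .com (.c 31637737730335181391477946057 (.c 18753 .nil)) .nil) (.I .com (.c 3051640828265749411890955904777 (.c 18753 .nil)) .nil)) (.node (.I .com (.c 62889413512273 (.c 18753 .nil)) .nil) (.I .jac (.c 0 (.c 8786499 (.c 16 .nil))) (.b 18753 .nil)))) (.node (.node (.I .tdb (.c 40 (.c 48 (.c 8 (.c 32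 .nil)))) (.b 0 (.l 4737 .nil))) (.I .tdb (.c 0 (.c 8 (.c 32 (.c 18753 .nil)))) (.l 4737 .nil))) (.node (.I .jac (.c 513 (.c 40 (.c 48 .nil))) (.l 32 (.l 4737 .nil))) (.I .com (.c 35470870263817 (.c 32 .nil)) (.l 4737 .nil))))) (.node (.node (.node (.I .ass (.c 4737 (.c 35473026505673 (.c 32 .nil))) .nil) (.I .ass (.c 35473026505673 (.c 4737 (.c 32 .nil))) .nil)) (.node (.I .com (.c 4737 (.c 35473026505673 .nil)) (.r 32 .nil)) (.I .jac (.c 0 (.c 8652867 (.c 24 .nil))) (.l 18753 .nil)))) (.node (.node (.I .com (.c 598976858594385 (.c 18753 .nil)) .nil) (.I .com (.c 2870186216699415475033029961545 (.c 18753 .nil)) .nil)) (.node (.I .tdb (.c 0 (.c 8 (.c 4737 (.c 32 .nil)))) (.b 18753 .nil)) (.I .tdb (.c 16 (.c 24 (.c 32 (.c 0 .nil)))) (.b 8 (.b 18753 .nil)))))))) (.node (.node (.node (.node (.node (.I .tdb (.c 16 (.c 24 (.c 32 (.c 8 .nil)))) (.b 0 (.b 18753 .nil))) (.I .adp (.c 2737112393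 (.c 8386 (.c 2049 .nil))) .nil)) (.node (.I .tdb (.c 0 (.c 16 (.c 32 (.c 24 .nil)))) (.l 2737112393 .nil)) (.I .adp (.c 24 (.c 32 (.c 2049 .nil))) (.l 2737112393 .nil)))) (.node (.node (.I .com (.c 33587465 (.c 24 .nil)) (.l 2737112393 .nil)) (.I .com (.c 617611520073929 (.c 2737112393 .nil)) .nil)) (.node (.I .ass (.c 2737112393 (.c 33587465 (.c 24 .nil))) .nil) (.I .ass (.c 33587465 (.c 2737112393 (.c 24 .nil))) .nil)))) (.node (.node (.node (.I .com (.c 2737112393 (.c 33587465 .nil)) (.r 24 .nil)) (.I .ass (.c 2737112393 (.c 33587401 (.c 32 .nil))) .nil)) (.node (.I .ass (.c 33587401 (.c 2737112393 (.c 32 .nil))) .nil) (.I .com (.c 2737112393 (.c 33587401 .nil)) (.r 32 .nil)))) (.node (.node (.I .jac (.c 33587529 (.c 8 (.c 48 .nil))) (.r 8386 .nil)) (.I .jac (.c 21099011 (.c 8 (.c 48 .nil))) (.b 16 (.l 32 .nil)))) (.node (.I .tdb (.c 40 (.c 18497 (.c 16 (.c 24 .nil)))) (.b 0 (.l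 32 .nil))) (.I .com (.c 82361964593842655846796627385029214460608705653583385784706843401 (.c 32 .nil)) .nil))))) (.node (.node (.node (.node (.I .com (.c 59109062884797725345 (.c 32 .nil)) .nil) (.I .com (.c 82365961958573271866848171381055354748087270758082819239859867657 (.c 32 .nil)) .nil)) (.node (.I .ass (.c 33587401 (.c 1324066185 (.c 32 .nil))) .nil) (.I .jac (.c 33587593 (.c 8 (.c 40 .nil))) (.r 8386 .nil)))) (.node (.node (.I .com (.c 15038498947891857 (.c 32 .nil)) .nil) (.I .tdb (.c 0 (.c 16 (.c 32 (.c 24 .nil)))) (.b 1324066185 .nil))) (.node (.I .adp (.c 8786499 (.c 18753 (.c 2049 .nil))) .nil) (.I .jac (.c 2049 (.c 40 (.c 48 .nil))) (.l 8786499 .nil))))) (.node (.node (.node (.I .com (.c 9025011228269513 (.c 8786499 .nil)) .nil) (.I .com (.c 9024976834607113 (.c 8786499 .nil)) .nil)) (.node (.I .com (.c 9025011228269513 (.c 24 .nil)) (.l 8257 .nil)) (.I .com (.c 9024976834607113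 (.c 24 .nil)) (.l 8257 .nil)))) (.node (.node (.I .ass (.c 8257 (.c 9024976834607113 (.c 24 .nil))) .nil) (.I .ass (.c 9024976834607113 (.c 8257 (.c 24 .nil))) .nil)) (.node (.I .com (.c 8257 (.c 9024976834607113 .nil)) (.r 24 .nil)) (.I .ass (.c 8257 (.c 33587401 (.c 18753 .nil))) .nil)))))))

noncomputable def c2_103 : Tr := (.node (.node (.node (.node (.node (.node (.I .ass (.c 33587401 (.c 8257 (.c 18753 .nil))) .nil) (.I .com (.c 8257 (.c 33587401 .nil)) (.r 18753 .nil))) (.node (.I .tdb (.c 0 (.c 16 (.c 8257 (.c 24 .nil)))) (.l 18753 .nil)) (.I .com (.c 617629514827857 (.c 18753 .nil)) .nil))) (.node (.node (.I .com (.c 3051551917823601198840448305929 (.c 18753 .nil)) .nil) (.I .tdb (.c 40 (.c 48 (.c 0 (.c 32 .nil)))) (.b 8 (.b 16 (.r 24 .nil))))) (.node (.I .jac (.c 0 (.c 8 (.c 8786563 .nil))) (.b 18753 .nil)) (.I .adp (.c 32 (.c 18753 (.c 2049 .nil))) (.l 4673 .nil))))) (.node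 (.node (.node (.I .jac (.c 2049 (.c 40 (.c 48 .nil))) (.l 32 (.l 4673 .nil))) (.I .com (.c 9025011228269513 (.c 32 .nil)) (.l 4673 .nil))) (.node (.I .ass (.c 4673 (.c 9024976834607113 (.c 32 .nil))) .nil) (.I .ass (.c 9024976834607113 (.c 4673 (.c 32 .nil))) .nil))) (.node (.node (.I .com (.c 4673 (.c 9024976834607113 .nil)) (.r 32 .nil)) (.I .com (.c 2698162480889597495046571987721 (.c 18753 .nil)) .nil)) (.node (.I .tdb (.c 40 (.c 48 (.c 0 (.c 8 .nil)))) (.b 24 (.b 16 (.r 32 .nil)))) (.I .jac (.c 8 (.c 21099139 (.c 48 .nil))) (.b 0 (.r 32 .nil))))))) (.node (.node (.node (.node (.I .tdb (.c 40 (.c 48 (.c 0 (.c 24 .nil)))) (.b 8 (.b 16 (.r 32 .nil)))) (.I .com (.c 8786435 (.c 18753 .nil)) (.b 2113 .nil))) (.node (.I .adp (.c 2718204233 (.c 8386 (.c 2113 .nil))) .nil) (.I .tdb (.c 8 (.c 16 (.c 32 (.c 24 .nil)))) (.l 2718204233 .nil)))) (.node (.node (.I .adp (.c 24 (.c 32 (.c 2113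 .nil))) (.l 2718204233 .nil)) (.I .jac (.c 2718204233 (.c 8 (.c 16 .nil))) (.r 8386 .nil))) (.node (.I .tdp (.c 24 (.c 32 (.c 2718204233 (.c 2113 .nil)))) .nil) (.I .tdb (.c 40 (.c 18433 (.c 8 (.c 24 .nil)))) (.b 16 (.l 32 .nil)))))) (.node (.node (.node (.I .tdb (.c 8 (.c 16 (.c 2718204233 (.c 24 .nil)))) (.l 32 .nil)) (.I .tdb (.c 40 (.c 18433 (.c 16 (.c 32 .nil)))) (.b 8 (.r 24 .nil)))) (.node (.I .tdb (.c 8 (.c 16 (.c 32 (.c 2718204233 .nil)))) (.r 24 .nil)) (.I .adp (.c 1310925193 (.c 8386 (.c 2113 .nil))) .nil))) (.node (.node (.I .tdb (.c 8 (.c 16 (.c 32 (.c 24 .nil)))) (.l 1310925193 .nil)) (.I .adp (.c 24 (.c 32 (.c 2113 .nil))) (.l 1310925193 .nil))) (.node (.I .jac (.c 1310925193 (.c 8 (.c 16 .nil))) (.r 8386 .nil)) (.I .tdp (.c 24 (.c 32 (.c 1310925193 (.c 2113 .nil)))) .nil)))))) (.node (.node (.node (.node (.node (.I .tdb (.c 48 (.c 12801 (.c 8 (.c 24 .nil)))) (.b 16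 (.l 32 .nil))) (.I .tdb (.c 0 (.c 40 (.c 8 (.c 24 .nil)))) (.b 48 (.b 16 (.l 32 .nil))))) (.node (.I .tdb (.c 48 (.c 12801 (.c 16 (.c 24 .nil)))) (.b 8 (.l 32 .nil))) (.I .tdb (.c 0 (.c 40 (.c 16 (.c 24 .nil)))) (.b 48 (.b 8 (.l 32 .nil)))))) (.node (.node (.I .tdb (.c 48 (.c 12801 (.c 8 (.c 32 .nil)))) (.b 16 (.r 24 .nil))) (.I .tdb (.c 0 (.c 40 (.c 8 (.c 32 .nil)))) (.b 48 (.b 16 (.r 24 .nil))))) (.node (.I .tdb (.c 48 (.c 12801 (.c 16 (.c 32 .nil)))) (.b 8 (.r 24 .nil))) (.I .tdb (.c 0 (.c 40 (.c 16 (.c 32 .nil)))) (.b 48 (.b 8 (.r 24 .nil))))))) (.node (.node (.node (.I .tdb (.c 8 (.c 16 (.c 32 (.c 1310925193 .nil)))) (.r 24 .nil)) (.I .tdb (.c 8 (.c 16 (.c 32 (.c 24 .nil)))) (.b 1310925193 .nil))) (.node (.I .tdb (.c 40 (.c 48 (.c 8 (.c 24 .nil)))) (.b 16 (.l 8193 .nil))) (.I .tdb (.c 0 (.c 32 (.c 16 (.c 24 .nil)))) (.b 8 (.l 18753 .nil))))) (.node (.node (.I .tdb (.c 8 (.c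 16 (.c 8193 (.c 24 .nil)))) (.l 18753 .nil)) (.I .tdb (.c 40 (.c 48 (.c 8 (.c 32 .nil)))) (.b 0 (.b 16 (.r 24 .nil))))) (.node (.I .tdb (.c 0 (.c 32 (.c 16 (.c 24 .nil)))) (.b 8 (.b 18753 .nil))) (.I .tdb (.c 8 (.c 16 (.c 32 (.c 18753 .nil)))) (.l 4609 .nil)))))) (.node (.node (.node (.node (.I .tdb (.c 40 (.c 48 (.c 8 (.c 32 .nil)))) (.b 16 (.l 4609 .nil))) (.I .adp (.c 32 (.c 18753 (.c 2113 .nil))) (.l 4609 .nil))) (.node (.I .tdb (.c 40 (.c 48 (.c 0 (.c 8 .nil)))) (.b 16 (.b 24 (.r 32 .nil)))) (.I .tdb (.c 40 (.c 48 (.c 0 (.c 16 .nil)))) (.b 8 (.b 24 (.r 32 .nil)))))) (.node (.node (.I .jac (.c 537002313 (.c 16 (.c 48 .nil))) (.b 4673 .nil)) (.I .jac (.c 169943177 (.c 12865 (.c 48 .nil))) (.r 32 .nil))) (.node (.I .jac (.c 169943177 (.c 8 (.c 40 .nil))) (.b 48 (.r 32 .nil))) (.I .jac (.c 231045989336561417 (.c 8 (.c 48 .nil))) (.r 32 .nil))))) (.node (.node (.node (.I .jac (.c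 169943369 (.c 18497 (.c 16 .nil))) (.r 32 .nil)) (.I .jac (.c 169943369 (.c 8 (.c 48 .nil))) (.b 16 (.r 32 .nil)))) (.node (.I .adp (.c 10206511083363273 (.c 32 (.c 4609 .nil))) .nil) (.I .com (.c 169943305 (.c 10206511083363273 .nil)) .nil))) (.node (.node (.I .jac (.c 169943369 (.c 2113 (.c 48 .nil))) (.r 32 .nil)) (.I .jac (.c 4609 (.c 35718537 (.c 40 .nil))) (.r 32 .nil))) (.node (.I .jac (.c 4609 (.c 2113 (.c 48 .nil))) (.b 40 (.r 32 .nil))) (.I .jac (.c 4609 (.c 8 (.c 16 .nil))) (.b 48 (.b 40 (.r 32 .nil))))))))))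

noncomputable def c2_104 : Tr := (.node (.node (.node (.node (.node (.node (.I .jac (.c 169943369 (.c 16 (.c 48 .nil))) (.l 8257 .nil)) (.I .jac (.c 4609 (.c 18561 (.c 40 .nil))) (.l 8257 .nil))) (.node (.I .com (.c 427057993508084562470663629860471561 (.c 8257 .nil)) .nil) (.I .com (.c 427056063571158386490489209096946633 (.c 8257 .nil)) .nil))) (.node (.node (.I .jac (.c 13748198893136698121 (.c 8 (.c 24 .nil))) (.r 32 .nil)) (.I .jac (.c 59109065668069837769 (.c 8 (.c 24 .nil))) (.r 32 .nil))) (.node (.I .jac (.c 13748193523587632137 (.c 8 (.c 24 .nil))) (.r 32 .nil)) (.I .jac (.c 8193 (.c 8 (.c 24 .nil))) (.r 2756086089 .nil))))) (.node (.node (.node (.I .adp (.c 59934274015313491721 (.c 32 (.c 4609 .nil))) .nil) (.I .com (.c 169943305 (.c 59934274015313491721 .nil)) .nil)) (.node (.I .jac (.c 169943433 (.c 2113 (.c 40 .nil))) (.r 32 .nil)) (.I .jac (.c 4609 (.c 35718473 (.c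 48 .nil))) (.r 32 .nil)))) (.node (.node (.I .jac (.c 4609 (.c 2113 (.c 40 .nil))) (.b 48 (.r 32 .nil))) (.I .jac (.c 4609 (.c 8 (.c 16 .nil))) (.b 40 (.b 48 (.r 32 .nil))))) (.node (.I .jac (.c 4609 (.c 8 (.c 32 .nil))) (.r 1337272713 .nil)) (.I .adp (.c 9024976834607113 (.c 32 (.c 4673 .nil))) .nil))))) (.node (.node (.node (.node (.I .jac (.c 4673 (.c 12929 (.c 48 .nil))) (.l 8193 .nil)) (.I .jac (.c 4673 (.c 16 (.c 40 .nil))) (.b 48 (.l 8193 .nil)))) (.node (.I .adp (.c 15456208906582153 (.c 32 (.c 4609 .nil))) .nil) (.I .com (.c 169943305 (.c 15456208906582153 .nil)) .nil))) (.node (.node (.I .adp (.c 2379905498923997961 (.c 40 (.c 4609 .nil))) .nil) (.I .com (.c 169943369 (.c 2379905498923997961 .nil)) .nil)) (.node (.I .jac (.c 231045467270827017 (.c 8 (.c 32 .nil))) (.r 40 .nil)) (.I .jac (.c 169943433 (.c 8 (.c 32 .nil))) (.b 16 (.r 40 .nil)))))) (.node (.node (.node (.I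 .adp (.c 59934265606904515465 (.c 40 (.c 4609 .nil))) .nil) (.I .com (.c 169943369 (.c 59934265606904515465 .nil)) .nil)) (.node (.I .jac (.c 169943305 (.c 18497 (.c 16 .nil))) (.r 40 .nil)) (.I .jac (.c 169943305 (.c 8 (.c 48 .nil))) (.b 16 (.r 40 .nil))))) (.node (.node (.I .jac (.c 169943433 (.c 8 (.c 16 .nil))) (.b 32 (.r 40 .nil))) (.I .jac (.c 4609 (.c 35718537 (.c 32 .nil))) (.r 40 .nil))) (.node (.I .jac (.c 4609 (.c 2113 (.c 48 .nil))) (.b 32 (.r 40 .nil))) (.I .jac (.c 4609 (.c 8 (.c 16 .nil))) (.b 48 (.b 32 (.r 40 .nil))))))))) (.node (.node (.node (.node (.node (.I .jac (.c 231046163358604041 (.c 8 (.c 32 .nil))) (.r 40 .nil)) (.I .jac (.c 169943433 (.c 8257 (.c 16 .nil))) (.r 40 .nil))) (.node (.I .jac (.c 4609 (.c 18561 (.c 32 .nil))) (.l 12865 .nil)) (.I .jac (.c 4609 (.c 16 (.c 48 .nil))) (.b 32 (.l 12865 .nil))))) (.node (.node (.I .com (.c 427057350195049030035896088956977929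 (.c 12865 .nil)) .nil) (.I .com (.c 427058636821845956378289793772237705 (.c 12865 .nil)) .nil)) (.node (.I .com (.c 427056063571158386490489209096946569 (.c 12865 .nil)) .nil) (.I .jac (.c 8193 (.c 16 (.c 48 .nil))) (.r 40 (.b 4673 .nil)))))) (.node (.node (.node (.I .jac (.c 59109065668069837705 (.c 8 (.c 24 .nil))) (.r 40 .nil)) (.I .adp (.c 9025011228269449 (.c 40 (.c 4673 .nil))) .nil)) (.node (.I .jac (.c 2306970223667989513 (.c 8 (.c 24 .nil))) (.r 40 .nil)) (.I .jac (.c 174695689 (.c 16 (.c 48 .nil))) (.l 12801 .nil)))) (.node (.node (.I .jac (.c 4673 (.c 18561 (.c 32 .nil))) (.l 12801 .nil)) (.I .jac (.c 4673 (.c 16 (.c 48 .nil))) (.b 32 (.l 12801 .nil)))) (.node (.I .adp (.c 59934271212510434057 (.c 40 (.c 4609 .nil))) .nil) (.I .com (.c 169943369 (.c 59934271212510434057 .nil)) .nil))))) (.node (.node (.node (.node (.I .jac (.c 4609 (.c 16 (.c 32 .nil))) (.b 48 (.l 12865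 .nil))) (.I .com (.c 427058636821846429560832352193444617 (.c 12865 .nil)) .nil)) (.node (.I .jac (.c 4609 (.c 8 (.c 40 .nil))) (.r 553912713 .nil)) (.I .adp (.c 59109071234951844617 (.c 40 (.c 4673 .nil))) .nil))) (.node (.node (.I .jac (.c 174695817 (.c 16 (.c 32 .nil))) (.l 12801 .nil)) (.I .jac (.c 4673 (.c 8321 (.c 48 .nil))) (.l 12801 .nil))) (.node (.I .jac (.c 4673 (.c 16 (.c 32 .nil))) (.b 48 (.l 12801 .nil))) (.I .jac (.c 12801 (.c 8 (.c 24 .nil))) (.r 553912713 .nil))))) (.node (.node (.node (.I .adp (.c 15246281046235273 (.c 40 (.c 4609 .nil))) .nil) (.I .com (.c 169943369 (.c 15246281046235273 .nil)) .nil)) (.node (.I .adp (.c 15246281046235209 (.c 40 (.c 4673 .nil))) .nil) (.I .jac (.c 12801 (.c 8 (.c 24 .nil))) (.r 43655299 .nil)))) (.node (.node (.I .tdb (.c 32 (.c 40 (.c 18561 (.c 8 .nil)))) (.b 4609 .nil)) (.I .adp (.c 2737112201 (.c 13057 (.c 4609 .nil))) .nil))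 (.node (.I .com (.c 231045989336561545 (.c 2737112201 .nil)) .nil) (.I .jac (.c 4609 (.c 18497 (.c 16 .nil))) (.r 13057 .nil))))))))

noncomputable def c2_105 : Tr := (.node (.node (.node (.node (.node (.node (.I .adp (.c 35718537 (.c 13057 (.c 4609 .nil))) .nil) (.I .com (.c 231045989336561545 (.c 35718537 .nil)) .nil)) (.node (.I .com (.c 231046163358604041 (.c 1324066057 .nil)) .nil) (.I .jac (.c 4609 (.c 16 (.c 48 .nil))) (.l 545424713 .nil)))) (.node (.node (.I .com (.c 231045467270827017 (.c 545424713 .nil)) .nil) (.I .jac (.c 169943369 (.c 8 (.c 32 .nil))) (.r 18561 .nil))) (.node (.I .tdb (.c 32 (.c 40 (.c 18561 (.c 0 .nil)))) (.b 4673 .nil)) (.I .com (.c 537002313 (.c 18561 .nil)) (.b 4673 .nil))))) (.node (.node (.node (.I .jac (.c 2718204041 (.c 8 (.c 24 .nil))) (.r 13057 .nil)) (.I .adp (.c 33587593 (.c 13057 (.c 4673 .nil))) .nil)) (.node (.I .jac (.c 4673 (.c 32 (.c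 40 .nil))) (.l 33587593 .nil)) (.I .adp (.c 1310925065 (.c 18561 (.c 4673 .nil))) .nil))) (.node (.node (.I .jac (.c 4673 (.c 16 (.c 48 .nil))) (.l 1310925065 .nil)) (.I .jac (.c 1310925065 (.c 8 (.c 24 .nil))) (.r 18561 .nil))) (.node (.I .jac (.c 537002313 (.c 8 (.c 24 .nil))) (.r 18561 .nil)) (.I .com (.c 598976858557897 (.c 40 .nil)) (.b 4609 .nil)))))) (.node (.node (.node (.node (.I .adp (.c 3491710045130185 (.c 32 (.c 4609 .nil))) .nil) (.I .com (.c 169943305 (.c 3491710045130185 .nil)) .nil)) (.node (.I .jac (.c 4609 (.c 8652867 (.c 48 .nil))) (.r 40 .nil)) (.I .adp (.c 2737112201 (.c 13058 (.c 4609 .nil))) .nil))) (.node (.node (.I .tdb (.c 0 (.c 24 (.c 32 (.c 40 .nil)))) (.l 2737112201 .nil)) (.I .adp (.c 32 (.c 40 (.c 4609 .nil))) (.l 2737112201 .nil))) (.node (.I .com (.c 169943369 (.c 32 .nil)) (.l 2737112201 .nil)) (.I .ass (.c 2737112201 (.c 169943369 (.c 32 .nil)))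 .nil)))) (.node (.node (.node (.I .ass (.c 169943369 (.c 2737112201 (.c 32 .nil))) .nil) (.I .com (.c 2737112201 (.c 169943369 .nil)) (.r 32 .nil))) (.node (.I .ass (.c 2737112201 (.c 169943305 (.c 40 .nil))) .nil) (.I .ass (.c 169943305 (.c 2737112201 (.c 40 .nil))) .nil))) (.node (.node (.I .com (.c 2737112201 (.c 169943305 .nil)) (.r 40 .nil)) (.I .jac (.c 0 (.c 15246325749294217 (.c 16 .nil))) (.l 40 .nil))) (.node (.I .tdb (.c 8 (.c 48 (.c 0 (.c 32 .nil)))) (.b 16 (.b 24 (.l 40 .nil)))) (.I .com (.c 27665004120184535784999080124867512354491053894607710614050984316681 (.c 40 .nil)) .nil)))))) (.node (.node (.node (.node (.node (.I .com (.c 27664030750836998620697701184367852582684746673282131496362201723721 (.c 40 .nil)) .nil) (.I .com (.c 15246326017992337 (.c 40 .nil)) .nil)) (.node (.I .jac (.c 20891651 (.c 8 (.c 48 .nil))) (.b 24 (.r 32 .nil))) (.I .tdb (.c 16 (.c 18497 (.c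 24 (.c 40 .nil)))) (.b 0 (.r 32 .nil))))) (.node (.node (.I .tdb (.c 8 (.c 48 (.c 24 (.c 40 .nil)))) (.b 16 (.b 0 (.r 32 .nil)))) (.I .tdb (.c 8 (.c 48 (.c 0 (.c 40 .nil)))) (.b 16 (.b 24 (.r 32 .nil))))) (.node (.I .jac (.c 0 (.c 2113 (.c 43655363 .nil))) (.l 40 .nil)) (.I .jac (.c 0 (.c 8 (.c 16 .nil))) (.b 43655363 (.l 40 .nil)))))) (.node (.node (.node (.I .com (.c 58240646186216787513332372176437605379642580613035000544559945 (.c 40 .nil)) .nil) (.I .com (.c 15246325766138001 (.c 40 .nil)) .nil)) (.node (.I .jac (.c 0 (.c 2113 (.c 43954883 .nil))) (.r 32 .nil)) (.I .jac (.c 0 (.c 8 (.c 16 .nil))) (.b 43954883 (.r 32 .nil))))) (.node (.node (.I .tdb (.c 0 (.c 24 (.c 32 (.c 40 .nil)))) (.b 35718537 .nil)) (.I .jac (.c 0 (.c 16 (.c 43655363 .nil))) (.l 12865 .nil))) (.node (.I .tdb (.c 16 (.c 48 (.c 24 (.c 32 .nil)))) (.b 0 (.l 12865 .nil))) (.I .tdb (.c 16 (.c 48 (.c 0 (.c 32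 .nil)))) (.b 24 (.l 12865 .nil))))))) (.node (.node (.node (.node (.I .com (.c 1859570876265457888126924734394185 (.c 12865 .nil)) .nil) (.I .com (.c 2870101301550745431484650323785 (.c 12865 .nil)) .nil)) (.node (.I .ass (.c 12865 (.c 231046163358604041 (.c 32 .nil))) .nil) (.I .com (.c 12865 (.c 231046163358604041 .nil)) (.r 32 .nil)))) (.node (.node (.I .ass (.c 231045467270827017 (.c 12865 (.c 32 .nil))) .nil) (.I .ass (.c 12865 (.c 169943305 (.c 18561 .nil))) .nil)) (.node (.I .ass (.c 169943305 (.c 12865 (.c 18561 .nil))) .nil) (.I .com (.c 12865 (.c 169943305 .nil)) (.r 18561 .nil))))) (.node (.node (.node (.I .jac (.c 15456253916349513 (.c 8 (.c 16 .nil))) (.l 32 .nil)) (.I .jac (.c 2049 (.c 8 (.c 43954883 .nil))) (.l 32 .nil))) (.node (.I .jac (.c 0 (.c 15456253916349577 (.c 16 .nil))) (.l 32 .nil)) (.I .jac (.c 0 (.c 8 (.c 43954883 .nil))) (.b 16 (.l 32 .nil))))) (.node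 (.node (.I .jac (.c 0 (.c 2113 (.c 43954883 .nil))) (.l 32 .nil)) (.I .jac (.c 0 (.c 8 (.c 16 .nil))) (.b 43954883 (.l 32 .nil)))) (.node (.I .tdb (.c 16 (.c 48 (.c 0 (.c 8 .nil)))) (.b 40 (.b 24 (.l 32 .nil)))) (.I .tdb (.c 0 (.c 24 (.c 12865 (.c 18561 .nil)))) (.l 32 .nil))))))))

noncomputable def c2_106 : Tr := (.node (.node (.node (.node (.node (.node (.I .tdb (.c 8 (.c 40 (.c 18561 (.c 0 .nil)))) (.b 24 (.l 32 .nil))) (.I .jac (.c 8 (.c 16 (.c 43954883 .nil))) (.b 0 (.l 32 .nil)))) (.node (.I .tdb (.c 8 (.c 40 (.c 18561 (.c 24 .nil)))) (.b 0 (.l 32 .nil))) (.I .tdb (.c 16 (.c 48 (.c 24 (.c 40 .nil)))) (.b 8 (.b 0 (.l 32 .nil)))))) (.node (.node (.I .com (.c 1911166281017411009875214771752265 (.c 32 .nil)) .nil) (.I .com (.c 29219431338612430885229781418972302774892659174088204307516624129865 (.c 32 .nil)) .nil)) (.node (.I .com (.c 15456253933193361 (.c 32 .nil)) .nil) (.I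 .jac (.c 0 (.c 8786499 (.c 40 .nil))) (.r 18561 .nil))))) (.node (.node (.node (.I .jac (.c 0 (.c 8 (.c 21307587 .nil))) (.r 18561 .nil)) (.I .tdb (.c 8 (.c 40 (.c 24 (.c 32 .nil)))) (.b 0 (.b 18561 .nil)))) (.node (.I .tdb (.c 0 (.c 24 (.c 32 (.c 12865 .nil)))) (.b 18561 .nil)) (.I .jac (.c 0 (.c 16 (.c 43655363 .nil))) (.b 12865 .nil)))) (.node (.node (.I .tdb (.c 16 (.c 48 (.c 24 (.c 32 .nil)))) (.b 0 (.b 12865 .nil))) (.I .tdb (.c 0 (.c 24 (.c 32 (.c 18561 .nil)))) (.b 12865 .nil))) (.node (.I .tdb (.c 16 (.c 48 (.c 24 (.c 40 .nil)))) (.b 0 (.l 8257 .nil))) (.I .tdb (.c 0 (.c 24 (.c 40 (.c 18561 .nil)))) (.l 8257 .nil)))))) (.node (.node (.node (.node (.I .jac (.c 4609 (.c 16 (.c 48 .nil))) (.r 40 (.l 8257 .nil))) (.I .com (.c 1911132888452959950435573782212425 (.c 8257 .nil)) .nil)) (.node (.I .com (.c 97535117142658802225506092678985 (.c 8257 .nil)) .nil) (.I .ass (.c 8257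 (.c 231046163358604041 (.c 40 .nil))) .nil))) (.node (.node (.I .com (.c 8257 (.c 231046163358604041 .nil)) (.r 40 .nil)) (.I .ass (.c 231045467270827017 (.c 8257 (.c 40 .nil))) .nil)) (.node (.I .ass (.c 8257 (.c 169943369 (.c 18561 .nil))) .nil) (.I .ass (.c 169943369 (.c 8257 (.c 18561 .nil))) .nil)))) (.node (.node (.node (.I .com (.c 8257 (.c 169943369 .nil)) (.r 18561 .nil)) (.I .tdb (.c 0 (.c 24 (.c 8257 (.c 18561 .nil)))) (.l 40 .nil))) (.node (.I .tdb (.c 8 (.c 32 (.c 18561 (.c 0 .nil)))) (.b 24 (.l 40 .nil))) (.I .jac (.c 8 (.c 16 (.c 43655363 .nil))) (.b 0 (.l 40 .nil))))) (.node (.node (.I .tdb (.c 8 (.c 32 (.c 18561 (.c 24 .nil)))) (.b 0 (.l 40 .nil))) (.I .tdb (.c 16 (.c 48 (.c 24 (.c 32 .nil)))) (.b 8 (.b 0 (.l 40 .nil))))) (.node (.I .com (.c 23450673742497901511923054532232076333984047486105146387517680433993 (.c 40 .nil)) .nil) (.I .tdb (.c 0 (.c 24 (.c 40 (.c 8257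 .nil)))) (.b 18561 .nil))))))) (.node (.node (.node (.node (.node (.I .tdb (.c 8 (.c 32 (.c 24 (.c 40 .nil)))) (.b 0 (.b 18561 .nil))) (.I .tdb (.c 0 (.c 24 (.c 8257 (.c 18561 .nil)))) (.b 40 .nil))) (.node (.I .jac (.c 8 (.c 16 (.c 43655363 .nil))) (.b 0 (.b 40 .nil))) (.I .tdb (.c 8 (.c 32 (.c 18561 (.c 24 .nil)))) (.b 0 (.b 40 .nil))))) (.node (.node (.I .tdb (.c 16 (.c 48 (.c 24 (.c 32 .nil)))) (.b 8 (.b 0 (.b 40 .nil)))) (.I .tdb (.c 8 (.c 32 (.c 18561 (.c 40 .nil)))) (.b 4609 .nil))) (.node (.I .tdb (.c 0 (.c 24 (.c 40 (.c 18561 .nil)))) (.b 8257 .nil)) (.I .com (.c 21307395 (.c 18561 .nil)) (.b 4673 .nil))))) (.node (.node (.node (.I .com (.c 598967998054857 (.c 40 .nil)) (.b 4673 .nil)) (.I .adp (.c 15456118887243977 (.c 32 (.c 4673 .nil))) .nil)) (.node (.I .jac (.c 15456118887243977 (.c 8 (.c 24 .nil))) (.r 32 .nil)) (.I .adp (.c 15246191640314057 (.c 40 (.c 4673 .nil)))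 .nil))) (.node (.node (.I .adp (.c 598967998054857 (.c 40 (.c 4673 .nil))) .nil) (.I .jac (.c 598967998054857 (.c 8 (.c 24 .nil))) (.r 40 .nil))) (.node (.I .tdb (.c 8 (.c 24 (.c 32 (.c 40 .nil)))) (.l 2718204041 .nil)) (.I .com (.c 174695753 (.c 32 .nil)) (.l 2718204041 .nil)))))) (.node (.node (.node (.node (.I .jac (.c 2718204041 (.c 8 (.c 24 .nil))) (.r 13058 .nil)) (.I .tdp (.c 32 (.c 40 (.c 2718204041 (.c 4673 .nil)))) .nil)) (.node (.I .tdb (.c 16 (.c 18433 (.c 8 (.c 32 .nil)))) (.b 24 (.l 40 .nil))) (.I .tdb (.c 0 (.c 48 (.c 24 (.c 32 .nil)))) (.b 16 (.b 8 (.l 40 .nil)))))) (.node (.node (.I .tdb (.c 16 (.c 18433 (.c 8 (.c 40 .nil)))) (.b 24 (.r 32 .nil))) (.I .tdb (.c 0 (.c 48 (.c 8 (.c 40 .nil)))) (.b 16 (.b 24 (.r 32 .nil))))) (.node (.I .tdb (.c 8 (.c 24 (.c 40 (.c 2718204041 .nil)))) (.r 32 .nil)) (.I .tdb (.c 8 (.c 24 (.c 32 (.c 40 .nil)))) (.b 2718204041 .nil)))))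 (.node (.node (.node (.I .com (.c 174695753 (.c 32 .nil)) (.l 33587593 .nil)) (.I .tdb (.c 2049 (.c 48 (.c 24 (.c 32 .nil)))) (.b 8 (.l 40 .nil)))) (.node (.I .tdb (.c 0 (.c 16 (.c 32 (.c 24 .nil)))) (.b 48 (.b 8 (.l 40 .nil)))) (.I .tdb (.c 2049 (.c 48 (.c 24 (.c 40 .nil)))) (.b 8 (.r 32 .nil))))) (.node (.node (.I .tdb (.c 0 (.c 16 (.c 40 (.c 24 .nil)))) (.b 48 (.b 8 (.r 32 .nil)))) (.I .adp (.c 21307395 (.c 18561 (.c 4673 .nil))) .nil)) (.node (.I .adp (.c 12801 (.c 2756234514 (.c 4673 .nil))) .nil) (.I .jac (.c 8 (.c 16 (.c 43655363 .nil))) (.l 12801 .nil))))))))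

noncomputable def c2_107 : Tr := (.node (.node (.node (.node (.node (.node (.I .tdb (.c 16 (.c 48 (.c 24 (.c 32 .nil)))) (.b 8 (.l 12801 .nil))) (.I .tdb (.c 8 (.c 24 (.c 32 (.c 18561 .nil)))) (.l 12801 .nil))) (.node (.I .adp (.c 18561 (.c 32 (.c 4673 .nil))) (.l 12801 .nil)) (.I .com (.c 174695689 (.c 18561 .nil)) (.l 12801 .nil)))) (.node (.node (.I .jac (.c 12801 (.c 8 (.c 24 .nil))) (.r 2756234514 .nil)) (.I .tdp (.c 18561 (.c 32 (.c 4673 (.c 12801 .nil)))) .nil)) (.node (.I .tdb (.c 0 (.c 40 (.c 18561 (.c 8 .nil)))) (.b 24 (.l 32 .nil))) (.I .tdb (.c 16 (.c 48 (.c 24 (.c 40 .nil)))) (.b 0 (.b 8 (.l 32 .nil))))))) (.node (.node (.node (.I .tdb (.c 0 (.c 40 (.c 24 (.c 32 .nil)))) (.b 8 (.r 18561 .nil))) (.I .tdb (.c 8 (.c 24 (.c 32 (.c 12801 .nil)))) (.r 18561 .nil))) (.node (.I .jac (.c 8 (.c 16 (.c 43655363 .nil))) (.b 12801 .nil)) (.I .tdb (.c 16 (.c 48 (.c 24 (.c 32 .nil))))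 (.b 8 (.b 12801 .nil))))) (.node (.node (.I .tdb (.c 8 (.c 24 (.c 32 (.c 18561 .nil)))) (.b 12801 .nil)) (.I .adp (.c 8193 (.c 2756234578 (.c 4673 .nil))) .nil)) (.node (.I .tdb (.c 16 (.c 48 (.c 24 (.c 40 .nil)))) (.b 8 (.l 8193 .nil))) (.I .tdb (.c 8 (.c 24 (.c 40 (.c 18561 .nil)))) (.l 8193 .nil)))))) (.node (.node (.node (.node (.I .adp (.c 18561 (.c 40 (.c 4673 .nil))) (.l 8193 .nil)) (.I .com (.c 174695753 (.c 18561 .nil)) (.l 8193 .nil))) (.node (.I .jac (.c 8193 (.c 8 (.c 24 .nil))) (.r 2756234578 .nil)) (.I .tdp (.c 18561 (.c 40 (.c 4673 (.c 8193 .nil)))) .nil))) (.node (.node (.I .tdb (.c 16 (.c 48 (.c 8 (.c 32 .nil)))) (.b 0 (.b 24 (.l 40 .nil)))) (.I .tdb (.c 16 (.c 48 (.c 24 (.c 32 .nil)))) (.b 0 (.b 8 (.l 40 .nil))))) (.node (.I .tdb (.c 0 (.c 32 (.c 24 (.c 40 .nil)))) (.b 8 (.r 18561 .nil))) (.I .tdb (.c 8 (.c 24 (.c 40 (.c 8193 .nil)))) (.r 18561 .nil))))) (.node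 (.node (.node (.I .tdb (.c 0 (.c 32 (.c 24 (.c 40 .nil)))) (.b 8 (.b 18561 .nil))) (.I .tdb (.c 0 (.c 32 (.c 18561 (.c 40 .nil)))) (.b 4673 .nil))) (.node (.I .jac (.c 169943305 (.c 16 (.c 40 .nil))) (.l 18497 .nil)) (.I .jac (.c 4609 (.c 12929 (.c 32 .nil))) (.l 18497 .nil)))) (.node (.node (.I .com (.c 427057350195048793444981206822395657 (.c 18497 .nil)) .nil) (.I .com (.c 427057993508083616106291307304383369 (.c 18497 .nil)) .nil)) (.node (.I .com (.c 427056063571158149899930723770113929 (.c 18497 .nil)) .nil) (.I .com (.c 427057350195048083672236560419042249 (.c 18497 .nil)) .nil)))))) (.node (.node (.node (.node (.node (.I .jac (.c 169943369 (.c 8 (.c 32 .nil))) (.b 16 (.r 48 .nil))) (.I .jac (.c 169943177 (.c 8 (.c 32 .nil))) (.b 40 (.r 48 .nil)))) (.node (.I .jac (.c 4609 (.c 545424713 (.c 16 .nil))) (.r 48 .nil)) (.I .jac (.c 4609 (.c 8257 (.c 40 .nil))) (.b 16 (.r 48 .nil)))))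 (.node (.node (.I .jac (.c 4609 (.c 8 (.c 32 .nil))) (.b 40 (.b 16 (.r 48 .nil)))) (.I .jac (.c 231045815314584329 (.c 8 (.c 40 .nil))) (.r 48 .nil))) (.node (.I .jac (.c 169943305 (.c 12865 (.c 16 .nil))) (.r 48 .nil)) (.I .jac (.c 169943177 (.c 8 (.c 40 .nil))) (.b 32 (.r 48 .nil)))))) (.node (.node (.node (.I .jac (.c 4609 (.c 1324065929 (.c 32 .nil))) (.r 48 .nil)) (.I .jac (.c 4609 (.c 12865 (.c 16 .nil))) (.b 32 (.r 48 .nil)))) (.node (.I .jac (.c 4609 (.c 8 (.c 40 .nil))) (.b 16 (.b 32 (.r 48 .nil)))) (.I .jac (.c 169943369 (.c 8 (.c 16 .nil))) (.b 32 (.r 48 .nil))))) (.node (.node (.I .jac (.c 169943305 (.c 8 (.c 16 .nil))) (.b 40 (.r 48 .nil))) (.I .jac (.c 4609 (.c 35718473 (.c 32 .nil))) (.r 48 .nil))) (.node (.I .jac (.c 4609 (.c 2113 (.c 40 .nil))) (.b 32 (.r 48 .nil))) (.I .jac (.c 4609 (.c 8 (.c 16 .nil))) (.b 40 (.b 32 (.r 48 .nil)))))))) (.node (.node (.node (.node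 (.I .jac (.c 231045989336561417 (.c 8 (.c 32 .nil))) (.r 48 .nil)) (.I .jac (.c 4609 (.c 545424521 (.c 40 .nil))) (.r 48 .nil))) (.node (.I .jac (.c 4609 (.c 8257 (.c 16 .nil))) (.b 40 (.r 48 .nil))) (.I .jac (.c 4609 (.c 8 (.c 32 .nil))) (.b 16 (.b 40 (.r 48 .nil)))))) (.node (.node (.I .tdb (.c 16 (.c 40 (.c 0 (.c 48 .nil)))) (.b 32 (.b 4673 .nil))) (.I .jac (.c 174695689 (.c 16 (.c 40 .nil))) (.l 18433 .nil))) (.node (.I .jac (.c 4673 (.c 12929 (.c 32 .nil))) (.l 18433 .nil)) (.I .jac (.c 4673 (.c 16 (.c 40 .nil))) (.b 32 (.l 18433 .nil)))))) (.node (.node (.node (.I .jac (.c 18433 (.c 8 (.c 24 .nil))) (.r 1337272585 .nil)) (.I .jac (.c 2306971873338799881 (.c 8 (.c 24 .nil))) (.r 48 .nil))) (.node (.I .jac (.c 13748193523587632009 (.c 8 (.c 24 .nil))) (.r 48 .nil)) (.I .adp (.c 2306970223667989449 (.c 48 (.c 4673 .nil))) .nil))) (.node (.node (.I .jac (.c 2306970223667989449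 (.c 8 (.c 24 .nil))) (.r 48 .nil)) (.I .jac (.c 4609 (.c 8321 (.c 40 .nil))) (.l 18497 .nil))) (.node (.I .jac (.c 4609 (.c 16 (.c 32 .nil))) (.b 40 (.l 18497 .nil))) (.I .jac (.c 4609 (.c 1324066057 (.c 16 .nil))) (.r 48 .nil))))))))

noncomputable def c2_108 : Tr := (.node (.node (.node (.node (.node (.node (.I .jac (.c 4609 (.c 12865 (.c 32 .nil))) (.b 16 (.r 48 .nil))) (.I .jac (.c 4609 (.c 8 (.c 40 .nil))) (.b 32 (.b 16 (.r 48 .nil))))) (.node (.I .jac (.c 4609 (.c 35718409 (.c 40 .nil))) (.r 48 .nil)) (.I .jac (.c 4609 (.c 2113 (.c 32 .nil))) (.b 40 (.r 48 .nil))))) (.node (.node (.I .jac (.c 4609 (.c 8 (.c 16 .nil))) (.b 32 (.b 40 (.r 48 .nil)))) (.I .jac (.c 174695753 (.c 16 (.c 32 .nil))) (.l 18433 .nil))) (.node (.I .jac (.c 4673 (.c 16 (.c 32 .nil))) (.b 40 (.l 18433 .nil))) (.I .jac (.c 18433 (.c 8 (.c 24 .nil))) (.r 553912649 .nil))))) (.node (.node (.node (.I .jac (.c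 13748196208362033929 (.c 8 (.c 24 .nil))) (.r 48 .nil)) (.I .adp (.c 3632084291164233 (.c 48 (.c 4673 .nil))) .nil)) (.node (.I .adp (.c 2737112329 (.c 12929 (.c 4609 .nil))) .nil) (.I .jac (.c 4609 (.c 16 (.c 40 .nil))) (.l 2737112329 .nil)))) (.node (.node (.I .com (.c 231045467270826953 (.c 2737112329 .nil)) .nil) (.I .jac (.c 169943305 (.c 8 (.c 48 .nil))) (.r 12929 .nil))) (.node (.I .jac (.c 4609 (.c 8 (.c 48 .nil))) (.b 32 (.r 12929 .nil))) (.I .adp (.c 545424777 (.c 12929 (.c 4609 .nil))) .nil))))) (.node (.node (.node (.node (.I .com (.c 231045989336561417 (.c 545424777 .nil)) .nil) (.I .com (.c 231045467270826953 (.c 545424777 .nil)) .nil)) (.node (.I .jac (.c 4609 (.c 8 (.c 32 .nil))) (.b 48 (.r 12929 .nil))) (.I .jac (.c 4609 (.c 32 (.c 48 .nil))) (.l 1324065929 .nil)))) (.node (.node (.I .com (.c 231046163358604169 (.c 1324065929 .nil)) .nil) (.I .com (.c 231045815314584585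 (.c 1324065929 .nil)) .nil)) (.node (.I .jac (.c 4609 (.c 12865 (.c 16 .nil))) (.r 18689 .nil)) (.I .com (.c 231046163358604169 (.c 35718473 .nil)) .nil)))) (.node (.node (.node (.I .jac (.c 4609 (.c 2113 (.c 40 .nil))) (.r 18689 .nil)) (.I .jac (.c 4609 (.c 8 (.c 16 .nil))) (.b 40 (.r 18689 .nil)))) (.node (.I .jac (.c 4673 (.c 16 (.c 40 .nil))) (.l 2718204169 .nil)) (.I .jac (.c 2718204169 (.c 8 (.c 24 .nil))) (.r 12929 .nil)))) (.node (.node (.I .adp (.c 537002377 (.c 12929 (.c 4673 .nil))) .nil) (.I .jac (.c 4673 (.c 16 (.c 40 .nil))) (.l 537002377 .nil))) (.node (.I .jac (.c 537002377 (.c 8 (.c 24 .nil))) (.r 12929 .nil)) (.I .jac (.c 4673 (.c 32 (.c 48 .nil))) (.l 1310924937 .nil))))))) (.node (.node (.node (.node (.node (.I .adp (.c 33587529 (.c 18689 (.c 4673 .nil))) .nil) (.I .jac (.c 4609 (.c 16 (.c 40 .nil))) (.l 43655235 .nil))) (.node (.I .com (.c 231045989336561417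 (.c 43655235 .nil)) .nil) (.I .com (.c 231045467270826953 (.c 43655235 .nil)) .nil))) (.node (.node (.I .adp (.c 12929 (.c 32 (.c 4609 .nil))) (.l 18497 .nil)) (.I .com (.c 169943305 (.c 12929 .nil)) (.l 18497 .nil))) (.node (.I .ass (.c 18497 (.c 231045467270826953 (.c 32 .nil))) .nil) (.I .com (.c 18497 (.c 231045467270826953 .nil)) (.r 32 .nil))))) (.node (.node (.node (.I .ass (.c 18497 (.c 169943305 (.c 12929 .nil))) .nil) (.I .ass (.c 169943305 (.c 18497 (.c 12929 .nil))) .nil)) (.node (.I .com (.c 18497 (.c 169943305 .nil)) (.r 12929 .nil)) (.I .tdb (.c 8 (.c 48 (.c 0 (.c 16 .nil)))) (.b 40 (.b 24 (.l 32 .nil)))))) (.node (.node (.I .tdb (.c 0 (.c 24 (.c 12929 (.c 18497 .nil)))) (.l 32 .nil)) (.I .tdb (.c 16 (.c 40 (.c 18497 (.c 0 .nil)))) (.b 24 (.l 32 .nil)))) (.node (.I .tdb (.c 16 (.c 40 (.c 18497 (.c 24 .nil)))) (.b 0 (.l 32 .nil))) (.I .com (.c 29219431338611946923215950238727204199485804159362686736837068862281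 (.c 32 .nil)) .nil))))) (.node (.node (.node (.node (.I .com (.c 24783224170185853388707980014196235007036345793947844253410756599625 (.c 32 .nil)) .nil) (.I .com (.c 15456254185047697 (.c 32 .nil)) .nil)) (.node (.I .jac (.c 0 (.c 8786499 (.c 48 .nil))) (.r 12929 .nil)) (.I .jac (.c 0 (.c 8 (.c 43655363 .nil))) (.r 12929 .nil)))) (.node (.node (.I .jac (.c 0 (.c 8 (.c 43655363 .nil))) (.b 12929 .nil)) (.I .tdb (.c 0 (.c 24 (.c 32 (.c 18497 .nil)))) (.b 12929 .nil))) (.node (.I .jac (.c 0 (.c 16 (.c 21307587 .nil))) (.b 18497 .nil)) (.I .tdb (.c 16 (.c 40 (.c 24 (.c 32 .nil)))) (.b 0 (.b 18497 .nil)))))) (.node (.node (.node (.I .com (.c 169943433 (.c 598976858557833 .nil)) .nil) (.I .ass (.c 169943433 (.c 1324065929 (.c 32 .nil))) .nil)) (.node (.I .jac (.c 2049 (.c 8 (.c 21307587 .nil))) (.l 48 .nil)) (.I .com (.c 89105409797125410142448901338895383783226817472525976897107939081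 (.c 48 .nil)) .nil))) (.node (.node (.I .tdb (.c 8 (.c 40 (.c 0 (.c 48 .nil)))) (.b 16 (.b 24 (.r 32 .nil)))) (.I .com (.c 89105409797125410142448901339003454242987701351899741676368425673 (.c 48 .nil)) .nil)) (.node (.I .com (.c 58240646186216787513332372173674686999212241738391459836944201 (.c 48 .nil)) .nil) (.I .tdb (.c 0 (.c 24 (.c 32 (.c 48 .nil)))) (.b 35718473 .nil))))))))

noncomputable def c2_109 : Tr := (.node (.node (.node (.node (.node (.node (.I .tdb (.c 0 (.c 24 (.c 48 (.c 12929 .nil)))) (.l 8257 .nil)) (.I .tdb (.c 16 (.c 40 (.c 0 (.c 48 .nil)))) (.b 24 (.l 8257 .nil)))) (.node (.I .tdb (.c 16 (.c 40 (.c 24 (.c 48 .nil)))) (.b 0 (.l 8257 .nil))) (.I .jac (.c 4609 (.c 16 (.c 40 .nil))) (.r 48 (.l 8257 .nil))))) (.node (.node (.I .com (.c 1760086083483829361758892708256585 (.c 8257 .nil)) .nil) (.I .ass (.c 169943433 (.c 8257 (.c 12929 .nil))) .nil)) (.node (.I .ass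 (.c 8257 (.c 231045989336561417 (.c 48 .nil))) .nil) (.I .ass (.c 231045989336561417 (.c 8257 (.c 48 .nil))) .nil)))) (.node (.node (.node (.I .com (.c 8257 (.c 231045989336561417 .nil)) (.r 48 .nil)) (.I .ass (.c 8257 (.c 231045467270826953 (.c 48 .nil))) .nil)) (.node (.I .ass (.c 231045467270826953 (.c 8257 (.c 48 .nil))) .nil) (.I .com (.c 8257 (.c 231045467270826953 .nil)) (.r 48 .nil)))) (.node (.node (.I .com (.c 70295418264016056367196823099392130501912218710370445521070897993 (.c 48 .nil)) .nil) (.I .com (.c 19589859841170820816512865323911044431086563402545993 (.c 48 .nil)) .nil)) (.node (.I .jac (.c 0 (.c 43356739 (.c 32 .nil))) (.r 12929 .nil)) (.I .tdb (.c 0 (.c 24 (.c 48 (.c 8257 .nil)))) (.b 12929 .nil)))))) (.node (.node (.node (.node (.I .tdb (.c 8 (.c 32 (.c 0 (.c 48 .nil)))) (.b 24 (.b 12929 .nil))) (.I .tdb (.c 8 (.c 32 (.c 24 (.c 48 .nil)))) (.b 0 (.b 12929 .nil))))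 (.node (.I .tdb (.c 16 (.c 40 (.c 0 (.c 48 .nil)))) (.b 24 (.b 8257 .nil))) (.I .tdb (.c 16 (.c 40 (.c 32 (.c 48 .nil)))) (.b 0 (.b 4673 .nil))))) (.node (.node (.I .com (.c 43655171 (.c 12929 .nil)) (.b 4673 .nil)) (.I .jac (.c 43655171 (.c 8 (.c 24 .nil))) (.r 12929 .nil))) (.node (.I .jac (.c 8 (.c 16 (.c 21307587 .nil))) (.l 18433 .nil)) (.I .tdb (.c 16 (.c 40 (.c 8 (.c 32 .nil)))) (.b 24 (.l 18433 .nil)))))) (.node (.node (.node (.I .com (.c 174695689 (.c 12929 .nil)) (.l 18433 .nil)) (.I .tdb (.c 0 (.c 48 (.c 8 (.c 16 .nil)))) (.b 40 (.b 24 (.l 32 .nil))))) (.node (.I .tdb (.c 8 (.c 24 (.c 12929 (.c 18433 .nil)))) (.l 32 .nil)) (.I .tdb (.c 16 (.c 40 (.c 18433 (.c 8 .nil)))) (.b 24 (.l 32 .nil))))) (.node (.node (.I .tdb (.c 16 (.c 40 (.c 18433 (.c 24 .nil)))) (.b 8 (.l 32 .nil))) (.I .tdb (.c 0 (.c 48 (.c 8 (.c 32 .nil)))) (.b 24 (.r 12929 .nil)))) (.node (.I .tdb (.c 16 (.c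 40 (.c 24 (.c 32 .nil)))) (.b 8 (.b 18433 .nil))) (.I .tdb (.c 8 (.c 24 (.c 32 (.c 12929 .nil)))) (.b 18433 .nil))))))) (.node (.node (.node (.node (.node (.I .jac (.c 598967998054793 (.c 8 (.c 24 .nil))) (.r 48 .nil)) (.I .tdb (.c 8 (.c 24 (.c 32 (.c 48 .nil)))) (.l 1310924937 .nil))) (.node (.I .com (.c 174695817 (.c 32 .nil)) (.l 1310924937 .nil)) (.I .tdb (.c 16 (.c 12801 (.c 8 (.c 32 .nil)))) (.b 24 (.l 48 .nil))))) (.node (.node (.I .tdb (.c 0 (.c 40 (.c 8 (.c 32 .nil)))) (.b 16 (.b 24 (.l 48 .nil)))) (.I .tdb (.c 16 (.c 12801 (.c 24 (.c 32 .nil)))) (.b 8 (.l 48 .nil)))) (.node (.I .tdb (.c 0 (.c 40 (.c 24 (.c 32 .nil)))) (.b 16 (.b 8 (.l 48 .nil)))) (.I .tdb (.c 8 (.c 24 (.c 32 (.c 1310924937 .nil)))) (.l 48 .nil))))) (.node (.node (.node (.I .tdb (.c 8 (.c 24 (.c 32 (.c 1310924937 .nil)))) (.b 48 .nil)) (.I .tdb (.c 8 (.c 24 (.c 32 (.c 48 .nil)))) (.b 1310924937 .nil))) (.node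 (.I .com (.c 174695817 (.c 32 .nil)) (.l 33587529 .nil)) (.I .tdp (.c 32 (.c 48 (.c 4673 (.c 33587529 .nil)))) .nil))) (.node (.node (.I .tdb (.c 2049 (.c 40 (.c 8 (.c 48 .nil)))) (.b 24 (.r 32 .nil))) (.I .tdb (.c 0 (.c 16 (.c 48 (.c 8 .nil)))) (.b 40 (.b 24 (.r 32 .nil))))) (.node (.I .tdb (.c 2049 (.c 40 (.c 24 (.c 48 .nil)))) (.b 8 (.r 32 .nil))) (.I .tdb (.c 0 (.c 16 (.c 48 (.c 24 .nil)))) (.b 40 (.b 8 (.r 32 .nil)))))))) (.node (.node (.node (.node (.I .tdb (.c 8 (.c 24 (.c 48 (.c 33587529 .nil)))) (.r 32 .nil)) (.I .tdb (.c 8 (.c 24 (.c 32 (.c 33587529 .nil)))) (.b 48 .nil))) (.node (.I .adp (.c 8193 (.c 1337376146 (.c 4673 .nil))) .nil) (.I .tdb (.c 8 (.c 24 (.c 48 (.c 12929 .nil)))) (.l 8193 .nil)))) (.node (.node (.I .tdb (.c 16 (.c 40 (.c 8 (.c 48 .nil)))) (.b 24 (.l 8193 .nil))) (.I .tdb (.c 16 (.c 40 (.c 24 (.c 48 .nil)))) (.b 8 (.l 8193 .nil)))) (.node (.I .adp (.c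 12929 (.c 48 (.c 4673 .nil))) (.l 8193 .nil)) (.I .jac (.c 4673 (.c 16 (.c 40 .nil))) (.r 48 (.l 8193 .nil)))))) (.node (.node (.node (.I .jac (.c 8193 (.c 8 (.c 24 .nil))) (.r 1337376146 .nil)) (.I .tdp (.c 12929 (.c 48 (.c 4673 (.c 8193 .nil)))) .nil)) (.node (.I .tdb (.c 8 (.c 24 (.c 8193 (.c 12929 .nil)))) (.l 48 .nil)) (.I .tdb (.c 0 (.c 32 (.c 8 (.c 48 .nil)))) (.b 24 (.r 12929 .nil))))) (.node (.node (.I .tdb (.c 8 (.c 24 (.c 48 (.c 8193 .nil)))) (.r 12929 .nil)) (.I .tdb (.c 0 (.c 32 (.c 24 (.c 48 .nil)))) (.b 8 (.b 12929 .nil)))) (.node (.I .tdb (.c 8 (.c 24 (.c 48 (.c 8193 .nil)))) (.b 12929 .nil)) (.I .tdb (.c 0 (.c 32 (.c 12929 (.c 8 .nil)))) (.b 24 (.b 48 .nil)))))))))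

noncomputable def c2_110 : Tr := (.node (.node (.node (.node (.node (.node (.I .tdb (.c 16 (.c 40 (.c 8 (.c 32 .nil)))) (.b 0 (.b 24 (.b 48 .nil)))) (.I .jac (.c 0 (.c 16 (.c 21307587 .nil))) (.b 8 (.b 48 .nil)))) (.node (.I .tdb (.c 0 (.c 32 (.c 12929 (.c 24 .nil)))) (.b 8 (.b 48 .nil))) (.I .tdb (.c 8 (.c 24 (.c 8193 (.c 12929 .nil)))) (.b 48 .nil)))) (.node (.node (.I .tdb (.c 0 (.c 32 (.c 12929 (.c 48 .nil)))) (.b 4673 .nil)) (.I .tdb (.c 8 (.c 24 (.c 48 (.c 12929 .nil)))) (.b 8193 .nil))) (.node (.I .tdb (.c 16 (.c 40 (.c 24 (.c 48 .nil)))) (.b 8 (.b 8193 .nil))) (.I .jac (.c 4609 (.c 16 (.c 32 .nil))) (.l 2737112393 .nil))))) (.node (.node (.node (.I .com (.c 231045467270826889 (.c 2737112393 .nil)) .nil) (.I .jac (.c 4609 (.c 18497 (.c 40 .nil))) (.r 8321 .nil))) (.node (.I .jac (.c 4609 (.c 8 (.c 48 .nil))) (.b 40 (.r 8321 .nil))) (.I .adp (.c 1324066185 (.c 8321 (.c 4609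 .nil))) .nil))) (.node (.node (.I .jac (.c 4609 (.c 16 (.c 32 .nil))) (.l 1324066185 .nil)) (.I .com (.c 231045815314584329 (.c 1324066185 .nil)) .nil)) (.node (.I .com (.c 231045467270826889 (.c 1324066185 .nil)) .nil) (.I .jac (.c 169943433 (.c 8 (.c 40 .nil))) (.r 8321 .nil)))))) (.node (.node (.node (.node (.I .jac (.c 4609 (.c 40 (.c 48 .nil))) (.l 545424521 .nil)) (.I .com (.c 231046163358604233 (.c 545424521 .nil)) .nil)) (.node (.I .com (.c 231045989336561673 (.c 545424521 .nil)) .nil) (.I .jac (.c 169943177 (.c 8 (.c 32 .nil))) (.r 18753 .nil)))) (.node (.node (.I .jac (.c 4609 (.c 8257 (.c 16 .nil))) (.r 18753 .nil)) (.I .com (.c 231045989336561673 (.c 35718409 .nil)) .nil)) (.node (.I .jac (.c 4609 (.c 2113 (.c 32 .nil))) (.r 18753 .nil)) (.I .jac (.c 4609 (.c 8 (.c 16 .nil))) (.b 32 (.r 18753 .nil)))))) (.node (.node (.node (.I .adp (.c 2718204233 (.c 8321 (.c 4673 .nil)))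 .nil) (.I .adp (.c 1310925193 (.c 8321 (.c 4673 .nil))) .nil)) (.node (.I .jac (.c 4673 (.c 40 (.c 48 .nil))) (.l 537002121 .nil)) (.I .jac (.c 537002121 (.c 8 (.c 24 .nil))) (.r 18753 .nil)))) (.node (.node (.I .jac (.c 4609 (.c 16 (.c 32 .nil))) (.l 43954755 .nil)) (.I .com (.c 231045815314584329 (.c 43954755 .nil)) .nil)) (.node (.I .com (.c 231045467270826889 (.c 43954755 .nil)) .nil) (.I .adp (.c 8321 (.c 40 (.c 4609 .nil))) (.l 18497 .nil))))))) (.node (.node (.node (.node (.node (.I .com (.c 169943369 (.c 8321 .nil)) (.l 18497 .nil)) (.I .ass (.c 18497 (.c 231045815314584329 (.c 40 .nil))) .nil)) (.node (.I .ass (.c 231045815314584329 (.c 18497 (.c 40 .nil))) .nil) (.I .com (.c 18497 (.c 231045815314584329 .nil)) (.r 40 .nil)))) (.node (.node (.I .ass (.c 231045467270826889 (.c 18497 (.c 40 .nil))) .nil) (.I .jac (.c 4609 (.c 8 (.c 48 .nil))) (.r 553979218 .nil))) (.node (.I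 .tdb (.c 8 (.c 48 (.c 0 (.c 16 .nil)))) (.b 32 (.b 24 (.l 40 .nil)))) (.I .com (.c 24783224170185853388707980014194432678886858414894506504643567975241 (.c 40 .nil)) .nil)))) (.node (.node (.node (.I .jac (.c 0 (.c 21099075 (.c 48 .nil))) (.r 8321 .nil)) (.I .tdb (.c 8 (.c 48 (.c 0 (.c 40 .nil)))) (.b 24 (.r 8321 .nil)))) (.node (.I .tdb (.c 16 (.c 32 (.c 0 (.c 40 .nil)))) (.b 24 (.b 18497 .nil))) (.I .com (.c 169943433 (.c 3491710045130057 .nil)) .nil))) (.node (.node (.I .ass (.c 169943433 (.c 12865 (.c 8321 .nil))) .nil) (.I .ass (.c 12865 (.c 231045815314584329 (.c 48 .nil))) .nil)) (.node (.I .ass (.c 231045815314584329 (.c 12865 (.c 48 .nil))) .nil) (.I .com (.c 12865 (.c 231045815314584329 .nil)) (.r 48 .nil)))))) (.node (.node (.node (.node (.I .ass (.c 12865 (.c 231045467270826889 (.c 48 .nil))) .nil) (.I .ass (.c 231045467270826889 (.c 12865 (.c 48 .nil))) .nil)) (.node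 (.I .com (.c 12865 (.c 231045467270826889 .nil)) (.r 48 .nil)) (.I .jac (.c 0 (.c 43356739 (.c 40 .nil))) (.r 8321 .nil)))) (.node (.node (.I .tdb (.c 16 (.c 32 (.c 0 (.c 48 .nil)))) (.b 24 (.b 12865 .nil))) (.I .ass (.c 169943433 (.c 545424521 (.c 40 .nil))) .nil)) (.node (.I .jac (.c 0 (.c 15246325749294217 (.c 16 .nil))) (.r 40 .nil)) (.I .tdb (.c 8 (.c 32 (.c 0 (.c 48 .nil)))) (.b 16 (.b 24 (.r 40 .nil))))))) (.node (.node (.node (.I .tdb (.c 0 (.c 24 (.c 40 (.c 48 .nil)))) (.b 545424521 .nil)) (.I .com (.c 15456253916349513 (.c 35718409 .nil)) .nil)) (.node (.I .jac (.c 0 (.c 2113 (.c 43655363 .nil))) (.r 40 .nil)) (.I .jac (.c 0 (.c 8 (.c 16 .nil))) (.b 43655363 (.r 40 .nil))))) (.node (.node (.I .tdb (.c 2113 (.c 32 (.c 40 (.c 48 .nil)))) (.b 4609 .nil)) (.I .tdb (.c 8 (.c 16 (.c 40 (.c 48 .nil)))) (.b 32 (.b 4609 .nil)))) (.node (.I .com (.c 43954691 (.c 8321 .nil)) (.b 4673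 .nil)) (.I .com (.c 3491688652046665 (.c 48 .nil)) (.b 4673 .nil))))))))

noncomputable def c2_111 : Tr := (.node (.node (.node (.node (.node (.node (.I .jac (.c 14832759703961929 (.c 8 (.c 24 .nil))) (.r 40 .nil)) (.I .adp (.c 18433 (.c 553979218 (.c 4673 .nil))) .nil)) (.node (.I .adp (.c 8321 (.c 40 (.c 4673 .nil))) (.l 18433 .nil)) (.I .jac (.c 18433 (.c 8 (.c 24 .nil))) (.r 553979218 .nil)))) (.node (.node (.I .tdp (.c 8321 (.c 40 (.c 18433 (.c 4673 .nil)))) .nil) (.I .tdb (.c 0 (.c 48 (.c 8 (.c 16 .nil)))) (.b 32 (.b 24 (.l 40 .nil))))) (.node (.I .tdb (.c 8 (.c 24 (.c 8321 (.c 18433 .nil)))) (.l 40 .nil)) (.I .tdb (.c 16 (.c 32 (.c 18433 (.c 8 .nil)))) (.b 24 (.l 40 .nil)))))) (.node (.node (.node (.I .tdb (.c 16 (.c 32 (.c 18433 (.c 24 .nil)))) (.b 8 (.l 40 .nil))) (.I .tdb (.c 8 (.c 24 (.c 40 (.c 18433 .nil)))) (.r 8321 .nil))) (.node (.I .tdb (.c 8 (.c 24 (.c 8321 (.c 18433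 .nil)))) (.b 40 .nil)) (.I .tdb (.c 16 (.c 32 (.c 18433 (.c 24 .nil)))) (.b 8 (.b 40 .nil))))) (.node (.node (.I .tdb (.c 8 (.c 24 (.c 40 (.c 8321 .nil)))) (.b 18433 .nil)) (.I .tdb (.c 16 (.c 32 (.c 8 (.c 40 .nil)))) (.b 24 (.b 18433 .nil)))) (.node (.I .tdb (.c 16 (.c 32 (.c 24 (.c 40 .nil)))) (.b 8 (.b 18433 .nil))) (.I .tdb (.c 16 (.c 32 (.c 18433 (.c 40 .nil)))) (.b 4673 .nil)))))) (.node (.node (.node (.node (.I .adp (.c 3491688652046665 (.c 48 (.c 4673 .nil))) .nil) (.I .jac (.c 3491688652046665 (.c 8 (.c 24 .nil))) (.r 48 .nil))) (.node (.I .com (.c 174695817 (.c 8321 .nil)) (.l 12801 .nil)) (.I .tdb (.c 0 (.c 40 (.c 8 (.c 16 .nil)))) (.b 32 (.b 24 (.l 48 .nil)))))) (.node (.node (.I .tdb (.c 8 (.c 24 (.c 48 (.c 12801 .nil)))) (.b 8321 .nil)) (.I .adp (.c 537002121 (.c 18754 (.c 4673 .nil))) .nil)) (.node (.I .tdb (.c 8 (.c 24 (.c 40 (.c 48 .nil)))) (.l 537002121 .nil)) (.I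 .adp (.c 40 (.c 48 (.c 4673 .nil))) (.l 537002121 .nil))))) (.node (.node (.node (.I .com (.c 174695817 (.c 40 .nil)) (.l 537002121 .nil)) (.I .jac (.c 537002121 (.c 8 (.c 24 .nil))) (.r 18754 .nil))) (.node (.I .tdp (.c 40 (.c 48 (.c 4673 (.c 537002121 .nil)))) .nil) (.I .tdb (.c 16 (.c 8193 (.c 8 (.c 48 .nil)))) (.b 24 (.r 40 .nil))))) (.node (.node (.I .tdb (.c 0 (.c 32 (.c 8 (.c 48 .nil)))) (.b 16 (.b 24 (.r 40 .nil)))) (.I .tdb (.c 16 (.c 8193 (.c 24 (.c 48 .nil)))) (.b 8 (.r 40 .nil)))) (.node (.I .tdb (.c 0 (.c 32 (.c 24 (.c 48 .nil)))) (.b 16 (.b 8 (.r 40 .nil)))) (.I .tdb (.c 8 (.c 24 (.c 48 (.c 537002121 .nil)))) (.r 40 .nil))))))) (.node (.node (.node (.node (.node (.I .tdb (.c 8 (.c 24 (.c 48 (.c 537002121 .nil)))) (.b 40 .nil)) (.I .tdb (.c 8 (.c 24 (.c 40 (.c 537002121 .nil)))) (.b 48 .nil))) (.node (.I .tdb (.c 0 (.c 32 (.c 40 (.c 48 .nil)))) (.b 16 (.b 4673 .nil)))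 (.I .com (.c 174695817 (.c 40 .nil)) (.l 33587465 .nil)))) (.node (.node (.I .tdp (.c 40 (.c 48 (.c 4673 (.c 33587465 .nil)))) .nil) (.I .tdb (.c 2049 (.c 32 (.c 8 (.c 48 .nil)))) (.b 24 (.r 40 .nil)))) (.node (.I .tdb (.c 0 (.c 16 (.c 48 (.c 8 .nil)))) (.b 32 (.b 24 (.r 40 .nil)))) (.I .tdb (.c 2049 (.c 32 (.c 24 (.c 48 .nil)))) (.b 8 (.r 40 .nil)))))) (.node (.node (.node (.I .tdb (.c 0 (.c 16 (.c 48 (.c 24 .nil)))) (.b 32 (.b 8 (.r 40 .nil)))) (.I .tdb (.c 8 (.c 24 (.c 48 (.c 33587465 .nil)))) (.r 40 .nil))) (.node (.I .tdb (.c 8 (.c 24 (.c 48 (.c 33587465 .nil)))) (.b 40 .nil)) (.I .tdb (.c 8 (.c 24 (.c 40 (.c 33587465 .nil)))) (.b 48 .nil)))) (.node (.node (.I .tdb (.c 8 (.c 24 (.c 40 (.c 48 .nil)))) (.b 33587465 .nil)) (.I .jac (.c 2105609 (.c 12993 (.c 48 .nil))) (.l 16 .nil))) (.node (.I .jac (.c 2105609 (.c 24 (.c 40 .nil))) (.b 48 (.l 16 .nil))) (.I .jac (.c 513 (.c 24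 (.c 40 .nil))) (.b 48 (.b 32 (.l 16 .nil)))))))) (.node (.node (.node (.node (.I .com (.c 810705155093947686715548558786755234702307279633946107785 (.c 16 .nil)) .nil) (.I .com (.c 810508056934298469057804180947616240775987900593371186057 (.c 16 .nil)) .nil)) (.node (.I .com (.c 810113986408641505441454317377410956945037015659145724809 (.c 16 .nil)) .nil) (.I .jac (.c 35470870263689 (.c 24 (.c 48 .nil))) (.l 16 .nil)))) (.node (.node (.I .jac (.c 513 (.c 24 (.c 48 .nil))) (.b 32 (.b 40 (.l 16 .nil)))) (.I .com (.c 810508056951847240291898505585423869896609491020671768457 (.c 16 .nil)) .nil)) (.node (.I .com (.c 810311000704513416363896113479214819441509963173734745033 (.c 16 .nil)) .nil) (.I .jac (.c 35470870263817 (.c 24 (.c 32 .nil))) (.l 16 .nil))))) (.node (.node (.node (.I .jac (.c 2105737 (.c 24 (.c 32 .nil))) (.b 40 (.l 16 .nil))) (.I .jac (.c 2105673 (.c 8385 (.c 48 .nil)))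 (.l 16 .nil))) (.node (.I .jac (.c 513 (.c 24 (.c 32 .nil))) (.b 48 (.b 40 (.l 16 .nil)))) (.I .com (.c 810508056951847240291898515892456034433233341962394532681 (.c 16 .nil)) .nil))) (.node (.node (.I .com (.c 810705155099798343965562725046623028547662953083153536969 (.c 16 .nil)) .nil) (.I .com (.c 810113986402794048221124582600893268325615363337390506953 (.c 16 .nil)) .nil)) (.node (.I .com (.c 810508056934298469057804160333551911925903618255834528777 (.c 16 .nil)) .nil) (.I .com (.c 810705155099798343965562745663193654065454779960977137481 (.c 16 .nil)) .nil)))))))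

noncomputable def c2_112 : Tr := (.node (.node (.node (.node (.node (.node (.I .com (.c 810113986408641505441454296768358535588691753787820850185 (.c 16 .nil)) .nil) (.I .com (.c 14025210098083634057 (.c 16 .nil)) (.b 4609 .nil))) (.node (.I .com (.c 59934271212510434249 (.c 16 .nil)) (.b 4609 .nil)) (.I .adp (.c 14025210098083634057 (.c 16 (.c 4609 .nil))) .nil))) (.node (.node (.I .com (.c 169943177 (.c 14025210098083634057 .nil)) .nil) (.I .jac (.c 231045815314584585 (.c 8 (.c 40 .nil))) (.r 16 .nil))) (.node (.I .jac (.c 4609 (.c 1324066185 (.c 32 .nil))) (.r 16 .nil)) (.I .jac (.c 4609 (.c 12865 (.c 48 .nil))) (.b 32 (.r 16 .nil)))))) (.node (.node (.node (.I .jac (.c 4609 (.c 8 (.c 40 .nil))) (.b 48 (.b 32 (.r 16 .nil)))) (.I .adp (.c 59934271212510434249 (.c 16 (.c 4609 .nil))) .nil)) (.node (.I .com (.c 169943177 (.c 59934271212510434249 .nil)) .nil) (.I .jac (.c 231045989336561545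 (.c 8 (.c 48 .nil))) (.r 16 .nil)))) (.node (.node (.I .jac (.c 169943369 (.c 8 (.c 48 .nil))) (.b 32 (.r 16 .nil))) (.I .jac (.c 169943305 (.c 8 (.c 48 .nil))) (.b 40 (.r 16 .nil)))) (.node (.I .jac (.c 4609 (.c 2737112329 (.c 40 .nil))) (.r 16 .nil)) (.I .jac (.c 4609 (.c 18497 (.c 32 .nil))) (.b 40 (.r 16 .nil))))))) (.node (.node (.node (.node (.I .jac (.c 4609 (.c 8 (.c 48 .nil))) (.b 32 (.b 40 (.r 16 .nil)))) (.I .jac (.c 231045989336561673 (.c 8 (.c 32 .nil))) (.r 16 .nil))) (.node (.I .jac (.c 169943433 (.c 8 (.c 32 .nil))) (.b 40 (.r 16 .nil))) (.I .jac (.c 169943369 (.c 8257 (.c 48 .nil))) (.r 16 .nil)))) (.node (.node (.I .jac (.c 169943369 (.c 8 (.c 32 .nil))) (.b 48 (.r 16 .nil))) (.I .jac (.c 4609 (.c 545424777 (.c 40 .nil))) (.r 16 .nil))) (.node (.I .jac (.c 4609 (.c 8257 (.c 48 .nil))) (.b 40 (.r 16 .nil))) (.I .jac (.c 4609 (.c 8 (.c 32 .nil))) (.b 48 (.b 40 (.r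 16 .nil))))))) (.node (.node (.node (.I .jac (.c 231046163358604169 (.c 8 (.c 40 .nil))) (.r 16 .nil)) (.I .jac (.c 169943433 (.c 12865 (.c 32 .nil))) (.r 16 .nil))) (.node (.I .jac (.c 169943369 (.c 32 (.c 48 .nil))) (.l 2113 .nil)) (.I .com (.c 427057350195049030035896088956978121 (.c 2113 .nil)) .nil))) (.node (.node (.I .com (.c 427057993508084089288477468582296585 (.c 2113 .nil)) .nil) (.I .com (.c 13748198893136698249 (.c 16 .nil)) (.b 4673 .nil))) (.node (.I .com (.c 59109071234951844809 (.c 16 .nil)) (.b 4673 .nil)) (.I .adp (.c 13748198893136698249 (.c 16 (.c 4673 .nil))) .nil)))))) (.node (.node (.node (.node (.node (.I .jac (.c 13748198893136698249 (.c 8 (.c 24 .nil))) (.r 16 .nil)) (.I .adp (.c 59109071234951844809 (.c 16 (.c 4673 .nil))) .nil)) (.node (.I .jac (.c 59109071234951844809 (.c 8 (.c 24 .nil))) (.r 16 .nil)) (.I .jac (.c 2306972423229201353 (.c 8 (.c 24 .nil)))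 (.r 16 .nil)))) (.node (.node (.I .adp (.c 13748196208362034185 (.c 16 (.c 4673 .nil))) .nil) (.I .jac (.c 13748196208362034185 (.c 8 (.c 24 .nil))) (.r 16 .nil))) (.node (.I .jac (.c 4673 (.c 32 (.c 48 .nil))) (.b 40 (.l 2049 .nil))) (.I .jac (.c 513 (.c 24 (.c 48 .nil))) (.b 40 (.b 32 (.l 16 .nil))))))) (.node (.node (.node (.I .com (.c 810311000716210463833463084077584211030322290646187639625 (.c 16 .nil)) .nil) (.I .com (.c 810113986414488962661815697353921638195418889919997845385 (.c 16 .nil)) .nil)) (.node (.I .com (.c 810705155105649001215608589283827555960756286961675909961 (.c 16 .nil)) .nil) (.I .com (.c 59934274015313491849 (.c 16 .nil)) (.b 4609 .nil)))) (.node (.node (.I .adp (.c 59934274015313491849 (.c 16 (.c 4609 .nil))) .nil) (.I .com (.c 169943177 (.c 59934274015313491849 .nil)) .nil)) (.node (.I .jac (.c 4609 (.c 2737112393 (.c 32 .nil))) (.r 16 .nil)) (.I .jac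 (.c 4609 (.c 18497 (.c 40 .nil))) (.b 32 (.r 16 .nil))))))) (.node (.node (.node (.node (.I .jac (.c 4609 (.c 8 (.c 48 .nil))) (.b 40 (.b 32 (.r 16 .nil)))) (.I .com (.c 59109074018392946569 (.c 16 .nil)) (.b 4673 .nil))) (.node (.I .adp (.c 59109074018392946569 (.c 16 (.c 4673 .nil))) .nil) (.I .jac (.c 59109074018392946569 (.c 8 (.c 24 .nil))) (.r 16 .nil)))) (.node (.node (.I .adp (.c 2306971873338800137 (.c 16 (.c 4673 .nil))) .nil) (.I .jac (.c 2306971873338800137 (.c 8 (.c 24 .nil))) (.r 16 .nil))) (.node (.I .jac (.c 174695817 (.c 32 (.c 40 .nil))) (.l 2049 .nil)) (.I .com (.c 15456298943026833 (.c 16 .nil)) .nil)))) (.node (.node (.node (.I .com (.c 15456298926182537 (.c 16 .nil)) (.b 4609 .nil)) (.I .adp (.c 15456298926182537 (.c 16 (.c 4609 .nil))) .nil)) (.node (.I .com (.c 169943177 (.c 15456298926182537 .nil)) .nil) (.I .jac (.c 4609 (.c 8 (.c 43954947 .nil))) (.r 16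 .nil)))) (.node (.node (.I .com (.c 15456298926219345 (.c 2113 .nil)) .nil) (.I .adp (.c 15456298926182473 (.c 16 (.c 4673 .nil))) .nil)) (.node (.I .com (.c 1911166281014372186705227111861769 (.c 16 .nil)) .nil) (.I .com (.c 15456253933194385 (.c 16 .nil)) .nil)))))))

noncomputable def c2_113 : Tr := (.node (.node (.node (.node (.node (.node (.I .jac (.c 513 (.c 21307587 (.c 48 .nil))) (.l 16 .nil)) (.I .com (.c 105537558360476662066555944701577 (.c 16 .nil)) .nil)) (.node (.I .jac (.c 4609 (.c 21307459 (.c 48 .nil))) (.l 16 .nil)) (.I .jac (.c 0 (.c 3632062472293833 (.c 24 .nil))) (.l 16 .nil)))) (.node (.node (.I .jac (.c 0 (.c 15456163896880393 (.c 32 .nil))) (.l 16 .nil)) (.I .jac (.c 0 (.c 43954755 (.c 24 .nil))) (.b 32 (.l 16 .nil)))) (.node (.I .jac (.c 0 (.c 3561367726845385 (.c 32 .nil))) (.l 16 .nil)) (.I .jac (.c 0 (.c 21099075 (.c 48 .nil))) (.b 32 (.l 16 .nil))))))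 (.node (.node (.node (.I .tdb (.c 24 (.c 48 (.c 8 (.c 40 .nil)))) (.b 32 (.b 0 (.l 16 .nil)))) (.I .tdb (.c 32 (.c 18625 (.c 0 (.c 40 .nil)))) (.b 8 (.l 16 .nil)))) (.node (.I .com (.c 89098986658163792321215551618375622539977696491209536043921184457 (.c 16 .nil)) .nil) (.I .com (.c 82361964593872257944173769947661949152100541591018890531467541193 (.c 16 .nil)) .nil))) (.node (.node (.I .com (.c 89098986658144952217736054751241614994493116461214391418032964297 (.c 16 .nil)) .nil) (.I .com (.c 1911144019273992626116315788840393 (.c 16 .nil)) .nil)) (.node (.I .com (.c 101466720694907813738833334210057 (.c 16 .nil)) .nil) (.I .com (.c 82363963254985834063889962353462675018762698198376643779222995849 (.c 16 .nil)) .nil))))) (.node (.node (.node (.node (.I .com (.c 2306972423397993633 (.c 16 .nil)) .nil) (.I .com (.c 89101127659442842514720521865396498412294420710585648184944400393 (.c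 16 .nil)) .nil)) (.node (.I .com (.c 2306970773909831841 (.c 16 .nil)) .nil) (.I .ass (.c 16 (.c 10066684875704784911325976457 (.c 40 .nil))) .nil))) (.node (.node (.I .ass (.c 10066684875704784911325976457 (.c 16 (.c 40 .nil))) .nil) (.I .com (.c 16 (.c 10066684875704784911325976457 .nil)) (.r 40 .nil))) (.node (.I .ass (.c 16 (.c 10063013877651720715266098057 (.c 40 .nil))) .nil) (.I .com (.c 16 (.c 10063013877651720715266098057 .nil)) (.r 40 .nil))))) (.node (.node (.node (.I .jac (.c 43954691 (.c 24 (.c 32 .nil))) (.b 8 (.l 16 .nil))) (.I .jac (.c 2105737 (.c 24 (.c 32 .nil))) (.r 40 (.l 16 .nil)))) (.node (.I .com (.c 82361964593860417105222911965185041321224976572768821635495985865 (.c 16 .nil)) .nil) (.I .com (.c 59109071235120637089 (.c 16 .nil)) .nil))) (.node (.node (.I .ass (.c 16 (.c 10066684875741109290467687241 (.c 40 .nil))) .nil) (.I .ass (.c 10066684875741109290467687241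 (.c 16 (.c 40 .nil))) .nil)) (.node (.I .com (.c 16 (.c 10066684875741109290467687241 .nil)) (.r 40 .nil)) (.I .ass (.c 16 (.c 10063013877579085204530183177 (.c 40 .nil))) .nil)))))) (.node (.node (.node (.node (.node (.I .com (.c 16 (.c 10063013877579085204530183177 .nil)) (.r 40 .nil)) (.I .ass (.c 16 (.c 2105673 (.c 562466185 .nil))) .nil)) (.node (.I .ass (.c 2105673 (.c 16 (.c 562466185 .nil))) .nil) (.I .com (.c 16 (.c 2105673 .nil)) (.r 562466185 .nil)))) (.node (.node (.I .tdb (.c 0 (.c 8 (.c 16 (.c 40 .nil)))) (.b 562466185 .nil)) (.I .jac (.c 12801 (.c 43356739 (.c 32 .nil))) (.l 16 .nil))) (.node (.I .jac (.c 0 (.c 43356739 (.c 32 .nil))) (.b 40 (.l 16 .nil))) (.I .com (.c 35468714087433 (.c 12993 .nil)) (.l 16 .nil))))) (.node (.node (.node (.I .com (.c 26186512359091364093173356798841375339997511043398102610812490211017 (.c 16 .nil)) .nil) (.I .com (.c 74495752857537580654899489541974847815541613424103004848021193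 (.c 16 .nil)) .nil)) (.node (.I .com (.c 13748198893206989985 (.c 16 .nil)) .nil) (.I .com (.c 74500093957907752758059857579305407283366286366713376917849033 (.c 16 .nil)) .nil))) (.node (.node (.I .com (.c 1809240918116188102378439523929673 (.c 16 .nil)) .nil) (.I .com (.c 13748196208708887713 (.c 16 .nil)) .nil)) (.node (.I .ass (.c 16 (.c 35473026505609 (.c 12993 .nil))) .nil) (.I .ass (.c 35473026505609 (.c 16 (.c 12993 .nil))) .nil))))) (.node (.node (.node (.node (.I .com (.c 16 (.c 35473026505609 .nil)) (.r 12993 .nil)) (.I .ass (.c 16 (.c 35468714087433 (.c 12993 .nil))) .nil)) (.node (.I .ass (.c 35468714087433 (.c 16 (.c 12993 .nil))) .nil) (.I .com (.c 16 (.c 35468714087433 .nil)) (.r 12993 .nil)))) (.node (.node (.I .ass (.c 16 (.c 35470870263625 (.c 18689 .nil))) .nil) (.I .ass (.c 35470870263625 (.c 16 (.c 18689 .nil))) .nil)) (.node (.I .com (.c 16 (.c 35470870263625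 .nil)) (.r 18689 .nil)) (.I .com (.c 97536312314082855488951506397001 (.c 18689 .nil)) .nil)))) (.node (.node (.node (.I .com (.c 3491710045166673 (.c 18689 .nil)) .nil) (.I .com (.c 3632062472293833 (.c 16 .nil)) (.b 4609 .nil))) (.node (.I .ass (.c 16 (.c 2737112329 (.c 40 .nil))) (.b 4609 .nil)) (.I .ass (.c 2737112329 (.c 16 (.c 40 .nil))) (.b 4609 .nil)))) (.node (.node (.I .com (.c 16 (.c 2737112329 .nil)) (.r 40 (.b 4609 .nil))) (.I .com (.c 169943177 (.c 15456163896880457 .nil)) .nil)) (.node (.I .jac (.c 4609 (.c 43954755 (.c 32 .nil))) (.r 16 .nil)) (.I .adp (.c 3632062472293833 (.c 16 (.c 4609 .nil))) .nil)))))))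

noncomputable def c2_114 : Tr := (.node (.node (.node (.node (.node (.node (.I .com (.c 169943177 (.c 3632062472293833 .nil)) .nil) (.I .adp (.c 2737112329 (.c 12930 (.c 4609 .nil))) .nil)) (.node (.I .tdb (.c 0 (.c 24 (.c 40 (.c 16 .nil)))) (.l 2737112329 .nil)) (.I .adp (.c 16 (.c 40 (.c 4609 .nil))) (.l 2737112329 .nil)))) (.node (.node (.I .com (.c 169943369 (.c 16 .nil)) (.l 2737112329 .nil)) (.I .ass (.c 2737112329 (.c 169943369 (.c 16 .nil))) .nil)) (.node (.I .ass (.c 169943369 (.c 2737112329 (.c 16 .nil))) .nil) (.I .com (.c 2737112329 (.c 169943369 .nil)) (.r 16 .nil))))) (.node (.node (.node (.I .ass (.c 2737112329 (.c 169943177 (.c 40 .nil))) .nil) (.I .ass (.c 169943177 (.c 2737112329 (.c 40 .nil))) .nil)) (.node (.I .com (.c 2737112329 (.c 169943177 .nil)) (.r 40 .nil)) (.I .jac (.c 4609 (.c 18497 (.c 32 .nil))) (.r 12930 .nil)))) (.node (.node (.I .jac (.c 4609 (.c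 8 (.c 48 .nil))) (.b 32 (.r 12930 .nil))) (.I .tdp (.c 16 (.c 40 (.c 2737112329 (.c 4609 .nil)))) .nil)) (.node (.I .jac (.c 21307395 (.c 8 (.c 48 .nil))) (.b 24 (.r 16 .nil))) (.I .jac (.c 0 (.c 3561367726845385 (.c 32 .nil))) (.r 16 .nil)))))) (.node (.node (.node (.node (.I .jac (.c 0 (.c 15456253916349577 (.c 32 .nil))) (.r 16 .nil)) (.I .jac (.c 0 (.c 8 (.c 43954883 .nil))) (.b 32 (.r 16 .nil)))) (.node (.I .tdb (.c 32 (.c 18497 (.c 24 (.c 40 .nil)))) (.b 0 (.r 16 .nil))) (.I .tdb (.c 8 (.c 48 (.c 24 (.c 40 .nil)))) (.b 32 (.b 0 (.r 16 .nil)))))) (.node (.node (.I .tdb (.c 0 (.c 24 (.c 40 (.c 2737112329 .nil)))) (.r 16 .nil)) (.I .tdb (.c 32 (.c 18497 (.c 0 (.c 40 .nil)))) (.b 24 (.r 16 .nil)))) (.node (.I .tdb (.c 0 (.c 24 (.c 40 (.c 16 .nil)))) (.b 2737112329 .nil)) (.I .ass (.c 169943177 (.c 545424777 (.c 40 .nil))) .nil)))) (.node (.node (.node (.I .jac (.c 169943433 (.c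 8 (.c 32 .nil))) (.r 12930 .nil)) (.I .jac (.c 18433 (.c 21099075 (.c 32 .nil))) (.r 16 .nil))) (.node (.I .jac (.c 0 (.c 3632106110100617 (.c 48 .nil))) (.r 16 .nil)) (.I .jac (.c 0 (.c 8 (.c 21307587 .nil))) (.b 48 (.r 16 .nil))))) (.node (.node (.I .tdb (.c 0 (.c 24 (.c 40 (.c 16 .nil)))) (.b 545424777 .nil)) (.I .tdb (.c 32 (.c 48 (.c 0 (.c 16 .nil)))) (.b 24 (.l 12865 .nil)))) (.node (.I .jac (.c 4609 (.c 32 (.c 48 .nil))) (.l 16 (.l 12865 .nil))) (.I .ass (.c 12865 (.c 231046163358604169 (.c 16 .nil))) .nil)))))) (.node (.node (.node (.node (.node (.I .ass (.c 231046163358604169 (.c 12865 (.c 16 .nil))) .nil) (.I .com (.c 12865 (.c 231046163358604169 .nil)) (.r 16 .nil))) (.node (.I .ass (.c 12865 (.c 169943177 (.c 18689 .nil))) .nil) (.I .ass (.c 169943177 (.c 12865 (.c 18689 .nil))) .nil))) (.node (.node (.I .com (.c 12865 (.c 169943177 .nil)) (.r 18689 .nil)) (.I .com (.c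 97535117142640924779607613918025 (.c 18689 .nil)) .nil)) (.node (.I .com (.c 49484669142536990413609801 (.c 18689 .nil)) .nil) (.I .jac (.c 0 (.c 43356739 (.c 32 .nil))) (.b 40 (.r 16 .nil)))))) (.node (.node (.node (.I .tdb (.c 32 (.c 48 (.c 0 (.c 8 .nil)))) (.b 40 (.b 24 (.r 16 .nil)))) (.I .jac (.c 8 (.c 21307587 (.c 48 .nil))) (.b 0 (.r 16 .nil)))) (.node (.I .tdb (.c 32 (.c 48 (.c 0 (.c 40 .nil)))) (.b 8 (.b 24 (.r 16 .nil)))) (.I .com (.c 1911132888452991604567054858008393 (.c 2113 .nil)) .nil))) (.node (.node (.I .com (.c 105537558360238163450942167246857 (.c 2113 .nil)) .nil) (.I .com (.c 15456253916415057 (.c 2113 .nil)) .nil)) (.node (.I .ass (.c 2113 (.c 231045815314584585 (.c 40 .nil))) .nil) (.I .ass (.c 231045815314584585 (.c 2113 (.c 40 .nil))) .nil))))) (.node (.node (.node (.node (.I .com (.c 2113 (.c 231045815314584585 .nil)) (.r 40 .nil)) (.I .com (.c 15456118887244105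 (.c 16 .nil)) (.b 4673 .nil))) (.node (.I .adp (.c 3632040653488585 (.c 16 (.c 4673 .nil))) .nil) (.I .jac (.c 3632040653488585 (.c 8 (.c 24 .nil))) (.r 16 .nil)))) (.node (.node (.I .adp (.c 2718204169 (.c 12930 (.c 4673 .nil))) .nil) (.I .tdb (.c 8 (.c 24 (.c 40 (.c 16 .nil)))) (.l 2718204169 .nil))) (.node (.I .adp (.c 16 (.c 40 (.c 4673 .nil))) (.l 2718204169 .nil)) (.I .tdb (.c 32 (.c 18433 (.c 8 (.c 40 .nil)))) (.b 24 (.r 16 .nil)))))) (.node (.node (.node (.I .tdb (.c 32 (.c 18433 (.c 24 (.c 40 .nil)))) (.b 8 (.r 16 .nil))) (.I .tdb (.c 8 (.c 24 (.c 537002377 (.c 16 .nil)))) (.l 40 .nil))) (.node (.I .tdb (.c 48 (.c 8193 (.c 8 (.c 40 .nil)))) (.b 24 (.r 16 .nil))) (.I .tdb (.c 0 (.c 32 (.c 8 (.c 40 .nil)))) (.b 48 (.b 24 (.r 16 .nil)))))) (.node (.node (.I .adp (.c 20891651 (.c 18689 (.c 4673 .nil))) .nil) (.I .jac (.c 20891651 (.c 8 (.c 24 .nil))) (.r 18689 .nil))) (.node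 (.I .adp (.c 12801 (.c 2794229898 (.c 4673 .nil))) .nil) (.I .adp (.c 16 (.c 18689 (.c 4673 .nil))) (.l 12801 .nil))))))))

noncomputable def c2_115 : Tr := (.node (.node (.node (.node (.node (.node (.I .com (.c 244149027818380169 (.c 16 .nil)) (.l 12801 .nil)) (.I .com (.c 244148670041478153 (.c 16 .nil)) (.l 12801 .nil))) (.node (.I .jac (.c 12801 (.c 8 (.c 24 .nil))) (.r 2794229898 .nil)) (.I .tdp (.c 16 (.c 18689 (.c 4673 (.c 12801 .nil)))) .nil))) (.node (.node (.I .tdb (.c 8 (.c 24 (.c 12801 (.c 16 .nil)))) (.l 18689 .nil)) (.I .jac (.c 0 (.c 43954755 (.c 32 .nil))) (.b 24 (.r 16 .nil)))) (.node (.I .tdb (.c 0 (.c 40 (.c 18689 (.c 8 .nil)))) (.b 24 (.r 16 .nil))) (.I .jac (.c 0 (.c 21307587 (.c 48 .nil))) (.b 8 (.r 16 .nil)))))) (.node (.node (.node (.I .tdb (.c 8 (.c 24 (.c 12801 (.c 18689 .nil)))) (.r 16 .nil)) (.I .tdb (.c 8 (.c 24 (.c 12801 (.c 16 .nil)))) (.b 18689 .nil)))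 (.node (.I .tdb (.c 8 (.c 24 (.c 18689 (.c 16 .nil)))) (.b 12801 .nil)) (.I .jac (.c 8 (.c 21307587 (.c 48 .nil))) (.l 2049 .nil)))) (.node (.node (.I .tdb (.c 32 (.c 48 (.c 24 (.c 40 .nil)))) (.b 8 (.l 2049 .nil))) (.I .adp (.c 18689 (.c 40 (.c 4673 .nil))) (.l 2049 .nil))) (.node (.I .com (.c 174695753 (.c 18689 .nil)) (.l 2049 .nil)) (.I .com (.c 15246325766139537 (.c 16 .nil)) .nil))))) (.node (.node (.node (.node (.I .jac (.c 0 (.c 15246236343241993 (.c 40 .nil))) (.l 16 .nil)) (.I .tdb (.c 24 (.c 48 (.c 0 (.c 32 .nil)))) (.b 40 (.b 8 (.l 16 .nil))))) (.node (.I .tdb (.c 0 (.c 8 (.c 13057 (.c 18625 .nil)))) (.l 16 .nil)) (.I .tdb (.c 32 (.c 40 (.c 18625 (.c 0 .nil)))) (.b 8 (.l 16 .nil))))) (.node (.node (.I .tdb (.c 32 (.c 40 (.c 18625 (.c 8 .nil)))) (.b 0 (.l 16 .nil))) (.I .com (.c 35470870263689 (.c 18625 .nil)) (.l 16 .nil))) (.node (.I .com (.c 35468714087369 (.c 18625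 .nil)) (.l 16 .nil)) (.I .com (.c 1859581781096878377439150830685641 (.c 16 .nil)) .nil)))) (.node (.node (.node (.I .com (.c 1859581781080891539919226693127753 (.c 16 .nil)) .nil) (.I .com (.c 13748194866324041889 (.c 16 .nil)) .nil)) (.node (.I .ass (.c 16 (.c 35473026505545 (.c 13057 .nil))) .nil) (.I .com (.c 16 (.c 35473026505545 .nil)) (.r 13057 .nil)))) (.node (.node (.I .jac (.c 0 (.c 43059267 (.c 24 .nil))) (.l 13057 .nil)) (.I .tdb (.c 24 (.c 48 (.c 8 (.c 16 .nil)))) (.b 0 (.l 13057 .nil)))) (.node (.I .tdb (.c 0 (.c 8 (.c 16 (.c 18625 .nil)))) (.l 13057 .nil)) (.I .com (.c 1760086083483798984267018994225865 (.c 13057 .nil)) .nil)))))) (.node (.node (.node (.node (.node (.I .com (.c 14832803796655185 (.c 13057 .nil)) .nil) (.I .tdb (.c 32 (.c 40 (.c 8 (.c 16 .nil)))) (.b 0 (.b 18625 .nil)))) (.node (.I .tdb (.c 0 (.c 8 (.c 16 (.c 13057 .nil)))) (.b 18625 .nil)) (.I .jac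 (.c 4609 (.c 43655235 (.c 40 .nil))) (.l 16 .nil)))) (.node (.node (.I .jac (.c 0 (.c 43655235 (.c 40 .nil))) (.b 24 (.l 16 .nil))) (.I .jac (.c 0 (.c 43356739 (.c 40 .nil))) (.b 32 (.l 16 .nil)))) (.node (.I .tdb (.c 24 (.c 40 (.c 0 (.c 48 .nil)))) (.b 32 (.b 8 (.l 16 .nil)))) (.I .com (.c 27664030750838856656340776335292338607177587091810531851185054275273 (.c 16 .nil)) .nil)))) (.node (.node (.node (.I .com (.c 26186512359091809868165733223514955619104530361306399190109430577865 (.c 16 .nil)) .nil) (.I .com (.c 27664355203956229079760193910635298021970225103229577443784052629321 (.c 16 .nil)) .nil)) (.node (.I .com (.c 26186821597830724738774049788027163981088181666714410377677971840905 (.c 16 .nil)) .nil) (.I .ass (.c 16 (.c 2105737 (.c 1350544649 .nil))) .nil))) (.node (.node (.I .ass (.c 2105737 (.c 16 (.c 1350544649 .nil))) .nil) (.I .com (.c 16 (.c 2105737 .nil)) (.r 1350544649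 .nil))) (.node (.I .ass (.c 16 (.c 10064237432092225236522737481 (.c 48 .nil))) .nil) (.I .ass (.c 10064237432092225236522737481 (.c 16 (.c 48 .nil))) .nil))))) (.node (.node (.node (.node (.I .com (.c 16 (.c 10064237432092225236522737481 .nil)) (.r 48 .nil)) (.I .ass (.c 16 (.c 10065461098071330215985125257 (.c 48 .nil))) .nil)) (.node (.I .ass (.c 10065461098071330215985125257 (.c 16 (.c 48 .nil))) .nil) (.I .com (.c 16 (.c 10065461098071330215985125257 .nil)) (.r 48 .nil)))) (.node (.node (.I .ass (.c 16 (.c 10064237432019585310071936969 (.c 48 .nil))) .nil) (.I .ass (.c 10064237432019585310071936969 (.c 16 (.c 48 .nil))) .nil)) (.node (.I .com (.c 16 (.c 10064237432019585310071936969 .nil)) (.r 48 .nil)) (.I .ass (.c 16 (.c 10065461098107652387135109961 (.c 48 .nil))) .nil)))) (.node (.node (.node (.I .ass (.c 10065461098107652387135109961 (.c 16 (.c 48 .nil))) .nil) (.I .com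 (.c 16 (.c 10065461098107652387135109961 .nil)) (.r 48 .nil))) (.node (.I .jac (.c 20891651 (.c 24 (.c 32 .nil))) (.b 8 (.b 48 .nil))) (.I .com (.c 169943177 (.c 15246236343242121 .nil)) .nil))) (.node (.node (.I .jac (.c 4609 (.c 43655235 (.c 40 .nil))) (.r 16 .nil)) (.I .jac (.c 4609 (.c 32 (.c 40 .nil))) (.l 43059267 .nil))) (.node (.I .jac (.c 4609 (.c 32 (.c 40 .nil))) (.l 16 (.l 18497 .nil))) (.I .ass (.c 231045989336561545 (.c 18497 (.c 16 .nil))) .nil)))))))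

noncomputable def c2_116 : Tr := (.node (.node (.node (.node (.node (.node (.I .ass (.c 231045815314584521 (.c 18497 (.c 16 .nil))) .nil) (.I .ass (.c 18497 (.c 169943177 (.c 13057 .nil))) .nil)) (.node (.I .ass (.c 169943177 (.c 18497 (.c 13057 .nil))) .nil) (.I .com (.c 18497 (.c 169943177 .nil)) (.r 13057 .nil)))) (.node (.node (.I .jac (.c 4609 (.c 8 (.c 48 .nil))) (.r 1363882122 .nil)) (.I .tdb (.c 0 (.c 24 (.c 18497 (.c 16 .nil)))) (.l 13057 .nil))) (.node (.I .com (.c 1760086083483768606775145280457545 (.c 13057 .nil)) .nil) (.I .jac (.c 0 (.c 15246325749294217 (.c 40 .nil))) (.r 16 .nil))))) (.node (.node (.node (.I .jac (.c 0 (.c 8 (.c 43655363 .nil))) (.b 40 (.r 16 .nil))) (.I .tdb (.c 8 (.c 48 (.c 24 (.c 32 .nil)))) (.b 40 (.b 0 (.r 16 .nil))))) (.node (.I .tdb (.c 32 (.c 40 (.c 0 (.c 16 .nil)))) (.b 24 (.b 18497 .nil))) (.I .jac (.c 169943305 (.c 8 (.c 40 .nil))) (.r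 18562 .nil)))) (.node (.node (.I .jac (.c 15246325749294153 (.c 8 (.c 40 .nil))) (.r 16 .nil)) (.I .jac (.c 8193 (.c 43356739 (.c 40 .nil))) (.r 16 .nil))) (.node (.I .jac (.c 0 (.c 43356739 (.c 40 .nil))) (.b 32 (.r 16 .nil))) (.I .jac (.c 169943369 (.c 8 (.c 32 .nil))) (.r 18562 .nil)))))) (.node (.node (.node (.node (.I .com (.c 19589859839154401021947808463157094680510343278485321 (.c 48 .nil)) .nil) (.I .tdb (.c 0 (.c 24 (.c 48 (.c 16 .nil)))) (.b 545424713 .nil))) (.node (.I .adp (.c 13057 (.c 48 (.c 4609 .nil))) (.l 2113 .nil)) (.I .com (.c 169943433 (.c 13057 .nil)) (.l 2113 .nil)))) (.node (.node (.I .ass (.c 2113 (.c 231045989336561545 (.c 48 .nil))) .nil) (.I .ass (.c 231045989336561545 (.c 2113 (.c 48 .nil))) .nil)) (.node (.I .com (.c 2113 (.c 231045989336561545 .nil)) (.r 48 .nil)) (.I .ass (.c 2113 (.c 231045815314584521 (.c 48 .nil))) .nil)))) (.node (.node (.node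 (.I .ass (.c 231045815314584521 (.c 2113 (.c 48 .nil))) .nil) (.I .com (.c 2113 (.c 231045815314584521 .nil)) (.r 48 .nil))) (.node (.I .adp (.c 15246191640314249 (.c 16 (.c 4673 .nil))) .nil) (.I .jac (.c 15246191640314249 (.c 8 (.c 24 .nil))) (.r 16 .nil)))) (.node (.node (.I .adp (.c 43059203 (.c 13057 (.c 4673 .nil))) .nil) (.I .jac (.c 43059203 (.c 8 (.c 24 .nil))) (.r 13057 .nil))) (.node (.I .adp (.c 18433 (.c 1363882122 (.c 4673 .nil))) .nil) (.I .tdb (.c 8 (.c 24 (.c 13057 (.c 16 .nil)))) (.l 18433 .nil))))))) (.node (.node (.node (.node (.node (.I .tdb (.c 32 (.c 40 (.c 8 (.c 16 .nil)))) (.b 24 (.l 18433 .nil))) (.I .adp (.c 16 (.c 13057 (.c 4673 .nil))) (.l 18433 .nil))) (.node (.I .jac (.c 4673 (.c 32 (.c 40 .nil))) (.l 16 (.l 18433 .nil))) (.I .jac (.c 18433 (.c 8 (.c 24 .nil))) (.r 1363882122 .nil)))) (.node (.node (.I .tdp (.c 16 (.c 13057 (.c 18433 (.c 4673 .nil))))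 .nil) (.I .tdb (.c 8 (.c 24 (.c 13057 (.c 18433 .nil)))) (.r 16 .nil))) (.node (.I .tdb (.c 32 (.c 40 (.c 18433 (.c 8 .nil)))) (.b 24 (.r 16 .nil))) (.I .tdb (.c 32 (.c 40 (.c 18433 (.c 24 .nil)))) (.b 8 (.r 16 .nil)))))) (.node (.node (.node (.I .tdb (.c 8 (.c 24 (.c 13057 (.c 18433 .nil)))) (.b 16 .nil)) (.I .tdb (.c 32 (.c 40 (.c 18433 (.c 8 .nil)))) (.b 24 (.b 16 .nil)))) (.node (.I .tdb (.c 32 (.c 40 (.c 18433 (.c 24 .nil)))) (.b 8 (.b 16 .nil))) (.I .tdb (.c 0 (.c 48 (.c 8 (.c 16 .nil)))) (.b 24 (.b 13057 .nil))))) (.node (.node (.I .tdb (.c 8 (.c 24 (.c 13057 (.c 16 .nil)))) (.b 18433 .nil)) (.I .tdb (.c 32 (.c 40 (.c 18433 (.c 16 .nil)))) (.b 4673 .nil))) (.node (.I .tdb (.c 8 (.c 24 (.c 48 (.c 16 .nil)))) (.l 1310925065 .nil)) (.I .jac (.c 1310925065 (.c 8 (.c 24 .nil))) (.r 18562 .nil)))))) (.node (.node (.node (.node (.I .tdp (.c 16 (.c 48 (.c 4673 (.c 1310925065 .nil))))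 .nil) (.I .tdb (.c 32 (.c 12801 (.c 8 (.c 16 .nil)))) (.b 24 (.l 48 .nil)))) (.node (.I .tdb (.c 8 (.c 24 (.c 1310925065 (.c 16 .nil)))) (.l 48 .nil)) (.I .tdb (.c 8 (.c 24 (.c 48 (.c 16 .nil)))) (.b 1310925065 .nil)))) (.node (.node (.I .tdb (.c 8 (.c 24 (.c 537002313 (.c 16 .nil)))) (.l 48 .nil)) (.I .tdb (.c 8 (.c 24 (.c 48 (.c 16 .nil)))) (.b 537002313 .nil))) (.node (.I .jac (.c 8 (.c 43655363 (.c 40 .nil))) (.l 2049 .nil)) (.I .tdb (.c 40 (.c 18625 (.c 0 (.c 32 .nil)))) (.b 8 (.l 16 .nil)))))) (.node (.node (.node (.I .ass (.c 16 (.c 10066684875704784911325976521 (.c 32 .nil))) .nil) (.I .ass (.c 10066684875704784911325976521 (.c 16 (.c 32 .nil))) .nil)) (.node (.I .com (.c 16 (.c 10066684875704784911325976521 .nil)) (.r 32 .nil)) (.I .ass (.c 16 (.c 10063013877651720715266098121 (.c 32 .nil))) .nil))) (.node (.node (.I .com (.c 16 (.c 10063013877651720715266098121 .nil)) (.r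 32 .nil)) (.I .ass (.c 16 (.c 2105609 (.c 2775125321 .nil))) .nil)) (.node (.I .ass (.c 2105609 (.c 16 (.c 2775125321 .nil))) .nil) (.I .com (.c 16 (.c 2105609 .nil)) (.r 2775125321 .nil))))))))

noncomputable def c2_117 : Tr := (.node (.node (.node (.node (.node (.node (.I .jac (.c 18433 (.c 20891715 (.c 24 .nil))) (.l 32 .nil)) (.I .com (.c 76104792608240660304838596729314971079053310705683998184022688457 (.c 32 .nil)) .nil)) (.node (.I .com (.c 59109068451677941921 (.c 32 .nil)) .nil) (.I .com (.c 76106657758642486978324907789674929689114005148852078596974352393 (.c 32 .nil)) .nil))) (.node (.node (.I .jac (.c 2105737 (.c 24 (.c 40 .nil))) (.r 32 (.l 16 .nil))) (.I .com (.c 59109074018463238305 (.c 16 .nil)) .nil)) (.node (.I .ass (.c 16 (.c 10066684875777433669609463625 (.c 32 .nil))) .nil) (.I .ass (.c 10066684875777433669609463625 (.c 16 (.c 32 .nil))) .nil)))) (.node (.node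 (.node (.I .com (.c 16 (.c 10066684875777433669609463625 .nil)) (.r 32 .nil)) (.I .ass (.c 16 (.c 10063013877615402959898107913 (.c 32 .nil))) .nil)) (.node (.I .com (.c 16 (.c 10063013877615402959898107913 .nil)) (.r 32 .nil)) (.I .jac (.c 0 (.c 43059267 (.c 40 .nil))) (.b 24 (.l 32 .nil))))) (.node (.node (.I .com (.c 24783224170187564332730318127081650983965712254635073880241566897865 (.c 32 .nil)) .nil) (.I .com (.c 231045989681035425 (.c 32 .nil)) .nil)) (.node (.I .tdb (.c 40 (.c 48 (.c 0 (.c 24 .nil)))) (.b 32 (.b 8 (.l 16 .nil)))) (.I .com (.c 35473026505673 (.c 8385 .nil)) (.l 16 .nil)))))) (.node (.node (.node (.node (.I .com (.c 35470870263817 (.c 8385 .nil)) (.l 16 .nil)) (.I .ass (.c 16 (.c 35473026505673 (.c 8385 .nil))) .nil)) (.node (.I .ass (.c 35473026505673 (.c 16 (.c 8385 .nil))) .nil) (.I .com (.c 16 (.c 35473026505673 .nil)) (.r 8385 .nil)))) (.node (.node (.I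 .ass (.c 16 (.c 35470870263817 (.c 8385 .nil))) .nil) (.I .ass (.c 35470870263817 (.c 16 (.c 8385 .nil))) .nil)) (.node (.I .com (.c 16 (.c 35470870263817 .nil)) (.r 8385 .nil)) (.I .tdb (.c 24 (.c 32 (.c 8 (.c 16 .nil)))) (.b 0 (.l 18753 .nil)))))) (.node (.node (.node (.I .tdb (.c 0 (.c 8 (.c 16 (.c 8385 .nil)))) (.l 18753 .nil)) (.I .tdb (.c 24 (.c 32 (.c 0 (.c 16 .nil)))) (.b 8 (.l 18753 .nil)))) (.node (.I .tdb (.c 24 (.c 32 (.c 8 (.c 16 .nil)))) (.b 0 (.b 18753 .nil))) (.I .tdb (.c 0 (.c 8 (.c 16 (.c 8385 .nil)))) (.b 18753 .nil)))) (.node (.node (.I .tdb (.c 24 (.c 32 (.c 0 (.c 16 .nil)))) (.b 8 (.b 18753 .nil))) (.I .com (.c 2737112393 (.c 32 .nil)) (.l 16 (.b 4609 .nil)))) (.node (.I .ass (.c 16 (.c 2737112393 (.c 32 .nil))) (.b 4609 .nil)) (.I .ass (.c 2737112393 (.c 16 (.c 32 .nil))) (.b 4609 .nil))))))) (.node (.node (.node (.node (.node (.I .com (.c 16 (.c 2737112393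 .nil)) (.r 32 (.b 4609 .nil))) (.I .adp (.c 2737112393 (.c 8322 (.c 4609 .nil))) .nil)) (.node (.I .tdb (.c 0 (.c 24 (.c 32 (.c 16 .nil)))) (.l 2737112393 .nil)) (.I .adp (.c 16 (.c 32 (.c 4609 .nil))) (.l 2737112393 .nil)))) (.node (.node (.I .com (.c 169943305 (.c 16 .nil)) (.l 2737112393 .nil)) (.I .com (.c 598967998054665 (.c 2737112393 .nil)) .nil)) (.node (.I .ass (.c 2737112393 (.c 169943305 (.c 16 .nil))) .nil) (.I .ass (.c 169943305 (.c 2737112393 (.c 16 .nil))) .nil)))) (.node (.node (.node (.I .com (.c 2737112393 (.c 169943305 .nil)) (.r 16 .nil)) (.I .ass (.c 2737112393 (.c 169943177 (.c 32 .nil))) .nil)) (.node (.I .ass (.c 169943177 (.c 2737112393 (.c 32 .nil))) .nil) (.I .com (.c 2737112393 (.c 169943177 .nil)) (.r 32 .nil)))) (.node (.node (.I .jac (.c 4609 (.c 18497 (.c 40 .nil))) (.r 8322 .nil)) (.I .jac (.c 4609 (.c 8 (.c 48 .nil))) (.b 40 (.r 8322 .nil)))) (.node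 (.I .tdp (.c 16 (.c 32 (.c 2737112393 (.c 4609 .nil)))) .nil) (.I .tdb (.c 0 (.c 24 (.c 2737112393 (.c 16 .nil)))) (.l 32 .nil)))))) (.node (.node (.node (.node (.I .tdb (.c 40 (.c 18497 (.c 0 (.c 16 .nil)))) (.b 24 (.l 32 .nil))) (.I .com (.c 76104792608229500760647112777519395792203986434173576121315672905 (.c 32 .nil)) .nil)) (.node (.I .tdb (.c 40 (.c 18497 (.c 24 (.c 32 .nil)))) (.b 0 (.r 16 .nil))) (.I .tdb (.c 0 (.c 24 (.c 32 (.c 2737112393 .nil)))) (.r 16 .nil)))) (.node (.node (.I .tdb (.c 40 (.c 18497 (.c 0 (.c 32 .nil)))) (.b 24 (.r 16 .nil))) (.I .tdb (.c 0 (.c 24 (.c 32 (.c 16 .nil)))) (.b 2737112393 .nil))) (.node (.I .ass (.c 169943177 (.c 1324066185 (.c 32 .nil))) .nil) (.I .jac (.c 169943433 (.c 8 (.c 40 .nil))) (.r 8322 .nil))))) (.node (.node (.node (.I .com (.c 24783224170187564332730318127078046327666737372102191667975057542985 (.c 32 .nil)) .nil) (.I .tdb (.c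 0 (.c 24 (.c 32 (.c 16 .nil)))) (.b 1324066185 .nil))) (.node (.I .adp (.c 8652867 (.c 18753 (.c 4609 .nil))) .nil) (.I .jac (.c 4609 (.c 40 (.c 48 .nil))) (.l 8652867 .nil)))) (.node (.node (.I .com (.c 231046163358604233 (.c 8652867 .nil)) .nil) (.I .com (.c 231045989336561673 (.c 8652867 .nil)) .nil)) (.node (.I .jac (.c 4609 (.c 40 (.c 48 .nil))) (.l 16 (.l 8257 .nil))) (.I .ass (.c 8257 (.c 231046163358604233 (.c 16 .nil))) .nil)))))))

noncomputable def c2_118 : Tr := (.node (.node (.node (.node (.node (.node (.I .ass (.c 231046163358604233 (.c 8257 (.c 16 .nil))) .nil) (.I .com (.c 8257 (.c 231046163358604233 .nil)) (.r 16 .nil))) (.node (.I .ass (.c 8257 (.c 169943177 (.c 18753 .nil))) .nil) (.I .ass (.c 169943177 (.c 8257 (.c 18753 .nil))) .nil))) (.node (.node (.I .com (.c 8257 (.c 169943177 .nil)) (.r 18753 .nil)) (.I .tdb (.c 0 (.c 24 (.c 8257 (.c 16 .nil)))) (.l 18753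 .nil))) (.node (.I .com (.c 49484669139990217052337993 (.c 18753 .nil)) .nil) (.I .tdb (.c 40 (.c 48 (.c 0 (.c 32 .nil)))) (.b 8 (.b 24 (.r 16 .nil))))))) (.node (.node (.node (.I .adp (.c 32 (.c 18753 (.c 4609 .nil))) (.l 2113 .nil)) (.I .jac (.c 4609 (.c 40 (.c 48 .nil))) (.l 32 (.l 2113 .nil)))) (.node (.I .com (.c 231046163358604233 (.c 32 .nil)) (.l 2113 .nil)) (.I .ass (.c 2113 (.c 231045989336561673 (.c 32 .nil))) .nil))) (.node (.node (.I .ass (.c 231045989336561673 (.c 2113 (.c 32 .nil))) .nil) (.I .com (.c 2113 (.c 231045989336561673 .nil)) (.r 32 .nil))) (.node (.I .com (.c 8652803 (.c 18753 .nil)) (.b 4673 .nil)) (.I .jac (.c 2718204233 (.c 8 (.c 24 .nil))) (.r 8322 .nil)))))) (.node (.node (.node (.node (.I .tdp (.c 16 (.c 32 (.c 2718204233 (.c 4673 .nil)))) .nil) (.I .tdb (.c 40 (.c 18433 (.c 8 (.c 16 .nil)))) (.b 24 (.l 32 .nil)))) (.node (.I .tdb (.c 8 (.c 24 (.c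 2718204233 (.c 16 .nil)))) (.l 32 .nil)) (.I .tdb (.c 40 (.c 18433 (.c 8 (.c 32 .nil)))) (.b 24 (.r 16 .nil))))) (.node (.node (.I .tdb (.c 8 (.c 24 (.c 32 (.c 2718204233 .nil)))) (.r 16 .nil)) (.I .adp (.c 1310925193 (.c 8322 (.c 4673 .nil))) .nil)) (.node (.I .tdb (.c 8 (.c 24 (.c 32 (.c 16 .nil)))) (.l 1310925193 .nil)) (.I .adp (.c 16 (.c 32 (.c 4673 .nil))) (.l 1310925193 .nil))))) (.node (.node (.node (.I .tdb (.c 8 (.c 24 (.c 1310925193 (.c 16 .nil)))) (.l 32 .nil)) (.I .tdb (.c 48 (.c 12801 (.c 8 (.c 32 .nil)))) (.b 24 (.r 16 .nil)))) (.node (.I .tdb (.c 0 (.c 40 (.c 8 (.c 32 .nil)))) (.b 48 (.b 24 (.r 16 .nil)))) (.I .tdb (.c 48 (.c 12801 (.c 24 (.c 32 .nil)))) (.b 8 (.r 16 .nil))))) (.node (.node (.I .tdb (.c 0 (.c 40 (.c 24 (.c 32 .nil)))) (.b 48 (.b 8 (.r 16 .nil)))) (.I .adp (.c 8652803 (.c 18753 (.c 4673 .nil))) .nil)) (.node (.I .jac (.c 8652803 (.c 8 (.c 24 .nil)))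 (.r 18753 .nil)) (.I .tdb (.c 40 (.c 48 (.c 8 (.c 16 .nil)))) (.b 24 (.l 8193 .nil)))))))) (.node (.node (.node (.node (.node (.I .jac (.c 4673 (.c 40 (.c 48 .nil))) (.l 16 (.l 8193 .nil))) (.I .tdb (.c 8 (.c 24 (.c 8193 (.c 16 .nil)))) (.l 18753 .nil))) (.node (.I .tdb (.c 40 (.c 48 (.c 8 (.c 32 .nil)))) (.b 0 (.b 24 (.r 16 .nil)))) (.I .tdb (.c 0 (.c 32 (.c 18753 (.c 24 .nil)))) (.b 8 (.r 16 .nil))))) (.node (.node (.I .tdb (.c 40 (.c 48 (.c 0 (.c 24 .nil)))) (.b 32 (.b 8 (.r 16 .nil)))) (.I .tdb (.c 40 (.c 48 (.c 24 (.c 32 .nil)))) (.b 0 (.b 8 (.r 16 .nil))))) (.node (.I .tdb (.c 8 (.c 24 (.c 8193 (.c 16 .nil)))) (.b 18753 .nil)) (.I .tdb (.c 8 (.c 24 (.c 32 (.c 18753 .nil)))) (.l 2049 .nil))))) (.node (.node (.node (.I .tdb (.c 40 (.c 48 (.c 8 (.c 32 .nil)))) (.b 24 (.l 2049 .nil))) (.I .adp (.c 32 (.c 18753 (.c 4673 .nil))) (.l 2049 .nil))) (.node (.I .jac (.c 12801 (.c 8 (.c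 48 .nil))) (.b 32 (.b 4737 .nil))) (.I .jac (.c 12801 (.c 18497 (.c 32 .nil))) (.b 4737 .nil)))) (.node (.node (.I .jac (.c 1310925193 (.c 8 (.c 32 .nil))) (.b 4737 .nil)) (.I .jac (.c 12801 (.c 8257 (.c 48 .nil))) (.b 4737 .nil))) (.node (.I .jac (.c 12801 (.c 8 (.c 32 .nil))) (.b 48 (.b 4737 .nil))) (.I .jac (.c 2718204233 (.c 8 (.c 32 .nil))) (.b 4737 .nil)))))) (.node (.node (.node (.node (.I .jac (.c 12801 (.c 8 (.c 48 .nil))) (.r 32 (.b 4737 .nil))) (.I .jac (.c 0 (.c 18497 (.c 40 .nil))) (.r 32 (.b 4737 .nil)))) (.node (.I .jac (.c 0 (.c 8 (.c 48 .nil))) (.b 40 (.r 32 (.b 4737 .nil)))) (.I .jac (.c 13748198893136698057 (.c 16 (.c 24 .nil))) (.r 32 .nil)))) (.node (.node (.I .adp (.c 35473026505673 (.c 32 (.c 4737 .nil))) .nil) (.I .adp (.c 13748192181200529417 (.c 32 (.c 4737 .nil))) .nil)) (.node (.I .jac (.c 13748192181200529417 (.c 16 (.c 24 .nil))) (.r 32 .nil)) (.I .adp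 (.c 8193 (.c 2737112393 (.c 4737 .nil))) .nil)))) (.node (.node (.node (.I .adp (.c 1324066185 (.c 32 (.c 24 .nil))) (.b 2049 .nil)) (.I .adp (.c 1324066185 (.c 32 (.c 16 .nil))) (.b 4609 .nil))) (.node (.I .adp (.c 1324066185 (.c 32 (.c 0 .nil))) (.b 4737 .nil)) (.I .com (.c 8193 (.c 1324066185 .nil)) (.b 4737 .nil)))) (.node (.node (.I .jac (.c 18433 (.c 8 (.c 40 .nil))) (.r 32 (.b 4737 .nil))) (.I .jac (.c 0 (.c 12865 (.c 48 .nil))) (.r 32 (.b 4737 .nil)))) (.node (.I .jac (.c 0 (.c 8 (.c 40 .nil))) (.b 48 (.r 32 (.b 4737 .nil)))) (.I .adp (.c 59109074018392946377 (.c 32 (.c 4737 .nil))) .nil)))))))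

noncomputable def c2_119 : Tr := (.node (.node (.node (.node (.node (.node (.I .jac (.c 8193 (.c 16 (.c 24 .nil))) (.r 1324066185 .nil)) (.I .adp (.c 15456163896880201 (.c 32 (.c 4737 .nil))) .nil)) (.node (.I .jac (.c 15456163896880201 (.c 16 (.c 24 .nil))) (.r 32 .nil)) (.I .jac (.c 43954755 (.c 16 (.c 24 .nil))) (.l 8193 .nil)))) (.node (.node (.I .jac (.c 8193 (.c 16 (.c 24 .nil))) (.r 43954755 .nil)) (.I .adp (.c 2737112329 (.c 40 (.c 24 .nil))) (.b 2049 .nil))) (.node (.I .adp (.c 2737112329 (.c 40 (.c 16 .nil))) (.b 4609 .nil)) (.I .adp (.c 2737112329 (.c 40 (.c 0 .nil))) (.b 4737 .nil))))) (.node (.node (.node (.I .com (.c 12801 (.c 2737112329 .nil)) (.b 4737 .nil)) (.I .jac (.c 8193 (.c 8 (.c 48 .nil))) (.r 40 (.b 4737 .nil)))) (.node (.I .jac (.c 0 (.c 18497 (.c 32 .nil))) (.r 40 (.b 4737 .nil))) (.I .jac (.c 0 (.c 8 (.c 48 .nil))) (.b 32 (.r 40 (.b 4737 .nil)))))) (.node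 (.node (.I .adp (.c 2306972423229201097 (.c 40 (.c 4737 .nil))) .nil) (.I .jac (.c 2306972423229201097 (.c 16 (.c 24 .nil))) (.r 40 .nil))) (.node (.I .jac (.c 59109062884628932489 (.c 16 (.c 24 .nil))) (.r 40 .nil)) (.I .adp (.c 35473026505609 (.c 40 (.c 4737 .nil))) .nil))))) (.node (.node (.node (.node (.I .adp (.c 2306969673777850377 (.c 40 (.c 4737 .nil))) .nil) (.I .jac (.c 2306969673777850377 (.c 16 (.c 24 .nil))) (.r 40 .nil))) (.node (.I .adp (.c 12801 (.c 2737112329 (.c 4737 .nil))) .nil) (.I .jac (.c 12801 (.c 16 (.c 24 .nil))) (.r 2737112329 .nil)))) (.node (.node (.I .adp (.c 545424777 (.c 40 (.c 24 .nil))) (.b 2049 .nil)) (.I .adp (.c 545424777 (.c 40 (.c 16 .nil))) (.b 4609 .nil))) (.node (.I .adp (.c 545424777 (.c 40 (.c 0 .nil))) (.b 4737 .nil)) (.I .com (.c 12801 (.c 545424777 .nil)) (.b 4737 .nil))))) (.node (.node (.node (.I .adp (.c 59109071234951844553 (.c 40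 (.c 4737 .nil))) .nil) (.I .adp (.c 35468714087433 (.c 40 (.c 4737 .nil))) .nil)) (.node (.I .jac (.c 545424777 (.c 16 (.c 24 .nil))) (.l 12801 .nil)) (.I .adp (.c 15246236343241801 (.c 40 (.c 4737 .nil))) .nil))) (.node (.node (.I .jac (.c 43655235 (.c 16 (.c 24 .nil))) (.l 12801 .nil)) (.I .tdb (.c 32 (.c 40 (.c 18497 (.c 0 .nil)))) (.b 4737 .nil))) (.node (.I .com (.c 1310925065 (.c 18497 .nil)) (.b 4737 .nil)) (.I .jac (.c 4737 (.c 32 (.c 40 .nil))) (.l 2718203977 .nil))))))) (.node (.node (.node (.node (.node (.I .jac (.c 2718203977 (.c 16 (.c 24 .nil))) (.r 13057 .nil)) (.I .jac (.c 4737 (.c 32 (.c 40 .nil))) (.l 2105737 .nil))) (.node (.I .adp (.c 1310925065 (.c 18497 (.c 4737 .nil))) .nil) (.I .jac (.c 18497 (.c 16 (.c 24 .nil))) (.l 537002313 .nil)))) (.node (.node (.I .jac (.c 537002313 (.c 16 (.c 24 .nil))) (.r 18497 .nil)) (.I .tdp (.c 32 (.c 40 (.c 18497 (.c 16 .nil))))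 (.b 4609 .nil))) (.node (.I .tdb (.c 8 (.c 48 (.c 16 (.c 32 .nil)))) (.l 40 (.b 4609 .nil))) (.I .com (.c 15246281046235273 (.c 40 .nil)) (.b 4609 .nil))))) (.node (.node (.node (.I .tdb (.c 8 (.c 48 (.c 16 (.c 40 .nil)))) (.r 32 (.b 4609 .nil))) (.I .com (.c 21307395 (.c 18497 .nil)) (.b 4737 .nil))) (.node (.I .jac (.c 0 (.c 8 (.c 48 .nil))) (.r 13058 (.b 4737 .nil))) (.I .tdp (.c 32 (.c 40 (.c 18497 (.c 0 .nil)))) (.b 4737 .nil)))) (.node (.node (.I .tdb (.c 8 (.c 48 (.c 0 (.c 32 .nil)))) (.l 40 (.b 4737 .nil))) (.I .com (.c 15246191640313993 (.c 40 .nil)) (.b 4737 .nil))) (.node (.I .tdb (.c 8 (.c 48 (.c 0 (.c 40 .nil)))) (.r 32 (.b 4737 .nil))) (.I .jac (.c 15456118887243913 (.c 16 (.c 24 .nil))) (.r 32 .nil)))))) (.node (.node (.node (.node (.I .adp (.c 15246191640313993 (.c 40 (.c 4737 .nil))) .nil) (.I .jac (.c 15246191640313993 (.c 16 (.c 24 .nil))) (.r 40 .nil))) (.node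 (.I .adp (.c 580749782704585 (.c 40 (.c 4737 .nil))) .nil) (.I .jac (.c 580749782704585 (.c 16 (.c 24 .nil))) (.r 40 .nil)))) (.node (.node (.I .jac (.c 2718203977 (.c 16 (.c 24 .nil))) (.r 13058 .nil)) (.I .tdp (.c 32 (.c 40 (.c 2718203977 (.c 4737 .nil)))) .nil)) (.node (.I .tdb (.c 16 (.c 24 (.c 32 (.c 2718203977 .nil)))) (.l 40 .nil)) (.I .tdb (.c 8 (.c 18433 (.c 24 (.c 40 .nil)))) (.b 16 (.r 32 .nil)))))) (.node (.node (.node (.I .tdb (.c 0 (.c 48 (.c 24 (.c 40 .nil)))) (.b 8 (.b 16 (.r 32 .nil)))) (.I .tdb (.c 16 (.c 24 (.c 32 (.c 40 .nil)))) (.b 2718203977 .nil))) (.node (.I .adp (.c 2105737 (.c 13058 (.c 4737 .nil))) .nil) (.I .tdb (.c 16 (.c 24 (.c 32 (.c 40 .nil)))) (.l 2105737 .nil)))) (.node (.node (.I .adp (.c 32 (.c 40 (.c 4737 .nil))) (.l 2105737 .nil)) (.I .com (.c 179513673 (.c 32 .nil)) (.l 2105737 .nil))) (.node (.I .jac (.c 21307395 (.c 16 (.c 24 .nil))) (.r 18497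 .nil)) (.I .tdb (.c 8 (.c 48 (.c 24 (.c 32 .nil)))) (.b 16 (.l 12801 .nil)))))))))

noncomputable def c2_120 : Tr := (.node (.node (.node (.node (.node (.node (.I .tdb (.c 16 (.c 24 (.c 32 (.c 18497 .nil)))) (.l 12801 .nil)) (.I .adp (.c 18497 (.c 32 (.c 4737 .nil))) (.l 12801 .nil))) (.node (.I .jac (.c 18497 (.c 16 (.c 24 .nil))) (.r 32 (.l 12801 .nil))) (.I .tdb (.c 0 (.c 40 (.c 18497 (.c 16 .nil)))) (.b 24 (.l 32 .nil))))) (.node (.node (.I .tdb (.c 8 (.c 48 (.c 24 (.c 40 .nil)))) (.b 0 (.b 16 (.l 32 .nil)))) (.I .tdb (.c 0 (.c 40 (.c 16 (.c 32 .nil)))) (.b 24 (.r 18497 .nil)))) (.node (.I .tdb (.c 16 (.c 24 (.c 32 (.c 12801 .nil)))) (.b 18497 .nil)) (.I .adp (.c 8193 (.c 2737260370 (.c 4737 .nil))) .nil)))) (.node (.node (.node (.I .jac (.c 8193 (.c 16 (.c 24 .nil))) (.r 2737260370 .nil)) (.I .tdp (.c 18497 (.c 40 (.c 4737 (.c 8193 .nil)))) .nil)) (.node (.I .tdb (.c 0 (.c 32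 (.c 18497 (.c 16 .nil)))) (.b 24 (.l 40 .nil))) (.I .tdb (.c 0 (.c 32 (.c 18497 (.c 24 .nil)))) (.b 16 (.l 40 .nil))))) (.node (.node (.I .tdb (.c 16 (.c 24 (.c 8193 (.c 18497 .nil)))) (.l 40 .nil)) (.I .tdb (.c 0 (.c 32 (.c 16 (.c 40 .nil)))) (.b 24 (.r 18497 .nil)))) (.node (.I .tdb (.c 0 (.c 32 (.c 24 (.c 40 .nil)))) (.b 16 (.r 18497 .nil))) (.I .tdb (.c 16 (.c 24 (.c 40 (.c 8193 .nil)))) (.r 18497 .nil)))))) (.node (.node (.node (.node (.I .tdb (.c 0 (.c 32 (.c 16 (.c 40 .nil)))) (.b 24 (.b 18497 .nil))) (.I .tdb (.c 16 (.c 24 (.c 8193 (.c 18497 .nil)))) (.b 40 .nil))) (.node (.I .tdb (.c 0 (.c 32 (.c 18497 (.c 40 .nil)))) (.b 4737 .nil)) (.I .tdb (.c 16 (.c 24 (.c 40 (.c 18497 .nil)))) (.b 8193 .nil)))) (.node (.node (.I .tdb (.c 8 (.c 40 (.c 0 (.c 48 .nil)))) (.b 32 (.b 4737 .nil))) (.I .adp (.c 18433 (.c 1324066057 (.c 4737 .nil))) .nil)) (.node (.I .jac (.c 1324066057 (.c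 16 (.c 24 .nil))) (.l 18433 .nil)) (.I .jac (.c 18433 (.c 16 (.c 24 .nil))) (.r 1324066057 .nil))))) (.node (.node (.node (.I .jac (.c 2306971873338799817 (.c 16 (.c 24 .nil))) (.r 48 .nil)) (.I .adp (.c 13748192181200529289 (.c 48 (.c 4737 .nil))) .nil)) (.node (.I .jac (.c 13748192181200529289 (.c 16 (.c 24 .nil))) (.r 48 .nil)) (.I .adp (.c 2306969673777850313 (.c 48 (.c 4737 .nil))) .nil))) (.node (.node (.I .jac (.c 2306969673777850313 (.c 16 (.c 24 .nil))) (.r 48 .nil)) (.I .jac (.c 12801 (.c 8 (.c 32 .nil))) (.r 48 (.b 4737 .nil)))) (.node (.I .jac (.c 0 (.c 8257 (.c 40 .nil))) (.r 48 (.b 4737 .nil))) (.I .jac (.c 0 (.c 8 (.c 32 .nil))) (.b 40 (.r 48 (.b 4737 .nil))))))))) (.node (.node (.node (.node (.node (.I .adp (.c 18433 (.c 545424713 (.c 4737 .nil))) .nil) (.I .jac (.c 18433 (.c 16 (.c 24 .nil))) (.r 545424713 .nil))) (.node (.I .jac (.c 13748196208362033865 (.c 16 (.c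 24 .nil))) (.r 48 .nil)) (.I .com (.c 18433 (.c 21307459 .nil)) (.b 4737 .nil)))) (.node (.node (.I .adp (.c 18433 (.c 21307459 (.c 4737 .nil))) .nil) (.I .jac (.c 18433 (.c 16 (.c 24 .nil))) (.r 21307459 .nil))) (.node (.I .adp (.c 3632062472293449 (.c 48 (.c 4737 .nil))) .nil) (.I .tdb (.c 32 (.c 48 (.c 0 (.c 8 .nil)))) (.b 40 (.b 4737 .nil)))))) (.node (.node (.node (.I .com (.c 2718204169 (.c 12865 .nil)) (.b 4737 .nil)) (.I .adp (.c 2718204169 (.c 12865 (.c 4737 .nil))) .nil)) (.node (.I .adp (.c 537002377 (.c 12865 (.c 4737 .nil))) .nil) (.I .jac (.c 537002377 (.c 16 (.c 24 .nil))) (.r 12865 .nil)))) (.node (.node (.I .adp (.c 1310924873 (.c 18689 (.c 4737 .nil))) .nil) (.I .jac (.c 4737 (.c 32 (.c 48 .nil))) (.l 1310924873 .nil))) (.node (.I .adp (.c 2105673 (.c 18689 (.c 4737 .nil))) .nil) (.I .jac (.c 4737 (.c 32 (.c 48 .nil))) (.l 2105673 .nil)))))) (.node (.node (.node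 (.node (.I .tdb (.c 8 (.c 40 (.c 32 (.c 48 .nil)))) (.b 0 (.b 4737 .nil))) (.I .com (.c 43655171 (.c 12865 .nil)) (.b 4737 .nil))) (.node (.I .adp (.c 14629225721520521 (.c 32 (.c 4737 .nil))) .nil) (.I .jac (.c 43655171 (.c 16 (.c 24 .nil))) (.r 12865 .nil)))) (.node (.node (.I .tdb (.c 8 (.c 40 (.c 16 (.c 32 .nil)))) (.b 24 (.l 18433 .nil))) (.I .adp (.c 12865 (.c 32 (.c 4737 .nil))) (.l 18433 .nil))) (.node (.I .tdb (.c 0 (.c 48 (.c 24 (.c 40 .nil)))) (.b 8 (.b 16 (.l 32 .nil)))) (.I .tdb (.c 8 (.c 40 (.c 18433 (.c 16 .nil)))) (.b 24 (.l 32 .nil)))))) (.node (.node (.node (.I .tdb (.c 8 (.c 40 (.c 18433 (.c 24 .nil)))) (.b 16 (.l 32 .nil))) (.I .tdb (.c 16 (.c 24 (.c 12865 (.c 18433 .nil)))) (.l 32 .nil))) (.node (.I .tdb (.c 0 (.c 48 (.c 16 (.c 32 .nil)))) (.b 24 (.r 12865 .nil))) (.I .tdb (.c 0 (.c 48 (.c 24 (.c 32 .nil)))) (.b 16 (.r 12865 .nil))))) (.node (.node (.I .tdb (.c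 16 (.c 24 (.c 32 (.c 18433 .nil)))) (.b 12865 .nil)) (.I .tdb (.c 8 (.c 40 (.c 16 (.c 32 .nil)))) (.b 24 (.b 18433 .nil)))) (.node (.I .tdb (.c 16 (.c 24 (.c 32 (.c 12865 .nil)))) (.b 18433 .nil)) (.I .jac (.c 580749782704521 (.c 16 (.c 24 .nil))) (.r 48 .nil))))))))

noncomputable def c2_121 : Tr := (.node (.node (.node (.node (.node (.node (.I .tdb (.c 16 (.c 24 (.c 32 (.c 48 .nil)))) (.l 1310924873 .nil)) (.I .com (.c 179513737 (.c 32 .nil)) (.l 1310924873 .nil))) (.node (.I .tdb (.c 8 (.c 12801 (.c 24 (.c 32 .nil)))) (.b 16 (.l 48 .nil))) (.I .tdb (.c 0 (.c 40 (.c 24 (.c 32 .nil)))) (.b 8 (.b 16 (.l 48 .nil)))))) (.node (.node (.I .tdb (.c 16 (.c 24 (.c 32 (.c 1310924873 .nil)))) (.l 48 .nil)) (.I .tdb (.c 16 (.c 24 (.c 32 (.c 1310924873 .nil)))) (.b 48 .nil))) (.node (.I .adp (.c 8193 (.c 1324169106 (.c 4737 .nil))) .nil) (.I .tdb (.c 8 (.c 40 (.c 16 (.c 48 .nil)))) (.b 24 (.l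 8193 .nil)))))) (.node (.node (.node (.I .tdb (.c 8 (.c 40 (.c 24 (.c 48 .nil)))) (.b 16 (.l 8193 .nil))) (.I .tdb (.c 16 (.c 24 (.c 48 (.c 12865 .nil)))) (.l 8193 .nil))) (.node (.I .adp (.c 12865 (.c 48 (.c 4737 .nil))) (.l 8193 .nil)) (.I .jac (.c 12865 (.c 16 (.c 24 .nil))) (.r 48 (.l 8193 .nil))))) (.node (.node (.I .jac (.c 8193 (.c 16 (.c 24 .nil))) (.r 1324169106 .nil)) (.I .tdp (.c 12865 (.c 48 (.c 4737 (.c 8193 .nil)))) .nil)) (.node (.I .tdb (.c 16 (.c 24 (.c 8193 (.c 12865 .nil)))) (.l 48 .nil)) (.I .tdb (.c 16 (.c 24 (.c 48 (.c 8193 .nil)))) (.r 12865 .nil)))))) (.node (.node (.node (.node (.I .tdb (.c 0 (.c 32 (.c 24 (.c 48 .nil)))) (.b 16 (.b 12865 .nil))) (.I .tdb (.c 16 (.c 24 (.c 48 (.c 8193 .nil)))) (.b 12865 .nil))) (.node (.I .tdb (.c 0 (.c 32 (.c 12865 (.c 16 .nil)))) (.b 24 (.b 48 .nil))) (.I .tdb (.c 0 (.c 32 (.c 12865 (.c 24 .nil)))) (.b 16 (.b 48 .nil)))))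 (.node (.node (.I .tdb (.c 16 (.c 24 (.c 8193 (.c 12865 .nil)))) (.b 48 .nil)) (.I .tdb (.c 0 (.c 32 (.c 12865 (.c 48 .nil)))) (.b 4737 .nil))) (.node (.I .tdb (.c 16 (.c 24 (.c 48 (.c 12865 .nil)))) (.b 8193 .nil)) (.I .adp (.c 2718204233 (.c 8257 (.c 4737 .nil))) .nil)))) (.node (.node (.node (.I .jac (.c 8257 (.c 16 (.c 24 .nil))) (.l 2718204233 .nil)) (.I .adp (.c 1310925193 (.c 8257 (.c 4737 .nil))) .nil)) (.node (.I .jac (.c 1310925193 (.c 16 (.c 24 .nil))) (.r 8257 .nil)) (.I .jac (.c 4737 (.c 40 (.c 48 .nil))) (.l 537002057 .nil)))) (.node (.node (.I .jac (.c 537002057 (.c 16 (.c 24 .nil))) (.r 18753 .nil)) (.I .ass (.c 18433 (.c 8257 (.c 40 .nil))) (.b 4737 .nil))) (.node (.I .com (.c 3423058053194057 (.c 48 .nil)) (.b 4737 .nil)) (.I .jac (.c 43954691 (.c 16 (.c 24 .nil))) (.r 8257 .nil))))))) (.node (.node (.node (.node (.node (.I .tdb (.c 8 (.c 32 (.c 16 (.c 40 .nil))))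 (.b 24 (.l 18433 .nil))) (.I .tdb (.c 8 (.c 32 (.c 24 (.c 40 .nil)))) (.b 16 (.l 18433 .nil)))) (.node (.I .tdb (.c 16 (.c 24 (.c 40 (.c 8257 .nil)))) (.l 18433 .nil)) (.I .jac (.c 8257 (.c 16 (.c 24 .nil))) (.r 40 (.l 18433 .nil))))) (.node (.node (.I .tdb (.c 16 (.c 24 (.c 40 (.c 18433 .nil)))) (.b 8257 .nil)) (.I .tdb (.c 16 (.c 24 (.c 8257 (.c 18433 .nil)))) (.b 40 .nil))) (.node (.I .tdb (.c 16 (.c 24 (.c 40 (.c 8257 .nil)))) (.b 18433 .nil)) (.I .adp (.c 3423058053194057 (.c 48 (.c 4737 .nil))) .nil)))) (.node (.node (.node (.I .jac (.c 3423058053194057 (.c 16 (.c 24 .nil))) (.r 48 .nil)) (.I .tdb (.c 0 (.c 40 (.c 8 (.c 48 .nil)))) (.b 32 (.b 4737 .nil)))) (.node (.I .tdb (.c 8 (.c 32 (.c 16 (.c 48 .nil)))) (.b 24 (.b 12801 .nil))) (.I .adp (.c 537002057 (.c 18754 (.c 4737 .nil))) .nil))) (.node (.node (.I .tdb (.c 16 (.c 24 (.c 40 (.c 48 .nil)))) (.l 537002057 .nil)) (.I .adp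 (.c 40 (.c 48 (.c 4737 .nil))) (.l 537002057 .nil))) (.node (.I .com (.c 179513737 (.c 40 .nil)) (.l 537002057 .nil)) (.I .jac (.c 537002057 (.c 16 (.c 24 .nil))) (.r 18754 .nil)))))) (.node (.node (.node (.node (.I .tdp (.c 40 (.c 48 (.c 4737 (.c 537002057 .nil)))) .nil) (.I .tdb (.c 8 (.c 8193 (.c 16 (.c 48 .nil)))) (.b 24 (.r 40 .nil)))) (.node (.I .tdb (.c 0 (.c 32 (.c 16 (.c 48 .nil)))) (.b 8 (.b 24 (.r 40 .nil)))) (.I .tdb (.c 8 (.c 8193 (.c 24 (.c 48 .nil)))) (.b 16 (.r 40 .nil))))) (.node (.node (.I .tdb (.c 0 (.c 32 (.c 24 (.c 48 .nil)))) (.b 8 (.b 16 (.r 40 .nil)))) (.I .tdb (.c 16 (.c 24 (.c 48 (.c 537002057 .nil)))) (.r 40 .nil))) (.node (.I .tdb (.c 16 (.c 24 (.c 48 (.c 537002057 .nil)))) (.b 40 .nil)) (.I .tdb (.c 16 (.c 24 (.c 40 (.c 537002057 .nil)))) (.b 48 .nil))))) (.node (.node (.node (.I .tdb (.c 8 (.c 8193 (.c 40 (.c 48 .nil)))) (.b 4737 .nil)) (.I .tdb (.c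 16 (.c 24 (.c 40 (.c 48 .nil)))) (.b 2105609 .nil))) (.node (.I .jac (.c 9024942441010185 (.c 24 (.c 40 .nil))) (.l 8 .nil)) (.I .com (.c 3396677733571839102889236125600925175761087616286488823818833200009 (.c 8 .nil)) .nil))) (.node (.node (.I .com (.c 3396625955800353299884767459018054552292453520276230815172891107337 (.c 8 .nil)) .nil) (.I .jac (.c 9024976834606985 (.c 24 (.c 48 .nil))) (.l 8 .nil))) (.node (.I .jac (.c 33587529 (.c 18625 (.c 32 .nil))) (.l 8 .nil)) (.I .jac (.c 33587529 (.c 24 (.c 48 .nil))) (.b 32 (.l 8 .nil)))))))))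

noncomputable def c2_122 : Tr := (.node (.node (.node (.node (.node (.node (.I .jac (.c 33587465 (.c 24 (.c 48 .nil))) (.b 40 (.l 8 .nil))) (.I .com (.c 3396574178719779867970206709213288141320622971021291867826069699529 (.c 8 .nil)) .nil)) (.node (.I .com (.c 3396625955800353299884767459018721787301486067898984102757536990153 (.c 8 .nil)) .nil) (.I .jac (.c 9024976834607113 (.c 24 (.c 32 .nil))) (.l 8 .nil)))) (.node (.node (.I .com (.c 3396677733571839102889236125599590695571808317775861932762086194185 (.c 8 .nil)) .nil) (.I .com (.c 3396729512034052482070957803013526327363227865511269471004809109321 (.c 8 .nil)) .nil)) (.node (.I .jac (.c 231045815314584585 (.c 16 (.c 40 .nil))) (.l 8 .nil)) (.I .com (.c 1459028238553203103993755533577261697621901148971561540346963769967592329 (.c 8 .nil)) .nil)))) (.node (.node (.node (.I .com (.c 1459015051463144568155825199432980697041342257723218526480176662311994249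 (.c 8 .nil)) .nil) (.I .com (.c 1459023842844933950499556010948851291195594742145000102581522084745032649 (.c 8 .nil)) .nil)) (.node (.I .com (.c 1459023842844932333893328974360730909237195607661597289587034405219693577 (.c 8 .nil)) .nil) (.I .com (.c 1459023842844927484074647864604431512866864223127535792803546291575824393 (.c 8 .nil)) .nil))) (.node (.node (.I .jac (.c 231045989336561545 (.c 16 (.c 48 .nil))) (.l 8 .nil)) (.I .jac (.c 169943369 (.c 18561 (.c 32 .nil))) (.l 8 .nil))) (.node (.I .jac (.c 169943369 (.c 16 (.c 48 .nil))) (.b 32 (.l 8 .nil))) (.I .com (.c 1459015051463146184754746556962164963472259183976827527180371833926974409 (.c 8 .nil)) .nil))))) (.node (.node (.node (.node (.I .jac (.c 231045989336561673 (.c 16 (.c 32 .nil))) (.l 8 .nil)) (.I .com (.c 1459015051463142951556903841905138958216352709921802402533905189875073993 (.c 8 .nil)) .nil)) (.node (.I .com (.c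 1459028238553203103993755533577260823007130444416315754662366410590321673 (.c 8 .nil)) .nil) (.I .com (.c 1459015051463144568155825199432979822430524063991327531422054381118536713 (.c 8 .nil)) .nil))) (.node (.node (.I .com (.c 59109071234951844809 (.c 8 .nil)) (.b 4737 .nil)) (.I .com (.c 2306972423229201353 (.c 8 .nil)) (.b 4737 .nil))) (.node (.I .com (.c 13748196208362034185 (.c 8 .nil)) (.b 4737 .nil)) (.I .jac (.c 8 (.c 16 (.c 24 .nil))) (.l 13748198893136698249 .nil))))) (.node (.node (.node (.I .adp (.c 59109071234951844809 (.c 8 (.c 4737 .nil))) .nil) (.I .adp (.c 2306972423229201353 (.c 8 (.c 4737 .nil))) .nil)) (.node (.I .jac (.c 8 (.c 16 (.c 24 .nil))) (.l 2306972423229201353 .nil)) (.I .jac (.c 2306972423229201353 (.c 16 (.c 24 .nil))) (.r 8 .nil)))) (.node (.node (.I .adp (.c 13748196208362034185 (.c 8 (.c 4737 .nil))) .nil) (.I .jac (.c 13748196208362034185 (.c 16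 (.c 24 .nil))) (.r 8 .nil))) (.node (.I .jac (.c 179513673 (.c 32 (.c 48 .nil))) (.l 513 .nil)) (.I .jac (.c 9024942441010121 (.c 24 (.c 48 .nil))) (.l 8 .nil))))))) (.node (.node (.node (.node (.node (.I .jac (.c 33587465 (.c 18625 (.c 40 .nil))) (.l 8 .nil)) (.I .com (.c 3396574178719779867970206709213955371244077516775865272270634262409 (.c 8 .nil)) .nil)) (.node (.I .com (.c 3396729512034148832394861772917883078369351942693322843864918375241 (.c 8 .nil)) .nil) (.I .com (.c 1459023842844932333893328974360732658464102006581455240230057549752828681 (.c 8 .nil)) .nil))) (.node (.node (.I .com (.c 1459015051463146184754746556962165400777668280843015293441321949200293769 (.c 8 .nil)) .nil) (.I .com (.c 1459015051463142951556903841905138520910943613056099173736733023887826953 (.c 8 .nil)) .nil)) (.node (.I .jac (.c 42762755 (.c 32 (.c 40 .nil))) (.b 4737 .nil)) (.I .jac (.c 8 (.c 16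 (.c 24 .nil))) (.l 59109074018392946569 .nil))))) (.node (.node (.node (.I .jac (.c 59109074018392946569 (.c 16 (.c 24 .nil))) (.r 8 .nil)) (.I .jac (.c 2049 (.c 24 (.c 43954947 .nil))) (.l 8 .nil))) (.node (.I .com (.c 15456299194881681 (.c 8 .nil)) .nil) (.I .jac (.c 4609 (.c 16 (.c 43954947 .nil))) (.l 8 .nil)))) (.node (.node (.I .com (.c 15456298926182473 (.c 8 .nil)) (.b 4737 .nil)) (.I .adp (.c 15456298926182473 (.c 8 (.c 4737 .nil))) .nil)) (.node (.I .jac (.c 15456298926182473 (.c 16 (.c 24 .nil))) (.r 8 .nil)) (.I .adp (.c 513 (.c 43954947 (.c 4737 .nil))) .nil))))) (.node (.node (.node (.node (.I .com (.c 15456254185049233 (.c 8 .nil)) .nil) (.I .com (.c 9025011398729889 (.c 8 .nil)) .nil)) (.node (.I .com (.c 105537558361190763184652609064585 (.c 8 .nil)) .nil) (.I .jac (.c 18433 (.c 21307523 (.c 24 .nil))) (.l 8 .nil)))) (.node (.node (.I .jac (.c 8193 (.c 43954819 (.c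 24 .nil))) (.l 8 .nil)) (.I .jac (.c 0 (.c 3632084291164617 (.c 24 .nil))) (.l 8 .nil))) (.node (.I .jac (.c 0 (.c 21307523 (.c 48 .nil))) (.b 24 (.l 8 .nil))) (.I .tdb (.c 32 (.c 18625 (.c 16 (.c 40 .nil)))) (.b 0 (.l 8 .nil)))))) (.node (.node (.node (.I .tdb (.c 24 (.c 48 (.c 0 (.c 40 .nil)))) (.b 32 (.b 16 (.l 8 .nil)))) (.I .tdb (.c 0 (.c 16 (.c 40 (.c 2775125257 .nil)))) (.l 8 .nil))) (.node (.I .jac (.c 2049 (.c 18625 (.c 32 .nil))) (.r 40 (.l 8 .nil))) (.I .jac (.c 2049 (.c 24 (.c 48 .nil))) (.b 32 (.r 40 (.l 8 .nil)))))) (.node (.node (.I .com (.c 89098986658163792321215551618375622539977696491209536043921184521 (.c 8 .nil)) .nil) (.I .com (.c 29219431338612914847243612605237133589537970344148333267817904536329 (.c 8 .nil)) .nil)) (.node (.I .com (.c 82361964593872257944173769947661949152100541591018890531467541257 (.c 8 .nil)) .nil) (.I .com (.c 1911155150127468949770067396021705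 (.c 8 .nil)) .nil)))))))

noncomputable def c2_123 : Tr := (.node (.node (.node (.node (.node (.node (.I .com (.c 101467951819906635818531420392969 (.c 8 .nil)) .nil) (.I .com (.c 1911155150120378383021731557756425 (.c 8 .nil)) .nil)) (.node (.I .com (.c 89103268705775671430842569995251957056801677588176435843044120585 (.c 8 .nil)) .nil) (.I .com (.c 101467951815238651592719500070537 (.c 8 .nil)) .nil))) (.node (.node (.I .ass (.c 8 (.c 651606621363107786267057026226057 (.c 40 .nil))) .nil) (.I .ass (.c 651606621363107786267057026226057 (.c 8 (.c 40 .nil))) .nil)) (.node (.I .com (.c 8 (.c 651606621363107786267057026226057 .nil)) (.r 40 .nil)) (.I .ass (.c 651591722123579838450590277895049 (.c 8 (.c 40 .nil))) .nil)))) (.node (.node (.node (.I .ass (.c 8 (.c 33587529 (.c 2775125257 .nil))) .nil) (.I .ass (.c 33587529 (.c 8 (.c 2775125257 .nil))) .nil)) (.node (.I .com (.c 8 (.c 33587529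 .nil)) (.r 2775125257 .nil)) (.I .jac (.c 18433 (.c 21099139 (.c 32 .nil))) (.l 8 .nil)))) (.node (.node (.I .jac (.c 0 (.c 43954819 (.c 32 .nil))) (.b 24 (.l 8 .nil))) (.I .jac (.c 33587593 (.c 24 (.c 32 .nil))) (.r 40 (.l 8 .nil)))) (.node (.I .com (.c 29219431338613398809257443797506040642799580744445301974771667539721 (.c 8 .nil)) .nil) (.I .com (.c 29220112062374340779692772142341321442323413549182896123316801125193 (.c 8 .nil)) .nil))))) (.node (.node (.node (.node (.I .com (.c 105536290393545537884806472158665 (.c 8 .nil)) .nil) (.I .com (.c 82365961958573271866848171381367064296052210457347267961504152585 (.c 8 .nil)) .nil)) (.node (.I .com (.c 231045815666222753 (.c 8 .nil)) .nil) (.I .ass (.c 8 (.c 651606621363117027878554774109001 (.c 40 .nil))) .nil))) (.node (.node (.I .ass (.c 651606621363117027878554774109001 (.c 8 (.c 40 .nil))) .nil) (.I .com (.c 8 (.c 651606621363117027878554774109001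 .nil)) (.r 40 .nil))) (.node (.I .ass (.c 651591722123561355438909041458185 (.c 8 (.c 40 .nil))) .nil) (.I .ass (.c 8 (.c 33587529 (.c 562466185 .nil))) .nil)))) (.node (.node (.node (.I .ass (.c 33587529 (.c 8 (.c 562466185 .nil))) .nil) (.I .com (.c 8 (.c 33587529 .nil)) (.r 562466185 .nil))) (.node (.I .jac (.c 12801 (.c 43356803 (.c 32 .nil))) (.l 8 .nil)) (.I .jac (.c 12801 (.c 8786563 (.c 48 .nil))) (.l 8 .nil)))) (.node (.node (.I .tdb (.c 32 (.c 48 (.c 0 (.c 24 .nil)))) (.b 40 (.b 16 (.l 8 .nil)))) (.I .tdb (.c 32 (.c 48 (.c 0 (.c 40 .nil)))) (.b 24 (.b 16 (.l 8 .nil))))) (.node (.I .com (.c 9024942441010185 (.c 12993 .nil)) (.l 8 .nil)) (.I .com (.c 26186512359091364093173356798841375339997511043398102610812490211081 (.c 8 .nil)) .nil)))))) (.node (.node (.node (.node (.node (.I .com (.c 74495752857537580654899489541974847815541613424103004848021257 (.c 8 .nil)) .nil) (.I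 .com (.c 13748198893206990497 (.c 8 .nil)) .nil)) (.node (.I .com (.c 26187130839767211929984184877259474946677056793300460906976139295689 (.c 8 .nil)) .nil) (.I .com (.c 3051729742108646114722707689033 (.c 8 .nil)) .nil))) (.node (.node (.I .com (.c 1809251600808458222644161614466633 (.c 8 .nil)) .nil) (.I .ass (.c 8 (.c 9025011228269449 (.c 12993 .nil))) .nil)) (.node (.I .com (.c 8 (.c 9025011228269449 .nil)) (.r 12993 .nil)) (.I .ass (.c 8 (.c 9024942441010185 (.c 12993 .nil))) .nil)))) (.node (.node (.node (.I .ass (.c 9024942441010185 (.c 8 (.c 12993 .nil))) .nil) (.I .com (.c 8 (.c 9024942441010185 .nil)) (.r 12993 .nil))) (.node (.I .jac (.c 3632106110100553 (.c 16 (.c 48 .nil))) (.l 8 .nil)) (.I .jac (.c 0 (.c 18561 (.c 21307587 .nil))) (.l 8 .nil)))) (.node (.node (.I .tdb (.c 32 (.c 18561 (.c 24 (.c 40 .nil)))) (.b 0 (.l 8 .nil))) (.I .tdb (.c 16 (.c 48 (.c 0 (.c 40 .nil))))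 (.b 32 (.b 24 (.l 8 .nil))))) (.node (.I .tdb (.c 0 (.c 24 (.c 40 (.c 2756086025 .nil)))) (.l 8 .nil)) (.I .jac (.c 4609 (.c 18561 (.c 32 .nil))) (.r 40 (.l 8 .nil))))))) (.node (.node (.node (.node (.I .jac (.c 4609 (.c 16 (.c 48 .nil))) (.b 32 (.r 40 (.l 8 .nil)))) (.I .com (.c 89098986658163792321215551618267555975401696183402257142245192521 (.c 8 .nil)) .nil)) (.node (.I .com (.c 76104792608257399621125824957950699431257596111742695952988355401 (.c 8 .nil)) .nil) (.I .com (.c 59109065668240298145 (.c 8 .nil)) .nil))) (.node (.node (.I .com (.c 2306970224019628193 (.c 8 .nil)) .nil) (.I .ass (.c 427057350195049030035896088956977929 (.c 8 (.c 40 .nil))) .nil)) (.node (.I .ass (.c 8 (.c 427058636821845956378289793772237705 (.c 40 .nil))) .nil) (.I .com (.c 8 (.c 427058636821845956378289793772237705 .nil)) (.r 40 .nil))))) (.node (.node (.node (.I .ass (.c 427057350195048083672236560419042313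 (.c 8 (.c 40 .nil))) .nil) (.I .ass (.c 8 (.c 169943369 (.c 2756086025 .nil))) .nil)) (.node (.I .ass (.c 169943369 (.c 8 (.c 2756086025 .nil))) .nil) (.I .com (.c 8 (.c 169943369 .nil)) (.r 2756086025 .nil)))) (.node (.node (.I .jac (.c 8520195 (.c 16 (.c 48 .nil))) (.b 24 (.l 40 .nil))) (.I .tdb (.c 0 (.c 24 (.c 2756086025 (.c 8 .nil)))) (.l 40 .nil))) (.node (.I .tdb (.c 32 (.c 18561 (.c 0 (.c 8 .nil)))) (.b 24 (.l 40 .nil))) (.I .jac (.c 0 (.c 3632106110100681 (.c 48 .nil))) (.l 8 .nil))))))))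

noncomputable def c2_124 : Tr := (.node (.node (.node (.node (.node (.node (.I .jac (.c 0 (.c 16 (.c 21307587 .nil))) (.b 48 (.l 8 .nil))) (.I .jac (.c 169943433 (.c 16 (.c 32 .nil))) (.r 40 (.l 8 .nil)))) (.node (.I .com (.c 29220452429459415028334310568743604145577025740464034289483954535177 (.c 8 .nil)) .nil) (.I .com (.c 105537558368807841777834019458441 (.c 8 .nil)) .nil))) (.node (.node (.I .com (.c 29219431338613398809257443797504083642721804881042225310597066978121 (.c 8 .nil)) .nil) (.I .ass (.c 8 (.c 427058636821846429560832352193444617 (.c 40 .nil))) .nil)) (.node (.I .ass (.c 427058636821846429560832352193444617 (.c 8 (.c 40 .nil))) .nil) (.I .com (.c 8 (.c 427058636821846429560832352193444617 .nil)) (.r 40 .nil))))) (.node (.node (.node (.I .ass (.c 427056063571157913309372238443346953 (.c 8 (.c 40 .nil))) .nil) (.I .ass (.c 8 (.c 169943369 (.c 553912713 .nil))) .nil))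 (.node (.I .ass (.c 169943369 (.c 8 (.c 553912713 .nil))) .nil) (.I .com (.c 8 (.c 169943369 .nil)) (.r 553912713 .nil)))) (.node (.node (.I .jac (.c 16 (.c 21307587 (.c 48 .nil))) (.b 0 (.l 8 .nil))) (.I .tdb (.c 32 (.c 48 (.c 0 (.c 40 .nil)))) (.b 16 (.b 24 (.l 8 .nil))))) (.node (.I .com (.c 231045815314584585 (.c 12929 .nil)) (.l 8 .nil)) (.I .com (.c 24783224170187136596724733590557872369119591894760757214033059241801 (.c 8 .nil)) .nil))))) (.node (.node (.node (.node (.I .com (.c 65899851849306263681208984341494072687331164155799806557052745 (.c 8 .nil)) .nil) (.I .ass (.c 8 (.c 231046163358604169 (.c 12929 .nil))) .nil)) (.node (.I .com (.c 8 (.c 231046163358604169 .nil)) (.r 12929 .nil)) (.I .ass (.c 8 (.c 231045815314584585 (.c 12929 .nil))) .nil))) (.node (.node (.I .ass (.c 231045815314584585 (.c 8 (.c 12929 .nil))) .nil) (.I .com (.c 8 (.c 231045815314584585 .nil)) (.r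 12929 .nil))) (.node (.I .com (.c 93738611484286490074864659656521 (.c 18689 .nil)) .nil) (.I .com (.c 3632040653488585 (.c 8 .nil)) (.b 4737 .nil))))) (.node (.node (.node (.I .adp (.c 2718204169 (.c 12866 (.c 4737 .nil))) .nil) (.I .tdb (.c 16 (.c 24 (.c 40 (.c 8 .nil)))) (.l 2718204169 .nil))) (.node (.I .adp (.c 8 (.c 40 (.c 4737 .nil))) (.l 2718204169 .nil)) (.I .jac (.c 8 (.c 16 (.c 24 .nil))) (.r 40 (.l 2718204169 .nil))))) (.node (.node (.I .jac (.c 2718204169 (.c 16 (.c 24 .nil))) (.r 12866 .nil)) (.I .tdp (.c 8 (.c 40 (.c 2718204169 (.c 4737 .nil)))) .nil)) (.node (.I .tdb (.c 32 (.c 18433 (.c 16 (.c 40 .nil)))) (.b 24 (.r 8 .nil))) (.I .tdb (.c 0 (.c 48 (.c 24 (.c 40 .nil)))) (.b 32 (.b 16 (.r 8 .nil))))))))) (.node (.node (.node (.node (.node (.I .tdb (.c 16 (.c 24 (.c 40 (.c 2718204169 .nil)))) (.r 8 .nil)) (.I .tdb (.c 16 (.c 24 (.c 40 (.c 2718204169 .nil)))) (.b 8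 .nil))) (.node (.I .tdb (.c 16 (.c 24 (.c 40 (.c 8 .nil)))) (.b 2718204169 .nil)) (.I .tdb (.c 16 (.c 24 (.c 537002377 (.c 8 .nil)))) (.l 40 .nil)))) (.node (.node (.I .adp (.c 20685315 (.c 18689 (.c 4737 .nil))) .nil) (.I .jac (.c 4737 (.c 32 (.c 48 .nil))) (.l 20685315 .nil))) (.node (.I .jac (.c 20685315 (.c 16 (.c 24 .nil))) (.r 18689 .nil)) (.I .adp (.c 12801 (.c 2794229834 (.c 4737 .nil))) .nil)))) (.node (.node (.node (.I .jac (.c 4737 (.c 32 (.c 48 .nil))) (.l 8 (.l 12801 .nil))) (.I .jac (.c 12801 (.c 16 (.c 24 .nil))) (.r 2794229834 .nil))) (.node (.I .tdp (.c 8 (.c 18689 (.c 4737 (.c 12801 .nil)))) .nil) (.I .tdb (.c 16 (.c 24 (.c 12801 (.c 8 .nil)))) (.l 18689 .nil)))) (.node (.node (.I .jac (.c 0 (.c 43954819 (.c 32 .nil))) (.b 24 (.r 8 .nil))) (.I .tdb (.c 32 (.c 48 (.c 16 (.c 40 .nil)))) (.b 0 (.b 24 (.r 8 .nil))))) (.node (.I .jac (.c 0 (.c 21307587 (.c 48 .nil)))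 (.b 16 (.r 8 .nil))) (.I .jac (.c 0 (.c 43954883 (.c 32 .nil))) (.b 16 (.r 8 .nil))))))) (.node (.node (.node (.node (.I .tdb (.c 32 (.c 48 (.c 24 (.c 40 .nil)))) (.b 0 (.b 16 (.r 8 .nil)))) (.I .tdb (.c 16 (.c 24 (.c 12801 (.c 18689 .nil)))) (.r 8 .nil))) (.node (.I .tdb (.c 16 (.c 24 (.c 12801 (.c 18689 .nil)))) (.b 8 .nil)) (.I .tdb (.c 16 (.c 24 (.c 12801 (.c 8 .nil)))) (.b 18689 .nil)))) (.node (.node (.I .tdb (.c 0 (.c 40 (.c 18689 (.c 8 .nil)))) (.b 4737 .nil)) (.I .tdb (.c 16 (.c 24 (.c 18689 (.c 8 .nil)))) (.b 12801 .nil))) (.node (.I .jac (.c 16 (.c 43954883 (.c 32 .nil))) (.l 513 .nil)) (.I .jac (.c 16 (.c 21307587 (.c 48 .nil))) (.l 513 .nil))))) (.node (.node (.node (.I .tdb (.c 16 (.c 24 (.c 40 (.c 18689 .nil)))) (.l 513 .nil)) (.I .adp (.c 18689 (.c 40 (.c 4737 .nil))) (.l 513 .nil))) (.node (.I .jac (.c 4737 (.c 32 (.c 48 .nil))) (.r 40 (.l 513 .nil))) (.I .adp (.c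 8 (.c 15246325749294473 (.c 2049 .nil))) .nil))) (.node (.node (.I .jac (.c 2049 (.c 43655363 (.c 40 .nil))) (.l 8 .nil)) (.I .com (.c 1859603590832718011684342785576521 (.c 8 .nil)) .nil)) (.node (.I .jac (.c 0 (.c 15246281046235401 (.c 40 .nil))) (.l 8 .nil)) (.I .tdb (.c 24 (.c 48 (.c 0 (.c 32 .nil)))) (.b 40 (.b 16 (.l 8 .nil))))))))))

noncomputable def c2_125 : Tr := (.node (.node (.node (.node (.node (.node (.I .tdb (.c 24 (.c 48 (.c 16 (.c 32 .nil)))) (.b 40 (.b 0 (.l 8 .nil)))) (.I .tdb (.c 0 (.c 16 (.c 13057 (.c 18625 .nil)))) (.l 8 .nil))) (.node (.I .tdb (.c 32 (.c 40 (.c 18625 (.c 0 .nil)))) (.b 16 (.l 8 .nil))) (.I .tdb (.c 32 (.c 40 (.c 18625 (.c 16 .nil)))) (.b 0 (.l 8 .nil))))) (.node (.node (.I .jac (.c 2049 (.c 32 (.c 40 .nil))) (.l 18625 (.l 8 .nil))) (.I .ass (.c 8 (.c 9024976834606985 (.c 18625 .nil))) .nil)) (.node (.I .ass (.c 9024976834606985 (.c 8 (.c 18625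 .nil))) .nil) (.I .com (.c 8 (.c 9024976834606985 .nil)) (.r 18625 .nil))))) (.node (.node (.node (.I .ass (.c 8 (.c 9024942441010121 (.c 18625 .nil))) .nil) (.I .ass (.c 9024942441010121 (.c 8 (.c 18625 .nil))) .nil)) (.node (.I .com (.c 8 (.c 9024942441010121 .nil)) (.r 18625 .nil)) (.I .tdb (.c 24 (.c 48 (.c 0 (.c 8 .nil)))) (.b 16 (.l 13057 .nil))))) (.node (.node (.I .tdb (.c 32 (.c 40 (.c 0 (.c 8 .nil)))) (.b 16 (.b 18625 .nil))) (.I .tdb (.c 0 (.c 16 (.c 18625 (.c 8 .nil)))) (.b 13057 .nil))) (.node (.I .tdb (.c 24 (.c 48 (.c 0 (.c 8 .nil)))) (.b 16 (.b 13057 .nil))) (.I .jac (.c 0 (.c 43655299 (.c 40 .nil))) (.b 24 (.l 8 .nil))))))) (.node (.node (.node (.node (.I .tdb (.c 24 (.c 40 (.c 0 (.c 48 .nil)))) (.b 32 (.b 16 (.l 8 .nil)))) (.I .jac (.c 43655171 (.c 24 (.c 40 .nil))) (.b 16 (.l 8 .nil)))) (.node (.I .jac (.c 33587465 (.c 24 (.c 40 .nil))) (.r 48 (.l 8 .nil))) (.I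 .com (.c 27664030750838856656340776335292338607177587091810531851185054275337 (.c 8 .nil)) .nil))) (.node (.node (.I .com (.c 26186512359091809868165733223514955619104530361306399190109430577929 (.c 8 .nil)) .nil) (.I .com (.c 26187130839767211929984184877261327620316268505084049917496119451529 (.c 8 .nil)) .nil)) (.node (.I .com (.c 231045989685803681 (.c 8 .nil)) .nil) (.I .jac (.c 8520195 (.c 24 (.c 40 .nil))) (.b 16 (.l 48 .nil)))))) (.node (.node (.node (.I .jac (.c 8520195 (.c 24 (.c 40 .nil))) (.b 16 (.b 48 .nil))) (.I .jac (.c 33587529 (.c 24 (.c 32 .nil))) (.r 48 (.l 8 .nil)))) (.node (.I .jac (.c 12801 (.c 16 (.c 43655363 .nil))) (.l 8 .nil)) (.I .jac (.c 0 (.c 15246325749294281 (.c 40 .nil))) (.l 8 .nil)))) (.node (.node (.I .tdb (.c 16 (.c 48 (.c 24 (.c 32 .nil)))) (.b 40 (.b 0 (.l 8 .nil)))) (.I .tdb (.c 0 (.c 24 (.c 13057 (.c 18561 .nil)))) (.l 8 .nil))) (.node (.I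 .tdb (.c 32 (.c 40 (.c 18561 (.c 0 .nil)))) (.b 24 (.l 8 .nil))) (.I .tdb (.c 32 (.c 40 (.c 18561 (.c 24 .nil)))) (.b 0 (.l 8 .nil)))))))) (.node (.node (.node (.node (.node (.I .com (.c 231045989336561545 (.c 18561 .nil)) (.l 8 .nil)) (.I .com (.c 231045815314584521 (.c 18561 .nil)) (.l 8 .nil))) (.node (.I .com (.c 1859603590853700858974845109013897 (.c 8 .nil)) .nil) (.I .com (.c 27665004120184535784999080124869416588568062503198904133933121270729 (.c 8 .nil)) .nil))) (.node (.node (.I .tdb (.c 16 (.c 48 (.c 0 (.c 8 .nil)))) (.b 24 (.l 13057 .nil))) (.I .tdb (.c 0 (.c 24 (.c 13057 (.c 8 .nil)))) (.b 18561 .nil))) (.node (.I .tdb (.c 16 (.c 48 (.c 0 (.c 8 .nil)))) (.b 24 (.b 13057 .nil))) (.I .tdb (.c 0 (.c 24 (.c 13057 (.c 18561 .nil)))) (.b 8 .nil))))) (.node (.node (.node (.I .tdb (.c 32 (.c 40 (.c 18561 (.c 0 .nil)))) (.b 24 (.b 8 .nil))) (.I .tdb (.c 32 (.c 40 (.c 18561 (.c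 24 .nil)))) (.b 0 (.b 8 .nil)))) (.node (.I .jac (.c 43655171 (.c 16 (.c 40 .nil))) (.b 24 (.l 8 .nil))) (.I .tdb (.c 16 (.c 40 (.c 0 (.c 48 .nil)))) (.b 32 (.b 24 (.l 8 .nil)))))) (.node (.node (.I .jac (.c 169943305 (.c 16 (.c 40 .nil))) (.r 48 (.l 8 .nil))) (.I .com (.c 27665004120184535784999080124875129290799088328972484693579532525321 (.c 8 .nil)) .nil)) (.node (.I .jac (.c 8520195 (.c 16 (.c 40 .nil))) (.b 24 (.l 48 .nil))) (.I .jac (.c 169943369 (.c 16 (.c 32 .nil))) (.r 48 (.l 8 .nil))))))) (.node (.node (.node (.node (.I .com (.c 15246191640314249 (.c 8 .nil)) (.b 4737 .nil)) (.I .ass (.c 8 (.c 18433 (.c 13057 .nil))) (.b 4737 .nil))) (.node (.I .ass (.c 18433 (.c 8 (.c 13057 .nil))) (.b 4737 .nil)) (.I .com (.c 8 (.c 18433 .nil)) (.r 13057 (.b 4737 .nil))))) (.node (.node (.I .jac (.c 8 (.c 16 (.c 24 .nil))) (.l 15246191640314249 .nil)) (.I .adp (.c 8 (.c 13057 (.c 4737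 .nil))) (.l 18433 .nil))) (.node (.I .jac (.c 4737 (.c 32 (.c 40 .nil))) (.l 8 (.l 18433 .nil))) (.I .jac (.c 8 (.c 16 (.c 24 .nil))) (.r 13057 (.l 18433 .nil)))))) (.node (.node (.node (.I .tdb (.c 0 (.c 48 (.c 24 (.c 32 .nil)))) (.b 40 (.b 16 (.r 8 .nil)))) (.I .tdb (.c 16 (.c 24 (.c 13057 (.c 18433 .nil)))) (.r 8 .nil))) (.node (.I .tdb (.c 32 (.c 40 (.c 18433 (.c 16 .nil)))) (.b 24 (.r 8 .nil))) (.I .tdb (.c 32 (.c 40 (.c 18433 (.c 24 .nil)))) (.b 16 (.r 8 .nil))))) (.node (.node (.I .tdb (.c 16 (.c 24 (.c 13057 (.c 18433 .nil)))) (.b 8 .nil)) (.I .tdb (.c 32 (.c 40 (.c 18433 (.c 16 .nil)))) (.b 24 (.b 8 .nil)))) (.node (.I .tdb (.c 32 (.c 40 (.c 18433 (.c 24 .nil)))) (.b 16 (.b 8 .nil))) (.I .tdb (.c 16 (.c 24 (.c 18433 (.c 8 .nil)))) (.b 13057 .nil))))))))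

noncomputable def c2_126 : Tr := (.node (.node (.node (.node (.node (.node (.I .tdb (.c 16 (.c 24 (.c 13057 (.c 8 .nil)))) (.b 18433 .nil)) (.I .tdb (.c 32 (.c 40 (.c 18433 (.c 8 .nil)))) (.b 4737 .nil))) (.node (.I .tdb (.c 16 (.c 24 (.c 48 (.c 8 .nil)))) (.l 1310925065 .nil)) (.I .jac (.c 8 (.c 16 (.c 24 .nil))) (.r 48 (.l 1310925065 .nil))))) (.node (.node (.I .tdb (.c 32 (.c 12801 (.c 16 (.c 48 .nil)))) (.b 24 (.r 8 .nil))) (.I .tdb (.c 0 (.c 40 (.c 16 (.c 48 .nil)))) (.b 32 (.b 24 (.r 8 .nil))))) (.node (.I .tdb (.c 32 (.c 12801 (.c 24 (.c 48 .nil)))) (.b 16 (.r 8 .nil))) (.I .tdb (.c 0 (.c 40 (.c 24 (.c 48 .nil)))) (.b 32 (.b 16 (.r 8 .nil))))))) (.node (.node (.node (.I .tdb (.c 16 (.c 24 (.c 48 (.c 1310925065 .nil)))) (.r 8 .nil)) (.I .tdb (.c 16 (.c 24 (.c 1310925065 (.c 8 .nil)))) (.b 48 .nil))) (.node (.I .tdb (.c 16 (.c 24 (.c 48 (.c 8 .nil)))) (.b 1310925065 .nil))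 (.I .tdb (.c 16 (.c 24 (.c 537002313 (.c 8 .nil)))) (.l 48 .nil)))) (.node (.node (.I .tdb (.c 0 (.c 32 (.c 8 (.c 48 .nil)))) (.b 40 (.b 4737 .nil))) (.I .tdb (.c 16 (.c 24 (.c 48 (.c 8 .nil)))) (.b 537002313 .nil))) (.node (.I .jac (.c 16 (.c 43655363 (.c 40 .nil))) (.l 513 .nil)) (.I .tdb (.c 40 (.c 18625 (.c 16 (.c 32 .nil)))) (.b 0 (.l 8 .nil))))))) (.node (.node (.node (.node (.I .tdb (.c 0 (.c 16 (.c 32 (.c 2775125321 .nil)))) (.l 8 .nil)) (.I .jac (.c 2049 (.c 18625 (.c 40 .nil))) (.r 32 (.l 8 .nil)))) (.node (.I .jac (.c 2049 (.c 24 (.c 48 .nil))) (.b 40 (.r 32 (.l 8 .nil)))) (.I .ass (.c 8 (.c 651606621363107786267057026226121 (.c 32 .nil))) .nil))) (.node (.node (.I .ass (.c 651606621363107786267057026226121 (.c 8 (.c 32 .nil))) .nil) (.I .com (.c 8 (.c 651606621363107786267057026226121 .nil)) (.r 32 .nil))) (.node (.I .ass (.c 651591722123579838450590277895113 (.c 8 (.c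 32 .nil))) .nil) (.I .ass (.c 8 (.c 33587465 (.c 2775125321 .nil))) .nil)))) (.node (.node (.node (.I .ass (.c 33587465 (.c 8 (.c 2775125321 .nil))) .nil) (.I .com (.c 8 (.c 33587465 .nil)) (.r 2775125321 .nil))) (.node (.I .com (.c 70295418264021313545660038925084727711704858002440658323418333961 (.c 32 .nil)) .nil) (.I .jac (.c 33587593 (.c 24 (.c 40 .nil))) (.r 32 (.l 8 .nil))))) (.node (.node (.I .ass (.c 8 (.c 651606621363126269490052522057545 (.c 32 .nil))) .nil) (.I .ass (.c 651606621363126269490052522057545 (.c 8 (.c 32 .nil))) .nil)) (.node (.I .com (.c 8 (.c 651606621363126269490052522057545 .nil)) (.r 32 .nil)) (.I .ass (.c 651591722123570596944749659643913 (.c 8 (.c 32 .nil))) .nil)))))) (.node (.node (.node (.node (.node (.I .ass (.c 8 (.c 33587465 (.c 1350544777 .nil))) .nil) (.I .ass (.c 33587465 (.c 8 (.c 1350544777 .nil))) .nil)) (.node (.I .com (.c 8 (.c 33587465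 .nil)) (.r 1350544777 .nil)) (.I .tdb (.c 40 (.c 48 (.c 0 (.c 24 .nil)))) (.b 32 (.b 16 (.l 8 .nil)))))) (.node (.node (.I .tdb (.c 40 (.c 48 (.c 0 (.c 32 .nil)))) (.b 24 (.b 16 (.l 8 .nil)))) (.I .com (.c 9024976834607113 (.c 8385 .nil)) (.l 8 .nil))) (.node (.I .ass (.c 8 (.c 9025011228269513 (.c 8385 .nil))) .nil) (.I .com (.c 8 (.c 9025011228269513 .nil)) (.r 8385 .nil))))) (.node (.node (.node (.I .ass (.c 8 (.c 9024976834607113 (.c 8385 .nil))) .nil) (.I .ass (.c 9024976834607113 (.c 8 (.c 8385 .nil))) .nil)) (.node (.I .com (.c 8 (.c 9024976834607113 .nil)) (.r 8385 .nil)) (.I .tdb (.c 40 (.c 18561 (.c 24 (.c 32 .nil)))) (.b 0 (.l 8 .nil))))) (.node (.node (.I .tdb (.c 0 (.c 24 (.c 32 (.c 2756086089 .nil)))) (.l 8 .nil)) (.I .jac (.c 4609 (.c 18561 (.c 40 .nil))) (.r 32 (.l 8 .nil)))) (.node (.I .jac (.c 4609 (.c 16 (.c 48 .nil))) (.b 40 (.r 32 (.l 8 .nil)))) (.I .ass (.c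 427057993508084562470663629860471561 (.c 8 (.c 32 .nil))) .nil))))) (.node (.node (.node (.node (.I .ass (.c 8 (.c 427058636821845956378289793772237769 (.c 32 .nil))) .nil) (.I .com (.c 8 (.c 427058636821845956378289793772237769 .nil)) (.r 32 .nil))) (.node (.I .ass (.c 427057993508083616106291307304383497 (.c 8 (.c 32 .nil))) .nil) (.I .ass (.c 8 (.c 169943305 (.c 2756086089 .nil))) .nil))) (.node (.node (.I .ass (.c 169943305 (.c 8 (.c 2756086089 .nil))) .nil) (.I .com (.c 8 (.c 169943305 .nil)) (.r 2756086089 .nil))) (.node (.I .jac (.c 20685315 (.c 16 (.c 48 .nil))) (.b 24 (.l 32 .nil))) (.I .tdb (.c 0 (.c 24 (.c 2756086089 (.c 8 .nil)))) (.l 32 .nil))))) (.node (.node (.node (.I .tdb (.c 40 (.c 18561 (.c 0 (.c 8 .nil)))) (.b 24 (.l 32 .nil))) (.I .tdb (.c 0 (.c 24 (.c 32 (.c 8 .nil)))) (.b 2756086089 .nil))) (.node (.I .jac (.c 169943433 (.c 16 (.c 40 .nil))) (.r 32 (.l 8 .nil)))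 (.I .ass (.c 8 (.c 427058636821846666152103631404146441 (.c 32 .nil))) .nil))) (.node (.node (.I .ass (.c 427058636821846666152103631404146441 (.c 8 (.c 32 .nil))) .nil) (.I .com (.c 8 (.c 427058636821846666152103631404146441 .nil)) (.r 32 .nil))) (.node (.I .ass (.c 427056063571158149899930723770114057 (.c 8 (.c 32 .nil))) .nil) (.I .ass (.c 8 (.c 169943305 (.c 1337272713 .nil))) .nil)))))))

noncomputable def c2_127 : Tr := (.node (.node (.node (.node (.node (.node (.I .ass (.c 169943305 (.c 8 (.c 1337272713 .nil))) .nil) (.I .com (.c 8 (.c 169943305 .nil)) (.r 1337272713 .nil))) (.node (.I .tdb (.c 40 (.c 48 (.c 0 (.c 16 .nil)))) (.b 32 (.b 24 (.l 8 .nil)))) (.I .tdb (.c 40 (.c 48 (.c 0 (.c 32 .nil)))) (.b 16 (.b 24 (.l 8 .nil)))))) (.node (.node (.I .com (.c 231045989336561673 (.c 8321 .nil)) (.l 8 .nil)) (.I .ass (.c 8 (.c 231046163358604233 (.c 8321 .nil))) .nil)) (.node (.I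 .com (.c 8 (.c 231046163358604233 .nil)) (.r 8321 .nil)) (.I .ass (.c 8 (.c 231045989336561673 (.c 8321 .nil))) .nil)))) (.node (.node (.node (.I .ass (.c 231045989336561673 (.c 8 (.c 8321 .nil))) .nil) (.I .com (.c 8 (.c 231045989336561673 .nil)) (.r 8321 .nil))) (.node (.I .tdb (.c 16 (.c 32 (.c 0 (.c 8 .nil)))) (.b 24 (.b 18753 .nil))) (.I .ass (.c 8 (.c 2718204233 (.c 32 .nil))) (.b 4737 .nil)))) (.node (.node (.I .ass (.c 2718204233 (.c 8 (.c 32 .nil))) (.b 4737 .nil)) (.I .com (.c 8 (.c 2718204233 .nil)) (.r 32 (.b 4737 .nil)))) (.node (.I .com (.c 8520195 (.c 18753 .nil)) (.b 4737 .nil)) (.I .adp (.c 2718204233 (.c 8258 (.c 4737 .nil))) .nil))))) (.node (.node (.node (.node (.I .tdb (.c 16 (.c 24 (.c 32 (.c 8 .nil)))) (.l 2718204233 .nil)) (.I .adp (.c 8 (.c 32 (.c 4737 .nil))) (.l 2718204233 .nil))) (.node (.I .jac (.c 8 (.c 16 (.c 24 .nil))) (.r 32 (.l 2718204233 .nil)))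 (.I .jac (.c 2718204233 (.c 16 (.c 24 .nil))) (.r 8258 .nil)))) (.node (.node (.I .tdp (.c 8 (.c 32 (.c 2718204233 (.c 4737 .nil)))) .nil) (.I .tdb (.c 40 (.c 18433 (.c 16 (.c 32 .nil)))) (.b 24 (.r 8 .nil)))) (.node (.I .tdb (.c 16 (.c 24 (.c 32 (.c 2718204233 .nil)))) (.r 8 .nil)) (.I .tdb (.c 16 (.c 24 (.c 32 (.c 2718204233 .nil)))) (.b 8 .nil))))) (.node (.node (.node (.I .tdb (.c 16 (.c 24 (.c 32 (.c 8 .nil)))) (.b 2718204233 .nil)) (.I .adp (.c 1310925193 (.c 8258 (.c 4737 .nil))) .nil)) (.node (.I .tdb (.c 16 (.c 24 (.c 32 (.c 8 .nil)))) (.l 1310925193 .nil)) (.I .adp (.c 8 (.c 32 (.c 4737 .nil))) (.l 1310925193 .nil)))) (.node (.node (.I .jac (.c 8 (.c 16 (.c 24 .nil))) (.r 32 (.l 1310925193 .nil))) (.I .jac (.c 1310925193 (.c 16 (.c 24 .nil))) (.r 8258 .nil))) (.node (.I .tdp (.c 8 (.c 32 (.c 1310925193 (.c 4737 .nil)))) .nil) (.I .tdb (.c 16 (.c 24 (.c 1310925193 (.c 8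 .nil)))) (.l 32 .nil))))))) (.node (.node (.node (.node (.node (.I .tdb (.c 48 (.c 12801 (.c 16 (.c 32 .nil)))) (.b 24 (.r 8 .nil))) (.I .tdb (.c 0 (.c 40 (.c 16 (.c 32 .nil)))) (.b 48 (.b 24 (.r 8 .nil))))) (.node (.I .tdb (.c 48 (.c 12801 (.c 24 (.c 32 .nil)))) (.b 16 (.r 8 .nil))) (.I .tdb (.c 0 (.c 40 (.c 24 (.c 32 .nil)))) (.b 48 (.b 16 (.r 8 .nil)))))) (.node (.node (.I .tdb (.c 16 (.c 24 (.c 32 (.c 1310925193 .nil)))) (.r 8 .nil)) (.I .tdb (.c 16 (.c 24 (.c 32 (.c 1310925193 .nil)))) (.b 8 .nil))) (.node (.I .tdb (.c 16 (.c 24 (.c 32 (.c 8 .nil)))) (.b 1310925193 .nil)) (.I .adp (.c 8520195 (.c 18753 (.c 4737 .nil))) .nil)))) (.node (.node (.node (.I .tdb (.c 16 (.c 24 (.c 18753 (.c 8 .nil)))) (.l 8193 .nil)) (.I .adp (.c 8 (.c 18753 (.c 4737 .nil))) (.l 8193 .nil))) (.node (.I .jac (.c 8 (.c 16 (.c 24 .nil))) (.r 18753 (.l 8193 .nil))) (.I .jac (.c 0 (.c 43655299 (.c 40 .nil)))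 (.b 24 (.r 8 .nil))))) (.node (.node (.I .tdb (.c 0 (.c 32 (.c 18753 (.c 16 .nil)))) (.b 24 (.r 8 .nil))) (.I .tdb (.c 40 (.c 48 (.c 0 (.c 16 .nil)))) (.b 32 (.b 24 (.r 8 .nil))))) (.node (.I .jac (.c 0 (.c 43655363 (.c 40 .nil))) (.b 16 (.r 8 .nil))) (.I .tdb (.c 0 (.c 32 (.c 18753 (.c 24 .nil)))) (.b 16 (.r 8 .nil))))))) (.node (.node (.node (.node (.I .tdb (.c 40 (.c 48 (.c 0 (.c 24 .nil)))) (.b 32 (.b 16 (.r 8 .nil)))) (.I .tdb (.c 16 (.c 24 (.c 8193 (.c 8 .nil)))) (.b 18753 .nil))) (.node (.I .tdb (.c 16 (.c 24 (.c 32 (.c 18753 .nil)))) (.l 513 .nil)) (.I .adp (.c 32 (.c 18753 (.c 4737 .nil))) (.l 513 .nil)))) (.node (.node (.I .adp (.c 2718204233 (.c 32 (.c 24 .nil))) (.b 2113 .nil)) (.I .adp (.c 2718204233 (.c 32 (.c 16 .nil))) (.b 4673 .nil))) (.node (.I .adp (.c 2718204233 (.c 32 (.c 8 .nil))) (.b 4737 .nil)) (.I .adp (.c 1310925193 (.c 32 (.c 24 .nil))) (.b 2113 .nil)))))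 (.node (.node (.node (.I .adp (.c 1310925193 (.c 32 (.c 16 .nil))) (.b 4673 .nil)) (.I .adp (.c 1310925193 (.c 32 (.c 8 .nil))) (.b 4737 .nil))) (.node (.I .adp (.c 537002377 (.c 40 (.c 24 .nil))) (.b 2113 .nil)) (.I .adp (.c 537002377 (.c 40 (.c 16 .nil))) (.b 4673 .nil)))) (.node (.node (.I .adp (.c 537002377 (.c 40 (.c 8 .nil))) (.b 4737 .nil)) (.I .adp (.c 43655171 (.c 40 (.c 24 .nil))) (.b 2113 .nil))) (.node (.I .adp (.c 43655171 (.c 40 (.c 16 .nil))) (.b 4673 .nil)) (.I .adp (.c 43655171 (.c 40 (.c 8 .nil))) (.b 4737 .nil))))))))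

noncomputable def c2_128 : Tr := (.node (.node (.node (.node (.node (.node (.I .tdb (.c 0 (.c 48 (.c 16 (.c 32 .nil)))) (.l 40 (.b 4673 .nil))) (.I .com (.c 15246281046235209 (.c 40 .nil)) (.b 4673 .nil))) (.node (.I .tdb (.c 0 (.c 48 (.c 8 (.c 32 .nil)))) (.l 40 (.b 4737 .nil))) (.I .com (.c 15246236343241801 (.c 40 .nil)) (.b 4737 .nil)))) (.node (.node (.I .com (.c 3632106110100553 (.c 48 .nil)) (.b 2113 .nil)) (.I .com (.c 3632084291164233 (.c 48 .nil)) (.b 4673 .nil))) (.node (.I .com (.c 3632062472293449 (.c 48 .nil)) (.b 4737 .nil)) (.I .adp (.c 8193 (.c 18754 (.c 24 .nil))) (.b 2113 .nil))))) (.node (.node (.node (.I .adp (.c 40 (.c 48 (.c 24 .nil))) (.l 8193 (.b 2113 .nil))) (.I .com (.c 18625 (.c 40 .nil)) (.l 8193 (.b 2113 .nil)))) (.node (.I .tdp (.c 40 (.c 48 (.c 24 (.c 8193 .nil)))) (.b 2113 .nil)) (.I .tdb (.c 0 (.c 32 (.c 24 (.c 40 .nil)))) (.l 48 (.b 2113 .nil)))))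 (.node (.node (.I .tdb (.c 0 (.c 32 (.c 24 (.c 48 .nil)))) (.r 40 (.b 2113 .nil))) (.I .adp (.c 8193 (.c 18754 (.c 16 .nil))) (.b 4673 .nil))) (.node (.I .adp (.c 40 (.c 48 (.c 16 .nil))) (.l 8193 (.b 4673 .nil))) (.I .com (.c 18561 (.c 40 .nil)) (.l 8193 (.b 4673 .nil))))))) (.node (.node (.node (.node (.I .tdp (.c 40 (.c 48 (.c 16 (.c 8193 .nil)))) (.b 4673 .nil)) (.I .tdb (.c 0 (.c 32 (.c 16 (.c 40 .nil)))) (.l 48 (.b 4673 .nil)))) (.node (.I .tdb (.c 0 (.c 32 (.c 16 (.c 48 .nil)))) (.r 40 (.b 4673 .nil))) (.I .adp (.c 8193 (.c 18754 (.c 8 .nil))) (.b 4737 .nil)))) (.node (.node (.I .adp (.c 40 (.c 48 (.c 8 .nil))) (.l 8193 (.b 4737 .nil))) (.I .com (.c 18497 (.c 40 .nil)) (.l 8193 (.b 4737 .nil)))) (.node (.I .tdp (.c 40 (.c 48 (.c 8 (.c 8193 .nil)))) (.b 4737 .nil)) (.I .tdb (.c 0 (.c 32 (.c 8 (.c 40 .nil)))) (.l 48 (.b 4737 .nil)))))) (.node (.node (.node (.I .tdb (.c 0 (.c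 32 (.c 8 (.c 48 .nil)))) (.r 40 (.b 4737 .nil))) (.I .jac (.c 10206474507614089 (.c 24 (.c 48 .nil))) (.l 0 .nil))) (.node (.I .jac (.c 35718473 (.c 18625 (.c 32 .nil))) (.l 0 .nil)) (.I .jac (.c 35718473 (.c 24 (.c 48 .nil))) (.b 32 (.l 0 .nil))))) (.node (.node (.I .jac (.c 35718473 (.c 24 (.c 32 .nil))) (.b 48 (.l 0 .nil))) (.I .jac (.c 2113 (.c 24 (.c 32 .nil))) (.b 48 (.b 40 (.l 0 .nil))))) (.node (.I .jac (.c 244148670041478153 (.c 16 (.c 40 .nil))) (.l 0 .nil)) (.I .jac (.c 174695817 (.c 16 (.c 40 .nil))) (.b 32 (.l 0 .nil)))))))) (.node (.node (.node (.node (.node (.I .jac (.c 174695689 (.c 12929 (.c 48 .nil))) (.l 0 .nil)) (.I .jac (.c 174695753 (.c 18561 (.c 32 .nil))) (.l 0 .nil))) (.node (.I .jac (.c 174695753 (.c 16 (.c 48 .nil))) (.b 32 (.l 0 .nil))) (.I .jac (.c 244148848929896457 (.c 16 (.c 32 .nil))) (.l 0 .nil)))) (.node (.node (.I .jac (.c 4673 (.c 16 (.c 32 .nil)))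 (.b 48 (.b 40 (.l 0 .nil)))) (.I .jac (.c 244149027818380169 (.c 16 (.c 40 .nil))) (.l 0 .nil))) (.node (.I .jac (.c 4673 (.c 12929 (.c 32 .nil))) (.b 48 (.l 0 .nil))) (.I .jac (.c 4673 (.c 16 (.c 40 .nil))) (.b 32 (.b 48 (.l 0 .nil))))))) (.node (.node (.node (.I .adp (.c 0 (.c 14025210098083634057 (.c 4737 .nil))) .nil) (.I .jac (.c 14025210098083634057 (.c 16 (.c 24 .nil))) (.l 0 .nil))) (.node (.I .adp (.c 0 (.c 59934271212510434249 (.c 4737 .nil))) .nil) (.I .jac (.c 2379905498923998153 (.c 16 (.c 24 .nil))) (.l 0 .nil)))) (.node (.node (.I .jac (.c 0 (.c 16 (.c 24 .nil))) (.r 2379905498923998153 .nil)) (.I .jac (.c 14025207386396218377 (.c 16 (.c 24 .nil))) (.l 0 .nil))) (.node (.I .jac (.c 0 (.c 16 (.c 24 .nil))) (.r 14025207386396218377 .nil)) (.I .jac (.c 10206511083363273 (.c 24 (.c 32 .nil))) (.l 0 .nil)))))) (.node (.node (.node (.node (.I .jac (.c 2113 (.c 24 (.c 32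 .nil))) (.b 40 (.b 48 (.l 0 .nil)))) (.I .adp (.c 0 (.c 60768084239834527625 (.c 4673 .nil))) .nil)) (.node (.I .jac (.c 4673 (.c 2756086089 (.c 32 .nil))) (.l 0 .nil)) (.I .jac (.c 4673 (.c 18561 (.c 40 .nil))) (.b 32 (.l 0 .nil))))) (.node (.node (.I .jac (.c 4673 (.c 16 (.c 48 .nil))) (.b 40 (.b 32 (.l 0 .nil)))) (.I .jac (.c 0 (.c 8 (.c 24 .nil))) (.r 60768084239834527625 .nil))) (.node (.I .jac (.c 244149027818380233 (.c 16 (.c 32 .nil))) (.l 0 .nil)) (.I .jac (.c 4673 (.c 16 (.c 32 .nil))) (.b 40 (.b 48 (.l 0 .nil))))))) (.node (.node (.node (.I .jac (.c 59934274015313491849 (.c 16 (.c 24 .nil))) (.l 0 .nil)) (.I .jac (.c 0 (.c 16 (.c 24 .nil))) (.r 59934274015313491849 .nil))) (.node (.I .jac (.c 2379904940409059337 (.c 16 (.c 24 .nil))) (.l 0 .nil)) (.I .jac (.c 0 (.c 16 (.c 24 .nil))) (.r 2379904940409059337 .nil)))) (.node (.node (.I .adp (.c 0 (.c 43954947 (.c 24 .nil)))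 (.b 2113 .nil)) (.I .adp (.c 0 (.c 43954947 (.c 16 .nil))) (.b 4673 .nil))) (.node (.I .adp (.c 0 (.c 43954947 (.c 8 .nil))) (.b 4737 .nil)) (.I .adp (.c 0 (.c 15456298926182537 (.c 4737 .nil))) .nil)))))))

noncomputable def c2_129 : Tr := (.node (.node (.node (.node (.node (.node (.I .jac (.c 0 (.c 16 (.c 24 .nil))) (.r 15456298926182537 .nil)) (.I .adp (.c 0 (.c 15456253916349769 (.c 2113 .nil))) .nil)) (.node (.I .jac (.c 0 (.c 8 (.c 16 .nil))) (.r 15456253916349769 .nil)) (.I .adp (.c 0 (.c 3632106110100937 (.c 2113 .nil))) .nil))) (.node (.node (.I .jac (.c 0 (.c 8 (.c 16 .nil))) (.r 3632106110100937 .nil)) (.I .tdb (.c 8 (.c 16 (.c 40 (.c 0 .nil)))) (.b 2775125257 .nil))) (.node (.I .adp (.c 0 (.c 15456208906582345 (.c 4673 .nil))) .nil) (.I .jac (.c 0 (.c 8 (.c 24 .nil))) (.r 15456208906582345 .nil))))) (.node (.node (.node (.I .jac (.c 15456253916349577 (.c 16 (.c 32 .nil)))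 (.l 0 .nil)) (.I .tdb (.c 8 (.c 24 (.c 12929 (.c 0 .nil)))) (.b 18689 .nil))) (.node (.I .jac (.c 16 (.c 21307587 (.c 48 .nil))) (.b 8 (.b 0 .nil))) (.I .adp (.c 0 (.c 15456163896880457 (.c 4737 .nil))) .nil))) (.node (.node (.I .jac (.c 0 (.c 16 (.c 24 .nil))) (.r 15456163896880457 .nil)) (.I .adp (.c 0 (.c 3632062472293833 (.c 4737 .nil))) .nil)) (.node (.I .jac (.c 0 (.c 16 (.c 24 .nil))) (.r 3632062472293833 .nil)) (.I .adp (.c 0 (.c 59934271234407332882 (.c 4737 .nil))) .nil))))) (.node (.node (.node (.node (.I .tdb (.c 32 (.c 18497 (.c 16 (.c 40 .nil)))) (.b 24 (.l 0 .nil))) (.I .tdb (.c 32 (.c 18497 (.c 24 (.c 40 .nil)))) (.b 16 (.l 0 .nil)))) (.node (.I .tdb (.c 16 (.c 24 (.c 40 (.c 2737112329 .nil)))) (.l 0 .nil)) (.I .adp (.c 2737112329 (.c 40 (.c 4737 .nil))) (.l 0 .nil)))) (.node (.node (.I .jac (.c 2737112329 (.c 16 (.c 24 .nil))) (.r 40 (.l 0 .nil))) (.I .jac (.c 0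 (.c 16 (.c 24 .nil))) (.r 59934271234407332882 .nil))) (.node (.I .tdp (.c 2737112329 (.c 40 (.c 0 (.c 4737 .nil)))) .nil) (.I .tdb (.c 16 (.c 24 (.c 40 (.c 0 .nil)))) (.r 2737112329 .nil))))) (.node (.node (.node (.I .tdb (.c 16 (.c 24 (.c 40 (.c 0 .nil)))) (.b 2737112329 .nil)) (.I .tdb (.c 16 (.c 24 (.c 40 (.c 2737112329 .nil)))) (.b 0 .nil))) (.node (.I .jac (.c 4737 (.c 32 (.c 48 .nil))) (.l 12865 (.l 0 .nil))) (.I .jac (.c 2113 (.c 32 (.c 40 .nil))) (.l 18625 (.l 0 .nil))))) (.node (.node (.I .tdb (.c 8 (.c 16 (.c 18625 (.c 0 .nil)))) (.l 13057 .nil)) (.I .tdb (.c 8 (.c 16 (.c 13057 (.c 0 .nil)))) (.b 18625 .nil))) (.node (.I .tdb (.c 8 (.c 16 (.c 18625 (.c 0 .nil)))) (.b 13057 .nil)) (.I .tdb (.c 8 (.c 16 (.c 13057 (.c 18625 .nil)))) (.b 0 .nil))))))) (.node (.node (.node (.node (.node (.I .tdb (.c 32 (.c 40 (.c 18625 (.c 8 .nil)))) (.b 16 (.b 0 .nil))) (.I .tdb (.c 32 (.c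 40 (.c 18625 (.c 16 .nil)))) (.b 8 (.b 0 .nil)))) (.node (.I .adp (.c 0 (.c 15246281046235529 (.c 4673 .nil))) .nil) (.I .jac (.c 0 (.c 8 (.c 24 .nil))) (.r 15246281046235529 .nil)))) (.node (.node (.I .jac (.c 4673 (.c 32 (.c 40 .nil))) (.l 18561 (.l 0 .nil))) (.I .tdb (.c 8 (.c 24 (.c 18561 (.c 0 .nil)))) (.l 13057 .nil))) (.node (.I .tdb (.c 8 (.c 24 (.c 13057 (.c 0 .nil)))) (.b 18561 .nil)) (.I .tdb (.c 8 (.c 24 (.c 13057 (.c 18561 .nil)))) (.b 0 .nil))))) (.node (.node (.node (.I .tdb (.c 32 (.c 40 (.c 18561 (.c 8 .nil)))) (.b 24 (.b 0 .nil))) (.I .tdb (.c 32 (.c 40 (.c 18561 (.c 24 .nil)))) (.b 8 (.b 0 .nil)))) (.node (.I .jac (.c 15246325749294217 (.c 16 (.c 40 .nil))) (.l 0 .nil)) (.I .tdb (.c 8 (.c 24 (.c 48 (.c 0 .nil)))) (.b 1337272585 .nil)))) (.node (.node (.I .adp (.c 0 (.c 2737364506 (.c 4737 .nil))) .nil) (.I .tdb (.c 8 (.c 48 (.c 16 (.c 32 .nil)))) (.b 40 (.b 24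 (.l 0 .nil))))) (.node (.I .tdb (.c 8 (.c 48 (.c 24 (.c 32 .nil)))) (.b 40 (.b 16 (.l 0 .nil)))) (.I .tdb (.c 16 (.c 24 (.c 13057 (.c 18497 .nil)))) (.l 0 .nil)))))) (.node (.node (.node (.node (.I .tdb (.c 32 (.c 40 (.c 18497 (.c 16 .nil)))) (.b 24 (.l 0 .nil))) (.I .tdb (.c 32 (.c 40 (.c 18497 (.c 24 .nil)))) (.b 16 (.l 0 .nil)))) (.node (.I .adp (.c 18497 (.c 13057 (.c 4737 .nil))) (.l 0 .nil)) (.I .jac (.c 18497 (.c 16 (.c 24 .nil))) (.r 13057 (.l 0 .nil))))) (.node (.node (.I .jac (.c 0 (.c 16 (.c 24 .nil))) (.r 2737364506 .nil)) (.I .tdp (.c 18497 (.c 13057 (.c 0 (.c 4737 .nil)))) .nil)) (.node (.I .tdb (.c 32 (.c 40 (.c 0 (.c 16 .nil)))) (.b 24 (.r 18497 .nil))) (.I .tdb (.c 32 (.c 40 (.c 0 (.c 24 .nil)))) (.b 16 (.r 18497 .nil)))))) (.node (.node (.node (.I .tdb (.c 16 (.c 24 (.c 13057 (.c 0 .nil)))) (.r 18497 .nil)) (.I .tdb (.c 16 (.c 24 (.c 13057 (.c 0 .nil)))) (.b 18497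 .nil))) (.node (.I .tdb (.c 16 (.c 24 (.c 13057 (.c 18497 .nil)))) (.b 0 .nil)) (.I .tdb (.c 32 (.c 40 (.c 18497 (.c 16 .nil)))) (.b 24 (.b 0 .nil))))) (.node (.node (.I .tdb (.c 32 (.c 40 (.c 18497 (.c 24 .nil)))) (.b 16 (.b 0 .nil))) (.I .tdb (.c 16 (.c 24 (.c 48 (.c 0 .nil)))) (.b 1324066057 .nil))) (.node (.I .tdb (.c 8 (.c 16 (.c 32 (.c 0 .nil)))) (.b 2775125321 .nil)) (.I .tdb (.c 8 (.c 24 (.c 32 (.c 0 .nil)))) (.b 1337272713 .nil))))))))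

noncomputable def c2_130 : Tr := (.node (.node (.node (.node (.node (.node (.I .com (.c 2737112393 (.c 32 .nil)) (.l 0 (.b 4737 .nil))) (.I .tdb (.c 40 (.c 18497 (.c 16 (.c 32 .nil)))) (.b 24 (.l 0 .nil)))) (.node (.I .tdb (.c 40 (.c 18497 (.c 24 (.c 32 .nil)))) (.b 16 (.l 0 .nil))) (.I .tdb (.c 16 (.c 24 (.c 32 (.c 2737112393 .nil)))) (.b 0 .nil)))) (.node (.node (.I .adp (.c 16 (.c 24 (.c 0 .nil))) (.b 2379905498923998153 .nil)) (.I .com (.c 4609 (.c 16 .nil)) (.b 2379905498923998153 .nil))) (.node (.I .adp (.c 4609 (.c 16 (.c 2379905498923998153 .nil))) .nil) (.I .adp (.c 16 (.c 24 (.c 8 .nil))) (.b 13748198893136698249 .nil))))) (.node (.node (.node (.I .com (.c 4673 (.c 16 .nil)) (.b 13748198893136698249 .nil)) (.I .adp (.c 2113 (.c 24 (.c 13748198893136698249 .nil))) .nil)) (.node (.I .com (.c 1512103782441961079041378905002237328201 (.c 2113 .nil)) .nil) (.I .adp (.c 16 (.c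 24 (.c 8 .nil))) (.b 2306972423229201353 .nil)))) (.node (.node (.I .com (.c 4673 (.c 16 .nil)) (.b 2306972423229201353 .nil)) (.I .adp (.c 4673 (.c 16 (.c 2306972423229201353 .nil))) .nil)) (.node (.I .com (.c 42576974092320106643384879185736245001 (.c 4673 .nil)) .nil) (.I .com (.c 42576974092320106643384879185736245065 (.c 2113 .nil)) .nil))))) (.node (.node (.node (.node (.I .adp (.c 16 (.c 24 (.c 8 .nil))) (.b 13748196208362034185 .nil)) (.I .com (.c 4673 (.c 16 .nil)) (.b 13748196208362034185 .nil))) (.node (.I .adp (.c 16 (.c 24 (.c 8 .nil))) (.b 59109074018392946569 .nil)) (.I .com (.c 4673 (.c 16 .nil)) (.b 59109074018392946569 .nil)))) (.node (.node (.I .com (.c 27951061050494848639907477563920710974217 (.c 4673 .nil)) .nil) (.I .adp (.c 2113 (.c 24 (.c 59109074018392946569 .nil))) .nil)) (.node (.I .com (.c 27951061050494848639907477563920710974281 (.c 2113 .nil)) .nil)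 (.I .adp (.c 4673 (.c 16 (.c 2306971873338800137 .nil))) .nil)))) (.node (.node (.node (.I .adp (.c 2113 (.c 24 (.c 2306971873338800137 .nil))) .nil) (.I .com (.c 42576953795010663218959029878649750345 (.c 2113 .nil)) .nil)) (.node (.I .adp (.c 4609 (.c 16 (.c 15456298926182537 .nil))) .nil) (.I .adp (.c 2049 (.c 24 (.c 15456298926182537 .nil))) .nil))) (.node (.node (.I .com (.c 1911177411964075743551050339165961 (.c 4673 .nil)) .nil) (.I .adp (.c 545424777 (.c 40 (.c 169943177 .nil))) .nil)) (.node (.I .adp (.c 2737112329 (.c 40 (.c 33587401 .nil))) .nil) (.I .adp (.c 545424777 (.c 40 (.c 33587401 .nil))) .nil)))))) (.node (.node (.node (.node (.node (.I .adp (.c 2718204169 (.c 40 (.c 174695561 .nil))) .nil) (.I .jac (.c 2718204169 (.c 4673 (.c 16 .nil))) (.r 40 .nil))) (.node (.I .adp (.c 537002377 (.c 40 (.c 174695561 .nil))) .nil) (.I .jac (.c 537002377 (.c 8 (.c 24 .nil)))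 (.b 16 (.r 40 .nil))))) (.node (.node (.I .jac (.c 174695561 (.c 32 (.c 48 .nil))) (.l 12801 .nil)) (.I .adp (.c 2718204169 (.c 40 (.c 35718345 .nil))) .nil)) (.node (.I .jac (.c 537002377 (.c 8 (.c 16 .nil))) (.b 24 (.r 40 .nil))) (.I .jac (.c 12801 (.c 8 (.c 16 .nil))) (.b 24 (.r 18689 .nil)))))) (.node (.node (.node (.I .adp (.c 16 (.c 24 (.c 0 .nil))) (.b 3632062472293833 .nil)) (.I .com (.c 4609 (.c 16 .nil)) (.b 3632062472293833 .nil))) (.node (.I .jac (.c 62886542410057 (.c 8 (.c 48 .nil))) (.r 40 .nil)) (.I .tdb (.c 8 (.c 48 (.c 16 (.c 40 .nil)))) (.b 32 (.l 4609 .nil))))) (.node (.node (.I .jac (.c 169943305 (.c 8 (.c 48 .nil))) (.r 40 (.r 16 .nil))) (.I .ass (.c 427058636821845719787018514561732489 (.c 40 (.c 16 .nil))) .nil)) (.node (.I .com (.c 16 (.c 40 .nil)) (.l 427058636821845719787018514561732489 .nil)) (.I .ass (.c 427055420260303274284998876733539209 (.c 40 (.c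 16 .nil))) .nil))))) (.node (.node (.node (.node (.I .com (.c 16 (.c 40 .nil)) (.l 427055420260303274284998876733539209 .nil)) (.I .tdb (.c 32 (.c 18497 (.c 24 (.c 40 .nil)))) (.l 2049 .nil))) (.node (.I .jac (.c 33587465 (.c 8 (.c 48 .nil))) (.r 40 (.r 24 .nil))) (.I .ass (.c 651596688508375012468186189873865 (.c 40 (.c 24 .nil))) .nil))) (.node (.node (.I .com (.c 24 (.c 40 .nil)) (.l 651596688508375012468186189873865 .nil)) (.I .ass (.c 651596688508328804762888218546185 (.c 40 (.c 24 .nil))) .nil)) (.node (.I .com (.c 24 (.c 40 .nil)) (.l 651596688508328804762888218546185 .nil)) (.I .jac (.c 2803715 (.c 32 (.c 48 .nil))) (.l 12865 .nil))))) (.node (.node (.node (.I .com (.c 31637737730463973030333874057 (.c 12865 .nil)) .nil) (.I .jac (.c 2803715 (.c 8 (.c 40 .nil))) (.r 18689 .nil))) (.node (.I .tdb (.c 8 (.c 40 (.c 18689 (.c 16 .nil)))) (.l 4609 .nil)) (.I .tdb (.c 32 (.c 48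 (.c 8 (.c 16 .nil)))) (.b 40 (.l 4609 .nil))))) (.node (.node (.I .ass (.c 231045989336561353 (.c 18689 (.c 16 .nil))) .nil) (.I .jac (.c 16 (.c 32 (.c 48 .nil))) (.l 231045989336561353 .nil))) (.node (.I .com (.c 16 (.c 18689 .nil)) (.l 231045989336561353 .nil)) (.I .jac (.c 16 (.c 32 (.c 48 .nil))) (.l 231045293249046473 .nil))))))))

noncomputable def c2_131 : Tr := (.node (.node (.node (.node (.node (.node (.I .tdb (.c 8 (.c 40 (.c 18689 (.c 24 .nil)))) (.l 2049 .nil)) (.I .tdb (.c 32 (.c 48 (.c 8 (.c 24 .nil)))) (.b 40 (.l 2049 .nil)))) (.node (.I .ass (.c 9024976834606793 (.c 18689 (.c 24 .nil))) .nil) (.I .jac (.c 24 (.c 32 (.c 48 .nil))) (.l 9024976834606793 .nil)))) (.node (.node (.I .com (.c 24 (.c 18689 .nil)) (.l 9024976834606793 .nil)) (.I .jac (.c 24 (.c 32 (.c 48 .nil))) (.l 9024839260612553 .nil))) (.node (.I .adp (.c 2113 (.c 24 (.c 15456118887244105 .nil))) .nil)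 (.I .tdb (.c 32 (.c 18433 (.c 16 (.c 40 .nil)))) (.l 4673 .nil))))) (.node (.node (.node (.I .ass (.c 4673 (.c 59109071234951844617 (.c 40 .nil))) .nil) (.I .ass (.c 59109071234951844617 (.c 4673 (.c 40 .nil))) .nil)) (.node (.I .com (.c 4673 (.c 59109071234951844617 .nil)) (.r 40 .nil)) (.I .ass (.c 4673 (.c 2718204169 (.c 12929 .nil))) .nil))) (.node (.node (.I .com (.c 4673 (.c 2718204169 .nil)) (.r 12929 .nil)) (.I .tdb (.c 8 (.c 24 (.c 40 (.c 16 .nil)))) (.r 2718204169 .nil))) (.node (.I .com (.c 2718204169 (.c 3491710045129993 .nil)) .nil) (.I .com (.c 2718204169 (.c 3561389332330633 .nil)) .nil))))) (.node (.node (.node (.node (.I .tdb (.c 32 (.c 18433 (.c 24 (.c 40 .nil)))) (.l 2113 .nil)) (.I .ass (.c 2718204169 (.c 2113 (.c 12993 .nil))) .nil)) (.node (.I .ass (.c 2718204169 (.c 35718473 (.c 24 .nil))) .nil) (.I .com (.c 2718204169 (.c 3561367726845129 .nil)) .nil))) (.node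 (.node (.I .com (.c 97535117142651651247146700978185 (.c 4673 .nil)) .nil) (.I .ass (.c 2306972423229201161 (.c 4673 (.c 40 .nil))) .nil)) (.node (.I .ass (.c 537002377 (.c 4673 (.c 12929 .nil))) .nil) (.I .ass (.c 42576974092320101918705356412332005065 (.c 40 (.c 16 .nil))) .nil)))) (.node (.node (.node (.I .com (.c 16 (.c 40 .nil)) (.l 42576974092320101918705356412332005065 .nil)) (.I .tdb (.c 48 (.c 8193 (.c 24 (.c 40 .nil)))) (.l 2113 .nil))) (.node (.I .tdb (.c 0 (.c 32 (.c 24 (.c 40 .nil)))) (.b 48 (.l 2113 .nil))) (.I .ass (.c 42576974092320099556365595025629983433 (.c 40 (.c 24 .nil))) .nil))) (.node (.node (.I .com (.c 24 (.c 40 .nil)) (.l 42576974092320099556365595025629983433 .nil)) (.I .ass (.c 42576974092320097194025833638928027401 (.c 40 (.c 24 .nil))) .nil)) (.node (.I .com (.c 24 (.c 40 .nil)) (.l 42576974092320097194025833638928027401 .nil)) (.I .ass (.c 537002377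 (.c 35718473 (.c 24 .nil))) .nil)))))) (.node (.node (.node (.node (.node (.I .com (.c 1760086083483814173012955851208649 (.c 4673 .nil)) .nil) (.I .ass (.c 4673 (.c 1310924937 (.c 18689 .nil))) .nil)) (.node (.I .ass (.c 1310924937 (.c 4673 (.c 18689 .nil))) .nil) (.I .com (.c 4673 (.c 1310924937 .nil)) (.r 18689 .nil)))) (.node (.node (.I .ass (.c 4673 (.c 12801 (.c 2756086025 .nil))) .nil) (.I .ass (.c 12801 (.c 4673 (.c 2756086025 .nil))) .nil)) (.node (.I .com (.c 4673 (.c 12801 .nil)) (.r 2756086025 .nil)) (.I .ass (.c 4673 (.c 12801 (.c 553912713 .nil))) .nil)))) (.node (.node (.node (.I .ass (.c 12801 (.c 4673 (.c 553912713 .nil))) .nil) (.I .com (.c 4673 (.c 12801 .nil)) (.r 553912713 .nil))) (.node (.I .com (.c 3051551917826763369823227314121 (.c 2113 .nil)) .nil) (.I .ass (.c 2113 (.c 12801 (.c 2775125257 .nil))) .nil))) (.node (.node (.I .ass (.c 12801 (.c 2113 (.c 2775125257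 .nil))) .nil) (.I .com (.c 2113 (.c 12801 .nil)) (.r 2775125257 .nil))) (.node (.I .ass (.c 2113 (.c 12801 (.c 562466185 .nil))) .nil) (.I .ass (.c 12801 (.c 2113 (.c 562466185 .nil))) .nil))))) (.node (.node (.node (.node (.I .com (.c 2113 (.c 12801 .nil)) (.r 562466185 .nil)) (.I .jac (.c 24 (.c 32 (.c 48 .nil))) (.l 13748193523587631817 .nil))) (.node (.I .tdb (.c 32 (.c 40 (.c 48 (.c 8 .nil)))) (.b 169943177 .nil)) (.I .tdb (.c 32 (.c 40 (.c 48 (.c 8 .nil)))) (.b 33587401 .nil)))) (.node (.node (.I .adp (.c 18497 (.c 13057 (.c 33587401 .nil))) .nil) (.I .jac (.c 33587401 (.c 32 (.c 40 .nil))) (.l 18497 .nil))) (.node (.I .adp (.c 545424713 (.c 48 (.c 33587401 .nil))) .nil) (.I .jac (.c 174695561 (.c 32 (.c 40 .nil))) (.l 18433 .nil))))) (.node (.node (.node (.I .jac (.c 18433 (.c 4673 (.c 16 .nil))) (.r 13057 .nil)) (.I .jac (.c 18433 (.c 8 (.c 24 .nil))) (.b 16 (.r 13057 .nil))))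 (.node (.I .adp (.c 537002313 (.c 48 (.c 174695561 .nil))) .nil) (.I .jac (.c 537002313 (.c 4673 (.c 16 .nil))) (.r 48 .nil)))) (.node (.node (.I .jac (.c 18433 (.c 8 (.c 16 .nil))) (.b 24 (.r 13057 .nil))) (.I .jac (.c 1310925065 (.c 8 (.c 16 .nil))) (.b 24 (.r 48 .nil)))) (.node (.I .jac (.c 537002313 (.c 8 (.c 16 .nil))) (.b 24 (.r 48 .nil))) (.I .adp (.c 4609 (.c 16 (.c 15246236343242121 .nil))) .nil)))))))

noncomputable def c2_132 : Tr := (.node (.node (.node (.node (.node (.node (.I .adp (.c 2049 (.c 24 (.c 15246236343242121 .nil))) .nil) (.I .jac (.c 2803715 (.c 32 (.c 40 .nil))) (.l 18497 .nil))) (.node (.I .jac (.c 2803715 (.c 8 (.c 48 .nil))) (.r 13057 .nil)) (.I .tdb (.c 32 (.c 40 (.c 18497 (.c 16 .nil)))) (.l 4609 .nil)))) (.node (.node (.I .com (.c 231045989336561545 (.c 18497 .nil)) (.r 16 .nil)) (.I .com (.c 231045815314584521 (.c 18497 .nil)) (.r 16 .nil))) (.node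 (.I .ass (.c 231046163358603977 (.c 13057 (.c 16 .nil))) .nil) (.I .jac (.c 16 (.c 32 (.c 40 .nil))) (.l 231046163358603977 .nil))))) (.node (.node (.node (.I .com (.c 16 (.c 13057 .nil)) (.l 231046163358603977 .nil)) (.I .ass (.c 231045293249046537 (.c 13057 (.c 16 .nil))) .nil)) (.node (.I .jac (.c 16 (.c 32 (.c 40 .nil))) (.l 231045293249046537 .nil)) (.I .com (.c 16 (.c 13057 .nil)) (.l 231045293249046537 .nil)))) (.node (.node (.I .jac (.c 0 (.c 8786563 (.c 40 .nil))) (.r 18497 .nil)) (.I .tdb (.c 8 (.c 48 (.c 24 (.c 32 .nil)))) (.b 40 (.l 2049 .nil)))) (.node (.I .tdb (.c 32 (.c 40 (.c 18497 (.c 24 .nil)))) (.l 2049 .nil)) (.I .com (.c 9024976834606985 (.c 18497 .nil)) (.r 24 .nil)))))) (.node (.node (.node (.node (.I .com (.c 9024942441010121 (.c 18497 .nil)) (.r 24 .nil)) (.I .ass (.c 9025011228269257 (.c 13057 (.c 24 .nil))) .nil)) (.node (.I .com (.c 24 (.c 13057 .nil))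 (.l 9025011228269257 .nil)) (.I .ass (.c 9024839260612617 (.c 13057 (.c 24 .nil))) .nil))) (.node (.node (.I .jac (.c 24 (.c 32 (.c 40 .nil))) (.l 9024839260612617 .nil)) (.I .com (.c 24 (.c 13057 .nil)) (.l 9024839260612617 .nil))) (.node (.I .jac (.c 62886542410057 (.c 8 (.c 40 .nil))) (.r 48 .nil)) (.I .tdb (.c 32 (.c 12865 (.c 16 (.c 48 .nil)))) (.l 4609 .nil))))) (.node (.node (.node (.I .tdb (.c 8 (.c 40 (.c 16 (.c 48 .nil)))) (.b 32 (.l 4609 .nil))) (.I .ass (.c 427057350195048793444981206822395593 (.c 48 (.c 16 .nil))) .nil)) (.node (.I .com (.c 16 (.c 48 .nil)) (.l 427057350195048793444981206822395593 .nil)) (.I .ass (.c 427057993508083379515198226665525129 (.c 48 (.c 16 .nil))) .nil))) (.node (.node (.I .com (.c 16 (.c 48 .nil)) (.l 427057993508083379515198226665525129 .nil)) (.I .ass (.c 427055420260303037694618589709918089 (.c 48 (.c 16 .nil))) .nil)) (.node (.I .com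 (.c 16 (.c 48 .nil)) (.l 427055420260303037694618589709918089 .nil)) (.I .ass (.c 427057350195047847081321678284722121 (.c 48 (.c 16 .nil))) .nil)))))) (.node (.node (.node (.node (.node (.I .com (.c 16 (.c 48 .nil)) (.l 427057350195047847081321678284722121 .nil)) (.I .tdb (.c 32 (.c 12865 (.c 24 (.c 48 .nil)))) (.l 2049 .nil))) (.node (.I .tdb (.c 8 (.c 40 (.c 24 (.c 48 .nil)))) (.b 32 (.l 2049 .nil))) (.I .ass (.c 651596688508365770927126595477193 (.c 48 (.c 24 .nil))) .nil))) (.node (.node (.I .com (.c 24 (.c 48 .nil)) (.l 651596688508365770927126595477193 .nil)) (.I .ass (.c 651601654921513992739479373959049 (.c 48 (.c 24 .nil))) .nil)) (.node (.I .com (.c 24 (.c 48 .nil)) (.l 651601654921513992739479373959049 .nil)) (.I .ass (.c 651581789439149858614694249422729 (.c 48 (.c 24 .nil))) .nil)))) (.node (.node (.node (.I .com (.c 24 (.c 48 .nil)) (.l 651581789439149858614694249422729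 .nil)) (.I .ass (.c 651596688508328804762888218546121 (.c 48 (.c 24 .nil))) .nil)) (.node (.I .com (.c 24 (.c 48 .nil)) (.l 651596688508328804762888218546121 .nil)) (.I .ass (.c 427057993508084089288477468582296265 (.c 48 (.c 16 .nil))) .nil))) (.node (.node (.I .com (.c 16 (.c 48 .nil)) (.l 427057993508084089288477468582296265 .nil)) (.I .ass (.c 427055420260302801104238302686362569 (.c 48 (.c 16 .nil))) .nil)) (.node (.I .com (.c 16 (.c 48 .nil)) (.l 427055420260302801104238302686362569 .nil)) (.I .ass (.c 651601654921541717468315286321865 (.c 48 (.c 24 .nil))) .nil))))) (.node (.node (.node (.node (.I .com (.c 24 (.c 48 .nil)) (.l 651601654921541717468315286321865 .nil)) (.I .ass (.c 651581789439140617179291382201289 (.c 48 (.c 24 .nil))) .nil)) (.node (.I .com (.c 24 (.c 48 .nil)) (.l 651581789439140617179291382201289 .nil)) (.I .ass (.c 4673 (.c 2718204041 (.c 13057 .nil)))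 .nil))) (.node (.node (.I .com (.c 4673 (.c 2718204041 .nil)) (.r 13057 .nil)) (.I .ass (.c 4673 (.c 18433 (.c 553912649 .nil))) .nil)) (.node (.I .ass (.c 18433 (.c 4673 (.c 553912649 .nil))) .nil) (.I .com (.c 4673 (.c 18433 .nil)) (.r 553912649 .nil))))) (.node (.node (.node (.I .ass (.c 59109068451510808265 (.c 13057 (.c 16 .nil))) .nil) (.I .jac (.c 16 (.c 32 (.c 40 .nil))) (.l 59109068451510808265 .nil))) (.node (.I .com (.c 16 (.c 13057 .nil)) (.l 59109068451510808265 .nil)) (.I .ass (.c 59109062884628932425 (.c 13057 (.c 16 .nil))) .nil))) (.node (.node (.I .jac (.c 16 (.c 32 (.c 40 .nil))) (.l 59109062884628932425 .nil)) (.I .com (.c 16 (.c 13057 .nil)) (.l 59109062884628932425 .nil))) (.node (.I .com (.c 18433 (.c 97536312314097157533296358586185 .nil)) .nil) (.I .com (.c 18433 (.c 2870186216702482236548845247305 .nil)) .nil)))))))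

noncomputable def c2_133 : Tr := (.node (.node (.node (.node (.node (.node (.I .ass (.c 2113 (.c 2718204105 (.c 13057 .nil))) .nil) (.I .com (.c 2113 (.c 2718204105 .nil)) (.r 13057 .nil))) (.node (.I .ass (.c 2113 (.c 18433 (.c 562466121 .nil))) .nil) (.I .ass (.c 18433 (.c 2113 (.c 562466121 .nil))) .nil))) (.node (.node (.I .com (.c 2113 (.c 18433 .nil)) (.r 562466121 .nil)) (.I .ass (.c 59109065668069837513 (.c 13057 (.c 24 .nil))) .nil)) (.node (.I .com (.c 24 (.c 13057 .nil)) (.l 59109065668069837513 .nil)) (.I .ass (.c 59109062884628932361 (.c 13057 (.c 24 .nil))) .nil)))) (.node (.node (.node (.I .com (.c 24 (.c 13057 .nil)) (.l 59109062884628932361 .nil)) (.I .com (.c 18433 (.c 101466720686519624613324987168521 .nil)) .nil)) (.node (.I .com (.c 18433 (.c 3051640828268911628940126690057 .nil)) .nil) (.I .tdb (.c 32 (.c 12801 (.c 16 (.c 48 .nil)))) (.l 4673 .nil)))) (.node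 (.node (.I .tdb (.c 0 (.c 40 (.c 16 (.c 48 .nil)))) (.b 32 (.l 4673 .nil))) (.I .com (.c 1760086083483829361758892708256649 (.c 4673 .nil)) .nil)) (.node (.I .ass (.c 4673 (.c 13748196208362033929 (.c 48 .nil))) .nil) (.I .ass (.c 13748196208362033929 (.c 4673 (.c 48 .nil))) .nil))))) (.node (.node (.node (.node (.I .com (.c 4673 (.c 13748196208362033929 .nil)) (.r 48 .nil)) (.I .jac (.c 1310925065 (.c 8 (.c 24 .nil))) (.r 48 (.r 16 .nil)))) (.node (.I .com (.c 1310925065 (.c 15038498931046537 .nil)) .nil) (.I .tdb (.c 32 (.c 12801 (.c 24 (.c 48 .nil)))) (.l 2113 .nil)))) (.node (.node (.I .tdb (.c 0 (.c 40 (.c 24 (.c 48 .nil)))) (.b 32 (.l 2113 .nil))) (.I .com (.c 1809230235455531025412364982344585 (.c 2113 .nil)) .nil)) (.node (.I .com (.c 1310925065 (.c 15038454533713097 .nil)) .nil) (.I .tdb (.c 40 (.c 8193 (.c 16 (.c 48 .nil)))) (.l 4673 .nil))))) (.node (.node (.node (.I .tdb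 (.c 0 (.c 32 (.c 16 (.c 48 .nil)))) (.b 40 (.l 4673 .nil))) (.I .ass (.c 4673 (.c 537002313 (.c 18561 .nil))) .nil)) (.node (.I .ass (.c 537002313 (.c 4673 (.c 18561 .nil))) .nil) (.I .com (.c 4673 (.c 537002313 .nil)) (.r 18561 .nil)))) (.node (.node (.I .ass (.c 42576953795010656131941434981856024265 (.c 48 (.c 16 .nil))) .nil) (.I .com (.c 16 (.c 48 .nil)) (.l 42576953795010656131941434981856024265 .nil))) (.node (.I .ass (.c 42576953795010651407263038383993868105 (.c 48 (.c 16 .nil))) .nil) (.I .com (.c 16 (.c 48 .nil)) (.l 42576953795010651407263038383993868105 .nil))))))) (.node (.node (.node (.node (.node (.I .ass (.c 2113 (.c 537002313 (.c 18625 .nil))) .nil) (.I .ass (.c 537002313 (.c 2113 (.c 18625 .nil))) .nil)) (.node (.I .com (.c 2113 (.c 537002313 .nil)) (.r 18625 .nil)) (.I .ass (.c 42576953795010653769602236682924913353 (.c 48 (.c 24 .nil))) .nil))) (.node (.node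 (.I .com (.c 24 (.c 48 .nil)) (.l 42576953795010653769602236682924913353 .nil)) (.I .ass (.c 42576953795010651407263038383993868041 (.c 48 (.c 24 .nil))) .nil)) (.node (.I .com (.c 24 (.c 48 .nil)) (.l 42576953795010651407263038383993868041 .nil)) (.I .adp (.c 8257 (.c 18753 (.c 169943177 .nil))) .nil)))) (.node (.node (.node (.I .jac (.c 169943177 (.c 40 (.c 48 .nil))) (.l 8257 .nil)) (.I .adp (.c 2718204233 (.c 32 (.c 174695561 .nil))) .nil)) (.node (.I .jac (.c 2718204233 (.c 4673 (.c 16 .nil))) (.r 32 .nil)) (.I .jac (.c 2718204233 (.c 8 (.c 24 .nil))) (.b 16 (.r 32 .nil))))) (.node (.node (.I .jac (.c 1310925193 (.c 4673 (.c 16 .nil))) (.r 32 .nil)) (.I .jac (.c 1310925193 (.c 8 (.c 24 .nil))) (.b 16 (.r 32 .nil)))) (.node (.I .jac (.c 8193 (.c 8 (.c 24 .nil))) (.b 16 (.r 18753 .nil))) (.I .com (.c 2718204233 (.c 32 .nil)) (.b 35718345 .nil)))))) (.node (.node (.node (.node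 (.I .adp (.c 2718204233 (.c 32 (.c 35718345 .nil))) .nil) (.I .jac (.c 2718204233 (.c 8 (.c 16 .nil))) (.b 24 (.r 32 .nil)))) (.node (.I .jac (.c 1310925193 (.c 2113 (.c 24 .nil))) (.r 32 .nil)) (.I .jac (.c 35718345 (.c 40 (.c 48 .nil))) (.l 8193 .nil)))) (.node (.node (.I .jac (.c 8193 (.c 8 (.c 16 .nil))) (.b 24 (.r 18753 .nil))) (.I .jac (.c 62886542410121 (.c 8 (.c 48 .nil))) (.r 32 .nil))) (.node (.I .jac (.c 169943369 (.c 8 (.c 48 .nil))) (.r 32 (.r 16 .nil))) (.I .ass (.c 427057993508084562470663629860471497 (.c 32 (.c 16 .nil))) .nil)))) (.node (.node (.node (.I .com (.c 16 (.c 32 .nil)) (.l 427057993508084562470663629860471497 .nil)) (.I .ass (.c 427057993508083379515198226665525257 (.c 32 (.c 16 .nil))) .nil)) (.node (.I .com (.c 16 (.c 32 .nil)) (.l 427057993508083379515198226665525257 .nil)) (.I .jac (.c 33587529 (.c 8 (.c 48 .nil))) (.r 32 (.r 24 .nil))))) (.node (.node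 (.I .ass (.c 651601654921560200620872561558217 (.c 32 (.c 24 .nil))) .nil) (.I .com (.c 24 (.c 32 .nil)) (.l 651601654921560200620872561558217 .nil))) (.node (.I .ass (.c 651601654921513992739479373959177 (.c 32 (.c 24 .nil))) .nil) (.I .com (.c 24 (.c 32 .nil)) (.l 651601654921513992739479373959177 .nil))))))))

noncomputable def c2_134 : Tr := (.node (.node (.node (.node (.node (.node (.I .jac (.c 62886542410185 (.c 8 (.c 40 .nil))) (.r 32 .nil)) (.I .tdb (.c 48 (.c 12865 (.c 16 (.c 32 .nil)))) (.l 4609 .nil))) (.node (.I .tdb (.c 8 (.c 40 (.c 16 (.c 32 .nil)))) (.b 48 (.l 4609 .nil))) (.I .tdb (.c 48 (.c 12865 (.c 24 (.c 32 .nil)))) (.l 2049 .nil)))) (.node (.node (.I .tdb (.c 8 (.c 40 (.c 24 (.c 32 .nil)))) (.b 48 (.l 2049 .nil))) (.I .com (.c 31637737730463973030333874121 (.c 8257 .nil)) .nil)) (.node (.I .jac (.c 2803715 (.c 8 (.c 32 .nil))) (.r 18753 .nil)) (.I .tdb (.c 8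 (.c 32 (.c 18753 (.c 16 .nil)))) (.l 4609 .nil))))) (.node (.node (.node (.I .tdb (.c 40 (.c 48 (.c 8 (.c 16 .nil)))) (.b 32 (.l 4609 .nil))) (.I .jac (.c 16 (.c 40 (.c 48 .nil))) (.l 8257 (.l 4609 .nil)))) (.node (.I .ass (.c 231045293249046409 (.c 18753 (.c 16 .nil))) .nil) (.I .com (.c 16 (.c 18753 .nil)) (.l 231045293249046409 .nil)))) (.node (.node (.I .tdb (.c 8 (.c 32 (.c 18753 (.c 24 .nil)))) (.l 2049 .nil)) (.I .tdb (.c 40 (.c 48 (.c 8 (.c 24 .nil)))) (.b 32 (.l 2049 .nil)))) (.node (.I .jac (.c 24 (.c 40 (.c 48 .nil))) (.l 8257 (.l 2049 .nil))) (.I .ass (.c 9024839260612489 (.c 18753 (.c 24 .nil))) .nil))))) (.node (.node (.node (.node (.I .com (.c 24 (.c 18753 .nil)) (.l 9024839260612489 .nil)) (.I .ass (.c 4673 (.c 59109074018392946441 (.c 32 .nil))) .nil)) (.node (.I .ass (.c 59109074018392946441 (.c 4673 (.c 32 .nil))) .nil) (.I .com (.c 4673 (.c 59109074018392946441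 .nil)) (.r 32 .nil)))) (.node (.node (.I .com (.c 2718204233 (.c 617629514823817 .nil)) .nil) (.I .ass (.c 2113 (.c 2718204233 (.c 8385 .nil))) .nil)) (.node (.I .ass (.c 2718204233 (.c 2113 (.c 8385 .nil))) .nil) (.I .com (.c 2113 (.c 2718204233 .nil)) (.r 8385 .nil))))) (.node (.node (.node (.I .ass (.c 2718204233 (.c 35718409 (.c 24 .nil))) .nil) (.I .tdb (.c 8 (.c 16 (.c 32 (.c 24 .nil)))) (.r 2718204233 .nil))) (.node (.I .tdb (.c 48 (.c 12801 (.c 16 (.c 32 .nil)))) (.l 4673 .nil)) (.I .tdb (.c 0 (.c 40 (.c 16 (.c 32 .nil)))) (.b 48 (.l 4673 .nil))))) (.node (.node (.I .ass (.c 4673 (.c 13748198893136698121 (.c 32 .nil))) .nil) (.I .com (.c 4673 (.c 13748198893136698121 .nil)) (.r 32 .nil))) (.node (.I .ass (.c 4673 (.c 1310925193 (.c 8321 .nil))) .nil) (.I .com (.c 4673 (.c 1310925193 .nil)) (.r 8321 .nil))))))) (.node (.node (.node (.node (.node (.I .ass (.c 1512103782441961064963223238430258353865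 (.c 32 (.c 16 .nil))) .nil) (.I .com (.c 16 (.c 32 .nil)) (.l 1512103782441961064963223238430258353865 .nil))) (.node (.I .ass (.c 1512103782441961036806911905286300602185 (.c 32 (.c 16 .nil))) .nil) (.I .com (.c 16 (.c 32 .nil)) (.l 1512103782441961036806911905286300602185 .nil)))) (.node (.node (.I .tdb (.c 8 (.c 24 (.c 32 (.c 16 .nil)))) (.r 1310925193 .nil)) (.I .ass (.c 1512103782441961050885067571858279445193 (.c 32 (.c 24 .nil))) .nil)) (.node (.I .com (.c 24 (.c 32 .nil)) (.l 1512103782441961050885067571858279445193 .nil)) (.I .ass (.c 1512103782441961036806911905286300602121 (.c 32 (.c 24 .nil))) .nil)))) (.node (.node (.node (.I .com (.c 24 (.c 32 .nil)) (.l 1512103782441961036806911905286300602121 .nil)) (.I .ass (.c 4673 (.c 537002121 (.c 18753 .nil))) .nil)) (.node (.I .ass (.c 537002121 (.c 4673 (.c 18753 .nil))) .nil) (.I .com (.c 4673 (.c 537002121 .nil)) (.r 18753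 .nil)))) (.node (.node (.I .ass (.c 2306970773558193865 (.c 18753 (.c 16 .nil))) .nil) (.I .jac (.c 16 (.c 40 (.c 48 .nil))) (.l 2306970773558193865 .nil))) (.node (.I .com (.c 16 (.c 18753 .nil)) (.l 2306970773558193865 .nil)) (.I .ass (.c 2306969673777850185 (.c 18753 (.c 16 .nil))) .nil))))) (.node (.node (.node (.node (.I .com (.c 16 (.c 18753 .nil)) (.l 2306969673777850185 .nil)) (.I .ass (.c 2113 (.c 537002185 (.c 18753 .nil))) .nil)) (.node (.I .ass (.c 537002185 (.c 2113 (.c 18753 .nil))) .nil) (.I .com (.c 2113 (.c 537002185 .nil)) (.r 18753 .nil)))) (.node (.node (.I .ass (.c 2306970223667989193 (.c 18753 (.c 24 .nil))) .nil) (.I .jac (.c 24 (.c 40 (.c 48 .nil))) (.l 2306970223667989193 .nil))) (.node (.I .com (.c 24 (.c 18753 .nil)) (.l 2306970223667989193 .nil)) (.I .ass (.c 2306969673777850121 (.c 18753 (.c 24 .nil))) .nil)))) (.node (.node (.node (.I .jac (.c 24 (.c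 40 (.c 48 .nil))) (.l 2306969673777850121 .nil)) (.I .com (.c 24 (.c 18753 .nil)) (.l 2306969673777850121 .nil))) (.node (.I .com (.c 231045467270826953 (.c 32 .nil)) (.l 18497 .nil)) (.I .tdb (.c 16 (.c 4609 (.c 18497 (.c 32 .nil)))) (.l 40 .nil)))) (.node (.node (.I .tdb (.c 0 (.c 24 (.c 32 (.c 18497 .nil)))) (.b 16 (.l 40 .nil))) (.I .tdb (.c 8 (.c 48 (.c 16 (.c 40 .nil)))) (.b 4609 (.r 32 .nil)))) (.node (.I .tdb (.c 8 (.c 48 (.c 24 (.c 40 .nil)))) (.b 0 (.b 16 (.r 32 .nil)))) (.I .tdb (.c 16 (.c 4609 (.c 18497 (.c 40 .nil)))) (.r 32 .nil))))))))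

noncomputable def c2_135 : Tr := (.node (.node (.node (.node (.node (.node (.I .tdb (.c 0 (.c 24 (.c 40 (.c 18497 .nil)))) (.b 16 (.r 32 .nil))) (.I .tdb (.c 16 (.c 4609 (.c 32 (.c 48 .nil)))) (.l 12865 .nil))) (.node (.I .tdb (.c 0 (.c 24 (.c 32 (.c 48 .nil)))) (.b 16 (.l 12865 .nil))) (.I .tdb (.c 16 (.c 4609 (.c 12865 (.c 48 .nil)))) (.r 32 .nil)))) (.node (.node (.I .tdb (.c 8 (.c 40 (.c 16 (.c 48 .nil)))) (.b 4609 (.r 32 .nil))) (.I .tdb (.c 0 (.c 24 (.c 48 (.c 12865 .nil)))) (.b 16 (.r 32 .nil)))) (.node (.I .tdb (.c 8 (.c 40 (.c 24 (.c 48 .nil)))) (.b 0 (.b 16 (.r 32 .nil)))) (.I .tdb (.c 16 (.c 4609 (.c 12865 (.c 32 .nil)))) (.b 48 .nil))))) (.node (.node (.node (.I .tdb (.c 0 (.c 24 (.c 32 (.c 12865 .nil)))) (.b 16 (.b 48 .nil))) (.I .tdb (.c 16 (.c 4609 (.c 32 (.c 48 .nil)))) (.b 12865 .nil))) (.node (.I .tdb (.c 0 (.c 24 (.c 32 (.c 48 .nil)))) (.b 16 (.b 12865 .nil)))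 (.I .com (.c 231045467270827017 (.c 40 .nil)) (.l 8257 .nil)))) (.node (.node (.I .tdb (.c 16 (.c 4609 (.c 8257 (.c 48 .nil)))) (.r 40 .nil)) (.I .tdb (.c 8 (.c 32 (.c 16 (.c 48 .nil)))) (.b 4609 (.r 40 .nil)))) (.node (.I .tdb (.c 0 (.c 24 (.c 48 (.c 8257 .nil)))) (.b 16 (.r 40 .nil))) (.I .tdb (.c 8 (.c 32 (.c 24 (.c 48 .nil)))) (.b 0 (.b 16 (.r 40 .nil)))))))) (.node (.node (.node (.node (.I .tdb (.c 16 (.c 4609 (.c 8257 (.c 48 .nil)))) (.b 40 .nil)) (.I .tdb (.c 8 (.c 32 (.c 16 (.c 48 .nil)))) (.b 4609 (.b 40 .nil)))) (.node (.I .tdb (.c 0 (.c 24 (.c 48 (.c 8257 .nil)))) (.b 16 (.b 40 .nil))) (.I .tdb (.c 8 (.c 32 (.c 24 (.c 48 .nil)))) (.b 0 (.b 16 (.b 40 .nil)))))) (.node (.node (.I .tdb (.c 16 (.c 4609 (.c 8257 (.c 40 .nil)))) (.b 48 .nil)) (.I .tdb (.c 8 (.c 32 (.c 16 (.c 40 .nil)))) (.b 4609 (.b 48 .nil)))) (.node (.I .tdb (.c 0 (.c 24 (.c 40 (.c 8257 .nil)))) (.b 16 (.b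 48 .nil))) (.I .tdb (.c 8 (.c 32 (.c 24 (.c 40 .nil)))) (.b 0 (.b 16 (.b 48 .nil))))))) (.node (.node (.node (.I .tdb (.c 8 (.c 32 (.c 40 (.c 48 .nil)))) (.b 169943177 .nil)) (.I .com (.c 9024908047478729 (.c 32 .nil)) (.l 18497 .nil))) (.node (.I .tdb (.c 8 (.c 48 (.c 24 (.c 32 .nil)))) (.b 2049 (.l 40 .nil))) (.I .tdb (.c 24 (.c 2049 (.c 18497 (.c 32 .nil)))) (.l 40 .nil)))) (.node (.node (.I .tdb (.c 0 (.c 16 (.c 32 (.c 18497 .nil)))) (.b 24 (.l 40 .nil))) (.I .tdb (.c 8 (.c 48 (.c 24 (.c 40 .nil)))) (.b 2049 (.r 32 .nil)))) (.node (.I .tdb (.c 24 (.c 2049 (.c 18497 (.c 40 .nil)))) (.r 32 .nil)) (.I .tdb (.c 0 (.c 16 (.c 40 (.c 18497 .nil)))) (.b 24 (.r 32 .nil)))))))) (.node (.node (.node (.node (.node (.I .tdb (.c 24 (.c 2049 (.c 12865 (.c 48 .nil)))) (.r 32 .nil)) (.I .tdb (.c 8 (.c 40 (.c 24 (.c 48 .nil)))) (.b 2049 (.r 32 .nil)))) (.node (.I .tdb (.c 0 (.c 16 (.c 48 (.c 12865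 .nil)))) (.b 24 (.r 32 .nil))) (.I .tdb (.c 8 (.c 40 (.c 16 (.c 48 .nil)))) (.b 0 (.b 24 (.r 32 .nil)))))) (.node (.node (.I .tdb (.c 24 (.c 2049 (.c 12865 (.c 32 .nil)))) (.b 48 .nil)) (.I .tdb (.c 0 (.c 16 (.c 32 (.c 12865 .nil)))) (.b 24 (.b 48 .nil)))) (.node (.I .com (.c 9024908047478793 (.c 40 .nil)) (.l 8257 .nil)) (.I .tdb (.c 24 (.c 2049 (.c 8257 (.c 48 .nil)))) (.r 40 .nil))))) (.node (.node (.node (.I .tdb (.c 8 (.c 32 (.c 24 (.c 48 .nil)))) (.b 2049 (.r 40 .nil))) (.I .tdb (.c 0 (.c 16 (.c 48 (.c 8257 .nil)))) (.b 24 (.r 40 .nil)))) (.node (.I .tdb (.c 8 (.c 32 (.c 16 (.c 48 .nil)))) (.b 0 (.b 24 (.r 40 .nil)))) (.I .tdb (.c 24 (.c 2049 (.c 8257 (.c 48 .nil)))) (.b 40 .nil)))) (.node (.node (.I .tdb (.c 8 (.c 32 (.c 24 (.c 48 .nil)))) (.b 2049 (.b 40 .nil))) (.I .tdb (.c 0 (.c 16 (.c 48 (.c 8257 .nil)))) (.b 24 (.b 40 .nil)))) (.node (.I .tdb (.c 8 (.c 32 (.c 16 (.c 48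 .nil)))) (.b 0 (.b 24 (.b 40 .nil)))) (.I .tdb (.c 24 (.c 2049 (.c 8257 (.c 40 .nil)))) (.b 48 .nil)))))) (.node (.node (.node (.node (.I .tdb (.c 8 (.c 32 (.c 24 (.c 40 .nil)))) (.b 2049 (.b 48 .nil))) (.I .tdb (.c 0 (.c 16 (.c 40 (.c 8257 .nil)))) (.b 24 (.b 48 .nil)))) (.node (.I .tdb (.c 8 (.c 32 (.c 16 (.c 40 .nil)))) (.b 0 (.b 24 (.b 48 .nil)))) (.I .tdb (.c 16 (.c 4673 (.c 32 (.c 40 .nil)))) (.b 18433 .nil)))) (.node (.node (.I .tdb (.c 8 (.c 24 (.c 32 (.c 40 .nil)))) (.b 16 (.b 18433 .nil))) (.I .tdb (.c 16 (.c 4673 (.c 32 (.c 48 .nil)))) (.l 12801 .nil))) (.node (.I .tdb (.c 8 (.c 24 (.c 32 (.c 48 .nil)))) (.b 16 (.l 12801 .nil))) (.I .jac (.c 598967998054793 (.c 8 (.c 24 .nil))) (.l 48 .nil))))) (.node (.node (.node (.I .tdb (.c 0 (.c 40 (.c 16 (.c 32 .nil)))) (.b 4673 (.l 48 .nil))) (.I .jac (.c 3491688652046665 (.c 8 (.c 24 .nil))) (.l 48 .nil))) (.node (.I .tdb (.c 0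 (.c 32 (.c 16 (.c 40 .nil)))) (.b 4673 (.l 48 .nil))) (.I .tdb (.c 0 (.c 32 (.c 16 (.c 48 .nil)))) (.b 4673 (.b 40 .nil))))) (.node (.node (.I .tdb (.c 0 (.c 32 (.c 16 (.c 40 .nil)))) (.b 4673 (.b 48 .nil))) (.I .tdb (.c 0 (.c 32 (.c 40 (.c 48 .nil)))) (.b 174695561 .nil))) (.node (.I .tdb (.c 16 (.c 4673 (.c 40 (.c 48 .nil)))) (.b 8193 .nil)) (.I .tdb (.c 8 (.c 24 (.c 40 (.c 48 .nil)))) (.b 16 (.b 8193 .nil)))))))))

noncomputable def c2_136 : Tr := (.node (.node (.node (.node (.node (.node (.I .tdb (.c 0 (.c 48 (.c 24 (.c 32 .nil)))) (.b 2113 (.l 40 .nil))) (.I .tdb (.c 24 (.c 2113 (.c 32 (.c 40 .nil)))) (.b 18433 .nil))) (.node (.I .tdb (.c 8 (.c 16 (.c 32 (.c 40 .nil)))) (.b 24 (.b 18433 .nil))) (.I .tdb (.c 0 (.c 32 (.c 24 (.c 40 .nil)))) (.b 2113 (.l 48 .nil))))) (.node (.node (.I .tdb (.c 0 (.c 32 (.c 24 (.c 40 .nil)))) (.b 2113 (.b 48 .nil))) (.I .jac (.c 0 (.c 8 (.c 24 .nil)))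 (.b 15456298926182601 .nil))) (.node (.I .jac (.c 231045815314584585 (.c 16 (.c 40 .nil))) (.r 8 .nil)) (.I .jac (.c 12865 (.c 16 (.c 48 .nil))) (.b 32 (.l 4609 .nil)))))) (.node (.node (.node (.I .jac (.c 8257 (.c 16 (.c 48 .nil))) (.b 40 (.l 4609 .nil))) (.I .jac (.c 231045989336561545 (.c 16 (.c 48 .nil))) (.r 8 .nil))) (.node (.I .jac (.c 169943369 (.c 18561 (.c 32 .nil))) (.r 8 .nil)) (.I .jac (.c 169943369 (.c 16 (.c 48 .nil))) (.b 32 (.r 8 .nil))))) (.node (.node (.I .jac (.c 18497 (.c 16 (.c 32 .nil))) (.b 40 (.l 4609 .nil))) (.I .jac (.c 12865 (.c 8321 (.c 48 .nil))) (.l 4609 .nil))) (.node (.I .jac (.c 12865 (.c 16 (.c 32 .nil))) (.b 48 (.l 4609 .nil))) (.I .jac (.c 231045989336561673 (.c 16 (.c 32 .nil))) (.r 8 .nil)))))) (.node (.node (.node (.node (.I .jac (.c 2737112329 (.c 16 (.c 40 .nil))) (.l 4609 .nil)) (.I .jac (.c 18497 (.c 12929 (.c 32 .nil))) (.l 4609 .nil)))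 (.node (.I .jac (.c 231046163358604169 (.c 16 (.c 40 .nil))) (.r 8 .nil)) (.I .adp (.c 8 (.c 4737 (.c 13748198893136698249 .nil))) .nil))) (.node (.node (.I .com (.c 18291662791002284499406956391081788295004652320918130873121368043579831919171337 (.c 8 .nil)) .nil) (.I .com (.c 18291662791002284499406956391081788293456258047697562728182996044857540895126345 (.c 8 .nil)) .nil)) (.node (.I .jac (.c 59109071234951844809 (.c 16 (.c 24 .nil))) (.l 8 .nil)) (.I .com (.c 6250093333522399357233012691825335010317669896062679229934290503969021105066308425 (.c 8 .nil)) .nil)))) (.node (.node (.node (.I .adp (.c 8 (.c 24 (.c 16 .nil))) (.b 2306972423229201353 .nil)) (.I .adp (.c 8 (.c 4737 (.c 2306972423229201353 .nil))) .nil)) (.node (.I .jac (.c 2306972423229201353 (.c 16 (.c 24 .nil))) (.l 8 .nil)) (.I .com (.c 14502389782864780551906021094515387666984776397839823428933576006765894833929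 (.c 8 .nil)) .nil))) (.node (.node (.I .adp (.c 8 (.c 24 (.c 16 .nil))) (.b 13748196208362034185 .nil)) (.I .jac (.c 13748196208362034185 (.c 16 (.c 24 .nil))) (.l 8 .nil))) (.node (.I .jac (.c 545424713 (.c 16 (.c 48 .nil))) (.l 4609 .nil)) (.I .jac (.c 8257 (.c 18561 (.c 40 .nil))) (.l 4609 .nil))))))) (.node (.node (.node (.node (.node (.I .jac (.c 2737112393 (.c 16 (.c 32 .nil))) (.l 4609 .nil)) (.I .jac (.c 18497 (.c 8321 (.c 40 .nil))) (.l 4609 .nil))) (.node (.I .jac (.c 231046163358604233 (.c 16 (.c 32 .nil))) (.r 8 .nil)) (.I .adp (.c 8 (.c 4737 (.c 59109074018392946569 .nil))) .nil))) (.node (.node (.I .jac (.c 59109074018392946569 (.c 16 (.c 24 .nil))) (.l 8 .nil)) (.I .com (.c 6250094510787921532714972949261795359997986687185520814234411710500539745947735817 (.c 8 .nil)) .nil)) (.node (.I .com (.c 6250094510787921532714972949261795359969364800669814089227146453475084937910104905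 (.c 8 .nil)) .nil) (.I .adp (.c 8 (.c 24 (.c 16 .nil))) (.b 2306971873338800137 .nil))))) (.node (.node (.node (.I .jac (.c 2306971873338800137 (.c 16 (.c 24 .nil))) (.l 8 .nil)) (.I .com (.c 14502375955699783334294794239894626540952795062111413466126863734909276631881 (.c 8 .nil)) .nil)) (.node (.I .jac (.c 8 (.c 16 (.c 43954947 .nil))) (.l 4609 .nil)) (.I .adp (.c 513 (.c 24 (.c 15456298926182601 .nil))) .nil))) (.node (.node (.I .com (.c 29220792800013619912520277651036013575599852646065129488740114405129 (.c 8 .nil)) .nil) (.I .com (.c 29220792800013619912520277651034056529930001432503733213192808428361 (.c 8 .nil)) .nil)) (.node (.I .adp (.c 2756086025 (.c 40 (.c 2105545 .nil))) .nil) (.I .adp (.c 553912713 (.c 40 (.c 2105545 .nil))) .nil))))) (.node (.node (.node (.node (.I .adp (.c 12929 (.c 18689 (.c 2105545 .nil))) .nil) (.I .jac (.c 2105545 (.c 32 (.c 48 .nil))) (.l 12929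 .nil))) (.node (.I .com (.c 231045293249046473 (.c 2756086025 .nil)) .nil) (.I .com (.c 231045293249046473 (.c 553912713 .nil)) .nil))) (.node (.node (.I .jac (.c 169943113 (.c 32 (.c 48 .nil))) (.l 12929 .nil)) (.I .com (.c 427055420260303274284998876733539209 (.c 12929 .nil)) .nil)) (.node (.I .com (.c 427055420260302801104238302686362633 (.c 12929 .nil)) .nil) (.I .adp (.c 8 (.c 24 (.c 0 .nil))) (.b 15456208906582345 .nil))))) (.node (.node (.node (.I .com (.c 4609 (.c 8 .nil)) (.b 15456208906582345 .nil)) (.I .adp (.c 4609 (.c 8 (.c 15456208906582345 .nil))) .nil)) (.node (.I .jac (.c 4609 (.c 43954819 (.c 32 .nil))) (.r 8 .nil)) (.I .adp (.c 8 (.c 24 (.c 0 .nil))) (.b 3632084291164617 .nil)))) (.node (.node (.I .com (.c 4609 (.c 8 .nil)) (.b 3632084291164617 .nil)) (.I .adp (.c 4609 (.c 8 (.c 3632084291164617 .nil))) .nil)) (.node (.I .adp (.c 513 (.c 24 (.c 3632084291164617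 .nil))) .nil) (.I .com (.c 59555558875529 (.c 2756086025 .nil)) .nil)))))))

noncomputable def c2_137 : Tr := (.node (.node (.node (.node (.node (.node (.I .jac (.c 2728451 (.c 16 (.c 48 .nil))) (.b 32 (.r 40 .nil))) (.I .jac (.c 8193 (.c 21099139 (.c 48 .nil))) (.r 8 .nil))) (.node (.I .jac (.c 8193 (.c 16 (.c 43954883 .nil))) (.r 8 .nil)) (.I .jac (.c 0 (.c 3561389332330953 (.c 32 .nil))) (.r 8 .nil)))) (.node (.node (.I .jac (.c 0 (.c 21099139 (.c 48 .nil))) (.b 32 (.r 8 .nil))) (.I .jac (.c 0 (.c 16 (.c 43954883 .nil))) (.b 32 (.r 8 .nil)))) (.node (.I .tdb (.c 32 (.c 18561 (.c 24 (.c 40 .nil)))) (.b 0 (.r 8 .nil))) (.I .tdb (.c 16 (.c 48 (.c 0 (.c 40 .nil)))) (.b 32 (.b 24 (.r 8 .nil))))))) (.node (.node (.node (.I .tdb (.c 0 (.c 24 (.c 40 (.c 2756086025 .nil)))) (.r 8 .nil)) (.I .jac (.c 169943305 (.c 16 (.c 48 .nil))) (.r 40 (.r 8 .nil)))) (.node (.I .ass (.c 427057350195049030035896088956977929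 (.c 40 (.c 8 .nil))) .nil) (.I .com (.c 8 (.c 40 .nil)) (.l 427057350195049030035896088956977929 .nil)))) (.node (.node (.I .ass (.c 427057350195048083672236560419042313 (.c 40 (.c 8 .nil))) .nil) (.I .com (.c 8 (.c 40 .nil)) (.l 427057350195048083672236560419042313 .nil))) (.node (.I .jac (.c 8257 (.c 16 (.c 48 .nil))) (.l 169943369 .nil)) (.I .jac (.c 8 (.c 18561 (.c 32 .nil))) (.l 169943369 .nil)))))) (.node (.node (.node (.node (.I .jac (.c 8 (.c 16 (.c 48 .nil))) (.b 32 (.l 169943369 .nil))) (.I .tdb (.c 32 (.c 18561 (.c 24 (.c 40 .nil)))) (.l 513 .nil))) (.node (.I .jac (.c 2105609 (.c 16 (.c 48 .nil))) (.r 40 (.r 24 .nil))) (.I .ass (.c 10064237432128545199748236041 (.c 40 (.c 24 .nil))) .nil))) (.node (.node (.I .com (.c 24 (.c 40 .nil)) (.l 10064237432128545199748236041 .nil)) (.I .ass (.c 10064237431983265346846635017 (.c 40 (.c 24 .nil))) .nil)) (.node (.I .com (.c 24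 (.c 40 .nil)) (.l 10064237431983265346846635017 .nil)) (.I .jac (.c 59555558875593 (.c 16 (.c 32 .nil))) (.r 40 .nil))))) (.node (.node (.node (.I .jac (.c 43954755 (.c 16 (.c 32 .nil))) (.l 4609 .nil)) (.I .jac (.c 18433 (.c 16 (.c 21307587 .nil))) (.r 8 .nil))) (.node (.I .ass (.c 427058636821846429560832352193444617 (.c 40 (.c 8 .nil))) .nil) (.I .com (.c 8 (.c 40 .nil)) (.l 427058636821846429560832352193444617 .nil)))) (.node (.node (.I .ass (.c 427056063571157913309372238443346953 (.c 40 (.c 8 .nil))) .nil) (.I .com (.c 8 (.c 40 .nil)) (.l 427056063571157913309372238443346953 .nil))) (.node (.I .jac (.c 18497 (.c 16 (.c 32 .nil))) (.l 169943369 .nil)) (.I .com (.c 28374916743873793267608813449 (.c 12929 .nil)) .nil)))))) (.node (.node (.node (.node (.node (.I .com (.c 2737112329 (.c 12929 .nil)) (.l 4609 .nil)) (.I .com (.c 545424777 (.c 12929 .nil)) (.l 4609 .nil))) (.node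 (.I .jac (.c 8 (.c 16 (.c 40 .nil))) (.r 18689 (.l 4609 .nil))) (.I .jac (.c 12801 (.c 43356803 (.c 32 .nil))) (.r 8 .nil)))) (.node (.node (.I .tdb (.c 32 (.c 48 (.c 0 (.c 40 .nil)))) (.b 16 (.b 24 (.r 8 .nil)))) (.I .com (.c 231045815314584585 (.c 12929 .nil)) (.r 8 .nil))) (.node (.I .jac (.c 8 (.c 16 (.c 40 .nil))) (.l 231046163358604169 .nil)) (.I .ass (.c 231045815314584585 (.c 12929 (.c 8 .nil))) .nil)))) (.node (.node (.node (.I .jac (.c 8 (.c 16 (.c 40 .nil))) (.l 231045815314584585 .nil)) (.I .com (.c 8 (.c 12929 .nil)) (.l 231045815314584585 .nil))) (.node (.I .tdb (.c 16 (.c 40 (.c 18689 (.c 24 .nil)))) (.l 513 .nil)) (.I .jac (.c 24 (.c 32 (.c 48 .nil))) (.l 12929 (.l 513 .nil))))) (.node (.node (.I .ass (.c 35470870263561 (.c 18689 (.c 24 .nil))) .nil) (.I .jac (.c 24 (.c 32 (.c 48 .nil))) (.l 35470870263561 .nil))) (.node (.I .com (.c 24 (.c 18689 .nil)) (.l 35470870263561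 .nil)) (.I .adp (.c 8 (.c 24 (.c 16 .nil))) (.b 15456118887244105 .nil)))))) (.node (.node (.node (.node (.I .adp (.c 8 (.c 4737 (.c 15456118887244105 .nil))) .nil) (.I .jac (.c 3632040653488585 (.c 16 (.c 24 .nil))) (.l 8 .nil))) (.node (.I .tdb (.c 32 (.c 18433 (.c 16 (.c 40 .nil)))) (.b 24 (.l 8 .nil))) (.I .tdb (.c 32 (.c 18433 (.c 24 (.c 40 .nil)))) (.b 16 (.l 8 .nil))))) (.node (.node (.I .tdb (.c 16 (.c 24 (.c 40 (.c 2718204169 .nil)))) (.l 8 .nil)) (.I .ass (.c 27951058418068892742902176168037983934217 (.c 8 (.c 40 .nil))) .nil)) (.node (.I .ass (.c 27951058418068892682374487223447295013705 (.c 8 (.c 40 .nil))) .nil) (.I .ass (.c 8 (.c 2718204169 (.c 179513673 .nil))) .nil)))) (.node (.node (.node (.I .ass (.c 2718204169 (.c 8 (.c 179513673 .nil))) .nil) (.I .com (.c 8 (.c 2718204169 .nil)) (.r 179513673 .nil))) (.node (.I .tdb (.c 32 (.c 18433 (.c 8 (.c 40 .nil)))) (.r 4737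 .nil)) (.I .ass (.c 2718204169 (.c 12865 (.c 4737 .nil))) .nil))) (.node (.node (.I .tdb (.c 16 (.c 24 (.c 40 (.c 8 .nil)))) (.r 2718204169 .nil)) (.I .jac (.c 537002377 (.c 16 (.c 24 .nil))) (.r 40 (.l 8 .nil)))) (.node (.I .ass (.c 8 (.c 42576974092320101918705356412332005129 (.c 40 .nil))) .nil) (.I .ass (.c 42576974092320101918705356412332005129 (.c 8 (.c 40 .nil))) .nil)))))))

noncomputable def c2_138 : Tr := (.node (.node (.node (.node (.node (.node (.I .com (.c 8 (.c 42576974092320101918705356412332005129 .nil)) (.r 40 .nil)) (.I .ass (.c 8 (.c 42576974092320099556365595025629983561 (.c 40 .nil))) .nil)) (.node (.I .com (.c 8 (.c 42576974092320099556365595025629983561 .nil)) (.r 40 .nil)) (.I .tdb (.c 32 (.c 48 (.c 16 (.c 40 .nil)))) (.b 0 (.b 24 (.l 8 .nil)))))) (.node (.node (.I .tdb (.c 0 (.c 40 (.c 18689 (.c 24 .nil)))) (.b 16 (.l 8 .nil))) (.I .tdb (.c 16 (.c 24 (.c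 12801 (.c 18689 .nil)))) (.l 8 .nil))) (.node (.I .jac (.c 4737 (.c 32 (.c 48 .nil))) (.l 12801 (.l 8 .nil))) (.I .ass (.c 8 (.c 13748194865974800137 (.c 18689 .nil))) .nil)))) (.node (.node (.node (.I .ass (.c 13748194865974800137 (.c 8 (.c 18689 .nil))) .nil) (.I .com (.c 8 (.c 13748194865974800137 .nil)) (.r 18689 .nil))) (.node (.I .ass (.c 8 (.c 13748193523587631945 (.c 18689 .nil))) .nil) (.I .ass (.c 13748193523587631945 (.c 8 (.c 18689 .nil))) .nil))) (.node (.node (.I .com (.c 8 (.c 13748193523587631945 .nil)) (.r 18689 .nil)) (.I .ass (.c 8 (.c 12801 (.c 257801086529639433 .nil))) .nil)) (.node (.I .ass (.c 12801 (.c 8 (.c 257801086529639433 .nil))) .nil) (.I .com (.c 8 (.c 12801 .nil)) (.r 257801086529639433 .nil)))))) (.node (.node (.node (.node (.I .jac (.c 0 (.c 21307459 (.c 48 .nil))) (.r 4737 .nil)) (.I .tdb (.c 32 (.c 40 (.c 48 (.c 16 .nil)))) (.b 2105545 .nil)))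 (.node (.I .adp (.c 18561 (.c 13057 (.c 2105545 .nil))) .nil) (.I .adp (.c 1337272585 (.c 48 (.c 2105545 .nil))) .nil))) (.node (.node (.I .adp (.c 553912649 (.c 48 (.c 2105545 .nil))) .nil) (.I .tdb (.c 32 (.c 40 (.c 48 (.c 16 .nil)))) (.b 169943113 .nil))) (.node (.I .jac (.c 169943113 (.c 32 (.c 40 .nil))) (.l 18561 .nil)) (.I .jac (.c 231045293249046409 (.c 16 (.c 40 .nil))) (.r 48 .nil))))) (.node (.node (.node (.I .jac (.c 4609 (.c 43655299 (.c 40 .nil))) (.r 8 .nil)) (.I .adp (.c 513 (.c 24 (.c 15246281046235529 .nil))) .nil)) (.node (.I .jac (.c 2728451 (.c 32 (.c 40 .nil))) (.l 18561 .nil)) (.I .jac (.c 2728451 (.c 16 (.c 48 .nil))) (.r 13057 .nil)))) (.node (.node (.I .tdb (.c 16 (.c 48 (.c 8 (.c 32 .nil)))) (.b 40 (.l 4609 .nil))) (.I .tdb (.c 32 (.c 40 (.c 18561 (.c 8 .nil)))) (.l 4609 .nil))) (.node (.I .jac (.c 0 (.c 15246325749294281 (.c 40 .nil))) (.r 8 .nil)) (.I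 .tdb (.c 16 (.c 48 (.c 0 (.c 32 .nil)))) (.b 40 (.b 24 (.r 8 .nil))))))))) (.node (.node (.node (.node (.node (.I .tdb (.c 16 (.c 48 (.c 24 (.c 32 .nil)))) (.b 40 (.b 0 (.r 8 .nil)))) (.I .tdb (.c 0 (.c 24 (.c 13057 (.c 18561 .nil)))) (.r 8 .nil))) (.node (.I .tdb (.c 32 (.c 40 (.c 18561 (.c 0 .nil)))) (.b 24 (.r 8 .nil))) (.I .tdb (.c 32 (.c 40 (.c 18561 (.c 24 .nil)))) (.b 0 (.r 8 .nil))))) (.node (.node (.I .com (.c 231045989336561545 (.c 18561 .nil)) (.r 8 .nil)) (.I .com (.c 231045815314584521 (.c 18561 .nil)) (.r 8 .nil))) (.node (.I .jac (.c 8 (.c 32 (.c 40 .nil))) (.l 231045467270827017 .nil)) (.I .ass (.c 231045989336561545 (.c 18561 (.c 8 .nil))) .nil)))) (.node (.node (.node (.I .com (.c 8 (.c 18561 .nil)) (.l 231045989336561545 .nil)) (.I .ass (.c 231045815314584521 (.c 18561 (.c 8 .nil))) .nil)) (.node (.I .com (.c 8 (.c 18561 .nil)) (.l 231045815314584521 .nil)) (.I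 .tdb (.c 32 (.c 40 (.c 18561 (.c 24 .nil)))) (.l 513 .nil)))) (.node (.node (.I .jac (.c 24 (.c 32 (.c 40 .nil))) (.l 18561 (.l 513 .nil))) (.I .com (.c 35470870263689 (.c 18561 .nil)) (.r 24 .nil))) (.node (.I .com (.c 35468714087369 (.c 18561 .nil)) (.r 24 .nil)) (.I .ass (.c 35473026505481 (.c 13057 (.c 24 .nil))) .nil))))) (.node (.node (.node (.node (.I .jac (.c 24 (.c 32 (.c 40 .nil))) (.l 35473026505481 .nil)) (.I .com (.c 24 (.c 13057 .nil)) (.l 35473026505481 .nil))) (.node (.I .jac (.c 24 (.c 32 (.c 40 .nil))) (.l 35464401931273 .nil)) (.I .jac (.c 59555558875465 (.c 16 (.c 40 .nil))) (.r 48 .nil)))) (.node (.node (.I .jac (.c 43655235 (.c 16 (.c 40 .nil))) (.l 4609 .nil)) (.I .jac (.c 8193 (.c 43356803 (.c 40 .nil))) (.r 8 .nil))) (.node (.I .tdb (.c 16 (.c 40 (.c 0 (.c 48 .nil)))) (.b 32 (.b 24 (.r 8 .nil)))) (.I .jac (.c 169943305 (.c 16 (.c 40 .nil))) (.r 48 (.r 8 .nil))))))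 (.node (.node (.node (.I .jac (.c 8257 (.c 16 (.c 40 .nil))) (.l 169943433 .nil)) (.I .ass (.c 427056063571158149899930723770113929 (.c 48 (.c 8 .nil))) .nil)) (.node (.I .com (.c 8 (.c 48 .nil)) (.l 427056063571158149899930723770113929 .nil)) (.I .jac (.c 2105609 (.c 16 (.c 40 .nil))) (.r 48 (.r 24 .nil))))) (.node (.node (.I .ass (.c 10065461098035008044835206025 (.c 48 (.c 24 .nil))) .nil) (.I .com (.c 24 (.c 48 .nil)) (.l 10065461098035008044835206025 .nil))) (.node (.I .jac (.c 169943369 (.c 16 (.c 32 .nil))) (.r 48 (.r 8 .nil))) (.I .jac (.c 12865 (.c 16 (.c 32 .nil))) (.l 169943433 .nil))))))))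

noncomputable def c2_139 : Tr := (.node (.node (.node (.node (.node (.node (.I .ass (.c 427056063571157913309372238443346889 (.c 48 (.c 8 .nil))) .nil) (.I .com (.c 8 (.c 48 .nil)) (.l 427056063571157913309372238443346889 .nil))) (.node (.I .ass (.c 10065461098107652387135109897 (.c 48 (.c 24 .nil))) .nil) (.I .com (.c 24 (.c 48 .nil)) (.l 10065461098107652387135109897 .nil)))) (.node (.node (.I .jac (.c 15246191640314249 (.c 16 (.c 24 .nil))) (.l 8 .nil)) (.I .tdb (.c 0 (.c 48 (.c 16 (.c 32 .nil)))) (.b 40 (.b 24 (.l 8 .nil))))) (.node (.I .tdb (.c 0 (.c 48 (.c 24 (.c 32 .nil)))) (.b 40 (.b 16 (.l 8 .nil)))) (.I .tdb (.c 16 (.c 24 (.c 13057 (.c 18433 .nil)))) (.l 8 .nil))))) (.node (.node (.node (.I .tdb (.c 32 (.c 40 (.c 18433 (.c 16 .nil)))) (.b 24 (.l 8 .nil))) (.I .tdb (.c 32 (.c 40 (.c 18433 (.c 24 .nil)))) (.b 16 (.l 8 .nil)))) (.node (.I .adp (.c 18433 (.c 13057 (.c 4737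 .nil))) (.l 8 .nil)) (.I .jac (.c 4737 (.c 32 (.c 40 .nil))) (.l 18433 (.l 8 .nil))))) (.node (.node (.I .jac (.c 18433 (.c 16 (.c 24 .nil))) (.r 13057 (.l 8 .nil))) (.I .ass (.c 8 (.c 18433 (.c 257801270351607689 .nil))) .nil)) (.node (.I .ass (.c 18433 (.c 8 (.c 257801270351607689 .nil))) .nil) (.I .com (.c 8 (.c 18433 .nil)) (.r 257801270351607689 .nil)))))) (.node (.node (.node (.node (.I .ass (.c 8 (.c 18433 (.c 257801086529639369 .nil))) .nil) (.I .ass (.c 18433 (.c 8 (.c 257801086529639369 .nil))) .nil)) (.node (.I .com (.c 8 (.c 18433 .nil)) (.r 257801086529639369 .nil)) (.I .tdb (.c 32 (.c 12801 (.c 16 (.c 48 .nil)))) (.b 24 (.l 8 .nil))))) (.node (.node (.I .tdb (.c 0 (.c 40 (.c 16 (.c 48 .nil)))) (.b 32 (.b 24 (.l 8 .nil)))) (.I .tdb (.c 32 (.c 12801 (.c 24 (.c 48 .nil)))) (.b 16 (.l 8 .nil)))) (.node (.I .tdb (.c 0 (.c 40 (.c 24 (.c 48 .nil)))) (.b 32 (.b 16 (.l 8 .nil))))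 (.I .tdb (.c 16 (.c 24 (.c 48 (.c 1310925065 .nil)))) (.l 8 .nil))))) (.node (.node (.node (.I .adp (.c 1310925065 (.c 48 (.c 4737 .nil))) (.l 8 .nil)) (.I .jac (.c 1310925065 (.c 16 (.c 24 .nil))) (.r 48 (.l 8 .nil)))) (.node (.I .ass (.c 8 (.c 1512103191868961664028723725600700192521 (.c 48 .nil))) .nil) (.I .ass (.c 1512103191868961664028723725600700192521 (.c 8 (.c 48 .nil))) .nil))) (.node (.node (.I .com (.c 8 (.c 1512103191868961664028723725600700192521 .nil)) (.r 48 .nil)) (.I .ass (.c 8 (.c 1512103191868961649950570808237977416521 (.c 48 .nil))) .nil)) (.node (.I .ass (.c 1512103191868961649950570808237977416521 (.c 8 (.c 48 .nil))) .nil) (.I .com (.c 8 (.c 1512103191868961649950570808237977416521 .nil)) (.r 48 .nil))))))) (.node (.node (.node (.node (.node (.I .ass (.c 13748196208362033865 (.c 48 (.c 4737 .nil))) .nil) (.I .com (.c 4737 (.c 48 .nil)) (.l 13748196208362033865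 .nil))) (.node (.I .ass (.c 8 (.c 42576953795010656131941434981856024329 (.c 48 .nil))) .nil) (.I .ass (.c 42576953795010656131941434981856024329 (.c 8 (.c 48 .nil))) .nil))) (.node (.node (.I .com (.c 8 (.c 42576953795010656131941434981856024329 .nil)) (.r 48 .nil)) (.I .ass (.c 8 (.c 42576953795010653769602236682924913481 (.c 48 .nil))) .nil)) (.node (.I .ass (.c 42576953795010653769602236682924913481 (.c 8 (.c 48 .nil))) .nil) (.I .com (.c 8 (.c 42576953795010653769602236682924913481 .nil)) (.r 48 .nil))))) (.node (.node (.node (.I .com (.c 2756086089 (.c 32 .nil)) (.b 2105545 .nil)) (.I .com (.c 1337272713 (.c 32 .nil)) (.b 2105545 .nil))) (.node (.I .jac (.c 169943113 (.c 18561 (.c 40 .nil))) (.r 32 .nil)) (.I .jac (.c 169943113 (.c 16 (.c 48 .nil))) (.b 40 (.r 32 .nil))))) (.node (.node (.I .com (.c 231045293249046409 (.c 1337272713 .nil)) .nil) (.I .jac (.c 231045293249046537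 (.c 16 (.c 40 .nil))) (.r 32 .nil))) (.node (.I .jac (.c 169943113 (.c 40 (.c 48 .nil))) (.l 8321 .nil)) (.I .com (.c 427055420260303037694618589709918217 (.c 8321 .nil)) .nil))))) (.node (.node (.node (.node (.I .com (.c 59555558875465 (.c 2756086089 .nil)) .nil) (.I .jac (.c 59555558875529 (.c 16 (.c 48 .nil))) (.r 32 .nil))) (.node (.I .jac (.c 2728451 (.c 16 (.c 48 .nil))) (.b 40 (.r 32 .nil))) (.I .jac (.c 12865 (.c 16 (.c 48 .nil))) (.r 32 (.l 4609 .nil))))) (.node (.node (.I .tdb (.c 40 (.c 18561 (.c 24 (.c 32 .nil)))) (.b 0 (.r 8 .nil))) (.I .tdb (.c 0 (.c 24 (.c 32 (.c 2756086089 .nil)))) (.r 8 .nil))) (.node (.I .jac (.c 169943369 (.c 16 (.c 48 .nil))) (.r 32 (.r 8 .nil))) (.I .ass (.c 427057993508084562470663629860471561 (.c 32 (.c 8 .nil))) .nil)))) (.node (.node (.node (.I .com (.c 8 (.c 32 .nil)) (.l 427057993508084562470663629860471561 .nil)) (.I .ass (.c 427057993508083616106291307304383497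 (.c 32 (.c 8 .nil))) .nil)) (.node (.I .com (.c 8 (.c 32 .nil)) (.l 427057993508083616106291307304383497 .nil)) (.I .jac (.c 12865 (.c 16 (.c 48 .nil))) (.l 169943305 .nil)))) (.node (.node (.I .tdb (.c 40 (.c 18561 (.c 24 (.c 32 .nil)))) (.l 513 .nil)) (.I .jac (.c 2105673 (.c 16 (.c 48 .nil))) (.r 32 (.r 24 .nil)))) (.node (.I .ass (.c 10065461098180296729435276041 (.c 32 (.c 24 .nil))) .nil) (.I .com (.c 24 (.c 32 .nil)) (.l 10065461098180296729435276041 .nil))))))))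

noncomputable def c2_140 : Tr := (.node (.node (.node (.node (.node (.node (.I .ass (.c 10061790434743040737723204553 (.c 32 (.c 24 .nil))) .nil) (.I .com (.c 24 (.c 32 .nil)) (.l 10061790434743040737723204553 .nil))) (.node (.I .ass (.c 10065461098035008044835206153 (.c 32 (.c 24 .nil))) .nil) (.I .com (.c 24 (.c 32 .nil)) (.l 10065461098035008044835206153 .nil)))) (.node (.node (.I .jac (.c 59555558875593 (.c 16 (.c 40 .nil))) (.r 32 .nil)) (.I .jac (.c 18497 (.c 16 (.c 40 .nil))) (.r 32 (.l 4609 .nil)))) (.node (.I .jac (.c 18433 (.c 8786563 (.c 40 .nil))) (.r 8 .nil)) (.I .ass (.c 427058636821846666152103631404146441 (.c 32 (.c 8 .nil))) .nil)))) (.node (.node (.node (.I .com (.c 8 (.c 32 .nil)) (.l 427058636821846666152103631404146441 .nil)) (.I .ass (.c 427056063571158149899930723770114057 (.c 32 (.c 8 .nil))) .nil)) (.node (.I .com (.c 8 (.c 32 .nil)) (.l 427056063571158149899930723770114057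 .nil)) (.I .jac (.c 18497 (.c 16 (.c 40 .nil))) (.l 169943305 .nil)))) (.node (.node (.I .ass (.c 10061790434706725190145613833 (.c 32 (.c 24 .nil))) .nil) (.I .com (.c 24 (.c 32 .nil)) (.l 10061790434706725190145613833 .nil))) (.node (.I .jac (.c 2728451 (.c 40 (.c 48 .nil))) (.l 8321 .nil)) (.I .com (.c 28374916743812808375320239113 (.c 8321 .nil)) .nil))))) (.node (.node (.node (.node (.I .com (.c 2737112393 (.c 8321 .nil)) (.l 4609 .nil)) (.I .com (.c 1324066185 (.c 8321 .nil)) (.l 4609 .nil))) (.node (.I .jac (.c 8 (.c 16 (.c 32 .nil))) (.r 18753 (.l 4609 .nil))) (.I .tdb (.c 40 (.c 48 (.c 0 (.c 32 .nil)))) (.b 16 (.b 24 (.r 8 .nil)))))) (.node (.node (.I .com (.c 231045989336561673 (.c 8321 .nil)) (.r 8 .nil)) (.I .jac (.c 8 (.c 16 (.c 32 .nil))) (.l 231046163358604233 .nil))) (.node (.I .ass (.c 231045989336561673 (.c 8321 (.c 8 .nil))) .nil) (.I .jac (.c 8 (.c 16 (.c 32 .nil)))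 (.l 231045989336561673 .nil))))) (.node (.node (.node (.I .com (.c 8 (.c 8321 .nil)) (.l 231045989336561673 .nil)) (.I .tdb (.c 16 (.c 32 (.c 18753 (.c 24 .nil)))) (.l 513 .nil))) (.node (.I .jac (.c 24 (.c 40 (.c 48 .nil))) (.l 8321 (.l 513 .nil))) (.I .jac (.c 24 (.c 40 (.c 48 .nil))) (.l 35468714087177 .nil)))) (.node (.node (.I .jac (.c 24 (.c 40 (.c 48 .nil))) (.l 35464401931145 .nil)) (.I .adp (.c 2718204233 (.c 32 (.c 4737 .nil))) (.l 8 .nil))) (.node (.I .jac (.c 2718204233 (.c 16 (.c 24 .nil))) (.r 32 (.l 8 .nil))) (.I .ass (.c 27951061050494848579379785769086333720329 (.c 8 (.c 32 .nil))) .nil)))))) (.node (.node (.node (.node (.node (.I .ass (.c 27951061050494848518852093974251956532041 (.c 8 (.c 32 .nil))) .nil) (.I .ass (.c 8 (.c 2718204233 (.c 179513609 .nil))) .nil)) (.node (.I .ass (.c 2718204233 (.c 8 (.c 179513609 .nil))) .nil) (.I .com (.c 8 (.c 2718204233 .nil))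 (.r 179513609 .nil)))) (.node (.node (.I .tdb (.c 40 (.c 18433 (.c 8 (.c 32 .nil)))) (.r 4737 .nil)) (.I .ass (.c 2718204233 (.c 8257 (.c 4737 .nil))) .nil)) (.node (.I .tdb (.c 16 (.c 24 (.c 32 (.c 8 .nil)))) (.r 2718204233 .nil)) (.I .tdb (.c 48 (.c 12801 (.c 24 (.c 32 .nil)))) (.b 16 (.l 8 .nil)))))) (.node (.node (.node (.I .tdb (.c 0 (.c 40 (.c 24 (.c 32 .nil)))) (.b 48 (.b 16 (.l 8 .nil)))) (.I .adp (.c 1310925193 (.c 32 (.c 4737 .nil))) (.l 8 .nil))) (.node (.I .ass (.c 8 (.c 1512103782441961064963223238430258353929 (.c 32 .nil))) .nil) (.I .com (.c 8 (.c 1512103782441961064963223238430258353929 .nil)) (.r 32 .nil)))) (.node (.node (.I .ass (.c 8 (.c 1512103782441961050885067571858279445321 (.c 32 .nil))) .nil) (.I .ass (.c 1512103782441961050885067571858279445321 (.c 8 (.c 32 .nil))) .nil)) (.node (.I .com (.c 8 (.c 1512103782441961050885067571858279445321 .nil)) (.r 32 .nil))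 (.I .ass (.c 8 (.c 1310925193 (.c 179513609 .nil))) .nil))))) (.node (.node (.node (.node (.I .ass (.c 1310925193 (.c 8 (.c 179513609 .nil))) .nil) (.I .com (.c 8 (.c 1310925193 .nil)) (.r 179513609 .nil))) (.node (.I .tdb (.c 48 (.c 12801 (.c 8 (.c 32 .nil)))) (.r 4737 .nil)) (.I .tdb (.c 0 (.c 40 (.c 8 (.c 32 .nil)))) (.b 48 (.r 4737 .nil))))) (.node (.node (.I .ass (.c 13748198893136698057 (.c 32 (.c 4737 .nil))) .nil) (.I .com (.c 4737 (.c 32 .nil)) (.l 13748198893136698057 .nil))) (.node (.I .ass (.c 1310925193 (.c 8257 (.c 4737 .nil))) .nil) (.I .tdb (.c 16 (.c 24 (.c 32 (.c 8 .nil)))) (.r 1310925193 .nil))))) (.node (.node (.node (.I .tdb (.c 0 (.c 32 (.c 18753 (.c 16 .nil)))) (.b 24 (.l 8 .nil))) (.I .jac (.c 0 (.c 43655363 (.c 40 .nil))) (.b 16 (.l 8 .nil)))) (.node (.I .tdb (.c 0 (.c 32 (.c 18753 (.c 24 .nil)))) (.b 16 (.l 8 .nil))) (.I .ass (.c 8 (.c 8193 (.c 257801454173641673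 .nil))) .nil))) (.node (.node (.I .ass (.c 8193 (.c 8 (.c 257801454173641673 .nil))) .nil) (.I .com (.c 8 (.c 8193 .nil)) (.r 257801454173641673 .nil))) (.node (.I .com (.c 15456253916349577 (.c 32 .nil)) (.b 2049 .nil)) (.I .adp (.c 43954819 (.c 32 (.c 2105545 .nil))) .nil)))))))

noncomputable def c2_141 : Tr := (.node (.node (.node (.node (.node (.node (.I .adp (.c 43655299 (.c 40 (.c 2105545 .nil))) .nil) (.I .adp (.c 18561 (.c 13058 (.c 2105545 .nil))) .nil)) (.node (.I .adp (.c 32 (.c 40 (.c 2105545 .nil))) (.l 18561 .nil)) (.I .com (.c 35466557976521 (.c 32 .nil)) (.l 18561 .nil)))) (.node (.node (.I .tdb (.c 16 (.c 48 (.c 24 (.c 32 .nil)))) (.b 513 (.l 40 .nil))) (.I .tdb (.c 513 (.c 24 (.c 18561 (.c 32 .nil)))) (.l 40 .nil))) (.node (.I .tdb (.c 0 (.c 8 (.c 32 (.c 18561 .nil)))) (.b 24 (.l 40 .nil))) (.I .tdb (.c 16 (.c 48 (.c 8 (.c 40 .nil)))) (.b 0 (.b 24 (.r 32 .nil)))))))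 (.node (.node (.node (.I .tdb (.c 16 (.c 48 (.c 24 (.c 40 .nil)))) (.b 513 (.r 32 .nil))) (.I .tdb (.c 513 (.c 24 (.c 40 (.c 18561 .nil)))) (.r 32 .nil))) (.node (.I .tdb (.c 0 (.c 8 (.c 40 (.c 18561 .nil)))) (.b 24 (.r 32 .nil))) (.I .tdb (.c 513 (.c 24 (.c 40 (.c 32 .nil)))) (.b 18561 .nil)))) (.node (.node (.I .tdb (.c 513 (.c 24 (.c 48 (.c 32 .nil)))) (.l 12929 .nil)) (.I .tdb (.c 0 (.c 8 (.c 32 (.c 48 .nil)))) (.b 24 (.l 12929 .nil)))) (.node (.I .com (.c 1859570876265442276026685052832585 (.c 12929 .nil)) .nil) (.I .jac (.c 513 (.c 16 (.c 21307587 .nil))) (.l 48 .nil)))))) (.node (.node (.node (.node (.I .tdb (.c 16 (.c 40 (.c 24 (.c 32 .nil)))) (.b 513 (.b 48 .nil))) (.I .tdb (.c 513 (.c 24 (.c 40 (.c 48 .nil)))) (.l 8321 .nil))) (.node (.I .tdb (.c 0 (.c 8 (.c 40 (.c 48 .nil)))) (.b 24 (.l 8321 .nil))) (.I .com (.c 1911132888452944123369833244412745 (.c 8321 .nil)) .nil)))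 (.node (.node (.I .jac (.c 513 (.c 21099139 (.c 32 .nil))) (.l 48 .nil)) (.I .tdb (.c 513 (.c 24 (.c 40 (.c 48 .nil)))) (.b 8321 .nil))) (.node (.I .tdb (.c 0 (.c 8 (.c 40 (.c 48 .nil)))) (.b 24 (.b 8321 .nil))) (.I .com (.c 231045293249046473 (.c 43655299 .nil)) .nil)))) (.node (.node (.node (.I .com (.c 105537558360238163450942167246537 (.c 18561 .nil)) .nil) (.I .tdb (.c 8 (.c 4609 (.c 18561 (.c 32 .nil)))) (.l 40 .nil))) (.node (.I .tdb (.c 0 (.c 24 (.c 32 (.c 18561 .nil)))) (.b 8 (.l 40 .nil))) (.I .tdb (.c 16 (.c 48 (.c 8 (.c 40 .nil)))) (.b 4609 (.r 32 .nil))))) (.node (.node (.I .jac (.c 0 (.c 16 (.c 43954883 .nil))) (.b 8 (.r 32 .nil))) (.I .tdb (.c 8 (.c 4609 (.c 18561 (.c 40 .nil)))) (.r 32 .nil))) (.node (.I .tdb (.c 0 (.c 24 (.c 40 (.c 18561 .nil)))) (.b 8 (.r 32 .nil))) (.I .tdb (.c 8 (.c 4609 (.c 32 (.c 40 .nil)))) (.b 18561 .nil))))))) (.node (.node (.node (.node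 (.node (.I .tdb (.c 0 (.c 24 (.c 32 (.c 40 .nil)))) (.b 8 (.b 18561 .nil))) (.I .com (.c 231045293249046537 (.c 21307523 .nil)) .nil)) (.node (.I .tdb (.c 8 (.c 4609 (.c 32 (.c 48 .nil)))) (.l 12929 .nil)) (.I .tdb (.c 0 (.c 24 (.c 32 (.c 48 .nil)))) (.b 8 (.l 12929 .nil))))) (.node (.node (.I .ass (.c 231045293249046537 (.c 12929 (.c 32 .nil))) .nil) (.I .tdb (.c 8 (.c 4609 (.c 12929 (.c 48 .nil)))) (.r 32 .nil))) (.node (.I .tdb (.c 16 (.c 40 (.c 8 (.c 48 .nil)))) (.b 4609 (.r 32 .nil))) (.I .tdb (.c 0 (.c 24 (.c 48 (.c 12929 .nil)))) (.b 8 (.r 32 .nil)))))) (.node (.node (.node (.I .tdb (.c 16 (.c 40 (.c 24 (.c 48 .nil)))) (.b 0 (.b 8 (.r 32 .nil)))) (.I .tdb (.c 8 (.c 4609 (.c 12929 (.c 32 .nil)))) (.b 48 .nil))) (.node (.I .tdb (.c 0 (.c 24 (.c 32 (.c 12929 .nil)))) (.b 8 (.b 48 .nil))) (.I .tdb (.c 8 (.c 4609 (.c 40 (.c 48 .nil)))) (.l 8321 .nil)))) (.node (.node (.I .tdb (.c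 0 (.c 24 (.c 40 (.c 48 .nil)))) (.b 8 (.l 8321 .nil))) (.I .com (.c 1911166281013357267248063802697417 (.c 8321 .nil)) .nil)) (.node (.I .ass (.c 231045293249046537 (.c 8321 (.c 40 .nil))) .nil) (.I .tdb (.c 8 (.c 4609 (.c 8321 (.c 48 .nil)))) (.r 40 .nil)))))) (.node (.node (.node (.node (.I .tdb (.c 16 (.c 32 (.c 8 (.c 48 .nil)))) (.b 4609 (.r 40 .nil))) (.I .tdb (.c 0 (.c 24 (.c 48 (.c 8321 .nil)))) (.b 8 (.r 40 .nil)))) (.node (.I .tdb (.c 16 (.c 32 (.c 24 (.c 48 .nil)))) (.b 0 (.b 8 (.r 40 .nil)))) (.I .tdb (.c 8 (.c 4609 (.c 8321 (.c 48 .nil)))) (.b 40 .nil)))) (.node (.node (.I .tdb (.c 16 (.c 32 (.c 8 (.c 48 .nil)))) (.b 4609 (.b 40 .nil))) (.I .tdb (.c 0 (.c 24 (.c 48 (.c 8321 .nil)))) (.b 8 (.b 40 .nil)))) (.node (.I .tdb (.c 16 (.c 32 (.c 24 (.c 48 .nil)))) (.b 0 (.b 8 (.b 40 .nil)))) (.I .tdb (.c 8 (.c 4609 (.c 8321 (.c 40 .nil)))) (.b 48 .nil))))) (.node (.node (.node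 (.I .tdb (.c 16 (.c 32 (.c 8 (.c 40 .nil)))) (.b 4609 (.b 48 .nil))) (.I .tdb (.c 0 (.c 24 (.c 40 (.c 8321 .nil)))) (.b 8 (.b 48 .nil)))) (.node (.I .tdb (.c 16 (.c 32 (.c 24 (.c 40 .nil)))) (.b 0 (.b 8 (.b 48 .nil)))) (.I .tdb (.c 16 (.c 32 (.c 40 (.c 48 .nil)))) (.b 169943113 .nil)))) (.node (.node (.I .jac (.c 8193 (.c 12929 (.c 48 .nil))) (.r 4673 .nil)) (.I .jac (.c 8193 (.c 16 (.c 40 .nil))) (.b 48 (.r 4673 .nil)))) (.node (.I .jac (.c 12801 (.c 18561 (.c 32 .nil))) (.r 4673 .nil)) (.I .jac (.c 12801 (.c 16 (.c 48 .nil))) (.b 32 (.r 4673 .nil)))))))))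

noncomputable def c2_142 : Tr := (.node (.node (.node (.node (.node (.node (.I .jac (.c 12801 (.c 8321 (.c 48 .nil))) (.r 4673 .nil)) (.I .jac (.c 12801 (.c 16 (.c 32 .nil))) (.b 48 (.r 4673 .nil)))) (.node (.I .jac (.c 18433 (.c 8 (.c 40 .nil))) (.b 32 (.r 4737 .nil))) (.I .jac (.c 8193 (.c 12865 (.c 48 .nil))) (.r 4737 .nil)))) (.node (.node (.I .jac (.c 8193 (.c 8 (.c 40 .nil))) (.b 48 (.r 4737 .nil))) (.I .jac (.c 8193 (.c 8 (.c 48 .nil))) (.b 40 (.r 4737 .nil)))) (.node (.I .adp (.c 0 (.c 24 (.c 16 .nil))) (.b 2379905498923998153 .nil)) (.I .adp (.c 0 (.c 4737 (.c 2379905498923998153 .nil))) .nil)))) (.node (.node (.node (.I .jac (.c 1310925193 (.c 8 (.c 32 .nil))) (.r 4737 .nil)) (.I .jac (.c 18433 (.c 8 (.c 32 .nil))) (.b 40 (.r 4737 .nil)))) (.node (.I .jac (.c 12801 (.c 8257 (.c 48 .nil))) (.r 4737 .nil)) (.I .jac (.c 12801 (.c 8 (.c 32 .nil))) (.b 48 (.r 4737 .nil)))))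 (.node (.node (.I .jac (.c 0 (.c 545424777 (.c 40 .nil))) (.r 4737 .nil)) (.I .jac (.c 0 (.c 8257 (.c 48 .nil))) (.b 40 (.r 4737 .nil)))) (.node (.I .jac (.c 0 (.c 8 (.c 32 .nil))) (.b 48 (.b 40 (.r 4737 .nil)))) (.I .jac (.c 2718204169 (.c 8 (.c 40 .nil))) (.r 4737 .nil)))))) (.node (.node (.node (.node (.I .jac (.c 18433 (.c 12865 (.c 32 .nil))) (.r 4737 .nil)) (.I .jac (.c 537002313 (.c 8 (.c 48 .nil))) (.r 4737 .nil))) (.node (.I .jac (.c 8193 (.c 18497 (.c 40 .nil))) (.r 4737 .nil)) (.I .jac (.c 2718204233 (.c 8 (.c 32 .nil))) (.r 4737 .nil)))) (.node (.node (.I .adp (.c 0 (.c 24 (.c 43954947 .nil))) (.b 2113 .nil)) (.I .adp (.c 0 (.c 24 (.c 8 .nil))) (.b 15456298926182601 .nil))) (.node (.I .adp (.c 0 (.c 4673 (.c 15456298926182601 .nil))) .nil) (.I .jac (.c 0 (.c 16 (.c 43954947 .nil))) (.r 4673 .nil))))) (.node (.node (.node (.I .adp (.c 0 (.c 24 (.c 16 .nil))) (.b 15456298926182537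 .nil)) (.I .jac (.c 0 (.c 8 (.c 43954947 .nil))) (.r 4737 .nil))) (.node (.I .adp (.c 0 (.c 24 (.c 8 .nil))) (.b 15456208906582345 .nil)) (.I .adp (.c 0 (.c 4673 (.c 15456208906582345 .nil))) .nil))) (.node (.node (.I .jac (.c 0 (.c 43954819 (.c 32 .nil))) (.r 4673 .nil)) (.I .jac (.c 21307395 (.c 16 (.c 48 .nil))) (.r 4673 .nil))) (.node (.I .ass (.c 2306972423229201161 (.c 40 (.c 4673 .nil))) .nil) (.I .com (.c 4673 (.c 40 .nil)) (.l 2306972423229201161 .nil))))))) (.node (.node (.node (.node (.node (.I .ass (.c 2306970223667989513 (.c 40 (.c 4673 .nil))) .nil) (.I .com (.c 4673 (.c 40 .nil)) (.l 2306970223667989513 .nil))) (.node (.I .ass (.c 9024942441010185 (.c 40 (.c 4673 .nil))) .nil) (.I .com (.c 4673 (.c 40 .nil)) (.l 9024942441010185 .nil)))) (.node (.node (.I .ass (.c 537002377 (.c 12929 (.c 4673 .nil))) .nil) (.I .com (.c 4673 (.c 12929 .nil)) (.l 537002377 .nil))) (.node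 (.I .ass (.c 33587529 (.c 18689 (.c 4673 .nil))) .nil) (.I .com (.c 4673 (.c 18689 .nil)) (.l 33587529 .nil))))) (.node (.node (.node (.I .adp (.c 0 (.c 24 (.c 16 .nil))) (.b 3632062472293833 .nil)) (.I .jac (.c 21307395 (.c 8 (.c 48 .nil))) (.r 4737 .nil))) (.node (.I .ass (.c 59109062884628932489 (.c 40 (.c 4737 .nil))) .nil) (.I .com (.c 4737 (.c 40 .nil)) (.l 59109062884628932489 .nil)))) (.node (.node (.I .ass (.c 35473026505609 (.c 40 (.c 4737 .nil))) .nil) (.I .com (.c 4737 (.c 40 .nil)) (.l 35473026505609 .nil))) (.node (.I .adp (.c 0 (.c 24 (.c 8 .nil))) (.b 15246281046235529 .nil)) (.I .adp (.c 0 (.c 4673 (.c 15246281046235529 .nil))) .nil))))) (.node (.node (.node (.node (.I .jac (.c 0 (.c 43655299 (.c 40 .nil))) (.r 4673 .nil)) (.I .tdb (.c 32 (.c 40 (.c 18561 (.c 0 .nil)))) (.r 4673 .nil))) (.node (.I .ass (.c 1310925065 (.c 18561 (.c 4673 .nil))) .nil) (.I .com (.c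 4673 (.c 18561 .nil)) (.l 1310925065 .nil)))) (.node (.node (.I .com (.c 4673 (.c 18561 .nil)) (.l 537002313 .nil)) (.I .ass (.c 13748193523587632009 (.c 48 (.c 4673 .nil))) .nil)) (.node (.I .com (.c 4673 (.c 48 .nil)) (.l 13748193523587632009 .nil)) (.I .ass (.c 9024976834606985 (.c 48 (.c 4673 .nil))) .nil)))) (.node (.node (.node (.I .com (.c 4673 (.c 48 .nil)) (.l 9024976834606985 .nil)) (.I .ass (.c 13748196208362033929 (.c 48 (.c 4673 .nil))) .nil)) (.node (.I .com (.c 4673 (.c 48 .nil)) (.l 13748196208362033929 .nil)) (.I .ass (.c 9024942441010121 (.c 48 (.c 4673 .nil))) .nil))) (.node (.node (.I .com (.c 4673 (.c 48 .nil)) (.l 9024942441010121 .nil)) (.I .adp (.c 0 (.c 24 (.c 16 .nil))) (.b 15246236343242121 .nil))) (.node (.I .ass (.c 13748192181200529289 (.c 48 (.c 4737 .nil))) .nil) (.I .com (.c 4737 (.c 48 .nil)) (.l 13748192181200529289 .nil))))))))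

noncomputable def c2_143 : Tr := (.node (.node (.node (.node (.node (.node (.I .ass (.c 9024976834607113 (.c 32 (.c 4673 .nil))) .nil) (.I .com (.c 4673 (.c 32 .nil)) (.l 9024976834607113 .nil))) (.node (.I .ass (.c 537002121 (.c 18753 (.c 4673 .nil))) .nil) (.I .com (.c 4673 (.c 18753 .nil)) (.l 537002121 .nil)))) (.node (.node (.I .ass (.c 33587465 (.c 18753 (.c 4673 .nil))) .nil) (.I .com (.c 4673 (.c 18753 .nil)) (.l 33587465 .nil))) (.node (.I .tdb (.c 40 (.c 18497 (.c 0 (.c 32 .nil)))) (.r 4737 .nil)) (.I .ass (.c 13748192181200529417 (.c 32 (.c 4737 .nil))) .nil)))) (.node (.node (.node (.I .com (.c 4737 (.c 32 .nil)) (.l 13748192181200529417 .nil)) (.I .jac (.c 545424777 (.c 24 (.c 40 .nil))) (.l 2049 .nil))) (.node (.I .jac (.c 9024942441010185 (.c 24 (.c 40 .nil))) (.r 8 .nil)) (.I .jac (.c 553912713 (.c 24 (.c 40 .nil))) (.l 513 .nil)))) (.node (.node (.I .jac (.c 18561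 (.c 24 (.c 40 .nil))) (.b 32 (.l 513 .nil))) (.I .jac (.c 8321 (.c 12993 (.c 48 .nil))) (.l 513 .nil))) (.node (.I .jac (.c 8321 (.c 24 (.c 40 .nil))) (.b 48 (.l 513 .nil))) (.I .jac (.c 1324066057 (.c 24 (.c 48 .nil))) (.l 2049 .nil)))))) (.node (.node (.node (.node (.I .jac (.c 12865 (.c 24 (.c 48 .nil))) (.b 32 (.l 2049 .nil))) (.I .jac (.c 8257 (.c 24 (.c 48 .nil))) (.b 40 (.l 2049 .nil)))) (.node (.I .jac (.c 9024976834606985 (.c 24 (.c 48 .nil))) (.r 8 .nil)) (.I .jac (.c 12929 (.c 24 (.c 48 .nil))) (.b 32 (.l 513 .nil))))) (.node (.node (.I .jac (.c 8321 (.c 24 (.c 48 .nil))) (.b 40 (.l 513 .nil))) (.I .jac (.c 18497 (.c 24 (.c 32 .nil))) (.b 40 (.l 2049 .nil)))) (.node (.I .jac (.c 9024976834607113 (.c 24 (.c 32 .nil))) (.r 8 .nil)) (.I .jac (.c 1337272713 (.c 24 (.c 32 .nil))) (.l 513 .nil))))) (.node (.node (.node (.I .jac (.c 18561 (.c 24 (.c 32 .nil))) (.b 40 (.l 513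 .nil))) (.I .jac (.c 12929 (.c 8385 (.c 48 .nil))) (.l 513 .nil))) (.node (.I .jac (.c 12929 (.c 24 (.c 32 .nil))) (.b 48 (.l 513 .nil))) (.I .jac (.c 35470870263817 (.c 24 (.c 32 .nil))) (.r 16 .nil)))) (.node (.node (.I .jac (.c 2105673 (.c 8385 (.c 48 .nil))) (.r 16 .nil)) (.I .jac (.c 2105673 (.c 24 (.c 32 .nil))) (.b 48 (.r 16 .nil)))) (.node (.I .jac (.c 18497 (.c 12993 (.c 32 .nil))) (.l 2049 .nil)) (.I .adp (.c 8 (.c 16 (.c 24 .nil))) (.b 13748198893136698249 .nil))))))) (.node (.node (.node (.node (.node (.I .adp (.c 8 (.c 16 (.c 24 .nil))) (.b 13748196208362034185 .nil)) (.I .jac (.c 9024942441010121 (.c 24 (.c 48 .nil))) (.r 8 .nil))) (.node (.I .jac (.c 8321 (.c 18625 (.c 40 .nil))) (.l 513 .nil)) (.I .jac (.c 35468714087369 (.c 24 (.c 48 .nil))) (.r 16 .nil)))) (.node (.node (.I .jac (.c 2737112393 (.c 24 (.c 32 .nil))) (.l 2049 .nil)) (.I .jac (.c 18561 (.c 8385 (.c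 40 .nil))) (.l 513 .nil))) (.node (.I .adp (.c 8 (.c 16 (.c 24 .nil))) (.b 59109074018392946569 .nil)) (.I .adp (.c 8 (.c 16 (.c 24 .nil))) (.b 2306971873338800137 .nil))))) (.node (.node (.node (.I .jac (.c 8 (.c 24 (.c 43954947 .nil))) (.l 2049 .nil)) (.I .jac (.c 2049 (.c 24 (.c 43954947 .nil))) (.r 8 .nil))) (.node (.I .adp (.c 513 (.c 16 (.c 15456298926182665 .nil))) .nil) (.I .jac (.c 16 (.c 24 (.c 43954947 .nil))) (.l 513 .nil)))) (.node (.node (.I .jac (.c 513 (.c 24 (.c 43954947 .nil))) (.r 16 .nil)) (.I .adp (.c 2775125257 (.c 40 (.c 2105481 .nil))) .nil)) (.node (.I .com (.c 35464401931209 (.c 2775125257 .nil)) .nil) (.I .jac (.c 2105481 (.c 18625 (.c 32 .nil))) (.r 40 .nil)))))) (.node (.node (.node (.node (.I .jac (.c 2105481 (.c 24 (.c 48 .nil))) (.b 32 (.r 40 .nil))) (.I .jac (.c 2105481 (.c 8385 (.c 48 .nil))) (.r 40 .nil))) (.node (.I .jac (.c 2105481 (.c 24 (.c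 32 .nil))) (.b 48 (.r 40 .nil))) (.I .jac (.c 2105481 (.c 32 (.c 48 .nil))) (.l 12993 .nil)))) (.node (.node (.I .com (.c 10061790434743040737723204489 (.c 12993 .nil)) .nil) (.I .com (.c 10061790434670409642568088585 (.c 12993 .nil)) .nil)) (.node (.I .jac (.c 2105481 (.c 24 (.c 40 .nil))) (.r 18689 .nil)) (.I .jac (.c 9024839260612617 (.c 24 (.c 32 .nil))) (.r 40 .nil))))) (.node (.node (.node (.I .com (.c 651581789439140617179291382201353 (.c 12993 .nil)) .nil) (.I .adp (.c 8 (.c 16 (.c 0 .nil))) (.b 15456253916349769 .nil))) (.node (.I .com (.c 2049 (.c 8 .nil)) (.b 15456253916349769 .nil)) (.I .adp (.c 2049 (.c 8 (.c 15456253916349769 .nil))) .nil))) (.node (.node (.I .jac (.c 2049 (.c 43954883 (.c 32 .nil))) (.r 8 .nil)) (.I .adp (.c 2049 (.c 8 (.c 3632106110100937 .nil))) .nil)) (.node (.I .jac (.c 2049 (.c 21307587 (.c 48 .nil))) (.r 8 .nil)) (.I .adp (.c 513 (.c 16 (.c 3632106110100937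 .nil))) .nil)))))))

noncomputable def c2_144 : Tr := (.node (.node (.node (.node (.node (.node (.I .jac (.c 0 (.c 3632084291164617 (.c 24 .nil))) (.r 8 .nil)) (.I .jac (.c 0 (.c 15456208906582281 (.c 32 .nil))) (.r 8 .nil))) (.node (.I .tdb (.c 24 (.c 48 (.c 16 (.c 40 .nil)))) (.b 32 (.b 0 (.r 8 .nil)))) (.I .tdb (.c 32 (.c 18625 (.c 16 (.c 40 .nil)))) (.b 0 (.r 8 .nil))))) (.node (.node (.I .tdb (.c 24 (.c 48 (.c 0 (.c 40 .nil)))) (.b 32 (.b 16 (.r 8 .nil)))) (.I .tdb (.c 32 (.c 18625 (.c 0 (.c 40 .nil)))) (.b 16 (.r 8 .nil)))) (.node (.I .jac (.c 33587465 (.c 24 (.c 48 .nil))) (.r 40 (.r 8 .nil))) (.I .ass (.c 651591722123579838450590277895049 (.c 40 (.c 8 .nil))) .nil)))) (.node (.node (.node (.I .com (.c 8 (.c 40 .nil)) (.l 651591722123579838450590277895049 .nil)) (.I .jac (.c 21307523 (.c 24 (.c 48 .nil))) (.l 513 .nil))) (.node (.I .tdb (.c 32 (.c 18625 (.c 16 (.c 40 .nil))))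 (.l 513 .nil)) (.I .com (.c 12929 (.c 2775125257 .nil)) (.l 513 .nil)))) (.node (.node (.I .jac (.c 8321 (.c 24 (.c 48 .nil))) (.r 40 (.l 513 .nil))) (.I .jac (.c 8193 (.c 43954755 (.c 24 .nil))) (.r 16 .nil))) (.node (.I .jac (.c 0 (.c 3632062472293833 (.c 24 .nil))) (.r 16 .nil)) (.I .tdb (.c 32 (.c 18625 (.c 8 (.c 40 .nil)))) (.b 0 (.r 16 .nil))))))) (.node (.node (.node (.node (.I .tdb (.c 24 (.c 48 (.c 0 (.c 40 .nil)))) (.b 32 (.b 8 (.r 16 .nil)))) (.I .jac (.c 2105609 (.c 24 (.c 48 .nil))) (.r 40 (.r 16 .nil)))) (.node (.I .ass (.c 10064237432128545199748236105 (.c 40 (.c 16 .nil))) .nil) (.I .com (.c 16 (.c 40 .nil)) (.l 10064237432128545199748236105 .nil)))) (.node (.node (.I .ass (.c 10066684875704784911325976457 (.c 40 (.c 16 .nil))) .nil) (.I .com (.c 16 (.c 40 .nil)) (.l 10066684875704784911325976457 .nil))) (.node (.I .ass (.c 10064237432019585310071937033 (.c 40 (.c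 16 .nil))) .nil) (.I .com (.c 16 (.c 40 .nil)) (.l 10064237432019585310071937033 .nil))))) (.node (.node (.node (.I .ass (.c 651591722123561355438909041458185 (.c 40 (.c 8 .nil))) .nil) (.I .com (.c 8 (.c 40 .nil)) (.l 651591722123561355438909041458185 .nil))) (.node (.I .jac (.c 43954819 (.c 24 (.c 32 .nil))) (.l 513 .nil)) (.I .ass (.c 10066684875741109290467687241 (.c 40 (.c 16 .nil))) .nil))) (.node (.node (.I .com (.c 16 (.c 40 .nil)) (.l 10066684875741109290467687241 .nil)) (.I .jac (.c 18561 (.c 24 (.c 32 .nil))) (.l 2105673 .nil))) (.node (.I .jac (.c 16 (.c 8385 (.c 48 .nil))) (.l 2105673 .nil)) (.I .jac (.c 16 (.c 24 (.c 32 .nil))) (.b 48 (.l 2105673 .nil)))))))) (.node (.node (.node (.node (.node (.I .jac (.c 557571 (.c 24 (.c 40 .nil))) (.r 18689 .nil)) (.I .com (.c 545424777 (.c 12993 .nil)) (.l 2049 .nil))) (.node (.I .jac (.c 8 (.c 24 (.c 40 .nil))) (.r 18689 (.l 2049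 .nil))) (.I .tdb (.c 32 (.c 48 (.c 0 (.c 40 .nil)))) (.b 24 (.b 16 (.r 8 .nil)))))) (.node (.node (.I .com (.c 9024942441010185 (.c 12993 .nil)) (.r 8 .nil)) (.I .ass (.c 9024942441010185 (.c 12993 (.c 8 .nil))) .nil)) (.node (.I .jac (.c 8 (.c 24 (.c 40 .nil))) (.l 9024942441010185 .nil)) (.I .com (.c 8 (.c 12993 .nil)) (.l 9024942441010185 .nil))))) (.node (.node (.node (.I .jac (.c 8 (.c 32 (.c 48 .nil))) (.l 9024908047478729 .nil)) (.I .tdb (.c 24 (.c 40 (.c 18689 (.c 16 .nil)))) (.l 513 .nil))) (.node (.I .com (.c 553912713 (.c 12993 .nil)) (.l 513 .nil)) (.I .ass (.c 35473026505609 (.c 12993 (.c 16 .nil))) .nil))) (.node (.node (.I .com (.c 16 (.c 12993 .nil)) (.l 35473026505609 .nil)) (.I .ass (.c 35468714087433 (.c 12993 (.c 16 .nil))) .nil)) (.node (.I .com (.c 16 (.c 12993 .nil)) (.l 35468714087433 .nil)) (.I .ass (.c 35470870263625 (.c 18689 (.c 16 .nil))) .nil))))) (.node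 (.node (.node (.node (.I .com (.c 16 (.c 18689 .nil)) (.l 35470870263625 .nil)) (.I .tdb (.c 32 (.c 40 (.c 48 (.c 24 .nil)))) (.b 2105481 .nil))) (.node (.I .adp (.c 18625 (.c 13057 (.c 2105481 .nil))) .nil) (.I .jac (.c 2105481 (.c 32 (.c 40 .nil))) (.l 18625 .nil)))) (.node (.node (.I .com (.c 10061790434670409642568088521 (.c 18625 .nil)) .nil) (.I .jac (.c 35464401931145 (.c 24 (.c 40 .nil))) (.r 48 .nil))) (.node (.I .com (.c 35464401931273 (.c 562466121 .nil)) .nil) (.I .jac (.c 35464401931209 (.c 24 (.c 32 .nil))) (.r 48 .nil))))) (.node (.node (.node (.I .tdb (.c 32 (.c 40 (.c 48 (.c 24 .nil)))) (.b 33587273 .nil)) (.I .com (.c 651581789439149858614694249422729 (.c 18625 .nil)) .nil)) (.node (.I .jac (.c 9024839260612489 (.c 24 (.c 40 .nil))) (.r 48 .nil)) (.I .com (.c 9024839260612617 (.c 562466121 .nil)) .nil))) (.node (.node (.I .adp (.c 2049 (.c 8 (.c 15246325749294473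 .nil))) .nil) (.I .adp (.c 513 (.c 16 (.c 15246325749294473 .nil))) .nil)) (.node (.I .jac (.c 557571 (.c 32 (.c 40 .nil))) (.l 18625 .nil)) (.I .com (.c 49484669142536990413609865 (.c 18625 .nil)) .nil)))))))

noncomputable def c2_145 : Tr := (.node (.node (.node (.node (.node (.node (.I .com (.c 49484669139990217052338121 (.c 18625 .nil)) .nil) (.I .jac (.c 557571 (.c 24 (.c 48 .nil))) (.r 13057 .nil))) (.node (.I .tdb (.c 24 (.c 48 (.c 8 (.c 32 .nil)))) (.b 40 (.l 2049 .nil))) (.I .jac (.c 0 (.c 15246281046235401 (.c 40 .nil))) (.r 8 .nil)))) (.node (.node (.I .tdb (.c 24 (.c 48 (.c 0 (.c 32 .nil)))) (.b 40 (.b 16 (.r 8 .nil)))) (.I .tdb (.c 24 (.c 48 (.c 16 (.c 32 .nil)))) (.b 40 (.b 0 (.r 8 .nil))))) (.node (.I .com (.c 9024976834606985 (.c 18625 .nil)) (.r 8 .nil)) (.I .com (.c 9024942441010121 (.c 18625 .nil)) (.r 8 .nil))))) (.node (.node (.node (.I .ass (.c 9024976834606985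 (.c 18625 (.c 8 .nil))) .nil) (.I .jac (.c 8 (.c 24 (.c 48 .nil))) (.l 9024976834606985 .nil))) (.node (.I .com (.c 8 (.c 18625 .nil)) (.l 9024976834606985 .nil)) (.I .ass (.c 9024942441010121 (.c 18625 (.c 8 .nil))) .nil))) (.node (.node (.I .jac (.c 8 (.c 24 (.c 48 .nil))) (.l 9024942441010121 .nil)) (.I .com (.c 8 (.c 18625 .nil)) (.l 9024942441010121 .nil))) (.node (.I .jac (.c 12801 (.c 43655235 (.c 24 .nil))) (.r 16 .nil)) (.I .jac (.c 0 (.c 15246236343241993 (.c 40 .nil))) (.r 16 .nil)))))) (.node (.node (.node (.node (.I .tdb (.c 24 (.c 48 (.c 0 (.c 32 .nil)))) (.b 40 (.b 8 (.r 16 .nil)))) (.I .tdb (.c 24 (.c 48 (.c 8 (.c 32 .nil)))) (.b 40 (.b 0 (.r 16 .nil))))) (.node (.I .tdb (.c 0 (.c 8 (.c 13057 (.c 18625 .nil)))) (.r 16 .nil)) (.I .tdb (.c 32 (.c 40 (.c 18625 (.c 0 .nil)))) (.b 8 (.r 16 .nil))))) (.node (.node (.I .tdb (.c 32 (.c 40 (.c 18625 (.c 8 .nil)))) (.b 0 (.r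 16 .nil))) (.I .com (.c 35470870263689 (.c 18625 .nil)) (.r 16 .nil))) (.node (.I .com (.c 35468714087369 (.c 18625 .nil)) (.r 16 .nil)) (.I .ass (.c 35473026505545 (.c 13057 (.c 16 .nil))) .nil)))) (.node (.node (.node (.I .jac (.c 16 (.c 32 (.c 40 .nil))) (.l 35473026505545 .nil)) (.I .com (.c 16 (.c 13057 .nil)) (.l 35473026505545 .nil))) (.node (.I .ass (.c 35470870263689 (.c 18625 (.c 16 .nil))) .nil) (.I .com (.c 16 (.c 18625 .nil)) (.l 35470870263689 .nil)))) (.node (.node (.I .ass (.c 35468714087369 (.c 18625 (.c 16 .nil))) .nil) (.I .jac (.c 16 (.c 24 (.c 48 .nil))) (.l 35468714087369 .nil))) (.node (.I .com (.c 16 (.c 18625 .nil)) (.l 35468714087369 .nil)) (.I .jac (.c 2487083360585 (.c 24 (.c 40 .nil))) (.r 48 .nil))))))) (.node (.node (.node (.node (.node (.I .jac (.c 43655235 (.c 24 (.c 40 .nil))) (.l 2049 .nil)) (.I .tdb (.c 24 (.c 40 (.c 0 (.c 48 .nil)))) (.b 32 (.b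 16 (.r 8 .nil))))) (.node (.I .jac (.c 33587465 (.c 24 (.c 40 .nil))) (.r 48 (.r 8 .nil))) (.I .jac (.c 8257 (.c 24 (.c 40 .nil))) (.l 33587593 .nil)))) (.node (.node (.I .ass (.c 651591722123570596944749659643785 (.c 48 (.c 8 .nil))) .nil) (.I .com (.c 8 (.c 48 .nil)) (.l 651591722123570596944749659643785 .nil))) (.node (.I .jac (.c 43655299 (.c 24 (.c 40 .nil))) (.l 513 .nil)) (.I .tdb (.c 24 (.c 40 (.c 0 (.c 48 .nil)))) (.b 32 (.b 8 (.r 16 .nil))))))) (.node (.node (.node (.I .ass (.c 10064237432092225236522737481 (.c 48 (.c 16 .nil))) .nil) (.I .com (.c 16 (.c 48 .nil)) (.l 10064237432092225236522737481 .nil))) (.node (.I .ass (.c 10065461098071330215985125257 (.c 48 (.c 16 .nil))) .nil) (.I .com (.c 16 (.c 48 .nil)) (.l 10065461098071330215985125257 .nil)))) (.node (.node (.I .ass (.c 10064237432019585310071936969 (.c 48 (.c 16 .nil))) .nil) (.I .com (.c 16 (.c 48 .nil)) (.l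 10064237432019585310071936969 .nil))) (.node (.I .jac (.c 2487083360649 (.c 24 (.c 32 .nil))) (.r 48 .nil)) (.I .jac (.c 33587529 (.c 24 (.c 32 .nil))) (.r 48 (.r 8 .nil))))))) (.node (.node (.node (.node (.I .jac (.c 12865 (.c 24 (.c 32 .nil))) (.l 33587593 .nil)) (.I .ass (.c 651591722123561355438909041458121 (.c 48 (.c 8 .nil))) .nil)) (.node (.I .com (.c 8 (.c 48 .nil)) (.l 651591722123561355438909041458121 .nil)) (.I .ass (.c 10065461098107652387135109961 (.c 48 (.c 16 .nil))) .nil))) (.node (.node (.I .com (.c 16 (.c 48 .nil)) (.l 10065461098107652387135109961 .nil)) (.I .com (.c 35464401931145 (.c 2775125321 .nil)) .nil)) (.node (.I .com (.c 35464401931145 (.c 1350544777 .nil)) .nil) (.I .jac (.c 35464401931273 (.c 24 (.c 40 .nil))) (.r 32 .nil))))) (.node (.node (.node (.I .jac (.c 2105481 (.c 40 (.c 48 .nil))) (.l 8385 .nil)) (.I .com (.c 10061790434743040737723204553 (.c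 8385 .nil)) .nil)) (.node (.I .com (.c 10061790434706725190145613833 (.c 8385 .nil)) .nil) (.I .jac (.c 2105481 (.c 24 (.c 32 .nil))) (.r 18753 .nil)))) (.node (.node (.I .com (.c 9024839260612489 (.c 2775125321 .nil)) .nil) (.I .jac (.c 9024839260612553 (.c 24 (.c 48 .nil))) (.r 32 .nil))) (.node (.I .com (.c 9024839260612489 (.c 1350544777 .nil)) .nil) (.I .com (.c 651581789439149858614694249422857 (.c 8385 .nil)) .nil)))))))

noncomputable def c2_146 : Tr := (.node (.node (.node (.node (.node (.node (.I .jac (.c 12865 (.c 24 (.c 48 .nil))) (.r 32 (.l 2049 .nil))) (.I .tdb (.c 40 (.c 18625 (.c 16 (.c 32 .nil)))) (.b 0 (.r 8 .nil)))) (.node (.I .tdb (.c 40 (.c 18625 (.c 0 (.c 32 .nil)))) (.b 16 (.r 8 .nil))) (.I .jac (.c 33587529 (.c 24 (.c 48 .nil))) (.r 32 (.r 8 .nil))))) (.node (.node (.I .ass (.c 651591722123579838450590277895113 (.c 32 (.c 8 .nil))) .nil) (.I .com (.c 8 (.c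 32 .nil)) (.l 651591722123579838450590277895113 .nil))) (.node (.I .tdb (.c 40 (.c 18625 (.c 16 (.c 32 .nil)))) (.l 513 .nil)) (.I .com (.c 8321 (.c 2775125321 .nil)) (.l 513 .nil))))) (.node (.node (.node (.I .jac (.c 12929 (.c 24 (.c 48 .nil))) (.r 32 (.l 513 .nil))) (.I .tdb (.c 40 (.c 18625 (.c 8 (.c 32 .nil)))) (.b 0 (.r 16 .nil)))) (.node (.I .jac (.c 2105673 (.c 24 (.c 48 .nil))) (.r 32 (.r 16 .nil))) (.I .ass (.c 10065461098180296729435276105 (.c 32 (.c 16 .nil))) .nil))) (.node (.node (.I .com (.c 16 (.c 32 .nil)) (.l 10065461098180296729435276105 .nil)) (.I .ass (.c 10063013877651720715266098121 (.c 32 (.c 16 .nil))) .nil)) (.node (.I .com (.c 16 (.c 32 .nil)) (.l 10063013877651720715266098121 .nil)) (.I .ass (.c 10065461098071330215985125385 (.c 32 (.c 16 .nil))) .nil))))) (.node (.node (.node (.node (.I .com (.c 16 (.c 32 .nil)) (.l 10065461098071330215985125385 .nil))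 (.I .jac (.c 12929 (.c 24 (.c 48 .nil))) (.l 2105609 .nil))) (.node (.I .ass (.c 651591722123570596944749659643913 (.c 32 (.c 8 .nil))) .nil) (.I .com (.c 8 (.c 32 .nil)) (.l 651591722123570596944749659643913 .nil)))) (.node (.node (.I .ass (.c 10063013877615402959898107913 (.c 32 (.c 16 .nil))) .nil) (.I .com (.c 16 (.c 32 .nil)) (.l 10063013877615402959898107913 .nil))) (.node (.I .com (.c 49484669145083763774947273 (.c 8385 .nil)) .nil) (.I .jac (.c 557571 (.c 24 (.c 32 .nil))) (.r 18753 .nil))))) (.node (.node (.node (.I .com (.c 2737112393 (.c 8385 .nil)) (.l 2049 .nil)) (.I .com (.c 1324066185 (.c 8385 .nil)) (.l 2049 .nil))) (.node (.I .jac (.c 8 (.c 24 (.c 32 .nil))) (.r 18753 (.l 2049 .nil))) (.I .tdb (.c 40 (.c 48 (.c 0 (.c 32 .nil)))) (.b 24 (.b 16 (.r 8 .nil)))))) (.node (.node (.I .com (.c 9024976834607113 (.c 8385 .nil)) (.r 8 .nil)) (.I .ass (.c 9024976834607113 (.c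 8385 (.c 8 .nil))) .nil)) (.node (.I .jac (.c 8 (.c 24 (.c 32 .nil))) (.l 9024976834607113 .nil)) (.I .com (.c 8 (.c 8385 .nil)) (.l 9024976834607113 .nil))))))) (.node (.node (.node (.node (.node (.I .jac (.c 8 (.c 40 (.c 48 .nil))) (.l 9024908047478665 .nil)) (.I .tdb (.c 24 (.c 32 (.c 18753 (.c 16 .nil)))) (.l 513 .nil))) (.node (.I .com (.c 1337272713 (.c 8385 .nil)) (.l 513 .nil)) (.I .ass (.c 35473026505673 (.c 8385 (.c 16 .nil))) .nil))) (.node (.node (.I .com (.c 16 (.c 8385 .nil)) (.l 35473026505673 .nil)) (.I .ass (.c 35470870263817 (.c 8385 (.c 16 .nil))) .nil)) (.node (.I .com (.c 16 (.c 8385 .nil)) (.l 35470870263817 .nil)) (.I .adp (.c 43954883 (.c 32 (.c 2105481 .nil))) .nil)))) (.node (.node (.node (.I .adp (.c 43655363 (.c 40 (.c 2105481 .nil))) .nil) (.I .com (.c 35464401931209 (.c 43655363 .nil)) .nil)) (.node (.I .adp (.c 18625 (.c 13058 (.c 2105481 .nil))) .nil)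 (.I .adp (.c 32 (.c 40 (.c 2105481 .nil))) (.l 18625 .nil)))) (.node (.node (.I .com (.c 35464401931209 (.c 32 .nil)) (.l 18625 .nil)) (.I .com (.c 105533754468731704544899941681929 (.c 18625 .nil)) .nil)) (.node (.I .com (.c 3632084291168337 (.c 18625 .nil)) .nil) (.I .ass (.c 18625 (.c 35464401931209 (.c 32 .nil))) .nil))))) (.node (.node (.node (.node (.I .com (.c 18625 (.c 35464401931209 .nil)) (.r 32 .nil)) (.I .ass (.c 18625 (.c 35464401931145 (.c 40 .nil))) .nil)) (.node (.I .com (.c 18625 (.c 35464401931145 .nil)) (.r 40 .nil)) (.I .tdb (.c 24 (.c 48 (.c 16 (.c 32 .nil)))) (.b 513 (.l 40 .nil))))) (.node (.node (.I .tdb (.c 513 (.c 16 (.c 18625 (.c 32 .nil)))) (.l 40 .nil)) (.I .tdb (.c 0 (.c 8 (.c 32 (.c 18625 .nil)))) (.b 16 (.l 40 .nil)))) (.node (.I .tdb (.c 24 (.c 48 (.c 16 (.c 40 .nil)))) (.b 513 (.r 32 .nil))) (.I .tdb (.c 513 (.c 16 (.c 40 (.c 18625 .nil)))) (.r 32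 .nil))))) (.node (.node (.node (.I .tdb (.c 0 (.c 8 (.c 40 (.c 18625 .nil)))) (.b 16 (.r 32 .nil))) (.I .tdb (.c 24 (.c 48 (.c 0 (.c 40 .nil)))) (.b 8 (.b 16 (.r 32 .nil))))) (.node (.I .tdb (.c 0 (.c 8 (.c 32 (.c 40 .nil)))) (.b 16 (.b 18625 .nil))) (.I .com (.c 35464401931273 (.c 21307587 .nil)) .nil))) (.node (.node (.I .tdb (.c 513 (.c 16 (.c 48 (.c 32 .nil)))) (.l 12993 .nil)) (.I .tdb (.c 0 (.c 8 (.c 32 (.c 48 .nil)))) (.b 16 (.l 12993 .nil)))) (.node (.I .tdb (.c 24 (.c 40 (.c 16 (.c 32 .nil)))) (.b 513 (.b 48 .nil))) (.I .tdb (.c 513 (.c 16 (.c 40 (.c 48 .nil)))) (.l 8385 .nil))))))))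

noncomputable def c2_147 : Tr := (.node (.node (.node (.node (.node (.node (.I .tdb (.c 0 (.c 8 (.c 40 (.c 48 .nil)))) (.b 16 (.l 8385 .nil))) (.I .com (.c 1911144019257783685212967566403337 (.c 8385 .nil)) .nil)) (.node (.I .com (.c 9024839260612489 (.c 43954883 .nil)) .nil) (.I .tdb (.c 8 (.c 2049 (.c 32 (.c 40 .nil)))) (.l 18625 .nil)))) (.node (.node (.I .tdb (.c 0 (.c 16 (.c 32 (.c 40 .nil)))) (.b 8 (.l 18625 .nil))) (.I .com (.c 105533754468735423754529113697993 (.c 18625 .nil)) .nil)) (.node (.I .com (.c 105536290384975911038036627826377 (.c 18625 .nil)) .nil) (.I .com (.c 3632062472309841 (.c 18625 .nil)) .nil)))) (.node (.node (.node (.I .ass (.c 9024839260612553 (.c 18625 (.c 32 .nil))) .nil) (.I .ass (.c 9024839260612489 (.c 18625 (.c 40 .nil))) .nil)) (.node (.I .tdb (.c 24 (.c 48 (.c 8 (.c 32 .nil)))) (.b 2049 (.l 40 .nil))) (.I .tdb (.c 8 (.c 2049 (.c 18625 (.c 32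 .nil)))) (.l 40 .nil)))) (.node (.node (.I .tdb (.c 0 (.c 16 (.c 32 (.c 18625 .nil)))) (.b 8 (.l 40 .nil))) (.I .tdb (.c 24 (.c 48 (.c 8 (.c 40 .nil)))) (.b 2049 (.r 32 .nil)))) (.node (.I .jac (.c 0 (.c 43954819 (.c 24 .nil))) (.b 8 (.r 32 .nil))) (.I .tdb (.c 8 (.c 2049 (.c 18625 (.c 40 .nil)))) (.r 32 .nil)))))) (.node (.node (.node (.node (.I .tdb (.c 0 (.c 16 (.c 40 (.c 18625 .nil)))) (.b 8 (.r 32 .nil))) (.I .tdb (.c 24 (.c 48 (.c 0 (.c 40 .nil)))) (.b 16 (.b 8 (.r 32 .nil))))) (.node (.I .com (.c 9024839260612617 (.c 21307587 .nil)) .nil) (.I .tdb (.c 8 (.c 2049 (.c 32 (.c 48 .nil)))) (.l 12993 .nil)))) (.node (.node (.I .tdb (.c 0 (.c 16 (.c 32 (.c 48 .nil)))) (.b 8 (.l 12993 .nil))) (.I .com (.c 1859570876265457888126924734394057 (.c 12993 .nil)) .nil)) (.node (.I .com (.c 1859592685926327833225220410189513 (.c 12993 .nil)) .nil) (.I .com (.c 15246236343258193 (.c 12993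 .nil)) .nil)))) (.node (.node (.node (.I .ass (.c 9024839260612617 (.c 12993 (.c 32 .nil))) .nil) (.I .tdb (.c 8 (.c 2049 (.c 12993 (.c 48 .nil)))) (.r 32 .nil))) (.node (.I .tdb (.c 24 (.c 40 (.c 8 (.c 48 .nil)))) (.b 2049 (.r 32 .nil))) (.I .tdb (.c 0 (.c 16 (.c 48 (.c 12993 .nil)))) (.b 8 (.r 32 .nil))))) (.node (.node (.I .tdb (.c 24 (.c 40 (.c 0 (.c 48 .nil)))) (.b 16 (.b 8 (.r 32 .nil)))) (.I .tdb (.c 24 (.c 40 (.c 16 (.c 48 .nil)))) (.b 0 (.b 8 (.r 32 .nil))))) (.node (.I .tdb (.c 8 (.c 2049 (.c 12993 (.c 32 .nil)))) (.b 48 .nil)) (.I .tdb (.c 0 (.c 16 (.c 32 (.c 12993 .nil)))) (.b 8 (.b 48 .nil)))))))) (.node (.node (.node (.node (.node (.I .com (.c 1911132888452959950435573782212297 (.c 8385 .nil)) .nil) (.I .com (.c 15456163896896593 (.c 8385 .nil)) .nil)) (.node (.I .ass (.c 9024839260612617 (.c 8385 (.c 40 .nil))) .nil) (.I .jac (.c 0 (.c 43655299 (.c 24 .nil))) (.b 8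 (.r 40 .nil))))) (.node (.node (.I .tdb (.c 8 (.c 2049 (.c 8385 (.c 48 .nil)))) (.r 40 .nil)) (.I .tdb (.c 24 (.c 32 (.c 8 (.c 48 .nil)))) (.b 2049 (.r 40 .nil)))) (.node (.I .tdb (.c 0 (.c 16 (.c 48 (.c 8385 .nil)))) (.b 8 (.r 40 .nil))) (.I .tdb (.c 24 (.c 32 (.c 0 (.c 48 .nil)))) (.b 16 (.b 8 (.r 40 .nil))))))) (.node (.node (.node (.I .tdb (.c 24 (.c 32 (.c 16 (.c 48 .nil)))) (.b 0 (.b 8 (.r 40 .nil)))) (.I .tdb (.c 8 (.c 2049 (.c 8385 (.c 48 .nil)))) (.b 40 .nil))) (.node (.I .tdb (.c 24 (.c 32 (.c 8 (.c 48 .nil)))) (.b 2049 (.b 40 .nil))) (.I .tdb (.c 0 (.c 16 (.c 48 (.c 8385 .nil)))) (.b 8 (.b 40 .nil))))) (.node (.node (.I .tdb (.c 24 (.c 32 (.c 0 (.c 48 .nil)))) (.b 16 (.b 8 (.b 40 .nil)))) (.I .tdb (.c 24 (.c 32 (.c 16 (.c 48 .nil)))) (.b 0 (.b 8 (.b 40 .nil))))) (.node (.I .tdb (.c 8 (.c 2049 (.c 8385 (.c 40 .nil)))) (.b 48 .nil)) (.I .tdb (.c 24 (.c 32 (.c 8 (.c 40 .nil))))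 (.b 2049 (.b 48 .nil))))))) (.node (.node (.node (.node (.I .tdb (.c 0 (.c 16 (.c 40 (.c 8385 .nil)))) (.b 8 (.b 48 .nil))) (.I .tdb (.c 24 (.c 32 (.c 0 (.c 40 .nil)))) (.b 16 (.b 8 (.b 48 .nil))))) (.node (.I .tdb (.c 24 (.c 32 (.c 16 (.c 40 .nil)))) (.b 0 (.b 8 (.b 48 .nil)))) (.I .tdb (.c 24 (.c 32 (.c 40 (.c 48 .nil)))) (.b 33587273 .nil)))) (.node (.node (.I .tdb (.c 8 (.c 2049 (.c 40 (.c 48 .nil)))) (.b 8385 .nil)) (.I .tdb (.c 0 (.c 16 (.c 40 (.c 48 .nil)))) (.b 8 (.b 8385 .nil)))) (.node (.I .jac (.c 537002377 (.c 24 (.c 40 .nil))) (.r 2113 .nil)) (.I .jac (.c 1310925065 (.c 24 (.c 48 .nil))) (.r 2113 .nil))))) (.node (.node (.node (.I .jac (.c 12801 (.c 18625 (.c 32 .nil))) (.r 2113 .nil)) (.I .jac (.c 12801 (.c 24 (.c 48 .nil))) (.b 32 (.r 2113 .nil)))) (.node (.I .jac (.c 8193 (.c 24 (.c 48 .nil))) (.b 40 (.r 2113 .nil))) (.I .jac (.c 2718204169 (.c 24 (.c 40 .nil))) (.r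 2113 .nil)))) (.node (.node (.I .jac (.c 537002313 (.c 24 (.c 48 .nil))) (.r 2113 .nil)) (.I .jac (.c 8193 (.c 18625 (.c 40 .nil))) (.r 2113 .nil))) (.node (.I .jac (.c 2718204233 (.c 24 (.c 32 .nil))) (.r 2113 .nil)) (.I .adp (.c 0 (.c 16 (.c 8 .nil))) (.b 15456298926182665 .nil))))))))

noncomputable def c2_148 : Tr := (.node (.node (.node (.node (.node (.node (.I .adp (.c 0 (.c 2113 (.c 15456298926182665 .nil))) .nil) (.I .jac (.c 0 (.c 24 (.c 43954947 .nil))) (.r 2113 .nil))) (.node (.I .adp (.c 0 (.c 16 (.c 43954947 .nil))) (.b 4673 .nil)) (.I .adp (.c 0 (.c 16 (.c 24 .nil))) (.b 15456298926182537 .nil)))) (.node (.node (.I .adp (.c 0 (.c 16 (.c 8 .nil))) (.b 15456253916349769 .nil)) (.I .adp (.c 0 (.c 2113 (.c 15456253916349769 .nil))) .nil)) (.node (.I .jac (.c 0 (.c 43954883 (.c 32 .nil))) (.r 2113 .nil)) (.I .adp (.c 0 (.c 16 (.c 8 .nil))) (.b 3632106110100937 .nil)))))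 (.node (.node (.node (.I .jac (.c 21307395 (.c 24 (.c 48 .nil))) (.r 2113 .nil)) (.I .tdb (.c 24 (.c 48 (.c 0 (.c 40 .nil)))) (.b 32 (.r 2113 .nil)))) (.node (.I .ass (.c 231045815314584585 (.c 40 (.c 2113 .nil))) .nil) (.I .com (.c 2113 (.c 40 .nil)) (.l 231045815314584585 .nil)))) (.node (.node (.I .ass (.c 2718204169 (.c 12993 (.c 2113 .nil))) .nil) (.I .com (.c 2113 (.c 12993 .nil)) (.l 2718204169 .nil))) (.node (.I .ass (.c 169943369 (.c 18689 (.c 2113 .nil))) .nil) (.I .com (.c 2113 (.c 18689 .nil)) (.l 169943369 .nil)))))) (.node (.node (.node (.node (.I .adp (.c 0 (.c 16 (.c 24 .nil))) (.b 3632062472293833 .nil)) (.I .adp (.c 0 (.c 16 (.c 8 .nil))) (.b 15246325749294473 .nil))) (.node (.I .tdb (.c 24 (.c 48 (.c 0 (.c 32 .nil)))) (.b 40 (.r 2113 .nil))) (.I .tdb (.c 32 (.c 40 (.c 18625 (.c 0 .nil)))) (.r 2113 .nil)))) (.node (.node (.I .ass (.c 1310925065 (.c 18625 (.c 2113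 .nil))) .nil) (.I .com (.c 2113 (.c 18625 .nil)) (.l 1310925065 .nil))) (.node (.I .ass (.c 231045989336561545 (.c 48 (.c 2113 .nil))) .nil) (.I .com (.c 2113 (.c 48 .nil)) (.l 231045989336561545 .nil))))) (.node (.node (.node (.I .ass (.c 231045815314584521 (.c 48 (.c 2113 .nil))) .nil) (.I .com (.c 2113 (.c 48 .nil)) (.l 231045815314584521 .nil))) (.node (.I .adp (.c 0 (.c 16 (.c 24 .nil))) (.b 15246236343242121 .nil)) (.I .ass (.c 231045989336561673 (.c 32 (.c 2113 .nil))) .nil))) (.node (.node (.I .com (.c 2113 (.c 32 .nil)) (.l 231045989336561673 .nil)) (.I .ass (.c 2718204233 (.c 8385 (.c 2113 .nil))) .nil)) (.node (.I .com (.c 2113 (.c 8385 .nil)) (.l 2718204233 .nil)) (.I .ass (.c 537002185 (.c 18753 (.c 2113 .nil))) .nil)))))) (.node (.node (.node (.node (.node (.I .com (.c 2113 (.c 18753 .nil)) (.l 537002185 .nil)) (.I .ass (.c 169943305 (.c 18753 (.c 2113 .nil))) .nil))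 (.node (.I .com (.c 2113 (.c 18753 .nil)) (.l 169943305 .nil)) (.I .com (.c 15456208906582089 (.c 32 .nil)) (.b 4673 .nil)))) (.node (.node (.I .adp (.c 0 (.c 8 (.c 16 .nil))) (.b 3632106110100937 .nil)) (.I .adp (.c 0 (.c 8 (.c 16 .nil))) (.b 15246325749294473 .nil))) (.node (.I .com (.c 15456118887243913 (.c 32 .nil)) (.b 4737 .nil)) (.I .adp (.c 14025210098083633929 (.c 24 (.c 8193 .nil))) .nil)))) (.node (.node (.node (.I .com (.c 537002185 (.c 14025210098083633929 .nil)) .nil) (.I .jac (.c 537002377 (.c 8 (.c 40 .nil))) (.b 16 (.r 24 .nil)))) (.node (.I .jac (.c 537002121 (.c 12865 (.c 48 .nil))) (.r 24 .nil)) (.I .jac (.c 537002313 (.c 18497 (.c 16 .nil))) (.r 24 .nil)))) (.node (.node (.I .jac (.c 537002313 (.c 8 (.c 48 .nil))) (.b 16 (.r 24 .nil))) (.I .jac (.c 537002121 (.c 8 (.c 48 .nil))) (.b 40 (.r 24 .nil)))) (.node (.I .jac (.c 537002313 (.c 2113 (.c 48 .nil))) (.r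 24 .nil)) (.I .jac (.c 2306972423229201161 (.c 8 (.c 40 .nil))) (.r 24 .nil)))))) (.node (.node (.node (.node (.I .jac (.c 537002377 (.c 12865 (.c 16 .nil))) (.r 24 .nil)) (.I .jac (.c 8193 (.c 1324065929 (.c 48 .nil))) (.r 24 .nil))) (.node (.I .jac (.c 8193 (.c 12865 (.c 16 .nil))) (.b 48 (.r 24 .nil))) (.I .jac (.c 8193 (.c 8 (.c 40 .nil))) (.b 16 (.b 48 (.r 24 .nil)))))) (.node (.node (.I .jac (.c 537002313 (.c 16 (.c 48 .nil))) (.l 4673 .nil)) (.I .jac (.c 8193 (.c 16 (.c 48 .nil))) (.b 40 (.l 4673 .nil)))) (.node (.I .com (.c 42576953795010653769602236682924913673 (.c 4673 .nil)) .nil) (.I .adp (.c 13748198893136698121 (.c 24 (.c 8257 .nil))) .nil)))) (.node (.node (.node (.I .adp (.c 59109065668069837769 (.c 24 (.c 8257 .nil))) .nil) (.I .jac (.c 13748193523587632137 (.c 8 (.c 32 .nil))) (.r 24 .nil))) (.node (.I .adp (.c 4609 (.c 2756086089 (.c 8257 .nil))) .nil) (.I .jac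 (.c 537002121 (.c 18497 (.c 40 .nil))) (.r 24 .nil)))) (.node (.node (.I .jac (.c 8193 (.c 35718473 (.c 48 .nil))) (.r 24 .nil)) (.I .jac (.c 8193 (.c 2113 (.c 40 .nil))) (.b 48 (.r 24 .nil)))) (.node (.I .jac (.c 8193 (.c 8 (.c 16 .nil))) (.b 40 (.b 48 (.r 24 .nil)))) (.I .jac (.c 59109074018392946441 (.c 8 (.c 32 .nil))) (.r 24 .nil))))))))

noncomputable def c2_149 : Tr := (.node (.node (.node (.node (.node (.node (.I .adp (.c 15456208906582153 (.c 24 (.c 8193 .nil))) .nil) (.I .adp (.c 244149027818380041 (.c 40 (.c 8193 .nil))) .nil)) (.node (.I .com (.c 537002313 (.c 244149027818380041 .nil)) .nil) (.I .jac (.c 537002121 (.c 8 (.c 24 .nil))) (.b 48 (.r 40 .nil))))) (.node (.node (.I .jac (.c 8193 (.c 174695817 (.c 16 .nil))) (.r 40 .nil)) (.I .jac (.c 8193 (.c 4673 (.c 48 .nil))) (.b 16 (.r 40 .nil)))) (.node (.I .jac (.c 8193 (.c 8 (.c 24 .nil))) (.b 48 (.b 16 (.r 40 .nil))))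 (.I .adp (.c 59934265606904515401 (.c 40 (.c 8193 .nil))) .nil)))) (.node (.node (.node (.I .com (.c 537002313 (.c 59934265606904515401 .nil)) .nil) (.I .jac (.c 2306970773558193929 (.c 8 (.c 48 .nil))) (.r 40 .nil))) (.node (.I .jac (.c 537002185 (.c 8 (.c 48 .nil))) (.b 16 (.r 40 .nil))) (.I .jac (.c 537002185 (.c 8 (.c 16 .nil))) (.b 48 (.r 40 .nil))))) (.node (.node (.I .jac (.c 8193 (.c 35718537 (.c 24 .nil))) (.r 40 .nil)) (.I .jac (.c 8193 (.c 2113 (.c 48 .nil))) (.b 24 (.r 40 .nil)))) (.node (.I .jac (.c 8193 (.c 8 (.c 16 .nil))) (.b 48 (.b 24 (.r 40 .nil)))) (.I .adp (.c 244148312264838153 (.c 40 (.c 8193 .nil))) .nil))))) (.node (.node (.node (.node (.I .com (.c 537002313 (.c 244148312264838153 .nil)) .nil) (.I .jac (.c 8193 (.c 174695561 (.c 48 .nil))) (.r 40 .nil))) (.node (.I .jac (.c 8193 (.c 4673 (.c 16 .nil))) (.b 48 (.r 40 .nil))) (.I .jac (.c 8193 (.c 8 (.c 24 .nil)))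 (.b 16 (.b 48 (.r 40 .nil)))))) (.node (.node (.I .jac (.c 537002185 (.c 16 (.c 48 .nil))) (.l 12865 .nil)) (.I .com (.c 42576974092320099556365595025629983561 (.c 12865 .nil)) .nil)) (.node (.I .com (.c 42576913200413533512397237570979656713 (.c 12865 .nil)) .nil) (.I .jac (.c 8193 (.c 8 (.c 40 .nil))) (.r 2756085961 .nil))))) (.node (.node (.node (.I .adp (.c 231046163358604041 (.c 40 (.c 8257 .nil))) .nil) (.I .adp (.c 59109065668069837641 (.c 40 (.c 8257 .nil))) .nil)) (.node (.I .adp (.c 9025011228269385 (.c 40 (.c 8257 .nil))) .nil) (.I .adp (.c 231045467270827017 (.c 40 (.c 8257 .nil))) .nil))) (.node (.node (.I .jac (.c 545424585 (.c 16 (.c 48 .nil))) (.l 12801 .nil)) (.I .adp (.c 59934268409707441929 (.c 40 (.c 8193 .nil))) .nil)) (.node (.I .com (.c 537002313 (.c 59934268409707441929 .nil)) .nil) (.I .jac (.c 2306970223667989321 (.c 8 (.c 48 .nil))) (.r 40 .nil))))))) (.node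 (.node (.node (.node (.node (.I .jac (.c 8193 (.c 2737112265 (.c 16 .nil))) (.r 40 .nil)) (.I .jac (.c 8193 (.c 18497 (.c 24 .nil))) (.b 16 (.r 40 .nil)))) (.node (.I .jac (.c 8193 (.c 8 (.c 48 .nil))) (.b 24 (.b 16 (.r 40 .nil)))) (.I .jac (.c 8193 (.c 35718345 (.c 48 .nil))) (.r 40 .nil)))) (.node (.node (.I .jac (.c 8193 (.c 2113 (.c 24 .nil))) (.b 48 (.r 40 .nil))) (.I .jac (.c 8193 (.c 8 (.c 16 .nil))) (.b 24 (.b 48 (.r 40 .nil))))) (.node (.I .jac (.c 537002377 (.c 16 (.c 24 .nil))) (.l 12865 .nil)) (.I .jac (.c 8193 (.c 16 (.c 24 .nil))) (.b 48 (.l 12865 .nil)))))) (.node (.node (.node (.I .adp (.c 59109068451510808329 (.c 40 (.c 8257 .nil))) .nil) (.I .jac (.c 59109068451510808329 (.c 8 (.c 32 .nil))) (.r 40 .nil))) (.node (.I .jac (.c 8257 (.c 4737 (.c 48 .nil))) (.l 12801 .nil)) (.I .jac (.c 8257 (.c 16 (.c 24 .nil))) (.b 48 (.l 12801 .nil))))) (.node (.node (.I .jac (.c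 12801 (.c 8 (.c 32 .nil))) (.r 179513737 .nil)) (.I .adp (.c 15038498931046473 (.c 40 (.c 8257 .nil))) .nil)) (.node (.I .jac (.c 12801 (.c 8 (.c 32 .nil))) (.r 43356803 .nil)) (.I .adp (.c 2737112201 (.c 12993 (.c 8193 .nil))) .nil))))) (.node (.node (.node (.node (.I .com (.c 2306970773558194121 (.c 2737112201 .nil)) .nil) (.I .jac (.c 537002121 (.c 8 (.c 48 .nil))) (.r 12993 .nil))) (.node (.I .jac (.c 8193 (.c 8 (.c 48 .nil))) (.b 16 (.r 12993 .nil))) (.I .jac (.c 8193 (.c 24 (.c 40 .nil))) (.l 35718537 .nil)))) (.node (.node (.I .com (.c 2306971873338799945 (.c 35718537 .nil)) .nil) (.I .com (.c 2306970773558194121 (.c 35718537 .nil)) .nil)) (.node (.I .jac (.c 8193 (.c 2113 (.c 48 .nil))) (.r 12993 .nil)) (.I .jac (.c 8193 (.c 16 (.c 48 .nil))) (.l 1324065993 .nil))))) (.node (.node (.node (.I .com (.c 2306972423229201161 (.c 1324065993 .nil)) .nil) (.I .jac (.c 537002185 (.c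 8 (.c 40 .nil))) (.r 18561 .nil))) (.node (.I .adp (.c 174695753 (.c 18561 (.c 8193 .nil))) .nil) (.I .com (.c 2306972423229201161 (.c 174695753 .nil)) .nil))) (.node (.node (.I .com (.c 2306970223667989513 (.c 174695753 .nil)) .nil) (.I .jac (.c 8193 (.c 4673 (.c 40 .nil))) (.r 18561 .nil))) (.node (.I .jac (.c 8193 (.c 8 (.c 24 .nil))) (.b 40 (.r 18561 .nil))) (.I .tdb (.c 24 (.c 40 (.c 18561 (.c 0 .nil)))) (.b 8257 .nil))))))))

noncomputable def c2_150 : Tr := (.node (.node (.node (.node (.node (.node (.I .adp (.c 2718204041 (.c 12993 (.c 8257 .nil))) .nil) (.I .jac (.c 2718204041 (.c 8 (.c 32 .nil))) (.r 12993 .nil))) (.node (.I .adp (.c 33587593 (.c 12993 (.c 8257 .nil))) .nil) (.I .jac (.c 8257 (.c 16 (.c 48 .nil))) (.l 1310925001 .nil)))) (.node (.node (.I .com (.c 537002185 (.c 15456163896880329 .nil)) .nil) (.I .adp (.c 62889413447113 (.c 40 (.c 8193 .nil))) .nil)) (.node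 (.I .com (.c 537002313 (.c 62889413447113 .nil)) .nil) (.I .com (.c 8007571589612989335961665138595360405901401549261840306057 (.c 40 .nil)) .nil)))) (.node (.node (.node (.I .jac (.c 0 (.c 15456298926182537 (.c 16 .nil))) (.r 24 .nil)) (.I .jac (.c 0 (.c 8 (.c 43954947 .nil))) (.b 16 (.r 24 .nil)))) (.node (.I .tdb (.c 16 (.c 18497 (.c 32 (.c 40 .nil)))) (.b 0 (.r 24 .nil))) (.I .tdb (.c 8 (.c 48 (.c 32 (.c 40 .nil)))) (.b 16 (.b 0 (.r 24 .nil)))))) (.node (.node (.I .tdb (.c 0 (.c 32 (.c 24 (.c 40 .nil)))) (.b 2737112201 .nil)) (.I .com (.c 26186512359090472543188603966557137501573810150274371860122381242249 (.c 40 .nil)) .nil)) (.node (.I .com (.c 6441087201663406564458032426684004733909218721543699760009 (.c 40 .nil)) .nil) (.I .tdb (.c 0 (.c 32 (.c 24 (.c 40 .nil)))) (.b 35718537 .nil)))))) (.node (.node (.node (.node (.I .jac (.c 8193 (.c 16 (.c 48 .nil))) (.l 21099075 .nil))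 (.I .com (.c 2306972423229201161 (.c 21099075 .nil)) .nil)) (.node (.I .com (.c 2306970223667989513 (.c 21099075 .nil)) .nil) (.I .tdb (.c 0 (.c 32 (.c 18561 (.c 24 .nil)))) (.l 12865 .nil)))) (.node (.node (.I .adp (.c 18561 (.c 24 (.c 8193 .nil))) (.l 12865 .nil)) (.I .com (.c 537002185 (.c 18561 .nil)) (.l 12865 .nil))) (.node (.I .jac (.c 8193 (.c 16 (.c 48 .nil))) (.r 24 (.l 12865 .nil))) (.I .com (.c 1809230235455484827416425822613385 (.c 12865 .nil)) .nil)))) (.node (.node (.node (.I .ass (.c 2306970223667989513 (.c 12865 (.c 24 .nil))) .nil) (.I .ass (.c 12865 (.c 537002185 (.c 18561 .nil))) .nil)) (.node (.I .ass (.c 537002185 (.c 12865 (.c 18561 .nil))) .nil) (.I .com (.c 12865 (.c 537002185 .nil)) (.r 18561 .nil)))) (.node (.node (.I .jac (.c 15456298926182473 (.c 8 (.c 16 .nil))) (.l 24 .nil)) (.I .jac (.c 3632084291164233 (.c 8 (.c 48 .nil))) (.l 24 .nil))) (.node (.I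 .jac (.c 0 (.c 15456298926182537 (.c 16 .nil))) (.l 24 .nil)) (.I .jac (.c 0 (.c 43655235 (.c 16 .nil))) (.b 40 (.l 24 .nil)))))))) (.node (.node (.node (.node (.node (.I .jac (.c 0 (.c 598976858557897 (.c 40 .nil))) (.l 24 .nil)) (.I .jac (.c 0 (.c 8652867 (.c 48 .nil))) (.b 40 (.l 24 .nil)))) (.node (.I .jac (.c 0 (.c 18497 (.c 21307523 .nil))) (.l 24 .nil)) (.I .jac (.c 0 (.c 8 (.c 48 .nil))) (.b 21307523 (.l 24 .nil))))) (.node (.node (.I .tdb (.c 16 (.c 48 (.c 0 (.c 8 .nil)))) (.b 40 (.b 32 (.l 24 .nil)))) (.I .com (.c 105536290393545537884806472158537 (.c 24 .nil)) .nil)) (.node (.I .com (.c 1911177411968129497983020218305865 (.c 24 .nil)) .nil) (.I .com (.c 29219431338612430885229781418972302774892659174088204307516624129929 (.c 24 .nil)) .nil)))) (.node (.node (.node (.I .com (.c 76104792608257399621125824957651071551395348271305941236278611849 (.c 24 .nil)) .nil) (.I .com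 (.c 23450673742497901511923054532233829538680817570892318822750598160265 (.c 24 .nil)) .nil)) (.node (.I .com (.c 13748198893205920929 (.c 24 .nil)) .nil) (.I .com (.c 27664355203956229079760193910629585386738772235669243985465340720073 (.c 24 .nil)) .nil))) (.node (.node (.I .com (.c 65903751348250431743063771908006148737120978708178781472457673 (.c 24 .nil)) .nil) (.I .com (.c 105536290385214408220931770764937 (.c 24 .nil)) .nil)) (.node (.I .com (.c 13748193523936873633 (.c 24 .nil)) .nil) (.I .com (.c 15456298943026321 (.c 24 .nil)) .nil))))) (.node (.node (.node (.node (.I .tdb (.c 8 (.c 40 (.c 0 (.c 24 .nil)))) (.b 32 (.b 18561 .nil))) (.I .com (.c 1911132888452959950435573782212489 (.c 4673 .nil)) .nil)) (.node (.I .ass (.c 2306970223667989513 (.c 4673 (.c 40 .nil))) .nil) (.I .com (.c 21099011 (.c 18561 .nil)) (.b 8257 .nil)))) (.node (.node (.I .jac (.c 15456118887243977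 (.c 8 (.c 32 .nil))) (.r 24 .nil)) (.I .adp (.c 3491688652046793 (.c 24 (.c 8257 .nil))) .nil)) (.node (.I .jac (.c 3491688652046793 (.c 8 (.c 32 .nil))) (.r 24 .nil)) (.I .jac (.c 15038410136445129 (.c 8 (.c 32 .nil))) (.r 40 .nil))))) (.node (.node (.node (.I .adp (.c 2718204041 (.c 12994 (.c 8257 .nil))) .nil) (.I .tdb (.c 8 (.c 32 (.c 24 (.c 40 .nil)))) (.l 2718204041 .nil))) (.node (.I .adp (.c 24 (.c 40 (.c 8257 .nil))) (.l 2718204041 .nil)) (.I .com (.c 545424713 (.c 24 .nil)) (.l 2718204041 .nil)))) (.node (.node (.I .tdb (.c 16 (.c 18433 (.c 8 (.c 24 .nil)))) (.b 32 (.l 40 .nil))) (.I .tdb (.c 0 (.c 48 (.c 8 (.c 24 .nil)))) (.b 16 (.b 32 (.l 40 .nil))))) (.node (.I .tdb (.c 16 (.c 18433 (.c 8 (.c 40 .nil)))) (.b 32 (.r 24 .nil))) (.I .tdb (.c 0 (.c 48 (.c 8 (.c 40 .nil)))) (.b 16 (.b 32 (.r 24 .nil))))))))))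

noncomputable def c2_151 : Tr := (.node (.node (.node (.node (.node (.node (.I .tdb (.c 16 (.c 18433 (.c 32 (.c 40 .nil)))) (.b 8 (.r 24 .nil))) (.I .tdb (.c 0 (.c 48 (.c 32 (.c 40 .nil)))) (.b 16 (.b 8 (.r 24 .nil))))) (.node (.I .tdb (.c 8 (.c 32 (.c 24 (.c 40 .nil)))) (.b 2718204041 .nil)) (.I .com (.c 545424713 (.c 24 .nil)) (.l 33587593 .nil)))) (.node (.node (.I .tdp (.c 24 (.c 40 (.c 33587593 (.c 8257 .nil)))) .nil) (.I .tdb (.c 2049 (.c 48 (.c 8 (.c 24 .nil)))) (.b 32 (.l 40 .nil)))) (.node (.I .tdb (.c 0 (.c 16 (.c 8 (.c 24 .nil)))) (.b 48 (.b 32 (.l 40 .nil)))) (.I .tdb (.c 8 (.c 32 (.c 33587593 (.c 24 .nil)))) (.l 40 .nil))))) (.node (.node (.node (.I .tdb (.c 2049 (.c 48 (.c 8 (.c 40 .nil)))) (.b 32 (.r 24 .nil))) (.I .tdb (.c 0 (.c 16 (.c 40 (.c 8 .nil)))) (.b 48 (.b 32 (.r 24 .nil))))) (.node (.I .tdb (.c 8 (.c 32 (.c 33587593 (.c 40 .nil)))) (.r 24 .nil)) (.I .tdb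 (.c 8 (.c 32 (.c 24 (.c 40 .nil)))) (.b 33587593 .nil)))) (.node (.node (.I .jac (.c 21099011 (.c 8 (.c 32 .nil))) (.r 18561 .nil)) (.I .tdb (.c 0 (.c 40 (.c 18561 (.c 8 .nil)))) (.b 32 (.l 24 .nil)))) (.node (.I .tdb (.c 16 (.c 48 (.c 8 (.c 40 .nil)))) (.b 0 (.b 32 (.l 24 .nil)))) (.I .jac (.c 0 (.c 16 (.c 43954947 .nil))) (.b 8 (.l 24 .nil))))))) (.node (.node (.node (.node (.I .tdb (.c 16 (.c 48 (.c 32 (.c 40 .nil)))) (.b 0 (.b 8 (.l 24 .nil)))) (.I .tdb (.c 8 (.c 32 (.c 12801 (.c 18561 .nil)))) (.l 24 .nil))) (.node (.I .com (.c 65899851849306263681208984341494072687331164155799806557052617 (.c 24 .nil)) .nil) (.I .com (.c 29219771698758366859580286719259392412272240005227598035985317884809 (.c 24 .nil)) .nil))) (.node (.node (.I .com (.c 97536312322321279970645807042057 (.c 24 .nil)) .nil) (.I .tdb (.c 0 (.c 40 (.c 8 (.c 24 .nil)))) (.b 32 (.b 18561 .nil)))) (.node (.I .tdb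 (.c 8 (.c 32 (.c 12801 (.c 24 .nil)))) (.b 18561 .nil)) (.I .tdb (.c 16 (.c 48 (.c 32 (.c 40 .nil)))) (.b 8 (.l 4609 .nil)))))) (.node (.node (.node (.I .tdb (.c 8 (.c 32 (.c 18561 (.c 40 .nil)))) (.l 4609 .nil)) (.I .jac (.c 537002185 (.c 16 (.c 40 .nil))) (.l 18497 .nil))) (.node (.I .jac (.c 8193 (.c 12929 (.c 24 .nil))) (.l 18497 .nil)) (.I .jac (.c 8193 (.c 16 (.c 40 .nil))) (.b 24 (.l 18497 .nil))))) (.node (.node (.I .com (.c 42576953795010653769602236682924913481 (.c 18497 .nil)) .nil) (.I .com (.c 42576892903125866125508513263802589001 (.c 18497 .nil)) .nil)) (.node (.I .com (.c 42576913200413533512397237570979656649 (.c 18497 .nil)) .nil) (.I .jac (.c 8193 (.c 8 (.c 48 .nil))) (.r 1337272521 .nil))))))) (.node (.node (.node (.node (.node (.I .adp (.c 244148848929896201 (.c 48 (.c 8193 .nil))) .nil) (.I .com (.c 537002377 (.c 244148848929896201 .nil)) .nil)) (.node (.I .jac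 (.c 537002121 (.c 4673 (.c 40 .nil))) (.r 48 .nil)) (.I .jac (.c 537002121 (.c 8 (.c 24 .nil))) (.b 40 (.r 48 .nil))))) (.node (.node (.I .jac (.c 8193 (.c 174695753 (.c 16 .nil))) (.r 48 .nil)) (.I .jac (.c 8193 (.c 4673 (.c 40 .nil))) (.b 16 (.r 48 .nil)))) (.node (.I .jac (.c 8193 (.c 8 (.c 24 .nil))) (.b 40 (.b 16 (.r 48 .nil)))) (.I .jac (.c 537002185 (.c 8 (.c 40 .nil))) (.b 16 (.r 48 .nil)))))) (.node (.node (.node (.I .jac (.c 8193 (.c 1324065929 (.c 24 .nil))) (.r 48 .nil)) (.I .jac (.c 8193 (.c 12865 (.c 16 .nil))) (.b 24 (.r 48 .nil)))) (.node (.I .jac (.c 8193 (.c 8 (.c 40 .nil))) (.b 16 (.b 24 (.r 48 .nil)))) (.I .jac (.c 537002185 (.c 2113 (.c 40 .nil))) (.r 48 .nil)))) (.node (.node (.I .jac (.c 537002185 (.c 8 (.c 16 .nil))) (.b 40 (.r 48 .nil))) (.I .jac (.c 8193 (.c 35718473 (.c 24 .nil))) (.r 48 .nil))) (.node (.I .jac (.c 8193 (.c 2113 (.c 40 .nil))) (.b 24 (.r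 48 .nil))) (.I .jac (.c 8193 (.c 8 (.c 16 .nil))) (.b 40 (.b 24 (.r 48 .nil)))))))) (.node (.node (.node (.node (.I .tdb (.c 24 (.c 12929 (.c 0 (.c 48 .nil)))) (.b 8257 .nil)) (.I .adp (.c 18433 (.c 1337272521 (.c 8257 .nil))) .nil)) (.node (.I .jac (.c 545424585 (.c 16 (.c 40 .nil))) (.l 18433 .nil)) (.I .jac (.c 8257 (.c 12929 (.c 24 .nil))) (.l 18433 .nil)))) (.node (.node (.I .jac (.c 18433 (.c 8 (.c 32 .nil))) (.r 1337272521 .nil)) (.I .jac (.c 13748193523587631945 (.c 8 (.c 32 .nil))) (.r 48 .nil))) (.node (.I .adp (.c 231045467270826953 (.c 48 (.c 8257 .nil))) .nil) (.I .jac (.c 537002313 (.c 16 (.c 24 .nil))) (.l 18497 .nil))))) (.node (.node (.node (.I .jac (.c 8193 (.c 4737 (.c 40 .nil))) (.l 18497 .nil)) (.I .jac (.c 8193 (.c 16 (.c 24 .nil))) (.b 40 (.l 18497 .nil)))) (.node (.I .com (.c 42576953795010656131941434981856024329 (.c 18497 .nil)) .nil) (.I .jac (.c 537002121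 (.c 12865 (.c 24 .nil))) (.r 48 .nil)))) (.node (.node (.I .jac (.c 8193 (.c 1324065993 (.c 16 .nil))) (.r 48 .nil)) (.I .jac (.c 8193 (.c 12865 (.c 24 .nil))) (.b 16 (.r 48 .nil)))) (.node (.I .jac (.c 8193 (.c 8 (.c 40 .nil))) (.b 24 (.b 16 (.r 48 .nil)))) (.I .tdb (.c 4737 (.c 40 (.c 0 (.c 48 .nil)))) (.b 8257 .nil))))))))

noncomputable def c2_152 : Tr := (.node (.node (.node (.node (.node (.node (.I .tdb (.c 16 (.c 24 (.c 48 (.c 0 .nil)))) (.b 40 (.b 8257 .nil))) (.I .adp (.c 18433 (.c 179513673 (.c 8257 .nil))) .nil)) (.node (.I .jac (.c 8257 (.c 16 (.c 24 .nil))) (.b 40 (.l 18433 .nil))) (.I .adp (.c 18433 (.c 21099139 (.c 8257 .nil))) .nil))) (.node (.node (.I .jac (.c 18433 (.c 8 (.c 32 .nil))) (.r 21099139 .nil)) (.I .adp (.c 2737112265 (.c 12929 (.c 8193 .nil))) .nil)) (.node (.I .com (.c 2306971873338799881 (.c 2737112265 .nil)) .nil) (.I .com (.c 2306970223667989449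 (.c 2737112265 .nil)) .nil)))) (.node (.node (.node (.I .jac (.c 537002185 (.c 8 (.c 48 .nil))) (.r 12929 .nil)) (.I .jac (.c 8193 (.c 16 (.c 40 .nil))) (.l 174695817 .nil))) (.node (.I .com (.c 2306971873338799881 (.c 174695817 .nil)) .nil) (.I .jac (.c 8193 (.c 8 (.c 24 .nil))) (.b 48 (.r 12929 .nil))))) (.node (.node (.I .jac (.c 8193 (.c 24 (.c 48 .nil))) (.l 1324065929 .nil)) (.I .com (.c 2306970773558194185 (.c 1324065929 .nil)) .nil)) (.node (.I .jac (.c 8193 (.c 12865 (.c 16 .nil))) (.r 18625 .nil)) (.I .com (.c 2306970773558194185 (.c 35718473 .nil)) .nil))))) (.node (.node (.node (.node (.I .jac (.c 8257 (.c 16 (.c 40 .nil))) (.l 2718204105 .nil)) (.I .adp (.c 169943433 (.c 12929 (.c 8257 .nil))) .nil)) (.node (.I .jac (.c 8257 (.c 24 (.c 48 .nil))) (.l 1310924937 .nil)) (.I .jac (.c 1310924937 (.c 8 (.c 32 .nil))) (.r 18625 .nil)))) (.node (.node (.I .jac (.c 8193 (.c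 16 (.c 40 .nil))) (.l 43356739 .nil)) (.I .com (.c 2306971873338799881 (.c 43356739 .nil)) .nil)) (.node (.I .com (.c 2306970223667989449 (.c 43356739 .nil)) .nil) (.I .adp (.c 12929 (.c 24 (.c 8193 .nil))) (.l 18497 .nil))))) (.node (.node (.node (.I .com (.c 537002185 (.c 12929 .nil)) (.l 18497 .nil)) (.I .ass (.c 18497 (.c 2306971873338799881 (.c 24 .nil))) .nil)) (.node (.I .com (.c 18497 (.c 2306971873338799881 .nil)) (.r 24 .nil)) (.I .ass (.c 2306970223667989449 (.c 18497 (.c 24 .nil))) .nil))) (.node (.node (.I .ass (.c 18497 (.c 537002185 (.c 12929 .nil))) .nil) (.I .com (.c 18497 (.c 537002185 .nil)) (.r 12929 .nil))) (.node (.I .jac (.c 0 (.c 3632062472293833 (.c 16 .nil))) (.l 24 .nil)) (.I .jac (.c 0 (.c 21307459 (.c 48 .nil))) (.b 16 (.l 24 .nil)))))))) (.node (.node (.node (.node (.node (.I .jac (.c 0 (.c 15246281046235273 (.c 40 .nil))) (.l 24 .nil)) (.I .tdb (.c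 8 (.c 48 (.c 0 (.c 16 .nil)))) (.b 40 (.b 32 (.l 24 .nil))))) (.node (.I .tdb (.c 8 (.c 48 (.c 32 (.c 40 .nil)))) (.b 16 (.b 0 (.l 24 .nil)))) (.I .tdb (.c 8 (.c 48 (.c 16 (.c 32 .nil)))) (.b 40 (.b 0 (.l 24 .nil)))))) (.node (.node (.I .com (.c 105535022429708783245026210188681 (.c 24 .nil)) .nil) (.I .com (.c 89101127659442842514720521865720702001172160357187551534269498121 (.c 24 .nil)) .nil)) (.node (.I .com (.c 70295418264037085081049688170459684923043320310174312505272136585 (.c 24 .nil)) .nil) (.I .com (.c 1859592685927328965023840533696073 (.c 24 .nil)) .nil)))) (.node (.node (.node (.I .com (.c 13748192181549771425 (.c 24 .nil)) .nil) (.I .tdb (.c 0 (.c 32 (.c 18497 (.c 24 .nil)))) (.b 12929 .nil))) (.node (.I .tdb (.c 0 (.c 32 (.c 12929 (.c 24 .nil)))) (.b 18497 .nil)) (.I .jac (.c 2803715 (.c 8 (.c 40 .nil))) (.b 32 (.l 48 .nil))))) (.node (.node (.I .com (.c 82361964593842655846796627384613611815318873176325669612279706505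 (.c 48 .nil)) .nil) (.I .com (.c 8007571589450002292282724358097901983094233727833569173385 (.c 48 .nil)) .nil)) (.node (.I .tdb (.c 8 (.c 40 (.c 0 (.c 48 .nil)))) (.b 16 (.b 32 (.r 24 .nil)))) (.I .tdb (.c 0 (.c 32 (.c 24 (.c 48 .nil)))) (.b 1324065929 .nil)))))) (.node (.node (.node (.node (.I .com (.c 82361964593848576266272055258712155191595181625982088480432508809 (.c 48 .nil)) .nil) (.I .com (.c 6441087201663406564458032397628089988432248534325873041289 (.c 48 .nil)) .nil)) (.node (.I .tdb (.c 0 (.c 32 (.c 24 (.c 48 .nil)))) (.b 35718473 .nil)) (.I .adp (.c 43356675 (.c 12929 (.c 8257 .nil))) .nil))) (.node (.node (.I .jac (.c 43356675 (.c 8 (.c 32 .nil))) (.r 12929 .nil)) (.I .tdb (.c 16 (.c 40 (.c 8 (.c 24 .nil)))) (.b 32 (.l 18433 .nil)))) (.node (.I .adp (.c 12929 (.c 24 (.c 8257 .nil))) (.l 18433 .nil)) (.I .com (.c 545424585 (.c 12929 .nil)) (.l 18433 .nil))))) (.node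 (.node (.node (.I .tdb (.c 0 (.c 48 (.c 8 (.c 16 .nil)))) (.b 40 (.b 32 (.l 24 .nil)))) (.I .tdb (.c 0 (.c 48 (.c 16 (.c 32 .nil)))) (.b 40 (.b 8 (.l 24 .nil))))) (.node (.I .tdb (.c 0 (.c 48 (.c 32 (.c 40 .nil)))) (.b 16 (.b 8 (.l 24 .nil)))) (.I .tdb (.c 16 (.c 40 (.c 8 (.c 24 .nil)))) (.b 32 (.b 18433 .nil))))) (.node (.node (.I .adp (.c 3561346121425097 (.c 48 (.c 8257 .nil))) .nil) (.I .jac (.c 3561346121425097 (.c 8 (.c 32 .nil))) (.r 48 .nil))) (.node (.I .com (.c 545424777 (.c 24 .nil)) (.l 1310924937 .nil)) (.I .tdp (.c 24 (.c 48 (.c 8257 (.c 33587529 .nil)))) .nil)))))))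

noncomputable def c2_153 : Tr := (.node (.node (.node (.node (.node (.node (.I .tdb (.c 2049 (.c 40 (.c 8 (.c 48 .nil)))) (.b 32 (.r 24 .nil))) (.I .tdb (.c 0 (.c 16 (.c 48 (.c 8 .nil)))) (.b 40 (.b 32 (.r 24 .nil))))) (.node (.I .tdb (.c 2049 (.c 40 (.c 32 (.c 48 .nil)))) (.b 8 (.r 24 .nil))) (.I .tdb (.c 0 (.c 16 (.c 32 (.c 48 .nil)))) (.b 40 (.b 8 (.r 24 .nil)))))) (.node (.node (.I .tdb (.c 8 (.c 32 (.c 33587529 (.c 48 .nil)))) (.r 24 .nil)) (.I .tdb (.c 8 (.c 32 (.c 33587529 (.c 24 .nil)))) (.b 48 .nil))) (.node (.I .jac (.c 8193 (.c 16 (.c 24 .nil))) (.l 2737112393 .nil)) (.I .com (.c 2306970773558193929 (.c 2737112393 .nil)) .nil)))) (.node (.node (.node (.I .adp (.c 1324066185 (.c 4737 (.c 8193 .nil))) .nil) (.I .jac (.c 8193 (.c 16 (.c 24 .nil))) (.l 1324066185 .nil))) (.node (.I .com (.c 2306970773558193929 (.c 1324066185 .nil)) .nil) (.I .adp (.c 174695561 (.c 18753 (.c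 8193 .nil))) .nil))) (.node (.node (.I .jac (.c 8193 (.c 40 (.c 48 .nil))) (.l 35718345 .nil)) (.I .com (.c 2306971873338800137 (.c 35718345 .nil)) .nil)) (.node (.I .jac (.c 8257 (.c 40 (.c 48 .nil))) (.l 169943177 .nil)) (.I .jac (.c 8257 (.c 40 (.c 48 .nil))) (.l 33587401 .nil)))))) (.node (.node (.node (.node (.I .jac (.c 8193 (.c 16 (.c 24 .nil))) (.l 43954755 .nil)) (.I .com (.c 2306970773558193929 (.c 43954755 .nil)) .nil)) (.node (.I .com (.c 2306970223667989321 (.c 43954755 .nil)) .nil) (.I .tdb (.c 0 (.c 32 (.c 16 (.c 40 .nil)))) (.b 24 (.l 18497 .nil))))) (.node (.node (.I .adp (.c 4737 (.c 40 (.c 8193 .nil))) (.l 18497 .nil)) (.I .com (.c 537002313 (.c 4737 .nil)) (.l 18497 .nil))) (.node (.I .ass (.c 2306970773558193929 (.c 18497 (.c 40 .nil))) .nil) (.I .ass (.c 2306970223667989321 (.c 18497 (.c 40 .nil))) .nil)))) (.node (.node (.node (.I .tdb (.c 8 (.c 48 (.c 32 (.c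 40 .nil)))) (.b 0 (.r 4737 .nil))) (.I .tdb (.c 0 (.c 32 (.c 24 (.c 48 .nil)))) (.b 16 (.l 12865 .nil)))) (.node (.I .adp (.c 4737 (.c 48 (.c 8193 .nil))) (.l 12865 .nil)) (.I .com (.c 537002377 (.c 4737 .nil)) (.l 12865 .nil)))) (.node (.node (.I .ass (.c 12865 (.c 2306970773558193929 (.c 48 .nil))) .nil) (.I .ass (.c 2306970773558193929 (.c 12865 (.c 48 .nil))) .nil)) (.node (.I .com (.c 12865 (.c 2306970773558193929 .nil)) (.r 48 .nil)) (.I .ass (.c 12865 (.c 2306970223667989321 (.c 48 .nil))) .nil)))))) (.node (.node (.node (.node (.node (.I .ass (.c 2306970223667989321 (.c 12865 (.c 48 .nil))) .nil) (.I .com (.c 12865 (.c 2306970223667989321 .nil)) (.r 48 .nil))) (.node (.I .adp (.c 43954691 (.c 4737 (.c 8257 .nil))) .nil) (.I .adp (.c 14832759703961865 (.c 40 (.c 8257 .nil))) .nil))) (.node (.node (.I .jac (.c 14832759703961865 (.c 8 (.c 32 .nil))) (.r 40 .nil)) (.I .adp (.c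 18433 (.c 179551570 (.c 8257 .nil))) .nil)) (.node (.I .adp (.c 4737 (.c 40 (.c 8257 .nil))) (.l 18433 .nil)) (.I .com (.c 545424713 (.c 4737 .nil)) (.l 18433 .nil))))) (.node (.node (.node (.I .jac (.c 18433 (.c 8 (.c 32 .nil))) (.r 179551570 .nil)) (.I .tdp (.c 4737 (.c 40 (.c 18433 (.c 8257 .nil)))) .nil)) (.node (.I .tdb (.c 8 (.c 32 (.c 18433 (.c 40 .nil)))) (.r 4737 .nil)) (.I .tdb (.c 0 (.c 40 (.c 32 (.c 48 .nil)))) (.b 8 (.r 4737 .nil))))) (.node (.node (.I .com (.c 545424777 (.c 40 .nil)) (.l 169943177 .nil)) (.I .com (.c 545424777 (.c 40 .nil)) (.l 33587401 .nil))) (.node (.I .com (.c 244149027818380233 (.c 16 .nil)) (.b 8193 .nil)) (.I .jac (.c 2306970773558194185 (.c 8 (.c 40 .nil))) (.r 16 .nil)))))) (.node (.node (.node (.node (.I .jac (.c 537002185 (.c 8 (.c 40 .nil))) (.b 48 (.r 16 .nil))) (.I .jac (.c 8193 (.c 1324066185 (.c 24 .nil))) (.r 16 .nil))) (.node (.I .jac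 (.c 8193 (.c 12865 (.c 48 .nil))) (.b 24 (.r 16 .nil))) (.I .jac (.c 8193 (.c 8 (.c 40 .nil))) (.b 48 (.b 24 (.r 16 .nil)))))) (.node (.node (.I .jac (.c 2306971873338799945 (.c 8 (.c 48 .nil))) (.r 16 .nil)) (.I .jac (.c 537002313 (.c 18497 (.c 24 .nil))) (.r 16 .nil))) (.node (.I .jac (.c 537002313 (.c 8 (.c 48 .nil))) (.b 24 (.r 16 .nil))) (.I .adp (.c 244149027818380233 (.c 16 (.c 8193 .nil))) .nil)))) (.node (.node (.node (.I .com (.c 537002121 (.c 244149027818380233 .nil)) .nil) (.I .jac (.c 537002377 (.c 8 (.c 24 .nil))) (.b 40 (.r 16 .nil)))) (.node (.I .jac (.c 537002313 (.c 4673 (.c 48 .nil))) (.r 16 .nil)) (.I .jac (.c 537002313 (.c 8 (.c 24 .nil))) (.b 48 (.r 16 .nil))))) (.node (.node (.I .jac (.c 8193 (.c 174695817 (.c 40 .nil))) (.r 16 .nil)) (.I .jac (.c 8193 (.c 4673 (.c 48 .nil))) (.b 40 (.r 16 .nil)))) (.node (.I .jac (.c 8193 (.c 8 (.c 24 .nil))) (.b 48 (.b 40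 (.r 16 .nil)))) (.I .jac (.c 2306972423229201225 (.c 8 (.c 40 .nil))) (.r 16 .nil))))))))

noncomputable def c2_154 : Tr := (.node (.node (.node (.node (.node (.node (.I .jac (.c 537002377 (.c 12865 (.c 24 .nil))) (.r 16 .nil)) (.I .jac (.c 8193 (.c 1324065993 (.c 48 .nil))) (.r 16 .nil))) (.node (.I .jac (.c 8193 (.c 12865 (.c 24 .nil))) (.b 48 (.r 16 .nil))) (.I .jac (.c 8193 (.c 8 (.c 40 .nil))) (.b 24 (.b 48 (.r 16 .nil)))))) (.node (.node (.I .jac (.c 537002313 (.c 24 (.c 48 .nil))) (.l 2113 .nil)) (.I .jac (.c 8193 (.c 18625 (.c 40 .nil))) (.l 2113 .nil))) (.node (.I .jac (.c 8193 (.c 24 (.c 48 .nil))) (.b 40 (.l 2113 .nil))) (.I .com (.c 42576913200413542961749526065342514121 (.c 2113 .nil)) .nil)))) (.node (.node (.node (.I .com (.c 42576953795010656131941434981856024585 (.c 2113 .nil)) .nil) (.I .com (.c 231046163358604233 (.c 16 .nil)) (.b 8257 .nil))) (.node (.I .com (.c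 13748198893136698185 (.c 16 .nil)) (.b 8257 .nil)) (.I .adp (.c 13748198893136698185 (.c 16 (.c 8257 .nil))) .nil))) (.node (.node (.I .jac (.c 13748198893136698185 (.c 8 (.c 32 .nil))) (.r 16 .nil)) (.I .jac (.c 59109068451510808521 (.c 8 (.c 32 .nil))) (.r 16 .nil))) (.node (.I .adp (.c 231046163358604233 (.c 16 (.c 8257 .nil))) .nil) (.I .jac (.c 18433 (.c 24 (.c 40 .nil))) (.l 16 (.b 8257 .nil))))))) (.node (.node (.node (.node (.I .com (.c 59109074018392946505 (.c 16 .nil)) (.b 8257 .nil)) (.I .adp (.c 59109074018392946505 (.c 16 (.c 8257 .nil))) .nil)) (.node (.I .adp (.c 15456253916349577 (.c 16 (.c 8193 .nil))) .nil) (.I .com (.c 15456253916349513 (.c 16 .nil)) (.b 8257 .nil)))) (.node (.node (.I .adp (.c 15456253916349513 (.c 16 (.c 8257 .nil))) .nil) (.I .adp (.c 2049 (.c 43954883 (.c 8257 .nil))) .nil)) (.node (.I .com (.c 537002121 (.c 15456163896880393 .nil)) .nil) (.I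 .jac (.c 537002185 (.c 8 (.c 48 .nil))) (.r 12930 .nil))))) (.node (.node (.node (.I .jac (.c 8193 (.c 18497 (.c 24 .nil))) (.r 12930 .nil)) (.I .jac (.c 8193 (.c 8 (.c 48 .nil))) (.b 24 (.r 12930 .nil)))) (.node (.I .tdp (.c 16 (.c 40 (.c 2737112265 (.c 8193 .nil)))) .nil) (.I .tdb (.c 24 (.c 18497 (.c 32 (.c 40 .nil)))) (.b 0 (.r 16 .nil))))) (.node (.node (.I .tdb (.c 8 (.c 48 (.c 32 (.c 40 .nil)))) (.b 24 (.b 0 (.r 16 .nil)))) (.I .tdb (.c 0 (.c 32 (.c 2737112265 (.c 40 .nil)))) (.r 16 .nil))) (.node (.I .tdb (.c 0 (.c 32 (.c 16 (.c 40 .nil)))) (.b 2737112265 .nil)) (.I .com (.c 24783224170186708860719149059560031860601918802557700209685079986057 (.c 40 .nil)) .nil)))))) (.node (.node (.node (.node (.node (.I .jac (.c 0 (.c 4673 (.c 43954947 .nil))) (.r 16 .nil)) (.I .jac (.c 0 (.c 8 (.c 24 .nil))) (.b 43954947 (.r 16 .nil)))) (.node (.I .tdb (.c 24 (.c 48 (.c 0 (.c 16 .nil))))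 (.b 32 (.l 12865 .nil))) (.I .jac (.c 8193 (.c 24 (.c 48 .nil))) (.l 16 (.l 12865 .nil))))) (.node (.node (.I .com (.c 2306970773558194185 (.c 16 .nil)) (.l 12865 .nil)) (.I .ass (.c 12865 (.c 2306972423229201225 (.c 16 .nil))) .nil)) (.node (.I .com (.c 12865 (.c 2306972423229201225 .nil)) (.r 16 .nil)) (.I .ass (.c 12865 (.c 2306970773558194185 (.c 16 .nil))) .nil)))) (.node (.node (.node (.I .ass (.c 2306970773558194185 (.c 12865 (.c 16 .nil))) .nil) (.I .com (.c 12865 (.c 2306970773558194185 .nil)) (.r 16 .nil))) (.node (.I .ass (.c 12865 (.c 537002121 (.c 18625 .nil))) .nil) (.I .ass (.c 537002121 (.c 12865 (.c 18625 .nil))) .nil))) (.node (.node (.I .com (.c 12865 (.c 537002121 .nil)) (.r 18625 .nil)) (.I .tdb (.c 0 (.c 32 (.c 12865 (.c 16 .nil)))) (.l 18625 .nil))) (.node (.I .tdb (.c 8 (.c 40 (.c 0 (.c 16 .nil)))) (.b 32 (.l 18625 .nil))) (.I .tdb (.c 8 (.c 40 (.c 16 (.c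 32 .nil)))) (.b 0 (.l 18625 .nil))))))) (.node (.node (.node (.node (.I .com (.c 97535117142640924779607613918089 (.c 18625 .nil)) .nil) (.I .com (.c 2870186216699415475033029961673 (.c 18625 .nil)) .nil)) (.node (.I .tdb (.c 24 (.c 48 (.c 0 (.c 40 .nil)))) (.b 8 (.b 32 (.r 16 .nil)))) (.I .tdb (.c 0 (.c 32 (.c 12865 (.c 18625 .nil)))) (.r 16 .nil)))) (.node (.node (.I .tdb (.c 8 (.c 40 (.c 18625 (.c 0 .nil)))) (.b 32 (.r 16 .nil))) (.I .jac (.c 8 (.c 24 (.c 43954947 .nil))) (.b 0 (.r 16 .nil)))) (.node (.I .tdb (.c 8 (.c 40 (.c 18625 (.c 32 .nil)))) (.b 0 (.r 16 .nil))) (.I .tdb (.c 24 (.c 48 (.c 32 (.c 40 .nil)))) (.b 8 (.b 0 (.r 16 .nil))))))) (.node (.node (.node (.I .tdb (.c 0 (.c 32 (.c 12865 (.c 16 .nil)))) (.b 18625 .nil)) (.I .tdb (.c 0 (.c 32 (.c 18625 (.c 16 .nil)))) (.b 12865 .nil))) (.node (.I .com (.c 1911132888452975777501314320077705 (.c 2113 .nil)) .nil) (.I .com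 (.c 3561346121425353 (.c 16 .nil)) (.b 8257 .nil)))) (.node (.node (.I .ass (.c 16 (.c 2718204105 (.c 40 .nil))) (.b 8257 .nil)) (.I .ass (.c 2718204105 (.c 16 (.c 40 .nil))) (.b 8257 .nil))) (.node (.I .com (.c 16 (.c 2718204105 .nil)) (.r 40 (.b 8257 .nil))) (.I .adp (.c 15456118887244041 (.c 16 (.c 8257 .nil))) .nil)))))))

noncomputable def c2_155 : Tr := (.node (.node (.node (.node (.node (.node (.I .jac (.c 3561346121425353 (.c 8 (.c 32 .nil))) (.r 16 .nil)) (.I .tdb (.c 24 (.c 18433 (.c 8 (.c 16 .nil)))) (.b 32 (.l 40 .nil)))) (.node (.I .tdb (.c 0 (.c 48 (.c 8 (.c 16 .nil)))) (.b 24 (.b 32 (.l 40 .nil)))) (.I .tdb (.c 8 (.c 32 (.c 2718204105 (.c 16 .nil)))) (.l 40 .nil)))) (.node (.node (.I .tdb (.c 0 (.c 48 (.c 8 (.c 40 .nil)))) (.b 24 (.b 32 (.r 16 .nil)))) (.I .tdb (.c 24 (.c 18433 (.c 32 (.c 40 .nil)))) (.b 8 (.r 16 .nil)))) (.node (.I .tdb (.c 8 (.c 32 (.c 2718204105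 (.c 40 .nil)))) (.r 16 .nil)) (.I .tdb (.c 8 (.c 32 (.c 16 (.c 40 .nil)))) (.b 2718204105 .nil))))) (.node (.node (.node (.I .tdp (.c 16 (.c 40 (.c 169943433 (.c 8257 .nil)))) .nil) (.I .tdb (.c 4609 (.c 48 (.c 8 (.c 16 .nil)))) (.b 32 (.l 40 .nil)))) (.node (.I .tdb (.c 0 (.c 24 (.c 8 (.c 16 .nil)))) (.b 48 (.b 32 (.l 40 .nil)))) (.I .tdb (.c 8 (.c 32 (.c 169943433 (.c 16 .nil)))) (.l 40 .nil)))) (.node (.node (.I .tdb (.c 4609 (.c 48 (.c 8 (.c 40 .nil)))) (.b 32 (.r 16 .nil))) (.I .tdb (.c 0 (.c 24 (.c 40 (.c 8 .nil)))) (.b 48 (.b 32 (.r 16 .nil))))) (.node (.I .tdb (.c 8 (.c 32 (.c 169943433 (.c 40 .nil)))) (.r 16 .nil)) (.I .tdb (.c 8 (.c 32 (.c 16 (.c 40 .nil)))) (.b 169943433 .nil)))))) (.node (.node (.node (.node (.I .adp (.c 20891651 (.c 18625 (.c 8257 .nil))) .nil) (.I .tdb (.c 8 (.c 32 (.c 18625 (.c 16 .nil)))) (.l 12801 .nil))) (.node (.I .jac (.c 8257 (.c 24 (.c 48 .nil)))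 (.l 16 (.l 12801 .nil))) (.I .tdb (.c 0 (.c 40 (.c 16 (.c 32 .nil)))) (.b 8 (.l 18625 .nil))))) (.node (.node (.I .tdb (.c 8 (.c 32 (.c 12801 (.c 16 .nil)))) (.l 18625 .nil)) (.I .jac (.c 0 (.c 24 (.c 43954947 .nil))) (.b 8 (.r 16 .nil)))) (.node (.I .tdb (.c 8 (.c 32 (.c 12801 (.c 18625 .nil)))) (.r 16 .nil)) (.I .tdb (.c 8 (.c 32 (.c 12801 (.c 16 .nil)))) (.b 18625 .nil))))) (.node (.node (.node (.I .tdb (.c 24 (.c 48 (.c 32 (.c 40 .nil)))) (.b 8 (.l 2049 .nil))) (.I .jac (.c 8193 (.c 24 (.c 40 .nil))) (.l 43059267 .nil))) (.node (.I .com (.c 2306971873338799945 (.c 43059267 .nil)) .nil) (.I .com (.c 2306970773558194121 (.c 43059267 .nil)) .nil))) (.node (.node (.I .jac (.c 8193 (.c 24 (.c 40 .nil))) (.l 16 (.l 18497 .nil))) (.I .com (.c 2306970773558194121 (.c 16 .nil)) (.l 18497 .nil))) (.node (.I .ass (.c 2306971873338799945 (.c 18497 (.c 16 .nil))) .nil) (.I .ass (.c 18497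 (.c 2306970773558194121 (.c 16 .nil))) .nil)))))) (.node (.node (.node (.node (.node (.I .com (.c 18497 (.c 2306970773558194121 .nil)) (.r 16 .nil)) (.I .ass (.c 18497 (.c 537002121 (.c 12993 .nil))) .nil)) (.node (.I .com (.c 18497 (.c 537002121 .nil)) (.r 12993 .nil)) (.I .tdb (.c 0 (.c 32 (.c 18497 (.c 16 .nil)))) (.l 12993 .nil)))) (.node (.node (.I .tdb (.c 8 (.c 48 (.c 16 (.c 32 .nil)))) (.b 0 (.l 12993 .nil))) (.I .com (.c 1760086083483768606775145280457609 (.c 12993 .nil)) .nil)) (.node (.I .com (.c 2870186216699415475033029961737 (.c 12993 .nil)) .nil) (.I .tdb (.c 8 (.c 48 (.c 0 (.c 24 .nil)))) (.b 40 (.b 32 (.r 16 .nil))))))) (.node (.node (.node (.I .tdb (.c 24 (.c 40 (.c 0 (.c 16 .nil)))) (.b 32 (.b 18497 .nil))) (.I .ass (.c 537002377 (.c 1324065993 (.c 16 .nil))) .nil)) (.node (.I .com (.c 19589859841170820816512814651609842473208379866077065 (.c 48 .nil)) .nil) (.I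 .tdb (.c 8 (.c 40 (.c 0 (.c 48 .nil)))) (.b 24 (.b 32 (.r 16 .nil)))))) (.node (.node (.I .com (.c 19589859837137981227538366239386346117563573617270665 (.c 48 .nil)) .nil) (.I .tdb (.c 0 (.c 32 (.c 16 (.c 48 .nil)))) (.b 174695753 .nil))) (.node (.I .adp (.c 15038410136445321 (.c 16 (.c 8257 .nil))) .nil) (.I .jac (.c 15038410136445321 (.c 8 (.c 32 .nil))) (.r 16 .nil)))))) (.node (.node (.node (.node (.I .jac (.c 43059203 (.c 8 (.c 32 .nil))) (.r 12993 .nil)) (.I .adp (.c 18433 (.c 1350544522 (.c 8257 .nil))) .nil)) (.node (.I .tdb (.c 8 (.c 32 (.c 12993 (.c 16 .nil)))) (.l 18433 .nil)) (.I .com (.c 2379904940409059145 (.c 16 .nil)) (.l 18433 .nil)))) (.node (.node (.I .com (.c 2379903823379378121 (.c 16 .nil)) (.l 18433 .nil)) (.I .jac (.c 18433 (.c 8 (.c 32 .nil))) (.r 1350544522 .nil))) (.node (.I .tdp (.c 16 (.c 12993 (.c 18433 (.c 8257 .nil)))) .nil) (.I .tdb (.c 8 (.c 32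 (.c 12993 (.c 18433 .nil)))) (.r 16 .nil))))) (.node (.node (.node (.I .tdb (.c 24 (.c 40 (.c 18433 (.c 8 .nil)))) (.b 32 (.r 16 .nil))) (.I .tdb (.c 24 (.c 40 (.c 18433 (.c 32 .nil)))) (.b 8 (.r 16 .nil)))) (.node (.I .tdb (.c 8 (.c 32 (.c 18433 (.c 16 .nil)))) (.b 12993 .nil)) (.I .tdb (.c 8 (.c 32 (.c 12993 (.c 16 .nil)))) (.b 18433 .nil)))) (.node (.node (.I .jac (.c 1310925001 (.c 8 (.c 32 .nil))) (.r 18562 .nil)) (.I .tdp (.c 16 (.c 48 (.c 8257 (.c 1310925001 .nil)))) .nil)) (.node (.I .tdb (.c 24 (.c 12801 (.c 8 (.c 16 .nil)))) (.b 32 (.l 48 .nil))) (.I .tdb (.c 0 (.c 40 (.c 8 (.c 16 .nil)))) (.b 24 (.b 32 (.l 48 .nil))))))))))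

noncomputable def c2_156 : Tr := (.node (.node (.node (.node (.node (.node (.I .tdb (.c 8 (.c 32 (.c 1310925001 (.c 16 .nil)))) (.l 48 .nil)) (.I .tdb (.c 8 (.c 32 (.c 16 (.c 48 .nil)))) (.b 1310925001 .nil))) (.node (.I .tdp (.c 16 (.c 48 (.c 8257 (.c 169943369 .nil)))) .nil) (.I .tdb (.c 4609 (.c 40 (.c 8 (.c 48 .nil)))) (.b 32 (.r 16 .nil))))) (.node (.node (.I .tdb (.c 0 (.c 24 (.c 48 (.c 8 .nil)))) (.b 40 (.b 32 (.r 16 .nil)))) (.I .tdb (.c 4609 (.c 40 (.c 32 (.c 48 .nil)))) (.b 8 (.r 16 .nil)))) (.node (.I .tdb (.c 0 (.c 24 (.c 32 (.c 48 .nil)))) (.b 40 (.b 8 (.r 16 .nil)))) (.I .tdb (.c 8 (.c 32 (.c 169943369 (.c 48 .nil)))) (.r 16 .nil))))) (.node (.node (.node (.I .tdb (.c 8 (.c 32 (.c 169943369 (.c 16 .nil)))) (.b 48 .nil)) (.I .tdb (.c 8 (.c 32 (.c 16 (.c 48 .nil)))) (.b 169943369 .nil))) (.node (.I .jac (.c 2105673 (.c 32 (.c 48 .nil))) (.l 24 (.l 16 .nil))) (.I .com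 (.c 10065461098180296729435276169 (.c 24 .nil)) (.l 16 .nil)))) (.node (.node (.I .com (.c 10066684875741109290467687369 (.c 24 .nil)) (.l 16 .nil)) (.I .com (.c 10064237432128545199748236233 (.c 24 .nil)) (.l 16 .nil))) (.node (.I .com (.c 10065461098107652387135110153 (.c 24 .nil)) (.l 16 .nil)) (.I .ass (.c 16 (.c 10065461098180296729435276169 (.c 24 .nil))) .nil))))) (.node (.node (.node (.node (.I .com (.c 16 (.c 10065461098180296729435276169 .nil)) (.r 24 .nil)) (.I .ass (.c 16 (.c 10066684875741109290467687369 (.c 24 .nil))) .nil)) (.node (.I .ass (.c 10066684875741109290467687369 (.c 16 (.c 24 .nil))) .nil) (.I .com (.c 16 (.c 10066684875741109290467687369 .nil)) (.r 24 .nil)))) (.node (.node (.I .ass (.c 10064237432128545199748236233 (.c 16 (.c 24 .nil))) .nil) (.I .ass (.c 16 (.c 10065461098107652387135110153 (.c 24 .nil))) .nil)) (.node (.I .com (.c 16 (.c 10065461098107652387135110153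 .nil)) (.r 24 .nil)) (.I .ass (.c 16 (.c 2105545 (.c 2794230089 .nil))) .nil)))) (.node (.node (.node (.I .ass (.c 2105545 (.c 16 (.c 2794230089 .nil))) .nil) (.I .com (.c 16 (.c 2105545 .nil)) (.r 2794230089 .nil))) (.node (.I .jac (.c 43356675 (.c 32 (.c 40 .nil))) (.b 8 (.l 16 .nil))) (.I .jac (.c 2105737 (.c 32 (.c 40 .nil))) (.l 24 (.l 16 .nil))))) (.node (.node (.I .com (.c 10066684875777433669609463689 (.c 24 .nil)) (.l 16 .nil)) (.I .com (.c 10064237432092225236522737673 (.c 24 .nil)) (.l 16 .nil))) (.node (.I .ass (.c 16 (.c 10066684875777433669609463689 (.c 24 .nil))) .nil) (.I .ass (.c 10066684875777433669609463689 (.c 16 (.c 24 .nil))) .nil)))))) (.node (.node (.node (.node (.node (.I .com (.c 16 (.c 10066684875777433669609463689 .nil)) (.r 24 .nil)) (.I .ass (.c 10064237432092225236522737673 (.c 16 (.c 24 .nil))) .nil)) (.node (.I .jac (.c 537002313 (.c 8 (.c 48 .nil)))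 (.r 4738 .nil)) (.I .com (.c 76104792608229500760647112777519395792203986434173576121315672969 (.c 24 .nil)) .nil))) (.node (.node (.I .com (.c 89103268705775671430842569995035818734093246922370536829255569417 (.c 24 .nil)) .nil) (.I .ass (.c 537002185 (.c 1324066185 (.c 16 .nil))) .nil)) (.node (.I .ass (.c 537002121 (.c 1324066185 (.c 24 .nil))) .nil) (.I .jac (.c 537002377 (.c 8 (.c 40 .nil))) (.r 4738 .nil))))) (.node (.node (.node (.I .com (.c 24783224170187564332730318127078046327666737372102191667975057543049 (.c 24 .nil)) .nil) (.I .com (.c 19589859841170820816512966668513448346842930475680649 (.c 24 .nil)) .nil)) (.node (.I .com (.c 59109074018462169249 (.c 24 .nil)) .nil) (.I .com (.c 15246281063080593 (.c 24 .nil)) .nil))) (.node (.node (.I .tdb (.c 0 (.c 32 (.c 16 (.c 24 .nil)))) (.b 1324066185 .nil)) (.I .adp (.c 2803779 (.c 18753 (.c 8193 .nil))) .nil)) (.node (.I .jac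 (.c 8193 (.c 40 (.c 48 .nil))) (.l 2803779 .nil)) (.I .com (.c 2718204233 (.c 24 .nil)) (.l 16 (.b 8257 .nil))))))) (.node (.node (.node (.node (.I .ass (.c 16 (.c 2718204233 (.c 24 .nil))) (.b 8257 .nil)) (.I .ass (.c 2718204233 (.c 16 (.c 24 .nil))) (.b 8257 .nil))) (.node (.I .com (.c 16 (.c 2718204233 .nil)) (.r 24 (.b 8257 .nil))) (.I .com (.c 2803715 (.c 18753 .nil)) (.b 8257 .nil)))) (.node (.node (.I .adp (.c 2718204233 (.c 4738 (.c 8257 .nil))) .nil) (.I .tdb (.c 8 (.c 32 (.c 16 (.c 24 .nil)))) (.l 2718204233 .nil))) (.node (.I .adp (.c 16 (.c 24 (.c 8257 .nil))) (.l 2718204233 .nil)) (.I .com (.c 545424585 (.c 16 .nil)) (.l 2718204233 .nil))))) (.node (.node (.node (.I .tdb (.c 40 (.c 18433 (.c 8 (.c 16 .nil)))) (.b 32 (.l 24 .nil))) (.I .tdb (.c 8 (.c 32 (.c 2718204233 (.c 16 .nil)))) (.l 24 .nil))) (.node (.I .tdb (.c 40 (.c 18433 (.c 8 (.c 24 .nil)))) (.b 32 (.r 16 .nil)))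 (.I .tdb (.c 8 (.c 32 (.c 2718204233 (.c 24 .nil)))) (.r 16 .nil)))) (.node (.node (.I .tdb (.c 8 (.c 32 (.c 16 (.c 24 .nil)))) (.b 2718204233 .nil)) (.I .com (.c 545424585 (.c 16 .nil)) (.l 1310925193 .nil))) (.node (.I .tdb (.c 8 (.c 32 (.c 1310925193 (.c 16 .nil)))) (.l 24 .nil)) (.I .com (.c 65899851849278097965965088103831915539735404868841190574506697 (.c 24 .nil)) .nil)))))))

noncomputable def c2_157 : Tr := (.node (.node (.node (.node (.node (.node (.I .com (.c 1760096547776101087886666166078985 (.c 24 .nil)) .nil) (.I .tdb (.c 8 (.c 32 (.c 1310925193 (.c 24 .nil)))) (.r 16 .nil))) (.node (.I .adp (.c 2803715 (.c 18753 (.c 8257 .nil))) .nil) (.I .com (.c 2379905498923998153 (.c 16 .nil)) (.l 4609 .nil)))) (.node (.node (.I .com (.c 2379904940409059337 (.c 16 .nil)) (.l 4609 .nil)) (.I .jac (.c 8257 (.c 40 (.c 48 .nil))) (.l 16 (.l 4609 .nil)))) (.node (.I .com (.c 2379905498923998153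 (.c 24 .nil)) (.l 2049 .nil)) (.I .com (.c 2379904940409059337 (.c 24 .nil)) (.l 2049 .nil))))) (.node (.node (.node (.I .jac (.c 8257 (.c 40 (.c 48 .nil))) (.l 24 (.l 2049 .nil))) (.I .jac (.c 169943369 (.c 8 (.c 48 .nil))) (.b 8321 .nil))) (.node (.I .jac (.c 4609 (.c 18497 (.c 40 .nil))) (.b 8321 .nil)) (.I .jac (.c 4609 (.c 8 (.c 48 .nil))) (.b 40 (.b 8321 .nil))))) (.node (.node (.I .jac (.c 18433 (.c 8 (.c 24 .nil))) (.b 40 (.b 8321 .nil))) (.I .jac (.c 2718204105 (.c 8 (.c 40 .nil))) (.b 8321 .nil))) (.node (.I .jac (.c 18433 (.c 4673 (.c 40 .nil))) (.b 8321 .nil)) (.I .jac (.c 12801 (.c 8 (.c 48 .nil))) (.r 24 (.b 8321 .nil))))))) (.node (.node (.node (.node (.I .adp (.c 13748198893136698057 (.c 24 (.c 8321 .nil))) .nil) (.I .adp (.c 35473026505673 (.c 24 (.c 8321 .nil))) .nil)) (.node (.I .adp (.c 13748192181200529417 (.c 24 (.c 8321 .nil))) .nil) (.I .jac (.c 4609 (.c 16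 (.c 32 .nil))) (.r 2737112393 .nil)))) (.node (.node (.I .adp (.c 1324066185 (.c 24 (.c 32 .nil))) (.b 2049 .nil)) (.I .adp (.c 1324066185 (.c 24 (.c 16 .nil))) (.b 8193 .nil))) (.node (.I .adp (.c 1324066185 (.c 24 (.c 0 .nil))) (.b 8321 .nil)) (.I .com (.c 4609 (.c 1324066185 .nil)) (.b 8321 .nil))))) (.node (.node (.node (.I .jac (.c 18433 (.c 8 (.c 40 .nil))) (.r 24 (.b 8321 .nil))) (.I .jac (.c 0 (.c 12865 (.c 48 .nil))) (.r 24 (.b 8321 .nil)))) (.node (.I .jac (.c 0 (.c 8 (.c 40 .nil))) (.b 48 (.r 24 (.b 8321 .nil)))) (.I .adp (.c 59109074018392946377 (.c 24 (.c 8321 .nil))) .nil))) (.node (.node (.I .adp (.c 35470870263817 (.c 24 (.c 8321 .nil))) .nil) (.I .adp (.c 15456163896880201 (.c 24 (.c 8321 .nil))) .nil)) (.node (.I .adp (.c 2737112265 (.c 40 (.c 32 .nil))) (.b 2049 .nil)) (.I .adp (.c 2737112265 (.c 40 (.c 16 .nil))) (.b 8193 .nil))))))) (.node (.node (.node (.node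 (.node (.I .adp (.c 2737112265 (.c 40 (.c 0 .nil))) (.b 8321 .nil)) (.I .com (.c 12801 (.c 2737112265 .nil)) (.b 8321 .nil))) (.node (.I .adp (.c 231046163358603977 (.c 40 (.c 8321 .nil))) .nil) (.I .adp (.c 231045293249046537 (.c 40 (.c 8321 .nil))) .nil))) (.node (.node (.I .jac (.c 12801 (.c 16 (.c 32 .nil))) (.r 2737112265 .nil)) (.I .jac (.c 0 (.c 4673 (.c 48 .nil))) (.r 40 (.b 8321 .nil)))) (.node (.I .jac (.c 0 (.c 8 (.c 24 .nil))) (.b 48 (.r 40 (.b 8321 .nil)))) (.I .adp (.c 59109068451510808265 (.c 40 (.c 8321 .nil))) .nil)))) (.node (.node (.node (.I .jac (.c 59109068451510808265 (.c 16 (.c 32 .nil))) (.r 40 .nil)) (.I .adp (.c 12801 (.c 174695817 (.c 8321 .nil))) .nil)) (.node (.I .jac (.c 15038454533712969 (.c 16 (.c 32 .nil))) (.r 40 .nil)) (.I .adp (.c 12801 (.c 43356739 (.c 8321 .nil))) .nil))) (.node (.node (.I .tdb (.c 24 (.c 40 (.c 18497 (.c 0 .nil)))) (.b 8321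 .nil)) (.I .adp (.c 2718203977 (.c 12993 (.c 8321 .nil))) .nil)) (.node (.I .jac (.c 8321 (.c 24 (.c 40 .nil))) (.l 2718203977 .nil)) (.I .jac (.c 2718203977 (.c 16 (.c 32 .nil))) (.r 12993 .nil)))))) (.node (.node (.node (.node (.I .jac (.c 18497 (.c 16 (.c 32 .nil))) (.l 1310925001 .nil)) (.I .jac (.c 169943369 (.c 16 (.c 32 .nil))) (.r 18497 .nil))) (.node (.I .tdb (.c 8 (.c 48 (.c 32 (.c 40 .nil)))) (.r 24 (.b 2049 .nil))) (.I .com (.c 59555558875593 (.c 40 .nil)) (.b 8321 .nil)))) (.node (.node (.I .adp (.c 15456118887243913 (.c 24 (.c 8321 .nil))) .nil) (.I .jac (.c 15456118887243913 (.c 16 (.c 32 .nil))) (.r 24 .nil))) (.node (.I .adp (.c 3423058053194185 (.c 24 (.c 8321 .nil))) .nil) (.I .jac (.c 3423058053194185 (.c 16 (.c 32 .nil))) (.r 24 .nil))))) (.node (.node (.node (.I .adp (.c 59555558875593 (.c 40 (.c 8321 .nil))) .nil) (.I .com (.c 553912649 (.c 24 .nil)) (.l 2718203977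 .nil))) (.node (.I .tdb (.c 16 (.c 32 (.c 2718203977 (.c 24 .nil)))) (.l 40 .nil)) (.I .tdb (.c 16 (.c 32 (.c 2718203977 (.c 40 .nil)))) (.r 24 .nil)))) (.node (.node (.I .tdb (.c 513 (.c 48 (.c 16 (.c 40 .nil)))) (.b 32 (.r 24 .nil))) (.I .tdb (.c 0 (.c 8 (.c 16 (.c 40 .nil)))) (.b 48 (.b 32 (.r 24 .nil))))) (.node (.I .adp (.c 21099011 (.c 18497 (.c 8321 .nil))) .nil) (.I .jac (.c 18497 (.c 16 (.c 32 .nil))) (.l 21099011 .nil))))))))

noncomputable def c2_158 : Tr := (.node (.node (.node (.node (.node (.node (.I .adp (.c 18497 (.c 24 (.c 8321 .nil))) (.l 12801 .nil)) (.I .jac (.c 0 (.c 8 (.c 43954819 .nil))) (.b 32 (.l 24 .nil)))) (.node (.I .tdb (.c 0 (.c 40 (.c 18497 (.c 16 .nil)))) (.b 32 (.l 24 .nil))) (.I .tdb (.c 8 (.c 48 (.c 16 (.c 40 .nil)))) (.b 0 (.b 32 (.l 24 .nil)))))) (.node (.node (.I .tdb (.c 8 (.c 48 (.c 0 (.c 32 .nil)))) (.b 40 (.b 16 (.l 24 .nil)))) (.I .tdb (.c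 8 (.c 48 (.c 32 (.c 40 .nil)))) (.b 0 (.b 16 (.l 24 .nil))))) (.node (.I .tdb (.c 16 (.c 32 (.c 12801 (.c 18497 .nil)))) (.l 24 .nil)) (.I .com (.c 58240646186319479625272581893243555306718883533327995256725257 (.c 24 .nil)) .nil)))) (.node (.node (.node (.I .com (.c 29220112062374340779692772142335450373702271758580661658759238668169 (.c 24 .nil)) .nil) (.I .tdb (.c 0 (.c 40 (.c 16 (.c 24 .nil)))) (.b 32 (.r 18497 .nil)))) (.node (.I .tdb (.c 0 (.c 40 (.c 16 (.c 24 .nil)))) (.b 32 (.b 18497 .nil))) (.I .tdb (.c 8 (.c 48 (.c 32 (.c 40 .nil)))) (.b 16 (.l 4609 .nil))))) (.node (.node (.I .adp (.c 18497 (.c 40 (.c 8321 .nil))) (.l 4609 .nil)) (.I .adp (.c 18433 (.c 1324065993 (.c 8321 .nil))) .nil)) (.node (.I .jac (.c 1324065993 (.c 16 (.c 32 .nil))) (.l 18433 .nil)) (.I .jac (.c 18433 (.c 16 (.c 32 .nil))) (.r 1324065993 .nil)))))) (.node (.node (.node (.node (.I .jac (.c 231045989336561353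 (.c 16 (.c 32 .nil))) (.r 48 .nil)) (.I .adp (.c 231045293249046473 (.c 48 (.c 8321 .nil))) .nil)) (.node (.I .adp (.c 174695753 (.c 48 (.c 32 .nil))) (.b 2049 .nil)) (.I .adp (.c 174695753 (.c 48 (.c 16 .nil))) (.b 8193 .nil)))) (.node (.node (.I .adp (.c 174695753 (.c 48 (.c 0 .nil))) (.b 8321 .nil)) (.I .com (.c 18433 (.c 174695753 .nil)) (.b 8321 .nil))) (.node (.I .jac (.c 0 (.c 4673 (.c 40 .nil))) (.r 48 (.b 8321 .nil))) (.I .jac (.c 0 (.c 8 (.c 24 .nil))) (.b 40 (.r 48 (.b 8321 .nil))))))) (.node (.node (.node (.I .adp (.c 18433 (.c 174695753 (.c 8321 .nil))) .nil) (.I .jac (.c 13748194865974800073 (.c 16 (.c 32 .nil))) (.r 48 .nil))) (.node (.I .adp (.c 35466557976521 (.c 48 (.c 8321 .nil))) .nil) (.I .jac (.c 21099075 (.c 16 (.c 32 .nil))) (.l 18433 .nil)))) (.node (.node (.I .jac (.c 3561367726845001 (.c 16 (.c 32 .nil))) (.r 48 .nil)) (.I .tdb (.c 24 (.c 48 (.c 0 (.c 8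 .nil)))) (.b 40 (.b 8321 .nil)))) (.node (.I .tdb (.c 8 (.c 40 (.c 18625 (.c 0 .nil)))) (.b 8321 .nil)) (.I .com (.c 2718204105 (.c 12865 .nil)) (.b 8321 .nil))))))) (.node (.node (.node (.node (.node (.I .jac (.c 12865 (.c 16 (.c 32 .nil))) (.l 2718204105 .nil)) (.I .jac (.c 2718204105 (.c 16 (.c 32 .nil))) (.r 12865 .nil))) (.node (.I .jac (.c 169943433 (.c 16 (.c 32 .nil))) (.r 12865 .nil)) (.I .adp (.c 1310924873 (.c 18625 (.c 8321 .nil))) .nil))) (.node (.node (.I .jac (.c 1310924873 (.c 16 (.c 32 .nil))) (.r 18625 .nil)) (.I .adp (.c 2105673 (.c 18625 (.c 8321 .nil))) .nil)) (.node (.I .com (.c 43356675 (.c 12865 .nil)) (.b 8321 .nil)) (.I .adp (.c 43356675 (.c 12865 (.c 8321 .nil))) .nil)))) (.node (.node (.node (.I .jac (.c 43356675 (.c 16 (.c 32 .nil))) (.r 12865 .nil)) (.I .adp (.c 18433 (.c 1324168914 (.c 8321 .nil))) .nil)) (.node (.I .tdb (.c 8 (.c 40 (.c 16 (.c 24 .nil))))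 (.b 32 (.l 18433 .nil))) (.I .jac (.c 18433 (.c 16 (.c 32 .nil))) (.r 1324168914 .nil)))) (.node (.node (.I .tdp (.c 12865 (.c 24 (.c 18433 (.c 8321 .nil)))) .nil) (.I .tdb (.c 0 (.c 48 (.c 16 (.c 40 .nil)))) (.b 8 (.b 32 (.l 24 .nil))))) (.node (.I .com (.c 89098986658163792321215551618159489410825695875594978240569265929 (.c 24 .nil)) .nil) (.I .tdb (.c 16 (.c 32 (.c 18433 (.c 24 .nil)))) (.r 12865 .nil)))))) (.node (.node (.node (.node (.I .tdb (.c 16 (.c 32 (.c 12865 (.c 24 .nil)))) (.b 18433 .nil)) (.I .adp (.c 3561346121425033 (.c 48 (.c 8321 .nil))) .nil)) (.node (.I .jac (.c 3561346121425033 (.c 16 (.c 32 .nil))) (.r 48 .nil)) (.I .com (.c 553912713 (.c 24 .nil)) (.l 1310924873 .nil)))) (.node (.node (.I .tdb (.c 8 (.c 12801 (.c 16 (.c 24 .nil)))) (.b 32 (.l 48 .nil))) (.I .tdb (.c 0 (.c 40 (.c 16 (.c 24 .nil)))) (.b 8 (.b 32 (.l 48 .nil))))) (.node (.I .tdb (.c 16 (.c 32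 (.c 24 (.c 48 .nil)))) (.b 1310924873 .nil)) (.I .tdp (.c 24 (.c 48 (.c 8321 (.c 2105673 .nil)))) .nil)))) (.node (.node (.node (.I .tdb (.c 513 (.c 40 (.c 16 (.c 48 .nil)))) (.b 32 (.r 24 .nil))) (.I .tdb (.c 0 (.c 8 (.c 16 (.c 48 .nil)))) (.b 40 (.b 32 (.r 24 .nil))))) (.node (.I .tdb (.c 513 (.c 40 (.c 32 (.c 48 .nil)))) (.b 16 (.r 24 .nil))) (.I .tdb (.c 0 (.c 8 (.c 32 (.c 48 .nil)))) (.b 40 (.b 16 (.r 24 .nil)))))) (.node (.node (.I .tdb (.c 16 (.c 32 (.c 2105673 (.c 48 .nil)))) (.r 24 .nil)) (.I .tdb (.c 16 (.c 32 (.c 2105673 (.c 24 .nil)))) (.b 48 .nil))) (.node (.I .tdb (.c 8 (.c 40 (.c 32 (.c 48 .nil)))) (.b 16 (.l 4609 .nil))) (.I .com (.c 1310925193 (.c 4673 .nil)) (.b 8321 .nil))))))))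

noncomputable def c2_159 : Tr := (.node (.node (.node (.node (.node (.node (.I .adp (.c 1310925193 (.c 4673 (.c 8321 .nil))) .nil) (.I .jac (.c 8321 (.c 40 (.c 48 .nil))) (.l 2105545 .nil))) (.node (.I .adp (.c 14629225721520393 (.c 40 (.c 8321 .nil))) .nil) (.I .jac (.c 14629225721520393 (.c 16 (.c 32 .nil))) (.r 40 .nil)))) (.node (.node (.I .adp (.c 18433 (.c 174733138 (.c 8321 .nil))) .nil) (.I .adp (.c 4673 (.c 40 (.c 8321 .nil))) (.l 18433 .nil))) (.node (.I .jac (.c 18433 (.c 16 (.c 32 .nil))) (.r 174733138 .nil)) (.I .tdp (.c 4673 (.c 40 (.c 18433 (.c 8321 .nil)))) .nil)))) (.node (.node (.node (.I .tdb (.c 0 (.c 48 (.c 16 (.c 40 .nil)))) (.b 32 (.r 4673 .nil))) (.I .tdb (.c 16 (.c 32 (.c 18433 (.c 40 .nil)))) (.r 4673 .nil))) (.node (.I .jac (.c 3423058053193993 (.c 16 (.c 32 .nil))) (.r 48 .nil)) (.I .tdb (.c 0 (.c 40 (.c 16 (.c 48 .nil)))) (.b 32 (.r 4673 .nil))))) (.node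 (.node (.I .tdb (.c 0 (.c 40 (.c 32 (.c 48 .nil)))) (.b 16 (.r 4673 .nil))) (.I .tdb (.c 16 (.c 32 (.c 40 (.c 48 .nil)))) (.l 169943113 .nil))) (.node (.I .jac (.c 2306970773558194185 (.c 16 (.c 40 .nil))) (.l 8 .nil)) (.I .jac (.c 537002185 (.c 16 (.c 40 .nil))) (.b 48 (.l 8 .nil))))))) (.node (.node (.node (.node (.I .com (.c 14502348301404392044591456005053312591820489834081545082478059549224675221257 (.c 8 .nil)) .nil) (.I .com (.c 14502348301404392044591456005053312461024212482411141103983515476492472136649 (.c 8 .nil)) .nil)) (.node (.I .jac (.c 2306971873338799945 (.c 16 (.c 48 .nil))) (.l 8 .nil)) (.I .jac (.c 537002313 (.c 16 (.c 48 .nil))) (.b 24 (.l 8 .nil))))) (.node (.node (.I .jac (.c 537002185 (.c 16 (.c 48 .nil))) (.b 40 (.l 8 .nil))) (.I .com (.c 14502389782864775724004637839190473782856475165304737489350909178697041926089 (.c 8 .nil)) .nil)) (.node (.I .com (.c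 14502334474273999565302249120836236120220517508509644722067468378059598616521 (.c 8 .nil)) .nil) (.I .com (.c 14502348301404385607403421007397079695281644434639682799337378736762607715273 (.c 8 .nil)) .nil)))) (.node (.node (.node (.I .com (.c 14502375955699778506396863322320873405338666702174722200444384665198719202313 (.c 8 .nil)) .nil) (.I .jac (.c 537002313 (.c 16 (.c 24 .nil))) (.b 48 (.l 8 .nil)))) (.node (.I .com (.c 14502389782864777333305098924298644431720863286348602819849794413613458453449 (.c 8 .nil)) .nil) (.I .com (.c 14502334474273994737414675204173677576472838470281954748266460304942497891273 (.c 8 .nil)) .nil))) (.node (.node (.I .jac (.c 2306972423229201225 (.c 16 (.c 40 .nil))) (.l 8 .nil)) (.I .jac (.c 537002377 (.c 12929 (.c 24 .nil))) (.l 8 .nil))) (.node (.I .tdb (.c 40 (.c 18625 (.c 0 (.c 8 .nil)))) (.b 8321 .nil)) (.I .com (.c 231046163358604233 (.c 8 .nil))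 (.b 8321 .nil))))))) (.node (.node (.node (.node (.node (.I .jac (.c 13748198893136698185 (.c 16 (.c 32 .nil))) (.r 8 .nil)) (.I .jac (.c 8 (.c 16 (.c 32 .nil))) (.l 59109068451510808521 .nil))) (.node (.I .jac (.c 59109068451510808521 (.c 16 (.c 32 .nil))) (.r 8 .nil)) (.I .adp (.c 231046163358604233 (.c 8 (.c 8321 .nil))) .nil))) (.node (.node (.I .jac (.c 13748194865974800393 (.c 16 (.c 32 .nil))) (.r 8 .nil)) (.I .jac (.c 537002185 (.c 18561 (.c 40 .nil))) (.l 8 .nil))) (.node (.I .com (.c 14502348301404390435294447255639053497302835656416747721244192645045171913481 (.c 8 .nil)) .nil) (.I .com (.c 14502334474273994737414675204173677532874100137481072673812961228579921321993 (.c 8 .nil)) .nil)))) (.node (.node (.node (.I .jac (.c 42762755 (.c 24 (.c 40 .nil))) (.b 8321 .nil)) (.I .jac (.c 8 (.c 16 (.c 32 .nil))) (.l 59109074018392946505 .nil))) (.node (.I .jac (.c 59109074018392946505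 (.c 16 (.c 32 .nil))) (.r 8 .nil)) (.I .adp (.c 8 (.c 15456253916349641 (.c 8193 .nil))) .nil))) (.node (.node (.I .adp (.c 513 (.c 43954883 (.c 8321 .nil))) .nil) (.I .adp (.c 8 (.c 15456208906582281 (.c 8193 .nil))) .nil)) (.node (.I .tdb (.c 16 (.c 48 (.c 32 (.c 40 .nil)))) (.b 24 (.b 0 (.l 8 .nil)))) (.I .com (.c 82361964593872257944173769947454147829455588008969326249822352265 (.c 8 .nil)) .nil))))) (.node (.node (.node (.node (.I .com (.c 76104792608257399621125824957850823471303513498263777714085042057 (.c 8 .nil)) .nil) (.I .com (.c 82361964593848576266272055259231658498207490894264586793011053449 (.c 8 .nil)) .nil)) (.node (.I .ass (.c 8 (.c 42576913200413542961749526065342513929 (.c 40 .nil))) .nil) (.I .ass (.c 42576913200413542961749526065342513929 (.c 8 (.c 40 .nil))) .nil))) (.node (.node (.I .com (.c 8 (.c 42576913200413542961749526065342513929 .nil)) (.r 40 .nil))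 (.I .ass (.c 8 (.c 42576892903125868487846022299823817545 (.c 40 .nil))) .nil)) (.node (.I .ass (.c 42576892903125868487846022299823817545 (.c 8 (.c 40 .nil))) .nil) (.I .com (.c 8 (.c 42576892903125868487846022299823817545 .nil)) (.r 40 .nil))))) (.node (.node (.node (.I .ass (.c 8 (.c 42576913200413533512397237570979656713 (.c 40 .nil))) .nil) (.I .ass (.c 42576913200413533512397237570979656713 (.c 8 (.c 40 .nil))) .nil)) (.node (.I .com (.c 8 (.c 42576913200413533512397237570979656713 .nil)) (.r 40 .nil)) (.I .jac (.c 2728451 (.c 16 (.c 48 .nil))) (.b 32 (.l 40 .nil))))) (.node (.node (.I .tdb (.c 16 (.c 48 (.c 0 (.c 8 .nil)))) (.b 24 (.b 32 (.l 40 .nil)))) (.I .tdb (.c 0 (.c 32 (.c 2756085961 (.c 8 .nil)))) (.l 40 .nil))) (.node (.I .tdb (.c 24 (.c 18561 (.c 0 (.c 8 .nil)))) (.b 32 (.l 40 .nil))) (.I .com (.c 23450673742497901511923054532230323129287277401317973952284762773385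 (.c 40 .nil)) .nil)))))))

noncomputable def c2_160 : Tr := (.node (.node (.node (.node (.node (.node (.I .tdb (.c 0 (.c 32 (.c 8 (.c 40 .nil)))) (.b 2756085961 .nil)) (.I .jac (.c 0 (.c 4737 (.c 43954947 .nil))) (.l 8 .nil))) (.node (.I .jac (.c 0 (.c 16 (.c 24 .nil))) (.b 43954947 (.l 8 .nil))) (.I .tdb (.c 0 (.c 32 (.c 179513737 (.c 40 .nil)))) (.l 8 .nil)))) (.node (.node (.I .jac (.c 8193 (.c 4737 (.c 48 .nil))) (.r 40 (.l 8 .nil))) (.I .jac (.c 8193 (.c 16 (.c 24 .nil))) (.b 48 (.r 40 (.l 8 .nil))))) (.node (.I .com (.c 29219431338612914847243612605233219589382418649756010576090385527689 (.c 8 .nil)) .nil) (.I .com (.c 76104792608240660304838596729314971079053310705683998184022688649 (.c 8 .nil)) .nil)))) (.node (.node (.node (.I .ass (.c 8 (.c 42576892903125861400833495191760328713 (.c 40 .nil))) .nil) (.I .com (.c 8 (.c 42576892903125861400833495191760328713 .nil)) (.r 40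 .nil))) (.node (.I .com (.c 23450673742498311880358975801693308650538466665638519017772930478985 (.c 40 .nil)) .nil) (.I .tdb (.c 0 (.c 32 (.c 12929 (.c 18625 .nil)))) (.l 8 .nil)))) (.node (.node (.I .tdb (.c 16 (.c 40 (.c 18625 (.c 0 .nil)))) (.b 32 (.l 8 .nil))) (.I .jac (.c 16 (.c 24 (.c 43954947 .nil))) (.b 0 (.l 8 .nil)))) (.node (.I .tdb (.c 16 (.c 40 (.c 18625 (.c 32 .nil)))) (.b 0 (.l 8 .nil))) (.I .tdb (.c 24 (.c 48 (.c 32 (.c 40 .nil)))) (.b 16 (.b 0 (.l 8 .nil)))))))) (.node (.node (.node (.node (.I .com (.c 2306972423229201225 (.c 12929 .nil)) (.l 8 .nil)) (.I .com (.c 2306970773558194185 (.c 12929 .nil)) (.l 8 .nil))) (.node (.I .jac (.c 8193 (.c 16 (.c 40 .nil))) (.r 18625 (.l 8 .nil))) (.I .com (.c 8007571589612989335961665268183534149881835081509388181385 (.c 8 .nil)) .nil))) (.node (.node (.I .ass (.c 2306972423229201225 (.c 8 (.c 12929 .nil))) .nil) (.I .ass (.c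 2306970773558194185 (.c 8 (.c 12929 .nil))) .nil)) (.node (.I .ass (.c 8 (.c 2306971873338799881 (.c 18625 .nil))) .nil) (.I .ass (.c 2306971873338799881 (.c 8 (.c 18625 .nil))) .nil)))) (.node (.node (.node (.I .com (.c 8 (.c 2306971873338799881 .nil)) (.r 18625 .nil)) (.I .ass (.c 8 (.c 2306970223667989449 (.c 18625 .nil))) .nil)) (.node (.I .ass (.c 2306970223667989449 (.c 8 (.c 18625 .nil))) .nil) (.I .com (.c 8 (.c 2306970223667989449 .nil)) (.r 18625 .nil)))) (.node (.node (.I .jac (.c 0 (.c 21307459 (.c 16 .nil))) (.l 18625 .nil)) (.I .com (.c 93738611484286490074864659656585 (.c 18625 .nil)) .nil)) (.node (.I .tdb (.c 16 (.c 40 (.c 0 (.c 8 .nil)))) (.b 32 (.b 18625 .nil))) (.I .com (.c 15456118887244041 (.c 8 .nil)) (.b 8321 .nil))))))) (.node (.node (.node (.node (.node (.I .adp (.c 15456118887244041 (.c 8 (.c 8321 .nil))) .nil) (.I .jac (.c 8 (.c 16 (.c 32 .nil))) (.l 15456118887244041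 .nil))) (.node (.I .jac (.c 15456118887244041 (.c 16 (.c 32 .nil))) (.r 8 .nil)) (.I .adp (.c 2718204105 (.c 12866 (.c 8321 .nil))) .nil))) (.node (.node (.I .tdb (.c 16 (.c 32 (.c 8 (.c 40 .nil)))) (.l 2718204105 .nil)) (.I .adp (.c 8 (.c 40 (.c 8321 .nil))) (.l 2718204105 .nil))) (.node (.I .jac (.c 8 (.c 16 (.c 32 .nil))) (.r 40 (.l 2718204105 .nil))) (.I .jac (.c 2718204105 (.c 16 (.c 32 .nil))) (.r 12866 .nil))))) (.node (.node (.node (.I .tdp (.c 8 (.c 40 (.c 2718204105 (.c 8321 .nil)))) .nil) (.I .tdb (.c 24 (.c 18433 (.c 32 (.c 40 .nil)))) (.b 16 (.r 8 .nil)))) (.node (.I .tdb (.c 0 (.c 48 (.c 32 (.c 40 .nil)))) (.b 24 (.b 16 (.r 8 .nil)))) (.I .tdb (.c 16 (.c 32 (.c 2718204105 (.c 40 .nil)))) (.r 8 .nil)))) (.node (.node (.I .tdb (.c 16 (.c 32 (.c 2718204105 (.c 40 .nil)))) (.b 8 .nil)) (.I .tdb (.c 16 (.c 32 (.c 169943433 (.c 40 .nil)))) (.b 8 .nil))) (.node (.I .tdb (.c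 16 (.c 32 (.c 8 (.c 40 .nil)))) (.b 169943433 .nil)) (.I .adp (.c 20685315 (.c 18625 (.c 8321 .nil))) .nil))))) (.node (.node (.node (.node (.I .jac (.c 20685315 (.c 16 (.c 32 .nil))) (.r 18625 .nil)) (.I .adp (.c 8 (.c 18625 (.c 8321 .nil))) (.l 12801 .nil))) (.node (.I .jac (.c 8 (.c 16 (.c 32 .nil))) (.r 18625 (.l 12801 .nil))) (.I .com (.c 2698162480890786870601550715657 (.c 18625 .nil)) .nil))) (.node (.node (.I .tdb (.c 0 (.c 40 (.c 18625 (.c 16 .nil)))) (.b 32 (.r 8 .nil))) (.I .tdb (.c 24 (.c 48 (.c 0 (.c 16 .nil)))) (.b 40 (.b 32 (.r 8 .nil))))) (.node (.I .jac (.c 0 (.c 24 (.c 43954947 .nil))) (.b 16 (.r 8 .nil))) (.I .tdb (.c 16 (.c 32 (.c 12801 (.c 18625 .nil)))) (.r 8 .nil))))) (.node (.node (.node (.I .tdb (.c 16 (.c 32 (.c 12801 (.c 18625 .nil)))) (.b 8 .nil)) (.I .tdb (.c 16 (.c 32 (.c 12801 (.c 8 .nil)))) (.b 18625 .nil))) (.node (.I .tdb (.c 0 (.c 40 (.c 18625 (.c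 8 .nil)))) (.b 8321 .nil)) (.I .tdb (.c 16 (.c 32 (.c 18625 (.c 8 .nil)))) (.b 12801 .nil)))) (.node (.node (.I .tdb (.c 16 (.c 32 (.c 18625 (.c 40 .nil)))) (.l 513 .nil)) (.I .tdb (.c 0 (.c 32 (.c 12993 (.c 18561 .nil)))) (.l 8 .nil))) (.node (.I .tdb (.c 24 (.c 40 (.c 18561 (.c 0 .nil)))) (.b 32 (.l 8 .nil))) (.I .tdb (.c 24 (.c 40 (.c 18561 (.c 32 .nil)))) (.b 0 (.l 8 .nil)))))))))

noncomputable def c2_161 : Tr := (.node (.node (.node (.node (.node (.node (.I .com (.c 2306971873338799945 (.c 18561 .nil)) (.l 8 .nil)) (.I .com (.c 2306970773558194121 (.c 18561 .nil)) (.l 8 .nil))) (.node (.I .jac (.c 8193 (.c 16 (.c 48 .nil))) (.r 12993 (.l 8 .nil))) (.I .ass (.c 2306970223667989513 (.c 8 (.c 12993 .nil))) .nil))) (.node (.node (.I .jac (.c 0 (.c 43655235 (.c 16 .nil))) (.l 12993 .nil)) (.I .com (.c 1712113961689535924973081282146185 (.c 12993 .nil)) .nil)) (.node (.I .jac (.c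 0 (.c 21307459 (.c 24 .nil))) (.r 18561 .nil)) (.I .tdb (.c 24 (.c 40 (.c 8 (.c 32 .nil)))) (.b 0 (.r 18561 .nil)))))) (.node (.node (.node (.I .tdb (.c 24 (.c 40 (.c 0 (.c 8 .nil)))) (.b 32 (.b 18561 .nil))) (.I .jac (.c 43356675 (.c 16 (.c 40 .nil))) (.b 32 (.l 8 .nil)))) (.node (.I .tdb (.c 16 (.c 40 (.c 0 (.c 48 .nil)))) (.b 24 (.b 32 (.l 8 .nil)))) (.I .jac (.c 537002185 (.c 16 (.c 40 .nil))) (.r 48 (.l 8 .nil))))) (.node (.node (.I .com (.c 26186512359091809868165733223511250315582317433766354666625588999049 (.c 8 .nil)) .nil) (.I .com (.c 24783224170187564332730318127081650983965712254635073880241566898057 (.c 8 .nil)) .nil)) (.node (.I .com (.c 70295418264016056367196823099296142163752309344533784109582587785 (.c 48 .nil)) .nil) (.I .com (.c 70295418264021313545660038924700774359065206181747927933821563785 (.c 48 .nil)) .nil))))) (.node (.node (.node (.node (.I .tdb (.c 16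 (.c 32 (.c 12993 (.c 8 .nil)))) (.l 18433 .nil)) (.I .adp (.c 8 (.c 12993 (.c 8321 .nil))) (.l 18433 .nil))) (.node (.I .jac (.c 8 (.c 16 (.c 32 .nil))) (.r 12993 (.l 18433 .nil))) (.I .tdb (.c 0 (.c 48 (.c 8 (.c 32 .nil)))) (.b 16 (.l 12993 .nil))))) (.node (.node (.I .com (.c 2698162480891381558379040177929 (.c 12993 .nil)) .nil) (.I .tdb (.c 0 (.c 48 (.c 16 (.c 24 .nil)))) (.b 40 (.b 32 (.r 8 .nil))))) (.node (.I .tdb (.c 16 (.c 32 (.c 12993 (.c 18433 .nil)))) (.b 8 .nil)) (.I .tdb (.c 24 (.c 40 (.c 18433 (.c 32 .nil)))) (.b 16 (.b 8 .nil)))))) (.node (.node (.node (.I .tdb (.c 16 (.c 32 (.c 18433 (.c 8 .nil)))) (.b 12993 .nil)) (.I .tdb (.c 16 (.c 32 (.c 12993 (.c 8 .nil)))) (.b 18433 .nil))) (.node (.I .tdb (.c 24 (.c 40 (.c 18433 (.c 8 .nil)))) (.b 8321 .nil)) (.I .tdb (.c 16 (.c 32 (.c 1310925001 (.c 8 .nil)))) (.b 48 .nil)))) (.node (.node (.I .tdb (.c 24 (.c 12801 (.c 8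 (.c 48 .nil)))) (.b 8321 .nil)) (.I .tdb (.c 16 (.c 32 (.c 8 (.c 48 .nil)))) (.b 1310925001 .nil))) (.node (.I .tdb (.c 16 (.c 32 (.c 8 (.c 48 .nil)))) (.l 169943369 .nil)) (.I .jac (.c 8 (.c 16 (.c 32 .nil))) (.r 48 (.l 169943369 .nil)))))))) (.node (.node (.node (.node (.node (.I .tdb (.c 4609 (.c 40 (.c 16 (.c 48 .nil)))) (.b 32 (.r 8 .nil))) (.I .tdb (.c 0 (.c 24 (.c 48 (.c 16 .nil)))) (.b 40 (.b 32 (.r 8 .nil))))) (.node (.I .tdb (.c 4609 (.c 40 (.c 32 (.c 48 .nil)))) (.b 16 (.r 8 .nil))) (.I .tdb (.c 0 (.c 24 (.c 32 (.c 48 .nil)))) (.b 40 (.b 16 (.r 8 .nil)))))) (.node (.node (.I .tdb (.c 16 (.c 32 (.c 169943369 (.c 48 .nil)))) (.r 8 .nil)) (.I .tdb (.c 16 (.c 32 (.c 169943369 (.c 48 .nil)))) (.b 8 .nil))) (.node (.I .tdb (.c 16 (.c 32 (.c 169943369 (.c 8 .nil)))) (.b 48 .nil)) (.I .tdb (.c 4609 (.c 40 (.c 8 (.c 48 .nil)))) (.b 8321 .nil))))) (.node (.node (.node (.I .tdb (.c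 0 (.c 24 (.c 48 (.c 8 .nil)))) (.b 40 (.b 8321 .nil))) (.I .tdb (.c 16 (.c 32 (.c 8 (.c 48 .nil)))) (.b 169943369 .nil))) (.node (.I .jac (.c 21099011 (.c 32 (.c 48 .nil))) (.b 16 (.l 8 .nil))) (.I .jac (.c 33587529 (.c 32 (.c 48 .nil))) (.l 24 (.l 8 .nil))))) (.node (.node (.I .com (.c 651601654921560200620872561558409 (.c 24 .nil)) (.l 8 .nil)) (.I .com (.c 651606621363117027878554774109129 (.c 24 .nil)) (.l 8 .nil))) (.node (.I .com (.c 651596688508375012468186189874121 (.c 24 .nil)) (.l 8 .nil)) (.I .com (.c 651601654921541717468315286322185 (.c 24 .nil)) (.l 8 .nil)))))) (.node (.node (.node (.node (.I .ass (.c 651601654921560200620872561558409 (.c 8 (.c 24 .nil))) .nil) (.I .ass (.c 651596688508375012468186189874121 (.c 8 (.c 24 .nil))) .nil)) (.node (.I .ass (.c 651601654921541717468315286322185 (.c 8 (.c 24 .nil))) .nil) (.I .jac (.c 43356675 (.c 32 (.c 40 .nil))) (.b 16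 (.l 8 .nil))))) (.node (.node (.I .jac (.c 33587593 (.c 32 (.c 40 .nil))) (.l 24 (.l 8 .nil))) (.I .com (.c 651606621363126269490052522057609 (.c 24 .nil)) (.l 8 .nil))) (.node (.I .com (.c 651596688508365770927126595477513 (.c 24 .nil)) (.l 8 .nil)) (.I .ass (.c 651596688508365770927126595477513 (.c 8 (.c 24 .nil))) .nil)))) (.node (.node (.node (.I .tdb (.c 40 (.c 18561 (.c 0 (.c 24 .nil)))) (.b 32 (.l 8 .nil))) (.I .ass (.c 8 (.c 42576953795010663218959029878649750281 (.c 24 .nil))) .nil)) (.node (.I .com (.c 8 (.c 42576953795010663218959029878649750281 .nil)) (.r 24 .nil)) (.I .ass (.c 42576974092320099556365595025629983689 (.c 8 (.c 24 .nil))) .nil))) (.node (.node (.I .ass (.c 8 (.c 42576953795010653769602236682924913673 (.c 24 .nil))) .nil) (.I .com (.c 8 (.c 42576953795010653769602236682924913673 .nil)) (.r 24 .nil))) (.node (.I .com (.c 89101127659442842514720521865288430549335174161718347068502832137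 (.c 24 .nil)) .nil) (.I .tdb (.c 0 (.c 32 (.c 8 (.c 24 .nil)))) (.b 2756086089 .nil))))))))

noncomputable def c2_162 : Tr := (.node (.node (.node (.node (.node (.node (.I .jac (.c 537002377 (.c 16 (.c 40 .nil))) (.r 24 (.l 8 .nil))) (.I .ass (.c 42576974092320106643384879185736245001 (.c 8 (.c 24 .nil))) .nil)) (.node (.I .ass (.c 8 (.c 537002185 (.c 1337272713 .nil))) .nil) (.I .ass (.c 537002185 (.c 8 (.c 1337272713 .nil))) .nil))) (.node (.node (.I .com (.c 8 (.c 537002185 .nil)) (.r 1337272713 .nil)) (.I .jac (.c 2049 (.c 43655235 (.c 40 .nil))) (.l 24 .nil))) (.node (.I .tdb (.c 0 (.c 32 (.c 8 (.c 24 .nil)))) (.b 1337272713 .nil)) (.I .com (.c 2728451 (.c 18753 .nil)) (.b 8321 .nil))))) (.node (.node (.node (.I .adp (.c 2718204233 (.c 4674 (.c 8321 .nil))) .nil) (.I .tdb (.c 16 (.c 32 (.c 8 (.c 24 .nil)))) (.l 2718204233 .nil))) (.node (.I .adp (.c 8 (.c 24 (.c 8321 .nil)))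 (.l 2718204233 .nil)) (.I .jac (.c 8 (.c 16 (.c 32 .nil))) (.r 24 (.l 2718204233 .nil))))) (.node (.node (.I .jac (.c 2718204233 (.c 16 (.c 32 .nil))) (.r 4674 .nil)) (.I .tdp (.c 8 (.c 24 (.c 8321 (.c 2718204233 .nil)))) .nil)) (.node (.I .tdb (.c 40 (.c 18433 (.c 8 (.c 32 .nil)))) (.b 16 (.l 24 .nil))) (.I .tdb (.c 40 (.c 18433 (.c 16 (.c 24 .nil)))) (.b 32 (.r 8 .nil))))))) (.node (.node (.node (.node (.I .tdb (.c 16 (.c 32 (.c 2718204233 (.c 24 .nil)))) (.r 8 .nil)) (.I .tdb (.c 16 (.c 32 (.c 8 (.c 24 .nil)))) (.b 2718204233 .nil))) (.node (.I .tdb (.c 16 (.c 32 (.c 1310925193 (.c 8 .nil)))) (.l 24 .nil)) (.I .tdb (.c 16 (.c 32 (.c 8 (.c 24 .nil)))) (.b 1310925193 .nil)))) (.node (.node (.I .adp (.c 2728451 (.c 18753 (.c 8321 .nil))) .nil) (.I .adp (.c 8 (.c 18753 (.c 8321 .nil))) (.l 4609 .nil))) (.node (.I .com (.c 2454554348984163273 (.c 24 .nil)) (.l 513 .nil)) (.I .com (.c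 2454553781777577993 (.c 24 .nil)) (.l 513 .nil))))) (.node (.node (.node (.I .jac (.c 8321 (.c 40 (.c 48 .nil))) (.l 24 (.l 513 .nil))) (.I .adp (.c 2718204105 (.c 40 (.c 32 .nil))) (.b 2113 .nil))) (.node (.I .adp (.c 2718204105 (.c 40 (.c 16 .nil))) (.b 8257 .nil)) (.I .adp (.c 2718204105 (.c 40 (.c 8 .nil))) (.b 8321 .nil)))) (.node (.node (.I .tdb (.c 0 (.c 48 (.c 32 (.c 40 .nil)))) (.r 24 (.b 2113 .nil))) (.I .tdp (.c 24 (.c 40 (.c 18433 (.c 16 .nil)))) (.b 8257 .nil))) (.node (.I .tdb (.c 0 (.c 48 (.c 16 (.c 40 .nil)))) (.r 24 (.b 8257 .nil))) (.I .tdb (.c 0 (.c 48 (.c 8 (.c 24 .nil)))) (.l 40 (.b 8321 .nil)))))))) (.node (.node (.node (.node (.node (.I .com (.c 15038454533712969 (.c 40 .nil)) (.b 8321 .nil)) (.I .adp (.c 21099011 (.c 48 (.c 32 .nil))) (.b 2113 .nil))) (.node (.I .adp (.c 21099011 (.c 48 (.c 16 .nil))) (.b 8257 .nil)) (.I .adp (.c 21099011 (.c 48 (.c 8 .nil)))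 (.b 8321 .nil)))) (.node (.node (.I .tdb (.c 0 (.c 40 (.c 32 (.c 48 .nil)))) (.r 24 (.b 2113 .nil))) (.I .jac (.c 12929 (.c 24 (.c 48 .nil))) (.l 0 (.b 8257 .nil)))) (.node (.I .adp (.c 0 (.c 14306386471475043145 (.c 8257 .nil))) .nil) (.I .jac (.c 2379903823379378185 (.c 16 (.c 40 .nil))) (.l 0 .nil))))) (.node (.node (.node (.I .jac (.c 545424777 (.c 16 (.c 40 .nil))) (.b 24 (.l 0 .nil))) (.I .jac (.c 545424585 (.c 12929 (.c 48 .nil))) (.l 0 .nil))) (.node (.I .jac (.c 8257 (.c 1337272713 (.c 24 .nil))) (.l 0 .nil)) (.I .jac (.c 0 (.c 8 (.c 32 .nil))) (.r 14306386471475043145 .nil)))) (.node (.node (.I .jac (.c 545424713 (.c 18561 (.c 24 .nil))) (.l 0 .nil)) (.I .jac (.c 545424713 (.c 16 (.c 48 .nil))) (.b 24 (.l 0 .nil)))) (.node (.I .jac (.c 8257 (.c 16 (.c 24 .nil))) (.b 48 (.b 40 (.l 0 .nil)))) (.I .jac (.c 2379905498923998025 (.c 16 (.c 40 .nil))) (.l 0 .nil)))))) (.node (.node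 (.node (.node (.I .jac (.c 8257 (.c 12929 (.c 24 .nil))) (.b 48 (.l 0 .nil))) (.I .jac (.c 8257 (.c 16 (.c 40 .nil))) (.b 24 (.b 48 (.l 0 .nil))))) (.node (.I .adp (.c 0 (.c 14025210098083633993 (.c 8321 .nil))) .nil) (.I .jac (.c 14025210098083633993 (.c 16 (.c 32 .nil))) (.l 0 .nil)))) (.node (.node (.I .jac (.c 0 (.c 16 (.c 32 .nil))) (.r 14025210098083633993 .nil)) (.I .adp (.c 0 (.c 59934268409707442121 (.c 8321 .nil))) .nil)) (.node (.I .jac (.c 59934268409707442121 (.c 16 (.c 32 .nil))) (.l 0 .nil)) (.I .jac (.c 0 (.c 16 (.c 32 .nil))) (.r 59934268409707442121 .nil))))) (.node (.node (.node (.I .jac (.c 14025206030552608777 (.c 16 (.c 32 .nil))) (.l 0 .nil)) (.I .adp (.c 0 (.c 60768084239834527561 (.c 8257 .nil))) .nil)) (.node (.I .jac (.c 8257 (.c 2756086089 (.c 24 .nil))) (.l 0 .nil)) (.I .jac (.c 8257 (.c 18561 (.c 40 .nil))) (.b 24 (.l 0 .nil))))) (.node (.node (.I .jac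 (.c 8257 (.c 16 (.c 48 .nil))) (.b 40 (.b 24 (.l 0 .nil)))) (.I .jac (.c 0 (.c 8 (.c 32 .nil))) (.r 60768084239834527561 .nil))) (.node (.I .adp (.c 0 (.c 257801270351607817 (.c 8257 .nil))) .nil) (.I .jac (.c 8257 (.c 16 (.c 24 .nil))) (.b 40 (.b 48 (.l 0 .nil))))))))))

noncomputable def c2_163 : Tr := (.node (.node (.node (.node (.node (.node (.I .jac (.c 0 (.c 8 (.c 32 .nil))) (.r 257801270351607817 .nil)) (.I .jac (.c 59934274015313491785 (.c 16 (.c 32 .nil))) (.l 0 .nil))) (.node (.I .adp (.c 0 (.c 244148848929896457 (.c 8321 .nil))) .nil) (.I .jac (.c 0 (.c 16 (.c 32 .nil))) (.r 244148848929896457 .nil)))) (.node (.node (.I .adp (.c 0 (.c 15456253916349641 (.c 8257 .nil))) .nil) (.I .jac (.c 0 (.c 8 (.c 32 .nil))) (.r 15456253916349641 .nil))) (.node (.I .adp (.c 0 (.c 15456208906582281 (.c 8257 .nil))) .nil) (.I .jac (.c 0 (.c 8 (.c 32 .nil))) (.r 15456208906582281 .nil)))))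 (.node (.node (.node (.I .adp (.c 0 (.c 3561389332330953 (.c 8257 .nil))) .nil) (.I .jac (.c 0 (.c 8 (.c 32 .nil))) (.r 3561389332330953 .nil))) (.node (.I .tdb (.c 24 (.c 48 (.c 0 (.c 32 .nil)))) (.b 8 (.r 12929 .nil))) (.I .tdb (.c 8 (.c 32 (.c 18625 (.c 0 .nil)))) (.r 12929 .nil)))) (.node (.node (.I .tdb (.c 8 (.c 32 (.c 18625 (.c 0 .nil)))) (.b 12929 .nil)) (.I .tdb (.c 8 (.c 32 (.c 12929 (.c 0 .nil)))) (.b 18625 .nil))) (.node (.I .tdb (.c 8 (.c 32 (.c 12929 (.c 18625 .nil)))) (.b 0 .nil)) (.I .jac (.c 16 (.c 24 (.c 43954947 .nil))) (.b 8 (.b 0 .nil))))))) (.node (.node (.node (.node (.I .tdb (.c 16 (.c 40 (.c 18625 (.c 32 .nil)))) (.b 8 (.b 0 .nil))) (.I .tdb (.c 24 (.c 48 (.c 32 (.c 40 .nil)))) (.b 16 (.b 8 (.b 0 .nil))))) (.node (.I .jac (.c 3561367726845385 (.c 16 (.c 32 .nil))) (.l 0 .nil)) (.I .tdb (.c 8 (.c 48 (.c 16 (.c 40 .nil)))) (.b 24 (.b 32 (.l 0 .nil)))))) (.node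 (.node (.I .tdb (.c 24 (.c 18497 (.c 32 (.c 40 .nil)))) (.b 16 (.l 0 .nil))) (.I .tdb (.c 16 (.c 32 (.c 2737112265 (.c 40 .nil)))) (.l 0 .nil))) (.node (.I .jac (.c 2737112265 (.c 16 (.c 32 .nil))) (.r 40 (.l 0 .nil))) (.I .tdb (.c 16 (.c 32 (.c 2737112265 (.c 40 .nil)))) (.b 0 .nil))))) (.node (.node (.node (.I .jac (.c 8321 (.c 24 (.c 48 .nil))) (.l 12865 (.l 0 .nil))) (.I .tdp (.c 12865 (.c 18625 (.c 0 (.c 8321 .nil)))) .nil)) (.node (.I .tdb (.c 24 (.c 48 (.c 0 (.c 32 .nil)))) (.b 16 (.r 12865 .nil))) (.I .tdb (.c 16 (.c 32 (.c 18625 (.c 0 .nil)))) (.r 12865 .nil)))) (.node (.node (.I .tdb (.c 16 (.c 32 (.c 18625 (.c 0 .nil)))) (.b 12865 .nil)) (.I .tdb (.c 16 (.c 32 (.c 12865 (.c 0 .nil)))) (.b 18625 .nil))) (.node (.I .tdb (.c 16 (.c 32 (.c 12865 (.c 18625 .nil)))) (.b 0 .nil)) (.I .adp (.c 0 (.c 15038498931046793 (.c 8257 .nil))) .nil)))))) (.node (.node (.node (.node (.node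 (.I .jac (.c 0 (.c 8 (.c 32 .nil))) (.r 15038498931046793 .nil)) (.I .jac (.c 8257 (.c 24 (.c 40 .nil))) (.l 18561 (.l 0 .nil)))) (.node (.I .tdb (.c 24 (.c 40 (.c 0 (.c 32 .nil)))) (.b 8 (.r 18561 .nil))) (.I .tdb (.c 8 (.c 32 (.c 12993 (.c 0 .nil)))) (.b 18561 .nil)))) (.node (.node (.I .tdb (.c 8 (.c 32 (.c 18561 (.c 0 .nil)))) (.b 12993 .nil)) (.I .tdb (.c 8 (.c 32 (.c 12993 (.c 18561 .nil)))) (.b 0 .nil))) (.node (.I .tdb (.c 24 (.c 40 (.c 18561 (.c 32 .nil)))) (.b 8 (.b 0 .nil))) (.I .adp (.c 0 (.c 15038454533713289 (.c 8321 .nil))) .nil)))) (.node (.node (.node (.I .jac (.c 0 (.c 16 (.c 32 .nil))) (.r 15038454533713289 .nil)) (.I .tdb (.c 16 (.c 32 (.c 12993 (.c 18497 .nil)))) (.l 0 .nil))) (.node (.I .tdb (.c 24 (.c 40 (.c 18497 (.c 16 .nil)))) (.b 32 (.l 0 .nil))) (.I .tdb (.c 24 (.c 40 (.c 18497 (.c 32 .nil)))) (.b 16 (.l 0 .nil))))) (.node (.node (.I .tdb (.c 8 (.c 48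 (.c 0 (.c 32 .nil)))) (.b 16 (.l 12993 .nil))) (.I .tdb (.c 24 (.c 40 (.c 0 (.c 16 .nil)))) (.b 32 (.r 18497 .nil)))) (.node (.I .tdb (.c 16 (.c 32 (.c 12993 (.c 0 .nil)))) (.r 18497 .nil)) (.I .tdb (.c 16 (.c 32 (.c 12993 (.c 0 .nil)))) (.b 18497 .nil)))))) (.node (.node (.node (.node (.I .tdb (.c 16 (.c 32 (.c 18497 (.c 0 .nil)))) (.b 12993 .nil)) (.I .tdb (.c 16 (.c 32 (.c 12993 (.c 18497 .nil)))) (.b 0 .nil))) (.node (.I .tdb (.c 24 (.c 40 (.c 18497 (.c 32 .nil)))) (.b 16 (.b 0 .nil))) (.I .tdb (.c 16 (.c 32 (.c 0 (.c 48 .nil)))) (.b 1324065993 .nil)))) (.node (.node (.I .com (.c 89098986658138672183242889792716518669646882409277971683032367817 (.c 24 .nil)) .nil) (.I .jac (.c 43655171 (.c 16 (.c 40 .nil))) (.b 8 (.l 24 .nil)))) (.node (.I .com (.c 27664030750838856656340776335290434406600291214972717943954874774217 (.c 24 .nil)) .nil) (.I .jac (.c 8257 (.c 40 (.c 48 .nil)))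 (.l 4737 (.l 0 .nil)))))) (.node (.node (.node (.I .tdb (.c 16 (.c 32 (.c 2737112393 (.c 24 .nil)))) (.l 0 .nil)) (.I .jac (.c 2737112393 (.c 16 (.c 32 .nil))) (.r 24 (.l 0 .nil)))) (.node (.I .com (.c 89098986658132392148749725166171908722226795453828911740370993929 (.c 24 .nil)) .nil) (.I .jac (.c 43655171 (.c 8 (.c 40 .nil))) (.b 16 (.l 24 .nil))))) (.node (.node (.I .com (.c 27664030750838856656340776335288530206022995338134904036724695338761 (.c 24 .nil)) .nil) (.I .tdb (.c 16 (.c 32 (.c 0 (.c 24 .nil)))) (.b 1324066185 .nil))) (.node (.I .adp (.c 16 (.c 32 (.c 0 .nil))) (.b 14025210098083633993 .nil)) (.I .com (.c 8193 (.c 16 .nil)) (.b 14025210098083633993 .nil))))))))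

noncomputable def c2_164 : Tr := (.node (.node (.node (.node (.node (.node (.I .adp (.c 8193 (.c 16 (.c 14025210098083633993 .nil))) .nil) (.I .adp (.c 2049 (.c 32 (.c 14025210098083633993 .nil))) .nil)) (.node (.I .adp (.c 16 (.c 32 (.c 0 .nil))) (.b 14025206030552608777 .nil)) (.I .com (.c 8193 (.c 16 .nil)) (.b 14025206030552608777 .nil)))) (.node (.node (.I .adp (.c 8193 (.c 16 (.c 14025206030552608777 .nil))) .nil) (.I .adp (.c 2049 (.c 32 (.c 14025206030552608777 .nil))) .nil)) (.node (.I .adp (.c 16 (.c 32 (.c 8 .nil))) (.b 13748198893136698185 .nil)) (.I .com (.c 8257 (.c 16 .nil)) (.b 13748198893136698185 .nil))))) (.node (.node (.node (.I .adp (.c 8257 (.c 16 (.c 13748198893136698185 .nil))) .nil) (.I .com (.c 1512103782441961064963223238430258353929 (.c 8257 .nil)) .nil)) (.node (.I .adp (.c 2113 (.c 32 (.c 13748198893136698185 .nil))) .nil) (.I .adp (.c 16 (.c 32 (.c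 8 .nil))) (.b 59109068451510808521 .nil)))) (.node (.node (.I .com (.c 8257 (.c 16 .nil)) (.b 59109068451510808521 .nil)) (.I .adp (.c 8257 (.c 16 (.c 59109068451510808521 .nil))) .nil)) (.node (.I .com (.c 27951055785643122968540376538297009659657 (.c 8257 .nil)) .nil) (.I .com (.c 27951055785643122968540376538297009659785 (.c 2113 .nil)) .nil))))) (.node (.node (.node (.node (.I .adp (.c 2113 (.c 32 (.c 231046163358604233 .nil))) .nil) (.I .adp (.c 8257 (.c 16 (.c 13748194865974800393 .nil))) .nil)) (.node (.I .com (.c 1512102896582526877926683197569543635721 (.c 8257 .nil)) .nil) (.I .com (.c 1512102896582526877926683197569543635849 (.c 2113 .nil)) .nil))) (.node (.node (.I .adp (.c 2049 (.c 32 (.c 59934274015313491785 .nil))) .nil) (.I .adp (.c 16 (.c 32 (.c 8 .nil))) (.b 59109074018392946505 .nil))) (.node (.I .com (.c 8257 (.c 16 .nil)) (.b 59109074018392946505 .nil)) (.I .adp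 (.c 8257 (.c 16 (.c 59109074018392946505 .nil))) .nil)))) (.node (.node (.node (.I .com (.c 27951061050494848579379785769086333720457 (.c 2113 .nil)) .nil) (.I .adp (.c 2113 (.c 32 (.c 231045989336561673 .nil))) .nil)) (.node (.I .adp (.c 8193 (.c 16 (.c 15456253916349577 .nil))) .nil) (.I .adp (.c 2049 (.c 32 (.c 15456253916349577 .nil))) .nil))) (.node (.node (.I .adp (.c 8257 (.c 16 (.c 15456253916349513 .nil))) .nil) (.I .adp (.c 2113 (.c 32 (.c 15456253916349513 .nil))) .nil)) (.node (.I .adp (.c 2737112265 (.c 40 (.c 537002121 .nil))) .nil) (.I .adp (.c 174695817 (.c 40 (.c 537002121 .nil))) .nil)))))) (.node (.node (.node (.node (.node (.I .jac (.c 537002121 (.c 24 (.c 48 .nil))) (.l 12865 .nil)) (.I .adp (.c 174695817 (.c 40 (.c 33587465 .nil))) .nil)) (.node (.I .adp (.c 12865 (.c 18625 (.c 33587465 .nil))) .nil) (.I .jac (.c 2718204105 (.c 8257 (.c 16 .nil))) (.r 40 .nil))))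 (.node (.node (.I .adp (.c 169943433 (.c 40 (.c 545424521 .nil))) .nil) (.I .jac (.c 12801 (.c 8257 (.c 16 .nil))) (.r 18625 .nil))) (.node (.I .jac (.c 2718204105 (.c 8 (.c 16 .nil))) (.b 32 (.r 40 .nil))) (.I .jac (.c 12801 (.c 8 (.c 16 .nil))) (.b 32 (.r 18625 .nil)))))) (.node (.node (.node (.I .adp (.c 8193 (.c 16 (.c 15456163896880393 .nil))) .nil) (.I .adp (.c 2049 (.c 32 (.c 15456163896880393 .nil))) .nil)) (.node (.I .adp (.c 2049 (.c 32 (.c 3561367726845385 .nil))) .nil) (.I .jac (.c 598967998054665 (.c 8 (.c 48 .nil))) (.r 40 .nil)))) (.node (.node (.I .jac (.c 537002185 (.c 8 (.c 48 .nil))) (.r 40 (.r 16 .nil))) (.I .ass (.c 42576913200413542961749526065342513865 (.c 40 (.c 16 .nil))) .nil)) (.node (.I .com (.c 16 (.c 40 .nil)) (.l 42576913200413542961749526065342513865 .nil)) (.I .ass (.c 42576872605845451114770277207992337225 (.c 40 (.c 16 .nil))) .nil))))) (.node (.node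 (.node (.node (.I .com (.c 16 (.c 40 .nil)) (.l 42576872605845451114770277207992337225 .nil)) (.I .ass (.c 42576913200413531150059165447389106185 (.c 40 (.c 16 .nil))) .nil)) (.node (.I .com (.c 16 (.c 40 .nil)) (.l 42576913200413531150059165447389106185 .nil)) (.I .tdb (.c 24 (.c 18497 (.c 32 (.c 40 .nil)))) (.l 2049 .nil)))) (.node (.node (.I .tdb (.c 8 (.c 48 (.c 32 (.c 40 .nil)))) (.b 24 (.l 2049 .nil))) (.I .jac (.c 33587401 (.c 8 (.c 48 .nil))) (.r 40 (.r 32 .nil)))) (.node (.I .ass (.c 651591722123579838450590277894857 (.c 40 (.c 32 .nil))) .nil) (.I .com (.c 32 (.c 40 .nil)) (.l 651591722123579838450590277894857 .nil))))) (.node (.node (.node (.I .ass (.c 651581789439159100050097116709705 (.c 40 (.c 32 .nil))) .nil) (.I .com (.c 32 (.c 40 .nil)) (.l 651581789439159100050097116709705 .nil))) (.node (.I .ass (.c 651591722123533630921387187294217 (.c 40 (.c 32 .nil))) .nil)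 (.I .com (.c 32 (.c 40 .nil)) (.l 651591722123533630921387187294217 .nil)))) (.node (.node (.I .tdb (.c 4673 (.c 48 (.c 16 (.c 40 .nil)))) (.l 8193 .nil)) (.I .tdb (.c 8 (.c 24 (.c 40 (.c 16 .nil)))) (.b 48 (.l 8193 .nil)))) (.node (.I .ass (.c 651581789439131375743888515045385 (.c 40 (.c 32 .nil))) .nil) (.I .com (.c 32 (.c 40 .nil)) (.l 651581789439131375743888515045385 .nil))))))))

noncomputable def c2_165 : Tr := (.node (.node (.node (.node (.node (.node (.I .adp (.c 12865 (.c 18625 (.c 8652803 .nil))) .nil) (.I .jac (.c 8652803 (.c 8 (.c 40 .nil))) (.r 18625 .nil))) (.node (.I .adp (.c 8193 (.c 16 (.c 2775227922 .nil))) .nil) (.I .tdb (.c 8 (.c 40 (.c 18625 (.c 16 .nil)))) (.l 8193 .nil)))) (.node (.node (.I .tdb (.c 24 (.c 48 (.c 8 (.c 16 .nil)))) (.b 40 (.l 8193 .nil))) (.I .adp (.c 12865 (.c 18625 (.c 16 .nil))) (.l 8193 .nil))) (.node (.I .adp (.c 12865 (.c 18625 (.c 8193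 .nil))) (.r 16 .nil)) (.I .jac (.c 8193 (.c 24 (.c 48 .nil))) (.l 12865 (.r 16 .nil)))))) (.node (.node (.node (.I .com (.c 2306972423229201225 (.c 12865 .nil)) (.r 16 .nil)) (.I .jac (.c 8193 (.c 8 (.c 40 .nil))) (.r 18625 (.r 16 .nil)))) (.node (.I .jac (.c 16 (.c 24 (.c 48 .nil))) (.l 2306969673777850313 .nil)) (.I .tdp (.c 12865 (.c 18625 (.c 16 (.c 8193 .nil)))) .nil))) (.node (.node (.I .tdb (.c 0 (.c 32 (.c 18625 (.c 16 .nil)))) (.r 12865 .nil)) (.I .tdb (.c 24 (.c 48 (.c 16 (.c 32 .nil)))) (.b 0 (.r 12865 .nil)))) (.node (.I .tdb (.c 8 (.c 40 (.c 18625 (.c 32 .nil)))) (.l 2049 .nil)) (.I .jac (.c 12801 (.c 2803779 (.c 48 .nil))) (.r 32 .nil)))))) (.node (.node (.node (.node (.I .tdb (.c 24 (.c 48 (.c 0 (.c 8 .nil)))) (.b 40 (.b 16 (.r 32 .nil)))) (.I .adp (.c 16 (.c 32 (.c 8 .nil))) (.b 15456118887244041 .nil))) (.node (.I .com (.c 8257 (.c 16 .nil)) (.b 15456118887244041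 .nil)) (.I .adp (.c 8257 (.c 16 (.c 15456118887244041 .nil))) .nil))) (.node (.node (.I .adp (.c 2113 (.c 32 (.c 15456118887244041 .nil))) .nil) (.I .adp (.c 8257 (.c 16 (.c 3561346121425353 .nil))) .nil)) (.node (.I .adp (.c 2113 (.c 32 (.c 3561346121425353 .nil))) .nil) (.I .adp (.c 2718204105 (.c 40 (.c 8652867 .nil))) .nil)))) (.node (.node (.node (.I .adp (.c 8257 (.c 16 (.c 59109068473256441362 .nil))) .nil) (.I .tdb (.c 0 (.c 48 (.c 16 (.c 40 .nil)))) (.b 24 (.l 8257 .nil)))) (.node (.I .adp (.c 2718204105 (.c 40 (.c 16 .nil))) (.l 8257 .nil)) (.I .ass (.c 8257 (.c 59109068451510808329 (.c 40 .nil))) .nil))) (.node (.node (.I .ass (.c 59109068451510808329 (.c 8257 (.c 40 .nil))) .nil) (.I .com (.c 8257 (.c 59109068451510808329 .nil)) (.r 40 .nil))) (.node (.I .ass (.c 2718204105 (.c 8257 (.c 12929 .nil))) .nil) (.I .adp (.c 2718204105 (.c 40 (.c 8257 .nil))) (.r 16 .nil)))))))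 (.node (.node (.node (.node (.node (.I .jac (.c 2718204105 (.c 8 (.c 32 .nil))) (.r 40 (.r 16 .nil))) (.I .ass (.c 27951055785643122908012690443949941766857 (.c 40 (.c 16 .nil))) .nil)) (.node (.I .com (.c 16 (.c 40 .nil)) (.l 27951055785643122908012690443949941766857 .nil)) (.I .ass (.c 27951055785643122726429632160908738482057 (.c 40 (.c 16 .nil))) .nil))) (.node (.node (.I .com (.c 16 (.c 40 .nil)) (.l 27951055785643122726429632160908738482057 .nil)) (.I .ass (.c 2718204105 (.c 545424713 (.c 16 .nil))) .nil)) (.node (.I .tdp (.c 2718204105 (.c 40 (.c 16 (.c 8257 .nil)))) .nil) (.I .tdb (.c 8 (.c 32 (.c 16 (.c 40 .nil)))) (.r 2718204105 .nil))))) (.node (.node (.node (.I .com (.c 2718204105 (.c 3491710045130057 .nil)) .nil) (.I .com (.c 2718204105 (.c 3632084291164297 .nil)) .nil)) (.node (.I .adp (.c 2113 (.c 32 (.c 59109068473256441362 .nil))) .nil) (.I .tdb (.c 0 (.c 48 (.c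 32 (.c 40 .nil)))) (.b 24 (.l 2113 .nil))))) (.node (.node (.I .adp (.c 2718204105 (.c 40 (.c 32 .nil))) (.l 2113 .nil)) (.I .adp (.c 2718204105 (.c 40 (.c 2113 .nil))) (.r 32 .nil))) (.node (.I .jac (.c 2718204105 (.c 8 (.c 16 .nil))) (.r 40 (.r 32 .nil))) (.I .tdp (.c 2718204105 (.c 40 (.c 2113 (.c 32 .nil)))) .nil))))) (.node (.node (.node (.node (.I .com (.c 2718204105 (.c 3632062472293577 .nil)) .nil) (.I .tdb (.c 8 (.c 32 (.c 16 (.c 40 .nil)))) (.r 169943433 .nil))) (.node (.I .com (.c 105533754468739142964158285779977 (.c 2113 .nil)) .nil) (.I .com (.c 1760086083483798984267018994226121 (.c 8257 .nil)) .nil))) (.node (.node (.I .ass (.c 8257 (.c 1310924937 (.c 18625 .nil))) .nil) (.I .ass (.c 1310924937 (.c 8257 (.c 18625 .nil))) .nil)) (.node (.I .com (.c 8257 (.c 1310924937 .nil)) (.r 18625 .nil)) (.I .ass (.c 8257 (.c 12801 (.c 179513737 .nil))) .nil)))) (.node (.node (.node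 (.I .ass (.c 12801 (.c 8257 (.c 179513737 .nil))) .nil) (.I .com (.c 8257 (.c 12801 .nil)) (.r 179513737 .nil))) (.node (.I .jac (.c 12801 (.c 8 (.c 32 .nil))) (.r 18625 (.r 16 .nil))) (.I .jac (.c 16 (.c 24 (.c 48 .nil))) (.l 13748196208362033865 .nil)))) (.node (.node (.I .tdb (.c 0 (.c 40 (.c 18625 (.c 8 .nil)))) (.b 16 (.r 32 .nil))) (.I .tdb (.c 0 (.c 40 (.c 18625 (.c 16 .nil)))) (.b 8 (.r 32 .nil)))) (.node (.I .tdb (.c 24 (.c 48 (.c 0 (.c 16 .nil)))) (.b 40 (.b 8 (.r 32 .nil)))) (.I .ass (.c 13748193523587631817 (.c 18625 (.c 32 .nil))) .nil)))))))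

noncomputable def c2_166 : Tr := (.node (.node (.node (.node (.node (.node (.I .ass (.c 13748192181200529161 (.c 18625 (.c 32 .nil))) .nil) (.I .adp (.c 1324065993 (.c 48 (.c 537002121 .nil))) .nil)) (.node (.I .adp (.c 174695753 (.c 48 (.c 537002121 .nil))) .nil) (.I .adp (.c 18497 (.c 12993 (.c 33587465 .nil))) .nil))) (.node (.node (.I .jac (.c 1310925001 (.c 8 (.c 32 .nil))) (.b 16 (.r 48 .nil))) (.I .adp (.c 169943369 (.c 48 (.c 545424521 .nil))) .nil)) (.node (.I .jac (.c 18433 (.c 2113 (.c 32 .nil))) (.r 12993 .nil)) (.I .jac (.c 1310925001 (.c 2113 (.c 32 .nil))) (.r 48 .nil))))) (.node (.node (.node (.I .jac (.c 1310925001 (.c 8 (.c 16 .nil))) (.b 32 (.r 48 .nil))) (.I .adp (.c 16 (.c 32 (.c 0 .nil))) (.b 15038454533713289 .nil))) (.node (.I .com (.c 8193 (.c 16 .nil)) (.b 15038454533713289 .nil)) (.I .adp (.c 8193 (.c 16 (.c 15038454533713289 .nil))) .nil))) (.node (.node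 (.I .jac (.c 8652803 (.c 24 (.c 40 .nil))) (.l 18497 .nil)) (.I .com (.c 2870101301548905401794626098121 (.c 18497 .nil)) .nil)) (.node (.I .jac (.c 16 (.c 24 (.c 40 .nil))) (.l 18497 (.l 8193 .nil))) (.I .com (.c 2306971873338799945 (.c 18497 .nil)) (.r 16 .nil)))))) (.node (.node (.node (.node (.I .com (.c 2306970773558194121 (.c 18497 .nil)) (.r 16 .nil)) (.I .ass (.c 2306972423229201097 (.c 12993 (.c 16 .nil))) .nil)) (.node (.I .jac (.c 16 (.c 24 (.c 40 .nil))) (.l 2306972423229201097 .nil)) (.I .com (.c 16 (.c 12993 .nil)) (.l 2306972423229201097 .nil)))) (.node (.node (.I .jac (.c 0 (.c 21307523 (.c 24 .nil))) (.r 18497 .nil)) (.I .tdb (.c 24 (.c 40 (.c 16 (.c 32 .nil)))) (.b 0 (.r 18497 .nil)))) (.node (.I .com (.c 9024908047478729 (.c 18497 .nil)) (.r 32 .nil)) (.I .tdb (.c 0 (.c 16 (.c 32 (.c 12993 .nil)))) (.r 18497 .nil))))) (.node (.node (.node (.I .ass (.c 42576913200413540599411453941751701193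 (.c 48 (.c 16 .nil))) .nil) (.I .com (.c 16 (.c 48 .nil)) (.l 42576913200413540599411453941751701193 .nil))) (.node (.I .ass (.c 42576913200413531150059165447389106121 (.c 48 (.c 16 .nil))) .nil) (.I .com (.c 16 (.c 48 .nil)) (.l 42576913200413531150059165447389106121 .nil)))) (.node (.node (.I .tdb (.c 24 (.c 12865 (.c 32 (.c 48 .nil)))) (.l 2049 .nil)) (.I .tdb (.c 8 (.c 40 (.c 32 (.c 48 .nil)))) (.b 24 (.l 2049 .nil)))) (.node (.I .jac (.c 33587401 (.c 8 (.c 40 .nil))) (.r 48 (.r 32 .nil))) (.I .ass (.c 651601654921513992739479373958985 (.c 48 (.c 32 .nil))) .nil)))))) (.node (.node (.node (.node (.node (.I .com (.c 32 (.c 48 .nil)) (.l 651601654921513992739479373958985 .nil)) (.I .tdb (.c 4673 (.c 40 (.c 16 (.c 48 .nil)))) (.l 8193 .nil))) (.node (.I .tdb (.c 8 (.c 24 (.c 48 (.c 16 .nil)))) (.b 40 (.l 8193 .nil))) (.I .ass (.c 651601654921532475892036648801993 (.c 48 (.c 32 .nil)))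 .nil))) (.node (.node (.I .com (.c 32 (.c 48 .nil)) (.l 651601654921532475892036648801993 .nil)) (.I .adp (.c 16 (.c 32 (.c 8 .nil))) (.b 15038410136445321 .nil))) (.node (.I .com (.c 8257 (.c 16 .nil)) (.b 15038410136445321 .nil)) (.I .ass (.c 8257 (.c 2718204041 (.c 12993 .nil))) .nil)))) (.node (.node (.node (.I .com (.c 8257 (.c 2718204041 .nil)) (.r 12993 .nil)) (.I .ass (.c 8257 (.c 18433 (.c 179513673 .nil))) .nil)) (.node (.I .ass (.c 18433 (.c 8257 (.c 179513673 .nil))) .nil) (.I .com (.c 8257 (.c 18433 .nil)) (.r 179513673 .nil)))) (.node (.node (.I .ass (.c 59109071234951844553 (.c 12993 (.c 16 .nil))) .nil) (.I .jac (.c 16 (.c 24 (.c 40 .nil))) (.l 59109071234951844553 .nil))) (.node (.I .com (.c 16 (.c 12993 .nil)) (.l 59109071234951844553 .nil)) (.I .ass (.c 59109062884628932489 (.c 12993 (.c 16 .nil))) .nil))))) (.node (.node (.node (.node (.I .com (.c 16 (.c 12993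 .nil)) (.l 59109062884628932489 .nil)) (.I .jac (.c 8 (.c 21307523 (.c 24 .nil))) (.r 18433 .nil))) (.node (.I .tdb (.c 24 (.c 40 (.c 8 (.c 16 .nil)))) (.b 32 (.r 18433 .nil))) (.I .com (.c 18433 (.c 105536290384979630292350780033865 .nil)) .nil))) (.node (.node (.I .com (.c 18433 (.c 97536312314093582022210145440649 .nil)) .nil) (.I .com (.c 18433 (.c 3632084291201617 .nil)) .nil)) (.node (.I .tdb (.c 0 (.c 48 (.c 16 (.c 24 .nil)))) (.b 40 (.b 8 (.r 32 .nil)))) (.I .tdb (.c 24 (.c 40 (.c 8 (.c 32 .nil)))) (.b 16 (.r 18433 .nil)))))) (.node (.node (.node (.I .adp (.c 1310925001 (.c 48 (.c 8652867 .nil))) .nil) (.I .adp (.c 8257 (.c 16 (.c 13748194876462200402 .nil))) .nil)) (.node (.I .tdb (.c 24 (.c 12801 (.c 16 (.c 48 .nil)))) (.l 8257 .nil)) (.I .adp (.c 1310925001 (.c 48 (.c 16 .nil))) (.l 8257 .nil)))) (.node (.node (.I .adp (.c 1310925001 (.c 48 (.c 8257 .nil))) (.r 16 .nil))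 (.I .jac (.c 1310925001 (.c 8 (.c 32 .nil))) (.r 48 (.r 16 .nil)))) (.node (.I .ass (.c 1310925001 (.c 545424777 (.c 16 .nil))) .nil) (.I .tdp (.c 1310925001 (.c 48 (.c 16 (.c 8257 .nil)))) .nil)))))))

noncomputable def c2_167 : Tr := (.node (.node (.node (.node (.node (.node (.I .tdb (.c 8 (.c 32 (.c 16 (.c 48 .nil)))) (.r 1310925001 .nil)) (.I .tdb (.c 24 (.c 12801 (.c 32 (.c 48 .nil)))) (.l 2113 .nil))) (.node (.I .tdb (.c 0 (.c 40 (.c 32 (.c 48 .nil)))) (.b 24 (.l 2113 .nil))) (.I .ass (.c 1512102896582526821614077026536761750217 (.c 48 (.c 32 .nil))) .nil))) (.node (.node (.I .com (.c 32 (.c 48 .nil)) (.l 1512102896582526821614077026536761750217 .nil)) (.I .ass (.c 1512102896582526807535925483778566442761 (.c 48 (.c 32 .nil))) .nil)) (.node (.I .com (.c 32 (.c 48 .nil)) (.l 1512102896582526807535925483778566442761 .nil)) (.I .com (.c 1310925001 (.c 15246236343241929 .nil))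 .nil)))) (.node (.node (.node (.I .tdb (.c 4609 (.c 40 (.c 16 (.c 48 .nil)))) (.l 8257 .nil)) (.I .tdb (.c 0 (.c 24 (.c 48 (.c 16 .nil)))) (.b 40 (.l 8257 .nil)))) (.node (.I .ass (.c 427057993508083616106291307304383177 (.c 48 (.c 32 .nil))) .nil) (.I .com (.c 32 (.c 48 .nil)) (.l 427057993508083616106291307304383177 .nil)))) (.node (.node (.I .ass (.c 427057993508083379515198226665525001 (.c 48 (.c 32 .nil))) .nil) (.I .com (.c 32 (.c 48 .nil)) (.l 427057993508083379515198226665525001 .nil))) (.node (.I .com (.c 2737112393 (.c 24 .nil)) (.b 537002121 .nil)) (.I .com (.c 1324066185 (.c 24 .nil)) (.b 537002121 .nil)))))) (.node (.node (.node (.node (.I .adp (.c 2737112393 (.c 24 (.c 537002121 .nil))) .nil) (.I .adp (.c 1324066185 (.c 24 (.c 537002121 .nil))) .nil)) (.node (.I .jac (.c 537002121 (.c 40 (.c 48 .nil))) (.l 4673 .nil)) (.I .jac (.c 1310925193 (.c 8 (.c 32 .nil))) (.b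 16 (.r 24 .nil))))) (.node (.node (.I .jac (.c 545424521 (.c 40 (.c 48 .nil))) (.l 4609 .nil)) (.I .jac (.c 2718204233 (.c 8 (.c 16 .nil))) (.b 32 (.r 24 .nil)))) (.node (.I .adp (.c 1310925193 (.c 24 (.c 35718409 .nil))) .nil) (.I .jac (.c 1310925193 (.c 2113 (.c 32 .nil))) (.r 24 .nil))))) (.node (.node (.node (.I .jac (.c 1310925193 (.c 8 (.c 16 .nil))) (.b 32 (.r 24 .nil))) (.I .jac (.c 8652803 (.c 18497 (.c 40 .nil))) (.r 24 .nil))) (.node (.I .jac (.c 8652803 (.c 8 (.c 48 .nil))) (.b 40 (.r 24 .nil))) (.I .tdb (.c 40 (.c 18497 (.c 16 (.c 24 .nil)))) (.l 8193 .nil)))) (.node (.node (.I .jac (.c 537002313 (.c 8 (.c 48 .nil))) (.r 24 (.r 16 .nil))) (.I .ass (.c 42576872605845451114770277207992337353 (.c 24 (.c 16 .nil))) .nil)) (.node (.I .com (.c 16 (.c 24 .nil)) (.l 42576872605845451114770277207992337353 .nil)) (.I .ass (.c 651606621363089303044061530656713 (.c 24 (.c 32 .nil)))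 .nil)))))) (.node (.node (.node (.node (.node (.I .jac (.c 598967998054857 (.c 8 (.c 40 .nil))) (.r 24 .nil)) (.I .jac (.c 537002377 (.c 8 (.c 40 .nil))) (.r 24 (.r 16 .nil)))) (.node (.I .ass (.c 42576872605845448752433331259473584137 (.c 24 (.c 16 .nil))) .nil) (.I .com (.c 16 (.c 24 .nil)) (.l 42576872605845448752433331259473584137 .nil)))) (.node (.node (.I .jac (.c 33587593 (.c 8 (.c 40 .nil))) (.r 24 (.r 32 .nil))) (.I .ass (.c 651606621363126269490052522057417 (.c 24 (.c 32 .nil))) .nil)) (.node (.I .ass (.c 9024908047478473 (.c 18753 (.c 32 .nil))) .nil) (.I .com (.c 32 (.c 18753 .nil)) (.l 9024908047478473 .nil))))) (.node (.node (.node (.I .jac (.c 32 (.c 40 (.c 48 .nil))) (.l 9024839260612425 .nil)) (.I .adp (.c 2718204233 (.c 24 (.c 8652867 .nil))) .nil)) (.node (.I .adp (.c 8257 (.c 16 (.c 59109074040138580370 .nil))) .nil) (.I .adp (.c 2718204233 (.c 24 (.c 16 .nil)))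 (.l 8257 .nil)))) (.node (.node (.I .ass (.c 8257 (.c 2718204233 (.c 4737 .nil))) .nil) (.I .com (.c 8257 (.c 2718204233 .nil)) (.r 4737 .nil))) (.node (.I .adp (.c 2718204233 (.c 24 (.c 8257 .nil))) (.r 16 .nil)) (.I .jac (.c 2718204233 (.c 8 (.c 32 .nil))) (.r 24 (.r 16 .nil))))))) (.node (.node (.node (.node (.I .ass (.c 27951061050494848639907477563920710974153 (.c 24 (.c 16 .nil))) .nil) (.I .com (.c 16 (.c 24 .nil)) (.l 27951061050494848639907477563920710974153 .nil))) (.node (.I .ass (.c 27951061050494848458324402179417579409289 (.c 24 (.c 16 .nil))) .nil) (.I .com (.c 16 (.c 24 .nil)) (.l 27951061050494848458324402179417579409289 .nil)))) (.node (.node (.I .ass (.c 2718204233 (.c 545424585 (.c 16 .nil))) .nil) (.I .tdp (.c 2718204233 (.c 24 (.c 16 (.c 8257 .nil)))) .nil)) (.node (.I .tdb (.c 8 (.c 32 (.c 16 (.c 24 .nil)))) (.r 2718204233 .nil)) (.I .com (.c 2718204233 (.c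 62889413446985 .nil)) .nil)))) (.node (.node (.node (.I .adp (.c 2113 (.c 32 (.c 59109074040138580370 .nil))) .nil) (.I .adp (.c 2718204233 (.c 24 (.c 32 .nil))) (.l 2113 .nil))) (.node (.I .ass (.c 2113 (.c 59109074018392946569 (.c 24 .nil))) .nil) (.I .ass (.c 59109074018392946569 (.c 2113 (.c 24 .nil))) .nil))) (.node (.node (.I .com (.c 2113 (.c 59109074018392946569 .nil)) (.r 24 .nil)) (.I .tdb (.c 40 (.c 18433 (.c 16 (.c 24 .nil)))) (.b 8 (.r 32 .nil)))) (.node (.I .tdb (.c 8 (.c 16 (.c 2718204233 (.c 24 .nil)))) (.r 32 .nil)) (.I .adp (.c 2718204233 (.c 24 (.c 2113 .nil))) (.r 32 .nil))))))))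

noncomputable def c2_168 : Tr := (.node (.node (.node (.node (.node (.node (.I .jac (.c 2718204233 (.c 8 (.c 16 .nil))) (.r 24 (.r 32 .nil))) (.I .ass (.c 27951061050494848518852093974251956531913 (.c 24 (.c 32 .nil))) .nil)) (.node (.I .ass (.c 27951061050494848458324402179417579409161 (.c 24 (.c 32 .nil))) .nil) (.I .tdp (.c 2718204233 (.c 24 (.c 2113 (.c 32 .nil)))) .nil))) (.node (.node (.I .tdb (.c 8 (.c 16 (.c 32 (.c 2718204233 .nil)))) (.l 24 .nil)) (.I .adp (.c 1310925193 (.c 24 (.c 8652867 .nil))) .nil)) (.node (.I .adp (.c 8257 (.c 16 (.c 13748198903624099730 .nil))) .nil) (.I .adp (.c 1310925193 (.c 24 (.c 16 .nil))) (.l 8257 .nil))))) (.node (.node (.node (.I .ass (.c 8257 (.c 13748198893136698121 (.c 24 .nil))) .nil) (.I .ass (.c 13748198893136698121 (.c 8257 (.c 24 .nil))) .nil)) (.node (.I .com (.c 8257 (.c 13748198893136698121 .nil)) (.r 24 .nil)) (.I .ass (.c 8257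 (.c 1310925193 (.c 4737 .nil))) .nil))) (.node (.node (.I .com (.c 8257 (.c 1310925193 .nil)) (.r 4737 .nil)) (.I .adp (.c 1310925193 (.c 24 (.c 8257 .nil))) (.r 16 .nil))) (.node (.I .jac (.c 1310925193 (.c 8 (.c 32 .nil))) (.r 24 (.r 16 .nil))) (.I .ass (.c 1512103782441961079041378905002237328073 (.c 24 (.c 16 .nil))) .nil))))) (.node (.node (.node (.node (.I .com (.c 16 (.c 24 .nil)) (.l 1512103782441961079041378905002237328073 .nil)) (.I .ass (.c 1512103782441961036806911905286300602249 (.c 24 (.c 16 .nil))) .nil)) (.node (.I .com (.c 16 (.c 24 .nil)) (.l 1512103782441961036806911905286300602249 .nil)) (.I .ass (.c 1310925193 (.c 545424585 (.c 16 .nil))) .nil))) (.node (.node (.I .tdp (.c 1310925193 (.c 24 (.c 16 (.c 8257 .nil)))) .nil) (.I .tdb (.c 8 (.c 32 (.c 16 (.c 24 .nil)))) (.r 1310925193 .nil))) (.node (.I .tdb (.c 48 (.c 12801 (.c 8 (.c 24 .nil)))) (.b 16 (.r 32 .nil)))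 (.I .tdb (.c 0 (.c 40 (.c 8 (.c 24 .nil)))) (.b 48 (.b 16 (.r 32 .nil))))))) (.node (.node (.node (.I .tdb (.c 48 (.c 12801 (.c 16 (.c 24 .nil)))) (.b 8 (.r 32 .nil))) (.I .tdb (.c 0 (.c 40 (.c 16 (.c 24 .nil)))) (.b 48 (.b 8 (.r 32 .nil))))) (.node (.I .ass (.c 1512103782441961036806911905286300602121 (.c 24 (.c 32 .nil))) .nil) (.I .ass (.c 1310925193 (.c 35718345 (.c 32 .nil))) .nil))) (.node (.node (.I .tdb (.c 8 (.c 16 (.c 32 (.c 1310925193 .nil)))) (.l 24 .nil)) (.I .jac (.c 8652867 (.c 40 (.c 48 .nil))) (.l 4609 .nil))) (.node (.I .ass (.c 8257 (.c 4609 (.c 2756086089 .nil))) .nil) (.I .ass (.c 4609 (.c 8257 (.c 2756086089 .nil))) .nil)))))) (.node (.node (.node (.node (.node (.I .com (.c 8257 (.c 4609 .nil)) (.r 2756086089 .nil)) (.I .ass (.c 8257 (.c 4609 (.c 1337272713 .nil))) .nil)) (.node (.I .ass (.c 4609 (.c 8257 (.c 1337272713 .nil))) .nil) (.I .com (.c 8257 (.c 4609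 .nil)) (.r 1337272713 .nil)))) (.node (.node (.I .jac (.c 32 (.c 40 (.c 48 .nil))) (.l 4609 (.l 2113 .nil))) (.I .ass (.c 2113 (.c 4609 (.c 2794230089 .nil))) .nil)) (.node (.I .ass (.c 4609 (.c 2113 (.c 2794230089 .nil))) .nil) (.I .com (.c 2113 (.c 4609 .nil)) (.r 2794230089 .nil))))) (.node (.node (.node (.I .ass (.c 231045467270826697 (.c 18753 (.c 32 .nil))) .nil) (.I .jac (.c 32 (.c 40 (.c 48 .nil))) (.l 231045467270826697 .nil))) (.node (.I .com (.c 32 (.c 18753 .nil)) (.l 231045467270826697 .nil)) (.I .jac (.c 32 (.c 40 (.c 48 .nil))) (.l 231045293249046281 .nil)))) (.node (.node (.I .tdb (.c 16 (.c 8193 (.c 18497 (.c 40 .nil)))) (.r 24 .nil)) (.I .tdb (.c 0 (.c 32 (.c 18497 (.c 40 .nil)))) (.b 16 (.r 24 .nil)))) (.node (.I .tdb (.c 16 (.c 8193 (.c 24 (.c 48 .nil)))) (.l 12865 .nil)) (.I .com (.c 2306970223667989513 (.c 24 .nil)) (.l 12865 .nil)))))) (.node (.node (.node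 (.node (.I .tdb (.c 16 (.c 8193 (.c 12865 (.c 24 .nil)))) (.l 48 .nil)) (.I .ass (.c 18497 (.c 24 (.c 40 .nil))) (.b 33587465 .nil))) (.node (.I .adp (.c 43356739 (.c 40 (.c 33587465 .nil))) .nil) (.I .adp (.c 18497 (.c 12994 (.c 33587465 .nil))) .nil))) (.node (.node (.I .tdb (.c 2049 (.c 32 (.c 24 (.c 40 .nil)))) (.l 18497 .nil)) (.I .tdb (.c 0 (.c 16 (.c 40 (.c 24 .nil)))) (.b 32 (.l 18497 .nil)))) (.node (.I .adp (.c 24 (.c 40 (.c 33587465 .nil))) (.l 18497 .nil)) (.I .tdp (.c 24 (.c 40 (.c 18497 (.c 33587465 .nil)))) .nil)))) (.node (.node (.node (.I .tdb (.c 8 (.c 48 (.c 16 (.c 40 .nil)))) (.b 0 (.b 32 (.r 24 .nil)))) (.I .tdb (.c 2049 (.c 32 (.c 24 (.c 40 .nil)))) (.b 18497 .nil))) (.node (.I .tdb (.c 0 (.c 16 (.c 40 (.c 24 .nil)))) (.b 32 (.b 18497 .nil))) (.I .adp (.c 12865 (.c 18626 (.c 33587465 .nil))) .nil))) (.node (.node (.I .adp (.c 24 (.c 48 (.c 33587465 .nil))) (.l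 12865 .nil)) (.I .tdp (.c 24 (.c 48 (.c 33587465 (.c 12865 .nil)))) .nil)) (.node (.I .tdb (.c 2049 (.c 32 (.c 12865 (.c 48 .nil)))) (.r 24 .nil)) (.I .tdb (.c 0 (.c 16 (.c 48 (.c 12865 .nil)))) (.b 32 (.r 24 .nil)))))))))

noncomputable def c2_169 : Tr := (.node (.node (.node (.node (.node (.node (.I .tdb (.c 8 (.c 40 (.c 16 (.c 48 .nil)))) (.b 0 (.b 32 (.r 24 .nil)))) (.I .tdb (.c 8 (.c 40 (.c 32 (.c 48 .nil)))) (.b 2049 (.r 24 .nil)))) (.node (.I .tdb (.c 2049 (.c 32 (.c 12865 (.c 24 .nil)))) (.b 48 .nil)) (.I .tdb (.c 0 (.c 16 (.c 12865 (.c 24 .nil)))) (.b 32 (.b 48 .nil))))) (.node (.node (.I .tdb (.c 2049 (.c 32 (.c 24 (.c 48 .nil)))) (.b 12865 .nil)) (.I .tdb (.c 0 (.c 16 (.c 48 (.c 24 .nil)))) (.b 32 (.b 12865 .nil)))) (.node (.I .adp (.c 4673 (.c 18754 (.c 33587465 .nil))) .nil) (.I .tdb (.c 2049 (.c 32 (.c 40 (.c 48 .nil)))) (.l 4673 .nil))))) (.node (.node (.node (.I .tdb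 (.c 0 (.c 16 (.c 40 (.c 48 .nil)))) (.b 32 (.l 4673 .nil))) (.I .adp (.c 40 (.c 48 (.c 33587465 .nil))) (.l 4673 .nil))) (.node (.I .com (.c 9024942441010185 (.c 40 .nil)) (.l 4673 .nil)) (.I .jac (.c 62886542410185 (.c 8 (.c 32 .nil))) (.l 40 .nil)))) (.node (.node (.I .tdb (.c 0 (.c 48 (.c 16 (.c 24 .nil)))) (.b 8257 (.l 40 .nil))) (.I .tdb (.c 16 (.c 8257 (.c 24 (.c 40 .nil)))) (.b 18433 .nil))) (.node (.I .tdb (.c 0 (.c 40 (.c 16 (.c 24 .nil)))) (.b 8257 (.b 48 .nil))) (.I .tdb (.c 2113 (.c 32 (.c 24 (.c 40 .nil)))) (.l 18433 .nil)))))) (.node (.node (.node (.node (.I .tdb (.c 8 (.c 16 (.c 40 (.c 24 .nil)))) (.b 32 (.l 18433 .nil))) (.I .tdb (.c 2113 (.c 32 (.c 24 (.c 40 .nil)))) (.b 18433 .nil))) (.node (.I .tdb (.c 8 (.c 16 (.c 40 (.c 24 .nil)))) (.b 32 (.b 18433 .nil))) (.I .tdb (.c 2113 (.c 32 (.c 24 (.c 48 .nil)))) (.b 12801 .nil)))) (.node (.node (.I .tdb (.c 8 (.c 16 (.c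 48 (.c 24 .nil)))) (.b 32 (.b 12801 .nil))) (.I .tdb (.c 2113 (.c 32 (.c 40 (.c 48 .nil)))) (.l 4609 .nil))) (.node (.I .tdb (.c 8 (.c 16 (.c 40 (.c 48 .nil)))) (.b 32 (.l 4609 .nil))) (.I .jac (.c 12929 (.c 24 (.c 48 .nil))) (.b 2105609 .nil))))) (.node (.node (.node (.I .jac (.c 537002185 (.c 12929 (.c 48 .nil))) (.r 8 .nil)) (.I .jac (.c 537002185 (.c 16 (.c 40 .nil))) (.b 48 (.r 8 .nil)))) (.node (.I .jac (.c 12865 (.c 16 (.c 48 .nil))) (.b 24 (.l 8193 .nil))) (.I .jac (.c 537002185 (.c 16 (.c 48 .nil))) (.b 40 (.r 8 .nil))))) (.node (.node (.I .jac (.c 18497 (.c 12929 (.c 24 .nil))) (.l 8193 .nil)) (.I .com (.c 18291662791002284158804837459398313856051162158422185398345640442637541037896585 (.c 8 .nil)) .nil)) (.node (.I .adp (.c 8 (.c 32 (.c 16 .nil))) (.b 59109068451510808521 .nil)) (.I .adp (.c 8 (.c 8321 (.c 59109068451510808521 .nil))) .nil)))))) (.node (.node (.node (.node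 (.node (.I .jac (.c 59109068451510808521 (.c 16 (.c 32 .nil))) (.l 8 .nil)) (.I .com (.c 6250092156257071185327898691570831983594040768411544467450100535893324811569969929 (.c 8 .nil)) .nil)) (.node (.I .com (.c 6250092156257071185327898691570831983536797006162547351610529844742892535786861449 (.c 8 .nil)) .nil) (.I .adp (.c 8 (.c 32 (.c 16 .nil))) (.b 231046163358604233 .nil)))) (.node (.node (.I .adp (.c 8 (.c 8321 (.c 231046163358604233 .nil))) .nil) (.I .adp (.c 8 (.c 8321 (.c 13748194865974800393 .nil))) .nil)) (.node (.I .jac (.c 13748194865974800393 (.c 16 (.c 32 .nil))) (.l 8 .nil)) (.I .com (.c 18291641358826143796487118727567224434297175000627202168555921693136786543606537 (.c 8 .nil)) .nil)))) (.node (.node (.node (.I .com (.c 18291641358826143796487118727567224431200388268426187122562074504514361177518985 (.c 8 .nil)) .nil) (.I .jac (.c 537002185 (.c 18561 (.c 40 .nil)))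 (.r 8 .nil))) (.node (.I .adp (.c 8 (.c 8321 (.c 59109074018392946505 .nil))) .nil) (.I .jac (.c 59109074018392946505 (.c 16 (.c 32 .nil))) (.l 8 .nil)))) (.node (.node (.I .com (.c 6250094510787921505645961611614566601758338462159010858872337912513231579362310921 (.c 8 .nil)) .nil) (.I .com (.c 6250094510787921505645961611614566601701094689127597408981768111258142767902946185 (.c 8 .nil)) .nil)) (.node (.I .adp (.c 8 (.c 32 (.c 16 .nil))) (.b 231045989336561673 .nil)) (.I .adp (.c 8 (.c 8321 (.c 231045989336561673 .nil))) .nil))))) (.node (.node (.node (.node (.I .adp (.c 513 (.c 32 (.c 15456253916349641 .nil))) .nil) (.I .adp (.c 18625 (.c 40 (.c 16 .nil))) (.b 2105609 .nil))) (.node (.I .com (.c 12929 (.c 18625 .nil)) (.b 2105609 .nil)) (.I .jac (.c 16 (.c 24 (.c 48 .nil))) (.r 40 (.b 2105609 .nil))))) (.node (.node (.I .adp (.c 2756085961 (.c 40 (.c 2105609 .nil))) .nil) (.I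 .adp (.c 2756085961 (.c 40 (.c 537002057 .nil))) .nil)) (.node (.I .jac (.c 537002057 (.c 18561 (.c 24 .nil))) (.r 40 .nil)) (.I .jac (.c 537002057 (.c 16 (.c 48 .nil))) (.b 24 (.r 40 .nil)))))) (.node (.node (.node (.I .adp (.c 179513737 (.c 40 (.c 537002057 .nil))) .nil) (.I .jac (.c 537002057 (.c 4737 (.c 48 .nil))) (.r 40 .nil))) (.node (.I .jac (.c 537002057 (.c 16 (.c 24 .nil))) (.b 48 (.r 40 .nil))) (.I .jac (.c 537002057 (.c 24 (.c 48 .nil))) (.l 12929 .nil)))) (.node (.node (.I .com (.c 42576872605845451114770277207992337225 (.c 12929 .nil)) .nil) (.I .adp (.c 513 (.c 32 (.c 15456208906582281 .nil))) .nil)) (.node (.I .com (.c 580749782704521 (.c 2756085961 .nil)) .nil) (.I .jac (.c 8520195 (.c 16 (.c 48 .nil))) (.b 24 (.r 40 .nil)))))))))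

noncomputable def c2_170 : Tr := (.node (.node (.node (.node (.node (.node (.I .tdb (.c 24 (.c 18561 (.c 8 (.c 40 .nil)))) (.l 8193 .nil)) (.I .jac (.c 0 (.c 15456298926182601 (.c 24 .nil))) (.r 8 .nil))) (.node (.I .tdb (.c 16 (.c 48 (.c 32 (.c 40 .nil)))) (.b 24 (.b 0 (.r 8 .nil)))) (.I .tdb (.c 16 (.c 48 (.c 0 (.c 40 .nil)))) (.b 24 (.b 32 (.r 8 .nil)))))) (.node (.node (.I .tdb (.c 0 (.c 32 (.c 2756085961 (.c 40 .nil)))) (.r 8 .nil)) (.I .tdb (.c 24 (.c 18561 (.c 0 (.c 40 .nil)))) (.b 32 (.r 8 .nil)))) (.node (.I .jac (.c 537002185 (.c 16 (.c 48 .nil))) (.r 40 (.r 8 .nil))) (.I .ass (.c 42576913200413542961749526065342513929 (.c 40 (.c 8 .nil))) .nil)))) (.node (.node (.node (.I .com (.c 8 (.c 40 .nil)) (.l 42576913200413542961749526065342513929 .nil)) (.I .ass (.c 42576892903125868487846022299823817545 (.c 40 (.c 8 .nil))) .nil)) (.node (.I .com (.c 8 (.c 40 .nil)) (.l 42576892903125868487846022299823817545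 .nil)) (.I .ass (.c 42576913200413533512397237570979656713 (.c 40 (.c 8 .nil))) .nil))) (.node (.node (.I .com (.c 8 (.c 40 .nil)) (.l 42576913200413533512397237570979656713 .nil)) (.I .jac (.c 2105545 (.c 16 (.c 48 .nil))) (.r 40 (.r 32 .nil)))) (.node (.I .ass (.c 10063013877651720715266097929 (.c 40 (.c 32 .nil))) .nil) (.I .com (.c 32 (.c 40 .nil)) (.l 10063013877651720715266097929 .nil)))))) (.node (.node (.node (.node (.I .ass (.c 10061790434743040737723204425 (.c 40 (.c 32 .nil))) .nil) (.I .com (.c 32 (.c 40 .nil)) (.l 10061790434743040737723204425 .nil))) (.node (.I .ass (.c 10063013877506449693794530313 (.c 40 (.c 32 .nil))) .nil) (.I .com (.c 32 (.c 40 .nil)) (.l 10063013877506449693794530313 .nil)))) (.node (.node (.I .com (.c 580749782704521 (.c 179513737 .nil)) .nil) (.I .tdb (.c 4737 (.c 48 (.c 8 (.c 40 .nil)))) (.l 8193 .nil))) (.node (.I .tdb (.c 16 (.c 24 (.c 40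 (.c 8 .nil)))) (.b 48 (.l 8193 .nil))) (.I .jac (.c 43954691 (.c 16 (.c 24 .nil))) (.b 32 (.r 8 .nil)))))) (.node (.node (.node (.I .tdb (.c 4737 (.c 48 (.c 0 (.c 40 .nil)))) (.b 32 (.r 8 .nil))) (.I .tdb (.c 16 (.c 24 (.c 40 (.c 0 .nil)))) (.b 48 (.b 32 (.r 8 .nil))))) (.node (.I .ass (.c 42576974092320101918705356412332005129 (.c 40 (.c 8 .nil))) .nil) (.I .com (.c 8 (.c 40 .nil)) (.l 42576974092320101918705356412332005129 .nil)))) (.node (.node (.I .tdb (.c 4737 (.c 48 (.c 32 (.c 40 .nil)))) (.l 513 .nil)) (.I .tdb (.c 16 (.c 24 (.c 32 (.c 40 .nil)))) (.b 48 (.l 513 .nil)))) (.node (.I .ass (.c 10061790434634094094990628873 (.c 40 (.c 32 .nil))) .nil) (.I .com (.c 32 (.c 40 .nil)) (.l 10061790434634094094990628873 .nil))))))) (.node (.node (.node (.node (.node (.I .com (.c 2698162480889597495046571987977 (.c 12929 .nil)) .nil) (.I .tdb (.c 16 (.c 40 (.c 18625 (.c 8 .nil)))) (.l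 8193 .nil))) (.node (.I .jac (.c 8 (.c 16 (.c 40 .nil))) (.r 18625 (.l 8193 .nil))) (.I .tdb (.c 24 (.c 48 (.c 0 (.c 40 .nil)))) (.b 16 (.b 32 (.r 8 .nil)))))) (.node (.node (.I .com (.c 2306970773558194185 (.c 12929 .nil)) (.r 8 .nil)) (.I .ass (.c 2306972423229201225 (.c 12929 (.c 8 .nil))) .nil)) (.node (.I .com (.c 8 (.c 12929 .nil)) (.l 2306972423229201225 .nil)) (.I .ass (.c 2306970773558194185 (.c 12929 (.c 8 .nil))) .nil)))) (.node (.node (.node (.I .jac (.c 8 (.c 16 (.c 40 .nil))) (.l 2306970773558194185 .nil)) (.I .com (.c 8 (.c 12929 .nil)) (.l 2306970773558194185 .nil))) (.node (.I .ass (.c 2306971873338799881 (.c 18625 (.c 8 .nil))) .nil) (.I .com (.c 8 (.c 18625 .nil)) (.l 2306971873338799881 .nil)))) (.node (.node (.I .ass (.c 2306970223667989449 (.c 18625 (.c 8 .nil))) .nil) (.I .jac (.c 8 (.c 24 (.c 48 .nil))) (.l 2306970223667989449 .nil))) (.node (.I .com (.c 8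 (.c 18625 .nil)) (.l 2306970223667989449 .nil)) (.I .tdb (.c 16 (.c 40 (.c 18625 (.c 32 .nil)))) (.l 513 .nil)))))) (.node (.node (.node (.node (.I .jac (.c 15456118887244041 (.c 16 (.c 32 .nil))) (.l 8 .nil)) (.I .adp (.c 2718204105 (.c 40 (.c 8321 .nil))) (.l 8 .nil))) (.node (.I .jac (.c 2718204105 (.c 16 (.c 32 .nil))) (.r 40 (.l 8 .nil))) (.I .ass (.c 27951055785643122908012690443949941766921 (.c 8 (.c 40 .nil))) .nil))) (.node (.node (.I .ass (.c 27951055785643122786957318255255806178185 (.c 8 (.c 40 .nil))) .nil) (.I .tdb (.c 24 (.c 18433 (.c 8 (.c 40 .nil)))) (.r 8321 .nil))) (.node (.I .ass (.c 59109068451510808265 (.c 40 (.c 8321 .nil))) .nil) (.I .com (.c 8321 (.c 40 .nil)) (.l 59109068451510808265 .nil))))) (.node (.node (.node (.I .ass (.c 2718204105 (.c 12865 (.c 8321 .nil))) .nil) (.I .tdb (.c 16 (.c 32 (.c 8 (.c 40 .nil)))) (.r 2718204105 .nil))) (.node (.I .tdb (.c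 16 (.c 32 (.c 169943433 (.c 40 .nil)))) (.l 8 .nil)) (.I .adp (.c 169943433 (.c 40 (.c 8321 .nil))) (.l 8 .nil)))) (.node (.node (.I .tdb (.c 4609 (.c 48 (.c 8 (.c 40 .nil)))) (.r 8321 .nil)) (.I .tdb (.c 0 (.c 24 (.c 40 (.c 8 .nil)))) (.b 48 (.r 8321 .nil)))) (.node (.I .tdb (.c 24 (.c 48 (.c 16 (.c 40 .nil)))) (.b 0 (.b 32 (.l 8 .nil)))) (.I .jac (.c 0 (.c 24 (.c 43954947 .nil))) (.b 16 (.l 8 .nil)))))))))

noncomputable def c2_171 : Tr := (.node (.node (.node (.node (.node (.node (.I .ass (.c 8 (.c 13748196208362033929 (.c 18625 .nil))) .nil) (.I .ass (.c 13748196208362033929 (.c 8 (.c 18625 .nil))) .nil)) (.node (.I .com (.c 8 (.c 13748196208362033929 .nil)) (.r 18625 .nil)) (.I .ass (.c 8 (.c 13748193523587632009 (.c 18625 .nil))) .nil))) (.node (.node (.I .ass (.c 13748193523587632009 (.c 8 (.c 18625 .nil))) .nil) (.I .com (.c 8 (.c 13748193523587632009 .nil)) (.r 18625 .nil)))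 (.node (.I .ass (.c 1310924873 (.c 18625 (.c 8321 .nil))) .nil) (.I .adp (.c 18561 (.c 12993 (.c 2105609 .nil))) .nil)))) (.node (.node (.node (.I .jac (.c 537002057 (.c 24 (.c 40 .nil))) (.l 18561 .nil)) (.I .com (.c 2306969673777850377 (.c 1337272521 .nil)) .nil)) (.node (.I .jac (.c 2306969673777850185 (.c 16 (.c 40 .nil))) (.r 48 .nil)) (.I .com (.c 2306969673777850377 (.c 179513673 .nil)) .nil))) (.node (.node (.I .adp (.c 8193 (.c 8 (.c 15038498931046793 .nil))) .nil) (.I .adp (.c 513 (.c 32 (.c 15038498931046793 .nil))) .nil)) (.node (.I .jac (.c 8520195 (.c 24 (.c 40 .nil))) (.l 18561 .nil)) (.I .com (.c 2698162480889597495046571987913 (.c 18561 .nil)) .nil))))) (.node (.node (.node (.node (.I .jac (.c 8520195 (.c 16 (.c 48 .nil))) (.r 12993 .nil)) (.I .tdb (.c 16 (.c 48 (.c 0 (.c 24 .nil)))) (.b 40 (.b 32 (.r 8 .nil))))) (.node (.I .tdb (.c 0 (.c 32 (.c 12993 (.c 18561 .nil))))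 (.r 8 .nil)) (.I .tdb (.c 24 (.c 40 (.c 18561 (.c 0 .nil)))) (.b 32 (.r 8 .nil))))) (.node (.node (.I .tdb (.c 24 (.c 40 (.c 18561 (.c 32 .nil)))) (.b 0 (.r 8 .nil))) (.I .com (.c 2306971873338799945 (.c 18561 .nil)) (.r 8 .nil))) (.node (.I .com (.c 2306970773558194121 (.c 18561 .nil)) (.r 8 .nil)) (.I .jac (.c 8 (.c 24 (.c 40 .nil))) (.l 2306972423229201161 .nil))))) (.node (.node (.node (.I .ass (.c 2306970223667989513 (.c 12993 (.c 8 .nil))) .nil) (.I .jac (.c 8 (.c 24 (.c 40 .nil))) (.l 2306970223667989513 .nil))) (.node (.I .com (.c 8 (.c 12993 .nil)) (.l 2306970223667989513 .nil)) (.I .ass (.c 2306971873338799945 (.c 18561 (.c 8 .nil))) .nil))) (.node (.node (.I .com (.c 8 (.c 18561 .nil)) (.l 2306971873338799945 .nil)) (.I .ass (.c 2306970773558194121 (.c 18561 (.c 8 .nil))) .nil)) (.node (.I .jac (.c 8 (.c 16 (.c 48 .nil))) (.l 2306970773558194121 .nil)) (.I .com (.c 8 (.c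 18561 .nil)) (.l 2306970773558194121 .nil))))))) (.node (.node (.node (.node (.node (.I .tdb (.c 16 (.c 48 (.c 0 (.c 24 .nil)))) (.b 40 (.b 8 (.r 32 .nil)))) (.I .com (.c 35466557976521 (.c 18561 .nil)) (.r 32 .nil))) (.node (.I .tdb (.c 0 (.c 8 (.c 32 (.c 12993 .nil)))) (.r 18561 .nil)) (.I .jac (.c 580749782704393 (.c 16 (.c 40 .nil))) (.r 48 .nil)))) (.node (.node (.I .tdb (.c 16 (.c 40 (.c 0 (.c 48 .nil)))) (.b 24 (.b 32 (.r 8 .nil)))) (.I .jac (.c 537002185 (.c 16 (.c 40 .nil))) (.r 48 (.r 8 .nil)))) (.node (.I .ass (.c 42576953795010653769602236682924913481 (.c 48 (.c 8 .nil))) .nil) (.I .com (.c 8 (.c 48 .nil)) (.l 42576953795010653769602236682924913481 .nil))))) (.node (.node (.node (.I .tdb (.c 4737 (.c 40 (.c 8 (.c 48 .nil)))) (.l 8193 .nil)) (.I .tdb (.c 16 (.c 24 (.c 48 (.c 8 .nil)))) (.b 40 (.l 8193 .nil)))) (.node (.I .ass (.c 42576953795010656131941434981856024329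 (.c 48 (.c 8 .nil))) .nil) (.I .com (.c 8 (.c 48 .nil)) (.l 42576953795010656131941434981856024329 .nil)))) (.node (.node (.I .adp (.c 8 (.c 32 (.c 16 .nil))) (.b 15038410136445321 .nil)) (.I .jac (.c 15038410136445321 (.c 16 (.c 32 .nil))) (.l 8 .nil))) (.node (.I .adp (.c 18433 (.c 12993 (.c 8321 .nil))) (.l 8 .nil)) (.I .jac (.c 18433 (.c 16 (.c 32 .nil))) (.r 12993 (.l 8 .nil))))))) (.node (.node (.node (.node (.I .ass (.c 8 (.c 59109065668069837705 (.c 12993 .nil))) .nil) (.I .com (.c 8 (.c 59109065668069837705 .nil)) (.r 12993 .nil))) (.node (.I .ass (.c 2718203977 (.c 12993 (.c 8321 .nil))) .nil) (.I .com (.c 8321 (.c 12993 .nil)) (.l 2718203977 .nil)))) (.node (.node (.I .tdb (.c 16 (.c 32 (.c 12993 (.c 8 .nil)))) (.r 18433 .nil)) (.I .adp (.c 8 (.c 8321 (.c 13748194876462200402 .nil))) .nil)) (.node (.I .adp (.c 1310925001 (.c 48 (.c 8321 .nil))) (.l 8 .nil)) (.I .ass (.c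 8 (.c 1310925001 (.c 553912713 .nil))) .nil)))) (.node (.node (.node (.I .ass (.c 1310925001 (.c 8 (.c 553912713 .nil))) .nil) (.I .com (.c 8 (.c 1310925001 .nil)) (.r 553912713 .nil))) (.node (.I .adp (.c 1310925001 (.c 48 (.c 8 .nil))) (.r 8321 .nil)) (.I .ass (.c 13748194865974800073 (.c 48 (.c 8321 .nil))) .nil))) (.node (.node (.I .com (.c 8321 (.c 48 .nil)) (.l 13748194865974800073 .nil)) (.I .ass (.c 1310925001 (.c 18497 (.c 8321 .nil))) .nil)) (.node (.I .tdp (.c 1310925001 (.c 48 (.c 8 (.c 8321 .nil)))) .nil) (.I .tdb (.c 16 (.c 32 (.c 8 (.c 48 .nil)))) (.r 1310925001 .nil))))))))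

noncomputable def c2_172 : Tr := (.node (.node (.node (.node (.node (.node (.I .tdb (.c 4609 (.c 40 (.c 16 (.c 48 .nil)))) (.b 32 (.l 8 .nil))) (.I .tdb (.c 0 (.c 24 (.c 48 (.c 16 .nil)))) (.b 40 (.b 32 (.l 8 .nil))))) (.node (.I .tdb (.c 4609 (.c 40 (.c 32 (.c 48 .nil)))) (.b 16 (.l 8 .nil))) (.I .tdb (.c 0 (.c 24 (.c 32 (.c 48 .nil)))) (.b 40 (.b 16 (.l 8 .nil)))))) (.node (.node (.I .tdb (.c 16 (.c 32 (.c 169943369 (.c 48 .nil)))) (.l 8 .nil)) (.I .tdb (.c 4609 (.c 40 (.c 8 (.c 48 .nil)))) (.r 8321 .nil))) (.node (.I .tdb (.c 0 (.c 24 (.c 48 (.c 8 .nil)))) (.b 40 (.r 8321 .nil))) (.I .adp (.c 2756086089 (.c 24 (.c 2105609 .nil))) .nil)))) (.node (.node (.node (.I .adp (.c 1337272713 (.c 24 (.c 2105609 .nil))) .nil) (.I .adp (.c 4737 (.c 18753 (.c 2105609 .nil))) .nil)) (.node (.I .jac (.c 2105609 (.c 40 (.c 48 .nil))) (.l 4737 .nil)) (.I .adp (.c 2756086089 (.c 24 (.c 537002057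 .nil))) .nil))) (.node (.node (.I .com (.c 2306969673777850185 (.c 2756086089 .nil)) .nil) (.I .com (.c 2306969673777850185 (.c 1337272713 .nil)) .nil)) (.node (.I .jac (.c 2306969673777850377 (.c 16 (.c 40 .nil))) (.r 24 .nil)) (.I .jac (.c 537002057 (.c 12929 (.c 48 .nil))) (.r 24 .nil)))))) (.node (.node (.node (.node (.I .jac (.c 537002057 (.c 16 (.c 40 .nil))) (.b 48 (.r 24 .nil))) (.I .adp (.c 4737 (.c 18753 (.c 537002057 .nil))) .nil)) (.node (.I .jac (.c 537002057 (.c 40 (.c 48 .nil))) (.l 4737 .nil)) (.I .com (.c 42576872605845448752433331259473584137 (.c 4737 .nil)) .nil))) (.node (.node (.I .jac (.c 580749782704521 (.c 16 (.c 48 .nil))) (.r 24 .nil)) (.I .tdb (.c 40 (.c 18561 (.c 0 (.c 24 .nil)))) (.b 32 (.r 8 .nil)))) (.node (.I .jac (.c 537002313 (.c 16 (.c 48 .nil))) (.r 24 (.r 8 .nil))) (.I .ass (.c 42576974092320099556365595025629983689 (.c 24 (.c 8 .nil))) .nil))))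 (.node (.node (.node (.I .com (.c 8 (.c 24 .nil)) (.l 42576974092320099556365595025629983689 .nil)) (.I .ass (.c 42576892903125868487846022299823817673 (.c 24 (.c 8 .nil))) .nil)) (.node (.I .com (.c 8 (.c 24 .nil)) (.l 42576892903125868487846022299823817673 .nil)) (.I .jac (.c 8 (.c 18561 (.c 40 .nil))) (.l 537002185 .nil)))) (.node (.node (.I .jac (.c 8 (.c 16 (.c 48 .nil))) (.b 40 (.l 537002185 .nil))) (.I .tdb (.c 40 (.c 18561 (.c 8 (.c 24 .nil)))) (.b 0 (.r 32 .nil)))) (.node (.I .jac (.c 580749782704585 (.c 16 (.c 40 .nil))) (.r 24 .nil)) (.I .jac (.c 18497 (.c 16 (.c 40 .nil))) (.r 24 (.l 8193 .nil)))))))) (.node (.node (.node (.node (.node (.I .ass (.c 42576974092320106643384879185736245001 (.c 24 (.c 8 .nil))) .nil) (.I .com (.c 8 (.c 24 .nil)) (.l 42576974092320106643384879185736245001 .nil))) (.node (.I .ass (.c 42576892903125866125508513263802589193 (.c 24 (.c 8 .nil)))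 .nil) (.I .com (.c 8 (.c 24 .nil)) (.l 42576892903125866125508513263802589193 .nil)))) (.node (.node (.I .jac (.c 8 (.c 12929 (.c 48 .nil))) (.l 537002185 .nil)) (.I .jac (.c 8 (.c 16 (.c 40 .nil))) (.b 48 (.l 537002185 .nil)))) (.node (.I .com (.c 2698162480891381558379040178121 (.c 4737 .nil)) .nil) (.I .ass (.c 35466557976329 (.c 18753 (.c 32 .nil))) .nil)))) (.node (.node (.node (.I .com (.c 32 (.c 18753 .nil)) (.l 35466557976329 .nil)) (.I .ass (.c 35464401931081 (.c 18753 (.c 32 .nil))) .nil)) (.node (.I .jac (.c 32 (.c 40 (.c 48 .nil))) (.l 35464401931081 .nil)) (.I .com (.c 32 (.c 18753 .nil)) (.l 35464401931081 .nil)))) (.node (.node (.I .adp (.c 2718204233 (.c 24 (.c 8321 .nil))) (.l 8 .nil)) (.I .jac (.c 2718204233 (.c 16 (.c 32 .nil))) (.r 24 (.l 8 .nil)))) (.node (.I .ass (.c 27951061050494848639907477563920710974217 (.c 8 (.c 24 .nil))) .nil) (.I .ass (.c 27951061050494848518852093974251956532105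 (.c 8 (.c 24 .nil))) .nil))))) (.node (.node (.node (.node (.I .ass (.c 8 (.c 2718204233 (.c 553912521 .nil))) .nil) (.I .ass (.c 2718204233 (.c 8 (.c 553912521 .nil))) .nil)) (.node (.I .com (.c 8 (.c 2718204233 .nil)) (.r 553912521 .nil)) (.I .tdb (.c 40 (.c 18433 (.c 8 (.c 24 .nil)))) (.r 8321 .nil)))) (.node (.node (.I .tdb (.c 16 (.c 32 (.c 8 (.c 24 .nil)))) (.r 2718204233 .nil)) (.I .adp (.c 8 (.c 8321 (.c 13748198903624099730 .nil))) .nil)) (.node (.I .tdb (.c 48 (.c 12801 (.c 16 (.c 24 .nil)))) (.b 32 (.l 8 .nil))) (.I .tdb (.c 0 (.c 40 (.c 16 (.c 24 .nil)))) (.b 48 (.b 32 (.l 8 .nil))))))) (.node (.node (.node (.I .tdb (.c 16 (.c 32 (.c 1310925193 (.c 24 .nil)))) (.l 8 .nil)) (.I .jac (.c 1310925193 (.c 16 (.c 32 .nil))) (.r 24 (.l 8 .nil)))) (.node (.I .tdb (.c 48 (.c 12801 (.c 8 (.c 24 .nil)))) (.r 8321 .nil)) (.I .tdb (.c 0 (.c 40 (.c 8 (.c 24 .nil)))) (.b 48 (.r 8321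 .nil))))) (.node (.node (.I .adp (.c 1310925193 (.c 24 (.c 8 .nil))) (.r 8321 .nil)) (.I .ass (.c 13748198893136698057 (.c 24 (.c 8321 .nil))) .nil)) (.node (.I .com (.c 8321 (.c 24 .nil)) (.l 13748198893136698057 .nil)) (.I .tdp (.c 1310925193 (.c 24 (.c 8 (.c 8321 .nil)))) .nil)))))))

noncomputable def c2_173 : Tr := (.node (.node (.node (.node (.node (.node (.I .tdb (.c 16 (.c 32 (.c 8 (.c 24 .nil)))) (.r 1310925193 .nil)) (.I .ass (.c 169943113 (.c 18753 (.c 8321 .nil))) .nil)) (.node (.I .com (.c 8321 (.c 18753 .nil)) (.l 169943113 .nil)) (.I .tdp (.c 24 (.c 40 (.c 18561 (.c 2105609 .nil)))) .nil))) (.node (.node (.I .tdb (.c 16 (.c 48 (.c 8 (.c 40 .nil)))) (.b 0 (.b 32 (.r 24 .nil)))) (.I .tdb (.c 513 (.c 32 (.c 40 (.c 24 .nil)))) (.b 18561 .nil))) (.node (.I .tdb (.c 513 (.c 32 (.c 48 (.c 24 .nil)))) (.l 12929 .nil)) (.I .tdb (.c 0 (.c 8 (.c 24 (.c 48 .nil)))) (.b 32 (.l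 12929 .nil)))))) (.node (.node (.node (.I .com (.c 1809230235455469428084446102834057 (.c 12929 .nil)) .nil) (.I .tdb (.c 513 (.c 32 (.c 48 (.c 12929 .nil)))) (.r 24 .nil))) (.node (.I .tdb (.c 0 (.c 8 (.c 48 (.c 12929 .nil)))) (.b 32 (.r 24 .nil))) (.I .tdb (.c 16 (.c 40 (.c 0 (.c 48 .nil)))) (.b 8 (.b 32 (.r 24 .nil)))))) (.node (.node (.I .tdb (.c 16 (.c 40 (.c 8 (.c 48 .nil)))) (.b 0 (.b 32 (.r 24 .nil)))) (.I .tdb (.c 16 (.c 40 (.c 32 (.c 48 .nil)))) (.b 513 (.r 24 .nil)))) (.node (.I .tdb (.c 513 (.c 32 (.c 12929 (.c 24 .nil)))) (.b 48 .nil)) (.I .tdb (.c 0 (.c 8 (.c 24 (.c 12929 .nil)))) (.b 32 (.b 48 .nil))))))) (.node (.node (.node (.node (.I .tdb (.c 16 (.c 40 (.c 0 (.c 24 .nil)))) (.b 8 (.b 32 (.b 48 .nil)))) (.I .tdb (.c 513 (.c 32 (.c 48 (.c 24 .nil)))) (.b 12929 .nil))) (.node (.I .tdb (.c 0 (.c 8 (.c 24 (.c 48 .nil)))) (.b 32 (.b 12929 .nil))) (.I .com (.c 35468714087433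 (.c 40 .nil)) (.l 4737 .nil)))) (.node (.node (.I .com (.c 1911132888452944123369833244412809 (.c 4737 .nil)) .nil) (.I .com (.c 2306969673777850313 (.c 43356803 .nil)) .nil)) (.node (.I .ass (.c 2306969673777850313 (.c 18561 (.c 24 .nil))) .nil) (.I .tdb (.c 16 (.c 48 (.c 8 (.c 24 .nil)))) (.b 8193 (.l 40 .nil)))))) (.node (.node (.node (.I .tdb (.c 8 (.c 8193 (.c 18561 (.c 40 .nil)))) (.r 24 .nil)) (.I .tdb (.c 0 (.c 32 (.c 18561 (.c 40 .nil)))) (.b 8 (.r 24 .nil)))) (.node (.I .tdb (.c 8 (.c 8193 (.c 24 (.c 40 .nil)))) (.b 18561 .nil)) (.I .tdb (.c 8 (.c 8193 (.c 24 (.c 48 .nil)))) (.l 12929 .nil)))) (.node (.node (.I .com (.c 2306969673777850377 (.c 24 .nil)) (.l 12929 .nil)) (.I .ass (.c 2306969673777850377 (.c 12929 (.c 24 .nil))) .nil)) (.node (.I .ass (.c 12929 (.c 2306969673777850185 (.c 48 .nil))) .nil) (.I .ass (.c 2306969673777850185 (.c 12929 (.c 48 .nil))) .nil))))))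 (.node (.node (.node (.node (.node (.I .com (.c 12929 (.c 2306969673777850185 .nil)) (.r 48 .nil)) (.I .tdb (.c 8 (.c 8193 (.c 12929 (.c 24 .nil)))) (.l 48 .nil))) (.node (.I .tdb (.c 8 (.c 8193 (.c 40 (.c 48 .nil)))) (.l 4737 .nil)) (.I .tdb (.c 0 (.c 32 (.c 40 (.c 48 .nil)))) (.b 8 (.l 4737 .nil))))) (.node (.node (.I .com (.c 2306969673777850377 (.c 40 .nil)) (.l 4737 .nil)) (.I .com (.c 1911177411964075743551050339165897 (.c 4737 .nil)) .nil)) (.node (.I .jac (.c 18433 (.c 16 (.c 40 .nil))) (.b 24 (.r 8257 .nil))) (.I .jac (.c 1310925001 (.c 16 (.c 48 .nil))) (.r 8257 .nil))))) (.node (.node (.node (.I .jac (.c 12801 (.c 4737 (.c 48 .nil))) (.r 8257 .nil)) (.I .jac (.c 12801 (.c 16 (.c 24 .nil))) (.b 48 (.r 8257 .nil)))) (.node (.I .jac (.c 18433 (.c 12929 (.c 24 .nil))) (.r 8257 .nil)) (.I .jac (.c 12801 (.c 8 (.c 48 .nil))) (.b 24 (.r 8321 .nil))))) (.node (.node (.I .jac (.c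 12801 (.c 4673 (.c 48 .nil))) (.r 8321 .nil)) (.I .jac (.c 12801 (.c 8 (.c 24 .nil))) (.b 48 (.r 8321 .nil)))) (.node (.I .jac (.c 2718204105 (.c 8 (.c 40 .nil))) (.r 8321 .nil)) (.I .adp (.c 0 (.c 32 (.c 16 .nil))) (.b 59934274015313491785 .nil)))))) (.node (.node (.node (.node (.I .adp (.c 0 (.c 8321 (.c 59934274015313491785 .nil))) .nil) (.I .jac (.c 0 (.c 2737112393 (.c 24 .nil))) (.r 8321 .nil))) (.node (.I .jac (.c 0 (.c 18497 (.c 40 .nil))) (.b 24 (.r 8321 .nil))) (.I .jac (.c 0 (.c 8 (.c 48 .nil))) (.b 40 (.b 24 (.r 8321 .nil)))))) (.node (.node (.I .adp (.c 0 (.c 32 (.c 43954883 .nil))) (.b 2113 .nil)) (.I .adp (.c 0 (.c 32 (.c 8 .nil))) (.b 15456253916349641 .nil))) (.node (.I .adp (.c 0 (.c 8257 (.c 15456253916349641 .nil))) .nil) (.I .jac (.c 0 (.c 16 (.c 43954883 .nil))) (.r 8257 .nil))))) (.node (.node (.node (.I .adp (.c 0 (.c 32 (.c 16 .nil))) (.b 15456253916349577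 .nil)) (.I .adp (.c 0 (.c 32 (.c 8 .nil))) (.b 15456208906582281 .nil))) (.node (.I .adp (.c 0 (.c 8257 (.c 15456208906582281 .nil))) .nil) (.I .jac (.c 0 (.c 43954819 (.c 24 .nil))) (.r 8257 .nil)))) (.node (.node (.I .jac (.c 21099011 (.c 16 (.c 48 .nil))) (.r 8257 .nil)) (.I .ass (.c 59109065668069837641 (.c 40 (.c 8257 .nil))) .nil)) (.node (.I .com (.c 8257 (.c 40 .nil)) (.l 59109065668069837641 .nil)) (.I .ass (.c 9025011228269385 (.c 40 (.c 8257 .nil))) .nil)))))))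

noncomputable def c2_174 : Tr := (.node (.node (.node (.node (.node (.node (.I .com (.c 8257 (.c 40 .nil)) (.l 9025011228269385 .nil)) (.I .ass (.c 231045467270827017 (.c 40 (.c 8257 .nil))) .nil)) (.node (.I .com (.c 8257 (.c 40 .nil)) (.l 231045467270827017 .nil)) (.I .ass (.c 59109068451510808329 (.c 40 (.c 8257 .nil))) .nil))) (.node (.node (.I .com (.c 8257 (.c 40 .nil)) (.l 59109068451510808329 .nil)) (.I .tdb (.c 24 (.c 48 (.c 0 (.c 16 .nil)))) (.b 40 (.r 8257 .nil)))) (.node (.I .tdb (.c 24 (.c 48 (.c 0 (.c 40 .nil)))) (.b 16 (.r 8257 .nil))) (.I .tdb (.c 16 (.c 40 (.c 18625 (.c 0 .nil)))) (.r 8257 .nil))))) (.node (.node (.node (.I .ass (.c 2718204105 (.c 12929 (.c 8257 .nil))) .nil) (.I .com (.c 8257 (.c 12929 .nil)) (.l 2718204105 .nil))) (.node (.I .ass (.c 169943433 (.c 12929 (.c 8257 .nil))) .nil) (.I .com (.c 8257 (.c 12929 .nil)) (.l 169943433 .nil)))) (.node (.node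 (.I .ass (.c 1310924937 (.c 18625 (.c 8257 .nil))) .nil) (.I .com (.c 8257 (.c 18625 .nil)) (.l 33587529 .nil))) (.node (.I .adp (.c 0 (.c 32 (.c 16 .nil))) (.b 15456163896880393 .nil)) (.I .adp (.c 0 (.c 32 (.c 16 .nil))) (.b 3561367726845385 .nil)))))) (.node (.node (.node (.node (.I .adp (.c 0 (.c 8321 (.c 3561367726845385 .nil))) .nil) (.I .jac (.c 21099011 (.c 8 (.c 48 .nil))) (.r 8321 .nil))) (.node (.I .tdb (.c 24 (.c 18497 (.c 0 (.c 40 .nil)))) (.r 8321 .nil)) (.I .ass (.c 35473026505545 (.c 40 (.c 8321 .nil))) .nil))) (.node (.node (.I .com (.c 8321 (.c 40 .nil)) (.l 35473026505545 .nil)) (.I .adp (.c 0 (.c 8321 (.c 2775227922 .nil))) .nil)) (.node (.I .tdb (.c 24 (.c 48 (.c 0 (.c 40 .nil)))) (.b 8 (.r 8321 .nil))) (.I .tdb (.c 8 (.c 40 (.c 18625 (.c 0 .nil)))) (.r 8321 .nil))))) (.node (.node (.node (.I .adp (.c 12865 (.c 18625 (.c 0 .nil))) (.r 8321 .nil)) (.I .jac (.c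 0 (.c 24 (.c 48 .nil))) (.l 12865 (.r 8321 .nil)))) (.node (.I .com (.c 2718204105 (.c 12865 .nil)) (.r 8321 .nil)) (.I .com (.c 169943433 (.c 12865 .nil)) (.r 8321 .nil)))) (.node (.node (.I .jac (.c 0 (.c 8 (.c 40 .nil))) (.r 18625 (.r 8321 .nil))) (.I .ass (.c 2105673 (.c 18625 (.c 8321 .nil))) .nil)) (.node (.I .adp (.c 0 (.c 32 (.c 8 .nil))) (.b 15038498931046793 .nil)) (.I .tdb (.c 24 (.c 40 (.c 18561 (.c 0 .nil)))) (.r 8257 .nil))))))) (.node (.node (.node (.node (.node (.I .ass (.c 33587593 (.c 12993 (.c 8257 .nil))) .nil) (.I .com (.c 8257 (.c 12993 .nil)) (.l 33587593 .nil))) (.node (.I .ass (.c 1310925001 (.c 18561 (.c 8257 .nil))) .nil) (.I .com (.c 8257 (.c 18561 .nil)) (.l 1310925001 .nil)))) (.node (.node (.I .com (.c 8257 (.c 18561 .nil)) (.l 169943369 .nil)) (.I .jac (.c 43356675 (.c 16 (.c 40 .nil))) (.r 8257 .nil))) (.node (.I .ass (.c 231045989336561417 (.c 48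 (.c 8257 .nil))) .nil) (.I .com (.c 8257 (.c 48 .nil)) (.l 231045989336561417 .nil))))) (.node (.node (.node (.I .ass (.c 9024976834606921 (.c 48 (.c 8257 .nil))) .nil) (.I .com (.c 8257 (.c 48 .nil)) (.l 9024976834606921 .nil))) (.node (.I .ass (.c 231045467270826953 (.c 48 (.c 8257 .nil))) .nil) (.I .com (.c 8257 (.c 48 .nil)) (.l 231045467270826953 .nil)))) (.node (.node (.I .ass (.c 9024908047478729 (.c 48 (.c 8257 .nil))) .nil) (.I .com (.c 8257 (.c 48 .nil)) (.l 9024908047478729 .nil))) (.node (.I .adp (.c 0 (.c 32 (.c 16 .nil))) (.b 15038454533713289 .nil)) (.I .adp (.c 0 (.c 8321 (.c 15038454533713289 .nil))) .nil))))) (.node (.node (.node (.node (.I .tdb (.c 8 (.c 48 (.c 0 (.c 24 .nil)))) (.b 40 (.r 8321 .nil))) (.I .ass (.c 2105737 (.c 12993 (.c 8321 .nil))) .nil)) (.node (.I .com (.c 8321 (.c 12993 .nil)) (.l 2105737 .nil)) (.I .jac (.c 43356675 (.c 8 (.c 40 .nil))) (.r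 8321 .nil)))) (.node (.node (.I .ass (.c 35470870263625 (.c 48 (.c 8321 .nil))) .nil) (.I .com (.c 8321 (.c 48 .nil)) (.l 35470870263625 .nil))) (.node (.I .ass (.c 59109065668069837769 (.c 24 (.c 8257 .nil))) .nil) (.I .com (.c 8257 (.c 24 .nil)) (.l 59109065668069837769 .nil))))) (.node (.node (.node (.I .ass (.c 13748193523587632137 (.c 24 (.c 8257 .nil))) .nil) (.I .com (.c 8257 (.c 24 .nil)) (.l 13748193523587632137 .nil))) (.node (.I .ass (.c 9024976834607113 (.c 24 (.c 8257 .nil))) .nil) (.I .com (.c 8257 (.c 24 .nil)) (.l 9024976834607113 .nil)))) (.node (.node (.I .ass (.c 2718204233 (.c 4737 (.c 8257 .nil))) .nil) (.I .com (.c 8257 (.c 4737 .nil)) (.l 2718204233 .nil))) (.node (.I .ass (.c 1310925193 (.c 4737 (.c 8257 .nil))) .nil) (.I .com (.c 8257 (.c 4737 .nil)) (.l 1310925193 .nil))))))))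

noncomputable def c2_175 : Tr := (.node (.node (.node (.node (.node (.node (.I .tdb (.c 40 (.c 18497 (.c 0 (.c 24 .nil)))) (.r 8321 .nil)) (.I .ass (.c 59109062884628932553 (.c 24 (.c 8321 .nil))) .nil)) (.node (.I .com (.c 8321 (.c 24 .nil)) (.l 59109062884628932553 .nil)) (.I .ass (.c 35473026505673 (.c 24 (.c 8321 .nil))) .nil))) (.node (.node (.I .com (.c 8321 (.c 24 .nil)) (.l 35473026505673 .nil)) (.I .ass (.c 13748192181200529417 (.c 24 (.c 8321 .nil))) .nil)) (.node (.I .com (.c 8321 (.c 24 .nil)) (.l 13748192181200529417 .nil)) (.I .ass (.c 35470870263817 (.c 24 (.c 8321 .nil))) .nil)))) (.node (.node (.node (.I .com (.c 8321 (.c 24 .nil)) (.l 35470870263817 .nil)) (.I .ass (.c 2105545 (.c 18753 (.c 8321 .nil))) .nil)) (.node (.I .com (.c 8321 (.c 18753 .nil)) (.l 2105545 .nil)) (.I .jac (.c 0 (.c 8 (.c 16 .nil))) (.b 15456253916349769 .nil)))) (.node (.node (.I .adp (.c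 8 (.c 16 (.c 32 .nil))) (.b 13748198893136698185 .nil)) (.I .adp (.c 8 (.c 16 (.c 32 .nil))) (.b 13748194865974800393 .nil))) (.node (.I .adp (.c 8 (.c 16 (.c 32 .nil))) (.b 59109074018392946505 .nil)) (.I .adp (.c 8 (.c 16 (.c 43954883 .nil))) (.b 8193 .nil)))))) (.node (.node (.node (.node (.I .adp (.c 8 (.c 16 (.c 32 .nil))) (.b 15456253916349513 .nil)) (.I .adp (.c 18625 (.c 40 (.c 32 .nil))) (.b 2105481 .nil))) (.node (.I .jac (.c 2105481 (.c 32 (.c 48 .nil))) (.b 40 (.l 24 .nil))) (.I .com (.c 809917014015645998974779177266090408572866479426887615369 (.c 24 .nil)) .nil))) (.node (.node (.I .com (.c 809917014021492389842747146179266883316316492151278009289 (.c 24 .nil)) .nil) (.I .com (.c 809917014015645998974779156659543598293493290008670616585 (.c 24 .nil)) .nil)) (.node (.I .com (.c 809917014009799608106842829098994307490388508253535739913 (.c 24 .nil)) .nil) (.I .jac (.c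 9024839260612553 (.c 32 (.c 48 .nil))) (.l 24 .nil))))) (.node (.node (.node (.I .jac (.c 33587273 (.c 32 (.c 48 .nil))) (.b 40 (.l 24 .nil))) (.I .com (.c 3396470626629893322603242024126378935757647612787457730849440267209 (.c 24 .nil)) .nil)) (.node (.I .jac (.c 9024839260612617 (.c 32 (.c 40 .nil))) (.l 24 .nil)) (.I .com (.c 3396470626629893322603242024127046155510033311705909030296951103369 (.c 24 .nil)) .nil))) (.node (.node (.I .com (.c 3396470626629700632970704854324849879116009112338197520186506092553 (.c 24 .nil)) .nil) (.I .jac (.c 2487083360649 (.c 32 (.c 48 .nil))) (.l 24 .nil))) (.node (.I .com (.c 19589859843187240611233638166258608133424885895117769 (.c 24 .nil)) .nil) (.I .com (.c 19589859839154401021947859135458294030492604872754121 (.c 24 .nil)) .nil)))))) (.node (.node (.node (.node (.node (.I .com (.c 19589859841170820816512865323911044431086563402546185 (.c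 24 .nil)) .nil) (.I .jac (.c 2487083360713 (.c 32 (.c 40 .nil))) (.l 24 .nil))) (.node (.I .com (.c 19589859839154401021947808463157094680510343278485513 (.c 24 .nil)) .nil) (.I .ass (.c 651601654921560200620872561558409 (.c 24 (.c 8 .nil))) .nil))) (.node (.node (.I .com (.c 8 (.c 24 .nil)) (.l 651601654921560200620872561558409 .nil)) (.I .ass (.c 651606621363117027878554774109129 (.c 24 (.c 8 .nil))) .nil)) (.node (.I .com (.c 8 (.c 24 .nil)) (.l 651606621363117027878554774109129 .nil)) (.I .ass (.c 651596688508375012468186189874121 (.c 24 (.c 8 .nil))) .nil)))) (.node (.node (.node (.I .com (.c 8 (.c 24 .nil)) (.l 651596688508375012468186189874121 .nil)) (.I .ass (.c 651601654921541717468315286322185 (.c 24 (.c 8 .nil))) .nil)) (.node (.I .com (.c 8 (.c 24 .nil)) (.l 651601654921541717468315286322185 .nil)) (.I .jac (.c 12865 (.c 32 (.c 48 .nil))) (.l 33587401 .nil)))) (.node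 (.node (.I .ass (.c 651606621363126269490052522057609 (.c 24 (.c 8 .nil))) .nil) (.I .com (.c 8 (.c 24 .nil)) (.l 651606621363126269490052522057609 .nil))) (.node (.I .ass (.c 651596688508365770927126595477513 (.c 24 (.c 8 .nil))) .nil) (.I .com (.c 8 (.c 24 .nil)) (.l 651596688508365770927126595477513 .nil)))))) (.node (.node (.node (.node (.I .jac (.c 18497 (.c 32 (.c 40 .nil))) (.l 33587401 .nil)) (.I .jac (.c 12929 (.c 32 (.c 48 .nil))) (.l 24 (.l 513 .nil)))) (.node (.I .com (.c 14306386471475043209 (.c 24 .nil)) (.l 513 .nil)) (.I .com (.c 60768081417602405321 (.c 24 .nil)) (.l 513 .nil)))) (.node (.node (.I .com (.c 14306383732740658185 (.c 24 .nil)) (.l 513 .nil)) (.I .jac (.c 2105673 (.c 32 (.c 48 .nil))) (.l 24 (.r 16 .nil)))) (.node (.I .com (.c 10065461098180296729435276169 (.c 24 .nil)) (.r 16 .nil)) (.I .com (.c 10064237432128545199748236233 (.c 24 .nil)) (.r 16 .nil)))))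 (.node (.node (.node (.I .com (.c 10065461098107652387135110153 (.c 24 .nil)) (.r 16 .nil)) (.I .ass (.c 10066684875741109290467687369 (.c 24 (.c 16 .nil))) .nil)) (.node (.I .com (.c 16 (.c 24 .nil)) (.l 10066684875741109290467687369 .nil)) (.I .jac (.c 12929 (.c 32 (.c 48 .nil))) (.l 2105545 .nil)))) (.node (.node (.I .jac (.c 43356803 (.c 32 (.c 40 .nil))) (.l 513 .nil)) (.I .jac (.c 18561 (.c 32 (.c 40 .nil))) (.l 24 (.l 513 .nil)))) (.node (.I .com (.c 60768084239834527625 (.c 24 .nil)) (.l 513 .nil)) (.I .com (.c 10064237432092225236522737673 (.c 24 .nil)) (.r 16 .nil))))))))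

noncomputable def c2_176 : Tr := (.node (.node (.node (.node (.node (.node (.I .ass (.c 10066684875777433669609463689 (.c 24 (.c 16 .nil))) .nil) (.I .com (.c 16 (.c 24 .nil)) (.l 10066684875777433669609463689 .nil))) (.node (.I .jac (.c 18561 (.c 32 (.c 40 .nil))) (.l 2105545 .nil)) (.I .adp (.c 24 (.c 43954947 (.c 2105481 .nil))) .nil))) (.node (.node (.I .adp (.c 24 (.c 2794379602 (.c 2105481 .nil))) .nil) (.I .jac (.c 513 (.c 43954819 (.c 32 .nil))) (.l 24 .nil))) (.node (.I .jac (.c 513 (.c 21307523 (.c 48 .nil))) (.l 24 .nil)) (.I .jac (.c 0 (.c 43954755 (.c 32 .nil))) (.b 16 (.l 24 .nil)))))) (.node (.node (.node (.I .tdb (.c 513 (.c 16 (.c 40 (.c 18689 .nil)))) (.l 24 .nil)) (.I .tdb (.c 0 (.c 8 (.c 40 (.c 18689 .nil)))) (.b 16 (.l 24 .nil)))) (.node (.I .tdb (.c 32 (.c 48 (.c 0 (.c 40 .nil)))) (.b 8 (.b 16 (.l 24 .nil)))) (.I .jac (.c 2105481 (.c 32 (.c 48 .nil))) (.r 40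 (.l 24 .nil))))) (.node (.node (.I .com (.c 29219431338613398809257443797502126642644029017639148646422466481929 (.c 24 .nil)) .nil) (.I .com (.c 29219771698758366859580286719263306435223679946214914193561312049929 (.c 24 .nil)) .nil)) (.node (.I .ass (.c 24 (.c 10061790434743040737723204489 (.c 40 .nil))) .nil) (.I .com (.c 24 (.c 10061790434743040737723204489 .nil)) (.r 40 .nil)))))) (.node (.node (.node (.node (.I .ass (.c 24 (.c 10061790434670409642568088585 (.c 40 .nil))) .nil) (.I .com (.c 24 (.c 10061790434670409642568088585 .nil)) (.r 40 .nil))) (.node (.I .tdp (.c 18689 (.c 40 (.c 24 (.c 2105481 .nil)))) .nil) (.I .jac (.c 513 (.c 43356803 (.c 32 .nil))) (.l 40 .nil)))) (.node (.node (.I .tdb (.c 513 (.c 16 (.c 18689 (.c 24 .nil)))) (.l 40 .nil)) (.I .tdb (.c 0 (.c 8 (.c 24 (.c 18689 .nil)))) (.b 16 (.l 40 .nil)))) (.node (.I .tdb (.c 513 (.c 16 (.c 40 (.c 24 .nil)))) (.r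 18689 .nil)) (.I .tdb (.c 0 (.c 8 (.c 24 (.c 40 .nil)))) (.b 16 (.r 18689 .nil)))))) (.node (.node (.node (.I .tdb (.c 513 (.c 16 (.c 13057 (.c 48 .nil)))) (.l 24 .nil)) (.I .tdb (.c 0 (.c 8 (.c 13057 (.c 48 .nil)))) (.b 16 (.l 24 .nil)))) (.node (.I .tdb (.c 32 (.c 40 (.c 48 (.c 0 .nil)))) (.b 8 (.b 16 (.l 24 .nil)))) (.I .tdb (.c 32 (.c 40 (.c 48 (.c 8 .nil)))) (.b 0 (.b 16 (.l 24 .nil)))))) (.node (.node (.I .tdb (.c 32 (.c 40 (.c 48 (.c 16 .nil)))) (.b 513 (.l 24 .nil))) (.I .adp (.c 13057 (.c 48 (.c 2105481 .nil))) (.l 24 .nil))) (.node (.I .jac (.c 2105481 (.c 32 (.c 40 .nil))) (.r 48 (.l 24 .nil))) (.I .tdp (.c 13057 (.c 48 (.c 24 (.c 2105481 .nil)))) .nil)))))) (.node (.node (.node (.node (.node (.I .tdb (.c 513 (.c 16 (.c 48 (.c 24 .nil)))) (.r 13057 .nil)) (.I .tdb (.c 0 (.c 8 (.c 24 (.c 48 .nil)))) (.b 16 (.r 13057 .nil)))) (.node (.I .tdb (.c 513 (.c 16 (.c 13057 (.c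 24 .nil)))) (.b 48 .nil)) (.I .tdb (.c 32 (.c 40 (.c 8 (.c 24 .nil)))) (.b 0 (.b 16 (.b 48 .nil)))))) (.node (.node (.I .tdb (.c 0 (.c 8 (.c 24 (.c 13057 .nil)))) (.b 16 (.b 48 .nil))) (.I .tdb (.c 513 (.c 16 (.c 13057 (.c 48 .nil)))) (.b 24 .nil))) (.node (.I .tdb (.c 0 (.c 8 (.c 13057 (.c 48 .nil)))) (.b 16 (.b 24 .nil))) (.I .tdb (.c 32 (.c 40 (.c 48 (.c 0 .nil)))) (.b 8 (.b 16 (.b 24 .nil))))))) (.node (.node (.node (.I .tdb (.c 32 (.c 40 (.c 48 (.c 8 .nil)))) (.b 0 (.b 16 (.b 24 .nil)))) (.I .tdb (.c 32 (.c 40 (.c 48 (.c 16 .nil)))) (.b 513 (.b 24 .nil)))) (.node (.I .jac (.c 2049 (.c 43954755 (.c 32 .nil))) (.l 24 .nil)) (.I .tdb (.c 32 (.c 48 (.c 8 (.c 40 .nil)))) (.b 2049 (.l 24 .nil))))) (.node (.node (.I .jac (.c 0 (.c 43954819 (.c 32 .nil))) (.b 8 (.l 24 .nil))) (.I .tdb (.c 32 (.c 48 (.c 16 (.c 40 .nil)))) (.b 0 (.b 8 (.l 24 .nil))))) (.node (.I .com (.c 29219431338613398809257443797504083642721804881042225310597066977993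 (.c 24 .nil)) .nil) (.I .com (.c 29220112062374340779692772142341321442323413549182896123316801125065 (.c 24 .nil)) .nil))))) (.node (.node (.node (.node (.I .com (.c 1911155150127468949770067396021577 (.c 24 .nil)) .nil) (.I .tdb (.c 32 (.c 48 (.c 8 (.c 24 .nil)))) (.b 2049 (.l 40 .nil)))) (.node (.I .tdb (.c 8 (.c 2049 (.c 24 (.c 40 .nil)))) (.b 18689 .nil)) (.I .tdb (.c 0 (.c 16 (.c 40 (.c 24 .nil)))) (.b 8 (.b 18689 .nil))))) (.node (.node (.I .tdb (.c 8 (.c 2049 (.c 32 (.c 48 .nil)))) (.b 40 (.l 24 .nil))) (.I .tdb (.c 0 (.c 16 (.c 32 (.c 48 .nil)))) (.b 8 (.b 40 (.l 24 .nil))))) (.node (.I .tdb (.c 8 (.c 2049 (.c 40 (.c 48 .nil)))) (.b 32 (.l 24 .nil))) (.I .tdb (.c 0 (.c 16 (.c 40 (.c 48 .nil)))) (.b 8 (.b 32 (.l 24 .nil))))))) (.node (.node (.node (.I .tdb (.c 32 (.c 40 (.c 48 (.c 33587273 .nil)))) (.l 24 .nil)) (.I .com (.c 9024839260612617 (.c 13057 .nil)) (.l 24 .nil)))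 (.node (.I .jac (.c 33587273 (.c 32 (.c 40 .nil))) (.r 48 (.l 24 .nil))) (.I .com (.c 27664030750837463129608469963322037577907108401153871327735655354313 (.c 24 .nil)) .nil))) (.node (.node (.I .ass (.c 24 (.c 9024839260612617 (.c 13057 .nil))) .nil) (.I .com (.c 24 (.c 9024839260612617 .nil)) (.r 13057 .nil))) (.node (.I .tdb (.c 8 (.c 2049 (.c 24 (.c 48 .nil)))) (.b 13057 .nil)) (.I .tdb (.c 32 (.c 40 (.c 33587273 (.c 24 .nil)))) (.b 48 .nil))))))))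

noncomputable def c2_177 : Tr := (.node (.node (.node (.node (.node (.node (.I .tdb (.c 32 (.c 40 (.c 48 (.c 33587273 .nil)))) (.b 24 .nil)) (.I .adp (.c 0 (.c 16 (.c 43954883 .nil))) (.b 8257 .nil))) (.node (.I .adp (.c 0 (.c 16 (.c 32 .nil))) (.b 15456253916349577 .nil)) (.I .adp (.c 0 (.c 16 (.c 32 .nil))) (.b 3561367726845385 .nil)))) (.node (.node (.I .ass (.c 59109071234951844809 (.c 24 (.c 2113 .nil))) .nil) (.I .com (.c 2113 (.c 24 .nil)) (.l 59109071234951844809 .nil))) (.node (.I .jac (.c 2105673 (.c 24 (.c 48 .nil))) (.b 8321 .nil)) (.I .adp (.c 18625 (.c 40 (.c 513 .nil))) (.b 8321 .nil))))) (.node (.node (.node (.I .com (.c 2105673 (.c 18625 .nil)) (.b 8321 .nil)) (.I .jac (.c 513 (.c 24 (.c 48 .nil))) (.r 40 (.b 8321 .nil)))) (.node (.I .adp (.c 0 (.c 8 (.c 32 .nil))) (.b 15038498931046793 .nil)) (.I .com (.c 35473026505673 (.c 24 .nil)) (.b 8321 .nil)))) (.node (.node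 (.I .com (.c 15456163896880201 (.c 24 .nil)) (.b 8321 .nil)) (.I .jac (.c 2049 (.c 8 (.c 48 .nil))) (.b 40 (.b 8385 .nil)))) (.node (.I .jac (.c 18433 (.c 8 (.c 40 .nil))) (.b 16 (.b 8385 .nil))) (.I .jac (.c 0 (.c 2737112201 (.c 40 .nil))) (.b 8385 .nil)))))) (.node (.node (.node (.node (.I .jac (.c 0 (.c 18497 (.c 16 .nil))) (.b 40 (.b 8385 .nil))) (.I .jac (.c 0 (.c 8 (.c 48 .nil))) (.b 16 (.b 40 (.b 8385 .nil))))) (.node (.I .jac (.c 1310925193 (.c 8 (.c 16 .nil))) (.b 8385 .nil)) (.I .jac (.c 18433 (.c 8 (.c 16 .nil))) (.b 40 (.b 8385 .nil))))) (.node (.node (.I .jac (.c 12801 (.c 2113 (.c 48 .nil))) (.b 8385 .nil)) (.I .jac (.c 12801 (.c 8 (.c 16 .nil))) (.b 48 (.b 8385 .nil)))) (.node (.I .jac (.c 0 (.c 35718537 (.c 40 .nil))) (.b 8385 .nil)) (.I .jac (.c 0 (.c 2113 (.c 48 .nil))) (.b 40 (.b 8385 .nil)))))) (.node (.node (.node (.I .jac (.c 0 (.c 8 (.c 16 .nil))) (.b 48 (.b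 40 (.b 8385 .nil)))) (.I .jac (.c 2718204041 (.c 8 (.c 40 .nil))) (.b 8385 .nil))) (.node (.I .jac (.c 18433 (.c 12865 (.c 16 .nil))) (.b 8385 .nil)) (.I .tdb (.c 8 (.c 48 (.c 0 (.c 16 .nil)))) (.b 40 (.b 8385 .nil))))) (.node (.node (.I .adp (.c 13748198893136698057 (.c 16 (.c 8385 .nil))) .nil) (.I .adp (.c 59109062884628932553 (.c 16 (.c 8385 .nil))) .nil)) (.node (.I .jac (.c 59109062884628932553 (.c 24 (.c 32 .nil))) (.r 16 .nil)) (.I .adp (.c 35473026505673 (.c 16 (.c 8385 .nil))) .nil)))))) (.node (.node (.node (.node (.node (.I .jac (.c 43059203 (.c 8 (.c 40 .nil))) (.b 8385 .nil)) (.I .tdb (.c 48 (.c 12865 (.c 0 (.c 16 .nil)))) (.b 8385 .nil))) (.node (.I .tdb (.c 8 (.c 40 (.c 0 (.c 16 .nil)))) (.b 48 (.b 8385 .nil))) (.I .adp (.c 59109074018392946377 (.c 16 (.c 8385 .nil))) .nil))) (.node (.node (.I .adp (.c 35470870263817 (.c 16 (.c 8385 .nil))) .nil) (.I .adp (.c 2049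 (.c 1324066185 (.c 8385 .nil))) .nil)) (.node (.I .adp (.c 15456163896880201 (.c 16 (.c 8385 .nil))) .nil) (.I .jac (.c 16 (.c 24 (.c 32 .nil))) (.l 15456163896880201 .nil))))) (.node (.node (.node (.I .jac (.c 15456163896880201 (.c 24 (.c 32 .nil))) (.r 16 .nil)) (.I .adp (.c 2049 (.c 43954755 (.c 8385 .nil))) .nil)) (.node (.I .adp (.c 2737112201 (.c 40 (.c 32 .nil))) (.b 4609 .nil)) (.I .adp (.c 2737112201 (.c 40 (.c 24 .nil))) (.b 8193 .nil)))) (.node (.node (.I .adp (.c 2737112201 (.c 40 (.c 0 .nil))) (.b 8385 .nil)) (.I .com (.c 12801 (.c 2737112201 .nil)) (.b 8385 .nil))) (.node (.I .jac (.c 0 (.c 18497 (.c 16 .nil))) (.r 40 (.b 8385 .nil))) (.I .jac (.c 0 (.c 8 (.c 48 .nil))) (.b 16 (.r 40 (.b 8385 .nil)))))))) (.node (.node (.node (.node (.I .adp (.c 9024839260612617 (.c 40 (.c 8385 .nil))) .nil) (.I .jac (.c 2737112201 (.c 24 (.c 32 .nil))) (.l 12801 .nil))) (.node (.I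 .jac (.c 12801 (.c 24 (.c 32 .nil))) (.r 2737112201 .nil)) (.I .jac (.c 18433 (.c 8 (.c 16 .nil))) (.r 40 (.b 8385 .nil))))) (.node (.node (.I .jac (.c 0 (.c 2113 (.c 48 .nil))) (.r 40 (.b 8385 .nil))) (.I .jac (.c 0 (.c 8 (.c 16 .nil))) (.b 48 (.r 40 (.b 8385 .nil))))) (.node (.I .adp (.c 35464401931273 (.c 40 (.c 8385 .nil))) .nil) (.I .jac (.c 12801 (.c 24 (.c 32 .nil))) (.r 35718537 .nil))))) (.node (.node (.node (.I .jac (.c 12801 (.c 24 (.c 32 .nil))) (.r 43059267 .nil)) (.I .com (.c 33587529 (.c 18497 .nil)) (.b 8385 .nil))) (.node (.I .jac (.c 0 (.c 8 (.c 48 .nil))) (.r 12929 (.b 8385 .nil))) (.I .jac (.c 12929 (.c 24 (.c 32 .nil))) (.l 2718203977 .nil)))) (.node (.node (.I .jac (.c 2718203977 (.c 24 (.c 32 .nil))) (.r 12929 .nil)) (.I .adp (.c 2105737 (.c 12929 (.c 8385 .nil))) .nil)) (.node (.I .jac (.c 1310924937 (.c 24 (.c 32 .nil))) (.r 18497 .nil)) (.I .adp (.c 33587529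 (.c 18497 (.c 8385 .nil))) .nil)))))))

noncomputable def c2_178 : Tr := (.node (.node (.node (.node (.node (.node (.I .adp (.c 15456118887243913 (.c 16 (.c 8385 .nil))) .nil) (.I .jac (.c 16 (.c 24 (.c 32 .nil))) (.l 15456118887243913 .nil))) (.node (.I .jac (.c 15456118887243913 (.c 24 (.c 32 .nil))) (.r 16 .nil)) (.I .adp (.c 3423058053194185 (.c 16 (.c 8385 .nil))) .nil))) (.node (.node (.I .jac (.c 16 (.c 24 (.c 32 .nil))) (.l 3423058053194185 .nil)) (.I .jac (.c 3423058053194185 (.c 24 (.c 32 .nil))) (.r 16 .nil))) (.node (.I .adp (.c 2718203977 (.c 12930 (.c 8385 .nil))) .nil) (.I .tdb (.c 24 (.c 32 (.c 16 (.c 40 .nil)))) (.l 2718203977 .nil))))) (.node (.node (.node (.I .adp (.c 16 (.c 40 (.c 8385 .nil))) (.l 2718203977 .nil)) (.I .jac (.c 16 (.c 24 (.c 32 .nil))) (.r 40 (.l 2718203977 .nil)))) (.node (.I .jac (.c 2718203977 (.c 24 (.c 32 .nil))) (.r 12930 .nil)) (.I .tdp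 (.c 16 (.c 40 (.c 2718203977 (.c 8385 .nil)))) .nil))) (.node (.node (.I .tdb (.c 24 (.c 32 (.c 2718203977 (.c 16 .nil)))) (.l 40 .nil)) (.I .tdb (.c 8 (.c 18433 (.c 24 (.c 40 .nil)))) (.b 32 (.r 16 .nil)))) (.node (.I .tdb (.c 0 (.c 48 (.c 24 (.c 40 .nil)))) (.b 8 (.b 32 (.r 16 .nil)))) (.I .tdb (.c 24 (.c 32 (.c 2718203977 (.c 40 .nil)))) (.r 16 .nil)))))) (.node (.node (.node (.node (.I .tdb (.c 513 (.c 48 (.c 32 (.c 40 .nil)))) (.b 24 (.r 16 .nil))) (.I .tdb (.c 0 (.c 8 (.c 32 (.c 40 .nil)))) (.b 48 (.b 24 (.r 16 .nil))))) (.node (.I .tdb (.c 24 (.c 32 (.c 2105737 (.c 40 .nil)))) (.b 16 .nil)) (.I .tdb (.c 24 (.c 32 (.c 16 (.c 40 .nil)))) (.b 2105737 .nil)))) (.node (.node (.I .adp (.c 18497 (.c 16 (.c 8385 .nil))) (.l 12801 .nil)) (.I .jac (.c 16 (.c 24 (.c 32 .nil))) (.l 18497 (.l 12801 .nil)))) (.node (.I .jac (.c 18497 (.c 24 (.c 32 .nil))) (.r 16 (.l 12801 .nil))) (.I .jac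 (.c 0 (.c 8 (.c 43954883 .nil))) (.b 32 (.l 16 .nil)))))) (.node (.node (.node (.I .tdb (.c 8 (.c 48 (.c 0 (.c 24 .nil)))) (.b 40 (.b 32 (.l 16 .nil)))) (.I .tdb (.c 0 (.c 40 (.c 18497 (.c 32 .nil)))) (.b 24 (.l 16 .nil)))) (.node (.I .tdb (.c 24 (.c 32 (.c 12801 (.c 18497 .nil)))) (.l 16 .nil)) (.I .com (.c 29220792800013619912520277651032099484260150218942336937645502517065 (.c 16 .nil)) .nil))) (.node (.node (.I .com (.c 27664030750836998620697701184373565184416634111954085472844503523145 (.c 16 .nil)) .nil) (.I .com (.c 6441087201774154803902012151386361471235253502684891209609 (.c 16 .nil)) .nil)) (.node (.I .tdb (.c 24 (.c 32 (.c 12801 (.c 18497 .nil)))) (.b 16 .nil)) (.I .tdb (.c 0 (.c 40 (.c 18497 (.c 16 .nil)))) (.b 8385 .nil))))))) (.node (.node (.node (.node (.node (.I .tdb (.c 24 (.c 32 (.c 18497 (.c 16 .nil)))) (.b 12801 .nil)) (.I .adp (.c 18497 (.c 40 (.c 8385 .nil)))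 (.l 2049 .nil))) (.node (.I .tdb (.c 16 (.c 12865 (.c 0 (.c 48 .nil)))) (.b 8385 .nil)) (.I .adp (.c 18433 (.c 1324065929 (.c 8385 .nil))) .nil))) (.node (.node (.I .jac (.c 1324065929 (.c 24 (.c 32 .nil))) (.l 18433 .nil)) (.I .jac (.c 18433 (.c 24 (.c 32 .nil))) (.r 1324065929 .nil))) (.node (.I .jac (.c 9024976834606793 (.c 24 (.c 32 .nil))) (.r 48 .nil)) (.I .adp (.c 13748192181200529161 (.c 48 (.c 8385 .nil))) .nil)))) (.node (.node (.node (.I .jac (.c 13748192181200529161 (.c 24 (.c 32 .nil))) (.r 48 .nil)) (.I .adp (.c 35470870263561 (.c 48 (.c 8385 .nil))) .nil)) (.node (.I .adp (.c 9024839260612553 (.c 48 (.c 8385 .nil))) .nil) (.I .tdb (.c 2113 (.c 40 (.c 0 (.c 48 .nil)))) (.b 8385 .nil)))) (.node (.node (.I .tdb (.c 8 (.c 16 (.c 48 (.c 0 .nil)))) (.b 40 (.b 8385 .nil))) (.I .jac (.c 12801 (.c 8 (.c 16 .nil))) (.r 48 (.b 8385 .nil)))) (.node (.I .jac (.c 0 (.c 2113 (.c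 40 .nil))) (.r 48 (.b 8385 .nil))) (.I .jac (.c 0 (.c 8 (.c 16 .nil))) (.b 40 (.r 48 (.b 8385 .nil)))))))) (.node (.node (.node (.node (.I .adp (.c 18433 (.c 35718473 (.c 8385 .nil))) .nil) (.I .adp (.c 13748193523587631817 (.c 48 (.c 8385 .nil))) .nil)) (.node (.I .adp (.c 35464401931209 (.c 48 (.c 8385 .nil))) .nil) (.I .jac (.c 20891715 (.c 24 (.c 32 .nil))) (.l 18433 .nil)))) (.node (.node (.I .tdb (.c 16 (.c 48 (.c 0 (.c 8 .nil)))) (.b 40 (.b 8385 .nil))) (.I .tdb (.c 8 (.c 40 (.c 18561 (.c 0 .nil)))) (.b 8385 .nil))) (.node (.I .adp (.c 33587593 (.c 12865 (.c 8385 .nil))) .nil) (.I .jac (.c 18561 (.c 24 (.c 32 .nil))) (.l 1310924873 .nil))))) (.node (.node (.node (.I .jac (.c 1310924873 (.c 24 (.c 32 .nil))) (.r 18561 .nil)) (.I .com (.c 43059203 (.c 12865 .nil)) (.b 8385 .nil))) (.node (.I .jac (.c 43059203 (.c 24 (.c 32 .nil))) (.r 12865 .nil)) (.I .adp (.c 18433 (.c 1324168850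 (.c 8385 .nil))) .nil))) (.node (.node (.I .tdb (.c 24 (.c 32 (.c 12865 (.c 16 .nil)))) (.l 18433 .nil)) (.I .jac (.c 18433 (.c 24 (.c 32 .nil))) (.r 1324168850 .nil))) (.node (.I .tdp (.c 12865 (.c 16 (.c 18433 (.c 8385 .nil)))) .nil) (.I .tdb (.c 0 (.c 48 (.c 8 (.c 32 .nil)))) (.b 40 (.b 24 (.l 16 .nil))))))))))

noncomputable def c2_179 : Tr := (.node (.node (.node (.node (.node (.node (.I .tdb (.c 0 (.c 48 (.c 32 (.c 40 .nil)))) (.b 8 (.b 24 (.l 16 .nil)))) (.I .tdb (.c 24 (.c 32 (.c 18433 (.c 16 .nil)))) (.r 12865 .nil))) (.node (.I .tdb (.c 24 (.c 32 (.c 18433 (.c 16 .nil)))) (.b 12865 .nil)) (.I .tdb (.c 24 (.c 32 (.c 12865 (.c 18433 .nil)))) (.b 16 .nil)))) (.node (.node (.I .tdb (.c 24 (.c 32 (.c 12865 (.c 16 .nil)))) (.b 18433 .nil)) (.I .tdb (.c 0 (.c 48 (.c 8 (.c 16 .nil)))) (.b 40 (.b 8385 .nil)))) (.node (.I .tdb (.c 8 (.c 40 (.c 18433 (.c 16 .nil)))) (.b 8385 .nil))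 (.I .tdb (.c 24 (.c 32 (.c 16 (.c 48 .nil)))) (.l 1310924873 .nil))))) (.node (.node (.node (.I .jac (.c 16 (.c 24 (.c 32 .nil))) (.r 48 (.l 1310924873 .nil))) (.I .tdb (.c 24 (.c 32 (.c 1310924873 (.c 16 .nil)))) (.l 48 .nil))) (.node (.I .tdb (.c 8 (.c 12801 (.c 24 (.c 48 .nil)))) (.b 32 (.r 16 .nil))) (.I .tdb (.c 0 (.c 40 (.c 24 (.c 48 .nil)))) (.b 8 (.b 32 (.r 16 .nil)))))) (.node (.node (.I .tdb (.c 8 (.c 12801 (.c 32 (.c 48 .nil)))) (.b 24 (.r 16 .nil))) (.I .tdb (.c 0 (.c 40 (.c 32 (.c 48 .nil)))) (.b 8 (.b 24 (.r 16 .nil))))) (.node (.I .tdb (.c 24 (.c 32 (.c 1310924873 (.c 48 .nil)))) (.r 16 .nil)) (.I .tdb (.c 24 (.c 32 (.c 16 (.c 48 .nil)))) (.b 1310924873 .nil)))))) (.node (.node (.node (.node (.I .tdb (.c 24 (.c 32 (.c 2105673 (.c 48 .nil)))) (.b 16 .nil)) (.I .tdb (.c 24 (.c 32 (.c 2105673 (.c 16 .nil)))) (.b 48 .nil))) (.node (.I .tdb (.c 513 (.c 40 (.c 16 (.c 48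 .nil)))) (.b 8385 .nil)) (.I .tdb (.c 0 (.c 8 (.c 16 (.c 48 .nil)))) (.b 40 (.b 8385 .nil))))) (.node (.node (.I .jac (.c 8385 (.c 40 (.c 48 .nil))) (.l 2105481 .nil)) (.I .adp (.c 43954691 (.c 2113 (.c 8385 .nil))) .nil)) (.node (.I .tdb (.c 0 (.c 48 (.c 24 (.c 40 .nil)))) (.b 32 (.r 2113 .nil))) (.I .jac (.c 3423058053193929 (.c 24 (.c 32 .nil))) (.r 48 .nil))))) (.node (.node (.node (.I .tdb (.c 24 (.c 32 (.c 40 (.c 48 .nil)))) (.l 33587273 .nil)) (.I .jac (.c 20685315 (.c 16 (.c 48 .nil))) (.b 8385 .nil))) (.node (.I .com (.c 13748198893136698121 (.c 8 .nil)) (.b 8385 .nil)) (.I .adp (.c 13748198893136698121 (.c 8 (.c 8385 .nil))) .nil))) (.node (.node (.I .jac (.c 8 (.c 24 (.c 32 .nil))) (.l 13748198893136698121 .nil)) (.I .jac (.c 13748198893136698121 (.c 24 (.c 32 .nil))) (.r 8 .nil))) (.node (.I .adp (.c 59109065668069837769 (.c 8 (.c 8385 .nil))) .nil) (.I .jac (.c 8 (.c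 24 (.c 32 .nil))) (.l 59109065668069837769 .nil))))))) (.node (.node (.node (.node (.node (.I .jac (.c 8 (.c 24 (.c 32 .nil))) (.l 13748193523587632137 .nil)) (.I .jac (.c 13748193523587632137 (.c 24 (.c 32 .nil))) (.r 8 .nil))) (.node (.I .adp (.c 513 (.c 2756086089 (.c 8385 .nil))) .nil) (.I .jac (.c 42762755 (.c 16 (.c 40 .nil))) (.b 8385 .nil)))) (.node (.node (.I .com (.c 59109074018392946441 (.c 8 .nil)) (.b 8385 .nil)) (.I .jac (.c 513 (.c 24 (.c 32 .nil))) (.r 1337272713 .nil))) (.node (.I .adp (.c 15456208906582089 (.c 8 (.c 8385 .nil))) .nil) (.I .jac (.c 8 (.c 24 (.c 32 .nil))) (.l 15456208906582089 .nil))))) (.node (.node (.node (.I .jac (.c 15456208906582089 (.c 24 (.c 32 .nil))) (.r 8 .nil)) (.I .adp (.c 513 (.c 43954819 (.c 8385 .nil))) .nil)) (.node (.I .jac (.c 513 (.c 24 (.c 32 .nil))) (.r 43954819 .nil)) (.I .ass (.c 2718204041 (.c 8 (.c 40 .nil))) (.b 8385 .nil))))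 (.node (.node (.I .ass (.c 33587593 (.c 8 (.c 40 .nil))) (.b 8385 .nil)) (.I .adp (.c 3491688652046793 (.c 8 (.c 8385 .nil))) .nil)) (.node (.I .jac (.c 3491688652046793 (.c 24 (.c 32 .nil))) (.r 8 .nil)) (.I .tdb (.c 24 (.c 32 (.c 2718204041 (.c 8 .nil)))) (.l 40 .nil)))))) (.node (.node (.node (.node (.I .tdb (.c 16 (.c 18433 (.c 24 (.c 40 .nil)))) (.b 32 (.r 8 .nil))) (.I .tdb (.c 0 (.c 48 (.c 24 (.c 40 .nil)))) (.b 16 (.b 32 (.r 8 .nil))))) (.node (.I .tdb (.c 16 (.c 18433 (.c 32 (.c 40 .nil)))) (.b 24 (.r 8 .nil))) (.I .tdb (.c 0 (.c 48 (.c 32 (.c 40 .nil)))) (.b 16 (.b 24 (.r 8 .nil)))))) (.node (.node (.I .adp (.c 33587593 (.c 12866 (.c 8385 .nil))) .nil) (.I .tdb (.c 24 (.c 32 (.c 8 (.c 40 .nil)))) (.l 33587593 .nil))) (.node (.I .adp (.c 8 (.c 40 (.c 8385 .nil))) (.l 33587593 .nil)) (.I .jac (.c 8 (.c 24 (.c 32 .nil))) (.r 40 (.l 33587593 .nil)))))) (.node (.node (.node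 (.I .jac (.c 33587593 (.c 24 (.c 32 .nil))) (.r 12866 .nil)) (.I .tdp (.c 8 (.c 40 (.c 33587593 (.c 8385 .nil)))) .nil)) (.node (.I .tdb (.c 24 (.c 32 (.c 33587593 (.c 40 .nil)))) (.r 8 .nil)) (.I .jac (.c 18561 (.c 24 (.c 32 .nil))) (.l 20685315 .nil)))) (.node (.node (.I .adp (.c 12801 (.c 2756085834 (.c 8385 .nil))) .nil) (.I .tdb (.c 24 (.c 32 (.c 18561 (.c 8 .nil)))) (.l 12801 .nil))) (.node (.I .jac (.c 12801 (.c 24 (.c 32 .nil))) (.r 2756085834 .nil)) (.I .tdp (.c 8 (.c 18561 (.c 8385 (.c 12801 .nil)))) .nil)))))))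

noncomputable def c2_180 : Tr := (.node (.node (.node (.node (.node (.node (.I .tdb (.c 0 (.c 40 (.c 8 (.c 32 .nil)))) (.b 24 (.l 18561 .nil))) (.I .tdb (.c 24 (.c 32 (.c 12801 (.c 8 .nil)))) (.l 18561 .nil))) (.node (.I .tdb (.c 0 (.c 40 (.c 18561 (.c 24 .nil)))) (.b 32 (.r 8 .nil))) (.I .adp (.c 513 (.c 2756234578 (.c 8385 .nil))) .nil))) (.node (.node (.I .adp (.c 18561 (.c 40 (.c 8385 .nil))) (.l 513 .nil)) (.I .jac (.c 513 (.c 24 (.c 32 .nil))) (.r 2756234578 .nil))) (.node (.I .tdp (.c 18561 (.c 40 (.c 513 (.c 8385 .nil)))) .nil) (.I .tdb (.c 0 (.c 8 (.c 40 (.c 8385 .nil)))) (.r 18561 .nil))))) (.node (.node (.node (.I .tdb (.c 24 (.c 32 (.c 0 (.c 40 .nil)))) (.b 8 (.r 18561 .nil))) (.I .tdb (.c 24 (.c 32 (.c 8 (.c 40 .nil)))) (.b 0 (.r 18561 .nil)))) (.node (.I .com (.c 14832759703961993 (.c 8 .nil)) (.b 8385 .nil)) (.I .adp (.c 14832759703961993 (.c 8 (.c 8385 .nil))) .nil)))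 (.node (.node (.I .jac (.c 14832759703961993 (.c 24 (.c 32 .nil))) (.r 8 .nil)) (.I .adp (.c 18433 (.c 1337272394 (.c 8385 .nil))) .nil)) (.node (.I .tdb (.c 24 (.c 32 (.c 12929 (.c 8 .nil)))) (.l 18433 .nil)) (.I .jac (.c 18433 (.c 24 (.c 32 .nil))) (.r 1337272394 .nil)))))) (.node (.node (.node (.node (.I .tdp (.c 8 (.c 12929 (.c 18433 (.c 8385 .nil)))) .nil) (.I .tdb (.c 0 (.c 48 (.c 8 (.c 32 .nil)))) (.b 24 (.l 12929 .nil)))) (.node (.I .tdb (.c 24 (.c 32 (.c 18433 (.c 8 .nil)))) (.l 12929 .nil)) (.I .tdb (.c 24 (.c 32 (.c 12929 (.c 18433 .nil)))) (.b 8 .nil)))) (.node (.node (.I .tdb (.c 24 (.c 32 (.c 18433 (.c 8 .nil)))) (.b 12929 .nil)) (.I .tdb (.c 24 (.c 32 (.c 12929 (.c 8 .nil)))) (.b 18433 .nil))) (.node (.I .tdb (.c 16 (.c 40 (.c 18433 (.c 8 .nil)))) (.b 8385 .nil)) (.I .tdb (.c 24 (.c 32 (.c 8 (.c 48 .nil)))) (.l 1310924937 .nil))))) (.node (.node (.node (.I .jac (.c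 8 (.c 24 (.c 32 .nil))) (.r 48 (.l 1310924937 .nil))) (.I .tdb (.c 16 (.c 12801 (.c 24 (.c 48 .nil)))) (.b 32 (.r 8 .nil)))) (.node (.I .tdb (.c 0 (.c 40 (.c 24 (.c 48 .nil)))) (.b 16 (.b 32 (.r 8 .nil)))) (.I .tdb (.c 16 (.c 12801 (.c 32 (.c 48 .nil)))) (.b 24 (.r 8 .nil))))) (.node (.node (.I .tdb (.c 0 (.c 40 (.c 32 (.c 48 .nil)))) (.b 16 (.b 24 (.r 8 .nil)))) (.I .tdb (.c 24 (.c 32 (.c 1310924937 (.c 48 .nil)))) (.r 8 .nil))) (.node (.I .tdb (.c 24 (.c 32 (.c 1310924937 (.c 8 .nil)))) (.b 48 .nil)) (.I .tdb (.c 24 (.c 32 (.c 8 (.c 48 .nil)))) (.l 33587529 .nil))))))) (.node (.node (.node (.node (.node (.I .jac (.c 8 (.c 24 (.c 32 .nil))) (.r 48 (.l 33587529 .nil))) (.I .tdb (.c 2049 (.c 40 (.c 24 (.c 48 .nil)))) (.b 32 (.r 8 .nil)))) (.node (.I .tdb (.c 0 (.c 16 (.c 48 (.c 24 .nil)))) (.b 40 (.b 32 (.r 8 .nil)))) (.I .tdb (.c 2049 (.c 40 (.c 32 (.c 48 .nil)))) (.b 24 (.r 8 .nil)))))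 (.node (.node (.I .tdb (.c 0 (.c 16 (.c 32 (.c 48 .nil)))) (.b 40 (.b 24 (.r 8 .nil)))) (.I .tdb (.c 24 (.c 32 (.c 33587529 (.c 48 .nil)))) (.r 8 .nil))) (.node (.I .tdb (.c 24 (.c 32 (.c 33587529 (.c 48 .nil)))) (.b 8 .nil)) (.I .tdb (.c 24 (.c 32 (.c 33587529 (.c 8 .nil)))) (.b 48 .nil))))) (.node (.node (.node (.I .tdb (.c 2049 (.c 40 (.c 8 (.c 48 .nil)))) (.b 8385 .nil)) (.I .tdb (.c 0 (.c 16 (.c 48 (.c 8 .nil)))) (.b 40 (.b 8385 .nil)))) (.node (.I .tdb (.c 24 (.c 32 (.c 8 (.c 48 .nil)))) (.b 33587529 .nil)) (.I .jac (.c 169943369 (.c 32 (.c 48 .nil))) (.l 16 (.l 8 .nil))))) (.node (.node (.I .com (.c 427057993508084562470663629860471689 (.c 16 .nil)) (.l 8 .nil)) (.I .com (.c 427057350195049030035896088956978121 (.c 16 .nil)) (.l 8 .nil))) (.node (.I .com (.c 427057993508084089288477468582296585 (.c 16 .nil)) (.l 8 .nil)) (.I .ass (.c 427057993508084562470663629860471689 (.c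 8 (.c 16 .nil))) .nil))))) (.node (.node (.node (.node (.I .ass (.c 8 (.c 427058636821846429560832352193444809 (.c 16 .nil))) .nil) (.I .ass (.c 427058636821846429560832352193444809 (.c 8 (.c 16 .nil))) .nil)) (.node (.I .com (.c 8 (.c 427058636821846429560832352193444809 .nil)) (.r 16 .nil)) (.I .ass (.c 427057350195049030035896088956978121 (.c 8 (.c 16 .nil))) .nil))) (.node (.node (.I .ass (.c 427057993508084089288477468582296585 (.c 8 (.c 16 .nil))) .nil) (.I .jac (.c 43059203 (.c 32 (.c 40 .nil))) (.b 24 (.l 8 .nil)))) (.node (.I .com (.c 427057350195048793444981206822395913 (.c 16 .nil)) (.l 8 .nil)) (.I .ass (.c 8 (.c 427058636821846666152103631404146569 (.c 16 .nil))) .nil)))) (.node (.node (.node (.I .ass (.c 427058636821846666152103631404146569 (.c 8 (.c 16 .nil))) .nil) (.I .com (.c 8 (.c 427058636821846666152103631404146569 .nil)) (.r 16 .nil))) (.node (.I .ass (.c 427057350195048793444981206822395913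 (.c 8 (.c 16 .nil))) .nil) (.I .jac (.c 20891651 (.c 24 (.c 48 .nil))) (.b 32 (.l 8 .nil))))) (.node (.node (.I .tdb (.c 40 (.c 18625 (.c 0 (.c 16 .nil)))) (.b 32 (.l 8 .nil))) (.I .jac (.c 537002313 (.c 24 (.c 48 .nil))) (.l 16 (.l 8 .nil)))) (.node (.I .jac (.c 8193 (.c 18625 (.c 40 .nil))) (.l 16 (.l 8 .nil))) (.I .jac (.c 8193 (.c 24 (.c 48 .nil))) (.b 40 (.l 16 (.l 8 .nil))))))))))

noncomputable def c2_181 : Tr := (.node (.node (.node (.node (.node (.node (.I .com (.c 42576953795010663218959029878649750345 (.c 16 .nil)) (.l 8 .nil)) (.I .com (.c 42576974092320101918705356412332005321 (.c 16 .nil)) (.l 8 .nil))) (.node (.I .com (.c 42576953795010656131941434981856024585 (.c 16 .nil)) (.l 8 .nil)) (.I .ass (.c 8 (.c 42576974092320101918705356412332005321 (.c 16 .nil))) .nil))) (.node (.node (.I .com (.c 8 (.c 42576974092320101918705356412332005321 .nil)) (.r 16 .nil)) (.I .ass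 (.c 8 (.c 42576913200413542961749526065342514121 (.c 16 .nil))) .nil)) (.node (.I .com (.c 8 (.c 42576913200413542961749526065342514121 .nil)) (.r 16 .nil)) (.I .tdb (.c 0 (.c 32 (.c 8 (.c 16 .nil)))) (.l 2775125321 .nil))))) (.node (.node (.node (.I .com (.c 598976858557513 (.c 2775125321 .nil)) .nil) (.I .jac (.c 20685315 (.c 24 (.c 48 .nil))) (.b 32 (.r 16 .nil)))) (.node (.I .tdb (.c 0 (.c 32 (.c 2775125321 (.c 8 .nil)))) (.r 16 .nil)) (.I .tdb (.c 40 (.c 18625 (.c 0 (.c 8 .nil)))) (.b 32 (.r 16 .nil))))) (.node (.node (.I .tdb (.c 0 (.c 32 (.c 8 (.c 16 .nil)))) (.b 2775125321 .nil)) (.I .jac (.c 43059203 (.c 24 (.c 40 .nil))) (.b 32 (.l 8 .nil)))) (.node (.I .com (.c 42576913200413540599411453941751701513 (.c 16 .nil)) (.l 8 .nil)) (.I .ass (.c 8 (.c 537002121 (.c 1350544777 .nil))) .nil))))) (.node (.node (.node (.node (.I .ass (.c 537002121 (.c 8 (.c 1350544777 .nil))) .nil)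 (.I .com (.c 8 (.c 537002121 .nil)) (.r 1350544777 .nil))) (.node (.I .tdb (.c 0 (.c 32 (.c 8 (.c 16 .nil)))) (.b 1350544777 .nil)) (.I .tdb (.c 40 (.c 18433 (.c 8 (.c 24 .nil)))) (.b 32 (.l 16 .nil))))) (.node (.node (.I .tdb (.c 40 (.c 18433 (.c 8 (.c 16 .nil)))) (.b 8385 .nil)) (.I .tdb (.c 24 (.c 32 (.c 8 (.c 16 .nil)))) (.b 2718204233 .nil))) (.node (.I .com (.c 58240646186293806597287516734586359580725313507483542651388745 (.c 16 .nil)) .nil) (.I .tdb (.c 24 (.c 32 (.c 8 (.c 16 .nil)))) (.b 1310925193 .nil))))) (.node (.node (.node (.I .adp (.c 557571 (.c 18753 (.c 8385 .nil))) .nil) (.I .adp (.c 8 (.c 18753 (.c 8385 .nil))) (.l 2049 .nil))) (.node (.I .adp (.c 43954691 (.c 16 (.c 32 .nil))) (.b 4673 .nil)) (.I .adp (.c 43954691 (.c 16 (.c 24 .nil))) (.b 8257 .nil)))) (.node (.node (.I .adp (.c 43954691 (.c 16 (.c 8 .nil))) (.b 8385 .nil)) (.I .adp (.c 33587593 (.c 40 (.c 32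 .nil))) (.b 4673 .nil))) (.node (.I .adp (.c 33587593 (.c 40 (.c 24 .nil))) (.b 8257 .nil)) (.I .adp (.c 33587593 (.c 40 (.c 8 .nil))) (.b 8385 .nil))))))) (.node (.node (.node (.node (.node (.I .adp (.c 43059203 (.c 40 (.c 32 .nil))) (.b 4673 .nil)) (.I .adp (.c 43059203 (.c 40 (.c 24 .nil))) (.b 8257 .nil))) (.node (.I .adp (.c 43059203 (.c 40 (.c 8 .nil))) (.b 8385 .nil)) (.I .jac (.c 8 (.c 16 (.c 40 .nil))) (.l 18433 (.b 8385 .nil))))) (.node (.node (.I .adp (.c 18433 (.c 12930 (.c 32 .nil))) (.b 4673 .nil)) (.I .adp (.c 16 (.c 40 (.c 32 .nil))) (.l 18433 (.b 4673 .nil)))) (.node (.I .tdp (.c 16 (.c 40 (.c 18433 (.c 32 .nil)))) (.b 4673 .nil)) (.I .tdb (.c 0 (.c 48 (.c 32 (.c 40 .nil)))) (.r 16 (.b 4673 .nil)))))) (.node (.node (.node (.I .adp (.c 18433 (.c 12930 (.c 24 .nil))) (.b 8257 .nil)) (.I .adp (.c 16 (.c 40 (.c 24 .nil))) (.l 18433 (.b 8257 .nil)))) (.node (.I .tdp (.c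 16 (.c 40 (.c 18433 (.c 24 .nil)))) (.b 8257 .nil)) (.I .tdb (.c 0 (.c 48 (.c 24 (.c 40 .nil)))) (.r 16 (.b 8257 .nil))))) (.node (.node (.I .adp (.c 18433 (.c 12930 (.c 8 .nil))) (.b 8385 .nil)) (.I .adp (.c 16 (.c 40 (.c 8 .nil))) (.l 18433 (.b 8385 .nil)))) (.node (.I .com (.c 12865 (.c 16 .nil)) (.l 18433 (.b 8385 .nil))) (.I .tdp (.c 16 (.c 40 (.c 18433 (.c 8 .nil)))) (.b 8385 .nil)))))) (.node (.node (.node (.node (.I .tdb (.c 0 (.c 48 (.c 8 (.c 40 .nil)))) (.r 16 (.b 8385 .nil))) (.I .tdb (.c 0 (.c 40 (.c 32 (.c 48 .nil)))) (.r 16 (.b 4673 .nil)))) (.node (.I .adp (.c 0 (.c 2756086089 (.c 32 .nil))) (.b 4673 .nil)) (.I .adp (.c 0 (.c 2756086089 (.c 24 .nil))) (.b 8257 .nil)))) (.node (.node (.I .adp (.c 0 (.c 2756086089 (.c 8 .nil))) (.b 8385 .nil)) (.I .jac (.c 12865 (.c 16 (.c 48 .nil))) (.l 0 (.b 8385 .nil)))) (.node (.I .jac (.c 8 (.c 18561 (.c 40 .nil))) (.l 0 (.b 8385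 .nil))) (.I .jac (.c 8 (.c 16 (.c 48 .nil))) (.b 40 (.l 0 (.b 8385 .nil))))))) (.node (.node (.node (.I .adp (.c 0 (.c 59934265606904515529 (.c 8385 .nil))) .nil) (.I .jac (.c 0 (.c 24 (.c 32 .nil))) (.r 59934265606904515529 .nil))) (.node (.I .jac (.c 18497 (.c 16 (.c 40 .nil))) (.l 0 (.b 8385 .nil))) (.I .adp (.c 0 (.c 59934274015313491721 (.c 8385 .nil))) .nil))) (.node (.node (.I .jac (.c 59934274015313491721 (.c 24 (.c 32 .nil))) (.l 0 .nil)) (.I .jac (.c 0 (.c 24 (.c 32 .nil))) (.r 59934274015313491721 .nil))) (.node (.I .adp (.c 0 (.c 10206474507614217 (.c 8385 .nil))) .nil) (.I .jac (.c 0 (.c 24 (.c 32 .nil))) (.r 10206474507614217 .nil))))))))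

noncomputable def c2_182 : Tr := (.node (.node (.node (.node (.node (.node (.I .jac (.c 15456208906582153 (.c 24 (.c 32 .nil))) (.l 0 .nil)) (.I .jac (.c 3491710045130185 (.c 24 (.c 32 .nil))) (.l 0 .nil))) (.node (.I .tdb (.c 8 (.c 48 (.c 24 (.c 40 .nil)))) (.b 16 (.b 32 (.l 0 .nil)))) (.I .tdb (.c 16 (.c 18497 (.c 32 (.c 40 .nil)))) (.b 24 (.l 0 .nil))))) (.node (.node (.I .tdb (.c 24 (.c 32 (.c 2737112201 (.c 40 .nil)))) (.l 0 .nil)) (.I .jac (.c 2737112201 (.c 24 (.c 32 .nil))) (.r 40 (.l 0 .nil)))) (.node (.I .tdb (.c 24 (.c 32 (.c 0 (.c 40 .nil)))) (.b 2737112201 .nil)) (.I .tdb (.c 24 (.c 32 (.c 2737112201 (.c 40 .nil)))) (.b 0 .nil))))) (.node (.node (.node (.I .jac (.c 18561 (.c 24 (.c 32 .nil))) (.l 12865 (.l 0 .nil))) (.I .tdp (.c 12865 (.c 18561 (.c 0 (.c 8385 .nil)))) .nil)) (.node (.I .tdb (.c 8 (.c 40 (.c 0 (.c 32 .nil)))) (.b 24 (.l 18561 .nil))) (.I .tdb (.c 16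 (.c 48 (.c 0 (.c 24 .nil)))) (.b 32 (.r 12865 .nil))))) (.node (.node (.I .tdb (.c 24 (.c 32 (.c 18561 (.c 0 .nil)))) (.r 12865 .nil)) (.I .tdb (.c 24 (.c 32 (.c 18561 (.c 0 .nil)))) (.b 12865 .nil))) (.node (.I .tdb (.c 24 (.c 32 (.c 12865 (.c 0 .nil)))) (.b 18561 .nil)) (.I .tdb (.c 24 (.c 32 (.c 12865 (.c 18561 .nil)))) (.b 0 .nil)))))) (.node (.node (.node (.node (.I .tdb (.c 16 (.c 40 (.c 18497 (.c 24 .nil)))) (.b 32 (.l 0 .nil))) (.I .tdb (.c 16 (.c 40 (.c 18497 (.c 32 .nil)))) (.b 24 (.l 0 .nil)))) (.node (.I .tdb (.c 24 (.c 32 (.c 12929 (.c 18497 .nil)))) (.l 0 .nil)) (.I .tdb (.c 8 (.c 48 (.c 0 (.c 24 .nil)))) (.b 32 (.l 12929 .nil))))) (.node (.node (.I .tdb (.c 8 (.c 48 (.c 0 (.c 32 .nil)))) (.b 24 (.l 12929 .nil))) (.I .tdb (.c 16 (.c 40 (.c 0 (.c 32 .nil)))) (.b 24 (.r 18497 .nil)))) (.node (.I .tdb (.c 24 (.c 32 (.c 12929 (.c 0 .nil)))) (.r 18497 .nil)) (.I .tdb (.c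 24 (.c 32 (.c 12929 (.c 0 .nil)))) (.b 18497 .nil))))) (.node (.node (.node (.I .tdb (.c 24 (.c 32 (.c 18497 (.c 0 .nil)))) (.b 12929 .nil)) (.I .tdb (.c 24 (.c 32 (.c 12929 (.c 18497 .nil)))) (.b 0 .nil))) (.node (.I .jac (.c 174695753 (.c 32 (.c 48 .nil))) (.l 16 (.l 0 .nil))) (.I .jac (.c 545424713 (.c 24 (.c 48 .nil))) (.l 16 (.l 0 .nil))))) (.node (.node (.I .jac (.c 8257 (.c 18625 (.c 40 .nil))) (.l 16 (.l 0 .nil))) (.I .jac (.c 8257 (.c 24 (.c 48 .nil))) (.b 40 (.l 16 (.l 0 .nil))))) (.node (.I .tdb (.c 24 (.c 32 (.c 2737112393 (.c 16 .nil)))) (.l 0 .nil)) (.I .tdb (.c 24 (.c 32 (.c 2737112393 (.c 0 .nil)))) (.l 16 .nil))))))) (.node (.node (.node (.node (.node (.I .com (.c 89098986658132392148749725166171908722226795453828911740370993993 (.c 16 .nil)) .nil) (.I .jac (.c 43655171 (.c 8 (.c 40 .nil))) (.b 24 (.l 16 .nil)))) (.node (.I .jac (.c 43356675 (.c 8 (.c 40 .nil)))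 (.b 32 (.l 16 .nil))) (.I .com (.c 26186512359091809868165733223509397663821210969996332404883668307849 (.c 16 .nil)) .nil))) (.node (.node (.I .jac (.c 12865 (.c 16 (.c 48 .nil))) (.b 537002185 .nil)) (.I .adp (.c 8193 (.c 24 (.c 14025210098083633929 .nil))) .nil)) (.node (.I .adp (.c 8193 (.c 24 (.c 14025204674709064713 .nil))) .nil) (.I .com (.c 1512103782441961050885067571858279445321 (.c 8257 .nil)) .nil)))) (.node (.node (.node (.I .com (.c 1512103782441961050885067571858279445385 (.c 4673 .nil)) .nil) (.I .com (.c 8257 (.c 24 .nil)) (.b 59109065668069837769 .nil))) (.node (.I .adp (.c 24 (.c 32 (.c 8 .nil))) (.b 59109065668069837769 .nil)) (.I .adp (.c 8257 (.c 24 (.c 59109065668069837769 .nil))) .nil))) (.node (.node (.I .com (.c 27951053153217539014174880853583831179081 (.c 8257 .nil)) .nil) (.I .adp (.c 4673 (.c 32 (.c 59109065668069837769 .nil))) .nil)) (.node (.I .com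 (.c 27951053153217539014174880853583831179145 (.c 4673 .nil)) .nil) (.I .adp (.c 8257 (.c 24 (.c 13748193523587632137 .nil))) .nil))))) (.node (.node (.node (.node (.I .adp (.c 4673 (.c 32 (.c 13748193523587632137 .nil))) .nil) (.I .adp (.c 4609 (.c 32 (.c 59934274015313491721 .nil))) .nil)) (.node (.I .adp (.c 24 (.c 32 (.c 0 .nil))) (.b 10206474507614217 .nil)) (.I .com (.c 8193 (.c 24 .nil)) (.b 10206474507614217 .nil)))) (.node (.node (.I .adp (.c 8193 (.c 24 (.c 10206474507614217 .nil))) .nil) (.I .adp (.c 4609 (.c 32 (.c 10206474507614217 .nil))) .nil)) (.node (.I .adp (.c 8257 (.c 24 (.c 59109074018392946441 .nil))) .nil) (.I .com (.c 27951061050494848518852093974251956532041 (.c 8257 .nil)) .nil)))) (.node (.node (.node (.I .com (.c 8257 (.c 24 .nil)) (.b 9024976834607113 .nil)) (.I .adp (.c 24 (.c 32 (.c 8 .nil))) (.b 9024976834607113 .nil))) (.node (.I .adp (.c 8257 (.c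 24 (.c 9024976834607113 .nil))) .nil) (.I .adp (.c 4673 (.c 32 (.c 9024976834607113 .nil))) .nil))) (.node (.node (.I .adp (.c 8193 (.c 24 (.c 15456208906582153 .nil))) .nil) (.I .adp (.c 4609 (.c 32 (.c 15456208906582153 .nil))) .nil)) (.node (.I .adp (.c 8257 (.c 24 (.c 15456208906582089 .nil))) .nil) (.I .adp (.c 4673 (.c 32 (.c 15456208906582089 .nil))) .nil)))))))

noncomputable def c2_183 : Tr := (.node (.node (.node (.node (.node (.node (.I .adp (.c 18561 (.c 40 (.c 8 .nil))) (.b 537002185 .nil)) (.I .com (.c 12865 (.c 18561 .nil)) (.b 537002185 .nil))) (.node (.I .jac (.c 8 (.c 16 (.c 48 .nil))) (.r 40 (.b 537002185 .nil))) (.I .adp (.c 2737112201 (.c 40 (.c 537002185 .nil))) .nil))) (.node (.node (.I .jac (.c 8 (.c 16 (.c 48 .nil))) (.r 40 (.b 169943305 .nil))) (.I .adp (.c 12865 (.c 18561 (.c 169943305 .nil))) .nil)) (.node (.I .adp (.c 2718204041 (.c 40 (.c 545424585 .nil)))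 .nil) (.I .adp (.c 33587593 (.c 40 (.c 545424585 .nil))) .nil)))) (.node (.node (.node (.I .jac (.c 12801 (.c 8257 (.c 24 .nil))) (.r 18561 .nil)) (.I .jac (.c 0 (.c 16 (.c 48 .nil))) (.r 40 (.b 174695689 .nil)))) (.node (.I .adp (.c 2718204041 (.c 40 (.c 174695689 .nil))) .nil) (.I .adp (.c 33587593 (.c 40 (.c 174695689 .nil))) .nil))) (.node (.node (.I .adp (.c 8193 (.c 24 (.c 3491710045130185 .nil))) .nil) (.I .com (.c 617611520074121 (.c 2737112201 .nil)) .nil)) (.node (.I .jac (.c 617611520073929 (.c 8 (.c 48 .nil))) (.r 40 .nil)) (.I .jac (.c 8786435 (.c 18497 (.c 16 .nil))) (.r 40 .nil)))))) (.node (.node (.node (.node (.I .jac (.c 8786435 (.c 8 (.c 48 .nil))) (.b 16 (.r 40 .nil))) (.I .tdb (.c 16 (.c 18497 (.c 24 (.c 40 .nil)))) (.l 8193 .nil))) (.node (.I .jac (.c 537002121 (.c 8 (.c 48 .nil))) (.r 40 (.r 24 .nil))) (.I .jac (.c 169943177 (.c 8 (.c 48 .nil))) (.r 40 (.r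 32 .nil))))) (.node (.node (.I .ass (.c 427056063571158386490489209096946377 (.c 40 (.c 32 .nil))) .nil) (.I .com (.c 32 (.c 40 .nil)) (.l 427056063571158386490489209096946377 .nil))) (.node (.I .ass (.c 427055420260303274284998876733539081 (.c 40 (.c 32 .nil))) .nil) (.I .com (.c 32 (.c 40 .nil)) (.l 427055420260303274284998876733539081 .nil))))) (.node (.node (.node (.I .ass (.c 427056063571157203537696782463438857 (.c 40 (.c 32 .nil))) .nil) (.I .com (.c 32 (.c 40 .nil)) (.l 427056063571157203537696782463438857 .nil))) (.node (.I .tdb (.c 2113 (.c 48 (.c 24 (.c 40 .nil)))) (.l 8193 .nil)) (.I .tdb (.c 8 (.c 16 (.c 40 (.c 24 .nil)))) (.b 48 (.l 8193 .nil))))) (.node (.node (.I .ass (.c 427055420260302327923477728639448073 (.c 40 (.c 32 .nil))) .nil) (.I .com (.c 32 (.c 40 .nil)) (.l 427055420260302327923477728639448073 .nil))) (.node (.I .adp (.c 12865 (.c 18561 (.c 8786435 .nil)))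 .nil) (.I .jac (.c 8786435 (.c 16 (.c 48 .nil))) (.l 12865 .nil))))))) (.node (.node (.node (.node (.node (.I .tdb (.c 16 (.c 48 (.c 0 (.c 8 .nil)))) (.b 40 (.b 32 (.r 24 .nil)))) (.I .com (.c 2306970223667989513 (.c 12865 .nil)) (.r 24 .nil))) (.node (.I .ass (.c 2306971873338799817 (.c 18561 (.c 24 .nil))) .nil) (.I .jac (.c 0 (.c 8 (.c 21307587 .nil))) (.l 18561 .nil)))) (.node (.node (.I .tdb (.c 8 (.c 40 (.c 24 (.c 32 .nil)))) (.b 0 (.l 18561 .nil))) (.I .tdb (.c 16 (.c 48 (.c 24 (.c 32 .nil)))) (.b 0 (.r 12865 .nil)))) (.node (.I .adp (.c 4609 (.c 32 (.c 2756188690 .nil))) .nil) (.I .adp (.c 12865 (.c 18561 (.c 32 .nil))) (.l 4609 .nil))))) (.node (.node (.node (.I .tdb (.c 0 (.c 24 (.c 12865 (.c 18561 .nil)))) (.r 32 .nil)) (.I .tdb (.c 8 (.c 40 (.c 18561 (.c 0 .nil)))) (.b 24 (.r 32 .nil)))) (.node (.I .jac (.c 8 (.c 16 (.c 43954883 .nil))) (.b 0 (.r 32 .nil))) (.I .tdb (.c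 8 (.c 40 (.c 18561 (.c 24 .nil)))) (.b 0 (.r 32 .nil))))) (.node (.node (.I .tdb (.c 16 (.c 48 (.c 24 (.c 40 .nil)))) (.b 8 (.b 0 (.r 32 .nil)))) (.I .adp (.c 12865 (.c 18561 (.c 4609 .nil))) (.r 32 .nil))) (.node (.I .jac (.c 4609 (.c 16 (.c 48 .nil))) (.l 12865 (.r 32 .nil))) (.I .com (.c 231046163358604041 (.c 12865 .nil)) (.r 32 .nil)))))) (.node (.node (.node (.node (.I .com (.c 231045467270827017 (.c 12865 .nil)) (.r 32 .nil)) (.I .jac (.c 4609 (.c 8 (.c 40 .nil))) (.r 18561 (.r 32 .nil)))) (.node (.I .ass (.c 231045989336561353 (.c 18561 (.c 32 .nil))) .nil) (.I .tdp (.c 12865 (.c 18561 (.c 4609 (.c 32 .nil)))) .nil))) (.node (.node (.I .tdb (.c 0 (.c 24 (.c 32 (.c 12865 .nil)))) (.l 18561 .nil)) (.I .tdb (.c 0 (.c 24 (.c 32 (.c 18561 .nil)))) (.r 12865 .nil))) (.node (.I .adp (.c 8257 (.c 24 (.c 15456118887243977 .nil))) .nil) (.I .adp (.c 2718204041 (.c 40 (.c 8786499 .nil)))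 .nil)))) (.node (.node (.node (.I .tdb (.c 0 (.c 48 (.c 24 (.c 40 .nil)))) (.b 16 (.l 8257 .nil))) (.I .ass (.c 8257 (.c 59109065668069837641 (.c 40 .nil))) .nil)) (.node (.I .ass (.c 59109065668069837641 (.c 8257 (.c 40 .nil))) .nil) (.I .com (.c 8257 (.c 59109065668069837641 .nil)) (.r 40 .nil)))) (.node (.node (.I .com (.c 2718204041 (.c 3561367726845257 .nil)) .nil) (.I .com (.c 2718204041 (.c 3632106110100617 .nil)) .nil)) (.node (.I .tdb (.c 16 (.c 18433 (.c 32 (.c 40 .nil)))) (.l 4673 .nil)) (.I .ass (.c 4673 (.c 59109065668069837705 (.c 40 .nil))) .nil)))))))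

noncomputable def c2_184 : Tr := (.node (.node (.node (.node (.node (.node (.I .ass (.c 59109065668069837705 (.c 4673 (.c 40 .nil))) .nil) (.I .com (.c 4673 (.c 59109065668069837705 .nil)) (.r 40 .nil))) (.node (.I .ass (.c 27951053153217538893119514365376803559113 (.c 40 (.c 32 .nil))) .nil) (.I .com (.c 32 (.c 40 .nil)) (.l 27951053153217538893119514365376803559113 .nil)))) (.node (.node (.I .ass (.c 27951053153217538772064147877169776201545 (.c 40 (.c 32 .nil))) .nil) (.I .com (.c 32 (.c 40 .nil)) (.l 27951053153217538772064147877169776201545 .nil))) (.node (.I .com (.c 2718204041 (.c 3632062472293641 .nil)) .nil) (.I .tdb (.c 2049 (.c 48 (.c 24 (.c 40 .nil)))) (.l 8257 .nil))))) (.node (.node (.node (.I .tdb (.c 0 (.c 16 (.c 40 (.c 24 .nil)))) (.b 48 (.l 8257 .nil))) (.I .tdb (.c 8 (.c 32 (.c 24 (.c 40 .nil)))) (.r 33587593 .nil))) (.node (.I .com (.c 105533754468735423754529113698313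 (.c 4673 .nil)) .nil) (.I .tdb (.c 16 (.c 48 (.c 0 (.c 24 .nil)))) (.b 40 (.l 8257 .nil))))) (.node (.node (.I .com (.c 1809230235455484827416425822613449 (.c 8257 .nil)) .nil) (.I .tdb (.c 0 (.c 40 (.c 18561 (.c 8 .nil)))) (.b 32 (.r 24 .nil)))) (.node (.I .tdb (.c 0 (.c 40 (.c 18561 (.c 32 .nil)))) (.b 8 (.r 24 .nil))) (.I .ass (.c 13748196208362033865 (.c 18561 (.c 24 .nil))) .nil))))) (.node (.node (.node (.node (.I .com (.c 1859570876265457888126924734394313 (.c 4673 .nil)) .nil) (.I .tdb (.c 0 (.c 40 (.c 18561 (.c 24 .nil)))) (.b 8 (.r 32 .nil)))) (.node (.I .tdb (.c 8 (.c 24 (.c 12801 (.c 18561 .nil)))) (.r 32 .nil)) (.I .jac (.c 12801 (.c 8 (.c 24 .nil))) (.r 18561 (.r 32 .nil))))) (.node (.node (.I .ass (.c 13748192181200529225 (.c 18561 (.c 32 .nil))) .nil) (.I .tdb (.c 8 (.c 24 (.c 32 (.c 12801 .nil)))) (.l 18561 .nil))) (.node (.I .adp (.c 35718473 (.c 48 (.c 537002185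 .nil))) .nil) (.I .jac (.c 18433 (.c 8257 (.c 24 .nil))) (.r 12929 .nil))))) (.node (.node (.node (.I .jac (.c 1310924937 (.c 8257 (.c 24 .nil))) (.r 48 .nil)) (.I .adp (.c 33587529 (.c 48 (.c 545424585 .nil))) .nil)) (.node (.I .jac (.c 18433 (.c 8 (.c 24 .nil))) (.b 32 (.r 12929 .nil))) (.I .adp (.c 1310924937 (.c 48 (.c 174695689 .nil))) .nil))) (.node (.node (.I .adp (.c 4609 (.c 32 (.c 14832803796618633 .nil))) .nil) (.I .tdb (.c 16 (.c 40 (.c 18497 (.c 24 .nil)))) (.l 8193 .nil))) (.node (.I .tdb (.c 8 (.c 48 (.c 0 (.c 16 .nil)))) (.b 40 (.b 32 (.r 24 .nil)))) (.I .com (.c 2306971873338799881 (.c 18497 .nil)) (.r 24 .nil))))))) (.node (.node (.node (.node (.node (.I .com (.c 2306970223667989449 (.c 18497 .nil)) (.r 24 .nil)) (.I .tdb (.c 0 (.c 32 (.c 18497 (.c 24 .nil)))) (.l 12929 .nil))) (.node (.I .tdb (.c 8 (.c 48 (.c 24 (.c 32 .nil)))) (.b 0 (.l 12929 .nil))) (.I .tdb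 (.c 0 (.c 32 (.c 12929 (.c 24 .nil)))) (.r 18497 .nil)))) (.node (.node (.I .tdb (.c 16 (.c 40 (.c 24 (.c 32 .nil)))) (.b 0 (.r 18497 .nil))) (.I .tdb (.c 16 (.c 40 (.c 18497 (.c 32 .nil)))) (.l 4609 .nil))) (.node (.I .tdb (.c 8 (.c 48 (.c 0 (.c 16 .nil)))) (.b 40 (.b 24 (.r 32 .nil)))) (.I .com (.c 231045467270826953 (.c 18497 .nil)) (.r 32 .nil))))) (.node (.node (.node (.I .ass (.c 42576892903125866125508513263802588873 (.c 48 (.c 24 .nil))) .nil) (.I .com (.c 24 (.c 48 .nil)) (.l 42576892903125866125508513263802588873 .nil))) (.node (.I .ass (.c 42576872605845448752433331259473583881 (.c 48 (.c 24 .nil))) .nil) (.I .com (.c 24 (.c 48 .nil)) (.l 42576872605845448752433331259473583881 .nil)))) (.node (.node (.I .ass (.c 42576892903125856676158477119718330313 (.c 48 (.c 24 .nil))) .nil) (.I .com (.c 24 (.c 48 .nil)) (.l 42576892903125856676158477119718330313 .nil))) (.node (.I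 .tdb (.c 16 (.c 12865 (.c 32 (.c 48 .nil)))) (.l 4609 .nil)) (.I .jac (.c 169943177 (.c 8 (.c 40 .nil))) (.r 48 (.r 32 .nil))))))) (.node (.node (.node (.node (.I .tdb (.c 2113 (.c 40 (.c 24 (.c 48 .nil)))) (.l 8193 .nil)) (.I .tdb (.c 8 (.c 16 (.c 48 (.c 24 .nil)))) (.b 40 (.l 8193 .nil)))) (.node (.I .ass (.c 42576872605845441665422493413917717449 (.c 48 (.c 24 .nil))) .nil) (.I .com (.c 24 (.c 48 .nil)) (.l 42576872605845441665422493413917717449 .nil)))) (.node (.node (.I .tdb (.c 2113 (.c 40 (.c 32 (.c 48 .nil)))) (.l 4609 .nil)) (.I .tdb (.c 8 (.c 16 (.c 32 (.c 48 .nil)))) (.b 40 (.l 4609 .nil)))) (.node (.I .tdb (.c 0 (.c 48 (.c 8 (.c 16 .nil)))) (.b 40 (.b 32 (.r 24 .nil)))) (.I .tdb (.c 0 (.c 48 (.c 24 (.c 32 .nil)))) (.b 8 (.l 12929 .nil)))))) (.node (.node (.node (.I .tdb (.c 8 (.c 32 (.c 18433 (.c 24 .nil)))) (.l 12929 .nil)) (.I .jac (.c 8 (.c 16 (.c 21307587 .nil)))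 (.r 18433 .nil))) (.node (.I .tdb (.c 16 (.c 40 (.c 8 (.c 24 .nil)))) (.b 32 (.r 18433 .nil))) (.I .com (.c 18433 (.c 105537558360241882727598910245641 .nil)) .nil))) (.node (.node (.I .com (.c 18433 (.c 101466720686512330932220408213385 .nil)) .nil) (.I .com (.c 18433 (.c 3632106110117457 .nil)) .nil)) (.node (.I .tdb (.c 0 (.c 48 (.c 8 (.c 16 .nil)))) (.b 40 (.b 24 (.r 32 .nil)))) (.I .ass (.c 59109062884628932425 (.c 12929 (.c 32 .nil))) .nil)))))))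

noncomputable def c2_185 : Tr := (.node (.node (.node (.node (.node (.node (.I .tdb (.c 16 (.c 40 (.c 8 (.c 32 .nil)))) (.b 24 (.r 18433 .nil))) (.I .adp (.c 1310924937 (.c 48 (.c 8786499 .nil))) .nil)) (.node (.I .tdb (.c 16 (.c 12801 (.c 24 (.c 48 .nil)))) (.l 8257 .nil)) (.I .com (.c 1310924937 (.c 15246325749294217 .nil)) .nil))) (.node (.node (.I .adp (.c 4673 (.c 32 (.c 13748193534075031634 .nil))) .nil) (.I .tdb (.c 16 (.c 12801 (.c 32 (.c 48 .nil)))) (.l 4673 .nil))) (.node (.I .tdb (.c 0 (.c 40 (.c 32 (.c 48 .nil)))) (.b 16 (.l 4673 .nil))) (.I .adp (.c 1310924937 (.c 48 (.c 32 .nil))) (.l 4673 .nil))))) (.node (.node (.node (.I .ass (.c 4673 (.c 13748193523587632009 (.c 48 .nil))) .nil) (.I .ass (.c 13748193523587632009 (.c 4673 (.c 48 .nil))) .nil)) (.node (.I .com (.c 4673 (.c 13748193523587632009 .nil)) (.r 48 .nil)) (.I .adp (.c 1310924937 (.c 48 (.c 4673 .nil))) (.r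 32 .nil)))) (.node (.node (.I .ass (.c 1512102601296135255437272766182275864265 (.c 48 (.c 32 .nil))) .nil) (.I .com (.c 32 (.c 48 .nil)) (.l 1512102601296135255437272766182275864265 .nil))) (.node (.I .ass (.c 1512102601296135227280972429874805772105 (.c 48 (.c 32 .nil))) .nil) (.I .com (.c 32 (.c 48 .nil)) (.l 1512102601296135227280972429874805772105 .nil)))))) (.node (.node (.node (.node (.I .ass (.c 1310924937 (.c 174695817 (.c 32 .nil))) .nil) (.I .tdp (.c 1310924937 (.c 48 (.c 4673 (.c 32 .nil)))) .nil)) (.node (.I .tdb (.c 8 (.c 24 (.c 32 (.c 48 .nil)))) (.r 1310924937 .nil)) (.I .tdb (.c 2049 (.c 40 (.c 32 (.c 48 .nil)))) (.l 4673 .nil)))) (.node (.node (.I .tdb (.c 0 (.c 16 (.c 32 (.c 48 .nil)))) (.b 40 (.l 4673 .nil))) (.I .com (.c 2718204233 (.c 16 .nil)) (.b 545424585 .nil))) (.node (.I .adp (.c 2718204233 (.c 16 (.c 545424585 .nil))) .nil) (.I .jac (.c 1310925193 (.c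 8257 (.c 24 .nil))) (.r 16 .nil))))) (.node (.node (.node (.I .jac (.c 545424585 (.c 40 (.c 48 .nil))) (.l 2049 .nil)) (.I .com (.c 2718204233 (.c 16 .nil)) (.b 174695689 .nil))) (.node (.I .com (.c 1310925193 (.c 16 .nil)) (.b 174695689 .nil)) (.I .jac (.c 2718204233 (.c 4673 (.c 32 .nil))) (.r 16 .nil)))) (.node (.node (.I .jac (.c 2718204233 (.c 8 (.c 24 .nil))) (.b 32 (.r 16 .nil))) (.I .adp (.c 1310925193 (.c 16 (.c 174695689 .nil))) .nil)) (.node (.I .jac (.c 1310925193 (.c 8 (.c 24 .nil))) (.b 32 (.r 16 .nil))) (.I .jac (.c 617611520074121 (.c 8 (.c 48 .nil))) (.r 16 .nil))))))) (.node (.node (.node (.node (.node (.I .jac (.c 8786435 (.c 8 (.c 48 .nil))) (.b 40 (.r 16 .nil))) (.I .jac (.c 537002313 (.c 8 (.c 48 .nil))) (.r 16 (.r 24 .nil)))) (.node (.I .ass (.c 42576953795010663218959029878649750217 (.c 16 (.c 24 .nil))) .nil) (.I .ass (.c 42576974092320097194025833638928027593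 (.c 16 (.c 24 .nil))) .nil))) (.node (.node (.I .ass (.c 42576953795010651407263038383993868297 (.c 16 (.c 24 .nil))) .nil) (.I .jac (.c 0 (.c 15246325749294217 (.c 40 .nil))) (.l 16 .nil))) (.node (.I .jac (.c 0 (.c 8 (.c 43655363 .nil))) (.b 40 (.l 16 .nil))) (.I .jac (.c 0 (.c 8 (.c 48 .nil))) (.b 21307587 (.l 16 .nil)))))) (.node (.node (.node (.I .tdb (.c 0 (.c 32 (.c 2737112393 (.c 24 .nil)))) (.l 16 .nil)) (.I .com (.c 1859603590853700858974845109013833 (.c 16 .nil)) .nil)) (.node (.I .com (.c 89105409797125410142448901338895383783226817472525976897107939337 (.c 16 .nil)) .nil) (.I .ass (.c 427057993508084562470663629860471497 (.c 16 (.c 32 .nil))) .nil))) (.node (.node (.I .ass (.c 427055420260303274284998876733539273 (.c 16 (.c 32 .nil))) .nil) (.I .ass (.c 427057993508083379515198226665525257 (.c 16 (.c 32 .nil))) .nil)) (.node (.I .tdb (.c 0 (.c 24 (.c 32 (.c 2737112393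 .nil)))) (.l 16 .nil)) (.I .jac (.c 537002377 (.c 8 (.c 40 .nil))) (.r 16 (.r 24 .nil))))))) (.node (.node (.node (.node (.I .ass (.c 42576974092320106643384879185736244937 (.c 16 (.c 24 .nil))) .nil) (.I .jac (.c 18433 (.c 8 (.c 21307587 .nil))) (.l 16 .nil))) (.node (.I .jac (.c 0 (.c 3632106110100617 (.c 48 .nil))) (.l 16 .nil)) (.I .jac (.c 0 (.c 8 (.c 21307587 .nil))) (.b 48 (.l 16 .nil))))) (.node (.node (.I .com (.c 105537558368807841777834019458377 (.c 16 .nil)) .nil) (.I .jac (.c 169943433 (.c 8 (.c 40 .nil))) (.r 16 (.r 32 .nil)))) (.node (.I .ass (.c 427058636821846666152103631404146377 (.c 16 (.c 32 .nil))) .nil) (.I .adp (.c 2718204233 (.c 16 (.c 8786499 .nil))) .nil)))) (.node (.node (.node (.I .tdb (.c 40 (.c 18433 (.c 8 (.c 16 .nil)))) (.b 32 (.r 24 .nil))) (.I .ass (.c 27951061050494848639907477563920710974153 (.c 16 (.c 24 .nil))) .nil)) (.node (.I .ass (.c 27951061050494848458324402179417579409289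 (.c 16 (.c 24 .nil))) .nil) (.I .ass (.c 2718204233 (.c 545424521 (.c 24 .nil))) .nil))) (.node (.node (.I .tdb (.c 40 (.c 18433 (.c 24 (.c 32 .nil)))) (.b 8 (.l 16 .nil))) (.I .tdb (.c 0 (.c 48 (.c 24 (.c 32 .nil)))) (.b 40 (.b 8 (.l 16 .nil))))) (.node (.I .tdb (.c 8 (.c 32 (.c 2718204233 (.c 24 .nil)))) (.l 16 .nil)) (.I .ass (.c 4673 (.c 59109074018392946569 (.c 16 .nil))) .nil)))))))

noncomputable def c2_186 : Tr := (.node (.node (.node (.node (.node (.node (.I .ass (.c 59109074018392946569 (.c 4673 (.c 16 .nil))) .nil) (.I .com (.c 4673 (.c 59109074018392946569 .nil)) (.r 16 .nil))) (.node (.I .tdb (.c 40 (.c 18433 (.c 8 (.c 16 .nil)))) (.b 24 (.r 32 .nil))) (.I .ass (.c 27951061050494848579379785769086333720265 (.c 16 (.c 32 .nil))) .nil))) (.node (.node (.I .ass (.c 27951061050494848458324402179417579409225 (.c 16 (.c 32 .nil))) .nil) (.I .ass (.c 2718204233 (.c 174695561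 (.c 32 .nil))) .nil)) (.node (.I .adp (.c 1310925193 (.c 16 (.c 8786499 .nil))) .nil) (.I .ass (.c 8257 (.c 13748198893136698185 (.c 16 .nil))) .nil)))) (.node (.node (.node (.I .com (.c 8257 (.c 13748198893136698185 .nil)) (.r 16 .nil)) (.I .ass (.c 1512103782441961079041378905002237328073 (.c 16 (.c 24 .nil))) .nil)) (.node (.I .ass (.c 1512103782441961036806911905286300602249 (.c 16 (.c 24 .nil))) .nil) (.I .adp (.c 4673 (.c 32 (.c 13748198903624099666 .nil))) .nil))) (.node (.node (.I .adp (.c 1310925193 (.c 16 (.c 32 .nil))) (.l 4673 .nil)) (.I .tdb (.c 8 (.c 24 (.c 1310925193 (.c 16 .nil)))) (.r 32 .nil))) (.node (.I .adp (.c 1310925193 (.c 16 (.c 4673 .nil))) (.r 32 .nil)) (.I .jac (.c 1310925193 (.c 8 (.c 24 .nil))) (.r 16 (.r 32 .nil))))))) (.node (.node (.node (.node (.I .ass (.c 1512103782441961064963223238430258353865 (.c 16 (.c 32 .nil))) .nil) (.I .ass (.c 1512103782441961036806911905286300602185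 (.c 16 (.c 32 .nil))) .nil)) (.node (.I .tdp (.c 1310925193 (.c 16 (.c 4673 (.c 32 .nil)))) .nil) (.I .jac (.c 8786499 (.c 40 (.c 48 .nil))) (.l 2049 .nil)))) (.node (.node (.I .ass (.c 8257 (.c 2049 (.c 2775125321 .nil))) .nil) (.I .ass (.c 2049 (.c 8257 (.c 2775125321 .nil))) .nil)) (.node (.I .com (.c 8257 (.c 2049 .nil)) (.r 2775125321 .nil)) (.I .ass (.c 8257 (.c 2049 (.c 1350544777 .nil))) .nil)))) (.node (.node (.node (.I .ass (.c 2049 (.c 8257 (.c 1350544777 .nil))) .nil) (.I .com (.c 8257 (.c 2049 .nil)) (.r 1350544777 .nil))) (.node (.I .jac (.c 32 (.c 40 (.c 48 .nil))) (.l 2049 (.l 4673 .nil))) (.I .ass (.c 4673 (.c 2049 (.c 2794230089 .nil))) .nil))) (.node (.node (.I .ass (.c 2049 (.c 4673 (.c 2794230089 .nil))) .nil) (.I .com (.c 4673 (.c 2049 .nil)) (.r 2794230089 .nil))) (.node (.I .tdb (.c 24 (.c 8193 (.c 16 (.c 40 .nil)))) (.l 18497 .nil)) (.I .tdb (.c 8 (.c 48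 (.c 24 (.c 40 .nil)))) (.b 8193 (.r 16 .nil)))))))) (.node (.node (.node (.node (.node (.I .tdb (.c 24 (.c 8193 (.c 18497 (.c 40 .nil)))) (.r 16 .nil)) (.I .tdb (.c 0 (.c 32 (.c 18497 (.c 40 .nil)))) (.b 24 (.r 16 .nil)))) (.node (.I .tdb (.c 24 (.c 8193 (.c 16 (.c 40 .nil)))) (.b 18497 .nil)) (.I .tdb (.c 24 (.c 8193 (.c 12865 (.c 16 .nil)))) (.l 48 .nil)))) (.node (.node (.I .tdb (.c 24 (.c 8193 (.c 16 (.c 48 .nil)))) (.b 12865 .nil)) (.I .ass (.c 18497 (.c 16 (.c 40 .nil))) (.b 169943305 .nil))) (.node (.I .adp (.c 43059267 (.c 40 (.c 169943305 .nil))) .nil) (.I .adp (.c 18497 (.c 12930 (.c 169943305 .nil))) .nil)))) (.node (.node (.node (.I .adp (.c 16 (.c 40 (.c 169943305 .nil))) (.l 18497 .nil)) (.I .tdp (.c 16 (.c 40 (.c 18497 (.c 169943305 .nil)))) .nil)) (.node (.I .tdb (.c 8 (.c 48 (.c 24 (.c 40 .nil)))) (.b 0 (.b 32 (.r 16 .nil)))) (.I .adp (.c 12865 (.c 18562 (.c 169943305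 .nil))) .nil))) (.node (.node (.I .adp (.c 16 (.c 48 (.c 169943305 .nil))) (.l 12865 .nil)) (.I .tdp (.c 16 (.c 48 (.c 169943305 (.c 12865 .nil)))) .nil)) (.node (.I .tdb (.c 4609 (.c 32 (.c 12865 (.c 48 .nil)))) (.r 16 .nil)) (.I .tdb (.c 0 (.c 24 (.c 48 (.c 12865 .nil)))) (.b 32 (.r 16 .nil))))))) (.node (.node (.node (.node (.I .tdb (.c 8 (.c 40 (.c 24 (.c 48 .nil)))) (.b 0 (.b 32 (.r 16 .nil)))) (.I .tdb (.c 8 (.c 40 (.c 32 (.c 48 .nil)))) (.b 4609 (.r 16 .nil)))) (.node (.I .tdb (.c 4609 (.c 32 (.c 12865 (.c 16 .nil)))) (.b 48 .nil)) (.I .tdb (.c 0 (.c 24 (.c 12865 (.c 16 .nil)))) (.b 32 (.b 48 .nil))))) (.node (.node (.I .adp (.c 2113 (.c 18754 (.c 169943305 .nil))) .nil) (.I .adp (.c 40 (.c 48 (.c 169943305 .nil))) (.l 2113 .nil))) (.node (.I .com (.c 231045815314584585 (.c 40 .nil)) (.l 2113 .nil)) (.I .tdb (.c 24 (.c 8257 (.c 16 (.c 40 .nil)))) (.b 18433 .nil))))) (.node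 (.node (.node (.I .tdb (.c 24 (.c 8257 (.c 16 (.c 48 .nil)))) (.b 12801 .nil)) (.I .tdb (.c 4673 (.c 32 (.c 16 (.c 40 .nil)))) (.l 18433 .nil))) (.node (.I .tdb (.c 8 (.c 24 (.c 40 (.c 16 .nil)))) (.b 32 (.l 18433 .nil))) (.I .tdb (.c 4673 (.c 32 (.c 16 (.c 48 .nil)))) (.l 12801 .nil)))) (.node (.node (.I .tdb (.c 8 (.c 24 (.c 48 (.c 16 .nil)))) (.b 32 (.l 12801 .nil))) (.I .jac (.c 12801 (.c 16 (.c 48 .nil))) (.b 545556705 .nil))) (.node (.I .adp (.c 8 (.c 32 (.c 24 .nil))) (.b 13748198893136698121 .nil)) (.I .jac (.c 13748198893136698121 (.c 24 (.c 32 .nil))) (.l 8 .nil))))))))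

noncomputable def c2_187 : Tr := (.node (.node (.node (.node (.node (.node (.I .com (.c 6250090978991937044041231628596924245349489429598525485846561767342824885536036745 (.c 8 .nil)) .nil) (.I .adp (.c 8 (.c 32 (.c 24 .nil))) (.b 13748193523587632137 .nil))) (.node (.I .com (.c 18291634214772312870418720943292726181930251318908815972622950628054719186074441 (.c 8 .nil)) .nil) (.I .com (.c 18291634214772312870418720943292726180381858255181573427807105998915794135832457 (.c 8 .nil)) .nil))) (.node (.node (.I .adp (.c 8 (.c 8385 (.c 59109074018392946441 .nil))) .nil) (.I .jac (.c 15456208906582089 (.c 24 (.c 32 .nil))) (.l 8 .nil))) (.node (.I .adp (.c 18561 (.c 40 (.c 24 .nil))) (.b 537002057 .nil)) (.I .adp (.c 8 (.c 8385 (.c 15456118887243977 .nil))) .nil)))) (.node (.node (.node (.I .jac (.c 3491688652046793 (.c 24 (.c 32 .nil))) (.l 8 .nil)) (.I .ass (.c 8 (.c 27951053153217538953647197609480317336393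 (.c 40 .nil))) .nil)) (.node (.I .ass (.c 27951053153217538953647197609480317336393 (.c 8 (.c 40 .nil))) .nil) (.I .com (.c 8 (.c 27951053153217538953647197609480317336393 .nil)) (.r 40 .nil)))) (.node (.node (.I .ass (.c 8 (.c 27951053153217538893119514365376803559305 (.c 40 .nil))) .nil) (.I .ass (.c 27951053153217538893119514365376803559305 (.c 8 (.c 40 .nil))) .nil)) (.node (.I .com (.c 8 (.c 27951053153217538893119514365376803559305 .nil)) (.r 40 .nil)) (.I .ass (.c 8 (.c 2718204041 (.c 562466121 .nil))) .nil))))) (.node (.node (.node (.node (.I .ass (.c 2718204041 (.c 8 (.c 562466121 .nil))) .nil) (.I .com (.c 8 (.c 2718204041 .nil)) (.r 562466121 .nil))) (.node (.I .ass (.c 59109065668069837513 (.c 40 (.c 8385 .nil))) .nil) (.I .com (.c 8385 (.c 40 .nil)) (.l 59109065668069837513 .nil)))) (.node (.node (.I .tdb (.c 24 (.c 32 (.c 33587593 (.c 40 .nil)))) (.l 8 .nil)) (.I .adp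 (.c 33587593 (.c 40 (.c 8385 .nil))) (.l 8 .nil))) (.node (.I .tdb (.c 2049 (.c 48 (.c 8 (.c 40 .nil)))) (.r 8385 .nil)) (.I .tdb (.c 0 (.c 16 (.c 40 (.c 8 .nil)))) (.b 48 (.r 8385 .nil)))))) (.node (.node (.node (.I .tdb (.c 16 (.c 48 (.c 24 (.c 40 .nil)))) (.b 0 (.b 32 (.l 8 .nil)))) (.I .tdb (.c 0 (.c 40 (.c 18561 (.c 32 .nil)))) (.b 24 (.l 8 .nil)))) (.node (.I .tdb (.c 16 (.c 48 (.c 32 (.c 40 .nil)))) (.b 0 (.b 24 (.l 8 .nil)))) (.I .adp (.c 12801 (.c 18561 (.c 8385 .nil))) (.l 8 .nil)))) (.node (.node (.I .jac (.c 12801 (.c 24 (.c 32 .nil))) (.r 18561 (.l 8 .nil))) (.I .ass (.c 8 (.c 13748196208362033993 (.c 18561 .nil))) .nil)) (.node (.I .ass (.c 13748196208362033993 (.c 8 (.c 18561 .nil))) .nil) (.I .com (.c 8 (.c 13748196208362033993 .nil)) (.r 18561 .nil))))))) (.node (.node (.node (.node (.node (.I .ass (.c 8 (.c 13748194865974800265 (.c 18561 .nil))) .nil) (.I .ass (.c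 13748194865974800265 (.c 8 (.c 18561 .nil))) .nil)) (.node (.I .com (.c 8 (.c 13748194865974800265 .nil)) (.r 18561 .nil)) (.I .adp (.c 8 (.c 32 (.c 24 .nil))) (.b 14832759703961993 .nil)))) (.node (.node (.I .adp (.c 18433 (.c 12929 (.c 8385 .nil))) (.l 8 .nil)) (.I .jac (.c 18433 (.c 24 (.c 32 .nil))) (.r 12929 (.l 8 .nil)))) (.node (.I .ass (.c 8 (.c 59109068451510808457 (.c 12929 .nil))) .nil) (.I .com (.c 8 (.c 59109068451510808457 .nil)) (.r 12929 .nil))))) (.node (.node (.node (.I .tdb (.c 24 (.c 32 (.c 12929 (.c 8 .nil)))) (.r 18433 .nil)) (.I .adp (.c 8 (.c 8385 (.c 13748193534075031634 .nil))) .nil)) (.node (.I .tdb (.c 16 (.c 12801 (.c 24 (.c 48 .nil)))) (.b 32 (.l 8 .nil))) (.I .tdb (.c 0 (.c 40 (.c 24 (.c 48 .nil)))) (.b 16 (.b 32 (.l 8 .nil)))))) (.node (.node (.I .tdb (.c 16 (.c 12801 (.c 32 (.c 48 .nil)))) (.b 24 (.l 8 .nil))) (.I .tdb (.c 0 (.c 40 (.c 32 (.c 48 .nil))))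 (.b 16 (.b 24 (.l 8 .nil))))) (.node (.I .tdb (.c 24 (.c 32 (.c 1310924937 (.c 48 .nil)))) (.l 8 .nil)) (.I .jac (.c 1310924937 (.c 24 (.c 32 .nil))) (.r 48 (.l 8 .nil))))))) (.node (.node (.node (.node (.I .ass (.c 8 (.c 1512102601296135269515422934336011008841 (.c 48 .nil))) .nil) (.I .ass (.c 1512102601296135269515422934336011008841 (.c 8 (.c 48 .nil))) .nil)) (.node (.I .com (.c 8 (.c 1512102601296135269515422934336011008841 .nil)) (.r 48 .nil)) (.I .ass (.c 8 (.c 1512102601296135255437272766182275864457 (.c 48 .nil))) .nil))) (.node (.node (.I .ass (.c 1512102601296135255437272766182275864457 (.c 8 (.c 48 .nil))) .nil) (.I .com (.c 8 (.c 1512102601296135255437272766182275864457 .nil)) (.r 48 .nil))) (.node (.I .ass (.c 8 (.c 1310924937 (.c 562466185 .nil))) .nil) (.I .ass (.c 1310924937 (.c 8 (.c 562466185 .nil))) .nil)))) (.node (.node (.node (.I .com (.c 8 (.c 1310924937 .nil))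 (.r 562466185 .nil)) (.I .adp (.c 1310924937 (.c 48 (.c 8 .nil))) (.r 8385 .nil))) (.node (.I .ass (.c 1310924937 (.c 18497 (.c 8385 .nil))) .nil) (.I .tdp (.c 1310924937 (.c 48 (.c 8 (.c 8385 .nil)))) .nil))) (.node (.node (.I .tdb (.c 24 (.c 32 (.c 8 (.c 48 .nil)))) (.r 1310924937 .nil)) (.I .tdb (.c 2049 (.c 40 (.c 24 (.c 48 .nil)))) (.b 32 (.l 8 .nil)))) (.node (.I .tdb (.c 0 (.c 16 (.c 48 (.c 24 .nil)))) (.b 40 (.b 32 (.l 8 .nil)))) (.I .tdb (.c 2049 (.c 40 (.c 32 (.c 48 .nil)))) (.b 24 (.l 8 .nil)))))))))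

noncomputable def c2_188 : Tr := (.node (.node (.node (.node (.node (.node (.I .tdb (.c 0 (.c 16 (.c 32 (.c 48 .nil)))) (.b 40 (.b 24 (.l 8 .nil)))) (.I .tdb (.c 24 (.c 32 (.c 33587529 (.c 48 .nil)))) (.l 8 .nil))) (.node (.I .tdb (.c 2049 (.c 40 (.c 8 (.c 48 .nil)))) (.r 8385 .nil)) (.I .tdb (.c 0 (.c 16 (.c 48 (.c 8 .nil)))) (.b 40 (.r 8385 .nil))))) (.node (.node (.I .jac (.c 2306969673777850313 (.c 24 (.c 48 .nil))) (.l 16 .nil)) (.I .jac (.c 537002057 (.c 24 (.c 40 .nil))) (.b 48 (.l 16 .nil)))) (.node (.I .com (.c 14502320647155142518722987525103327800267944149954142344186607676513272373065 (.c 16 .nil)) .nil) (.I .com (.c 14502320647155137690838865937963339480292866646421486920467272293701234581513 (.c 16 .nil)) .nil)))) (.node (.node (.node (.I .jac (.c 580749782704521 (.c 24 (.c 48 .nil))) (.l 16 .nil)) (.I .jac (.c 8520195 (.c 24 (.c 48 .nil))) (.b 40 (.l 16 .nil)))) (.node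 (.I .com (.c 58240646186319479625272581887717718545853334101767720972064713 (.c 16 .nil)) .nil) (.I .jac (.c 8520195 (.c 24 (.c 40 .nil))) (.b 48 (.l 16 .nil))))) (.node (.node (.I .tdb (.c 40 (.c 18625 (.c 8 (.c 16 .nil)))) (.l 8193 .nil)) (.I .com (.c 14025210098083633993 (.c 16 .nil)) (.l 8193 .nil))) (.node (.I .com (.c 59934268409707442121 (.c 16 .nil)) (.l 8193 .nil)) (.I .com (.c 14025206030552608777 (.c 16 .nil)) (.l 8193 .nil)))))) (.node (.node (.node (.node (.I .tdb (.c 0 (.c 32 (.c 2775125321 (.c 16 .nil)))) (.r 8 .nil)) (.I .jac (.c 537002313 (.c 24 (.c 48 .nil))) (.l 16 (.r 8 .nil)))) (.node (.I .com (.c 42576953795010663218959029878649750345 (.c 16 .nil)) (.r 8 .nil)) (.I .com (.c 42576953795010656131941434981856024585 (.c 16 .nil)) (.r 8 .nil)))) (.node (.node (.I .ass (.c 42576913200413542961749526065342514121 (.c 16 (.c 8 .nil))) .nil) (.I .com (.c 8 (.c 16 .nil))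 (.l 42576913200413542961749526065342514121 .nil))) (.node (.I .jac (.c 43059267 (.c 24 (.c 40 .nil))) (.l 8193 .nil)) (.I .com (.c 59934274015313491785 (.c 16 .nil)) (.l 8193 .nil))))) (.node (.node (.node (.I .ass (.c 42576913200413540599411453941751701513 (.c 16 (.c 8 .nil))) .nil) (.I .com (.c 8 (.c 16 .nil)) (.l 42576913200413540599411453941751701513 .nil))) (.node (.I .jac (.c 18497 (.c 24 (.c 40 .nil))) (.l 537002121 .nil)) (.I .com (.c 10063013877651720715266098121 (.c 16 .nil)) (.r 32 .nil)))) (.node (.node (.I .com (.c 10063013877615402959898107913 (.c 16 .nil)) (.r 32 .nil)) (.I .ass (.c 59109074018392946377 (.c 16 (.c 8385 .nil))) .nil)) (.node (.I .adp (.c 8 (.c 8385 (.c 13748198903624099666 .nil))) .nil) (.I .ass (.c 8 (.c 1512103782441961079041378905002237328201 (.c 16 .nil))) .nil)))))) (.node (.node (.node (.node (.node (.I .ass (.c 1512103782441961079041378905002237328201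 (.c 8 (.c 16 .nil))) .nil) (.I .com (.c 8 (.c 1512103782441961079041378905002237328201 .nil)) (.r 16 .nil))) (.node (.I .ass (.c 1512103782441961064963223238430258354057 (.c 8 (.c 16 .nil))) .nil) (.I .adp (.c 1310925193 (.c 16 (.c 8 .nil))) (.r 8385 .nil)))) (.node (.node (.I .ass (.c 13748198893136698057 (.c 16 (.c 8385 .nil))) .nil) (.I .tdp (.c 1310925193 (.c 16 (.c 8 (.c 8385 .nil)))) .nil)) (.node (.I .ass (.c 33587273 (.c 18753 (.c 8385 .nil))) .nil) (.I .com (.c 8385 (.c 18753 .nil)) (.l 33587273 .nil))))) (.node (.node (.node (.I .tdb (.c 24 (.c 48 (.c 32 (.c 40 .nil)))) (.b 513 (.l 16 .nil))) (.I .tdb (.c 24 (.c 48 (.c 0 (.c 40 .nil)))) (.b 8 (.b 32 (.l 16 .nil))))) (.node (.I .adp (.c 18625 (.c 40 (.c 2105609 .nil))) (.l 16 .nil)) (.I .tdp (.c 18625 (.c 40 (.c 16 (.c 2105609 .nil)))) .nil))) (.node (.node (.I .tdb (.c 513 (.c 32 (.c 40 (.c 16 .nil)))) (.r 18625 .nil))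 (.I .tdb (.c 0 (.c 8 (.c 16 (.c 40 .nil)))) (.b 32 (.r 18625 .nil)))) (.node (.I .tdb (.c 513 (.c 32 (.c 40 (.c 16 .nil)))) (.b 18625 .nil)) (.I .adp (.c 12993 (.c 48 (.c 2105609 .nil))) (.l 16 .nil)))))) (.node (.node (.node (.node (.I .tdb (.c 513 (.c 32 (.c 48 (.c 16 .nil)))) (.r 12993 .nil)) (.I .tdb (.c 0 (.c 8 (.c 16 (.c 48 .nil)))) (.b 32 (.r 12993 .nil)))) (.node (.I .tdb (.c 513 (.c 32 (.c 12993 (.c 16 .nil)))) (.b 48 .nil)) (.I .tdb (.c 0 (.c 8 (.c 16 (.c 12993 .nil)))) (.b 32 (.b 48 .nil))))) (.node (.node (.I .tdb (.c 24 (.c 40 (.c 0 (.c 16 .nil)))) (.b 8 (.b 32 (.b 48 .nil)))) (.I .tdb (.c 24 (.c 48 (.c 8 (.c 40 .nil)))) (.b 8193 (.l 16 .nil)))) (.node (.I .tdb (.c 24 (.c 48 (.c 32 (.c 40 .nil)))) (.b 0 (.b 8 (.l 16 .nil)))) (.I .adp (.c 18625 (.c 40 (.c 537002057 .nil))) (.l 16 .nil))))) (.node (.node (.node (.I .com (.c 2306969673777850313 (.c 18625 .nil)) (.l 16 .nil))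 (.I .com (.c 29220792800013619912520277651036013575599852646065129488740114405065 (.c 16 .nil)) .nil)) (.node (.I .com (.c 1911177411973194218015160417832265 (.c 16 .nil)) .nil) (.I .ass (.c 16 (.c 42576872605845451114770277207992337225 (.c 40 .nil))) .nil))) (.node (.node (.I .com (.c 16 (.c 42576872605845451114770277207992337225 .nil)) (.r 40 .nil)) (.I .ass (.c 16 (.c 42576872605845444027759439362436274185 (.c 40 .nil))) .nil)) (.node (.I .com (.c 16 (.c 42576872605845444027759439362436274185 .nil)) (.r 40 .nil)) (.I .tdp (.c 18625 (.c 40 (.c 16 (.c 537002057 .nil)))) .nil)))))))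

noncomputable def c2_189 : Tr := (.node (.node (.node (.node (.node (.node (.I .tdb (.c 8 (.c 8193 (.c 16 (.c 40 .nil)))) (.r 18625 .nil)) (.I .tdb (.c 8 (.c 8193 (.c 12993 (.c 48 .nil)))) (.l 16 .nil))) (.node (.I .tdb (.c 24 (.c 40 (.c 8 (.c 48 .nil)))) (.b 8193 (.l 16 .nil))) (.I .tdb (.c 0 (.c 32 (.c 12993 (.c 48 .nil)))) (.b 8 (.l 16 .nil))))) (.node (.node (.I .tdb (.c 24 (.c 40 (.c 32 (.c 48 .nil)))) (.b 0 (.b 8 (.l 16 .nil)))) (.I .adp (.c 12993 (.c 48 (.c 537002057 .nil))) (.l 16 .nil))) (.node (.I .com (.c 2306969673777850377 (.c 12993 .nil)) (.l 16 .nil)) (.I .jac (.c 537002057 (.c 24 (.c 40 .nil))) (.r 48 (.l 16 .nil)))))) (.node (.node (.node (.I .tdp (.c 12993 (.c 48 (.c 16 (.c 537002057 .nil)))) .nil) (.I .tdb (.c 8 (.c 8193 (.c 12993 (.c 16 .nil)))) (.l 48 .nil))) (.node (.I .tdb (.c 8 (.c 8193 (.c 16 (.c 48 .nil)))) (.b 12993 .nil)) (.I .adp (.c 0 (.c 8385 (.c 14025210098083633929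 .nil))) .nil))) (.node (.node (.I .jac (.c 0 (.c 1324066185 (.c 16 .nil))) (.r 8385 .nil)) (.I .jac (.c 0 (.c 12865 (.c 48 .nil))) (.b 16 (.r 8385 .nil)))) (.node (.I .jac (.c 0 (.c 8 (.c 40 .nil))) (.b 48 (.b 16 (.r 8385 .nil)))) (.I .jac (.c 1310924937 (.c 8 (.c 48 .nil))) (.r 8385 .nil)))))) (.node (.node (.node (.node (.I .jac (.c 12801 (.c 8 (.c 48 .nil))) (.b 16 (.r 8385 .nil))) (.I .adp (.c 0 (.c 8385 (.c 14025204674709064713 .nil))) .nil)) (.node (.I .jac (.c 2718204041 (.c 8 (.c 40 .nil))) (.r 8385 .nil)) (.I .jac (.c 18433 (.c 12865 (.c 16 .nil))) (.r 8385 .nil)))) (.node (.node (.I .jac (.c 0 (.c 1324065929 (.c 48 .nil))) (.r 8385 .nil)) (.I .jac (.c 0 (.c 12865 (.c 16 .nil))) (.b 48 (.r 8385 .nil)))) (.node (.I .jac (.c 0 (.c 8 (.c 40 .nil))) (.b 16 (.b 48 (.r 8385 .nil)))) (.I .adp (.c 0 (.c 32 (.c 24 .nil))) (.b 59934274015313491721 .nil))))) (.node (.node (.node (.I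 .adp (.c 0 (.c 8385 (.c 59934274015313491721 .nil))) .nil) (.I .jac (.c 0 (.c 2737112393 (.c 16 .nil))) (.r 8385 .nil))) (.node (.I .jac (.c 0 (.c 18497 (.c 40 .nil))) (.b 16 (.r 8385 .nil))) (.I .jac (.c 0 (.c 8 (.c 48 .nil))) (.b 40 (.b 16 (.r 8385 .nil)))))) (.node (.node (.I .adp (.c 0 (.c 32 (.c 43954819 .nil))) (.b 4673 .nil)) (.I .adp (.c 0 (.c 32 (.c 24 .nil))) (.b 15456208906582153 .nil))) (.node (.I .adp (.c 18561 (.c 40 (.c 8193 .nil))) (.b 4673 .nil)) (.I .adp (.c 0 (.c 32 (.c 24 .nil))) (.b 15456163896880329 .nil))))))) (.node (.node (.node (.node (.node (.I .adp (.c 0 (.c 32 (.c 24 .nil))) (.b 3491710045130185 .nil)) (.I .adp (.c 0 (.c 8385 (.c 3491710045130185 .nil))) .nil)) (.node (.I .tdb (.c 16 (.c 18497 (.c 0 (.c 40 .nil)))) (.r 8385 .nil)) (.I .ass (.c 59109062884628932361 (.c 40 (.c 8385 .nil))) .nil))) (.node (.node (.I .com (.c 8385 (.c 40 .nil)) (.l 59109062884628932361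 .nil)) (.I .adp (.c 0 (.c 8385 (.c 2756188690 .nil))) .nil)) (.node (.I .tdb (.c 8 (.c 40 (.c 18561 (.c 0 .nil)))) (.r 8385 .nil)) (.I .adp (.c 12865 (.c 18561 (.c 0 .nil))) (.r 8385 .nil))))) (.node (.node (.node (.I .jac (.c 0 (.c 16 (.c 48 .nil))) (.l 12865 (.r 8385 .nil))) (.I .com (.c 2718204041 (.c 12865 .nil)) (.r 8385 .nil))) (.node (.I .com (.c 33587593 (.c 12865 .nil)) (.r 8385 .nil)) (.I .jac (.c 0 (.c 8 (.c 40 .nil))) (.r 18561 (.r 8385 .nil))))) (.node (.node (.I .adp (.c 0 (.c 32 (.c 24 .nil))) (.b 14832803796618633 .nil)) (.I .adp (.c 0 (.c 8385 (.c 14832803796618633 .nil))) .nil)) (.node (.I .jac (.c 43059203 (.c 8 (.c 40 .nil))) (.r 8385 .nil)) (.I .ass (.c 35470870263561 (.c 48 (.c 8385 .nil))) .nil))))) (.node (.node (.node (.node (.I .com (.c 8385 (.c 48 .nil)) (.l 35470870263561 .nil)) (.I .ass (.c 13748198893136698185 (.c 16 (.c 8257 .nil))) .nil)) (.node (.I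 .com (.c 8257 (.c 16 .nil)) (.l 13748198893136698185 .nil)) (.I .ass (.c 59109068451510808521 (.c 16 (.c 8257 .nil))) .nil))) (.node (.node (.I .com (.c 8257 (.c 16 .nil)) (.l 59109068451510808521 .nil)) (.I .ass (.c 231046163358604233 (.c 16 (.c 8257 .nil))) .nil)) (.node (.I .com (.c 8257 (.c 16 .nil)) (.l 231046163358604233 .nil)) (.I .jac (.c 43059203 (.c 24 (.c 40 .nil))) (.r 8257 .nil))))) (.node (.node (.node (.I .ass (.c 59109062884628932553 (.c 16 (.c 8385 .nil))) .nil) (.I .ass (.c 13748192181200529417 (.c 16 (.c 8385 .nil))) .nil)) (.node (.I .ass (.c 2105481 (.c 18753 (.c 8385 .nil))) .nil) (.I .com (.c 8385 (.c 18753 .nil)) (.l 2105481 .nil)))) (.node (.node (.I .adp (.c 8 (.c 24 (.c 32 .nil))) (.b 13748193523587632137 .nil)) (.I .jac (.c 18433 (.c 16 (.c 40 .nil))) (.b 174770465 .nil))) (.node (.I .adp (.c 8 (.c 24 (.c 32 .nil))) (.b 59109074018392946441 .nil)) (.I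 .adp (.c 8 (.c 24 (.c 43954819 .nil))) (.b 8193 .nil))))))))

noncomputable def c2_190 : Tr := (.node (.node (.node (.node (.node (.node (.I .adp (.c 8 (.c 24 (.c 32 .nil))) (.b 15456208906582089 .nil)) (.I .adp (.c 8 (.c 24 (.c 32 .nil))) (.b 15456118887243977 .nil))) (.node (.I .jac (.c 2105545 (.c 18689 (.c 40 .nil))) (.l 16 .nil)) (.I .jac (.c 2105545 (.c 32 (.c 48 .nil))) (.b 40 (.l 16 .nil))))) (.node (.node (.I .jac (.c 2105545 (.c 32 (.c 40 .nil))) (.b 48 (.l 16 .nil))) (.I .jac (.c 169943113 (.c 18689 (.c 40 .nil))) (.l 16 .nil))) (.node (.I .com (.c 1459010655789633986576548676875447899626202265276156869375503513122765769 (.c 16 .nil)) .nil) (.I .com (.c 1459010655789630753386011620242688722788795035921630570491455967829541833 (.c 16 .nil)) .nil)))) (.node (.node (.node (.I .jac (.c 169943113 (.c 32 (.c 40 .nil))) (.b 48 (.l 16 .nil))) (.I .com (.c 1459010655789630753386011620242688285484044689371562239751434016994238473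 (.c 16 .nil)) .nil)) (.node (.I .com (.c 6441087201718780684179843784022943497563255004117121074121 (.c 16 .nil)) .nil) (.I .ass (.c 427057993508084562470663629860471689 (.c 16 (.c 8 .nil))) .nil))) (.node (.node (.I .com (.c 8 (.c 16 .nil)) (.l 427057993508084562470663629860471689 .nil)) (.I .ass (.c 427058636821846429560832352193444809 (.c 16 (.c 8 .nil))) .nil)) (.node (.I .com (.c 8 (.c 16 .nil)) (.l 427058636821846429560832352193444809 .nil)) (.I .ass (.c 427057350195049030035896088956978121 (.c 16 (.c 8 .nil))) .nil))))) (.node (.node (.node (.node (.I .com (.c 8 (.c 16 .nil)) (.l 427057350195049030035896088956978121 .nil)) (.I .ass (.c 427057993508084089288477468582296585 (.c 16 (.c 8 .nil))) .nil)) (.node (.I .com (.c 8 (.c 16 .nil)) (.l 427057993508084089288477468582296585 .nil)) (.I .jac (.c 12865 (.c 32 (.c 48 .nil))) (.l 169943177 .nil)))) (.node (.node (.I .jac (.c 43059267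 (.c 32 (.c 40 .nil))) (.l 4609 .nil)) (.I .ass (.c 427058636821846666152103631404146569 (.c 16 (.c 8 .nil))) .nil)) (.node (.I .com (.c 8 (.c 16 .nil)) (.l 427058636821846666152103631404146569 .nil)) (.I .ass (.c 427057350195048793444981206822395913 (.c 16 (.c 8 .nil))) .nil)))) (.node (.node (.node (.I .com (.c 8 (.c 16 .nil)) (.l 427057350195048793444981206822395913 .nil)) (.I .jac (.c 18497 (.c 32 (.c 40 .nil))) (.l 169943177 .nil))) (.node (.I .jac (.c 2105673 (.c 32 (.c 48 .nil))) (.l 16 (.r 24 .nil))) (.I .com (.c 10065461098180296729435276169 (.c 16 .nil)) (.r 24 .nil)))) (.node (.node (.I .com (.c 10064237432128545199748236233 (.c 16 .nil)) (.r 24 .nil)) (.I .com (.c 10065461098107652387135110153 (.c 16 .nil)) (.r 24 .nil))) (.node (.I .jac (.c 12993 (.c 32 (.c 48 .nil))) (.l 2105481 .nil)) (.I .jac (.c 18625 (.c 32 (.c 40 .nil))) (.l 16 (.l 513 .nil)))))))) (.node (.node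 (.node (.node (.node (.I .com (.c 10064237432092225236522737673 (.c 16 .nil)) (.r 24 .nil)) (.I .jac (.c 18625 (.c 32 (.c 40 .nil))) (.l 2105481 .nil))) (.node (.I .adp (.c 16 (.c 43954947 (.c 2105545 .nil))) .nil) (.I .adp (.c 16 (.c 2794379602 (.c 2105545 .nil))) .nil))) (.node (.node (.I .tdb (.c 513 (.c 24 (.c 40 (.c 18689 .nil)))) (.l 16 .nil)) (.I .tdb (.c 0 (.c 8 (.c 40 (.c 18689 .nil)))) (.b 24 (.l 16 .nil)))) (.node (.I .tdb (.c 32 (.c 48 (.c 0 (.c 40 .nil)))) (.b 8 (.b 24 (.l 16 .nil)))) (.I .adp (.c 18689 (.c 40 (.c 2105545 .nil))) (.l 16 .nil))))) (.node (.node (.node (.I .jac (.c 2105545 (.c 32 (.c 48 .nil))) (.r 40 (.l 16 .nil))) (.I .tdp (.c 18689 (.c 40 (.c 16 (.c 2105545 .nil)))) .nil)) (.node (.I .tdb (.c 513 (.c 24 (.c 18689 (.c 16 .nil)))) (.l 40 .nil)) (.I .tdb (.c 0 (.c 8 (.c 16 (.c 18689 .nil)))) (.b 24 (.l 40 .nil))))) (.node (.node (.I .tdb (.c 513 (.c 24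 (.c 40 (.c 16 .nil)))) (.r 18689 .nil)) (.I .tdb (.c 0 (.c 8 (.c 16 (.c 40 .nil)))) (.b 24 (.r 18689 .nil)))) (.node (.I .adp (.c 13057 (.c 48 (.c 2105545 .nil))) (.l 16 .nil)) (.I .tdp (.c 13057 (.c 48 (.c 16 (.c 2105545 .nil)))) .nil))))) (.node (.node (.node (.node (.I .tdb (.c 513 (.c 24 (.c 48 (.c 16 .nil)))) (.r 13057 .nil)) (.I .tdb (.c 0 (.c 8 (.c 16 (.c 48 .nil)))) (.b 24 (.r 13057 .nil)))) (.node (.I .tdb (.c 513 (.c 24 (.c 13057 (.c 16 .nil)))) (.b 48 .nil)) (.I .tdb (.c 32 (.c 40 (.c 8 (.c 16 .nil)))) (.b 0 (.b 24 (.b 48 .nil)))))) (.node (.node (.I .tdb (.c 0 (.c 8 (.c 16 (.c 13057 .nil)))) (.b 24 (.b 48 .nil))) (.I .tdb (.c 513 (.c 24 (.c 13057 (.c 48 .nil)))) (.b 16 .nil))) (.node (.I .tdb (.c 0 (.c 8 (.c 13057 (.c 48 .nil)))) (.b 24 (.b 16 .nil))) (.I .tdb (.c 32 (.c 40 (.c 48 (.c 0 .nil)))) (.b 8 (.b 24 (.b 16 .nil))))))) (.node (.node (.node (.I .tdb (.c 32 (.c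 40 (.c 48 (.c 8 .nil)))) (.b 0 (.b 24 (.b 16 .nil)))) (.I .tdb (.c 32 (.c 40 (.c 48 (.c 24 .nil)))) (.b 513 (.b 16 .nil)))) (.node (.I .adp (.c 18689 (.c 40 (.c 169943113 .nil))) (.l 16 .nil)) (.I .tdb (.c 32 (.c 48 (.c 8 (.c 16 .nil)))) (.b 4609 (.l 40 .nil))))) (.node (.node (.I .tdb (.c 8 (.c 4609 (.c 16 (.c 40 .nil)))) (.b 18689 .nil)) (.I .tdb (.c 0 (.c 24 (.c 40 (.c 16 .nil)))) (.b 8 (.b 18689 .nil)))) (.node (.I .com (.c 231045293249046537 (.c 13057 .nil)) (.l 16 .nil)) (.I .com (.c 27664030750837927638519238748127830947159552253417997175496201146313 (.c 16 .nil)) .nil)))))))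

noncomputable def c2_191 : Tr := (.node (.node (.node (.node (.node (.node (.I .ass (.c 16 (.c 231045293249046537 (.c 13057 .nil))) .nil) (.I .com (.c 16 (.c 231045293249046537 .nil)) (.r 13057 .nil))) (.node (.I .tdb (.c 8 (.c 4609 (.c 16 (.c 48 .nil)))) (.b 13057 .nil)) (.I .tdb (.c 32 (.c 40 (.c 169943113 (.c 16 .nil)))) (.b 48 .nil)))) (.node (.node (.I .tdb (.c 32 (.c 40 (.c 48 (.c 169943113 .nil)))) (.b 16 .nil)) (.I .jac (.c 12865 (.c 16 (.c 48 .nil))) (.b 170017057 .nil))) (.node (.I .adp (.c 0 (.c 24 (.c 32 .nil))) (.b 14025210098083633929 .nil)) (.I .adp (.c 0 (.c 24 (.c 32 .nil))) (.b 14025204674709064713 .nil))))) (.node (.node (.node (.I .adp (.c 0 (.c 24 (.c 43954819 .nil))) (.b 8257 .nil)) (.I .adp (.c 0 (.c 24 (.c 32 .nil))) (.b 15456208906582153 .nil))) (.node (.I .adp (.c 0 (.c 24 (.c 32 .nil))) (.b 3491710045130185 .nil)) (.I .ass (.c 59109074018392946569 (.c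 16 (.c 4673 .nil))) .nil))) (.node (.node (.I .com (.c 4673 (.c 16 .nil)) (.l 59109074018392946569 .nil)) (.I .jac (.c 2105673 (.c 16 (.c 48 .nil))) (.b 8385 .nil))) (.node (.I .jac (.c 513 (.c 18561 (.c 40 .nil))) (.b 8385 .nil)) (.I .jac (.c 513 (.c 16 (.c 48 .nil))) (.b 40 (.b 8385 .nil))))))) (.node (.node (.node (.node (.I .jac (.c 2105737 (.c 16 (.c 40 .nil))) (.b 8385 .nil)) (.I .jac (.c 513 (.c 12929 (.c 48 .nil))) (.b 8385 .nil))) (.node (.I .jac (.c 513 (.c 16 (.c 40 .nil))) (.b 48 (.b 8385 .nil))) (.I .jac (.c 18433 (.c 16 (.c 40 .nil))) (.r 8 (.b 8385 .nil))))) (.node (.node (.I .com (.c 35473026505673 (.c 16 .nil)) (.b 8385 .nil)) (.I .com (.c 35470870263817 (.c 16 .nil)) (.b 8385 .nil))) (.node (.I .adp (.c 2718203977 (.c 40 (.c 32 .nil))) (.b 4737 .nil)) (.I .adp (.c 2718203977 (.c 40 (.c 24 .nil))) (.b 8321 .nil))))) (.node (.node (.node (.I .adp (.c 2718203977 (.c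 40 (.c 16 .nil))) (.b 8385 .nil)) (.I .adp (.c 42762755 (.c 40 (.c 32 .nil))) (.b 4737 .nil))) (.node (.I .adp (.c 42762755 (.c 40 (.c 24 .nil))) (.b 8321 .nil)) (.I .adp (.c 42762755 (.c 40 (.c 16 .nil))) (.b 8385 .nil)))) (.node (.node (.I .adp (.c 18433 (.c 12866 (.c 32 .nil))) (.b 4737 .nil)) (.I .adp (.c 8 (.c 40 (.c 32 .nil))) (.l 18433 (.b 4737 .nil)))) (.node (.I .tdp (.c 8 (.c 40 (.c 18433 (.c 32 .nil)))) (.b 4737 .nil)) (.I .tdb (.c 0 (.c 48 (.c 32 (.c 40 .nil)))) (.r 8 (.b 4737 .nil)))))))) (.node (.node (.node (.node (.node (.I .adp (.c 18433 (.c 12866 (.c 24 .nil))) (.b 8321 .nil)) (.I .adp (.c 8 (.c 40 (.c 24 .nil))) (.l 18433 (.b 8321 .nil)))) (.node (.I .tdp (.c 8 (.c 40 (.c 18433 (.c 24 .nil)))) (.b 8321 .nil)) (.I .adp (.c 18433 (.c 12866 (.c 16 .nil))) (.b 8385 .nil)))) (.node (.node (.I .adp (.c 8 (.c 40 (.c 16 .nil))) (.l 18433 (.b 8385 .nil))) (.I .tdp (.c 8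 (.c 40 (.c 18433 (.c 16 .nil)))) (.b 8385 .nil))) (.node (.I .tdb (.c 0 (.c 48 (.c 16 (.c 40 .nil)))) (.r 8 (.b 8385 .nil))) (.I .tdb (.c 0 (.c 40 (.c 32 (.c 48 .nil)))) (.r 8 (.b 4737 .nil)))))) (.node (.node (.node (.I .adp (.c 0 (.c 1324066185 (.c 32 .nil))) (.b 4737 .nil)) (.I .adp (.c 0 (.c 1324066185 (.c 24 .nil))) (.b 8321 .nil))) (.node (.I .adp (.c 0 (.c 1324066185 (.c 16 .nil))) (.b 8385 .nil)) (.I .jac (.c 179513673 (.c 32 (.c 48 .nil))) (.l 8 (.l 0 .nil))))) (.node (.node (.I .jac (.c 4737 (.c 32 (.c 48 .nil))) (.b 40 (.l 8 (.l 0 .nil)))) (.I .jac (.c 4737 (.c 32 (.c 40 .nil))) (.b 48 (.l 8 (.l 0 .nil))))) (.node (.I .jac (.c 8321 (.c 18625 (.c 40 .nil))) (.l 8 (.l 0 .nil))) (.I .tdp (.c 8 (.c 2775125321 (.c 0 (.c 8321 .nil)))) .nil))))) (.node (.node (.node (.node (.I .tdb (.c 16 (.c 32 (.c 0 (.c 8 .nil)))) (.l 2775125321 .nil)) (.I .com (.c 580749782704329 (.c 2775125321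 .nil)) .nil)) (.node (.I .tdb (.c 16 (.c 32 (.c 2775125321 (.c 0 .nil)))) (.r 8 .nil)) (.I .tdb (.c 16 (.c 32 (.c 0 (.c 8 .nil)))) (.b 2775125321 .nil)))) (.node (.node (.I .jac (.c 553912713 (.c 24 (.c 40 .nil))) (.l 8 (.l 0 .nil))) (.I .jac (.c 8321 (.c 24 (.c 40 .nil))) (.b 48 (.l 8 (.l 0 .nil))))) (.node (.I .tdp (.c 8 (.c 2756086089 (.c 0 (.c 8385 .nil)))) .nil) (.I .tdb (.c 24 (.c 32 (.c 0 (.c 8 .nil)))) (.l 2756086089 .nil))))) (.node (.node (.node (.I .tdb (.c 24 (.c 32 (.c 2756086089 (.c 0 .nil)))) (.r 8 .nil)) (.I .tdb (.c 24 (.c 32 (.c 0 (.c 8 .nil)))) (.b 2756086089 .nil))) (.node (.I .jac (.c 1337272713 (.c 24 (.c 32 .nil))) (.l 8 (.l 0 .nil))) (.I .adp (.c 8321 (.c 24 (.c 13748198893136698057 .nil))) .nil))) (.node (.node (.I .adp (.c 4737 (.c 32 (.c 13748198893136698057 .nil))) .nil) (.I .com (.c 1512103782441961036806911905286300602249 (.c 4737 .nil)) .nil)) (.node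 (.I .com (.c 8321 (.c 24 .nil)) (.b 59109062884628932553 .nil)) (.I .adp (.c 24 (.c 32 (.c 16 .nil))) (.b 59109062884628932553 .nil))))))))

noncomputable def c2_192 : Tr := (.node (.node (.node (.node (.node (.node (.I .adp (.c 8321 (.c 24 (.c 59109062884628932553 .nil))) .nil) (.I .adp (.c 4737 (.c 32 (.c 59109062884628932553 .nil))) .nil)) (.node (.I .com (.c 8321 (.c 24 .nil)) (.b 35473026505673 .nil)) (.I .adp (.c 24 (.c 32 (.c 16 .nil))) (.b 35473026505673 .nil)))) (.node (.node (.I .adp (.c 8321 (.c 24 (.c 35473026505673 .nil))) .nil) (.I .com (.c 1512102306009786965494079912008658879305 (.c 8321 .nil)) .nil)) (.node (.I .adp (.c 4737 (.c 32 (.c 13748192181200529417 .nil))) .nil) (.I .adp (.c 8321 (.c 24 (.c 59109074018392946377 .nil))) .nil)))) (.node (.node (.node (.I .adp (.c 4737 (.c 32 (.c 59109074018392946377 .nil))) .nil) (.I .com (.c 27951061050494848458324402179417579409289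 (.c 4737 .nil)) .nil)) (.node (.I .com (.c 8321 (.c 24 .nil)) (.b 35470870263817 .nil)) (.I .adp (.c 24 (.c 32 (.c 16 .nil))) (.b 35470870263817 .nil)))) (.node (.node (.I .adp (.c 8321 (.c 24 (.c 15456163896880201 .nil))) .nil) (.I .jac (.c 0 (.c 8 (.c 48 .nil))) (.r 40 (.b 553912521 .nil)))) (.node (.I .adp (.c 2718203977 (.c 40 (.c 553912521 .nil))) .nil) (.I .adp (.c 2105737 (.c 40 (.c 553912521 .nil))) .nil))))) (.node (.node (.node (.node (.I .adp (.c 12801 (.c 18497 (.c 553912521 .nil))) .nil) (.I .jac (.c 18497 (.c 8321 (.c 24 .nil))) (.l 12801 .nil))) (.node (.I .jac (.c 18497 (.c 16 (.c 32 .nil))) (.b 24 (.l 12801 .nil))) (.I .jac (.c 12801 (.c 8321 (.c 24 .nil))) (.r 18497 .nil)))) (.node (.node (.I .jac (.c 12801 (.c 16 (.c 32 .nil))) (.b 24 (.r 18497 .nil))) (.I .jac (.c 0 (.c 8 (.c 48 .nil))) (.r 40 (.b 179513609 .nil)))) (.node (.I .adp (.c 2718203977 (.c 40 (.c 179513609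 .nil))) .nil) (.I .jac (.c 2718203977 (.c 4737 (.c 32 .nil))) (.r 40 .nil))))) (.node (.node (.node (.I .jac (.c 2718203977 (.c 16 (.c 24 .nil))) (.b 32 (.r 40 .nil))) (.I .adp (.c 2105737 (.c 40 (.c 179513609 .nil))) .nil)) (.node (.I .adp (.c 12801 (.c 18497 (.c 179513609 .nil))) .nil) (.I .jac (.c 18497 (.c 4737 (.c 32 .nil))) (.l 12801 .nil)))) (.node (.node (.I .jac (.c 18497 (.c 16 (.c 24 .nil))) (.b 32 (.l 12801 .nil))) (.I .jac (.c 12801 (.c 4737 (.c 32 .nil))) (.r 18497 .nil))) (.node (.I .jac (.c 12801 (.c 16 (.c 24 .nil))) (.b 32 (.r 18497 .nil))) (.I .adp (.c 2718203977 (.c 40 (.c 8786563 .nil))) .nil)))))) (.node (.node (.node (.node (.node (.I .adp (.c 8321 (.c 24 (.c 59109062906374564370 .nil))) .nil) (.I .tdb (.c 8 (.c 18433 (.c 24 (.c 40 .nil)))) (.l 8321 .nil))) (.node (.I .adp (.c 2718203977 (.c 40 (.c 24 .nil))) (.l 8321 .nil)) (.I .ass (.c 8321 (.c 59109062884628932425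 (.c 40 .nil))) .nil))) (.node (.node (.I .com (.c 8321 (.c 59109062884628932425 .nil)) (.r 40 .nil)) (.I .ass (.c 8321 (.c 2718203977 (.c 12993 .nil))) .nil)) (.node (.I .ass (.c 2718203977 (.c 8321 (.c 12993 .nil))) .nil) (.I .com (.c 8321 (.c 2718203977 .nil)) (.r 12993 .nil))))) (.node (.node (.node (.I .adp (.c 2718203977 (.c 40 (.c 8321 .nil))) (.r 24 .nil)) (.I .jac (.c 2718203977 (.c 16 (.c 32 .nil))) (.r 40 (.r 24 .nil)))) (.node (.I .ass (.c 27951050520792140940324630661021757881097 (.c 40 (.c 24 .nil))) .nil) (.I .com (.c 24 (.c 40 .nil)) (.l 27951050520792140940324630661021757881097 .nil)))) (.node (.node (.I .ass (.c 27951050520792140819269269873301704274825 (.c 40 (.c 24 .nil))) .nil) (.I .com (.c 24 (.c 40 .nil)) (.l 27951050520792140819269269873301704274825 .nil))) (.node (.I .ass (.c 2718203977 (.c 553912649 (.c 24 .nil))) .nil) (.I .tdp (.c 2718203977 (.c 40 (.c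 24 (.c 8321 .nil)))) .nil))))) (.node (.node (.node (.node (.I .com (.c 2718203977 (.c 3632106110100681 .nil)) .nil) (.I .tdb (.c 513 (.c 48 (.c 24 (.c 40 .nil)))) (.l 8321 .nil))) (.node (.I .tdb (.c 0 (.c 8 (.c 24 (.c 40 .nil)))) (.b 48 (.l 8321 .nil))) (.I .tdb (.c 0 (.c 40 (.c 18497 (.c 24 .nil)))) (.l 8321 .nil)))) (.node (.node (.I .tdb (.c 8 (.c 48 (.c 24 (.c 40 .nil)))) (.b 0 (.l 8321 .nil))) (.I .com (.c 1809230235455469428084446102834121 (.c 8321 .nil)) .nil)) (.node (.I .ass (.c 8321 (.c 1310925001 (.c 18497 .nil))) .nil) (.I .ass (.c 1310925001 (.c 8321 (.c 18497 .nil))) .nil)))) (.node (.node (.node (.I .com (.c 8321 (.c 1310925001 .nil)) (.r 18497 .nil)) (.I .com (.c 18497 (.c 8321 .nil)) (.l 1310925001 .nil))) (.node (.I .ass (.c 8321 (.c 12801 (.c 2737112265 .nil))) .nil) (.I .ass (.c 12801 (.c 8321 (.c 2737112265 .nil))) .nil))) (.node (.node (.I .com (.c 8321 (.c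 12801 .nil)) (.r 2737112265 .nil)) (.I .tdb (.c 0 (.c 40 (.c 18497 (.c 16 .nil)))) (.b 32 (.r 24 .nil)))) (.node (.I .tdb (.c 0 (.c 40 (.c 18497 (.c 32 .nil)))) (.b 16 (.r 24 .nil))) (.I .ass (.c 13748193523587632009 (.c 18497 (.c 24 .nil))) .nil)))))))

noncomputable def c2_193 : Tr := (.node (.node (.node (.node (.node (.node (.I .tdb (.c 0 (.c 40 (.c 16 (.c 24 .nil)))) (.b 32 (.l 18497 .nil))) (.I .tdb (.c 16 (.c 32 (.c 12801 (.c 24 .nil)))) (.l 18497 .nil))) (.node (.I .adp (.c 4737 (.c 32 (.c 15456118887243913 .nil))) .nil) (.I .adp (.c 4737 (.c 32 (.c 59109062906374564370 .nil))) .nil))) (.node (.node (.I .adp (.c 2718203977 (.c 40 (.c 32 .nil))) (.l 4737 .nil)) (.I .adp (.c 2718203977 (.c 40 (.c 4737 .nil))) (.r 32 .nil))) (.node (.I .jac (.c 2718203977 (.c 16 (.c 24 .nil))) (.r 40 (.r 32 .nil))) (.I .ass (.c 2718203977 (.c 179513673 (.c 32 .nil))) .nil)))) (.node (.node (.node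 (.I .tdp (.c 2718203977 (.c 40 (.c 4737 (.c 32 .nil)))) .nil) (.I .com (.c 2718203977 (.c 3632084291164425 .nil)) .nil)) (.node (.I .jac (.c 0 (.c 8 (.c 43954947 .nil))) (.l 4737 .nil)) (.I .tdb (.c 0 (.c 40 (.c 18497 (.c 32 .nil)))) (.l 4737 .nil)))) (.node (.node (.I .com (.c 18497 (.c 4737 .nil)) (.l 1310925065 .nil)) (.I .tdb (.c 0 (.c 40 (.c 18497 (.c 16 .nil)))) (.b 24 (.r 32 .nil)))) (.node (.I .tdb (.c 0 (.c 40 (.c 16 (.c 32 .nil)))) (.b 24 (.l 18497 .nil))) (.I .tdb (.c 16 (.c 24 (.c 32 (.c 12801 .nil)))) (.l 18497 .nil)))))) (.node (.node (.node (.node (.I .tdb (.c 8 (.c 40 (.c 0 (.c 48 .nil)))) (.b 553912521 .nil)) (.I .jac (.c 0 (.c 8 (.c 40 .nil))) (.r 48 (.b 553912521 .nil)))) (.node (.I .jac (.c 12865 (.c 16 (.c 32 .nil))) (.b 24 (.l 18433 .nil))) (.I .adp (.c 1310924873 (.c 48 (.c 553912521 .nil))) .nil))) (.node (.node (.I .jac (.c 1310924873 (.c 8321 (.c 24 .nil)))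 (.r 48 .nil)) (.I .jac (.c 1310924873 (.c 16 (.c 32 .nil))) (.b 24 (.r 48 .nil)))) (.node (.I .adp (.c 2105673 (.c 48 (.c 553912521 .nil))) .nil) (.I .tdb (.c 8 (.c 40 (.c 0 (.c 48 .nil)))) (.b 179513609 .nil))))) (.node (.node (.node (.I .jac (.c 0 (.c 8 (.c 40 .nil))) (.r 48 (.b 179513609 .nil))) (.I .jac (.c 12865 (.c 4737 (.c 32 .nil))) (.l 18433 .nil))) (.node (.I .jac (.c 12865 (.c 16 (.c 24 .nil))) (.b 32 (.l 18433 .nil))) (.I .adp (.c 1310924873 (.c 48 (.c 179513609 .nil))) .nil))) (.node (.node (.I .jac (.c 1310924873 (.c 4737 (.c 32 .nil))) (.r 48 .nil)) (.I .jac (.c 1310924873 (.c 16 (.c 24 .nil))) (.b 32 (.r 48 .nil)))) (.node (.I .adp (.c 2105673 (.c 48 (.c 179513609 .nil))) .nil) (.I .adp (.c 1310924873 (.c 48 (.c 8786563 .nil))) .nil)))))) (.node (.node (.node (.node (.node (.I .tdb (.c 8 (.c 40 (.c 18433 (.c 24 .nil)))) (.l 8321 .nil)) (.I .ass (.c 8321 (.c 2718204105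 (.c 12865 .nil))) .nil)) (.node (.I .ass (.c 2718204105 (.c 8321 (.c 12865 .nil))) .nil) (.I .com (.c 8321 (.c 2718204105 .nil)) (.r 12865 .nil)))) (.node (.node (.I .com (.c 12865 (.c 8321 .nil)) (.l 2718204105 .nil)) (.I .ass (.c 59109071234951844617 (.c 12865 (.c 24 .nil))) .nil)) (.node (.I .ass (.c 59109065668069837705 (.c 12865 (.c 24 .nil))) .nil) (.I .tdb (.c 0 (.c 48 (.c 24 (.c 32 .nil)))) (.b 16 (.l 12865 .nil)))))) (.node (.node (.node (.I .tdb (.c 16 (.c 32 (.c 18433 (.c 24 .nil)))) (.l 12865 .nil)) (.I .tdb (.c 8 (.c 12801 (.c 24 (.c 48 .nil)))) (.l 8321 .nil))) (.node (.I .ass (.c 8321 (.c 1310924873 (.c 18625 .nil))) .nil) (.I .ass (.c 1310924873 (.c 8321 (.c 18625 .nil))) .nil))) (.node (.node (.I .com (.c 8321 (.c 1310924873 .nil)) (.r 18625 .nil)) (.I .com (.c 1310924873 (.c 15038498931046729 .nil)) .nil)) (.node (.I .com (.c 1310924873 (.c 15246325749294281 .nil))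 .nil) (.I .adp (.c 4737 (.c 32 (.c 14629225721520521 .nil))) .nil))))) (.node (.node (.node (.node (.I .com (.c 1712113961689580865954497792891785 (.c 4737 .nil)) .nil) (.I .tdb (.c 8 (.c 40 (.c 18433 (.c 32 .nil)))) (.l 4737 .nil))) (.node (.I .ass (.c 4737 (.c 2718204169 (.c 12865 .nil))) .nil) (.I .ass (.c 2718204169 (.c 4737 (.c 12865 .nil))) .nil))) (.node (.node (.I .com (.c 4737 (.c 2718204169 .nil)) (.r 12865 .nil)) (.I .com (.c 12865 (.c 4737 .nil)) (.l 2718204169 .nil))) (.node (.I .com (.c 1324066057 (.c 4737 .nil)) (.l 18433 .nil)) (.I .tdb (.c 0 (.c 48 (.c 16 (.c 32 .nil)))) (.b 24 (.l 12865 .nil)))))) (.node (.node (.node (.I .adp (.c 4737 (.c 32 (.c 13748192191687928402 .nil))) .nil) (.I .tdb (.c 0 (.c 40 (.c 32 (.c 48 .nil)))) (.b 8 (.l 4737 .nil)))) (.node (.I .adp (.c 1310924873 (.c 48 (.c 32 .nil))) (.l 4737 .nil)) (.I .ass (.c 4737 (.c 13748192181200529289 (.c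 48 .nil))) .nil))) (.node (.node (.I .ass (.c 13748192181200529289 (.c 4737 (.c 48 .nil))) .nil) (.I .com (.c 4737 (.c 13748192181200529289 .nil)) (.r 48 .nil))) (.node (.I .ass (.c 4737 (.c 1310924873 (.c 18689 .nil))) .nil) (.I .ass (.c 1310924873 (.c 4737 (.c 18689 .nil))) .nil)))))))

noncomputable def c2_194 : Tr := (.node (.node (.node (.node (.node (.node (.I .com (.c 4737 (.c 1310924873 .nil)) (.r 18689 .nil)) (.I .adp (.c 1310924873 (.c 48 (.c 4737 .nil))) (.r 32 .nil))) (.node (.I .ass (.c 1512102306009786923259633531360632805129 (.c 48 (.c 32 .nil))) .nil) (.I .com (.c 32 (.c 48 .nil)) (.l 1512102306009786923259633531360632805129 .nil)))) (.node (.node (.I .ass (.c 1512102306009786909181484737811290911561 (.c 48 (.c 32 .nil))) .nil) (.I .com (.c 32 (.c 48 .nil)) (.l 1512102306009786909181484737811290911561 .nil))) (.node (.I .ass (.c 1310924873 (.c 179513737 (.c 32 .nil)))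 .nil) (.I .tdp (.c 1310924873 (.c 48 (.c 4737 (.c 32 .nil)))) .nil)))) (.node (.node (.node (.I .tdb (.c 16 (.c 24 (.c 32 (.c 48 .nil)))) (.r 1310924873 .nil)) (.I .tdb (.c 513 (.c 40 (.c 32 (.c 48 .nil)))) (.l 4737 .nil))) (.node (.I .tdb (.c 0 (.c 8 (.c 32 (.c 48 .nil)))) (.b 40 (.l 4737 .nil))) (.I .adp (.c 8 (.c 2756086089 (.c 537002185 .nil))) .nil))) (.node (.node (.I .adp (.c 1310925193 (.c 8 (.c 553912521 .nil))) .nil) (.I .jac (.c 8 (.c 8321 (.c 24 .nil))) (.l 1310925193 .nil))) (.node (.I .jac (.c 8 (.c 16 (.c 32 .nil))) (.b 24 (.l 1310925193 .nil))) (.I .jac (.c 1310925193 (.c 8321 (.c 24 .nil))) (.r 8 .nil)))))) (.node (.node (.node (.node (.I .jac (.c 1310925193 (.c 16 (.c 32 .nil))) (.b 24 (.r 8 .nil))) (.I .jac (.c 553912521 (.c 40 (.c 48 .nil))) (.l 513 .nil))) (.node (.I .adp (.c 1310925193 (.c 8 (.c 179513609 .nil))) .nil) (.I .jac (.c 8 (.c 4737 (.c 32 .nil)))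 (.l 1310925193 .nil)))) (.node (.node (.I .jac (.c 8 (.c 16 (.c 24 .nil))) (.b 32 (.l 1310925193 .nil))) (.I .jac (.c 1310925193 (.c 4737 (.c 32 .nil))) (.r 8 .nil))) (.node (.I .jac (.c 1310925193 (.c 16 (.c 24 .nil))) (.b 32 (.r 8 .nil))) (.I .jac (.c 179513609 (.c 40 (.c 48 .nil))) (.l 513 .nil))))) (.node (.node (.node (.I .adp (.c 8 (.c 2756086089 (.c 8786435 .nil))) .nil) (.I .com (.c 74495752857537580654899489532600480323977796352006050539336649 (.c 8 .nil)) .nil)) (.node (.I .com (.c 74495752857414066684633992927837884407732608567604609970275273 (.c 8 .nil)) .nil) (.I .com (.c 74495752857506702162333100979256575144015126325412450007200777 (.c 8 .nil)) .nil))) (.node (.node (.I .jac (.c 617611520074185 (.c 16 (.c 40 .nil))) (.l 8 .nil)) (.I .jac (.c 8786435 (.c 16 (.c 40 .nil))) (.b 48 (.l 8 .nil)))) (.node (.I .jac (.c 537002313 (.c 16 (.c 48 .nil))) (.l 8 (.r 24 .nil)))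 (.I .com (.c 42576953795010663218959029878649750281 (.c 8 .nil)) (.r 24 .nil))))))) (.node (.node (.node (.node (.node (.I .com (.c 42576953795010653769602236682924913673 (.c 8 .nil)) (.r 24 .nil)) (.I .ass (.c 537002057 (.c 1337272713 (.c 24 .nil))) .nil)) (.node (.I .adp (.c 4609 (.c 32 (.c 60768084239834527434 .nil))) .nil) (.I .adp (.c 8 (.c 2756086089 (.c 32 .nil))) (.l 4609 .nil)))) (.node (.node (.I .jac (.c 20685315 (.c 16 (.c 48 .nil))) (.b 24 (.r 32 .nil))) (.I .tdb (.c 0 (.c 24 (.c 2756086089 (.c 8 .nil)))) (.r 32 .nil))) (.node (.I .tdb (.c 40 (.c 18561 (.c 0 (.c 8 .nil)))) (.b 24 (.r 32 .nil))) (.I .adp (.c 8 (.c 2756086089 (.c 4609 .nil))) (.r 32 .nil))))) (.node (.node (.node (.I .jac (.c 169943369 (.c 16 (.c 48 .nil))) (.l 8 (.r 32 .nil))) (.I .jac (.c 4609 (.c 18561 (.c 40 .nil))) (.l 8 (.r 32 .nil)))) (.node (.I .jac (.c 4609 (.c 16 (.c 48 .nil))) (.b 40 (.l 8 (.r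 32 .nil)))) (.I .com (.c 427057993508084562470663629860471561 (.c 8 .nil)) (.r 32 .nil)))) (.node (.node (.I .com (.c 427058636821845956378289793772237769 (.c 8 .nil)) (.r 32 .nil)) (.I .com (.c 427057993508083616106291307304383497 (.c 8 .nil)) (.r 32 .nil))) (.node (.I .ass (.c 169943113 (.c 2756086089 (.c 32 .nil))) .nil) (.I .tdp (.c 8 (.c 2756086089 (.c 4609 (.c 32 .nil)))) .nil))))) (.node (.node (.node (.node (.I .tdb (.c 0 (.c 24 (.c 32 (.c 8 .nil)))) (.l 2756086089 .nil)) (.I .com (.c 427056063571158149899930723770114057 (.c 8 .nil)) (.r 32 .nil))) (.node (.I .com (.c 2718204233 (.c 8 .nil)) (.b 8786563 .nil)) (.I .com (.c 1310925193 (.c 8 .nil)) (.b 8786563 .nil)))) (.node (.node (.I .adp (.c 2718204233 (.c 8 (.c 8786563 .nil))) .nil) (.I .adp (.c 1310925193 (.c 8 (.c 8786563 .nil))) .nil)) (.node (.I .com (.c 2718204233 (.c 8 .nil)) (.b 553979090 .nil)) (.I .adp (.c 8321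 (.c 24 (.c 59109074040138580242 .nil))) .nil)))) (.node (.node (.node (.I .adp (.c 2718204233 (.c 8 (.c 24 .nil))) (.l 8321 .nil)) (.I .ass (.c 8321 (.c 59109074018392946505 (.c 8 .nil))) .nil)) (.node (.I .ass (.c 59109074018392946505 (.c 8321 (.c 8 .nil))) .nil) (.I .com (.c 8321 (.c 59109074018392946505 .nil)) (.r 8 .nil)))) (.node (.node (.I .com (.c 8 (.c 8321 .nil)) (.l 59109074018392946505 .nil)) (.I .tdb (.c 16 (.c 32 (.c 2718204233 (.c 8 .nil)))) (.r 24 .nil))) (.node (.I .adp (.c 2718204233 (.c 8 (.c 8321 .nil))) (.r 24 .nil)) (.I .jac (.c 8 (.c 16 (.c 32 .nil))) (.l 2718204233 (.r 24 .nil)))))))))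

noncomputable def c2_195 : Tr := (.node (.node (.node (.node (.node (.node (.I .jac (.c 2718204233 (.c 16 (.c 32 .nil))) (.r 8 (.r 24 .nil))) (.I .tdp (.c 2718204233 (.c 8 (.c 24 (.c 8321 .nil)))) .nil)) (.node (.I .ass (.c 8321 (.c 513 (.c 2775125321 .nil))) .nil) (.I .ass (.c 513 (.c 8321 (.c 2775125321 .nil))) .nil))) (.node (.node (.I .com (.c 8321 (.c 513 .nil)) (.r 2775125321 .nil)) (.I .ass (.c 8321 (.c 513 (.c 1350544777 .nil))) .nil)) (.node (.I .ass (.c 513 (.c 8321 (.c 1350544777 .nil))) .nil) (.I .com (.c 8321 (.c 513 .nil)) (.r 1350544777 .nil))))) (.node (.node (.node (.I .com (.c 2718204233 (.c 8 .nil)) (.b 179551506 .nil)) (.I .com (.c 1310925193 (.c 8 .nil)) (.b 179551506 .nil))) (.node (.I .adp (.c 4737 (.c 32 (.c 59109074040138580242 .nil))) .nil) (.I .adp (.c 2718204233 (.c 8 (.c 32 .nil))) (.l 4737 .nil)))) (.node (.node (.I .ass (.c 4737 (.c 59109074018392946569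 (.c 8 .nil))) .nil) (.I .ass (.c 59109074018392946569 (.c 4737 (.c 8 .nil))) .nil)) (.node (.I .com (.c 4737 (.c 59109074018392946569 .nil)) (.r 8 .nil)) (.I .com (.c 8 (.c 4737 .nil)) (.l 59109074018392946569 .nil)))))) (.node (.node (.node (.node (.I .ass (.c 4737 (.c 2718204233 (.c 8257 .nil))) .nil) (.I .com (.c 4737 (.c 2718204233 .nil)) (.r 8257 .nil))) (.node (.I .tdb (.c 16 (.c 24 (.c 2718204233 (.c 8 .nil)))) (.r 32 .nil)) (.I .adp (.c 2718204233 (.c 8 (.c 4737 .nil))) (.r 32 .nil)))) (.node (.node (.I .jac (.c 8 (.c 16 (.c 24 .nil))) (.l 2718204233 (.r 32 .nil))) (.I .jac (.c 2718204233 (.c 16 (.c 24 .nil))) (.r 8 (.r 32 .nil)))) (.node (.I .tdp (.c 2718204233 (.c 8 (.c 4737 (.c 32 .nil)))) .nil) (.I .adp (.c 4737 (.c 32 (.c 13748198903624099602 .nil))) .nil)))) (.node (.node (.node (.I .tdb (.c 48 (.c 12801 (.c 8 (.c 32 .nil)))) (.l 4737 .nil)) (.I .tdb (.c 0 (.c 40 (.c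 8 (.c 32 .nil)))) (.b 48 (.l 4737 .nil)))) (.node (.I .adp (.c 1310925193 (.c 8 (.c 32 .nil))) (.l 4737 .nil)) (.I .ass (.c 4737 (.c 13748198893136698249 (.c 8 .nil))) .nil))) (.node (.node (.I .ass (.c 13748198893136698249 (.c 4737 (.c 8 .nil))) .nil) (.I .com (.c 4737 (.c 13748198893136698249 .nil)) (.r 8 .nil))) (.node (.I .com (.c 8 (.c 4737 .nil)) (.l 13748198893136698249 .nil)) (.I .ass (.c 4737 (.c 1310925193 (.c 8257 .nil))) .nil)))))) (.node (.node (.node (.node (.node (.I .com (.c 4737 (.c 1310925193 .nil)) (.r 8257 .nil)) (.I .tdb (.c 16 (.c 24 (.c 1310925193 (.c 8 .nil)))) (.r 32 .nil))) (.node (.I .adp (.c 1310925193 (.c 8 (.c 4737 .nil))) (.r 32 .nil)) (.I .jac (.c 8 (.c 16 (.c 24 .nil))) (.l 1310925193 (.r 32 .nil))))) (.node (.node (.I .jac (.c 1310925193 (.c 16 (.c 24 .nil))) (.r 8 (.r 32 .nil))) (.I .tdp (.c 1310925193 (.c 8 (.c 4737 (.c 32 .nil)))) .nil)) (.node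 (.I .jac (.c 32 (.c 40 (.c 48 .nil))) (.l 513 (.l 4737 .nil))) (.I .tdb (.c 16 (.c 48 (.c 24 (.c 40 .nil)))) (.b 8193 (.l 8 .nil)))))) (.node (.node (.node (.I .adp (.c 18561 (.c 40 (.c 537002185 .nil))) (.l 8 .nil)) (.I .tdp (.c 18561 (.c 40 (.c 8 (.c 537002185 .nil)))) .nil)) (.node (.I .tdb (.c 24 (.c 8193 (.c 8 (.c 40 .nil)))) (.r 18561 .nil)) (.I .tdb (.c 24 (.c 8193 (.c 12929 (.c 48 .nil)))) (.l 8 .nil)))) (.node (.node (.I .tdb (.c 16 (.c 40 (.c 24 (.c 48 .nil)))) (.b 8193 (.l 8 .nil))) (.I .tdb (.c 0 (.c 32 (.c 12929 (.c 48 .nil)))) (.b 24 (.l 8 .nil)))) (.node (.I .tdb (.c 16 (.c 40 (.c 32 (.c 48 .nil)))) (.b 0 (.b 24 (.l 8 .nil)))) (.I .adp (.c 12929 (.c 48 (.c 537002185 .nil))) (.l 8 .nil)))))) (.node (.node (.node (.node (.I .tdp (.c 12929 (.c 48 (.c 8 (.c 537002185 .nil)))) .nil) (.I .tdb (.c 24 (.c 8193 (.c 12929 (.c 8 .nil)))) (.l 48 .nil))) (.node (.I .tdb (.c 24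 (.c 8193 (.c 8 (.c 48 .nil)))) (.b 12929 .nil)) (.I .tdb (.c 4609 (.c 32 (.c 18561 (.c 40 .nil)))) (.l 8 .nil)))) (.node (.node (.I .tdb (.c 0 (.c 24 (.c 40 (.c 18561 .nil)))) (.b 32 (.l 8 .nil))) (.I .adp (.c 18561 (.c 40 (.c 169943305 .nil))) (.l 8 .nil))) (.node (.I .tdp (.c 18561 (.c 40 (.c 8 (.c 169943305 .nil)))) .nil) (.I .tdb (.c 4609 (.c 32 (.c 8 (.c 40 .nil)))) (.r 18561 .nil))))) (.node (.node (.node (.I .tdb (.c 0 (.c 24 (.c 40 (.c 8 .nil)))) (.b 32 (.r 18561 .nil))) (.I .tdb (.c 4609 (.c 32 (.c 8 (.c 40 .nil)))) (.b 18561 .nil))) (.node (.I .tdb (.c 0 (.c 24 (.c 40 (.c 8 .nil)))) (.b 32 (.b 18561 .nil))) (.I .tdb (.c 4609 (.c 32 (.c 12929 (.c 48 .nil)))) (.l 8 .nil)))) (.node (.node (.I .tdb (.c 0 (.c 24 (.c 48 (.c 12929 .nil)))) (.b 32 (.l 8 .nil))) (.I .tdb (.c 16 (.c 40 (.c 24 (.c 48 .nil)))) (.b 0 (.b 32 (.l 8 .nil))))) (.node (.I .tdb (.c 16 (.c 40 (.c 32 (.c 48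 .nil)))) (.b 4609 (.l 8 .nil))) (.I .adp (.c 12929 (.c 48 (.c 169943305 .nil))) (.l 8 .nil))))))))

noncomputable def c2_196 : Tr := (.node (.node (.node (.node (.node (.node (.I .tdp (.c 12929 (.c 48 (.c 8 (.c 169943305 .nil)))) .nil) (.I .tdb (.c 4609 (.c 32 (.c 8 (.c 48 .nil)))) (.r 12929 .nil))) (.node (.I .tdb (.c 0 (.c 24 (.c 48 (.c 8 .nil)))) (.b 32 (.r 12929 .nil))) (.I .tdb (.c 4609 (.c 32 (.c 8 (.c 48 .nil)))) (.b 12929 .nil)))) (.node (.node (.I .tdb (.c 0 (.c 24 (.c 48 (.c 8 .nil)))) (.b 32 (.b 12929 .nil))) (.I .tdb (.c 4609 (.c 32 (.c 12929 (.c 8 .nil)))) (.b 48 .nil))) (.node (.I .tdb (.c 0 (.c 24 (.c 12929 (.c 8 .nil)))) (.b 32 (.b 48 .nil))) (.I .tdb (.c 0 (.c 48 (.c 8 (.c 24 .nil)))) (.b 8321 (.l 40 .nil)))))) (.node (.node (.node (.I .jac (.c 3561367726845001 (.c 16 (.c 32 .nil))) (.l 48 .nil)) (.I .tdb (.c 0 (.c 40 (.c 24 (.c 48 .nil)))) (.b 8321 (.b 8 .nil))))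 (.node (.I .tdb (.c 0 (.c 40 (.c 8 (.c 24 .nil)))) (.b 8321 (.b 48 .nil))) (.I .tdb (.c 0 (.c 40 (.c 8 (.c 48 .nil)))) (.b 553912521 .nil)))) (.node (.node (.I .com (.c 2454552647364603913 (.c 40 .nil)) (.l 513 .nil)) (.I .tdb (.c 4737 (.c 32 (.c 8 (.c 40 .nil)))) (.l 18433 .nil))) (.node (.I .tdb (.c 16 (.c 24 (.c 40 (.c 8 .nil)))) (.b 32 (.l 18433 .nil))) (.I .jac (.c 15246236343241801 (.c 16 (.c 24 .nil))) (.l 40 .nil)))))) (.node (.node (.node (.node (.I .jac (.c 21307459 (.c 16 (.c 24 .nil))) (.b 18433 .nil)) (.I .jac (.c 580749782704521 (.c 16 (.c 24 .nil))) (.l 48 .nil))) (.node (.I .jac (.c 3632062472293449 (.c 16 (.c 24 .nil))) (.l 48 .nil)) (.I .tdb (.c 0 (.c 40 (.c 8 (.c 32 .nil)))) (.b 4737 (.l 48 .nil))))) (.node (.node (.I .tdb (.c 0 (.c 40 (.c 32 (.c 48 .nil)))) (.b 4737 (.b 8 .nil))) (.I .tdb (.c 0 (.c 40 (.c 8 (.c 32 .nil)))) (.b 4737 (.b 48 .nil)))) (.node (.I .tdb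 (.c 0 (.c 40 (.c 8 (.c 48 .nil)))) (.b 179513609 .nil)) (.I .com (.c 257801086529639433 (.c 40 .nil)) (.l 513 .nil))))) (.node (.node (.node (.I .jac (.c 12801 (.c 8 (.c 48 .nil))) (.b 554045665 .nil)) (.I .jac (.c 13748198893136698057 (.c 24 (.c 32 .nil))) (.l 16 .nil))) (.node (.I .com (.c 18291662791002283477600599596031379254339380927068413549893950268305120830864201 (.c 16 .nil)) .nil) (.I .jac (.c 59109062884628932553 (.c 24 (.c 32 .nil))) (.l 16 .nil)))) (.node (.node (.I .com (.c 6250089801726996933345600848581934553944221302652681330639322995006275437893499721 (.c 16 .nil)) .nil) (.I .adp (.c 16 (.c 32 (.c 24 .nil))) (.b 35473026505673 .nil))) (.node (.I .adp (.c 16 (.c 8385 (.c 35473026505673 .nil))) .nil) (.I .adp (.c 16 (.c 32 (.c 24 .nil))) (.b 13748192181200529417 .nil))))))) (.node (.node (.node (.node (.node (.I .adp (.c 16 (.c 8385 (.c 13748192181200529417 .nil)))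 .nil) (.I .com (.c 18291627070720923377478216906293781422229280460617050807067065977983415150705481 (.c 16 .nil)) .nil)) (.node (.I .com (.c 18291627070720923377478216906293781420680887699263028954401128148086548458264457 (.c 16 .nil)) .nil) (.I .adp (.c 16 (.c 32 (.c 1324066185 .nil))) (.b 4609 .nil)))) (.node (.node (.I .jac (.c 18433 (.c 8 (.c 40 .nil))) (.b 554045665 .nil)) (.I .jac (.c 0 (.c 12865 (.c 48 .nil))) (.b 554045665 .nil))) (.node (.I .jac (.c 0 (.c 8 (.c 40 .nil))) (.b 48 (.b 554045665 .nil))) (.I .jac (.c 59109074018392946377 (.c 24 (.c 32 .nil))) (.l 16 .nil))))) (.node (.node (.node (.I .adp (.c 16 (.c 32 (.c 24 .nil))) (.b 35470870263817 .nil)) (.I .adp (.c 16 (.c 8385 (.c 15456163896880201 .nil))) .nil)) (.node (.I .adp (.c 18497 (.c 40 (.c 24 .nil))) (.b 33587465 .nil)) (.I .tdb (.c 8 (.c 48 (.c 32 (.c 40 .nil)))) (.l 16 (.b 4609 .nil))))) (.node (.node (.I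 .adp (.c 16 (.c 32 (.c 24 .nil))) (.b 15456118887243913 .nil)) (.I .adp (.c 16 (.c 8385 (.c 15456118887243913 .nil))) .nil)) (.node (.I .com (.c 29219431338611946923215950238731118199641355788927348155321626164041 (.c 16 .nil)) .nil) (.I .adp (.c 16 (.c 32 (.c 24 .nil))) (.b 3423058053194185 .nil)))))) (.node (.node (.node (.node (.I .jac (.c 3423058053194185 (.c 24 (.c 32 .nil))) (.l 16 .nil)) (.I .com (.c 70295418264037085081049688170651661599363167756539804816340794185 (.c 16 .nil)) .nil)) (.node (.I .tdb (.c 8 (.c 18433 (.c 32 (.c 40 .nil)))) (.b 24 (.l 16 .nil))) (.I .tdb (.c 24 (.c 32 (.c 2718203977 (.c 40 .nil)))) (.l 16 .nil)))) (.node (.node (.I .adp (.c 2718203977 (.c 40 (.c 8385 .nil))) (.l 16 .nil)) (.I .jac (.c 2718203977 (.c 24 (.c 32 .nil))) (.r 40 (.l 16 .nil)))) (.node (.I .ass (.c 16 (.c 2718203977 (.c 562466121 .nil))) .nil) (.I .ass (.c 2718203977 (.c 16 (.c 562466121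 .nil))) .nil)))) (.node (.node (.node (.I .com (.c 16 (.c 2718203977 .nil)) (.r 562466121 .nil)) (.I .tdb (.c 8 (.c 18433 (.c 16 (.c 40 .nil)))) (.r 8385 .nil))) (.node (.I .tdb (.c 24 (.c 32 (.c 2105737 (.c 40 .nil)))) (.l 16 .nil)) (.I .tdb (.c 513 (.c 48 (.c 16 (.c 40 .nil)))) (.r 8385 .nil)))) (.node (.node (.I .tdb (.c 0 (.c 8 (.c 16 (.c 40 .nil)))) (.b 48 (.r 8385 .nil))) (.I .ass (.c 16 (.c 13748196208362033993 (.c 18497 .nil))) .nil)) (.node (.I .ass (.c 13748196208362033993 (.c 16 (.c 18497 .nil))) .nil) (.I .com (.c 16 (.c 13748196208362033993 .nil)) (.r 18497 .nil))))))))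

noncomputable def c2_197 : Tr := (.node (.node (.node (.node (.node (.node (.I .com (.c 18497 (.c 16 .nil)) (.l 13748196208362033993 .nil)) (.I .ass (.c 16 (.c 12801 (.c 59934271212510434121 .nil))) .nil)) (.node (.I .ass (.c 12801 (.c 16 (.c 59934271212510434121 .nil))) .nil) (.I .com (.c 16 (.c 12801 .nil)) (.r 59934271212510434121 .nil)))) (.node (.node (.I .com (.c 59934271212510434121 (.c 16 .nil)) (.l 12801 .nil)) (.I .adp (.c 16 (.c 8385 (.c 14629225721520521 .nil))) .nil)) (.node (.I .jac (.c 14629225721520521 (.c 24 (.c 32 .nil))) (.l 16 .nil)) (.I .jac (.c 12865 (.c 24 (.c 32 .nil))) (.l 18433 (.l 16 .nil)))))) (.node (.node (.node (.I .ass (.c 16 (.c 18433 (.c 14025207386396218185 .nil))) .nil) (.I .ass (.c 18433 (.c 16 (.c 14025207386396218185 .nil))) .nil)) (.node (.I .com (.c 16 (.c 18433 .nil)) (.r 14025207386396218185 .nil)) (.I .ass (.c 16 (.c 18433 (.c 14025206030552608649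 .nil))) .nil))) (.node (.node (.I .ass (.c 18433 (.c 16 (.c 14025206030552608649 .nil))) .nil) (.I .com (.c 16 (.c 18433 .nil)) (.r 14025206030552608649 .nil))) (.node (.I .adp (.c 16 (.c 8385 (.c 13748192191687928402 .nil))) .nil) (.I .tdb (.c 0 (.c 40 (.c 24 (.c 48 .nil)))) (.b 8 (.b 32 (.l 16 .nil)))))))) (.node (.node (.node (.node (.I .ass (.c 16 (.c 1310924873 (.c 562466185 .nil))) .nil) (.I .ass (.c 1310924873 (.c 16 (.c 562466185 .nil))) .nil)) (.node (.I .com (.c 16 (.c 1310924873 .nil)) (.r 562466185 .nil)) (.I .adp (.c 1310924873 (.c 48 (.c 16 .nil))) (.r 8385 .nil)))) (.node (.node (.I .tdp (.c 1310924873 (.c 48 (.c 16 (.c 8385 .nil)))) .nil) (.I .tdb (.c 24 (.c 32 (.c 16 (.c 48 .nil)))) (.r 1310924873 .nil))) (.node (.I .adp (.c 2105673 (.c 48 (.c 8385 .nil))) (.l 16 .nil)) (.I .tdb (.c 513 (.c 40 (.c 16 (.c 48 .nil)))) (.r 8385 .nil))))) (.node (.node (.node (.I .tdb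 (.c 0 (.c 8 (.c 16 (.c 48 .nil)))) (.b 40 (.r 8385 .nil))) (.I .jac (.c 537002121 (.c 24 (.c 40 .nil))) (.b 48 (.l 8 .nil)))) (.node (.I .adp (.c 8 (.c 2775125321 (.c 33587465 .nil))) .nil) (.I .adp (.c 8 (.c 2775125321 (.c 8652803 .nil))) .nil))) (.node (.node (.I .jac (.c 598967998054793 (.c 24 (.c 48 .nil))) (.l 8 .nil)) (.I .jac (.c 8652803 (.c 24 (.c 48 .nil))) (.b 40 (.l 8 .nil)))) (.node (.I .com (.c 65899851849221766535477322708303715145120289842293738082354121 (.c 8 .nil)) .nil) (.I .com (.c 65899851849278097965965088095014964341373399093722929788082185 (.c 8 .nil)) .nil)))))) (.node (.node (.node (.node (.node (.I .jac (.c 598967998054857 (.c 24 (.c 40 .nil))) (.l 8 .nil)) (.I .adp (.c 8193 (.c 16 (.c 61610564378042824394 .nil))) .nil)) (.node (.I .adp (.c 8 (.c 2775125321 (.c 16 .nil))) (.l 8193 .nil)) (.I .jac (.c 12929 (.c 24 (.c 48 .nil))) (.l 8 (.l 8193 .nil))))) (.node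 (.node (.I .jac (.c 16 (.c 18625 (.c 40 .nil))) (.l 8 (.l 8193 .nil))) (.I .jac (.c 16 (.c 24 (.c 48 .nil))) (.b 40 (.l 8 (.l 8193 .nil))))) (.node (.I .adp (.c 8 (.c 2775125321 (.c 8193 .nil))) (.r 16 .nil)) (.I .jac (.c 8193 (.c 18625 (.c 40 .nil))) (.l 8 (.r 16 .nil)))))) (.node (.node (.node (.I .jac (.c 8193 (.c 24 (.c 48 .nil))) (.b 40 (.l 8 (.r 16 .nil)))) (.I .com (.c 42576974092320101918705356412332005321 (.c 8 .nil)) (.r 16 .nil))) (.node (.I .com (.c 42576913200413542961749526065342514121 (.c 8 .nil)) (.r 16 .nil)) (.I .ass (.c 537002057 (.c 2775125321 (.c 16 .nil))) .nil))) (.node (.node (.I .jac (.c 12929 (.c 24 (.c 48 .nil))) (.l 537002057 .nil)) (.I .jac (.c 16 (.c 18625 (.c 40 .nil))) (.l 537002057 .nil))) (.node (.I .jac (.c 16 (.c 24 (.c 48 .nil))) (.b 40 (.l 537002057 .nil))) (.I .com (.c 16 (.c 2775125321 .nil)) (.l 537002057 .nil)))))) (.node (.node (.node (.node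 (.I .tdp (.c 8 (.c 2775125321 (.c 16 (.c 8193 .nil)))) .nil) (.I .jac (.c 18561 (.c 24 (.c 40 .nil))) (.l 8 (.l 8193 .nil)))) (.node (.I .jac (.c 18561 (.c 24 (.c 40 .nil))) (.l 537002057 .nil)) (.I .com (.c 651591722123579838450590277895113 (.c 8 .nil)) (.r 32 .nil)))) (.node (.node (.I .com (.c 651591722123570596944749659643913 (.c 8 .nil)) (.r 32 .nil)) (.I .ass (.c 59109074018392946441 (.c 8 (.c 8385 .nil))) .nil)) (.node (.I .adp (.c 16 (.c 8385 (.c 13748198903624099602 .nil))) .nil) (.I .ass (.c 16 (.c 1512103782441961079041378905002237328201 (.c 8 .nil))) .nil)))) (.node (.node (.node (.I .ass (.c 1512103782441961079041378905002237328201 (.c 16 (.c 8 .nil))) .nil) (.I .com (.c 16 (.c 1512103782441961079041378905002237328201 .nil)) (.r 8 .nil))) (.node (.I .com (.c 8 (.c 16 .nil)) (.l 1512103782441961079041378905002237328201 .nil)) (.I .ass (.c 16 (.c 1512103782441961064963223238430258354057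 (.c 8 .nil))) .nil))) (.node (.node (.I .ass (.c 1512103782441961064963223238430258354057 (.c 16 (.c 8 .nil))) .nil) (.I .com (.c 16 (.c 1512103782441961064963223238430258354057 .nil)) (.r 8 .nil))) (.node (.I .com (.c 8 (.c 16 .nil)) (.l 1512103782441961064963223238430258354057 .nil)) (.I .ass (.c 16 (.c 1310925193 (.c 545424585 .nil))) .nil)))))))

noncomputable def c2_198 : Tr := (.node (.node (.node (.node (.node (.node (.I .ass (.c 1310925193 (.c 16 (.c 545424585 .nil))) .nil) (.I .com (.c 16 (.c 1310925193 .nil)) (.r 545424585 .nil))) (.node (.I .ass (.c 16 (.c 1310925193 (.c 174695689 .nil))) .nil) (.I .ass (.c 1310925193 (.c 16 (.c 174695689 .nil))) .nil))) (.node (.node (.I .com (.c 16 (.c 1310925193 .nil)) (.r 174695689 .nil)) (.I .adp (.c 1310925193 (.c 8 (.c 16 .nil))) (.r 8385 .nil))) (.node (.I .ass (.c 13748198893136698121 (.c 8 (.c 8385 .nil))) .nil) (.I .tdp (.c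 1310925193 (.c 8 (.c 16 (.c 8385 .nil)))) .nil)))) (.node (.node (.node (.I .ass (.c 513 (.c 2756086089 (.c 8385 .nil))) .nil) (.I .adp (.c 18625 (.c 40 (.c 537002121 .nil))) (.l 8 .nil))) (.node (.I .tdp (.c 18625 (.c 40 (.c 8 (.c 537002121 .nil)))) .nil) (.I .tdb (.c 16 (.c 8193 (.c 8 (.c 40 .nil)))) (.r 18625 .nil)))) (.node (.node (.I .tdb (.c 16 (.c 8193 (.c 12993 (.c 48 .nil)))) (.l 8 .nil)) (.I .tdb (.c 24 (.c 40 (.c 16 (.c 48 .nil)))) (.b 8193 (.l 8 .nil)))) (.node (.I .tdb (.c 0 (.c 32 (.c 12993 (.c 48 .nil)))) (.b 16 (.l 8 .nil))) (.I .tdb (.c 24 (.c 40 (.c 32 (.c 48 .nil)))) (.b 0 (.b 16 (.l 8 .nil)))))))) (.node (.node (.node (.node (.I .adp (.c 12993 (.c 48 (.c 537002121 .nil))) (.l 8 .nil)) (.I .com (.c 2306970223667989513 (.c 12993 .nil)) (.l 8 .nil))) (.node (.I .jac (.c 537002121 (.c 24 (.c 40 .nil))) (.r 48 (.l 8 .nil))) (.I .tdp (.c 12993 (.c 48 (.c 8 (.c 537002121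 .nil)))) .nil))) (.node (.node (.I .tdb (.c 16 (.c 8193 (.c 12993 (.c 8 .nil)))) (.l 48 .nil)) (.I .tdb (.c 16 (.c 8193 (.c 8 (.c 48 .nil)))) (.b 12993 .nil))) (.node (.I .tdb (.c 2049 (.c 32 (.c 18625 (.c 40 .nil)))) (.l 8 .nil)) (.I .tdb (.c 0 (.c 16 (.c 40 (.c 18625 .nil)))) (.b 32 (.l 8 .nil)))))) (.node (.node (.node (.I .adp (.c 18625 (.c 40 (.c 33587465 .nil))) (.l 8 .nil)) (.I .tdp (.c 18625 (.c 40 (.c 8 (.c 33587465 .nil)))) .nil)) (.node (.I .tdb (.c 2049 (.c 32 (.c 8 (.c 40 .nil)))) (.r 18625 .nil)) (.I .tdb (.c 0 (.c 16 (.c 40 (.c 8 .nil)))) (.b 32 (.r 18625 .nil))))) (.node (.node (.I .tdb (.c 2049 (.c 32 (.c 8 (.c 40 .nil)))) (.b 18625 .nil)) (.I .tdb (.c 0 (.c 16 (.c 40 (.c 8 .nil)))) (.b 32 (.b 18625 .nil)))) (.node (.I .tdb (.c 2049 (.c 32 (.c 12993 (.c 48 .nil)))) (.l 8 .nil)) (.I .tdb (.c 0 (.c 16 (.c 48 (.c 12993 .nil)))) (.b 32 (.l 8 .nil)))))))) (.node (.node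 (.node (.node (.node (.I .tdb (.c 24 (.c 40 (.c 0 (.c 48 .nil)))) (.b 16 (.b 32 (.l 8 .nil)))) (.I .tdb (.c 24 (.c 40 (.c 16 (.c 48 .nil)))) (.b 0 (.b 32 (.l 8 .nil))))) (.node (.I .tdb (.c 24 (.c 40 (.c 32 (.c 48 .nil)))) (.b 2049 (.l 8 .nil))) (.I .adp (.c 12993 (.c 48 (.c 33587465 .nil))) (.l 8 .nil)))) (.node (.node (.I .tdp (.c 12993 (.c 48 (.c 8 (.c 33587465 .nil)))) .nil) (.I .tdb (.c 2049 (.c 32 (.c 8 (.c 48 .nil)))) (.r 12993 .nil))) (.node (.I .tdb (.c 0 (.c 16 (.c 48 (.c 8 .nil)))) (.b 32 (.r 12993 .nil))) (.I .tdb (.c 2049 (.c 32 (.c 8 (.c 48 .nil)))) (.b 12993 .nil))))) (.node (.node (.node (.I .tdb (.c 0 (.c 16 (.c 48 (.c 8 .nil)))) (.b 32 (.b 12993 .nil))) (.I .tdb (.c 2049 (.c 32 (.c 12993 (.c 8 .nil)))) (.b 48 .nil))) (.node (.I .tdb (.c 0 (.c 16 (.c 12993 (.c 8 .nil)))) (.b 32 (.b 48 .nil))) (.I .tdb (.c 24 (.c 40 (.c 0 (.c 8 .nil)))) (.b 16 (.b 32 (.b 48 .nil))))))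 (.node (.node (.I .adp (.c 0 (.c 32 (.c 2737112393 .nil))) (.b 4737 .nil)) (.I .adp (.c 0 (.c 32 (.c 43954755 .nil))) (.b 4737 .nil))) (.node (.I .adp (.c 0 (.c 8321 (.c 61610564378042824394 .nil))) .nil) (.I .jac (.c 20685315 (.c 24 (.c 48 .nil))) (.r 8321 .nil)))))) (.node (.node (.node (.node (.I .tdb (.c 40 (.c 18625 (.c 0 (.c 8 .nil)))) (.r 8321 .nil)) (.I .adp (.c 8 (.c 2775125321 (.c 0 .nil))) (.r 8321 .nil))) (.node (.I .jac (.c 12801 (.c 24 (.c 48 .nil))) (.l 8 (.r 8321 .nil))) (.I .jac (.c 0 (.c 18625 (.c 40 .nil))) (.l 8 (.r 8321 .nil))))) (.node (.node (.I .jac (.c 0 (.c 24 (.c 48 .nil))) (.b 40 (.l 8 (.r 8321 .nil)))) (.I .com (.c 13748198893136698185 (.c 8 .nil)) (.r 8321 .nil))) (.node (.I .com (.c 59109068451510808521 (.c 8 .nil)) (.r 8321 .nil)) (.I .com (.c 231046163358604233 (.c 8 .nil)) (.r 8321 .nil))))) (.node (.node (.node (.I .com (.c 13748194865974800393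 (.c 8 .nil)) (.r 8321 .nil)) (.I .ass (.c 13748198893136698185 (.c 8 (.c 8321 .nil))) .nil)) (.node (.I .ass (.c 59109068451510808521 (.c 8 (.c 8321 .nil))) .nil) (.I .ass (.c 13748194865974800393 (.c 8 (.c 8321 .nil))) .nil))) (.node (.node (.I .ass (.c 513 (.c 2775125321 (.c 8321 .nil))) .nil) (.I .ass (.c 59109074018392946505 (.c 8 (.c 8321 .nil))) .nil)) (.node (.I .adp (.c 0 (.c 8385 (.c 60768084239834527434 .nil))) .nil) (.I .tdb (.c 40 (.c 18561 (.c 0 (.c 8 .nil)))) (.r 8385 .nil))))))))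

noncomputable def c2_199 : Tr := (.node (.node (.node (.node (.node (.node (.I .adp (.c 8 (.c 2756086089 (.c 0 .nil))) (.r 8385 .nil)) (.I .jac (.c 12801 (.c 16 (.c 48 .nil))) (.l 8 (.r 8385 .nil)))) (.node (.I .jac (.c 0 (.c 18561 (.c 40 .nil))) (.l 8 (.r 8385 .nil))) (.I .jac (.c 0 (.c 16 (.c 48 .nil))) (.b 40 (.l 8 (.r 8385 .nil)))))) (.node (.node (.I .com (.c 13748198893136698121 (.c 8 .nil)) (.r 8385 .nil)) (.I .com (.c 59109065668069837769 (.c 8 .nil)) (.r 8385 .nil))) (.node (.I .com (.c 9025011228269513 (.c 8 .nil)) (.r 8385 .nil)) (.I .com (.c 13748193523587632137 (.c 8 .nil)) (.r 8385 .nil))))) (.node (.node (.node (.I .ass (.c 59109065668069837769 (.c 8 (.c 8385 .nil))) .nil) (.I .adp (.c 16 (.c 24 (.c 32 .nil))) (.b 13748198893136698057 .nil))) (.node (.I .jac (.c 18433 (.c 8 (.c 40 .nil))) (.b 179589409 .nil)) (.I .adp (.c 16 (.c 24 (.c 32 .nil))) (.b 35470870263817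 .nil)))) (.node (.node (.I .adp (.c 18497 (.c 40 (.c 32 .nil))) (.b 33587401 .nil)) (.I .adp (.c 16 (.c 24 (.c 32 .nil))) (.b 3423058053194185 .nil))) (.node (.I .jac (.c 231045467270827017 (.c 32 (.c 40 .nil))) (.l 8 .nil)) (.I .jac (.c 9024908047478729 (.c 32 (.c 48 .nil))) (.l 8 .nil)))))) (.node (.node (.node (.node (.I .jac (.c 9024908047478793 (.c 32 (.c 40 .nil))) (.l 8 .nil)) (.I .jac (.c 169943369 (.c 32 (.c 48 .nil))) (.l 8 (.r 16 .nil)))) (.node (.I .com (.c 427057993508084562470663629860471689 (.c 8 .nil)) (.r 16 .nil)) (.I .com (.c 427057350195049030035896088956978121 (.c 8 .nil)) (.r 16 .nil)))) (.node (.node (.I .com (.c 427057993508084089288477468582296585 (.c 8 .nil)) (.r 16 .nil)) (.I .jac (.c 18561 (.c 32 (.c 40 .nil))) (.l 8 (.l 4609 .nil)))) (.node (.I .com (.c 427057350195048793444981206822395913 (.c 8 .nil)) (.r 16 .nil)) (.I .jac (.c 33587529 (.c 32 (.c 48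 .nil))) (.l 8 (.r 24 .nil)))))) (.node (.node (.node (.I .com (.c 651601654921560200620872561558409 (.c 8 .nil)) (.r 24 .nil)) (.I .com (.c 651596688508375012468186189874121 (.c 8 .nil)) (.r 24 .nil))) (.node (.I .com (.c 651601654921541717468315286322185 (.c 8 .nil)) (.r 24 .nil)) (.I .com (.c 651596688508365770927126595477513 (.c 8 .nil)) (.r 24 .nil)))) (.node (.node (.I .jac (.c 18625 (.c 32 (.c 40 .nil))) (.l 33587273 .nil)) (.I .tdb (.c 32 (.c 48 (.c 16 (.c 40 .nil)))) (.b 4609 (.l 8 .nil)))) (.node (.I .tdb (.c 16 (.c 4609 (.c 18689 (.c 40 .nil)))) (.l 8 .nil)) (.I .tdb (.c 0 (.c 24 (.c 40 (.c 18689 .nil)))) (.b 16 (.l 8 .nil)))))))) (.node (.node (.node (.node (.node (.I .jac (.c 169943177 (.c 32 (.c 48 .nil))) (.r 40 (.l 8 .nil))) (.I .tdb (.c 16 (.c 4609 (.c 18689 (.c 8 .nil)))) (.l 40 .nil))) (.node (.I .tdb (.c 0 (.c 24 (.c 18689 (.c 8 .nil)))) (.b 16 (.l 40 .nil))) (.I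 .tdb (.c 16 (.c 4609 (.c 32 (.c 48 .nil)))) (.b 40 (.l 8 .nil))))) (.node (.node (.I .tdb (.c 0 (.c 24 (.c 32 (.c 48 .nil)))) (.b 16 (.b 40 (.l 8 .nil)))) (.I .tdb (.c 16 (.c 4609 (.c 40 (.c 48 .nil)))) (.b 32 (.l 8 .nil)))) (.node (.I .tdb (.c 0 (.c 24 (.c 40 (.c 48 .nil)))) (.b 16 (.b 32 (.l 8 .nil)))) (.I .tdb (.c 32 (.c 40 (.c 48 (.c 169943177 .nil)))) (.l 8 .nil))))) (.node (.node (.node (.I .jac (.c 169943177 (.c 32 (.c 40 .nil))) (.r 48 (.l 8 .nil))) (.I .com (.c 27664030750837927638519238748129735147736848098282229791858206880713 (.c 8 .nil)) .nil)) (.node (.I .com (.c 58240646186242460541317411863750251907117709342642279798191049 (.c 48 .nil)) .nil) (.I .tdb (.c 0 (.c 24 (.c 48 (.c 8 .nil)))) (.b 16 (.b 13057 .nil))))) (.node (.node (.I .tdb (.c 32 (.c 40 (.c 169943177 (.c 8 .nil)))) (.b 48 .nil)) (.I .tdb (.c 32 (.c 40 (.c 48 (.c 169943177 .nil)))) (.b 8 .nil))) (.node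 (.I .tdb (.c 32 (.c 48 (.c 24 (.c 40 .nil)))) (.b 2049 (.l 8 .nil))) (.I .tdb (.c 24 (.c 2049 (.c 18689 (.c 40 .nil)))) (.l 8 .nil)))))) (.node (.node (.node (.node (.I .tdb (.c 0 (.c 16 (.c 40 (.c 18689 .nil)))) (.b 24 (.l 8 .nil))) (.I .jac (.c 33587401 (.c 32 (.c 48 .nil))) (.r 40 (.l 8 .nil)))) (.node (.I .tdb (.c 24 (.c 2049 (.c 18689 (.c 8 .nil)))) (.l 40 .nil)) (.I .tdb (.c 0 (.c 16 (.c 18689 (.c 8 .nil)))) (.b 24 (.l 40 .nil))))) (.node (.node (.I .tdb (.c 24 (.c 2049 (.c 32 (.c 48 .nil)))) (.b 40 (.l 8 .nil))) (.I .tdb (.c 0 (.c 16 (.c 32 (.c 48 .nil)))) (.b 24 (.b 40 (.l 8 .nil))))) (.node (.I .tdb (.c 24 (.c 2049 (.c 40 (.c 48 .nil)))) (.b 32 (.l 8 .nil))) (.I .tdb (.c 0 (.c 16 (.c 40 (.c 48 .nil)))) (.b 24 (.b 32 (.l 8 .nil))))))) (.node (.node (.node (.I .tdb (.c 32 (.c 40 (.c 48 (.c 33587401 .nil)))) (.l 8 .nil)) (.I .jac (.c 33587401 (.c 32 (.c 40 .nil))) (.r 48 (.l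 8 .nil)))) (.node (.I .com (.c 58240646186216787513332372168148850238351563989104378421909449 (.c 48 .nil)) .nil) (.I .tdb (.c 0 (.c 16 (.c 48 (.c 8 .nil)))) (.b 24 (.b 13057 .nil))))) (.node (.node (.I .tdb (.c 32 (.c 40 (.c 33587401 (.c 8 .nil)))) (.b 48 .nil)) (.I .tdb (.c 32 (.c 40 (.c 48 (.c 33587401 .nil)))) (.b 8 .nil))) (.node (.I .ass (.c 13748198893136698249 (.c 8 (.c 4737 .nil))) .nil) (.I .ass (.c 13748196208362034185 (.c 8 (.c 4737 .nil))) .nil)))))))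

noncomputable def c2_200 : Tr := (.node (.node (.node (.node (.node (.node (.I .adp (.c 18497 (.c 40 (.c 2049 .nil))) (.b 8385 .nil)) (.I .adp (.c 18433 (.c 40 (.c 16 .nil))) (.b 174695689 .nil))) (.node (.I .tdb (.c 0 (.c 48 (.c 8 (.c 40 .nil)))) (.b 553979090 .nil)) (.I .tdb (.c 0 (.c 48 (.c 8 (.c 40 .nil)))) (.b 179551506 .nil)))) (.node (.node (.I .tdb (.c 0 (.c 40 (.c 16 (.c 48 .nil)))) (.b 174733074 .nil)) (.I .tdb (.c 0 (.c 40 (.c 8 (.c 48 .nil)))) (.b 179551506 .nil))) (.node (.I .adp (.c 0 (.c 2756086089 (.c 174695689 .nil))) .nil) (.I .jac (.c 0 (.c 4673 (.c 32 .nil))) (.r 2756086089 .nil))))) (.node (.node (.node (.I .jac (.c 0 (.c 8 (.c 24 .nil))) (.b 32 (.r 2756086089 .nil))) (.I .adp (.c 0 (.c 2737112393 (.c 553912521 .nil))) .nil)) (.node (.I .jac (.c 0 (.c 8321 (.c 24 .nil))) (.r 2737112393 .nil)) (.I .jac (.c 0 (.c 16 (.c 32 .nil))) (.b 24 (.r 2737112393 .nil)))))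 (.node (.node (.I .adp (.c 0 (.c 1324066185 (.c 553912521 .nil))) .nil) (.I .jac (.c 1324066185 (.c 8321 (.c 24 .nil))) (.l 0 .nil))) (.node (.I .jac (.c 1324066185 (.c 16 (.c 32 .nil))) (.b 24 (.l 0 .nil))) (.I .jac (.c 0 (.c 8321 (.c 24 .nil))) (.r 1324066185 .nil)))))) (.node (.node (.node (.node (.I .jac (.c 0 (.c 16 (.c 32 .nil))) (.b 24 (.r 1324066185 .nil))) (.I .adp (.c 0 (.c 2737112393 (.c 179513609 .nil))) .nil)) (.node (.I .jac (.c 2737112393 (.c 16 (.c 24 .nil))) (.b 32 (.l 0 .nil))) (.I .jac (.c 0 (.c 4737 (.c 32 .nil))) (.r 2737112393 .nil)))) (.node (.node (.I .jac (.c 0 (.c 16 (.c 24 .nil))) (.b 32 (.r 2737112393 .nil))) (.I .adp (.c 0 (.c 1324066185 (.c 179513609 .nil))) .nil)) (.node (.I .jac (.c 1324066185 (.c 4737 (.c 32 .nil))) (.l 0 .nil)) (.I .jac (.c 1324066185 (.c 16 (.c 24 .nil))) (.b 32 (.l 0 .nil)))))) (.node (.node (.node (.I .jac (.c 0 (.c 4737 (.c 32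 .nil))) (.r 1324066185 .nil)) (.I .jac (.c 0 (.c 16 (.c 24 .nil))) (.b 32 (.r 1324066185 .nil)))) (.node (.I .jac (.c 617620517416393 (.c 16 (.c 40 .nil))) (.l 0 .nil)) (.I .jac (.c 21099011 (.c 16 (.c 48 .nil))) (.l 8257 .nil)))) (.node (.node (.I .tdb (.c 40 (.c 18561 (.c 0 (.c 24 .nil)))) (.l 8257 .nil)) (.I .jac (.c 43356675 (.c 16 (.c 40 .nil))) (.l 8257 .nil))) (.node (.I .com (.c 0 (.c 105537558368837595991089173310857 .nil)) .nil) (.I .jac (.c 21099011 (.c 8 (.c 48 .nil))) (.l 8321 .nil))))))) (.node (.node (.node (.node (.node (.I .com (.c 59934274015313491785 (.c 8321 .nil)) (.l 0 .nil)) (.I .jac (.c 43356675 (.c 8 (.c 40 .nil))) (.l 8321 .nil))) (.node (.I .ass (.c 8321 (.c 4609 (.c 1324066185 .nil))) .nil) (.I .ass (.c 4609 (.c 8321 (.c 1324066185 .nil))) .nil))) (.node (.node (.I .com (.c 8321 (.c 4609 .nil)) (.r 1324066185 .nil)) (.I .jac (.c 21307395 (.c 8 (.c 48 .nil)))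 (.l 4737 .nil))) (.node (.I .ass (.c 4737 (.c 0 (.c 59934274015313491849 .nil))) .nil) (.I .ass (.c 0 (.c 4737 (.c 59934274015313491849 .nil))) .nil)))) (.node (.node (.node (.I .com (.c 4737 (.c 0 .nil)) (.r 59934274015313491849 .nil)) (.I .com (.c 0 (.c 105536290393575291919320899677641 .nil)) .nil)) (.node (.I .ass (.c 4737 (.c 0 (.c 14025210098083634057 .nil))) .nil) (.I .ass (.c 0 (.c 4737 (.c 14025210098083634057 .nil))) .nil))) (.node (.node (.I .com (.c 4737 (.c 0 .nil)) (.r 14025210098083634057 .nil)) (.I .jac (.c 15038410136445129 (.c 8 (.c 32 .nil))) (.l 40 .nil))) (.node (.I .jac (.c 21099011 (.c 8 (.c 32 .nil))) (.b 18561 .nil)) (.I .tdb (.c 24 (.c 8257 (.c 0 (.c 40 .nil)))) (.b 18561 .nil)))))) (.node (.node (.node (.node (.I .jac (.c 3561346121425097 (.c 8 (.c 32 .nil))) (.l 48 .nil)) (.I .jac (.c 21307395 (.c 8 (.c 24 .nil))) (.b 18561 .nil))) (.node (.I .tdb (.c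 8 (.c 48 (.c 24 (.c 40 .nil)))) (.b 8321 (.l 0 .nil))) (.I .jac (.c 21099011 (.c 16 (.c 32 .nil))) (.b 18497 .nil)))) (.node (.node (.I .tdb (.c 24 (.c 8321 (.c 0 (.c 40 .nil)))) (.b 18497 .nil)) (.I .jac (.c 3561346121425033 (.c 16 (.c 32 .nil))) (.l 48 .nil))) (.node (.I .tdb (.c 24 (.c 8321 (.c 0 (.c 48 .nil)))) (.b 12865 .nil)) (.I .jac (.c 15246191640313993 (.c 16 (.c 24 .nil))) (.l 40 .nil))))) (.node (.node (.node (.I .tdb (.c 8 (.c 48 (.c 0 (.c 32 .nil)))) (.b 4737 (.l 40 .nil))) (.I .adp (.c 16 (.c 32 (.c 2718204233 .nil))) (.b 4673 .nil))) (.node (.I .adp (.c 16 (.c 32 (.c 1310925193 .nil))) (.b 4673 .nil)) (.I .adp (.c 16 (.c 32 (.c 43954691 .nil))) (.b 4673 .nil)))) (.node (.node (.I .tdb (.c 0 (.c 48 (.c 24 (.c 40 .nil)))) (.b 545490578 .nil)) (.I .tdb (.c 0 (.c 48 (.c 24 (.c 40 .nil)))) (.b 35735314 .nil))) (.node (.I .tdb (.c 0 (.c 40 (.c 24 (.c 48 .nil)))) (.b 545490578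 .nil)) (.I .tdb (.c 0 (.c 40 (.c 8 (.c 48 .nil)))) (.b 562465930 .nil))))))))

noncomputable def c2_201 : Tr := (.node (.node (.node (.node (.node (.node (.I .jac (.c 2379903264864635849 (.c 24 (.c 48 .nil))) (.l 0 .nil)) (.I .adp (.c 0 (.c 2775125321 (.c 35718409 .nil))) .nil)) (.node (.I .jac (.c 0 (.c 2113 (.c 32 .nil))) (.r 2775125321 .nil)) (.I .jac (.c 0 (.c 8 (.c 16 .nil))) (.b 32 (.r 2775125321 .nil))))) (.node (.node (.I .jac (.c 598976858557897 (.c 24 (.c 40 .nil))) (.l 0 .nil)) (.I .jac (.c 21307395 (.c 24 (.c 48 .nil))) (.l 2113 .nil))) (.node (.I .jac (.c 43655171 (.c 24 (.c 40 .nil))) (.l 2113 .nil)) (.I .adp (.c 0 (.c 2737112393 (.c 8385 .nil))) (.l 16 .nil))))) (.node (.node (.node (.I .jac (.c 2737112393 (.c 24 (.c 32 .nil))) (.l 0 (.l 16 .nil))) (.I .jac (.c 0 (.c 24 (.c 32 .nil))) (.r 2737112393 (.l 16 .nil)))) (.node (.I .ass (.c 16 (.c 169943305 (.c 2737112393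 .nil))) .nil) (.I .ass (.c 169943305 (.c 16 (.c 2737112393 .nil))) .nil))) (.node (.node (.I .com (.c 16 (.c 169943305 .nil)) (.r 2737112393 .nil)) (.I .com (.c 2737112393 (.c 16 .nil)) (.l 169943305 .nil))) (.node (.I .ass (.c 16 (.c 0 (.c 28736937613941456263871746276875115510601 .nil))) .nil) (.I .ass (.c 0 (.c 16 (.c 28736937613941456263871746276875115510601 .nil))) .nil))))) (.node (.node (.node (.node (.I .com (.c 16 (.c 0 .nil)) (.r 28736937613941456263871746276875115510601 .nil)) (.I .ass (.c 16 (.c 0 (.c 28736937613941456202499049685194099890057 .nil))) .nil)) (.node (.I .ass (.c 0 (.c 16 (.c 28736937613941456202499049685194099890057 .nil))) .nil) (.I .com (.c 16 (.c 0 .nil)) (.r 28736937613941456202499049685194099890057 .nil)))) (.node (.node (.I .ass (.c 16 (.c 0 (.c 1573652146363097106002610538182280992649 .nil))) .nil) (.I .ass (.c 0 (.c 16 (.c 1573652146363097106002610538182280992649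 .nil))) .nil)) (.node (.I .com (.c 16 (.c 0 .nil)) (.r 1573652146363097106002610538182280992649 .nil)) (.I .jac (.c 14832759703961865 (.c 8 (.c 32 .nil))) (.l 40 .nil))))) (.node (.node (.node (.I .jac (.c 20891651 (.c 8 (.c 32 .nil))) (.b 18625 .nil)) (.I .jac (.c 43059203 (.c 8 (.c 32 .nil))) (.b 12993 .nil))) (.node (.I .tdb (.c 16 (.c 8257 (.c 0 (.c 48 .nil)))) (.b 12993 .nil)) (.I .tdb (.c 2113 (.c 32 (.c 0 (.c 40 .nil)))) (.b 18625 .nil)))) (.node (.node (.I .tdb (.c 8 (.c 16 (.c 40 (.c 0 .nil)))) (.b 32 (.b 18625 .nil))) (.I .tdb (.c 0 (.c 48 (.c 32 (.c 40 .nil)))) (.l 8 (.b 4737 .nil)))) (.node (.I .tdb (.c 0 (.c 40 (.c 24 (.c 48 .nil)))) (.b 553912394 .nil)) (.I .tdb (.c 0 (.c 40 (.c 16 (.c 48 .nil)))) (.b 562465866 .nil))))))) (.node (.node (.node (.node (.node (.I .tdb (.c 16 (.c 32 (.c 2775125321 (.c 0 .nil)))) (.l 8 .nil)) (.I .jac (.c 553912649 (.c 24 (.c 48 .nil)))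 (.l 0 (.l 8 .nil)))) (.node (.I .jac (.c 8321 (.c 18625 (.c 40 .nil))) (.l 0 (.l 8 .nil))) (.I .jac (.c 8321 (.c 24 (.c 48 .nil))) (.b 40 (.l 0 (.l 8 .nil)))))) (.node (.node (.I .ass (.c 8 (.c 0 (.c 48198674141108879736685684809583264585 .nil))) .nil) (.I .ass (.c 0 (.c 8 (.c 48198674141108879736685684809583264585 .nil))) .nil)) (.node (.I .com (.c 8 (.c 0 .nil)) (.r 48198674141108879736685684809583264585 .nil)) (.I .ass (.c 8 (.c 0 (.c 48198696416936551666966288127810328521 .nil))) .nil)))) (.node (.node (.node (.I .ass (.c 0 (.c 8 (.c 48198696416936551666966288127810328521 .nil))) .nil) (.I .com (.c 8 (.c 0 .nil)) (.r 48198696416936551666966288127810328521 .nil))) (.node (.I .ass (.c 8 (.c 0 (.c 48198629589476684869234811482999292873 .nil))) .nil) (.I .ass (.c 0 (.c 8 (.c 48198629589476684869234811482999292873 .nil))) .nil))) (.node (.node (.I .com (.c 8 (.c 0 .nil)) (.r 48198629589476684869234811482999292873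 .nil)) (.I .ass (.c 8 (.c 0 (.c 48198674141108872196296467188863965193 .nil))) .nil)) (.node (.I .ass (.c 0 (.c 8 (.c 48198674141108872196296467188863965193 .nil))) .nil) (.I .com (.c 8 (.c 0 .nil)) (.r 48198674141108872196296467188863965193 .nil)))))) (.node (.node (.node (.node (.I .tdb (.c 24 (.c 32 (.c 2756086089 (.c 0 .nil)))) (.l 8 .nil)) (.I .jac (.c 2756086089 (.c 24 (.c 32 .nil))) (.l 0 (.l 8 .nil)))) (.node (.I .ass (.c 8 (.c 0 (.c 29542080497437003993225933128855105125193 .nil))) .nil) (.I .ass (.c 0 (.c 8 (.c 29542080497437003993225933128855105125193 .nil))) .nil))) (.node (.node (.I .com (.c 8 (.c 0 .nil)) (.r 29542080497437003993225933128855105125193 .nil)) (.I .ass (.c 8 (.c 0 (.c 29542080497437003930999414867264548870025 .nil))) .nil)) (.node (.I .ass (.c 0 (.c 8 (.c 29542080497437003930999414867264548870025 .nil))) .nil) (.I .com (.c 8 (.c 0 .nil)) (.r 29542080497437003930999414867264548870025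 .nil))))) (.node (.node (.node (.I .ass (.c 8 (.c 0 (.c 1637381550969633083894113988636891928457 .nil))) .nil) (.I .ass (.c 0 (.c 8 (.c 1637381550969633083894113988636891928457 .nil))) .nil)) (.node (.I .com (.c 8 (.c 0 .nil)) (.r 1637381550969633083894113988636891928457 .nil)) (.I .adp (.c 16 (.c 24 (.c 2718204233 .nil))) (.b 8257 .nil)))) (.node (.node (.I .adp (.c 16 (.c 24 (.c 1310925193 .nil))) (.b 8257 .nil)) (.I .adp (.c 18433 (.c 40 (.c 32 .nil))) (.b 174695561 .nil))) (.node (.I .tdb (.c 0 (.c 48 (.c 24 (.c 40 .nil)))) (.l 16 (.b 8257 .nil))) (.I .jac (.c 244148312264838089 (.c 32 (.c 48 .nil))) (.l 0 .nil))))))))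

noncomputable def c2_202 : Tr := (.node (.node (.node (.node (.node (.node (.I .com (.c 0 (.c 76106657758675966226259696860779794613507013334087429015795514185 .nil)) .nil) (.I .jac (.c 21099011 (.c 32 (.c 48 .nil))) (.l 2113 .nil))) (.node (.I .com (.c 0 (.c 82363963255021357227253874298218277527687922615468368572512058121 .nil)) .nil) (.I .jac (.c 14832759703961929 (.c 8 (.c 24 .nil))) (.l 40 .nil)))) (.node (.node (.I .jac (.c 43059203 (.c 8 (.c 24 .nil))) (.b 13057 .nil)) (.I .jac (.c 15038410136445257 (.c 8 (.c 16 .nil))) (.l 40 .nil))) (.node (.I .jac (.c 21099011 (.c 8 (.c 16 .nil))) (.b 18689 .nil)) (.I .jac (.c 8786435 (.c 8 (.c 16 .nil))) (.b 40 (.l 48 .nil)))))) (.node (.node (.node (.I .jac (.c 43356675 (.c 8 (.c 16 .nil))) (.b 13057 .nil)) (.I .adp (.c 8 (.c 24 (.c 43954691 .nil))) (.b 8321 .nil))) (.node (.I .adp (.c 18433 (.c 40 (.c 4673 .nil))) (.b 8321 .nil)) (.I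 .ass (.c 8 (.c 0 (.c 531692718192353876642803043008871369 .nil))) .nil))) (.node (.node (.I .ass (.c 0 (.c 8 (.c 531692718192353876642803043008871369 .nil))) .nil) (.I .com (.c 8 (.c 0 .nil)) (.r 531692718192353876642803043008871369 .nil))) (.node (.I .jac (.c 179513737 (.c 32 (.c 40 .nil))) (.l 0 (.l 8 .nil))) (.I .ass (.c 8 (.c 0 (.c 531692718192354140631492116817911689 .nil))) .nil))))) (.node (.node (.node (.node (.I .ass (.c 0 (.c 8 (.c 531692718192354140631492116817911689 .nil))) .nil) (.I .com (.c 8 (.c 0 .nil)) (.r 531692718192354140631492116817911689 .nil))) (.node (.I .adp (.c 8 (.c 16 (.c 2718204233 .nil))) (.b 8385 .nil)) (.I .adp (.c 8 (.c 16 (.c 1310925193 .nil))) (.b 8385 .nil)))) (.node (.node (.I .adp (.c 33587465 (.c 24 (.c 2737112393 .nil))) .nil) (.I .jac (.c 4609 (.c 16 (.c 32 .nil))) (.b 1324066185 .nil))) (.node (.I .adp (.c 8321 (.c 24 (.c 0 .nil))) (.b 1324066185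 .nil)) (.I .com (.c 4609 (.c 8321 .nil)) (.b 1324066185 .nil))))) (.node (.node (.node (.I .jac (.c 0 (.c 16 (.c 32 .nil))) (.r 24 (.b 1324066185 .nil))) (.I .adp (.c 4609 (.c 8321 (.c 1324066185 .nil))) .nil)) (.node (.I .com (.c 59109074018392946505 (.c 545424521 .nil)) .nil) (.I .adp (.c 4673 (.c 8321 (.c 2718204233 .nil))) .nil))) (.node (.node (.I .adp (.c 545424521 (.c 24 (.c 1310925193 .nil))) .nil) (.I .adp (.c 4673 (.c 8321 (.c 1310925193 .nil))) .nil)) (.node (.I .jac (.c 1310925193 (.c 16 (.c 32 .nil))) (.l 4673 .nil)) (.I .adp (.c 8193 (.c 4737 (.c 2737112393 .nil))) .nil)))))) (.node (.node (.node (.node (.node (.I .adp (.c 169943177 (.c 32 (.c 2737112393 .nil))) .nil) (.I .adp (.c 33587401 (.c 32 (.c 2737112393 .nil))) .nil)) (.node (.I .adp (.c 169943177 (.c 32 (.c 1324066185 .nil))) .nil) (.I .adp (.c 33587401 (.c 32 (.c 1324066185 .nil))) .nil))) (.node (.node (.I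 .jac (.c 2718204233 (.c 16 (.c 24 .nil))) (.l 8257 .nil)) (.I .com (.c 59109074018392946569 (.c 35718345 .nil)) .nil)) (.node (.I .adp (.c 8257 (.c 4737 (.c 1310925193 .nil))) .nil) (.I .jac (.c 1310925193 (.c 16 (.c 24 .nil))) (.l 8257 .nil))))) (.node (.node (.node (.I .com (.c 13748198893136698249 (.c 174695561 .nil)) .nil) (.I .com (.c 13748198893136698249 (.c 35718345 .nil)) .nil)) (.node (.I .com (.c 169943305 (.c 16 .nil)) (.b 1324066185 .nil)) (.I .com (.c 537002185 (.c 16 .nil)) (.b 1324066185 .nil)))) (.node (.node (.I .adp (.c 537002185 (.c 16 (.c 1324066185 .nil))) .nil) (.I .adp (.c 169943305 (.c 16 (.c 1324066185 .nil))) .nil)) (.node (.I .com (.c 174695689 (.c 16 .nil)) (.b 2718204233 .nil)) (.I .com (.c 545424585 (.c 16 .nil)) (.b 2718204233 .nil)))))) (.node (.node (.node (.node (.I .com (.c 59109074018392946441 (.c 545424585 .nil)) .nil) (.I .com (.c 59109074018392946441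 (.c 174695689 .nil)) .nil)) (.node (.I .adp (.c 2113 (.c 8385 (.c 2718204233 .nil))) .nil) (.I .jac (.c 2718204233 (.c 24 (.c 32 .nil))) (.l 2113 .nil)))) (.node (.node (.I .jac (.c 1310925193 (.c 24 (.c 32 .nil))) (.l 2113 .nil)) (.I .com (.c 8786435 (.c 16 .nil)) (.b 2737112393 .nil))) (.node (.I .ass (.c 16 (.c 4609 (.c 32 .nil))) (.b 2737112393 .nil)) (.I .ass (.c 4609 (.c 16 (.c 32 .nil))) (.b 2737112393 .nil))))) (.node (.node (.node (.I .com (.c 16 (.c 4609 .nil)) (.r 32 (.b 2737112393 .nil))) (.I .adp (.c 8652803 (.c 24 (.c 2737112393 .nil))) .nil)) (.node (.I .adp (.c 2049 (.c 8386 (.c 2737112393 .nil))) .nil) (.I .adp (.c 24 (.c 32 (.c 2737112393 .nil))) (.l 2049 .nil)))) (.node (.node (.I .com (.c 8786499 (.c 16 .nil)) (.b 2718204233 .nil)) (.I .ass (.c 8257 (.c 16 (.c 24 .nil))) (.b 2718204233 .nil))) (.node (.I .ass (.c 16 (.c 4673 (.c 32 .nil))) (.b 2718204233 .nil))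 (.I .ass (.c 4673 (.c 16 (.c 32 .nil))) (.b 2718204233 .nil))))))))

noncomputable def c2_203 : Tr := (.node (.node (.node (.node (.node (.node (.I .com (.c 16 (.c 4673 .nil)) (.r 32 (.b 2718204233 .nil))) (.I .com (.c 59109074018392946441 (.c 8786499 .nil)) .nil)) (.node (.I .com (.c 59109074018392946505 (.c 8652867 .nil)) .nil) (.I .adp (.c 8257 (.c 4738 (.c 2718204233 .nil))) .nil))) (.node (.node (.I .adp (.c 16 (.c 24 (.c 2718204233 .nil))) (.l 8257 .nil)) (.I .adp (.c 4673 (.c 8322 (.c 2718204233 .nil))) .nil)) (.node (.I .com (.c 59109074018392946569 (.c 16 .nil)) (.l 4673 .nil)) (.I .adp (.c 16 (.c 32 (.c 2718204233 .nil))) (.l 4673 .nil))))) (.node (.node (.node (.I .tdp (.c 24 (.c 32 (.c 8 (.c 16 .nil)))) (.b 1310925193 .nil)) (.I .com (.c 2803779 (.c 32 .nil)) (.b 1310925193 .nil))) (.node (.I .com (.c 13748198893136698185 (.c 16 .nil)) (.l 8257 .nil)) (.I .adp (.c 2803779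 (.c 32 (.c 1310925193 .nil))) .nil))) (.node (.node (.I .com (.c 13748198893136698249 (.c 2803779 .nil)) .nil) (.I .adp (.c 4673 (.c 8322 (.c 1310925193 .nil))) .nil)) (.node (.I .com (.c 13748198893136698249 (.c 16 .nil)) (.l 4673 .nil)) (.I .adp (.c 16 (.c 32 (.c 1310925193 .nil))) (.l 4673 .nil)))))) (.node (.node (.node (.node (.I .adp (.c 40 (.c 48 (.c 8 .nil))) (.b 231045815314584329 .nil)) (.I .com (.c 18497 (.c 40 .nil)) (.b 231045815314584329 .nil))) (.node (.I .adp (.c 18497 (.c 40 (.c 231045815314584329 .nil))) .nil) (.I .adp (.c 12865 (.c 48 (.c 231045815314584329 .nil))) .nil))) (.node (.node (.I .adp (.c 40 (.c 48 (.c 8 .nil))) (.b 2306970223667989321 .nil)) (.I .com (.c 18497 (.c 40 .nil)) (.b 2306970223667989321 .nil))) (.node (.I .adp (.c 18497 (.c 40 (.c 2306970223667989321 .nil))) .nil) (.I .adp (.c 18497 (.c 40 (.c 9024942441009993 .nil))) .nil)))) (.node (.node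 (.node (.I .adp (.c 40 (.c 48 (.c 8 .nil))) (.b 231045467270826889 .nil)) (.I .com (.c 18497 (.c 40 .nil)) (.b 231045467270826889 .nil))) (.node (.I .adp (.c 18497 (.c 40 (.c 231045467270826889 .nil))) .nil) (.I .adp (.c 12865 (.c 48 (.c 231045467270826889 .nil))) .nil))) (.node (.node (.I .adp (.c 18433 (.c 40 (.c 244148670041477897 .nil))) .nil) (.I .jac (.c 18433 (.c 174695689 (.c 16 .nil))) (.r 40 .nil))) (.node (.I .jac (.c 18433 (.c 4673 (.c 32 .nil))) (.b 16 (.r 40 .nil))) (.I .jac (.c 18433 (.c 8 (.c 24 .nil))) (.b 32 (.b 16 (.r 40 .nil))))))))) (.node (.node (.node (.node (.node (.I .adp (.c 12801 (.c 48 (.c 2379903264864635721 .nil))) .nil) (.I .jac (.c 12801 (.c 545424521 (.c 24 .nil))) (.r 48 .nil))) (.node (.I .jac (.c 12801 (.c 8257 (.c 16 .nil))) (.b 24 (.r 48 .nil))) (.I .jac (.c 12801 (.c 8 (.c 32 .nil))) (.b 16 (.b 24 (.r 48 .nil)))))) (.node (.node (.I .adp (.c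 18433 (.c 40 (.c 10206437931930441 .nil))) .nil) (.I .jac (.c 12801 (.c 35718409 (.c 24 .nil))) (.r 48 .nil))) (.node (.I .jac (.c 12801 (.c 2113 (.c 32 .nil))) (.b 24 (.r 48 .nil))) (.I .jac (.c 12801 (.c 8 (.c 16 .nil))) (.b 32 (.b 24 (.r 48 .nil))))))) (.node (.node (.node (.I .adp (.c 18433 (.c 40 (.c 244148312264838025 .nil))) .nil) (.I .adp (.c 18497 (.c 40 (.c 2306970773558193929 .nil))) .nil)) (.node (.I .adp (.c 12865 (.c 48 (.c 2306970773558193929 .nil))) .nil) (.I .adp (.c 18497 (.c 40 (.c 9024908047478665 .nil))) .nil))) (.node (.node (.I .adp (.c 12865 (.c 48 (.c 9024908047478665 .nil))) .nil) (.I .adp (.c 18433 (.c 40 (.c 2379903823379377929 .nil))) .nil)) (.node (.I .jac (.c 18433 (.c 545424585 (.c 16 .nil))) (.r 40 .nil)) (.I .jac (.c 18433 (.c 8257 (.c 24 .nil))) (.b 16 (.r 40 .nil))))))) (.node (.node (.node (.node (.I .jac (.c 18433 (.c 8 (.c 32 .nil))) (.b 24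 (.b 16 (.r 40 .nil)))) (.I .jac (.c 12801 (.c 545424585 (.c 16 .nil))) (.r 48 .nil))) (.node (.I .jac (.c 12801 (.c 8257 (.c 24 .nil))) (.b 16 (.r 48 .nil))) (.I .jac (.c 12801 (.c 8 (.c 32 .nil))) (.b 24 (.b 16 (.r 48 .nil)))))) (.node (.node (.I .jac (.c 18433 (.c 35718345 (.c 32 .nil))) (.r 40 .nil)) (.I .jac (.c 18433 (.c 2113 (.c 24 .nil))) (.b 32 (.r 40 .nil)))) (.node (.I .jac (.c 18433 (.c 8 (.c 16 .nil))) (.b 24 (.b 32 (.r 40 .nil)))) (.I .adp (.c 12865 (.c 48 (.c 617629514823753 .nil))) .nil)))) (.node (.node (.node (.I .jac (.c 617629514823753 (.c 8 (.c 40 .nil))) (.r 48 .nil)) (.I .adp (.c 18433 (.c 40 (.c 617629514823817 .nil))) .nil)) (.node (.I .jac (.c 18433 (.c 8 (.c 8786563 .nil))) (.r 40 .nil)) (.I .jac (.c 4609 (.c 16 (.c 32 .nil))) (.b 43954755 .nil)))) (.node (.node (.I .adp (.c 33587465 (.c 24 (.c 43954755 .nil))) .nil) (.I .adp (.c 18497 (.c 40 (.c 617611520073929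 .nil))) .nil)) (.node (.I .adp (.c 18497 (.c 40 (.c 62886542410057 .nil))) .nil) (.I .adp (.c 537002121 (.c 24 (.c 2737260370 .nil))) .nil)))))))

noncomputable def c2_204 : Tr := (.node (.node (.node (.node (.node (.node (.I .adp (.c 18497 (.c 40 (.c 24 .nil))) (.l 537002121 .nil)) (.I .adp (.c 18497 (.c 40 (.c 537002121 .nil))) (.r 24 .nil))) (.node (.I .tdp (.c 18497 (.c 40 (.c 24 (.c 537002121 .nil)))) .nil) (.I .adp (.c 33587465 (.c 24 (.c 2737260370 .nil))) .nil))) (.node (.node (.I .tdb (.c 8 (.c 48 (.c 24 (.c 40 .nil)))) (.l 33587465 .nil)) (.I .adp (.c 18497 (.c 40 (.c 24 .nil))) (.l 33587465 .nil))) (.node (.I .adp (.c 18497 (.c 40 (.c 33587465 .nil))) (.r 24 .nil)) (.I .tdp (.c 18497 (.c 40 (.c 24 (.c 33587465 .nil)))) .nil)))) (.node (.node (.node (.I .tdb (.c 2049 (.c 32 (.c 24 (.c 40 .nil)))) (.r 18497 .nil)) (.I .tdb (.c 0 (.c 16 (.c 40 (.c 24 .nil)))) (.b 32 (.r 18497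 .nil)))) (.node (.I .adp (.c 12865 (.c 48 (.c 62886542410057 .nil))) .nil) (.I .adp (.c 537002121 (.c 24 (.c 1324169106 .nil))) .nil))) (.node (.node (.I .tdb (.c 8 (.c 40 (.c 24 (.c 48 .nil)))) (.l 537002121 .nil)) (.I .adp (.c 12865 (.c 48 (.c 24 .nil))) (.l 537002121 .nil))) (.node (.I .adp (.c 12865 (.c 48 (.c 537002121 .nil))) (.r 24 .nil)) (.I .tdp (.c 12865 (.c 48 (.c 24 (.c 537002121 .nil)))) .nil))))) (.node (.node (.node (.node (.I .tdb (.c 16 (.c 8193 (.c 24 (.c 48 .nil)))) (.r 12865 .nil)) (.I .jac (.c 18433 (.c 8786499 (.c 16 .nil))) (.r 40 .nil))) (.node (.I .jac (.c 18433 (.c 2803779 (.c 32 .nil))) (.r 40 .nil)) (.I .ass (.c 2718204105 (.c 545424521 (.c 40 .nil))) .nil))) (.node (.node (.I .ass (.c 18433 (.c 545424521 (.c 12993 .nil))) .nil) (.I .tdb (.c 0 (.c 48 (.c 24 (.c 40 .nil)))) (.l 35718409 .nil))) (.node (.I .com (.c 3561346121425353 (.c 35718409 .nil)) .nil)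 (.I .ass (.c 18433 (.c 35718409 (.c 12993 .nil))) .nil)))) (.node (.node (.node (.I .tdb (.c 16 (.c 32 (.c 18433 (.c 40 .nil)))) (.l 4673 .nil)) (.I .tdb (.c 8 (.c 24 (.c 40 (.c 8321 .nil)))) (.r 18433 .nil))) (.node (.I .tdb (.c 16 (.c 32 (.c 8 (.c 40 .nil)))) (.b 24 (.r 18433 .nil))) (.I .tdb (.c 16 (.c 32 (.c 24 (.c 40 .nil)))) (.b 8 (.r 18433 .nil))))) (.node (.node (.I .adp (.c 12801 (.c 48 (.c 8321 .nil))) (.l 4673 .nil)) (.I .jac (.c 8193 (.c 16 (.c 24 .nil))) (.b 43954755 .nil))) (.node (.I .adp (.c 169943177 (.c 32 (.c 43954755 .nil))) .nil) (.I .adp (.c 33587401 (.c 32 (.c 43954755 .nil))) .nil)))))) (.node (.node (.node (.node (.node (.I .adp (.c 18497 (.c 40 (.c 598967998054665 .nil))) .nil) (.I .adp (.c 169943177 (.c 32 (.c 2737260370 .nil))) .nil)) (.node (.I .adp (.c 18497 (.c 40 (.c 32 .nil))) (.l 169943177 .nil)) (.I .adp (.c 18497 (.c 40 (.c 169943177 .nil))) (.r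 32 .nil)))) (.node (.node (.I .tdp (.c 18497 (.c 40 (.c 32 (.c 169943177 .nil)))) .nil) (.I .adp (.c 33587401 (.c 32 (.c 2737260370 .nil))) .nil)) (.node (.I .adp (.c 18497 (.c 40 (.c 32 .nil))) (.l 33587401 .nil)) (.I .adp (.c 18497 (.c 40 (.c 33587401 .nil))) (.r 32 .nil))))) (.node (.node (.node (.I .tdp (.c 18497 (.c 40 (.c 32 (.c 33587401 .nil)))) .nil) (.I .jac (.c 43954691 (.c 16 (.c 24 .nil))) (.l 8257 .nil))) (.node (.I .jac (.c 18433 (.c 8652867 (.c 24 .nil))) (.r 40 .nil)) (.I .tdb (.c 16 (.c 24 (.c 40 (.c 18433 .nil)))) (.l 8257 .nil)))) (.node (.node (.I .jac (.c 18433 (.c 16 (.c 24 .nil))) (.r 40 (.l 8257 .nil))) (.I .adp (.c 18433 (.c 40 (.c 4737 .nil))) (.l 8257 .nil))) (.node (.I .ass (.c 2718204169 (.c 35718345 (.c 40 .nil))) .nil) (.I .tdb (.c 16 (.c 24 (.c 48 (.c 12801 .nil)))) (.l 8257 .nil)))))) (.node (.node (.node (.node (.I .jac (.c 12801 (.c 16 (.c 24 .nil)))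 (.r 48 (.l 8257 .nil))) (.I .adp (.c 12801 (.c 48 (.c 4737 .nil))) (.l 8257 .nil))) (.node (.I .adp (.c 169943305 (.c 16 (.c 43954755 .nil))) .nil) (.I .adp (.c 537002185 (.c 16 (.c 2737260370 .nil))) .nil))) (.node (.node (.I .adp (.c 18497 (.c 40 (.c 16 .nil))) (.l 537002185 .nil)) (.I .adp (.c 18497 (.c 40 (.c 537002185 .nil))) (.r 16 .nil))) (.node (.I .tdp (.c 18497 (.c 40 (.c 16 (.c 537002185 .nil)))) .nil) (.I .adp (.c 169943305 (.c 16 (.c 2737260370 .nil))) .nil)))) (.node (.node (.node (.I .tdb (.c 8 (.c 48 (.c 16 (.c 40 .nil)))) (.l 169943305 .nil)) (.I .adp (.c 18497 (.c 40 (.c 16 .nil))) (.l 169943305 .nil))) (.node (.I .adp (.c 18497 (.c 40 (.c 169943305 .nil))) (.r 16 .nil)) (.I .tdp (.c 18497 (.c 40 (.c 16 (.c 169943305 .nil)))) .nil))) (.node (.node (.I .tdb (.c 4609 (.c 32 (.c 16 (.c 40 .nil)))) (.r 18497 .nil)) (.I .tdb (.c 0 (.c 24 (.c 40 (.c 16 .nil)))) (.b 32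 (.r 18497 .nil)))) (.node (.I .adp (.c 537002185 (.c 16 (.c 1324169106 .nil))) .nil) (.I .tdb (.c 8 (.c 40 (.c 16 (.c 48 .nil)))) (.l 537002185 .nil))))))))

noncomputable def c2_205 : Tr := (.node (.node (.node (.node (.node (.node (.I .adp (.c 12865 (.c 48 (.c 16 .nil))) (.l 537002185 .nil)) (.I .adp (.c 12865 (.c 48 (.c 537002185 .nil))) (.r 16 .nil))) (.node (.I .tdp (.c 12865 (.c 48 (.c 16 (.c 537002185 .nil)))) .nil) (.I .tdb (.c 24 (.c 8193 (.c 16 (.c 48 .nil)))) (.r 12865 .nil)))) (.node (.node (.I .ass (.c 18433 (.c 545424585 (.c 12929 .nil))) .nil) (.I .ass (.c 27951050520792140940324630661021757881161 (.c 40 (.c 16 .nil))) .nil)) (.node (.I .com (.c 16 (.c 40 .nil)) (.l 27951050520792140940324630661021757881161 .nil)) (.I .tdb (.c 0 (.c 48 (.c 16 (.c 40 .nil)))) (.l 174695689 .nil))))) (.node (.node (.node (.I .com (.c 3491688652046793 (.c 174695689 .nil)) .nil) (.I .ass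 (.c 18433 (.c 174695689 (.c 12929 .nil))) .nil)) (.node (.I .ass (.c 27951050520792140879796950267161731045257 (.c 40 (.c 16 .nil))) .nil) (.I .com (.c 16 (.c 40 .nil)) (.l 27951050520792140879796950267161731045257 .nil)))) (.node (.node (.I .tdb (.c 24 (.c 32 (.c 18433 (.c 40 .nil)))) (.l 2113 .nil)) (.I .tdb (.c 8 (.c 16 (.c 40 (.c 8385 .nil)))) (.r 18433 .nil))) (.node (.I .tdb (.c 24 (.c 32 (.c 8 (.c 40 .nil)))) (.b 16 (.r 18433 .nil))) (.I .tdb (.c 24 (.c 32 (.c 16 (.c 40 .nil)))) (.b 8 (.r 18433 .nil))))))) (.node (.node (.node (.node (.I .adp (.c 12801 (.c 48 (.c 8385 .nil))) (.l 2113 .nil)) (.I .adp (.c 537002057 (.c 24 (.c 2756086089 .nil))) .nil)) (.node (.I .adp (.c 2105609 (.c 24 (.c 2756086089 .nil))) .nil) (.I .adp (.c 537002057 (.c 24 (.c 1337272713 .nil))) .nil))) (.node (.node (.I .adp (.c 8257 (.c 24 (.c 16 .nil))) (.b 1310925193 .nil)) (.I .jac (.c 8193 (.c 8 (.c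 24 .nil))) (.b 2756086089 .nil))) (.node (.I .adp (.c 4673 (.c 32 (.c 0 .nil))) (.b 2756086089 .nil)) (.I .com (.c 8193 (.c 4673 .nil)) (.b 2756086089 .nil))))) (.node (.node (.node (.I .jac (.c 0 (.c 8 (.c 24 .nil))) (.r 32 (.b 2756086089 .nil))) (.I .adp (.c 169943113 (.c 32 (.c 2756086089 .nil))) .nil)) (.node (.I .adp (.c 8193 (.c 4673 (.c 1337272713 .nil))) .nil) (.I .com (.c 537002185 (.c 8 .nil)) (.b 2756086089 .nil)))) (.node (.node (.I .adp (.c 537002185 (.c 8 (.c 2756086089 .nil))) .nil) (.I .com (.c 537002185 (.c 8 .nil)) (.b 1337272713 .nil))) (.node (.I .adp (.c 537002185 (.c 8 (.c 1337272713 .nil))) .nil) (.I .jac (.c 16 (.c 24 (.c 32 .nil))) (.l 8 (.b 2718204233 .nil)))))))) (.node (.node (.node (.node (.node (.I .jac (.c 2718204233 (.c 8321 (.c 24 .nil))) (.l 8 .nil)) (.I .jac (.c 2718204233 (.c 16 (.c 32 .nil))) (.b 24 (.l 8 .nil)))) (.node (.I .adp (.c 8 (.c 179513609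 (.c 2718204233 .nil))) .nil) (.I .jac (.c 2718204233 (.c 4737 (.c 32 .nil))) (.l 8 .nil)))) (.node (.node (.I .jac (.c 2718204233 (.c 16 (.c 24 .nil))) (.b 32 (.l 8 .nil))) (.I .adp (.c 8 (.c 553912521 (.c 1310925193 .nil))) .nil)) (.node (.I .jac (.c 1310925193 (.c 8321 (.c 24 .nil))) (.l 8 .nil)) (.I .com (.c 3561367726845385 (.c 32 .nil)) (.b 2049 .nil))))) (.node (.node (.node (.I .jac (.c 617611520074121 (.c 16 (.c 48 .nil))) (.r 8 .nil)) (.I .jac (.c 617611520074185 (.c 16 (.c 40 .nil))) (.r 8 .nil))) (.node (.I .adp (.c 8 (.c 553979090 (.c 2718204233 .nil))) .nil) (.I .ass (.c 8 (.c 59109074018392946505 (.c 8321 .nil))) .nil))) (.node (.node (.I .com (.c 8 (.c 59109074018392946505 .nil)) (.r 8321 .nil)) (.I .tdp (.c 8321 (.c 24 (.c 2718204233 (.c 8 .nil)))) .nil)) (.node (.I .adp (.c 8 (.c 179551506 (.c 2718204233 .nil))) .nil) (.I .tdp (.c 4737 (.c 32 (.c 2718204233 (.c 8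 .nil)))) .nil))))) (.node (.node (.node (.node (.I .com (.c 8321 (.c 24 .nil)) (.l 8 (.b 1310925193 .nil))) (.I .adp (.c 24 (.c 32 (.c 16 .nil))) (.l 8 (.b 1310925193 .nil)))) (.node (.I .adp (.c 8321 (.c 24 (.c 1310925193 .nil))) (.l 8 .nil)) (.I .com (.c 13748198893136698185 (.c 8321 .nil)) (.l 8 .nil)))) (.node (.node (.I .adp (.c 8 (.c 179551506 (.c 1310925193 .nil))) .nil) (.I .ass (.c 8 (.c 13748198893136698249 (.c 4737 .nil))) .nil)) (.node (.I .com (.c 8 (.c 13748198893136698249 .nil)) (.r 4737 .nil)) (.I .tdp (.c 4737 (.c 32 (.c 1310925193 (.c 8 .nil)))) .nil)))) (.node (.node (.node (.I .jac (.c 4609 (.c 8 (.c 32 .nil))) (.b 2813700257 .nil)) (.I .adp (.c 18561 (.c 40 (.c 231045815314584265 .nil))) .nil)) (.node (.I .jac (.c 231045815314584265 (.c 16 (.c 48 .nil))) (.r 40 .nil)) (.I .adp (.c 12929 (.c 48 (.c 231045815314584265 .nil))) .nil))) (.node (.node (.I .adp (.c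 40 (.c 48 (.c 16 .nil))) (.b 2306969673777850185 .nil)) (.I .com (.c 18561 (.c 40 .nil)) (.b 2306969673777850185 .nil))) (.node (.I .adp (.c 18561 (.c 40 (.c 2306969673777850185 .nil))) .nil) (.I .adp (.c 12929 (.c 48 (.c 2306969673777850185 .nil))) .nil)))))))

noncomputable def c2_206 : Tr := (.node (.node (.node (.node (.node (.node (.I .adp (.c 40 (.c 48 (.c 16 .nil))) (.b 35468714087241 .nil)) (.I .com (.c 18561 (.c 40 .nil)) (.b 35468714087241 .nil))) (.node (.I .adp (.c 18561 (.c 40 (.c 35468714087241 .nil))) .nil) (.I .adp (.c 12929 (.c 48 (.c 35468714087241 .nil))) .nil))) (.node (.node (.I .adp (.c 40 (.c 48 (.c 16 .nil))) (.b 231045293249046409 .nil)) (.I .com (.c 18561 (.c 40 .nil)) (.b 231045293249046409 .nil))) (.node (.I .adp (.c 12929 (.c 48 (.c 231045293249046409 .nil))) .nil) (.I .jac (.c 8193 (.c 8 (.c 24 .nil))) (.b 2813700257 .nil))))) (.node (.node (.node (.I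 .adp (.c 40 (.c 48 (.c 16 .nil))) (.b 2306970773558193865 .nil)) (.I .com (.c 18561 (.c 40 .nil)) (.b 2306970773558193865 .nil))) (.node (.I .adp (.c 18561 (.c 40 (.c 2306970773558193865 .nil))) .nil) (.I .jac (.c 2306970773558193865 (.c 16 (.c 48 .nil))) (.r 40 .nil)))) (.node (.node (.I .adp (.c 12929 (.c 48 (.c 2306970773558193865 .nil))) .nil) (.I .com (.c 42576913200413531150059165447389106185 (.c 12929 .nil)) .nil)) (.node (.I .jac (.c 2306970773558193865 (.c 16 (.c 40 .nil))) (.r 48 .nil)) (.I .adp (.c 18561 (.c 40 (.c 617620517416009 .nil))) .nil))))) (.node (.node (.node (.node (.I .jac (.c 617620517416009 (.c 16 (.c 48 .nil))) (.r 40 .nil)) (.I .adp (.c 2105609 (.c 24 (.c 43954819 .nil))) .nil)) (.node (.I .adp (.c 18561 (.c 40 (.c 617611520073865 .nil))) .nil) (.I .jac (.c 617611520073865 (.c 16 (.c 48 .nil))) (.r 40 .nil)))) (.node (.node (.I .adp (.c 18561 (.c 40 (.c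 59555558875465 .nil))) .nil) (.I .adp (.c 537002057 (.c 24 (.c 2756234578 .nil))) .nil)) (.node (.I .adp (.c 18561 (.c 40 (.c 24 .nil))) (.l 537002057 .nil)) (.I .adp (.c 18561 (.c 40 (.c 537002057 .nil))) (.r 24 .nil))))) (.node (.node (.node (.I .com (.c 2306969673777850313 (.c 18561 .nil)) (.r 24 .nil)) (.I .jac (.c 537002057 (.c 16 (.c 48 .nil))) (.r 40 (.r 24 .nil)))) (.node (.I .tdp (.c 18561 (.c 40 (.c 24 (.c 537002057 .nil)))) .nil) (.I .adp (.c 2105609 (.c 24 (.c 2756234578 .nil))) .nil))) (.node (.node (.I .adp (.c 18561 (.c 40 (.c 24 .nil))) (.l 2105609 .nil)) (.I .adp (.c 18561 (.c 40 (.c 2105609 .nil))) (.r 24 .nil))) (.node (.I .tdp (.c 18561 (.c 40 (.c 24 (.c 2105609 .nil)))) .nil) (.I .tdb (.c 513 (.c 32 (.c 40 (.c 24 .nil)))) (.r 18561 .nil))))))) (.node (.node (.node (.node (.node (.I .tdb (.c 0 (.c 8 (.c 24 (.c 40 .nil)))) (.b 32 (.r 18561 .nil))) (.I .tdb (.c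 0 (.c 24 (.c 40 (.c 18561 .nil)))) (.r 8257 .nil))) (.node (.I .adp (.c 12929 (.c 48 (.c 59555558875465 .nil))) .nil) (.I .adp (.c 537002057 (.c 24 (.c 1337376146 .nil))) .nil))) (.node (.node (.I .tdb (.c 16 (.c 40 (.c 24 (.c 48 .nil)))) (.l 537002057 .nil)) (.I .adp (.c 12929 (.c 48 (.c 24 .nil))) (.l 537002057 .nil))) (.node (.I .adp (.c 12929 (.c 48 (.c 537002057 .nil))) (.r 24 .nil)) (.I .com (.c 2306969673777850377 (.c 12929 .nil)) (.r 24 .nil))))) (.node (.node (.node (.I .tdp (.c 12929 (.c 48 (.c 24 (.c 537002057 .nil)))) .nil) (.I .tdb (.c 8 (.c 8193 (.c 24 (.c 48 .nil)))) (.r 12929 .nil))) (.node (.I .adp (.c 2105545 (.c 32 (.c 43954819 .nil))) .nil) (.I .tdb (.c 0 (.c 32 (.c 18561 (.c 40 .nil)))) (.r 4673 .nil)))) (.node (.node (.I .adp (.c 169943113 (.c 32 (.c 2756234578 .nil))) .nil) (.I .adp (.c 18561 (.c 40 (.c 32 .nil))) (.l 169943113 .nil))) (.node (.I .adp (.c 18561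 (.c 40 (.c 169943113 .nil))) (.r 32 .nil)) (.I .com (.c 231045293249046473 (.c 18561 .nil)) (.r 32 .nil)))))) (.node (.node (.node (.node (.I .jac (.c 169943113 (.c 16 (.c 48 .nil))) (.r 40 (.r 32 .nil))) (.I .tdp (.c 18561 (.c 40 (.c 32 (.c 169943113 .nil)))) .nil)) (.node (.I .adp (.c 2105545 (.c 32 (.c 2756234578 .nil))) .nil) (.I .tdb (.c 16 (.c 48 (.c 32 (.c 40 .nil)))) (.l 2105545 .nil)))) (.node (.node (.I .adp (.c 18561 (.c 40 (.c 32 .nil))) (.l 2105545 .nil)) (.I .adp (.c 18561 (.c 40 (.c 2105545 .nil))) (.r 32 .nil))) (.node (.I .tdp (.c 18561 (.c 40 (.c 32 (.c 2105545 .nil)))) .nil) (.I .adp (.c 12929 (.c 48 (.c 580749782704393 .nil))) .nil)))) (.node (.node (.node (.I .adp (.c 169943113 (.c 32 (.c 1337376146 .nil))) .nil) (.I .tdb (.c 16 (.c 40 (.c 32 (.c 48 .nil)))) (.l 169943113 .nil))) (.node (.I .adp (.c 12929 (.c 48 (.c 32 .nil))) (.l 169943113 .nil)) (.I .adp (.c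 12929 (.c 48 (.c 169943113 .nil))) (.r 32 .nil)))) (.node (.node (.I .com (.c 231045293249046537 (.c 12929 .nil)) (.r 32 .nil)) (.I .jac (.c 169943113 (.c 16 (.c 40 .nil))) (.r 48 (.r 32 .nil)))) (.node (.I .tdp (.c 12929 (.c 48 (.c 32 (.c 169943113 .nil)))) .nil) (.I .tdb (.c 8 (.c 4609 (.c 32 (.c 48 .nil)))) (.r 12929 .nil))))))))

noncomputable def c2_207 : Tr := (.node (.node (.node (.node (.node (.node (.I .tdb (.c 0 (.c 24 (.c 32 (.c 48 .nil)))) (.b 8 (.r 12929 .nil))) (.I .adp (.c 537002185 (.c 8 (.c 2756234578 .nil))) .nil)) (.node (.I .adp (.c 18561 (.c 40 (.c 8 .nil))) (.l 537002185 .nil)) (.I .com (.c 12865 (.c 18561 .nil)) (.l 537002185 .nil)))) (.node (.node (.I .jac (.c 8 (.c 16 (.c 48 .nil))) (.r 40 (.l 537002185 .nil))) (.I .adp (.c 18561 (.c 40 (.c 537002185 .nil))) (.r 8 .nil))) (.node (.I .adp (.c 169943305 (.c 8 (.c 2756234578 .nil))) .nil) (.I .tdb (.c 16 (.c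 48 (.c 8 (.c 40 .nil)))) (.l 169943305 .nil))))) (.node (.node (.node (.I .adp (.c 18561 (.c 40 (.c 8 .nil))) (.l 169943305 .nil)) (.I .com (.c 12865 (.c 18561 .nil)) (.l 169943305 .nil))) (.node (.I .jac (.c 8 (.c 16 (.c 48 .nil))) (.r 40 (.l 169943305 .nil))) (.I .tdb (.c 4609 (.c 32 (.c 18561 (.c 40 .nil)))) (.r 8 .nil)))) (.node (.node (.I .tdb (.c 0 (.c 24 (.c 40 (.c 18561 .nil)))) (.b 32 (.r 8 .nil))) (.I .adp (.c 18561 (.c 40 (.c 169943305 .nil))) (.r 8 .nil))) (.node (.I .adp (.c 537002185 (.c 8 (.c 1337376146 .nil))) .nil) (.I .tdb (.c 16 (.c 40 (.c 8 (.c 48 .nil)))) (.l 537002185 .nil)))))) (.node (.node (.node (.node (.I .adp (.c 12929 (.c 48 (.c 8 .nil))) (.l 537002185 .nil)) (.I .jac (.c 8 (.c 16 (.c 40 .nil))) (.r 48 (.l 537002185 .nil)))) (.node (.I .tdb (.c 24 (.c 8193 (.c 12929 (.c 48 .nil)))) (.r 8 .nil)) (.I .tdb (.c 16 (.c 40 (.c 24 (.c 48 .nil)))) (.b 8193 (.r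 8 .nil))))) (.node (.node (.I .tdb (.c 0 (.c 32 (.c 12929 (.c 48 .nil)))) (.b 24 (.r 8 .nil))) (.I .tdb (.c 16 (.c 40 (.c 32 (.c 48 .nil)))) (.b 0 (.b 24 (.r 8 .nil))))) (.node (.I .adp (.c 12929 (.c 48 (.c 537002185 .nil))) (.r 8 .nil)) (.I .adp (.c 169943305 (.c 8 (.c 1337376146 .nil))) .nil)))) (.node (.node (.node (.I .tdb (.c 16 (.c 40 (.c 8 (.c 48 .nil)))) (.l 169943305 .nil)) (.I .adp (.c 12929 (.c 48 (.c 8 .nil))) (.l 169943305 .nil))) (.node (.I .jac (.c 8 (.c 16 (.c 40 .nil))) (.r 48 (.l 169943305 .nil))) (.I .tdb (.c 4609 (.c 32 (.c 12929 (.c 48 .nil)))) (.r 8 .nil)))) (.node (.node (.I .tdb (.c 0 (.c 24 (.c 48 (.c 12929 .nil)))) (.b 32 (.r 8 .nil))) (.I .tdb (.c 16 (.c 40 (.c 24 (.c 48 .nil)))) (.b 0 (.b 32 (.r 8 .nil))))) (.node (.I .tdb (.c 16 (.c 40 (.c 32 (.c 48 .nil)))) (.b 4609 (.r 8 .nil))) (.I .adp (.c 12929 (.c 48 (.c 169943305 .nil))) (.r 8 .nil))))))) (.node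 (.node (.node (.node (.node (.I .tdb (.c 0 (.c 48 (.c 32 (.c 40 .nil)))) (.b 4737 (.l 8 .nil))) (.I .ass (.c 18433 (.c 12865 (.c 179513609 .nil))) .nil)) (.node (.I .ass (.c 1310924873 (.c 48 (.c 553912521 .nil))) .nil) (.I .com (.c 553912521 (.c 48 .nil)) (.l 1310924873 .nil)))) (.node (.node (.I .tdb (.c 0 (.c 40 (.c 32 (.c 48 .nil)))) (.b 4737 (.l 8 .nil))) (.I .jac (.c 8786435 (.c 40 (.c 48 .nil))) (.b 2113 .nil))) (.node (.I .jac (.c 12801 (.c 16 (.c 48 .nil))) (.r 545424585 .nil)) (.I .adp (.c 0 (.c 174695689 (.c 2756086089 .nil))) .nil)))) (.node (.node (.node (.I .jac (.c 0 (.c 18561 (.c 40 .nil))) (.r 174695689 .nil)) (.I .jac (.c 0 (.c 16 (.c 48 .nil))) (.b 40 (.r 174695689 .nil)))) (.node (.I .jac (.c 18433 (.c 16 (.c 40 .nil))) (.r 545424585 .nil)) (.I .adp (.c 0 (.c 174695689 (.c 1337272713 .nil))) .nil))) (.node (.node (.I .jac (.c 18433 (.c 16 (.c 40 .nil))) (.r 174695689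 .nil)) (.I .jac (.c 0 (.c 12929 (.c 48 .nil))) (.r 174695689 .nil))) (.node (.I .jac (.c 0 (.c 16 (.c 40 .nil))) (.b 48 (.r 174695689 .nil))) (.I .jac (.c 12801 (.c 8 (.c 48 .nil))) (.r 553912521 .nil)))))) (.node (.node (.node (.node (.I .adp (.c 0 (.c 179513609 (.c 2737112393 .nil))) .nil) (.I .jac (.c 0 (.c 18497 (.c 40 .nil))) (.r 179513609 .nil))) (.node (.I .jac (.c 0 (.c 8 (.c 48 .nil))) (.b 40 (.r 179513609 .nil))) (.I .jac (.c 18433 (.c 8 (.c 40 .nil))) (.r 179513609 .nil)))) (.node (.node (.I .com (.c 15038410136445321 (.c 32 .nil)) (.b 2113 .nil)) (.I .com (.c 3561346121425353 (.c 32 .nil)) (.b 2113 .nil))) (.node (.I .jac (.c 12801 (.c 16 (.c 48 .nil))) (.r 545490642 .nil)) (.I .jac (.c 18433 (.c 16 (.c 40 .nil))) (.r 174733074 .nil))))) (.node (.node (.node (.I .jac (.c 12801 (.c 8 (.c 48 .nil))) (.r 8786563 .nil)) (.I .adp (.c 0 (.c 553979090 (.c 2737112393 .nil)))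 .nil)) (.node (.I .adp (.c 8321 (.c 24 (.c 2737112393 .nil))) (.l 0 .nil)) (.I .jac (.c 12801 (.c 8 (.c 48 .nil))) (.r 553979090 .nil)))) (.node (.node (.I .jac (.c 0 (.c 18497 (.c 40 .nil))) (.r 553979090 .nil)) (.I .jac (.c 0 (.c 8 (.c 48 .nil))) (.b 40 (.r 553979090 .nil)))) (.node (.I .tdp (.c 8321 (.c 24 (.c 2737112393 (.c 0 .nil)))) .nil) (.I .adp (.c 0 (.c 179551506 (.c 2737112393 .nil))) .nil)))))))

noncomputable def c2_208 : Tr := (.node (.node (.node (.node (.node (.node (.I .jac (.c 0 (.c 18497 (.c 40 .nil))) (.r 179551506 .nil)) (.I .jac (.c 0 (.c 8 (.c 48 .nil))) (.b 40 (.r 179551506 .nil)))) (.node (.I .tdp (.c 4737 (.c 32 (.c 2737112393 (.c 0 .nil)))) .nil) (.I .jac (.c 18433 (.c 8 (.c 40 .nil))) (.r 553979090 .nil)))) (.node (.node (.I .jac (.c 18433 (.c 8 (.c 40 .nil))) (.r 179551506 .nil)) (.I .adp (.c 40 (.c 48 (.c 169943305 .nil))) (.b 2113 .nil))) (.node (.I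 .com (.c 231045815314584585 (.c 40 .nil)) (.b 2113 .nil)) (.I .ass (.c 2718204041 (.c 40 (.c 545424585 .nil))) .nil)))) (.node (.node (.node (.I .com (.c 545424585 (.c 40 .nil)) (.l 2718204041 .nil)) (.I .ass (.c 33587593 (.c 40 (.c 174695689 .nil))) .nil)) (.node (.I .com (.c 174695689 (.c 40 .nil)) (.l 33587593 .nil)) (.I .ass (.c 1310924937 (.c 48 (.c 545424585 .nil))) .nil))) (.node (.node (.I .com (.c 545424585 (.c 48 .nil)) (.l 1310924937 .nil)) (.I .ass (.c 33587529 (.c 48 (.c 545424585 .nil))) .nil)) (.node (.I .com (.c 545424585 (.c 48 .nil)) (.l 33587529 .nil)) (.I .ass (.c 18433 (.c 12929 (.c 174695689 .nil))) .nil))))) (.node (.node (.node (.node (.I .ass (.c 33587529 (.c 48 (.c 174695689 .nil))) .nil) (.I .com (.c 174695689 (.c 48 .nil)) (.l 33587529 .nil))) (.node (.I .ass (.c 2105737 (.c 40 (.c 179513609 .nil))) .nil) (.I .com (.c 179513609 (.c 40 .nil)) (.l 2105737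 .nil)))) (.node (.node (.I .adp (.c 8 (.c 16 (.c 8385 .nil))) (.b 2718204233 .nil)) (.I .jac (.c 8 (.c 24 (.c 32 .nil))) (.r 16 (.b 2718204233 .nil)))) (.node (.I .adp (.c 8 (.c 16 (.c 8386 .nil))) (.b 1310925193 .nil)) (.I .com (.c 8257 (.c 24 .nil)) (.r 16 (.b 1310925193 .nil)))))) (.node (.node (.node (.I .adp (.c 24 (.c 32 (.c 8 .nil))) (.r 16 (.b 1310925193 .nil))) (.I .ass (.c 8257 (.c 24 (.c 16 .nil))) (.b 1310925193 .nil))) (.node (.I .com (.c 16 (.c 24 .nil)) (.l 8257 (.b 1310925193 .nil))) (.I .ass (.c 4673 (.c 32 (.c 16 .nil))) (.b 1310925193 .nil)))) (.node (.node (.I .com (.c 16 (.c 32 .nil)) (.l 4673 (.b 1310925193 .nil))) (.I .tdb (.c 8 (.c 16 (.c 32 (.c 24 .nil)))) (.b 43954691 .nil))) (.node (.I .adp (.c 24 (.c 32 (.c 2049 .nil))) (.b 2737112393 .nil)) (.I .com (.c 33587465 (.c 24 .nil)) (.b 2737112393 .nil))))))) (.node (.node (.node (.node (.node (.I .adp (.c 24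 (.c 32 (.c 2049 .nil))) (.b 1324066185 .nil)) (.I .com (.c 33587465 (.c 24 .nil)) (.b 1324066185 .nil))) (.node (.I .adp (.c 40 (.c 48 (.c 2049 .nil))) (.b 545424585 .nil)) (.I .com (.c 33587593 (.c 40 .nil)) (.b 545424585 .nil)))) (.node (.node (.I .adp (.c 24 (.c 32 (.c 513 .nil))) (.b 2756086089 .nil)) (.I .com (.c 2105609 (.c 24 .nil)) (.b 2756086089 .nil))) (.node (.I .jac (.c 33587529 (.c 24 (.c 48 .nil))) (.r 8257 .nil)) (.I .jac (.c 33587593 (.c 24 (.c 40 .nil))) (.r 8257 .nil))))) (.node (.node (.node (.I .adp (.c 8257 (.c 16 (.c 24 .nil))) (.b 1310925193 .nil)) (.I .adp (.c 8193 (.c 2113 (.c 2775125321 .nil))) .nil)) (.node (.I .jac (.c 2306970223667989449 (.c 24 (.c 48 .nil))) (.r 8 .nil)) (.I .jac (.c 2306970223667989513 (.c 24 (.c 40 .nil))) (.r 8 .nil)))) (.node (.node (.I .adp (.c 8 (.c 8321 (.c 24 .nil))) (.b 2718204233 .nil)) (.I .jac (.c 598967998054793 (.c 24 (.c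 48 .nil))) (.r 8 .nil))) (.node (.I .jac (.c 8520195 (.c 24 (.c 48 .nil))) (.b 40 (.r 16 .nil))) (.I .jac (.c 12865 (.c 24 (.c 48 .nil))) (.r 16 (.l 8193 .nil))))))) (.node (.node (.node (.node (.I .tdb (.c 40 (.c 18625 (.c 0 (.c 8 .nil)))) (.b 32 (.l 16 .nil))) (.I .com (.c 23450673742498311880358975801698568264628776966019601293978485628809 (.c 16 .nil)) .nil)) (.node (.I .com (.c 70295418264021313545660038925084727711704858002440658323418334089 (.c 16 .nil)) .nil) (.I .jac (.c 2105673 (.c 24 (.c 48 .nil))) (.r 8322 .nil)))) (.node (.node (.I .jac (.c 18497 (.c 24 (.c 40 .nil))) (.l 8652803 .nil)) (.I .jac (.c 580749782704585 (.c 24 (.c 40 .nil))) (.r 16 .nil))) (.node (.I .jac (.c 18497 (.c 24 (.c 40 .nil))) (.r 16 (.l 8193 .nil))) (.I .jac (.c 33587593 (.c 24 (.c 40 .nil))) (.r 8258 .nil))))) (.node (.node (.node (.I .jac (.c 2105737 (.c 24 (.c 40 .nil))) (.r 8322 .nil)) (.I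 .adp (.c 16 (.c 32 (.c 24 .nil))) (.l 8 (.b 2718204233 .nil)))) (.node (.I .tdp (.c 16 (.c 32 (.c 8 (.c 24 .nil)))) (.b 2718204233 .nil)) (.I .ass (.c 8 (.c 59109074018392946441 (.c 8385 .nil))) .nil))) (.node (.node (.I .com (.c 8 (.c 59109074018392946441 .nil)) (.r 8385 .nil)) (.I .tdb (.c 40 (.c 18433 (.c 8 (.c 16 .nil)))) (.l 8385 .nil))) (.node (.I .com (.c 3491710045277265 (.c 8385 .nil)) .nil) (.I .adp (.c 8 (.c 562465930 (.c 1310925193 .nil))) .nil)))))))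

noncomputable def c2_209 : Tr := (.node (.node (.node (.node (.node (.node (.I .adp (.c 16 (.c 8385 (.c 1310925193 .nil))) (.l 8 .nil)) (.I .jac (.c 1310925193 (.c 24 (.c 32 .nil))) (.l 16 (.l 8 .nil)))) (.node (.I .com (.c 1512103782441961079041378905002237328201 (.c 16 .nil)) (.l 8 .nil)) (.I .ass (.c 8 (.c 13748198893136698121 (.c 8385 .nil))) .nil))) (.node (.node (.I .com (.c 8 (.c 13748198893136698121 .nil)) (.r 8385 .nil)) (.I .tdp (.c 16 (.c 8385 (.c 1310925193 (.c 8 .nil)))) .nil)) (.node (.I .tdb (.c 48 (.c 12801 (.c 8 (.c 16 .nil)))) (.l 8385 .nil)) (.I .tdb (.c 0 (.c 40 (.c 8 (.c 16 .nil)))) (.b 48 (.l 8385 .nil)))))) (.node (.node (.node (.I .com (.c 97536312314082855488951506397193 (.c 8385 .nil)) .nil) (.I .com (.c 14832803796720721 (.c 8385 .nil)) .nil)) (.node (.I .tdb (.c 24 (.c 32 (.c 1310925193 (.c 8 .nil)))) (.r 16 .nil)) (.I .jac (.c 2049 (.c 8 (.c 32 .nil)))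 (.b 2813700321 .nil)))) (.node (.node (.I .adp (.c 40 (.c 48 (.c 24 .nil))) (.b 9024942441009865 .nil)) (.I .com (.c 18625 (.c 40 .nil)) (.b 9024942441009865 .nil))) (.node (.I .adp (.c 12993 (.c 48 (.c 9024942441009865 .nil))) .nil) (.I .jac (.c 2306969673777850121 (.c 24 (.c 48 .nil))) (.r 40 .nil)))))) (.node (.node (.node (.node (.I .adp (.c 12993 (.c 48 (.c 2306969673777850121 .nil))) .nil) (.I .jac (.c 2306969673777850121 (.c 24 (.c 40 .nil))) (.r 48 .nil))) (.node (.I .adp (.c 40 (.c 48 (.c 24 .nil))) (.b 35468714087177 .nil)) (.I .com (.c 18625 (.c 40 .nil)) (.b 35468714087177 .nil)))) (.node (.node (.I .jac (.c 35468714087177 (.c 24 (.c 40 .nil))) (.r 48 .nil)) (.I .adp (.c 40 (.c 48 (.c 24 .nil))) (.b 9024839260612489 .nil))) (.node (.I .com (.c 18625 (.c 40 .nil)) (.b 9024839260612489 .nil)) (.I .adp (.c 12993 (.c 48 (.c 9024839260612489 .nil))) .nil)))) (.node (.node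 (.node (.I .adp (.c 40 (.c 48 (.c 24 .nil))) (.b 2306970223667989193 .nil)) (.I .com (.c 18625 (.c 40 .nil)) (.b 2306970223667989193 .nil))) (.node (.I .com (.c 42576892903125856676158477119718330313 (.c 18625 .nil)) .nil) (.I .com (.c 42576892903125856676158477119718330377 (.c 12993 .nil)) .nil))) (.node (.node (.I .adp (.c 18625 (.c 40 (.c 35464401931145 .nil))) .nil) (.I .adp (.c 18625 (.c 40 (.c 598976858557513 .nil))) .nil)) (.node (.I .jac (.c 598976858557513 (.c 24 (.c 48 .nil))) (.r 40 .nil)) (.I .adp (.c 2105609 (.c 16 (.c 43954883 .nil))) .nil)))))) (.node (.node (.node (.node (.node (.I .adp (.c 18625 (.c 40 (.c 598967998054537 .nil))) .nil) (.I .com (.c 2870101301547678715334610275273 (.c 18625 .nil)) .nil)) (.node (.I .adp (.c 18625 (.c 40 (.c 2487083360585 .nil))) .nil) (.I .adp (.c 537002057 (.c 16 (.c 2775274322 .nil))) .nil))) (.node (.node (.I .adp (.c 18625 (.c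 40 (.c 16 .nil))) (.l 537002057 .nil)) (.I .jac (.c 16 (.c 24 (.c 48 .nil))) (.r 40 (.l 537002057 .nil)))) (.node (.I .tdb (.c 24 (.c 48 (.c 8 (.c 40 .nil)))) (.b 8193 (.r 16 .nil))) (.I .adp (.c 18625 (.c 40 (.c 537002057 .nil))) (.r 16 .nil))))) (.node (.node (.node (.I .com (.c 2306969673777850313 (.c 18625 .nil)) (.r 16 .nil)) (.I .jac (.c 537002057 (.c 24 (.c 48 .nil))) (.r 40 (.r 16 .nil)))) (.node (.I .adp (.c 2105609 (.c 16 (.c 2775274322 .nil))) .nil) (.I .adp (.c 18625 (.c 40 (.c 16 .nil))) (.l 2105609 .nil)))) (.node (.node (.I .com (.c 12929 (.c 18625 .nil)) (.l 2105609 .nil)) (.I .adp (.c 18625 (.c 40 (.c 2105609 .nil))) (.r 16 .nil))) (.node (.I .com (.c 2870101301547678715334610275337 (.c 12993 .nil)) .nil) (.I .adp (.c 12993 (.c 48 (.c 2487083360585 .nil))) .nil))))) (.node (.node (.node (.node (.I .adp (.c 537002057 (.c 16 (.c 1350648722 .nil))) .nil) (.I .tdb (.c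 24 (.c 40 (.c 16 (.c 48 .nil)))) (.l 537002057 .nil))) (.node (.I .adp (.c 12993 (.c 48 (.c 16 .nil))) (.l 537002057 .nil)) (.I .jac (.c 16 (.c 24 (.c 40 .nil))) (.r 48 (.l 537002057 .nil))))) (.node (.node (.I .tdb (.c 8 (.c 8193 (.c 12993 (.c 48 .nil)))) (.r 16 .nil)) (.I .tdb (.c 24 (.c 40 (.c 8 (.c 48 .nil)))) (.b 8193 (.r 16 .nil)))) (.node (.I .tdb (.c 0 (.c 32 (.c 12993 (.c 48 .nil)))) (.b 8 (.r 16 .nil))) (.I .tdb (.c 24 (.c 40 (.c 32 (.c 48 .nil)))) (.b 0 (.b 8 (.r 16 .nil))))))) (.node (.node (.node (.I .adp (.c 12993 (.c 48 (.c 537002057 .nil))) (.r 16 .nil)) (.I .com (.c 2306969673777850377 (.c 12993 .nil)) (.r 16 .nil))) (.node (.I .jac (.c 537002057 (.c 24 (.c 40 .nil))) (.r 48 (.r 16 .nil))) (.I .adp (.c 2105481 (.c 32 (.c 43954883 .nil))) .nil))) (.node (.node (.I .adp (.c 18625 (.c 40 (.c 580749782704329 .nil))) .nil) (.I .com (.c 2698162480889002807269082722249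 (.c 18625 .nil)) .nil)) (.node (.I .adp (.c 33587273 (.c 32 (.c 2775274322 .nil))) .nil) (.I .adp (.c 18625 (.c 40 (.c 32 .nil))) (.l 33587273 .nil))))))))

noncomputable def c2_210 : Tr := (.node (.node (.node (.node (.node (.node (.I .adp (.c 18625 (.c 40 (.c 33587273 .nil))) (.r 32 .nil)) (.I .com (.c 9024839260612553 (.c 18625 .nil)) (.r 32 .nil))) (.node (.I .jac (.c 33587273 (.c 24 (.c 48 .nil))) (.r 40 (.r 32 .nil))) (.I .tdp (.c 18625 (.c 40 (.c 32 (.c 33587273 .nil)))) .nil))) (.node (.node (.I .adp (.c 2105481 (.c 32 (.c 2775274322 .nil))) .nil) (.I .tdb (.c 24 (.c 48 (.c 32 (.c 40 .nil)))) (.l 2105481 .nil))) (.node (.I .adp (.c 18625 (.c 40 (.c 32 .nil))) (.l 2105481 .nil)) (.I .adp (.c 18625 (.c 40 (.c 2105481 .nil))) (.r 32 .nil))))) (.node (.node (.node (.I .com (.c 35464401931209 (.c 18625 .nil)) (.r 32 .nil)) (.I .jac (.c 2105481 (.c 24 (.c 48 .nil))) (.r 40 (.r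 32 .nil)))) (.node (.I .tdp (.c 18625 (.c 40 (.c 32 (.c 2105481 .nil)))) .nil) (.I .adp (.c 12993 (.c 48 (.c 580749782704329 .nil))) .nil))) (.node (.node (.I .jac (.c 580749782704329 (.c 24 (.c 40 .nil))) (.r 48 .nil)) (.I .adp (.c 33587273 (.c 32 (.c 1350648722 .nil))) .nil)) (.node (.I .tdb (.c 24 (.c 40 (.c 32 (.c 48 .nil)))) (.l 33587273 .nil)) (.I .adp (.c 12993 (.c 48 (.c 32 .nil))) (.l 33587273 .nil)))))) (.node (.node (.node (.node (.I .adp (.c 12993 (.c 48 (.c 33587273 .nil))) (.r 32 .nil)) (.I .com (.c 9024839260612617 (.c 12993 .nil)) (.r 32 .nil))) (.node (.I .jac (.c 33587273 (.c 24 (.c 40 .nil))) (.r 48 (.r 32 .nil))) (.I .tdp (.c 12993 (.c 48 (.c 32 (.c 33587273 .nil)))) .nil))) (.node (.node (.I .tdb (.c 8 (.c 2049 (.c 32 (.c 48 .nil)))) (.r 12993 .nil)) (.I .tdb (.c 0 (.c 16 (.c 32 (.c 48 .nil)))) (.b 8 (.r 12993 .nil)))) (.node (.I .adp (.c 537002121 (.c 8 (.c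 2775274322 .nil))) .nil) (.I .adp (.c 18625 (.c 40 (.c 8 .nil))) (.l 537002121 .nil))))) (.node (.node (.node (.I .com (.c 12865 (.c 18625 .nil)) (.l 537002121 .nil)) (.I .jac (.c 8 (.c 24 (.c 48 .nil))) (.r 40 (.l 537002121 .nil)))) (.node (.I .adp (.c 18625 (.c 40 (.c 537002121 .nil))) (.r 8 .nil)) (.I .com (.c 2306970223667989449 (.c 18625 .nil)) (.r 8 .nil)))) (.node (.node (.I .jac (.c 537002121 (.c 24 (.c 48 .nil))) (.r 40 (.r 8 .nil))) (.I .adp (.c 33587465 (.c 8 (.c 2775274322 .nil))) .nil)) (.node (.I .tdb (.c 24 (.c 48 (.c 8 (.c 40 .nil)))) (.l 33587465 .nil)) (.I .adp (.c 18625 (.c 40 (.c 8 .nil))) (.l 33587465 .nil))))))) (.node (.node (.node (.node (.node (.I .com (.c 12865 (.c 18625 .nil)) (.l 33587465 .nil)) (.I .jac (.c 8 (.c 24 (.c 48 .nil))) (.r 40 (.l 33587465 .nil)))) (.node (.I .tdb (.c 2049 (.c 32 (.c 18625 (.c 40 .nil)))) (.r 8 .nil)) (.I .tdb (.c 0 (.c 16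 (.c 40 (.c 18625 .nil)))) (.b 32 (.r 8 .nil))))) (.node (.node (.I .adp (.c 18625 (.c 40 (.c 33587465 .nil))) (.r 8 .nil)) (.I .adp (.c 537002121 (.c 8 (.c 1350648722 .nil))) .nil)) (.node (.I .tdb (.c 24 (.c 40 (.c 8 (.c 48 .nil)))) (.l 537002121 .nil)) (.I .adp (.c 12993 (.c 48 (.c 8 .nil))) (.l 537002121 .nil))))) (.node (.node (.node (.I .jac (.c 8 (.c 24 (.c 40 .nil))) (.r 48 (.l 537002121 .nil))) (.I .tdb (.c 16 (.c 8193 (.c 12993 (.c 48 .nil)))) (.r 8 .nil))) (.node (.I .tdb (.c 24 (.c 40 (.c 16 (.c 48 .nil)))) (.b 8193 (.r 8 .nil))) (.I .tdb (.c 0 (.c 32 (.c 12993 (.c 48 .nil)))) (.b 16 (.r 8 .nil))))) (.node (.node (.I .tdb (.c 24 (.c 40 (.c 32 (.c 48 .nil)))) (.b 0 (.b 16 (.r 8 .nil)))) (.I .adp (.c 12993 (.c 48 (.c 537002121 .nil))) (.r 8 .nil))) (.node (.I .com (.c 2306970223667989513 (.c 12993 .nil)) (.r 8 .nil)) (.I .jac (.c 537002121 (.c 24 (.c 40 .nil))) (.r 48 (.r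 8 .nil))))))) (.node (.node (.node (.node (.I .adp (.c 33587465 (.c 8 (.c 1350648722 .nil))) .nil) (.I .tdb (.c 24 (.c 40 (.c 8 (.c 48 .nil)))) (.l 33587465 .nil))) (.node (.I .adp (.c 12993 (.c 48 (.c 8 .nil))) (.l 33587465 .nil)) (.I .jac (.c 8 (.c 24 (.c 40 .nil))) (.r 48 (.l 33587465 .nil))))) (.node (.node (.I .tdb (.c 2049 (.c 32 (.c 12993 (.c 48 .nil)))) (.r 8 .nil)) (.I .tdb (.c 0 (.c 16 (.c 48 (.c 12993 .nil)))) (.b 32 (.r 8 .nil)))) (.node (.I .tdb (.c 24 (.c 40 (.c 0 (.c 48 .nil)))) (.b 16 (.b 32 (.r 8 .nil)))) (.I .tdb (.c 24 (.c 40 (.c 16 (.c 48 .nil)))) (.b 0 (.b 32 (.r 8 .nil))))))) (.node (.node (.node (.I .tdb (.c 24 (.c 40 (.c 32 (.c 48 .nil)))) (.b 2049 (.r 8 .nil))) (.I .adp (.c 12993 (.c 48 (.c 33587465 .nil))) (.r 8 .nil))) (.node (.I .jac (.c 8652803 (.c 40 (.c 48 .nil))) (.b 4673 .nil)) (.I .adp (.c 0 (.c 35718409 (.c 2775125321 .nil))) .nil))) (.node (.node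 (.I .jac (.c 0 (.c 18625 (.c 40 .nil))) (.r 35718409 .nil)) (.I .jac (.c 0 (.c 24 (.c 48 .nil))) (.b 40 (.r 35718409 .nil)))) (.node (.I .jac (.c 18433 (.c 24 (.c 40 .nil))) (.r 35718409 .nil)) (.I .com (.c 14832759703961993 (.c 32 .nil)) (.b 4673 .nil))))))))

noncomputable def c2_211 : Tr := (.node (.node (.node (.node (.node (.node (.I .jac (.c 12801 (.c 24 (.c 48 .nil))) (.r 8652867 .nil)) (.I .jac (.c 12801 (.c 24 (.c 48 .nil))) (.r 545490578 .nil))) (.node (.I .tdb (.c 8 (.c 32 (.c 2775125321 (.c 0 .nil)))) (.l 16 .nil)) (.I .adp (.c 0 (.c 8322 (.c 24 .nil))) (.b 2737112393 .nil)))) (.node (.node (.I .adp (.c 16 (.c 32 (.c 24 .nil))) (.l 0 (.b 2737112393 .nil))) (.I .tdp (.c 16 (.c 32 (.c 0 (.c 24 .nil)))) (.b 2737112393 .nil))) (.node (.I .adp (.c 16 (.c 8385 (.c 2737112393 .nil))) (.l 0 .nil)) (.I .jac (.c 2737112393 (.c 24 (.c 32 .nil))) (.l 16 (.l 0 .nil)))))) (.node (.node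 (.node (.I .jac (.c 12801 (.c 8 (.c 48 .nil))) (.r 562465930 .nil)) (.I .tdb (.c 40 (.c 18497 (.c 0 (.c 16 .nil)))) (.l 8385 .nil))) (.node (.I .com (.c 97535117142658802225506092678857 (.c 8385 .nil)) .nil) (.I .com (.c 97535117142640924779607613918217 (.c 8385 .nil)) .nil))) (.node (.node (.I .jac (.c 43059203 (.c 8 (.c 40 .nil))) (.l 8385 .nil)) (.I .adp (.c 40 (.c 48 (.c 537002121 .nil))) (.b 4673 .nil))) (.node (.I .com (.c 2306970223667989513 (.c 40 .nil)) (.b 4673 .nil)) (.I .ass (.c 169943433 (.c 40 (.c 545424521 .nil))) .nil))))) (.node (.node (.node (.node (.I .com (.c 545424521 (.c 40 .nil)) (.l 169943433 .nil)) (.I .ass (.c 2718204105 (.c 40 (.c 35718409 .nil))) .nil)) (.node (.I .com (.c 35718409 (.c 40 .nil)) (.l 2718204105 .nil)) (.I .ass (.c 169943369 (.c 48 (.c 545424521 .nil))) .nil))) (.node (.node (.I .com (.c 545424521 (.c 48 .nil)) (.l 169943369 .nil)) (.I .ass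 (.c 18433 (.c 12993 (.c 35718409 .nil))) .nil)) (.node (.I .ass (.c 169943369 (.c 48 (.c 35718409 .nil))) .nil) (.I .com (.c 35718409 (.c 48 .nil)) (.l 169943369 .nil))))) (.node (.node (.node (.I .adp (.c 16 (.c 32 (.c 4673 .nil))) (.b 2718204233 .nil)) (.I .adp (.c 8 (.c 24 (.c 8322 .nil))) (.b 2718204233 .nil))) (.node (.I .adp (.c 16 (.c 32 (.c 8 .nil))) (.r 24 (.b 2718204233 .nil))) (.I .com (.c 8257 (.c 16 .nil)) (.r 24 (.b 2718204233 .nil))))) (.node (.node (.I .adp (.c 40 (.c 48 (.c 4673 .nil))) (.b 537002121 .nil)) (.I .com (.c 174695817 (.c 40 .nil)) (.b 537002121 .nil))) (.node (.I .adp (.c 16 (.c 32 (.c 4609 .nil))) (.b 1324066185 .nil)) (.I .ass (.c 2049 (.c 32 (.c 24 .nil))) (.b 2737112393 .nil))))))) (.node (.node (.node (.node (.node (.I .com (.c 24 (.c 32 .nil)) (.l 2049 (.b 2737112393 .nil))) (.I .adp (.c 40 (.c 48 (.c 4609 .nil))) (.b 545424521 .nil))) (.node (.I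 .com (.c 169943433 (.c 40 .nil)) (.b 545424521 .nil)) (.I .jac (.c 8520195 (.c 40 (.c 48 .nil))) (.b 4737 .nil)))) (.node (.node (.I .com (.c 14629225721520521 (.c 32 .nil)) (.b 4737 .nil)) (.I .jac (.c 12801 (.c 24 (.c 48 .nil))) (.r 553912394 .nil))) (.node (.I .tdb (.c 24 (.c 48 (.c 0 (.c 8 .nil)))) (.b 40 (.l 8321 .nil))) (.I .com (.c 93738611484289995286311130272777 (.c 8321 .nil)) .nil)))) (.node (.node (.node (.I .jac (.c 18497 (.c 24 (.c 40 .nil))) (.r 8321 (.l 0 .nil))) (.I .jac (.c 12801 (.c 16 (.c 48 .nil))) (.r 562465866 .nil))) (.node (.I .tdb (.c 16 (.c 48 (.c 0 (.c 8 .nil)))) (.b 40 (.l 8385 .nil))) (.I .com (.c 93738611484300510920650542513929 (.c 8385 .nil)) .nil))) (.node (.node (.I .jac (.c 18497 (.c 16 (.c 40 .nil))) (.r 8385 (.l 0 .nil))) (.I .jac (.c 18433 (.c 16 (.c 40 .nil))) (.r 562465866 .nil))) (.node (.I .jac (.c 42762755 (.c 16 (.c 40 .nil))) (.l 8385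 .nil)) (.I .com (.c 1712113961689580865954497792891657 (.c 8385 .nil)) .nil))))) (.node (.node (.node (.node (.I .adp (.c 40 (.c 48 (.c 2105609 .nil))) (.b 4737 .nil)) (.I .com (.c 35468714087433 (.c 40 .nil)) (.b 4737 .nil))) (.node (.I .adp (.c 16 (.c 24 (.c 8257 .nil))) (.b 2718204233 .nil)) (.I .adp (.c 16 (.c 24 (.c 8258 .nil))) (.b 2718204233 .nil)))) (.node (.node (.I .adp (.c 8 (.c 32 (.c 24 .nil))) (.l 16 (.b 2718204233 .nil))) (.I .ass (.c 16 (.c 8 (.c 8385 .nil))) (.b 2718204233 .nil))) (.node (.I .ass (.c 8 (.c 16 (.c 8385 .nil))) (.b 2718204233 .nil)) (.I .com (.c 16 (.c 8 .nil)) (.r 8385 (.b 2718204233 .nil)))))) (.node (.node (.node (.I .adp (.c 8 (.c 32 (.c 16 .nil))) (.r 24 (.b 2718204233 .nil))) (.I .ass (.c 8 (.c 8321 (.c 24 .nil))) (.b 2718204233 .nil))) (.node (.I .tdp (.c 8 (.c 32 (.c 16 (.c 24 .nil)))) (.b 2718204233 .nil)) (.I .com (.c 8 (.c 8786563 .nil))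 (.b 2718204233 .nil)))) (.node (.node (.I .adp (.c 40 (.c 48 (.c 8257 .nil))) (.b 169943177 .nil)) (.I .com (.c 545424777 (.c 40 .nil)) (.b 169943177 .nil))) (.node (.I .adp (.c 40 (.c 48 (.c 8257 .nil))) (.b 33587401 .nil)) (.I .com (.c 545424777 (.c 40 .nil)) (.b 33587401 .nil))))))))

noncomputable def c2_212 : Tr := (.node (.node (.node (.node (.node (.node (.I .adp (.c 16 (.c 24 (.c 8193 .nil))) (.b 1324066185 .nil)) (.I .adp (.c 16 (.c 24 (.c 8194 .nil))) (.b 2737112393 .nil))) (.node (.I .adp (.c 0 (.c 32 (.c 24 .nil))) (.l 16 (.b 2737112393 .nil))) (.I .ass (.c 16 (.c 0 (.c 8385 .nil))) (.b 2737112393 .nil)))) (.node (.node (.I .ass (.c 0 (.c 16 (.c 8385 .nil))) (.b 2737112393 .nil)) (.I .com (.c 16 (.c 0 .nil)) (.r 8385 (.b 2737112393 .nil)))) (.node (.I .adp (.c 0 (.c 32 (.c 16 .nil))) (.r 24 (.b 2737112393 .nil))) (.I .ass (.c 0 (.c 8321 (.c 24 .nil))) (.b 2737112393 .nil)))))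 (.node (.node (.node (.I .tdp (.c 0 (.c 32 (.c 16 (.c 24 .nil)))) (.b 2737112393 .nil)) (.I .com (.c 0 (.c 8786563 .nil)) (.b 2737112393 .nil))) (.node (.I .adp (.c 40 (.c 48 (.c 8193 .nil))) (.b 174695561 .nil)) (.I .com (.c 537002377 (.c 40 .nil)) (.b 174695561 .nil)))) (.node (.node (.I .adp (.c 8 (.c 24 (.c 8193 .nil))) (.b 2756086089 .nil)) (.I .adp (.c 8 (.c 24 (.c 8193 .nil))) (.b 1337272713 .nil))) (.node (.I .jac (.c 231045293249046473 (.c 32 (.c 48 .nil))) (.r 16 .nil)) (.I .jac (.c 33587529 (.c 32 (.c 48 .nil))) (.r 4673 .nil)))))) (.node (.node (.node (.node (.I .jac (.c 231045293249046537 (.c 32 (.c 40 .nil))) (.r 16 .nil)) (.I .jac (.c 33587593 (.c 32 (.c 40 .nil))) (.r 4673 .nil))) (.node (.I .jac (.c 9024839260612553 (.c 32 (.c 48 .nil))) (.r 24 .nil)) (.I .jac (.c 169943433 (.c 32 (.c 40 .nil))) (.r 2113 .nil)))) (.node (.node (.I .jac (.c 9024839260612617 (.c 32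 (.c 40 .nil))) (.r 24 .nil)) (.I .jac (.c 35464401931273 (.c 32 (.c 40 .nil))) (.r 24 .nil))) (.node (.I .jac (.c 9024908047478729 (.c 32 (.c 48 .nil))) (.r 8 .nil)) (.I .jac (.c 2105673 (.c 32 (.c 48 .nil))) (.r 4737 .nil))))) (.node (.node (.node (.I .jac (.c 231045467270827017 (.c 32 (.c 40 .nil))) (.r 8 .nil)) (.I .jac (.c 2105737 (.c 32 (.c 40 .nil))) (.r 4737 .nil))) (.node (.I .tdb (.c 32 (.c 48 (.c 0 (.c 8 .nil)))) (.b 40 (.b 24 (.l 16 .nil)))) (.I .com (.c 23450673742498722248794897076549151819054483951375134599711655190345 (.c 16 .nil)) .nil))) (.node (.node (.I .jac (.c 2487083360649 (.c 32 (.c 48 .nil))) (.r 24 .nil)) (.I .jac (.c 18433 (.c 20891715 (.c 32 .nil))) (.l 24 .nil))) (.node (.I .jac (.c 0 (.c 3491710045130185 (.c 32 .nil))) (.l 24 .nil)) (.I .tdb (.c 32 (.c 48 (.c 0 (.c 8 .nil)))) (.b 40 (.b 16 (.l 24 .nil))))))))) (.node (.node (.node (.node (.node (.I .com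 (.c 70295418264026570724123255045461523072430276854854487529883665161 (.c 24 .nil)) .nil) (.I .com (.c 24783518859262354015724227941900409827846785712001665744907096832969 (.c 24 .nil)) .nil)) (.node (.I .com (.c 59109071235118978209 (.c 24 .nil)) .nil) (.I .com (.c 2306972423396334753 (.c 24 .nil)) .nil))) (.node (.node (.I .com (.c 13748196208706507937 (.c 24 .nil)) .nil) (.I .jac (.c 12929 (.c 32 (.c 48 .nil))) (.r 24 (.l 513 .nil)))) (.node (.I .tdb (.c 32 (.c 48 (.c 0 (.c 16 .nil)))) (.b 40 (.b 8 (.l 24 .nil)))) (.I .com (.c 76104792608257399621125824957950699431257596111742695952988355273 (.c 24 .nil)) .nil)))) (.node (.node (.node (.I .jac (.c 2487083360713 (.c 32 (.c 40 .nil))) (.r 24 .nil)) (.I .jac (.c 33587593 (.c 32 (.c 40 .nil))) (.r 4674 .nil))) (.node (.I .jac (.c 0 (.c 43059267 (.c 40 .nil))) (.b 32 (.l 24 .nil))) (.I .com (.c 2306971873683273889 (.c 24 .nil)) .nil)))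 (.node (.node (.I .jac (.c 18561 (.c 32 (.c 40 .nil))) (.r 24 (.l 513 .nil))) (.I .adp (.c 8 (.c 4738 (.c 32 .nil))) (.b 1310925193 .nil))) (.node (.I .adp (.c 16 (.c 24 (.c 32 .nil))) (.l 8 (.b 1310925193 .nil))) (.I .tdp (.c 16 (.c 24 (.c 8 (.c 32 .nil)))) (.b 1310925193 .nil)))))) (.node (.node (.node (.node (.I .com (.c 8652867 (.c 24 .nil)) (.b 1310925193 .nil)) (.I .com (.c 651591722123533630921387187294217 (.c 13057 .nil)) .nil)) (.node (.I .com (.c 427055420260302327923477728639448009 (.c 18689 .nil)) .nil) (.I .jac (.c 35466557976329 (.c 32 (.c 48 .nil))) (.r 40 .nil)))) (.node (.node (.I .adp (.c 18689 (.c 40 (.c 9024839260612425 .nil))) .nil) (.I .com (.c 651581789439131375743888515045321 (.c 18689 .nil)) .nil)) (.node (.I .jac (.c 9024839260612425 (.c 32 (.c 48 .nil))) (.r 40 .nil)) (.I .adp (.c 13057 (.c 48 (.c 9024839260612425 .nil))) .nil)))) (.node (.node (.node (.I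 .com (.c 651581789439131375743888515045385 (.c 13057 .nil)) .nil) (.I .jac (.c 9024839260612425 (.c 32 (.c 40 .nil))) (.r 48 .nil))) (.node (.I .adp (.c 40 (.c 48 (.c 32 .nil))) (.b 231045467270826697 .nil)) (.I .com (.c 18689 (.c 40 .nil)) (.b 231045467270826697 .nil)))) (.node (.node (.I .adp (.c 18689 (.c 40 (.c 231045467270826697 .nil))) .nil) (.I .jac (.c 231045467270826697 (.c 32 (.c 40 .nil))) (.r 48 .nil))) (.node (.I .adp (.c 18689 (.c 40 (.c 35464401931081 .nil))) .nil) (.I .com (.c 10061790434634094094990628809 (.c 18689 .nil)) .nil)))))))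

noncomputable def c2_213 : Tr := (.node (.node (.node (.node (.node (.node (.I .jac (.c 35464401931081 (.c 32 (.c 48 .nil))) (.r 40 .nil)) (.I .adp (.c 13057 (.c 48 (.c 35464401931081 .nil))) .nil)) (.node (.I .jac (.c 62889413446729 (.c 32 (.c 48 .nil))) (.r 40 .nil)) (.I .adp (.c 13057 (.c 48 (.c 62889413446729 .nil))) .nil))) (.node (.node (.I .jac (.c 62889413446729 (.c 32 (.c 40 .nil))) (.r 48 .nil)) (.I .adp (.c 2105545 (.c 16 (.c 43954947 .nil))) .nil)) (.node (.I .com (.c 49484669137443443691131849 (.c 18689 .nil)) .nil) (.I .jac (.c 2487083360521 (.c 32 (.c 48 .nil))) (.r 40 .nil))))) (.node (.node (.node (.I .com (.c 12929 (.c 18689 .nil)) (.l 169943113 .nil)) (.I .tdb (.c 32 (.c 48 (.c 8 (.c 40 .nil)))) (.b 4609 (.r 16 .nil)))) (.node (.I .tdb (.c 32 (.c 48 (.c 16 (.c 40 .nil)))) (.l 2105545 .nil)) (.I .tdb (.c 32 (.c 48 (.c 24 (.c 40 .nil)))) (.b 513 (.r 16 .nil)))))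 (.node (.node (.I .tdb (.c 513 (.c 24 (.c 40 (.c 18689 .nil)))) (.r 16 .nil)) (.I .tdb (.c 0 (.c 8 (.c 40 (.c 18689 .nil)))) (.b 24 (.r 16 .nil)))) (.node (.I .adp (.c 13057 (.c 48 (.c 62886542409865 .nil))) .nil) (.I .jac (.c 62886542409865 (.c 32 (.c 40 .nil))) (.r 48 .nil)))))) (.node (.node (.node (.node (.I .com (.c 49484669137443443691131913 (.c 13057 .nil)) .nil) (.I .jac (.c 2487083360521 (.c 32 (.c 40 .nil))) (.r 48 .nil))) (.node (.I .tdb (.c 32 (.c 40 (.c 48 (.c 16 .nil)))) (.l 169943113 .nil)) (.I .jac (.c 16 (.c 32 (.c 40 .nil))) (.r 48 (.l 169943113 .nil))))) (.node (.node (.I .tdb (.c 8 (.c 4609 (.c 32 (.c 48 .nil)))) (.b 40 (.r 16 .nil))) (.I .tdb (.c 0 (.c 24 (.c 32 (.c 48 .nil)))) (.b 8 (.b 40 (.r 16 .nil))))) (.node (.I .tdb (.c 8 (.c 4609 (.c 40 (.c 48 .nil)))) (.b 32 (.r 16 .nil))) (.I .tdb (.c 0 (.c 24 (.c 40 (.c 48 .nil)))) (.b 8 (.b 32 (.r 16 .nil))))))) (.node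 (.node (.node (.I .tdb (.c 32 (.c 40 (.c 48 (.c 169943113 .nil)))) (.r 16 .nil)) (.I .adp (.c 2105545 (.c 16 (.c 1363986834 .nil))) .nil)) (.node (.I .tdb (.c 32 (.c 40 (.c 48 (.c 16 .nil)))) (.l 2105545 .nil)) (.I .adp (.c 13057 (.c 48 (.c 16 .nil))) (.l 2105545 .nil)))) (.node (.node (.I .com (.c 18561 (.c 13057 .nil)) (.l 2105545 .nil)) (.I .jac (.c 16 (.c 32 (.c 40 .nil))) (.r 48 (.l 2105545 .nil)))) (.node (.I .tdb (.c 513 (.c 24 (.c 13057 (.c 48 .nil)))) (.r 16 .nil)) (.I .tdb (.c 0 (.c 8 (.c 13057 (.c 48 .nil)))) (.b 24 (.r 16 .nil)))))))) (.node (.node (.node (.node (.node (.I .tdb (.c 32 (.c 40 (.c 48 (.c 0 .nil)))) (.b 8 (.b 24 (.r 16 .nil)))) (.I .tdb (.c 32 (.c 40 (.c 48 (.c 8 .nil)))) (.b 0 (.b 24 (.r 16 .nil))))) (.node (.I .tdb (.c 32 (.c 40 (.c 48 (.c 24 .nil)))) (.b 513 (.r 16 .nil))) (.I .adp (.c 13057 (.c 48 (.c 2105545 .nil))) (.r 16 .nil)))) (.node (.node (.I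 .com (.c 35466557976585 (.c 13057 .nil)) (.r 16 .nil)) (.I .jac (.c 2105545 (.c 32 (.c 40 .nil))) (.r 48 (.r 16 .nil)))) (.node (.I .adp (.c 2105481 (.c 24 (.c 43954947 .nil))) .nil) (.I .adp (.c 18689 (.c 40 (.c 59555558875337 .nil))) .nil)))) (.node (.node (.node (.I .jac (.c 59555558875337 (.c 32 (.c 48 .nil))) (.r 40 .nil)) (.I .com (.c 12993 (.c 18689 .nil)) (.l 33587273 .nil))) (.node (.I .tdb (.c 32 (.c 48 (.c 8 (.c 40 .nil)))) (.b 2049 (.r 24 .nil))) (.I .tdb (.c 32 (.c 48 (.c 24 (.c 40 .nil)))) (.l 2105481 .nil)))) (.node (.node (.I .tdb (.c 513 (.c 16 (.c 40 (.c 18689 .nil)))) (.r 24 .nil)) (.I .tdb (.c 0 (.c 8 (.c 40 (.c 18689 .nil)))) (.b 16 (.r 24 .nil)))) (.node (.I .jac (.c 59555558875337 (.c 32 (.c 40 .nil))) (.r 48 .nil)) (.I .tdb (.c 32 (.c 40 (.c 48 (.c 24 .nil)))) (.l 33587273 .nil)))))) (.node (.node (.node (.node (.I .jac (.c 24 (.c 32 (.c 40 .nil))) (.r 48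 (.l 33587273 .nil))) (.I .tdb (.c 8 (.c 2049 (.c 32 (.c 48 .nil)))) (.b 40 (.r 24 .nil)))) (.node (.I .tdb (.c 0 (.c 16 (.c 32 (.c 48 .nil)))) (.b 8 (.b 40 (.r 24 .nil)))) (.I .tdb (.c 8 (.c 2049 (.c 40 (.c 48 .nil)))) (.b 32 (.r 24 .nil))))) (.node (.node (.I .tdb (.c 0 (.c 16 (.c 40 (.c 48 .nil)))) (.b 8 (.b 32 (.r 24 .nil)))) (.I .tdb (.c 32 (.c 40 (.c 48 (.c 33587273 .nil)))) (.r 24 .nil))) (.node (.I .adp (.c 2105481 (.c 24 (.c 1363986834 .nil))) .nil) (.I .tdb (.c 32 (.c 40 (.c 48 (.c 24 .nil)))) (.l 2105481 .nil))))) (.node (.node (.node (.I .adp (.c 13057 (.c 48 (.c 24 .nil))) (.l 2105481 .nil)) (.I .com (.c 18625 (.c 13057 .nil)) (.l 2105481 .nil))) (.node (.I .jac (.c 24 (.c 32 (.c 40 .nil))) (.r 48 (.l 2105481 .nil))) (.I .tdb (.c 513 (.c 16 (.c 13057 (.c 48 .nil)))) (.r 24 .nil)))) (.node (.node (.I .tdb (.c 0 (.c 8 (.c 13057 (.c 48 .nil)))) (.b 16 (.r 24 .nil))) (.I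 .tdb (.c 32 (.c 40 (.c 48 (.c 0 .nil)))) (.b 8 (.b 16 (.r 24 .nil))))) (.node (.I .tdb (.c 32 (.c 40 (.c 48 (.c 8 .nil)))) (.b 0 (.b 16 (.r 24 .nil)))) (.I .tdb (.c 32 (.c 40 (.c 48 (.c 16 .nil)))) (.b 513 (.r 24 .nil)))))))))

noncomputable def c2_214 : Tr := (.node (.node (.node (.node (.node (.node (.I .adp (.c 13057 (.c 48 (.c 2105481 .nil))) (.r 24 .nil)) (.I .com (.c 35464401931273 (.c 13057 .nil)) (.r 24 .nil))) (.node (.I .jac (.c 2105481 (.c 32 (.c 40 .nil))) (.r 48 (.r 24 .nil))) (.I .tdb (.c 32 (.c 48 (.c 8 (.c 40 .nil)))) (.l 169943177 .nil)))) (.node (.node (.I .tdb (.c 16 (.c 4609 (.c 18689 (.c 40 .nil)))) (.r 8 .nil)) (.I .tdb (.c 0 (.c 24 (.c 40 (.c 18689 .nil)))) (.b 16 (.r 8 .nil)))) (.node (.I .tdb (.c 32 (.c 48 (.c 8 (.c 40 .nil)))) (.l 33587401 .nil)) (.I .tdb (.c 24 (.c 2049 (.c 18689 (.c 40 .nil)))) (.r 8 .nil))))) (.node (.node (.node (.I .tdb (.c 0 (.c 16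 (.c 40 (.c 18689 .nil)))) (.b 24 (.r 8 .nil))) (.I .tdb (.c 32 (.c 40 (.c 48 (.c 8 .nil)))) (.l 169943177 .nil))) (.node (.I .jac (.c 8 (.c 32 (.c 40 .nil))) (.r 48 (.l 169943177 .nil))) (.I .tdb (.c 16 (.c 4609 (.c 32 (.c 48 .nil)))) (.b 40 (.r 8 .nil))))) (.node (.node (.I .tdb (.c 0 (.c 24 (.c 32 (.c 48 .nil)))) (.b 16 (.b 40 (.r 8 .nil)))) (.I .tdb (.c 16 (.c 4609 (.c 40 (.c 48 .nil)))) (.b 32 (.r 8 .nil)))) (.node (.I .tdb (.c 0 (.c 24 (.c 40 (.c 48 .nil)))) (.b 16 (.b 32 (.r 8 .nil)))) (.I .tdb (.c 32 (.c 40 (.c 48 (.c 169943177 .nil)))) (.r 8 .nil)))))) (.node (.node (.node (.node (.I .tdb (.c 32 (.c 40 (.c 48 (.c 8 .nil)))) (.l 33587401 .nil)) (.I .jac (.c 8 (.c 32 (.c 40 .nil))) (.r 48 (.l 33587401 .nil)))) (.node (.I .tdb (.c 24 (.c 2049 (.c 32 (.c 48 .nil)))) (.b 40 (.r 8 .nil))) (.I .tdb (.c 0 (.c 16 (.c 32 (.c 48 .nil)))) (.b 24 (.b 40 (.r 8 .nil)))))) (.node (.node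 (.I .tdb (.c 24 (.c 2049 (.c 40 (.c 48 .nil)))) (.b 32 (.r 8 .nil))) (.I .tdb (.c 0 (.c 16 (.c 40 (.c 48 .nil)))) (.b 24 (.b 32 (.r 8 .nil))))) (.node (.I .tdb (.c 32 (.c 40 (.c 48 (.c 33587401 .nil)))) (.r 8 .nil)) (.I .jac (.c 2803715 (.c 40 (.c 48 .nil))) (.b 8257 .nil))))) (.node (.node (.node (.I .jac (.c 12801 (.c 32 (.c 48 .nil))) (.r 174695561 .nil)) (.I .jac (.c 12801 (.c 32 (.c 48 .nil))) (.r 35718345 .nil))) (.node (.I .jac (.c 18433 (.c 32 (.c 40 .nil))) (.r 174695561 .nil)) (.I .adp (.c 0 (.c 4737 (.c 32 .nil))) (.b 2737112393 .nil)))) (.node (.node (.I .jac (.c 12801 (.c 32 (.c 48 .nil))) (.r 2803779 .nil)) (.I .jac (.c 18433 (.c 32 (.c 40 .nil))) (.r 35735250 .nil))) (.node (.I .adp (.c 40 (.c 48 (.c 169943177 .nil))) (.b 8257 .nil)) (.I .com (.c 231045467270827017 (.c 40 .nil)) (.b 8257 .nil))))))) (.node (.node (.node (.node (.node (.I .ass (.c 12801 (.c 18689 (.c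 174695561 .nil))) .nil) (.I .com (.c 174695561 (.c 18689 .nil)) (.l 12801 .nil))) (.node (.I .ass (.c 12801 (.c 18689 (.c 35718345 .nil))) .nil) (.I .com (.c 35718345 (.c 18689 .nil)) (.l 12801 .nil)))) (.node (.node (.I .ass (.c 1310925065 (.c 48 (.c 35718345 .nil))) .nil) (.I .com (.c 35718345 (.c 48 .nil)) (.l 1310925065 .nil))) (.node (.I .jac (.c 2728451 (.c 40 (.c 48 .nil))) (.b 8321 .nil)) (.I .adp (.c 0 (.c 4673 (.c 32 .nil))) (.b 2756086089 .nil))))) (.node (.node (.node (.I .adp (.c 0 (.c 4673 (.c 32 .nil))) (.b 1337272713 .nil)) (.I .jac (.c 20685315 (.c 32 (.c 48 .nil))) (.l 4737 .nil))) (.node (.I .tdb (.c 32 (.c 48 (.c 0 (.c 8 .nil)))) (.b 40 (.l 4737 .nil))) (.I .com (.c 1712113961689565885627358955911113 (.c 4737 .nil)) .nil))) (.node (.node (.I .jac (.c 18433 (.c 32 (.c 40 .nil))) (.r 179513418 .nil)) (.I .com (.c 3423058053194185 (.c 24 .nil)) (.b 8321 .nil))) (.node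 (.I .adp (.c 0 (.c 2113 (.c 32 .nil))) (.b 2775125321 .nil)) (.I .jac (.c 545424585 (.c 16 (.c 48 .nil))) (.b 12801 .nil)))))) (.node (.node (.node (.node (.I .jac (.c 8257 (.c 16 (.c 48 .nil))) (.r 24 (.b 12801 .nil))) (.I .jac (.c 1310924937 (.c 8 (.c 32 .nil))) (.b 48 (.r 24 .nil)))) (.node (.I .jac (.c 12801 (.c 545424777 (.c 16 .nil))) (.r 24 .nil)) (.I .jac (.c 12801 (.c 8257 (.c 48 .nil))) (.b 16 (.r 24 .nil))))) (.node (.node (.I .jac (.c 12801 (.c 8 (.c 32 .nil))) (.b 48 (.b 16 (.r 24 .nil)))) (.I .jac (.c 1310924937 (.c 8 (.c 48 .nil))) (.b 32 (.r 24 .nil)))) (.node (.I .jac (.c 1310925065 (.c 2113 (.c 48 .nil))) (.r 24 .nil)) (.I .jac (.c 1310925065 (.c 8 (.c 16 .nil))) (.b 48 (.r 24 .nil)))))) (.node (.node (.node (.I .adp (.c 2379903264864635913 (.c 24 (.c 12801 .nil))) .nil) (.I .com (.c 1310925001 (.c 2379903264864635913 .nil)) .nil)) (.node (.I .jac (.c 12801 (.c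 545424521 (.c 48 .nil))) (.r 24 .nil)) (.I .jac (.c 12801 (.c 8257 (.c 16 .nil))) (.b 48 (.r 24 .nil))))) (.node (.node (.I .jac (.c 12801 (.c 8 (.c 32 .nil))) (.b 16 (.b 48 (.r 24 .nil)))) (.I .adp (.c 4673 (.c 2756086025 (.c 12801 .nil))) .nil)) (.node (.I .jac (.c 1310925065 (.c 16 (.c 48 .nil))) (.l 4673 .nil)) (.I .adp (.c 2306972423229201161 (.c 24 (.c 12865 .nil))) .nil)))))))

noncomputable def c2_215 : Tr := (.node (.node (.node (.node (.node (.node (.I .adp (.c 59109065668069837705 (.c 24 (.c 12865 .nil))) .nil) (.I .jac (.c 59109065668069837705 (.c 8 (.c 40 .nil))) (.r 24 .nil))) (.node (.I .jac (.c 13748193523587632009 (.c 8 (.c 48 .nil))) (.r 24 .nil)) (.I .jac (.c 1310924937 (.c 18497 (.c 32 .nil))) (.r 24 .nil)))) (.node (.node (.I .adp (.c 10206437931930633 (.c 24 (.c 12801 .nil))) .nil) (.I .com (.c 1310925001 (.c 10206437931930633 .nil)) .nil)) (.node (.I .jac (.c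 12801 (.c 8321 (.c 48 .nil))) (.l 4673 .nil)) (.I .jac (.c 12801 (.c 16 (.c 32 .nil))) (.b 48 (.l 4673 .nil)))))) (.node (.node (.node (.I .jac (.c 59109071234951844617 (.c 8 (.c 40 .nil))) (.r 24 .nil)) (.I .adp (.c 15246281046235273 (.c 24 (.c 12801 .nil))) .nil)) (.node (.I .jac (.c 4673 (.c 16 (.c 48 .nil))) (.r 32 (.b 12801 .nil))) (.I .jac (.c 1310924937 (.c 8 (.c 24 .nil))) (.b 48 (.r 32 .nil))))) (.node (.node (.I .adp (.c 59934265606904515401 (.c 32 (.c 12801 .nil))) .nil) (.I .com (.c 1310925065 (.c 59934265606904515401 .nil)) .nil)) (.node (.I .jac (.c 13748194865974800137 (.c 8 (.c 48 .nil))) (.r 32 .nil)) (.I .jac (.c 1310925001 (.c 8 (.c 48 .nil))) (.b 16 (.r 32 .nil))))))) (.node (.node (.node (.node (.I .jac (.c 1310924937 (.c 8 (.c 48 .nil))) (.b 24 (.r 32 .nil))) (.I .jac (.c 12801 (.c 2737112201 (.c 24 .nil))) (.r 32 .nil))) (.node (.I .jac (.c 12801 (.c 18497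 (.c 16 .nil))) (.b 24 (.r 32 .nil))) (.I .jac (.c 12801 (.c 8 (.c 48 .nil))) (.b 16 (.b 24 (.r 32 .nil)))))) (.node (.node (.I .adp (.c 10206511083363145 (.c 32 (.c 12801 .nil))) .nil) (.I .com (.c 1310925065 (.c 10206511083363145 .nil)) .nil)) (.node (.I .jac (.c 1310925001 (.c 8 (.c 16 .nil))) (.b 48 (.r 32 .nil))) (.I .jac (.c 12801 (.c 35718537 (.c 24 .nil))) (.r 32 .nil))))) (.node (.node (.node (.I .jac (.c 12801 (.c 2113 (.c 48 .nil))) (.b 24 (.r 32 .nil))) (.I .jac (.c 12801 (.c 8 (.c 16 .nil))) (.b 48 (.b 24 (.r 32 .nil))))) (.node (.I .adp (.c 244148312264838153 (.c 32 (.c 12801 .nil))) .nil) (.I .com (.c 1310925065 (.c 244148312264838153 .nil)) .nil))) (.node (.node (.I .jac (.c 12801 (.c 174695561 (.c 48 .nil))) (.r 32 .nil)) (.I .jac (.c 12801 (.c 4673 (.c 16 .nil))) (.b 48 (.r 32 .nil)))) (.node (.I .jac (.c 12801 (.c 8 (.c 24 .nil))) (.b 16 (.b 48 (.r 32 .nil)))) (.I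 .jac (.c 12801 (.c 18561 (.c 24 .nil))) (.l 8257 .nil))))))) (.node (.node (.node (.node (.node (.I .com (.c 1512102896582526821614077026536761750537 (.c 8257 .nil)) .nil) (.I .adp (.c 59109065668069837641 (.c 32 (.c 12865 .nil))) .nil)) (.node (.I .jac (.c 59109065668069837641 (.c 8 (.c 40 .nil))) (.r 32 .nil)) (.I .jac (.c 18497 (.c 16 (.c 24 .nil))) (.r 32 (.b 12801 .nil))))) (.node (.node (.I .jac (.c 12801 (.c 2737112265 (.c 16 .nil))) (.r 32 .nil)) (.I .jac (.c 12801 (.c 18497 (.c 24 .nil))) (.b 16 (.r 32 .nil)))) (.node (.I .jac (.c 12801 (.c 8 (.c 48 .nil))) (.b 24 (.b 16 (.r 32 .nil)))) (.I .jac (.c 12801 (.c 35718345 (.c 48 .nil))) (.r 32 .nil))))) (.node (.node (.node (.I .jac (.c 12801 (.c 2113 (.c 24 .nil))) (.b 48 (.r 32 .nil))) (.I .jac (.c 12801 (.c 8 (.c 16 .nil))) (.b 24 (.b 48 (.r 32 .nil))))) (.node (.I .adp (.c 59109068451510808329 (.c 32 (.c 12865 .nil))) .nil)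 (.I .jac (.c 59109068451510808329 (.c 8 (.c 40 .nil))) (.r 32 .nil)))) (.node (.node (.I .adp (.c 15038498931046537 (.c 32 (.c 12801 .nil))) .nil) (.I .adp (.c 8193 (.c 43356803 (.c 12865 .nil))) .nil)) (.node (.I .com (.c 545424585 (.c 18561 .nil)) (.b 12801 .nil)) (.I .jac (.c 12801 (.c 24 (.c 32 .nil))) (.l 2737112201 .nil)))))) (.node (.node (.node (.node (.I .com (.c 13748194865974800265 (.c 2737112201 .nil)) .nil) (.I .adp (.c 35718537 (.c 8385 (.c 12801 .nil))) .nil)) (.node (.I .com (.c 13748194865974800265 (.c 35718537 .nil)) .nil) (.I .adp (.c 545424585 (.c 18561 (.c 12801 .nil))) .nil))) (.node (.node (.I .com (.c 13748193523587632137 (.c 174695689 .nil)) .nil) (.I .com (.c 62889413447113 (.c 32 .nil)) (.b 12801 .nil))) (.node (.I .adp (.c 598976858557897 (.c 24 (.c 12801 .nil))) .nil) (.I .com (.c 1310925001 (.c 598976858557897 .nil)) .nil)))) (.node (.node (.node (.I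 .adp (.c 15038454533713097 (.c 32 (.c 12801 .nil))) .nil) (.I .adp (.c 62889413447113 (.c 32 (.c 12801 .nil))) .nil)) (.node (.I .com (.c 1310925065 (.c 62889413447113 .nil)) .nil) (.I .adp (.c 2737112201 (.c 8386 (.c 12801 .nil))) .nil))) (.node (.node (.I .tdb (.c 0 (.c 40 (.c 24 (.c 32 .nil)))) (.l 2737112201 .nil)) (.I .adp (.c 24 (.c 32 (.c 12801 .nil))) (.l 2737112201 .nil))) (.node (.I .com (.c 1310925065 (.c 24 .nil)) (.l 2737112201 .nil)) (.I .ass (.c 2737112201 (.c 1310925065 (.c 24 .nil))) .nil)))))))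

noncomputable def c2_216 : Tr := (.node (.node (.node (.node (.node (.node (.I .ass (.c 1310925065 (.c 2737112201 (.c 24 .nil))) .nil) (.I .com (.c 2737112201 (.c 1310925065 .nil)) (.r 24 .nil))) (.node (.I .ass (.c 2737112201 (.c 1310925001 (.c 32 .nil))) .nil) (.I .com (.c 2737112201 (.c 1310925001 .nil)) (.r 32 .nil)))) (.node (.node (.I .jac (.c 12801 (.c 18497 (.c 16 .nil))) (.r 8386 .nil)) (.I .jac (.c 12801 (.c 8 (.c 48 .nil))) (.b 16 (.r 8386 .nil)))) (.node (.I .tdp (.c 24 (.c 32 (.c 12801 (.c 2737112201 .nil)))) .nil) (.I .jac (.c 2803715 (.c 8 (.c 48 .nil))) (.b 40 (.l 32 .nil)))))) (.node (.node (.node (.I .tdb (.c 8 (.c 48 (.c 0 (.c 24 .nil)))) (.b 16 (.b 40 (.l 32 .nil)))) (.I .tdb (.c 0 (.c 40 (.c 2737112201 (.c 24 .nil)))) (.l 32 .nil))) (.node (.I .tdb (.c 16 (.c 18497 (.c 0 (.c 24 .nil)))) (.b 40 (.l 32 .nil))) (.I .tdb (.c 16 (.c 18497 (.c 24 (.c 40 .nil)))) (.b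 0 (.l 32 .nil))))) (.node (.node (.I .com (.c 26186512359090026768196227558957595852823670284232500091879628616649 (.c 32 .nil)) .nil) (.I .tdb (.c 8 (.c 48 (.c 0 (.c 32 .nil)))) (.b 16 (.b 40 (.r 24 .nil))))) (.node (.I .tdb (.c 0 (.c 40 (.c 2737112201 (.c 32 .nil)))) (.r 24 .nil)) (.I .tdb (.c 16 (.c 18497 (.c 0 (.c 32 .nil)))) (.b 40 (.r 24 .nil))))))) (.node (.node (.node (.node (.I .jac (.c 43356675 (.c 8 (.c 16 .nil))) (.b 40 (.l 32 .nil))) (.I .com (.c 26186512359090472543188603966557137501573810150274371860122381242313 (.c 32 .nil)) .nil)) (.node (.I .tdb (.c 0 (.c 40 (.c 24 (.c 32 .nil)))) (.b 35718537 .nil)) (.I .com (.c 1310925065 (.c 18561 .nil)) (.l 4673 .nil)))) (.node (.node (.I .adp (.c 18561 (.c 32 (.c 12801 .nil))) (.l 4673 .nil)) (.I .com (.c 62886542410185 (.c 32 .nil)) (.b 12865 .nil))) (.node (.I .adp (.c 598967998054857 (.c 24 (.c 12865 .nil))) .nil) (.I .adp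 (.c 15038410136445129 (.c 32 (.c 12865 .nil))) .nil)))) (.node (.node (.node (.I .jac (.c 15038410136445129 (.c 8 (.c 40 .nil))) (.r 32 .nil)) (.I .adp (.c 2718204041 (.c 8386 (.c 12865 .nil))) .nil)) (.node (.I .tdb (.c 8 (.c 40 (.c 24 (.c 32 .nil)))) (.l 2718204041 .nil)) (.I .adp (.c 24 (.c 32 (.c 12865 .nil))) (.l 2718204041 .nil)))) (.node (.node (.I .com (.c 1324066057 (.c 24 .nil)) (.l 2718204041 .nil)) (.I .jac (.c 2718204041 (.c 8 (.c 40 .nil))) (.r 8386 .nil))) (.node (.I .tdp (.c 24 (.c 32 (.c 12865 (.c 2718204041 .nil)))) .nil) (.I .tdb (.c 16 (.c 18433 (.c 24 (.c 40 .nil)))) (.b 8 (.l 32 .nil)))))))) (.node (.node (.node (.node (.node (.I .tdb (.c 8 (.c 40 (.c 2718204041 (.c 24 .nil)))) (.l 32 .nil)) (.I .tdb (.c 8 (.c 40 (.c 2718204041 (.c 32 .nil)))) (.r 24 .nil))) (.node (.I .com (.c 1324066057 (.c 24 .nil)) (.l 33587593 .nil)) (.I .tdp (.c 24 (.c 32 (.c 12865 (.c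 33587593 .nil)))) .nil))) (.node (.node (.I .tdb (.c 2049 (.c 48 (.c 8 (.c 24 .nil)))) (.b 40 (.l 32 .nil))) (.I .tdb (.c 0 (.c 16 (.c 8 (.c 24 .nil)))) (.b 48 (.b 40 (.l 32 .nil))))) (.node (.I .tdb (.c 2049 (.c 48 (.c 24 (.c 40 .nil)))) (.b 8 (.l 32 .nil))) (.I .tdb (.c 0 (.c 16 (.c 40 (.c 24 .nil)))) (.b 48 (.b 8 (.l 32 .nil))))))) (.node (.node (.node (.I .tdb (.c 8 (.c 40 (.c 33587593 (.c 24 .nil)))) (.l 32 .nil)) (.I .tdb (.c 2049 (.c 48 (.c 8 (.c 32 .nil)))) (.b 40 (.r 24 .nil)))) (.node (.I .tdb (.c 0 (.c 16 (.c 32 (.c 8 .nil)))) (.b 48 (.b 40 (.r 24 .nil)))) (.I .tdb (.c 8 (.c 40 (.c 33587593 (.c 32 .nil)))) (.r 24 .nil)))) (.node (.node (.I .adp (.c 8786435 (.c 18561 (.c 12865 .nil))) .nil) (.I .adp (.c 18561 (.c 24 (.c 12865 .nil))) (.l 8193 .nil))) (.node (.I .adp (.c 18561 (.c 32 (.c 12865 .nil))) (.l 4609 .nil)) (.I .adp (.c 18497 (.c 553912521 (.c 12801 .nil))) .nil)))))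 (.node (.node (.node (.node (.I .com (.c 1512102896582526849770380112053152561929 (.c 18497 .nil)) .nil) (.I .com (.c 1512103191868961649950570808237977416521 (.c 18497 .nil)) .nil)) (.node (.I .com (.c 1512102601296135269515422934336011008841 (.c 18497 .nil)) .nil) (.I .adp (.c 10206437931930441 (.c 48 (.c 12801 .nil))) .nil))) (.node (.node (.I .com (.c 1310925193 (.c 10206437931930441 .nil)) .nil) (.I .adp (.c 18497 (.c 179513609 (.c 12801 .nil))) .nil)) (.node (.I .jac (.c 12801 (.c 16 (.c 24 .nil))) (.b 32 (.l 18497 .nil))) (.I .com (.c 1512103191868961664028723725600700192521 (.c 18497 .nil)) .nil)))) (.node (.node (.node (.I .adp (.c 2379903823379377929 (.c 48 (.c 12801 .nil))) .nil) (.I .com (.c 1310925193 (.c 2379903823379377929 .nil)) .nil)) (.node (.I .adp (.c 18497 (.c 8786563 (.c 12801 .nil))) .nil) (.I .adp (.c 18433 (.c 8786563 (.c 12865 .nil))) .nil))) (.node (.node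 (.I .adp (.c 2737112265 (.c 8321 (.c 12801 .nil))) .nil) (.I .com (.c 13748196208362033929 (.c 2737112265 .nil)) .nil)) (.node (.I .com (.c 13748193523587632009 (.c 2737112265 .nil)) .nil) (.I .adp (.c 174695817 (.c 8321 (.c 12801 .nil))) .nil)))))))

noncomputable def c2_217 : Tr := (.node (.node (.node (.node (.node (.node (.I .com (.c 13748196208362033929 (.c 174695817 .nil)) .nil) (.I .jac (.c 12801 (.c 24 (.c 48 .nil))) (.l 545424521 .nil))) (.node (.I .jac (.c 12801 (.c 16 (.c 32 .nil))) (.l 43356739 .nil)) (.I .com (.c 13748196208362033929 (.c 43356739 .nil)) .nil))) (.node (.node (.I .com (.c 13748193523587632009 (.c 43356739 .nil)) .nil) (.I .adp (.c 18497 (.c 553979090 (.c 12801 .nil))) .nil)) (.node (.I .adp (.c 8321 (.c 24 (.c 12801 .nil))) (.l 18497 .nil)) (.I .com (.c 1310925001 (.c 8321 .nil)) (.l 18497 .nil))))) (.node (.node (.node (.I .jac (.c 12801 (.c 16 (.c 32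 .nil))) (.r 24 (.l 18497 .nil))) (.I .ass (.c 18497 (.c 13748196208362033929 (.c 24 .nil))) .nil)) (.node (.I .com (.c 18497 (.c 13748196208362033929 .nil)) (.r 24 .nil)) (.I .ass (.c 18497 (.c 13748193523587632009 (.c 24 .nil))) .nil))) (.node (.node (.I .com (.c 18497 (.c 13748193523587632009 .nil)) (.r 24 .nil)) (.I .com (.c 1310925193 (.c 8321 .nil)) (.l 4673 .nil))) (.node (.I .adp (.c 8321 (.c 48 (.c 12801 .nil))) (.l 4673 .nil)) (.I .jac (.c 14832759703961929 (.c 8 (.c 40 .nil))) (.r 24 .nil)))))) (.node (.node (.node (.node (.I .adp (.c 43356675 (.c 8321 (.c 12865 .nil))) .nil) (.I .adp (.c 18433 (.c 553979090 (.c 12865 .nil))) .nil)) (.node (.I .tdp (.c 8321 (.c 24 (.c 12865 (.c 18433 .nil)))) .nil) (.I .tdb (.c 8 (.c 40 (.c 18433 (.c 24 .nil)))) (.r 8321 .nil)))) (.node (.node (.I .com (.c 13748194865974800137 (.c 2737112329 .nil)) .nil) (.I .jac (.c 12801 (.c 16 (.c 24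 .nil))) (.l 545424777 .nil))) (.node (.I .jac (.c 12801 (.c 32 (.c 48 .nil))) (.l 174695561 .nil)) (.I .com (.c 13748196208362034185 (.c 174695561 .nil)) .nil)))) (.node (.node (.node (.I .jac (.c 12801 (.c 32 (.c 48 .nil))) (.l 35718345 .nil)) (.I .com (.c 13748196208362034185 (.c 35718345 .nil)) .nil)) (.node (.I .jac (.c 12801 (.c 16 (.c 24 .nil))) (.l 43655235 .nil)) (.I .com (.c 13748194865974800137 (.c 43655235 .nil)) .nil))) (.node (.node (.I .com (.c 13748193523587631945 (.c 43655235 .nil)) .nil) (.I .adp (.c 18497 (.c 179551506 (.c 12801 .nil))) .nil)) (.node (.I .adp (.c 4737 (.c 32 (.c 12801 .nil))) (.l 18497 .nil)) (.I .com (.c 1310925065 (.c 4737 .nil)) (.l 18497 .nil))))))) (.node (.node (.node (.node (.node (.I .jac (.c 12801 (.c 16 (.c 24 .nil))) (.r 32 (.l 18497 .nil))) (.I .ass (.c 18497 (.c 13748194865974800137 (.c 32 .nil))) .nil)) (.node (.I .com (.c 18497 (.c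 13748194865974800137 .nil)) (.r 32 .nil)) (.I .tdp (.c 4737 (.c 32 (.c 12801 (.c 18497 .nil)))) .nil))) (.node (.node (.I .tdb (.c 0 (.c 40 (.c 18497 (.c 32 .nil)))) (.r 4737 .nil)) (.I .com (.c 43655171 (.c 4737 .nil)) (.b 12865 .nil))) (.node (.I .adp (.c 43655171 (.c 4737 (.c 12865 .nil))) .nil) (.I .adp (.c 14832759703961865 (.c 32 (.c 12865 .nil))) .nil)))) (.node (.node (.node (.I .jac (.c 14832759703961865 (.c 8 (.c 40 .nil))) (.r 32 .nil)) (.I .adp (.c 18433 (.c 179551506 (.c 12865 .nil))) .nil)) (.node (.I .adp (.c 4737 (.c 32 (.c 12865 .nil))) (.l 18433 .nil)) (.I .tdp (.c 4737 (.c 32 (.c 12865 (.c 18433 .nil)))) .nil))) (.node (.node (.I .tdb (.c 8 (.c 40 (.c 18433 (.c 32 .nil)))) (.r 4737 .nil)) (.I .com (.c 1324066185 (.c 32 .nil)) (.l 169943177 .nil))) (.node (.I .com (.c 1324066185 (.c 32 .nil)) (.l 33587401 .nil)) (.I .com (.c 2379905498923998025 (.c 16 .nil)) (.b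 12801 .nil)))))) (.node (.node (.node (.node (.I .com (.c 2379903823379378185 (.c 16 .nil)) (.b 12801 .nil)) (.I .adp (.c 2379905498923998025 (.c 16 (.c 12801 .nil))) .nil)) (.node (.I .com (.c 1310924937 (.c 2379905498923998025 .nil)) .nil) (.I .jac (.c 1310925001 (.c 8 (.c 32 .nil))) (.b 48 (.r 16 .nil))))) (.node (.node (.I .jac (.c 12801 (.c 545424777 (.c 24 .nil))) (.r 16 .nil)) (.I .jac (.c 12801 (.c 8257 (.c 48 .nil))) (.b 24 (.r 16 .nil)))) (.node (.I .jac (.c 12801 (.c 8 (.c 32 .nil))) (.b 48 (.b 24 (.r 16 .nil)))) (.I .jac (.c 1310925065 (.c 18497 (.c 24 .nil))) (.r 16 .nil))))) (.node (.node (.node (.I .jac (.c 1310925065 (.c 8 (.c 24 .nil))) (.b 48 (.r 16 .nil))) (.I .jac (.c 12801 (.c 174695817 (.c 32 .nil))) (.r 16 .nil))) (.node (.I .jac (.c 12801 (.c 4673 (.c 48 .nil))) (.b 32 (.r 16 .nil))) (.I .jac (.c 12801 (.c 8 (.c 24 .nil))) (.b 48 (.b 32 (.r 16 .nil)))))) (.node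 (.node (.I .adp (.c 2379903823379378185 (.c 16 (.c 12801 .nil))) .nil) (.I .com (.c 1310924937 (.c 2379903823379378185 .nil)) .nil)) (.node (.I .jac (.c 12801 (.c 545424585 (.c 48 .nil))) (.r 16 .nil)) (.I .jac (.c 12801 (.c 8257 (.c 24 .nil))) (.b 48 (.r 16 .nil)))))))))

noncomputable def c2_218 : Tr := (.node (.node (.node (.node (.node (.node (.I .jac (.c 12801 (.c 8 (.c 32 .nil))) (.b 24 (.b 48 (.r 16 .nil)))) (.I .jac (.c 1310925065 (.c 24 (.c 48 .nil))) (.l 2113 .nil))) (.node (.I .com (.c 2306972423229201225 (.c 16 .nil)) (.b 12865 .nil)) (.I .com (.c 59109068451510808457 (.c 16 .nil)) (.b 12865 .nil)))) (.node (.node (.I .adp (.c 2306972423229201225 (.c 16 (.c 12865 .nil))) .nil) (.I .adp (.c 59109068451510808457 (.c 16 (.c 12865 .nil))) .nil)) (.node (.I .jac (.c 59109068451510808457 (.c 8 (.c 40 .nil))) (.r 16 .nil)) (.I .jac (.c 13748194865974800265 (.c 8 (.c 48 .nil)))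 (.r 16 .nil))))) (.node (.node (.node (.I .jac (.c 12801 (.c 2737112329 (.c 24 .nil))) (.r 16 .nil)) (.I .jac (.c 12801 (.c 18497 (.c 32 .nil))) (.b 24 (.r 16 .nil)))) (.node (.I .jac (.c 12801 (.c 8 (.c 48 .nil))) (.b 32 (.b 24 (.r 16 .nil)))) (.I .jac (.c 12801 (.c 174695689 (.c 48 .nil))) (.r 16 .nil)))) (.node (.node (.I .jac (.c 12801 (.c 4673 (.c 32 .nil))) (.b 48 (.r 16 .nil))) (.I .jac (.c 12801 (.c 8 (.c 24 .nil))) (.b 32 (.b 48 (.r 16 .nil))))) (.node (.I .com (.c 1512102896582526849770380112053152562185 (.c 2113 .nil)) .nil) (.I .jac (.c 59109071234951844681 (.c 8 (.c 40 .nil))) (.r 16 .nil)))))) (.node (.node (.node (.node (.I .adp (.c 15246325749294153 (.c 16 (.c 12865 .nil))) .nil) (.I .adp (.c 2049 (.c 43655363 (.c 12865 .nil))) .nil)) (.node (.I .ass (.c 1310924937 (.c 2737112265 (.c 32 .nil))) .nil) (.I .com (.c 24783224170185853388707980014192630350737371035841168755876379416521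 (.c 32 .nil)) .nil))) (.node (.node (.I .tdb (.c 8 (.c 48 (.c 0 (.c 32 .nil)))) (.b 24 (.b 40 (.r 16 .nil)))) (.I .tdb (.c 24 (.c 18497 (.c 0 (.c 32 .nil)))) (.b 40 (.r 16 .nil)))) (.node (.I .tdb (.c 0 (.c 40 (.c 16 (.c 32 .nil)))) (.b 2737112265 .nil)) (.I .jac (.c 43059203 (.c 8 (.c 24 .nil))) (.b 40 (.l 32 .nil)))))) (.node (.node (.node (.I .com (.c 24783224170186708860719149059560031860601918802557700209685079986121 (.c 32 .nil)) .nil) (.I .jac (.c 12801 (.c 24 (.c 48 .nil))) (.l 16 (.l 8257 .nil)))) (.node (.I .ass (.c 13748194865974800393 (.c 8257 (.c 16 .nil))) .nil) (.I .com (.c 1310925065 (.c 18625 .nil)) (.l 2113 .nil)))) (.node (.node (.I .adp (.c 18625 (.c 32 (.c 12801 .nil))) (.l 2113 .nil)) (.I .adp (.c 617611520074185 (.c 16 (.c 12865 .nil))) .nil)) (.node (.I .jac (.c 2718204105 (.c 8 (.c 40 .nil))) (.r 8322 .nil)) (.I .tdp (.c 16 (.c 32 (.c 12865 (.c 2718204105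 .nil)))) .nil)))))) (.node (.node (.node (.node (.node (.I .tdb (.c 24 (.c 18433 (.c 16 (.c 40 .nil)))) (.b 8 (.l 32 .nil))) (.I .tdb (.c 24 (.c 18433 (.c 8 (.c 32 .nil)))) (.b 40 (.r 16 .nil)))) (.node (.I .tdb (.c 0 (.c 48 (.c 8 (.c 32 .nil)))) (.b 24 (.b 40 (.r 16 .nil)))) (.I .tdb (.c 8 (.c 40 (.c 16 (.c 32 .nil)))) (.b 2718204105 .nil)))) (.node (.node (.I .tdp (.c 16 (.c 32 (.c 12865 (.c 169943433 .nil)))) .nil) (.I .tdb (.c 4609 (.c 48 (.c 8 (.c 16 .nil)))) (.b 40 (.l 32 .nil)))) (.node (.I .tdb (.c 0 (.c 24 (.c 8 (.c 16 .nil)))) (.b 48 (.b 40 (.l 32 .nil)))) (.I .tdb (.c 4609 (.c 48 (.c 16 (.c 40 .nil)))) (.b 8 (.l 32 .nil)))))) (.node (.node (.node (.I .tdb (.c 0 (.c 24 (.c 40 (.c 16 .nil)))) (.b 48 (.b 8 (.l 32 .nil)))) (.I .tdb (.c 8 (.c 40 (.c 169943433 (.c 16 .nil)))) (.l 32 .nil))) (.node (.I .tdb (.c 4609 (.c 48 (.c 8 (.c 32 .nil)))) (.b 40 (.r 16 .nil))) (.I .tdb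 (.c 0 (.c 24 (.c 32 (.c 8 .nil)))) (.b 48 (.b 40 (.r 16 .nil)))))) (.node (.node (.I .tdb (.c 8 (.c 40 (.c 169943433 (.c 32 .nil)))) (.r 16 .nil)) (.I .adp (.c 16 (.c 18625 (.c 12865 .nil))) (.l 8193 .nil))) (.node (.I .adp (.c 18625 (.c 32 (.c 12865 .nil))) (.l 2049 .nil)) (.I .com (.c 15038454533713225 (.c 16 .nil)) (.b 12801 .nil)))))) (.node (.node (.node (.node (.I .adp (.c 15038454533713225 (.c 16 (.c 12801 .nil))) .nil) (.I .jac (.c 12801 (.c 24 (.c 32 .nil))) (.l 43059267 .nil))) (.node (.I .com (.c 13748196208362033993 (.c 43059267 .nil)) .nil) (.I .com (.c 13748194865974800265 (.c 43059267 .nil)) .nil))) (.node (.node (.I .jac (.c 12801 (.c 24 (.c 32 .nil))) (.l 16 (.l 18497 .nil))) (.I .com (.c 13748196208362033993 (.c 16 .nil)) (.l 18497 .nil))) (.node (.I .ass (.c 18497 (.c 13748196208362033993 (.c 16 .nil))) .nil) (.I .ass (.c 13748196208362033993 (.c 18497 (.c 16 .nil)))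 .nil)))) (.node (.node (.node (.I .com (.c 18497 (.c 13748196208362033993 .nil)) (.r 16 .nil)) (.I .tdp (.c 16 (.c 8385 (.c 12801 (.c 18497 .nil)))) .nil)) (.node (.I .jac (.c 0 (.c 8 (.c 43954819 .nil))) (.l 8385 .nil)) (.I .tdb (.c 0 (.c 40 (.c 18497 (.c 24 .nil)))) (.b 32 (.r 16 .nil))))) (.node (.node (.I .tdb (.c 0 (.c 40 (.c 18497 (.c 32 .nil)))) (.b 24 (.r 16 .nil))) (.I .tdb (.c 24 (.c 32 (.c 12801 (.c 18497 .nil)))) (.r 16 .nil))) (.node (.I .com (.c 1310925193 (.c 8385 .nil)) (.l 2113 .nil)) (.I .adp (.c 8385 (.c 48 (.c 12801 .nil))) (.l 2113 .nil))))))))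

noncomputable def c2_219 : Tr := (.node (.node (.node (.node (.node (.node (.I .com (.c 15038410136445257 (.c 16 .nil)) (.b 12865 .nil)) (.I .jac (.c 15038410136445257 (.c 8 (.c 40 .nil))) (.r 16 .nil))) (.node (.I .adp (.c 16 (.c 8385 (.c 12865 .nil))) (.l 18433 .nil)) (.I .jac (.c 12865 (.c 24 (.c 32 .nil))) (.l 16 (.l 18433 .nil))))) (.node (.node (.I .tdb (.c 8 (.c 40 (.c 18433 (.c 16 .nil)))) (.l 8385 .nil)) (.I .ass (.c 1310924937 (.c 2737112329 (.c 24 .nil))) .nil)) (.node (.I .jac (.c 8652803 (.c 8 (.c 48 .nil))) (.b 40 (.l 24 .nil))) (.I .jac (.c 8193 (.c 8 (.c 43954819 .nil))) (.l 24 .nil))))) (.node (.node (.node (.I .jac (.c 0 (.c 15456208906582153 (.c 32 .nil))) (.l 24 .nil)) (.I .tdb (.c 32 (.c 18497 (.c 0 (.c 16 .nil)))) (.b 40 (.l 24 .nil)))) (.node (.I .tdb (.c 8 (.c 48 (.c 16 (.c 40 .nil)))) (.b 32 (.b 0 (.l 24 .nil)))) (.I .com (.c 65899851849306263681208984329738137756179310868438678830829513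 (.c 24 .nil)) .nil))) (.node (.node (.I .com (.c 65899851849165435104989593427007623225845541922168823603708873 (.c 24 .nil)) .nil) (.I .com (.c 2306969674129488545 (.c 24 .nil)) .nil)) (.node (.I .tdb (.c 0 (.c 40 (.c 16 (.c 24 .nil)))) (.b 2737112329 .nil)) (.I .jac (.c 15456208906582089 (.c 8 (.c 32 .nil))) (.l 24 .nil)))))) (.node (.node (.node (.node (.I .tdb (.c 0 (.c 40 (.c 16 (.c 24 .nil)))) (.b 545424777 .nil)) (.I .com (.c 13748196208362034185 (.c 2803779 .nil)) .nil)) (.node (.I .com (.c 13748196208362034185 (.c 16 .nil)) (.l 4673 .nil)) (.I .ass (.c 4673 (.c 13748196208362034185 (.c 16 .nil))) .nil))) (.node (.node (.I .com (.c 4673 (.c 13748196208362034185 .nil)) (.r 16 .nil)) (.I .com (.c 1324065993 (.c 16 .nil)) (.l 2718204169 .nil))) (.node (.I .tdb (.c 32 (.c 18433 (.c 8 (.c 16 .nil)))) (.b 40 (.l 24 .nil))) (.I .tdb (.c 0 (.c 48 (.c 8 (.c 16 .nil)))) (.b 32 (.b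 40 (.l 24 .nil))))))) (.node (.node (.node (.I .tdb (.c 32 (.c 18433 (.c 16 (.c 40 .nil)))) (.b 8 (.l 24 .nil))) (.I .tdb (.c 8 (.c 40 (.c 2718204169 (.c 16 .nil)))) (.l 24 .nil))) (.node (.I .tdb (.c 8 (.c 40 (.c 2718204169 (.c 24 .nil)))) (.r 16 .nil)) (.I .com (.c 1324065993 (.c 16 .nil)) (.l 537002377 .nil)))) (.node (.node (.I .tdp (.c 16 (.c 24 (.c 12865 (.c 537002377 .nil)))) .nil) (.I .tdb (.c 48 (.c 8193 (.c 16 (.c 40 .nil)))) (.b 8 (.l 24 .nil)))) (.node (.I .tdb (.c 0 (.c 32 (.c 16 (.c 40 .nil)))) (.b 48 (.b 8 (.l 24 .nil)))) (.I .tdb (.c 8 (.c 40 (.c 537002377 (.c 16 .nil)))) (.l 24 .nil))))))) (.node (.node (.node (.node (.node (.I .tdb (.c 48 (.c 8193 (.c 8 (.c 24 .nil)))) (.b 40 (.r 16 .nil))) (.I .tdb (.c 0 (.c 32 (.c 8 (.c 24 .nil)))) (.b 48 (.b 40 (.r 16 .nil))))) (.node (.I .adp (.c 2803715 (.c 18689 (.c 12865 .nil))) .nil) (.I .adp (.c 16 (.c 18689 (.c 12865 .nil)))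 (.l 4609 .nil)))) (.node (.node (.I .adp (.c 24 (.c 18689 (.c 12865 .nil))) (.l 2049 .nil)) (.I .jac (.c 8193 (.c 8 (.c 48 .nil))) (.b 24 (.b 12929 .nil)))) (.node (.I .jac (.c 169943433 (.c 8 (.c 32 .nil))) (.b 12929 .nil)) (.I .jac (.c 8193 (.c 18497 (.c 24 .nil))) (.b 12929 .nil))))) (.node (.node (.node (.I .jac (.c 8193 (.c 8 (.c 24 .nil))) (.b 48 (.b 12929 .nil))) (.I .jac (.c 0 (.c 174695817 (.c 32 .nil))) (.b 12929 .nil))) (.node (.I .jac (.c 0 (.c 4673 (.c 48 .nil))) (.b 32 (.b 12929 .nil))) (.I .jac (.c 0 (.c 8 (.c 24 .nil))) (.b 48 (.b 32 (.b 12929 .nil)))))) (.node (.node (.I .jac (.c 2718204169 (.c 8 (.c 24 .nil))) (.b 12929 .nil)) (.I .jac (.c 18433 (.c 4673 (.c 32 .nil))) (.b 12929 .nil))) (.node (.I .jac (.c 0 (.c 174695689 (.c 48 .nil))) (.b 12929 .nil)) (.I .jac (.c 0 (.c 4673 (.c 32 .nil))) (.b 48 (.b 12929 .nil))))))) (.node (.node (.node (.node (.I .jac (.c 0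 (.c 8 (.c 24 .nil))) (.b 32 (.b 48 (.b 12929 .nil)))) (.I .jac (.c 8193 (.c 8 (.c 48 .nil))) (.r 24 (.b 12929 .nil)))) (.node (.I .jac (.c 2306972423229201097 (.c 16 (.c 40 .nil))) (.r 24 .nil)) (.I .adp (.c 35473026505609 (.c 24 (.c 12929 .nil))) .nil))) (.node (.node (.I .adp (.c 2306969673777850377 (.c 24 (.c 12929 .nil))) .nil) (.I .adp (.c 4609 (.c 2737112329 (.c 12929 .nil))) .nil)) (.node (.I .jac (.c 18433 (.c 8 (.c 32 .nil))) (.r 24 (.b 12929 .nil))) (.I .jac (.c 0 (.c 8257 (.c 48 .nil))) (.r 24 (.b 12929 .nil)))))) (.node (.node (.node (.I .jac (.c 0 (.c 8 (.c 32 .nil))) (.b 48 (.r 24 (.b 12929 .nil)))) (.I .adp (.c 59109071234951844553 (.c 24 (.c 12929 .nil))) .nil)) (.node (.I .jac (.c 59109071234951844553 (.c 16 (.c 40 .nil))) (.r 24 .nil)) (.I .adp (.c 4609 (.c 545424777 (.c 12929 .nil))) .nil))) (.node (.node (.I .adp (.c 15246236343241801 (.c 24 (.c 12929 .nil)))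 .nil) (.I .adp (.c 4609 (.c 43655235 (.c 12929 .nil))) .nil)) (.node (.I .adp (.c 2737112265 (.c 32 (.c 40 .nil))) (.b 2049 .nil)) (.I .adp (.c 2737112265 (.c 32 (.c 16 .nil))) (.b 12801 .nil))))))))

noncomputable def c2_220 : Tr := (.node (.node (.node (.node (.node (.node (.I .adp (.c 2737112265 (.c 32 (.c 0 .nil))) (.b 12929 .nil)) (.I .com (.c 8193 (.c 2737112265 .nil)) (.b 12929 .nil))) (.node (.I .jac (.c 4609 (.c 8 (.c 48 .nil))) (.r 32 (.b 12929 .nil))) (.I .jac (.c 0 (.c 18497 (.c 24 .nil))) (.r 32 (.b 12929 .nil))))) (.node (.node (.I .jac (.c 0 (.c 8 (.c 48 .nil))) (.b 24 (.r 32 (.b 12929 .nil)))) (.I .adp (.c 231045293249046537 (.c 32 (.c 12929 .nil))) .nil)) (.node (.I .adp (.c 8193 (.c 2737112265 (.c 12929 .nil))) .nil) (.I .adp (.c 174695817 (.c 32 (.c 40 .nil))) (.b 2049 .nil))))) (.node (.node (.node (.I .adp (.c 174695817 (.c 32 (.c 16 .nil))) (.b 12801 .nil))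 (.I .adp (.c 174695817 (.c 32 (.c 0 .nil))) (.b 12929 .nil))) (.node (.I .com (.c 8193 (.c 174695817 .nil)) (.b 12929 .nil)) (.I .jac (.c 0 (.c 4673 (.c 48 .nil))) (.r 32 (.b 12929 .nil))))) (.node (.node (.I .jac (.c 0 (.c 8 (.c 24 .nil))) (.b 48 (.r 32 (.b 12929 .nil)))) (.I .adp (.c 59109068451510808265 (.c 32 (.c 12929 .nil))) .nil)) (.node (.I .adp (.c 35466557976585 (.c 32 (.c 12929 .nil))) .nil) (.I .jac (.c 8193 (.c 16 (.c 40 .nil))) (.r 43356739 .nil)))))) (.node (.node (.node (.node (.I .com (.c 537002185 (.c 18497 .nil)) (.b 12929 .nil)) (.I .com (.c 169943305 (.c 18497 .nil)) (.b 12929 .nil))) (.node (.I .adp (.c 537002185 (.c 18497 (.c 12929 .nil))) .nil) (.I .adp (.c 169943305 (.c 18497 (.c 12929 .nil))) .nil))) (.node (.node (.I .adp (.c 18497 (.c 8386 (.c 40 .nil))) (.b 2049 .nil)) (.I .adp (.c 24 (.c 32 (.c 40 .nil))) (.l 18497 (.b 2049 .nil)))) (.node (.I .tdp (.c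 24 (.c 32 (.c 18497 (.c 40 .nil)))) (.b 2049 .nil)) (.I .tdb (.c 8 (.c 48 (.c 24 (.c 40 .nil)))) (.l 32 (.b 2049 .nil)))))) (.node (.node (.node (.I .adp (.c 18497 (.c 8386 (.c 16 .nil))) (.b 12801 .nil)) (.I .com (.c 8321 (.c 24 .nil)) (.l 18497 (.b 12801 .nil)))) (.node (.I .adp (.c 24 (.c 32 (.c 16 .nil))) (.l 18497 (.b 12801 .nil))) (.I .tdp (.c 24 (.c 32 (.c 18497 (.c 16 .nil)))) (.b 12801 .nil)))) (.node (.node (.I .tdb (.c 8 (.c 48 (.c 16 (.c 24 .nil)))) (.l 32 (.b 12801 .nil))) (.I .com (.c 15038498931046537 (.c 32 .nil)) (.b 12801 .nil))) (.node (.I .tdb (.c 8 (.c 48 (.c 16 (.c 32 .nil)))) (.r 24 (.b 12801 .nil))) (.I .adp (.c 18497 (.c 8386 (.c 0 .nil))) (.b 12929 .nil))))))) (.node (.node (.node (.node (.node (.I .adp (.c 24 (.c 32 (.c 0 .nil))) (.l 18497 (.b 12929 .nil))) (.I .com (.c 8193 (.c 24 .nil)) (.l 18497 (.b 12929 .nil)))) (.node (.I .ass (.c 18497 (.c 8193 (.c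 24 .nil))) (.b 12929 .nil)) (.I .ass (.c 8193 (.c 18497 (.c 24 .nil))) (.b 12929 .nil)))) (.node (.node (.I .com (.c 18497 (.c 8193 .nil)) (.r 24 (.b 12929 .nil))) (.I .ass (.c 18497 (.c 4609 (.c 32 .nil))) (.b 12929 .nil))) (.node (.I .ass (.c 4609 (.c 18497 (.c 32 .nil))) (.b 12929 .nil)) (.I .com (.c 18497 (.c 4609 .nil)) (.r 32 (.b 12929 .nil)))))) (.node (.node (.node (.I .jac (.c 0 (.c 8 (.c 48 .nil))) (.r 8386 (.b 12929 .nil))) (.I .tdp (.c 24 (.c 32 (.c 18497 (.c 0 .nil)))) (.b 12929 .nil))) (.node (.I .com (.c 59555558875593 (.c 32 .nil)) (.b 12929 .nil)) (.I .tdb (.c 8 (.c 48 (.c 0 (.c 32 .nil)))) (.r 24 (.b 12929 .nil))))) (.node (.node (.I .adp (.c 15246191640313993 (.c 24 (.c 12929 .nil))) .nil) (.I .jac (.c 15246191640313993 (.c 16 (.c 40 .nil))) (.r 24 .nil))) (.node (.I .adp (.c 580749782704585 (.c 24 (.c 12929 .nil))) .nil) (.I .adp (.c 15038410136445065 (.c 32 (.c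 12929 .nil))) .nil))))) (.node (.node (.node (.node (.I .adp (.c 59555558875593 (.c 32 (.c 12929 .nil))) .nil) (.I .jac (.c 2718203977 (.c 16 (.c 40 .nil))) (.r 8386 .nil))) (.node (.I .tdp (.c 24 (.c 32 (.c 12929 (.c 2718203977 .nil)))) .nil) (.I .tdb (.c 8 (.c 18433 (.c 16 (.c 24 .nil)))) (.b 40 (.l 32 .nil))))) (.node (.node (.I .tdb (.c 0 (.c 48 (.c 16 (.c 24 .nil)))) (.b 8 (.b 40 (.l 32 .nil)))) (.I .tdb (.c 16 (.c 40 (.c 2718203977 (.c 24 .nil)))) (.l 32 .nil))) (.node (.I .tdb (.c 16 (.c 40 (.c 2718203977 (.c 32 .nil)))) (.r 24 .nil)) (.I .tdb (.c 16 (.c 40 (.c 24 (.c 32 .nil)))) (.b 2718203977 .nil))))) (.node (.node (.node (.I .adp (.c 2105737 (.c 8386 (.c 12929 .nil))) .nil) (.I .tdb (.c 16 (.c 40 (.c 24 (.c 32 .nil)))) (.l 2105737 .nil))) (.node (.I .adp (.c 24 (.c 32 (.c 12929 .nil))) (.l 2105737 .nil)) (.I .tdb (.c 513 (.c 48 (.c 16 (.c 24 .nil)))) (.b 40 (.l 32 .nil)))))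 (.node (.node (.I .tdb (.c 0 (.c 8 (.c 16 (.c 24 .nil)))) (.b 48 (.b 40 (.l 32 .nil)))) (.I .tdb (.c 513 (.c 48 (.c 16 (.c 32 .nil)))) (.b 40 (.r 24 .nil)))) (.node (.I .tdb (.c 0 (.c 8 (.c 16 (.c 32 .nil)))) (.b 48 (.b 40 (.r 24 .nil)))) (.I .tdb (.c 16 (.c 40 (.c 24 (.c 32 .nil)))) (.b 2105737 .nil))))))))

noncomputable def c2_221 : Tr := (.node (.node (.node (.node (.node (.node (.I .adp (.c 8786435 (.c 18497 (.c 12929 .nil))) .nil) (.I .jac (.c 8786435 (.c 16 (.c 40 .nil))) (.r 18497 .nil))) (.node (.I .adp (.c 8193 (.c 2737260242 (.c 12929 .nil))) .nil) (.I .jac (.c 8193 (.c 16 (.c 40 .nil))) (.r 2737260242 .nil)))) (.node (.node (.I .tdp (.c 18497 (.c 24 (.c 8193 (.c 12929 .nil)))) .nil) (.I .adp (.c 18497 (.c 32 (.c 12929 .nil))) (.l 4609 .nil))) (.node (.I .jac (.c 4609 (.c 8 (.c 32 .nil))) (.r 48 (.b 12929 .nil))) (.I .adp (.c 18433 (.c 545424585 (.c 12929 .nil))) .nil))))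 (.node (.node (.node (.I .adp (.c 231045815314584265 (.c 48 (.c 12929 .nil))) .nil) (.I .adp (.c 2306969673777850185 (.c 48 (.c 12929 .nil))) .nil)) (.node (.I .adp (.c 35468714087241 (.c 48 (.c 12929 .nil))) .nil) (.I .adp (.c 18433 (.c 174695689 (.c 12929 .nil))) .nil))) (.node (.node (.I .adp (.c 18433 (.c 8786499 (.c 12929 .nil))) .nil) (.I .com (.c 169943433 (.c 8257 .nil)) (.b 12929 .nil))) (.node (.I .adp (.c 169943433 (.c 8257 (.c 12929 .nil))) .nil) (.I .com (.c 43356675 (.c 8257 .nil)) (.b 12929 .nil)))))) (.node (.node (.node (.node (.I .jac (.c 14629225721520457 (.c 16 (.c 40 .nil))) (.r 24 .nil)) (.I .adp (.c 43356675 (.c 8257 (.c 12929 .nil))) .nil)) (.node (.I .adp (.c 8257 (.c 24 (.c 12929 .nil))) (.l 18433 .nil)) (.I .com (.c 43655171 (.c 4673 .nil)) (.b 12929 .nil)))) (.node (.node (.I .adp (.c 43655171 (.c 4673 (.c 12929 .nil))) .nil) (.I .adp (.c 18433 (.c 174733074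 (.c 12929 .nil))) .nil)) (.node (.I .tdp (.c 4673 (.c 32 (.c 12929 (.c 18433 .nil)))) .nil) (.I .tdb (.c 0 (.c 48 (.c 16 (.c 32 .nil)))) (.b 40 (.r 4673 .nil)))))) (.node (.node (.node (.I .tdb (.c 16 (.c 40 (.c 18433 (.c 32 .nil)))) (.r 4673 .nil)) (.I .com (.c 1337272713 (.c 32 .nil)) (.l 2105545 .nil))) (.node (.I .jac (.c 1310925001 (.c 8321 (.c 48 .nil))) (.l 8 .nil)) (.I .jac (.c 1310925001 (.c 16 (.c 32 .nil))) (.b 48 (.l 8 .nil))))) (.node (.node (.I .com (.c 18291648502882414793990884575208062674675073637948631312895131832587142813795145 (.c 8 .nil)) .nil) (.I .com (.c 18291641358826142434079840242291290432985853501188249876716313471761068893338633 (.c 8 .nil)) .nil)) (.node (.I .jac (.c 1310925065 (.c 18561 (.c 24 .nil))) (.l 8 .nil)) (.I .com (.c 18291648502882415134592803966624182683633491467101037772051102322018599703773961 (.c 8 .nil)) .nil)))))) (.node (.node (.node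 (.node (.node (.I .com (.c 18291641358826142434079840242291290436082640233389264807381943222108356958307209 (.c 8 .nil)) .nil) (.I .com (.c 18291634214772311848613561389554137114432794579945185498779786200241674057778057 (.c 8 .nil)) .nil)) (.node (.I .com (.c 18291634214772312189215281240800328709988871240813805941097277736402772641306633 (.c 8 .nil)) .nil) (.I .jac (.c 8520195 (.c 24 (.c 48 .nil))) (.b 12929 .nil)))) (.node (.node (.I .tdb (.c 32 (.c 18625 (.c 0 (.c 8 .nil)))) (.b 12929 .nil)) (.I .com (.c 2306972423229201225 (.c 8 .nil)) (.b 12929 .nil))) (.node (.I .com (.c 59109068451510808457 (.c 8 .nil)) (.b 12929 .nil)) (.I .com (.c 231046163358604169 (.c 8 .nil)) (.b 12929 .nil))))) (.node (.node (.node (.I .adp (.c 2306972423229201225 (.c 8 (.c 12929 .nil))) .nil) (.I .adp (.c 59109068451510808457 (.c 8 (.c 12929 .nil))) .nil)) (.node (.I .adp (.c 231046163358604169 (.c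 8 (.c 12929 .nil))) .nil) (.I .jac (.c 13748194865974800265 (.c 16 (.c 48 .nil))) (.l 8 .nil)))) (.node (.node (.I .com (.c 18291634214772311848613561389554137111336008452490700495644251575100373087239177 (.c 8 .nil)) .nil) (.I .jac (.c 8 (.c 16 (.c 40 .nil))) (.l 59109071234951844681 .nil))) (.node (.I .adp (.c 513 (.c 43655363 (.c 12929 .nil))) .nil) (.I .tdb (.c 16 (.c 48 (.c 0 (.c 32 .nil)))) (.b 24 (.b 40 (.l 8 .nil)))))))) (.node (.node (.node (.node (.I .jac (.c 1310925001 (.c 16 (.c 48 .nil))) (.r 32 (.l 8 .nil))) (.I .ass (.c 8 (.c 1512102896582526877926683197569543635721 (.c 32 .nil))) .nil)) (.node (.I .ass (.c 1512102896582526877926683197569543635721 (.c 8 (.c 32 .nil))) .nil) (.I .com (.c 8 (.c 1512102896582526877926683197569543635721 .nil)) (.r 32 .nil)))) (.node (.node (.I .ass (.c 8 (.c 1512102896582526821614077026536761750537 (.c 32 .nil))) .nil) (.I .ass (.c 1512102896582526821614077026536761750537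 (.c 8 (.c 32 .nil))) .nil)) (.node (.I .com (.c 8 (.c 1512102896582526821614077026536761750537 .nil)) (.r 32 .nil)) (.I .jac (.c 2728451 (.c 16 (.c 48 .nil))) (.b 40 (.l 32 .nil)))))) (.node (.node (.node (.I .tdb (.c 16 (.c 48 (.c 0 (.c 8 .nil)))) (.b 24 (.b 40 (.l 32 .nil)))) (.I .tdb (.c 0 (.c 40 (.c 2756085961 (.c 8 .nil)))) (.l 32 .nil))) (.node (.I .tdb (.c 24 (.c 18561 (.c 0 (.c 8 .nil)))) (.b 40 (.l 32 .nil))) (.I .tdb (.c 24 (.c 18561 (.c 8 (.c 40 .nil)))) (.b 0 (.l 32 .nil))))) (.node (.node (.I .tdb (.c 0 (.c 40 (.c 179513737 (.c 32 .nil)))) (.l 8 .nil)) (.I .jac (.c 12801 (.c 4737 (.c 48 .nil))) (.r 32 (.l 8 .nil)))) (.node (.I .jac (.c 12801 (.c 16 (.c 24 .nil))) (.b 48 (.r 32 (.l 8 .nil)))) (.I .ass (.c 1512102601296135255437272766182275864585 (.c 8 (.c 32 .nil))) .nil)))))))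

noncomputable def c2_222 : Tr := (.node (.node (.node (.node (.node (.node (.I .jac (.c 42762755 (.c 16 (.c 24 .nil))) (.b 40 (.l 32 .nil))) (.I .com (.c 13748194865974800393 (.c 8321 .nil)) (.l 8 .nil))) (.node (.I .adp (.c 617611520074185 (.c 8 (.c 12929 .nil))) .nil) (.I .jac (.c 8 (.c 16 (.c 40 .nil))) (.l 617611520074185 .nil)))) (.node (.node (.I .tdb (.c 24 (.c 18433 (.c 8 (.c 40 .nil)))) (.b 16 (.l 32 .nil))) (.I .tdb (.c 24 (.c 18433 (.c 16 (.c 32 .nil)))) (.b 40 (.r 8 .nil)))) (.node (.I .tdb (.c 0 (.c 48 (.c 16 (.c 32 .nil)))) (.b 24 (.b 40 (.r 8 .nil)))) (.I .adp (.c 8 (.c 18625 (.c 12929 .nil))) (.l 8193 .nil))))) (.node (.node (.node (.I .ass (.c 8 (.c 13748193523587632137 (.c 8385 .nil))) .nil) (.I .com (.c 8 (.c 13748193523587632137 .nil)) (.r 8385 .nil))) (.node (.I .tdb (.c 0 (.c 40 (.c 18561 (.c 8 .nil)))) (.l 8385 .nil)) (.I .tdb (.c 16 (.c 48 (.c 8 (.c 40 .nil))))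 (.b 0 (.l 8385 .nil))))) (.node (.node (.I .com (.c 15038410136445257 (.c 8 .nil)) (.b 12929 .nil)) (.I .adp (.c 15038410136445257 (.c 8 (.c 12929 .nil))) .nil)) (.node (.I .jac (.c 8 (.c 16 (.c 40 .nil))) (.l 15038410136445257 .nil)) (.I .jac (.c 15038410136445257 (.c 16 (.c 40 .nil))) (.r 8 .nil)))))) (.node (.node (.node (.node (.I .adp (.c 18433 (.c 562465866 (.c 12929 .nil))) .nil) (.I .adp (.c 8 (.c 8385 (.c 12929 .nil))) (.l 18433 .nil))) (.node (.I .jac (.c 8 (.c 16 (.c 40 .nil))) (.r 8385 (.l 18433 .nil))) (.I .tdp (.c 8 (.c 8385 (.c 12929 (.c 18433 .nil)))) .nil))) (.node (.node (.I .tdb (.c 0 (.c 48 (.c 8 (.c 40 .nil)))) (.b 16 (.l 8385 .nil))) (.I .tdb (.c 16 (.c 48 (.c 0 (.c 24 .nil)))) (.b 32 (.b 40 (.l 8 .nil))))) (.node (.I .tdb (.c 32 (.c 18561 (.c 0 (.c 24 .nil)))) (.b 40 (.l 8 .nil))) (.I .com (.c 26186512359090472543188603966562695456857129399664195120249449266121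 (.c 8 .nil)) .nil)))) (.node (.node (.node (.I .ass (.c 8 (.c 1512103191868961706263182477688868913929 (.c 24 .nil))) .nil) (.I .com (.c 8 (.c 1512103191868961706263182477688868913929 .nil)) (.r 24 .nil))) (.node (.I .ass (.c 8 (.c 1512102601296135297671723270643481494409 (.c 24 .nil))) .nil) (.I .ass (.c 1512102601296135297671723270643481494409 (.c 8 (.c 24 .nil))) .nil))) (.node (.node (.I .com (.c 8 (.c 1512102601296135297671723270643481494409 .nil)) (.r 24 .nil)) (.I .ass (.c 8 (.c 1512103191868961649950570808237977416713 (.c 24 .nil))) .nil)) (.node (.I .com (.c 8 (.c 1512103191868961649950570808237977416713 .nil)) (.r 24 .nil)) (.I .ass (.c 8 (.c 1310925001 (.c 2756086025 .nil))) .nil)))))) (.node (.node (.node (.node (.node (.I .ass (.c 1310925001 (.c 8 (.c 2756086025 .nil))) .nil) (.I .com (.c 8 (.c 1310925001 .nil)) (.r 2756086025 .nil))) (.node (.I .tdb (.c 16 (.c 48 (.c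 0 (.c 8 .nil)))) (.b 32 (.b 40 (.l 24 .nil)))) (.I .com (.c 58240646186319479625272581884954800165420559385987583829832649 (.c 24 .nil)) .nil))) (.node (.node (.I .com (.c 58240646186216787513332372176437605379642580613035000544560073 (.c 24 .nil)) .nil) (.I .ass (.c 8 (.c 1512102601296135269515422934336011009033 (.c 24 .nil))) .nil)) (.node (.I .ass (.c 1512102601296135269515422934336011009033 (.c 8 (.c 24 .nil))) .nil) (.I .com (.c 8 (.c 1512102601296135269515422934336011009033 .nil)) (.r 24 .nil))))) (.node (.node (.node (.I .ass (.c 8 (.c 13748196208362034185 (.c 4737 .nil))) .nil) (.I .com (.c 8 (.c 13748196208362034185 .nil)) (.r 4737 .nil))) (.node (.I .com (.c 2728451 (.c 18689 .nil)) (.b 12929 .nil)) (.I .adp (.c 2718204169 (.c 4674 (.c 12929 .nil))) .nil))) (.node (.node (.I .tdb (.c 16 (.c 40 (.c 8 (.c 24 .nil)))) (.l 2718204169 .nil)) (.I .adp (.c 8 (.c 24 (.c 12929 .nil)))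 (.l 2718204169 .nil))) (.node (.I .jac (.c 8 (.c 16 (.c 40 .nil))) (.r 24 (.l 2718204169 .nil))) (.I .jac (.c 2718204169 (.c 16 (.c 40 .nil))) (.r 4674 .nil)))))) (.node (.node (.node (.node (.I .tdp (.c 8 (.c 24 (.c 12929 (.c 2718204169 .nil)))) .nil) (.I .tdb (.c 0 (.c 48 (.c 8 (.c 40 .nil)))) (.b 32 (.b 16 (.l 24 .nil))))) (.node (.I .tdb (.c 32 (.c 18433 (.c 16 (.c 24 .nil)))) (.b 40 (.r 8 .nil))) (.I .tdb (.c 0 (.c 48 (.c 16 (.c 24 .nil)))) (.b 32 (.b 40 (.r 8 .nil)))))) (.node (.node (.I .tdb (.c 16 (.c 40 (.c 2718204169 (.c 24 .nil)))) (.r 8 .nil)) (.I .tdb (.c 48 (.c 8193 (.c 8 (.c 40 .nil)))) (.b 16 (.l 24 .nil)))) (.node (.I .tdb (.c 0 (.c 32 (.c 8 (.c 40 .nil)))) (.b 48 (.b 16 (.l 24 .nil)))) (.I .tdb (.c 16 (.c 40 (.c 537002377 (.c 8 .nil)))) (.l 24 .nil))))) (.node (.node (.node (.I .tdb (.c 16 (.c 40 (.c 8 (.c 24 .nil)))) (.b 537002377 .nil)) (.I .adp (.c 2728451 (.c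 18689 (.c 12929 .nil))) .nil)) (.node (.I .adp (.c 8 (.c 18689 (.c 12929 .nil))) (.l 4609 .nil)) (.I .adp (.c 18433 (.c 8386 (.c 40 .nil))) (.b 2113 .nil)))) (.node (.node (.I .adp (.c 24 (.c 32 (.c 40 .nil))) (.l 18433 (.b 2113 .nil))) (.I .tdp (.c 24 (.c 32 (.c 18433 (.c 40 .nil)))) (.b 2113 .nil))) (.node (.I .tdb (.c 0 (.c 48 (.c 24 (.c 40 .nil)))) (.l 32 (.b 2113 .nil))) (.I .adp (.c 18433 (.c 8386 (.c 16 .nil))) (.b 12865 .nil))))))))

noncomputable def c2_223 : Tr := (.node (.node (.node (.node (.node (.node (.I .com (.c 8321 (.c 24 .nil)) (.l 18433 (.b 12865 .nil))) (.I .adp (.c 24 (.c 32 (.c 16 .nil))) (.l 18433 (.b 12865 .nil)))) (.node (.I .tdp (.c 24 (.c 32 (.c 18433 (.c 16 .nil)))) (.b 12865 .nil)) (.I .tdb (.c 0 (.c 48 (.c 16 (.c 24 .nil)))) (.l 32 (.b 12865 .nil))))) (.node (.node (.I .com (.c 15038498931046473 (.c 32 .nil)) (.b 12865 .nil)) (.I .tdb (.c 0 (.c 48 (.c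 16 (.c 32 .nil)))) (.r 24 (.b 12865 .nil)))) (.node (.I .adp (.c 18433 (.c 8386 (.c 8 .nil))) (.b 12929 .nil)) (.I .com (.c 8257 (.c 24 .nil)) (.l 18433 (.b 12929 .nil)))))) (.node (.node (.node (.I .adp (.c 24 (.c 32 (.c 8 .nil))) (.l 18433 (.b 12929 .nil))) (.I .tdp (.c 24 (.c 32 (.c 18433 (.c 8 .nil)))) (.b 12929 .nil))) (.node (.I .tdb (.c 0 (.c 48 (.c 8 (.c 24 .nil)))) (.l 32 (.b 12929 .nil))) (.I .com (.c 15038454533712969 (.c 32 .nil)) (.b 12929 .nil)))) (.node (.node (.I .tdb (.c 0 (.c 48 (.c 8 (.c 32 .nil)))) (.r 24 (.b 12929 .nil))) (.I .jac (.c 0 (.c 8 (.c 40 .nil))) (.r 2454554348984163145 .nil))) (.node (.I .jac (.c 1324066057 (.c 18561 (.c 24 .nil))) (.l 0 .nil)) (.I .jac (.c 1324066057 (.c 16 (.c 48 .nil))) (.b 24 (.l 0 .nil))))))) (.node (.node (.node (.node (.I .jac (.c 1324065993 (.c 16 (.c 48 .nil))) (.b 32 (.l 0 .nil))) (.I .jac (.c 12865 (.c 16 (.c 48 .nil)))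 (.b 24 (.b 32 (.l 0 .nil))))) (.node (.I .jac (.c 0 (.c 8 (.c 40 .nil))) (.r 60768078595370348425 .nil)) (.I .jac (.c 0 (.c 8 (.c 40 .nil))) (.r 257801454173641609 .nil)))) (.node (.node (.I .adp (.c 0 (.c 2454552647364603913 (.c 12865 .nil))) .nil) (.I .jac (.c 12865 (.c 553912521 (.c 48 .nil))) (.l 0 .nil))) (.node (.I .jac (.c 12865 (.c 8321 (.c 24 .nil))) (.b 48 (.l 0 .nil))) (.I .jac (.c 12865 (.c 16 (.c 32 .nil))) (.b 24 (.b 48 (.l 0 .nil))))))) (.node (.node (.node (.I .jac (.c 59934268409707442057 (.c 16 (.c 40 .nil))) (.l 0 .nil)) (.I .adp (.c 0 (.c 244149027818380169 (.c 12929 .nil))) .nil)) (.node (.I .jac (.c 0 (.c 16 (.c 40 .nil))) (.r 244149027818380169 .nil)) (.I .jac (.c 1324065993 (.c 18561 (.c 32 .nil))) (.l 0 .nil)))) (.node (.node (.I .jac (.c 12865 (.c 16 (.c 48 .nil))) (.b 32 (.b 24 (.l 0 .nil)))) (.I .jac (.c 0 (.c 8 (.c 40 .nil))) (.r 60768081417602405193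 .nil))) (.node (.I .jac (.c 12865 (.c 179513609 (.c 48 .nil))) (.l 0 .nil)) (.I .jac (.c 12865 (.c 4737 (.c 32 .nil))) (.b 48 (.l 0 .nil)))))))) (.node (.node (.node (.node (.node (.I .jac (.c 12865 (.c 16 (.c 24 .nil))) (.b 32 (.b 48 (.l 0 .nil)))) (.I .jac (.c 0 (.c 8 (.c 40 .nil))) (.r 257801086529639433 .nil))) (.node (.I .adp (.c 0 (.c 59934271212510434121 (.c 12929 .nil))) .nil) (.I .adp (.c 0 (.c 15246325749294281 (.c 12865 .nil))) .nil))) (.node (.node (.I .jac (.c 0 (.c 8 (.c 40 .nil))) (.r 15246325749294281 .nil)) (.I .adp (.c 0 (.c 15246281046235401 (.c 12865 .nil))) .nil)) (.node (.I .jac (.c 0 (.c 8 (.c 40 .nil))) (.r 15246281046235401 .nil)) (.I .adp (.c 0 (.c 15246236343241993 (.c 12929 .nil))) .nil)))) (.node (.node (.node (.I .jac (.c 0 (.c 16 (.c 40 .nil))) (.r 15246236343241993 .nil)) (.I .adp (.c 0 (.c 59934268431604340178 (.c 12929 .nil))) .nil)) (.node (.I .tdb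 (.c 24 (.c 18497 (.c 16 (.c 32 .nil)))) (.b 40 (.l 0 .nil))) (.I .tdb (.c 8 (.c 48 (.c 16 (.c 32 .nil)))) (.b 24 (.b 40 (.l 0 .nil)))))) (.node (.node (.I .jac (.c 0 (.c 16 (.c 40 .nil))) (.r 59934268431604340178 .nil)) (.I .tdp (.c 2737112265 (.c 32 (.c 0 (.c 12929 .nil)))) .nil)) (.node (.I .tdb (.c 16 (.c 40 (.c 0 (.c 32 .nil)))) (.r 2737112265 .nil)) (.I .tdb (.c 16 (.c 40 (.c 0 (.c 32 .nil)))) (.b 2737112265 .nil)))))) (.node (.node (.node (.node (.I .tdb (.c 16 (.c 40 (.c 0 (.c 32 .nil)))) (.b 174695817 .nil)) (.I .tdp (.c 8257 (.c 18625 (.c 0 (.c 12929 .nil)))) .nil)) (.node (.I .adp (.c 0 (.c 15038498931046729 (.c 12865 .nil))) .nil) (.I .jac (.c 0 (.c 8 (.c 40 .nil))) (.r 15038498931046729 .nil)))) (.node (.node (.I .jac (.c 12865 (.c 24 (.c 32 .nil))) (.l 18561 (.l 0 .nil))) (.I .adp (.c 0 (.c 15038454533713225 (.c 12929 .nil))) .nil)) (.node (.I .jac (.c 0 (.c 16 (.c 40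 .nil))) (.r 15038454533713225 .nil)) (.I .adp (.c 0 (.c 2737327130 (.c 12929 .nil))) .nil)))) (.node (.node (.node (.I .adp (.c 18497 (.c 8385 (.c 12929 .nil))) (.l 0 .nil)) (.I .jac (.c 0 (.c 16 (.c 40 .nil))) (.r 2737327130 .nil))) (.node (.I .tdp (.c 18497 (.c 8385 (.c 0 (.c 12929 .nil)))) .nil) (.I .tdb (.c 16 (.c 40 (.c 18497 (.c 0 .nil)))) (.l 8385 .nil)))) (.node (.node (.I .tdb (.c 16 (.c 48 (.c 0 (.c 40 .nil)))) (.b 32 (.b 8 (.l 24 .nil)))) (.I .tdb (.c 8 (.c 40 (.c 0 (.c 24 .nil)))) (.b 2756086025 .nil))) (.node (.I .jac (.c 12865 (.c 32 (.c 48 .nil))) (.l 4737 (.l 0 .nil))) (.I .adp (.c 2737112329 (.c 24 (.c 12929 .nil))) (.l 0 .nil))))))))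

noncomputable def c2_224 : Tr := (.node (.node (.node (.node (.node (.node (.I .tdb (.c 8 (.c 48 (.c 0 (.c 40 .nil)))) (.b 32 (.b 16 (.l 24 .nil)))) (.I .tdb (.c 32 (.c 18497 (.c 0 (.c 40 .nil)))) (.b 16 (.l 24 .nil)))) (.node (.I .tdb (.c 16 (.c 40 (.c 2737112329 (.c 0 .nil)))) (.l 24 .nil)) (.I .adp (.c 2049 (.c 40 (.c 2379905498923998025 .nil))) .nil))) (.node (.node (.I .adp (.c 2049 (.c 40 (.c 59934268409707442057 .nil))) .nil) (.I .adp (.c 16 (.c 40 (.c 0 .nil))) (.b 244149027818380169 .nil))) (.node (.I .com (.c 12801 (.c 16 .nil)) (.b 244149027818380169 .nil)) (.I .adp (.c 12801 (.c 16 (.c 244149027818380169 .nil))) .nil)))) (.node (.node (.node (.I .adp (.c 2049 (.c 40 (.c 2379903823379378185 .nil))) .nil) (.I .adp (.c 12865 (.c 16 (.c 2306972423229201225 .nil))) .nil)) (.node (.I .adp (.c 2113 (.c 40 (.c 2306972423229201225 .nil))) .nil) (.I .adp (.c 16 (.c 40 (.c 8 .nil)))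 (.b 59109068451510808457 .nil)))) (.node (.node (.I .com (.c 12865 (.c 16 .nil)) (.b 59109068451510808457 .nil)) (.I .com (.c 27951055785643122908012690443949941766921 (.c 12865 .nil)) .nil)) (.node (.I .adp (.c 2113 (.c 40 (.c 59109068451510808457 .nil))) .nil) (.I .com (.c 27951055785643122908012690443949941767113 (.c 2113 .nil)) .nil))))) (.node (.node (.node (.node (.I .adp (.c 16 (.c 40 (.c 8 .nil))) (.b 231046163358604169 .nil)) (.I .com (.c 12865 (.c 16 .nil)) (.b 231046163358604169 .nil))) (.node (.I .adp (.c 12865 (.c 16 (.c 231046163358604169 .nil))) .nil) (.I .adp (.c 16 (.c 40 (.c 0 .nil))) (.b 59934271212510434121 .nil)))) (.node (.node (.I .com (.c 12801 (.c 16 .nil)) (.b 59934271212510434121 .nil)) (.I .adp (.c 12801 (.c 16 (.c 59934271212510434121 .nil))) .nil)) (.node (.I .adp (.c 2049 (.c 40 (.c 59934271212510434121 .nil))) .nil) (.I .adp (.c 16 (.c 40 (.c 0 .nil)))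 (.b 244148670041478153 .nil))))) (.node (.node (.node (.I .com (.c 12801 (.c 16 .nil)) (.b 244148670041478153 .nil)) (.I .adp (.c 12801 (.c 16 (.c 244148670041478153 .nil))) .nil)) (.node (.I .adp (.c 16 (.c 40 (.c 8 .nil))) (.b 59109071234951844681 .nil)) (.I .com (.c 12865 (.c 16 .nil)) (.b 59109071234951844681 .nil)))) (.node (.node (.I .adp (.c 12865 (.c 16 (.c 59109071234951844681 .nil))) .nil) (.I .com (.c 27951058418068892742902176168037983934409 (.c 2113 .nil)) .nil)) (.node (.I .adp (.c 16 (.c 40 (.c 8 .nil))) (.b 231045815314584585 .nil)) (.I .com (.c 12865 (.c 16 .nil)) (.b 231045815314584585 .nil))))))) (.node (.node (.node (.node (.node (.I .adp (.c 12865 (.c 16 (.c 231045815314584585 .nil))) .nil) (.I .adp (.c 12801 (.c 16 (.c 15246325749294217 .nil))) .nil)) (.node (.I .adp (.c 2737112265 (.c 32 (.c 1310924937 .nil))) .nil) (.I .adp (.c 8257 (.c 18625 (.c 1310924937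 .nil))) .nil))) (.node (.node (.I .jac (.c 1310924937 (.c 24 (.c 48 .nil))) (.l 8257 .nil)) (.I .adp (.c 2737112265 (.c 32 (.c 33587529 .nil))) .nil)) (.node (.I .adp (.c 8257 (.c 18625 (.c 33587529 .nil))) .nil) (.I .jac (.c 2718204105 (.c 8 (.c 40 .nil))) (.b 16 (.r 32 .nil)))))) (.node (.node (.node (.I .jac (.c 2718204105 (.c 8 (.c 16 .nil))) (.b 40 (.r 32 .nil))) (.I .adp (.c 169943433 (.c 32 (.c 35718473 .nil))) .nil)) (.node (.I .adp (.c 8193 (.c 18625 (.c 35718473 .nil))) .nil) (.I .jac (.c 20891651 (.c 18497 (.c 24 .nil))) (.r 32 .nil)))) (.node (.node (.I .adp (.c 8257 (.c 18625 (.c 20891651 .nil))) .nil) (.I .tdb (.c 24 (.c 48 (.c 8 (.c 32 .nil)))) (.b 1311027346 .nil))) (.node (.I .adp (.c 12801 (.c 16 (.c 617620517416393 .nil))) .nil) (.I .tdb (.c 24 (.c 18497 (.c 16 (.c 32 .nil)))) (.l 12801 .nil)))))) (.node (.node (.node (.node (.I .ass (.c 1512102896582526877926683197569543635657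 (.c 32 (.c 16 .nil))) .nil) (.I .com (.c 16 (.c 32 .nil)) (.l 1512102896582526877926683197569543635657 .nil))) (.node (.I .ass (.c 1512102896582526807535925483778566443017 (.c 32 (.c 16 .nil))) .nil) (.I .com (.c 16 (.c 32 .nil)) (.l 1512102896582526807535925483778566443017 .nil)))) (.node (.node (.I .tdb (.c 0 (.c 40 (.c 16 (.c 32 .nil)))) (.r 2737112265 .nil)) (.I .tdb (.c 4673 (.c 48 (.c 16 (.c 32 .nil)))) (.l 12801 .nil))) (.node (.I .tdb (.c 8 (.c 24 (.c 32 (.c 16 .nil)))) (.b 48 (.l 12801 .nil))) (.I .adp (.c 12801 (.c 16 (.c 2775191058 .nil))) .nil)))) (.node (.node (.node (.I .adp (.c 8257 (.c 18625 (.c 16 .nil))) (.l 12801 .nil)) (.I .jac (.c 16 (.c 24 (.c 48 .nil))) (.l 8257 (.l 12801 .nil)))) (.node (.I .adp (.c 8257 (.c 18625 (.c 12801 .nil))) (.r 16 .nil)) (.I .jac (.c 12801 (.c 24 (.c 48 .nil))) (.l 8257 (.r 16 .nil))))) (.node (.node (.I .com (.c 13748198893136698185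 (.c 8257 .nil)) (.r 16 .nil)) (.I .com (.c 13748194865974800393 (.c 8257 .nil)) (.r 16 .nil))) (.node (.I .tdp (.c 8257 (.c 18625 (.c 16 (.c 12801 .nil)))) .nil) (.I .jac (.c 0 (.c 598976858557897 (.c 24 .nil))) (.r 40 .nil))))))))

noncomputable def c2_225 : Tr := (.node (.node (.node (.node (.node (.node (.I .jac (.c 0 (.c 18497 (.c 8786563 .nil))) (.r 40 .nil)) (.I .jac (.c 0 (.c 8 (.c 48 .nil))) (.b 8786563 (.r 40 .nil)))) (.node (.I .tdb (.c 8 (.c 48 (.c 0 (.c 32 .nil)))) (.b 24 (.b 16 (.r 40 .nil)))) (.I .jac (.c 33587401 (.c 8 (.c 48 .nil))) (.r 32 (.r 40 .nil))))) (.node (.node (.I .ass (.c 651591722123579838450590277894857 (.c 32 (.c 40 .nil))) .nil) (.I .ass (.c 651581789439159100050097116709705 (.c 32 (.c 40 .nil))) .nil)) (.node (.I .ass (.c 651591722123533630921387187294217 (.c 32 (.c 40 .nil))) .nil) (.I .jac (.c 0 (.c 617629514823817 (.c 48 .nil))) (.r 40 .nil)))))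 (.node (.node (.node (.I .jac (.c 0 (.c 8 (.c 8786563 .nil))) (.b 48 (.r 40 .nil))) (.I .ass (.c 651581789439131375743888515045385 (.c 32 (.c 40 .nil))) .nil)) (.node (.I .tdb (.c 24 (.c 48 (.c 0 (.c 8 .nil)))) (.b 32 (.b 16 (.r 40 .nil)))) (.I .jac (.c 8 (.c 8786563 (.c 48 .nil))) (.b 0 (.r 40 .nil))))) (.node (.node (.I .tdb (.c 24 (.c 48 (.c 0 (.c 32 .nil)))) (.b 8 (.b 16 (.r 40 .nil)))) (.I .jac (.c 0 (.c 20891715 (.c 32 .nil))) (.l 18625 .nil))) (.node (.I .tdb (.c 0 (.c 16 (.c 40 (.c 8257 .nil)))) (.l 18625 .nil)) (.I .tdb (.c 8 (.c 32 (.c 16 (.c 40 .nil)))) (.b 0 (.l 18625 .nil))))))) (.node (.node (.node (.node (.I .com (.c 3491710045195345 (.c 18625 .nil)) .nil) (.I .jac (.c 8193 (.c 24 (.c 48 .nil))) (.b 20891715 .nil))) (.node (.I .adp (.c 2718204105 (.c 32 (.c 20891715 .nil))) .nil) (.I .adp (.c 12865 (.c 16 (.c 617611520074185 .nil))) .nil))) (.node (.node (.I .adp (.c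 12865 (.c 16 (.c 59109068473256441298 .nil))) .nil) (.I .tdb (.c 24 (.c 18433 (.c 16 (.c 32 .nil)))) (.l 12865 .nil))) (.node (.I .adp (.c 2718204105 (.c 32 (.c 16 .nil))) (.l 12865 .nil)) (.I .adp (.c 2718204105 (.c 32 (.c 12865 .nil))) (.r 16 .nil))))) (.node (.node (.node (.I .jac (.c 2718204105 (.c 8 (.c 40 .nil))) (.r 32 (.r 16 .nil))) (.I .ass (.c 27951055785643122968540376538297009659593 (.c 32 (.c 16 .nil))) .nil)) (.node (.I .com (.c 16 (.c 32 .nil)) (.l 27951055785643122968540376538297009659593 .nil)) (.I .ass (.c 27951055785643122726429632160908738482121 (.c 32 (.c 16 .nil))) .nil))) (.node (.node (.I .com (.c 16 (.c 32 .nil)) (.l 27951055785643122726429632160908738482121 .nil)) (.I .ass (.c 2718204105 (.c 1324066057 (.c 16 .nil))) .nil)) (.node (.I .tdp (.c 2718204105 (.c 32 (.c 16 (.c 12865 .nil)))) .nil) (.I .tdb (.c 4609 (.c 48 (.c 16 (.c 32 .nil)))) (.l 12865 .nil)))))))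 (.node (.node (.node (.node (.node (.I .tdb (.c 0 (.c 24 (.c 32 (.c 16 .nil)))) (.b 48 (.l 12865 .nil))) (.I .tdb (.c 8 (.c 40 (.c 16 (.c 32 .nil)))) (.r 169943433 .nil))) (.node (.I .ass (.c 12865 (.c 8193 (.c 179513737 .nil))) .nil) (.I .ass (.c 8193 (.c 12865 (.c 179513737 .nil))) .nil))) (.node (.node (.I .com (.c 12865 (.c 8193 .nil)) (.r 179513737 .nil)) (.I .adp (.c 2113 (.c 40 (.c 15246191640314121 .nil))) .nil)) (.node (.I .adp (.c 2113 (.c 40 (.c 617611520074185 .nil))) .nil) (.I .adp (.c 2113 (.c 40 (.c 59109068473256441298 .nil))) .nil)))) (.node (.node (.node (.I .adp (.c 2718204105 (.c 32 (.c 40 .nil))) (.l 2113 .nil)) (.I .tdb (.c 0 (.c 48 (.c 8 (.c 32 .nil)))) (.b 24 (.b 16 (.r 40 .nil))))) (.node (.I .tdb (.c 24 (.c 18433 (.c 16 (.c 32 .nil)))) (.b 8 (.r 40 .nil))) (.I .tdb (.c 8 (.c 16 (.c 32 (.c 2718204105 .nil)))) (.r 40 .nil)))) (.node (.node (.I .adp (.c 2718204105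 (.c 32 (.c 2113 .nil))) (.r 40 .nil)) (.I .jac (.c 2718204105 (.c 8 (.c 16 .nil))) (.r 32 (.r 40 .nil)))) (.node (.I .ass (.c 27951055785643122786957318255255806177993 (.c 32 (.c 40 .nil))) .nil) (.I .ass (.c 27951055785643122726429632160908738481929 (.c 32 (.c 40 .nil))) .nil))))) (.node (.node (.node (.node (.I .tdp (.c 2718204105 (.c 32 (.c 2113 (.c 40 .nil)))) .nil) (.I .tdb (.c 8 (.c 16 (.c 40 (.c 2718204105 .nil)))) (.l 32 .nil))) (.node (.I .tdb (.c 4609 (.c 48 (.c 16 (.c 32 .nil)))) (.b 8 (.r 40 .nil))) (.I .tdb (.c 0 (.c 24 (.c 32 (.c 16 .nil)))) (.b 48 (.b 8 (.r 40 .nil)))))) (.node (.node (.I .tdb (.c 0 (.c 32 (.c 18625 (.c 8 .nil)))) (.b 16 (.r 40 .nil))) (.I .jac (.c 0 (.c 8786563 (.c 48 .nil))) (.b 8 (.r 40 .nil)))) (.node (.I .tdb (.c 0 (.c 32 (.c 18625 (.c 16 .nil)))) (.b 8 (.r 40 .nil))) (.I .tdb (.c 24 (.c 48 (.c 0 (.c 16 .nil)))) (.b 32 (.b 8 (.r 40 .nil)))))))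 (.node (.node (.node (.I .ass (.c 2306970223667989193 (.c 18625 (.c 40 .nil))) .nil) (.I .ass (.c 2306969673777850121 (.c 18625 (.c 40 .nil))) .nil)) (.node (.I .tdb (.c 0 (.c 32 (.c 8 (.c 40 .nil)))) (.b 16 (.l 18625 .nil))) (.I .tdb (.c 0 (.c 32 (.c 16 (.c 40 .nil)))) (.b 8 (.l 18625 .nil))))) (.node (.node (.I .tdb (.c 8 (.c 16 (.c 40 (.c 8193 .nil)))) (.l 18625 .nil)) (.I .com (.c 97535117142651651247146700977865 (.c 18625 .nil)) .nil)) (.node (.I .adp (.c 18497 (.c 8385 (.c 1310924937 .nil))) .nil) (.I .adp (.c 174695689 (.c 48 (.c 1310924937 .nil))) .nil)))))))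

noncomputable def c2_226 : Tr := (.node (.node (.node (.node (.node (.node (.I .adp (.c 18497 (.c 8385 (.c 33587529 .nil))) .nil) (.I .adp (.c 545424585 (.c 48 (.c 33587529 .nil))) .nil)) (.node (.I .adp (.c 537002185 (.c 48 (.c 1324065929 .nil))) .nil) (.I .adp (.c 537002185 (.c 48 (.c 35718473 .nil))) .nil))) (.node (.node (.I .adp (.c 169943305 (.c 48 (.c 35718473 .nil))) .nil) (.I .ass (.c 13748198893136698057 (.c 8385 (.c 16 .nil))) .nil)) (.node (.I .com (.c 16 (.c 8385 .nil)) (.l 13748198893136698057 .nil)) (.I .adp (.c 2049 (.c 40 (.c 15038454533713225 .nil))) .nil)))) (.node (.node (.node (.I .tdb (.c 8 (.c 48 (.c 0 (.c 24 .nil)))) (.b 32 (.b 16 (.r 40 .nil)))) (.I .com (.c 9024908047478665 (.c 18497 .nil)) (.r 40 .nil))) (.node (.I .jac (.c 33587401 (.c 8 (.c 32 .nil))) (.r 48 (.r 40 .nil))) (.I .ass (.c 651596688508328804762888218545993 (.c 48 (.c 40 .nil))) .nil))) (.node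 (.node (.I .com (.c 40 (.c 48 .nil)) (.l 651596688508328804762888218545993 .nil)) (.I .ass (.c 651596688508347287845007406880457 (.c 48 (.c 40 .nil))) .nil)) (.node (.I .com (.c 40 (.c 48 .nil)) (.l 651596688508347287845007406880457 .nil)) (.I .jac (.c 18433 (.c 24 (.c 32 .nil))) (.b 20891715 .nil)))))) (.node (.node (.node (.node (.I .adp (.c 18433 (.c 8385 (.c 20891715 .nil))) .nil) (.I .adp (.c 537002185 (.c 48 (.c 20891715 .nil))) .nil)) (.node (.I .adp (.c 12865 (.c 16 (.c 15038410136445257 .nil))) .nil) (.I .ass (.c 12865 (.c 2718204041 (.c 8385 .nil))) .nil))) (.node (.node (.I .com (.c 12865 (.c 2718204041 .nil)) (.r 8385 .nil)) (.I .ass (.c 12865 (.c 18433 (.c 179513609 .nil))) .nil)) (.node (.I .com (.c 12865 (.c 18433 .nil)) (.r 179513609 .nil)) (.I .ass (.c 59109074018392946377 (.c 8385 (.c 16 .nil))) .nil)))) (.node (.node (.node (.I .com (.c 16 (.c 8385 .nil)) (.l 59109074018392946377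 .nil)) (.I .ass (.c 59109062884628932553 (.c 8385 (.c 16 .nil))) .nil)) (.node (.I .com (.c 16 (.c 8385 .nil)) (.l 59109062884628932553 .nil)) (.I .adp (.c 12865 (.c 16 (.c 2306970777854211666 .nil))) .nil))) (.node (.node (.I .adp (.c 537002185 (.c 48 (.c 16 .nil))) (.l 12865 .nil)) (.I .adp (.c 537002185 (.c 48 (.c 12865 .nil))) (.r 16 .nil))) (.node (.I .tdp (.c 537002185 (.c 48 (.c 16 (.c 12865 .nil)))) .nil) (.I .tdb (.c 8 (.c 40 (.c 16 (.c 48 .nil)))) (.r 537002185 .nil))))))) (.node (.node (.node (.node (.node (.I .adp (.c 2113 (.c 40 (.c 2718418458 .nil))) .nil) (.I .adp (.c 18433 (.c 8385 (.c 40 .nil))) (.l 2113 .nil))) (.node (.I .tdb (.c 0 (.c 48 (.c 16 (.c 24 .nil)))) (.b 32 (.b 8 (.r 40 .nil)))) (.I .tdb (.c 8 (.c 16 (.c 8385 (.c 18433 .nil)))) (.r 40 .nil)))) (.node (.node (.I .tdb (.c 24 (.c 32 (.c 18433 (.c 8 .nil)))) (.b 16 (.r 40 .nil))) (.I .tdb (.c 24 (.c 32 (.c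 18433 (.c 16 .nil)))) (.b 8 (.r 40 .nil)))) (.node (.I .adp (.c 18433 (.c 8385 (.c 2113 .nil))) (.r 40 .nil)) (.I .jac (.c 2113 (.c 24 (.c 32 .nil))) (.l 18433 (.r 40 .nil)))))) (.node (.node (.node (.I .jac (.c 18433 (.c 8 (.c 16 .nil))) (.r 8385 (.r 40 .nil))) (.I .ass (.c 59109065668069837513 (.c 8385 (.c 40 .nil))) .nil)) (.node (.I .ass (.c 59109062884628932361 (.c 8385 (.c 40 .nil))) .nil) (.I .ass (.c 18433 (.c 10206437931930441 (.c 40 .nil))) .nil))) (.node (.node (.I .ass (.c 18433 (.c 10206401356312457 (.c 40 .nil))) .nil) (.I .tdp (.c 18433 (.c 8385 (.c 2113 (.c 40 .nil)))) .nil)) (.node (.I .ass (.c 42576913200413533512397237570979656393 (.c 48 (.c 40 .nil))) .nil) (.I .com (.c 40 (.c 48 .nil)) (.l 42576913200413533512397237570979656393 .nil)))))) (.node (.node (.node (.node (.I .ass (.c 42576913200413531150059165447389105929 (.c 48 (.c 40 .nil))) .nil) (.I .com (.c 40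 (.c 48 .nil)) (.l 42576913200413531150059165447389105929 .nil))) (.node (.I .ass (.c 427057350195048083672236560419041993 (.c 48 (.c 40 .nil))) .nil) (.I .com (.c 40 (.c 48 .nil)) (.l 427057350195048083672236560419041993 .nil)))) (.node (.node (.I .ass (.c 427057350195047847081321678284721929 (.c 48 (.c 40 .nil))) .nil) (.I .com (.c 40 (.c 48 .nil)) (.l 427057350195047847081321678284721929 .nil))) (.node (.I .adp (.c 545424777 (.c 24 (.c 1310924937 .nil))) .nil) (.I .adp (.c 4673 (.c 18689 (.c 1310924937 .nil))) .nil)))) (.node (.node (.node (.I .jac (.c 1310924937 (.c 32 (.c 48 .nil))) (.l 4673 .nil)) (.I .com (.c 545424777 (.c 24 .nil)) (.b 33587529 .nil))) (.node (.I .com (.c 2737112329 (.c 24 .nil)) (.b 33587529 .nil)) (.I .adp (.c 2737112329 (.c 24 (.c 33587529 .nil))) .nil))) (.node (.node (.I .adp (.c 545424777 (.c 24 (.c 33587529 .nil))) .nil) (.I .adp (.c 4673 (.c 18689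 (.c 33587529 .nil))) .nil)) (.node (.I .com (.c 537002377 (.c 24 .nil)) (.b 1324065929 .nil)) (.I .com (.c 2718204169 (.c 24 .nil)) (.b 1324065929 .nil))))))))

noncomputable def c2_227 : Tr := (.node (.node (.node (.node (.node (.node (.I .jac (.c 2718204169 (.c 8 (.c 40 .nil))) (.b 16 (.r 24 .nil))) (.I .adp (.c 537002377 (.c 24 (.c 1324065929 .nil))) .nil)) (.node (.I .com (.c 537002377 (.c 24 .nil)) (.b 35718473 .nil)) (.I .adp (.c 537002377 (.c 24 (.c 35718473 .nil))) .nil))) (.node (.node (.I .jac (.c 3491688652046665 (.c 8 (.c 48 .nil))) (.r 24 .nil)) (.I .jac (.c 16 (.c 32 (.c 48 .nil))) (.l 4673 (.l 12801 .nil)))) (.node (.I .com (.c 13748196208362034185 (.c 4673 .nil)) (.r 16 .nil)) (.I .ass (.c 651606621363089303044061530656649 (.c 24 (.c 40 .nil))) .nil)))) (.node (.node (.node (.I .jac (.c 33587593 (.c 8 (.c 32 .nil))) (.r 24 (.r 40 .nil))) (.I .ass (.c 651606621363117027878554774108873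 (.c 24 (.c 40 .nil))) .nil)) (.node (.I .tdb (.c 32 (.c 48 (.c 0 (.c 8 .nil)))) (.b 24 (.b 16 (.r 40 .nil)))) (.I .tdb (.c 32 (.c 48 (.c 0 (.c 24 .nil)))) (.b 8 (.b 16 (.r 40 .nil)))))) (.node (.node (.I .ass (.c 9024908047478473 (.c 18689 (.c 40 .nil))) .nil) (.I .adp (.c 537002377 (.c 24 (.c 20891715 .nil))) .nil)) (.node (.I .com (.c 2718204169 (.c 24 .nil)) (.b 1324168850 .nil)) (.I .adp (.c 12865 (.c 16 (.c 59109071256697478034 .nil))) .nil))))) (.node (.node (.node (.node (.I .tdb (.c 32 (.c 18433 (.c 16 (.c 24 .nil)))) (.l 12865 .nil)) (.I .adp (.c 2718204169 (.c 24 (.c 16 .nil))) (.l 12865 .nil))) (.node (.I .ass (.c 12865 (.c 59109071234951844617 (.c 24 .nil))) .nil) (.I .com (.c 12865 (.c 59109071234951844617 .nil)) (.r 24 .nil)))) (.node (.node (.I .ass (.c 12865 (.c 2718204169 (.c 4737 .nil))) .nil) (.I .com (.c 12865 (.c 2718204169 .nil)) (.r 4737 .nil))) (.node (.I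 .adp (.c 2718204169 (.c 24 (.c 12865 .nil))) (.r 16 .nil)) (.I .jac (.c 2718204169 (.c 8 (.c 40 .nil))) (.r 24 (.r 16 .nil)))))) (.node (.node (.node (.I .ass (.c 27951058418068892863957554057219361971913 (.c 24 (.c 16 .nil))) .nil) (.I .com (.c 16 (.c 24 .nil)) (.l 27951058418068892863957554057219361971913 .nil))) (.node (.I .ass (.c 27951058418068892621846798278856606158793 (.c 24 (.c 16 .nil))) .nil) (.I .com (.c 16 (.c 24 .nil)) (.l 27951058418068892621846798278856606158793 .nil)))) (.node (.node (.I .ass (.c 2718204169 (.c 1324065993 (.c 16 .nil))) .nil) (.I .tdp (.c 2718204169 (.c 24 (.c 16 (.c 12865 .nil)))) .nil)) (.node (.I .tdb (.c 8 (.c 40 (.c 16 (.c 24 .nil)))) (.r 2718204169 .nil)) (.I .adp (.c 12865 (.c 16 (.c 2306972427525220242 .nil))) .nil)))))) (.node (.node (.node (.node (.node (.I .adp (.c 537002377 (.c 24 (.c 16 .nil))) (.l 12865 .nil)) (.I .adp (.c 537002377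 (.c 24 (.c 12865 .nil))) (.r 16 .nil))) (.node (.I .tdp (.c 537002377 (.c 24 (.c 16 (.c 12865 .nil)))) .nil) (.I .tdb (.c 32 (.c 18433 (.c 8 (.c 24 .nil)))) (.b 16 (.r 40 .nil))))) (.node (.node (.I .tdb (.c 32 (.c 18433 (.c 16 (.c 24 .nil)))) (.b 8 (.r 40 .nil))) (.I .ass (.c 42576974092320099556365595025629983433 (.c 24 (.c 40 .nil))) .nil)) (.node (.I .ass (.c 42576974092320097194025833638928027401 (.c 24 (.c 40 .nil))) .nil) (.I .tdb (.c 32 (.c 48 (.c 0 (.c 8 .nil)))) (.b 16 (.b 24 (.r 40 .nil))))))) (.node (.node (.node (.I .tdb (.c 32 (.c 48 (.c 0 (.c 16 .nil)))) (.b 8 (.b 24 (.r 40 .nil)))) (.I .ass (.c 231045467270826697 (.c 18689 (.c 40 .nil))) .nil)) (.node (.I .tdp (.c 24 (.c 32 (.c 1310924937 (.c 18497 .nil)))) .nil) (.I .tdb (.c 8 (.c 48 (.c 16 (.c 24 .nil)))) (.b 12801 (.l 32 .nil))))) (.node (.node (.I .tdb (.c 16 (.c 12801 (.c 18497 (.c 32 .nil)))) (.r 24 .nil)) (.I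 .tdb (.c 16 (.c 12801 (.c 24 (.c 32 .nil)))) (.b 18497 .nil))) (.node (.I .ass (.c 18497 (.c 24 (.c 32 .nil))) (.b 33587529 .nil)) (.I .adp (.c 43356739 (.c 32 (.c 33587529 .nil))) .nil))))) (.node (.node (.node (.node (.I .adp (.c 18497 (.c 8386 (.c 33587529 .nil))) .nil) (.I .adp (.c 24 (.c 32 (.c 33587529 .nil))) (.l 18497 .nil))) (.node (.I .tdp (.c 24 (.c 32 (.c 33587529 (.c 18497 .nil)))) .nil) (.I .tdb (.c 8 (.c 48 (.c 16 (.c 32 .nil)))) (.b 0 (.b 40 (.r 24 .nil)))))) (.node (.node (.I .adp (.c 8257 (.c 18626 (.c 33587529 .nil))) .nil) (.I .adp (.c 24 (.c 48 (.c 33587529 .nil))) (.l 8257 .nil))) (.node (.I .adp (.c 4673 (.c 18690 (.c 33587529 .nil))) .nil) (.I .adp (.c 32 (.c 48 (.c 33587529 .nil))) (.l 4673 .nil))))) (.node (.node (.node (.I .tdb (.c 0 (.c 48 (.c 16 (.c 24 .nil)))) (.b 12865 (.l 32 .nil))) (.I .com (.c 14025204674709064713 (.c 32 .nil)) (.l 4609 .nil))) (.node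 (.I .tdb (.c 2113 (.c 40 (.c 24 (.c 32 .nil)))) (.l 18433 .nil)) (.I .tdb (.c 8 (.c 16 (.c 32 (.c 24 .nil)))) (.b 40 (.l 18433 .nil))))) (.node (.node (.I .tdb (.c 2113 (.c 40 (.c 24 (.c 32 .nil)))) (.b 18433 .nil)) (.I .tdb (.c 8 (.c 16 (.c 32 (.c 24 .nil)))) (.b 40 (.b 18433 .nil)))) (.node (.I .jac (.c 1310925001 (.c 8321 (.c 48 .nil))) (.r 8 .nil)) (.I .jac (.c 1310925001 (.c 16 (.c 32 .nil))) (.b 48 (.r 8 .nil)))))))))

noncomputable def c2_228 : Tr := (.node (.node (.node (.node (.node (.node (.I .jac (.c 1310925065 (.c 18561 (.c 24 .nil))) (.r 8 .nil)) (.I .jac (.c 1310925065 (.c 16 (.c 48 .nil))) (.b 24 (.r 8 .nil)))) (.node (.I .jac (.c 1310925065 (.c 4737 (.c 48 .nil))) (.r 8 .nil)) (.I .jac (.c 1310925065 (.c 16 (.c 24 .nil))) (.b 48 (.r 8 .nil))))) (.node (.node (.I .adp (.c 8 (.c 40 (.c 16 .nil))) (.b 2306972423229201225 .nil)) (.I .adp (.c 8 (.c 12929 (.c 59109068451510808457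 .nil))) .nil)) (.node (.I .adp (.c 8 (.c 40 (.c 16 .nil))) (.b 231046163358604169 .nil)) (.I .adp (.c 8 (.c 12929 (.c 231046163358604169 .nil))) .nil)))) (.node (.node (.node (.I .adp (.c 8 (.c 40 (.c 16 .nil))) (.b 59109071234951844681 .nil)) (.I .adp (.c 8 (.c 12929 (.c 59109071234951844681 .nil))) .nil)) (.node (.I .jac (.c 59109071234951844681 (.c 16 (.c 40 .nil))) (.l 8 .nil)) (.I .adp (.c 8 (.c 40 (.c 16 .nil))) (.b 231045815314584585 .nil)))) (.node (.node (.I .adp (.c 8 (.c 12929 (.c 231045815314584585 .nil))) .nil) (.I .adp (.c 8 (.c 40 (.c 43655363 .nil))) (.b 2049 .nil))) (.node (.I .adp (.c 8 (.c 40 (.c 0 .nil))) (.b 15246325749294281 .nil)) (.I .com (.c 12801 (.c 8 .nil)) (.b 15246325749294281 .nil)))))) (.node (.node (.node (.node (.I .adp (.c 513 (.c 40 (.c 15246325749294281 .nil))) .nil) (.I .adp (.c 8 (.c 40 (.c 16 .nil))) (.b 15246325749294153 .nil))) (.node (.I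 .com (.c 13748192181200529289 (.c 2756085961 .nil)) .nil) (.I .jac (.c 1310924873 (.c 18561 (.c 24 .nil))) (.r 32 .nil)))) (.node (.node (.I .jac (.c 1310924873 (.c 16 (.c 48 .nil))) (.b 24 (.r 32 .nil))) (.I .com (.c 13748192181200529289 (.c 179513737 .nil)) .nil)) (.node (.I .adp (.c 8321 (.c 18625 (.c 1310924873 .nil))) .nil) (.I .com (.c 1512102306009786923259633531360632805385 (.c 8321 .nil)) .nil)))) (.node (.node (.node (.I .adp (.c 8321 (.c 18625 (.c 2105673 .nil))) .nil) (.I .adp (.c 513 (.c 40 (.c 15246281046235401 .nil))) .nil)) (.node (.I .adp (.c 8 (.c 40 (.c 0 .nil))) (.b 617629514824137 .nil)) (.I .com (.c 12801 (.c 8 .nil)) (.b 617629514824137 .nil)))) (.node (.node (.I .com (.c 3423058053194057 (.c 2756085961 .nil)) .nil) (.I .jac (.c 3423058053193993 (.c 16 (.c 48 .nil))) (.r 32 .nil))) (.node (.I .tdb (.c 0 (.c 40 (.c 2756085961 (.c 32 .nil)))) (.r 8 .nil)) (.I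 .tdb (.c 24 (.c 18561 (.c 0 (.c 32 .nil)))) (.b 40 (.r 8 .nil)))))))) (.node (.node (.node (.node (.node (.I .ass (.c 1512102601296135297671723270643481494345 (.c 32 (.c 8 .nil))) .nil) (.I .com (.c 8 (.c 32 .nil)) (.l 1512102601296135297671723270643481494345 .nil))) (.node (.I .jac (.c 8 (.c 18561 (.c 24 .nil))) (.l 1310925065 .nil)) (.I .jac (.c 8 (.c 16 (.c 48 .nil))) (.b 24 (.l 1310925065 .nil))))) (.node (.node (.I .tdb (.c 16 (.c 48 (.c 8 (.c 32 .nil)))) (.b 24 (.b 0 (.r 40 .nil)))) (.I .tdb (.c 24 (.c 18561 (.c 8 (.c 32 .nil)))) (.b 0 (.r 40 .nil)))) (.node (.I .tdb (.c 16 (.c 48 (.c 0 (.c 32 .nil)))) (.b 24 (.b 8 (.r 40 .nil)))) (.I .jac (.c 2105545 (.c 16 (.c 48 .nil))) (.r 32 (.r 40 .nil)))))) (.node (.node (.node (.I .ass (.c 10063013877651720715266097929 (.c 32 (.c 40 .nil))) .nil) (.I .ass (.c 10061790434743040737723204425 (.c 32 (.c 40 .nil))) .nil)) (.node (.I .ass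 (.c 10063013877506449693794530313 (.c 32 (.c 40 .nil))) .nil) (.I .com (.c 3423058053194057 (.c 179513737 .nil)) .nil))) (.node (.node (.I .jac (.c 43655171 (.c 16 (.c 24 .nil))) (.b 40 (.r 8 .nil))) (.I .tdb (.c 4737 (.c 48 (.c 0 (.c 32 .nil)))) (.b 40 (.r 8 .nil)))) (.node (.I .tdb (.c 16 (.c 24 (.c 32 (.c 0 .nil)))) (.b 48 (.b 40 (.r 8 .nil)))) (.I .ass (.c 1512103782441961064963223238430258353929 (.c 32 (.c 8 .nil))) .nil))))) (.node (.node (.node (.node (.I .com (.c 8 (.c 32 .nil)) (.l 1512103782441961064963223238430258353929 .nil)) (.I .jac (.c 8 (.c 4737 (.c 48 .nil))) (.l 1310925065 .nil))) (.node (.I .jac (.c 8 (.c 16 (.c 24 .nil))) (.b 48 (.l 1310925065 .nil))) (.I .ass (.c 10061790434634094094990628873 (.c 32 (.c 40 .nil))) .nil))) (.node (.node (.I .ass (.c 13748196208362033929 (.c 18625 (.c 8 .nil))) .nil) (.I .jac (.c 8 (.c 24 (.c 48 .nil))) (.l 13748196208362033929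 .nil))) (.node (.I .com (.c 8 (.c 18625 .nil)) (.l 13748196208362033929 .nil)) (.I .ass (.c 13748193523587632009 (.c 18625 (.c 8 .nil))) .nil)))) (.node (.node (.node (.I .com (.c 8 (.c 18625 .nil)) (.l 13748193523587632009 .nil)) (.I .tdb (.c 24 (.c 48 (.c 0 (.c 32 .nil)))) (.b 16 (.b 8 (.r 40 .nil))))) (.node (.I .tdb (.c 0 (.c 8 (.c 40 (.c 8321 .nil)))) (.l 18625 .nil)) (.I .tdb (.c 16 (.c 32 (.c 0 (.c 40 .nil)))) (.b 8 (.l 18625 .nil))))) (.node (.node (.I .tdb (.c 16 (.c 32 (.c 8 (.c 40 .nil)))) (.b 0 (.l 18625 .nil))) (.I .adp (.c 8 (.c 12929 (.c 15246191640314121 .nil))) .nil)) (.node (.I .jac (.c 15246191640314121 (.c 16 (.c 40 .nil))) (.l 8 .nil)) (.I .jac (.c 2718204105 (.c 16 (.c 40 .nil))) (.r 32 (.l 8 .nil)))))))))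

noncomputable def c2_229 : Tr := (.node (.node (.node (.node (.node (.node (.I .ass (.c 8 (.c 27951055785643122968540376538297009659657 (.c 32 .nil))) .nil) (.I .com (.c 8 (.c 27951055785643122968540376538297009659657 .nil)) (.r 32 .nil))) (.node (.I .ass (.c 8 (.c 27951055785643122786957318255255806178249 (.c 32 .nil))) .nil) (.I .com (.c 8 (.c 27951055785643122786957318255255806178249 .nil)) (.r 32 .nil)))) (.node (.node (.I .ass (.c 8 (.c 2718204105 (.c 1337272585 .nil))) .nil) (.I .ass (.c 2718204105 (.c 8 (.c 1337272585 .nil))) .nil)) (.node (.I .com (.c 8 (.c 2718204105 .nil)) (.r 1337272585 .nil)) (.I .tdb (.c 16 (.c 40 (.c 8 (.c 32 .nil)))) (.r 2718204105 .nil))))) (.node (.node (.node (.I .tdb (.c 16 (.c 40 (.c 169943433 (.c 32 .nil)))) (.l 8 .nil)) (.I .adp (.c 169943433 (.c 32 (.c 12929 .nil))) (.l 8 .nil))) (.node (.I .tdb (.c 4609 (.c 48 (.c 8 (.c 32 .nil)))) (.r 12929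 .nil)) (.I .tdb (.c 0 (.c 24 (.c 32 (.c 8 .nil)))) (.b 48 (.r 12929 .nil))))) (.node (.node (.I .ass (.c 231046163358603977 (.c 32 (.c 12929 .nil))) .nil) (.I .com (.c 12929 (.c 32 .nil)) (.l 231046163358603977 .nil))) (.node (.I .adp (.c 8193 (.c 18625 (.c 12929 .nil))) (.l 8 .nil)) (.I .jac (.c 12929 (.c 24 (.c 48 .nil))) (.l 8193 (.l 8 .nil))))))) (.node (.node (.node (.node (.I .ass (.c 8 (.c 8193 (.c 14306386471475043145 .nil))) .nil) (.I .ass (.c 8193 (.c 8 (.c 14306386471475043145 .nil))) .nil)) (.node (.I .com (.c 8 (.c 8193 .nil)) (.r 14306386471475043145 .nil)) (.I .ass (.c 8 (.c 8193 (.c 14306382363373563913 .nil))) .nil))) (.node (.node (.I .ass (.c 8193 (.c 8 (.c 14306382363373563913 .nil))) .nil) (.I .com (.c 8 (.c 8193 .nil)) (.r 14306382363373563913 .nil))) (.node (.I .ass (.c 537002057 (.c 18625 (.c 12929 .nil))) .nil) (.I .com (.c 1512102306009786937337782324909974764361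 (.c 18561 .nil)) .nil)))) (.node (.node (.node (.I .com (.c 1512102306009786923259633531360632805257 (.c 18561 .nil)) .nil) (.I .adp (.c 18561 (.c 8385 (.c 2105673 .nil))) .nil)) (.node (.I .adp (.c 553912521 (.c 48 (.c 2105673 .nil))) .nil) (.I .adp (.c 179513609 (.c 48 (.c 2105673 .nil))) .nil))) (.node (.node (.I .adp (.c 12801 (.c 8 (.c 15038498931046729 .nil))) .nil) (.I .adp (.c 513 (.c 40 (.c 15038498931046729 .nil))) .nil)) (.node (.I .com (.c 93738611484293500497757600954185 (.c 18561 .nil)) .nil) (.I .jac (.c 8 (.c 16 (.c 48 .nil))) (.r 8385 (.l 12801 .nil)))))))) (.node (.node (.node (.node (.node (.I .ass (.c 13748193523587632137 (.c 8385 (.c 8 .nil))) .nil) (.I .com (.c 8 (.c 8385 .nil)) (.l 13748193523587632137 .nil))) (.node (.I .jac (.c 8 (.c 16 (.c 48 .nil))) (.l 13748196208362033993 .nil)) (.I .com (.c 35466557976457 (.c 18561 .nil)) (.r 40 .nil)))) (.node (.node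 (.I .ass (.c 1512103191868961649950570808237977416521 (.c 48 (.c 8 .nil))) .nil) (.I .com (.c 8 (.c 48 .nil)) (.l 1512103191868961649950570808237977416521 .nil))) (.node (.I .ass (.c 1512102601296135269515422934336011008841 (.c 48 (.c 8 .nil))) .nil) (.I .com (.c 8 (.c 48 .nil)) (.l 1512102601296135269515422934336011008841 .nil))))) (.node (.node (.node (.I .jac (.c 1310925065 (.c 16 (.c 24 .nil))) (.r 48 (.r 8 .nil))) (.I .ass (.c 1512103191868961664028723725600700192521 (.c 48 (.c 8 .nil))) .nil)) (.node (.I .com (.c 8 (.c 48 .nil)) (.l 1512103191868961664028723725600700192521 .nil)) (.I .ass (.c 1512102601296135255437272766182275864457 (.c 48 (.c 8 .nil))) .nil))) (.node (.node (.I .com (.c 8 (.c 48 .nil)) (.l 1512102601296135255437272766182275864457 .nil)) (.I .adp (.c 8 (.c 12929 (.c 15038410136445257 .nil))) .nil)) (.node (.I .jac (.c 15038410136445257 (.c 16 (.c 40 .nil)))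 (.l 8 .nil)) (.I .adp (.c 8 (.c 12929 (.c 2718418458 .nil))) .nil))))) (.node (.node (.node (.node (.I .adp (.c 18433 (.c 8385 (.c 12929 .nil))) (.l 8 .nil)) (.I .jac (.c 18433 (.c 16 (.c 40 .nil))) (.r 8385 (.l 8 .nil)))) (.node (.I .tdb (.c 24 (.c 32 (.c 18433 (.c 8 .nil)))) (.r 12929 .nil)) (.I .adp (.c 18433 (.c 8385 (.c 8 .nil))) (.r 12929 .nil)))) (.node (.node (.I .jac (.c 8 (.c 24 (.c 32 .nil))) (.l 18433 (.r 12929 .nil))) (.I .tdp (.c 18433 (.c 8385 (.c 8 (.c 12929 .nil)))) .nil)) (.node (.I .adp (.c 8 (.c 12929 (.c 2306970777854211666 .nil))) .nil) (.I .adp (.c 537002185 (.c 48 (.c 8 .nil))) (.r 12929 .nil))))) (.node (.node (.node (.I .ass (.c 2306970773558193865 (.c 48 (.c 12929 .nil))) .nil) (.I .com (.c 12929 (.c 48 .nil)) (.l 2306970773558193865 .nil))) (.node (.I .tdp (.c 537002185 (.c 48 (.c 8 (.c 12929 .nil)))) .nil) (.I .tdb (.c 16 (.c 40 (.c 8 (.c 48 .nil))))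 (.r 537002185 .nil)))) (.node (.node (.I .com (.c 13748192181200529225 (.c 2756086025 .nil)) .nil) (.I .jac (.c 13748192181200529289 (.c 16 (.c 48 .nil))) (.r 24 .nil))) (.node (.I .jac (.c 1310924873 (.c 18561 (.c 32 .nil))) (.r 24 .nil)) (.I .jac (.c 1310924873 (.c 16 (.c 48 .nil))) (.b 32 (.r 24 .nil)))))))))

noncomputable def c2_230 : Tr := (.node (.node (.node (.node (.node (.node (.I .adp (.c 553912713 (.c 24 (.c 1310924873 .nil))) .nil) (.I .jac (.c 1310924873 (.c 8321 (.c 48 .nil))) (.r 24 .nil))) (.node (.I .jac (.c 1310924873 (.c 16 (.c 32 .nil))) (.b 48 (.r 24 .nil))) (.I .jac (.c 1310924873 (.c 32 (.c 48 .nil))) (.l 4737 .nil)))) (.node (.node (.I .com (.c 1512102306009786937337782324909974764553 (.c 4737 .nil)) .nil) (.I .com (.c 2756086025 (.c 24 .nil)) (.b 2105673 .nil))) (.node (.I .adp (.c 553912713 (.c 24 (.c 2105673 .nil))) .nil) (.I .adp (.c 4737 (.c 18689 (.c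 2105673 .nil))) .nil)))) (.node (.node (.node (.I .tdb (.c 32 (.c 18561 (.c 8 (.c 24 .nil)))) (.l 12801 .nil)) (.I .tdb (.c 16 (.c 48 (.c 0 (.c 24 .nil)))) (.b 32 (.b 40 (.r 8 .nil))))) (.node (.I .tdb (.c 32 (.c 18561 (.c 0 (.c 24 .nil)))) (.b 40 (.r 8 .nil))) (.I .tdb (.c 32 (.c 18561 (.c 8 (.c 24 .nil)))) (.b 0 (.r 40 .nil))))) (.node (.node (.I .jac (.c 8 (.c 8321 (.c 48 .nil))) (.l 1310925001 .nil)) (.I .jac (.c 8 (.c 16 (.c 32 .nil))) (.b 48 (.l 1310925001 .nil)))) (.node (.I .com (.c 13748196208362034185 (.c 4737 .nil)) (.r 8 .nil)) (.I .ass (.c 13748196208362034185 (.c 4737 (.c 8 .nil))) .nil))))) (.node (.node (.node (.node (.I .com (.c 8 (.c 4737 .nil)) (.l 13748196208362034185 .nil)) (.I .jac (.c 8 (.c 32 (.c 48 .nil))) (.l 13748194865974800137 .nil))) (.node (.I .ass (.c 35466557976329 (.c 18689 (.c 40 .nil))) .nil) (.I .ass (.c 35464401931081 (.c 18689 (.c 40 .nil)))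 .nil))) (.node (.node (.I .com (.c 2718204169 (.c 24 .nil)) (.b 1337272394 .nil)) (.I .adp (.c 8 (.c 12929 (.c 59109071256697478034 .nil))) .nil)) (.node (.I .jac (.c 2718204169 (.c 16 (.c 40 .nil))) (.r 24 (.l 8 .nil))) (.I .ass (.c 27951058418068892863957554057219361971977 (.c 8 (.c 24 .nil))) .nil)))) (.node (.node (.node (.I .ass (.c 27951058418068892682374487223447295013833 (.c 8 (.c 24 .nil))) .nil) (.I .ass (.c 8 (.c 2718204169 (.c 1337272521 .nil))) .nil)) (.node (.I .ass (.c 2718204169 (.c 8 (.c 1337272521 .nil))) .nil) (.I .com (.c 8 (.c 2718204169 .nil)) (.r 1337272521 .nil)))) (.node (.node (.I .tdb (.c 32 (.c 18433 (.c 8 (.c 24 .nil)))) (.r 12929 .nil)) (.I .adp (.c 2718204169 (.c 24 (.c 8 .nil))) (.r 12929 .nil))) (.node (.I .tdp (.c 2718204169 (.c 24 (.c 8 (.c 12929 .nil)))) .nil) (.I .adp (.c 8 (.c 12929 (.c 2306972427525220242 .nil))) .nil)))))) (.node (.node (.node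 (.node (.node (.I .adp (.c 537002377 (.c 24 (.c 8 .nil))) (.r 12929 .nil)) (.I .ass (.c 2306972423229201097 (.c 24 (.c 12929 .nil))) .nil)) (.node (.I .com (.c 12929 (.c 24 .nil)) (.l 2306972423229201097 .nil)) (.I .tdp (.c 537002377 (.c 24 (.c 8 (.c 12929 .nil)))) .nil))) (.node (.node (.I .ass (.c 169943113 (.c 18689 (.c 12929 .nil))) .nil) (.I .com (.c 13748192181200529225 (.c 43655299 .nil)) .nil)) (.node (.I .com (.c 13748192181200529289 (.c 43356803 .nil)) .nil) (.I .tdb (.c 8 (.c 12801 (.c 24 (.c 32 .nil)))) (.l 18561 .nil))))) (.node (.node (.node (.I .jac (.c 1310924873 (.c 16 (.c 48 .nil))) (.r 8386 .nil)) (.I .tdp (.c 24 (.c 32 (.c 1310924873 (.c 18561 .nil)))) .nil)) (.node (.I .tdb (.c 8 (.c 12801 (.c 18561 (.c 32 .nil)))) (.r 24 .nil)) (.I .tdb (.c 8 (.c 12801 (.c 24 (.c 32 .nil)))) (.b 18561 .nil)))) (.node (.node (.I .com (.c 13748192181200529417 (.c 8786563 .nil))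 .nil) (.I .com (.c 13748192181200529417 (.c 24 .nil)) (.l 8321 .nil))) (.node (.I .com (.c 13748192181200529417 (.c 32 .nil)) (.l 4737 .nil)) (.I .ass (.c 13748192181200529417 (.c 4737 (.c 32 .nil))) .nil))))) (.node (.node (.node (.node (.I .tdp (.c 32 (.c 48 (.c 16 (.c 24 .nil)))) (.b 2105673 .nil)) (.I .com (.c 8786563 (.c 48 .nil)) (.b 2105673 .nil))) (.node (.I .tdp (.c 24 (.c 32 (.c 2105673 (.c 18561 .nil)))) .nil) (.I .jac (.c 513 (.c 21099139 (.c 48 .nil))) (.l 32 .nil)))) (.node (.node (.I .jac (.c 513 (.c 16 (.c 43954883 .nil))) (.l 32 .nil)) (.I .tdb (.c 16 (.c 48 (.c 8 (.c 32 .nil)))) (.b 0 (.b 40 (.r 24 .nil))))) (.node (.I .tdb (.c 513 (.c 40 (.c 24 (.c 32 .nil)))) (.b 18561 .nil)) (.I .adp (.c 8786563 (.c 48 (.c 2105673 .nil))) .nil)))) (.node (.node (.node (.I .adp (.c 8321 (.c 18626 (.c 2105673 .nil))) .nil) (.I .adp (.c 24 (.c 48 (.c 2105673 .nil))) (.l 8321 .nil)))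 (.node (.I .adp (.c 0 (.c 40 (.c 16 .nil))) (.b 2379905498923998025 .nil)) (.I .adp (.c 0 (.c 12929 (.c 2379905498923998025 .nil))) .nil))) (.node (.node (.I .jac (.c 0 (.c 545424777 (.c 24 .nil))) (.r 12929 .nil)) (.I .jac (.c 0 (.c 8257 (.c 48 .nil))) (.b 24 (.r 12929 .nil)))) (.node (.I .jac (.c 0 (.c 8 (.c 32 .nil))) (.b 48 (.b 24 (.r 12929 .nil)))) (.I .adp (.c 0 (.c 40 (.c 16 .nil))) (.b 59934268409707442057 .nil))))))))

noncomputable def c2_231 : Tr := (.node (.node (.node (.node (.node (.node (.I .adp (.c 0 (.c 12929 (.c 59934268409707442057 .nil))) .nil) (.I .jac (.c 0 (.c 2737112265 (.c 32 .nil))) (.r 12929 .nil))) (.node (.I .jac (.c 0 (.c 18497 (.c 24 .nil))) (.b 32 (.r 12929 .nil))) (.I .jac (.c 0 (.c 8 (.c 48 .nil))) (.b 24 (.b 32 (.r 12929 .nil)))))) (.node (.node (.I .adp (.c 0 (.c 40 (.c 16 .nil))) (.b 244149027818380169 .nil)) (.I .adp (.c 0 (.c 12929 (.c 244149027818380169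 .nil))) .nil)) (.node (.I .jac (.c 0 (.c 174695817 (.c 32 .nil))) (.r 12929 .nil)) (.I .jac (.c 0 (.c 4673 (.c 48 .nil))) (.b 32 (.r 12929 .nil)))))) (.node (.node (.node (.I .jac (.c 0 (.c 8 (.c 24 .nil))) (.b 48 (.b 32 (.r 12929 .nil)))) (.I .adp (.c 0 (.c 40 (.c 16 .nil))) (.b 2379903823379378185 .nil))) (.node (.I .adp (.c 0 (.c 12929 (.c 2379903823379378185 .nil))) .nil) (.I .jac (.c 0 (.c 545424585 (.c 48 .nil))) (.r 12929 .nil)))) (.node (.node (.I .jac (.c 0 (.c 8257 (.c 24 .nil))) (.b 48 (.r 12929 .nil))) (.I .jac (.c 0 (.c 8 (.c 32 .nil))) (.b 24 (.b 48 (.r 12929 .nil))))) (.node (.I .adp (.c 0 (.c 40 (.c 16 .nil))) (.b 244148670041478153 .nil)) (.I .adp (.c 0 (.c 12929 (.c 244148670041478153 .nil))) .nil))))) (.node (.node (.node (.node (.I .jac (.c 0 (.c 174695689 (.c 48 .nil))) (.r 12929 .nil)) (.I .jac (.c 0 (.c 4673 (.c 32 .nil))) (.b 48 (.r 12929 .nil)))) (.node (.I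 .jac (.c 0 (.c 8 (.c 24 .nil))) (.b 32 (.b 48 (.r 12929 .nil)))) (.I .adp (.c 0 (.c 12865 (.c 15246325749294281 .nil))) .nil))) (.node (.node (.I .adp (.c 0 (.c 12929 (.c 15246325749294217 .nil))) .nil) (.I .adp (.c 0 (.c 40 (.c 8 .nil))) (.b 15246281046235401 .nil))) (.node (.I .adp (.c 0 (.c 12865 (.c 15246281046235401 .nil))) .nil) (.I .adp (.c 0 (.c 40 (.c 8 .nil))) (.b 617629514824137 .nil))))) (.node (.node (.node (.I .ass (.c 9025011228269385 (.c 32 (.c 12865 .nil))) .nil) (.I .com (.c 12865 (.c 32 .nil)) (.l 9025011228269385 .nil))) (.node (.I .ass (.c 231045467270827017 (.c 32 (.c 12865 .nil))) .nil) (.I .com (.c 12865 (.c 32 .nil)) (.l 231045467270827017 .nil)))) (.node (.node (.I .ass (.c 169943433 (.c 8321 (.c 12865 .nil))) .nil) (.I .com (.c 12865 (.c 8321 .nil)) (.l 169943433 .nil))) (.node (.I .adp (.c 0 (.c 12929 (.c 617620517416393 .nil))) .nil) (.I .ass (.c 59109062884628932425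 (.c 32 (.c 12929 .nil))) .nil)))))) (.node (.node (.node (.node (.node (.I .com (.c 12929 (.c 32 .nil)) (.l 59109062884628932425 .nil)) (.I .ass (.c 35473026505545 (.c 32 (.c 12929 .nil))) .nil)) (.node (.I .com (.c 12929 (.c 32 .nil)) (.l 35473026505545 .nil)) (.I .ass (.c 231045293249046537 (.c 32 (.c 12929 .nil))) .nil))) (.node (.node (.I .com (.c 12929 (.c 32 .nil)) (.l 231045293249046537 .nil)) (.I .adp (.c 0 (.c 12929 (.c 2775191058 .nil))) .nil)) (.node (.I .adp (.c 8257 (.c 18625 (.c 0 .nil))) (.r 12929 .nil)) (.I .jac (.c 0 (.c 24 (.c 48 .nil))) (.l 8257 (.r 12929 .nil)))))) (.node (.node (.node (.I .com (.c 2718204105 (.c 8257 .nil)) (.r 12929 .nil)) (.I .com (.c 169943433 (.c 8257 .nil)) (.r 12929 .nil))) (.node (.I .jac (.c 0 (.c 8 (.c 32 .nil))) (.r 18625 (.r 12929 .nil))) (.I .adp (.c 0 (.c 40 (.c 8 .nil))) (.b 15038498931046729 .nil)))) (.node (.node (.I .ass (.c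 33587593 (.c 8385 (.c 12865 .nil))) .nil) (.I .com (.c 12865 (.c 8385 .nil)) (.l 33587593 .nil))) (.node (.I .ass (.c 231045815314584329 (.c 48 (.c 12865 .nil))) .nil) (.I .com (.c 12865 (.c 48 .nil)) (.l 231045815314584329 .nil)))))) (.node (.node (.node (.node (.I .ass (.c 9024942441009993 (.c 48 (.c 12865 .nil))) .nil) (.I .com (.c 12865 (.c 48 .nil)) (.l 9024942441009993 .nil))) (.node (.I .ass (.c 231045467270826889 (.c 48 (.c 12865 .nil))) .nil) (.I .com (.c 12865 (.c 48 .nil)) (.l 231045467270826889 .nil)))) (.node (.node (.I .ass (.c 9024908047478665 (.c 48 (.c 12865 .nil))) .nil) (.I .com (.c 12865 (.c 48 .nil)) (.l 9024908047478665 .nil))) (.node (.I .adp (.c 0 (.c 40 (.c 16 .nil))) (.b 15038454533713225 .nil)) (.I .adp (.c 0 (.c 12929 (.c 15038454533713225 .nil))) .nil)))) (.node (.node (.node (.I .ass (.c 2105737 (.c 8385 (.c 12929 .nil))) .nil) (.I .com (.c 12929 (.c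 8385 .nil)) (.l 2105737 .nil))) (.node (.I .ass (.c 35468714087241 (.c 48 (.c 12929 .nil))) .nil) (.I .com (.c 12929 (.c 48 .nil)) (.l 35468714087241 .nil)))) (.node (.node (.I .ass (.c 2306970223667989513 (.c 24 (.c 12865 .nil))) .nil) (.I .com (.c 12865 (.c 24 .nil)) (.l 2306970223667989513 .nil))) (.node (.I .ass (.c 9024942441010185 (.c 24 (.c 12865 .nil))) .nil) (.I .com (.c 12865 (.c 24 .nil)) (.l 9024942441010185 .nil))))))))

noncomputable def c2_232 : Tr := (.node (.node (.node (.node (.node (.node (.I .ass (.c 35473026505609 (.c 24 (.c 12929 .nil))) .nil) (.I .com (.c 12929 (.c 24 .nil)) (.l 35473026505609 .nil))) (.node (.I .ass (.c 2306969673777850377 (.c 24 (.c 12929 .nil))) .nil) (.I .com (.c 12929 (.c 24 .nil)) (.l 2306969673777850377 .nil)))) (.node (.node (.I .jac (.c 0 (.c 8 (.c 16 .nil))) (.b 15246325749294473 .nil)) (.I .adp (.c 8 (.c 16 (.c 40 .nil))) (.b 2306972423229201225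 .nil))) (.node (.I .adp (.c 8 (.c 16 (.c 40 .nil))) (.b 59109068451510808457 .nil)) (.I .jac (.c 18433 (.c 24 (.c 32 .nil))) (.b 35752289 .nil))))) (.node (.node (.node (.I .adp (.c 8 (.c 16 (.c 40 .nil))) (.b 59109071234951844681 .nil)) (.I .adp (.c 8 (.c 16 (.c 40 .nil))) (.b 15246325749294153 .nil))) (.node (.I .adp (.c 8 (.c 16 (.c 40 .nil))) (.b 15038410136445257 .nil)) (.I .adp (.c 8 (.c 16 (.c 40 .nil))) (.b 2306970777854211666 .nil)))) (.node (.node (.I .com (.c 10206437931930633 (.c 24 .nil)) (.b 12801 .nil)) (.I .com (.c 537002377 (.c 24 .nil)) (.b 35752289 .nil))) (.node (.I .adp (.c 8 (.c 16 (.c 40 .nil))) (.b 2306972427525220242 .nil)) (.I .adp (.c 24 (.c 2813400330 (.c 2105481 .nil))) .nil))))) (.node (.node (.node (.node (.I .tdb (.c 40 (.c 48 (.c 8 (.c 32 .nil)))) (.b 0 (.b 16 (.l 24 .nil)))) (.I .tdb (.c 40 (.c 48 (.c 16 (.c 32 .nil)))) (.b 513 (.l 24 .nil)))) (.node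 (.I .tdb (.c 513 (.c 16 (.c 18753 (.c 32 .nil)))) (.l 24 .nil)) (.I .tdb (.c 0 (.c 8 (.c 32 (.c 18753 .nil)))) (.b 16 (.l 24 .nil))))) (.node (.node (.I .tdb (.c 40 (.c 48 (.c 0 (.c 32 .nil)))) (.b 8 (.b 16 (.l 24 .nil)))) (.I .adp (.c 32 (.c 18753 (.c 2105481 .nil))) (.l 24 .nil))) (.node (.I .jac (.c 2105481 (.c 40 (.c 48 .nil))) (.l 32 (.l 24 .nil))) (.I .com (.c 10061790434743040737723204553 (.c 32 .nil)) (.l 24 .nil))))) (.node (.node (.node (.I .com (.c 10061790434706725190145613833 (.c 32 .nil)) (.l 24 .nil)) (.I .ass (.c 24 (.c 10061790434743040737723204553 (.c 32 .nil))) .nil)) (.node (.I .com (.c 24 (.c 10061790434743040737723204553 .nil)) (.r 32 .nil)) (.I .ass (.c 24 (.c 10061790434706725190145613833 (.c 32 .nil))) .nil))) (.node (.node (.I .com (.c 24 (.c 10061790434706725190145613833 .nil)) (.r 32 .nil)) (.I .tdb (.c 513 (.c 16 (.c 24 (.c 32 .nil)))) (.l 18753 .nil)))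 (.node (.I .tdb (.c 0 (.c 8 (.c 24 (.c 32 .nil)))) (.b 16 (.l 18753 .nil))) (.I .tdb (.c 513 (.c 16 (.c 18753 (.c 24 .nil)))) (.r 32 .nil))))))) (.node (.node (.node (.node (.node (.I .tdb (.c 0 (.c 8 (.c 24 (.c 18753 .nil)))) (.b 16 (.r 32 .nil))) (.I .tdb (.c 0 (.c 8 (.c 24 (.c 32 .nil)))) (.b 16 (.b 18753 .nil)))) (.node (.I .tdb (.c 40 (.c 48 (.c 8 (.c 32 .nil)))) (.b 2049 (.l 24 .nil))) (.I .ass (.c 24 (.c 9024839260612489 (.c 18753 .nil))) .nil))) (.node (.node (.I .ass (.c 9024839260612489 (.c 24 (.c 18753 .nil))) .nil) (.I .com (.c 24 (.c 9024839260612489 .nil)) (.r 18753 .nil))) (.node (.I .tdb (.c 40 (.c 48 (.c 8 (.c 24 .nil)))) (.b 2049 (.r 32 .nil))) (.I .tdb (.c 8 (.c 2049 (.c 24 (.c 32 .nil)))) (.b 18753 .nil))))) (.node (.node (.node (.I .tdb (.c 0 (.c 16 (.c 32 (.c 24 .nil)))) (.b 8 (.b 18753 .nil))) (.I .adp (.c 0 (.c 16 (.c 43655363 .nil))) (.b 12865 .nil))) (.node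 (.I .adp (.c 0 (.c 16 (.c 40 .nil))) (.b 15246325749294217 .nil)) (.I .adp (.c 0 (.c 16 (.c 40 .nil))) (.b 15246236343241993 .nil)))) (.node (.node (.I .adp (.c 0 (.c 8 (.c 40 .nil))) (.b 15246325749294281 .nil)) (.I .adp (.c 0 (.c 8 (.c 43655363 .nil))) (.b 12929 .nil))) (.node (.I .adp (.c 0 (.c 8 (.c 40 .nil))) (.b 617629514824137 .nil)) (.I .adp (.c 0 (.c 8 (.c 40 .nil))) (.b 15038498931046729 .nil)))))) (.node (.node (.node (.node (.I .com (.c 35473026505609 (.c 24 .nil)) (.b 12929 .nil)) (.I .com (.c 35468714087433 (.c 24 .nil)) (.b 12929 .nil))) (.node (.I .com (.c 15246236343241801 (.c 24 .nil)) (.b 12929 .nil)) (.I .jac (.c 33587465 (.c 8 (.c 48 .nil))) (.b 12993 .nil)))) (.node (.node (.I .jac (.c 8193 (.c 2113 (.c 48 .nil))) (.b 12993 .nil)) (.I .jac (.c 8193 (.c 8 (.c 16 .nil))) (.b 48 (.b 12993 .nil)))) (.node (.I .jac (.c 2718204169 (.c 8 (.c 16 .nil))) (.b 12993 .nil))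 (.I .tdb (.c 32 (.c 18497 (.c 0 (.c 16 .nil)))) (.b 12993 .nil))))) (.node (.node (.node (.I .jac (.c 2306972423229201097 (.c 24 (.c 40 .nil))) (.r 16 .nil)) (.I .adp (.c 59109062884628932489 (.c 16 (.c 12993 .nil))) .nil)) (.node (.I .adp (.c 35473026505609 (.c 16 (.c 12993 .nil))) .nil) (.I .adp (.c 2049 (.c 2737112329 (.c 12993 .nil))) .nil))) (.node (.node (.I .jac (.c 2049 (.c 24 (.c 40 .nil))) (.r 2737112329 .nil)) (.I .tdb (.c 48 (.c 8257 (.c 0 (.c 16 .nil)))) (.b 12993 .nil))) (.node (.I .tdb (.c 8 (.c 32 (.c 0 (.c 16 .nil)))) (.b 48 (.b 12993 .nil))) (.I .jac (.c 59109071234951844553 (.c 24 (.c 40 .nil))) (.r 16 .nil))))))))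

noncomputable def c2_233 : Tr := (.node (.node (.node (.node (.node (.node (.I .adp (.c 35468714087433 (.c 16 (.c 12993 .nil))) .nil) (.I .adp (.c 2049 (.c 545424777 (.c 12993 .nil))) .nil)) (.node (.I .adp (.c 15246236343241801 (.c 16 (.c 12993 .nil))) .nil) (.I .jac (.c 16 (.c 24 (.c 40 .nil))) (.l 15246236343241801 .nil)))) (.node (.node (.I .jac (.c 15246236343241801 (.c 24 (.c 40 .nil))) (.r 16 .nil)) (.I .adp (.c 2049 (.c 43655235 (.c 12993 .nil))) .nil)) (.node (.I .jac (.c 2049 (.c 8 (.c 48 .nil))) (.r 32 (.b 12993 .nil))) (.I .jac (.c 9025011228269257 (.c 24 (.c 40 .nil))) (.r 32 .nil))))) (.node (.node (.node (.I .jac (.c 35473026505481 (.c 24 (.c 40 .nil))) (.r 32 .nil)) (.I .adp (.c 9024839260612617 (.c 32 (.c 12993 .nil))) .nil)) (.node (.I .adp (.c 8193 (.c 2737112201 (.c 12993 .nil))) .nil) (.I .adp (.c 35718537 (.c 32 (.c 40 .nil))) (.b 4609 .nil)))) (.node (.node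 (.I .adp (.c 35718537 (.c 32 (.c 24 .nil))) (.b 12801 .nil)) (.I .adp (.c 35718537 (.c 32 (.c 0 .nil))) (.b 12993 .nil))) (.node (.I .com (.c 8193 (.c 35718537 .nil)) (.b 12993 .nil)) (.I .jac (.c 18433 (.c 8 (.c 16 .nil))) (.r 32 (.b 12993 .nil))))))) (.node (.node (.node (.node (.I .jac (.c 0 (.c 2113 (.c 48 .nil))) (.r 32 (.b 12993 .nil))) (.I .jac (.c 0 (.c 8 (.c 16 .nil))) (.b 48 (.r 32 (.b 12993 .nil))))) (.node (.I .adp (.c 8193 (.c 35718537 (.c 12993 .nil))) .nil) (.I .adp (.c 14832803796618313 (.c 32 (.c 12993 .nil))) .nil))) (.node (.node (.I .jac (.c 14832803796618313 (.c 24 (.c 40 .nil))) (.r 32 .nil)) (.I .adp (.c 8193 (.c 43059267 (.c 12993 .nil))) .nil)) (.node (.I .com (.c 33587465 (.c 18497 .nil)) (.b 12993 .nil)) (.I .adp (.c 2718203977 (.c 8321 (.c 12993 .nil))) .nil)))) (.node (.node (.node (.I .adp (.c 2105737 (.c 8321 (.c 12993 .nil))) .nil) (.I .jac (.c 537002121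 (.c 24 (.c 40 .nil))) (.r 18497 .nil))) (.node (.I .adp (.c 33587465 (.c 18497 (.c 12993 .nil))) .nil) (.I .jac (.c 0 (.c 8 (.c 48 .nil))) (.r 8322 (.b 12993 .nil))))) (.node (.node (.I .tdp (.c 16 (.c 32 (.c 18497 (.c 0 .nil)))) (.b 12993 .nil)) (.I .tdb (.c 8 (.c 48 (.c 0 (.c 32 .nil)))) (.r 16 (.b 12993 .nil)))) (.node (.I .adp (.c 15246191640313993 (.c 16 (.c 12993 .nil))) .nil) (.I .jac (.c 16 (.c 24 (.c 40 .nil))) (.l 15246191640313993 .nil))))))) (.node (.node (.node (.node (.node (.I .jac (.c 15246191640313993 (.c 24 (.c 40 .nil))) (.r 16 .nil)) (.I .adp (.c 580749782704585 (.c 16 (.c 12993 .nil))) .nil)) (.node (.I .adp (.c 2718203977 (.c 8322 (.c 12993 .nil))) .nil) (.I .tdb (.c 24 (.c 40 (.c 16 (.c 32 .nil)))) (.l 2718203977 .nil)))) (.node (.node (.I .adp (.c 16 (.c 32 (.c 12993 .nil))) (.l 2718203977 .nil)) (.I .jac (.c 16 (.c 24 (.c 40 .nil))) (.r 32 (.l 2718203977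 .nil)))) (.node (.I .jac (.c 2718203977 (.c 24 (.c 40 .nil))) (.r 8322 .nil)) (.I .tdp (.c 16 (.c 32 (.c 12993 (.c 2718203977 .nil)))) .nil)))) (.node (.node (.node (.I .tdb (.c 8 (.c 18433 (.c 16 (.c 40 .nil)))) (.b 24 (.l 32 .nil))) (.I .tdb (.c 8 (.c 18433 (.c 24 (.c 32 .nil)))) (.b 40 (.r 16 .nil)))) (.node (.I .tdb (.c 0 (.c 48 (.c 24 (.c 32 .nil)))) (.b 8 (.b 40 (.r 16 .nil)))) (.I .tdb (.c 24 (.c 40 (.c 2718203977 (.c 32 .nil)))) (.r 16 .nil)))) (.node (.node (.I .adp (.c 2105737 (.c 8322 (.c 12993 .nil))) .nil) (.I .tdb (.c 24 (.c 40 (.c 16 (.c 32 .nil)))) (.l 2105737 .nil))) (.node (.I .adp (.c 16 (.c 32 (.c 12993 .nil))) (.l 2105737 .nil)) (.I .jac (.c 16 (.c 24 (.c 40 .nil))) (.r 32 (.l 2105737 .nil))))))) (.node (.node (.node (.node (.I .tdp (.c 16 (.c 32 (.c 12993 (.c 2105737 .nil)))) .nil) (.I .tdb (.c 513 (.c 48 (.c 16 (.c 40 .nil)))) (.b 24 (.l 32 .nil)))) (.node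 (.I .tdb (.c 0 (.c 8 (.c 16 (.c 40 .nil)))) (.b 48 (.b 24 (.l 32 .nil)))) (.I .tdb (.c 24 (.c 40 (.c 2105737 (.c 16 .nil)))) (.l 32 .nil)))) (.node (.node (.I .tdb (.c 513 (.c 48 (.c 24 (.c 32 .nil)))) (.b 40 (.r 16 .nil))) (.I .tdb (.c 0 (.c 8 (.c 24 (.c 32 .nil)))) (.b 48 (.b 40 (.r 16 .nil))))) (.node (.I .tdb (.c 24 (.c 40 (.c 2105737 (.c 32 .nil)))) (.r 16 .nil)) (.I .adp (.c 8652803 (.c 18497 (.c 12993 .nil))) .nil)))) (.node (.node (.node (.I .jac (.c 8652803 (.c 24 (.c 40 .nil))) (.r 18497 .nil)) (.I .adp (.c 18497 (.c 16 (.c 12993 .nil))) (.l 8193 .nil))) (.node (.I .jac (.c 4609 (.c 8 (.c 43954947 .nil))) (.l 16 .nil)) (.I .tdb (.c 8 (.c 48 (.c 32 (.c 40 .nil)))) (.b 24 (.b 0 (.l 16 .nil)))))) (.node (.node (.I .tdb (.c 0 (.c 32 (.c 12993 (.c 18497 .nil)))) (.l 16 .nil)) (.I .tdb (.c 24 (.c 40 (.c 18497 (.c 0 .nil)))) (.b 32 (.l 16 .nil)))) (.node (.I .tdb (.c 24 (.c 40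 (.c 18497 (.c 32 .nil)))) (.b 0 (.l 16 .nil))) (.I .adp (.c 2049 (.c 2737260306 (.c 12993 .nil))) .nil)))))))

noncomputable def c2_234 : Tr := (.node (.node (.node (.node (.node (.node (.I .jac (.c 2049 (.c 24 (.c 40 .nil))) (.r 2737260306 .nil)) (.I .tdp (.c 18497 (.c 32 (.c 2049 (.c 12993 .nil)))) .nil)) (.node (.I .jac (.c 2049 (.c 8 (.c 32 .nil))) (.r 48 (.b 12993 .nil))) (.I .jac (.c 0 (.c 8257 (.c 16 .nil))) (.r 48 (.b 12993 .nil))))) (.node (.node (.I .jac (.c 0 (.c 8 (.c 32 .nil))) (.b 16 (.r 48 (.b 12993 .nil)))) (.I .adp (.c 9024942441009865 (.c 48 (.c 12993 .nil))) .nil)) (.node (.I .adp (.c 35468714087177 (.c 48 (.c 12993 .nil))) .nil) (.I .jac (.c 8193 (.c 8 (.c 16 .nil))) (.r 48 (.b 12993 .nil)))))) (.node (.node (.node (.I .adp (.c 35464401931145 (.c 48 (.c 12993 .nil))) .nil) (.I .adp (.c 18433 (.c 8652867 (.c 12993 .nil))) .nil)) (.node (.I .adp (.c 537002057 (.c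 18561 (.c 12993 .nil))) .nil) (.I .adp (.c 2105609 (.c 18561 (.c 12993 .nil))) .nil))) (.node (.node (.I .jac (.c 2105609 (.c 24 (.c 40 .nil))) (.r 18561 .nil)) (.I .com (.c 43059203 (.c 8257 .nil)) (.b 12993 .nil))) (.node (.I .jac (.c 16 (.c 24 (.c 40 .nil))) (.l 14629225721520457 .nil)) (.I .adp (.c 8257 (.c 16 (.c 12993 .nil))) (.l 18433 .nil)))))) (.node (.node (.node (.node (.I .jac (.c 16 (.c 24 (.c 40 .nil))) (.l 8257 (.l 18433 .nil))) (.I .jac (.c 8257 (.c 24 (.c 40 .nil))) (.r 16 (.l 18433 .nil)))) (.node (.I .tdb (.c 0 (.c 48 (.c 8 (.c 40 .nil)))) (.b 24 (.b 32 (.l 16 .nil)))) (.I .tdb (.c 8 (.c 32 (.c 12993 (.c 18433 .nil)))) (.l 16 .nil)))) (.node (.node (.I .tdb (.c 24 (.c 40 (.c 18433 (.c 8 .nil)))) (.b 32 (.l 16 .nil))) (.I .tdb (.c 24 (.c 40 (.c 18433 (.c 32 .nil)))) (.b 8 (.l 16 .nil)))) (.node (.I .com (.c 537002377 (.c 2113 .nil)) (.b 12993 .nil)) (.I .adp (.c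 537002377 (.c 2113 (.c 12993 .nil))) .nil)))) (.node (.node (.node (.I .adp (.c 14629225721520329 (.c 32 (.c 12993 .nil))) .nil) (.I .jac (.c 14629225721520329 (.c 24 (.c 40 .nil))) (.r 32 .nil))) (.node (.I .adp (.c 2113 (.c 32 (.c 12993 .nil))) (.l 18433 .nil)) (.I .tdb (.c 0 (.c 48 (.c 24 (.c 32 .nil)))) (.b 40 (.r 2113 .nil))))) (.node (.node (.I .com (.c 1350544777 (.c 32 .nil)) (.l 2105481 .nil)) (.I .tdb (.c 32 (.c 18561 (.c 0 (.c 8 .nil)))) (.b 12993 .nil))) (.node (.I .jac (.c 8193 (.c 16 (.c 48 .nil))) (.l 8 (.b 12993 .nil))) (.I .com (.c 2306972423229201161 (.c 8 .nil)) (.b 12993 .nil))))))) (.node (.node (.node (.node (.node (.I .com (.c 59109065668069837705 (.c 8 .nil)) (.b 12993 .nil)) (.I .adp (.c 2306972423229201161 (.c 8 (.c 12993 .nil))) .nil)) (.node (.I .jac (.c 2306972423229201161 (.c 24 (.c 40 .nil))) (.r 8 .nil)) (.I .adp (.c 59109065668069837705 (.c 8 (.c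 12993 .nil))) .nil))) (.node (.node (.I .jac (.c 8 (.c 24 (.c 40 .nil))) (.l 59109065668069837705 .nil)) (.I .jac (.c 59109065668069837705 (.c 24 (.c 40 .nil))) (.r 8 .nil))) (.node (.I .jac (.c 513 (.c 24 (.c 40 .nil))) (.r 2756086025 .nil)) (.I .jac (.c 42762755 (.c 16 (.c 32 .nil))) (.b 12993 .nil))))) (.node (.node (.node (.I .jac (.c 18433 (.c 16 (.c 32 .nil))) (.l 8 (.b 12993 .nil))) (.I .com (.c 59109071234951844617 (.c 8 .nil)) (.b 12993 .nil))) (.node (.I .adp (.c 59109071234951844617 (.c 8 (.c 12993 .nil))) .nil) (.I .jac (.c 8 (.c 24 (.c 40 .nil))) (.l 59109071234951844617 .nil)))) (.node (.node (.I .jac (.c 59109071234951844617 (.c 24 (.c 40 .nil))) (.r 8 .nil)) (.I .jac (.c 513 (.c 24 (.c 40 .nil))) (.r 553912713 .nil))) (.node (.I .jac (.c 8 (.c 24 (.c 40 .nil))) (.l 15246281046235209 .nil)) (.I .adp (.c 513 (.c 43655299 (.c 12993 .nil))) .nil))))) (.node (.node (.node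 (.node (.I .ass (.c 2718204041 (.c 8 (.c 32 .nil))) (.b 12993 .nil)) (.I .ass (.c 33587593 (.c 8 (.c 32 .nil))) (.b 12993 .nil))) (.node (.I .jac (.c 8 (.c 24 (.c 40 .nil))) (.l 598967998054857 .nil)) (.I .adp (.c 2718204041 (.c 8258 (.c 12993 .nil))) .nil))) (.node (.node (.I .tdb (.c 24 (.c 40 (.c 8 (.c 32 .nil)))) (.l 2718204041 .nil)) (.I .adp (.c 8 (.c 32 (.c 12993 .nil))) (.l 2718204041 .nil))) (.node (.I .jac (.c 8 (.c 24 (.c 40 .nil))) (.r 32 (.l 2718204041 .nil))) (.I .jac (.c 2718204041 (.c 24 (.c 40 .nil))) (.r 8258 .nil))))) (.node (.node (.node (.I .tdp (.c 8 (.c 32 (.c 12993 (.c 2718204041 .nil)))) .nil) (.I .tdb (.c 16 (.c 18433 (.c 8 (.c 40 .nil)))) (.b 24 (.l 32 .nil)))) (.node (.I .tdb (.c 24 (.c 40 (.c 2718204041 (.c 8 .nil)))) (.l 32 .nil)) (.I .tdb (.c 24 (.c 40 (.c 2718204041 (.c 32 .nil)))) (.r 8 .nil)))) (.node (.node (.I .tdb (.c 24 (.c 40 (.c 8 (.c 32 .nil))))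 (.b 2718204041 .nil)) (.I .adp (.c 33587593 (.c 8258 (.c 12993 .nil))) .nil)) (.node (.I .tdb (.c 24 (.c 40 (.c 8 (.c 32 .nil)))) (.l 33587593 .nil)) (.I .adp (.c 8 (.c 32 (.c 12993 .nil))) (.l 33587593 .nil))))))))

noncomputable def c2_235 : Tr := (.node (.node (.node (.node (.node (.node (.I .jac (.c 8 (.c 24 (.c 40 .nil))) (.r 32 (.l 33587593 .nil))) (.I .tdp (.c 8 (.c 32 (.c 12993 (.c 33587593 .nil)))) .nil)) (.node (.I .tdb (.c 24 (.c 40 (.c 33587593 (.c 32 .nil)))) (.r 8 .nil)) (.I .tdb (.c 24 (.c 40 (.c 8 (.c 32 .nil)))) (.b 33587593 .nil)))) (.node (.node (.I .adp (.c 8520195 (.c 18561 (.c 12993 .nil))) .nil) (.I .adp (.c 8193 (.c 2756085834 (.c 12993 .nil))) .nil)) (.node (.I .jac (.c 8193 (.c 24 (.c 40 .nil))) (.r 2756085834 .nil)) (.I .tdp (.c 8 (.c 18561 (.c 8193 (.c 12993 .nil)))) .nil)))) (.node (.node (.node (.I .tdb (.c 0 (.c 32 (.c 12993 (.c 8 .nil)))) (.l 18561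 .nil)) (.I .tdb (.c 24 (.c 40 (.c 0 (.c 8 .nil)))) (.b 32 (.l 18561 .nil)))) (.node (.I .adp (.c 513 (.c 2756234514 (.c 12993 .nil))) .nil) (.I .adp (.c 18561 (.c 32 (.c 12993 .nil))) (.l 513 .nil)))) (.node (.node (.I .jac (.c 513 (.c 24 (.c 40 .nil))) (.r 2756234514 .nil)) (.I .tdp (.c 18561 (.c 32 (.c 513 (.c 12993 .nil)))) .nil)) (.node (.I .com (.c 14832759703961929 (.c 8 .nil)) (.b 12993 .nil)) (.I .adp (.c 14832759703961929 (.c 8 (.c 12993 .nil))) .nil))))) (.node (.node (.node (.node (.I .jac (.c 8 (.c 24 (.c 40 .nil))) (.l 14832759703961929 .nil)) (.I .jac (.c 14832759703961929 (.c 24 (.c 40 .nil))) (.r 8 .nil))) (.node (.I .tdb (.c 0 (.c 48 (.c 8 (.c 40 .nil)))) (.b 24 (.l 8321 .nil))) (.I .tdb (.c 24 (.c 40 (.c 18433 (.c 8 .nil)))) (.l 8321 .nil)))) (.node (.node (.I .tdb (.c 24 (.c 48 (.c 0 (.c 16 .nil)))) (.b 32 (.b 40 (.l 8 .nil)))) (.I .tdb (.c 32 (.c 18625 (.c 0 (.c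 16 .nil)))) (.b 40 (.l 8 .nil)))) (.node (.I .jac (.c 1310925065 (.c 24 (.c 48 .nil))) (.l 16 (.l 8 .nil))) (.I .jac (.c 12801 (.c 18625 (.c 32 .nil))) (.l 16 (.l 8 .nil)))))) (.node (.node (.node (.I .jac (.c 12801 (.c 24 (.c 48 .nil))) (.b 32 (.l 16 (.l 8 .nil)))) (.I .com (.c 1512103191868961706263182477688868913993 (.c 16 .nil)) (.l 8 .nil))) (.node (.I .com (.c 1512103191868961664028723725600700192777 (.c 16 .nil)) (.l 8 .nil)) (.I .ass (.c 8 (.c 1512103191868961706263182477688868913993 (.c 16 .nil))) .nil))) (.node (.node (.I .ass (.c 1512103191868961706263182477688868913993 (.c 8 (.c 16 .nil))) .nil) (.I .com (.c 8 (.c 1512103191868961706263182477688868913993 .nil)) (.r 16 .nil))) (.node (.I .ass (.c 1512102896582526877926683197569543635849 (.c 8 (.c 16 .nil))) .nil) (.I .ass (.c 8 (.c 1512103191868961664028723725600700192777 (.c 16 .nil))) .nil)))))) (.node (.node (.node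 (.node (.node (.I .ass (.c 1512103191868961664028723725600700192777 (.c 8 (.c 16 .nil))) .nil) (.I .com (.c 8 (.c 1512103191868961664028723725600700192777 .nil)) (.r 16 .nil))) (.node (.I .ass (.c 8 (.c 1310924937 (.c 2775125257 .nil))) .nil) (.I .ass (.c 1310924937 (.c 8 (.c 2775125257 .nil))) .nil))) (.node (.node (.I .com (.c 8 (.c 1310924937 .nil)) (.r 2775125257 .nil)) (.I .tdb (.c 0 (.c 40 (.c 8 (.c 16 .nil)))) (.l 2775125257 .nil))) (.node (.I .com (.c 3491710045129801 (.c 2775125257 .nil)) .nil) (.I .tdb (.c 0 (.c 40 (.c 2775125257 (.c 8 .nil)))) (.r 16 .nil))))) (.node (.node (.node (.I .tdb (.c 32 (.c 18625 (.c 0 (.c 8 .nil)))) (.b 40 (.r 16 .nil))) (.I .tdb (.c 0 (.c 40 (.c 8 (.c 16 .nil)))) (.b 2775125257 .nil))) (.node (.I .jac (.c 43059203 (.c 24 (.c 32 .nil))) (.b 40 (.l 8 .nil))) (.I .com (.c 1512102896582526849770380112053152562185 (.c 16 .nil)) (.l 8 .nil)))) (.node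 (.node (.I .ass (.c 8 (.c 1512102896582526849770380112053152562185 (.c 16 .nil))) .nil) (.I .ass (.c 1512102896582526849770380112053152562185 (.c 8 (.c 16 .nil))) .nil)) (.node (.I .com (.c 8 (.c 1512102896582526849770380112053152562185 .nil)) (.r 16 .nil)) (.I .tdb (.c 0 (.c 40 (.c 8 (.c 16 .nil)))) (.b 562466185 .nil)))))) (.node (.node (.node (.node (.I .tdb (.c 0 (.c 48 (.c 8 (.c 40 .nil)))) (.b 32 (.b 24 (.l 16 .nil)))) (.I .tdb (.c 24 (.c 40 (.c 2718204169 (.c 8 .nil)))) (.l 16 .nil))) (.node (.I .tdb (.c 24 (.c 40 (.c 8 (.c 16 .nil)))) (.b 2718204169 .nil)) (.I .tdb (.c 48 (.c 8193 (.c 8 (.c 24 .nil)))) (.b 40 (.l 16 .nil))))) (.node (.node (.I .tdb (.c 0 (.c 32 (.c 8 (.c 24 .nil)))) (.b 48 (.b 40 (.l 16 .nil)))) (.I .tdb (.c 48 (.c 8193 (.c 8 (.c 40 .nil)))) (.b 24 (.l 16 .nil)))) (.node (.I .tdb (.c 0 (.c 32 (.c 8 (.c 40 .nil)))) (.b 48 (.b 24 (.l 16 .nil)))) (.I .tdb (.c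 24 (.c 40 (.c 537002377 (.c 8 .nil)))) (.l 16 .nil))))) (.node (.node (.node (.I .tdb (.c 48 (.c 8193 (.c 8 (.c 16 .nil)))) (.b 12993 .nil)) (.I .tdb (.c 0 (.c 32 (.c 8 (.c 16 .nil)))) (.b 48 (.b 12993 .nil)))) (.node (.I .tdb (.c 24 (.c 40 (.c 8 (.c 16 .nil)))) (.b 537002377 .nil)) (.I .adp (.c 557571 (.c 18689 (.c 12993 .nil))) .nil))) (.node (.node (.I .adp (.c 8 (.c 18689 (.c 12993 .nil))) (.l 2049 .nil)) (.I .adp (.c 43059203 (.c 32 (.c 40 .nil))) (.b 4673 .nil))) (.node (.I .adp (.c 43059203 (.c 32 (.c 24 .nil))) (.b 12865 .nil)) (.I .adp (.c 43059203 (.c 32 (.c 8 .nil))) (.b 12993 .nil))))))))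

noncomputable def c2_236 : Tr := (.node (.node (.node (.node (.node (.node (.I .adp (.c 0 (.c 2379905498923997961 (.c 12993 .nil))) .nil) (.I .jac (.c 0 (.c 24 (.c 40 .nil))) (.r 2379905498923997961 .nil))) (.node (.I .adp (.c 0 (.c 59934265606904515465 (.c 12993 .nil))) .nil) (.I .jac (.c 0 (.c 24 (.c 40 .nil))) (.r 59934265606904515465 .nil)))) (.node (.node (.I .adp (.c 0 (.c 2379903264864635913 (.c 12993 .nil))) .nil) (.I .jac (.c 0 (.c 24 (.c 40 .nil))) (.r 2379903264864635913 .nil))) (.node (.I .jac (.c 15246281046235273 (.c 24 (.c 40 .nil))) (.l 0 .nil)) (.I .adp (.c 0 (.c 15246236343241929 (.c 12993 .nil))) .nil)))) (.node (.node (.node (.I .jac (.c 0 (.c 24 (.c 40 .nil))) (.r 15246236343241929 .nil)) (.I .tdb (.c 16 (.c 18497 (.c 24 (.c 32 .nil)))) (.b 40 (.l 0 .nil)))) (.node (.I .tdb (.c 8 (.c 48 (.c 24 (.c 32 .nil)))) (.b 16 (.b 40 (.l 0 .nil)))) (.I .tdb (.c 24 (.c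 40 (.c 0 (.c 32 .nil)))) (.b 2737112201 .nil)))) (.node (.node (.I .tdp (.c 8257 (.c 18561 (.c 0 (.c 12993 .nil)))) .nil) (.I .adp (.c 0 (.c 14832803796618569 (.c 12993 .nil))) .nil)) (.node (.I .jac (.c 0 (.c 24 (.c 40 .nil))) (.r 14832803796618569 .nil)) (.I .adp (.c 0 (.c 2737326618 (.c 12993 .nil))) .nil))))) (.node (.node (.node (.node (.I .adp (.c 18497 (.c 8321 (.c 12993 .nil))) (.l 0 .nil)) (.I .jac (.c 0 (.c 24 (.c 40 .nil))) (.r 2737326618 .nil))) (.node (.I .tdp (.c 18497 (.c 8321 (.c 0 (.c 12993 .nil)))) .nil) (.I .tdb (.c 8 (.c 48 (.c 0 (.c 40 .nil)))) (.b 24 (.l 8321 .nil))))) (.node (.node (.I .tdb (.c 24 (.c 40 (.c 18497 (.c 0 .nil)))) (.l 8321 .nil)) (.I .com (.c 20891651 (.c 18689 .nil)) (.b 4673 .nil))) (.node (.I .jac (.c 1324066057 (.c 24 (.c 48 .nil))) (.l 16 (.l 0 .nil))) (.I .jac (.c 12865 (.c 18625 (.c 32 .nil))) (.l 16 (.l 0 .nil)))))) (.node (.node (.node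 (.I .jac (.c 12865 (.c 24 (.c 48 .nil))) (.b 32 (.l 16 (.l 0 .nil)))) (.I .com (.c 2737112329 (.c 16 .nil)) (.l 0 (.b 12993 .nil)))) (.node (.I .adp (.c 0 (.c 59934271234407332690 (.c 12993 .nil))) .nil) (.I .adp (.c 2737112329 (.c 16 (.c 12993 .nil))) (.l 0 .nil)))) (.node (.node (.I .jac (.c 16 (.c 24 (.c 40 .nil))) (.l 2737112329 (.l 0 .nil))) (.I .jac (.c 2737112329 (.c 24 (.c 40 .nil))) (.r 16 (.l 0 .nil)))) (.node (.I .jac (.c 0 (.c 24 (.c 40 .nil))) (.r 59934271234407332690 .nil)) (.I .tdp (.c 2737112329 (.c 16 (.c 0 (.c 12993 .nil)))) .nil)))))) (.node (.node (.node (.node (.node (.I .jac (.c 8786435 (.c 8 (.c 48 .nil))) (.b 40 (.l 16 .nil))) (.I .tdb (.c 8 (.c 48 (.c 0 (.c 40 .nil)))) (.b 32 (.b 24 (.l 16 .nil))))) (.node (.I .tdb (.c 32 (.c 18497 (.c 0 (.c 40 .nil)))) (.b 24 (.l 16 .nil))) (.I .tdb (.c 24 (.c 40 (.c 2737112329 (.c 0 .nil)))) (.l 16 .nil)))) (.node (.node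 (.I .com (.c 26186512359090026768196227558961301156345883085621217037498232634313 (.c 16 .nil)) .nil) (.I .tdb (.c 24 (.c 40 (.c 0 (.c 16 .nil)))) (.r 2737112329 .nil))) (.node (.I .com (.c 26186512359091364093173356798833964732953085251393677352777828487113 (.c 16 .nil)) .nil) (.I .adp (.c 12801 (.c 24 (.c 2379905498923997961 .nil))) .nil)))) (.node (.node (.node (.I .adp (.c 4609 (.c 40 (.c 2379905498923997961 .nil))) .nil) (.I .adp (.c 4609 (.c 40 (.c 59934265606904515465 .nil))) .nil)) (.node (.I .adp (.c 4609 (.c 40 (.c 10206511083363209 .nil))) .nil) (.I .adp (.c 12865 (.c 24 (.c 2306972423229201161 .nil))) .nil))) (.node (.node (.I .adp (.c 4673 (.c 40 (.c 2306972423229201161 .nil))) .nil) (.I .adp (.c 24 (.c 40 (.c 8 .nil))) (.b 59109065668069837705 .nil))) (.node (.I .com (.c 12865 (.c 24 .nil)) (.b 59109065668069837705 .nil)) (.I .com (.c 27951053153217538953647197609480317336393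 (.c 12865 .nil)) .nil))))) (.node (.node (.node (.node (.I .com (.c 27951053153217538953647197609480317336521 (.c 4673 .nil)) .nil) (.I .adp (.c 4609 (.c 40 (.c 59934271212510434057 .nil))) .nil)) (.node (.I .adp (.c 24 (.c 40 (.c 0 .nil))) (.b 10206437931930633 .nil)) (.I .com (.c 12801 (.c 24 .nil)) (.b 10206437931930633 .nil)))) (.node (.node (.I .adp (.c 12801 (.c 24 (.c 10206437931930633 .nil))) .nil) (.I .adp (.c 4673 (.c 40 (.c 59109071234951844617 .nil))) .nil)) (.node (.I .adp (.c 24 (.c 40 (.c 8 .nil))) (.b 9024942441010185 .nil)) (.I .com (.c 12865 (.c 24 .nil)) (.b 9024942441010185 .nil))))) (.node (.node (.node (.I .adp (.c 12865 (.c 24 (.c 9024942441010185 .nil))) .nil) (.I .adp (.c 4673 (.c 40 (.c 9024942441010185 .nil))) .nil)) (.node (.I .adp (.c 12801 (.c 24 (.c 15246281046235273 .nil))) .nil) (.I .adp (.c 4609 (.c 40 (.c 15246281046235273 .nil))) .nil))) (.node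 (.node (.I .adp (.c 12865 (.c 24 (.c 15246281046235209 .nil))) .nil) (.I .jac (.c 8 (.c 16 (.c 48 .nil))) (.r 32 (.b 1310925001 .nil)))) (.node (.I .adp (.c 35718537 (.c 32 (.c 1310925001 .nil))) .nil) (.I .adp (.c 8257 (.c 18561 (.c 1310925001 .nil))) .nil)))))))

noncomputable def c2_237 : Tr := (.node (.node (.node (.node (.node (.node (.I .adp (.c 35718537 (.c 32 (.c 169943369 .nil))) .nil) (.I .jac (.c 2718204041 (.c 4673 (.c 40 .nil))) (.r 32 .nil))) (.node (.I .jac (.c 2718204041 (.c 8 (.c 24 .nil))) (.b 40 (.r 32 .nil))) (.I .jac (.c 21099011 (.c 18497 (.c 16 .nil))) (.r 32 .nil)))) (.node (.node (.I .adp (.c 8257 (.c 18561 (.c 21099011 .nil))) .nil) (.I .adp (.c 12801 (.c 24 (.c 15246236343241929 .nil))) .nil)) (.node (.I .ass (.c 1512102601296135297671723270643481494217 (.c 32 (.c 24 .nil))) .nil) (.I .com (.c 24 (.c 32 .nil)) (.l 1512102601296135297671723270643481494217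 .nil))))) (.node (.node (.node (.I .ass (.c 1512102306009786965494079912008658879241 (.c 32 (.c 24 .nil))) .nil) (.I .com (.c 24 (.c 32 .nil)) (.l 1512102306009786965494079912008658879241 .nil))) (.node (.I .ass (.c 1512102601296135227280972429874805772297 (.c 32 (.c 24 .nil))) .nil) (.I .com (.c 24 (.c 32 .nil)) (.l 1512102601296135227280972429874805772297 .nil)))) (.node (.node (.I .tdb (.c 0 (.c 40 (.c 24 (.c 32 .nil)))) (.r 2737112201 .nil)) (.I .tdb (.c 2113 (.c 48 (.c 24 (.c 32 .nil)))) (.l 12801 .nil))) (.node (.I .tdb (.c 8 (.c 16 (.c 32 (.c 24 .nil)))) (.b 48 (.l 12801 .nil))) (.I .ass (.c 1512102306009786909181484737811290911753 (.c 32 (.c 24 .nil))) .nil))))) (.node (.node (.node (.node (.I .com (.c 24 (.c 32 .nil)) (.l 1512102306009786909181484737811290911753 .nil)) (.I .tdb (.c 0 (.c 40 (.c 18561 (.c 24 .nil)))) (.r 8257 .nil))) (.node (.I .tdb (.c 16 (.c 48 (.c 8 (.c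 32 .nil)))) (.b 169980242 .nil)) (.I .adp (.c 4609 (.c 40 (.c 15246236343241929 .nil))) .nil))) (.node (.node (.I .adp (.c 4609 (.c 40 (.c 598976858557897 .nil))) .nil) (.I .tdb (.c 8 (.c 48 (.c 0 (.c 32 .nil)))) (.b 16 (.b 24 (.r 40 .nil))))) (.node (.I .jac (.c 169943177 (.c 8 (.c 48 .nil))) (.r 32 (.r 40 .nil))) (.I .ass (.c 427056063571158386490489209096946377 (.c 32 (.c 40 .nil))) .nil)))) (.node (.node (.node (.I .ass (.c 427055420260303274284998876733539081 (.c 32 (.c 40 .nil))) .nil) (.I .ass (.c 427056063571157203537696782463438857 (.c 32 (.c 40 .nil))) .nil)) (.node (.I .ass (.c 427055420260302327923477728639448073 (.c 32 (.c 40 .nil))) .nil) (.I .adp (.c 4609 (.c 40 (.c 2756151826 .nil))) .nil))) (.node (.node (.I .adp (.c 8257 (.c 18561 (.c 40 .nil))) (.l 4609 .nil)) (.I .tdb (.c 0 (.c 24 (.c 8257 (.c 18561 .nil)))) (.r 40 .nil))) (.node (.I .tdb (.c 8 (.c 32 (.c 18561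 (.c 0 .nil)))) (.b 24 (.r 40 .nil))) (.I .jac (.c 8 (.c 16 (.c 43655363 .nil))) (.b 0 (.r 40 .nil)))))))) (.node (.node (.node (.node (.node (.I .tdb (.c 8 (.c 32 (.c 18561 (.c 24 .nil)))) (.b 0 (.r 40 .nil))) (.I .tdb (.c 16 (.c 48 (.c 24 (.c 32 .nil)))) (.b 8 (.b 0 (.r 40 .nil))))) (.node (.I .adp (.c 8257 (.c 18561 (.c 4609 .nil))) (.r 40 .nil)) (.I .jac (.c 4609 (.c 16 (.c 48 .nil))) (.l 8257 (.r 40 .nil))))) (.node (.node (.I .com (.c 231046163358604041 (.c 8257 .nil)) (.r 40 .nil)) (.I .com (.c 231045467270827017 (.c 8257 .nil)) (.r 40 .nil))) (.node (.I .jac (.c 4609 (.c 8 (.c 32 .nil))) (.r 18561 (.r 40 .nil))) (.I .ass (.c 231045815314584265 (.c 18561 (.c 40 .nil))) .nil)))) (.node (.node (.node (.I .tdp (.c 8257 (.c 18561 (.c 4609 (.c 40 .nil)))) .nil) (.I .jac (.c 8193 (.c 16 (.c 48 .nil))) (.b 21099075 .nil))) (.node (.I .adp (.c 2718204041 (.c 32 (.c 21099075 .nil)))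 .nil) (.I .tdb (.c 8 (.c 40 (.c 24 (.c 32 .nil)))) (.r 2718204041 .nil)))) (.node (.node (.I .tdb (.c 8 (.c 40 (.c 24 (.c 32 .nil)))) (.r 33587593 .nil)) (.I .adp (.c 4673 (.c 40 (.c 15246191640314057 .nil))) .nil)) (.node (.I .ass (.c 4673 (.c 59109065668069837769 (.c 32 .nil))) .nil) (.I .ass (.c 59109065668069837769 (.c 4673 (.c 32 .nil))) .nil))))) (.node (.node (.node (.node (.I .com (.c 4673 (.c 59109065668069837769 .nil)) (.r 32 .nil)) (.I .tdb (.c 0 (.c 48 (.c 8 (.c 32 .nil)))) (.b 16 (.b 24 (.r 40 .nil))))) (.node (.I .tdb (.c 0 (.c 48 (.c 24 (.c 32 .nil)))) (.b 16 (.b 8 (.r 40 .nil)))) (.I .tdb (.c 2049 (.c 48 (.c 24 (.c 32 .nil)))) (.b 8 (.r 40 .nil))))) (.node (.node (.I .tdb (.c 0 (.c 16 (.c 32 (.c 24 .nil)))) (.b 48 (.b 8 (.r 40 .nil)))) (.I .tdb (.c 16 (.c 48 (.c 8 (.c 32 .nil)))) (.b 0 (.b 24 (.r 40 .nil))))) (.node (.I .tdb (.c 16 (.c 48 (.c 24 (.c 32 .nil)))) (.b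 0 (.b 8 (.r 40 .nil)))) (.I .tdb (.c 8 (.c 24 (.c 8193 (.c 18561 .nil)))) (.r 40 .nil))))) (.node (.node (.node (.I .jac (.c 8193 (.c 8 (.c 24 .nil))) (.r 18561 (.r 40 .nil))) (.I .adp (.c 18497 (.c 8321 (.c 1310925001 .nil))) .nil)) (.node (.I .adp (.c 545424521 (.c 48 (.c 1310925001 .nil))) .nil) (.I .adp (.c 18497 (.c 8321 (.c 169943369 .nil))) .nil))) (.node (.node (.I .adp (.c 35718409 (.c 48 (.c 169943369 .nil))) .nil) (.I .jac (.c 0 (.c 16 (.c 32 .nil))) (.r 48 (.b 1324065993 .nil)))) (.node (.I .adp (.c 18433 (.c 8321 (.c 1324065993 .nil))) .nil) (.I .adp (.c 537002121 (.c 48 (.c 1324065993 .nil))) .nil)))))))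

noncomputable def c2_238 : Tr := (.node (.node (.node (.node (.node (.node (.I .adp (.c 33587465 (.c 48 (.c 1324065993 .nil))) .nil) (.I .adp (.c 537002121 (.c 48 (.c 174695753 .nil))) .nil)) (.node (.I .jac (.c 21099011 (.c 16 (.c 32 .nil))) (.l 18497 .nil)) (.I .com (.c 13748196208362033929 (.c 18497 .nil)) (.r 24 .nil)))) (.node (.node (.I .tdb (.c 8 (.c 48 (.c 0 (.c 16 .nil)))) (.b 32 (.b 24 (.r 40 .nil)))) (.I .com (.c 231045467270826889 (.c 18497 .nil)) (.r 40 .nil))) (.node (.I .jac (.c 169943177 (.c 8 (.c 32 .nil))) (.r 48 (.r 40 .nil))) (.I .adp (.c 18433 (.c 8321 (.c 21099075 .nil))) .nil)))) (.node (.node (.node (.I .adp (.c 537002121 (.c 48 (.c 21099075 .nil))) .nil) (.I .adp (.c 12865 (.c 24 (.c 14832759703961929 .nil))) .nil)) (.node (.I .ass (.c 59109062884628932553 (.c 8321 (.c 24 .nil))) .nil) (.I .adp (.c 12865 (.c 24 (.c 2306970227964006482 .nil))) .nil))) (.node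 (.node (.I .adp (.c 537002121 (.c 48 (.c 24 .nil))) (.l 12865 .nil)) (.I .adp (.c 537002121 (.c 48 (.c 12865 .nil))) (.r 24 .nil))) (.node (.I .tdp (.c 537002121 (.c 48 (.c 24 (.c 12865 .nil)))) .nil) (.I .tdb (.c 8 (.c 40 (.c 24 (.c 48 .nil)))) (.r 537002121 .nil)))))) (.node (.node (.node (.node (.I .adp (.c 4673 (.c 40 (.c 14832759703961929 .nil))) .nil) (.I .adp (.c 4673 (.c 40 (.c 2718417946 .nil))) .nil)) (.node (.I .adp (.c 18433 (.c 8321 (.c 40 .nil))) (.l 4673 .nil)) (.I .tdb (.c 0 (.c 48 (.c 8 (.c 16 .nil)))) (.b 32 (.b 24 (.r 40 .nil)))))) (.node (.node (.I .tdb (.c 8 (.c 24 (.c 8321 (.c 18433 .nil)))) (.r 40 .nil)) (.I .tdb (.c 16 (.c 32 (.c 18433 (.c 8 .nil)))) (.b 24 (.r 40 .nil)))) (.node (.I .tdb (.c 16 (.c 32 (.c 18433 (.c 24 .nil)))) (.b 8 (.r 40 .nil))) (.I .adp (.c 18433 (.c 8321 (.c 4673 .nil))) (.r 40 .nil))))) (.node (.node (.node (.I .jac (.c 4673 (.c 16 (.c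 32 .nil))) (.l 18433 (.r 40 .nil))) (.I .jac (.c 18433 (.c 8 (.c 24 .nil))) (.r 8321 (.r 40 .nil)))) (.node (.I .ass (.c 59109068451510808265 (.c 8321 (.c 40 .nil))) .nil) (.I .ass (.c 18433 (.c 244148670041477897 (.c 40 .nil))) .nil))) (.node (.node (.I .ass (.c 18433 (.c 244148312264838025 (.c 40 .nil))) .nil) (.I .tdp (.c 18433 (.c 8321 (.c 4673 (.c 40 .nil)))) .nil)) (.node (.I .ass (.c 42576892903125861400833495191760328393 (.c 48 (.c 40 .nil))) .nil) (.I .com (.c 40 (.c 48 .nil)) (.l 42576892903125861400833495191760328393 .nil))))))) (.node (.node (.node (.node (.node (.I .ass (.c 42576892903125856676158477119718330185 (.c 48 (.c 40 .nil))) .nil) (.I .com (.c 40 (.c 48 .nil)) (.l 42576892903125856676158477119718330185 .nil))) (.node (.I .com (.c 2737112329 (.c 16 .nil)) (.b 1310925001 .nil)) (.I .adp (.c 2737112329 (.c 16 (.c 1310925001 .nil))) .nil))) (.node (.node (.I .adp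 (.c 545424777 (.c 16 (.c 1310925001 .nil))) .nil) (.I .adp (.c 2113 (.c 18689 (.c 1310925001 .nil))) .nil)) (.node (.I .jac (.c 1310925001 (.c 32 (.c 48 .nil))) (.l 2113 .nil)) (.I .com (.c 545424777 (.c 16 .nil)) (.b 169943369 .nil))))) (.node (.node (.node (.I .adp (.c 545424777 (.c 16 (.c 169943369 .nil))) .nil) (.I .adp (.c 2113 (.c 18689 (.c 169943369 .nil))) .nil)) (.node (.I .com (.c 2718204169 (.c 16 .nil)) (.b 1324065993 .nil)) (.I .adp (.c 2718204169 (.c 16 (.c 1324065993 .nil))) .nil))) (.node (.node (.I .jac (.c 2718204169 (.c 12865 (.c 24 .nil))) (.r 16 .nil)) (.I .jac (.c 2718204169 (.c 8 (.c 40 .nil))) (.b 24 (.r 16 .nil)))) (.node (.I .com (.c 537002377 (.c 16 .nil)) (.b 174695753 .nil)) (.I .com (.c 2718204169 (.c 16 .nil)) (.b 174695753 .nil)))))) (.node (.node (.node (.node (.I .jac (.c 2718204169 (.c 8 (.c 24 .nil))) (.b 40 (.r 16 .nil))) (.I .adp (.c 537002377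 (.c 16 (.c 174695753 .nil))) .nil)) (.node (.I .jac (.c 3561346121425225 (.c 8 (.c 48 .nil))) (.r 16 .nil)) (.I .tdb (.c 32 (.c 18497 (.c 0 (.c 16 .nil)))) (.b 40 (.r 24 .nil))))) (.node (.node (.I .jac (.c 1310925065 (.c 8 (.c 48 .nil))) (.r 16 (.r 24 .nil))) (.I .ass (.c 1512102306009786965494079912008658879369 (.c 16 (.c 24 .nil))) .nil)) (.node (.I .tdb (.c 0 (.c 40 (.c 2737112329 (.c 24 .nil)))) (.l 16 .nil)) (.I .tdb (.c 32 (.c 18497 (.c 24 (.c 40 .nil)))) (.b 0 (.l 16 .nil)))))) (.node (.node (.node (.I .ass (.c 1512102306009786937337782324909974764553 (.c 16 (.c 24 .nil))) .nil) (.I .jac (.c 24 (.c 32 (.c 48 .nil))) (.l 2113 (.l 12801 .nil)))) (.node (.I .ass (.c 427058636821845719787018514561732489 (.c 16 (.c 40 .nil))) .nil) (.I .jac (.c 169943433 (.c 8 (.c 32 .nil))) (.r 16 (.r 40 .nil))))) (.node (.node (.I .ass (.c 427058636821846429560832352193444553 (.c 16 (.c 40 .nil)))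 .nil) (.I .adp (.c 537002377 (.c 16 (.c 21099075 .nil))) .nil)) (.node (.I .ass (.c 12865 (.c 59109071234951844681 (.c 16 .nil))) .nil) (.I .ass (.c 59109071234951844681 (.c 12865 (.c 16 .nil))) .nil)))))))

noncomputable def c2_239 : Tr := (.node (.node (.node (.node (.node (.node (.I .com (.c 12865 (.c 59109071234951844681 .nil)) (.r 16 .nil)) (.I .tdb (.c 32 (.c 18433 (.c 8 (.c 16 .nil)))) (.b 40 (.r 24 .nil)))) (.node (.I .tdb (.c 0 (.c 48 (.c 8 (.c 16 .nil)))) (.b 32 (.b 40 (.r 24 .nil)))) (.I .ass (.c 27951058418068892863957554057219361971913 (.c 16 (.c 24 .nil))) .nil))) (.node (.node (.I .ass (.c 27951058418068892621846798278856606158793 (.c 16 (.c 24 .nil))) .nil) (.I .ass (.c 2718204169 (.c 1324065929 (.c 24 .nil))) .nil)) (.node (.I .tdb (.c 0 (.c 48 (.c 24 (.c 40 .nil)))) (.b 32 (.b 8 (.l 16 .nil)))) (.I .tdb (.c 8 (.c 40 (.c 2718204169 (.c 24 .nil)))) (.l 16 .nil)))))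 (.node (.node (.node (.I .adp (.c 12865 (.c 24 (.c 2306972427525220178 .nil))) .nil) (.I .adp (.c 537002377 (.c 16 (.c 24 .nil))) (.l 12865 .nil))) (.node (.I .tdb (.c 8 (.c 40 (.c 537002377 (.c 16 .nil)))) (.r 24 .nil)) (.I .adp (.c 537002377 (.c 16 (.c 12865 .nil))) (.r 24 .nil)))) (.node (.node (.I .tdp (.c 537002377 (.c 16 (.c 24 (.c 12865 .nil)))) .nil) (.I .jac (.c 24 (.c 32 (.c 48 .nil))) (.l 2049 (.l 12865 .nil)))) (.node (.I .com (.c 2718204169 (.c 16 .nil)) (.b 174733138 .nil)) (.I .adp (.c 4673 (.c 40 (.c 59109071256697477970 .nil))) .nil))))) (.node (.node (.node (.node (.I .adp (.c 2718204169 (.c 16 (.c 40 .nil))) (.l 4673 .nil)) (.I .tdb (.c 8 (.c 24 (.c 2718204169 (.c 16 .nil)))) (.r 40 .nil))) (.node (.I .adp (.c 2718204169 (.c 16 (.c 4673 .nil))) (.r 40 .nil)) (.I .jac (.c 2718204169 (.c 8 (.c 24 .nil))) (.r 16 (.r 40 .nil))))) (.node (.node (.I .tdp (.c 2718204169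 (.c 16 (.c 4673 (.c 40 .nil)))) .nil) (.I .tdb (.c 8 (.c 24 (.c 40 (.c 2718204169 .nil)))) (.l 16 .nil))) (.node (.I .ass (.c 42576974092320101918705356412332005065 (.c 16 (.c 40 .nil))) .nil) (.I .ass (.c 42576974092320097194025833638928027465 (.c 16 (.c 40 .nil))) .nil)))) (.node (.node (.node (.I .com (.c 43655235 (.c 16 .nil)) (.b 1310925001 .nil)) (.I .ass (.c 18497 (.c 16 (.c 32 .nil))) (.b 1310925001 .nil))) (.node (.I .ass (.c 16 (.c 8257 (.c 48 .nil))) (.b 1310925001 .nil)) (.I .ass (.c 8257 (.c 16 (.c 48 .nil))) (.b 1310925001 .nil)))) (.node (.node (.I .com (.c 16 (.c 8257 .nil)) (.r 48 (.b 1310925001 .nil))) (.I .adp (.c 18497 (.c 8322 (.c 1310925001 .nil))) .nil)) (.node (.I .adp (.c 16 (.c 32 (.c 1310925001 .nil))) (.l 18497 .nil)) (.I .tdb (.c 24 (.c 12801 (.c 18497 (.c 16 .nil)))) (.l 32 .nil))))))) (.node (.node (.node (.node (.node (.I .tdb (.c 24 (.c 12801 (.c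 16 (.c 32 .nil)))) (.b 18497 .nil)) (.I .adp (.c 8257 (.c 18562 (.c 1310925001 .nil))) .nil)) (.node (.I .adp (.c 16 (.c 48 (.c 1310925001 .nil))) (.l 8257 .nil)) (.I .ass (.c 18497 (.c 16 (.c 32 .nil))) (.b 169943369 .nil)))) (.node (.node (.I .adp (.c 43059267 (.c 32 (.c 169943369 .nil))) .nil) (.I .adp (.c 18497 (.c 8322 (.c 169943369 .nil))) .nil)) (.node (.I .adp (.c 16 (.c 32 (.c 169943369 .nil))) (.l 18497 .nil)) (.I .tdp (.c 16 (.c 32 (.c 169943369 (.c 18497 .nil)))) .nil)))) (.node (.node (.node (.I .tdb (.c 4609 (.c 40 (.c 16 (.c 32 .nil)))) (.b 18497 .nil)) (.I .tdb (.c 0 (.c 24 (.c 32 (.c 16 .nil)))) (.b 40 (.b 18497 .nil)))) (.node (.I .adp (.c 8257 (.c 18562 (.c 169943369 .nil))) .nil) (.I .adp (.c 16 (.c 48 (.c 169943369 .nil))) (.l 8257 .nil)))) (.node (.node (.I .adp (.c 2113 (.c 18690 (.c 169943369 .nil))) .nil) (.I .adp (.c 32 (.c 48 (.c 169943369 .nil))) (.l 2113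 .nil))) (.node (.I .tdb (.c 24 (.c 12865 (.c 16 (.c 32 .nil)))) (.b 18433 .nil)) (.I .com (.c 14025206030552608777 (.c 32 .nil)) (.l 2049 .nil)))))) (.node (.node (.node (.node (.I .tdb (.c 4673 (.c 40 (.c 16 (.c 32 .nil)))) (.l 18433 .nil)) (.I .tdb (.c 8 (.c 24 (.c 32 (.c 16 .nil)))) (.b 40 (.l 18433 .nil)))) (.node (.I .jac (.c 3491688652046793 (.c 8 (.c 24 .nil))) (.l 32 .nil)) (.I .tdb (.c 0 (.c 48 (.c 16 (.c 40 .nil)))) (.b 4673 (.l 32 .nil))))) (.node (.node (.I .jac (.c 0 (.c 8 (.c 40 .nil))) (.b 15246281046235401 .nil)) (.I .adp (.c 8 (.c 40 (.c 24 .nil))) (.b 2306972423229201161 .nil))) (.node (.I .jac (.c 2306972423229201161 (.c 24 (.c 40 .nil))) (.l 8 .nil)) (.I .adp (.c 8 (.c 40 (.c 24 .nil))) (.b 59109065668069837705 .nil))))) (.node (.node (.node (.I .jac (.c 59109065668069837705 (.c 24 (.c 40 .nil))) (.l 8 .nil)) (.I .com (.c 6250090978991937016972231763044093526007451881297056730798175871202725020483067721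 (.c 8 .nil)) .nil)) (.node (.I .com (.c 6250090978991937016972231763044093525950208124439267211021106410498509330578003913 (.c 8 .nil)) .nil) (.I .jac (.c 18433 (.c 16 (.c 32 .nil))) (.b 1324271841 .nil)))) (.node (.node (.I .adp (.c 8 (.c 12993 (.c 59109071234951844617 .nil))) .nil) (.I .com (.c 6250093333522399276025990150979397412214667254369471941423266700893722849102616521 (.c 8 .nil)) .nil)) (.node (.I .adp (.c 8 (.c 12993 (.c 15246281046235209 .nil))) .nil) (.I .jac (.c 15246281046235209 (.c 24 (.c 40 .nil))) (.l 8 .nil))))))))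

noncomputable def c2_240 : Tr := (.node (.node (.node (.node (.node (.node (.I .adp (.c 18561 (.c 32 (.c 24 .nil))) (.b 2105673 .nil)) (.I .adp (.c 8 (.c 12993 (.c 15246191640314057 .nil))) .nil)) (.node (.I .adp (.c 2718204041 (.c 32 (.c 12993 .nil))) (.l 8 .nil)) (.I .tdb (.c 16 (.c 18433 (.c 8 (.c 32 .nil)))) (.r 12993 .nil)))) (.node (.node (.I .tdb (.c 24 (.c 40 (.c 33587593 (.c 32 .nil)))) (.l 8 .nil)) (.I .adp (.c 33587593 (.c 32 (.c 12993 .nil))) (.l 8 .nil))) (.node (.I .tdb (.c 2049 (.c 48 (.c 8 (.c 32 .nil)))) (.r 12993 .nil)) (.I .tdb (.c 0 (.c 16 (.c 32 (.c 8 .nil)))) (.b 48 (.r 12993 .nil)))))) (.node (.node (.node (.I .ass (.c 9025011228269257 (.c 32 (.c 12993 .nil))) .nil) (.I .com (.c 12993 (.c 32 .nil)) (.l 9025011228269257 .nil))) (.node (.I .adp (.c 8193 (.c 18561 (.c 12993 .nil))) (.l 8 .nil)) (.I .jac (.c 18561 (.c 24 (.c 40 .nil))) (.l 8193 (.l 8 .nil)))))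 (.node (.node (.I .jac (.c 8193 (.c 24 (.c 40 .nil))) (.r 18561 (.l 8 .nil))) (.I .ass (.c 8 (.c 8193 (.c 60768084239834527561 .nil))) .nil)) (.node (.I .ass (.c 8193 (.c 8 (.c 60768084239834527561 .nil))) .nil) (.I .com (.c 8 (.c 8193 .nil)) (.r 60768084239834527561 .nil)))))) (.node (.node (.node (.node (.I .ass (.c 8 (.c 8193 (.c 60768078595370348489 .nil))) .nil) (.I .ass (.c 8193 (.c 8 (.c 60768078595370348489 .nil))) .nil)) (.node (.I .com (.c 8 (.c 8193 .nil)) (.r 60768078595370348489 .nil)) (.I .adp (.c 8321 (.c 48 (.c 24 .nil))) (.b 2105673 .nil)))) (.node (.node (.I .adp (.c 8 (.c 12993 (.c 2718417946 .nil))) .nil) (.I .adp (.c 18433 (.c 8321 (.c 12993 .nil))) (.l 8 .nil))) (.node (.I .jac (.c 18433 (.c 24 (.c 40 .nil))) (.r 8321 (.l 8 .nil))) (.I .tdb (.c 16 (.c 32 (.c 18433 (.c 8 .nil)))) (.r 12993 .nil))))) (.node (.node (.node (.I .adp (.c 18433 (.c 8321 (.c 8 .nil)))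 (.r 12993 .nil)) (.I .jac (.c 8 (.c 16 (.c 32 .nil))) (.l 18433 (.r 12993 .nil)))) (.node (.I .tdp (.c 18433 (.c 8321 (.c 8 (.c 12993 .nil)))) .nil) (.I .adp (.c 8 (.c 12993 (.c 2306970227964006482 .nil))) .nil))) (.node (.node (.I .adp (.c 537002121 (.c 48 (.c 8 .nil))) (.r 12993 .nil)) (.I .ass (.c 2306970223667989193 (.c 48 (.c 12993 .nil))) .nil)) (.node (.I .com (.c 12993 (.c 48 .nil)) (.l 2306970223667989193 .nil)) (.I .tdp (.c 537002121 (.c 48 (.c 8 (.c 12993 .nil)))) .nil)))))) (.node (.node (.node (.node (.node (.I .tdb (.c 24 (.c 40 (.c 8 (.c 48 .nil)))) (.r 537002121 .nil)) (.I .jac (.c 13748192181200529289 (.c 24 (.c 48 .nil))) (.l 16 .nil))) (.node (.I .jac (.c 1310924873 (.c 18625 (.c 32 .nil))) (.l 16 .nil)) (.I .jac (.c 1310924873 (.c 24 (.c 48 .nil))) (.b 32 (.l 16 .nil))))) (.node (.node (.I .com (.c 18291627070720922696274976743898254759723689914674957301731807853614859805906953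 (.c 16 .nil)) .nil) (.I .jac (.c 1310924873 (.c 24 (.c 32 .nil))) (.b 48 (.l 16 .nil)))) (.node (.I .adp (.c 16 (.c 2775125257 (.c 2105673 .nil))) .nil) (.I .adp (.c 16 (.c 562466185 (.c 2105673 .nil))) .nil)))) (.node (.node (.node (.I .jac (.c 3423058053194057 (.c 24 (.c 48 .nil))) (.l 16 .nil)) (.I .jac (.c 20685315 (.c 18625 (.c 32 .nil))) (.l 16 .nil))) (.node (.I .com (.c 70295418264026570724123255045173558057950527221325376179752114185 (.c 16 .nil)) .nil) (.I .com (.c 70295418264021313545660038924892751035385032092094293128619817993 (.c 16 .nil)) .nil))) (.node (.node (.I .tdb (.c 32 (.c 18625 (.c 8 (.c 16 .nil)))) (.l 12801 .nil)) (.I .tdb (.c 0 (.c 40 (.c 2775125257 (.c 16 .nil)))) (.r 8 .nil))) (.node (.I .jac (.c 1310925065 (.c 24 (.c 48 .nil))) (.l 16 (.r 8 .nil))) (.I .com (.c 1512103191868961706263182477688868913993 (.c 16 .nil)) (.r 8 .nil)))))) (.node (.node (.node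 (.node (.I .com (.c 1512103191868961664028723725600700192777 (.c 16 .nil)) (.r 8 .nil)) (.I .ass (.c 1512103191868961706263182477688868913993 (.c 16 (.c 8 .nil))) .nil)) (.node (.I .com (.c 8 (.c 16 .nil)) (.l 1512103191868961706263182477688868913993 .nil)) (.I .ass (.c 1512103191868961664028723725600700192777 (.c 16 (.c 8 .nil))) .nil))) (.node (.node (.I .com (.c 8 (.c 16 .nil)) (.l 1512103191868961664028723725600700192777 .nil)) (.I .com (.c 10063013877651720715266098057 (.c 16 .nil)) (.r 40 .nil))) (.node (.I .com (.c 10063013877579085204530183177 (.c 16 .nil)) (.r 40 .nil)) (.I .com (.c 2718204169 (.c 16 .nil)) (.b 1350544458 .nil))))) (.node (.node (.node (.I .adp (.c 8 (.c 12993 (.c 59109071256697477970 .nil))) .nil) (.I .adp (.c 2718204169 (.c 16 (.c 12993 .nil))) (.l 8 .nil))) (.node (.I .jac (.c 16 (.c 24 (.c 40 .nil))) (.l 2718204169 (.l 8 .nil))) (.I .jac (.c 2718204169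 (.c 24 (.c 40 .nil))) (.r 16 (.l 8 .nil))))) (.node (.node (.I .tdb (.c 32 (.c 18433 (.c 8 (.c 16 .nil)))) (.r 12993 .nil)) (.I .adp (.c 2718204169 (.c 16 (.c 8 .nil))) (.r 12993 .nil))) (.node (.I .ass (.c 59109071234951844553 (.c 16 (.c 12993 .nil))) .nil) (.I .tdp (.c 2718204169 (.c 16 (.c 8 (.c 12993 .nil)))) .nil)))))))

noncomputable def c2_241 : Tr := (.node (.node (.node (.node (.node (.node (.I .tdb (.c 24 (.c 40 (.c 8 (.c 16 .nil)))) (.r 2718204169 .nil)) (.I .adp (.c 8 (.c 12993 (.c 2306972427525220178 .nil))) .nil)) (.node (.I .adp (.c 537002377 (.c 16 (.c 8 .nil))) (.r 12993 .nil)) (.I .tdp (.c 537002377 (.c 16 (.c 8 (.c 12993 .nil)))) .nil))) (.node (.node (.I .ass (.c 33587273 (.c 18689 (.c 12993 .nil))) .nil) (.I .ass (.c 2049 (.c 2737112329 (.c 12993 .nil))) .nil)) (.node (.I .tdb (.c 24 (.c 48 (.c 8 (.c 32 .nil)))) (.b 12801 (.l 16 .nil))) (.I .tdb (.c 8 (.c 12801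 (.c 18625 (.c 32 .nil)))) (.l 16 .nil))))) (.node (.node (.node (.I .tdb (.c 0 (.c 40 (.c 18625 (.c 32 .nil)))) (.b 8 (.l 16 .nil))) (.I .adp (.c 18625 (.c 32 (.c 1310924873 .nil))) (.l 16 .nil))) (.node (.I .com (.c 13748192181200529289 (.c 18625 .nil)) (.l 16 .nil)) (.I .jac (.c 1310924873 (.c 24 (.c 48 .nil))) (.r 32 (.l 16 .nil))))) (.node (.node (.I .ass (.c 16 (.c 1512102306009786965494079912008658879305 (.c 32 .nil))) .nil) (.I .ass (.c 1512102306009786965494079912008658879305 (.c 16 (.c 32 .nil))) .nil)) (.node (.I .com (.c 16 (.c 1512102306009786965494079912008658879305 .nil)) (.r 32 .nil)) (.I .ass (.c 1512102306009786923259633531360632805385 (.c 16 (.c 32 .nil))) .nil))))) (.node (.node (.node (.node (.I .tdp (.c 18625 (.c 32 (.c 16 (.c 1310924873 .nil)))) .nil) (.I .tdb (.c 8 (.c 12801 (.c 18625 (.c 16 .nil)))) (.l 32 .nil))) (.node (.I .tdb (.c 8 (.c 12801 (.c 16 (.c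 32 .nil)))) (.r 18625 .nil)) (.I .tdb (.c 8 (.c 12801 (.c 16 (.c 32 .nil)))) (.b 18625 .nil)))) (.node (.node (.I .ass (.c 16 (.c 13748192181200529417 (.c 8385 .nil))) .nil) (.I .com (.c 16 (.c 13748192181200529417 .nil)) (.r 8385 .nil))) (.node (.I .tdp (.c 8385 (.c 48 (.c 16 (.c 1310924873 .nil)))) .nil) (.I .adp (.c 32 (.c 48 (.c 24 .nil))) (.l 16 (.b 2105673 .nil)))))) (.node (.node (.node (.I .com (.c 18625 (.c 32 .nil)) (.l 16 (.b 2105673 .nil))) (.I .tdb (.c 24 (.c 48 (.c 8 (.c 32 .nil)))) (.b 0 (.b 40 (.l 16 .nil))))) (.node (.I .adp (.c 18625 (.c 32 (.c 2105673 .nil))) (.l 16 .nil)) (.I .tdp (.c 18625 (.c 32 (.c 16 (.c 2105673 .nil)))) .nil))) (.node (.node (.I .tdb (.c 513 (.c 40 (.c 16 (.c 32 .nil)))) (.r 18625 .nil)) (.I .tdb (.c 0 (.c 8 (.c 16 (.c 32 .nil)))) (.b 40 (.r 18625 .nil)))) (.node (.I .tdb (.c 0 (.c 8 (.c 16 (.c 32 .nil)))) (.b 40 (.b 18625 .nil))) (.I .adp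 (.c 16 (.c 562533266 (.c 2105673 .nil))) .nil)))))) (.node (.node (.node (.node (.node (.I .adp (.c 8385 (.c 48 (.c 2105673 .nil))) (.l 16 .nil)) (.I .tdp (.c 8385 (.c 48 (.c 16 (.c 2105673 .nil)))) .nil)) (.node (.I .adp (.c 0 (.c 40 (.c 24 .nil))) (.b 2379905498923997961 .nil)) (.I .adp (.c 0 (.c 40 (.c 24 .nil))) (.b 59934265606904515465 .nil)))) (.node (.node (.I .adp (.c 0 (.c 12993 (.c 59934265606904515465 .nil))) .nil) (.I .jac (.c 0 (.c 2737112201 (.c 32 .nil))) (.r 12993 .nil))) (.node (.I .jac (.c 0 (.c 18497 (.c 16 .nil))) (.b 32 (.r 12993 .nil))) (.I .jac (.c 0 (.c 8 (.c 48 .nil))) (.b 16 (.b 32 (.r 12993 .nil))))))) (.node (.node (.node (.I .adp (.c 0 (.c 40 (.c 24 .nil))) (.b 10206511083363209 .nil)) (.I .adp (.c 0 (.c 12993 (.c 10206511083363209 .nil))) .nil)) (.node (.I .jac (.c 0 (.c 35718537 (.c 32 .nil))) (.r 12993 .nil)) (.I .jac (.c 0 (.c 2113 (.c 48 .nil)))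 (.b 32 (.r 12993 .nil))))) (.node (.node (.I .jac (.c 0 (.c 8 (.c 16 .nil))) (.b 48 (.b 32 (.r 12993 .nil)))) (.I .jac (.c 18497 (.c 16 (.c 32 .nil))) (.b 1311129825 .nil))) (.node (.I .adp (.c 0 (.c 40 (.c 24 .nil))) (.b 59934271212510434057 .nil)) (.I .adp (.c 0 (.c 12993 (.c 59934271212510434057 .nil))) .nil))))) (.node (.node (.node (.node (.I .jac (.c 0 (.c 2737112329 (.c 16 .nil))) (.r 12993 .nil)) (.I .jac (.c 0 (.c 18497 (.c 32 .nil))) (.b 16 (.r 12993 .nil)))) (.node (.I .jac (.c 0 (.c 8 (.c 48 .nil))) (.b 32 (.b 16 (.r 12993 .nil)))) (.I .adp (.c 0 (.c 40 (.c 24 .nil))) (.b 10206437931930633 .nil)))) (.node (.node (.I .adp (.c 0 (.c 12993 (.c 10206437931930633 .nil))) .nil) (.I .jac (.c 0 (.c 35718409 (.c 48 .nil))) (.r 12993 .nil))) (.node (.I .jac (.c 0 (.c 2113 (.c 32 .nil))) (.b 48 (.r 12993 .nil))) (.I .jac (.c 0 (.c 8 (.c 16 .nil))) (.b 32 (.b 48 (.r 12993 .nil)))))))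 (.node (.node (.node (.I .adp (.c 0 (.c 40 (.c 43655299 .nil))) (.b 4673 .nil)) (.I .adp (.c 0 (.c 40 (.c 24 .nil))) (.b 15246281046235273 .nil))) (.node (.I .adp (.c 0 (.c 12993 (.c 598976858557897 .nil))) .nil) (.I .tdb (.c 16 (.c 18497 (.c 0 (.c 32 .nil)))) (.r 12993 .nil)))) (.node (.node (.I .ass (.c 35473026505481 (.c 32 (.c 12993 .nil))) .nil) (.I .com (.c 12993 (.c 32 .nil)) (.l 35473026505481 .nil))) (.node (.I .ass (.c 9024839260612617 (.c 32 (.c 12993 .nil))) .nil) (.I .com (.c 12993 (.c 32 .nil)) (.l 9024839260612617 .nil))))))))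

noncomputable def c2_242 : Tr := (.node (.node (.node (.node (.node (.node (.I .adp (.c 0 (.c 12993 (.c 2756151826 .nil))) .nil) (.I .tdb (.c 8 (.c 32 (.c 18561 (.c 0 .nil)))) (.r 12993 .nil))) (.node (.I .adp (.c 8257 (.c 18561 (.c 0 .nil))) (.r 12993 .nil)) (.I .jac (.c 0 (.c 16 (.c 48 .nil))) (.l 8257 (.r 12993 .nil))))) (.node (.node (.I .com (.c 2718204041 (.c 8257 .nil)) (.r 12993 .nil)) (.I .com (.c 33587593 (.c 8257 .nil)) (.r 12993 .nil))) (.node (.I .jac (.c 0 (.c 8 (.c 32 .nil))) (.r 18561 (.r 12993 .nil))) (.I .tdb (.c 8 (.c 48 (.c 0 (.c 16 .nil)))) (.b 32 (.r 12993 .nil)))))) (.node (.node (.node (.I .ass (.c 2306969673777850121 (.c 48 (.c 12993 .nil))) .nil) (.I .com (.c 12993 (.c 48 .nil)) (.l 2306969673777850121 .nil))) (.node (.I .ass (.c 231046163358604169 (.c 16 (.c 12865 .nil))) .nil) (.I .com (.c 12865 (.c 16 .nil)) (.l 231046163358604169 .nil)))) (.node (.node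 (.I .ass (.c 2306970773558194185 (.c 16 (.c 12865 .nil))) .nil) (.I .com (.c 12865 (.c 16 .nil)) (.l 2306970773558194185 .nil))) (.node (.I .tdb (.c 32 (.c 18497 (.c 0 (.c 16 .nil)))) (.r 12993 .nil)) (.I .jac (.c 8193 (.c 16 (.c 48 .nil))) (.b 174770529 .nil)))))) (.node (.node (.node (.node (.I .adp (.c 8 (.c 24 (.c 40 .nil))) (.b 2306972423229201161 .nil)) (.I .adp (.c 8 (.c 24 (.c 40 .nil))) (.b 59109065668069837705 .nil))) (.node (.I .adp (.c 8 (.c 24 (.c 40 .nil))) (.b 15246281046235209 .nil)) (.I .adp (.c 18561 (.c 32 (.c 40 .nil))) (.b 2105545 .nil)))) (.node (.node (.I .adp (.c 8321 (.c 48 (.c 40 .nil))) (.b 2105545 .nil)) (.I .adp (.c 8 (.c 24 (.c 40 .nil))) (.b 14832759703961929 .nil))) (.node (.I .adp (.c 8 (.c 24 (.c 40 .nil))) (.b 2306970227964006482 .nil)) (.I .com (.c 537002377 (.c 16 .nil)) (.b 174770529 .nil))))) (.node (.node (.node (.I .adp (.c 8 (.c 24 (.c 40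 .nil))) (.b 2306972427525220178 .nil)) (.I .adp (.c 16 (.c 2813400330 (.c 2105545 .nil))) .nil)) (.node (.I .tdb (.c 40 (.c 48 (.c 8 (.c 32 .nil)))) (.b 0 (.b 24 (.l 16 .nil)))) (.I .tdb (.c 513 (.c 24 (.c 18753 (.c 32 .nil)))) (.l 16 .nil)))) (.node (.node (.I .tdb (.c 0 (.c 8 (.c 32 (.c 18753 .nil)))) (.b 24 (.l 16 .nil))) (.I .tdb (.c 40 (.c 48 (.c 0 (.c 32 .nil)))) (.b 8 (.b 24 (.l 16 .nil))))) (.node (.I .tdb (.c 513 (.c 24 (.c 18753 (.c 16 .nil)))) (.r 32 .nil)) (.I .tdb (.c 0 (.c 8 (.c 16 (.c 18753 .nil)))) (.b 24 (.r 32 .nil)))))))) (.node (.node (.node (.node (.node (.I .tdb (.c 0 (.c 8 (.c 16 (.c 32 .nil)))) (.b 24 (.b 18753 .nil))) (.I .tdb (.c 40 (.c 48 (.c 8 (.c 32 .nil)))) (.b 4609 (.l 16 .nil)))) (.node (.I .tdb (.c 40 (.c 48 (.c 24 (.c 32 .nil)))) (.b 0 (.b 8 (.l 16 .nil)))) (.I .adp (.c 32 (.c 18753 (.c 169943113 .nil))) (.l 16 .nil)))) (.node (.node (.I .jac (.c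 169943113 (.c 40 (.c 48 .nil))) (.l 32 (.l 16 .nil))) (.I .com (.c 427055420260303274284998876733539273 (.c 32 .nil)) (.l 16 .nil))) (.node (.I .com (.c 427055420260303037694618589709918217 (.c 32 .nil)) (.l 16 .nil)) (.I .ass (.c 16 (.c 427055420260303274284998876733539273 (.c 32 .nil))) .nil)))) (.node (.node (.node (.I .com (.c 16 (.c 427055420260303274284998876733539273 .nil)) (.r 32 .nil)) (.I .ass (.c 16 (.c 231045293249046409 (.c 18753 .nil))) .nil)) (.node (.I .ass (.c 231045293249046409 (.c 16 (.c 18753 .nil))) .nil) (.I .com (.c 16 (.c 231045293249046409 .nil)) (.r 18753 .nil)))) (.node (.node (.I .tdb (.c 8 (.c 4609 (.c 16 (.c 32 .nil)))) (.l 18753 .nil)) (.I .tdb (.c 0 (.c 24 (.c 32 (.c 16 .nil)))) (.b 8 (.l 18753 .nil)))) (.node (.I .tdb (.c 40 (.c 48 (.c 8 (.c 16 .nil)))) (.b 4609 (.r 32 .nil))) (.I .tdb (.c 8 (.c 4609 (.c 16 (.c 32 .nil)))) (.b 18753 .nil)))))) (.node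 (.node (.node (.node (.I .tdb (.c 0 (.c 24 (.c 32 (.c 16 .nil)))) (.b 8 (.b 18753 .nil))) (.I .adp (.c 0 (.c 24 (.c 40 .nil))) (.b 2379905498923997961 .nil))) (.node (.I .adp (.c 0 (.c 24 (.c 43655299 .nil))) (.b 12865 .nil)) (.I .adp (.c 0 (.c 24 (.c 40 .nil))) (.b 15246281046235273 .nil)))) (.node (.node (.I .adp (.c 0 (.c 24 (.c 40 .nil))) (.b 15246236343241929 .nil)) (.I .jac (.c 2105609 (.c 16 (.c 48 .nil))) (.b 12993 .nil))) (.node (.I .jac (.c 2105737 (.c 16 (.c 32 .nil))) (.b 12993 .nil)) (.I .adp (.c 18561 (.c 32 (.c 513 .nil))) (.b 12993 .nil))))) (.node (.node (.node (.I .com (.c 2105609 (.c 18561 .nil)) (.b 12993 .nil)) (.I .jac (.c 513 (.c 16 (.c 48 .nil))) (.r 32 (.b 12993 .nil)))) (.node (.I .adp (.c 8321 (.c 48 (.c 513 .nil))) (.b 12993 .nil)) (.I .com (.c 2105737 (.c 8321 .nil)) (.b 12993 .nil)))) (.node (.node (.I .jac (.c 513 (.c 16 (.c 32 .nil))) (.r 48 (.b 12993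 .nil))) (.I .com (.c 35473026505609 (.c 16 .nil)) (.b 12993 .nil))) (.node (.I .com (.c 35468714087433 (.c 16 .nil)) (.b 12993 .nil)) (.I .tdb (.c 0 (.c 48 (.c 8 (.c 40 .nil)))) (.l 32 (.b 4737 .nil)))))))))

noncomputable def c2_243 : Tr := (.node (.node (.node (.node (.node (.node (.I .tdb (.c 0 (.c 48 (.c 24 (.c 32 .nil)))) (.r 8 (.b 12929 .nil))) (.I .adp (.c 0 (.c 2737112329 (.c 40 .nil))) (.b 4737 .nil))) (.node (.I .adp (.c 0 (.c 2737112329 (.c 24 .nil))) (.b 12929 .nil)) (.I .adp (.c 0 (.c 2737112329 (.c 16 .nil))) (.b 12993 .nil)))) (.node (.node (.I .adp (.c 0 (.c 545424777 (.c 40 .nil))) (.b 4737 .nil)) (.I .adp (.c 0 (.c 545424777 (.c 24 .nil))) (.b 12929 .nil))) (.node (.I .adp (.c 0 (.c 545424777 (.c 16 .nil))) (.b 12993 .nil)) (.I .adp (.c 0 (.c 2737260306 (.c 40 .nil))) (.b 4737 .nil))))) (.node (.node (.node (.I .adp (.c 18497 (.c 32 (.c 40 .nil))) (.l 0 (.b 4737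 .nil))) (.I .tdp (.c 18497 (.c 32 (.c 0 (.c 40 .nil)))) (.b 4737 .nil))) (.node (.I .tdb (.c 8 (.c 48 (.c 0 (.c 40 .nil)))) (.l 32 (.b 4737 .nil))) (.I .adp (.c 0 (.c 2737260306 (.c 24 .nil))) (.b 12929 .nil)))) (.node (.node (.I .tdb (.c 8 (.c 48 (.c 24 (.c 32 .nil)))) (.l 0 (.b 12929 .nil))) (.I .adp (.c 18497 (.c 32 (.c 24 .nil))) (.l 0 (.b 12929 .nil)))) (.node (.I .tdp (.c 18497 (.c 32 (.c 0 (.c 24 .nil)))) (.b 12929 .nil)) (.I .adp (.c 0 (.c 2737260306 (.c 16 .nil))) (.b 12993 .nil)))))) (.node (.node (.node (.node (.I .adp (.c 18497 (.c 32 (.c 16 .nil))) (.l 0 (.b 12993 .nil))) (.I .tdp (.c 18497 (.c 32 (.c 0 (.c 16 .nil)))) (.b 12993 .nil))) (.node (.I .jac (.c 12929 (.c 18625 (.c 32 .nil))) (.l 8 (.l 0 .nil))) (.I .tdp (.c 8 (.c 2775125257 (.c 0 (.c 12929 .nil)))) .nil))) (.node (.node (.I .tdb (.c 16 (.c 40 (.c 0 (.c 8 .nil)))) (.l 2775125257 .nil)) (.I .com (.c 3423058053193929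 (.c 2775125257 .nil)) .nil)) (.node (.I .tdb (.c 16 (.c 40 (.c 2775125257 (.c 0 .nil)))) (.r 8 .nil)) (.I .jac (.c 12929 (.c 24 (.c 32 .nil))) (.b 48 (.l 8 (.l 0 .nil))))))) (.node (.node (.node (.I .tdp (.c 8 (.c 2756086025 (.c 0 (.c 12993 .nil)))) .nil) (.I .tdb (.c 24 (.c 40 (.c 0 (.c 8 .nil)))) (.l 2756086025 .nil))) (.node (.I .tdb (.c 24 (.c 40 (.c 2756086025 (.c 0 .nil)))) (.r 8 .nil)) (.I .tdb (.c 24 (.c 40 (.c 0 (.c 8 .nil)))) (.b 2756086025 .nil)))) (.node (.node (.I .jac (.c 8193 (.c 8 (.c 48 .nil))) (.b 179513673 .nil)) (.I .jac (.c 8193 (.c 8 (.c 48 .nil))) (.b 1350752417 .nil))) (.node (.I .adp (.c 24 (.c 40 (.c 16 .nil))) (.b 2306972423229201097 .nil)) (.I .com (.c 12929 (.c 24 .nil)) (.b 2306972423229201097 .nil))))))) (.node (.node (.node (.node (.node (.I .adp (.c 12929 (.c 24 (.c 2306972423229201097 .nil))) .nil) (.I .com (.c 42576974092320097194025833638928027465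 (.c 12929 .nil)) .nil)) (.node (.I .com (.c 42576974092320097194025833638928027593 (.c 4737 .nil)) .nil) (.I .adp (.c 12929 (.c 24 (.c 59109062884628932489 .nil))) .nil))) (.node (.node (.I .com (.c 27951050520792140940324630661021757881289 (.c 4737 .nil)) .nil) (.I .adp (.c 24 (.c 40 (.c 16 .nil))) (.b 35473026505609 .nil))) (.node (.I .com (.c 12929 (.c 24 .nil)) (.b 35473026505609 .nil)) (.I .adp (.c 4737 (.c 40 (.c 35473026505609 .nil))) .nil)))) (.node (.node (.node (.I .adp (.c 24 (.c 40 (.c 16 .nil))) (.b 2306969673777850377 .nil)) (.I .com (.c 12929 (.c 24 .nil)) (.b 2306969673777850377 .nil))) (.node (.I .adp (.c 4737 (.c 40 (.c 2306969673777850377 .nil))) .nil) (.I .jac (.c 18433 (.c 8 (.c 32 .nil))) (.b 1350752417 .nil)))) (.node (.node (.I .adp (.c 24 (.c 40 (.c 16 .nil))) (.b 59109071234951844553 .nil)) (.I .com (.c 12929 (.c 24 .nil)) (.b 59109071234951844553 .nil)))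 (.node (.I .adp (.c 4737 (.c 40 (.c 59109071234951844553 .nil))) .nil) (.I .com (.c 27951058418068892621846798278856606158793 (.c 4737 .nil)) .nil))))) (.node (.node (.node (.node (.I .adp (.c 24 (.c 40 (.c 16 .nil))) (.b 35468714087433 .nil)) (.I .com (.c 12929 (.c 24 .nil)) (.b 35468714087433 .nil))) (.node (.I .adp (.c 4737 (.c 40 (.c 35468714087433 .nil))) .nil) (.I .adp (.c 12929 (.c 24 (.c 15246236343241801 .nil))) .nil))) (.node (.node (.I .adp (.c 4737 (.c 40 (.c 15246236343241801 .nil))) .nil) (.I .adp (.c 18497 (.c 32 (.c 16 .nil))) (.b 1310925001 .nil))) (.node (.I .adp (.c 18497 (.c 32 (.c 16 .nil))) (.b 169943369 .nil)) (.I .jac (.c 2718203977 (.c 12929 (.c 24 .nil))) (.r 32 .nil))))) (.node (.node (.node (.I .jac (.c 2718203977 (.c 16 (.c 40 .nil))) (.b 24 (.r 32 .nil))) (.I .adp (.c 2105737 (.c 32 (.c 1337272521 .nil))) .nil)) (.node (.I .adp (.c 18497 (.c 32 (.c 0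 .nil))) (.b 179513673 .nil)) (.I .com (.c 8193 (.c 18497 .nil)) (.b 179513673 .nil)))) (.node (.node (.I .jac (.c 0 (.c 8 (.c 48 .nil))) (.r 32 (.b 179513673 .nil))) (.I .adp (.c 2718203977 (.c 32 (.c 179513673 .nil))) .nil)) (.node (.I .jac (.c 2718203977 (.c 4737 (.c 40 .nil))) (.r 32 .nil)) (.I .jac (.c 2718203977 (.c 16 (.c 24 .nil))) (.b 40 (.r 32 .nil)))))))))

noncomputable def c2_244 : Tr := (.node (.node (.node (.node (.node (.node (.I .adp (.c 8193 (.c 18497 (.c 179513673 .nil))) .nil) (.I .jac (.c 8193 (.c 4737 (.c 40 .nil))) (.r 18497 .nil))) (.node (.I .jac (.c 8193 (.c 16 (.c 24 .nil))) (.b 40 (.r 18497 .nil))) (.I .jac (.c 0 (.c 8 (.c 48 .nil))) (.r 32 (.b 21099139 .nil))))) (.node (.node (.I .adp (.c 2718203977 (.c 32 (.c 21099139 .nil))) .nil) (.I .tdb (.c 8 (.c 48 (.c 0 (.c 32 .nil)))) (.b 1337375954 .nil))) (.node (.I .jac (.c 0 (.c 8 (.c 48 .nil))) (.r 32 (.b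 1337375954 .nil))) (.I .ass (.c 12929 (.c 59109062884628932425 (.c 32 .nil))) .nil)))) (.node (.node (.node (.I .com (.c 12929 (.c 59109062884628932425 .nil)) (.r 32 .nil)) (.I .tdb (.c 16 (.c 40 (.c 24 (.c 32 .nil)))) (.r 2718203977 .nil))) (.node (.I .tdb (.c 513 (.c 48 (.c 24 (.c 32 .nil)))) (.l 12929 .nil)) (.I .tdb (.c 0 (.c 8 (.c 24 (.c 32 .nil)))) (.b 48 (.l 12929 .nil))))) (.node (.node (.I .ass (.c 12929 (.c 537002185 (.c 18497 .nil))) .nil) (.I .ass (.c 537002185 (.c 12929 (.c 18497 .nil))) .nil)) (.node (.I .com (.c 12929 (.c 537002185 .nil)) (.r 18497 .nil)) (.I .ass (.c 12929 (.c 8193 (.c 2737112265 .nil))) .nil))))) (.node (.node (.node (.node (.I .ass (.c 8193 (.c 12929 (.c 2737112265 .nil))) .nil) (.I .com (.c 12929 (.c 8193 .nil)) (.r 2737112265 .nil))) (.node (.I .adp (.c 4737 (.c 40 (.c 59109062906374564306 .nil))) .nil) (.I .adp (.c 2718203977 (.c 32 (.c 40 .nil)))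 (.l 4737 .nil)))) (.node (.node (.I .tdb (.c 8 (.c 18433 (.c 16 (.c 32 .nil)))) (.b 24 (.r 40 .nil))) (.I .tdb (.c 0 (.c 48 (.c 16 (.c 32 .nil)))) (.b 8 (.b 24 (.r 40 .nil))))) (.node (.I .tdb (.c 16 (.c 24 (.c 32 (.c 2718203977 .nil)))) (.r 40 .nil)) (.I .adp (.c 2718203977 (.c 32 (.c 4737 .nil))) (.r 40 .nil))))) (.node (.node (.node (.I .jac (.c 2718203977 (.c 16 (.c 24 .nil))) (.r 32 (.r 40 .nil))) (.I .ass (.c 27951050520792140879796950267161731045129 (.c 32 (.c 40 .nil))) .nil)) (.node (.I .ass (.c 27951050520792140819269269873301704274761 (.c 32 (.c 40 .nil))) .nil) (.I .ass (.c 2718203977 (.c 179513609 (.c 40 .nil))) .nil))) (.node (.node (.I .tdp (.c 2718203977 (.c 32 (.c 4737 (.c 40 .nil)))) .nil) (.I .tdb (.c 16 (.c 24 (.c 40 (.c 2718203977 .nil)))) (.l 32 .nil))) (.node (.I .tdb (.c 0 (.c 32 (.c 18497 (.c 40 .nil)))) (.l 4737 .nil)) (.I .tdb (.c 0 (.c 32 (.c 18497 (.c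 16 .nil)))) (.b 24 (.r 40 .nil)))))))) (.node (.node (.node (.node (.node (.I .tdb (.c 0 (.c 32 (.c 18497 (.c 24 .nil)))) (.b 16 (.r 40 .nil))) (.I .adp (.c 8257 (.c 48 (.c 16 .nil))) (.b 169943369 .nil))) (.node (.I .adp (.c 18433 (.c 8257 (.c 1337272521 .nil))) .nil) (.I .adp (.c 2105609 (.c 48 (.c 1337272521 .nil))) .nil))) (.node (.node (.I .adp (.c 2105609 (.c 48 (.c 179513673 .nil))) .nil) (.I .adp (.c 537002057 (.c 48 (.c 21099139 .nil))) .nil)) (.node (.I .adp (.c 2105609 (.c 48 (.c 21099139 .nil))) .nil) (.I .adp (.c 12929 (.c 24 (.c 14629225721520457 .nil))) .nil)))) (.node (.node (.node (.I .ass (.c 12929 (.c 2718204105 (.c 8257 .nil))) .nil) (.I .com (.c 12929 (.c 2718204105 .nil)) (.r 8257 .nil))) (.node (.I .ass (.c 59109065668069837769 (.c 8257 (.c 24 .nil))) .nil) (.I .adp (.c 12929 (.c 24 (.c 2306969678073866834 .nil))) .nil))) (.node (.node (.I .adp (.c 537002057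 (.c 48 (.c 24 .nil))) (.l 12929 .nil)) (.I .adp (.c 537002057 (.c 48 (.c 12929 .nil))) (.r 24 .nil))) (.node (.I .tdp (.c 537002057 (.c 48 (.c 24 (.c 12929 .nil)))) .nil) (.I .tdb (.c 16 (.c 40 (.c 24 (.c 48 .nil)))) (.r 537002057 .nil)))))) (.node (.node (.node (.node (.I .com (.c 537002057 (.c 15456253916349641 .nil)) .nil) (.I .adp (.c 12929 (.c 24 (.c 35468730932306 .nil))) .nil)) (.node (.I .adp (.c 2105609 (.c 48 (.c 24 .nil))) (.l 12929 .nil)) (.I .adp (.c 2105609 (.c 48 (.c 12929 .nil))) (.r 24 .nil)))) (.node (.node (.I .tdp (.c 2105609 (.c 48 (.c 24 (.c 12929 .nil)))) .nil) (.I .tdb (.c 16 (.c 40 (.c 24 (.c 48 .nil)))) (.r 2105609 .nil))) (.node (.I .tdb (.c 8 (.c 32 (.c 18433 (.c 40 .nil)))) (.l 4737 .nil)) (.I .ass (.c 42576872605845444027759439362436273929 (.c 48 (.c 40 .nil))) .nil)))) (.node (.node (.node (.I .com (.c 40 (.c 48 .nil)) (.l 42576872605845444027759439362436273929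 .nil)) (.I .ass (.c 42576872605845441665422493413917717321 (.c 48 (.c 40 .nil))) .nil)) (.node (.I .com (.c 40 (.c 48 .nil)) (.l 42576872605845441665422493413917717321 .nil)) (.I .com (.c 537002057 (.c 15456208906582281 .nil)) .nil))) (.node (.node (.I .adp (.c 8 (.c 2756086025 (.c 1310925001 .nil))) .nil) (.I .adp (.c 8 (.c 2756086025 (.c 169943369 .nil))) .nil)) (.node (.I .adp (.c 2718204169 (.c 8 (.c 1337272521 .nil))) .nil) (.I .jac (.c 8 (.c 12929 (.c 24 .nil))) (.l 2718204169 .nil))))))))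

noncomputable def c2_245 : Tr := (.node (.node (.node (.node (.node (.node (.I .jac (.c 8 (.c 16 (.c 40 .nil))) (.b 24 (.l 2718204169 .nil))) (.I .jac (.c 2718204169 (.c 12929 (.c 24 .nil))) (.r 8 .nil))) (.node (.I .jac (.c 2718204169 (.c 16 (.c 40 .nil))) (.b 24 (.r 8 .nil))) (.I .jac (.c 1337272521 (.c 32 (.c 48 .nil))) (.l 513 .nil)))) (.node (.node (.I .adp (.c 8 (.c 2756086025 (.c 21099011 .nil))) .nil) (.I .jac (.c 3561346121425225 (.c 16 (.c 48 .nil))) (.l 8 .nil))) (.node (.I .jac (.c 21099011 (.c 16 (.c 32 .nil))) (.b 48 (.l 8 .nil))) (.I .tdb (.c 16 (.c 48 (.c 0 (.c 8 .nil)))) (.b 32 (.b 40 (.r 24 .nil))))))) (.node (.node (.node (.I .jac (.c 1310925065 (.c 16 (.c 48 .nil))) (.l 8 (.r 24 .nil))) (.I .com (.c 1512103191868961706263182477688868913929 (.c 8 .nil)) (.r 24 .nil))) (.node (.I .com (.c 1512103191868961649950570808237977416713 (.c 8 .nil)) (.r 24 .nil)) (.I .adp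 (.c 4609 (.c 40 (.c 60768081417602405066 .nil))) .nil))) (.node (.node (.I .adp (.c 8 (.c 2756086025 (.c 40 .nil))) (.l 4609 .nil)) (.I .tdb (.c 0 (.c 24 (.c 2756086025 (.c 8 .nil)))) (.r 40 .nil))) (.node (.I .tdb (.c 32 (.c 18561 (.c 0 (.c 8 .nil)))) (.b 24 (.r 40 .nil))) (.I .adp (.c 8 (.c 2756086025 (.c 4609 .nil))) (.r 40 .nil)))))) (.node (.node (.node (.node (.I .jac (.c 169943305 (.c 16 (.c 48 .nil))) (.l 8 (.r 40 .nil))) (.I .jac (.c 4609 (.c 18561 (.c 32 .nil))) (.l 8 (.r 40 .nil)))) (.node (.I .jac (.c 4609 (.c 16 (.c 48 .nil))) (.b 32 (.l 8 (.r 40 .nil)))) (.I .com (.c 427057350195049030035896088956977929 (.c 8 .nil)) (.r 40 .nil)))) (.node (.node (.I .com (.c 427058636821845956378289793772237705 (.c 8 .nil)) (.r 40 .nil)) (.I .com (.c 427057350195048083672236560419042313 (.c 8 .nil)) (.r 40 .nil))) (.node (.I .ass (.c 169943113 (.c 2756086025 (.c 40 .nil))) .nil) (.I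 .tdp (.c 8 (.c 2756086025 (.c 4609 (.c 40 .nil)))) .nil)))) (.node (.node (.node (.I .tdb (.c 0 (.c 24 (.c 40 (.c 8 .nil)))) (.l 2756086025 .nil)) (.I .com (.c 427056063571157913309372238443346953 (.c 8 .nil)) (.r 40 .nil))) (.node (.I .com (.c 537002377 (.c 8 .nil)) (.b 21099139 .nil)) (.I .adp (.c 537002377 (.c 8 (.c 21099139 .nil))) .nil))) (.node (.node (.I .com (.c 2718204169 (.c 8 .nil)) (.b 1337375954 .nil)) (.I .com (.c 537002377 (.c 8 .nil)) (.b 1337375954 .nil))) (.node (.I .adp (.c 12929 (.c 24 (.c 59109071256697477906 .nil))) .nil) (.I .adp (.c 2718204169 (.c 8 (.c 24 .nil))) (.l 12929 .nil))))))) (.node (.node (.node (.node (.node (.I .ass (.c 12929 (.c 59109071234951844681 (.c 8 .nil))) .nil) (.I .ass (.c 59109071234951844681 (.c 12929 (.c 8 .nil))) .nil)) (.node (.I .com (.c 12929 (.c 59109071234951844681 .nil)) (.r 8 .nil)) (.I .com (.c 8 (.c 12929 .nil)) (.l 59109071234951844681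 .nil)))) (.node (.node (.I .tdb (.c 16 (.c 40 (.c 2718204169 (.c 8 .nil)))) (.r 24 .nil)) (.I .adp (.c 2718204169 (.c 8 (.c 12929 .nil))) (.r 24 .nil))) (.node (.I .jac (.c 8 (.c 16 (.c 40 .nil))) (.l 2718204169 (.r 24 .nil))) (.I .jac (.c 2718204169 (.c 16 (.c 40 .nil))) (.r 8 (.r 24 .nil)))))) (.node (.node (.node (.I .tdp (.c 2718204169 (.c 8 (.c 24 (.c 12929 .nil)))) .nil) (.I .adp (.c 12929 (.c 24 (.c 2306972427525220114 .nil))) .nil)) (.node (.I .tdb (.c 48 (.c 8193 (.c 8 (.c 24 .nil)))) (.l 12929 .nil)) (.I .tdb (.c 0 (.c 32 (.c 8 (.c 24 .nil)))) (.b 48 (.l 12929 .nil))))) (.node (.node (.I .adp (.c 537002377 (.c 8 (.c 24 .nil))) (.l 12929 .nil)) (.I .ass (.c 12929 (.c 2306972423229201225 (.c 8 .nil))) .nil)) (.node (.I .com (.c 12929 (.c 2306972423229201225 .nil)) (.r 8 .nil)) (.I .ass (.c 12929 (.c 537002377 (.c 4673 .nil))) .nil))))) (.node (.node (.node (.node (.I .com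 (.c 12929 (.c 537002377 .nil)) (.r 4673 .nil)) (.I .tdb (.c 16 (.c 40 (.c 537002377 (.c 8 .nil)))) (.r 24 .nil))) (.node (.I .adp (.c 537002377 (.c 8 (.c 12929 .nil))) (.r 24 .nil)) (.I .jac (.c 8 (.c 16 (.c 40 .nil))) (.l 537002377 (.r 24 .nil))))) (.node (.node (.I .jac (.c 537002377 (.c 16 (.c 40 .nil))) (.r 8 (.r 24 .nil))) (.I .tdp (.c 537002377 (.c 8 (.c 24 (.c 12929 .nil)))) .nil)) (.node (.I .ass (.c 12929 (.c 513 (.c 2775125257 .nil))) .nil) (.I .ass (.c 513 (.c 12929 (.c 2775125257 .nil))) .nil)))) (.node (.node (.node (.I .com (.c 12929 (.c 513 .nil)) (.r 2775125257 .nil)) (.I .ass (.c 12929 (.c 513 (.c 562466185 .nil))) .nil)) (.node (.I .ass (.c 513 (.c 12929 (.c 562466185 .nil))) .nil) (.I .com (.c 12929 (.c 513 .nil)) (.r 562466185 .nil)))) (.node (.node (.I .com (.c 2718204169 (.c 8 .nil)) (.b 179551570 .nil)) (.I .adp (.c 4737 (.c 40 (.c 59109071256697477906 .nil)))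 .nil)) (.node (.I .adp (.c 2718204169 (.c 8 (.c 40 .nil))) (.l 4737 .nil)) (.I .ass (.c 4737 (.c 59109071234951844809 (.c 8 .nil))) .nil)))))))

noncomputable def c2_246 : Tr := (.node (.node (.node (.node (.node (.node (.I .ass (.c 59109071234951844809 (.c 4737 (.c 8 .nil))) .nil) (.I .com (.c 4737 (.c 59109071234951844809 .nil)) (.r 8 .nil))) (.node (.I .com (.c 8 (.c 4737 .nil)) (.l 59109071234951844809 .nil)) (.I .tdb (.c 16 (.c 24 (.c 2718204169 (.c 8 .nil)))) (.r 40 .nil)))) (.node (.node (.I .adp (.c 2718204169 (.c 8 (.c 4737 .nil))) (.r 40 .nil)) (.I .jac (.c 8 (.c 16 (.c 24 .nil))) (.l 2718204169 (.r 40 .nil)))) (.node (.I .jac (.c 2718204169 (.c 16 (.c 24 .nil))) (.r 8 (.r 40 .nil))) (.I .tdp (.c 2718204169 (.c 8 (.c 4737 (.c 40 .nil)))) .nil)))) (.node (.node (.node (.I .adp (.c 8 (.c 2756234514 (.c 1310925001 .nil))) .nil) (.I .tdb (.c 16 (.c 48 (.c 24 (.c 32 .nil))))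 (.b 12801 (.l 8 .nil)))) (.node (.I .tdb (.c 24 (.c 12801 (.c 18561 (.c 32 .nil)))) (.l 8 .nil)) (.I .tdp (.c 18561 (.c 32 (.c 8 (.c 1310925001 .nil)))) .nil))) (.node (.node (.I .tdb (.c 24 (.c 12801 (.c 18561 (.c 8 .nil)))) (.l 32 .nil)) (.I .tdb (.c 24 (.c 12801 (.c 8 (.c 32 .nil)))) (.r 18561 .nil))) (.node (.I .adp (.c 8 (.c 553979282 (.c 1310925001 .nil))) .nil) (.I .adp (.c 8321 (.c 48 (.c 1310925001 .nil))) (.l 8 .nil)))))) (.node (.node (.node (.node (.I .tdp (.c 8321 (.c 48 (.c 8 (.c 1310925001 .nil)))) .nil) (.I .tdb (.c 16 (.c 48 (.c 24 (.c 32 .nil)))) (.b 0 (.b 40 (.l 8 .nil))))) (.node (.I .tdb (.c 4609 (.c 40 (.c 18561 (.c 32 .nil)))) (.l 8 .nil)) (.I .tdb (.c 0 (.c 24 (.c 32 (.c 18561 .nil)))) (.b 40 (.l 8 .nil))))) (.node (.node (.I .adp (.c 18561 (.c 32 (.c 169943369 .nil))) (.l 8 .nil)) (.I .tdp (.c 18561 (.c 32 (.c 8 (.c 169943369 .nil)))) .nil)) (.node (.I .tdb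 (.c 4609 (.c 40 (.c 8 (.c 32 .nil)))) (.r 18561 .nil)) (.I .tdb (.c 0 (.c 24 (.c 32 (.c 8 .nil)))) (.b 40 (.r 18561 .nil)))))) (.node (.node (.node (.I .tdb (.c 4609 (.c 40 (.c 8 (.c 32 .nil)))) (.b 18561 .nil)) (.I .tdb (.c 0 (.c 24 (.c 32 (.c 8 .nil)))) (.b 40 (.b 18561 .nil)))) (.node (.I .adp (.c 8321 (.c 48 (.c 169943369 .nil))) (.l 8 .nil)) (.I .tdp (.c 8321 (.c 48 (.c 8 (.c 169943369 .nil)))) .nil))) (.node (.node (.I .jac (.c 15038454533712969 (.c 16 (.c 40 .nil))) (.l 32 .nil)) (.I .tdb (.c 0 (.c 48 (.c 8 (.c 24 .nil)))) (.b 12929 (.l 32 .nil)))) (.node (.I .com (.c 14306382363373563913 (.c 32 .nil)) (.l 513 .nil)) (.I .tdb (.c 4737 (.c 40 (.c 8 (.c 32 .nil)))) (.l 18433 .nil))))))) (.node (.node (.node (.node (.node (.I .tdb (.c 16 (.c 24 (.c 32 (.c 8 .nil)))) (.b 40 (.l 18433 .nil))) (.I .adp (.c 16 (.c 40 (.c 2737112329 .nil))) (.b 4609 .nil))) (.node (.I .jac (.c 8193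 (.c 8 (.c 48 .nil))) (.b 1337479393 .nil)) (.I .jac (.c 0 (.c 18497 (.c 32 .nil))) (.b 1337479393 .nil)))) (.node (.node (.I .jac (.c 0 (.c 8 (.c 48 .nil))) (.b 32 (.b 1337479393 .nil))) (.I .adp (.c 16 (.c 40 (.c 24 .nil))) (.b 2306972423229201097 .nil))) (.node (.I .adp (.c 16 (.c 12993 (.c 2306972423229201097 .nil))) .nil) (.I .jac (.c 2306972423229201097 (.c 24 (.c 40 .nil))) (.l 16 .nil))))) (.node (.node (.node (.I .adp (.c 16 (.c 12993 (.c 59109062884628932489 .nil))) .nil) (.I .com (.c 6250089801726996906276604807059669510281064902963087913074935865281876929589663689 (.c 16 .nil)) .nil)) (.node (.I .adp (.c 16 (.c 12993 (.c 35473026505609 .nil))) .nil) (.I .adp (.c 16 (.c 12993 (.c 2306969673777850377 .nil))) .nil))) (.node (.node (.I .adp (.c 16 (.c 40 (.c 24 .nil))) (.b 59109071234951844553 .nil)) (.I .adp (.c 16 (.c 12993 (.c 59109071234951844553 .nil))) .nil)) (.node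 (.I .jac (.c 59109071234951844553 (.c 24 (.c 40 .nil))) (.l 16 .nil)) (.I .com (.c 6250093333522399248956982637364085055356979936575078863574617661350422457236658121 (.c 16 .nil)) .nil))))) (.node (.node (.node (.node (.I .adp (.c 16 (.c 12993 (.c 35468714087433 .nil))) .nil) (.I .jac (.c 15246236343241801 (.c 24 (.c 40 .nil))) (.l 16 .nil))) (.node (.I .adp (.c 18497 (.c 32 (.c 24 .nil))) (.b 1310924937 .nil)) (.I .adp (.c 18497 (.c 32 (.c 24 .nil))) (.b 33587529 .nil)))) (.node (.node (.I .tdb (.c 8 (.c 48 (.c 0 (.c 32 .nil)))) (.b 1350544522 .nil)) (.I .jac (.c 0 (.c 8 (.c 48 .nil))) (.r 32 (.b 1350544522 .nil)))) (.node (.I .adp (.c 16 (.c 12993 (.c 59109062906374564306 .nil))) .nil) (.I .tdb (.c 8 (.c 18433 (.c 24 (.c 32 .nil)))) (.b 40 (.l 16 .nil)))))) (.node (.node (.node (.I .tdb (.c 0 (.c 48 (.c 24 (.c 32 .nil)))) (.b 8 (.b 40 (.l 16 .nil)))) (.I .adp (.c 2718203977 (.c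 32 (.c 12993 .nil))) (.l 16 .nil))) (.node (.I .ass (.c 16 (.c 27951050520792141000852311054881784782665 (.c 32 .nil))) .nil) (.I .ass (.c 27951050520792141000852311054881784782665 (.c 16 (.c 32 .nil))) .nil))) (.node (.node (.I .com (.c 16 (.c 27951050520792141000852311054881784782665 .nil)) (.r 32 .nil)) (.I .ass (.c 16 (.c 27951050520792140879796950267161731045321 (.c 32 .nil))) .nil)) (.node (.I .ass (.c 27951050520792140879796950267161731045321 (.c 16 (.c 32 .nil))) .nil) (.I .com (.c 16 (.c 27951050520792140879796950267161731045321 .nil)) (.r 32 .nil))))))))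

noncomputable def c2_247 : Tr := (.node (.node (.node (.node (.node (.node (.I .ass (.c 16 (.c 2718203977 (.c 1350544649 .nil))) .nil) (.I .ass (.c 2718203977 (.c 16 (.c 1350544649 .nil))) .nil)) (.node (.I .com (.c 16 (.c 2718203977 .nil)) (.r 1350544649 .nil)) (.I .tdb (.c 8 (.c 18433 (.c 16 (.c 32 .nil)))) (.r 12993 .nil)))) (.node (.node (.I .adp (.c 2718203977 (.c 32 (.c 16 .nil))) (.r 12993 .nil)) (.I .tdp (.c 2718203977 (.c 32 (.c 16 (.c 12993 .nil)))) .nil)) (.node (.I .tdb (.c 24 (.c 40 (.c 16 (.c 32 .nil)))) (.r 2718203977 .nil)) (.I .tdb (.c 24 (.c 40 (.c 2105737 (.c 32 .nil)))) (.l 16 .nil))))) (.node (.node (.node (.I .adp (.c 2105737 (.c 32 (.c 12993 .nil))) (.l 16 .nil)) (.I .adp (.c 8193 (.c 18497 (.c 12993 .nil))) (.l 16 .nil))) (.node (.I .jac (.c 18497 (.c 24 (.c 40 .nil))) (.l 8193 (.l 16 .nil))) (.I .jac (.c 8193 (.c 24 (.c 40 .nil))) (.r 18497 (.l 16 .nil)))))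 (.node (.node (.I .ass (.c 16 (.c 2306971873338799945 (.c 18497 .nil))) .nil) (.I .ass (.c 2306971873338799945 (.c 16 (.c 18497 .nil))) .nil)) (.node (.I .com (.c 16 (.c 2306971873338799945 .nil)) (.r 18497 .nil)) (.I .com (.c 18497 (.c 16 .nil)) (.l 2306971873338799945 .nil)))))) (.node (.node (.node (.node (.I .ass (.c 16 (.c 8193 (.c 59934274015313491785 .nil))) .nil) (.I .ass (.c 8193 (.c 16 (.c 59934274015313491785 .nil))) .nil)) (.node (.I .com (.c 16 (.c 8193 .nil)) (.r 59934274015313491785 .nil)) (.I .adp (.c 16 (.c 12993 (.c 14629225721520457 .nil))) .nil))) (.node (.node (.I .com (.c 23450673742498722248794897076545645409660943720441369768569949362121 (.c 16 .nil)) .nil) (.I .jac (.c 8257 (.c 24 (.c 40 .nil))) (.l 18433 (.l 16 .nil)))) (.node (.I .adp (.c 18433 (.c 8257 (.c 12993 .nil))) (.l 16 .nil)) (.I .jac (.c 18433 (.c 24 (.c 40 .nil))) (.r 8257 (.l 16 .nil)))))) (.node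 (.node (.node (.I .ass (.c 16 (.c 59109068451510808521 (.c 8257 .nil))) .nil) (.I .com (.c 16 (.c 59109068451510808521 .nil)) (.r 8257 .nil))) (.node (.I .ass (.c 16 (.c 18433 (.c 2379904940409059145 .nil))) .nil) (.I .ass (.c 18433 (.c 16 (.c 2379904940409059145 .nil))) .nil))) (.node (.node (.I .com (.c 16 (.c 18433 .nil)) (.r 2379904940409059145 .nil)) (.I .ass (.c 16 (.c 18433 (.c 2379903823379378121 .nil))) .nil)) (.node (.I .ass (.c 18433 (.c 16 (.c 2379903823379378121 .nil))) .nil) (.I .com (.c 16 (.c 18433 .nil)) (.r 2379903823379378121 .nil))))))) (.node (.node (.node (.node (.node (.I .adp (.c 16 (.c 12993 (.c 2306969678073866834 .nil))) .nil) (.I .ass (.c 16 (.c 537002057 (.c 1350544777 .nil))) .nil)) (.node (.I .ass (.c 537002057 (.c 16 (.c 1350544777 .nil))) .nil) (.I .com (.c 16 (.c 537002057 .nil)) (.r 1350544777 .nil)))) (.node (.node (.I .adp (.c 537002057 (.c 48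 (.c 16 .nil))) (.r 12993 .nil)) (.I .tdp (.c 537002057 (.c 48 (.c 16 (.c 12993 .nil)))) .nil)) (.node (.I .tdb (.c 24 (.c 40 (.c 16 (.c 48 .nil)))) (.r 537002057 .nil)) (.I .adp (.c 16 (.c 12993 (.c 35468730932306 .nil))) .nil)))) (.node (.node (.node (.I .adp (.c 2105609 (.c 48 (.c 12993 .nil))) (.l 16 .nil)) (.I .adp (.c 2105609 (.c 48 (.c 16 .nil))) (.r 12993 .nil))) (.node (.I .tdp (.c 2105609 (.c 48 (.c 16 (.c 12993 .nil)))) .nil) (.I .tdb (.c 24 (.c 40 (.c 16 (.c 48 .nil)))) (.r 2105609 .nil)))) (.node (.node (.I .jac (.c 13748193523587632009 (.c 24 (.c 48 .nil))) (.l 8 .nil)) (.I .jac (.c 1310924937 (.c 18625 (.c 32 .nil))) (.l 8 .nil))) (.node (.I .jac (.c 1310924937 (.c 24 (.c 48 .nil))) (.b 32 (.l 8 .nil))) (.I .adp (.c 8 (.c 2775125257 (.c 33587529 .nil))) .nil))))) (.node (.node (.node (.node (.I .adp (.c 8 (.c 2775125257 (.c 20891651 .nil))) .nil) (.I .adp (.c 12801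 (.c 16 (.c 61610561536314528458 .nil))) .nil)) (.node (.I .adp (.c 8 (.c 2775125257 (.c 16 .nil))) (.l 12801 .nil)) (.I .jac (.c 16 (.c 18625 (.c 32 .nil))) (.l 8 (.l 12801 .nil))))) (.node (.node (.I .jac (.c 16 (.c 24 (.c 48 .nil))) (.b 32 (.l 8 (.l 12801 .nil)))) (.I .adp (.c 8 (.c 2775125257 (.c 12801 .nil))) (.r 16 .nil))) (.node (.I .jac (.c 12801 (.c 18625 (.c 32 .nil))) (.l 8 (.r 16 .nil))) (.I .jac (.c 12801 (.c 24 (.c 48 .nil))) (.b 32 (.l 8 (.r 16 .nil))))))) (.node (.node (.node (.I .com (.c 1512103782441961064963223238430258354057 (.c 8 .nil)) (.r 16 .nil)) (.I .com (.c 1512102896582526877926683197569543635849 (.c 8 .nil)) (.r 16 .nil))) (.node (.I .ass (.c 1310924873 (.c 2775125257 (.c 16 .nil))) .nil) (.I .jac (.c 16 (.c 18625 (.c 32 .nil))) (.l 1310924873 .nil)))) (.node (.node (.I .jac (.c 16 (.c 24 (.c 48 .nil))) (.b 32 (.l 1310924873 .nil))) (.I .com (.c 16 (.c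 2775125257 .nil)) (.l 1310924873 .nil))) (.node (.I .tdp (.c 8 (.c 2775125257 (.c 16 (.c 12801 .nil)))) .nil) (.I .com (.c 651591722123579838450590277895049 (.c 8 .nil)) (.r 40 .nil))))))))

noncomputable def c2_248 : Tr := (.node (.node (.node (.node (.node (.node (.I .com (.c 651591722123561355438909041458185 (.c 8 .nil)) (.r 40 .nil)) (.I .com (.c 537002377 (.c 8 .nil)) (.b 1350544522 .nil))) (.node (.I .ass (.c 16 (.c 2718204169 (.c 1324065993 .nil))) .nil) (.I .ass (.c 2718204169 (.c 16 (.c 1324065993 .nil))) .nil))) (.node (.node (.I .com (.c 16 (.c 2718204169 .nil)) (.r 1324065993 .nil)) (.I .ass (.c 16 (.c 2718204169 (.c 174695753 .nil))) .nil)) (.node (.I .ass (.c 2718204169 (.c 16 (.c 174695753 .nil))) .nil) (.I .com (.c 16 (.c 2718204169 .nil)) (.r 174695753 .nil))))) (.node (.node (.node (.I .adp (.c 16 (.c 12993 (.c 2306972427525220114 .nil))) .nil) (.I .ass (.c 16 (.c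 537002377 (.c 1324065993 .nil))) .nil)) (.node (.I .ass (.c 537002377 (.c 16 (.c 1324065993 .nil))) .nil) (.I .com (.c 16 (.c 537002377 .nil)) (.r 1324065993 .nil)))) (.node (.node (.I .adp (.c 537002377 (.c 8 (.c 16 .nil))) (.r 12993 .nil)) (.I .tdp (.c 537002377 (.c 8 (.c 16 (.c 12993 .nil)))) .nil)) (.node (.I .ass (.c 513 (.c 2756086025 (.c 12993 .nil))) .nil) (.I .com (.c 13748193523587632009 (.c 18625 .nil)) (.l 8 .nil)))))) (.node (.node (.node (.node (.I .tdp (.c 18625 (.c 32 (.c 8 (.c 1310924937 .nil)))) .nil) (.I .tdb (.c 16 (.c 12801 (.c 18625 (.c 8 .nil)))) (.l 32 .nil))) (.node (.I .tdb (.c 16 (.c 12801 (.c 8 (.c 32 .nil)))) (.r 18625 .nil)) (.I .tdb (.c 16 (.c 12801 (.c 8 (.c 32 .nil)))) (.b 18625 .nil)))) (.node (.node (.I .adp (.c 8385 (.c 48 (.c 1310924937 .nil))) (.l 8 .nil)) (.I .com (.c 13748193523587632137 (.c 8385 .nil)) (.l 8 .nil))) (.node (.I .tdp (.c 8385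 (.c 48 (.c 8 (.c 1310924937 .nil)))) .nil) (.I .tdb (.c 24 (.c 48 (.c 16 (.c 32 .nil)))) (.b 0 (.b 40 (.l 8 .nil))))))) (.node (.node (.node (.I .tdb (.c 2049 (.c 40 (.c 18625 (.c 32 .nil)))) (.l 8 .nil)) (.I .tdb (.c 0 (.c 16 (.c 32 (.c 18625 .nil)))) (.b 40 (.l 8 .nil)))) (.node (.I .tdb (.c 24 (.c 48 (.c 0 (.c 32 .nil)))) (.b 16 (.b 40 (.l 8 .nil)))) (.I .adp (.c 18625 (.c 32 (.c 33587529 .nil))) (.l 8 .nil)))) (.node (.node (.I .tdp (.c 18625 (.c 32 (.c 8 (.c 33587529 .nil)))) .nil) (.I .tdb (.c 2049 (.c 40 (.c 8 (.c 32 .nil)))) (.r 18625 .nil))) (.node (.I .tdb (.c 0 (.c 16 (.c 32 (.c 8 .nil)))) (.b 40 (.r 18625 .nil))) (.I .adp (.c 8385 (.c 48 (.c 33587529 .nil))) (.l 8 .nil))))))) (.node (.node (.node (.node (.node (.I .tdp (.c 8385 (.c 48 (.c 8 (.c 33587529 .nil)))) .nil) (.I .adp (.c 0 (.c 40 (.c 545424777 .nil))) (.b 4737 .nil))) (.node (.I .adp (.c 18497 (.c 32 (.c 12801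 .nil))) (.b 4737 .nil)) (.I .ass (.c 2718203977 (.c 32 (.c 40 .nil))) (.b 4737 .nil)))) (.node (.node (.I .adp (.c 0 (.c 12929 (.c 61610561536314528458 .nil))) .nil) (.I .tdb (.c 32 (.c 18625 (.c 0 (.c 8 .nil)))) (.r 12929 .nil))) (.node (.I .adp (.c 8 (.c 2775125257 (.c 0 .nil))) (.r 12929 .nil)) (.I .jac (.c 8193 (.c 24 (.c 48 .nil))) (.l 8 (.r 12929 .nil)))))) (.node (.node (.node (.I .jac (.c 0 (.c 18625 (.c 32 .nil))) (.l 8 (.r 12929 .nil))) (.I .jac (.c 0 (.c 24 (.c 48 .nil))) (.b 32 (.l 8 (.r 12929 .nil))))) (.node (.I .com (.c 2306972423229201225 (.c 8 .nil)) (.r 12929 .nil)) (.I .com (.c 59109068451510808457 (.c 8 .nil)) (.r 12929 .nil)))) (.node (.node (.I .com (.c 231046163358604169 (.c 8 .nil)) (.r 12929 .nil)) (.I .com (.c 2306970773558194185 (.c 8 .nil)) (.r 12929 .nil))) (.node (.I .ass (.c 513 (.c 2775125257 (.c 12929 .nil))) .nil) (.I .adp (.c 0 (.c 12993 (.c 60768081417602405066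 .nil))) .nil))))) (.node (.node (.node (.node (.I .tdb (.c 32 (.c 18561 (.c 0 (.c 8 .nil)))) (.r 12993 .nil)) (.I .adp (.c 8 (.c 2756086025 (.c 0 .nil))) (.r 12993 .nil))) (.node (.I .jac (.c 8193 (.c 16 (.c 48 .nil))) (.l 8 (.r 12993 .nil))) (.I .jac (.c 0 (.c 18561 (.c 32 .nil))) (.l 8 (.r 12993 .nil))))) (.node (.node (.I .jac (.c 0 (.c 16 (.c 48 .nil))) (.b 32 (.l 8 (.r 12993 .nil)))) (.I .com (.c 2306972423229201161 (.c 8 .nil)) (.r 12993 .nil))) (.node (.I .com (.c 59109065668069837705 (.c 8 .nil)) (.r 12993 .nil)) (.I .com (.c 9025011228269449 (.c 8 .nil)) (.r 12993 .nil))))) (.node (.node (.node (.I .com (.c 2306970223667989513 (.c 8 .nil)) (.r 12993 .nil)) (.I .adp (.c 16 (.c 24 (.c 40 .nil))) (.b 2306972423229201097 .nil))) (.node (.I .adp (.c 16 (.c 24 (.c 40 .nil))) (.b 59109062884628932489 .nil)) (.I .adp (.c 16 (.c 24 (.c 40 .nil))) (.b 35473026505609 .nil)))) (.node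 (.node (.I .adp (.c 16 (.c 24 (.c 40 .nil))) (.b 2306969673777850377 .nil)) (.I .adp (.c 16 (.c 24 (.c 545424777 .nil))) (.b 12801 .nil))) (.node (.I .jac (.c 0 (.c 8257 (.c 48 .nil))) (.b 179589473 .nil)) (.I .jac (.c 0 (.c 8 (.c 32 .nil))) (.b 48 (.b 179589473 .nil)))))))))

noncomputable def c2_249 : Tr := (.node (.node (.node (.node (.node (.node (.I .adp (.c 16 (.c 24 (.c 40 .nil))) (.b 35468714087433 .nil)) (.I .adp (.c 16 (.c 24 (.c 40 .nil))) (.b 15246236343241801 .nil))) (.node (.I .jac (.c 0 (.c 16 (.c 24 .nil))) (.b 59940751862425709409 .nil)) (.I .adp (.c 18497 (.c 32 (.c 4737 .nil))) (.b 12801 .nil)))) (.node (.node (.I .adp (.c 16 (.c 24 (.c 40 .nil))) (.b 15246191640313993 .nil)) (.I .adp (.c 16 (.c 24 (.c 40 .nil))) (.b 35473043351506 .nil))) (.node (.I .adp (.c 8257 (.c 48 (.c 40 .nil))) (.b 169943177 .nil)) (.I .adp (.c 16 (.c 24 (.c 40 .nil))) (.b 35468730932306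 .nil))))) (.node (.node (.node (.I .tdb (.c 16 (.c 4609 (.c 18753 (.c 32 .nil)))) (.l 8 .nil)) (.I .tdb (.c 0 (.c 24 (.c 32 (.c 18753 .nil)))) (.b 16 (.l 8 .nil)))) (.node (.I .jac (.c 169943177 (.c 40 (.c 48 .nil))) (.l 32 (.l 8 .nil))) (.I .com (.c 427056063571158149899930723770114057 (.c 32 .nil)) (.l 8 .nil)))) (.node (.node (.I .tdb (.c 16 (.c 4609 (.c 8 (.c 32 .nil)))) (.l 18753 .nil)) (.I .tdb (.c 0 (.c 24 (.c 32 (.c 8 .nil)))) (.b 16 (.l 18753 .nil)))) (.node (.I .tdb (.c 16 (.c 4609 (.c 18753 (.c 8 .nil)))) (.r 32 .nil)) (.I .tdb (.c 0 (.c 24 (.c 18753 (.c 8 .nil)))) (.b 16 (.r 32 .nil))))))) (.node (.node (.node (.node (.I .tdb (.c 16 (.c 4609 (.c 8 (.c 32 .nil)))) (.b 18753 .nil)) (.I .tdb (.c 0 (.c 24 (.c 32 (.c 8 .nil)))) (.b 16 (.b 18753 .nil)))) (.node (.I .tdb (.c 24 (.c 2049 (.c 18753 (.c 32 .nil)))) (.l 8 .nil)) (.I .tdb (.c 0 (.c 16 (.c 32 (.c 18753 .nil)))) (.b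 24 (.l 8 .nil))))) (.node (.node (.I .jac (.c 33587401 (.c 40 (.c 48 .nil))) (.l 32 (.l 8 .nil))) (.I .com (.c 651591722123570596944749659643913 (.c 32 .nil)) (.l 8 .nil))) (.node (.I .tdb (.c 24 (.c 2049 (.c 18753 (.c 8 .nil)))) (.r 32 .nil)) (.I .tdb (.c 0 (.c 16 (.c 18753 (.c 8 .nil)))) (.b 24 (.r 32 .nil)))))) (.node (.node (.node (.I .adp (.c 0 (.c 24 (.c 545424777 .nil))) (.b 12929 .nil)) (.I .adp (.c 0 (.c 24 (.c 43655235 .nil))) (.b 12929 .nil))) (.node (.I .adp (.c 18497 (.c 32 (.c 4609 .nil))) (.b 12929 .nil)) (.I .adp (.c 8257 (.c 48 (.c 4609 .nil))) (.b 12929 .nil)))) (.node (.node (.I .adp (.c 0 (.c 16 (.c 43655235 .nil))) (.b 12993 .nil)) (.I .adp (.c 18497 (.c 32 (.c 2049 .nil))) (.b 12993 .nil))) (.node (.I .adp (.c 18433 (.c 32 (.c 16 .nil))) (.b 1324065993 .nil)) (.I .adp (.c 18433 (.c 32 (.c 16 .nil))) (.b 174695753 .nil))))))) (.node (.node (.node (.node (.node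 (.I .adp (.c 18433 (.c 32 (.c 16 .nil))) (.b 21099075 .nil)) (.I .adp (.c 18433 (.c 32 (.c 16 .nil))) (.b 174733138 .nil))) (.node (.I .tdb (.c 0 (.c 48 (.c 8 (.c 32 .nil)))) (.b 1337375954 .nil)) (.I .tdb (.c 0 (.c 48 (.c 8 (.c 32 .nil)))) (.b 179551570 .nil)))) (.node (.node (.I .tdb (.c 0 (.c 32 (.c 8 (.c 48 .nil)))) (.b 1337375954 .nil)) (.I .adp (.c 0 (.c 553912713 (.c 1324065993 .nil))) .nil)) (.node (.I .jac (.c 0 (.c 12865 (.c 24 .nil))) (.r 553912713 .nil)) (.I .jac (.c 0 (.c 8 (.c 40 .nil))) (.b 24 (.r 553912713 .nil)))))) (.node (.node (.node (.I .jac (.c 2737112329 (.c 16 (.c 40 .nil))) (.b 24 (.l 0 .nil))) (.I .jac (.c 2737112329 (.c 4737 (.c 40 .nil))) (.l 0 .nil))) (.node (.I .ass (.c 12865 (.c 0 (.c 60768081417602405193 .nil))) .nil) (.I .ass (.c 0 (.c 12865 (.c 60768081417602405193 .nil))) .nil))) (.node (.node (.I .com (.c 12865 (.c 0 .nil)) (.r 60768081417602405193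 .nil)) (.I .ass (.c 12865 (.c 0 (.c 2454554348984163145 .nil))) .nil)) (.node (.I .ass (.c 0 (.c 12865 (.c 2454554348984163145 .nil))) .nil) (.I .com (.c 12865 (.c 0 .nil)) (.r 2454554348984163145 .nil)))))) (.node (.node (.node (.node (.I .com (.c 0 (.c 29220452429459899003032347128953811664190779015968042114379703941897 .nil)) .nil) (.I .tdb (.c 48 (.c 8321 (.c 0 (.c 40 .nil)))) (.l 4673 .nil))) (.node (.I .tdb (.c 16 (.c 32 (.c 0 (.c 40 .nil)))) (.b 48 (.l 4673 .nil))) (.I .adp (.c 0 (.c 2737112329 (.c 21099139 .nil))) .nil))) (.node (.node (.I .adp (.c 12929 (.c 24 (.c 59934271212510433930 .nil))) .nil) (.I .jac (.c 8786435 (.c 8 (.c 48 .nil))) (.l 12929 .nil))) (.node (.I .adp (.c 0 (.c 2737112329 (.c 24 .nil))) (.l 12929 .nil)) (.I .ass (.c 12929 (.c 4609 (.c 2737112329 .nil))) .nil)))) (.node (.node (.node (.I .ass (.c 4609 (.c 12929 (.c 2737112329 .nil))) .nil) (.I .com (.c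 12929 (.c 4609 .nil)) (.r 2737112329 .nil))) (.node (.I .ass (.c 12929 (.c 0 (.c 59934271212510434121 .nil))) .nil) (.I .ass (.c 0 (.c 12929 (.c 59934271212510434121 .nil))) .nil))) (.node (.node (.I .com (.c 12929 (.c 0 .nil)) (.r 59934271212510434121 .nil)) (.I .tdb (.c 16 (.c 40 (.c 2737112329 (.c 0 .nil)))) (.r 24 .nil))) (.node (.I .adp (.c 0 (.c 2737112329 (.c 12929 .nil))) (.r 24 .nil)) (.I .jac (.c 2737112329 (.c 16 (.c 40 .nil))) (.l 0 (.r 24 .nil)))))))))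

noncomputable def c2_250 : Tr := (.node (.node (.node (.node (.node (.node (.I .jac (.c 0 (.c 16 (.c 40 .nil))) (.r 2737112329 (.r 24 .nil))) (.I .ass (.c 0 (.c 28736934926198055667001436981588417552137 (.c 24 .nil))) .nil)) (.node (.I .ass (.c 0 (.c 28736934926198055482883355816756363834313 (.c 24 .nil))) .nil) (.I .tdp (.c 0 (.c 2737112329 (.c 24 (.c 12929 .nil)))) .nil))) (.node (.node (.I .tdb (.c 16 (.c 40 (.c 0 (.c 24 .nil)))) (.l 2737112329 .nil)) (.I .tdb (.c 32 (.c 18497 (.c 24 (.c 40 .nil)))) (.b 16 (.r 0 .nil)))) (.node (.I .tdb (.c 8 (.c 48 (.c 24 (.c 40 .nil)))) (.b 32 (.b 16 (.r 0 .nil)))) (.I .tdb (.c 16 (.c 40 (.c 2737112329 (.c 24 .nil)))) (.r 0 .nil))))) (.node (.node (.node (.I .ass (.c 12929 (.c 4609 (.c 545424777 .nil))) .nil) (.I .ass (.c 4609 (.c 12929 (.c 545424777 .nil))) .nil)) (.node (.I .com (.c 12929 (.c 4609 .nil)) (.r 545424777 .nil)) (.I .ass (.c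 4737 (.c 0 (.c 59934271212510434249 .nil))) .nil))) (.node (.node (.I .ass (.c 0 (.c 4737 (.c 59934271212510434249 .nil))) .nil) (.I .com (.c 4737 (.c 0 .nil)) (.r 59934271212510434249 .nil))) (.node (.I .tdb (.c 32 (.c 18497 (.c 16 (.c 40 .nil)))) (.b 24 (.r 0 .nil))) (.I .tdb (.c 8 (.c 48 (.c 16 (.c 40 .nil)))) (.b 32 (.b 24 (.r 0 .nil)))))))) (.node (.node (.node (.node (.I .com (.c 0 (.c 29220112062374824750162709459311349404285856538525813003815502510921 .nil)) .nil) (.I .jac (.c 43954691 (.c 8 (.c 32 .nil))) (.l 4737 .nil))) (.node (.I .tdb (.c 48 (.c 8257 (.c 0 (.c 40 .nil)))) (.l 4737 .nil)) (.I .tdb (.c 8 (.c 32 (.c 0 (.c 40 .nil)))) (.b 48 (.l 4737 .nil))))) (.node (.node (.I .ass (.c 4737 (.c 0 (.c 2379905498923998153 .nil))) .nil) (.I .ass (.c 0 (.c 4737 (.c 2379905498923998153 .nil))) .nil)) (.node (.I .com (.c 4737 (.c 0 .nil)) (.r 2379905498923998153 .nil)) (.I .jac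 (.c 8786435 (.c 8 (.c 40 .nil))) (.b 18561 .nil))))) (.node (.node (.node (.I .jac (.c 15456118887243977 (.c 8 (.c 24 .nil))) (.l 32 .nil)) (.I .tdb (.c 16 (.c 48 (.c 0 (.c 40 .nil)))) (.b 4673 (.l 32 .nil)))) (.node (.I .tdb (.c 4673 (.c 40 (.c 0 (.c 32 .nil)))) (.b 18561 .nil)) (.I .tdb (.c 8 (.c 24 (.c 32 (.c 0 .nil)))) (.b 40 (.b 18561 .nil))))) (.node (.node (.I .jac (.c 15038410136445065 (.c 16 (.c 40 .nil))) (.l 32 .nil)) (.I .tdb (.c 8 (.c 48 (.c 0 (.c 24 .nil)))) (.b 12929 (.l 32 .nil)))) (.node (.I .jac (.c 8786435 (.c 16 (.c 40 .nil))) (.b 18497 .nil)) (.I .tdb (.c 24 (.c 12929 (.c 0 (.c 32 .nil)))) (.b 18497 .nil))))))) (.node (.node (.node (.node (.node (.I .tdb (.c 8 (.c 48 (.c 0 (.c 40 .nil)))) (.b 4737 (.l 32 .nil))) (.I .tdb (.c 4737 (.c 40 (.c 0 (.c 32 .nil)))) (.b 18497 .nil))) (.node (.I .tdb (.c 16 (.c 24 (.c 32 (.c 0 .nil)))) (.b 40 (.b 18497 .nil))) (.I .adp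 (.c 16 (.c 40 (.c 2718204169 .nil))) (.b 4673 .nil)))) (.node (.node (.I .adp (.c 18433 (.c 32 (.c 24 .nil))) (.b 1324065929 .nil)) (.I .adp (.c 18433 (.c 32 (.c 24 .nil))) (.b 20891715 .nil))) (.node (.I .tdb (.c 0 (.c 48 (.c 24 (.c 32 .nil)))) (.b 1324168850 .nil)) (.I .tdb (.c 0 (.c 48 (.c 24 (.c 32 .nil)))) (.b 35735378 .nil))))) (.node (.node (.node (.I .adp (.c 18433 (.c 32 (.c 24 .nil))) (.b 35735378 .nil)) (.I .tdb (.c 0 (.c 32 (.c 8 (.c 48 .nil)))) (.b 1350544522 .nil))) (.node (.I .jac (.c 14025204674709064585 (.c 24 (.c 48 .nil))) (.l 0 .nil)) (.I .jac (.c 1324065929 (.c 18625 (.c 32 .nil))) (.l 0 .nil)))) (.node (.node (.I .jac (.c 1324065929 (.c 24 (.c 48 .nil))) (.b 32 (.l 0 .nil))) (.I .adp (.c 0 (.c 2775125257 (.c 35718473 .nil))) .nil)) (.node (.I .jac (.c 0 (.c 2113 (.c 40 .nil))) (.r 2775125257 .nil)) (.I .jac (.c 0 (.c 8 (.c 16 .nil))) (.b 40 (.r 2775125257 .nil)))))))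 (.node (.node (.node (.node (.I .jac (.c 8321 (.c 24 (.c 48 .nil))) (.l 0 (.l 12865 .nil))) (.I .ass (.c 12865 (.c 0 (.c 60768078595370348425 .nil))) .nil)) (.node (.I .ass (.c 0 (.c 12865 (.c 60768078595370348425 .nil))) .nil) (.I .com (.c 12865 (.c 0 .nil)) (.r 60768078595370348425 .nil)))) (.node (.node (.I .ass (.c 12865 (.c 0 (.c 257801454173641609 .nil))) .nil) (.I .ass (.c 0 (.c 12865 (.c 257801454173641609 .nil))) .nil)) (.node (.I .com (.c 12865 (.c 0 .nil)) (.r 257801454173641609 .nil)) (.I .ass (.c 12865 (.c 0 (.c 2454552647364603913 .nil))) .nil)))) (.node (.node (.node (.I .ass (.c 0 (.c 12865 (.c 2454552647364603913 .nil))) .nil) (.I .com (.c 12865 (.c 0 .nil)) (.r 2454552647364603913 .nil))) (.node (.I .jac (.c 18561 (.c 24 (.c 32 .nil))) (.l 0 (.l 12865 .nil))) (.I .ass (.c 12865 (.c 0 (.c 257801086529639433 .nil))) .nil))) (.node (.node (.I .ass (.c 0 (.c 12865 (.c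 257801086529639433 .nil))) .nil) (.I .com (.c 12865 (.c 0 .nil)) (.r 257801086529639433 .nil))) (.node (.I .adp (.c 16 (.c 12993 (.c 59934271212510433930 .nil))) .nil) (.I .adp (.c 0 (.c 2737112329 (.c 12993 .nil))) (.l 16 .nil))))))))

noncomputable def c2_251 : Tr := (.node (.node (.node (.node (.node (.node (.I .jac (.c 0 (.c 24 (.c 40 .nil))) (.r 2737112329 (.l 16 .nil))) (.I .com (.c 2737112329 (.c 16 .nil)) (.l 1310925001 .nil))) (.node (.I .com (.c 28736934926198055667001436981588417552201 (.c 16 .nil)) (.l 0 .nil)) (.I .com (.c 28736934926198055544256049538367048341449 (.c 16 .nil)) (.l 0 .nil)))) (.node (.node (.I .adp (.c 0 (.c 2737112329 (.c 16 .nil))) (.r 12993 .nil)) (.I .ass (.c 0 (.c 59934271212510434057 (.c 12993 .nil))) .nil)) (.node (.I .tdp (.c 0 (.c 2737112329 (.c 16 (.c 12993 .nil)))) .nil) (.I .tdb (.c 24 (.c 40 (.c 0 (.c 16 .nil)))) (.l 2737112329 .nil)))))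 (.node (.node (.node (.I .tdb (.c 24 (.c 40 (.c 2737112329 (.c 16 .nil)))) (.r 0 .nil)) (.I .ass (.c 16 (.c 0 (.c 45311601470469471716248442001631205321 .nil))) .nil)) (.node (.I .ass (.c 0 (.c 16 (.c 45311601470469471716248442001631205321 .nil))) .nil) (.I .com (.c 16 (.c 0 .nil)) (.r 45311601470469471716248442001631205321 .nil)))) (.node (.node (.I .tdb (.c 24 (.c 48 (.c 0 (.c 16 .nil)))) (.b 12865 (.l 32 .nil))) (.I .jac (.c 8652803 (.c 8 (.c 40 .nil))) (.b 18625 .nil))) (.node (.I .tdb (.c 16 (.c 12865 (.c 0 (.c 32 .nil)))) (.b 18625 .nil)) (.I .jac (.c 15456118887244041 (.c 8 (.c 16 .nil))) (.l 32 .nil)))))) (.node (.node (.node (.node (.I .adp (.c 8 (.c 40 (.c 2718204169 .nil))) (.b 4737 .nil)) (.I .adp (.c 8 (.c 40 (.c 537002377 .nil))) (.b 4737 .nil))) (.node (.I .adp (.c 8 (.c 40 (.c 43655171 .nil))) (.b 4737 .nil)) (.I .adp (.c 8 (.c 40 (.c 16 .nil))) (.b 15246191640314121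 .nil)))) (.node (.node (.I .adp (.c 8 (.c 40 (.c 24 .nil))) (.b 15246191640314057 .nil)) (.I .adp (.c 18433 (.c 32 (.c 12865 .nil))) (.b 4737 .nil))) (.node (.I .adp (.c 8 (.c 40 (.c 2718351634 .nil))) (.b 4737 .nil)) (.I .adp (.c 18433 (.c 32 (.c 40 .nil))) (.l 8 (.b 4737 .nil)))))) (.node (.node (.node (.I .tdb (.c 0 (.c 48 (.c 8 (.c 32 .nil)))) (.r 40 (.b 4737 .nil))) (.I .adp (.c 18433 (.c 32 (.c 8 .nil))) (.r 40 (.b 4737 .nil)))) (.node (.I .tdp (.c 18433 (.c 32 (.c 8 (.c 40 .nil)))) (.b 4737 .nil)) (.I .adp (.c 8 (.c 40 (.c 16 .nil))) (.b 59115484848563759841 .nil)))) (.node (.node (.I .adp (.c 18433 (.c 32 (.c 24 .nil))) (.b 1337272394 .nil)) (.I .adp (.c 8 (.c 40 (.c 24 .nil))) (.b 59115484848563759777 .nil))) (.node (.I .adp (.c 18433 (.c 32 (.c 16 .nil))) (.b 1350544458 .nil)) (.I .tdb (.c 16 (.c 40 (.c 2775125257 (.c 0 .nil)))) (.l 8 .nil))))))) (.node (.node (.node (.node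 (.node (.I .jac (.c 1337272585 (.c 24 (.c 48 .nil))) (.l 0 (.l 8 .nil))) (.I .jac (.c 12929 (.c 18625 (.c 32 .nil))) (.l 0 (.l 8 .nil)))) (.node (.I .jac (.c 12929 (.c 24 (.c 48 .nil))) (.b 32 (.l 0 (.l 8 .nil)))) (.I .ass (.c 8 (.c 0 (.c 1637380924067412225938094939096059953993 .nil))) .nil))) (.node (.node (.I .ass (.c 0 (.c 8 (.c 1637380924067412225938094939096059953993 .nil))) .nil) (.I .com (.c 8 (.c 0 .nil)) (.r 1637380924067412225938094939096059953993 .nil))) (.node (.I .ass (.c 8 (.c 0 (.c 1637380610616369280975459862680766972809 .nil))) .nil) (.I .ass (.c 0 (.c 8 (.c 1637380610616369280975459862680766972809 .nil))) .nil)))) (.node (.node (.node (.I .com (.c 8 (.c 0 .nil)) (.r 1637380610616369280975459862680766972809 .nil)) (.I .ass (.c 8 (.c 0 (.c 1637380924067412181988884112116758304777 .nil))) .nil)) (.node (.I .ass (.c 0 (.c 8 (.c 1637380924067412181988884112116758304777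 .nil))) .nil) (.I .com (.c 8 (.c 0 .nil)) (.r 1637380924067412181988884112116758304777 .nil)))) (.node (.node (.I .tdb (.c 24 (.c 40 (.c 2756086025 (.c 0 .nil)))) (.l 8 .nil)) (.I .jac (.c 2756086025 (.c 24 (.c 40 .nil))) (.l 0 (.l 8 .nil)))) (.node (.I .ass (.c 8 (.c 0 (.c 29542077753410838072595895455078152904521 .nil))) .nil) (.I .ass (.c 0 (.c 8 (.c 29542077753410838072595895455078152904521 .nil))) .nil))))) (.node (.node (.node (.node (.I .com (.c 8 (.c 0 .nil)) (.r 29542077753410838072595895455078152904521 .nil)) (.I .ass (.c 8 (.c 0 (.c 29542077753410837948142864711828426938313 .nil))) .nil)) (.node (.I .ass (.c 0 (.c 8 (.c 29542077753410837948142864711828426938313 .nil))) .nil) (.I .com (.c 8 (.c 0 .nil)) (.r 29542077753410837948142864711828426938313 .nil)))) (.node (.node (.I .adp (.c 16 (.c 24 (.c 537002377 .nil))) (.b 12865 .nil)) (.I .adp (.c 18433 (.c 32 (.c 40 .nil)))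 (.b 174695561 .nil))) (.node (.I .jac (.c 174695561 (.c 40 (.c 48 .nil))) (.l 32 (.l 0 .nil))) (.I .jac (.c 8652803 (.c 8 (.c 24 .nil))) (.b 18753 .nil))))) (.node (.node (.node (.I .jac (.c 35718345 (.c 40 (.c 48 .nil))) (.l 32 (.l 0 .nil))) (.I .jac (.c 8786435 (.c 8 (.c 16 .nil))) (.b 18753 .nil))) (.node (.I .adp (.c 8 (.c 24 (.c 537002377 .nil))) (.b 12929 .nil)) (.I .adp (.c 18433 (.c 32 (.c 4673 .nil))) (.b 12929 .nil)))) (.node (.node (.I .adp (.c 1310924937 (.c 24 (.c 2737112329 .nil))) .nil) (.I .adp (.c 4609 (.c 12929 (.c 2737112329 .nil))) .nil)) (.node (.I .adp (.c 33587529 (.c 24 (.c 545424777 .nil))) .nil) (.I .jac (.c 8 (.c 16 (.c 40 .nil))) (.r 24 (.b 2718204169 .nil)))))))))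

noncomputable def c2_252 : Tr := (.node (.node (.node (.node (.node (.node (.I .adp (.c 1324065929 (.c 24 (.c 2718204169 .nil))) .nil) (.I .adp (.c 35718473 (.c 24 (.c 2718204169 .nil))) .nil)) (.node (.I .com (.c 59109071234951844681 (.c 35718473 .nil)) .nil) (.I .jac (.c 2718204169 (.c 16 (.c 40 .nil))) (.l 4673 .nil)))) (.node (.node (.I .jac (.c 8 (.c 16 (.c 40 .nil))) (.r 24 (.b 537002377 .nil))) (.I .adp (.c 1324065929 (.c 24 (.c 537002377 .nil))) .nil)) (.node (.I .jac (.c 0 (.c 16 (.c 24 .nil))) (.r 40 (.b 2737112329 .nil))) (.I .adp (.c 169943177 (.c 40 (.c 2737112329 .nil))) .nil)))) (.node (.node (.node (.I .adp (.c 33587401 (.c 40 (.c 2737112329 .nil))) .nil) (.I .adp (.c 169943177 (.c 40 (.c 545424777 .nil))) .nil)) (.node (.I .adp (.c 33587401 (.c 40 (.c 545424777 .nil))) .nil) (.I .adp (.c 12865 (.c 4737 (.c 2718204169 .nil))) .nil))) (.node (.node (.I .com (.c 59109071234951844809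 (.c 35718345 .nil)) .nil) (.I .jac (.c 12865 (.c 16 (.c 24 .nil))) (.b 537002377 .nil))) (.node (.I .jac (.c 8 (.c 16 (.c 24 .nil))) (.r 40 (.b 537002377 .nil))) (.I .com (.c 12865 (.c 4737 .nil)) (.b 537002377 .nil)))))) (.node (.node (.node (.node (.I .adp (.c 4737 (.c 40 (.c 8 .nil))) (.b 537002377 .nil)) (.I .adp (.c 12865 (.c 4737 (.c 537002377 .nil))) .nil)) (.node (.I .adp (.c 35718345 (.c 40 (.c 537002377 .nil))) .nil) (.I .com (.c 169943369 (.c 16 .nil)) (.b 545424777 .nil)))) (.node (.node (.I .adp (.c 169943369 (.c 16 (.c 545424777 .nil))) .nil) (.I .com (.c 1324065993 (.c 16 .nil)) (.b 2718204169 .nil))) (.node (.I .adp (.c 16 (.c 12993 (.c 8 .nil))) (.b 2718204169 .nil)) (.I .jac (.c 8 (.c 24 (.c 40 .nil))) (.l 16 (.b 2718204169 .nil)))))) (.node (.node (.node (.I .adp (.c 1324065993 (.c 16 (.c 2718204169 .nil))) .nil) (.I .com (.c 59109071234951844617 (.c 1324065993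 .nil)) .nil)) (.node (.I .com (.c 59109071234951844617 (.c 174695753 .nil)) .nil) (.I .jac (.c 2718204169 (.c 24 (.c 40 .nil))) (.l 2113 .nil)))) (.node (.node (.I .com (.c 1324065993 (.c 16 .nil)) (.b 537002377 .nil)) (.I .adp (.c 174695753 (.c 16 (.c 537002377 .nil))) .nil)) (.node (.I .adp (.c 16 (.c 12994 (.c 8 .nil))) (.b 2718204169 .nil)) (.I .adp (.c 24 (.c 40 (.c 8 .nil))) (.l 16 (.b 2718204169 .nil)))))))) (.node (.node (.node (.node (.node (.I .com (.c 12865 (.c 24 .nil)) (.l 16 (.b 2718204169 .nil))) (.I .com (.c 21099075 (.c 16 .nil)) (.b 2718204169 .nil))) (.node (.I .ass (.c 16 (.c 12865 (.c 24 .nil))) (.b 2718204169 .nil)) (.I .com (.c 16 (.c 12865 .nil)) (.r 24 (.b 2718204169 .nil))))) (.node (.node (.I .ass (.c 16 (.c 4673 (.c 40 .nil))) (.b 2718204169 .nil)) (.I .ass (.c 4673 (.c 16 (.c 40 .nil))) (.b 2718204169 .nil))) (.node (.I .com (.c 16 (.c 4673 .nil)) (.r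 40 (.b 2718204169 .nil))) (.I .tdp (.c 24 (.c 40 (.c 8 (.c 16 .nil)))) (.b 2718204169 .nil))))) (.node (.node (.node (.I .com (.c 59109071234951844617 (.c 21099075 .nil)) .nil) (.I .com (.c 59109071234951844681 (.c 16 .nil)) (.l 12865 .nil))) (.node (.I .adp (.c 4673 (.c 12930 (.c 2718204169 .nil))) .nil) (.I .com (.c 59109071234951844809 (.c 16 .nil)) (.l 4673 .nil)))) (.node (.node (.I .adp (.c 16 (.c 40 (.c 2718204169 .nil))) (.l 4673 .nil)) (.I .com (.c 21099075 (.c 16 .nil)) (.b 537002377 .nil))) (.node (.I .ass (.c 12865 (.c 16 (.c 24 .nil))) (.b 537002377 .nil)) (.I .ass (.c 16 (.c 4673 (.c 40 .nil))) (.b 537002377 .nil)))))) (.node (.node (.node (.node (.I .ass (.c 4673 (.c 16 (.c 40 .nil))) (.b 537002377 .nil)) (.I .com (.c 16 (.c 4673 .nil)) (.r 40 (.b 537002377 .nil)))) (.node (.I .tdp (.c 24 (.c 40 (.c 8 (.c 16 .nil)))) (.b 537002377 .nil)) (.I .com (.c 2803779 (.c 40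 .nil)) (.b 537002377 .nil)))) (.node (.node (.I .adp (.c 12865 (.c 4738 (.c 537002377 .nil))) .nil) (.I .adp (.c 16 (.c 24 (.c 537002377 .nil))) (.l 12865 .nil))) (.node (.I .adp (.c 2803779 (.c 40 (.c 537002377 .nil))) .nil) (.I .adp (.c 18497 (.c 32 (.c 9024976834606921 .nil))) .nil)))) (.node (.node (.node (.I .adp (.c 8193 (.c 48 (.c 14025204674709064521 .nil))) .nil) (.I .jac (.c 18433 (.c 35718473 (.c 24 .nil))) (.r 32 .nil))) (.node (.I .jac (.c 18433 (.c 2113 (.c 40 .nil))) (.b 24 (.r 32 .nil))) (.I .jac (.c 18433 (.c 8 (.c 16 .nil))) (.b 40 (.b 24 (.r 32 .nil)))))) (.node (.node (.I .adp (.c 8193 (.c 48 (.c 10206474507614025 .nil))) .nil) (.I .adp (.c 18497 (.c 32 (.c 9024908047478729 .nil))) .nil)) (.node (.I .adp (.c 8257 (.c 48 (.c 9024908047478729 .nil))) .nil) (.I .jac (.c 18433 (.c 1324065993 (.c 16 .nil))) (.r 32 .nil))))))))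

noncomputable def c2_253 : Tr := (.node (.node (.node (.node (.node (.node (.I .jac (.c 18433 (.c 12865 (.c 24 .nil))) (.b 16 (.r 32 .nil))) (.I .jac (.c 18433 (.c 8 (.c 40 .nil))) (.b 24 (.b 16 (.r 32 .nil))))) (.node (.I .adp (.c 8193 (.c 48 (.c 14025206030552608521 .nil))) .nil) (.I .jac (.c 18433 (.c 35718345 (.c 40 .nil))) (.r 32 .nil)))) (.node (.node (.I .jac (.c 18433 (.c 2113 (.c 24 .nil))) (.b 40 (.r 32 .nil))) (.I .jac (.c 18433 (.c 8 (.c 16 .nil))) (.b 24 (.b 40 (.r 32 .nil))))) (.node (.I .adp (.c 33587529 (.c 24 (.c 43655235 .nil))) .nil) (.I .adp (.c 18497 (.c 32 (.c 3561346121425097 .nil))) .nil)))) (.node (.node (.node (.I .tdb (.c 8 (.c 48 (.c 24 (.c 32 .nil)))) (.l 1310924937 .nil)) (.I .adp (.c 33587529 (.c 24 (.c 2737260306 .nil))) .nil)) (.node (.I .tdb (.c 8 (.c 48 (.c 24 (.c 32 .nil)))) (.l 33587529 .nil)) (.I .adp (.c 18497 (.c 32 (.c 24 .nil))) (.l 33587529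 .nil)))) (.node (.node (.I .adp (.c 18497 (.c 32 (.c 33587529 .nil))) (.r 24 .nil)) (.I .tdp (.c 18497 (.c 32 (.c 24 (.c 33587529 .nil)))) .nil)) (.node (.I .tdb (.c 2049 (.c 40 (.c 24 (.c 32 .nil)))) (.r 18497 .nil)) (.I .tdb (.c 0 (.c 16 (.c 32 (.c 24 .nil)))) (.b 40 (.r 18497 .nil))))))) (.node (.node (.node (.node (.I .adp (.c 18433 (.c 32 (.c 3561367726845129 .nil))) .nil) (.I .jac (.c 12801 (.c 16 (.c 24 .nil))) (.b 43655235 .nil))) (.node (.I .adp (.c 169943177 (.c 40 (.c 43655235 .nil))) .nil) (.I .adp (.c 33587401 (.c 40 (.c 43655235 .nil))) .nil))) (.node (.node (.I .adp (.c 18497 (.c 32 (.c 3491688652046601 .nil))) .nil) (.I .adp (.c 169943177 (.c 40 (.c 2737260306 .nil))) .nil)) (.node (.I .adp (.c 18497 (.c 32 (.c 40 .nil))) (.l 169943177 .nil)) (.I .tdb (.c 8 (.c 48 (.c 16 (.c 32 .nil)))) (.b 4609 (.r 40 .nil)))))) (.node (.node (.node (.I .tdb (.c 16 (.c 4609 (.c 18497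 (.c 32 .nil)))) (.r 40 .nil)) (.I .tdb (.c 0 (.c 24 (.c 32 (.c 18497 .nil)))) (.b 16 (.r 40 .nil)))) (.node (.I .adp (.c 18497 (.c 32 (.c 169943177 .nil))) (.r 40 .nil)) (.I .tdp (.c 18497 (.c 32 (.c 40 (.c 169943177 .nil)))) .nil))) (.node (.node (.I .tdb (.c 16 (.c 4609 (.c 18497 (.c 40 .nil)))) (.l 32 .nil)) (.I .tdb (.c 0 (.c 24 (.c 40 (.c 18497 .nil)))) (.b 16 (.l 32 .nil)))) (.node (.I .adp (.c 33587401 (.c 40 (.c 2737260306 .nil))) .nil) (.I .adp (.c 18497 (.c 32 (.c 40 .nil))) (.l 33587401 .nil))))))) (.node (.node (.node (.node (.node (.I .tdb (.c 8 (.c 48 (.c 24 (.c 32 .nil)))) (.b 2049 (.r 40 .nil))) (.I .tdb (.c 24 (.c 2049 (.c 18497 (.c 32 .nil)))) (.r 40 .nil))) (.node (.I .tdb (.c 0 (.c 16 (.c 32 (.c 18497 .nil)))) (.b 24 (.r 40 .nil))) (.I .adp (.c 18497 (.c 32 (.c 33587401 .nil))) (.r 40 .nil)))) (.node (.node (.I .tdp (.c 18497 (.c 32 (.c 40 (.c 33587401 .nil))))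 .nil) (.I .tdb (.c 24 (.c 2049 (.c 18497 (.c 40 .nil)))) (.l 32 .nil))) (.node (.I .tdb (.c 0 (.c 16 (.c 40 (.c 18497 .nil)))) (.b 24 (.l 32 .nil))) (.I .adp (.c 18433 (.c 32 (.c 3491710045129993 .nil))) .nil)))) (.node (.node (.node (.I .adp (.c 18433 (.c 32 (.c 4737 .nil))) (.l 12865 .nil)) (.I .adp (.c 8193 (.c 48 (.c 4737 .nil))) (.l 12865 .nil))) (.node (.I .adp (.c 169943369 (.c 16 (.c 43655235 .nil))) .nil) (.I .tdb (.c 24 (.c 12801 (.c 16 (.c 32 .nil)))) (.r 18497 .nil)))) (.node (.node (.I .adp (.c 169943369 (.c 16 (.c 2737260306 .nil))) .nil) (.I .tdb (.c 8 (.c 48 (.c 16 (.c 32 .nil)))) (.l 169943369 .nil))) (.node (.I .adp (.c 18497 (.c 32 (.c 16 .nil))) (.l 169943369 .nil)) (.I .adp (.c 18497 (.c 32 (.c 169943369 .nil))) (.r 16 .nil)))))) (.node (.node (.node (.node (.I .tdp (.c 18497 (.c 32 (.c 16 (.c 169943369 .nil)))) .nil) (.I .tdb (.c 4609 (.c 40 (.c 16 (.c 32 .nil))))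 (.r 18497 .nil))) (.node (.I .tdb (.c 0 (.c 24 (.c 32 (.c 16 .nil)))) (.b 40 (.r 18497 .nil))) (.I .ass (.c 2718204041 (.c 1324065993 (.c 32 .nil))) .nil))) (.node (.node (.I .jac (.c 0 (.c 8 (.c 40 .nil))) (.r 24 (.b 2756086025 .nil))) (.I .adp (.c 1310924873 (.c 24 (.c 2756086025 .nil))) .nil)) (.node (.I .adp (.c 2105673 (.c 24 (.c 2756086025 .nil))) .nil) (.I .adp (.c 2105673 (.c 24 (.c 553912713 .nil))) .nil)))) (.node (.node (.node (.I .adp (.c 12865 (.c 24 (.c 16 .nil))) (.b 2718204169 .nil)) (.I .jac (.c 0 (.c 8 (.c 24 .nil))) (.r 40 (.b 2756086025 .nil)))) (.node (.I .adp (.c 12801 (.c 4673 (.c 2756086025 .nil))) .nil) (.I .adp (.c 2105545 (.c 40 (.c 2756086025 .nil))) .nil))) (.node (.node (.I .adp (.c 12801 (.c 4673 (.c 553912713 .nil))) .nil) (.I .adp (.c 2105545 (.c 40 (.c 553912713 .nil))) .nil)) (.node (.I .com (.c 169943369 (.c 8 .nil)) (.b 2756086025 .nil)) (.I .adp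 (.c 169943369 (.c 8 (.c 2756086025 .nil))) .nil)))))))

noncomputable def c2_254 : Tr := (.node (.node (.node (.node (.node (.node (.I .adp (.c 1310925001 (.c 8 (.c 553912713 .nil))) .nil) (.I .adp (.c 8 (.c 1337272521 (.c 2718204169 .nil))) .nil)) (.node (.I .jac (.c 2718204169 (.c 12929 (.c 24 .nil))) (.l 8 .nil)) (.I .jac (.c 2718204169 (.c 16 (.c 40 .nil))) (.b 24 (.l 8 .nil))))) (.node (.node (.I .jac (.c 2718204169 (.c 16 (.c 24 .nil))) (.b 40 (.l 8 .nil))) (.I .adp (.c 8 (.c 179513673 (.c 537002377 .nil))) .nil)) (.node (.I .adp (.c 8 (.c 21099139 (.c 2718204169 .nil))) .nil) (.I .adp (.c 12929 (.c 24 (.c 2718204169 .nil))) (.l 8 .nil))))) (.node (.node (.node (.I .com (.c 59109071234951844681 (.c 12929 .nil)) (.l 8 .nil)) (.I .adp (.c 8 (.c 179551570 (.c 2718204169 .nil))) .nil)) (.node (.I .tdp (.c 4737 (.c 40 (.c 2718204169 (.c 8 .nil)))) .nil) (.I .adp (.c 24 (.c 40 (.c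 16 .nil))) (.l 8 (.b 537002377 .nil))))) (.node (.node (.I .com (.c 12929 (.c 24 .nil)) (.l 8 (.b 537002377 .nil))) (.I .adp (.c 8 (.c 1337375954 (.c 537002377 .nil))) .nil)) (.node (.I .adp (.c 12929 (.c 24 (.c 537002377 .nil))) (.l 8 .nil)) (.I .tdp (.c 12929 (.c 24 (.c 537002377 (.c 8 .nil)))) .nil))))) (.node (.node (.node (.node (.I .adp (.c 18561 (.c 32 (.c 231045989336561353 .nil))) .nil) (.I .com (.c 427057993508083379515198226665525129 (.c 18561 .nil)) .nil)) (.node (.I .adp (.c 8321 (.c 48 (.c 231045989336561353 .nil))) .nil) (.I .com (.c 427057993508083379515198226665525257 (.c 8321 .nil)) .nil))) (.node (.node (.I .adp (.c 8321 (.c 48 (.c 13748192181200529225 .nil))) .nil) (.I .adp (.c 8321 (.c 48 (.c 35470870263625 .nil))) .nil)) (.node (.I .adp (.c 32 (.c 48 (.c 16 .nil))) (.b 231045293249046473 .nil)) (.I .com (.c 18561 (.c 32 .nil)) (.b 231045293249046473 .nil)))))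 (.node (.node (.node (.I .adp (.c 8321 (.c 48 (.c 231045293249046473 .nil))) .nil) (.I .jac (.c 13748194865974800073 (.c 16 (.c 48 .nil))) (.r 32 .nil))) (.node (.I .adp (.c 8321 (.c 48 (.c 13748194865974800073 .nil))) .nil) (.I .adp (.c 18561 (.c 32 (.c 35466557976521 .nil))) .nil))) (.node (.node (.I .adp (.c 8321 (.c 48 (.c 3561367726845001 .nil))) .nil) (.I .adp (.c 2105673 (.c 24 (.c 43655299 .nil))) .nil)) (.node (.I .adp (.c 18561 (.c 32 (.c 3561346121425033 .nil))) .nil) (.I .tdb (.c 16 (.c 48 (.c 24 (.c 32 .nil)))) (.l 1310924873 .nil))))))) (.node (.node (.node (.node (.node (.I .adp (.c 2105673 (.c 24 (.c 2756234514 .nil))) .nil) (.I .adp (.c 18561 (.c 32 (.c 24 .nil))) (.l 2105673 .nil))) (.node (.I .adp (.c 18561 (.c 32 (.c 2105673 .nil))) (.r 24 .nil)) (.I .tdp (.c 18561 (.c 32 (.c 24 (.c 2105673 .nil)))) .nil))) (.node (.node (.I .tdb (.c 513 (.c 40 (.c 24 (.c 32 .nil))))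 (.r 18561 .nil)) (.I .tdb (.c 0 (.c 8 (.c 24 (.c 32 .nil)))) (.b 40 (.r 18561 .nil)))) (.node (.I .adp (.c 2105545 (.c 40 (.c 43655299 .nil))) .nil) (.I .tdb (.c 0 (.c 40 (.c 18561 (.c 32 .nil)))) (.r 4673 .nil))))) (.node (.node (.node (.I .adp (.c 169943113 (.c 40 (.c 2756234514 .nil))) .nil) (.I .adp (.c 18561 (.c 32 (.c 40 .nil))) (.l 169943113 .nil))) (.node (.I .tdb (.c 16 (.c 48 (.c 8 (.c 32 .nil)))) (.b 4609 (.r 40 .nil))) (.I .tdb (.c 8 (.c 4609 (.c 18561 (.c 32 .nil)))) (.r 40 .nil)))) (.node (.node (.I .tdb (.c 0 (.c 24 (.c 32 (.c 18561 .nil)))) (.b 8 (.r 40 .nil))) (.I .adp (.c 18561 (.c 32 (.c 169943113 .nil))) (.r 40 .nil))) (.node (.I .com (.c 231045293249046409 (.c 18561 .nil)) (.r 40 .nil)) (.I .jac (.c 169943113 (.c 16 (.c 48 .nil))) (.r 32 (.r 40 .nil))))))) (.node (.node (.node (.node (.I .tdp (.c 18561 (.c 32 (.c 40 (.c 169943113 .nil)))) .nil) (.I .tdb (.c 8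 (.c 4609 (.c 18561 (.c 40 .nil)))) (.l 32 .nil))) (.node (.I .tdb (.c 0 (.c 24 (.c 40 (.c 18561 .nil)))) (.b 8 (.l 32 .nil))) (.I .adp (.c 2105545 (.c 40 (.c 2756234514 .nil))) .nil))) (.node (.node (.I .adp (.c 18561 (.c 32 (.c 40 .nil))) (.l 2105545 .nil)) (.I .tdb (.c 16 (.c 48 (.c 24 (.c 32 .nil)))) (.b 513 (.r 40 .nil)))) (.node (.I .tdb (.c 513 (.c 24 (.c 18561 (.c 32 .nil)))) (.r 40 .nil)) (.I .tdb (.c 0 (.c 8 (.c 32 (.c 18561 .nil)))) (.b 24 (.r 40 .nil)))))) (.node (.node (.node (.I .adp (.c 18561 (.c 32 (.c 2105545 .nil))) (.r 40 .nil)) (.I .tdp (.c 18561 (.c 32 (.c 2105545 (.c 40 .nil)))) .nil)) (.node (.I .tdb (.c 513 (.c 24 (.c 40 (.c 18561 .nil)))) (.l 32 .nil)) (.I .tdb (.c 0 (.c 8 (.c 40 (.c 18561 .nil)))) (.b 24 (.l 32 .nil))))) (.node (.node (.I .adp (.c 8321 (.c 48 (.c 3423058053193993 .nil))) .nil) (.I .adp (.c 169943113 (.c 40 (.c 553979282 .nil))) .nil)) (.node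 (.I .adp (.c 8321 (.c 48 (.c 40 .nil))) (.l 169943113 .nil)) (.I .adp (.c 8321 (.c 48 (.c 169943113 .nil))) (.r 40 .nil))))))))

noncomputable def c2_255 : Tr := (.node (.node (.node (.node (.node (.node (.I .com (.c 231045293249046537 (.c 8321 .nil)) (.r 40 .nil)) (.I .jac (.c 169943113 (.c 16 (.c 32 .nil))) (.r 48 (.r 40 .nil)))) (.node (.I .tdp (.c 8321 (.c 48 (.c 40 (.c 169943113 .nil)))) .nil) (.I .tdb (.c 8 (.c 4609 (.c 40 (.c 48 .nil)))) (.r 8321 .nil)))) (.node (.node (.I .tdb (.c 0 (.c 24 (.c 40 (.c 48 .nil)))) (.b 8 (.r 8321 .nil))) (.I .com (.c 169943369 (.c 8 .nil)) (.b 43655299 .nil))) (.node (.I .jac (.c 8 (.c 16 (.c 48 .nil))) (.r 32 (.l 1310925001 .nil))) (.I .tdb (.c 16 (.c 48 (.c 24 (.c 32 .nil)))) (.b 12801 (.r 8 .nil)))))) (.node (.node (.node (.I .adp (.c 169943369 (.c 8 (.c 2756234514 .nil))) .nil) (.I .tdb (.c 16 (.c 48 (.c 8 (.c 32 .nil)))) (.l 169943369 .nil)))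 (.node (.I .adp (.c 18561 (.c 32 (.c 8 .nil))) (.l 169943369 .nil)) (.I .jac (.c 8 (.c 16 (.c 48 .nil))) (.r 32 (.l 169943369 .nil))))) (.node (.node (.I .tdb (.c 16 (.c 48 (.c 24 (.c 32 .nil)))) (.b 0 (.b 40 (.r 8 .nil)))) (.I .tdb (.c 4609 (.c 40 (.c 18561 (.c 32 .nil)))) (.r 8 .nil))) (.node (.I .tdb (.c 0 (.c 24 (.c 32 (.c 18561 .nil)))) (.b 40 (.r 8 .nil))) (.I .adp (.c 18561 (.c 32 (.c 169943369 .nil))) (.r 8 .nil)))))) (.node (.node (.node (.node (.I .com (.c 169943369 (.c 8 .nil)) (.b 553979282 .nil)) (.I .adp (.c 169943369 (.c 8 (.c 553979282 .nil))) .nil)) (.node (.I .adp (.c 8321 (.c 48 (.c 8 .nil))) (.l 169943369 .nil)) (.I .adp (.c 8321 (.c 48 (.c 169943369 .nil))) (.r 8 .nil)))) (.node (.node (.I .tdb (.c 0 (.c 48 (.c 24 (.c 32 .nil)))) (.b 12929 (.l 8 .nil))) (.I .ass (.c 8193 (.c 18497 (.c 1337272521 .nil))) .nil)) (.node (.I .ass (.c 8193 (.c 18497 (.c 179513673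 .nil))) .nil) (.I .adp (.c 12801 (.c 24 (.c 16 .nil))) (.b 2737112329 .nil))))) (.node (.node (.node (.I .adp (.c 0 (.c 1324065993 (.c 2756086025 .nil))) .nil) (.I .jac (.c 0 (.c 18561 (.c 32 .nil))) (.r 1324065993 .nil))) (.node (.I .jac (.c 0 (.c 16 (.c 48 .nil))) (.b 32 (.r 1324065993 .nil))) (.I .jac (.c 8193 (.c 16 (.c 48 .nil))) (.r 174695753 .nil)))) (.node (.node (.I .adp (.c 0 (.c 1337272521 (.c 2737112329 .nil))) .nil) (.I .jac (.c 0 (.c 18497 (.c 32 .nil))) (.r 1337272521 .nil))) (.node (.I .jac (.c 0 (.c 8 (.c 48 .nil))) (.b 32 (.r 1337272521 .nil))) (.I .adp (.c 12929 (.c 24 (.c 2737112329 .nil))) (.l 0 .nil))))))) (.node (.node (.node (.node (.node (.I .tdb (.c 0 (.c 24 (.c 40 (.c 8 .nil)))) (.b 553979282 .nil)) (.I .ass (.c 2718204041 (.c 32 (.c 1324065993 .nil))) .nil)) (.node (.I .com (.c 1324065993 (.c 32 .nil)) (.l 2718204041 .nil)) (.I .ass (.c 8193 (.c 18561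 (.c 1324065993 .nil))) .nil))) (.node (.node (.I .ass (.c 2718204041 (.c 32 (.c 174695753 .nil))) .nil) (.I .ass (.c 33587593 (.c 32 (.c 174695753 .nil))) .nil)) (.node (.I .ass (.c 33587465 (.c 48 (.c 1324065993 .nil))) .nil) (.I .com (.c 1324065993 (.c 48 .nil)) (.l 33587465 .nil))))) (.node (.node (.node (.I .ass (.c 18433 (.c 8321 (.c 174695753 .nil))) .nil) (.I .ass (.c 33587465 (.c 48 (.c 174695753 .nil))) .nil)) (.node (.I .com (.c 174695753 (.c 48 .nil)) (.l 33587465 .nil)) (.I .adp (.c 24 (.c 40 (.c 2113 .nil))) (.b 537002377 .nil)))) (.node (.node (.I .com (.c 35718473 (.c 24 .nil)) (.b 537002377 .nil)) (.I .adp (.c 8 (.c 16 (.c 12994 .nil))) (.b 537002377 .nil))) (.node (.I .adp (.c 24 (.c 40 (.c 8 .nil))) (.r 16 (.b 537002377 .nil))) (.I .com (.c 12865 (.c 24 .nil)) (.r 16 (.b 537002377 .nil))))))) (.node (.node (.node (.node (.I .ass (.c 12865 (.c 24 (.c 16 .nil))) (.b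 537002377 .nil)) (.I .com (.c 16 (.c 24 .nil)) (.l 12865 (.b 537002377 .nil)))) (.node (.I .ass (.c 4673 (.c 40 (.c 16 .nil))) (.b 537002377 .nil)) (.I .com (.c 16 (.c 40 .nil)) (.l 4673 (.b 537002377 .nil))))) (.node (.node (.I .adp (.c 32 (.c 48 (.c 2113 .nil))) (.b 169943369 .nil)) (.I .com (.c 35718537 (.c 32 .nil)) (.b 169943369 .nil))) (.node (.I .adp (.c 24 (.c 40 (.c 2049 .nil))) (.b 545424777 .nil)) (.I .com (.c 33587529 (.c 24 .nil)) (.b 545424777 .nil))))) (.node (.node (.node (.I .adp (.c 24 (.c 40 (.c 513 .nil))) (.b 553912713 .nil)) (.I .com (.c 2105673 (.c 24 .nil)) (.b 553912713 .nil))) (.node (.I .adp (.c 32 (.c 48 (.c 513 .nil))) (.b 1337272521 .nil)) (.I .com (.c 2105737 (.c 32 .nil)) (.b 1337272521 .nil)))) (.node (.node (.I .adp (.c 32 (.c 48 (.c 513 .nil))) (.b 179513673 .nil)) (.I .com (.c 2105737 (.c 32 .nil)) (.b 179513673 .nil))) (.node (.I .jac (.c 13748192181200529289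 (.c 24 (.c 48 .nil))) (.r 16 .nil)) (.I .adp (.c 2105673 (.c 16 (.c 562466185 .nil))) .nil)))))))

noncomputable def c2_256 : Tr := (.node (.node (.node (.node (.node (.node (.I .adp (.c 12801 (.c 2113 (.c 2775125257 .nil))) .nil) (.I .adp (.c 2105481 (.c 40 (.c 562466185 .nil))) .nil)) (.node (.I .adp (.c 2113 (.c 40 (.c 24 .nil))) (.b 537002377 .nil)) (.I .adp (.c 513 (.c 12929 (.c 2775125257 .nil))) .nil))) (.node (.node (.I .jac (.c 2105609 (.c 24 (.c 48 .nil))) (.r 12929 .nil)) (.I .jac (.c 513 (.c 18625 (.c 32 .nil))) (.r 12929 .nil))) (.node (.I .jac (.c 513 (.c 24 (.c 48 .nil))) (.b 32 (.r 12929 .nil))) (.I .jac (.c 16 (.c 18625 (.c 32 .nil))) (.l 20685315 .nil))))) (.node (.node (.node (.I .jac (.c 16 (.c 24 (.c 48 .nil))) (.b 32 (.l 20685315 .nil))) (.I .jac (.c 3423058053194057 (.c 24 (.c 48 .nil))) (.r 16 .nil))) (.node (.I .tdb (.c 32 (.c 18625 (.c 0 (.c 8 .nil)))) (.b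 40 (.l 16 .nil))) (.I .jac (.c 2105609 (.c 24 (.c 48 .nil))) (.r 12930 .nil)))) (.node (.node (.I .jac (.c 42762755 (.c 24 (.c 32 .nil))) (.b 40 (.l 16 .nil))) (.I .adp (.c 16 (.c 40 (.c 24 .nil))) (.l 8 (.b 2718204169 .nil)))) (.node (.I .tdp (.c 16 (.c 40 (.c 8 (.c 24 .nil)))) (.b 2718204169 .nil)) (.I .adp (.c 8 (.c 1350544522 (.c 2718204169 .nil))) .nil))))) (.node (.node (.node (.node (.I .adp (.c 16 (.c 12993 (.c 2718204169 .nil))) (.l 8 .nil)) (.I .jac (.c 2718204169 (.c 24 (.c 40 .nil))) (.l 16 (.l 8 .nil)))) (.node (.I .com (.c 27951058418068892863957554057219361972041 (.c 16 .nil)) (.l 8 .nil)) (.I .com (.c 27951058418068892742902176168037983934409 (.c 16 .nil)) (.l 8 .nil)))) (.node (.node (.I .tdp (.c 16 (.c 12993 (.c 2718204169 (.c 8 .nil)))) .nil) (.I .tdb (.c 24 (.c 40 (.c 2718204169 (.c 8 .nil)))) (.r 16 .nil))) (.node (.I .adp (.c 16 (.c 40 (.c 24 .nil))) (.l 8 (.b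 537002377 .nil))) (.I .tdp (.c 16 (.c 40 (.c 8 (.c 24 .nil)))) (.b 537002377 .nil))))) (.node (.node (.node (.I .adp (.c 8 (.c 1350544522 (.c 537002377 .nil))) .nil) (.I .adp (.c 16 (.c 12993 (.c 537002377 .nil))) (.l 8 .nil))) (.node (.I .tdp (.c 16 (.c 12993 (.c 537002377 (.c 8 .nil)))) .nil) (.I .tdb (.c 48 (.c 8193 (.c 8 (.c 16 .nil)))) (.l 12993 .nil)))) (.node (.node (.I .tdb (.c 0 (.c 32 (.c 8 (.c 16 .nil)))) (.b 48 (.l 12993 .nil))) (.I .tdb (.c 24 (.c 40 (.c 537002377 (.c 8 .nil)))) (.r 16 .nil))) (.node (.I .adp (.c 18625 (.c 32 (.c 9024976834606793 .nil))) .nil) (.I .adp (.c 8385 (.c 48 (.c 9024976834606793 .nil))) .nil)))))) (.node (.node (.node (.node (.node (.I .adp (.c 18625 (.c 32 (.c 13748192181200529161 .nil))) .nil) (.I .com (.c 1512102306009786909181484737811290911625 (.c 18625 .nil)) .nil)) (.node (.I .jac (.c 13748192181200529161 (.c 24 (.c 48 .nil))) (.r 32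 .nil)) (.I .adp (.c 32 (.c 48 (.c 24 .nil))) (.b 35470870263561 .nil)))) (.node (.node (.I .com (.c 18625 (.c 32 .nil)) (.b 35470870263561 .nil)) (.I .adp (.c 18625 (.c 32 (.c 35470870263561 .nil))) .nil)) (.node (.I .adp (.c 8385 (.c 48 (.c 35470870263561 .nil))) .nil) (.I .com (.c 10065461098035008044835206153 (.c 8385 .nil)) .nil)))) (.node (.node (.node (.I .adp (.c 32 (.c 48 (.c 24 .nil))) (.b 9024839260612553 .nil)) (.I .com (.c 18625 (.c 32 .nil)) (.b 9024839260612553 .nil))) (.node (.I .adp (.c 8385 (.c 48 (.c 9024839260612553 .nil))) .nil) (.I .adp (.c 8385 (.c 48 (.c 13748193523587631817 .nil))) .nil))) (.node (.node (.I .com (.c 1512102601296135227280972429874805772297 (.c 8385 .nil)) .nil) (.I .adp (.c 32 (.c 48 (.c 24 .nil))) (.b 35464401931209 .nil))) (.node (.I .com (.c 18625 (.c 32 .nil)) (.b 35464401931209 .nil)) (.I .adp (.c 18625 (.c 32 (.c 35464401931209 .nil)))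 .nil))))) (.node (.node (.node (.node (.I .adp (.c 18625 (.c 32 (.c 3491710045129801 .nil))) .nil) (.I .jac (.c 3491710045129801 (.c 24 (.c 48 .nil))) (.r 32 .nil))) (.node (.I .adp (.c 2105673 (.c 16 (.c 43655363 .nil))) .nil) (.I .adp (.c 18625 (.c 32 (.c 3491688652046473 .nil))) .nil))) (.node (.node (.I .adp (.c 18625 (.c 32 (.c 2487083360649 .nil))) .nil) (.I .adp (.c 1310924873 (.c 16 (.c 2775274258 .nil))) .nil)) (.node (.I .tdb (.c 24 (.c 48 (.c 16 (.c 32 .nil)))) (.l 1310924873 .nil)) (.I .adp (.c 18625 (.c 32 (.c 16 .nil))) (.l 1310924873 .nil))))) (.node (.node (.node (.I .tdb (.c 8 (.c 12801 (.c 18625 (.c 32 .nil)))) (.r 16 .nil)) (.I .adp (.c 18625 (.c 32 (.c 1310924873 .nil))) (.r 16 .nil))) (.node (.I .com (.c 13748192181200529289 (.c 18625 .nil)) (.r 16 .nil)) (.I .jac (.c 1310924873 (.c 24 (.c 48 .nil))) (.r 32 (.r 16 .nil))))) (.node (.node (.I .adp (.c 2105673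 (.c 16 (.c 2775274258 .nil))) .nil) (.I .adp (.c 18625 (.c 32 (.c 16 .nil))) (.l 2105673 .nil))) (.node (.I .tdb (.c 24 (.c 48 (.c 8 (.c 32 .nil)))) (.b 0 (.b 40 (.r 16 .nil)))) (.I .adp (.c 18625 (.c 32 (.c 2105673 .nil))) (.r 16 .nil))))))))

noncomputable def c2_257 : Tr := (.node (.node (.node (.node (.node (.node (.I .adp (.c 8385 (.c 48 (.c 2487083360649 .nil))) .nil) (.I .adp (.c 1310924873 (.c 16 (.c 562533266 .nil))) .nil)) (.node (.I .adp (.c 8385 (.c 48 (.c 16 .nil))) (.l 1310924873 .nil)) (.I .jac (.c 1310924873 (.c 24 (.c 32 .nil))) (.r 48 (.r 16 .nil))))) (.node (.node (.I .adp (.c 8385 (.c 48 (.c 1310924873 .nil))) (.r 16 .nil)) (.I .com (.c 13748192181200529417 (.c 8385 .nil)) (.r 16 .nil))) (.node (.I .adp (.c 2105481 (.c 40 (.c 43655363 .nil))) .nil) (.I .adp (.c 18625 (.c 32 (.c 3423058053193929 .nil))) .nil)))) (.node (.node (.node (.I .jac (.c 3423058053193929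 (.c 24 (.c 48 .nil))) (.r 32 .nil)) (.I .adp (.c 33587273 (.c 40 (.c 2775274258 .nil))) .nil)) (.node (.I .adp (.c 18625 (.c 32 (.c 40 .nil))) (.l 33587273 .nil)) (.I .tdb (.c 24 (.c 48 (.c 8 (.c 32 .nil)))) (.b 2049 (.r 40 .nil))))) (.node (.node (.I .tdb (.c 8 (.c 2049 (.c 18625 (.c 32 .nil)))) (.r 40 .nil)) (.I .tdb (.c 0 (.c 16 (.c 32 (.c 18625 .nil)))) (.b 8 (.r 40 .nil)))) (.node (.I .adp (.c 18625 (.c 32 (.c 33587273 .nil))) (.r 40 .nil)) (.I .com (.c 9024839260612489 (.c 18625 .nil)) (.r 40 .nil)))))) (.node (.node (.node (.node (.I .jac (.c 33587273 (.c 24 (.c 48 .nil))) (.r 32 (.r 40 .nil))) (.I .tdp (.c 18625 (.c 32 (.c 40 (.c 33587273 .nil)))) .nil)) (.node (.I .tdb (.c 8 (.c 2049 (.c 18625 (.c 40 .nil)))) (.l 32 .nil)) (.I .tdb (.c 0 (.c 16 (.c 40 (.c 18625 .nil)))) (.b 8 (.l 32 .nil))))) (.node (.node (.I .adp (.c 2105481 (.c 40 (.c 2775274258 .nil))) .nil) (.I .adp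 (.c 18625 (.c 32 (.c 40 .nil))) (.l 2105481 .nil))) (.node (.I .tdb (.c 24 (.c 48 (.c 16 (.c 32 .nil)))) (.b 513 (.r 40 .nil))) (.I .tdb (.c 513 (.c 16 (.c 18625 (.c 32 .nil)))) (.r 40 .nil))))) (.node (.node (.node (.I .tdb (.c 0 (.c 8 (.c 32 (.c 18625 .nil)))) (.b 16 (.r 40 .nil))) (.I .adp (.c 18625 (.c 32 (.c 2105481 .nil))) (.r 40 .nil))) (.node (.I .com (.c 35464401931145 (.c 18625 .nil)) (.r 40 .nil)) (.I .jac (.c 2105481 (.c 24 (.c 48 .nil))) (.r 32 (.r 40 .nil))))) (.node (.node (.I .tdp (.c 18625 (.c 32 (.c 2105481 (.c 40 .nil)))) .nil) (.I .tdb (.c 513 (.c 16 (.c 40 (.c 18625 .nil)))) (.l 32 .nil))) (.node (.I .tdb (.c 0 (.c 8 (.c 40 (.c 18625 .nil)))) (.b 16 (.l 32 .nil))) (.I .adp (.c 8385 (.c 48 (.c 3423058053193929 .nil))) .nil)))))) (.node (.node (.node (.node (.node (.I .adp (.c 33587273 (.c 40 (.c 562533266 .nil))) .nil) (.I .adp (.c 8385 (.c 48 (.c 40 .nil))) (.l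 33587273 .nil))) (.node (.I .adp (.c 8385 (.c 48 (.c 33587273 .nil))) (.r 40 .nil)) (.I .com (.c 9024839260612617 (.c 8385 .nil)) (.r 40 .nil)))) (.node (.node (.I .jac (.c 33587273 (.c 24 (.c 32 .nil))) (.r 48 (.r 40 .nil))) (.I .tdp (.c 8385 (.c 48 (.c 40 (.c 33587273 .nil)))) .nil)) (.node (.I .tdb (.c 8 (.c 2049 (.c 40 (.c 48 .nil)))) (.r 8385 .nil)) (.I .tdb (.c 0 (.c 16 (.c 40 (.c 48 .nil)))) (.b 8 (.r 8385 .nil)))))) (.node (.node (.node (.I .com (.c 1310924937 (.c 8 .nil)) (.b 43655363 .nil)) (.I .com (.c 33587529 (.c 8 .nil)) (.b 43655363 .nil))) (.node (.I .adp (.c 1310924937 (.c 8 (.c 2775274258 .nil))) .nil) (.I .tdb (.c 24 (.c 48 (.c 8 (.c 32 .nil)))) (.l 1310924937 .nil)))) (.node (.node (.I .adp (.c 18625 (.c 32 (.c 8 .nil))) (.l 1310924937 .nil)) (.I .tdb (.c 24 (.c 48 (.c 16 (.c 32 .nil)))) (.b 12801 (.r 8 .nil)))) (.node (.I .tdb (.c 16 (.c 12801 (.c 18625 (.c 32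 .nil)))) (.r 8 .nil)) (.I .adp (.c 18625 (.c 32 (.c 1310924937 .nil))) (.r 8 .nil)))))) (.node (.node (.node (.node (.I .com (.c 13748193523587632009 (.c 18625 .nil)) (.r 8 .nil)) (.I .jac (.c 1310924937 (.c 24 (.c 48 .nil))) (.r 32 (.r 8 .nil)))) (.node (.I .adp (.c 33587529 (.c 8 (.c 2775274258 .nil))) .nil) (.I .tdb (.c 24 (.c 48 (.c 8 (.c 32 .nil)))) (.l 33587529 .nil)))) (.node (.node (.I .adp (.c 18625 (.c 32 (.c 8 .nil))) (.l 33587529 .nil)) (.I .jac (.c 8 (.c 24 (.c 48 .nil))) (.r 32 (.l 33587529 .nil)))) (.node (.I .tdb (.c 24 (.c 48 (.c 16 (.c 32 .nil)))) (.b 0 (.b 40 (.r 8 .nil)))) (.I .tdb (.c 2049 (.c 40 (.c 18625 (.c 32 .nil)))) (.r 8 .nil))))) (.node (.node (.node (.I .tdb (.c 0 (.c 16 (.c 32 (.c 18625 .nil)))) (.b 40 (.r 8 .nil))) (.I .tdb (.c 24 (.c 48 (.c 0 (.c 32 .nil)))) (.b 16 (.b 40 (.r 8 .nil))))) (.node (.I .adp (.c 18625 (.c 32 (.c 33587529 .nil))) (.r 8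 .nil)) (.I .com (.c 1310924937 (.c 8 .nil)) (.b 562533266 .nil)))) (.node (.node (.I .com (.c 33587529 (.c 8 .nil)) (.b 562533266 .nil)) (.I .adp (.c 1310924937 (.c 8 (.c 562533266 .nil))) .nil)) (.node (.I .adp (.c 8385 (.c 48 (.c 8 .nil))) (.l 1310924937 .nil)) (.I .jac (.c 1310924937 (.c 24 (.c 32 .nil))) (.r 48 (.r 8 .nil)))))))))

noncomputable def c2_258 : Tr := (.node (.node (.node (.node (.node (.node (.I .adp (.c 8385 (.c 48 (.c 1310924937 .nil))) (.r 8 .nil)) (.I .com (.c 13748193523587632137 (.c 8385 .nil)) (.r 8 .nil))) (.node (.I .adp (.c 33587529 (.c 8 (.c 562533266 .nil))) .nil) (.I .adp (.c 8385 (.c 48 (.c 8 .nil))) (.l 33587529 .nil)))) (.node (.node (.I .adp (.c 8385 (.c 48 (.c 33587529 .nil))) (.r 8 .nil)) (.I .adp (.c 0 (.c 12929 (.c 8 .nil))) (.b 2775125257 .nil))) (.node (.I .jac (.c 8 (.c 16 (.c 40 .nil))) (.l 0 (.b 2775125257 .nil))) (.I .adp (.c 0 (.c 1324065929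 (.c 2775125257 .nil))) .nil)))) (.node (.node (.node (.I .jac (.c 8193 (.c 24 (.c 48 .nil))) (.r 1324065929 .nil)) (.I .jac (.c 0 (.c 18625 (.c 32 .nil))) (.r 1324065929 .nil))) (.node (.I .jac (.c 0 (.c 24 (.c 48 .nil))) (.b 32 (.r 1324065929 .nil))) (.I .adp (.c 0 (.c 12929 (.c 24 .nil))) (.b 2737112329 .nil)))) (.node (.node (.I .tdb (.c 8 (.c 40 (.c 2775125257 (.c 0 .nil)))) (.l 16 .nil)) (.I .adp (.c 16 (.c 12993 (.c 2737112329 .nil))) (.l 0 .nil))) (.node (.I .jac (.c 2737112329 (.c 24 (.c 40 .nil))) (.l 16 (.l 0 .nil))) (.I .jac (.c 8652803 (.c 8 (.c 48 .nil))) (.l 12993 .nil)))))) (.node (.node (.node (.node (.I .tdb (.c 32 (.c 18497 (.c 0 (.c 16 .nil)))) (.l 12993 .nil)) (.I .tdb (.c 0 (.c 40 (.c 8 (.c 16 .nil)))) (.b 562533266 .nil))) (.node (.I .tdb (.c 0 (.c 16 (.c 40 (.c 8 .nil)))) (.b 562533266 .nil)) (.I .ass (.c 169943433 (.c 32 (.c 1324065929 .nil))) .nil))) (.node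 (.node (.I .com (.c 1324065929 (.c 32 .nil)) (.l 169943433 .nil)) (.I .ass (.c 8193 (.c 18625 (.c 1324065929 .nil))) .nil)) (.node (.I .com (.c 1324065929 (.c 18625 .nil)) (.l 8193 .nil)) (.I .ass (.c 169943305 (.c 48 (.c 1324065929 .nil))) .nil)))) (.node (.node (.node (.I .com (.c 1324065929 (.c 48 .nil)) (.l 169943305 .nil)) (.I .ass (.c 18433 (.c 8385 (.c 35718473 .nil))) .nil)) (.node (.I .ass (.c 169943305 (.c 48 (.c 35718473 .nil))) .nil) (.I .com (.c 35718473 (.c 48 .nil)) (.l 169943305 .nil)))) (.node (.node (.I .adp (.c 8 (.c 24 (.c 12929 .nil))) (.b 2718204169 .nil)) (.I .adp (.c 8 (.c 24 (.c 12929 .nil))) (.b 537002377 .nil))) (.node (.I .adp (.c 16 (.c 40 (.c 4673 .nil))) (.b 2718204169 .nil)) (.I .adp (.c 8 (.c 24 (.c 12930 .nil))) (.b 2718204169 .nil))))))) (.node (.node (.node (.node (.node (.I .adp (.c 16 (.c 40 (.c 8 .nil))) (.r 24 (.b 2718204169 .nil))) (.I .com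 (.c 12865 (.c 16 .nil)) (.r 24 (.b 2718204169 .nil)))) (.node (.I .ass (.c 2113 (.c 40 (.c 24 .nil))) (.b 2718204169 .nil)) (.I .com (.c 24 (.c 40 .nil)) (.l 2113 (.b 2718204169 .nil))))) (.node (.node (.I .adp (.c 8 (.c 24 (.c 12930 .nil))) (.b 537002377 .nil)) (.I .adp (.c 16 (.c 40 (.c 8 .nil))) (.r 24 (.b 537002377 .nil)))) (.node (.I .com (.c 12865 (.c 16 .nil)) (.r 24 (.b 537002377 .nil))) (.I .adp (.c 32 (.c 48 (.c 12929 .nil))) (.b 2105545 .nil))))) (.node (.node (.node (.I .adp (.c 16 (.c 40 (.c 4609 .nil))) (.b 545424777 .nil)) (.I .adp (.c 32 (.c 48 (.c 4609 .nil))) (.b 35718473 .nil))) (.node (.I .com (.c 169943433 (.c 32 .nil)) (.b 35718473 .nil)) (.I .adp (.c 16 (.c 40 (.c 513 .nil))) (.b 562466185 .nil)))) (.node (.node (.I .com (.c 2105673 (.c 16 .nil)) (.b 562466185 .nil)) (.I .jac (.c 513 (.c 16 (.c 40 .nil))) (.b 2794528993 .nil))) (.node (.I .adp (.c 12801 (.c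 8 (.c 24 .nil))) (.b 553912713 .nil)) (.I .com (.c 1712113961689550905300220118995849 (.c 12929 .nil)) .nil))))) (.node (.node (.node (.node (.I .jac (.c 8520195 (.c 16 (.c 48 .nil))) (.l 12993 .nil)) (.I .jac (.c 42762755 (.c 16 (.c 32 .nil))) (.l 12993 .nil))) (.node (.I .com (.c 1712113961689565885627358955910921 (.c 12993 .nil)) .nil) (.I .adp (.c 16 (.c 24 (.c 12865 .nil))) (.b 2718204169 .nil)))) (.node (.node (.I .adp (.c 16 (.c 24 (.c 12865 .nil))) (.b 537002377 .nil)) (.I .adp (.c 16 (.c 24 (.c 12866 .nil))) (.b 537002377 .nil))) (.node (.I .adp (.c 8 (.c 40 (.c 24 .nil))) (.l 16 (.b 537002377 .nil))) (.I .ass (.c 16 (.c 8 (.c 12993 .nil))) (.b 537002377 .nil))))) (.node (.node (.node (.I .ass (.c 8 (.c 16 (.c 12993 .nil))) (.b 537002377 .nil)) (.I .com (.c 16 (.c 8 .nil)) (.r 12993 (.b 537002377 .nil)))) (.node (.I .adp (.c 8 (.c 40 (.c 16 .nil))) (.r 24 (.b 537002377 .nil)))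 (.I .ass (.c 8 (.c 12929 (.c 24 .nil))) (.b 537002377 .nil)))) (.node (.node (.I .tdp (.c 8 (.c 40 (.c 16 (.c 24 .nil)))) (.b 537002377 .nil)) (.I .com (.c 8 (.c 21099139 .nil)) (.b 537002377 .nil))) (.node (.I .adp (.c 32 (.c 48 (.c 4737 .nil))) (.b 2105673 .nil)) (.I .com (.c 179513737 (.c 32 .nil)) (.b 2105673 .nil))))))))

noncomputable def c2_259 : Tr := (.node (.node (.node (.node (.node (.node (.I .adp (.c 16 (.c 24 (.c 18690 .nil))) (.b 2105673 .nil)) (.I .adp (.c 32 (.c 48 (.c 16 .nil))) (.r 24 (.b 2105673 .nil)))) (.node (.I .com (.c 18561 (.c 32 .nil)) (.r 24 (.b 2105673 .nil))) (.I .ass (.c 18561 (.c 32 (.c 24 .nil))) (.b 2105673 .nil)))) (.node (.node (.I .com (.c 24 (.c 32 .nil)) (.l 18561 (.b 2105673 .nil))) (.I .ass (.c 8321 (.c 48 (.c 24 .nil))) (.b 2105673 .nil))) (.node (.I .com (.c 24 (.c 48 .nil)) (.l 8321 (.b 2105673 .nil))) (.I .adp (.c 0 (.c 24 (.c 12865 .nil)))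 (.b 2756086025 .nil))))) (.node (.node (.node (.I .adp (.c 8 (.c 40 (.c 4609 .nil))) (.b 2756086025 .nil)) (.I .adp (.c 8 (.c 40 (.c 4609 .nil))) (.b 43655299 .nil))) (.node (.I .adp (.c 8 (.c 40 (.c 4609 .nil))) (.b 553979282 .nil)) (.I .adp (.c 8 (.c 40 (.c 2049 .nil))) (.b 43655363 .nil)))) (.node (.node (.I .adp (.c 8 (.c 40 (.c 2049 .nil))) (.b 562533266 .nil)) (.I .adp (.c 0 (.c 40 (.c 4737 .nil))) (.b 2737112329 .nil))) (.node (.I .adp (.c 0 (.c 40 (.c 4673 .nil))) (.b 2756086025 .nil)) (.I .adp (.c 8 (.c 16 (.c 12801 .nil))) (.b 43655363 .nil)))))) (.node (.node (.node (.node (.I .adp (.c 8 (.c 16 (.c 12801 .nil))) (.b 562533266 .nil)) (.I .adp (.c 4673 (.c 16 (.c 40 .nil))) (.b 537002377 .nil))) (.node (.I .adp (.c 8 (.c 4737 (.c 40 .nil))) (.b 537002377 .nil)) (.I .adp (.c 8 (.c 4738 (.c 40 .nil))) (.b 537002377 .nil)))) (.node (.node (.I .adp (.c 16 (.c 24 (.c 40 .nil)))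 (.l 8 (.b 537002377 .nil))) (.I .tdp (.c 16 (.c 24 (.c 8 (.c 40 .nil)))) (.b 537002377 .nil))) (.node (.I .com (.c 20891715 (.c 24 .nil)) (.b 537002377 .nil)) (.I .jac (.c 231045293249046281 (.c 40 (.c 48 .nil))) (.l 32 .nil))))) (.node (.node (.node (.I .com (.c 1459010655789627520195474563615302272114145520705646669319441008507306953 (.c 32 .nil)) .nil) (.I .com (.c 1459010655789627520195474563615301834809395174156062875678246881712513033 (.c 32 .nil)) .nil)) (.node (.I .jac (.c 35466557976329 (.c 40 (.c 48 .nil))) (.l 32 .nil)) (.I .com (.c 810113986391099133780560079561415044142618929890207024073 (.c 32 .nil)) .nil))) (.node (.node (.I .com (.c 810113986391099133780560069256888833576014443444608016393 (.c 32 .nil)) .nil) (.I .adp (.c 32 (.c 48 (.c 40 .nil))) (.b 9024839260612425 .nil))) (.node (.I .jac (.c 9024839260612425 (.c 40 (.c 48 .nil))) (.l 32 .nil)) (.I .jac (.c 4609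 (.c 8 (.c 16 .nil))) (.b 2794529121 .nil))))))) (.node (.node (.node (.node (.node (.I .adp (.c 32 (.c 48 (.c 40 .nil))) (.b 231045467270826697 .nil)) (.I .adp (.c 32 (.c 18753 (.c 231045467270826697 .nil))) .nil)) (.node (.I .jac (.c 231045467270826697 (.c 40 (.c 48 .nil))) (.l 32 .nil)) (.I .com (.c 1459015051463138101760139769329674155041857492182469042720735377419731913 (.c 32 .nil)) .nil))) (.node (.node (.I .com (.c 1459015051463138101760139769329673717736448395317492620119230134858375177 (.c 32 .nil)) .nil) (.I .adp (.c 32 (.c 48 (.c 40 .nil))) (.b 35464401931081 .nil))) (.node (.I .adp (.c 32 (.c 48 (.c 40 .nil))) (.b 62889413446729 .nil)) (.I .adp (.c 32 (.c 18753 (.c 62889413446729 .nil))) .nil)))) (.node (.node (.node (.I .jac (.c 62889413446729 (.c 40 (.c 48 .nil))) (.l 32 .nil)) (.I .adp (.c 32 (.c 48 (.c 40 .nil))) (.b 62886542409865 .nil))) (.node (.I .adp (.c 32 (.c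 18753 (.c 62886542409865 .nil))) .nil) (.I .jac (.c 2487083360521 (.c 40 (.c 48 .nil))) (.l 32 .nil)))) (.node (.node (.I .com (.c 19589859837137981227538366239386346117563573617270793 (.c 32 .nil)) .nil) (.I .tdb (.c 40 (.c 48 (.c 8 (.c 32 .nil)))) (.b 4609 (.r 16 .nil)))) (.node (.I .adp (.c 32 (.c 48 (.c 40 .nil))) (.b 35466574820690 .nil)) (.I .adp (.c 2105545 (.c 16 (.c 2813400330 .nil))) .nil))))) (.node (.node (.node (.node (.I .tdb (.c 40 (.c 48 (.c 16 (.c 32 .nil)))) (.l 2105545 .nil)) (.I .adp (.c 32 (.c 18753 (.c 16 .nil))) (.l 2105545 .nil))) (.node (.I .jac (.c 16 (.c 40 (.c 48 .nil))) (.l 32 (.l 2105545 .nil))) (.I .tdb (.c 513 (.c 24 (.c 18753 (.c 32 .nil)))) (.r 16 .nil)))) (.node (.node (.I .tdb (.c 0 (.c 8 (.c 32 (.c 18753 .nil)))) (.b 24 (.r 16 .nil))) (.I .adp (.c 32 (.c 18753 (.c 2105545 .nil))) (.r 16 .nil))) (.node (.I .jac (.c 2105545 (.c 40 (.c 48 .nil)))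 (.l 32 (.r 16 .nil))) (.I .com (.c 10063013877651720715266098121 (.c 32 .nil)) (.r 16 .nil))))) (.node (.node (.node (.I .com (.c 10063013877615402959898107913 (.c 32 .nil)) (.r 16 .nil)) (.I .adp (.c 32 (.c 18753 (.c 59555558875337 .nil))) .nil)) (.node (.I .com (.c 2775125321 (.c 32 .nil)) (.l 33587273 .nil)) (.I .tdb (.c 40 (.c 48 (.c 8 (.c 32 .nil)))) (.b 2049 (.r 24 .nil))))) (.node (.node (.I .adp (.c 32 (.c 48 (.c 40 .nil))) (.b 35464418774930 .nil)) (.I .adp (.c 2105481 (.c 24 (.c 2813400330 .nil))) .nil)) (.node (.I .tdb (.c 40 (.c 48 (.c 24 (.c 32 .nil)))) (.l 2105481 .nil)) (.I .adp (.c 32 (.c 18753 (.c 24 .nil))) (.l 2105481 .nil))))))))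

noncomputable def c2_260 : Tr := (.node (.node (.node (.node (.node (.node (.I .jac (.c 24 (.c 40 (.c 48 .nil))) (.l 32 (.l 2105481 .nil))) (.I .tdb (.c 40 (.c 48 (.c 16 (.c 32 .nil)))) (.b 513 (.r 24 .nil)))) (.node (.I .tdb (.c 513 (.c 16 (.c 18753 (.c 32 .nil)))) (.r 24 .nil)) (.I .tdb (.c 0 (.c 8 (.c 32 (.c 18753 .nil)))) (.b 16 (.r 24 .nil))))) (.node (.node (.I .adp (.c 32 (.c 18753 (.c 2105481 .nil))) (.r 24 .nil)) (.I .jac (.c 2105481 (.c 40 (.c 48 .nil))) (.l 32 (.r 24 .nil)))) (.node (.I .com (.c 10061790434743040737723204553 (.c 32 .nil)) (.r 24 .nil)) (.I .com (.c 10061790434706725190145613833 (.c 32 .nil)) (.r 24 .nil))))) (.node (.node (.node (.I .tdb (.c 40 (.c 48 (.c 8 (.c 32 .nil)))) (.l 169943177 .nil)) (.I .tdb (.c 16 (.c 4609 (.c 18753 (.c 32 .nil)))) (.r 8 .nil))) (.node (.I .tdb (.c 0 (.c 24 (.c 32 (.c 18753 .nil)))) (.b 16 (.r 8 .nil))) (.I .tdb (.c 40 (.c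 48 (.c 8 (.c 32 .nil)))) (.l 33587401 .nil)))) (.node (.node (.I .tdb (.c 24 (.c 2049 (.c 18753 (.c 32 .nil)))) (.r 8 .nil)) (.I .tdb (.c 0 (.c 16 (.c 32 (.c 18753 .nil)))) (.b 24 (.r 8 .nil)))) (.node (.I .adp (.c 0 (.c 4737 (.c 40 .nil))) (.b 2737112329 .nil)) (.I .ass (.c 8193 (.c 18753 (.c 174695561 .nil))) .nil))))) (.node (.node (.node (.node (.I .com (.c 174695561 (.c 18753 .nil)) (.l 8193 .nil)) (.I .ass (.c 1310925193 (.c 32 (.c 35718345 .nil))) .nil)) (.node (.I .com (.c 35718345 (.c 32 .nil)) (.l 1310925193 .nil)) (.I .ass (.c 8193 (.c 18753 (.c 35718345 .nil))) .nil))) (.node (.node (.I .com (.c 35718345 (.c 18753 .nil)) (.l 8193 .nil)) (.I .jac (.c 513 (.c 16 (.c 24 .nil))) (.b 2794529121 .nil))) (.node (.I .tdb (.c 0 (.c 8 (.c 16 (.c 24 .nil)))) (.b 2794529121 .nil)) (.I .adp (.c 16 (.c 24 (.c 513 .nil))) (.b 2794529121 .nil))))) (.node (.node (.node (.I .com (.c 2105545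 (.c 16 .nil)) (.b 2794529121 .nil)) (.I .tdb (.c 0 (.c 8 (.c 32 (.c 48 .nil)))) (.b 179589473 .nil))) (.node (.I .adp (.c 32 (.c 48 (.c 513 .nil))) (.b 179589473 .nil)) (.I .com (.c 2105737 (.c 32 .nil)) (.b 179589473 .nil)))) (.node (.node (.I .jac (.c 2728451 (.c 32 (.c 48 .nil))) (.b 12929 .nil)) (.I .adp (.c 0 (.c 4673 (.c 40 .nil))) (.b 2756086025 .nil))) (.node (.I .com (.c 580749782704585 (.c 24 .nil)) (.b 12929 .nil)) (.I .adp (.c 32 (.c 48 (.c 169943113 .nil))) (.b 12929 .nil))))))) (.node (.node (.node (.node (.node (.I .com (.c 231045293249046537 (.c 32 .nil)) (.b 12929 .nil)) (.I .adp (.c 0 (.c 2113 (.c 40 .nil))) (.b 2775125257 .nil))) (.node (.I .adp (.c 32 (.c 48 (.c 33587273 .nil))) (.b 12993 .nil)) (.I .com (.c 9024839260612617 (.c 32 .nil)) (.b 12993 .nil)))) (.node (.node (.I .jac (.c 33587401 (.c 8 (.c 48 .nil))) (.b 13057 .nil)) (.I .jac (.c 4609 (.c 8 (.c 48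 .nil))) (.b 16 (.b 13057 .nil)))) (.node (.I .jac (.c 2049 (.c 18497 (.c 24 .nil))) (.b 13057 .nil)) (.I .jac (.c 2049 (.c 8 (.c 48 .nil))) (.b 24 (.b 13057 .nil)))))) (.node (.node (.node (.I .jac (.c 0 (.c 2737112265 (.c 16 .nil))) (.b 13057 .nil)) (.I .jac (.c 0 (.c 18497 (.c 24 .nil))) (.b 16 (.b 13057 .nil)))) (.node (.I .jac (.c 0 (.c 8 (.c 48 .nil))) (.b 24 (.b 16 (.b 13057 .nil)))) (.I .jac (.c 18433 (.c 8 (.c 24 .nil))) (.b 16 (.b 13057 .nil))))) (.node (.node (.I .jac (.c 0 (.c 174695817 (.c 16 .nil))) (.b 13057 .nil)) (.I .jac (.c 0 (.c 4673 (.c 48 .nil))) (.b 16 (.b 13057 .nil)))) (.node (.I .jac (.c 0 (.c 8 (.c 24 .nil))) (.b 48 (.b 16 (.b 13057 .nil)))) (.I .jac (.c 169943433 (.c 8 (.c 16 .nil))) (.b 13057 .nil)))))) (.node (.node (.node (.node (.I .jac (.c 18433 (.c 8 (.c 16 .nil))) (.b 24 (.b 13057 .nil))) (.I .jac (.c 4609 (.c 8 (.c 16 .nil))) (.b 48 (.b 13057 .nil))))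 (.node (.I .jac (.c 18433 (.c 2113 (.c 24 .nil))) (.b 13057 .nil)) (.I .jac (.c 0 (.c 35718345 (.c 48 .nil))) (.b 13057 .nil)))) (.node (.node (.I .jac (.c 0 (.c 2113 (.c 24 .nil))) (.b 48 (.b 13057 .nil))) (.I .jac (.c 0 (.c 8 (.c 16 .nil))) (.b 24 (.b 48 (.b 13057 .nil))))) (.node (.I .jac (.c 231046163358603977 (.c 32 (.c 40 .nil))) (.r 16 .nil)) (.I .jac (.c 59109062884628932425 (.c 32 (.c 40 .nil))) (.r 16 .nil))))) (.node (.node (.node (.I .jac (.c 35473026505545 (.c 32 (.c 40 .nil))) (.r 16 .nil)) (.I .tdb (.c 4673 (.c 48 (.c 0 (.c 16 .nil)))) (.b 13057 .nil))) (.node (.I .tdb (.c 8 (.c 24 (.c 0 (.c 16 .nil)))) (.b 48 (.b 13057 .nil))) (.I .jac (.c 18433 (.c 8 (.c 24 .nil))) (.r 16 (.b 13057 .nil))))) (.node (.node (.I .jac (.c 59109068451510808265 (.c 32 (.c 40 .nil))) (.r 16 .nil)) (.I .adp (.c 2049 (.c 174695817 (.c 13057 .nil))) .nil)) (.node (.I .jac (.c 2049 (.c 32 (.c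 40 .nil))) (.r 174695817 .nil)) (.I .adp (.c 15038454533712969 (.c 16 (.c 13057 .nil))) .nil)))))))

noncomputable def c2_261 : Tr := (.node (.node (.node (.node (.node (.node (.I .jac (.c 16 (.c 32 (.c 40 .nil))) (.l 15038454533712969 .nil)) (.I .jac (.c 15038454533712969 (.c 32 (.c 40 .nil))) (.r 16 .nil))) (.node (.I .adp (.c 2049 (.c 43356739 (.c 13057 .nil))) .nil) (.I .jac (.c 2049 (.c 32 (.c 40 .nil))) (.r 43356739 .nil)))) (.node (.node (.I .adp (.c 9025011228269257 (.c 24 (.c 13057 .nil))) .nil) (.I .adp (.c 59109062884628932361 (.c 24 (.c 13057 .nil))) .nil)) (.node (.I .jac (.c 35473026505481 (.c 32 (.c 40 .nil))) (.r 24 .nil)) (.I .adp (.c 4609 (.c 2737112201 (.c 13057 .nil))) .nil)))) (.node (.node (.node (.I .jac (.c 4609 (.c 32 (.c 40 .nil))) (.r 2737112201 .nil)) (.I .adp (.c 59109065668069837513 (.c 24 (.c 13057 .nil))) .nil)) (.node (.I .adp (.c 35464401931273 (.c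 24 (.c 13057 .nil))) .nil) (.I .jac (.c 24 (.c 32 (.c 40 .nil))) (.l 14832803796618313 .nil)))) (.node (.node (.I .jac (.c 0 (.c 8 (.c 48 .nil))) (.r 4737 (.b 13057 .nil))) (.I .adp (.c 2718203977 (.c 4737 (.c 13057 .nil))) .nil)) (.node (.I .jac (.c 2718203977 (.c 32 (.c 40 .nil))) (.r 4737 .nil)) (.I .adp (.c 2105737 (.c 4737 (.c 13057 .nil))) .nil))))) (.node (.node (.node (.node (.I .com (.c 2803715 (.c 18497 .nil)) (.b 13057 .nil)) (.I .com (.c 2487083360713 (.c 24 .nil)) (.b 13057 .nil))) (.node (.I .adp (.c 15038410136445065 (.c 16 (.c 13057 .nil))) .nil) (.I .jac (.c 16 (.c 32 (.c 40 .nil))) (.l 15038410136445065 .nil)))) (.node (.node (.I .jac (.c 15038410136445065 (.c 32 (.c 40 .nil))) (.r 16 .nil)) (.I .adp (.c 2487083360713 (.c 24 (.c 13057 .nil))) .nil)) (.node (.I .tdb (.c 8 (.c 18433 (.c 16 (.c 32 .nil)))) (.b 40 (.l 24 .nil))) (.I .tdb (.c 0 (.c 48 (.c 16 (.c 32 .nil))))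 (.b 8 (.b 40 (.l 24 .nil))))))) (.node (.node (.node (.I .tdb (.c 8 (.c 18433 (.c 16 (.c 40 .nil)))) (.b 32 (.l 24 .nil))) (.I .tdb (.c 32 (.c 40 (.c 16 (.c 24 .nil)))) (.b 2718203977 .nil))) (.node (.I .tdb (.c 513 (.c 48 (.c 16 (.c 32 .nil)))) (.b 40 (.l 24 .nil))) (.I .tdb (.c 0 (.c 8 (.c 16 (.c 32 .nil)))) (.b 48 (.b 40 (.l 24 .nil)))))) (.node (.node (.I .tdb (.c 513 (.c 48 (.c 16 (.c 40 .nil)))) (.b 32 (.l 24 .nil))) (.I .tdb (.c 0 (.c 8 (.c 16 (.c 40 .nil)))) (.b 48 (.b 32 (.l 24 .nil))))) (.node (.I .tdb (.c 32 (.c 40 (.c 2105737 (.c 16 .nil)))) (.l 24 .nil)) (.I .tdb (.c 32 (.c 40 (.c 16 (.c 24 .nil)))) (.b 2105737 .nil))))))) (.node (.node (.node (.node (.node (.I .tdb (.c 513 (.c 48 (.c 16 (.c 24 .nil)))) (.b 13057 .nil)) (.I .tdb (.c 0 (.c 8 (.c 16 (.c 24 .nil)))) (.b 48 (.b 13057 .nil)))) (.node (.I .tdb (.c 0 (.c 24 (.c 13057 (.c 18497 .nil)))) (.l 16 .nil)) (.I .tdb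 (.c 32 (.c 40 (.c 18497 (.c 0 .nil)))) (.b 24 (.l 16 .nil))))) (.node (.node (.I .tdb (.c 32 (.c 40 (.c 18497 (.c 24 .nil)))) (.b 0 (.l 16 .nil))) (.I .tdb (.c 0 (.c 16 (.c 13057 (.c 18497 .nil)))) (.l 24 .nil))) (.node (.I .tdb (.c 32 (.c 40 (.c 18497 (.c 0 .nil)))) (.b 16 (.l 24 .nil))) (.I .tdb (.c 32 (.c 40 (.c 18497 (.c 16 .nil)))) (.b 0 (.l 24 .nil)))))) (.node (.node (.node (.I .adp (.c 18433 (.c 174695561 (.c 13057 .nil))) .nil) (.I .adp (.c 231045467270826697 (.c 48 (.c 13057 .nil))) .nil)) (.node (.I .adp (.c 35464401931081 (.c 48 (.c 13057 .nil))) .nil) (.I .adp (.c 2718204041 (.c 4673 (.c 13057 .nil))) .nil))) (.node (.node (.I .jac (.c 2718204041 (.c 32 (.c 40 .nil))) (.r 4673 .nil)) (.I .adp (.c 33587593 (.c 4673 (.c 13057 .nil))) .nil)) (.node (.I .adp (.c 169943113 (.c 18561 (.c 13057 .nil))) .nil) (.I .jac (.c 169943113 (.c 32 (.c 40 .nil))) (.r 18561 .nil))))))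 (.node (.node (.node (.node (.I .com (.c 2487083360521 (.c 48 .nil)) (.b 13057 .nil)) (.I .tdb (.c 8 (.c 24 (.c 13057 (.c 18433 .nil)))) (.l 16 .nil))) (.node (.I .tdb (.c 32 (.c 40 (.c 18433 (.c 8 .nil)))) (.b 24 (.l 16 .nil))) (.I .tdb (.c 32 (.c 40 (.c 18433 (.c 24 .nil)))) (.b 8 (.l 16 .nil))))) (.node (.node (.I .adp (.c 2487083360521 (.c 48 (.c 13057 .nil))) .nil) (.I .adp (.c 169943113 (.c 18562 (.c 13057 .nil))) .nil)) (.node (.I .adp (.c 16 (.c 48 (.c 13057 .nil))) (.l 169943113 .nil)) (.I .jac (.c 169943113 (.c 32 (.c 40 .nil))) (.r 18562 .nil))))) (.node (.node (.node (.I .tdp (.c 16 (.c 48 (.c 13057 (.c 169943113 .nil)))) .nil) (.I .jac (.c 0 (.c 8 (.c 16 .nil))) (.r 18625 (.b 13057 .nil)))) (.node (.I .adp (.c 2718204105 (.c 2113 (.c 13057 .nil))) .nil) (.I .jac (.c 2718204105 (.c 32 (.c 40 .nil))) (.r 2113 .nil)))) (.node (.node (.I .adp (.c 169943433 (.c 2113 (.c 13057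 .nil))) .nil) (.I .adp (.c 2105481 (.c 18625 (.c 13057 .nil))) .nil)) (.node (.I .jac (.c 2105481 (.c 32 (.c 40 .nil))) (.r 18625 .nil)) (.I .com (.c 43356675 (.c 2113 .nil)) (.b 13057 .nil))))))))

noncomputable def c2_262 : Tr := (.node (.node (.node (.node (.node (.node (.I .com (.c 59555558875337 (.c 48 .nil)) (.b 13057 .nil)) (.I .adp (.c 14629225721520329 (.c 24 (.c 13057 .nil))) .nil)) (.node (.I .jac (.c 24 (.c 32 (.c 40 .nil))) (.l 14629225721520329 .nil)) (.I .jac (.c 14629225721520329 (.c 32 (.c 40 .nil))) (.r 24 .nil)))) (.node (.node (.I .adp (.c 18433 (.c 35735250 (.c 13057 .nil))) .nil) (.I .adp (.c 2113 (.c 24 (.c 13057 .nil))) (.l 18433 .nil))) (.node (.I .jac (.c 24 (.c 32 (.c 40 .nil))) (.l 2113 (.l 18433 .nil))) (.I .jac (.c 2113 (.c 32 (.c 40 .nil))) (.r 24 (.l 18433 .nil)))))) (.node (.node (.node (.I .tdp (.c 2113 (.c 24 (.c 18433 (.c 13057 .nil)))) .nil) (.I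 .tdb (.c 8 (.c 16 (.c 13057 (.c 18433 .nil)))) (.l 24 .nil))) (.node (.I .tdb (.c 32 (.c 40 (.c 18433 (.c 8 .nil)))) (.b 16 (.l 24 .nil))) (.I .tdb (.c 32 (.c 40 (.c 18433 (.c 16 .nil)))) (.b 8 (.l 24 .nil))))) (.node (.node (.I .tdb (.c 32 (.c 40 (.c 18433 (.c 24 .nil)))) (.r 2113 .nil)) (.I .adp (.c 59555558875337 (.c 48 (.c 13057 .nil))) .nil)) (.node (.I .adp (.c 33587273 (.c 18626 (.c 13057 .nil))) .nil) (.I .adp (.c 24 (.c 48 (.c 13057 .nil))) (.l 33587273 .nil)))))) (.node (.node (.node (.node (.I .jac (.c 33587273 (.c 32 (.c 40 .nil))) (.r 18626 .nil)) (.I .tdp (.c 24 (.c 48 (.c 13057 (.c 33587273 .nil)))) .nil)) (.node (.I .jac (.c 4609 (.c 16 (.c 48 .nil))) (.l 8 (.b 13057 .nil))) (.I .com (.c 59109065668069837641 (.c 8 .nil)) (.b 13057 .nil)))) (.node (.node (.I .com (.c 231045467270827017 (.c 8 .nil)) (.b 13057 .nil)) (.I .adp (.c 59109065668069837641 (.c 8 (.c 13057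 .nil))) .nil)) (.node (.I .jac (.c 8 (.c 32 (.c 40 .nil))) (.l 59109065668069837641 .nil)) (.I .jac (.c 59109065668069837641 (.c 32 (.c 40 .nil))) (.r 8 .nil))))) (.node (.node (.node (.I .adp (.c 231045467270827017 (.c 8 (.c 13057 .nil))) .nil) (.I .adp (.c 513 (.c 2756085961 (.c 13057 .nil))) .nil)) (.node (.I .jac (.c 2756085961 (.c 32 (.c 40 .nil))) (.l 513 .nil)) (.I .jac (.c 513 (.c 32 (.c 40 .nil))) (.r 2756085961 .nil)))) (.node (.node (.I .tdb (.c 4737 (.c 48 (.c 0 (.c 8 .nil)))) (.b 13057 .nil)) (.I .tdb (.c 16 (.c 24 (.c 0 (.c 8 .nil)))) (.b 48 (.b 13057 .nil)))) (.node (.I .adp (.c 513 (.c 179513737 (.c 13057 .nil))) .nil) (.I .jac (.c 513 (.c 32 (.c 40 .nil))) (.r 179513737 .nil))))))) (.node (.node (.node (.node (.node (.I .com (.c 15038410136445129 (.c 8 .nil)) (.b 13057 .nil)) (.I .ass (.c 8 (.c 33587593 (.c 24 .nil))) (.b 13057 .nil))) (.node (.I .ass (.c 33587593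 (.c 8 (.c 24 .nil))) (.b 13057 .nil)) (.I .com (.c 8 (.c 33587593 .nil)) (.r 24 (.b 13057 .nil))))) (.node (.node (.I .adp (.c 2718204041 (.c 4674 (.c 13057 .nil))) .nil) (.I .tdb (.c 32 (.c 40 (.c 8 (.c 24 .nil)))) (.l 2718204041 .nil))) (.node (.I .adp (.c 8 (.c 24 (.c 13057 .nil))) (.l 2718204041 .nil)) (.I .jac (.c 24 (.c 32 (.c 40 .nil))) (.l 8 (.l 2718204041 .nil)))))) (.node (.node (.node (.I .jac (.c 8 (.c 32 (.c 40 .nil))) (.r 24 (.l 2718204041 .nil))) (.I .jac (.c 2718204041 (.c 32 (.c 40 .nil))) (.r 4674 .nil))) (.node (.I .tdp (.c 8 (.c 24 (.c 2718204041 (.c 13057 .nil)))) .nil) (.I .tdb (.c 16 (.c 18433 (.c 8 (.c 32 .nil)))) (.b 40 (.l 24 .nil))))) (.node (.node (.I .tdb (.c 0 (.c 48 (.c 8 (.c 32 .nil)))) (.b 16 (.b 40 (.l 24 .nil)))) (.I .tdb (.c 32 (.c 40 (.c 2718204041 (.c 24 .nil)))) (.r 8 .nil))) (.node (.I .tdb (.c 32 (.c 40 (.c 8 (.c 24 .nil)))) (.b 2718204041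 .nil)) (.I .adp (.c 33587593 (.c 4674 (.c 13057 .nil))) .nil))))) (.node (.node (.node (.node (.I .tdb (.c 32 (.c 40 (.c 8 (.c 24 .nil)))) (.l 33587593 .nil)) (.I .adp (.c 8 (.c 24 (.c 13057 .nil))) (.l 33587593 .nil))) (.node (.I .jac (.c 24 (.c 32 (.c 40 .nil))) (.l 8 (.l 33587593 .nil))) (.I .jac (.c 8 (.c 32 (.c 40 .nil))) (.r 24 (.l 33587593 .nil))))) (.node (.node (.I .tdp (.c 8 (.c 24 (.c 33587593 (.c 13057 .nil)))) .nil) (.I .tdb (.c 2049 (.c 48 (.c 8 (.c 32 .nil)))) (.b 40 (.l 24 .nil)))) (.node (.I .tdb (.c 0 (.c 16 (.c 32 (.c 8 .nil)))) (.b 48 (.b 40 (.l 24 .nil)))) (.I .tdb (.c 2049 (.c 48 (.c 8 (.c 40 .nil)))) (.b 32 (.l 24 .nil)))))) (.node (.node (.node (.I .tdb (.c 0 (.c 16 (.c 40 (.c 8 .nil)))) (.b 48 (.b 32 (.l 24 .nil)))) (.I .tdb (.c 32 (.c 40 (.c 33587593 (.c 24 .nil)))) (.r 8 .nil))) (.node (.I .tdb (.c 32 (.c 40 (.c 8 (.c 24 .nil)))) (.b 33587593 .nil)) (.I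 .tdb (.c 0 (.c 16 (.c 8 (.c 24 .nil)))) (.b 48 (.b 13057 .nil))))) (.node (.node (.I .adp (.c 4609 (.c 2756085834 (.c 13057 .nil))) .nil) (.I .adp (.c 8 (.c 18561 (.c 13057 .nil))) (.l 4609 .nil))) (.node (.I .jac (.c 8 (.c 32 (.c 40 .nil))) (.r 18561 (.l 4609 .nil))) (.I .jac (.c 4609 (.c 32 (.c 40 .nil))) (.r 2756085834 .nil))))))))

noncomputable def c2_263 : Tr := (.node (.node (.node (.node (.node (.node (.I .tdp (.c 8 (.c 18561 (.c 4609 (.c 13057 .nil)))) .nil) (.I .tdb (.c 0 (.c 24 (.c 13057 (.c 8 .nil)))) (.l 18561 .nil))) (.node (.I .tdb (.c 32 (.c 40 (.c 0 (.c 8 .nil)))) (.b 24 (.l 18561 .nil))) (.I .adp (.c 18561 (.c 24 (.c 13057 .nil))) (.l 513 .nil)))) (.node (.node (.I .com (.c 14832759703961865 (.c 8 .nil)) (.b 13057 .nil)) (.I .ass (.c 8 (.c 169943177 (.c 48 .nil))) (.b 13057 .nil))) (.node (.I .ass (.c 169943177 (.c 8 (.c 48 .nil))) (.b 13057 .nil)) (.I .com (.c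 8 (.c 169943177 .nil)) (.r 48 (.b 13057 .nil)))))) (.node (.node (.node (.I .ass (.c 8 (.c 33587401 (.c 48 .nil))) (.b 13057 .nil)) (.I .ass (.c 33587401 (.c 8 (.c 48 .nil))) (.b 13057 .nil))) (.node (.I .com (.c 8 (.c 33587401 .nil)) (.r 48 (.b 13057 .nil))) (.I .adp (.c 18433 (.c 179513418 (.c 13057 .nil))) .nil))) (.node (.node (.I .adp (.c 8 (.c 4737 (.c 13057 .nil))) (.l 18433 .nil)) (.I .jac (.c 8 (.c 32 (.c 40 .nil))) (.r 4737 (.l 18433 .nil)))) (.node (.I .tdp (.c 8 (.c 4737 (.c 18433 (.c 13057 .nil)))) .nil) (.I .tdb (.c 32 (.c 40 (.c 18433 (.c 8 .nil)))) (.l 4737 .nil)))))) (.node (.node (.node (.node (.I .adp (.c 169943177 (.c 18498 (.c 13057 .nil))) .nil) (.I .adp (.c 8 (.c 48 (.c 13057 .nil))) (.l 169943177 .nil))) (.node (.I .jac (.c 169943177 (.c 32 (.c 40 .nil))) (.r 18498 .nil)) (.I .tdp (.c 8 (.c 48 (.c 13057 (.c 169943177 .nil)))) .nil))) (.node (.node (.I .adp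 (.c 33587401 (.c 18498 (.c 13057 .nil))) .nil) (.I .adp (.c 8 (.c 48 (.c 13057 .nil))) (.l 33587401 .nil))) (.node (.I .jac (.c 33587401 (.c 32 (.c 40 .nil))) (.r 18498 .nil)) (.I .tdp (.c 8 (.c 48 (.c 13057 (.c 33587401 .nil)))) .nil)))) (.node (.node (.node (.I .com (.c 169943433 (.c 16 .nil)) (.l 8 (.b 13057 .nil))) (.I .ass (.c 2718204105 (.c 8 (.c 16 .nil))) (.b 13057 .nil))) (.node (.I .ass (.c 8 (.c 169943433 (.c 16 .nil))) (.b 13057 .nil)) (.I .com (.c 8 (.c 169943433 .nil)) (.r 16 (.b 13057 .nil))))) (.node (.node (.I .com (.c 557571 (.c 18625 .nil)) (.b 13057 .nil)) (.I .tdb (.c 24 (.c 48 (.c 0 (.c 8 .nil)))) (.r 16 (.b 13057 .nil)))) (.node (.I .adp (.c 2718204105 (.c 2114 (.c 13057 .nil))) .nil) (.I .tdb (.c 32 (.c 40 (.c 8 (.c 16 .nil)))) (.l 2718204105 .nil))))))) (.node (.node (.node (.node (.node (.I .adp (.c 8 (.c 16 (.c 13057 .nil))) (.l 2718204105 .nil)) (.I .jac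 (.c 16 (.c 32 (.c 40 .nil))) (.l 8 (.l 2718204105 .nil)))) (.node (.I .jac (.c 8 (.c 32 (.c 40 .nil))) (.r 16 (.l 2718204105 .nil))) (.I .jac (.c 2718204105 (.c 32 (.c 40 .nil))) (.r 2114 .nil)))) (.node (.node (.I .tdp (.c 8 (.c 16 (.c 2718204105 (.c 13057 .nil)))) .nil) (.I .tdb (.c 24 (.c 18433 (.c 8 (.c 32 .nil)))) (.b 40 (.l 16 .nil)))) (.node (.I .tdb (.c 0 (.c 48 (.c 8 (.c 32 .nil)))) (.b 24 (.b 40 (.l 16 .nil)))) (.I .tdb (.c 32 (.c 40 (.c 2718204105 (.c 16 .nil)))) (.r 8 .nil))))) (.node (.node (.node (.I .tdb (.c 32 (.c 40 (.c 8 (.c 16 .nil)))) (.b 2718204105 .nil)) (.I .tdb (.c 24 (.c 18433 (.c 8 (.c 16 .nil)))) (.b 13057 .nil))) (.node (.I .tdb (.c 32 (.c 40 (.c 169943433 (.c 8 .nil)))) (.l 16 .nil)) (.I .tdb (.c 4609 (.c 48 (.c 8 (.c 16 .nil)))) (.b 13057 .nil)))) (.node (.node (.I .adp (.c 557571 (.c 18625 (.c 13057 .nil))) .nil) (.I .jac (.c 557571 (.c 32 (.c 40 .nil)))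 (.r 18625 .nil))) (.node (.I .tdb (.c 32 (.c 40 (.c 8 (.c 16 .nil)))) (.b 0 (.l 18625 .nil))) (.I .adp (.c 513 (.c 2775125130 (.c 13057 .nil))) .nil))))) (.node (.node (.node (.node (.I .jac (.c 513 (.c 32 (.c 40 .nil))) (.r 2775125130 .nil)) (.I .tdp (.c 16 (.c 18625 (.c 513 (.c 13057 .nil)))) .nil)) (.node (.I .tdb (.c 0 (.c 8 (.c 16 (.c 13057 .nil)))) (.l 18625 .nil)) (.I .tdb (.c 32 (.c 40 (.c 0 (.c 16 .nil)))) (.b 8 (.l 18625 .nil))))) (.node (.node (.I .adp (.c 43356675 (.c 16 (.c 40 .nil))) (.b 8257 .nil)) (.I .adp (.c 43356675 (.c 16 (.c 32 .nil))) (.b 12865 .nil))) (.node (.I .adp (.c 43356675 (.c 16 (.c 8 .nil))) (.b 13057 .nil)) (.I .tdb (.c 0 (.c 48 (.c 8 (.c 16 .nil)))) (.l 24 (.b 13057 .nil)))))) (.node (.node (.node (.I .com (.c 14832803796618313 (.c 24 .nil)) (.b 13057 .nil)) (.I .tdp (.c 16 (.c 48 (.c 8 (.c 4609 .nil)))) (.b 13057 .nil))) (.node (.I .tdb (.c 0 (.c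 24 (.c 8 (.c 16 .nil)))) (.l 48 (.b 13057 .nil))) (.I .tdb (.c 0 (.c 24 (.c 48 (.c 8 .nil)))) (.r 16 (.b 13057 .nil))))) (.node (.node (.I .tdp (.c 24 (.c 48 (.c 8 (.c 2049 .nil)))) (.b 13057 .nil)) (.I .tdb (.c 0 (.c 16 (.c 8 (.c 24 .nil)))) (.l 48 (.b 13057 .nil)))) (.node (.I .tdb (.c 0 (.c 16 (.c 48 (.c 8 .nil)))) (.r 24 (.b 13057 .nil))) (.I .jac (.c 4673 (.c 16 (.c 48 .nil))) (.l 0 (.b 13057 .nil)))))))))

noncomputable def c2_264 : Tr := (.node (.node (.node (.node (.node (.node (.I .jac (.c 0 (.c 32 (.c 40 .nil))) (.r 244149027818380041 .nil)) (.I .jac (.c 0 (.c 32 (.c 40 .nil))) (.r 59934265606904515401 .nil))) (.node (.I .jac (.c 0 (.c 32 (.c 40 .nil))) (.r 10206511083363145 .nil)) (.I .adp (.c 0 (.c 244148312264838153 (.c 13057 .nil))) .nil))) (.node (.node (.I .jac (.c 18497 (.c 16 (.c 24 .nil))) (.l 0 (.b 13057 .nil))) (.I .adp (.c 0 (.c 59934268409707441929 (.c 13057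 .nil))) .nil)) (.node (.I .jac (.c 59934268409707441929 (.c 32 (.c 40 .nil))) (.l 0 .nil)) (.I .jac (.c 0 (.c 32 (.c 40 .nil))) (.r 10206401356312585 .nil))))) (.node (.node (.node (.I .adp (.c 0 (.c 15038498931046537 (.c 13057 .nil))) .nil) (.I .jac (.c 0 (.c 32 (.c 40 .nil))) (.r 15038498931046537 .nil))) (.node (.I .tdb (.c 16 (.c 48 (.c 8 (.c 24 .nil)))) (.l 0 (.b 13057 .nil))) (.I .adp (.c 0 (.c 15038454533713097 (.c 13057 .nil))) .nil))) (.node (.node (.I .jac (.c 0 (.c 32 (.c 40 .nil))) (.r 15038454533713097 .nil)) (.I .tdb (.c 32 (.c 40 (.c 2737112201 (.c 24 .nil)))) (.l 0 .nil))) (.node (.I .tdp (.c 2737112201 (.c 24 (.c 0 (.c 13057 .nil)))) .nil) (.I .tdb (.c 8 (.c 48 (.c 0 (.c 32 .nil)))) (.b 16 (.b 40 (.l 24 .nil)))))))) (.node (.node (.node (.node (.I .tdb (.c 16 (.c 18497 (.c 0 (.c 32 .nil)))) (.b 40 (.l 24 .nil))) (.I .tdb (.c 32 (.c 40 (.c 0 (.c 24 .nil)))) (.r 2737112201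 .nil))) (.node (.I .tdb (.c 32 (.c 40 (.c 0 (.c 24 .nil)))) (.b 2737112201 .nil)) (.I .adp (.c 0 (.c 2756123154 (.c 13057 .nil))) .nil))) (.node (.node (.I .jac (.c 0 (.c 32 (.c 40 .nil))) (.r 2756123154 .nil)) (.I .tdp (.c 4673 (.c 18561 (.c 0 (.c 13057 .nil)))) .nil)) (.node (.I .adp (.c 0 (.c 14832803796618505 (.c 13057 .nil))) .nil) (.I .jac (.c 0 (.c 32 (.c 40 .nil))) (.r 14832803796618505 .nil))))) (.node (.node (.node (.I .tdb (.c 32 (.c 40 (.c 18497 (.c 0 .nil)))) (.l 4737 .nil)) (.I .com (.c 20891651 (.c 18625 .nil)) (.b 8257 .nil))) (.node (.I .tdb (.c 24 (.c 48 (.c 8 (.c 16 .nil)))) (.l 0 (.b 13057 .nil))) (.I .tdb (.c 32 (.c 40 (.c 2737112265 (.c 16 .nil)))) (.l 0 .nil)))) (.node (.node (.I .tdp (.c 2737112265 (.c 16 (.c 0 (.c 13057 .nil)))) .nil) (.I .tdb (.c 8 (.c 48 (.c 0 (.c 32 .nil)))) (.b 24 (.b 40 (.l 16 .nil))))) (.node (.I .tdb (.c 24 (.c 18497 (.c 0 (.c 32 .nil))))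 (.b 40 (.l 16 .nil))) (.I .tdb (.c 24 (.c 18497 (.c 0 (.c 40 .nil)))) (.b 32 (.l 16 .nil)))))))) (.node (.node (.node (.node (.node (.I .tdb (.c 32 (.c 40 (.c 2737112265 (.c 0 .nil)))) (.l 16 .nil)) (.I .tdb (.c 32 (.c 40 (.c 0 (.c 16 .nil)))) (.r 2737112265 .nil))) (.node (.I .jac (.c 43954691 (.c 8 (.c 24 .nil))) (.b 32 (.l 16 .nil))) (.I .jac (.c 43655171 (.c 8 (.c 24 .nil))) (.b 40 (.l 16 .nil))))) (.node (.node (.I .adp (.c 0 (.c 2775141906 (.c 13057 .nil))) .nil) (.I .jac (.c 0 (.c 32 (.c 40 .nil))) (.r 2775141906 .nil))) (.node (.I .tdp (.c 2113 (.c 18625 (.c 0 (.c 13057 .nil)))) .nil) (.I .jac (.c 4609 (.c 16 (.c 48 .nil))) (.b 545424713 .nil))))) (.node (.node (.node (.I .adp (.c 8193 (.c 40 (.c 59934265606904515401 .nil))) .nil) (.I .adp (.c 8193 (.c 40 (.c 10206511083363145 .nil))) .nil)) (.node (.I .adp (.c 8257 (.c 40 (.c 231046163358604041 .nil))) .nil) (.I .com (.c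 27951053153217538893119514365376803559305 (.c 12865 .nil)) .nil))) (.node (.node (.I .adp (.c 12865 (.c 32 (.c 9025011228269385 .nil))) .nil) (.I .adp (.c 8257 (.c 40 (.c 9025011228269385 .nil))) .nil)) (.node (.I .adp (.c 8257 (.c 40 (.c 231045467270827017 .nil))) .nil) (.I .adp (.c 12801 (.c 32 (.c 59934268409707441929 .nil))) .nil))))) (.node (.node (.node (.node (.I .adp (.c 32 (.c 40 (.c 0 .nil))) (.b 10206401356312585 .nil)) (.I .com (.c 12801 (.c 32 .nil)) (.b 10206401356312585 .nil))) (.node (.I .adp (.c 12801 (.c 32 (.c 10206401356312585 .nil))) .nil) (.I .adp (.c 8193 (.c 40 (.c 10206401356312585 .nil))) .nil))) (.node (.node (.I .com (.c 27951055785643122786957318255255806178185 (.c 12865 .nil)) .nil) (.I .com (.c 27951055785643122786957318255255806178249 (.c 8257 .nil)) .nil)) (.node (.I .adp (.c 12865 (.c 32 (.c 9024908047478793 .nil))) .nil) (.I .adp (.c 8257 (.c 40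 (.c 9024908047478793 .nil))) .nil)))) (.node (.node (.node (.I .adp (.c 8193 (.c 40 (.c 15038498931046537 .nil))) .nil) (.I .adp (.c 12865 (.c 32 (.c 15038498931046473 .nil))) .nil)) (.node (.I .jac (.c 8 (.c 16 (.c 48 .nil))) (.r 24 (.b 537002313 .nil))) (.I .adp (.c 4673 (.c 18561 (.c 537002313 .nil))) .nil))) (.node (.node (.I .jac (.c 0 (.c 16 (.c 48 .nil))) (.r 24 (.b 1324066057 .nil))) (.I .adp (.c 2718204041 (.c 24 (.c 1324066057 .nil))) .nil)) (.node (.I .jac (.c 2718204041 (.c 12865 (.c 32 .nil))) (.r 24 .nil)) (.I .adp (.c 33587593 (.c 24 (.c 1324066057 .nil))) .nil)))))))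

noncomputable def c2_265 : Tr := (.node (.node (.node (.node (.node (.node (.I .adp (.c 18561 (.c 24 (.c 0 .nil))) (.b 545424713 .nil)) (.I .com (.c 4609 (.c 18561 .nil)) (.b 545424713 .nil))) (.node (.I .jac (.c 0 (.c 16 (.c 48 .nil))) (.r 24 (.b 545424713 .nil))) (.I .jac (.c 2718204041 (.c 8257 (.c 40 .nil))) (.r 24 .nil)))) (.node (.node (.I .jac (.c 2718204041 (.c 8 (.c 32 .nil))) (.b 40 (.r 24 .nil))) (.I .adp (.c 4609 (.c 18561 (.c 545424713 .nil))) .nil)) (.node (.I .adp (.c 2737112201 (.c 24 (.c 21307395 .nil))) .nil) (.I .jac (.c 3632040653488329 (.c 8 (.c 48 .nil))) (.r 24 .nil))))) (.node (.node (.node (.I .jac (.c 21307395 (.c 18497 (.c 16 .nil))) (.r 24 .nil)) (.I .tdb (.c 16 (.c 48 (.c 8 (.c 24 .nil)))) (.b 1311027474 .nil))) (.node (.I .adp (.c 12801 (.c 32 (.c 59934265628801413010 .nil))) .nil) (.I .adp (.c 2737112201 (.c 24 (.c 32 .nil))) (.l 12801 .nil)))) (.node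 (.node (.I .tdb (.c 8 (.c 48 (.c 0 (.c 24 .nil)))) (.b 16 (.b 40 (.r 32 .nil)))) (.I .tdb (.c 0 (.c 40 (.c 2737112201 (.c 24 .nil)))) (.r 32 .nil))) (.node (.I .tdb (.c 16 (.c 18497 (.c 0 (.c 24 .nil)))) (.b 40 (.r 32 .nil))) (.I .adp (.c 2737112201 (.c 24 (.c 12801 .nil))) (.r 32 .nil)))))) (.node (.node (.node (.node (.I .com (.c 1310925001 (.c 2737112201 .nil)) (.r 32 .nil)) (.I .jac (.c 1310924937 (.c 8 (.c 48 .nil))) (.r 24 (.r 32 .nil)))) (.node (.I .jac (.c 12801 (.c 18497 (.c 16 .nil))) (.r 24 (.r 32 .nil))) (.I .jac (.c 12801 (.c 8 (.c 48 .nil))) (.b 16 (.r 24 (.r 32 .nil)))))) (.node (.node (.I .ass (.c 1512102601296135297671723270643481494217 (.c 24 (.c 32 .nil))) .nil) (.I .ass (.c 1512102306009786965494079912008658879241 (.c 24 (.c 32 .nil))) .nil)) (.node (.I .ass (.c 1512102601296135227280972429874805772297 (.c 24 (.c 32 .nil))) .nil) (.I .tdp (.c 2737112201 (.c 24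 (.c 32 (.c 12801 .nil)))) .nil)))) (.node (.node (.node (.I .tdb (.c 0 (.c 40 (.c 2737112201 (.c 32 .nil)))) (.l 24 .nil)) (.I .tdb (.c 16 (.c 18497 (.c 32 (.c 40 .nil)))) (.b 0 (.l 24 .nil)))) (.node (.I .adp (.c 12801 (.c 32 (.c 2756123154 .nil))) .nil) (.I .adp (.c 4673 (.c 18561 (.c 32 .nil))) (.l 12801 .nil)))) (.node (.node (.I .adp (.c 4673 (.c 18561 (.c 12801 .nil))) (.r 32 .nil)) (.I .jac (.c 12801 (.c 16 (.c 48 .nil))) (.l 4673 (.r 32 .nil)))) (.node (.I .com (.c 13748198893136698121 (.c 4673 .nil)) (.r 32 .nil)) (.I .tdp (.c 4673 (.c 18561 (.c 32 (.c 12801 .nil)))) .nil)))))) (.node (.node (.node (.node (.node (.I .tdb (.c 16 (.c 48 (.c 8 (.c 24 .nil)))) (.b 537067858 .nil)) (.I .adp (.c 8193 (.c 40 (.c 62889413447113 .nil))) .nil)) (.node (.I .jac (.c 537002121 (.c 8 (.c 48 .nil))) (.r 24 (.r 40 .nil))) (.I .adp (.c 8193 (.c 40 (.c 2756123154 .nil))) .nil))) (.node (.node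 (.I .adp (.c 4673 (.c 18561 (.c 40 .nil))) (.l 8193 .nil)) (.I .adp (.c 4673 (.c 18561 (.c 8193 .nil))) (.r 40 .nil))) (.node (.I .jac (.c 8193 (.c 16 (.c 48 .nil))) (.l 4673 (.r 40 .nil))) (.I .com (.c 2306972423229201161 (.c 4673 .nil)) (.r 40 .nil))))) (.node (.node (.node (.I .com (.c 2306970223667989513 (.c 4673 .nil)) (.r 40 .nil)) (.I .tdp (.c 4673 (.c 18561 (.c 40 (.c 8193 .nil)))) .nil)) (.node (.I .jac (.c 4609 (.c 16 (.c 48 .nil))) (.b 21307459 .nil)) (.I .adp (.c 2718204041 (.c 24 (.c 21307459 .nil))) .nil))) (.node (.node (.I .adp (.c 12865 (.c 32 (.c 62886542410185 .nil))) .nil) (.I .adp (.c 12865 (.c 32 (.c 59109065689815469970 .nil))) .nil)) (.node (.I .adp (.c 2718204041 (.c 24 (.c 32 .nil))) (.l 12865 .nil)) (.I .ass (.c 12865 (.c 59109065668069837705 (.c 24 .nil))) .nil))))) (.node (.node (.node (.node (.I .com (.c 12865 (.c 59109065668069837705 .nil)) (.r 24 .nil))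 (.I .tdb (.c 16 (.c 18433 (.c 8 (.c 24 .nil)))) (.b 40 (.r 32 .nil)))) (.node (.I .tdb (.c 0 (.c 48 (.c 8 (.c 24 .nil)))) (.b 16 (.b 40 (.r 32 .nil)))) (.I .tdb (.c 8 (.c 40 (.c 2718204041 (.c 24 .nil)))) (.r 32 .nil)))) (.node (.node (.I .adp (.c 2718204041 (.c 24 (.c 12865 .nil))) (.r 32 .nil)) (.I .jac (.c 2718204041 (.c 8 (.c 40 .nil))) (.r 24 (.r 32 .nil)))) (.node (.I .ass (.c 27951053153217539014174880853583831178953 (.c 24 (.c 32 .nil))) .nil) (.I .ass (.c 27951053153217538772064147877169776201673 (.c 24 (.c 32 .nil))) .nil)))) (.node (.node (.node (.I .tdp (.c 2718204041 (.c 24 (.c 32 (.c 12865 .nil)))) .nil) (.I .tdb (.c 16 (.c 18433 (.c 32 (.c 40 .nil)))) (.b 8 (.l 24 .nil)))) (.node (.I .tdb (.c 8 (.c 40 (.c 2718204041 (.c 32 .nil)))) (.l 24 .nil)) (.I .adp (.c 12865 (.c 32 (.c 9025011496970130 .nil))) .nil))) (.node (.node (.I .adp (.c 33587593 (.c 24 (.c 32 .nil)))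 (.l 12865 .nil)) (.I .tdb (.c 2049 (.c 48 (.c 8 (.c 24 .nil)))) (.b 40 (.r 32 .nil)))) (.node (.I .tdb (.c 0 (.c 16 (.c 8 (.c 24 .nil)))) (.b 48 (.b 40 (.r 32 .nil)))) (.I .tdb (.c 8 (.c 40 (.c 33587593 (.c 24 .nil)))) (.r 32 .nil))))))))

noncomputable def c2_266 : Tr := (.node (.node (.node (.node (.node (.node (.I .adp (.c 33587593 (.c 24 (.c 12865 .nil))) (.r 32 .nil)) (.I .tdp (.c 33587593 (.c 24 (.c 32 (.c 12865 .nil)))) .nil)) (.node (.I .tdb (.c 8 (.c 40 (.c 33587593 (.c 32 .nil)))) (.l 24 .nil)) (.I .adp (.c 8257 (.c 40 (.c 15038410136445129 .nil))) .nil))) (.node (.node (.I .ass (.c 8257 (.c 59109065668069837769 (.c 24 .nil))) .nil) (.I .com (.c 8257 (.c 59109065668069837769 .nil)) (.r 24 .nil))) (.node (.I .adp (.c 8257 (.c 40 (.c 9025011496970130 .nil))) .nil) (.I .adp (.c 33587593 (.c 24 (.c 40 .nil))) (.l 8257 .nil))))) (.node (.node (.node (.I .tdb (.c 2049 (.c 48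 (.c 8 (.c 24 .nil)))) (.b 32 (.r 40 .nil))) (.I .tdb (.c 0 (.c 16 (.c 8 (.c 24 .nil)))) (.b 48 (.b 32 (.r 40 .nil))))) (.node (.I .tdb (.c 8 (.c 32 (.c 33587593 (.c 24 .nil)))) (.r 40 .nil)) (.I .adp (.c 33587593 (.c 24 (.c 8257 .nil))) (.r 40 .nil)))) (.node (.node (.I .tdp (.c 33587593 (.c 24 (.c 40 (.c 8257 .nil)))) .nil) (.I .tdb (.c 8 (.c 32 (.c 33587593 (.c 40 .nil)))) (.l 24 .nil))) (.node (.I .adp (.c 18497 (.c 4737 (.c 1310925065 .nil))) .nil) (.I .jac (.c 0 (.c 16 (.c 24 .nil))) (.r 48 (.b 1324066057 .nil))))))) (.node (.node (.node (.node (.I .adp (.c 18433 (.c 4737 (.c 1324066057 .nil))) .nil) (.I .adp (.c 169943177 (.c 48 (.c 1324066057 .nil))) .nil)) (.node (.I .adp (.c 33587401 (.c 48 (.c 1324066057 .nil))) .nil) (.I .adp (.c 169943177 (.c 48 (.c 545424713 .nil))) .nil))) (.node (.node (.I .adp (.c 33587401 (.c 48 (.c 545424713 .nil))) .nil) (.I .adp (.c 12801 (.c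 32 (.c 14832803796618505 .nil))) .nil)) (.node (.I .com (.c 13748194865974800137 (.c 18497 .nil)) (.r 32 .nil)) (.I .com (.c 2306970773558193929 (.c 18497 .nil)) (.r 40 .nil))))) (.node (.node (.node (.I .com (.c 2306970223667989321 (.c 18497 .nil)) (.r 40 .nil)) (.I .jac (.c 18433 (.c 16 (.c 24 .nil))) (.b 21307459 .nil))) (.node (.I .adp (.c 12865 (.c 32 (.c 231045468630372434 .nil))) .nil) (.I .adp (.c 169943177 (.c 48 (.c 32 .nil))) (.l 12865 .nil)))) (.node (.node (.I .adp (.c 169943177 (.c 48 (.c 12865 .nil))) (.r 32 .nil)) (.I .tdp (.c 169943177 (.c 48 (.c 32 (.c 12865 .nil)))) .nil)) (.node (.I .tdb (.c 8 (.c 40 (.c 32 (.c 48 .nil)))) (.r 169943177 .nil)) (.I .adp (.c 12865 (.c 32 (.c 9024908316178002 .nil))) .nil)))))) (.node (.node (.node (.node (.node (.I .adp (.c 33587401 (.c 48 (.c 32 .nil))) (.l 12865 .nil)) (.I .adp (.c 33587401 (.c 48 (.c 12865 .nil))) (.r 32 .nil)))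 (.node (.I .tdp (.c 33587401 (.c 48 (.c 32 (.c 12865 .nil)))) .nil) (.I .tdb (.c 8 (.c 40 (.c 32 (.c 48 .nil)))) (.r 33587401 .nil)))) (.node (.node (.I .adp (.c 8257 (.c 40 (.c 231045468630372434 .nil))) .nil) (.I .adp (.c 169943177 (.c 48 (.c 40 .nil))) (.l 8257 .nil))) (.node (.I .adp (.c 169943177 (.c 48 (.c 8257 .nil))) (.r 40 .nil)) (.I .tdp (.c 169943177 (.c 48 (.c 40 (.c 8257 .nil)))) .nil)))) (.node (.node (.node (.I .tdb (.c 8 (.c 32 (.c 40 (.c 48 .nil)))) (.r 169943177 .nil)) (.I .adp (.c 8257 (.c 40 (.c 9024908316178002 .nil))) .nil)) (.node (.I .adp (.c 33587401 (.c 48 (.c 40 .nil))) (.l 8257 .nil)) (.I .adp (.c 33587401 (.c 48 (.c 8257 .nil))) (.r 40 .nil)))) (.node (.node (.I .tdp (.c 33587401 (.c 48 (.c 40 (.c 8257 .nil)))) .nil) (.I .tdb (.c 8 (.c 32 (.c 40 (.c 48 .nil)))) (.r 33587401 .nil))) (.node (.I .com (.c 174695817 (.c 16 .nil)) (.b 1310925065 .nil)) (.I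 .adp (.c 2737112265 (.c 16 (.c 1310925065 .nil))) .nil))))) (.node (.node (.node (.node (.I .adp (.c 174695817 (.c 16 (.c 1310925065 .nil))) .nil) (.I .com (.c 174695817 (.c 16 .nil)) (.b 537002313 .nil))) (.node (.I .adp (.c 2737112265 (.c 16 (.c 537002313 .nil))) .nil) (.I .com (.c 2718204105 (.c 16 .nil)) (.b 1324066057 .nil)))) (.node (.node (.I .adp (.c 2718204105 (.c 16 (.c 1324066057 .nil))) .nil) (.I .jac (.c 2718204105 (.c 12865 (.c 32 .nil))) (.r 16 .nil))) (.node (.I .com (.c 169943433 (.c 16 .nil)) (.b 545424713 .nil)) (.I .com (.c 2718204105 (.c 16 .nil)) (.b 545424713 .nil))))) (.node (.node (.node (.I .adp (.c 2718204105 (.c 16 (.c 545424713 .nil))) .nil) (.I .jac (.c 2718204105 (.c 8257 (.c 40 .nil))) (.r 16 .nil))) (.node (.I .adp (.c 169943433 (.c 16 (.c 545424713 .nil))) .nil) (.I .com (.c 2737112265 (.c 16 .nil)) (.b 21307395 .nil)))) (.node (.node (.I .adp (.c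 2737112265 (.c 16 (.c 21307395 .nil))) .nil) (.I .jac (.c 3632040653488393 (.c 8 (.c 48 .nil))) (.r 16 .nil))) (.node (.I .jac (.c 21307395 (.c 18497 (.c 24 .nil))) (.r 16 .nil)) (.I .com (.c 2737112265 (.c 16 .nil)) (.b 1311027474 .nil))))))))

noncomputable def c2_267 : Tr := (.node (.node (.node (.node (.node (.node (.I .adp (.c 12801 (.c 32 (.c 59934268431604340050 .nil))) .nil) (.I .adp (.c 2737112265 (.c 16 (.c 32 .nil))) (.l 12801 .nil))) (.node (.I .tdb (.c 8 (.c 48 (.c 0 (.c 16 .nil)))) (.b 24 (.b 40 (.r 32 .nil)))) (.I .tdb (.c 0 (.c 40 (.c 2737112265 (.c 16 .nil)))) (.r 32 .nil)))) (.node (.node (.I .tdb (.c 24 (.c 18497 (.c 0 (.c 16 .nil)))) (.b 40 (.r 32 .nil))) (.I .adp (.c 2737112265 (.c 16 (.c 12801 .nil))) (.r 32 .nil))) (.node (.I .com (.c 1310924937 (.c 2737112265 .nil)) (.r 32 .nil)) (.I .jac (.c 12801 (.c 18497 (.c 24 .nil))) (.r 16 (.r 32 .nil)))))) (.node (.node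 (.node (.I .jac (.c 12801 (.c 8 (.c 48 .nil))) (.b 24 (.r 16 (.r 32 .nil)))) (.I .ass (.c 1512102896582526877926683197569543635657 (.c 16 (.c 32 .nil))) .nil)) (.node (.I .ass (.c 1512102896582526807535925483778566443017 (.c 16 (.c 32 .nil))) .nil) (.I .tdp (.c 2737112265 (.c 16 (.c 32 (.c 12801 .nil)))) .nil))) (.node (.node (.I .jac (.c 537002185 (.c 8 (.c 48 .nil))) (.r 16 (.r 40 .nil))) (.I .com (.c 2718204105 (.c 16 .nil)) (.b 21307459 .nil))) (.node (.I .adp (.c 2718204105 (.c 16 (.c 21307459 .nil))) .nil) (.I .com (.c 2718204105 (.c 16 .nil)) (.b 1324168978 .nil)))))) (.node (.node (.node (.node (.I .adp (.c 12865 (.c 32 (.c 59109068473256441170 .nil))) .nil) (.I .adp (.c 2718204105 (.c 16 (.c 32 .nil))) (.l 12865 .nil))) (.node (.I .ass (.c 12865 (.c 59109068451510808457 (.c 16 .nil))) .nil) (.I .ass (.c 59109068451510808457 (.c 12865 (.c 16 .nil))) .nil))) (.node (.node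 (.I .com (.c 12865 (.c 59109068451510808457 .nil)) (.r 16 .nil)) (.I .tdb (.c 8 (.c 40 (.c 2718204105 (.c 16 .nil)))) (.r 32 .nil))) (.node (.I .adp (.c 2718204105 (.c 16 (.c 12865 .nil))) (.r 32 .nil)) (.I .jac (.c 2718204105 (.c 8 (.c 40 .nil))) (.r 16 (.r 32 .nil)))))) (.node (.node (.node (.I .tdp (.c 2718204105 (.c 16 (.c 32 (.c 12865 .nil)))) .nil) (.I .tdb (.c 24 (.c 18433 (.c 32 (.c 40 .nil)))) (.b 8 (.l 16 .nil)))) (.node (.I .tdb (.c 8 (.c 40 (.c 2718204105 (.c 32 .nil)))) (.l 16 .nil)) (.I .adp (.c 12865 (.c 32 (.c 231046164718151506 .nil))) .nil))) (.node (.node (.I .adp (.c 169943433 (.c 16 (.c 32 .nil))) (.l 12865 .nil)) (.I .tdb (.c 4609 (.c 48 (.c 8 (.c 16 .nil)))) (.b 40 (.r 32 .nil)))) (.node (.I .tdb (.c 0 (.c 24 (.c 8 (.c 16 .nil)))) (.b 48 (.b 40 (.r 32 .nil)))) (.I .tdb (.c 8 (.c 40 (.c 169943433 (.c 16 .nil)))) (.r 32 .nil))))))) (.node (.node (.node (.node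 (.node (.I .adp (.c 169943433 (.c 16 (.c 12865 .nil))) (.r 32 .nil)) (.I .tdp (.c 169943433 (.c 16 (.c 32 (.c 12865 .nil)))) .nil)) (.node (.I .tdb (.c 8 (.c 40 (.c 169943433 (.c 32 .nil)))) (.l 16 .nil)) (.I .ass (.c 8257 (.c 59109068451510808521 (.c 16 .nil))) .nil))) (.node (.node (.I .ass (.c 59109068451510808521 (.c 8257 (.c 16 .nil))) .nil) (.I .com (.c 8257 (.c 59109068451510808521 .nil)) (.r 16 .nil))) (.node (.I .tdb (.c 24 (.c 18433 (.c 8 (.c 16 .nil)))) (.b 32 (.r 40 .nil))) (.I .tdb (.c 0 (.c 48 (.c 8 (.c 16 .nil)))) (.b 24 (.b 32 (.r 40 .nil))))))) (.node (.node (.node (.I .ass (.c 27951055785643122908012690443949941766857 (.c 16 (.c 40 .nil))) .nil) (.I .ass (.c 27951055785643122726429632160908738482057 (.c 16 (.c 40 .nil))) .nil)) (.node (.I .adp (.c 8257 (.c 40 (.c 231046164718151506 .nil))) .nil) (.I .adp (.c 169943433 (.c 16 (.c 40 .nil))) (.l 8257 .nil)))) (.node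 (.node (.I .tdb (.c 4609 (.c 48 (.c 8 (.c 16 .nil)))) (.b 32 (.r 40 .nil))) (.I .tdb (.c 0 (.c 24 (.c 8 (.c 16 .nil)))) (.b 48 (.b 32 (.r 40 .nil))))) (.node (.I .tdb (.c 8 (.c 32 (.c 169943433 (.c 16 .nil)))) (.r 40 .nil)) (.I .adp (.c 169943433 (.c 16 (.c 8257 .nil))) (.r 40 .nil)))))) (.node (.node (.node (.node (.I .tdp (.c 169943433 (.c 16 (.c 40 (.c 8257 .nil)))) .nil) (.I .tdb (.c 8 (.c 32 (.c 169943433 (.c 40 .nil)))) (.l 16 .nil))) (.node (.I .tdp (.c 24 (.c 48 (.c 8 (.c 16 .nil)))) (.b 1310925065 .nil)) (.I .com (.c 2803779 (.c 48 .nil)) (.b 1310925065 .nil)))) (.node (.node (.I .tdb (.c 32 (.c 12801 (.c 16 (.c 24 .nil)))) (.b 18497 .nil)) (.I .adp (.c 2803779 (.c 48 (.c 1310925065 .nil))) .nil)) (.node (.I .adp (.c 4673 (.c 18562 (.c 1310925065 .nil))) .nil) (.I .adp (.c 16 (.c 48 (.c 1310925065 .nil))) (.l 4673 .nil))))) (.node (.node (.node (.I .com (.c 43356739 (.c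 16 .nil)) (.b 537002313 .nil)) (.I .ass (.c 18497 (.c 16 (.c 24 .nil))) (.b 537002313 .nil))) (.node (.I .ass (.c 16 (.c 4673 (.c 48 .nil))) (.b 537002313 .nil)) (.I .ass (.c 4673 (.c 16 (.c 48 .nil))) (.b 537002313 .nil)))) (.node (.node (.I .com (.c 16 (.c 4673 .nil)) (.r 48 (.b 537002313 .nil))) (.I .tdp (.c 24 (.c 48 (.c 8 (.c 16 .nil)))) (.b 537002313 .nil))) (.node (.I .com (.c 2803779 (.c 48 .nil)) (.b 537002313 .nil)) (.I .adp (.c 18497 (.c 4738 (.c 537002313 .nil))) .nil)))))))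

noncomputable def c2_268 : Tr := (.node (.node (.node (.node (.node (.node (.I .adp (.c 16 (.c 24 (.c 537002313 .nil))) (.l 18497 .nil)) (.I .tdp (.c 16 (.c 24 (.c 537002313 (.c 18497 .nil)))) .nil)) (.node (.I .tdb (.c 40 (.c 8193 (.c 18497 (.c 16 .nil)))) (.l 24 .nil)) (.I .tdb (.c 0 (.c 32 (.c 18497 (.c 16 .nil)))) (.b 40 (.l 24 .nil))))) (.node (.node (.I .tdb (.c 8 (.c 48 (.c 16 (.c 32 .nil)))) (.b 0 (.b 40 (.l 24 .nil)))) (.I .tdb (.c 40 (.c 8193 (.c 16 (.c 24 .nil)))) (.b 18497 .nil))) (.node (.I .tdb (.c 0 (.c 32 (.c 16 (.c 24 .nil)))) (.b 40 (.b 18497 .nil))) (.I .adp (.c 2803779 (.c 48 (.c 537002313 .nil))) .nil)))) (.node (.node (.node (.I .tdb (.c 40 (.c 8257 (.c 16 (.c 24 .nil)))) (.b 18433 .nil)) (.I .tdb (.c 8 (.c 32 (.c 16 (.c 24 .nil)))) (.b 40 (.b 18433 .nil)))) (.node (.I .jac (.c 0 (.c 8 (.c 40 .nil))) (.b 15038498931046729 .nil)) (.I .jac (.c 4609 (.c 16 (.c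 48 .nil))) (.b 1324271905 .nil)))) (.node (.node (.I .adp (.c 8 (.c 40 (.c 32 .nil))) (.b 231046163358604041 .nil)) (.I .adp (.c 8 (.c 13057 (.c 231046163358604041 .nil))) .nil)) (.node (.I .jac (.c 231046163358604041 (.c 32 (.c 40 .nil))) (.l 8 .nil)) (.I .jac (.c 59109065668069837641 (.c 32 (.c 40 .nil))) (.l 8 .nil)))))) (.node (.node (.node (.node (.I .com (.c 6250090978991936989903231897491262894505959231273606073600897078039639333216664521 (.c 8 .nil)) .nil) (.I .adp (.c 8 (.c 40 (.c 32 .nil))) (.b 9025011228269385 .nil))) (.node (.I .jac (.c 9025011228269385 (.c 32 (.c 40 .nil))) (.l 8 .nil)) (.I .adp (.c 8 (.c 40 (.c 32 .nil))) (.b 231045467270827017 .nil)))) (.node (.node (.I .adp (.c 8 (.c 13057 (.c 231045467270827017 .nil))) .nil) (.I .adp (.c 8 (.c 40 (.c 32 .nil))) (.b 9024908047478793 .nil))) (.node (.I .adp (.c 8 (.c 13057 (.c 15038498931046473 .nil))) .nil) (.I .jac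 (.c 15038498931046473 (.c 32 (.c 40 .nil))) (.l 8 .nil))))) (.node (.node (.node (.I .adp (.c 8 (.c 13057 (.c 15038410136445129 .nil))) .nil) (.I .adp (.c 8 (.c 13057 (.c 62886542410185 .nil))) .nil)) (.node (.I .adp (.c 8 (.c 13057 (.c 59109065689815469970 .nil))) .nil) (.I .adp (.c 2718204041 (.c 24 (.c 13057 .nil))) (.l 8 .nil)))) (.node (.node (.I .jac (.c 24 (.c 32 (.c 40 .nil))) (.l 2718204041 (.l 8 .nil))) (.I .jac (.c 2718204041 (.c 32 (.c 40 .nil))) (.r 24 (.l 8 .nil)))) (.node (.I .ass (.c 8 (.c 27951053153217539014174880853583831179145 (.c 24 .nil))) .nil) (.I .ass (.c 27951053153217539014174880853583831179145 (.c 8 (.c 24 .nil))) .nil)))))) (.node (.node (.node (.node (.node (.I .com (.c 8 (.c 27951053153217539014174880853583831179145 .nil)) (.r 24 .nil)) (.I .ass (.c 8 (.c 27951053153217538953647197609480317336521 (.c 24 .nil))) .nil)) (.node (.I .ass (.c 27951053153217538953647197609480317336521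 (.c 8 (.c 24 .nil))) .nil) (.I .com (.c 8 (.c 27951053153217538953647197609480317336521 .nil)) (.r 24 .nil)))) (.node (.node (.I .tdb (.c 16 (.c 18433 (.c 8 (.c 24 .nil)))) (.r 13057 .nil)) (.I .tdb (.c 0 (.c 48 (.c 8 (.c 24 .nil)))) (.b 16 (.r 13057 .nil)))) (.node (.I .adp (.c 2718204041 (.c 24 (.c 8 .nil))) (.r 13057 .nil)) (.I .ass (.c 59109065668069837513 (.c 24 (.c 13057 .nil))) .nil)))) (.node (.node (.node (.I .tdp (.c 2718204041 (.c 24 (.c 8 (.c 13057 .nil)))) .nil) (.I .tdb (.c 32 (.c 40 (.c 8 (.c 24 .nil)))) (.r 2718204041 .nil))) (.node (.I .tdb (.c 32 (.c 40 (.c 33587593 (.c 24 .nil)))) (.l 8 .nil)) (.I .adp (.c 33587593 (.c 24 (.c 13057 .nil))) (.l 8 .nil)))) (.node (.node (.I .jac (.c 24 (.c 32 (.c 40 .nil))) (.l 33587593 (.l 8 .nil))) (.I .jac (.c 33587593 (.c 32 (.c 40 .nil))) (.r 24 (.l 8 .nil)))) (.node (.I .adp (.c 4609 (.c 18561 (.c 13057 .nil))) (.l 8 .nil))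 (.I .jac (.c 18561 (.c 32 (.c 40 .nil))) (.l 4609 (.l 8 .nil))))))) (.node (.node (.node (.node (.I .jac (.c 4609 (.c 32 (.c 40 .nil))) (.r 18561 (.l 8 .nil))) (.I .jac (.c 0 (.c 2803779 (.c 48 .nil))) (.r 13057 .nil))) (.node (.I .ass (.c 4609 (.c 2737112201 (.c 13057 .nil))) .nil) (.I .tdb (.c 0 (.c 48 (.c 8 (.c 16 .nil)))) (.b 24 (.r 13057 .nil))))) (.node (.node (.I .adp (.c 169943177 (.c 48 (.c 13057 .nil))) (.l 8 .nil)) (.I .adp (.c 33587401 (.c 48 (.c 13057 .nil))) (.l 8 .nil))) (.node (.I .com (.c 2718204105 (.c 16 .nil)) (.b 1363882058 .nil)) (.I .adp (.c 8 (.c 13057 (.c 59109068473256441170 .nil))) .nil)))) (.node (.node (.node (.I .adp (.c 2718204105 (.c 16 (.c 13057 .nil))) (.l 8 .nil)) (.I .jac (.c 16 (.c 32 (.c 40 .nil))) (.l 2718204105 (.l 8 .nil)))) (.node (.I .jac (.c 2718204105 (.c 32 (.c 40 .nil))) (.r 16 (.l 8 .nil))) (.I .ass (.c 8 (.c 27951055785643122968540376538297009659785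 (.c 16 .nil))) .nil))) (.node (.node (.I .ass (.c 27951055785643122968540376538297009659785 (.c 8 (.c 16 .nil))) .nil) (.I .com (.c 8 (.c 27951055785643122968540376538297009659785 .nil)) (.r 16 .nil))) (.node (.I .ass (.c 8 (.c 27951055785643122908012690443949941767113 (.c 16 .nil))) .nil) (.I .ass (.c 27951055785643122908012690443949941767113 (.c 8 (.c 16 .nil))) .nil)))))))

noncomputable def c2_269 : Tr := (.node (.node (.node (.node (.node (.node (.I .com (.c 8 (.c 27951055785643122908012690443949941767113 .nil)) (.r 16 .nil)) (.I .tdb (.c 24 (.c 18433 (.c 8 (.c 16 .nil)))) (.r 13057 .nil))) (.node (.I .adp (.c 2718204105 (.c 16 (.c 8 .nil))) (.r 13057 .nil)) (.I .ass (.c 59109068451510808265 (.c 16 (.c 13057 .nil))) .nil))) (.node (.node (.I .tdp (.c 2718204105 (.c 16 (.c 8 (.c 13057 .nil)))) .nil) (.I .tdb (.c 32 (.c 40 (.c 8 (.c 16 .nil)))) (.r 2718204105 .nil))) (.node (.I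 .tdb (.c 32 (.c 40 (.c 169943433 (.c 16 .nil)))) (.l 8 .nil)) (.I .adp (.c 169943433 (.c 16 (.c 13057 .nil))) (.l 8 .nil))))) (.node (.node (.node (.I .jac (.c 16 (.c 32 (.c 40 .nil))) (.l 169943433 (.l 8 .nil))) (.I .jac (.c 169943433 (.c 32 (.c 40 .nil))) (.r 16 (.l 8 .nil)))) (.node (.I .adp (.c 2049 (.c 18625 (.c 13057 .nil))) (.l 8 .nil)) (.I .jac (.c 18625 (.c 32 (.c 40 .nil))) (.l 2049 (.l 8 .nil))))) (.node (.node (.I .jac (.c 2049 (.c 32 (.c 40 .nil))) (.r 18625 (.l 8 .nil))) (.I .ass (.c 2049 (.c 2737112265 (.c 13057 .nil))) .nil)) (.node (.I .tdb (.c 32 (.c 48 (.c 8 (.c 24 .nil)))) (.b 12801 (.l 16 .nil))) (.I .adp (.c 24 (.c 18689 (.c 1310924873 .nil))) (.l 16 .nil)))))) (.node (.node (.node (.node (.I .com (.c 1512102306009786965494079912008658879369 (.c 24 .nil)) (.l 16 .nil)) (.I .ass (.c 16 (.c 1512102306009786965494079912008658879369 (.c 24 .nil))) .nil)) (.node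 (.I .com (.c 16 (.c 1512102306009786965494079912008658879369 .nil)) (.r 24 .nil)) (.I .ass (.c 16 (.c 1512102306009786937337782324909974764553 (.c 24 .nil))) .nil))) (.node (.node (.I .com (.c 16 (.c 1512102306009786937337782324909974764553 .nil)) (.r 24 .nil)) (.I .ass (.c 16 (.c 13748192181200529225 (.c 18689 .nil))) .nil)) (.node (.I .ass (.c 13748192181200529225 (.c 16 (.c 18689 .nil))) .nil) (.I .com (.c 16 (.c 13748192181200529225 .nil)) (.r 18689 .nil))))) (.node (.node (.node (.I .tdb (.c 8 (.c 12801 (.c 16 (.c 24 .nil)))) (.b 18689 .nil)) (.I .adp (.c 16 (.c 2794229962 (.c 2105673 .nil))) .nil)) (.node (.I .tdb (.c 32 (.c 48 (.c 8 (.c 24 .nil)))) (.b 0 (.b 40 (.l 16 .nil)))) (.I .tdb (.c 32 (.c 48 (.c 0 (.c 24 .nil)))) (.b 8 (.b 40 (.l 16 .nil)))))) (.node (.node (.I .tdb (.c 513 (.c 40 (.c 16 (.c 24 .nil)))) (.l 18689 .nil)) (.I .tdb (.c 0 (.c 8 (.c 16 (.c 24 .nil)))) (.b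 40 (.l 18689 .nil)))) (.node (.I .tdb (.c 513 (.c 40 (.c 18689 (.c 16 .nil)))) (.r 24 .nil)) (.I .tdb (.c 0 (.c 8 (.c 16 (.c 18689 .nil)))) (.b 40 (.r 24 .nil)))))))) (.node (.node (.node (.node (.node (.I .tdb (.c 32 (.c 48 (.c 0 (.c 16 .nil)))) (.b 8 (.b 40 (.r 24 .nil)))) (.I .jac (.c 4673 (.c 16 (.c 48 .nil))) (.b 1311129889 .nil))) (.node (.I .adp (.c 0 (.c 40 (.c 32 .nil))) (.b 59934265606904515401 .nil)) (.I .adp (.c 0 (.c 13057 (.c 59934265606904515401 .nil))) .nil))) (.node (.node (.I .jac (.c 0 (.c 2737112201 (.c 24 .nil))) (.r 13057 .nil)) (.I .jac (.c 0 (.c 18497 (.c 16 .nil))) (.b 24 (.r 13057 .nil)))) (.node (.I .jac (.c 0 (.c 8 (.c 48 .nil))) (.b 16 (.b 24 (.r 13057 .nil)))) (.I .adp (.c 0 (.c 40 (.c 32 .nil))) (.b 10206511083363145 .nil))))) (.node (.node (.node (.I .adp (.c 0 (.c 13057 (.c 10206511083363145 .nil))) .nil) (.I .jac (.c 0 (.c 35718537 (.c 24 .nil)))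 (.r 13057 .nil))) (.node (.I .jac (.c 0 (.c 2113 (.c 48 .nil))) (.b 24 (.r 13057 .nil))) (.I .jac (.c 0 (.c 8 (.c 16 .nil))) (.b 48 (.b 24 (.r 13057 .nil)))))) (.node (.node (.I .jac (.c 18497 (.c 16 (.c 24 .nil))) (.b 1311129889 .nil)) (.I .adp (.c 0 (.c 13057 (.c 59934268409707441929 .nil))) .nil)) (.node (.I .jac (.c 0 (.c 2737112265 (.c 16 .nil))) (.r 13057 .nil)) (.I .jac (.c 0 (.c 18497 (.c 24 .nil))) (.b 16 (.r 13057 .nil))))))) (.node (.node (.node (.node (.I .jac (.c 0 (.c 8 (.c 48 .nil))) (.b 24 (.b 16 (.r 13057 .nil)))) (.I .adp (.c 0 (.c 40 (.c 43356803 .nil))) (.b 8257 .nil))) (.node (.I .adp (.c 0 (.c 40 (.c 32 .nil))) (.b 15038498931046537 .nil)) (.I .adp (.c 0 (.c 13057 (.c 15038498931046537 .nil))) .nil))) (.node (.node (.I .adp (.c 0 (.c 40 (.c 32 .nil))) (.b 15038454533713097 .nil)) (.I .adp (.c 0 (.c 13057 (.c 62889413447113 .nil))) .nil)) (.node (.I .adp (.c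 0 (.c 13057 (.c 59934265628801413010 .nil))) .nil) (.I .tdb (.c 8 (.c 48 (.c 0 (.c 24 .nil)))) (.b 16 (.r 13057 .nil)))))) (.node (.node (.node (.I .tdb (.c 16 (.c 18497 (.c 0 (.c 24 .nil)))) (.r 13057 .nil)) (.I .adp (.c 2737112201 (.c 24 (.c 0 .nil))) (.r 13057 .nil))) (.node (.I .com (.c 4609 (.c 2737112201 .nil)) (.r 13057 .nil)) (.I .jac (.c 2049 (.c 8 (.c 48 .nil))) (.r 24 (.r 13057 .nil))))) (.node (.node (.I .jac (.c 0 (.c 18497 (.c 16 .nil))) (.r 24 (.r 13057 .nil))) (.I .jac (.c 0 (.c 8 (.c 48 .nil))) (.b 16 (.r 24 (.r 13057 .nil))))) (.node (.I .ass (.c 59109062884628932361 (.c 24 (.c 13057 .nil))) .nil) (.I .adp (.c 0 (.c 13057 (.c 14832803796618505 .nil))) .nil)))))))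

noncomputable def c2_270 : Tr := (.node (.node (.node (.node (.node (.node (.I .tdb (.c 8 (.c 48 (.c 0 (.c 16 .nil)))) (.b 24 (.r 13057 .nil))) (.I .adp (.c 0 (.c 13057 (.c 59934268431604340050 .nil))) .nil)) (.node (.I .tdb (.c 24 (.c 18497 (.c 0 (.c 16 .nil)))) (.r 13057 .nil)) (.I .adp (.c 2737112265 (.c 16 (.c 0 .nil))) (.r 13057 .nil)))) (.node (.node (.I .com (.c 2049 (.c 2737112265 .nil)) (.r 13057 .nil)) (.I .jac (.c 4609 (.c 8 (.c 48 .nil))) (.r 16 (.r 13057 .nil)))) (.node (.I .jac (.c 0 (.c 18497 (.c 24 .nil))) (.r 16 (.r 13057 .nil))) (.I .jac (.c 0 (.c 8 (.c 48 .nil))) (.b 24 (.r 16 (.r 13057 .nil))))))) (.node (.node (.node (.I .ass (.c 59109062884628932425 (.c 16 (.c 13057 .nil))) .nil) (.I .ass (.c 2105481 (.c 18625 (.c 13057 .nil))) .nil)) (.node (.I .jac (.c 0 (.c 8 (.c 32 .nil))) (.b 15038498931046793 .nil)) (.I .adp (.c 8 (.c 32 (.c 40 .nil))) (.b 9025011228269385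 .nil)))) (.node (.node (.I .adp (.c 8 (.c 32 (.c 40 .nil))) (.b 59109068451510808329 .nil)) (.I .adp (.c 8 (.c 32 (.c 40 .nil))) (.b 9024908047478793 .nil))) (.node (.I .jac (.c 0 (.c 8 (.c 32 .nil))) (.b 60774626746934420321 .nil)) (.I .adp (.c 18561 (.c 24 (.c 40 .nil))) (.b 2105609 .nil)))))) (.node (.node (.node (.node (.I .adp (.c 18561 (.c 24 (.c 40 .nil))) (.b 537002057 .nil)) (.I .adp (.c 18561 (.c 24 (.c 8257 .nil))) (.b 12801 .nil))) (.node (.I .tdb (.c 513 (.c 32 (.c 18753 (.c 24 .nil)))) (.l 16 .nil)) (.I .tdb (.c 0 (.c 8 (.c 24 (.c 18753 .nil)))) (.b 32 (.l 16 .nil))))) (.node (.node (.I .jac (.c 2105609 (.c 40 (.c 48 .nil))) (.l 24 (.l 16 .nil))) (.I .tdp (.c 24 (.c 18753 (.c 16 (.c 2105609 .nil)))) .nil)) (.node (.I .tdb (.c 513 (.c 32 (.c 16 (.c 24 .nil)))) (.l 18753 .nil)) (.I .tdb (.c 0 (.c 8 (.c 16 (.c 24 .nil)))) (.b 32 (.l 18753 .nil)))))) (.node (.node (.node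 (.I .com (.c 31637737730141993933194546057 (.c 18753 .nil)) .nil) (.I .tdb (.c 40 (.c 48 (.c 8 (.c 16 .nil)))) (.b 0 (.b 32 (.r 24 .nil))))) (.node (.I .tdb (.c 0 (.c 8 (.c 16 (.c 24 .nil)))) (.b 32 (.b 18753 .nil))) (.I .tdb (.c 40 (.c 48 (.c 8 (.c 24 .nil)))) (.b 8193 (.l 16 .nil))))) (.node (.node (.I .tdb (.c 8 (.c 8193 (.c 18753 (.c 24 .nil)))) (.l 16 .nil)) (.I .tdb (.c 0 (.c 32 (.c 18753 (.c 24 .nil)))) (.b 8 (.l 16 .nil)))) (.node (.I .jac (.c 537002057 (.c 40 (.c 48 .nil))) (.l 24 (.l 16 .nil))) (.I .com (.c 42576872605845448752433331259473584137 (.c 24 .nil)) (.l 16 .nil))))))) (.node (.node (.node (.node (.node (.I .ass (.c 16 (.c 2306969673777850185 (.c 18753 .nil))) .nil) (.I .ass (.c 2306969673777850185 (.c 16 (.c 18753 .nil))) .nil)) (.node (.I .com (.c 16 (.c 2306969673777850185 .nil)) (.r 18753 .nil)) (.I .tdb (.c 8 (.c 8193 (.c 16 (.c 24 .nil)))) (.l 18753 .nil))))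 (.node (.node (.I .tdb (.c 8 (.c 8193 (.c 16 (.c 24 .nil)))) (.b 18753 .nil)) (.I .adp (.c 0 (.c 32 (.c 43356803 .nil))) (.b 12865 .nil))) (.node (.I .adp (.c 0 (.c 32 (.c 40 .nil))) (.b 15038498931046537 .nil)) (.I .adp (.c 0 (.c 32 (.c 40 .nil))) (.b 15038454533713097 .nil))))) (.node (.node (.node (.I .adp (.c 0 (.c 32 (.c 40 .nil))) (.b 14832803796618505 .nil)) (.I .adp (.c 0 (.c 8 (.c 43356803 .nil))) (.b 13057 .nil))) (.node (.I .tdb (.c 16 (.c 48 (.c 0 (.c 24 .nil)))) (.r 8 (.b 13057 .nil))) (.I .tdb (.c 24 (.c 48 (.c 0 (.c 16 .nil)))) (.r 8 (.b 13057 .nil))))) (.node (.node (.I .adp (.c 18433 (.c 4674 (.c 40 .nil))) (.b 8321 .nil)) (.I .adp (.c 8 (.c 24 (.c 40 .nil))) (.l 18433 (.b 8321 .nil)))) (.node (.I .tdp (.c 8 (.c 24 (.c 18433 (.c 40 .nil)))) (.b 8321 .nil)) (.I .tdb (.c 0 (.c 48 (.c 8 (.c 40 .nil)))) (.l 24 (.b 8321 .nil))))))) (.node (.node (.node (.node (.I .adp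 (.c 18433 (.c 4674 (.c 32 .nil))) (.b 12929 .nil)) (.I .adp (.c 8 (.c 24 (.c 32 .nil))) (.l 18433 (.b 12929 .nil)))) (.node (.I .tdp (.c 8 (.c 24 (.c 18433 (.c 32 .nil)))) (.b 12929 .nil)) (.I .tdb (.c 0 (.c 48 (.c 8 (.c 32 .nil)))) (.l 24 (.b 12929 .nil))))) (.node (.node (.I .adp (.c 18433 (.c 4674 (.c 16 .nil))) (.b 13057 .nil)) (.I .adp (.c 8 (.c 24 (.c 16 .nil))) (.l 18433 (.b 13057 .nil)))) (.node (.I .tdp (.c 8 (.c 24 (.c 18433 (.c 16 .nil)))) (.b 13057 .nil)) (.I .tdb (.c 0 (.c 48 (.c 16 (.c 24 .nil)))) (.r 8 (.b 13057 .nil)))))) (.node (.node (.node (.I .jac (.c 16 (.c 24 (.c 48 .nil))) (.l 513 (.b 13057 .nil))) (.I .adp (.c 0 (.c 174695817 (.c 40 .nil))) (.b 8321 .nil))) (.node (.I .adp (.c 0 (.c 174695817 (.c 32 .nil))) (.b 12929 .nil)) (.I .adp (.c 0 (.c 174695817 (.c 16 .nil))) (.b 13057 .nil)))) (.node (.node (.I .com (.c 20685315 (.c 18625 .nil)) (.b 8321 .nil)) (.I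 .adp (.c 8 (.c 18625 (.c 16 .nil))) (.l 0 (.b 13057 .nil)))) (.node (.I .jac (.c 16 (.c 24 (.c 48 .nil))) (.l 8 (.l 0 (.b 13057 .nil)))) (.I .tdp (.c 8 (.c 18625 (.c 0 (.c 16 .nil)))) (.b 13057 .nil))))))))

noncomputable def c2_271 : Tr := (.node (.node (.node (.node (.node (.node (.I .jac (.c 2756085961 (.c 32 (.c 40 .nil))) (.l 8 (.l 0 .nil))) (.I .adp (.c 0 (.c 257801454173641418 (.c 13057 .nil))) .nil)) (.node (.I .jac (.c 0 (.c 32 (.c 40 .nil))) (.r 257801454173641418 .nil)) (.I .tdp (.c 8 (.c 179513737 (.c 0 (.c 13057 .nil)))) .nil))) (.node (.node (.I .tdb (.c 32 (.c 40 (.c 0 (.c 8 .nil)))) (.l 179513737 .nil)) (.I .tdb (.c 32 (.c 40 (.c 179513737 (.c 0 .nil)))) (.r 8 .nil))) (.node (.I .tdb (.c 32 (.c 40 (.c 0 (.c 8 .nil)))) (.b 179513737 .nil)) (.I .com (.c 427058636821845719787018514561732489 (.c 12929 .nil)) .nil)))) (.node (.node (.node (.I .adp (.c 8321 (.c 40 (.c 231046163358603977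 .nil))) .nil) (.I .com (.c 27951050520792140879796950267161731045257 (.c 12929 .nil)) .nil)) (.node (.I .adp (.c 8321 (.c 40 (.c 59109062884628932425 .nil))) .nil) (.I .adp (.c 12929 (.c 32 (.c 35473026505545 .nil))) .nil))) (.node (.node (.I .adp (.c 8321 (.c 40 (.c 35473026505545 .nil))) .nil) (.I .adp (.c 12929 (.c 32 (.c 231045293249046537 .nil))) .nil)) (.node (.I .adp (.c 12929 (.c 32 (.c 59109068451510808265 .nil))) .nil) (.I .com (.c 27951055785643122726429632160908738482121 (.c 8321 .nil)) .nil))))) (.node (.node (.node (.node (.I .adp (.c 12929 (.c 32 (.c 35466557976585 .nil))) .nil) (.I .adp (.c 8321 (.c 40 (.c 35466557976585 .nil))) .nil)) (.node (.I .adp (.c 8321 (.c 40 (.c 15038454533712969 .nil))) .nil) (.I .adp (.c 2718203977 (.c 24 (.c 1337272585 .nil))) .nil))) (.node (.node (.I .jac (.c 2718203977 (.c 12929 (.c 32 .nil))) (.r 24 .nil)) (.I .jac (.c 2718203977 (.c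 16 (.c 40 .nil))) (.b 32 (.r 24 .nil)))) (.node (.I .tdb (.c 8 (.c 48 (.c 16 (.c 24 .nil)))) (.b 1311027474 .nil)) (.I .adp (.c 12929 (.c 32 (.c 15038410136445065 .nil))) .nil)))) (.node (.node (.node (.I .adp (.c 12929 (.c 32 (.c 59109062906374564242 .nil))) .nil) (.I .adp (.c 2718203977 (.c 24 (.c 32 .nil))) (.l 12929 .nil))) (.node (.I .tdb (.c 8 (.c 18433 (.c 16 (.c 24 .nil)))) (.b 40 (.r 32 .nil))) (.I .tdb (.c 0 (.c 48 (.c 16 (.c 24 .nil)))) (.b 8 (.b 40 (.r 32 .nil)))))) (.node (.node (.I .tdb (.c 16 (.c 40 (.c 2718203977 (.c 24 .nil)))) (.r 32 .nil)) (.I .adp (.c 2718203977 (.c 24 (.c 12929 .nil))) (.r 32 .nil))) (.node (.I .jac (.c 2718203977 (.c 16 (.c 40 .nil))) (.r 24 (.r 32 .nil))) (.I .ass (.c 27951050520792141000852311054881784782601 (.c 24 (.c 32 .nil))) .nil)))))) (.node (.node (.node (.node (.node (.I .ass (.c 27951050520792140819269269873301704274889 (.c 24 (.c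 32 .nil))) .nil) (.I .ass (.c 2718203977 (.c 1337272521 (.c 32 .nil))) .nil)) (.node (.I .tdp (.c 2718203977 (.c 24 (.c 32 (.c 12929 .nil)))) .nil) (.I .tdb (.c 16 (.c 40 (.c 2718203977 (.c 32 .nil)))) (.l 24 .nil)))) (.node (.node (.I .ass (.c 12929 (.c 169943305 (.c 18497 .nil))) .nil) (.I .ass (.c 169943305 (.c 12929 (.c 18497 .nil))) .nil)) (.node (.I .com (.c 12929 (.c 169943305 .nil)) (.r 18497 .nil)) (.I .adp (.c 8321 (.c 40 (.c 59109062906374564242 .nil))) .nil)))) (.node (.node (.node (.I .adp (.c 2718203977 (.c 24 (.c 40 .nil))) (.l 8321 .nil)) (.I .ass (.c 8321 (.c 59109062884628932553 (.c 24 .nil))) .nil)) (.node (.I .com (.c 8321 (.c 59109062884628932553 .nil)) (.r 24 .nil)) (.I .tdb (.c 8 (.c 18433 (.c 16 (.c 24 .nil)))) (.b 32 (.r 40 .nil))))) (.node (.node (.I .tdb (.c 0 (.c 48 (.c 16 (.c 24 .nil)))) (.b 8 (.b 32 (.r 40 .nil)))) (.I .tdb (.c 16 (.c 32 (.c 2718203977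 (.c 24 .nil)))) (.r 40 .nil))) (.node (.I .adp (.c 2718203977 (.c 24 (.c 8321 .nil))) (.r 40 .nil)) (.I .jac (.c 2718203977 (.c 16 (.c 32 .nil))) (.r 24 (.r 40 .nil))))))) (.node (.node (.node (.node (.I .ass (.c 27951050520792140940324630661021757881097 (.c 24 (.c 40 .nil))) .nil) (.I .ass (.c 27951050520792140819269269873301704274825 (.c 24 (.c 40 .nil))) .nil)) (.node (.I .ass (.c 2718203977 (.c 553912521 (.c 40 .nil))) .nil) (.I .tdp (.c 2718203977 (.c 24 (.c 40 (.c 8321 .nil)))) .nil))) (.node (.node (.I .tdb (.c 16 (.c 32 (.c 2718203977 (.c 40 .nil)))) (.l 24 .nil)) (.I .ass (.c 8321 (.c 169943369 (.c 18497 .nil))) .nil)) (.node (.I .ass (.c 169943369 (.c 8321 (.c 18497 .nil))) .nil) (.I .com (.c 8321 (.c 169943369 .nil)) (.r 18497 .nil))))) (.node (.node (.node (.I .adp (.c 4673 (.c 48 (.c 16 .nil))) (.b 1310925065 .nil)) (.I .ass (.c 12929 (.c 18433 (.c 174695689 .nil)))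 .nil)) (.node (.I .com (.c 12929 (.c 18433 .nil)) (.r 174695689 .nil)) (.I .ass (.c 8321 (.c 18433 (.c 174695753 .nil))) .nil))) (.node (.node (.I .com (.c 8321 (.c 18433 .nil)) (.r 174695753 .nil)) (.I .adp (.c 8 (.c 2756085961 (.c 1310925065 .nil))) .nil)) (.node (.I .adp (.c 8 (.c 2756085961 (.c 537002313 .nil))) .nil) (.I .adp (.c 8 (.c 179513737 (.c 537002313 .nil))) .nil)))))))

noncomputable def c2_272 : Tr := (.node (.node (.node (.node (.node (.node (.I .com (.c 2718204105 (.c 8 .nil)) (.b 1337272585 .nil)) (.I .jac (.c 21307395 (.c 18561 (.c 24 .nil))) (.l 8 .nil))) (.node (.I .adp (.c 12801 (.c 32 (.c 60768078595370348234 .nil))) .nil) (.I .adp (.c 8 (.c 2756085961 (.c 32 .nil))) (.l 12801 .nil)))) (.node (.node (.I .tdb (.c 16 (.c 48 (.c 0 (.c 8 .nil)))) (.b 24 (.b 40 (.r 32 .nil)))) (.I .tdb (.c 0 (.c 40 (.c 2756085961 (.c 8 .nil)))) (.r 32 .nil))) (.node (.I .tdb (.c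 24 (.c 18561 (.c 0 (.c 8 .nil)))) (.b 40 (.r 32 .nil))) (.I .adp (.c 8 (.c 2756085961 (.c 12801 .nil))) (.r 32 .nil))))) (.node (.node (.node (.I .jac (.c 12801 (.c 18561 (.c 24 .nil))) (.l 8 (.r 32 .nil))) (.I .jac (.c 12801 (.c 16 (.c 48 .nil))) (.b 24 (.l 8 (.r 32 .nil))))) (.node (.I .com (.c 1512103782441961050885067571858279445321 (.c 8 .nil)) (.r 32 .nil)) (.I .ass (.c 1310924873 (.c 2756085961 (.c 32 .nil))) .nil))) (.node (.node (.I .tdp (.c 8 (.c 2756085961 (.c 32 (.c 12801 .nil)))) .nil) (.I .tdb (.c 0 (.c 40 (.c 8 (.c 32 .nil)))) (.l 2756085961 .nil))) (.node (.I .com (.c 1512102601296135255437272766182275864585 (.c 8 .nil)) (.r 32 .nil)) (.I .adp (.c 8193 (.c 40 (.c 60768078595370348234 .nil))) .nil))))) (.node (.node (.node (.node (.I .adp (.c 8 (.c 2756085961 (.c 40 .nil))) (.l 8193 .nil)) (.I .tdb (.c 16 (.c 48 (.c 0 (.c 8 .nil)))) (.b 24 (.b 32 (.r 40 .nil))))) (.node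 (.I .tdb (.c 0 (.c 32 (.c 2756085961 (.c 8 .nil)))) (.r 40 .nil)) (.I .tdb (.c 24 (.c 18561 (.c 0 (.c 8 .nil)))) (.b 32 (.r 40 .nil))))) (.node (.node (.I .adp (.c 8 (.c 2756085961 (.c 8193 .nil))) (.r 40 .nil)) (.I .jac (.c 8193 (.c 18561 (.c 24 .nil))) (.l 8 (.r 40 .nil)))) (.node (.I .jac (.c 8193 (.c 16 (.c 48 .nil))) (.b 24 (.l 8 (.r 40 .nil)))) (.I .com (.c 42576974092320099556365595025629983561 (.c 8 .nil)) (.r 40 .nil))))) (.node (.node (.node (.I .ass (.c 537002057 (.c 2756085961 (.c 40 .nil))) .nil) (.I .tdp (.c 8 (.c 2756085961 (.c 40 (.c 8193 .nil)))) .nil)) (.node (.I .tdb (.c 0 (.c 32 (.c 8 (.c 40 .nil)))) (.l 2756085961 .nil)) (.I .com (.c 42576892903125861400833495191760328713 (.c 8 .nil)) (.r 40 .nil)))) (.node (.node (.I .com (.c 2718204105 (.c 8 .nil)) (.b 1337376018 .nil)) (.I .adp (.c 12929 (.c 32 (.c 59109068473256441106 .nil))) .nil)) (.node (.I .adp (.c 2718204105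 (.c 8 (.c 32 .nil))) (.l 12929 .nil)) (.I .ass (.c 12929 (.c 59109068451510808457 (.c 8 .nil))) .nil)))))) (.node (.node (.node (.node (.node (.I .ass (.c 59109068451510808457 (.c 12929 (.c 8 .nil))) .nil) (.I .com (.c 12929 (.c 59109068451510808457 .nil)) (.r 8 .nil))) (.node (.I .com (.c 8 (.c 12929 .nil)) (.l 59109068451510808457 .nil)) (.I .tdb (.c 16 (.c 40 (.c 2718204105 (.c 8 .nil)))) (.r 32 .nil)))) (.node (.node (.I .adp (.c 2718204105 (.c 8 (.c 12929 .nil))) (.r 32 .nil)) (.I .jac (.c 8 (.c 16 (.c 40 .nil))) (.l 2718204105 (.r 32 .nil)))) (.node (.I .jac (.c 2718204105 (.c 16 (.c 40 .nil))) (.r 8 (.r 32 .nil))) (.I .tdp (.c 2718204105 (.c 8 (.c 32 (.c 12929 .nil)))) .nil)))) (.node (.node (.node (.I .ass (.c 12929 (.c 169943433 (.c 8257 .nil))) .nil) (.I .com (.c 12929 (.c 169943433 .nil)) (.r 8257 .nil))) (.node (.I .com (.c 2718204105 (.c 8 .nil)) (.b 553979218 .nil))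 (.I .adp (.c 8321 (.c 40 (.c 59109068473256441106 .nil))) .nil))) (.node (.node (.I .adp (.c 2718204105 (.c 8 (.c 40 .nil))) (.l 8321 .nil)) (.I .ass (.c 8321 (.c 59109068451510808521 (.c 8 .nil))) .nil)) (.node (.I .ass (.c 59109068451510808521 (.c 8321 (.c 8 .nil))) .nil) (.I .com (.c 8321 (.c 59109068451510808521 .nil)) (.r 8 .nil)))))) (.node (.node (.node (.node (.I .com (.c 8 (.c 8321 .nil)) (.l 59109068451510808521 .nil)) (.I .tdb (.c 16 (.c 32 (.c 2718204105 (.c 8 .nil)))) (.r 40 .nil))) (.node (.I .adp (.c 2718204105 (.c 8 (.c 8321 .nil))) (.r 40 .nil)) (.I .jac (.c 8 (.c 16 (.c 32 .nil))) (.l 2718204105 (.r 40 .nil))))) (.node (.node (.I .jac (.c 2718204105 (.c 16 (.c 32 .nil))) (.r 8 (.r 40 .nil))) (.I .tdp (.c 2718204105 (.c 8 (.c 40 (.c 8321 .nil)))) .nil)) (.node (.I .ass (.c 8321 (.c 169943433 (.c 12865 .nil))) .nil) (.I .com (.c 8321 (.c 169943433 .nil)) (.r 12865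 .nil))))) (.node (.node (.node (.I .adp (.c 24 (.c 48 (.c 16 .nil))) (.l 8 (.b 1310925065 .nil))) (.I .com (.c 18561 (.c 24 .nil)) (.l 8 (.b 1310925065 .nil)))) (.node (.I .tdb (.c 16 (.c 48 (.c 8 (.c 32 .nil)))) (.b 12801 (.l 24 .nil))) (.I .adp (.c 8 (.c 179551634 (.c 1310925065 .nil))) .nil))) (.node (.node (.I .adp (.c 24 (.c 48 (.c 16 .nil))) (.l 8 (.b 537002313 .nil))) (.I .com (.c 18561 (.c 24 .nil)) (.l 8 (.b 537002313 .nil)))) (.node (.I .adp (.c 8 (.c 2756234450 (.c 537002313 .nil))) .nil) (.I .adp (.c 18561 (.c 24 (.c 537002313 .nil))) (.l 8 .nil))))))))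

noncomputable def c2_273 : Tr := (.node (.node (.node (.node (.node (.node (.I .tdb (.c 40 (.c 8193 (.c 18561 (.c 8 .nil)))) (.l 24 .nil)) (.I .tdb (.c 0 (.c 32 (.c 18561 (.c 8 .nil)))) (.b 40 (.l 24 .nil)))) (.node (.I .tdb (.c 16 (.c 48 (.c 8 (.c 32 .nil)))) (.b 0 (.b 40 (.l 24 .nil)))) (.I .tdb (.c 40 (.c 8193 (.c 8 (.c 24 .nil)))) (.b 18561 .nil)))) (.node (.node (.I .tdb (.c 0 (.c 32 (.c 8 (.c 24 .nil)))) (.b 40 (.b 18561 .nil))) (.I .jac (.c 15246236343241801 (.c 16 (.c 40 .nil))) (.l 24 .nil))) (.node (.I .tdb (.c 0 (.c 48 (.c 8 (.c 40 .nil)))) (.b 8321 (.l 24 .nil))) (.I .adp (.c 16 (.c 40 (.c 32 .nil))) (.b 231046163358603977 .nil))))) (.node (.node (.node (.I .adp (.c 16 (.c 13057 (.c 231046163358603977 .nil))) .nil) (.I .jac (.c 231046163358603977 (.c 32 (.c 40 .nil))) (.l 16 .nil))) (.node (.I .adp (.c 16 (.c 40 (.c 32 .nil))) (.b 59109062884628932425 .nil)) (.I .adp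 (.c 16 (.c 13057 (.c 59109062884628932425 .nil))) .nil))) (.node (.node (.I .jac (.c 59109062884628932425 (.c 32 (.c 40 .nil))) (.l 16 .nil)) (.I .com (.c 6250089801726996879207608765537404554630176383143787888342765416259476986847944585 (.c 16 .nil)) .nil)) (.node (.I .adp (.c 16 (.c 40 (.c 32 .nil))) (.b 35473026505545 .nil)) (.I .adp (.c 16 (.c 13057 (.c 231045293249046537 .nil))) .nil))))) (.node (.node (.node (.node (.I .adp (.c 16 (.c 40 (.c 174695817 .nil))) (.b 8193 .nil)) (.I .jac (.c 0 (.c 4673 (.c 48 .nil))) (.b 1337479457 .nil))) (.node (.I .jac (.c 0 (.c 8 (.c 24 .nil))) (.b 48 (.b 1337479457 .nil))) (.I .adp (.c 16 (.c 40 (.c 32 .nil))) (.b 59109068451510808265 .nil)))) (.node (.node (.I .adp (.c 16 (.c 13057 (.c 59109068451510808265 .nil))) .nil) (.I .jac (.c 59109068451510808265 (.c 32 (.c 40 .nil))) (.l 16 .nil))) (.node (.I .com (.c 6250092156257071077051883933235446197637335784746741053747322710812860632293269385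 (.c 16 .nil)) .nil) (.I .adp (.c 16 (.c 40 (.c 32 .nil))) (.b 35466557976585 .nil))))) (.node (.node (.node (.I .adp (.c 16 (.c 13057 (.c 15038454533712969 .nil))) .nil) (.I .jac (.c 15038454533712969 (.c 32 (.c 40 .nil))) (.l 16 .nil))) (.node (.I .adp (.c 16 (.c 13057 (.c 15038410136445065 .nil))) .nil) (.I .jac (.c 15038410136445065 (.c 32 (.c 40 .nil))) (.l 16 .nil)))) (.node (.node (.I .tdb (.c 32 (.c 40 (.c 2718203977 (.c 24 .nil)))) (.l 16 .nil)) (.I .tdb (.c 32 (.c 40 (.c 2105737 (.c 24 .nil)))) (.l 16 .nil))) (.node (.I .ass (.c 16 (.c 231045989336561545 (.c 18497 .nil))) .nil) (.I .ass (.c 231045989336561545 (.c 16 (.c 18497 .nil))) .nil)))))) (.node (.node (.node (.node (.node (.I .com (.c 16 (.c 231045989336561545 .nil)) (.r 18497 .nil)) (.I .com (.c 18497 (.c 16 .nil)) (.l 231045989336561545 .nil))) (.node (.I .ass (.c 16 (.c 231045815314584521 (.c 18497 .nil))) .nil)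 (.I .ass (.c 231045815314584521 (.c 16 (.c 18497 .nil))) .nil))) (.node (.node (.I .com (.c 16 (.c 231045815314584521 .nil)) (.r 18497 .nil)) (.I .com (.c 18497 (.c 16 .nil)) (.l 231045815314584521 .nil))) (.node (.I .adp (.c 4673 (.c 48 (.c 32 .nil))) (.b 1310924937 .nil)) (.I .jac (.c 14629225721520393 (.c 32 (.c 40 .nil))) (.l 16 .nil))))) (.node (.node (.node (.I .jac (.c 4673 (.c 32 (.c 40 .nil))) (.l 18433 (.l 16 .nil))) (.I .ass (.c 16 (.c 59109074018392946569 (.c 4673 .nil))) .nil)) (.node (.I .com (.c 16 (.c 59109074018392946569 .nil)) (.r 4673 .nil)) (.I .ass (.c 16 (.c 18433 (.c 244148848929896329 .nil))) .nil))) (.node (.node (.I .ass (.c 18433 (.c 16 (.c 244148848929896329 .nil))) .nil) (.I .com (.c 16 (.c 18433 .nil)) (.r 244148848929896329 .nil))) (.node (.I .ass (.c 16 (.c 18433 (.c 244148670041478089 .nil))) .nil) (.I .ass (.c 18433 (.c 16 (.c 244148670041478089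 .nil))) .nil))))) (.node (.node (.node (.node (.I .com (.c 16 (.c 18433 .nil)) (.r 244148670041478089 .nil)) (.I .ass (.c 16 (.c 169943113 (.c 1363882377 .nil))) .nil)) (.node (.I .ass (.c 169943113 (.c 16 (.c 1363882377 .nil))) .nil) (.I .com (.c 16 (.c 169943113 .nil)) (.r 1363882377 .nil)))) (.node (.node (.I .adp (.c 2105545 (.c 48 (.c 13057 .nil))) (.l 16 .nil)) (.I .adp (.c 8 (.c 18625 (.c 32 .nil))) (.b 33587529 .nil))) (.node (.I .adp (.c 8 (.c 18625 (.c 32 .nil))) (.b 20891651 .nil)) (.I .adp (.c 8 (.c 18625 (.c 32 .nil))) (.b 1311027346 .nil))))) (.node (.node (.node (.I .adp (.c 169943433 (.c 8 (.c 13057 .nil))) (.l 16 .nil)) (.I .jac (.c 8 (.c 32 (.c 40 .nil))) (.l 169943433 (.l 16 .nil)))) (.node (.I .jac (.c 169943433 (.c 32 (.c 40 .nil))) (.r 8 (.l 16 .nil))) (.I .ass (.c 16 (.c 427058636821846666152103631404146569 (.c 8 .nil))) .nil))) (.node (.node (.I .com (.c 16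 (.c 427058636821846666152103631404146569 .nil)) (.r 8 .nil)) (.I .ass (.c 16 (.c 427058636821846429560832352193444809 (.c 8 .nil))) .nil)) (.node (.I .com (.c 16 (.c 427058636821846429560832352193444809 .nil)) (.r 8 .nil)) (.I .adp (.c 513 (.c 18625 (.c 13057 .nil))) (.l 16 .nil))))))))

noncomputable def c2_274 : Tr := (.node (.node (.node (.node (.node (.node (.I .jac (.c 18625 (.c 32 (.c 40 .nil))) (.l 513 (.l 16 .nil))) (.I .jac (.c 513 (.c 32 (.c 40 .nil))) (.r 18625 (.l 16 .nil)))) (.node (.I .ass (.c 16 (.c 513 (.c 61610564378042824585 .nil))) .nil) (.I .ass (.c 513 (.c 16 (.c 61610564378042824585 .nil))) .nil))) (.node (.node (.I .com (.c 16 (.c 513 .nil)) (.r 61610564378042824585 .nil)) (.I .ass (.c 16 (.c 513 (.c 61610561536314528713 .nil))) .nil)) (.node (.I .ass (.c 513 (.c 16 (.c 61610561536314528713 .nil))) .nil) (.I .com (.c 16 (.c 513 .nil)) (.r 61610561536314528713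 .nil))))) (.node (.node (.node (.I .tdb (.c 32 (.c 48 (.c 16 (.c 24 .nil)))) (.b 12801 (.l 8 .nil))) (.I .adp (.c 24 (.c 18689 (.c 1310924937 .nil))) (.l 8 .nil))) (.node (.I .tdb (.c 16 (.c 12801 (.c 8 (.c 24 .nil)))) (.l 18689 .nil)) (.I .adp (.c 8 (.c 18626 (.c 32 .nil))) (.b 33587529 .nil)))) (.node (.node (.I .tdb (.c 2049 (.c 40 (.c 18689 (.c 24 .nil)))) (.l 8 .nil)) (.I .tdb (.c 0 (.c 16 (.c 18689 (.c 24 .nil)))) (.b 40 (.l 8 .nil)))) (.node (.I .tdb (.c 32 (.c 48 (.c 0 (.c 24 .nil)))) (.b 16 (.b 40 (.l 8 .nil)))) (.I .tdb (.c 2049 (.c 40 (.c 18689 (.c 8 .nil)))) (.r 24 .nil)))))) (.node (.node (.node (.node (.I .tdb (.c 0 (.c 16 (.c 18689 (.c 8 .nil)))) (.b 40 (.r 24 .nil))) (.I .tdb (.c 32 (.c 48 (.c 0 (.c 8 .nil)))) (.b 16 (.b 40 (.r 24 .nil))))) (.node (.I .tdb (.c 2049 (.c 40 (.c 8 (.c 24 .nil)))) (.b 18689 .nil)) (.I .tdb (.c 0 (.c 16 (.c 8 (.c 24 .nil)))) (.b 40 (.b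 18689 .nil))))) (.node (.node (.I .adp (.c 0 (.c 40 (.c 2737112265 .nil))) (.b 8321 .nil)) (.I .adp (.c 0 (.c 40 (.c 174695817 .nil))) (.b 8321 .nil))) (.node (.I .adp (.c 0 (.c 40 (.c 43356739 .nil))) (.b 8321 .nil)) (.I .tdb (.c 8 (.c 48 (.c 16 (.c 24 .nil)))) (.b 1363881994 .nil))))) (.node (.node (.node (.I .adp (.c 4673 (.c 48 (.c 12801 .nil))) (.b 8321 .nil)) (.I .tdb (.c 24 (.c 48 (.c 8 (.c 32 .nil)))) (.b 1337272330 .nil))) (.node (.I .adp (.c 8 (.c 18625 (.c 32 .nil))) (.b 1337272330 .nil)) (.I .adp (.c 16 (.c 32 (.c 40 .nil))) (.b 35473026505545 .nil)))) (.node (.node (.I .adp (.c 16 (.c 32 (.c 40 .nil))) (.b 231045293249046537 .nil)) (.I .jac (.c 18433 (.c 8 (.c 24 .nil))) (.b 554045793 .nil))) (.node (.I .adp (.c 16 (.c 32 (.c 40 .nil))) (.b 35466557976585 .nil)) (.I .adp (.c 16 (.c 32 (.c 43356739 .nil))) (.b 12801 .nil))))))) (.node (.node (.node (.node (.node (.I .adp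 (.c 16 (.c 32 (.c 40 .nil))) (.b 15038454533712969 .nil)) (.I .adp (.c 8 (.c 18625 (.c 40 .nil))) (.b 33587465 .nil))) (.node (.I .adp (.c 8 (.c 18625 (.c 40 .nil))) (.b 8652803 .nil)) (.I .tdb (.c 24 (.c 48 (.c 8 (.c 40 .nil)))) (.b 537067666 .nil)))) (.node (.node (.I .adp (.c 8 (.c 18625 (.c 40 .nil))) (.b 537067666 .nil)) (.I .tdb (.c 16 (.c 8193 (.c 18753 (.c 24 .nil)))) (.l 8 .nil))) (.node (.I .jac (.c 537002121 (.c 40 (.c 48 .nil))) (.l 24 (.l 8 .nil))) (.I .com (.c 42576892903125868487846022299823817673 (.c 24 .nil)) (.l 8 .nil))))) (.node (.node (.node (.I .com (.c 42576892903125866125508513263802589193 (.c 24 .nil)) (.l 8 .nil)) (.I .tdb (.c 16 (.c 8193 (.c 8 (.c 24 .nil)))) (.l 18753 .nil))) (.node (.I .adp (.c 8 (.c 18626 (.c 40 .nil))) (.b 33587465 .nil)) (.I .tdb (.c 2049 (.c 32 (.c 18753 (.c 24 .nil)))) (.l 8 .nil)))) (.node (.node (.I .tdb (.c 0 (.c 16 (.c 18753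 (.c 24 .nil)))) (.b 32 (.l 8 .nil))) (.I .tdb (.c 40 (.c 48 (.c 0 (.c 24 .nil)))) (.b 16 (.b 32 (.l 8 .nil))))) (.node (.I .jac (.c 33587465 (.c 40 (.c 48 .nil))) (.l 24 (.l 8 .nil))) (.I .tdb (.c 2049 (.c 32 (.c 8 (.c 24 .nil)))) (.l 18753 .nil)))))) (.node (.node (.node (.node (.I .tdb (.c 0 (.c 16 (.c 8 (.c 24 .nil)))) (.b 32 (.l 18753 .nil))) (.I .com (.c 28374916743629853698454908809 (.c 18753 .nil)) .nil)) (.node (.I .tdb (.c 2049 (.c 32 (.c 18753 (.c 8 .nil)))) (.r 24 .nil)) (.I .tdb (.c 0 (.c 16 (.c 18753 (.c 8 .nil)))) (.b 32 (.r 24 .nil))))) (.node (.node (.I .tdb (.c 40 (.c 48 (.c 0 (.c 8 .nil)))) (.b 16 (.b 32 (.r 24 .nil)))) (.I .adp (.c 0 (.c 32 (.c 43356739 .nil))) (.b 12929 .nil))) (.node (.I .tdb (.c 24 (.c 48 (.c 8 (.c 40 .nil)))) (.b 553912330 .nil)) (.I .adp (.c 8 (.c 18625 (.c 40 .nil))) (.b 553912330 .nil))))) (.node (.node (.node (.I .adp (.c 8 (.c 18625 (.c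 2049 .nil))) (.b 13057 .nil)) (.I .jac (.c 2049 (.c 24 (.c 48 .nil))) (.l 8 (.b 13057 .nil)))) (.node (.I .adp (.c 0 (.c 16 (.c 32 .nil))) (.b 61610553055532035169 .nil)) (.I .adp (.c 0 (.c 16 (.c 40 .nil))) (.b 61610553055532035105 .nil)))) (.node (.node (.I .adp (.c 0 (.c 16 (.c 2775125066 .nil))) (.b 13057 .nil)) (.I .adp (.c 8 (.c 18625 (.c 0 .nil))) (.r 16 (.b 13057 .nil)))) (.node (.I .jac (.c 0 (.c 24 (.c 48 .nil))) (.l 8 (.r 16 (.b 13057 .nil)))) (.I .com (.c 2718204105 (.c 8 .nil)) (.r 16 (.b 13057 .nil)))))))))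

noncomputable def c2_275 : Tr := (.node (.node (.node (.node (.node (.node (.I .com (.c 169943433 (.c 8 .nil)) (.r 16 (.b 13057 .nil))) (.I .ass (.c 513 (.c 18625 (.c 16 .nil))) (.b 13057 .nil))) (.node (.I .com (.c 16 (.c 18625 .nil)) (.l 513 (.b 13057 .nil))) (.I .adp (.c 8 (.c 18626 (.c 2049 .nil))) (.b 13057 .nil)))) (.node (.node (.I .tdb (.c 0 (.c 16 (.c 48 (.c 24 .nil)))) (.l 8 (.b 13057 .nil))) (.I .adp (.c 24 (.c 48 (.c 2049 .nil))) (.l 8 (.b 13057 .nil)))) (.node (.I .com (.c 33587593 (.c 24 .nil)) (.l 8 (.b 13057 .nil))) (.I .adp (.c 18433 (.c 24 (.c 16 .nil))) (.b 1324066057 .nil))))) (.node (.node (.node (.I .tdb (.c 0 (.c 48 (.c 16 (.c 24 .nil)))) (.b 1324168978 .nil)) (.I .tdb (.c 0 (.c 48 (.c 8 (.c 24 .nil)))) (.b 1337376018 .nil))) (.node (.I .tdb (.c 0 (.c 48 (.c 8 (.c 24 .nil)))) (.b 553979218 .nil)) (.I .adp (.c 0 (.c 2756085961 (.c 1324066057 .nil))) .nil)))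 (.node (.node (.I .jac (.c 0 (.c 12865 (.c 32 .nil))) (.r 2756085961 .nil)) (.I .jac (.c 0 (.c 8 (.c 40 .nil))) (.b 32 (.r 2756085961 .nil)))) (.node (.I .adp (.c 0 (.c 179513737 (.c 1324066057 .nil))) .nil) (.I .jac (.c 0 (.c 12865 (.c 32 .nil))) (.r 179513737 .nil)))))) (.node (.node (.node (.node (.I .jac (.c 0 (.c 8 (.c 40 .nil))) (.b 32 (.r 179513737 .nil))) (.I .jac (.c 2737112265 (.c 12929 (.c 32 .nil))) (.l 0 .nil))) (.node (.I .jac (.c 2737112265 (.c 16 (.c 40 .nil))) (.b 32 (.l 0 .nil))) (.I .adp (.c 0 (.c 174695817 (.c 1337272585 .nil))) .nil))) (.node (.node (.I .jac (.c 0 (.c 12929 (.c 32 .nil))) (.r 174695817 .nil)) (.I .jac (.c 0 (.c 16 (.c 40 .nil))) (.b 32 (.r 174695817 .nil)))) (.node (.I .jac (.c 2737112265 (.c 16 (.c 32 .nil))) (.b 40 (.l 0 .nil))) (.I .tdb (.c 4737 (.c 48 (.c 0 (.c 32 .nil)))) (.l 12865 .nil))))) (.node (.node (.node (.I .tdb (.c 16 (.c 24 (.c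 32 (.c 0 .nil)))) (.b 48 (.l 12865 .nil))) (.I .tdb (.c 24 (.c 18561 (.c 0 (.c 40 .nil)))) (.l 8257 .nil))) (.node (.I .tdb (.c 24 (.c 18497 (.c 0 (.c 32 .nil)))) (.l 12929 .nil)) (.I .ass (.c 12929 (.c 8193 (.c 174695817 .nil))) .nil))) (.node (.node (.I .ass (.c 8193 (.c 12929 (.c 174695817 .nil))) .nil) (.I .com (.c 12929 (.c 8193 .nil)) (.r 174695817 .nil))) (.node (.I .com (.c 59934268409707442121 (.c 8321 .nil)) (.l 0 .nil)) (.I .ass (.c 8321 (.c 12801 (.c 174695817 .nil))) .nil)))))) (.node (.node (.node (.node (.node (.I .ass (.c 12801 (.c 8321 (.c 174695817 .nil))) .nil) (.I .com (.c 8321 (.c 12801 .nil)) (.r 174695817 .nil))) (.node (.I .jac (.c 15456118887243977 (.c 8 (.c 32 .nil))) (.l 24 .nil)) (.I .tdb (.c 40 (.c 8257 (.c 0 (.c 24 .nil)))) (.b 18561 .nil)))) (.node (.node (.I .tdb (.c 8 (.c 32 (.c 0 (.c 24 .nil)))) (.b 40 (.b 18561 .nil))) (.I .jac (.c 15246191640313993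 (.c 16 (.c 40 .nil))) (.l 24 .nil))) (.node (.I .jac (.c 15456118887243913 (.c 16 (.c 32 .nil))) (.l 24 .nil)) (.I .adp (.c 16 (.c 40 (.c 2718204105 .nil))) (.b 8257 .nil))))) (.node (.node (.node (.I .adp (.c 16 (.c 40 (.c 169943433 .nil))) (.b 8257 .nil)) (.I .adp (.c 18433 (.c 24 (.c 32 .nil))) (.b 1324065929 .nil))) (.node (.I .adp (.c 0 (.c 18625 (.c 32 .nil))) (.b 35718473 .nil)) (.I .adp (.c 0 (.c 2737112265 (.c 13057 .nil))) (.l 16 .nil)))) (.node (.node (.I .jac (.c 0 (.c 32 (.c 40 .nil))) (.r 2737112265 (.l 16 .nil))) (.I .com (.c 2737112265 (.c 16 .nil)) (.l 1310925065 .nil))) (.node (.I .com (.c 2737112265 (.c 16 .nil)) (.l 537002313 .nil)) (.I .ass (.c 16 (.c 1310925065 (.c 174695817 .nil))) .nil))))) (.node (.node (.node (.node (.I .ass (.c 1310925065 (.c 16 (.c 174695817 .nil))) .nil) (.I .com (.c 16 (.c 1310925065 .nil)) (.r 174695817 .nil))) (.node (.I .ass (.c 16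 (.c 537002313 (.c 174695817 .nil))) .nil) (.I .ass (.c 537002313 (.c 16 (.c 174695817 .nil))) .nil))) (.node (.node (.I .com (.c 16 (.c 537002313 .nil)) (.r 174695817 .nil)) (.I .jac (.c 2803715 (.c 8 (.c 40 .nil))) (.l 18689 .nil))) (.node (.I .tdb (.c 16 (.c 12865 (.c 0 (.c 24 .nil)))) (.b 18689 .nil)) (.I .jac (.c 21099011 (.c 8 (.c 16 .nil))) (.l 18689 .nil))))) (.node (.node (.node (.I .adp (.c 8 (.c 40 (.c 169943433 .nil))) (.b 8321 .nil)) (.I .adp (.c 8 (.c 40 (.c 32 .nil))) (.b 15038410136445129 .nil))) (.node (.I .adp (.c 18433 (.c 24 (.c 12865 .nil))) (.b 8321 .nil)) (.I .tdb (.c 0 (.c 48 (.c 16 (.c 24 .nil)))) (.b 1363882058 .nil)))) (.node (.node (.I .tdb (.c 32 (.c 40 (.c 179513737 (.c 0 .nil)))) (.l 8 .nil)) (.I .adp (.c 0 (.c 179513737 (.c 13057 .nil))) (.l 8 .nil))) (.node (.I .jac (.c 0 (.c 32 (.c 40 .nil))) (.r 179513737 (.l 8 .nil))) (.I .adp (.c 16 (.c 32 (.c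 2718204105 .nil))) (.b 12865 .nil))))))))

noncomputable def c2_276 : Tr := (.node (.node (.node (.node (.node (.node (.I .adp (.c 16 (.c 32 (.c 43356675 .nil))) (.b 12865 .nil)) (.I .adp (.c 16 (.c 32 (.c 40 .nil))) (.b 15038410136445065 .nil))) (.node (.I .adp (.c 0 (.c 18625 (.c 40 .nil))) (.b 35718409 .nil)) (.I .tdb (.c 16 (.c 8257 (.c 0 (.c 24 .nil)))) (.l 18753 .nil)))) (.node (.node (.I .adp (.c 8 (.c 32 (.c 2718204105 .nil))) (.b 12929 .nil)) (.I .adp (.c 8 (.c 32 (.c 169943433 .nil))) (.b 12929 .nil))) (.node (.I .adp (.c 8 (.c 32 (.c 43356675 .nil))) (.b 12929 .nil)) (.I .tdb (.c 0 (.c 24 (.c 48 (.c 16 .nil)))) (.l 8 (.b 13057 .nil)))))) (.node (.node (.node (.I .adp (.c 0 (.c 18625 (.c 2113 .nil))) (.b 13057 .nil)) (.I .adp (.c 1310924937 (.c 32 (.c 2737112265 .nil))) .nil)) (.node (.I .adp (.c 8193 (.c 12929 (.c 174695817 .nil))) .nil) (.I .com (.c 59109068451510808457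 (.c 1324065929 .nil)) .nil))) (.node (.node (.I .adp (.c 35718473 (.c 32 (.c 2718204105 .nil))) .nil) (.I .com (.c 59109068451510808457 (.c 35718473 .nil)) .nil)) (.node (.I .jac (.c 2718204105 (.c 16 (.c 40 .nil))) (.l 8257 .nil)) (.I .adp (.c 35718473 (.c 32 (.c 169943433 .nil))) .nil))))) (.node (.node (.node (.node (.I .jac (.c 0 (.c 16 (.c 32 .nil))) (.r 40 (.b 2737112265 .nil))) (.I .adp (.c 12801 (.c 8321 (.c 2737112265 .nil))) .nil)) (.node (.I .adp (.c 33587465 (.c 40 (.c 2737112265 .nil))) .nil) (.I .jac (.c 8 (.c 16 (.c 32 .nil))) (.r 40 (.b 2718204105 .nil))))) (.node (.node (.I .jac (.c 2718204105 (.c 16 (.c 32 .nil))) (.l 12865 .nil)) (.I .adp (.c 545424521 (.c 40 (.c 2718204105 .nil))) .nil)) (.node (.I .com (.c 59109068451510808329 (.c 545424713 .nil)) .nil) (.I .adp (.c 2113 (.c 13057 (.c 2718204105 .nil))) .nil)))) (.node (.node (.node (.I .com (.c 545424713 (.c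 16 .nil)) (.b 169943433 .nil)) (.I .com (.c 1324066057 (.c 16 .nil)) (.b 169943433 .nil))) (.node (.I .adp (.c 1324066057 (.c 16 (.c 169943433 .nil))) .nil) (.I .adp (.c 545424713 (.c 16 (.c 169943433 .nil))) .nil))) (.node (.node (.I .adp (.c 16 (.c 13058 (.c 0 .nil))) (.b 2737112265 .nil)) (.I .adp (.c 32 (.c 40 (.c 0 .nil))) (.l 16 (.b 2737112265 .nil)))) (.node (.I .com (.c 12801 (.c 32 .nil)) (.l 16 (.b 2737112265 .nil))) (.I .com (.c 21307395 (.c 16 .nil)) (.b 2737112265 .nil))))))) (.node (.node (.node (.node (.node (.I .ass (.c 16 (.c 12801 (.c 32 .nil))) (.b 2737112265 .nil)) (.I .ass (.c 12801 (.c 16 (.c 32 .nil))) (.b 2737112265 .nil))) (.node (.I .com (.c 16 (.c 12801 .nil)) (.r 32 (.b 2737112265 .nil))) (.I .ass (.c 16 (.c 8193 (.c 40 .nil))) (.b 2737112265 .nil)))) (.node (.node (.I .ass (.c 8193 (.c 16 (.c 40 .nil))) (.b 2737112265 .nil)) (.I .com (.c 16 (.c 8193 .nil))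 (.r 40 (.b 2737112265 .nil)))) (.node (.I .adp (.c 20891651 (.c 32 (.c 2737112265 .nil))) .nil) (.I .adp (.c 8193 (.c 12930 (.c 2737112265 .nil))) .nil)))) (.node (.node (.node (.I .adp (.c 16 (.c 40 (.c 2737112265 .nil))) (.l 8193 .nil)) (.I .ass (.c 12865 (.c 16 (.c 32 .nil))) (.b 2718204105 .nil))) (.node (.I .com (.c 8652867 (.c 40 .nil)) (.b 2718204105 .nil)) (.I .adp (.c 21307459 (.c 16 (.c 2718204105 .nil))) .nil))) (.node (.node (.I .adp (.c 20891715 (.c 32 (.c 2718204105 .nil))) .nil) (.I .com (.c 59109068451510808457 (.c 20891715 .nil)) .nil)) (.node (.I .adp (.c 12865 (.c 8322 (.c 2718204105 .nil))) .nil) (.I .adp (.c 16 (.c 32 (.c 2718204105 .nil))) (.l 12865 .nil)))))) (.node (.node (.node (.node (.I .adp (.c 8652867 (.c 40 (.c 2718204105 .nil))) .nil) (.I .com (.c 59109068451510808521 (.c 16 .nil)) (.l 8257 .nil))) (.node (.I .adp (.c 2113 (.c 13058 (.c 2718204105 .nil)))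 .nil) (.I .adp (.c 32 (.c 40 (.c 2718204105 .nil))) (.l 2113 .nil)))) (.node (.node (.I .com (.c 59109068451510808521 (.c 32 .nil)) (.l 2113 .nil)) (.I .com (.c 21307459 (.c 16 .nil)) (.b 169943433 .nil))) (.node (.I .ass (.c 12865 (.c 16 (.c 32 .nil))) (.b 169943433 .nil)) (.I .ass (.c 16 (.c 8257 (.c 40 .nil))) (.b 169943433 .nil))))) (.node (.node (.node (.I .ass (.c 8257 (.c 16 (.c 40 .nil))) (.b 169943433 .nil)) (.I .com (.c 16 (.c 8257 .nil)) (.r 40 (.b 169943433 .nil)))) (.node (.I .adp (.c 12865 (.c 8322 (.c 169943433 .nil))) .nil) (.I .adp (.c 16 (.c 32 (.c 169943433 .nil))) (.l 12865 .nil)))) (.node (.node (.I .adp (.c 8257 (.c 12930 (.c 169943433 .nil))) .nil) (.I .adp (.c 16 (.c 40 (.c 169943433 .nil))) (.l 8257 .nil))) (.node (.I .adp (.c 18497 (.c 24 (.c 2306971873338799881 .nil))) .nil) (.I .adp (.c 18497 (.c 24 (.c 13748193523587632009 .nil))) .nil)))))))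

noncomputable def c2_277 : Tr := (.node (.node (.node (.node (.node (.node (.I .adp (.c 4673 (.c 48 (.c 2306970223667989449 .nil))) .nil) (.I .adp (.c 4609 (.c 48 (.c 2379904940409059081 .nil))) .nil)) (.node (.I .jac (.c 18433 (.c 1324065929 (.c 32 .nil))) (.r 24 .nil)) (.I .jac (.c 18433 (.c 12865 (.c 16 .nil))) (.b 32 (.r 24 .nil))))) (.node (.node (.I .jac (.c 18433 (.c 8 (.c 40 .nil))) (.b 16 (.b 32 (.r 24 .nil)))) (.I .adp (.c 4609 (.c 48 (.c 14025204674709064585 .nil))) .nil)) (.node (.I .jac (.c 18433 (.c 35718473 (.c 32 .nil))) (.r 24 .nil)) (.I .jac (.c 18433 (.c 2113 (.c 40 .nil))) (.b 32 (.r 24 .nil)))))) (.node (.node (.node (.I .jac (.c 18433 (.c 8 (.c 16 .nil))) (.b 40 (.b 32 (.r 24 .nil)))) (.I .adp (.c 4609 (.c 48 (.c 10206474507614089 .nil))) .nil)) (.node (.I .adp (.c 4609 (.c 48 (.c 2379903264864635849 .nil))) .nil) (.I .adp (.c 18497 (.c 24 (.c 13748196208362033929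 .nil))) .nil))) (.node (.node (.I .jac (.c 18433 (.c 1324066057 (.c 16 .nil))) (.r 24 .nil)) (.I .jac (.c 18433 (.c 12865 (.c 32 .nil))) (.b 16 (.r 24 .nil)))) (.node (.I .jac (.c 18433 (.c 8 (.c 40 .nil))) (.b 32 (.b 16 (.r 24 .nil)))) (.I .adp (.c 4609 (.c 48 (.c 14025207386396218121 .nil))) .nil))))) (.node (.node (.node (.node (.I .adp (.c 24 (.c 48 (.c 0 .nil))) (.b 10206437931930569 .nil)) (.I .com (.c 18433 (.c 24 .nil)) (.b 10206437931930569 .nil))) (.node (.I .adp (.c 18433 (.c 24 (.c 10206437931930569 .nil))) .nil) (.I .adp (.c 4609 (.c 48 (.c 10206437931930569 .nil))) .nil))) (.node (.node (.I .adp (.c 4673 (.c 48 (.c 3632084291164233 .nil))) .nil) (.I .adp (.c 1310924937 (.c 32 (.c 43356739 .nil))) .nil)) (.node (.I .tdb (.c 8 (.c 48 (.c 16 (.c 24 .nil)))) (.b 12801 (.r 32 .nil))) (.I .tdb (.c 16 (.c 12801 (.c 18497 (.c 32 .nil)))) (.l 24 .nil))))) (.node (.node (.node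 (.I .tdb (.c 8 (.c 48 (.c 32 (.c 40 .nil)))) (.b 2049 (.l 24 .nil))) (.I .adp (.c 4673 (.c 48 (.c 598967998054793 .nil))) .nil)) (.node (.I .adp (.c 1310924937 (.c 32 (.c 174733202 .nil))) .nil) (.I .adp (.c 4673 (.c 48 (.c 32 .nil))) (.l 1310924937 .nil)))) (.node (.node (.I .adp (.c 4673 (.c 48 (.c 1310924937 .nil))) (.r 32 .nil)) (.I .tdp (.c 4673 (.c 48 (.c 32 (.c 1310924937 .nil)))) .nil)) (.node (.I .tdb (.c 16 (.c 12801 (.c 32 (.c 48 .nil)))) (.r 4673 .nil)) (.I .adp (.c 18433 (.c 24 (.c 3632062472293577 .nil))) .nil)))))) (.node (.node (.node (.node (.node (.I .jac (.c 3632040653488585 (.c 8 (.c 16 .nil))) (.l 24 .nil)) (.I .tdb (.c 0 (.c 48 (.c 32 (.c 40 .nil)))) (.b 2113 (.l 24 .nil)))) (.node (.I .adp (.c 4609 (.c 48 (.c 12929 .nil))) (.l 8257 .nil)) (.I .jac (.c 12801 (.c 16 (.c 32 .nil))) (.b 43356739 .nil)))) (.node (.node (.I .adp (.c 537002121 (.c 40 (.c 43356739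 .nil))) .nil) (.I .adp (.c 18497 (.c 24 (.c 3491688652046665 .nil))) .nil)) (.node (.I .adp (.c 537002121 (.c 40 (.c 2737260242 .nil))) .nil) (.I .adp (.c 18497 (.c 24 (.c 40 .nil))) (.l 537002121 .nil))))) (.node (.node (.node (.I .tdb (.c 16 (.c 8193 (.c 18497 (.c 24 .nil)))) (.r 40 .nil)) (.I .adp (.c 18497 (.c 24 (.c 537002121 .nil))) (.r 40 .nil))) (.node (.I .tdp (.c 18497 (.c 24 (.c 40 (.c 537002121 .nil)))) .nil) (.I .tdb (.c 16 (.c 8193 (.c 18497 (.c 40 .nil)))) (.l 24 .nil)))) (.node (.node (.I .tdb (.c 0 (.c 32 (.c 18497 (.c 40 .nil)))) (.b 16 (.l 24 .nil))) (.I .adp (.c 18433 (.c 24 (.c 3491710045130057 .nil))) .nil)) (.node (.I .jac (.c 18433 (.c 16 (.c 32 .nil))) (.r 24 (.l 12865 .nil))) (.I .com (.c 1310925065 (.c 16 .nil)) (.b 43356739 .nil)))))) (.node (.node (.node (.node (.I .adp (.c 1310925065 (.c 16 (.c 43356739 .nil))) .nil) (.I .adp (.c 537002313 (.c 16 (.c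 43356739 .nil))) .nil)) (.node (.I .tdb (.c 8 (.c 48 (.c 16 (.c 24 .nil)))) (.l 1310925065 .nil)) (.I .tdb (.c 32 (.c 12801 (.c 16 (.c 24 .nil)))) (.r 18497 .nil)))) (.node (.node (.I .adp (.c 537002313 (.c 16 (.c 2737260242 .nil))) .nil) (.I .adp (.c 18497 (.c 24 (.c 16 .nil))) (.l 537002313 .nil))) (.node (.I .adp (.c 18497 (.c 24 (.c 537002313 .nil))) (.r 16 .nil)) (.I .tdp (.c 18497 (.c 24 (.c 16 (.c 537002313 .nil)))) .nil)))) (.node (.node (.node (.I .com (.c 1310925065 (.c 16 .nil)) (.b 174733202 .nil)) (.I .adp (.c 1310925065 (.c 16 (.c 174733202 .nil))) .nil)) (.node (.I .adp (.c 4673 (.c 48 (.c 16 .nil))) (.l 1310925065 .nil)) (.I .adp (.c 4673 (.c 48 (.c 1310925065 .nil))) (.r 16 .nil)))) (.node (.node (.I .tdp (.c 4673 (.c 48 (.c 16 (.c 1310925065 .nil)))) .nil) (.I .tdb (.c 32 (.c 12801 (.c 16 (.c 48 .nil)))) (.r 4673 .nil))) (.node (.I .adp (.c 4609 (.c 48 (.c 13057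 .nil))) (.l 2113 .nil)) (.I .adp (.c 1310924873 (.c 32 (.c 2756085961 .nil))) .nil)))))))

noncomputable def c2_278 : Tr := (.node (.node (.node (.node (.node (.node (.I .adp (.c 2105673 (.c 32 (.c 2756085961 .nil))) .nil) (.I .adp (.c 12865 (.c 32 (.c 16 .nil))) (.b 2718204105 .nil))) (.node (.I .adp (.c 2105609 (.c 40 (.c 2756085961 .nil))) .nil) (.I .adp (.c 12801 (.c 8257 (.c 179513737 .nil))) .nil))) (.node (.node (.I .com (.c 1310925065 (.c 8 .nil)) (.b 2756085961 .nil)) (.I .adp (.c 1310925065 (.c 8 (.c 2756085961 .nil))) .nil)) (.node (.I .adp (.c 1310925065 (.c 8 (.c 179513737 .nil))) .nil) (.I .jac (.c 2718204105 (.c 16 (.c 32 .nil))) (.b 40 (.l 8 .nil)))))) (.node (.node (.node (.I .jac (.c 1310925001 (.c 16 (.c 48 .nil))) (.r 8258 .nil)) (.I .adp (.c 8 (.c 21307523 (.c 2718204105 .nil))) .nil)) (.node (.I .adp (.c 12929 (.c 32 (.c 2718204105 .nil))) (.l 8 .nil)) (.I .com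 (.c 59109068451510808457 (.c 12929 .nil)) (.l 8 .nil)))) (.node (.node (.I .adp (.c 8 (.c 553979218 (.c 2718204105 .nil))) .nil) (.I .tdp (.c 8321 (.c 40 (.c 2718204105 (.c 8 .nil)))) .nil)) (.node (.I .adp (.c 8 (.c 1337376018 (.c 169943433 .nil))) .nil) (.I .tdp (.c 12929 (.c 32 (.c 169943433 (.c 8 .nil)))) .nil))))) (.node (.node (.node (.node (.I .adp (.c 8 (.c 553979218 (.c 169943433 .nil))) .nil) (.I .tdp (.c 8321 (.c 40 (.c 169943433 (.c 8 .nil)))) .nil)) (.node (.I .jac (.c 8193 (.c 8 (.c 40 .nil))) (.b 2775423137 .nil)) (.I .adp (.c 24 (.c 48 (.c 16 .nil))) (.b 2306971873338799817 .nil)))) (.node (.node (.I .com (.c 18561 (.c 24 .nil)) (.b 2306971873338799817 .nil)) (.I .adp (.c 18561 (.c 24 (.c 2306971873338799817 .nil))) .nil)) (.node (.I .adp (.c 4737 (.c 48 (.c 2306971873338799817 .nil))) .nil) (.I .adp (.c 18561 (.c 24 (.c 35470870263689 .nil))) .nil)))) (.node (.node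 (.node (.I .adp (.c 4737 (.c 48 (.c 35470870263689 .nil))) .nil) (.I .adp (.c 18561 (.c 24 (.c 2306969673777850313 .nil))) .nil)) (.node (.I .adp (.c 18561 (.c 24 (.c 13748196208362033865 .nil))) .nil) (.I .jac (.c 13748196208362033865 (.c 16 (.c 48 .nil))) (.r 24 .nil)))) (.node (.node (.I .adp (.c 4737 (.c 48 (.c 13748196208362033865 .nil))) .nil) (.I .adp (.c 24 (.c 48 (.c 16 .nil))) (.b 35468714087369 .nil))) (.node (.I .com (.c 18561 (.c 24 .nil)) (.b 35468714087369 .nil)) (.I .adp (.c 18561 (.c 24 (.c 35468714087369 .nil))) .nil)))))) (.node (.node (.node (.node (.node (.I .jac (.c 3632062472293449 (.c 16 (.c 48 .nil))) (.r 24 .nil)) (.I .adp (.c 4737 (.c 48 (.c 3632062472293449 .nil))) .nil)) (.node (.I .adp (.c 1310924873 (.c 32 (.c 43356803 .nil))) .nil) (.I .jac (.c 3632040653488265 (.c 16 (.c 48 .nil))) (.r 24 .nil)))) (.node (.node (.I .tdb (.c 16 (.c 48 (.c 8 (.c 24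 .nil)))) (.b 12801 (.r 32 .nil))) (.I .tdb (.c 8 (.c 12801 (.c 18561 (.c 32 .nil)))) (.l 24 .nil))) (.node (.I .adp (.c 4737 (.c 48 (.c 580749782704521 .nil))) .nil) (.I .adp (.c 1310924873 (.c 32 (.c 179551634 .nil))) .nil)))) (.node (.node (.node (.I .adp (.c 4737 (.c 48 (.c 32 .nil))) (.l 1310924873 .nil)) (.I .adp (.c 4737 (.c 48 (.c 1310924873 .nil))) (.r 32 .nil))) (.node (.I .com (.c 13748192181200529417 (.c 4737 .nil)) (.r 32 .nil)) (.I .tdp (.c 4737 (.c 48 (.c 32 (.c 1310924873 .nil)))) .nil))) (.node (.node (.I .tdb (.c 8 (.c 12801 (.c 32 (.c 48 .nil)))) (.r 4737 .nil)) (.I .adp (.c 537002057 (.c 40 (.c 43356803 .nil))) .nil)) (.node (.I .adp (.c 537002057 (.c 40 (.c 2756234450 .nil))) .nil) (.I .adp (.c 18561 (.c 24 (.c 40 .nil))) (.l 537002057 .nil)))))) (.node (.node (.node (.node (.I .tdb (.c 8 (.c 8193 (.c 18561 (.c 24 .nil)))) (.r 40 .nil)) (.I .adp (.c 18561 (.c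 24 (.c 537002057 .nil))) (.r 40 .nil))) (.node (.I .com (.c 2306969673777850185 (.c 18561 .nil)) (.r 40 .nil)) (.I .jac (.c 537002057 (.c 16 (.c 48 .nil))) (.r 24 (.r 40 .nil))))) (.node (.node (.I .tdp (.c 18561 (.c 24 (.c 40 (.c 537002057 .nil)))) .nil) (.I .tdb (.c 8 (.c 8193 (.c 18561 (.c 40 .nil)))) (.l 24 .nil))) (.node (.I .tdb (.c 0 (.c 32 (.c 18561 (.c 40 .nil)))) (.b 8 (.l 24 .nil))) (.I .com (.c 1310925065 (.c 8 .nil)) (.b 43356803 .nil))))) (.node (.node (.node (.I .adp (.c 1310925065 (.c 8 (.c 43356803 .nil))) .nil) (.I .adp (.c 537002313 (.c 8 (.c 43356803 .nil))) .nil)) (.node (.I .tdb (.c 16 (.c 48 (.c 8 (.c 24 .nil)))) (.l 1310925065 .nil)) (.I .tdb (.c 32 (.c 12801 (.c 18561 (.c 24 .nil)))) (.r 8 .nil)))) (.node (.node (.I .adp (.c 537002313 (.c 8 (.c 2756234450 .nil))) .nil) (.I .adp (.c 18561 (.c 24 (.c 8 .nil))) (.l 537002313 .nil))) (.node (.I .jac (.c 8 (.c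 16 (.c 48 .nil))) (.r 24 (.l 537002313 .nil))) (.I .adp (.c 18561 (.c 24 (.c 537002313 .nil))) (.r 8 .nil))))))))

noncomputable def c2_279 : Tr := (.node (.node (.node (.node (.node (.node (.I .com (.c 1310925065 (.c 8 .nil)) (.b 179551634 .nil)) (.I .adp (.c 1310925065 (.c 8 (.c 179551634 .nil))) .nil)) (.node (.I .adp (.c 4737 (.c 48 (.c 8 .nil))) (.l 1310925065 .nil)) (.I .adp (.c 4737 (.c 48 (.c 1310925065 .nil))) (.r 8 .nil)))) (.node (.node (.I .ass (.c 2718203977 (.c 24 (.c 553912649 .nil))) .nil) (.I .ass (.c 4609 (.c 18497 (.c 1337272585 .nil))) .nil)) (.node (.I .ass (.c 4609 (.c 18497 (.c 553912649 .nil))) .nil) (.I .adp (.c 12801 (.c 32 (.c 16 .nil))) (.b 2737112265 .nil))))) (.node (.node (.node (.I .jac (.c 4609 (.c 16 (.c 48 .nil))) (.r 1324066057 .nil)) (.I .jac (.c 4609 (.c 16 (.c 48 .nil))) (.r 545424713 .nil))) (.node (.I .adp (.c 0 (.c 1337272585 (.c 2737112265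 .nil))) .nil) (.I .jac (.c 0 (.c 18497 (.c 24 .nil))) (.r 1337272585 .nil)))) (.node (.node (.I .jac (.c 0 (.c 8 (.c 48 .nil))) (.b 24 (.r 1337272585 .nil))) (.I .adp (.c 0 (.c 553912649 (.c 2737112265 .nil))) .nil)) (.node (.I .jac (.c 0 (.c 18497 (.c 24 .nil))) (.r 553912649 .nil)) (.I .jac (.c 0 (.c 8 (.c 48 .nil))) (.b 24 (.r 553912649 .nil))))))) (.node (.node (.node (.node (.I .adp (.c 0 (.c 1337272585 (.c 174695817 .nil))) .nil) (.I .jac (.c 0 (.c 4673 (.c 48 .nil))) (.r 1337272585 .nil))) (.node (.I .jac (.c 0 (.c 8 (.c 24 .nil))) (.b 48 (.r 1337272585 .nil))) (.I .adp (.c 0 (.c 13058 (.c 16 .nil))) (.b 2737112265 .nil)))) (.node (.node (.I .adp (.c 32 (.c 40 (.c 16 .nil))) (.l 0 (.b 2737112265 .nil))) (.I .com (.c 12929 (.c 32 .nil)) (.l 0 (.b 2737112265 .nil)))) (.node (.I .adp (.c 0 (.c 553979218 (.c 2737112265 .nil))) .nil) (.I .adp (.c 8321 (.c 40 (.c 2737112265 .nil)))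 (.l 0 .nil))))) (.node (.node (.node (.I .jac (.c 0 (.c 18497 (.c 24 .nil))) (.r 553979218 .nil)) (.I .jac (.c 0 (.c 8 (.c 48 .nil))) (.b 24 (.r 553979218 .nil)))) (.node (.I .tdp (.c 8321 (.c 40 (.c 2737112265 (.c 0 .nil)))) .nil) (.I .tdb (.c 0 (.c 40 (.c 8 (.c 32 .nil)))) (.b 179551634 .nil)))) (.node (.node (.I .tdb (.c 0 (.c 40 (.c 16 (.c 32 .nil)))) (.b 174733202 .nil)) (.I .ass (.c 33587593 (.c 24 (.c 1324066057 .nil))) .nil)) (.node (.I .ass (.c 4609 (.c 18561 (.c 1324066057 .nil))) .nil) (.I .ass (.c 33587593 (.c 24 (.c 545424713 .nil))) .nil)))))) (.node (.node (.node (.node (.node (.I .ass (.c 169943177 (.c 48 (.c 1324066057 .nil))) .nil) (.I .com (.c 1324066057 (.c 48 .nil)) (.l 169943177 .nil))) (.node (.I .ass (.c 33587401 (.c 48 (.c 1324066057 .nil))) .nil) (.I .com (.c 1324066057 (.c 48 .nil)) (.l 33587401 .nil)))) (.node (.node (.I .ass (.c 169943177 (.c 48 (.c 545424713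 .nil))) .nil) (.I .com (.c 545424713 (.c 48 .nil)) (.l 169943177 .nil))) (.node (.I .ass (.c 33587401 (.c 48 (.c 545424713 .nil))) .nil) (.I .com (.c 545424713 (.c 48 .nil)) (.l 33587401 .nil))))) (.node (.node (.node (.I .ass (.c 2105737 (.c 24 (.c 1337272585 .nil))) .nil) (.I .ass (.c 2105545 (.c 48 (.c 1337272585 .nil))) .nil)) (.node (.I .com (.c 1337272585 (.c 48 .nil)) (.l 2105545 .nil)) (.I .ass (.c 2105545 (.c 48 (.c 553912649 .nil))) .nil))) (.node (.node (.I .com (.c 553912649 (.c 48 .nil)) (.l 2105545 .nil)) (.I .adp (.c 32 (.c 40 (.c 2113 .nil))) (.b 2718204105 .nil))) (.node (.I .com (.c 35718473 (.c 32 .nil)) (.b 2718204105 .nil)) (.I .adp (.c 32 (.c 40 (.c 2113 .nil))) (.b 169943433 .nil)))))) (.node (.node (.node (.node (.I .com (.c 35718473 (.c 32 .nil)) (.b 169943433 .nil)) (.I .adp (.c 24 (.c 48 (.c 2113 .nil))) (.b 537002313 .nil))) (.node (.I .com (.c 35718537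 (.c 24 .nil)) (.b 537002313 .nil)) (.I .adp (.c 8 (.c 16 (.c 18626 .nil))) (.b 1310925065 .nil)))) (.node (.node (.I .adp (.c 24 (.c 48 (.c 8 .nil))) (.r 16 (.b 1310925065 .nil))) (.I .com (.c 18497 (.c 24 .nil)) (.r 16 (.b 1310925065 .nil)))) (.node (.I .ass (.c 18497 (.c 24 (.c 16 .nil))) (.b 1310925065 .nil)) (.I .com (.c 16 (.c 24 .nil)) (.l 18497 (.b 1310925065 .nil)))))) (.node (.node (.node (.I .ass (.c 4673 (.c 48 (.c 16 .nil))) (.b 1310925065 .nil)) (.I .com (.c 16 (.c 48 .nil)) (.l 4673 (.b 1310925065 .nil)))) (.node (.I .adp (.c 8 (.c 16 (.c 18626 .nil))) (.b 537002313 .nil)) (.I .adp (.c 24 (.c 48 (.c 8 .nil))) (.r 16 (.b 537002313 .nil))))) (.node (.node (.I .com (.c 18497 (.c 24 .nil)) (.r 16 (.b 537002313 .nil))) (.I .ass (.c 18497 (.c 24 (.c 16 .nil))) (.b 537002313 .nil))) (.node (.I .com (.c 16 (.c 24 .nil)) (.l 18497 (.b 537002313 .nil))) (.I .ass (.c 4673 (.c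 48 (.c 16 .nil))) (.b 537002313 .nil))))))))

noncomputable def c2_280 : Tr := (.node (.node (.node (.node (.node (.node (.I .com (.c 16 (.c 48 .nil)) (.l 4673 (.b 537002313 .nil))) (.I .adp (.c 24 (.c 48 (.c 2049 .nil))) (.b 545424713 .nil))) (.node (.I .com (.c 33587593 (.c 24 .nil)) (.b 545424713 .nil)) (.I .adp (.c 32 (.c 40 (.c 513 .nil))) (.b 2756085961 .nil)))) (.node (.node (.I .com (.c 2105673 (.c 32 .nil)) (.b 2756085961 .nil)) (.I .adp (.c 2113 (.c 40 (.c 32 .nil))) (.b 169943433 .nil))) (.node (.I .adp (.c 16 (.c 40 (.c 32 .nil))) (.l 8 (.b 2718204105 .nil))) (.I .tdp (.c 16 (.c 40 (.c 8 (.c 32 .nil)))) (.b 2718204105 .nil))))) (.node (.node (.node (.I .adp (.c 8 (.c 1363882122 (.c 2718204105 .nil))) .nil) (.I .adp (.c 16 (.c 13057 (.c 2718204105 .nil))) (.l 8 .nil))) (.node (.I .tdp (.c 16 (.c 13057 (.c 2718204105 (.c 8 .nil)))) .nil) (.I .tdb (.c 32 (.c 40 (.c 2718204105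 (.c 8 .nil)))) (.r 16 .nil)))) (.node (.node (.I .adp (.c 16 (.c 40 (.c 32 .nil))) (.l 8 (.b 169943433 .nil))) (.I .tdp (.c 16 (.c 40 (.c 8 (.c 32 .nil)))) (.b 169943433 .nil))) (.node (.I .jac (.c 9024976834606793 (.c 32 (.c 48 .nil))) (.l 24 .nil)) (.I .com (.c 3396677733571646404444524329246871661425999372304664290498631875593 (.c 24 .nil)) .nil))))) (.node (.node (.node (.node (.I .adp (.c 24 (.c 18689 (.c 13748192181200529161 .nil))) .nil) (.I .com (.c 18291627070720922015071736581502747126965136409661078714893597428282588481125385 (.c 24 .nil)) .nil)) (.node (.I .jac (.c 35470870263561 (.c 32 (.c 48 .nil))) (.l 24 .nil)) (.I .com (.c 810508056928448878646502722166933246337633270256072475529 (.c 24 .nil)) .nil))) (.node (.node (.I .com (.c 810508056928448878646502701552868917561936794433570405385 (.c 24 .nil)) .nil) (.I .adp (.c 24 (.c 18689 (.c 9024839260612553 .nil))) .nil))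 (.node (.I .adp (.c 24 (.c 18689 (.c 13748193523587631817 .nil))) .nil) (.I .com (.c 18291634214772311167410121687061768184020758186111339680754425104561204901249929 (.c 24 .nil)) .nil)))) (.node (.node (.node (.I .adp (.c 24 (.c 48 (.c 32 .nil))) (.b 35464401931209 .nil)) (.I .adp (.c 24 (.c 18689 (.c 35464401931209 .nil))) .nil)) (.node (.I .adp (.c 24 (.c 18689 (.c 3491710045129801 .nil))) .nil) (.I .adp (.c 24 (.c 18689 (.c 3491688652046473 .nil))) .nil))) (.node (.node (.I .tdb (.c 32 (.c 48 (.c 16 (.c 24 .nil)))) (.l 1310924873 .nil)) (.I .com (.c 2756086025 (.c 24 .nil)) (.l 1310924873 .nil))) (.node (.I .tdb (.c 32 (.c 48 (.c 8 (.c 24 .nil)))) (.b 12801 (.r 16 .nil))) (.I .tdb (.c 8 (.c 12801 (.c 18689 (.c 24 .nil)))) (.r 16 .nil))))))) (.node (.node (.node (.node (.node (.I .adp (.c 2105673 (.c 16 (.c 2794229962 .nil))) .nil) (.I .adp (.c 24 (.c 18689 (.c 16 .nil))) (.l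 2105673 .nil))) (.node (.I .jac (.c 16 (.c 32 (.c 48 .nil))) (.l 24 (.l 2105673 .nil))) (.I .tdb (.c 32 (.c 48 (.c 8 (.c 24 .nil)))) (.b 0 (.b 40 (.r 16 .nil)))))) (.node (.node (.I .adp (.c 24 (.c 18689 (.c 2105673 .nil))) (.r 16 .nil)) (.I .jac (.c 3423058053193929 (.c 32 (.c 48 .nil))) (.l 24 .nil))) (.node (.I .com (.c 70295418264016056367196823099392130501912218710370445521070898185 (.c 24 .nil)) .nil) (.I .tdb (.c 32 (.c 48 (.c 8 (.c 24 .nil)))) (.b 2049 (.r 40 .nil)))))) (.node (.node (.node (.I .adp (.c 2105481 (.c 40 (.c 2794229962 .nil))) .nil) (.I .adp (.c 24 (.c 18689 (.c 40 .nil))) (.l 2105481 .nil))) (.node (.I .tdb (.c 513 (.c 16 (.c 18689 (.c 24 .nil)))) (.r 40 .nil)) (.I .tdb (.c 0 (.c 8 (.c 24 (.c 18689 .nil)))) (.b 16 (.r 40 .nil))))) (.node (.node (.I .adp (.c 24 (.c 18689 (.c 2105481 .nil))) (.r 40 .nil)) (.I .jac (.c 2105481 (.c 32 (.c 48 .nil))) (.l 24 (.r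 40 .nil)))) (.node (.I .com (.c 10061790434743040737723204489 (.c 24 .nil)) (.r 40 .nil)) (.I .com (.c 10061790434670409642568088585 (.c 24 .nil)) (.r 40 .nil)))))) (.node (.node (.node (.node (.I .tdp (.c 24 (.c 18689 (.c 2105481 (.c 40 .nil)))) .nil) (.I .tdb (.c 513 (.c 16 (.c 40 (.c 24 .nil)))) (.l 18689 .nil))) (.node (.I .tdb (.c 0 (.c 8 (.c 24 (.c 40 .nil)))) (.b 16 (.l 18689 .nil))) (.I .com (.c 1310924937 (.c 8 .nil)) (.b 2794229962 .nil)))) (.node (.node (.I .com (.c 33587529 (.c 8 .nil)) (.b 2794229962 .nil)) (.I .tdb (.c 32 (.c 48 (.c 8 (.c 24 .nil)))) (.l 1310924937 .nil))) (.node (.I .tdb (.c 16 (.c 12801 (.c 18689 (.c 24 .nil)))) (.r 8 .nil)) (.I .tdb (.c 32 (.c 48 (.c 8 (.c 24 .nil)))) (.l 33587529 .nil))))) (.node (.node (.node (.I .com (.c 2737112329 (.c 24 .nil)) (.l 33587529 .nil)) (.I .tdb (.c 2049 (.c 40 (.c 18689 (.c 24 .nil)))) (.r 8 .nil))) (.node (.I .tdb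 (.c 0 (.c 16 (.c 18689 (.c 24 .nil)))) (.b 40 (.r 8 .nil))) (.I .tdb (.c 32 (.c 48 (.c 0 (.c 24 .nil)))) (.b 16 (.b 40 (.r 8 .nil)))))) (.node (.node (.I .adp (.c 0 (.c 12929 (.c 18625 .nil))) (.b 8257 .nil)) (.I .jac (.c 0 (.c 24 (.c 48 .nil))) (.r 12929 (.b 8257 .nil)))) (.node (.I .jac (.c 8 (.c 24 (.c 48 .nil))) (.b 14306378276669031457 .nil)) (.I .adp (.c 0 (.c 12929 (.c 32 .nil))) (.b 174695817 .nil))))))))

noncomputable def c2_281 : Tr := (.node (.node (.node (.node (.node (.node (.I .adp (.c 0 (.c 1363882122 (.c 2737112265 .nil))) .nil) (.I .adp (.c 16 (.c 13057 (.c 2737112265 .nil))) (.l 0 .nil))) (.node (.I .jac (.c 0 (.c 18497 (.c 24 .nil))) (.r 1363882122 .nil)) (.I .jac (.c 0 (.c 8 (.c 48 .nil))) (.b 24 (.r 1363882122 .nil))))) (.node (.node (.I .tdp (.c 16 (.c 13057 (.c 2737112265 (.c 0 .nil)))) .nil) (.I .tdb (.c 24 (.c 18497 (.c 0 (.c 16 .nil)))) (.l 13057 .nil)))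 (.node (.I .tdb (.c 32 (.c 40 (.c 2737112265 (.c 0 .nil)))) (.r 16 .nil)) (.I .tdb (.c 0 (.c 40 (.c 8 (.c 16 .nil)))) (.b 2794229962 .nil))))) (.node (.node (.node (.I .tdb (.c 0 (.c 16 (.c 40 (.c 8 .nil)))) (.b 2794229962 .nil)) (.I .ass (.c 537002377 (.c 24 (.c 35718473 .nil))) .nil)) (.node (.I .adp (.c 16 (.c 40 (.c 8257 .nil))) (.b 169943433 .nil)) (.I .adp (.c 8 (.c 32 (.c 12930 .nil))) (.b 2718204105 .nil)))) (.node (.node (.I .adp (.c 16 (.c 40 (.c 8 .nil))) (.r 32 (.b 2718204105 .nil))) (.I .com (.c 12865 (.c 16 .nil)) (.r 32 (.b 2718204105 .nil)))) (.node (.I .ass (.c 2113 (.c 40 (.c 32 .nil))) (.b 2718204105 .nil)) (.I .com (.c 32 (.c 40 .nil)) (.l 2113 (.b 2718204105 .nil))))))) (.node (.node (.node (.node (.I .adp (.c 8 (.c 32 (.c 12930 .nil))) (.b 169943433 .nil)) (.I .adp (.c 16 (.c 40 (.c 8 .nil))) (.r 32 (.b 169943433 .nil)))) (.node (.I .com (.c 12865 (.c 16 .nil))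 (.r 32 (.b 169943433 .nil))) (.I .adp (.c 24 (.c 48 (.c 8257 .nil))) (.b 33587529 .nil)))) (.node (.node (.I .adp (.c 8 (.c 32 (.c 18626 .nil))) (.b 33587529 .nil)) (.I .adp (.c 24 (.c 48 (.c 8 .nil))) (.r 32 (.b 33587529 .nil)))) (.node (.I .com (.c 18497 (.c 24 .nil)) (.r 32 (.b 33587529 .nil))) (.I .ass (.c 4673 (.c 48 (.c 32 .nil))) (.b 33587529 .nil))))) (.node (.node (.node (.I .com (.c 32 (.c 48 .nil)) (.l 4673 (.b 33587529 .nil))) (.I .adp (.c 24 (.c 48 (.c 8193 .nil))) (.b 1324065929 .nil))) (.node (.I .adp (.c 24 (.c 48 (.c 8193 .nil))) (.b 35718473 .nil)) (.I .adp (.c 12801 (.c 8 (.c 32 .nil))) (.b 179513737 .nil)))) (.node (.node (.I .jac (.c 42762755 (.c 16 (.c 24 .nil))) (.l 13057 .nil)) (.I .adp (.c 16 (.c 32 (.c 12865 .nil))) (.b 169943433 .nil))) (.node (.I .adp (.c 8 (.c 40 (.c 8321 .nil))) (.b 2718204105 .nil)) (.I .adp (.c 16 (.c 32 (.c 12866 .nil))) (.b 169943433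 .nil))))))) (.node (.node (.node (.node (.node (.I .adp (.c 8 (.c 40 (.c 32 .nil))) (.l 16 (.b 169943433 .nil))) (.I .ass (.c 16 (.c 8 (.c 13057 .nil))) (.b 169943433 .nil))) (.node (.I .ass (.c 8 (.c 16 (.c 13057 .nil))) (.b 169943433 .nil)) (.I .com (.c 16 (.c 8 .nil)) (.r 13057 (.b 169943433 .nil))))) (.node (.node (.I .adp (.c 8 (.c 40 (.c 16 .nil))) (.r 32 (.b 169943433 .nil))) (.I .ass (.c 8 (.c 12929 (.c 32 .nil))) (.b 169943433 .nil))) (.node (.I .tdp (.c 8 (.c 40 (.c 16 (.c 32 .nil)))) (.b 169943433 .nil)) (.I .com (.c 8 (.c 21307523 .nil)) (.b 169943433 .nil))))) (.node (.node (.node (.I .adp (.c 24 (.c 48 (.c 12865 .nil))) (.b 537002121 .nil)) (.I .adp (.c 8 (.c 40 (.c 18626 .nil))) (.b 33587465 .nil))) (.node (.I .adp (.c 24 (.c 48 (.c 8 .nil))) (.r 40 (.b 33587465 .nil))) (.I .com (.c 18497 (.c 24 .nil)) (.r 40 (.b 33587465 .nil))))) (.node (.node (.I .ass (.c 4673 (.c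 48 (.c 40 .nil))) (.b 33587465 .nil)) (.I .com (.c 40 (.c 48 .nil)) (.l 4673 (.b 33587465 .nil)))) (.node (.I .adp (.c 24 (.c 48 (.c 32 .nil))) (.b 1324288041 .nil)) (.I .adp (.c 8 (.c 40 (.c 2049 .nil))) (.b 2794229962 .nil)))))) (.node (.node (.node (.node (.I .tdb (.c 0 (.c 16 (.c 48 (.c 24 .nil)))) (.b 1324271905 .nil)) (.I .adp (.c 24 (.c 48 (.c 2049 .nil))) (.b 1324271905 .nil))) (.node (.I .com (.c 33587593 (.c 24 .nil)) (.b 1324271905 .nil)) (.I .adp (.c 8 (.c 40 (.c 32 .nil))) (.b 9025011496970130 .nil)))) (.node (.node (.I .adp (.c 8 (.c 40 (.c 32 .nil))) (.b 9024908316178002 .nil)) (.I .adp (.c 16 (.c 32 (.c 12801 .nil))) (.b 2737112265 .nil))) (.node (.I .adp (.c 0 (.c 40 (.c 8321 .nil))) (.b 2737112265 .nil)) (.I .com (.c 1310925193 (.c 24 .nil)) (.b 8652867 .nil))))) (.node (.node (.node (.I .adp (.c 24 (.c 48 (.c 12801 .nil))) (.b 8652867 .nil)) (.I .com (.c 1310925193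 (.c 24 .nil)) (.b 545490578 .nil))) (.node (.I .adp (.c 24 (.c 48 (.c 12801 .nil))) (.b 545490578 .nil)) (.I .adp (.c 16 (.c 32 (.c 12801 .nil))) (.b 43356739 .nil)))) (.node (.node (.I .adp (.c 16 (.c 32 (.c 12801 .nil))) (.b 174733202 .nil)) (.I .adp (.c 8 (.c 32 (.c 12801 .nil))) (.b 2756085961 .nil))) (.node (.I .com (.c 1310925193 (.c 24 .nil)) (.b 553912394 .nil)) (.I .adp (.c 24 (.c 48 (.c 12801 .nil))) (.b 553912394 .nil))))))))

noncomputable def c2_282 : Tr := (.node (.node (.node (.node (.node (.node (.I .adp (.c 8 (.c 32 (.c 12801 .nil))) (.b 43356803 .nil)) (.I .adp (.c 8 (.c 32 (.c 12801 .nil))) (.b 179551634 .nil))) (.node (.I .adp (.c 8 (.c 16 (.c 32 .nil))) (.b 2775525417 .nil)) (.I .adp (.c 24 (.c 48 (.c 32 .nil))) (.b 1310941721 .nil)))) (.node (.node (.I .adp (.c 8 (.c 16 (.c 12801 .nil))) (.b 2794229962 .nil)) (.I .adp (.c 8 (.c 8321 (.c 40 .nil))) (.b 2718204105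 .nil))) (.node (.I .jac (.c 2049 (.c 8 (.c 32 .nil))) (.b 2775423329 .nil)) (.I .adp (.c 24 (.c 18753 (.c 9024942441009865 .nil))) .nil)))) (.node (.node (.node (.I .jac (.c 9024942441009865 (.c 40 (.c 48 .nil))) (.l 24 .nil)) (.I .com (.c 3396625955800160603643130806315961360728832908976413815959824434121 (.c 24 .nil)) .nil)) (.node (.I .com (.c 3396625955800160603643130806315294125719800380280336618424033173513 (.c 24 .nil)) .nil) (.I .adp (.c 24 (.c 48 (.c 40 .nil))) (.b 2306969673777850121 .nil)))) (.node (.node (.I .adp (.c 24 (.c 18753 (.c 2306969673777850121 .nil))) .nil) (.I .jac (.c 2306969673777850121 (.c 40 (.c 48 .nil))) (.l 24 .nil))) (.node (.I .adp (.c 24 (.c 48 (.c 40 .nil))) (.b 35468714087177 .nil)) (.I .jac (.c 35468714087177 (.c 40 (.c 48 .nil))) (.l 24 .nil)))))) (.node (.node (.node (.node (.I .adp (.c 24 (.c 18753 (.c 9024839260612489 .nil))) .nil) (.I .jac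 (.c 9024839260612489 (.c 40 (.c 48 .nil))) (.l 24 .nil))) (.node (.I .jac (.c 0 (.c 2113 (.c 32 .nil))) (.b 2775423329 .nil)) (.I .jac (.c 0 (.c 8 (.c 16 .nil))) (.b 32 (.b 2775423329 .nil))))) (.node (.node (.I .adp (.c 24 (.c 48 (.c 40 .nil))) (.b 2306970223667989193 .nil)) (.I .com (.c 14502334474273991518822959259732641470064367600756098493782322290052167697353 (.c 24 .nil)) .nil)) (.node (.I .com (.c 14502334474273991518822959259732641426465629267955221257396041719460597424137 (.c 24 .nil)) .nil) (.I .adp (.c 24 (.c 18753 (.c 35464401931145 .nil))) .nil)))) (.node (.node (.node (.I .adp (.c 24 (.c 48 (.c 35718409 .nil))) (.b 12801 .nil)) (.I .adp (.c 24 (.c 18753 (.c 598976858557513 .nil))) .nil)) (.node (.I .adp (.c 24 (.c 18753 (.c 598967998054537 .nil))) .nil) (.I .jac (.c 598967998054537 (.c 40 (.c 48 .nil))) (.l 24 .nil)))) (.node (.node (.I .com (.c 65899851849165435104989593424068639493060718917666182681796617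 (.c 24 .nil)) .nil) (.I .adp (.c 24 (.c 48 (.c 40 .nil))) (.b 2487083360585 .nil))) (.node (.I .jac (.c 2487083360585 (.c 40 (.c 48 .nil))) (.l 24 .nil)) (.I .adp (.c 24 (.c 48 (.c 40 .nil))) (.b 2306969678073866578 .nil))))))) (.node (.node (.node (.node (.node (.I .tdb (.c 40 (.c 48 (.c 16 (.c 24 .nil)))) (.l 537002057 .nil)) (.I .tdb (.c 40 (.c 48 (.c 8 (.c 24 .nil)))) (.b 8193 (.r 16 .nil)))) (.node (.I .tdb (.c 8 (.c 8193 (.c 18753 (.c 24 .nil)))) (.r 16 .nil)) (.I .adp (.c 2105609 (.c 16 (.c 2813400266 .nil))) .nil))) (.node (.node (.I .tdb (.c 40 (.c 48 (.c 16 (.c 24 .nil)))) (.l 2105609 .nil)) (.I .adp (.c 24 (.c 18753 (.c 16 .nil))) (.l 2105609 .nil))) (.node (.I .jac (.c 16 (.c 40 (.c 48 .nil))) (.l 24 (.l 2105609 .nil))) (.I .com (.c 2756086089 (.c 24 .nil)) (.l 2105609 .nil))))) (.node (.node (.node (.I .tdb (.c 513 (.c 32 (.c 18753 (.c 24 .nil)))) (.r 16 .nil)) (.I .tdb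 (.c 0 (.c 8 (.c 24 (.c 18753 .nil)))) (.b 32 (.r 16 .nil)))) (.node (.I .tdb (.c 40 (.c 48 (.c 0 (.c 24 .nil)))) (.b 8 (.b 32 (.r 16 .nil)))) (.I .adp (.c 24 (.c 18753 (.c 2105609 .nil))) (.r 16 .nil)))) (.node (.node (.I .jac (.c 2105609 (.c 40 (.c 48 .nil))) (.l 24 (.r 16 .nil))) (.I .adp (.c 24 (.c 48 (.c 40 .nil))) (.b 580749782704329 .nil))) (.node (.I .adp (.c 24 (.c 48 (.c 40 .nil))) (.b 9024839529310674 .nil)) (.I .adp (.c 2105481 (.c 32 (.c 2813400266 .nil))) .nil))))) (.node (.node (.node (.node (.I .adp (.c 24 (.c 18753 (.c 32 .nil))) (.l 2105481 .nil)) (.I .adp (.c 24 (.c 18753 (.c 2105481 .nil))) (.r 32 .nil))) (.node (.I .jac (.c 2105481 (.c 40 (.c 48 .nil))) (.l 24 (.r 32 .nil))) (.I .com (.c 10061790434743040737723204553 (.c 24 .nil)) (.r 32 .nil)))) (.node (.node (.I .com (.c 10061790434706725190145613833 (.c 24 .nil)) (.r 32 .nil)) (.I .tdp (.c 24 (.c 18753 (.c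 32 (.c 2105481 .nil)))) .nil)) (.node (.I .com (.c 537002121 (.c 8 .nil)) (.b 2775423329 .nil)) (.I .com (.c 33587465 (.c 8 .nil)) (.b 2775423329 .nil))))) (.node (.node (.node (.I .adp (.c 24 (.c 48 (.c 40 .nil))) (.b 2306970227964006162 .nil)) (.I .tdb (.c 40 (.c 48 (.c 8 (.c 24 .nil)))) (.l 537002121 .nil))) (.node (.I .tdb (.c 16 (.c 8193 (.c 18753 (.c 24 .nil)))) (.r 8 .nil)) (.I .adp (.c 24 (.c 48 (.c 40 .nil))) (.b 9024942709709586 .nil)))) (.node (.node (.I .tdb (.c 40 (.c 48 (.c 8 (.c 24 .nil)))) (.l 33587465 .nil)) (.I .com (.c 2737112393 (.c 24 .nil)) (.l 33587465 .nil))) (.node (.I .tdb (.c 2049 (.c 32 (.c 18753 (.c 24 .nil)))) (.r 8 .nil)) (.I .tdb (.c 0 (.c 16 (.c 18753 (.c 24 .nil)))) (.b 32 (.r 8 .nil)))))))))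

noncomputable def c2_283 : Tr := (.node (.node (.node (.node (.node (.node (.I .tdb (.c 40 (.c 48 (.c 0 (.c 24 .nil)))) (.b 16 (.b 32 (.r 8 .nil)))) (.I .adp (.c 0 (.c 8322 (.c 40 .nil))) (.b 2737112265 .nil))) (.node (.I .adp (.c 16 (.c 32 (.c 40 .nil))) (.l 0 (.b 2737112265 .nil))) (.I .tdp (.c 16 (.c 32 (.c 0 (.c 40 .nil)))) (.b 2737112265 .nil)))) (.node (.node (.I .com (.c 20891651 (.c 32 .nil)) (.b 2737112265 .nil)) (.I .tdb (.c 0 (.c 32 (.c 8 (.c 16 .nil)))) (.b 2775423329 .nil))) (.node (.I .tdb (.c 0 (.c 16 (.c 32 (.c 8 .nil)))) (.b 2775423329 .nil)) (.I .ass (.c 2718204233 (.c 24 (.c 545424521 .nil))) .nil)))) (.node (.node (.node (.I .com (.c 545424521 (.c 24 .nil)) (.l 2718204233 .nil)) (.I .ass (.c 4609 (.c 18753 (.c 545424521 .nil))) .nil)) (.node (.I .com (.c 545424521 (.c 18753 .nil)) (.l 4609 .nil)) (.I .ass (.c 2718204233 (.c 24 (.c 35718409 .nil))) .nil))) (.node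 (.node (.I .ass (.c 1310925193 (.c 24 (.c 35718409 .nil))) .nil) (.I .adp (.c 24 (.c 48 (.c 537002057 .nil))) (.b 12929 .nil))) (.node (.I .com (.c 2306969673777850377 (.c 24 .nil)) (.b 12929 .nil)) (.I .adp (.c 24 (.c 48 (.c 2105609 .nil))) (.b 12929 .nil)))))) (.node (.node (.node (.node (.I .adp (.c 8 (.c 32 (.c 2049 .nil))) (.b 2775423329 .nil)) (.I .tdb (.c 0 (.c 16 (.c 48 (.c 24 .nil)))) (.b 545556833 .nil))) (.node (.I .adp (.c 24 (.c 48 (.c 2049 .nil))) (.b 545556833 .nil)) (.I .com (.c 33587593 (.c 24 .nil)) (.b 545556833 .nil)))) (.node (.node (.I .adp (.c 8 (.c 32 (.c 40 .nil))) (.b 9025011496970130 .nil)) (.I .adp (.c 8 (.c 32 (.c 40 .nil))) (.b 9024908316178002 .nil))) (.node (.I .adp (.c 8 (.c 16 (.c 8193 .nil))) (.b 2775423329 .nil)) (.I .tdb (.c 0 (.c 32 (.c 24 (.c 48 .nil)))) (.b 35752289 .nil))))) (.node (.node (.node (.I .adp (.c 24 (.c 48 (.c 8193 .nil))) (.b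 35752289 .nil)) (.I .jac (.c 2105481 (.c 24 (.c 48 .nil))) (.b 13057 .nil))) (.node (.I .adp (.c 0 (.c 2113 (.c 18625 .nil))) (.b 13057 .nil)) (.I .jac (.c 0 (.c 24 (.c 48 .nil))) (.r 2113 (.b 13057 .nil))))) (.node (.node (.I .adp (.c 24 (.c 48 (.c 2105481 .nil))) (.b 13057 .nil)) (.I .com (.c 35464401931273 (.c 24 .nil)) (.b 13057 .nil))) (.node (.I .adp (.c 0 (.c 2737112201 (.c 40 .nil))) (.b 8385 .nil)) (.I .adp (.c 0 (.c 2737112201 (.c 32 .nil))) (.b 12993 .nil))))))) (.node (.node (.node (.node (.node (.I .adp (.c 0 (.c 2737112201 (.c 24 .nil))) (.b 13057 .nil)) (.I .adp (.c 0 (.c 2756085834 (.c 40 .nil))) (.b 8385 .nil))) (.node (.I .adp (.c 0 (.c 2756085834 (.c 32 .nil))) (.b 12993 .nil)) (.I .com (.c 8520195 (.c 18561 .nil)) (.b 12993 .nil)))) (.node (.node (.I .adp (.c 0 (.c 2756085834 (.c 24 .nil))) (.b 13057 .nil)) (.I .adp (.c 8 (.c 18561 (.c 24 .nil))) (.l 0 (.b 13057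 .nil)))) (.node (.I .tdp (.c 8 (.c 18561 (.c 0 (.c 24 .nil)))) (.b 13057 .nil)) (.I .com (.c 2728451 (.c 18561 .nil)) (.b 13057 .nil))))) (.node (.node (.node (.I .adp (.c 12993 (.c 32 (.c 9025011228269257 .nil))) .nil) (.I .com (.c 651606621363089303044061530656649 (.c 12993 .nil)) .nil)) (.node (.I .com (.c 651606621363089303044061530656713 (.c 8385 .nil)) .nil) (.I .adp (.c 32 (.c 40 (.c 24 .nil))) (.b 59109062884628932361 .nil)))) (.node (.node (.I .com (.c 12993 (.c 32 .nil)) (.b 59109062884628932361 .nil)) (.I .com (.c 27951050520792140819269269873301704274889 (.c 8385 .nil)) .nil)) (.node (.I .adp (.c 32 (.c 40 (.c 24 .nil))) (.b 35473026505481 .nil)) (.I .com (.c 12993 (.c 32 .nil)) (.b 35473026505481 .nil)))))) (.node (.node (.node (.node (.I .adp (.c 12993 (.c 32 (.c 35473026505481 .nil))) .nil) (.I .adp (.c 8385 (.c 40 (.c 9024839260612617 .nil))) .nil)) (.node (.I .jac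 (.c 18433 (.c 8 (.c 16 .nil))) (.b 1364091105 .nil)) (.I .adp (.c 32 (.c 40 (.c 24 .nil))) (.b 59109065668069837513 .nil)))) (.node (.node (.I .com (.c 12993 (.c 32 .nil)) (.b 59109065668069837513 .nil)) (.I .com (.c 27951053153217538772064147877169776201609 (.c 12993 .nil)) .nil)) (.node (.I .adp (.c 32 (.c 40 (.c 24 .nil))) (.b 35464401931273 .nil)) (.I .com (.c 12993 (.c 32 .nil)) (.b 35464401931273 .nil))))) (.node (.node (.node (.I .adp (.c 12993 (.c 32 (.c 35464401931273 .nil))) .nil) (.I .adp (.c 2718203977 (.c 16 (.c 562466121 .nil))) .nil)) (.node (.I .jac (.c 16 (.c 8385 (.c 40 .nil))) (.l 2718203977 .nil)) (.I .jac (.c 16 (.c 24 (.c 32 .nil))) (.b 40 (.l 2718203977 .nil))))) (.node (.node (.I .jac (.c 2718203977 (.c 8385 (.c 40 .nil))) (.r 16 .nil)) (.I .jac (.c 2718203977 (.c 24 (.c 32 .nil))) (.b 40 (.r 16 .nil)))) (.node (.I .ass (.c 12993 (.c 59109062884628932489 (.c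 16 .nil))) .nil) (.I .com (.c 12993 (.c 59109062884628932489 .nil)) (.r 16 .nil))))))))

noncomputable def c2_284 : Tr := (.node (.node (.node (.node (.node (.node (.I .ass (.c 12993 (.c 2718203977 (.c 8321 .nil))) .nil) (.I .com (.c 12993 (.c 2718203977 .nil)) (.r 8321 .nil))) (.node (.I .ass (.c 12993 (.c 35473026505609 (.c 16 .nil))) .nil) (.I .com (.c 12993 (.c 35473026505609 .nil)) (.r 16 .nil)))) (.node (.node (.I .ass (.c 12993 (.c 2105737 (.c 8321 .nil))) .nil) (.I .com (.c 12993 (.c 2105737 .nil)) (.r 8321 .nil))) (.node (.I .ass (.c 12993 (.c 33587465 (.c 18497 .nil))) .nil) (.I .ass (.c 33587465 (.c 12993 (.c 18497 .nil))) .nil)))) (.node (.node (.node (.I .com (.c 12993 (.c 33587465 .nil)) (.r 18497 .nil)) (.I .tdb (.c 8 (.c 18433 (.c 16 (.c 40 .nil)))) (.l 8385 .nil))) (.node (.I .ass (.c 8385 (.c 59109062884628932553 (.c 16 .nil))) .nil) (.I .com (.c 8385 (.c 59109062884628932553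 .nil)) (.r 16 .nil)))) (.node (.node (.I .ass (.c 8385 (.c 2718203977 (.c 12929 .nil))) .nil) (.I .com (.c 8385 (.c 2718203977 .nil)) (.r 12929 .nil))) (.node (.I .tdb (.c 513 (.c 48 (.c 16 (.c 40 .nil)))) (.l 8385 .nil)) (.I .tdb (.c 0 (.c 8 (.c 16 (.c 40 .nil)))) (.b 48 (.l 8385 .nil))))))) (.node (.node (.node (.node (.I .ass (.c 8385 (.c 35473026505673 (.c 16 .nil))) .nil) (.I .com (.c 8385 (.c 35473026505673 .nil)) (.r 16 .nil))) (.node (.I .ass (.c 8385 (.c 2105737 (.c 12929 .nil))) .nil) (.I .com (.c 8385 (.c 2105737 .nil)) (.r 12929 .nil)))) (.node (.node (.I .ass (.c 8385 (.c 33587529 (.c 18497 .nil))) .nil) (.I .ass (.c 33587529 (.c 8385 (.c 18497 .nil))) .nil)) (.node (.I .com (.c 8385 (.c 33587529 .nil)) (.r 18497 .nil)) (.I .adp (.c 2113 (.c 48 (.c 24 .nil))) (.b 537002313 .nil))))) (.node (.node (.node (.I .ass (.c 12993 (.c 2718204169 (.c 2113 .nil))) .nil) (.I .com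 (.c 12993 (.c 2718204169 .nil)) (.r 2113 .nil))) (.node (.I .ass (.c 12993 (.c 18433 (.c 35718409 .nil))) .nil) (.I .com (.c 12993 (.c 18433 .nil)) (.r 35718409 .nil)))) (.node (.node (.I .ass (.c 12993 (.c 2105481 (.c 18689 .nil))) .nil) (.I .ass (.c 2105481 (.c 12993 (.c 18689 .nil))) .nil)) (.node (.I .com (.c 12993 (.c 2105481 .nil)) (.r 18689 .nil)) (.I .ass (.c 8385 (.c 2718204233 (.c 2113 .nil))) .nil)))))) (.node (.node (.node (.node (.node (.I .com (.c 8385 (.c 2718204233 .nil)) (.r 2113 .nil)) (.I .ass (.c 8385 (.c 18433 (.c 35718473 .nil))) .nil)) (.node (.I .com (.c 8385 (.c 18433 .nil)) (.r 35718473 .nil)) (.I .ass (.c 8385 (.c 2105481 (.c 18753 .nil))) .nil))) (.node (.node (.I .ass (.c 2105481 (.c 8385 (.c 18753 .nil))) .nil) (.I .com (.c 8385 (.c 2105481 .nil)) (.r 18753 .nil))) (.node (.I .adp (.c 8 (.c 18561 (.c 24 .nil))) (.b 537002313 .nil)) (.I .com (.c 2718204041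 (.c 8 .nil)) (.b 562466121 .nil))))) (.node (.node (.node (.I .adp (.c 2718204041 (.c 8 (.c 562466121 .nil))) .nil) (.I .jac (.c 8 (.c 8385 (.c 40 .nil))) (.l 2718204041 .nil))) (.node (.I .jac (.c 8 (.c 24 (.c 32 .nil))) (.b 40 (.l 2718204041 .nil))) (.I .jac (.c 2718204041 (.c 8385 (.c 40 .nil))) (.r 8 .nil)))) (.node (.node (.I .jac (.c 2718204041 (.c 24 (.c 32 .nil))) (.b 40 (.r 8 .nil))) (.I .adp (.c 8 (.c 18561 (.c 24 .nil))) (.b 1311027474 .nil))) (.node (.I .adp (.c 8 (.c 18561 (.c 24 .nil))) (.b 537067858 .nil)) (.I .tdb (.c 16 (.c 18433 (.c 8 (.c 32 .nil)))) (.l 12993 .nil)))))) (.node (.node (.node (.node (.I .ass (.c 12993 (.c 33587593 (.c 8257 .nil))) .nil) (.I .com (.c 12993 (.c 33587593 .nil)) (.r 8257 .nil))) (.node (.I .ass (.c 12993 (.c 513 (.c 2756086025 .nil))) .nil) (.I .ass (.c 513 (.c 12993 (.c 2756086025 .nil))) .nil))) (.node (.node (.I .com (.c 12993 (.c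 513 .nil)) (.r 2756086025 .nil)) (.I .tdb (.c 16 (.c 18433 (.c 8 (.c 40 .nil)))) (.l 8385 .nil))) (.node (.I .tdb (.c 2049 (.c 48 (.c 8 (.c 40 .nil)))) (.l 8385 .nil)) (.I .tdb (.c 0 (.c 16 (.c 40 (.c 8 .nil)))) (.b 48 (.l 8385 .nil)))))) (.node (.node (.node (.I .ass (.c 8385 (.c 33587593 (.c 12865 .nil))) .nil) (.I .com (.c 8385 (.c 33587593 .nil)) (.r 12865 .nil))) (.node (.I .ass (.c 8385 (.c 513 (.c 2756086089 .nil))) .nil) (.I .ass (.c 513 (.c 8385 (.c 2756086089 .nil))) .nil))) (.node (.node (.I .com (.c 8385 (.c 513 .nil)) (.r 2756086089 .nil)) (.I .adp (.c 8 (.c 2775125130 (.c 1310925065 .nil))) .nil)) (.node (.I .tdb (.c 32 (.c 12801 (.c 8 (.c 16 .nil)))) (.l 18625 .nil)) (.I .tdb (.c 32 (.c 12801 (.c 18625 (.c 8 .nil)))) (.r 16 .nil))))))))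

noncomputable def c2_285 : Tr := (.node (.node (.node (.node (.node (.node (.I .adp (.c 16 (.c 48 (.c 24 .nil))) (.l 8 (.b 537002313 .nil))) (.I .tdp (.c 16 (.c 48 (.c 8 (.c 24 .nil)))) (.b 537002313 .nil))) (.node (.I .adp (.c 8 (.c 2775125130 (.c 537002313 .nil))) .nil) (.I .adp (.c 16 (.c 18625 (.c 537002313 .nil))) (.l 8 .nil)))) (.node (.node (.I .tdb (.c 40 (.c 8193 (.c 18625 (.c 8 .nil)))) (.r 16 .nil)) (.I .tdb (.c 0 (.c 32 (.c 18625 (.c 8 .nil)))) (.b 40 (.r 16 .nil)))) (.node (.I .tdb (.c 40 (.c 8193 (.c 8 (.c 16 .nil)))) (.b 18625 .nil)) (.I .tdb (.c 0 (.c 32 (.c 8 (.c 16 .nil)))) (.b 40 (.b 18625 .nil)))))) (.node (.node (.node (.I .tdb (.c 0 (.c 48 (.c 8 (.c 32 .nil)))) (.b 12993 (.l 16 .nil))) (.I .tdb (.c 0 (.c 48 (.c 8 (.c 40 .nil)))) (.b 8385 (.l 16 .nil)))) (.node (.I .tdb (.c 0 (.c 48 (.c 8 (.c 16 .nil)))) (.b 562466121 .nil)) (.I .adp (.c 24 (.c 13057 (.c 9025011228269257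 .nil))) .nil))) (.node (.node (.I .com (.c 3396729512033763431099245905597117501648044234927123676264415715209 (.c 24 .nil)) .nil) (.I .com (.c 3396729512033763431099245905596450256467768431480806557257023273929 (.c 24 .nil)) .nil)) (.node (.I .adp (.c 24 (.c 40 (.c 32 .nil))) (.b 59109062884628932361 .nil)) (.I .jac (.c 59109062884628932361 (.c 32 (.c 40 .nil))) (.l 24 .nil)))))) (.node (.node (.node (.node (.I .adp (.c 24 (.c 40 (.c 32 .nil))) (.b 35473026505481 .nil)) (.I .adp (.c 24 (.c 13057 (.c 35473026505481 .nil))) .nil)) (.node (.I .jac (.c 35473026505481 (.c 32 (.c 40 .nil))) (.l 24 .nil)) (.I .com (.c 810705155088097029465566038962797496400789314964891213705 (.c 24 .nil)) .nil))) (.node (.node (.I .adp (.c 24 (.c 40 (.c 32 .nil))) (.b 9024839260612617 .nil)) (.I .adp (.c 24 (.c 13057 (.c 9024839260612617 .nil))) .nil)) (.node (.I .adp (.c 24 (.c 40 (.c 32 .nil))) (.b 59109065668069837513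 .nil)) (.I .com (.c 6250090978991936935765232166385601895368071167207495409807565740440772089343991689 (.c 24 .nil)) .nil)))) (.node (.node (.node (.I .com (.c 6250090978991936935765232166385601895339449288778600650104972053014550238513511369 (.c 24 .nil)) .nil) (.I .adp (.c 24 (.c 40 (.c 32 .nil))) (.b 35464401931273 .nil))) (.node (.I .adp (.c 24 (.c 13057 (.c 35464401931273 .nil))) .nil) (.I .adp (.c 2718203977 (.c 16 (.c 13057 .nil))) (.l 24 .nil)))) (.node (.node (.I .jac (.c 16 (.c 32 (.c 40 .nil))) (.l 2718203977 (.l 24 .nil))) (.I .jac (.c 2718203977 (.c 32 (.c 40 .nil))) (.r 16 (.l 24 .nil)))) (.node (.I .ass (.c 24 (.c 2718203977 (.c 553912649 .nil))) .nil) (.I .com (.c 24 (.c 2718203977 .nil)) (.r 553912649 .nil))))))) (.node (.node (.node (.node (.node (.I .ass (.c 24 (.c 10066684875777433669609463689 (.c 16 .nil))) .nil) (.I .com (.c 24 (.c 10066684875777433669609463689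 .nil)) (.r 16 .nil))) (.node (.I .ass (.c 24 (.c 10066684875741109290467687369 (.c 16 .nil))) .nil) (.I .com (.c 24 (.c 10066684875741109290467687369 .nil)) (.r 16 .nil)))) (.node (.node (.I .ass (.c 24 (.c 2105737 (.c 1337272585 .nil))) .nil) (.I .com (.c 24 (.c 2105737 .nil)) (.r 1337272585 .nil))) (.node (.I .ass (.c 24 (.c 9024976834606985 (.c 18497 .nil))) .nil) (.I .ass (.c 9024976834606985 (.c 24 (.c 18497 .nil))) .nil)))) (.node (.node (.node (.I .com (.c 24 (.c 9024976834606985 .nil)) (.r 18497 .nil)) (.I .com (.c 18497 (.c 24 .nil)) (.l 9024976834606985 .nil))) (.node (.I .ass (.c 24 (.c 9024942441010121 (.c 18497 .nil))) .nil) (.I .ass (.c 9024942441010121 (.c 24 (.c 18497 .nil))) .nil))) (.node (.node (.I .com (.c 24 (.c 9024942441010121 .nil)) (.r 18497 .nil)) (.I .com (.c 18497 (.c 24 .nil)) (.l 9024942441010121 .nil))) (.node (.I .ass (.c 24 (.c 2049 (.c 59934274015313491849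 .nil))) .nil) (.I .ass (.c 2049 (.c 24 (.c 59934274015313491849 .nil))) .nil))))) (.node (.node (.node (.node (.I .com (.c 24 (.c 2049 .nil)) (.r 59934274015313491849 .nil)) (.I .jac (.c 14629225721520329 (.c 32 (.c 40 .nil))) (.l 24 .nil))) (.node (.I .adp (.c 18433 (.c 2113 (.c 13057 .nil))) (.l 24 .nil)) (.I .jac (.c 18433 (.c 32 (.c 40 .nil))) (.r 2113 (.l 24 .nil))))) (.node (.node (.I .ass (.c 24 (.c 59109071234951844809 (.c 2113 .nil))) .nil) (.I .com (.c 24 (.c 59109071234951844809 .nil)) (.r 2113 .nil))) (.node (.I .adp (.c 33587273 (.c 48 (.c 13057 .nil))) (.l 24 .nil)) (.I .ass (.c 24 (.c 33587273 (.c 1363882377 .nil))) .nil)))) (.node (.node (.node (.I .ass (.c 33587273 (.c 24 (.c 1363882377 .nil))) .nil) (.I .com (.c 24 (.c 33587273 .nil)) (.r 1363882377 .nil))) (.node (.I .adp (.c 8 (.c 18561 (.c 32 .nil))) (.b 169943369 .nil)) (.I .adp (.c 8 (.c 18561 (.c 32 .nil)))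 (.b 21099011 .nil)))) (.node (.node (.I .adp (.c 8 (.c 18561 (.c 32 .nil))) (.b 169980242 .nil)) (.I .adp (.c 33587593 (.c 8 (.c 13057 .nil))) (.l 24 .nil))) (.node (.I .jac (.c 8 (.c 32 (.c 40 .nil))) (.l 33587593 (.l 24 .nil))) (.I .jac (.c 33587593 (.c 32 (.c 40 .nil))) (.r 8 (.l 24 .nil)))))))))

noncomputable def c2_286 : Tr := (.node (.node (.node (.node (.node (.node (.I .ass (.c 24 (.c 651606621363126269490052522057609 (.c 8 .nil))) .nil) (.I .com (.c 24 (.c 651606621363126269490052522057609 .nil)) (.r 8 .nil))) (.node (.I .ass (.c 24 (.c 651606621363117027878554774109129 (.c 8 .nil))) .nil) (.I .com (.c 24 (.c 651606621363117027878554774109129 .nil)) (.r 8 .nil)))) (.node (.node (.I .ass (.c 24 (.c 33587593 (.c 1324066057 .nil))) .nil) (.I .com (.c 24 (.c 33587593 .nil)) (.r 1324066057 .nil))) (.node (.I .ass (.c 24 (.c 33587593 (.c 545424713 .nil))) .nil) (.I .com (.c 24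 (.c 33587593 .nil)) (.r 545424713 .nil))))) (.node (.node (.node (.I .ass (.c 24 (.c 35470870263689 (.c 18561 .nil))) .nil) (.I .ass (.c 35470870263689 (.c 24 (.c 18561 .nil))) .nil)) (.node (.I .com (.c 24 (.c 35470870263689 .nil)) (.r 18561 .nil)) (.I .com (.c 18561 (.c 24 .nil)) (.l 35470870263689 .nil)))) (.node (.node (.I .ass (.c 24 (.c 35468714087369 (.c 18561 .nil))) .nil) (.I .ass (.c 35468714087369 (.c 24 (.c 18561 .nil))) .nil)) (.node (.I .com (.c 24 (.c 35468714087369 .nil)) (.r 18561 .nil)) (.I .com (.c 18561 (.c 24 .nil)) (.l 35468714087369 .nil)))))) (.node (.node (.node (.node (.I .adp (.c 16 (.c 48 (.c 32 .nil))) (.l 8 (.b 1310925001 .nil))) (.I .tdp (.c 16 (.c 48 (.c 8 (.c 32 .nil)))) (.b 1310925001 .nil))) (.node (.I .tdb (.c 24 (.c 12801 (.c 18689 (.c 16 .nil)))) (.l 8 .nil)) (.I .adp (.c 16 (.c 18689 (.c 1310925001 .nil))) (.l 8 .nil)))) (.node (.node (.I .jac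 (.c 1310925001 (.c 32 (.c 48 .nil))) (.l 16 (.l 8 .nil))) (.I .tdb (.c 24 (.c 12801 (.c 8 (.c 16 .nil)))) (.b 18689 .nil))) (.node (.I .adp (.c 8 (.c 18562 (.c 32 .nil))) (.b 169943369 .nil)) (.I .tdb (.c 4609 (.c 40 (.c 18689 (.c 16 .nil)))) (.l 8 .nil))))) (.node (.node (.node (.I .tdb (.c 0 (.c 24 (.c 18689 (.c 16 .nil)))) (.b 40 (.l 8 .nil))) (.I .tdb (.c 32 (.c 48 (.c 0 (.c 16 .nil)))) (.b 24 (.b 40 (.l 8 .nil))))) (.node (.I .tdb (.c 4609 (.c 40 (.c 18689 (.c 8 .nil)))) (.r 16 .nil)) (.I .tdb (.c 0 (.c 24 (.c 18689 (.c 8 .nil)))) (.b 40 (.r 16 .nil))))) (.node (.node (.I .tdb (.c 32 (.c 48 (.c 0 (.c 8 .nil)))) (.b 24 (.b 40 (.r 16 .nil)))) (.I .tdb (.c 4609 (.c 40 (.c 8 (.c 16 .nil)))) (.b 18689 .nil))) (.node (.I .tdb (.c 0 (.c 24 (.c 8 (.c 16 .nil)))) (.b 40 (.b 18689 .nil))) (.I .adp (.c 0 (.c 40 (.c 35718537 .nil))) (.b 8385 .nil))))))) (.node (.node (.node (.node (.node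 (.I .adp (.c 0 (.c 40 (.c 2756085834 .nil))) (.b 8385 .nil)) (.I .tdb (.c 16 (.c 48 (.c 0 (.c 8 .nil)))) (.r 40 (.b 8385 .nil)))) (.node (.I .adp (.c 8 (.c 18561 (.c 0 .nil))) (.r 40 (.b 8385 .nil))) (.I .jac (.c 0 (.c 16 (.c 48 .nil))) (.l 8 (.r 40 (.b 8385 .nil)))))) (.node (.node (.I .com (.c 2718204041 (.c 8 .nil)) (.r 40 (.b 8385 .nil))) (.I .com (.c 33587593 (.c 8 .nil)) (.r 40 (.b 8385 .nil)))) (.node (.I .ass (.c 513 (.c 18561 (.c 40 .nil))) (.b 8385 .nil)) (.I .adp (.c 0 (.c 40 (.c 24 .nil))) (.b 60768072995003804705 .nil))))) (.node (.node (.node (.I .tdb (.c 16 (.c 48 (.c 8 (.c 32 .nil)))) (.b 1350544394 .nil)) (.I .adp (.c 8 (.c 18561 (.c 32 .nil))) (.b 1350544394 .nil))) (.node (.I .adp (.c 0 (.c 40 (.c 32 .nil))) (.b 60768072995003804641 .nil)) (.I .jac (.c 2049 (.c 8 (.c 48 .nil))) (.b 562600289 .nil)))) (.node (.node (.I .adp (.c 24 (.c 32 (.c 40 .nil))) (.b 9025011228269257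 .nil)) (.I .adp (.c 24 (.c 32 (.c 40 .nil))) (.b 59109062884628932361 .nil))) (.node (.I .adp (.c 24 (.c 32 (.c 40 .nil))) (.b 59109065668069837513 .nil)) (.I .adp (.c 2113 (.c 48 (.c 40 .nil))) (.b 537002185 .nil)))))) (.node (.node (.node (.node (.I .adp (.c 8 (.c 18561 (.c 40 .nil))) (.b 537002185 .nil)) (.I .adp (.c 8 (.c 18561 (.c 40 .nil))) (.b 169943305 .nil))) (.node (.I .adp (.c 8 (.c 18561 (.c 40 .nil))) (.b 8786435 .nil)) (.I .tdb (.c 16 (.c 48 (.c 8 (.c 40 .nil)))) (.b 169980178 .nil)))) (.node (.node (.I .adp (.c 8 (.c 18561 (.c 40 .nil))) (.b 169980178 .nil)) (.I .tdb (.c 24 (.c 8193 (.c 18753 (.c 16 .nil)))) (.l 8 .nil))) (.node (.I .jac (.c 537002185 (.c 40 (.c 48 .nil))) (.l 16 (.l 8 .nil))) (.I .tdb (.c 24 (.c 8193 (.c 8 (.c 16 .nil)))) (.l 18753 .nil))))) (.node (.node (.node (.I .tdb (.c 24 (.c 8193 (.c 8 (.c 16 .nil)))) (.b 18753 .nil)) (.I .adp (.c 8 (.c 18562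 (.c 40 .nil))) (.b 169943305 .nil))) (.node (.I .tdb (.c 4609 (.c 32 (.c 18753 (.c 16 .nil)))) (.l 8 .nil)) (.I .tdb (.c 0 (.c 24 (.c 18753 (.c 16 .nil)))) (.b 32 (.l 8 .nil))))) (.node (.node (.I .tdb (.c 40 (.c 48 (.c 0 (.c 16 .nil)))) (.b 24 (.b 32 (.l 8 .nil)))) (.I .jac (.c 169943305 (.c 40 (.c 48 .nil))) (.l 16 (.l 8 .nil)))) (.node (.I .com (.c 49484669137443443691131785 (.c 18753 .nil)) .nil) (.I .tdb (.c 4609 (.c 32 (.c 18753 (.c 8 .nil)))) (.r 16 .nil))))))))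

noncomputable def c2_287 : Tr := (.node (.node (.node (.node (.node (.node (.I .tdb (.c 0 (.c 24 (.c 18753 (.c 8 .nil)))) (.b 32 (.r 16 .nil))) (.I .tdb (.c 40 (.c 48 (.c 0 (.c 8 .nil)))) (.b 24 (.b 32 (.r 16 .nil))))) (.node (.I .tdb (.c 4609 (.c 32 (.c 8 (.c 16 .nil)))) (.b 18753 .nil)) (.I .tdb (.c 0 (.c 24 (.c 8 (.c 16 .nil)))) (.b 32 (.b 18753 .nil))))) (.node (.node (.I .adp (.c 0 (.c 32 (.c 43059267 .nil))) (.b 12993 .nil)) (.I .adp (.c 2113 (.c 48 (.c 8193 .nil))) (.b 12993 .nil))) (.node (.I .adp (.c 8 (.c 18561 (.c 8193 .nil))) (.b 12993 .nil)) (.I .adp (.c 0 (.c 32 (.c 24 .nil))) (.b 60768072995003804769 .nil))))) (.node (.node (.node (.I .tdb (.c 16 (.c 48 (.c 8 (.c 40 .nil)))) (.b 562465802 .nil)) (.I .adp (.c 8 (.c 18561 (.c 40 .nil))) (.b 562465802 .nil))) (.node (.I .adp (.c 0 (.c 32 (.c 2756085834 .nil))) (.b 12993 .nil)) (.I .tdb (.c 16 (.c 48 (.c 0 (.c 8 .nil))))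 (.r 32 (.b 12993 .nil))))) (.node (.node (.I .adp (.c 8 (.c 18561 (.c 0 .nil))) (.r 32 (.b 12993 .nil))) (.I .jac (.c 0 (.c 16 (.c 48 .nil))) (.l 8 (.r 32 (.b 12993 .nil))))) (.node (.I .com (.c 2718204041 (.c 8 .nil)) (.r 32 (.b 12993 .nil))) (.I .com (.c 33587593 (.c 8 .nil)) (.r 32 (.b 12993 .nil))))))) (.node (.node (.node (.node (.I .ass (.c 513 (.c 18561 (.c 32 .nil))) (.b 12993 .nil)) (.I .adp (.c 0 (.c 32 (.c 40 .nil))) (.b 60768072995003804641 .nil))) (.node (.I .adp (.c 8 (.c 18561 (.c 4609 .nil))) (.b 13057 .nil)) (.I .adp (.c 8 (.c 18562 (.c 4609 .nil))) (.b 13057 .nil)))) (.node (.node (.I .adp (.c 16 (.c 48 (.c 4609 .nil))) (.l 8 (.b 13057 .nil))) (.I .jac (.c 2737112201 (.c 12993 (.c 32 .nil))) (.l 0 .nil))) (.node (.I .tdb (.c 16 (.c 18497 (.c 0 (.c 32 .nil)))) (.l 12993 .nil)) (.I .ass (.c 12993 (.c 8193 (.c 2737112201 .nil))) .nil)))) (.node (.node (.node (.I .ass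 (.c 8193 (.c 12993 (.c 2737112201 .nil))) .nil) (.I .com (.c 12993 (.c 8193 .nil)) (.r 2737112201 .nil))) (.node (.I .com (.c 2737112201 (.c 12993 .nil)) (.l 8193 .nil)) (.I .jac (.c 43655171 (.c 8 (.c 16 .nil))) (.l 12993 .nil)))) (.node (.node (.I .ass (.c 12993 (.c 8193 (.c 35718537 .nil))) .nil) (.I .ass (.c 8193 (.c 12993 (.c 35718537 .nil))) .nil)) (.node (.I .com (.c 12993 (.c 8193 .nil)) (.r 35718537 .nil)) (.I .tdb (.c 16 (.c 18497 (.c 0 (.c 40 .nil)))) (.l 8385 .nil))))))) (.node (.node (.node (.node (.node (.I .ass (.c 8385 (.c 12801 (.c 2737112201 .nil))) .nil) (.I .ass (.c 12801 (.c 8385 (.c 2737112201 .nil))) .nil)) (.node (.I .com (.c 8385 (.c 12801 .nil)) (.r 2737112201 .nil)) (.I .com (.c 2737112201 (.c 8385 .nil)) (.l 12801 .nil)))) (.node (.node (.I .com (.c 59934265606904515529 (.c 8385 .nil)) (.l 0 .nil)) (.I .ass (.c 8385 (.c 12801 (.c 35718537 .nil))) .nil))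 (.node (.I .ass (.c 12801 (.c 8385 (.c 35718537 .nil))) .nil) (.I .com (.c 8385 (.c 12801 .nil)) (.r 35718537 .nil))))) (.node (.node (.node (.I .tdb (.c 40 (.c 8257 (.c 0 (.c 16 .nil)))) (.l 18625 .nil)) (.I .tdb (.c 8 (.c 32 (.c 0 (.c 16 .nil)))) (.b 40 (.l 18625 .nil)))) (.node (.I .tdb (.c 40 (.c 8257 (.c 0 (.c 16 .nil)))) (.b 18625 .nil)) (.I .tdb (.c 8 (.c 32 (.c 0 (.c 16 .nil)))) (.b 40 (.b 18625 .nil))))) (.node (.node (.I .tdb (.c 8 (.c 48 (.c 16 (.c 32 .nil)))) (.b 12993 (.l 0 .nil))) (.I .tdb (.c 8 (.c 48 (.c 0 (.c 32 .nil)))) (.b 12993 (.l 16 .nil)))) (.node (.I .tdb (.c 8 (.c 48 (.c 16 (.c 40 .nil)))) (.b 8385 (.l 0 .nil))) (.I .jac (.c 20891651 (.c 24 (.c 32 .nil))) (.b 18497 .nil)))))) (.node (.node (.node (.node (.I .adp (.c 24 (.c 40 (.c 2718204041 .nil))) (.b 8257 .nil)) (.I .com (.c 59109065668069837769 (.c 24 .nil)) (.b 8257 .nil))) (.node (.I .adp (.c 18433 (.c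 16 (.c 32 .nil))) (.b 174695753 .nil)) (.I .jac (.c 2737112201 (.c 32 (.c 40 .nil))) (.l 0 (.l 24 .nil))))) (.node (.node (.I .ass (.c 24 (.c 1310925065 (.c 2737112201 .nil))) .nil) (.I .ass (.c 1310925065 (.c 24 (.c 2737112201 .nil))) .nil)) (.node (.I .com (.c 24 (.c 1310925065 .nil)) (.r 2737112201 .nil)) (.I .com (.c 2737112201 (.c 24 .nil)) (.l 1310925065 .nil))))) (.node (.node (.node (.I .ass (.c 24 (.c 0 (.c 28736929550711819961251946715921617198985 .nil))) .nil) (.I .ass (.c 0 (.c 24 (.c 28736929550711819961251946715921617198985 .nil))) .nil)) (.node (.I .com (.c 24 (.c 0 .nil)) (.r 28736929550711819961251946715921617198985 .nil)) (.I .ass (.c 24 (.c 0 (.c 28736929550711819899879258734451393330121 .nil))) .nil))) (.node (.node (.I .ass (.c 0 (.c 24 (.c 28736929550711819899879258734451393330121 .nil))) .nil) (.I .com (.c 24 (.c 0 .nil)) (.r 28736929550711819899879258734451393330121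 .nil))) (.node (.I .ass (.c 24 (.c 537002313 (.c 35718537 .nil))) .nil) (.I .ass (.c 537002313 (.c 24 (.c 35718537 .nil))) .nil)))))))

noncomputable def c2_288 : Tr := (.node (.node (.node (.node (.node (.node (.I .com (.c 24 (.c 537002313 .nil)) (.r 35718537 .nil)) (.I .tdb (.c 4673 (.c 40 (.c 0 (.c 16 .nil)))) (.b 18689 .nil))) (.node (.I .tdb (.c 8 (.c 24 (.c 0 (.c 16 .nil)))) (.b 40 (.b 18689 .nil))) (.I .adp (.c 8 (.c 40 (.c 43059203 .nil))) (.b 8385 .nil)))) (.node (.node (.I .adp (.c 8 (.c 40 (.c 24 .nil))) (.b 14832759703961929 .nil)) (.I .adp (.c 24 (.c 32 (.c 2718204041 .nil))) (.b 12865 .nil))) (.node (.I .com (.c 59109065668069837705 (.c 24 .nil)) (.b 12865 .nil)) (.I .adp (.c 18433 (.c 16 (.c 40 .nil))) (.b 174695689 .nil))))) (.node (.node (.node (.I .tdb (.c 24 (.c 8257 (.c 0 (.c 16 .nil)))) (.l 18753 .nil)) (.I .jac (.c 174695689 (.c 40 (.c 48 .nil))) (.l 16 (.l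 0 .nil)))) (.node (.I .adp (.c 8 (.c 32 (.c 43059203 .nil))) (.b 12993 .nil)) (.I .adp (.c 8 (.c 24 (.c 2718204041 .nil))) (.b 13057 .nil)))) (.node (.node (.I .adp (.c 18433 (.c 16 (.c 4673 .nil))) (.b 13057 .nil)) (.I .adp (.c 1310925001 (.c 32 (.c 2737112201 .nil))) .nil)) (.node (.I .adp (.c 169943369 (.c 32 (.c 35718537 .nil))) .nil) (.I .adp (.c 1324065993 (.c 32 (.c 2718204041 .nil))) .nil))))) (.node (.node (.node (.node (.I .com (.c 59109065668069837705 (.c 1324065993 .nil)) .nil) (.I .adp (.c 174695753 (.c 32 (.c 2718204041 .nil))) .nil)) (.node (.I .adp (.c 174695753 (.c 32 (.c 33587593 .nil))) .nil) (.I .adp (.c 537002185 (.c 40 (.c 2737112201 .nil))) .nil))) (.node (.node (.I .adp (.c 12801 (.c 8385 (.c 35718537 .nil))) .nil) (.I .adp (.c 537002185 (.c 40 (.c 35718537 .nil))) .nil)) (.node (.I .adp (.c 169943305 (.c 40 (.c 35718537 .nil))) .nil) (.I .jac (.c 2718204041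 (.c 24 (.c 32 .nil))) (.l 12865 .nil))))) (.node (.node (.node (.I .com (.c 59109065668069837769 (.c 545424585 .nil)) .nil) (.I .com (.c 59109065668069837769 (.c 174695689 .nil)) .nil)) (.node (.I .adp (.c 174695689 (.c 40 (.c 33587593 .nil))) .nil) (.I .com (.c 537002313 (.c 24 .nil)) (.b 2737112201 .nil)))) (.node (.node (.I .adp (.c 1310925065 (.c 24 (.c 2737112201 .nil))) .nil) (.I .adp (.c 537002313 (.c 24 (.c 2737112201 .nil))) .nil)) (.node (.I .com (.c 537002313 (.c 24 .nil)) (.b 35718537 .nil)) (.I .adp (.c 1310925065 (.c 24 (.c 35718537 .nil))) .nil)))))) (.node (.node (.node (.node (.node (.I .adp (.c 537002313 (.c 24 (.c 35718537 .nil))) .nil) (.I .com (.c 545424713 (.c 24 .nil)) (.b 2718204041 .nil))) (.node (.I .adp (.c 1324066057 (.c 24 (.c 2718204041 .nil))) .nil) (.I .com (.c 59109065668069837641 (.c 1324066057 .nil)) .nil))) (.node (.node (.I .adp (.c 545424713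 (.c 24 (.c 2718204041 .nil))) .nil) (.I .adp (.c 4673 (.c 13057 (.c 2718204041 .nil))) .nil)) (.node (.I .jac (.c 2718204041 (.c 32 (.c 40 .nil))) (.l 4673 .nil)) (.I .com (.c 545424713 (.c 24 .nil)) (.b 33587593 .nil))))) (.node (.node (.node (.I .com (.c 1324066057 (.c 24 .nil)) (.b 33587593 .nil)) (.I .adp (.c 1324066057 (.c 24 (.c 33587593 .nil))) .nil)) (.node (.I .adp (.c 545424713 (.c 24 (.c 33587593 .nil))) .nil) (.I .adp (.c 4673 (.c 13057 (.c 33587593 .nil))) .nil))) (.node (.node (.I .tdp (.c 32 (.c 40 (.c 0 (.c 24 .nil)))) (.b 2737112201 .nil)) (.I .com (.c 8786435 (.c 40 .nil)) (.b 2737112201 .nil))) (.node (.I .adp (.c 21099011 (.c 32 (.c 2737112201 .nil))) .nil) (.I .com (.c 59934265606904515465 (.c 24 .nil)) (.l 12801 .nil)))))) (.node (.node (.node (.node (.I .adp (.c 8786435 (.c 40 (.c 2737112201 .nil))) .nil) (.I .com (.c 59934265606904515529 (.c 24 .nil)) (.l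 8193 .nil))) (.node (.I .adp (.c 4609 (.c 13058 (.c 2737112201 .nil))) .nil) (.I .adp (.c 32 (.c 40 (.c 2737112201 .nil))) (.l 4609 .nil)))) (.node (.node (.I .com (.c 59934265606904515529 (.c 32 .nil)) (.l 4609 .nil)) (.I .com (.c 21307459 (.c 24 .nil)) (.b 2718204041 .nil))) (.node (.I .ass (.c 24 (.c 8257 (.c 40 .nil))) (.b 2718204041 .nil)) (.I .ass (.c 8257 (.c 24 (.c 40 .nil))) (.b 2718204041 .nil))))) (.node (.node (.node (.I .com (.c 24 (.c 8257 .nil)) (.r 40 (.b 2718204041 .nil))) (.I .com (.c 8786499 (.c 40 .nil)) (.b 2718204041 .nil))) (.node (.I .adp (.c 21307459 (.c 24 (.c 2718204041 .nil))) .nil) (.I .adp (.c 21099075 (.c 32 (.c 2718204041 .nil))) .nil))) (.node (.node (.I .com (.c 59109065668069837705 (.c 24 .nil)) (.l 12865 .nil)) (.I .adp (.c 8786499 (.c 40 (.c 2718204041 .nil))) .nil)) (.node (.I .adp (.c 8257 (.c 12994 (.c 2718204041 .nil))) .nil) (.I .adp (.c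 24 (.c 40 (.c 2718204041 .nil))) (.l 8257 .nil))))))))

noncomputable def c2_289 : Tr := (.node (.node (.node (.node (.node (.node (.I .com (.c 59109065668069837769 (.c 24 .nil)) (.l 8257 .nil)) (.I .adp (.c 4673 (.c 13058 (.c 2718204041 .nil))) .nil)) (.node (.I .adp (.c 32 (.c 40 (.c 2718204041 .nil))) (.l 4673 .nil)) (.I .com (.c 59109065668069837769 (.c 32 .nil)) (.l 4673 .nil)))) (.node (.node (.I .com (.c 21307459 (.c 24 .nil)) (.b 33587593 .nil)) (.I .ass (.c 12865 (.c 24 (.c 32 .nil))) (.b 33587593 .nil))) (.node (.I .ass (.c 24 (.c 8257 (.c 40 .nil))) (.b 33587593 .nil)) (.I .ass (.c 8257 (.c 24 (.c 40 .nil))) (.b 33587593 .nil))))) (.node (.node (.node (.I .com (.c 24 (.c 8257 .nil)) (.r 40 (.b 33587593 .nil))) (.I .adp (.c 12865 (.c 8386 (.c 33587593 .nil))) .nil)) (.node (.I .adp (.c 24 (.c 32 (.c 33587593 .nil))) (.l 12865 .nil)) (.I .adp (.c 8257 (.c 12994 (.c 33587593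 .nil))) .nil))) (.node (.node (.I .adp (.c 24 (.c 40 (.c 33587593 .nil))) (.l 8257 .nil)) (.I .adp (.c 18497 (.c 16 (.c 13748194865974800265 .nil))) .nil)) (.node (.I .adp (.c 2049 (.c 48 (.c 2379904940409059145 .nil))) .nil) (.I .jac (.c 18433 (.c 1324065993 (.c 32 .nil))) (.r 16 .nil)))))) (.node (.node (.node (.node (.I .jac (.c 18433 (.c 12865 (.c 24 .nil))) (.b 32 (.r 16 .nil))) (.I .jac (.c 18433 (.c 8 (.c 40 .nil))) (.b 24 (.b 32 (.r 16 .nil))))) (.node (.I .adp (.c 16 (.c 48 (.c 0 .nil))) (.b 2379903823379378121 .nil)) (.I .com (.c 18433 (.c 16 .nil)) (.b 2379903823379378121 .nil)))) (.node (.node (.I .adp (.c 18433 (.c 16 (.c 2379903823379378121 .nil))) .nil) (.I .jac (.c 18433 (.c 545424585 (.c 40 .nil))) (.r 16 .nil))) (.node (.I .jac (.c 18433 (.c 8257 (.c 24 .nil))) (.b 40 (.r 16 .nil))) (.I .jac (.c 18433 (.c 8 (.c 32 .nil))) (.b 24 (.b 40 (.r 16 .nil))))))) (.node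 (.node (.node (.I .adp (.c 2049 (.c 48 (.c 2379903823379378121 .nil))) .nil) (.I .adp (.c 2113 (.c 48 (.c 13748196208362033993 .nil))) .nil)) (.node (.I .jac (.c 18433 (.c 174695689 (.c 40 .nil))) (.r 16 .nil)) (.I .jac (.c 18433 (.c 4673 (.c 32 .nil))) (.b 40 (.r 16 .nil))))) (.node (.node (.I .jac (.c 18433 (.c 8 (.c 24 .nil))) (.b 32 (.b 40 (.r 16 .nil)))) (.I .adp (.c 18433 (.c 16 (.c 3632106110100617 .nil))) .nil)) (.node (.I .adp (.c 1310925001 (.c 32 (.c 43059267 .nil))) .nil) (.I .adp (.c 18497 (.c 16 (.c 617611520074121 .nil))) .nil)))))) (.node (.node (.node (.node (.node (.I .adp (.c 1310925001 (.c 32 (.c 2737260178 .nil))) .nil) (.I .adp (.c 18497 (.c 16 (.c 32 .nil))) (.l 1310925001 .nil))) (.node (.I .tdb (.c 24 (.c 12801 (.c 18497 (.c 16 .nil)))) (.r 32 .nil)) (.I .adp (.c 18497 (.c 16 (.c 1310925001 .nil))) (.r 32 .nil)))) (.node (.node (.I .tdp (.c 18497 (.c 16 (.c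 32 (.c 1310925001 .nil)))) .nil) (.I .tdb (.c 8 (.c 48 (.c 32 (.c 40 .nil)))) (.b 4609 (.l 16 .nil)))) (.node (.I .adp (.c 18433 (.c 16 (.c 3632062472293641 .nil))) .nil) (.I .jac (.c 617611520074185 (.c 8 (.c 40 .nil))) (.l 16 .nil))))) (.node (.node (.node (.I .tdb (.c 0 (.c 48 (.c 24 (.c 32 .nil)))) (.b 12865 (.l 16 .nil))) (.I .jac (.c 3632040653488585 (.c 8 (.c 24 .nil))) (.l 16 .nil))) (.node (.I .tdb (.c 0 (.c 48 (.c 32 (.c 40 .nil)))) (.b 4673 (.l 16 .nil))) (.I .adp (.c 2049 (.c 48 (.c 12993 .nil))) (.l 8257 .nil)))) (.node (.node (.I .adp (.c 537002185 (.c 40 (.c 43059267 .nil))) .nil) (.I .adp (.c 18497 (.c 16 (.c 3561346121425225 .nil))) .nil)) (.node (.I .adp (.c 537002185 (.c 40 (.c 2737260178 .nil))) .nil) (.I .adp (.c 18497 (.c 16 (.c 40 .nil))) (.l 537002185 .nil)))))) (.node (.node (.node (.node (.I .tdb (.c 24 (.c 8193 (.c 18497 (.c 16 .nil)))) (.r 40 .nil)) (.I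 .adp (.c 18497 (.c 16 (.c 537002185 .nil))) (.r 40 .nil))) (.node (.I .tdp (.c 18497 (.c 16 (.c 40 (.c 537002185 .nil)))) .nil) (.I .tdb (.c 8 (.c 48 (.c 24 (.c 40 .nil)))) (.b 8193 (.l 16 .nil))))) (.node (.node (.I .tdb (.c 24 (.c 8193 (.c 18497 (.c 40 .nil)))) (.l 16 .nil)) (.I .tdb (.c 0 (.c 32 (.c 18497 (.c 40 .nil)))) (.b 24 (.l 16 .nil)))) (.node (.I .adp (.c 18433 (.c 16 (.c 3561367726845257 .nil))) .nil) (.I .jac (.c 3561346121425353 (.c 8 (.c 32 .nil))) (.l 16 .nil))))) (.node (.node (.node (.I .tdb (.c 0 (.c 48 (.c 24 (.c 40 .nil)))) (.b 8257 (.l 16 .nil))) (.I .adp (.c 2049 (.c 48 (.c 8385 .nil))) (.l 12865 .nil))) (.node (.I .adp (.c 1310925065 (.c 24 (.c 43059267 .nil))) .nil) (.I .adp (.c 537002313 (.c 24 (.c 43059267 .nil))) .nil))) (.node (.node (.I .adp (.c 1310925065 (.c 24 (.c 2737260178 .nil))) .nil) (.I .adp (.c 18497 (.c 16 (.c 24 .nil))) (.l 1310925065 .nil)))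 (.node (.I .tdb (.c 32 (.c 12801 (.c 18497 (.c 16 .nil)))) (.r 24 .nil)) (.I .adp (.c 18497 (.c 16 (.c 1310925065 .nil))) (.r 24 .nil))))))))

noncomputable def c2_290 : Tr := (.node (.node (.node (.node (.node (.node (.I .tdp (.c 18497 (.c 16 (.c 24 (.c 1310925065 .nil)))) .nil) (.I .tdb (.c 32 (.c 12801 (.c 18497 (.c 24 .nil)))) (.l 16 .nil))) (.node (.I .adp (.c 537002313 (.c 24 (.c 2737260178 .nil))) .nil) (.I .adp (.c 18497 (.c 16 (.c 24 .nil))) (.l 537002313 .nil)))) (.node (.node (.I .tdb (.c 40 (.c 8193 (.c 18497 (.c 16 .nil)))) (.r 24 .nil)) (.I .tdb (.c 0 (.c 32 (.c 18497 (.c 16 .nil)))) (.b 40 (.r 24 .nil)))) (.node (.I .adp (.c 18497 (.c 16 (.c 537002313 .nil))) (.r 24 .nil)) (.I .tdp (.c 18497 (.c 16 (.c 24 (.c 537002313 .nil)))) .nil)))) (.node (.node (.node (.I .adp (.c 2049 (.c 48 (.c 13057 .nil))) (.l 4673 .nil)) (.I .adp (.c 12865 (.c 32 (.c 24 .nil))) (.b 2718204041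 .nil))) (.node (.I .jac (.c 2718204041 (.c 12993 (.c 32 .nil))) (.l 8 .nil)) (.I .jac (.c 2718204041 (.c 24 (.c 40 .nil))) (.b 32 (.l 8 .nil))))) (.node (.node (.I .jac (.c 2718204041 (.c 24 (.c 32 .nil))) (.b 40 (.l 8 .nil))) (.I .adp (.c 8 (.c 21307587 (.c 2718204041 .nil))) .nil)) (.node (.I .adp (.c 8 (.c 1350648594 (.c 2718204041 .nil))) .nil) (.I .adp (.c 12993 (.c 32 (.c 2718204041 .nil))) (.l 8 .nil)))))) (.node (.node (.node (.node (.I .com (.c 59109065668069837705 (.c 12993 .nil)) (.l 8 .nil)) (.I .tdp (.c 12993 (.c 32 (.c 2718204041 (.c 8 .nil)))) .nil)) (.node (.I .adp (.c 8 (.c 1350648594 (.c 33587593 .nil))) .nil) (.I .tdp (.c 12993 (.c 32 (.c 33587593 (.c 8 .nil)))) .nil))) (.node (.node (.I .adp (.c 8 (.c 562533202 (.c 33587593 .nil))) .nil) (.I .tdp (.c 8385 (.c 40 (.c 33587593 (.c 8 .nil)))) .nil)) (.node (.I .com (.c 14502375955699775287798242710605707833569655562999404747740027693550253441865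 (.c 16 .nil)) .nil) (.I .com (.c 14502375955699775287798242710605707702773253504726683624627973777921090328585 (.c 16 .nil)) .nil)))) (.node (.node (.node (.I .adp (.c 16 (.c 48 (.c 24 .nil))) (.b 35470870263689 .nil)) (.I .adp (.c 16 (.c 18625 (.c 2306969673777850313 .nil))) .nil)) (.node (.I .jac (.c 13748196208362033865 (.c 24 (.c 48 .nil))) (.l 16 .nil)) (.I .adp (.c 16 (.c 48 (.c 24 .nil))) (.b 35468714087369 .nil)))) (.node (.node (.I .adp (.c 16 (.c 18625 (.c 35468714087369 .nil))) .nil) (.I .adp (.c 16 (.c 18625 (.c 3632062472293449 .nil))) .nil)) (.node (.I .jac (.c 3632062472293449 (.c 24 (.c 48 .nil))) (.l 16 .nil)) (.I .jac (.c 3632040653488265 (.c 24 (.c 48 .nil))) (.l 16 .nil))))))) (.node (.node (.node (.node (.node (.I .com (.c 89098986658132392148749725165847709028498851657466979119523616777 (.c 16 .nil)) .nil) (.I .adp (.c 16 (.c 18625 (.c 580749782704521 .nil)))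 .nil)) (.node (.I .adp (.c 1310924873 (.c 32 (.c 2775125130 .nil))) .nil) (.I .adp (.c 16 (.c 18625 (.c 32 .nil))) (.l 1310924873 .nil)))) (.node (.node (.I .tdb (.c 8 (.c 12801 (.c 18625 (.c 16 .nil)))) (.r 32 .nil)) (.I .adp (.c 16 (.c 18625 (.c 1310924873 .nil))) (.r 32 .nil))) (.node (.I .jac (.c 1310924873 (.c 24 (.c 48 .nil))) (.l 16 (.r 32 .nil))) (.I .com (.c 1512102306009786965494079912008658879305 (.c 16 .nil)) (.r 32 .nil))))) (.node (.node (.node (.I .com (.c 1512102306009786923259633531360632805385 (.c 16 .nil)) (.r 32 .nil)) (.I .tdp (.c 16 (.c 18625 (.c 32 (.c 1310924873 .nil)))) .nil)) (.node (.I .tdb (.c 513 (.c 40 (.c 16 (.c 32 .nil)))) (.l 18625 .nil)) (.I .tdb (.c 0 (.c 8 (.c 16 (.c 32 .nil)))) (.b 40 (.l 18625 .nil))))) (.node (.node (.I .tdb (.c 8 (.c 40 (.c 24 (.c 32 .nil)))) (.b 43059203 .nil)) (.I .adp (.c 537002057 (.c 40 (.c 2775125130 .nil))) .nil)) (.node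 (.I .adp (.c 16 (.c 18625 (.c 40 .nil))) (.l 537002057 .nil)) (.I .tdb (.c 8 (.c 8193 (.c 18625 (.c 16 .nil)))) (.r 40 .nil)))))) (.node (.node (.node (.node (.I .adp (.c 16 (.c 18625 (.c 537002057 .nil))) (.r 40 .nil)) (.I .jac (.c 537002057 (.c 24 (.c 48 .nil))) (.l 16 (.r 40 .nil)))) (.node (.I .com (.c 42576872605845451114770277207992337225 (.c 16 .nil)) (.r 40 .nil)) (.I .com (.c 42576872605845444027759439362436274185 (.c 16 .nil)) (.r 40 .nil)))) (.node (.node (.I .tdp (.c 16 (.c 18625 (.c 40 (.c 537002057 .nil)))) .nil) (.I .tdb (.c 513 (.c 32 (.c 40 (.c 16 .nil)))) (.l 18625 .nil))) (.node (.I .tdb (.c 0 (.c 8 (.c 16 (.c 40 .nil)))) (.b 32 (.l 18625 .nil))) (.I .tdb (.c 8 (.c 32 (.c 24 (.c 40 .nil)))) (.b 43059203 .nil))))) (.node (.node (.node (.I .com (.c 1310925065 (.c 8 .nil)) (.b 2775125130 .nil)) (.I .adp (.c 1310925065 (.c 8 (.c 2775125130 .nil))) .nil)) (.node (.I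 .adp (.c 16 (.c 18625 (.c 8 .nil))) (.l 1310925065 .nil)) (.I .jac (.c 8 (.c 24 (.c 48 .nil))) (.l 16 (.l 1310925065 .nil))))) (.node (.node (.I .adp (.c 16 (.c 18625 (.c 1310925065 .nil))) (.r 8 .nil)) (.I .adp (.c 537002313 (.c 8 (.c 2775125130 .nil))) .nil)) (.node (.I .adp (.c 16 (.c 18625 (.c 8 .nil))) (.l 537002313 .nil)) (.I .jac (.c 8 (.c 24 (.c 48 .nil))) (.l 16 (.l 537002313 .nil)))))))))

noncomputable def c2_291 : Tr := (.node (.node (.node (.node (.node (.node (.I .adp (.c 16 (.c 18625 (.c 537002313 .nil))) (.r 8 .nil)) (.I .tdb (.c 0 (.c 48 (.c 16 (.c 40 .nil)))) (.b 8385 (.l 8 .nil)))) (.node (.I .ass (.c 2049 (.c 18497 (.c 562466121 .nil))) .nil) (.I .adp (.c 12801 (.c 32 (.c 24 .nil))) (.b 2737112201 .nil)))) (.node (.node (.I .adp (.c 0 (.c 1350544649 (.c 2737112201 .nil))) .nil) (.I .jac (.c 0 (.c 18497 (.c 16 .nil))) (.r 1350544649 .nil))) (.node (.I .jac (.c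 0 (.c 8 (.c 48 .nil))) (.b 16 (.r 1350544649 .nil))) (.I .adp (.c 0 (.c 13058 (.c 24 .nil))) (.b 2737112201 .nil))))) (.node (.node (.node (.I .adp (.c 32 (.c 40 (.c 24 .nil))) (.l 0 (.b 2737112201 .nil))) (.I .com (.c 12993 (.c 32 .nil)) (.l 0 (.b 2737112201 .nil)))) (.node (.I .adp (.c 0 (.c 21307587 (.c 2737112201 .nil))) .nil) (.I .jac (.c 0 (.c 18497 (.c 16 .nil))) (.r 21307587 .nil)))) (.node (.node (.I .jac (.c 0 (.c 8 (.c 48 .nil))) (.b 16 (.r 21307587 .nil))) (.I .adp (.c 0 (.c 1350648594 (.c 2737112201 .nil))) .nil)) (.node (.I .jac (.c 0 (.c 18497 (.c 16 .nil))) (.r 1350648594 .nil)) (.I .jac (.c 0 (.c 8 (.c 48 .nil))) (.b 16 (.r 1350648594 .nil))))))) (.node (.node (.node (.node (.I .tdp (.c 12993 (.c 32 (.c 2737112201 (.c 0 .nil)))) .nil) (.I .adp (.c 0 (.c 562533202 (.c 2737112201 .nil))) .nil)) (.node (.I .adp (.c 8385 (.c 40 (.c 2737112201 .nil))) (.l 0 .nil)) (.I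 .jac (.c 0 (.c 18497 (.c 16 .nil))) (.r 562533202 .nil)))) (.node (.node (.I .jac (.c 0 (.c 8 (.c 48 .nil))) (.b 16 (.r 562533202 .nil))) (.I .tdp (.c 8385 (.c 40 (.c 2737112201 (.c 0 .nil)))) .nil)) (.node (.I .tdb (.c 0 (.c 40 (.c 8 (.c 32 .nil)))) (.b 2775125130 .nil)) (.I .ass (.c 2049 (.c 18625 (.c 1324066057 .nil))) .nil)))) (.node (.node (.node (.I .ass (.c 2105481 (.c 48 (.c 1350544649 .nil))) .nil) (.I .com (.c 1350544649 (.c 48 .nil)) (.l 2105481 .nil))) (.node (.I .ass (.c 2105481 (.c 48 (.c 562466121 .nil))) .nil) (.I .com (.c 562466121 (.c 48 .nil)) (.l 2105481 .nil)))) (.node (.node (.I .adp (.c 8 (.c 24 (.c 18561 .nil))) (.b 537002313 .nil)) (.I .adp (.c 32 (.c 40 (.c 18561 .nil))) (.b 2105545 .nil))) (.node (.I .adp (.c 16 (.c 48 (.c 4673 .nil))) (.b 1310925065 .nil)) (.I .adp (.c 16 (.c 48 (.c 4673 .nil))) (.b 537002313 .nil))))))) (.node (.node (.node (.node (.node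 (.I .adp (.c 8 (.c 24 (.c 18562 .nil))) (.b 537002313 .nil)) (.I .adp (.c 16 (.c 48 (.c 8 .nil))) (.r 24 (.b 537002313 .nil)))) (.node (.I .com (.c 18497 (.c 16 .nil)) (.r 24 (.b 537002313 .nil))) (.I .adp (.c 0 (.c 24 (.c 18561 .nil))) (.b 1324066057 .nil)))) (.node (.node (.I .adp (.c 32 (.c 40 (.c 4609 .nil))) (.b 35718537 .nil)) (.I .com (.c 169943369 (.c 32 .nil)) (.b 35718537 .nil))) (.node (.I .adp (.c 16 (.c 48 (.c 4609 .nil))) (.b 545424713 .nil)) (.I .jac (.c 513 (.c 16 (.c 48 .nil))) (.b 1364091105 .nil))))) (.node (.node (.node (.I .adp (.c 12865 (.c 24 (.c 32 .nil))) (.b 2718204041 .nil)) (.I .adp (.c 4673 (.c 40 (.c 32 .nil))) (.b 33587593 .nil))) (.node (.I .adp (.c 8 (.c 1363882186 (.c 2718204041 .nil))) .nil) (.I .adp (.c 24 (.c 13057 (.c 2718204041 .nil))) (.l 8 .nil)))) (.node (.node (.I .tdp (.c 24 (.c 13057 (.c 2718204041 (.c 8 .nil)))) .nil) (.I .tdb (.c 32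 (.c 40 (.c 2718204041 (.c 8 .nil)))) (.r 24 .nil))) (.node (.I .adp (.c 24 (.c 40 (.c 32 .nil))) (.l 8 (.b 33587593 .nil))) (.I .tdp (.c 24 (.c 40 (.c 8 (.c 32 .nil)))) (.b 33587593 .nil)))))) (.node (.node (.node (.node (.I .jac (.c 231045989336561353 (.c 32 (.c 48 .nil))) (.l 16 .nil)) (.I .adp (.c 16 (.c 48 (.c 32 .nil))) (.b 13748192181200529225 .nil))) (.node (.I .adp (.c 16 (.c 18689 (.c 13748192181200529225 .nil))) .nil) (.I .jac (.c 13748192181200529225 (.c 32 (.c 48 .nil))) (.l 16 .nil)))) (.node (.node (.I .adp (.c 16 (.c 48 (.c 32 .nil))) (.b 35470870263625 .nil)) (.I .adp (.c 16 (.c 18689 (.c 35470870263625 .nil))) .nil)) (.node (.I .adp (.c 16 (.c 18689 (.c 231045293249046473 .nil))) .nil) (.I .jac (.c 12801 (.c 8 (.c 24 .nil))) (.b 2756383009 .nil))))) (.node (.node (.node (.I .adp (.c 16 (.c 48 (.c 32 .nil))) (.b 13748194865974800073 .nil)) (.I .adp (.c 16 (.c 18689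 (.c 13748194865974800073 .nil))) .nil)) (.node (.I .jac (.c 13748194865974800073 (.c 32 (.c 48 .nil))) (.l 16 .nil)) (.I .com (.c 18291641358826142093478020620972318824319074778225956274863393494134643989330953 (.c 16 .nil)) .nil))) (.node (.node (.I .adp (.c 16 (.c 18689 (.c 35466557976521 .nil))) .nil) (.I .adp (.c 16 (.c 18689 (.c 3561367726845001 .nil))) .nil)) (.node (.I .adp (.c 16 (.c 18689 (.c 3561346121425033 .nil))) .nil) (.I .jac (.c 24 (.c 32 (.c 48 .nil))) (.l 16 (.l 1310924873 .nil)))))))))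

noncomputable def c2_292 : Tr := (.node (.node (.node (.node (.node (.node (.I .adp (.c 2105673 (.c 24 (.c 2794229898 .nil))) .nil) (.I .adp (.c 16 (.c 18689 (.c 24 .nil))) (.l 2105673 .nil))) (.node (.I .jac (.c 24 (.c 32 (.c 48 .nil))) (.l 16 (.l 2105673 .nil))) (.I .adp (.c 16 (.c 18689 (.c 2105673 .nil))) (.r 24 .nil)))) (.node (.node (.I .tdp (.c 16 (.c 18689 (.c 24 (.c 2105673 .nil)))) .nil) (.I .adp (.c 16 (.c 18689 (.c 3423058053193993 .nil))) .nil)) (.node (.I .jac (.c 3423058053193993 (.c 32 (.c 48 .nil))) (.l 16 .nil)) (.I .tdb (.c 32 (.c 48 (.c 8 (.c 16 .nil)))) (.b 4609 (.r 40 .nil)))))) (.node (.node (.node (.I .adp (.c 2105545 (.c 40 (.c 2794229898 .nil))) .nil) (.I .adp (.c 16 (.c 18689 (.c 40 .nil))) (.l 2105545 .nil))) (.node (.I .tdb (.c 513 (.c 24 (.c 18689 (.c 16 .nil)))) (.r 40 .nil)) (.I .tdb (.c 0 (.c 8 (.c 16 (.c 18689 .nil)))) (.b 24 (.r 40 .nil))))) (.node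 (.node (.I .adp (.c 16 (.c 18689 (.c 2105545 .nil))) (.r 40 .nil)) (.I .jac (.c 2105545 (.c 32 (.c 48 .nil))) (.l 16 (.r 40 .nil)))) (.node (.I .tdp (.c 16 (.c 18689 (.c 2105545 (.c 40 .nil)))) .nil) (.I .tdb (.c 513 (.c 24 (.c 40 (.c 16 .nil)))) (.l 18689 .nil)))))) (.node (.node (.node (.node (.I .tdb (.c 0 (.c 8 (.c 16 (.c 40 .nil)))) (.b 24 (.l 18689 .nil))) (.I .com (.c 169943369 (.c 8 .nil)) (.b 2794229898 .nil))) (.node (.I .tdb (.c 32 (.c 48 (.c 8 (.c 16 .nil)))) (.l 1310925001 .nil)) (.I .tdb (.c 24 (.c 12801 (.c 18689 (.c 16 .nil)))) (.r 8 .nil)))) (.node (.node (.I .tdb (.c 32 (.c 48 (.c 8 (.c 16 .nil)))) (.l 169943369 .nil)) (.I .tdb (.c 4609 (.c 40 (.c 18689 (.c 16 .nil)))) (.r 8 .nil))) (.node (.I .tdb (.c 0 (.c 24 (.c 18689 (.c 16 .nil)))) (.b 40 (.r 8 .nil))) (.I .tdb (.c 32 (.c 48 (.c 0 (.c 16 .nil)))) (.b 24 (.b 40 (.r 8 .nil))))))) (.node (.node (.node (.I .adp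 (.c 12801 (.c 24 (.c 32 .nil))) (.b 2737112201 .nil)) (.I .adp (.c 12801 (.c 24 (.c 32 .nil))) (.b 35718537 .nil))) (.node (.I .adp (.c 24 (.c 13057 (.c 2737112201 .nil))) (.l 0 .nil)) (.I .jac (.c 2737112201 (.c 32 (.c 40 .nil))) (.l 24 (.l 0 .nil))))) (.node (.node (.I .jac (.c 43356675 (.c 8 (.c 16 .nil))) (.l 13057 .nil)) (.I .tdb (.c 0 (.c 24 (.c 40 (.c 8 .nil)))) (.b 2794229898 .nil))) (.node (.I .adp (.c 8 (.c 32 (.c 18561 .nil))) (.b 1310925001 .nil)) (.I .adp (.c 24 (.c 40 (.c 8257 .nil))) (.b 2718204041 .nil))))))) (.node (.node (.node (.node (.node (.I .adp (.c 24 (.c 40 (.c 8257 .nil))) (.b 33587593 .nil)) (.I .ass (.c 4673 (.c 40 (.c 32 .nil))) (.b 2718204041 .nil))) (.node (.I .com (.c 32 (.c 40 .nil)) (.l 4673 (.b 2718204041 .nil))) (.I .adp (.c 8 (.c 32 (.c 12994 .nil))) (.b 33587593 .nil)))) (.node (.node (.I .adp (.c 24 (.c 40 (.c 8 .nil))) (.r 32 (.b 33587593 .nil)))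 (.I .com (.c 12865 (.c 24 .nil)) (.r 32 (.b 33587593 .nil)))) (.node (.I .adp (.c 16 (.c 48 (.c 8257 .nil))) (.b 169943369 .nil)) (.I .adp (.c 8 (.c 32 (.c 18562 .nil))) (.b 1310925001 .nil))))) (.node (.node (.node (.I .adp (.c 16 (.c 48 (.c 8 .nil))) (.r 32 (.b 1310925001 .nil))) (.I .com (.c 18497 (.c 16 .nil)) (.r 32 (.b 1310925001 .nil)))) (.node (.I .adp (.c 8 (.c 32 (.c 18562 .nil))) (.b 169943369 .nil)) (.I .adp (.c 16 (.c 48 (.c 8 .nil))) (.r 32 (.b 169943369 .nil))))) (.node (.node (.I .com (.c 18497 (.c 16 .nil)) (.r 32 (.b 169943369 .nil))) (.I .ass (.c 2113 (.c 48 (.c 32 .nil))) (.b 169943369 .nil))) (.node (.I .com (.c 32 (.c 48 .nil)) (.l 2113 (.b 169943369 .nil))) (.I .adp (.c 24 (.c 40 (.c 8193 .nil))) (.b 2737112201 .nil)))))) (.node (.node (.node (.node (.I .adp (.c 24 (.c 40 (.c 8193 .nil))) (.b 35718537 .nil)) (.I .adp (.c 16 (.c 48 (.c 8193 .nil))) (.b 174695753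 .nil))) (.node (.I .adp (.c 16 (.c 48 (.c 2105673 .nil))) (.b 8385 .nil)) (.I .adp (.c 24 (.c 32 (.c 18561 .nil))) (.b 2105673 .nil)))) (.node (.node (.I .adp (.c 24 (.c 32 (.c 12865 .nil))) (.b 33587593 .nil)) (.I .adp (.c 8 (.c 40 (.c 18561 .nil))) (.b 169943305 .nil))) (.node (.I .adp (.c 24 (.c 32 (.c 12866 .nil))) (.b 2718204041 .nil)) (.I .adp (.c 8 (.c 40 (.c 32 .nil))) (.l 24 (.b 2718204041 .nil)))))) (.node (.node (.node (.I .ass (.c 24 (.c 8 (.c 13057 .nil))) (.b 2718204041 .nil)) (.I .ass (.c 8 (.c 24 (.c 13057 .nil))) (.b 2718204041 .nil))) (.node (.I .com (.c 24 (.c 8 .nil)) (.r 13057 (.b 2718204041 .nil))) (.I .adp (.c 8 (.c 40 (.c 24 .nil))) (.r 32 (.b 2718204041 .nil))))) (.node (.node (.I .ass (.c 8 (.c 12993 (.c 32 .nil))) (.b 2718204041 .nil)) (.I .tdp (.c 8 (.c 40 (.c 24 (.c 32 .nil)))) (.b 2718204041 .nil))) (.node (.I .com (.c 8 (.c 21307587 .nil)) (.b 2718204041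 .nil)) (.I .adp (.c 24 (.c 32 (.c 12866 .nil))) (.b 33587593 .nil))))))))

noncomputable def c2_293 : Tr := (.node (.node (.node (.node (.node (.node (.I .adp (.c 8 (.c 40 (.c 32 .nil))) (.l 24 (.b 33587593 .nil))) (.I .ass (.c 24 (.c 8 (.c 13057 .nil))) (.b 33587593 .nil))) (.node (.I .ass (.c 8 (.c 24 (.c 13057 .nil))) (.b 33587593 .nil)) (.I .com (.c 24 (.c 8 .nil)) (.r 13057 (.b 33587593 .nil))))) (.node (.node (.I .adp (.c 8 (.c 40 (.c 24 .nil))) (.r 32 (.b 33587593 .nil))) (.I .ass (.c 8 (.c 12993 (.c 32 .nil))) (.b 33587593 .nil))) (.node (.I .tdp (.c 8 (.c 40 (.c 24 (.c 32 .nil)))) (.b 33587593 .nil)) (.I .com (.c 8 (.c 21307587 .nil)) (.b 33587593 .nil))))) (.node (.node (.node (.I .adp (.c 8 (.c 40 (.c 18562 .nil))) (.b 169943305 .nil)) (.I .adp (.c 16 (.c 48 (.c 8 .nil))) (.r 40 (.b 169943305 .nil)))) (.node (.I .com (.c 18497 (.c 16 .nil)) (.r 40 (.b 169943305 .nil)))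 (.I .ass (.c 2113 (.c 48 (.c 40 .nil))) (.b 169943305 .nil)))) (.node (.node (.I .com (.c 40 (.c 48 .nil)) (.l 2113 (.b 169943305 .nil))) (.I .adp (.c 16 (.c 48 (.c 32 .nil))) (.b 1324308521 .nil))) (.node (.I .adp (.c 8 (.c 40 (.c 4609 .nil))) (.b 2794229898 .nil)) (.I .tdb (.c 0 (.c 24 (.c 48 (.c 16 .nil)))) (.b 1324271905 .nil)))))) (.node (.node (.node (.node (.I .adp (.c 16 (.c 48 (.c 4609 .nil))) (.b 1324271905 .nil)) (.I .com (.c 169943433 (.c 16 .nil)) (.b 1324271905 .nil))) (.node (.I .adp (.c 8 (.c 40 (.c 32 .nil))) (.b 231046164718151506 .nil)) (.I .adp (.c 8 (.c 40 (.c 32 .nil))) (.b 231045468630372434 .nil)))) (.node (.node (.I .adp (.c 0 (.c 40 (.c 18561 .nil))) (.b 174695689 .nil)) (.I .adp (.c 16 (.c 48 (.c 12801 .nil))) (.b 174695689 .nil))) (.node (.I .com (.c 1310925193 (.c 16 .nil)) (.b 8786499 .nil)) (.I .adp (.c 16 (.c 48 (.c 12801 .nil))) (.b 8786499 .nil)))))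 (.node (.node (.node (.I .com (.c 1310925193 (.c 16 .nil)) (.b 174733074 .nil)) (.I .adp (.c 16 (.c 48 (.c 12801 .nil))) (.b 174733074 .nil))) (.node (.I .adp (.c 8 (.c 32 (.c 24 .nil))) (.b 2756485161 .nil)) (.I .com (.c 1310925193 (.c 16 .nil)) (.b 562465866 .nil)))) (.node (.node (.I .adp (.c 16 (.c 48 (.c 12801 .nil))) (.b 562465866 .nil)) (.I .adp (.c 16 (.c 48 (.c 24 .nil))) (.b 1310990873 .nil))) (.node (.I .adp (.c 8 (.c 32 (.c 12801 .nil))) (.b 2775125130 .nil)) (.I .adp (.c 4673 (.c 32 (.c 18561 .nil))) (.b 12801 .nil))))))) (.node (.node (.node (.node (.node (.I .jac (.c 0 (.c 16 (.c 48 .nil))) (.b 244253177195916129 .nil)) (.I .adp (.c 4673 (.c 32 (.c 40 .nil))) (.b 2718204041 .nil))) (.node (.I .adp (.c 4673 (.c 32 (.c 40 .nil))) (.b 33587593 .nil)) (.I .jac (.c 0 (.c 8257 (.c 24 .nil))) (.b 2756383073 .nil)))) (.node (.node (.I .jac (.c 0 (.c 8 (.c 32 .nil))) (.b 24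 (.b 2756383073 .nil))) (.I .adp (.c 16 (.c 48 (.c 40 .nil))) (.b 231045815314584265 .nil))) (.node (.I .jac (.c 2306969673777850185 (.c 40 (.c 48 .nil))) (.l 16 .nil)) (.I .adp (.c 16 (.c 18753 (.c 231045293249046409 .nil))) .nil)))) (.node (.node (.node (.I .adp (.c 16 (.c 48 (.c 545424585 .nil))) (.b 12801 .nil)) (.I .jac (.c 8193 (.c 8 (.c 24 .nil))) (.b 2756383073 .nil))) (.node (.I .jac (.c 2306970773558193865 (.c 40 (.c 48 .nil))) (.l 16 .nil)) (.I .com (.c 14502348301404383998106412257983356255118504464428344731074481645979197333513 (.c 16 .nil)) .nil))) (.node (.node (.I .jac (.c 35466557976457 (.c 40 (.c 48 .nil))) (.l 16 .nil)) (.I .adp (.c 16 (.c 18753 (.c 617620517416009 .nil))) .nil)) (.node (.I .adp (.c 16 (.c 18753 (.c 617611520073865 .nil))) .nil) (.I .jac (.c 617611520073865 (.c 40 (.c 48 .nil))) (.l 16 .nil)))))) (.node (.node (.node (.node (.I .adp (.c 16 (.c 48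 (.c 40 .nil))) (.b 59555558875465 .nil)) (.I .adp (.c 16 (.c 48 (.c 40 .nil))) (.b 2306969678073866642 .nil))) (.node (.I .jac (.c 24 (.c 40 (.c 48 .nil))) (.l 16 (.l 537002057 .nil))) (.I .adp (.c 2105609 (.c 24 (.c 2813400202 .nil))) .nil))) (.node (.node (.I .adp (.c 16 (.c 18753 (.c 24 .nil))) (.l 2105609 .nil)) (.I .adp (.c 16 (.c 18753 (.c 2105609 .nil))) (.r 24 .nil))) (.node (.I .jac (.c 2105609 (.c 40 (.c 48 .nil))) (.l 16 (.r 24 .nil))) (.I .tdp (.c 16 (.c 18753 (.c 24 (.c 2105609 .nil)))) .nil)))) (.node (.node (.node (.I .adp (.c 16 (.c 48 (.c 40 .nil))) (.b 580749782704393 .nil)) (.I .adp (.c 16 (.c 18753 (.c 580749782704393 .nil))) .nil)) (.node (.I .jac (.c 580749782704393 (.c 40 (.c 48 .nil))) (.l 16 .nil)) (.I .adp (.c 16 (.c 48 (.c 40 .nil))) (.b 231045294608591314 .nil)))) (.node (.node (.I .adp (.c 2105545 (.c 32 (.c 2813400202 .nil))) .nil) (.I .adp (.c 16 (.c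 18753 (.c 32 .nil))) (.l 2105545 .nil))) (.node (.I .adp (.c 16 (.c 18753 (.c 2105545 .nil))) (.r 32 .nil)) (.I .jac (.c 2105545 (.c 40 (.c 48 .nil))) (.l 16 (.r 32 .nil)))))))))

noncomputable def c2_294 : Tr := (.node (.node (.node (.node (.node (.node (.I .tdp (.c 16 (.c 18753 (.c 32 (.c 2105545 .nil)))) .nil) (.I .com (.c 537002185 (.c 8 .nil)) (.b 2756383073 .nil))) (.node (.I .com (.c 169943305 (.c 8 .nil)) (.b 2756383073 .nil)) (.I .adp (.c 16 (.c 48 (.c 40 .nil))) (.b 2306970777854211346 .nil)))) (.node (.node (.I .tdb (.c 40 (.c 48 (.c 8 (.c 16 .nil)))) (.l 537002185 .nil)) (.I .tdb (.c 24 (.c 8193 (.c 18753 (.c 16 .nil)))) (.r 8 .nil))) (.node (.I .adp (.c 16 (.c 48 (.c 40 .nil))) (.b 231045816674130706 .nil)) (.I .tdb (.c 40 (.c 48 (.c 8 (.c 16 .nil)))) (.l 169943305 .nil))))) (.node (.node (.node (.I .tdb (.c 4609 (.c 32 (.c 18753 (.c 16 .nil)))) (.r 8 .nil)) (.I .tdb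 (.c 0 (.c 24 (.c 18753 (.c 16 .nil)))) (.b 32 (.r 8 .nil)))) (.node (.I .tdb (.c 40 (.c 48 (.c 0 (.c 16 .nil)))) (.b 24 (.b 32 (.r 8 .nil)))) (.I .tdb (.c 0 (.c 32 (.c 8 (.c 24 .nil)))) (.b 2756383073 .nil)))) (.node (.node (.I .tdb (.c 0 (.c 24 (.c 32 (.c 8 .nil)))) (.b 2756383073 .nil)) (.I .ass (.c 2049 (.c 18753 (.c 545424585 .nil))) .nil)) (.node (.I .com (.c 545424585 (.c 18753 .nil)) (.l 2049 .nil)) (.I .jac (.c 513 (.c 16 (.c 48 .nil))) (.b 562600289 .nil)))))) (.node (.node (.node (.node (.I .adp (.c 16 (.c 48 (.c 2105609 .nil))) (.b 12993 .nil)) (.I .adp (.c 8 (.c 32 (.c 4609 .nil))) (.b 2756383073 .nil))) (.node (.I .tdb (.c 0 (.c 24 (.c 48 (.c 16 .nil)))) (.b 545556833 .nil)) (.I .adp (.c 16 (.c 48 (.c 4609 .nil))) (.b 545556833 .nil)))) (.node (.node (.I .com (.c 169943433 (.c 16 .nil)) (.b 545556833 .nil)) (.I .adp (.c 8 (.c 32 (.c 40 .nil))) (.b 231046164718151506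 .nil))) (.node (.I .adp (.c 8 (.c 32 (.c 40 .nil))) (.b 231045468630372434 .nil)) (.I .adp (.c 8 (.c 24 (.c 8193 .nil))) (.b 2756383073 .nil))))) (.node (.node (.node (.I .tdb (.c 0 (.c 32 (.c 16 (.c 48 .nil)))) (.b 174770529 .nil)) (.I .adp (.c 16 (.c 48 (.c 8193 .nil))) (.b 174770529 .nil))) (.node (.I .adp (.c 0 (.c 4673 (.c 18561 .nil))) (.b 13057 .nil)) (.I .jac (.c 0 (.c 16 (.c 48 .nil))) (.r 4673 (.b 13057 .nil))))) (.node (.node (.I .adp (.c 18433 (.c 8 (.c 24 .nil))) (.b 1337272585 .nil)) (.I .tdb (.c 24 (.c 48 (.c 8 (.c 32 .nil)))) (.b 12929 (.l 0 .nil)))) (.node (.I .jac (.c 8520195 (.c 16 (.c 40 .nil))) (.l 18625 .nil)) (.I .tdb (.c 24 (.c 48 (.c 8 (.c 40 .nil)))) (.b 8321 (.l 0 .nil)))))))) (.node (.node (.node (.node (.node (.I .jac (.c 20685315 (.c 16 (.c 32 .nil))) (.l 18625 .nil)) (.I .tdb (.c 16 (.c 48 (.c 8 (.c 32 .nil)))) (.b 12993 (.l 0 .nil)))) (.node (.I .jac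 (.c 18561 (.c 24 (.c 40 .nil))) (.b 32 (.l 8 (.l 0 .nil)))) (.I .jac (.c 8520195 (.c 24 (.c 40 .nil))) (.b 18561 .nil)))) (.node (.node (.I .tdb (.c 16 (.c 48 (.c 8 (.c 40 .nil)))) (.b 8385 (.l 0 .nil))) (.I .jac (.c 18561 (.c 24 (.c 32 .nil))) (.b 40 (.l 8 (.l 0 .nil))))) (.node (.I .adp (.c 24 (.c 40 (.c 2718203977 .nil))) (.b 8321 .nil)) (.I .com (.c 59109062884628932553 (.c 24 .nil)) (.b 8321 .nil))))) (.node (.node (.node (.I .adp (.c 24 (.c 40 (.c 2105737 .nil))) (.b 8321 .nil)) (.I .adp (.c 18433 (.c 8 (.c 32 .nil))) (.b 1337272521 .nil))) (.node (.I .jac (.c 1337272521 (.c 32 (.c 48 .nil))) (.l 8 (.l 0 .nil))) (.I .jac (.c 2728451 (.c 16 (.c 40 .nil))) (.l 18689 .nil)))) (.node (.node (.I .jac (.c 2728451 (.c 16 (.c 40 .nil))) (.b 18689 .nil)) (.I .tdb (.c 24 (.c 12929 (.c 0 (.c 8 .nil)))) (.b 18689 .nil))) (.node (.I .jac (.c 20685315 (.c 16 (.c 24 .nil))) (.l 18689 .nil))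 (.I .jac (.c 20685315 (.c 16 (.c 24 .nil))) (.b 18689 .nil)))))) (.node (.node (.node (.node (.I .tdb (.c 4737 (.c 40 (.c 0 (.c 8 .nil)))) (.b 18689 .nil)) (.I .tdb (.c 16 (.c 24 (.c 0 (.c 8 .nil)))) (.b 40 (.b 18689 .nil)))) (.node (.I .adp (.c 16 (.c 40 (.c 2718203977 .nil))) (.b 8385 .nil)) (.I .com (.c 59109062884628932553 (.c 16 .nil)) (.b 8385 .nil)))) (.node (.node (.I .adp (.c 16 (.c 40 (.c 2105737 .nil))) (.b 8385 .nil)) (.I .adp (.c 18433 (.c 8 (.c 12929 .nil))) (.b 8385 .nil))) (.node (.I .adp (.c 24 (.c 32 (.c 2718203977 .nil))) (.b 12929 .nil)) (.I .com (.c 59109062884628932489 (.c 24 .nil)) (.b 12929 .nil))))) (.node (.node (.node (.I .adp (.c 24 (.c 32 (.c 2105737 .nil))) (.b 12929 .nil)) (.I .jac (.c 553912521 (.c 40 (.c 48 .nil))) (.l 8 (.l 0 .nil)))) (.node (.I .tdb (.c 24 (.c 8321 (.c 0 (.c 8 .nil)))) (.b 18753 .nil)) (.I .jac (.c 179513609 (.c 40 (.c 48 .nil)))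 (.l 8 (.l 0 .nil))))) (.node (.node (.I .adp (.c 16 (.c 32 (.c 2718203977 .nil))) (.b 12993 .nil)) (.I .com (.c 59109062884628932489 (.c 16 .nil)) (.b 12993 .nil))) (.node (.I .adp (.c 16 (.c 32 (.c 2105737 .nil))) (.b 12993 .nil)) (.I .adp (.c 16 (.c 24 (.c 2718203977 .nil))) (.b 13057 .nil))))))))

noncomputable def c2_295 : Tr := (.node (.node (.node (.node (.node (.node (.I .com (.c 59109062884628932425 (.c 16 .nil)) (.b 13057 .nil)) (.I .jac (.c 0 (.c 8 (.c 48 .nil))) (.b 3632106110100681 .nil))) (.node (.I .adp (.c 1337272521 (.c 32 (.c 2718203977 .nil))) .nil) (.I .com (.c 59109062884628932489 (.c 179513673 .nil)) .nil))) (.node (.node (.I .adp (.c 8321 (.c 12993 (.c 2718203977 .nil))) .nil) (.I .adp (.c 1337272521 (.c 32 (.c 2105737 .nil))) .nil)) (.node (.I .adp (.c 179513673 (.c 32 (.c 2105737 .nil))) .nil) (.I .adp (.c 8321 (.c 12993 (.c 2105737 .nil))) .nil)))) (.node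 (.node (.node (.I .jac (.c 2718203977 (.c 24 (.c 32 .nil))) (.l 12929 .nil)) (.I .adp (.c 553912521 (.c 40 (.c 2718203977 .nil))) .nil)) (.node (.I .com (.c 59109062884628932553 (.c 553912521 .nil)) .nil) (.I .jac (.c 16 (.c 24 (.c 32 .nil))) (.r 40 (.b 2105737 .nil))))) (.node (.node (.I .adp (.c 12929 (.c 8385 (.c 2105737 .nil))) .nil) (.I .adp (.c 553912521 (.c 40 (.c 2105737 .nil))) .nil)) (.node (.I .adp (.c 4737 (.c 13057 (.c 2718203977 .nil))) .nil) (.I .jac (.c 2718203977 (.c 32 (.c 40 .nil))) (.l 4737 .nil)))))) (.node (.node (.node (.node (.I .com (.c 553912649 (.c 24 .nil)) (.b 2105737 .nil)) (.I .com (.c 1337272585 (.c 24 .nil)) (.b 2105737 .nil))) (.node (.I .adp (.c 553912649 (.c 24 (.c 2105737 .nil))) .nil) (.I .adp (.c 4737 (.c 13057 (.c 2105737 .nil))) .nil))) (.node (.node (.I .com (.c 21307523 (.c 24 .nil)) (.b 2718203977 .nil)) (.I .ass (.c 12929 (.c 24 (.c 32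 .nil))) (.b 2718203977 .nil))) (.node (.I .ass (.c 24 (.c 8321 (.c 40 .nil))) (.b 2718203977 .nil)) (.I .ass (.c 8321 (.c 24 (.c 40 .nil))) (.b 2718203977 .nil))))) (.node (.node (.node (.I .com (.c 24 (.c 8321 .nil)) (.r 40 (.b 2718203977 .nil))) (.I .tdp (.c 32 (.c 40 (.c 16 (.c 24 .nil)))) (.b 2718203977 .nil))) (.node (.I .adp (.c 21307523 (.c 24 (.c 2718203977 .nil))) .nil) (.I .adp (.c 21099139 (.c 32 (.c 2718203977 .nil))) .nil))) (.node (.node (.I .com (.c 59109062884628932489 (.c 21099139 .nil)) .nil) (.I .adp (.c 12929 (.c 8386 (.c 2718203977 .nil))) .nil)) (.node (.I .adp (.c 24 (.c 32 (.c 2718203977 .nil))) (.l 12929 .nil)) (.I .com (.c 59109062884628932553 (.c 8786563 .nil)) .nil)))))) (.node (.node (.node (.node (.node (.I .com (.c 59109062884628932553 (.c 24 .nil)) (.l 8321 .nil)) (.I .adp (.c 4737 (.c 13058 (.c 2718203977 .nil))) .nil)) (.node (.I .adp (.c 32 (.c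 40 (.c 2718203977 .nil))) (.l 4737 .nil)) (.I .adp (.c 24 (.c 13058 (.c 16 .nil))) (.b 2105737 .nil)))) (.node (.node (.I .adp (.c 32 (.c 40 (.c 16 .nil))) (.l 24 (.b 2105737 .nil))) (.I .com (.c 12929 (.c 32 .nil)) (.l 24 (.b 2105737 .nil)))) (.node (.I .ass (.c 24 (.c 12929 (.c 32 .nil))) (.b 2105737 .nil)) (.I .com (.c 24 (.c 12929 .nil)) (.r 32 (.b 2105737 .nil)))))) (.node (.node (.node (.I .tdp (.c 32 (.c 40 (.c 16 (.c 24 .nil)))) (.b 2105737 .nil)) (.I .com (.c 8786563 (.c 40 .nil)) (.b 2105737 .nil))) (.node (.I .adp (.c 12929 (.c 8386 (.c 2105737 .nil))) .nil) (.I .adp (.c 24 (.c 32 (.c 2105737 .nil))) (.l 12929 .nil)))) (.node (.node (.I .adp (.c 8786563 (.c 40 (.c 2105737 .nil))) .nil) (.I .adp (.c 4737 (.c 13058 (.c 2105737 .nil))) .nil)) (.node (.I .adp (.c 32 (.c 40 (.c 2105737 .nil))) (.l 4737 .nil)) (.I .adp (.c 8 (.c 18561 (.c 13748194865974800265 .nil))) .nil)))))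 (.node (.node (.node (.node (.I .adp (.c 8 (.c 48 (.c 16 .nil))) (.b 13748196208362033993 .nil)) (.I .adp (.c 8 (.c 18561 (.c 13748196208362033993 .nil))) .nil)) (.node (.I .adp (.c 18433 (.c 8 (.c 3632106110100681 .nil))) .nil) (.I .adp (.c 8 (.c 18561 (.c 617611520074121 .nil))) .nil))) (.node (.node (.I .adp (.c 1310925001 (.c 32 (.c 2756085834 .nil))) .nil) (.I .adp (.c 8 (.c 18561 (.c 32 .nil))) (.l 1310925001 .nil))) (.node (.I .tdb (.c 24 (.c 12801 (.c 18561 (.c 8 .nil)))) (.r 32 .nil)) (.I .adp (.c 8 (.c 18561 (.c 1310925001 .nil))) (.r 32 .nil))))) (.node (.node (.node (.I .tdp (.c 8 (.c 18561 (.c 32 (.c 1310925001 .nil)))) .nil) (.I .tdb (.c 24 (.c 12801 (.c 8 (.c 32 .nil)))) (.l 18561 .nil))) (.node (.I .adp (.c 18433 (.c 8 (.c 617629514824073 .nil))) .nil) (.I .adp (.c 513 (.c 48 (.c 12993 .nil))) (.l 8321 .nil)))) (.node (.node (.I .adp (.c 8 (.c 18561 (.c 3561346121425225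 .nil))) .nil) (.I .adp (.c 537002185 (.c 40 (.c 2756085834 .nil))) .nil)) (.node (.I .adp (.c 8 (.c 18561 (.c 40 .nil))) (.l 537002185 .nil)) (.I .tdb (.c 24 (.c 8193 (.c 18561 (.c 8 .nil)))) (.r 40 .nil))))))))

noncomputable def c2_296 : Tr := (.node (.node (.node (.node (.node (.node (.I .adp (.c 8 (.c 18561 (.c 537002185 .nil))) (.r 40 .nil)) (.I .tdp (.c 8 (.c 18561 (.c 40 (.c 537002185 .nil)))) .nil)) (.node (.I .tdb (.c 4609 (.c 32 (.c 8 (.c 40 .nil)))) (.l 18561 .nil)) (.I .tdb (.c 0 (.c 24 (.c 40 (.c 8 .nil)))) (.b 32 (.l 18561 .nil))))) (.node (.node (.I .adp (.c 513 (.c 48 (.c 8385 .nil))) (.l 12929 .nil)) (.I .adp (.c 1310925065 (.c 24 (.c 2756085834 .nil))) .nil)) (.node (.I .adp (.c 8 (.c 18561 (.c 24 .nil))) (.l 1310925065 .nil)) (.I .tdb (.c 32 (.c 12801 (.c 18561 (.c 8 .nil)))) (.r 24 .nil))))) (.node (.node (.node (.I .adp (.c 8 (.c 18561 (.c 1310925065 .nil)))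 (.r 24 .nil)) (.I .tdp (.c 8 (.c 18561 (.c 24 (.c 1310925065 .nil)))) .nil)) (.node (.I .tdb (.c 32 (.c 12801 (.c 8 (.c 24 .nil)))) (.l 18561 .nil)) (.I .adp (.c 537002313 (.c 24 (.c 2756085834 .nil))) .nil))) (.node (.node (.I .adp (.c 8 (.c 18561 (.c 24 .nil))) (.l 537002313 .nil)) (.I .tdb (.c 40 (.c 8193 (.c 18561 (.c 8 .nil)))) (.r 24 .nil))) (.node (.I .tdb (.c 0 (.c 32 (.c 18561 (.c 8 .nil)))) (.b 40 (.r 24 .nil))) (.I .adp (.c 8 (.c 18561 (.c 537002313 .nil))) (.r 24 .nil)))))) (.node (.node (.node (.node (.I .tdp (.c 8 (.c 18561 (.c 24 (.c 537002313 .nil)))) .nil) (.I .adp (.c 513 (.c 48 (.c 13057 .nil))) (.l 4737 .nil))) (.node (.I .adp (.c 12929 (.c 32 (.c 24 .nil))) (.b 2105737 .nil)) (.I .adp (.c 8321 (.c 40 (.c 24 .nil))) (.b 2105737 .nil)))) (.node (.node (.I .adp (.c 16 (.c 13058 (.c 18497 .nil))) (.b 4609 .nil)) (.I .adp (.c 32 (.c 40 (.c 18497 .nil))) (.l 16 (.b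 4609 .nil)))) (.node (.I .jac (.c 0 (.c 8 (.c 48 .nil))) (.b 14885954966917166305 .nil)) (.I .adp (.c 16 (.c 13058 (.c 24 .nil))) (.b 2718203977 .nil))))) (.node (.node (.node (.I .adp (.c 32 (.c 40 (.c 24 .nil))) (.l 16 (.b 2718203977 .nil))) (.I .com (.c 12993 (.c 32 .nil)) (.l 16 (.b 2718203977 .nil)))) (.node (.I .adp (.c 12993 (.c 32 (.c 2718203977 .nil))) (.l 16 .nil)) (.I .com (.c 59109062884628932489 (.c 12993 .nil)) (.l 16 .nil)))) (.node (.node (.I .adp (.c 16 (.c 562533202 (.c 2718203977 .nil))) .nil) (.I .ass (.c 16 (.c 59109062884628932553 (.c 8385 .nil))) .nil)) (.node (.I .com (.c 16 (.c 59109062884628932553 .nil)) (.r 8385 .nil)) (.I .tdp (.c 8385 (.c 40 (.c 2718203977 (.c 16 .nil)))) .nil)))))) (.node (.node (.node (.node (.node (.I .adp (.c 16 (.c 21307587 (.c 2105737 .nil))) .nil) (.I .adp (.c 16 (.c 562533202 (.c 2105737 .nil))) .nil)) (.node (.I .adp (.c 8385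 (.c 40 (.c 2105737 .nil))) (.l 16 .nil)) (.I .tdp (.c 8385 (.c 40 (.c 2105737 (.c 16 .nil)))) .nil))) (.node (.node (.I .adp (.c 8 (.c 18625 (.c 2306971873338799881 .nil))) .nil) (.I .adp (.c 8 (.c 18625 (.c 13748193523587632009 .nil))) .nil)) (.node (.I .adp (.c 8 (.c 48 (.c 24 .nil))) (.b 2306970223667989449 .nil)) (.I .adp (.c 8 (.c 18625 (.c 2306970223667989449 .nil))) .nil)))) (.node (.node (.node (.I .adp (.c 8 (.c 48 (.c 24 .nil))) (.b 13748196208362033929 .nil)) (.I .adp (.c 8 (.c 18625 (.c 13748196208362033929 .nil))) .nil)) (.node (.I .adp (.c 8 (.c 18625 (.c 3632084291164233 .nil))) .nil) (.I .jac (.c 3632084291164233 (.c 24 (.c 48 .nil))) (.l 8 .nil)))) (.node (.node (.I .adp (.c 8 (.c 18625 (.c 598967998054793 .nil))) .nil) (.I .adp (.c 1310924937 (.c 32 (.c 2775125066 .nil))) .nil)) (.node (.I .adp (.c 8 (.c 18625 (.c 32 .nil))) (.l 1310924937 .nil)) (.I .tdb (.c 16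 (.c 12801 (.c 18625 (.c 8 .nil)))) (.r 32 .nil)))))) (.node (.node (.node (.node (.I .adp (.c 8 (.c 18625 (.c 1310924937 .nil))) (.r 32 .nil)) (.I .jac (.c 1310924937 (.c 24 (.c 48 .nil))) (.l 8 (.r 32 .nil)))) (.node (.I .tdp (.c 8 (.c 18625 (.c 32 (.c 1310924937 .nil)))) .nil) (.I .tdb (.c 2049 (.c 40 (.c 8 (.c 32 .nil)))) (.l 18625 .nil)))) (.node (.node (.I .tdb (.c 0 (.c 16 (.c 32 (.c 8 .nil)))) (.b 40 (.l 18625 .nil))) (.I .adp (.c 8 (.c 18625 (.c 3491688652046665 .nil))) .nil)) (.node (.I .adp (.c 537002121 (.c 40 (.c 2775125066 .nil))) .nil) (.I .adp (.c 8 (.c 18625 (.c 40 .nil))) (.l 537002121 .nil))))) (.node (.node (.node (.I .tdb (.c 16 (.c 8193 (.c 18625 (.c 8 .nil)))) (.r 40 .nil)) (.I .adp (.c 8 (.c 18625 (.c 537002121 .nil))) (.r 40 .nil))) (.node (.I .jac (.c 537002121 (.c 24 (.c 48 .nil))) (.l 8 (.r 40 .nil))) (.I .tdp (.c 8 (.c 18625 (.c 40 (.c 537002121 .nil))))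 .nil))) (.node (.node (.I .tdb (.c 2049 (.c 32 (.c 8 (.c 40 .nil)))) (.l 18625 .nil)) (.I .tdb (.c 0 (.c 16 (.c 40 (.c 8 .nil)))) (.b 32 (.l 18625 .nil)))) (.node (.I .tdb (.c 16 (.c 32 (.c 24 (.c 40 .nil)))) (.b 42762755 .nil)) (.I .com (.c 1310925065 (.c 16 .nil)) (.b 2775125066 .nil))))))))

noncomputable def c2_297 : Tr := (.node (.node (.node (.node (.node (.node (.I .adp (.c 1310925065 (.c 16 (.c 2775125066 .nil))) .nil) (.I .adp (.c 8 (.c 18625 (.c 16 .nil))) (.l 1310925065 .nil))) (.node (.I .jac (.c 16 (.c 24 (.c 48 .nil))) (.l 8 (.l 1310925065 .nil))) (.I .adp (.c 8 (.c 18625 (.c 1310925065 .nil))) (.r 16 .nil)))) (.node (.node (.I .tdp (.c 8 (.c 18625 (.c 16 (.c 1310925065 .nil)))) .nil) (.I .adp (.c 537002313 (.c 16 (.c 2775125066 .nil))) .nil)) (.node (.I .adp (.c 8 (.c 18625 (.c 16 .nil))) (.l 537002313 .nil)) (.I .jac (.c 16 (.c 24 (.c 48 .nil))) (.l 8 (.l 537002313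 .nil)))))) (.node (.node (.node (.I .adp (.c 8 (.c 18625 (.c 537002313 .nil))) (.r 16 .nil)) (.I .tdp (.c 8 (.c 18625 (.c 16 (.c 537002313 .nil)))) .nil)) (.node (.I .adp (.c 12801 (.c 32 (.c 18497 .nil))) (.b 4737 .nil)) (.I .adp (.c 0 (.c 13058 (.c 18497 .nil))) (.b 4737 .nil)))) (.node (.node (.I .adp (.c 32 (.c 40 (.c 18497 .nil))) (.l 0 (.b 4737 .nil))) (.I .adp (.c 8 (.c 48 (.c 1310925065 .nil))) (.b 4737 .nil))) (.node (.I .tdb (.c 0 (.c 40 (.c 16 (.c 32 .nil)))) (.b 2775125066 .nil)) (.I .adp (.c 16 (.c 24 (.c 18497 .nil))) (.b 21307395 .nil)))))) (.node (.node (.node (.node (.I .adp (.c 16 (.c 24 (.c 18497 .nil))) (.b 1311027474 .nil)) (.I .adp (.c 16 (.c 24 (.c 18498 .nil))) (.b 537002313 .nil))) (.node (.I .adp (.c 8 (.c 48 (.c 24 .nil))) (.l 16 (.b 537002313 .nil))) (.I .ass (.c 16 (.c 8 (.c 18625 .nil))) (.b 537002313 .nil)))) (.node (.node (.I .ass (.c 8 (.c 16 (.c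 18625 .nil))) (.b 537002313 .nil)) (.I .com (.c 16 (.c 8 .nil)) (.r 18625 (.b 537002313 .nil)))) (.node (.I .adp (.c 8 (.c 48 (.c 16 .nil))) (.r 24 (.b 537002313 .nil))) (.I .ass (.c 8 (.c 18561 (.c 24 .nil))) (.b 537002313 .nil))))) (.node (.node (.node (.I .tdp (.c 8 (.c 48 (.c 16 (.c 24 .nil)))) (.b 537002313 .nil)) (.I .com (.c 8 (.c 43356803 .nil)) (.b 537002313 .nil))) (.node (.I .jac (.c 0 (.c 8 (.c 48 .nil))) (.b 3561389332330825 .nil)) (.I .adp (.c 12929 (.c 24 (.c 32 .nil))) (.b 2105737 .nil)))) (.node (.node (.I .adp (.c 4737 (.c 40 (.c 32 .nil))) (.b 2105737 .nil)) (.I .adp (.c 16 (.c 12993 (.c 32 .nil))) (.b 2718203977 .nil))) (.node (.I .adp (.c 16 (.c 12994 (.c 32 .nil))) (.b 2718203977 .nil)) (.I .adp (.c 16 (.c 1363882186 (.c 2718203977 .nil))) .nil)))))) (.node (.node (.node (.node (.node (.I .adp (.c 24 (.c 13057 (.c 2718203977 .nil))) (.l 16 .nil)) (.I .tdp (.c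 24 (.c 13057 (.c 2718203977 (.c 16 .nil)))) .nil)) (.node (.I .tdb (.c 32 (.c 40 (.c 2718203977 (.c 16 .nil)))) (.r 24 .nil)) (.I .adp (.c 24 (.c 40 (.c 32 .nil))) (.l 16 (.b 2105737 .nil))))) (.node (.node (.I .tdp (.c 24 (.c 40 (.c 16 (.c 32 .nil)))) (.b 2105737 .nil)) (.I .adp (.c 16 (.c 1363882186 (.c 2105737 .nil))) .nil)) (.node (.I .adp (.c 24 (.c 13057 (.c 2105737 .nil))) (.l 16 .nil)) (.I .tdp (.c 24 (.c 13057 (.c 2105737 (.c 16 .nil)))) .nil)))) (.node (.node (.node (.I .tdb (.c 513 (.c 48 (.c 16 (.c 24 .nil)))) (.l 13057 .nil)) (.I .tdb (.c 0 (.c 8 (.c 16 (.c 24 .nil)))) (.b 48 (.l 13057 .nil)))) (.node (.I .tdb (.c 32 (.c 40 (.c 2105737 (.c 16 .nil)))) (.r 24 .nil)) (.I .jac (.c 13748193523587631945 (.c 32 (.c 48 .nil))) (.l 8 .nil)))) (.node (.node (.I .adp (.c 8 (.c 18689 (.c 9024976834606921 .nil))) .nil) (.I .adp (.c 8 (.c 48 (.c 32 .nil))) (.b 9024908047478729 .nil)))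 (.node (.I .jac (.c 3561389332330569 (.c 32 (.c 48 .nil))) (.l 8 .nil)) (.I .adp (.c 8 (.c 18689 (.c 3561346121425097 .nil))) .nil))))) (.node (.node (.node (.node (.I .jac (.c 3561346121425097 (.c 32 (.c 48 .nil))) (.l 8 .nil)) (.I .jac (.c 24 (.c 32 (.c 48 .nil))) (.l 8 (.l 1310924937 .nil)))) (.node (.I .adp (.c 33587529 (.c 24 (.c 2794229834 .nil))) .nil) (.I .adp (.c 8 (.c 18689 (.c 24 .nil))) (.l 33587529 .nil)))) (.node (.node (.I .jac (.c 24 (.c 32 (.c 48 .nil))) (.l 8 (.l 33587529 .nil))) (.I .adp (.c 8 (.c 18689 (.c 33587529 .nil))) (.r 24 .nil))) (.node (.I .tdp (.c 8 (.c 18689 (.c 24 (.c 33587529 .nil)))) .nil) (.I .adp (.c 8 (.c 18689 (.c 3491688652046601 .nil))) .nil)))) (.node (.node (.node (.I .adp (.c 169943177 (.c 40 (.c 2794229834 .nil))) .nil) (.I .adp (.c 8 (.c 18689 (.c 40 .nil))) (.l 169943177 .nil))) (.node (.I .tdb (.c 16 (.c 4609 (.c 18689 (.c 8 .nil))))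 (.r 40 .nil)) (.I .tdb (.c 0 (.c 24 (.c 18689 (.c 8 .nil)))) (.b 16 (.r 40 .nil))))) (.node (.node (.I .adp (.c 8 (.c 18689 (.c 169943177 .nil))) (.r 40 .nil)) (.I .jac (.c 169943177 (.c 32 (.c 48 .nil))) (.l 8 (.r 40 .nil)))) (.node (.I .tdp (.c 8 (.c 18689 (.c 40 (.c 169943177 .nil)))) .nil) (.I .tdb (.c 16 (.c 4609 (.c 8 (.c 40 .nil)))) (.l 18689 .nil))))))))

noncomputable def c2_298 : Tr := (.node (.node (.node (.node (.node (.node (.I .tdb (.c 0 (.c 24 (.c 40 (.c 8 .nil)))) (.b 16 (.l 18689 .nil))) (.I .adp (.c 33587401 (.c 40 (.c 2794229834 .nil))) .nil)) (.node (.I .adp (.c 8 (.c 18689 (.c 40 .nil))) (.l 33587401 .nil)) (.I .tdb (.c 24 (.c 2049 (.c 18689 (.c 8 .nil)))) (.r 40 .nil)))) (.node (.node (.I .tdb (.c 0 (.c 16 (.c 18689 (.c 8 .nil)))) (.b 24 (.r 40 .nil))) (.I .adp (.c 8 (.c 18689 (.c 33587401 .nil))) (.r 40 .nil))) (.node (.I .jac (.c 33587401 (.c 32 (.c 48 .nil)))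 (.l 8 (.r 40 .nil))) (.I .tdp (.c 8 (.c 18689 (.c 40 (.c 33587401 .nil)))) .nil)))) (.node (.node (.node (.I .tdb (.c 16 (.c 24 (.c 32 (.c 40 .nil)))) (.b 42762755 .nil)) (.I .jac (.c 16 (.c 32 (.c 48 .nil))) (.l 8 (.l 1310925001 .nil)))) (.node (.I .adp (.c 169943369 (.c 16 (.c 2794229834 .nil))) .nil) (.I .adp (.c 8 (.c 18689 (.c 16 .nil))) (.l 169943369 .nil)))) (.node (.node (.I .jac (.c 16 (.c 32 (.c 48 .nil))) (.l 8 (.l 169943369 .nil))) (.I .adp (.c 8 (.c 18689 (.c 169943369 .nil))) (.r 16 .nil))) (.node (.I .tdp (.c 8 (.c 18689 (.c 16 (.c 169943369 .nil)))) .nil) (.I .adp (.c 12801 (.c 24 (.c 18497 .nil))) (.b 8321 .nil)))))) (.node (.node (.node (.node (.I .ass (.c 513 (.c 18689 (.c 179513673 .nil))) .nil) (.I .adp (.c 16 (.c 32 (.c 18497 .nil))) (.b 1310925001 .nil))) (.node (.I .adp (.c 24 (.c 40 (.c 18497 .nil))) (.b 537002121 .nil)) (.I .adp (.c 24 (.c 40 (.c 8321 .nil)))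 (.b 2105737 .nil)))) (.node (.node (.I .adp (.c 16 (.c 32 (.c 12994 .nil))) (.b 2718203977 .nil)) (.I .adp (.c 24 (.c 40 (.c 16 .nil))) (.r 32 (.b 2718203977 .nil)))) (.node (.I .com (.c 12929 (.c 24 .nil)) (.r 32 (.b 2718203977 .nil))) (.I .adp (.c 16 (.c 32 (.c 12994 .nil))) (.b 2105737 .nil))))) (.node (.node (.node (.I .adp (.c 24 (.c 40 (.c 16 .nil))) (.r 32 (.b 2105737 .nil))) (.I .com (.c 12929 (.c 24 .nil)) (.r 32 (.b 2105737 .nil)))) (.node (.I .adp (.c 16 (.c 32 (.c 18498 .nil))) (.b 1310925001 .nil)) (.I .adp (.c 8 (.c 48 (.c 32 .nil))) (.l 16 (.b 1310925001 .nil))))) (.node (.node (.I .ass (.c 16 (.c 8 (.c 18689 .nil))) (.b 1310925001 .nil)) (.I .ass (.c 8 (.c 16 (.c 18689 .nil))) (.b 1310925001 .nil))) (.node (.I .com (.c 16 (.c 8 .nil)) (.r 18689 (.b 1310925001 .nil))) (.I .adp (.c 8 (.c 48 (.c 16 .nil))) (.r 32 (.b 1310925001 .nil)))))))) (.node (.node (.node (.node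 (.node (.I .ass (.c 8 (.c 18561 (.c 32 .nil))) (.b 1310925001 .nil)) (.I .tdp (.c 8 (.c 48 (.c 16 (.c 32 .nil)))) (.b 1310925001 .nil))) (.node (.I .com (.c 8 (.c 43655299 .nil)) (.b 1310925001 .nil)) (.I .adp (.c 0 (.c 32 (.c 18497 .nil))) (.b 21099139 .nil)))) (.node (.node (.I .adp (.c 0 (.c 32 (.c 18497 .nil))) (.b 1337375954 .nil)) (.I .adp (.c 8 (.c 48 (.c 8193 .nil))) (.b 21099139 .nil))) (.node (.I .adp (.c 8 (.c 48 (.c 8193 .nil))) (.b 1337375954 .nil)) (.I .adp (.c 0 (.c 12929 (.c 18497 .nil))) (.b 8385 .nil))))) (.node (.node (.node (.I .adp (.c 24 (.c 32 (.c 18497 .nil))) (.b 33587529 .nil)) (.I .adp (.c 16 (.c 40 (.c 8385 .nil))) (.b 2105737 .nil))) (.node (.I .adp (.c 24 (.c 32 (.c 12930 .nil))) (.b 2718203977 .nil)) (.I .adp (.c 16 (.c 40 (.c 32 .nil))) (.l 24 (.b 2718203977 .nil))))) (.node (.node (.I .ass (.c 24 (.c 16 (.c 13057 .nil))) (.b 2718203977 .nil)) (.I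 .ass (.c 16 (.c 24 (.c 13057 .nil))) (.b 2718203977 .nil))) (.node (.I .com (.c 24 (.c 16 .nil)) (.r 13057 (.b 2718203977 .nil))) (.I .adp (.c 16 (.c 40 (.c 24 .nil))) (.r 32 (.b 2718203977 .nil))))))) (.node (.node (.node (.node (.I .ass (.c 16 (.c 12993 (.c 32 .nil))) (.b 2718203977 .nil)) (.I .tdp (.c 16 (.c 40 (.c 24 (.c 32 .nil)))) (.b 2718203977 .nil))) (.node (.I .com (.c 16 (.c 21307587 .nil)) (.b 2718203977 .nil)) (.I .adp (.c 24 (.c 32 (.c 12930 .nil))) (.b 2105737 .nil)))) (.node (.node (.I .adp (.c 16 (.c 40 (.c 32 .nil))) (.l 24 (.b 2105737 .nil))) (.I .ass (.c 24 (.c 16 (.c 13057 .nil))) (.b 2105737 .nil))) (.node (.I .ass (.c 16 (.c 24 (.c 13057 .nil))) (.b 2105737 .nil)) (.I .com (.c 24 (.c 16 .nil)) (.r 13057 (.b 2105737 .nil)))))) (.node (.node (.node (.I .adp (.c 16 (.c 40 (.c 24 .nil))) (.r 32 (.b 2105737 .nil))) (.I .ass (.c 16 (.c 12993 (.c 32 .nil))) (.b 2105737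 .nil))) (.node (.I .tdp (.c 16 (.c 40 (.c 24 (.c 32 .nil)))) (.b 2105737 .nil)) (.I .com (.c 16 (.c 21307587 .nil)) (.b 2105737 .nil)))) (.node (.node (.I .adp (.c 0 (.c 32 (.c 18497 .nil))) (.b 1350544522 .nil)) (.I .adp (.c 8 (.c 48 (.c 8193 .nil))) (.b 1350544522 .nil))) (.node (.I .adp (.c 0 (.c 40 (.c 18497 .nil))) (.b 553912521 .nil)) (.I .adp (.c 0 (.c 40 (.c 18497 .nil))) (.b 179513609 .nil))))))))

noncomputable def c2_299 : Tr := (.node (.node (.node (.node (.node (.node (.I .adp (.c 8 (.c 48 (.c 12801 .nil))) (.b 8786563 .nil)) (.I .adp (.c 8 (.c 48 (.c 12801 .nil))) (.b 179551506 .nil))) (.node (.I .adp (.c 16 (.c 32 (.c 24 .nil))) (.b 2737510441 .nil)) (.I .com (.c 1310925193 (.c 8 .nil)) (.b 562465930 .nil)))) (.node (.node (.I .adp (.c 8 (.c 48 (.c 12801 .nil))) (.b 562465930 .nil)) (.I .adp (.c 8 (.c 48 (.c 24 .nil))) (.b 1310991385 .nil))) (.node (.I .adp (.c 16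 (.c 32 (.c 12801 .nil))) (.b 2775125066 .nil)) (.I .com (.c 2737112265 (.c 16 .nil)) (.b 1363881994 .nil))))) (.node (.node (.node (.I .adp (.c 16 (.c 24 (.c 18497 .nil))) (.b 1363881994 .nil)) (.I .jac (.c 0 (.c 8 (.c 48 .nil))) (.b 617629514824073 .nil))) (.node (.I .adp (.c 4737 (.c 32 (.c 40 .nil))) (.b 2105737 .nil)) (.I .adp (.c 16 (.c 8385 (.c 40 .nil))) (.b 2105737 .nil)))) (.node (.node (.I .adp (.c 16 (.c 8386 (.c 40 .nil))) (.b 2105737 .nil)) (.I .adp (.c 24 (.c 32 (.c 40 .nil))) (.l 16 (.b 2105737 .nil)))) (.node (.I .tdp (.c 24 (.c 32 (.c 16 (.c 40 .nil)))) (.b 2105737 .nil)) (.I .com (.c 21099139 (.c 32 .nil)) (.b 2105737 .nil)))))) (.node (.node (.node (.node (.I .adp (.c 8 (.c 48 (.c 40 .nil))) (.b 2306970223667989321 .nil)) (.I .adp (.c 8 (.c 18753 (.c 2306970223667989321 .nil))) .nil)) (.node (.I .jac (.c 2306970223667989321 (.c 40 (.c 48 .nil))) (.l 8 .nil)) (.I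 .adp (.c 8 (.c 18753 (.c 9024942441009993 .nil))) .nil))) (.node (.node (.I .adp (.c 8 (.c 48 (.c 40 .nil))) (.b 2306970773558193929 .nil)) (.I .adp (.c 8 (.c 48 (.c 40 .nil))) (.b 9024908047478665 .nil))) (.node (.I .jac (.c 9024908047478665 (.c 40 (.c 48 .nil))) (.l 8 .nil)) (.I .adp (.c 8 (.c 48 (.c 40 .nil))) (.b 617629514823753 .nil))))) (.node (.node (.node (.I .adp (.c 8 (.c 18753 (.c 617629514823753 .nil))) .nil) (.I .adp (.c 8 (.c 18753 (.c 617611520073929 .nil))) .nil)) (.node (.I .jac (.c 617611520073929 (.c 40 (.c 48 .nil))) (.l 8 .nil)) (.I .adp (.c 8 (.c 48 (.c 40 .nil))) (.b 62886542410057 .nil)))) (.node (.node (.I .adp (.c 8 (.c 48 (.c 40 .nil))) (.b 2306970227964006290 .nil)) (.I .jac (.c 24 (.c 40 (.c 48 .nil))) (.l 8 (.l 537002121 .nil)))) (.node (.I .adp (.c 33587465 (.c 24 (.c 2813400138 .nil))) .nil) (.I .adp (.c 8 (.c 18753 (.c 24 .nil))) (.l 33587465 .nil)))))))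 (.node (.node (.node (.node (.node (.I .jac (.c 24 (.c 40 (.c 48 .nil))) (.l 8 (.l 33587465 .nil))) (.I .adp (.c 8 (.c 18753 (.c 33587465 .nil))) (.r 24 .nil))) (.node (.I .jac (.c 33587465 (.c 40 (.c 48 .nil))) (.l 8 (.r 24 .nil))) (.I .tdp (.c 8 (.c 18753 (.c 24 (.c 33587465 .nil)))) .nil))) (.node (.node (.I .adp (.c 8 (.c 18753 (.c 598967998054665 .nil))) .nil) (.I .adp (.c 169943177 (.c 32 (.c 2813400138 .nil))) .nil)) (.node (.I .adp (.c 8 (.c 18753 (.c 32 .nil))) (.l 169943177 .nil)) (.I .jac (.c 32 (.c 40 (.c 48 .nil))) (.l 8 (.l 169943177 .nil)))))) (.node (.node (.node (.I .adp (.c 8 (.c 18753 (.c 169943177 .nil))) (.r 32 .nil)) (.I .jac (.c 169943177 (.c 40 (.c 48 .nil))) (.l 8 (.r 32 .nil)))) (.node (.I .tdp (.c 8 (.c 18753 (.c 32 (.c 169943177 .nil)))) .nil) (.I .adp (.c 33587401 (.c 32 (.c 2813400138 .nil))) .nil))) (.node (.node (.I .adp (.c 8 (.c 18753 (.c 32 .nil)))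 (.l 33587401 .nil)) (.I .jac (.c 32 (.c 40 (.c 48 .nil))) (.l 8 (.l 33587401 .nil)))) (.node (.I .adp (.c 8 (.c 18753 (.c 33587401 .nil))) (.r 32 .nil)) (.I .jac (.c 33587401 (.c 40 (.c 48 .nil))) (.l 8 (.r 32 .nil))))))) (.node (.node (.node (.node (.I .tdp (.c 8 (.c 18753 (.c 32 (.c 33587401 .nil)))) .nil) (.I .com (.c 537002185 (.c 16 .nil)) (.b 2737408353 .nil))) (.node (.I .adp (.c 8 (.c 48 (.c 40 .nil))) (.b 2306970777854211410 .nil)) (.I .jac (.c 16 (.c 40 (.c 48 .nil))) (.l 8 (.l 537002185 .nil))))) (.node (.node (.I .adp (.c 169943305 (.c 16 (.c 2813400138 .nil))) .nil) (.I .adp (.c 8 (.c 18753 (.c 16 .nil))) (.l 169943305 .nil))) (.node (.I .jac (.c 16 (.c 40 (.c 48 .nil))) (.l 8 (.l 169943305 .nil))) (.I .adp (.c 8 (.c 18753 (.c 169943305 .nil))) (.r 16 .nil))))) (.node (.node (.node (.I .jac (.c 169943305 (.c 40 (.c 48 .nil))) (.l 8 (.r 16 .nil))) (.I .tdp (.c 8 (.c 18753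 (.c 16 (.c 169943305 .nil)))) .nil)) (.node (.I .tdb (.c 0 (.c 32 (.c 16 (.c 24 .nil)))) (.b 2737408353 .nil)) (.I .ass (.c 513 (.c 18753 (.c 179513609 .nil))) .nil))) (.node (.node (.I .com (.c 179513609 (.c 18753 .nil)) (.l 513 .nil)) (.I .adp (.c 0 (.c 8322 (.c 18497 .nil))) (.b 12993 .nil))) (.node (.I .adp (.c 16 (.c 32 (.c 18497 .nil))) (.l 0 (.b 12993 .nil))) (.I .adp (.c 8 (.c 48 (.c 537002121 .nil))) (.b 12993 .nil))))))))

noncomputable def c2_300 : Tr := (.node (.node (.node (.node (.node (.node (.I .adp (.c 16 (.c 24 (.c 40 .nil))) (.b 2737177625 .nil)) (.I .adp (.c 0 (.c 32 (.c 40 .nil))) (.b 2737149977 .nil))) (.node (.I .adp (.c 16 (.c 24 (.c 8193 .nil))) (.b 2737408353 .nil)) (.I .adp (.c 16 (.c 24 (.c 40 .nil))) (.b 2737473577 .nil)))) (.node (.node (.I .adp (.c 0 (.c 4737 (.c 18497 .nil))) (.b 13057 .nil)) (.I .adp (.c 8 (.c 48 (.c 33587401 .nil))) (.b 13057 .nil)))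 (.node (.I .adp (.c 0 (.c 48 (.c 16 .nil))) (.b 2379904940409059145 .nil)) (.I .adp (.c 0 (.c 18561 (.c 2379904940409059145 .nil))) .nil)))) (.node (.node (.node (.I .jac (.c 0 (.c 545424713 (.c 24 .nil))) (.r 18561 .nil)) (.I .jac (.c 0 (.c 8257 (.c 40 .nil))) (.b 24 (.r 18561 .nil)))) (.node (.I .jac (.c 0 (.c 8 (.c 32 .nil))) (.b 40 (.b 24 (.r 18561 .nil)))) (.I .jac (.c 18497 (.c 1337272521 (.c 32 .nil))) (.l 0 .nil)))) (.node (.node (.I .jac (.c 18497 (.c 12929 (.c 24 .nil))) (.b 32 (.l 0 .nil))) (.I .jac (.c 18497 (.c 553912521 (.c 40 .nil))) (.l 0 .nil))) (.node (.I .jac (.c 18497 (.c 8321 (.c 24 .nil))) (.b 40 (.l 0 .nil))) (.I .jac (.c 18497 (.c 16 (.c 32 .nil))) (.b 24 (.b 40 (.l 0 .nil)))))))) (.node (.node (.node (.node (.I .jac (.c 18497 (.c 12929 (.c 32 .nil))) (.b 24 (.l 0 .nil))) (.I .jac (.c 18497 (.c 179513609 (.c 40 .nil))) (.l 0 .nil))) (.node (.I .jac (.c 18497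 (.c 4737 (.c 32 .nil))) (.b 40 (.l 0 .nil))) (.I .jac (.c 18497 (.c 16 (.c 24 .nil))) (.b 32 (.b 40 (.l 0 .nil)))))) (.node (.node (.I .adp (.c 0 (.c 18561 (.c 3632106110100617 .nil))) .nil) (.I .adp (.c 0 (.c 18497 (.c 3632106110100681 .nil))) .nil)) (.node (.I .adp (.c 0 (.c 18561 (.c 3632062472293641 .nil))) .nil) (.I .jac (.c 8786435 (.c 8 (.c 40 .nil))) (.l 18561 .nil))))) (.node (.node (.node (.I .jac (.c 21307395 (.c 8 (.c 24 .nil))) (.l 18561 .nil)) (.I .adp (.c 0 (.c 18561 (.c 12993 .nil))) (.l 8257 .nil))) (.node (.I .jac (.c 0 (.c 24 (.c 40 .nil))) (.r 18561 (.l 8257 .nil))) (.I .adp (.c 0 (.c 18497 (.c 617629514824073 .nil))) .nil))) (.node (.node (.I .tdb (.c 4737 (.c 40 (.c 0 (.c 32 .nil)))) (.l 18497 .nil)) (.I .tdb (.c 16 (.c 24 (.c 32 (.c 0 .nil)))) (.b 40 (.l 18497 .nil)))) (.node (.I .adp (.c 0 (.c 18497 (.c 12993 .nil))) (.l 8321 .nil)) (.I .jac (.c 0 (.c 24 (.c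 40 .nil))) (.r 18497 (.l 8321 .nil)))))))) (.node (.node (.node (.node (.node (.I .adp (.c 0 (.c 18561 (.c 3561367726845257 .nil))) .nil) (.I .tdb (.c 24 (.c 32 (.c 18561 (.c 0 .nil)))) (.l 12865 .nil))) (.node (.I .adp (.c 0 (.c 18561 (.c 8385 .nil))) (.l 12865 .nil)) (.I .jac (.c 0 (.c 24 (.c 32 .nil))) (.r 18561 (.l 12865 .nil))))) (.node (.node (.I .jac (.c 21099011 (.c 8 (.c 32 .nil))) (.l 18561 .nil)) (.I .adp (.c 0 (.c 18497 (.c 8385 .nil))) (.l 12929 .nil))) (.node (.I .jac (.c 0 (.c 24 (.c 32 .nil))) (.r 18497 (.l 12929 .nil))) (.I .tdb (.c 4737 (.c 32 (.c 0 (.c 40 .nil)))) (.l 18497 .nil))))) (.node (.node (.node (.I .tdb (.c 16 (.c 24 (.c 40 (.c 0 .nil)))) (.b 32 (.l 18497 .nil))) (.I .adp (.c 0 (.c 18561 (.c 13057 .nil))) (.l 4673 .nil))) (.node (.I .jac (.c 0 (.c 32 (.c 40 .nil))) (.r 18561 (.l 4673 .nil))) (.I .jac (.c 18497 (.c 32 (.c 40 .nil))) (.l 0 (.l 4737 .nil)))))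 (.node (.node (.I .adp (.c 0 (.c 18497 (.c 13057 .nil))) (.l 4737 .nil)) (.I .jac (.c 0 (.c 32 (.c 40 .nil))) (.r 18497 (.l 4737 .nil)))) (.node (.I .adp (.c 0 (.c 48 (.c 24 .nil))) (.b 2379904940409059081 .nil)) (.I .adp (.c 0 (.c 18625 (.c 2379904940409059081 .nil))) .nil))))) (.node (.node (.node (.node (.I .jac (.c 2379904940409059081 (.c 24 (.c 48 .nil))) (.l 0 .nil)) (.I .jac (.c 0 (.c 545424713 (.c 16 .nil))) (.r 18625 .nil))) (.node (.I .jac (.c 0 (.c 8257 (.c 40 .nil))) (.b 16 (.r 18625 .nil))) (.I .jac (.c 0 (.c 8 (.c 32 .nil))) (.b 40 (.b 16 (.r 18625 .nil)))))) (.node (.node (.I .adp (.c 0 (.c 48 (.c 24 .nil))) (.b 14025204674709064585 .nil)) (.I .adp (.c 0 (.c 18625 (.c 14025204674709064585 .nil))) .nil)) (.node (.I .jac (.c 0 (.c 1324065929 (.c 32 .nil))) (.r 18625 .nil)) (.I .jac (.c 0 (.c 12865 (.c 16 .nil))) (.b 32 (.r 18625 .nil)))))) (.node (.node (.node (.I .jac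 (.c 0 (.c 8 (.c 40 .nil))) (.b 16 (.b 32 (.r 18625 .nil)))) (.I .adp (.c 0 (.c 48 (.c 24 .nil))) (.b 10206474507614089 .nil))) (.node (.I .adp (.c 0 (.c 18625 (.c 10206474507614089 .nil))) .nil) (.I .jac (.c 0 (.c 35718473 (.c 32 .nil))) (.r 18625 .nil)))) (.node (.node (.I .jac (.c 0 (.c 2113 (.c 40 .nil))) (.b 32 (.r 18625 .nil))) (.I .jac (.c 0 (.c 8 (.c 16 .nil))) (.b 40 (.b 32 (.r 18625 .nil))))) (.node (.I .adp (.c 0 (.c 48 (.c 24 .nil))) (.b 2379903264864635849 .nil)) (.I .adp (.c 0 (.c 18625 (.c 2379903264864635849 .nil))) .nil)))))))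

noncomputable def c2_301 : Tr := (.node (.node (.node (.node (.node (.node (.I .jac (.c 0 (.c 545424521 (.c 40 .nil))) (.r 18625 .nil)) (.I .jac (.c 0 (.c 8257 (.c 16 .nil))) (.b 40 (.r 18625 .nil)))) (.node (.I .jac (.c 0 (.c 8 (.c 32 .nil))) (.b 16 (.b 40 (.r 18625 .nil)))) (.I .jac (.c 12865 (.c 16 (.c 32 .nil))) (.b 2718499041 .nil)))) (.node (.node (.I .adp (.c 0 (.c 48 (.c 24 .nil))) (.b 14025207386396218121 .nil)) (.I .adp (.c 0 (.c 18625 (.c 14025207386396218121 .nil))) .nil)) (.node (.I .jac (.c 14025207386396218121 (.c 24 (.c 48 .nil))) (.l 0 .nil)) (.I .jac (.c 0 (.c 1324066057 (.c 16 .nil))) (.r 18625 .nil))))) (.node (.node (.node (.I .jac (.c 0 (.c 12865 (.c 32 .nil))) (.b 16 (.r 18625 .nil))) (.I .jac (.c 0 (.c 8 (.c 40 .nil))) (.b 32 (.b 16 (.r 18625 .nil))))) (.node (.I .adp (.c 0 (.c 18625 (.c 3632062472293577 .nil))) .nil) (.I .jac (.c 21307395 (.c 8 (.c 16 .nil)))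 (.l 18625 .nil)))) (.node (.node (.I .jac (.c 0 (.c 16 (.c 40 .nil))) (.r 18625 (.l 8257 .nil))) (.I .adp (.c 0 (.c 18625 (.c 12929 .nil))) (.l 8257 .nil))) (.node (.I .adp (.c 0 (.c 18625 (.c 3491710045130057 .nil))) .nil) (.I .tdb (.c 16 (.c 32 (.c 18625 (.c 0 .nil)))) (.l 12865 .nil)))))) (.node (.node (.node (.node (.I .tdb (.c 16 (.c 8257 (.c 0 (.c 40 .nil)))) (.l 18625 .nil)) (.I .adp (.c 0 (.c 18625 (.c 13057 .nil))) (.l 2113 .nil))) (.node (.I .jac (.c 0 (.c 32 (.c 40 .nil))) (.r 18625 (.l 2113 .nil))) (.I .adp (.c 12865 (.c 32 (.c 18433 .nil))) (.b 4737 .nil)))) (.node (.node (.I .adp (.c 0 (.c 48 (.c 545424713 .nil))) (.b 4737 .nil)) (.I .tdb (.c 16 (.c 48 (.c 0 (.c 40 .nil)))) (.b 8385 (.l 8 .nil)))) (.node (.I .adp (.c 16 (.c 24 (.c 18433 .nil))) (.b 1324066057 .nil)) (.I .adp (.c 16 (.c 24 (.c 18433 .nil))) (.b 545424713 .nil))))) (.node (.node (.node (.I .adp (.c 32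 (.c 40 (.c 18433 .nil))) (.b 35718345 .nil)) (.I .adp (.c 16 (.c 24 (.c 18433 .nil))) (.b 21307459 .nil))) (.node (.I .adp (.c 16 (.c 24 (.c 18433 .nil))) (.b 1324168978 .nil)) (.I .adp (.c 0 (.c 48 (.c 4737 .nil))) (.b 1324066057 .nil)))) (.node (.node (.I .adp (.c 8 (.c 24 (.c 18433 .nil))) (.b 1337272585 .nil)) (.I .adp (.c 8 (.c 24 (.c 18433 .nil))) (.b 1337376018 .nil))) (.node (.I .adp (.c 8 (.c 24 (.c 18433 .nil))) (.b 553979218 .nil)) (.I .adp (.c 8 (.c 16 (.c 18433 .nil))) (.b 562466121 .nil))))))) (.node (.node (.node (.node (.node (.I .adp (.c 16 (.c 12993 (.c 18433 .nil))) (.b 8257 .nil)) (.I .adp (.c 16 (.c 12994 (.c 18433 .nil))) (.b 8257 .nil))) (.node (.I .adp (.c 24 (.c 40 (.c 18433 .nil))) (.l 16 (.b 8257 .nil))) (.I .jac (.c 244148848929896201 (.c 32 (.c 48 .nil))) (.l 0 .nil)))) (.node (.node (.I .adp (.c 0 (.c 48 (.c 32 .nil))) (.b 14025204674709064521 .nil))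 (.I .adp (.c 0 (.c 18689 (.c 14025204674709064521 .nil))) .nil)) (.node (.I .jac (.c 14025204674709064521 (.c 32 (.c 48 .nil))) (.l 0 .nil)) (.I .jac (.c 0 (.c 1324065929 (.c 24 .nil))) (.r 18689 .nil))))) (.node (.node (.node (.I .jac (.c 0 (.c 12865 (.c 16 .nil))) (.b 24 (.r 18689 .nil))) (.I .jac (.c 0 (.c 8 (.c 40 .nil))) (.b 16 (.b 24 (.r 18689 .nil))))) (.node (.I .adp (.c 0 (.c 48 (.c 32 .nil))) (.b 10206474507614025 .nil)) (.I .adp (.c 0 (.c 18689 (.c 10206474507614025 .nil))) .nil))) (.node (.node (.I .jac (.c 10206474507614025 (.c 32 (.c 48 .nil))) (.l 0 .nil)) (.I .jac (.c 0 (.c 35718473 (.c 24 .nil))) (.r 18689 .nil))) (.node (.I .jac (.c 0 (.c 2113 (.c 40 .nil))) (.b 24 (.r 18689 .nil))) (.I .jac (.c 0 (.c 8 (.c 16 .nil))) (.b 40 (.b 24 (.r 18689 .nil)))))))) (.node (.node (.node (.node (.I .jac (.c 12865 (.c 16 (.c 24 .nil))) (.b 2718499105 .nil)) (.I .adp (.c 0 (.c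 48 (.c 32 .nil))) (.b 14025206030552608521 .nil))) (.node (.I .adp (.c 0 (.c 18689 (.c 14025206030552608521 .nil))) .nil) (.I .jac (.c 14025206030552608521 (.c 32 (.c 48 .nil))) (.l 0 .nil)))) (.node (.node (.I .jac (.c 0 (.c 1324065993 (.c 16 .nil))) (.r 18689 .nil)) (.I .jac (.c 0 (.c 12865 (.c 24 .nil))) (.b 16 (.r 18689 .nil)))) (.node (.I .jac (.c 0 (.c 8 (.c 40 .nil))) (.b 24 (.b 16 (.r 18689 .nil)))) (.I .adp (.c 0 (.c 18689 (.c 3561367726845129 .nil))) .nil)))) (.node (.node (.node (.I .adp (.c 0 (.c 18689 (.c 3491710045129993 .nil))) .nil) (.I .tdb (.c 16 (.c 24 (.c 18689 (.c 0 .nil)))) (.l 12865 .nil))) (.node (.I .jac (.c 4737 (.c 32 (.c 48 .nil))) (.l 0 (.l 12865 .nil))) (.I .adp (.c 12865 (.c 24 (.c 18433 .nil))) (.b 8321 .nil)))) (.node (.node (.I .tdb (.c 32 (.c 48 (.c 0 (.c 24 .nil)))) (.b 12929 (.l 8 .nil))) (.I .adp (.c 16 (.c 32 (.c 18433 .nil))) (.b 1324065993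 .nil))) (.node (.I .adp (.c 16 (.c 32 (.c 18433 .nil))) (.b 174695753 .nil)) (.I .adp (.c 16 (.c 32 (.c 8 .nil))) (.b 2718307865 .nil))))))))

noncomputable def c2_302 : Tr := (.node (.node (.node (.node (.node (.node (.I .com (.c 8257 (.c 16 .nil)) (.b 2718307865 .nil)) (.I .com (.c 2718204233 (.c 24 .nil)) (.b 8652867 .nil))) (.node (.I .adp (.c 24 (.c 40 (.c 18433 .nil))) (.b 8652867 .nil)) (.I .com (.c 2718204233 (.c 24 .nil)) (.b 545490578 .nil)))) (.node (.node (.I .adp (.c 24 (.c 40 (.c 18433 .nil))) (.b 545490578 .nil)) (.I .com (.c 2718204233 (.c 24 .nil)) (.b 35735314 .nil))) (.node (.I .adp (.c 24 (.c 40 (.c 18433 .nil))) (.b 35735314 .nil)) (.I .adp (.c 24 (.c 40 (.c 8 .nil))) (.b 2718270489 .nil))))) (.node (.node (.node (.I .com (.c 12865 (.c 24 .nil)) (.b 2718270489 .nil)) (.I .adp (.c 16 (.c 32 (.c 18433 .nil))) (.b 174733138 .nil))) (.node (.I .adp (.c 0 (.c 48 (.c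 8321 .nil))) (.b 1324065993 .nil)) (.I .adp (.c 8 (.c 32 (.c 18433 .nil))) (.b 1337375954 .nil)))) (.node (.node (.I .adp (.c 8 (.c 32 (.c 18433 .nil))) (.b 179551570 .nil)) (.I .adp (.c 0 (.c 48 (.c 35718473 .nil))) (.b 8385 .nil))) (.node (.I .adp (.c 24 (.c 32 (.c 18433 .nil))) (.b 1324065929 .nil)) (.I .adp (.c 16 (.c 40 (.c 18433 .nil))) (.b 545424585 .nil)))))) (.node (.node (.node (.node (.I .adp (.c 16 (.c 40 (.c 18433 .nil))) (.b 174695689 .nil)) (.I .com (.c 8257 (.c 24 .nil)) (.b 2718307353 .nil))) (.node (.I .adp (.c 24 (.c 32 (.c 8 .nil))) (.b 2718307353 .nil)) (.I .com (.c 2718204233 (.c 16 .nil)) (.b 8786499 .nil)))) (.node (.node (.I .adp (.c 16 (.c 40 (.c 18433 .nil))) (.b 8786499 .nil)) (.I .adp (.c 16 (.c 40 (.c 8 .nil))) (.b 2718271001 .nil))) (.node (.I .com (.c 12865 (.c 16 .nil)) (.b 2718271001 .nil)) (.I .adp (.c 24 (.c 32 (.c 18433 .nil))) (.b 1324168850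 .nil))))) (.node (.node (.node (.I .adp (.c 8 (.c 32 (.c 24 .nil))) (.b 2718307353 .nil)) (.I .adp (.c 16 (.c 40 (.c 24 .nil))) (.b 2718269977 .nil))) (.node (.I .adp (.c 8 (.c 24 (.c 32 .nil))) (.b 2718307353 .nil)) (.I .adp (.c 16 (.c 40 (.c 32 .nil))) (.b 2718241305 .nil)))) (.node (.node (.I .com (.c 8321 (.c 24 .nil)) (.b 2718306841 .nil)) (.I .adp (.c 24 (.c 32 (.c 16 .nil))) (.b 2718306841 .nil))) (.node (.I .adp (.c 8 (.c 40 (.c 18433 .nil))) (.b 8786563 .nil)) (.I .adp (.c 8 (.c 40 (.c 18433 .nil))) (.b 553979090 .nil))))))) (.node (.node (.node (.node (.node (.I .adp (.c 8 (.c 40 (.c 18433 .nil))) (.b 179551506 .nil)) (.I .adp (.c 8 (.c 40 (.c 16 .nil))) (.b 2718271001 .nil))) (.node (.I .adp (.c 24 (.c 32 (.c 18433 .nil))) (.b 1337272394 .nil)) (.I .adp (.c 0 (.c 48 (.c 12865 .nil))) (.b 553912521 .nil)))) (.node (.node (.I .adp (.c 0 (.c 48 (.c 12865 .nil))) (.b 179513609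 .nil)) (.I .adp (.c 16 (.c 32 (.c 18433 .nil))) (.b 1350544458 .nil))) (.node (.I .adp (.c 16 (.c 24 (.c 18433 .nil))) (.b 1363882058 .nil)) (.I .adp (.c 0 (.c 18753 (.c 244148670041477897 .nil))) .nil)))) (.node (.node (.node (.I .jac (.c 244148670041477897 (.c 40 (.c 48 .nil))) (.l 0 .nil)) (.I .jac (.c 0 (.c 174695689 (.c 16 .nil))) (.r 18753 .nil))) (.node (.I .jac (.c 0 (.c 4673 (.c 32 .nil))) (.b 16 (.r 18753 .nil))) (.I .jac (.c 0 (.c 8 (.c 24 .nil))) (.b 32 (.b 16 (.r 18753 .nil)))))) (.node (.node (.I .adp (.c 0 (.c 48 (.c 40 .nil))) (.b 2379903264864635721 .nil)) (.I .adp (.c 0 (.c 18753 (.c 2379903264864635721 .nil))) .nil)) (.node (.I .jac (.c 2379903264864635721 (.c 40 (.c 48 .nil))) (.l 0 .nil)) (.I .jac (.c 0 (.c 545424521 (.c 24 .nil))) (.r 18753 .nil)))))) (.node (.node (.node (.node (.I .jac (.c 0 (.c 8257 (.c 16 .nil))) (.b 24 (.r 18753 .nil))) (.I .jac (.c 0 (.c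 8 (.c 32 .nil))) (.b 16 (.b 24 (.r 18753 .nil))))) (.node (.I .adp (.c 0 (.c 18753 (.c 10206437931930441 .nil))) .nil) (.I .jac (.c 10206437931930441 (.c 40 (.c 48 .nil))) (.l 0 .nil)))) (.node (.node (.I .jac (.c 0 (.c 35718409 (.c 24 .nil))) (.r 18753 .nil)) (.I .jac (.c 0 (.c 2113 (.c 32 .nil))) (.b 24 (.r 18753 .nil)))) (.node (.I .jac (.c 0 (.c 8 (.c 16 .nil))) (.b 32 (.b 24 (.r 18753 .nil)))) (.I .adp (.c 0 (.c 18753 (.c 244148312264838025 .nil))) .nil)))) (.node (.node (.node (.I .jac (.c 244148312264838025 (.c 40 (.c 48 .nil))) (.l 0 .nil)) (.I .jac (.c 0 (.c 174695561 (.c 32 .nil))) (.r 18753 .nil))) (.node (.I .jac (.c 0 (.c 4673 (.c 16 .nil))) (.b 32 (.r 18753 .nil))) (.I .jac (.c 0 (.c 8 (.c 24 .nil))) (.b 16 (.b 32 (.r 18753 .nil)))))) (.node (.node (.I .adp (.c 0 (.c 18753 (.c 2379903823379377929 .nil))) .nil) (.I .jac (.c 2379903823379377929 (.c 40 (.c 48 .nil))) (.l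 0 .nil))) (.node (.I .jac (.c 0 (.c 545424585 (.c 16 .nil))) (.r 18753 .nil)) (.I .jac (.c 0 (.c 8257 (.c 24 .nil))) (.b 16 (.r 18753 .nil)))))))))

noncomputable def c2_303 : Tr := (.node (.node (.node (.node (.node (.node (.I .jac (.c 0 (.c 8 (.c 32 .nil))) (.b 24 (.b 16 (.r 18753 .nil)))) (.I .jac (.c 10206401356312457 (.c 40 (.c 48 .nil))) (.l 0 .nil))) (.node (.I .adp (.c 0 (.c 18753 (.c 617629514823817 .nil))) .nil) (.I .jac (.c 0 (.c 8 (.c 8786563 .nil))) (.r 18753 .nil)))) (.node (.node (.I .jac (.c 0 (.c 16 (.c 32 .nil))) (.r 18753 (.l 4673 .nil))) (.I .adp (.c 0 (.c 18753 (.c 8321 .nil))) (.l 4673 .nil))) (.node (.I .jac (.c 0 (.c 24 (.c 32 .nil))) (.r 18753 (.l 2113 .nil))) (.I .adp (.c 0 (.c 18753 (.c 8385 .nil))) (.l 2113 .nil))))) (.node (.node (.node (.I .adp (.c 8 (.c 8321 (.c 18433 .nil))) (.b 12993 .nil)) (.I .adp (.c 0 (.c 48 (.c 545424521 .nil))) (.b 12993 .nil)))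 (.node (.I .adp (.c 8 (.c 24 (.c 40 .nil))) (.b 2718270489 .nil)) (.I .adp (.c 16 (.c 32 (.c 40 .nil))) (.b 2718241305 .nil)))) (.node (.node (.I .adp (.c 16 (.c 24 (.c 40 .nil))) (.b 2718269977 .nil)) (.I .adp (.c 8 (.c 32 (.c 40 .nil))) (.b 2718241817 .nil))) (.node (.I .jac (.c 537002313 (.c 16 (.c 24 .nil))) (.b 18497 .nil)) (.I .jac (.c 1324065993 (.c 16 (.c 32 .nil))) (.b 18433 .nil)))))) (.node (.node (.node (.node (.I .adp (.c 9024976834606985 (.c 24 (.c 18497 .nil))) .nil) (.I .adp (.c 14025204674709064585 (.c 24 (.c 18433 .nil))) .nil)) (.node (.I .com (.c 2718204105 (.c 14025204674709064585 .nil)) .nil) (.I .adp (.c 10206474507614089 (.c 24 (.c 18433 .nil))) .nil))) (.node (.node (.I .com (.c 2718204105 (.c 10206474507614089 .nil)) .nil) (.I .adp (.c 13748196208362033929 (.c 24 (.c 18497 .nil))) .nil)) (.node (.I .adp (.c 9024942441010121 (.c 24 (.c 18497 .nil))) .nil)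 (.I .jac (.c 12865 (.c 16 (.c 32 .nil))) (.r 24 (.b 18433 .nil)))))) (.node (.node (.node (.I .adp (.c 14025207386396218121 (.c 24 (.c 18433 .nil))) .nil) (.I .com (.c 2718204105 (.c 14025207386396218121 .nil)) .nil)) (.node (.I .adp (.c 10206437931930569 (.c 24 (.c 18433 .nil))) .nil) (.I .com (.c 2718204105 (.c 10206437931930569 .nil)) .nil))) (.node (.node (.I .jac (.c 18433 (.c 8321 (.c 40 .nil))) (.l 4673 .nil)) (.I .adp (.c 21307523 (.c 24 (.c 48 .nil))) (.b 513 .nil))) (.node (.I .adp (.c 21307523 (.c 24 (.c 0 .nil))) (.b 18497 .nil)) (.I .com (.c 4609 (.c 21307523 .nil)) (.b 18497 .nil))))))) (.node (.node (.node (.node (.node (.I .adp (.c 4609 (.c 21307523 (.c 18497 .nil))) .nil) (.I .adp (.c 21307523 (.c 24 (.c 8 .nil))) (.b 18433 .nil))) (.node (.I .com (.c 4673 (.c 21307523 .nil)) (.b 18433 .nil)) (.I .adp (.c 8193 (.c 1337272521 (.c 18497 .nil))) .nil))) (.node (.node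 (.I .adp (.c 10206474507614025 (.c 32 (.c 18433 .nil))) .nil) (.I .com (.c 2718204169 (.c 10206474507614025 .nil)) .nil)) (.node (.I .jac (.c 18433 (.c 16 (.c 40 .nil))) (.b 24 (.l 8257 .nil))) (.I .adp (.c 13748194865974800137 (.c 32 (.c 18497 .nil))) .nil)))) (.node (.node (.node (.I .adp (.c 8193 (.c 179513673 (.c 18497 .nil))) .nil) (.I .adp (.c 14025206030552608521 (.c 32 (.c 18433 .nil))) .nil)) (.node (.I .com (.c 2718204169 (.c 14025206030552608521 .nil)) .nil) (.I .adp (.c 10206401356312521 (.c 32 (.c 18433 .nil))) .nil))) (.node (.node (.I .com (.c 2718204169 (.c 10206401356312521 .nil)) .nil) (.I .jac (.c 18433 (.c 16 (.c 24 .nil))) (.b 40 (.l 8257 .nil)))) (.node (.I .adp (.c 21099139 (.c 32 (.c 48 .nil))) (.b 513 .nil)) (.I .adp (.c 21099139 (.c 32 (.c 0 .nil))) (.b 18497 .nil)))))) (.node (.node (.node (.node (.I .com (.c 8193 (.c 21099139 .nil)) (.b 18497 .nil)) (.I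 .adp (.c 3561389332330569 (.c 32 (.c 18497 .nil))) .nil)) (.node (.I .adp (.c 8193 (.c 21099139 (.c 18497 .nil))) .nil) (.I .adp (.c 21099139 (.c 32 (.c 8 .nil))) (.b 18433 .nil)))) (.node (.node (.I .com (.c 8257 (.c 21099139 .nil)) (.b 18433 .nil)) (.I .adp (.c 3561389332330633 (.c 32 (.c 18433 .nil))) .nil)) (.node (.I .adp (.c 33587529 (.c 8385 (.c 18497 .nil))) .nil) (.I .jac (.c 18433 (.c 24 (.c 32 .nil))) (.l 1324065929 .nil))))) (.node (.node (.node (.I .jac (.c 18433 (.c 16 (.c 40 .nil))) (.l 545424585 .nil)) (.I .adp (.c 174695689 (.c 12929 (.c 18433 .nil))) .nil)) (.node (.I .jac (.c 18433 (.c 16 (.c 40 .nil))) (.l 174695689 .nil)) (.I .adp (.c 598967998054793 (.c 24 (.c 18497 .nil))) .nil))) (.node (.node (.I .adp (.c 62886542410121 (.c 32 (.c 18497 .nil))) .nil) (.I .adp (.c 1310924937 (.c 8386 (.c 18497 .nil))) .nil)) (.node (.I .adp (.c 24 (.c 32 (.c 18497 .nil)))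 (.l 1310924937 .nil)) (.I .adp (.c 12929 (.c 24 (.c 18497 .nil))) (.l 8193 .nil))))))))

noncomputable def c2_304 : Tr := (.node (.node (.node (.node (.node (.node (.I .adp (.c 3632062472293577 (.c 24 (.c 18433 .nil))) .nil) (.I .adp (.c 8786499 (.c 12929 (.c 18433 .nil))) .nil)) (.node (.I .jac (.c 18433 (.c 16 (.c 40 .nil))) (.l 8786499 .nil)) (.I .adp (.c 231045815314584329 (.c 40 (.c 18497 .nil))) .nil))) (.node (.node (.I .adp (.c 2306970223667989321 (.c 40 (.c 18497 .nil))) .nil) (.I .adp (.c 9024942441009993 (.c 40 (.c 18497 .nil))) .nil)) (.node (.I .jac (.c 18433 (.c 8321 (.c 24 .nil))) (.l 12865 .nil)) (.I .jac (.c 18433 (.c 16 (.c 32 .nil))) (.b 24 (.l 12865 .nil)))))) (.node (.node (.node (.I .adp (.c 10206437931930441 (.c 40 (.c 18433 .nil))) .nil) (.I .com (.c 2718204233 (.c 10206437931930441 .nil)) .nil)) (.node (.I .adp (.c 244148312264838025 (.c 40 (.c 18433 .nil)))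 .nil) (.I .com (.c 2718204233 (.c 244148312264838025 .nil)) .nil))) (.node (.node (.I .jac (.c 8193 (.c 16 (.c 24 .nil))) (.r 40 (.b 18497 .nil))) (.I .adp (.c 2306970773558193929 (.c 40 (.c 18497 .nil))) .nil)) (.node (.I .adp (.c 10206401356312457 (.c 40 (.c 18433 .nil))) .nil) (.I .com (.c 2718204233 (.c 10206401356312457 .nil)) .nil))))) (.node (.node (.node (.node (.I .adp (.c 617629514823753 (.c 40 (.c 18497 .nil))) .nil) (.I .adp (.c 12865 (.c 8786563 (.c 18433 .nil))) .nil)) (.node (.I .adp (.c 617629514823817 (.c 40 (.c 18433 .nil))) .nil) (.I .adp (.c 1310925001 (.c 8321 (.c 18497 .nil))) .nil))) (.node (.node (.I .com (.c 1324065993 (.c 8321 .nil)) (.b 18433 .nil)) (.I .adp (.c 1324065993 (.c 8321 (.c 18433 .nil))) .nil)) (.node (.I .jac (.c 18433 (.c 16 (.c 32 .nil))) (.l 174695753 .nil)) (.I .jac (.c 18433 (.c 24 (.c 40 .nil))) (.l 545424521 .nil))))) (.node (.node (.node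 (.I .adp (.c 12801 (.c 553979090 (.c 18497 .nil))) .nil) (.I .adp (.c 8321 (.c 24 (.c 18497 .nil))) (.l 12801 .nil))) (.node (.I .adp (.c 617611520073929 (.c 40 (.c 18497 .nil))) .nil) (.I .adp (.c 8321 (.c 40 (.c 18497 .nil))) (.l 4609 .nil)))) (.node (.node (.I .jac (.c 18433 (.c 16 (.c 32 .nil))) (.l 21099075 .nil)) (.I .com (.c 2718204105 (.c 8321 .nil)) (.l 12865 .nil))) (.node (.I .adp (.c 8321 (.c 24 (.c 18433 .nil))) (.l 12865 .nil)) (.I .adp (.c 617620517416137 (.c 40 (.c 18433 .nil))) .nil)))))) (.node (.node (.node (.node (.node (.I .adp (.c 62889413446985 (.c 40 (.c 18433 .nil))) .nil) (.I .com (.c 537002313 (.c 4737 .nil)) (.b 18497 .nil))) (.node (.I .adp (.c 1310925065 (.c 4737 (.c 18497 .nil))) .nil) (.I .jac (.c 18433 (.c 16 (.c 24 .nil))) (.l 545424713 .nil)))) (.node (.node (.I .adp (.c 174695561 (.c 13057 (.c 18433 .nil))) .nil) (.I .jac (.c 18433 (.c 32 (.c 40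 .nil))) (.l 35718345 .nil))) (.node (.I .com (.c 21307395 (.c 4737 .nil)) (.b 18497 .nil)) (.I .adp (.c 21307395 (.c 4737 (.c 18497 .nil))) .nil)))) (.node (.node (.node (.I .com (.c 21307459 (.c 4737 .nil)) (.b 18433 .nil)) (.I .adp (.c 21307459 (.c 4737 (.c 18433 .nil))) .nil)) (.node (.I .jac (.c 18433 (.c 16 (.c 24 .nil))) (.l 21307459 .nil)) (.I .com (.c 2718204169 (.c 4737 .nil)) (.l 12865 .nil)))) (.node (.node (.I .adp (.c 4737 (.c 32 (.c 18433 .nil))) (.l 12865 .nil)) (.I .adp (.c 598976858557705 (.c 40 (.c 18433 .nil))) .nil)) (.node (.I .adp (.c 2306971873338799945 (.c 16 (.c 18497 .nil))) .nil) (.I .com (.c 14025206030552608649 (.c 16 .nil)) (.b 18433 .nil)))))) (.node (.node (.node (.node (.I .adp (.c 14025206030552608649 (.c 16 (.c 18433 .nil))) .nil) (.I .com (.c 2718204041 (.c 14025206030552608649 .nil)) .nil)) (.node (.I .com (.c 231045815314584521 (.c 16 .nil))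 (.b 18497 .nil)) (.I .com (.c 13748196208362033993 (.c 16 .nil)) (.b 18497 .nil)))) (.node (.node (.I .adp (.c 231045815314584521 (.c 16 (.c 18497 .nil))) .nil) (.I .com (.c 244148670041478089 (.c 16 .nil)) (.b 18433 .nil))) (.node (.I .adp (.c 244148670041478089 (.c 16 (.c 18433 .nil))) .nil) (.I .com (.c 2718204041 (.c 244148670041478089 .nil)) .nil)))) (.node (.node (.node (.I .adp (.c 2113 (.c 21307587 (.c 18433 .nil))) .nil) (.I .adp (.c 1310925001 (.c 8322 (.c 18497 .nil))) .nil)) (.node (.I .adp (.c 16 (.c 32 (.c 18497 .nil))) (.l 1310925001 .nil)) (.I .adp (.c 16 (.c 12993 (.c 18497 .nil))) (.l 8193 .nil)))) (.node (.node (.I .com (.c 3632062472293641 (.c 16 .nil)) (.b 18433 .nil)) (.I .adp (.c 3632062472293641 (.c 16 (.c 18433 .nil))) .nil)) (.node (.I .adp (.c 8652867 (.c 12993 (.c 18433 .nil))) .nil) (.I .jac (.c 18433 (.c 24 (.c 40 .nil))) (.l 8652867 .nil))))))))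

noncomputable def c2_305 : Tr := (.node (.node (.node (.node (.node (.node (.I .jac (.c 18433 (.c 24 (.c 40 .nil))) (.l 16 (.l 8257 .nil))) (.I .adp (.c 20891651 (.c 8385 (.c 18497 .nil))) .nil)) (.node (.I .adp (.c 12801 (.c 562465930 (.c 18497 .nil))) .nil) (.I .adp (.c 16 (.c 8385 (.c 18497 .nil))) (.l 12801 .nil)))) (.node (.node (.I .adp (.c 8385 (.c 40 (.c 18497 .nil))) (.l 2049 .nil)) (.I .jac (.c 18433 (.c 24 (.c 32 .nil))) (.l 16 (.l 12865 .nil)))) (.node (.I .adp (.c 2803715 (.c 13057 (.c 18497 .nil))) .nil) (.I .adp (.c 16 (.c 13057 (.c 18497 .nil))) (.l 4609 .nil))))) (.node (.node (.node (.I .adp (.c 24 (.c 13057 (.c 18497 .nil))) (.l 2049 .nil)) (.I .com (.c 2803779 (.c 13057 .nil)) (.b 18433 .nil))) (.node (.I .jac (.c 169943369 (.c 8 (.c 32 .nil))) (.b 18561 .nil)) (.I .jac (.c 4609 (.c 8257 (.c 40 .nil))) (.b 18561 .nil)))) (.node (.node (.I .jac (.c 4609 (.c 8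 (.c 32 .nil))) (.b 40 (.b 18561 .nil))) (.I .jac (.c 12801 (.c 8 (.c 24 .nil))) (.b 32 (.b 18561 .nil)))) (.node (.I .jac (.c 1310925001 (.c 8 (.c 32 .nil))) (.b 18561 .nil)) (.I .jac (.c 1310925065 (.c 8 (.c 24 .nil))) (.b 18561 .nil)))))) (.node (.node (.node (.node (.I .jac (.c 12801 (.c 4673 (.c 32 .nil))) (.b 18561 .nil)) (.I .adp (.c 2306971873338799817 (.c 24 (.c 18561 .nil))) .nil)) (.node (.I .jac (.c 12801 (.c 8 (.c 32 .nil))) (.r 24 (.b 18561 .nil))) (.I .adp (.c 35468714087369 (.c 24 (.c 18561 .nil))) .nil))) (.node (.node (.I .adp (.c 4609 (.c 545424713 (.c 18561 .nil))) .nil) (.I .adp (.c 3632062472293449 (.c 24 (.c 18561 .nil))) .nil)) (.node (.I .adp (.c 231045989336561353 (.c 32 (.c 18561 .nil))) .nil) (.I .adp (.c 13748192181200529225 (.c 32 (.c 18561 .nil))) .nil)))) (.node (.node (.node (.I .adp (.c 35470870263625 (.c 32 (.c 18561 .nil))) .nil) (.I .adp (.c 13748194865974800073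 (.c 32 (.c 18561 .nil))) .nil)) (.node (.I .adp (.c 8193 (.c 174695753 (.c 18561 .nil))) .nil) (.I .adp (.c 2105673 (.c 8385 (.c 18561 .nil))) .nil))) (.node (.node (.I .com (.c 8786435 (.c 12865 .nil)) (.b 18561 .nil)) (.I .com (.c 59555558875529 (.c 32 .nil)) (.b 18561 .nil))) (.node (.I .adp (.c 3632040653488265 (.c 24 (.c 18561 .nil))) .nil) (.I .adp (.c 580749782704521 (.c 24 (.c 18561 .nil))) .nil)))))) (.node (.node (.node (.node (.node (.I .adp (.c 3561346121425033 (.c 32 (.c 18561 .nil))) .nil) (.I .adp (.c 59555558875529 (.c 32 (.c 18561 .nil))) .nil)) (.node (.I .adp (.c 1310924873 (.c 8386 (.c 18561 .nil))) .nil) (.I .adp (.c 24 (.c 32 (.c 18561 .nil))) (.l 1310924873 .nil)))) (.node (.node (.I .adp (.c 2105673 (.c 8386 (.c 18561 .nil))) .nil) (.I .adp (.c 24 (.c 32 (.c 18561 .nil))) (.l 2105673 .nil))) (.node (.I .adp (.c 12865 (.c 24 (.c 18561 .nil))) (.l 8193 .nil))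 (.I .jac (.c 4609 (.c 8 (.c 32 .nil))) (.r 40 (.b 18561 .nil)))))) (.node (.node (.node (.I .jac (.c 0 (.c 8257 (.c 24 .nil))) (.r 40 (.b 18561 .nil))) (.I .jac (.c 0 (.c 8 (.c 32 .nil))) (.b 24 (.r 40 (.b 18561 .nil))))) (.node (.I .adp (.c 12801 (.c 545424585 (.c 18561 .nil))) .nil) (.I .adp (.c 2306969673777850185 (.c 40 (.c 18561 .nil))) .nil))) (.node (.node (.I .adp (.c 35468714087241 (.c 40 (.c 18561 .nil))) .nil) (.I .adp (.c 231045293249046409 (.c 40 (.c 18561 .nil))) .nil)) (.node (.I .adp (.c 174695689 (.c 40 (.c 48 .nil))) (.b 2049 .nil)) (.I .adp (.c 174695689 (.c 40 (.c 0 .nil))) (.b 18561 .nil)))))) (.node (.node (.node (.node (.I .com (.c 12801 (.c 174695689 .nil)) (.b 18561 .nil)) (.I .adp (.c 12801 (.c 174695689 (.c 18561 .nil))) .nil)) (.node (.I .adp (.c 174695689 (.c 40 (.c 16 .nil))) (.b 18433 .nil)) (.I .adp (.c 8786499 (.c 40 (.c 48 .nil))) (.b 2049 .nil))))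 (.node (.node (.I .adp (.c 8786499 (.c 40 (.c 0 .nil))) (.b 18561 .nil)) (.I .com (.c 12801 (.c 8786499 .nil)) (.b 18561 .nil))) (.node (.I .adp (.c 12801 (.c 8786499 (.c 18561 .nil))) .nil) (.I .adp (.c 8786499 (.c 40 (.c 16 .nil))) (.b 18433 .nil))))) (.node (.node (.node (.I .com (.c 1310925001 (.c 8257 .nil)) (.b 18561 .nil)) (.I .com (.c 21099011 (.c 8257 .nil)) (.b 18561 .nil))) (.node (.I .com (.c 617611520073865 (.c 40 .nil)) (.b 18561 .nil)) (.I .adp (.c 21099011 (.c 8257 (.c 18561 .nil))) .nil))) (.node (.node (.I .adp (.c 12801 (.c 545490642 (.c 18561 .nil))) .nil) (.I .tdp (.c 8257 (.c 24 (.c 12801 (.c 18561 .nil)))) .nil)) (.node (.I .adp (.c 59555558875465 (.c 40 (.c 18561 .nil))) .nil) (.I .adp (.c 2105609 (.c 12994 (.c 18561 .nil))) .nil)))))))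

noncomputable def c2_306 : Tr := (.node (.node (.node (.node (.node (.node (.I .adp (.c 24 (.c 40 (.c 18561 .nil))) (.l 2105609 .nil)) (.I .adp (.c 3423058053193993 (.c 32 (.c 18561 .nil))) .nil)) (.node (.I .adp (.c 4673 (.c 32 (.c 18561 .nil))) (.l 12801 .nil)) (.I .adp (.c 4673 (.c 40 (.c 18561 .nil))) (.l 8193 .nil)))) (.node (.node (.I .adp (.c 2105545 (.c 13058 (.c 18561 .nil))) .nil) (.I .adp (.c 32 (.c 40 (.c 18561 .nil))) (.l 2105545 .nil))) (.node (.I .com (.c 2306971873338799945 (.c 8 .nil)) (.b 18561 .nil)) (.I .com (.c 231045989336561545 (.c 8 .nil)) (.b 18561 .nil))))) (.node (.node (.node (.I .adp (.c 2306971873338799945 (.c 8 (.c 18561 .nil))) .nil) (.I .adp (.c 231045989336561545 (.c 8 (.c 18561 .nil))) .nil)) (.node (.I .com (.c 13748196208362033993 (.c 8 .nil)) (.b 18561 .nil)) (.I .com (.c 231045815314584521 (.c 8 .nil)) (.b 18561 .nil)))) (.node (.node (.I .adp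 (.c 13748196208362033993 (.c 8 (.c 18561 .nil))) .nil) (.I .adp (.c 231045815314584521 (.c 8 (.c 18561 .nil))) .nil)) (.node (.I .adp (.c 513 (.c 21307587 (.c 18561 .nil))) .nil) (.I .adp (.c 617611520074121 (.c 8 (.c 18561 .nil))) .nil))))) (.node (.node (.node (.node (.I .jac (.c 8 (.c 16 (.c 48 .nil))) (.l 617611520074121 .nil)) (.I .adp (.c 1310925001 (.c 8258 (.c 18561 .nil))) .nil)) (.node (.I .adp (.c 8 (.c 32 (.c 18561 .nil))) (.l 1310925001 .nil)) (.I .tdp (.c 8 (.c 32 (.c 1310925001 (.c 18561 .nil)))) .nil))) (.node (.node (.I .adp (.c 8520195 (.c 12993 (.c 18561 .nil))) .nil) (.I .adp (.c 12993 (.c 32 (.c 18561 .nil))) (.l 513 .nil))) (.node (.I .adp (.c 8 (.c 3632084291164425 (.c 18433 .nil))) .nil) (.I .adp (.c 8 (.c 617629514824073 (.c 18433 .nil))) .nil)))) (.node (.node (.node (.I .adp (.c 20685315 (.c 8385 (.c 18561 .nil))) .nil) (.I .adp (.c 12801 (.c 562465866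 (.c 18561 .nil))) .nil)) (.node (.I .adp (.c 8 (.c 8385 (.c 18561 .nil))) (.l 12801 .nil)) (.I .tdp (.c 8 (.c 8385 (.c 12801 (.c 18561 .nil)))) .nil))) (.node (.node (.I .adp (.c 8385 (.c 40 (.c 18561 .nil))) (.l 513 .nil)) (.I .com (.c 2728451 (.c 13057 .nil)) (.b 18561 .nil))) (.node (.I .adp (.c 2728451 (.c 13057 (.c 18561 .nil))) .nil) (.I .adp (.c 1310925001 (.c 32 (.c 48 .nil))) (.b 2113 .nil))))))) (.node (.node (.node (.node (.node (.I .adp (.c 1310925001 (.c 32 (.c 8 .nil))) (.b 18561 .nil)) (.I .adp (.c 1310925001 (.c 32 (.c 16 .nil))) (.b 18497 .nil))) (.node (.I .adp (.c 12801 (.c 8386 (.c 48 .nil))) (.b 2113 .nil)) (.I .adp (.c 24 (.c 32 (.c 48 .nil))) (.l 12801 (.b 2113 .nil))))) (.node (.node (.I .tdp (.c 24 (.c 32 (.c 12801 (.c 48 .nil)))) (.b 2113 .nil)) (.I .tdb (.c 0 (.c 40 (.c 24 (.c 48 .nil)))) (.l 32 (.b 2113 .nil)))) (.node (.I .adp (.c 12801 (.c 8386 (.c 8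 .nil))) (.b 18561 .nil)) (.I .com (.c 8257 (.c 24 .nil)) (.l 12801 (.b 18561 .nil)))))) (.node (.node (.node (.I .adp (.c 24 (.c 32 (.c 8 .nil))) (.l 12801 (.b 18561 .nil))) (.I .tdp (.c 24 (.c 32 (.c 12801 (.c 8 .nil)))) (.b 18561 .nil))) (.node (.I .tdb (.c 0 (.c 40 (.c 8 (.c 32 .nil)))) (.r 24 (.b 18561 .nil))) (.I .adp (.c 12801 (.c 8386 (.c 16 .nil))) (.b 18497 .nil)))) (.node (.node (.I .com (.c 8321 (.c 24 .nil)) (.l 12801 (.b 18497 .nil))) (.I .adp (.c 24 (.c 32 (.c 16 .nil))) (.l 12801 (.b 18497 .nil)))) (.node (.I .tdp (.c 24 (.c 32 (.c 12801 (.c 16 .nil)))) (.b 18497 .nil)) (.I .tdb (.c 0 (.c 40 (.c 16 (.c 32 .nil)))) (.r 24 (.b 18497 .nil))))))) (.node (.node (.node (.node (.I .adp (.c 8786435 (.c 40 (.c 48 .nil))) (.b 2113 .nil)) (.I .adp (.c 8786435 (.c 40 (.c 8 .nil))) (.b 18561 .nil))) (.node (.I .adp (.c 8786435 (.c 40 (.c 16 .nil))) (.b 18497 .nil)) (.I .com (.c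 617620517416009 (.c 40 .nil)) (.b 18561 .nil)))) (.node (.node (.I .adp (.c 0 (.c 2379904940409059145 (.c 18561 .nil))) .nil) (.I .jac (.c 0 (.c 16 (.c 48 .nil))) (.r 14025206030552608649 .nil))) (.node (.I .adp (.c 0 (.c 244148848929896329 (.c 18561 .nil))) .nil) (.I .adp (.c 0 (.c 2379903823379378121 (.c 18561 .nil))) .nil)))) (.node (.node (.node (.I .adp (.c 0 (.c 14306382363373563785 (.c 18497 .nil))) .nil) (.I .jac (.c 0 (.c 8 (.c 48 .nil))) (.r 14306382363373563785 .nil))) (.node (.I .adp (.c 0 (.c 257801270351607689 (.c 18497 .nil))) .nil) (.I .jac (.c 0 (.c 8 (.c 48 .nil))) (.r 257801270351607689 .nil)))) (.node (.node (.I .adp (.c 0 (.c 2454552647364603849 (.c 18497 .nil))) .nil) (.I .jac (.c 0 (.c 8 (.c 48 .nil))) (.r 2454552647364603849 .nil))) (.node (.I .jac (.c 0 (.c 16 (.c 48 .nil))) (.r 14025207386396218185 .nil)) (.I .adp (.c 0 (.c 244148670041478089 (.c 18561 .nil)))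 .nil)))))))

noncomputable def c2_307 : Tr := (.node (.node (.node (.node (.node (.node (.I .adp (.c 0 (.c 21307587 (.c 48 .nil))) (.b 2113 .nil)) (.I .adp (.c 0 (.c 21307587 (.c 8 .nil))) (.b 18561 .nil))) (.node (.I .adp (.c 0 (.c 21307587 (.c 16 .nil))) (.b 18497 .nil)) (.I .adp (.c 0 (.c 617620517416329 (.c 18561 .nil))) .nil))) (.node (.node (.I .jac (.c 0 (.c 16 (.c 48 .nil))) (.r 617620517416329 .nil)) (.I .adp (.c 0 (.c 617629514824073 (.c 18497 .nil))) .nil)) (.node (.I .jac (.c 0 (.c 8 (.c 48 .nil))) (.r 617629514824073 .nil)) (.I .adp (.c 0 (.c 3561367726845257 (.c 18561 .nil))) .nil)))) (.node (.node (.node (.I .jac (.c 0 (.c 16 (.c 48 .nil))) (.r 3561367726845257 .nil)) (.I .adp (.c 0 (.c 3561389332330825 (.c 18497 .nil))) .nil)) (.node (.I .jac (.c 0 (.c 8 (.c 48 .nil))) (.r 3561389332330825 .nil)) (.I .jac (.c 18497 (.c 32 (.c 40 .nil))) (.l 4737 (.l 0 .nil))))) (.node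 (.node (.I .adp (.c 8 (.c 16 (.c 48 .nil))) (.b 13748194865974800265 .nil)) (.I .adp (.c 8 (.c 16 (.c 48 .nil))) (.b 617611520074121 .nil))) (.node (.I .adp (.c 8 (.c 16 (.c 48 .nil))) (.b 13748194876462200274 .nil)) (.I .adp (.c 8 (.c 16 (.c 48 .nil))) (.b 3561346121425225 .nil)))))) (.node (.node (.node (.node (.I .adp (.c 8 (.c 16 (.c 48 .nil))) (.b 2306970777854211602 .nil)) (.I .com (.c 10206474507614089 (.c 24 .nil)) (.b 18433 .nil))) (.node (.I .com (.c 10206437931930569 (.c 24 .nil)) (.b 18433 .nil)) (.I .com (.c 537002313 (.c 24 .nil)) (.b 35752353 .nil)))) (.node (.node (.I .com (.c 1310925065 (.c 24 .nil)) (.b 35752353 .nil)) (.I .adp (.c 8 (.c 16 (.c 48 .nil))) (.b 13748196218849434514 .nil))) (.node (.I .adp (.c 8 (.c 16 (.c 48 .nil))) (.b 2306971877634818450 .nil)) (.I .adp (.c 24 (.c 13058 (.c 48 .nil))) (.b 2105481 .nil))))) (.node (.node (.node (.I .adp (.c 32 (.c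 40 (.c 48 .nil))) (.l 24 (.b 2105481 .nil))) (.I .tdp (.c 32 (.c 40 (.c 24 (.c 48 .nil)))) (.b 2105481 .nil))) (.node (.I .com (.c 43655363 (.c 40 .nil)) (.b 2105481 .nil)) (.I .adp (.c 0 (.c 16 (.c 48 .nil))) (.b 3632106110100617 .nil)))) (.node (.node (.I .adp (.c 0 (.c 16 (.c 21307587 .nil))) (.b 18497 .nil)) (.I .adp (.c 0 (.c 16 (.c 48 .nil))) (.b 3632062472293641 .nil))) (.node (.I .adp (.c 0 (.c 16 (.c 48 .nil))) (.b 3561367726845257 .nil)) (.I .com (.c 9024976834606985 (.c 24 .nil)) (.b 18497 .nil))))))) (.node (.node (.node (.node (.node (.I .com (.c 9024942441010121 (.c 24 .nil)) (.b 18497 .nil)) (.I .adp (.c 0 (.c 8 (.c 21307587 .nil))) (.b 18561 .nil))) (.node (.I .adp (.c 0 (.c 8 (.c 48 .nil))) (.b 3632106110100681 .nil)) (.I .adp (.c 0 (.c 8 (.c 48 .nil))) (.b 617629514824073 .nil)))) (.node (.node (.I .com (.c 35468714087369 (.c 24 .nil)) (.b 18561 .nil)) (.I .adp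 (.c 24 (.c 13058 (.c 513 .nil))) (.b 18561 .nil))) (.node (.I .tdb (.c 0 (.c 8 (.c 32 (.c 40 .nil)))) (.l 24 (.b 18561 .nil))) (.I .adp (.c 32 (.c 40 (.c 513 .nil))) (.l 24 (.b 18561 .nil)))))) (.node (.node (.node (.I .com (.c 2105673 (.c 32 .nil)) (.l 24 (.b 18561 .nil))) (.I .com (.c 3632040653488265 (.c 24 .nil)) (.b 18561 .nil))) (.node (.I .com (.c 3632062472293449 (.c 24 .nil)) (.b 18561 .nil)) (.I .ass (.c 24 (.c 2105673 (.c 32 .nil))) (.b 18561 .nil)))) (.node (.node (.I .ass (.c 2105673 (.c 24 (.c 32 .nil))) (.b 18561 .nil)) (.I .com (.c 24 (.c 2105673 .nil)) (.r 32 (.b 18561 .nil)))) (.node (.I .ass (.c 24 (.c 2105609 (.c 40 .nil))) (.b 18561 .nil)) (.I .ass (.c 2105609 (.c 24 (.c 40 .nil))) (.b 18561 .nil)))))) (.node (.node (.node (.node (.I .com (.c 24 (.c 2105609 .nil)) (.r 40 (.b 18561 .nil))) (.I .tdp (.c 32 (.c 40 (.c 513 (.c 24 .nil)))) (.b 18561 .nil))) (.node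 (.I .tdb (.c 0 (.c 8 (.c 24 (.c 32 .nil)))) (.l 40 (.b 18561 .nil))) (.I .tdb (.c 0 (.c 8 (.c 24 (.c 40 .nil)))) (.r 32 (.b 18561 .nil))))) (.node (.node (.I .jac (.c 537002313 (.c 8 (.c 16 .nil))) (.b 18625 .nil)) (.I .jac (.c 1310924937 (.c 8 (.c 32 .nil))) (.b 18625 .nil))) (.node (.I .adp (.c 35470870263689 (.c 16 (.c 18625 .nil))) .nil) (.I .adp (.c 2306969673777850313 (.c 16 (.c 18625 .nil))) .nil)))) (.node (.node (.node (.I .jac (.c 2049 (.c 24 (.c 48 .nil))) (.r 1324066057 .nil)) (.I .jac (.c 12801 (.c 8 (.c 32 .nil))) (.r 16 (.b 18625 .nil)))) (.node (.I .adp (.c 13748196208362033865 (.c 16 (.c 18625 .nil))) .nil) (.I .jac (.c 13748196208362033865 (.c 24 (.c 48 .nil))) (.r 16 .nil)))) (.node (.node (.I .adp (.c 2049 (.c 545424713 (.c 18625 .nil))) .nil) (.I .jac (.c 2049 (.c 24 (.c 48 .nil))) (.r 545424713 .nil))) (.node (.I .adp (.c 3632062472293449 (.c 16 (.c 18625 .nil)))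 .nil) (.I .jac (.c 16 (.c 24 (.c 48 .nil))) (.l 3632062472293449 .nil))))))))

noncomputable def c2_308 : Tr := (.node (.node (.node (.node (.node (.node (.I .jac (.c 3632062472293449 (.c 24 (.c 48 .nil))) (.r 16 .nil)) (.I .adp (.c 9024976834606793 (.c 32 (.c 18625 .nil))) .nil)) (.node (.I .adp (.c 35470870263561 (.c 32 (.c 18625 .nil))) .nil) (.I .adp (.c 8193 (.c 1324065929 (.c 18625 .nil))) .nil))) (.node (.node (.I .adp (.c 35464401931209 (.c 32 (.c 18625 .nil))) .nil) (.I .adp (.c 1310924873 (.c 8321 (.c 18625 .nil))) .nil)) (.node (.I .jac (.c 1310924873 (.c 24 (.c 48 .nil))) (.r 8321 .nil)) (.I .adp (.c 3632040653488265 (.c 16 (.c 18625 .nil))) .nil)))) (.node (.node (.node (.I .jac (.c 16 (.c 24 (.c 48 .nil))) (.l 3632040653488265 .nil)) (.I .jac (.c 3632040653488265 (.c 24 (.c 48 .nil))) (.r 16 .nil))) (.node (.I .adp (.c 3491688652046473 (.c 32 (.c 18625 .nil))) .nil)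 (.I .adp (.c 2487083360649 (.c 32 (.c 18625 .nil))) .nil))) (.node (.node (.I .adp (.c 1310924873 (.c 8322 (.c 18625 .nil))) .nil) (.I .adp (.c 16 (.c 32 (.c 18625 .nil))) (.l 1310924873 .nil))) (.node (.I .jac (.c 1310924873 (.c 24 (.c 48 .nil))) (.r 8322 .nil)) (.I .tdp (.c 16 (.c 32 (.c 1310924873 (.c 18625 .nil)))) .nil))))) (.node (.node (.node (.node (.I .adp (.c 2105673 (.c 8322 (.c 18625 .nil))) .nil) (.I .adp (.c 16 (.c 32 (.c 18625 .nil))) (.l 2105673 .nil))) (.node (.I .tdp (.c 16 (.c 32 (.c 2105673 (.c 18625 .nil)))) .nil) (.I .adp (.c 12865 (.c 16 (.c 18625 .nil))) (.l 8193 .nil)))) (.node (.node (.I .tdb (.c 0 (.c 32 (.c 12865 (.c 18625 .nil)))) (.l 16 .nil)) (.I .tdb (.c 8 (.c 40 (.c 18625 (.c 0 .nil)))) (.b 32 (.l 16 .nil)))) (.node (.I .jac (.c 8 (.c 21307587 (.c 48 .nil))) (.b 0 (.l 16 .nil))) (.I .jac (.c 8 (.c 24 (.c 43954947 .nil))) (.b 0 (.l 16 .nil)))))) (.node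 (.node (.node (.I .tdb (.c 8 (.c 40 (.c 18625 (.c 32 .nil)))) (.b 0 (.l 16 .nil))) (.I .tdb (.c 24 (.c 48 (.c 32 (.c 40 .nil)))) (.b 8 (.b 0 (.l 16 .nil))))) (.node (.I .adp (.c 2306969673777850121 (.c 40 (.c 18625 .nil))) .nil) (.I .adp (.c 9024839260612489 (.c 40 (.c 18625 .nil))) .nil))) (.node (.node (.I .jac (.c 0 (.c 2113 (.c 32 .nil))) (.r 40 (.b 18625 .nil))) (.I .jac (.c 0 (.c 8 (.c 16 .nil))) (.b 32 (.r 40 (.b 18625 .nil))))) (.node (.I .adp (.c 12801 (.c 35718409 (.c 18625 .nil))) .nil) (.I .adp (.c 8652867 (.c 40 (.c 48 .nil))) (.b 4609 .nil))))))) (.node (.node (.node (.node (.node (.I .adp (.c 8652867 (.c 40 (.c 0 .nil))) (.b 18625 .nil)) (.I .com (.c 12801 (.c 8652867 .nil)) (.b 18625 .nil))) (.node (.I .adp (.c 12801 (.c 8652867 (.c 18625 .nil))) .nil) (.I .adp (.c 8652867 (.c 40 (.c 24 .nil))) (.b 18433 .nil)))) (.node (.node (.I .com (.c 1310924937 (.c 8257 .nil))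 (.b 18625 .nil)) (.I .adp (.c 1310924937 (.c 8257 (.c 18625 .nil))) .nil)) (.node (.I .adp (.c 33587529 (.c 8257 (.c 18625 .nil))) .nil) (.I .adp (.c 2105609 (.c 12929 (.c 18625 .nil))) .nil)))) (.node (.node (.node (.I .com (.c 598967998054537 (.c 40 .nil)) (.b 18625 .nil)) (.I .adp (.c 3423058053194057 (.c 16 (.c 18625 .nil))) .nil)) (.node (.I .adp (.c 12801 (.c 545490578 (.c 18625 .nil))) .nil) (.I .tdp (.c 8257 (.c 16 (.c 12801 (.c 18625 .nil)))) .nil))) (.node (.node (.I .adp (.c 598967998054537 (.c 40 (.c 18625 .nil))) .nil) (.I .adp (.c 2487083360585 (.c 40 (.c 18625 .nil))) .nil)) (.node (.I .adp (.c 2105609 (.c 12930 (.c 18625 .nil))) .nil) (.I .adp (.c 16 (.c 40 (.c 18625 .nil))) (.l 2105609 .nil)))))) (.node (.node (.node (.node (.I .tdp (.c 16 (.c 40 (.c 18625 (.c 2105609 .nil)))) .nil) (.I .com (.c 537002313 (.c 2113 .nil)) (.b 18625 .nil))) (.node (.I .adp (.c 1310925065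 (.c 2113 (.c 18625 .nil))) .nil) (.I .com (.c 21307395 (.c 2113 .nil)) (.b 18625 .nil)))) (.node (.node (.I .adp (.c 21307395 (.c 2113 (.c 18625 .nil))) .nil) (.I .adp (.c 2113 (.c 32 (.c 18625 .nil))) (.l 12801 .nil))) (.node (.I .adp (.c 580749782704329 (.c 40 (.c 18625 .nil))) .nil) (.I .adp (.c 2113 (.c 40 (.c 18625 .nil))) (.l 8193 .nil))))) (.node (.node (.node (.I .adp (.c 2105481 (.c 13058 (.c 18625 .nil))) .nil) (.I .adp (.c 32 (.c 40 (.c 18625 .nil))) (.l 2105481 .nil))) (.node (.I .com (.c 2306971873338799881 (.c 8 .nil)) (.b 18625 .nil)) (.I .adp (.c 2306971873338799881 (.c 8 (.c 18625 .nil))) .nil))) (.node (.node (.I .jac (.c 2306971873338799881 (.c 24 (.c 48 .nil))) (.r 8 .nil)) (.I .adp (.c 13748193523587632009 (.c 8 (.c 18625 .nil))) .nil)) (.node (.I .com (.c 13748196208362033929 (.c 8 .nil)) (.b 18625 .nil)) (.I .adp (.c 3632084291164233 (.c 8 (.c 18625 .nil)))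 .nil)))))))

noncomputable def c2_309 : Tr := (.node (.node (.node (.node (.node (.node (.I .jac (.c 8 (.c 24 (.c 48 .nil))) (.l 3632084291164233 .nil)) (.I .jac (.c 3632084291164233 (.c 24 (.c 48 .nil))) (.r 8 .nil))) (.node (.I .adp (.c 513 (.c 21307523 (.c 18625 .nil))) .nil) (.I .jac (.c 513 (.c 24 (.c 48 .nil))) (.r 21307523 .nil)))) (.node (.node (.I .adp (.c 598967998054793 (.c 8 (.c 18625 .nil))) .nil) (.I .jac (.c 8 (.c 24 (.c 48 .nil))) (.l 598967998054793 .nil))) (.node (.I .adp (.c 1310924937 (.c 8258 (.c 18625 .nil))) .nil) (.I .adp (.c 8 (.c 32 (.c 18625 .nil))) (.l 1310924937 .nil))))) (.node (.node (.node (.I .jac (.c 1310924937 (.c 24 (.c 48 .nil))) (.r 8258 .nil)) (.I .tdp (.c 8 (.c 32 (.c 1310924937 (.c 18625 .nil)))) .nil)) (.node (.I .adp (.c 8520195 (.c 12929 (.c 18625 .nil))) .nil) (.I .adp (.c 12929 (.c 32 (.c 18625 .nil))) (.l 513 .nil)))) (.node (.node (.I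 .adp (.c 12801 (.c 553912394 (.c 18625 .nil))) .nil) (.I .adp (.c 8 (.c 8321 (.c 18625 .nil))) (.l 12801 .nil))) (.node (.I .jac (.c 8 (.c 24 (.c 48 .nil))) (.r 8321 (.l 12801 .nil))) (.I .tdp (.c 8 (.c 8321 (.c 12801 (.c 18625 .nil)))) .nil))))) (.node (.node (.node (.node (.I .tdb (.c 0 (.c 40 (.c 18625 (.c 8 .nil)))) (.l 8321 .nil)) (.I .adp (.c 8321 (.c 40 (.c 18625 .nil))) (.l 513 .nil))) (.node (.I .com (.c 557571 (.c 13057 .nil)) (.b 18625 .nil)) (.I .tdb (.c 40 (.c 8193 (.c 18625 (.c 8 .nil)))) (.l 16 .nil)))) (.node (.node (.I .tdb (.c 0 (.c 32 (.c 18625 (.c 8 .nil)))) (.b 40 (.l 16 .nil))) (.I .adp (.c 557571 (.c 13057 (.c 18625 .nil))) .nil)) (.node (.I .adp (.c 1310925065 (.c 16 (.c 48 .nil))) (.b 4673 .nil)) (.I .adp (.c 1310925065 (.c 16 (.c 8 .nil))) (.b 18625 .nil))))) (.node (.node (.node (.I .adp (.c 1310925065 (.c 16 (.c 24 .nil))) (.b 18497 .nil)) (.I .adp (.c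 537002313 (.c 16 (.c 48 .nil))) (.b 4673 .nil))) (.node (.I .adp (.c 537002313 (.c 16 (.c 8 .nil))) (.b 18625 .nil)) (.I .adp (.c 537002313 (.c 16 (.c 24 .nil))) (.b 18497 .nil)))) (.node (.node (.I .adp (.c 33587529 (.c 32 (.c 48 .nil))) (.b 4673 .nil)) (.I .adp (.c 33587529 (.c 32 (.c 8 .nil))) (.b 18625 .nil))) (.node (.I .adp (.c 33587529 (.c 32 (.c 24 .nil))) (.b 18497 .nil)) (.I .jac (.c 8 (.c 16 (.c 32 .nil))) (.l 12801 (.b 18625 .nil)))))))) (.node (.node (.node (.node (.node (.I .adp (.c 12801 (.c 8322 (.c 48 .nil))) (.b 4673 .nil)) (.I .adp (.c 16 (.c 32 (.c 48 .nil))) (.l 12801 (.b 4673 .nil)))) (.node (.I .tdp (.c 16 (.c 32 (.c 12801 (.c 48 .nil)))) (.b 4673 .nil)) (.I .tdb (.c 0 (.c 40 (.c 16 (.c 48 .nil)))) (.l 32 (.b 4673 .nil))))) (.node (.node (.I .adp (.c 12801 (.c 8322 (.c 8 .nil))) (.b 18625 .nil)) (.I .adp (.c 16 (.c 32 (.c 8 .nil))) (.l 12801 (.b 18625 .nil))))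 (.node (.I .com (.c 8257 (.c 16 .nil)) (.l 12801 (.b 18625 .nil))) (.I .tdp (.c 16 (.c 32 (.c 12801 (.c 8 .nil)))) (.b 18625 .nil))))) (.node (.node (.node (.I .tdb (.c 0 (.c 40 (.c 8 (.c 32 .nil)))) (.r 16 (.b 18625 .nil))) (.I .adp (.c 12801 (.c 8322 (.c 24 .nil))) (.b 18497 .nil))) (.node (.I .adp (.c 16 (.c 32 (.c 24 .nil))) (.l 12801 (.b 18497 .nil))) (.I .tdp (.c 16 (.c 32 (.c 12801 (.c 24 .nil)))) (.b 18497 .nil)))) (.node (.node (.I .tdb (.c 0 (.c 40 (.c 24 (.c 32 .nil)))) (.r 16 (.b 18497 .nil))) (.I .com (.c 598976858557513 (.c 40 .nil)) (.b 18625 .nil))) (.node (.I .adp (.c 0 (.c 2379904940409059081 (.c 18625 .nil))) .nil) (.I .adp (.c 0 (.c 14025204674709064585 (.c 18625 .nil))) .nil))))) (.node (.node (.node (.node (.I .jac (.c 0 (.c 24 (.c 48 .nil))) (.r 10206474507614089 .nil)) (.I .jac (.c 0 (.c 24 (.c 48 .nil))) (.r 2379903264864635849 .nil))) (.node (.I .jac (.c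 0 (.c 24 (.c 48 .nil))) (.r 14025207386396218121 .nil)) (.I .adp (.c 0 (.c 10206437931930569 (.c 18625 .nil))) .nil))) (.node (.node (.I .adp (.c 0 (.c 3491710045130057 (.c 18625 .nil))) .nil) (.I .jac (.c 0 (.c 24 (.c 48 .nil))) (.r 3491710045130057 .nil))) (.node (.I .com (.c 43059203 (.c 13057 .nil)) (.b 4673 .nil)) (.I .tdb (.c 24 (.c 48 (.c 0 (.c 32 .nil)))) (.b 12865 (.l 16 .nil)))))) (.node (.node (.node (.I .jac (.c 8193 (.c 16 (.c 40 .nil))) (.b 174770593 .nil)) (.I .adp (.c 8 (.c 24 (.c 48 .nil))) (.b 2306971873338799881 .nil))) (.node (.I .adp (.c 8 (.c 24 (.c 48 .nil))) (.b 13748193523587632009 .nil)) (.I .adp (.c 8 (.c 24 (.c 48 .nil))) (.b 13748196208362033929 .nil)))) (.node (.node (.I .adp (.c 8 (.c 24 (.c 21307523 .nil))) (.b 18433 .nil)) (.I .adp (.c 12929 (.c 32 (.c 48 .nil))) (.b 2105545 .nil))) (.node (.I .adp (.c 8321 (.c 40 (.c 48 .nil))) (.b 2105545 .nil))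 (.I .adp (.c 8 (.c 24 (.c 48 .nil))) (.b 3491688652046665 .nil))))))))

noncomputable def c2_310 : Tr := (.node (.node (.node (.node (.node (.node (.I .adp (.c 8 (.c 24 (.c 48 .nil))) (.b 2306970227964006418 .nil)) (.I .com (.c 537002313 (.c 16 .nil)) (.b 174770593 .nil))) (.node (.I .adp (.c 8 (.c 24 (.c 48 .nil))) (.b 2306971877634818386 .nil)) (.I .adp (.c 16 (.c 13058 (.c 48 .nil))) (.b 2105545 .nil)))) (.node (.node (.I .adp (.c 32 (.c 40 (.c 48 .nil))) (.l 16 (.b 2105545 .nil))) (.I .tdp (.c 32 (.c 40 (.c 16 (.c 48 .nil)))) (.b 2105545 .nil))) (.node (.I .com (.c 43655299 (.c 40 .nil)) (.b 2105545 .nil)) (.I .adp (.c 0 (.c 24 (.c 48 .nil))) (.b 3632062472293577 .nil))))) (.node (.node (.node (.I .adp (.c 0 (.c 24 (.c 48 .nil))) (.b 3491710045130057 .nil)) (.I .jac (.c 2105609 (.c 16 (.c 40 .nil))) (.b 18625 .nil))) (.node (.I .jac (.c 2105673 (.c 16 (.c 32 .nil))) (.b 18625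 .nil)) (.I .jac (.c 12801 (.c 16 (.c 32 .nil))) (.r 8 (.b 18625 .nil))))) (.node (.node (.I .adp (.c 12929 (.c 32 (.c 513 .nil))) (.b 18625 .nil)) (.I .com (.c 2105609 (.c 12929 .nil)) (.b 18625 .nil))) (.node (.I .jac (.c 513 (.c 16 (.c 40 .nil))) (.r 32 (.b 18625 .nil))) (.I .adp (.c 8321 (.c 40 (.c 513 .nil))) (.b 18625 .nil)))))) (.node (.node (.node (.node (.I .com (.c 2105673 (.c 8321 .nil)) (.b 18625 .nil)) (.I .jac (.c 513 (.c 16 (.c 32 .nil))) (.r 40 (.b 18625 .nil)))) (.node (.I .com (.c 35470870263689 (.c 16 .nil)) (.b 18625 .nil)) (.I .adp (.c 16 (.c 13058 (.c 513 .nil))) (.b 18625 .nil)))) (.node (.node (.I .tdb (.c 0 (.c 8 (.c 32 (.c 40 .nil)))) (.l 16 (.b 18625 .nil))) (.I .adp (.c 32 (.c 40 (.c 513 .nil))) (.l 16 (.b 18625 .nil)))) (.node (.I .com (.c 2105673 (.c 32 .nil)) (.l 16 (.b 18625 .nil))) (.I .com (.c 3632040653488265 (.c 16 .nil)) (.b 18625 .nil))))) (.node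 (.node (.node (.I .com (.c 3632062472293449 (.c 16 .nil)) (.b 18625 .nil)) (.I .ass (.c 16 (.c 2105673 (.c 32 .nil))) (.b 18625 .nil))) (.node (.I .ass (.c 2105673 (.c 16 (.c 32 .nil))) (.b 18625 .nil)) (.I .com (.c 16 (.c 2105673 .nil)) (.r 32 (.b 18625 .nil))))) (.node (.node (.I .ass (.c 16 (.c 2105609 (.c 40 .nil))) (.b 18625 .nil)) (.I .ass (.c 2105609 (.c 16 (.c 40 .nil))) (.b 18625 .nil))) (.node (.I .com (.c 16 (.c 2105609 .nil)) (.r 40 (.b 18625 .nil))) (.I .tdp (.c 32 (.c 40 (.c 513 (.c 16 .nil)))) (.b 18625 .nil))))))) (.node (.node (.node (.node (.node (.I .tdb (.c 0 (.c 8 (.c 16 (.c 32 .nil)))) (.l 40 (.b 18625 .nil))) (.I .tdb (.c 0 (.c 8 (.c 16 (.c 40 .nil)))) (.r 32 (.b 18625 .nil)))) (.node (.I .adp (.c 1310924873 (.c 32 (.c 48 .nil))) (.b 4737 .nil)) (.I .adp (.c 1310924873 (.c 32 (.c 16 .nil))) (.b 18625 .nil)))) (.node (.node (.I .adp (.c 1310924873 (.c 32 (.c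 24 .nil))) (.b 18561 .nil)) (.I .adp (.c 2105673 (.c 32 (.c 48 .nil))) (.b 4737 .nil))) (.node (.I .adp (.c 2105673 (.c 32 (.c 16 .nil))) (.b 18625 .nil)) (.I .adp (.c 2105673 (.c 32 (.c 24 .nil))) (.b 18561 .nil))))) (.node (.node (.node (.I .adp (.c 20685315 (.c 32 (.c 48 .nil))) (.b 4737 .nil)) (.I .adp (.c 20685315 (.c 32 (.c 16 .nil))) (.b 18625 .nil))) (.node (.I .adp (.c 20685315 (.c 32 (.c 24 .nil))) (.b 18561 .nil)) (.I .adp (.c 12801 (.c 8258 (.c 48 .nil))) (.b 4737 .nil)))) (.node (.node (.I .adp (.c 8 (.c 32 (.c 48 .nil))) (.l 12801 (.b 4737 .nil))) (.I .tdp (.c 8 (.c 32 (.c 12801 (.c 48 .nil)))) (.b 4737 .nil))) (.node (.I .tdb (.c 0 (.c 40 (.c 8 (.c 48 .nil)))) (.l 32 (.b 4737 .nil))) (.I .adp (.c 12801 (.c 8258 (.c 16 .nil))) (.b 18625 .nil)))))) (.node (.node (.node (.node (.I .adp (.c 8 (.c 32 (.c 16 .nil))) (.l 12801 (.b 18625 .nil))) (.I .tdp (.c 8 (.c 32 (.c 12801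 (.c 16 .nil)))) (.b 18625 .nil))) (.node (.I .tdb (.c 0 (.c 40 (.c 16 (.c 32 .nil)))) (.r 8 (.b 18625 .nil))) (.I .adp (.c 12801 (.c 8258 (.c 24 .nil))) (.b 18561 .nil)))) (.node (.node (.I .adp (.c 8 (.c 32 (.c 24 .nil))) (.l 12801 (.b 18561 .nil))) (.I .tdp (.c 8 (.c 32 (.c 12801 (.c 24 .nil)))) (.b 18561 .nil))) (.node (.I .tdb (.c 0 (.c 40 (.c 24 (.c 32 .nil)))) (.r 8 (.b 18561 .nil))) (.I .adp (.c 0 (.c 545424713 (.c 48 .nil))) (.b 4737 .nil))))) (.node (.node (.node (.I .adp (.c 0 (.c 545424713 (.c 16 .nil))) (.b 18625 .nil)) (.I .adp (.c 0 (.c 545424713 (.c 24 .nil))) (.b 18561 .nil))) (.node (.I .adp (.c 0 (.c 21307459 (.c 48 .nil))) (.b 4737 .nil)) (.I .adp (.c 0 (.c 21307459 (.c 16 .nil))) (.b 18625 .nil)))) (.node (.node (.I .adp (.c 0 (.c 21307459 (.c 24 .nil))) (.b 18561 .nil)) (.I .com (.c 42762755 (.c 13057 .nil)) (.b 4737 .nil))) (.node (.I .jac (.c 8193 (.c 8 (.c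 40 .nil))) (.b 179589537 .nil)) (.I .adp (.c 16 (.c 24 (.c 48 .nil))) (.b 35470870263689 .nil))))))))

noncomputable def c2_311 : Tr := (.node (.node (.node (.node (.node (.node (.I .adp (.c 16 (.c 24 (.c 48 .nil))) (.b 2306969673777850313 .nil)) (.I .adp (.c 16 (.c 24 (.c 48 .nil))) (.b 13748196208362033865 .nil))) (.node (.I .adp (.c 16 (.c 24 (.c 21307459 .nil))) (.b 18433 .nil)) (.I .adp (.c 16 (.c 24 (.c 48 .nil))) (.b 2306969678073866770 .nil)))) (.node (.node (.I .com (.c 537002313 (.c 8 .nil)) (.b 179589537 .nil)) (.I .adp (.c 16 (.c 24 (.c 48 .nil))) (.b 2306971877634818322 .nil))) (.node (.I .adp (.c 0 (.c 24 (.c 21307459 .nil))) (.b 18561 .nil)) (.I .adp (.c 0 (.c 16 (.c 21307459 .nil))) (.b 18625 .nil))))) (.node (.node (.node (.I .adp (.c 16 (.c 24 (.c 1310925065 .nil))) (.b 18497 .nil)) (.I .tdb (.c 0 (.c 32 (.c 8 (.c 40 .nil)))) (.b 179589537 .nil))) (.node (.I .adp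 (.c 8 (.c 24 (.c 1310925065 .nil))) (.b 18561 .nil)) (.I .adp (.c 8 (.c 24 (.c 537002313 .nil))) (.b 18561 .nil)))) (.node (.node (.I .tdb (.c 0 (.c 32 (.c 16 (.c 40 .nil)))) (.b 174770593 .nil)) (.I .adp (.c 8 (.c 16 (.c 1310925065 .nil))) (.b 18625 .nil))) (.node (.I .adp (.c 8 (.c 16 (.c 537002313 .nil))) (.b 18625 .nil)) (.I .tdb (.c 0 (.c 40 (.c 24 (.c 32 .nil)))) (.b 35752353 .nil)))))) (.node (.node (.node (.node (.I .tdb (.c 0 (.c 32 (.c 24 (.c 40 .nil)))) (.b 35752353 .nil)) (.I .jac (.c 2803779 (.c 32 (.c 40 .nil))) (.b 18433 .nil))) (.node (.I .adp (.c 4673 (.c 16 (.c 48 .nil))) (.b 537002313 .nil)) (.I .adp (.c 8 (.c 4737 (.c 48 .nil))) (.b 537002313 .nil)))) (.node (.node (.I .adp (.c 8 (.c 4738 (.c 48 .nil))) (.b 1310925065 .nil)) (.I .adp (.c 16 (.c 24 (.c 48 .nil))) (.l 8 (.b 1310925065 .nil)))) (.node (.I .tdp (.c 16 (.c 24 (.c 8 (.c 48 .nil)))) (.b 1310925065 .nil))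 (.I .com (.c 43059267 (.c 24 .nil)) (.b 1310925065 .nil))))) (.node (.node (.node (.I .adp (.c 8 (.c 4738 (.c 48 .nil))) (.b 537002313 .nil)) (.I .adp (.c 16 (.c 24 (.c 48 .nil))) (.l 8 (.b 537002313 .nil)))) (.node (.I .tdp (.c 16 (.c 24 (.c 8 (.c 48 .nil)))) (.b 537002313 .nil)) (.I .com (.c 43059267 (.c 24 .nil)) (.b 537002313 .nil)))) (.node (.node (.I .adp (.c 32 (.c 40 (.c 48 .nil))) (.b 9024839260612425 .nil)) (.I .jac (.c 0 (.c 2113 (.c 24 .nil))) (.b 1364091297 .nil))) (.node (.I .jac (.c 0 (.c 8 (.c 16 .nil))) (.b 24 (.b 1364091297 .nil))) (.I .adp (.c 32 (.c 40 (.c 48 .nil))) (.b 35464401931081 .nil))))))) (.node (.node (.node (.node (.node (.I .adp (.c 32 (.c 40 (.c 35718345 .nil))) (.b 18433 .nil)) (.I .com (.c 10206401356312521 (.c 32 .nil)) (.b 18433 .nil))) (.node (.I .adp (.c 32 (.c 40 (.c 48 .nil))) (.b 59555558875337 .nil)) (.I .jac (.c 2728451 (.c 32 (.c 40 .nil)))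 (.b 18561 .nil)))) (.node (.node (.I .adp (.c 0 (.c 4673 (.c 48 .nil))) (.b 1337272585 .nil)) (.I .adp (.c 32 (.c 40 (.c 16 .nil))) (.b 59555558875593 .nil))) (.node (.I .com (.c 12929 (.c 32 .nil)) (.b 59555558875593 .nil)) (.I .adp (.c 32 (.c 40 (.c 2728451 .nil))) (.b 18561 .nil))))) (.node (.node (.node (.I .jac (.c 557571 (.c 32 (.c 40 .nil))) (.b 18625 .nil)) (.I .com (.c 3423058053194057 (.c 16 .nil)) (.b 18625 .nil))) (.node (.I .com (.c 580749782704521 (.c 16 .nil)) (.b 18625 .nil)) (.I .jac (.c 33587529 (.c 8 (.c 24 .nil))) (.b 18689 .nil)))) (.node (.node (.I .jac (.c 12801 (.c 8 (.c 24 .nil))) (.b 16 (.b 18689 .nil))) (.I .jac (.c 169943369 (.c 8 (.c 16 .nil))) (.b 18689 .nil))) (.node (.I .jac (.c 1310924937 (.c 8 (.c 24 .nil))) (.b 18689 .nil)) (.I .jac (.c 12801 (.c 4673 (.c 16 .nil))) (.b 18689 .nil)))))) (.node (.node (.node (.node (.I .adp (.c 35470870263625 (.c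 16 (.c 18689 .nil))) .nil) (.I .jac (.c 35470870263625 (.c 32 (.c 48 .nil))) (.r 16 .nil))) (.node (.I .adp (.c 231045293249046473 (.c 16 (.c 18689 .nil))) .nil) (.I .adp (.c 2049 (.c 174695753 (.c 18689 .nil))) .nil))) (.node (.node (.I .jac (.c 2049 (.c 32 (.c 48 .nil))) (.r 174695753 .nil)) (.I .adp (.c 2049 (.c 21099075 (.c 18689 .nil))) .nil)) (.node (.I .jac (.c 2049 (.c 32 (.c 48 .nil))) (.r 21099075 .nil)) (.I .adp (.c 9024839260612553 (.c 24 (.c 18689 .nil))) .nil)))) (.node (.node (.node (.I .adp (.c 4609 (.c 1324065929 (.c 18689 .nil))) .nil) (.I .jac (.c 4609 (.c 32 (.c 48 .nil))) (.r 1324065929 .nil))) (.node (.I .jac (.c 12801 (.c 8 (.c 16 .nil))) (.r 24 (.b 18689 .nil))) (.I .adp (.c 13748193523587631817 (.c 24 (.c 18689 .nil))) .nil))) (.node (.node (.I .jac (.c 13748193523587631817 (.c 32 (.c 48 .nil))) (.r 24 .nil)) (.I .adp (.c 1310924873 (.c 4737 (.c 18689 .nil)))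 .nil)) (.node (.I .jac (.c 1310924873 (.c 32 (.c 48 .nil))) (.r 4737 .nil)) (.I .adp (.c 2105673 (.c 4737 (.c 18689 .nil))) .nil)))))))

noncomputable def c2_312 : Tr := (.node (.node (.node (.node (.node (.node (.I .com (.c 2803715 (.c 12865 .nil)) (.b 18689 .nil)) (.I .com (.c 2487083360649 (.c 24 .nil)) (.b 18689 .nil))) (.node (.I .adp (.c 2487083360649 (.c 24 (.c 18689 .nil))) .nil) (.I .jac (.c 24 (.c 32 (.c 48 .nil))) (.l 2487083360649 .nil)))) (.node (.node (.I .adp (.c 1310924873 (.c 4738 (.c 18689 .nil))) .nil) (.I .adp (.c 16 (.c 24 (.c 18689 .nil))) (.l 1310924873 .nil))) (.node (.I .jac (.c 16 (.c 32 (.c 48 .nil))) (.r 24 (.l 1310924873 .nil))) (.I .jac (.c 1310924873 (.c 32 (.c 48 .nil))) (.r 4738 .nil))))) (.node (.node (.node (.I .tdp (.c 16 (.c 24 (.c 1310924873 (.c 18689 .nil)))) .nil) (.I .tdb (.c 8 (.c 12801 (.c 18689 (.c 16 .nil)))) (.l 24 .nil))) (.node (.I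 .tdb (.c 0 (.c 40 (.c 18689 (.c 16 .nil)))) (.b 8 (.l 24 .nil))) (.I .tdb (.c 513 (.c 40 (.c 18689 (.c 16 .nil)))) (.l 24 .nil)))) (.node (.node (.I .tdb (.c 0 (.c 8 (.c 16 (.c 18689 .nil)))) (.b 40 (.l 24 .nil))) (.I .tdb (.c 32 (.c 48 (.c 0 (.c 16 .nil)))) (.b 8 (.b 40 (.l 24 .nil))))) (.node (.I .adp (.c 174695561 (.c 40 (.c 48 .nil))) (.b 8193 .nil)) (.I .adp (.c 174695561 (.c 40 (.c 0 .nil))) (.b 18689 .nil)))))) (.node (.node (.node (.node (.I .com (.c 12801 (.c 174695561 .nil)) (.b 18689 .nil)) (.I .jac (.c 2049 (.c 8 (.c 24 .nil))) (.r 40 (.b 18689 .nil)))) (.node (.I .adp (.c 35466557976329 (.c 40 (.c 18689 .nil))) .nil) (.I .adp (.c 174695561 (.c 40 (.c 32 .nil))) (.b 18433 .nil)))) (.node (.node (.I .jac (.c 4609 (.c 8 (.c 16 .nil))) (.r 40 (.b 18689 .nil))) (.I .adp (.c 231045467270826697 (.c 40 (.c 18689 .nil))) .nil)) (.node (.I .adp (.c 2803779 (.c 40 (.c 48 .nil)))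 (.b 8193 .nil)) (.I .adp (.c 2803779 (.c 40 (.c 0 .nil))) (.b 18689 .nil))))) (.node (.node (.node (.I .com (.c 12801 (.c 2803779 .nil)) (.b 18689 .nil)) (.I .adp (.c 62889413446729 (.c 40 (.c 18689 .nil))) .nil)) (.node (.I .adp (.c 2803779 (.c 40 (.c 32 .nil))) (.b 18433 .nil)) (.I .com (.c 33587529 (.c 4673 .nil)) (.b 18689 .nil)))) (.node (.node (.I .adp (.c 1310924937 (.c 4673 (.c 18689 .nil))) .nil) (.I .jac (.c 1310924937 (.c 32 (.c 48 .nil))) (.r 4673 .nil))) (.node (.I .jac (.c 169943113 (.c 32 (.c 48 .nil))) (.r 12929 .nil)) (.I .adp (.c 2105545 (.c 12929 (.c 18689 .nil))) .nil)))))) (.node (.node (.node (.node (.node (.I .jac (.c 2105545 (.c 32 (.c 48 .nil))) (.r 12929 .nil)) (.I .adp (.c 3423058053193993 (.c 16 (.c 18689 .nil))) .nil)) (.node (.I .jac (.c 16 (.c 32 (.c 48 .nil))) (.l 3423058053193993 .nil)) (.I .jac (.c 3423058053193993 (.c 32 (.c 48 .nil))) (.r 16 .nil))))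 (.node (.node (.I .adp (.c 4673 (.c 16 (.c 18689 .nil))) (.l 12801 .nil)) (.I .jac (.c 4673 (.c 32 (.c 48 .nil))) (.r 16 (.l 12801 .nil)))) (.node (.I .tdb (.c 0 (.c 40 (.c 18689 (.c 8 .nil)))) (.b 24 (.l 16 .nil))) (.I .adp (.c 2487083360521 (.c 40 (.c 18689 .nil))) .nil)))) (.node (.node (.node (.I .adp (.c 4673 (.c 40 (.c 18689 .nil))) (.l 2049 .nil)) (.I .com (.c 169943369 (.c 2113 .nil)) (.b 18689 .nil))) (.node (.I .adp (.c 169943369 (.c 2113 (.c 18689 .nil))) .nil) (.I .jac (.c 33587273 (.c 32 (.c 48 .nil))) (.r 12993 .nil)))) (.node (.node (.I .com (.c 21099011 (.c 2113 .nil)) (.b 18689 .nil)) (.I .adp (.c 21099011 (.c 2113 (.c 18689 .nil))) .nil)) (.node (.I .adp (.c 3423058053193929 (.c 24 (.c 18689 .nil))) .nil) (.I .jac (.c 24 (.c 32 (.c 48 .nil))) (.l 3423058053193929 .nil)))))) (.node (.node (.node (.node (.I .jac (.c 3423058053193929 (.c 32 (.c 48 .nil))) (.r 24 .nil))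 (.I .adp (.c 2113 (.c 24 (.c 18689 .nil))) (.l 12801 .nil))) (.node (.I .jac (.c 2113 (.c 32 (.c 48 .nil))) (.r 24 (.l 12801 .nil))) (.I .tdb (.c 0 (.c 40 (.c 18689 (.c 8 .nil)))) (.b 16 (.l 24 .nil))))) (.node (.node (.I .adp (.c 2113 (.c 40 (.c 18689 .nil))) (.l 4609 .nil)) (.I .com (.c 13748193523587631945 (.c 8 .nil)) (.b 18689 .nil))) (.node (.I .adp (.c 513 (.c 1337272521 (.c 18689 .nil))) .nil) (.I .jac (.c 513 (.c 32 (.c 48 .nil))) (.r 1337272521 .nil))))) (.node (.node (.node (.I .com (.c 9024908047478729 (.c 8 .nil)) (.b 18689 .nil)) (.I .adp (.c 13748194865974800137 (.c 8 (.c 18689 .nil))) .nil)) (.node (.I .jac (.c 13748194865974800137 (.c 32 (.c 48 .nil))) (.r 8 .nil)) (.I .adp (.c 9024908047478729 (.c 8 (.c 18689 .nil))) .nil))) (.node (.node (.I .adp (.c 513 (.c 179513673 (.c 18689 .nil))) .nil) (.I .com (.c 3561389332330569 (.c 8 .nil)) (.b 18689 .nil))) (.node (.I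 .adp (.c 3561389332330569 (.c 8 (.c 18689 .nil))) .nil) (.I .jac (.c 8 (.c 32 (.c 48 .nil))) (.l 3561389332330569 .nil))))))))

noncomputable def c2_313 : Tr := (.node (.node (.node (.node (.node (.node (.I .jac (.c 3561389332330569 (.c 32 (.c 48 .nil))) (.r 8 .nil)) (.I .adp (.c 513 (.c 21099139 (.c 18689 .nil))) .nil)) (.node (.I .com (.c 62886542410121 (.c 8 .nil)) (.b 18689 .nil)) (.I .ass (.c 8 (.c 1310924937 (.c 24 .nil))) (.b 18689 .nil)))) (.node (.node (.I .ass (.c 1310924937 (.c 8 (.c 24 .nil))) (.b 18689 .nil)) (.I .com (.c 8 (.c 1310924937 .nil)) (.r 24 (.b 18689 .nil)))) (.node (.I .adp (.c 1310924937 (.c 4674 (.c 18689 .nil))) .nil) (.I .adp (.c 8 (.c 24 (.c 18689 .nil))) (.l 1310924937 .nil))))) (.node (.node (.node (.I .jac (.c 8 (.c 32 (.c 48 .nil))) (.r 24 (.l 1310924937 .nil))) (.I .jac (.c 1310924937 (.c 32 (.c 48 .nil))) (.r 4674 .nil))) (.node (.I .tdp (.c 8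 (.c 24 (.c 1310924937 (.c 18689 .nil)))) .nil) (.I .tdb (.c 16 (.c 12801 (.c 18689 (.c 8 .nil)))) (.l 24 .nil)))) (.node (.node (.I .tdb (.c 2049 (.c 40 (.c 18689 (.c 8 .nil)))) (.l 24 .nil)) (.I .tdb (.c 0 (.c 16 (.c 18689 (.c 8 .nil)))) (.b 40 (.l 24 .nil)))) (.node (.I .tdb (.c 32 (.c 48 (.c 0 (.c 8 .nil)))) (.b 16 (.b 40 (.l 24 .nil)))) (.I .adp (.c 2728451 (.c 12929 (.c 18689 .nil))) .nil))))) (.node (.node (.node (.node (.I .adp (.c 8 (.c 12929 (.c 18689 .nil))) (.l 4609 .nil)) (.I .jac (.c 8 (.c 32 (.c 48 .nil))) (.r 12929 (.l 4609 .nil)))) (.node (.I .adp (.c 12929 (.c 24 (.c 18689 .nil))) (.l 513 .nil)) (.I .com (.c 1310925001 (.c 16 .nil)) (.l 8 (.b 18689 .nil))))) (.node (.node (.I .ass (.c 8 (.c 1310925001 (.c 16 .nil))) (.b 18689 .nil)) (.I .ass (.c 1310925001 (.c 8 (.c 16 .nil))) (.b 18689 .nil))) (.node (.I .com (.c 8 (.c 1310925001 .nil)) (.r 16 (.b 18689 .nil)))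 (.I .adp (.c 1310925001 (.c 2114 (.c 18689 .nil))) .nil)))) (.node (.node (.node (.I .adp (.c 8 (.c 16 (.c 18689 .nil))) (.l 1310925001 .nil)) (.I .jac (.c 8 (.c 32 (.c 48 .nil))) (.r 16 (.l 1310925001 .nil)))) (.node (.I .jac (.c 1310925001 (.c 32 (.c 48 .nil))) (.r 2114 .nil)) (.I .tdp (.c 8 (.c 16 (.c 1310925001 (.c 18689 .nil)))) .nil))) (.node (.node (.I .tdb (.c 24 (.c 12801 (.c 18689 (.c 8 .nil)))) (.l 16 .nil)) (.I .tdb (.c 4609 (.c 40 (.c 18689 (.c 8 .nil)))) (.l 16 .nil))) (.node (.I .tdb (.c 0 (.c 24 (.c 18689 (.c 8 .nil)))) (.b 40 (.l 16 .nil))) (.I .adp (.c 557571 (.c 12993 (.c 18689 .nil))) .nil)))))) (.node (.node (.node (.node (.node (.I .jac (.c 557571 (.c 32 (.c 48 .nil))) (.r 12993 .nil)) (.I .adp (.c 8 (.c 12993 (.c 18689 .nil))) (.l 2049 .nil))) (.node (.I .jac (.c 8 (.c 32 (.c 48 .nil))) (.r 12993 (.l 2049 .nil))) (.I .jac (.c 0 (.c 43059267 (.c 32 .nil))) (.l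 12993 .nil)))) (.node (.node (.I .tdb (.c 32 (.c 48 (.c 8 (.c 16 .nil)))) (.b 0 (.l 12993 .nil))) (.I .adp (.c 16 (.c 12993 (.c 18689 .nil))) (.l 513 .nil))) (.node (.I .jac (.c 16 (.c 32 (.c 48 .nil))) (.r 12993 (.l 513 .nil))) (.I .tdb (.c 0 (.c 8 (.c 16 (.c 18689 .nil)))) (.l 12993 .nil))))) (.node (.node (.node (.I .tdb (.c 32 (.c 48 (.c 0 (.c 16 .nil)))) (.b 8 (.l 12993 .nil))) (.I .jac (.c 8 (.c 16 (.c 24 .nil))) (.l 12801 (.b 18689 .nil)))) (.node (.I .tdp (.c 16 (.c 24 (.c 12801 (.c 8 .nil)))) (.b 18689 .nil)) (.I .tdb (.c 0 (.c 40 (.c 8 (.c 16 .nil)))) (.l 24 (.b 18689 .nil))))) (.node (.node (.I .com (.c 3491710045129801 (.c 24 .nil)) (.b 18689 .nil)) (.I .tdb (.c 0 (.c 40 (.c 8 (.c 24 .nil)))) (.r 16 (.b 18689 .nil)))) (.node (.I .adp (.c 0 (.c 1337272521 (.c 48 .nil))) (.b 8257 .nil)) (.I .adp (.c 0 (.c 1337272521 (.c 8 .nil))) (.b 18689 .nil)))))) (.node (.node (.node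 (.node (.I .jac (.c 8 (.c 12929 (.c 24 .nil))) (.l 0 (.b 18689 .nil))) (.I .jac (.c 8 (.c 16 (.c 40 .nil))) (.b 24 (.l 0 (.b 18689 .nil))))) (.node (.I .adp (.c 0 (.c 244148848929896201 (.c 18689 .nil))) .nil) (.I .jac (.c 0 (.c 32 (.c 48 .nil))) (.r 244148848929896201 .nil)))) (.node (.node (.I .adp (.c 0 (.c 14025204674709064521 (.c 18689 .nil))) .nil) (.I .jac (.c 0 (.c 32 (.c 48 .nil))) (.r 14025204674709064521 .nil))) (.node (.I .adp (.c 0 (.c 10206474507614025 (.c 18689 .nil))) .nil) (.I .jac (.c 0 (.c 32 (.c 48 .nil))) (.r 10206474507614025 .nil))))) (.node (.node (.node (.I .adp (.c 0 (.c 1337272521 (.c 32 .nil))) (.b 18497 .nil)) (.I .adp (.c 0 (.c 179513673 (.c 48 .nil))) (.b 8257 .nil))) (.node (.I .adp (.c 0 (.c 179513673 (.c 8 .nil))) (.b 18689 .nil)) (.I .jac (.c 12865 (.c 16 (.c 24 .nil))) (.l 0 (.b 18689 .nil))))) (.node (.node (.I .jac (.c 8 (.c 4737 (.c 40 .nil)))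 (.l 0 (.b 18689 .nil))) (.I .jac (.c 8 (.c 16 (.c 24 .nil))) (.b 40 (.l 0 (.b 18689 .nil))))) (.node (.I .adp (.c 0 (.c 14025206030552608521 (.c 18689 .nil))) .nil) (.I .jac (.c 0 (.c 32 (.c 48 .nil))) (.r 14025206030552608521 .nil))))))))

noncomputable def c2_314 : Tr := (.node (.node (.node (.node (.node (.node (.I .adp (.c 0 (.c 10206401356312521 (.c 18689 .nil))) .nil) (.I .jac (.c 0 (.c 32 (.c 48 .nil))) (.r 10206401356312521 .nil))) (.node (.I .adp (.c 0 (.c 179513673 (.c 32 .nil))) (.b 18497 .nil)) (.I .adp (.c 0 (.c 21099139 (.c 48 .nil))) (.b 8257 .nil)))) (.node (.node (.I .adp (.c 0 (.c 21099139 (.c 8 .nil))) (.b 18689 .nil)) (.I .adp (.c 0 (.c 3561389332330633 (.c 18689 .nil))) .nil)) (.node (.I .jac (.c 0 (.c 32 (.c 48 .nil))) (.r 3561389332330633 .nil)) (.I .adp (.c 0 (.c 21099139 (.c 32 .nil))) (.b 18497 .nil))))) (.node (.node (.node (.I .adp (.c 0 (.c 3561367726845129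 (.c 18689 .nil))) .nil) (.I .jac (.c 0 (.c 32 (.c 48 .nil))) (.r 3561367726845129 .nil))) (.node (.I .jac (.c 14832759703961929 (.c 8 (.c 40 .nil))) (.l 24 .nil)) (.I .jac (.c 15456118887244105 (.c 8 (.c 16 .nil))) (.l 24 .nil)))) (.node (.node (.I .adp (.c 0 (.c 3491710045129993 (.c 18689 .nil))) .nil) (.I .jac (.c 0 (.c 32 (.c 48 .nil))) (.r 3491710045129993 .nil))) (.node (.I .tdb (.c 8 (.c 40 (.c 18689 (.c 0 .nil)))) (.l 4737 .nil)) (.I .com (.c 43059203 (.c 12993 .nil)) (.b 8257 .nil)))))) (.node (.node (.node (.node (.I .tdb (.c 32 (.c 48 (.c 0 (.c 24 .nil)))) (.b 12865 (.l 16 .nil))) (.I .jac (.c 15456118887244105 (.c 8 (.c 24 .nil))) (.l 16 .nil))) (.node (.I .tdb (.c 4673 (.c 40 (.c 18689 (.c 0 .nil)))) (.l 16 .nil)) (.I .tdb (.c 8 (.c 24 (.c 18689 (.c 0 .nil)))) (.b 40 (.l 16 .nil))))) (.node (.node (.I .tdb (.c 32 (.c 48 (.c 0 (.c 40 .nil)))) (.b 4673 (.l 16 .nil))) (.I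 .adp (.c 8 (.c 32 (.c 48 .nil))) (.b 9024976834606921 .nil))) (.node (.I .adp (.c 8 (.c 32 (.c 48 .nil))) (.b 9024908047478729 .nil)) (.I .adp (.c 12929 (.c 24 (.c 48 .nil))) (.b 2105609 .nil))))) (.node (.node (.node (.I .adp (.c 8 (.c 32 (.c 48 .nil))) (.b 3561346121425097 .nil)) (.I .adp (.c 8 (.c 32 (.c 48 .nil))) (.b 9024977103307154 .nil))) (.node (.I .adp (.c 4737 (.c 40 (.c 48 .nil))) (.b 2105609 .nil)) (.I .adp (.c 4737 (.c 40 (.c 48 .nil))) (.b 537002057 .nil)))) (.node (.node (.I .adp (.c 8 (.c 32 (.c 48 .nil))) (.b 3491688652046601 .nil)) (.I .adp (.c 8 (.c 32 (.c 48 .nil))) (.b 231045468630372370 .nil))) (.node (.I .adp (.c 8 (.c 32 (.c 48 .nil))) (.b 9024908316177938 .nil)) (.I .com (.c 169943369 (.c 16 .nil)) (.b 545556897 .nil))))))) (.node (.node (.node (.node (.node (.I .adp (.c 8 (.c 32 (.c 48 .nil))) (.b 231045990696108370 .nil)) (.I .adp (.c 0 (.c 32 (.c 48 .nil)))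 (.b 3561367726845129 .nil))) (.node (.I .adp (.c 4737 (.c 40 (.c 8193 .nil))) (.b 18497 .nil)) (.I .adp (.c 0 (.c 32 (.c 48 .nil))) (.b 3491710045129993 .nil)))) (.node (.node (.I .jac (.c 2105545 (.c 16 (.c 40 .nil))) (.b 18689 .nil)) (.I .jac (.c 2105673 (.c 16 (.c 24 .nil))) (.b 18689 .nil))) (.node (.I .jac (.c 12801 (.c 16 (.c 24 .nil))) (.r 8 (.b 18689 .nil))) (.I .adp (.c 12929 (.c 24 (.c 513 .nil))) (.b 18689 .nil))))) (.node (.node (.node (.I .com (.c 2105545 (.c 12929 .nil)) (.b 18689 .nil)) (.I .jac (.c 513 (.c 16 (.c 40 .nil))) (.r 24 (.b 18689 .nil)))) (.node (.I .adp (.c 4737 (.c 40 (.c 513 .nil))) (.b 18689 .nil)) (.I .com (.c 2105673 (.c 4737 .nil)) (.b 18689 .nil)))) (.node (.node (.I .jac (.c 513 (.c 16 (.c 24 .nil))) (.r 40 (.b 18689 .nil))) (.I .com (.c 35470870263625 (.c 16 .nil)) (.b 18689 .nil))) (.node (.I .adp (.c 1310924873 (.c 24 (.c 48 .nil))) (.b 8321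 .nil)) (.I .adp (.c 1310924873 (.c 24 (.c 16 .nil))) (.b 18689 .nil)))))) (.node (.node (.node (.node (.I .adp (.c 1310924873 (.c 24 (.c 32 .nil))) (.b 18561 .nil)) (.I .adp (.c 0 (.c 174695753 (.c 48 .nil))) (.b 8321 .nil))) (.node (.I .adp (.c 0 (.c 174695753 (.c 16 .nil))) (.b 18689 .nil)) (.I .adp (.c 0 (.c 174695753 (.c 32 .nil))) (.b 18561 .nil)))) (.node (.node (.I .com (.c 42762755 (.c 12993 .nil)) (.b 8321 .nil)) (.I .com (.c 8520195 (.c 12993 .nil)) (.b 18561 .nil))) (.node (.I .jac (.c 0 (.c 12865 (.c 24 .nil))) (.b 554045857 .nil)) (.I .jac (.c 0 (.c 8 (.c 40 .nil))) (.b 24 (.b 554045857 .nil)))))) (.node (.node (.node (.I .adp (.c 16 (.c 32 (.c 48 .nil))) (.b 231045989336561353 .nil)) (.I .adp (.c 16 (.c 32 (.c 48 .nil))) (.b 231045293249046473 .nil))) (.node (.I .adp (.c 16 (.c 32 (.c 1324065993 .nil))) (.b 18433 .nil)) (.I .adp (.c 16 (.c 32 (.c 48 .nil))) (.b 35466557976521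 .nil)))) (.node (.node (.I .adp (.c 16 (.c 32 (.c 48 .nil))) (.b 3561346121425033 .nil)) (.I .adp (.c 16 (.c 32 (.c 48 .nil))) (.b 35470887109010 .nil))) (.node (.I .adp (.c 4673 (.c 40 (.c 48 .nil))) (.b 33587465 .nil)) (.I .adp (.c 16 (.c 32 (.c 48 .nil))) (.b 231045294608591378 .nil))))))))

noncomputable def c2_315 : Tr := (.node (.node (.node (.node (.node (.node (.I .adp (.c 16 (.c 32 (.c 48 .nil))) (.b 35466574820882 .nil)) (.I .com (.c 169943369 (.c 8 .nil)) (.b 554045857 .nil))) (.node (.I .adp (.c 16 (.c 32 (.c 48 .nil))) (.b 231045990696108306 .nil)) (.I .adp (.c 0 (.c 32 (.c 21099075 .nil))) (.b 18561 .nil)))) (.node (.node (.I .adp (.c 0 (.c 16 (.c 21099075 .nil))) (.b 18689 .nil)) (.I .adp (.c 4673 (.c 40 (.c 2049 .nil))) (.b 18689 .nil))) (.node (.I .adp (.c 12801 (.c 24 (.c 48 .nil))) (.b 35718409 .nil)) (.I .tdb (.c 0 (.c 24 (.c 40 (.c 8 .nil)))) (.b 554045857 .nil)))))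 (.node (.node (.node (.I .adp (.c 8 (.c 32 (.c 169943369 .nil))) (.b 18561 .nil)) (.I .tdb (.c 0 (.c 24 (.c 40 (.c 16 .nil)))) (.b 545556897 .nil))) (.node (.I .adp (.c 8 (.c 16 (.c 1310925001 .nil))) (.b 18689 .nil)) (.I .adp (.c 12801 (.c 24 (.c 2113 .nil))) (.b 18689 .nil)))) (.node (.node (.I .tdb (.c 0 (.c 40 (.c 16 (.c 24 .nil)))) (.l 8 (.b 18689 .nil))) (.I .adp (.c 8257 (.c 16 (.c 48 .nil))) (.b 1310925001 .nil))) (.node (.I .jac (.c 2049 (.c 8 (.c 32 .nil))) (.b 1350752673 .nil)) (.I .adp (.c 24 (.c 40 (.c 48 .nil))) (.b 9024942441009865 .nil)))))) (.node (.node (.node (.node (.I .adp (.c 24 (.c 40 (.c 48 .nil))) (.b 35468714087177 .nil)) (.I .adp (.c 24 (.c 40 (.c 48 .nil))) (.b 9024839260612489 .nil))) (.node (.I .jac (.c 0 (.c 2113 (.c 32 .nil))) (.b 1350752673 .nil)) (.I .jac (.c 0 (.c 8 (.c 16 .nil))) (.b 32 (.b 1350752673 .nil))))) (.node (.node (.I .adp (.c 24 (.c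 40 (.c 48 .nil))) (.b 2306970223667989193 .nil)) (.I .adp (.c 24 (.c 40 (.c 48 .nil))) (.b 35464401931145 .nil))) (.node (.I .adp (.c 24 (.c 40 (.c 35718409 .nil))) (.b 18433 .nil)) (.I .adp (.c 24 (.c 40 (.c 48 .nil))) (.b 598976858557513 .nil))))) (.node (.node (.node (.I .adp (.c 24 (.c 40 (.c 48 .nil))) (.b 598967998054537 .nil)) (.I .adp (.c 24 (.c 40 (.c 48 .nil))) (.b 2487083360585 .nil))) (.node (.I .adp (.c 24 (.c 40 (.c 48 .nil))) (.b 2306969678073866578 .nil)) (.I .adp (.c 24 (.c 40 (.c 48 .nil))) (.b 35468730932050 .nil)))) (.node (.node (.I .adp (.c 24 (.c 40 (.c 48 .nil))) (.b 580749782704329 .nil)) (.I .adp (.c 24 (.c 40 (.c 48 .nil))) (.b 9024839529310674 .nil))) (.node (.I .adp (.c 24 (.c 40 (.c 48 .nil))) (.b 35464418774994 .nil)) (.I .com (.c 537002121 (.c 8 .nil)) (.b 1350752673 .nil))))))) (.node (.node (.node (.node (.node (.I .com (.c 33587465 (.c 8 .nil))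 (.b 1350752673 .nil)) (.I .adp (.c 24 (.c 40 (.c 48 .nil))) (.b 2306970227964006162 .nil))) (.node (.I .adp (.c 24 (.c 40 (.c 48 .nil))) (.b 9024942709709586 .nil)) (.I .adp (.c 24 (.c 40 (.c 33587465 .nil))) (.b 18497 .nil)))) (.node (.node (.I .tdb (.c 0 (.c 32 (.c 8 (.c 16 .nil)))) (.b 1350752673 .nil)) (.I .tdb (.c 0 (.c 16 (.c 32 (.c 8 .nil)))) (.b 1350752673 .nil))) (.node (.I .jac (.c 513 (.c 16 (.c 32 .nil))) (.b 1350752673 .nil)) (.I .tdb (.c 0 (.c 8 (.c 16 (.c 32 .nil)))) (.b 1350752673 .nil))))) (.node (.node (.node (.I .adp (.c 16 (.c 32 (.c 513 .nil))) (.b 1350752673 .nil)) (.I .com (.c 2105609 (.c 16 .nil)) (.b 1350752673 .nil))) (.node (.I .tdb (.c 0 (.c 8 (.c 24 (.c 40 .nil)))) (.b 554045857 .nil)) (.I .adp (.c 24 (.c 40 (.c 513 .nil))) (.b 554045857 .nil)))) (.node (.node (.I .com (.c 2105673 (.c 24 .nil)) (.b 554045857 .nil)) (.I .adp (.c 24 (.c 40 (.c 2105609 .nil)))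 (.b 18561 .nil))) (.node (.I .adp (.c 8 (.c 32 (.c 2049 .nil))) (.b 1350752673 .nil)) (.I .tdb (.c 0 (.c 16 (.c 40 (.c 24 .nil)))) (.b 545556897 .nil)))))) (.node (.node (.node (.node (.I .adp (.c 24 (.c 40 (.c 2049 .nil))) (.b 545556897 .nil)) (.I .com (.c 33587529 (.c 24 .nil)) (.b 545556897 .nil))) (.node (.I .adp (.c 8 (.c 16 (.c 8193 .nil))) (.b 1350752673 .nil)) (.I .adp (.c 24 (.c 40 (.c 8193 .nil))) (.b 35752353 .nil)))) (.node (.node (.I .jac (.c 33587273 (.c 24 (.c 40 .nil))) (.b 18689 .nil)) (.I .jac (.c 2105481 (.c 24 (.c 40 .nil))) (.b 18689 .nil))) (.node (.I .jac (.c 557571 (.c 24 (.c 40 .nil))) (.b 18689 .nil)) (.I .com (.c 3423058053193993 (.c 16 .nil)) (.b 18689 .nil))))) (.node (.node (.node (.I .adp (.c 24 (.c 40 (.c 33587273 .nil))) (.b 18689 .nil)) (.I .com (.c 9024839260612553 (.c 24 .nil)) (.b 18689 .nil))) (.node (.I .adp (.c 24 (.c 40 (.c 2105481 .nil)))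 (.b 18689 .nil)) (.I .com (.c 35464401931209 (.c 24 .nil)) (.b 18689 .nil)))) (.node (.node (.I .adp (.c 557571 (.c 40 (.c 48 .nil))) (.b 8385 .nil)) (.I .adp (.c 557571 (.c 40 (.c 24 .nil))) (.b 18689 .nil))) (.node (.I .adp (.c 557571 (.c 40 (.c 32 .nil))) (.b 18625 .nil)) (.I .adp (.c 0 (.c 1324065929 (.c 48 .nil))) (.b 8385 .nil))))))))

noncomputable def c2_316 : Tr := (.node (.node (.node (.node (.node (.node (.I .adp (.c 0 (.c 1324065929 (.c 24 .nil))) (.b 18689 .nil)) (.I .adp (.c 0 (.c 1324065929 (.c 32 .nil))) (.b 18625 .nil))) (.node (.I .com (.c 42762755 (.c 12929 .nil)) (.b 8385 .nil)) (.I .com (.c 8520195 (.c 12929 .nil)) (.b 18625 .nil)))) (.node (.node (.I .jac (.c 2049 (.c 8 (.c 40 .nil))) (.b 562600353 .nil)) (.I .adp (.c 24 (.c 32 (.c 48 .nil))) (.b 9024976834606793 .nil))) (.node (.I .adp (.c 24 (.c 32 (.c 48 .nil))) (.b 13748192181200529161 .nil)) (.I .adp (.c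 24 (.c 32 (.c 48 .nil))) (.b 9024839260612553 .nil))))) (.node (.node (.node (.I .jac (.c 12801 (.c 8 (.c 16 .nil))) (.b 562600353 .nil)) (.I .jac (.c 0 (.c 2113 (.c 40 .nil))) (.b 562600353 .nil))) (.node (.I .jac (.c 0 (.c 8 (.c 16 .nil))) (.b 40 (.b 562600353 .nil))) (.I .adp (.c 24 (.c 32 (.c 35718473 .nil))) (.b 18433 .nil)))) (.node (.node (.I .adp (.c 24 (.c 32 (.c 48 .nil))) (.b 3491710045129801 .nil)) (.I .adp (.c 24 (.c 32 (.c 48 .nil))) (.b 3491688652046473 .nil))) (.node (.I .adp (.c 24 (.c 32 (.c 48 .nil))) (.b 2487083360649 .nil)) (.I .adp (.c 24 (.c 32 (.c 48 .nil))) (.b 13748192191687928146 .nil)))))) (.node (.node (.node (.node (.I .adp (.c 24 (.c 32 (.c 48 .nil))) (.b 35470887108946 .nil)) (.I .adp (.c 2113 (.c 40 (.c 48 .nil))) (.b 537002185 .nil))) (.node (.I .adp (.c 2113 (.c 40 (.c 48 .nil))) (.b 169943305 .nil)) (.I .adp (.c 24 (.c 32 (.c 48 .nil))) (.b 3423058053193929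 .nil)))) (.node (.node (.I .adp (.c 24 (.c 32 (.c 48 .nil))) (.b 9024839529310738 .nil)) (.I .adp (.c 24 (.c 32 (.c 48 .nil))) (.b 35464418775058 .nil))) (.node (.I .com (.c 1310924937 (.c 8 .nil)) (.b 562600353 .nil)) (.I .com (.c 33587529 (.c 8 .nil)) (.b 562600353 .nil))))) (.node (.node (.node (.I .adp (.c 24 (.c 32 (.c 48 .nil))) (.b 13748193534075031314 .nil)) (.I .adp (.c 24 (.c 32 (.c 48 .nil))) (.b 9024977103307026 .nil))) (.node (.I .adp (.c 0 (.c 32 (.c 20891715 .nil))) (.b 18625 .nil)) (.I .adp (.c 2113 (.c 40 (.c 8193 .nil))) (.b 18625 .nil)))) (.node (.node (.I .adp (.c 0 (.c 24 (.c 20891715 .nil))) (.b 18689 .nil)) (.I .adp (.c 2113 (.c 40 (.c 4609 .nil))) (.b 18689 .nil))) (.node (.I .adp (.c 24 (.c 32 (.c 33587529 .nil))) (.b 18497 .nil)) (.I .tdb (.c 0 (.c 40 (.c 8 (.c 16 .nil)))) (.b 562600353 .nil))))))) (.node (.node (.node (.node (.node (.I .tdb (.c 0 (.c 16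 (.c 40 (.c 8 .nil)))) (.b 562600353 .nil)) (.I .adp (.c 8 (.c 24 (.c 1310924937 .nil))) (.b 18689 .nil))) (.node (.I .adp (.c 8257 (.c 24 (.c 48 .nil))) (.b 1310924937 .nil)) (.I .jac (.c 4609 (.c 8 (.c 32 .nil))) (.b 1337479585 .nil)))) (.node (.node (.I .adp (.c 16 (.c 40 (.c 48 .nil))) (.b 231045815314584265 .nil)) (.I .adp (.c 16 (.c 40 (.c 48 .nil))) (.b 231045293249046409 .nil))) (.node (.I .jac (.c 8193 (.c 8 (.c 24 .nil))) (.b 1337479585 .nil)) (.I .jac (.c 0 (.c 4673 (.c 32 .nil))) (.b 1337479585 .nil))))) (.node (.node (.node (.I .jac (.c 0 (.c 8 (.c 24 .nil))) (.b 32 (.b 1337479585 .nil))) (.I .adp (.c 16 (.c 40 (.c 174695689 .nil))) (.b 18433 .nil))) (.node (.I .adp (.c 16 (.c 40 (.c 48 .nil))) (.b 617620517416009 .nil)) (.I .adp (.c 16 (.c 40 (.c 48 .nil))) (.b 617611520073865 .nil)))) (.node (.node (.I .adp (.c 16 (.c 40 (.c 48 .nil))) (.b 59555558875465 .nil)) (.I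 .adp (.c 16 (.c 40 (.c 48 .nil))) (.b 2306969678073866642 .nil))) (.node (.I .adp (.c 16 (.c 40 (.c 48 .nil))) (.b 35468730932114 .nil)) (.I .adp (.c 16 (.c 40 (.c 48 .nil))) (.b 231045294608591314 .nil)))))) (.node (.node (.node (.node (.I .adp (.c 16 (.c 40 (.c 48 .nil))) (.b 35466574820818 .nil)) (.I .com (.c 537002185 (.c 8 .nil)) (.b 1337479585 .nil))) (.node (.I .com (.c 169943305 (.c 8 .nil)) (.b 1337479585 .nil)) (.I .adp (.c 16 (.c 40 (.c 48 .nil))) (.b 2306970777854211346 .nil)))) (.node (.node (.I .adp (.c 16 (.c 40 (.c 48 .nil))) (.b 231045816674130706 .nil)) (.I .adp (.c 16 (.c 40 (.c 169943305 .nil))) (.b 18497 .nil))) (.node (.I .tdb (.c 0 (.c 32 (.c 8 (.c 24 .nil)))) (.b 1337479585 .nil)) (.I .tdb (.c 0 (.c 24 (.c 32 (.c 8 .nil)))) (.b 1337479585 .nil))))) (.node (.node (.node (.I .jac (.c 513 (.c 24 (.c 32 .nil))) (.b 1337479585 .nil)) (.I .tdb (.c 0 (.c 8 (.c 24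 (.c 32 .nil)))) (.b 1337479585 .nil))) (.node (.I .adp (.c 24 (.c 32 (.c 513 .nil))) (.b 1337479585 .nil)) (.I .com (.c 2105609 (.c 24 .nil)) (.b 1337479585 .nil)))) (.node (.node (.I .tdb (.c 0 (.c 8 (.c 16 (.c 40 .nil)))) (.b 562600353 .nil)) (.I .adp (.c 16 (.c 40 (.c 513 .nil))) (.b 562600353 .nil))) (.node (.I .com (.c 2105673 (.c 16 .nil)) (.b 562600353 .nil)) (.I .adp (.c 16 (.c 40 (.c 537002057 .nil))) (.b 18625 .nil))))))))

noncomputable def c2_317 : Tr := (.node (.node (.node (.node (.node (.node (.I .com (.c 2306969673777850313 (.c 16 .nil)) (.b 18625 .nil)) (.I .adp (.c 16 (.c 40 (.c 24 .nil))) (.b 580749782704585 .nil))) (.node (.I .adp (.c 16 (.c 40 (.c 8520195 .nil))) (.b 18625 .nil)) (.I .adp (.c 8 (.c 32 (.c 4609 .nil))) (.b 1337479585 .nil)))) (.node (.node (.I .adp (.c 16 (.c 40 (.c 4609 .nil))) (.b 545556897 .nil)) (.I .adp (.c 8 (.c 24 (.c 8193 .nil))) (.b 1337479585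 .nil))) (.node (.I .adp (.c 16 (.c 40 (.c 8193 .nil))) (.b 174770593 .nil)) (.I .adp (.c 0 (.c 4673 (.c 12929 .nil))) (.b 18689 .nil))))) (.node (.node (.node (.I .jac (.c 0 (.c 16 (.c 40 .nil))) (.r 4673 (.b 18689 .nil))) (.I .adp (.c 16 (.c 40 (.c 169943113 .nil))) (.b 18689 .nil))) (.node (.I .com (.c 231045293249046473 (.c 16 .nil)) (.b 18689 .nil)) (.I .adp (.c 24 (.c 32 (.c 2105673 .nil))) (.b 18561 .nil)))) (.node (.node (.I .adp (.c 12801 (.c 8 (.c 48 .nil))) (.b 553912521 .nil)) (.I .adp (.c 12801 (.c 8 (.c 48 .nil))) (.b 179513609 .nil))) (.node (.I .adp (.c 16 (.c 32 (.c 1310924873 .nil))) (.b 18625 .nil)) (.I .com (.c 13748192181200529289 (.c 16 .nil)) (.b 18625 .nil)))))) (.node (.node (.node (.node (.I .adp (.c 16 (.c 32 (.c 20685315 .nil))) (.b 18625 .nil)) (.I .adp (.c 12801 (.c 8 (.c 8321 .nil))) (.b 18625 .nil))) (.node (.I .adp (.c 16 (.c 24 (.c 2105673 .nil)))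 (.b 18689 .nil)) (.I .adp (.c 16 (.c 24 (.c 20685315 .nil))) (.b 18689 .nil)))) (.node (.node (.I .adp (.c 12801 (.c 8 (.c 4737 .nil))) (.b 18689 .nil)) (.I .jac (.c 0 (.c 8 (.c 40 .nil))) (.b 2455142657257825185 .nil))) (.node (.I .adp (.c 8321 (.c 24 (.c 48 .nil))) (.b 1310924873 .nil)) (.I .adp (.c 8321 (.c 24 (.c 48 .nil))) (.b 2105673 .nil))))) (.node (.node (.node (.I .adp (.c 8321 (.c 24 (.c 12865 .nil))) (.b 18433 .nil)) (.I .adp (.c 4737 (.c 32 (.c 48 .nil))) (.b 2105673 .nil))) (.node (.I .adp (.c 16 (.c 8385 (.c 48 .nil))) (.b 2105673 .nil)) (.I .adp (.c 16 (.c 8386 (.c 48 .nil))) (.b 2105673 .nil)))) (.node (.node (.I .adp (.c 24 (.c 32 (.c 48 .nil))) (.l 16 (.b 2105673 .nil))) (.I .tdp (.c 24 (.c 32 (.c 16 (.c 48 .nil)))) (.b 2105673 .nil))) (.node (.I .com (.c 43356803 (.c 32 .nil)) (.b 2105673 .nil)) (.I .adp (.c 8 (.c 40 (.c 48 .nil))) (.b 9024942441009993 .nil)))))))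 (.node (.node (.node (.node (.node (.I .adp (.c 8 (.c 40 (.c 48 .nil))) (.b 2306970773558193929 .nil)) (.I .adp (.c 8 (.c 40 (.c 48 .nil))) (.b 9024908047478665 .nil))) (.node (.I .adp (.c 8 (.c 40 (.c 8786563 .nil))) (.b 18433 .nil)) (.I .adp (.c 8 (.c 40 (.c 48 .nil))) (.b 617611520073929 .nil)))) (.node (.node (.I .adp (.c 8 (.c 40 (.c 48 .nil))) (.b 62886542410057 .nil)) (.I .adp (.c 8 (.c 40 (.c 48 .nil))) (.b 2306970227964006290 .nil))) (.node (.I .adp (.c 8 (.c 40 (.c 48 .nil))) (.b 9024942709709714 .nil)) (.I .adp (.c 8 (.c 40 (.c 48 .nil))) (.b 598967998054665 .nil))))) (.node (.node (.node (.I .adp (.c 8 (.c 40 (.c 48 .nil))) (.b 231045468630372306 .nil)) (.I .adp (.c 8 (.c 40 (.c 48 .nil))) (.b 9024908316177874 .nil))) (.node (.I .com (.c 169943305 (.c 16 .nil)) (.b 1324272033 .nil)) (.I .com (.c 537002185 (.c 16 .nil)) (.b 1324272033 .nil)))) (.node (.node (.I .adp (.c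 8 (.c 40 (.c 48 .nil))) (.b 2306970777854211410 .nil)) (.I .adp (.c 8 (.c 40 (.c 48 .nil))) (.b 231045816674130770 .nil))) (.node (.I .adp (.c 8 (.c 40 (.c 169943305 .nil))) (.b 18561 .nil)) (.I .tdb (.c 0 (.c 32 (.c 16 (.c 24 .nil)))) (.b 1324272033 .nil)))))) (.node (.node (.node (.node (.I .tdb (.c 0 (.c 24 (.c 32 (.c 16 .nil)))) (.b 1324272033 .nil)) (.I .tdb (.c 0 (.c 16 (.c 32 (.c 24 .nil)))) (.b 1324272033 .nil))) (.node (.I .adp (.c 24 (.c 32 (.c 2049 .nil))) (.b 1324272033 .nil)) (.I .com (.c 33587465 (.c 24 .nil)) (.b 1324272033 .nil)))) (.node (.node (.I .adp (.c 8 (.c 40 (.c 2049 .nil))) (.b 562600353 .nil)) (.I .adp (.c 16 (.c 32 (.c 4609 .nil))) (.b 1324272033 .nil))) (.node (.I .adp (.c 8 (.c 40 (.c 4609 .nil))) (.b 554045857 .nil)) (.I .adp (.c 16 (.c 24 (.c 8193 .nil))) (.b 1324272033 .nil))))) (.node (.node (.node (.I .adp (.c 8 (.c 40 (.c 8193 .nil))) (.b 179589537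 .nil)) (.I .adp (.c 8 (.c 40 (.c 33587401 .nil))) (.b 18689 .nil))) (.node (.I .adp (.c 0 (.c 40 (.c 48 .nil))) (.b 244148670041477897 .nil)) (.I .adp (.c 0 (.c 40 (.c 48 .nil))) (.b 10206437931930441 .nil)))) (.node (.node (.I .adp (.c 0 (.c 40 (.c 48 .nil))) (.b 244148312264838025 .nil)) (.I .adp (.c 0 (.c 40 (.c 48 .nil))) (.b 2379903823379377929 .nil))) (.node (.I .adp (.c 0 (.c 40 (.c 48 .nil))) (.b 617629514823817 .nil)) (.I .adp (.c 0 (.c 40 (.c 8786563 .nil))) (.b 18497 .nil))))))))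

noncomputable def c2_318 : Tr := (.node (.node (.node (.node (.node (.node (.I .adp (.c 8257 (.c 24 (.c 12801 .nil))) (.b 18561 .nil)) (.I .adp (.c 0 (.c 40 (.c 545424585 .nil))) (.b 18561 .nil))) (.node (.I .adp (.c 0 (.c 40 (.c 174695689 .nil))) (.b 18561 .nil)) (.I .adp (.c 8 (.c 16 (.c 12801 .nil))) (.b 562600353 .nil)))) (.node (.node (.I .adp (.c 24 (.c 32 (.c 12801 .nil))) (.b 35752353 .nil)) (.I .adp (.c 8257 (.c 16 (.c 12801 .nil))) (.b 18625 .nil))) (.node (.I .adp (.c 0 (.c 40 (.c 35718409 .nil))) (.b 18625 .nil)) (.I .adp (.c 8 (.c 4738 (.c 12801 .nil))) (.b 18689 .nil))))) (.node (.node (.node (.I .adp (.c 16 (.c 24 (.c 12801 .nil))) (.l 8 (.b 18689 .nil))) (.I .adp (.c 0 (.c 40 (.c 174695561 .nil))) (.b 18689 .nil))) (.node (.I .jac (.c 4609 (.c 8 (.c 32 .nil))) (.b 16 (.b 18753 .nil))) (.I .jac (.c 0 (.c 545424585 (.c 16 .nil))) (.b 18753 .nil)))) (.node (.node (.I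 .jac (.c 0 (.c 8257 (.c 24 .nil))) (.b 16 (.b 18753 .nil))) (.I .jac (.c 0 (.c 8 (.c 32 .nil))) (.b 24 (.b 16 (.b 18753 .nil))))) (.node (.I .jac (.c 33587465 (.c 8 (.c 24 .nil))) (.b 18753 .nil)) (.I .jac (.c 8193 (.c 8 (.c 24 .nil))) (.b 16 (.b 18753 .nil))))))) (.node (.node (.node (.node (.I .jac (.c 2049 (.c 4673 (.c 32 .nil))) (.b 18753 .nil)) (.I .jac (.c 2049 (.c 8 (.c 24 .nil))) (.b 32 (.b 18753 .nil)))) (.node (.I .jac (.c 0 (.c 174695689 (.c 16 .nil))) (.b 18753 .nil)) (.I .jac (.c 0 (.c 4673 (.c 32 .nil))) (.b 16 (.b 18753 .nil))))) (.node (.node (.I .jac (.c 0 (.c 8 (.c 24 .nil))) (.b 32 (.b 16 (.b 18753 .nil)))) (.I .jac (.c 537002121 (.c 8 (.c 24 .nil))) (.b 18753 .nil))) (.node (.I .jac (.c 231045815314584265 (.c 40 (.c 48 .nil))) (.r 16 .nil)) (.I .adp (.c 2306969673777850185 (.c 16 (.c 18753 .nil))) .nil)))) (.node (.node (.node (.I .jac (.c 35468714087241 (.c 40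 (.c 48 .nil))) (.r 16 .nil)) (.I .adp (.c 231045293249046409 (.c 16 (.c 18753 .nil))) .nil)) (.node (.I .jac (.c 2049 (.c 40 (.c 48 .nil))) (.r 545424585 .nil)) (.I .jac (.c 8193 (.c 8 (.c 24 .nil))) (.r 16 (.b 18753 .nil))))) (.node (.node (.I .jac (.c 2306970773558193865 (.c 40 (.c 48 .nil))) (.r 16 .nil)) (.I .jac (.c 35466557976457 (.c 40 (.c 48 .nil))) (.r 16 .nil))) (.node (.I .jac (.c 9024942441009865 (.c 40 (.c 48 .nil))) (.r 24 .nil)) (.I .jac (.c 2306969673777850121 (.c 40 (.c 48 .nil))) (.r 24 .nil))))))) (.node (.node (.node (.node (.node (.I .adp (.c 35468714087177 (.c 24 (.c 18753 .nil))) .nil) (.I .adp (.c 9024839260612489 (.c 24 (.c 18753 .nil))) .nil)) (.node (.I .jac (.c 4609 (.c 40 (.c 48 .nil))) (.r 545424521 .nil)) (.I .jac (.c 2306970223667989193 (.c 40 (.c 48 .nil))) (.r 24 .nil)))) (.node (.node (.I .adp (.c 35464401931145 (.c 24 (.c 18753 .nil))) .nil) (.I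 .jac (.c 4609 (.c 40 (.c 48 .nil))) (.r 8652867 .nil))) (.node (.I .adp (.c 537002057 (.c 4737 (.c 18753 .nil))) .nil) (.I .jac (.c 537002057 (.c 40 (.c 48 .nil))) (.r 4737 .nil))))) (.node (.node (.node (.I .adp (.c 2105609 (.c 4737 (.c 18753 .nil))) .nil) (.I .jac (.c 2105609 (.c 40 (.c 48 .nil))) (.r 4737 .nil))) (.node (.I .com (.c 2487083360585 (.c 24 .nil)) (.b 18753 .nil)) (.I .adp (.c 598967998054537 (.c 24 (.c 18753 .nil))) .nil))) (.node (.node (.I .jac (.c 24 (.c 40 (.c 48 .nil))) (.l 598967998054537 .nil)) (.I .jac (.c 598967998054537 (.c 40 (.c 48 .nil))) (.r 24 .nil))) (.node (.I .adp (.c 2487083360585 (.c 24 (.c 18753 .nil))) .nil) (.I .jac (.c 24 (.c 40 (.c 48 .nil))) (.l 2487083360585 .nil)))))) (.node (.node (.node (.node (.I .jac (.c 2487083360585 (.c 40 (.c 48 .nil))) (.r 24 .nil)) (.I .adp (.c 537002057 (.c 4738 (.c 18753 .nil))) .nil)) (.node (.I .adp (.c 16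 (.c 24 (.c 18753 .nil))) (.l 537002057 .nil)) (.I .jac (.c 16 (.c 40 (.c 48 .nil))) (.r 24 (.l 537002057 .nil))))) (.node (.node (.I .jac (.c 537002057 (.c 40 (.c 48 .nil))) (.r 4738 .nil)) (.I .tdp (.c 16 (.c 24 (.c 537002057 (.c 18753 .nil)))) .nil)) (.node (.I .adp (.c 2105609 (.c 4738 (.c 18753 .nil))) .nil) (.I .adp (.c 16 (.c 24 (.c 18753 .nil))) (.l 2105609 .nil))))) (.node (.node (.node (.I .jac (.c 16 (.c 40 (.c 48 .nil))) (.r 24 (.l 2105609 .nil))) (.I .jac (.c 2105609 (.c 40 (.c 48 .nil))) (.r 4738 .nil))) (.node (.I .tdp (.c 16 (.c 24 (.c 18753 (.c 2105609 .nil)))) .nil) (.I .tdb (.c 40 (.c 48 (.c 8 (.c 16 .nil)))) (.b 0 (.b 32 (.l 24 .nil)))))) (.node (.node (.I .adp (.c 8257 (.c 16 (.c 18753 .nil))) (.l 4609 .nil)) (.I .jac (.c 8257 (.c 40 (.c 48 .nil))) (.r 16 (.l 4609 .nil)))) (.node (.I .adp (.c 8257 (.c 24 (.c 18753 .nil))) (.l 2049 .nil)) (.I .jac (.c 8257 (.c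 40 (.c 48 .nil))) (.r 24 (.l 2049 .nil)))))))))

noncomputable def c2_319 : Tr := (.node (.node (.node (.node (.node (.node (.I .jac (.c 8193 (.c 40 (.c 48 .nil))) (.r 174695561 .nil)) (.I .adp (.c 9024908047478473 (.c 32 (.c 18753 .nil))) .nil)) (.node (.I .jac (.c 9024908047478473 (.c 40 (.c 48 .nil))) (.r 32 .nil)) (.I .adp (.c 231045293249046281 (.c 32 (.c 18753 .nil))) .nil))) (.node (.node (.I .jac (.c 231045293249046281 (.c 40 (.c 48 .nil))) (.r 32 .nil)) (.I .adp (.c 35466557976329 (.c 32 (.c 18753 .nil))) .nil)) (.node (.I .jac (.c 35466557976329 (.c 40 (.c 48 .nil))) (.r 32 .nil)) (.I .adp (.c 9024839260612425 (.c 32 (.c 18753 .nil))) .nil)))) (.node (.node (.node (.I .jac (.c 9024839260612425 (.c 40 (.c 48 .nil))) (.r 32 .nil)) (.I .jac (.c 8193 (.c 40 (.c 48 .nil))) (.r 35718345 .nil))) (.node (.I .jac (.c 8193 (.c 40 (.c 48 .nil))) (.r 2803779 .nil)) (.I .adp (.c 62889413446729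 (.c 32 (.c 18753 .nil))) .nil))) (.node (.node (.I .jac (.c 62889413446729 (.c 40 (.c 48 .nil))) (.r 32 .nil)) (.I .com (.c 537002121 (.c 4673 .nil)) (.b 18753 .nil))) (.node (.I .adp (.c 537002121 (.c 4673 (.c 18753 .nil))) .nil) (.I .jac (.c 33587465 (.c 40 (.c 48 .nil))) (.r 4673 .nil)))))) (.node (.node (.node (.node (.I .jac (.c 169943113 (.c 40 (.c 48 .nil))) (.r 8321 .nil)) (.I .jac (.c 2105545 (.c 40 (.c 48 .nil))) (.r 8321 .nil))) (.node (.I .com (.c 8652803 (.c 4673 .nil)) (.b 18753 .nil)) (.I .com (.c 62886542409865 (.c 32 .nil)) (.b 18753 .nil)))) (.node (.node (.I .adp (.c 8652803 (.c 4673 (.c 18753 .nil))) .nil) (.I .jac (.c 8652803 (.c 40 (.c 48 .nil))) (.r 4673 .nil))) (.node (.I .jac (.c 32 (.c 40 (.c 48 .nil))) (.l 62886542409865 .nil)) (.I .adp (.c 2487083360521 (.c 32 (.c 18753 .nil))) .nil)))) (.node (.node (.node (.I .jac (.c 32 (.c 40 (.c 48 .nil))) (.l 2487083360521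 .nil)) (.I .jac (.c 2487083360521 (.c 40 (.c 48 .nil))) (.r 32 .nil))) (.node (.I .tdb (.c 40 (.c 48 (.c 8 (.c 16 .nil)))) (.b 4609 (.l 32 .nil))) (.I .adp (.c 2105545 (.c 8322 (.c 18753 .nil))) .nil))) (.node (.node (.I .adp (.c 16 (.c 32 (.c 18753 .nil))) (.l 2105545 .nil)) (.I .jac (.c 16 (.c 40 (.c 48 .nil))) (.r 32 (.l 2105545 .nil)))) (.node (.I .jac (.c 2105545 (.c 40 (.c 48 .nil))) (.r 8322 .nil)) (.I .tdp (.c 16 (.c 32 (.c 18753 (.c 2105545 .nil)))) .nil)))))) (.node (.node (.node (.node (.node (.I .tdb (.c 513 (.c 24 (.c 18753 (.c 16 .nil)))) (.l 32 .nil)) (.I .tdb (.c 0 (.c 8 (.c 16 (.c 18753 .nil)))) (.b 24 (.l 32 .nil)))) (.node (.I .tdb (.c 40 (.c 48 (.c 0 (.c 16 .nil)))) (.b 8 (.b 24 (.l 32 .nil)))) (.I .tdb (.c 40 (.c 48 (.c 0 (.c 8 .nil)))) (.b 24 (.b 16 (.l 32 .nil)))))) (.node (.node (.I .tdb (.c 40 (.c 48 (.c 0 (.c 24 .nil)))) (.b 8 (.b 16 (.l 32 .nil)))) (.I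 .jac (.c 537002185 (.c 40 (.c 48 .nil))) (.r 2113 .nil))) (.node (.I .jac (.c 169943305 (.c 40 (.c 48 .nil))) (.r 2113 .nil)) (.I .jac (.c 33587273 (.c 40 (.c 48 .nil))) (.r 8385 .nil))))) (.node (.node (.node (.I .adp (.c 2105481 (.c 8385 (.c 18753 .nil))) .nil) (.I .adp (.c 8786435 (.c 2113 (.c 18753 .nil))) .nil)) (.node (.I .jac (.c 8786435 (.c 40 (.c 48 .nil))) (.r 2113 .nil)) (.I .tdb (.c 40 (.c 48 (.c 0 (.c 8 .nil)))) (.b 16 (.b 24 (.l 32 .nil)))))) (.node (.node (.I .tdb (.c 40 (.c 48 (.c 8 (.c 24 .nil)))) (.b 2049 (.l 32 .nil))) (.I .adp (.c 2105481 (.c 8386 (.c 18753 .nil))) .nil)) (.node (.I .adp (.c 24 (.c 32 (.c 18753 .nil))) (.l 2105481 .nil)) (.I .jac (.c 24 (.c 40 (.c 48 .nil))) (.r 32 (.l 2105481 .nil))))))) (.node (.node (.node (.node (.I .jac (.c 2105481 (.c 40 (.c 48 .nil))) (.r 8386 .nil)) (.I .tdp (.c 24 (.c 32 (.c 18753 (.c 2105481 .nil)))) .nil)) (.node (.I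 .tdb (.c 513 (.c 16 (.c 18753 (.c 24 .nil)))) (.l 32 .nil)) (.I .tdb (.c 0 (.c 8 (.c 24 (.c 18753 .nil)))) (.b 16 (.l 32 .nil))))) (.node (.node (.I .adp (.c 513 (.c 553912521 (.c 18753 .nil))) .nil) (.I .jac (.c 513 (.c 40 (.c 48 .nil))) (.r 553912521 .nil))) (.node (.I .jac (.c 8193 (.c 16 (.c 24 .nil))) (.l 8 (.b 18753 .nil))) (.I .com (.c 9024908047478665 (.c 8 .nil)) (.b 18753 .nil))))) (.node (.node (.node (.I .adp (.c 9024908047478665 (.c 8 (.c 18753 .nil))) .nil) (.I .jac (.c 9024908047478665 (.c 40 (.c 48 .nil))) (.r 8 .nil))) (.node (.I .jac (.c 513 (.c 40 (.c 48 .nil))) (.r 179513609 .nil)) (.I .com (.c 617629514823753 (.c 8 .nil)) (.b 18753 .nil)))) (.node (.node (.I .adp (.c 513 (.c 8786563 (.c 18753 .nil))) .nil) (.I .jac (.c 513 (.c 40 (.c 48 .nil))) (.r 8786563 .nil))) (.node (.I .com (.c 62886542410057 (.c 8 .nil)) (.b 18753 .nil)) (.I .ass (.c 8 (.c 537002121 (.c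 24 .nil))) (.b 18753 .nil))))))))

noncomputable def c2_320 : Tr := (.node (.node (.node (.node (.node (.node (.I .ass (.c 537002121 (.c 8 (.c 24 .nil))) (.b 18753 .nil)) (.I .com (.c 8 (.c 537002121 .nil)) (.r 24 (.b 18753 .nil)))) (.node (.I .adp (.c 537002121 (.c 4674 (.c 18753 .nil))) .nil) (.I .adp (.c 8 (.c 24 (.c 18753 .nil))) (.l 537002121 .nil)))) (.node (.node (.I .jac (.c 8 (.c 40 (.c 48 .nil))) (.r 24 (.l 537002121 .nil))) (.I .jac (.c 537002121 (.c 40 (.c 48 .nil))) (.r 4674 .nil))) (.node (.I .tdp (.c 8 (.c 24 (.c 537002121 (.c 18753 .nil)))) .nil) (.I .tdb (.c 2049 (.c 32 (.c 18753 (.c 8 .nil)))) (.l 24 .nil))))) (.node (.node (.node (.I .tdb (.c 0 (.c 16 (.c 18753 (.c 8 .nil)))) (.b 32 (.l 24 .nil))) (.I .tdb (.c 40 (.c 48 (.c 0 (.c 8 .nil)))) (.b 16 (.b 32 (.l 24 .nil))))) (.node (.I .adp (.c 2728451 (.c 8321 (.c 18753 .nil))) .nil) (.I .adp (.c 8 (.c 8321 (.c 18753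 .nil))) (.l 4609 .nil)))) (.node (.node (.I .jac (.c 8 (.c 40 (.c 48 .nil))) (.r 8321 (.l 4609 .nil))) (.I .adp (.c 8321 (.c 24 (.c 18753 .nil))) (.l 513 .nil))) (.node (.I .jac (.c 8321 (.c 40 (.c 48 .nil))) (.r 24 (.l 513 .nil))) (.I .adp (.c 8520195 (.c 4737 (.c 18753 .nil))) .nil))))) (.node (.node (.node (.node (.I .tdb (.c 40 (.c 48 (.c 0 (.c 8 .nil)))) (.b 32 (.l 4737 .nil))) (.I .tdb (.c 16 (.c 4609 (.c 18753 (.c 8 .nil)))) (.l 32 .nil))) (.node (.I .tdb (.c 0 (.c 24 (.c 18753 (.c 8 .nil)))) (.b 16 (.l 32 .nil))) (.I .tdb (.c 24 (.c 2049 (.c 18753 (.c 8 .nil)))) (.l 32 .nil)))) (.node (.node (.I .tdb (.c 0 (.c 16 (.c 18753 (.c 8 .nil)))) (.b 24 (.l 32 .nil))) (.I .com (.c 537002185 (.c 16 .nil)) (.l 8 (.b 18753 .nil)))) (.node (.I .ass (.c 8 (.c 537002185 (.c 16 .nil))) (.b 18753 .nil)) (.I .ass (.c 537002185 (.c 8 (.c 16 .nil))) (.b 18753 .nil))))) (.node (.node (.node (.I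 .com (.c 8 (.c 537002185 .nil)) (.r 16 (.b 18753 .nil))) (.I .adp (.c 537002185 (.c 2114 (.c 18753 .nil))) .nil)) (.node (.I .adp (.c 8 (.c 16 (.c 18753 .nil))) (.l 537002185 .nil)) (.I .jac (.c 8 (.c 40 (.c 48 .nil))) (.r 16 (.l 537002185 .nil))))) (.node (.node (.I .jac (.c 537002185 (.c 40 (.c 48 .nil))) (.r 2114 .nil)) (.I .tdp (.c 8 (.c 16 (.c 537002185 (.c 18753 .nil)))) .nil)) (.node (.I .tdb (.c 4609 (.c 32 (.c 18753 (.c 8 .nil)))) (.l 16 .nil)) (.I .tdb (.c 0 (.c 24 (.c 18753 (.c 8 .nil)))) (.b 32 (.l 16 .nil)))))))) (.node (.node (.node (.node (.node (.I .adp (.c 557571 (.c 8385 (.c 18753 .nil))) .nil) (.I .jac (.c 557571 (.c 40 (.c 48 .nil))) (.r 8385 .nil))) (.node (.I .adp (.c 8 (.c 8385 (.c 18753 .nil))) (.l 2049 .nil)) (.I .jac (.c 8 (.c 40 (.c 48 .nil))) (.r 8385 (.l 2049 .nil))))) (.node (.node (.I .jac (.c 0 (.c 43059267 (.c 40 .nil))) (.l 8385 .nil)) (.I .tdb (.c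 40 (.c 48 (.c 8 (.c 16 .nil)))) (.b 0 (.l 8385 .nil)))) (.node (.I .adp (.c 16 (.c 8385 (.c 18753 .nil))) (.l 513 .nil)) (.I .jac (.c 16 (.c 40 (.c 48 .nil))) (.r 8385 (.l 513 .nil)))))) (.node (.node (.node (.I .tdb (.c 0 (.c 8 (.c 16 (.c 18753 .nil)))) (.l 8385 .nil)) (.I .tdb (.c 40 (.c 48 (.c 0 (.c 16 .nil)))) (.b 8 (.l 8385 .nil)))) (.node (.I .adp (.c 8786435 (.c 16 (.c 8 .nil))) (.b 18753 .nil)) (.I .adp (.c 8786435 (.c 16 (.c 48 .nil))) (.b 12865 .nil)))) (.node (.node (.I .adp (.c 8786435 (.c 16 (.c 40 .nil))) (.b 18497 .nil)) (.I .tdp (.c 16 (.c 24 (.c 8193 (.c 8 .nil)))) (.b 18753 .nil))) (.node (.I .tdb (.c 0 (.c 32 (.c 8 (.c 16 .nil)))) (.l 24 (.b 18753 .nil))) (.I .com (.c 598976858557513 (.c 24 .nil)) (.b 18753 .nil)))))) (.node (.node (.node (.node (.I .tdb (.c 0 (.c 32 (.c 8 (.c 24 .nil)))) (.r 16 (.b 18753 .nil))) (.I .adp (.c 2803715 (.c 32 (.c 8 .nil))) (.b 18753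 .nil))) (.node (.I .adp (.c 2803715 (.c 32 (.c 48 .nil))) (.b 12865 .nil)) (.I .adp (.c 2803715 (.c 32 (.c 40 .nil))) (.b 18497 .nil)))) (.node (.node (.I .com (.c 62889413446729 (.c 32 .nil)) (.b 18753 .nil)) (.I .adp (.c 0 (.c 553912521 (.c 8 .nil))) (.b 18753 .nil))) (.node (.I .jac (.c 4673 (.c 16 (.c 32 .nil))) (.l 0 (.b 18753 .nil))) (.I .jac (.c 8 (.c 8321 (.c 24 .nil))) (.l 0 (.b 18753 .nil)))))) (.node (.node (.node (.I .jac (.c 8 (.c 16 (.c 32 .nil))) (.b 24 (.l 0 (.b 18753 .nil)))) (.I .adp (.c 0 (.c 244148670041477897 (.c 18753 .nil))) .nil)) (.node (.I .jac (.c 0 (.c 40 (.c 48 .nil))) (.r 244148670041477897 .nil)) (.I .adp (.c 0 (.c 2379903264864635721 (.c 18753 .nil))) .nil))) (.node (.node (.I .jac (.c 0 (.c 40 (.c 48 .nil))) (.r 2379903264864635721 .nil)) (.I .adp (.c 0 (.c 10206437931930441 (.c 18753 .nil))) .nil)) (.node (.I .jac (.c 0 (.c 40 (.c 48 .nil))) (.r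 10206437931930441 .nil)) (.I .adp (.c 0 (.c 244148312264838025 (.c 18753 .nil))) .nil)))))))

noncomputable def c2_321 : Tr := (.node (.node (.node (.node (.node (.node (.I .jac (.c 0 (.c 40 (.c 48 .nil))) (.r 244148312264838025 .nil)) (.I .adp (.c 0 (.c 553912521 (.c 48 .nil))) (.b 12865 .nil))) (.node (.I .adp (.c 0 (.c 553912521 (.c 40 .nil))) (.b 18497 .nil)) (.I .adp (.c 0 (.c 617629514823817 (.c 18753 .nil))) .nil))) (.node (.node (.I .jac (.c 0 (.c 40 (.c 48 .nil))) (.r 617629514823817 .nil)) (.I .adp (.c 0 (.c 617620517416137 (.c 18753 .nil))) .nil)) (.node (.I .jac (.c 0 (.c 40 (.c 48 .nil))) (.r 617620517416137 .nil)) (.I .jac (.c 14832759703961993 (.c 8 (.c 32 .nil))) (.l 24 .nil))))) (.node (.node (.node (.I .jac (.c 15246191640314249 (.c 8 (.c 16 .nil))) (.l 24 .nil)) (.I .tdb (.c 8 (.c 32 (.c 18753 (.c 0 .nil)))) (.l 4737 .nil))) (.node (.I .jac (.c 14832759703961993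 (.c 8 (.c 24 .nil))) (.l 32 .nil)) (.I .jac (.c 15038410136445321 (.c 8 (.c 32 .nil))) (.l 16 .nil)))) (.node (.node (.I .tdb (.c 4673 (.c 32 (.c 18753 (.c 0 .nil)))) (.l 16 .nil)) (.I .tdb (.c 8 (.c 24 (.c 18753 (.c 0 .nil)))) (.b 32 (.l 16 .nil)))) (.node (.I .tdb (.c 40 (.c 48 (.c 0 (.c 32 .nil)))) (.b 4673 (.l 16 .nil))) (.I .com (.c 43059203 (.c 8385 .nil)) (.b 12865 .nil)))))) (.node (.node (.node (.node (.I .com (.c 20891651 (.c 8385 .nil)) (.b 18497 .nil)) (.I .adp (.c 0 (.c 8 (.c 8786563 .nil))) (.b 18753 .nil))) (.node (.I .adp (.c 4737 (.c 32 (.c 513 .nil))) (.b 18753 .nil)) (.I .com (.c 2105609 (.c 4737 .nil)) (.b 18753 .nil)))) (.node (.node (.I .jac (.c 513 (.c 16 (.c 24 .nil))) (.r 32 (.b 18753 .nil))) (.I .adp (.c 16 (.c 8385 (.c 513 .nil))) (.b 18753 .nil))) (.node (.I .jac (.c 513 (.c 24 (.c 32 .nil))) (.l 16 (.b 18753 .nil))) (.I .adp (.c 16 (.c 8386 (.c 513 .nil)))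 (.b 18753 .nil))))) (.node (.node (.node (.I .tdb (.c 0 (.c 8 (.c 24 (.c 32 .nil)))) (.l 16 (.b 18753 .nil))) (.I .adp (.c 24 (.c 32 (.c 513 .nil))) (.l 16 (.b 18753 .nil)))) (.node (.I .com (.c 2105609 (.c 24 .nil)) (.l 16 (.b 18753 .nil))) (.I .com (.c 617611520073865 (.c 16 .nil)) (.b 18753 .nil)))) (.node (.node (.I .com (.c 617620517416009 (.c 16 .nil)) (.b 18753 .nil)) (.I .ass (.c 16 (.c 2105609 (.c 24 .nil))) (.b 18753 .nil))) (.node (.I .ass (.c 2105609 (.c 16 (.c 24 .nil))) (.b 18753 .nil)) (.I .com (.c 16 (.c 2105609 .nil)) (.r 24 (.b 18753 .nil)))))))) (.node (.node (.node (.node (.node (.I .ass (.c 16 (.c 2105545 (.c 32 .nil))) (.b 18753 .nil)) (.I .ass (.c 2105545 (.c 16 (.c 32 .nil))) (.b 18753 .nil))) (.node (.I .com (.c 16 (.c 2105545 .nil)) (.r 32 (.b 18753 .nil))) (.I .tdp (.c 24 (.c 32 (.c 513 (.c 16 .nil)))) (.b 18753 .nil)))) (.node (.node (.I .tdb (.c 0 (.c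 8 (.c 16 (.c 24 .nil)))) (.l 32 (.b 18753 .nil))) (.I .tdb (.c 0 (.c 8 (.c 16 (.c 32 .nil)))) (.r 24 (.b 18753 .nil)))) (.node (.I .adp (.c 0 (.c 8786499 (.c 16 .nil))) (.b 18753 .nil)) (.I .adp (.c 0 (.c 8786499 (.c 48 .nil))) (.b 12929 .nil))))) (.node (.node (.node (.I .adp (.c 0 (.c 8786499 (.c 40 .nil))) (.b 18561 .nil)) (.I .tdb (.c 0 (.c 32 (.c 16 (.c 24 .nil)))) (.l 8 (.b 18753 .nil)))) (.node (.I .adp (.c 24 (.c 32 (.c 33587273 .nil))) (.b 18753 .nil)) (.I .com (.c 9024839260612489 (.c 24 .nil)) (.b 18753 .nil)))) (.node (.node (.I .adp (.c 24 (.c 32 (.c 2105481 .nil))) (.b 18753 .nil)) (.I .com (.c 35464401931145 (.c 24 .nil)) (.b 18753 .nil))) (.node (.I .adp (.c 557571 (.c 32 (.c 24 .nil))) (.b 18753 .nil)) (.I .adp (.c 557571 (.c 32 (.c 48 .nil))) (.b 12993 .nil)))))) (.node (.node (.node (.node (.I .adp (.c 557571 (.c 32 (.c 40 .nil))) (.b 18625 .nil)) (.I .com (.c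 20685315 (.c 8321 .nil)) (.b 18625 .nil))) (.node (.I .adp (.c 8 (.c 24 (.c 537002121 .nil))) (.b 18753 .nil)) (.I .adp (.c 16 (.c 32 (.c 169943113 .nil))) (.b 18753 .nil)))) (.node (.node (.I .com (.c 231045293249046409 (.c 16 .nil)) (.b 18753 .nil)) (.I .adp (.c 16 (.c 32 (.c 2105545 .nil))) (.b 18753 .nil))) (.node (.I .jac (.c 537002057 (.c 16 (.c 24 .nil))) (.b 18753 .nil)) (.I .adp (.c 8 (.c 32 (.c 33587401 .nil))) (.b 18753 .nil))))) (.node (.node (.node (.I .adp (.c 4673 (.c 16 (.c 8193 .nil))) (.b 18753 .nil)) (.I .adp (.c 8 (.c 4737 (.c 8193 .nil))) (.b 18753 .nil))) (.node (.I .adp (.c 8 (.c 4738 (.c 8193 .nil))) (.b 18753 .nil)) (.I .adp (.c 16 (.c 24 (.c 8193 .nil))) (.l 8 (.b 18753 .nil))))) (.node (.node (.I .adp (.c 2803715 (.c 8 (.c 32 .nil))) (.b 18753 .nil)) (.I .adp (.c 2803715 (.c 8 (.c 40 .nil))) (.b 18689 .nil))) (.node (.I .adp (.c 2803715 (.c 8 (.c 48 .nil)))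 (.b 13057 .nil)) (.I .adp (.c 2728451 (.c 16 (.c 32 .nil))) (.b 18753 .nil))))))))

noncomputable def c2_322 : Tr := (.node (.node (.node (.node (.node (.node (.I .adp (.c 2728451 (.c 16 (.c 40 .nil))) (.b 18689 .nil)) (.I .adp (.c 2728451 (.c 16 (.c 48 .nil))) (.b 13057 .nil))) (.node (.I .com (.c 8520195 (.c 4737 .nil)) (.b 18753 .nil)) (.I .com (.c 74495752857414066684633992912213938588472532366455149610323977 (.c 40 .nil)) .nil))) (.node (.node (.I .com (.c 74495752857383188192067642759404067997861945286583407812424713 (.c 40 .nil)) .nil) (.I .com (.c 65899851849221766535477322693608796481189894185105252460466185 (.c 40 .nil)) .nil)) (.node (.I .jac (.c 598967998054665 (.c 8 (.c 48 .nil))) (.l 40 .nil)) (.I .jac (.c 617611520073929 (.c 8 (.c 48 .nil))) (.l 40 .nil))))) (.node (.node (.node (.I .jac (.c 8786435 (.c 18497 (.c 16 .nil))) (.l 40 .nil)) (.I .ass (.c 18497 (.c 8193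 (.c 179513673 .nil))) .nil)) (.node (.I .com (.c 18497 (.c 8193 .nil)) (.r 179513673 .nil)) (.I .jac (.c 617611520073929 (.c 8 (.c 40 .nil))) (.l 48 .nil)))) (.node (.node (.I .tdb (.c 4737 (.c 32 (.c 0 (.c 48 .nil)))) (.l 12865 .nil)) (.I .tdb (.c 16 (.c 24 (.c 48 (.c 0 .nil)))) (.b 32 (.l 12865 .nil)))) (.node (.I .com (.c 6441087201663406564458032368572175242955278347108046388233 (.c 40 .nil)) .nil) (.I .com (.c 8007571589450002292282724325700858547428831940242353978313 (.c 48 .nil)) .nil))))) (.node (.node (.node (.node (.I .com (.c 6441087201663406564458032368572175242955278347108046388169 (.c 48 .nil)) .nil) (.I .com (.c 8007571589547794518489790203408802826797159064059214778377 (.c 40 .nil)) .nil)) (.node (.I .jac (.c 2803715 (.c 8 (.c 32 .nil))) (.b 40 (.l 48 .nil))) (.I .com (.c 8007571589547794518489790203408802826797159064059214778313 (.c 48 .nil)) .nil))) (.node (.node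 (.I .com (.c 6441087201718780684179843667799284515155786017619154760649 (.c 48 .nil)) .nil) (.I .jac (.c 62886542410057 (.c 8 (.c 48 .nil))) (.l 40 .nil))) (.node (.I .ass (.c 18497 (.c 4609 (.c 553912649 .nil))) .nil) (.I .com (.c 18497 (.c 4609 .nil)) (.r 553912649 .nil))))) (.node (.node (.node (.I .tdb (.c 40 (.c 8321 (.c 0 (.c 48 .nil)))) (.l 4673 .nil)) (.I .tdb (.c 16 (.c 32 (.c 0 (.c 48 .nil)))) (.b 40 (.l 4673 .nil)))) (.node (.I .com (.c 19589859837137981227538315567085149375477233898290185 (.c 40 .nil)) .nil) (.I .com (.c 19589859837137981227538315567085149375477233898290121 (.c 48 .nil)) .nil))) (.node (.node (.I .com (.c 19589859839154401021947707118554695980545820090144713 (.c 48 .nil)) .nil) (.I .ass (.c 18497 (.c 2049 (.c 562466121 .nil))) .nil)) (.node (.I .com (.c 18497 (.c 2049 .nil)) (.r 562466121 .nil)) (.I .jac (.c 8520195 (.c 16 (.c 24 .nil))) (.b 40 (.l 48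 .nil)))))))) (.node (.node (.node (.node (.node (.I .jac (.c 3423058053194057 (.c 16 (.c 24 .nil))) (.l 48 .nil)) (.I .jac (.c 14629225721520393 (.c 16 (.c 32 .nil))) (.l 40 .nil))) (.node (.I .jac (.c 3423058053193993 (.c 16 (.c 32 .nil))) (.l 48 .nil)) (.I .jac (.c 59555558875465 (.c 16 (.c 40 .nil))) (.l 48 .nil)))) (.node (.node (.I .com (.c 8321 (.c 24 .nil)) (.b 2737112393 (.l 0 .nil))) (.I .adp (.c 24 (.c 32 (.c 16 .nil))) (.b 2737112393 (.l 0 .nil)))) (.node (.I .jac (.c 0 (.c 16 (.c 48 .nil))) (.r 12993 (.l 8257 .nil))) (.I .jac (.c 0 (.c 16 (.c 48 .nil))) (.r 13057 (.l 4673 .nil)))))) (.node (.node (.node (.I .jac (.c 0 (.c 16 (.c 32 .nil))) (.r 12993 (.l 18497 .nil))) (.I .jac (.c 0 (.c 16 (.c 24 .nil))) (.r 13057 (.l 18497 .nil)))) (.node (.I .jac (.c 0 (.c 24 (.c 48 .nil))) (.r 13057 (.l 2113 .nil))) (.I .adp (.c 16 (.c 24 (.c 32 .nil))) (.b 2737112393 (.l 0 .nil)))))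 (.node (.node (.I .com (.c 2737112329 (.c 24 .nil)) (.b 12929 (.l 0 .nil))) (.I .com (.c 8007571589580391927225677909143364029148670052390380474377 (.c 32 .nil)) .nil)) (.node (.I .com (.c 6441087201746467744040883236123901534216340861404261331977 (.c 32 .nil)) .nil) (.I .jac (.c 62886542410121 (.c 8 (.c 48 .nil))) (.l 32 .nil)))))) (.node (.node (.node (.node (.I .jac (.c 2803715 (.c 18497 (.c 40 .nil))) (.l 32 .nil)) (.I .jac (.c 21099011 (.c 18497 (.c 16 .nil))) (.l 32 .nil))) (.node (.I .ass (.c 18497 (.c 4609 (.c 1337272585 .nil))) .nil) (.I .com (.c 18497 (.c 4609 .nil)) (.r 1337272585 .nil)))) (.node (.node (.I .ass (.c 18497 (.c 8193 (.c 1337272521 .nil))) .nil) (.I .com (.c 18497 (.c 8193 .nil)) (.r 1337272521 .nil))) (.node (.I .jac (.c 8257 (.c 16 (.c 48 .nil))) (.b 12993 (.l 0 .nil))) (.I .jac (.c 18497 (.c 16 (.c 32 .nil))) (.b 12993 (.l 0 .nil)))))) (.node (.node (.node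 (.I .com (.c 70295418264021313545660038924700774359065206181747927933821563913 (.c 32 .nil)) .nil) (.I .com (.c 70295418264016056367196823099296142163752309344533784109582587913 (.c 32 .nil)) .nil)) (.node (.I .jac (.c 14629225721520521 (.c 16 (.c 24 .nil))) (.l 32 .nil)) (.I .jac (.c 14629225721520393 (.c 16 (.c 40 .nil))) (.l 32 .nil)))) (.node (.node (.I .jac (.c 59555558875529 (.c 16 (.c 48 .nil))) (.l 32 .nil)) (.I .jac (.c 3423058053193993 (.c 16 (.c 48 .nil))) (.l 32 .nil))) (.node (.I .jac (.c 20685315 (.c 18561 (.c 24 .nil))) (.l 32 .nil)) (.I .adp (.c 16 (.c 24 (.c 40 .nil))) (.b 2737112329 (.l 0 .nil)))))))))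

noncomputable def c2_323 : Tr := (.node (.node (.node (.node (.node (.node (.I .jac (.c 4673 (.c 16 (.c 48 .nil))) (.b 13057 (.l 0 .nil))) (.I .jac (.c 18497 (.c 16 (.c 24 .nil))) (.b 13057 (.l 0 .nil)))) (.node (.I .tdb (.c 16 (.c 48 (.c 8 (.c 24 .nil)))) (.b 13057 (.l 0 .nil))) (.I .tdb (.c 24 (.c 48 (.c 8 (.c 16 .nil)))) (.b 13057 (.l 0 .nil))))) (.node (.node (.I .com (.c 2737112265 (.c 16 .nil)) (.b 13057 (.l 0 .nil))) (.I .com (.c 76104792608246240076934339164941802391064041715777732377759666185 (.c 24 .nil)) .nil)) (.node (.I .jac (.c 8652803 (.c 18497 (.c 40 .nil))) (.l 24 .nil)) (.I .jac (.c 3491688652046665 (.c 8 (.c 48 .nil))) (.l 24 .nil))))) (.node (.node (.node (.I .tdb (.c 8 (.c 48 (.c 16 (.c 24 .nil)))) (.b 13057 (.l 0 .nil))) (.I .adp (.c 8 (.c 18625 (.c 40 .nil))) (.b 8321 (.l 0 .nil)))) (.node (.I .adp (.c 8 (.c 18625 (.c 32 .nil))) (.b 12929 (.l 0 .nil))) (.I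 .adp (.c 8 (.c 18625 (.c 16 .nil))) (.b 13057 (.l 0 .nil))))) (.node (.node (.I .jac (.c 16 (.c 24 (.c 48 .nil))) (.l 8 (.b 13057 (.l 0 .nil)))) (.I .jac (.c 14629225721520521 (.c 16 (.c 32 .nil))) (.l 24 .nil))) (.node (.I .com (.c 58240646186293806597287516723534686058996650485499590919533577 (.c 24 .nil)) .nil) (.I .jac (.c 14629225721520457 (.c 16 (.c 40 .nil))) (.l 24 .nil)))))) (.node (.node (.node (.node (.I .jac (.c 580749782704521 (.c 16 (.c 48 .nil))) (.l 24 .nil)) (.I .adp (.c 8 (.c 18561 (.c 40 .nil))) (.b 8385 (.l 0 .nil)))) (.node (.I .adp (.c 8 (.c 18561 (.c 32 .nil))) (.b 12993 (.l 0 .nil))) (.I .adp (.c 8 (.c 18561 (.c 24 .nil))) (.b 13057 (.l 0 .nil))))) (.node (.node (.I .adp (.c 24 (.c 32 (.c 40 .nil))) (.b 2737112201 (.l 0 .nil))) (.I .jac (.c 0 (.c 18561 (.c 40 .nil))) (.r 8385 (.l 8 .nil)))) (.node (.I .jac (.c 0 (.c 16 (.c 48 .nil))) (.b 40 (.r 8385 (.l 8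 .nil)))) (.I .jac (.c 0 (.c 18561 (.c 32 .nil))) (.r 12993 (.l 8 .nil)))))) (.node (.node (.node (.I .jac (.c 0 (.c 16 (.c 48 .nil))) (.b 32 (.r 12993 (.l 8 .nil)))) (.I .adp (.c 24 (.c 32 (.c 18497 .nil))) (.b 12929 (.l 0 .nil)))) (.node (.I .adp (.c 16 (.c 24 (.c 18497 .nil))) (.b 13057 (.l 0 .nil))) (.I .jac (.c 12865 (.c 16 (.c 32 .nil))) (.b 18625 (.l 0 .nil))))) (.node (.node (.I .jac (.c 8 (.c 4737 (.c 40 .nil))) (.b 18689 (.l 0 .nil))) (.I .jac (.c 8 (.c 16 (.c 24 .nil))) (.b 40 (.b 18689 (.l 0 .nil))))) (.node (.I .jac (.c 8257 (.c 16 (.c 24 .nil))) (.b 18753 (.l 0 .nil))) (.I .jac (.c 8 (.c 4737 (.c 32 .nil))) (.b 18753 (.l 0 .nil)))))))) (.node (.node (.node (.node (.node (.I .jac (.c 8 (.c 16 (.c 24 .nil))) (.b 32 (.b 18753 (.l 0 .nil)))) (.I .jac (.c 9025011228269449 (.c 24 (.c 40 .nil))) (.b 8 .nil))) (.node (.I .jac (.c 33587593 (.c 24 (.c 32 .nil))) (.b 40 (.b 8 .nil)))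 (.I .jac (.c 9024976834606985 (.c 24 (.c 48 .nil))) (.b 8 .nil)))) (.node (.node (.I .jac (.c 33587529 (.c 18625 (.c 32 .nil))) (.b 8 .nil)) (.I .jac (.c 33587529 (.c 24 (.c 48 .nil))) (.b 32 (.b 8 .nil)))) (.node (.I .jac (.c 2049 (.c 24 (.c 40 .nil))) (.b 48 (.b 32 (.b 8 .nil)))) (.I .jac (.c 2049 (.c 24 (.c 32 .nil))) (.b 48 (.b 40 (.b 8 .nil))))))) (.node (.node (.node (.I .jac (.c 2049 (.c 24 (.c 40 .nil))) (.b 32 (.b 48 (.b 8 .nil)))) (.I .jac (.c 231045989336561673 (.c 16 (.c 32 .nil))) (.b 8 .nil))) (.node (.I .jac (.c 231045815314584585 (.c 16 (.c 40 .nil))) (.b 8 .nil)) (.I .jac (.c 231045989336561545 (.c 16 (.c 48 .nil))) (.b 8 .nil)))) (.node (.node (.I .jac (.c 4609 (.c 16 (.c 40 .nil))) (.b 48 (.b 32 (.b 8 .nil)))) (.I .jac (.c 4609 (.c 18561 (.c 32 .nil))) (.b 40 (.b 8 .nil)))) (.node (.I .jac (.c 4609 (.c 16 (.c 48 .nil))) (.b 32 (.b 40 (.b 8 .nil)))) (.I .jac (.c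 4609 (.c 8321 (.c 48 .nil))) (.b 40 (.b 8 .nil))))))) (.node (.node (.node (.node (.I .jac (.c 4609 (.c 16 (.c 40 .nil))) (.b 32 (.b 48 (.b 8 .nil)))) (.I .jac (.c 13748198893136698249 (.c 16 (.c 24 .nil))) (.b 8 .nil))) (.node (.I .jac (.c 59109071234951844809 (.c 16 (.c 24 .nil))) (.b 8 .nil)) (.I .jac (.c 2306972423229201353 (.c 16 (.c 24 .nil))) (.b 8 .nil)))) (.node (.node (.I .jac (.c 13748196208362034185 (.c 16 (.c 24 .nil))) (.b 8 .nil)) (.I .jac (.c 9025011228269513 (.c 24 (.c 32 .nil))) (.b 8 .nil))) (.node (.I .jac (.c 9024942441010121 (.c 24 (.c 48 .nil))) (.b 8 .nil)) (.I .jac (.c 33587465 (.c 18625 (.c 40 .nil))) (.b 8 .nil))))) (.node (.node (.node (.I .jac (.c 231045815314584521 (.c 16 (.c 48 .nil))) (.b 8 .nil)) (.I .com (.c 2718204233 (.c 32 .nil)) (.b 4737 (.l 8 .nil)))) (.node (.I .com (.c 1310925193 (.c 32 .nil)) (.b 4737 (.l 8 .nil))) (.I .com (.c 15246281046235209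 (.c 12993 .nil)) (.b 8 .nil)))) (.node (.node (.I .adp (.c 15246281046235209 (.c 12993 (.c 8 .nil))) .nil) (.I .com (.c 18497 (.c 40 .nil)) (.l 9024942441009993 .nil))) (.node (.I .com (.c 18497 (.c 40 .nil)) (.l 9024908047478665 .nil)) (.I .tdb (.c 0 (.c 24 (.c 32 (.c 40 .nil)))) (.b 18561 (.b 8 .nil)))))))))

noncomputable def c2_324 : Tr := (.node (.node (.node (.node (.node (.node (.I .com (.c 18497 (.c 40 .nil)) (.l 231045815314584329 .nil)) (.I .com (.c 18497 (.c 40 .nil)) (.l 231045467270826889 .nil))) (.node (.I .tdb (.c 0 (.c 16 (.c 32 (.c 48 .nil)))) (.b 12993 (.l 8 .nil))) (.I .tdb (.c 0 (.c 24 (.c 32 (.c 40 .nil)))) (.b 18561 (.l 8 .nil))))) (.node (.node (.I .tdb (.c 0 (.c 24 (.c 40 (.c 48 .nil)))) (.b 8321 (.l 8 .nil))) (.I .tdb (.c 0 (.c 32 (.c 40 (.c 48 .nil)))) (.b 4737 (.l 8 .nil)))) (.node (.I .jac (.c 2306972423229201225 (.c 16 (.c 40 .nil))) (.b 8 .nil)) (.I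 .jac (.c 537002313 (.c 16 (.c 48 .nil))) (.b 24 (.b 8 .nil)))))) (.node (.node (.node (.I .jac (.c 537002313 (.c 16 (.c 24 .nil))) (.b 48 (.b 8 .nil))) (.I .jac (.c 537002185 (.c 16 (.c 48 .nil))) (.b 40 (.b 8 .nil)))) (.node (.I .jac (.c 8193 (.c 18561 (.c 24 .nil))) (.b 40 (.b 8 .nil))) (.I .jac (.c 8193 (.c 16 (.c 24 .nil))) (.b 48 (.b 40 (.b 8 .nil)))))) (.node (.node (.I .jac (.c 8193 (.c 16 (.c 40 .nil))) (.b 24 (.b 48 (.b 8 .nil)))) (.I .jac (.c 59109068451510808521 (.c 16 (.c 32 .nil))) (.b 8 .nil))) (.node (.I .jac (.c 537002377 (.c 16 (.c 40 .nil))) (.b 24 (.b 8 .nil))) (.I .jac (.c 8193 (.c 16 (.c 48 .nil))) (.b 40 (.b 24 (.b 8 .nil)))))))) (.node (.node (.node (.node (.I .jac (.c 8193 (.c 4737 (.c 40 .nil))) (.b 48 (.b 8 .nil))) (.I .jac (.c 8193 (.c 16 (.c 24 .nil))) (.b 40 (.b 48 (.b 8 .nil))))) (.node (.I .jac (.c 0 (.c 24 (.c 48 .nil))) (.r 40 (.b 8321 (.l 8 .nil))))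 (.I .com (.c 2718204233 (.c 24 .nil)) (.b 8321 (.l 8 .nil))))) (.node (.node (.I .jac (.c 15038410136445129 (.c 32 (.c 40 .nil))) (.b 8 .nil)) (.I .jac (.c 3561346121425097 (.c 32 (.c 48 .nil))) (.b 8 .nil))) (.node (.I .tdb (.c 0 (.c 32 (.c 24 (.c 40 .nil)))) (.b 18561 (.b 8 .nil))) (.I .com (.c 15456298926182473 (.c 4737 .nil)) (.b 8 .nil))))) (.node (.node (.node (.I .adp (.c 15456298926182473 (.c 4737 (.c 8 .nil))) .nil) (.I .com (.c 18497 (.c 24 .nil)) (.l 2306971873338799881 .nil))) (.node (.I .com (.c 18497 (.c 24 .nil)) (.l 13748193523587632009 .nil)) (.I .tdb (.c 0 (.c 16 (.c 48 (.c 24 .nil)))) (.b 13057 (.l 8 .nil))))) (.node (.node (.I .jac (.c 59109065668069837769 (.c 24 (.c 32 .nil))) (.b 8 .nil)) (.I .jac (.c 13748193523587632137 (.c 24 (.c 32 .nil))) (.b 8 .nil))) (.node (.I .jac (.c 18433 (.c 16 (.c 40 .nil))) (.b 8385 (.l 8 .nil))) (.I .jac (.c 0 (.c 16 (.c 48 .nil)))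 (.r 40 (.b 8385 (.l 8 .nil))))))))) (.node (.node (.node (.node (.node (.I .com (.c 1310925193 (.c 16 .nil)) (.b 8385 (.l 8 .nil))) (.I .tdb (.c 0 (.c 24 (.c 40 (.c 16 .nil)))) (.b 18689 (.b 8 .nil)))) (.node (.I .jac (.c 3632084291164233 (.c 24 (.c 48 .nil))) (.b 8 .nil)) (.I .tdb (.c 0 (.c 32 (.c 16 (.c 40 .nil)))) (.b 18625 (.b 8 .nil))))) (.node (.node (.I .tdb (.c 0 (.c 32 (.c 16 (.c 48 .nil)))) (.b 12993 (.b 8 .nil))) (.I .tdb (.c 0 (.c 40 (.c 16 (.c 48 .nil)))) (.b 8385 (.b 8 .nil)))) (.node (.I .tdb (.c 0 (.c 40 (.c 16 (.c 48 .nil)))) (.b 8385 (.l 8 .nil))) (.I .adp (.c 18433 (.c 40 (.c 32 .nil))) (.b 4737 (.l 8 .nil)))))) (.node (.node (.node (.I .adp (.c 18433 (.c 40 (.c 24 .nil))) (.b 8321 (.l 8 .nil))) (.I .adp (.c 18433 (.c 40 (.c 16 .nil))) (.b 8385 (.l 8 .nil)))) (.node (.I .jac (.c 2718204233 (.c 16 (.c 24 .nil))) (.b 32 (.b 8 .nil))) (.I .jac (.c 1310925193 (.c 16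 (.c 32 .nil))) (.b 24 (.b 8 .nil))))) (.node (.node (.I .jac (.c 1310925193 (.c 4737 (.c 32 .nil))) (.b 8 .nil)) (.I .jac (.c 1310925193 (.c 16 (.c 24 .nil))) (.b 32 (.b 8 .nil)))) (.node (.I .adp (.c 4609 (.c 32 (.c 2756086089 .nil))) (.l 8 .nil)) (.I .com (.c 8321 (.c 24 .nil)) (.b 2718204233 (.l 8 .nil))))))) (.node (.node (.node (.node (.I .adp (.c 24 (.c 32 (.c 16 .nil))) (.b 2718204233 (.l 8 .nil))) (.I .com (.c 8321 (.c 24 .nil)) (.b 1310925193 (.l 8 .nil)))) (.node (.I .adp (.c 24 (.c 32 (.c 16 .nil))) (.b 1310925193 (.l 8 .nil))) (.I .tdb (.c 0 (.c 40 (.c 32 (.c 48 .nil)))) (.l 4737 (.b 8 .nil))))) (.node (.node (.I .com (.c 15246191640314249 (.c 4737 .nil)) (.b 8 .nil)) (.I .adp (.c 15246191640314249 (.c 4737 (.c 8 .nil))) .nil)) (.node (.I .jac (.c 537002121 (.c 24 (.c 48 .nil))) (.b 40 (.b 8 .nil))) (.I .jac (.c 537002313 (.c 24 (.c 48 .nil))) (.r 16 (.l 8 .nil))))))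 (.node (.node (.node (.I .adp (.c 2049 (.c 32 (.c 2775125321 .nil))) (.l 8 .nil)) (.I .com (.c 598967998054857 (.c 12993 .nil)) (.b 8 .nil))) (.node (.I .adp (.c 598967998054857 (.c 12993 (.c 8 .nil))) .nil) (.I .adp (.c 14832759703961993 (.c 8385 (.c 8 .nil))) .nil))) (.node (.node (.I .adp (.c 3491688652046793 (.c 8385 (.c 8 .nil))) .nil) (.I .jac (.c 16 (.c 24 (.c 48 .nil))) (.l 537002313 (.l 8 .nil)))) (.node (.I .adp (.c 0 (.c 32 (.c 16 .nil))) (.b 2775125321 (.l 8 .nil))) (.I .adp (.c 0 (.c 8321 (.c 2775125321 .nil))) (.l 8 .nil))))))))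

noncomputable def c2_325 : Tr := (.node (.node (.node (.node (.node (.node (.I .jac (.c 12801 (.c 24 (.c 48 .nil))) (.r 8321 (.l 8 .nil))) (.I .jac (.c 0 (.c 18625 (.c 40 .nil))) (.r 8321 (.l 8 .nil)))) (.node (.I .jac (.c 0 (.c 24 (.c 48 .nil))) (.b 40 (.r 8321 (.l 8 .nil)))) (.I .adp (.c 0 (.c 32 (.c 24 .nil))) (.b 2756086089 (.l 8 .nil))))) (.node (.node (.I .adp (.c 0 (.c 8385 (.c 2756086089 .nil))) (.l 8 .nil)) (.I .jac (.c 231045467270827017 (.c 32 (.c 40 .nil))) (.b 8 .nil))) (.node (.I .jac (.c 9024908047478793 (.c 32 (.c 40 .nil))) (.b 8 .nil)) (.I .jac (.c 231045467270826953 (.c 32 (.c 48 .nil))) (.b 8 .nil))))) (.node (.node (.node (.I .jac (.c 169943177 (.c 32 (.c 48 .nil))) (.b 40 (.b 8 .nil))) (.I .jac (.c 169943177 (.c 32 (.c 40 .nil))) (.b 48 (.b 8 .nil)))) (.node (.I .jac (.c 33587401 (.c 32 (.c 40 .nil))) (.b 48 (.b 8 .nil))) (.I .jac (.c 62886542410185 (.c 32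 (.c 40 .nil))) (.b 8 .nil)))) (.node (.node (.I .jac (.c 169943369 (.c 32 (.c 48 .nil))) (.r 16 (.l 8 .nil))) (.I .jac (.c 33587529 (.c 32 (.c 48 .nil))) (.r 24 (.l 8 .nil)))) (.node (.I .jac (.c 16 (.c 32 (.c 48 .nil))) (.l 169943369 (.l 8 .nil))) (.I .jac (.c 24 (.c 32 (.c 48 .nil))) (.l 33587529 (.l 8 .nil))))))) (.node (.node (.node (.node (.I .jac (.c 12801 (.c 32 (.c 48 .nil))) (.r 4737 (.l 8 .nil))) (.I .jac (.c 1310925065 (.c 4737 (.c 48 .nil))) (.b 8 .nil))) (.node (.I .jac (.c 12801 (.c 8321 (.c 48 .nil))) (.b 24 (.b 8 .nil))) (.I .jac (.c 12801 (.c 16 (.c 32 .nil))) (.b 48 (.b 24 (.b 8 .nil)))))) (.node (.node (.I .jac (.c 12801 (.c 16 (.c 48 .nil))) (.b 24 (.b 32 (.b 8 .nil)))) (.I .jac (.c 12801 (.c 16 (.c 24 .nil))) (.b 48 (.b 32 (.b 8 .nil))))) (.node (.I .jac (.c 12801 (.c 16 (.c 32 .nil))) (.b 24 (.b 48 (.b 8 .nil)))) (.I .jac (.c 59109068451510808457 (.c 16 (.c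 40 .nil))) (.b 8 .nil))))) (.node (.node (.node (.I .jac (.c 12801 (.c 16 (.c 48 .nil))) (.b 32 (.b 24 (.b 8 .nil)))) (.I .jac (.c 12801 (.c 4737 (.c 32 .nil))) (.b 48 (.b 8 .nil)))) (.node (.I .jac (.c 59109071234951844681 (.c 16 (.c 40 .nil))) (.b 8 .nil)) (.I .jac (.c 0 (.c 24 (.c 48 .nil))) (.r 32 (.b 12929 (.l 8 .nil)))))) (.node (.node (.I .com (.c 537002377 (.c 24 .nil)) (.b 12929 (.l 8 .nil))) (.I .com (.c 2718204169 (.c 24 .nil)) (.b 12929 (.l 8 .nil)))) (.node (.I .adp (.c 1310925065 (.c 43356803 (.c 8 .nil))) .nil) (.I .tdb (.c 0 (.c 16 (.c 32 (.c 24 .nil)))) (.b 18753 (.l 8 .nil)))))))) (.node (.node (.node (.node (.node (.I .jac (.c 2306972423229201161 (.c 24 (.c 40 .nil))) (.b 8 .nil)) (.I .jac (.c 59109065668069837705 (.c 24 (.c 40 .nil))) (.b 8 .nil))) (.node (.I .jac (.c 59109071234951844617 (.c 24 (.c 40 .nil))) (.b 8 .nil)) (.I .jac (.c 0 (.c 16 (.c 48 .nil)))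 (.r 32 (.b 12993 (.l 8 .nil)))))) (.node (.node (.I .tdb (.c 32 (.c 48 (.c 0 (.c 16 .nil)))) (.b 12993 (.l 8 .nil))) (.I .com (.c 537002377 (.c 16 .nil)) (.b 12993 (.l 8 .nil)))) (.node (.I .tdb (.c 0 (.c 40 (.c 16 (.c 32 .nil)))) (.b 18625 (.b 8 .nil))) (.I .adp (.c 1310924937 (.c 43655363 (.c 8 .nil))) .nil)))) (.node (.node (.node (.I .tdb (.c 0 (.c 24 (.c 32 (.c 16 .nil)))) (.b 18753 (.l 8 .nil))) (.I .jac (.c 2718204169 (.c 16 (.c 40 .nil))) (.b 24 (.b 8 .nil)))) (.node (.I .adp (.c 4609 (.c 40 (.c 2756086025 .nil))) (.l 8 .nil)) (.I .adp (.c 24 (.c 40 (.c 16 .nil))) (.b 2718204169 (.l 8 .nil))))) (.node (.node (.I .com (.c 12929 (.c 24 .nil)) (.b 2718204169 (.l 8 .nil))) (.I .adp (.c 24 (.c 40 (.c 16 .nil))) (.b 537002377 (.l 8 .nil)))) (.node (.I .com (.c 12929 (.c 24 .nil)) (.b 537002377 (.l 8 .nil))) (.I .adp (.c 32 (.c 48 (.c 16 .nil))) (.b 1310925001 (.l 8 .nil)))))))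 (.node (.node (.node (.node (.I .com (.c 18561 (.c 32 .nil)) (.b 1310925001 (.l 8 .nil))) (.I .jac (.c 13748193523587632009 (.c 24 (.c 48 .nil))) (.b 8 .nil))) (.node (.I .adp (.c 2049 (.c 40 (.c 2775125257 .nil))) (.l 8 .nil)) (.I .adp (.c 16 (.c 40 (.c 24 .nil))) (.b 537002377 (.l 8 .nil))))) (.node (.node (.I .adp (.c 32 (.c 48 (.c 24 .nil))) (.b 1310924937 (.l 8 .nil))) (.I .com (.c 18625 (.c 32 .nil)) (.b 1310924937 (.l 8 .nil)))) (.node (.I .com (.c 3491688652046793 (.c 8385 .nil)) (.b 8 .nil)) (.I .adp (.c 0 (.c 40 (.c 16 .nil))) (.b 2775125257 (.l 8 .nil)))))) (.node (.node (.node (.I .adp (.c 0 (.c 12929 (.c 2775125257 .nil))) (.l 8 .nil)) (.I .jac (.c 8193 (.c 24 (.c 48 .nil))) (.r 12929 (.l 8 .nil)))) (.node (.I .jac (.c 0 (.c 18625 (.c 32 .nil))) (.r 12929 (.l 8 .nil))) (.I .jac (.c 0 (.c 24 (.c 48 .nil))) (.b 32 (.r 12929 (.l 8 .nil)))))) (.node (.node (.I .adp (.c 0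 (.c 40 (.c 24 .nil))) (.b 2756086025 (.l 8 .nil))) (.I .adp (.c 0 (.c 12993 (.c 2756086025 .nil))) (.l 8 .nil))) (.node (.I .adp (.c 32 (.c 48 (.c 12801 .nil))) (.b 4737 (.l 8 .nil))) (.I .adp (.c 16 (.c 24 (.c 40 .nil))) (.b 537002377 (.l 8 .nil)))))))))

noncomputable def c2_326 : Tr := (.node (.node (.node (.node (.node (.node (.I .jac (.c 16 (.c 40 (.c 48 .nil))) (.l 169943305 (.l 8 .nil))) (.I .jac (.c 24 (.c 40 (.c 48 .nil))) (.l 33587465 (.l 8 .nil)))) (.node (.I .jac (.c 59109065668069837641 (.c 32 (.c 40 .nil))) (.b 8 .nil)) (.I .jac (.c 59109068451510808329 (.c 32 (.c 40 .nil))) (.b 8 .nil)))) (.node (.node (.I .tdb (.c 16 (.c 48 (.c 0 (.c 24 .nil)))) (.b 13057 (.l 8 .nil))) (.I .tdb (.c 24 (.c 48 (.c 0 (.c 16 .nil)))) (.b 13057 (.l 8 .nil)))) (.node (.I .com (.c 169943433 (.c 16 .nil)) (.b 13057 (.l 8 .nil))) (.I .tdb (.c 0 (.c 32 (.c 16 (.c 24 .nil)))) (.b 18753 (.b 8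 .nil)))))) (.node (.node (.node (.I .tdb (.c 0 (.c 48 (.c 16 (.c 24 .nil)))) (.b 13057 (.b 8 .nil))) (.I .tdb (.c 0 (.c 48 (.c 16 (.c 24 .nil)))) (.b 13057 (.l 8 .nil)))) (.node (.I .adp (.c 0 (.c 18625 (.c 40 .nil))) (.b 8321 (.l 8 .nil))) (.I .adp (.c 0 (.c 18625 (.c 32 .nil))) (.b 12929 (.l 8 .nil))))) (.node (.node (.I .adp (.c 0 (.c 18625 (.c 16 .nil))) (.b 13057 (.l 8 .nil))) (.I .jac (.c 16 (.c 24 (.c 48 .nil))) (.l 0 (.b 13057 (.l 8 .nil))))) (.node (.I .jac (.c 2718204105 (.c 16 (.c 40 .nil))) (.b 32 (.b 8 .nil))) (.I .jac (.c 2718204105 (.c 16 (.c 32 .nil))) (.b 40 (.b 8 .nil))))))) (.node (.node (.node (.node (.I .adp (.c 12801 (.c 32 (.c 179513737 .nil))) (.l 8 .nil)) (.I .adp (.c 8193 (.c 40 (.c 179513737 .nil))) (.l 8 .nil))) (.node (.I .adp (.c 32 (.c 40 (.c 16 .nil))) (.b 2718204105 (.l 8 .nil))) (.I .com (.c 12929 (.c 32 .nil)) (.b 2718204105 (.l 8 .nil))))) (.node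 (.node (.I .adp (.c 24 (.c 48 (.c 16 .nil))) (.b 537002313 (.l 8 .nil))) (.I .com (.c 18561 (.c 24 .nil)) (.b 537002313 (.l 8 .nil)))) (.node (.I .adp (.c 16 (.c 40 (.c 32 .nil))) (.b 169943433 (.l 8 .nil))) (.I .adp (.c 24 (.c 48 (.c 32 .nil))) (.b 33587529 (.l 8 .nil)))))) (.node (.node (.node (.I .adp (.c 0 (.c 40 (.c 18625 .nil))) (.b 8321 (.l 8 .nil))) (.I .jac (.c 16 (.c 24 (.c 48 .nil))) (.b 1311129889 (.l 8 .nil)))) (.node (.I .adp (.c 0 (.c 40 (.c 32 .nil))) (.b 179513737 (.l 8 .nil))) (.I .adp (.c 16 (.c 32 (.c 40 .nil))) (.b 169943433 (.l 8 .nil))))) (.node (.node (.I .adp (.c 24 (.c 48 (.c 40 .nil))) (.b 537002121 (.l 8 .nil))) (.I .adp (.c 24 (.c 48 (.c 40 .nil))) (.b 33587465 (.l 8 .nil)))) (.node (.I .jac (.c 16 (.c 40 (.c 48 .nil))) (.l 537002185 (.l 8 .nil))) (.I .jac (.c 32 (.c 40 (.c 48 .nil))) (.l 33587401 (.l 8 .nil)))))))) (.node (.node (.node (.node (.node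 (.I .adp (.c 0 (.c 32 (.c 18625 .nil))) (.b 12929 (.l 8 .nil))) (.I .jac (.c 16 (.c 24 (.c 48 .nil))) (.b 537133409 (.l 8 .nil)))) (.node (.I .adp (.c 0 (.c 32 (.c 40 .nil))) (.b 179513737 (.l 8 .nil))) (.I .adp (.c 24 (.c 48 (.c 8193 .nil))) (.b 12929 (.l 8 .nil))))) (.node (.node (.I .jac (.c 2049 (.c 24 (.c 48 .nil))) (.b 13057 (.b 8 .nil))) (.I .adp (.c 24 (.c 48 (.c 2049 .nil))) (.b 13057 (.l 8 .nil)))) (.node (.I .com (.c 33587593 (.c 24 .nil)) (.b 13057 (.l 8 .nil))) (.I .adp (.c 0 (.c 18561 (.c 40 .nil))) (.b 8385 (.l 8 .nil)))))) (.node (.node (.node (.I .adp (.c 0 (.c 18561 (.c 32 .nil))) (.b 12993 (.l 8 .nil))) (.I .adp (.c 0 (.c 18561 (.c 24 .nil))) (.b 13057 (.l 8 .nil)))) (.node (.I .jac (.c 2718204041 (.c 24 (.c 40 .nil))) (.b 32 (.b 8 .nil))) (.I .jac (.c 2718204041 (.c 24 (.c 32 .nil))) (.b 40 (.b 8 .nil))))) (.node (.node (.I .adp (.c 32 (.c 40 (.c 24 .nil))) (.b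 2718204041 (.l 8 .nil))) (.I .com (.c 12993 (.c 32 .nil)) (.b 2718204041 (.l 8 .nil)))) (.node (.I .adp (.c 16 (.c 48 (.c 24 .nil))) (.b 1310925065 (.l 8 .nil))) (.I .adp (.c 16 (.c 48 (.c 24 .nil))) (.b 537002313 (.l 8 .nil))))))) (.node (.node (.node (.node (.I .tdb (.c 0 (.c 48 (.c 16 (.c 32 .nil)))) (.l 12993 (.b 8 .nil))) (.I .com (.c 14832759703961993 (.c 8385 .nil)) (.b 8 .nil))) (.node (.I .tdb (.c 0 (.c 48 (.c 16 (.c 40 .nil)))) (.l 8385 (.b 8 .nil))) (.I .adp (.c 24 (.c 40 (.c 32 .nil))) (.b 2718204041 (.l 8 .nil))))) (.node (.node (.I .adp (.c 24 (.c 40 (.c 32 .nil))) (.b 33587593 (.l 8 .nil))) (.I .adp (.c 16 (.c 48 (.c 32 .nil))) (.b 1310925001 (.l 8 .nil)))) (.node (.I .adp (.c 16 (.c 48 (.c 32 .nil))) (.b 169943369 (.l 8 .nil))) (.I .jac (.c 24 (.c 32 (.c 48 .nil))) (.l 1310924937 (.l 8 .nil)))))) (.node (.node (.node (.I .adp (.c 0 (.c 40 (.c 18561 .nil))) (.b 8385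 (.l 8 .nil))) (.I .adp (.c 16 (.c 48 (.c 12801 .nil))) (.b 8385 (.l 8 .nil)))) (.node (.I .adp (.c 24 (.c 32 (.c 40 .nil))) (.b 2718204041 (.l 8 .nil))) (.I .adp (.c 24 (.c 32 (.c 40 .nil))) (.b 33587593 (.l 8 .nil))))) (.node (.node (.I .adp (.c 16 (.c 48 (.c 40 .nil))) (.b 537002185 (.l 8 .nil))) (.I .adp (.c 16 (.c 48 (.c 40 .nil))) (.b 169943305 (.l 8 .nil)))) (.node (.I .jac (.c 24 (.c 40 (.c 48 .nil))) (.l 537002121 (.l 8 .nil))) (.I .jac (.c 32 (.c 40 (.c 48 .nil))) (.l 169943177 (.l 8 .nil)))))))))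

noncomputable def c2_327 : Tr := (.node (.node (.node (.node (.node (.node (.I .adp (.c 0 (.c 32 (.c 18561 .nil))) (.b 12993 (.l 8 .nil))) (.I .adp (.c 16 (.c 48 (.c 8193 .nil))) (.b 12993 (.l 8 .nil)))) (.node (.I .adp (.c 16 (.c 48 (.c 4609 .nil))) (.b 13057 (.l 8 .nil))) (.I .adp (.c 32 (.c 40 (.c 18433 .nil))) (.b 4737 (.l 8 .nil))))) (.node (.node (.I .adp (.c 24 (.c 40 (.c 18433 .nil))) (.b 8321 (.l 8 .nil))) (.I .adp (.c 24 (.c 32 (.c 18433 .nil))) (.b 12929 (.l 8 .nil)))) (.node (.I .jac (.c 18433 (.c 8321 (.c 40 .nil))) (.b 24 (.b 8 .nil))) (.I .jac (.c 18433 (.c 16 (.c 40 .nil))) (.b 24 (.b 32 (.b 8 .nil))))))) (.node (.node (.node (.I .jac (.c 18433 (.c 8321 (.c 24 .nil))) (.b 40 (.b 8 .nil))) (.I .jac (.c 18433 (.c 16 (.c 40 .nil))) (.b 32 (.b 24 (.b 8 .nil))))) (.node (.I .adp (.c 1310925001 (.c 32 (.c 18561 .nil))) (.l 8 .nil)) (.I .adp (.c 12801 (.c 8385 (.c 18561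 .nil))) (.l 8 .nil)))) (.node (.node (.I .adp (.c 537002185 (.c 40 (.c 18561 .nil))) (.l 8 .nil)) (.I .com (.c 537002313 (.c 24 .nil)) (.b 18561 (.l 8 .nil)))) (.node (.I .com (.c 1310925065 (.c 24 .nil)) (.b 18561 (.l 8 .nil))) (.I .adp (.c 537002313 (.c 24 (.c 18561 .nil))) (.l 8 .nil)))))) (.node (.node (.node (.node (.I .adp (.c 2718204233 (.c 8786563 (.c 8 .nil))) .nil) (.I .adp (.c 2718204169 (.c 21099139 (.c 8 .nil))) .nil)) (.node (.I .jac (.c 12801 (.c 16 (.c 32 .nil))) (.b 18625 (.l 8 .nil))) (.I .adp (.c 537002121 (.c 40 (.c 18625 .nil))) (.l 8 .nil)))) (.node (.node (.I .com (.c 537002313 (.c 16 .nil)) (.b 18625 (.l 8 .nil))) (.I .adp (.c 537002313 (.c 16 (.c 18625 .nil))) (.l 8 .nil))) (.node (.I .adp (.c 16 (.c 24 (.c 48 .nil))) (.b 537002313 (.l 8 .nil))) (.I .jac (.c 231045989336561417 (.c 32 (.c 48 .nil))) (.b 8 .nil))))) (.node (.node (.node (.I .jac (.c 13748194865974800137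 (.c 32 (.c 48 .nil))) (.b 8 .nil)) (.I .jac (.c 12801 (.c 16 (.c 24 .nil))) (.b 18689 (.b 8 .nil)))) (.node (.I .adp (.c 1310924937 (.c 24 (.c 18689 .nil))) (.l 8 .nil)) (.I .jac (.c 1310924937 (.c 32 (.c 48 .nil))) (.r 24 (.l 8 .nil))))) (.node (.node (.I .adp (.c 33587529 (.c 24 (.c 18689 .nil))) (.l 8 .nil)) (.I .adp (.c 12801 (.c 4737 (.c 18689 .nil))) (.l 8 .nil))) (.node (.I .adp (.c 169943177 (.c 40 (.c 18689 .nil))) (.l 8 .nil)) (.I .adp (.c 33587401 (.c 40 (.c 18689 .nil))) (.l 8 .nil))))))) (.node (.node (.node (.node (.node (.I .com (.c 169943369 (.c 16 .nil)) (.b 18689 (.l 8 .nil))) (.I .adp (.c 169943369 (.c 16 (.c 18689 .nil))) (.l 8 .nil))) (.node (.I .adp (.c 12801 (.c 24 (.c 48 .nil))) (.b 8321 (.l 8 .nil))) (.I .adp (.c 12801 (.c 24 (.c 16 .nil))) (.b 18689 (.l 8 .nil))))) (.node (.node (.I .adp (.c 12801 (.c 24 (.c 32 .nil))) (.b 18561 (.l 8 .nil))) (.I .adp (.c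 16 (.c 32 (.c 48 .nil))) (.b 169943369 (.l 8 .nil)))) (.node (.I .adp (.c 24 (.c 40 (.c 48 .nil))) (.b 537002121 (.l 8 .nil))) (.I .adp (.c 24 (.c 40 (.c 48 .nil))) (.b 33587465 (.l 8 .nil)))))) (.node (.node (.node (.I .adp (.c 24 (.c 40 (.c 8193 .nil))) (.b 18561 (.l 8 .nil))) (.I .adp (.c 24 (.c 40 (.c 2049 .nil))) (.b 18689 (.l 8 .nil)))) (.node (.I .com (.c 33587529 (.c 24 .nil)) (.b 18689 (.l 8 .nil))) (.I .adp (.c 24 (.c 32 (.c 48 .nil))) (.b 1310924937 (.l 8 .nil))))) (.node (.node (.I .adp (.c 24 (.c 32 (.c 48 .nil))) (.b 33587529 (.l 8 .nil))) (.I .adp (.c 16 (.c 40 (.c 48 .nil))) (.b 537002185 (.l 8 .nil)))) (.node (.I .adp (.c 16 (.c 40 (.c 48 .nil))) (.b 169943305 (.l 8 .nil))) (.I .adp (.c 16 (.c 40 (.c 8193 .nil))) (.b 18625 (.l 8 .nil))))))) (.node (.node (.node (.node (.I .adp (.c 16 (.c 40 (.c 4609 .nil))) (.b 18689 (.l 8 .nil))) (.I .adp (.c 24 (.c 32 (.c 12801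 .nil))) (.b 18561 (.l 8 .nil)))) (.node (.I .jac (.c 231045815314584329 (.c 40 (.c 48 .nil))) (.b 8 .nil)) (.I .jac (.c 231045467270826889 (.c 40 (.c 48 .nil))) (.b 8 .nil)))) (.node (.node (.I .jac (.c 8193 (.c 16 (.c 24 .nil))) (.b 18753 (.l 8 .nil))) (.I .jac (.c 617629514823753 (.c 40 (.c 48 .nil))) (.b 8 .nil))) (.node (.I .jac (.c 617611520073929 (.c 40 (.c 48 .nil))) (.b 8 .nil)) (.I .jac (.c 62886542410057 (.c 40 (.c 48 .nil))) (.b 8 .nil))))) (.node (.node (.node (.I .adp (.c 537002121 (.c 24 (.c 18753 .nil))) (.l 8 .nil)) (.I .jac (.c 537002121 (.c 40 (.c 48 .nil))) (.r 24 (.l 8 .nil)))) (.node (.I .adp (.c 33587465 (.c 24 (.c 18753 .nil))) (.l 8 .nil)) (.I .jac (.c 33587465 (.c 40 (.c 48 .nil))) (.r 24 (.l 8 .nil))))) (.node (.node (.I .jac (.c 598967998054665 (.c 40 (.c 48 .nil))) (.b 8 .nil)) (.I .adp (.c 169943177 (.c 32 (.c 18753 .nil))) (.l 8 .nil))) (.node (.I .jac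 (.c 169943177 (.c 40 (.c 48 .nil))) (.r 32 (.l 8 .nil))) (.I .adp (.c 33587401 (.c 32 (.c 18753 .nil))) (.l 8 .nil))))))))

noncomputable def c2_328 : Tr := (.node (.node (.node (.node (.node (.node (.I .jac (.c 33587401 (.c 40 (.c 48 .nil))) (.r 32 (.l 8 .nil))) (.I .com (.c 169943305 (.c 16 .nil)) (.b 18753 (.l 8 .nil)))) (.node (.I .com (.c 537002185 (.c 16 .nil)) (.b 18753 (.l 8 .nil))) (.I .adp (.c 537002185 (.c 16 (.c 18753 .nil))) (.l 8 .nil)))) (.node (.node (.I .jac (.c 537002185 (.c 40 (.c 48 .nil))) (.r 16 (.l 8 .nil))) (.I .adp (.c 169943305 (.c 16 (.c 18753 .nil))) (.l 8 .nil))) (.node (.I .jac (.c 169943305 (.c 40 (.c 48 .nil))) (.r 16 (.l 8 .nil))) (.I .adp (.c 24 (.c 32 (.c 2049 .nil))) (.b 18753 (.l 8 .nil)))))) (.node (.node (.node (.I .com (.c 33587465 (.c 24 .nil)) (.b 18753 (.l 8 .nil))) (.I .adp (.c 16 (.c 32 (.c 4609 .nil))) (.b 18753 (.l 8 .nil)))) (.node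 (.I .adp (.c 16 (.c 24 (.c 8193 .nil))) (.b 18753 (.l 8 .nil))) (.I .jac (.c 16 (.c 24 (.c 48 .nil))) (.b 13057 (.l 8 (.l 0 .nil)))))) (.node (.node (.I .adp (.c 32 (.c 40 (.c 48 .nil))) (.b 4737 (.l 513 .nil))) (.I .adp (.c 32 (.c 40 (.c 16 .nil))) (.b 18625 (.l 513 .nil)))) (.node (.I .com (.c 12929 (.c 32 .nil)) (.b 18625 (.l 513 .nil))) (.I .adp (.c 32 (.c 40 (.c 24 .nil))) (.b 18561 (.l 513 .nil))))))) (.node (.node (.node (.node (.I .com (.c 12993 (.c 32 .nil)) (.b 18561 (.l 513 .nil))) (.I .jac (.c 16 (.c 24 (.c 40 .nil))) (.b 18689 (.l 513 .nil)))) (.node (.I .jac (.c 16 (.c 24 (.c 32 .nil))) (.b 18753 (.l 513 .nil))) (.I .adp (.c 16 (.c 24 (.c 32 .nil))) (.b 18753 (.l 513 .nil))))) (.node (.node (.I .adp (.c 16 (.c 24 (.c 40 .nil))) (.b 18689 (.l 513 .nil))) (.I .adp (.c 16 (.c 24 (.c 48 .nil))) (.b 13057 (.l 513 .nil)))) (.node (.I .jac (.c 35473026505609 (.c 24 (.c 40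 .nil))) (.b 16 .nil)) (.I .jac (.c 35468714087433 (.c 24 (.c 40 .nil))) (.b 16 .nil))))) (.node (.node (.node (.I .jac (.c 2105737 (.c 12993 (.c 32 .nil))) (.b 16 .nil)) (.I .jac (.c 2105737 (.c 24 (.c 32 .nil))) (.b 40 (.b 16 .nil)))) (.node (.I .jac (.c 2105673 (.c 24 (.c 48 .nil))) (.b 32 (.b 16 .nil))) (.I .jac (.c 2105673 (.c 24 (.c 32 .nil))) (.b 48 (.b 16 .nil))))) (.node (.node (.I .jac (.c 2105609 (.c 12993 (.c 48 .nil))) (.b 16 .nil)) (.I .jac (.c 169943369 (.c 8257 (.c 48 .nil))) (.l 16 .nil))) (.node (.I .jac (.c 169943369 (.c 8 (.c 32 .nil))) (.b 48 (.l 16 .nil))) (.I .jac (.c 169943305 (.c 8 (.c 48 .nil))) (.b 40 (.l 16 .nil)))))))) (.node (.node (.node (.node (.node (.I .jac (.c 4609 (.c 8 (.c 40 .nil))) (.b 48 (.b 32 (.l 16 .nil)))) (.I .jac (.c 4609 (.c 8 (.c 48 .nil))) (.b 32 (.b 40 (.l 16 .nil))))) (.node (.I .jac (.c 4609 (.c 545424777 (.c 40 .nil))) (.l 16 .nil))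 (.I .jac (.c 4609 (.c 8 (.c 32 .nil))) (.b 48 (.b 40 (.l 16 .nil)))))) (.node (.node (.I .jac (.c 4609 (.c 12865 (.c 32 .nil))) (.b 48 (.l 16 .nil))) (.I .jac (.c 4609 (.c 8 (.c 40 .nil))) (.b 32 (.b 48 (.l 16 .nil))))) (.node (.I .jac (.c 13748198893136698249 (.c 8 (.c 24 .nil))) (.l 16 .nil)) (.I .jac (.c 59109071234951844809 (.c 8 (.c 24 .nil))) (.l 16 .nil))))) (.node (.node (.node (.I .com (.c 6250093333522399357233012691825335010346291779882781776226983039323613731725645513 (.c 16 .nil)) .nil) (.I .com (.c 14502389782864780551906021094515387666984776397839823428933576006765894833865 (.c 16 .nil)) .nil)) (.node (.I .com (.c 18291662791002284499406956391081788291907863774476994583244624046135249871146825 (.c 16 .nil)) .nil) (.I .com (.c 18291648502882416156398562140872571242758873921579575128104968541596358313905993 (.c 16 .nil)) .nil))) (.node (.node (.I .jac (.c 169943305 (.c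 18497 (.c 40 .nil))) (.l 16 .nil)) (.I .jac (.c 169943305 (.c 8 (.c 40 .nil))) (.b 48 (.l 16 .nil)))) (.node (.I .jac (.c 4609 (.c 8 (.c 48 .nil))) (.b 40 (.b 32 (.l 16 .nil)))) (.I .com (.c 1459032634273071433372491467052243821900454362418451122924148217875774153 (.c 16 .nil)) .nil))))) (.node (.node (.node (.node (.I .com (.c 1459023842844932333893328974360732658464102006581455240230057549752828617 (.c 16 .nil)) .nil) (.I .jac (.c 2306971873338800137 (.c 8 (.c 24 .nil))) (.l 16 .nil))) (.node (.I .com (.c 6250094510787921532714972949261795359997986687185520814234411710500539745947735753 (.c 16 .nil)) .nil) (.I .com (.c 14502375955699783334294794239894626584551595748202332602340910330646620952265 (.c 16 .nil)) .nil))) (.node (.node (.I .com (.c 6250094510787921532714972949261795359940742914154107364219881196449630129872539465 (.c 16 .nil)) .nil) (.I .com (.c 14502375955699783334294794239894626497353994376020494329912817139171932376905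 (.c 16 .nil)) .nil)) (.node (.I .com (.c 231046163358604169 (.c 12865 .nil)) (.l 16 .nil)) (.I .ass (.c 16 (.c 231046163358604169 (.c 12865 .nil))) .nil)))) (.node (.node (.node (.I .com (.c 16 (.c 231046163358604169 .nil)) (.r 12865 .nil)) (.I .ass (.c 16 (.c 231045989336561353 (.c 18689 .nil))) .nil)) (.node (.I .ass (.c 231045989336561353 (.c 16 (.c 18689 .nil))) .nil) (.I .com (.c 16 (.c 231045989336561353 .nil)) (.r 18689 .nil)))) (.node (.node (.I .jac (.c 4673 (.c 32 (.c 48 .nil))) (.l 12801 (.l 16 .nil))) (.I .jac (.c 12801 (.c 8 (.c 24 .nil))) (.r 18689 (.l 16 .nil)))) (.node (.I .ass (.c 16 (.c 27951058418068892742902176168037983934153 (.c 40 .nil))) .nil) (.I .com (.c 16 (.c 27951058418068892742902176168037983934153 .nil)) (.r 40 .nil))))))))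

noncomputable def c2_329 : Tr := (.node (.node (.node (.node (.node (.node (.I .ass (.c 16 (.c 42576974092320101918705356412332005065 (.c 40 .nil))) .nil) (.I .com (.c 16 (.c 42576974092320101918705356412332005065 .nil)) (.r 40 .nil))) (.node (.I .ass (.c 16 (.c 27951058418068892621846798278856606158665 (.c 40 .nil))) .nil) (.I .com (.c 16 (.c 27951058418068892621846798278856606158665 .nil)) (.r 40 .nil)))) (.node (.node (.I .ass (.c 16 (.c 42576974092320097194025833638928027465 (.c 40 .nil))) .nil) (.I .com (.c 16 (.c 42576974092320097194025833638928027465 .nil)) (.r 40 .nil))) (.node (.I .ass (.c 16 (.c 13748194865974800073 (.c 18689 .nil))) .nil) (.I .ass (.c 13748194865974800073 (.c 16 (.c 18689 .nil))) .nil)))) (.node (.node (.node (.I .com (.c 16 (.c 13748194865974800073 .nil)) (.r 18689 .nil)) (.I .ass (.c 16 (.c 12801 (.c 244149027818380169 .nil))) .nil)) (.node (.I .ass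 (.c 12801 (.c 16 (.c 244149027818380169 .nil))) .nil) (.I .com (.c 16 (.c 12801 .nil)) (.r 244149027818380169 .nil)))) (.node (.node (.I .ass (.c 16 (.c 12801 (.c 244148670041478153 .nil))) .nil) (.I .ass (.c 12801 (.c 16 (.c 244148670041478153 .nil))) .nil)) (.node (.I .com (.c 16 (.c 12801 .nil)) (.r 244148670041478153 .nil)) (.I .adp (.c 18497 (.c 13057 (.c 4609 .nil))) (.l 16 .nil)))))) (.node (.node (.node (.node (.I .jac (.c 4609 (.c 32 (.c 40 .nil))) (.l 18497 (.l 16 .nil))) (.I .com (.c 231045989336561545 (.c 18497 .nil)) (.l 16 .nil))) (.node (.I .com (.c 231045815314584521 (.c 18497 .nil)) (.l 16 .nil)) (.I .jac (.c 169943305 (.c 8 (.c 40 .nil))) (.r 48 (.l 16 .nil))))) (.node (.node (.I .jac (.c 169943369 (.c 8 (.c 32 .nil))) (.r 48 (.l 16 .nil))) (.I .ass (.c 16 (.c 231046163358603977 (.c 13057 .nil))) .nil)) (.node (.I .com (.c 16 (.c 231046163358603977 .nil)) (.r 13057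 .nil)) (.I .tdb (.c 32 (.c 12801 (.c 8 (.c 48 .nil)))) (.b 24 (.l 16 .nil)))))) (.node (.node (.node (.I .tdb (.c 0 (.c 40 (.c 8 (.c 48 .nil)))) (.b 32 (.b 24 (.l 16 .nil)))) (.I .tdb (.c 32 (.c 12801 (.c 24 (.c 48 .nil)))) (.b 8 (.l 16 .nil)))) (.node (.I .tdb (.c 0 (.c 40 (.c 24 (.c 48 .nil)))) (.b 32 (.b 8 (.l 16 .nil)))) (.I .tdb (.c 8 (.c 24 (.c 48 (.c 1310925065 .nil)))) (.l 16 .nil)))) (.node (.node (.I .adp (.c 18433 (.c 13057 (.c 4673 .nil))) (.l 16 .nil)) (.I .jac (.c 18433 (.c 8 (.c 24 .nil))) (.r 13057 (.l 16 .nil)))) (.node (.I .adp (.c 1310925065 (.c 48 (.c 4673 .nil))) (.l 16 .nil)) (.I .jac (.c 537002313 (.c 8 (.c 24 .nil))) (.r 48 (.l 16 .nil)))))))) (.node (.node (.node (.node (.node (.I .ass (.c 16 (.c 1512103191868961664028723725600700192457 (.c 48 .nil))) .nil) (.I .ass (.c 1512103191868961664028723725600700192457 (.c 16 (.c 48 .nil))) .nil)) (.node (.I .com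 (.c 16 (.c 1512103191868961664028723725600700192457 .nil)) (.r 48 .nil)) (.I .ass (.c 16 (.c 42576953795010656131941434981856024265 (.c 48 .nil))) .nil))) (.node (.node (.I .ass (.c 42576953795010656131941434981856024265 (.c 16 (.c 48 .nil))) .nil) (.I .com (.c 16 (.c 42576953795010656131941434981856024265 .nil)) (.r 48 .nil))) (.node (.I .ass (.c 16 (.c 1512103191868961635872417890875254705993 (.c 48 .nil))) .nil) (.I .ass (.c 1512103191868961635872417890875254705993 (.c 16 (.c 48 .nil))) .nil)))) (.node (.node (.node (.I .com (.c 16 (.c 1512103191868961635872417890875254705993 .nil)) (.r 48 .nil)) (.I .ass (.c 16 (.c 42576953795010651407263038383993868105 (.c 48 .nil))) .nil)) (.node (.I .ass (.c 42576953795010651407263038383993868105 (.c 16 (.c 48 .nil))) .nil) (.I .com (.c 16 (.c 42576953795010651407263038383993868105 .nil)) (.r 48 .nil)))) (.node (.node (.I .adp (.c 2737112393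 (.c 32 (.c 4609 .nil))) (.l 16 .nil)) (.I .com (.c 169943305 (.c 2737112393 .nil)) (.l 16 .nil))) (.node (.I .jac (.c 169943369 (.c 8 (.c 48 .nil))) (.r 32 (.l 16 .nil))) (.I .jac (.c 4609 (.c 18497 (.c 40 .nil))) (.r 32 (.l 16 .nil))))))) (.node (.node (.node (.node (.I .jac (.c 4609 (.c 8 (.c 48 .nil))) (.b 40 (.r 32 (.l 16 .nil)))) (.I .com (.c 231046163358604233 (.c 8257 .nil)) (.l 16 .nil))) (.node (.I .ass (.c 16 (.c 427057993508084562470663629860471497 (.c 32 .nil))) .nil) (.I .com (.c 16 (.c 427057993508084562470663629860471497 .nil)) (.r 32 .nil)))) (.node (.node (.I .ass (.c 16 (.c 231046163358604233 (.c 8257 .nil))) .nil) (.I .com (.c 16 (.c 231046163358604233 .nil)) (.r 8257 .nil))) (.node (.I .adp (.c 2718204233 (.c 32 (.c 4673 .nil))) (.l 16 .nil)) (.I .adp (.c 1310925193 (.c 32 (.c 4673 .nil))) (.l 16 .nil))))) (.node (.node (.node (.I .jac (.c 1310925193 (.c 8 (.c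 24 .nil))) (.r 32 (.l 16 .nil))) (.I .jac (.c 4673 (.c 40 (.c 48 .nil))) (.l 8193 (.l 16 .nil)))) (.node (.I .jac (.c 8193 (.c 8 (.c 24 .nil))) (.r 18753 (.l 16 .nil))) (.I .com (.c 1310925193 (.c 32 .nil)) (.b 4673 (.l 16 .nil))))) (.node (.node (.I .ass (.c 16 (.c 27951061050494848579379785769086333720265 (.c 32 .nil))) .nil) (.I .com (.c 16 (.c 27951061050494848579379785769086333720265 .nil)) (.r 32 .nil))) (.node (.I .ass (.c 16 (.c 27951061050494848458324402179417579409225 (.c 32 .nil))) .nil) (.I .com (.c 16 (.c 27951061050494848458324402179417579409225 .nil)) (.r 32 .nil))))))))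

noncomputable def c2_330 : Tr := (.node (.node (.node (.node (.node (.node (.I .ass (.c 16 (.c 1512103782441961036806911905286300602185 (.c 32 .nil))) .nil) (.I .com (.c 16 (.c 1512103782441961036806911905286300602185 .nil)) (.r 32 .nil))) (.node (.I .ass (.c 16 (.c 2306970773558193865 (.c 18753 .nil))) .nil) (.I .ass (.c 2306970773558193865 (.c 16 (.c 18753 .nil))) .nil))) (.node (.node (.I .com (.c 16 (.c 2306970773558193865 .nil)) (.r 18753 .nil)) (.I .ass (.c 16 (.c 8193 (.c 244149027818380233 .nil))) .nil)) (.node (.I .ass (.c 8193 (.c 16 (.c 244149027818380233 .nil))) .nil) (.I .com (.c 16 (.c 8193 .nil)) (.r 244149027818380233 .nil))))) (.node (.node (.node (.I .ass (.c 16 (.c 8193 (.c 244148848929896457 .nil))) .nil) (.I .ass (.c 8193 (.c 16 (.c 244148848929896457 .nil))) .nil)) (.node (.I .com (.c 16 (.c 8193 .nil)) (.r 244148848929896457 .nil)) (.I .com (.c 18561 (.c 32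 .nil)) (.l 35470870263625 .nil)))) (.node (.node (.I .com (.c 18561 (.c 32 .nil)) (.l 35466557976521 .nil)) (.I .com (.c 18561 (.c 40 .nil)) (.l 35468714087241 .nil))) (.node (.I .com (.c 18561 (.c 40 .nil)) (.l 35466557976457 .nil)) (.I .adp (.c 2105609 (.c 43954883 (.c 16 .nil))) .nil))))) (.node (.node (.node (.node (.I .com (.c 3632106110100553 (.c 18497 .nil)) (.b 16 .nil)) (.I .com (.c 15246325749294153 (.c 12865 .nil)) (.b 16 .nil))) (.node (.I .tdb (.c 0 (.c 24 (.c 32 (.c 48 .nil)))) (.b 12865 (.b 16 .nil))) (.I .com (.c 15456253916349513 (.c 8257 .nil)) (.b 16 .nil)))) (.node (.node (.I .adp (.c 15456253916349513 (.c 8257 (.c 16 .nil))) .nil) (.I .adp (.c 15246325749294153 (.c 12865 (.c 16 .nil))) .nil)) (.node (.I .adp (.c 3632106110100553 (.c 18497 (.c 16 .nil))) .nil) (.I .com (.c 18561 (.c 32 .nil)) (.l 231045989336561353 .nil))))) (.node (.node (.node (.I .com (.c 18561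 (.c 40 .nil)) (.l 231045815314584265 .nil)) (.I .adp (.c 169943305 (.c 43954755 (.c 16 .nil))) .nil)) (.node (.I .com (.c 18561 (.c 40 .nil)) (.l 2306970773558193865 .nil)) (.I .com (.c 18561 (.c 40 .nil)) (.l 2306969673777850185 .nil)))) (.node (.node (.I .tdb (.c 0 (.c 8 (.c 32 (.c 40 .nil)))) (.b 18625 (.l 16 .nil))) (.I .tdb (.c 0 (.c 8 (.c 40 (.c 48 .nil)))) (.b 8385 (.l 16 .nil)))) (.node (.I .tdb (.c 0 (.c 24 (.c 48 (.c 12865 .nil)))) (.b 32 (.l 16 .nil))) (.I .tdb (.c 8 (.c 40 (.c 0 (.c 48 .nil)))) (.b 24 (.b 32 (.l 16 .nil))))))))) (.node (.node (.node (.node (.node (.I .tdb (.c 8 (.c 40 (.c 24 (.c 48 .nil)))) (.b 0 (.b 32 (.l 16 .nil)))) (.I .tdb (.c 8 (.c 40 (.c 32 (.c 48 .nil)))) (.b 4609 (.l 16 .nil)))) (.node (.I .tdb (.c 0 (.c 24 (.c 32 (.c 40 .nil)))) (.b 18497 (.l 16 .nil))) (.I .tdb (.c 8 (.c 24 (.c 48 (.c 12801 .nil)))) (.b 32 (.l 16 .nil))))) (.node (.node (.I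 .tdb (.c 8 (.c 24 (.c 32 (.c 48 .nil)))) (.b 12801 (.l 16 .nil))) (.I .tdb (.c 8 (.c 24 (.c 40 (.c 48 .nil)))) (.b 8193 (.l 16 .nil)))) (.node (.I .jac (.c 2306972423229201225 (.c 8 (.c 40 .nil))) (.l 16 .nil)) (.I .jac (.c 537002377 (.c 8 (.c 24 .nil))) (.b 40 (.l 16 .nil)))))) (.node (.node (.node (.I .jac (.c 537002313 (.c 18497 (.c 24 .nil))) (.l 16 .nil)) (.I .jac (.c 537002313 (.c 8 (.c 48 .nil))) (.b 24 (.l 16 .nil)))) (.node (.I .jac (.c 537002185 (.c 12865 (.c 48 .nil))) (.l 16 .nil)) (.I .jac (.c 8193 (.c 2737112265 (.c 40 .nil))) (.l 16 .nil)))) (.node (.node (.I .jac (.c 8193 (.c 18497 (.c 24 .nil))) (.b 40 (.l 16 .nil))) (.I .jac (.c 8193 (.c 8 (.c 48 .nil))) (.b 24 (.b 40 (.l 16 .nil))))) (.node (.I .jac (.c 8193 (.c 4673 (.c 48 .nil))) (.b 40 (.l 16 .nil))) (.I .jac (.c 8193 (.c 12865 (.c 24 .nil))) (.b 48 (.l 16 .nil))))))) (.node (.node (.node (.node (.I .jac (.c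 8193 (.c 8 (.c 40 .nil))) (.b 24 (.b 48 (.l 16 .nil)))) (.I .com (.c 14502389782864777333305098924298644562517327697955955914112649312297378504393 (.c 16 .nil)) .nil)) (.node (.I .com (.c 14502348301404392044591456005053312591820489834081545082478059549224675221193 (.c 16 .nil)) .nil) (.I .com (.c 14502375955699778506396863322320873579733869446538369716876502350880995377865 (.c 16 .nil)) .nil))) (.node (.node (.I .jac (.c 13748198893136698185 (.c 8 (.c 32 .nil))) (.l 16 .nil)) (.I .jac (.c 13748194865974800393 (.c 8 (.c 32 .nil))) (.l 16 .nil))) (.node (.I .com (.c 18291641358826143796487118727567224434297175000627202168555921693136786543606473 (.c 16 .nil)) .nil) (.I .com (.c 18291662791002284158804837459398313854502767885201617267823299846484956483506057 (.c 16 .nil)) .nil)))) (.node (.node (.node (.I .com (.c 6250092156257071185327898691570831983508175125038048793690744499167676397895405449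 (.c 16 .nil)) .nil) (.I .com (.c 18291641358826143796487118727567224429651994902325679599565150910203148494573449 (.c 16 .nil)) .nil)) (.node (.I .jac (.c 537002377 (.c 4673 (.c 40 .nil))) (.l 16 .nil)) (.I .jac (.c 2306970773558194121 (.c 8 (.c 48 .nil))) (.l 16 .nil)))) (.node (.node (.I .jac (.c 537002185 (.c 8 (.c 40 .nil))) (.b 48 (.l 16 .nil))) (.I .jac (.c 8193 (.c 2737112393 (.c 24 .nil))) (.l 16 .nil))) (.node (.I .jac (.c 8193 (.c 8 (.c 48 .nil))) (.b 40 (.b 24 (.l 16 .nil)))) (.I .jac (.c 8193 (.c 4673 (.c 40 .nil))) (.b 48 (.l 16 .nil)))))))))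

noncomputable def c2_331 : Tr := (.node (.node (.node (.node (.node (.node (.I .jac (.c 8193 (.c 8 (.c 24 .nil))) (.b 40 (.b 48 (.l 16 .nil)))) (.I .com (.c 6250094510787921505645961611614566601672472802611890684036483210630598362173362057 (.c 16 .nil)) .nil)) (.node (.I .adp (.c 2737112265 (.c 40 (.c 8193 .nil))) (.l 16 .nil)) (.I .com (.c 537002313 (.c 2737112265 .nil)) (.l 16 .nil)))) (.node (.node (.I .com (.c 2306970773558194185 (.c 12865 .nil)) (.l 16 .nil)) (.I .jac (.c 8193 (.c 8 (.c 40 .nil))) (.r 18625 (.l 16 .nil)))) (.node (.I .ass (.c 16 (.c 42576913200413542961749526065342513865 (.c 40 .nil))) .nil) (.I .com (.c 16 (.c 42576913200413542961749526065342513865 .nil)) (.r 40 .nil))))) (.node (.node (.node (.I .ass (.c 16 (.c 2306970773558194185 (.c 12865 .nil))) .nil) (.I .com (.c 16 (.c 2306970773558194185 .nil)) (.r 12865 .nil))) (.node (.I .ass (.c 16 (.c 2306971873338799817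 (.c 18625 .nil))) .nil) (.I .ass (.c 2306971873338799817 (.c 16 (.c 18625 .nil))) .nil))) (.node (.node (.I .com (.c 16 (.c 2306971873338799817 .nil)) (.r 18625 .nil)) (.I .adp (.c 169943433 (.c 40 (.c 8257 .nil))) (.l 16 .nil))) (.node (.I .adp (.c 12801 (.c 18625 (.c 8257 .nil))) (.l 16 .nil)) (.I .jac (.c 8257 (.c 24 (.c 48 .nil))) (.l 12801 (.l 16 .nil))))))) (.node (.node (.node (.node (.I .jac (.c 12801 (.c 8 (.c 32 .nil))) (.r 18625 (.l 16 .nil))) (.I .ass (.c 16 (.c 27951055785643122908012690443949941766857 (.c 40 .nil))) .nil)) (.node (.I .com (.c 16 (.c 27951055785643122908012690443949941766857 .nil)) (.r 40 .nil)) (.I .ass (.c 16 (.c 27951055785643122726429632160908738482057 (.c 40 .nil))) .nil))) (.node (.node (.I .com (.c 16 (.c 27951055785643122726429632160908738482057 .nil)) (.r 40 .nil)) (.I .ass (.c 16 (.c 13748196208362033865 (.c 18625 .nil))) .nil)) (.node (.I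 .ass (.c 13748196208362033865 (.c 16 (.c 18625 .nil))) .nil) (.I .com (.c 16 (.c 13748196208362033865 .nil)) (.r 18625 .nil))))) (.node (.node (.node (.I .ass (.c 16 (.c 12801 (.c 2379905498923998025 .nil))) .nil) (.I .ass (.c 12801 (.c 16 (.c 2379905498923998025 .nil))) .nil)) (.node (.I .com (.c 16 (.c 12801 .nil)) (.r 2379905498923998025 .nil)) (.I .ass (.c 16 (.c 12801 (.c 2379903823379378185 .nil))) .nil))) (.node (.node (.I .ass (.c 12801 (.c 16 (.c 2379903823379378185 .nil))) .nil) (.I .com (.c 16 (.c 12801 .nil)) (.r 2379903823379378185 .nil))) (.node (.I .tdb (.c 0 (.c 32 (.c 174695753 (.c 48 .nil)))) (.l 16 .nil)) (.I .tdb (.c 4673 (.c 40 (.c 0 (.c 48 .nil)))) (.b 32 (.l 16 .nil)))))))) (.node (.node (.node (.node (.node (.I .tdb (.c 8 (.c 24 (.c 48 (.c 0 .nil)))) (.b 40 (.b 32 (.l 16 .nil)))) (.I .tdb (.c 4673 (.c 40 (.c 32 (.c 48 .nil)))) (.b 0 (.l 16 .nil)))) (.node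 (.I .tdb (.c 8 (.c 24 (.c 32 (.c 48 .nil)))) (.b 40 (.b 0 (.l 16 .nil)))) (.I .com (.c 2306970773558194121 (.c 18497 .nil)) (.l 16 .nil)))) (.node (.node (.I .jac (.c 8193 (.c 8 (.c 48 .nil))) (.r 12993 (.l 16 .nil))) (.I .adp (.c 174695753 (.c 48 (.c 8193 .nil))) (.l 16 .nil))) (.node (.I .com (.c 537002377 (.c 174695753 .nil)) (.l 16 .nil)) (.I .jac (.c 8193 (.c 4673 (.c 40 .nil))) (.r 48 (.l 16 .nil)))))) (.node (.node (.node (.I .jac (.c 8193 (.c 8 (.c 24 .nil))) (.b 40 (.r 48 (.l 16 .nil)))) (.I .ass (.c 16 (.c 2306972423229201097 (.c 12993 .nil))) .nil)) (.node (.I .com (.c 16 (.c 2306972423229201097 .nil)) (.r 12993 .nil)) (.I .ass (.c 16 (.c 42576913200413540599411453941751701193 (.c 48 .nil))) .nil))) (.node (.node (.I .ass (.c 42576913200413540599411453941751701193 (.c 16 (.c 48 .nil))) .nil) (.I .com (.c 16 (.c 42576913200413540599411453941751701193 .nil)) (.r 48 .nil)))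 (.node (.I .tdb (.c 24 (.c 12801 (.c 8 (.c 48 .nil)))) (.b 32 (.l 16 .nil))) (.I .tdb (.c 4609 (.c 40 (.c 8 (.c 48 .nil)))) (.b 32 (.l 16 .nil))))))) (.node (.node (.node (.node (.I .tdb (.c 0 (.c 24 (.c 48 (.c 8 .nil)))) (.b 40 (.b 32 (.l 16 .nil)))) (.I .tdb (.c 24 (.c 12801 (.c 32 (.c 48 .nil)))) (.b 8 (.l 16 .nil)))) (.node (.I .tdb (.c 0 (.c 40 (.c 32 (.c 48 .nil)))) (.b 24 (.b 8 (.l 16 .nil)))) (.I .tdb (.c 4609 (.c 40 (.c 32 (.c 48 .nil)))) (.b 8 (.l 16 .nil))))) (.node (.node (.I .tdb (.c 0 (.c 24 (.c 32 (.c 48 .nil)))) (.b 40 (.b 8 (.l 16 .nil)))) (.I .tdb (.c 8 (.c 32 (.c 1310925001 (.c 48 .nil)))) (.l 16 .nil))) (.node (.I .tdb (.c 8 (.c 32 (.c 169943369 (.c 48 .nil)))) (.l 16 .nil)) (.I .adp (.c 1310925001 (.c 48 (.c 8257 .nil))) (.l 16 .nil))))) (.node (.node (.node (.I .jac (.c 1310925001 (.c 8 (.c 32 .nil))) (.r 48 (.l 16 .nil))) (.I .adp (.c 169943369 (.c 48 (.c 8257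 .nil))) (.l 16 .nil))) (.node (.I .ass (.c 16 (.c 1512102896582526849770380112053152561865 (.c 48 .nil))) .nil) (.I .ass (.c 1512102896582526849770380112053152561865 (.c 16 (.c 48 .nil))) .nil))) (.node (.node (.I .com (.c 16 (.c 1512102896582526849770380112053152561865 .nil)) (.r 48 .nil)) (.I .ass (.c 16 (.c 1512102896582526807535925483778566442889 (.c 48 .nil))) .nil)) (.node (.I .ass (.c 1512102896582526807535925483778566442889 (.c 16 (.c 48 .nil))) .nil) (.I .com (.c 16 (.c 1512102896582526807535925483778566442889 .nil)) (.r 48 .nil))))))))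

noncomputable def c2_332 : Tr := (.node (.node (.node (.node (.node (.node (.I .adp (.c 2737112393 (.c 24 (.c 8193 .nil))) (.l 16 .nil)) (.I .com (.c 537002185 (.c 2737112393 .nil)) (.l 16 .nil))) (.node (.I .jac (.c 8193 (.c 18497 (.c 40 .nil))) (.r 24 (.l 16 .nil))) (.I .jac (.c 8193 (.c 8 (.c 48 .nil))) (.b 40 (.r 24 (.l 16 .nil)))))) (.node (.node (.I .jac (.c 537002377 (.c 8 (.c 40 .nil))) (.r 24 (.l 16 .nil))) (.I .adp (.c 4673 (.c 18753 (.c 8193 .nil))) (.l 16 .nil))) (.node (.I .jac (.c 8193 (.c 40 (.c 48 .nil))) (.l 4673 (.l 16 .nil))) (.I .com (.c 2306972423229201353 (.c 4673 .nil)) (.l 16 .nil))))) (.node (.node (.node (.I .com (.c 2306971873338800137 (.c 4673 .nil)) (.l 16 .nil)) (.I .com (.c 2737112393 (.c 24 .nil)) (.b 8193 (.l 16 .nil)))) (.node (.I .jac (.c 2718204233 (.c 8 (.c 32 .nil))) (.r 24 (.l 16 .nil))) (.I .adp (.c 1310925193 (.c 24 (.c 8257 .nil))) (.l 16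 .nil)))) (.node (.node (.I .com (.c 1310925193 (.c 24 .nil)) (.b 8257 (.l 16 .nil))) (.I .ass (.c 16 (.c 27951061050494848639907477563920710974153 (.c 24 .nil))) .nil)) (.node (.I .com (.c 16 (.c 27951061050494848639907477563920710974153 .nil)) (.r 24 .nil)) (.I .ass (.c 16 (.c 1512103782441961079041378905002237328073 (.c 24 .nil))) .nil))))) (.node (.node (.node (.node (.I .com (.c 16 (.c 1512103782441961079041378905002237328073 .nil)) (.r 24 .nil)) (.I .ass (.c 16 (.c 27951061050494848458324402179417579409289 (.c 24 .nil))) .nil)) (.node (.I .com (.c 16 (.c 27951061050494848458324402179417579409289 .nil)) (.r 24 .nil)) (.I .ass (.c 16 (.c 1512103782441961036806911905286300602249 (.c 24 .nil))) .nil))) (.node (.node (.I .com (.c 16 (.c 1512103782441961036806911905286300602249 .nil)) (.r 24 .nil)) (.I .jac (.c 15038410136445065 (.c 32 (.c 40 .nil))) (.b 16 .nil))) (.node (.I .jac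 (.c 3561346121425033 (.c 32 (.c 48 .nil))) (.b 16 .nil)) (.I .tdb (.c 0 (.c 32 (.c 24 (.c 48 .nil)))) (.l 12865 (.b 16 .nil)))))) (.node (.node (.node (.I .com (.c 15038410136445257 (.c 12865 .nil)) (.b 16 .nil)) (.I .tdb (.c 0 (.c 32 (.c 24 (.c 48 .nil)))) (.b 12865 (.b 16 .nil)))) (.node (.I .com (.c 15456298926182473 (.c 4673 .nil)) (.b 16 .nil)) (.I .adp (.c 15456298926182473 (.c 4673 (.c 16 .nil))) .nil))) (.node (.node (.I .adp (.c 15038410136445257 (.c 12865 (.c 16 .nil))) .nil) (.I .adp (.c 3561346121425225 (.c 18497 (.c 16 .nil))) .nil)) (.node (.I .com (.c 18561 (.c 24 .nil)) (.l 2306969673777850313 .nil)) (.I .adp (.c 537002185 (.c 43954755 (.c 16 .nil))) .nil)))))) (.node (.node (.node (.node (.node (.I .com (.c 18561 (.c 24 .nil)) (.l 13748196208362033865 .nil)) (.I .adp (.c 4609 (.c 15456163896880457 (.c 16 .nil))) .nil)) (.node (.I .tdb (.c 0 (.c 32 (.c 24 (.c 40 .nil))))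 (.b 18497 (.l 16 .nil))) (.I .tdb (.c 0 (.c 32 (.c 24 (.c 48 .nil)))) (.b 12865 (.l 16 .nil))))) (.node (.node (.I .tdb (.c 0 (.c 40 (.c 24 (.c 48 .nil)))) (.b 8257 (.l 16 .nil))) (.I .jac (.c 13748198893136698057 (.c 24 (.c 32 .nil))) (.b 16 .nil))) (.node (.I .jac (.c 59109062884628932553 (.c 24 (.c 32 .nil))) (.b 16 .nil)) (.I .jac (.c 13748192181200529417 (.c 24 (.c 32 .nil))) (.b 16 .nil))))) (.node (.node (.node (.I .jac (.c 12801 (.c 8 (.c 48 .nil))) (.b 8385 (.b 16 .nil))) (.I .com (.c 1459023842844933950499556010948850853888868142414793345823926992799666121 (.c 16 .nil)) .nil)) (.node (.I .com (.c 1459023842844932333893328974360730471930469007931632801926278619086573577 (.c 16 .nil)) .nil) (.I .com (.c 14502348301404392044591456005053312417425453365187673111152000785581737906121 (.c 16 .nil)) .nil))) (.node (.node (.I .jac (.c 59109074018392946377 (.c 24 (.c 32 .nil))) (.b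 16 .nil)) (.I .jac (.c 18433 (.c 8 (.c 40 .nil))) (.b 8385 (.b 16 .nil)))) (.node (.I .ass (.c 16 (.c 42576913200413531150059165447389106185 (.c 40 .nil))) .nil) (.I .com (.c 16 (.c 42576913200413531150059165447389106185 .nil)) (.r 40 .nil)))))) (.node (.node (.node (.node (.I .jac (.c 0 (.c 8 (.c 48 .nil))) (.r 40 (.b 8385 (.l 16 .nil)))) (.I .ass (.c 16 (.c 42576913200413531150059165447389106121 (.c 48 .nil))) .nil)) (.node (.I .ass (.c 42576913200413531150059165447389106121 (.c 16 (.c 48 .nil))) .nil) (.I .com (.c 16 (.c 42576913200413531150059165447389106121 .nil)) (.r 48 .nil)))) (.node (.node (.I .ass (.c 16 (.c 427057993508084562470663629860471689 (.c 8 .nil))) .nil) (.I .com (.c 16 (.c 427057993508084562470663629860471689 .nil)) (.r 8 .nil))) (.node (.I .ass (.c 16 (.c 427057350195049030035896088956978121 (.c 8 .nil))) .nil) (.I .com (.c 16 (.c 427057350195049030035896088956978121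 .nil)) (.r 8 .nil))))) (.node (.node (.node (.I .ass (.c 16 (.c 427057350195048793444981206822395913 (.c 8 .nil))) .nil) (.I .com (.c 16 (.c 427057350195048793444981206822395913 .nil)) (.r 8 .nil))) (.node (.I .ass (.c 16 (.c 42576953795010663218959029878649750345 (.c 8 .nil))) .nil) (.I .com (.c 16 (.c 42576953795010663218959029878649750345 .nil)) (.r 8 .nil)))) (.node (.node (.I .ass (.c 16 (.c 42576913200413542961749526065342514121 (.c 8 .nil))) .nil) (.I .com (.c 16 (.c 42576913200413542961749526065342514121 .nil)) (.r 8 .nil))) (.node (.I .ass (.c 16 (.c 42576913200413540599411453941751701513 (.c 8 .nil))) .nil) (.I .com (.c 16 (.c 42576913200413540599411453941751701513 .nil)) (.r 8 .nil))))))))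

noncomputable def c2_333 : Tr := (.node (.node (.node (.node (.node (.node (.I .ass (.c 16 (.c 537002057 (.c 2775125321 .nil))) .nil) (.I .ass (.c 537002057 (.c 16 (.c 2775125321 .nil))) .nil)) (.node (.I .com (.c 16 (.c 537002057 .nil)) (.r 2775125321 .nil)) (.I .com (.c 1310925193 (.c 8 .nil)) (.b 8385 (.l 16 .nil))))) (.node (.node (.I .jac (.c 14629225721520393 (.c 32 (.c 40 .nil))) (.b 16 .nil)) (.I .jac (.c 3632062472293449 (.c 24 (.c 48 .nil))) (.b 16 .nil))) (.node (.I .tdb (.c 0 (.c 32 (.c 8 (.c 48 .nil)))) (.b 12993 (.b 16 .nil))) (.I .adp (.c 14629225721520457 (.c 12993 (.c 16 .nil))) .nil)))) (.node (.node (.node (.I .adp (.c 3423058053194057 (.c 18625 (.c 16 .nil))) .nil) (.I .adp (.c 537002057 (.c 43954883 (.c 16 .nil))) .nil)) (.node (.I .tdb (.c 0 (.c 40 (.c 8 (.c 48 .nil)))) (.b 8385 (.b 16 .nil))) (.I .adp (.c 513 (.c 15456253916349769 (.c 16 .nil))) .nil))) (.node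 (.node (.I .tdb (.c 0 (.c 24 (.c 40 (.c 8 .nil)))) (.b 18689 (.l 16 .nil))) (.I .tdb (.c 0 (.c 24 (.c 48 (.c 8 .nil)))) (.b 13057 (.l 16 .nil)))) (.node (.I .tdb (.c 0 (.c 32 (.c 8 (.c 48 .nil)))) (.b 12993 (.l 16 .nil))) (.I .tdb (.c 0 (.c 40 (.c 8 (.c 48 .nil)))) (.b 8385 (.l 16 .nil))))))) (.node (.node (.node (.node (.I .jac (.c 174695753 (.c 32 (.c 48 .nil))) (.l 0 (.l 16 .nil))) (.I .ass (.c 16 (.c 0 (.c 476869283470347218690963941929223049 .nil))) .nil)) (.node (.I .ass (.c 0 (.c 16 (.c 476869283470347218690963941929223049 .nil))) .nil) (.I .com (.c 16 (.c 0 .nil)) (.r 476869283470347218690963941929223049 .nil)))) (.node (.node (.I .ass (.c 16 (.c 0 (.c 476868584664180574237867657410331593 .nil))) .nil) (.I .ass (.c 0 (.c 16 (.c 476868584664180574237867657410331593 .nil))) .nil)) (.node (.I .com (.c 16 (.c 0 .nil)) (.r 476868584664180574237867657410331593 .nil)) (.I .ass (.c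 16 (.c 0 (.c 476868584664180324229629534936735753 .nil))) .nil)))) (.node (.node (.node (.I .ass (.c 0 (.c 16 (.c 476868584664180324229629534936735753 .nil))) .nil) (.I .com (.c 16 (.c 0 .nil)) (.r 476868584664180324229629534936735753 .nil))) (.node (.I .adp (.c 0 (.c 2775125321 (.c 8257 .nil))) (.l 16 .nil)) (.I .jac (.c 545424713 (.c 24 (.c 48 .nil))) (.l 0 (.l 16 .nil))))) (.node (.node (.I .jac (.c 8257 (.c 18625 (.c 40 .nil))) (.l 0 (.l 16 .nil))) (.I .jac (.c 8257 (.c 24 (.c 48 .nil))) (.b 40 (.l 0 (.l 16 .nil))))) (.node (.I .jac (.c 0 (.c 8 (.c 32 .nil))) (.r 2775125321 (.l 16 .nil))) (.I .ass (.c 16 (.c 0 (.c 45311580203067586191409432809495036745 .nil))) .nil)))))) (.node (.node (.node (.node (.node (.I .ass (.c 0 (.c 16 (.c 45311580203067586191409432809495036745 .nil))) .nil) (.I .com (.c 16 (.c 0 .nil)) (.r 45311580203067586191409432809495036745 .nil))) (.node (.I .ass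 (.c 16 (.c 0 (.c 45311537668286260118660242538031154121 .nil))) .nil) (.I .ass (.c 0 (.c 16 (.c 45311537668286260118660242538031154121 .nil))) .nil))) (.node (.node (.I .com (.c 16 (.c 0 .nil)) (.r 45311537668286260118660242538031154121 .nil)) (.I .jac (.c 3632040653488265 (.c 24 (.c 48 .nil))) (.b 16 .nil))) (.node (.I .tdb (.c 8 (.c 24 (.c 40 (.c 0 .nil)))) (.b 18689 (.l 16 .nil))) (.I .jac (.c 3632040653488393 (.c 8 (.c 48 .nil))) (.l 16 .nil))))) (.node (.node (.node (.I .jac (.c 3561346121425225 (.c 8 (.c 48 .nil))) (.l 16 .nil)) (.I .com (.c 89098986658144952217736054750701282171613172049237900994840301577 (.c 16 .nil)) .nil)) (.node (.I .com (.c 82361964593860417105222911964665538014612629961065617127821234185 (.c 16 .nil)) .nil) (.I .jac (.c 1310925193 (.c 8257 (.c 24 .nil))) (.l 16 .nil)))) (.node (.node (.I .jac (.c 1310925193 (.c 4673 (.c 32 .nil))) (.l 16 .nil)) (.I .jac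 (.c 1310925193 (.c 8 (.c 24 .nil))) (.b 32 (.l 16 .nil)))) (.node (.I .jac (.c 8786435 (.c 8 (.c 40 .nil))) (.b 48 (.l 16 .nil))) (.I .ass (.c 16 (.c 8193 (.c 14025210098083633993 .nil))) .nil))))) (.node (.node (.node (.node (.I .ass (.c 8193 (.c 16 (.c 14025210098083633993 .nil))) .nil) (.I .com (.c 16 (.c 8193 .nil)) (.r 14025210098083633993 .nil))) (.node (.I .com (.c 13748198893136698185 (.c 8257 .nil)) (.l 16 .nil)) (.I .com (.c 13748198893136698249 (.c 4673 .nil)) (.l 16 .nil)))) (.node (.node (.I .com (.c 8257 (.c 24 .nil)) (.b 2718204233 (.l 16 .nil))) (.I .adp (.c 24 (.c 32 (.c 8 .nil))) (.b 2718204233 (.l 16 .nil)))) (.node (.I .adp (.c 8257 (.c 24 (.c 2718204233 .nil))) (.l 16 .nil)) (.I .com (.c 59109074018392946505 (.c 8257 .nil)) (.l 16 .nil))))) (.node (.node (.node (.I .adp (.c 4673 (.c 32 (.c 2718204233 .nil))) (.l 16 .nil)) (.I .com (.c 59109074018392946569 (.c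 4673 .nil)) (.l 16 .nil))) (.node (.I .adp (.c 8257 (.c 24 (.c 1310925193 .nil))) (.l 16 .nil)) (.I .ass (.c 16 (.c 13748198893136698185 (.c 8257 .nil))) .nil))) (.node (.node (.I .com (.c 16 (.c 13748198893136698185 .nil)) (.r 8257 .nil)) (.I .tdb (.c 4609 (.c 32 (.c 12865 (.c 48 .nil)))) (.l 16 .nil))) (.node (.I .adp (.c 18497 (.c 40 (.c 537002185 .nil))) (.l 16 .nil)) (.I .adp (.c 12865 (.c 48 (.c 537002185 .nil))) (.l 16 .nil))))))))

noncomputable def c2_334 : Tr := (.node (.node (.node (.node (.node (.node (.I .adp (.c 40 (.c 48 (.c 8 .nil))) (.b 169943305 (.l 16 .nil))) (.I .com (.c 18497 (.c 40 .nil)) (.b 169943305 (.l 16 .nil)))) (.node (.I .tdb (.c 4673 (.c 32 (.c 12801 (.c 48 .nil)))) (.l 16 .nil)) (.I .jac (.c 12801 (.c 4673 (.c 32 .nil))) (.r 48 (.l 16 .nil))))) (.node (.node (.I .jac (.c 12801 (.c 8 (.c 24 .nil))) (.b 32 (.r 48 (.l 16 .nil)))) (.I .com (.c 617611520074121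 (.c 18497 .nil)) (.b 16 .nil))) (.node (.I .adp (.c 617611520074121 (.c 18497 (.c 16 .nil))) .nil) (.I .tdb (.c 0 (.c 48 (.c 32 (.c 40 .nil)))) (.l 4673 (.b 16 .nil)))))) (.node (.node (.node (.I .com (.c 3632040653488585 (.c 4673 .nil)) (.b 16 .nil)) (.I .tdb (.c 0 (.c 40 (.c 24 (.c 48 .nil)))) (.l 8257 (.b 16 .nil)))) (.node (.I .com (.c 15038410136445321 (.c 8257 .nil)) (.b 16 .nil)) (.I .adp (.c 3632040653488585 (.c 4673 (.c 16 .nil))) .nil))) (.node (.node (.I .adp (.c 15038410136445321 (.c 8257 (.c 16 .nil))) .nil) (.I .jac (.c 2306969673777850377 (.c 24 (.c 40 .nil))) (.b 16 .nil))) (.node (.I .jac (.c 12865 (.c 24 (.c 48 .nil))) (.l 8193 (.l 16 .nil))) (.I .jac (.c 537002313 (.c 24 (.c 48 .nil))) (.r 8 (.l 16 .nil))))))) (.node (.node (.node (.node (.I .com (.c 1512103782441961064963223238430258354057 (.c 8 .nil)) (.l 16 .nil)) (.I .jac (.c 1310925193 (.c 24 (.c 32 .nil)))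 (.l 8 (.l 16 .nil)))) (.node (.I .com (.c 1512103782441961079041378905002237328201 (.c 8 .nil)) (.l 16 .nil)) (.I .adp (.c 8 (.c 8385 (.c 1310925193 .nil))) (.l 16 .nil)))) (.node (.node (.I .ass (.c 16 (.c 59109074018392946377 (.c 8385 .nil))) .nil) (.I .com (.c 16 (.c 59109074018392946377 .nil)) (.r 8385 .nil))) (.node (.I .adp (.c 40 (.c 48 (.c 24 .nil))) (.b 2105609 (.l 16 .nil))) (.I .com (.c 18625 (.c 40 .nil)) (.b 2105609 (.l 16 .nil)))))) (.node (.node (.node (.I .com (.c 580749782704585 (.c 12993 .nil)) (.b 16 .nil)) (.I .adp (.c 580749782704585 (.c 12993 (.c 16 .nil))) .nil)) (.node (.I .jac (.c 8 (.c 24 (.c 48 .nil))) (.l 537002313 (.l 16 .nil))) (.I .jac (.c 12801 (.c 8 (.c 48 .nil))) (.r 8385 (.l 16 .nil))))) (.node (.node (.I .jac (.c 18433 (.c 8 (.c 40 .nil))) (.r 8385 (.l 16 .nil))) (.I .jac (.c 231045293249046537 (.c 32 (.c 40 .nil))) (.b 16 .nil))) (.node (.I .jac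 (.c 35466557976585 (.c 32 (.c 40 .nil))) (.b 16 .nil)) (.I .jac (.c 231045293249046473 (.c 32 (.c 48 .nil))) (.b 16 .nil))))))) (.node (.node (.node (.node (.node (.I .jac (.c 169943113 (.c 32 (.c 48 .nil))) (.b 40 (.b 16 .nil))) (.I .jac (.c 2728451 (.c 32 (.c 48 .nil))) (.b 40 (.b 16 .nil)))) (.node (.I .jac (.c 2728451 (.c 32 (.c 40 .nil))) (.b 48 (.b 16 .nil))) (.I .jac (.c 169943369 (.c 32 (.c 48 .nil))) (.r 8 (.l 16 .nil))))) (.node (.node (.I .adp (.c 8 (.c 24 (.c 32 .nil))) (.b 1310925193 (.l 16 .nil))) (.I .adp (.c 40 (.c 48 (.c 32 .nil))) (.b 2105545 (.l 16 .nil)))) (.node (.I .com (.c 18689 (.c 40 .nil)) (.b 2105545 (.l 16 .nil))) (.I .adp (.c 40 (.c 48 (.c 32 .nil))) (.b 169943113 (.l 16 .nil)))))) (.node (.node (.node (.I .com (.c 18689 (.c 40 .nil)) (.b 169943113 (.l 16 .nil))) (.I .jac (.c 8 (.c 32 (.c 48 .nil))) (.l 169943369 (.l 16 .nil)))) (.node (.I .jac (.c 12801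 (.c 32 (.c 48 .nil))) (.r 4673 (.l 16 .nil))) (.I .adp (.c 40 (.c 48 (.c 4609 .nil))) (.b 8257 (.l 16 .nil))))) (.node (.node (.I .com (.c 169943433 (.c 40 .nil)) (.b 8257 (.l 16 .nil))) (.I .adp (.c 40 (.c 48 (.c 513 .nil))) (.b 8385 (.l 16 .nil)))) (.node (.I .com (.c 2105737 (.c 40 .nil)) (.b 8385 (.l 16 .nil))) (.I .jac (.c 13748196208362033993 (.c 8 (.c 48 .nil))) (.l 16 .nil)))))) (.node (.node (.node (.node (.I .jac (.c 1310925065 (.c 18497 (.c 24 .nil))) (.l 16 .nil)) (.I .jac (.c 1310925065 (.c 8 (.c 24 .nil))) (.b 48 (.l 16 .nil)))) (.node (.I .jac (.c 1310925001 (.c 8 (.c 48 .nil))) (.b 32 (.l 16 .nil))) (.I .jac (.c 1310925001 (.c 8257 (.c 48 .nil))) (.l 16 .nil)))) (.node (.node (.I .jac (.c 12801 (.c 545424777 (.c 24 .nil))) (.l 16 .nil)) (.I .jac (.c 12801 (.c 8257 (.c 48 .nil))) (.b 24 (.l 16 .nil)))) (.node (.I .jac (.c 12801 (.c 8 (.c 32 .nil))) (.b 48 (.b 24 (.l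 16 .nil)))) (.I .jac (.c 12801 (.c 2737112265 (.c 32 .nil))) (.l 16 .nil))))) (.node (.node (.node (.I .jac (.c 12801 (.c 18497 (.c 24 .nil))) (.b 32 (.l 16 .nil))) (.I .jac (.c 12801 (.c 8 (.c 48 .nil))) (.b 24 (.b 32 (.l 16 .nil))))) (.node (.I .jac (.c 12801 (.c 8 (.c 24 .nil))) (.b 48 (.b 32 (.l 16 .nil)))) (.I .jac (.c 12801 (.c 545424585 (.c 48 .nil))) (.l 16 .nil)))) (.node (.node (.I .jac (.c 12801 (.c 8257 (.c 24 .nil))) (.b 48 (.l 16 .nil))) (.I .jac (.c 12801 (.c 8 (.c 32 .nil))) (.b 24 (.b 48 (.l 16 .nil))))) (.node (.I .com (.c 18291648502882415134592803966624182683633491467101037772051102322018599703773897 (.c 16 .nil)) .nil) (.I .com (.c 14502389782864777333305098924298644388122041815812818455095509447385485234121 (.c 16 .nil)) .nil)))))))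

noncomputable def c2_335 : Tr := (.node (.node (.node (.node (.node (.node (.I .com (.c 6250092156257071158258895001986985405122215187151368882671245003645771191549267913 (.c 16 .nil)) .nil) (.I .jac (.c 12801 (.c 18497 (.c 32 .nil))) (.b 24 (.l 16 .nil)))) (.node (.I .jac (.c 12801 (.c 4673 (.c 32 .nil))) (.b 48 (.l 16 .nil))) (.I .jac (.c 12801 (.c 8 (.c 24 .nil))) (.b 32 (.b 48 (.l 16 .nil)))))) (.node (.node (.I .com (.c 6250093333522399303094997664594709857056025435159091751549910341669577497713434313 (.c 16 .nil)) .nil) (.I .adp (.c 2737112265 (.c 32 (.c 12801 .nil))) (.l 16 .nil))) (.node (.I .com (.c 1310925065 (.c 2737112265 .nil)) (.l 16 .nil)) (.I .jac (.c 12801 (.c 18497 (.c 24 .nil))) (.r 32 (.l 16 .nil)))))) (.node (.node (.node (.I .jac (.c 12801 (.c 8 (.c 48 .nil))) (.b 24 (.r 32 (.l 16 .nil)))) (.I .ass (.c 16 (.c 1512102896582526877926683197569543635657 (.c 32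 .nil))) .nil)) (.node (.I .com (.c 16 (.c 1512102896582526877926683197569543635657 .nil)) (.r 32 .nil)) (.I .adp (.c 169943433 (.c 32 (.c 12865 .nil))) (.l 16 .nil)))) (.node (.node (.I .adp (.c 8193 (.c 18625 (.c 12865 .nil))) (.l 16 .nil)) (.I .ass (.c 16 (.c 27951055785643122968540376538297009659593 (.c 32 .nil))) .nil)) (.node (.I .com (.c 16 (.c 27951055785643122968540376538297009659593 .nil)) (.r 32 .nil)) (.I .ass (.c 16 (.c 27951055785643122726429632160908738482121 (.c 32 .nil))) .nil))))) (.node (.node (.node (.node (.I .com (.c 16 (.c 27951055785643122726429632160908738482121 .nil)) (.r 32 .nil)) (.I .ass (.c 16 (.c 427058636821845719787018514561732553 (.c 32 .nil))) .nil)) (.node (.I .com (.c 16 (.c 427058636821845719787018514561732553 .nil)) (.r 32 .nil)) (.I .ass (.c 16 (.c 8193 (.c 14025206030552608777 .nil))) .nil))) (.node (.node (.I .ass (.c 8193 (.c 16 (.c 14025206030552608777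 .nil))) .nil) (.I .com (.c 16 (.c 8193 .nil)) (.r 14025206030552608777 .nil))) (.node (.I .adp (.c 18497 (.c 8385 (.c 12801 .nil))) (.l 16 .nil)) (.I .jac (.c 12801 (.c 24 (.c 32 .nil))) (.l 18497 (.l 16 .nil)))))) (.node (.node (.node (.I .com (.c 13748196208362033993 (.c 18497 .nil)) (.l 16 .nil)) (.I .adp (.c 174695689 (.c 48 (.c 12801 .nil))) (.l 16 .nil))) (.node (.I .com (.c 1310925193 (.c 174695689 .nil)) (.l 16 .nil)) (.I .adp (.c 18433 (.c 8385 (.c 12865 .nil))) (.l 16 .nil)))) (.node (.node (.I .adp (.c 537002185 (.c 48 (.c 12865 .nil))) (.l 16 .nil)) (.I .adp (.c 169943305 (.c 48 (.c 12865 .nil))) (.l 16 .nil))) (.node (.I .jac (.c 1310925065 (.c 8 (.c 48 .nil))) (.r 24 (.l 16 .nil))) (.I .jac (.c 12801 (.c 18497 (.c 32 .nil))) (.r 24 (.l 16 .nil)))))))) (.node (.node (.node (.node (.node (.I .jac (.c 12801 (.c 8 (.c 48 .nil))) (.b 32 (.r 24 (.l 16 .nil)))) (.I .adp (.c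 4673 (.c 18689 (.c 12801 .nil))) (.l 16 .nil))) (.node (.I .jac (.c 12801 (.c 32 (.c 48 .nil))) (.l 4673 (.l 16 .nil))) (.I .com (.c 13748196208362034185 (.c 4673 .nil)) (.l 16 .nil)))) (.node (.node (.I .ass (.c 16 (.c 1512103191868961706263182477688868913865 (.c 24 .nil))) .nil) (.I .com (.c 16 (.c 1512103191868961706263182477688868913865 .nil)) (.r 24 .nil))) (.node (.I .adp (.c 2718204169 (.c 24 (.c 12865 .nil))) (.l 16 .nil)) (.I .jac (.c 2718204169 (.c 8 (.c 40 .nil))) (.r 24 (.l 16 .nil)))))) (.node (.node (.node (.I .adp (.c 537002377 (.c 24 (.c 12865 .nil))) (.l 16 .nil)) (.I .com (.c 537002377 (.c 24 .nil)) (.b 12865 (.l 16 .nil)))) (.node (.I .com (.c 2718204169 (.c 24 .nil)) (.b 12865 (.l 16 .nil))) (.I .ass (.c 16 (.c 27951058418068892863957554057219361971913 (.c 24 .nil))) .nil))) (.node (.node (.I .com (.c 16 (.c 27951058418068892863957554057219361971913 .nil)) (.r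 24 .nil)) (.I .ass (.c 16 (.c 27951058418068892621846798278856606158793 (.c 24 .nil))) .nil)) (.node (.I .com (.c 16 (.c 27951058418068892621846798278856606158793 .nil)) (.r 24 .nil)) (.I .tdb (.c 0 (.c 40 (.c 24 (.c 32 .nil)))) (.l 18497 (.b 16 .nil))))))) (.node (.node (.node (.node (.I .tdb (.c 0 (.c 40 (.c 24 (.c 32 .nil)))) (.b 18497 (.b 16 .nil))) (.I .adp (.c 1310925193 (.c 8786499 (.c 16 .nil))) .nil)) (.node (.I .adp (.c 1310925065 (.c 43356739 (.c 16 .nil))) .nil) (.I .tdb (.c 0 (.c 8 (.c 24 (.c 32 .nil)))) (.b 18753 (.l 16 .nil))))) (.node (.node (.I .jac (.c 2306972423229201097 (.c 24 (.c 40 .nil))) (.b 16 .nil)) (.I .jac (.c 59109062884628932489 (.c 24 (.c 40 .nil))) (.b 16 .nil))) (.node (.I .jac (.c 8193 (.c 8 (.c 48 .nil))) (.b 12993 (.b 16 .nil))) (.I .com (.c 1459028238553206337213515306440428330009086228327239189161463841863602185 (.c 16 .nil)) .nil)))) (.node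 (.node (.node (.I .com (.c 18291641358826143115283479484929247915667492831088159391184931620742501218226185 (.c 16 .nil)) .nil) (.I .jac (.c 8193 (.c 8 (.c 48 .nil))) (.b 12993 (.l 16 .nil)))) (.node (.I .jac (.c 18433 (.c 8 (.c 32 .nil))) (.b 12993 (.b 16 .nil))) (.I .jac (.c 18433 (.c 8 (.c 32 .nil))) (.b 12993 (.l 16 .nil))))) (.node (.node (.I .jac (.c 0 (.c 8257 (.c 48 .nil))) (.b 12993 (.l 16 .nil))) (.I .jac (.c 0 (.c 8 (.c 32 .nil))) (.b 48 (.b 12993 (.l 16 .nil))))) (.node (.I .adp (.c 18497 (.c 32 (.c 40 .nil))) (.b 4609 (.l 16 .nil))) (.I .ass (.c 16 (.c 427057993508083379515198226665525257 (.c 32 .nil))) .nil)))))))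

noncomputable def c2_336 : Tr := (.node (.node (.node (.node (.node (.node (.I .com (.c 16 (.c 427057993508083379515198226665525257 .nil)) (.r 32 .nil)) (.I .adp (.c 18497 (.c 32 (.c 24 .nil))) (.b 12801 (.l 16 .nil)))) (.node (.I .ass (.c 16 (.c 1512102896582526807535925483778566443017 (.c 32 .nil))) .nil) (.I .com (.c 16 (.c 1512102896582526807535925483778566443017 .nil)) (.r 32 .nil)))) (.node (.node (.I .adp (.c 18497 (.c 32 (.c 0 .nil))) (.b 12993 (.l 16 .nil))) (.I .com (.c 8193 (.c 18497 .nil)) (.b 12993 (.l 16 .nil)))) (.node (.I .jac (.c 0 (.c 8 (.c 48 .nil))) (.r 32 (.b 12993 (.l 16 .nil)))) (.I .ass (.c 16 (.c 427057993508084089288477468582296585 (.c 8 .nil))) .nil)))) (.node (.node (.node (.I .com (.c 16 (.c 427057993508084089288477468582296585 .nil)) (.r 8 .nil)) (.I .com (.c 1512102896582526877926683197569543635849 (.c 8 .nil)) (.l 16 .nil))) (.node (.I .com (.c 1512102896582526849770380112053152562185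 (.c 8 .nil)) (.l 16 .nil)) (.I .tdb (.c 32 (.c 48 (.c 0 (.c 8 .nil)))) (.b 12993 (.l 16 .nil))))) (.node (.node (.I .com (.c 537002377 (.c 8 .nil)) (.b 12993 (.l 16 .nil))) (.I .tdb (.c 0 (.c 24 (.c 32 (.c 8 .nil)))) (.b 18753 (.b 16 .nil)))) (.node (.I .tdb (.c 0 (.c 40 (.c 8 (.c 32 .nil)))) (.b 18625 (.b 16 .nil))) (.I .tdb (.c 0 (.c 40 (.c 8 (.c 32 .nil)))) (.b 18625 (.l 16 .nil))))))) (.node (.node (.node (.node (.I .adp (.c 18433 (.c 32 (.c 40 .nil))) (.b 4673 (.l 16 .nil))) (.I .adp (.c 18433 (.c 32 (.c 24 .nil))) (.b 12865 (.l 16 .nil)))) (.node (.I .adp (.c 18433 (.c 32 (.c 8 .nil))) (.b 12993 (.l 16 .nil))) (.I .ass (.c 16 (.c 0 (.c 476869283470346718674121333501410313 .nil))) .nil))) (.node (.node (.I .ass (.c 0 (.c 16 (.c 476869283470346718674121333501410313 .nil))) .nil) (.I .com (.c 16 (.c 0 .nil)) (.r 476869283470346718674121333501410313 .nil))) (.node (.I .adp (.c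 0 (.c 2775125257 (.c 12865 .nil))) (.l 16 .nil)) (.I .jac (.c 1324066057 (.c 24 (.c 48 .nil))) (.l 0 (.l 16 .nil)))))) (.node (.node (.node (.I .jac (.c 12865 (.c 18625 (.c 32 .nil))) (.l 0 (.l 16 .nil))) (.I .jac (.c 12865 (.c 24 (.c 48 .nil))) (.b 32 (.l 0 (.l 16 .nil))))) (.node (.I .jac (.c 0 (.c 8 (.c 40 .nil))) (.r 2775125257 (.l 16 .nil))) (.I .ass (.c 16 (.c 0 (.c 1573651537851384342490365232370180113225 .nil))) .nil))) (.node (.node (.I .ass (.c 0 (.c 16 (.c 1573651537851384342490365232370180113225 .nil))) .nil) (.I .com (.c 16 (.c 0 .nil)) (.r 1573651537851384342490365232370180113225 .nil))) (.node (.I .ass (.c 16 (.c 0 (.c 1573651233595594118425024216643339486089 .nil))) .nil) (.I .ass (.c 0 (.c 16 (.c 1573651233595594118425024216643339486089 .nil))) .nil)))))) (.node (.node (.node (.node (.node (.I .com (.c 16 (.c 0 .nil)) (.r 1573651233595594118425024216643339486089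 .nil)) (.I .tdb (.c 8 (.c 24 (.c 32 (.c 0 .nil)))) (.b 18753 (.l 16 .nil)))) (.node (.I .com (.c 74495752857506702162333100976131785980161168247330738512826377 (.c 16 .nil)) .nil) (.I .jac (.c 2718204169 (.c 8 (.c 24 .nil))) (.b 40 (.l 16 .nil))))) (.node (.node (.I .adp (.c 24 (.c 40 (.c 0 .nil))) (.b 2737112329 (.l 16 .nil))) (.I .com (.c 12801 (.c 24 .nil)) (.b 2737112329 (.l 16 .nil)))) (.node (.I .adp (.c 12801 (.c 24 (.c 2737112329 .nil))) (.l 16 .nil)) (.I .adp (.c 24 (.c 40 (.c 8 .nil))) (.b 537002377 (.l 16 .nil)))))) (.node (.node (.node (.I .com (.c 12865 (.c 24 .nil)) (.b 537002377 (.l 16 .nil))) (.I .adp (.c 18497 (.c 32 (.c 1310925001 .nil))) (.l 16 .nil))) (.node (.I .adp (.c 32 (.c 48 (.c 8 .nil))) (.b 1310925001 (.l 16 .nil))) (.I .com (.c 18497 (.c 32 .nil)) (.b 1310925001 (.l 16 .nil))))) (.node (.node (.I .adp (.c 32 (.c 48 (.c 8 .nil))) (.b 169943369 (.l 16 .nil)))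 (.I .com (.c 18497 (.c 32 .nil)) (.b 169943369 (.l 16 .nil)))) (.node (.I .jac (.c 13748192181200529289 (.c 24 (.c 48 .nil))) (.b 16 .nil)) (.I .jac (.c 1310924873 (.c 24 (.c 48 .nil))) (.b 32 (.b 16 .nil))))))) (.node (.node (.node (.node (.I .adp (.c 8 (.c 40 (.c 24 .nil))) (.b 537002377 (.l 16 .nil))) (.I .adp (.c 32 (.c 48 (.c 24 .nil))) (.b 1310924873 (.l 16 .nil)))) (.node (.I .com (.c 18625 (.c 32 .nil)) (.b 1310924873 (.l 16 .nil))) (.I .adp (.c 0 (.c 40 (.c 24 .nil))) (.b 2737112329 (.l 16 .nil))))) (.node (.node (.I .adp (.c 0 (.c 12993 (.c 2737112329 .nil))) (.l 16 .nil)) (.I .jac (.c 0 (.c 18497 (.c 32 .nil))) (.r 12993 (.l 16 .nil)))) (.node (.I .jac (.c 0 (.c 8 (.c 48 .nil))) (.b 32 (.r 12993 (.l 16 .nil)))) (.I .adp (.c 32 (.c 48 (.c 12801 .nil))) (.b 4673 (.l 16 .nil)))))) (.node (.node (.node (.I .adp (.c 8 (.c 24 (.c 40 .nil))) (.b 537002377 (.l 16 .nil))) (.I .adp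 (.c 32 (.c 48 (.c 40 .nil))) (.b 169943113 (.l 16 .nil)))) (.node (.I .jac (.c 8 (.c 40 (.c 48 .nil))) (.l 169943305 (.l 16 .nil))) (.I .jac (.c 24 (.c 40 (.c 48 .nil))) (.l 2105609 (.l 16 .nil))))) (.node (.node (.I .adp (.c 32 (.c 48 (.c 4609 .nil))) (.b 12865 (.l 16 .nil))) (.I .com (.c 169943433 (.c 32 .nil)) (.b 12865 (.l 16 .nil)))) (.node (.I .jac (.c 59109062884628932425 (.c 32 (.c 40 .nil))) (.b 16 .nil)) (.I .jac (.c 35473026505545 (.c 32 (.c 40 .nil))) (.b 16 .nil))))))))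

noncomputable def c2_337 : Tr := (.node (.node (.node (.node (.node (.node (.I .jac (.c 0 (.c 18497 (.c 24 .nil))) (.b 13057 (.b 16 .nil))) (.I .jac (.c 0 (.c 8 (.c 48 .nil))) (.b 24 (.b 13057 (.b 16 .nil))))) (.node (.I .com (.c 14502375955699778506396863322320873361739866016083810321336355243778150322185 (.c 16 .nil)) .nil) (.I .jac (.c 0 (.c 18497 (.c 24 .nil))) (.b 13057 (.l 16 .nil))))) (.node (.node (.I .jac (.c 0 (.c 8 (.c 48 .nil))) (.b 24 (.b 13057 (.l 16 .nil)))) (.I .jac (.c 59109068451510808265 (.c 32 (.c 40 .nil))) (.b 16 .nil))) (.node (.I .jac (.c 18433 (.c 8 (.c 24 .nil))) (.b 13057 (.l 16 .nil))) (.I .ass (.c 16 (.c 1512103191868961635872417890875254706185 (.c 24 .nil))) .nil)))) (.node (.node (.node (.I .com (.c 16 (.c 1512103191868961635872417890875254706185 .nil)) (.r 24 .nil)) (.I .adp (.c 4673 (.c 48 (.c 40 .nil))) (.b 8193 (.l 16 .nil)))) (.node (.I .adp (.c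 4673 (.c 48 (.c 32 .nil))) (.b 12801 (.l 16 .nil))) (.I .adp (.c 4673 (.c 48 (.c 0 .nil))) (.b 13057 (.l 16 .nil))))) (.node (.node (.I .com (.c 18433 (.c 4673 .nil)) (.b 13057 (.l 16 .nil))) (.I .jac (.c 0 (.c 8 (.c 24 .nil))) (.r 48 (.b 13057 (.l 16 .nil))))) (.node (.I .ass (.c 16 (.c 42576953795010656131941434981856024585 (.c 8 .nil))) .nil) (.I .com (.c 16 (.c 42576953795010656131941434981856024585 .nil)) (.r 8 .nil)))))) (.node (.node (.node (.node (.I .tdb (.c 24 (.c 48 (.c 0 (.c 8 .nil)))) (.b 13057 (.l 16 .nil))) (.I .com (.c 169943433 (.c 8 .nil)) (.b 13057 (.l 16 .nil)))) (.node (.I .tdb (.c 0 (.c 48 (.c 8 (.c 24 .nil)))) (.b 13057 (.l 16 .nil))) (.I .adp (.c 0 (.c 18625 (.c 40 .nil))) (.b 8257 (.l 16 .nil))))) (.node (.node (.I .ass (.c 16 (.c 0 (.c 45311580203067578880341455872865048585 .nil))) .nil) (.I .ass (.c 0 (.c 16 (.c 45311580203067578880341455872865048585 .nil)))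 .nil)) (.node (.I .com (.c 16 (.c 0 .nil)) (.r 45311580203067578880341455872865048585 .nil)) (.I .adp (.c 0 (.c 18625 (.c 32 .nil))) (.b 12865 (.l 16 .nil)))))) (.node (.node (.node (.I .ass (.c 16 (.c 0 (.c 1573651537851384299404928141360997554185 .nil))) .nil) (.I .ass (.c 0 (.c 16 (.c 1573651537851384299404928141360997554185 .nil))) .nil)) (.node (.I .com (.c 16 (.c 0 .nil)) (.r 1573651537851384299404928141360997554185 .nil)) (.I .adp (.c 0 (.c 18625 (.c 8 .nil))) (.b 13057 (.l 16 .nil))))) (.node (.node (.I .jac (.c 8 (.c 24 (.c 48 .nil))) (.l 0 (.b 13057 (.l 16 .nil)))) (.I .adp (.c 8193 (.c 40 (.c 2737112265 .nil))) (.l 16 .nil))) (.node (.I .adp (.c 12865 (.c 32 (.c 169943433 .nil))) (.l 16 .nil)) (.I .adp (.c 8257 (.c 40 (.c 169943433 .nil))) (.l 16 .nil))))))) (.node (.node (.node (.node (.node (.I .adp (.c 24 (.c 48 (.c 8 .nil))) (.b 1310925065 (.l 16 .nil))) (.I .com (.c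 18497 (.c 24 .nil)) (.b 1310925065 (.l 16 .nil)))) (.node (.I .adp (.c 24 (.c 48 (.c 8 .nil))) (.b 537002313 (.l 16 .nil))) (.I .com (.c 18497 (.c 24 .nil)) (.b 537002313 (.l 16 .nil))))) (.node (.node (.I .adp (.c 8 (.c 40 (.c 32 .nil))) (.b 169943433 (.l 16 .nil))) (.I .adp (.c 24 (.c 48 (.c 32 .nil))) (.b 1310924873 (.l 16 .nil)))) (.node (.I .jac (.c 8 (.c 32 (.c 48 .nil))) (.l 1310925001 (.l 16 .nil))) (.I .adp (.c 0 (.c 40 (.c 32 .nil))) (.b 2737112265 (.l 16 .nil)))))) (.node (.node (.node (.I .adp (.c 0 (.c 13057 (.c 2737112265 .nil))) (.l 16 .nil)) (.I .jac (.c 0 (.c 18497 (.c 24 .nil))) (.r 13057 (.l 16 .nil)))) (.node (.I .jac (.c 0 (.c 8 (.c 48 .nil))) (.b 24 (.r 13057 (.l 16 .nil)))) (.I .adp (.c 24 (.c 48 (.c 12801 .nil))) (.b 8257 (.l 16 .nil))))) (.node (.node (.I .adp (.c 8 (.c 32 (.c 40 .nil))) (.b 169943433 (.l 16 .nil))) (.I .adp (.c 24 (.c 48 (.c 40 .nil))) (.b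 537002057 (.l 16 .nil)))) (.node (.I .jac (.c 8 (.c 40 (.c 48 .nil))) (.l 537002185 (.l 16 .nil))) (.I .jac (.c 32 (.c 40 (.c 48 .nil))) (.l 2105545 (.l 16 .nil))))))) (.node (.node (.node (.node (.I .adp (.c 24 (.c 48 (.c 8193 .nil))) (.b 12865 (.l 16 .nil))) (.I .jac (.c 513 (.c 24 (.c 48 .nil))) (.b 13057 (.l 16 .nil)))) (.node (.I .jac (.c 2718203977 (.c 24 (.c 40 .nil))) (.b 32 (.b 16 .nil))) (.I .jac (.c 2718203977 (.c 24 (.c 32 .nil))) (.b 40 (.b 16 .nil))))) (.node (.node (.I .adp (.c 32 (.c 40 (.c 24 .nil))) (.b 2105737 (.l 16 .nil))) (.I .com (.c 12993 (.c 32 .nil)) (.b 2105737 (.l 16 .nil)))) (.node (.I .adp (.c 8 (.c 48 (.c 24 .nil))) (.b 1310925065 (.l 16 .nil))) (.I .adp (.c 8 (.c 48 (.c 24 .nil))) (.b 537002313 (.l 16 .nil)))))) (.node (.node (.node (.I .com (.c 14629225721520457 (.c 12993 .nil)) (.b 16 .nil)) (.I .tdb (.c 0 (.c 48 (.c 8 (.c 32 .nil)))) (.l 12993 (.b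 16 .nil)))) (.node (.I .adp (.c 24 (.c 40 (.c 18497 .nil))) (.b 8193 (.l 16 .nil))) (.I .jac (.c 0 (.c 8 (.c 48 .nil))) (.b 1350752545 (.l 16 .nil))))) (.node (.node (.I .adp (.c 24 (.c 40 (.c 32 .nil))) (.b 2718203977 (.l 16 .nil))) (.I .adp (.c 24 (.c 40 (.c 32 .nil))) (.b 2105737 (.l 16 .nil)))) (.node (.I .adp (.c 8 (.c 18689 (.c 1310925001 .nil))) (.l 16 .nil)) (.I .jac (.c 1310925001 (.c 32 (.c 48 .nil))) (.l 8 (.l 16 .nil)))))))))

noncomputable def c2_338 : Tr := (.node (.node (.node (.node (.node (.node (.I .adp (.c 8 (.c 48 (.c 32 .nil))) (.b 1310925001 (.l 16 .nil))) (.I .adp (.c 8 (.c 48 (.c 32 .nil))) (.b 169943369 (.l 16 .nil)))) (.node (.I .jac (.c 24 (.c 32 (.c 48 .nil))) (.l 1310924873 (.l 16 .nil))) (.I .adp (.c 0 (.c 40 (.c 18497 .nil))) (.b 8385 (.l 16 .nil))))) (.node (.node (.I .adp (.c 8 (.c 48 (.c 12801 .nil))) (.b 8385 (.l 16 .nil))) (.I .adp (.c 24 (.c 32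 (.c 40 .nil))) (.b 2718203977 (.l 16 .nil)))) (.node (.I .adp (.c 24 (.c 32 (.c 40 .nil))) (.b 2105737 (.l 16 .nil))) (.I .adp (.c 8 (.c 48 (.c 40 .nil))) (.b 537002185 (.l 16 .nil)))))) (.node (.node (.node (.I .adp (.c 8 (.c 48 (.c 40 .nil))) (.b 169943305 (.l 16 .nil))) (.I .jac (.c 24 (.c 40 (.c 48 .nil))) (.l 537002057 (.l 16 .nil)))) (.node (.I .jac (.c 32 (.c 40 (.c 48 .nil))) (.l 169943113 (.l 16 .nil))) (.I .adp (.c 8 (.c 48 (.c 8193 .nil))) (.b 12993 (.l 16 .nil))))) (.node (.node (.I .adp (.c 8 (.c 48 (.c 4609 .nil))) (.b 13057 (.l 16 .nil))) (.I .adp (.c 24 (.c 32 (.c 18433 .nil))) (.b 12865 (.l 16 .nil)))) (.node (.I .jac (.c 174695689 (.c 40 (.c 48 .nil))) (.l 0 (.l 16 .nil))) (.I .jac (.c 18433 (.c 8 (.c 32 .nil))) (.b 40 (.b 24 (.l 16 .nil)))))))) (.node (.node (.node (.node (.I .jac (.c 18433 (.c 8 (.c 24 .nil))) (.b 40 (.b 32 (.l 16 .nil)))) (.I .jac (.c 18433 (.c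 545424585 (.c 40 .nil))) (.l 16 .nil))) (.node (.I .jac (.c 18433 (.c 8 (.c 40 .nil))) (.b 32 (.b 24 (.l 16 .nil)))) (.I .jac (.c 18433 (.c 4673 (.c 32 .nil))) (.b 40 (.l 16 .nil))))) (.node (.node (.I .adp (.c 537002185 (.c 40 (.c 18497 .nil))) (.l 16 .nil)) (.I .com (.c 537002313 (.c 24 .nil)) (.b 18497 (.l 16 .nil)))) (.node (.I .adp (.c 537002313 (.c 24 (.c 18497 .nil))) (.l 16 .nil)) (.I .adp (.c 21099011 (.c 2737112329 (.c 16 .nil))) .nil)))) (.node (.node (.node (.I .adp (.c 2718204233 (.c 8786499 (.c 16 .nil))) .nil) (.I .jac (.c 2306971873338799817 (.c 24 (.c 48 .nil))) (.b 16 .nil))) (.node (.I .jac (.c 8193 (.c 8 (.c 40 .nil))) (.b 18625 (.l 16 .nil))) (.I .jac (.c 13748196208362033865 (.c 24 (.c 48 .nil))) (.b 16 .nil)))) (.node (.node (.I .jac (.c 12801 (.c 8 (.c 32 .nil))) (.b 18625 (.b 16 .nil))) (.I .adp (.c 2105673 (.c 32 (.c 18625 .nil))) (.l 16 .nil))) (.node (.I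 .adp (.c 537002057 (.c 40 (.c 18625 .nil))) (.l 16 .nil)) (.I .adp (.c 2105609 (.c 40 (.c 18625 .nil))) (.l 16 .nil))))))) (.node (.node (.node (.node (.node (.I .com (.c 537002313 (.c 8 .nil)) (.b 18625 (.l 16 .nil))) (.I .adp (.c 537002313 (.c 8 (.c 18625 .nil))) (.l 16 .nil))) (.node (.I .adp (.c 20685315 (.c 2775125257 (.c 16 .nil))) .nil) (.I .adp (.c 2718203977 (.c 21307587 (.c 16 .nil))) .nil))) (.node (.node (.I .adp (.c 8 (.c 24 (.c 48 .nil))) (.b 1310925065 (.l 16 .nil))) (.I .adp (.c 8 (.c 24 (.c 48 .nil))) (.b 537002313 (.l 16 .nil)))) (.node (.I .adp (.c 32 (.c 40 (.c 48 .nil))) (.b 2105545 (.l 16 .nil))) (.I .adp (.c 32 (.c 40 (.c 513 .nil))) (.b 18625 (.l 16 .nil)))))) (.node (.node (.node (.I .com (.c 2105673 (.c 32 .nil)) (.b 18625 (.l 16 .nil))) (.I .jac (.c 35470870263625 (.c 32 (.c 48 .nil))) (.b 16 .nil))) (.node (.I .jac (.c 13748194865974800073 (.c 32 (.c 48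 .nil))) (.b 16 .nil)) (.I .adp (.c 1310924873 (.c 24 (.c 18689 .nil))) (.l 16 .nil)))) (.node (.node (.I .jac (.c 1310924873 (.c 32 (.c 48 .nil))) (.r 24 (.l 16 .nil))) (.I .adp (.c 12801 (.c 4673 (.c 18689 .nil))) (.l 16 .nil))) (.node (.I .adp (.c 169943113 (.c 40 (.c 18689 .nil))) (.l 16 .nil)) (.I .com (.c 1310925001 (.c 8 .nil)) (.b 18689 (.l 16 .nil))))))) (.node (.node (.node (.node (.I .com (.c 169943369 (.c 8 .nil)) (.b 18689 (.l 16 .nil))) (.I .adp (.c 1310925001 (.c 8 (.c 18689 .nil))) (.l 16 .nil))) (.node (.I .jac (.c 1310925001 (.c 32 (.c 48 .nil))) (.r 8 (.l 16 .nil))) (.I .adp (.c 169943369 (.c 8 (.c 18689 .nil))) (.l 16 .nil)))) (.node (.node (.I .adp (.c 0 (.c 174695753 (.c 18689 .nil))) (.l 16 .nil)) (.I .jac (.c 0 (.c 32 (.c 48 .nil))) (.r 174695753 (.l 16 .nil)))) (.node (.I .adp (.c 8 (.c 32 (.c 48 .nil))) (.b 169943369 (.l 16 .nil))) (.I .adp (.c 24 (.c 40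 (.c 48 .nil))) (.b 537002057 (.l 16 .nil)))))) (.node (.node (.node (.I .adp (.c 24 (.c 40 (.c 8193 .nil))) (.b 18497 (.l 16 .nil))) (.I .jac (.c 513 (.c 24 (.c 40 .nil))) (.b 18689 (.b 16 .nil)))) (.node (.I .jac (.c 513 (.c 24 (.c 40 .nil))) (.b 18689 (.l 16 .nil))) (.I .adp (.c 24 (.c 32 (.c 48 .nil))) (.b 2105673 (.l 16 .nil))))) (.node (.node (.I .adp (.c 8 (.c 40 (.c 48 .nil))) (.b 537002185 (.l 16 .nil))) (.I .adp (.c 8 (.c 40 (.c 48 .nil))) (.b 169943305 (.l 16 .nil)))) (.node (.I .adp (.c 8 (.c 40 (.c 8193 .nil))) (.b 18625 (.l 16 .nil))) (.I .adp (.c 8 (.c 40 (.c 4609 .nil))) (.b 18689 (.l 16 .nil)))))))))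

noncomputable def c2_339 : Tr := (.node (.node (.node (.node (.node (.node (.I .adp (.c 8 (.c 24 (.c 12801 .nil))) (.b 18689 (.l 16 .nil))) (.I .jac (.c 231045293249046409 (.c 40 (.c 48 .nil))) (.b 16 .nil))) (.node (.I .jac (.c 4609 (.c 8 (.c 32 .nil))) (.b 18753 (.l 16 .nil))) (.I .jac (.c 0 (.c 8257 (.c 24 .nil))) (.b 18753 (.l 16 .nil))))) (.node (.node (.I .jac (.c 0 (.c 8 (.c 32 .nil))) (.b 24 (.b 18753 (.l 16 .nil)))) (.I .jac (.c 35466557976457 (.c 40 (.c 48 .nil))) (.b 16 .nil))) (.node (.I .adp (.c 537002057 (.c 24 (.c 18753 .nil))) (.l 16 .nil)) (.I .jac (.c 537002057 (.c 40 (.c 48 .nil))) (.r 24 (.l 16 .nil)))))) (.node (.node (.node (.I .adp (.c 2105609 (.c 24 (.c 18753 .nil))) (.l 16 .nil)) (.I .jac (.c 2105609 (.c 40 (.c 48 .nil))) (.r 24 (.l 16 .nil)))) (.node (.I .jac (.c 580749782704393 (.c 40 (.c 48 .nil))) (.b 16 .nil)) (.I .adp (.c 8193 (.c 4673 (.c 18753 .nil)))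 (.l 16 .nil)))) (.node (.node (.I .jac (.c 8193 (.c 40 (.c 48 .nil))) (.r 4673 (.l 16 .nil))) (.I .adp (.c 169943113 (.c 32 (.c 18753 .nil))) (.l 16 .nil))) (.node (.I .jac (.c 169943113 (.c 40 (.c 48 .nil))) (.r 32 (.l 16 .nil))) (.I .adp (.c 2105545 (.c 32 (.c 18753 .nil))) (.l 16 .nil)))))) (.node (.node (.node (.node (.I .jac (.c 2105545 (.c 40 (.c 48 .nil))) (.r 32 (.l 16 .nil))) (.I .com (.c 537002185 (.c 8 .nil)) (.b 18753 (.l 16 .nil)))) (.node (.I .com (.c 169943305 (.c 8 .nil)) (.b 18753 (.l 16 .nil))) (.I .adp (.c 537002185 (.c 8 (.c 18753 .nil))) (.l 16 .nil)))) (.node (.node (.I .jac (.c 537002185 (.c 40 (.c 48 .nil))) (.r 8 (.l 16 .nil))) (.I .adp (.c 169943305 (.c 8 (.c 18753 .nil))) (.l 16 .nil))) (.node (.I .jac (.c 169943305 (.c 40 (.c 48 .nil))) (.r 8 (.l 16 .nil))) (.I .adp (.c 0 (.c 174695689 (.c 18753 .nil))) (.l 16 .nil))))) (.node (.node (.node (.I .jac (.c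 0 (.c 40 (.c 48 .nil))) (.r 174695689 (.l 16 .nil))) (.I .adp (.c 24 (.c 32 (.c 513 .nil))) (.b 18753 (.l 16 .nil)))) (.node (.I .com (.c 2105609 (.c 24 .nil)) (.b 18753 (.l 16 .nil))) (.I .adp (.c 8 (.c 32 (.c 4609 .nil))) (.b 18753 (.l 16 .nil))))) (.node (.node (.I .adp (.c 8 (.c 24 (.c 8193 .nil))) (.b 18753 (.l 16 .nil))) (.I .adp (.c 0 (.c 4673 (.c 32 .nil))) (.b 18753 (.l 16 .nil)))) (.node (.I .adp (.c 0 (.c 4673 (.c 40 .nil))) (.b 18689 (.l 16 .nil))) (.I .adp (.c 0 (.c 4673 (.c 48 .nil))) (.b 13057 (.l 16 .nil)))))))) (.node (.node (.node (.node (.node (.I .jac (.c 4673 (.c 32 (.c 48 .nil))) (.b 40 (.b 16 (.l 0 .nil)))) (.I .jac (.c 8257 (.c 24 (.c 48 .nil))) (.b 40 (.b 16 (.l 0 .nil))))) (.node (.I .jac (.c 12865 (.c 24 (.c 48 .nil))) (.b 32 (.b 16 (.l 0 .nil)))) (.I .jac (.c 8 (.c 24 (.c 48 .nil))) (.b 13057 (.l 16 (.l 0 .nil)))))) (.node (.node (.I .jac (.c 18497 (.c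 24 (.c 40 .nil))) (.b 32 (.b 16 (.l 0 .nil)))) (.I .jac (.c 18497 (.c 24 (.c 32 .nil))) (.b 40 (.b 16 (.l 0 .nil))))) (.node (.I .adp (.c 32 (.c 40 (.c 48 .nil))) (.b 4673 (.l 2049 .nil))) (.I .adp (.c 32 (.c 40 (.c 8 .nil))) (.b 18625 (.l 2049 .nil)))))) (.node (.node (.node (.I .com (.c 12865 (.c 32 .nil)) (.b 18625 (.l 2049 .nil))) (.I .adp (.c 32 (.c 40 (.c 24 .nil))) (.b 18497 (.l 2049 .nil)))) (.node (.I .com (.c 12993 (.c 32 .nil)) (.b 18497 (.l 2049 .nil))) (.I .adp (.c 8 (.c 40 (.c 48 .nil))) (.b 8385 (.l 2049 .nil))))) (.node (.node (.I .adp (.c 8 (.c 40 (.c 24 .nil))) (.b 18689 (.l 2049 .nil))) (.I .adp (.c 8 (.c 40 (.c 32 .nil))) (.b 18625 (.l 2049 .nil)))) (.node (.I .com (.c 8257 (.c 24 .nil)) (.b 18753 (.l 2049 .nil))) (.I .adp (.c 24 (.c 32 (.c 8 .nil))) (.b 18753 (.l 2049 .nil))))))) (.node (.node (.node (.node (.I .adp (.c 24 (.c 32 (.c 48 .nil))) (.b 12865 (.l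 2049 .nil))) (.I .adp (.c 24 (.c 32 (.c 40 .nil))) (.b 18497 (.l 2049 .nil)))) (.node (.I .adp (.c 8 (.c 32 (.c 24 .nil))) (.b 18753 (.l 2049 .nil))) (.I .adp (.c 8 (.c 32 (.c 48 .nil))) (.b 12993 (.l 2049 .nil))))) (.node (.node (.I .adp (.c 8 (.c 32 (.c 40 .nil))) (.b 18625 (.l 2049 .nil))) (.I .jac (.c 169943433 (.c 32 (.c 40 .nil))) (.b 16 (.b 8 .nil)))) (.node (.I .jac (.c 4609 (.c 32 (.c 48 .nil))) (.b 40 (.b 16 (.b 8 .nil)))) (.I .jac (.c 537002377 (.c 24 (.c 40 .nil))) (.b 16 (.b 8 .nil)))))) (.node (.node (.node (.I .jac (.c 8193 (.c 18625 (.c 40 .nil))) (.b 16 (.b 8 .nil))) (.I .jac (.c 4609 (.c 32 (.c 48 .nil))) (.b 40 (.b 8 (.b 16 .nil))))) (.node (.I .jac (.c 537002377 (.c 24 (.c 40 .nil))) (.b 8 (.b 16 .nil))) (.I .jac (.c 537002313 (.c 24 (.c 48 .nil))) (.b 8 (.b 16 .nil))))) (.node (.node (.I .jac (.c 8193 (.c 18625 (.c 40 .nil))) (.b 8 (.b 16 .nil))) (.I .jac (.c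 8193 (.c 12993 (.c 48 .nil))) (.b 8 (.b 16 .nil)))) (.node (.I .jac (.c 8193 (.c 24 (.c 40 .nil))) (.b 48 (.b 8 (.b 16 .nil)))) (.I .jac (.c 1310925193 (.c 24 (.c 32 .nil))) (.b 8 (.b 16 .nil)))))))))

noncomputable def c2_340 : Tr := (.node (.node (.node (.node (.node (.node (.I .jac (.c 169943433 (.c 32 (.c 40 .nil))) (.b 8 (.l 16 .nil))) (.I .jac (.c 4609 (.c 32 (.c 48 .nil))) (.b 40 (.b 8 (.l 16 .nil))))) (.node (.I .jac (.c 537002377 (.c 24 (.c 40 .nil))) (.b 8 (.l 16 .nil))) (.I .jac (.c 8193 (.c 24 (.c 48 .nil))) (.b 40 (.b 8 (.l 16 .nil)))))) (.node (.node (.I .jac (.c 8193 (.c 12993 (.c 48 .nil))) (.b 8 (.l 16 .nil))) (.I .jac (.c 8193 (.c 24 (.c 40 .nil))) (.b 48 (.b 8 (.l 16 .nil))))) (.node (.I .jac (.c 2718204233 (.c 24 (.c 32 .nil))) (.b 8 (.l 16 .nil))) (.I .tdb (.c 0 (.c 48 (.c 24 (.c 40 .nil)))) (.b 32 (.t 8 16 .nil)))))) (.node (.node (.node (.I .tdb (.c 0 (.c 48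 (.c 32 (.c 40 .nil)))) (.b 24 (.t 8 16 .nil))) (.I .tdb (.c 0 (.c 40 (.c 24 (.c 48 .nil)))) (.b 32 (.t 8 16 .nil)))) (.node (.I .tdb (.c 0 (.c 40 (.c 32 (.c 48 .nil)))) (.b 24 (.t 8 16 .nil))) (.I .jac (.c 1310925065 (.c 24 (.c 48 .nil))) (.b 16 (.b 8 .nil))))) (.node (.node (.I .jac (.c 12801 (.c 18625 (.c 32 .nil))) (.b 16 (.b 8 .nil))) (.I .jac (.c 12801 (.c 24 (.c 48 .nil))) (.b 32 (.b 16 (.b 8 .nil))))) (.node (.I .jac (.c 12801 (.c 18625 (.c 32 .nil))) (.b 8 (.b 16 .nil))) (.I .jac (.c 12801 (.c 24 (.c 48 .nil))) (.b 32 (.b 8 (.b 16 .nil)))))))) (.node (.node (.node (.node (.I .jac (.c 2718204169 (.c 24 (.c 40 .nil))) (.b 8 (.b 16 .nil))) (.I .adp (.c 32 (.c 48 (.c 40 .nil))) (.b 4609 (.l 2113 .nil)))) (.node (.I .adp (.c 32 (.c 48 (.c 24 .nil))) (.b 12801 (.l 2113 .nil))) (.I .com (.c 18625 (.c 32 .nil)) (.b 12801 (.l 2113 .nil))))) (.node (.node (.I .adp (.c 32 (.c 48 (.c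 0 .nil))) (.b 12993 (.l 2113 .nil))) (.I .com (.c 18433 (.c 32 .nil)) (.b 12993 (.l 2113 .nil)))) (.node (.I .tdb (.c 0 (.c 48 (.c 24 (.c 32 .nil)))) (.b 40 (.t 8 16 .nil))) (.I .jac (.c 0 (.c 24 (.c 48 .nil))) (.b 13057 (.l 2113 .nil)))))) (.node (.node (.node (.I .jac (.c 2718204105 (.c 32 (.c 40 .nil))) (.b 16 (.b 8 .nil))) (.I .jac (.c 0 (.c 24 (.c 48 .nil))) (.b 13057 (.b 16 (.b 8 .nil))))) (.node (.I .jac (.c 0 (.c 24 (.c 48 .nil))) (.b 13057 (.l 16 (.l 8 .nil)))) (.I .jac (.c 2718204105 (.c 32 (.c 40 .nil))) (.b 8 (.b 16 .nil))))) (.node (.node (.I .jac (.c 0 (.c 24 (.c 48 .nil))) (.b 13057 (.b 8 (.b 16 .nil)))) (.I .jac (.c 2718204105 (.c 32 (.c 40 .nil))) (.b 8 (.l 16 .nil)))) (.node (.I .adp (.c 0 (.c 48 (.c 40 .nil))) (.b 8385 (.l 2113 .nil))) (.I .adp (.c 0 (.c 48 (.c 32 .nil))) (.b 12993 (.l 2113 .nil)))))))) (.node (.node (.node (.node (.node (.I .adp (.c 0 (.c 48 (.c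 24 .nil))) (.b 13057 (.l 2113 .nil))) (.I .jac (.c 18433 (.c 24 (.c 32 .nil))) (.b 40 (.b 16 (.b 8 .nil))))) (.node (.I .jac (.c 18433 (.c 12993 (.c 32 .nil))) (.b 8 (.b 16 .nil))) (.I .jac (.c 18433 (.c 24 (.c 40 .nil))) (.b 32 (.b 8 (.b 16 .nil)))))) (.node (.node (.I .jac (.c 18433 (.c 24 (.c 32 .nil))) (.b 40 (.b 8 (.b 16 .nil)))) (.I .jac (.c 18433 (.c 12993 (.c 32 .nil))) (.b 8 (.l 16 .nil)))) (.node (.I .jac (.c 18433 (.c 24 (.c 40 .nil))) (.b 32 (.b 8 (.l 16 .nil)))) (.I .jac (.c 18433 (.c 24 (.c 32 .nil))) (.b 40 (.b 8 (.l 16 .nil))))))) (.node (.node (.node (.I .adp (.c 12801 (.c 32 (.c 18625 .nil))) (.l 2113 .nil)) (.I .jac (.c 0 (.c 24 (.c 40 .nil))) (.b 18689 (.b 8 (.b 16 .nil))))) (.node (.I .jac (.c 1310925001 (.c 32 (.c 48 .nil))) (.b 8 (.l 16 .nil))) (.I .jac (.c 0 (.c 24 (.c 40 .nil))) (.b 18689 (.b 8 (.l 16 .nil)))))) (.node (.node (.I .adp (.c 0 (.c 13057 (.c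 18625 .nil))) (.l 2113 .nil)) (.I .jac (.c 537002185 (.c 40 (.c 48 .nil))) (.b 16 (.b 8 .nil)))) (.node (.I .jac (.c 169943305 (.c 40 (.c 48 .nil))) (.b 8 (.b 16 .nil))) (.I .jac (.c 169943305 (.c 40 (.c 48 .nil))) (.b 8 (.l 16 .nil))))))) (.node (.node (.node (.node (.I .adp (.c 4609 (.c 32 (.c 18753 .nil))) (.l 2113 .nil)) (.I .jac (.c 4609 (.c 40 (.c 48 .nil))) (.r 32 (.l 2113 .nil)))) (.node (.I .jac (.c 8786435 (.c 40 (.c 48 .nil))) (.b 16 (.l 8 .nil))) (.I .adp (.c 0 (.c 8385 (.c 18753 .nil))) (.l 2113 .nil)))) (.node (.node (.I .jac (.c 0 (.c 40 (.c 48 .nil))) (.r 8385 (.l 2113 .nil))) (.I .adp (.c 0 (.c 32 (.c 24 .nil))) (.b 18753 (.l 2113 .nil)))) (.node (.I .adp (.c 0 (.c 32 (.c 48 .nil))) (.b 12993 (.l 2113 .nil))) (.I .adp (.c 0 (.c 32 (.c 40 .nil))) (.b 18625 (.l 2113 .nil)))))) (.node (.node (.node (.I .jac (.c 35468714087433 (.c 16 (.c 40 .nil))) (.l 24 .nil)) (.I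 .jac (.c 2105737 (.c 12929 (.c 32 .nil))) (.l 24 .nil))) (.node (.I .jac (.c 2105737 (.c 16 (.c 32 .nil))) (.b 40 (.l 24 .nil))) (.I .jac (.c 2105673 (.c 16 (.c 32 .nil))) (.b 48 (.l 24 .nil))))) (.node (.node (.I .jac (.c 513 (.c 16 (.c 32 .nil))) (.b 48 (.b 40 (.l 24 .nil)))) (.I .com (.c 810705155099798343965562745663193654065454779960977137417 (.c 24 .nil)) .nil)) (.node (.I .com (.c 810508056940148059469137302931108348943800201403549467401 (.c 24 .nil)) .nil) (.I .jac (.c 9024976834607113 (.c 8 (.c 32 .nil))) (.l 24 .nil))))))))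

noncomputable def c2_341 : Tr := (.node (.node (.node (.node (.node (.node (.I .jac (.c 9025011228269449 (.c 8 (.c 40 .nil))) (.l 24 .nil)) (.I .jac (.c 9024942441010185 (.c 8 (.c 40 .nil))) (.l 24 .nil))) (.node (.I .jac (.c 9024976834606985 (.c 8 (.c 48 .nil))) (.l 24 .nil)) (.I .jac (.c 33587529 (.c 18497 (.c 32 .nil))) (.l 24 .nil)))) (.node (.node (.I .jac (.c 33587529 (.c 8257 (.c 48 .nil))) (.l 24 .nil)) (.I .jac (.c 33587529 (.c 8 (.c 32 .nil))) (.b 48 (.l 24 .nil)))) (.node (.I .jac (.c 33587465 (.c 12865 (.c 48 .nil))) (.l 24 .nil)) (.I .jac (.c 2049 (.c 1324066185 (.c 32 .nil))) (.l 24 .nil))))) (.node (.node (.node (.I .jac (.c 2049 (.c 12865 (.c 48 .nil))) (.b 32 (.l 24 .nil))) (.I .jac (.c 2049 (.c 8 (.c 40 .nil))) (.b 48 (.b 32 (.l 24 .nil))))) (.node (.I .jac (.c 2049 (.c 2737112329 (.c 40 .nil))) (.l 24 .nil)) (.I .jac (.c 2049 (.c 18497 (.c 32 .nil))) (.b 40 (.l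 24 .nil))))) (.node (.node (.I .jac (.c 2049 (.c 8 (.c 48 .nil))) (.b 32 (.b 40 (.l 24 .nil)))) (.I .jac (.c 2049 (.c 545424777 (.c 40 .nil))) (.l 24 .nil))) (.node (.I .jac (.c 2049 (.c 8257 (.c 48 .nil))) (.b 40 (.l 24 .nil))) (.I .com (.c 3396677733572128150556303835501881027288113257117602985141748890313 (.c 24 .nil)) .nil))))) (.node (.node (.node (.node (.I .jac (.c 59109071234951844809 (.c 8 (.c 16 .nil))) (.l 24 .nil)) (.I .jac (.c 13748196208362034185 (.c 8 (.c 16 .nil))) (.l 24 .nil))) (.node (.I .com (.c 18291648502882416156398562140872571244307267590053391915318467398749760081736393 (.c 24 .nil)) .nil) (.I .com (.c 14502389782864780551906021094515387579787133456768245023281343434378065071881 (.c 24 .nil)) .nil))) (.node (.node (.I .jac (.c 35473026505673 (.c 16 (.c 32 .nil))) (.l 24 .nil)) (.I .jac (.c 2105737 (.c 16 (.c 40 .nil))) (.b 32 (.l 24 .nil)))) (.node (.I .jac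 (.c 2105609 (.c 18561 (.c 40 .nil))) (.l 24 .nil)) (.I .jac (.c 513 (.c 16 (.c 48 .nil))) (.b 40 (.b 32 (.l 24 .nil))))))) (.node (.node (.node (.I .jac (.c 9025011228269513 (.c 8 (.c 32 .nil))) (.l 24 .nil)) (.I .jac (.c 33587593 (.c 8 (.c 40 .nil))) (.b 32 (.l 24 .nil)))) (.node (.I .jac (.c 2049 (.c 2737112393 (.c 32 .nil))) (.l 24 .nil)) (.I .jac (.c 2049 (.c 18497 (.c 40 .nil))) (.b 32 (.l 24 .nil))))) (.node (.node (.I .jac (.c 2049 (.c 8257 (.c 40 .nil))) (.b 48 (.l 24 .nil))) (.I .jac (.c 2049 (.c 8 (.c 32 .nil))) (.b 40 (.b 48 (.l 24 .nil))))) (.node (.I .com (.c 3396729512034148832394861772917883078369351942693322843864918375113 (.c 24 .nil)) .nil) (.I .com (.c 3396625955800545996126404119920466004866084415213952229955909321417 (.c 24 .nil)) .nil)))))) (.node (.node (.node (.node (.node (.I .jac (.c 59109074018392946569 (.c 8 (.c 16 .nil))) (.l 24 .nil)) (.I .jac (.c 2306971873338800137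 (.c 8 (.c 16 .nil))) (.l 24 .nil))) (.node (.I .com (.c 6250094510787921532714972949261795359940742914154107364219881196449630129872539401 (.c 24 .nil)) .nil) (.I .com (.c 14502375955699783334294794239894626497353994376020494329912817139171932376841 (.c 24 .nil)) .nil))) (.node (.node (.I .com (.c 35473026505609 (.c 12929 .nil)) (.l 24 .nil)) (.I .ass (.c 24 (.c 35473026505609 (.c 12929 .nil))) .nil)) (.node (.I .com (.c 24 (.c 35473026505609 .nil)) (.r 12929 .nil)) (.I .ass (.c 24 (.c 2105673 (.c 553912713 .nil))) .nil)))) (.node (.node (.node (.I .ass (.c 2105673 (.c 24 (.c 553912713 .nil))) .nil) (.I .com (.c 24 (.c 2105673 .nil)) (.r 553912713 .nil))) (.node (.I .com (.c 9024942441010185 (.c 12865 .nil)) (.l 24 .nil)) (.I .ass (.c 24 (.c 9024942441010185 (.c 12865 .nil))) .nil))) (.node (.node (.I .com (.c 24 (.c 9024942441010185 .nil)) (.r 12865 .nil)) (.I .ass (.c 24 (.c 9024976834606793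 (.c 18689 .nil))) .nil)) (.node (.I .ass (.c 9024976834606793 (.c 24 (.c 18689 .nil))) .nil) (.I .com (.c 24 (.c 9024976834606793 .nil)) (.r 18689 .nil)))))) (.node (.node (.node (.node (.I .ass (.c 24 (.c 33587529 (.c 2737112329 .nil))) .nil) (.I .ass (.c 33587529 (.c 24 (.c 2737112329 .nil))) .nil)) (.node (.I .com (.c 24 (.c 33587529 .nil)) (.r 2737112329 .nil)) (.I .ass (.c 24 (.c 42576974092320099556365595025629983433 (.c 40 .nil))) .nil))) (.node (.node (.I .com (.c 24 (.c 42576974092320099556365595025629983433 .nil)) (.r 40 .nil)) (.I .ass (.c 24 (.c 42576974092320097194025833638928027401 (.c 40 .nil))) .nil)) (.node (.I .com (.c 24 (.c 42576974092320097194025833638928027401 .nil)) (.r 40 .nil)) (.I .ass (.c 24 (.c 537002377 (.c 35718473 .nil))) .nil)))) (.node (.node (.node (.I .com (.c 24 (.c 537002377 .nil)) (.r 35718473 .nil)) (.I .ass (.c 24 (.c 13748193523587631817 (.c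 18689 .nil))) .nil)) (.node (.I .ass (.c 13748193523587631817 (.c 24 (.c 18689 .nil))) .nil) (.I .com (.c 24 (.c 13748193523587631817 .nil)) (.r 18689 .nil)))) (.node (.node (.I .ass (.c 24 (.c 13748192181200529161 (.c 18689 .nil))) .nil) (.I .ass (.c 13748192181200529161 (.c 24 (.c 18689 .nil))) .nil)) (.node (.I .com (.c 24 (.c 13748192181200529161 .nil)) (.r 18689 .nil)) (.I .com (.c 35470870263689 (.c 18561 .nil)) (.l 24 .nil))))))))

noncomputable def c2_342 : Tr := (.node (.node (.node (.node (.node (.node (.I .com (.c 35468714087369 (.c 18561 .nil)) (.l 24 .nil)) (.I .jac (.c 2105609 (.c 16 (.c 40 .nil))) (.r 48 (.l 24 .nil)))) (.node (.I .jac (.c 2105673 (.c 16 (.c 32 .nil))) (.r 48 (.l 24 .nil))) (.I .ass (.c 24 (.c 35473026505481 (.c 13057 .nil))) .nil))) (.node (.node (.I .com (.c 24 (.c 35473026505481 .nil)) (.r 13057 .nil)) (.I .adp (.c 18497 (.c 13057 (.c 2049 .nil)))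 (.l 24 .nil))) (.node (.I .jac (.c 2049 (.c 32 (.c 40 .nil))) (.l 18497 (.l 24 .nil))) (.I .com (.c 9024976834606985 (.c 18497 .nil)) (.l 24 .nil))))) (.node (.node (.node (.I .com (.c 9024942441010121 (.c 18497 .nil)) (.l 24 .nil)) (.I .jac (.c 33587465 (.c 8 (.c 40 .nil))) (.r 48 (.l 24 .nil)))) (.node (.I .jac (.c 33587529 (.c 8 (.c 32 .nil))) (.r 48 (.l 24 .nil))) (.I .ass (.c 24 (.c 9025011228269257 (.c 13057 .nil))) .nil))) (.node (.node (.I .com (.c 24 (.c 9025011228269257 .nil)) (.r 13057 .nil)) (.I .tdb (.c 32 (.c 12801 (.c 8 (.c 48 .nil)))) (.b 16 (.l 24 .nil)))) (.node (.I .tdb (.c 0 (.c 40 (.c 8 (.c 48 .nil)))) (.b 32 (.b 16 (.l 24 .nil)))) (.I .tdb (.c 32 (.c 12801 (.c 16 (.c 48 .nil)))) (.b 8 (.l 24 .nil))))))) (.node (.node (.node (.node (.I .tdb (.c 0 (.c 40 (.c 16 (.c 48 .nil)))) (.b 32 (.b 8 (.l 24 .nil)))) (.I .tdb (.c 8 (.c 16 (.c 48 (.c 1310925065 .nil)))) (.l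 24 .nil))) (.node (.I .adp (.c 18433 (.c 13057 (.c 2113 .nil))) (.l 24 .nil)) (.I .jac (.c 18433 (.c 8 (.c 16 .nil))) (.r 13057 (.l 24 .nil))))) (.node (.node (.I .adp (.c 1310925065 (.c 48 (.c 2113 .nil))) (.l 24 .nil)) (.I .jac (.c 1310925065 (.c 8 (.c 16 .nil))) (.r 48 (.l 24 .nil)))) (.node (.I .ass (.c 24 (.c 42576953795010653769602236682924913353 (.c 48 .nil))) .nil) (.I .ass (.c 42576953795010653769602236682924913353 (.c 24 (.c 48 .nil))) .nil)))) (.node (.node (.node (.I .com (.c 24 (.c 42576953795010653769602236682924913353 .nil)) (.r 48 .nil)) (.I .ass (.c 24 (.c 42576953795010651407263038383993868041 (.c 48 .nil))) .nil)) (.node (.I .ass (.c 42576953795010651407263038383993868041 (.c 24 (.c 48 .nil))) .nil) (.I .com (.c 24 (.c 42576953795010651407263038383993868041 .nil)) (.r 48 .nil)))) (.node (.node (.I .com (.c 35470870263817 (.c 8321 .nil)) (.l 24 .nil)) (.I .ass (.c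 24 (.c 35473026505673 (.c 8321 .nil))) .nil)) (.node (.I .com (.c 24 (.c 35473026505673 .nil)) (.r 8321 .nil)) (.I .ass (.c 24 (.c 35470870263817 (.c 8321 .nil))) .nil)))))) (.node (.node (.node (.node (.node (.I .com (.c 24 (.c 35470870263817 .nil)) (.r 8321 .nil)) (.I .ass (.c 24 (.c 2105609 (.c 2756086089 .nil))) .nil)) (.node (.I .ass (.c 2105609 (.c 24 (.c 2756086089 .nil))) .nil) (.I .com (.c 24 (.c 2105609 .nil)) (.r 2756086089 .nil)))) (.node (.node (.I .ass (.c 24 (.c 2105609 (.c 1337272713 .nil))) .nil) (.I .ass (.c 2105609 (.c 24 (.c 1337272713 .nil))) .nil)) (.node (.I .com (.c 24 (.c 2105609 .nil)) (.r 1337272713 .nil)) (.I .adp (.c 2737112393 (.c 32 (.c 2049 .nil))) (.l 24 .nil))))) (.node (.node (.node (.I .com (.c 33587465 (.c 2737112393 .nil)) (.l 24 .nil)) (.I .com (.c 9024976834607113 (.c 8257 .nil)) (.l 24 .nil))) (.node (.I .ass (.c 24 (.c 9024976834607113 (.c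 8257 .nil))) .nil) (.I .com (.c 24 (.c 9024976834607113 .nil)) (.r 8257 .nil)))) (.node (.node (.I .ass (.c 24 (.c 33587465 (.c 2737112393 .nil))) .nil) (.I .ass (.c 33587465 (.c 24 (.c 2737112393 .nil))) .nil)) (.node (.I .com (.c 24 (.c 33587465 .nil)) (.r 2737112393 .nil)) (.I .adp (.c 2718204233 (.c 32 (.c 2113 .nil))) (.l 24 .nil)))))) (.node (.node (.node (.node (.I .adp (.c 1310925193 (.c 32 (.c 2113 .nil))) (.l 24 .nil)) (.I .jac (.c 1310925193 (.c 8 (.c 16 .nil))) (.r 32 (.l 24 .nil)))) (.node (.I .com (.c 1310925193 (.c 32 .nil)) (.b 2113 (.l 24 .nil))) (.I .ass (.c 24 (.c 2718204233 (.c 35718409 .nil))) .nil))) (.node (.node (.I .com (.c 24 (.c 2718204233 .nil)) (.r 35718409 .nil)) (.I .ass (.c 24 (.c 1310925193 (.c 35718409 .nil))) .nil)) (.node (.I .com (.c 24 (.c 1310925193 .nil)) (.r 35718409 .nil)) (.I .ass (.c 24 (.c 2306970223667989193 (.c 18753 .nil))) .nil))))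 (.node (.node (.node (.I .ass (.c 2306970223667989193 (.c 24 (.c 18753 .nil))) .nil) (.I .com (.c 24 (.c 2306970223667989193 .nil)) (.r 18753 .nil))) (.node (.I .ass (.c 24 (.c 2306969673777850121 (.c 18753 .nil))) .nil) (.I .ass (.c 2306969673777850121 (.c 24 (.c 18753 .nil))) .nil))) (.node (.node (.I .com (.c 24 (.c 2306969673777850121 .nil)) (.r 18753 .nil)) (.I .tdb (.c 0 (.c 8 (.c 32 (.c 40 .nil)))) (.b 18561 (.b 24 .nil)))) (.node (.I .tdb (.c 0 (.c 8 (.c 32 (.c 48 .nil)))) (.b 12929 (.b 24 .nil))) (.I .adp (.c 2105609 (.c 43954819 (.c 24 .nil))) .nil)))))))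

noncomputable def c2_343 : Tr := (.node (.node (.node (.node (.node (.node (.I .tdb (.c 0 (.c 16 (.c 32 (.c 40 .nil)))) (.b 18497 (.b 24 .nil))) (.I .com (.c 15246281046235209 (.c 12865 .nil)) (.b 24 .nil))) (.node (.I .tdb (.c 0 (.c 16 (.c 32 (.c 48 .nil)))) (.b 12865 (.b 24 .nil))) (.I .com (.c 15456208906582089 (.c 8257 .nil)) (.b 24 .nil)))) (.node (.node (.I .tdb (.c 0 (.c 16 (.c 40 (.c 48 .nil)))) (.b 8257 (.b 24 .nil))) (.I .adp (.c 15456208906582089 (.c 8257 (.c 24 .nil))) .nil)) (.node (.I .adp (.c 15246281046235209 (.c 12865 (.c 24 .nil))) .nil) (.I .com (.c 18625 (.c 32 .nil)) (.l 9024839260612553 .nil))))) (.node (.node (.node (.I .com (.c 18625 (.c 40 .nil)) (.l 9024839260612489 .nil)) (.I .adp (.c 43954691 (.c 35718409 (.c 24 .nil))) .nil)) (.node (.I .tdb (.c 0 (.c 8 (.c 48 (.c 12929 .nil)))) (.b 32 (.l 24 .nil))) (.I .tdb (.c 16 (.c 40 (.c 0 (.c 48 .nil)))) (.b 8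 (.b 32 (.l 24 .nil)))))) (.node (.node (.I .tdb (.c 16 (.c 40 (.c 8 (.c 48 .nil)))) (.b 0 (.b 32 (.l 24 .nil)))) (.I .tdb (.c 16 (.c 40 (.c 32 (.c 48 .nil)))) (.b 513 (.l 24 .nil)))) (.node (.I .tdb (.c 0 (.c 8 (.c 32 (.c 40 .nil)))) (.b 18561 (.l 24 .nil))) (.I .tdb (.c 0 (.c 8 (.c 32 (.c 48 .nil)))) (.b 12929 (.l 24 .nil))))))) (.node (.node (.node (.node (.I .tdb (.c 0 (.c 16 (.c 48 (.c 12865 .nil)))) (.b 32 (.l 24 .nil))) (.I .tdb (.c 8 (.c 40 (.c 0 (.c 48 .nil)))) (.b 16 (.b 32 (.l 24 .nil))))) (.node (.I .tdb (.c 8 (.c 40 (.c 16 (.c 48 .nil)))) (.b 0 (.b 32 (.l 24 .nil)))) (.I .tdb (.c 8 (.c 40 (.c 32 (.c 48 .nil)))) (.b 2049 (.l 24 .nil))))) (.node (.node (.I .tdb (.c 0 (.c 40 (.c 8 (.c 48 .nil)))) (.b 16 (.b 32 (.l 24 .nil)))) (.I .tdb (.c 0 (.c 40 (.c 16 (.c 48 .nil)))) (.b 8 (.b 32 (.l 24 .nil))))) (.node (.I .tdb (.c 0 (.c 40 (.c 32 (.c 48 .nil)))) (.b 2113 (.l 24 .nil)))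 (.I .com (.c 810508056951847240291898495278391705359985640078949069705 (.c 24 .nil)) .nil)))) (.node (.node (.node (.I .com (.c 810311000722058987568294017183885498617107931928410829769 (.c 24 .nil)) .nil) (.I .com (.c 810311000716210463833463042854467689180567721849054655497 (.c 24 .nil)) .nil)) (.node (.I .jac (.c 2306972423229201161 (.c 8 (.c 40 .nil))) (.l 24 .nil)) (.I .jac (.c 537002377 (.c 12865 (.c 16 .nil))) (.l 24 .nil)))) (.node (.node (.I .jac (.c 537002313 (.c 8 (.c 48 .nil))) (.b 16 (.l 24 .nil))) (.I .jac (.c 537002313 (.c 8 (.c 16 .nil))) (.b 48 (.l 24 .nil)))) (.node (.I .jac (.c 537002121 (.c 8 (.c 48 .nil))) (.b 40 (.l 24 .nil))) (.I .jac (.c 537002121 (.c 12865 (.c 48 .nil))) (.l 24 .nil))))))) (.node (.node (.node (.node (.node (.I .jac (.c 8193 (.c 1324066185 (.c 16 .nil))) (.l 24 .nil)) (.I .jac (.c 8193 (.c 12865 (.c 48 .nil))) (.b 16 (.l 24 .nil)))) (.node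 (.I .jac (.c 8193 (.c 8 (.c 16 .nil))) (.b 48 (.b 40 (.l 24 .nil)))) (.I .com (.c 14502389782864775724004637839190473870054118106376301380787647791187248389833 (.c 24 .nil)) .nil))) (.node (.node (.I .com (.c 14502320647155140909428280329389864294219790362630035964032127632402744177673 (.c 24 .nil)) .nil) (.I .jac (.c 13748198893136698121 (.c 8 (.c 32 .nil))) (.l 24 .nil))) (.node (.I .jac (.c 59109065668069837769 (.c 8 (.c 32 .nil))) (.l 24 .nil)) (.I .com (.c 6250090978991937044041231628596924245378111308027420245797076845336894728663448265 (.c 24 .nil)) .nil)))) (.node (.node (.node (.I .com (.c 18291634214772312870418720943292726177285072127727088338175416740637944035544969 (.c 24 .nil)) .nil) (.I .com (.c 810705155105649001215608568667256930368572131601494406025 (.c 24 .nil)) .nil)) (.node (.I .jac (.c 537002377 (.c 2113 (.c 40 .nil))) (.l 24 .nil)) (.I .jac (.c 2306970223667989449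 (.c 8 (.c 48 .nil))) (.l 24 .nil)))) (.node (.node (.I .jac (.c 8193 (.c 2737112393 (.c 16 .nil))) (.l 24 .nil)) (.I .jac (.c 8193 (.c 18497 (.c 40 .nil))) (.b 16 (.l 24 .nil)))) (.node (.I .jac (.c 8193 (.c 8 (.c 48 .nil))) (.b 40 (.b 16 (.l 24 .nil)))) (.I .jac (.c 8193 (.c 35718473 (.c 48 .nil))) (.l 24 .nil)))))) (.node (.node (.node (.node (.I .com (.c 14502320647155142518722987525103327800267944149954142344186607676513272373001 (.c 24 .nil)) .nil) (.I .com (.c 6250094510787921478576950273967337931416503726867853210418213585316883023165848265 (.c 24 .nil)) .nil)) (.node (.I .com (.c 3396677733572128150556303835499879307004194224181295664632641752969 (.c 24 .nil)) .nil) (.I .com (.c 2306970223667989513 (.c 12865 .nil)) (.l 24 .nil)))) (.node (.node (.I .ass (.c 24 (.c 42576892903125868487846022299823817417 (.c 40 .nil))) .nil) (.I .com (.c 24 (.c 42576892903125868487846022299823817417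 .nil)) (.r 40 .nil))) (.node (.I .ass (.c 24 (.c 42576872605845451114770277207992337161 (.c 40 .nil))) .nil) (.I .com (.c 24 (.c 42576872605845451114770277207992337161 .nil)) (.r 40 .nil))))) (.node (.node (.node (.I .ass (.c 24 (.c 42576872605845441665422493413917717513 (.c 40 .nil))) .nil) (.I .com (.c 24 (.c 42576872605845441665422493413917717513 .nil)) (.r 40 .nil))) (.node (.I .ass (.c 24 (.c 2306970223667989513 (.c 12865 .nil))) .nil) (.I .com (.c 24 (.c 2306970223667989513 .nil)) (.r 12865 .nil)))) (.node (.node (.I .ass (.c 24 (.c 2306969673777850313 (.c 18561 .nil))) .nil) (.I .ass (.c 2306969673777850313 (.c 24 (.c 18561 .nil))) .nil)) (.node (.I .com (.c 24 (.c 2306969673777850313 .nil)) (.r 18561 .nil)) (.I .ass (.c 24 (.c 13748196208362033865 (.c 18561 .nil))) .nil)))))))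

noncomputable def c2_344 : Tr := (.node (.node (.node (.node (.node (.node (.I .ass (.c 13748196208362033865 (.c 24 (.c 18561 .nil))) .nil) (.I .com (.c 24 (.c 13748196208362033865 .nil)) (.r 18561 .nil))) (.node (.I .com (.c 2306970223667989449 (.c 18497 .nil)) (.l 24 .nil)) (.I .ass (.c 24 (.c 2306969673777850377 (.c 12929 .nil))) .nil))) (.node (.node (.I .com (.c 24 (.c 2306969673777850377 .nil)) (.r 12929 .nil)) (.I .ass (.c 24 (.c 42576892903125866125508513263802588873 (.c 48 .nil))) .nil)) (.node (.I .ass (.c 42576892903125866125508513263802588873 (.c 24 (.c 48 .nil))) .nil) (.I .com (.c 24 (.c 42576892903125866125508513263802588873 .nil)) (.r 48 .nil))))) (.node (.node (.node (.I .ass (.c 24 (.c 42576872605845448752433331259473583881 (.c 48 .nil))) .nil) (.I .ass (.c 42576872605845448752433331259473583881 (.c 24 (.c 48 .nil))) .nil)) (.node (.I .com (.c 24 (.c 42576872605845448752433331259473583881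 .nil)) (.r 48 .nil)) (.I .ass (.c 24 (.c 42576872605845441665422493413917717449 (.c 48 .nil))) .nil))) (.node (.node (.I .ass (.c 42576872605845441665422493413917717449 (.c 24 (.c 48 .nil))) .nil) (.I .com (.c 24 (.c 42576872605845441665422493413917717449 .nil)) (.r 48 .nil))) (.node (.I .ass (.c 24 (.c 2306971873338799881 (.c 18497 .nil))) .nil) (.I .ass (.c 2306971873338799881 (.c 24 (.c 18497 .nil))) .nil))))) (.node (.node (.node (.node (.I .com (.c 24 (.c 2306971873338799881 .nil)) (.r 18497 .nil)) (.I .tdb (.c 16 (.c 12801 (.c 8 (.c 48 .nil)))) (.b 32 (.l 24 .nil)))) (.node (.I .tdb (.c 2049 (.c 40 (.c 8 (.c 48 .nil)))) (.b 32 (.l 24 .nil))) (.I .tdb (.c 0 (.c 16 (.c 48 (.c 8 .nil)))) (.b 40 (.b 32 (.l 24 .nil)))))) (.node (.node (.I .tdb (.c 16 (.c 12801 (.c 32 (.c 48 .nil)))) (.b 8 (.l 24 .nil))) (.I .tdb (.c 0 (.c 40 (.c 32 (.c 48 .nil)))) (.b 16 (.b 8 (.l 24 .nil))))) (.node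 (.I .tdb (.c 2049 (.c 40 (.c 32 (.c 48 .nil)))) (.b 8 (.l 24 .nil))) (.I .tdb (.c 0 (.c 16 (.c 32 (.c 48 .nil)))) (.b 40 (.b 8 (.l 24 .nil))))))) (.node (.node (.node (.I .tdb (.c 8 (.c 32 (.c 1310924937 (.c 48 .nil)))) (.l 24 .nil)) (.I .tdb (.c 8 (.c 32 (.c 33587529 (.c 48 .nil)))) (.l 24 .nil))) (.node (.I .adp (.c 18433 (.c 12929 (.c 8257 .nil))) (.l 24 .nil)) (.I .jac (.c 18433 (.c 8 (.c 32 .nil))) (.r 12929 (.l 24 .nil))))) (.node (.node (.I .jac (.c 1310924937 (.c 8 (.c 32 .nil))) (.r 48 (.l 24 .nil))) (.I .ass (.c 24 (.c 59109071234951844553 (.c 12929 .nil))) .nil)) (.node (.I .com (.c 24 (.c 59109071234951844553 .nil)) (.r 12929 .nil)) (.I .ass (.c 24 (.c 1310924937 (.c 545424777 .nil))) .nil)))))) (.node (.node (.node (.node (.node (.I .ass (.c 1310924937 (.c 24 (.c 545424777 .nil))) .nil) (.I .com (.c 24 (.c 1310924937 .nil)) (.r 545424777 .nil))) (.node (.I .com (.c 10064237432128545199748236233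 (.c 16 .nil)) (.l 24 .nil)) (.I .jac (.c 2105737 (.c 32 (.c 40 .nil))) (.l 16 (.l 24 .nil))))) (.node (.node (.I .com (.c 10066684875777433669609463689 (.c 16 .nil)) (.l 24 .nil)) (.I .com (.c 10064237432092225236522737673 (.c 16 .nil)) (.l 24 .nil))) (.node (.I .ass (.c 24 (.c 10065461098180296729435276169 (.c 16 .nil))) .nil) (.I .com (.c 24 (.c 10065461098180296729435276169 .nil)) (.r 16 .nil))))) (.node (.node (.node (.I .ass (.c 24 (.c 10064237432128545199748236233 (.c 16 .nil))) .nil) (.I .com (.c 24 (.c 10064237432128545199748236233 .nil)) (.r 16 .nil))) (.node (.I .ass (.c 24 (.c 10064237432092225236522737673 (.c 16 .nil))) .nil) (.I .com (.c 24 (.c 10064237432092225236522737673 .nil)) (.r 16 .nil)))) (.node (.node (.I .ass (.c 24 (.c 2105481 (.c 2794230089 .nil))) .nil) (.I .ass (.c 2105481 (.c 24 (.c 2794230089 .nil))) .nil)) (.node (.I .com (.c 24 (.c 2105481 .nil)) (.r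 2794230089 .nil)) (.I .jac (.c 537002313 (.c 8 (.c 48 .nil))) (.r 16 (.l 24 .nil))))))) (.node (.node (.node (.node (.I .jac (.c 537002377 (.c 8 (.c 40 .nil))) (.r 16 (.l 24 .nil))) (.I .ass (.c 24 (.c 42576974092320106643384879185736244937 (.c 16 .nil))) .nil)) (.node (.I .com (.c 24 (.c 42576974092320106643384879185736244937 .nil)) (.r 16 .nil)) (.I .ass (.c 24 (.c 42576953795010663218959029878649750217 (.c 16 .nil))) .nil))) (.node (.node (.I .com (.c 24 (.c 42576953795010663218959029878649750217 .nil)) (.r 16 .nil)) (.I .ass (.c 24 (.c 42576872605845451114770277207992337353 (.c 16 .nil))) .nil)) (.node (.I .com (.c 24 (.c 42576872605845451114770277207992337353 .nil)) (.r 16 .nil)) (.I .ass (.c 24 (.c 42576872605845448752433331259473584137 (.c 16 .nil))) .nil)))) (.node (.node (.node (.I .com (.c 24 (.c 42576872605845448752433331259473584137 .nil)) (.r 16 .nil)) (.I .adp (.c 2718204233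 (.c 16 (.c 8257 .nil))) (.l 24 .nil))) (.node (.I .ass (.c 24 (.c 2718204233 (.c 545424521 .nil))) .nil) (.I .com (.c 24 (.c 2718204233 .nil)) (.r 545424521 .nil)))) (.node (.node (.I .jac (.c 14832759703961737 (.c 32 (.c 40 .nil))) (.b 24 .nil)) (.I .tdb (.c 0 (.c 8 (.c 16 (.c 40 .nil)))) (.b 18689 (.b 24 .nil)))) (.node (.I .tdb (.c 0 (.c 8 (.c 16 (.c 48 .nil)))) (.b 13057 (.b 24 .nil))) (.I .adp (.c 14832803796618313 (.c 13057 (.c 24 .nil))) .nil)))))))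

noncomputable def c2_345 : Tr := (.node (.node (.node (.node (.node (.node (.I .tdb (.c 0 (.c 32 (.c 16 (.c 40 .nil)))) (.b 18497 (.b 24 .nil))) (.I .tdb (.c 0 (.c 32 (.c 16 (.c 48 .nil)))) (.l 12865 (.b 24 .nil)))) (.node (.I .com (.c 14832759703961929 (.c 12865 .nil)) (.b 24 .nil)) (.I .tdb (.c 0 (.c 32 (.c 16 (.c 48 .nil)))) (.b 12865 (.b 24 .nil))))) (.node (.node (.I .com (.c 15456298926182473 (.c 2113 .nil)) (.b 24 .nil)) (.I .adp (.c 15456118887244105 (.c 2113 (.c 24 .nil))) .nil)) (.node (.I .adp (.c 15456298926182473 (.c 2113 (.c 24 .nil))) .nil) (.I .adp (.c 14832759703961929 (.c 12865 (.c 24 .nil))) .nil)))) (.node (.node (.node (.I .adp (.c 537002121 (.c 43954755 (.c 24 .nil))) .nil) (.I .tdb (.c 8 (.c 32 (.c 16 (.c 40 .nil)))) (.b 18433 (.b 24 .nil)))) (.node (.I .adp (.c 18433 (.c 3491710045130057 (.c 24 .nil))) .nil) (.I .tdb (.c 0 (.c 8 (.c 16 (.c 40 .nil)))) (.b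 18689 (.l 24 .nil))))) (.node (.node (.I .tdb (.c 0 (.c 32 (.c 16 (.c 40 .nil)))) (.b 18497 (.l 24 .nil))) (.I .tdb (.c 0 (.c 32 (.c 16 (.c 48 .nil)))) (.b 12865 (.l 24 .nil)))) (.node (.I .tdb (.c 0 (.c 40 (.c 32 (.c 48 .nil)))) (.b 8 (.b 16 (.l 24 .nil)))) (.I .tdb (.c 0 (.c 40 (.c 16 (.c 48 .nil)))) (.b 8257 (.l 24 .nil))))))) (.node (.node (.node (.node (.I .com (.c 3396625955800642344247222453442620860225272832890934158916880306121 (.c 24 .nil)) .nil) (.I .com (.c 14502375955699775287798242710605707833569655562999404747740027693550253441801 (.c 24 .nil)) .nil)) (.node (.I .com (.c 14502334474273997956006391148615249206184251133042307324743660752776507281417 (.c 24 .nil)) .nil) (.I .jac (.c 13748192181200529417 (.c 16 (.c 32 .nil))) (.l 24 .nil)))) (.node (.node (.I .jac (.c 12801 (.c 8 (.c 48 .nil))) (.b 8321 (.l 24 .nil))) (.I .jac (.c 0 (.c 18497 (.c 40 .nil))) (.b 8321 (.l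 24 .nil)))) (.node (.I .jac (.c 0 (.c 8 (.c 48 .nil))) (.b 40 (.b 8321 (.l 24 .nil)))) (.I .com (.c 6250089801726996933345600848581934553944221302652681330639322995006275437893499657 (.c 24 .nil)) .nil)))) (.node (.node (.node (.I .com (.c 18291627070720923377478216906293781422229280460617050807067065977983415150705417 (.c 24 .nil)) .nil) (.I .jac (.c 59109074018392946377 (.c 16 (.c 32 .nil))) (.l 24 .nil))) (.node (.I .jac (.c 18433 (.c 8 (.c 40 .nil))) (.b 8321 (.l 24 .nil))) (.I .jac (.c 0 (.c 12865 (.c 48 .nil))) (.b 8321 (.l 24 .nil))))) (.node (.node (.I .jac (.c 0 (.c 8 (.c 40 .nil))) (.b 48 (.b 8321 (.l 24 .nil)))) (.I .ass (.c 24 (.c 42576892903125856676158477119718330377 (.c 40 .nil))) .nil)) (.node (.I .com (.c 24 (.c 42576892903125856676158477119718330377 .nil)) (.r 40 .nil)) (.I .ass (.c 24 (.c 13748193523587632009 (.c 18497 .nil))) .nil)))))) (.node (.node (.node (.node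 (.node (.I .ass (.c 13748193523587632009 (.c 24 (.c 18497 .nil))) .nil) (.I .com (.c 24 (.c 13748193523587632009 .nil)) (.r 18497 .nil))) (.node (.I .ass (.c 24 (.c 12801 (.c 59934265606904515465 .nil))) .nil) (.I .ass (.c 12801 (.c 24 (.c 59934265606904515465 .nil))) .nil))) (.node (.node (.I .com (.c 24 (.c 12801 .nil)) (.r 59934265606904515465 .nil)) (.I .ass (.c 24 (.c 42576892903125856676158477119718330313 (.c 48 .nil))) .nil)) (.node (.I .ass (.c 42576892903125856676158477119718330313 (.c 24 (.c 48 .nil))) .nil) (.I .com (.c 24 (.c 42576892903125856676158477119718330313 .nil)) (.r 48 .nil))))) (.node (.node (.node (.I .tdb (.c 8 (.c 12801 (.c 16 (.c 48 .nil)))) (.b 32 (.l 24 .nil))) (.I .tdb (.c 513 (.c 40 (.c 16 (.c 48 .nil)))) (.b 32 (.l 24 .nil)))) (.node (.I .tdb (.c 0 (.c 8 (.c 16 (.c 48 .nil)))) (.b 40 (.b 32 (.l 24 .nil)))) (.I .tdb (.c 8 (.c 12801 (.c 32 (.c 48 .nil))))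 (.b 16 (.l 24 .nil))))) (.node (.node (.I .tdb (.c 513 (.c 40 (.c 32 (.c 48 .nil)))) (.b 16 (.l 24 .nil))) (.I .tdb (.c 0 (.c 8 (.c 32 (.c 48 .nil)))) (.b 40 (.b 16 (.l 24 .nil))))) (.node (.I .tdb (.c 16 (.c 32 (.c 1310924873 (.c 48 .nil)))) (.l 24 .nil)) (.I .tdb (.c 16 (.c 32 (.c 2105673 (.c 48 .nil)))) (.l 24 .nil)))))) (.node (.node (.node (.node (.I .jac (.c 1310924873 (.c 16 (.c 32 .nil))) (.r 48 (.l 24 .nil))) (.I .ass (.c 24 (.c 1310924873 (.c 553912713 .nil))) .nil)) (.node (.I .ass (.c 1310924873 (.c 24 (.c 553912713 .nil))) .nil) (.I .com (.c 24 (.c 1310924873 .nil)) (.r 553912713 .nil)))) (.node (.node (.I .jac (.c 33587529 (.c 32 (.c 48 .nil))) (.l 8 (.l 24 .nil))) (.I .com (.c 651601654921560200620872561558409 (.c 8 .nil)) (.l 24 .nil))) (.node (.I .com (.c 651596688508375012468186189874121 (.c 8 .nil)) (.l 24 .nil)) (.I .com (.c 651596688508365770927126595477513 (.c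 8 .nil)) (.l 24 .nil))))) (.node (.node (.node (.I .ass (.c 24 (.c 651601654921560200620872561558409 (.c 8 .nil))) .nil) (.I .com (.c 24 (.c 651601654921560200620872561558409 .nil)) (.r 8 .nil))) (.node (.I .ass (.c 24 (.c 651596688508375012468186189874121 (.c 8 .nil))) .nil) (.I .com (.c 24 (.c 651596688508375012468186189874121 .nil)) (.r 8 .nil)))) (.node (.node (.I .ass (.c 24 (.c 651596688508365770927126595477513 (.c 8 .nil))) .nil) (.I .com (.c 24 (.c 651596688508365770927126595477513 .nil)) (.r 8 .nil))) (.node (.I .ass (.c 24 (.c 42576974092320106643384879185736245001 (.c 8 .nil))) .nil) (.I .com (.c 24 (.c 42576974092320106643384879185736245001 .nil)) (.r 8 .nil))))))))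

noncomputable def c2_346 : Tr := (.node (.node (.node (.node (.node (.node (.I .ass (.c 24 (.c 42576953795010663218959029878649750281 (.c 8 .nil))) .nil) (.I .com (.c 24 (.c 42576953795010663218959029878649750281 .nil)) (.r 8 .nil))) (.node (.I .ass (.c 24 (.c 42576892903125868487846022299823817673 (.c 8 .nil))) .nil) (.I .com (.c 24 (.c 42576892903125868487846022299823817673 .nil)) (.r 8 .nil)))) (.node (.node (.I .ass (.c 24 (.c 42576892903125866125508513263802589193 (.c 8 .nil))) .nil) (.I .com (.c 24 (.c 42576892903125866125508513263802589193 .nil)) (.r 8 .nil))) (.node (.I .jac (.c 14629225721520329 (.c 32 (.c 40 .nil))) (.b 24 .nil)) (.I .tdb (.c 0 (.c 16 (.c 40 (.c 8 .nil)))) (.b 18689 (.b 24 .nil)))))) (.node (.node (.node (.I .tdb (.c 0 (.c 32 (.c 8 (.c 40 .nil)))) (.b 18561 (.b 24 .nil))) (.I .tdb (.c 0 (.c 32 (.c 8 (.c 48 .nil)))) (.b 12929 (.b 24 .nil)))) (.node (.I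 .adp (.c 14629225721520457 (.c 12929 (.c 24 .nil))) .nil) (.I .adp (.c 3423058053194057 (.c 18561 (.c 24 .nil))) .nil))) (.node (.node (.I .adp (.c 537002057 (.c 43954819 (.c 24 .nil))) .nil) (.I .tdb (.c 0 (.c 40 (.c 8 (.c 48 .nil)))) (.b 8321 (.b 24 .nil)))) (.node (.I .adp (.c 513 (.c 15456208906582345 (.c 24 .nil))) .nil) (.I .tdb (.c 0 (.c 16 (.c 48 (.c 8 .nil)))) (.b 13057 (.l 24 .nil))))))) (.node (.node (.node (.node (.I .jac (.c 3632062472293449 (.c 16 (.c 48 .nil))) (.l 24 .nil)) (.I .tdb (.c 0 (.c 32 (.c 8 (.c 40 .nil)))) (.b 18561 (.l 24 .nil)))) (.node (.I .tdb (.c 0 (.c 32 (.c 8 (.c 48 .nil)))) (.b 12929 (.l 24 .nil))) (.I .tdb (.c 0 (.c 40 (.c 8 (.c 48 .nil)))) (.b 8321 (.l 24 .nil))))) (.node (.node (.I .jac (.c 2737112393 (.c 16 (.c 32 .nil))) (.l 0 (.l 24 .nil))) (.I .ass (.c 24 (.c 0 (.c 28736937613941456263871746276875115510537 .nil))) .nil)) (.node (.I .ass (.c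 0 (.c 24 (.c 28736937613941456263871746276875115510537 .nil))) .nil) (.I .com (.c 24 (.c 0 .nil)) (.r 28736937613941456263871746276875115510537 .nil))))) (.node (.node (.node (.I .com (.c 28736937613941456263871746276875115510537 (.c 24 .nil)) (.l 0 .nil)) (.I .ass (.c 24 (.c 0 (.c 28736937613941456141126353093513084334985 .nil))) .nil)) (.node (.I .ass (.c 0 (.c 24 (.c 28736937613941456141126353093513084334985 .nil))) .nil) (.I .com (.c 24 (.c 0 .nil)) (.r 28736937613941456141126353093513084334985 .nil)))) (.node (.node (.I .com (.c 28736937613941456141126353093513084334985 (.c 24 .nil)) (.l 0 .nil)) (.I .jac (.c 3632040653488265 (.c 16 (.c 48 .nil))) (.l 24 .nil))) (.node (.I .com (.c 89098986658132392148749725165739642463922870392013001579241288713 (.c 24 .nil)) .nil) (.I .jac (.c 3632040653488329 (.c 8 (.c 48 .nil))) (.l 24 .nil))))))) (.node (.node (.node (.node (.node (.I .com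 (.c 89098986658138672183242889792176185846766957039654782620897824777 (.c 24 .nil)) .nil) (.I .jac (.c 2718204233 (.c 8257 (.c 16 .nil))) (.l 24 .nil))) (.node (.I .jac (.c 2718204233 (.c 8 (.c 32 .nil))) (.b 16 (.l 24 .nil))) (.I .jac (.c 1310925193 (.c 8 (.c 32 .nil))) (.b 16 (.l 24 .nil))))) (.node (.node (.I .adp (.c 2049 (.c 32 (.c 2737112393 .nil))) (.l 24 .nil)) (.I .ass (.c 24 (.c 8193 (.c 59934274015313491721 .nil))) .nil)) (.node (.I .ass (.c 8193 (.c 24 (.c 59934274015313491721 .nil))) .nil) (.I .com (.c 24 (.c 8193 .nil)) (.r 59934274015313491721 .nil))))) (.node (.node (.node (.I .com (.c 59934274015313491721 (.c 24 .nil)) (.l 8193 .nil)) (.I .adp (.c 16 (.c 32 (.c 8 .nil))) (.b 2718204233 (.l 24 .nil)))) (.node (.I .com (.c 8257 (.c 16 .nil)) (.b 2718204233 (.l 24 .nil))) (.I .adp (.c 8257 (.c 16 (.c 2718204233 .nil))) (.l 24 .nil)))) (.node (.node (.I .com (.c 59109074018392946441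 (.c 8257 .nil)) (.l 24 .nil)) (.I .adp (.c 2113 (.c 32 (.c 2718204233 .nil))) (.l 24 .nil))) (.node (.I .com (.c 59109074018392946569 (.c 2113 .nil)) (.l 24 .nil)) (.I .adp (.c 16 (.c 32 (.c 8 .nil))) (.b 1310925193 (.l 24 .nil))))))) (.node (.node (.node (.node (.I .com (.c 8257 (.c 16 .nil)) (.b 1310925193 (.l 24 .nil))) (.I .tdb (.c 2049 (.c 32 (.c 12865 (.c 48 .nil)))) (.l 24 .nil))) (.node (.I .adp (.c 18497 (.c 40 (.c 537002121 .nil))) (.l 24 .nil)) (.I .adp (.c 12865 (.c 48 (.c 537002121 .nil))) (.l 24 .nil)))) (.node (.node (.I .adp (.c 12865 (.c 48 (.c 33587465 .nil))) (.l 24 .nil)) (.I .tdb (.c 0 (.c 48 (.c 16 (.c 40 .nil)))) (.l 8257 (.b 24 .nil)))) (.node (.I .com (.c 3491688652046793 (.c 8257 .nil)) (.b 24 .nil)) (.I .tdb (.c 0 (.c 48 (.c 32 (.c 40 .nil)))) (.l 2113 (.b 24 .nil)))))) (.node (.node (.node (.I .com (.c 3632040653488585 (.c 2113 .nil)) (.b 24 .nil)) (.I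 .adp (.c 3632040653488585 (.c 2113 (.c 24 .nil))) .nil)) (.node (.I .adp (.c 3491688652046793 (.c 8257 (.c 24 .nil))) .nil) (.I .jac (.c 537002057 (.c 16 (.c 48 .nil))) (.b 40 (.l 24 .nil))))) (.node (.node (.I .jac (.c 18497 (.c 16 (.c 40 .nil))) (.l 8193 (.l 24 .nil))) (.I .jac (.c 537002377 (.c 16 (.c 40 .nil))) (.r 8 (.l 24 .nil)))) (.node (.I .jac (.c 537002313 (.c 16 (.c 48 .nil))) (.r 8 (.l 24 .nil))) (.I .adp (.c 8 (.c 32 (.c 16 .nil))) (.b 1310925193 (.l 24 .nil)))))))))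

noncomputable def c2_347 : Tr := (.node (.node (.node (.node (.node (.node (.I .tdb (.c 513 (.c 32 (.c 48 (.c 12929 .nil)))) (.l 24 .nil)) (.I .adp (.c 18561 (.c 40 (.c 537002057 .nil))) (.l 24 .nil))) (.node (.I .com (.c 2306969673777850313 (.c 18561 .nil)) (.l 24 .nil)) (.I .adp (.c 18561 (.c 40 (.c 2105609 .nil))) (.l 24 .nil)))) (.node (.node (.I .adp (.c 12929 (.c 48 (.c 537002057 .nil))) (.l 24 .nil)) (.I .com (.c 2306969673777850377 (.c 12929 .nil)) (.l 24 .nil))) (.node (.I .com (.c 580749782704585 (.c 12929 .nil)) (.b 24 .nil)) (.I .adp (.c 580749782704585 (.c 12929 (.c 24 .nil))) .nil)))) (.node (.node (.node (.I .jac (.c 8 (.c 16 (.c 40 .nil))) (.l 537002377 (.l 24 .nil))) (.I .jac (.c 8 (.c 16 (.c 48 .nil))) (.l 537002313 (.l 24 .nil)))) (.node (.I .jac (.c 18433 (.c 16 (.c 40 .nil))) (.r 8257 (.l 24 .nil))) (.I .adp (.c 0 (.c 32 (.c 16 .nil))) (.b 2737112393 (.l 24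 .nil))))) (.node (.node (.I .adp (.c 0 (.c 8321 (.c 2737112393 .nil))) (.l 24 .nil)) (.I .jac (.c 0 (.c 18497 (.c 40 .nil))) (.r 8321 (.l 24 .nil)))) (.node (.I .jac (.c 0 (.c 8 (.c 48 .nil))) (.b 40 (.r 8321 (.l 24 .nil)))) (.I .jac (.c 9024839260612553 (.c 32 (.c 48 .nil))) (.b 24 .nil)))))) (.node (.node (.node (.node (.I .jac (.c 35464401931209 (.c 32 (.c 48 .nil))) (.b 24 .nil)) (.I .jac (.c 33587273 (.c 32 (.c 48 .nil))) (.b 40 (.b 24 .nil)))) (.node (.I .jac (.c 2105481 (.c 32 (.c 48 .nil))) (.b 40 (.b 24 .nil))) (.I .jac (.c 2487083360649 (.c 32 (.c 48 .nil))) (.b 24 .nil)))) (.node (.node (.I .jac (.c 557571 (.c 32 (.c 40 .nil))) (.b 48 (.b 24 .nil))) (.I .jac (.c 2105673 (.c 32 (.c 48 .nil))) (.r 16 (.l 24 .nil)))) (.node (.I .adp (.c 8 (.c 16 (.c 32 .nil))) (.b 1310925193 (.l 24 .nil))) (.I .com (.c 2487083360713 (.c 13057 .nil)) (.b 24 .nil))))) (.node (.node (.node (.I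 .adp (.c 2487083360713 (.c 13057 (.c 24 .nil))) .nil) (.I .jac (.c 16 (.c 32 (.c 48 .nil))) (.l 2105673 (.l 24 .nil)))) (.node (.I .jac (.c 13748196208362033929 (.c 8 (.c 48 .nil))) (.l 24 .nil)) (.I .jac (.c 1310925065 (.c 18497 (.c 16 .nil))) (.l 24 .nil)))) (.node (.node (.I .jac (.c 12801 (.c 545424777 (.c 16 .nil))) (.l 24 .nil)) (.I .jac (.c 12801 (.c 8257 (.c 48 .nil))) (.b 16 (.l 24 .nil)))) (.node (.I .jac (.c 12801 (.c 8 (.c 48 .nil))) (.b 16 (.b 32 (.l 24 .nil)))) (.I .jac (.c 12801 (.c 8257 (.c 16 .nil))) (.b 48 (.l 24 .nil)))))))) (.node (.node (.node (.node (.node (.I .jac (.c 12801 (.c 8 (.c 32 .nil))) (.b 16 (.b 48 (.l 24 .nil)))) (.I .com (.c 18291627070720922696274976743898254764368868198737022773233475155738302282318601 (.c 24 .nil)) .nil)) (.node (.I .com (.c 18291627070720922696274976743898254758175297153320935477897918752907045647234057 (.c 24 .nil)) .nil) (.I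 .jac (.c 59109065668069837705 (.c 8 (.c 40 .nil))) (.l 24 .nil)))) (.node (.node (.I .com (.c 3396729512034052482070957803010857346642124538165078910650058641353 (.c 24 .nil)) .nil) (.I .com (.c 810705155099798343965562714738337715788767039644241834953 (.c 24 .nil)) .nil)) (.node (.I .jac (.c 12801 (.c 2737112329 (.c 16 .nil))) (.l 24 .nil)) (.I .jac (.c 12801 (.c 18497 (.c 32 .nil))) (.b 16 (.l 24 .nil)))))) (.node (.node (.node (.I .jac (.c 12801 (.c 8 (.c 48 .nil))) (.b 32 (.b 16 (.l 24 .nil)))) (.I .jac (.c 12801 (.c 2113 (.c 32 .nil))) (.b 48 (.l 24 .nil)))) (.node (.I .jac (.c 12801 (.c 8 (.c 16 .nil))) (.b 32 (.b 48 (.l 24 .nil)))) (.I .jac (.c 59109071234951844617 (.c 8 (.c 40 .nil))) (.l 24 .nil)))) (.node (.node (.I .com (.c 6250093333522399276025990150979397412271911022009677033636769650727342909290815177 (.c 24 .nil)) .nil) (.I .com (.c 6250093333522399276025990150979397412157423486729266849209763751060102788914679753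 (.c 24 .nil)) .nil)) (.node (.I .adp (.c 2737112201 (.c 32 (.c 12801 .nil))) (.l 24 .nil)) (.I .com (.c 1310925065 (.c 2737112201 .nil)) (.l 24 .nil)))))) (.node (.node (.node (.node (.I .jac (.c 1310924937 (.c 8 (.c 48 .nil))) (.r 32 (.l 24 .nil))) (.I .com (.c 13748193523587632137 (.c 8257 .nil)) (.l 24 .nil))) (.node (.I .ass (.c 24 (.c 13748193523587632137 (.c 8257 .nil))) .nil) (.I .com (.c 24 (.c 13748193523587632137 .nil)) (.r 8257 .nil)))) (.node (.node (.I .adp (.c 18497 (.c 8321 (.c 12801 .nil))) (.l 24 .nil)) (.I .jac (.c 12801 (.c 16 (.c 32 .nil))) (.l 18497 (.l 24 .nil)))) (.node (.I .com (.c 13748193523587632009 (.c 18497 .nil)) (.l 24 .nil)) (.I .ass (.c 24 (.c 13748192181200529417 (.c 8321 .nil))) .nil)))) (.node (.node (.node (.I .com (.c 24 (.c 13748192181200529417 .nil)) (.r 8321 .nil)) (.I .adp (.c 537002121 (.c 48 (.c 12865 .nil))) (.l 24 .nil))) (.node (.I .ass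 (.c 24 (.c 59109062884628932553 (.c 8321 .nil))) .nil) (.I .com (.c 24 (.c 59109062884628932553 .nil)) (.r 8321 .nil)))) (.node (.node (.I .com (.c 10066684875741109290467687369 (.c 16 .nil)) (.l 24 .nil)) (.I .ass (.c 24 (.c 10065461098107652387135110153 (.c 16 .nil))) .nil)) (.node (.I .com (.c 24 (.c 10065461098107652387135110153 .nil)) (.r 16 .nil)) (.I .ass (.c 24 (.c 1310924937 (.c 2737112329 .nil))) .nil)))))))

noncomputable def c2_348 : Tr := (.node (.node (.node (.node (.node (.node (.I .ass (.c 1310924937 (.c 24 (.c 2737112329 .nil))) .nil) (.I .com (.c 24 (.c 1310924937 .nil)) (.r 2737112329 .nil))) (.node (.I .adp (.c 537002377 (.c 16 (.c 12865 .nil))) (.l 24 .nil)) (.I .com (.c 537002377 (.c 16 .nil)) (.b 12865 (.l 24 .nil))))) (.node (.node (.I .com (.c 2718204169 (.c 16 .nil)) (.b 12865 (.l 24 .nil))) (.I .ass (.c 24 (.c 42576974092320097194025833638928027593 (.c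 16 .nil))) .nil)) (.node (.I .com (.c 24 (.c 42576974092320097194025833638928027593 .nil)) (.r 16 .nil)) (.I .tdb (.c 0 (.c 40 (.c 16 (.c 32 .nil)))) (.b 18497 (.b 24 .nil)))))) (.node (.node (.node (.I .tdb (.c 0 (.c 40 (.c 16 (.c 32 .nil)))) (.b 18497 (.l 24 .nil))) (.I .com (.c 18291648502882414453388965183791947422382005360361218029448368799991925418033929 (.c 24 .nil)) .nil)) (.node (.I .jac (.c 2306972423229201097 (.c 16 (.c 40 .nil))) (.l 24 .nil)) (.I .jac (.c 59109062884628932489 (.c 16 (.c 40 .nil))) (.l 24 .nil)))) (.node (.node (.I .jac (.c 8193 (.c 8 (.c 48 .nil))) (.b 12929 (.l 24 .nil))) (.I .jac (.c 0 (.c 18497 (.c 32 .nil))) (.b 12929 (.l 24 .nil)))) (.node (.I .jac (.c 0 (.c 8 (.c 48 .nil))) (.b 32 (.b 12929 (.l 24 .nil)))) (.I .jac (.c 59109071234951844553 (.c 16 (.c 40 .nil))) (.l 24 .nil)))))) (.node (.node (.node (.node (.I .jac (.c 18433 (.c 8 (.c 32 .nil)))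 (.b 12929 (.l 24 .nil))) (.I .jac (.c 0 (.c 8257 (.c 48 .nil))) (.b 12929 (.l 24 .nil)))) (.node (.I .jac (.c 0 (.c 8 (.c 32 .nil))) (.b 48 (.b 12929 (.l 24 .nil)))) (.I .com (.c 6250093333522399248956982637364085055414223704215283955664159904225520786649734921 (.c 24 .nil)) .nil))) (.node (.node (.I .com (.c 6250093333522399248956982637364085055328358052754976317529846539912873292530217929 (.c 24 .nil)) .nil) (.I .adp (.c 18497 (.c 32 (.c 40 .nil))) (.b 2049 (.l 24 .nil)))) (.node (.I .adp (.c 18497 (.c 32 (.c 16 .nil))) (.b 12801 (.l 24 .nil))) (.I .adp (.c 2718203977 (.c 32 (.c 12929 .nil))) (.l 24 .nil))))) (.node (.node (.node (.I .adp (.c 2105737 (.c 32 (.c 12929 .nil))) (.l 24 .nil)) (.I .adp (.c 8193 (.c 18497 (.c 12929 .nil))) (.l 24 .nil))) (.node (.I .jac (.c 8193 (.c 16 (.c 40 .nil))) (.r 18497 (.l 24 .nil))) (.I .adp (.c 18497 (.c 32 (.c 0 .nil))) (.b 12929 (.l 24 .nil)))))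 (.node (.node (.I .com (.c 8193 (.c 18497 .nil)) (.b 12929 (.l 24 .nil))) (.I .ass (.c 24 (.c 8193 (.c 59934265606904515529 .nil))) .nil)) (.node (.I .ass (.c 8193 (.c 24 (.c 59934265606904515529 .nil))) .nil) (.I .com (.c 24 (.c 8193 .nil)) (.r 59934265606904515529 .nil))))))) (.node (.node (.node (.node (.node (.I .adp (.c 18433 (.c 8257 (.c 12929 .nil))) (.l 24 .nil)) (.I .adp (.c 537002057 (.c 48 (.c 12929 .nil))) (.l 24 .nil))) (.node (.I .adp (.c 2105609 (.c 48 (.c 12929 .nil))) (.l 24 .nil)) (.I .ass (.c 24 (.c 59109065668069837769 (.c 8257 .nil))) .nil))) (.node (.node (.I .com (.c 24 (.c 59109065668069837769 .nil)) (.r 8257 .nil)) (.I .com (.c 651601654921541717468315286322185 (.c 8 .nil)) (.l 24 .nil))) (.node (.I .ass (.c 24 (.c 651601654921541717468315286322185 (.c 8 .nil))) .nil) (.I .com (.c 24 (.c 651601654921541717468315286322185 .nil)) (.r 8 .nil))))) (.node (.node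 (.node (.I .jac (.c 1310925065 (.c 16 (.c 48 .nil))) (.l 8 (.l 24 .nil))) (.I .com (.c 1512103191868961706263182477688868913929 (.c 8 .nil)) (.l 24 .nil))) (.node (.I .com (.c 1512102601296135297671723270643481494409 (.c 8 .nil)) (.l 24 .nil)) (.I .com (.c 1512102601296135269515422934336011009033 (.c 8 .nil)) (.l 24 .nil)))) (.node (.node (.I .adp (.c 537002377 (.c 8 (.c 12929 .nil))) (.l 24 .nil)) (.I .com (.c 537002377 (.c 8 .nil)) (.b 12929 (.l 24 .nil)))) (.node (.I .ass (.c 24 (.c 42576974092320099556365595025629983689 (.c 8 .nil))) .nil) (.I .com (.c 24 (.c 42576974092320099556365595025629983689 .nil)) (.r 8 .nil)))))) (.node (.node (.node (.node (.I .tdb (.c 0 (.c 40 (.c 8 (.c 32 .nil)))) (.b 18561 (.b 24 .nil))) (.I .tdb (.c 16 (.c 40 (.c 8 (.c 32 .nil)))) (.b 18433 (.b 24 .nil)))) (.node (.I .tdb (.c 0 (.c 40 (.c 8 (.c 32 .nil)))) (.b 18561 (.l 24 .nil))) (.I .adp (.c 18433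 (.c 32 (.c 40 .nil))) (.b 2113 (.l 24 .nil))))) (.node (.node (.I .adp (.c 18433 (.c 32 (.c 16 .nil))) (.b 12865 (.l 24 .nil))) (.I .adp (.c 18433 (.c 32 (.c 8 .nil))) (.b 12929 (.l 24 .nil)))) (.node (.I .adp (.c 0 (.c 2737112329 (.c 12929 .nil))) (.l 24 .nil)) (.I .jac (.c 2737112329 (.c 16 (.c 40 .nil))) (.l 0 (.l 24 .nil)))))) (.node (.node (.node (.I .jac (.c 0 (.c 16 (.c 40 .nil))) (.r 2737112329 (.l 24 .nil))) (.I .ass (.c 24 (.c 0 (.c 28736934926198055667001436981588417552137 .nil))) .nil)) (.node (.I .ass (.c 0 (.c 24 (.c 28736934926198055667001436981588417552137 .nil))) .nil) (.I .com (.c 24 (.c 0 .nil)) (.r 28736934926198055667001436981588417552137 .nil)))) (.node (.node (.I .com (.c 28736934926198055667001436981588417552137 (.c 24 .nil)) (.l 0 .nil)) (.I .ass (.c 24 (.c 0 (.c 28736934926198055482883355816756363834313 .nil))) .nil)) (.node (.I .ass (.c 0 (.c 24 (.c 28736934926198055482883355816756363834313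 .nil))) .nil) (.I .com (.c 24 (.c 0 .nil)) (.r 28736934926198055482883355816756363834313 .nil))))))))

noncomputable def c2_349 : Tr := (.node (.node (.node (.node (.node (.node (.I .com (.c 28736934926198055482883355816756363834313 (.c 24 .nil)) (.l 0 .nil)) (.I .tdb (.c 8 (.c 40 (.c 0 (.c 32 .nil)))) (.b 18561 (.b 24 .nil)))) (.node (.I .jac (.c 2718204169 (.c 2113 (.c 40 .nil))) (.l 24 .nil)) (.I .adp (.c 16 (.c 40 (.c 8 .nil))) (.b 537002377 (.l 24 .nil))))) (.node (.node (.I .com (.c 12865 (.c 16 .nil)) (.b 537002377 (.l 24 .nil))) (.I .adp (.c 8257 (.c 48 (.c 1310924937 .nil))) (.l 24 .nil))) (.node (.I .adp (.c 8257 (.c 48 (.c 33587529 .nil))) (.l 24 .nil)) (.I .adp (.c 32 (.c 48 (.c 8 .nil))) (.b 1310924937 (.l 24 .nil)))))) (.node (.node (.node (.I .com (.c 18497 (.c 32 .nil)) (.b 1310924937 (.l 24 .nil))) (.I .jac (.c 1310924873 (.c 18561 (.c 32 .nil))) (.l 24 .nil))) (.node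 (.I .jac (.c 1310924873 (.c 16 (.c 48 .nil))) (.b 32 (.l 24 .nil))) (.I .jac (.c 1310924873 (.c 16 (.c 32 .nil))) (.b 48 (.l 24 .nil))))) (.node (.node (.I .jac (.c 1310925065 (.c 16 (.c 48 .nil))) (.r 8 (.l 24 .nil))) (.I .adp (.c 8 (.c 40 (.c 16 .nil))) (.b 537002377 (.l 24 .nil)))) (.node (.I .jac (.c 1310924873 (.c 16 (.c 48 .nil))) (.r 32 (.l 24 .nil))) (.I .adp (.c 18561 (.c 32 (.c 2105673 .nil))) (.l 24 .nil)))))) (.node (.node (.node (.node (.I .adp (.c 8321 (.c 48 (.c 1310924873 .nil))) (.l 24 .nil)) (.I .com (.c 13748192181200529417 (.c 8321 .nil)) (.l 24 .nil))) (.node (.I .adp (.c 8321 (.c 48 (.c 2105673 .nil))) (.l 24 .nil)) (.I .adp (.c 32 (.c 48 (.c 16 .nil))) (.b 1310924873 (.l 24 .nil))))) (.node (.node (.I .com (.c 18561 (.c 32 .nil)) (.b 1310924873 (.l 24 .nil))) (.I .adp (.c 32 (.c 48 (.c 16 .nil))) (.b 2105673 (.l 24 .nil)))) (.node (.I .com (.c 18561 (.c 32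 .nil)) (.b 2105673 (.l 24 .nil))) (.I .jac (.c 8 (.c 16 (.c 48 .nil))) (.l 1310925065 (.l 24 .nil)))))) (.node (.node (.node (.I .adp (.c 32 (.c 48 (.c 12801 .nil))) (.b 2113 (.l 24 .nil))) (.I .adp (.c 8 (.c 16 (.c 40 .nil))) (.b 537002377 (.l 24 .nil)))) (.node (.I .adp (.c 32 (.c 48 (.c 40 .nil))) (.b 2105481 (.l 24 .nil))) (.I .adp (.c 32 (.c 48 (.c 513 .nil))) (.b 12929 (.l 24 .nil))))) (.node (.node (.I .com (.c 2105737 (.c 32 .nil)) (.b 12929 (.l 24 .nil))) (.I .jac (.c 35473026505481 (.c 32 (.c 40 .nil))) (.b 24 .nil))) (.node (.I .com (.c 14502375955699776897097553016463223520899905238677409260292415153620461621257 (.c 24 .nil)) .nil) (.I .com (.c 18291648502882414793990884575208062666933105295579547665148209294408698441043977 (.c 24 .nil)) .nil)))))) (.node (.node (.node (.node (.node (.I .com (.c 18291648502882414453388965183791947416188430686465951168914945118966882142024713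 (.c 24 .nil)) .nil) (.I .ass (.c 24 (.c 42576953795010651407263038383993868297 (.c 16 .nil))) .nil)) (.node (.I .com (.c 24 (.c 42576953795010651407263038383993868297 .nil)) (.r 16 .nil)) (.I .ass (.c 24 (.c 42576953795010653769602236682924913673 (.c 8 .nil))) .nil))) (.node (.node (.I .com (.c 24 (.c 42576953795010653769602236682924913673 .nil)) (.r 8 .nil)) (.I .com (.c 1512103191868961649950570808237977416713 (.c 8 .nil)) (.l 24 .nil))) (.node (.I .com (.c 33587593 (.c 8 .nil)) (.b 13057 (.l 24 .nil))) (.I .tdb (.c 0 (.c 32 (.c 8 (.c 16 .nil)))) (.b 18753 (.l 24 .nil)))))) (.node (.node (.node (.I .tdb (.c 0 (.c 40 (.c 8 (.c 16 .nil)))) (.b 18689 (.l 24 .nil))) (.I .tdb (.c 0 (.c 48 (.c 8 (.c 16 .nil)))) (.b 13057 (.l 24 .nil)))) (.node (.I .adp (.c 18433 (.c 16 (.c 40 .nil))) (.b 8257 (.l 24 .nil))) (.I .adp (.c 18433 (.c 16 (.c 32 .nil))) (.b 12865 (.l 24 .nil))))) (.node (.node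 (.I .adp (.c 18433 (.c 16 (.c 8 .nil))) (.b 13057 (.l 24 .nil))) (.I .tdb (.c 8 (.c 32 (.c 0 (.c 16 .nil)))) (.b 18753 (.b 24 .nil)))) (.node (.I .tdb (.c 8 (.c 40 (.c 0 (.c 16 .nil)))) (.b 18689 (.b 24 .nil))) (.I .jac (.c 2718204041 (.c 8 (.c 40 .nil))) (.b 32 (.l 24 .nil))))))) (.node (.node (.node (.node (.I .jac (.c 2718204041 (.c 8 (.c 32 .nil))) (.b 40 (.l 24 .nil))) (.I .jac (.c 21307395 (.c 18497 (.c 16 .nil))) (.l 24 .nil))) (.node (.I .adp (.c 12801 (.c 32 (.c 2737112201 .nil))) (.l 24 .nil)) (.I .adp (.c 18497 (.c 16 (.c 1310925065 .nil))) (.l 24 .nil)))) (.node (.node (.I .adp (.c 16 (.c 48 (.c 8 .nil))) (.b 537002313 (.l 24 .nil))) (.I .com (.c 18497 (.c 16 .nil)) (.b 537002313 (.l 24 .nil)))) (.node (.I .adp (.c 16 (.c 18689 (.c 1310924873 .nil))) (.l 24 .nil)) (.I .jac (.c 1310924873 (.c 32 (.c 48 .nil))) (.l 16 (.l 24 .nil)))))) (.node (.node (.node (.I .com (.c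 1512102306009786965494079912008658879369 (.c 16 .nil)) (.l 24 .nil)) (.I .com (.c 1512102306009786937337782324909974764553 (.c 16 .nil)) (.l 24 .nil))) (.node (.I .jac (.c 8 (.c 32 (.c 48 .nil))) (.l 1310924937 (.l 24 .nil))) (.I .adp (.c 0 (.c 13057 (.c 2737112201 .nil))) (.l 24 .nil)))) (.node (.node (.I .jac (.c 0 (.c 18497 (.c 16 .nil))) (.r 13057 (.l 24 .nil))) (.I .jac (.c 0 (.c 8 (.c 48 .nil))) (.b 16 (.r 13057 (.l 24 .nil))))) (.node (.I .adp (.c 16 (.c 18753 (.c 2105609 .nil))) (.l 24 .nil)) (.I .jac (.c 2105609 (.c 40 (.c 48 .nil))) (.l 16 (.l 24 .nil)))))))))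

noncomputable def c2_350 : Tr := (.node (.node (.node (.node (.node (.node (.I .adp (.c 16 (.c 48 (.c 40 .nil))) (.b 537002057 (.l 24 .nil))) (.I .jac (.c 8 (.c 40 (.c 48 .nil))) (.l 537002121 (.l 24 .nil)))) (.node (.I .adp (.c 0 (.c 32 (.c 40 .nil))) (.b 2737112201 (.l 24 .nil))) (.I .adp (.c 16 (.c 48 (.c 8193 .nil))) (.b 12865 (.l 24 .nil))))) (.node (.node (.I .jac (.c 513 (.c 16 (.c 48 .nil))) (.b 13057 (.b 24 .nil))) (.I .jac (.c 513 (.c 16 (.c 48 .nil))) (.b 13057 (.l 24 .nil)))) (.node (.I .tdb (.c 16 (.c 40 (.c 0 (.c 8 .nil)))) (.b 18689 (.b 24 .nil))) (.I .jac (.c 2718203977 (.c 16 (.c 40 .nil))) (.b 32 (.l 24 .nil)))))) (.node (.node (.node (.I .jac (.c 2718203977 (.c 16 (.c 32 .nil))) (.b 40 (.l 24 .nil))) (.I .adp (.c 12929 (.c 32 (.c 2718203977 .nil))) (.l 24 .nil))) (.node (.I .com (.c 59109062884628932489 (.c 12929 .nil)) (.l 24 .nil)) (.I .adp (.c 32 (.c 40 (.c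 16 .nil))) (.b 2105737 (.l 24 .nil))))) (.node (.node (.I .com (.c 12929 (.c 32 .nil)) (.b 2105737 (.l 24 .nil))) (.I .adp (.c 12929 (.c 32 (.c 2105737 .nil))) (.l 24 .nil))) (.node (.I .adp (.c 8 (.c 18561 (.c 1310925065 .nil))) (.l 24 .nil)) (.I .adp (.c 8 (.c 48 (.c 16 .nil))) (.b 537002313 (.l 24 .nil))))))) (.node (.node (.node (.node (.I .com (.c 14629225721520457 (.c 12929 .nil)) (.b 24 .nil)) (.I .tdb (.c 0 (.c 48 (.c 8 (.c 32 .nil)))) (.l 12929 (.b 24 .nil)))) (.node (.I .adp (.c 16 (.c 13057 (.c 2718203977 .nil))) (.l 24 .nil)) (.I .jac (.c 2718203977 (.c 32 (.c 40 .nil))) (.l 16 (.l 24 .nil))))) (.node (.node (.I .com (.c 27951050520792141000852311054881784782729 (.c 16 .nil)) (.l 24 .nil)) (.I .com (.c 27951050520792140940324630661021757881289 (.c 16 .nil)) (.l 24 .nil))) (.node (.I .adp (.c 16 (.c 40 (.c 32 .nil))) (.b 2105737 (.l 24 .nil))) (.I .adp (.c 16 (.c 13057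 (.c 2105737 .nil))) (.l 24 .nil))))) (.node (.node (.node (.I .adp (.c 8 (.c 18689 (.c 1310924937 .nil))) (.l 24 .nil)) (.I .jac (.c 1310924937 (.c 32 (.c 48 .nil))) (.l 8 (.l 24 .nil)))) (.node (.I .adp (.c 8 (.c 18689 (.c 33587529 .nil))) (.l 24 .nil)) (.I .adp (.c 8 (.c 48 (.c 32 .nil))) (.b 33587529 (.l 24 .nil))))) (.node (.node (.I .jac (.c 16 (.c 32 (.c 48 .nil))) (.l 1310924873 (.l 24 .nil))) (.I .adp (.c 16 (.c 32 (.c 40 .nil))) (.b 2718203977 (.l 24 .nil)))) (.node (.I .adp (.c 8 (.c 18753 (.c 33587465 .nil))) (.l 24 .nil)) (.I .jac (.c 33587465 (.c 40 (.c 48 .nil))) (.l 8 (.l 24 .nil)))))))) (.node (.node (.node (.node (.node (.I .adp (.c 8 (.c 48 (.c 40 .nil))) (.b 537002121 (.l 24 .nil))) (.I .adp (.c 8 (.c 48 (.c 40 .nil))) (.b 33587465 (.l 24 .nil)))) (.node (.I .jac (.c 16 (.c 40 (.c 48 .nil))) (.l 537002057 (.l 24 .nil))) (.I .adp (.c 0 (.c 32 (.c 18497 .nil))) (.b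 12929 (.l 24 .nil))))) (.node (.node (.I .adp (.c 8 (.c 48 (.c 8193 .nil))) (.b 12929 (.l 24 .nil))) (.I .adp (.c 8 (.c 48 (.c 2049 .nil))) (.b 13057 (.l 24 .nil)))) (.node (.I .adp (.c 16 (.c 32 (.c 18433 .nil))) (.b 12865 (.l 24 .nil))) (.I .jac (.c 18433 (.c 8 (.c 40 .nil))) (.b 16 (.b 32 (.l 24 .nil))))))) (.node (.node (.node (.I .jac (.c 18433 (.c 35718473 (.c 32 .nil))) (.l 24 .nil)) (.I .jac (.c 18433 (.c 2113 (.c 40 .nil))) (.b 32 (.l 24 .nil)))) (.node (.I .adp (.c 1310924937 (.c 32 (.c 18497 .nil))) (.l 24 .nil)) (.I .adp (.c 537002121 (.c 40 (.c 18497 .nil))) (.l 24 .nil)))) (.node (.node (.I .com (.c 537002313 (.c 16 .nil)) (.b 18497 (.l 24 .nil))) (.I .com (.c 1310925065 (.c 16 .nil)) (.b 18497 (.l 24 .nil)))) (.node (.I .adp (.c 1310925065 (.c 16 (.c 18497 .nil))) (.l 24 .nil)) (.I .adp (.c 537002313 (.c 16 (.c 18497 .nil))) (.l 24 .nil)))))) (.node (.node (.node (.node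 (.I .adp (.c 2718204169 (.c 20891715 (.c 24 .nil))) .nil) (.I .jac (.c 13748196208362033865 (.c 16 (.c 48 .nil))) (.l 24 .nil))) (.node (.I .jac (.c 12801 (.c 8 (.c 32 .nil))) (.b 18561 (.l 24 .nil))) (.I .adp (.c 1310924873 (.c 32 (.c 18561 .nil))) (.l 24 .nil)))) (.node (.node (.I .adp (.c 2105673 (.c 32 (.c 18561 .nil))) (.l 24 .nil)) (.I .adp (.c 537002057 (.c 40 (.c 18561 .nil))) (.l 24 .nil))) (.node (.I .adp (.c 2105609 (.c 40 (.c 18561 .nil))) (.l 24 .nil)) (.I .com (.c 1310925065 (.c 8 .nil)) (.b 18561 (.l 24 .nil)))))) (.node (.node (.node (.I .com (.c 537002313 (.c 8 .nil)) (.b 18561 (.l 24 .nil))) (.I .adp (.c 1310925065 (.c 8 (.c 18561 .nil))) (.l 24 .nil))) (.node (.I .adp (.c 537002313 (.c 8 (.c 18561 .nil))) (.l 24 .nil)) (.I .adp (.c 20685315 (.c 2756086025 (.c 24 .nil))) .nil))) (.node (.node (.I .adp (.c 8 (.c 16 (.c 48 .nil))) (.b 1310925065 (.l 24 .nil))) (.I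 .adp (.c 8 (.c 16 (.c 48 .nil))) (.b 537002313 (.l 24 .nil)))) (.node (.I .adp (.c 32 (.c 40 (.c 48 .nil))) (.b 2105481 (.l 24 .nil))) (.I .adp (.c 32 (.c 40 (.c 513 .nil))) (.b 18561 (.l 24 .nil)))))))))

noncomputable def c2_351 : Tr := (.node (.node (.node (.node (.node (.node (.I .com (.c 2105673 (.c 32 .nil)) (.b 18561 (.l 24 .nil))) (.I .jac (.c 9024976834606793 (.c 32 (.c 48 .nil))) (.b 24 .nil))) (.node (.I .jac (.c 2049 (.c 8 (.c 40 .nil))) (.b 18689 (.b 24 .nil))) (.I .jac (.c 12801 (.c 8 (.c 16 .nil))) (.b 18689 (.l 24 .nil))))) (.node (.node (.I .jac (.c 0 (.c 2113 (.c 40 .nil))) (.b 18689 (.l 24 .nil))) (.I .jac (.c 0 (.c 8 (.c 16 .nil))) (.b 40 (.b 18689 (.l 24 .nil))))) (.node (.I .adp (.c 1310924873 (.c 16 (.c 18689 .nil))) (.l 24 .nil)) (.I .jac (.c 1310924873 (.c 32 (.c 48 .nil))) (.r 16 (.l 24 .nil)))))) (.node (.node (.node (.I .adp (.c 2105673 (.c 16 (.c 18689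 .nil))) (.l 24 .nil)) (.I .adp (.c 2105481 (.c 40 (.c 18689 .nil))) (.l 24 .nil))) (.node (.I .com (.c 1310924937 (.c 8 .nil)) (.b 18689 (.l 24 .nil))) (.I .adp (.c 1310924937 (.c 8 (.c 18689 .nil))) (.l 24 .nil)))) (.node (.node (.I .jac (.c 1310924937 (.c 32 (.c 48 .nil))) (.r 8 (.l 24 .nil))) (.I .tdb (.c 0 (.c 48 (.c 8 (.c 16 .nil)))) (.l 13057 (.b 24 .nil)))) (.node (.I .com (.c 14832803796618313 (.c 13057 .nil)) (.b 24 .nil)) (.I .adp (.c 8 (.c 32 (.c 48 .nil))) (.b 1310924937 (.l 24 .nil))))))) (.node (.node (.node (.node (.I .adp (.c 16 (.c 40 (.c 48 .nil))) (.b 2105609 (.l 24 .nil))) (.I .adp (.c 16 (.c 40 (.c 48 .nil))) (.b 537002057 (.l 24 .nil)))) (.node (.I .adp (.c 16 (.c 40 (.c 8193 .nil))) (.b 18497 (.l 24 .nil))) (.I .adp (.c 16 (.c 40 (.c 513 .nil))) (.b 18689 (.l 24 .nil))))) (.node (.node (.I .com (.c 2105673 (.c 16 .nil)) (.b 18689 (.l 24 .nil))) (.I .adp (.c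 16 (.c 32 (.c 48 .nil))) (.b 1310924873 (.l 24 .nil)))) (.node (.I .adp (.c 8 (.c 40 (.c 48 .nil))) (.b 537002121 (.l 24 .nil))) (.I .adp (.c 8 (.c 40 (.c 8193 .nil))) (.b 18561 (.l 24 .nil)))))) (.node (.node (.node (.I .adp (.c 16 (.c 32 (.c 12801 .nil))) (.b 18497 (.l 24 .nil))) (.I .adp (.c 8 (.c 32 (.c 12801 .nil))) (.b 18561 (.l 24 .nil)))) (.node (.I .adp (.c 8 (.c 16 (.c 12801 .nil))) (.b 18689 (.l 24 .nil))) (.I .jac (.c 35468714087177 (.c 40 (.c 48 .nil))) (.b 24 .nil)))) (.node (.node (.I .jac (.c 9024839260612489 (.c 40 (.c 48 .nil))) (.b 24 .nil)) (.I .jac (.c 2049 (.c 8 (.c 32 .nil))) (.b 18753 (.b 24 .nil)))) (.node (.I .jac (.c 2306970223667989193 (.c 40 (.c 48 .nil))) (.b 24 .nil)) (.I .jac (.c 35464401931145 (.c 40 (.c 48 .nil))) (.b 24 .nil))))))) (.node (.node (.node (.node (.node (.I .jac (.c 8193 (.c 8 (.c 16 .nil))) (.b 18753 (.b 24 .nil))) (.I .adp (.c 537002057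 (.c 16 (.c 18753 .nil))) (.l 24 .nil))) (.node (.I .jac (.c 537002057 (.c 40 (.c 48 .nil))) (.r 16 (.l 24 .nil))) (.I .com (.c 537002121 (.c 8 .nil)) (.b 18753 (.l 24 .nil))))) (.node (.node (.I .adp (.c 537002121 (.c 8 (.c 18753 .nil))) (.l 24 .nil)) (.I .jac (.c 537002121 (.c 40 (.c 48 .nil))) (.r 8 (.l 24 .nil)))) (.node (.I .adp (.c 8 (.c 16 (.c 8193 .nil))) (.b 18753 (.l 24 .nil))) (.I .jac (.c 35718473 (.c 32 (.c 48 .nil))) (.b 24 (.l 0 .nil)))))) (.node (.node (.node (.I .adp (.c 32 (.c 40 (.c 48 .nil))) (.b 2113 (.l 4609 .nil))) (.I .adp (.c 32 (.c 40 (.c 8 .nil))) (.b 18561 (.l 4609 .nil)))) (.node (.I .com (.c 12865 (.c 32 .nil)) (.b 18561 (.l 4609 .nil))) (.I .adp (.c 32 (.c 40 (.c 16 .nil))) (.b 18497 (.l 4609 .nil))))) (.node (.node (.I .com (.c 12929 (.c 32 .nil)) (.b 18497 (.l 4609 .nil))) (.I .jac (.c 1324065929 (.c 32 (.c 48 .nil))) (.b 24 (.l 0 .nil)))) (.node (.I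 .jac (.c 8 (.c 16 (.c 40 .nil))) (.b 18689 (.b 24 (.l 0 .nil)))) (.I .adp (.c 8 (.c 40 (.c 48 .nil))) (.b 8321 (.l 4609 .nil))))))) (.node (.node (.node (.node (.I .adp (.c 8 (.c 40 (.c 16 .nil))) (.b 18689 (.l 4609 .nil))) (.I .adp (.c 8 (.c 40 (.c 32 .nil))) (.b 18561 (.l 4609 .nil)))) (.node (.I .jac (.c 8 (.c 16 (.c 32 .nil))) (.b 18753 (.l 4609 .nil))) (.I .jac (.c 545424521 (.c 40 (.c 48 .nil))) (.b 24 (.l 0 .nil))))) (.node (.node (.I .adp (.c 16 (.c 32 (.c 8 .nil))) (.b 18753 (.l 4609 .nil))) (.I .com (.c 8257 (.c 16 .nil)) (.b 18753 (.l 4609 .nil)))) (.node (.I .adp (.c 16 (.c 32 (.c 48 .nil))) (.b 12865 (.l 4609 .nil))) (.I .adp (.c 16 (.c 32 (.c 40 .nil))) (.b 18497 (.l 4609 .nil)))))) (.node (.node (.node (.I .adp (.c 8 (.c 32 (.c 16 .nil))) (.b 18753 (.l 4609 .nil))) (.I .adp (.c 8 (.c 32 (.c 48 .nil))) (.b 12929 (.l 4609 .nil)))) (.node (.I .adp (.c 8 (.c 32 (.c 40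 .nil))) (.b 18561 (.l 4609 .nil))) (.I .jac (.c 33587593 (.c 32 (.c 40 .nil))) (.b 24 (.b 8 .nil))))) (.node (.node (.I .jac (.c 33587529 (.c 32 (.c 48 .nil))) (.b 24 (.b 8 .nil))) (.I .jac (.c 2049 (.c 32 (.c 48 .nil))) (.b 40 (.b 24 (.b 8 .nil))))) (.node (.I .jac (.c 537002377 (.c 16 (.c 40 .nil))) (.l 24 (.l 8 .nil))) (.I .jac (.c 537002313 (.c 16 (.c 48 .nil))) (.l 24 (.l 8 .nil)))))))))

noncomputable def c2_352 : Tr := (.node (.node (.node (.node (.node (.node (.I .com (.c 42576974092320106643384879185736245001 (.c 24 .nil)) (.l 8 .nil)) (.I .com (.c 42576953795010663218959029878649750281 (.c 24 .nil)) (.l 8 .nil))) (.node (.I .jac (.c 2718204233 (.c 16 (.c 32 .nil))) (.l 24 (.l 8 .nil))) (.I .jac (.c 1310925193 (.c 16 (.c 32 .nil))) (.l 24 (.l 8 .nil))))) (.node (.node (.I .com (.c 27951061050494848639907477563920710974217 (.c 24 .nil)) (.l 8 .nil)) (.I .com (.c 1512103782441961079041378905002237328137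 (.c 24 .nil)) (.l 8 .nil))) (.node (.I .com (.c 27951061050494848518852093974251956532105 (.c 24 .nil)) (.l 8 .nil)) (.I .com (.c 1512103782441961050885067571858279445385 (.c 24 .nil)) (.l 8 .nil))))) (.node (.node (.node (.I .jac (.c 2049 (.c 32 (.c 48 .nil))) (.b 40 (.b 8 (.b 24 .nil)))) (.I .jac (.c 537002377 (.c 16 (.c 40 .nil))) (.b 8 (.b 24 .nil)))) (.node (.I .jac (.c 537002313 (.c 16 (.c 48 .nil))) (.b 8 (.b 24 .nil))) (.I .jac (.c 8193 (.c 16 (.c 48 .nil))) (.b 40 (.b 8 (.b 24 .nil)))))) (.node (.node (.I .jac (.c 2718204233 (.c 16 (.c 32 .nil))) (.b 8 (.b 24 .nil))) (.I .jac (.c 1310925193 (.c 16 (.c 32 .nil))) (.b 8 (.b 24 .nil)))) (.node (.I .jac (.c 33587529 (.c 32 (.c 48 .nil))) (.b 8 (.l 24 .nil))) (.I .jac (.c 2049 (.c 32 (.c 48 .nil))) (.b 40 (.b 8 (.l 24 .nil)))))))) (.node (.node (.node (.node (.I .jac (.c 2049 (.c 32 (.c 40 .nil))) (.b 48 (.b 8 (.l 24 .nil))))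 (.I .jac (.c 537002313 (.c 16 (.c 48 .nil))) (.b 8 (.l 24 .nil)))) (.node (.I .jac (.c 8193 (.c 18561 (.c 40 .nil))) (.b 8 (.l 24 .nil))) (.I .jac (.c 8193 (.c 16 (.c 40 .nil))) (.b 48 (.b 8 (.l 24 .nil)))))) (.node (.node (.I .jac (.c 2718204233 (.c 16 (.c 32 .nil))) (.b 8 (.l 24 .nil))) (.I .tdb (.c 0 (.c 48 (.c 16 (.c 40 .nil)))) (.b 32 (.t 8 24 .nil)))) (.node (.I .jac (.c 1310925065 (.c 16 (.c 48 .nil))) (.l 24 (.l 8 .nil))) (.I .com (.c 1512103191868961706263182477688868913929 (.c 24 .nil)) (.l 8 .nil))))) (.node (.node (.node (.I .jac (.c 2718204169 (.c 16 (.c 40 .nil))) (.l 24 (.l 8 .nil))) (.I .com (.c 27951058418068892863957554057219361971977 (.c 24 .nil)) (.l 8 .nil))) (.node (.I .com (.c 27951058418068892682374487223447295013833 (.c 24 .nil)) (.l 8 .nil)) (.I .com (.c 42576974092320099556365595025629983689 (.c 24 .nil)) (.l 8 .nil)))) (.node (.node (.I .jac (.c 12801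 (.c 8321 (.c 48 .nil))) (.b 8 (.b 24 .nil))) (.I .jac (.c 12801 (.c 16 (.c 32 .nil))) (.b 48 (.b 8 (.b 24 .nil))))) (.node (.I .jac (.c 1310925065 (.c 16 (.c 48 .nil))) (.b 8 (.l 24 .nil))) (.I .jac (.c 12801 (.c 18561 (.c 32 .nil))) (.b 8 (.l 24 .nil)))))))) (.node (.node (.node (.node (.node (.I .jac (.c 12801 (.c 16 (.c 48 .nil))) (.b 32 (.b 8 (.l 24 .nil)))) (.I .jac (.c 12801 (.c 16 (.c 32 .nil))) (.b 48 (.b 8 (.l 24 .nil))))) (.node (.I .jac (.c 2718204169 (.c 16 (.c 40 .nil))) (.b 8 (.l 24 .nil))) (.I .adp (.c 32 (.c 48 (.c 40 .nil))) (.b 2049 (.l 4673 .nil))))) (.node (.node (.I .adp (.c 32 (.c 48 (.c 16 .nil))) (.b 12801 (.l 4673 .nil))) (.I .com (.c 18561 (.c 32 .nil)) (.b 12801 (.l 4673 .nil)))) (.node (.I .adp (.c 32 (.c 48 (.c 0 .nil))) (.b 12929 (.l 4673 .nil))) (.I .com (.c 18433 (.c 32 .nil)) (.b 12929 (.l 4673 .nil)))))) (.node (.node (.node (.I .tdb (.c 0 (.c 48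 (.c 16 (.c 32 .nil)))) (.b 40 (.t 8 24 .nil))) (.I .jac (.c 2718204041 (.c 32 (.c 40 .nil))) (.b 24 (.b 8 .nil)))) (.node (.I .com (.c 42576953795010653769602236682924913673 (.c 24 .nil)) (.l 8 .nil)) (.I .com (.c 1512103191868961649950570808237977416713 (.c 24 .nil)) (.l 8 .nil)))) (.node (.node (.I .jac (.c 0 (.c 16 (.c 48 .nil))) (.b 13057 (.b 8 (.l 24 .nil)))) (.I .adp (.c 0 (.c 48 (.c 40 .nil))) (.b 8321 (.l 4673 .nil)))) (.node (.I .adp (.c 0 (.c 48 (.c 32 .nil))) (.b 12929 (.l 4673 .nil))) (.I .adp (.c 0 (.c 48 (.c 16 .nil))) (.b 13057 (.l 4673 .nil))))))) (.node (.node (.node (.node (.I .jac (.c 18433 (.c 8321 (.c 40 .nil))) (.b 8 (.b 24 .nil))) (.I .jac (.c 18433 (.c 16 (.c 32 .nil))) (.b 40 (.b 8 (.l 24 .nil))))) (.node (.I .adp (.c 12801 (.c 32 (.c 18561 .nil))) (.l 4673 .nil)) (.I .jac (.c 1310924937 (.c 32 (.c 48 .nil))) (.b 24 (.l 8 .nil))))) (.node (.node (.I .adp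 (.c 0 (.c 13057 (.c 18561 .nil))) (.l 4673 .nil)) (.I .jac (.c 0 (.c 16 (.c 32 .nil))) (.b 18753 (.l 4673 .nil)))) (.node (.I .jac (.c 0 (.c 16 (.c 32 .nil))) (.b 18753 (.b 24 (.b 8 .nil)))) (.I .jac (.c 537002121 (.c 40 (.c 48 .nil))) (.b 24 (.l 8 .nil)))))) (.node (.node (.node (.I .jac (.c 33587465 (.c 40 (.c 48 .nil))) (.b 8 (.b 24 .nil))) (.I .jac (.c 0 (.c 16 (.c 32 .nil))) (.b 18753 (.b 8 (.b 24 .nil))))) (.node (.I .jac (.c 33587465 (.c 40 (.c 48 .nil))) (.b 8 (.l 24 .nil))) (.I .adp (.c 2049 (.c 32 (.c 18753 .nil))) (.l 4673 .nil)))) (.node (.node (.I .jac (.c 2049 (.c 40 (.c 48 .nil))) (.r 32 (.l 4673 .nil))) (.I .jac (.c 8652803 (.c 40 (.c 48 .nil))) (.b 24 (.l 8 .nil)))) (.node (.I .jac (.c 8652803 (.c 40 (.c 48 .nil))) (.b 8 (.l 24 .nil))) (.I .adp (.c 0 (.c 8321 (.c 18753 .nil))) (.l 4673 .nil))))))))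

noncomputable def c2_353 : Tr := (.node (.node (.node (.node (.node (.node (.I .jac (.c 0 (.c 40 (.c 48 .nil))) (.r 8321 (.l 4673 .nil))) (.I .adp (.c 0 (.c 32 (.c 16 .nil))) (.b 18753 (.l 4673 .nil)))) (.node (.I .adp (.c 0 (.c 32 (.c 48 .nil))) (.b 12929 (.l 4673 .nil))) (.I .adp (.c 0 (.c 32 (.c 40 .nil))) (.b 18561 (.l 4673 .nil))))) (.node (.node (.I .jac (.c 8321 (.c 40 (.c 48 .nil))) (.b 24 (.l 8 (.l 0 .nil)))) (.I .jac (.c 12929 (.c 32 (.c 48 .nil))) (.b 24 (.l 8 (.l 0 .nil))))) (.node (.I .jac (.c 18561 (.c 32 (.c 40 .nil))) (.b 24 (.l 8 (.l 0 .nil)))) (.I .jac (.c 537002377 (.c 8 (.c 40 .nil))) (.l 4737 .nil))))) (.node (.node (.node (.I .jac (.c 537002313 (.c 8 (.c 48 .nil))) (.l 4737 .nil)) (.I .jac (.c 8193 (.c 18497 (.c 40 .nil))) (.l 4737 .nil))) (.node (.I .jac (.c 8193 (.c 8 (.c 48 .nil))) (.b 40 (.l 4737 .nil))) (.I .jac (.c 8193 (.c 12865 (.c 48 .nil))) (.l 4737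 .nil)))) (.node (.node (.I .jac (.c 8193 (.c 8 (.c 40 .nil))) (.b 48 (.l 4737 .nil))) (.I .com (.c 42576974092320106643384879185736244937 (.c 4737 .nil)) .nil)) (.node (.I .com (.c 42576953795010663218959029878649750217 (.c 4737 .nil)) .nil) (.I .jac (.c 2718204233 (.c 8 (.c 32 .nil))) (.l 4737 .nil)))))) (.node (.node (.node (.node (.I .com (.c 27951061050494848639907477563920710974153 (.c 4737 .nil)) .nil) (.I .jac (.c 2105737 (.c 32 (.c 40 .nil))) (.b 24 (.b 16 .nil)))) (.node (.I .jac (.c 2105673 (.c 32 (.c 48 .nil))) (.b 24 (.b 16 .nil))) (.I .jac (.c 513 (.c 32 (.c 48 .nil))) (.b 40 (.b 24 (.b 16 .nil)))))) (.node (.node (.I .jac (.c 2105737 (.c 32 (.c 40 .nil))) (.b 24 (.l 16 .nil))) (.I .jac (.c 513 (.c 32 (.c 48 .nil))) (.b 40 (.b 24 (.l 16 .nil))))) (.node (.I .jac (.c 537002377 (.c 8 (.c 40 .nil))) (.l 24 (.l 16 .nil))) (.I .jac (.c 8193 (.c 18497 (.c 40 .nil))) (.l 24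 (.l 16 .nil)))))) (.node (.node (.node (.I .jac (.c 8193 (.c 8 (.c 48 .nil))) (.b 40 (.l 24 (.l 16 .nil)))) (.I .com (.c 42576974092320106643384879185736244937 (.c 24 .nil)) (.l 16 .nil))) (.node (.I .jac (.c 1310925193 (.c 8 (.c 32 .nil))) (.l 24 (.l 16 .nil))) (.I .com (.c 1512103782441961079041378905002237328073 (.c 24 .nil)) (.l 16 .nil)))) (.node (.node (.I .jac (.c 2105737 (.c 32 (.c 40 .nil))) (.b 16 (.b 24 .nil))) (.I .jac (.c 513 (.c 32 (.c 48 .nil))) (.b 40 (.b 16 (.b 24 .nil))))) (.node (.I .jac (.c 513 (.c 32 (.c 40 .nil))) (.b 48 (.b 16 (.l 24 .nil)))) (.I .adp (.c 40 (.c 48 (.c 32 .nil))) (.b 513 (.l 4737 .nil)))))))) (.node (.node (.node (.node (.node (.I .com (.c 18689 (.c 40 .nil)) (.b 513 (.l 4737 .nil))) (.I .tdb (.c 0 (.c 32 (.c 12865 (.c 48 .nil)))) (.l 4737 .nil))) (.node (.I .tdb (.c 8 (.c 40 (.c 0 (.c 48 .nil)))) (.b 32 (.l 4737 .nil))) (.I .tdb (.c 8 (.c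 40 (.c 32 (.c 48 .nil)))) (.b 0 (.l 4737 .nil))))) (.node (.node (.I .jac (.c 8193 (.c 8 (.c 48 .nil))) (.r 40 (.l 4737 .nil))) (.I .com (.c 537002313 (.c 18497 .nil)) (.l 4737 .nil))) (.node (.I .jac (.c 8193 (.c 8 (.c 40 .nil))) (.r 48 (.l 4737 .nil))) (.I .com (.c 537002377 (.c 12865 .nil)) (.l 4737 .nil))))) (.node (.node (.node (.I .adp (.c 18497 (.c 40 (.c 8193 .nil))) (.l 4737 .nil)) (.I .adp (.c 12865 (.c 48 (.c 8193 .nil))) (.l 4737 .nil))) (.node (.I .adp (.c 40 (.c 48 (.c 8 .nil))) (.b 8193 (.l 4737 .nil))) (.I .com (.c 18497 (.c 40 .nil)) (.b 8193 (.l 4737 .nil))))) (.node (.node (.I .tdb (.c 8 (.c 32 (.c 12801 (.c 48 .nil)))) (.l 4737 .nil)) (.I .jac (.c 18433 (.c 8 (.c 32 .nil))) (.r 40 (.l 4737 .nil)))) (.node (.I .jac (.c 12801 (.c 8 (.c 32 .nil))) (.r 48 (.l 4737 .nil))) (.I .adp (.c 40 (.c 48 (.c 0 .nil))) (.b 8257 (.l 4737 .nil))))))) (.node (.node (.node (.node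 (.I .com (.c 18433 (.c 40 .nil)) (.b 8257 (.l 4737 .nil))) (.I .jac (.c 0 (.c 21307459 (.c 48 .nil))) (.t 16 24 .nil))) (.node (.I .com (.c 2306971873338799817 (.c 43356803 .nil)) .nil) (.I .tdb (.c 0 (.c 48 (.c 8 (.c 40 .nil)))) (.b 32 (.t 16 24 .nil))))) (.node (.node (.I .tdb (.c 0 (.c 48 (.c 32 (.c 40 .nil)))) (.b 8 (.t 16 24 .nil))) (.I .tdb (.c 0 (.c 40 (.c 8 (.c 48 .nil)))) (.b 32 (.t 16 24 .nil)))) (.node (.I .tdb (.c 0 (.c 40 (.c 32 (.c 48 .nil)))) (.b 8 (.t 16 24 .nil))) (.I .com (.c 13748196208362033865 (.c 43356803 .nil)) .nil)))) (.node (.node (.node (.I .jac (.c 1310925065 (.c 8 (.c 48 .nil))) (.l 4737 .nil)) (.I .jac (.c 12801 (.c 18497 (.c 32 .nil))) (.l 4737 .nil))) (.node (.I .jac (.c 12801 (.c 8 (.c 48 .nil))) (.b 32 (.l 4737 .nil))) (.I .jac (.c 12801 (.c 8257 (.c 48 .nil))) (.l 4737 .nil)))) (.node (.node (.I .jac (.c 12801 (.c 8 (.c 32 .nil))) (.b 48 (.l 4737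 .nil))) (.I .com (.c 1512103191868961706263182477688868913865 (.c 4737 .nil)) .nil)) (.node (.I .jac (.c 12801 (.c 18497 (.c 32 .nil))) (.l 24 (.l 16 .nil))) (.I .jac (.c 12801 (.c 8 (.c 48 .nil))) (.b 32 (.l 24 (.l 16 .nil))))))))))

noncomputable def c2_354 : Tr := (.node (.node (.node (.node (.node (.node (.I .adp (.c 32 (.c 48 (.c 40 .nil))) (.b 513 (.l 4737 .nil))) (.I .jac (.c 12801 (.c 8 (.c 48 .nil))) (.r 32 (.l 4737 .nil)))) (.node (.I .com (.c 1310925065 (.c 18497 .nil)) (.l 4737 .nil)) (.I .com (.c 1310925193 (.c 8257 .nil)) (.l 4737 .nil)))) (.node (.node (.I .adp (.c 18497 (.c 32 (.c 12801 .nil))) (.l 4737 .nil)) (.I .adp (.c 8257 (.c 48 (.c 12801 .nil))) (.l 4737 .nil))) (.node (.I .adp (.c 32 (.c 48 (.c 8 .nil))) (.b 12801 (.l 4737 .nil))) (.I .com (.c 18497 (.c 32 .nil)) (.b 12801 (.l 4737 .nil)))))) (.node (.node (.node (.I .jac (.c 18433 (.c 8 (.c 40 .nil))) (.r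 32 (.l 4737 .nil))) (.I .adp (.c 32 (.c 48 (.c 0 .nil))) (.b 12865 (.l 4737 .nil)))) (.node (.I .com (.c 18433 (.c 32 .nil)) (.b 12865 (.l 4737 .nil))) (.I .jac (.c 0 (.c 43954755 (.c 32 .nil))) (.t 16 24 .nil)))) (.node (.node (.I .com (.c 13748198893136698057 (.c 8786563 .nil)) .nil) (.I .tdb (.c 0 (.c 48 (.c 8 (.c 32 .nil)))) (.b 40 (.t 16 24 .nil)))) (.node (.I .com (.c 59109074018392946377 (.c 8786563 .nil)) .nil) (.I .jac (.c 2718203977 (.c 32 (.c 40 .nil))) (.b 24 (.l 16 .nil))))))) (.node (.node (.node (.node (.I .jac (.c 0 (.c 8 (.c 48 .nil))) (.b 13057 (.b 24 (.l 16 .nil)))) (.I .jac (.c 0 (.c 8 (.c 48 .nil))) (.b 13057 (.l 24 (.l 16 .nil))))) (.node (.I .jac (.c 2718203977 (.c 32 (.c 40 .nil))) (.b 16 (.b 24 .nil))) (.I .jac (.c 0 (.c 8 (.c 48 .nil))) (.b 13057 (.b 16 (.b 24 .nil)))))) (.node (.node (.I .jac (.c 8257 (.c 40 (.c 48 .nil))) (.l 0 (.l 4737 .nil))) (.I .adp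 (.c 0 (.c 48 (.c 40 .nil))) (.b 8257 (.l 4737 .nil)))) (.node (.I .ass (.c 4737 (.c 0 (.c 2379904940409059337 .nil))) .nil) (.I .ass (.c 0 (.c 4737 (.c 2379904940409059337 .nil))) .nil)))) (.node (.node (.node (.I .com (.c 4737 (.c 0 .nil)) (.r 2379904940409059337 .nil)) (.I .jac (.c 12865 (.c 32 (.c 48 .nil))) (.l 0 (.l 4737 .nil)))) (.node (.I .adp (.c 0 (.c 48 (.c 32 .nil))) (.b 12865 (.l 4737 .nil))) (.I .ass (.c 4737 (.c 0 (.c 14025207386396218377 .nil))) .nil))) (.node (.node (.I .ass (.c 0 (.c 4737 (.c 14025207386396218377 .nil))) .nil) (.I .com (.c 4737 (.c 0 .nil)) (.r 14025207386396218377 .nil))) (.node (.I .adp (.c 0 (.c 48 (.c 8 .nil))) (.b 13057 (.l 4737 .nil))) (.I .jac (.c 18433 (.c 8257 (.c 40 .nil))) (.l 4737 .nil))))))) (.node (.node (.node (.node (.node (.I .jac (.c 18433 (.c 8 (.c 32 .nil))) (.b 40 (.l 4737 .nil))) (.I .adp (.c 32 (.c 40 (.c 48 .nil))) (.b 513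 (.l 4737 .nil)))) (.node (.I .adp (.c 32 (.c 40 (.c 0 .nil))) (.b 18497 (.l 4737 .nil))) (.I .com (.c 12801 (.c 32 .nil)) (.b 18497 (.l 4737 .nil))))) (.node (.node (.I .com (.c 2718204169 (.c 12865 .nil)) (.l 4737 .nil)) (.I .com (.c 2718204233 (.c 8257 .nil)) (.l 4737 .nil))) (.node (.I .adp (.c 12865 (.c 32 (.c 18433 .nil))) (.l 4737 .nil)) (.I .adp (.c 8257 (.c 40 (.c 18433 .nil))) (.l 4737 .nil))))) (.node (.node (.node (.I .adp (.c 32 (.c 40 (.c 8 .nil))) (.b 18433 (.l 4737 .nil))) (.I .com (.c 12865 (.c 32 .nil)) (.b 18433 (.l 4737 .nil)))) (.node (.I .jac (.c 0 (.c 8 (.c 40 .nil))) (.b 18689 (.l 4737 .nil))) (.I .jac (.c 1310924873 (.c 32 (.c 48 .nil))) (.b 24 (.b 16 .nil))))) (.node (.node (.I .jac (.c 1310924873 (.c 32 (.c 48 .nil))) (.b 16 (.b 24 .nil))) (.I .adp (.c 513 (.c 40 (.c 18689 .nil))) (.l 4737 .nil))) (.node (.I .adp (.c 0 (.c 40 (.c 48 .nil))) (.b 8257 (.l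 4737 .nil))) (.I .adp (.c 0 (.c 12865 (.c 18689 .nil))) (.l 4737 .nil)))))) (.node (.node (.node (.node (.I .jac (.c 0 (.c 32 (.c 48 .nil))) (.r 12865 (.l 4737 .nil))) (.I .adp (.c 0 (.c 40 (.c 8 .nil))) (.b 18689 (.l 4737 .nil)))) (.node (.I .adp (.c 0 (.c 40 (.c 32 .nil))) (.b 18497 (.l 4737 .nil))) (.I .jac (.c 0 (.c 8 (.c 32 .nil))) (.b 18753 (.l 4737 .nil))))) (.node (.node (.I .jac (.c 2105609 (.c 40 (.c 48 .nil))) (.b 24 (.b 16 .nil))) (.I .jac (.c 537002057 (.c 40 (.c 48 .nil))) (.b 16 (.b 24 .nil)))) (.node (.I .adp (.c 513 (.c 32 (.c 18753 .nil))) (.l 4737 .nil)) (.I .jac (.c 513 (.c 40 (.c 48 .nil))) (.r 32 (.l 4737 .nil)))))) (.node (.node (.node (.I .jac (.c 8520195 (.c 40 (.c 48 .nil))) (.b 16 (.b 24 .nil))) (.I .jac (.c 8520195 (.c 40 (.c 48 .nil))) (.b 16 (.l 24 .nil)))) (.node (.I .adp (.c 0 (.c 8257 (.c 18753 .nil))) (.l 4737 .nil)) (.I .jac (.c 0 (.c 40 (.c 48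 .nil))) (.r 8257 (.l 4737 .nil))))) (.node (.node (.I .adp (.c 0 (.c 32 (.c 8 .nil))) (.b 18753 (.l 4737 .nil))) (.I .adp (.c 0 (.c 32 (.c 48 .nil))) (.b 12865 (.l 4737 .nil)))) (.node (.I .adp (.c 0 (.c 32 (.c 40 .nil))) (.b 18497 (.l 4737 .nil))) (.I .jac (.c 8257 (.c 40 (.c 48 .nil))) (.b 24 (.b 16 (.l 0 .nil))))))))))

noncomputable def c2_355 : Tr := (.node (.node (.node (.node (.node (.node (.I .jac (.c 12865 (.c 32 (.c 48 .nil))) (.b 24 (.b 16 (.l 0 .nil)))) (.I .jac (.c 18497 (.c 32 (.c 40 .nil))) (.b 24 (.b 16 (.l 0 .nil))))) (.node (.I .jac (.c 8193 (.c 40 (.c 48 .nil))) (.b 2803779 .nil)) (.I .jac (.c 12801 (.c 32 (.c 48 .nil))) (.b 2803779 .nil)))) (.node (.node (.I .jac (.c 18433 (.c 32 (.c 40 .nil))) (.b 2803779 .nil)) (.I .jac (.c 8193 (.c 40 (.c 48 .nil))) (.b 24 (.l 2113 .nil)))) (.node (.I .jac (.c 12801 (.c 32 (.c 48 .nil))) (.b 24 (.l 2113 .nil))) (.I .jac (.c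 18433 (.c 32 (.c 40 .nil))) (.b 24 (.l 2113 .nil)))))) (.node (.node (.node (.I .jac (.c 8193 (.c 40 (.c 48 .nil))) (.b 24 (.b 16 (.b 8 .nil)))) (.I .jac (.c 12801 (.c 32 (.c 48 .nil))) (.b 24 (.b 16 (.b 8 .nil))))) (.node (.I .jac (.c 18433 (.c 32 (.c 40 .nil))) (.b 24 (.b 16 (.b 8 .nil)))) (.I .jac (.c 8193 (.c 40 (.c 48 .nil))) (.b 24 (.b 8 (.b 16 .nil)))))) (.node (.node (.I .jac (.c 12801 (.c 32 (.c 48 .nil))) (.b 24 (.b 8 (.b 16 .nil)))) (.I .jac (.c 18433 (.c 32 (.c 40 .nil))) (.b 24 (.b 8 (.b 16 .nil))))) (.node (.I .jac (.c 8193 (.c 40 (.c 48 .nil))) (.b 16 (.b 8 (.b 24 .nil)))) (.I .jac (.c 12801 (.c 32 (.c 48 .nil))) (.b 16 (.b 8 (.b 24 .nil)))))))) (.node (.node (.node (.node (.I .jac (.c 18433 (.c 32 (.c 40 .nil))) (.b 16 (.b 8 (.b 24 .nil)))) (.I .jac (.c 8193 (.c 40 (.c 48 .nil))) (.b 8 (.b 24 (.l 16 .nil))))) (.node (.I .jac (.c 12801 (.c 32 (.c 48 .nil))) (.b 8 (.b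 24 (.l 16 .nil)))) (.I .jac (.c 18433 (.c 32 (.c 40 .nil))) (.b 8 (.b 24 (.l 16 .nil)))))) (.node (.node (.I .jac (.c 8193 (.c 40 (.c 48 .nil))) (.b 8 (.b 16 (.l 24 .nil)))) (.I .jac (.c 12801 (.c 32 (.c 48 .nil))) (.b 8 (.b 16 (.l 24 .nil))))) (.node (.I .jac (.c 18433 (.c 32 (.c 40 .nil))) (.b 8 (.b 16 (.l 24 .nil)))) (.I .jac (.c 35470870263817 (.c 16 (.c 24 .nil))) (.l 32 .nil))))) (.node (.node (.node (.I .jac (.c 35473026505545 (.c 16 (.c 40 .nil))) (.l 32 .nil)) (.I .jac (.c 35466557976585 (.c 16 (.c 40 .nil))) (.l 32 .nil))) (.node (.I .jac (.c 2105737 (.c 16 (.c 24 .nil))) (.b 40 (.l 32 .nil))) (.I .jac (.c 2105673 (.c 16 (.c 48 .nil))) (.b 24 (.l 32 .nil))))) (.node (.node (.I .jac (.c 2105673 (.c 4737 (.c 48 .nil))) (.l 32 .nil)) (.I .jac (.c 513 (.c 16 (.c 48 .nil))) (.b 24 (.b 40 (.l 32 .nil))))) (.node (.I .com (.c 810705155093947686715548558786755234702307279633946107657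 (.c 32 .nil)) .nil) (.I .com (.c 809917014021492389842747135875993478139442776722716645321 (.c 32 .nil)) .nil)))))) (.node (.node (.node (.node (.node (.I .jac (.c 9024908047478793 (.c 8 (.c 40 .nil))) (.l 32 .nil)) (.I .jac (.c 33587593 (.c 8 (.c 24 .nil))) (.b 40 (.l 32 .nil)))) (.node (.I .jac (.c 33587529 (.c 18497 (.c 24 .nil))) (.l 32 .nil)) (.I .jac (.c 33587529 (.c 8 (.c 48 .nil))) (.b 24 (.l 32 .nil))))) (.node (.node (.I .jac (.c 33587529 (.c 4673 (.c 48 .nil))) (.l 32 .nil)) (.I .jac (.c 33587401 (.c 8 (.c 48 .nil))) (.b 40 (.l 32 .nil)))) (.node (.I .jac (.c 33587401 (.c 12865 (.c 48 .nil))) (.l 32 .nil)) (.I .jac (.c 2049 (.c 2737112265 (.c 40 .nil))) (.l 32 .nil))))) (.node (.node (.node (.I .jac (.c 2049 (.c 18497 (.c 24 .nil))) (.b 40 (.l 32 .nil))) (.I .jac (.c 2049 (.c 174695817 (.c 40 .nil))) (.l 32 .nil))) (.node (.I .jac (.c 2049 (.c 4673 (.c 48 .nil))) (.b 40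 (.l 32 .nil))) (.I .jac (.c 2049 (.c 8 (.c 24 .nil))) (.b 48 (.b 40 (.l 32 .nil)))))) (.node (.node (.I .com (.c 3396574178719779867970206709213955371244077516775865272270634262217 (.c 32 .nil)) .nil) (.I .com (.c 3396470626629796977786973438201765697400987898257132266220752339785 (.c 32 .nil)) .nil)) (.node (.I .com (.c 3396470626629893322603242024125711716005261913869006431401929496521 (.c 32 .nil)) .nil) (.I .com (.c 3396470626629796977786973438199764038143830829891467925486525618185 (.c 32 .nil)) .nil))))) (.node (.node (.node (.node (.I .jac (.c 13748198893136698185 (.c 8 (.c 16 .nil))) (.l 32 .nil)) (.I .com (.c 6250092156257071185327898691570831983536797006162547351610529844742892535786861257 (.c 32 .nil)) .nil)) (.node (.I .com (.c 1459032634273071433372491467052242947284366151276478843415911102183731913 (.c 32 .nil)) .nil) (.I .com (.c 18291641358826143796487118727567224429651994902325679599565150910203148494573321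 (.c 32 .nil)) .nil))) (.node (.node (.I .jac (.c 35473026505673 (.c 16 (.c 24 .nil))) (.l 32 .nil)) (.I .jac (.c 2105737 (.c 16 (.c 40 .nil))) (.b 24 (.l 32 .nil)))) (.node (.I .jac (.c 2105737 (.c 4737 (.c 40 .nil))) (.l 32 .nil)) (.I .jac (.c 2105545 (.c 16 (.c 40 .nil))) (.b 48 (.l 32 .nil)))))) (.node (.node (.node (.I .jac (.c 513 (.c 16 (.c 24 .nil))) (.b 40 (.b 48 (.l 32 .nil)))) (.I .com (.c 810113986408641505441454317377410956945037015659145724681 (.c 32 .nil)) .nil)) (.node (.I .com (.c 809917014021492389842747156482540288493190207579839438665 (.c 32 .nil)) .nil) (.I .jac (.c 2049 (.c 8 (.c 24 .nil))) (.b 40 (.b 48 (.l 32 .nil)))))) (.node (.node (.I .com (.c 3396470626629893322603242024127046155510033311705909030296951103305 (.c 32 .nil)) .nil) (.I .jac (.c 59109074018392946505 (.c 8 (.c 16 .nil))) (.l 32 .nil))) (.node (.I .com (.c 6250094510787921505645961611614566601701094689127597408981768111258142767902945993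 (.c 32 .nil)) .nil) (.I .com (.c 6250094510787921505645961611614566601672472802611890684036483210630598362173361929 (.c 32 .nil)) .nil)))))))

noncomputable def c2_356 : Tr := (.node (.node (.node (.node (.node (.node (.I .com (.c 1459028238553209570433275079308970782084406862455148356788611385195368201 (.c 32 .nil)) .nil) (.I .ass (.c 32 (.c 35473026505545 (.c 12929 .nil))) .nil)) (.node (.I .com (.c 32 (.c 35473026505545 .nil)) (.r 12929 .nil)) (.I .adp (.c 2737112265 (.c 40 (.c 2049 .nil))) (.l 32 .nil)))) (.node (.node (.I .com (.c 33587529 (.c 2737112265 .nil)) (.l 32 .nil)) (.I .com (.c 9025011228269385 (.c 12865 .nil)) (.l 32 .nil))) (.node (.I .ass (.c 32 (.c 9025011228269385 (.c 12865 .nil))) .nil) (.I .com (.c 32 (.c 9025011228269385 .nil)) (.r 12865 .nil))))) (.node (.node (.node (.I .ass (.c 32 (.c 9024839260612553 (.c 18625 .nil))) .nil) (.I .ass (.c 9024839260612553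 (.c 32 (.c 18625 .nil))) .nil)) (.node (.I .com (.c 32 (.c 9024839260612553 .nil)) (.r 18625 .nil)) (.I .ass (.c 32 (.c 33587529 (.c 2737112265 .nil))) .nil))) (.node (.node (.I .ass (.c 33587529 (.c 32 (.c 2737112265 .nil))) .nil) (.I .com (.c 32 (.c 33587529 .nil)) (.r 2737112265 .nil))) (.node (.I .com (.c 2737112265 (.c 32 .nil)) (.l 33587529 .nil)) (.I .ass (.c 32 (.c 33587529 (.c 174695817 .nil))) .nil))))) (.node (.node (.node (.node (.I .ass (.c 33587529 (.c 32 (.c 174695817 .nil))) .nil) (.I .com (.c 32 (.c 33587529 .nil)) (.r 174695817 .nil))) (.node (.I .tdb (.c 16 (.c 40 (.c 0 (.c 48 .nil)))) (.b 24 (.b 8 (.l 32 .nil)))) (.I .ass (.c 32 (.c 35473026505481 (.c 12993 .nil))) .nil))) (.node (.node (.I .com (.c 32 (.c 35473026505481 .nil)) (.r 12993 .nil)) (.I .ass (.c 32 (.c 35470870263625 (.c 18561 .nil))) .nil)) (.node (.I .ass (.c 35470870263625 (.c 32 (.c 18561 .nil)))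 .nil) (.I .com (.c 32 (.c 35470870263625 .nil)) (.r 18561 .nil))))) (.node (.node (.node (.I .ass (.c 32 (.c 35466557976521 (.c 18561 .nil))) .nil) (.I .ass (.c 35466557976521 (.c 32 (.c 18561 .nil))) .nil)) (.node (.I .com (.c 32 (.c 35466557976521 .nil)) (.r 18561 .nil)) (.I .tdb (.c 8 (.c 40 (.c 0 (.c 48 .nil)))) (.b 24 (.b 16 (.l 32 .nil)))))) (.node (.node (.I .tdb (.c 24 (.c 40 (.c 8 (.c 48 .nil)))) (.b 2049 (.l 32 .nil))) (.I .adp (.c 18497 (.c 12993 (.c 2049 .nil))) (.l 32 .nil))) (.node (.I .jac (.c 2049 (.c 24 (.c 40 .nil))) (.l 18497 (.l 32 .nil))) (.I .jac (.c 33587401 (.c 8 (.c 40 .nil))) (.r 48 (.l 32 .nil)))))))) (.node (.node (.node (.node (.node (.I .jac (.c 33587529 (.c 8 (.c 24 .nil))) (.r 48 (.l 32 .nil))) (.I .ass (.c 32 (.c 9025011228269257 (.c 12993 .nil))) .nil)) (.node (.I .com (.c 32 (.c 9025011228269257 .nil)) (.r 12993 .nil)) (.I .ass (.c 32 (.c 9024839260612617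 (.c 12993 .nil))) .nil))) (.node (.node (.I .com (.c 32 (.c 9024839260612617 .nil)) (.r 12993 .nil)) (.I .ass (.c 32 (.c 33587593 (.c 174695753 .nil))) .nil)) (.node (.I .com (.c 32 (.c 33587593 .nil)) (.r 174695753 .nil)) (.I .tdb (.c 24 (.c 12801 (.c 8 (.c 48 .nil)))) (.b 16 (.l 32 .nil)))))) (.node (.node (.node (.I .tdb (.c 0 (.c 40 (.c 8 (.c 48 .nil)))) (.b 24 (.b 16 (.l 32 .nil)))) (.I .tdb (.c 4609 (.c 40 (.c 8 (.c 48 .nil)))) (.b 16 (.l 32 .nil)))) (.node (.I .tdb (.c 0 (.c 24 (.c 48 (.c 8 .nil)))) (.b 40 (.b 16 (.l 32 .nil)))) (.I .tdb (.c 24 (.c 12801 (.c 16 (.c 48 .nil)))) (.b 8 (.l 32 .nil))))) (.node (.node (.I .tdb (.c 0 (.c 40 (.c 16 (.c 48 .nil)))) (.b 24 (.b 8 (.l 32 .nil)))) (.I .tdb (.c 4609 (.c 40 (.c 16 (.c 48 .nil)))) (.b 8 (.l 32 .nil)))) (.node (.I .tdb (.c 0 (.c 24 (.c 48 (.c 16 .nil)))) (.b 40 (.b 8 (.l 32 .nil)))) (.I .tdb (.c 8 (.c 16 (.c 48 (.c 1310925001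 .nil)))) (.l 32 .nil)))))) (.node (.node (.node (.node (.I .tdb (.c 8 (.c 16 (.c 48 (.c 169943369 .nil)))) (.l 32 .nil)) (.I .adp (.c 1310925001 (.c 48 (.c 2113 .nil))) (.l 32 .nil))) (.node (.I .jac (.c 1310925001 (.c 8 (.c 16 .nil))) (.r 48 (.l 32 .nil))) (.I .jac (.c 169943369 (.c 8 (.c 16 .nil))) (.r 48 (.l 32 .nil))))) (.node (.node (.I .ass (.c 32 (.c 59109062884628932361 (.c 12993 .nil))) .nil) (.I .com (.c 32 (.c 59109062884628932361 .nil)) (.r 12993 .nil))) (.node (.I .ass (.c 32 (.c 1512102896582526821614077026536761750217 (.c 48 .nil))) .nil) (.I .ass (.c 1512102896582526821614077026536761750217 (.c 32 (.c 48 .nil))) .nil)))) (.node (.node (.node (.I .com (.c 32 (.c 1512102896582526821614077026536761750217 .nil)) (.r 48 .nil)) (.I .ass (.c 32 (.c 1512102896582526807535925483778566442761 (.c 48 .nil))) .nil)) (.node (.I .ass (.c 1512102896582526807535925483778566442761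 (.c 32 (.c 48 .nil))) .nil) (.I .com (.c 32 (.c 1512102896582526807535925483778566442761 .nil)) (.r 48 .nil)))) (.node (.node (.I .ass (.c 32 (.c 1310925001 (.c 35718537 .nil))) .nil) (.I .ass (.c 1310925001 (.c 32 (.c 35718537 .nil))) .nil)) (.node (.I .com (.c 32 (.c 1310925001 .nil)) (.r 35718537 .nil)) (.I .ass (.c 32 (.c 169943369 (.c 35718537 .nil))) .nil)))))))

noncomputable def c2_357 : Tr := (.node (.node (.node (.node (.node (.node (.I .ass (.c 169943369 (.c 32 (.c 35718537 .nil))) .nil) (.I .com (.c 32 (.c 169943369 .nil)) (.r 35718537 .nil))) (.node (.I .com (.c 9024976834607113 (.c 4673 .nil)) (.l 32 .nil)) (.I .ass (.c 32 (.c 9024976834607113 (.c 4673 .nil))) .nil))) (.node (.node (.I .com (.c 32 (.c 9024976834607113 .nil)) (.r 4673 .nil)) (.I .ass (.c 32 (.c 9024908047478473 (.c 18753 .nil))) .nil)) (.node (.I .ass (.c 9024908047478473 (.c 32 (.c 18753 .nil))) .nil)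 (.I .com (.c 32 (.c 9024908047478473 .nil)) (.r 18753 .nil))))) (.node (.node (.node (.I .ass (.c 32 (.c 33587401 (.c 1324066185 .nil))) .nil) (.I .ass (.c 33587401 (.c 32 (.c 1324066185 .nil))) .nil)) (.node (.I .com (.c 32 (.c 33587401 .nil)) (.r 1324066185 .nil)) (.I .adp (.c 1310925193 (.c 24 (.c 2113 .nil))) (.l 32 .nil)))) (.node (.node (.I .jac (.c 1310925193 (.c 8 (.c 16 .nil))) (.r 24 (.l 32 .nil))) (.I .com (.c 1310925193 (.c 24 .nil)) (.b 2113 (.l 32 .nil)))) (.node (.I .ass (.c 32 (.c 1512103782441961050885067571858279445193 (.c 24 .nil))) .nil) (.I .com (.c 32 (.c 1512103782441961050885067571858279445193 .nil)) (.r 24 .nil)))))) (.node (.node (.node (.node (.I .ass (.c 32 (.c 1512103782441961036806911905286300602121 (.c 24 .nil))) .nil) (.I .com (.c 32 (.c 1512103782441961036806911905286300602121 .nil)) (.r 24 .nil))) (.node (.I .ass (.c 32 (.c 1310925193 (.c 35718345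 .nil))) .nil) (.I .com (.c 32 (.c 1310925193 .nil)) (.r 35718345 .nil)))) (.node (.node (.I .ass (.c 32 (.c 231045467270826697 (.c 18753 .nil))) .nil) (.I .ass (.c 231045467270826697 (.c 32 (.c 18753 .nil))) .nil)) (.node (.I .com (.c 32 (.c 231045467270826697 .nil)) (.r 18753 .nil)) (.I .com (.c 3561367726845001 (.c 18561 .nil)) (.b 32 .nil))))) (.node (.node (.node (.I .tdb (.c 0 (.c 8 (.c 24 (.c 40 .nil)))) (.b 18561 (.b 32 .nil))) (.I .com (.c 15038454533712969 (.c 12929 .nil)) (.b 32 .nil))) (.node (.I .tdb (.c 0 (.c 8 (.c 40 (.c 48 .nil)))) (.l 4737 (.b 32 .nil))) (.I .com (.c 15456118887243913 (.c 4737 .nil)) (.b 32 .nil)))) (.node (.node (.I .adp (.c 15456118887243913 (.c 4737 (.c 32 .nil))) .nil) (.I .adp (.c 15038454533712969 (.c 12929 (.c 32 .nil))) .nil)) (.node (.I .adp (.c 2105737 (.c 21099139 (.c 32 .nil))) .nil) (.I .adp (.c 3561367726845001 (.c 18561 (.c 32 .nil)))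 .nil)))))) (.node (.node (.node (.node (.node (.I .adp (.c 2105673 (.c 43356803 (.c 32 .nil))) .nil) (.I .adp (.c 2105545 (.c 43954819 (.c 32 .nil))) .nil)) (.node (.I .tdb (.c 0 (.c 16 (.c 40 (.c 24 .nil)))) (.l 18497 (.b 32 .nil))) (.I .com (.c 3561346121425097 (.c 18497 .nil)) (.b 32 .nil)))) (.node (.node (.I .tdb (.c 0 (.c 16 (.c 40 (.c 24 .nil)))) (.b 18497 (.b 32 .nil))) (.I .tdb (.c 0 (.c 16 (.c 48 (.c 24 .nil)))) (.l 12865 (.b 32 .nil)))) (.node (.I .com (.c 15038410136445129 (.c 12865 .nil)) (.b 32 .nil)) (.I .tdb (.c 0 (.c 16 (.c 48 (.c 24 .nil)))) (.b 12865 (.b 32 .nil)))))) (.node (.node (.node (.I .tdb (.c 0 (.c 16 (.c 40 (.c 48 .nil)))) (.l 4673 (.b 32 .nil))) (.I .com (.c 15456118887243977 (.c 4673 .nil)) (.b 32 .nil))) (.node (.I .adp (.c 15456118887243977 (.c 4673 (.c 32 .nil))) .nil) (.I .adp (.c 15038410136445129 (.c 12865 (.c 32 .nil))) .nil))) (.node (.node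 (.I .adp (.c 3561346121425097 (.c 18497 (.c 32 .nil))) .nil) (.I .adp (.c 33587529 (.c 43356739 (.c 32 .nil))) .nil)) (.node (.I .com (.c 18689 (.c 40 .nil)) (.l 9024908047478473 .nil)) (.I .adp (.c 33587401 (.c 43954755 (.c 32 .nil))) .nil))))) (.node (.node (.node (.node (.I .tdb (.c 0 (.c 24 (.c 40 (.c 48 .nil)))) (.b 2113 (.b 32 .nil))) (.I .adp (.c 43954691 (.c 35718345 (.c 32 .nil))) .nil)) (.node (.I .com (.c 18689 (.c 40 .nil)) (.l 231045467270826697 .nil)) (.I .tdb (.c 0 (.c 8 (.c 24 (.c 48 .nil)))) (.b 12929 (.l 32 .nil))))) (.node (.node (.I .tdb (.c 8 (.c 40 (.c 24 (.c 48 .nil)))) (.b 2049 (.l 32 .nil))) (.I .tdb (.c 0 (.c 16 (.c 48 (.c 12865 .nil)))) (.b 24 (.l 32 .nil)))) (.node (.I .tdb (.c 8 (.c 40 (.c 0 (.c 48 .nil)))) (.b 16 (.b 24 (.l 32 .nil)))) (.I .tdb (.c 8 (.c 40 (.c 16 (.c 48 .nil)))) (.b 0 (.b 24 (.l 32 .nil))))))) (.node (.node (.node (.I .tdb (.c 0 (.c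 16 (.c 40 (.c 24 .nil)))) (.b 18497 (.l 32 .nil))) (.I .tdb (.c 0 (.c 16 (.c 48 (.c 24 .nil)))) (.b 12865 (.l 32 .nil)))) (.node (.I .tdb (.c 0 (.c 16 (.c 40 (.c 48 .nil)))) (.b 4673 (.l 32 .nil))) (.I .tdb (.c 0 (.c 40 (.c 8 (.c 48 .nil)))) (.b 16 (.b 24 (.l 32 .nil)))))) (.node (.node (.I .tdb (.c 0 (.c 40 (.c 16 (.c 48 .nil)))) (.b 8 (.b 24 (.l 32 .nil)))) (.I .tdb (.c 0 (.c 40 (.c 24 (.c 48 .nil)))) (.b 2113 (.l 32 .nil)))) (.node (.I .com (.c 810508056951847240291898495278391705359985640078949069641 (.c 32 .nil)) .nil) (.I .com (.c 810705155088097029465566038962797496400789314964891213641 (.c 32 .nil)) .nil)))))))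

noncomputable def c2_358 : Tr := (.node (.node (.node (.node (.node (.node (.I .com (.c 810508056928448878646502722166933246337633270256072475465 (.c 32 .nil)) .nil) (.I .com (.c 810113986408641505441454276159306114232346491916496237577 (.c 32 .nil)) .nil)) (.node (.I .jac (.c 231045467270827017 (.c 8 (.c 40 .nil))) (.l 32 .nil)) (.I .jac (.c 169943433 (.c 12865 (.c 16 .nil))) (.l 32 .nil)))) (.node (.node (.I .jac (.c 231045989336561417 (.c 8 (.c 48 .nil))) (.l 32 .nil)) (.I .jac (.c 169943369 (.c 8 (.c 48 .nil))) (.b 16 (.l 32 .nil)))) (.node (.I .jac (.c 169943369 (.c 2113 (.c 48 .nil))) (.l 32 .nil)) (.I .jac (.c 169943369 (.c 8 (.c 16 .nil))) (.b 48 (.l 32 .nil)))))) (.node (.node (.node (.I .jac (.c 169943177 (.c 8 (.c 48 .nil))) (.b 40 (.l 32 .nil))) (.I .jac (.c 4609 (.c 8 (.c 48 .nil))) (.b 16 (.b 40 (.l 32 .nil))))) (.node (.I .jac (.c 4609 (.c 35718537 (.c 40 .nil)))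 (.l 32 .nil)) (.I .jac (.c 4609 (.c 2113 (.c 48 .nil))) (.b 40 (.l 32 .nil))))) (.node (.node (.I .jac (.c 4609 (.c 8 (.c 16 .nil))) (.b 48 (.b 40 (.l 32 .nil)))) (.I .com (.c 1459010655789632369981280148558395299196715309671123682041100554803180553 (.c 32 .nil)) .nil)) (.node (.I .jac (.c 13748198893136698121 (.c 8 (.c 24 .nil))) (.l 32 .nil)) (.I .jac (.c 13748193523587632137 (.c 8 (.c 24 .nil))) (.l 32 .nil)))))) (.node (.node (.node (.node (.I .com (.c 18291662791002283818202718527714844176861667875952673149244905414740187430344393 (.c 32 .nil)) .nil) (.I .com (.c 6250090978991937044041231628596924245349489429598525485846561767342824885536036553 (.c 32 .nil)) .nil)) (.node (.I .com (.c 18291634214772312870418720943292726180381858255181573427807105998915794135832265 (.c 32 .nil)) .nil) (.I .com (.c 18291662791002283818202718527714844173764879329511536917032287027574431126458185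 (.c 32 .nil)) .nil))) (.node (.node (.I .com (.c 6250090978991937044041231628596924245292245672740735965945531611354685199281409865 (.c 32 .nil)) .nil) (.I .com (.c 810705155105649001215608568667256930368572131601494405961 (.c 32 .nil)) .nil)) (.node (.I .jac (.c 4609 (.c 8 (.c 16 .nil))) (.b 40 (.b 48 (.l 32 .nil)))) (.I .com (.c 1459015051463144568155825199432980697041342257723218526480176662311994057 (.c 32 .nil)) .nil)))) (.node (.node (.node (.I .jac (.c 59109074018392946441 (.c 8 (.c 24 .nil))) (.l 32 .nil)) (.I .com (.c 6250094510787921478576950273967337931330638067320733035768299952627981012699516745 (.c 32 .nil)) .nil)) (.node (.I .com (.c 3396677733572128150556303835499879307004194224181295664632641752905 (.c 32 .nil)) .nil) (.I .adp (.c 2737112201 (.c 40 (.c 4609 .nil))) (.l 32 .nil)))) (.node (.node (.I .com (.c 169943369 (.c 2737112201 .nil)) (.l 32 .nil)) (.I .adp (.c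 12865 (.c 18561 (.c 4609 .nil))) (.l 32 .nil))) (.node (.I .jac (.c 4609 (.c 16 (.c 48 .nil))) (.l 12865 (.l 32 .nil))) (.I .com (.c 231045467270827017 (.c 12865 .nil)) (.l 32 .nil))))))) (.node (.node (.node (.node (.node (.I .jac (.c 4609 (.c 8 (.c 40 .nil))) (.r 18561 (.l 32 .nil))) (.I .ass (.c 32 (.c 231045467270827017 (.c 12865 .nil))) .nil)) (.node (.I .com (.c 32 (.c 231045467270827017 .nil)) (.r 12865 .nil)) (.I .ass (.c 32 (.c 231045989336561353 (.c 18561 .nil))) .nil))) (.node (.node (.I .ass (.c 231045989336561353 (.c 32 (.c 18561 .nil))) .nil) (.I .com (.c 32 (.c 231045989336561353 .nil)) (.r 18561 .nil))) (.node (.I .ass (.c 32 (.c 169943369 (.c 2737112201 .nil))) .nil) (.I .ass (.c 169943369 (.c 32 (.c 2737112201 .nil))) .nil)))) (.node (.node (.node (.I .com (.c 32 (.c 169943369 .nil)) (.r 2737112201 .nil)) (.I .com (.c 2737112201 (.c 32 .nil)) (.l 169943369 .nil)))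 (.node (.I .jac (.c 12801 (.c 8 (.c 24 .nil))) (.r 18561 (.l 32 .nil))) (.I .ass (.c 32 (.c 2718204041 (.c 174695753 .nil))) .nil))) (.node (.node (.I .com (.c 32 (.c 2718204041 .nil)) (.r 174695753 .nil)) (.I .tdb (.c 16 (.c 40 (.c 8 (.c 48 .nil)))) (.b 4609 (.l 32 .nil)))) (.node (.I .adp (.c 18497 (.c 12929 (.c 4609 .nil))) (.l 32 .nil)) (.I .jac (.c 4609 (.c 16 (.c 40 .nil))) (.l 18497 (.l 32 .nil))))))) (.node (.node (.node (.node (.I .jac (.c 169943177 (.c 8 (.c 40 .nil))) (.r 48 (.l 32 .nil))) (.I .ass (.c 32 (.c 231046163358603977 (.c 12929 .nil))) .nil)) (.node (.I .com (.c 32 (.c 231046163358603977 .nil)) (.r 12929 .nil)) (.I .ass (.c 32 (.c 231045293249046537 (.c 12929 .nil))) .nil))) (.node (.node (.I .com (.c 32 (.c 231045293249046537 .nil)) (.r 12929 .nil)) (.I .ass (.c 32 (.c 169943433 (.c 1324065929 .nil))) .nil)) (.node (.I .com (.c 32 (.c 169943433 .nil)) (.r 1324065929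 .nil)) (.I .tdb (.c 16 (.c 12801 (.c 8 (.c 48 .nil)))) (.b 24 (.l 32 .nil)))))) (.node (.node (.node (.I .tdb (.c 2049 (.c 40 (.c 8 (.c 48 .nil)))) (.b 24 (.l 32 .nil))) (.I .tdb (.c 0 (.c 16 (.c 48 (.c 8 .nil)))) (.b 40 (.b 24 (.l 32 .nil))))) (.node (.I .tdb (.c 16 (.c 12801 (.c 24 (.c 48 .nil)))) (.b 8 (.l 32 .nil))) (.I .tdb (.c 0 (.c 40 (.c 24 (.c 48 .nil)))) (.b 16 (.b 8 (.l 32 .nil)))))) (.node (.node (.I .tdb (.c 2049 (.c 40 (.c 24 (.c 48 .nil)))) (.b 8 (.l 32 .nil))) (.I .tdb (.c 0 (.c 16 (.c 48 (.c 24 .nil)))) (.b 40 (.b 8 (.l 32 .nil))))) (.node (.I .tdb (.c 8 (.c 24 (.c 48 (.c 1310924937 .nil)))) (.l 32 .nil)) (.I .tdb (.c 8 (.c 24 (.c 48 (.c 33587529 .nil)))) (.l 32 .nil))))))))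

noncomputable def c2_359 : Tr := (.node (.node (.node (.node (.node (.node (.I .jac (.c 1310924937 (.c 8 (.c 24 .nil))) (.r 48 (.l 32 .nil))) (.I .ass (.c 32 (.c 59109062884628932425 (.c 12929 .nil))) .nil)) (.node (.I .com (.c 32 (.c 59109062884628932425 .nil)) (.r 12929 .nil)) (.I .ass (.c 32 (.c 1512102601296135255437272766182275864265 (.c 48 .nil))) .nil))) (.node (.node (.I .ass (.c 1512102601296135255437272766182275864265 (.c 32 (.c 48 .nil))) .nil) (.I .com (.c 32 (.c 1512102601296135255437272766182275864265 .nil)) (.r 48 .nil))) (.node (.I .ass (.c 32 (.c 1512102601296135227280972429874805772105 (.c 48 .nil))) .nil) (.I .ass (.c 1512102601296135227280972429874805772105 (.c 32 (.c 48 .nil))) .nil)))) (.node (.node (.node (.I .com (.c 32 (.c 1512102601296135227280972429874805772105 .nil)) (.r 48 .nil)) (.I .ass (.c 32 (.c 1310924937 (.c 174695817 .nil))) .nil)) (.node (.I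 .ass (.c 1310924937 (.c 32 (.c 174695817 .nil))) .nil) (.I .com (.c 32 (.c 1310924937 .nil)) (.r 174695817 .nil)))) (.node (.node (.I .com (.c 231045989336561673 (.c 2113 .nil)) (.l 32 .nil)) (.I .ass (.c 32 (.c 231045989336561673 (.c 2113 .nil))) .nil)) (.node (.I .com (.c 32 (.c 231045989336561673 .nil)) (.r 2113 .nil)) (.I .ass (.c 32 (.c 169943177 (.c 1324066185 .nil))) .nil))))) (.node (.node (.node (.node (.I .ass (.c 169943177 (.c 32 (.c 1324066185 .nil))) .nil) (.I .com (.c 32 (.c 169943177 .nil)) (.r 1324066185 .nil))) (.node (.I .jac (.c 1310925193 (.c 8 (.c 24 .nil))) (.r 16 (.l 32 .nil))) (.I .ass (.c 32 (.c 1512103782441961064963223238430258353865 (.c 16 .nil))) .nil))) (.node (.node (.I .com (.c 32 (.c 1512103782441961064963223238430258353865 .nil)) (.r 16 .nil)) (.I .ass (.c 32 (.c 1512103782441961036806911905286300602185 (.c 16 .nil))) .nil)) (.node (.I .com (.c 32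 (.c 1512103782441961036806911905286300602185 .nil)) (.r 16 .nil)) (.I .adp (.c 3491710045129801 (.c 18625 (.c 32 .nil))) .nil)))) (.node (.node (.node (.I .adp (.c 2105481 (.c 43954883 (.c 32 .nil))) .nil) (.I .tdb (.c 0 (.c 24 (.c 40 (.c 16 .nil)))) (.l 18497 (.b 32 .nil)))) (.node (.I .com (.c 3491688652046601 (.c 18497 .nil)) (.b 32 .nil)) (.I .tdb (.c 0 (.c 24 (.c 40 (.c 16 .nil)))) (.b 18497 (.b 32 .nil))))) (.node (.node (.I .tdb (.c 0 (.c 24 (.c 48 (.c 16 .nil)))) (.l 12865 (.b 32 .nil))) (.I .com (.c 14832759703961865 (.c 12865 .nil)) (.b 32 .nil))) (.node (.I .tdb (.c 0 (.c 24 (.c 40 (.c 48 .nil)))) (.l 2113 (.b 32 .nil))) (.I .com (.c 15456118887244041 (.c 2113 .nil)) (.b 32 .nil))))))) (.node (.node (.node (.node (.node (.I .adp (.c 14832759703961865 (.c 12865 (.c 32 .nil))) .nil) (.I .adp (.c 169943369 (.c 43059267 (.c 32 .nil))) .nil)) (.node (.I .adp (.c 18433 (.c 3491710045129993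 (.c 32 .nil))) .nil) (.I .adp (.c 2049 (.c 15456163896880393 (.c 32 .nil))) .nil))) (.node (.node (.I .jac (.c 14832803796618313 (.c 24 (.c 40 .nil))) (.l 32 .nil)) (.I .jac (.c 3491710045129801 (.c 24 (.c 48 .nil))) (.l 32 .nil))) (.node (.I .tdb (.c 0 (.c 8 (.c 16 (.c 40 .nil)))) (.b 18625 (.l 32 .nil))) (.I .tdb (.c 0 (.c 8 (.c 16 (.c 48 .nil)))) (.b 12993 (.l 32 .nil)))))) (.node (.node (.node (.I .tdb (.c 8 (.c 40 (.c 16 (.c 48 .nil)))) (.b 4609 (.l 32 .nil))) (.I .tdb (.c 0 (.c 24 (.c 48 (.c 12865 .nil)))) (.b 16 (.l 32 .nil)))) (.node (.I .tdb (.c 8 (.c 40 (.c 24 (.c 48 .nil)))) (.b 0 (.b 16 (.l 32 .nil)))) (.I .tdb (.c 0 (.c 24 (.c 40 (.c 16 .nil)))) (.b 18497 (.l 32 .nil))))) (.node (.node (.I .tdb (.c 0 (.c 40 (.c 24 (.c 48 .nil)))) (.b 8 (.b 16 (.l 32 .nil)))) (.I .jac (.c 12801 (.c 8 (.c 48 .nil))) (.b 4737 (.b 32 .nil)))) (.node (.I .com (.c 3396729512033763431099245905597117501648044234927123676264415715145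 (.c 32 .nil)) .nil) (.I .com (.c 3396677733571646404444524329248206141615278632961794744256500138825 (.c 32 .nil)) .nil))))) (.node (.node (.node (.node (.I .com (.c 1459032634273064966918360494425614714511613424599497988564127560799182601 (.c 32 .nil)) .nil) (.I .jac (.c 13748198893136698057 (.c 16 (.c 24 .nil))) (.l 32 .nil))) (.node (.I .jac (.c 12801 (.c 8 (.c 48 .nil))) (.b 4737 (.l 32 .nil))) (.I .com (.c 6250089801726996933345600848581934553886977551186099025869577461965877542658601801 (.c 32 .nil)) .nil))) (.node (.node (.I .com (.c 18291627070720923377478216906293781419132494937909007101735190318189681765888841 (.c 32 .nil)) .nil) (.I .jac (.c 18433 (.c 8 (.c 40 .nil))) (.b 4737 (.l 32 .nil)))) (.node (.I .com (.c 6250094510787921451507938936320109348972482481312047678654324943724469600120805129 (.c 32 .nil)) .nil) (.I .com (.c 6250094510787921451507938936320109348943860594796340953833000755892745998805791561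 (.c 32 .nil)) .nil)))) (.node (.node (.node (.I .adp (.c 18497 (.c 40 (.c 24 .nil))) (.b 2049 (.l 32 .nil))) (.I .adp (.c 18497 (.c 40 (.c 16 .nil))) (.b 4609 (.l 32 .nil)))) (.node (.I .adp (.c 12801 (.c 18497 (.c 4737 .nil))) (.l 32 .nil)) (.I .jac (.c 18497 (.c 16 (.c 24 .nil))) (.l 12801 (.l 32 .nil))))) (.node (.node (.I .jac (.c 12801 (.c 16 (.c 24 .nil))) (.r 18497 (.l 32 .nil))) (.I .adp (.c 18497 (.c 40 (.c 0 .nil))) (.b 4737 (.l 32 .nil)))) (.node (.I .com (.c 12801 (.c 18497 .nil)) (.b 4737 (.l 32 .nil))) (.I .ass (.c 32 (.c 12801 (.c 59934268409707441929 .nil))) .nil)))))))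

noncomputable def c2_360 : Tr := (.node (.node (.node (.node (.node (.node (.I .ass (.c 12801 (.c 32 (.c 59934268409707441929 .nil))) .nil) (.I .com (.c 32 (.c 12801 .nil)) (.r 59934268409707441929 .nil))) (.node (.I .com (.c 59934268409707441929 (.c 32 .nil)) (.l 12801 .nil)) (.I .ass (.c 32 (.c 12801 (.c 59934265606904515401 .nil))) .nil))) (.node (.node (.I .ass (.c 12801 (.c 32 (.c 59934265606904515401 .nil))) .nil) (.I .com (.c 32 (.c 12801 .nil)) (.r 59934265606904515401 .nil))) (.node (.I .com (.c 59934265606904515401 (.c 32 .nil)) (.l 12801 .nil)) (.I .tdb (.c 8 (.c 12801 (.c 16 (.c 48 .nil)))) (.b 24 (.l 32 .nil)))))) (.node (.node (.node (.I .tdb (.c 8 (.c 12801 (.c 24 (.c 48 .nil)))) (.b 16 (.l 32 .nil))) (.I .tdb (.c 16 (.c 24 (.c 48 (.c 1310924873 .nil)))) (.l 32 .nil))) (.node (.I .jac (.c 1310924873 (.c 16 (.c 24 .nil))) (.r 48 (.l 32 .nil))) (.I .ass (.c 32 (.c 1512102306009786923259633531360632805129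 (.c 48 .nil))) .nil))) (.node (.node (.I .ass (.c 1512102306009786923259633531360632805129 (.c 32 (.c 48 .nil))) .nil) (.I .com (.c 32 (.c 1512102306009786923259633531360632805129 .nil)) (.r 48 .nil))) (.node (.I .ass (.c 32 (.c 1512102306009786909181484737811290911561 (.c 48 .nil))) .nil) (.I .ass (.c 1512102306009786909181484737811290911561 (.c 32 (.c 48 .nil))) .nil))))) (.node (.node (.node (.node (.I .com (.c 32 (.c 1512102306009786909181484737811290911561 .nil)) (.r 48 .nil)) (.I .ass (.c 32 (.c 1310924873 (.c 179513737 .nil))) .nil)) (.node (.I .ass (.c 1310924873 (.c 32 (.c 179513737 .nil))) .nil) (.I .com (.c 32 (.c 1310924873 .nil)) (.r 179513737 .nil)))) (.node (.node (.I .com (.c 651591722123579838450590277895113 (.c 8 .nil)) (.l 32 .nil)) (.I .jac (.c 33587593 (.c 24 (.c 40 .nil))) (.l 8 (.l 32 .nil)))) (.node (.I .com (.c 651606621363126269490052522057545 (.c 8 .nil))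 (.l 32 .nil)) (.I .com (.c 651591722123570596944749659643913 (.c 8 .nil)) (.l 32 .nil))))) (.node (.node (.node (.I .ass (.c 32 (.c 651601654921560200620872561558345 (.c 8 .nil))) .nil) (.I .com (.c 32 (.c 651601654921560200620872561558345 .nil)) (.r 8 .nil))) (.node (.I .ass (.c 32 (.c 651591722123579838450590277895113 (.c 8 .nil))) .nil) (.I .com (.c 32 (.c 651591722123579838450590277895113 .nil)) (.r 8 .nil)))) (.node (.node (.I .ass (.c 32 (.c 651591722123570596944749659643913 (.c 8 .nil))) .nil) (.I .com (.c 32 (.c 651591722123570596944749659643913 .nil)) (.r 8 .nil))) (.node (.I .ass (.c 32 (.c 33587273 (.c 2775125321 .nil))) .nil) (.I .ass (.c 33587273 (.c 32 (.c 2775125321 .nil))) .nil)))))) (.node (.node (.node (.node (.node (.I .com (.c 32 (.c 33587273 .nil)) (.r 2775125321 .nil)) (.I .adp (.c 8 (.c 2756086089 (.c 4609 .nil))) (.l 32 .nil))) (.node (.I .jac (.c 169943369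 (.c 16 (.c 48 .nil))) (.l 8 (.l 32 .nil))) (.I .jac (.c 4609 (.c 18561 (.c 40 .nil))) (.l 8 (.l 32 .nil))))) (.node (.node (.I .jac (.c 4609 (.c 16 (.c 48 .nil))) (.b 40 (.l 8 (.l 32 .nil)))) (.I .com (.c 427057993508084562470663629860471561 (.c 8 .nil)) (.l 32 .nil))) (.node (.I .jac (.c 169943433 (.c 16 (.c 40 .nil))) (.l 8 (.l 32 .nil))) (.I .com (.c 427058636821846666152103631404146441 (.c 8 .nil)) (.l 32 .nil))))) (.node (.node (.node (.I .com (.c 427056063571158149899930723770114057 (.c 8 .nil)) (.l 32 .nil)) (.I .ass (.c 32 (.c 427058636821846666152103631404146441 (.c 8 .nil))) .nil)) (.node (.I .com (.c 32 (.c 427058636821846666152103631404146441 .nil)) (.r 8 .nil)) (.I .ass (.c 32 (.c 427056063571158149899930723770114057 (.c 8 .nil))) .nil))) (.node (.node (.I .com (.c 32 (.c 427056063571158149899930723770114057 .nil)) (.r 8 .nil)) (.I .ass (.c 32 (.c 1512103782441961064963223238430258353929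 (.c 8 .nil))) .nil)) (.node (.I .com (.c 32 (.c 1512103782441961064963223238430258353929 .nil)) (.r 8 .nil)) (.I .tdb (.c 0 (.c 16 (.c 48 (.c 8 .nil)))) (.b 12993 (.b 32 .nil))))))) (.node (.node (.node (.node (.I .adp (.c 3423058053193929 (.c 18625 (.c 32 .nil))) .nil) (.I .adp (.c 33587273 (.c 43954883 (.c 32 .nil))) .nil)) (.node (.I .adp (.c 3423058053193993 (.c 18561 (.c 32 .nil))) .nil) (.I .adp (.c 169943113 (.c 43954819 (.c 32 .nil))) .nil))) (.node (.node (.I .tdb (.c 0 (.c 40 (.c 8 (.c 48 .nil)))) (.b 4737 (.b 32 .nil))) (.I .jac (.c 3423058053193929 (.c 24 (.c 48 .nil))) (.l 32 .nil))) (.node (.I .tdb (.c 0 (.c 16 (.c 48 (.c 12993 .nil)))) (.b 8 (.l 32 .nil))) (.I .tdb (.c 24 (.c 40 (.c 0 (.c 48 .nil)))) (.b 16 (.b 8 (.l 32 .nil))))))) (.node (.node (.node (.I .tdb (.c 24 (.c 40 (.c 16 (.c 48 .nil)))) (.b 0 (.b 8 (.l 32 .nil)))) (.I .tdb (.c 0 (.c 24 (.c 48 (.c 12929 .nil))))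 (.b 8 (.l 32 .nil)))) (.node (.I .tdb (.c 16 (.c 40 (.c 24 (.c 48 .nil)))) (.b 0 (.b 8 (.l 32 .nil)))) (.I .tdb (.c 0 (.c 24 (.c 40 (.c 8 .nil)))) (.b 18561 (.l 32 .nil))))) (.node (.node (.I .tdb (.c 0 (.c 24 (.c 48 (.c 8 .nil)))) (.b 12929 (.l 32 .nil))) (.I .adp (.c 0 (.c 2737112393 (.c 4737 .nil))) (.l 32 .nil))) (.node (.I .jac (.c 2737112393 (.c 16 (.c 24 .nil))) (.l 0 (.l 32 .nil))) (.I .jac (.c 0 (.c 16 (.c 24 .nil))) (.r 2737112393 (.l 32 .nil)))))))))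

noncomputable def c2_361 : Tr := (.node (.node (.node (.node (.node (.node (.I .ass (.c 32 (.c 0 (.c 28736937613941456202499049685194099889929 .nil))) .nil) (.I .ass (.c 0 (.c 32 (.c 28736937613941456202499049685194099889929 .nil))) .nil)) (.node (.I .com (.c 32 (.c 0 .nil)) (.r 28736937613941456202499049685194099889929 .nil)) (.I .ass (.c 32 (.c 0 (.c 28736937613941456141126353093513084334921 .nil))) .nil))) (.node (.node (.I .ass (.c 0 (.c 32 (.c 28736937613941456141126353093513084334921 .nil))) .nil) (.I .com (.c 32 (.c 0 .nil)) (.r 28736937613941456141126353093513084334921 .nil))) (.node (.I .jac (.c 1310925193 (.c 4673 (.c 16 .nil))) (.l 32 .nil)) (.I .jac (.c 1310925193 (.c 8 (.c 24 .nil))) (.b 16 (.l 32 .nil)))))) (.node (.node (.node (.I .com (.c 59934274015313491721 (.c 32 .nil)) (.l 4609 .nil)) (.I .com (.c 14025210098083633929 (.c 32 .nil)) (.l 4609 .nil))) (.node (.I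 .com (.c 59934274015313491785 (.c 32 .nil)) (.l 2049 .nil)) (.I .com (.c 14025210098083633993 (.c 32 .nil)) (.l 2049 .nil)))) (.node (.node (.I .adp (.c 4673 (.c 16 (.c 1310925193 .nil))) (.l 32 .nil)) (.I .tdb (.c 16 (.c 4609 (.c 12865 (.c 48 .nil)))) (.l 32 .nil))) (.node (.I .tdb (.c 24 (.c 2049 (.c 12865 (.c 48 .nil)))) (.l 32 .nil)) (.I .adp (.c 18497 (.c 40 (.c 169943177 .nil))) (.l 32 .nil)))))) (.node (.node (.node (.node (.I .adp (.c 18497 (.c 40 (.c 33587401 .nil))) (.l 32 .nil)) (.I .tdb (.c 0 (.c 48 (.c 16 (.c 40 .nil)))) (.l 4673 (.b 32 .nil)))) (.node (.I .com (.c 3491688652046793 (.c 4673 .nil)) (.b 32 .nil)) (.I .tdb (.c 0 (.c 40 (.c 24 (.c 48 .nil)))) (.l 2113 (.b 32 .nil))))) (.node (.node (.I .com (.c 15038410136445321 (.c 2113 .nil)) (.b 32 .nil)) (.I .adp (.c 15038410136445321 (.c 2113 (.c 32 .nil))) .nil)) (.node (.I .adp (.c 3491688652046793 (.c 4673 (.c 32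 .nil))) .nil) (.I .jac (.c 169943113 (.c 16 (.c 48 .nil))) (.b 40 (.l 32 .nil)))))) (.node (.node (.node (.I .jac (.c 169943369 (.c 16 (.c 48 .nil))) (.r 8 (.l 32 .nil))) (.I .ass (.c 32 (.c 513 (.c 60768084239834527561 .nil))) .nil)) (.node (.I .ass (.c 513 (.c 32 (.c 60768084239834527561 .nil))) .nil) (.I .com (.c 32 (.c 513 .nil)) (.r 60768084239834527561 .nil)))) (.node (.node (.I .com (.c 14306386471475043145 (.c 32 .nil)) (.l 513 .nil)) (.I .jac (.c 1310925193 (.c 16 (.c 24 .nil))) (.l 8 (.l 32 .nil)))) (.node (.I .com (.c 1512103782441961064963223238430258353929 (.c 8 .nil)) (.l 32 .nil)) (.I .adp (.c 8 (.c 4737 (.c 1310925193 .nil))) (.l 32 .nil))))))) (.node (.node (.node (.node (.node (.I .ass (.c 32 (.c 13748198893136698057 (.c 4737 .nil))) .nil) (.I .com (.c 32 (.c 13748198893136698057 .nil)) (.r 4737 .nil))) (.node (.I .tdb (.c 8 (.c 4609 (.c 12929 (.c 48 .nil)))) (.l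 32 .nil)) (.I .adp (.c 18561 (.c 40 (.c 169943113 .nil))) (.l 32 .nil)))) (.node (.node (.I .com (.c 231045293249046473 (.c 18561 .nil)) (.l 32 .nil)) (.I .adp (.c 12929 (.c 48 (.c 169943113 .nil))) (.l 32 .nil))) (.node (.I .com (.c 231045293249046537 (.c 12929 .nil)) (.l 32 .nil)) (.I .jac (.c 169943113 (.c 16 (.c 40 .nil))) (.r 48 (.l 32 .nil)))))) (.node (.node (.node (.I .com (.c 59555558875593 (.c 12929 .nil)) (.b 32 .nil)) (.I .adp (.c 59555558875593 (.c 12929 (.c 32 .nil))) .nil)) (.node (.I .adp (.c 14629225721520521 (.c 4737 (.c 32 .nil))) .nil) (.I .jac (.c 8 (.c 16 (.c 48 .nil))) (.l 169943369 (.l 32 .nil))))) (.node (.node (.I .jac (.c 9024839260612617 (.c 24 (.c 40 .nil))) (.l 32 .nil)) (.I .jac (.c 9024839260612553 (.c 24 (.c 48 .nil))) (.l 32 .nil))) (.node (.I .jac (.c 35464401931209 (.c 24 (.c 48 .nil))) (.l 32 .nil)) (.I .jac (.c 33587273 (.c 24 (.c 40 .nil)))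 (.b 48 (.l 32 .nil))))))) (.node (.node (.node (.node (.I .jac (.c 2105481 (.c 24 (.c 40 .nil))) (.b 48 (.l 32 .nil))) (.I .jac (.c 2487083360713 (.c 24 (.c 40 .nil))) (.l 32 .nil))) (.node (.I .jac (.c 33587593 (.c 24 (.c 40 .nil))) (.r 8 (.l 32 .nil))) (.I .jac (.c 18561 (.c 24 (.c 40 .nil))) (.l 513 (.l 32 .nil))))) (.node (.node (.I .jac (.c 33587529 (.c 24 (.c 48 .nil))) (.r 8 (.l 32 .nil))) (.I .adp (.c 8 (.c 16 (.c 24 .nil))) (.b 1310925193 (.l 32 .nil)))) (.node (.I .tdb (.c 8 (.c 2049 (.c 12993 (.c 48 .nil)))) (.l 32 .nil)) (.I .adp (.c 18625 (.c 40 (.c 33587273 .nil))) (.l 32 .nil))))) (.node (.node (.node (.I .com (.c 9024839260612553 (.c 18625 .nil)) (.l 32 .nil)) (.I .adp (.c 12993 (.c 48 (.c 33587273 .nil))) (.l 32 .nil))) (.node (.I .com (.c 9024839260612617 (.c 12993 .nil)) (.l 32 .nil)) (.I .jac (.c 33587273 (.c 24 (.c 40 .nil))) (.r 48 (.l 32 .nil))))) (.node (.node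 (.I .jac (.c 8 (.c 24 (.c 40 .nil))) (.l 33587593 (.l 32 .nil))) (.I .jac (.c 8 (.c 24 (.c 48 .nil))) (.l 33587529 (.l 32 .nil)))) (.node (.I .jac (.c 1310925001 (.c 8 (.c 48 .nil))) (.b 16 (.l 32 .nil))) (.I .jac (.c 1310925001 (.c 2113 (.c 48 .nil))) (.l 32 .nil))))))))

noncomputable def c2_362 : Tr := (.node (.node (.node (.node (.node (.node (.I .jac (.c 1310925001 (.c 8 (.c 16 .nil))) (.b 48 (.l 32 .nil))) (.I .jac (.c 1310924937 (.c 8 (.c 48 .nil))) (.b 24 (.l 32 .nil)))) (.node (.I .jac (.c 12801 (.c 174695817 (.c 16 .nil))) (.l 32 .nil)) (.I .jac (.c 12801 (.c 8 (.c 48 .nil))) (.b 16 (.b 24 (.l 32 .nil)))))) (.node (.node (.I .jac (.c 12801 (.c 35718537 (.c 24 .nil))) (.l 32 .nil)) (.I .jac (.c 12801 (.c 2113 (.c 48 .nil))) (.b 24 (.l 32 .nil)))) (.node (.I .jac (.c 12801 (.c 8 (.c 16 .nil))) (.b 48 (.b 24 (.l 32 .nil)))) (.I .com (.c 18291627070720922355673356662700498568884113625775573273225141993518842279985929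 (.c 32 .nil)) .nil)))) (.node (.node (.node (.I .com (.c 18291627070720922015071736581502747130061921932369122304897278171320112268264265 (.c 32 .nil)) .nil) (.I .com (.c 18291627070720922355673356662700498562690542580359486035553683049065690309653513 (.c 32 .nil)) .nil)) (.node (.I .jac (.c 59109065668069837641 (.c 8 (.c 40 .nil))) (.l 32 .nil)) (.I .com (.c 6250090978991936989903231897491262894534581109702500833427451460749785180061425353 (.c 32 .nil)) .nil))) (.node (.node (.I .com (.c 6250090978991936989903231897491262894420093595986921794121233929909201792682774473 (.c 32 .nil)) .nil) (.I .com (.c 3396729512033956131747053835155610544263080059411058771247959986121 (.c 32 .nil)) .nil)) (.node (.I .com (.c 810705155093947686715548527861899296537208032040546530249 (.c 32 .nil)) .nil) (.I .jac (.c 12801 (.c 2737112265 (.c 16 .nil))) (.l 32 .nil)))))) (.node (.node (.node (.node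 (.I .jac (.c 12801 (.c 18497 (.c 24 .nil))) (.b 16 (.l 32 .nil))) (.I .com (.c 18291634214772311848613561389554137114432794579945185498779786200241674057777865 (.c 32 .nil)) .nil)) (.node (.I .jac (.c 59109068451510808329 (.c 8 (.c 40 .nil))) (.l 32 .nil)) (.I .com (.c 6250092156257071104120887622819292512129551754756718087759443145001035091180064713 (.c 32 .nil)) .nil))) (.node (.node (.I .jac (.c 1310924937 (.c 8 (.c 48 .nil))) (.r 24 (.l 32 .nil))) (.I .adp (.c 4673 (.c 18561 (.c 12801 .nil))) (.l 32 .nil))) (.node (.I .jac (.c 12801 (.c 16 (.c 48 .nil))) (.l 4673 (.l 32 .nil))) (.I .ass (.c 32 (.c 1512102601296135297671723270643481494217 (.c 24 .nil))) .nil)))) (.node (.node (.node (.I .com (.c 32 (.c 1512102601296135297671723270643481494217 .nil)) (.r 24 .nil)) (.I .ass (.c 32 (.c 1512102306009786965494079912008658879241 (.c 24 .nil))) .nil)) (.node (.I .com (.c 32 (.c 1512102306009786965494079912008658879241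 .nil)) (.r 24 .nil)) (.I .ass (.c 32 (.c 1512102306009786909181484737811290911753 (.c 24 .nil))) .nil))) (.node (.node (.I .com (.c 32 (.c 1512102306009786909181484737811290911753 .nil)) (.r 24 .nil)) (.I .adp (.c 33587593 (.c 24 (.c 12865 .nil))) (.l 32 .nil))) (.node (.I .ass (.c 32 (.c 2718204041 (.c 1324065993 .nil))) .nil) (.I .com (.c 32 (.c 2718204041 .nil)) (.r 1324065993 .nil))))))) (.node (.node (.node (.node (.node (.I .com (.c 13748194865974800137 (.c 18497 .nil)) (.l 32 .nil)) (.I .com (.c 13748193523587631945 (.c 18497 .nil)) (.l 32 .nil))) (.node (.I .ass (.c 32 (.c 13748192181200529417 (.c 4737 .nil))) .nil) (.I .com (.c 32 (.c 13748192181200529417 .nil)) (.r 4737 .nil)))) (.node (.node (.I .adp (.c 169943177 (.c 48 (.c 12865 .nil))) (.l 32 .nil)) (.I .adp (.c 33587401 (.c 48 (.c 12865 .nil))) (.l 32 .nil))) (.node (.I .jac (.c 1310925001 (.c 8 (.c 48 .nil))) (.r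 16 (.l 32 .nil))) (.I .ass (.c 32 (.c 1512102896582526877926683197569543635657 (.c 16 .nil))) .nil)))) (.node (.node (.node (.I .com (.c 32 (.c 1512102896582526877926683197569543635657 .nil)) (.r 16 .nil)) (.I .ass (.c 32 (.c 1512102306009786965494079912008658879305 (.c 16 .nil))) .nil)) (.node (.I .com (.c 32 (.c 1512102306009786965494079912008658879305 .nil)) (.r 16 .nil)) (.I .ass (.c 32 (.c 1512102306009786923259633531360632805385 (.c 16 .nil))) .nil))) (.node (.node (.I .com (.c 32 (.c 1512102306009786923259633531360632805385 .nil)) (.r 16 .nil)) (.I .ass (.c 32 (.c 1310924937 (.c 2737112265 .nil))) .nil)) (.node (.I .ass (.c 1310924937 (.c 32 (.c 2737112265 .nil))) .nil) (.I .com (.c 32 (.c 1310924937 .nil)) (.r 2737112265 .nil)))))) (.node (.node (.node (.node (.I .com (.c 2737112265 (.c 32 .nil)) (.l 1310924937 .nil)) (.I .adp (.c 169943433 (.c 16 (.c 12865 .nil))) (.l 32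 .nil))) (.node (.I .com (.c 169943433 (.c 16 .nil)) (.b 12865 (.l 32 .nil))) (.I .tdb (.c 0 (.c 8 (.c 16 (.c 24 .nil)))) (.l 18753 (.b 32 .nil))))) (.node (.node (.I .com (.c 62886542409865 (.c 18753 .nil)) (.b 32 .nil)) (.I .com (.c 62889413446729 (.c 18753 .nil)) (.b 32 .nil))) (.node (.I .tdb (.c 0 (.c 8 (.c 16 (.c 24 .nil)))) (.b 18753 (.b 32 .nil))) (.I .adp (.c 62886542409865 (.c 18753 (.c 32 .nil))) .nil)))) (.node (.node (.node (.I .adp (.c 62889413446729 (.c 18753 (.c 32 .nil))) .nil) (.I .adp (.c 1310925001 (.c 43059267 (.c 32 .nil))) .nil)) (.node (.I .tdb (.c 0 (.c 8 (.c 16 (.c 24 .nil)))) (.b 18753 (.l 32 .nil))) (.I .com (.c 18291641358826142093478020620972318827415861510426971176696968884913148064498441 (.c 32 .nil)) .nil))) (.node (.node (.I .com (.c 18291634214772311848613561389554137106690829261308972990940949637388421631922185 (.c 32 .nil)) .nil) (.I .jac (.c 231046163358603977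 (.c 16 (.c 40 .nil))) (.l 32 .nil))) (.node (.I .jac (.c 59109062884628932425 (.c 16 (.c 40 .nil))) (.l 32 .nil)) (.I .jac (.c 4609 (.c 8 (.c 48 .nil))) (.b 12929 (.l 32 .nil)))))))))

noncomputable def c2_363 : Tr := (.node (.node (.node (.node (.node (.node (.I .jac (.c 0 (.c 18497 (.c 24 .nil))) (.b 12929 (.l 32 .nil))) (.I .jac (.c 0 (.c 8 (.c 48 .nil))) (.b 24 (.b 12929 (.l 32 .nil))))) (.node (.I .com (.c 6250089801726996879207608765537404554630176383143787888342765416259476986847944457 (.c 32 .nil)) .nil) (.I .com (.c 3396677733571646404444524329246204421331359741976099063619697842185 (.c 32 .nil)) .nil))) (.node (.node (.I .jac (.c 59109068451510808265 (.c 16 (.c 40 .nil))) (.l 32 .nil)) (.I .jac (.c 18433 (.c 8 (.c 24 .nil))) (.b 12929 (.l 32 .nil)))) (.node (.I .jac (.c 0 (.c 4673 (.c 48 .nil))) (.b 12929 (.l 32 .nil))) (.I .jac (.c 0 (.c 8 (.c 24 .nil))) (.b 48 (.b 12929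 (.l 32 .nil))))))) (.node (.node (.node (.I .ass (.c 32 (.c 1512102601296135227280972429874805772297 (.c 24 .nil))) .nil) (.I .com (.c 32 (.c 1512102601296135227280972429874805772297 .nil)) (.r 24 .nil))) (.node (.I .ass (.c 32 (.c 4609 (.c 59934265606904515529 .nil))) .nil) (.I .ass (.c 4609 (.c 32 (.c 59934265606904515529 .nil))) .nil))) (.node (.node (.I .com (.c 32 (.c 4609 .nil)) (.r 59934265606904515529 .nil)) (.I .com (.c 651606621363107786267057026226121 (.c 8 .nil)) (.l 32 .nil))) (.node (.I .ass (.c 32 (.c 651601654921532475892036648802313 (.c 8 .nil))) .nil) (.I .com (.c 32 (.c 651601654921532475892036648802313 .nil)) (.r 8 .nil)))))) (.node (.node (.node (.node (.I .adp (.c 8 (.c 2756085961 (.c 12801 .nil))) (.l 32 .nil)) (.I .jac (.c 12801 (.c 18561 (.c 24 .nil))) (.l 8 (.l 32 .nil)))) (.node (.I .jac (.c 12801 (.c 16 (.c 48 .nil))) (.b 24 (.l 8 (.l 32 .nil)))) (.I .com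 (.c 1512102601296135297671723270643481494345 (.c 8 .nil)) (.l 32 .nil)))) (.node (.node (.I .ass (.c 32 (.c 1512102601296135255437272766182275864585 (.c 8 .nil))) .nil) (.I .com (.c 32 (.c 1512102601296135255437272766182275864585 .nil)) (.r 8 .nil))) (.node (.I .tdb (.c 24 (.c 48 (.c 0 (.c 8 .nil)))) (.b 12929 (.l 32 .nil))) (.I .tdb (.c 0 (.c 16 (.c 8 (.c 24 .nil)))) (.b 18753 (.b 32 .nil)))))) (.node (.node (.node (.I .tdb (.c 0 (.c 40 (.c 8 (.c 24 .nil)))) (.b 18561 (.b 32 .nil))) (.I .adp (.c 1310924873 (.c 43356803 (.c 32 .nil))) .nil)) (.node (.I .jac (.c 2737112265 (.c 16 (.c 40 .nil))) (.l 0 (.l 32 .nil))) (.I .ass (.c 32 (.c 0 (.c 28736932238454843545673543882660519829257 .nil))) .nil))) (.node (.node (.I .ass (.c 0 (.c 32 (.c 28736932238454843545673543882660519829257 .nil))) .nil) (.I .com (.c 32 (.c 0 .nil)) (.r 28736932238454843545673543882660519829257 .nil))) (.node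 (.I .ass (.c 32 (.c 0 (.c 28736932238454843361555471328039257928649 .nil))) .nil) (.I .ass (.c 0 (.c 32 (.c 28736932238454843361555471328039257928649 .nil))) .nil)))))) (.node (.node (.node (.node (.node (.I .com (.c 32 (.c 0 .nil)) (.r 28736932238454843361555471328039257928649 .nil)) (.I .jac (.c 2718204105 (.c 12865 (.c 16 .nil))) (.l 32 .nil))) (.node (.I .adp (.c 2049 (.c 40 (.c 2737112265 .nil))) (.l 32 .nil)) (.I .ass (.c 32 (.c 2049 (.c 59934268409707442121 .nil))) .nil))) (.node (.node (.I .ass (.c 2049 (.c 32 (.c 59934268409707442121 .nil))) .nil) (.I .com (.c 32 (.c 2049 .nil)) (.r 59934268409707442121 .nil))) (.node (.I .adp (.c 16 (.c 40 (.c 8 .nil))) (.b 169943433 (.l 32 .nil))) (.I .com (.c 12865 (.c 16 .nil)) (.b 169943433 (.l 32 .nil)))))) (.node (.node (.node (.I .adp (.c 12865 (.c 16 (.c 169943433 .nil))) (.l 32 .nil)) (.I .adp (.c 18497 (.c 24 (.c 1310924937 .nil)))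 (.l 32 .nil))) (.node (.I .adp (.c 18497 (.c 24 (.c 33587529 .nil))) (.l 32 .nil)) (.I .adp (.c 4673 (.c 48 (.c 1310924937 .nil))) (.l 32 .nil)))) (.node (.node (.I .adp (.c 4673 (.c 48 (.c 33587529 .nil))) (.l 32 .nil)) (.I .adp (.c 24 (.c 48 (.c 8 .nil))) (.b 1310924937 (.l 32 .nil)))) (.node (.I .com (.c 18497 (.c 24 .nil)) (.b 1310924937 (.l 32 .nil))) (.I .adp (.c 24 (.c 48 (.c 8 .nil))) (.b 33587529 (.l 32 .nil))))))) (.node (.node (.node (.node (.I .com (.c 18497 (.c 24 .nil)) (.b 33587529 (.l 32 .nil))) (.I .jac (.c 13748192181200529225 (.c 16 (.c 48 .nil))) (.l 32 .nil))) (.node (.I .jac (.c 1310924873 (.c 18561 (.c 24 .nil))) (.l 32 .nil)) (.I .ass (.c 32 (.c 513 (.c 60768078595370348489 .nil))) .nil))) (.node (.node (.I .ass (.c 513 (.c 32 (.c 60768078595370348489 .nil))) .nil) (.I .com (.c 32 (.c 513 .nil)) (.r 60768078595370348489 .nil))) (.node (.I .adp (.c 8 (.c 40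 (.c 16 .nil))) (.b 169943433 (.l 32 .nil))) (.I .adp (.c 8 (.c 12929 (.c 169943433 .nil))) (.l 32 .nil))))) (.node (.node (.node (.I .adp (.c 18561 (.c 24 (.c 1310924873 .nil))) (.l 32 .nil)) (.I .com (.c 13748192181200529225 (.c 18561 .nil)) (.l 32 .nil))) (.node (.I .jac (.c 1310924873 (.c 16 (.c 48 .nil))) (.r 24 (.l 32 .nil))) (.I .adp (.c 4737 (.c 48 (.c 1310924873 .nil))) (.l 32 .nil)))) (.node (.node (.I .com (.c 13748192181200529417 (.c 4737 .nil)) (.l 32 .nil)) (.I .adp (.c 24 (.c 48 (.c 16 .nil))) (.b 1310924873 (.l 32 .nil)))) (.node (.I .com (.c 18561 (.c 24 .nil)) (.b 1310924873 (.l 32 .nil))) (.I .com (.c 3423058053193993 (.c 18561 .nil)) (.b 32 .nil))))))))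

noncomputable def c2_364 : Tr := (.node (.node (.node (.node (.node (.node (.I .adp (.c 0 (.c 40 (.c 16 .nil))) (.b 2737112265 (.l 32 .nil))) (.I .adp (.c 0 (.c 12929 (.c 2737112265 .nil))) (.l 32 .nil))) (.node (.I .jac (.c 0 (.c 18497 (.c 24 .nil))) (.r 12929 (.l 32 .nil))) (.I .jac (.c 0 (.c 8 (.c 48 .nil))) (.b 24 (.r 12929 (.l 32 .nil)))))) (.node (.node (.I .adp (.c 24 (.c 48 (.c 12801 .nil))) (.b 2113 (.l 32 .nil))) (.I .adp (.c 24 (.c 48 (.c 40 .nil))) (.b 33587273 (.l 32 .nil)))) (.node (.I .adp (.c 24 (.c 48 (.c 2049 .nil))) (.b 12865 (.l 32 .nil))) (.I .com (.c 33587593 (.c 24 .nil)) (.b 12865 (.l 32 .nil)))))) (.node (.node (.node (.I .jac (.c 9025011228269257 (.c 24 (.c 40 .nil))) (.l 32 .nil)) (.I .com (.c 6250089801726996852138612724015139686791202613061743000088847428960920487852857289 (.c 32 .nil)) .nil)) (.node (.I .com (.c 1459028238553201487383875647147690651362007115147347473524959831648400393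 (.c 32 .nil)) .nil) (.I .com (.c 18291641358826142093478020620972318821222288046024941373029818103356139914425353 (.c 32 .nil)) .nil))) (.node (.node (.I .jac (.c 18433 (.c 8 (.c 16 .nil))) (.b 12993 (.l 32 .nil))) (.I .jac (.c 0 (.c 2113 (.c 48 .nil))) (.b 12993 (.l 32 .nil)))) (.node (.I .jac (.c 0 (.c 8 (.c 16 .nil))) (.b 48 (.b 12993 (.l 32 .nil)))) (.I .com (.c 6250090978991936935765232166385601895368071167207495409807565740440772089343991625 (.c 32 .nil)) .nil))))) (.node (.node (.node (.node (.I .com (.c 6250090978991936935765232166385601895310827410349705890402378365588328387683096521 (.c 32 .nil)) .nil) (.I .ass (.c 32 (.c 1512102896582526807535925483778566443017 (.c 16 .nil))) .nil)) (.node (.I .com (.c 32 (.c 1512102896582526807535925483778566443017 .nil)) (.r 16 .nil)) (.I .com (.c 427057993508083616106291307304383497 (.c 8 .nil)) (.l 32 .nil)))) (.node (.node (.I .adp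 (.c 8 (.c 18561 (.c 40 .nil))) (.b 4609 (.l 32 .nil))) (.I .adp (.c 8 (.c 18561 (.c 24 .nil))) (.b 12801 (.l 32 .nil)))) (.node (.I .adp (.c 2718204041 (.c 8 (.c 12993 .nil))) (.l 32 .nil)) (.I .jac (.c 8 (.c 24 (.c 40 .nil))) (.l 2718204041 (.l 32 .nil)))))) (.node (.node (.node (.I .jac (.c 2718204041 (.c 24 (.c 40 .nil))) (.r 8 (.l 32 .nil))) (.I .adp (.c 33587593 (.c 8 (.c 12993 .nil))) (.l 32 .nil))) (.node (.I .adp (.c 513 (.c 18561 (.c 12993 .nil))) (.l 32 .nil)) (.I .jac (.c 513 (.c 24 (.c 40 .nil))) (.r 18561 (.l 32 .nil))))) (.node (.node (.I .tdb (.c 16 (.c 48 (.c 0 (.c 8 .nil)))) (.b 12993 (.l 32 .nil))) (.I .adp (.c 8 (.c 18561 (.c 0 .nil))) (.b 12993 (.l 32 .nil)))) (.node (.I .jac (.c 0 (.c 16 (.c 48 .nil))) (.l 8 (.b 12993 (.l 32 .nil)))) (.I .com (.c 2718204041 (.c 8 .nil)) (.b 12993 (.l 32 .nil)))))))) (.node (.node (.node (.node (.node (.I .com (.c 33587593 (.c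 8 .nil)) (.b 12993 (.l 32 .nil))) (.I .ass (.c 32 (.c 27951053153217539014174880853583831179081 (.c 8 .nil))) .nil)) (.node (.I .ass (.c 27951053153217539014174880853583831179081 (.c 32 (.c 8 .nil))) .nil) (.I .com (.c 32 (.c 27951053153217539014174880853583831179081 .nil)) (.r 8 .nil)))) (.node (.node (.I .com (.c 8 (.c 32 .nil)) (.l 27951053153217539014174880853583831179081 .nil)) (.I .ass (.c 32 (.c 27951053153217538893119514365376803559369 (.c 8 .nil))) .nil)) (.node (.I .ass (.c 27951053153217538893119514365376803559369 (.c 32 (.c 8 .nil))) .nil) (.I .com (.c 32 (.c 27951053153217538893119514365376803559369 .nil)) (.r 8 .nil))))) (.node (.node (.node (.I .com (.c 8 (.c 32 .nil)) (.l 27951053153217538893119514365376803559369 .nil)) (.I .com (.c 3491710045129801 (.c 18625 .nil)) (.b 32 .nil))) (.node (.I .tdb (.c 0 (.c 40 (.c 8 (.c 16 .nil)))) (.b 18625 (.b 32 .nil))) (.I .tdb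 (.c 0 (.c 48 (.c 8 (.c 16 .nil)))) (.b 12993 (.b 32 .nil))))) (.node (.node (.I .tdb (.c 0 (.c 40 (.c 8 (.c 16 .nil)))) (.b 18625 (.l 32 .nil))) (.I .tdb (.c 0 (.c 48 (.c 8 (.c 16 .nil)))) (.b 12993 (.l 32 .nil)))) (.node (.I .jac (.c 2737112201 (.c 24 (.c 40 .nil))) (.l 0 (.l 32 .nil))) (.I .ass (.c 32 (.c 0 (.c 28736929550711819961251946715921617198921 .nil))) .nil))))) (.node (.node (.node (.node (.I .ass (.c 0 (.c 32 (.c 28736929550711819961251946715921617198921 .nil))) .nil) (.I .com (.c 32 (.c 0 .nil)) (.r 28736929550711819961251946715921617198921 .nil))) (.node (.I .ass (.c 32 (.c 0 (.c 28736929550711819838506570752981169526729 .nil))) .nil) (.I .ass (.c 0 (.c 32 (.c 28736929550711819838506570752981169526729 .nil))) .nil))) (.node (.node (.I .com (.c 32 (.c 0 .nil)) (.r 28736929550711819838506570752981169526729 .nil)) (.I .jac (.c 2718204041 (.c 12865 (.c 24 .nil))) (.l 32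 .nil))) (.node (.I .jac (.c 2718204041 (.c 8 (.c 40 .nil))) (.b 24 (.l 32 .nil))) (.I .adp (.c 4609 (.c 40 (.c 2737112201 .nil))) (.l 32 .nil))))) (.node (.node (.node (.I .adp (.c 24 (.c 40 (.c 8 .nil))) (.b 33587593 (.l 32 .nil))) (.I .com (.c 12865 (.c 24 .nil)) (.b 33587593 (.l 32 .nil)))) (.node (.I .adp (.c 12865 (.c 24 (.c 33587593 .nil))) (.l 32 .nil)) (.I .adp (.c 18497 (.c 16 (.c 1310925001 .nil))) (.l 32 .nil)))) (.node (.node (.I .adp (.c 18497 (.c 16 (.c 169943369 .nil))) (.l 32 .nil)) (.I .adp (.c 2113 (.c 48 (.c 169943369 .nil))) (.l 32 .nil))) (.node (.I .adp (.c 16 (.c 48 (.c 8 .nil))) (.b 169943369 (.l 32 .nil))) (.I .com (.c 18497 (.c 16 .nil)) (.b 169943369 (.l 32 .nil)))))))))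

noncomputable def c2_365 : Tr := (.node (.node (.node (.node (.node (.node (.I .adp (.c 8 (.c 40 (.c 24 .nil))) (.b 33587593 (.l 32 .nil))) (.I .adp (.c 8 (.c 12993 (.c 33587593 .nil))) (.l 32 .nil))) (.node (.I .jac (.c 8 (.c 24 (.c 48 .nil))) (.l 1310924937 (.l 32 .nil))) (.I .adp (.c 0 (.c 40 (.c 24 .nil))) (.b 2737112201 (.l 32 .nil))))) (.node (.node (.I .adp (.c 0 (.c 12993 (.c 2737112201 .nil))) (.l 32 .nil)) (.I .jac (.c 0 (.c 18497 (.c 16 .nil))) (.r 12993 (.l 32 .nil)))) (.node (.I .jac (.c 0 (.c 8 (.c 48 .nil))) (.b 16 (.r 12993 (.l 32 .nil)))) (.I .adp (.c 16 (.c 48 (.c 40 .nil))) (.b 169943113 (.l 32 .nil)))))) (.node (.node (.node (.I .adp (.c 16 (.c 48 (.c 4609 .nil))) (.b 12865 (.l 32 .nil))) (.I .jac (.c 513 (.c 16 (.c 48 .nil))) (.b 12993 (.b 32 .nil)))) (.node (.I .com (.c 3423058053193929 (.c 18625 .nil)) (.b 32 .nil)) (.I .adp (.c 8 (.c 18561 (.c 1310925001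 .nil))) (.l 32 .nil)))) (.node (.node (.I .tdb (.c 0 (.c 24 (.c 40 (.c 8 .nil)))) (.l 18561 (.b 32 .nil))) (.I .tdb (.c 0 (.c 48 (.c 8 (.c 24 .nil)))) (.l 12929 (.b 32 .nil)))) (.node (.I .com (.c 14629225721520521 (.c 4737 .nil)) (.b 32 .nil)) (.I .tdb (.c 0 (.c 16 (.c 40 (.c 8 .nil)))) (.l 18625 (.b 32 .nil))))))) (.node (.node (.node (.node (.I .jac (.c 16 (.c 24 (.c 48 .nil))) (.l 1310924873 (.l 32 .nil))) (.I .adp (.c 0 (.c 40 (.c 18497 .nil))) (.b 4737 (.l 32 .nil)))) (.node (.I .adp (.c 8 (.c 18753 (.c 169943177 .nil))) (.l 32 .nil)) (.I .jac (.c 169943177 (.c 40 (.c 48 .nil))) (.l 8 (.l 32 .nil))))) (.node (.node (.I .adp (.c 8 (.c 18753 (.c 33587401 .nil))) (.l 32 .nil)) (.I .jac (.c 33587401 (.c 40 (.c 48 .nil))) (.l 8 (.l 32 .nil)))) (.node (.I .jac (.c 18433 (.c 4673 (.c 40 .nil))) (.b 16 (.l 32 .nil))) (.I .jac (.c 18433 (.c 8 (.c 24 .nil))) (.b 40 (.b 16 (.l 32 .nil)))))))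 (.node (.node (.node (.I .jac (.c 18433 (.c 8 (.c 40 .nil))) (.b 16 (.b 24 (.l 32 .nil)))) (.I .jac (.c 18433 (.c 8 (.c 24 .nil))) (.b 16 (.b 40 (.l 32 .nil))))) (.node (.I .jac (.c 18433 (.c 8 (.c 40 .nil))) (.b 24 (.b 16 (.l 32 .nil)))) (.I .jac (.c 18433 (.c 8 (.c 16 .nil))) (.b 24 (.b 40 (.l 32 .nil)))))) (.node (.node (.I .adp (.c 33587529 (.c 24 (.c 18497 .nil))) (.l 32 .nil)) (.I .adp (.c 169943177 (.c 40 (.c 18497 .nil))) (.l 32 .nil))) (.node (.I .adp (.c 33587401 (.c 40 (.c 18497 .nil))) (.l 32 .nil)) (.I .com (.c 169943369 (.c 16 .nil)) (.b 18497 (.l 32 .nil)))))))) (.node (.node (.node (.node (.node (.I .adp (.c 169943369 (.c 16 (.c 18497 .nil))) (.l 32 .nil)) (.I .adp (.c 20891651 (.c 2737112265 (.c 32 .nil))) .nil)) (.node (.I .adp (.c 2718204233 (.c 2803779 (.c 32 .nil))) .nil) (.I .adp (.c 2718204041 (.c 21099075 (.c 32 .nil))) .nil))) (.node (.node (.I .jac (.c 231045989336561353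 (.c 16 (.c 48 .nil))) (.l 32 .nil)) (.I .jac (.c 12801 (.c 8 (.c 24 .nil))) (.b 18561 (.l 32 .nil)))) (.node (.I .adp (.c 169943113 (.c 40 (.c 18561 .nil))) (.l 32 .nil)) (.I .com (.c 169943369 (.c 8 .nil)) (.b 18561 (.l 32 .nil)))))) (.node (.node (.node (.I .adp (.c 169943369 (.c 8 (.c 18561 .nil))) (.l 32 .nil)) (.I .adp (.c 2718203977 (.c 21099139 (.c 32 .nil))) .nil)) (.node (.I .adp (.c 8 (.c 16 (.c 48 .nil))) (.b 1310925001 (.l 32 .nil))) (.I .adp (.c 24 (.c 40 (.c 48 .nil))) (.b 33587273 (.l 32 .nil))))) (.node (.node (.I .adp (.c 24 (.c 40 (.c 2049 .nil))) (.b 18497 (.l 32 .nil))) (.I .com (.c 33587529 (.c 24 .nil)) (.b 18497 (.l 32 .nil)))) (.node (.I .jac (.c 2049 (.c 8 (.c 40 .nil))) (.b 18625 (.l 32 .nil))) (.I .adp (.c 1310924873 (.c 16 (.c 18625 .nil))) (.l 32 .nil)))))) (.node (.node (.node (.node (.I .jac (.c 1310924873 (.c 24 (.c 48 .nil))) (.r 16 (.l 32 .nil)))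 (.I .adp (.c 33587273 (.c 40 (.c 18625 .nil))) (.l 32 .nil))) (.node (.I .com (.c 1310924937 (.c 8 .nil)) (.b 18625 (.l 32 .nil))) (.I .com (.c 33587529 (.c 8 .nil)) (.b 18625 (.l 32 .nil))))) (.node (.node (.I .adp (.c 1310924937 (.c 8 (.c 18625 .nil))) (.l 32 .nil)) (.I .jac (.c 1310924937 (.c 24 (.c 48 .nil))) (.r 8 (.l 32 .nil)))) (.node (.I .adp (.c 33587529 (.c 8 (.c 18625 .nil))) (.l 32 .nil)) (.I .adp (.c 16 (.c 40 (.c 48 .nil))) (.b 169943113 (.l 32 .nil)))))) (.node (.node (.node (.I .adp (.c 16 (.c 40 (.c 4609 .nil))) (.b 18497 (.l 32 .nil))) (.I .adp (.c 8 (.c 40 (.c 48 .nil))) (.b 169943177 (.l 32 .nil)))) (.node (.I .adp (.c 8 (.c 40 (.c 48 .nil))) (.b 33587401 (.l 32 .nil))) (.I .adp (.c 8 (.c 40 (.c 4609 .nil))) (.b 18561 (.l 32 .nil))))) (.node (.node (.I .adp (.c 8 (.c 40 (.c 2049 .nil))) (.b 18625 (.l 32 .nil))) (.I .adp (.c 8 (.c 16 (.c 12801 .nil))) (.b 18625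 (.l 32 .nil)))) (.node (.I .jac (.c 231045293249046281 (.c 40 (.c 48 .nil))) (.b 32 .nil)) (.I .jac (.c 35466557976329 (.c 40 (.c 48 .nil))) (.b 32 .nil))))))))

noncomputable def c2_366 : Tr := (.node (.node (.node (.node (.node (.node (.I .jac (.c 2049 (.c 8 (.c 24 .nil))) (.b 18753 (.b 32 .nil))) (.I .jac (.c 35464401931081 (.c 40 (.c 48 .nil))) (.b 32 .nil))) (.node (.I .jac (.c 4609 (.c 8 (.c 16 .nil))) (.b 18753 (.b 32 .nil))) (.I .jac (.c 0 (.c 2113 (.c 24 .nil))) (.b 18753 (.b 32 .nil))))) (.node (.node (.I .jac (.c 0 (.c 8 (.c 16 .nil))) (.b 24 (.b 18753 (.b 32 .nil)))) (.I .jac (.c 62889413446729 (.c 40 (.c 48 .nil))) (.b 32 .nil))) (.node (.I .jac (.c 2487083360521 (.c 40 (.c 48 .nil))) (.b 32 .nil)) (.I .jac (.c 513 (.c 16 (.c 24 .nil))) (.b 18753 (.b 32 .nil)))))) (.node (.node (.node (.I .jac (.c 513 (.c 16 (.c 24 .nil))) (.b 18753 (.l 32 .nil))) (.I .jac (.c 35718537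 (.c 24 (.c 40 .nil))) (.l 32 (.l 0 .nil)))) (.node (.I .jac (.c 35718473 (.c 24 (.c 48 .nil))) (.l 32 (.l 0 .nil))) (.I .jac (.c 2113 (.c 24 (.c 48 .nil))) (.b 40 (.l 32 (.l 0 .nil)))))) (.node (.node (.I .jac (.c 2113 (.c 24 (.c 40 .nil))) (.b 48 (.l 32 (.l 0 .nil)))) (.I .jac (.c 174695817 (.c 16 (.c 40 .nil))) (.l 32 (.l 0 .nil)))) (.node (.I .jac (.c 174695753 (.c 16 (.c 48 .nil))) (.l 32 (.l 0 .nil))) (.I .jac (.c 4673 (.c 16 (.c 48 .nil))) (.b 40 (.l 32 (.l 0 .nil)))))))) (.node (.node (.node (.node (.I .jac (.c 4673 (.c 16 (.c 40 .nil))) (.b 48 (.l 32 (.l 0 .nil)))) (.I .jac (.c 1324066185 (.c 16 (.c 24 .nil))) (.l 32 (.l 0 .nil)))) (.node (.I .tdb (.c 8 (.c 40 (.c 16 (.c 48 .nil)))) (.b 24 (.t 0 32 .nil))) (.I .tdb (.c 8 (.c 40 (.c 24 (.c 48 .nil)))) (.b 16 (.t 0 32 .nil))))) (.node (.node (.I .jac (.c 1324065993 (.c 16 (.c 48 .nil))) (.l 32 (.l 0 .nil))) (.I .jac (.c 12865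 (.c 16 (.c 48 .nil))) (.b 24 (.l 32 (.l 0 .nil))))) (.node (.I .jac (.c 12865 (.c 16 (.c 24 .nil))) (.b 48 (.l 32 (.l 0 .nil)))) (.I .jac (.c 18497 (.c 16 (.c 40 .nil))) (.b 24 (.l 32 (.l 0 .nil))))))) (.node (.node (.node (.I .jac (.c 18497 (.c 16 (.c 24 .nil))) (.b 40 (.l 32 (.l 0 .nil)))) (.I .jac (.c 1324065929 (.c 24 (.c 48 .nil))) (.l 32 (.l 0 .nil)))) (.node (.I .adp (.c 8 (.c 40 (.c 48 .nil))) (.b 4737 (.l 8193 .nil))) (.I .adp (.c 8 (.c 40 (.c 16 .nil))) (.b 18625 (.l 8193 .nil))))) (.node (.node (.I .adp (.c 8 (.c 40 (.c 24 .nil))) (.b 18561 (.l 8193 .nil))) (.I .jac (.c 174695561 (.c 40 (.c 48 .nil))) (.b 32 (.l 0 .nil)))) (.node (.I .adp (.c 16 (.c 24 (.c 8 .nil))) (.b 18753 (.l 8193 .nil))) (.I .com (.c 4673 (.c 16 .nil)) (.b 18753 (.l 8193 .nil)))))))) (.node (.node (.node (.node (.node (.I .adp (.c 16 (.c 24 (.c 48 .nil))) (.b 12865 (.l 8193 .nil))) (.I .adp (.c 16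 (.c 24 (.c 40 .nil))) (.b 18497 (.l 8193 .nil)))) (.node (.I .adp (.c 8 (.c 24 (.c 16 .nil))) (.b 18753 (.l 8193 .nil))) (.I .adp (.c 8 (.c 24 (.c 48 .nil))) (.b 12929 (.l 8193 .nil))))) (.node (.node (.I .adp (.c 8 (.c 24 (.c 40 .nil))) (.b 18561 (.l 8193 .nil))) (.I .adp (.c 8 (.c 16 (.c 24 .nil))) (.b 18753 (.l 8193 .nil)))) (.node (.I .adp (.c 8 (.c 16 (.c 40 .nil))) (.b 18625 (.l 8193 .nil))) (.I .adp (.c 8 (.c 16 (.c 48 .nil))) (.b 12993 (.l 8193 .nil)))))) (.node (.node (.node (.I .jac (.c 2049 (.c 24 (.c 48 .nil))) (.b 40 (.l 32 (.l 8 .nil)))) (.I .jac (.c 4609 (.c 16 (.c 48 .nil))) (.b 40 (.l 32 (.l 8 .nil))))) (.node (.I .jac (.c 2718204233 (.c 16 (.c 24 .nil))) (.l 32 (.l 8 .nil))) (.I .jac (.c 1310925193 (.c 16 (.c 24 .nil))) (.l 32 (.l 8 .nil))))) (.node (.node (.I .com (.c 27951061050494848579379785769086333720329 (.c 32 .nil)) (.l 8 .nil)) (.I .com (.c 1512103782441961064963223238430258353929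 (.c 32 .nil)) (.l 8 .nil))) (.node (.I .com (.c 27951061050494848518852093974251956532041 (.c 32 .nil)) (.l 8 .nil)) (.I .com (.c 1512103782441961050885067571858279445321 (.c 32 .nil)) (.l 8 .nil)))))) (.node (.node (.node (.node (.I .jac (.c 33587593 (.c 24 (.c 40 .nil))) (.b 8 (.b 32 .nil))) (.I .jac (.c 33587529 (.c 24 (.c 48 .nil))) (.b 8 (.b 32 .nil)))) (.node (.I .jac (.c 2049 (.c 24 (.c 40 .nil))) (.b 48 (.b 8 (.b 32 .nil)))) (.I .jac (.c 4609 (.c 16 (.c 40 .nil))) (.b 48 (.b 8 (.b 32 .nil)))))) (.node (.node (.I .jac (.c 33587593 (.c 24 (.c 40 .nil))) (.b 8 (.l 32 .nil))) (.I .jac (.c 169943433 (.c 16 (.c 40 .nil))) (.b 8 (.l 32 .nil)))) (.node (.I .jac (.c 4609 (.c 18561 (.c 40 .nil))) (.b 8 (.l 32 .nil))) (.I .jac (.c 4609 (.c 16 (.c 48 .nil))) (.b 40 (.b 8 (.l 32 .nil))))))) (.node (.node (.node (.I .jac (.c 2718204233 (.c 16 (.c 24 .nil))) (.b 8 (.l 32 .nil))) (.I .jac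 (.c 1310925193 (.c 16 (.c 24 .nil))) (.b 8 (.l 32 .nil)))) (.node (.I .tdb (.c 0 (.c 48 (.c 24 (.c 40 .nil)))) (.b 16 (.t 8 32 .nil))) (.I .com (.c 651606621363107786267057026226121 (.c 32 .nil)) (.l 8 .nil)))) (.node (.node (.I .jac (.c 12801 (.c 4737 (.c 48 .nil))) (.l 32 (.l 8 .nil))) (.I .jac (.c 12801 (.c 16 (.c 24 .nil))) (.b 48 (.l 32 (.l 8 .nil))))) (.node (.I .com (.c 1512102601296135255437272766182275864585 (.c 32 .nil)) (.l 8 .nil)) (.I .com (.c 427058636821845956378289793772237769 (.c 32 .nil)) (.l 8 .nil))))))))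

noncomputable def c2_367 : Tr := (.node (.node (.node (.node (.node (.node (.I .jac (.c 12801 (.c 16 (.c 24 .nil))) (.b 48 (.b 8 (.b 32 .nil)))) (.I .jac (.c 1310925001 (.c 16 (.c 48 .nil))) (.b 8 (.l 32 .nil)))) (.node (.I .jac (.c 12801 (.c 18561 (.c 24 .nil))) (.b 8 (.l 32 .nil))) (.I .jac (.c 12801 (.c 16 (.c 48 .nil))) (.b 24 (.b 8 (.l 32 .nil)))))) (.node (.node (.I .jac (.c 12801 (.c 4737 (.c 48 .nil))) (.b 8 (.l 32 .nil))) (.I .jac (.c 12801 (.c 16 (.c 24 .nil))) (.b 48 (.b 8 (.l 32 .nil))))) (.node (.I .tdb (.c 0 (.c 48 (.c 16 (.c 24 .nil)))) (.b 40 (.t 8 32 .nil))) (.I .jac (.c 0 (.c 16 (.c 48 .nil))) (.b 12993 (.l 8257 .nil)))))) (.node (.node (.node (.I .com (.c 1512102896582526821614077026536761750537 (.c 32 .nil)) (.l 8 .nil)) (.I .jac (.c 2718204041 (.c 24 (.c 40 .nil))) (.b 8 (.l 32 .nil)))) (.node (.I .jac (.c 0 (.c 16 (.c 48 .nil))) (.b 12993 (.b 8 (.l 32 .nil))))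 (.I .adp (.c 0 (.c 48 (.c 40 .nil))) (.b 4737 (.l 8257 .nil))))) (.node (.node (.I .adp (.c 0 (.c 48 (.c 24 .nil))) (.b 12929 (.l 8257 .nil))) (.I .adp (.c 0 (.c 48 (.c 16 .nil))) (.b 12993 (.l 8257 .nil)))) (.node (.I .jac (.c 18433 (.c 4737 (.c 40 .nil))) (.l 32 (.l 8 .nil))) (.I .jac (.c 18433 (.c 4737 (.c 40 .nil))) (.b 8 (.l 32 .nil))))))) (.node (.node (.node (.node (.I .jac (.c 18433 (.c 16 (.c 24 .nil))) (.b 40 (.b 8 (.l 32 .nil)))) (.I .adp (.c 4609 (.c 40 (.c 18561 .nil))) (.l 8257 .nil))) (.node (.I .adp (.c 2049 (.c 40 (.c 18625 .nil))) (.l 8257 .nil)) (.I .adp (.c 0 (.c 40 (.c 48 .nil))) (.b 4737 (.l 8257 .nil))))) (.node (.node (.I .adp (.c 0 (.c 12929 (.c 18625 .nil))) (.l 8257 .nil)) (.I .jac (.c 0 (.c 24 (.c 48 .nil))) (.r 12929 (.l 8257 .nil)))) (.node (.I .adp (.c 0 (.c 40 (.c 16 .nil))) (.b 18625 (.l 8257 .nil))) (.I .adp (.c 0 (.c 12993 (.c 18561 .nil))) (.l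 8257 .nil))))) (.node (.node (.node (.I .adp (.c 0 (.c 40 (.c 24 .nil))) (.b 18561 (.l 8257 .nil))) (.I .jac (.c 0 (.c 16 (.c 24 .nil))) (.b 18753 (.l 32 (.l 8 .nil))))) (.node (.I .jac (.c 33587401 (.c 40 (.c 48 .nil))) (.b 8 (.b 32 .nil))) (.I .jac (.c 33587401 (.c 40 (.c 48 .nil))) (.b 8 (.l 32 .nil))))) (.node (.node (.I .jac (.c 0 (.c 16 (.c 24 .nil))) (.b 18753 (.b 8 (.l 32 .nil)))) (.I .jac (.c 2803715 (.c 40 (.c 48 .nil))) (.b 32 (.l 8 .nil)))) (.node (.I .jac (.c 2803715 (.c 40 (.c 48 .nil))) (.b 8 (.b 32 .nil))) (.I .jac (.c 4737 (.c 40 (.c 48 .nil))) (.b 32 (.l 513 .nil)))))))) (.node (.node (.node (.node (.node (.I .jac (.c 4737 (.c 40 (.c 48 .nil))) (.b 32 (.l 8 (.l 0 .nil)))) (.I .jac (.c 12929 (.c 24 (.c 48 .nil))) (.l 32 (.l 513 .nil)))) (.node (.I .jac (.c 18561 (.c 24 (.c 40 .nil))) (.l 32 (.l 513 .nil))) (.I .jac (.c 169943369 (.c 8 (.c 48 .nil))) (.l 8321 .nil))))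 (.node (.node (.I .jac (.c 4609 (.c 8 (.c 48 .nil))) (.b 40 (.l 8321 .nil))) (.I .jac (.c 4609 (.c 12865 (.c 48 .nil))) (.l 8321 .nil))) (.node (.I .com (.c 427057993508084562470663629860471497 (.c 8321 .nil)) .nil) (.I .jac (.c 2718204233 (.c 8 (.c 24 .nil))) (.l 32 (.l 16 .nil)))))) (.node (.node (.node (.I .jac (.c 1310925193 (.c 8 (.c 24 .nil))) (.l 32 (.l 16 .nil))) (.I .com (.c 27951061050494848579379785769086333720265 (.c 32 .nil)) (.l 16 .nil))) (.node (.I .com (.c 1512103782441961064963223238430258353865 (.c 32 .nil)) (.l 16 .nil)) (.I .com (.c 27951061050494848458324402179417579409225 (.c 32 .nil)) (.l 16 .nil)))) (.node (.node (.I .com (.c 1512103782441961036806911905286300602185 (.c 32 .nil)) (.l 16 .nil)) (.I .tdb (.c 0 (.c 24 (.c 48 (.c 12865 .nil)))) (.l 8321 .nil))) (.node (.I .tdb (.c 8 (.c 40 (.c 0 (.c 48 .nil)))) (.b 24 (.l 8321 .nil))) (.I .tdb (.c 8 (.c 40 (.c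 24 (.c 48 .nil)))) (.b 0 (.l 8321 .nil))))))) (.node (.node (.node (.node (.I .jac (.c 4609 (.c 8 (.c 40 .nil))) (.r 48 (.l 8321 .nil))) (.I .tdb (.c 0 (.c 40 (.c 8 (.c 48 .nil)))) (.b 24 (.l 8321 .nil)))) (.node (.I .tdb (.c 8 (.c 24 (.c 48 (.c 12801 .nil)))) (.l 8321 .nil)) (.I .jac (.c 12801 (.c 8 (.c 24 .nil))) (.r 48 (.l 8321 .nil))))) (.node (.node (.I .adp (.c 18433 (.c 40 (.c 4673 .nil))) (.l 8321 .nil)) (.I .adp (.c 12801 (.c 48 (.c 4673 .nil))) (.l 8321 .nil))) (.node (.I .jac (.c 0 (.c 43356739 (.c 40 .nil))) (.t 16 32 .nil)) (.I .com (.c 231046163358603977 (.c 21307523 .nil)) .nil)))) (.node (.node (.node (.I .com (.c 231045989336561353 (.c 43655299 .nil)) .nil) (.I .tdb (.c 0 (.c 48 (.c 8 (.c 40 .nil)))) (.b 24 (.t 16 32 .nil)))) (.node (.I .tdb (.c 0 (.c 48 (.c 24 (.c 40 .nil)))) (.b 8 (.t 16 32 .nil))) (.I .tdb (.c 8 (.c 24 (.c 40 (.c 18433 .nil)))) (.t 16 32 .nil))))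 (.node (.node (.I .tdb (.c 0 (.c 40 (.c 8 (.c 48 .nil)))) (.b 24 (.t 16 32 .nil))) (.I .com (.c 59109068451510808265 (.c 21307523 .nil)) .nil)) (.node (.I .com (.c 13748194865974800073 (.c 43655299 .nil)) .nil) (.I .jac (.c 1310925001 (.c 8 (.c 48 .nil))) (.l 8321 .nil))))))))

noncomputable def c2_368 : Tr := (.node (.node (.node (.node (.node (.node (.I .jac (.c 12801 (.c 8 (.c 24 .nil))) (.b 48 (.l 8321 .nil))) (.I .com (.c 1512102896582526877926683197569543635657 (.c 8321 .nil)) .nil)) (.node (.I .jac (.c 1310925001 (.c 8 (.c 48 .nil))) (.l 32 (.l 16 .nil))) (.I .com (.c 1512102896582526877926683197569543635657 (.c 32 .nil)) (.l 16 .nil)))) (.node (.node (.I .com (.c 1512102306009786965494079912008658879305 (.c 32 .nil)) (.l 16 .nil)) (.I .com (.c 1512102306009786923259633531360632805385 (.c 32 .nil)) (.l 16 .nil))) (.node (.I .jac (.c 2718204105 (.c 8 (.c 40 .nil))) (.l 32 (.l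 16 .nil))) (.I .com (.c 27951055785643122968540376538297009659593 (.c 32 .nil)) (.l 16 .nil))))) (.node (.node (.node (.I .com (.c 27951055785643122726429632160908738482121 (.c 32 .nil)) (.l 16 .nil)) (.I .jac (.c 12801 (.c 8 (.c 48 .nil))) (.r 24 (.l 8321 .nil)))) (.node (.I .jac (.c 18433 (.c 8 (.c 40 .nil))) (.r 24 (.l 8321 .nil))) (.I .adp (.c 4609 (.c 48 (.c 12865 .nil))) (.l 8321 .nil)))) (.node (.node (.I .jac (.c 0 (.c 8 (.c 43954883 .nil))) (.t 16 32 .nil)) (.I .com (.c 1512102896582526807535925483778566443017 (.c 32 .nil)) (.l 16 .nil))) (.node (.I .jac (.c 2718203977 (.c 24 (.c 40 .nil))) (.l 32 (.l 16 .nil))) (.I .com (.c 27951050520792141000852311054881784782665 (.c 32 .nil)) (.l 16 .nil)))))) (.node (.node (.node (.node (.I .com (.c 27951050520792140879796950267161731045321 (.c 32 .nil)) (.l 16 .nil)) (.I .jac (.c 2718203977 (.c 24 (.c 40 .nil))) (.b 16 (.b 32 .nil))))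 (.node (.I .jac (.c 2718203977 (.c 24 (.c 40 .nil))) (.b 16 (.l 32 .nil))) (.I .adp (.c 0 (.c 48 (.c 40 .nil))) (.b 4673 (.l 8321 .nil))))) (.node (.node (.I .jac (.c 0 (.c 8 (.c 40 .nil))) (.r 18625 (.l 8321 .nil))) (.I .adp (.c 0 (.c 18625 (.c 12865 .nil))) (.l 8321 .nil))) (.node (.I .adp (.c 0 (.c 48 (.c 24 .nil))) (.b 12865 (.l 8321 .nil))) (.I .adp (.c 0 (.c 48 (.c 8 .nil))) (.b 12993 (.l 8321 .nil)))))) (.node (.node (.node (.I .jac (.c 18433 (.c 8 (.c 24 .nil))) (.b 40 (.l 8321 .nil))) (.I .adp (.c 24 (.c 40 (.c 48 .nil))) (.b 513 (.l 8321 .nil)))) (.node (.I .adp (.c 12801 (.c 24 (.c 18497 .nil))) (.l 8321 .nil)) (.I .adp (.c 24 (.c 40 (.c 0 .nil))) (.b 18497 (.l 8321 .nil))))) (.node (.node (.I .com (.c 12801 (.c 24 .nil)) (.b 18497 (.l 8321 .nil))) (.I .com (.c 2718204105 (.c 12865 .nil)) (.l 8321 .nil))) (.node (.I .com (.c 2718204233 (.c 4673 .nil)) (.l 8321 .nil)) (.I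 .adp (.c 12865 (.c 24 (.c 18433 .nil))) (.l 8321 .nil))))))) (.node (.node (.node (.node (.node (.I .adp (.c 4673 (.c 40 (.c 18433 .nil))) (.l 8321 .nil)) (.I .adp (.c 24 (.c 40 (.c 8 .nil))) (.b 18433 (.l 8321 .nil)))) (.node (.I .com (.c 12865 (.c 24 .nil)) (.b 18433 (.l 8321 .nil))) (.I .jac (.c 0 (.c 8 (.c 40 .nil))) (.b 18625 (.l 8321 .nil))))) (.node (.node (.I .jac (.c 1310924873 (.c 24 (.c 48 .nil))) (.l 32 (.l 16 .nil))) (.I .adp (.c 513 (.c 40 (.c 18625 .nil))) (.l 8321 .nil))) (.node (.I .adp (.c 0 (.c 40 (.c 48 .nil))) (.b 4673 (.l 8321 .nil))) (.I .adp (.c 0 (.c 12865 (.c 18625 .nil))) (.l 8321 .nil))))) (.node (.node (.node (.I .jac (.c 0 (.c 24 (.c 48 .nil))) (.r 12865 (.l 8321 .nil))) (.I .adp (.c 0 (.c 40 (.c 8 .nil))) (.b 18625 (.l 8321 .nil)))) (.node (.I .jac (.c 0 (.c 8 (.c 48 .nil))) (.r 12993 (.l 8321 .nil))) (.I .adp (.c 0 (.c 12993 (.c 18497 .nil))) (.l 8321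 .nil)))) (.node (.node (.I .adp (.c 0 (.c 40 (.c 24 .nil))) (.b 18497 (.l 8321 .nil))) (.I .jac (.c 169943113 (.c 40 (.c 48 .nil))) (.b 32 (.b 16 .nil)))) (.node (.I .jac (.c 2105545 (.c 40 (.c 48 .nil))) (.b 32 (.b 16 .nil))) (.I .jac (.c 169943113 (.c 40 (.c 48 .nil))) (.b 16 (.b 32 .nil))))))) (.node (.node (.node (.node (.I .jac (.c 2105545 (.c 40 (.c 48 .nil))) (.b 16 (.l 32 .nil))) (.I .jac (.c 0 (.c 8 (.c 24 .nil))) (.b 18753 (.b 16 (.l 32 .nil))))) (.node (.I .jac (.c 2728451 (.c 40 (.c 48 .nil))) (.b 32 (.b 16 .nil))) (.I .jac (.c 4673 (.c 40 (.c 48 .nil))) (.b 32 (.l 2049 .nil))))) (.node (.node (.I .jac (.c 4673 (.c 40 (.c 48 .nil))) (.b 32 (.b 16 (.l 0 .nil)))) (.I .jac (.c 12865 (.c 24 (.c 48 .nil))) (.l 32 (.l 2049 .nil)))) (.node (.I .jac (.c 18497 (.c 24 (.c 40 .nil))) (.l 32 (.l 2049 .nil))) (.I .jac (.c 4673 (.c 40 (.c 48 .nil))) (.b 16 (.l 32 (.l 0 .nil)))))))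 (.node (.node (.node (.I .jac (.c 12865 (.c 24 (.c 48 .nil))) (.b 16 (.l 32 (.l 0 .nil)))) (.I .jac (.c 18497 (.c 24 (.c 40 .nil))) (.b 16 (.l 32 (.l 0 .nil))))) (.node (.I .jac (.c 4609 (.c 40 (.c 48 .nil))) (.b 16 (.b 32 (.b 8 .nil)))) (.I .jac (.c 12801 (.c 24 (.c 48 .nil))) (.b 16 (.b 32 (.b 8 .nil)))))) (.node (.node (.I .jac (.c 18433 (.c 24 (.c 40 .nil))) (.b 16 (.b 32 (.b 8 .nil)))) (.I .jac (.c 4609 (.c 40 (.c 48 .nil))) (.b 16 (.b 8 (.l 32 .nil))))) (.node (.I .jac (.c 12801 (.c 24 (.c 48 .nil))) (.b 16 (.b 8 (.l 32 .nil)))) (.I .jac (.c 18433 (.c 24 (.c 40 .nil))) (.b 16 (.b 8 (.l 32 .nil))))))))))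

noncomputable def c2_369 : Tr := (.node (.node (.node (.node (.node (.node (.I .jac (.c 513 (.c 16 (.c 40 .nil))) (.b 48 (.l 8385 .nil))) (.I .com (.c 10066684875777433669609463561 (.c 8385 .nil)) .nil)) (.node (.I .com (.c 10065461098180296729435276041 (.c 8385 .nil)) .nil) (.I .jac (.c 33587529 (.c 8 (.c 48 .nil))) (.l 8385 .nil)))) (.node (.node (.I .jac (.c 2049 (.c 18497 (.c 40 .nil))) (.l 8385 .nil)) (.I .jac (.c 2049 (.c 8 (.c 48 .nil))) (.b 40 (.l 8385 .nil)))) (.node (.I .jac (.c 2049 (.c 8 (.c 40 .nil))) (.b 48 (.l 8385 .nil))) (.I .com (.c 651601654921560200620872561558217 (.c 8385 .nil)) .nil)))) (.node (.node (.node (.I .jac (.c 2718204233 (.c 8 (.c 16 .nil))) (.l 8385 .nil)) (.I .com (.c 27951061050494848518852093974251956531913 (.c 8385 .nil)) .nil)) (.node (.I .com (.c 1512103782441961036806911905286300602121 (.c 8385 .nil)) .nil) (.I .jac (.c 1310925193 (.c 8 (.c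 16 .nil))) (.l 32 (.l 24 .nil))))) (.node (.node (.I .com (.c 1512103782441961050885067571858279445193 (.c 32 .nil)) (.l 24 .nil)) (.I .com (.c 1512103782441961036806911905286300602121 (.c 32 .nil)) (.l 24 .nil))) (.node (.I .tdb (.c 0 (.c 8 (.c 48 (.c 12929 .nil)))) (.l 8385 .nil)) (.I .tdb (.c 16 (.c 40 (.c 0 (.c 48 .nil)))) (.b 8 (.l 8385 .nil))))))) (.node (.node (.node (.node (.I .tdb (.c 16 (.c 40 (.c 8 (.c 48 .nil)))) (.b 0 (.l 8385 .nil))) (.I .adp (.c 18561 (.c 40 (.c 513 .nil))) (.l 8385 .nil))) (.node (.I .com (.c 2105673 (.c 18561 .nil)) (.l 8385 .nil)) (.I .jac (.c 513 (.c 16 (.c 40 .nil))) (.r 48 (.l 8385 .nil))))) (.node (.node (.I .tdb (.c 0 (.c 16 (.c 48 (.c 12865 .nil)))) (.l 8385 .nil)) (.I .tdb (.c 8 (.c 40 (.c 0 (.c 48 .nil)))) (.b 16 (.l 8385 .nil)))) (.node (.I .tdb (.c 8 (.c 40 (.c 16 (.c 48 .nil)))) (.b 0 (.l 8385 .nil))) (.I .jac (.c 2049 (.c 8 (.c 40 .nil)))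 (.r 48 (.l 8385 .nil)))))) (.node (.node (.node (.I .tdb (.c 0 (.c 40 (.c 8 (.c 48 .nil)))) (.b 16 (.l 8385 .nil))) (.I .tdb (.c 0 (.c 40 (.c 16 (.c 48 .nil)))) (.b 8 (.l 8385 .nil)))) (.node (.I .tdb (.c 8 (.c 16 (.c 48 (.c 12801 .nil)))) (.l 8385 .nil)) (.I .jac (.c 12801 (.c 8 (.c 16 .nil))) (.r 48 (.l 8385 .nil))))) (.node (.node (.I .adp (.c 18433 (.c 40 (.c 2113 .nil))) (.l 8385 .nil)) (.I .adp (.c 12801 (.c 48 (.c 2113 .nil))) (.l 8385 .nil))) (.node (.I .com (.c 35473026505481 (.c 21307587 .nil)) .nil) (.I .com (.c 9025011228269257 (.c 21307587 .nil)) .nil)))))) (.node (.node (.node (.node (.node (.I .jac (.c 43954691 (.c 8 (.c 16 .nil))) (.t 24 32 .nil)) (.I .tdb (.c 0 (.c 48 (.c 8 (.c 40 .nil)))) (.b 16 (.t 24 32 .nil)))) (.node (.I .tdb (.c 0 (.c 48 (.c 16 (.c 40 .nil)))) (.b 8 (.t 24 32 .nil))) (.I .tdb (.c 8 (.c 16 (.c 40 (.c 18433 .nil)))) (.t 24 32 .nil)))) (.node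 (.node (.I .com (.c 59109065668069837513 (.c 21307587 .nil)) .nil) (.I .com (.c 59109062884628932361 (.c 21307587 .nil)) .nil)) (.node (.I .jac (.c 12801 (.c 18497 (.c 16 .nil))) (.l 8385 .nil)) (.I .jac (.c 12801 (.c 8 (.c 48 .nil))) (.b 16 (.l 8385 .nil)))))) (.node (.node (.node (.I .jac (.c 12801 (.c 8 (.c 16 .nil))) (.b 48 (.l 8385 .nil))) (.I .com (.c 1512102306009786965494079912008658879241 (.c 8385 .nil)) .nil)) (.node (.I .jac (.c 1310924937 (.c 8 (.c 48 .nil))) (.l 32 (.l 24 .nil))) (.I .com (.c 1512102601296135297671723270643481494217 (.c 32 .nil)) (.l 24 .nil)))) (.node (.node (.I .com (.c 1512102306009786965494079912008658879241 (.c 32 .nil)) (.l 24 .nil)) (.I .com (.c 1512102306009786909181484737811290911753 (.c 32 .nil)) (.l 24 .nil))) (.node (.I .adp (.c 16 (.c 18753 (.c 513 .nil))) (.l 8385 .nil)) (.I .jac (.c 513 (.c 40 (.c 48 .nil))) (.l 16 (.l 8385 .nil)))))))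 (.node (.node (.node (.node (.I .com (.c 35473026505673 (.c 16 .nil)) (.l 8385 .nil)) (.I .com (.c 35470870263817 (.c 16 .nil)) (.l 8385 .nil))) (.node (.I .ass (.c 8385 (.c 35470870263817 (.c 16 .nil))) .nil) (.I .com (.c 8385 (.c 35470870263817 .nil)) (.r 16 .nil)))) (.node (.node (.I .jac (.c 12801 (.c 8 (.c 48 .nil))) (.r 16 (.l 8385 .nil))) (.I .ass (.c 8385 (.c 13748198893136698057 (.c 16 .nil))) .nil)) (.node (.I .com (.c 8385 (.c 13748198893136698057 .nil)) (.r 16 .nil)) (.I .ass (.c 8385 (.c 13748192181200529417 (.c 16 .nil))) .nil)))) (.node (.node (.node (.I .com (.c 8385 (.c 13748192181200529417 .nil)) (.r 16 .nil)) (.I .ass (.c 8385 (.c 1310924937 (.c 18497 .nil))) .nil)) (.node (.I .ass (.c 1310924937 (.c 8385 (.c 18497 .nil))) .nil) (.I .com (.c 8385 (.c 1310924937 .nil)) (.r 18497 .nil)))) (.node (.node (.I .jac (.c 18433 (.c 8 (.c 40 .nil))) (.r 16 (.l 8385 .nil)))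 (.I .adp (.c 2049 (.c 48 (.c 12865 .nil))) (.l 8385 .nil))) (.node (.I .ass (.c 8385 (.c 59109074018392946377 (.c 16 .nil))) .nil) (.I .com (.c 8385 (.c 59109074018392946377 .nil)) (.r 16 .nil))))))))

noncomputable def c2_370 : Tr := (.node (.node (.node (.node (.node (.node (.I .ass (.c 8385 (.c 2049 (.c 1324066185 .nil))) .nil) (.I .ass (.c 2049 (.c 8385 (.c 1324066185 .nil))) .nil)) (.node (.I .com (.c 8385 (.c 2049 .nil)) (.r 1324066185 .nil)) (.I .jac (.c 0 (.c 8 (.c 43954819 .nil))) (.t 24 32 .nil)))) (.node (.node (.I .jac (.c 43059203 (.c 8 (.c 40 .nil))) (.t 24 32 .nil)) (.I .jac (.c 2718203977 (.c 16 (.c 40 .nil))) (.l 8385 .nil))) (.node (.I .jac (.c 0 (.c 8 (.c 48 .nil))) (.b 12929 (.l 8385 .nil))) (.I .com (.c 1512102601296135227280972429874805772297 (.c 32 .nil)) (.l 24 .nil))))) (.node (.node (.node (.I .ass (.c 8385 (.c 1310924873 (.c 18561 .nil))) .nil) (.I .ass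 (.c 1310924873 (.c 8385 (.c 18561 .nil))) .nil)) (.node (.I .com (.c 8385 (.c 1310924873 .nil)) (.r 18561 .nil)) (.I .adp (.c 513 (.c 48 (.c 12929 .nil))) (.l 8385 .nil)))) (.node (.node (.I .ass (.c 8385 (.c 513 (.c 1337272713 .nil))) .nil) (.I .ass (.c 513 (.c 8385 (.c 1337272713 .nil))) .nil)) (.node (.I .com (.c 8385 (.c 513 .nil)) (.r 1337272713 .nil)) (.I .adp (.c 0 (.c 48 (.c 40 .nil))) (.b 2113 (.l 8385 .nil))))))) (.node (.node (.node (.node (.I .jac (.c 0 (.c 8 (.c 40 .nil))) (.r 18561 (.l 8385 .nil))) (.I .adp (.c 0 (.c 18561 (.c 12865 .nil))) (.l 8385 .nil))) (.node (.I .adp (.c 0 (.c 48 (.c 16 .nil))) (.b 12865 (.l 8385 .nil))) (.I .adp (.c 0 (.c 18497 (.c 12929 .nil))) (.l 8385 .nil)))) (.node (.node (.I .jac (.c 0 (.c 16 (.c 40 .nil))) (.r 18497 (.l 8385 .nil))) (.I .adp (.c 0 (.c 48 (.c 8 .nil))) (.b 12929 (.l 8385 .nil)))) (.node (.I .jac (.c 18433 (.c 12865 (.c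 16 .nil))) (.l 8385 .nil)) (.I .jac (.c 18433 (.c 8 (.c 40 .nil))) (.b 16 (.l 8385 .nil)))))) (.node (.node (.node (.I .adp (.c 16 (.c 40 (.c 48 .nil))) (.b 513 (.l 8385 .nil))) (.I .adp (.c 12801 (.c 16 (.c 18497 .nil))) (.l 8385 .nil))) (.node (.I .adp (.c 16 (.c 40 (.c 0 .nil))) (.b 18497 (.l 8385 .nil))) (.I .com (.c 12801 (.c 16 .nil)) (.b 18497 (.l 8385 .nil))))) (.node (.node (.I .com (.c 2718204041 (.c 12865 .nil)) (.l 8385 .nil)) (.I .com (.c 2718204233 (.c 2113 .nil)) (.l 8385 .nil))) (.node (.I .adp (.c 12865 (.c 16 (.c 18433 .nil))) (.l 8385 .nil)) (.I .adp (.c 2113 (.c 40 (.c 18433 .nil))) (.l 8385 .nil))))))) (.node (.node (.node (.node (.node (.I .adp (.c 16 (.c 40 (.c 8 .nil))) (.b 18433 (.l 8385 .nil))) (.I .com (.c 12865 (.c 16 .nil)) (.b 18433 (.l 8385 .nil)))) (.node (.I .jac (.c 20891651 (.c 8 (.c 48 .nil))) (.t 24 32 .nil)) (.I .jac (.c 1310924873 (.c 16 (.c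 48 .nil))) (.l 32 (.l 24 .nil))))) (.node (.node (.I .jac (.c 0 (.c 8 (.c 40 .nil))) (.b 18561 (.b 24 (.b 32 .nil)))) (.I .adp (.c 513 (.c 40 (.c 18561 .nil))) (.l 8385 .nil))) (.node (.I .adp (.c 0 (.c 40 (.c 48 .nil))) (.b 2113 (.l 8385 .nil))) (.I .adp (.c 0 (.c 12865 (.c 18561 .nil))) (.l 8385 .nil))))) (.node (.node (.node (.I .jac (.c 0 (.c 16 (.c 48 .nil))) (.r 12865 (.l 8385 .nil))) (.I .adp (.c 0 (.c 40 (.c 8 .nil))) (.b 18561 (.l 8385 .nil)))) (.node (.I .jac (.c 0 (.c 8 (.c 48 .nil))) (.r 12929 (.l 8385 .nil))) (.I .adp (.c 0 (.c 12929 (.c 18497 .nil))) (.l 8385 .nil)))) (.node (.node (.I .adp (.c 0 (.c 40 (.c 16 .nil))) (.b 18497 (.l 8385 .nil))) (.I .jac (.c 33587273 (.c 40 (.c 48 .nil))) (.b 32 (.b 24 .nil)))) (.node (.I .jac (.c 2105481 (.c 40 (.c 48 .nil))) (.b 24 (.b 32 .nil))) (.I .jac (.c 0 (.c 8 (.c 16 .nil))) (.b 18753 (.b 24 (.b 32 .nil)))))))) (.node (.node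 (.node (.node (.I .jac (.c 2105481 (.c 40 (.c 48 .nil))) (.b 24 (.l 32 .nil))) (.I .jac (.c 557571 (.c 40 (.c 48 .nil))) (.t 24 32 .nil))) (.node (.I .jac (.c 2113 (.c 40 (.c 48 .nil))) (.b 32 (.l 4609 .nil))) (.I .jac (.c 2113 (.c 40 (.c 48 .nil))) (.b 32 (.b 24 (.l 0 .nil)))))) (.node (.node (.I .jac (.c 12865 (.c 16 (.c 48 .nil))) (.l 32 (.l 4609 .nil))) (.I .jac (.c 18497 (.c 16 (.c 40 .nil))) (.l 32 (.l 4609 .nil)))) (.node (.I .jac (.c 2113 (.c 40 (.c 48 .nil))) (.b 24 (.l 8193 .nil))) (.I .jac (.c 2113 (.c 40 (.c 48 .nil))) (.b 24 (.b 32 (.l 0 .nil))))))) (.node (.node (.node (.I .jac (.c 2113 (.c 40 (.c 48 .nil))) (.b 24 (.l 32 (.l 0 .nil)))) (.I .jac (.c 18433 (.c 16 (.c 40 .nil))) (.b 8786499 .nil))) (.node (.I .jac (.c 2049 (.c 40 (.c 48 .nil))) (.b 32 (.b 24 (.b 8 .nil)))) (.I .jac (.c 2049 (.c 40 (.c 48 .nil))) (.b 24 (.l 8257 .nil))))) (.node (.node (.I .jac (.c 2049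 (.c 40 (.c 48 .nil))) (.b 24 (.b 32 (.b 8 .nil)))) (.I .jac (.c 2049 (.c 40 (.c 48 .nil))) (.b 8 (.b 24 (.b 32 .nil))))) (.node (.I .jac (.c 12801 (.c 16 (.c 48 .nil))) (.b 8 (.b 24 (.b 32 .nil)))) (.I .jac (.c 18433 (.c 16 (.c 40 .nil))) (.b 8 (.b 24 (.b 32 .nil))))))))))

noncomputable def c2_371 : Tr := (.node (.node (.node (.node (.node (.node (.I .jac (.c 513 (.c 40 (.c 48 .nil))) (.b 8786563 .nil)) (.I .jac (.c 12801 (.c 8 (.c 48 .nil))) (.l 8786563 .nil))) (.node (.I .jac (.c 18433 (.c 8 (.c 40 .nil))) (.l 8786563 .nil)) (.I .jac (.c 513 (.c 40 (.c 48 .nil))) (.b 32 (.b 24 (.l 16 .nil)))))) (.node (.node (.I .jac (.c 12801 (.c 8 (.c 48 .nil))) (.l 32 (.l 4737 .nil))) (.I .com (.c 13748198893136698057 (.c 32 .nil)) (.l 4737 .nil))) (.node (.I .jac (.c 18433 (.c 8 (.c 40 .nil))) (.l 32 (.l 4737 .nil))) (.I .com (.c 59109074018392946377 (.c 32 .nil)) (.l 4737 .nil))))) (.node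 (.node (.node (.I .jac (.c 513 (.c 40 (.c 48 .nil))) (.b 24 (.b 32 (.b 16 .nil)))) (.I .jac (.c 513 (.c 40 (.c 48 .nil))) (.b 24 (.b 16 (.l 32 .nil))))) (.node (.I .jac (.c 12801 (.c 8 (.c 48 .nil))) (.l 24 (.l 8321 .nil))) (.I .com (.c 13748198893136698057 (.c 24 .nil)) (.l 8321 .nil)))) (.node (.node (.I .jac (.c 18433 (.c 8 (.c 40 .nil))) (.l 24 (.l 8321 .nil))) (.I .com (.c 59109074018392946377 (.c 24 .nil)) (.l 8321 .nil))) (.node (.I .jac (.c 513 (.c 40 (.c 48 .nil))) (.b 16 (.b 32 (.l 24 .nil)))) (.I .jac (.c 513 (.c 40 (.c 48 .nil))) (.b 16 (.b 24 (.b 32 .nil)))))))) (.node (.node (.node (.node (.I .jac (.c 513 (.c 40 (.c 48 .nil))) (.b 16 (.b 24 (.l 32 .nil)))) (.I .jac (.c 35468714087433 (.c 16 (.c 24 .nil))) (.l 40 .nil))) (.node (.I .jac (.c 35473026505545 (.c 16 (.c 32 .nil))) (.l 40 .nil)) (.I .jac (.c 35466557976585 (.c 16 (.c 32 .nil))) (.l 40 .nil)))) (.node (.node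 (.I .jac (.c 2105609 (.c 18561 (.c 24 .nil))) (.l 40 .nil)) (.I .jac (.c 2105545 (.c 16 (.c 48 .nil))) (.b 32 (.l 40 .nil)))) (.node (.I .jac (.c 513 (.c 16 (.c 32 .nil))) (.b 48 (.b 24 (.l 40 .nil)))) (.I .jac (.c 513 (.c 16 (.c 24 .nil))) (.b 48 (.b 32 (.l 40 .nil))))))) (.node (.node (.node (.I .jac (.c 513 (.c 16 (.c 32 .nil))) (.b 24 (.b 48 (.l 40 .nil)))) (.I .com (.c 810113986414488962661815687049395427480056877487513402121 (.c 40 .nil)) .nil)) (.node (.I .com (.c 809917014021492389842747135875993478139442776722716645257 (.c 40 .nil)) .nil) (.I .com (.c 809917014009799608106842808492447497285389560274090579977 (.c 40 .nil)) .nil))) (.node (.node (.I .jac (.c 9025011228269385 (.c 8 (.c 32 .nil))) (.l 40 .nil)) (.I .jac (.c 9024908047478793 (.c 8 (.c 32 .nil))) (.l 40 .nil))) (.node (.I .jac (.c 33587593 (.c 8257 (.c 24 .nil))) (.l 40 .nil)) (.I .jac (.c 9024942441009993 (.c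 8 (.c 48 .nil))) (.l 40 .nil))))))) (.node (.node (.node (.node (.node (.I .jac (.c 33587465 (.c 18497 (.c 24 .nil))) (.l 40 .nil)) (.I .jac (.c 33587465 (.c 4673 (.c 48 .nil))) (.l 40 .nil))) (.node (.I .jac (.c 33587465 (.c 8 (.c 24 .nil))) (.b 48 (.l 40 .nil))) (.I .jac (.c 33587401 (.c 8 (.c 48 .nil))) (.b 32 (.l 40 .nil))))) (.node (.node (.I .jac (.c 2049 (.c 8257 (.c 48 .nil))) (.b 24 (.l 40 .nil))) (.I .jac (.c 2049 (.c 2737112265 (.c 32 .nil))) (.l 40 .nil))) (.node (.I .jac (.c 2049 (.c 18497 (.c 24 .nil))) (.b 32 (.l 40 .nil))) (.I .jac (.c 2049 (.c 8 (.c 48 .nil))) (.b 24 (.b 32 (.l 40 .nil))))))) (.node (.node (.node (.I .jac (.c 2049 (.c 8 (.c 24 .nil))) (.b 48 (.b 32 (.l 40 .nil)))) (.I .jac (.c 2049 (.c 8 (.c 32 .nil))) (.b 24 (.b 48 (.l 40 .nil))))) (.node (.I .com (.c 3396625955800642344247222453443955330243337984916469004233742112457 (.c 40 .nil)) .nil) (.I .com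 (.c 3396470626629893322603242024125711716005261913869006431401929496457 (.c 40 .nil)) .nil))) (.node (.node (.I .com (.c 3396470626629604288154436272498967579664610621801423884068878386057 (.c 40 .nil)) .nil) (.I .jac (.c 59109068451510808457 (.c 8 (.c 16 .nil))) (.l 40 .nil))) (.node (.I .jac (.c 231046163358604169 (.c 8 (.c 16 .nil))) (.l 40 .nil)) (.I .jac (.c 2306970773558194185 (.c 8 (.c 16 .nil))) (.l 40 .nil)))))) (.node (.node (.node (.node (.I .com (.c 14502389782864777333305098924298644431720863286348602819849794413613458453193 (.c 40 .nil)) .nil) (.I .com (.c 1459032634273069816758958723893570445642906421186218312840953502770213577 (.c 40 .nil)) .nil)) (.node (.I .com (.c 14502348301404392044591456005053312461024212482411141103983515476492472136393 (.c 40 .nil)) .nil) (.I .com (.c 6250092156257071158258895001986985405122215187151368882671245003645771191549267721 (.c 40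 .nil)) .nil))) (.node (.node (.I .com (.c 1459032634273069816758958723893570008334862315615474442548624856682958601 (.c 40 .nil)) .nil) (.I .jac (.c 35473026505609 (.c 16 (.c 24 .nil))) (.l 40 .nil))) (.node (.I .jac (.c 2105545 (.c 18561 (.c 32 .nil))) (.l 40 .nil)) (.I .jac (.c 513 (.c 16 (.c 48 .nil))) (.b 32 (.b 24 (.l 40 .nil))))))) (.node (.node (.node (.I .com (.c 810705155099798343965562725046623028547662953083153536777 (.c 40 .nil)) .nil) (.I .jac (.c 9025011228269449 (.c 8 (.c 24 .nil))) (.l 40 .nil))) (.node (.I .jac (.c 33587593 (.c 8 (.c 32 .nil))) (.b 24 (.l 40 .nil))) (.I .jac (.c 33587593 (.c 4673 (.c 32 .nil))) (.l 40 .nil)))) (.node (.node (.I .jac (.c 9024908047478665 (.c 8 (.c 48 .nil))) (.l 40 .nil)) (.I .jac (.c 33587401 (.c 18497 (.c 32 .nil))) (.l 40 .nil))) (.node (.I .jac (.c 2049 (.c 8 (.c 48 .nil))) (.b 32 (.b 24 (.l 40 .nil)))) (.I .com (.c 3396729512034052482070957803012191837002676201838174190827433744073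 (.c 40 .nil)) .nil)))))))

noncomputable def c2_372 : Tr := (.node (.node (.node (.node (.node (.node (.I .com (.c 3396574178719587173931624198464933818003441404440742072888827953865 (.c 40 .nil)) .nil) (.I .com (.c 3396470626629893322603242024126378935757647612787457730849440267081 (.c 40 .nil)) .nil)) (.node (.I .com (.c 3396470626629604288154436272497633140159839280743900400390065568777 (.c 40 .nil)) .nil) (.I .jac (.c 59109071234951844681 (.c 8 (.c 16 .nil))) (.l 40 .nil)))) (.node (.node (.I .jac (.c 231045815314584585 (.c 8 (.c 16 .nil))) (.l 40 .nil)) (.I .com (.c 1459023842844933950499556010948851291195594742145000102581522084745032393 (.c 40 .nil)) .nil)) (.node (.I .com (.c 6250093333522399303094997664594709856941537899878681566874983028085293915518619401 (.c 40 .nil)) .nil) (.I .com (.c 1459023842844933950499556010948850853888868142414793345823926992799665929 (.c 40 .nil))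 .nil)))) (.node (.node (.node (.I .ass (.c 40 (.c 35473026505545 (.c 8321 .nil))) .nil) (.I .com (.c 40 (.c 35473026505545 .nil)) (.r 8321 .nil))) (.node (.I .com (.c 9025011228269385 (.c 8257 .nil)) (.l 40 .nil)) (.I .ass (.c 40 (.c 9025011228269385 (.c 8257 .nil))) .nil))) (.node (.node (.I .com (.c 40 (.c 9025011228269385 .nil)) (.r 8257 .nil)) (.I .ass (.c 40 (.c 9024839260612489 (.c 18625 .nil))) .nil)) (.node (.I .ass (.c 9024839260612489 (.c 40 (.c 18625 .nil))) .nil) (.I .com (.c 40 (.c 9024839260612489 .nil)) (.r 18625 .nil)))))) (.node (.node (.node (.node (.I .ass (.c 40 (.c 33587465 (.c 174695817 .nil))) .nil) (.I .ass (.c 33587465 (.c 40 (.c 174695817 .nil))) .nil)) (.node (.I .com (.c 40 (.c 33587465 .nil)) (.r 174695817 .nil)) (.I .adp (.c 2718204105 (.c 32 (.c 2113 .nil))) (.l 40 .nil)))) (.node (.node (.I .jac (.c 2718204105 (.c 8 (.c 16 .nil))) (.r 32 (.l 40 .nil)))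 (.I .ass (.c 40 (.c 27951055785643122786957318255255806177993 (.c 32 .nil))) .nil)) (.node (.I .com (.c 40 (.c 27951055785643122786957318255255806177993 .nil)) (.r 32 .nil)) (.I .ass (.c 40 (.c 27951055785643122726429632160908738481929 (.c 32 .nil))) .nil)))) (.node (.node (.node (.I .com (.c 40 (.c 27951055785643122726429632160908738481929 .nil)) (.r 32 .nil)) (.I .ass (.c 40 (.c 2718204105 (.c 35718409 .nil))) .nil)) (.node (.I .com (.c 40 (.c 2718204105 .nil)) (.r 35718409 .nil)) (.I .tdb (.c 16 (.c 32 (.c 0 (.c 48 .nil)))) (.b 24 (.b 8 (.l 40 .nil)))))) (.node (.node (.I .ass (.c 40 (.c 2105737 (.c 179513609 .nil))) .nil) (.I .com (.c 40 (.c 2105737 .nil)) (.r 179513609 .nil))) (.node (.I .ass (.c 40 (.c 35468714087241 (.c 18561 .nil))) .nil) (.I .ass (.c 35468714087241 (.c 40 (.c 18561 .nil))) .nil)))))) (.node (.node (.node (.node (.node (.I .com (.c 40 (.c 35468714087241 .nil))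 (.r 18561 .nil)) (.I .ass (.c 40 (.c 35466557976457 (.c 18561 .nil))) .nil)) (.node (.I .ass (.c 35466557976457 (.c 40 (.c 18561 .nil))) .nil) (.I .com (.c 40 (.c 35466557976457 .nil)) (.r 18561 .nil)))) (.node (.node (.I .tdb (.c 8 (.c 32 (.c 0 (.c 48 .nil)))) (.b 24 (.b 16 (.l 40 .nil)))) (.I .tdb (.c 24 (.c 32 (.c 8 (.c 48 .nil)))) (.b 2049 (.l 40 .nil)))) (.node (.I .com (.c 9024942441009993 (.c 18497 .nil)) (.l 40 .nil)) (.I .com (.c 9024908047478665 (.c 18497 .nil)) (.l 40 .nil))))) (.node (.node (.node (.I .jac (.c 2049 (.c 8 (.c 48 .nil))) (.r 8385 (.l 40 .nil))) (.I .jac (.c 33587401 (.c 8 (.c 32 .nil))) (.r 48 (.l 40 .nil)))) (.node (.I .jac (.c 33587465 (.c 8 (.c 24 .nil))) (.r 48 (.l 40 .nil))) (.I .ass (.c 40 (.c 33587593 (.c 174695689 .nil))) .nil))) (.node (.node (.I .com (.c 40 (.c 33587593 .nil)) (.r 174695689 .nil)) (.I .ass (.c 40 (.c 9024942441009993 (.c 18497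 .nil))) .nil)) (.node (.I .ass (.c 9024942441009993 (.c 40 (.c 18497 .nil))) .nil) (.I .com (.c 40 (.c 9024942441009993 .nil)) (.r 18497 .nil)))))) (.node (.node (.node (.node (.I .ass (.c 40 (.c 9024908047478665 (.c 18497 .nil))) .nil) (.I .ass (.c 9024908047478665 (.c 40 (.c 18497 .nil))) .nil)) (.node (.I .com (.c 40 (.c 9024908047478665 .nil)) (.r 18497 .nil)) (.I .tdb (.c 24 (.c 8193 (.c 8 (.c 48 .nil)))) (.b 16 (.l 40 .nil))))) (.node (.node (.I .tdb (.c 0 (.c 32 (.c 8 (.c 48 .nil)))) (.b 24 (.b 16 (.l 40 .nil)))) (.I .tdb (.c 4609 (.c 32 (.c 8 (.c 48 .nil)))) (.b 16 (.l 40 .nil)))) (.node (.I .tdb (.c 0 (.c 24 (.c 48 (.c 8 .nil)))) (.b 32 (.b 16 (.l 40 .nil)))) (.I .tdb (.c 24 (.c 8193 (.c 16 (.c 48 .nil)))) (.b 8 (.l 40 .nil)))))) (.node (.node (.node (.I .tdb (.c 0 (.c 32 (.c 16 (.c 48 .nil)))) (.b 24 (.b 8 (.l 40 .nil)))) (.I .tdb (.c 4609 (.c 32 (.c 16 (.c 48 .nil))))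 (.b 8 (.l 40 .nil)))) (.node (.I .tdb (.c 0 (.c 24 (.c 48 (.c 16 .nil)))) (.b 32 (.b 8 (.l 40 .nil)))) (.I .tdb (.c 8 (.c 16 (.c 48 (.c 537002185 .nil)))) (.l 40 .nil)))) (.node (.node (.I .tdb (.c 8 (.c 16 (.c 48 (.c 169943305 .nil)))) (.l 40 .nil)) (.I .adp (.c 18433 (.c 8385 (.c 2113 .nil))) (.l 40 .nil))) (.node (.I .jac (.c 2113 (.c 24 (.c 32 .nil))) (.l 18433 (.l 40 .nil))) (.I .jac (.c 18433 (.c 8 (.c 16 .nil))) (.r 8385 (.l 40 .nil)))))))))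

noncomputable def c2_373 : Tr := (.node (.node (.node (.node (.node (.node (.I .adp (.c 537002185 (.c 48 (.c 2113 .nil))) (.l 40 .nil)) (.I .jac (.c 537002185 (.c 8 (.c 16 .nil))) (.r 48 (.l 40 .nil)))) (.node (.I .jac (.c 169943305 (.c 8 (.c 16 .nil))) (.r 48 (.l 40 .nil))) (.I .ass (.c 40 (.c 59109065668069837513 (.c 8385 .nil))) .nil))) (.node (.node (.I .com (.c 40 (.c 59109065668069837513 .nil)) (.r 8385 .nil)) (.I .ass (.c 40 (.c 59109062884628932361 (.c 8385 .nil))) .nil)) (.node (.I .com (.c 40 (.c 59109062884628932361 .nil)) (.r 8385 .nil)) (.I .ass (.c 40 (.c 18433 (.c 10206437931930441 .nil))) .nil)))) (.node (.node (.node (.I .ass (.c 18433 (.c 40 (.c 10206437931930441 .nil))) .nil) (.I .com (.c 40 (.c 18433 .nil)) (.r 10206437931930441 .nil))) (.node (.I .com (.c 10206437931930441 (.c 40 .nil)) (.l 18433 .nil)) (.I .ass (.c 40 (.c 18433 (.c 10206401356312457 .nil)))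 .nil))) (.node (.node (.I .ass (.c 18433 (.c 40 (.c 10206401356312457 .nil))) .nil) (.I .com (.c 40 (.c 18433 .nil)) (.r 10206401356312457 .nil))) (.node (.I .com (.c 10206401356312457 (.c 40 .nil)) (.l 18433 .nil)) (.I .ass (.c 40 (.c 169943305 (.c 35718537 .nil))) .nil))))) (.node (.node (.node (.node (.I .ass (.c 169943305 (.c 40 (.c 35718537 .nil))) .nil) (.I .com (.c 40 (.c 169943305 .nil)) (.r 35718537 .nil))) (.node (.I .com (.c 35473026505609 (.c 4737 .nil)) (.l 40 .nil)) (.I .ass (.c 40 (.c 35473026505609 (.c 4737 .nil))) .nil))) (.node (.node (.I .com (.c 40 (.c 35473026505609 .nil)) (.r 4737 .nil)) (.I .com (.c 9024942441010185 (.c 4673 .nil)) (.l 40 .nil))) (.node (.I .ass (.c 40 (.c 9024942441010185 (.c 4673 .nil))) .nil) (.I .com (.c 40 (.c 9024942441010185 .nil)) (.r 4673 .nil))))) (.node (.node (.node (.I .ass (.c 40 (.c 9024908047478473 (.c 18689 .nil))) .nil) (.I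 .ass (.c 9024908047478473 (.c 40 (.c 18689 .nil))) .nil)) (.node (.I .com (.c 40 (.c 9024908047478473 .nil)) (.r 18689 .nil)) (.I .ass (.c 40 (.c 33587401 (.c 545424777 .nil))) .nil))) (.node (.node (.I .ass (.c 33587401 (.c 40 (.c 545424777 .nil))) .nil) (.I .com (.c 40 (.c 33587401 .nil)) (.r 545424777 .nil))) (.node (.I .adp (.c 537002377 (.c 24 (.c 2113 .nil))) (.l 40 .nil)) (.I .jac (.c 537002377 (.c 8 (.c 16 .nil))) (.r 24 (.l 40 .nil)))))))) (.node (.node (.node (.node (.node (.I .com (.c 537002377 (.c 24 .nil)) (.b 2113 (.l 40 .nil))) (.I .ass (.c 40 (.c 42576974092320099556365595025629983433 (.c 24 .nil))) .nil)) (.node (.I .com (.c 40 (.c 42576974092320099556365595025629983433 .nil)) (.r 24 .nil)) (.I .ass (.c 40 (.c 42576974092320097194025833638928027401 (.c 24 .nil))) .nil))) (.node (.node (.I .com (.c 40 (.c 42576974092320097194025833638928027401 .nil)) (.r 24 .nil))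 (.I .ass (.c 40 (.c 231045467270826697 (.c 18689 .nil))) .nil)) (.node (.I .ass (.c 231045467270826697 (.c 40 (.c 18689 .nil))) .nil) (.I .com (.c 40 (.c 231045467270826697 .nil)) (.r 18689 .nil))))) (.node (.node (.node (.I .tdb (.c 0 (.c 8 (.c 24 (.c 32 .nil)))) (.l 18561 (.b 40 .nil))) (.I .com (.c 617611520073865 (.c 18561 .nil)) (.b 40 .nil))) (.node (.I .com (.c 617620517416009 (.c 18561 .nil)) (.b 40 .nil)) (.I .tdb (.c 0 (.c 8 (.c 24 (.c 32 .nil)))) (.b 18561 (.b 40 .nil))))) (.node (.node (.I .com (.c 15038410136445065 (.c 8321 .nil)) (.b 40 .nil)) (.I .com (.c 15038454533712969 (.c 8321 .nil)) (.b 40 .nil))) (.node (.I .tdb (.c 0 (.c 8 (.c 24 (.c 48 .nil)))) (.b 8321 (.b 40 .nil))) (.I .adp (.c 15038410136445065 (.c 8321 (.c 40 .nil))) .nil))))) (.node (.node (.node (.node (.I .adp (.c 15038454533712969 (.c 8321 (.c 40 .nil))) .nil) (.I .adp (.c 2105737 (.c 8786563 (.c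 40 .nil))) .nil)) (.node (.I .adp (.c 617611520073865 (.c 18561 (.c 40 .nil))) .nil) (.I .adp (.c 617620517416009 (.c 18561 (.c 40 .nil))) .nil))) (.node (.node (.I .com (.c 617629514823753 (.c 18497 .nil)) (.b 40 .nil)) (.I .com (.c 15038498931046473 (.c 8257 .nil)) (.b 40 .nil))) (.node (.I .tdb (.c 0 (.c 16 (.c 32 (.c 48 .nil)))) (.l 4673 (.b 40 .nil))) (.I .com (.c 15246191640314057 (.c 4673 .nil)) (.b 40 .nil))))) (.node (.node (.node (.I .tdb (.c 0 (.c 16 (.c 32 (.c 48 .nil)))) (.b 4673 (.b 40 .nil))) (.I .adp (.c 15246191640314057 (.c 4673 (.c 40 .nil))) .nil)) (.node (.I .adp (.c 15038498931046473 (.c 8257 (.c 40 .nil))) .nil) (.I .adp (.c 617629514823753 (.c 18497 (.c 40 .nil))) .nil))) (.node (.node (.I .adp (.c 33587465 (.c 43356739 (.c 40 .nil))) .nil) (.I .tdb (.c 0 (.c 24 (.c 32 (.c 48 .nil)))) (.b 2113 (.b 40 .nil)))) (.node (.I .tdb (.c 8 (.c 32 (.c 24 (.c 48 .nil))))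 (.b 2049 (.l 40 .nil))) (.I .tdb (.c 0 (.c 16 (.c 48 (.c 8257 .nil)))) (.b 24 (.l 40 .nil)))))))))

noncomputable def c2_374 : Tr := (.node (.node (.node (.node (.node (.node (.I .tdb (.c 8 (.c 32 (.c 0 (.c 48 .nil)))) (.b 16 (.b 24 (.l 40 .nil)))) (.I .tdb (.c 8 (.c 32 (.c 16 (.c 48 .nil)))) (.b 0 (.b 24 (.l 40 .nil))))) (.node (.I .tdb (.c 0 (.c 16 (.c 32 (.c 24 .nil)))) (.b 18497 (.l 40 .nil))) (.I .tdb (.c 0 (.c 16 (.c 48 (.c 24 .nil)))) (.b 8257 (.l 40 .nil))))) (.node (.node (.I .tdb (.c 0 (.c 32 (.c 8 (.c 48 .nil)))) (.b 16 (.b 24 (.l 40 .nil)))) (.I .tdb (.c 0 (.c 32 (.c 16 (.c 48 .nil)))) (.b 8 (.b 24 (.l 40 .nil))))) (.node (.I .tdb (.c 0 (.c 32 (.c 24 (.c 48 .nil)))) (.b 2113 (.l 40 .nil))) (.I .com (.c 810113986414488962661815666440343006049332852622544712585 (.c 40 .nil)) .nil)))) (.node (.node (.node (.I .com (.c 810113986391099133780560079561415044142618929890207024009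 (.c 40 .nil)) .nil) (.I .jac (.c 169943433 (.c 8257 (.c 16 .nil))) (.l 40 .nil))) (.node (.I .jac (.c 169943433 (.c 8 (.c 16 .nil))) (.b 32 (.l 40 .nil))) (.I .jac (.c 4609 (.c 8 (.c 32 .nil))) (.b 48 (.b 16 (.l 40 .nil)))))) (.node (.node (.I .jac (.c 4609 (.c 8 (.c 48 .nil))) (.b 16 (.b 32 (.l 40 .nil)))) (.I .jac (.c 4609 (.c 35718537 (.c 32 .nil))) (.l 40 .nil))) (.node (.I .jac (.c 4609 (.c 8 (.c 16 .nil))) (.b 48 (.b 32 (.l 40 .nil)))) (.I .com (.c 1459032634273066583531893237580256547910552111377472741910729624189336265 (.c 40 .nil)) .nil))))) (.node (.node (.node (.node (.I .com (.c 1459015051463146184754746556962164963472259183976827527180371833926974153 (.c 40 .nil)) .nil) (.I .com (.c 1459023842844927484074647864604431950173590822856773473173784160675119817 (.c 40 .nil)) .nil)) (.node (.I .com (.c 1459010655789627520195474563615302272114145520705646669319441008507306889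 (.c 40 .nil)) .nil) (.I .com (.c 1459010655789630753386011620242686973569793649721357247531368164488721417 (.c 40 .nil)) .nil))) (.node (.node (.I .jac (.c 2306972423229201161 (.c 8 (.c 24 .nil))) (.l 40 .nil)) (.I .jac (.c 2306970223667989513 (.c 8 (.c 24 .nil))) (.l 40 .nil))) (.node (.I .com (.c 6250090978991937016972231763044093525892964367581477691244036949794293640673201993 (.c 40 .nil)) .nil) (.I .com (.c 810113986391099133780560058952362623009409956999009074185 (.c 40 .nil)) .nil)))) (.node (.node (.node (.I .jac (.c 169943433 (.c 2113 (.c 32 .nil))) (.l 40 .nil)) (.I .jac (.c 4609 (.c 2737112329 (.c 16 .nil))) (.l 40 .nil))) (.node (.I .jac (.c 4609 (.c 18497 (.c 32 .nil))) (.b 16 (.l 40 .nil))) (.I .com (.c 1459015051463142951556903841905138958216352709921802402533905189875073737 (.c 40 .nil)) .nil))) (.node (.node (.I .com (.c 1459010655789627520195474563615301397504644827606479082037052754917784585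 (.c 40 .nil)) .nil) (.I .adp (.c 2737112201 (.c 32 (.c 4609 .nil))) (.l 40 .nil))) (.node (.I .com (.c 169943305 (.c 2737112201 .nil)) (.l 40 .nil)) (.I .adp (.c 8257 (.c 18561 (.c 4609 .nil))) (.l 40 .nil))))))) (.node (.node (.node (.node (.node (.I .jac (.c 4609 (.c 16 (.c 48 .nil))) (.l 8257 (.l 40 .nil))) (.I .com (.c 231045467270827017 (.c 8257 .nil)) (.l 40 .nil))) (.node (.I .jac (.c 4609 (.c 8 (.c 32 .nil))) (.r 18561 (.l 40 .nil))) (.I .ass (.c 40 (.c 231045467270827017 (.c 8257 .nil))) .nil))) (.node (.node (.I .com (.c 40 (.c 231045467270827017 .nil)) (.r 8257 .nil)) (.I .ass (.c 40 (.c 231045815314584265 (.c 18561 .nil))) .nil)) (.node (.I .ass (.c 231045815314584265 (.c 40 (.c 18561 .nil))) .nil) (.I .com (.c 40 (.c 231045815314584265 .nil)) (.r 18561 .nil))))) (.node (.node (.node (.I .ass (.c 40 (.c 169943305 (.c 2737112201 .nil))) .nil) (.I .ass (.c 169943305 (.c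 40 (.c 2737112201 .nil))) .nil)) (.node (.I .com (.c 40 (.c 169943305 .nil)) (.r 2737112201 .nil)) (.I .com (.c 2737112201 (.c 40 .nil)) (.l 169943305 .nil)))) (.node (.node (.I .adp (.c 2718204041 (.c 32 (.c 4673 .nil))) (.l 40 .nil)) (.I .jac (.c 2718204041 (.c 8 (.c 24 .nil))) (.r 32 (.l 40 .nil)))) (.node (.I .jac (.c 8193 (.c 8 (.c 24 .nil))) (.r 18561 (.l 40 .nil))) (.I .ass (.c 40 (.c 27951053153217538893119514365376803559113 (.c 32 .nil))) .nil))))) (.node (.node (.node (.node (.I .com (.c 40 (.c 27951053153217538893119514365376803559113 .nil)) (.r 32 .nil)) (.I .ass (.c 40 (.c 27951053153217538772064147877169776201545 (.c 32 .nil))) .nil)) (.node (.I .com (.c 40 (.c 27951053153217538772064147877169776201545 .nil)) (.r 32 .nil)) (.I .ass (.c 40 (.c 2306970773558193865 (.c 18561 .nil))) .nil))) (.node (.node (.I .ass (.c 2306970773558193865 (.c 40 (.c 18561 .nil))) .nil) (.I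 .com (.c 40 (.c 2306970773558193865 .nil)) (.r 18561 .nil))) (.node (.I .ass (.c 40 (.c 2306969673777850185 (.c 18561 .nil))) .nil) (.I .ass (.c 2306969673777850185 (.c 40 (.c 18561 .nil))) .nil)))) (.node (.node (.node (.I .com (.c 40 (.c 2306969673777850185 .nil)) (.r 18561 .nil)) (.I .tdb (.c 16 (.c 32 (.c 8 (.c 48 .nil)))) (.b 4609 (.l 40 .nil)))) (.node (.I .com (.c 231045815314584329 (.c 18497 .nil)) (.l 40 .nil)) (.I .com (.c 231045467270826889 (.c 18497 .nil)) (.l 40 .nil)))) (.node (.node (.I .jac (.c 4609 (.c 8 (.c 48 .nil))) (.r 8321 (.l 40 .nil))) (.I .jac (.c 169943177 (.c 8 (.c 32 .nil))) (.r 48 (.l 40 .nil)))) (.node (.I .ass (.c 40 (.c 169943433 (.c 545424521 .nil))) .nil) (.I .com (.c 40 (.c 169943433 .nil)) (.r 545424521 .nil))))))))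

noncomputable def c2_375 : Tr := (.node (.node (.node (.node (.node (.node (.I .ass (.c 40 (.c 231045815314584329 (.c 18497 .nil))) .nil) (.I .ass (.c 231045815314584329 (.c 40 (.c 18497 .nil))) .nil)) (.node (.I .com (.c 40 (.c 231045815314584329 .nil)) (.r 18497 .nil)) (.I .ass (.c 40 (.c 231045467270826889 (.c 18497 .nil))) .nil))) (.node (.node (.I .ass (.c 231045467270826889 (.c 40 (.c 18497 .nil))) .nil) (.I .com (.c 40 (.c 231045467270826889 .nil)) (.r 18497 .nil))) (.node (.I .tdb (.c 16 (.c 8193 (.c 8 (.c 48 .nil)))) (.b 24 (.l 40 .nil))) (.I .tdb (.c 2049 (.c 32 (.c 8 (.c 48 .nil)))) (.b 24 (.l 40 .nil)))))) (.node (.node (.node (.I .tdb (.c 0 (.c 16 (.c 48 (.c 8 .nil)))) (.b 32 (.b 24 (.l 40 .nil)))) (.I .tdb (.c 16 (.c 8193 (.c 24 (.c 48 .nil)))) (.b 8 (.l 40 .nil)))) (.node (.I .tdb (.c 0 (.c 32 (.c 24 (.c 48 .nil)))) (.b 16 (.b 8 (.l 40 .nil)))) (.I .tdb (.c 2049 (.c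 32 (.c 24 (.c 48 .nil)))) (.b 8 (.l 40 .nil))))) (.node (.node (.I .tdb (.c 0 (.c 16 (.c 48 (.c 24 .nil)))) (.b 32 (.b 8 (.l 40 .nil)))) (.I .tdb (.c 8 (.c 24 (.c 48 (.c 537002121 .nil)))) (.l 40 .nil))) (.node (.I .tdb (.c 8 (.c 24 (.c 48 (.c 33587465 .nil)))) (.l 40 .nil)) (.I .adp (.c 18433 (.c 8321 (.c 4673 .nil))) (.l 40 .nil)))))) (.node (.node (.node (.node (.I .jac (.c 4673 (.c 16 (.c 32 .nil))) (.l 18433 (.l 40 .nil))) (.I .jac (.c 18433 (.c 8 (.c 24 .nil))) (.r 8321 (.l 40 .nil)))) (.node (.I .adp (.c 537002121 (.c 48 (.c 4673 .nil))) (.l 40 .nil)) (.I .jac (.c 537002121 (.c 8 (.c 24 .nil))) (.r 48 (.l 40 .nil))))) (.node (.node (.I .ass (.c 40 (.c 59109068451510808265 (.c 8321 .nil))) .nil) (.I .com (.c 40 (.c 59109068451510808265 .nil)) (.r 8321 .nil))) (.node (.I .ass (.c 40 (.c 18433 (.c 244148670041477897 .nil))) .nil) (.I .ass (.c 18433 (.c 40 (.c 244148670041477897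 .nil))) .nil)))) (.node (.node (.node (.I .com (.c 40 (.c 18433 .nil)) (.r 244148670041477897 .nil)) (.I .com (.c 244148670041477897 (.c 40 .nil)) (.l 18433 .nil))) (.node (.I .ass (.c 40 (.c 18433 (.c 244148312264838025 .nil))) .nil) (.I .ass (.c 18433 (.c 40 (.c 244148312264838025 .nil))) .nil))) (.node (.node (.I .com (.c 40 (.c 18433 .nil)) (.r 244148312264838025 .nil)) (.I .com (.c 244148312264838025 (.c 40 .nil)) (.l 18433 .nil))) (.node (.I .jac (.c 2105737 (.c 24 (.c 32 .nil))) (.l 16 (.l 40 .nil))) (.I .com (.c 10066684875741109290467687241 (.c 16 .nil)) (.l 40 .nil))))))) (.node (.node (.node (.node (.node (.I .ass (.c 40 (.c 10066684875741109290467687241 (.c 16 .nil))) .nil) (.I .com (.c 40 (.c 10066684875741109290467687241 .nil)) (.r 16 .nil))) (.node (.I .adp (.c 2737112329 (.c 16 (.c 4609 .nil))) (.l 40 .nil)) (.I .com (.c 169943177 (.c 2737112329 .nil)) (.l 40 .nil))))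 (.node (.node (.I .jac (.c 169943305 (.c 8 (.c 48 .nil))) (.r 16 (.l 40 .nil))) (.I .jac (.c 4609 (.c 18497 (.c 32 .nil))) (.r 16 (.l 40 .nil)))) (.node (.I .jac (.c 4609 (.c 8 (.c 48 .nil))) (.b 32 (.r 16 (.l 40 .nil)))) (.I .com (.c 231045815314584585 (.c 2113 .nil)) (.l 40 .nil))))) (.node (.node (.node (.I .com (.c 2737112329 (.c 16 .nil)) (.b 4609 (.l 40 .nil))) (.I .ass (.c 40 (.c 427057350195049030035896088956977865 (.c 16 .nil))) .nil)) (.node (.I .com (.c 40 (.c 427057350195049030035896088956977865 .nil)) (.r 16 .nil)) (.I .ass (.c 40 (.c 427055420260303274284998876733539209 (.c 16 .nil))) .nil))) (.node (.node (.I .com (.c 40 (.c 427055420260303274284998876733539209 .nil)) (.r 16 .nil)) (.I .ass (.c 40 (.c 231045815314584585 (.c 2113 .nil))) .nil)) (.node (.I .com (.c 40 (.c 231045815314584585 .nil)) (.r 2113 .nil)) (.I .ass (.c 40 (.c 169943177 (.c 2737112329 .nil))) .nil)))))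 (.node (.node (.node (.node (.I .ass (.c 169943177 (.c 40 (.c 2737112329 .nil))) .nil) (.I .com (.c 40 (.c 169943177 .nil)) (.r 2737112329 .nil))) (.node (.I .com (.c 2737112329 (.c 40 .nil)) (.l 169943177 .nil)) (.I .ass (.c 40 (.c 169943177 (.c 545424777 .nil))) .nil))) (.node (.node (.I .ass (.c 169943177 (.c 40 (.c 545424777 .nil))) .nil) (.I .com (.c 40 (.c 169943177 .nil)) (.r 545424777 .nil))) (.node (.I .adp (.c 537002377 (.c 16 (.c 4673 .nil))) (.l 40 .nil)) (.I .jac (.c 537002377 (.c 8 (.c 24 .nil))) (.r 16 (.l 40 .nil)))))) (.node (.node (.node (.I .com (.c 537002377 (.c 16 .nil)) (.b 4673 (.l 40 .nil))) (.I .ass (.c 40 (.c 42576974092320101918705356412332005065 (.c 16 .nil))) .nil)) (.node (.I .com (.c 40 (.c 42576974092320101918705356412332005065 .nil)) (.r 16 .nil)) (.I .adp (.c 14832803796618313 (.c 8385 (.c 40 .nil))) .nil))) (.node (.node (.I .adp (.c 598967998054537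 (.c 18625 (.c 40 .nil))) .nil) (.I .adp (.c 598976858557513 (.c 18625 (.c 40 .nil))) .nil)) (.node (.I .adp (.c 2105481 (.c 43655363 (.c 40 .nil))) .nil) (.I .tdb (.c 0 (.c 24 (.c 32 (.c 16 .nil)))) (.l 18497 (.b 40 .nil)))))))))

noncomputable def c2_376 : Tr := (.node (.node (.node (.node (.node (.node (.I .com (.c 598967998054665 (.c 18497 .nil)) (.b 40 .nil)) (.I .tdb (.c 0 (.c 24 (.c 48 (.c 16 .nil)))) (.l 8257 (.b 40 .nil)))) (.node (.I .com (.c 14832759703961865 (.c 8257 .nil)) (.b 40 .nil)) (.I .tdb (.c 0 (.c 24 (.c 32 (.c 48 .nil)))) (.l 2113 (.b 40 .nil))))) (.node (.node (.I .com (.c 15246191640314121 (.c 2113 .nil)) (.b 40 .nil)) (.I .com (.c 15246325749294153 (.c 2113 .nil)) (.b 40 .nil))) (.node (.I .adp (.c 15246191640314121 (.c 2113 (.c 40 .nil))) .nil) (.I .adp (.c 15246325749294153 (.c 2113 (.c 40 .nil))) .nil)))) (.node (.node (.node (.I .adp (.c 14832759703961865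 (.c 8257 (.c 40 .nil))) .nil) (.I .adp (.c 169943433 (.c 8652867 (.c 40 .nil))) .nil)) (.node (.I .adp (.c 598967998054665 (.c 18497 (.c 40 .nil))) .nil) (.I .jac (.c 598976858557513 (.c 24 (.c 48 .nil))) (.l 40 .nil)))) (.node (.node (.I .tdb (.c 8 (.c 32 (.c 16 (.c 48 .nil)))) (.b 4609 (.l 40 .nil))) (.I .tdb (.c 0 (.c 24 (.c 48 (.c 8257 .nil)))) (.b 16 (.l 40 .nil)))) (.node (.I .tdb (.c 8 (.c 32 (.c 24 (.c 48 .nil)))) (.b 0 (.b 16 (.l 40 .nil)))) (.I .tdb (.c 0 (.c 24 (.c 32 (.c 16 .nil)))) (.b 18497 (.l 40 .nil))))))) (.node (.node (.node (.node (.I .tdb (.c 0 (.c 24 (.c 48 (.c 16 .nil)))) (.b 8257 (.l 40 .nil))) (.I .tdb (.c 0 (.c 32 (.c 24 (.c 48 .nil)))) (.b 8 (.b 16 (.l 40 .nil))))) (.node (.I .tdb (.c 0 (.c 32 (.c 16 (.c 48 .nil)))) (.b 4673 (.l 40 .nil))) (.I .jac (.c 8193 (.c 8 (.c 48 .nil))) (.b 4737 (.b 40 .nil))))) (.node (.node (.I .jac (.c 0 (.c 18497 (.c 32 .nil)))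 (.b 4737 (.b 40 .nil))) (.I .jac (.c 0 (.c 8 (.c 48 .nil))) (.b 32 (.b 4737 (.b 40 .nil))))) (.node (.I .com (.c 3396625955800160603643130806315961360728832908976413815959824433993 (.c 40 .nil)) .nil) (.I .com (.c 3396574178719779867970206709211286451550259333757571654492376403849 (.c 40 .nil)) .nil)))) (.node (.node (.node (.I .com (.c 1459032634273064966918360494425614277203569319029480926657168649585081097 (.c 40 .nil)) .nil) (.I .com (.c 1459015051463146184754746556962163651556031893378264228397521488107409289 (.c 40 .nil)) .nil)) (.node (.I .com (.c 1459015051463138101760139769329674155041857492182469042720735377419731849 (.c 40 .nil)) .nil) (.I .com (.c 1459015051463142951556903841905136771689307225593286258548044359939493897 (.c 40 .nil)) .nil))) (.node (.node (.I .jac (.c 2306972423229201097 (.c 16 (.c 24 .nil))) (.l 40 .nil)) (.I .jac (.c 59109062884628932489 (.c 16 (.c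 24 .nil))) (.l 40 .nil))) (.node (.I .com (.c 14502389782864774114704176754082436982374001589111445514245794116264054518601 (.c 40 .nil)) .nil) (.I .com (.c 6250089801726996906276604807059669510252443027229796760752043443484990649519387465 (.c 40 .nil)) .nil)))))) (.node (.node (.node (.node (.node (.I .com (.c 14502320647155142518722987525103327669471791504796916519612316093560812319561 (.c 40 .nil)) .nil) (.I .jac (.c 18433 (.c 8 (.c 32 .nil))) (.b 4737 (.b 40 .nil)))) (.node (.I .jac (.c 0 (.c 8257 (.c 48 .nil))) (.b 4737 (.b 40 .nil))) (.I .jac (.c 0 (.c 8 (.c 32 .nil))) (.b 48 (.b 4737 (.b 40 .nil)))))) (.node (.node (.I .com (.c 3396574178719298132873750447712043619802621858686821135694194719753 (.c 40 .nil)) .nil) (.I .com (.c 1459015051463138101760139769329673280431039298452516197517724892297083913 (.c 40 .nil)) .nil)) (.node (.I .jac (.c 2718203977 (.c 16 (.c 24 .nil)))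 (.r 32 (.l 40 .nil))) (.I .adp (.c 2105737 (.c 32 (.c 4737 .nil))) (.l 40 .nil))))) (.node (.node (.node (.I .jac (.c 0 (.c 8 (.c 48 .nil))) (.r 32 (.b 4737 (.l 40 .nil)))) (.I .ass (.c 40 (.c 27951050520792140879796950267161731045129 (.c 32 .nil))) .nil)) (.node (.I .com (.c 40 (.c 27951050520792140879796950267161731045129 .nil)) (.r 32 .nil)) (.I .ass (.c 40 (.c 27951050520792140819269269873301704274761 (.c 32 .nil))) .nil))) (.node (.node (.I .com (.c 40 (.c 27951050520792140819269269873301704274761 .nil)) (.r 32 .nil)) (.I .ass (.c 40 (.c 8193 (.c 59934268409707441929 .nil))) .nil)) (.node (.I .ass (.c 8193 (.c 40 (.c 59934268409707441929 .nil))) .nil) (.I .com (.c 40 (.c 8193 .nil)) (.r 59934268409707441929 .nil)))))) (.node (.node (.node (.node (.I .com (.c 59934268409707441929 (.c 40 .nil)) (.l 8193 .nil)) (.I .tdb (.c 8 (.c 8193 (.c 16 (.c 48 .nil)))) (.b 24 (.l 40 .nil))))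 (.node (.I .tdb (.c 8 (.c 8193 (.c 24 (.c 48 .nil)))) (.b 16 (.l 40 .nil))) (.I .tdb (.c 16 (.c 24 (.c 48 (.c 537002057 .nil)))) (.l 40 .nil)))) (.node (.node (.I .adp (.c 18433 (.c 8257 (.c 4737 .nil))) (.l 40 .nil)) (.I .jac (.c 8257 (.c 16 (.c 24 .nil))) (.l 18433 (.l 40 .nil)))) (.node (.I .jac (.c 18433 (.c 16 (.c 24 .nil))) (.r 8257 (.l 40 .nil))) (.I .adp (.c 537002057 (.c 48 (.c 4737 .nil))) (.l 40 .nil))))) (.node (.node (.node (.I .jac (.c 537002057 (.c 16 (.c 24 .nil))) (.r 48 (.l 40 .nil))) (.I .ass (.c 40 (.c 59109068451510808329 (.c 8257 .nil))) .nil)) (.node (.I .com (.c 40 (.c 59109068451510808329 .nil)) (.r 8257 .nil)) (.I .ass (.c 40 (.c 59109065668069837641 (.c 8257 .nil))) .nil))) (.node (.node (.I .com (.c 40 (.c 59109065668069837641 .nil)) (.r 8257 .nil)) (.I .ass (.c 40 (.c 18433 (.c 2379903823379377929 .nil))) .nil)) (.node (.I .ass (.c 18433 (.c 40 (.c 2379903823379377929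 .nil))) .nil) (.I .com (.c 40 (.c 18433 .nil)) (.r 2379903823379377929 .nil))))))))

noncomputable def c2_377 : Tr := (.node (.node (.node (.node (.node (.node (.I .com (.c 2379903823379377929 (.c 40 .nil)) (.l 18433 .nil)) (.I .ass (.c 40 (.c 18433 (.c 2379903264864635721 .nil))) .nil)) (.node (.I .ass (.c 18433 (.c 40 (.c 2379903264864635721 .nil))) .nil) (.I .com (.c 40 (.c 18433 .nil)) (.r 2379903264864635721 .nil)))) (.node (.node (.I .com (.c 2379903264864635721 (.c 40 .nil)) (.l 18433 .nil)) (.I .com (.c 651591722123579838450590277895049 (.c 8 .nil)) (.l 40 .nil))) (.node (.I .jac (.c 33587593 (.c 24 (.c 32 .nil))) (.l 8 (.l 40 .nil))) (.I .com (.c 651606621363117027878554774109001 (.c 8 .nil)) (.l 40 .nil))))) (.node (.node (.node (.I .com (.c 651591722123561355438909041458185 (.c 8 .nil)) (.l 40 .nil)) (.I .ass (.c 40 (.c 651596688508375012468186189873993 (.c 8 .nil))) .nil))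 (.node (.I .com (.c 40 (.c 651596688508375012468186189873993 .nil)) (.r 8 .nil)) (.I .ass (.c 40 (.c 651591722123579838450590277895049 (.c 8 .nil))) .nil))) (.node (.node (.I .com (.c 40 (.c 651591722123579838450590277895049 .nil)) (.r 8 .nil)) (.I .ass (.c 40 (.c 651591722123561355438909041458185 (.c 8 .nil))) .nil)) (.node (.I .com (.c 40 (.c 651591722123561355438909041458185 .nil)) (.r 8 .nil)) (.I .ass (.c 40 (.c 33587273 (.c 2775125257 .nil))) .nil))))) (.node (.node (.node (.node (.I .ass (.c 33587273 (.c 40 (.c 2775125257 .nil))) .nil) (.I .com (.c 40 (.c 33587273 .nil)) (.r 2775125257 .nil))) (.node (.I .com (.c 2775125257 (.c 40 .nil)) (.l 33587273 .nil)) (.I .adp (.c 8 (.c 2756086025 (.c 4609 .nil))) (.l 40 .nil)))) (.node (.node (.I .jac (.c 169943305 (.c 16 (.c 48 .nil))) (.l 8 (.l 40 .nil))) (.I .jac (.c 4609 (.c 18561 (.c 32 .nil))) (.l 8 (.l 40 .nil)))) (.node (.I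 .jac (.c 4609 (.c 16 (.c 48 .nil))) (.b 32 (.l 8 (.l 40 .nil)))) (.I .com (.c 427057350195049030035896088956977929 (.c 8 .nil)) (.l 40 .nil))))) (.node (.node (.node (.I .jac (.c 169943433 (.c 16 (.c 32 .nil))) (.l 8 (.l 40 .nil))) (.I .com (.c 427058636821846429560832352193444617 (.c 8 .nil)) (.l 40 .nil))) (.node (.I .com (.c 427056063571157913309372238443346953 (.c 8 .nil)) (.l 40 .nil)) (.I .ass (.c 40 (.c 427058636821846429560832352193444617 (.c 8 .nil))) .nil))) (.node (.node (.I .com (.c 40 (.c 427058636821846429560832352193444617 .nil)) (.r 8 .nil)) (.I .ass (.c 40 (.c 427056063571157913309372238443346953 (.c 8 .nil))) .nil)) (.node (.I .com (.c 40 (.c 427056063571157913309372238443346953 .nil)) (.r 8 .nil)) (.I .adp (.c 537002377 (.c 8 (.c 4737 .nil))) (.l 40 .nil))))))) (.node (.node (.node (.node (.node (.I .jac (.c 8 (.c 16 (.c 24 .nil))) (.l 537002377 (.l 40 .nil)))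 (.I .jac (.c 537002377 (.c 16 (.c 24 .nil))) (.r 8 (.l 40 .nil)))) (.node (.I .com (.c 537002377 (.c 8 .nil)) (.b 4737 (.l 40 .nil))) (.I .ass (.c 40 (.c 42576974092320101918705356412332005129 (.c 8 .nil))) .nil))) (.node (.node (.I .com (.c 40 (.c 42576974092320101918705356412332005129 .nil)) (.r 8 .nil)) (.I .com (.c 257801454173641609 (.c 40 .nil)) (.l 513 .nil))) (.node (.I .tdb (.c 0 (.c 16 (.c 48 (.c 8 .nil)))) (.b 8385 (.b 40 .nil))) (.I .adp (.c 14629225721520329 (.c 8385 (.c 40 .nil))) .nil)))) (.node (.node (.node (.I .adp (.c 33587273 (.c 43655363 (.c 40 .nil))) .nil) (.I .tdb (.c 0 (.c 24 (.c 32 (.c 8 .nil)))) (.b 18561 (.b 40 .nil)))) (.node (.I .tdb (.c 0 (.c 24 (.c 48 (.c 8 .nil)))) (.b 8321 (.b 40 .nil))) (.I .adp (.c 14629225721520393 (.c 8321 (.c 40 .nil))) .nil))) (.node (.node (.I .adp (.c 169943113 (.c 43655299 (.c 40 .nil))) .nil) (.I .tdb (.c 0 (.c 32 (.c 8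 (.c 48 .nil)))) (.b 4737 (.b 40 .nil)))) (.node (.I .tdb (.c 0 (.c 16 (.c 48 (.c 8385 .nil)))) (.b 8 (.l 40 .nil))) (.I .tdb (.c 24 (.c 32 (.c 0 (.c 48 .nil)))) (.b 16 (.b 8 (.l 40 .nil)))))))) (.node (.node (.node (.node (.I .tdb (.c 24 (.c 32 (.c 16 (.c 48 .nil)))) (.b 0 (.b 8 (.l 40 .nil)))) (.I .tdb (.c 0 (.c 16 (.c 32 (.c 8 .nil)))) (.b 18625 (.l 40 .nil)))) (.node (.I .jac (.c 617620517416009 (.c 16 (.c 48 .nil))) (.l 40 .nil)) (.I .tdb (.c 0 (.c 24 (.c 48 (.c 8321 .nil)))) (.b 8 (.l 40 .nil))))) (.node (.node (.I .tdb (.c 16 (.c 32 (.c 24 (.c 48 .nil)))) (.b 0 (.b 8 (.l 40 .nil)))) (.I .tdb (.c 0 (.c 24 (.c 32 (.c 8 .nil)))) (.b 18561 (.l 40 .nil)))) (.node (.I .tdb (.c 0 (.c 32 (.c 8 (.c 48 .nil)))) (.b 4737 (.l 40 .nil))) (.I .adp (.c 18433 (.c 32 (.c 24 .nil))) (.b 2113 (.l 40 .nil)))))) (.node (.node (.node (.I .adp (.c 18433 (.c 32 (.c 16 .nil))) (.b 4673 (.l 40 .nil)))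 (.I .adp (.c 18433 (.c 32 (.c 8 .nil))) (.b 4737 (.l 40 .nil)))) (.node (.I .adp (.c 0 (.c 2737112329 (.c 4737 .nil))) (.l 40 .nil)) (.I .jac (.c 2737112329 (.c 16 (.c 24 .nil))) (.l 0 (.l 40 .nil))))) (.node (.node (.I .jac (.c 0 (.c 16 (.c 24 .nil))) (.r 2737112329 (.l 40 .nil))) (.I .ass (.c 40 (.c 0 (.c 28736934926198055544256049538367048341257 .nil))) .nil)) (.node (.I .ass (.c 0 (.c 40 (.c 28736934926198055544256049538367048341257 .nil))) .nil) (.I .com (.c 40 (.c 0 .nil)) (.r 28736934926198055544256049538367048341257 .nil))))))))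

noncomputable def c2_378 : Tr := (.node (.node (.node (.node (.node (.node (.I .com (.c 28736934926198055544256049538367048341257 (.c 40 .nil)) (.l 0 .nil)) (.I .ass (.c 40 (.c 0 (.c 28736934926198055482883355816756363834185 .nil))) .nil)) (.node (.I .ass (.c 0 (.c 40 (.c 28736934926198055482883355816756363834185 .nil))) .nil) (.I .com (.c 40 (.c 0 .nil)) (.r 28736934926198055482883355816756363834185 .nil)))) (.node (.node (.I .com (.c 28736934926198055482883355816756363834185 (.c 40 .nil)) (.l 0 .nil)) (.I .jac (.c 617611520073865 (.c 16 (.c 48 .nil))) (.l 40 .nil))) (.node (.I .jac (.c 2718204169 (.c 2113 (.c 24 .nil))) (.l 40 .nil)) (.I .jac (.c 537002377 (.c 4673 (.c 16 .nil))) (.l 40 .nil))))) (.node (.node (.node (.I .jac (.c 537002377 (.c 2113 (.c 24 .nil))) (.l 40 .nil)) (.I .jac (.c 537002377 (.c 8 (.c 16 .nil))) (.b 24 (.l 40 .nil)))) (.node (.I .com (.c 2306972423229201161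 (.c 4673 .nil)) (.l 40 .nil)) (.I .adp (.c 16 (.c 24 (.c 8 .nil))) (.b 537002377 (.l 40 .nil))))) (.node (.node (.I .com (.c 4673 (.c 16 .nil)) (.b 537002377 (.l 40 .nil))) (.I .ass (.c 40 (.c 2306972423229201161 (.c 4673 .nil))) .nil)) (.node (.I .com (.c 40 (.c 2306972423229201161 .nil)) (.r 4673 .nil)) (.I .tdb (.c 16 (.c 4609 (.c 8257 (.c 48 .nil)))) (.l 40 .nil)))))) (.node (.node (.node (.node (.I .tdb (.c 24 (.c 2049 (.c 8257 (.c 48 .nil)))) (.l 40 .nil)) (.I .adp (.c 18497 (.c 32 (.c 169943177 .nil))) (.l 40 .nil))) (.node (.I .adp (.c 18497 (.c 32 (.c 33587401 .nil))) (.l 40 .nil)) (.I .tdb (.c 0 (.c 32 (.c 16 (.c 48 .nil)))) (.l 4673 (.b 40 .nil))))) (.node (.node (.I .com (.c 14832759703961929 (.c 4673 .nil)) (.b 40 .nil)) (.I .adp (.c 14832759703961929 (.c 4673 (.c 40 .nil))) .nil)) (.node (.I .jac (.c 231045293249046537 (.c 16 (.c 32 .nil))) (.l 40 .nil)) (.I .jac (.c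 169943305 (.c 16 (.c 48 .nil))) (.r 8 (.l 40 .nil)))))) (.node (.node (.node (.I .ass (.c 40 (.c 513 (.c 60768081417602405193 .nil))) .nil) (.I .ass (.c 513 (.c 40 (.c 60768081417602405193 .nil))) .nil)) (.node (.I .com (.c 40 (.c 513 .nil)) (.r 60768081417602405193 .nil)) (.I .com (.c 2454554348984163145 (.c 40 .nil)) (.l 513 .nil)))) (.node (.node (.I .com (.c 42576974092320099556365595025629983561 (.c 8 .nil)) (.l 40 .nil)) (.I .adp (.c 8 (.c 24 (.c 16 .nil))) (.b 537002377 (.l 40 .nil)))) (.node (.I .tdb (.c 8 (.c 4609 (.c 8321 (.c 48 .nil)))) (.l 40 .nil)) (.I .adp (.c 18561 (.c 32 (.c 169943113 .nil))) (.l 40 .nil))))))) (.node (.node (.node (.node (.node (.I .com (.c 231045293249046409 (.c 18561 .nil)) (.l 40 .nil)) (.I .adp (.c 8321 (.c 48 (.c 169943113 .nil))) (.l 40 .nil))) (.node (.I .com (.c 231045293249046537 (.c 8321 .nil)) (.l 40 .nil)) (.I .jac (.c 169943113 (.c 16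 (.c 32 .nil))) (.r 48 (.l 40 .nil))))) (.node (.node (.I .com (.c 59555558875593 (.c 8321 .nil)) (.b 40 .nil)) (.I .adp (.c 59555558875593 (.c 8321 (.c 40 .nil))) .nil)) (.node (.I .adp (.c 14629225721520457 (.c 4737 (.c 40 .nil))) .nil) (.I .adp (.c 580749782704585 (.c 4737 (.c 40 .nil))) .nil)))) (.node (.node (.node (.I .jac (.c 8 (.c 16 (.c 48 .nil))) (.l 169943305 (.l 40 .nil))) (.I .jac (.c 2105481 (.c 24 (.c 48 .nil))) (.b 32 (.l 40 .nil)))) (.node (.I .jac (.c 33587593 (.c 24 (.c 32 .nil))) (.r 8 (.l 40 .nil))) (.I .jac (.c 18561 (.c 24 (.c 32 .nil))) (.l 513 (.l 40 .nil))))) (.node (.node (.I .jac (.c 33587465 (.c 24 (.c 48 .nil))) (.r 8 (.l 40 .nil))) (.I .adp (.c 8 (.c 16 (.c 24 .nil))) (.b 537002377 (.l 40 .nil)))) (.node (.I .tdb (.c 8 (.c 2049 (.c 8385 (.c 48 .nil)))) (.l 40 .nil)) (.I .adp (.c 18625 (.c 32 (.c 33587273 .nil))) (.l 40 .nil)))))) (.node (.node (.node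 (.node (.I .com (.c 9024839260612489 (.c 18625 .nil)) (.l 40 .nil)) (.I .adp (.c 8385 (.c 48 (.c 33587273 .nil))) (.l 40 .nil))) (.node (.I .com (.c 9024839260612617 (.c 8385 .nil)) (.l 40 .nil)) (.I .jac (.c 33587273 (.c 24 (.c 32 .nil))) (.r 48 (.l 40 .nil))))) (.node (.node (.I .jac (.c 8 (.c 24 (.c 32 .nil))) (.l 33587593 (.l 40 .nil))) (.I .jac (.c 8 (.c 24 (.c 48 .nil))) (.l 33587465 (.l 40 .nil)))) (.node (.I .com (.c 810705155088097029465566018346226871031782145051381028745 (.c 40 .nil)) .nil) (.I .jac (.c 2306970773558193929 (.c 8 (.c 48 .nil))) (.l 40 .nil))))) (.node (.node (.node (.I .jac (.c 537002185 (.c 18497 (.c 16 .nil))) (.l 40 .nil)) (.I .jac (.c 537002185 (.c 8 (.c 48 .nil))) (.b 16 (.l 40 .nil)))) (.node (.I .jac (.c 537002185 (.c 8 (.c 16 .nil))) (.b 48 (.l 40 .nil))) (.I .jac (.c 537002121 (.c 8 (.c 48 .nil))) (.b 24 (.l 40 .nil))))) (.node (.node (.I .jac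 (.c 8193 (.c 8 (.c 24 .nil))) (.b 48 (.b 16 (.l 40 .nil)))) (.I .jac (.c 8193 (.c 8 (.c 48 .nil))) (.b 16 (.b 24 (.l 40 .nil))))) (.node (.I .jac (.c 8193 (.c 35718537 (.c 24 .nil))) (.l 40 .nil)) (.I .jac (.c 8193 (.c 8 (.c 16 .nil))) (.b 48 (.b 24 (.l 40 .nil))))))))))

noncomputable def c2_379 : Tr := (.node (.node (.node (.node (.node (.node (.I .com (.c 14502320647155137690838865937963339523891584194807221604892938200835979313929 (.c 40 .nil)) .nil) (.I .com (.c 14502320647155137690838865937963339349496714001264282867190274572297000776713 (.c 40 .nil)) .nil)) (.node (.I .com (.c 6250090978991936989903231897491262894505959231273606073600897078039639333216664265 (.c 40 .nil)) .nil) (.I .jac (.c 2306970223667989321 (.c 8 (.c 48 .nil))) (.l 40 .nil)))) (.node (.node (.I .jac (.c 537002121 (.c 18497 (.c 24 .nil))) (.l 40 .nil)) (.I .jac (.c 537002121 (.c 8 (.c 24 .nil))) (.b 48 (.l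 40 .nil)))) (.node (.I .jac (.c 8193 (.c 2737112265 (.c 16 .nil))) (.l 40 .nil)) (.I .jac (.c 8193 (.c 18497 (.c 24 .nil))) (.b 16 (.l 40 .nil)))))) (.node (.node (.node (.I .jac (.c 8193 (.c 8 (.c 48 .nil))) (.b 24 (.b 16 (.l 40 .nil)))) (.I .jac (.c 8193 (.c 8 (.c 16 .nil))) (.b 24 (.b 48 (.l 40 .nil))))) (.node (.I .com (.c 14502334474273994737414675204173677576472838470281954748266460304942497891017 (.c 40 .nil)) .nil) (.I .com (.c 6250092156257071104120887622819292512215417398130213760960976026681180927759153865 (.c 40 .nil)) .nil))) (.node (.node (.I .jac (.c 537002121 (.c 8 (.c 48 .nil))) (.r 24 (.l 40 .nil))) (.I .adp (.c 4673 (.c 18561 (.c 8193 .nil))) (.l 40 .nil))) (.node (.I .jac (.c 8193 (.c 16 (.c 48 .nil))) (.l 4673 (.l 40 .nil))) (.I .com (.c 2306970223667989513 (.c 4673 .nil)) (.l 40 .nil)))))) (.node (.node (.node (.node (.I .ass (.c 40 (.c 42576892903125868487846022299823817417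 (.c 24 .nil))) .nil) (.I .com (.c 40 (.c 42576892903125868487846022299823817417 .nil)) (.r 24 .nil))) (.node (.I .ass (.c 40 (.c 42576872605845451114770277207992337161 (.c 24 .nil))) .nil) (.I .com (.c 40 (.c 42576872605845451114770277207992337161 .nil)) (.r 24 .nil)))) (.node (.node (.I .ass (.c 40 (.c 42576872605845441665422493413917717513 (.c 24 .nil))) .nil) (.I .com (.c 40 (.c 42576872605845441665422493413917717513 .nil)) (.r 24 .nil))) (.node (.I .ass (.c 40 (.c 2306970223667989513 (.c 4673 .nil))) .nil) (.I .com (.c 40 (.c 2306970223667989513 .nil)) (.r 4673 .nil))))) (.node (.node (.node (.I .adp (.c 33587593 (.c 24 (.c 8257 .nil))) (.l 40 .nil)) (.I .ass (.c 40 (.c 2718204041 (.c 545424585 .nil))) .nil)) (.node (.I .com (.c 40 (.c 2718204041 .nil)) (.r 545424585 .nil)) (.I .adp (.c 169943177 (.c 48 (.c 8257 .nil))) (.l 40 .nil)))) (.node (.node (.I .adp (.c 33587401 (.c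 48 (.c 8257 .nil))) (.l 40 .nil)) (.I .ass (.c 40 (.c 59109062884628932489 (.c 4737 .nil))) .nil)) (.node (.I .com (.c 40 (.c 59109062884628932489 .nil)) (.r 4737 .nil)) (.I .com (.c 10066684875704784911325976457 (.c 16 .nil)) (.l 40 .nil))))))) (.node (.node (.node (.node (.node (.I .ass (.c 40 (.c 10066684875704784911325976457 (.c 16 .nil))) .nil) (.I .com (.c 40 (.c 10066684875704784911325976457 .nil)) (.r 16 .nil))) (.node (.I .jac (.c 8193 (.c 18497 (.c 24 .nil))) (.r 16 (.l 40 .nil))) (.I .jac (.c 8193 (.c 8 (.c 48 .nil))) (.b 24 (.r 16 (.l 40 .nil)))))) (.node (.node (.I .ass (.c 40 (.c 42576872605845444027759439362436274185 (.c 16 .nil))) .nil) (.I .com (.c 40 (.c 42576872605845444027759439362436274185 .nil)) (.r 16 .nil))) (.node (.I .adp (.c 169943433 (.c 16 (.c 8257 .nil))) (.l 40 .nil)) (.I .com (.c 169943433 (.c 16 .nil)) (.b 8257 (.l 40 .nil)))))) (.node (.node (.node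 (.I .ass (.c 40 (.c 427058636821845719787018514561732489 (.c 16 .nil))) .nil) (.I .com (.c 40 (.c 427058636821845719787018514561732489 .nil)) (.r 16 .nil))) (.node (.I .tdb (.c 0 (.c 8 (.c 16 (.c 24 .nil)))) (.l 18689 (.b 40 .nil))) (.I .com (.c 62886542409865 (.c 18689 .nil)) (.b 40 .nil)))) (.node (.node (.I .com (.c 62889413446729 (.c 18689 .nil)) (.b 40 .nil)) (.I .adp (.c 62886542409865 (.c 18689 (.c 40 .nil))) .nil)) (.node (.I .adp (.c 62889413446729 (.c 18689 (.c 40 .nil))) .nil) (.I .adp (.c 537002121 (.c 43356739 (.c 40 .nil))) .nil))))) (.node (.node (.node (.node (.I .tdb (.c 0 (.c 32 (.c 16 (.c 24 .nil)))) (.b 18497 (.l 40 .nil))) (.I .com (.c 3396729512033763431099245905595783011287492628034489438249630898057 (.c 40 .nil)) .nil)) (.node (.I .com (.c 3396625955800353299884767459015385612256323329785217664834308231177 (.c 40 .nil)) .nil) (.I .com (.c 14502334474273994737414675204173677358479146806277544375998964923129615699977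 (.c 40 .nil)) .nil))) (.node (.node (.I .jac (.c 231046163358603977 (.c 16 (.c 32 .nil))) (.l 40 .nil)) (.I .jac (.c 59109062884628932425 (.c 16 (.c 32 .nil))) (.l 40 .nil))) (.node (.I .jac (.c 4609 (.c 8 (.c 48 .nil))) (.b 8321 (.l 40 .nil))) (.I .jac (.c 0 (.c 18497 (.c 24 .nil))) (.b 8321 (.l 40 .nil)))))) (.node (.node (.node (.I .jac (.c 0 (.c 8 (.c 48 .nil))) (.b 24 (.b 8321 (.l 40 .nil)))) (.I .com (.c 6250089801726996879207608765537404554601554507410496736081853339185903374257568521 (.c 40 .nil)) .nil)) (.node (.I .com (.c 1459032634273064966918360494425613402587481107889446802843250827157074825 (.c 40 .nil)) .nil) (.I .com (.c 6250089801726996879207608765537404554544310755943914431560029185038756149077013385 (.c 40 .nil)) .nil))) (.node (.node (.I .com (.c 14502334474273991518822959259732641339268152602353466784623480578277457074185 (.c 40 .nil)) .nil) (.I .com (.c 6250092156257071077051883933235446197608713903622242496075458767480090084087610121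 (.c 40 .nil)) .nil)) (.node (.I .ass (.c 40 (.c 42576892903125856676158477119718330377 (.c 24 .nil))) .nil) (.I .com (.c 40 (.c 42576892903125856676158477119718330377 .nil)) (.r 24 .nil))))))))

noncomputable def c2_380 : Tr := (.node (.node (.node (.node (.node (.node (.I .ass (.c 40 (.c 4609 (.c 59934265606904515465 .nil))) .nil) (.I .ass (.c 4609 (.c 40 (.c 59934265606904515465 .nil))) .nil)) (.node (.I .com (.c 40 (.c 4609 .nil)) (.r 59934265606904515465 .nil)) (.I .com (.c 59934265606904515465 (.c 40 .nil)) (.l 4609 .nil)))) (.node (.node (.I .com (.c 651606621363107786267057026226057 (.c 8 .nil)) (.l 40 .nil)) (.I .ass (.c 40 (.c 651596688508347287845007406880777 (.c 8 .nil))) .nil)) (.node (.I .com (.c 40 (.c 651596688508347287845007406880777 .nil)) (.r 8 .nil)) (.I .adp (.c 8 (.c 2756085961 (.c 8193 .nil))) (.l 40 .nil))))) (.node (.node (.node (.I .jac (.c 537002185 (.c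 16 (.c 48 .nil))) (.l 8 (.l 40 .nil))) (.I .jac (.c 8193 (.c 18561 (.c 24 .nil))) (.l 8 (.l 40 .nil)))) (.node (.I .jac (.c 8193 (.c 16 (.c 48 .nil))) (.b 24 (.l 8 (.l 40 .nil)))) (.I .com (.c 42576913200413542961749526065342513929 (.c 8 .nil)) (.l 40 .nil)))) (.node (.node (.I .com (.c 42576892903125868487846022299823817545 (.c 8 .nil)) (.l 40 .nil)) (.I .ass (.c 40 (.c 42576892903125861400833495191760328713 (.c 8 .nil))) .nil)) (.node (.I .com (.c 40 (.c 42576892903125861400833495191760328713 .nil)) (.r 8 .nil)) (.I .ass (.c 40 (.c 537002057 (.c 2756085961 .nil))) .nil))))) (.node (.node (.node (.node (.I .ass (.c 537002057 (.c 40 (.c 2756085961 .nil))) .nil) (.I .com (.c 40 (.c 537002057 .nil)) (.r 2756085961 .nil))) (.node (.I .com (.c 2756085961 (.c 40 .nil)) (.l 537002057 .nil)) (.I .adp (.c 537002057 (.c 43356803 (.c 40 .nil))) .nil))) (.node (.node (.I .tdb (.c 0 (.c 32 (.c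 8 (.c 24 .nil)))) (.b 18561 (.l 40 .nil))) (.I .jac (.c 2737112265 (.c 16 (.c 32 .nil))) (.l 0 (.l 40 .nil)))) (.node (.I .ass (.c 40 (.c 0 (.c 28736932238454843484300853031120099130121 .nil))) .nil) (.I .ass (.c 0 (.c 40 (.c 28736932238454843484300853031120099130121 .nil))) .nil)))) (.node (.node (.node (.I .com (.c 40 (.c 0 .nil)) (.r 28736932238454843484300853031120099130121 .nil)) (.I .com (.c 28736932238454843484300853031120099130121 (.c 40 .nil)) (.l 0 .nil))) (.node (.I .ass (.c 40 (.c 0 (.c 28736932238454843361555471328039257928585 .nil))) .nil) (.I .ass (.c 0 (.c 40 (.c 28736932238454843361555471328039257928585 .nil))) .nil))) (.node (.node (.I .com (.c 40 (.c 0 .nil)) (.r 28736932238454843361555471328039257928585 .nil)) (.I .com (.c 28736932238454843361555471328039257928585 (.c 40 .nil)) (.l 0 .nil))) (.node (.I .jac (.c 2718204105 (.c 2113 (.c 32 .nil))) (.l 40 .nil))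 (.I .jac (.c 2718204105 (.c 8 (.c 16 .nil))) (.b 32 (.l 40 .nil)))))))) (.node (.node (.node (.node (.node (.I .adp (.c 16 (.c 32 (.c 0 .nil))) (.b 2737112265 (.l 40 .nil))) (.I .com (.c 8193 (.c 16 .nil)) (.b 2737112265 (.l 40 .nil)))) (.node (.I .adp (.c 8193 (.c 16 (.c 2737112265 .nil))) (.l 40 .nil)) (.I .adp (.c 16 (.c 32 (.c 8 .nil))) (.b 169943433 (.l 40 .nil))))) (.node (.node (.I .com (.c 8257 (.c 16 .nil)) (.b 169943433 (.l 40 .nil))) (.I .adp (.c 8257 (.c 16 (.c 169943433 .nil))) (.l 40 .nil))) (.node (.I .adp (.c 18497 (.c 24 (.c 33587465 .nil))) (.l 40 .nil)) (.I .adp (.c 4673 (.c 48 (.c 33587465 .nil))) (.l 40 .nil))))) (.node (.node (.node (.I .adp (.c 24 (.c 48 (.c 8 .nil))) (.b 537002121 (.l 40 .nil))) (.I .com (.c 18497 (.c 24 .nil)) (.b 537002121 (.l 40 .nil)))) (.node (.I .adp (.c 24 (.c 48 (.c 8 .nil))) (.b 33587465 (.l 40 .nil))) (.I .com (.c 18497 (.c 24 .nil))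 (.b 33587465 (.l 40 .nil))))) (.node (.node (.I .jac (.c 2306969673777850185 (.c 16 (.c 48 .nil))) (.l 40 .nil)) (.I .jac (.c 537002057 (.c 18561 (.c 24 .nil))) (.l 40 .nil))) (.node (.I .jac (.c 537002057 (.c 16 (.c 24 .nil))) (.b 48 (.l 40 .nil))) (.I .jac (.c 537002185 (.c 16 (.c 48 .nil))) (.r 8 (.l 40 .nil))))))) (.node (.node (.node (.node (.I .ass (.c 40 (.c 513 (.c 60768078595370348425 .nil))) .nil) (.I .ass (.c 513 (.c 40 (.c 60768078595370348425 .nil))) .nil)) (.node (.I .com (.c 40 (.c 513 .nil)) (.r 60768078595370348425 .nil)) (.I .adp (.c 8 (.c 32 (.c 16 .nil))) (.b 169943433 (.l 40 .nil))))) (.node (.node (.I .adp (.c 8 (.c 8321 (.c 169943433 .nil))) (.l 40 .nil)) (.I .jac (.c 537002057 (.c 16 (.c 48 .nil))) (.r 24 (.l 40 .nil)))) (.node (.I .adp (.c 24 (.c 48 (.c 16 .nil))) (.b 537002057 (.l 40 .nil))) (.I .com (.c 18561 (.c 24 .nil)) (.b 537002057 (.l 40 .nil))))))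 (.node (.node (.node (.I .com (.c 580749782704585 (.c 4737 .nil)) (.b 40 .nil)) (.I .jac (.c 8 (.c 16 (.c 48 .nil))) (.l 537002185 (.l 40 .nil)))) (.node (.I .adp (.c 0 (.c 32 (.c 16 .nil))) (.b 2737112265 (.l 40 .nil))) (.I .adp (.c 0 (.c 8321 (.c 2737112265 .nil))) (.l 40 .nil)))) (.node (.node (.I .jac (.c 0 (.c 18497 (.c 24 .nil))) (.r 8321 (.l 40 .nil))) (.I .jac (.c 0 (.c 8 (.c 48 .nil))) (.b 24 (.r 8321 (.l 40 .nil))))) (.node (.I .adp (.c 24 (.c 48 (.c 8193 .nil))) (.b 2113 (.l 40 .nil))) (.I .adp (.c 24 (.c 48 (.c 32 .nil))) (.b 33587273 (.l 40 .nil)))))))))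

noncomputable def c2_381 : Tr := (.node (.node (.node (.node (.node (.node (.I .adp (.c 24 (.c 48 (.c 2049 .nil))) (.b 8257 (.l 40 .nil))) (.I .com (.c 33587593 (.c 24 .nil)) (.b 8257 (.l 40 .nil)))) (.node (.I .com (.c 1459023842844927484074647864604429763639957824210585071322594815179296777 (.c 40 .nil)) .nil) (.I .com (.c 14502348301404385607403421007397079477287848848522391215863522373346766163977 (.c 40 .nil)) .nil))) (.node (.node (.I .jac (.c 35473026505481 (.c 24 (.c 32 .nil))) (.l 40 .nil)) (.I .jac (.c 2049 (.c 8 (.c 48 .nil))) (.b 8385 (.l 40 .nil)))) (.node (.I .jac (.c 59109065668069837513 (.c 24 (.c 32 .nil))) (.l 40 .nil)) (.I .jac (.c 0 (.c 2113 (.c 48 .nil))) (.b 8385 (.l 40 .nil)))))) (.node (.node (.node (.I .jac (.c 0 (.c 8 (.c 16 .nil))) (.b 48 (.b 8385 (.l 40 .nil)))) (.I .com (.c 6250090978991936935765232166385601895310827410349705890402378365588328387683096457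 (.c 40 .nil)) .nil)) (.node (.I .ass (.c 40 (.c 427057350195047847081321678284722185 (.c 16 .nil))) .nil) (.I .com (.c 40 (.c 427057350195047847081321678284722185 .nil)) (.r 16 .nil)))) (.node (.node (.I .ass (.c 40 (.c 27951050520792140940324630661021757881161 (.c 16 .nil))) .nil) (.I .com (.c 40 (.c 27951050520792140940324630661021757881161 .nil)) (.r 16 .nil))) (.node (.I .ass (.c 40 (.c 27951050520792140879796950267161731045257 (.c 16 .nil))) .nil) (.I .com (.c 40 (.c 27951050520792140879796950267161731045257 .nil)) (.r 16 .nil)))))) (.node (.node (.node (.node (.I .com (.c 427057350195048083672236560419042313 (.c 8 .nil)) (.l 40 .nil)) (.I .adp (.c 8 (.c 18561 (.c 32 .nil))) (.b 4609 (.l 40 .nil)))) (.node (.I .com (.c 42576913200413533512397237570979656713 (.c 8 .nil)) (.l 40 .nil)) (.I .adp (.c 8 (.c 18561 (.c 24 .nil))) (.b 8193 (.l 40 .nil))))) (.node (.node (.I .adp (.c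 2718204041 (.c 8 (.c 8385 .nil))) (.l 40 .nil)) (.I .jac (.c 8 (.c 24 (.c 32 .nil))) (.l 2718204041 (.l 40 .nil)))) (.node (.I .jac (.c 2718204041 (.c 24 (.c 32 .nil))) (.r 8 (.l 40 .nil))) (.I .adp (.c 33587593 (.c 8 (.c 8385 .nil))) (.l 40 .nil))))) (.node (.node (.node (.I .adp (.c 513 (.c 18561 (.c 8385 .nil))) (.l 40 .nil)) (.I .jac (.c 513 (.c 24 (.c 32 .nil))) (.r 18561 (.l 40 .nil)))) (.node (.I .tdb (.c 16 (.c 48 (.c 0 (.c 8 .nil)))) (.b 8385 (.l 40 .nil))) (.I .adp (.c 8 (.c 18561 (.c 0 .nil))) (.b 8385 (.l 40 .nil))))) (.node (.node (.I .jac (.c 0 (.c 16 (.c 48 .nil))) (.l 8 (.b 8385 (.l 40 .nil)))) (.I .com (.c 2718204041 (.c 8 .nil)) (.b 8385 (.l 40 .nil)))) (.node (.I .com (.c 33587593 (.c 8 .nil)) (.b 8385 (.l 40 .nil))) (.I .ass (.c 40 (.c 27951053153217538953647197609480317336393 (.c 8 .nil))) .nil)))))) (.node (.node (.node (.node (.node (.I .ass (.c 27951053153217538953647197609480317336393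 (.c 40 (.c 8 .nil))) .nil) (.I .com (.c 40 (.c 27951053153217538953647197609480317336393 .nil)) (.r 8 .nil))) (.node (.I .com (.c 8 (.c 40 .nil)) (.l 27951053153217538953647197609480317336393 .nil)) (.I .ass (.c 40 (.c 27951053153217538893119514365376803559305 (.c 8 .nil))) .nil))) (.node (.node (.I .ass (.c 27951053153217538893119514365376803559305 (.c 40 (.c 8 .nil))) .nil) (.I .com (.c 40 (.c 27951053153217538893119514365376803559305 .nil)) (.r 8 .nil))) (.node (.I .com (.c 8 (.c 40 .nil)) (.l 27951053153217538893119514365376803559305 .nil)) (.I .tdb (.c 0 (.c 24 (.c 8 (.c 16 .nil)))) (.b 18689 (.b 40 .nil)))))) (.node (.node (.node (.I .com (.c 598976858557513 (.c 18625 .nil)) (.b 40 .nil)) (.I .tdb (.c 0 (.c 32 (.c 8 (.c 16 .nil)))) (.b 18625 (.l 40 .nil)))) (.node (.I .jac (.c 2737112201 (.c 24 (.c 32 .nil))) (.l 0 (.l 40 .nil))) (.I .ass (.c 40 (.c 0 (.c 28736929550711819899879258734451393329993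 .nil))) .nil))) (.node (.node (.I .ass (.c 0 (.c 40 (.c 28736929550711819899879258734451393329993 .nil))) .nil) (.I .com (.c 40 (.c 0 .nil)) (.r 28736929550711819899879258734451393329993 .nil))) (.node (.I .com (.c 28736929550711819899879258734451393329993 (.c 40 .nil)) (.l 0 .nil)) (.I .ass (.c 40 (.c 0 (.c 28736929550711819838506570752981169526665 .nil))) .nil))))) (.node (.node (.node (.node (.I .ass (.c 0 (.c 40 (.c 28736929550711819838506570752981169526665 .nil))) .nil) (.I .com (.c 40 (.c 0 .nil)) (.r 28736929550711819838506570752981169526665 .nil))) (.node (.I .com (.c 28736929550711819838506570752981169526665 (.c 40 .nil)) (.l 0 .nil)) (.I .com (.c 598967998054537 (.c 18625 .nil)) (.b 40 .nil)))) (.node (.node (.I .jac (.c 2718204041 (.c 8 (.c 32 .nil))) (.b 24 (.l 40 .nil))) (.I .jac (.c 2718204041 (.c 8 (.c 24 .nil))) (.b 32 (.l 40 .nil)))) (.node (.I .adp (.c 4609 (.c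 32 (.c 2737112201 .nil))) (.l 40 .nil)) (.I .com (.c 8257 (.c 24 .nil)) (.b 33587593 (.l 40 .nil)))))) (.node (.node (.node (.I .adp (.c 24 (.c 32 (.c 8 .nil))) (.b 33587593 (.l 40 .nil))) (.I .adp (.c 8257 (.c 24 (.c 33587593 .nil))) (.l 40 .nil))) (.node (.I .adp (.c 18497 (.c 16 (.c 169943305 .nil))) (.l 40 .nil)) (.I .adp (.c 2113 (.c 48 (.c 169943305 .nil))) (.l 40 .nil)))) (.node (.node (.I .adp (.c 16 (.c 48 (.c 8 .nil))) (.b 537002185 (.l 40 .nil))) (.I .com (.c 18497 (.c 16 .nil)) (.b 537002185 (.l 40 .nil)))) (.node (.I .adp (.c 16 (.c 48 (.c 8 .nil))) (.b 169943305 (.l 40 .nil))) (.I .com (.c 18497 (.c 16 .nil)) (.b 169943305 (.l 40 .nil)))))))))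

noncomputable def c2_382 : Tr := (.node (.node (.node (.node (.node (.node (.I .adp (.c 8 (.c 32 (.c 24 .nil))) (.b 33587593 (.l 40 .nil))) (.I .adp (.c 8 (.c 8385 (.c 33587593 .nil))) (.l 40 .nil))) (.node (.I .adp (.c 16 (.c 48 (.c 24 .nil))) (.b 537002057 (.l 40 .nil))) (.I .tdb (.c 0 (.c 8 (.c 16 (.c 32 .nil)))) (.l 18625 (.b 40 .nil))))) (.node (.node (.I .jac (.c 8 (.c 24 (.c 48 .nil))) (.l 537002121 (.l 40 .nil))) (.I .adp (.c 0 (.c 32 (.c 24 .nil))) (.b 2737112201 (.l 40 .nil)))) (.node (.I .adp (.c 0 (.c 8385 (.c 2737112201 .nil))) (.l 40 .nil)) (.I .jac (.c 0 (.c 18497 (.c 16 .nil))) (.r 8385 (.l 40 .nil)))))) (.node (.node (.node (.I .jac (.c 0 (.c 8 (.c 48 .nil))) (.b 16 (.r 8385 (.l 40 .nil)))) (.I .adp (.c 16 (.c 48 (.c 8193 .nil))) (.b 4673 (.l 40 .nil)))) (.node (.I .adp (.c 16 (.c 48 (.c 32 .nil))) (.b 169943113 (.l 40 .nil))) (.I .adp (.c 16 (.c 48 (.c 4609 .nil)))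 (.b 8257 (.l 40 .nil))))) (.node (.node (.I .jac (.c 513 (.c 16 (.c 48 .nil))) (.b 8385 (.l 40 .nil))) (.I .jac (.c 2718203977 (.c 16 (.c 24 .nil))) (.b 32 (.l 40 .nil)))) (.node (.I .adp (.c 4737 (.c 32 (.c 2718203977 .nil))) (.l 40 .nil)) (.I .com (.c 59109062884628932489 (.c 4737 .nil)) (.l 40 .nil)))))) (.node (.node (.node (.node (.I .adp (.c 4737 (.c 32 (.c 2105737 .nil))) (.l 40 .nil)) (.I .adp (.c 8 (.c 48 (.c 16 .nil))) (.b 537002185 (.l 40 .nil)))) (.node (.I .com (.c 14629225721520393 (.c 8321 .nil)) (.b 40 .nil)) (.I .com (.c 14629225721520457 (.c 4737 .nil)) (.b 40 .nil)))) (.node (.node (.I .tdb (.c 0 (.c 48 (.c 8 (.c 32 .nil)))) (.l 4737 (.b 40 .nil))) (.I .adp (.c 16 (.c 32 (.c 18497 .nil))) (.b 4609 (.l 40 .nil)))) (.node (.I .jac (.c 0 (.c 8 (.c 48 .nil))) (.b 554045665 (.l 40 .nil))) (.I .adp (.c 16 (.c 32 (.c 24 .nil))) (.b 2718203977 (.l 40 .nil)))))) (.node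 (.node (.node (.I .adp (.c 16 (.c 8385 (.c 2718203977 .nil))) (.l 40 .nil)) (.I .jac (.c 2718203977 (.c 24 (.c 32 .nil))) (.l 16 (.l 40 .nil)))) (.node (.I .com (.c 27951050520792140940324630661021757881161 (.c 16 .nil)) (.l 40 .nil)) (.I .com (.c 27951050520792140879796950267161731045257 (.c 16 .nil)) (.l 40 .nil)))) (.node (.node (.I .adp (.c 16 (.c 32 (.c 24 .nil))) (.b 2105737 (.l 40 .nil))) (.I .adp (.c 16 (.c 8385 (.c 2105737 .nil))) (.l 40 .nil))) (.node (.I .adp (.c 8 (.c 48 (.c 24 .nil))) (.b 537002121 (.l 40 .nil))) (.I .jac (.c 16 (.c 24 (.c 48 .nil))) (.l 537002057 (.l 40 .nil)))))))) (.node (.node (.node (.node (.node (.I .adp (.c 0 (.c 32 (.c 18497 .nil))) (.b 4737 (.l 40 .nil))) (.I .adp (.c 8 (.c 48 (.c 8193 .nil))) (.b 4737 (.l 40 .nil)))) (.node (.I .adp (.c 8 (.c 18689 (.c 169943177 .nil))) (.l 40 .nil)) (.I .jac (.c 169943177 (.c 32 (.c 48 .nil))) (.l 8 (.l 40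 .nil))))) (.node (.node (.I .adp (.c 8 (.c 18689 (.c 33587401 .nil))) (.l 40 .nil)) (.I .jac (.c 33587401 (.c 32 (.c 48 .nil))) (.l 8 (.l 40 .nil)))) (.node (.I .tdb (.c 8 (.c 48 (.c 0 (.c 24 .nil)))) (.l 8321 (.b 40 .nil))) (.I .jac (.c 18433 (.c 8 (.c 24 .nil))) (.b 32 (.b 16 (.l 40 .nil))))))) (.node (.node (.node (.I .jac (.c 18433 (.c 8257 (.c 16 .nil))) (.b 24 (.l 40 .nil))) (.I .jac (.c 18433 (.c 2113 (.c 32 .nil))) (.b 24 (.l 40 .nil)))) (.node (.I .jac (.c 18433 (.c 8 (.c 24 .nil))) (.b 16 (.b 32 (.l 40 .nil)))) (.I .jac (.c 18433 (.c 2113 (.c 24 .nil))) (.b 32 (.l 40 .nil))))) (.node (.node (.I .jac (.c 18433 (.c 8 (.c 16 .nil))) (.b 24 (.b 32 (.l 40 .nil)))) (.I .adp (.c 537002121 (.c 24 (.c 18497 .nil))) (.l 40 .nil))) (.node (.I .adp (.c 33587465 (.c 24 (.c 18497 .nil))) (.l 40 .nil)) (.I .adp (.c 169943177 (.c 32 (.c 18497 .nil))) (.l 40 .nil)))))) (.node (.node (.node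 (.node (.I .adp (.c 33587401 (.c 32 (.c 18497 .nil))) (.l 40 .nil)) (.I .com (.c 169943305 (.c 16 .nil)) (.b 18497 (.l 40 .nil)))) (.node (.I .com (.c 537002185 (.c 16 .nil)) (.b 18497 (.l 40 .nil))) (.I .adp (.c 537002185 (.c 16 (.c 18497 .nil))) (.l 40 .nil)))) (.node (.node (.I .adp (.c 169943305 (.c 16 (.c 18497 .nil))) (.l 40 .nil)) (.I .adp (.c 8786435 (.c 2737112201 (.c 40 .nil))) .nil)) (.node (.I .adp (.c 8652803 (.c 2737112265 (.c 40 .nil))) .nil) (.I .adp (.c 2718204169 (.c 2803779 (.c 40 .nil))) .nil)))) (.node (.node (.node (.I .adp (.c 2718204041 (.c 8786499 (.c 40 .nil))) .nil) (.I .jac (.c 231045815314584265 (.c 16 (.c 48 .nil))) (.l 40 .nil))) (.node (.I .adp (.c 537002057 (.c 24 (.c 18561 .nil))) (.l 40 .nil)) (.I .adp (.c 169943113 (.c 32 (.c 18561 .nil))) (.l 40 .nil)))) (.node (.node (.I .com (.c 537002185 (.c 8 .nil)) (.b 18561 (.l 40 .nil))) (.I .com (.c 169943305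 (.c 8 .nil)) (.b 18561 (.l 40 .nil)))) (.node (.I .adp (.c 537002185 (.c 8 (.c 18561 .nil))) (.l 40 .nil)) (.I .adp (.c 169943305 (.c 8 (.c 18561 .nil))) (.l 40 .nil))))))))

noncomputable def c2_383 : Tr := (.node (.node (.node (.node (.node (.node (.I .adp (.c 8 (.c 16 (.c 48 .nil))) (.b 537002185 (.l 40 .nil))) (.I .adp (.c 24 (.c 32 (.c 48 .nil))) (.b 33587273 (.l 40 .nil)))) (.node (.I .adp (.c 24 (.c 32 (.c 2049 .nil))) (.b 18497 (.l 40 .nil))) (.I .com (.c 33587465 (.c 24 .nil)) (.b 18497 (.l 40 .nil))))) (.node (.node (.I .jac (.c 9024942441009865 (.c 24 (.c 48 .nil))) (.l 40 .nil)) (.I .jac (.c 2306969673777850121 (.c 24 (.c 48 .nil))) (.l 40 .nil))) (.node (.I .jac (.c 35468714087177 (.c 24 (.c 48 .nil))) (.l 40 .nil)) (.I .jac (.c 8193 (.c 8 (.c 16 .nil))) (.b 18625 (.l 40 .nil)))))) (.node (.node (.node (.I .adp (.c 537002057 (.c 16 (.c 18625 .nil))) (.l 40 .nil)) (.I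 .jac (.c 537002057 (.c 24 (.c 48 .nil))) (.r 16 (.l 40 .nil)))) (.node (.I .adp (.c 33587273 (.c 32 (.c 18625 .nil))) (.l 40 .nil)) (.I .com (.c 537002121 (.c 8 .nil)) (.b 18625 (.l 40 .nil))))) (.node (.node (.I .com (.c 33587465 (.c 8 .nil)) (.b 18625 (.l 40 .nil))) (.I .adp (.c 537002121 (.c 8 (.c 18625 .nil))) (.l 40 .nil))) (.node (.I .jac (.c 537002121 (.c 24 (.c 48 .nil))) (.r 8 (.l 40 .nil))) (.I .adp (.c 33587465 (.c 8 (.c 18625 .nil))) (.l 40 .nil)))))) (.node (.node (.node (.node (.I .tdb (.c 0 (.c 48 (.c 8 (.c 16 .nil)))) (.l 8385 (.b 40 .nil))) (.I .com (.c 14832803796618313 (.c 8385 .nil)) (.b 40 .nil))) (.node (.I .tdb (.c 8 (.c 48 (.c 0 (.c 16 .nil)))) (.l 8385 (.b 40 .nil))) (.I .adp (.c 8 (.c 24 (.c 48 .nil))) (.b 537002121 (.l 40 .nil))))) (.node (.node (.I .adp (.c 16 (.c 32 (.c 48 .nil))) (.b 169943113 (.l 40 .nil))) (.I .adp (.c 16 (.c 32 (.c 4609 .nil))) (.b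 18497 (.l 40 .nil)))) (.node (.I .com (.c 14629225721520329 (.c 8385 .nil)) (.b 40 .nil)) (.I .adp (.c 16 (.c 24 (.c 48 .nil))) (.b 537002057 (.l 40 .nil)))))) (.node (.node (.node (.I .adp (.c 8 (.c 32 (.c 48 .nil))) (.b 169943177 (.l 40 .nil))) (.I .adp (.c 8 (.c 32 (.c 48 .nil))) (.b 33587401 (.l 40 .nil)))) (.node (.I .adp (.c 8 (.c 32 (.c 4609 .nil))) (.b 18561 (.l 40 .nil))) (.I .adp (.c 8 (.c 32 (.c 2049 .nil))) (.b 18625 (.l 40 .nil))))) (.node (.node (.I .adp (.c 16 (.c 24 (.c 8193 .nil))) (.b 18497 (.l 40 .nil))) (.I .adp (.c 8 (.c 24 (.c 8193 .nil))) (.b 18561 (.l 40 .nil)))) (.node (.I .adp (.c 8 (.c 16 (.c 8193 .nil))) (.b 18625 (.l 40 .nil))) (.I .jac (.c 2049 (.c 8 (.c 24 .nil))) (.b 18689 (.b 40 .nil)))))))) (.node (.node (.node (.node (.node (.I .jac (.c 35466557976329 (.c 32 (.c 48 .nil))) (.l 40 .nil)) (.I .jac (.c 2049 (.c 8 (.c 24 .nil))) (.b 18689 (.l 40 .nil))))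 (.node (.I .jac (.c 4609 (.c 8 (.c 16 .nil))) (.b 18689 (.l 40 .nil))) (.I .jac (.c 62889413446729 (.c 32 (.c 48 .nil))) (.l 40 .nil)))) (.node (.node (.I .jac (.c 2487083360521 (.c 32 (.c 48 .nil))) (.l 40 .nil)) (.I .jac (.c 59555558875337 (.c 32 (.c 48 .nil))) (.l 40 .nil))) (.node (.I .jac (.c 513 (.c 16 (.c 24 .nil))) (.b 18689 (.b 40 .nil))) (.I .adp (.c 8 (.c 32 (.c 48 .nil))) (.b 4737 (.l 12801 .nil)))))) (.node (.node (.node (.I .adp (.c 8 (.c 32 (.c 16 .nil))) (.b 18625 (.l 12801 .nil))) (.I .adp (.c 8 (.c 32 (.c 24 .nil))) (.b 18561 (.l 12801 .nil)))) (.node (.I .adp (.c 8 (.c 24 (.c 16 .nil))) (.b 18689 (.l 12801 .nil))) (.I .adp (.c 8 (.c 24 (.c 48 .nil))) (.b 8321 (.l 12801 .nil))))) (.node (.node (.I .adp (.c 8 (.c 24 (.c 32 .nil))) (.b 18561 (.l 12801 .nil))) (.I .adp (.c 8 (.c 16 (.c 24 .nil))) (.b 18689 (.l 12801 .nil)))) (.node (.I .adp (.c 8 (.c 16 (.c 32 .nil)))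 (.b 18625 (.l 12801 .nil))) (.I .adp (.c 8 (.c 16 (.c 48 .nil))) (.b 8385 (.l 12801 .nil))))))) (.node (.node (.node (.node (.I .jac (.c 33587593 (.c 24 (.c 32 .nil))) (.l 40 (.l 8 .nil))) (.I .jac (.c 33587465 (.c 24 (.c 48 .nil))) (.l 40 (.l 8 .nil)))) (.node (.I .jac (.c 2049 (.c 24 (.c 32 .nil))) (.b 48 (.l 40 (.l 8 .nil)))) (.I .com (.c 651591722123561355438909041458185 (.c 40 .nil)) (.l 8 .nil)))) (.node (.node (.I .jac (.c 169943433 (.c 16 (.c 32 .nil))) (.l 40 (.l 8 .nil))) (.I .jac (.c 169943305 (.c 16 (.c 48 .nil))) (.l 40 (.l 8 .nil)))) (.node (.I .jac (.c 4609 (.c 16 (.c 32 .nil))) (.b 48 (.l 40 (.l 8 .nil)))) (.I .com (.c 427056063571157913309372238443346953 (.c 40 .nil)) (.l 8 .nil))))) (.node (.node (.node (.I .jac (.c 2718204169 (.c 16 (.c 24 .nil))) (.l 40 (.l 8 .nil))) (.I .jac (.c 537002377 (.c 16 (.c 24 .nil))) (.l 40 (.l 8 .nil)))) (.node (.I .jac (.c 33587593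 (.c 24 (.c 32 .nil))) (.b 8 (.b 40 .nil))) (.I .jac (.c 169943305 (.c 16 (.c 48 .nil))) (.b 8 (.b 40 .nil))))) (.node (.node (.I .jac (.c 4609 (.c 8321 (.c 48 .nil))) (.b 8 (.b 40 .nil))) (.I .jac (.c 4609 (.c 16 (.c 32 .nil))) (.b 48 (.b 8 (.b 40 .nil))))) (.node (.I .jac (.c 2718204169 (.c 16 (.c 24 .nil))) (.b 8 (.b 40 .nil))) (.I .jac (.c 537002377 (.c 16 (.c 24 .nil))) (.b 8 (.b 40 .nil)))))))))

noncomputable def c2_384 : Tr := (.node (.node (.node (.node (.node (.node (.I .jac (.c 33587593 (.c 24 (.c 32 .nil))) (.b 8 (.l 40 .nil))) (.I .jac (.c 33587465 (.c 24 (.c 48 .nil))) (.b 8 (.l 40 .nil)))) (.node (.I .jac (.c 2049 (.c 24 (.c 48 .nil))) (.b 32 (.b 8 (.l 40 .nil)))) (.I .jac (.c 4609 (.c 16 (.c 48 .nil))) (.b 32 (.b 8 (.l 40 .nil)))))) (.node (.node (.I .tdb (.c 0 (.c 48 (.c 16 (.c 32 .nil)))) (.b 24 (.t 8 40 .nil))) (.I .tdb (.c 0 (.c 32 (.c 16 (.c 48 .nil)))) (.b 24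 (.t 8 40 .nil)))) (.node (.I .com (.c 651606621363107786267057026226057 (.c 40 .nil)) (.l 8 .nil)) (.I .jac (.c 8193 (.c 16 (.c 48 .nil))) (.b 24 (.l 40 (.l 8 .nil))))))) (.node (.node (.node (.I .jac (.c 8193 (.c 4737 (.c 48 .nil))) (.l 40 (.l 8 .nil))) (.I .com (.c 42576913200413542961749526065342513929 (.c 40 .nil)) (.l 8 .nil))) (.node (.I .com (.c 42576892903125868487846022299823817545 (.c 40 .nil)) (.l 8 .nil)) (.I .com (.c 27951055785643122908012690443949941766921 (.c 40 .nil)) (.l 8 .nil)))) (.node (.node (.I .com (.c 27951055785643122786957318255255806178185 (.c 40 .nil)) (.l 8 .nil)) (.I .com (.c 427058636821845956378289793772237705 (.c 40 .nil)) (.l 8 .nil))) (.node (.I .jac (.c 537002185 (.c 16 (.c 48 .nil))) (.b 8 (.b 40 .nil))) (.I .adp (.c 24 (.c 48 (.c 32 .nil))) (.b 2049 (.l 12865 .nil))))))) (.node (.node (.node (.node (.I .adp (.c 24 (.c 48 (.c 16 .nil))) (.b 8193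 (.l 12865 .nil))) (.I .com (.c 18561 (.c 24 .nil)) (.b 8193 (.l 12865 .nil)))) (.node (.I .adp (.c 24 (.c 48 (.c 0 .nil))) (.b 8321 (.l 12865 .nil))) (.I .com (.c 18433 (.c 24 .nil)) (.b 8321 (.l 12865 .nil))))) (.node (.node (.I .tdb (.c 0 (.c 48 (.c 16 (.c 24 .nil)))) (.b 32 (.t 8 40 .nil))) (.I .jac (.c 0 (.c 16 (.c 48 .nil))) (.b 8385 (.l 12865 .nil)))) (.node (.I .jac (.c 0 (.c 16 (.c 48 .nil))) (.b 8385 (.b 40 (.b 8 .nil)))) (.I .com (.c 27951053153217538953647197609480317336393 (.c 40 .nil)) (.l 8 .nil))))) (.node (.node (.node (.I .com (.c 27951053153217538893119514365376803559305 (.c 40 .nil)) (.l 8 .nil)) (.I .jac (.c 2718204041 (.c 24 (.c 32 .nil))) (.b 8 (.b 40 .nil)))) (.node (.I .adp (.c 0 (.c 48 (.c 32 .nil))) (.b 4737 (.l 12865 .nil))) (.I .adp (.c 0 (.c 48 (.c 24 .nil))) (.b 8321 (.l 12865 .nil))))) (.node (.node (.I .adp (.c 0 (.c 48 (.c 16 .nil))) (.b 8385 (.l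 12865 .nil))) (.I .jac (.c 18433 (.c 16 (.c 32 .nil))) (.b 24 (.l 40 (.l 8 .nil))))) (.node (.I .jac (.c 18433 (.c 4737 (.c 32 .nil))) (.l 40 (.l 8 .nil))) (.I .jac (.c 18433 (.c 16 (.c 24 .nil))) (.b 32 (.l 40 (.l 8 .nil))))))))) (.node (.node (.node (.node (.node (.I .jac (.c 18433 (.c 8321 (.c 24 .nil))) (.b 8 (.b 40 .nil))) (.I .jac (.c 18433 (.c 16 (.c 32 .nil))) (.b 24 (.b 8 (.b 40 .nil))))) (.node (.I .jac (.c 18433 (.c 16 (.c 24 .nil))) (.b 32 (.b 8 (.l 40 .nil)))) (.I .adp (.c 24 (.c 32 (.c 48 .nil))) (.b 2049 (.l 12865 .nil))))) (.node (.node (.I .adp (.c 24 (.c 32 (.c 0 .nil))) (.b 18561 (.l 12865 .nil))) (.I .com (.c 8193 (.c 24 .nil)) (.b 18561 (.l 12865 .nil)))) (.node (.I .com (.c 8321 (.c 24 .nil)) (.b 18433 (.l 12865 .nil))) (.I .adp (.c 24 (.c 32 (.c 16 .nil))) (.b 18433 (.l 12865 .nil)))))) (.node (.node (.node (.I .jac (.c 0 (.c 16 (.c 32 .nil))) (.b 18625 (.b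 40 (.b 8 .nil)))) (.I .jac (.c 0 (.c 16 (.c 32 .nil))) (.b 18625 (.b 8 (.b 40 .nil))))) (.node (.I .adp (.c 2049 (.c 32 (.c 18625 .nil))) (.l 12865 .nil)) (.I .adp (.c 0 (.c 32 (.c 48 .nil))) (.b 4737 (.l 12865 .nil))))) (.node (.node (.I .adp (.c 0 (.c 8321 (.c 18625 .nil))) (.l 12865 .nil)) (.I .jac (.c 0 (.c 24 (.c 48 .nil))) (.r 8321 (.l 12865 .nil)))) (.node (.I .adp (.c 0 (.c 32 (.c 16 .nil))) (.b 18625 (.l 12865 .nil))) (.I .adp (.c 0 (.c 32 (.c 24 .nil))) (.b 18561 (.l 12865 .nil))))))) (.node (.node (.node (.node (.I .jac (.c 0 (.c 16 (.c 24 .nil))) (.b 18689 (.l 40 (.l 8 .nil)))) (.I .jac (.c 169943177 (.c 32 (.c 48 .nil))) (.b 8 (.b 40 .nil)))) (.node (.I .jac (.c 33587401 (.c 32 (.c 48 .nil))) (.b 8 (.b 40 .nil))) (.I .jac (.c 33587401 (.c 32 (.c 48 .nil))) (.b 8 (.l 40 .nil))))) (.node (.node (.I .adp (.c 2049 (.c 24 (.c 18689 .nil))) (.l 12865 .nil)) (.I .jac (.c 2049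 (.c 32 (.c 48 .nil))) (.r 24 (.l 12865 .nil)))) (.node (.I .jac (.c 2803715 (.c 32 (.c 48 .nil))) (.b 8 (.b 40 .nil))) (.I .adp (.c 0 (.c 4737 (.c 18689 .nil))) (.l 12865 .nil))))) (.node (.node (.node (.I .jac (.c 0 (.c 32 (.c 48 .nil))) (.r 4737 (.l 12865 .nil))) (.I .adp (.c 0 (.c 24 (.c 16 .nil))) (.b 18689 (.l 12865 .nil)))) (.node (.I .adp (.c 0 (.c 24 (.c 48 .nil))) (.b 8321 (.l 12865 .nil))) (.I .adp (.c 0 (.c 24 (.c 32 .nil))) (.b 18561 (.l 12865 .nil))))) (.node (.node (.I .jac (.c 4737 (.c 32 (.c 48 .nil))) (.l 40 (.l 513 .nil))) (.I .jac (.c 8321 (.c 24 (.c 48 .nil))) (.l 40 (.l 513 .nil)))) (.node (.I .jac (.c 18561 (.c 24 (.c 32 .nil))) (.l 40 (.l 513 .nil))) (.I .jac (.c 4609 (.c 8 (.c 48 .nil))) (.b 32 (.l 12929 .nil)))))))))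

noncomputable def c2_385 : Tr := (.node (.node (.node (.node (.node (.node (.I .com (.c 427058636821846429560832352193444553 (.c 12929 .nil)) .nil) (.I .com (.c 427057350195049030035896088956977865 (.c 12929 .nil)) .nil)) (.node (.I .jac (.c 2718204169 (.c 8 (.c 24 .nil))) (.l 12929 .nil)) (.I .com (.c 42576974092320101918705356412332005065 (.c 12929 .nil)) .nil))) (.node (.node (.I .jac (.c 2105737 (.c 24 (.c 32 .nil))) (.l 40 (.l 16 .nil))) (.I .jac (.c 2105609 (.c 24 (.c 48 .nil))) (.l 40 (.l 16 .nil)))) (.node (.I .jac (.c 513 (.c 24 (.c 48 .nil))) (.b 32 (.l 40 (.l 16 .nil)))) (.I .jac (.c 513 (.c 24 (.c 32 .nil))) (.b 48 (.l 40 (.l 16 .nil))))))) (.node (.node (.node (.I .jac (.c 169943433 (.c 8 (.c 32 .nil))) (.l 40 (.l 16 .nil))) (.I .jac (.c 169943305 (.c 8 (.c 48 .nil))) (.l 40 (.l 16 .nil)))) (.node (.I .jac (.c 4609 (.c 8 (.c 48 .nil))) (.b 32 (.l 40 (.l 16 .nil))))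 (.I .jac (.c 4609 (.c 8 (.c 32 .nil))) (.b 48 (.l 40 (.l 16 .nil)))))) (.node (.node (.I .com (.c 27951058418068892742902176168037983934153 (.c 40 .nil)) (.l 16 .nil)) (.I .com (.c 42576974092320101918705356412332005065 (.c 40 .nil)) (.l 16 .nil))) (.node (.I .com (.c 27951058418068892621846798278856606158665 (.c 40 .nil)) (.l 16 .nil)) (.I .com (.c 42576974092320097194025833638928027465 (.c 40 .nil)) (.l 16 .nil)))))) (.node (.node (.node (.node (.I .jac (.c 513 (.c 24 (.c 32 .nil))) (.b 48 (.b 16 (.b 40 .nil)))) (.I .jac (.c 2105737 (.c 24 (.c 32 .nil))) (.b 16 (.l 40 .nil)))) (.node (.I .jac (.c 2105609 (.c 24 (.c 48 .nil))) (.b 16 (.l 40 .nil))) (.I .jac (.c 513 (.c 24 (.c 48 .nil))) (.b 32 (.b 16 (.l 40 .nil)))))) (.node (.node (.I .jac (.c 513 (.c 24 (.c 32 .nil))) (.b 48 (.b 16 (.l 40 .nil)))) (.I .tdb (.c 0 (.c 24 (.c 48 (.c 8257 .nil)))) (.l 12929 .nil))) (.node (.I .tdb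 (.c 8 (.c 32 (.c 0 (.c 48 .nil)))) (.b 24 (.l 12929 .nil))) (.I .tdb (.c 8 (.c 32 (.c 24 (.c 48 .nil)))) (.b 0 (.l 12929 .nil)))))) (.node (.node (.node (.I .jac (.c 4609 (.c 8 (.c 32 .nil))) (.r 48 (.l 12929 .nil))) (.I .tdb (.c 8 (.c 24 (.c 48 (.c 8193 .nil)))) (.l 12929 .nil))) (.node (.I .jac (.c 8193 (.c 8 (.c 24 .nil))) (.r 48 (.l 12929 .nil))) (.I .adp (.c 18433 (.c 32 (.c 4673 .nil))) (.l 12929 .nil)))) (.node (.node (.I .adp (.c 8193 (.c 48 (.c 4673 .nil))) (.l 12929 .nil)) (.I .jac (.c 43655171 (.c 8 (.c 24 .nil))) (.t 16 40 .nil))) (.node (.I .tdb (.c 0 (.c 48 (.c 8 (.c 32 .nil)))) (.b 24 (.t 16 40 .nil))) (.I .tdb (.c 0 (.c 48 (.c 24 (.c 32 .nil)))) (.b 8 (.t 16 40 .nil)))))))) (.node (.node (.node (.node (.node (.I .tdb (.c 0 (.c 32 (.c 24 (.c 48 .nil)))) (.b 8 (.t 16 40 .nil))) (.I .jac (.c 8193 (.c 8 (.c 48 .nil))) (.b 24 (.l 12929 .nil)))) (.node (.I .jac (.c 8193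 (.c 4673 (.c 48 .nil))) (.l 12929 .nil)) (.I .jac (.c 8193 (.c 8 (.c 24 .nil))) (.b 48 (.l 12929 .nil))))) (.node (.node (.I .com (.c 42576913200413542961749526065342513865 (.c 12929 .nil)) .nil) (.I .jac (.c 2718204105 (.c 8 (.c 32 .nil))) (.l 12929 .nil))) (.node (.I .jac (.c 8193 (.c 8 (.c 48 .nil))) (.b 24 (.l 40 (.l 16 .nil)))) (.I .jac (.c 8193 (.c 8 (.c 24 .nil))) (.b 48 (.l 40 (.l 16 .nil))))))) (.node (.node (.node (.I .com (.c 42576913200413542961749526065342513865 (.c 40 .nil)) (.l 16 .nil)) (.I .com (.c 42576872605845451114770277207992337225 (.c 40 .nil)) (.l 16 .nil))) (.node (.I .com (.c 42576872605845444027759439362436274185 (.c 40 .nil)) (.l 16 .nil)) (.I .com (.c 27951055785643122908012690443949941766857 (.c 40 .nil)) (.l 16 .nil)))) (.node (.node (.I .com (.c 27951055785643122726429632160908738482057 (.c 40 .nil)) (.l 16 .nil)) (.I .jac (.c 8193 (.c 8 (.c 48 .nil)))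 (.r 24 (.l 12929 .nil)))) (.node (.I .jac (.c 18433 (.c 8 (.c 32 .nil))) (.r 24 (.l 12929 .nil))) (.I .adp (.c 4609 (.c 48 (.c 8257 .nil))) (.l 12929 .nil)))))) (.node (.node (.node (.node (.I .jac (.c 43356675 (.c 8 (.c 32 .nil))) (.t 16 40 .nil)) (.I .tdb (.c 0 (.c 48 (.c 8 (.c 24 .nil)))) (.b 32 (.t 16 40 .nil)))) (.node (.I .jac (.c 0 (.c 8 (.c 48 .nil))) (.b 8385 (.b 40 (.b 16 .nil)))) (.I .com (.c 42576913200413531150059165447389106185 (.c 40 .nil)) (.l 16 .nil)))) (.node (.node (.I .com (.c 27951050520792140940324630661021757881161 (.c 40 .nil)) (.l 16 .nil)) (.I .com (.c 27951050520792140879796950267161731045257 (.c 40 .nil)) (.l 16 .nil))) (.node (.I .adp (.c 0 (.c 48 (.c 32 .nil))) (.b 4673 (.l 12929 .nil))) (.I .jac (.c 0 (.c 8 (.c 32 .nil))) (.r 18625 (.l 12929 .nil)))))) (.node (.node (.node (.I .adp (.c 0 (.c 18625 (.c 8257 .nil))) (.l 12929 .nil)) (.I .adp (.c 0 (.c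 48 (.c 24 .nil))) (.b 8257 (.l 12929 .nil)))) (.node (.I .adp (.c 0 (.c 48 (.c 8 .nil))) (.b 8385 (.l 12929 .nil))) (.I .jac (.c 18433 (.c 8257 (.c 24 .nil))) (.l 12929 .nil)))) (.node (.node (.I .jac (.c 18433 (.c 4673 (.c 32 .nil))) (.l 12929 .nil)) (.I .jac (.c 18433 (.c 8 (.c 32 .nil))) (.b 24 (.l 40 (.l 16 .nil))))) (.node (.I .jac (.c 18433 (.c 8 (.c 24 .nil))) (.b 32 (.l 40 (.l 16 .nil)))) (.I .adp (.c 24 (.c 32 (.c 48 .nil))) (.b 513 (.l 12929 .nil)))))))))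

noncomputable def c2_386 : Tr := (.node (.node (.node (.node (.node (.node (.I .adp (.c 8193 (.c 24 (.c 18497 .nil))) (.l 12929 .nil)) (.I .adp (.c 24 (.c 32 (.c 0 .nil))) (.b 18497 (.l 12929 .nil)))) (.node (.I .com (.c 8193 (.c 24 .nil)) (.b 18497 (.l 12929 .nil))) (.I .com (.c 2718204105 (.c 8257 .nil)) (.l 12929 .nil)))) (.node (.node (.I .com (.c 2718204169 (.c 4673 .nil)) (.l 12929 .nil)) (.I .adp (.c 8257 (.c 24 (.c 18433 .nil))) (.l 12929 .nil))) (.node (.I .adp (.c 4673 (.c 32 (.c 18433 .nil))) (.l 12929 .nil)) (.I .com (.c 8257 (.c 24 .nil)) (.b 18433 (.l 12929 .nil)))))) (.node (.node (.node (.I .adp (.c 24 (.c 32 (.c 8 .nil))) (.b 18433 (.l 12929 .nil))) (.I .jac (.c 0 (.c 8 (.c 32 .nil))) (.b 18625 (.b 40 (.l 16 .nil))))) (.node (.I .jac (.c 537002057 (.c 24 (.c 48 .nil))) (.b 16 (.l 40 .nil))) (.I .adp (.c 513 (.c 32 (.c 18625 .nil))) (.l 12929 .nil)))) (.node (.node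 (.I .adp (.c 0 (.c 32 (.c 48 .nil))) (.b 4673 (.l 12929 .nil))) (.I .adp (.c 0 (.c 8257 (.c 18625 .nil))) (.l 12929 .nil))) (.node (.I .jac (.c 0 (.c 24 (.c 48 .nil))) (.r 8257 (.l 12929 .nil))) (.I .adp (.c 0 (.c 32 (.c 8 .nil))) (.b 18625 (.l 12929 .nil))))))) (.node (.node (.node (.node (.I .jac (.c 0 (.c 8 (.c 48 .nil))) (.r 8385 (.l 12929 .nil))) (.I .adp (.c 0 (.c 8385 (.c 18497 .nil))) (.l 12929 .nil))) (.node (.I .adp (.c 0 (.c 32 (.c 24 .nil))) (.b 18497 (.l 12929 .nil))) (.I .jac (.c 0 (.c 8 (.c 24 .nil))) (.b 18689 (.l 12929 .nil))))) (.node (.node (.I .jac (.c 0 (.c 8 (.c 24 .nil))) (.b 18689 (.b 40 (.l 16 .nil)))) (.I .jac (.c 169943113 (.c 32 (.c 48 .nil))) (.l 40 (.l 16 .nil)))) (.node (.I .jac (.c 2105545 (.c 32 (.c 48 .nil))) (.l 40 (.l 16 .nil))) (.I .jac (.c 169943113 (.c 32 (.c 48 .nil))) (.b 16 (.b 40 .nil)))))) (.node (.node (.node (.I .jac (.c 2105545 (.c 32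 (.c 48 .nil))) (.b 16 (.b 40 .nil))) (.I .jac (.c 0 (.c 8 (.c 24 .nil))) (.b 18689 (.b 16 (.b 40 .nil))))) (.node (.I .jac (.c 169943113 (.c 32 (.c 48 .nil))) (.b 16 (.l 40 .nil))) (.I .jac (.c 2105545 (.c 32 (.c 48 .nil))) (.b 16 (.l 40 .nil))))) (.node (.node (.I .jac (.c 4673 (.c 32 (.c 48 .nil))) (.b 16 (.l 12801 .nil))) (.I .jac (.c 8257 (.c 24 (.c 48 .nil))) (.b 16 (.l 12801 .nil)))) (.node (.I .jac (.c 18497 (.c 24 (.c 32 .nil))) (.b 16 (.l 12801 .nil))) (.I .jac (.c 4673 (.c 32 (.c 48 .nil))) (.b 16 (.b 40 (.l 0 .nil))))))))) (.node (.node (.node (.node (.node (.I .jac (.c 8257 (.c 24 (.c 48 .nil))) (.b 16 (.b 40 (.l 0 .nil)))) (.I .jac (.c 18497 (.c 24 (.c 32 .nil))) (.b 16 (.b 40 (.l 0 .nil))))) (.node (.I .jac (.c 4609 (.c 32 (.c 48 .nil))) (.b 20891715 .nil)) (.I .jac (.c 4609 (.c 32 (.c 48 .nil))) (.b 16 (.b 40 (.b 8 .nil)))))) (.node (.node (.I .jac (.c 8193 (.c 24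 (.c 48 .nil))) (.b 16 (.b 40 (.b 8 .nil)))) (.I .jac (.c 18433 (.c 24 (.c 32 .nil))) (.b 16 (.b 40 (.b 8 .nil))))) (.node (.I .jac (.c 4609 (.c 32 (.c 48 .nil))) (.b 16 (.l 40 (.l 8 .nil)))) (.I .jac (.c 8193 (.c 24 (.c 48 .nil))) (.b 16 (.l 40 (.l 8 .nil))))))) (.node (.node (.node (.I .jac (.c 18433 (.c 24 (.c 32 .nil))) (.b 16 (.l 40 (.l 8 .nil)))) (.I .jac (.c 4609 (.c 32 (.c 48 .nil))) (.b 16 (.b 8 (.l 40 .nil))))) (.node (.I .jac (.c 8193 (.c 24 (.c 48 .nil))) (.b 16 (.b 8 (.l 40 .nil)))) (.I .jac (.c 18433 (.c 24 (.c 32 .nil))) (.b 16 (.b 8 (.l 40 .nil)))))) (.node (.node (.I .jac (.c 4609 (.c 32 (.c 48 .nil))) (.b 8 (.l 12929 .nil))) (.I .jac (.c 8193 (.c 24 (.c 48 .nil))) (.b 8 (.l 12929 .nil)))) (.node (.I .jac (.c 18433 (.c 24 (.c 32 .nil))) (.b 8 (.l 12929 .nil))) (.I .jac (.c 4609 (.c 32 (.c 48 .nil))) (.b 8 (.b 40 (.b 16 .nil)))))))) (.node (.node (.node (.node (.I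 .jac (.c 8193 (.c 24 (.c 48 .nil))) (.b 8 (.b 40 (.b 16 .nil)))) (.I .jac (.c 18433 (.c 24 (.c 32 .nil))) (.b 8 (.b 40 (.b 16 .nil))))) (.node (.I .jac (.c 4609 (.c 32 (.c 48 .nil))) (.b 8 (.l 40 (.l 16 .nil)))) (.I .jac (.c 8193 (.c 24 (.c 48 .nil))) (.b 8 (.l 40 (.l 16 .nil)))))) (.node (.node (.I .jac (.c 18433 (.c 24 (.c 32 .nil))) (.b 8 (.l 40 (.l 16 .nil)))) (.I .jac (.c 4609 (.c 32 (.c 48 .nil))) (.b 8 (.b 16 (.b 40 .nil))))) (.node (.I .jac (.c 8193 (.c 24 (.c 48 .nil))) (.b 8 (.b 16 (.b 40 .nil)))) (.I .jac (.c 18433 (.c 24 (.c 32 .nil))) (.b 8 (.b 16 (.b 40 .nil))))))) (.node (.node (.node (.I .jac (.c 513 (.c 16 (.c 48 .nil))) (.b 32 (.l 12993 .nil))) (.I .jac (.c 513 (.c 16 (.c 32 .nil))) (.b 48 (.l 12993 .nil)))) (.node (.I .com (.c 10066684875741109290467687177 (.c 12993 .nil)) .nil) (.I .com (.c 10064237432128545199748236041 (.c 12993 .nil)) .nil))) (.node (.node (.I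 .jac (.c 33587465 (.c 8 (.c 48 .nil))) (.l 12993 .nil)) (.I .jac (.c 2049 (.c 18497 (.c 32 .nil))) (.l 12993 .nil))) (.node (.I .jac (.c 2049 (.c 8 (.c 32 .nil))) (.b 48 (.l 12993 .nil))) (.I .com (.c 651606621363117027878554774108873 (.c 12993 .nil)) .nil)))))))

noncomputable def c2_387 : Tr := (.node (.node (.node (.node (.node (.node (.I .jac (.c 2718204169 (.c 8 (.c 16 .nil))) (.l 12993 .nil)) (.I .jac (.c 537002377 (.c 8 (.c 16 .nil))) (.l 12993 .nil))) (.node (.I .jac (.c 537002377 (.c 8 (.c 16 .nil))) (.l 40 (.l 24 .nil))) (.I .com (.c 42576974092320099556365595025629983433 (.c 40 .nil)) (.l 24 .nil)))) (.node (.node (.I .com (.c 42576974092320097194025833638928027401 (.c 40 .nil)) (.l 24 .nil)) (.I .tdb (.c 0 (.c 8 (.c 48 (.c 8321 .nil)))) (.l 12993 .nil))) (.node (.I .tdb (.c 16 (.c 32 (.c 0 (.c 48 .nil)))) (.b 8 (.l 12993 .nil))) (.I .tdb (.c 16 (.c 32 (.c 8 (.c 48 .nil))))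 (.b 0 (.l 12993 .nil)))))) (.node (.node (.node (.I .adp (.c 18561 (.c 32 (.c 513 .nil))) (.l 12993 .nil)) (.I .com (.c 2105609 (.c 18561 .nil)) (.l 12993 .nil))) (.node (.I .jac (.c 513 (.c 16 (.c 32 .nil))) (.r 48 (.l 12993 .nil))) (.I .tdb (.c 0 (.c 16 (.c 48 (.c 8257 .nil)))) (.l 12993 .nil)))) (.node (.node (.I .tdb (.c 8 (.c 32 (.c 0 (.c 48 .nil)))) (.b 16 (.l 12993 .nil))) (.I .tdb (.c 8 (.c 32 (.c 16 (.c 48 .nil)))) (.b 0 (.l 12993 .nil)))) (.node (.I .jac (.c 2049 (.c 8 (.c 32 .nil))) (.r 48 (.l 12993 .nil))) (.I .tdb (.c 0 (.c 32 (.c 8 (.c 48 .nil)))) (.b 16 (.l 12993 .nil))))))) (.node (.node (.node (.node (.I .tdb (.c 8 (.c 16 (.c 48 (.c 8193 .nil)))) (.l 12993 .nil)) (.I .jac (.c 8193 (.c 8 (.c 16 .nil))) (.r 48 (.l 12993 .nil)))) (.node (.I .adp (.c 18433 (.c 32 (.c 2113 .nil))) (.l 12993 .nil)) (.I .adp (.c 8193 (.c 48 (.c 2113 .nil))) (.l 12993 .nil)))) (.node (.node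 (.I .jac (.c 0 (.c 8652867 (.c 48 .nil))) (.t 24 40 .nil)) (.I .com (.c 35468714087177 (.c 43954883 .nil)) .nil)) (.node (.I .com (.c 9024942441009865 (.c 43954883 .nil)) .nil) (.I .tdb (.c 0 (.c 48 (.c 16 (.c 32 .nil)))) (.b 8 (.t 24 40 .nil)))))) (.node (.node (.node (.I .tdb (.c 0 (.c 32 (.c 8 (.c 48 .nil)))) (.b 16 (.t 24 40 .nil))) (.I .com (.c 2306970223667989193 (.c 43954883 .nil)) .nil)) (.node (.I .com (.c 2306969673777850121 (.c 43954883 .nil)) .nil) (.I .jac (.c 537002121 (.c 8 (.c 48 .nil))) (.l 12993 .nil)))) (.node (.node (.I .jac (.c 8193 (.c 18497 (.c 16 .nil))) (.l 12993 .nil)) (.I .jac (.c 8193 (.c 8 (.c 48 .nil))) (.b 16 (.l 12993 .nil)))) (.node (.I .jac (.c 8193 (.c 8 (.c 16 .nil))) (.b 48 (.l 12993 .nil))) (.I .com (.c 27951053153217538953647197609480317336265 (.c 12993 .nil)) .nil)))))) (.node (.node (.node (.node (.node (.I .jac (.c 537002121 (.c 8 (.c 48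 .nil))) (.l 40 (.l 24 .nil))) (.I .com (.c 42576892903125868487846022299823817417 (.c 40 .nil)) (.l 24 .nil))) (.node (.I .com (.c 42576872605845451114770277207992337161 (.c 40 .nil)) (.l 24 .nil)) (.I .com (.c 42576872605845441665422493413917717513 (.c 40 .nil)) (.l 24 .nil)))) (.node (.node (.I .adp (.c 16 (.c 18689 (.c 513 .nil))) (.l 12993 .nil)) (.I .jac (.c 513 (.c 32 (.c 48 .nil))) (.l 16 (.l 12993 .nil)))) (.node (.I .com (.c 35473026505609 (.c 16 .nil)) (.l 12993 .nil)) (.I .com (.c 35468714087433 (.c 16 .nil)) (.l 12993 .nil))))) (.node (.node (.node (.I .ass (.c 12993 (.c 35468714087433 (.c 16 .nil))) .nil) (.I .com (.c 12993 (.c 35468714087433 .nil)) (.r 16 .nil))) (.node (.I .jac (.c 8193 (.c 8 (.c 48 .nil))) (.r 16 (.l 12993 .nil))) (.I .ass (.c 12993 (.c 2306972423229201097 (.c 16 .nil))) .nil))) (.node (.node (.I .com (.c 12993 (.c 2306972423229201097 .nil)) (.r 16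 .nil)) (.I .ass (.c 12993 (.c 2306969673777850377 (.c 16 .nil))) .nil)) (.node (.I .com (.c 12993 (.c 2306969673777850377 .nil)) (.r 16 .nil)) (.I .ass (.c 12993 (.c 537002121 (.c 18497 .nil))) .nil))))) (.node (.node (.node (.node (.I .ass (.c 537002121 (.c 12993 (.c 18497 .nil))) .nil) (.I .com (.c 12993 (.c 537002121 .nil)) (.r 18497 .nil))) (.node (.I .jac (.c 18433 (.c 8 (.c 32 .nil))) (.r 16 (.l 12993 .nil))) (.I .adp (.c 2049 (.c 48 (.c 8257 .nil))) (.l 12993 .nil)))) (.node (.node (.I .ass (.c 12993 (.c 59109071234951844553 (.c 16 .nil))) .nil) (.I .com (.c 12993 (.c 59109071234951844553 .nil)) (.r 16 .nil))) (.node (.I .ass (.c 12993 (.c 2049 (.c 545424777 .nil))) .nil) (.I .ass (.c 2049 (.c 12993 (.c 545424777 .nil))) .nil)))) (.node (.node (.node (.I .com (.c 12993 (.c 2049 .nil)) (.r 545424777 .nil)) (.I .jac (.c 2718203977 (.c 16 (.c 32 .nil))) (.l 12993 .nil))) (.node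 (.I .jac (.c 0 (.c 8 (.c 48 .nil))) (.b 8321 (.l 12993 .nil))) (.I .com (.c 42576892903125856676158477119718330377 (.c 40 .nil)) (.l 24 .nil)))) (.node (.node (.I .jac (.c 0 (.c 8 (.c 48 .nil))) (.b 8321 (.b 24 (.b 40 .nil)))) (.I .ass (.c 12993 (.c 537002057 (.c 18561 .nil))) .nil)) (.node (.I .ass (.c 537002057 (.c 12993 (.c 18561 .nil))) .nil) (.I .com (.c 12993 (.c 537002057 .nil)) (.r 18561 .nil))))))))

noncomputable def c2_388 : Tr := (.node (.node (.node (.node (.node (.node (.I .adp (.c 513 (.c 48 (.c 8321 .nil))) (.l 12993 .nil)) (.I .ass (.c 12993 (.c 513 (.c 553912713 .nil))) .nil)) (.node (.I .ass (.c 513 (.c 12993 (.c 553912713 .nil))) .nil) (.I .com (.c 12993 (.c 513 .nil)) (.r 553912713 .nil)))) (.node (.node (.I .adp (.c 0 (.c 48 (.c 32 .nil))) (.b 2113 (.l 12993 .nil))) (.I .jac (.c 0 (.c 8 (.c 32 .nil))) (.r 18561 (.l 12993 .nil)))) (.node (.I .adp (.c 0 (.c 18561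 (.c 8257 .nil))) (.l 12993 .nil)) (.I .adp (.c 0 (.c 48 (.c 16 .nil))) (.b 8257 (.l 12993 .nil)))))) (.node (.node (.node (.I .adp (.c 0 (.c 18497 (.c 8321 .nil))) (.l 12993 .nil)) (.I .jac (.c 0 (.c 16 (.c 32 .nil))) (.r 18497 (.l 12993 .nil)))) (.node (.I .adp (.c 0 (.c 48 (.c 8 .nil))) (.b 8321 (.l 12993 .nil))) (.I .jac (.c 18433 (.c 8257 (.c 16 .nil))) (.l 12993 .nil)))) (.node (.node (.I .jac (.c 18433 (.c 8 (.c 32 .nil))) (.b 16 (.l 12993 .nil))) (.I .jac (.c 18433 (.c 8 (.c 16 .nil))) (.b 32 (.l 12993 .nil)))) (.node (.I .adp (.c 16 (.c 32 (.c 48 .nil))) (.b 513 (.l 12993 .nil))) (.I .adp (.c 8193 (.c 16 (.c 18497 .nil))) (.l 12993 .nil)))))) (.node (.node (.node (.node (.I .adp (.c 16 (.c 32 (.c 0 .nil))) (.b 18497 (.l 12993 .nil))) (.I .com (.c 8193 (.c 16 .nil)) (.b 18497 (.l 12993 .nil)))) (.node (.I .com (.c 2718204041 (.c 8257 .nil)) (.l 12993 .nil)) (.I .com (.c 2718204169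 (.c 2113 .nil)) (.l 12993 .nil)))) (.node (.node (.I .adp (.c 8257 (.c 16 (.c 18433 .nil))) (.l 12993 .nil)) (.I .adp (.c 2113 (.c 32 (.c 18433 .nil))) (.l 12993 .nil))) (.node (.I .adp (.c 16 (.c 32 (.c 8 .nil))) (.b 18433 (.l 12993 .nil))) (.I .com (.c 8257 (.c 16 .nil)) (.b 18433 (.l 12993 .nil)))))) (.node (.node (.node (.I .jac (.c 537002057 (.c 16 (.c 48 .nil))) (.l 12993 .nil)) (.I .jac (.c 537002057 (.c 16 (.c 48 .nil))) (.l 40 (.l 24 .nil)))) (.node (.I .jac (.c 0 (.c 8 (.c 32 .nil))) (.b 18561 (.b 24 (.l 40 .nil)))) (.I .adp (.c 513 (.c 32 (.c 18561 .nil))) (.l 12993 .nil)))) (.node (.node (.I .adp (.c 0 (.c 32 (.c 48 .nil))) (.b 2113 (.l 12993 .nil))) (.I .adp (.c 0 (.c 8257 (.c 18561 .nil))) (.l 12993 .nil))) (.node (.I .jac (.c 0 (.c 16 (.c 48 .nil))) (.r 8257 (.l 12993 .nil))) (.I .adp (.c 0 (.c 32 (.c 8 .nil))) (.b 18561 (.l 12993 .nil)))))))) (.node (.node (.node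 (.node (.node (.I .jac (.c 0 (.c 8 (.c 48 .nil))) (.r 8321 (.l 12993 .nil))) (.I .adp (.c 0 (.c 8321 (.c 18497 .nil))) (.l 12993 .nil))) (.node (.I .adp (.c 0 (.c 32 (.c 16 .nil))) (.b 18497 (.l 12993 .nil))) (.I .jac (.c 0 (.c 8 (.c 16 .nil))) (.b 18689 (.b 40 (.b 24 .nil)))))) (.node (.node (.I .jac (.c 2105481 (.c 32 (.c 48 .nil))) (.b 24 (.b 40 .nil))) (.I .jac (.c 2105481 (.c 32 (.c 48 .nil))) (.b 24 (.l 40 .nil)))) (.node (.I .jac (.c 0 (.c 8 (.c 16 .nil))) (.b 18689 (.b 24 (.l 40 .nil)))) (.I .jac (.c 2049 (.c 32 (.c 48 .nil))) (.b 21099075 .nil))))) (.node (.node (.node (.I .jac (.c 2049 (.c 32 (.c 48 .nil))) (.b 24 (.b 40 (.b 8 .nil)))) (.I .jac (.c 2049 (.c 32 (.c 48 .nil))) (.b 24 (.l 40 (.l 8 .nil))))) (.node (.I .jac (.c 8193 (.c 16 (.c 48 .nil))) (.l 24 (.l 12865 .nil))) (.I .com (.c 2306972423229201161 (.c 24 .nil)) (.l 12865 .nil)))) (.node (.node (.I .jac (.c 18433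 (.c 16 (.c 32 .nil))) (.l 24 (.l 12865 .nil))) (.I .com (.c 59109071234951844617 (.c 24 .nil)) (.l 12865 .nil))) (.node (.I .jac (.c 2049 (.c 32 (.c 48 .nil))) (.b 8 (.l 12993 .nil))) (.I .jac (.c 8193 (.c 16 (.c 48 .nil))) (.b 8 (.l 12993 .nil))))))) (.node (.node (.node (.node (.I .jac (.c 18433 (.c 16 (.c 32 .nil))) (.b 8 (.l 12993 .nil))) (.I .jac (.c 2049 (.c 32 (.c 48 .nil))) (.b 8 (.b 40 (.b 24 .nil))))) (.node (.I .jac (.c 8193 (.c 16 (.c 48 .nil))) (.b 8 (.b 40 (.b 24 .nil)))) (.I .jac (.c 18433 (.c 16 (.c 32 .nil))) (.b 8 (.b 40 (.b 24 .nil)))))) (.node (.node (.I .jac (.c 8193 (.c 8 (.c 48 .nil))) (.l 1337272521 .nil)) (.I .com (.c 2306972423229201097 (.c 1337272521 .nil)) .nil)) (.node (.I .jac (.c 18433 (.c 8 (.c 32 .nil))) (.l 1337272521 .nil)) (.I .com (.c 59109071234951844553 (.c 1337272521 .nil)) .nil)))) (.node (.node (.node (.I .jac (.c 8193 (.c 8 (.c 48 .nil)))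 (.l 179513673 .nil)) (.I .com (.c 2306972423229201097 (.c 179513673 .nil)) .nil)) (.node (.I .jac (.c 18433 (.c 8 (.c 32 .nil))) (.l 179513673 .nil)) (.I .com (.c 59109071234951844553 (.c 179513673 .nil)) .nil))) (.node (.node (.I .jac (.c 513 (.c 32 (.c 48 .nil))) (.b 21099139 .nil)) (.I .jac (.c 513 (.c 32 (.c 48 .nil))) (.l 40 (.l 4737 .nil)))) (.node (.I .com (.c 35473026505609 (.c 40 .nil)) (.l 4737 .nil)) (.I .jac (.c 8193 (.c 8 (.c 48 .nil))) (.l 40 (.l 4737 .nil)))))))))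

noncomputable def c2_389 : Tr := (.node (.node (.node (.node (.node (.node (.I .com (.c 2306972423229201097 (.c 40 .nil)) (.l 4737 .nil)) (.I .jac (.c 18433 (.c 8 (.c 32 .nil))) (.l 40 (.l 4737 .nil)))) (.node (.I .com (.c 59109071234951844553 (.c 40 .nil)) (.l 4737 .nil)) (.I .com (.c 59109062884628932489 (.c 40 .nil)) (.l 4737 .nil)))) (.node (.node (.I .jac (.c 513 (.c 32 (.c 48 .nil))) (.b 24 (.l 12929 .nil))) (.I .jac (.c 513 (.c 32 (.c 48 .nil))) (.b 24 (.l 40 (.l 16 .nil))))) (.node (.I .jac (.c 513 (.c 32 (.c 48 .nil))) (.b 24 (.b 16 (.b 40 .nil)))) (.I .jac (.c 8193 (.c 8 (.c 48 .nil))) (.l 24 (.l 12929 .nil)))))) (.node (.node (.node (.I .com (.c 2306972423229201097 (.c 24 .nil)) (.l 12929 .nil)) (.I .jac (.c 18433 (.c 8 (.c 32 .nil))) (.l 24 (.l 12929 .nil)))) (.node (.I .com (.c 59109071234951844553 (.c 24 .nil)) (.l 12929 .nil)) (.I .jac (.c 513 (.c 32 (.c 48 .nil)))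 (.b 16 (.b 24 (.l 40 .nil)))))) (.node (.node (.I .jac (.c 2105737 (.c 16 (.c 24 .nil))) (.l 13057 .nil)) (.I .jac (.c 2105545 (.c 16 (.c 48 .nil))) (.l 13057 .nil))) (.node (.I .jac (.c 513 (.c 18561 (.c 24 .nil))) (.l 13057 .nil)) (.I .jac (.c 513 (.c 16 (.c 48 .nil))) (.b 24 (.l 13057 .nil))))))) (.node (.node (.node (.node (.I .com (.c 10066684875704784911325976329 (.c 13057 .nil)) .nil) (.I .com (.c 10063013877651720715266097929 (.c 13057 .nil)) .nil)) (.node (.I .com (.c 10061790434743040737723204425 (.c 13057 .nil)) .nil) (.I .jac (.c 33587593 (.c 8 (.c 24 .nil))) (.l 13057 .nil)))) (.node (.node (.I .jac (.c 33587401 (.c 8 (.c 48 .nil))) (.l 13057 .nil)) (.I .jac (.c 2049 (.c 18497 (.c 24 .nil))) (.l 13057 .nil))) (.node (.I .jac (.c 2049 (.c 8 (.c 48 .nil))) (.b 24 (.l 13057 .nil))) (.I .jac (.c 2049 (.c 4673 (.c 48 .nil))) (.l 13057 .nil))))) (.node (.node (.node (.I .jac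 (.c 2049 (.c 8 (.c 24 .nil))) (.b 48 (.l 13057 .nil))) (.I .com (.c 651606621363107786267057026225865 (.c 13057 .nil)) .nil)) (.node (.I .com (.c 651591722123579838450590277894857 (.c 13057 .nil)) .nil) (.I .com (.c 651581789439159100050097116709705 (.c 13057 .nil)) .nil))) (.node (.node (.I .jac (.c 2718204105 (.c 8 (.c 16 .nil))) (.l 13057 .nil)) (.I .jac (.c 169943433 (.c 8 (.c 16 .nil))) (.l 13057 .nil))) (.node (.I .com (.c 27951055785643122786957318255255806177993 (.c 13057 .nil)) .nil) (.I .com (.c 427058636821845956378289793772237513 (.c 13057 .nil)) .nil)))))) (.node (.node (.node (.node (.node (.I .com (.c 27951055785643122726429632160908738481929 (.c 13057 .nil)) .nil) (.I .tdb (.c 0 (.c 8 (.c 4737 (.c 48 .nil)))) (.l 13057 .nil))) (.node (.I .tdb (.c 16 (.c 24 (.c 48 (.c 0 .nil)))) (.b 8 (.l 13057 .nil))) (.I .tdb (.c 16 (.c 24 (.c 48 (.c 8 .nil)))) (.b 0 (.l 13057 .nil)))))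 (.node (.node (.I .jac (.c 513 (.c 16 (.c 48 .nil))) (.r 24 (.l 13057 .nil))) (.I .jac (.c 513 (.c 16 (.c 24 .nil))) (.r 48 (.l 13057 .nil)))) (.node (.I .adp (.c 24 (.c 48 (.c 16 .nil))) (.b 513 (.l 13057 .nil))) (.I .com (.c 18561 (.c 24 .nil)) (.b 513 (.l 13057 .nil)))))) (.node (.node (.node (.I .ass (.c 13057 (.c 35473026505481 (.c 24 .nil))) .nil) (.I .com (.c 13057 (.c 35473026505481 .nil)) (.r 24 .nil))) (.node (.I .ass (.c 13057 (.c 35464401931273 (.c 24 .nil))) .nil) (.I .com (.c 13057 (.c 35464401931273 .nil)) (.r 24 .nil)))) (.node (.node (.I .tdb (.c 0 (.c 16 (.c 4673 (.c 48 .nil)))) (.l 13057 .nil)) (.I .tdb (.c 8 (.c 24 (.c 48 (.c 0 .nil)))) (.b 16 (.l 13057 .nil)))) (.node (.I .tdb (.c 8 (.c 24 (.c 48 (.c 16 .nil)))) (.b 0 (.l 13057 .nil))) (.I .jac (.c 2049 (.c 8 (.c 48 .nil))) (.r 24 (.l 13057 .nil))))))) (.node (.node (.node (.node (.I .com (.c 33587401 (.c 18497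 .nil)) (.l 13057 .nil)) (.I .jac (.c 2049 (.c 8 (.c 24 .nil))) (.r 48 (.l 13057 .nil)))) (.node (.I .com (.c 33587593 (.c 4673 .nil)) (.l 13057 .nil)) (.I .adp (.c 18497 (.c 24 (.c 2049 .nil))) (.l 13057 .nil)))) (.node (.node (.I .adp (.c 4673 (.c 48 (.c 2049 .nil))) (.l 13057 .nil)) (.I .adp (.c 24 (.c 48 (.c 8 .nil))) (.b 2049 (.l 13057 .nil)))) (.node (.I .com (.c 18497 (.c 24 .nil)) (.b 2049 (.l 13057 .nil))) (.I .ass (.c 13057 (.c 9025011228269257 (.c 24 .nil))) .nil)))) (.node (.node (.node (.I .com (.c 13057 (.c 9025011228269257 .nil)) (.r 24 .nil)) (.I .ass (.c 13057 (.c 9024839260612617 (.c 24 .nil))) .nil)) (.node (.I .com (.c 13057 (.c 9024839260612617 .nil)) (.r 24 .nil)) (.I .tdb (.c 0 (.c 24 (.c 2113 (.c 48 .nil)))) (.l 13057 .nil)))) (.node (.node (.I .tdb (.c 8 (.c 16 (.c 48 (.c 0 .nil)))) (.b 24 (.l 13057 .nil))) (.I .tdb (.c 8 (.c 16 (.c 48 (.c 24 .nil)))) (.b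 0 (.l 13057 .nil)))) (.node (.I .jac (.c 18433 (.c 8 (.c 16 .nil))) (.r 24 (.l 13057 .nil))) (.I .jac (.c 4609 (.c 8 (.c 16 .nil))) (.r 48 (.l 13057 .nil)))))))))

noncomputable def c2_390 : Tr := (.node (.node (.node (.node (.node (.node (.I .adp (.c 24 (.c 48 (.c 0 .nil))) (.b 2113 (.l 13057 .nil))) (.I .com (.c 18433 (.c 24 .nil)) (.b 2113 (.l 13057 .nil)))) (.node (.I .ass (.c 13057 (.c 59109065668069837513 (.c 24 .nil))) .nil) (.I .com (.c 13057 (.c 59109065668069837513 .nil)) (.r 24 .nil)))) (.node (.node (.I .ass (.c 13057 (.c 59109062884628932361 (.c 24 .nil))) .nil) (.I .com (.c 13057 (.c 59109062884628932361 .nil)) (.r 24 .nil))) (.node (.I .jac (.c 0 (.c 2803779 (.c 48 .nil))) (.t 32 40 .nil)) (.I .com (.c 35466557976329 (.c 43954947 .nil)) .nil)))) (.node (.node (.node (.I .com (.c 35464401931081 (.c 43954947 .nil)) .nil) (.I .com (.c 9024908047478473 (.c 43954947 .nil))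 .nil)) (.node (.I .com (.c 9024839260612425 (.c 43954947 .nil)) .nil) (.I .tdb (.c 0 (.c 48 (.c 16 (.c 24 .nil)))) (.b 8 (.t 32 40 .nil))))) (.node (.node (.I .com (.c 231045467270826697 (.c 43954947 .nil)) .nil) (.I .com (.c 231045293249046281 (.c 43954947 .nil)) .nil)) (.node (.I .jac (.c 4609 (.c 18497 (.c 16 .nil))) (.l 13057 .nil)) (.I .jac (.c 4609 (.c 8 (.c 48 .nil))) (.b 16 (.l 13057 .nil))))))) (.node (.node (.node (.node (.I .jac (.c 4609 (.c 2113 (.c 48 .nil))) (.l 13057 .nil)) (.I .jac (.c 4609 (.c 8 (.c 16 .nil))) (.b 48 (.l 13057 .nil)))) (.node (.I .com (.c 427055420260303274284998876733539081 (.c 13057 .nil)) .nil) (.I .com (.c 27951053153217538772064147877169776201545 (.c 13057 .nil)) .nil))) (.node (.node (.I .adp (.c 16 (.c 48 (.c 24 .nil))) (.b 513 (.l 13057 .nil))) (.I .ass (.c 13057 (.c 35473026505545 (.c 16 .nil))) .nil)) (.node (.I .com (.c 13057 (.c 35473026505545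 .nil)) (.r 16 .nil)) (.I .ass (.c 13057 (.c 35466557976585 (.c 16 .nil))) .nil)))) (.node (.node (.node (.I .com (.c 13057 (.c 35466557976585 .nil)) (.r 16 .nil)) (.I .jac (.c 4609 (.c 8 (.c 48 .nil))) (.r 16 (.l 13057 .nil)))) (.node (.I .com (.c 169943177 (.c 18497 .nil)) (.l 13057 .nil)) (.I .com (.c 169943433 (.c 2113 .nil)) (.l 13057 .nil)))) (.node (.node (.I .adp (.c 18497 (.c 16 (.c 4609 .nil))) (.l 13057 .nil)) (.I .adp (.c 2113 (.c 48 (.c 4609 .nil))) (.l 13057 .nil))) (.node (.I .adp (.c 16 (.c 48 (.c 8 .nil))) (.b 4609 (.l 13057 .nil))) (.I .com (.c 18497 (.c 16 .nil)) (.b 4609 (.l 13057 .nil)))))))) (.node (.node (.node (.node (.node (.I .ass (.c 13057 (.c 231046163358603977 (.c 16 .nil))) .nil) (.I .com (.c 13057 (.c 231046163358603977 .nil)) (.r 16 .nil))) (.node (.I .ass (.c 13057 (.c 231045293249046537 (.c 16 .nil))) .nil) (.I .com (.c 13057 (.c 231045293249046537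 .nil)) (.r 16 .nil)))) (.node (.node (.I .jac (.c 18433 (.c 8 (.c 24 .nil))) (.r 16 (.l 13057 .nil))) (.I .adp (.c 16 (.c 48 (.c 0 .nil))) (.b 4673 (.l 13057 .nil)))) (.node (.I .com (.c 18433 (.c 16 .nil)) (.b 4673 (.l 13057 .nil))) (.I .ass (.c 13057 (.c 59109068451510808265 (.c 16 .nil))) .nil)))) (.node (.node (.node (.I .com (.c 13057 (.c 59109068451510808265 .nil)) (.r 16 .nil)) (.I .ass (.c 13057 (.c 59109062884628932425 (.c 16 .nil))) .nil)) (.node (.I .com (.c 13057 (.c 59109062884628932425 .nil)) (.r 16 .nil)) (.I .com (.c 27951050520792140819269269873301704274761 (.c 13057 .nil)) .nil))) (.node (.node (.I .adp (.c 513 (.c 48 (.c 4737 .nil))) (.l 13057 .nil)) (.I .jac (.c 2113 (.c 24 (.c 48 .nil))) (.l 0 (.l 13057 .nil)))) (.node (.I .adp (.c 0 (.c 48 (.c 24 .nil))) (.b 2113 (.l 13057 .nil))) (.I .ass (.c 13057 (.c 0 (.c 10206511083363145 .nil))) .nil))))) (.node (.node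 (.node (.node (.I .ass (.c 0 (.c 13057 (.c 10206511083363145 .nil))) .nil) (.I .com (.c 13057 (.c 0 .nil)) (.r 10206511083363145 .nil))) (.node (.I .ass (.c 13057 (.c 0 (.c 10206401356312585 .nil))) .nil) (.I .ass (.c 0 (.c 13057 (.c 10206401356312585 .nil))) .nil))) (.node (.node (.I .com (.c 13057 (.c 0 .nil)) (.r 10206401356312585 .nil)) (.I .jac (.c 4673 (.c 16 (.c 48 .nil))) (.l 0 (.l 13057 .nil)))) (.node (.I .adp (.c 0 (.c 48 (.c 16 .nil))) (.b 4673 (.l 13057 .nil))) (.I .ass (.c 13057 (.c 0 (.c 244149027818380041 .nil))) .nil)))) (.node (.node (.node (.I .ass (.c 0 (.c 13057 (.c 244149027818380041 .nil))) .nil) (.I .com (.c 13057 (.c 0 .nil)) (.r 244149027818380041 .nil))) (.node (.I .ass (.c 13057 (.c 0 (.c 244148312264838153 .nil))) .nil) (.I .ass (.c 0 (.c 13057 (.c 244148312264838153 .nil))) .nil))) (.node (.node (.I .com (.c 13057 (.c 0 .nil)) (.r 244148312264838153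 .nil)) (.I .jac (.c 18497 (.c 16 (.c 24 .nil))) (.l 0 (.l 13057 .nil)))) (.node (.I .adp (.c 0 (.c 18497 (.c 4737 .nil))) (.l 13057 .nil)) (.I .jac (.c 0 (.c 16 (.c 24 .nil))) (.r 18497 (.l 13057 .nil)))))))))

noncomputable def c2_391 : Tr := (.node (.node (.node (.node (.node (.node (.I .adp (.c 0 (.c 48 (.c 8 .nil))) (.b 4737 (.l 13057 .nil))) (.I .ass (.c 13057 (.c 0 (.c 59934268409707441929 .nil))) .nil)) (.node (.I .ass (.c 0 (.c 13057 (.c 59934268409707441929 .nil))) .nil) (.I .com (.c 13057 (.c 0 .nil)) (.r 59934268409707441929 .nil)))) (.node (.node (.I .ass (.c 13057 (.c 0 (.c 59934265606904515401 .nil))) .nil) (.I .ass (.c 0 (.c 13057 (.c 59934265606904515401 .nil))) .nil)) (.node (.I .com (.c 13057 (.c 0 .nil)) (.r 59934265606904515401 .nil)) (.I .jac (.c 18433 (.c 2113 (.c 24 .nil))) (.l 13057 .nil))))) (.node (.node (.node (.I .jac (.c 18433 (.c 8 (.c 16 .nil))) (.b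 24 (.l 13057 .nil))) (.I .adp (.c 16 (.c 24 (.c 48 .nil))) (.b 513 (.l 13057 .nil)))) (.node (.I .adp (.c 16 (.c 24 (.c 0 .nil))) (.b 18497 (.l 13057 .nil))) (.I .com (.c 4609 (.c 16 .nil)) (.b 18497 (.l 13057 .nil))))) (.node (.node (.I .com (.c 2718204041 (.c 4673 .nil)) (.l 13057 .nil)) (.I .com (.c 2718204105 (.c 2113 .nil)) (.l 13057 .nil))) (.node (.I .adp (.c 4673 (.c 16 (.c 18433 .nil))) (.l 13057 .nil)) (.I .adp (.c 2113 (.c 24 (.c 18433 .nil))) (.l 13057 .nil)))))) (.node (.node (.node (.node (.I .adp (.c 16 (.c 24 (.c 8 .nil))) (.b 18433 (.l 13057 .nil))) (.I .com (.c 4673 (.c 16 .nil)) (.b 18433 (.l 13057 .nil)))) (.node (.I .jac (.c 0 (.c 8 (.c 24 .nil))) (.b 18561 (.l 13057 .nil))) (.I .adp (.c 513 (.c 24 (.c 18561 .nil))) (.l 13057 .nil)))) (.node (.node (.I .adp (.c 0 (.c 24 (.c 48 .nil))) (.b 2113 (.l 13057 .nil))) (.I .adp (.c 0 (.c 4673 (.c 18561 .nil))) (.l 13057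 .nil))) (.node (.I .jac (.c 0 (.c 16 (.c 48 .nil))) (.r 4673 (.l 13057 .nil))) (.I .adp (.c 0 (.c 24 (.c 8 .nil))) (.b 18561 (.l 13057 .nil)))))) (.node (.node (.node (.I .adp (.c 0 (.c 24 (.c 16 .nil))) (.b 18497 (.l 13057 .nil))) (.I .jac (.c 0 (.c 8 (.c 16 .nil))) (.b 18625 (.l 13057 .nil)))) (.node (.I .jac (.c 0 (.c 8 (.c 16 .nil))) (.b 18625 (.b 32 (.l 40 .nil)))) (.I .jac (.c 557571 (.c 24 (.c 48 .nil))) (.l 13057 .nil)))) (.node (.node (.I .jac (.c 16 (.c 24 (.c 48 .nil))) (.l 513 (.l 13057 .nil))) (.I .adp (.c 513 (.c 16 (.c 18625 .nil))) (.l 13057 .nil))) (.node (.I .jac (.c 513 (.c 24 (.c 48 .nil))) (.r 16 (.l 13057 .nil))) (.I .adp (.c 0 (.c 2113 (.c 18625 .nil))) (.l 13057 .nil))))))) (.node (.node (.node (.node (.node (.I .jac (.c 0 (.c 24 (.c 48 .nil))) (.r 2113 (.l 13057 .nil))) (.I .adp (.c 0 (.c 16 (.c 8 .nil))) (.b 18625 (.l 13057 .nil)))) (.node (.I .adp (.c 0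 (.c 16 (.c 48 .nil))) (.b 4673 (.l 13057 .nil))) (.I .adp (.c 0 (.c 16 (.c 24 .nil))) (.b 18497 (.l 13057 .nil))))) (.node (.node (.I .jac (.c 2113 (.c 24 (.c 48 .nil))) (.l 13057 (.l 0 .nil))) (.I .jac (.c 4673 (.c 16 (.c 48 .nil))) (.l 13057 (.l 0 .nil)))) (.node (.I .jac (.c 18497 (.c 16 (.c 24 .nil))) (.l 13057 (.l 0 .nil))) (.I .jac (.c 2049 (.c 24 (.c 48 .nil))) (.b 21307459 .nil))))) (.node (.node (.node (.I .jac (.c 2049 (.c 24 (.c 48 .nil))) (.l 40 (.l 8257 .nil))) (.I .com (.c 9025011228269385 (.c 40 .nil)) (.l 8257 .nil))) (.node (.I .jac (.c 4609 (.c 16 (.c 48 .nil))) (.l 40 (.l 8257 .nil))) (.I .com (.c 231046163358604041 (.c 40 .nil)) (.l 8257 .nil)))) (.node (.node (.I .jac (.c 18433 (.c 16 (.c 24 .nil))) (.l 40 (.l 8257 .nil))) (.I .com (.c 59109068451510808329 (.c 40 .nil)) (.l 8257 .nil))) (.node (.I .com (.c 59109065668069837641 (.c 40 .nil)) (.l 8257 .nil)) (.I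 .jac (.c 2049 (.c 24 (.c 48 .nil))) (.b 8 (.b 32 (.l 40 .nil)))))))) (.node (.node (.node (.node (.I .jac (.c 4609 (.c 16 (.c 48 .nil))) (.b 8 (.b 32 (.l 40 .nil)))) (.I .jac (.c 18433 (.c 16 (.c 24 .nil))) (.b 8 (.b 32 (.l 40 .nil))))) (.node (.I .jac (.c 4609 (.c 8 (.c 48 .nil))) (.l 21307523 .nil)) (.I .jac (.c 18433 (.c 8 (.c 24 .nil))) (.l 21307523 .nil)))) (.node (.node (.I .jac (.c 513 (.c 24 (.c 48 .nil))) (.l 13057 (.l 16 .nil))) (.I .com (.c 35473026505545 (.c 13057 .nil)) (.l 16 .nil))) (.node (.I .jac (.c 4609 (.c 8 (.c 48 .nil))) (.l 13057 (.l 16 .nil))) (.I .com (.c 231046163358603977 (.c 13057 .nil)) (.l 16 .nil))))) (.node (.node (.node (.I .jac (.c 18433 (.c 8 (.c 24 .nil))) (.l 13057 (.l 16 .nil))) (.I .com (.c 59109068451510808265 (.c 13057 .nil)) (.l 16 .nil))) (.node (.I .com (.c 59109062884628932425 (.c 13057 .nil)) (.l 16 .nil)) (.I .jac (.c 513 (.c 24 (.c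 48 .nil))) (.b 16 (.b 40 (.l 32 .nil)))))) (.node (.node (.I .jac (.c 513 (.c 24 (.c 48 .nil))) (.b 16 (.b 32 (.l 40 .nil)))) (.I .jac (.c 513 (.c 16 (.c 48 .nil))) (.l 562466121 .nil))) (.node (.I .com (.c 35473026505481 (.c 562466121 .nil)) .nil) (.I .jac (.c 2049 (.c 8 (.c 48 .nil))) (.l 562466121 .nil))))))))

noncomputable def c2_392 : Tr := (.node (.node (.node (.node (.node (.node (.I .com (.c 9025011228269257 (.c 562466121 .nil)) .nil) (.I .jac (.c 18433 (.c 8 (.c 16 .nil))) (.l 562466121 .nil))) (.node (.I .com (.c 59109065668069837513 (.c 562466121 .nil)) .nil) (.I .com (.c 59109062884628932361 (.c 562466121 .nil)) .nil))) (.node (.node (.I .jac (.c 513 (.c 16 (.c 48 .nil))) (.l 21307587 .nil)) (.I .jac (.c 2049 (.c 8 (.c 48 .nil))) (.l 21307587 .nil))) (.node (.I .jac (.c 18433 (.c 8 (.c 16 .nil))) (.l 21307587 .nil)) (.I .jac (.c 513 (.c 16 (.c 48 .nil))) (.l 13057 (.l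 24 .nil)))))) (.node (.node (.node (.I .com (.c 35473026505481 (.c 13057 .nil)) (.l 24 .nil)) (.I .jac (.c 2049 (.c 8 (.c 48 .nil))) (.l 13057 (.l 24 .nil)))) (.node (.I .com (.c 9025011228269257 (.c 13057 .nil)) (.l 24 .nil)) (.I .jac (.c 18433 (.c 8 (.c 16 .nil))) (.l 13057 (.l 24 .nil))))) (.node (.node (.I .com (.c 59109065668069837513 (.c 13057 .nil)) (.l 24 .nil)) (.I .com (.c 59109062884628932361 (.c 13057 .nil)) (.l 24 .nil))) (.node (.I .jac (.c 35468714087369 (.c 16 (.c 24 .nil))) (.l 48 .nil)) (.I .jac (.c 35466557976521 (.c 16 (.c 32 .nil))) (.l 48 .nil)))))) (.node (.node (.node (.node (.I .jac (.c 2105609 (.c 16 (.c 40 .nil))) (.b 24 (.l 48 .nil))) (.I .jac (.c 2105609 (.c 4737 (.c 40 .nil))) (.l 48 .nil))) (.node (.I .jac (.c 2105609 (.c 16 (.c 24 .nil))) (.b 40 (.l 48 .nil))) (.I .jac (.c 513 (.c 16 (.c 32 .nil))) (.b 40 (.b 24 (.l 48 .nil)))))) (.node (.node (.I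 .jac (.c 513 (.c 16 (.c 40 .nil))) (.b 24 (.b 32 (.l 48 .nil)))) (.I .jac (.c 513 (.c 16 (.c 24 .nil))) (.b 40 (.b 32 (.l 48 .nil))))) (.node (.I .jac (.c 513 (.c 16 (.c 32 .nil))) (.b 24 (.b 40 (.l 48 .nil)))) (.I .com (.c 810508056934298469057804160333551911925903618255834528521 (.c 48 .nil)) .nil)))) (.node (.node (.node (.I .com (.c 810311000704513416363896103173435689053454605660071255817 (.c 48 .nil)) .nil) (.I .com (.c 809917014009799608106842829098994307490388508253535739721 (.c 48 .nil)) .nil)) (.node (.I .com (.c 809917014015645998974779146356270193153806695299562215305 (.c 48 .nil)) .nil) (.I .com (.c 809917014009799608106842808492447497285389560274090579913 (.c 48 .nil)) .nil))) (.node (.node (.I .jac (.c 33587529 (.c 8257 (.c 24 .nil))) (.l 48 .nil)) (.I .jac (.c 33587465 (.c 8 (.c 40 .nil))) (.b 24 (.l 48 .nil)))) (.node (.I .jac (.c 33587401 (.c 8 (.c 40 .nil))) (.b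 32 (.l 48 .nil))) (.I .jac (.c 2049 (.c 8 (.c 32 .nil))) (.b 40 (.b 24 (.l 48 .nil))))))))) (.node (.node (.node (.node (.node (.I .jac (.c 2049 (.c 8 (.c 40 .nil))) (.b 24 (.b 32 (.l 48 .nil)))) (.I .jac (.c 2049 (.c 4673 (.c 40 .nil))) (.b 32 (.l 48 .nil)))) (.node (.I .jac (.c 2049 (.c 545424585 (.c 40 .nil))) (.l 48 .nil)) (.I .jac (.c 2049 (.c 8257 (.c 24 .nil))) (.b 40 (.l 48 .nil))))) (.node (.node (.I .com (.c 3396574178719683520950915452813578587312409917510140798824713009865 (.c 48 .nil)) .nil) (.I .jac (.c 2306970773558194121 (.c 8 (.c 16 .nil))) (.l 48 .nil))) (.node (.I .com (.c 14502375955699778506396863322320873405338666702174722200444384665198719201993 (.c 48 .nil)) .nil) (.I .com (.c 18291641358826143115283479484929247917215886197188666885349800855484929441608393 (.c 48 .nil)) .nil)))) (.node (.node (.node (.I .com (.c 1459028238553206337213515306440428767316471580605346620562391670135009993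 (.c 48 .nil)) .nil) (.I .com (.c 14502348301404390435294447255639053322907799187522885426054877299630203040457 (.c 48 .nil)) .nil)) (.node (.I .com (.c 14502375955699778506396863322320873361739866016083810321336355243778150321929 (.c 48 .nil)) .nil) (.I .com (.c 18291641358826143115283479484929247915667492831088159391184931620742501218225929 (.c 48 .nil)) .nil))) (.node (.node (.I .com (.c 14502348301404390435294447255639053279309040070299419852257548463276460986121 (.c 48 .nil)) .nil) (.I .jac (.c 2105673 (.c 16 (.c 32 .nil))) (.b 24 (.l 48 .nil)))) (.node (.I .jac (.c 2105673 (.c 4737 (.c 32 .nil))) (.l 48 .nil)) (.I .jac (.c 35466557976457 (.c 16 (.c 40 .nil))) (.l 48 .nil)))))) (.node (.node (.node (.node (.I .jac (.c 2105545 (.c 16 (.c 32 .nil))) (.b 40 (.l 48 .nil))) (.I .com (.c 810113986402794048221124572296367057684632113898482966281 (.c 48 .nil)) .nil)) (.node (.I .com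 (.c 809917014015645998974779156659543598293493290008670616393 (.c 48 .nil)) .nil) (.I .jac (.c 9024976834606985 (.c 8 (.c 24 .nil))) (.l 48 .nil)))) (.node (.node (.I .jac (.c 2049 (.c 4673 (.c 32 .nil))) (.b 40 (.l 48 .nil))) (.I .jac (.c 2049 (.c 8 (.c 24 .nil))) (.b 32 (.b 40 (.l 48 .nil))))) (.node (.I .com (.c 3396677733571935452111592026849925328649562364534498270989403936457 (.c 48 .nil)) .nil) (.I .com (.c 3396574178719587173931624198464266588079986877612772630030374805193 (.c 48 .nil)) .nil)))) (.node (.node (.node (.I .com (.c 3396470626629604288154436272497633140159839280743900400390065568713 (.c 48 .nil)) .nil) (.I .jac (.c 231045815314584521 (.c 8 (.c 16 .nil))) (.l 48 .nil))) (.node (.I .jac (.c 1310925001 (.c 8 (.c 16 .nil))) (.r 32 (.b 48 .nil))) (.I .adp (.c 1512102896582526821614077026536761750217 (.c 32 (.c 48 .nil))) .nil))) (.node (.node (.I .adp (.c 1512102896582526807535925483778566442761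 (.c 32 (.c 48 .nil))) .nil) (.I .adp (.c 1310925001 (.c 35718409 (.c 48 .nil))) .nil)) (.node (.I .com (.c 35470870263625 (.c 8321 .nil)) (.l 48 .nil)) (.I .ass (.c 48 (.c 35470870263625 (.c 8321 .nil))) .nil)))))))

noncomputable def c2_393 : Tr := (.node (.node (.node (.node (.node (.node (.I .com (.c 48 (.c 35470870263625 .nil)) (.r 8321 .nil)) (.I .ass (.c 48 (.c 35468714087177 (.c 12993 .nil))) .nil)) (.node (.I .com (.c 48 (.c 35468714087177 .nil)) (.r 12993 .nil)) (.I .jac (.c 33587401 (.c 8 (.c 40 .nil))) (.r 32 (.l 48 .nil))))) (.node (.node (.I .jac (.c 33587529 (.c 8 (.c 24 .nil))) (.r 32 (.l 48 .nil))) (.I .com (.c 9024976834606921 (.c 8257 .nil)) (.l 48 .nil))) (.node (.I .com (.c 9024908047478729 (.c 8257 .nil)) (.l 48 .nil)) (.I .ass (.c 48 (.c 651601654921532475892036648801993 (.c 32 .nil))) .nil)))) (.node (.node (.node (.I .com (.c 48 (.c 651601654921532475892036648801993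 .nil)) (.r 32 .nil)) (.I .ass (.c 48 (.c 651591722123570596944749659643593 (.c 32 .nil))) .nil)) (.node (.I .com (.c 48 (.c 651591722123570596944749659643593 .nil)) (.r 32 .nil)) (.I .ass (.c 48 (.c 651581789439149858614694249422665 (.c 32 .nil))) .nil))) (.node (.node (.I .com (.c 48 (.c 651581789439149858614694249422665 .nil)) (.r 32 .nil)) (.I .ass (.c 48 (.c 651581789439131375743888515045321 (.c 32 .nil))) .nil)) (.node (.I .com (.c 48 (.c 651581789439131375743888515045321 .nil)) (.r 32 .nil)) (.I .ass (.c 48 (.c 9024976834606921 (.c 8257 .nil))) .nil))))) (.node (.node (.node (.node (.I .com (.c 48 (.c 9024976834606921 .nil)) (.r 8257 .nil)) (.I .ass (.c 48 (.c 9024908047478729 (.c 8257 .nil))) .nil)) (.node (.I .com (.c 48 (.c 9024908047478729 .nil)) (.r 8257 .nil)) (.I .ass (.c 48 (.c 33587465 (.c 1324065993 .nil))) .nil))) (.node (.node (.I .com (.c 48 (.c 33587465 .nil))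 (.r 1324065993 .nil)) (.I .ass (.c 48 (.c 33587465 (.c 174695753 .nil))) .nil)) (.node (.I .com (.c 48 (.c 33587465 .nil)) (.r 174695753 .nil)) (.I .jac (.c 1310925001 (.c 8 (.c 16 .nil))) (.r 32 (.l 48 .nil)))))) (.node (.node (.node (.I .jac (.c 169943369 (.c 8 (.c 16 .nil))) (.r 32 (.l 48 .nil))) (.I .ass (.c 48 (.c 1512102896582526821614077026536761750217 (.c 32 .nil))) .nil)) (.node (.I .com (.c 48 (.c 1512102896582526821614077026536761750217 .nil)) (.r 32 .nil)) (.I .ass (.c 48 (.c 427057993508083616106291307304383177 (.c 32 .nil))) .nil))) (.node (.node (.I .com (.c 48 (.c 427057993508083616106291307304383177 .nil)) (.r 32 .nil)) (.I .ass (.c 48 (.c 1512102896582526807535925483778566442761 (.c 32 .nil))) .nil)) (.node (.I .com (.c 48 (.c 1512102896582526807535925483778566442761 .nil)) (.r 32 .nil)) (.I .ass (.c 48 (.c 427057993508083379515198226665525001 (.c 32 .nil))) .nil))))))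 (.node (.node (.node (.node (.node (.I .com (.c 48 (.c 427057993508083379515198226665525001 .nil)) (.r 32 .nil)) (.I .ass (.c 48 (.c 169943369 (.c 35718409 .nil))) .nil)) (.node (.I .com (.c 48 (.c 169943369 .nil)) (.r 35718409 .nil)) (.I .com (.c 10206474507614025 (.c 48 .nil)) (.l 8193 .nil)))) (.node (.node (.I .com (.c 10206401356312521 (.c 48 .nil)) (.l 8193 .nil)) (.I .adp (.c 13748192181200529161 (.c 8385 (.c 48 .nil))) .nil)) (.node (.I .com (.c 35468714087241 (.c 12929 .nil)) (.l 48 .nil)) (.I .ass (.c 48 (.c 35470870263561 (.c 8385 .nil))) .nil)))) (.node (.node (.node (.I .com (.c 48 (.c 35470870263561 .nil)) (.r 8385 .nil)) (.I .ass (.c 48 (.c 35468714087241 (.c 12929 .nil))) .nil)) (.node (.I .com (.c 48 (.c 35468714087241 .nil)) (.r 12929 .nil)) (.I .com (.c 9024942441009993 (.c 12865 .nil)) (.l 48 .nil)))) (.node (.node (.I .com (.c 9024908047478665 (.c 12865 .nil))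 (.l 48 .nil)) (.I .jac (.c 33587401 (.c 8 (.c 32 .nil))) (.r 40 (.l 48 .nil)))) (.node (.I .jac (.c 33587465 (.c 8 (.c 24 .nil))) (.r 40 (.l 48 .nil))) (.I .ass (.c 48 (.c 33587529 (.c 545424585 .nil))) .nil))))) (.node (.node (.node (.node (.I .com (.c 48 (.c 33587529 .nil)) (.r 545424585 .nil)) (.I .ass (.c 48 (.c 33587529 (.c 174695689 .nil))) .nil)) (.node (.I .com (.c 48 (.c 33587529 .nil)) (.r 174695689 .nil)) (.I .ass (.c 48 (.c 651596688508347287845007406880457 (.c 40 .nil))) .nil))) (.node (.node (.I .com (.c 48 (.c 651596688508347287845007406880457 .nil)) (.r 40 .nil)) (.I .ass (.c 48 (.c 651591722123561355438909041457865 (.c 40 .nil))) .nil)) (.node (.I .com (.c 48 (.c 651591722123561355438909041457865 .nil)) (.r 40 .nil)) (.I .ass (.c 48 (.c 651581789439140617179291382201161 (.c 40 .nil))) .nil)))) (.node (.node (.node (.I .com (.c 48 (.c 651581789439140617179291382201161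 .nil)) (.r 40 .nil)) (.I .ass (.c 48 (.c 651581789439131375743888515045257 (.c 40 .nil))) .nil)) (.node (.I .com (.c 48 (.c 651581789439131375743888515045257 .nil)) (.r 40 .nil)) (.I .ass (.c 48 (.c 9024942441009993 (.c 12865 .nil))) .nil))) (.node (.node (.I .com (.c 48 (.c 9024942441009993 .nil)) (.r 12865 .nil)) (.I .ass (.c 48 (.c 9024908047478665 (.c 12865 .nil))) .nil)) (.node (.I .com (.c 48 (.c 9024908047478665 .nil)) (.r 12865 .nil)) (.I .adp (.c 12801 (.c 8385 (.c 2113 .nil))) (.l 48 .nil))))))))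

noncomputable def c2_394 : Tr := (.node (.node (.node (.node (.node (.node (.I .jac (.c 12801 (.c 8 (.c 16 .nil))) (.r 8385 (.l 48 .nil))) (.I .adp (.c 537002185 (.c 40 (.c 2113 .nil))) (.l 48 .nil))) (.node (.I .jac (.c 537002185 (.c 8 (.c 16 .nil))) (.r 40 (.l 48 .nil))) (.I .jac (.c 169943305 (.c 8 (.c 16 .nil))) (.r 40 (.l 48 .nil))))) (.node (.node (.I .ass (.c 48 (.c 13748193523587631817 (.c 8385 .nil))) .nil) (.I .com (.c 48 (.c 13748193523587631817 .nil)) (.r 8385 .nil))) (.node (.I .ass (.c 48 (.c 13748192181200529161 (.c 8385 .nil))) .nil) (.I .com (.c 48 (.c 13748192181200529161 .nil)) (.r 8385 .nil))))) (.node (.node (.node (.I .ass (.c 48 (.c 42576913200413533512397237570979656393 (.c 40 .nil))) .nil) (.I .com (.c 48 (.c 42576913200413533512397237570979656393 .nil)) (.r 40 .nil))) (.node (.I .ass (.c 48 (.c 427057350195048083672236560419041993 (.c 40 .nil))) .nil) (.I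 .com (.c 48 (.c 427057350195048083672236560419041993 .nil)) (.r 40 .nil)))) (.node (.node (.I .ass (.c 48 (.c 42576913200413531150059165447389105929 (.c 40 .nil))) .nil) (.I .com (.c 48 (.c 42576913200413531150059165447389105929 .nil)) (.r 40 .nil))) (.node (.I .ass (.c 48 (.c 427057350195047847081321678284721929 (.c 40 .nil))) .nil) (.I .com (.c 48 (.c 427057350195047847081321678284721929 .nil)) (.r 40 .nil)))))) (.node (.node (.node (.node (.I .ass (.c 48 (.c 169943305 (.c 35718473 .nil))) .nil) (.I .com (.c 48 (.c 169943305 .nil)) (.r 35718473 .nil))) (.node (.I .adp (.c 1310925065 (.c 35718345 (.c 48 .nil))) .nil) (.I .jac (.c 2105609 (.c 16 (.c 40 .nil))) (.r 24 (.l 48 .nil))))) (.node (.node (.I .jac (.c 2105673 (.c 16 (.c 32 .nil))) (.r 24 (.l 48 .nil))) (.I .ass (.c 48 (.c 10065461098107652387135109897 (.c 24 .nil))) .nil)) (.node (.I .com (.c 48 (.c 10065461098107652387135109897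 .nil)) (.r 24 .nil)) (.I .ass (.c 48 (.c 10064237432092225236522737417 (.c 24 .nil))) .nil)))) (.node (.node (.node (.I .com (.c 48 (.c 10064237432092225236522737417 .nil)) (.r 24 .nil)) (.I .ass (.c 48 (.c 10061790434706725190145613705 (.c 24 .nil))) .nil)) (.node (.I .com (.c 48 (.c 10061790434706725190145613705 .nil)) (.r 24 .nil)) (.I .ass (.c 48 (.c 10061790434670409642568088521 (.c 24 .nil))) .nil))) (.node (.node (.I .com (.c 48 (.c 10061790434670409642568088521 .nil)) (.r 24 .nil)) (.I .ass (.c 48 (.c 2105545 (.c 1337272585 .nil))) .nil)) (.node (.I .com (.c 48 (.c 2105545 .nil)) (.r 1337272585 .nil)) (.I .ass (.c 48 (.c 2105545 (.c 553912649 .nil))) .nil)))))) (.node (.node (.node (.node (.node (.I .com (.c 48 (.c 2105545 .nil)) (.r 553912649 .nil)) (.I .com (.c 9024976834606985 (.c 4673 .nil)) (.l 48 .nil))) (.node (.I .com (.c 9024942441010121 (.c 4673 .nil)) (.l 48 .nil))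 (.I .jac (.c 33587465 (.c 8 (.c 40 .nil))) (.r 24 (.l 48 .nil))))) (.node (.node (.I .jac (.c 33587529 (.c 8 (.c 32 .nil))) (.r 24 (.l 48 .nil))) (.I .ass (.c 48 (.c 651601654921541717468315286321865 (.c 24 .nil))) .nil)) (.node (.I .com (.c 48 (.c 651601654921541717468315286321865 .nil)) (.r 24 .nil)) (.I .ass (.c 48 (.c 651596688508365770927126595477193 (.c 24 .nil))) .nil)))) (.node (.node (.node (.I .com (.c 48 (.c 651596688508365770927126595477193 .nil)) (.r 24 .nil)) (.I .ass (.c 48 (.c 651581789439149858614694249422729 (.c 24 .nil))) .nil)) (.node (.I .com (.c 48 (.c 651581789439149858614694249422729 .nil)) (.r 24 .nil)) (.I .ass (.c 48 (.c 651581789439140617179291382201289 (.c 24 .nil))) .nil))) (.node (.node (.I .com (.c 48 (.c 651581789439140617179291382201289 .nil)) (.r 24 .nil)) (.I .ass (.c 48 (.c 9024976834606985 (.c 4673 .nil))) .nil)) (.node (.I .com (.c 48 (.c 9024976834606985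 .nil)) (.r 4673 .nil)) (.I .ass (.c 48 (.c 9024942441010121 (.c 4673 .nil))) .nil))))) (.node (.node (.node (.node (.I .com (.c 48 (.c 9024942441010121 .nil)) (.r 4673 .nil)) (.I .ass (.c 48 (.c 33587401 (.c 1324066057 .nil))) .nil)) (.node (.I .com (.c 48 (.c 33587401 .nil)) (.r 1324066057 .nil)) (.I .ass (.c 48 (.c 33587401 (.c 545424713 .nil))) .nil))) (.node (.node (.I .com (.c 48 (.c 33587401 .nil)) (.r 545424713 .nil)) (.I .com (.c 537002313 (.c 24 .nil)) (.b 2113 (.l 48 .nil)))) (.node (.I .com (.c 1310925065 (.c 24 .nil)) (.b 2113 (.l 48 .nil))) (.I .adp (.c 1310925065 (.c 24 (.c 2113 .nil))) (.l 48 .nil))))) (.node (.node (.node (.I .adp (.c 537002313 (.c 24 (.c 2113 .nil))) (.l 48 .nil)) (.I .jac (.c 537002313 (.c 8 (.c 16 .nil))) (.r 24 (.l 48 .nil)))) (.node (.I .ass (.c 48 (.c 42576953795010653769602236682924913353 (.c 24 .nil))) .nil) (.I .com (.c 48 (.c 42576953795010653769602236682924913353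 .nil)) (.r 24 .nil)))) (.node (.node (.I .ass (.c 48 (.c 42576953795010651407263038383993868041 (.c 24 .nil))) .nil) (.I .com (.c 48 (.c 42576953795010651407263038383993868041 .nil)) (.r 24 .nil))) (.node (.I .ass (.c 48 (.c 1310925065 (.c 35718345 .nil))) .nil) (.I .com (.c 48 (.c 1310925065 .nil)) (.r 35718345 .nil))))))))

noncomputable def c2_395 : Tr := (.node (.node (.node (.node (.node (.node (.I .tdb (.c 0 (.c 8 (.c 24 (.c 40 .nil)))) (.l 8321 (.b 48 .nil))) (.I .com (.c 3561346121425033 (.c 8321 .nil)) (.b 48 .nil))) (.node (.I .tdb (.c 0 (.c 8 (.c 24 (.c 40 .nil)))) (.b 8321 (.b 48 .nil))) (.I .tdb (.c 0 (.c 8 (.c 32 (.c 40 .nil)))) (.l 4737 (.b 48 .nil))))) (.node (.node (.I .com (.c 3632040653488265 (.c 4737 .nil)) (.b 48 .nil)) (.I .adp (.c 3632040653488265 (.c 4737 (.c 48 .nil))) .nil)) (.node (.I .adp (.c 3561346121425033 (.c 8321 (.c 48 .nil))) .nil) (.I .tdb (.c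 0 (.c 16 (.c 32 (.c 24 .nil)))) (.b 12865 (.b 48 .nil)))))) (.node (.node (.node (.I .tdb (.c 0 (.c 16 (.c 40 (.c 24 .nil)))) (.l 8257 (.b 48 .nil))) (.I .com (.c 3561346121425097 (.c 8257 .nil)) (.b 48 .nil))) (.node (.I .com (.c 3561389332330569 (.c 8257 .nil)) (.b 48 .nil)) (.I .tdb (.c 0 (.c 16 (.c 40 (.c 24 .nil)))) (.b 8257 (.b 48 .nil))))) (.node (.node (.I .tdb (.c 0 (.c 16 (.c 32 (.c 40 .nil)))) (.b 4673 (.b 48 .nil))) (.I .adp (.c 3561346121425097 (.c 8257 (.c 48 .nil))) .nil)) (.node (.I .adp (.c 3561389332330569 (.c 8257 (.c 48 .nil))) .nil) (.I .tdb (.c 8 (.c 16 (.c 40 (.c 24 .nil)))) (.b 8193 (.b 48 .nil))))))) (.node (.node (.node (.node (.I .tdb (.c 0 (.c 24 (.c 32 (.c 40 .nil)))) (.b 2113 (.b 48 .nil))) (.I .adp (.c 12801 (.c 617620517416137 (.c 48 .nil))) .nil)) (.node (.I .tdb (.c 0 (.c 8 (.c 24 (.c 32 .nil)))) (.b 12929 (.l 48 .nil))) (.I .tdb (.c 0 (.c 16 (.c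 32 (.c 24 .nil)))) (.b 12865 (.l 48 .nil))))) (.node (.node (.I .com (.c 810113986408641505441454276159306114232346491916496237449 (.c 48 .nil)) .nil) (.I .com (.c 810113986391099133780560069256888833576014443444608016265 (.c 48 .nil)) .nil)) (.node (.I .jac (.c 169943369 (.c 8 (.c 16 .nil))) (.b 32 (.l 48 .nil))) (.I .jac (.c 169943305 (.c 8 (.c 40 .nil))) (.b 16 (.l 48 .nil)))))) (.node (.node (.node (.I .jac (.c 169943305 (.c 2113 (.c 40 .nil))) (.l 48 .nil)) (.I .jac (.c 169943305 (.c 8 (.c 16 .nil))) (.b 40 (.l 48 .nil)))) (.node (.I .jac (.c 4609 (.c 8 (.c 32 .nil))) (.b 40 (.b 16 (.l 48 .nil)))) (.I .jac (.c 4609 (.c 35718473 (.c 32 .nil))) (.l 48 .nil)))) (.node (.node (.I .jac (.c 4609 (.c 2113 (.c 40 .nil))) (.b 32 (.l 48 .nil))) (.I .com (.c 1459028238553203103993755533577260823007130444416315754662366410590321353 (.c 48 .nil)) .nil)) (.node (.I .com (.c 1459023842844927484074647864604431512866864223127535792803546291575824073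 (.c 48 .nil)) .nil) (.I .com (.c 1459010655789632369981280148558395299196715309671123682041100554803180425 (.c 48 .nil)) .nil)))))) (.node (.node (.node (.node (.node (.I .com (.c 1459010655789627520195474563615301834809395174156062875678246881712512905 (.c 48 .nil)) .nil) (.I .jac (.c 2306971873338799881 (.c 8 (.c 24 .nil))) (.l 48 .nil))) (.node (.I .jac (.c 13748193523587632009 (.c 8 (.c 24 .nil))) (.l 48 .nil)) (.I .jac (.c 2306970223667989449 (.c 8 (.c 24 .nil))) (.l 48 .nil)))) (.node (.node (.I .com (.c 14502334474273997956006391148615249293381727798644081149785095917044209424073 (.c 48 .nil)) .nil) (.I .com (.c 14502375955699776897097553016463223520899905238677409260292415153620461621065 (.c 48 .nil)) .nil)) (.node (.I .com (.c 18291634214772312189215281240800328706892085113359320909129691566882622095331145 (.c 48 .nil)) .nil) (.I .com (.c 3396677733571935452111592026848590848460283047097123161283016625993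 (.c 48 .nil)) .nil)))) (.node (.node (.node (.I .com (.c 810508056940148059469137261702979691094856023698138805065 (.c 48 .nil)) .nil) (.I .com (.c 810113986391099133780560058952362623009409956999009074121 (.c 48 .nil)) .nil)) (.node (.I .jac (.c 4609 (.c 12865 (.c 32 .nil))) (.b 16 (.l 48 .nil))) (.I .jac (.c 4609 (.c 8 (.c 40 .nil))) (.b 32 (.b 16 (.l 48 .nil)))))) (.node (.node (.I .com (.c 1459010655789632369981280148558396173806216002771744880619972280715295497 (.c 48 .nil)) .nil) (.I .com (.c 1459010655789627520195474563615301397504644827606479082037052754917784521 (.c 48 .nil)) .nil)) (.node (.I .com (.c 3396625955800545996126404119917129829820921582466805341787065274185 (.c 48 .nil)) .nil) (.I .jac (.c 1310924937 (.c 8 (.c 24 .nil))) (.r 32 (.b 48 .nil))))))) (.node (.node (.node (.node (.I .adp (.c 1512102601296135255437272766182275864265 (.c 32 (.c 48 .nil))) .nil) (.I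 .adp (.c 1512102601296135227280972429874805772105 (.c 32 (.c 48 .nil))) .nil)) (.node (.I .adp (.c 1310924937 (.c 174695689 (.c 48 .nil))) .nil) (.I .jac (.c 169943177 (.c 8 (.c 40 .nil))) (.r 32 (.l 48 .nil))))) (.node (.node (.I .com (.c 231045989336561417 (.c 8257 .nil)) (.l 48 .nil)) (.I .com (.c 231045467270826953 (.c 8257 .nil)) (.l 48 .nil))) (.node (.I .ass (.c 48 (.c 427056063571158149899930723770113737 (.c 32 .nil))) .nil) (.I .com (.c 48 (.c 427056063571158149899930723770113737 .nil)) (.r 32 .nil))))) (.node (.node (.node (.I .ass (.c 48 (.c 427055420260303037694618589709917961 (.c 32 .nil))) .nil) (.I .com (.c 48 (.c 427055420260303037694618589709917961 .nil)) (.r 32 .nil))) (.node (.I .ass (.c 48 (.c 427055420260302327923477728639448009 (.c 32 .nil))) .nil) (.I .com (.c 48 (.c 427055420260302327923477728639448009 .nil)) (.r 32 .nil)))) (.node (.node (.I .ass (.c 48 (.c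 231045989336561417 (.c 8257 .nil))) .nil) (.I .com (.c 48 (.c 231045989336561417 .nil)) (.r 8257 .nil))) (.node (.I .ass (.c 48 (.c 231045467270826953 (.c 8257 .nil))) .nil) (.I .com (.c 48 (.c 231045467270826953 .nil)) (.r 8257 .nil))))))))

noncomputable def c2_396 : Tr := (.node (.node (.node (.node (.node (.node (.I .ass (.c 48 (.c 169943305 (.c 1324065929 .nil))) .nil) (.I .com (.c 48 (.c 169943305 .nil)) (.r 1324065929 .nil))) (.node (.I .jac (.c 1310924937 (.c 8 (.c 24 .nil))) (.r 32 (.l 48 .nil))) (.I .ass (.c 48 (.c 1512102601296135255437272766182275864265 (.c 32 .nil))) .nil))) (.node (.node (.I .com (.c 48 (.c 1512102601296135255437272766182275864265 .nil)) (.r 32 .nil)) (.I .ass (.c 48 (.c 1512102601296135227280972429874805772105 (.c 32 .nil))) .nil)) (.node (.I .com (.c 48 (.c 1512102601296135227280972429874805772105 .nil)) (.r 32 .nil)) (.I .ass (.c 48 (.c 651601654921513992739479373958985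 (.c 32 .nil))) .nil)))) (.node (.node (.node (.I .com (.c 48 (.c 651601654921513992739479373958985 .nil)) (.r 32 .nil)) (.I .com (.c 244148848929896201 (.c 48 .nil)) (.l 8193 .nil))) (.node (.I .com (.c 244148312264838089 (.c 48 .nil)) (.l 8193 .nil)) (.I .adp (.c 13748192181200529225 (.c 8321 (.c 48 .nil))) .nil))) (.node (.node (.I .com (.c 231045815314584329 (.c 12865 .nil)) (.l 48 .nil)) (.I .com (.c 231045467270826889 (.c 12865 .nil)) (.l 48 .nil))) (.node (.I .jac (.c 169943177 (.c 8 (.c 32 .nil))) (.r 40 (.l 48 .nil))) (.I .ass (.c 48 (.c 169943369 (.c 545424521 .nil))) .nil))))) (.node (.node (.node (.node (.I .com (.c 48 (.c 169943369 .nil)) (.r 545424521 .nil)) (.I .ass (.c 48 (.c 427056063571157913309372238443346633 (.c 40 .nil))) .nil)) (.node (.I .com (.c 48 (.c 427056063571157913309372238443346633 .nil)) (.r 40 .nil)) (.I .ass (.c 48 (.c 427055420260302801104238302686362377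 (.c 40 .nil))) .nil))) (.node (.node (.I .com (.c 48 (.c 427055420260302801104238302686362377 .nil)) (.r 40 .nil)) (.I .ass (.c 48 (.c 427055420260302327923477728639447945 (.c 40 .nil))) .nil)) (.node (.I .com (.c 48 (.c 427055420260302327923477728639447945 .nil)) (.r 40 .nil)) (.I .ass (.c 48 (.c 231045815314584329 (.c 12865 .nil))) .nil)))) (.node (.node (.node (.I .com (.c 48 (.c 231045815314584329 .nil)) (.r 12865 .nil)) (.I .ass (.c 48 (.c 231045467270826889 (.c 12865 .nil))) .nil)) (.node (.I .com (.c 48 (.c 231045467270826889 .nil)) (.r 12865 .nil)) (.I .adp (.c 537002121 (.c 40 (.c 4673 .nil))) (.l 48 .nil)))) (.node (.node (.I .jac (.c 537002121 (.c 8 (.c 24 .nil))) (.r 40 (.l 48 .nil))) (.I .ass (.c 48 (.c 42576892903125861400833495191760328393 (.c 40 .nil))) .nil)) (.node (.I .com (.c 48 (.c 42576892903125861400833495191760328393 .nil)) (.r 40 .nil)) (.I .ass (.c 48 (.c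 42576892903125856676158477119718330185 (.c 40 .nil))) .nil)))))) (.node (.node (.node (.node (.node (.I .com (.c 48 (.c 42576892903125856676158477119718330185 .nil)) (.r 40 .nil)) (.I .ass (.c 48 (.c 651596688508328804762888218545993 (.c 40 .nil))) .nil)) (.node (.I .com (.c 48 (.c 651596688508328804762888218545993 .nil)) (.r 40 .nil)) (.I .adp (.c 1310925065 (.c 174695561 (.c 48 .nil))) .nil))) (.node (.node (.I .jac (.c 2105609 (.c 24 (.c 40 .nil))) (.l 16 (.l 48 .nil))) (.I .com (.c 10064237432092225236522737481 (.c 16 .nil)) (.l 48 .nil))) (.node (.I .jac (.c 2105673 (.c 24 (.c 32 .nil))) (.l 16 (.l 48 .nil))) (.I .com (.c 10065461098107652387135109961 (.c 16 .nil)) (.l 48 .nil))))) (.node (.node (.node (.I .ass (.c 48 (.c 10065461098107652387135109961 (.c 16 .nil))) .nil) (.I .com (.c 48 (.c 10065461098107652387135109961 .nil)) (.r 16 .nil))) (.node (.I .ass (.c 48 (.c 10064237432092225236522737481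 (.c 16 .nil))) .nil) (.I .com (.c 48 (.c 10064237432092225236522737481 .nil)) (.r 16 .nil)))) (.node (.node (.I .ass (.c 48 (.c 10063013877615402959898107785 (.c 16 .nil))) .nil) (.I .com (.c 48 (.c 10063013877615402959898107785 .nil)) (.r 16 .nil))) (.node (.I .ass (.c 48 (.c 10063013877579085204530183113 (.c 16 .nil))) .nil) (.I .com (.c 48 (.c 10063013877579085204530183113 .nil)) (.r 16 .nil)))))) (.node (.node (.node (.node (.I .ass (.c 48 (.c 2105481 (.c 1350544649 .nil))) .nil) (.I .com (.c 48 (.c 2105481 .nil)) (.r 1350544649 .nil))) (.node (.I .ass (.c 48 (.c 2105481 (.c 562466121 .nil))) .nil) (.I .com (.c 48 (.c 2105481 .nil)) (.r 562466121 .nil)))) (.node (.node (.I .com (.c 231045989336561545 (.c 2113 .nil)) (.l 48 .nil)) (.I .com (.c 231045815314584521 (.c 2113 .nil)) (.l 48 .nil))) (.node (.I .jac (.c 169943305 (.c 8 (.c 40 .nil))) (.r 16 (.l 48 .nil))) (.I .jac (.c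 169943369 (.c 8 (.c 32 .nil))) (.r 16 (.l 48 .nil)))))) (.node (.node (.node (.I .ass (.c 48 (.c 427057993508084089288477468582296265 (.c 16 .nil))) .nil) (.I .com (.c 48 (.c 427057993508084089288477468582296265 .nil)) (.r 16 .nil))) (.node (.I .ass (.c 48 (.c 427057350195048793444981206822395593 (.c 16 .nil))) .nil) (.I .com (.c 48 (.c 427057350195048793444981206822395593 .nil)) (.r 16 .nil)))) (.node (.node (.I .ass (.c 48 (.c 427055420260303037694618589709918089 (.c 16 .nil))) .nil) (.I .com (.c 48 (.c 427055420260303037694618589709918089 .nil)) (.r 16 .nil))) (.node (.I .ass (.c 48 (.c 427055420260302801104238302686362569 (.c 16 .nil))) .nil) (.I .com (.c 48 (.c 427055420260302801104238302686362569 .nil)) (.r 16 .nil))))))))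

noncomputable def c2_397 : Tr := (.node (.node (.node (.node (.node (.node (.I .ass (.c 48 (.c 231045989336561545 (.c 2113 .nil))) .nil) (.I .com (.c 48 (.c 231045989336561545 .nil)) (.r 2113 .nil))) (.node (.I .ass (.c 48 (.c 231045815314584521 (.c 2113 .nil))) .nil) (.I .com (.c 48 (.c 231045815314584521 .nil)) (.r 2113 .nil)))) (.node (.node (.I .ass (.c 48 (.c 169943177 (.c 1324066057 .nil))) .nil) (.I .com (.c 48 (.c 169943177 .nil)) (.r 1324066057 .nil))) (.node (.I .ass (.c 48 (.c 169943177 (.c 545424713 .nil))) .nil) (.I .com (.c 48 (.c 169943177 .nil)) (.r 545424713 .nil))))) (.node (.node (.node (.I .com (.c 537002313 (.c 16 .nil)) (.b 4673 (.l 48 .nil))) (.I .com (.c 1310925065 (.c 16 .nil)) (.b 4673 (.l 48 .nil)))) (.node (.I .jac (.c 1310925065 (.c 8 (.c 24 .nil))) (.r 16 (.l 48 .nil))) (.I .adp (.c 537002313 (.c 16 (.c 4673 .nil))) (.l 48 .nil)))) (.node (.node (.I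 .jac (.c 537002313 (.c 8 (.c 24 .nil))) (.r 16 (.l 48 .nil))) (.I .ass (.c 48 (.c 1512103191868961664028723725600700192457 (.c 16 .nil))) .nil)) (.node (.I .com (.c 48 (.c 1512103191868961664028723725600700192457 .nil)) (.r 16 .nil)) (.I .ass (.c 48 (.c 42576953795010656131941434981856024265 (.c 16 .nil))) .nil))))) (.node (.node (.node (.node (.I .com (.c 48 (.c 42576953795010656131941434981856024265 .nil)) (.r 16 .nil)) (.I .ass (.c 48 (.c 1512103191868961635872417890875254705993 (.c 16 .nil))) .nil)) (.node (.I .com (.c 48 (.c 1512103191868961635872417890875254705993 .nil)) (.r 16 .nil)) (.I .ass (.c 48 (.c 42576953795010651407263038383993868105 (.c 16 .nil))) .nil))) (.node (.node (.I .com (.c 48 (.c 42576953795010651407263038383993868105 .nil)) (.r 16 .nil)) (.I .tdb (.c 0 (.c 8 (.c 16 (.c 40 .nil)))) (.b 8385 (.b 48 .nil)))) (.node (.I .tdb (.c 513 (.c 40 (.c 16 (.c 48 .nil))))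 (.l 8385 .nil)) (.I .tdb (.c 0 (.c 8 (.c 16 (.c 48 .nil)))) (.b 40 (.l 8385 .nil)))))) (.node (.node (.node (.I .adp (.c 598967998054537 (.c 12993 (.c 48 .nil))) .nil) (.I .tdb (.c 513 (.c 32 (.c 48 (.c 16 .nil)))) (.l 12993 .nil))) (.node (.I .tdb (.c 0 (.c 8 (.c 16 (.c 48 .nil)))) (.b 32 (.l 12993 .nil))) (.I .tdb (.c 0 (.c 24 (.c 32 (.c 16 .nil)))) (.b 12865 (.b 48 .nil))))) (.node (.node (.I .tdb (.c 0 (.c 24 (.c 40 (.c 16 .nil)))) (.b 8257 (.b 48 .nil))) (.I .com (.c 3632106110100553 (.c 2113 .nil)) (.b 48 .nil))) (.node (.I .adp (.c 3632106110100553 (.c 2113 (.c 48 .nil))) .nil) (.I .adp (.c 169943369 (.c 8652867 (.c 48 .nil))) .nil)))))) (.node (.node (.node (.node (.node (.I .adp (.c 12801 (.c 598976858557705 (.c 48 .nil))) .nil) (.I .jac (.c 3491710045129801 (.c 24 (.c 32 .nil))) (.l 48 .nil))) (.node (.I .com (.c 3396677733571646404444524329246871661425999372304664290498631875401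 (.c 48 .nil)) .nil) (.I .com (.c 3396574178719587173931624198461597668386168770300894858596562866121 (.c 48 .nil)) .nil))) (.node (.node (.I .com (.c 1459028238553201487383875647147691525976777819702108720650928042643733257 (.c 48 .nil)) .nil) (.I .com (.c 1459023842844925867468420828021684755964922565981526554943558097493909257 (.c 48 .nil)) .nil)) (.node (.I .com (.c 1459015051463144568155825199432978510514296773393491038834870959328841609 (.c 48 .nil)) .nil) (.I .com (.c 1459015051463138101760139769329673717736448395317492620119230134858375049 (.c 48 .nil)) .nil)))) (.node (.node (.node (.I .com (.c 1459015051463142951556903841905136771689307225593286258548044359939493833 (.c 48 .nil)) .nil) (.I .jac (.c 13748192181200529289 (.c 16 (.c 24 .nil))) (.l 48 .nil))) (.node (.I .jac (.c 2306969673777850313 (.c 16 (.c 24 .nil))) (.l 48 .nil)) (.I .jac (.c 8193 (.c 8 (.c 40 .nil))) (.b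 4737 (.l 48 .nil))))) (.node (.node (.I .com (.c 14502375955699775287798242710605707702773253504726683624627973777921090328329 (.c 48 .nil)) .nil) (.I .com (.c 18291627070720922696274976743898254758175297153320935477897918752907045647233865 (.c 48 .nil)) .nil)) (.node (.I .com (.c 14502320647155140909428280329389864294219790362630035964032127632402744177481 (.c 48 .nil)) .nil) (.I .com (.c 1459015051463138101760139769329673280431039298452516197517724892297083849 (.c 48 .nil)) .nil))))) (.node (.node (.node (.node (.I .jac (.c 13748196208362033865 (.c 16 (.c 24 .nil))) (.l 48 .nil)) (.I .jac (.c 12801 (.c 8 (.c 32 .nil))) (.b 4737 (.l 48 .nil)))) (.node (.I .com (.c 18291648502882414453388965183791947417736824354939767884048301039223142960928521 (.c 48 .nil)) .nil) (.I .com (.c 18291648502882414453388965183791947416188430686465951168914945118966882142024521 (.c 48 .nil)) .nil))) (.node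 (.node (.I .adp (.c 1310924873 (.c 32 (.c 4737 .nil))) (.b 48 .nil)) (.I .jac (.c 1310924873 (.c 16 (.c 24 .nil))) (.r 32 (.b 48 .nil)))) (.node (.I .adp (.c 1512102306009786923259633531360632805129 (.c 32 (.c 48 .nil))) .nil) (.I .adp (.c 1512102306009786909181484737811290911561 (.c 32 (.c 48 .nil))) .nil)))) (.node (.node (.node (.I .ass (.c 48 (.c 651591722123533630921387187294153 (.c 32 .nil))) .nil) (.I .com (.c 48 (.c 651591722123533630921387187294153 .nil)) (.r 32 .nil))) (.node (.I .ass (.c 48 (.c 427056063571157203537696782463438793 (.c 32 .nil))) .nil) (.I .com (.c 48 (.c 427056063571157203537696782463438793 .nil)) (.r 32 .nil)))) (.node (.node (.I .adp (.c 1310924873 (.c 32 (.c 4737 .nil))) (.l 48 .nil)) (.I .jac (.c 1310924873 (.c 16 (.c 24 .nil))) (.r 32 (.l 48 .nil)))) (.node (.I .ass (.c 48 (.c 1512102306009786923259633531360632805129 (.c 32 .nil))) .nil) (.I .com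 (.c 48 (.c 1512102306009786923259633531360632805129 .nil)) (.r 32 .nil))))))))

noncomputable def c2_398 : Tr := (.node (.node (.node (.node (.node (.node (.I .ass (.c 48 (.c 1512102306009786909181484737811290911561 (.c 32 .nil))) .nil) (.I .com (.c 48 (.c 1512102306009786909181484737811290911561 .nil)) (.r 32 .nil))) (.node (.I .com (.c 14025206030552608521 (.c 48 .nil)) (.l 8193 .nil)) (.I .com (.c 14025204674709064521 (.c 48 .nil)) (.l 8193 .nil)))) (.node (.node (.I .tdb (.c 8 (.c 32 (.c 0 (.c 40 .nil)))) (.b 4737 (.b 48 .nil))) (.I .adp (.c 13748194865974800137 (.c 8257 (.c 48 .nil))) .nil)) (.node (.I .adp (.c 13748193523587631945 (.c 8257 (.c 48 .nil))) .nil) (.I .ass (.c 48 (.c 651591722123533630921387187294089 (.c 40 .nil))) .nil)))) (.node (.node (.node (.I .com (.c 48 (.c 651591722123533630921387187294089 .nil)) (.r 40 .nil)) (.I .ass (.c 48 (.c 427056063571157203537696782463438729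 (.c 40 .nil))) .nil)) (.node (.I .com (.c 48 (.c 427056063571157203537696782463438729 .nil)) (.r 40 .nil)) (.I .adp (.c 12801 (.c 8257 (.c 4737 .nil))) (.l 48 .nil)))) (.node (.node (.I .jac (.c 12801 (.c 16 (.c 24 .nil))) (.r 8257 (.l 48 .nil))) (.I .adp (.c 537002057 (.c 40 (.c 4737 .nil))) (.l 48 .nil))) (.node (.I .jac (.c 537002057 (.c 16 (.c 24 .nil))) (.r 40 (.l 48 .nil))) (.I .ass (.c 48 (.c 42576872605845444027759439362436273929 (.c 40 .nil))) .nil))))) (.node (.node (.node (.node (.I .com (.c 48 (.c 42576872605845444027759439362436273929 .nil)) (.r 40 .nil)) (.I .ass (.c 48 (.c 42576872605845441665422493413917717321 (.c 40 .nil))) .nil)) (.node (.I .com (.c 48 (.c 42576872605845441665422493413917717321 .nil)) (.r 40 .nil)) (.I .com (.c 1310925065 (.c 8 .nil)) (.b 4737 (.b 48 .nil))))) (.node (.node (.I .adp (.c 1310925065 (.c 8 (.c 4737 .nil))) (.b 48 .nil)) (.I .jac (.c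 8 (.c 16 (.c 24 .nil))) (.l 1310925065 (.b 48 .nil)))) (.node (.I .jac (.c 1310925065 (.c 16 (.c 24 .nil))) (.r 8 (.b 48 .nil))) (.I .adp (.c 1512103191868961664028723725600700192521 (.c 8 (.c 48 .nil))) .nil)))) (.node (.node (.node (.I .adp (.c 1512103191868961649950570808237977416521 (.c 8 (.c 48 .nil))) .nil) (.I .ass (.c 48 (.c 651601654921541717468315286321993 (.c 8 .nil))) .nil)) (.node (.I .com (.c 48 (.c 651601654921541717468315286321993 .nil)) (.r 8 .nil)) (.I .ass (.c 48 (.c 651596688508365770927126595477321 (.c 8 .nil))) .nil))) (.node (.node (.I .com (.c 48 (.c 651596688508365770927126595477321 .nil)) (.r 8 .nil)) (.I .ass (.c 48 (.c 651591722123570596944749659643785 (.c 8 .nil))) .nil)) (.node (.I .com (.c 48 (.c 651591722123570596944749659643785 .nil)) (.r 8 .nil)) (.I .ass (.c 48 (.c 651591722123561355438909041458121 (.c 8 .nil))) .nil)))))) (.node (.node (.node (.node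 (.node (.I .com (.c 48 (.c 651591722123561355438909041458121 .nil)) (.r 8 .nil)) (.I .ass (.c 48 (.c 427057993508084089288477468582296329 (.c 8 .nil))) .nil)) (.node (.I .com (.c 48 (.c 427057993508084089288477468582296329 .nil)) (.r 8 .nil)) (.I .ass (.c 48 (.c 427057350195048793444981206822395657 (.c 8 .nil))) .nil))) (.node (.node (.I .com (.c 48 (.c 427057350195048793444981206822395657 .nil)) (.r 8 .nil)) (.I .ass (.c 48 (.c 427056063571158149899930723770113929 (.c 8 .nil))) .nil)) (.node (.I .com (.c 48 (.c 427056063571158149899930723770113929 .nil)) (.r 8 .nil)) (.I .ass (.c 48 (.c 427056063571157913309372238443346889 (.c 8 .nil))) .nil)))) (.node (.node (.node (.I .com (.c 48 (.c 427056063571157913309372238443346889 .nil)) (.r 8 .nil)) (.I .com (.c 537002313 (.c 8 .nil)) (.b 4737 (.l 48 .nil)))) (.node (.I .adp (.c 537002313 (.c 8 (.c 4737 .nil))) (.l 48 .nil)) (.I .jac (.c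 8 (.c 16 (.c 24 .nil))) (.l 537002313 (.l 48 .nil))))) (.node (.node (.I .jac (.c 537002313 (.c 16 (.c 24 .nil))) (.r 8 (.l 48 .nil))) (.I .ass (.c 48 (.c 42576953795010656131941434981856024329 (.c 8 .nil))) .nil)) (.node (.I .com (.c 48 (.c 42576953795010656131941434981856024329 .nil)) (.r 8 .nil)) (.I .ass (.c 48 (.c 42576953795010653769602236682924913481 (.c 8 .nil))) .nil))))) (.node (.node (.node (.node (.I .com (.c 48 (.c 42576953795010653769602236682924913481 .nil)) (.r 8 .nil)) (.I .tdb (.c 0 (.c 16 (.c 32 (.c 8 .nil)))) (.b 12993 (.b 48 .nil)))) (.node (.I .tdb (.c 0 (.c 16 (.c 40 (.c 8 .nil)))) (.b 8385 (.b 48 .nil))) (.I .adp (.c 3423058053193929 (.c 8385 (.c 48 .nil))) .nil))) (.node (.node (.I .adp (.c 33587273 (.c 21307587 (.c 48 .nil))) .nil) (.I .tdb (.c 0 (.c 24 (.c 32 (.c 8 .nil)))) (.b 12929 (.b 48 .nil)))) (.node (.I .adp (.c 3423058053193993 (.c 8321 (.c 48 .nil)))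 .nil) (.I .tdb (.c 4609 (.c 40 (.c 8 (.c 48 .nil)))) (.l 8321 .nil))))) (.node (.node (.node (.I .tdb (.c 0 (.c 24 (.c 48 (.c 8 .nil)))) (.b 40 (.l 8321 .nil))) (.I .tdb (.c 4609 (.c 32 (.c 8 (.c 48 .nil)))) (.l 12929 .nil))) (.node (.I .tdb (.c 0 (.c 24 (.c 48 (.c 8 .nil)))) (.b 32 (.l 12929 .nil))) (.I .tdb (.c 16 (.c 24 (.c 32 (.c 8 .nil)))) (.l 12801 (.b 48 .nil))))) (.node (.node (.I .tdb (.c 0 (.c 32 (.c 8 (.c 40 .nil)))) (.b 4737 (.b 48 .nil))) (.I .adp (.c 20685315 (.c 179513609 (.c 48 .nil))) .nil)) (.node (.I .jac (.c 3423058053193929 (.c 24 (.c 32 .nil))) (.l 48 .nil)) (.I .tdb (.c 0 (.c 16 (.c 40 (.c 8 .nil)))) (.b 8385 (.l 48 .nil)))))))))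

noncomputable def c2_399 : Tr := (.node (.node (.node (.node (.node (.node (.I .tdb (.c 0 (.c 24 (.c 40 (.c 8 .nil)))) (.b 8321 (.l 48 .nil))) (.I .tdb (.c 0 (.c 32 (.c 8 (.c 40 .nil)))) (.b 4737 (.l 48 .nil)))) (.node (.I .adp (.c 12801 (.c 32 (.c 24 .nil))) (.b 2113 (.l 48 .nil))) (.I .adp (.c 12801 (.c 32 (.c 16 .nil))) (.b 4673 (.l 48 .nil))))) (.node (.node (.I .adp (.c 12801 (.c 32 (.c 8 .nil))) (.b 4737 (.l 48 .nil))) (.I .jac (.c 0 (.c 16 (.c 24 .nil))) (.r 21307459 (.b 48 .nil)))) (.node (.I .jac (.c 617611520073865 (.c 16 (.c 40 .nil))) (.l 48 .nil)) (.I .jac (.c 537002313 (.c 8 (.c 24 .nil))) (.b 16 (.l 48 .nil)))))) (.node (.node (.node (.I .jac (.c 537002313 (.c 2113 (.c 24 .nil))) (.l 48 .nil)) (.I .adp (.c 16 (.c 24 (.c 8 .nil))) (.b 1310925065 (.b 48 .nil)))) (.node (.I .com (.c 4673 (.c 16 .nil)) (.b 1310925065 (.b 48 .nil))) (.I .adp (.c 16 (.c 24 (.c 8 .nil)))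 (.b 1310925065 (.l 48 .nil))))) (.node (.node (.I .com (.c 4673 (.c 16 .nil)) (.b 1310925065 (.l 48 .nil))) (.I .adp (.c 4673 (.c 16 (.c 1310925065 .nil))) (.l 48 .nil))) (.node (.I .com (.c 13748196208362033929 (.c 4673 .nil)) (.l 48 .nil)) (.I .adp (.c 2113 (.c 24 (.c 1310925065 .nil))) (.l 48 .nil)))))) (.node (.node (.node (.node (.I .com (.c 13748196208362033993 (.c 2113 .nil)) (.l 48 .nil)) (.I .adp (.c 16 (.c 24 (.c 8 .nil))) (.b 537002313 (.l 48 .nil)))) (.node (.I .com (.c 4673 (.c 16 .nil)) (.b 537002313 (.l 48 .nil))) (.I .ass (.c 48 (.c 13748196208362033929 (.c 4673 .nil))) .nil))) (.node (.node (.I .com (.c 48 (.c 13748196208362033929 .nil)) (.r 4673 .nil)) (.I .adp (.c 12865 (.c 32 (.c 169943177 .nil))) (.l 48 .nil))) (.node (.I .adp (.c 8257 (.c 40 (.c 169943177 .nil))) (.l 48 .nil)) (.I .adp (.c 12865 (.c 32 (.c 33587401 .nil))) (.l 48 .nil))))) (.node (.node (.node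 (.I .adp (.c 8257 (.c 40 (.c 33587401 .nil))) (.l 48 .nil)) (.I .tdb (.c 0 (.c 40 (.c 16 (.c 32 .nil)))) (.l 4673 (.b 48 .nil)))) (.node (.I .com (.c 598967998054793 (.c 4673 .nil)) (.b 48 .nil)) (.I .tdb (.c 0 (.c 40 (.c 24 (.c 32 .nil)))) (.l 2113 (.b 48 .nil))))) (.node (.node (.I .com (.c 617611520074121 (.c 2113 .nil)) (.b 48 .nil)) (.I .tdb (.c 0 (.c 32 (.c 16 (.c 40 .nil)))) (.l 4673 (.b 48 .nil)))) (.node (.I .com (.c 3491688652046665 (.c 4673 .nil)) (.b 48 .nil)) (.I .adp (.c 617611520074121 (.c 2113 (.c 48 .nil))) .nil)))))) (.node (.node (.node (.node (.node (.I .adp (.c 3491688652046665 (.c 4673 (.c 48 .nil))) .nil) (.I .adp (.c 598967998054793 (.c 4673 (.c 48 .nil))) .nil)) (.node (.I .jac (.c 231045293249046409 (.c 16 (.c 40 .nil))) (.l 48 .nil)) (.I .jac (.c 169943113 (.c 16 (.c 40 .nil))) (.b 32 (.l 48 .nil))))) (.node (.node (.I .jac (.c 169943113 (.c 16 (.c 32 .nil)))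 (.b 40 (.l 48 .nil))) (.I .adp (.c 8 (.c 24 (.c 16 .nil))) (.b 1310925065 (.b 48 .nil)))) (.node (.I .jac (.c 169943305 (.c 16 (.c 40 .nil))) (.r 8 (.l 48 .nil))) (.I .jac (.c 169943369 (.c 16 (.c 32 .nil))) (.r 8 (.l 48 .nil)))))) (.node (.node (.node (.I .adp (.c 8 (.c 24 (.c 16 .nil))) (.b 537002313 (.l 48 .nil))) (.I .ass (.c 48 (.c 13748196208362033865 (.c 4737 .nil))) .nil)) (.node (.I .com (.c 48 (.c 13748196208362033865 .nil)) (.r 4737 .nil)) (.I .jac (.c 169943113 (.c 16 (.c 40 .nil))) (.r 32 (.l 48 .nil))))) (.node (.node (.I .jac (.c 169943113 (.c 16 (.c 32 .nil))) (.r 40 (.l 48 .nil))) (.I .adp (.c 580749782704521 (.c 4737 (.c 48 .nil))) .nil)) (.node (.I .jac (.c 8 (.c 16 (.c 40 .nil))) (.l 169943305 (.l 48 .nil))) (.I .jac (.c 8 (.c 16 (.c 32 .nil))) (.l 169943369 (.l 48 .nil))))))) (.node (.node (.node (.node (.I .jac (.c 12801 (.c 8 (.c 32 .nil))) (.r 4737 (.l 48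 .nil))) (.I .jac (.c 35464401931209 (.c 24 (.c 32 .nil))) (.l 48 .nil))) (.node (.I .jac (.c 9024839260612489 (.c 24 (.c 40 .nil))) (.l 48 .nil)) (.I .jac (.c 33587273 (.c 24 (.c 40 .nil))) (.b 32 (.l 48 .nil))))) (.node (.node (.I .jac (.c 33587273 (.c 24 (.c 32 .nil))) (.b 40 (.l 48 .nil))) (.I .jac (.c 2105481 (.c 24 (.c 40 .nil))) (.b 32 (.l 48 .nil)))) (.node (.I .adp (.c 8 (.c 16 (.c 24 .nil))) (.b 1310925065 (.b 48 .nil))) (.I .jac (.c 2487083360649 (.c 24 (.c 32 .nil))) (.l 48 .nil))))) (.node (.node (.node (.I .jac (.c 557571 (.c 24 (.c 40 .nil))) (.b 32 (.l 48 .nil))) (.I .jac (.c 557571 (.c 24 (.c 32 .nil))) (.b 40 (.l 48 .nil)))) (.node (.I .jac (.c 33587465 (.c 24 (.c 40 .nil))) (.r 8 (.l 48 .nil))) (.I .jac (.c 33587529 (.c 24 (.c 32 .nil))) (.r 8 (.l 48 .nil))))) (.node (.node (.I .adp (.c 8 (.c 16 (.c 24 .nil))) (.b 537002313 (.l 48 .nil))) (.I .jac (.c 33587273 (.c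 24 (.c 40 .nil))) (.r 32 (.l 48 .nil)))) (.node (.I .jac (.c 33587273 (.c 24 (.c 32 .nil))) (.r 40 (.l 48 .nil))) (.I .com (.c 2487083360585 (.c 12993 .nil)) (.b 48 .nil))))))))

noncomputable def c2_400 : Tr := (.node (.node (.node (.node (.node (.node (.I .com (.c 2487083360649 (.c 8385 .nil)) (.b 48 .nil)) (.I .adp (.c 2487083360649 (.c 8385 (.c 48 .nil))) .nil)) (.node (.I .adp (.c 2487083360585 (.c 12993 (.c 48 .nil))) .nil) (.I .jac (.c 8 (.c 24 (.c 40 .nil))) (.l 33587465 (.l 48 .nil))))) (.node (.node (.I .jac (.c 8 (.c 24 (.c 32 .nil))) (.l 33587529 (.l 48 .nil))) (.I .jac (.c 12801 (.c 24 (.c 32 .nil))) (.r 2113 (.l 48 .nil)))) (.node (.I .com (.c 810311000704513416363896072256098297889288533119081182153 (.c 48 .nil)) .nil) (.I .jac (.c 2306970773558193929 (.c 8 (.c 40 .nil))) (.l 48 .nil))))) (.node (.node (.node (.I .jac (.c 537002185 (.c 2113 (.c 40 .nil))) (.l 48 .nil))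 (.I .jac (.c 537002185 (.c 8 (.c 16 .nil))) (.b 40 (.l 48 .nil)))) (.node (.I .jac (.c 537002121 (.c 8 (.c 40 .nil))) (.b 24 (.l 48 .nil))) (.I .jac (.c 8193 (.c 8 (.c 24 .nil))) (.b 40 (.b 16 (.l 48 .nil)))))) (.node (.node (.I .jac (.c 8193 (.c 35718473 (.c 24 .nil))) (.l 48 .nil)) (.I .jac (.c 8193 (.c 8 (.c 16 .nil))) (.b 40 (.b 24 (.l 48 .nil))))) (.node (.I .jac (.c 8193 (.c 174695561 (.c 40 .nil))) (.l 48 .nil)) (.I .com (.c 14502320647155136081544158742250277910821791427207744583153900257521592541001 (.c 48 .nil)) .nil))))) (.node (.node (.node (.node (.I .com (.c 14502320647155137690838865937963339349496714001264282867190274572297000776649 (.c 48 .nil)) .nil) (.I .com (.c 3396677733571839102889236125597588975287889370009921596176966176649 (.c 48 .nil)) .nil)) (.node (.I .jac (.c 2306970223667989321 (.c 8 (.c 40 .nil))) (.l 48 .nil)) (.I .jac (.c 537002121 (.c 8 (.c 24 .nil)))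 (.b 40 (.l 48 .nil))))) (.node (.node (.I .jac (.c 8193 (.c 12865 (.c 24 .nil))) (.b 16 (.l 48 .nil))) (.I .jac (.c 8193 (.c 35718345 (.c 40 .nil))) (.l 48 .nil))) (.node (.I .jac (.c 8193 (.c 2113 (.c 24 .nil))) (.b 40 (.l 48 .nil))) (.I .com (.c 14502320647155136081544158742250277823624356330436280052368633745818107336649 (.c 48 .nil)) .nil)))) (.node (.node (.node (.I .adp (.c 1310924937 (.c 24 (.c 8257 .nil))) (.b 48 .nil)) (.I .ass (.c 48 (.c 10065461098035008044835206025 (.c 24 .nil))) .nil)) (.node (.I .com (.c 48 (.c 10065461098035008044835206025 .nil)) (.r 24 .nil)) (.I .ass (.c 48 (.c 10064237431983265346846634953 (.c 24 .nil))) .nil))) (.node (.node (.I .com (.c 48 (.c 10064237431983265346846634953 .nil)) (.r 24 .nil)) (.I .jac (.c 537002121 (.c 8 (.c 40 .nil))) (.r 24 (.l 48 .nil)))) (.node (.I .ass (.c 48 (.c 42576892903125866125508513263802588873 (.c 24 .nil))) .nil)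 (.I .com (.c 48 (.c 42576892903125866125508513263802588873 .nil)) (.r 24 .nil))))))) (.node (.node (.node (.node (.node (.I .ass (.c 48 (.c 42576872605845448752433331259473583881 (.c 24 .nil))) .nil) (.I .com (.c 48 (.c 42576872605845448752433331259473583881 .nil)) (.r 24 .nil))) (.node (.I .ass (.c 48 (.c 42576872605845441665422493413917717449 (.c 24 .nil))) .nil) (.I .com (.c 48 (.c 42576872605845441665422493413917717449 .nil)) (.r 24 .nil)))) (.node (.node (.I .adp (.c 1310924937 (.c 24 (.c 8257 .nil))) (.l 48 .nil)) (.I .ass (.c 48 (.c 651601654921513992739479373959049 (.c 24 .nil))) .nil)) (.node (.I .com (.c 48 (.c 651601654921513992739479373959049 .nil)) (.r 24 .nil)) (.I .ass (.c 48 (.c 1310924937 (.c 545424585 .nil))) .nil)))) (.node (.node (.node (.I .com (.c 48 (.c 1310924937 .nil)) (.r 545424585 .nil)) (.I .adp (.c 12801 (.c 4737 (.c 8257 .nil))) (.l 48 .nil))) (.node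 (.I .ass (.c 48 (.c 13748192181200529289 (.c 4737 .nil))) .nil) (.I .com (.c 48 (.c 13748192181200529289 .nil)) (.r 4737 .nil)))) (.node (.node (.I .com (.c 1310925001 (.c 16 .nil)) (.b 8257 (.b 48 .nil))) (.I .adp (.c 1310925001 (.c 16 (.c 8257 .nil))) (.b 48 .nil))) (.node (.I .com (.c 10065461098071330215985125257 (.c 16 .nil)) (.l 48 .nil)) (.I .com (.c 10064237432019585310071936969 (.c 16 .nil)) (.l 48 .nil)))))) (.node (.node (.node (.node (.I .ass (.c 48 (.c 10065461098071330215985125257 (.c 16 .nil))) .nil) (.I .com (.c 48 (.c 10065461098071330215985125257 .nil)) (.r 16 .nil))) (.node (.I .ass (.c 48 (.c 10064237432019585310071936969 (.c 16 .nil))) .nil) (.I .com (.c 48 (.c 10064237432019585310071936969 .nil)) (.r 16 .nil)))) (.node (.node (.I .jac (.c 537002185 (.c 8 (.c 40 .nil))) (.r 16 (.l 48 .nil))) (.I .ass (.c 48 (.c 42576913200413540599411453941751701193 (.c 16 .nil)))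 .nil)) (.node (.I .com (.c 48 (.c 42576913200413540599411453941751701193 .nil)) (.r 16 .nil)) (.I .ass (.c 48 (.c 42576872605845448752433331259473583945 (.c 16 .nil))) .nil)))) (.node (.node (.node (.I .com (.c 48 (.c 42576872605845448752433331259473583945 .nil)) (.r 16 .nil)) (.I .ass (.c 48 (.c 42576872605845444027759439362436274121 (.c 16 .nil))) .nil)) (.node (.I .com (.c 48 (.c 42576872605845444027759439362436274121 .nil)) (.r 16 .nil)) (.I .com (.c 1310925001 (.c 16 .nil)) (.b 8257 (.l 48 .nil))))) (.node (.node (.I .jac (.c 1310925001 (.c 8 (.c 32 .nil))) (.r 16 (.l 48 .nil))) (.I .ass (.c 48 (.c 1512102896582526849770380112053152561865 (.c 16 .nil))) .nil)) (.node (.I .com (.c 48 (.c 1512102896582526849770380112053152561865 .nil)) (.r 16 .nil)) (.I .ass (.c 48 (.c 1512102896582526807535925483778566442889 (.c 16 .nil))) .nil)))))))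

noncomputable def c2_401 : Tr := (.node (.node (.node (.node (.node (.node (.I .com (.c 48 (.c 1512102896582526807535925483778566442889 .nil)) (.r 16 .nil)) (.I .ass (.c 48 (.c 427057993508083379515198226665525129 (.c 16 .nil))) .nil)) (.node (.I .com (.c 48 (.c 427057993508083379515198226665525129 .nil)) (.r 16 .nil)) (.I .tdb (.c 0 (.c 8 (.c 16 (.c 24 .nil)))) (.l 13057 (.b 48 .nil))))) (.node (.node (.I .com (.c 62886542409865 (.c 13057 .nil)) (.b 48 .nil)) (.I .adp (.c 62886542409865 (.c 13057 (.c 48 .nil))) .nil)) (.node (.I .tdb (.c 513 (.c 16 (.c 48 (.c 24 .nil)))) (.l 13057 .nil)) (.I .tdb (.c 0 (.c 8 (.c 24 (.c 48 .nil)))) (.b 16 (.l 13057 .nil)))))) (.node (.node (.node (.I .tdb (.c 0 (.c 32 (.c 16 (.c 24 .nil)))) (.b 12865 (.b 48 .nil))) (.I .adp (.c 537002313 (.c 2803779 (.c 48 .nil))) .nil)) (.node (.I .com (.c 3396625955800353299884767459015385612256323329785217664834308231113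 (.c 48 .nil)) .nil) (.I .com (.c 14502334474273994737414675204173677358479146806277544375998964923129615699913 (.c 48 .nil)) .nil))) (.node (.node (.I .jac (.c 13748192181200529225 (.c 16 (.c 32 .nil))) (.l 48 .nil)) (.I .com (.c 1459028238553201487383875647147690651362007115147347473524959831648400265 (.c 48 .nil)) .nil)) (.node (.I .jac (.c 12801 (.c 8 (.c 24 .nil))) (.b 8321 (.b 48 .nil))) (.I .com (.c 14502334474273991518822959259732641339268152602353466784623480578277457074121 (.c 48 .nil)) .nil))))) (.node (.node (.node (.node (.I .com (.c 18291641358826142093478020620972318824319074778225956274863393494134643989330697 (.c 48 .nil)) .nil) (.I .com (.c 18291641358826142093478020620972318821222288046024941373029818103356139914425225 (.c 48 .nil)) .nil)) (.node (.I .adp (.c 1310924873 (.c 24 (.c 8321 .nil))) (.b 48 .nil)) (.I .ass (.c 48 (.c 651596688508328804762888218546121 (.c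 24 .nil))) .nil))) (.node (.node (.I .com (.c 48 (.c 651596688508328804762888218546121 .nil)) (.r 24 .nil)) (.I .ass (.c 48 (.c 42576892903125856676158477119718330313 (.c 24 .nil))) .nil)) (.node (.I .com (.c 48 (.c 42576892903125856676158477119718330313 .nil)) (.r 24 .nil)) (.I .ass (.c 48 (.c 1310924873 (.c 553912521 .nil))) .nil)))) (.node (.node (.node (.I .com (.c 48 (.c 1310924873 .nil)) (.r 553912521 .nil)) (.I .adp (.c 13748193523587632009 (.c 4673 (.c 48 .nil))) .nil)) (.node (.I .adp (.c 169943113 (.c 40 (.c 8321 .nil))) (.l 48 .nil)) (.I .ass (.c 48 (.c 13748193523587632009 (.c 4673 .nil))) .nil))) (.node (.node (.I .com (.c 48 (.c 13748193523587632009 .nil)) (.r 4673 .nil)) (.I .com (.c 1310925001 (.c 8 .nil)) (.b 8321 (.b 48 .nil)))) (.node (.I .adp (.c 1310925001 (.c 8 (.c 8321 .nil))) (.b 48 .nil)) (.I .jac (.c 8 (.c 16 (.c 32 .nil))) (.l 1310925001 (.b 48 .nil))))))))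 (.node (.node (.node (.node (.node (.I .jac (.c 1310925001 (.c 16 (.c 32 .nil))) (.r 8 (.b 48 .nil))) (.I .adp (.c 1512102896582526849770380112053152561929 (.c 8 (.c 48 .nil))) .nil)) (.node (.I .adp (.c 1512102896582526821614077026536761750409 (.c 8 (.c 48 .nil))) .nil) (.I .ass (.c 48 (.c 651601654921532475892036648802185 (.c 8 .nil))) .nil))) (.node (.node (.I .com (.c 48 (.c 651601654921532475892036648802185 .nil)) (.r 8 .nil)) (.I .ass (.c 48 (.c 651596688508347287845007406880713 (.c 8 .nil))) .nil)) (.node (.I .com (.c 48 (.c 651596688508347287845007406880713 .nil)) (.r 8 .nil)) (.I .ass (.c 48 (.c 42576913200413540599411453941751701257 (.c 8 .nil))) .nil)))) (.node (.node (.node (.I .com (.c 48 (.c 42576913200413540599411453941751701257 .nil)) (.r 8 .nil)) (.I .ass (.c 48 (.c 42576892903125866125508513263802589001 (.c 8 .nil))) .nil)) (.node (.I .com (.c 48 (.c 42576892903125866125508513263802589001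 .nil)) (.r 8 .nil)) (.I .ass (.c 48 (.c 42576892903125861400833495191760328649 (.c 8 .nil))) .nil))) (.node (.node (.I .com (.c 48 (.c 42576892903125861400833495191760328649 .nil)) (.r 8 .nil)) (.I .com (.c 169943369 (.c 8 .nil)) (.b 8321 (.l 48 .nil)))) (.node (.I .adp (.c 169943369 (.c 8 (.c 8321 .nil))) (.l 48 .nil)) (.I .ass (.c 48 (.c 427057993508083616106291307304383369 (.c 8 .nil))) .nil))))) (.node (.node (.node (.node (.I .com (.c 48 (.c 427057993508083616106291307304383369 .nil)) (.r 8 .nil)) (.I .com (.c 59555558875337 (.c 13057 .nil)) (.b 48 .nil))) (.node (.I .tdb (.c 0 (.c 16 (.c 8 (.c 24 .nil)))) (.b 13057 (.b 48 .nil))) (.I .adp (.c 59555558875337 (.c 13057 (.c 48 .nil))) .nil))) (.node (.node (.I .tdb (.c 24 (.c 2049 (.c 8 (.c 48 .nil)))) (.l 13057 .nil)) (.I .tdb (.c 0 (.c 16 (.c 48 (.c 8 .nil)))) (.b 24 (.l 13057 .nil)))) (.node (.I .tdb (.c 8 (.c 2049 (.c 24 (.c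 48 .nil)))) (.l 13057 .nil)) (.I .tdb (.c 0 (.c 16 (.c 48 (.c 24 .nil)))) (.b 8 (.l 13057 .nil)))))) (.node (.node (.node (.I .tdb (.c 40 (.c 8193 (.c 8 (.c 48 .nil)))) (.l 4737 .nil)) (.I .tdb (.c 0 (.c 32 (.c 8 (.c 48 .nil)))) (.b 40 (.l 4737 .nil)))) (.node (.I .tdb (.c 24 (.c 8193 (.c 8 (.c 48 .nil)))) (.l 12929 .nil)) (.I .adp (.c 537002057 (.c 21099139 (.c 48 .nil))) .nil))) (.node (.node (.I .tdb (.c 0 (.c 16 (.c 8 (.c 24 .nil)))) (.b 13057 (.l 48 .nil))) (.I .tdb (.c 0 (.c 32 (.c 8 (.c 24 .nil)))) (.b 12929 (.l 48 .nil)))) (.node (.I .tdb (.c 8 (.c 16 (.c 0 (.c 24 .nil)))) (.b 13057 (.b 48 .nil))) (.I .tdb (.c 8 (.c 32 (.c 0 (.c 24 .nil)))) (.b 12929 (.b 48 .nil)))))))))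

noncomputable def c2_402 : Tr := (.node (.node (.node (.node (.node (.node (.I .tdb (.c 40 (.c 8257 (.c 0 (.c 48 .nil)))) (.l 4737 .nil)) (.I .tdb (.c 8 (.c 32 (.c 0 (.c 48 .nil)))) (.b 40 (.l 4737 .nil)))) (.node (.I .jac (.c 1310925001 (.c 8 (.c 32 .nil))) (.b 16 (.l 48 .nil))) (.I .jac (.c 1310925001 (.c 2113 (.c 32 .nil))) (.l 48 .nil)))) (.node (.node (.I .jac (.c 1310925001 (.c 8 (.c 16 .nil))) (.b 32 (.l 48 .nil))) (.I .adp (.c 8257 (.c 16 (.c 1310925001 .nil))) (.b 48 .nil))) (.node (.I .com (.c 13748194865974800137 (.c 8257 .nil)) (.b 48 .nil)) (.I .adp (.c 2113 (.c 32 (.c 1310925001 .nil))) (.b 48 .nil))))) (.node (.node (.node (.I .com (.c 13748194865974800265 (.c 2113 .nil)) (.b 48 .nil)) (.I .adp (.c 13748194865974800265 (.c 2113 (.c 48 .nil))) .nil)) (.node (.I .adp (.c 16 (.c 32 (.c 8 .nil))) (.b 1310925001 (.l 48 .nil))) (.I .com (.c 8257 (.c 16 .nil)) (.b 1310925001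 (.l 48 .nil))))) (.node (.node (.I .adp (.c 8257 (.c 16 (.c 1310925001 .nil))) (.l 48 .nil)) (.I .com (.c 13748194865974800137 (.c 8257 .nil)) (.l 48 .nil))) (.node (.I .adp (.c 2113 (.c 32 (.c 1310925001 .nil))) (.l 48 .nil)) (.I .com (.c 13748194865974800265 (.c 2113 .nil)) (.l 48 .nil)))))) (.node (.node (.node (.node (.I .adp (.c 8257 (.c 16 (.c 169943369 .nil))) (.l 48 .nil)) (.I .adp (.c 2113 (.c 32 (.c 169943369 .nil))) (.l 48 .nil))) (.node (.I .adp (.c 24 (.c 40 (.c 8 .nil))) (.b 537002121 (.l 48 .nil))) (.I .com (.c 12865 (.c 24 .nil)) (.b 537002121 (.l 48 .nil))))) (.node (.node (.I .adp (.c 12865 (.c 24 (.c 33587465 .nil))) (.l 48 .nil)) (.I .adp (.c 4673 (.c 40 (.c 33587465 .nil))) (.l 48 .nil))) (.node (.I .jac (.c 537002057 (.c 12929 (.c 24 .nil))) (.l 48 .nil)) (.I .jac (.c 537002057 (.c 16 (.c 24 .nil))) (.b 40 (.l 48 .nil)))))) (.node (.node (.node (.I .adp (.c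 8 (.c 32 (.c 16 .nil))) (.b 1310925001 (.b 48 .nil))) (.I .jac (.c 537002185 (.c 16 (.c 40 .nil))) (.r 8 (.l 48 .nil)))) (.node (.I .adp (.c 8 (.c 32 (.c 16 .nil))) (.b 169943369 (.l 48 .nil))) (.I .adp (.c 12929 (.c 24 (.c 2105609 .nil))) (.l 48 .nil)))) (.node (.node (.I .adp (.c 24 (.c 40 (.c 16 .nil))) (.b 537002057 (.l 48 .nil))) (.I .com (.c 12929 (.c 24 .nil)) (.b 537002057 (.l 48 .nil)))) (.node (.I .jac (.c 537002057 (.c 16 (.c 40 .nil))) (.r 24 (.l 48 .nil))) (.I .com (.c 580749782704521 (.c 4737 .nil)) (.b 48 .nil))))))) (.node (.node (.node (.node (.node (.I .jac (.c 8 (.c 16 (.c 40 .nil))) (.l 537002185 (.l 48 .nil))) (.I .adp (.c 24 (.c 40 (.c 8193 .nil))) (.b 2113 (.l 48 .nil)))) (.node (.I .adp (.c 8 (.c 16 (.c 32 .nil))) (.b 1310925001 (.b 48 .nil))) (.I .adp (.c 8 (.c 16 (.c 32 .nil))) (.b 169943369 (.l 48 .nil))))) (.node (.node (.I .jac (.c 8 (.c 32 (.c 40 .nil)))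 (.l 33587401 (.l 48 .nil))) (.I .jac (.c 16 (.c 32 (.c 40 .nil))) (.l 2105545 (.l 48 .nil)))) (.node (.I .jac (.c 2049 (.c 8 (.c 40 .nil))) (.b 8385 (.b 48 .nil))) (.I .com (.c 14502348301404385607403421007397079477287848848522391215863522373346766163913 (.c 48 .nil)) .nil)))) (.node (.node (.node (.I .jac (.c 9024976834606793 (.c 24 (.c 32 .nil))) (.l 48 .nil)) (.I .jac (.c 35470870263561 (.c 24 (.c 32 .nil))) (.l 48 .nil))) (.node (.I .com (.c 18291627070720922015071736581502747126965136409661078714893597428282588481125193 (.c 48 .nil)) .nil) (.I .com (.c 18291627070720922015071736581502747125416743648307056919891757056763826587654025 (.c 48 .nil)) .nil))) (.node (.node (.I .jac (.c 12801 (.c 8 (.c 16 .nil))) (.b 8385 (.b 48 .nil))) (.I .jac (.c 0 (.c 2113 (.c 40 .nil))) (.b 8385 (.l 48 .nil)))) (.node (.I .jac (.c 0 (.c 8 (.c 16 .nil))) (.b 40 (.b 8385 (.l 48 .nil)))) (.I .com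 (.c 18291634214772311167410121687061768180923972058656854735282993568177602679716681 (.c 48 .nil)) .nil))))) (.node (.node (.node (.node (.I .com (.c 18291634214772311167410121687061768179375578994929612262547277799985801569048457 (.c 48 .nil)) .nil) (.I .adp (.c 1310924873 (.c 16 (.c 8385 .nil))) (.b 48 .nil))) (.node (.I .jac (.c 16 (.c 24 (.c 32 .nil))) (.l 1310924873 (.b 48 .nil))) (.I .jac (.c 1310924873 (.c 24 (.c 32 .nil))) (.r 16 (.b 48 .nil))))) (.node (.node (.I .ass (.c 48 (.c 427057350195047847081321678284722121 (.c 16 .nil))) .nil) (.I .com (.c 48 (.c 427057350195047847081321678284722121 .nil)) (.r 16 .nil))) (.node (.I .ass (.c 48 (.c 42576913200413531150059165447389106121 (.c 16 .nil))) .nil) (.I .com (.c 48 (.c 42576913200413531150059165447389106121 .nil)) (.r 16 .nil))))) (.node (.node (.node (.I .adp (.c 1310924873 (.c 16 (.c 8385 .nil))) (.l 48 .nil)) (.I .jac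 (.c 16 (.c 24 (.c 32 .nil))) (.l 1310924873 (.l 48 .nil)))) (.node (.I .jac (.c 1310924873 (.c 24 (.c 32 .nil))) (.r 16 (.l 48 .nil))) (.I .ass (.c 48 (.c 1512102306009786937337782324909974764361 (.c 16 .nil))) .nil))) (.node (.node (.I .com (.c 48 (.c 1512102306009786937337782324909974764361 .nil)) (.r 16 .nil)) (.I .ass (.c 48 (.c 1512102306009786923259633531360632805257 (.c 16 .nil))) .nil)) (.node (.I .com (.c 48 (.c 1512102306009786923259633531360632805257 .nil)) (.r 16 .nil)) (.I .adp (.c 12801 (.c 2113 (.c 8385 .nil))) (.l 48 .nil))))))))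

noncomputable def c2_403 : Tr := (.node (.node (.node (.node (.node (.node (.I .adp (.c 33587273 (.c 40 (.c 8385 .nil))) (.l 48 .nil)) (.I .com (.c 1310924937 (.c 8 .nil)) (.b 8385 (.b 48 .nil)))) (.node (.I .adp (.c 1310924937 (.c 8 (.c 8385 .nil))) (.b 48 .nil)) (.I .jac (.c 8 (.c 24 (.c 32 .nil))) (.l 1310924937 (.b 48 .nil))))) (.node (.node (.I .jac (.c 1310924937 (.c 24 (.c 32 .nil))) (.r 8 (.b 48 .nil))) (.I .adp (.c 1512102601296135269515422934336011008841 (.c 8 (.c 48 .nil))) .nil)) (.node (.I .adp (.c 1512102601296135255437272766182275864457 (.c 8 (.c 48 .nil))) .nil) (.I .ass (.c 48 (.c 427057350195048083672236560419042249 (.c 8 .nil))) .nil)))) (.node (.node (.node (.I .com (.c 48 (.c 427057350195048083672236560419042249 .nil)) (.r 8 .nil)) (.I .ass (.c 48 (.c 42576913200413533512397237570979656649 (.c 8 .nil))) .nil)) (.node (.I .com (.c 48 (.c 42576913200413533512397237570979656649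 .nil)) (.r 8 .nil)) (.I .com (.c 33587529 (.c 8 .nil)) (.b 8385 (.l 48 .nil))))) (.node (.node (.I .adp (.c 33587529 (.c 8 (.c 8385 .nil))) (.l 48 .nil)) (.I .tdb (.c 0 (.c 24 (.c 8 (.c 16 .nil)))) (.l 13057 (.b 48 .nil)))) (.node (.I .tdb (.c 16 (.c 4609 (.c 8 (.c 48 .nil)))) (.l 13057 .nil)) (.I .tdb (.c 0 (.c 24 (.c 48 (.c 8 .nil)))) (.b 16 (.l 13057 .nil))))))) (.node (.node (.node (.node (.I .tdb (.c 0 (.c 32 (.c 8 (.c 16 .nil)))) (.l 12993 (.b 48 .nil))) (.I .tdb (.c 8 (.c 8193 (.c 16 (.c 48 .nil)))) (.l 12993 .nil))) (.node (.I .tdb (.c 0 (.c 40 (.c 8 (.c 16 .nil)))) (.b 8385 (.b 48 .nil))) (.I .tdb (.c 0 (.c 40 (.c 8 (.c 16 .nil)))) (.b 8385 (.l 48 .nil))))) (.node (.node (.I .adp (.c 12801 (.c 16 (.c 32 .nil))) (.b 4673 (.l 48 .nil))) (.I .adp (.c 12801 (.c 16 (.c 24 .nil))) (.b 8257 (.l 48 .nil)))) (.node (.I .adp (.c 12801 (.c 16 (.c 8 .nil))) (.b 8385 (.l 48 .nil))) (.I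 .com (.c 598967998054537 (.c 12993 .nil)) (.b 48 .nil))))) (.node (.node (.node (.I .jac (.c 1310924937 (.c 8257 (.c 24 .nil))) (.l 48 .nil)) (.I .jac (.c 1310924937 (.c 8 (.c 24 .nil))) (.b 32 (.l 48 .nil)))) (.node (.I .adp (.c 8257 (.c 24 (.c 1310924937 .nil))) (.b 48 .nil)) (.I .com (.c 13748193523587631945 (.c 8257 .nil)) (.b 48 .nil)))) (.node (.node (.I .adp (.c 4673 (.c 32 (.c 1310924937 .nil))) (.b 48 .nil)) (.I .com (.c 13748193523587632009 (.c 4673 .nil)) (.b 48 .nil))) (.node (.I .com (.c 8257 (.c 24 .nil)) (.b 1310924937 (.l 48 .nil))) (.I .adp (.c 24 (.c 32 (.c 8 .nil))) (.b 1310924937 (.l 48 .nil)))))))) (.node (.node (.node (.node (.node (.I .adp (.c 8257 (.c 24 (.c 1310924937 .nil))) (.l 48 .nil)) (.I .com (.c 13748193523587631945 (.c 8257 .nil)) (.l 48 .nil))) (.node (.I .adp (.c 4673 (.c 32 (.c 1310924937 .nil))) (.l 48 .nil)) (.I .com (.c 13748193523587632009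 (.c 4673 .nil)) (.l 48 .nil)))) (.node (.node (.I .adp (.c 8257 (.c 24 (.c 33587529 .nil))) (.l 48 .nil)) (.I .adp (.c 4673 (.c 32 (.c 33587529 .nil))) (.l 48 .nil))) (.node (.I .adp (.c 16 (.c 40 (.c 8 .nil))) (.b 537002185 (.l 48 .nil))) (.I .com (.c 12865 (.c 16 .nil)) (.b 537002185 (.l 48 .nil)))))) (.node (.node (.node (.I .adp (.c 12865 (.c 16 (.c 169943305 .nil))) (.l 48 .nil)) (.I .adp (.c 2113 (.c 40 (.c 169943305 .nil))) (.l 48 .nil))) (.node (.I .adp (.c 8 (.c 32 (.c 24 .nil))) (.b 1310924937 (.b 48 .nil))) (.I .adp (.c 8 (.c 32 (.c 24 .nil))) (.b 33587529 (.l 48 .nil))))) (.node (.node (.I .adp (.c 16 (.c 12993 (.c 2105609 .nil))) (.l 48 .nil)) (.I .adp (.c 16 (.c 40 (.c 24 .nil))) (.b 537002057 (.l 48 .nil)))) (.node (.I .tdb (.c 0 (.c 8 (.c 16 (.c 32 .nil)))) (.l 12993 (.b 48 .nil))) (.I .jac (.c 8 (.c 24 (.c 40 .nil))) (.l 537002121 (.l 48 .nil))))))) (.node (.node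 (.node (.node (.I .adp (.c 16 (.c 40 (.c 8193 .nil))) (.b 4673 (.l 48 .nil))) (.I .adp (.c 8 (.c 24 (.c 32 .nil))) (.b 1310924937 (.b 48 .nil)))) (.node (.I .adp (.c 8 (.c 24 (.c 32 .nil))) (.b 33587529 (.l 48 .nil))) (.I .jac (.c 8 (.c 32 (.c 40 .nil))) (.l 169943177 (.l 48 .nil))))) (.node (.node (.I .jac (.c 24 (.c 32 (.c 40 .nil))) (.l 2105481 (.l 48 .nil))) (.I .tdb (.c 16 (.c 24 (.c 0 (.c 8 .nil)))) (.l 13057 (.b 48 .nil)))) (.node (.I .jac (.c 1310924873 (.c 8321 (.c 24 .nil))) (.l 48 .nil)) (.I .jac (.c 1310924873 (.c 16 (.c 24 .nil))) (.b 32 (.l 48 .nil)))))) (.node (.node (.node (.I .adp (.c 8321 (.c 24 (.c 1310924873 .nil))) (.b 48 .nil)) (.I .com (.c 13748192181200529225 (.c 8321 .nil)) (.b 48 .nil))) (.node (.I .com (.c 8321 (.c 24 .nil)) (.b 1310924873 (.l 48 .nil))) (.I .adp (.c 24 (.c 32 (.c 16 .nil))) (.b 1310924873 (.l 48 .nil))))) (.node (.node (.I .adp (.c 8321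 (.c 24 (.c 2105673 .nil))) (.l 48 .nil)) (.I .adp (.c 8 (.c 40 (.c 16 .nil))) (.b 537002185 (.l 48 .nil)))) (.node (.I .adp (.c 8 (.c 40 (.c 16 .nil))) (.b 169943305 (.l 48 .nil))) (.I .com (.c 3423058053193993 (.c 8321 .nil)) (.b 48 .nil))))))))

noncomputable def c2_404 : Tr := (.node (.node (.node (.node (.node (.node (.I .tdb (.c 0 (.c 40 (.c 8 (.c 32 .nil)))) (.l 4737 (.b 48 .nil))) (.I .tdb (.c 32 (.c 12801 (.c 8 (.c 48 .nil)))) (.l 4737 .nil))) (.node (.I .adp (.c 16 (.c 8385 (.c 1310924873 .nil))) (.b 48 .nil)) (.I .jac (.c 1310924873 (.c 24 (.c 32 .nil))) (.l 16 (.b 48 .nil))))) (.node (.node (.I .com (.c 1512102306009786937337782324909974764361 (.c 16 .nil)) (.b 48 .nil)) (.I .com (.c 1512102306009786923259633531360632805257 (.c 16 .nil)) (.b 48 .nil))) (.node (.I .adp (.c 16 (.c 32 (.c 24 .nil))) (.b 1310924873 (.l 48 .nil))) (.I .adp (.c 16 (.c 8385 (.c 2105673 .nil)))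 (.l 48 .nil))))) (.node (.node (.node (.I .adp (.c 8 (.c 40 (.c 24 .nil))) (.b 537002121 (.l 48 .nil))) (.I .adp (.c 8 (.c 40 (.c 24 .nil))) (.b 33587465 (.l 48 .nil)))) (.node (.I .jac (.c 16 (.c 24 (.c 40 .nil))) (.l 537002057 (.l 48 .nil))) (.I .adp (.c 8 (.c 40 (.c 8193 .nil))) (.b 4737 (.l 48 .nil))))) (.node (.node (.I .adp (.c 16 (.c 24 (.c 32 .nil))) (.b 1310924873 (.b 48 .nil))) (.I .adp (.c 16 (.c 24 (.c 32 .nil))) (.b 1310924873 (.l 48 .nil)))) (.node (.I .adp (.c 16 (.c 24 (.c 32 .nil))) (.b 2105673 (.l 48 .nil))) (.I .adp (.c 8 (.c 40 (.c 32 .nil))) (.b 169943177 (.l 48 .nil))))))) (.node (.node (.node (.node (.I .adp (.c 8 (.c 40 (.c 32 .nil))) (.b 33587401 (.l 48 .nil))) (.I .jac (.c 16 (.c 32 (.c 40 .nil))) (.l 169943113 (.l 48 .nil)))) (.node (.I .jac (.c 24 (.c 32 (.c 40 .nil))) (.l 33587273 (.l 48 .nil))) (.I .adp (.c 8 (.c 40 (.c 4609 .nil))) (.b 8321 (.l 48 .nil)))))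 (.node (.node (.I .adp (.c 8 (.c 40 (.c 2049 .nil))) (.b 8385 (.l 48 .nil))) (.I .adp (.c 24 (.c 32 (.c 12801 .nil))) (.b 2113 (.l 48 .nil)))) (.node (.I .adp (.c 16 (.c 32 (.c 12801 .nil))) (.b 4673 (.l 48 .nil))) (.I .adp (.c 8 (.c 32 (.c 12801 .nil))) (.b 4737 (.b 48 .nil)))))) (.node (.node (.node (.I .adp (.c 16 (.c 24 (.c 12801 .nil))) (.b 8257 (.b 48 .nil))) (.I .adp (.c 16 (.c 24 (.c 12801 .nil))) (.b 8257 (.l 48 .nil)))) (.node (.I .adp (.c 8 (.c 24 (.c 12801 .nil))) (.b 8321 (.b 48 .nil))) (.I .adp (.c 8 (.c 16 (.c 12801 .nil))) (.b 8385 (.b 48 .nil))))) (.node (.node (.I .jac (.c 12801 (.c 2113 (.c 32 .nil))) (.b 24 (.l 48 .nil))) (.I .jac (.c 12801 (.c 8 (.c 16 .nil))) (.b 32 (.b 24 (.l 48 .nil))))) (.node (.I .jac (.c 12801 (.c 174695561 (.c 32 .nil))) (.l 48 .nil)) (.I .jac (.c 12801 (.c 545424585 (.c 16 .nil))) (.l 48 .nil))))))) (.node (.node (.node (.node (.node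 (.I .jac (.c 12801 (.c 8257 (.c 24 .nil))) (.b 16 (.l 48 .nil))) (.I .jac (.c 12801 (.c 35718345 (.c 32 .nil))) (.l 48 .nil))) (.node (.I .jac (.c 12801 (.c 2113 (.c 24 .nil))) (.b 32 (.l 48 .nil))) (.I .adp (.c 537002121 (.c 24 (.c 12865 .nil))) (.l 48 .nil)))) (.node (.node (.I .com (.c 537002185 (.c 16 .nil)) (.b 12865 (.l 48 .nil))) (.I .adp (.c 537002185 (.c 16 (.c 12865 .nil))) (.l 48 .nil))) (.node (.I .adp (.c 1310925065 (.c 2803779 (.c 48 .nil))) .nil) (.I .adp (.c 1310925001 (.c 8652867 (.c 48 .nil))) .nil)))) (.node (.node (.node (.I .jac (.c 231045815314584265 (.c 16 (.c 40 .nil))) (.l 48 .nil)) (.I .jac (.c 4609 (.c 8 (.c 32 .nil))) (.b 12929 (.l 48 .nil)))) (.node (.I .jac (.c 0 (.c 8257 (.c 24 .nil))) (.b 12929 (.l 48 .nil))) (.I .jac (.c 0 (.c 8 (.c 32 .nil))) (.b 24 (.b 12929 (.l 48 .nil)))))) (.node (.node (.I .jac (.c 2306970773558193865 (.c 16 (.c 40 .nil))) (.l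 48 .nil)) (.I .adp (.c 537002057 (.c 24 (.c 12929 .nil))) (.l 48 .nil))) (.node (.I .adp (.c 169943113 (.c 32 (.c 12929 .nil))) (.l 48 .nil)) (.I .com (.c 537002185 (.c 8 .nil)) (.b 12929 (.l 48 .nil))))))) (.node (.node (.node (.node (.I .com (.c 169943305 (.c 8 .nil)) (.b 12929 (.l 48 .nil))) (.I .adp (.c 537002185 (.c 8 (.c 12929 .nil))) (.l 48 .nil))) (.node (.I .adp (.c 169943305 (.c 8 (.c 12929 .nil))) (.l 48 .nil)) (.I .adp (.c 8 (.c 16 (.c 40 .nil))) (.b 537002185 (.l 48 .nil))))) (.node (.node (.I .adp (.c 8 (.c 16 (.c 40 .nil))) (.b 169943305 (.l 48 .nil))) (.I .adp (.c 537002057 (.c 16 (.c 12993 .nil))) (.l 48 .nil))) (.node (.I .jac (.c 537002057 (.c 24 (.c 40 .nil))) (.r 16 (.l 48 .nil))) (.I .adp (.c 33587273 (.c 32 (.c 12993 .nil))) (.l 48 .nil))))) (.node (.node (.node (.I .com (.c 537002121 (.c 8 .nil)) (.b 12993 (.l 48 .nil))) (.I .com (.c 33587465 (.c 8 .nil))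 (.b 12993 (.l 48 .nil)))) (.node (.I .adp (.c 537002121 (.c 8 (.c 12993 .nil))) (.l 48 .nil)) (.I .jac (.c 537002121 (.c 24 (.c 40 .nil))) (.r 8 (.l 48 .nil))))) (.node (.node (.I .adp (.c 33587465 (.c 8 (.c 12993 .nil))) (.l 48 .nil)) (.I .tdb (.c 0 (.c 40 (.c 8 (.c 16 .nil)))) (.l 8385 (.b 48 .nil)))) (.node (.I .adp (.c 8 (.c 24 (.c 40 .nil))) (.b 537002121 (.l 48 .nil))) (.I .adp (.c 8 (.c 24 (.c 40 .nil))) (.b 33587465 (.l 48 .nil)))))))))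

noncomputable def c2_405 : Tr := (.node (.node (.node (.node (.node (.node (.I .com (.c 3423058053193929 (.c 8385 .nil)) (.b 48 .nil)) (.I .adp (.c 16 (.c 24 (.c 40 .nil))) (.b 2105609 (.l 48 .nil)))) (.node (.I .adp (.c 16 (.c 24 (.c 40 .nil))) (.b 537002057 (.l 48 .nil))) (.I .adp (.c 8 (.c 32 (.c 40 .nil))) (.b 169943177 (.l 48 .nil))))) (.node (.node (.I .adp (.c 8 (.c 32 (.c 40 .nil))) (.b 33587401 (.l 48 .nil))) (.I .adp (.c 8 (.c 32 (.c 4609 .nil))) (.b 12929 (.l 48 .nil)))) (.node (.I .adp (.c 8 (.c 32 (.c 2049 .nil))) (.b 12993 (.l 48 .nil))) (.I .adp (.c 16 (.c 24 (.c 8193 .nil))) (.b 12865 (.l 48 .nil)))))) (.node (.node (.node (.I .adp (.c 8 (.c 24 (.c 8193 .nil))) (.b 12929 (.l 48 .nil))) (.I .adp (.c 8 (.c 16 (.c 8193 .nil))) (.b 12993 (.l 48 .nil)))) (.node (.I .jac (.c 9024908047478473 (.c 32 (.c 40 .nil))) (.l 48 .nil)) (.I .jac (.c 9024839260612425 (.c 32 (.c 40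 .nil))) (.l 48 .nil)))) (.node (.node (.I .jac (.c 2049 (.c 8 (.c 24 .nil))) (.b 13057 (.l 48 .nil))) (.I .jac (.c 0 (.c 4673 (.c 16 .nil))) (.b 13057 (.l 48 .nil)))) (.node (.I .jac (.c 0 (.c 8 (.c 24 .nil))) (.b 16 (.b 13057 (.l 48 .nil)))) (.I .jac (.c 4609 (.c 8 (.c 16 .nil))) (.b 13057 (.b 48 .nil))))))) (.node (.node (.node (.node (.I .jac (.c 231045467270826697 (.c 32 (.c 40 .nil))) (.l 48 .nil)) (.I .jac (.c 4609 (.c 8 (.c 16 .nil))) (.b 13057 (.l 48 .nil)))) (.node (.I .jac (.c 0 (.c 2113 (.c 24 .nil))) (.b 13057 (.l 48 .nil))) (.I .jac (.c 0 (.c 8 (.c 16 .nil))) (.b 24 (.b 13057 (.l 48 .nil)))))) (.node (.node (.I .jac (.c 62889413446729 (.c 32 (.c 40 .nil))) (.l 48 .nil)) (.I .adp (.c 169943113 (.c 16 (.c 13057 .nil))) (.l 48 .nil))) (.node (.I .jac (.c 169943113 (.c 32 (.c 40 .nil))) (.r 16 (.l 48 .nil))) (.I .adp (.c 2105545 (.c 16 (.c 13057 .nil))) (.l 48 .nil)))))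 (.node (.node (.node (.I .jac (.c 2105545 (.c 32 (.c 40 .nil))) (.r 16 (.l 48 .nil))) (.I .jac (.c 59555558875337 (.c 32 (.c 40 .nil))) (.l 48 .nil))) (.node (.I .adp (.c 33587273 (.c 24 (.c 13057 .nil))) (.l 48 .nil)) (.I .jac (.c 33587273 (.c 32 (.c 40 .nil))) (.r 24 (.l 48 .nil))))) (.node (.node (.I .adp (.c 2105481 (.c 24 (.c 13057 .nil))) (.l 48 .nil)) (.I .jac (.c 2105481 (.c 32 (.c 40 .nil))) (.r 24 (.l 48 .nil)))) (.node (.I .com (.c 169943177 (.c 8 .nil)) (.b 13057 (.l 48 .nil))) (.I .com (.c 33587401 (.c 8 .nil)) (.b 13057 (.l 48 .nil)))))))) (.node (.node (.node (.node (.node (.I .adp (.c 169943177 (.c 8 (.c 13057 .nil))) (.l 48 .nil)) (.I .jac (.c 169943177 (.c 32 (.c 40 .nil))) (.r 8 (.l 48 .nil)))) (.node (.I .adp (.c 33587401 (.c 8 (.c 13057 .nil))) (.l 48 .nil)) (.I .jac (.c 33587401 (.c 32 (.c 40 .nil))) (.r 8 (.l 48 .nil))))) (.node (.node (.I .jac (.c 513 (.c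 16 (.c 24 .nil))) (.b 13057 (.b 48 .nil))) (.I .jac (.c 513 (.c 16 (.c 24 .nil))) (.b 13057 (.l 48 .nil)))) (.node (.I .adp (.c 16 (.c 24 (.c 513 .nil))) (.b 13057 (.l 48 .nil))) (.I .com (.c 2105545 (.c 16 .nil)) (.b 13057 (.l 48 .nil)))))) (.node (.node (.node (.I .adp (.c 8 (.c 24 (.c 2049 .nil))) (.b 13057 (.l 48 .nil))) (.I .adp (.c 8 (.c 16 (.c 4609 .nil))) (.b 13057 (.l 48 .nil)))) (.node (.I .jac (.c 8 (.c 16 (.c 40 .nil))) (.b 8385 (.l 18433 .nil))) (.I .jac (.c 8 (.c 16 (.c 40 .nil))) (.b 8385 (.b 48 (.l 0 .nil)))))) (.node (.node (.I .adp (.c 8 (.c 32 (.c 40 .nil))) (.b 4737 (.l 18433 .nil))) (.I .adp (.c 8 (.c 32 (.c 16 .nil))) (.b 12993 (.l 18433 .nil)))) (.node (.I .adp (.c 8 (.c 32 (.c 24 .nil))) (.b 12929 (.l 18433 .nil))) (.I .jac (.c 8 (.c 16 (.c 24 .nil))) (.b 13057 (.l 18433 .nil))))))) (.node (.node (.node (.node (.I .adp (.c 16 (.c 24 (.c 8 .nil))) (.b 13057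 (.l 18433 .nil))) (.I .com (.c 4673 (.c 16 .nil)) (.b 13057 (.l 18433 .nil)))) (.node (.I .adp (.c 16 (.c 24 (.c 40 .nil))) (.b 8257 (.l 18433 .nil))) (.I .adp (.c 16 (.c 24 (.c 32 .nil))) (.b 12865 (.l 18433 .nil))))) (.node (.node (.I .adp (.c 8 (.c 24 (.c 16 .nil))) (.b 13057 (.l 18433 .nil))) (.I .adp (.c 8 (.c 24 (.c 40 .nil))) (.b 8321 (.l 18433 .nil)))) (.node (.I .adp (.c 8 (.c 24 (.c 32 .nil))) (.b 12929 (.l 18433 .nil))) (.I .adp (.c 8 (.c 16 (.c 24 .nil))) (.b 13057 (.l 18433 .nil)))))) (.node (.node (.node (.I .adp (.c 8 (.c 16 (.c 32 .nil))) (.b 12993 (.l 18433 .nil))) (.I .adp (.c 8 (.c 16 (.c 40 .nil))) (.b 8385 (.l 18433 .nil)))) (.node (.I .jac (.c 33587529 (.c 24 (.c 32 .nil))) (.l 48 (.l 8 .nil))) (.I .jac (.c 33587465 (.c 24 (.c 40 .nil))) (.l 48 (.l 8 .nil))))) (.node (.node (.I .com (.c 651601654921541717468315286321993 (.c 48 .nil)) (.l 8 .nil)) (.I .com (.c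 651596688508365770927126595477321 (.c 48 .nil)) (.l 8 .nil))) (.node (.I .com (.c 651591722123570596944749659643785 (.c 48 .nil)) (.l 8 .nil)) (.I .com (.c 651591722123561355438909041458121 (.c 48 .nil)) (.l 8 .nil))))))))

noncomputable def c2_406 : Tr := (.node (.node (.node (.node (.node (.node (.I .jac (.c 169943369 (.c 16 (.c 32 .nil))) (.l 48 (.l 8 .nil))) (.I .jac (.c 169943305 (.c 16 (.c 40 .nil))) (.l 48 (.l 8 .nil)))) (.node (.I .com (.c 427057993508084089288477468582296329 (.c 48 .nil)) (.l 8 .nil)) (.I .com (.c 427057350195048793444981206822395657 (.c 48 .nil)) (.l 8 .nil)))) (.node (.node (.I .com (.c 427056063571158149899930723770113929 (.c 48 .nil)) (.l 8 .nil)) (.I .com (.c 427056063571157913309372238443346889 (.c 48 .nil)) (.l 8 .nil))) (.node (.I .jac (.c 537002313 (.c 16 (.c 24 .nil))) (.l 48 (.l 8 .nil))) (.I .com (.c 42576953795010656131941434981856024329 (.c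 48 .nil)) (.l 8 .nil))))) (.node (.node (.node (.I .com (.c 42576953795010653769602236682924913481 (.c 48 .nil)) (.l 8 .nil)) (.I .jac (.c 33587529 (.c 24 (.c 32 .nil))) (.b 8 (.b 48 .nil)))) (.node (.I .jac (.c 2049 (.c 24 (.c 40 .nil))) (.b 32 (.b 8 (.b 48 .nil)))) (.I .jac (.c 169943369 (.c 16 (.c 32 .nil))) (.b 8 (.b 48 .nil))))) (.node (.node (.I .jac (.c 4609 (.c 16 (.c 40 .nil))) (.b 32 (.b 8 (.b 48 .nil)))) (.I .jac (.c 4609 (.c 8321 (.c 40 .nil))) (.b 8 (.b 48 .nil)))) (.node (.I .jac (.c 4609 (.c 16 (.c 32 .nil))) (.b 40 (.b 8 (.b 48 .nil)))) (.I .jac (.c 1310925065 (.c 16 (.c 24 .nil))) (.b 8 (.b 48 .nil))))))) (.node (.node (.node (.node (.I .jac (.c 537002313 (.c 16 (.c 24 .nil))) (.b 8 (.b 48 .nil))) (.I .jac (.c 169943369 (.c 16 (.c 32 .nil))) (.b 8 (.l 48 .nil)))) (.node (.I .jac (.c 169943305 (.c 16 (.c 40 .nil))) (.b 8 (.l 48 .nil))) (.I .jac (.c 537002313 (.c 16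 (.c 24 .nil))) (.b 8 (.l 48 .nil))))) (.node (.node (.I .adp (.c 32 (.c 40 (.c 24 .nil))) (.b 2049 (.l 18497 .nil))) (.I .com (.c 12993 (.c 32 .nil)) (.b 2049 (.l 18497 .nil)))) (.node (.I .adp (.c 32 (.c 40 (.c 16 .nil))) (.b 4609 (.l 18497 .nil))) (.I .com (.c 12929 (.c 32 .nil)) (.b 4609 (.l 18497 .nil)))))) (.node (.node (.node (.I .adp (.c 8193 (.c 40 (.c 4737 .nil))) (.l 18497 .nil)) (.I .adp (.c 32 (.c 40 (.c 0 .nil))) (.b 4737 (.l 18497 .nil)))) (.node (.I .com (.c 12801 (.c 32 .nil)) (.b 4737 (.l 18497 .nil))) (.I .tdb (.c 0 (.c 40 (.c 16 (.c 32 .nil)))) (.b 24 (.t 8 48 .nil))))) (.node (.node (.I .tdb (.c 0 (.c 32 (.c 24 (.c 40 .nil)))) (.b 16 (.t 8 48 .nil))) (.I .com (.c 651601654921532475892036648802185 (.c 48 .nil)) (.l 8 .nil))) (.node (.I .com (.c 651596688508347287845007406880713 (.c 48 .nil)) (.l 8 .nil)) (.I .jac (.c 537002185 (.c 16 (.c 40 .nil))) (.l 48 (.l 8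 .nil)))))))) (.node (.node (.node (.node (.node (.I .com (.c 42576913200413540599411453941751701257 (.c 48 .nil)) (.l 8 .nil)) (.I .com (.c 42576892903125866125508513263802589001 (.c 48 .nil)) (.l 8 .nil))) (.node (.I .com (.c 42576892903125861400833495191760328649 (.c 48 .nil)) (.l 8 .nil)) (.I .com (.c 427057993508083616106291307304383369 (.c 48 .nil)) (.l 8 .nil)))) (.node (.node (.I .jac (.c 8193 (.c 4737 (.c 40 .nil))) (.b 8 (.b 48 .nil))) (.I .jac (.c 8193 (.c 16 (.c 24 .nil))) (.b 40 (.b 8 (.b 48 .nil))))) (.node (.I .jac (.c 1310925001 (.c 16 (.c 32 .nil))) (.b 8 (.b 48 .nil))) (.I .jac (.c 8193 (.c 4737 (.c 40 .nil))) (.b 8 (.l 48 .nil)))))) (.node (.node (.node (.I .jac (.c 8193 (.c 16 (.c 24 .nil))) (.b 40 (.b 8 (.l 48 .nil)))) (.I .jac (.c 1310925001 (.c 16 (.c 32 .nil))) (.b 8 (.l 48 .nil)))) (.node (.I .adp (.c 24 (.c 40 (.c 32 .nil))) (.b 2049 (.l 18497 .nil))) (.I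 .adp (.c 24 (.c 40 (.c 16 .nil))) (.b 8193 (.l 18497 .nil))))) (.node (.node (.I .com (.c 12929 (.c 24 .nil)) (.b 8193 (.l 18497 .nil))) (.I .adp (.c 4609 (.c 40 (.c 8321 .nil))) (.l 18497 .nil))) (.node (.I .adp (.c 24 (.c 40 (.c 0 .nil))) (.b 8321 (.l 18497 .nil))) (.I .com (.c 12801 (.c 24 .nil)) (.b 8321 (.l 18497 .nil))))))) (.node (.node (.node (.node (.I .com (.c 427057350195048083672236560419042249 (.c 48 .nil)) (.l 8 .nil)) (.I .com (.c 42576913200413533512397237570979656649 (.c 48 .nil)) (.l 8 .nil))) (.node (.I .jac (.c 1310924937 (.c 24 (.c 32 .nil))) (.b 8 (.l 48 .nil))) (.I .adp (.c 0 (.c 13057 (.c 4737 .nil))) (.l 18497 .nil)))) (.node (.node (.I .adp (.c 0 (.c 12993 (.c 8321 .nil))) (.l 18497 .nil)) (.I .jac (.c 12801 (.c 8321 (.c 24 .nil))) (.b 8 (.b 48 .nil)))) (.node (.I .jac (.c 12801 (.c 16 (.c 32 .nil))) (.b 24 (.b 8 (.b 48 .nil)))) (.I .jac (.c 12801 (.c 4737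 (.c 32 .nil))) (.b 8 (.b 48 .nil)))))) (.node (.node (.node (.I .jac (.c 12801 (.c 4737 (.c 32 .nil))) (.b 8 (.l 48 .nil))) (.I .jac (.c 12801 (.c 16 (.c 24 .nil))) (.b 32 (.b 8 (.l 48 .nil))))) (.node (.I .adp (.c 8193 (.c 24 (.c 12929 .nil))) (.l 18497 .nil)) (.I .adp (.c 4609 (.c 32 (.c 12929 .nil))) (.l 18497 .nil)))) (.node (.node (.I .jac (.c 0 (.c 16 (.c 32 .nil))) (.b 12993 (.l 18497 .nil))) (.I .jac (.c 537002121 (.c 24 (.c 40 .nil))) (.l 48 (.l 8 .nil)))) (.node (.I .jac (.c 537002121 (.c 24 (.c 40 .nil))) (.b 8 (.b 48 .nil))) (.I .jac (.c 0 (.c 16 (.c 32 .nil))) (.b 12993 (.b 8 (.b 48 .nil))))))))))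

noncomputable def c2_407 : Tr := (.node (.node (.node (.node (.node (.node (.I .adp (.c 2049 (.c 32 (.c 12993 .nil))) (.l 18497 .nil)) (.I .adp (.c 0 (.c 32 (.c 40 .nil))) (.b 4737 (.l 18497 .nil)))) (.node (.I .adp (.c 0 (.c 8321 (.c 12993 .nil))) (.l 18497 .nil)) (.I .jac (.c 0 (.c 24 (.c 40 .nil))) (.r 8321 (.l 18497 .nil))))) (.node (.node (.I .adp (.c 0 (.c 32 (.c 16 .nil))) (.b 12993 (.l 18497 .nil))) (.I .adp (.c 0 (.c 32 (.c 24 .nil))) (.b 12929 (.l 18497 .nil)))) (.node (.I .jac (.c 0 (.c 16 (.c 24 .nil))) (.b 13057 (.l 18497 .nil))) (.I .jac (.c 0 (.c 16 (.c 24 .nil))) (.b 13057 (.b 48 (.b 8 .nil))))))) (.node (.node (.node (.I .jac (.c 169943177 (.c 32 (.c 40 .nil))) (.l 48 (.l 8 .nil))) (.I .jac (.c 33587401 (.c 32 (.c 40 .nil))) (.l 48 (.l 8 .nil)))) (.node (.I .jac (.c 169943177 (.c 32 (.c 40 .nil))) (.b 8 (.b 48 .nil))) (.I .jac (.c 0 (.c 16 (.c 24 .nil))) (.b 13057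 (.b 8 (.b 48 .nil)))))) (.node (.node (.I .jac (.c 33587401 (.c 32 (.c 40 .nil))) (.b 8 (.l 48 .nil))) (.I .jac (.c 0 (.c 16 (.c 24 .nil))) (.b 13057 (.b 8 (.l 48 .nil))))) (.node (.I .jac (.c 24 (.c 32 (.c 40 .nil))) (.l 2049 (.l 18497 .nil))) (.I .adp (.c 2049 (.c 24 (.c 13057 .nil))) (.l 18497 .nil)))))) (.node (.node (.node (.node (.I .jac (.c 2049 (.c 32 (.c 40 .nil))) (.r 24 (.l 18497 .nil))) (.I .jac (.c 2803715 (.c 32 (.c 40 .nil))) (.b 8 (.b 48 .nil)))) (.node (.I .jac (.c 2803715 (.c 32 (.c 40 .nil))) (.b 8 (.l 48 .nil))) (.I .adp (.c 0 (.c 4737 (.c 13057 .nil))) (.l 18497 .nil)))) (.node (.node (.I .jac (.c 0 (.c 32 (.c 40 .nil))) (.r 4737 (.l 18497 .nil))) (.I .adp (.c 0 (.c 24 (.c 16 .nil))) (.b 13057 (.l 18497 .nil)))) (.node (.I .adp (.c 0 (.c 24 (.c 40 .nil))) (.b 8321 (.l 18497 .nil))) (.I .adp (.c 0 (.c 24 (.c 32 .nil))) (.b 12929 (.l 18497 .nil)))))) (.node (.node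 (.node (.I .jac (.c 169943369 (.c 8 (.c 32 .nil))) (.l 18561 .nil)) (.I .jac (.c 4609 (.c 12865 (.c 32 .nil))) (.l 18561 .nil))) (.node (.I .jac (.c 4609 (.c 8 (.c 40 .nil))) (.b 32 (.l 18561 .nil))) (.I .com (.c 427057350195048793444981206822395593 (.c 18561 .nil)) .nil))) (.node (.node (.I .jac (.c 537002313 (.c 8 (.c 24 .nil))) (.l 18561 .nil)) (.I .com (.c 1512103191868961664028723725600700192457 (.c 18561 .nil)) .nil)) (.node (.I .jac (.c 2105673 (.c 24 (.c 32 .nil))) (.l 48 (.l 16 .nil))) (.I .jac (.c 2105609 (.c 24 (.c 40 .nil))) (.l 48 (.l 16 .nil)))))))) (.node (.node (.node (.node (.node (.I .com (.c 10065461098107652387135109961 (.c 48 .nil)) (.l 16 .nil)) (.I .com (.c 10064237432092225236522737481 (.c 48 .nil)) (.l 16 .nil))) (.node (.I .jac (.c 169943369 (.c 8 (.c 32 .nil))) (.l 48 (.l 16 .nil))) (.I .jac (.c 169943305 (.c 8 (.c 40 .nil))) (.l 48 (.l 16 .nil))))) (.node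 (.node (.I .com (.c 427057993508084089288477468582296265 (.c 48 .nil)) (.l 16 .nil)) (.I .com (.c 427057350195048793444981206822395593 (.c 48 .nil)) (.l 16 .nil))) (.node (.I .jac (.c 1310925065 (.c 8 (.c 24 .nil))) (.l 48 (.l 16 .nil))) (.I .com (.c 1512103191868961664028723725600700192457 (.c 48 .nil)) (.l 16 .nil))))) (.node (.node (.node (.I .com (.c 1512103191868961635872417890875254705993 (.c 48 .nil)) (.l 16 .nil)) (.I .jac (.c 2105673 (.c 24 (.c 32 .nil))) (.b 16 (.b 48 .nil)))) (.node (.I .jac (.c 2105609 (.c 24 (.c 40 .nil))) (.b 16 (.b 48 .nil))) (.I .jac (.c 2105609 (.c 24 (.c 40 .nil))) (.b 16 (.l 48 .nil))))) (.node (.node (.I .jac (.c 513 (.c 24 (.c 32 .nil))) (.b 40 (.b 16 (.l 48 .nil)))) (.I .adp (.c 32 (.c 40 (.c 24 .nil))) (.b 513 (.l 18561 .nil)))) (.node (.I .com (.c 12993 (.c 32 .nil)) (.b 513 (.l 18561 .nil))) (.I .com (.c 169943305 (.c 12865 .nil)) (.l 18561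 .nil)))))) (.node (.node (.node (.node (.I .jac (.c 4609 (.c 8 (.c 32 .nil))) (.r 40 (.l 18561 .nil))) (.I .com (.c 169943369 (.c 8257 .nil)) (.l 18561 .nil))) (.node (.I .adp (.c 12865 (.c 32 (.c 4609 .nil))) (.l 18561 .nil)) (.I .adp (.c 8257 (.c 40 (.c 4609 .nil))) (.l 18561 .nil)))) (.node (.node (.I .adp (.c 32 (.c 40 (.c 8 .nil))) (.b 4609 (.l 18561 .nil))) (.I .com (.c 12865 (.c 32 .nil)) (.b 4609 (.l 18561 .nil)))) (.node (.I .jac (.c 8193 (.c 8 (.c 24 .nil))) (.r 40 (.l 18561 .nil))) (.I .adp (.c 32 (.c 40 (.c 0 .nil))) (.b 4673 (.l 18561 .nil)))))) (.node (.node (.node (.I .com (.c 12801 (.c 32 .nil)) (.b 4673 (.l 18561 .nil))) (.I .jac (.c 21307395 (.c 8 (.c 24 .nil))) (.t 16 48 .nil))) (.node (.I .tdb (.c 0 (.c 40 (.c 8 (.c 32 .nil)))) (.b 24 (.t 16 48 .nil))) (.I .tdb (.c 0 (.c 32 (.c 8 (.c 40 .nil)))) (.b 24 (.t 16 48 .nil))))) (.node (.node (.I .jac (.c 537002185 (.c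 8 (.c 40 .nil))) (.l 18561 .nil)) (.I .jac (.c 8193 (.c 12865 (.c 24 .nil))) (.l 18561 .nil))) (.node (.I .jac (.c 8193 (.c 4673 (.c 40 .nil))) (.l 18561 .nil)) (.I .jac (.c 8193 (.c 8 (.c 24 .nil))) (.b 40 (.l 18561 .nil)))))))))

noncomputable def c2_408 : Tr := (.node (.node (.node (.node (.node (.node (.I .jac (.c 1310925001 (.c 8 (.c 32 .nil))) (.l 18561 .nil)) (.I .com (.c 10065461098071330215985125257 (.c 48 .nil)) (.l 16 .nil))) (.node (.I .com (.c 10064237432019585310071936969 (.c 48 .nil)) (.l 16 .nil)) (.I .jac (.c 537002185 (.c 8 (.c 40 .nil))) (.l 48 (.l 16 .nil))))) (.node (.node (.I .jac (.c 8193 (.c 4673 (.c 40 .nil))) (.l 48 (.l 16 .nil))) (.I .jac (.c 8193 (.c 8 (.c 24 .nil))) (.b 40 (.l 48 (.l 16 .nil))))) (.node (.I .com (.c 42576913200413540599411453941751701193 (.c 48 .nil)) (.l 16 .nil)) (.I .com (.c 42576872605845448752433331259473583945 (.c 48 .nil)) (.l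 16 .nil))))) (.node (.node (.node (.I .com (.c 1512102896582526807535925483778566442889 (.c 48 .nil)) (.l 16 .nil)) (.I .com (.c 427057993508083379515198226665525129 (.c 48 .nil)) (.l 16 .nil))) (.node (.I .adp (.c 24 (.c 40 (.c 32 .nil))) (.b 513 (.l 18561 .nil))) (.I .com (.c 537002185 (.c 12865 .nil)) (.l 18561 .nil)))) (.node (.node (.I .com (.c 537002313 (.c 4673 .nil)) (.l 18561 .nil)) (.I .adp (.c 12865 (.c 24 (.c 8193 .nil))) (.l 18561 .nil))) (.node (.I .adp (.c 4673 (.c 40 (.c 8193 .nil))) (.l 18561 .nil)) (.I .adp (.c 24 (.c 40 (.c 8 .nil))) (.b 8193 (.l 18561 .nil))))))) (.node (.node (.node (.node (.I .com (.c 12865 (.c 24 .nil)) (.b 8193 (.l 18561 .nil))) (.I .adp (.c 24 (.c 40 (.c 0 .nil))) (.b 8257 (.l 18561 .nil)))) (.node (.I .com (.c 12801 (.c 24 .nil)) (.b 8257 (.l 18561 .nil))) (.I .tdb (.c 0 (.c 40 (.c 8 (.c 24 .nil)))) (.b 32 (.t 16 48 .nil))))) (.node (.node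 (.I .jac (.c 0 (.c 8 (.c 40 .nil))) (.b 8385 (.b 48 (.l 16 .nil)))) (.I .com (.c 427057350195047847081321678284722121 (.c 48 .nil)) (.l 16 .nil))) (.node (.I .com (.c 1512102306009786923259633531360632805257 (.c 48 .nil)) (.l 16 .nil)) (.I .jac (.c 1310924873 (.c 24 (.c 32 .nil))) (.b 16 (.l 48 .nil)))))) (.node (.node (.node (.I .jac (.c 0 (.c 8 (.c 40 .nil))) (.b 8385 (.b 16 (.l 48 .nil)))) (.I .adp (.c 513 (.c 40 (.c 8385 .nil))) (.l 18561 .nil))) (.node (.I .jac (.c 4673 (.c 32 (.c 40 .nil))) (.l 0 (.l 18561 .nil))) (.I .adp (.c 0 (.c 40 (.c 32 .nil))) (.b 4673 (.l 18561 .nil))))) (.node (.node (.I .ass (.c 18561 (.c 0 (.c 244148848929896329 .nil))) .nil) (.I .ass (.c 0 (.c 18561 (.c 244148848929896329 .nil))) .nil)) (.node (.I .com (.c 18561 (.c 0 .nil)) (.r 244148848929896329 .nil)) (.I .ass (.c 18561 (.c 0 (.c 244148670041478089 .nil))) .nil)))))) (.node (.node (.node (.node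 (.node (.I .ass (.c 0 (.c 18561 (.c 244148670041478089 .nil))) .nil) (.I .com (.c 18561 (.c 0 .nil)) (.r 244148670041478089 .nil))) (.node (.I .jac (.c 8257 (.c 24 (.c 40 .nil))) (.l 0 (.l 18561 .nil))) (.I .adp (.c 0 (.c 40 (.c 24 .nil))) (.b 8257 (.l 18561 .nil))))) (.node (.node (.I .ass (.c 18561 (.c 0 (.c 2379904940409059145 .nil))) .nil) (.I .ass (.c 0 (.c 18561 (.c 2379904940409059145 .nil))) .nil)) (.node (.I .com (.c 18561 (.c 0 .nil)) (.r 2379904940409059145 .nil)) (.I .ass (.c 18561 (.c 0 (.c 2379903823379378121 .nil))) .nil)))) (.node (.node (.node (.I .ass (.c 0 (.c 18561 (.c 2379903823379378121 .nil))) .nil) (.I .com (.c 18561 (.c 0 .nil)) (.r 2379903823379378121 .nil))) (.node (.I .jac (.c 12865 (.c 24 (.c 32 .nil))) (.l 0 (.l 18561 .nil))) (.I .adp (.c 0 (.c 12865 (.c 8385 .nil))) (.l 18561 .nil)))) (.node (.node (.I .jac (.c 0 (.c 24 (.c 32 .nil))) (.r 12865 (.l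 18561 .nil))) (.I .adp (.c 0 (.c 40 (.c 8 .nil))) (.b 8385 (.l 18561 .nil)))) (.node (.I .ass (.c 18561 (.c 0 (.c 14025207386396218185 .nil))) .nil) (.I .ass (.c 0 (.c 18561 (.c 14025207386396218185 .nil))) .nil))))) (.node (.node (.node (.node (.I .com (.c 18561 (.c 0 .nil)) (.r 14025207386396218185 .nil)) (.I .ass (.c 18561 (.c 0 (.c 14025206030552608649 .nil))) .nil)) (.node (.I .ass (.c 0 (.c 18561 (.c 14025206030552608649 .nil))) .nil) (.I .com (.c 18561 (.c 0 .nil)) (.r 14025206030552608649 .nil)))) (.node (.node (.I .jac (.c 12801 (.c 8 (.c 32 .nil))) (.b 24 (.l 18561 .nil))) (.I .jac (.c 12801 (.c 4673 (.c 32 .nil))) (.l 18561 .nil))) (.node (.I .jac (.c 12801 (.c 8 (.c 24 .nil))) (.b 32 (.l 18561 .nil))) (.I .jac (.c 12801 (.c 4673 (.c 32 .nil))) (.l 48 (.l 16 .nil)))))) (.node (.node (.node (.I .jac (.c 12801 (.c 8 (.c 24 .nil))) (.b 32 (.l 48 (.l 16 .nil)))) (.I .adp (.c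 8193 (.c 24 (.c 12865 .nil))) (.l 18561 .nil))) (.node (.I .adp (.c 4609 (.c 32 (.c 12865 .nil))) (.l 18561 .nil)) (.I .ass (.c 18561 (.c 8193 (.c 1324065993 .nil))) .nil))) (.node (.node (.I .com (.c 18561 (.c 8193 .nil)) (.r 1324065993 .nil)) (.I .ass (.c 18561 (.c 4609 (.c 1324066057 .nil))) .nil)) (.node (.I .com (.c 18561 (.c 4609 .nil)) (.r 1324066057 .nil)) (.I .ass (.c 18561 (.c 1310925065 (.c 4673 .nil))) .nil)))))))

noncomputable def c2_409 : Tr := (.node (.node (.node (.node (.node (.node (.I .com (.c 18561 (.c 1310925065 .nil)) (.r 4673 .nil)) (.I .ass (.c 18561 (.c 1310925001 (.c 8257 .nil))) .nil)) (.node (.I .com (.c 18561 (.c 1310925001 .nil)) (.r 8257 .nil)) (.I .jac (.c 537002057 (.c 24 (.c 40 .nil))) (.l 48 (.l 16 .nil))))) (.node (.node (.I .jac (.c 537002057 (.c 24 (.c 40 .nil))) (.b 16 (.l 48 .nil))) (.I .adp (.c 513 (.c 32 (.c 12993 .nil))) (.l 18561 .nil)))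 (.node (.I .adp (.c 0 (.c 32 (.c 40 .nil))) (.b 4673 (.l 18561 .nil))) (.I .adp (.c 0 (.c 8257 (.c 12993 .nil))) (.l 18561 .nil))))) (.node (.node (.node (.I .jac (.c 0 (.c 24 (.c 40 .nil))) (.r 8257 (.l 18561 .nil))) (.I .adp (.c 0 (.c 32 (.c 8 .nil))) (.b 12993 (.l 18561 .nil)))) (.node (.I .adp (.c 0 (.c 32 (.c 24 .nil))) (.b 12865 (.l 18561 .nil))) (.I .jac (.c 0 (.c 8 (.c 24 .nil))) (.b 13057 (.l 18561 .nil))))) (.node (.node (.I .jac (.c 0 (.c 8 (.c 24 .nil))) (.b 13057 (.b 48 (.b 16 .nil)))) (.I .jac (.c 0 (.c 8 (.c 24 .nil))) (.b 13057 (.b 48 (.l 16 .nil))))) (.node (.I .jac (.c 0 (.c 8 (.c 24 .nil))) (.b 13057 (.l 48 (.l 16 .nil)))) (.I .jac (.c 169943113 (.c 32 (.c 40 .nil))) (.b 16 (.b 48 .nil))))))) (.node (.node (.node (.node (.I .jac (.c 2105545 (.c 32 (.c 40 .nil))) (.b 16 (.b 48 .nil))) (.I .jac (.c 2105545 (.c 32 (.c 40 .nil))) (.b 16 (.l 48 .nil)))) (.node (.I .jac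 (.c 24 (.c 32 (.c 40 .nil))) (.l 513 (.l 18561 .nil))) (.I .adp (.c 513 (.c 24 (.c 13057 .nil))) (.l 18561 .nil)))) (.node (.node (.I .jac (.c 513 (.c 32 (.c 40 .nil))) (.r 24 (.l 18561 .nil))) (.I .jac (.c 2728451 (.c 32 (.c 40 .nil))) (.b 16 (.b 48 .nil)))) (.node (.I .adp (.c 0 (.c 4673 (.c 13057 .nil))) (.l 18561 .nil)) (.I .jac (.c 0 (.c 32 (.c 40 .nil))) (.r 4673 (.l 18561 .nil)))))) (.node (.node (.node (.I .adp (.c 0 (.c 24 (.c 8 .nil))) (.b 13057 (.l 18561 .nil))) (.I .adp (.c 0 (.c 24 (.c 40 .nil))) (.b 8257 (.l 18561 .nil)))) (.node (.I .adp (.c 0 (.c 24 (.c 32 .nil))) (.b 12865 (.l 18561 .nil))) (.I .jac (.c 4673 (.c 32 (.c 40 .nil))) (.b 16 (.l 18433 .nil))))) (.node (.node (.I .jac (.c 8257 (.c 24 (.c 40 .nil))) (.b 16 (.l 18433 .nil))) (.I .jac (.c 12865 (.c 24 (.c 32 .nil))) (.b 16 (.l 18433 .nil)))) (.node (.I .jac (.c 4609 (.c 32 (.c 40 .nil))) (.b 43059267 .nil))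 (.I .jac (.c 4609 (.c 32 (.c 40 .nil))) (.b 8 (.l 18561 .nil)))))))) (.node (.node (.node (.node (.node (.I .jac (.c 8193 (.c 24 (.c 40 .nil))) (.b 8 (.l 18561 .nil))) (.I .jac (.c 12801 (.c 24 (.c 32 .nil))) (.b 8 (.l 18561 .nil)))) (.node (.I .jac (.c 4609 (.c 32 (.c 40 .nil))) (.b 8 (.b 48 (.l 16 .nil)))) (.I .jac (.c 8193 (.c 24 (.c 40 .nil))) (.b 8 (.b 48 (.l 16 .nil)))))) (.node (.node (.I .jac (.c 12801 (.c 24 (.c 32 .nil))) (.b 8 (.b 48 (.l 16 .nil)))) (.I .jac (.c 4609 (.c 32 (.c 40 .nil))) (.b 8 (.b 16 (.b 48 .nil))))) (.node (.I .jac (.c 8193 (.c 24 (.c 40 .nil))) (.b 8 (.b 16 (.b 48 .nil)))) (.I .jac (.c 12801 (.c 24 (.c 32 .nil))) (.b 8 (.b 16 (.b 48 .nil))))))) (.node (.node (.node (.I .jac (.c 2105609 (.c 16 (.c 40 .nil))) (.l 18625 .nil)) (.I .jac (.c 513 (.c 12929 (.c 32 .nil))) (.l 18625 .nil))) (.node (.I .jac (.c 513 (.c 16 (.c 40 .nil))) (.b 32 (.l 18625 .nil)))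 (.I .com (.c 10064237432092225236522737417 (.c 18625 .nil)) .nil))) (.node (.node (.I .jac (.c 2049 (.c 12865 (.c 32 .nil))) (.l 18625 .nil)) (.I .jac (.c 2049 (.c 8 (.c 40 .nil))) (.b 32 (.l 18625 .nil)))) (.node (.I .jac (.c 2049 (.c 8257 (.c 40 .nil))) (.l 18625 .nil)) (.I .jac (.c 2049 (.c 8 (.c 32 .nil))) (.b 40 (.l 18625 .nil))))))) (.node (.node (.node (.node (.I .com (.c 651601654921541717468315286321865 (.c 18625 .nil)) .nil) (.I .com (.c 651596688508365770927126595477193 (.c 18625 .nil)) .nil)) (.node (.I .jac (.c 1310925065 (.c 8 (.c 16 .nil))) (.l 18625 .nil)) (.I .jac (.c 537002313 (.c 8 (.c 16 .nil))) (.l 18625 .nil)))) (.node (.node (.I .com (.c 1512103191868961635872417890875254705929 (.c 18625 .nil)) .nil) (.I .com (.c 42576953795010651407263038383993868041 (.c 18625 .nil)) .nil)) (.node (.I .jac (.c 2105673 (.c 16 (.c 32 .nil))) (.l 48 (.l 24 .nil))) (.I .jac (.c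 2105609 (.c 16 (.c 40 .nil))) (.l 48 (.l 24 .nil)))))) (.node (.node (.node (.I .com (.c 10065461098107652387135109897 (.c 48 .nil)) (.l 24 .nil)) (.I .com (.c 10064237432092225236522737417 (.c 48 .nil)) (.l 24 .nil))) (.node (.I .com (.c 10061790434706725190145613705 (.c 48 .nil)) (.l 24 .nil)) (.I .com (.c 10061790434670409642568088521 (.c 48 .nil)) (.l 24 .nil)))) (.node (.node (.I .jac (.c 33587529 (.c 8 (.c 32 .nil))) (.l 48 (.l 24 .nil))) (.I .jac (.c 33587465 (.c 8 (.c 40 .nil))) (.l 48 (.l 24 .nil)))) (.node (.I .com (.c 651601654921541717468315286321865 (.c 48 .nil)) (.l 24 .nil)) (.I .com (.c 651596688508365770927126595477193 (.c 48 .nil)) (.l 24 .nil))))))))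

noncomputable def c2_410 : Tr := (.node (.node (.node (.node (.node (.node (.I .com (.c 651581789439149858614694249422729 (.c 48 .nil)) (.l 24 .nil)) (.I .com (.c 651581789439140617179291382201289 (.c 48 .nil)) (.l 24 .nil))) (.node (.I .jac (.c 1310925065 (.c 8 (.c 16 .nil))) (.l 48 (.l 24 .nil))) (.I .jac (.c 537002313 (.c 8 (.c 16 .nil))) (.l 48 (.l 24 .nil))))) (.node (.node (.I .com (.c 1512103191868961649950570808237977416393 (.c 48 .nil)) (.l 24 .nil)) (.I .com (.c 42576953795010653769602236682924913353 (.c 48 .nil)) (.l 24 .nil))) (.node (.I .com (.c 1512103191868961635872417890875254705929 (.c 48 .nil)) (.l 24 .nil)) (.I .com (.c 42576953795010651407263038383993868041 (.c 48 .nil)) (.l 24 .nil))))) (.node (.node (.node (.I .adp (.c 12929 (.c 32 (.c 513 .nil))) (.l 18625 .nil)) (.I .com (.c 2105609 (.c 12929 .nil)) (.l 18625 .nil))) (.node (.I .jac (.c 513 (.c 16 (.c 32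 .nil))) (.r 40 (.l 18625 .nil))) (.I .adp (.c 32 (.c 40 (.c 16 .nil))) (.b 513 (.l 18625 .nil))))) (.node (.node (.I .com (.c 12929 (.c 32 .nil)) (.b 513 (.l 18625 .nil))) (.I .ass (.c 18625 (.c 2105609 (.c 12929 .nil))) .nil)) (.node (.I .com (.c 18625 (.c 2105609 .nil)) (.r 12929 .nil)) (.I .com (.c 33587465 (.c 12865 .nil)) (.l 18625 .nil)))))) (.node (.node (.node (.node (.I .jac (.c 2049 (.c 8 (.c 32 .nil))) (.r 40 (.l 18625 .nil))) (.I .com (.c 33587529 (.c 8257 .nil)) (.l 18625 .nil))) (.node (.I .adp (.c 12865 (.c 32 (.c 2049 .nil))) (.l 18625 .nil)) (.I .adp (.c 8257 (.c 40 (.c 2049 .nil))) (.l 18625 .nil)))) (.node (.node (.I .adp (.c 32 (.c 40 (.c 8 .nil))) (.b 2049 (.l 18625 .nil))) (.I .com (.c 12865 (.c 32 .nil)) (.b 2049 (.l 18625 .nil)))) (.node (.I .jac (.c 8193 (.c 8 (.c 16 .nil))) (.r 40 (.l 18625 .nil))) (.I .adp (.c 32 (.c 40 (.c 0 .nil))) (.b 2113 (.l 18625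 .nil)))))) (.node (.node (.node (.I .com (.c 12801 (.c 32 .nil)) (.b 2113 (.l 18625 .nil))) (.I .tdb (.c 8 (.c 32 (.c 0 (.c 40 .nil)))) (.b 16 (.t 24 48 .nil)))) (.node (.I .tdb (.c 0 (.c 40 (.c 8 (.c 32 .nil)))) (.b 16 (.t 24 48 .nil))) (.I .tdb (.c 0 (.c 40 (.c 16 (.c 32 .nil)))) (.b 8 (.t 24 48 .nil))))) (.node (.node (.I .tdb (.c 0 (.c 32 (.c 8 (.c 40 .nil)))) (.b 16 (.t 24 48 .nil))) (.I .tdb (.c 0 (.c 32 (.c 16 (.c 40 .nil)))) (.b 8 (.t 24 48 .nil)))) (.node (.I .jac (.c 8193 (.c 12865 (.c 16 .nil))) (.l 18625 .nil)) (.I .com (.c 42576892903125866125508513263802588873 (.c 18625 .nil)) .nil)))))) (.node (.node (.node (.node (.node (.I .com (.c 42576872605845448752433331259473583881 (.c 18625 .nil)) .nil) (.I .com (.c 1512102601296135269515422934336011008713 (.c 18625 .nil)) .nil)) (.node (.I .com (.c 10065461098035008044835206025 (.c 48 .nil)) (.l 24 .nil)) (.I .com (.c 10064237431983265346846634953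 (.c 48 .nil)) (.l 24 .nil)))) (.node (.node (.I .jac (.c 537002121 (.c 8 (.c 40 .nil))) (.l 48 (.l 24 .nil))) (.I .com (.c 42576892903125866125508513263802588873 (.c 48 .nil)) (.l 24 .nil))) (.node (.I .com (.c 42576872605845448752433331259473583881 (.c 48 .nil)) (.l 24 .nil)) (.I .com (.c 42576872605845441665422493413917717449 (.c 48 .nil)) (.l 24 .nil))))) (.node (.node (.node (.I .jac (.c 1310924937 (.c 8 (.c 32 .nil))) (.l 48 (.l 24 .nil))) (.I .com (.c 1512102601296135269515422934336011008713 (.c 48 .nil)) (.l 24 .nil))) (.node (.I .com (.c 1512102601296135227280972429874805772169 (.c 48 .nil)) (.l 24 .nil)) (.I .com (.c 651601654921513992739479373959049 (.c 48 .nil)) (.l 24 .nil)))) (.node (.node (.I .adp (.c 16 (.c 13057 (.c 513 .nil))) (.l 18625 .nil)) (.I .jac (.c 513 (.c 32 (.c 40 .nil))) (.l 16 (.l 18625 .nil)))) (.node (.I .com (.c 35470870263689 (.c 16 .nil)) (.l 18625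 .nil)) (.I .com (.c 35468714087369 (.c 16 .nil)) (.l 18625 .nil)))))) (.node (.node (.node (.node (.I .adp (.c 16 (.c 40 (.c 32 .nil))) (.b 513 (.l 18625 .nil))) (.I .ass (.c 18625 (.c 2105481 (.c 13057 .nil))) .nil)) (.node (.I .com (.c 18625 (.c 2105481 .nil)) (.r 13057 .nil)) (.I .com (.c 537002121 (.c 12865 .nil)) (.l 18625 .nil)))) (.node (.node (.I .com (.c 537002313 (.c 2113 .nil)) (.l 18625 .nil)) (.I .adp (.c 12865 (.c 16 (.c 8193 .nil))) (.l 18625 .nil))) (.node (.I .adp (.c 2113 (.c 40 (.c 8193 .nil))) (.l 18625 .nil)) (.I .adp (.c 16 (.c 40 (.c 8 .nil))) (.b 8193 (.l 18625 .nil)))))) (.node (.node (.node (.I .com (.c 12865 (.c 16 .nil)) (.b 8193 (.l 18625 .nil))) (.I .adp (.c 16 (.c 40 (.c 0 .nil))) (.b 8257 (.l 18625 .nil)))) (.node (.I .com (.c 12801 (.c 16 .nil)) (.b 8257 (.l 18625 .nil))) (.I .jac (.c 20891651 (.c 8 (.c 32 .nil))) (.t 24 48 .nil)))) (.node (.node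 (.I .jac (.c 0 (.c 8 (.c 40 .nil))) (.b 8321 (.b 48 (.b 24 .nil)))) (.I .com (.c 651596688508328804762888218546121 (.c 48 .nil)) (.l 24 .nil))) (.node (.I .com (.c 42576892903125856676158477119718330313 (.c 48 .nil)) (.l 24 .nil)) (.I .jac (.c 1310924873 (.c 16 (.c 32 .nil))) (.l 48 (.l 24 .nil)))))))))

noncomputable def c2_411 : Tr := (.node (.node (.node (.node (.node (.node (.I .com (.c 1512102306009786937337782324909974764297 (.c 48 .nil)) (.l 24 .nil)) (.I .com (.c 1512102306009786909181484737811290911625 (.c 48 .nil)) (.l 24 .nil))) (.node (.I .adp (.c 513 (.c 40 (.c 8321 .nil))) (.l 18625 .nil)) (.I .jac (.c 20685315 (.c 16 (.c 32 .nil))) (.t 24 48 .nil)))) (.node (.node (.I .jac (.c 2113 (.c 32 (.c 40 .nil))) (.l 0 (.l 18625 .nil))) (.I .adp (.c 0 (.c 40 (.c 32 .nil))) (.b 2113 (.l 18625 .nil)))) (.node (.I .ass (.c 18625 (.c 0 (.c 10206474507614089 .nil))) .nil) (.I .ass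 (.c 0 (.c 18625 (.c 10206474507614089 .nil))) .nil)))) (.node (.node (.node (.I .com (.c 18625 (.c 0 .nil)) (.r 10206474507614089 .nil)) (.I .ass (.c 18625 (.c 0 (.c 10206437931930569 .nil))) .nil)) (.node (.I .ass (.c 0 (.c 18625 (.c 10206437931930569 .nil))) .nil) (.I .com (.c 18625 (.c 0 .nil)) (.r 10206437931930569 .nil)))) (.node (.node (.I .jac (.c 8257 (.c 16 (.c 40 .nil))) (.l 0 (.l 18625 .nil))) (.I .adp (.c 0 (.c 40 (.c 16 .nil))) (.b 8257 (.l 18625 .nil)))) (.node (.I .ass (.c 18625 (.c 0 (.c 2379904940409059081 .nil))) .nil) (.I .ass (.c 0 (.c 18625 (.c 2379904940409059081 .nil))) .nil))))) (.node (.node (.node (.node (.I .com (.c 18625 (.c 0 .nil)) (.r 2379904940409059081 .nil)) (.I .ass (.c 18625 (.c 0 (.c 2379903264864635849 .nil))) .nil)) (.node (.I .ass (.c 0 (.c 18625 (.c 2379903264864635849 .nil))) .nil) (.I .com (.c 18625 (.c 0 .nil)) (.r 2379903264864635849 .nil))))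 (.node (.node (.I .jac (.c 12865 (.c 16 (.c 32 .nil))) (.l 0 (.l 18625 .nil))) (.I .adp (.c 0 (.c 12865 (.c 8321 .nil))) (.l 18625 .nil))) (.node (.I .jac (.c 0 (.c 16 (.c 32 .nil))) (.r 12865 (.l 18625 .nil))) (.I .adp (.c 0 (.c 40 (.c 8 .nil))) (.b 8321 (.l 18625 .nil)))))) (.node (.node (.node (.I .ass (.c 18625 (.c 0 (.c 14025207386396218121 .nil))) .nil) (.I .ass (.c 0 (.c 18625 (.c 14025207386396218121 .nil))) .nil)) (.node (.I .com (.c 18625 (.c 0 .nil)) (.r 14025207386396218121 .nil)) (.I .ass (.c 18625 (.c 0 (.c 14025204674709064585 .nil))) .nil))) (.node (.node (.I .ass (.c 0 (.c 18625 (.c 14025204674709064585 .nil))) .nil) (.I .com (.c 18625 (.c 0 .nil)) (.r 14025204674709064585 .nil))) (.node (.I .jac (.c 12801 (.c 8257 (.c 16 .nil))) (.l 18625 .nil)) (.I .adp (.c 8193 (.c 16 (.c 12865 .nil))) (.l 18625 .nil))))))) (.node (.node (.node (.node (.node (.I .adp (.c 2049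 (.c 32 (.c 12865 .nil))) (.l 18625 .nil)) (.I .ass (.c 18625 (.c 8193 (.c 1324065929 .nil))) .nil)) (.node (.I .com (.c 18625 (.c 8193 .nil)) (.r 1324065929 .nil)) (.I .ass (.c 18625 (.c 2049 (.c 1324066057 .nil))) .nil))) (.node (.node (.I .com (.c 18625 (.c 2049 .nil)) (.r 1324066057 .nil)) (.I .ass (.c 18625 (.c 1310925065 (.c 2113 .nil))) .nil)) (.node (.I .com (.c 18625 (.c 1310925065 .nil)) (.r 2113 .nil)) (.I .ass (.c 18625 (.c 1310924937 (.c 8257 .nil))) .nil)))) (.node (.node (.node (.I .com (.c 18625 (.c 1310924937 .nil)) (.r 8257 .nil)) (.I .jac (.c 8652803 (.c 8 (.c 40 .nil))) (.t 24 48 .nil))) (.node (.I .jac (.c 537002057 (.c 16 (.c 40 .nil))) (.l 18625 .nil)) (.I .jac (.c 0 (.c 8 (.c 32 .nil))) (.b 12929 (.l 18625 .nil))))) (.node (.node (.I .jac (.c 0 (.c 8 (.c 32 .nil))) (.b 12929 (.b 48 (.b 24 .nil)))) (.I .jac (.c 0 (.c 8 (.c 32 .nil))) (.b 12929 (.b 48 (.l 24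 .nil))))) (.node (.I .jac (.c 537002057 (.c 16 (.c 40 .nil))) (.l 48 (.l 24 .nil))) (.I .adp (.c 513 (.c 32 (.c 12929 .nil))) (.l 18625 .nil)))))) (.node (.node (.node (.node (.I .adp (.c 0 (.c 32 (.c 40 .nil))) (.b 2113 (.l 18625 .nil))) (.I .adp (.c 0 (.c 8257 (.c 12929 .nil))) (.l 18625 .nil))) (.node (.I .jac (.c 0 (.c 16 (.c 40 .nil))) (.r 8257 (.l 18625 .nil))) (.I .adp (.c 0 (.c 32 (.c 8 .nil))) (.b 12929 (.l 18625 .nil))))) (.node (.node (.I .adp (.c 0 (.c 32 (.c 16 .nil))) (.b 12865 (.l 18625 .nil))) (.I .jac (.c 0 (.c 8 (.c 16 .nil))) (.b 13057 (.b 48 (.l 24 .nil))))) (.node (.I .jac (.c 33587273 (.c 32 (.c 40 .nil))) (.l 48 (.l 24 .nil))) (.I .jac (.c 2105481 (.c 32 (.c 40 .nil))) (.l 48 (.l 24 .nil)))))) (.node (.node (.node (.I .jac (.c 33587273 (.c 32 (.c 40 .nil))) (.b 24 (.b 48 .nil))) (.I .jac (.c 2105481 (.c 32 (.c 40 .nil))) (.b 24 (.b 48 .nil)))) (.node (.I .jac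 (.c 0 (.c 8 (.c 16 .nil))) (.b 13057 (.b 24 (.l 48 .nil)))) (.I .jac (.c 16 (.c 32 (.c 40 .nil))) (.l 513 (.l 18625 .nil))))) (.node (.node (.I .adp (.c 513 (.c 16 (.c 13057 .nil))) (.l 18625 .nil)) (.I .jac (.c 513 (.c 32 (.c 40 .nil))) (.r 16 (.l 18625 .nil)))) (.node (.I .jac (.c 557571 (.c 32 (.c 40 .nil))) (.b 24 (.l 48 .nil))) (.I .adp (.c 0 (.c 2113 (.c 13057 .nil))) (.l 18625 .nil))))))))

noncomputable def c2_412 : Tr := (.node (.node (.node (.node (.node (.node (.I .jac (.c 0 (.c 32 (.c 40 .nil))) (.r 2113 (.l 18625 .nil))) (.I .adp (.c 0 (.c 16 (.c 8 .nil))) (.b 13057 (.l 18625 .nil)))) (.node (.I .adp (.c 0 (.c 16 (.c 40 .nil))) (.b 8257 (.l 18625 .nil))) (.I .adp (.c 0 (.c 16 (.c 32 .nil))) (.b 12865 (.l 18625 .nil))))) (.node (.node (.I .jac (.c 8257 (.c 16 (.c 40 .nil))) (.l 18625 (.l 0 .nil))) (.I .jac (.c 12865 (.c 16 (.c 32 .nil))) (.l 18625 (.l 0 .nil)))) (.node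 (.I .jac (.c 2113 (.c 32 (.c 40 .nil))) (.b 24 (.l 18433 .nil))) (.I .jac (.c 8193 (.c 16 (.c 40 .nil))) (.l 18625 (.l 8 .nil)))))) (.node (.node (.node (.I .com (.c 2306971873338799881 (.c 18625 .nil)) (.l 8 .nil)) (.I .jac (.c 12801 (.c 16 (.c 32 .nil))) (.l 18625 (.l 8 .nil)))) (.node (.I .com (.c 13748196208362033929 (.c 18625 .nil)) (.l 8 .nil)) (.I .jac (.c 2049 (.c 32 (.c 40 .nil))) (.b 24 (.b 48 (.b 8 .nil)))))) (.node (.node (.I .jac (.c 2049 (.c 32 (.c 40 .nil))) (.b 8 (.l 18625 .nil))) (.I .jac (.c 8193 (.c 16 (.c 40 .nil))) (.b 8 (.l 18625 .nil)))) (.node (.I .jac (.c 12801 (.c 16 (.c 32 .nil))) (.b 8 (.l 18625 .nil))) (.I .jac (.c 2049 (.c 32 (.c 40 .nil))) (.b 8 (.b 48 (.b 24 .nil)))))))) (.node (.node (.node (.node (.I .jac (.c 8193 (.c 16 (.c 40 .nil))) (.b 8 (.b 48 (.b 24 .nil)))) (.I .jac (.c 12801 (.c 16 (.c 32 .nil))) (.b 8 (.b 48 (.b 24 .nil))))) (.node (.I .jac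 (.c 2049 (.c 32 (.c 40 .nil))) (.b 8 (.b 48 (.l 24 .nil)))) (.I .jac (.c 8193 (.c 16 (.c 40 .nil))) (.b 8 (.b 48 (.l 24 .nil)))))) (.node (.node (.I .jac (.c 12801 (.c 16 (.c 32 .nil))) (.b 8 (.b 48 (.l 24 .nil)))) (.I .jac (.c 8193 (.c 8 (.c 40 .nil))) (.l 2756085961 .nil))) (.node (.I .com (.c 2306971873338799817 (.c 2756085961 .nil)) .nil) (.I .jac (.c 12801 (.c 8 (.c 32 .nil))) (.l 2756085961 .nil))))) (.node (.node (.node (.I .com (.c 13748196208362033865 (.c 2756085961 .nil)) .nil) (.I .jac (.c 8193 (.c 8 (.c 40 .nil))) (.l 179513737 .nil))) (.node (.I .com (.c 2306971873338799817 (.c 179513737 .nil)) .nil) (.I .jac (.c 12801 (.c 8 (.c 32 .nil))) (.l 179513737 .nil)))) (.node (.node (.I .com (.c 13748196208362033865 (.c 179513737 .nil)) .nil) (.I .jac (.c 8193 (.c 8 (.c 40 .nil))) (.l 43356803 .nil))) (.node (.I .jac (.c 12801 (.c 8 (.c 32 .nil))) (.l 43356803 .nil)) (.I .jac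 (.c 513 (.c 32 (.c 40 .nil))) (.l 48 (.l 4737 .nil)))))))) (.node (.node (.node (.node (.node (.I .com (.c 35470870263689 (.c 48 .nil)) (.l 4737 .nil)) (.I .com (.c 35468714087369 (.c 48 .nil)) (.l 4737 .nil))) (.node (.I .jac (.c 8193 (.c 8 (.c 40 .nil))) (.l 48 (.l 4737 .nil))) (.I .com (.c 2306971873338799817 (.c 48 .nil)) (.l 4737 .nil)))) (.node (.node (.I .com (.c 2306969673777850313 (.c 48 .nil)) (.l 4737 .nil)) (.I .jac (.c 12801 (.c 8 (.c 32 .nil))) (.l 48 (.l 4737 .nil)))) (.node (.I .com (.c 13748196208362033865 (.c 48 .nil)) (.l 4737 .nil)) (.I .com (.c 13748192181200529289 (.c 48 .nil)) (.l 4737 .nil))))) (.node (.node (.node (.I .jac (.c 513 (.c 32 (.c 40 .nil))) (.b 24 (.l 18561 .nil))) (.I .jac (.c 513 (.c 32 (.c 40 .nil))) (.b 24 (.b 16 (.l 48 .nil))))) (.node (.I .jac (.c 513 (.c 32 (.c 40 .nil))) (.b 16 (.l 18625 .nil))) (.I .jac (.c 513 (.c 32 (.c 40 .nil))) (.b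 16 (.b 24 (.b 48 .nil)))))) (.node (.node (.I .jac (.c 513 (.c 16 (.c 40 .nil))) (.b 24 (.l 18689 .nil))) (.I .com (.c 10065461098071330215985125129 (.c 18689 .nil)) .nil)) (.node (.I .com (.c 10063013877615402959898107657 (.c 18689 .nil)) .nil) (.I .com (.c 10061790434706725190145613641 (.c 18689 .nil)) .nil))))) (.node (.node (.node (.node (.I .jac (.c 33587401 (.c 8 (.c 40 .nil))) (.l 18689 .nil)) (.I .jac (.c 2049 (.c 8 (.c 40 .nil))) (.b 24 (.l 18689 .nil)))) (.node (.I .jac (.c 2049 (.c 4673 (.c 40 .nil))) (.l 18689 .nil)) (.I .jac (.c 2049 (.c 8 (.c 24 .nil))) (.b 40 (.l 18689 .nil))))) (.node (.node (.I .com (.c 651601654921532475892036648801993 (.c 18689 .nil)) .nil) (.I .com (.c 1512102896582526821614077026536761750217 (.c 18689 .nil)) .nil)) (.node (.I .com (.c 427057993508083616106291307304383177 (.c 18689 .nil)) .nil) (.I .jac (.c 33587529 (.c 8 (.c 24 .nil))) (.l 48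 (.l 32 .nil)))))) (.node (.node (.node (.I .jac (.c 33587401 (.c 8 (.c 40 .nil))) (.l 48 (.l 32 .nil))) (.I .com (.c 651601654921532475892036648801993 (.c 48 .nil)) (.l 32 .nil))) (.node (.I .com (.c 651591722123570596944749659643593 (.c 48 .nil)) (.l 32 .nil)) (.I .com (.c 651581789439149858614694249422665 (.c 48 .nil)) (.l 32 .nil)))) (.node (.node (.I .com (.c 651581789439131375743888515045321 (.c 48 .nil)) (.l 32 .nil)) (.I .jac (.c 169943369 (.c 8 (.c 16 .nil))) (.l 48 (.l 32 .nil)))) (.node (.I .com (.c 427057993508083616106291307304383177 (.c 48 .nil)) (.l 32 .nil)) (.I .com (.c 427057993508083379515198226665525001 (.c 48 .nil)) (.l 32 .nil))))))))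

noncomputable def c2_413 : Tr := (.node (.node (.node (.node (.node (.node (.I .adp (.c 12929 (.c 24 (.c 513 .nil))) (.l 18689 .nil)) (.I .com (.c 2105545 (.c 12929 .nil)) (.l 18689 .nil))) (.node (.I .ass (.c 18689 (.c 33587529 (.c 4673 .nil))) .nil) (.I .com (.c 18689 (.c 33587529 .nil)) (.r 4673 .nil)))) (.node (.node (.I .adp (.c 12801 (.c 24 (.c 2113 .nil))) (.l 18689 .nil)) (.I .ass (.c 18689 (.c 12801 (.c 35718345 .nil))) .nil)) (.node (.I .com (.c 18689 (.c 12801 .nil)) (.r 35718345 .nil)) (.I .tdb (.c 0 (.c 40 (.c 16 (.c 24 .nil)))) (.b 8 (.t 32 48 .nil)))))) (.node (.node (.node (.I .com (.c 10065461098035008044835205961 (.c 18689 .nil)) .nil) (.I .jac (.c 169943177 (.c 8 (.c 40 .nil))) (.l 18689 .nil))) (.node (.I .com (.c 427055420260303037694618589709917961 (.c 18689 .nil)) .nil) (.I .com (.c 1512102601296135255437272766182275864265 (.c 18689 .nil)) .nil))) (.node (.node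 (.I .com (.c 1512102601296135227280972429874805772105 (.c 18689 .nil)) .nil) (.I .com (.c 651601654921513992739479373958985 (.c 18689 .nil)) .nil)) (.node (.I .jac (.c 169943177 (.c 8 (.c 40 .nil))) (.l 48 (.l 32 .nil))) (.I .com (.c 427056063571158149899930723770113737 (.c 48 .nil)) (.l 32 .nil)))))) (.node (.node (.node (.node (.I .com (.c 427055420260303037694618589709917961 (.c 48 .nil)) (.l 32 .nil)) (.I .com (.c 427055420260302327923477728639448009 (.c 48 .nil)) (.l 32 .nil))) (.node (.I .com (.c 651601654921513992739479373958985 (.c 48 .nil)) (.l 32 .nil)) (.I .adp (.c 16 (.c 12993 (.c 513 .nil))) (.l 18689 .nil)))) (.node (.node (.I .jac (.c 513 (.c 24 (.c 40 .nil))) (.l 16 (.l 18689 .nil))) (.I .com (.c 35470870263625 (.c 16 .nil)) (.l 18689 .nil))) (.node (.I .com (.c 35466557976521 (.c 16 .nil)) (.l 18689 .nil)) (.I .ass (.c 18689 (.c 169943369 (.c 2113 .nil))) .nil))))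 (.node (.node (.node (.I .com (.c 18689 (.c 169943369 .nil)) (.r 2113 .nil)) (.I .adp (.c 12801 (.c 16 (.c 4673 .nil))) (.l 18689 .nil))) (.node (.I .ass (.c 18689 (.c 12801 (.c 174695561 .nil))) .nil) (.I .com (.c 18689 (.c 12801 .nil)) (.r 174695561 .nil)))) (.node (.node (.I .tdb (.c 0 (.c 40 (.c 8 (.c 16 .nil)))) (.b 24 (.t 32 48 .nil))) (.I .jac (.c 1310924873 (.c 16 (.c 24 .nil))) (.l 18689 .nil))) (.node (.I .com (.c 1512102306009786923259633531360632805129 (.c 18689 .nil)) .nil) (.I .com (.c 651591722123533630921387187294153 (.c 48 .nil)) (.l 32 .nil))))))) (.node (.node (.node (.node (.node (.I .com (.c 427056063571157203537696782463438793 (.c 48 .nil)) (.l 32 .nil)) (.I .jac (.c 0 (.c 8 (.c 40 .nil))) (.b 4737 (.b 32 (.b 48 .nil))))) (.node (.I .ass (.c 18689 (.c 33587273 (.c 12993 .nil))) .nil) (.I .com (.c 18689 (.c 33587273 .nil)) (.r 12993 .nil)))) (.node (.node (.I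 .ass (.c 18689 (.c 169943113 (.c 12929 .nil))) .nil) (.I .com (.c 18689 (.c 169943113 .nil)) (.r 12929 .nil))) (.node (.I .ass (.c 18689 (.c 513 (.c 179513673 .nil))) .nil) (.I .com (.c 18689 (.c 513 .nil)) (.r 179513673 .nil))))) (.node (.node (.node (.I .jac (.c 0 (.c 8 (.c 16 .nil))) (.r 12993 (.l 18689 .nil))) (.I .adp (.c 0 (.c 12993 (.c 2113 .nil))) (.l 18689 .nil))) (.node (.I .jac (.c 0 (.c 8 (.c 24 .nil))) (.r 12929 (.l 18689 .nil))) (.I .adp (.c 0 (.c 12929 (.c 4673 .nil))) (.l 18689 .nil)))) (.node (.node (.I .jac (.c 12801 (.c 8 (.c 16 .nil))) (.b 24 (.l 18689 .nil))) (.I .adp (.c 16 (.c 24 (.c 40 .nil))) (.b 513 (.l 18689 .nil)))) (.node (.I .adp (.c 16 (.c 24 (.c 0 .nil))) (.b 12865 (.l 18689 .nil))) (.I .com (.c 4609 (.c 16 .nil)) (.b 12865 (.l 18689 .nil))))))) (.node (.node (.node (.node (.I .com (.c 1310924937 (.c 4673 .nil)) (.l 18689 .nil)) (.I .com (.c 1310925001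 (.c 2113 .nil)) (.l 18689 .nil))) (.node (.I .adp (.c 4673 (.c 16 (.c 12801 .nil))) (.l 18689 .nil)) (.I .adp (.c 2113 (.c 24 (.c 12801 .nil))) (.l 18689 .nil)))) (.node (.node (.I .adp (.c 16 (.c 24 (.c 8 .nil))) (.b 12801 (.l 18689 .nil))) (.I .com (.c 4673 (.c 16 .nil)) (.b 12801 (.l 18689 .nil)))) (.node (.I .jac (.c 169943113 (.c 16 (.c 40 .nil))) (.l 18689 .nil)) (.I .jac (.c 0 (.c 8 (.c 24 .nil))) (.b 12929 (.l 18689 .nil)))))) (.node (.node (.node (.I .jac (.c 0 (.c 8 (.c 24 .nil))) (.b 12929 (.b 48 (.b 32 .nil)))) (.I .jac (.c 169943113 (.c 16 (.c 40 .nil))) (.l 48 (.l 32 .nil)))) (.node (.I .jac (.c 0 (.c 8 (.c 24 .nil))) (.b 12929 (.b 32 (.l 48 .nil)))) (.I .adp (.c 513 (.c 24 (.c 12929 .nil))) (.l 18689 .nil)))) (.node (.node (.I .adp (.c 0 (.c 24 (.c 40 .nil))) (.b 2113 (.l 18689 .nil))) (.I .adp (.c 0 (.c 4673 (.c 12929 .nil))) (.l 18689 .nil))) (.node (.I .jac (.c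 0 (.c 16 (.c 40 .nil))) (.r 4673 (.l 18689 .nil))) (.I .adp (.c 0 (.c 24 (.c 8 .nil))) (.b 12929 (.l 18689 .nil)))))))))

noncomputable def c2_414 : Tr := (.node (.node (.node (.node (.node (.node (.I .adp (.c 0 (.c 24 (.c 16 .nil))) (.b 12865 (.l 18689 .nil))) (.I .jac (.c 33587273 (.c 24 (.c 40 .nil))) (.l 18689 .nil))) (.node (.I .jac (.c 0 (.c 8 (.c 16 .nil))) (.b 12993 (.b 48 (.b 32 .nil)))) (.I .jac (.c 33587273 (.c 24 (.c 40 .nil))) (.l 48 (.l 32 .nil))))) (.node (.node (.I .jac (.c 557571 (.c 24 (.c 40 .nil))) (.l 18689 .nil)) (.I .jac (.c 16 (.c 24 (.c 40 .nil))) (.l 513 (.l 18689 .nil)))) (.node (.I .adp (.c 513 (.c 16 (.c 12993 .nil))) (.l 18689 .nil)) (.I .jac (.c 513 (.c 24 (.c 40 .nil))) (.r 16 (.l 18689 .nil)))))) (.node (.node (.node (.I .adp (.c 0 (.c 2113 (.c 12993 .nil))) (.l 18689 .nil)) (.I .jac (.c 0 (.c 24 (.c 40 .nil))) (.r 2113 (.l 18689 .nil)))) (.node (.I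 .adp (.c 0 (.c 16 (.c 8 .nil))) (.b 12993 (.l 18689 .nil))) (.I .adp (.c 0 (.c 16 (.c 40 .nil))) (.b 4673 (.l 18689 .nil))))) (.node (.node (.I .adp (.c 0 (.c 16 (.c 24 .nil))) (.b 12865 (.l 18689 .nil))) (.I .jac (.c 2113 (.c 24 (.c 40 .nil))) (.l 48 (.l 8193 .nil)))) (.node (.I .jac (.c 4673 (.c 16 (.c 40 .nil))) (.l 48 (.l 8193 .nil))) (.I .jac (.c 12865 (.c 16 (.c 24 .nil))) (.l 48 (.l 8193 .nil))))))) (.node (.node (.node (.node (.I .jac (.c 2049 (.c 24 (.c 40 .nil))) (.l 48 (.l 8257 .nil))) (.I .com (.c 9024976834606921 (.c 48 .nil)) (.l 8257 .nil))) (.node (.I .com (.c 9024908047478729 (.c 48 .nil)) (.l 8257 .nil)) (.I .jac (.c 4609 (.c 16 (.c 40 .nil))) (.l 48 (.l 8257 .nil))))) (.node (.node (.I .com (.c 231045989336561417 (.c 48 .nil)) (.l 8257 .nil)) (.I .com (.c 231045467270826953 (.c 48 .nil)) (.l 8257 .nil))) (.node (.I .jac (.c 12801 (.c 16 (.c 24 .nil))) (.l 48 (.l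 8257 .nil))) (.I .com (.c 13748194865974800137 (.c 48 .nil)) (.l 8257 .nil))))) (.node (.node (.node (.I .com (.c 13748193523587631945 (.c 48 .nil)) (.l 8257 .nil)) (.I .jac (.c 2049 (.c 24 (.c 40 .nil))) (.l 32 (.l 18497 .nil)))) (.node (.I .com (.c 9024976834606921 (.c 32 .nil)) (.l 18497 .nil)) (.I .jac (.c 4609 (.c 16 (.c 40 .nil))) (.l 32 (.l 18497 .nil))))) (.node (.node (.I .com (.c 231045989336561417 (.c 32 .nil)) (.l 18497 .nil)) (.I .jac (.c 12801 (.c 16 (.c 24 .nil))) (.l 32 (.l 18497 .nil)))) (.node (.I .com (.c 13748194865974800137 (.c 32 .nil)) (.l 18497 .nil)) (.I .com (.c 13748193523587631945 (.c 32 .nil)) (.l 18497 .nil))))))) (.node (.node (.node (.node (.node (.I .jac (.c 2049 (.c 24 (.c 40 .nil))) (.b 8 (.l 18689 .nil))) (.I .jac (.c 4609 (.c 16 (.c 40 .nil))) (.b 8 (.l 18689 .nil)))) (.node (.I .jac (.c 12801 (.c 16 (.c 24 .nil))) (.b 8 (.l 18689 .nil))) (.I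 .jac (.c 2049 (.c 24 (.c 40 .nil))) (.b 8 (.b 48 (.l 32 .nil)))))) (.node (.node (.I .jac (.c 4609 (.c 16 (.c 40 .nil))) (.b 8 (.b 48 (.l 32 .nil)))) (.I .jac (.c 12801 (.c 16 (.c 24 .nil))) (.b 8 (.b 48 (.l 32 .nil))))) (.node (.I .jac (.c 2049 (.c 24 (.c 40 .nil))) (.b 8 (.b 32 (.l 48 .nil)))) (.I .jac (.c 4609 (.c 16 (.c 40 .nil))) (.b 8 (.b 32 (.l 48 .nil))))))) (.node (.node (.node (.I .jac (.c 12801 (.c 16 (.c 24 .nil))) (.b 8 (.b 32 (.l 48 .nil)))) (.I .jac (.c 4609 (.c 8 (.c 40 .nil))) (.l 2756086025 .nil))) (.node (.I .com (.c 231045989336561353 (.c 2756086025 .nil)) .nil) (.I .jac (.c 12801 (.c 8 (.c 24 .nil))) (.l 2756086025 .nil)))) (.node (.node (.I .com (.c 13748194865974800073 (.c 2756086025 .nil)) .nil) (.I .jac (.c 4609 (.c 8 (.c 40 .nil))) (.l 553912713 .nil))) (.node (.I .com (.c 231045989336561353 (.c 553912713 .nil)) .nil) (.I .jac (.c 12801 (.c 8 (.c 24 .nil)))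 (.l 553912713 .nil)))))) (.node (.node (.node (.node (.I .com (.c 13748194865974800073 (.c 553912713 .nil)) .nil) (.I .jac (.c 4609 (.c 8 (.c 40 .nil))) (.l 43655299 .nil))) (.node (.I .jac (.c 12801 (.c 8 (.c 24 .nil))) (.l 43655299 .nil)) (.I .jac (.c 513 (.c 24 (.c 40 .nil))) (.l 18689 (.l 16 .nil))))) (.node (.node (.I .com (.c 35470870263625 (.c 18689 .nil)) (.l 16 .nil)) (.I .jac (.c 4609 (.c 8 (.c 40 .nil))) (.l 18689 (.l 16 .nil)))) (.node (.I .com (.c 231045989336561353 (.c 18689 .nil)) (.l 16 .nil)) (.I .jac (.c 12801 (.c 8 (.c 24 .nil))) (.l 18689 (.l 16 .nil)))))) (.node (.node (.node (.I .com (.c 13748194865974800073 (.c 18689 .nil)) (.l 16 .nil)) (.I .com (.c 13748192181200529225 (.c 18689 .nil)) (.l 16 .nil))) (.node (.I .jac (.c 513 (.c 24 (.c 40 .nil))) (.l 48 (.l 8321 .nil))) (.I .com (.c 35470870263625 (.c 48 .nil)) (.l 8321 .nil)))) (.node (.node (.I .com (.c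 35466557976521 (.c 48 .nil)) (.l 8321 .nil)) (.I .jac (.c 4609 (.c 8 (.c 40 .nil))) (.l 48 (.l 8321 .nil)))) (.node (.I .com (.c 231045989336561353 (.c 48 .nil)) (.l 8321 .nil)) (.I .com (.c 231045293249046473 (.c 48 .nil)) (.l 8321 .nil))))))))

noncomputable def c2_415 : Tr := (.node (.node (.node (.node (.node (.node (.I .jac (.c 12801 (.c 8 (.c 24 .nil))) (.l 48 (.l 8321 .nil))) (.I .com (.c 13748194865974800073 (.c 48 .nil)) (.l 8321 .nil))) (.node (.I .com (.c 13748192181200529225 (.c 48 .nil)) (.l 8321 .nil)) (.I .jac (.c 513 (.c 24 (.c 40 .nil))) (.b 16 (.b 48 (.b 32 .nil)))))) (.node (.node (.I .jac (.c 513 (.c 16 (.c 40 .nil))) (.l 48 (.l 8385 .nil))) (.I .com (.c 35470870263561 (.c 48 .nil)) (.l 8385 .nil))) (.node (.I .com (.c 35464401931209 (.c 48 .nil)) (.l 8385 .nil)) (.I .jac (.c 2049 (.c 8 (.c 40 .nil))) (.l 48 (.l 8385 .nil)))))) (.node (.node (.node (.I .com (.c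 9024976834606793 (.c 48 .nil)) (.l 8385 .nil)) (.I .com (.c 9024839260612553 (.c 48 .nil)) (.l 8385 .nil))) (.node (.I .jac (.c 12801 (.c 8 (.c 16 .nil))) (.l 48 (.l 8385 .nil))) (.I .com (.c 13748193523587631817 (.c 48 .nil)) (.l 8385 .nil)))) (.node (.node (.I .com (.c 13748192181200529161 (.c 48 .nil)) (.l 8385 .nil)) (.I .jac (.c 2105609 (.c 16 (.c 24 .nil))) (.l 18753 .nil))) (.node (.I .jac (.c 2105545 (.c 16 (.c 32 .nil))) (.l 18753 .nil)) (.I .jac (.c 513 (.c 16 (.c 32 .nil))) (.b 24 (.l 18753 .nil))))))) (.node (.node (.node (.node (.I .jac (.c 513 (.c 16 (.c 24 .nil))) (.b 32 (.l 18753 .nil))) (.I .com (.c 10061790434670409642568088393 (.c 18753 .nil)) .nil)) (.node (.I .com (.c 10061790434634094094990628745 (.c 18753 .nil)) .nil) (.I .jac (.c 2049 (.c 8257 (.c 24 .nil))) (.l 18753 .nil)))) (.node (.node (.I .jac (.c 2049 (.c 4673 (.c 32 .nil))) (.l 18753 .nil)) (.I .com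 (.c 651581789439140617179291382201161 (.c 18753 .nil)) .nil)) (.node (.I .com (.c 651581789439131375743888515045257 (.c 18753 .nil)) .nil) (.I .jac (.c 33587465 (.c 8 (.c 24 .nil))) (.l 48 (.l 40 .nil)))))) (.node (.node (.node (.I .jac (.c 33587401 (.c 8 (.c 32 .nil))) (.l 48 (.l 40 .nil))) (.I .com (.c 651596688508347287845007406880457 (.c 48 .nil)) (.l 40 .nil))) (.node (.I .com (.c 651591722123561355438909041457865 (.c 48 .nil)) (.l 40 .nil)) (.I .com (.c 651581789439140617179291382201161 (.c 48 .nil)) (.l 40 .nil)))) (.node (.node (.I .com (.c 651581789439131375743888515045257 (.c 48 .nil)) (.l 40 .nil)) (.I .jac (.c 537002185 (.c 8 (.c 16 .nil))) (.l 48 (.l 40 .nil)))) (.node (.I .jac (.c 169943305 (.c 8 (.c 16 .nil))) (.l 48 (.l 40 .nil))) (.I .com (.c 42576913200413533512397237570979656393 (.c 48 .nil)) (.l 40 .nil))))))) (.node (.node (.node (.node (.node (.I .com (.c 427057350195048083672236560419041993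 (.c 48 .nil)) (.l 40 .nil)) (.I .com (.c 42576913200413531150059165447389105929 (.c 48 .nil)) (.l 40 .nil))) (.node (.I .com (.c 427057350195047847081321678284721929 (.c 48 .nil)) (.l 40 .nil)) (.I .jac (.c 513 (.c 16 (.c 32 .nil))) (.r 24 (.l 18753 .nil))))) (.node (.node (.I .ass (.c 18753 (.c 35468714087177 (.c 24 .nil))) .nil) (.I .com (.c 18753 (.c 35468714087177 .nil)) (.r 24 .nil))) (.node (.I .ass (.c 18753 (.c 35464401931145 (.c 24 .nil))) .nil) (.I .com (.c 18753 (.c 35464401931145 .nil)) (.r 24 .nil))))) (.node (.node (.node (.I .ass (.c 18753 (.c 2105545 (.c 8321 .nil))) .nil) (.I .com (.c 18753 (.c 2105545 .nil)) (.r 8321 .nil))) (.node (.I .jac (.c 2049 (.c 8 (.c 32 .nil))) (.r 24 (.l 18753 .nil))) (.I .ass (.c 18753 (.c 9024942441009865 (.c 24 .nil))) .nil))) (.node (.node (.I .com (.c 18753 (.c 9024942441009865 .nil)) (.r 24 .nil)) (.I .ass (.c 18753 (.c 9024839260612489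 (.c 24 .nil))) .nil)) (.node (.I .com (.c 18753 (.c 9024839260612489 .nil)) (.r 24 .nil)) (.I .ass (.c 18753 (.c 33587465 (.c 4673 .nil))) .nil))))) (.node (.node (.node (.node (.I .com (.c 18753 (.c 33587465 .nil)) (.r 4673 .nil)) (.I .jac (.c 8193 (.c 8 (.c 16 .nil))) (.r 24 (.l 18753 .nil)))) (.node (.I .adp (.c 8193 (.c 24 (.c 2113 .nil))) (.l 18753 .nil)) (.I .ass (.c 18753 (.c 2306970223667989193 (.c 24 .nil))) .nil))) (.node (.node (.I .com (.c 18753 (.c 2306970223667989193 .nil)) (.r 24 .nil)) (.I .ass (.c 18753 (.c 2306969673777850121 (.c 24 .nil))) .nil)) (.node (.I .com (.c 18753 (.c 2306969673777850121 .nil)) (.r 24 .nil)) (.I .ass (.c 18753 (.c 8193 (.c 35718345 .nil))) .nil)))) (.node (.node (.node (.I .com (.c 18753 (.c 8193 .nil)) (.r 35718345 .nil)) (.I .jac (.c 8786435 (.c 8 (.c 16 .nil))) (.t 40 48 .nil))) (.node (.I .jac (.c 0 (.c 8 (.c 8786563 .nil))) (.t 40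 48 .nil)) (.I .tdb (.c 0 (.c 32 (.c 16 (.c 24 .nil)))) (.b 8 (.t 40 48 .nil))))) (.node (.node (.I .jac (.c 169943177 (.c 8 (.c 32 .nil))) (.l 18753 .nil)) (.I .jac (.c 4609 (.c 8257 (.c 16 .nil))) (.l 18753 .nil))) (.node (.I .jac (.c 4609 (.c 8 (.c 16 .nil))) (.b 32 (.l 18753 .nil))) (.I .com (.c 427056063571157913309372238443346633 (.c 18753 .nil)) .nil)))))))

noncomputable def c2_416 : Tr := (.node (.node (.node (.node (.node (.node (.I .com (.c 427055420260302801104238302686362377 (.c 18753 .nil)) .nil) (.I .jac (.c 537002121 (.c 8 (.c 24 .nil))) (.l 18753 .nil))) (.node (.I .com (.c 42576892903125861400833495191760328393 (.c 18753 .nil)) .nil) (.I .jac (.c 169943177 (.c 8 (.c 32 .nil))) (.l 48 (.l 40 .nil))))) (.node (.node (.I .com (.c 427056063571157913309372238443346633 (.c 48 .nil)) (.l 40 .nil)) (.I .com (.c 427055420260302801104238302686362377 (.c 48 .nil)) (.l 40 .nil)))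 (.node (.I .com (.c 427055420260302327923477728639447945 (.c 48 .nil)) (.l 40 .nil)) (.I .jac (.c 537002121 (.c 8 (.c 24 .nil))) (.l 48 (.l 40 .nil)))))) (.node (.node (.node (.I .com (.c 42576892903125861400833495191760328393 (.c 48 .nil)) (.l 40 .nil)) (.I .com (.c 42576892903125856676158477119718330185 (.c 48 .nil)) (.l 40 .nil))) (.node (.I .com (.c 651596688508328804762888218545993 (.c 48 .nil)) (.l 40 .nil)) (.I .ass (.c 18753 (.c 35468714087241 (.c 16 .nil))) .nil))) (.node (.node (.I .com (.c 18753 (.c 35468714087241 .nil)) (.r 16 .nil)) (.I .ass (.c 18753 (.c 35466557976457 (.c 16 .nil))) .nil)) (.node (.I .com (.c 18753 (.c 35466557976457 .nil)) (.r 16 .nil)) (.I .ass (.c 18753 (.c 2105481 (.c 8385 .nil))) .nil))))) (.node (.node (.node (.node (.I .com (.c 18753 (.c 2105481 .nil)) (.r 8385 .nil)) (.I .jac (.c 4609 (.c 8 (.c 32 .nil))) (.r 16 (.l 18753 .nil)))) (.node (.I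 .ass (.c 18753 (.c 231045815314584265 (.c 16 .nil))) .nil) (.I .com (.c 18753 (.c 231045815314584265 .nil)) (.r 16 .nil)))) (.node (.node (.I .ass (.c 18753 (.c 231045293249046409 (.c 16 .nil))) .nil) (.I .com (.c 18753 (.c 231045293249046409 .nil)) (.r 16 .nil))) (.node (.I .ass (.c 18753 (.c 169943305 (.c 2113 .nil))) .nil) (.I .com (.c 18753 (.c 169943305 .nil)) (.r 2113 .nil))))) (.node (.node (.node (.I .jac (.c 8193 (.c 8 (.c 24 .nil))) (.r 16 (.l 18753 .nil))) (.I .adp (.c 8193 (.c 16 (.c 4673 .nil))) (.l 18753 .nil))) (.node (.I .ass (.c 18753 (.c 2306970773558193865 (.c 16 .nil))) .nil) (.I .com (.c 18753 (.c 2306970773558193865 .nil)) (.r 16 .nil)))) (.node (.node (.I .ass (.c 18753 (.c 2306969673777850185 (.c 16 .nil))) .nil) (.I .com (.c 18753 (.c 2306969673777850185 .nil)) (.r 16 .nil))) (.node (.I .ass (.c 18753 (.c 8193 (.c 174695561 .nil))) .nil) (.I .com (.c 18753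 (.c 8193 .nil)) (.r 174695561 .nil))))))) (.node (.node (.node (.node (.node (.I .jac (.c 8652803 (.c 8 (.c 24 .nil))) (.t 40 48 .nil)) (.I .jac (.c 537002057 (.c 16 (.c 24 .nil))) (.l 18753 .nil))) (.node (.I .jac (.c 0 (.c 8 (.c 32 .nil))) (.b 4737 (.l 18753 .nil))) (.I .com (.c 42576872605845444027759439362436273929 (.c 18753 .nil)) .nil))) (.node (.node (.I .com (.c 651591722123533630921387187294089 (.c 48 .nil)) (.l 40 .nil)) (.I .com (.c 427056063571157203537696782463438729 (.c 48 .nil)) (.l 40 .nil))) (.node (.I .jac (.c 537002057 (.c 16 (.c 24 .nil))) (.l 48 (.l 40 .nil))) (.I .com (.c 42576872605845444027759439362436273929 (.c 48 .nil)) (.l 40 .nil))))) (.node (.node (.node (.I .com (.c 42576872605845441665422493413917717321 (.c 48 .nil)) (.l 40 .nil)) (.I .ass (.c 18753 (.c 33587273 (.c 8385 .nil))) .nil)) (.node (.I .com (.c 18753 (.c 33587273 .nil)) (.r 8385 .nil)) (.I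 .ass (.c 18753 (.c 169943113 (.c 8321 .nil))) .nil))) (.node (.node (.I .com (.c 18753 (.c 169943113 .nil)) (.r 8321 .nil)) (.I .ass (.c 18753 (.c 513 (.c 179513609 .nil))) .nil)) (.node (.I .com (.c 18753 (.c 513 .nil)) (.r 179513609 .nil)) (.I .jac (.c 8520195 (.c 16 (.c 24 .nil))) (.t 40 48 .nil)))))) (.node (.node (.node (.node (.I .jac (.c 0 (.c 8 (.c 16 .nil))) (.r 8385 (.l 18753 .nil))) (.I .adp (.c 0 (.c 8385 (.c 2113 .nil))) (.l 18753 .nil))) (.node (.I .jac (.c 0 (.c 8 (.c 24 .nil))) (.r 8321 (.l 18753 .nil))) (.I .adp (.c 0 (.c 8321 (.c 4673 .nil))) (.l 18753 .nil)))) (.node (.node (.I .jac (.c 8193 (.c 4673 (.c 16 .nil))) (.l 18753 .nil)) (.I .jac (.c 8193 (.c 8 (.c 16 .nil))) (.b 24 (.l 18753 .nil)))) (.node (.I .adp (.c 4609 (.c 16 (.c 8257 .nil))) (.l 18753 .nil)) (.I .adp (.c 2049 (.c 24 (.c 8257 .nil))) (.l 18753 .nil))))) (.node (.node (.node (.I .ass (.c 18753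 (.c 4609 (.c 545424521 .nil))) .nil) (.I .com (.c 18753 (.c 4609 .nil)) (.r 545424521 .nil))) (.node (.I .ass (.c 18753 (.c 2049 (.c 545424585 .nil))) .nil) (.I .com (.c 18753 (.c 2049 .nil)) (.r 545424585 .nil)))) (.node (.node (.I .ass (.c 18753 (.c 537002185 (.c 2113 .nil))) .nil) (.I .com (.c 18753 (.c 537002185 .nil)) (.r 2113 .nil))) (.node (.I .ass (.c 18753 (.c 537002121 (.c 4673 .nil))) .nil) (.I .com (.c 18753 (.c 537002121 .nil)) (.r 4673 .nil))))))))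

noncomputable def c2_417 : Tr := (.node (.node (.node (.node (.node (.node (.I .jac (.c 2803715 (.c 8 (.c 32 .nil))) (.t 40 48 .nil)) (.I .jac (.c 169943113 (.c 16 (.c 32 .nil))) (.l 18753 .nil))) (.node (.I .jac (.c 0 (.c 8 (.c 24 .nil))) (.b 8321 (.l 18753 .nil))) (.I .jac (.c 169943113 (.c 16 (.c 32 .nil))) (.l 48 (.l 40 .nil))))) (.node (.node (.I .jac (.c 0 (.c 8 (.c 24 .nil))) (.b 8321 (.b 40 (.l 48 .nil)))) (.I .adp (.c 513 (.c 24 (.c 8321 .nil))) (.l 18753 .nil))) (.node (.I .adp (.c 0 (.c 24 (.c 32 .nil))) (.b 2113 (.l 18753 .nil))) (.I .adp (.c 0 (.c 4673 (.c 8321 .nil))) (.l 18753 .nil))))) (.node (.node (.node (.I .jac (.c 0 (.c 16 (.c 32 .nil))) (.r 4673 (.l 18753 .nil))) (.I .adp (.c 0 (.c 24 (.c 8 .nil))) (.b 8321 (.l 18753 .nil)))) (.node (.I .adp (.c 0 (.c 24 (.c 16 .nil))) (.b 8257 (.l 18753 .nil))) (.I .jac (.c 33587273 (.c 24 (.c 32 .nil))) (.l 18753 .nil))))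 (.node (.node (.I .jac (.c 0 (.c 8 (.c 16 .nil))) (.b 8385 (.b 48 (.b 40 .nil)))) (.I .jac (.c 33587273 (.c 24 (.c 32 .nil))) (.l 48 (.l 40 .nil)))) (.node (.I .jac (.c 557571 (.c 24 (.c 32 .nil))) (.l 18753 .nil)) (.I .jac (.c 16 (.c 24 (.c 32 .nil))) (.l 513 (.l 18753 .nil))))))) (.node (.node (.node (.node (.I .adp (.c 513 (.c 16 (.c 8385 .nil))) (.l 18753 .nil)) (.I .jac (.c 513 (.c 24 (.c 32 .nil))) (.r 16 (.l 18753 .nil)))) (.node (.I .adp (.c 0 (.c 2113 (.c 8385 .nil))) (.l 18753 .nil)) (.I .jac (.c 0 (.c 24 (.c 32 .nil))) (.r 2113 (.l 18753 .nil))))) (.node (.node (.I .adp (.c 0 (.c 16 (.c 8 .nil))) (.b 8385 (.l 18753 .nil))) (.I .adp (.c 0 (.c 16 (.c 32 .nil))) (.b 4673 (.l 18753 .nil)))) (.node (.I .adp (.c 0 (.c 16 (.c 24 .nil))) (.b 8257 (.l 18753 .nil))) (.I .jac (.c 2049 (.c 24 (.c 32 .nil))) (.b 43954755 .nil))))) (.node (.node (.node (.I .jac (.c 2049 (.c 24 (.c 32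 .nil))) (.b 8 (.b 48 (.b 40 .nil)))) (.I .jac (.c 4609 (.c 16 (.c 32 .nil))) (.b 8 (.b 48 (.b 40 .nil))))) (.node (.I .jac (.c 8193 (.c 16 (.c 24 .nil))) (.b 8 (.b 48 (.b 40 .nil)))) (.I .jac (.c 2049 (.c 24 (.c 32 .nil))) (.b 8 (.b 40 (.b 48 .nil)))))) (.node (.node (.I .jac (.c 4609 (.c 16 (.c 32 .nil))) (.b 8 (.b 40 (.b 48 .nil)))) (.I .jac (.c 8193 (.c 16 (.c 24 .nil))) (.b 8 (.b 40 (.b 48 .nil))))) (.node (.I .jac (.c 2049 (.c 24 (.c 32 .nil))) (.b 8 (.b 40 (.l 48 .nil)))) (.I .jac (.c 4609 (.c 16 (.c 32 .nil))) (.b 8 (.b 40 (.l 48 .nil))))))))) (.node (.node (.node (.node (.node (.I .jac (.c 8193 (.c 16 (.c 24 .nil))) (.b 8 (.b 40 (.l 48 .nil)))) (.I .jac (.c 4609 (.c 8 (.c 32 .nil))) (.l 1337272713 .nil))) (.node (.I .com (.c 231045815314584265 (.c 1337272713 .nil)) .nil) (.I .jac (.c 8193 (.c 8 (.c 24 .nil))) (.l 1337272713 .nil)))) (.node (.node (.I .com (.c 2306970773558193865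 (.c 1337272713 .nil)) .nil) (.I .jac (.c 513 (.c 24 (.c 32 .nil))) (.l 48 (.l 12929 .nil)))) (.node (.I .com (.c 35468714087241 (.c 48 .nil)) (.l 12929 .nil)) (.I .com (.c 35466557976457 (.c 48 .nil)) (.l 12929 .nil))))) (.node (.node (.node (.I .jac (.c 4609 (.c 8 (.c 32 .nil))) (.l 48 (.l 12929 .nil))) (.I .com (.c 231045815314584265 (.c 48 .nil)) (.l 12929 .nil))) (.node (.I .com (.c 231045293249046409 (.c 48 .nil)) (.l 12929 .nil)) (.I .jac (.c 8193 (.c 8 (.c 24 .nil))) (.l 48 (.l 12929 .nil))))) (.node (.node (.I .com (.c 2306970773558193865 (.c 48 .nil)) (.l 12929 .nil)) (.I .com (.c 2306969673777850185 (.c 48 .nil)) (.l 12929 .nil))) (.node (.I .jac (.c 513 (.c 24 (.c 32 .nil))) (.l 40 (.l 18561 .nil))) (.I .com (.c 35468714087241 (.c 40 .nil)) (.l 18561 .nil)))))) (.node (.node (.node (.node (.I .com (.c 35466557976457 (.c 40 .nil)) (.l 18561 .nil)) (.I .jac (.c 4609 (.c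 8 (.c 32 .nil))) (.l 40 (.l 18561 .nil)))) (.node (.I .com (.c 231045815314584265 (.c 40 .nil)) (.l 18561 .nil)) (.I .com (.c 231045293249046409 (.c 40 .nil)) (.l 18561 .nil)))) (.node (.node (.I .jac (.c 8193 (.c 8 (.c 24 .nil))) (.l 40 (.l 18561 .nil))) (.I .com (.c 2306970773558193865 (.c 40 .nil)) (.l 18561 .nil))) (.node (.I .com (.c 2306969673777850185 (.c 40 .nil)) (.l 18561 .nil)) (.I .jac (.c 513 (.c 24 (.c 32 .nil))) (.b 16 (.l 18753 .nil)))))) (.node (.node (.node (.I .jac (.c 513 (.c 24 (.c 32 .nil))) (.b 16 (.b 48 (.b 40 .nil)))) (.I .jac (.c 513 (.c 16 (.c 32 .nil))) (.l 2775125321 .nil))) (.node (.I .com (.c 35468714087177 (.c 2775125321 .nil)) .nil) (.I .jac (.c 2049 (.c 8 (.c 32 .nil))) (.l 2775125321 .nil)))) (.node (.node (.I .com (.c 9024942441009865 (.c 2775125321 .nil)) .nil) (.I .jac (.c 8193 (.c 8 (.c 16 .nil))) (.l 2775125321 .nil))) (.node (.I .com (.c 2306970223667989193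 (.c 2775125321 .nil)) .nil) (.I .com (.c 2306969673777850121 (.c 2775125321 .nil)) .nil)))))))

noncomputable def c2_418 : Tr := (.node (.node (.node (.node (.node (.node (.I .jac (.c 513 (.c 16 (.c 32 .nil))) (.l 1350544777 .nil)) (.I .com (.c 35468714087177 (.c 1350544777 .nil)) .nil)) (.node (.I .jac (.c 2049 (.c 8 (.c 32 .nil))) (.l 1350544777 .nil)) (.I .com (.c 9024942441009865 (.c 1350544777 .nil)) .nil))) (.node (.node (.I .jac (.c 8193 (.c 8 (.c 16 .nil))) (.l 1350544777 .nil)) (.I .com (.c 2306970223667989193 (.c 1350544777 .nil)) .nil)) (.node (.I .com (.c 2306969673777850121 (.c 1350544777 .nil)) .nil) (.I .jac (.c 513 (.c 16 (.c 32 .nil))) (.l 43954883 .nil))))) (.node (.node (.node (.I .jac (.c 2049 (.c 8 (.c 32 .nil))) (.l 43954883 .nil)) (.I .jac (.c 8193 (.c 8 (.c 16 .nil))) (.l 43954883 .nil))) (.node (.I .jac (.c 513 (.c 16 (.c 32 .nil))) (.l 18753 (.l 24 .nil)))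 (.I .com (.c 35468714087177 (.c 18753 .nil)) (.l 24 .nil)))) (.node (.node (.I .com (.c 35464401931145 (.c 18753 .nil)) (.l 24 .nil)) (.I .jac (.c 2049 (.c 8 (.c 32 .nil))) (.l 18753 (.l 24 .nil)))) (.node (.I .com (.c 9024942441009865 (.c 18753 .nil)) (.l 24 .nil)) (.I .com (.c 9024839260612489 (.c 18753 .nil)) (.l 24 .nil)))))) (.node (.node (.node (.node (.I .jac (.c 8193 (.c 8 (.c 16 .nil))) (.l 18753 (.l 24 .nil))) (.I .com (.c 2306970223667989193 (.c 18753 .nil)) (.l 24 .nil))) (.node (.I .com (.c 2306969673777850121 (.c 18753 .nil)) (.l 24 .nil)) (.I .jac (.c 513 (.c 16 (.c 32 .nil))) (.l 48 (.l 12993 .nil))))) (.node (.node (.I .com (.c 35468714087177 (.c 48 .nil)) (.l 12993 .nil)) (.I .com (.c 35464401931145 (.c 48 .nil)) (.l 12993 .nil))) (.node (.I .jac (.c 2049 (.c 8 (.c 32 .nil))) (.l 48 (.l 12993 .nil))) (.I .com (.c 9024942441009865 (.c 48 .nil)) (.l 12993 .nil)))))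 (.node (.node (.node (.I .com (.c 9024839260612489 (.c 48 .nil)) (.l 12993 .nil)) (.I .jac (.c 8193 (.c 8 (.c 16 .nil))) (.l 48 (.l 12993 .nil)))) (.node (.I .com (.c 2306970223667989193 (.c 48 .nil)) (.l 12993 .nil)) (.I .com (.c 2306969673777850121 (.c 48 .nil)) (.l 12993 .nil)))) (.node (.node (.I .jac (.c 513 (.c 16 (.c 32 .nil))) (.l 40 (.l 18625 .nil))) (.I .com (.c 35468714087177 (.c 40 .nil)) (.l 18625 .nil))) (.node (.I .com (.c 35464401931145 (.c 40 .nil)) (.l 18625 .nil)) (.I .jac (.c 2049 (.c 8 (.c 32 .nil))) (.l 40 (.l 18625 .nil)))))))) (.node (.node (.node (.node (.node (.I .com (.c 9024942441009865 (.c 40 .nil)) (.l 18625 .nil)) (.I .com (.c 9024839260612489 (.c 40 .nil)) (.l 18625 .nil))) (.node (.I .jac (.c 8193 (.c 8 (.c 16 .nil))) (.l 40 (.l 18625 .nil))) (.I .com (.c 2306970223667989193 (.c 40 .nil)) (.l 18625 .nil)))) (.node (.node (.I .com (.c 2306969673777850121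 (.c 40 .nil)) (.l 18625 .nil)) (.I .jac (.c 513 (.c 16 (.c 24 .nil))) (.l 1363882377 .nil))) (.node (.I .com (.c 35466557976329 (.c 1363882377 .nil)) .nil) (.I .com (.c 35464401931081 (.c 1363882377 .nil)) .nil)))) (.node (.node (.node (.I .jac (.c 2049 (.c 8 (.c 24 .nil))) (.l 1363882377 .nil)) (.I .com (.c 9024908047478473 (.c 1363882377 .nil)) .nil)) (.node (.I .com (.c 9024839260612425 (.c 1363882377 .nil)) .nil) (.I .jac (.c 4609 (.c 8 (.c 16 .nil))) (.l 1363882377 .nil)))) (.node (.node (.I .com (.c 231045467270826697 (.c 1363882377 .nil)) .nil) (.I .com (.c 231045293249046281 (.c 1363882377 .nil)) .nil)) (.node (.I .jac (.c 513 (.c 16 (.c 24 .nil))) (.l 43954947 .nil)) (.I .jac (.c 2049 (.c 8 (.c 24 .nil))) (.l 43954947 .nil)))))) (.node (.node (.node (.node (.I .jac (.c 4609 (.c 8 (.c 16 .nil))) (.l 43954947 .nil)) (.I .jac (.c 513 (.c 16 (.c 24 .nil))) (.l 48 (.l 13057 .nil))))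 (.node (.I .com (.c 35466557976329 (.c 48 .nil)) (.l 13057 .nil)) (.I .com (.c 35464401931081 (.c 48 .nil)) (.l 13057 .nil)))) (.node (.node (.I .jac (.c 2049 (.c 8 (.c 24 .nil))) (.l 48 (.l 13057 .nil))) (.I .com (.c 9024908047478473 (.c 48 .nil)) (.l 13057 .nil))) (.node (.I .com (.c 9024839260612425 (.c 48 .nil)) (.l 13057 .nil)) (.I .jac (.c 4609 (.c 8 (.c 16 .nil))) (.l 48 (.l 13057 .nil)))))) (.node (.node (.node (.I .com (.c 231045467270826697 (.c 48 .nil)) (.l 13057 .nil)) (.I .com (.c 231045293249046281 (.c 48 .nil)) (.l 13057 .nil))) (.node (.I .tdb (.c 0 (.c 24 (.c 32 (.c 40 .nil)))) (.l 43059267 .nil)) (.I .com (.c 3632040653488393 (.c 43059267 .nil)) .nil))) (.node (.node (.I .com (.c 3632106110100553 (.c 43059267 .nil)) .nil) (.I .com (.c 15456298926182473 (.c 2803779 .nil)) .nil)) (.node (.I .tdb (.c 0 (.c 16 (.c 40 (.c 24 .nil)))) (.l 43655235 .nil)) (.I .com (.c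 3561346121425097 (.c 43655235 .nil)) .nil)))))))

noncomputable def c2_419 : Tr := (.node (.node (.node (.node (.node (.node (.I .com (.c 3561389332330569 (.c 43655235 .nil)) .nil) (.I .tdb (.c 0 (.c 8 (.c 24 (.c 40 .nil)))) (.l 43655299 .nil))) (.node (.I .com (.c 3561346121425033 (.c 43655299 .nil)) .nil) (.I .com (.c 3561367726845001 (.c 43655299 .nil)) .nil))) (.node (.node (.I .com (.c 617611520073929 (.c 43954755 .nil)) .nil) (.I .tdb (.c 16 (.c 32 (.c 24 (.c 40 .nil)))) (.r 42762755 .nil))) (.node (.I .tdb (.c 16 (.c 24 (.c 32 (.c 40 .nil)))) (.r 42762755 .nil)) (.I .ass (.c 8257 (.c 43059203 (.c 12993 .nil))) .nil)))) (.node (.node (.node (.I .ass (.c 43059203 (.c 8257 (.c 12993 .nil))) .nil) (.I .com (.c 8257 (.c 43059203 .nil)) (.r 12993 .nil))) (.node (.I .tdb (.c 8 (.c 32 (.c 24 (.c 40 .nil)))) (.r 43059203 .nil)) (.I .tdb (.c 0 (.c 48 (.c 32 (.c 40 .nil)))) (.l 2803779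 .nil)))) (.node (.node (.I .com (.c 3632040653488585 (.c 2803779 .nil)) .nil) (.I .com (.c 18433 (.c 494384790464217725687489547 .nil)) .nil)) (.node (.I .ass (.c 2113 (.c 21099011 (.c 18689 .nil))) .nil) (.I .ass (.c 21099011 (.c 2113 (.c 18689 .nil))) .nil))))) (.node (.node (.node (.node (.I .com (.c 2113 (.c 21099011 .nil)) (.r 18689 .nil)) (.I .com (.c 18561 (.c 12993 .nil)) (.l 8520195 .nil))) (.node (.I .ass (.c 43059203 (.c 12865 (.c 8385 .nil))) .nil) (.I .ass (.c 21099011 (.c 18497 (.c 8321 .nil))) .nil))) (.node (.node (.I .ass (.c 18433 (.c 12993 (.c 8652867 .nil))) .nil) (.I .ass (.c 12801 (.c 18561 (.c 8786499 .nil))) .nil)) (.node (.I .ass (.c 18433 (.c 12929 (.c 8786499 .nil))) .nil) (.I .ass (.c 4673 (.c 43655171 (.c 12929 .nil))) .nil)))) (.node (.node (.node (.I .ass (.c 43655171 (.c 4673 (.c 12929 .nil))) .nil) (.I .com (.c 4673 (.c 43655171 .nil)) (.r 12929 .nil)))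 (.node (.I .ass (.c 4673 (.c 21307395 (.c 18561 .nil))) .nil) (.I .ass (.c 21307395 (.c 4673 (.c 18561 .nil))) .nil))) (.node (.node (.I .com (.c 4673 (.c 21307395 .nil)) (.r 18561 .nil)) (.I .com (.c 12929 (.c 18689 .nil)) (.l 2728451 .nil))) (.node (.I .ass (.c 43655171 (.c 12865 (.c 4737 .nil))) .nil) (.I .ass (.c 21307395 (.c 18497 (.c 4737 .nil))) .nil)))))) (.node (.node (.node (.node (.node (.I .ass (.c 12801 (.c 18689 (.c 2803779 .nil))) .nil) (.I .tdb (.c 0 (.c 16 (.c 32 (.c 24 .nil)))) (.l 43954755 .nil))) (.node (.I .com (.c 617629514823753 (.c 43954755 .nil)) .nil) (.I .tdb (.c 0 (.c 8 (.c 24 (.c 32 .nil)))) (.l 43954819 .nil)))) (.node (.node (.I .com (.c 617611520073865 (.c 43954819 .nil)) .nil) (.I .com (.c 617620517416009 (.c 43954819 .nil)) .nil)) (.node (.I .ass (.c 4737 (.c 8520195 (.c 18753 .nil))) .nil) (.I .ass (.c 8520195 (.c 4737 (.c 18753 .nil))) .nil))))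 (.node (.node (.node (.I .com (.c 4737 (.c 8520195 .nil)) (.r 18753 .nil)) (.I .ass (.c 12865 (.c 43059203 (.c 8385 .nil))) .nil)) (.node (.I .com (.c 12865 (.c 43059203 .nil)) (.r 8385 .nil)) (.I .tdb (.c 8 (.c 40 (.c 24 (.c 32 .nil)))) (.r 43059203 .nil)))) (.node (.node (.I .ass (.c 8520195 (.c 18561 (.c 12993 .nil))) .nil) (.I .com (.c 18497 (.c 8321 .nil)) (.l 21099011 .nil))) (.node (.I .ass (.c 8193 (.c 18497 (.c 21099139 .nil))) .nil) (.I .ass (.c 2113 (.c 43954691 (.c 8385 .nil))) .nil))))) (.node (.node (.node (.node (.I .ass (.c 43954691 (.c 2113 (.c 8385 .nil))) .nil) (.I .com (.c 2113 (.c 43954691 .nil)) (.r 8385 .nil))) (.node (.I .tdb (.c 8 (.c 16 (.c 32 (.c 24 .nil)))) (.r 43954691 .nil)) (.I .ass (.c 43954691 (.c 8257 (.c 4737 .nil))) .nil))) (.node (.node (.I .ass (.c 8193 (.c 18753 (.c 2803779 .nil))) .nil) (.I .ass (.c 12929 (.c 2728451 (.c 18689 .nil))) .nil))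 (.node (.I .ass (.c 2728451 (.c 12929 (.c 18689 .nil))) .nil) (.I .com (.c 12929 (.c 2728451 .nil)) (.r 18689 .nil))))) (.node (.node (.node (.I .ass (.c 8321 (.c 2728451 (.c 18753 .nil))) .nil) (.I .ass (.c 2728451 (.c 8321 (.c 18753 .nil))) .nil)) (.node (.I .com (.c 8321 (.c 2728451 .nil)) (.r 18753 .nil)) (.I .ass (.c 12865 (.c 43655171 (.c 4737 .nil))) .nil))) (.node (.node (.I .com (.c 12865 (.c 43655171 .nil)) (.r 4737 .nil)) (.I .com (.c 4673 (.c 18561 .nil)) (.l 21307395 .nil))) (.node (.I .com (.c 18497 (.c 4737 .nil)) (.l 21307395 .nil)) (.I .ass (.c 18433 (.c 4673 (.c 21307523 .nil))) .nil)))))))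

noncomputable def c2_420 : Tr := (.node (.node (.node (.node (.node (.node (.I .ass (.c 4609 (.c 18497 (.c 21307523 .nil))) .nil) (.I .ass (.c 8257 (.c 43954691 (.c 4737 .nil))) .nil)) (.node (.I .com (.c 8257 (.c 43954691 .nil)) (.r 4737 .nil)) (.I .ass (.c 4609 (.c 18753 (.c 8652867 .nil))) .nil))) (.node (.node (.I .ass (.c 18433 (.c 2113 (.c 21307587 .nil))) .nil) (.I .ass (.c 12993 (.c 43059203 (.c 8257 .nil))) .nil)) (.node (.I .ass (.c 43059203 (.c 12993 (.c 8257 .nil))) .nil) (.I .com (.c 12993 (.c 43059203 .nil)) (.r 8257 .nil))))) (.node (.node (.node (.I .com (.c 8257 (.c 12993 .nil)) (.l 43059203 .nil)) (.I .ass (.c 8385 (.c 43059203 (.c 12865 .nil))) .nil)) (.node (.I .ass (.c 43059203 (.c 8385 (.c 12865 .nil))) .nil) (.I .com (.c 8385 (.c 43059203 .nil)) (.r 12865 .nil)))) (.node (.node (.I .com (.c 12865 (.c 8385 .nil)) (.l 43059203 .nil)) (.I .ass (.c 12929 (.c 43655171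 (.c 4673 .nil))) .nil)) (.node (.I .ass (.c 43655171 (.c 12929 (.c 4673 .nil))) .nil) (.I .com (.c 12929 (.c 43655171 .nil)) (.r 4673 .nil)))))) (.node (.node (.node (.node (.I .com (.c 4673 (.c 12929 .nil)) (.l 43655171 .nil)) (.I .ass (.c 4737 (.c 43655171 (.c 12865 .nil))) .nil)) (.node (.I .ass (.c 43655171 (.c 4737 (.c 12865 .nil))) .nil) (.I .com (.c 4737 (.c 43655171 .nil)) (.r 12865 .nil)))) (.node (.node (.I .com (.c 12865 (.c 4737 .nil)) (.l 43655171 .nil)) (.I .ass (.c 513 (.c 18561 (.c 21307587 .nil))) .nil)) (.node (.I .ass (.c 513 (.c 18689 (.c 21099139 .nil))) .nil) (.I .ass (.c 4737 (.c 43954691 (.c 8257 .nil))) .nil)))) (.node (.node (.node (.I .ass (.c 43954691 (.c 4737 (.c 8257 .nil))) .nil) (.I .com (.c 4737 (.c 43954691 .nil)) (.r 8257 .nil))) (.node (.I .com (.c 8257 (.c 4737 .nil)) (.l 43954691 .nil)) (.I .ass (.c 12993 (.c 8193 (.c 43059267 .nil))) .nil)))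 (.node (.node (.I .ass (.c 8193 (.c 12993 (.c 43059267 .nil))) .nil) (.I .com (.c 12993 (.c 8193 .nil)) (.r 43059267 .nil))) (.node (.I .ass (.c 8385 (.c 12801 (.c 43059267 .nil))) .nil) (.I .ass (.c 12801 (.c 8385 (.c 43059267 .nil))) .nil)))))) (.node (.node (.node (.node (.node (.I .com (.c 8385 (.c 12801 .nil)) (.r 43059267 .nil)) (.I .ass (.c 12929 (.c 8193 (.c 43356739 .nil))) .nil)) (.node (.I .ass (.c 8193 (.c 12929 (.c 43356739 .nil))) .nil) (.I .com (.c 12929 (.c 8193 .nil)) (.r 43356739 .nil)))) (.node (.node (.I .ass (.c 8321 (.c 12801 (.c 43356739 .nil))) .nil) (.I .ass (.c 12801 (.c 8321 (.c 43356739 .nil))) .nil)) (.node (.I .com (.c 8321 (.c 12801 .nil)) (.r 43356739 .nil)) (.I .ass (.c 12865 (.c 8193 (.c 43356803 .nil))) .nil)))) (.node (.node (.node (.I .ass (.c 8193 (.c 12865 (.c 43356803 .nil))) .nil) (.I .com (.c 12865 (.c 8193 .nil)) (.r 43356803 .nil))) (.node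 (.I .ass (.c 8257 (.c 12801 (.c 43356803 .nil))) .nil) (.I .ass (.c 12801 (.c 8257 (.c 43356803 .nil))) .nil))) (.node (.node (.I .com (.c 8257 (.c 12801 .nil)) (.r 43356803 .nil)) (.I .ass (.c 12929 (.c 4609 (.c 43655235 .nil))) .nil)) (.node (.I .ass (.c 4609 (.c 12929 (.c 43655235 .nil))) .nil) (.I .com (.c 12929 (.c 4609 .nil)) (.r 43655235 .nil)))))) (.node (.node (.node (.node (.I .ass (.c 4673 (.c 12801 (.c 43655299 .nil))) .nil) (.I .ass (.c 12801 (.c 4673 (.c 43655299 .nil))) .nil)) (.node (.I .com (.c 4673 (.c 12801 .nil)) (.r 43655299 .nil)) (.I .ass (.c 12865 (.c 2049 (.c 43655363 .nil))) .nil))) (.node (.node (.I .ass (.c 2049 (.c 12865 (.c 43655363 .nil))) .nil) (.I .com (.c 12865 (.c 2049 .nil)) (.r 43655363 .nil))) (.node (.I .ass (.c 4737 (.c 8193 (.c 43954755 .nil))) .nil) (.I .ass (.c 8193 (.c 4737 (.c 43954755 .nil))) .nil)))) (.node (.node (.node (.I .com (.c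 4737 (.c 8193 .nil)) (.r 43954755 .nil)) (.I .ass (.c 8257 (.c 2049 (.c 43954883 .nil))) .nil)) (.node (.I .ass (.c 2049 (.c 8257 (.c 43954883 .nil))) .nil) (.I .com (.c 8257 (.c 2049 .nil)) (.r 43954883 .nil)))) (.node (.node (.I .ass (.c 2113 (.c 4609 (.c 43954947 .nil))) .nil) (.I .ass (.c 4609 (.c 2113 (.c 43954947 .nil))) .nil)) (.node (.I .com (.c 2113 (.c 4609 .nil)) (.r 43954947 .nil)) (.I .jac (.c 0 (.c 24 (.c 48 .nil))) (.b 21307459 (.l 16 .nil)))))))))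

noncomputable def c2_421 : Tr := (.node (.node (.node (.node (.node (.node (.I .jac (.c 0 (.c 16 (.c 40 .nil))) (.b 43655235 (.b 24 .nil))) (.I .jac (.c 0 (.c 16 (.c 48 .nil))) (.b 21099075 (.l 32 .nil)))) (.node (.I .com (.c 2728451 (.c 18689 .nil)) (.l 12929 .nil)) (.I .com (.c 2728451 (.c 18753 .nil)) (.l 8321 .nil)))) (.node (.node (.I .com (.c 8520195 (.c 18753 .nil)) (.l 4737 .nil)) (.I .tdb (.c 40 (.c 48 (.c 24 (.c 32 .nil)))) (.r 557571 .nil))) (.node (.I .com (.c 8520195 (.c 12993 .nil)) (.l 18561 .nil)) (.I .ass (.c 18561 (.c 8520195 (.c 12993 .nil))) .nil)))) (.node (.node (.node (.I .com (.c 18561 (.c 8520195 .nil)) (.r 12993 .nil)) (.I .com (.c 557571 (.c 18753 .nil)) (.t 24 32 .nil))) (.node (.I .tdp (.c 557571 (.c 18753 (.c 24 (.c 32 .nil)))) .nil) (.I .tdb (.c 16 (.c 48 (.c 32 (.c 40 .nil)))) (.r 2728451 .nil)))) (.node (.node (.I .tdp (.c 20891651 (.c 18497 (.c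 24 (.c 32 .nil)))) .nil) (.I .tdb (.c 8 (.c 48 (.c 24 (.c 32 .nil)))) (.r 20891651 .nil))) (.node (.I .ass (.c 8321 (.c 21099011 (.c 18497 .nil))) .nil) (.I .ass (.c 21099011 (.c 8321 (.c 18497 .nil))) .nil))))) (.node (.node (.node (.node (.I .com (.c 8321 (.c 21099011 .nil)) (.r 18497 .nil)) (.I .tdp (.c 43059203 (.c 12865 (.c 24 (.c 32 .nil)))) .nil)) (.node (.I .tdb (.c 48 (.c 12865 (.c 16 (.c 24 .nil)))) (.t 0 32 .nil)) (.I .tdb (.c 8 (.c 40 (.c 16 (.c 24 .nil)))) (.b 48 (.t 0 32 .nil))))) (.node (.node (.I .ass (.c 4737 (.c 21307395 (.c 18497 .nil))) .nil) (.I .ass (.c 21307395 (.c 4737 (.c 18497 .nil))) .nil)) (.node (.I .com (.c 4737 (.c 21307395 .nil)) (.r 18497 .nil)) (.I .tdb (.c 48 (.c 12801 (.c 8 (.c 24 .nil)))) (.t 16 32 .nil))))) (.node (.node (.node (.I .tdb (.c 0 (.c 40 (.c 8 (.c 24 .nil)))) (.b 48 (.t 16 32 .nil))) (.I .tdb (.c 40 (.c 18433 (.c 16 (.c 24 .nil))))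 (.t 8 32 .nil))) (.node (.I .tdb (.c 40 (.c 18433 (.c 8 (.c 32 .nil)))) (.t 16 24 .nil)) (.I .tdb (.c 40 (.c 18433 (.c 16 (.c 32 .nil)))) (.t 8 24 .nil)))) (.node (.node (.I .tdb (.c 48 (.c 12801 (.c 16 (.c 32 .nil)))) (.t 8 24 .nil)) (.I .tdb (.c 0 (.c 40 (.c 16 (.c 32 .nil)))) (.b 48 (.t 8 24 .nil)))) (.node (.I .ass (.c 4673 (.c 18433 (.c 21307523 .nil))) .nil) (.I .com (.c 4673 (.c 18433 .nil)) (.r 21307523 .nil))))))) (.node (.node (.node (.node (.node (.I .tdb (.c 40 (.c 18433 (.c 24 (.c 32 .nil)))) (.t 8 16 .nil)) (.I .ass (.c 2113 (.c 18433 (.c 21307587 .nil))) .nil)) (.node (.I .com (.c 2113 (.c 18433 .nil)) (.r 21307587 .nil)) (.I .tdb (.c 0 (.c 24 (.c 40 (.c 8 .nil)))) (.b 48 (.t 16 32 .nil))))) (.node (.node (.I .tdb (.c 0 (.c 24 (.c 40 (.c 48 .nil)))) (.b 16 (.t 8 32 .nil))) (.I .tdb (.c 0 (.c 16 (.c 40 (.c 48 .nil)))) (.b 8 (.t 24 32 .nil)))) (.node (.I .tdb (.c 0 (.c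 8 (.c 16 (.c 48 .nil)))) (.b 40 (.t 24 32 .nil))) (.I .tdb (.c 0 (.c 8 (.c 40 (.c 48 .nil)))) (.b 16 (.t 24 32 .nil)))))) (.node (.node (.node (.I .tdb (.c 0 (.c 16 (.c 48 (.c 24 .nil)))) (.b 40 (.t 8 32 .nil))) (.I .tdb (.c 0 (.c 16 (.c 40 (.c 48 .nil)))) (.b 24 (.t 8 32 .nil)))) (.node (.I .tdb (.c 8 (.c 32 (.c 16 (.c 40 .nil)))) (.b 48 (.t 0 24 .nil))) (.I .tdb (.c 8 (.c 32 (.c 16 (.c 48 .nil)))) (.b 40 (.t 0 24 .nil))))) (.node (.node (.I .tdb (.c 8 (.c 32 (.c 40 (.c 48 .nil)))) (.b 16 (.t 0 24 .nil))) (.I .tdb (.c 0 (.c 32 (.c 8 (.c 40 .nil)))) (.b 48 (.t 16 24 .nil)))) (.node (.I .tdb (.c 0 (.c 32 (.c 40 (.c 48 .nil)))) (.b 8 (.t 16 24 .nil))) (.I .tdb (.c 0 (.c 32 (.c 16 (.c 48 .nil)))) (.b 40 (.t 8 24 .nil))))))) (.node (.node (.node (.node (.I .tdb (.c 0 (.c 32 (.c 40 (.c 48 .nil)))) (.b 16 (.t 8 24 .nil))) (.I .tdb (.c 0 (.c 8 (.c 32 (.c 40 .nil)))) (.b 48 (.t 16 24 .nil))))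 (.node (.I .tdb (.c 0 (.c 8 (.c 40 (.c 48 .nil)))) (.b 32 (.t 16 24 .nil))) (.I .tdb (.c 0 (.c 16 (.c 40 (.c 48 .nil)))) (.b 32 (.t 8 24 .nil))))) (.node (.node (.I .tdb (.c 8 (.c 16 (.c 32 (.c 40 .nil)))) (.b 48 (.t 0 24 .nil))) (.I .tdb (.c 8 (.c 16 (.c 32 (.c 48 .nil)))) (.b 40 (.t 0 24 .nil)))) (.node (.I .tdb (.c 8 (.c 16 (.c 40 (.c 48 .nil)))) (.b 32 (.t 0 24 .nil))) (.I .tdb (.c 0 (.c 32 (.c 24 (.c 48 .nil)))) (.b 40 (.t 8 16 .nil)))))) (.node (.node (.node (.I .tdb (.c 0 (.c 32 (.c 40 (.c 48 .nil)))) (.b 24 (.t 8 16 .nil))) (.I .tdb (.c 0 (.c 24 (.c 32 (.c 48 .nil)))) (.b 40 (.t 8 16 .nil)))) (.node (.I .tdb (.c 0 (.c 24 (.c 40 (.c 48 .nil)))) (.b 32 (.t 8 16 .nil))) (.I .com (.c 21099011 (.c 18689 .nil)) (.l 2113 .nil)))) (.node (.node (.I .ass (.c 12993 (.c 8520195 (.c 18561 .nil))) .nil) (.I .ass (.c 8520195 (.c 12993 (.c 18561 .nil))) .nil)) (.node (.I .com (.c 12993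 (.c 8520195 .nil)) (.r 18561 .nil)) (.I .tdp (.c 42762755 (.c 8321 (.c 24 (.c 40 .nil)))) .nil)))))))

noncomputable def c2_422 : Tr := (.node (.node (.node (.node (.node (.node (.I .com (.c 21099011 (.c 8321 .nil)) (.l 18497 .nil)) (.I .ass (.c 18497 (.c 21099011 (.c 8321 .nil))) .nil)) (.node (.I .com (.c 18497 (.c 21099011 .nil)) (.r 8321 .nil)) (.I .tdp (.c 43059203 (.c 8257 (.c 24 (.c 40 .nil)))) .nil))) (.node (.node (.I .tdb (.c 48 (.c 8257 (.c 16 (.c 40 .nil)))) (.t 0 24 .nil)) (.I .tdb (.c 32 (.c 18433 (.c 8 (.c 24 .nil)))) (.t 16 40 .nil))) (.node (.I .tdb (.c 48 (.c 8193 (.c 8 (.c 16 .nil)))) (.t 24 40 .nil)) (.I .tdb (.c 0 (.c 32 (.c 8 (.c 16 .nil)))) (.b 48 (.t 24 40 .nil)))))) (.node (.node (.node (.I .tdb (.c 48 (.c 8193 (.c 8 (.c 24 .nil)))) (.t 16 40 .nil)) (.I .tdb (.c 0 (.c 32 (.c 8 (.c 24 .nil)))) (.b 48 (.t 16 40 .nil)))) (.node (.I .ass (.c 12993 (.c 18433 (.c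 8652867 .nil))) .nil) (.I .com (.c 12993 (.c 18433 .nil)) (.r 8652867 .nil)))) (.node (.node (.I .ass (.c 12929 (.c 18433 (.c 8786499 .nil))) .nil) (.I .com (.c 12929 (.c 18433 .nil)) (.r 8786499 .nil))) (.node (.I .tdb (.c 32 (.c 18433 (.c 16 (.c 24 .nil)))) (.t 8 40 .nil)) (.I .tdb (.c 48 (.c 8193 (.c 16 (.c 24 .nil)))) (.t 8 40 .nil)))))) (.node (.node (.node (.node (.I .tdb (.c 0 (.c 32 (.c 16 (.c 24 .nil)))) (.b 48 (.t 8 40 .nil))) (.I .tdb (.c 32 (.c 18433 (.c 8 (.c 40 .nil)))) (.t 16 24 .nil))) (.node (.I .tdb (.c 48 (.c 8193 (.c 8 (.c 40 .nil)))) (.t 16 24 .nil)) (.I .tdb (.c 32 (.c 18433 (.c 16 (.c 40 .nil)))) (.t 8 24 .nil)))) (.node (.node (.I .tdb (.c 32 (.c 18433 (.c 24 (.c 40 .nil)))) (.t 8 16 .nil)) (.I .tdb (.c 0 (.c 24 (.c 32 (.c 8 .nil)))) (.b 48 (.t 16 40 .nil)))) (.node (.I .tdb (.c 0 (.c 16 (.c 32 (.c 8 .nil)))) (.b 48 (.t 24 40 .nil))) (.I .tdb (.c 0 (.c 16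 (.c 48 (.c 8 .nil)))) (.b 32 (.t 24 40 .nil)))))) (.node (.node (.node (.I .tdb (.c 0 (.c 8 (.c 16 (.c 32 .nil)))) (.b 48 (.t 24 40 .nil))) (.I .tdb (.c 0 (.c 8 (.c 16 (.c 48 .nil)))) (.b 32 (.t 24 40 .nil)))) (.node (.I .tdb (.c 0 (.c 8 (.c 32 (.c 48 .nil)))) (.b 16 (.t 24 40 .nil))) (.I .tdb (.c 0 (.c 8 (.c 24 (.c 48 .nil)))) (.b 32 (.t 16 40 .nil))))) (.node (.node (.I .tdb (.c 0 (.c 16 (.c 32 (.c 24 .nil)))) (.b 48 (.t 8 40 .nil))) (.I .tdb (.c 0 (.c 16 (.c 32 (.c 48 .nil)))) (.b 24 (.t 8 40 .nil)))) (.node (.I .tdp (.c 2728451 (.c 18561 (.c 32 (.c 40 .nil)))) .nil) (.I .com (.c 21307395 (.c 18561 .nil)) (.l 4673 .nil))))))) (.node (.node (.node (.node (.node (.I .tdp (.c 42762755 (.c 4737 (.c 32 (.c 40 .nil)))) .nil) (.I .com (.c 21307395 (.c 4737 .nil)) (.l 18497 .nil))) (.node (.I .ass (.c 18497 (.c 21307395 (.c 4737 .nil))) .nil) (.I .com (.c 18497 (.c 21307395 .nil)) (.r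 4737 .nil)))) (.node (.node (.I .tdb (.c 24 (.c 18433 (.c 8 (.c 32 .nil)))) (.t 16 40 .nil)) (.I .tdb (.c 4609 (.c 48 (.c 8 (.c 16 .nil)))) (.t 32 40 .nil))) (.node (.I .tdb (.c 0 (.c 24 (.c 8 (.c 16 .nil)))) (.b 48 (.t 32 40 .nil))) (.I .tdb (.c 4609 (.c 48 (.c 8 (.c 32 .nil)))) (.t 16 40 .nil))))) (.node (.node (.node (.I .tdp (.c 18433 (.c 2803779 (.c 32 (.c 40 .nil)))) .nil) (.I .tdb (.c 0 (.c 24 (.c 48 (.c 16 .nil)))) (.b 8 (.t 32 40 .nil)))) (.node (.I .tdp (.c 4609 (.c 43059267 (.c 32 (.c 40 .nil)))) .nil) (.I .com (.c 4609 (.c 27501508558623012971529606194187 .nil)) .nil))) (.node (.node (.I .tdb (.c 24 (.c 18433 (.c 16 (.c 32 .nil)))) (.t 8 40 .nil)) (.I .tdb (.c 4609 (.c 48 (.c 8 (.c 40 .nil)))) (.t 16 32 .nil))) (.node (.I .tdb (.c 24 (.c 18433 (.c 32 (.c 40 .nil)))) (.t 8 16 .nil)) (.I .tdb (.c 0 (.c 16 (.c 8 (.c 24 .nil)))) (.b 48 (.t 32 40 .nil))))))) (.node (.node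 (.node (.node (.I .tdb (.c 0 (.c 8 (.c 16 (.c 24 .nil)))) (.b 48 (.t 32 40 .nil))) (.I .tdb (.c 0 (.c 8 (.c 16 (.c 48 .nil)))) (.b 24 (.t 32 40 .nil)))) (.node (.I .com (.c 2728451 (.c 18561 .nil)) (.t 32 40 .nil)) (.I .com (.c 8520195 (.c 18561 .nil)) (.l 12993 .nil)))) (.node (.node (.I .tdp (.c 43954691 (.c 2113 (.c 24 (.c 32 .nil)))) .nil) (.I .ass (.c 8385 (.c 43954691 (.c 2113 .nil))) .nil)) (.node (.I .ass (.c 43954691 (.c 8385 (.c 2113 .nil))) .nil) (.I .com (.c 8385 (.c 43954691 .nil)) (.r 2113 .nil))))) (.node (.node (.node (.I .com (.c 2113 (.c 8385 .nil)) (.l 43954691 .nil)) (.I .tdb (.c 2113 (.c 48 (.c 32 (.c 40 .nil)))) (.t 0 24 .nil))) (.node (.I .tdb (.c 2049 (.c 48 (.c 8 (.c 24 .nil)))) (.t 32 40 .nil)) (.I .tdb (.c 2049 (.c 48 (.c 8 (.c 32 .nil)))) (.t 24 40 .nil)))) (.node (.node (.I .tdp (.c 2049 (.c 43655235 (.c 24 (.c 40 .nil)))) .nil) (.I .com (.c 2049 (.c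 29055965329249606391974117761995 .nil)) .nil)) (.node (.I .ass (.c 12993 (.c 2049 (.c 43655235 .nil))) .nil) (.I .ass (.c 2049 (.c 12993 (.c 43655235 .nil))) .nil)))))))

noncomputable def c2_423 : Tr := (.node (.node (.node (.node (.node (.node (.I .com (.c 12993 (.c 2049 .nil)) (.r 43655235 .nil)) (.I .tdb (.c 2049 (.c 48 (.c 24 (.c 32 .nil)))) (.t 8 40 .nil))) (.node (.I .tdp (.c 2049 (.c 43954755 (.c 24 (.c 32 .nil)))) .nil) (.I .com (.c 2049 (.c 29861625300903855411901044346187 .nil)) .nil))) (.node (.node (.I .ass (.c 8385 (.c 2049 (.c 43954755 .nil))) .nil) (.I .ass (.c 2049 (.c 8385 (.c 43954755 .nil))) .nil)) (.node (.I .com (.c 8385 (.c 2049 .nil)) (.r 43954755 .nil)) (.I .tdb (.c 16 (.c 18433 (.c 24 (.c 40 .nil)))) (.t 8 32 .nil))))) (.node (.node (.node (.I .tdb (.c 8 (.c 18433 (.c 16 (.c 24 .nil)))) (.t 32 40 .nil)) (.I .tdb (.c 8 (.c 18433 (.c 16 (.c 32 .nil)))) (.t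 24 40 .nil))) (.node (.I .tdb (.c 513 (.c 48 (.c 16 (.c 24 .nil)))) (.t 32 40 .nil)) (.I .tdb (.c 513 (.c 48 (.c 16 (.c 32 .nil)))) (.t 24 40 .nil)))) (.node (.node (.I .tdp (.c 513 (.c 43655299 (.c 24 (.c 40 .nil)))) .nil) (.I .com (.c 513 (.c 29056135717600088285057506180043 .nil)) .nil)) (.node (.I .ass (.c 12993 (.c 513 (.c 43655299 .nil))) .nil) (.I .ass (.c 513 (.c 12993 (.c 43655299 .nil))) .nil))))) (.node (.node (.node (.node (.I .com (.c 12993 (.c 513 .nil)) (.r 43655299 .nil)) (.I .tdb (.c 8 (.c 18433 (.c 24 (.c 32 .nil)))) (.t 16 40 .nil))) (.node (.I .ass (.c 12929 (.c 513 (.c 43655363 .nil))) .nil) (.I .ass (.c 513 (.c 12929 (.c 43655363 .nil))) .nil))) (.node (.node (.I .com (.c 12929 (.c 513 .nil)) (.r 43655363 .nil)) (.I .tdp (.c 513 (.c 43954819 (.c 24 (.c 32 .nil)))) .nil)) (.node (.I .com (.c 513 (.c 29861799220489422234331306566987 .nil)) .nil) (.I .com (.c 20891651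 (.c 18497 .nil)) (.t 24 32 .nil))))) (.node (.node (.node (.I .ass (.c 8321 (.c 513 (.c 43954883 .nil))) .nil) (.I .ass (.c 513 (.c 8321 (.c 43954883 .nil))) .nil)) (.node (.I .com (.c 8321 (.c 513 .nil)) (.r 43954883 .nil)) (.I .com (.c 21099011 (.c 18497 .nil)) (.l 8321 .nil)))) (.node (.node (.I .tdb (.c 8 (.c 18433 (.c 32 (.c 40 .nil)))) (.t 16 24 .nil)) (.I .tdb (.c 513 (.c 48 (.c 32 (.c 40 .nil)))) (.t 16 24 .nil))) (.node (.I .ass (.c 4737 (.c 513 (.c 43954947 .nil))) .nil) (.I .ass (.c 513 (.c 4737 (.c 43954947 .nil))) .nil)))))) (.node (.node (.node (.node (.node (.I .com (.c 4737 (.c 513 .nil)) (.r 43954947 .nil)) (.I .com (.c 21307395 (.c 18497 .nil)) (.l 4737 .nil))) (.node (.I .tdb (.c 8 (.c 16 (.c 32 (.c 40 .nil)))) (.t 24 18433 .nil)) (.I .tdb (.c 8 (.c 24 (.c 32 (.c 40 .nil)))) (.t 16 18433 .nil)))) (.node (.node (.I .tdb (.c 0 (.c 48 (.c 16 (.c 40 .nil)))) (.t 4673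 32 .nil)) (.I .tdb (.c 0 (.c 48 (.c 24 (.c 40 .nil)))) (.t 2113 32 .nil))) (.node (.I .com (.c 43059203 (.c 12993 .nil)) (.l 8257 .nil)) (.I .com (.c 43059203 (.c 8385 .nil)) (.l 12865 .nil))))) (.node (.node (.node (.I .tdb (.c 40 (.c 8257 (.c 0 (.c 16 .nil)))) (.t 24 48 .nil)) (.I .tdb (.c 8 (.c 32 (.c 0 (.c 16 .nil)))) (.b 40 (.t 24 48 .nil)))) (.node (.I .tdb (.c 32 (.c 12801 (.c 8 (.c 24 .nil)))) (.t 16 48 .nil)) (.I .tdb (.c 40 (.c 8193 (.c 8 (.c 16 .nil)))) (.t 24 48 .nil)))) (.node (.node (.I .tdb (.c 0 (.c 32 (.c 8 (.c 16 .nil)))) (.b 40 (.t 24 48 .nil))) (.I .tdb (.c 40 (.c 8193 (.c 8 (.c 24 .nil)))) (.t 16 48 .nil))) (.node (.I .tdb (.c 0 (.c 32 (.c 8 (.c 24 .nil)))) (.b 40 (.t 16 48 .nil))) (.I .ass (.c 18561 (.c 12801 (.c 8786499 .nil))) .nil))))) (.node (.node (.node (.node (.I .com (.c 18561 (.c 12801 .nil)) (.r 8786499 .nil)) (.I .ass (.c 18497 (.c 8193 (.c 21099139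 .nil))) .nil)) (.node (.I .com (.c 18497 (.c 8193 .nil)) (.r 21099139 .nil)) (.I .tdb (.c 0 (.c 24 (.c 32 (.c 8 .nil)))) (.b 40 (.t 16 48 .nil))))) (.node (.node (.I .tdb (.c 0 (.c 24 (.c 32 (.c 40 .nil)))) (.b 8 (.t 16 48 .nil))) (.I .tdb (.c 0 (.c 24 (.c 32 (.c 16 .nil)))) (.b 40 (.t 8 48 .nil)))) (.node (.I .tdb (.c 0 (.c 24 (.c 40 (.c 16 .nil)))) (.b 32 (.t 8 48 .nil))) (.I .tdb (.c 0 (.c 24 (.c 32 (.c 40 .nil)))) (.b 16 (.t 8 48 .nil)))))) (.node (.node (.node (.I .tdb (.c 0 (.c 16 (.c 32 (.c 8 .nil)))) (.b 40 (.t 24 48 .nil))) (.I .tdb (.c 0 (.c 8 (.c 16 (.c 32 .nil)))) (.b 40 (.t 24 48 .nil)))) (.node (.I .tdb (.c 0 (.c 8 (.c 24 (.c 32 .nil)))) (.b 40 (.t 16 48 .nil))) (.I .tdb (.c 0 (.c 8 (.c 32 (.c 40 .nil)))) (.b 24 (.t 16 48 .nil))))) (.node (.node (.I .tdb (.c 0 (.c 16 (.c 32 (.c 24 .nil)))) (.b 40 (.t 8 48 .nil))) (.I .tdb (.c 0 (.c 16 (.c 32 (.c 40 .nil)))) (.b 24 (.t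 8 48 .nil)))) (.node (.I .ass (.c 18689 (.c 2728451 (.c 12929 .nil))) .nil) (.I .ass (.c 2728451 (.c 18689 (.c 12929 .nil))) .nil)))))))

noncomputable def c2_424 : Tr := (.node (.node (.node (.node (.node (.node (.I .com (.c 18689 (.c 2728451 .nil)) (.r 12929 .nil)) (.I .com (.c 43655171 (.c 12929 .nil)) (.l 4673 .nil))) (.node (.I .com (.c 43655171 (.c 4737 .nil)) (.l 12865 .nil)) (.I .ass (.c 18561 (.c 21307395 (.c 4673 .nil))) .nil))) (.node (.node (.I .ass (.c 21307395 (.c 18561 (.c 4673 .nil))) .nil) (.I .com (.c 18561 (.c 21307395 .nil)) (.r 4673 .nil))) (.node (.I .tdb (.c 24 (.c 12801 (.c 8 (.c 16 .nil)))) (.t 32 48 .nil)) (.I .tdb (.c 24 (.c 12801 (.c 8 (.c 32 .nil)))) (.t 16 48 .nil))))) (.node (.node (.node (.I .tdb (.c 4609 (.c 40 (.c 8 (.c 32 .nil)))) (.t 16 48 .nil)) (.I .ass (.c 18689 (.c 12801 (.c 2803779 .nil))) .nil)) (.node (.I .com (.c 18689 (.c 12801 .nil))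 (.r 2803779 .nil)) (.I .tdb (.c 0 (.c 24 (.c 40 (.c 8 .nil)))) (.b 16 (.t 32 48 .nil))))) (.node (.node (.I .tdb (.c 0 (.c 24 (.c 40 (.c 16 .nil)))) (.b 8 (.t 32 48 .nil))) (.I .tdb (.c 24 (.c 12801 (.c 16 (.c 32 .nil)))) (.t 8 48 .nil))) (.node (.I .tdb (.c 4609 (.c 40 (.c 16 (.c 32 .nil)))) (.t 8 48 .nil)) (.I .ass (.c 18497 (.c 4609 (.c 21307523 .nil))) .nil))))) (.node (.node (.node (.node (.I .com (.c 18497 (.c 4609 .nil)) (.r 21307523 .nil)) (.I .tdb (.c 0 (.c 16 (.c 8 (.c 24 .nil)))) (.b 40 (.t 32 48 .nil)))) (.node (.I .tdb (.c 0 (.c 16 (.c 40 (.c 24 .nil)))) (.b 8 (.t 32 48 .nil))) (.I .ass (.c 18689 (.c 21099011 (.c 2113 .nil))) .nil))) (.node (.node (.I .ass (.c 21099011 (.c 18689 (.c 2113 .nil))) .nil) (.I .com (.c 18689 (.c 21099011 .nil)) (.r 2113 .nil))) (.node (.I .com (.c 2113 (.c 18689 .nil)) (.l 21099011 .nil)) (.I .com (.c 2728451 (.c 12929 .nil)) (.l 18689 .nil)))))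 (.node (.node (.node (.I .tdb (.c 16 (.c 12801 (.c 8 (.c 32 .nil)))) (.t 24 48 .nil)) (.I .tdb (.c 2049 (.c 40 (.c 8 (.c 24 .nil)))) (.t 32 48 .nil))) (.node (.I .tdb (.c 2049 (.c 40 (.c 8 (.c 32 .nil)))) (.t 24 48 .nil)) (.I .tdb (.c 2049 (.c 40 (.c 24 (.c 32 .nil)))) (.t 8 48 .nil)))) (.node (.node (.I .tdb (.c 8 (.c 12801 (.c 16 (.c 24 .nil)))) (.t 32 48 .nil)) (.I .tdb (.c 8 (.c 12801 (.c 16 (.c 32 .nil)))) (.t 24 48 .nil))) (.node (.I .tdb (.c 513 (.c 40 (.c 16 (.c 32 .nil)))) (.t 24 48 .nil)) (.I .ass (.c 18689 (.c 513 (.c 21099139 .nil))) .nil)))))) (.node (.node (.node (.node (.node (.I .com (.c 18689 (.c 513 .nil)) (.r 21099139 .nil)) (.I .tdb (.c 513 (.c 40 (.c 24 (.c 32 .nil)))) (.t 16 48 .nil))) (.node (.I .ass (.c 18561 (.c 513 (.c 21307587 .nil))) .nil) (.I .com (.c 18561 (.c 513 .nil)) (.r 21307587 .nil)))) (.node (.node (.I .tdb (.c 24 (.c 8193 (.c 8 (.c 40 .nil))))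 (.t 16 48 .nil)) (.I .tdb (.c 24 (.c 8193 (.c 16 (.c 48 .nil)))) (.t 8 40 .nil))) (.node (.I .tdb (.c 4609 (.c 32 (.c 16 (.c 40 .nil)))) (.t 8 48 .nil)) (.I .tdb (.c 16 (.c 8257 (.c 0 (.c 40 .nil)))) (.t 24 48 .nil))))) (.node (.node (.node (.I .com (.c 42762755 (.c 8321 .nil)) (.t 24 40 .nil)) (.I .tdb (.c 16 (.c 8193 (.c 8 (.c 40 .nil)))) (.t 24 48 .nil))) (.node (.I .tdb (.c 16 (.c 8193 (.c 8 (.c 48 .nil)))) (.t 24 40 .nil)) (.I .tdb (.c 2049 (.c 32 (.c 8 (.c 48 .nil)))) (.t 24 40 .nil)))) (.node (.node (.I .tdb (.c 16 (.c 8193 (.c 24 (.c 40 .nil)))) (.t 8 48 .nil)) (.I .tdb (.c 8 (.c 8193 (.c 16 (.c 40 .nil)))) (.t 24 48 .nil))) (.node (.I .tdb (.c 513 (.c 32 (.c 48 (.c 16 .nil)))) (.t 24 40 .nil)) (.I .com (.c 43059203 (.c 8257 .nil)) (.t 24 40 .nil)))))) (.node (.node (.node (.node (.I .com (.c 43059203 (.c 8257 .nil)) (.l 12993 .nil)) (.I .tdb (.c 8 (.c 8193 (.c 24 (.c 48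 .nil)))) (.t 16 40 .nil))) (.node (.I .tdb (.c 513 (.c 32 (.c 48 (.c 24 .nil)))) (.t 16 40 .nil)) (.I .com (.c 42762755 (.c 4737 .nil)) (.t 32 40 .nil)))) (.node (.node (.I .tdb (.c 16 (.c 4609 (.c 8 (.c 40 .nil)))) (.t 32 48 .nil)) (.I .tdb (.c 8 (.c 4609 (.c 16 (.c 40 .nil)))) (.t 32 48 .nil))) (.node (.I .tdb (.c 8 (.c 4609 (.c 16 (.c 48 .nil)))) (.t 32 40 .nil)) (.I .tdb (.c 513 (.c 24 (.c 48 (.c 16 .nil)))) (.t 32 40 .nil))))) (.node (.node (.node (.I .tdb (.c 8 (.c 2049 (.c 24 (.c 40 .nil)))) (.t 32 48 .nil)) (.I .tdb (.c 513 (.c 16 (.c 48 (.c 32 .nil)))) (.t 24 40 .nil))) (.node (.I .com (.c 21099011 (.c 2113 .nil)) (.l 18689 .nil)) (.I .tdb (.c 8 (.c 4609 (.c 32 (.c 40 .nil)))) (.t 16 48 .nil)))) (.node (.node (.I .tdb (.c 513 (.c 24 (.c 40 (.c 32 .nil)))) (.t 16 48 .nil)) (.I .com (.c 21307395 (.c 4673 .nil)) (.l 18561 .nil))) (.node (.I .com (.c 43655171 (.c 4673 .nil))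 (.l 12929 .nil)) (.I .tdb (.c 16 (.c 4609 (.c 32 (.c 40 .nil)))) (.t 8 48 .nil))))))))

noncomputable def c2_425 : Tr := (.node (.node (.node (.node (.node (.node (.I .tdb (.c 24 (.c 2049 (.c 32 (.c 40 .nil)))) (.t 8 48 .nil)) (.I .tdb (.c 24 (.c 2049 (.c 32 (.c 48 .nil)))) (.t 8 40 .nil))) (.node (.I .ass (.c 18753 (.c 2728451 (.c 8321 .nil))) .nil) (.I .ass (.c 2728451 (.c 18753 (.c 8321 .nil))) .nil))) (.node (.node (.I .com (.c 18753 (.c 2728451 .nil)) (.r 8321 .nil)) (.I .com (.c 8321 (.c 18753 .nil)) (.l 2728451 .nil))) (.node (.I .ass (.c 18753 (.c 8520195 (.c 4737 .nil))) .nil) (.I .ass (.c 8520195 (.c 18753 (.c 4737 .nil))) .nil)))) (.node (.node (.node (.I .com (.c 18753 (.c 8520195 .nil)) (.r 4737 .nil)) (.I .com (.c 4737 (.c 18753 .nil)) (.l 8520195 .nil))) (.node (.I .com (.c 43954691 (.c 4737 .nil)) (.l 8257 .nil)) (.I .com (.c 43954691 (.c 8385 .nil)) (.l 2113 .nil))))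 (.node (.node (.I .tdb (.c 4609 (.c 32 (.c 8 (.c 16 .nil)))) (.t 40 48 .nil)) (.I .tdb (.c 0 (.c 24 (.c 8 (.c 16 .nil)))) (.b 32 (.t 40 48 .nil)))) (.node (.I .ass (.c 18753 (.c 8193 (.c 2803779 .nil))) .nil) (.I .com (.c 18753 (.c 8193 .nil)) (.r 2803779 .nil)))))) (.node (.node (.node (.node (.I .tdb (.c 0 (.c 24 (.c 32 (.c 16 .nil)))) (.b 8 (.t 40 48 .nil))) (.I .ass (.c 18753 (.c 4609 (.c 8652867 .nil))) .nil)) (.node (.I .com (.c 18753 (.c 4609 .nil)) (.r 8652867 .nil)) (.I .tdb (.c 0 (.c 16 (.c 32 (.c 8 .nil)))) (.b 24 (.t 40 48 .nil))))) (.node (.node (.I .tdb (.c 0 (.c 8 (.c 16 (.c 24 .nil)))) (.b 32 (.t 40 48 .nil))) (.I .tdb (.c 0 (.c 8 (.c 24 (.c 32 .nil)))) (.b 16 (.t 40 48 .nil)))) (.node (.I .com (.c 2728451 (.c 8321 .nil)) (.l 18753 .nil)) (.I .tdb (.c 8 (.c 8193 (.c 16 (.c 24 .nil)))) (.t 40 48 .nil))))) (.node (.node (.node (.I .tdb (.c 513 (.c 32 (.c 16 (.c 24 .nil))))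 (.t 40 48 .nil)) (.I .tdb (.c 24 (.c 12865 (.c 16 (.c 48 .nil)))) (.t 0 32 .nil))) (.node (.I .tdb (.c 24 (.c 12801 (.c 8 (.c 48 .nil)))) (.t 16 32 .nil)) (.I .tdb (.c 16 (.c 12865 (.c 24 (.c 48 .nil)))) (.t 0 32 .nil)))) (.node (.node (.I .tdb (.c 2049 (.c 40 (.c 24 (.c 48 .nil)))) (.t 8 32 .nil)) (.I .tdb (.c 513 (.c 40 (.c 16 (.c 48 .nil)))) (.t 24 32 .nil))) (.node (.I .com (.c 43059203 (.c 12865 .nil)) (.t 24 32 .nil)) (.I .com (.c 43059203 (.c 12865 .nil)) (.l 8385 .nil))))))) (.node (.node (.node (.node (.node (.I .com (.c 8520195 (.c 4737 .nil)) (.l 18753 .nil)) (.I .tdb (.c 24 (.c 2049 (.c 8 (.c 32 .nil)))) (.t 40 48 .nil))) (.node (.I .tdb (.c 8 (.c 4609 (.c 16 (.c 32 .nil)))) (.t 40 48 .nil)) (.I .tdb (.c 8 (.c 2049 (.c 40 (.c 48 .nil)))) (.t 24 32 .nil)))) (.node (.node (.I .tdb (.c 513 (.c 16 (.c 24 (.c 32 .nil)))) (.t 40 48 .nil)) (.I .tdb (.c 513 (.c 16 (.c 40 (.c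 48 .nil)))) (.t 24 32 .nil))) (.node (.I .com (.c 43954691 (.c 2113 .nil)) (.t 24 32 .nil)) (.I .com (.c 43954691 (.c 2113 .nil)) (.l 8385 .nil))))) (.node (.node (.node (.I .tdb (.c 16 (.c 4609 (.c 40 (.c 48 .nil)))) (.t 8 32 .nil)) (.I .tdb (.c 24 (.c 2049 (.c 40 (.c 48 .nil)))) (.t 8 32 .nil))) (.node (.I .tdb (.c 40 (.c 8257 (.c 16 (.c 48 .nil)))) (.t 0 24 .nil)) (.I .tdb (.c 32 (.c 12801 (.c 8 (.c 48 .nil)))) (.t 16 24 .nil)))) (.node (.node (.I .tdb (.c 40 (.c 8193 (.c 16 (.c 48 .nil)))) (.t 8 24 .nil)) (.I .tdb (.c 2113 (.c 40 (.c 32 (.c 48 .nil)))) (.t 0 24 .nil))) (.node (.I .tdb (.c 8 (.c 12801 (.c 32 (.c 48 .nil)))) (.t 16 24 .nil)) (.I .com (.c 43655171 (.c 12865 .nil)) (.l 4737 .nil)))))) (.node (.node (.node (.node (.I .tdb (.c 8 (.c 8193 (.c 40 (.c 48 .nil)))) (.t 16 24 .nil)) (.I .tdb (.c 513 (.c 32 (.c 40 (.c 48 .nil)))) (.t 16 24 .nil))) (.node (.I .com (.c 43954691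 (.c 8257 .nil)) (.l 4737 .nil)) (.I .tdb (.c 16 (.c 8193 (.c 40 (.c 48 .nil)))) (.t 8 24 .nil)))) (.node (.node (.I .tdb (.c 2049 (.c 32 (.c 40 (.c 48 .nil)))) (.t 8 24 .nil)) (.I .tdb (.c 16 (.c 8257 (.c 40 (.c 48 .nil)))) (.t 0 24 .nil))) (.node (.I .tdb (.c 2113 (.c 32 (.c 40 (.c 48 .nil)))) (.t 0 24 .nil)) (.I .tdb (.c 32 (.c 12801 (.c 24 (.c 48 .nil)))) (.t 8 16 .nil))))) (.node (.node (.node (.I .tdb (.c 40 (.c 8193 (.c 24 (.c 48 .nil)))) (.t 8 16 .nil)) (.I .tdb (.c 24 (.c 12801 (.c 32 (.c 48 .nil)))) (.t 8 16 .nil))) (.node (.I .tdb (.c 4609 (.c 40 (.c 32 (.c 48 .nil)))) (.t 8 16 .nil)) (.I .tdb (.c 24 (.c 8193 (.c 40 (.c 48 .nil)))) (.t 8 16 .nil)))) (.node (.node (.I .tdb (.c 4609 (.c 32 (.c 40 (.c 48 .nil)))) (.t 8 16 .nil)) (.I .tdb (.c 0 (.c 48 (.c 16 (.c 24 .nil)))) (.t 32 40 (.b 8 .nil)))) (.node (.I .tdb (.c 0 (.c 32 (.c 16 (.c 48 .nil)))) (.t 24 40 (.b 8 .nil)))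 (.I .tdb (.c 0 (.c 32 (.c 24 (.c 48 .nil)))) (.t 16 40 (.b 8 .nil)))))))))

noncomputable def c2_426 : Tr := (.node (.node (.node (.node (.node (.node (.I .tdb (.c 0 (.c 24 (.c 48 (.c 16 .nil)))) (.t 32 40 (.b 8 .nil))) (.I .tdb (.c 0 (.c 24 (.c 32 (.c 48 .nil)))) (.t 16 40 (.b 8 .nil)))) (.node (.I .tdb (.c 0 (.c 40 (.c 16 (.c 48 .nil)))) (.l 8385 (.b 8 .nil))) (.I .tdb (.c 0 (.c 40 (.c 24 (.c 48 .nil)))) (.t 16 32 (.b 8 .nil))))) (.node (.node (.I .tdb (.c 0 (.c 24 (.c 40 (.c 48 .nil)))) (.t 16 32 (.b 8 .nil))) (.I .tdb (.c 0 (.c 32 (.c 40 (.c 48 .nil)))) (.t 16 24 (.b 8 .nil)))) (.node (.I .tdb (.c 0 (.c 48 (.c 8 (.c 32 .nil)))) (.t 24 40 (.b 16 .nil))) (.I .tdb (.c 0 (.c 48 (.c 8 (.c 40 .nil)))) (.t 24 32 (.b 16 .nil)))))) (.node (.node (.node (.I .tdb (.c 0 (.c 48 (.c 24 (.c 40 .nil)))) (.t 8 32 (.b 16 .nil))) (.I .tdb (.c 0 (.c 40 (.c 24 (.c 32 .nil)))) (.t 8 48 (.b 16 .nil))))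 (.node (.I .tdb (.c 0 (.c 32 (.c 8 (.c 40 .nil)))) (.t 24 48 (.b 16 .nil))) (.I .tdb (.c 0 (.c 32 (.c 8 (.c 48 .nil)))) (.l 12993 (.b 16 .nil))))) (.node (.node (.I .tdb (.c 0 (.c 32 (.c 24 (.c 40 .nil)))) (.t 8 48 (.b 16 .nil))) (.I .tdb (.c 0 (.c 24 (.c 40 (.c 8 .nil)))) (.t 32 48 (.b 16 .nil)))) (.node (.I .tdb (.c 0 (.c 24 (.c 48 (.c 8 .nil)))) (.t 32 40 (.b 16 .nil))) (.I .tdb (.c 0 (.c 40 (.c 24 (.c 48 .nil)))) (.t 8 32 (.b 16 .nil))))))) (.node (.node (.node (.node (.I .tdb (.c 0 (.c 24 (.c 32 (.c 8 .nil)))) (.t 40 48 (.b 16 .nil))) (.I .tdb (.c 0 (.c 48 (.c 8 (.c 40 .nil)))) (.t 16 32 (.b 24 .nil)))) (.node (.I .tdb (.c 0 (.c 48 (.c 16 (.c 40 .nil)))) (.t 8 32 (.b 24 .nil))) (.I .tdb (.c 0 (.c 48 (.c 32 (.c 40 .nil)))) (.t 8 16 (.b 24 .nil))))) (.node (.node (.I .tdb (.c 0 (.c 32 (.c 8 (.c 40 .nil)))) (.t 16 48 (.b 24 .nil))) (.I .tdb (.c 0 (.c 32 (.c 8 (.c 48 .nil)))) (.l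 12929 (.b 24 .nil)))) (.node (.I .tdb (.c 0 (.c 32 (.c 16 (.c 48 .nil)))) (.t 8 40 (.b 24 .nil))) (.I .tdb (.c 0 (.c 8 (.c 16 (.c 48 .nil)))) (.t 32 40 (.b 24 .nil)))))) (.node (.node (.node (.I .tdb (.c 0 (.c 8 (.c 32 (.c 48 .nil)))) (.t 16 40 (.b 24 .nil))) (.I .tdb (.c 0 (.c 16 (.c 32 (.c 40 .nil)))) (.t 8 48 (.b 24 .nil)))) (.node (.I .tdb (.c 0 (.c 16 (.c 32 (.c 48 .nil)))) (.t 8 40 (.b 24 .nil))) (.I .tdb (.c 0 (.c 32 (.c 8 (.c 16 .nil)))) (.t 40 48 (.b 24 .nil))))) (.node (.node (.I .tdb (.c 0 (.c 16 (.c 32 (.c 8 .nil)))) (.t 40 48 (.b 24 .nil))) (.I .tdb (.c 0 (.c 8 (.c 40 (.c 48 .nil)))) (.t 16 32 (.b 24 .nil)))) (.node (.I .tdb (.c 0 (.c 48 (.c 8 (.c 16 .nil)))) (.t 24 40 (.b 32 .nil))) (.I .tdb (.c 0 (.c 48 (.c 8 (.c 24 .nil)))) (.t 16 40 (.b 32 .nil)))))))) (.node (.node (.node (.node (.node (.I .tdb (.c 0 (.c 48 (.c 16 (.c 24 .nil)))) (.t 8 40 (.b 32 .nil))) (.I .tdb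 (.c 0 (.c 24 (.c 40 (.c 8 .nil)))) (.t 16 48 (.b 32 .nil)))) (.node (.I .tdb (.c 0 (.c 24 (.c 40 (.c 16 .nil)))) (.t 8 48 (.b 32 .nil))) (.I .tdb (.c 0 (.c 24 (.c 48 (.c 16 .nil)))) (.t 8 40 (.b 32 .nil))))) (.node (.node (.I .tdb (.c 0 (.c 16 (.c 48 (.c 8 .nil)))) (.t 24 40 (.b 32 .nil))) (.I .tdb (.c 0 (.c 8 (.c 16 (.c 48 .nil)))) (.t 24 40 (.b 32 .nil)))) (.node (.I .tdb (.c 0 (.c 8 (.c 24 (.c 48 .nil)))) (.t 16 40 (.b 32 .nil))) (.I .tdb (.c 0 (.c 16 (.c 40 (.c 24 .nil)))) (.t 8 48 (.b 32 .nil)))))) (.node (.node (.node (.I .tdb (.c 0 (.c 16 (.c 48 (.c 24 .nil)))) (.t 8 40 (.b 32 .nil))) (.I .tdb (.c 0 (.c 40 (.c 8 (.c 48 .nil)))) (.l 4737 (.b 32 .nil)))) (.node (.I .tdb (.c 0 (.c 40 (.c 16 (.c 48 .nil)))) (.t 8 24 (.b 32 .nil))) (.I .tdb (.c 0 (.c 16 (.c 8 (.c 24 .nil)))) (.t 40 48 (.b 32 .nil))))) (.node (.node (.I .tdb (.c 0 (.c 8 (.c 16 (.c 24 .nil)))) (.t 40 48 (.b 32 .nil)))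 (.I .tdb (.c 0 (.c 16 (.c 40 (.c 48 .nil)))) (.t 8 24 (.b 32 .nil)))) (.node (.I .tdb (.c 0 (.c 24 (.c 40 (.c 48 .nil)))) (.t 8 16 (.b 32 .nil))) (.I .com (.c 20685315 (.c 18625 .nil)) (.b 32 (.b 16 .nil))))))) (.node (.node (.node (.node (.I .adp (.c 20685315 (.c 18625 (.c 32 .nil))) (.b 16 .nil)) (.I .com (.c 21099011 (.c 18497 .nil)) (.b 32 (.b 16 .nil)))) (.node (.I .adp (.c 21099011 (.c 18497 (.c 32 .nil))) (.b 16 .nil)) (.I .adp (.c 4609 (.c 43954755 (.c 32 .nil))) (.b 16 .nil)))) (.node (.node (.I .adp (.c 513 (.c 43954883 (.c 32 .nil))) (.b 16 .nil)) (.I .com (.c 20685315 (.c 18561 .nil)) (.b 32 (.b 24 .nil)))) (.node (.I .adp (.c 20685315 (.c 18561 (.c 32 .nil))) (.b 24 .nil)) (.I .com (.c 20891651 (.c 18497 .nil)) (.b 24 (.b 32 .nil)))))) (.node (.node (.node (.I .adp (.c 20891651 (.c 18497 (.c 24 .nil))) (.b 32 .nil)) (.I .adp (.c 18433 (.c 20891715 (.c 32 .nil))) (.b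 24 .nil))) (.node (.I .adp (.c 18433 (.c 20891715 (.c 24 .nil))) (.b 32 .nil)) (.I .com (.c 43954691 (.c 2113 .nil)) (.b 32 (.b 24 .nil))))) (.node (.node (.I .adp (.c 43954691 (.c 2113 (.c 32 .nil))) (.b 24 .nil)) (.I .com (.c 43954691 (.c 2113 .nil)) (.b 24 (.b 32 .nil)))) (.node (.I .adp (.c 43954691 (.c 2113 (.c 24 .nil))) (.b 32 .nil)) (.I .adp (.c 2049 (.c 43954755 (.c 24 .nil))) (.b 32 .nil))))))))

noncomputable def c2_427 : Tr := (.node (.node (.node (.node (.node (.node (.I .adp (.c 513 (.c 43954819 (.c 32 .nil))) (.b 24 .nil)) (.I .com (.c 8652803 (.c 2737112265 .nil)) (.b 40 .nil))) (.node (.I .com (.c 8786435 (.c 2737112201 .nil)) (.b 40 .nil)) (.I .tdb (.c 8 (.c 48 (.c 0 (.c 16 .nil)))) (.t 24 32 (.b 40 .nil))))) (.node (.node (.I .tdb (.c 8 (.c 48 (.c 0 (.c 24 .nil)))) (.t 16 32 (.b 40 .nil))) (.I .tdb (.c 0 (.c 48 (.c 8 (.c 16 .nil)))) (.t 24 32 (.b 40 .nil)))) (.node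 (.I .tdb (.c 0 (.c 48 (.c 8 (.c 32 .nil)))) (.t 16 24 (.b 40 .nil))) (.I .tdb (.c 0 (.c 32 (.c 8 (.c 16 .nil)))) (.t 24 48 (.b 40 .nil)))))) (.node (.node (.node (.I .tdb (.c 0 (.c 32 (.c 16 (.c 24 .nil)))) (.t 8 48 (.b 40 .nil))) (.I .tdb (.c 0 (.c 24 (.c 32 (.c 8 .nil)))) (.t 16 48 (.b 40 .nil)))) (.node (.I .tdb (.c 0 (.c 24 (.c 48 (.c 8 .nil)))) (.t 16 32 (.b 40 .nil))) (.I .tdb (.c 0 (.c 24 (.c 48 (.c 8 .nil)))) (.l 8321 (.b 40 .nil))))) (.node (.node (.I .tdb (.c 0 (.c 24 (.c 48 (.c 16 .nil)))) (.t 8 32 (.b 40 .nil))) (.I .tdb (.c 0 (.c 16 (.c 48 (.c 8 .nil)))) (.t 24 32 (.b 40 .nil)))) (.node (.I .tdb (.c 0 (.c 16 (.c 48 (.c 8 .nil)))) (.l 8385 (.b 40 .nil))) (.I .tdb (.c 0 (.c 8 (.c 16 (.c 32 .nil)))) (.t 24 48 (.b 40 .nil))))))) (.node (.node (.node (.node (.I .tdb (.c 0 (.c 8 (.c 16 (.c 48 .nil)))) (.l 8385 (.b 40 .nil))) (.I .tdb (.c 0 (.c 8 (.c 24 (.c 32 .nil)))) (.t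 16 48 (.b 40 .nil)))) (.node (.I .tdb (.c 0 (.c 8 (.c 24 (.c 48 .nil)))) (.t 16 32 (.b 40 .nil))) (.I .tdb (.c 0 (.c 16 (.c 32 (.c 24 .nil)))) (.t 8 48 (.b 40 .nil))))) (.node (.node (.I .tdb (.c 0 (.c 16 (.c 48 (.c 24 .nil)))) (.t 8 32 (.b 40 .nil))) (.I .tdb (.c 0 (.c 32 (.c 8 (.c 48 .nil)))) (.t 16 24 (.b 40 .nil)))) (.node (.I .tdb (.c 0 (.c 32 (.c 8 (.c 48 .nil)))) (.l 4737 (.b 40 .nil))) (.I .tdb (.c 0 (.c 16 (.c 8 (.c 24 .nil)))) (.t 32 48 (.b 40 .nil)))))) (.node (.node (.node (.I .tdb (.c 0 (.c 8 (.c 16 (.c 24 .nil)))) (.t 32 48 (.b 40 .nil))) (.I .tdb (.c 0 (.c 8 (.c 32 (.c 48 .nil)))) (.t 16 24 (.b 40 .nil)))) (.node (.I .tdb (.c 0 (.c 16 (.c 32 (.c 48 .nil)))) (.t 8 24 (.b 40 .nil))) (.I .tdb (.c 0 (.c 40 (.c 8 (.c 16 .nil)))) (.t 24 32 (.b 48 .nil))))) (.node (.node (.I .tdb (.c 0 (.c 40 (.c 8 (.c 32 .nil)))) (.t 16 24 (.b 48 .nil))) (.I .tdb (.c 0 (.c 40 (.c 16 (.c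 32 .nil)))) (.t 8 24 (.b 48 .nil)))) (.node (.I .tdb (.c 0 (.c 40 (.c 24 (.c 32 .nil)))) (.t 8 16 (.b 48 .nil))) (.I .com (.c 20685315 (.c 179513609 .nil)) (.b 48 .nil))))))) (.node (.node (.node (.node (.node (.I .tdb (.c 0 (.c 32 (.c 8 (.c 16 .nil)))) (.t 24 40 (.b 48 .nil))) (.I .tdb (.c 16 (.c 24 (.c 32 (.c 8 .nil)))) (.t 0 40 (.b 48 .nil)))) (.node (.I .tdb (.c 0 (.c 24 (.c 40 (.c 8 .nil)))) (.t 16 32 (.b 48 .nil))) (.I .tdb (.c 0 (.c 24 (.c 40 (.c 8 .nil)))) (.l 8321 (.b 48 .nil))))) (.node (.node (.I .tdb (.c 0 (.c 24 (.c 32 (.c 16 .nil)))) (.t 8 40 (.b 48 .nil))) (.I .tdb (.c 0 (.c 24 (.c 40 (.c 16 .nil)))) (.t 8 32 (.b 48 .nil)))) (.node (.I .tdb (.c 0 (.c 16 (.c 32 (.c 8 .nil)))) (.t 24 40 (.b 48 .nil))) (.I .tdb (.c 0 (.c 16 (.c 40 (.c 8 .nil)))) (.l 8385 (.b 48 .nil)))))) (.node (.node (.node (.I .tdb (.c 0 (.c 8 (.c 24 (.c 32 .nil)))) (.t 16 40 (.b 48 .nil))) (.I .tdb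 (.c 0 (.c 8 (.c 24 (.c 40 .nil)))) (.t 16 32 (.b 48 .nil)))) (.node (.I .tdb (.c 0 (.c 16 (.c 40 (.c 24 .nil)))) (.t 8 32 (.b 48 .nil))) (.I .tdb (.c 16 (.c 24 (.c 0 (.c 8 .nil)))) (.t 32 40 (.b 48 .nil))))) (.node (.node (.I .tdb (.c 0 (.c 32 (.c 8 (.c 40 .nil)))) (.t 16 24 (.b 48 .nil))) (.I .tdb (.c 0 (.c 16 (.c 8 (.c 24 .nil)))) (.t 32 40 (.b 48 .nil)))) (.node (.I .tdb (.c 0 (.c 8 (.c 16 (.c 24 .nil)))) (.t 32 40 (.b 48 .nil))) (.I .tdb (.c 0 (.c 32 (.c 24 (.c 40 .nil)))) (.t 8 16 (.b 48 .nil))))))) (.node (.node (.node (.node (.I .jac (.c 0 (.c 8 (.c 24 .nil))) (.t 48 21307523 .nil)) (.I .jac (.c 16 (.c 24 (.c 48 .nil))) (.t 32 40 (.l 513 .nil)))) (.node (.I .jac (.c 8 (.c 16 (.c 48 .nil))) (.t 32 40 (.l 4609 .nil))) (.I .jac (.c 0 (.c 16 (.c 40 .nil))) (.t 32 48 (.b 24 (.b 8 .nil)))))) (.node (.node (.I .jac (.c 0 (.c 16 (.c 32 .nil))) (.t 40 48 (.l 4673 .nil))) (.I .jac (.c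 0 (.c 8 (.c 32 .nil))) (.t 40 48 (.l 4737 .nil)))) (.node (.I .jac (.c 8 (.c 16 (.c 24 .nil))) (.t 40 48 (.l 8193 .nil))) (.I .jac (.c 0 (.c 16 (.c 48 .nil))) (.t 24 40 (.l 8257 .nil)))))) (.node (.node (.node (.I .jac (.c 0 (.c 8 (.c 48 .nil))) (.t 24 40 (.b 32 (.b 16 .nil)))) (.I .jac (.c 0 (.c 8 (.c 24 .nil))) (.t 40 48 (.b 16 (.b 32 .nil))))) (.node (.I .jac (.c 0 (.c 8 (.c 48 .nil))) (.t 16 40 (.l 8385 .nil))) (.I .jac (.c 0 (.c 8 (.c 40 .nil))) (.t 16 48 (.b 32 (.b 24 .nil)))))) (.node (.node (.I .jac (.c 0 (.c 8 (.c 16 .nil))) (.t 40 48 (.b 24 (.b 32 .nil)))) (.I .jac (.c 8 (.c 16 (.c 48 .nil))) (.t 24 32 (.l 12801 .nil)))) (.node (.I .jac (.c 0 (.c 16 (.c 48 .nil))) (.t 24 32 (.b 40 (.b 8 .nil)))) (.I .jac (.c 0 (.c 16 (.c 24 .nil))) (.t 32 48 (.l 12865 .nil)))))))))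

noncomputable def c2_428 : Tr := (.node (.node (.node (.node (.node (.node (.I .jac (.c 0 (.c 8 (.c 48 .nil))) (.t 24 32 (.l 12929 .nil))) (.I .jac (.c 0 (.c 8 (.c 48 .nil))) (.t 24 32 (.b 40 (.b 16 .nil))))) (.node (.I .jac (.c 0 (.c 8 (.c 48 .nil))) (.t 24 32 (.b 16 (.b 40 .nil)))) (.I .jac (.c 0 (.c 8 (.c 48 .nil))) (.t 16 32 (.l 12993 .nil))))) (.node (.node (.I .jac (.c 0 (.c 8 (.c 16 .nil))) (.t 32 48 (.b 24 (.b 40 .nil)))) (.I .jac (.c 0 (.c 8 (.c 48 .nil))) (.t 16 24 (.b 40 (.b 32 .nil))))) (.node (.I .jac (.c 8 (.c 16 (.c 24 .nil))) (.t 32 40 (.l 18433 .nil))) (.I .jac (.c 0 (.c 16 (.c 24 .nil))) (.t 32 40 (.l 18497 .nil)))))) (.node (.node (.node (.I .jac (.c 0 (.c 8 (.c 40 .nil))) (.t 24 32 (.b 48 (.b 16 .nil)))) (.I .jac (.c 0 (.c 8 (.c 32 .nil))) (.t 16 40 (.l 18625 .nil)))) (.node (.I .jac (.c 0 (.c 8 (.c 32 .nil))) (.t 16 40 (.t 24 48 .nil))) (.I .jac (.c 0 (.c 8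 (.c 16 .nil))) (.t 24 40 (.b 32 (.b 48 .nil)))))) (.node (.node (.I .jac (.c 0 (.c 8 (.c 32 .nil))) (.t 16 24 (.l 18753 .nil))) (.I .jac (.c 0 (.c 8 (.c 32 .nil))) (.t 16 24 (.b 40 (.b 48 .nil))))) (.node (.X 1 (.c 21307395 (.c 24 (.c 16 (.c 8 (.c 48 .nil))))) .nil) (.X 1 (.c 32 (.c 16 (.c 24 (.c 8 (.c 48 .nil))))) (.l 12801 .nil)))))) (.node (.node (.node (.node (.X 1 (.c 48 (.c 21099139 (.c 8 (.c 0 (.c 32 .nil))))) .nil) (.X 1 (.c 32 (.c 0 (.c 24 (.c 16 (.c 8 .nil))))) (.b 48 (.b 40 .nil)))) (.node (.X 1 (.c 48 (.c 24 (.c 21307459 (.c 0 (.c 16 .nil))))) .nil) (.X 1 (.c 40 (.c 32 (.c 24 (.c 0 (.c 8 .nil))))) (.b 16 (.b 48 .nil))))) (.node (.node (.X 1 (.c 48 (.c 16 (.c 40 (.c 0 (.c 24 .nil))))) (.b 8 (.b 32 .nil))) (.X 1 (.c 21307395 (.c 16 (.c 24 (.c 8 (.c 48 .nil))))) .nil)) (.node (.X 1 (.c 32 (.c 24 (.c 16 (.c 8 (.c 48 .nil))))) (.l 12801 .nil)) (.X 1 (.c 48 (.c 16 (.c 24 (.c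 0 (.c 40 .nil))))) (.b 32 (.b 8 .nil)))))) (.node (.node (.node (.X 1 (.c 40 (.c 24 (.c 32 (.c 0 (.c 8 .nil))))) (.b 48 (.b 16 .nil))) (.X 1 (.c 40 (.c 32 (.c 24 (.c 557571 (.c 48 .nil))))) .nil)) (.node (.X 1 (.c 40 (.c 24 (.c 32 (.c 0 (.c 8 .nil))))) (.b 16 (.b 48 .nil))) (.X 1 (.c 21307459 (.c 16 (.c 24 (.c 0 (.c 48 .nil))))) .nil))) (.node (.node (.X 1 (.c 48 (.c 8652803 (.c 40 (.c 8 (.c 24 .nil))))) .nil) (.X 1 (.c 48 (.c 21099075 (.c 16 (.c 0 (.c 32 .nil))))) .nil)) (.node (.X 1 (.c 40 (.c 32 (.c 16 (.c 0 (.c 43356739 .nil))))) .nil) (.X 1 (.c 32 (.c 24 (.c 16 (.c 0 (.c 40 .nil))))) (.b 48 (.b 8 .nil)))))))) (.node (.node (.node (.node (.node (.X 1 (.c 32 (.c 16 (.c 24 (.c 0 (.c 40 .nil))))) (.b 48 (.b 8 .nil))) (.X 1 (.c 48 (.c 16 (.c 40 (.c 0 (.c 24 .nil))))) (.b 32 (.b 8 .nil)))) (.node (.X 1 (.c 48 (.c 32 (.c 24 (.c 0 (.c 16 .nil))))) (.b 40 (.b 8 .nil))) (.X 1 (.c 40 (.c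 24 (.c 8 (.c 0 (.c 32 .nil))))) (.b 16 (.b 48 .nil))))) (.node (.node (.X 1 (.c 48 (.c 8652803 (.c 24 (.c 8 (.c 40 .nil))))) .nil) (.X 1 (.c 48 (.c 32 (.c 16 (.c 0 (.c 40 .nil))))) (.b 8 (.b 24 .nil)))) (.node (.X 1 (.c 48 (.c 24 (.c 21307395 (.c 8 (.c 16 .nil))))) .nil) (.X 1 (.c 32 (.c 0 (.c 24 (.c 8 (.c 16 .nil))))) (.b 48 (.b 40 .nil)))))) (.node (.node (.node (.X 1 (.c 48 (.c 21099075 (.c 32 (.c 0 (.c 16 .nil))))) .nil) (.X 1 (.c 40 (.c 0 (.c 24 (.c 8 (.c 32 .nil))))) (.b 48 (.b 16 .nil)))) (.node (.X 1 (.c 48 (.c 0 (.c 40 (.c 16 (.c 24 .nil))))) (.b 8 (.b 32 .nil))) (.X 1 (.c 48 (.c 0 (.c 40 (.c 16 (.c 24 .nil))))) (.b 32 (.b 8 .nil))))) (.node (.node (.X 1 (.c 40 (.c 32 (.c 2803715 (.c 8 (.c 48 .nil))))) .nil) (.X 1 (.c 48 (.c 0 (.c 21307587 (.c 8 (.c 16 .nil))))) .nil)) (.node (.X 1 (.c 43954947 (.c 16 (.c 8 (.c 0 (.c 24 .nil))))) .nil) (.X 1 (.c 48 (.c 0 (.c 40 (.c 8 (.c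 24 .nil))))) (.b 32 (.b 16 .nil))))))) (.node (.node (.node (.node (.X 1 (.c 48 (.c 0 (.c 40 (.c 24 (.c 16 .nil))))) (.b 8 (.b 32 .nil))) (.X 1 (.c 48 (.c 0 (.c 21307523 (.c 24 (.c 8 .nil))))) .nil)) (.node (.X 1 (.c 40 (.c 32 (.c 2803779 (.c 0 (.c 48 .nil))))) .nil) (.X 1 (.c 48 (.c 32 (.c 16 (.c 8 (.c 24 .nil))))) (.l 12801 .nil)))) (.node (.node (.X 1 (.c 48 (.c 0 (.c 24 (.c 16 (.c 40 .nil))))) (.b 32 (.b 8 .nil))) (.X 1 (.c 42762755 (.c 32 (.c 40 (.c 24 (.c 16 .nil))))) .nil)) (.node (.X 1 (.c 32 (.c 8 (.c 16 (.c 0 (.c 24 .nil))))) (.b 40 (.b 48 .nil))) (.X 1 (.c 32 (.c 8 (.c 16 (.c 0 (.c 24 .nil))))) (.b 48 (.b 40 .nil)))))) (.node (.node (.node (.X 1 (.c 48 (.c 21099139 (.c 32 (.c 0 (.c 8 .nil))))) .nil) (.X 1 (.c 43954947 (.c 24 (.c 8 (.c 0 (.c 16 .nil))))) .nil)) (.node (.X 1 (.c 43655363 (.c 40 (.c 8 (.c 0 (.c 16 .nil))))) .nil) (.X 1 (.c 32 (.c 8 (.c 24 (.c 0 (.c 16 .nil)))))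 (.b 40 (.b 48 .nil))))) (.node (.node (.X 1 (.c 40 (.c 32 (.c 2728451 (.c 16 (.c 48 .nil))))) .nil) (.X 1 (.c 43655235 (.c 24 (.c 40 (.c 0 (.c 16 .nil))))) .nil)) (.node (.X 1 (.c 48 (.c 8 (.c 40 (.c 8786435 (.c 16 .nil))))) .nil) (.X 1 (.c 40 (.c 32 (.c 24 (.c 0 (.c 16 .nil))))) (.b 8 (.b 48 .nil)))))))))

noncomputable def c2_429 : Tr := (.node (.node (.node (.node (.node (.node (.X 1 (.c 48 (.c 40 (.c 24 (.c 0 (.c 16 .nil))))) (.b 8 (.b 32 .nil))) (.X 1 (.c 48 (.c 40 (.c 24 (.c 0 (.c 16 .nil))))) (.b 32 (.b 8 .nil)))) (.node (.X 1 (.c 40 (.c 32 (.c 24 (.c 0 (.c 16 .nil))))) (.b 48 (.b 8 .nil))) (.X 1 (.c 24 (.c 8 (.c 16 (.c 0 (.c 32 .nil))))) (.b 48 (.b 40 .nil))))) (.node (.node (.X 1 (.c 43655235 (.c 16 (.c 24 (.c 0 (.c 40 .nil))))) .nil) (.X 1 (.c 40 (.c 24 (.c 8652867 (.c 0 (.c 48 .nil))))) .nil)) (.node (.X 1 (.c 24 (.c 8 (.c 16 (.c 0 (.c 32 .nil))))) (.b 40 (.b 48 .nil)))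 (.X 1 (.c 43655235 (.c 0 (.c 40 (.c 24 (.c 16 .nil))))) .nil)))) (.node (.node (.node (.X 1 (.c 48 (.c 24 (.c 20685315 (.c 16 (.c 32 .nil))))) .nil) (.X 1 (.c 40 (.c 32 (.c 16 (.c 0 (.c 24 .nil))))) (.b 48 (.b 8 .nil)))) (.node (.X 1 (.c 48 (.c 0 (.c 24 (.c 16 (.c 32 .nil))))) (.b 40 (.b 8 .nil))) (.X 1 (.c 48 (.c 0 (.c 32 (.c 16 (.c 24 .nil))))) (.b 8 (.b 40 .nil))))) (.node (.node (.X 1 (.c 43655171 (.c 40 (.c 16 (.c 8 (.c 24 .nil))))) .nil) (.X 1 (.c 43655171 (.c 24 (.c 16 (.c 8 (.c 40 .nil))))) .nil)) (.node (.X 1 (.c 48 (.c 16 (.c 32 (.c 0 (.c 40 .nil))))) (.b 8 (.b 24 .nil))) (.X 1 (.c 40 (.c 8 (.c 24 (.c 16 (.c 48 .nil))))) (.l 8193 .nil)))))) (.node (.node (.node (.node (.X 1 (.c 48 (.c 8 (.c 20891651 (.c 24 (.c 32 .nil))))) .nil) (.X 1 (.c 48 (.c 32 (.c 24 (.c 0 (.c 8 .nil))))) (.b 40 (.b 16 .nil)))) (.node (.X 1 (.c 32 (.c 16 (.c 24 (.c 8 (.c 40 .nil))))) (.l 18433 .nil))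 (.X 1 (.c 48 (.c 8 (.c 40 (.c 2803715 (.c 32 .nil))))) .nil))) (.node (.node (.X 1 (.c 48 (.c 20891651 (.c 32 (.c 24 (.c 8 .nil))))) .nil) (.X 1 (.c 32 (.c 16 (.c 24 (.c 0 (.c 48 .nil))))) (.b 8 (.b 40 .nil)))) (.node (.X 1 (.c 43655171 (.c 40 (.c 24 (.c 16 (.c 8 .nil))))) .nil) (.X 1 (.c 48 (.c 20891715 (.c 24 (.c 0 (.c 32 .nil))))) .nil)))) (.node (.node (.node (.X 1 (.c 48 (.c 8652867 (.c 24 (.c 0 (.c 40 .nil))))) .nil) (.X 1 (.c 43655363 (.c 0 (.c 40 (.c 8 (.c 16 .nil))))) .nil)) (.node (.X 1 (.c 48 (.c 0 (.c 24 (.c 8 (.c 40 .nil))))) (.b 32 (.b 16 .nil))) (.X 1 (.c 40 (.c 2803715 (.c 32 (.c 8 (.c 48 .nil))))) .nil))) (.node (.node (.X 1 (.c 40 (.c 0 (.c 32 (.c 24 (.c 16 .nil))))) (.b 8 (.b 48 .nil))) (.X 1 (.c 48 (.c 21099011 (.c 32 (.c 8 (.c 16 .nil))))) .nil)) (.node (.X 1 (.c 48 (.c 21099011 (.c 16 (.c 8 (.c 32 .nil))))) .nil) (.X 1 (.c 40 (.c 2803779 (.c 32 (.c 0 (.c 48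 .nil))))) .nil)))))) (.node (.node (.node (.node (.node (.X 1 (.c 32 (.c 0 (.c 24 (.c 8 (.c 16 .nil))))) (.b 40 (.b 48 .nil))) (.X 1 (.c 48 (.c 8 (.c 40 (.c 0 (.c 8786563 .nil))))) .nil)) (.node (.X 1 (.c 43655299 (.c 24 (.c 40 (.c 0 (.c 8 .nil))))) .nil) (.X 1 (.c 40 (.c 2728451 (.c 32 (.c 16 (.c 48 .nil))))) .nil))) (.node (.node (.X 1 (.c 48 (.c 8 (.c 8786563 (.c 0 (.c 40 .nil))))) .nil) (.X 1 (.c 48 (.c 40 (.c 16 (.c 0 (.c 32 .nil))))) (.b 8 (.b 24 .nil)))) (.node (.X 1 (.c 48 (.c 32 (.c 2803779 (.c 0 (.c 40 .nil))))) .nil) (.X 1 (.c 48 (.c 0 (.c 40 (.c 32 (.c 8 .nil))))) (.b 16 (.b 24 .nil)))))) (.node (.node (.node (.X 1 (.c 40 (.c 16 (.c 8 (.c 0 (.c 24 .nil))))) (.b 48 (.b 32 .nil))) (.X 1 (.c 43954883 (.c 0 (.c 32 (.c 16 (.c 8 .nil))))) .nil)) (.node (.X 1 (.c 40 (.c 32 (.c 16 (.c 8 (.c 48 .nil))))) (.l 4609 .nil)) (.X 1 (.c 48 (.c 32 (.c 24 (.c 0 (.c 20891715 .nil))))) .nil)))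 (.node (.node (.X 1 (.c 48 (.c 40 (.c 24 (.c 0 (.c 8 .nil))))) (.b 32 (.b 16 .nil))) (.X 1 (.c 24 (.c 0 (.c 16 (.c 8 (.c 40 .nil))))) (.b 32 (.b 48 .nil)))) (.node (.X 1 (.c 43954755 (.c 0 (.c 24 (.c 16 (.c 32 .nil))))) .nil) (.X 1 (.c 40 (.c 16 (.c 8 (.c 0 (.c 24 .nil))))) (.b 32 (.b 48 .nil))))))) (.node (.node (.node (.node (.X 1 (.c 48 (.c 40 (.c 24 (.c 0 (.c 8 .nil))))) (.b 16 (.b 32 .nil))) (.X 1 (.c 48 (.c 40 (.c 16 (.c 0 (.c 32 .nil))))) (.b 24 (.b 8 .nil)))) (.node (.X 1 (.c 43954755 (.c 16 (.c 24 (.c 0 (.c 32 .nil))))) .nil) (.X 1 (.c 48 (.c 0 (.c 32 (.c 8 (.c 40 .nil))))) (.b 16 (.b 24 .nil))))) (.node (.node (.X 1 (.c 43954691 (.c 16 (.c 24 (.c 8 (.c 32 .nil))))) .nil) (.X 1 (.c 40 (.c 24 (.c 8 (.c 0 (.c 16 .nil))))) (.b 48 (.b 32 .nil)))) (.node (.X 1 (.c 48 (.c 0 (.c 32 (.c 8 (.c 40 .nil))))) (.b 24 (.b 16 .nil))) (.X 1 (.c 43954691 (.c 16 (.c 32 (.c 8 (.c 24 .nil)))))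 .nil)))) (.node (.node (.node (.X 1 (.c 48 (.c 8 (.c 40 (.c 32 (.c 16 .nil))))) (.l 4609 .nil)) (.X 1 (.c 48 (.c 32 (.c 8 (.c 0 (.c 21099139 .nil))))) .nil)) (.node (.X 1 (.c 48 (.c 21307459 (.c 24 (.c 0 (.c 16 .nil))))) .nil) (.X 1 (.c 48 (.c 32 (.c 16 (.c 0 (.c 21099075 .nil))))) .nil))) (.node (.node (.X 1 (.c 40 (.c 16 (.c 24 (.c 0 (.c 8 .nil))))) (.b 48 (.b 32 .nil))) (.X 1 (.c 43954691 (.c 32 (.c 16 (.c 8 (.c 24 .nil))))) .nil)) (.node (.X 1 (.c 40 (.c 16 (.c 24 (.c 0 (.c 8 .nil))))) (.b 32 (.b 48 .nil))) (.X 1 (.c 43954819 (.c 0 (.c 24 (.c 8 (.c 32 .nil))))) .nil)))))))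

noncomputable def c2_430 : Tr := (.node (.node (.node (.node (.node (.node (.X 1 (.c 43954819 (.c 0 (.c 32 (.c 8 (.c 24 .nil))))) .nil) (.X 1 (.c 43954819 (.c 24 (.c 32 (.c 0 (.c 8 .nil))))) .nil)) (.node (.X 1 (.c 40 (.c 0 (.c 24 (.c 16 (.c 8 .nil))))) (.b 32 (.b 48 .nil))) (.X 1 (.c 40 (.c 0 (.c 24 (.c 16 (.c 8 .nil))))) (.b 48 (.b 32 .nil))))) (.node (.node (.X 1 (.c 48 (.c 24 (.c 8 (.c 0 (.c 40 .nil))))) (.b 32 (.b 16 .nil))) (.X 1 (.c 43954819 (.c 8 (.c 32 (.c 0 (.c 24 .nil))))) .nil)) (.node (.X 1 (.c 48 (.c 0 (.c 40 (.c 8 (.c 8786563 .nil))))) .nil) (.X 1 (.c 48 (.c 40 (.c 32 (.c 0 (.c 16 .nil))))) (.b 24 (.b 8 .nil)))))) (.node (.node (.node (.X 1 (.c 43954755 (.c 16 (.c 32 (.c 0 (.c 24 .nil))))) .nil) (.X 1 (.c 48 (.c 32 (.c 2803715 (.c 8 (.c 40 .nil))))) .nil)) (.node (.X 1 (.c 40 (.c 16 (.c 32 (.c 8 (.c 48 .nil))))) (.l 4609 .nil)) (.X 1 (.c 48 (.c 0 (.c 8652867 (.c 24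 (.c 40 .nil))))) .nil))) (.node (.node (.X 1 (.c 48 (.c 32 (.c 24 (.c 557571 (.c 40 .nil))))) .nil) (.X 1 (.c 40 (.c 0 (.c 32 (.c 8 (.c 48 .nil))))) (.b 16 (.b 24 .nil)))) (.node (.X 1 (.c 40 (.c 16 (.c 32 (.c 0 (.c 8 .nil))))) (.b 48 (.b 24 .nil))) (.X 1 (.c 48 (.c 0 (.c 21099139 (.c 32 (.c 8 .nil))))) .nil))))) (.node (.node (.node (.node (.X 1 (.c 40 (.c 0 (.c 32 (.c 8 (.c 48 .nil))))) (.b 24 (.b 16 .nil))) (.X 1 (.c 48 (.c 2728451 (.c 32 (.c 16 (.c 40 .nil))))) .nil)) (.node (.X 1 (.c 40 (.c 8 (.c 16 (.c 0 (.c 32 .nil))))) (.b 24 (.b 48 .nil))) (.X 1 (.c 20685315 (.c 24 (.c 32 (.c 16 (.c 48 .nil))))) .nil))) (.node (.node (.X 1 (.c 40 (.c 32 (.c 16 (.c 0 (.c 8 .nil))))) (.b 24 (.b 48 .nil))) (.X 1 (.c 48 (.c 8520195 (.c 24 (.c 16 (.c 40 .nil))))) .nil)) (.node (.X 1 (.c 48 (.c 8520195 (.c 40 (.c 24 (.c 16 .nil))))) .nil) (.X 1 (.c 40 (.c 8786499 (.c 16 (.c 0 (.c 48 .nil)))))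 .nil)))) (.node (.node (.node (.X 1 (.c 48 (.c 40 (.c 16 (.c 0 (.c 8 .nil))))) (.b 24 (.b 32 .nil))) (.X 1 (.c 48 (.c 0 (.c 16 (.c 8 (.c 32 .nil))))) (.b 40 (.b 24 .nil)))) (.node (.X 1 (.c 40 (.c 32 (.c 24 (.c 8 (.c 48 .nil))))) (.l 2049 .nil)) (.X 1 (.c 48 (.c 40 (.c 8786563 (.c 0 (.c 8 .nil))))) .nil))) (.node (.node (.X 1 (.c 48 (.c 16 (.c 40 (.c 0 (.c 8786499 .nil))))) .nil) (.X 1 (.c 48 (.c 16 (.c 40 (.c 8520195 (.c 24 .nil))))) .nil)) (.node (.X 1 (.c 40 (.c 8 (.c 8786435 (.c 16 (.c 48 .nil))))) .nil) (.X 1 (.c 43356739 (.c 40 (.c 16 (.c 0 (.c 32 .nil))))) .nil)))))) (.node (.node (.node (.node (.node (.X 1 (.c 43356739 (.c 40 (.c 32 (.c 0 (.c 16 .nil))))) .nil) (.X 1 (.c 40 (.c 8 (.c 32 (.c 24 (.c 48 .nil))))) (.l 2049 .nil))) (.node (.X 1 (.c 32 (.c 8 (.c 16 (.c 0 (.c 48 .nil))))) (.b 40 (.b 24 .nil))) (.X 1 (.c 48 (.c 16 (.c 8786435 (.c 8 (.c 40 .nil))))) .nil))) (.node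 (.node (.X 1 (.c 48 (.c 32 (.c 8 (.c 0 (.c 16 .nil))))) (.b 40 (.b 24 .nil))) (.X 1 (.c 48 (.c 24 (.c 40 (.c 8 (.c 32 .nil))))) (.l 2049 .nil))) (.node (.X 1 (.c 48 (.c 24 (.c 40 (.c 8 (.c 16 .nil))))) (.l 8193 .nil)) (.X 1 (.c 48 (.c 0 (.c 16 (.c 8 (.c 40 .nil))))) (.b 32 (.b 24 .nil)))))) (.node (.node (.node (.X 1 (.c 48 (.c 32 (.c 8 (.c 0 (.c 16 .nil))))) (.b 24 (.b 40 .nil))) (.X 1 (.c 48 (.c 32 (.c 24 (.c 8 (.c 40 .nil))))) (.l 2049 .nil))) (.node (.X 1 (.c 48 (.c 24 (.c 16 (.c 8 (.c 40 .nil))))) (.l 8193 .nil)) (.X 1 (.c 48 (.c 40 (.c 24 (.c 8 (.c 16 .nil))))) (.l 8193 .nil)))) (.node (.node (.X 1 (.c 21099011 (.c 8 (.c 32 (.c 16 (.c 48 .nil))))) .nil) (.X 1 (.c 24 (.c 8 (.c 16 (.c 0 (.c 48 .nil))))) (.b 40 (.b 32 .nil)))) (.node (.X 1 (.c 40 (.c 32 (.c 24 (.c 0 (.c 48 .nil))))) (.b 8 (.b 16 .nil))) (.X 1 (.c 48 (.c 24 (.c 32 (.c 0 (.c 40 .nil))))) (.b 8 (.b 16 .nil)))))))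 (.node (.node (.node (.node (.X 1 (.c 48 (.c 40 (.c 8 (.c 0 (.c 16 .nil))))) (.b 32 (.b 24 .nil))) (.X 1 (.c 40 (.c 24 (.c 32 (.c 0 (.c 48 .nil))))) (.b 8 (.b 16 .nil)))) (.node (.X 1 (.c 24 (.c 0 (.c 16 (.c 8 (.c 48 .nil))))) (.b 32 (.b 40 .nil))) (.X 1 (.c 48 (.c 40 (.c 8 (.c 0 (.c 16 .nil))))) (.b 24 (.b 32 .nil))))) (.node (.node (.X 1 (.c 40 (.c 32 (.c 24 (.c 0 (.c 48 .nil))))) (.b 16 (.b 8 .nil))) (.X 1 (.c 43356675 (.c 8 (.c 32 (.c 16 (.c 40 .nil))))) .nil)) (.node (.X 1 (.c 43356675 (.c 8 (.c 40 (.c 16 (.c 32 .nil))))) .nil) (.X 1 (.c 48 (.c 16 (.c 8 (.c 0 (.c 40 .nil))))) (.b 32 (.b 24 .nil)))))) (.node (.node (.node (.X 1 (.c 48 (.c 8 (.c 24 (.c 0 (.c 16 .nil))))) (.b 40 (.b 32 .nil))) (.X 1 (.c 48 (.c 16 (.c 8 (.c 0 (.c 24 .nil))))) (.b 32 (.b 40 .nil)))) (.node (.X 1 (.c 43356739 (.c 0 (.c 40 (.c 16 (.c 32 .nil))))) .nil) (.X 1 (.c 48 (.c 24 (.c 16 (.c 0 (.c 8 .nil)))))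 (.b 40 (.b 32 .nil))))) (.node (.node (.X 1 (.c 48 (.c 16 (.c 20685315 (.c 24 (.c 32 .nil))))) .nil) (.X 1 (.c 43059203 (.c 24 (.c 40 (.c 8 (.c 32 .nil))))) .nil)) (.node (.X 1 (.c 40 (.c 32 (.c 16 (.c 8 (.c 24 .nil))))) (.l 18433 .nil)) (.X 1 (.c 43059203 (.c 40 (.c 32 (.c 24 (.c 8 .nil))))) .nil)))))))

noncomputable def c2_431 : Tr := (.node (.node (.node (.node (.node (.node (.X 1 (.c 48 (.c 24 (.c 32 (.c 0 (.c 8 .nil))))) (.b 40 (.b 16 .nil))) (.X 1 (.c 48 (.c 24 (.c 32 (.c 0 (.c 8 .nil))))) (.b 16 (.b 40 .nil)))) (.node (.X 1 (.c 48 (.c 8 (.c 24 (.c 0 (.c 32 .nil))))) (.b 16 (.b 40 .nil))) (.X 1 (.c 48 (.c 24 (.c 8 (.c 0 (.c 32 .nil))))) (.b 16 (.b 40 .nil))))) (.node (.node (.X 1 (.c 40 (.c 8 (.c 32 (.c 24 (.c 16 .nil))))) (.l 18433 .nil)) (.X 1 (.c 48 (.c 0 (.c 32 (.c 8 (.c 24 .nil))))) (.b 16 (.b 40 .nil)))) (.node (.X 1 (.c 32 (.c 24 (.c 8 (.c 0 (.c 48 .nil))))) (.b 16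 (.b 40 .nil))) (.X 1 (.c 32 (.c 24 (.c 8 (.c 0 (.c 48 .nil))))) (.b 40 (.b 16 .nil)))))) (.node (.node (.node (.X 0 (.c 32 (.c 24 (.c 2049 (.c 8 .nil)))) (.b 48 (.b 40 .nil))) (.X 0 (.c 48 (.c 32 (.c 16 (.c 0 .nil)))) (.b 40 (.b 8 (.b 24 .nil))))) (.node (.X 0 (.c 32 (.c 16 (.c 8 (.c 0 .nil)))) (.b 24 (.b 48 (.b 40 .nil)))) (.X 0 (.c 48 (.c 35718473 (.c 32 (.c 24 .nil)))) (.l 0 .nil)))) (.node (.node (.X 0 (.c 48 (.c 40 (.c 8257 (.c 16 .nil)))) (.b 24 (.l 0 .nil))) (.X 0 (.c 48 (.c 32 (.c 24 (.c 0 .nil)))) (.b 20891715 .nil))) (.node (.X 0 (.c 48 (.c 40 (.c 32 (.c 2113 .nil)))) (.l 4609 .nil)) (.X 0 (.c 48 (.c 537002121 (.c 24 (.c 8 .nil)))) (.b 40 .nil)))))) (.node (.node (.node (.node (.X 0 (.c 48 (.c 32 (.c 8 (.c 0 .nil)))) (.b 21099139 .nil)) (.X 0 (.c 43954691 (.c 32 (.c 24 (.c 16 .nil)))) (.b 8 .nil))) (.node (.X 0 (.c 48 (.c 32 (.c 8 (.c 0 .nil)))) (.b 40 (.b 24 (.b 16 .nil))))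 (.X 0 (.c 48 (.c 32 (.c 8 (.c 0 .nil)))) (.b 40 (.b 16 (.b 24 .nil)))))) (.node (.node (.X 0 (.c 48 (.c 32 (.c 24 (.c 16 .nil)))) (.b 40 (.l 8 (.l 0 .nil)))) (.X 0 (.c 15038454533712969 (.c 40 (.c 32 (.c 16 .nil)))) .nil)) (.node (.X 0 (.c 35473026505545 (.c 40 (.c 32 (.c 16 .nil)))) .nil) (.X 0 (.c 32 (.c 16 (.c 8 (.c 0 .nil)))) (.b 48 (.b 24 (.b 40 .nil))))))) (.node (.node (.node (.X 0 (.c 32 (.c 24 (.c 8 (.c 0 .nil)))) (.b 16 (.b 48 (.b 40 .nil)))) (.X 0 (.c 48 (.c 32 (.c 8 (.c 0 .nil)))) (.b 24 (.b 16 (.b 40 .nil))))) (.node (.X 0 (.c 32 (.c 16 (.c 8 (.c 0 .nil)))) (.b 48 (.b 40 (.b 24 .nil)))) (.X 0 (.c 48 (.c 32 (.c 24 (.c 8 .nil)))) (.b 16 (.l 12801 .nil))))) (.node (.node (.X 0 (.c 48 (.c 32 (.c 24 (.c 8 .nil)))) (.b 16 (.b 40 (.l 0 .nil)))) (.X 0 (.c 32 (.c 16 (.c 8 (.c 0 .nil)))) (.b 43954883 .nil))) (.node (.X 0 (.c 48 (.c 32 (.c 24 (.c 8 .nil)))) (.b 40 (.b 16 (.l 0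 .nil)))) (.X 0 (.c 48 (.c 1324065929 (.c 32 (.c 24 .nil)))) (.l 0 .nil))))))) (.node (.node (.node (.node (.node (.X 0 (.c 48 (.c 32 (.c 24 (.c 16 .nil)))) (.l 8 (.l 12801 .nil))) (.X 0 (.c 231046163358603977 (.c 40 (.c 32 (.c 16 .nil)))) .nil)) (.node (.X 0 (.c 48 (.c 32 (.c 24 (.c 8 .nil)))) (.l 20891651 .nil)) (.X 0 (.c 43954819 (.c 32 (.c 24 (.c 0 .nil)))) (.b 8 .nil)))) (.node (.node (.X 0 (.c 15038410136445065 (.c 40 (.c 32 (.c 16 .nil)))) .nil) (.X 0 (.c 32 (.c 16 (.c 8 (.c 0 .nil)))) (.b 40 (.b 24 (.b 48 .nil))))) (.node (.X 0 (.c 32 (.c 16 (.c 8 (.c 0 .nil)))) (.b 40 (.b 48 (.b 24 .nil)))) (.X 0 (.c 48 (.c 32 (.c 24 (.c 8 .nil)))) (.b 40 (.l 2049 .nil)))))) (.node (.node (.node (.X 0 (.c 48 (.c 32 (.c 16 (.c 0 .nil)))) (.b 24 (.b 40 (.b 8 .nil)))) (.X 0 (.c 48 (.c 40 (.c 8652803 (.c 8 .nil)))) (.b 24 .nil))) (.node (.X 0 (.c 48 (.c 40 (.c 33587465 (.c 8 .nil)))) (.b 24 .nil))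 (.X 0 (.c 48 (.c 32 (.c 16 (.c 0 .nil)))) (.b 8 (.b 40 (.b 24 .nil)))))) (.node (.node (.X 0 (.c 32 (.c 4609 (.c 16 (.c 8 .nil)))) (.b 40 (.b 48 .nil))) (.X 0 (.c 48 (.c 40 (.c 32 (.c 557571 .nil)))) (.b 24 .nil))) (.node (.X 0 (.c 32 (.c 24 (.c 16 (.c 0 .nil)))) (.b 48 (.b 40 (.b 8 .nil)))) (.X 0 (.c 18433 (.c 32 (.c 16 (.c 8 .nil)))) (.b 40 (.b 24 .nil))))))) (.node (.node (.node (.node (.X 0 (.c 18433 (.c 40 (.c 32 (.c 16 .nil)))) (.b 24 (.b 8 .nil))) (.X 0 (.c 18497 (.c 40 (.c 32 (.c 16 .nil)))) (.l 4609 .nil))) (.node (.X 0 (.c 48 (.c 32 (.c 24 (.c 0 .nil)))) (.b 8 (.b 16 (.b 40 .nil)))) (.X 0 (.c 48 (.c 32 (.c 24 (.c 0 .nil)))) (.b 8 (.b 40 (.b 16 .nil)))))) (.node (.node (.X 0 (.c 48 (.c 40 (.c 35718409 (.c 24 .nil)))) (.l 0 .nil)) (.X 0 (.c 48 (.c 8193 (.c 16 (.c 8 .nil)))) (.b 24 (.b 40 .nil)))) (.node (.X 0 (.c 43356675 (.c 40 (.c 32 (.c 16 .nil)))) (.b 8 .nil)) (.X 0 (.c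 32 (.c 24 (.c 16 (.c 0 .nil)))) (.b 43954755 .nil))))) (.node (.node (.node (.X 0 (.c 48 (.c 40 (.c 32 (.c 2105481 .nil)))) (.b 24 .nil)) (.X 0 (.c 48 (.c 32 (.c 16 (.c 513 .nil)))) (.b 24 (.b 40 .nil)))) (.node (.X 0 (.c 32 (.c 24 (.c 16 (.c 8 .nil)))) (.b 40 (.b 48 (.l 0 .nil)))) (.X 0 (.c 32 (.c 24 (.c 16 (.c 8 .nil)))) (.b 40 (.l 18433 .nil))))) (.node (.node (.X 0 (.c 9024908047478793 (.c 40 (.c 32 (.c 8 .nil)))) .nil) (.X 0 (.c 231045467270827017 (.c 40 (.c 32 (.c 8 .nil)))) .nil)) (.node (.X 0 (.c 59109065668069837641 (.c 40 (.c 32 (.c 8 .nil)))) .nil) (.X 0 (.c 15038410136445129 (.c 40 (.c 32 (.c 8 .nil)))) .nil)))))))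

noncomputable def c2_432 : Tr := (.node (.node (.node (.node (.node (.node (.X 0 (.c 59109068451510808329 (.c 40 (.c 32 (.c 8 .nil)))) .nil) (.X 0 (.c 15038498931046473 (.c 40 (.c 32 (.c 8 .nil)))) .nil)) (.node (.X 0 (.c 32 (.c 24 (.c 16 (.c 0 .nil)))) (.b 8 (.b 48 (.b 40 .nil)))) (.X 0 (.c 32 (.c 24 (.c 16 (.c 0 .nil)))) (.b 8 (.b 40 (.b 48 .nil)))))) (.node (.node (.X 0 (.c 43356803 (.c 40 (.c 32 (.c 0 .nil)))) (.b 8 .nil)) (.X 0 (.c 48 (.c 40 (.c 545424585 (.c 16 .nil)))) (.l 0 .nil))) (.node (.X 0 (.c 48 (.c 40 (.c 174695689 (.c 16 .nil)))) (.l 0 .nil)) (.X 0 (.c 48 (.c 40 (.c 8786499 (.c 16 .nil)))) (.l 0 .nil))))) (.node (.node (.node (.X 0 (.c 2718204105 (.c 40 (.c 32 (.c 16 .nil)))) (.b 8 .nil)) (.X 0 (.c 2718204169 (.c 40 (.c 24 (.c 16 .nil)))) (.b 8 .nil))) (.node (.X 0 (.c 43655299 (.c 40 (.c 24 (.c 0 .nil)))) (.b 8 .nil)) (.X 0 (.c 43356739 (.c 40 (.c 32 (.c 2049 .nil))))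 .nil))) (.node (.node (.X 0 (.c 48 (.c 32 (.c 24 (.c 0 .nil)))) (.b 40 (.b 8 (.b 16 .nil)))) (.X 0 (.c 48 (.c 32 (.c 4609 (.c 8 .nil)))) (.b 40 (.b 16 .nil)))) (.node (.X 0 (.c 48 (.c 32 (.c 16 (.c 0 .nil)))) (.b 21099075 .nil)) (.X 0 (.c 48 (.c 32 (.c 24 (.c 0 .nil)))) (.b 40 (.b 16 (.b 8 .nil)))))))) (.node (.node (.node (.node (.X 0 (.c 32 (.c 24 (.c 2049 (.c 8 .nil)))) (.b 40 (.b 48 .nil))) (.X 0 (.c 48 (.c 40 (.c 2105609 (.c 16 .nil)))) (.b 24 .nil))) (.node (.X 0 (.c 43655363 (.c 40 (.c 16 (.c 0 .nil)))) (.b 8 .nil)) (.X 0 (.c 48 (.c 32 (.c 16 (.c 0 .nil)))) (.b 40 (.b 24 (.b 8 .nil)))))) (.node (.node (.X 0 (.c 32 (.c 16 (.c 8 (.c 0 .nil)))) (.b 24 (.b 40 (.b 48 .nil)))) (.X 0 (.c 48 (.c 32 (.c 16 (.c 8 .nil)))) (.l 169943369 .nil))) (.node (.X 0 (.c 48 (.c 32 (.c 16 (.c 8 .nil)))) (.l 21099011 .nil)) (.X 0 (.c 32 (.c 24 (.c 16 (.c 8 .nil)))) (.b 48 (.b 40 (.l 0 .nil)))))))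 (.node (.node (.node (.X 0 (.c 2718204041 (.c 40 (.c 32 (.c 24 .nil)))) (.b 8 .nil)) (.X 0 (.c 33587593 (.c 40 (.c 32 (.c 24 .nil)))) (.b 8 .nil))) (.node (.X 0 (.c 48 (.c 32 (.c 24 (.c 0 .nil)))) (.b 16 (.b 40 (.b 8 .nil)))) (.X 0 (.c 48 (.c 12865 (.c 32 (.c 16 .nil)))) (.l 4609 .nil)))) (.node (.node (.X 0 (.c 48 (.c 40 (.c 537002057 (.c 16 .nil)))) (.b 24 .nil)) (.X 0 (.c 32 (.c 24 (.c 8 (.c 0 .nil)))) (.b 48 (.b 16 (.b 40 .nil))))) (.node (.X 0 (.c 24 (.c 16 (.c 8 (.c 0 .nil)))) (.b 48 (.b 32 (.b 40 .nil)))) (.X 0 (.c 43655171 (.c 40 (.c 24 (.c 16 .nil)))) (.b 8 .nil))))))) (.node (.node (.node (.node (.node (.X 0 (.c 32 (.c 24 (.c 16 (.c 8 .nil)))) (.l 1310925193 .nil)) (.X 0 (.c 537002377 (.c 40 (.c 24 (.c 16 .nil)))) (.b 8 .nil))) (.node (.X 0 (.c 32 (.c 24 (.c 16 (.c 8 .nil)))) (.l 2718204233 .nil)) (.X 0 (.c 18433 (.c 40 (.c 8652867 (.c 24 .nil)))) .nil))) (.node (.node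 (.X 0 (.c 48 (.c 12801 (.c 16 (.c 8 .nil)))) (.b 32 (.b 24 .nil))) (.X 0 (.c 48 (.c 40 (.c 2049 (.c 8 .nil)))) (.b 32 (.b 24 .nil)))) (.node (.X 0 (.c 48 (.c 40 (.c 2049 (.c 8 .nil)))) (.b 24 (.b 32 .nil))) (.X 0 (.c 48 (.c 40 (.c 24 (.c 557571 .nil)))) (.b 32 .nil))))) (.node (.node (.node (.X 0 (.c 48 (.c 40 (.c 24 (.c 2105481 .nil)))) (.b 32 .nil)) (.X 0 (.c 48 (.c 40 (.c 16 (.c 8 .nil)))) (.l 8786435 .nil))) (.node (.X 0 (.c 48 (.c 40 (.c 2728451 (.c 16 .nil)))) (.b 32 .nil)) (.X 0 (.c 48 (.c 40 (.c 16 (.c 8 .nil)))) (.b 32 (.l 4609 .nil))))) (.node (.node (.X 0 (.c 48 (.c 40 (.c 16 (.c 8 .nil)))) (.b 32 (.b 24 (.l 0 .nil)))) (.X 0 (.c 18433 (.c 40 (.c 8786499 (.c 16 .nil)))) .nil)) (.node (.X 0 (.c 48 (.c 40 (.c 16 (.c 8 .nil)))) (.b 24 (.l 8193 .nil))) (.X 0 (.c 48 (.c 40 (.c 16 (.c 8 .nil)))) (.b 24 (.b 32 (.l 0 .nil)))))))) (.node (.node (.node (.node (.X 0 (.c 18497 (.c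 40 (.c 24 (.c 16 .nil)))) (.b 32 (.l 0 .nil))) (.X 0 (.c 48 (.c 40 (.c 24 (.c 0 .nil)))) (.b 16 (.b 32 (.b 8 .nil))))) (.node (.X 0 (.c 48 (.c 20891715 (.c 8193 (.c 24 .nil)))) .nil) (.X 0 (.c 48 (.c 20891715 (.c 32 (.c 4609 .nil)))) .nil))) (.node (.node (.X 0 (.c 48 (.c 21307587 (.c 16 (.c 513 .nil)))) .nil) (.X 0 (.c 48 (.c 3561346121425225 (.c 16 (.c 8 .nil)))) .nil)) (.node (.X 0 (.c 48 (.c 231045989336561545 (.c 16 (.c 8 .nil)))) .nil) (.X 0 (.c 48 (.c 13748196208362033993 (.c 16 (.c 8 .nil)))) .nil)))) (.node (.node (.node (.X 0 (.c 48 (.c 12801 (.c 32 (.c 2803779 .nil)))) .nil) (.X 0 (.c 48 (.c 40 (.c 8 (.c 0 .nil)))) (.b 24 (.b 32 (.b 16 .nil))))) (.node (.X 0 (.c 48 (.c 33587529 (.c 24 (.c 8 .nil)))) (.b 32 .nil)) (.X 0 (.c 48 (.c 12801 (.c 8652867 (.c 24 .nil)))) .nil))) (.node (.node (.X 0 (.c 48 (.c 40 (.c 8 (.c 0 .nil)))) (.b 16 (.b 24 (.b 32 .nil)))) (.X 0 (.c 48 (.c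 20891715 (.c 24 (.c 0 .nil)))) (.b 32 .nil))) (.node (.X 0 (.c 18433 (.c 21307523 (.c 24 (.c 8 .nil)))) .nil) (.X 0 (.c 48 (.c 20891651 (.c 24 (.c 8 .nil)))) (.b 32 .nil))))))))

noncomputable def c2_433 : Tr := (.node (.node (.node (.node (.node (.node (.X 0 (.c 18433 (.c 21307587 (.c 16 (.c 8 .nil)))) .nil) (.X 0 (.c 48 (.c 169943369 (.c 16 (.c 8 .nil)))) (.b 32 .nil))) (.node (.X 0 (.c 48 (.c 1310925001 (.c 16 (.c 8 .nil)))) (.b 32 .nil)) (.X 0 (.c 43655235 (.c 24 (.c 16 (.c 0 .nil)))) (.b 40 .nil)))) (.node (.node (.X 0 (.c 48 (.c 21099075 (.c 16 (.c 0 .nil)))) (.b 32 .nil)) (.X 0 (.c 48 (.c 21099139 (.c 8 (.c 0 .nil)))) (.b 32 .nil))) (.node (.X 0 (.c 43655171 (.c 24 (.c 16 (.c 8 .nil)))) (.b 40 .nil)) (.X 0 (.c 48 (.c 40 (.c 33587401 (.c 8 .nil)))) (.b 32 .nil))))) (.node (.node (.node (.X 0 (.c 48 (.c 40 (.c 169943177 (.c 8 .nil)))) (.b 32 .nil)) (.X 0 (.c 48 (.c 40 (.c 16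 (.c 0 .nil)))) (.b 32 (.b 24 (.b 8 .nil))))) (.node (.X 0 (.c 48 (.c 40 (.c 16 (.c 0 .nil)))) (.b 24 (.b 32 (.b 8 .nil)))) (.X 0 (.c 48 (.c 40 (.c 16 (.c 0 .nil)))) (.b 8 (.b 24 (.b 32 .nil)))))) (.node (.node (.X 0 (.c 48 (.c 12801 (.c 8786563 (.c 8 .nil)))) .nil) (.X 0 (.c 48 (.c 1310924873 (.c 24 (.c 16 .nil)))) (.b 32 .nil))) (.node (.X 0 (.c 48 (.c 40 (.c 8 (.c 0 .nil)))) (.b 8786563 .nil)) (.X 0 (.c 48 (.c 12801 (.c 8786499 (.c 16 .nil)))) .nil))))) (.node (.node (.node (.node (.X 0 (.c 18433 (.c 21099139 (.c 32 (.c 8 .nil)))) .nil) (.X 0 (.c 48 (.c 21099075 (.c 32 (.c 2049 .nil)))) .nil)) (.node (.X 0 (.c 48 (.c 3561346121425097 (.c 32 (.c 8 .nil)))) .nil) (.X 0 (.c 48 (.c 231045989336561417 (.c 32 (.c 8 .nil)))) .nil))) (.node (.node (.X 0 (.c 48 (.c 40 (.c 24 (.c 16 .nil)))) (.l 8520195 .nil)) (.X 0 (.c 48 (.c 40 (.c 24 (.c 16 .nil)))) (.l 2105609 .nil))) (.node (.X 0 (.c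 48 (.c 40 (.c 24 (.c 2049 .nil)))) (.b 8 (.b 32 .nil))) (.X 0 (.c 18433 (.c 40 (.c 24 (.c 8 .nil)))) (.b 32 (.b 16 .nil)))))) (.node (.node (.node (.X 0 (.c 18433 (.c 40 (.c 24 (.c 8 .nil)))) (.b 16 (.b 32 .nil))) (.X 0 (.c 48 (.c 12801 (.c 24 (.c 8 .nil)))) (.b 32 (.b 16 .nil)))) (.node (.X 0 (.c 18433 (.c 40 (.c 24 (.c 16 .nil)))) (.b 32 (.b 8 .nil))) (.X 0 (.c 48 (.c 40 (.c 4609 (.c 8 .nil)))) (.b 32 (.b 16 .nil))))) (.node (.node (.X 0 (.c 48 (.c 40 (.c 4609 (.c 8 .nil)))) (.b 16 (.b 32 .nil))) (.X 0 (.c 48 (.c 21307459 (.c 24 (.c 2049 .nil)))) .nil)) (.node (.X 0 (.c 48 (.c 231045293249046473 (.c 32 (.c 16 .nil)))) .nil) (.X 0 (.c 48 (.c 40 (.c 24 (.c 16 .nil)))) (.b 32 (.l 8 (.l 0 .nil))))))))) (.node (.node (.node (.node (.node (.X 0 (.c 48 (.c 21099139 (.c 32 (.c 513 .nil)))) .nil) (.X 0 (.c 48 (.c 40 (.c 24 (.c 16 .nil)))) (.l 8 (.l 8193 .nil)))) (.node (.X 0 (.c 48 (.c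 40 (.c 24 (.c 16 .nil)))) (.b 32 (.l 513 .nil))) (.X 0 (.c 48 (.c 13748194865974800073 (.c 32 (.c 16 .nil)))) .nil))) (.node (.node (.X 0 (.c 48 (.c 231045989336561353 (.c 32 (.c 16 .nil)))) .nil) (.X 0 (.c 48 (.c 13748192181200529225 (.c 32 (.c 16 .nil)))) .nil)) (.node (.X 0 (.c 48 (.c 35470870263625 (.c 32 (.c 16 .nil)))) .nil) (.X 0 (.c 48 (.c 3423058053193993 (.c 32 (.c 16 .nil)))) .nil)))) (.node (.node (.node (.X 0 (.c 48 (.c 40 (.c 24 (.c 513 .nil)))) (.b 32 (.b 16 .nil))) (.X 0 (.c 48 (.c 3561367726845001 (.c 32 (.c 16 .nil)))) .nil)) (.node (.X 0 (.c 48 (.c 62886542410121 (.c 32 (.c 8 .nil)))) .nil) (.X 0 (.c 48 (.c 9024908047478729 (.c 32 (.c 8 .nil)))) .nil))) (.node (.node (.X 0 (.c 48 (.c 9024976834606921 (.c 32 (.c 8 .nil)))) .nil) (.X 0 (.c 48 (.c 9024976834606793 (.c 32 (.c 24 .nil)))) .nil)) (.node (.X 0 (.c 48 (.c 13748192181200529161 (.c 32 (.c 24 .nil)))) .nil)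 (.X 0 (.c 48 (.c 35464401931209 (.c 32 (.c 24 .nil)))) .nil))))) (.node (.node (.node (.node (.X 0 (.c 48 (.c 3491710045129801 (.c 32 (.c 24 .nil)))) .nil) (.X 0 (.c 48 (.c 40 (.c 4673 (.c 16 .nil)))) (.b 32 (.l 0 .nil)))) (.node (.X 0 (.c 48 (.c 3632084291164233 (.c 24 (.c 8 .nil)))) .nil) (.X 0 (.c 48 (.c 2306970223667989449 (.c 24 (.c 8 .nil)))) .nil))) (.node (.node (.X 0 (.c 48 (.c 3491688652046665 (.c 24 (.c 8 .nil)))) .nil) (.X 0 (.c 48 (.c 2306971873338799881 (.c 24 (.c 8 .nil)))) .nil)) (.node (.X 0 (.c 48 (.c 13748196208362033929 (.c 24 (.c 8 .nil)))) .nil) (.X 0 (.c 48 (.c 21307459 (.c 4609 (.c 16 .nil)))) .nil)))) (.node (.node (.node (.X 0 (.c 48 (.c 40 (.c 24 (.c 8 .nil)))) (.l 537002121 .nil)) (.X 0 (.c 48 (.c 40 (.c 24 (.c 8 .nil)))) (.l 33587465 .nil))) (.node (.X 0 (.c 48 (.c 40 (.c 24 (.c 8 .nil)))) (.b 32 (.l 2049 .nil))) (.X 0 (.c 48 (.c 40 (.c 24 (.c 8 .nil))))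 (.b 32 (.b 16 (.l 0 .nil)))))) (.node (.node (.X 0 (.c 48 (.c 40 (.c 2306970773558193929 (.c 8 .nil)))) .nil) (.X 0 (.c 48 (.c 3423058053194057 (.c 24 (.c 16 .nil)))) .nil)) (.node (.X 0 (.c 48 (.c 35470870263689 (.c 24 (.c 16 .nil)))) .nil) (.X 0 (.c 48 (.c 2306971873338799817 (.c 24 (.c 16 .nil)))) .nil)))))))

noncomputable def c2_434 : Tr := (.node (.node (.node (.node (.node (.node (.X 0 (.c 48 (.c 13748196208362033865 (.c 24 (.c 16 .nil)))) .nil) (.X 0 (.c 48 (.c 40 (.c 8193 (.c 8 .nil)))) (.b 16 (.b 24 .nil)))) (.node (.X 0 (.c 48 (.c 40 (.c 32 (.c 8 .nil)))) (.l 2803715 .nil)) (.X 0 (.c 48 (.c 40 (.c 32 (.c 8 .nil)))) (.l 33587401 .nil)))) (.node (.node (.X 0 (.c 48 (.c 40 (.c 32 (.c 8 .nil)))) (.l 169943177 .nil)) (.X 0 (.c 43356803 (.c 40 (.c 32 (.c 8 .nil)))) (.l 0 .nil))) (.node (.X 0 (.c 48 (.c 40 (.c 32 (.c 513 .nil)))) (.b 24 (.b 16 .nil))) (.X 0 (.c 2737112265 (.c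 40 (.c 32 (.c 16 .nil)))) (.l 0 .nil))))) (.node (.node (.node (.X 0 (.c 174695817 (.c 40 (.c 32 (.c 16 .nil)))) (.l 0 .nil)) (.X 0 (.c 48 (.c 12801 (.c 32 (.c 8 .nil)))) (.b 16 (.b 24 .nil)))) (.node (.X 0 (.c 48 (.c 12801 (.c 32 (.c 8 .nil)))) (.b 24 (.b 16 .nil))) (.X 0 (.c 35718537 (.c 40 (.c 32 (.c 24 .nil)))) (.l 0 .nil)))) (.node (.node (.X 0 (.c 43059267 (.c 40 (.c 32 (.c 24 .nil)))) (.l 0 .nil)) (.X 0 (.c 48 (.c 40 (.c 32 (.c 0 .nil)))) (.b 24 (.b 8 (.b 16 .nil))))) (.node (.X 0 (.c 48 (.c 32 (.c 33587401 (.c 8 .nil)))) (.b 40 .nil)) (.X 0 (.c 48 (.c 32 (.c 169943113 (.c 16 .nil)))) (.b 40 .nil)))))) (.node (.node (.node (.node (.X 0 (.c 48 (.c 40 (.c 32 (.c 0 .nil)))) (.b 16 (.b 8 (.b 24 .nil)))) (.X 0 (.c 48 (.c 32 (.c 24 (.c 33587273 .nil)))) (.b 40 .nil))) (.node (.X 0 (.c 48 (.c 32 (.c 24 (.c 2105481 .nil)))) (.b 40 .nil)) (.X 0 (.c 48 (.c 40 (.c 32 (.c 0 .nil)))) (.b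 24 (.b 16 (.b 8 .nil)))))) (.node (.node (.X 0 (.c 48 (.c 40 (.c 32 (.c 0 .nil)))) (.b 2803779 .nil)) (.X 0 (.c 48 (.c 40 (.c 32 (.c 8 .nil)))) (.b 24 (.b 16 (.l 0 .nil))))) (.node (.X 0 (.c 48 (.c 21099139 (.c 32 (.c 8 .nil)))) (.l 0 .nil)) (.X 0 (.c 48 (.c 1324066057 (.c 24 (.c 16 .nil)))) (.l 0 .nil))))) (.node (.node (.node (.X 0 (.c 48 (.c 40 (.c 32 (.c 16 .nil)))) (.l 2728451 .nil)) (.X 0 (.c 48 (.c 545424713 (.c 24 (.c 16 .nil)))) (.l 0 .nil))) (.node (.X 0 (.c 48 (.c 21307459 (.c 24 (.c 16 .nil)))) (.l 0 .nil)) (.X 0 (.c 48 (.c 40 (.c 32 (.c 16 .nil)))) (.l 169943113 .nil)))) (.node (.node (.X 0 (.c 48 (.c 8193 (.c 24 (.c 16 .nil)))) (.b 8 (.b 40 .nil))) (.X 0 (.c 48 (.c 40 (.c 32 (.c 2049 .nil)))) (.b 24 (.b 8 .nil)))) (.node (.X 0 (.c 48 (.c 40 (.c 8193 (.c 16 .nil)))) (.b 8 (.b 24 .nil))) (.X 0 (.c 48 (.c 40 (.c 8193 (.c 16 .nil)))) (.b 24 (.b 8 .nil)))))))) (.node (.node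 (.node (.node (.node (.X 0 (.c 48 (.c 32 (.c 4609 (.c 16 .nil)))) (.b 40 (.b 8 .nil))) (.X 0 (.c 48 (.c 32 (.c 4609 (.c 16 .nil)))) (.b 8 (.b 40 .nil)))) (.node (.X 0 (.c 48 (.c 1324065993 (.c 32 (.c 16 .nil)))) (.l 0 .nil)) (.X 0 (.c 48 (.c 32 (.c 24 (.c 2049 .nil)))) (.b 8 (.b 40 .nil))))) (.node (.node (.X 0 (.c 48 (.c 32 (.c 24 (.c 16 .nil)))) (.l 1310924873 .nil)) (.X 0 (.c 48 (.c 32 (.c 24 (.c 16 .nil)))) (.l 2105673 .nil))) (.node (.X 0 (.c 14832803796618313 (.c 40 (.c 32 (.c 24 .nil)))) .nil) (.X 0 (.c 48 (.c 32 (.c 24 (.c 2113 .nil)))) (.l 12801 .nil))))) (.node (.node (.node (.X 0 (.c 43059267 (.c 40 (.c 8193 (.c 24 .nil)))) .nil) (.X 0 (.c 48 (.c 21307587 (.c 16 (.c 8 .nil)))) (.l 0 .nil))) (.node (.X 0 (.c 48 (.c 40 (.c 32 (.c 16 .nil)))) (.b 24 (.l 8 (.l 0 .nil)))) (.X 0 (.c 2487083360713 (.c 40 (.c 32 (.c 24 .nil)))) .nil))) (.node (.node (.X 0 (.c 9024839260612617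 (.c 40 (.c 32 (.c 24 .nil)))) .nil) (.X 0 (.c 14629225721520329 (.c 40 (.c 32 (.c 24 .nil)))) .nil)) (.node (.X 0 (.c 35473026505481 (.c 40 (.c 32 (.c 24 .nil)))) .nil) (.X 0 (.c 59109062884628932361 (.c 40 (.c 32 (.c 24 .nil)))) .nil))))) (.node (.node (.node (.node (.X 0 (.c 9025011228269257 (.c 40 (.c 32 (.c 24 .nil)))) .nil) (.X 0 (.c 18433 (.c 32 (.c 24 (.c 16 .nil)))) (.b 8 (.b 40 .nil)))) (.node (.X 0 (.c 48 (.c 40 (.c 59555558875465 (.c 16 .nil)))) .nil) (.X 0 (.c 48 (.c 40 (.c 617620517416009 (.c 16 .nil)))) .nil))) (.node (.node (.X 0 (.c 43059267 (.c 32 (.c 24 (.c 0 .nil)))) (.b 40 .nil)) (.X 0 (.c 42762755 (.c 40 (.c 24 (.c 16 .nil)))) (.b 32 .nil))) (.node (.X 0 (.c 2718203977 (.c 40 (.c 24 (.c 16 .nil)))) (.b 32 .nil)) (.X 0 (.c 33587593 (.c 32 (.c 24 (.c 8 .nil)))) (.b 40 .nil))))) (.node (.node (.node (.X 0 (.c 43059203 (.c 32 (.c 24 (.c 8 .nil)))) (.b 40 .nil)) (.X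 0 (.c 42762755 (.c 32 (.c 24 (.c 16 .nil)))) (.b 40 .nil))) (.node (.X 0 (.c 48 (.c 40 (.c 598967998054537 (.c 24 .nil)))) .nil) (.X 0 (.c 48 (.c 40 (.c 2306969673777850121 (.c 24 .nil)))) .nil))) (.node (.node (.X 0 (.c 48 (.c 40 (.c 580749782704329 (.c 24 .nil)))) .nil) (.X 0 (.c 48 (.c 40 (.c 598976858557513 (.c 24 .nil)))) .nil)) (.node (.X 0 (.c 48 (.c 40 (.c 231045815314584329 (.c 8 .nil)))) .nil) (.X 0 (.c 48 (.c 40 (.c 9024942441009993 (.c 8 .nil)))) .nil)))))))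

noncomputable def c2_435 : Tr := (.node (.node (.node (.node (.node (.node (.X 0 (.c 48 (.c 40 (.c 598967998054665 (.c 8 .nil)))) .nil) (.X 0 (.c 48 (.c 40 (.c 617629514823753 (.c 8 .nil)))) .nil)) (.node (.X 0 (.c 48 (.c 40 (.c 8786563 (.c 513 .nil)))) .nil) (.X 0 (.c 43356803 (.c 32 (.c 8 (.c 0 .nil)))) (.b 40 .nil)))) (.node (.node (.X 0 (.c 43356739 (.c 32 (.c 16 (.c 0 .nil)))) (.b 40 .nil)) (.X 0 (.c 48 (.c 40 (.c 2306969673777850185 (.c 16 .nil)))) .nil)) (.node (.X 0 (.c 48 (.c 40 (.c 35468714087241 (.c 16 .nil)))) .nil) (.X 0 (.c 2718204105 (.c 32 (.c 16 (.c 8 .nil)))) (.b 40 .nil))))) (.node (.node (.node (.X 0 (.c 48 (.c 40 (.c 32 (.c 2487083360521 .nil)))) .nil) (.X 0 (.c 48 (.c 8652803 (.c 24 (.c 8 .nil)))) (.b 40 .nil))) (.node (.X 0 (.c 48 (.c 8520195 (.c 24 (.c 16 .nil)))) (.b 40 .nil)) (.X 0 (.c 43954947 (.c 24 (.c 16 (.c 8 .nil)))) (.l 0 .nil)))) (.node (.node (.X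 0 (.c 43954819 (.c 24 (.c 8 (.c 0 .nil)))) (.b 32 .nil)) (.X 0 (.c 2737112393 (.c 32 (.c 24 (.c 16 .nil)))) (.l 0 .nil))) (.node (.X 0 (.c 1324066185 (.c 32 (.c 24 (.c 16 .nil)))) (.l 0 .nil)) (.X 0 (.c 43954755 (.c 32 (.c 24 (.c 16 .nil)))) (.l 0 .nil)))))) (.node (.node (.node (.node (.X 0 (.c 33587593 (.c 40 (.c 24 (.c 8 .nil)))) (.b 32 .nil)) (.X 0 (.c 48 (.c 40 (.c 8652867 (.c 4609 .nil)))) .nil)) (.node (.X 0 (.c 48 (.c 169943305 (.c 16 (.c 8 .nil)))) (.b 40 .nil)) (.X 0 (.c 48 (.c 32 (.c 24 (.c 16 .nil)))) (.l 12865 (.l 0 .nil))))) (.node (.node (.X 0 (.c 48 (.c 40 (.c 32 (.c 62886542409865 .nil)))) .nil) (.X 0 (.c 48 (.c 40 (.c 32 (.c 231045293249046281 .nil)))) .nil)) (.node (.X 0 (.c 48 (.c 40 (.c 32 (.c 59555558875337 .nil)))) .nil) (.X 0 (.c 40 (.c 32 (.c 24 (.c 8 .nil)))) (.l 33587593 .nil))))) (.node (.node (.node (.X 0 (.c 20891715 (.c 32 (.c 24 (.c 0 .nil)))) (.b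 48 .nil)) (.X 0 (.c 48 (.c 21099011 (.c 32 (.c 16 .nil)))) (.b 8 .nil))) (.node (.X 0 (.c 48 (.c 169943369 (.c 32 (.c 16 .nil)))) (.b 8 .nil)) (.X 0 (.c 40 (.c 24 (.c 16 (.c 0 .nil)))) (.b 48 (.b 32 (.b 8 .nil)))))) (.node (.node (.X 0 (.c 40 (.c 32 (.c 24 (.c 8 .nil)))) (.b 16 (.l 18433 .nil))) (.X 0 (.c 1310924937 (.c 32 (.c 24 (.c 8 .nil)))) (.b 48 .nil))) (.node (.X 0 (.c 33587529 (.c 32 (.c 24 (.c 8 .nil)))) (.b 48 .nil)) (.X 0 (.c 40 (.c 32 (.c 8 (.c 0 .nil)))) (.b 16 (.b 24 (.b 48 .nil))))))))) (.node (.node (.node (.node (.node (.X 0 (.c 42762755 (.c 40 (.c 32 (.c 24 .nil)))) (.b 16 .nil)) (.X 0 (.c 40 (.c 32 (.c 24 (.c 8 .nil)))) (.l 2718204041 .nil))) (.node (.X 0 (.c 40 (.c 32 (.c 24 (.c 16 .nil)))) (.l 18497 (.l 0 .nil))) (.X 0 (.c 48 (.c 537002313 (.c 16 (.c 8 .nil)))) (.b 24 .nil)))) (.node (.node (.X 0 (.c 48 (.c 24 (.c 2049 (.c 8 .nil)))) (.b 40 (.b 32 .nil))) (.X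 0 (.c 43356675 (.c 40 (.c 32 (.c 8 .nil)))) (.b 16 .nil))) (.node (.X 0 (.c 2306970223667989513 (.c 40 (.c 24 (.c 8 .nil)))) .nil) (.X 0 (.c 14832759703961929 (.c 40 (.c 24 (.c 8 .nil)))) .nil)))) (.node (.node (.node (.X 0 (.c 40 (.c 32 (.c 16 (.c 8 .nil)))) (.b 24 (.l 18433 .nil))) (.X 0 (.c 40 (.c 16 (.c 8 (.c 0 .nil)))) (.b 48 (.b 32 (.b 24 .nil))))) (.node (.X 0 (.c 48 (.c 21307395 (.c 16 (.c 8 .nil)))) (.b 24 .nil)) (.X 0 (.c 48 (.c 40 (.c 32 (.c 169943177 .nil)))) (.b 8 .nil)))) (.node (.node (.X 0 (.c 43655299 (.c 12801 (.c 24 (.c 8 .nil)))) .nil) (.X 0 (.c 48 (.c 21099011 (.c 32 (.c 8 .nil)))) (.b 16 .nil))) (.node (.X 0 (.c 40 (.c 16 (.c 8 (.c 0 .nil)))) (.b 24 (.b 48 (.b 32 .nil)))) (.X 0 (.c 42762755 (.c 40 (.c 32 (.c 16 .nil)))) (.b 24 .nil)))))) (.node (.node (.node (.node (.X 0 (.c 40 (.c 32 (.c 2049 (.c 8 .nil)))) (.b 24 (.b 48 .nil))) (.X 0 (.c 40 (.c 32 (.c 24 (.c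 513 .nil)))) (.b 16 (.b 48 .nil)))) (.node (.X 0 (.c 43954691 (.c 32 (.c 16 (.c 8 .nil)))) (.b 24 .nil)) (.X 0 (.c 2718204105 (.c 40 (.c 32 (.c 8 .nil)))) (.b 16 .nil)))) (.node (.node (.X 0 (.c 48 (.c 16 (.c 8 (.c 0 .nil)))) (.b 32 (.b 40 (.b 24 .nil)))) (.X 0 (.c 48 (.c 1310925001 (.c 32 (.c 8 .nil)))) (.b 16 .nil))) (.node (.X 0 (.c 40 (.c 24 (.c 16 (.c 0 .nil)))) (.b 48 (.b 8 (.b 32 .nil)))) (.X 0 (.c 40 (.c 32 (.c 24 (.c 2049 .nil)))) (.b 8 (.b 48 .nil)))))) (.node (.node (.node (.X 0 (.c 43954819 (.c 8193 (.c 24 (.c 8 .nil)))) .nil) (.X 0 (.c 15038410136445321 (.c 32 (.c 16 (.c 8 .nil)))) .nil)) (.node (.X 0 (.c 40 (.c 32 (.c 16 (.c 513 .nil)))) (.b 24 (.b 48 .nil))) (.X 0 (.c 48 (.c 40 (.c 32 (.c 4609 .nil)))) (.b 8 (.b 16 .nil))))) (.node (.node (.X 0 (.c 48 (.c 40 (.c 8257 (.c 24 .nil)))) (.l 2049 .nil)) (.X 0 (.c 48 (.c 21099139 (.c 32 (.c 0 .nil)))) (.b 8 .nil))) (.node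 (.X 0 (.c 40 (.c 24 (.c 16 (.c 0 .nil)))) (.b 32 (.b 8 (.b 48 .nil)))) (.X 0 (.c 21099075 (.c 32 (.c 16 (.c 0 .nil)))) (.b 48 .nil))))))))

noncomputable def c2_436 : Tr := (.node (.node (.node (.node (.node (.node (.X 0 (.c 48 (.c 40 (.c 8193 (.c 24 .nil)))) (.b 16 (.b 8 .nil))) (.X 0 (.c 12865 (.c 32 (.c 24 (.c 16 .nil)))) (.b 48 (.l 0 .nil)))) (.node (.X 0 (.c 48 (.c 24 (.c 16 (.c 8 .nil)))) (.l 537002313 .nil)) (.X 0 (.c 48 (.c 40 (.c 169943305 (.c 16 .nil)))) (.b 8 .nil)))) (.node (.node (.X 0 (.c 40 (.c 32 (.c 16 (.c 0 .nil)))) (.b 24 (.b 48 (.b 8 .nil)))) (.X 0 (.c 40 (.c 24 (.c 8 (.c 0 .nil)))) (.b 16 (.b 48 (.b 32 .nil))))) (.node (.X 0 (.c 48 (.c 24 (.c 16 (.c 0 .nil)))) (.b 21307459 .nil)) (.X 0 (.c 48 (.c 40 (.c 8786435 (.c 16 .nil)))) (.b 8 .nil))))) (.node (.node (.node (.X 0 (.c 48 (.c 21307395 (.c 24 (.c 8 .nil)))) (.b 16 .nil)) (.X 0 (.c 40 (.c 32 (.c 16 (.c 0 .nil))))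 (.b 8 (.b 48 (.b 24 .nil))))) (.node (.X 0 (.c 15456118887243977 (.c 32 (.c 24 (.c 8 .nil)))) .nil) (.X 0 (.c 59109065668069837769 (.c 32 (.c 24 (.c 8 .nil)))) .nil))) (.node (.node (.X 0 (.c 48 (.c 537002313 (.c 24 (.c 8 .nil)))) (.b 16 .nil)) (.X 0 (.c 48 (.c 20891651 (.c 32 (.c 24 .nil)))) (.b 8 .nil))) (.node (.X 0 (.c 48 (.c 40 (.c 8321 (.c 24 .nil)))) (.l 8 (.l 0 .nil))) (.X 0 (.c 3491688652046793 (.c 32 (.c 24 (.c 8 .nil)))) .nil))))) (.node (.node (.node (.node (.X 0 (.c 12865 (.c 32 (.c 24 (.c 16 .nil)))) (.l 18433 .nil)) (.X 0 (.c 48 (.c 21307523 (.c 8 (.c 0 .nil)))) (.b 24 .nil))) (.node (.X 0 (.c 3561346121425353 (.c 32 (.c 16 (.c 8 .nil)))) .nil) (.X 0 (.c 15456253916349513 (.c 32 (.c 16 (.c 8 .nil)))) .nil))) (.node (.node (.X 0 (.c 40 (.c 8520195 (.c 24 (.c 16 .nil)))) (.b 48 .nil)) (.X 0 (.c 2306972423229201097 (.c 40 (.c 24 (.c 16 .nil)))) .nil)) (.node (.X 0 (.c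 48 (.c 40 (.c 8652803 (.c 24 .nil)))) (.b 8 .nil)) (.X 0 (.c 40 (.c 2105609 (.c 24 (.c 16 .nil)))) (.b 48 .nil))))) (.node (.node (.node (.X 0 (.c 43954883 (.c 32 (.c 2049 (.c 8 .nil)))) .nil) (.X 0 (.c 43655235 (.c 12801 (.c 24 (.c 16 .nil)))) .nil)) (.node (.X 0 (.c 40 (.c 32 (.c 24 (.c 16 .nil)))) (.b 48 (.l 8 (.l 0 .nil)))) (.X 0 (.c 48 (.c 1310925065 (.c 16 (.c 8 .nil)))) (.b 24 .nil)))) (.node (.node (.X 0 (.c 59109071234951844553 (.c 40 (.c 24 (.c 16 .nil)))) .nil) (.X 0 (.c 43954947 (.c 4609 (.c 16 (.c 8 .nil)))) .nil)) (.node (.X 0 (.c 40 (.c 537002057 (.c 24 (.c 16 .nil)))) (.b 48 .nil)) (.X 0 (.c 40 (.c 16 (.c 8 (.c 0 .nil)))) (.b 43655363 .nil))))))) (.node (.node (.node (.node (.node (.X 0 (.c 40 (.c 24 (.c 16 (.c 0 .nil)))) (.b 32 (.b 48 (.b 8 .nil)))) (.X 0 (.c 48 (.c 40 (.c 32 (.c 4737 .nil)))) (.l 513 .nil))) (.node (.X 0 (.c 48 (.c 40 (.c 32 (.c 4737 .nil)))) (.l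 8 (.l 0 .nil))) (.X 0 (.c 43954947 (.c 24 (.c 2049 (.c 8 .nil)))) .nil))) (.node (.node (.X 0 (.c 40 (.c 32 (.c 24 (.c 16 .nil)))) (.l 8 (.l 18433 .nil))) (.X 0 (.c 48 (.c 40 (.c 8321 (.c 24 .nil)))) (.l 513 .nil))) (.node (.X 0 (.c 48 (.c 1310924937 (.c 32 (.c 24 .nil)))) (.b 8 .nil)) (.X 0 (.c 40 (.c 32 (.c 24 (.c 8 .nil)))) (.l 43059203 .nil))))) (.node (.node (.node (.X 0 (.c 43655363 (.c 12801 (.c 16 (.c 8 .nil)))) .nil) (.X 0 (.c 48 (.c 21307523 (.c 24 (.c 0 .nil)))) (.b 8 .nil))) (.node (.X 0 (.c 40 (.c 8786435 (.c 16 (.c 8 .nil)))) (.b 48 .nil)) (.X 0 (.c 48 (.c 40 (.c 32 (.c 2105545 .nil)))) (.b 16 .nil)))) (.node (.node (.X 0 (.c 48 (.c 40 (.c 32 (.c 169943113 .nil)))) (.b 16 .nil)) (.X 0 (.c 40 (.c 32 (.c 4609 (.c 8 .nil)))) (.b 48 (.b 16 .nil)))) (.node (.X 0 (.c 48 (.c 40 (.c 8786499 (.c 0 .nil)))) (.b 16 .nil)) (.X 0 (.c 43655363 (.c 40 (.c 8 (.c 0 .nil)))) (.b 16 .nil))))))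 (.node (.node (.node (.node (.X 0 (.c 48 (.c 40 (.c 32 (.c 24 .nil)))) (.l 16 (.l 513 .nil))) (.X 0 (.c 15246325749294153 (.c 40 (.c 16 (.c 8 .nil)))) .nil)) (.node (.X 0 (.c 15456163896880201 (.c 32 (.c 24 (.c 16 .nil)))) .nil) (.X 0 (.c 12801 (.c 32 (.c 16 (.c 8 .nil)))) (.b 48 (.b 24 .nil))))) (.node (.node (.X 0 (.c 2306970773558194185 (.c 40 (.c 16 (.c 8 .nil)))) .nil) (.X 0 (.c 40 (.c 32 (.c 24 (.c 0 .nil)))) (.b 43059267 .nil))) (.node (.X 0 (.c 43954947 (.c 16 (.c 8 (.c 0 .nil)))) (.b 24 .nil)) (.X 0 (.c 617611520074185 (.c 40 (.c 16 (.c 8 .nil)))) .nil)))) (.node (.node (.node (.X 0 (.c 15456118887244041 (.c 32 (.c 16 (.c 8 .nil)))) .nil) (.X 0 (.c 40 (.c 32 (.c 24 (.c 513 .nil)))) (.b 48 (.b 16 .nil)))) (.node (.X 0 (.c 40 (.c 32 (.c 24 (.c 2113 .nil)))) (.l 18433 .nil)) (.X 0 (.c 48 (.c 12929 (.c 32 (.c 24 .nil)))) (.l 8 (.l 0 .nil))))) (.node (.node (.X 0 (.c 59109074018392946505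 (.c 32 (.c 16 (.c 8 .nil)))) .nil) (.X 0 (.c 40 (.c 32 (.c 4609 (.c 8 .nil)))) (.b 16 (.b 48 .nil)))) (.node (.X 0 (.c 40 (.c 24 (.c 16 (.c 8 .nil)))) (.l 537002377 .nil)) (.X 0 (.c 48 (.c 12801 (.c 32 (.c 24 .nil)))) (.b 8 (.b 16 .nil)))))))))

noncomputable def c2_437 : Tr := (.node (.node (.node (.node (.node (.node (.X 0 (.c 43954755 (.c 8193 (.c 24 (.c 16 .nil)))) .nil) (.X 0 (.c 43655171 (.c 40 (.c 24 (.c 8 .nil)))) (.b 16 .nil))) (.node (.X 0 (.c 40 (.c 24 (.c 16 (.c 513 .nil)))) (.b 32 (.b 48 .nil))) (.X 0 (.c 2718204169 (.c 40 (.c 24 (.c 8 .nil)))) (.b 16 .nil)))) (.node (.node (.X 0 (.c 43954883 (.c 8193 (.c 16 (.c 8 .nil)))) .nil) (.X 0 (.c 40 (.c 32 (.c 24 (.c 0 .nil)))) (.b 8 (.b 16 (.b 48 .nil))))) (.node (.X 0 (.c 43954755 (.c 32 (.c 4609 (.c 16 .nil)))) .nil) (.X 0 (.c 48 (.c 12929 (.c 32 (.c 24 .nil)))) (.l 513 .nil))))) (.node (.node (.node (.X 0 (.c 1310925065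 (.c 24 (.c 16 (.c 8 .nil)))) (.b 48 .nil)) (.X 0 (.c 2306972423229201353 (.c 24 (.c 16 (.c 8 .nil)))) .nil)) (.node (.X 0 (.c 43655171 (.c 40 (.c 16 (.c 8 .nil)))) (.b 24 .nil)) (.X 0 (.c 15246191640314249 (.c 24 (.c 16 (.c 8 .nil)))) .nil))) (.node (.node (.X 0 (.c 43954755 (.c 32 (.c 24 (.c 0 .nil)))) (.b 16 .nil)) (.X 0 (.c 13748198893136698249 (.c 24 (.c 16 (.c 8 .nil)))) .nil)) (.node (.X 0 (.c 48 (.c 40 (.c 32 (.c 24 .nil)))) (.l 33587273 .nil)) (.X 0 (.c 3423058053194185 (.c 32 (.c 24 (.c 16 .nil)))) .nil))))) (.node (.node (.node (.node (.X 0 (.c 48 (.c 40 (.c 32 (.c 24 .nil)))) (.l 2105481 .nil)) (.X 0 (.c 59109068451510808457 (.c 40 (.c 16 (.c 8 .nil)))) .nil)) (.node (.X 0 (.c 13748198893136698057 (.c 32 (.c 24 (.c 16 .nil)))) .nil) (.X 0 (.c 15456118887243913 (.c 32 (.c 24 (.c 16 .nil)))) .nil))) (.node (.node (.X 2 (.c 48 (.c 40 (.c 8786499 (.c 0 (.c 16 .nil))))) .nil)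 (.X 2 (.c 48 (.c 16 (.c 24 (.c 8 (.c 40 .nil))))) (.l 8193 .nil))) (.node (.X 2 (.c 48 (.c 16 (.c 21099075 (.c 0 (.c 32 .nil))))) .nil) (.X 2 (.c 48 (.c 32 (.c 16 (.c 8 (.c 24 .nil))))) (.l 12801 .nil))))) (.node (.node (.node (.X 2 (.c 40 (.c 24 (.c 32 (.c 16 (.c 48 .nil))))) (.l 513 .nil)) (.X 2 (.c 40 (.c 16 (.c 32 (.c 24 (.c 48 .nil))))) (.l 513 .nil))) (.node (.X 2 (.c 43059267 (.c 32 (.c 40 (.c 0 (.c 24 .nil))))) .nil) (.X 2 (.c 48 (.c 16 (.c 21099011 (.c 32 (.c 8 .nil))))) .nil))) (.node (.node (.X 2 (.c 43059267 (.c 24 (.c 40 (.c 0 (.c 32 .nil))))) .nil) (.X 2 (.c 48 (.c 24 (.c 32 (.c 16 (.c 40 .nil))))) (.l 513 .nil))) (.node (.X 2 (.c 40 (.c 8652803 (.c 24 (.c 8 (.c 48 .nil))))) .nil) (.X 2 (.c 40 (.c 8 (.c 24 (.c 16 (.c 32 .nil))))) (.l 18433 .nil))))))) (.node (.node (.node (.node (.node (.X 2 (.c 48 (.c 24 (.c 32 (.c 8 (.c 16 .nil))))) (.l 12801 .nil)) (.X 2 (.c 40 (.c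 8786435 (.c 16 (.c 8 (.c 48 .nil))))) .nil)) (.node (.X 2 (.c 40 (.c 8786499 (.c 16 (.c 0 (.c 48 .nil))))) .nil) (.X 2 (.c 43059203 (.c 8 (.c 32 (.c 24 (.c 40 .nil))))) .nil))) (.node (.node (.X 2 (.c 48 (.c 16 (.c 40 (.c 8 (.c 24 .nil))))) (.l 8193 .nil)) (.X 2 (.c 48 (.c 40 (.c 24 (.c 8 (.c 16 .nil))))) (.l 8193 .nil))) (.node (.X 2 (.c 43059203 (.c 40 (.c 32 (.c 24 (.c 8 .nil))))) .nil) (.X 2 (.c 48 (.c 21099075 (.c 16 (.c 0 (.c 32 .nil))))) .nil)))) (.node (.node (.node (.X 2 (.c 48 (.c 0 (.c 20891715 (.c 24 (.c 32 .nil))))) .nil) (.X 2 (.c 40 (.c 24 (.c 32 (.c 8 (.c 48 .nil))))) (.l 2049 .nil))) (.node (.X 2 (.c 40 (.c 8 (.c 32 (.c 24 (.c 48 .nil))))) (.l 2049 .nil)) (.X 2 (.c 48 (.c 8 (.c 21307395 (.c 24 (.c 16 .nil))))) .nil))) (.node (.node (.X 2 (.c 48 (.c 0 (.c 20891715 (.c 32 (.c 24 .nil))))) .nil) (.X 2 (.c 48 (.c 21099075 (.c 32 (.c 0 (.c 16 .nil))))) .nil)) (.node (.X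 2 (.c 48 (.c 0 (.c 21099075 (.c 32 (.c 16 .nil))))) .nil) (.X 2 (.c 48 (.c 0 (.c 21099139 (.c 8 (.c 32 .nil))))) .nil))))) (.node (.node (.node (.node (.X 2 (.c 48 (.c 0 (.c 21099139 (.c 32 (.c 8 .nil))))) .nil) (.X 2 (.c 48 (.c 0 (.c 40 (.c 8786499 (.c 16 .nil))))) .nil)) (.node (.X 2 (.c 48 (.c 20891715 (.c 32 (.c 0 (.c 24 .nil))))) .nil) (.X 2 (.c 48 (.c 16 (.c 24 (.c 0 (.c 21307459 .nil))))) .nil))) (.node (.node (.X 2 (.c 48 (.c 21099139 (.c 32 (.c 0 (.c 8 .nil))))) .nil) (.X 2 (.c 48 (.c 8 (.c 40 (.c 8786435 (.c 16 .nil))))) .nil)) (.node (.X 2 (.c 48 (.c 8 (.c 8652803 (.c 24 (.c 40 .nil))))) .nil) (.X 2 (.c 48 (.c 8 (.c 8786435 (.c 16 (.c 40 .nil))))) .nil)))) (.node (.node (.node (.X 2 (.c 48 (.c 21307395 (.c 16 (.c 8 (.c 24 .nil))))) .nil) (.X 2 (.c 48 (.c 8 (.c 8786563 (.c 0 (.c 40 .nil))))) .nil)) (.node (.X 2 (.c 48 (.c 21307395 (.c 24 (.c 16 (.c 8 .nil))))) .nil) (.X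 2 (.c 48 (.c 0 (.c 21307523 (.c 24 (.c 8 .nil))))) .nil))) (.node (.node (.X 2 (.c 48 (.c 8 (.c 21099011 (.c 32 (.c 16 .nil))))) .nil) (.X 2 (.c 48 (.c 0 (.c 21307587 (.c 16 (.c 8 .nil))))) .nil)) (.node (.X 2 (.c 48 (.c 8 (.c 24 (.c 0 (.c 21307523 .nil))))) .nil) (.X 2 (.c 48 (.c 21307523 (.c 24 (.c 0 (.c 8 .nil))))) .nil)))))))

noncomputable def c2_438 : Tr := (.node (.node (.node (.node (.node (.node (.X 2 (.c 48 (.c 16 (.c 40 (.c 2728451 (.c 32 .nil))))) .nil) (.X 2 (.c 48 (.c 16 (.c 40 (.c 0 (.c 8786499 .nil))))) .nil)) (.node (.X 2 (.c 20891715 (.c 24 (.c 32 (.c 0 (.c 48 .nil))))) .nil) (.X 2 (.c 20891651 (.c 24 (.c 32 (.c 8 (.c 48 .nil))))) .nil))) (.node (.node (.X 2 (.c 48 (.c 16 (.c 40 (.c 8520195 (.c 24 .nil))))) .nil) (.X 2 (.c 48 (.c 0 (.c 8786563 (.c 8 (.c 40 .nil))))) .nil)) (.node (.X 2 (.c 48 (.c 16 (.c 8520195 (.c 24 (.c 40 .nil))))) .nil) (.X 2 (.c 48 (.c 20891651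 (.c 32 (.c 8 (.c 24 .nil))))) .nil)))) (.node (.node (.node (.X 2 (.c 48 (.c 0 (.c 8786499 (.c 16 (.c 40 .nil))))) .nil) (.X 2 (.c 43954883 (.c 32 (.c 8 (.c 0 (.c 16 .nil))))) .nil)) (.node (.X 2 (.c 43954883 (.c 16 (.c 8 (.c 0 (.c 32 .nil))))) .nil) (.X 2 (.c 43655171 (.c 16 (.c 40 (.c 8 (.c 24 .nil))))) .nil))) (.node (.node (.X 2 (.c 43655171 (.c 16 (.c 24 (.c 8 (.c 40 .nil))))) .nil) (.X 2 (.c 43655171 (.c 8 (.c 40 (.c 24 (.c 16 .nil))))) .nil)) (.node (.X 2 (.c 40 (.c 16 (.c 24 (.c 0 (.c 43655235 .nil))))) .nil) (.X 2 (.c 43954947 (.c 8 (.c 16 (.c 0 (.c 24 .nil))))) .nil))))) (.node (.node (.node (.node (.X 2 (.c 43954819 (.c 24 (.c 8 (.c 0 (.c 32 .nil))))) .nil) (.X 2 (.c 40 (.c 8 (.c 16 (.c 0 (.c 43655363 .nil))))) .nil)) (.node (.X 2 (.c 40 (.c 8 (.c 24 (.c 0 (.c 43655299 .nil))))) .nil) (.X 2 (.c 43954819 (.c 32 (.c 8 (.c 0 (.c 24 .nil))))) .nil))) (.node (.node (.X 2 (.c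 40 (.c 557571 (.c 32 (.c 24 (.c 48 .nil))))) .nil) (.X 2 (.c 48 (.c 40 (.c 2728451 (.c 16 (.c 32 .nil))))) .nil)) (.node (.X 2 (.c 40 (.c 24 (.c 16 (.c 0 (.c 43655235 .nil))))) .nil) (.X 2 (.c 48 (.c 24 (.c 8652803 (.c 8 (.c 40 .nil))))) .nil)))) (.node (.node (.node (.X 2 (.c 40 (.c 16 (.c 32 (.c 2728451 (.c 48 .nil))))) .nil) (.X 2 (.c 48 (.c 40 (.c 32 (.c 8 (.c 16 .nil))))) (.l 4609 .nil))) (.node (.X 2 (.c 43954691 (.c 8 (.c 24 (.c 16 (.c 32 .nil))))) .nil) (.X 2 (.c 43954691 (.c 8 (.c 32 (.c 16 (.c 24 .nil))))) .nil))) (.node (.node (.X 2 (.c 43954691 (.c 16 (.c 24 (.c 8 (.c 32 .nil))))) .nil) (.X 2 (.c 43954691 (.c 16 (.c 32 (.c 8 (.c 24 .nil))))) .nil)) (.node (.X 2 (.c 43655363 (.c 0 (.c 40 (.c 8 (.c 16 .nil))))) .nil) (.X 2 (.c 43954755 (.c 24 (.c 16 (.c 0 (.c 32 .nil))))) .nil)))))) (.node (.node (.node (.node (.node (.X 2 (.c 43954755 (.c 32 (.c 16 (.c 0 (.c 24 .nil)))))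 .nil) (.X 2 (.c 40 (.c 0 (.c 32 (.c 16 (.c 43356739 .nil))))) .nil)) (.node (.X 2 (.c 40 (.c 8 (.c 32 (.c 16 (.c 48 .nil))))) (.l 4609 .nil)) (.X 2 (.c 48 (.c 557571 (.c 32 (.c 24 (.c 40 .nil))))) .nil))) (.node (.node (.X 2 (.c 48 (.c 8 (.c 40 (.c 32 (.c 16 .nil))))) (.l 4609 .nil)) (.X 2 (.c 43356675 (.c 32 (.c 40 (.c 16 (.c 8 .nil))))) .nil)) (.node (.X 2 (.c 43356675 (.c 8 (.c 40 (.c 16 (.c 32 .nil))))) .nil) (.X 1 (.c 48 (.c 4609 (.c 32 (.c 16 (.c 40 .nil))))) (.b 8 .nil))))) (.node (.node (.node (.X 1 (.c 18433 (.c 40 (.c 32 (.c 8 (.c 16 .nil))))) (.b 24 .nil)) (.X 3 (.c 16 (.c 0 (.c 40 (.c 32 (.c 8 .nil))))) (.b 24 (.b 48 .nil)))) (.node (.X 1 (.c 48 (.c 32 (.c 2049 (.c 8 (.c 40 .nil))))) (.b 24 .nil)) (.X 1 (.c 48 (.c 8 (.c 40 (.c 2049 (.c 24 .nil))))) (.b 32 .nil)))) (.node (.node (.X 1 (.c 48 (.c 40 (.c 16 (.c 513 (.c 24 .nil))))) (.b 32 .nil)) (.X 1 (.c 40 (.c 24 (.c 16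 (.c 513 (.c 32 .nil))))) (.b 48 .nil))) (.node (.X 1 (.c 48 (.c 40 (.c 2049 (.c 8 (.c 24 .nil))))) (.b 32 .nil)) (.X 3 (.c 8 (.c 0 (.c 40 (.c 32 (.c 16 .nil))))) (.b 48 (.b 24 .nil))))))) (.node (.node (.node (.node (.X 1 (.c 18433 (.c 16 (.c 40 (.c 32 (.c 8 .nil))))) (.b 24 .nil)) (.X 1 (.c 40 (.c 16 (.c 8193 (.c 8 (.c 24 .nil))))) (.b 48 .nil))) (.node (.X 1 (.c 48 (.c 8 (.c 40 (.c 4609 (.c 32 .nil))))) (.b 16 .nil)) (.X 1 (.c 40 (.c 16 (.c 8193 (.c 24 (.c 8 .nil))))) (.b 48 .nil)))) (.node (.node (.X 1 (.c 40 (.c 8 (.c 32 (.c 4609 (.c 16 .nil))))) (.b 48 .nil)) (.X 1 (.c 48 (.c 16 (.c 12801 (.c 24 (.c 8 .nil))))) (.b 32 .nil))) (.node (.X 1 (.c 40 (.c 8 (.c 8193 (.c 24 (.c 16 .nil))))) (.b 48 .nil)) (.X 1 (.c 18433 (.c 32 (.c 40 (.c 8 (.c 16 .nil))))) (.b 24 .nil))))) (.node (.node (.node (.X 1 (.c 40 (.c 16 (.c 32 (.c 4609 (.c 8 .nil))))) (.b 48 .nil)) (.X 3 (.c 8 (.c 0 (.c 32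 (.c 24 (.c 16 .nil))))) (.b 48 (.b 40 .nil)))) (.node (.X 1 (.c 48 (.c 16 (.c 40 (.c 513 (.c 24 .nil))))) (.b 32 .nil)) (.X 3 (.c 24 (.c 0 (.c 32 (.c 16 (.c 8 .nil))))) (.b 40 (.b 48 .nil))))) (.node (.node (.X 1 (.c 48 (.c 16 (.c 12801 (.c 32 (.c 8 .nil))))) (.b 24 .nil)) (.X 1 (.c 18433 (.c 24 (.c 40 (.c 8 (.c 16 .nil))))) (.b 32 .nil))) (.node (.X 1 (.c 40 (.c 16 (.c 4609 (.c 8 (.c 32 .nil))))) (.b 48 .nil)) (.X 1 (.c 18433 (.c 8 (.c 24 (.c 16 (.c 40 .nil))))) (.b 32 .nil))))))))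

noncomputable def c2_439 : Tr := (.node (.node (.node (.node (.node (.node (.X 1 (.c 40 (.c 2049 (.c 24 (.c 8 (.c 32 .nil))))) (.b 48 .nil)) (.X 1 (.c 48 (.c 8 (.c 12801 (.c 16 (.c 24 .nil))))) (.b 32 .nil))) (.node (.X 3 (.c 40 (.c 8 (.c 48 (.c 32 (.c 24 .nil))))) (.l 2049 .nil)) (.X 1 (.c 48 (.c 2049 (.c 32 (.c 8 (.c 40 .nil))))) (.b 24 .nil)))) (.node (.node (.X 1 (.c 40 (.c 16 (.c 32 (.c 513 (.c 24 .nil))))) (.b 48 .nil)) (.X 3 (.c 48 (.c 0 (.c 40 (.c 32 (.c 16 .nil))))) (.b 8 (.b 24 .nil)))) (.node (.X 1 (.c 40 (.c 2049 (.c 32 (.c 24 (.c 8 .nil))))) (.b 48 .nil)) (.X 3 (.c 40 (.c 0 (.c 32 (.c 24 (.c 8 .nil))))) (.b 48 (.b 16 .nil)))))) (.node (.node (.node (.X 3 (.c 16 (.c 0 (.c 40 (.c 32 (.c 8 .nil))))) (.b 48 (.b 24 .nil))) (.X 1 (.c 40 (.c 513 (.c 32 (.c 16 (.c 24 .nil))))) (.b 48 .nil))) (.node (.X 1 (.c 48 (.c 16 (.c 4609 (.c 8 (.c 40 .nil))))) (.b 32 .nil)) (.X 3 (.c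 8 (.c 0 (.c 40 (.c 32 (.c 16 .nil))))) (.b 24 (.b 48 .nil))))) (.node (.node (.X 3 (.c 48 (.c 0 (.c 40 (.c 32 (.c 16 .nil))))) (.b 24 (.b 8 .nil))) (.X 3 (.c 40 (.c 0 (.c 48 (.c 32 (.c 16 .nil))))) (.b 24 (.b 8 .nil)))) (.node (.X 3 (.c 40 (.c 0 (.c 32 (.c 24 (.c 8 .nil))))) (.b 16 (.b 48 .nil))) (.X 1 (.c 48 (.c 16 (.c 12801 (.c 8 (.c 32 .nil))))) (.b 24 .nil)))))) (.node (.node (.node (.node (.X 1 (.c 40 (.c 2049 (.c 24 (.c 8 (.c 48 .nil))))) (.b 32 .nil)) (.X 1 (.c 18497 (.c 24 (.c 32 (.c 16 (.c 40 .nil))))) (.l 0 .nil))) (.node (.X 1 (.c 40 (.c 32 (.c 4609 (.c 16 (.c 8 .nil))))) (.b 48 .nil)) (.X 1 (.c 18497 (.c 24 (.c 40 (.c 16 (.c 32 .nil))))) (.l 0 .nil)))) (.node (.node (.X 3 (.c 48 (.c 0 (.c 40 (.c 32 (.c 24 .nil))))) (.b 16 (.b 8 .nil))) (.X 1 (.c 32 (.c 24 (.c 2049 (.c 8 (.c 40 .nil))))) (.b 48 .nil))) (.node (.X 3 (.c 24 (.c 0 (.c 40 (.c 16 (.c 8 .nil))))) (.b 48 (.b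 32 .nil))) (.X 3 (.c 48 (.c 0 (.c 40 (.c 32 (.c 24 .nil))))) (.b 8 (.b 16 .nil)))))) (.node (.node (.node (.X 1 (.c 40 (.c 32 (.c 24 (.c 2049 (.c 8 .nil))))) (.b 48 .nil)) (.X 3 (.c 32 (.c 0 (.c 48 (.c 40 (.c 8 .nil))))) (.b 24 (.b 16 .nil)))) (.node (.X 3 (.c 48 (.c 0 (.c 40 (.c 32 (.c 8 .nil))))) (.b 16 (.b 24 .nil))) (.X 3 (.c 8 (.c 0 (.c 48 (.c 40 (.c 32 .nil))))) (.b 16 (.b 24 .nil))))) (.node (.node (.X 1 (.c 18497 (.c 16 (.c 40 (.c 32 (.c 24 .nil))))) (.l 0 .nil)) (.X 3 (.c 48 (.c 0 (.c 40 (.c 32 (.c 8 .nil))))) (.b 24 (.b 16 .nil)))) (.node (.X 1 (.c 48 (.c 40 (.c 32 (.c 513 (.c 16 .nil))))) (.b 24 .nil)) (.X 1 (.c 32 (.c 16 (.c 24 (.c 513 (.c 40 .nil))))) (.b 48 .nil))))))) (.node (.node (.node (.node (.node (.X 1 (.c 48 (.c 40 (.c 8193 (.c 8 (.c 16 .nil))))) (.b 24 .nil)) (.X 1 (.c 48 (.c 40 (.c 8193 (.c 16 (.c 8 .nil))))) (.b 24 .nil))) (.node (.X 1 (.c 48 (.c 40 (.c 16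 (.c 513 (.c 32 .nil))))) (.b 24 .nil)) (.X 1 (.c 48 (.c 40 (.c 2049 (.c 8 (.c 32 .nil))))) (.b 24 .nil)))) (.node (.node (.X 1 (.c 48 (.c 12801 (.c 32 (.c 16 (.c 8 .nil))))) (.b 24 .nil)) (.X 3 (.c 16 (.c 0 (.c 40 (.c 24 (.c 8 .nil))))) (.b 32 (.b 48 .nil)))) (.node (.X 3 (.c 40 (.c 8 (.c 48 (.c 32 (.c 16 .nil))))) (.l 4609 .nil)) (.X 3 (.c 40 (.c 0 (.c 48 (.c 32 (.c 8 .nil))))) (.b 16 (.b 24 .nil)))))) (.node (.node (.node (.X 1 (.c 40 (.c 8193 (.c 24 (.c 8 (.c 48 .nil))))) (.b 16 .nil)) (.X 3 (.c 48 (.c 8 (.c 40 (.c 32 (.c 24 .nil))))) (.l 2049 .nil))) (.node (.X 3 (.c 24 (.c 0 (.c 48 (.c 40 (.c 32 .nil))))) (.b 8 (.b 16 .nil))) (.X 3 (.c 32 (.c 0 (.c 24 (.c 16 (.c 8 .nil))))) (.b 48 (.b 40 .nil))))) (.node (.node (.X 1 (.c 12801 (.c 24 (.c 32 (.c 8 (.c 48 .nil))))) (.b 16 .nil)) (.X 3 (.c 16 (.c 8 (.c 48 (.c 40 (.c 32 .nil))))) (.l 4609 .nil))) (.node (.X 3 (.c 8 (.c 0 (.c 40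 (.c 24 (.c 16 .nil))))) (.b 48 (.b 32 .nil))) (.X 3 (.c 32 (.c 0 (.c 40 (.c 16 (.c 8 .nil))))) (.b 48 (.b 24 .nil))))))) (.node (.node (.node (.node (.X 3 (.c 32 (.c 0 (.c 48 (.c 40 (.c 24 .nil))))) (.b 16 (.b 8 .nil))) (.X 1 (.c 18433 (.c 8 (.c 40 (.c 24 (.c 32 .nil))))) (.b 16 .nil))) (.node (.X 3 (.c 20685315 (.c 24 (.c 48 (.c 32 (.c 16 .nil))))) .nil) (.X 1 (.c 12801 (.c 16 (.c 32 (.c 24 (.c 48 .nil))))) (.b 8 .nil)))) (.node (.node (.X 1 (.c 18433 (.c 24 (.c 40 (.c 8 (.c 32 .nil))))) (.b 16 .nil)) (.X 3 (.c 32 (.c 0 (.c 48 (.c 24 (.c 16 .nil))))) (.b 40 (.b 8 .nil)))) (.node (.X 3 (.c 8 (.c 0 (.c 48 (.c 40 (.c 24 .nil))))) (.b 16 (.b 32 .nil))) (.X 1 (.c 8193 (.c 24 (.c 16 (.c 8 (.c 48 .nil))))) (.b 40 .nil))))) (.node (.node (.node (.X 3 (.c 32 (.c 0 (.c 48 (.c 24 (.c 16 .nil))))) (.b 8 (.b 40 .nil))) (.X 3 (.c 48 (.c 0 (.c 21099139 (.c 32 (.c 8 .nil))))) .nil)) (.node (.X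 3 (.c 32 (.c 2728451 (.c 48 (.c 40 (.c 16 .nil))))) .nil) (.X 3 (.c 48 (.c 0 (.c 21099075 (.c 32 (.c 16 .nil))))) .nil))) (.node (.node (.X 1 (.c 48 (.c 8 (.c 32 (.c 4609 (.c 16 .nil))))) (.b 40 .nil)) (.X 3 (.c 16 (.c 0 (.c 43954755 (.c 32 (.c 24 .nil))))) .nil)) (.node (.X 1 (.c 48 (.c 8 (.c 4609 (.c 16 (.c 32 .nil))))) (.b 40 .nil)) (.X 3 (.c 48 (.c 0 (.c 20891715 (.c 32 (.c 24 .nil))))) .nil)))))))

noncomputable def c2_440 : Tr := (.node (.node (.node (.node (.node (.node (.X 1 (.c 48 (.c 12801 (.c 32 (.c 24 (.c 8 .nil))))) (.b 16 .nil)) (.X 3 (.c 21307587 (.c 0 (.c 48 (.c 16 (.c 8 .nil))))) .nil)) (.node (.X 3 (.c 43059203 (.c 24 (.c 40 (.c 32 (.c 8 .nil))))) .nil) (.X 1 (.c 48 (.c 12801 (.c 32 (.c 8 (.c 24 .nil))))) (.b 16 .nil)))) (.node (.node (.X 3 (.c 24 (.c 0 (.c 48 (.c 40 (.c 8652867 .nil))))) .nil) (.X 3 (.c 8652867 (.c 0 (.c 48 (.c 40 (.c 24 .nil))))) .nil)) (.node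 (.X 3 (.c 8786435 (.c 8 (.c 48 (.c 40 (.c 16 .nil))))) .nil) (.X 3 (.c 24 (.c 0 (.c 48 (.c 20891715 (.c 32 .nil))))) .nil)))) (.node (.node (.node (.X 3 (.c 43059203 (.c 32 (.c 40 (.c 24 (.c 8 .nil))))) .nil) (.X 3 (.c 43059203 (.c 40 (.c 32 (.c 24 (.c 8 .nil))))) .nil)) (.node (.X 3 (.c 43059203 (.c 8 (.c 40 (.c 32 (.c 24 .nil))))) .nil) (.X 3 (.c 48 (.c 0 (.c 40 (.c 24 (.c 8 .nil))))) (.b 16 (.b 32 .nil))))) (.node (.node (.X 3 (.c 24 (.c 0 (.c 48 (.c 32 (.c 16 .nil))))) (.b 40 (.b 8 .nil))) (.X 3 (.c 24 (.c 0 (.c 48 (.c 21307523 (.c 8 .nil))))) .nil)) (.node (.X 3 (.c 48 (.c 0 (.c 40 (.c 24 (.c 8 .nil))))) (.b 32 (.b 16 .nil))) (.X 3 (.c 8786435 (.c 16 (.c 48 (.c 40 (.c 8 .nil))))) .nil))))) (.node (.node (.node (.node (.X 3 (.c 24 (.c 0 (.c 48 (.c 40 (.c 8 .nil))))) (.b 16 (.b 32 .nil))) (.X 3 (.c 8652803 (.c 8 (.c 48 (.c 40 (.c 24 .nil))))) .nil)) (.node (.X 1 (.c 32 (.c 4609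 (.c 16 (.c 8 (.c 48 .nil))))) (.b 40 .nil)) (.X 3 (.c 42762755 (.c 24 (.c 40 (.c 32 (.c 16 .nil))))) .nil))) (.node (.node (.X 3 (.c 32 (.c 0 (.c 43059267 (.c 40 (.c 24 .nil))))) .nil) (.X 1 (.c 48 (.c 513 (.c 24 (.c 16 (.c 32 .nil))))) (.b 40 .nil))) (.node (.X 1 (.c 32 (.c 24 (.c 2049 (.c 8 (.c 48 .nil))))) (.b 40 .nil)) (.X 1 (.c 32 (.c 24 (.c 16 (.c 513 (.c 48 .nil))))) (.b 40 .nil))))) (.node (.node (.node (.X 3 (.c 42762755 (.c 32 (.c 40 (.c 24 (.c 16 .nil))))) .nil) (.X 1 (.c 32 (.c 2049 (.c 24 (.c 8 (.c 48 .nil))))) (.b 40 .nil))) (.node (.X 1 (.c 32 (.c 16 (.c 24 (.c 513 (.c 48 .nil))))) (.b 40 .nil)) (.X 3 (.c 48 (.c 2803715 (.c 40 (.c 32 (.c 8 .nil))))) .nil))) (.node (.node (.X 1 (.c 48 (.c 8193 (.c 24 (.c 16 (.c 40 .nil))))) (.b 8 .nil)) (.X 3 (.c 8 (.c 0 (.c 48 (.c 21099139 (.c 32 .nil))))) .nil)) (.node (.X 1 (.c 18433 (.c 32 (.c 24 (.c 16 (.c 40 .nil))))) (.b 8 .nil))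 (.X 1 (.c 18433 (.c 32 (.c 40 (.c 16 (.c 24 .nil))))) (.b 8 .nil))))))) (.node (.node (.node (.node (.node (.X 1 (.c 48 (.c 40 (.c 8193 (.c 24 (.c 16 .nil))))) (.b 8 .nil)) (.X 3 (.c 8 (.c 0 (.c 48 (.c 21307523 (.c 24 .nil))))) .nil)) (.node (.X 3 (.c 20891651 (.c 24 (.c 48 (.c 32 (.c 8 .nil))))) .nil) (.X 1 (.c 48 (.c 32 (.c 12801 (.c 24 (.c 16 .nil))))) (.b 8 .nil)))) (.node (.node (.X 3 (.c 8 (.c 0 (.c 48 (.c 24 (.c 16 .nil))))) (.b 32 (.b 40 .nil))) (.X 1 (.c 48 (.c 32 (.c 24 (.c 513 (.c 16 .nil))))) (.b 40 .nil))) (.node (.X 1 (.c 48 (.c 8193 (.c 40 (.c 24 (.c 16 .nil))))) (.b 8 .nil)) (.X 3 (.c 24 (.c 8 (.c 48 (.c 32 (.c 16 .nil))))) (.l 12801 .nil))))) (.node (.node (.node (.X 3 (.c 48 (.c 557571 (.c 40 (.c 32 (.c 24 .nil))))) .nil) (.X 3 (.c 21099011 (.c 16 (.c 48 (.c 32 (.c 8 .nil))))) .nil)) (.node (.X 3 (.c 32 (.c 0 (.c 43356803 (.c 40 (.c 8 .nil))))) .nil) (.X 3 (.c 48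 (.c 0 (.c 21307523 (.c 24 (.c 8 .nil))))) .nil))) (.node (.node (.X 3 (.c 8 (.c 0 (.c 48 (.c 32 (.c 16 .nil))))) (.b 40 (.b 24 .nil))) (.X 3 (.c 16 (.c 0 (.c 48 (.c 21307587 (.c 8 .nil))))) .nil)) (.node (.X 3 (.c 40 (.c 0 (.c 48 (.c 16 (.c 8 .nil))))) (.b 24 (.b 32 .nil))) (.X 3 (.c 16 (.c 0 (.c 43655235 (.c 40 (.c 24 .nil))))) .nil))))) (.node (.node (.node (.node (.X 3 (.c 48 (.c 0 (.c 24 (.c 16 (.c 8 .nil))))) (.b 32 (.b 40 .nil))) (.X 3 (.c 48 (.c 0 (.c 21307459 (.c 24 (.c 16 .nil))))) .nil)) (.node (.X 3 (.c 8 (.c 0 (.c 43655299 (.c 40 (.c 24 .nil))))) .nil) (.X 3 (.c 20891651 (.c 8 (.c 48 (.c 32 (.c 24 .nil))))) .nil))) (.node (.node (.X 3 (.c 8 (.c 0 (.c 43954947 (.c 24 (.c 16 .nil))))) .nil) (.X 3 (.c 8 (.c 0 (.c 48 (.c 40 (.c 16 .nil))))) (.b 24 (.b 32 .nil)))) (.node (.X 3 (.c 48 (.c 0 (.c 32 (.c 24 (.c 16 .nil))))) (.b 40 (.b 8 .nil))) (.X 3 (.c 48 (.c 21099011 (.c 32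 (.c 16 (.c 8 .nil))))) .nil)))) (.node (.node (.node (.X 3 (.c 16 (.c 0 (.c 48 (.c 21099075 (.c 32 .nil))))) .nil) (.X 3 (.c 16 (.c 0 (.c 48 (.c 40 (.c 8 .nil))))) (.b 24 (.b 32 .nil)))) (.node (.X 3 (.c 48 (.c 21307395 (.c 24 (.c 16 (.c 8 .nil))))) .nil) (.X 3 (.c 48 (.c 0 (.c 32 (.c 24 (.c 16 .nil))))) (.b 8 (.b 40 .nil))))) (.node (.node (.X 3 (.c 43954755 (.c 0 (.c 32 (.c 24 (.c 16 .nil))))) .nil) (.X 3 (.c 48 (.c 8 (.c 40 (.c 24 (.c 16 .nil))))) (.l 8193 .nil))) (.node (.X 3 (.c 43954883 (.c 0 (.c 32 (.c 16 (.c 8 .nil))))) .nil) (.X 3 (.c 32 (.c 0 (.c 48 (.c 24 (.c 8 .nil))))) (.b 40 (.b 16 .nil)))))))))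

noncomputable def c2_441 : Tr := (.node (.node (.node (.node (.node (.node (.X 3 (.c 32 (.c 0 (.c 48 (.c 24 (.c 8 .nil))))) (.b 16 (.b 40 .nil))) (.X 3 (.c 24 (.c 0 (.c 48 (.c 16 (.c 8 .nil))))) (.b 40 (.b 32 .nil)))) (.node (.X 3 (.c 43954691 (.c 8 (.c 32 (.c 24 (.c 16 .nil))))) .nil) (.X 3 (.c 43954691 (.c 24 (.c 32 (.c 16 (.c 8 .nil))))) .nil))) (.node (.node (.X 3 (.c 43954691 (.c 32 (.c 24 (.c 16 (.c 8 .nil))))) .nil) (.X 3 (.c 21307395 (.c 16 (.c 48 (.c 24 (.c 8 .nil))))) .nil)) (.node (.X 3 (.c 16 (.c 0 (.c 40 (.c 32 (.c 24 .nil))))) (.b 8 (.b 48 .nil))) (.X 3 (.c 40 (.c 8520195 (.c 48 (.c 24 (.c 16 .nil))))) .nil)))) (.node (.node (.node (.X 3 (.c 2803715 (.c 8 (.c 48 (.c 40 (.c 32 .nil))))) .nil) (.X 3 (.c 24 (.c 557571 (.c 48 (.c 40 (.c 32 .nil))))) .nil)) (.node (.X 3 (.c 21307395 (.c 8 (.c 48 (.c 24 (.c 16 .nil))))) .nil) (.X 3 (.c 2728451 (.c 16 (.c 48 (.c 40 (.c 32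 .nil))))) .nil))) (.node (.node (.X 3 (.c 40 (.c 8652803 (.c 48 (.c 24 (.c 8 .nil))))) .nil) (.X 3 (.c 48 (.c 0 (.c 32 (.c 16 (.c 8 .nil))))) (.b 24 (.b 40 .nil)))) (.node (.X 3 (.c 24 (.c 0 (.c 48 (.c 32 (.c 8 .nil))))) (.b 16 (.b 40 .nil))) (.X 3 (.c 40 (.c 2728451 (.c 48 (.c 32 (.c 16 .nil))))) .nil))))) (.node (.node (.node (.node (.X 3 (.c 16 (.c 0 (.c 40 (.c 32 (.c 24 .nil))))) (.b 48 (.b 8 .nil))) (.X 3 (.c 8 (.c 0 (.c 48 (.c 32 (.c 24 .nil))))) (.b 40 (.b 16 .nil)))) (.node (.X 3 (.c 40 (.c 2803715 (.c 48 (.c 32 (.c 8 .nil))))) .nil) (.X 3 (.c 43356739 (.c 0 (.c 40 (.c 32 (.c 16 .nil))))) .nil))) (.node (.node (.X 3 (.c 24 (.c 0 (.c 43954819 (.c 32 (.c 8 .nil))))) .nil) (.X 3 (.c 32 (.c 0 (.c 48 (.c 21099139 (.c 8 .nil))))) .nil)) (.node (.X 3 (.c 43356803 (.c 0 (.c 40 (.c 32 (.c 8 .nil))))) .nil) (.X 3 (.c 32 (.c 0 (.c 48 (.c 16 (.c 8 .nil))))) (.b 24 (.b 40 .nil)))))) (.node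 (.node (.node (.X 3 (.c 40 (.c 0 (.c 48 (.c 24 (.c 16 .nil))))) (.b 8 (.b 32 .nil))) (.X 3 (.c 24 (.c 0 (.c 43954947 (.c 16 (.c 8 .nil))))) .nil)) (.node (.X 3 (.c 24 (.c 8 (.c 40 (.c 32 (.c 16 .nil))))) (.l 18433 .nil)) (.X 3 (.c 40 (.c 0 (.c 48 (.c 8786499 (.c 16 .nil))))) .nil))) (.node (.node (.X 3 (.c 24 (.c 0 (.c 48 (.c 16 (.c 8 .nil))))) (.b 32 (.b 40 .nil))) (.X 3 (.c 2803779 (.c 0 (.c 48 (.c 40 (.c 32 .nil))))) .nil)) (.node (.X 3 (.c 16 (.c 8 (.c 40 (.c 32 (.c 24 .nil))))) (.l 18433 .nil)) (.X 3 (.c 24 (.c 0 (.c 48 (.c 32 (.c 16 .nil))))) (.b 8 (.b 40 .nil)))))))) (.node (.node (.node (.node (.node (.X 3 (.c 8786499 (.c 0 (.c 48 (.c 40 (.c 16 .nil))))) .nil) (.X 3 (.c 40 (.c 0 (.c 48 (.c 32 (.c 2803779 .nil))))) .nil)) (.node (.X 3 (.c 16 (.c 0 (.c 48 (.c 40 (.c 24 .nil))))) (.b 32 (.b 8 .nil))) (.X 3 (.c 40 (.c 0 (.c 48 (.c 8652867 (.c 24 .nil))))) .nil))) (.node (.node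 (.X 3 (.c 16 (.c 0 (.c 48 (.c 32 (.c 24 .nil))))) (.b 8 (.b 40 .nil))) (.X 3 (.c 40 (.c 0 (.c 32 (.c 24 (.c 16 .nil))))) (.b 48 (.b 8 .nil)))) (.node (.X 3 (.c 48 (.c 16 (.c 40 (.c 32 (.c 24 .nil))))) (.l 513 .nil)) (.X 3 (.c 43655235 (.c 0 (.c 40 (.c 24 (.c 16 .nil))))) .nil)))) (.node (.node (.node (.X 3 (.c 40 (.c 0 (.c 32 (.c 24 (.c 16 .nil))))) (.b 8 (.b 48 .nil))) (.X 3 (.c 24 (.c 8 (.c 48 (.c 40 (.c 16 .nil))))) (.l 8193 .nil))) (.node (.X 3 (.c 43655299 (.c 0 (.c 40 (.c 24 (.c 8 .nil))))) .nil) (.X 3 (.c 16 (.c 8 (.c 48 (.c 40 (.c 24 .nil))))) (.l 8193 .nil)))) (.node (.node (.X 3 (.c 32 (.c 0 (.c 48 (.c 40 (.c 2803779 .nil))))) .nil) (.X 3 (.c 48 (.c 0 (.c 32 (.c 24 (.c 8 .nil))))) (.b 40 (.b 16 .nil)))) (.node (.X 3 (.c 40 (.c 0 (.c 48 (.c 8786563 (.c 8 .nil))))) .nil) (.X 3 (.c 48 (.c 0 (.c 40 (.c 24 (.c 16 .nil))))) (.b 8 (.b 32 .nil))))))) (.node (.node (.node (.node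 (.X 3 (.c 48 (.c 0 (.c 40 (.c 24 (.c 16 .nil))))) (.b 32 (.b 8 .nil))) (.X 3 (.c 40 (.c 0 (.c 43655299 (.c 24 (.c 8 .nil))))) .nil)) (.node (.X 3 (.c 43655171 (.c 24 (.c 40 (.c 16 (.c 8 .nil))))) .nil) (.X 3 (.c 21307459 (.c 0 (.c 48 (.c 24 (.c 16 .nil))))) .nil))) (.node (.node (.X 1 (.c 48 (.c 32 (.c 8 (.c 0 (.c 40 .nil))))) (.b 16 (.l 24 .nil))) (.X 1 (.c 48 (.c 16 (.c 32 (.c 0 (.c 40 .nil))))) (.b 8 (.l 24 .nil)))) (.node (.X 1 (.c 48 (.c 40 (.c 8 (.c 0 (.c 32 .nil))))) (.b 16 (.l 24 .nil))) (.X 1 (.c 40 (.c 0 (.c 32 (.c 16 (.c 48 .nil))))) (.b 24 (.l 8 .nil)))))) (.node (.node (.node (.X 1 (.c 24 (.c 16 (.c 8 (.c 0 (.c 48 .nil))))) (.b 40 (.l 32 .nil))) (.X 1 (.c 40 (.c 24 (.c 32 (.c 0 (.c 48 .nil))))) (.b 8 (.l 16 .nil)))) (.node (.X 1 (.c 48 (.c 0 (.c 16 (.c 8 (.c 24 .nil))))) (.b 40 (.l 32 .nil))) (.X 1 (.c 40 (.c 0 (.c 32 (.c 24 (.c 48 .nil))))) (.b 16 (.l 8 .nil))))) (.node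 (.node (.X 1 (.c 48 (.c 8 (.c 16 (.c 0 (.c 40 .nil))))) (.b 24 (.l 32 .nil))) (.X 1 (.c 40 (.c 16 (.c 32 (.c 0 (.c 48 .nil))))) (.b 8 (.l 24 .nil)))) (.node (.X 1 (.c 48 (.c 16 (.c 8 (.c 0 (.c 40 .nil))))) (.b 24 (.l 32 .nil))) (.X 1 (.c 48 (.c 8 (.c 16 (.c 0 (.c 24 .nil))))) (.b 40 (.l 32 .nil)))))))))

noncomputable def c2_442 : Tr := (.node (.node (.node (.node (.node (.node (.X 1 (.c 24 (.c 8 (.c 16 (.c 0 (.c 48 .nil))))) (.b 40 (.l 32 .nil))) (.X 1 (.c 48 (.c 40 (.c 8 (.c 0 (.c 32 .nil))))) (.b 24 (.l 16 .nil)))) (.node (.X 1 (.c 40 (.c 0 (.c 32 (.c 16 (.c 48 .nil))))) (.b 8 (.l 24 .nil))) (.X 1 (.c 48 (.c 32 (.c 40 (.c 0 (.c 8 .nil))))) (.b 16 (.l 24 .nil))))) (.node (.node (.X 1 (.c 40 (.c 8 (.c 24 (.c 0 (.c 48 .nil))))) (.b 32 (.l 16 .nil))) (.X 1 (.c 48 (.c 0 (.c 32 (.c 16 (.c 40 .nil))))) (.b 8 (.l 24 .nil)))) (.node (.X 1 (.c 48 (.c 0 (.c 40 (.c 16 (.c 32 .nil))))) (.b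 8 (.l 24 .nil))) (.X 1 (.c 48 (.c 0 (.c 40 (.c 16 (.c 32 .nil))))) (.b 24 (.l 8 .nil)))))) (.node (.node (.node (.X 1 (.c 40 (.c 0 (.c 24 (.c 8 (.c 48 .nil))))) (.b 32 (.l 16 .nil))) (.X 1 (.c 48 (.c 0 (.c 40 (.c 16 (.c 24 .nil))))) (.b 32 (.l 8 .nil)))) (.node (.X 1 (.c 48 (.c 0 (.c 40 (.c 24 (.c 16 .nil))))) (.b 32 (.l 8 .nil))) (.X 1 (.c 48 (.c 16 (.c 24 (.c 0 (.c 40 .nil))))) (.b 32 (.l 8 .nil))))) (.node (.node (.X 1 (.c 48 (.c 16 (.c 40 (.c 0 (.c 24 .nil))))) (.b 32 (.l 8 .nil))) (.X 1 (.c 48 (.c 32 (.c 24 (.c 0 (.c 16 .nil))))) (.b 40 (.l 8 .nil)))) (.node (.X 1 (.c 40 (.c 8 (.c 32 (.c 0 (.c 48 .nil))))) (.b 16 (.l 24 .nil))) (.X 1 (.c 48 (.c 0 (.c 24 (.c 8 (.c 32 .nil))))) (.b 40 (.l 16 .nil))))))) (.node (.node (.node (.node (.X 1 (.c 40 (.c 16 (.c 24 (.c 0 (.c 48 .nil))))) (.b 32 (.l 8 .nil))) (.X 1 (.c 48 (.c 0 (.c 32 (.c 8 (.c 24 .nil))))) (.b 40 (.l 16 .nil)))) (.node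 (.X 1 (.c 48 (.c 8 (.c 24 (.c 0 (.c 32 .nil))))) (.b 40 (.l 16 .nil))) (.X 1 (.c 48 (.c 0 (.c 32 (.c 24 (.c 16 .nil))))) (.b 40 (.l 8 .nil))))) (.node (.node (.X 1 (.c 48 (.c 0 (.c 32 (.c 16 (.c 24 .nil))))) (.b 40 (.l 8 .nil))) (.X 1 (.c 48 (.c 24 (.c 32 (.c 0 (.c 8 .nil))))) (.b 40 (.l 16 .nil)))) (.node (.X 1 (.c 48 (.c 8 (.c 24 (.c 0 (.c 40 .nil))))) (.b 32 (.l 16 .nil))) (.X 1 (.c 48 (.c 0 (.c 24 (.c 8 (.c 40 .nil))))) (.b 32 (.l 16 .nil)))))) (.node (.node (.node (.X 1 (.c 40 (.c 0 (.c 32 (.c 24 (.c 16 .nil))))) (.b 48 (.l 8 .nil))) (.X 1 (.c 40 (.c 0 (.c 32 (.c 16 (.c 24 .nil))))) (.b 48 (.l 8 .nil)))) (.node (.X 1 (.c 40 (.c 0 (.c 32 (.c 16 (.c 24 .nil))))) (.b 8 (.l 48 .nil))) (.X 1 (.c 32 (.c 24 (.c 16 (.c 0 (.c 40 .nil))))) (.b 48 (.l 8 .nil))))) (.node (.node (.X 1 (.c 40 (.c 16 (.c 24 (.c 0 (.c 32 .nil))))) (.b 48 (.l 8 .nil))) (.X 1 (.c 40 (.c 24 (.c 32 (.c 0 (.c 8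 .nil))))) (.b 16 (.l 48 .nil)))) (.node (.X 1 (.c 40 (.c 24 (.c 8 (.c 0 (.c 32 .nil))))) (.b 48 (.l 16 .nil))) (.X 1 (.c 40 (.c 32 (.c 8 (.c 0 (.c 24 .nil))))) (.b 16 (.l 48 .nil)))))))) (.node (.node (.node (.node (.node (.X 1 (.c 40 (.c 8 (.c 32 (.c 0 (.c 24 .nil))))) (.b 16 (.l 48 .nil))) (.X 1 (.c 40 (.c 8 (.c 24 (.c 0 (.c 32 .nil))))) (.b 48 (.l 16 .nil)))) (.node (.X 1 (.c 40 (.c 32 (.c 24 (.c 0 (.c 8 .nil))))) (.b 16 (.l 48 .nil))) (.X 1 (.c 40 (.c 0 (.c 16 (.c 8 (.c 32 .nil))))) (.b 24 (.l 48 .nil))))) (.node (.node (.X 1 (.c 40 (.c 0 (.c 32 (.c 8 (.c 16 .nil))))) (.b 24 (.l 48 .nil))) (.X 1 (.c 40 (.c 0 (.c 24 (.c 8 (.c 16 .nil))))) (.b 32 (.l 48 .nil)))) (.node (.X 1 (.c 32 (.c 0 (.c 24 (.c 8 (.c 16 .nil))))) (.b 40 (.l 48 .nil))) (.X 1 (.c 24 (.c 8 (.c 16 (.c 0 (.c 32 .nil))))) (.b 40 (.l 48 .nil)))))) (.node (.node (.node (.X 1 (.c 48 (.c 0 (.c 40 (.c 32 (.c 24 .nil)))))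 (.b 16 (.l 8 .nil))) (.X 0 (.c 32 (.c 24 (.c 16 (.c 0 .nil)))) (.b 8 (.b 40 (.l 48 .nil))))) (.node (.X 0 (.c 40 (.c 32 (.c 24 (.c 33587273 .nil)))) (.l 48 .nil)) (.X 0 (.c 48 (.c 12929 (.c 32 (.c 8 .nil)))) (.b 24 (.l 0 .nil))))) (.node (.node (.X 0 (.c 40 (.c 32 (.c 4609 (.c 2113 .nil)))) (.b 48 .nil)) (.X 0 (.c 48 (.c 32 (.c 24 (.c 0 .nil)))) (.b 16 (.b 8 (.l 40 .nil))))) (.node (.X 0 (.c 18433 (.c 12865 (.c 32 (.c 24 .nil)))) (.b 16 .nil)) (.X 0 (.c 18625 (.c 40 (.c 32 (.c 0 .nil)))) (.b 16 (.b 8 .nil))))))) (.node (.node (.node (.node (.X 0 (.c 43356803 (.c 12865 (.c 32 (.c 0 .nil)))) .nil) (.X 0 (.c 32 (.c 24 (.c 8 (.c 0 .nil)))) (.b 40 (.b 16 (.l 48 .nil))))) (.node (.X 0 (.c 15456253916349577 (.c 32 (.c 16 (.c 0 .nil)))) .nil) (.X 0 (.c 15038454533713289 (.c 32 (.c 16 (.c 0 .nil)))) .nil))) (.node (.node (.X 0 (.c 15456163896880393 (.c 32 (.c 16 (.c 0 .nil)))) .nil) (.X 0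 (.c 32 (.c 16 (.c 8 (.c 0 .nil)))) (.l 43954883 .nil))) (.node (.X 0 (.c 48 (.c 32 (.c 24 (.c 8 .nil)))) (.l 16 (.l 12801 .nil))) (.X 0 (.c 48 (.c 32 (.c 24 (.c 0 .nil)))) (.b 40 (.b 8 (.l 16 .nil))))))) (.node (.node (.node (.X 0 (.c 32 (.c 24 (.c 8 (.c 0 .nil)))) (.b 48 (.b 16 (.l 40 .nil)))) (.X 0 (.c 2718204169 (.c 40 (.c 24 (.c 16 .nil)))) (.l 8 .nil))) (.node (.X 0 (.c 18433 (.c 40 (.c 8257 (.c 24 .nil)))) (.b 16 .nil)) (.X 0 (.c 43356803 (.c 40 (.c 8257 (.c 0 .nil)))) .nil))) (.node (.node (.X 0 (.c 43655299 (.c 40 (.c 24 (.c 0 .nil)))) (.l 8 .nil)) (.X 0 (.c 32 (.c 24 (.c 8 (.c 0 .nil)))) (.b 48 (.b 40 (.l 16 .nil))))) (.node (.X 0 (.c 48 (.c 40 (.c 32 (.c 4673 .nil)))) (.l 16 (.l 0 .nil))) (.X 0 (.c 48 (.c 40 (.c 8321 (.c 8 .nil)))) (.l 4609 .nil))))))))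

noncomputable def c2_443 : Tr := (.node (.node (.node (.node (.node (.node (.X 0 (.c 43655363 (.c 40 (.c 16 (.c 0 .nil)))) (.l 8 .nil)) (.X 0 (.c 48 (.c 40 (.c 8193 (.c 2113 .nil)))) (.b 24 .nil))) (.node (.X 0 (.c 43059203 (.c 40 (.c 32 (.c 24 .nil)))) (.l 8 .nil)) (.X 0 (.c 18497 (.c 12801 (.c 32 (.c 24 .nil)))) (.b 16 .nil)))) (.node (.node (.X 0 (.c 40 (.c 32 (.c 4673 (.c 0 .nil)))) (.b 48 (.b 16 .nil))) (.X 0 (.c 2718204041 (.c 40 (.c 32 (.c 24 .nil)))) (.l 8 .nil))) (.node (.X 0 (.c 40 (.c 32 (.c 4737 (.c 513 .nil)))) (.b 48 .nil)) (.X 0 (.c 18625 (.c 40 (.c 32 (.c 2049 .nil)))) (.b 8 .nil))))) (.node (.node (.node (.X 0 (.c 48 (.c 32 (.c 16 (.c 513 .nil)))) (.b 40 (.l 24 .nil))) (.X 0 (.c 18497 (.c 40 (.c 8193 (.c 24 .nil)))) (.b 16 .nil))) (.node (.X 0 (.c 48 (.c 32 (.c 2049 (.c 8 .nil)))) (.b 24 (.l 40 .nil))) (.X 0 (.c 48 (.c 12993 (.c 32 (.c 0 .nil)))) (.b 8 (.b 16 .nil)))))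 (.node (.node (.X 0 (.c 48 (.c 32 (.c 16 (.c 0 .nil)))) (.b 40 (.b 8 (.l 24 .nil)))) (.X 0 (.c 48 (.c 40 (.c 537002057 (.c 16 .nil)))) (.l 24 .nil))) (.node (.X 0 (.c 40 (.c 8193 (.c 24 (.c 8 .nil)))) (.b 16 (.l 48 .nil))) (.X 0 (.c 32 (.c 24 (.c 2049 (.c 8 .nil)))) (.b 40 (.l 48 .nil))))))) (.node (.node (.node (.node (.X 0 (.c 40 (.c 32 (.c 169943177 (.c 8 .nil)))) (.l 48 .nil)) (.X 0 (.c 48 (.c 40 (.c 8257 (.c 2049 .nil)))) (.b 24 .nil))) (.node (.X 0 (.c 43954883 (.c 32 (.c 2113 (.c 0 .nil)))) .nil) (.X 0 (.c 48 (.c 32 (.c 16 (.c 0 .nil)))) (.l 21099075 .nil)))) (.node (.node (.X 0 (.c 40 (.c 32 (.c 33587401 (.c 8 .nil)))) (.l 48 .nil)) (.X 0 (.c 43356675 (.c 40 (.c 32 (.c 16 .nil)))) (.l 8 .nil))) (.node (.X 0 (.c 40 (.c 32 (.c 2105545 (.c 16 .nil)))) (.l 48 .nil)) (.X 0 (.c 169943433 (.c 40 (.c 32 (.c 16 .nil)))) (.l 8 .nil))))) (.node (.node (.node (.X 0 (.c 18497 (.c 32 (.c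 16 (.c 0 .nil)))) (.b 24 (.b 40 .nil))) (.X 0 (.c 62889413447113 (.c 40 (.c 32 (.c 0 .nil)))) .nil)) (.node (.X 0 (.c 18625 (.c 40 (.c 32 (.c 0 .nil)))) (.b 8 (.b 16 .nil))) (.X 0 (.c 48 (.c 32 (.c 2049 (.c 8 .nil)))) (.b 40 (.l 24 .nil))))) (.node (.node (.X 0 (.c 48 (.c 40 (.c 32 (.c 33587273 .nil)))) (.l 24 .nil)) (.X 0 (.c 18433 (.c 40 (.c 32 (.c 24 .nil)))) (.b 8 (.l 16 .nil)))) (.node (.X 0 (.c 48 (.c 32 (.c 2113 (.c 0 .nil)))) (.b 40 (.b 24 .nil))) (.X 0 (.c 40 (.c 8193 (.c 24 (.c 8 .nil)))) (.b 48 (.l 16 .nil)))))))) (.node (.node (.node (.node (.node (.X 0 (.c 32 (.c 24 (.c 16 (.c 0 .nil)))) (.l 43954755 .nil)) (.X 0 (.c 18497 (.c 40 (.c 32 (.c 4609 .nil)))) (.b 16 .nil))) (.node (.X 0 (.c 48 (.c 8193 (.c 16 (.c 8 .nil)))) (.b 40 (.l 24 .nil))) (.X 0 (.c 18433 (.c 32 (.c 16 (.c 8 .nil)))) (.b 40 (.l 24 .nil))))) (.node (.node (.X 0 (.c 48 (.c 12801 (.c 8257 (.c 24 .nil))))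 (.b 16 .nil)) (.X 0 (.c 40 (.c 8193 (.c 24 (.c 16 .nil)))) (.b 48 (.l 8 .nil)))) (.node (.X 0 (.c 48 (.c 40 (.c 8321 (.c 0 .nil)))) (.b 24 (.b 8 .nil))) (.X 0 (.c 48 (.c 32 (.c 24 (.c 16 .nil)))) (.l 40 (.l 513 .nil)))))) (.node (.node (.node (.X 0 (.c 48 (.c 40 (.c 8321 (.c 0 .nil)))) (.b 8 (.b 24 .nil))) (.X 0 (.c 40 (.c 8321 (.c 24 (.c 0 .nil)))) (.b 8 (.b 48 .nil)))) (.node (.X 0 (.c 48 (.c 40 (.c 32 (.c 2105545 .nil)))) (.l 16 .nil)) (.X 0 (.c 48 (.c 32 (.c 24 (.c 2049 .nil)))) (.b 8 (.l 40 .nil))))) (.node (.node (.X 0 (.c 40 (.c 32 (.c 4737 (.c 0 .nil)))) (.b 8 (.b 48 .nil))) (.X 0 (.c 18497 (.c 32 (.c 24 (.c 0 .nil)))) (.b 40 (.b 16 .nil)))) (.node (.X 0 (.c 40 (.c 32 (.c 4737 (.c 8 .nil)))) (.l 18433 .nil)) (.X 0 (.c 48 (.c 12993 (.c 32 (.c 513 .nil)))) (.b 16 .nil)))))) (.node (.node (.node (.node (.X 0 (.c 48 (.c 12801 (.c 32 (.c 16 .nil)))) (.b 24 (.l 8 .nil))) (.X 0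 (.c 48 (.c 1310924873 (.c 32 (.c 24 .nil)))) (.l 16 .nil))) (.node (.X 0 (.c 40 (.c 32 (.c 4737 (.c 0 .nil)))) (.b 48 (.b 8 .nil))) (.X 0 (.c 48 (.c 2105673 (.c 32 (.c 24 .nil)))) (.l 16 .nil)))) (.node (.node (.X 0 (.c 48 (.c 8321 (.c 24 (.c 0 .nil)))) (.b 40 (.b 8 .nil))) (.X 0 (.c 48 (.c 40 (.c 8520195 (.c 24 .nil)))) (.l 16 .nil))) (.node (.X 0 (.c 18625 (.c 40 (.c 32 (.c 2105481 .nil)))) .nil) (.X 0 (.c 18433 (.c 32 (.c 24 (.c 16 .nil)))) (.b 40 (.l 8 .nil)))))) (.node (.node (.node (.X 0 (.c 48 (.c 40 (.c 32 (.c 16 .nil)))) (.l 24 (.l 513 .nil))) (.X 0 (.c 48 (.c 8321 (.c 24 (.c 0 .nil)))) (.b 8 (.b 40 .nil)))) (.node (.X 0 (.c 18561 (.c 32 (.c 24 (.c 0 .nil)))) (.b 40 (.b 8 .nil))) (.X 0 (.c 18497 (.c 40 (.c 32 (.c 4737 .nil)))) (.l 0 .nil)))) (.node (.node (.X 0 (.c 18497 (.c 40 (.c 8321 (.c 24 .nil)))) (.l 0 .nil)) (.X 0 (.c 18561 (.c 40 (.c 32 (.c 4673 .nil)))) (.l 0 .nil)))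 (.node (.X 0 (.c 18497 (.c 40 (.c 32 (.c 0 .nil)))) (.b 16 (.b 24 .nil))) (.X 0 (.c 18561 (.c 40 (.c 8257 (.c 24 .nil)))) (.l 0 .nil))))))))

noncomputable def c2_444 : Tr := (.node (.node (.node (.node (.node (.node (.X 0 (.c 48 (.c 40 (.c 24 (.c 16 .nil)))) (.l 32 (.l 513 .nil))) (.X 0 (.c 48 (.c 40 (.c 8193 (.c 16 .nil)))) (.b 24 (.l 8 .nil)))) (.node (.X 0 (.c 12801 (.c 32 (.c 24 (.c 16 .nil)))) (.b 8 (.l 48 .nil))) (.X 0 (.c 48 (.c 40 (.c 32 (.c 2049 .nil)))) (.b 8 (.l 24 .nil))))) (.node (.node (.X 0 (.c 32 (.c 16 (.c 8 (.c 0 .nil)))) (.b 24 (.b 48 (.l 40 .nil)))) (.X 0 (.c 32 (.c 16 (.c 8 (.c 0 .nil)))) (.b 24 (.b 40 (.l 48 .nil))))) (.node (.X 0 (.c 43954883 (.c 32 (.c 16 (.c 0 .nil)))) (.l 8 .nil)) (.X 0 (.c 48 (.c 32 (.c 24 (.c 513 .nil)))) (.b 16 (.l 40 .nil)))))) (.node (.node (.node (.X 0 (.c 48 (.c 32 (.c 24 (.c 513 .nil)))) (.b 40 (.l 16 .nil))) (.X 0 (.c 24 (.c 16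 (.c 8 (.c 0 .nil)))) (.l 43954947 .nil))) (.node (.X 0 (.c 48 (.c 32 (.c 4609 (.c 8 .nil)))) (.b 16 (.l 40 .nil))) (.X 0 (.c 24 (.c 16 (.c 8 (.c 0 .nil)))) (.b 48 (.b 32 (.l 40 .nil)))))) (.node (.node (.X 0 (.c 32 (.c 16 (.c 8 (.c 0 .nil)))) (.b 48 (.b 40 (.l 24 .nil)))) (.X 0 (.c 32 (.c 16 (.c 8 (.c 0 .nil)))) (.b 48 (.b 24 (.l 40 .nil))))) (.node (.X 0 (.c 48 (.c 32 (.c 4673 (.c 0 .nil)))) (.b 16 (.b 40 .nil))) (.X 0 (.c 12929 (.c 32 (.c 24 (.c 8 .nil)))) (.l 18433 .nil)))))) (.node (.node (.node (.node (.X 0 (.c 43954819 (.c 32 (.c 24 (.c 0 .nil)))) (.l 8 .nil)) (.X 0 (.c 32 (.c 16 (.c 8 (.c 0 .nil)))) (.b 40 (.b 24 (.l 48 .nil))))) (.node (.X 0 (.c 12929 (.c 32 (.c 24 (.c 8 .nil)))) (.b 48 (.l 0 .nil))) (.X 0 (.c 48 (.c 1310925065 (.c 24 (.c 8 .nil)))) (.l 16 .nil)))) (.node (.node (.X 0 (.c 48 (.c 169943369 (.c 32 (.c 8 .nil)))) (.l 16 .nil)) (.X 0 (.c 18433 (.c 40 (.c 32 (.c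 16 .nil)))) (.b 8 (.l 24 .nil)))) (.node (.X 0 (.c 43954947 (.c 4673 (.c 16 (.c 0 .nil)))) .nil) (.X 0 (.c 2718204105 (.c 40 (.c 32 (.c 2113 .nil)))) .nil)))) (.node (.node (.node (.X 0 (.c 169943433 (.c 40 (.c 32 (.c 2113 .nil)))) .nil) (.X 0 (.c 48 (.c 12865 (.c 32 (.c 4737 .nil)))) (.l 0 .nil))) (.node (.X 0 (.c 40 (.c 32 (.c 4609 (.c 16 .nil)))) (.b 8 (.l 48 .nil))) (.X 0 (.c 48 (.c 12865 (.c 8321 (.c 24 .nil)))) (.l 0 .nil)))) (.node (.node (.X 0 (.c 48 (.c 8193 (.c 24 (.c 8 .nil)))) (.b 40 (.l 16 .nil))) (.X 0 (.c 24 (.c 16 (.c 8 (.c 0 .nil)))) (.b 40 (.b 48 (.l 32 .nil))))) (.node (.X 0 (.c 24 (.c 16 (.c 8 (.c 0 .nil)))) (.b 40 (.b 32 (.l 48 .nil)))) (.X 0 (.c 48 (.c 8193 (.c 24 (.c 8 .nil)))) (.b 16 (.l 40 .nil)))))))) (.node (.node (.node (.node (.node (.X 0 (.c 617620517416393 (.c 40 (.c 16 (.c 0 .nil)))) .nil) (.X 0 (.c 48 (.c 16 (.c 8 (.c 0 .nil)))) (.b 24 (.b 40 (.l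 32 .nil))))) (.node (.X 0 (.c 12801 (.c 24 (.c 16 (.c 8 .nil)))) (.b 32 (.l 48 .nil))) (.X 0 (.c 48 (.c 16 (.c 8 (.c 0 .nil)))) (.b 32 (.b 24 (.l 40 .nil)))))) (.node (.node (.X 0 (.c 15246236343241993 (.c 40 (.c 16 (.c 0 .nil)))) .nil) (.X 0 (.c 40 (.c 4673 (.c 16 (.c 0 .nil)))) (.b 48 (.b 32 .nil)))) (.node (.X 0 (.c 12865 (.c 24 (.c 16 (.c 0 .nil)))) (.b 32 (.b 48 .nil))) (.X 0 (.c 48 (.c 16 (.c 8 (.c 0 .nil)))) (.b 40 (.b 32 (.l 24 .nil))))))) (.node (.node (.node (.X 0 (.c 40 (.c 24 (.c 2113 (.c 0 .nil)))) (.b 48 (.b 32 .nil))) (.X 0 (.c 43655235 (.c 40 (.c 16 (.c 0 .nil)))) (.l 24 .nil))) (.node (.X 0 (.c 48 (.c 40 (.c 8385 (.c 16 .nil)))) (.l 513 .nil)) (.X 0 (.c 40 (.c 32 (.c 8 (.c 0 .nil)))) (.b 48 (.b 16 (.l 24 .nil)))))) (.node (.node (.X 0 (.c 537002377 (.c 40 (.c 16 (.c 8 .nil)))) (.l 24 .nil)) (.X 0 (.c 48 (.c 16 (.c 8 (.c 0 .nil)))) (.l 21307587 .nil))) (.node (.X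 0 (.c 40 (.c 32 (.c 8 (.c 0 .nil)))) (.b 24 (.b 16 (.l 48 .nil)))) (.X 0 (.c 21307459 (.c 24 (.c 16 (.c 0 .nil)))) (.l 48 .nil)))))) (.node (.node (.node (.node (.X 0 (.c 48 (.c 12993 (.c 32 (.c 16 .nil)))) (.l 513 .nil)) (.X 0 (.c 21307587 (.c 16 (.c 8 (.c 0 .nil)))) (.l 48 .nil))) (.node (.X 0 (.c 43655363 (.c 40 (.c 2113 (.c 0 .nil)))) .nil) (.X 0 (.c 48 (.c 24 (.c 8 (.c 0 .nil)))) (.l 21307523 .nil)))) (.node (.node (.X 0 (.c 48 (.c 24 (.c 16 (.c 0 .nil)))) (.b 8 (.b 32 (.l 40 .nil)))) (.X 0 (.c 18561 (.c 40 (.c 32 (.c 513 .nil)))) (.b 24 .nil))) (.node (.X 0 (.c 40 (.c 24 (.c 16 (.c 0 .nil)))) (.l 43655235 .nil)) (.X 0 (.c 48 (.c 24 (.c 8 (.c 0 .nil)))) (.b 40 (.b 32 (.l 16 .nil))))))) (.node (.node (.node (.X 0 (.c 598976858557897 (.c 40 (.c 24 (.c 0 .nil)))) .nil) (.X 0 (.c 48 (.c 40 (.c 32 (.c 33587401 .nil)))) (.l 8 .nil))) (.node (.X 0 (.c 15246281046235273 (.c 40 (.c 24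 (.c 0 .nil)))) .nil) (.X 0 (.c 48 (.c 24 (.c 16 (.c 0 .nil)))) (.b 32 (.b 8 (.l 40 .nil)))))) (.node (.node (.X 0 (.c 40 (.c 24 (.c 16 (.c 513 .nil)))) (.b 32 (.l 48 .nil))) (.X 0 (.c 48 (.c 24 (.c 8 (.c 0 .nil)))) (.b 16 (.b 32 (.l 40 .nil))))) (.node (.X 0 (.c 40 (.c 24 (.c 2049 (.c 8 .nil)))) (.b 48 (.l 32 .nil))) (.X 0 (.c 48 (.c 24 (.c 8 (.c 0 .nil)))) (.b 16 (.b 40 (.l 32 .nil))))))))))

noncomputable def c2_445 : Tr := (.node (.node (.node (.node (.node (.node (.X 0 (.c 18625 (.c 40 (.c 32 (.c 16 .nil)))) (.l 8 (.l 0 .nil))) (.X 0 (.c 40 (.c 24 (.c 2049 (.c 8 .nil)))) (.b 32 (.l 48 .nil)))) (.node (.X 0 (.c 40 (.c 24 (.c 16 (.c 513 .nil)))) (.b 48 (.l 32 .nil))) (.X 0 (.c 48 (.c 24 (.c 8 (.c 0 .nil)))) (.b 32 (.b 16 (.l 40 .nil)))))) (.node (.node (.X 0 (.c 48 (.c 24 (.c 8 (.c 0 .nil)))) (.b 32 (.b 40 (.l 16 .nil)))) (.X 0 (.c 2718204041 (.c 40 (.c 32 (.c 8 .nil)))) (.l 24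 .nil))) (.node (.X 0 (.c 33587593 (.c 40 (.c 32 (.c 8 .nil)))) (.l 24 .nil)) (.X 0 (.c 40 (.c 24 (.c 16 (.c 8 .nil)))) (.b 48 (.l 32 (.l 0 .nil))))))) (.node (.node (.node (.X 0 (.c 40 (.c 24 (.c 16 (.c 8 .nil)))) (.l 48 (.l 8193 .nil))) (.X 0 (.c 12801 (.c 32 (.c 16 (.c 8 .nil)))) (.b 24 (.l 48 .nil)))) (.node (.X 0 (.c 12865 (.c 32 (.c 24 (.c 2049 .nil)))) (.b 48 .nil)) (.X 0 (.c 43954947 (.c 16 (.c 8 (.c 0 .nil)))) (.l 24 .nil)))) (.node (.node (.X 0 (.c 12865 (.c 32 (.c 16 (.c 0 .nil)))) (.b 48 (.b 24 .nil))) (.X 0 (.c 40 (.c 537002121 (.c 24 (.c 8 .nil)))) (.l 48 .nil))) (.node (.X 0 (.c 12801 (.c 32 (.c 16 (.c 8 .nil)))) (.b 48 (.l 24 .nil))) (.X 0 (.c 2718204233 (.c 8257 (.c 24 (.c 16 .nil)))) .nil))))) (.node (.node (.node (.node (.X 0 (.c 40 (.c 8257 (.c 16 (.c 0 .nil)))) (.b 48 (.b 24 .nil))) (.X 0 (.c 2105673 (.c 32 (.c 24 (.c 16 .nil)))) (.l 48 .nil))) (.node (.X 0 (.c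 2718204233 (.c 32 (.c 4673 (.c 16 .nil)))) .nil) (.X 0 (.c 1310925193 (.c 32 (.c 4673 (.c 16 .nil)))) .nil))) (.node (.node (.X 0 (.c 2718204233 (.c 32 (.c 24 (.c 8 .nil)))) (.l 16 .nil)) (.X 0 (.c 40 (.c 169943305 (.c 16 (.c 8 .nil)))) (.l 48 .nil))) (.node (.X 0 (.c 43655171 (.c 40 (.c 24 (.c 8 .nil)))) (.l 16 .nil)) (.X 0 (.c 2718204169 (.c 40 (.c 24 (.c 8 .nil)))) (.l 16 .nil))))) (.node (.node (.node (.X 0 (.c 12801 (.c 32 (.c 24 (.c 2113 .nil)))) (.b 48 .nil)) (.X 0 (.c 43954691 (.c 32 (.c 4673 (.c 16 .nil)))) .nil)) (.node (.X 0 (.c 43655235 (.c 40 (.c 24 (.c 0 .nil)))) (.l 16 .nil)) (.X 0 (.c 12801 (.c 32 (.c 4673 (.c 16 .nil)))) (.b 48 .nil)))) (.node (.node (.X 0 (.c 40 (.c 32 (.c 24 (.c 0 .nil)))) (.b 8 (.b 48 (.l 16 .nil)))) (.X 0 (.c 40 (.c 32 (.c 24 (.c 0 .nil)))) (.l 43059267 .nil))) (.node (.X 0 (.c 40 (.c 32 (.c 16 (.c 0 .nil)))) (.b 48 (.b 8 (.l 24 .nil)))) (.X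 0 (.c 40 (.c 32 (.c 16 (.c 0 .nil)))) (.l 43356739 .nil))))))) (.node (.node (.node (.node (.node (.X 0 (.c 21099011 (.c 32 (.c 16 (.c 8 .nil)))) (.l 48 .nil)) (.X 0 (.c 169943369 (.c 32 (.c 16 (.c 8 .nil)))) (.l 48 .nil))) (.node (.X 0 (.c 20891715 (.c 32 (.c 24 (.c 0 .nil)))) (.l 48 .nil)) (.X 0 (.c 21099139 (.c 32 (.c 8 (.c 0 .nil)))) (.l 48 .nil)))) (.node (.node (.X 0 (.c 40 (.c 32 (.c 16 (.c 0 .nil)))) (.b 8 (.b 48 (.l 24 .nil)))) (.X 0 (.c 43655299 (.c 40 (.c 8 (.c 0 .nil)))) (.l 24 .nil))) (.node (.X 0 (.c 40 (.c 32 (.c 8 (.c 0 .nil)))) (.l 43356803 .nil)) (.X 0 (.c 43954691 (.c 32 (.c 16 (.c 8 .nil)))) (.l 24 .nil))))) (.node (.node (.node (.X 0 (.c 40 (.c 33587465 (.c 24 (.c 8 .nil)))) (.l 48 .nil)) (.X 0 (.c 40 (.c 8193 (.c 16 (.c 8 .nil)))) (.b 48 (.l 24 .nil)))) (.node (.X 0 (.c 40 (.c 8193 (.c 16 (.c 8 .nil)))) (.b 24 (.l 48 .nil))) (.X 0 (.c 1310925193 (.c 32 (.c 16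 (.c 8 .nil)))) (.l 24 .nil)))) (.node (.node (.X 0 (.c 40 (.c 32 (.c 2049 (.c 8 .nil)))) (.b 48 (.l 24 .nil))) (.X 0 (.c 40 (.c 32 (.c 2049 (.c 8 .nil)))) (.b 24 (.l 48 .nil)))) (.node (.X 0 (.c 40 (.c 32 (.c 16 (.c 513 .nil)))) (.b 48 (.l 24 .nil))) (.X 0 (.c 40 (.c 32 (.c 16 (.c 513 .nil)))) (.b 24 (.l 48 .nil))))))) (.node (.node (.node (.node (.X 0 (.c 43954947 (.c 24 (.c 8 (.c 0 .nil)))) (.l 16 .nil)) (.X 0 (.c 40 (.c 32 (.c 24 (.c 513 .nil)))) (.b 16 (.l 48 .nil)))) (.node (.X 0 (.c 2718204169 (.c 40 (.c 24 (.c 2113 .nil)))) .nil) (.X 0 (.c 48 (.c 537002313 (.c 24 (.c 16 .nil)))) (.l 8 .nil)))) (.node (.node (.X 0 (.c 48 (.c 1310925065 (.c 24 (.c 16 .nil)))) (.l 8 .nil)) (.X 0 (.c 15456208906582153 (.c 32 (.c 24 (.c 0 .nil)))) .nil)) (.node (.X 0 (.c 8193 (.c 24 (.c 16 (.c 8 .nil)))) (.b 48 (.l 40 .nil))) (.X 0 (.c 8193 (.c 24 (.c 16 (.c 8 .nil)))) (.b 40 (.l 48 .nil))))))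 (.node (.node (.node (.X 0 (.c 48 (.c 21307587 (.c 16 (.c 0 .nil)))) (.l 8 .nil)) (.X 0 (.c 48 (.c 32 (.c 8 (.c 0 .nil)))) (.b 16 (.b 24 (.l 40 .nil))))) (.node (.X 0 (.c 2718204169 (.c 12865 (.c 24 (.c 16 .nil)))) .nil) (.X 0 (.c 48 (.c 4609 (.c 16 (.c 8 .nil)))) (.b 40 (.l 32 .nil))))) (.node (.node (.X 0 (.c 48 (.c 21099139 (.c 32 (.c 0 .nil)))) (.l 8 .nil)) (.X 0 (.c 40 (.c 16 (.c 8 (.c 0 .nil)))) (.b 24 (.b 32 (.l 48 .nil))))) (.node (.X 0 (.c 43655171 (.c 12865 (.c 24 (.c 16 .nil)))) .nil) (.X 0 (.c 48 (.c 20891715 (.c 32 (.c 0 .nil)))) (.l 24 .nil))))))))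

noncomputable def c2_446 : Tr := (.node (.node (.node (.node (.node (.node (.X 0 (.c 18433 (.c 24 (.c 16 (.c 8 .nil)))) (.b 32 (.l 40 .nil))) (.X 0 (.c 48 (.c 1310924937 (.c 32 (.c 8 .nil)))) (.l 24 .nil))) (.node (.X 0 (.c 48 (.c 33587529 (.c 32 (.c 8 .nil)))) (.l 24 .nil)) (.X 0 (.c 2718203977 (.c 40 (.c 32 (.c 24 .nil)))) (.l 16 .nil)))) (.node (.node (.X 0 (.c 2105737 (.c 40 (.c 32 (.c 24 .nil)))) (.l 16 .nil)) (.X 0 (.c 42762755 (.c 40 (.c 32 (.c 24 .nil)))) (.l 16 .nil))) (.node (.X 0 (.c 32 (.c 24 (.c 2113 (.c 0 .nil)))) (.b 48 (.b 40 .nil))) (.X 0 (.c 48 (.c 40 (.c 33587465 (.c 8 .nil)))) (.l 24 .nil))))) (.node (.node (.node (.X 0 (.c 48 (.c 20685315 (.c 32 (.c 16 .nil)))) (.l 24 .nil)) (.X 0 (.c 48 (.c 12865 (.c 32 (.c 2049 .nil)))) (.b 24 .nil))) (.node (.X 0 (.c 48 (.c 32 (.c 8 (.c 0 .nil)))) (.b 40 (.b 24 (.l 16 .nil)))) (.X 0 (.c 48 (.c 12801 (.c 32 (.c 4737 .nil))))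 (.b 8 .nil)))) (.node (.node (.X 0 (.c 48 (.c 40 (.c 169943305 (.c 16 .nil)))) (.l 8 .nil)) (.X 0 (.c 43655299 (.c 12865 (.c 24 (.c 0 .nil)))) .nil)) (.node (.X 0 (.c 48 (.c 40 (.c 8786563 (.c 0 .nil)))) (.l 8 .nil)) (.X 0 (.c 40 (.c 24 (.c 16 (.c 0 .nil)))) (.b 8 (.b 48 (.l 32 .nil)))))))) (.node (.node (.node (.node (.X 0 (.c 40 (.c 24 (.c 16 (.c 0 .nil)))) (.b 8 (.b 32 (.l 48 .nil)))) (.X 0 (.c 48 (.c 40 (.c 8786435 (.c 16 .nil)))) (.l 8 .nil))) (.node (.X 0 (.c 40 (.c 24 (.c 8 (.c 0 .nil)))) (.l 43655299 .nil)) (.X 0 (.c 48 (.c 40 (.c 32 (.c 4609 .nil)))) (.b 8 (.l 16 .nil))))) (.node (.node (.X 0 (.c 40 (.c 24 (.c 8 (.c 0 .nil)))) (.b 48 (.b 32 (.l 16 .nil)))) (.X 0 (.c 48 (.c 40 (.c 537002121 (.c 24 .nil)))) (.l 8 .nil))) (.node (.X 0 (.c 48 (.c 24 (.c 2049 (.c 8 .nil)))) (.b 32 (.l 40 .nil))) (.X 0 (.c 48 (.c 1310925065 (.c 16 (.c 8 .nil)))) (.l 24 .nil))))) (.node (.node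 (.node (.X 0 (.c 48 (.c 537002313 (.c 16 (.c 8 .nil)))) (.l 24 .nil)) (.X 0 (.c 48 (.c 169943369 (.c 32 (.c 16 .nil)))) (.l 8 .nil))) (.node (.X 0 (.c 48 (.c 24 (.c 16 (.c 8 .nil)))) (.b 40 (.l 32 (.l 0 .nil)))) (.X 0 (.c 48 (.c 20891651 (.c 32 (.c 24 .nil)))) (.l 8 .nil)))) (.node (.node (.X 0 (.c 48 (.c 1310924937 (.c 32 (.c 24 .nil)))) (.l 8 .nil)) (.X 0 (.c 18561 (.c 20685315 (.c 32 (.c 24 .nil)))) .nil)) (.node (.X 0 (.c 48 (.c 40 (.c 32 (.c 0 .nil)))) (.b 8 (.b 16 (.l 24 .nil)))) (.X 0 (.c 48 (.c 40 (.c 2728451 (.c 16 .nil)))) (.l 32 .nil))))))) (.node (.node (.node (.node (.node (.X 0 (.c 48 (.c 40 (.c 24 (.c 0 .nil)))) (.b 16 (.b 8 (.l 32 .nil)))) (.X 0 (.c 18497 (.c 33587529 (.c 32 (.c 24 .nil)))) .nil)) (.node (.X 0 (.c 48 (.c 40 (.c 32 (.c 0 .nil)))) (.b 8 (.b 24 (.l 16 .nil)))) (.X 0 (.c 48 (.c 32 (.c 33587401 (.c 8 .nil)))) (.l 40 .nil)))) (.node (.node (.X 0 (.c 48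 (.c 32 (.c 169943177 (.c 8 .nil)))) (.l 40 .nil)) (.X 0 (.c 48 (.c 32 (.c 4737 (.c 513 .nil)))) (.b 40 .nil))) (.node (.X 0 (.c 48 (.c 32 (.c 169943113 (.c 16 .nil)))) (.l 40 .nil)) (.X 0 (.c 48 (.c 598976858557833 (.c 24 (.c 0 .nil)))) .nil)))) (.node (.node (.node (.X 0 (.c 48 (.c 32 (.c 2105545 (.c 16 .nil)))) (.l 40 .nil)) (.X 0 (.c 48 (.c 3632084291164297 (.c 24 (.c 0 .nil)))) .nil)) (.node (.X 0 (.c 48 (.c 32 (.c 2728451 (.c 16 .nil)))) (.l 40 .nil)) (.X 0 (.c 18497 (.c 12801 (.c 24 (.c 16 .nil)))) (.b 32 .nil)))) (.node (.node (.X 0 (.c 48 (.c 40 (.c 8786435 (.c 2113 .nil)))) .nil) (.X 0 (.c 18561 (.c 40 (.c 24 (.c 513 .nil)))) (.b 32 .nil))) (.node (.X 0 (.c 18497 (.c 21099011 (.c 32 (.c 16 .nil)))) .nil) (.X 0 (.c 2718203977 (.c 40 (.c 24 (.c 16 .nil)))) (.l 32 .nil)))))) (.node (.node (.node (.node (.X 0 (.c 43954883 (.c 16 (.c 8 (.c 0 .nil)))) (.l 32 .nil)) (.X 0 (.c 48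 (.c 40 (.c 4673 (.c 2049 .nil)))) (.b 32 .nil))) (.node (.X 0 (.c 42762755 (.c 40 (.c 24 (.c 16 .nil)))) (.l 32 .nil)) (.X 0 (.c 48 (.c 32 (.c 2803779 (.c 0 .nil)))) (.l 40 .nil)))) (.node (.node (.X 0 (.c 18497 (.c 40 (.c 8786563 (.c 0 .nil)))) .nil) (.X 0 (.c 48 (.c 20685315 (.c 8321 (.c 24 .nil)))) .nil)) (.node (.X 0 (.c 48 (.c 40 (.c 4737 (.c 513 .nil)))) (.b 32 .nil)) (.X 0 (.c 48 (.c 40 (.c 16 (.c 8 .nil)))) (.l 32 (.l 4609 .nil)))))) (.node (.node (.node (.X 0 (.c 48 (.c 40 (.c 4673 (.c 16 .nil)))) (.l 32 (.l 0 .nil))) (.X 0 (.c 18497 (.c 40 (.c 169943305 (.c 16 .nil)))) .nil)) (.node (.X 0 (.c 48 (.c 40 (.c 24 (.c 8 .nil)))) (.l 16 (.l 8193 .nil))) (.X 0 (.c 48 (.c 40 (.c 24 (.c 8 .nil)))) (.b 16 (.l 32 (.l 0 .nil)))))) (.node (.node (.X 0 (.c 48 (.c 12993 (.c 32 (.c 557571 .nil)))) .nil) (.X 0 (.c 48 (.c 12993 (.c 32 (.c 2105481 .nil)))) .nil)) (.node (.X 0 (.c 48 (.c 12993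 (.c 32 (.c 33587273 .nil)))) .nil) (.X 0 (.c 48 (.c 40 (.c 24 (.c 8 .nil)))) (.l 32 (.l 2049 .nil)))))))))

noncomputable def c2_447 : Tr := (.node (.node (.node (.node (.node (.node (.X 0 (.c 48 (.c 40 (.c 24 (.c 2113 .nil)))) (.l 32 (.l 0 .nil))) (.X 0 (.c 48 (.c 40 (.c 16 (.c 8 .nil)))) (.b 24 (.l 32 (.l 0 .nil))))) (.node (.X 0 (.c 48 (.c 40 (.c 169943113 (.c 16 .nil)))) (.l 32 .nil)) (.X 0 (.c 48 (.c 32 (.c 4673 (.c 2049 .nil)))) (.b 40 .nil)))) (.node (.node (.X 0 (.c 48 (.c 12865 (.c 24 (.c 16 .nil)))) (.l 32 (.l 0 .nil))) (.X 0 (.c 43356739 (.c 32 (.c 16 (.c 0 .nil)))) (.l 40 .nil))) (.node (.X 0 (.c 48 (.c 32 (.c 24 (.c 33587273 .nil)))) (.l 40 .nil)) (.X 0 (.c 18497 (.c 21099139 (.c 32 (.c 0 .nil)))) .nil)))) (.node (.node (.node (.X 0 (.c 43356803 (.c 32 (.c 8 (.c 0 .nil)))) (.l 40 .nil)) (.X 0 (.c 48 (.c 32 (.c 24 (.c 557571 .nil)))) (.l 40 .nil))) (.node (.X 0 (.c 48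 (.c 537002185 (.c 16 (.c 8 .nil)))) (.l 40 .nil)) (.X 0 (.c 48 (.c 40 (.c 2105609 (.c 4737 .nil)))) .nil))) (.node (.node (.X 0 (.c 48 (.c 40 (.c 8520195 (.c 4737 .nil)))) .nil) (.X 0 (.c 48 (.c 40 (.c 24 (.c 557571 .nil)))) (.l 32 .nil))) (.node (.X 0 (.c 42762755 (.c 40 (.c 32 (.c 4737 .nil)))) .nil) (.X 0 (.c 48 (.c 12801 (.c 16 (.c 8 .nil)))) (.b 24 (.l 32 .nil))))))) (.node (.node (.node (.node (.X 0 (.c 48 (.c 8786499 (.c 16 (.c 0 .nil)))) (.l 40 .nil)) (.X 0 (.c 43356675 (.c 40 (.c 16 (.c 8 .nil)))) (.l 32 .nil))) (.node (.X 0 (.c 48 (.c 40 (.c 537002057 (.c 4737 .nil)))) .nil) (.X 0 (.c 43059203 (.c 40 (.c 24 (.c 8 .nil)))) (.l 32 .nil)))) (.node (.node (.X 0 (.c 18497 (.c 21307587 (.c 16 (.c 0 .nil)))) .nil) (.X 0 (.c 48 (.c 40 (.c 24 (.c 2105481 .nil)))) (.l 32 .nil))) (.node (.X 0 (.c 48 (.c 8786435 (.c 16 (.c 8 .nil)))) (.l 40 .nil)) (.X 0 (.c 48 (.c 12865 (.c 16 (.c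 0 .nil)))) (.b 24 (.b 32 .nil)))))) (.node (.node (.node (.X 0 (.c 48 (.c 40 (.c 2113 (.c 0 .nil)))) (.b 24 (.b 32 .nil))) (.X 0 (.c 42762755 (.c 40 (.c 8321 (.c 24 .nil)))) .nil)) (.node (.X 0 (.c 43059267 (.c 40 (.c 24 (.c 0 .nil)))) (.l 32 .nil)) (.X 0 (.c 48 (.c 40 (.c 8321 (.c 2728451 .nil)))) .nil))) (.node (.node (.X 0 (.c 48 (.c 12929 (.c 8520195 (.c 24 .nil)))) .nil) (.X 0 (.c 48 (.c 40 (.c 16 (.c 513 .nil)))) (.b 24 (.l 32 .nil)))) (.node (.X 0 (.c 48 (.c 20891651 (.c 32 (.c 4673 .nil)))) .nil) (.X 0 (.c 48 (.c 2105609 (.c 24 (.c 16 .nil)))) (.l 40 .nil))))))) (.node (.node (.node (.node (.node (.X 0 (.c 48 (.c 8520195 (.c 24 (.c 16 .nil)))) (.l 40 .nil)) (.X 0 (.c 43954691 (.c 24 (.c 16 (.c 8 .nil)))) (.l 32 .nil))) (.node (.X 0 (.c 2718204233 (.c 24 (.c 16 (.c 8 .nil)))) (.l 32 .nil)) (.X 0 (.c 48 (.c 40 (.c 24 (.c 33587273 .nil)))) (.l 32 .nil)))) (.node (.node (.X 0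 (.c 48 (.c 617620517416329 (.c 16 (.c 0 .nil)))) .nil) (.X 0 (.c 42762755 (.c 32 (.c 24 (.c 16 .nil)))) (.l 40 .nil))) (.node (.X 0 (.c 48 (.c 8652867 (.c 24 (.c 0 .nil)))) (.l 40 .nil)) (.X 0 (.c 18497 (.c 21307395 (.c 24 (.c 16 .nil)))) .nil)))) (.node (.node (.node (.X 0 (.c 18433 (.c 40 (.c 16 (.c 8 .nil)))) (.b 32 (.l 24 .nil))) (.X 0 (.c 48 (.c 40 (.c 617629514823817 (.c 0 .nil)))) .nil)) (.node (.X 0 (.c 48 (.c 1310924937 (.c 24 (.c 8 .nil)))) (.l 32 .nil)) (.X 0 (.c 18497 (.c 40 (.c 32 (.c 2803715 .nil)))) .nil))) (.node (.node (.X 0 (.c 48 (.c 21099075 (.c 16 (.c 0 .nil)))) (.l 32 .nil)) (.X 0 (.c 48 (.c 40 (.c 62889413446985 (.c 0 .nil)))) .nil)) (.node (.X 0 (.c 48 (.c 40 (.c 8 (.c 0 .nil)))) (.b 24 (.b 16 (.l 32 .nil)))) (.X 0 (.c 48 (.c 40 (.c 8 (.c 0 .nil)))) (.b 16 (.b 24 (.l 32 .nil)))))))) (.node (.node (.node (.node (.X 0 (.c 48 (.c 40 (.c 4609 (.c 16 .nil)))) (.b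 8 (.l 32 .nil))) (.X 0 (.c 43655363 (.c 16 (.c 8 (.c 0 .nil)))) (.l 40 .nil))) (.node (.X 0 (.c 43655299 (.c 24 (.c 8 (.c 0 .nil)))) (.l 40 .nil)) (.X 0 (.c 48 (.c 40 (.c 8 (.c 0 .nil)))) (.b 16 (.b 32 (.l 24 .nil)))))) (.node (.node (.X 0 (.c 48 (.c 1310925001 (.c 16 (.c 8 .nil)))) (.l 32 .nil)) (.X 0 (.c 18433 (.c 40 (.c 24 (.c 8 .nil)))) (.b 16 (.l 32 .nil)))) (.node (.X 0 (.c 48 (.c 20891715 (.c 24 (.c 0 .nil)))) (.l 32 .nil)) (.X 0 (.c 48 (.c 40 (.c 32 (.c 8 .nil)))) (.l 24 (.l 2049 .nil)))))) (.node (.node (.node (.X 0 (.c 48 (.c 40 (.c 4609 (.c 8 .nil)))) (.b 16 (.l 32 .nil))) (.X 0 (.c 48 (.c 40 (.c 8 (.c 0 .nil)))) (.l 8786563 .nil))) (.node (.X 0 (.c 48 (.c 40 (.c 2803779 (.c 0 .nil)))) (.l 32 .nil)) (.X 0 (.c 48 (.c 40 (.c 32 (.c 8 .nil)))) (.l 16 (.l 4609 .nil))))) (.node (.node (.X 0 (.c 48 (.c 40 (.c 8 (.c 0 .nil)))) (.b 32 (.b 24 (.l 16 .nil)))) (.X 0 (.c 48 (.c 20685315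 (.c 24 (.c 16 .nil)))) (.l 32 .nil))) (.node (.X 0 (.c 48 (.c 20891651 (.c 24 (.c 8 .nil)))) (.l 32 .nil)) (.X 0 (.c 48 (.c 21099139 (.c 8 (.c 0 .nil)))) (.l 32 .nil))))))))

noncomputable def c2_448 : Tr := (.node (.node (.node (.node (.node (.node (.X 1 (.c 40 (.c 0 (.c 32 (.c 2113 (.c 24 .nil))))) (.b 48 .nil)) (.X 1 (.c 18561 (.c 32 (.c 24 (.c 0 (.c 40 .nil))))) (.b 8 .nil))) (.node (.X 3 (.c 24 (.c 16 (.c 40 (.c 32 (.c 8 .nil))))) (.l 18433 .nil)) (.X 1 (.c 33587593 (.c 32 (.c 24 (.c 8 (.c 40 .nil))))) .nil))) (.node (.node (.X 1 (.c 40 (.c 0 (.c 8257 (.c 16 (.c 24 .nil))))) (.b 48 .nil)) (.X 1 (.c 40 (.c 32 (.c 33587401 (.c 8 (.c 48 .nil))))) .nil)) (.node (.X 1 (.c 2718204041 (.c 24 (.c 40 (.c 32 (.c 8 .nil))))) .nil) (.X 1 (.c 48 (.c 8257 (.c 40 (.c 0 (.c 16 .nil))))) (.b 24 .nil))))) (.node (.node (.node (.X 1 (.c 1310924873 (.c 16 (.c 32 (.c 24 (.c 48 .nil))))) .nil) (.X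 1 (.c 40 (.c 32 (.c 169943113 (.c 16 (.c 48 .nil))))) .nil)) (.node (.X 1 (.c 2718204041 (.c 24 (.c 40 (.c 8 (.c 32 .nil))))) .nil) (.X 1 (.c 33587593 (.c 24 (.c 40 (.c 8 (.c 32 .nil))))) .nil))) (.node (.node (.X 3 (.c 43356739 (.c 40 (.c 32 (.c 16 (.c 0 .nil))))) .nil) (.X 3 (.c 48 (.c 2803779 (.c 40 (.c 32 (.c 0 .nil))))) .nil)) (.node (.X 1 (.c 33587593 (.c 24 (.c 40 (.c 32 (.c 8 .nil))))) .nil) (.X 1 (.c 1310925193 (.c 8 (.c 32 (.c 24 (.c 16 .nil))))) .nil))))) (.node (.node (.node (.node (.X 1 (.c 48 (.c 24 (.c 33587465 (.c 8 (.c 40 .nil))))) .nil) (.X 1 (.c 2105673 (.c 24 (.c 32 (.c 16 (.c 48 .nil))))) .nil)) (.node (.X 1 (.c 48 (.c 537002057 (.c 40 (.c 16 (.c 24 .nil))))) .nil) (.X 3 (.c 48 (.c 21307459 (.c 24 (.c 16 (.c 0 .nil))))) .nil))) (.node (.node (.X 1 (.c 48 (.c 2105609 (.c 40 (.c 24 (.c 16 .nil))))) .nil) (.X 1 (.c 48 (.c 537002057 (.c 40 (.c 24 (.c 16 .nil)))))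 .nil)) (.node (.X 1 (.c 8257 (.c 16 (.c 24 (.c 0 (.c 40 .nil))))) (.b 48 .nil)) (.X 1 (.c 48 (.c 12929 (.c 32 (.c 0 (.c 8 .nil))))) (.b 24 .nil))))) (.node (.node (.node (.X 1 (.c 33587593 (.c 40 (.c 32 (.c 8 (.c 24 .nil))))) .nil) (.X 1 (.c 48 (.c 537002313 (.c 24 (.c 16 (.c 8 .nil))))) .nil)) (.node (.X 1 (.c 48 (.c 537002313 (.c 24 (.c 8 (.c 16 .nil))))) .nil) (.X 1 (.c 48 (.c 12865 (.c 16 (.c 0 (.c 32 .nil))))) (.b 24 .nil)))) (.node (.node (.X 1 (.c 48 (.c 12865 (.c 32 (.c 0 (.c 16 .nil))))) (.b 24 .nil)) (.X 3 (.c 48 (.c 8652867 (.c 40 (.c 24 (.c 0 .nil))))) .nil)) (.node (.X 1 (.c 40 (.c 537002057 (.c 24 (.c 16 (.c 48 .nil))))) .nil) (.X 1 (.c 40 (.c 2105609 (.c 24 (.c 16 (.c 48 .nil))))) .nil)))))) (.node (.node (.node (.node (.node (.X 3 (.c 16 (.c 8 (.c 40 (.c 24 (.c 0 .nil))))) (.b 32 (.b 48 .nil))) (.X 1 (.c 2718204105 (.c 40 (.c 32 (.c 16 (.c 8 .nil))))) .nil)) (.node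 (.X 1 (.c 48 (.c 40 (.c 169943113 (.c 16 (.c 32 .nil))))) .nil) (.X 1 (.c 48 (.c 40 (.c 2105545 (.c 16 (.c 32 .nil))))) .nil))) (.node (.node (.X 1 (.c 48 (.c 40 (.c 169943305 (.c 8 (.c 16 .nil))))) .nil) (.X 3 (.c 32 (.c 8 (.c 24 (.c 16 (.c 0 .nil))))) (.b 40 (.b 48 .nil)))) (.node (.X 1 (.c 169943433 (.c 40 (.c 32 (.c 8 (.c 16 .nil))))) .nil) (.X 1 (.c 48 (.c 40 (.c 537002185 (.c 8 (.c 16 .nil))))) .nil)))) (.node (.node (.node (.X 1 (.c 169943433 (.c 40 (.c 32 (.c 16 (.c 8 .nil))))) .nil) (.X 1 (.c 40 (.c 8 (.c 169943305 (.c 16 (.c 48 .nil))))) .nil)) (.node (.X 1 (.c 40 (.c 8 (.c 537002185 (.c 16 (.c 48 .nil))))) .nil) (.X 1 (.c 48 (.c 40 (.c 169943305 (.c 16 (.c 8 .nil))))) .nil))) (.node (.node (.X 1 (.c 48 (.c 16 (.c 40 (.c 2105545 (.c 32 .nil))))) .nil) (.X 3 (.c 48 (.c 16 (.c 40 (.c 32 (.c 8 .nil))))) (.l 4609 .nil))) (.node (.X 1 (.c 40 (.c 16 (.c 2105609 (.c 24 (.c 48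 .nil))))) .nil) (.X 1 (.c 40 (.c 16 (.c 32 (.c 2105545 (.c 48 .nil))))) .nil))))) (.node (.node (.node (.node (.X 1 (.c 48 (.c 16 (.c 1310925001 (.c 8 (.c 32 .nil))))) .nil) (.X 1 (.c 169943433 (.c 16 (.c 40 (.c 32 (.c 8 .nil))))) .nil)) (.node (.X 1 (.c 48 (.c 16 (.c 1310925001 (.c 32 (.c 8 .nil))))) .nil) (.X 1 (.c 2718204105 (.c 16 (.c 40 (.c 32 (.c 8 .nil))))) .nil))) (.node (.node (.X 1 (.c 48 (.c 40 (.c 32 (.c 169943177 (.c 8 .nil))))) .nil) (.X 1 (.c 48 (.c 16 (.c 1310925065 (.c 24 (.c 8 .nil))))) .nil)) (.node (.X 1 (.c 48 (.c 16 (.c 1310924873 (.c 32 (.c 24 .nil))))) .nil) (.X 1 (.c 48 (.c 2105673 (.c 24 (.c 16 (.c 32 .nil))))) .nil)))) (.node (.node (.node (.X 3 (.c 40 (.c 16 (.c 48 (.c 32 (.c 0 .nil))))) (.b 24 (.b 8 .nil))) (.X 1 (.c 48 (.c 169943369 (.c 16 (.c 8 (.c 32 .nil))))) .nil)) (.node (.X 3 (.c 43954883 (.c 8 (.c 32 (.c 16 (.c 0 .nil))))) .nil) (.X 3 (.c 40 (.c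 8 (.c 32 (.c 24 (.c 0 .nil))))) (.b 48 (.b 16 .nil))))) (.node (.node (.X 1 (.c 48 (.c 2105481 (.c 40 (.c 32 (.c 24 .nil))))) .nil) (.X 1 (.c 48 (.c 33587465 (.c 40 (.c 8 (.c 24 .nil))))) .nil)) (.node (.X 3 (.c 43954819 (.c 8 (.c 32 (.c 24 (.c 0 .nil))))) .nil) (.X 3 (.c 43954755 (.c 32 (.c 24 (.c 16 (.c 0 .nil))))) .nil)))))))

noncomputable def c2_449 : Tr := (.node (.node (.node (.node (.node (.node (.X 3 (.c 48 (.c 16 (.c 32 (.c 24 (.c 0 .nil))))) (.b 40 (.b 8 .nil))) (.X 3 (.c 24 (.c 8 (.c 48 (.c 40 (.c 0 .nil))))) (.b 16 (.b 32 .nil)))) (.node (.X 3 (.c 32 (.c 24 (.c 48 (.c 40 (.c 557571 .nil))))) .nil) (.X 3 (.c 48 (.c 24 (.c 40 (.c 32 (.c 16 .nil))))) (.l 513 .nil)))) (.node (.node (.X 3 (.c 16 (.c 8 (.c 48 (.c 40 (.c 8786435 .nil))))) .nil) (.X 3 (.c 32 (.c 16 (.c 48 (.c 20685315 (.c 24 .nil))))) .nil)) (.node (.X 3 (.c 24 (.c 16 (.c 48 (.c 40 (.c 8 .nil))))) (.l 8193 .nil))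 (.X 3 (.c 8786563 (.c 8 (.c 48 (.c 40 (.c 0 .nil))))) .nil)))) (.node (.node (.node (.X 3 (.c 16 (.c 8 (.c 48 (.c 40 (.c 0 .nil))))) (.b 24 (.b 32 .nil))) (.X 3 (.c 40 (.c 8 (.c 48 (.c 8652803 (.c 24 .nil))))) .nil)) (.node (.X 3 (.c 48 (.c 8 (.c 32 (.c 24 (.c 0 .nil))))) (.b 40 (.b 16 .nil))) (.X 3 (.c 48 (.c 8 (.c 32 (.c 24 (.c 0 .nil))))) (.b 16 (.b 40 .nil))))) (.node (.node (.X 3 (.c 24 (.c 8 (.c 43655171 (.c 40 (.c 16 .nil))))) .nil) (.X 3 (.c 48 (.c 16 (.c 32 (.c 24 (.c 8 .nil))))) (.l 12801 .nil))) (.node (.X 3 (.c 48 (.c 8 (.c 40 (.c 24 (.c 0 .nil))))) (.b 32 (.b 16 .nil))) (.X 3 (.c 24 (.c 8 (.c 48 (.c 21307395 (.c 16 .nil))))) .nil))))) (.node (.node (.node (.node (.X 3 (.c 24 (.c 8 (.c 48 (.c 21307523 (.c 0 .nil))))) .nil) (.X 3 (.c 32 (.c 8 (.c 43356675 (.c 40 (.c 16 .nil))))) .nil)) (.node (.X 3 (.c 48 (.c 8 (.c 24 (.c 16 (.c 0 .nil))))) (.b 40 (.b 32 .nil))) (.X 3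 (.c 16 (.c 8 (.c 48 (.c 32 (.c 0 .nil))))) (.b 24 (.b 40 .nil))))) (.node (.node (.X 3 (.c 40 (.c 8 (.c 48 (.c 16 (.c 0 .nil))))) (.b 32 (.b 24 .nil))) (.X 1 (.c 24 (.c 0 (.c 16 (.c 8 (.c 32 .nil))))) (.l 18753 .nil))) (.node (.X 1 (.c 48 (.c 0 (.c 24 (.c 16 (.c 8 .nil))))) (.t 32 40 .nil)) (.X 1 (.c 32 (.c 16 (.c 8 (.c 0 (.c 24 .nil))))) (.l 18753 .nil))))) (.node (.node (.node (.X 1 (.c 48 (.c 0 (.c 24 (.c 16 (.c 8 .nil))))) (.l 13057 .nil)) (.X 1 (.c 32 (.c 16 (.c 24 (.c 0 (.c 8 .nil))))) (.t 40 48 .nil))) (.node (.X 1 (.c 32 (.c 24 (.c 8 (.c 0 (.c 16 .nil))))) (.t 40 48 .nil)) (.X 1 (.c 32 (.c 0 (.c 16 (.c 8 (.c 48 .nil))))) (.t 24 40 .nil)))) (.node (.node (.X 1 (.c 48 (.c 16 (.c 24 (.c 0 (.c 8 .nil))))) (.t 32 40 .nil)) (.X 1 (.c 48 (.c 8 (.c 24 (.c 0 (.c 16 .nil))))) (.l 13057 .nil))) (.node (.X 1 (.c 48 (.c 0 (.c 40 (.c 24 (.c 32 .nil))))) (.l 2113 .nil)) (.X 1 (.c 48 (.c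 32 (.c 24 (.c 0 (.c 40 .nil))))) (.l 2113 .nil))))))) (.node (.node (.node (.node (.node (.X 1 (.c 48 (.c 0 (.c 16 (.c 8 (.c 40 .nil))))) (.l 8385 .nil)) (.X 1 (.c 40 (.c 16 (.c 8 (.c 0 (.c 48 .nil))))) (.l 8385 .nil))) (.node (.X 1 (.c 40 (.c 24 (.c 32 (.c 0 (.c 48 .nil))))) (.l 2113 .nil)) (.X 1 (.c 48 (.c 32 (.c 40 (.c 0 (.c 16 .nil))))) (.l 4673 .nil)))) (.node (.node (.X 1 (.c 40 (.c 0 (.c 32 (.c 24 (.c 8 .nil))))) (.l 18561 .nil)) (.X 1 (.c 48 (.c 8 (.c 32 (.c 0 (.c 24 .nil))))) (.l 12929 .nil))) (.node (.X 1 (.c 40 (.c 24 (.c 8 (.c 0 (.c 32 .nil))))) (.l 18561 .nil)) (.X 1 (.c 48 (.c 24 (.c 8 (.c 0 (.c 32 .nil))))) (.l 12929 .nil))))) (.node (.node (.node (.X 1 (.c 48 (.c 32 (.c 16 (.c 0 (.c 24 .nil))))) (.l 12865 .nil)) (.X 1 (.c 40 (.c 24 (.c 32 (.c 0 (.c 8 .nil))))) (.l 18561 .nil))) (.node (.X 1 (.c 48 (.c 24 (.c 32 (.c 0 (.c 8 .nil))))) (.l 12929 .nil)) (.X 1 (.c 48 (.c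 0 (.c 32 (.c 24 (.c 8 .nil))))) (.l 12929 .nil)))) (.node (.node (.X 1 (.c 40 (.c 8 (.c 16 (.c 0 (.c 24 .nil))))) (.l 18689 .nil)) (.X 1 (.c 48 (.c 8 (.c 16 (.c 0 (.c 32 .nil))))) (.l 12993 .nil))) (.node (.X 1 (.c 24 (.c 0 (.c 16 (.c 8 (.c 40 .nil))))) (.l 18689 .nil)) (.X 1 (.c 48 (.c 0 (.c 40 (.c 24 (.c 8 .nil))))) (.l 8321 .nil)))))) (.node (.node (.node (.node (.X 1 (.c 48 (.c 24 (.c 40 (.c 0 (.c 8 .nil))))) (.l 8321 .nil)) (.X 1 (.c 48 (.c 8 (.c 40 (.c 0 (.c 32 .nil))))) (.l 4737 .nil))) (.node (.X 1 (.c 48 (.c 40 (.c 8 (.c 0 (.c 32 .nil))))) (.l 4737 .nil)) (.X 1 (.c 48 (.c 32 (.c 40 (.c 0 (.c 8 .nil))))) (.l 4737 .nil)))) (.node (.node (.X 0 (.c 48 (.c 40 (.c 32 (.c 513 .nil)))) (.l 4737 .nil)) (.X 0 (.c 48 (.c 24 (.c 16 (.c 8 .nil)))) (.l 13057 (.l 0 .nil)))) (.node (.X 0 (.c 48 (.c 40 (.c 16 (.c 513 .nil)))) (.l 8385 .nil)) (.X 0 (.c 48 (.c 40 (.c 8193 (.c 8 .nil)))) (.l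 4737 .nil))))) (.node (.node (.node (.X 0 (.c 40 (.c 24 (.c 8 (.c 0 .nil)))) (.b 48 (.l 8321 .nil))) (.X 0 (.c 40 (.c 32 (.c 24 (.c 2049 .nil)))) (.l 18497 .nil))) (.node (.X 0 (.c 48 (.c 24 (.c 16 (.c 0 .nil)))) (.b 40 (.l 8257 .nil))) (.X 0 (.c 32 (.c 24 (.c 8 (.c 0 .nil)))) (.b 16 (.l 18753 .nil))))) (.node (.node (.X 0 (.c 48 (.c 40 (.c 32 (.c 2049 .nil)))) (.l 4673 .nil)) (.X 0 (.c 32 (.c 16 (.c 8 (.c 0 .nil)))) (.b 48 (.l 12993 .nil)))) (.node (.X 0 (.c 32 (.c 16 (.c 8 (.c 0 .nil)))) (.b 24 (.l 18753 .nil))) (.X 0 (.c 40 (.c 16 (.c 8 (.c 0 .nil)))) (.b 24 (.l 18689 .nil)))))))))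

noncomputable def c2_450 : Tr := (.node (.node (.node (.node (.node (.node (.X 0 (.c 48 (.c 32 (.c 16 (.c 513 .nil)))) (.l 12993 .nil)) (.X 0 (.c 48 (.c 32 (.c 24 (.c 513 .nil)))) (.l 12929 .nil))) (.node (.X 0 (.c 48 (.c 4609 (.c 16 (.c 8 .nil)))) (.l 13057 .nil)) (.X 0 (.c 48 (.c 8193 (.c 24 (.c 8 .nil)))) (.l 12929 .nil)))) (.node (.node (.X 0 (.c 24 (.c 16 (.c 8 (.c 0 .nil)))) (.b 32 (.l 18753 .nil))) (.X 0 (.c 40 (.c 8193 (.c 24 (.c 8 .nil)))) (.l 18561 .nil))) (.node (.X 0 (.c 40 (.c 16 (.c 8 (.c 0 .nil)))) (.b 48 (.l 8385 .nil))) (.X 0 (.c 48 (.c 24 (.c 2049 (.c 8 .nil)))) (.l 13057 .nil))))) (.node (.node (.node (.X 0 (.c 18433 (.c 32 (.c 24 (.c 8 .nil)))) (.l 12929 .nil)) (.X 0 (.c 48 (.c 40 (.c 4609 (.c 8 .nil)))) (.l 8321 .nil))) (.node (.X 0 (.c 48 (.c 24 (.c 16 (.c 513 .nil)))) (.l 13057 .nil)) (.X 0 (.c 40 (.c 32 (.c 8 (.c 0 .nil)))) (.b 24 (.l 18561 .nil))))) (.node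 (.node (.X 0 (.c 18433 (.c 40 (.c 24 (.c 8 .nil)))) (.l 8321 .nil)) (.X 0 (.c 48 (.c 16 (.c 8 (.c 0 .nil)))) (.b 32 (.l 12993 .nil)))) (.node (.X 0 (.c 12801 (.c 24 (.c 16 (.c 8 .nil)))) (.l 18689 .nil)) (.X 0 (.c 48 (.c 32 (.c 16 (.c 0 .nil)))) (.b 40 (.l 4673 .nil))))))) (.node (.node (.node (.node (.X 0 (.c 40 (.c 32 (.c 8 (.c 0 .nil)))) (.b 16 (.l 18625 .nil))) (.X 0 (.c 32 (.c 24 (.c 2049 (.c 8 .nil)))) (.l 18753 .nil))) (.node (.X 0 (.c 40 (.c 32 (.c 24 (.c 0 .nil)))) (.b 8 (.l 18561 .nil))) (.X 0 (.c 12801 (.c 32 (.c 24 (.c 16 .nil)))) (.l 18497 .nil)))) (.node (.node (.X 0 (.c 48 (.c 32 (.c 16 (.c 0 .nil)))) (.b 8 (.l 12993 .nil))) (.X 0 (.c 40 (.c 32 (.c 16 (.c 0 .nil)))) (.b 8 (.l 18625 .nil)))) (.node (.X 0 (.c 40 (.c 32 (.c 16 (.c 8 .nil)))) (.l 18625 (.l 0 .nil))) (.X 0 (.c 48 (.c 40 (.c 32 (.c 8 .nil)))) (.l 4737 (.l 0 .nil)))))) (.node (.node (.node (.X 0 (.c 40 (.c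 24 (.c 16 (.c 0 .nil)))) (.b 8 (.l 18689 .nil))) (.X 0 (.c 40 (.c 32 (.c 24 (.c 8 .nil)))) (.l 18561 (.l 0 .nil)))) (.node (.X 0 (.c 40 (.c 24 (.c 16 (.c 0 .nil)))) (.b 32 (.l 18497 .nil))) (.X 0 (.c 48 (.c 40 (.c 16 (.c 0 .nil)))) (.b 24 (.l 8257 .nil))))) (.node (.node (.X 0 (.c 48 (.c 40 (.c 32 (.c 0 .nil)))) (.b 24 (.l 2113 .nil))) (.X 0 (.c 40 (.c 32 (.c 4609 (.c 16 .nil)))) (.l 18497 .nil))) (.node (.X 0 (.c 48 (.c 8193 (.c 24 (.c 16 .nil)))) (.l 12865 .nil)) (.X 0 (.c 48 (.c 24 (.c 8 (.c 0 .nil)))) (.b 40 (.l 8321 .nil)))))))) (.node (.node (.node (.node (.node (.X 0 (.c 48 (.c 24 (.c 8 (.c 0 .nil)))) (.b 32 (.l 12929 .nil))) (.X 0 (.c 40 (.c 8193 (.c 24 (.c 16 .nil)))) (.l 18497 .nil))) (.node (.X 0 (.c 40 (.c 24 (.c 2049 (.c 8 .nil)))) (.l 18689 .nil)) (.X 0 (.c 18433 (.c 40 (.c 24 (.c 16 .nil)))) (.l 8257 .nil)))) (.node (.node (.X 0 (.c 48 (.c 32 (.c 8 (.c 0 .nil)))) (.b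 24 (.l 12929 .nil))) (.X 0 (.c 48 (.c 32 (.c 24 (.c 0 .nil)))) (.b 8 (.l 12929 .nil)))) (.node (.X 0 (.c 48 (.c 8193 (.c 16 (.c 8 .nil)))) (.l 12993 .nil)) (.X 0 (.c 32 (.c 24 (.c 16 (.c 0 .nil)))) (.b 48 (.l 12865 .nil)))))) (.node (.node (.node (.X 1 (.c 18433 (.c 8 (.c 40 (.c 32 (.c 24 .nil))))) (.l 16 .nil)) (.X 1 (.c 48 (.c 12801 (.c 24 (.c 8 (.c 32 .nil))))) (.l 16 .nil))) (.node (.X 1 (.c 48 (.c 12801 (.c 32 (.c 8 (.c 24 .nil))))) (.l 16 .nil)) (.X 1 (.c 40 (.c 32 (.c 16 (.c 513 (.c 24 .nil))))) (.l 48 .nil)))) (.node (.node (.X 1 (.c 12801 (.c 8 (.c 32 (.c 16 (.c 48 .nil))))) (.l 24 .nil)) (.X 1 (.c 12801 (.c 16 (.c 32 (.c 8 (.c 48 .nil))))) (.l 24 .nil))) (.node (.X 1 (.c 48 (.c 16 (.c 12801 (.c 32 (.c 24 .nil))))) (.l 8 .nil)) (.X 1 (.c 18433 (.c 8 (.c 40 (.c 32 (.c 16 .nil))))) (.l 24 .nil)))))) (.node (.node (.node (.node (.X 1 (.c 40 (.c 8193 (.c 16 (.c 8 (.c 24 .nil)))))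 (.l 48 .nil)) (.X 1 (.c 48 (.c 4609 (.c 40 (.c 8 (.c 32 .nil))))) (.l 16 .nil))) (.node (.X 1 (.c 18433 (.c 40 (.c 16 (.c 8 (.c 24 .nil))))) (.l 32 .nil)) (.X 1 (.c 40 (.c 4609 (.c 32 (.c 16 (.c 8 .nil))))) (.l 48 .nil)))) (.node (.node (.X 1 (.c 18433 (.c 16 (.c 40 (.c 32 (.c 8 .nil))))) (.l 24 .nil)) (.X 1 (.c 40 (.c 8193 (.c 24 (.c 16 (.c 8 .nil))))) (.l 48 .nil))) (.node (.X 1 (.c 18433 (.c 24 (.c 40 (.c 8 (.c 16 .nil))))) (.l 32 .nil)) (.X 1 (.c 18433 (.c 16 (.c 32 (.c 24 (.c 40 .nil))))) (.l 8 .nil))))) (.node (.node (.node (.X 1 (.c 32 (.c 513 (.c 24 (.c 16 (.c 40 .nil))))) (.l 48 .nil)) (.X 1 (.c 18433 (.c 32 (.c 40 (.c 16 (.c 24 .nil))))) (.l 8 .nil))) (.node (.X 1 (.c 18433 (.c 32 (.c 40 (.c 24 (.c 8 .nil))))) (.l 16 .nil)) (.X 1 (.c 40 (.c 4609 (.c 16 (.c 8 (.c 48 .nil))))) (.l 32 .nil)))) (.node (.node (.X 1 (.c 18433 (.c 8 (.c 24 (.c 16 (.c 32 .nil))))) (.l 40 .nil))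 (.X 1 (.c 18433 (.c 8 (.c 32 (.c 16 (.c 24 .nil))))) (.l 40 .nil))) (.node (.X 1 (.c 48 (.c 8193 (.c 40 (.c 24 (.c 8 .nil))))) (.l 16 .nil)) (.X 1 (.c 48 (.c 40 (.c 24 (.c 513 (.c 16 .nil))))) (.l 32 .nil))))))))

noncomputable def c2_451 : Tr := (.node (.node (.node (.node (.node (.node (.X 1 (.c 40 (.c 32 (.c 4609 (.c 8 (.c 48 .nil))))) (.l 16 .nil)) (.X 1 (.c 18433 (.c 16 (.c 32 (.c 8 (.c 24 .nil))))) (.l 40 .nil))) (.node (.X 1 (.c 48 (.c 2049 (.c 40 (.c 32 (.c 24 .nil))))) (.l 8 .nil)) (.X 1 (.c 48 (.c 40 (.c 16 (.c 513 (.c 24 .nil))))) (.l 32 .nil)))) (.node (.node (.X 1 (.c 18433 (.c 16 (.c 24 (.c 8 (.c 32 .nil))))) (.l 40 .nil)) (.X 1 (.c 48 (.c 4609 (.c 32 (.c 16 (.c 40 .nil))))) (.l 8 .nil))) (.node (.X 1 (.c 48 (.c 8 (.c 24 (.c 2049 (.c 40 .nil))))) (.l 32 .nil)) (.X 1 (.c 48 (.c 24 (.c 40 (.c 2049 (.c 32 .nil))))) (.l 8 .nil))))) (.node (.node (.node (.X 1 (.c 40 (.c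 32 (.c 24 (.c 513 (.c 16 .nil))))) (.l 48 .nil)) (.X 1 (.c 48 (.c 513 (.c 40 (.c 16 (.c 24 .nil))))) (.l 32 .nil))) (.node (.X 1 (.c 48 (.c 24 (.c 8193 (.c 16 (.c 40 .nil))))) (.l 8 .nil)) (.X 1 (.c 48 (.c 8193 (.c 24 (.c 16 (.c 40 .nil))))) (.l 8 .nil)))) (.node (.node (.X 1 (.c 48 (.c 8193 (.c 40 (.c 16 (.c 24 .nil))))) (.l 8 .nil)) (.X 1 (.c 40 (.c 2049 (.c 24 (.c 8 (.c 32 .nil))))) (.l 48 .nil))) (.node (.X 1 (.c 40 (.c 513 (.c 32 (.c 24 (.c 16 .nil))))) (.l 48 .nil)) (.X 1 (.c 40 (.c 8193 (.c 24 (.c 16 (.c 48 .nil))))) (.l 8 .nil)))))) (.node (.node (.node (.node (.X 1 (.c 40 (.c 16 (.c 32 (.c 4609 (.c 48 .nil))))) (.l 8 .nil)) (.X 3 (.c 24 (.c 0 (.c 40 (.c 16 (.c 8 .nil))))) (.t 32 48 .nil))) (.node (.X 3 (.c 40 (.c 0 (.c 32 (.c 24 (.c 8 .nil))))) (.t 16 48 .nil)) (.X 3 (.c 8 (.c 0 (.c 32 (.c 24 (.c 16 .nil))))) (.t 40 48 .nil)))) (.node (.node (.X 3 (.c 40 (.c 0 (.c 48 (.c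 32 (.c 24 .nil))))) (.t 8 16 .nil)) (.X 3 (.c 48 (.c 0 (.c 40 (.c 32 (.c 16 .nil))))) (.t 8 24 .nil))) (.node (.X 3 (.c 16 (.c 0 (.c 40 (.c 24 (.c 8 .nil))))) (.t 32 48 .nil)) (.X 1 (.c 18433 (.c 32 (.c 12929 (.c 24 (.c 8 .nil))))) .nil)))) (.node (.node (.node (.X 1 (.c 48 (.c 12801 (.c 8385 (.c 8 (.c 16 .nil))))) .nil) (.X 1 (.c 48 (.c 12801 (.c 32 (.c 4737 (.c 8 .nil))))) .nil)) (.node (.X 1 (.c 48 (.c 12801 (.c 8257 (.c 16 (.c 24 .nil))))) .nil) (.X 1 (.c 48 (.c 12801 (.c 8321 (.c 24 (.c 8 .nil))))) .nil))) (.node (.node (.X 3 (.c 24 (.c 0 (.c 40 (.c 32 (.c 8 .nil))))) (.t 16 48 .nil)) (.X 3 (.c 40 (.c 0 (.c 32 (.c 16 (.c 8 .nil))))) (.t 24 48 .nil))) (.node (.X 3 (.c 40 (.c 0 (.c 48 (.c 32 (.c 8 .nil))))) (.t 16 24 .nil)) (.X 3 (.c 32 (.c 0 (.c 48 (.c 40 (.c 8 .nil))))) (.t 16 24 .nil))))))) (.node (.node (.node (.node (.node (.X 3 (.c 8 (.c 0 (.c 48 (.c 40 (.c 32 .nil)))))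 (.t 16 24 .nil)) (.X 3 (.c 24 (.c 0 (.c 40 (.c 32 (.c 16 .nil))))) (.t 8 48 .nil))) (.node (.X 3 (.c 40 (.c 0 (.c 48 (.c 32 (.c 16 .nil))))) (.t 8 24 .nil)) (.X 3 (.c 48 (.c 0 (.c 40 (.c 32 (.c 24 .nil))))) (.t 8 16 .nil)))) (.node (.node (.X 3 (.c 16 (.c 0 (.c 32 (.c 24 (.c 8 .nil))))) (.t 40 48 .nil)) (.X 3 (.c 32 (.c 0 (.c 40 (.c 24 (.c 8 .nil))))) (.t 16 48 .nil))) (.node (.X 3 (.c 16 (.c 0 (.c 40 (.c 32 (.c 8 .nil))))) (.t 24 48 .nil)) (.X 3 (.c 32 (.c 0 (.c 48 (.c 40 (.c 16 .nil))))) (.t 8 24 .nil))))) (.node (.node (.node (.X 3 (.c 8 (.c 0 (.c 40 (.c 24 (.c 16 .nil))))) (.t 32 48 .nil)) (.X 3 (.c 32 (.c 0 (.c 40 (.c 16 (.c 8 .nil))))) (.t 24 48 .nil))) (.node (.X 3 (.c 40 (.c 0 (.c 48 (.c 24 (.c 16 .nil))))) (.t 8 32 .nil)) (.X 1 (.c 18433 (.c 40 (.c 8321 (.c 24 (.c 8 .nil))))) .nil))) (.node (.node (.X 3 (.c 48 (.c 0 (.c 24 (.c 16 (.c 8 .nil))))) (.t 32 40 .nil)) (.X 3 (.c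 48 (.c 0 (.c 40 (.c 24 (.c 8 .nil))))) (.t 16 32 .nil))) (.node (.X 3 (.c 48 (.c 0 (.c 32 (.c 24 (.c 8 .nil))))) (.t 16 40 .nil)) (.X 3 (.c 48 (.c 0 (.c 40 (.c 24 (.c 16 .nil))))) (.t 8 32 .nil)))))) (.node (.node (.node (.node (.X 3 (.c 8 (.c 0 (.c 48 (.c 32 (.c 24 .nil))))) (.t 16 40 .nil)) (.X 3 (.c 16 (.c 0 (.c 48 (.c 40 (.c 8 .nil))))) (.t 24 32 .nil))) (.node (.X 3 (.c 8 (.c 0 (.c 48 (.c 24 (.c 16 .nil))))) (.t 32 40 .nil)) (.X 3 (.c 24 (.c 0 (.c 48 (.c 32 (.c 16 .nil))))) (.t 8 40 .nil)))) (.node (.node (.X 3 (.c 18433 (.c 8 (.c 40 (.c 32 (.c 16 .nil))))) (.b 24 .nil)) (.X 3 (.c 48 (.c 513 (.c 32 (.c 24 (.c 16 .nil))))) (.b 40 .nil))) (.node (.X 3 (.c 32 (.c 4609 (.c 48 (.c 16 (.c 8 .nil))))) (.b 40 .nil)) (.X 3 (.c 48 (.c 8193 (.c 40 (.c 24 (.c 16 .nil))))) (.b 8 .nil))))) (.node (.node (.node (.X 3 (.c 48 (.c 4609 (.c 40 (.c 32 (.c 16 .nil))))) (.b 8 .nil)) (.X 3 (.c 8193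 (.c 16 (.c 48 (.c 24 (.c 8 .nil))))) (.b 40 .nil))) (.node (.X 3 (.c 40 (.c 8193 (.c 24 (.c 16 (.c 8 .nil))))) (.b 48 .nil)) (.X 3 (.c 24 (.c 2049 (.c 48 (.c 32 (.c 8 .nil))))) (.b 40 .nil)))) (.node (.node (.X 3 (.c 48 (.c 12801 (.c 32 (.c 24 (.c 16 .nil))))) (.b 8 .nil)) (.X 3 (.c 18433 (.c 24 (.c 40 (.c 32 (.c 16 .nil))))) (.b 8 .nil))) (.node (.X 3 (.c 18433 (.c 32 (.c 40 (.c 24 (.c 16 .nil))))) (.b 8 .nil)) (.X 3 (.c 18433 (.c 40 (.c 32 (.c 24 (.c 16 .nil))))) (.b 8 .nil))))))))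

noncomputable def c2_452 : Tr := (.node (.node (.node (.node (.node (.node (.X 3 (.c 48 (.c 513 (.c 40 (.c 24 (.c 16 .nil))))) (.b 32 .nil)) (.X 3 (.c 2049 (.c 8 (.c 40 (.c 32 (.c 24 .nil))))) (.b 48 .nil))) (.node (.X 3 (.c 4609 (.c 8 (.c 48 (.c 40 (.c 32 .nil))))) (.b 16 .nil)) (.X 3 (.c 18433 (.c 32 (.c 40 (.c 24 (.c 8 .nil))))) (.b 16 .nil)))) (.node (.node (.X 3 (.c 32 (.c 2049 (.c 48 (.c 40 (.c 8 .nil))))) (.b 24 .nil)) (.X 3 (.c 18433 (.c 24 (.c 40 (.c 32 (.c 8 .nil))))) (.b 16 .nil))) (.node (.X 3 (.c 8193 (.c 8 (.c 48 (.c 40 (.c 16 .nil))))) (.b 24 .nil)) (.X 3 (.c 18433 (.c 8 (.c 40 (.c 32 (.c 24 .nil))))) (.b 16 .nil))))) (.node (.node (.node (.X 3 (.c 48 (.c 513 (.c 40 (.c 32 (.c 16 .nil))))) (.b 24 .nil)) (.X 3 (.c 32 (.c 513 (.c 40 (.c 24 (.c 16 .nil))))) (.b 48 .nil))) (.node (.X 3 (.c 18433 (.c 16 (.c 40 (.c 24 (.c 8 .nil))))) (.b 32 .nil)) (.X 3 (.c 48 (.c 8193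 (.c 40 (.c 24 (.c 8 .nil))))) (.b 16 .nil)))) (.node (.node (.X 3 (.c 4609 (.c 16 (.c 40 (.c 32 (.c 8 .nil))))) (.b 48 .nil)) (.X 3 (.c 48 (.c 12801 (.c 24 (.c 16 (.c 8 .nil))))) (.b 32 .nil))) (.node (.X 3 (.c 40 (.c 8193 (.c 48 (.c 24 (.c 8 .nil))))) (.b 16 .nil)) (.X 3 (.c 2049 (.c 8 (.c 48 (.c 40 (.c 24 .nil))))) (.b 32 .nil)))))) (.node (.node (.node (.node (.X 0 (.c 2737112329 (.c 24 (.c 16 (.c 0 .nil)))) (.b 40 .nil)) (.X 0 (.c 48 (.c 32 (.c 4673 (.c 0 .nil)))) (.b 40 (.l 16 .nil)))) (.node (.X 0 (.c 12801 (.c 8257 (.c 24 (.c 16 .nil)))) (.l 48 .nil)) (.X 0 (.c 48 (.c 40 (.c 179513609 (.c 8 .nil)))) (.l 0 .nil)))) (.node (.node (.X 0 (.c 12801 (.c 32 (.c 24 (.c 2113 .nil)))) (.l 48 .nil)) (.X 0 (.c 1324066185 (.c 32 (.c 4609 (.c 16 .nil)))) .nil)) (.node (.X 0 (.c 48 (.c 32 (.c 2113 (.c 0 .nil)))) (.b 24 (.l 40 .nil))) (.X 0 (.c 1337272713 (.c 32 (.c 24 (.c 513 .nil)))) .nil))))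 (.node (.node (.node (.X 0 (.c 2756086089 (.c 32 (.c 24 (.c 513 .nil)))) .nil) (.X 0 (.c 48 (.c 8193 (.c 24 (.c 2113 .nil)))) (.l 40 .nil))) (.node (.X 0 (.c 2737112393 (.c 32 (.c 4609 (.c 16 .nil)))) .nil) (.X 0 (.c 48 (.c 12865 (.c 24 (.c 2049 .nil)))) (.l 32 .nil)))) (.node (.node (.X 0 (.c 18433 (.c 1324065929 (.c 32 (.c 24 .nil)))) .nil) (.X 0 (.c 545424777 (.c 24 (.c 16 (.c 0 .nil)))) (.b 40 .nil))) (.node (.X 0 (.c 48 (.c 40 (.c 4737 (.c 513 .nil)))) (.l 32 .nil)) (.X 0 (.c 48 (.c 8257 (.c 16 (.c 0 .nil)))) (.b 24 (.l 40 .nil)))))))) (.node (.node (.node (.node (.node (.X 0 (.c 18561 (.c 40 (.c 32 (.c 0 .nil)))) (.b 8 (.l 24 .nil))) (.X 0 (.c 48 (.c 12801 (.c 4673 (.c 16 .nil)))) (.l 32 .nil))) (.node (.X 0 (.c 48 (.c 32 (.c 4609 (.c 2113 .nil)))) (.l 40 .nil)) (.X 0 (.c 48 (.c 12801 (.c 8321 (.c 24 .nil)))) (.l 8 .nil)))) (.node (.node (.X 0 (.c 48 (.c 32 (.c 4673 (.c 2049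 .nil)))) (.l 40 .nil)) (.X 0 (.c 18497 (.c 40 (.c 32 (.c 4609 .nil)))) (.l 16 .nil))) (.node (.X 0 (.c 48 (.c 40 (.c 35718345 (.c 0 .nil)))) (.b 32 .nil)) (.X 0 (.c 1324066185 (.c 8193 (.c 24 (.c 16 .nil)))) .nil)))) (.node (.node (.node (.X 0 (.c 48 (.c 8257 (.c 24 (.c 0 .nil)))) (.b 40 (.l 16 .nil))) (.X 0 (.c 18561 (.c 32 (.c 24 (.c 513 .nil)))) (.l 40 .nil))) (.node (.X 0 (.c 18433 (.c 12865 (.c 24 (.c 16 .nil)))) (.l 32 .nil)) (.X 0 (.c 2737112265 (.c 12801 (.c 32 (.c 16 .nil)))) .nil))) (.node (.node (.X 0 (.c 18497 (.c 40 (.c 8193 (.c 16 .nil)))) (.l 24 .nil)) (.X 0 (.c 40 (.c 32 (.c 2113 (.c 0 .nil)))) (.b 48 (.l 24 .nil)))) (.node (.X 0 (.c 40 (.c 32 (.c 2113 (.c 0 .nil)))) (.b 24 (.l 48 .nil))) (.X 0 (.c 48 (.c 40 (.c 545424585 (.c 2049 .nil)))) .nil))))) (.node (.node (.node (.node (.X 0 (.c 18433 (.c 32 (.c 24 (.c 2113 .nil)))) (.l 40 .nil)) (.X 0 (.c 48 (.c 179513673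 (.c 32 (.c 8 .nil)))) (.l 0 .nil))) (.node (.X 0 (.c 18497 (.c 32 (.c 24 (.c 2049 .nil)))) (.l 40 .nil)) (.X 0 (.c 2737112265 (.c 40 (.c 32 (.c 0 .nil)))) (.b 16 .nil)))) (.node (.node (.X 0 (.c 18497 (.c 40 (.c 32 (.c 0 .nil)))) (.b 24 (.l 16 .nil))) (.X 0 (.c 174695817 (.c 40 (.c 32 (.c 2049 .nil)))) .nil)) (.node (.X 0 (.c 18561 (.c 40 (.c 32 (.c 513 .nil)))) (.l 24 .nil)) (.X 0 (.c 48 (.c 12993 (.c 32 (.c 0 .nil)))) (.b 8 (.l 16 .nil)))))) (.node (.node (.node (.X 0 (.c 18625 (.c 40 (.c 32 (.c 513 .nil)))) (.l 16 .nil)) (.X 0 (.c 48 (.c 40 (.c 8193 (.c 4737 .nil)))) (.l 8 .nil))) (.node (.X 0 (.c 40 (.c 8257 (.c 16 (.c 0 .nil)))) (.b 48 (.l 24 .nil))) (.X 0 (.c 12865 (.c 8193 (.c 24 (.c 16 .nil)))) (.l 48 .nil)))) (.node (.node (.X 0 (.c 18433 (.c 12929 (.c 32 (.c 24 .nil)))) (.l 8 .nil)) (.X 0 (.c 40 (.c 32 (.c 4737 (.c 513 .nil)))) (.l 48 .nil))) (.node (.X 0 (.c 48 (.c 40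 (.c 4737 (.c 0 .nil)))) (.b 8 (.l 32 .nil))) (.X 0 (.c 48 (.c 545424713 (.c 4609 (.c 16 .nil)))) .nil)))))))

noncomputable def c2_453 : Tr := (.node (.node (.node (.node (.node (.node (.X 0 (.c 48 (.c 24 (.c 2113 (.c 0 .nil)))) (.b 32 (.l 40 .nil))) (.X 0 (.c 48 (.c 12993 (.c 32 (.c 513 .nil)))) (.l 16 .nil))) (.node (.X 0 (.c 18625 (.c 40 (.c 32 (.c 8 .nil)))) (.l 16 (.l 0 .nil))) (.X 0 (.c 40 (.c 32 (.c 4673 (.c 0 .nil)))) (.b 48 (.l 16 .nil))))) (.node (.node (.X 0 (.c 48 (.c 12801 (.c 8257 (.c 16 .nil)))) (.l 24 .nil)) (.X 0 (.c 40 (.c 32 (.c 4737 (.c 0 .nil)))) (.b 8 (.l 48 .nil)))) (.node (.X 0 (.c 48 (.c 40 (.c 4673 (.c 0 .nil)))) (.b 16 (.l 32 .nil))) (.X 0 (.c 48 (.c 12865 (.c 8193 (.c 24 .nil)))) (.l 16 .nil))))) (.node (.node (.node (.X 0 (.c 18561 (.c 40 (.c 24 (.c 0 .nil)))) (.b 8 (.l 32 .nil))) (.X 0 (.c 12865 (.c 32 (.c 24 (.c 0 .nil)))) (.b 48 (.l 16 .nil)))) (.node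 (.X 0 (.c 12865 (.c 32 (.c 24 (.c 0 .nil)))) (.b 16 (.l 48 .nil))) (.X 0 (.c 32 (.c 4673 (.c 16 (.c 0 .nil)))) (.b 40 (.l 48 .nil))))) (.node (.node (.X 0 (.c 40 (.c 4673 (.c 16 (.c 0 .nil)))) (.b 32 (.l 48 .nil))) (.X 1 (.c 12865 (.c 24 (.c 32 (.c 2049 (.c 48 .nil))))) .nil)) (.node (.X 1 (.c 48 (.c 8193 (.c 12993 (.c 16 (.c 8 .nil))))) .nil) (.X 1 (.c 18689 (.c 24 (.c 40 (.c 0 (.c 8 .nil))))) (.l 16 .nil)))))) (.node (.node (.node (.node (.X 1 (.c 18689 (.c 8 (.c 40 (.c 0 (.c 24 .nil))))) (.l 16 .nil)) (.X 1 (.c 18561 (.c 8 (.c 24 (.c 0 (.c 40 .nil))))) (.l 32 .nil))) (.node (.X 3 (.c 32 (.c 8 (.c 40 (.c 24 (.c 16 .nil))))) (.b 18433 .nil)) (.X 1 (.c 18561 (.c 32 (.c 24 (.c 0 (.c 40 .nil))))) (.l 8 .nil)))) (.node (.node (.X 1 (.c 18625 (.c 8 (.c 32 (.c 0 (.c 40 .nil))))) (.l 16 .nil)) (.X 1 (.c 18497 (.c 32 (.c 24 (.c 0 (.c 40 .nil))))) (.l 16 .nil))) (.node (.X 1 (.c 18497 (.c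 16 (.c 40 (.c 0 (.c 24 .nil))))) (.l 32 .nil)) (.X 1 (.c 18497 (.c 16 (.c 24 (.c 0 (.c 40 .nil))))) (.l 32 .nil))))) (.node (.node (.node (.X 1 (.c 18625 (.c 16 (.c 40 (.c 0 (.c 8 .nil))))) (.l 32 .nil)) (.X 1 (.c 18689 (.c 24 (.c 40 (.c 0 (.c 16 .nil))))) (.l 8 .nil))) (.node (.X 1 (.c 18625 (.c 8 (.c 40 (.c 0 (.c 16 .nil))))) (.l 32 .nil)) (.X 1 (.c 18689 (.c 16 (.c 40 (.c 0 (.c 24 .nil))))) (.l 8 .nil)))) (.node (.node (.X 3 (.c 40 (.c 8 (.c 48 (.c 32 (.c 24 .nil))))) (.b 0 (.b 16 .nil))) (.X 3 (.c 48 (.c 8 (.c 40 (.c 32 (.c 24 .nil))))) (.b 2049 .nil))) (.node (.X 3 (.c 32 (.c 8 (.c 48 (.c 40 (.c 16 .nil))))) (.t 0 24 .nil)) (.X 3 (.c 16 (.c 8 (.c 48 (.c 40 (.c 32 .nil))))) (.b 4609 .nil))))))) (.node (.node (.node (.node (.node (.X 3 (.c 16 (.c 8 (.c 48 (.c 40 (.c 32 .nil))))) (.t 0 24 .nil)) (.X 3 (.c 40 (.c 8 (.c 48 (.c 24 (.c 16 .nil))))) (.t 0 32 .nil))) (.node (.X 3 (.c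 48 (.c 8 (.c 32 (.c 24 (.c 16 .nil))))) (.b 0 (.b 40 .nil))) (.X 3 (.c 24 (.c 16 (.c 48 (.c 40 (.c 32 .nil))))) (.b 513 .nil)))) (.node (.node (.X 3 (.c 32 (.c 0 (.c 40 (.c 16 (.c 8 .nil))))) (.l 18625 .nil)) (.X 3 (.c 40 (.c 0 (.c 32 (.c 16 (.c 8 .nil))))) (.l 18625 .nil))) (.node (.X 3 (.c 32 (.c 8 (.c 40 (.c 16 (.c 0 .nil))))) (.t 24 48 .nil)) (.X 3 (.c 24 (.c 0 (.c 48 (.c 16 (.c 8 .nil))))) (.l 13057 .nil))))) (.node (.node (.node (.X 3 (.c 16 (.c 0 (.c 48 (.c 32 (.c 24 .nil))))) (.l 12865 .nil)) (.X 3 (.c 32 (.c 0 (.c 40 (.c 24 (.c 8 .nil))))) (.l 18561 .nil))) (.node (.X 3 (.c 40 (.c 0 (.c 48 (.c 32 (.c 8 .nil))))) (.l 4737 .nil)) (.X 3 (.c 8 (.c 0 (.c 48 (.c 40 (.c 32 .nil))))) (.l 4737 .nil)))) (.node (.node (.X 3 (.c 8 (.c 0 (.c 40 (.c 24 (.c 16 .nil))))) (.l 18689 .nil)) (.X 3 (.c 32 (.c 0 (.c 24 (.c 16 (.c 8 .nil))))) (.l 18753 .nil))) (.node (.X 3 (.c 48 (.c 0 (.c 32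 (.c 16 (.c 8 .nil))))) (.l 12993 .nil)) (.X 3 (.c 32 (.c 0 (.c 48 (.c 16 (.c 8 .nil))))) (.l 12993 .nil)))))) (.node (.node (.node (.node (.X 3 (.c 16 (.c 0 (.c 32 (.c 24 (.c 8 .nil))))) (.l 18753 .nil)) (.X 3 (.c 16 (.c 0 (.c 48 (.c 32 (.c 8 .nil))))) (.l 12993 .nil))) (.node (.X 3 (.c 8 (.c 0 (.c 40 (.c 32 (.c 16 .nil))))) (.l 18625 .nil)) (.X 3 (.c 40 (.c 0 (.c 48 (.c 32 (.c 16 .nil))))) (.l 4673 .nil)))) (.node (.node (.X 3 (.c 32 (.c 0 (.c 48 (.c 40 (.c 16 .nil))))) (.l 4673 .nil)) (.X 3 (.c 48 (.c 0 (.c 40 (.c 32 (.c 24 .nil))))) (.l 2113 .nil))) (.node (.X 3 (.c 40 (.c 0 (.c 48 (.c 32 (.c 24 .nil))))) (.l 2113 .nil)) (.X 3 (.c 48 (.c 0 (.c 32 (.c 24 (.c 8 .nil))))) (.l 12929 .nil))))) (.node (.node (.node (.X 3 (.c 24 (.c 0 (.c 48 (.c 32 (.c 8 .nil))))) (.l 12929 .nil)) (.X 3 (.c 32 (.c 0 (.c 48 (.c 40 (.c 24 .nil))))) (.l 2113 .nil))) (.node (.X 3 (.c 40 (.c 0 (.c 24 (.c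 16 (.c 8 .nil))))) (.l 18689 .nil)) (.X 3 (.c 32 (.c 0 (.c 48 (.c 24 (.c 8 .nil))))) (.l 12929 .nil)))) (.node (.node (.X 3 (.c 48 (.c 0 (.c 40 (.c 32 (.c 16 .nil))))) (.l 4673 .nil)) (.X 3 (.c 40 (.c 0 (.c 48 (.c 24 (.c 8 .nil))))) (.l 8321 .nil))) (.node (.X 3 (.c 8 (.c 0 (.c 48 (.c 40 (.c 24 .nil))))) (.l 8321 .nil)) (.X 3 (.c 24 (.c 0 (.c 48 (.c 40 (.c 8 .nil))))) (.l 8321 .nil))))))))

noncomputable def c2_454 : Tr := (.node (.node (.node (.node (.node (.node (.X 3 (.c 48 (.c 0 (.c 40 (.c 16 (.c 8 .nil))))) (.l 8385 .nil)) (.X 3 (.c 48 (.c 0 (.c 32 (.c 24 (.c 16 .nil))))) (.l 12865 .nil))) (.node (.X 3 (.c 32 (.c 0 (.c 40 (.c 24 (.c 16 .nil))))) (.l 18497 .nil)) (.X 3 (.c 16 (.c 0 (.c 48 (.c 24 (.c 8 .nil))))) (.l 13057 .nil)))) (.node (.node (.X 3 (.c 24 (.c 0 (.c 40 (.c 32 (.c 16 .nil))))) (.l 18497 .nil)) (.X 0 (.c 48 (.c 16 (.c 8 (.c 0 .nil)))) (.l 562466121 .nil))) (.node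 (.X 0 (.c 48 (.c 24 (.c 16 (.c 0 .nil)))) (.l 545424713 .nil)) (.X 0 (.c 40 (.c 32 (.c 16 (.c 0 .nil)))) (.l 174695817 .nil))))) (.node (.node (.node (.X 0 (.c 40 (.c 32 (.c 16 (.c 0 .nil)))) (.l 2737112265 .nil)) (.X 0 (.c 40 (.c 24 (.c 16 (.c 0 .nil)))) (.l 545424777 .nil))) (.node (.X 0 (.c 40 (.c 24 (.c 8 (.c 0 .nil)))) (.l 2756086025 .nil)) (.X 0 (.c 40 (.c 32 (.c 24 (.c 0 .nil)))) (.l 35718537 .nil)))) (.node (.node (.X 0 (.c 40 (.c 24 (.c 8 (.c 0 .nil)))) (.l 553912713 .nil)) (.X 0 (.c 40 (.c 32 (.c 24 (.c 0 .nil)))) (.l 2737112201 .nil))) (.node (.X 0 (.c 40 (.c 32 (.c 8 (.c 0 .nil)))) (.l 2756085961 .nil)) (.X 0 (.c 40 (.c 32 (.c 8 (.c 0 .nil)))) (.l 179513737 .nil)))))) (.node (.node (.node (.node (.X 0 (.c 32 (.c 16 (.c 8 (.c 0 .nil)))) (.l 2775125321 .nil)) (.X 0 (.c 48 (.c 40 (.c 16 (.c 0 .nil)))) (.l 545424585 .nil))) (.node (.X 0 (.c 32 (.c 16 (.c 8 (.c 0 .nil))))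 (.l 1350544777 .nil)) (.X 0 (.c 32 (.c 24 (.c 16 (.c 0 .nil)))) (.l 2737112393 .nil)))) (.node (.node (.X 0 (.c 32 (.c 24 (.c 8 (.c 0 .nil)))) (.l 1337272713 .nil)) (.X 0 (.c 48 (.c 32 (.c 24 (.c 0 .nil)))) (.l 1324065929 .nil))) (.node (.X 0 (.c 48 (.c 32 (.c 8 (.c 0 .nil)))) (.l 179513673 .nil)) (.X 0 (.c 48 (.c 32 (.c 8 (.c 0 .nil)))) (.l 1337272521 .nil))))) (.node (.node (.node (.X 0 (.c 24 (.c 16 (.c 8 (.c 0 .nil)))) (.l 1363882377 .nil)) (.X 0 (.c 48 (.c 40 (.c 32 (.c 0 .nil)))) (.l 35718345 .nil))) (.node (.X 0 (.c 48 (.c 40 (.c 24 (.c 0 .nil)))) (.l 545424521 .nil)) (.X 0 (.c 48 (.c 40 (.c 32 (.c 0 .nil)))) (.l 174695561 .nil)))) (.node (.node (.X 0 (.c 48 (.c 32 (.c 16 (.c 0 .nil)))) (.l 174695753 .nil)) (.X 0 (.c 48 (.c 32 (.c 16 (.c 0 .nil)))) (.l 1324065993 .nil))) (.node (.X 0 (.c 48 (.c 12865 (.c 32 (.c 0 .nil)))) (.l 4737 .nil)) (.X 0 (.c 18497 (.c 32 (.c 16 (.c 0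 .nil)))) (.l 12993 .nil))))))) (.node (.node (.node (.node (.node (.X 0 (.c 48 (.c 40 (.c 8257 (.c 0 .nil)))) (.l 4737 .nil)) (.X 0 (.c 48 (.c 12801 (.c 32 (.c 8 .nil)))) (.l 24 (.l 16 .nil)))) (.node (.X 0 (.c 40 (.c 32 (.c 24 (.c 2049 .nil)))) (.l 48 (.l 8 .nil))) (.X 0 (.c 32 (.c 24 (.c 8 (.c 0 .nil)))) (.b 48 (.l 40 (.l 16 .nil)))))) (.node (.node (.X 0 (.c 40 (.c 4673 (.c 16 (.c 0 .nil)))) (.l 18689 .nil)) (.X 0 (.c 48 (.c 40 (.c 32 (.c 513 .nil)))) (.l 24 (.l 16 .nil)))) (.node (.X 0 (.c 32 (.c 24 (.c 16 (.c 0 .nil)))) (.b 48 (.l 40 (.l 8 .nil)))) (.X 0 (.c 48 (.c 40 (.c 8193 (.c 8 .nil)))) (.l 24 (.l 16 .nil)))))) (.node (.node (.node (.X 0 (.c 48 (.c 24 (.c 8 (.c 0 .nil)))) (.b 32 (.l 40 (.l 16 .nil)))) (.X 0 (.c 40 (.c 24 (.c 2049 (.c 8 .nil)))) (.l 48 (.l 32 .nil)))) (.node (.X 0 (.c 48 (.c 12801 (.c 32 (.c 16 .nil)))) (.l 24 (.l 8 .nil))) (.X 0 (.c 48 (.c 40 (.c 32 (.c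 2049 .nil)))) (.l 24 (.l 8 .nil))))) (.node (.node (.X 0 (.c 48 (.c 40 (.c 8193 (.c 16 .nil)))) (.l 24 (.l 8 .nil))) (.X 0 (.c 48 (.c 40 (.c 8321 (.c 0 .nil)))) (.l 4673 .nil))) (.node (.X 0 (.c 48 (.c 32 (.c 24 (.c 0 .nil)))) (.b 16 (.l 40 (.l 8 .nil)))) (.X 0 (.c 40 (.c 32 (.c 24 (.c 513 .nil)))) (.l 48 (.l 16 .nil))))))) (.node (.node (.node (.node (.X 0 (.c 40 (.c 4609 (.c 16 (.c 8 .nil)))) (.l 48 (.l 32 .nil))) (.X 0 (.c 40 (.c 32 (.c 4609 (.c 16 .nil)))) (.l 48 (.l 8 .nil)))) (.node (.X 0 (.c 48 (.c 32 (.c 24 (.c 0 .nil)))) (.b 8 (.l 40 (.l 16 .nil)))) (.X 0 (.c 18433 (.c 40 (.c 32 (.c 16 .nil)))) (.l 24 (.l 8 .nil))))) (.node (.node (.X 0 (.c 48 (.c 4673 (.c 16 (.c 0 .nil)))) (.l 13057 .nil)) (.X 0 (.c 32 (.c 24 (.c 2049 (.c 8 .nil)))) (.l 48 (.l 40 .nil)))) (.node (.X 0 (.c 48 (.c 24 (.c 2113 (.c 0 .nil)))) (.l 13057 .nil)) (.X 0 (.c 18561 (.c 40 (.c 24 (.c 0 .nil)))) (.l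 8257 .nil))))) (.node (.node (.node (.X 0 (.c 18497 (.c 40 (.c 16 (.c 0 .nil)))) (.l 8385 .nil)) (.X 0 (.c 18433 (.c 40 (.c 24 (.c 8 .nil)))) (.l 32 (.l 16 .nil)))) (.node (.X 0 (.c 32 (.c 4609 (.c 16 (.c 8 .nil)))) (.l 48 (.l 40 .nil))) (.X 0 (.c 48 (.c 12865 (.c 24 (.c 0 .nil)))) (.l 8321 .nil)))) (.node (.node (.X 0 (.c 48 (.c 12801 (.c 24 (.c 8 .nil)))) (.l 32 (.l 16 .nil))) (.X 0 (.c 32 (.c 4673 (.c 16 (.c 0 .nil)))) (.l 18753 .nil))) (.node (.X 0 (.c 48 (.c 32 (.c 8 (.c 0 .nil)))) (.b 24 (.l 40 (.l 16 .nil)))) (.X 0 (.c 8257 (.c 24 (.c 16 (.c 0 .nil)))) (.l 18753 .nil))))))))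

noncomputable def c2_455 : Tr := (.node (.node (.node (.node (.node (.node (.X 0 (.c 48 (.c 32 (.c 16 (.c 0 .nil)))) (.b 24 (.l 40 (.l 8 .nil)))) (.X 0 (.c 8193 (.c 24 (.c 16 (.c 8 .nil)))) (.l 48 (.l 40 .nil)))) (.node (.X 0 (.c 40 (.c 8193 (.c 16 (.c 8 .nil)))) (.l 48 (.l 24 .nil))) (.X 0 (.c 40 (.c 32 (.c 4673 (.c 0 .nil)))) (.l 18561 .nil)))) (.node (.node (.X 0 (.c 40 (.c 8193 (.c 24 (.c 8 .nil)))) (.l 48 (.l 16 .nil))) (.X 0 (.c 40 (.c 32 (.c 4609 (.c 8 .nil)))) (.l 48 (.l 16 .nil)))) (.node (.X 0 (.c 48 (.c 8193 (.c 16 (.c 8 .nil)))) (.l 40 (.l 24 .nil))) (.X 0 (.c 48 (.c 24 (.c 16 (.c 0 .nil)))) (.b 40 (.l 32 (.l 8 .nil))))))) (.node (.node (.node (.X 0 (.c 48 (.c 12801 (.c 16 (.c 8 .nil)))) (.l 32 (.l 24 .nil))) (.X 0 (.c 40 (.c 8193 (.c 24 (.c 16 .nil)))) (.l 48 (.l 8 .nil)))) (.node (.X 0 (.c 12801 (.c 32 (.c 16 (.c 8 .nil)))) (.l 48 (.l 24 .nil))) (.X 0 (.c 48 (.c 32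 (.c 24 (.c 2049 .nil)))) (.l 40 (.l 8 .nil))))) (.node (.node (.X 0 (.c 48 (.c 32 (.c 4609 (.c 16 .nil)))) (.l 40 (.l 8 .nil))) (.X 0 (.c 48 (.c 32 (.c 4673 (.c 0 .nil)))) (.l 12929 .nil))) (.node (.X 0 (.c 18561 (.c 32 (.c 24 (.c 0 .nil)))) (.l 12865 .nil)) (.X 0 (.c 40 (.c 8321 (.c 24 (.c 0 .nil)))) (.l 18497 .nil)))))) (.node (.node (.node (.node (.X 0 (.c 18625 (.c 40 (.c 32 (.c 0 .nil)))) (.l 2113 .nil)) (.X 0 (.c 48 (.c 32 (.c 4609 (.c 8 .nil)))) (.l 40 (.l 16 .nil)))) (.node (.X 0 (.c 48 (.c 40 (.c 32 (.c 4609 .nil)))) (.l 16 (.l 8 .nil))) (.X 0 (.c 48 (.c 40 (.c 8193 (.c 24 .nil)))) (.l 16 (.l 8 .nil))))) (.node (.node (.X 0 (.c 48 (.c 32 (.c 24 (.c 513 .nil)))) (.l 40 (.l 16 .nil))) (.X 0 (.c 40 (.c 32 (.c 4737 (.c 0 .nil)))) (.l 18497 .nil))) (.node (.X 0 (.c 40 (.c 32 (.c 2049 (.c 8 .nil)))) (.l 48 (.l 24 .nil))) (.X 0 (.c 40 (.c 8257 (.c 16 (.c 0 .nil)))) (.l 18625 .nil)))))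 (.node (.node (.node (.X 0 (.c 40 (.c 32 (.c 16 (.c 513 .nil)))) (.l 48 (.l 24 .nil))) (.X 3 (.c 32 (.c 8 (.c 40 (.c 16 (.c 0 .nil))))) (.l 18625 .nil))) (.node (.X 2 (.c 48 (.c 40 (.c 24 (.c 0 (.c 16 .nil))))) (.b 8257 .nil)) (.X 3 (.c 32 (.c 8 (.c 24 (.c 16 (.c 0 .nil))))) (.l 18753 .nil)))) (.node (.node (.X 3 (.c 48 (.c 8 (.c 32 (.c 16 (.c 0 .nil))))) (.l 12993 .nil)) (.X 2 (.c 48 (.c 40 (.c 32 (.c 0 (.c 16 .nil))))) (.b 4673 .nil))) (.node (.X 2 (.c 48 (.c 40 (.c 16 (.c 0 (.c 32 .nil))))) (.b 4673 .nil)) (.X 3 (.c 32 (.c 8 (.c 48 (.c 40 (.c 0 .nil))))) (.l 4737 .nil))))))) (.node (.node (.node (.node (.node (.X 3 (.c 48 (.c 8 (.c 32 (.c 24 (.c 0 .nil))))) (.l 12929 .nil)) (.X 3 (.c 32 (.c 16 (.c 48 (.c 40 (.c 0 .nil))))) (.l 4673 .nil))) (.node (.X 3 (.c 24 (.c 16 (.c 48 (.c 32 (.c 0 .nil))))) (.l 12865 .nil)) (.X 2 (.c 40 (.c 32 (.c 16 (.c 0 (.c 48 .nil))))) (.b 4673 .nil))))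 (.node (.node (.X 3 (.c 48 (.c 16 (.c 40 (.c 24 (.c 0 .nil))))) (.l 8257 .nil)) (.X 3 (.c 48 (.c 8 (.c 40 (.c 16 (.c 0 .nil))))) (.l 8385 .nil))) (.node (.X 3 (.c 24 (.c 16 (.c 40 (.c 32 (.c 0 .nil))))) (.l 18497 .nil)) (.X 2 (.c 40 (.c 32 (.c 24 (.c 0 (.c 48 .nil))))) (.b 2113 .nil))))) (.node (.node (.node (.X 2 (.c 48 (.c 0 (.c 40 (.c 32 (.c 24 .nil))))) (.b 2113 .nil)) (.X 2 (.c 48 (.c 0 (.c 32 (.c 24 (.c 40 .nil))))) (.b 2113 .nil))) (.node (.X 2 (.c 48 (.c 0 (.c 32 (.c 24 (.c 40 .nil))))) (.l 2113 .nil)) (.X 2 (.c 48 (.c 16 (.c 40 (.c 0 (.c 32 .nil))))) (.b 4673 .nil)))) (.node (.node (.X 2 (.c 48 (.c 16 (.c 40 (.c 0 (.c 32 .nil))))) (.l 4673 .nil)) (.X 2 (.c 48 (.c 32 (.c 24 (.c 0 (.c 40 .nil))))) (.l 2113 .nil))) (.node (.X 2 (.c 48 (.c 0 (.c 40 (.c 16 (.c 32 .nil))))) (.l 4673 .nil)) (.X 2 (.c 32 (.c 24 (.c 16 (.c 0 (.c 40 .nil))))) (.l 18497 .nil)))))) (.node (.node (.node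 (.node (.X 2 (.c 32 (.c 16 (.c 24 (.c 0 (.c 48 .nil))))) (.l 12865 .nil)) (.X 2 (.c 48 (.c 40 (.c 8 (.c 0 (.c 24 .nil))))) (.b 8321 .nil))) (.node (.X 2 (.c 40 (.c 16 (.c 24 (.c 0 (.c 48 .nil))))) (.l 8257 .nil)) (.X 2 (.c 48 (.c 40 (.c 24 (.c 0 (.c 8 .nil))))) (.b 8321 .nil)))) (.node (.node (.X 2 (.c 48 (.c 0 (.c 40 (.c 16 (.c 24 .nil))))) (.b 8257 .nil)) (.X 2 (.c 48 (.c 0 (.c 40 (.c 32 (.c 8 .nil))))) (.b 4737 .nil))) (.node (.X 2 (.c 40 (.c 32 (.c 8 (.c 0 (.c 48 .nil))))) (.b 4737 .nil)) (.X 2 (.c 48 (.c 32 (.c 8 (.c 0 (.c 40 .nil))))) (.b 4737 .nil))))) (.node (.node (.node (.X 2 (.c 48 (.c 40 (.c 32 (.c 0 (.c 8 .nil))))) (.b 4737 .nil)) (.X 2 (.c 48 (.c 24 (.c 32 (.c 0 (.c 16 .nil))))) (.b 12865 .nil))) (.node (.X 2 (.c 48 (.c 24 (.c 16 (.c 0 (.c 32 .nil))))) (.b 12865 .nil)) (.X 2 (.c 48 (.c 16 (.c 32 (.c 0 (.c 24 .nil))))) (.b 12865 .nil)))) (.node (.node (.X 2 (.c 48 (.c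 32 (.c 16 (.c 0 (.c 24 .nil))))) (.b 12865 .nil)) (.X 2 (.c 48 (.c 16 (.c 1310924873 (.c 32 (.c 24 .nil))))) .nil)) (.node (.X 2 (.c 1310924937 (.c 24 (.c 32 (.c 8 (.c 48 .nil))))) .nil) (.X 2 (.c 40 (.c 24 (.c 537002057 (.c 16 (.c 48 .nil))))) .nil)))))))

noncomputable def c2_456 : Tr := (.node (.node (.node (.node (.node (.node (.X 2 (.c 1310924937 (.c 32 (.c 24 (.c 8 (.c 48 .nil))))) .nil) (.X 2 (.c 2718203977 (.c 24 (.c 40 (.c 32 (.c 16 .nil))))) .nil)) (.node (.X 2 (.c 2718203977 (.c 24 (.c 40 (.c 16 (.c 32 .nil))))) .nil) (.X 2 (.c 48 (.c 33587401 (.c 32 (.c 8 (.c 40 .nil))))) .nil))) (.node (.node (.X 2 (.c 40 (.c 24 (.c 32 (.c 2105481 (.c 48 .nil))))) .nil) (.X 2 (.c 48 (.c 16 (.c 2105673 (.c 32 (.c 24 .nil))))) .nil)) (.node (.X 2 (.c 2718203977 (.c 16 (.c 40 (.c 32 (.c 24 .nil))))) .nil) (.X 2 (.c 48 (.c 24 (.c 40 (.c 2105481 (.c 32 .nil))))) .nil)))) (.node (.node (.node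 (.X 2 (.c 1310925001 (.c 8 (.c 32 (.c 16 (.c 48 .nil))))) .nil) (.X 2 (.c 48 (.c 16 (.c 1310924873 (.c 24 (.c 32 .nil))))) .nil)) (.node (.X 2 (.c 48 (.c 40 (.c 169943305 (.c 16 (.c 8 .nil))))) .nil) (.X 2 (.c 48 (.c 32 (.c 40 (.c 2105481 (.c 24 .nil))))) .nil))) (.node (.node (.X 2 (.c 2105737 (.c 40 (.c 32 (.c 16 (.c 24 .nil))))) .nil) (.X 2 (.c 2105673 (.c 16 (.c 32 (.c 24 (.c 48 .nil))))) .nil)) (.node (.X 2 (.c 1310924873 (.c 16 (.c 32 (.c 24 (.c 48 .nil))))) .nil) (.X 2 (.c 2105673 (.c 24 (.c 32 (.c 16 (.c 48 .nil))))) .nil))))) (.node (.node (.node (.node (.X 2 (.c 48 (.c 32 (.c 40 (.c 169943113 (.c 16 .nil))))) .nil) (.X 2 (.c 40 (.c 24 (.c 537002121 (.c 8 (.c 48 .nil))))) .nil)) (.node (.X 2 (.c 48 (.c 16 (.c 1310925001 (.c 32 (.c 8 .nil))))) .nil) (.X 2 (.c 2105737 (.c 40 (.c 32 (.c 24 (.c 16 .nil))))) .nil))) (.node (.node (.X 2 (.c 2718203977 (.c 40 (.c 32 (.c 16 (.c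 24 .nil))))) .nil) (.X 2 (.c 48 (.c 16 (.c 169943369 (.c 32 (.c 8 .nil))))) .nil)) (.node (.X 2 (.c 48 (.c 16 (.c 1310925001 (.c 8 (.c 32 .nil))))) .nil) (.X 2 (.c 537002313 (.c 24 (.c 16 (.c 8 (.c 48 .nil))))) .nil)))) (.node (.node (.node (.X 2 (.c 1310925065 (.c 24 (.c 16 (.c 8 (.c 48 .nil))))) .nil) (.X 2 (.c 48 (.c 24 (.c 40 (.c 537002057 (.c 16 .nil))))) .nil)) (.node (.X 2 (.c 537002377 (.c 8 (.c 24 (.c 16 (.c 40 .nil))))) .nil) (.X 2 (.c 537002377 (.c 8 (.c 40 (.c 16 (.c 24 .nil))))) .nil))) (.node (.node (.X 2 (.c 48 (.c 24 (.c 40 (.c 33587465 (.c 8 .nil))))) .nil) (.X 2 (.c 2718204169 (.c 8 (.c 40 (.c 16 (.c 24 .nil))))) .nil)) (.node (.X 2 (.c 40 (.c 8 (.c 537002121 (.c 24 (.c 48 .nil))))) .nil) (.X 2 (.c 40 (.c 8 (.c 33587465 (.c 24 (.c 48 .nil))))) .nil)))))) (.node (.node (.node (.node (.node (.X 2 (.c 537002377 (.c 16 (.c 24 (.c 8 (.c 40 .nil))))) .nil) (.X 2 (.c 2718204169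 (.c 16 (.c 24 (.c 8 (.c 40 .nil))))) .nil)) (.node (.X 2 (.c 537002377 (.c 16 (.c 40 (.c 8 (.c 24 .nil))))) .nil) (.X 2 (.c 48 (.c 1310924873 (.c 24 (.c 16 (.c 32 .nil))))) .nil))) (.node (.node (.X 2 (.c 169943369 (.c 16 (.c 32 (.c 8 (.c 48 .nil))))) .nil) (.X 2 (.c 40 (.c 16 (.c 537002185 (.c 8 (.c 48 .nil))))) .nil)) (.node (.X 2 (.c 40 (.c 16 (.c 169943305 (.c 8 (.c 48 .nil))))) .nil) (.X 2 (.c 48 (.c 40 (.c 33587465 (.c 24 (.c 8 .nil))))) .nil)))) (.node (.node (.node (.X 2 (.c 48 (.c 16 (.c 40 (.c 169943305 (.c 8 .nil))))) .nil) (.X 2 (.c 537002313 (.c 8 (.c 24 (.c 16 (.c 48 .nil))))) .nil)) (.node (.X 2 (.c 48 (.c 16 (.c 40 (.c 2105545 (.c 32 .nil))))) .nil) (.X 2 (.c 2718204105 (.c 32 (.c 40 (.c 8 (.c 16 .nil))))) .nil))) (.node (.node (.X 2 (.c 48 (.c 40 (.c 32 (.c 2105481 (.c 24 .nil))))) .nil) (.X 2 (.c 169943433 (.c 32 (.c 40 (.c 16 (.c 8 .nil))))) .nil)) (.node (.X 2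 (.c 2718204105 (.c 32 (.c 40 (.c 16 (.c 8 .nil))))) .nil) (.X 2 (.c 169943433 (.c 40 (.c 16 (.c 8 (.c 32 .nil))))) .nil))))) (.node (.node (.node (.node (.X 2 (.c 40 (.c 32 (.c 169943177 (.c 8 (.c 48 .nil))))) .nil) (.X 2 (.c 48 (.c 2105545 (.c 32 (.c 16 (.c 40 .nil))))) .nil)) (.node (.X 2 (.c 48 (.c 33587273 (.c 40 (.c 24 (.c 32 .nil))))) .nil) (.X 2 (.c 40 (.c 32 (.c 33587401 (.c 8 (.c 48 .nil))))) .nil))) (.node (.node (.X 2 (.c 2718204105 (.c 40 (.c 32 (.c 8 (.c 16 .nil))))) .nil) (.X 2 (.c 2718204041 (.c 24 (.c 32 (.c 8 (.c 40 .nil))))) .nil)) (.node (.X 2 (.c 48 (.c 40 (.c 537002121 (.c 8 (.c 24 .nil))))) .nil) (.X 2 (.c 2718204041 (.c 24 (.c 40 (.c 32 (.c 8 .nil))))) .nil)))) (.node (.node (.node (.X 2 (.c 33587593 (.c 24 (.c 40 (.c 32 (.c 8 .nil))))) .nil) (.X 2 (.c 48 (.c 16 (.c 1310925065 (.c 24 (.c 8 .nil))))) .nil)) (.node (.X 2 (.c 33587593 (.c 32 (.c 40 (.c 8 (.c 24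 .nil))))) .nil) (.X 2 (.c 33587593 (.c 8 (.c 40 (.c 32 (.c 24 .nil))))) .nil))) (.node (.node (.X 2 (.c 48 (.c 24 (.c 537002057 (.c 16 (.c 40 .nil))))) .nil) (.X 2 (.c 2718204041 (.c 40 (.c 32 (.c 24 (.c 8 .nil))))) .nil)) (.node (.X 2 (.c 48 (.c 32 (.c 33587529 (.c 8 (.c 24 .nil))))) .nil) (.X 2 (.c 48 (.c 40 (.c 2105609 (.c 24 (.c 16 .nil))))) .nil)))))))

noncomputable def c2_457 : Tr := (.node (.node (.node (.node (.node (.node (.X 2 (.c 48 (.c 40 (.c 537002057 (.c 24 (.c 16 .nil))))) .nil) (.X 2 (.c 1310925193 (.c 16 (.c 32 (.c 8 (.c 24 .nil))))) .nil)) (.node (.X 2 (.c 1310925193 (.c 16 (.c 32 (.c 24 (.c 8 .nil))))) .nil) (.X 2 (.c 48 (.c 33587529 (.c 32 (.c 24 (.c 8 .nil))))) .nil))) (.node (.node (.X 2 (.c 2718204233 (.c 16 (.c 32 (.c 24 (.c 8 .nil))))) .nil) (.X 2 (.c 1310925193 (.c 32 (.c 16 (.c 8 (.c 24 .nil))))) .nil)) (.node (.X 2 (.c 537002377 (.c 24 (.c 40 (.c 16 (.c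 8 .nil))))) .nil) (.X 2 (.c 48 (.c 8 (.c 32 (.c 0 (.c 24 .nil))))) (.b 12929 .nil))))) (.node (.node (.node (.X 0 (.c 43655299 (.c 12802 (.c 24 (.c 8 .nil)))) .nil) (.X 0 (.c 48 (.c 3423058218676578 (.c 24 (.c 16 .nil)))) .nil)) (.node (.X 0 (.c 48 (.c 12866 (.c 32 (.c 16 .nil)))) (.l 4609 .nil)) (.X 0 (.c 43356803 (.c 12802 (.c 32 (.c 8 .nil)))) .nil))) (.node (.node (.X 0 (.c 48 (.c 8258 (.c 24 (.c 16 .nil)))) (.l 12801 .nil)) (.X 0 (.c 43655299 (.c 40 (.c 4610 (.c 8 .nil)))) .nil)) (.node (.X 0 (.c 43954819 (.c 32 (.c 4610 (.c 8 .nil)))) .nil) (.X 0 (.c 43059267 (.c 40 (.c 8194 (.c 24 .nil)))) .nil))))) (.node (.node (.node (.node (.X 0 (.c 48 (.c 12802 (.c 8786563 (.c 8 .nil)))) .nil) (.X 0 (.c 48 (.c 617611590365602 (.c 16 (.c 8 .nil)))) .nil)) (.node (.X 0 (.c 48 (.c 2487087821218 (.c 32 (.c 24 .nil)))) .nil) (.X 0 (.c 48 (.c 12866 (.c 24 (.c 16 .nil)))) (.l 8193 .nil)))) (.node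 (.node (.X 0 (.c 43954819 (.c 8194 (.c 24 (.c 8 .nil)))) .nil) (.X 0 (.c 48 (.c 3632106110100554 (.c 16 (.c 8 .nil)))) .nil)) (.node (.X 0 (.c 43356739 (.c 40 (.c 8194 (.c 16 .nil)))) .nil) (.X 0 (.c 48 (.c 21307459 (.c 4610 (.c 16 .nil)))) .nil)))) (.node (.node (.node (.X 0 (.c 43954947 (.c 4610 (.c 16 (.c 8 .nil)))) .nil) (.X 0 (.c 43655235 (.c 40 (.c 4610 (.c 16 .nil)))) .nil)) (.node (.X 2 (.c 48 (.c 0 (.c 40 (.c 8 (.c 24 .nil))))) (.b 8321 .nil)) (.X 0 (.c 48 (.c 20891715 (.c 8194 (.c 24 .nil)))) .nil))) (.node (.node (.X 0 (.c 48 (.c 12866 (.c 32 (.c 24 .nil)))) (.l 2049 .nil)) (.X 0 (.c 43954755 (.c 8194 (.c 24 (.c 16 .nil)))) .nil)) (.node (.X 0 (.c 43356803 (.c 40 (.c 8194 (.c 8 .nil)))) .nil) (.X 0 (.c 48 (.c 21099075 (.c 8194 (.c 16 .nil)))) .nil)))))) (.node (.node (.node (.node (.node (.X 0 (.c 40 (.c 8258 (.c 24 (.c 16 .nil)))) (.l 18433 .nil)) (.X 0 (.c 43356739 (.c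 12802 (.c 32 (.c 16 .nil)))) .nil)) (.node (.X 0 (.c 43954883 (.c 8194 (.c 16 (.c 8 .nil)))) .nil) (.X 0 (.c 48 (.c 40 (.c 4674 (.c 16 .nil)))) (.l 8193 .nil)))) (.node (.node (.X 0 (.c 48 (.c 21307587 (.c 2050 (.c 8 .nil)))) .nil) (.X 2 (.c 40 (.c 16 (.c 8 (.c 0 (.c 48 .nil))))) (.b 8385 .nil))) (.node (.X 2 (.c 40 (.c 8 (.c 16 (.c 0 (.c 48 .nil))))) (.b 8385 .nil)) (.X 0 (.c 43954883 (.c 32 (.c 2050 (.c 8 .nil)))) .nil)))) (.node (.node (.node (.X 3 (.c 33587529 (.c 8 (.c 48 (.c 32 (.c 24 .nil))))) .nil) (.X 3 (.c 2105673 (.c 32 (.c 48 (.c 24 (.c 16 .nil))))) .nil)) (.node (.X 0 (.c 48 (.c 20891715 (.c 32 (.c 4610 .nil)))) .nil) (.X 3 (.c 2718203977 (.c 16 (.c 40 (.c 32 (.c 24 .nil))))) .nil))) (.node (.node (.X 0 (.c 48 (.c 40 (.c 62886564839778 (.c 8 .nil)))) .nil) (.X 0 (.c 48 (.c 40 (.c 617611590365410 (.c 8 .nil)))) .nil)) (.node (.X 0 (.c 43954947 (.c 24 (.c 2050 (.c 8 .nil))))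 .nil) (.X 0 (.c 48 (.c 40 (.c 2487087821154 (.c 24 .nil)))) .nil))))) (.node (.node (.node (.node (.X 2 (.c 48 (.c 16 (.c 8 (.c 0 (.c 24 .nil))))) (.b 13057 .nil)) (.X 0 (.c 48 (.c 40 (.c 8258 (.c 16 .nil)))) (.l 4609 .nil))) (.node (.X 2 (.c 48 (.c 24 (.c 8 (.c 0 (.c 32 .nil))))) (.b 12929 .nil)) (.X 0 (.c 43655363 (.c 40 (.c 2050 (.c 8 .nil)))) .nil))) (.node (.node (.X 2 (.c 48 (.c 8 (.c 16 (.c 0 (.c 32 .nil))))) (.b 12993 .nil)) (.X 0 (.c 48 (.c 21307459 (.c 24 (.c 2050 .nil)))) .nil)) (.node (.X 2 (.c 48 (.c 16 (.c 8 (.c 0 (.c 32 .nil))))) (.b 12993 .nil)) (.X 2 (.c 48 (.c 32 (.c 8 (.c 0 (.c 16 .nil))))) (.b 12993 .nil))))) (.node (.node (.node (.X 0 (.c 48 (.c 3561389332330570 (.c 32 (.c 8 .nil)))) .nil) (.X 2 (.c 40 (.c 24 (.c 16 (.c 0 (.c 32 .nil))))) (.b 18497 .nil))) (.node (.X 2 (.c 40 (.c 24 (.c 32 (.c 0 (.c 16 .nil))))) (.b 18497 .nil)) (.X 2 (.c 40 (.c 32 (.c 16 (.c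 0 (.c 24 .nil))))) (.b 18497 .nil)))) (.node (.node (.X 2 (.c 40 (.c 16 (.c 32 (.c 0 (.c 24 .nil))))) (.b 18497 .nil)) (.X 0 (.c 43655235 (.c 40 (.c 24 (.c 2050 .nil)))) .nil)) (.node (.X 0 (.c 48 (.c 21099075 (.c 32 (.c 2050 .nil)))) .nil) (.X 0 (.c 48 (.c 40 (.c 8258 (.c 24 .nil)))) (.l 2049 .nil))))))))

noncomputable def c2_458 : Tr := (.node (.node (.node (.node (.node (.node (.X 0 (.c 48 (.c 32 (.c 4674 (.c 16 .nil)))) (.l 12801 .nil)) (.X 0 (.c 40 (.c 32 (.c 4674 (.c 16 .nil)))) (.l 18433 .nil))) (.node (.X 0 (.c 14629226063622562 (.c 32 (.c 24 (.c 16 .nil)))) .nil) (.X 0 (.c 14832760048435618 (.c 32 (.c 24 (.c 8 .nil)))) .nil))) (.node (.node (.X 2 (.c 40 (.c 8 (.c 32 (.c 0 (.c 24 .nil))))) (.b 18561 .nil)) (.X 2 (.c 40 (.c 0 (.c 24 (.c 8 (.c 32 .nil))))) (.b 18561 .nil))) (.node (.X 0 (.c 3561346290217442 (.c 32 (.c 16 (.c 8 .nil)))) .nil) (.X 0 (.c 15246191989555618 (.c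 24 (.c 16 (.c 8 .nil)))) .nil)))) (.node (.node (.node (.X 0 (.c 14832760048435554 (.c 40 (.c 24 (.c 8 .nil)))) .nil) (.X 0 (.c 15456298926182474 (.c 24 (.c 16 (.c 8 .nil)))) .nil)) (.node (.X 2 (.c 40 (.c 8 (.c 16 (.c 0 (.c 32 .nil))))) (.b 18625 .nil)) (.X 2 (.c 40 (.c 16 (.c 8 (.c 0 (.c 24 .nil))))) (.b 18689 .nil)))) (.node (.node (.X 2 (.c 12801 (.c 8 (.c 24 (.c 16 (.c 32 .nil))))) (.b 48 .nil)) (.X 0 (.c 15038410483298530 (.c 40 (.c 32 (.c 8 .nil)))) .nil)) (.node (.X 2 (.c 32 (.c 8 (.c 24 (.c 2049 (.c 48 .nil))))) (.b 40 .nil)) (.X 2 (.c 8193 (.c 24 (.c 16 (.c 8 (.c 40 .nil))))) (.b 48 .nil)))))) (.node (.node (.node (.node (.X 2 (.c 18433 (.c 16 (.c 40 (.c 24 (.c 8 .nil))))) (.b 32 .nil)) (.X 2 (.c 32 (.c 2049 (.c 24 (.c 8 (.c 40 .nil))))) (.b 48 .nil))) (.node (.X 2 (.c 18433 (.c 32 (.c 24 (.c 8 (.c 16 .nil))))) (.b 40 .nil)) (.X 2 (.c 24 (.c 16 (.c 8 (.c 0 (.c 32 .nil)))))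 (.b 18753 .nil)))) (.node (.node (.X 0 (.c 48 (.c 3632062472293450 (.c 24 (.c 16 .nil)))) .nil) (.X 2 (.c 40 (.c 8 (.c 24 (.c 0 (.c 32 .nil))))) (.l 18561 .nil))) (.node (.X 2 (.c 18433 (.c 24 (.c 40 (.c 8 (.c 16 .nil))))) (.b 32 .nil)) (.X 2 (.c 18433 (.c 24 (.c 40 (.c 16 (.c 8 .nil))))) (.b 32 .nil))))) (.node (.node (.node (.X 0 (.c 43655363 (.c 40 (.c 16 (.c 514 .nil)))) .nil) (.X 2 (.c 24 (.c 8 (.c 16 (.c 0 (.c 32 .nil))))) (.b 18753 .nil))) (.node (.X 2 (.c 8193 (.c 24 (.c 16 (.c 8 (.c 48 .nil))))) (.b 40 .nil)) (.X 2 (.c 12801 (.c 16 (.c 32 (.c 24 (.c 8 .nil))))) (.b 48 .nil)))) (.node (.node (.X 0 (.c 48 (.c 40 (.c 8786563 (.c 514 .nil)))) .nil) (.X 0 (.c 48 (.c 40 (.c 24 (.c 2114 .nil)))) (.l 8193 .nil))) (.node (.X 2 (.c 40 (.c 8 (.c 32 (.c 0 (.c 48 .nil))))) (.l 4737 .nil)) (.X 2 (.c 32 (.c 4609 (.c 16 (.c 8 (.c 48 .nil))))) (.b 40 .nil))))))) (.node (.node (.node (.node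 (.node (.X 2 (.c 40 (.c 0 (.c 32 (.c 8 (.c 48 .nil))))) (.l 4737 .nil)) (.X 2 (.c 12801 (.c 32 (.c 24 (.c 16 (.c 8 .nil))))) (.b 48 .nil))) (.node (.X 2 (.c 40 (.c 16 (.c 32 (.c 0 (.c 8 .nil))))) (.b 18625 .nil)) (.X 0 (.c 48 (.c 40 (.c 32 (.c 4738 .nil)))) (.l 513 .nil)))) (.node (.node (.X 0 (.c 48 (.c 40 (.c 617620517416010 (.c 16 .nil)))) .nil) (.X 2 (.c 32 (.c 16 (.c 4609 (.c 8 (.c 48 .nil))))) (.b 40 .nil))) (.node (.X 2 (.c 32 (.c 513 (.c 24 (.c 16 (.c 48 .nil))))) (.b 40 .nil)) (.X 2 (.c 40 (.c 16 (.c 32 (.c 4609 (.c 8 .nil))))) (.b 48 .nil))))) (.node (.node (.node (.X 0 (.c 15456119238881506 (.c 32 (.c 24 (.c 8 .nil)))) .nil) (.X 0 (.c 48 (.c 32 (.c 24 (.c 2114 .nil)))) (.l 12801 .nil))) (.node (.X 2 (.c 48 (.c 0 (.c 40 (.c 8 (.c 32 .nil))))) (.l 4737 .nil)) (.X 2 (.c 32 (.c 8 (.c 24 (.c 0 (.c 48 .nil))))) (.l 12929 .nil)))) (.node (.node (.X 2 (.c 40 (.c 24 (.c 16 (.c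 513 (.c 48 .nil))))) (.b 32 .nil)) (.X 2 (.c 32 (.c 24 (.c 16 (.c 513 (.c 40 .nil))))) (.b 48 .nil))) (.node (.X 2 (.c 18433 (.c 8 (.c 32 (.c 24 (.c 16 .nil))))) (.b 40 .nil)) (.X 2 (.c 48 (.c 0 (.c 40 (.c 8 (.c 24 .nil))))) (.l 8321 .nil)))))) (.node (.node (.node (.node (.X 0 (.c 40 (.c 32 (.c 24 (.c 2114 .nil)))) (.l 18433 .nil)) (.X 2 (.c 18433 (.c 24 (.c 16 (.c 8 (.c 32 .nil))))) (.b 40 .nil))) (.node (.X 2 (.c 12801 (.c 8 (.c 24 (.c 16 (.c 48 .nil))))) (.b 32 .nil)) (.X 2 (.c 48 (.c 24 (.c 32 (.c 0 (.c 8 .nil))))) (.l 12929 .nil)))) (.node (.node (.X 2 (.c 40 (.c 8 (.c 4609 (.c 16 (.c 48 .nil))))) (.b 32 .nil)) (.X 2 (.c 40 (.c 8 (.c 24 (.c 2049 (.c 48 .nil))))) (.b 32 .nil))) (.node (.X 0 (.c 48 (.c 40 (.c 32 (.c 59555580702946 .nil)))) .nil) (.X 0 (.c 48 (.c 40 (.c 32 (.c 62886564839586 .nil)))) .nil)))) (.node (.node (.node (.X 2 (.c 18433 (.c 16 (.c 40 (.c 8 (.c 32 .nil)))))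 (.b 24 .nil)) (.X 0 (.c 48 (.c 21307587 (.c 16 (.c 514 .nil)))) .nil)) (.node (.X 2 (.c 18433 (.c 8 (.c 40 (.c 32 (.c 16 .nil))))) (.b 24 .nil)) (.X 0 (.c 43356803 (.c 40 (.c 32 (.c 514 .nil)))) .nil))) (.node (.node (.X 2 (.c 12801 (.c 24 (.c 16 (.c 8 (.c 48 .nil))))) (.b 32 .nil)) (.X 2 (.c 40 (.c 8193 (.c 16 (.c 8 (.c 48 .nil))))) (.b 24 .nil))) (.node (.X 0 (.c 43059203 (.c 12866 (.c 32 (.c 24 .nil)))) .nil) (.X 0 (.c 43356675 (.c 40 (.c 8258 (.c 16 .nil)))) .nil)))))))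

noncomputable def c2_459 : Tr := (.node (.node (.node (.node (.node (.node (.X 0 (.c 43655171 (.c 12866 (.c 24 (.c 16 .nil)))) .nil) (.X 0 (.c 43954691 (.c 32 (.c 4674 (.c 16 .nil)))) .nil)) (.node (.X 0 (.c 43059203 (.c 40 (.c 8258 (.c 24 .nil)))) .nil) (.X 0 (.c 43356675 (.c 40 (.c 8322 (.c 8 .nil)))) .nil))) (.node (.node (.X 0 (.c 43954691 (.c 8322 (.c 24 (.c 8 .nil)))) .nil) (.X 2 (.c 40 (.c 8193 (.c 24 (.c 8 (.c 48 .nil))))) (.b 16 .nil))) (.node (.X 2 (.c 48 (.c 8 (.c 40 (.c 0 (.c 16 .nil))))) (.l 8385 .nil)) (.X 2 (.c 48 (.c 8 (.c 32 (.c 0 (.c 16 .nil))))) (.l 12993 .nil))))) (.node (.node (.node (.X 2 (.c 48 (.c 24 (.c 8 (.c 0 (.c 40 .nil))))) (.b 32 (.b 16 .nil))) (.X 2 (.c 48 (.c 0 (.c 40 (.c 8 (.c 16 .nil))))) (.l 8385 .nil))) (.node (.X 2 (.c 18433 (.c 40 (.c 32 (.c 8 (.c 16 .nil))))) (.b 24 .nil)) (.X 2 (.c 48 (.c 16 (.c 8 (.c 0 (.c 40 .nil))))) (.b 24 (.b 32 .nil)))))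 (.node (.node (.X 2 (.c 48 (.c 0 (.c 32 (.c 16 (.c 8 .nil))))) (.l 12993 .nil)) (.X 2 (.c 48 (.c 8 (.c 16 (.c 0 (.c 40 .nil))))) (.b 32 (.b 24 .nil)))) (.node (.X 2 (.c 18433 (.c 24 (.c 40 (.c 8 (.c 32 .nil))))) (.b 16 .nil)) (.X 0 (.c 48 (.c 21307523 (.c 4674 (.c 0 .nil)))) .nil))))) (.node (.node (.node (.node (.X 0 (.c 48 (.c 598976927780770 (.c 24 (.c 0 .nil)))) .nil) (.X 0 (.c 48 (.c 12866 (.c 8786563 (.c 0 .nil)))) .nil)) (.node (.X 0 (.c 48 (.c 20685315 (.c 8322 (.c 24 .nil)))) .nil) (.X 0 (.c 43954819 (.c 32 (.c 4674 (.c 0 .nil)))) .nil))) (.node (.node (.X 0 (.c 48 (.c 62889435877282 (.c 32 (.c 0 .nil)))) .nil) (.X 0 (.c 43655363 (.c 12866 (.c 16 (.c 0 .nil)))) .nil)) (.node (.X 0 (.c 48 (.c 12930 (.c 8520195 (.c 24 .nil)))) .nil) (.X 0 (.c 48 (.c 617620587708322 (.c 16 (.c 0 .nil)))) .nil)))) (.node (.node (.node (.X 2 (.c 48 (.c 16 (.c 8 (.c 0 (.c 40 .nil))))) (.l 8385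 .nil)) (.X 2 (.c 48 (.c 16 (.c 8 (.c 0 (.c 40 .nil))))) (.t 24 32 .nil))) (.node (.X 2 (.c 32 (.c 24 (.c 16 (.c 0 (.c 8 .nil))))) (.l 18753 .nil)) (.X 2 (.c 48 (.c 8 (.c 40 (.c 0 (.c 16 .nil))))) (.t 24 32 .nil)))) (.node (.node (.X 2 (.c 40 (.c 8 (.c 16 (.c 0 (.c 24 .nil))))) (.l 18689 .nil)) (.X 0 (.c 48 (.c 3632084461624610 (.c 8 (.c 0 .nil)))) .nil)) (.node (.X 2 (.c 48 (.c 24 (.c 16 (.c 0 (.c 8 .nil))))) (.t 32 40 .nil)) (.X 0 (.c 48 (.c 3561389501123938 (.c 8 (.c 0 .nil)))) .nil)))))) (.node (.node (.node (.node (.node (.X 2 (.c 18433 (.c 24 (.c 40 (.c 32 (.c 16 .nil))))) (.b 8 .nil)) (.X 2 (.c 32 (.c 0 (.c 16 (.c 8 (.c 48 .nil))))) (.t 24 40 .nil))) (.node (.X 2 (.c 48 (.c 32 (.c 12801 (.c 8 (.c 24 .nil))))) (.b 16 .nil)) (.X 0 (.c 43954883 (.c 32 (.c 2114 (.c 0 .nil)))) .nil))) (.node (.node (.X 0 (.c 48 (.c 13058 (.c 24 (.c 8 .nil)))) (.l 2049 .nil)) (.X 2 (.c 40 (.c 8 (.c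 32 (.c 24 (.c 16 .nil))))) (.b 18433 .nil))) (.node (.X 2 (.c 40 (.c 16 (.c 24 (.c 8 (.c 32 .nil))))) (.b 18433 .nil)) (.X 0 (.c 48 (.c 21307459 (.c 4738 (.c 0 .nil)))) .nil)))) (.node (.node (.node (.X 0 (.c 48 (.c 40 (.c 8322 (.c 8 .nil)))) (.l 4609 .nil)) (.X 0 (.c 48 (.c 40 (.c 8386 (.c 8 .nil)))) (.l 2049 .nil))) (.node (.X 0 (.c 48 (.c 13058 (.c 16 (.c 8 .nil)))) (.l 4609 .nil)) (.X 2 (.c 48 (.c 32 (.c 16 (.c 513 (.c 24 .nil))))) (.b 40 .nil)))) (.node (.node (.X 2 (.c 48 (.c 32 (.c 24 (.c 513 (.c 16 .nil))))) (.b 40 .nil)) (.X 2 (.c 48 (.c 24 (.c 32 (.c 513 (.c 16 .nil))))) (.b 40 .nil))) (.node (.X 2 (.c 48 (.c 32 (.c 4609 (.c 8 (.c 16 .nil))))) (.b 40 .nil)) (.X 0 (.c 40 (.c 32 (.c 4738 (.c 8 .nil)))) (.l 18433 .nil)))))) (.node (.node (.node (.node (.X 2 (.c 40 (.c 16 (.c 8193 (.c 24 (.c 8 .nil))))) (.b 48 .nil)) (.X 0 (.c 43356739 (.c 40 (.c 8322 (.c 0 .nil)))) .nil))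 (.node (.X 0 (.c 48 (.c 13058 (.c 2728451 (.c 16 .nil)))) .nil) (.X 2 (.c 48 (.c 40 (.c 2049 (.c 8 (.c 24 .nil))))) (.b 32 .nil)))) (.node (.node (.X 2 (.c 48 (.c 40 (.c 24 (.c 2049 (.c 8 .nil))))) (.b 32 .nil)) (.X 2 (.c 12801 (.c 24 (.c 32 (.c 16 (.c 48 .nil))))) (.b 8 .nil))) (.node (.X 2 (.c 48 (.c 40 (.c 4609 (.c 8 (.c 16 .nil))))) (.b 32 .nil)) (.X 0 (.c 48 (.c 20685315 (.c 32 (.c 4738 .nil)))) .nil)))) (.node (.node (.node (.X 2 (.c 48 (.c 40 (.c 4609 (.c 16 (.c 8 .nil))))) (.b 32 .nil)) (.X 2 (.c 40 (.c 513 (.c 32 (.c 24 (.c 16 .nil))))) (.b 48 .nil))) (.node (.X 0 (.c 48 (.c 13058 (.c 24 (.c 16 .nil)))) (.l 513 .nil)) (.X 0 (.c 48 (.c 40 (.c 4738 (.c 8 .nil)))) (.l 8193 .nil)))) (.node (.node (.X 0 (.c 59934268409707441929 (.c 40 (.c 32 (.c 0 .nil)))) .nil) (.X 0 (.c 35718537 (.c 32 (.c 24 (.c 0 .nil)))) (.l 40 .nil))) (.node (.X 0 (.c 10206511083363273 (.c 32 (.c 24 (.c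 0 .nil)))) .nil) (.X 0 (.c 545424777 (.c 40 (.c 16 (.c 0 .nil)))) (.l 24 .nil))))))))

noncomputable def c2_460 : Tr := (.node (.node (.node (.node (.node (.node (.X 0 (.c 40 (.c 545424585 (.c 16 (.c 0 .nil)))) (.l 48 .nil)) (.X 0 (.c 48 (.c 35718473 (.c 32 (.c 0 .nil)))) (.l 24 .nil))) (.node (.X 0 (.c 545424777 (.c 40 (.c 24 (.c 0 .nil)))) (.l 16 .nil)) (.X 0 (.c 244149027818380041 (.c 40 (.c 32 (.c 0 .nil)))) .nil))) (.node (.node (.X 0 (.c 32 (.c 16 (.c 8 (.c 0 .nil)))) (.l 48 (.l 12993 .nil))) (.X 0 (.c 48 (.c 40 (.c 244148670041477897 (.c 0 .nil)))) .nil)) (.node (.X 0 (.c 40 (.c 32 (.c 35718345 (.c 0 .nil)))) (.l 48 .nil)) (.X 0 (.c 48 (.c 16 (.c 8 (.c 0 .nil)))) (.l 13057 (.l 24 .nil)))))) (.node (.node (.node (.X 0 (.c 48 (.c 40 (.c 2379903823379377929 (.c 0 .nil)))) .nil) (.X 0 (.c 35718537 (.c 40 (.c 24 (.c 0 .nil)))) (.l 32 .nil))) (.node (.X 0 (.c 2737112329 (.c 40 (.c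 16 (.c 0 .nil)))) (.l 24 .nil)) (.X 0 (.c 59934265606904515529 (.c 32 (.c 24 (.c 0 .nil)))) .nil))) (.node (.node (.X 0 (.c 40 (.c 32 (.c 174695561 (.c 0 .nil)))) (.l 48 .nil)) (.X 0 (.c 244148670041478153 (.c 40 (.c 16 (.c 0 .nil)))) .nil)) (.node (.X 0 (.c 48 (.c 40 (.c 8 (.c 0 .nil)))) (.l 32 (.l 4737 .nil))) (.X 0 (.c 244149027818380169 (.c 40 (.c 16 (.c 0 .nil)))) .nil))))) (.node (.node (.node (.node (.X 0 (.c 32 (.c 24 (.c 8 (.c 0 .nil)))) (.l 48 (.l 12929 .nil))) (.X 0 (.c 2737112265 (.c 40 (.c 32 (.c 0 .nil)))) (.l 16 .nil))) (.node (.X 0 (.c 1324066185 (.c 32 (.c 16 (.c 0 .nil)))) (.l 24 .nil)) (.X 0 (.c 10206401356312585 (.c 40 (.c 32 (.c 0 .nil)))) .nil))) (.node (.node (.X 0 (.c 48 (.c 40 (.c 8 (.c 0 .nil)))) (.l 24 (.l 8321 .nil))) (.X 0 (.c 40 (.c 24 (.c 16 (.c 0 .nil)))) (.l 32 (.l 18497 .nil)))) (.node (.X 0 (.c 2737112393 (.c 32 (.c 16 (.c 0 .nil)))) (.l 24 .nil))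 (.X 0 (.c 40 (.c 32 (.c 24 (.c 0 .nil)))) (.l 16 (.l 18497 .nil)))))) (.node (.node (.node (.X 0 (.c 2737112265 (.c 40 (.c 16 (.c 0 .nil)))) (.l 32 .nil)) (.X 0 (.c 2737112265 (.c 32 (.c 16 (.c 0 .nil)))) (.l 40 .nil))) (.node (.X 0 (.c 40 (.c 24 (.c 8 (.c 0 .nil)))) (.l 18689 (.l 16 .nil))) (.X 0 (.c 174695817 (.c 40 (.c 16 (.c 0 .nil)))) (.l 32 .nil)))) (.node (.node (.X 0 (.c 48 (.c 40 (.c 545424585 (.c 0 .nil)))) (.l 16 .nil)) (.X 0 (.c 35718473 (.c 32 (.c 24 (.c 0 .nil)))) (.l 48 .nil))) (.node (.X 0 (.c 48 (.c 32 (.c 24 (.c 0 .nil)))) (.l 16 (.l 12865 .nil))) (.X 0 (.c 40 (.c 32 (.c 8 (.c 0 .nil)))) (.l 48 (.l 4737 .nil)))))))) (.node (.node (.node (.node (.node (.X 0 (.c 40 (.c 16 (.c 8 (.c 0 .nil)))) (.l 48 (.l 8385 .nil))) (.X 0 (.c 32 (.c 24 (.c 8 (.c 0 .nil)))) (.l 40 (.l 18561 .nil)))) (.node (.X 0 (.c 48 (.c 24 (.c 8 (.c 0 .nil)))) (.l 13057 (.l 16 .nil))) (.X 0 (.c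 32 (.c 16 (.c 8 (.c 0 .nil)))) (.l 18753 (.l 24 .nil))))) (.node (.node (.X 2 (.c 40 (.c 4737 (.c 32 (.c 0 (.c 8 .nil))))) (.b 48 .nil)) (.X 0 (.c 32 (.c 16 (.c 8 (.c 0 .nil)))) (.l 40 (.l 18625 .nil)))) (.node (.X 0 (.c 40 (.c 24 (.c 8 (.c 0 .nil)))) (.l 48 (.l 8321 .nil))) (.X 0 (.c 24 (.c 16 (.c 8 (.c 0 .nil)))) (.l 48 (.l 13057 .nil)))))) (.node (.node (.node (.X 0 (.c 40 (.c 32 (.c 16 (.c 0 .nil)))) (.l 18625 (.l 8 .nil))) (.X 0 (.c 48 (.c 24 (.c 16 (.c 0 .nil)))) (.l 40 (.l 8257 .nil)))) (.node (.X 0 (.c 48 (.c 32 (.c 8 (.c 0 .nil)))) (.l 40 (.l 4737 .nil))) (.X 0 (.c 48 (.c 32 (.c 8 (.c 0 .nil)))) (.l 24 (.l 12929 .nil))))) (.node (.node (.X 0 (.c 48 (.c 40 (.c 24 (.c 0 .nil)))) (.l 16 (.l 8257 .nil))) (.X 0 (.c 40 (.c 24 (.c 16 (.c 0 .nil)))) (.l 48 (.l 8257 .nil)))) (.node (.X 0 (.c 48 (.c 32 (.c 16 (.c 0 .nil)))) (.l 24 (.l 12865 .nil))) (.X 2 (.c 48 (.c 16 (.c 40 (.c 513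 (.c 24 .nil))))) (.b 32 .nil)))))) (.node (.node (.node (.node (.X 2 (.c 48 (.c 8 (.c 24 (.c 0 (.c 40 .nil))))) (.b 32 (.b 16 .nil))) (.X 2 (.c 18497 (.c 32 (.c 24 (.c 0 (.c 16 .nil))))) (.b 40 .nil))) (.node (.X 2 (.c 18497 (.c 32 (.c 16 (.c 0 (.c 24 .nil))))) (.b 40 .nil)) (.X 2 (.c 18433 (.c 32 (.c 24 (.c 2113 (.c 40 .nil))))) .nil))) (.node (.node (.X 2 (.c 18433 (.c 32 (.c 4673 (.c 16 (.c 40 .nil))))) .nil) (.X 0 (.c 2306972427525220370 (.c 24 (.c 16 (.c 8 .nil)))) .nil)) (.node (.X 0 (.c 9025011496970258 (.c 32 (.c 24 (.c 8 .nil)))) .nil) (.X 0 (.c 59109074040138580434 (.c 24 (.c 16 (.c 8 .nil)))) .nil)))) (.node (.node (.node (.X 0 (.c 13748198903624099794 (.c 24 (.c 16 (.c 8 .nil)))) .nil) (.X 0 (.c 59109068473256441362 (.c 32 (.c 16 (.c 8 .nil)))) .nil)) (.node (.X 0 (.c 59109062906374564370 (.c 32 (.c 24 (.c 16 .nil)))) .nil) (.X 0 (.c 18497 (.c 40 (.c 32 (.c 4738 .nil))))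 (.l 0 .nil)))) (.node (.node (.X 0 (.c 18497 (.c 40 (.c 8386 (.c 16 .nil)))) (.l 0 .nil)) (.X 0 (.c 537002377 (.c 12866 (.c 24 (.c 16 .nil)))) .nil)) (.node (.X 0 (.c 2718204169 (.c 12866 (.c 24 (.c 16 .nil)))) .nil) (.X 0 (.c 169943433 (.c 40 (.c 8258 (.c 16 .nil)))) .nil)))))))

noncomputable def c2_461 : Tr := (.node (.node (.node (.node (.node (.node (.X 0 (.c 169943433 (.c 12866 (.c 32 (.c 16 .nil)))) .nil) (.X 0 (.c 2718204105 (.c 40 (.c 8258 (.c 16 .nil)))) .nil)) (.node (.X 0 (.c 537002377 (.c 40 (.c 4674 (.c 16 .nil)))) .nil) (.X 0 (.c 2105737 (.c 40 (.c 8322 (.c 24 .nil)))) .nil))) (.node (.node (.X 0 (.c 2718203977 (.c 40 (.c 8322 (.c 24 .nil)))) .nil) (.X 0 (.c 2105737 (.c 12930 (.c 32 (.c 24 .nil)))) .nil)) (.node (.X 0 (.c 2718203977 (.c 12930 (.c 32 (.c 24 .nil)))) .nil) (.X 0 (.c 2718204233 (.c 8322 (.c 24 (.c 8 .nil)))) .nil)))) (.node (.node (.node (.X 0 (.c 2718204233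 (.c 32 (.c 24 (.c 2114 .nil)))) .nil) (.X 0 (.c 1310925193 (.c 32 (.c 24 (.c 2114 .nil)))) .nil)) (.node (.X 0 (.c 1310925193 (.c 32 (.c 4738 (.c 8 .nil)))) .nil) (.X 0 (.c 2718204233 (.c 32 (.c 4738 (.c 8 .nil)))) .nil))) (.node (.node (.X 0 (.c 1310925193 (.c 8322 (.c 24 (.c 8 .nil)))) .nil) (.X 0 (.c 537002377 (.c 40 (.c 4738 (.c 8 .nil)))) .nil)) (.node (.X 0 (.c 2718204041 (.c 40 (.c 32 (.c 4674 .nil)))) .nil) (.X 0 (.c 2718203977 (.c 40 (.c 32 (.c 4738 .nil)))) .nil))))) (.node (.node (.node (.node (.X 0 (.c 2718204041 (.c 40 (.c 8386 (.c 8 .nil)))) .nil) (.X 0 (.c 2105737 (.c 40 (.c 8386 (.c 16 .nil)))) .nil)) (.node (.X 0 (.c 2718203977 (.c 40 (.c 8386 (.c 16 .nil)))) .nil) (.X 0 (.c 2105737 (.c 12994 (.c 32 (.c 16 .nil)))) .nil))) (.node (.node (.X 0 (.c 2718203977 (.c 12994 (.c 32 (.c 16 .nil)))) .nil) (.X 0 (.c 2718204105 (.c 12930 (.c 32 (.c 8 .nil)))) .nil)) (.node (.X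 0 (.c 169943433 (.c 12930 (.c 32 (.c 8 .nil)))) .nil) (.X 0 (.c 2718204041 (.c 12994 (.c 32 (.c 8 .nil)))) .nil)))) (.node (.node (.node (.X 0 (.c 2718204105 (.c 40 (.c 8322 (.c 8 .nil)))) .nil) (.X 0 (.c 2718204169 (.c 12930 (.c 24 (.c 8 .nil)))) .nil)) (.node (.X 0 (.c 2756085834 (.c 40 (.c 32 (.c 24 .nil)))) (.l 0 .nil)) (.X 0 (.c 40 (.c 32 (.c 4673 (.c 0 .nil)))) (.l 48 (.l 16 .nil))))) (.node (.node (.X 0 (.c 18497 (.c 40 (.c 32 (.c 0 .nil)))) (.l 24 (.l 16 .nil))) (.X 0 (.c 48 (.c 40 (.c 4737 (.c 0 .nil)))) (.l 32 (.l 8 .nil)))) (.node (.X 0 (.c 48 (.c 32 (.c 4737 (.c 0 .nil)))) (.l 40 (.l 8 .nil))) (.X 0 (.c 18625 (.c 40 (.c 32 (.c 0 .nil)))) (.l 16 (.l 8 .nil)))))))) (.node (.node (.node (.node (.node (.X 0 (.c 48 (.c 12866 (.c 169943305 (.c 16 .nil)))) .nil) (.X 0 (.c 48 (.c 12930 (.c 32 (.c 169943113 .nil)))) .nil)) (.node (.X 0 (.c 48 (.c 169943369 (.c 8258 (.c 16 .nil))))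 .nil) (.X 0 (.c 48 (.c 12866 (.c 32 (.c 33587401 .nil)))) .nil))) (.node (.node (.X 0 (.c 48 (.c 1310924873 (.c 8322 (.c 24 .nil)))) .nil) (.X 0 (.c 48 (.c 12994 (.c 32 (.c 33587273 .nil)))) .nil)) (.node (.X 0 (.c 48 (.c 12930 (.c 537002057 (.c 24 .nil)))) .nil) (.X 0 (.c 48 (.c 12994 (.c 32 (.c 2105481 .nil)))) .nil)))) (.node (.node (.node (.X 0 (.c 48 (.c 537002313 (.c 4674 (.c 16 .nil)))) .nil) (.X 0 (.c 48 (.c 1310925065 (.c 4674 (.c 16 .nil)))) .nil)) (.node (.X 0 (.c 48 (.c 40 (.c 8322 (.c 2105545 .nil)))) .nil) (.X 0 (.c 48 (.c 40 (.c 8386 (.c 2105481 .nil)))) .nil))) (.node (.node (.X 0 (.c 48 (.c 40 (.c 537002121 (.c 4674 .nil)))) .nil) (.X 0 (.c 48 (.c 40 (.c 8322 (.c 169943113 .nil)))) .nil)) (.node (.X 0 (.c 48 (.c 40 (.c 8258 (.c 33587401 .nil)))) .nil) (.X 0 (.c 48 (.c 40 (.c 8386 (.c 33587273 .nil)))) .nil))))) (.node (.node (.node (.node (.X 0 (.c 48 (.c 537002313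 (.c 24 (.c 2114 .nil)))) .nil) (.X 0 (.c 48 (.c 1310925065 (.c 24 (.c 2114 .nil)))) .nil)) (.node (.X 0 (.c 48 (.c 1310925065 (.c 4738 (.c 8 .nil)))) .nil) (.X 0 (.c 48 (.c 33587529 (.c 8386 (.c 8 .nil)))) .nil))) (.node (.node (.X 0 (.c 48 (.c 2105673 (.c 8386 (.c 16 .nil)))) .nil) (.X 0 (.c 48 (.c 12930 (.c 169943305 (.c 8 .nil)))) .nil)) (.node (.X 0 (.c 48 (.c 2105673 (.c 32 (.c 4738 .nil)))) .nil) (.X 0 (.c 48 (.c 1310924937 (.c 32 (.c 4674 .nil)))) .nil)))) (.node (.node (.node (.X 0 (.c 48 (.c 1310925001 (.c 32 (.c 2114 .nil)))) .nil) (.X 0 (.c 48 (.c 12994 (.c 2105609 (.c 16 .nil)))) .nil)) (.node (.X 0 (.c 48 (.c 12994 (.c 33587465 (.c 8 .nil)))) .nil) (.X 0 (.c 48 (.c 13748192191687928274 (.c 24 (.c 16 .nil)))) .nil))) (.node (.node (.X 0 (.c 48 (.c 9024977103307218 (.c 24 (.c 8 .nil)))) .nil) (.X 0 (.c 48 (.c 35470887109074 (.c 24 (.c 16 .nil)))) .nil)) (.node (.X 0 (.c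 48 (.c 13748194876462200274 (.c 16 (.c 8 .nil)))) .nil) (.X 0 (.c 48 (.c 2306971877634818386 (.c 24 (.c 8 .nil)))) .nil)))))))

noncomputable def c2_462 : Tr := (.node (.node (.node (.node (.node (.node (.X 0 (.c 48 (.c 13748192191687928210 (.c 32 (.c 16 .nil)))) .nil) (.X 0 (.c 48 (.c 13748196218849434450 (.c 24 (.c 8 .nil)))) .nil)) (.node (.X 0 (.c 18562 (.c 2105673 (.c 32 (.c 24 .nil)))) .nil) (.X 0 (.c 18498 (.c 1310925065 (.c 24 (.c 16 .nil)))) .nil))) (.node (.node (.X 0 (.c 18626 (.c 40 (.c 32 (.c 2105481 .nil)))) .nil) (.X 0 (.c 18498 (.c 40 (.c 32 (.c 33587401 .nil)))) .nil)) (.node (.X 0 (.c 18754 (.c 2105609 (.c 24 (.c 16 .nil)))) .nil) (.X 0 (.c 18754 (.c 537002121 (.c 24 (.c 8 .nil)))) .nil)))) (.node (.node (.node (.X 0 (.c 18754 (.c 169943305 (.c 16 (.c 8 .nil)))) .nil) (.X 0 (.c 18690 (.c 40 (.c 24 (.c 33587273 .nil)))) .nil)) (.node (.X 0 (.c 18690 (.c 40 (.c 169943113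 (.c 16 .nil)))) .nil) (.X 0 (.c 18754 (.c 32 (.c 169943177 (.c 8 .nil)))) .nil))) (.node (.node (.X 0 (.c 18498 (.c 40 (.c 537002121 (.c 24 .nil)))) .nil) (.X 0 (.c 18562 (.c 40 (.c 2105609 (.c 24 .nil)))) .nil)) (.node (.X 0 (.c 18626 (.c 40 (.c 2105609 (.c 16 .nil)))) .nil) (.X 0 (.c 18626 (.c 40 (.c 537002057 (.c 16 .nil)))) .nil))))) (.node (.node (.node (.node (.X 0 (.c 2775125066 (.c 40 (.c 32 (.c 16 .nil)))) (.l 0 .nil)) (.X 0 (.c 18433 (.c 1324168978 (.c 24 (.c 16 .nil)))) .nil)) (.node (.X 0 (.c 18433 (.c 1324168914 (.c 32 (.c 16 .nil)))) .nil) (.X 0 (.c 2718351634 (.c 40 (.c 4673 (.c 16 .nil)))) .nil))) (.node (.node (.X 0 (.c 2718351570 (.c 12865 (.c 32 (.c 16 .nil)))) .nil) (.X 0 (.c 2718351634 (.c 12865 (.c 24 (.c 16 .nil)))) .nil)) (.node (.X 0 (.c 59934271212510433930 (.c 40 (.c 24 (.c 16 .nil)))) .nil) (.X 0 (.c 2379905498923997834 (.c 40 (.c 24 (.c 16 .nil)))) .nil))))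 (.node (.node (.node (.X 0 (.c 244149027818379914 (.c 40 (.c 32 (.c 16 .nil)))) .nil) (.X 0 (.c 14025210098083633802 (.c 32 (.c 24 (.c 16 .nil)))) .nil)) (.node (.X 0 (.c 59934265606904515210 (.c 40 (.c 32 (.c 24 .nil)))) .nil) (.X 0 (.c 2718351698 (.c 32 (.c 4673 (.c 16 .nil)))) .nil))) (.node (.node (.X 0 (.c 18433 (.c 40 (.c 8322 (.c 4673 .nil)))) .nil) (.X 0 (.c 18433 (.c 40 (.c 8257 (.c 4738 .nil)))) .nil)) (.node (.X 0 (.c 18433 (.c 12865 (.c 32 (.c 4738 .nil)))) .nil) (.X 0 (.c 2718351506 (.c 40 (.c 32 (.c 4673 .nil)))) .nil)))))) (.node (.node (.node (.node (.node (.X 0 (.c 18433 (.c 12930 (.c 32 (.c 4673 .nil)))) .nil) (.X 0 (.c 18433 (.c 13058 (.c 24 (.c 2113 .nil)))) .nil)) (.node (.X 0 (.c 18433 (.c 12994 (.c 8257 (.c 16 .nil)))) .nil) (.X 0 (.c 18433 (.c 40 (.c 553912394 (.c 24 .nil)))) .nil))) (.node (.node (.X 0 (.c 2718351698 (.c 32 (.c 24 (.c 16 .nil)))) (.l 8 .nil))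 (.X 0 (.c 2718351442 (.c 12929 (.c 32 (.c 24 .nil)))) .nil)) (.node (.X 0 (.c 18434 (.c 40 (.c 24 (.c 16 .nil)))) (.l 8257 .nil)) (.X 0 (.c 174733202 (.c 12801 (.c 32 (.c 16 .nil)))) .nil)))) (.node (.node (.node (.X 0 (.c 18434 (.c 32 (.c 24 (.c 16 .nil)))) (.l 12865 .nil)) (.X 0 (.c 18434 (.c 40 (.c 32 (.c 24 .nil)))) (.l 2113 .nil))) (.node (.X 0 (.c 18434 (.c 40 (.c 32 (.c 16 .nil)))) (.l 4673 .nil)) (.X 0 (.c 18433 (.c 40 (.c 8386 (.c 16 .nil)))) (.l 8 .nil)))) (.node (.node (.X 0 (.c 18433 (.c 12994 (.c 32 (.c 16 .nil)))) (.l 8 .nil)) (.X 0 (.c 18433 (.c 12866 (.c 8321 (.c 24 .nil)))) .nil)) (.node (.X 0 (.c 18433 (.c 12929 (.c 32 (.c 4674 .nil)))) .nil) (.X 0 (.c 18433 (.c 13058 (.c 24 (.c 16 .nil)))) (.l 8 .nil)))))) (.node (.node (.node (.node (.X 0 (.c 18497 (.c 1311027474 (.c 24 (.c 16 .nil)))) .nil) (.X 0 (.c 18497 (.c 1311027410 (.c 32 (.c 16 .nil)))) .nil)) (.node (.X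 0 (.c 2718351634 (.c 40 (.c 24 (.c 8 .nil)))) (.l 16 .nil)) (.X 0 (.c 18433 (.c 40 (.c 8386 (.c 8 .nil)))) (.l 16 .nil)))) (.node (.node (.X 0 (.c 48 (.c 12801 (.c 545490642 (.c 16 .nil)))) .nil) (.X 0 (.c 18690 (.c 40 (.c 24 (.c 0 .nil)))) (.l 2113 .nil))) (.node (.X 0 (.c 18626 (.c 32 (.c 16 (.c 0 .nil)))) (.l 12865 .nil)) (.X 0 (.c 12994 (.c 32 (.c 16 (.c 0 .nil)))) (.l 18497 .nil))))) (.node (.node (.node (.X 0 (.c 18690 (.c 40 (.c 16 (.c 0 .nil)))) (.l 4673 .nil)) (.X 0 (.c 13058 (.c 24 (.c 16 (.c 0 .nil)))) (.l 18497 .nil))) (.node (.X 0 (.c 48 (.c 12801 (.c 545490578 (.c 24 .nil)))) .nil) (.X 0 (.c 2718351634 (.c 24 (.c 16 (.c 8 .nil)))) (.l 40 .nil)))) (.node (.node (.X 0 (.c 1311027474 (.c 24 (.c 16 (.c 8 .nil)))) (.l 48 .nil)) (.X 0 (.c 2718351634 (.c 40 (.c 16 (.c 8 .nil)))) (.l 24 .nil))) (.node (.X 0 (.c 18433 (.c 1350544522 (.c 32 (.c 8 .nil)))) .nil) (.X 0 (.c 12801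 (.c 32 (.c 4738 (.c 8 .nil)))) (.b 48 .nil))))))))

noncomputable def c2_463 : Tr := (.node (.node (.node (.node (.node (.node (.X 0 (.c 48 (.c 12994 (.c 8193 (.c 2113 .nil)))) .nil) (.X 0 (.c 48 (.c 12865 (.c 8386 (.c 2049 .nil)))) .nil)) (.node (.X 0 (.c 48 (.c 12994 (.c 8257 (.c 2049 .nil)))) .nil) (.X 0 (.c 48 (.c 13058 (.c 4609 (.c 2113 .nil)))) .nil))) (.node (.node (.X 0 (.c 48 (.c 12930 (.c 8257 (.c 4609 .nil)))) .nil) (.X 0 (.c 2737260306 (.c 40 (.c 24 (.c 2049 .nil)))) .nil)) (.node (.X 0 (.c 2737260306 (.c 40 (.c 4609 (.c 16 .nil)))) .nil) (.X 0 (.c 2737260306 (.c 12801 (.c 24 (.c 16 .nil)))) .nil)))) (.node (.node (.node (.X 0 (.c 48 (.c 12865 (.c 8322 (.c 4609 .nil)))) .nil) (.X 0 (.c 48 (.c 12865 (.c 8193 (.c 4738 .nil)))) .nil)) (.node (.X 0 (.c 18754 (.c 32 (.c 24 (.c 513 .nil)))) (.l 16 .nil)) (.X 0 (.c 2737260370 (.c 32 (.c 24 (.c 2049 .nil)))) .nil))) (.node (.node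 (.X 0 (.c 40 (.c 8194 (.c 24 (.c 16 .nil)))) (.l 18497 .nil)) (.X 0 (.c 48 (.c 8194 (.c 24 (.c 16 .nil)))) (.l 12865 .nil))) (.node (.X 0 (.c 18433 (.c 40 (.c 8322 (.c 8 .nil)))) (.l 24 .nil)) (.X 0 (.c 48 (.c 12802 (.c 24 (.c 16 .nil)))) (.l 8257 .nil)))))) (.node (.node (.node (.node (.X 0 (.c 18562 (.c 40 (.c 32 (.c 4609 .nil)))) (.l 8 .nil)) (.X 0 (.c 18626 (.c 40 (.c 32 (.c 2049 .nil)))) (.l 8 .nil))) (.node (.X 0 (.c 18497 (.c 12801 (.c 8322 (.c 24 .nil)))) .nil) (.X 0 (.c 18497 (.c 40 (.c 8386 (.c 2049 .nil)))) .nil))) (.node (.node (.X 0 (.c 48 (.c 1311027410 (.c 32 (.c 2113 .nil)))) .nil) (.X 0 (.c 12801 (.c 32 (.c 4674 (.c 16 .nil)))) (.b 48 .nil))) (.node (.X 0 (.c 12801 (.c 8258 (.c 24 (.c 16 .nil)))) (.b 48 .nil)) (.X 0 (.c 18562 (.c 12801 (.c 32 (.c 24 .nil)))) (.l 8 .nil))))) (.node (.node (.node (.X 0 (.c 18690 (.c 40 (.c 8 (.c 0 .nil)))) (.l 4737 .nil)) (.X 0 (.c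 48 (.c 13058 (.c 24 (.c 513 .nil)))) (.l 16 .nil))) (.node (.X 0 (.c 48 (.c 12801 (.c 8386 (.c 16 .nil)))) (.l 8 .nil)) (.X 0 (.c 48 (.c 8386 (.c 16 (.c 0 .nil)))) (.l 12865 .nil)))) (.node (.node (.X 0 (.c 18690 (.c 12801 (.c 24 (.c 16 .nil)))) (.l 8 .nil)) (.X 0 (.c 13058 (.c 24 (.c 8 (.c 0 .nil)))) (.l 18561 .nil))) (.node (.X 0 (.c 18626 (.c 40 (.c 8193 (.c 16 .nil)))) (.l 8 .nil)) (.X 0 (.c 12994 (.c 32 (.c 8 (.c 0 .nil)))) (.l 18561 .nil))))))) (.node (.node (.node (.node (.node (.X 0 (.c 2756085770 (.c 40 (.c 32 (.c 24 .nil)))) (.l 8 .nil)) (.X 0 (.c 48 (.c 12994 (.c 8193 (.c 16 .nil)))) (.l 8 .nil))) (.node (.X 0 (.c 18754 (.c 32 (.c 8 (.c 0 .nil)))) (.l 4737 .nil)) (.X 0 (.c 35735442 (.c 40 (.c 8193 (.c 24 .nil)))) .nil))) (.node (.node (.X 0 (.c 18562 (.c 12801 (.c 32 (.c 4673 .nil)))) .nil) (.X 0 (.c 48 (.c 35735378 (.c 8193 (.c 24 .nil)))) .nil)) (.node (.X 0 (.c 48 (.c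 32 (.c 4610 (.c 16 .nil)))) (.l 12865 .nil)) (.X 0 (.c 18562 (.c 40 (.c 8193 (.c 24 .nil)))) (.l 8 .nil))))) (.node (.node (.node (.X 0 (.c 48 (.c 40 (.c 8194 (.c 16 .nil)))) (.l 4673 .nil)) (.X 0 (.c 48 (.c 40 (.c 8194 (.c 24 .nil)))) (.l 2113 .nil))) (.node (.X 0 (.c 18754 (.c 32 (.c 4609 (.c 8 .nil)))) (.l 16 .nil)) (.X 0 (.c 18690 (.c 40 (.c 4609 (.c 8 .nil)))) (.l 16 .nil)))) (.node (.node (.X 0 (.c 18626 (.c 12801 (.c 32 (.c 8 .nil)))) (.l 16 .nil)) (.X 0 (.c 40 (.c 32 (.c 4610 (.c 16 .nil)))) (.l 18497 .nil))) (.node (.X 0 (.c 48 (.c 12930 (.c 32 (.c 4609 .nil)))) (.l 8 .nil)) (.X 0 (.c 48 (.c 12930 (.c 8193 (.c 24 .nil)))) (.l 8 .nil)))))) (.node (.node (.node (.node (.X 0 (.c 48 (.c 12994 (.c 32 (.c 2049 .nil)))) (.l 8 .nil)) (.X 0 (.c 18497 (.c 12994 (.c 8193 (.c 16 .nil)))) .nil)) (.node (.X 0 (.c 18433 (.c 40 (.c 8385 (.c 2114 .nil)))) .nil) (.X 0 (.c 48 (.c 40 (.c 8193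 (.c 174732946 .nil)))) .nil))) (.node (.node (.X 0 (.c 48 (.c 12994 (.c 8321 (.c 513 .nil)))) .nil) (.X 0 (.c 48 (.c 12994 (.c 8193 (.c 8 .nil)))) (.l 16 .nil))) (.node (.X 0 (.c 12801 (.c 32 (.c 24 (.c 2114 .nil)))) (.b 48 .nil)) (.X 0 (.c 48 (.c 13058 (.c 16 (.c 513 .nil)))) (.l 24 .nil))))) (.node (.node (.node (.X 0 (.c 12801 (.c 32 (.c 4738 (.c 8 .nil)))) (.l 48 .nil)) (.X 0 (.c 12801 (.c 8322 (.c 24 (.c 8 .nil)))) (.l 48 .nil))) (.node (.X 0 (.c 18690 (.c 12801 (.c 24 (.c 8 .nil)))) (.l 16 .nil)) (.X 0 (.c 18626 (.c 40 (.c 8193 (.c 8 .nil)))) (.l 16 .nil)))) (.node (.node (.X 0 (.c 18690 (.c 40 (.c 16 (.c 513 .nil)))) (.l 24 .nil)) (.X 0 (.c 13058 (.c 16 (.c 8 (.c 0 .nil)))) (.l 18625 .nil))) (.node (.X 0 (.c 18434 (.c 32 (.c 24 (.c 8 .nil)))) (.l 12929 .nil)) (.X 0 (.c 48 (.c 174733138 (.c 32 (.c 2049 .nil)))) .nil)))))))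

noncomputable def c2_464 : Tr := (.node (.node (.node (.node (.node (.node (.X 0 (.c 48 (.c 35735378 (.c 32 (.c 4609 .nil)))) .nil) (.X 0 (.c 18434 (.c 40 (.c 32 (.c 8 .nil)))) (.l 4737 .nil))) (.node (.X 0 (.c 18434 (.c 40 (.c 24 (.c 8 .nil)))) (.l 8321 .nil)) (.X 0 (.c 12802 (.c 32 (.c 24 (.c 8 .nil)))) (.l 18561 .nil)))) (.node (.node (.X 0 (.c 18690 (.c 12801 (.c 16 (.c 8 .nil)))) (.l 24 .nil)) (.X 0 (.c 48 (.c 1311027410 (.c 32 (.c 16 .nil)))) (.l 8 .nil))) (.node (.X 0 (.c 48 (.c 40 (.c 8386 (.c 513 .nil)))) (.l 16 .nil)) (.X 0 (.c 48 (.c 40 (.c 8193 (.c 4738 .nil)))) (.l 8 .nil))))) (.node (.node (.node (.X 0 (.c 48 (.c 40 (.c 8386 (.c 2049 .nil)))) (.l 8 .nil)) (.X 0 (.c 48 (.c 40 (.c 8322 (.c 4609 .nil)))) (.l 8 .nil))) (.node (.X 0 (.c 12801 (.c 8386 (.c 16 (.c 8 .nil)))) (.l 48 .nil)) (.X 0 (.c 1311027346 (.c 32 (.c 24 (.c 8 .nil)))) (.l 48 .nil)))) (.node (.node (.X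 0 (.c 2718351506 (.c 40 (.c 32 (.c 8 .nil)))) (.l 24 .nil)) (.X 0 (.c 18561 (.c 40 (.c 8386 (.c 513 .nil)))) .nil)) (.node (.X 0 (.c 48 (.c 12994 (.c 8 (.c 0 .nil)))) (.l 8321 .nil)) (.X 0 (.c 18498 (.c 40 (.c 32 (.c 4609 .nil)))) (.l 16 .nil)))))) (.node (.node (.node (.node (.X 0 (.c 18498 (.c 40 (.c 32 (.c 2049 .nil)))) (.l 24 .nil)) (.X 0 (.c 48 (.c 8386 (.c 8 (.c 0 .nil)))) (.l 12929 .nil))) (.node (.X 0 (.c 48 (.c 13058 (.c 8 (.c 0 .nil)))) (.l 4737 .nil)) (.X 0 (.c 18626 (.c 40 (.c 8257 (.c 2049 .nil)))) .nil))) (.node (.node (.X 0 (.c 48 (.c 179551570 (.c 32 (.c 513 .nil)))) .nil) (.X 0 (.c 18626 (.c 40 (.c 8193 (.c 2113 .nil)))) .nil)) (.node (.X 0 (.c 18562 (.c 40 (.c 8193 (.c 4673 .nil)))) .nil) (.X 0 (.c 18690 (.c 40 (.c 4609 (.c 2113 .nil)))) .nil)))) (.node (.node (.node (.X 0 (.c 18562 (.c 40 (.c 8257 (.c 4609 .nil)))) .nil) (.X 0 (.c 18498 (.c 12801 (.c 32 (.c 24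 .nil)))) (.l 16 .nil))) (.node (.X 0 (.c 18562 (.c 8193 (.c 24 (.c 8 .nil)))) (.l 40 .nil)) (.X 0 (.c 18562 (.c 40 (.c 4609 (.c 8 .nil)))) (.l 32 .nil)))) (.node (.node (.X 0 (.c 18626 (.c 40 (.c 2049 (.c 8 .nil)))) (.l 32 .nil)) (.X 0 (.c 48 (.c 40 (.c 179551506 (.c 513 .nil)))) .nil)) (.node (.X 0 (.c 18561 (.c 13058 (.c 24 (.c 513 .nil)))) .nil) (.X 0 (.c 48 (.c 12930 (.c 4609 (.c 8 .nil)))) (.l 32 .nil))))))) (.node (.node (.node (.node (.node (.X 0 (.c 48 (.c 12994 (.c 2049 (.c 8 .nil)))) (.l 32 .nil)) (.X 0 (.c 12802 (.c 32 (.c 16 (.c 8 .nil)))) (.l 18625 .nil))) (.node (.X 0 (.c 18562 (.c 40 (.c 8193 (.c 8 .nil)))) (.l 24 .nil)) (.X 0 (.c 48 (.c 12801 (.c 8322 (.c 8 .nil)))) (.l 24 .nil)))) (.node (.node (.X 0 (.c 18434 (.c 32 (.c 16 (.c 8 .nil)))) (.l 12993 .nil)) (.X 0 (.c 18434 (.c 40 (.c 16 (.c 8 .nil)))) (.l 8385 .nil))) (.node (.X 0 (.c 48 (.c 12930 (.c 8193 (.c 8 .nil))))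 (.l 24 .nil)) (.X 0 (.c 48 (.c 12866 (.c 8193 (.c 24 .nil)))) (.l 16 .nil))))) (.node (.node (.node (.X 0 (.c 48 (.c 12866 (.c 32 (.c 4609 .nil)))) (.l 16 .nil)) (.X 0 (.c 48 (.c 244148848929896074 (.c 32 (.c 16 .nil)))) .nil)) (.node (.X 0 (.c 18626 (.c 12801 (.c 16 (.c 8 .nil)))) (.l 32 .nil)) (.X 0 (.c 48 (.c 14025204674709064330 (.c 32 (.c 24 .nil)))) .nil))) (.node (.node (.X 0 (.c 48 (.c 2379904940409058954 (.c 24 (.c 16 .nil)))) .nil) (.X 0 (.c 18498 (.c 40 (.c 8193 (.c 24 .nil)))) (.l 16 .nil))) (.node (.X 0 (.c 48 (.c 12930 (.c 32 (.c 513 .nil)))) (.l 24 .nil)) (.X 0 (.c 18562 (.c 32 (.c 4609 (.c 8 .nil)))) (.l 40 .nil)))))) (.node (.node (.node (.node (.X 0 (.c 18626 (.c 8193 (.c 16 (.c 8 .nil)))) (.l 40 .nil)) (.X 0 (.c 18626 (.c 32 (.c 2049 (.c 8 .nil)))) (.l 40 .nil))) (.node (.X 0 (.c 2756234514 (.c 40 (.c 24 (.c 513 .nil)))) .nil) (.X 0 (.c 18498 (.c 8193 (.c 24 (.c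 16 .nil)))) (.l 40 .nil)))) (.node (.node (.X 0 (.c 18498 (.c 40 (.c 8193 (.c 16 .nil)))) (.l 24 .nil)) (.X 0 (.c 12930 (.c 32 (.c 8 (.c 0 .nil)))) (.l 18625 .nil))) (.node (.X 0 (.c 48 (.c 12866 (.c 8193 (.c 16 .nil)))) (.l 24 .nil)) (.X 0 (.c 48 (.c 12801 (.c 8258 (.c 16 .nil)))) (.l 24 .nil))))) (.node (.node (.node (.X 0 (.c 48 (.c 12866 (.c 24 (.c 2049 .nil)))) (.l 32 .nil)) (.X 0 (.c 48 (.c 12866 (.c 4609 (.c 16 .nil)))) (.l 32 .nil))) (.node (.X 0 (.c 18754 (.c 8257 (.c 24 (.c 2049 .nil)))) .nil) (.X 0 (.c 18754 (.c 8257 (.c 4609 (.c 16 .nil)))) .nil))) (.node (.node (.X 0 (.c 18754 (.c 8193 (.c 4673 (.c 16 .nil)))) .nil) (.X 0 (.c 2737112265 (.c 12802 (.c 32 (.c 16 .nil)))) .nil)) (.node (.X 0 (.c 174695817 (.c 12802 (.c 32 (.c 16 .nil)))) .nil) (.X 0 (.c 545424777 (.c 12802 (.c 24 (.c 16 .nil)))) .nil)))))))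

noncomputable def c2_465 : Tr := (.node (.node (.node (.node (.node (.node (.X 0 (.c 545424777 (.c 40 (.c 4610 (.c 16 .nil)))) .nil) (.X 0 (.c 40 (.c 8258 (.c 24 (.c 2049 .nil)))) (.l 48 .nil))) (.node (.X 0 (.c 40 (.c 8258 (.c 4609 (.c 16 .nil)))) (.l 48 .nil)) (.X 0 (.c 2737112393 (.c 8194 (.c 24 (.c 16 .nil)))) .nil))) (.node (.node (.X 0 (.c 35718537 (.c 12802 (.c 32 (.c 24 .nil)))) .nil) (.X 0 (.c 12930 (.c 8193 (.c 24 (.c 8 .nil)))) (.l 48 .nil))) (.node (.X 0 (.c 48 (.c 40 (.c 8258 (.c 4609 .nil)))) (.l 16 .nil)) (.X 0 (.c 48 (.c 12801 (.c 32 (.c 4674 .nil)))) (.l 16 .nil))))) (.node (.node (.node (.X 0 (.c 48 (.c 40 (.c 8193 (.c 4674 .nil)))) (.l 16 .nil)) (.X 0 (.c 48 (.c 12802 (.c 32 (.c 8 .nil)))) (.l 4737 .nil))) (.node (.X 0 (.c 48 (.c 8194 (.c 24 (.c 8 .nil)))) (.l 12929 .nil)) (.X 0 (.c 48 (.c 40 (.c 8193 (.c 179513418 .nil)))) .nil))) (.node (.node (.X 0 (.c 18434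 (.c 24 (.c 16 (.c 8 .nil)))) (.l 13057 .nil)) (.X 0 (.c 48 (.c 12802 (.c 24 (.c 8 .nil)))) (.l 8321 .nil))) (.node (.X 0 (.c 40 (.c 8194 (.c 24 (.c 8 .nil)))) (.l 18561 .nil)) (.X 0 (.c 48 (.c 8193 (.c 4738 (.c 8 .nil)))) (.l 40 .nil)))))) (.node (.node (.node (.node (.X 0 (.c 48 (.c 8322 (.c 4609 (.c 8 .nil)))) (.l 40 .nil)) (.X 0 (.c 48 (.c 8386 (.c 2049 (.c 8 .nil)))) (.l 40 .nil))) (.node (.X 0 (.c 40 (.c 8193 (.c 4738 (.c 8 .nil)))) (.l 48 .nil)) (.X 0 (.c 12994 (.c 8193 (.c 16 (.c 8 .nil)))) (.l 48 .nil)))) (.node (.node (.X 0 (.c 12866 (.c 8193 (.c 24 (.c 16 .nil)))) (.l 48 .nil)) (.X 0 (.c 18690 (.c 40 (.c 4737 (.c 513 .nil)))) .nil)) (.node (.X 0 (.c 18562 (.c 24 (.c 8 (.c 0 .nil)))) (.l 13057 .nil)) (.X 0 (.c 40 (.c 32 (.c 4674 (.c 2049 .nil)))) (.l 48 .nil))))) (.node (.node (.node (.X 0 (.c 40 (.c 32 (.c 4609 (.c 2114 .nil)))) (.l 48 .nil)) (.X 0 (.c 48 (.c 8193 (.c 4674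 (.c 16 .nil)))) (.l 40 .nil))) (.node (.X 0 (.c 40 (.c 8193 (.c 4674 (.c 16 .nil)))) (.l 48 .nil)) (.X 0 (.c 48 (.c 8258 (.c 4609 (.c 16 .nil)))) (.l 40 .nil)))) (.node (.node (.X 0 (.c 2756234578 (.c 8193 (.c 24 (.c 8 .nil)))) .nil) (.X 0 (.c 48 (.c 8258 (.c 24 (.c 2049 .nil)))) (.l 40 .nil))) (.node (.X 0 (.c 48 (.c 12930 (.c 8 (.c 0 .nil)))) (.l 8385 .nil)) (.X 0 (.c 48 (.c 8322 (.c 8 (.c 0 .nil)))) (.l 12993 .nil))))))) (.node (.node (.node (.node (.node (.X 0 (.c 48 (.c 40 (.c 8194 (.c 8 .nil)))) (.l 4737 .nil)) (.X 0 (.c 40 (.c 32 (.c 4610 (.c 8 .nil)))) (.l 18561 .nil))) (.node (.X 0 (.c 18626 (.c 16 (.c 8 (.c 0 .nil)))) (.l 13057 .nil)) (.X 0 (.c 2379905503287396370 (.c 24 (.c 16 (.c 0 .nil)))) .nil))) (.node (.node (.X 0 (.c 48 (.c 8194 (.c 16 (.c 8 .nil)))) (.l 12993 .nil)) (.X 0 (.c 59934271234407332882 (.c 24 (.c 16 (.c 0 .nil)))) .nil)) (.node (.X 0 (.c 14025210108676163538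 (.c 24 (.c 16 (.c 0 .nil)))) .nil) (.X 0 (.c 59934268431604340242 (.c 32 (.c 16 (.c 0 .nil)))) .nil)))) (.node (.node (.node (.X 0 (.c 48 (.c 12802 (.c 16 (.c 8 .nil)))) (.l 8385 .nil)) (.X 0 (.c 59934265628801413138 (.c 32 (.c 24 (.c 0 .nil)))) .nil)) (.node (.X 0 (.c 40 (.c 8194 (.c 16 (.c 8 .nil)))) (.l 18625 .nil)) (.X 0 (.c 18497 (.c 40 (.c 32 (.c 179513354 .nil)))) .nil))) (.node (.node (.X 0 (.c 2775274322 (.c 32 (.c 16 (.c 513 .nil)))) .nil) (.X 0 (.c 48 (.c 12801 (.c 24 (.c 2114 .nil)))) (.l 32 .nil))) (.node (.X 0 (.c 48 (.c 12801 (.c 32 (.c 2114 .nil)))) (.l 24 .nil)) (.X 0 (.c 40 (.c 8193 (.c 24 (.c 2114 .nil)))) (.l 48 .nil)))))) (.node (.node (.node (.node (.X 0 (.c 40 (.c 32 (.c 4738 (.c 513 .nil)))) (.l 48 .nil)) (.X 0 (.c 48 (.c 8193 (.c 24 (.c 2114 .nil)))) (.l 40 .nil))) (.node (.X 0 (.c 48 (.c 40 (.c 8193 (.c 2114 .nil)))) (.l 24 .nil)) (.X 0 (.c 12866 (.c 32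 (.c 4609 (.c 16 .nil)))) (.l 48 .nil)))) (.node (.node (.X 0 (.c 12866 (.c 32 (.c 24 (.c 2049 .nil)))) (.l 48 .nil)) (.X 0 (.c 48 (.c 553979218 (.c 24 (.c 513 .nil)))) .nil)) (.node (.X 0 (.c 18626 (.c 12865 (.c 8193 (.c 16 .nil)))) .nil) (.X 0 (.c 18497 (.c 1337272330 (.c 32 (.c 24 .nil)))) .nil)))) (.node (.node (.node (.X 0 (.c 48 (.c 12929 (.c 8193 (.c 4674 .nil)))) .nil) (.X 0 (.c 545490834 (.c 40 (.c 4609 (.c 16 .nil)))) .nil)) (.node (.X 0 (.c 48 (.c 179551570 (.c 8193 (.c 8 .nil)))) .nil) (.X 0 (.c 553979282 (.c 40 (.c 24 (.c 513 .nil)))) .nil))) (.node (.node (.X 0 (.c 18690 (.c 12929 (.c 24 (.c 513 .nil)))) .nil) (.X 0 (.c 18434 (.c 545424713 (.c 24 (.c 16 .nil)))) .nil)) (.node (.X 0 (.c 18434 (.c 35718473 (.c 32 (.c 24 .nil)))) .nil) (.X 0 (.c 48 (.c 1311027282 (.c 32 (.c 4737 .nil)))) .nil)))))))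

noncomputable def c2_466 : Tr := (.node (.node (.node (.node (.node (.node (.X 0 (.c 48 (.c 1311027282 (.c 8321 (.c 24 .nil)))) .nil) (.X 0 (.c 48 (.c 12930 (.c 8385 (.c 513 .nil)))) .nil)) (.node (.X 0 (.c 48 (.c 1337376018 (.c 24 (.c 513 .nil)))) .nil) (.X 0 (.c 48 (.c 40 (.c 562465930 (.c 513 .nil)))) .nil))) (.node (.node (.X 0 (.c 48 (.c 12802 (.c 35718409 (.c 24 .nil)))) .nil) (.X 0 (.c 48 (.c 12802 (.c 32 (.c 174695561 .nil)))) .nil)) (.node (.X 0 (.c 48 (.c 12802 (.c 545424585 (.c 16 .nil)))) .nil) (.X 0 (.c 48 (.c 12802 (.c 174695689 (.c 16 .nil)))) .nil)))) (.node (.node (.node (.X 0 (.c 2756085834 (.c 40 (.c 32 (.c 4609 .nil)))) .nil) (.X 0 (.c 48 (.c 1337375954 (.c 32 (.c 513 .nil)))) .nil)) (.node (.X 0 (.c 2775125066 (.c 40 (.c 32 (.c 2049 .nil)))) .nil) (.X 0 (.c 48 (.c 4738 (.c 8 (.c 0 .nil)))) (.l 13057 .nil)))) (.node (.node (.X 0 (.c 18561 (.c 40 (.c 32 (.c 174695434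 .nil)))) .nil) (.X 0 (.c 40 (.c 4738 (.c 8 (.c 0 .nil)))) (.l 18689 .nil))) (.node (.X 0 (.c 18625 (.c 40 (.c 32 (.c 35718154 .nil)))) .nil) (.X 0 (.c 18434 (.c 40 (.c 545424521 (.c 24 .nil)))) .nil))))) (.node (.node (.node (.node (.X 0 (.c 40 (.c 4610 (.c 16 (.c 8 .nil)))) (.l 18689 .nil)) (.X 0 (.c 2756085834 (.c 40 (.c 8193 (.c 24 .nil)))) .nil)) (.node (.X 0 (.c 32 (.c 4610 (.c 16 (.c 8 .nil)))) (.l 18753 .nil)) (.X 0 (.c 48 (.c 4610 (.c 16 (.c 8 .nil)))) (.l 13057 .nil)))) (.node (.node (.X 0 (.c 18561 (.c 12866 (.c 32 (.c 4609 .nil)))) .nil) (.X 0 (.c 18561 (.c 40 (.c 8193 (.c 4674 .nil)))) .nil)) (.node (.X 0 (.c 18561 (.c 12801 (.c 8258 (.c 24 .nil)))) .nil) (.X 0 (.c 10206511369111506 (.c 40 (.c 24 (.c 0 .nil)))) .nil)))) (.node (.node (.node (.X 0 (.c 14025210108676163474 (.c 32 (.c 16 (.c 0 .nil)))) .nil) (.X 0 (.c 244149029215946706 (.c 40 (.c 16 (.c 0 .nil)))) .nil))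 (.node (.X 0 (.c 59934268431604340178 (.c 40 (.c 16 (.c 0 .nil)))) .nil) (.X 0 (.c 40 (.c 24 (.c 2050 (.c 8 .nil)))) (.l 18689 .nil)))) (.node (.node (.X 0 (.c 48 (.c 24 (.c 2050 (.c 8 .nil)))) (.l 13057 .nil)) (.X 0 (.c 32 (.c 24 (.c 2050 (.c 8 .nil)))) (.l 18753 .nil))) (.node (.X 0 (.c 40 (.c 32 (.c 2050 (.c 8 .nil)))) (.l 18625 .nil)) (.X 0 (.c 18561 (.c 40 (.c 8194 (.c 24 .nil)))) (.l 8 .nil))))))) (.node (.node (.node (.node (.node (.X 0 (.c 18561 (.c 12802 (.c 32 (.c 24 .nil)))) (.l 8 .nil)) (.X 0 (.c 48 (.c 12929 (.c 32 (.c 174695434 .nil)))) .nil)) (.node (.X 0 (.c 48 (.c 40 (.c 32 (.c 174695434 .nil)))) (.l 16 .nil)) (.X 0 (.c 2775125002 (.c 40 (.c 32 (.c 16 .nil)))) (.l 8 .nil)))) (.node (.node (.X 0 (.c 2737260370 (.c 24 (.c 16 (.c 0 .nil)))) (.l 32 .nil)) (.X 0 (.c 18497 (.c 12802 (.c 32 (.c 24 .nil)))) (.l 16 .nil))) (.node (.X 0 (.c 48 (.c 244148313662402578 (.c 32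 (.c 0 .nil)))) .nil) (.X 0 (.c 2737260306 (.c 40 (.c 24 (.c 0 .nil)))) (.l 16 .nil))))) (.node (.node (.node (.X 0 (.c 2737260306 (.c 40 (.c 16 (.c 0 .nil)))) (.l 24 .nil)) (.X 0 (.c 18497 (.c 40 (.c 8194 (.c 16 .nil)))) (.l 24 .nil))) (.node (.X 0 (.c 174695817 (.c 12930 (.c 32 (.c 0 .nil)))) .nil) (.X 0 (.c 545424777 (.c 40 (.c 4738 (.c 0 .nil)))) .nil))) (.node (.node (.X 0 (.c 1324066185 (.c 8322 (.c 24 (.c 0 .nil)))) .nil) (.X 0 (.c 2737112329 (.c 12930 (.c 24 (.c 0 .nil)))) .nil)) (.node (.X 0 (.c 18497 (.c 12802 (.c 24 (.c 16 .nil)))) (.l 32 .nil)) (.X 0 (.c 2775125002 (.c 40 (.c 32 (.c 2113 .nil)))) .nil))))) (.node (.node (.node (.node (.X 0 (.c 48 (.c 1324065993 (.c 8322 (.c 0 .nil)))) .nil) (.X 0 (.c 18497 (.c 12802 (.c 32 (.c 4737 .nil)))) .nil)) (.node (.X 0 (.c 48 (.c 13058 (.c 35718345 (.c 0 .nil)))) .nil) (.X 0 (.c 18497 (.c 12802 (.c 8321 (.c 24 .nil)))) .nil)))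 (.node (.node (.X 0 (.c 48 (.c 12994 (.c 35718409 (.c 0 .nil)))) .nil) (.X 0 (.c 48 (.c 12930 (.c 174695689 (.c 0 .nil)))) .nil)) (.node (.X 0 (.c 48 (.c 35718473 (.c 8386 (.c 0 .nil)))) .nil) (.X 0 (.c 2775125002 (.c 40 (.c 32 (.c 8 .nil)))) (.l 16 .nil))))) (.node (.node (.node (.X 0 (.c 48 (.c 14306382363373563530 (.c 32 (.c 8 .nil)))) .nil) (.X 0 (.c 48 (.c 257801270351607434 (.c 32 (.c 8 .nil)))) .nil)) (.node (.X 0 (.c 18497 (.c 8194 (.c 24 (.c 16 .nil)))) (.l 40 .nil)) (.X 0 (.c 174733202 (.c 40 (.c 32 (.c 0 .nil)))) (.l 16 .nil)))) (.node (.node (.X 0 (.c 18497 (.c 12994 (.c 32 (.c 0 .nil)))) (.l 16 .nil)) (.X 0 (.c 18561 (.c 12865 (.c 32 (.c 4610 .nil)))) .nil)) (.node (.X 0 (.c 244148850327462482 (.c 32 (.c 16 (.c 0 .nil)))) .nil) (.X 0 (.c 18561 (.c 12802 (.c 32 (.c 4673 .nil)))) .nil)))))))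

noncomputable def c2_467 : Tr := (.node (.node (.node (.node (.node (.node (.X 0 (.c 18434 (.c 12865 (.c 8321 (.c 24 .nil)))) .nil) (.X 0 (.c 18434 (.c 12865 (.c 32 (.c 4737 .nil)))) .nil)) (.node (.X 0 (.c 48 (.c 40 (.c 2454552647364603530 (.c 8 .nil)))) .nil) (.X 0 (.c 18562 (.c 40 (.c 545424585 (.c 0 .nil)))) .nil))) (.node (.node (.X 0 (.c 18626 (.c 40 (.c 35718409 (.c 0 .nil)))) .nil) (.X 0 (.c 2737260306 (.c 40 (.c 4737 (.c 0 .nil)))) .nil)) (.node (.X 0 (.c 2756085834 (.c 40 (.c 24 (.c 0 .nil)))) (.l 32 .nil)) (.X 0 (.c 2756085834 (.c 32 (.c 24 (.c 0 .nil)))) (.l 40 .nil))))) (.node (.node (.node (.X 0 (.c 18625 (.c 40 (.c 8194 (.c 16 .nil)))) (.l 8 .nil)) (.X 0 (.c 18625 (.c 12802 (.c 32 (.c 16 .nil)))) (.l 8 .nil))) (.node (.X 0 (.c 48 (.c 244148671439043602 (.c 16 (.c 0 .nil)))) .nil) (.X 0 (.c 18497 (.c 8322 (.c 24 (.c 0 .nil)))) (.l 40 .nil)))) (.node (.node (.X 0 (.c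 60768084239834527370 (.c 32 (.c 24 (.c 8 .nil)))) .nil) (.X 0 (.c 18561 (.c 40 (.c 174733074 (.c 0 .nil)))) .nil)) (.node (.X 0 (.c 2756234450 (.c 40 (.c 8257 (.c 0 .nil)))) .nil) (.X 0 (.c 48 (.c 12865 (.c 553979090 (.c 0 .nil)))) .nil))))) (.node (.node (.node (.node (.X 0 (.c 18625 (.c 1337272330 (.c 32 (.c 8 .nil)))) .nil) (.X 0 (.c 2718454306 (.c 32 (.c 24 (.c 16 .nil)))) .nil)) (.node (.X 0 (.c 2718418466 (.c 40 (.c 16 (.c 8 .nil)))) .nil) (.X 0 (.c 2718388770 (.c 40 (.c 32 (.c 16 .nil)))) .nil))) (.node (.node (.X 0 (.c 2718454818 (.c 32 (.c 24 (.c 8 .nil)))) .nil) (.X 0 (.c 18433 (.c 1350752418 (.c 32 (.c 8 .nil)))) .nil)) (.node (.X 0 (.c 48 (.c 1311093282 (.c 24 (.c 16 .nil)))) .nil) (.X 0 (.c 59940751862425709090 (.c 40 (.c 24 (.c 16 .nil)))) .nil)))) (.node (.node (.node (.X 0 (.c 60768072995003804450 (.c 40 (.c 32 (.c 24 .nil)))) .nil) (.X 0 (.c 48 (.c 1311094306 (.c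 16 (.c 8 .nil)))) .nil)) (.node (.X 0 (.c 48 (.c 1311093794 (.c 24 (.c 8 .nil)))) .nil) (.X 0 (.c 48 (.c 1364091042 (.c 24 (.c 513 .nil)))) .nil))) (.node (.node (.X 0 (.c 48 (.c 40 (.c 8193 (.c 179589218 .nil)))) .nil) (.X 0 (.c 48 (.c 40 (.c 562600098 (.c 513 .nil)))) .nil)) (.node (.X 0 (.c 48 (.c 12801 (.c 32 (.c 179589218 .nil)))) .nil) (.X 0 (.c 48 (.c 1364091106 (.c 16 (.c 513 .nil)))) .nil)))))) (.node (.node (.node (.node (.node (.X 0 (.c 2756382818 (.c 40 (.c 32 (.c 4609 .nil)))) .nil) (.X 0 (.c 2775423074 (.c 40 (.c 32 (.c 2049 .nil)))) .nil)) (.node (.X 0 (.c 18497 (.c 40 (.c 554045474 (.c 24 .nil)))) .nil) (.X 0 (.c 18497 (.c 1364090914 (.c 24 (.c 16 .nil)))) .nil))) (.node (.node (.X 0 (.c 2813765674 (.c 24 (.c 16 (.c 8 .nil)))) .nil) (.X 0 (.c 18433 (.c 40 (.c 8322 (.c 4674 .nil)))) .nil)) (.node (.X 0 (.c 18433 (.c 12994 (.c 8322 (.c 8 .nil)))) .nil) (.X 0 (.c 48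 (.c 12930 (.c 8258 (.c 4609 .nil)))) .nil)))) (.node (.node (.node (.X 0 (.c 48 (.c 12994 (.c 8258 (.c 2049 .nil)))) .nil) (.X 0 (.c 48 (.c 12930 (.c 8193 (.c 4674 .nil)))) .nil)) (.node (.X 0 (.c 48 (.c 12994 (.c 8322 (.c 513 .nil)))) .nil) (.X 0 (.c 18433 (.c 40 (.c 8258 (.c 4738 .nil)))) .nil))) (.node (.node (.X 0 (.c 18433 (.c 12930 (.c 8258 (.c 24 .nil)))) .nil) (.X 0 (.c 18433 (.c 12930 (.c 8386 (.c 8 .nil)))) .nil)) (.node (.X 0 (.c 2737327138 (.c 40 (.c 16 (.c 0 .nil)))) .nil) (.X 0 (.c 18433 (.c 12930 (.c 32 (.c 4674 .nil)))) .nil))))) (.node (.node (.node (.node (.X 0 (.c 48 (.c 12930 (.c 8386 (.c 513 .nil)))) .nil) (.X 0 (.c 48 (.c 12866 (.c 8193 (.c 4738 .nil)))) .nil)) (.node (.X 0 (.c 48 (.c 12866 (.c 8322 (.c 4609 .nil)))) .nil) (.X 0 (.c 48 (.c 12866 (.c 8386 (.c 2049 .nil)))) .nil))) (.node (.node (.X 0 (.c 2718351634 (.c 12866 (.c 24 (.c 16 .nil)))) .nil) (.X 0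 (.c 48 (.c 12994 (.c 8193 (.c 2114 .nil)))) .nil)) (.node (.X 0 (.c 48 (.c 12801 (.c 8386 (.c 2114 .nil)))) .nil) (.X 0 (.c 18433 (.c 12866 (.c 8386 (.c 16 .nil)))) .nil)))) (.node (.node (.node (.X 0 (.c 18497 (.c 1364091042 (.c 24 (.c 0 .nil)))) .nil) (.X 0 (.c 18562 (.c 12801 (.c 8258 (.c 24 .nil)))) .nil)) (.node (.X 0 (.c 18498 (.c 12801 (.c 8322 (.c 24 .nil)))) .nil) (.X 0 (.c 18626 (.c 12801 (.c 32 (.c 2114 .nil)))) .nil))) (.node (.node (.X 0 (.c 18562 (.c 40 (.c 8258 (.c 4609 .nil)))) .nil) (.X 0 (.c 18626 (.c 40 (.c 8258 (.c 2049 .nil)))) .nil)) (.node (.X 0 (.c 18562 (.c 40 (.c 8193 (.c 4674 .nil)))) .nil) (.X 0 (.c 18562 (.c 12866 (.c 32 (.c 4609 .nil)))) .nil)))))))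

noncomputable def c2_468 : Tr := (.node (.node (.node (.X 0 (.c 18626 (.c 12866 (.c 32 (.c 2049 .nil)))) .nil) (.X 0 (.c 18626 (.c 40 (.c 8193 (.c 2114 .nil)))) .nil)) (.node (.X 0 (.c 18498 (.c 40 (.c 8193 (.c 4738 .nil)))) .nil) (.X 0 (.c 18690 (.c 40 (.c 4738 (.c 513 .nil)))) .nil))) (.node (.node (.X 0 (.c 18497 (.c 40 (.c 8194 (.c 4738 .nil)))) .nil) (.X 0 (.c 2756085834 (.c 12802 (.c 32 (.c 24 .nil)))) .nil)) (.node (.X 0 (.c 2756085834 (.c 40 (.c 8194 (.c 24 .nil)))) .nil) (.X 0 (.c 2775125066 (.c 40 (.c 32 (.c 2050 .nil)))) .nil))))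

noncomputable def c2T : Tr := (.node (.node (.node (.node (.node (.node (.node (.node (c2_0) (.node (c2_1) (c2_2))) (.node (.node (c2_3) (c2_4)) (.node (c2_5) (c2_6)))) (.node (.node (c2_7) (.node (c2_8) (c2_9))) (.node (.node (c2_10) (c2_11)) (.node (c2_12) (c2_13))))) (.node (.node (.node (c2_14) (.node (c2_15) (c2_16))) (.node (.node (c2_17) (c2_18)) (.node (c2_19) (c2_20)))) (.node (.node (.node (c2_21) (c2_22)) (.node (c2_23) (c2_24))) (.node (.node (c2_25) (c2_26)) (.node (c2_27) (c2_28)))))) (.node (.node (.node (.node (c2_29) (.node (c2_30) (c2_31))) (.node (.node (c2_32) (c2_33)) (.node (c2_34) (c2_35)))) (.node (.node (c2_36) (.node (c2_37) (c2_38))) (.node (.node (c2_39) (c2_40)) (.node (c2_41) (c2_42))))) (.node (.node (.node (c2_43) (.node (c2_44) (c2_45))) (.node (.node (c2_46) (c2_47)) (.node (c2_48) (c2_49)))) (.node (.node (.node (c2_50) (c2_51)) (.node (c2_52)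 (c2_53))) (.node (.node (c2_54) (c2_55)) (.node (c2_56) (c2_57))))))) (.node (.node (.node (.node (.node (c2_58) (.node (c2_59) (c2_60))) (.node (.node (c2_61) (c2_62)) (.node (c2_63) (c2_64)))) (.node (.node (c2_65) (.node (c2_66) (c2_67))) (.node (.node (c2_68) (c2_69)) (.node (c2_70) (c2_71))))) (.node (.node (.node (c2_72) (.node (c2_73) (c2_74))) (.node (.node (c2_75) (c2_76)) (.node (c2_77) (c2_78)))) (.node (.node (.node (c2_79) (c2_80)) (.node (c2_81) (c2_82))) (.node (.node (c2_83) (c2_84)) (.node (c2_85) (c2_86)))))) (.node (.node (.node (.node (c2_87) (.node (c2_88) (c2_89))) (.node (.node (c2_90) (c2_91)) (.node (c2_92) (c2_93)))) (.node (.node (.node (c2_94) (c2_95)) (.node (c2_96) (c2_97))) (.node (.node (c2_98) (c2_99)) (.node (c2_100) (c2_101))))) (.node (.node (.node (c2_102) (.node (c2_103) (c2_104))) (.node (.node (c2_105) (c2_106)) (.node (c2_107) (c2_108))))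 (.node (.node (.node (c2_109) (c2_110)) (.node (c2_111) (c2_112))) (.node (.node (c2_113) (c2_114)) (.node (c2_115) (c2_116)))))))) (.node (.node (.node (.node (.node (.node (c2_117) (.node (c2_118) (c2_119))) (.node (.node (c2_120) (c2_121)) (.node (c2_122) (c2_123)))) (.node (.node (c2_124) (.node (c2_125) (c2_126))) (.node (.node (c2_127) (c2_128)) (.node (c2_129) (c2_130))))) (.node (.node (.node (c2_131) (.node (c2_132) (c2_133))) (.node (.node (c2_134) (c2_135)) (.node (c2_136) (c2_137)))) (.node (.node (.node (c2_138) (c2_139)) (.node (c2_140) (c2_141))) (.node (.node (c2_142) (c2_143)) (.node (c2_144) (c2_145)))))) (.node (.node (.node (.node (c2_146) (.node (c2_147) (c2_148))) (.node (.node (c2_149) (c2_150)) (.node (c2_151) (c2_152)))) (.node (.node (c2_153) (.node (c2_154) (c2_155))) (.node (.node (c2_156) (c2_157)) (.node (c2_158) (c2_159))))) (.node (.node (.node (c2_160)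 (.node (c2_161) (c2_162))) (.node (.node (c2_163) (c2_164)) (.node (c2_165) (c2_166)))) (.node (.node (.node (c2_167) (c2_168)) (.node (c2_169) (c2_170))) (.node (.node (c2_171) (c2_172)) (.node (c2_173) (c2_174))))))) (.node (.node (.node (.node (.node (c2_175) (.node (c2_176) (c2_177))) (.node (.node (c2_178) (c2_179)) (.node (c2_180) (c2_181)))) (.node (.node (c2_182) (.node (c2_183) (c2_184))) (.node (.node (c2_185) (c2_186)) (.node (c2_187) (c2_188))))) (.node (.node (.node (c2_189) (.node (c2_190) (c2_191))) (.node (.node (c2_192) (c2_193)) (.node (c2_194) (c2_195)))) (.node (.node (.node (c2_196) (c2_197)) (.node (c2_198) (c2_199))) (.node (.node (c2_200) (c2_201)) (.node (c2_202) (c2_203)))))) (.node (.node (.node (.node (c2_204) (.node (c2_205) (c2_206))) (.node (.node (c2_207) (c2_208)) (.node (c2_209) (c2_210)))) (.node (.node (.node (c2_211) (c2_212)) (.node (c2_213)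 (c2_214))) (.node (.node (c2_215) (c2_216)) (.node (c2_217) (c2_218))))) (.node (.node (.node (c2_219) (.node (c2_220) (c2_221))) (.node (.node (c2_222) (c2_223)) (.node (c2_224) (c2_225)))) (.node (.node (.node (c2_226) (c2_227)) (.node (c2_228) (c2_229))) (.node (.node (c2_230) (c2_231)) (.node (c2_232) (c2_233))))))))) (.node (.node (.node (.node (.node (.node (.node (c2_234) (.node (c2_235) (c2_236))) (.node (.node (c2_237) (c2_238)) (.node (c2_239) (c2_240)))) (.node (.node (c2_241) (.node (c2_242) (c2_243))) (.node (.node (c2_244) (c2_245)) (.node (c2_246) (c2_247))))) (.node (.node (.node (c2_248) (.node (c2_249) (c2_250))) (.node (.node (c2_251) (c2_252)) (.node (c2_253) (c2_254)))) (.node (.node (.node (c2_255) (c2_256)) (.node (c2_257) (c2_258))) (.node (.node (c2_259) (c2_260)) (.node (c2_261) (c2_262)))))) (.node (.node (.node (.node (c2_263) (.node (c2_264) (c2_265)))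 (.node (.node (c2_266) (c2_267)) (.node (c2_268) (c2_269)))) (.node (.node (c2_270) (.node (c2_271) (c2_272))) (.node (.node (c2_273) (c2_274)) (.node (c2_275) (c2_276))))) (.node (.node (.node (c2_277) (.node (c2_278) (c2_279))) (.node (.node (c2_280) (c2_281)) (.node (c2_282) (c2_283)))) (.node (.node (.node (c2_284) (c2_285)) (.node (c2_286) (c2_287))) (.node (.node (c2_288) (c2_289)) (.node (c2_290) (c2_291))))))) (.node (.node (.node (.node (.node (c2_292) (.node (c2_293) (c2_294))) (.node (.node (c2_295) (c2_296)) (.node (c2_297) (c2_298)))) (.node (.node (c2_299) (.node (c2_300) (c2_301))) (.node (.node (c2_302) (c2_303)) (.node (c2_304) (c2_305))))) (.node (.node (.node (c2_306) (.node (c2_307) (c2_308))) (.node (.node (c2_309) (c2_310)) (.node (c2_311) (c2_312)))) (.node (.node (.node (c2_313) (c2_314)) (.node (c2_315) (c2_316))) (.node (.node (c2_317) (c2_318)) (.node (c2_319)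 (c2_320)))))) (.node (.node (.node (.node (c2_321) (.node (c2_322) (c2_323))) (.node (.node (c2_324) (c2_325)) (.node (c2_326) (c2_327)))) (.node (.node (.node (c2_328) (c2_329)) (.node (c2_330) (c2_331))) (.node (.node (c2_332) (c2_333)) (.node (c2_334) (c2_335))))) (.node (.node (.node (c2_336) (.node (c2_337) (c2_338))) (.node (.node (c2_339) (c2_340)) (.node (c2_341) (c2_342)))) (.node (.node (.node (c2_343) (c2_344)) (.node (c2_345) (c2_346))) (.node (.node (c2_347) (c2_348)) (.node (c2_349) (c2_350)))))))) (.node (.node (.node (.node (.node (.node (c2_351) (.node (c2_352) (c2_353))) (.node (.node (c2_354) (c2_355)) (.node (c2_356) (c2_357)))) (.node (.node (c2_358) (.node (c2_359) (c2_360))) (.node (.node (c2_361) (c2_362)) (.node (c2_363) (c2_364))))) (.node (.node (.node (c2_365) (.node (c2_366) (c2_367))) (.node (.node (c2_368) (c2_369)) (.node (c2_370) (c2_371)))) (.node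 (.node (.node (c2_372) (c2_373)) (.node (c2_374) (c2_375))) (.node (.node (c2_376) (c2_377)) (.node (c2_378) (c2_379)))))) (.node (.node (.node (.node (c2_380) (.node (c2_381) (c2_382))) (.node (.node (c2_383) (c2_384)) (.node (c2_385) (c2_386)))) (.node (.node (.node (c2_387) (c2_388)) (.node (c2_389) (c2_390))) (.node (.node (c2_391) (c2_392)) (.node (c2_393) (c2_394))))) (.node (.node (.node (c2_395) (.node (c2_396) (c2_397))) (.node (.node (c2_398) (c2_399)) (.node (c2_400) (c2_401)))) (.node (.node (.node (c2_402) (c2_403)) (.node (c2_404) (c2_405))) (.node (.node (c2_406) (c2_407)) (.node (c2_408) (c2_409))))))) (.node (.node (.node (.node (.node (c2_410) (.node (c2_411) (c2_412))) (.node (.node (c2_413) (c2_414)) (.node (c2_415) (c2_416)))) (.node (.node (c2_417) (.node (c2_418) (c2_419))) (.node (.node (c2_420) (c2_421)) (.node (c2_422) (c2_423))))) (.node (.node (.node (c2_424)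 (.node (c2_425) (c2_426))) (.node (.node (c2_427) (c2_428)) (.node (c2_429) (c2_430)))) (.node (.node (.node (c2_431) (c2_432)) (.node (c2_433) (c2_434))) (.node (.node (c2_435) (c2_436)) (.node (c2_437) (c2_438)))))) (.node (.node (.node (.node (c2_439) (.node (c2_440) (c2_441))) (.node (.node (c2_442) (c2_443)) (.node (c2_444) (c2_445)))) (.node (.node (.node (c2_446) (c2_447)) (.node (c2_448) (c2_449))) (.node (.node (c2_450) (c2_451)) (.node (c2_452) (c2_453))))) (.node (.node (.node (c2_454) (.node (c2_455) (c2_456))) (.node (.node (c2_457) (c2_458)) (.node (c2_459) (c2_460)))) (.node (.node (.node (c2_461) (c2_462)) (.node (c2_463) (c2_464))) (.node (.node (c2_465) (c2_466)) (.node (c2_467) (c2_468))))))))))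

noncomputable def c2G : TL := .p (.b (.m (.b (.x 4) (.x 5)) (.b (.b (.x 0) (.x 1)) (.b (.x 2) (.x 3)))) (.x 6)) <| .p (.b (.m (.b (.x 0) (.x 1)) (.b (.b (.x 4) (.x 5)) (.b (.x 2) (.x 3)))) (.x 6)) <| .p (.b (.m (.b (.x 2) (.x 3)) (.b (.b (.x 4) (.x 5)) (.b (.x 0) (.x 1)))) (.x 6)) <| .p (.b (.m (.b (.x 4) (.x 5)) (.b (.b (.x 0) (.x 2)) (.b (.x 1) (.x 3)))) (.x 6)) <| .p (.b (.m (.b (.x 0) (.x 2)) (.b (.b (.x 4) (.x 5)) (.b (.x 1) (.x 3)))) (.x 6)) <| .p (.b (.m (.b (.x 1) (.x 3)) (.b (.b (.x 4) (.x 5)) (.b (.x 0) (.x 2)))) (.x 6)) <| .p (.b (.m (.b (.x 4) (.x 5)) (.b (.b (.x 0) (.x 3)) (.b (.x 1) (.x 2)))) (.x 6)) <| .p (.b (.m (.b (.x 0) (.x 3)) (.b (.b (.x 4) (.x 5)) (.b (.x 1) (.x 2)))) (.x 6)) <| .p (.b (.m (.b (.x 1) (.x 2)) (.b (.b (.x 4) (.x 5)) (.b (.x 0) (.x 3)))) (.x 6)) .nil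

theorem c2C : chk hl2 c2G c2T = true := by decide +kernel

end Pool.Agent.TP.Chk2
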