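import Pool.Agent.Helper52_TP.C2Hyp

/-! Certificate c4 in characteristic 2, generated (helper52). -/

set_option autoImplicit false
set_option maxRecDepth 1000000

namespace Pool.Agent.TP.Chk2

noncomputable def c4_0 : Tr := (.node (.node (.node (.node (.node (.node (.I .jac (.c 1512103782441961079041378905002237328201 (.c 8 (.c 16 .nil))) .nil) (.I .jac (.c 27951058418068892863957554057219361972041 (.c 8 (.c 16 .nil))) .nil)) (.node (.I .jac (.c 42576974092320106643384879185736245065 (.c 8 (.c 16 .nil))) .nil) (.I .jac (.c 1911132888452975777501314320077705 (.c 8 (.c 16 .nil))) .nil))) (.node (.node (.I .jac (.c 27951055785643122968540376538297009659785 (.c 8 (.c 16 .nil))) .nil) (.I .jac (.c 42576974092320101918705356412332005321 (.c 8 (.c 16 .nil))) .nil)) (.node (.I .jac (.c 1809230235455515626080385262368713 (.c 8 (.c 16 .nil))) .nil) (.I .jac (.c 427057350195049030035896088956978121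 (.c 8 (.c 16 .nil))) .nil)))) (.node (.node (.node (.I .jac (.c 3632106110248017 (.c 8 (.c 16 .nil))) .nil) (.I .jac (.c 1512103191868961664028723725600700192777 (.c 8 (.c 16 .nil))) .nil)) (.node (.I .jac (.c 42576953795010656131941434981856024585 (.c 8 (.c 16 .nil))) .nil) (.I .jac (.c 105533754468739142964158285779977 (.c 8 (.c 16 .nil))) .nil))) (.node (.node (.I .jac (.c 1512102896582526849770380112053152562185 (.c 8 (.c 16 .nil))) .nil) (.I .jac (.c 427057350195048793444981206822395913 (.c 8 (.c 16 .nil))) .nil)) (.node (.I .jac (.c 105537558360238163450942167246857 (.c 8 (.c 16 .nil))) .nil) (.I .jac (.c 15246325749396561 (.c 8 (.c 16 .nil))) .nil))))) (.node (.node (.node (.node (.I .jac (.c 1512103782441961079041378905002237328137 (.c 8 (.c 24 .nil))) .nil) (.I .jac (.c 27951058418068892863957554057219361971977 (.c 8 (.c 24 .nil))) .nil)) (.node (.I .jac (.c 42576974092320106643384879185736245001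 (.c 8 (.c 24 .nil))) .nil) (.I .jac (.c 1859570876265504724427643779472137 (.c 8 (.c 24 .nil))) .nil))) (.node (.node (.I .jac (.c 105533754468750300593045802417929 (.c 8 (.c 24 .nil))) .nil) (.I .jac (.c 1911132888452959950435573782212489 (.c 8 (.c 24 .nil))) .nil)) (.node (.I .jac (.c 1512102601296135297671723270643481494409 (.c 8 (.c 24 .nil))) .nil) (.I .jac (.c 1911155150111259961664864764831625 (.c 8 (.c 24 .nil))) .nil)))) (.node (.node (.node (.I .jac (.c 42576974092320099556365595025629983689 (.c 8 (.c 24 .nil))) .nil) (.I .jac (.c 27951053153217538953647197609480317336521 (.c 8 (.c 24 .nil))) .nil)) (.node (.I .jac (.c 651596688508375012468186189874121 (.c 8 (.c 24 .nil))) .nil) (.I .jac (.c 2870101301550745431484650323913 (.c 8 (.c 24 .nil))) .nil))) (.node (.node (.I .jac (.c 3632084291311697 (.c 8 (.c 24 .nil))) .nil) (.I .jac (.c 1512103191868961649950570808237977416713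 (.c 8 (.c 24 .nil))) .nil)) (.node (.I .jac (.c 42576953795010653769602236682924913673 (.c 8 (.c 24 .nil))) .nil) (.I .jac (.c 105533754468735423754529113698313 (.c 8 (.c 24 .nil))) .nil)))))) (.node (.node (.node (.node (.node (.I .jac (.c 651601654921541717468315286322185 (.c 8 (.c 24 .nil))) .nil) (.I .jac (.c 2870101301550132088254642183177 (.c 8 (.c 24 .nil))) .nil)) (.node (.I .jac (.c 105536290384975911038036627826697 (.c 8 (.c 24 .nil))) .nil) (.I .jac (.c 15456208906647633 (.c 8 (.c 24 .nil))) .nil))) (.node (.node (.I .jac (.c 27951061050494848639907477563920710974153 (.c 16 (.c 24 .nil))) .nil) (.I .jac (.c 1859570876265504724427643779472073 (.c 16 (.c 24 .nil))) .nil)) (.node (.I .jac (.c 42576953795010663218959029878649750217 (.c 16 (.c 24 .nil))) .nil) (.I .jac (.c 1512103782441961036806911905286300602249 (.c 16 (.c 24 .nil))) .nil)))) (.node (.node (.node (.I .jac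 (.c 1911132888452944123369833244412809 (.c 16 (.c 24 .nil))) .nil) (.I .jac (.c 27951050520792141000852311054881784782729 (.c 16 (.c 24 .nil))) .nil)) (.node (.I .jac (.c 1712113961689580865954497792891785 (.c 16 (.c 24 .nil))) .nil) (.I .jac (.c 1512102306009786965494079912008658879369 (.c 16 (.c 24 .nil))) .nil))) (.node (.node (.I .jac (.c 42576974092320097194025833638928027593 (.c 16 (.c 24 .nil))) .nil) (.I .jac (.c 1859570876265442276026685052832713 (.c 16 (.c 24 .nil))) .nil)) (.node (.I .jac (.c 27951050520792140940324630661021757881289 (.c 16 (.c 24 .nil))) .nil) (.I .jac (.c 1712113961689565885627358955911113 (.c 16 (.c 24 .nil))) .nil))))) (.node (.node (.node (.node (.I .jac (.c 42576872605845451114770277207992337353 (.c 16 (.c 24 .nil))) .nil) (.I .jac (.c 10064237432128545199748236233 (.c 16 (.c 24 .nil))) .nil)) (.node (.I .jac (.c 2698162480891381558379040178121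 (.c 16 (.c 24 .nil))) .nil) (.I .jac (.c 3632062472440913 (.c 16 (.c 24 .nil))) .nil))) (.node (.node (.I .jac (.c 42576953795010651407263038383993868297 (.c 16 (.c 24 .nil))) .nil) (.I .jac (.c 10064237432092225236522737673 (.c 16 (.c 24 .nil))) .nil)) (.node (.I .jac (.c 2698162480890786870601550715913 (.c 16 (.c 24 .nil))) .nil) (.I .jac (.c 105535022421139207878223746525193 (.c 16 (.c 24 .nil))) .nil)))) (.node (.node (.node (.I .jac (.c 15246236343344209 (.c 16 (.c 24 .nil))) .nil) (.I .jac (.c 15456163896945745 (.c 16 (.c 24 .nil))) .nil)) (.node (.I .jac (.c 15456298926186577 (.c 16 (.c 24 .nil))) .nil) (.I .jac (.c 59109074018392946569 (.c 8 (.c 24 .nil))) (.b 16 .nil)))) (.node (.node (.I .jac (.c 59109074018392946569 (.c 8 (.c 16 .nil))) (.b 24 .nil)) (.I .jac (.c 2306972423229201353 (.c 8 (.c 16 .nil))) (.b 24 .nil))) (.node (.I .jac (.c 15246191640314249 (.c 4673 (.c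 16 .nil))) .nil) (.I .jac (.c 13748196208362034185 (.c 4673 (.c 16 .nil))) .nil)))))))

noncomputable def c4_1 : Tr := (.node (.node (.node (.node (.node (.node (.I .jac (.c 13748196208362034185 (.c 2113 (.c 24 .nil))) .nil) (.I .jac (.c 13748196208362034185 (.c 8 (.c 16 .nil))) (.b 24 .nil))) (.node (.I .jac (.c 3632040653488585 (.c 4673 (.c 16 .nil))) .nil) (.I .jac (.c 3632040653488585 (.c 8 (.c 24 .nil))) (.b 16 .nil)))) (.node (.node (.I .jac (.c 15456298926182473 (.c 4673 (.c 16 .nil))) .nil) (.I .jac (.c 15456298926182473 (.c 2113 (.c 24 .nil))) .nil)) (.node (.I .jac (.c 27951061050494848579379785769086333720329 (.c 8 (.c 32 .nil))) .nil) (.I .jac (.c 1911132888452975777501314320077577 (.c 8 (.c 32 .nil))) .nil)))) (.node (.node (.node (.I .jac (.c 27951055785643122968540376538297009659657 (.c 8 (.c 32 .nil))) .nil) (.I .jac (.c 427057993508084562470663629860471561 (.c 8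 (.c 32 .nil))) .nil)) (.node (.I .jac (.c 27951061050494848518852093974251956532041 (.c 8 (.c 32 .nil))) .nil) (.I .jac (.c 1911132888452959950435573782212425 (.c 8 (.c 32 .nil))) .nil))) (.node (.node (.I .jac (.c 651606621363126269490052522057545 (.c 8 (.c 32 .nil))) .nil) (.I .jac (.c 1512102601296135297671723270643481494345 (.c 8 (.c 32 .nil))) .nil)) (.node (.I .jac (.c 651601654921560200620872561558345 (.c 8 (.c 32 .nil))) .nil) (.I .jac (.c 97535117142658802225506092678985 (.c 8 (.c 32 .nil))) .nil))))) (.node (.node (.node (.node (.I .jac (.c 1911155150111259961664864764831561 (.c 8 (.c 32 .nil))) .nil) (.I .jac (.c 27951055785643122786957318255255806178249 (.c 8 (.c 32 .nil))) .nil)) (.node (.I .jac (.c 427058636821845956378289793772237769 (.c 8 (.c 32 .nil))) .nil) (.I .jac (.c 1809230235455484827416425822613449 (.c 8 (.c 32 .nil))) .nil))) (.node (.node (.I .jac (.c 651606621363107786267057026226121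 (.c 8 (.c 32 .nil))) .nil) (.I .jac (.c 1760086083483798984267018994226121 (.c 8 (.c 32 .nil))) .nil)) (.node (.I .jac (.c 427056063571158386490489209096946633 (.c 8 (.c 32 .nil))) .nil) (.I .jac (.c 31637737730463973030333874121 (.c 8 (.c 32 .nil))) .nil)))) (.node (.node (.node (.I .jac (.c 427057993508083616106291307304383497 (.c 8 (.c 32 .nil))) .nil) (.I .jac (.c 101465489572716653961425451675657 (.c 8 (.c 32 .nil))) .nil)) (.node (.I .jac (.c 1512102601296135255437272766182275864585 (.c 8 (.c 32 .nil))) .nil) (.I .jac (.c 651601654921532475892036648802313 (.c 8 (.c 32 .nil))) .nil))) (.node (.node (.I .jac (.c 31637737730399577210905877513 (.c 8 (.c 32 .nil))) .nil) (.I .jac (.c 101467951811503808354312734910473 (.c 8 (.c 32 .nil))) .nil)) (.node (.I .jac (.c 1512103782441961064963223238430258353865 (.c 16 (.c 32 .nil))) .nil) (.I .jac (.c 1911132888452975777501314320077513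 (.c 16 (.c 32 .nil))) .nil)))))) (.node (.node (.node (.node (.node (.I .jac (.c 427058636821846666152103631404146377 (.c 16 (.c 32 .nil))) .nil) (.I .jac (.c 1809230235455531025412364982344393 (.c 16 (.c 32 .nil))) .nil)) (.node (.I .jac (.c 101465489572731241235138809396937 (.c 16 (.c 32 .nil))) .nil) (.I .jac (.c 27951061050494848458324402179417579409225 (.c 16 (.c 32 .nil))) .nil))) (.node (.node (.I .jac (.c 1911132888452944123369833244412745 (.c 16 (.c 32 .nil))) .nil) (.I .jac (.c 10066684875777433669609463625 (.c 16 (.c 32 .nil))) .nil)) (.node (.I .jac (.c 1512102306009786965494079912008658879305 (.c 16 (.c 32 .nil))) .nil) (.I .jac (.c 10065461098180296729435276105 (.c 16 (.c 32 .nil))) .nil)))) (.node (.node (.node (.I .jac (.c 1911144019257783685212967566403401 (.c 16 (.c 32 .nil))) .nil) (.I .jac (.c 427058636821845719787018514561732553 (.c 16 (.c 32 .nil))) .nil))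 (.node (.I .jac (.c 27951050520792140879796950267161731045321 (.c 16 (.c 32 .nil))) .nil) (.I .jac (.c 427055420260303274284998876733539273 (.c 16 (.c 32 .nil))) .nil))) (.node (.node (.I .jac (.c 28374916743873793267608813513 (.c 16 (.c 32 .nil))) .nil) (.I .jac (.c 427057993508083379515198226665525257 (.c 16 (.c 32 .nil))) .nil)) (.node (.I .jac (.c 93738611484289995286311130272777 (.c 16 (.c 32 .nil))) .nil) (.I .jac (.c 427055420260303037694618589709918217 (.c 16 (.c 32 .nil))) .nil))))) (.node (.node (.node (.node (.I .jac (.c 101466720686505037251115829520393 (.c 16 (.c 32 .nil))) .nil) (.I .jac (.c 15038454533815377 (.c 16 (.c 32 .nil))) .nil)) (.node (.I .jac (.c 15456253916353617 (.c 16 (.c 32 .nil))) .nil) (.I .jac (.c 59109074018392946505 (.c 8257 (.c 16 .nil))) .nil))) (.node (.node (.I .jac (.c 59109074018392946505 (.c 8 (.c 32 .nil))) (.b 16 .nil)) (.I .jac (.c 59109074018392946505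 (.c 2113 (.c 32 .nil))) .nil)) (.node (.I .jac (.c 13748198893136698185 (.c 8257 (.c 16 .nil))) .nil) (.I .jac (.c 13748198893136698185 (.c 2113 (.c 32 .nil))) .nil)))) (.node (.node (.node (.I .jac (.c 13748198893136698185 (.c 8 (.c 16 .nil))) (.b 32 .nil)) (.I .jac (.c 15456118887244041 (.c 8257 (.c 16 .nil))) .nil)) (.node (.I .jac (.c 15456118887244041 (.c 8 (.c 16 .nil))) (.b 32 .nil)) (.I .jac (.c 59109068451510808521 (.c 8 (.c 32 .nil))) (.b 16 .nil)))) (.node (.node (.I .jac (.c 59109068451510808521 (.c 2113 (.c 32 .nil))) .nil) (.I .jac (.c 231046163358604233 (.c 8 (.c 32 .nil))) (.b 16 .nil))) (.node (.I .jac (.c 231046163358604233 (.c 8 (.c 16 .nil))) (.b 32 .nil)) (.I .jac (.c 15038410136445321 (.c 8257 (.c 16 .nil))) .nil)))))))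

noncomputable def c4_2 : Tr := (.node (.node (.node (.node (.node (.node (.I .jac (.c 13748194865974800393 (.c 8 (.c 32 .nil))) (.b 16 .nil)) (.I .jac (.c 13748194865974800393 (.c 2113 (.c 32 .nil))) .nil)) (.node (.I .jac (.c 13748194865974800393 (.c 8 (.c 16 .nil))) (.b 32 .nil)) (.I .jac (.c 231045989336561673 (.c 8 (.c 32 .nil))) (.b 16 .nil)))) (.node (.node (.I .jac (.c 3561346121425353 (.c 8 (.c 32 .nil))) (.b 16 .nil)) (.I .jac (.c 1512103782441961050885067571858279445193 (.c 24 (.c 32 .nil))) .nil)) (.node (.I .jac (.c 27951053153217539014174880853583831178953 (.c 24 (.c 32 .nil))) .nil) (.I .jac (.c 651601654921560200620872561558217 (.c 24 (.c 32 .nil))) .nil)))) (.node (.node (.node (.I .jac (.c 97535117142658802225506092678857 (.c 24 (.c 32 .nil))) .nil) (.I .jac (.c 1911155150111259961664864764831433 (.c 24 (.c 32 .nil))) .nil)) (.node (.I .jac (.c 27951050520792141000852311054881784782601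 (.c 24 (.c 32 .nil))) .nil) (.I .jac (.c 1712113961689580865954497792891657 (.c 24 (.c 32 .nil))) .nil))) (.node (.node (.I .jac (.c 93738611484300510920650542513929 (.c 24 (.c 32 .nil))) .nil) (.I .jac (.c 1911144019257783685212967566403337 (.c 24 (.c 32 .nil))) .nil)) (.node (.I .jac (.c 27951053153217538772064147877169776201673 (.c 24 (.c 32 .nil))) .nil) (.I .jac (.c 651606621363089303044061530656713 (.c 24 (.c 32 .nil))) .nil))))) (.node (.node (.node (.node (.I .jac (.c 1760086083483768606775145280457673 (.c 24 (.c 32 .nil))) .nil) (.I .jac (.c 651581789439159100050097116709833 (.c 24 (.c 32 .nil))) .nil)) (.node (.I .jac (.c 10061790434743040737723204553 (.c 24 (.c 32 .nil))) .nil) (.I .jac (.c 49484669145083763774947273 (.c 24 (.c 32 .nil))) .nil))) (.node (.node (.I .jac (.c 1760096547751797123547316855728073 (.c 24 (.c 32 .nil))) .nil) (.I .jac (.c 1512102306009786909181484737811290911753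 (.c 24 (.c 32 .nil))) .nil)) (.node (.I .jac (.c 10065461098035008044835206153 (.c 24 (.c 32 .nil))) .nil) (.I .jac (.c 14832803796720721 (.c 24 (.c 32 .nil))) .nil)))) (.node (.node (.node (.I .jac (.c 13748198893136698121 (.c 8 (.c 24 .nil))) (.b 32 .nil)) (.I .jac (.c 15456118887243977 (.c 8257 (.c 24 .nil))) .nil)) (.node (.I .jac (.c 15456118887243977 (.c 8 (.c 24 .nil))) (.b 32 .nil)) (.I .jac (.c 59109065668069837769 (.c 4673 (.c 32 .nil))) .nil))) (.node (.node (.I .jac (.c 59109065668069837769 (.c 8 (.c 24 .nil))) (.b 32 .nil)) (.I .jac (.c 9025011228269513 (.c 8257 (.c 24 .nil))) .nil)) (.node (.I .jac (.c 9025011228269513 (.c 8 (.c 32 .nil))) (.b 24 .nil)) (.I .jac (.c 14832759703961993 (.c 8 (.c 32 .nil))) (.b 24 .nil))))))) (.node (.node (.node (.node (.node (.I .jac (.c 14832759703961993 (.c 8 (.c 24 .nil))) (.b 32 .nil)) (.I .jac (.c 13748193523587632137 (.c 4673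 (.c 32 .nil))) .nil)) (.node (.I .jac (.c 3491688652046793 (.c 4673 (.c 32 .nil))) .nil) (.I .jac (.c 15456208906582089 (.c 8257 (.c 24 .nil))) .nil))) (.node (.node (.I .jac (.c 15456208906582089 (.c 8 (.c 32 .nil))) (.b 24 .nil)) (.I .jac (.c 15456208906582089 (.c 8 (.c 24 .nil))) (.b 32 .nil))) (.node (.I .jac (.c 59109074018392946377 (.c 8321 (.c 24 .nil))) .nil) (.I .jac (.c 59109074018392946377 (.c 16 (.c 32 .nil))) (.b 24 .nil))))) (.node (.node (.node (.I .jac (.c 13748198893136698057 (.c 8321 (.c 24 .nil))) .nil) (.I .jac (.c 13748198893136698057 (.c 16 (.c 24 .nil))) (.b 32 .nil))) (.node (.I .jac (.c 15456118887243913 (.c 16 (.c 24 .nil))) (.b 32 .nil)) (.I .jac (.c 59109062884628932553 (.c 16 (.c 32 .nil))) (.b 24 .nil)))) (.node (.node (.I .jac (.c 14629225721520521 (.c 16 (.c 32 .nil))) (.b 24 .nil)) (.I .jac (.c 13748192181200529417 (.c 8321 (.c 24 .nil))) .nil))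 (.node (.I .jac (.c 13748192181200529417 (.c 16 (.c 24 .nil))) (.b 32 .nil)) (.I .jac (.c 2718204233 (.c 545424585 (.c 16 .nil))) .nil))))) (.node (.node (.node (.node (.I .jac (.c 2718204233 (.c 8257 (.c 24 .nil))) (.b 16 .nil)) (.I .jac (.c 2718204233 (.c 8 (.c 24 .nil))) (.b 32 (.b 16 .nil)))) (.node (.I .jac (.c 2718204233 (.c 8786499 (.c 16 .nil))) .nil) (.I .jac (.c 2718204233 (.c 545424521 (.c 24 .nil))) .nil))) (.node (.node (.I .jac (.c 2718204233 (.c 8257 (.c 16 .nil))) (.b 24 .nil)) (.I .jac (.c 2718204233 (.c 8 (.c 16 .nil))) (.b 32 (.b 24 .nil)))) (.node (.I .jac (.c 2718204233 (.c 8652867 (.c 24 .nil))) .nil) (.I .jac (.c 2718204233 (.c 2113 (.c 24 .nil))) (.b 32 .nil))))) (.node (.node (.node (.I .jac (.c 2718204233 (.c 2803779 (.c 32 .nil))) .nil) (.I .jac (.c 2718204233 (.c 8 (.c 8786563 .nil))) .nil)) (.node (.I .jac (.c 1310925193 (.c 8 (.c 32 .nil))) (.b 24 (.b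 16 .nil))) (.I .jac (.c 1310925193 (.c 174695689 (.c 16 .nil))) .nil))) (.node (.node (.I .jac (.c 1310925193 (.c 4673 (.c 32 .nil))) (.b 16 .nil)) (.I .jac (.c 1310925193 (.c 8786499 (.c 16 .nil))) .nil)) (.node (.I .jac (.c 1310925193 (.c 545424521 (.c 24 .nil))) .nil) (.I .jac (.c 1310925193 (.c 8257 (.c 16 .nil))) (.b 24 .nil))))))))

noncomputable def c4_3 : Tr := (.node (.node (.node (.node (.node (.node (.I .jac (.c 1310925193 (.c 8 (.c 32 .nil))) (.b 16 (.b 24 .nil))) (.I .jac (.c 1310925193 (.c 2113 (.c 32 .nil))) (.b 24 .nil))) (.node (.I .jac (.c 1310925193 (.c 8 (.c 16 .nil))) (.b 32 (.b 24 .nil))) (.I .jac (.c 1310925193 (.c 8652867 (.c 24 .nil))) .nil))) (.node (.node (.I .jac (.c 1310925193 (.c 2113 (.c 24 .nil))) (.b 32 .nil)) (.I .jac (.c 1310925193 (.c 2803779 (.c 32 .nil))) .nil)) (.node (.I .jac (.c 1310925193 (.c 8 (.c 8786563 .nil))) .nil) (.I .jac (.c 43954691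 (.c 8 (.c 24 .nil))) (.b 32 (.b 16 .nil)))))) (.node (.node (.node (.I .jac (.c 43954691 (.c 8 (.c 16 .nil))) (.b 24 (.b 32 .nil))) (.I .jac (.c 27951058418068892742902176168037983934217 (.c 8 (.c 40 .nil))) .nil)) (.node (.I .jac (.c 27951055785643122908012690443949941766921 (.c 8 (.c 40 .nil))) .nil) (.I .jac (.c 427058636821846429560832352193444617 (.c 8 (.c 40 .nil))) .nil))) (.node (.node (.I .jac (.c 3051551917826763369823227313929 (.c 8 (.c 40 .nil))) .nil) (.I .jac (.c 27951058418068892682374487223447295013705 (.c 8 (.c 40 .nil))) .nil)) (.node (.I .jac (.c 1859570876265457888126924734394185 (.c 8 (.c 40 .nil))) .nil) (.I .jac (.c 2870101301550745431484650323785 (.c 8 (.c 40 .nil))) .nil))))) (.node (.node (.node (.node (.I .jac (.c 427058636821845956378289793772237705 (.c 8 (.c 40 .nil))) .nil) (.I .jac (.c 27951053153217538893119514365376803559305 (.c 8 (.c 40 .nil)))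 .nil)) (.node (.I .jac (.c 651606621363107786267057026226057 (.c 8 (.c 40 .nil))) .nil) (.I .jac (.c 1760086083483798984267018994226057 (.c 8 (.c 40 .nil))) .nil))) (.node (.node (.I .jac (.c 427056063571158386490489209096946569 (.c 8 (.c 40 .nil))) .nil) (.I .jac (.c 617629514971217 (.c 8 (.c 40 .nil))) .nil)) (.node (.I .jac (.c 42576913200413533512397237570979656713 (.c 8 (.c 40 .nil))) .nil) (.I .jac (.c 3051551917824233633037003976713 (.c 8 (.c 40 .nil))) .nil)))) (.node (.node (.node (.I .jac (.c 42576892903125861400833495191760328713 (.c 8 (.c 40 .nil))) .nil) (.I .jac (.c 2870101301548905401794626098185 (.c 8 (.c 40 .nil))) .nil)) (.node (.I .jac (.c 427056063571157913309372238443346953 (.c 8 (.c 40 .nil))) .nil) (.I .jac (.c 651591722123561355438909041458185 (.c 8 (.c 40 .nil))) .nil))) (.node (.node (.I .jac (.c 31637737730335181391477946377 (.c 8 (.c 40 .nil))) .nil)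 (.I .jac (.c 15246281046272081 (.c 8 (.c 40 .nil))) .nil)) (.node (.I .jac (.c 15246325749310545 (.c 8 (.c 40 .nil))) .nil) (.I .jac (.c 27951058418068892742902176168037983934153 (.c 16 (.c 40 .nil))) .nil)))))) (.node (.node (.node (.node (.node (.I .jac (.c 1859570876265473500227164416021193 (.c 16 (.c 40 .nil))) .nil) (.I .jac (.c 27951055785643122908012690443949941766857 (.c 16 (.c 40 .nil))) .nil)) (.node (.I .jac (.c 42576913200413542961749526065342513865 (.c 16 (.c 40 .nil))) .nil) (.I .jac (.c 3051551917826763369823227313865 (.c 16 (.c 40 .nil))) .nil))) (.node (.node (.I .jac (.c 27951058418068892621846798278856606158665 (.c 16 (.c 40 .nil))) .nil) (.I .jac (.c 1859570876265442276026685052832585 (.c 16 (.c 40 .nil))) .nil)) (.node (.I .jac (.c 10066684875741109290467687241 (.c 16 (.c 40 .nil))) .nil) (.I .jac (.c 1712113961689565885627358955910985 (.c 16 (.c 40 .nil)))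 .nil)))) (.node (.node (.node (.I .jac (.c 42576872605845451114770277207992337225 (.c 16 (.c 40 .nil))) .nil) (.I .jac (.c 2698162480891381558379040177993 (.c 16 (.c 40 .nil))) .nil)) (.node (.I .jac (.c 1859581781071896992296047629789001 (.c 16 (.c 40 .nil))) .nil) (.I .jac (.c 27951055785643122726429632160908738482057 (.c 16 (.c 40 .nil))) .nil))) (.node (.node (.I .jac (.c 27951050520792140879796950267161731045257 (.c 16 (.c 40 .nil))) .nil) (.I .jac (.c 1712113961689550905300220118995849 (.c 16 (.c 40 .nil))) .nil)) (.node (.I .jac (.c 427055420260303274284998876733539209 (.c 16 (.c 40 .nil))) .nil) (.I .jac (.c 10063013877651720715266098057 (.c 16 (.c 40 .nil))) .nil))))) (.node (.node (.node (.node (.I .jac (.c 28374916743873793267608813449 (.c 16 (.c 40 .nil))) .nil) (.I .jac (.c 617620517563473 (.c 16 (.c 40 .nil))) .nil)) (.node (.I .jac (.c 42576913200413531150059165447389106185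 (.c 16 (.c 40 .nil))) .nil) (.I .jac (.c 427057350195047847081321678284722185 (.c 16 (.c 40 .nil))) .nil))) (.node (.node (.I .jac (.c 2698162480889597495046571987977 (.c 16 (.c 40 .nil))) .nil) (.I .jac (.c 427055420260302801104238302686362633 (.c 16 (.c 40 .nil))) .nil)) (.node (.I .jac (.c 10063013877579085204530183177 (.c 16 (.c 40 .nil))) .nil) (.I .jac (.c 28374916743751823483031730185 (.c 16 (.c 40 .nil))) .nil)))) (.node (.node (.node (.I .jac (.c 15038454533778513 (.c 16 (.c 40 .nil))) .nil) (.I .jac (.c 59109071234951844681 (.c 12865 (.c 16 .nil))) .nil)) (.node (.I .jac (.c 59109071234951844681 (.c 8 (.c 40 .nil))) (.b 16 .nil)) (.I .jac (.c 59109071234951844681 (.c 2113 (.c 40 .nil))) .nil))) (.node (.node (.I .jac (.c 2306972423229201225 (.c 12865 (.c 16 .nil))) .nil) (.I .jac (.c 2306972423229201225 (.c 8 (.c 40 .nil))) (.b 16 .nil))) (.node (.I .jac (.c 15246191640314121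 (.c 12865 (.c 16 .nil))) .nil) (.I .jac (.c 15246191640314121 (.c 8 (.c 40 .nil))) (.b 16 .nil))))))))

noncomputable def c4_4 : Tr := (.node (.node (.node (.node (.node (.node (.I .jac (.c 59109068451510808457 (.c 12865 (.c 16 .nil))) .nil) (.I .jac (.c 59109068451510808457 (.c 2113 (.c 40 .nil))) .nil)) (.node (.I .jac (.c 231046163358604169 (.c 8 (.c 40 .nil))) (.b 16 .nil)) (.I .jac (.c 231046163358604169 (.c 2113 (.c 40 .nil))) .nil))) (.node (.node (.I .jac (.c 231046163358604169 (.c 8 (.c 16 .nil))) (.b 40 .nil)) (.I .jac (.c 15038410136445257 (.c 8 (.c 40 .nil))) (.b 16 .nil))) (.node (.I .jac (.c 2306970773558194185 (.c 12865 (.c 16 .nil))) .nil) (.I .jac (.c 2306970773558194185 (.c 8 (.c 40 .nil))) (.b 16 .nil))))) (.node (.node (.node (.I .jac (.c 2306970773558194185 (.c 8 (.c 16 .nil))) (.b 40 .nil)) (.I .jac (.c 231045815314584585 (.c 12865 (.c 16 .nil))) .nil)) (.node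 (.I .jac (.c 231045815314584585 (.c 2113 (.c 40 .nil))) .nil) (.I .jac (.c 231045815314584585 (.c 8 (.c 16 .nil))) (.b 40 .nil)))) (.node (.node (.I .jac (.c 617611520074185 (.c 8 (.c 40 .nil))) (.b 16 .nil)) (.I .jac (.c 617611520074185 (.c 2113 (.c 40 .nil))) .nil)) (.node (.I .jac (.c 617611520074185 (.c 8 (.c 16 .nil))) (.b 40 .nil)) (.I .jac (.c 27951058418068892682374487223447295013577 (.c 24 (.c 40 .nil))) .nil))))) (.node (.node (.node (.node (.I .jac (.c 42576974092320099556365595025629983433 (.c 24 (.c 40 .nil))) .nil) (.I .jac (.c 1859570876265457888126924734394057 (.c 24 (.c 40 .nil))) .nil)) (.node (.I .jac (.c 27951053153217538953647197609480317336265 (.c 24 (.c 40 .nil))) .nil) (.I .jac (.c 42576892903125868487846022299823817417 (.c 24 (.c 40 .nil))) .nil))) (.node (.node (.I .jac (.c 2870101301550745431484650323657 (.c 24 (.c 40 .nil))) .nil) (.I .jac (.c 10066684875741109290467687177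 (.c 24 (.c 40 .nil))) .nil)) (.node (.I .jac (.c 1712113961689565885627358955910921 (.c 24 (.c 40 .nil))) .nil) (.I .jac (.c 2698162480891381558379040177929 (.c 24 (.c 40 .nil))) .nil)))) (.node (.node (.node (.I .jac (.c 1859581781071896992296047629788937 (.c 24 (.c 40 .nil))) .nil) (.I .jac (.c 1760086083483768606775145280457609 (.c 24 (.c 40 .nil))) .nil)) (.node (.I .jac (.c 10066684875668460532184331145 (.c 24 (.c 40 .nil))) .nil) (.I .jac (.c 651581789439159100050097116709769 (.c 24 (.c 40 .nil))) .nil))) (.node (.node (.I .jac (.c 10061790434743040737723204489 (.c 24 (.c 40 .nil))) .nil) (.I .jac (.c 1760096547751797123547316855728009 (.c 24 (.c 40 .nil))) .nil)) (.node (.I .jac (.c 598976858704977 (.c 24 (.c 40 .nil))) .nil) (.I .jac (.c 42576892903125856676158477119718330377 (.c 24 (.c 40 .nil))) .nil)))))) (.node (.node (.node (.node (.node (.I .jac (.c 42576872605845441665422493413917717513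 (.c 24 (.c 40 .nil))) .nil) (.I .jac (.c 10064237431983265346846635017 (.c 24 (.c 40 .nil))) .nil)) (.node (.I .jac (.c 2698162480889002807269082722313 (.c 24 (.c 40 .nil))) .nil) (.I .jac (.c 651581789439140617179291382201353 (.c 24 (.c 40 .nil))) .nil))) (.node (.node (.I .jac (.c 49484669139990217052338185 (.c 24 (.c 40 .nil))) .nil) (.I .jac (.c 2870186216699415475033029961737 (.c 24 (.c 40 .nil))) .nil)) (.node (.I .jac (.c 14832803796683857 (.c 24 (.c 40 .nil))) .nil) (.I .jac (.c 59109071234951844617 (.c 12865 (.c 24 .nil))) .nil)))) (.node (.node (.node (.I .jac (.c 59109071234951844617 (.c 4673 (.c 40 .nil))) .nil) (.I .jac (.c 59109071234951844617 (.c 8 (.c 24 .nil))) (.b 40 .nil))) (.node (.I .jac (.c 2306972423229201161 (.c 12865 (.c 24 .nil))) .nil) (.I .jac (.c 15246191640314057 (.c 12865 (.c 24 .nil))) .nil))) (.node (.node (.I .jac (.c 15246191640314057 (.c 4673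 (.c 40 .nil))) .nil) (.I .jac (.c 15246191640314057 (.c 8 (.c 24 .nil))) (.b 40 .nil))) (.node (.I .jac (.c 59109065668069837705 (.c 8 (.c 40 .nil))) (.b 24 .nil)) (.I .jac (.c 59109065668069837705 (.c 8 (.c 24 .nil))) (.b 40 .nil)))))) (.node (.node (.node (.node (.I .jac (.c 9025011228269449 (.c 8 (.c 40 .nil))) (.b 24 .nil)) (.I .jac (.c 14832759703961929 (.c 8 (.c 40 .nil))) (.b 24 .nil))) (.node (.I .jac (.c 14832759703961929 (.c 8 (.c 24 .nil))) (.b 40 .nil)) (.I .jac (.c 2306970223667989513 (.c 4673 (.c 40 .nil))) .nil))) (.node (.node (.I .jac (.c 9024942441010185 (.c 12865 (.c 24 .nil))) .nil) (.I .jac (.c 9024942441010185 (.c 8 (.c 40 .nil))) (.b 24 .nil))) (.node (.I .jac (.c 9024942441010185 (.c 4673 (.c 40 .nil))) .nil) (.I .jac (.c 9024942441010185 (.c 8 (.c 24 .nil))) (.b 40 .nil))))) (.node (.node (.node (.I .jac (.c 598967998054857 (.c 8 (.c 40 .nil))) (.b 24 .nil))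 (.I .jac (.c 598967998054857 (.c 8 (.c 24 .nil))) (.b 40 .nil))) (.node (.I .jac (.c 15246281046235209 (.c 4673 (.c 40 .nil))) .nil) (.I .jac (.c 59109071234951844553 (.c 16 (.c 40 .nil))) (.b 24 .nil)))) (.node (.node (.I .jac (.c 2306972423229201097 (.c 12929 (.c 24 .nil))) .nil) (.I .jac (.c 2306972423229201097 (.c 16 (.c 40 .nil))) (.b 24 .nil))) (.node (.I .jac (.c 2306972423229201097 (.c 4737 (.c 40 .nil))) .nil) (.I .jac (.c 2306972423229201097 (.c 16 (.c 24 .nil))) (.b 40 .nil))))))))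

noncomputable def c4_5 : Tr := (.node (.node (.node (.node (.node (.node (.I .jac (.c 15246191640313993 (.c 16 (.c 40 .nil))) (.b 24 .nil)) (.I .jac (.c 59109062884628932489 (.c 16 (.c 40 .nil))) (.b 24 .nil))) (.node (.I .jac (.c 59109062884628932489 (.c 16 (.c 24 .nil))) (.b 40 .nil)) (.I .jac (.c 14629225721520457 (.c 12929 (.c 24 .nil))) .nil))) (.node (.node (.I .jac (.c 14629225721520457 (.c 16 (.c 40 .nil))) (.b 24 .nil)) (.I .jac (.c 14629225721520457 (.c 16 (.c 24 .nil))) (.b 40 .nil))) (.node (.I .jac (.c 2306969673777850377 (.c 12929 (.c 24 .nil))) .nil) (.I .jac (.c 2306969673777850377 (.c 16 (.c 40 .nil))) (.b 24 .nil))))) (.node (.node (.node (.I .jac (.c 35468714087433 (.c 12929 (.c 24 .nil))) .nil) (.I .jac (.c 35468714087433 (.c 16 (.c 40 .nil))) (.b 24 .nil))) (.node (.I .jac (.c 35468714087433 (.c 4737 (.c 40 .nil))) .nil) (.I .jac (.c 35468714087433 (.c 16 (.c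 24 .nil))) (.b 40 .nil)))) (.node (.node (.I .jac (.c 580749782704585 (.c 16 (.c 40 .nil))) (.b 24 .nil)) (.I .jac (.c 580749782704585 (.c 16 (.c 24 .nil))) (.b 40 .nil))) (.node (.I .jac (.c 2718204169 (.c 12865 (.c 24 .nil))) (.b 16 .nil)) (.I .jac (.c 2718204169 (.c 174695753 (.c 16 .nil))) .nil))))) (.node (.node (.node (.node (.I .jac (.c 2718204169 (.c 4673 (.c 40 .nil))) (.b 16 .nil)) (.I .jac (.c 2718204169 (.c 12865 (.c 16 .nil))) (.b 24 .nil))) (.node (.I .jac (.c 2718204169 (.c 20891715 (.c 24 .nil))) .nil) (.I .jac (.c 2718204169 (.c 174695561 (.c 40 .nil))) .nil))) (.node (.node (.I .jac (.c 2718204169 (.c 8 (.c 24 .nil))) (.b 16 (.b 40 .nil))) (.I .jac (.c 2718204169 (.c 2113 (.c 24 .nil))) (.b 40 .nil))) (.node (.I .jac (.c 2718204169 (.c 2803779 (.c 40 .nil))) .nil) (.I .jac (.c 2718204169 (.c 8 (.c 21099139 .nil))) .nil)))) (.node (.node (.node (.I .jac (.c 537002377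 (.c 12865 (.c 24 .nil))) (.b 16 .nil)) (.I .jac (.c 537002377 (.c 8 (.c 40 .nil))) (.b 24 (.b 16 .nil)))) (.node (.I .jac (.c 537002377 (.c 174695753 (.c 16 .nil))) .nil) (.I .jac (.c 537002377 (.c 4673 (.c 40 .nil))) (.b 16 .nil)))) (.node (.node (.I .jac (.c 537002377 (.c 8 (.c 16 .nil))) (.b 40 (.b 24 .nil))) (.I .jac (.c 537002377 (.c 20891715 (.c 24 .nil))) .nil)) (.node (.I .jac (.c 537002377 (.c 174695561 (.c 40 .nil))) .nil) (.I .jac (.c 537002377 (.c 8 (.c 16 .nil))) (.b 24 (.b 40 .nil)))))))) (.node (.node (.node (.node (.node (.I .jac (.c 537002377 (.c 2803779 (.c 40 .nil))) .nil) (.I .jac (.c 43655171 (.c 8 (.c 40 .nil))) (.b 24 (.b 16 .nil)))) (.node (.I .jac (.c 43655171 (.c 8 (.c 40 .nil))) (.b 16 (.b 24 .nil))) (.I .jac (.c 43655171 (.c 8 (.c 16 .nil))) (.b 40 (.b 24 .nil))))) (.node (.node (.I .jac (.c 43655171 (.c 8 (.c 24 .nil))) (.b 16 (.b 40 .nil))) (.I .jac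 (.c 27951055785643122786957318255255806177993 (.c 32 (.c 40 .nil))) .nil)) (.node (.I .jac (.c 427058636821845956378289793772237513 (.c 32 (.c 40 .nil))) .nil) (.I .jac (.c 1809230235455484827416425822613193 (.c 32 (.c 40 .nil))) .nil)))) (.node (.node (.node (.I .jac (.c 27951053153217538893119514365376803559113 (.c 32 (.c 40 .nil))) .nil) (.I .jac (.c 427056063571158386490489209096946377 (.c 32 (.c 40 .nil))) .nil)) (.node (.I .jac (.c 651591722123579838450590277894857 (.c 32 (.c 40 .nil))) .nil) (.I .jac (.c 1809230235455469428084446102833929 (.c 32 (.c 40 .nil))) .nil))) (.node (.node (.I .jac (.c 27951050520792140879796950267161731045129 (.c 32 (.c 40 .nil))) .nil) (.I .jac (.c 10066684875704784911325976329 (.c 32 (.c 40 .nil))) .nil)) (.node (.I .jac (.c 10063013877651720715266097929 (.c 32 (.c 40 .nil))) .nil) (.I .jac (.c 1809240918100417214955082230359817 (.c 32 (.c 40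 .nil))) .nil))))) (.node (.node (.node (.node (.I .jac (.c 651606621363089303044061530656585 (.c 32 (.c 40 .nil))) .nil) (.I .jac (.c 1712113961689535924973081282146121 (.c 32 (.c 40 .nil))) .nil)) (.node (.I .jac (.c 651581789439159100050097116709705 (.c 32 (.c 40 .nil))) .nil) (.I .jac (.c 10061790434743040737723204425 (.c 32 (.c 40 .nil))) .nil))) (.node (.node (.I .jac (.c 49484669145083763774947145 (.c 32 (.c 40 .nil))) .nil) (.I .jac (.c 62889413594193 (.c 32 (.c 40 .nil))) .nil)) (.node (.I .jac (.c 28374916743629853698454908937 (.c 32 (.c 40 .nil))) .nil) (.I .jac (.c 49484669137443443691131913 (.c 32 (.c 40 .nil))) .nil)))) (.node (.node (.node (.I .jac (.c 31640626589388946877766395913 (.c 32 (.c 40 .nil))) .nil) (.I .jac (.c 14832803796655185 (.c 32 (.c 40 .nil))) .nil)) (.node (.I .jac (.c 15038454533729361 (.c 32 (.c 40 .nil))) .nil) (.I .jac (.c 59109068451510808329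 (.c 12865 (.c 32 .nil))) .nil))) (.node (.node (.I .jac (.c 59109068451510808329 (.c 8 (.c 40 .nil))) (.b 32 .nil)) (.I .jac (.c 231046163358604041 (.c 12865 (.c 32 .nil))) .nil)) (.node (.I .jac (.c 231046163358604041 (.c 8257 (.c 40 .nil))) .nil) (.I .jac (.c 15038410136445129 (.c 8257 (.c 40 .nil))) .nil)))))))

noncomputable def c4_6 : Tr := (.node (.node (.node (.node (.node (.node (.I .jac (.c 15038410136445129 (.c 8 (.c 32 .nil))) (.b 40 .nil)) (.I .jac (.c 59109065668069837641 (.c 8257 (.c 40 .nil))) .nil)) (.node (.I .jac (.c 14832759703961865 (.c 8 (.c 40 .nil))) (.b 32 .nil)) (.I .jac (.c 14832759703961865 (.c 8 (.c 32 .nil))) (.b 40 .nil)))) (.node (.node (.I .jac (.c 231045467270827017 (.c 12865 (.c 32 .nil))) .nil) (.I .jac (.c 231045467270827017 (.c 8257 (.c 40 .nil))) .nil)) (.node (.I .jac (.c 9024908047478793 (.c 12865 (.c 32 .nil))) .nil) (.I .jac (.c 9024908047478793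 (.c 8 (.c 40 .nil))) (.b 32 .nil))))) (.node (.node (.node (.I .jac (.c 9024908047478793 (.c 8257 (.c 40 .nil))) .nil) (.I .jac (.c 62886542410185 (.c 8257 (.c 40 .nil))) .nil)) (.node (.I .jac (.c 59109068451510808265 (.c 12929 (.c 32 .nil))) .nil) (.I .jac (.c 231046163358603977 (.c 16 (.c 40 .nil))) (.b 32 .nil)))) (.node (.node (.I .jac (.c 231046163358603977 (.c 8321 (.c 40 .nil))) .nil) (.I .jac (.c 15038410136445065 (.c 16 (.c 40 .nil))) (.b 32 .nil))) (.node (.I .jac (.c 35473026505545 (.c 12929 (.c 32 .nil))) .nil) (.I .jac (.c 35473026505545 (.c 8321 (.c 40 .nil))) .nil))))) (.node (.node (.node (.node (.I .jac (.c 35473026505545 (.c 16 (.c 32 .nil))) (.b 40 .nil)) (.I .jac (.c 14629225721520393 (.c 12929 (.c 32 .nil))) .nil)) (.node (.I .jac (.c 14629225721520393 (.c 16 (.c 40 .nil))) (.b 32 .nil)) (.I .jac (.c 231045293249046537 (.c 16 (.c 40 .nil))) (.b 32 .nil))))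 (.node (.node (.I .jac (.c 35466557976585 (.c 12929 (.c 32 .nil))) .nil) (.I .jac (.c 35466557976585 (.c 16 (.c 32 .nil))) (.b 40 .nil))) (.node (.I .jac (.c 59555558875593 (.c 16 (.c 40 .nil))) (.b 32 .nil)) (.I .jac (.c 15038454533712969 (.c 16 (.c 40 .nil))) (.b 32 .nil))))) (.node (.node (.node (.I .jac (.c 15038454533712969 (.c 16 (.c 32 .nil))) (.b 40 .nil)) (.I .jac (.c 2718204105 (.c 1324066057 (.c 16 .nil))) .nil)) (.node (.I .jac (.c 2718204105 (.c 12865 (.c 32 .nil))) (.b 16 .nil)) (.I .jac (.c 2718204105 (.c 8 (.c 40 .nil))) (.b 32 (.b 16 .nil))))) (.node (.node (.I .jac (.c 2718204105 (.c 545424713 (.c 16 .nil))) .nil) (.I .jac (.c 2718204105 (.c 8257 (.c 40 .nil))) (.b 16 .nil))) (.node (.I .jac (.c 2718204105 (.c 8 (.c 32 .nil))) (.b 40 (.b 16 .nil))) (.I .jac (.c 2718204105 (.c 1324065929 (.c 32 .nil))) .nil)))))) (.node (.node (.node (.node (.node (.I .jac (.c 2718204105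 (.c 12865 (.c 16 .nil))) (.b 32 .nil)) (.I .jac (.c 2718204105 (.c 8 (.c 40 .nil))) (.b 16 (.b 32 .nil)))) (.node (.I .jac (.c 2718204105 (.c 8 (.c 16 .nil))) (.b 40 (.b 32 .nil))) (.I .jac (.c 2718204105 (.c 20891715 (.c 32 .nil))) .nil))) (.node (.node (.I .jac (.c 2718204105 (.c 545424521 (.c 40 .nil))) .nil) (.I .jac (.c 2718204105 (.c 8257 (.c 16 .nil))) (.b 40 .nil))) (.node (.I .jac (.c 2718204105 (.c 8652867 (.c 40 .nil))) .nil) (.I .jac (.c 2718204105 (.c 8 (.c 21307523 .nil))) .nil)))) (.node (.node (.node (.I .jac (.c 169943433 (.c 545424713 (.c 16 .nil))) .nil) (.I .jac (.c 169943433 (.c 8 (.c 32 .nil))) (.b 40 (.b 16 .nil)))) (.node (.I .jac (.c 169943433 (.c 8 (.c 16 .nil))) (.b 40 (.b 32 .nil))) (.I .jac (.c 169943433 (.c 20891715 (.c 32 .nil))) .nil))) (.node (.node (.I .jac (.c 169943433 (.c 8 (.c 32 .nil))) (.b 16 (.b 40 .nil))) (.I .jac (.c 169943433 (.c 2113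 (.c 32 .nil))) (.b 40 .nil))) (.node (.I .jac (.c 169943433 (.c 8 (.c 16 .nil))) (.b 32 (.b 40 .nil))) (.I .jac (.c 169943433 (.c 8652867 (.c 40 .nil))) .nil))))) (.node (.node (.node (.node (.I .jac (.c 169943433 (.c 8 (.c 21307523 .nil))) .nil) (.I .jac (.c 43356675 (.c 8 (.c 40 .nil))) (.b 32 (.b 16 .nil)))) (.node (.I .jac (.c 43356675 (.c 8 (.c 32 .nil))) (.b 40 (.b 16 .nil))) (.I .jac (.c 43356675 (.c 8 (.c 40 .nil))) (.b 16 (.b 32 .nil))))) (.node (.node (.I .jac (.c 43356675 (.c 8 (.c 16 .nil))) (.b 40 (.b 32 .nil))) (.I .jac (.c 59109065668069837513 (.c 12993 (.c 32 .nil))) .nil)) (.node (.I .jac (.c 59109065668069837513 (.c 24 (.c 40 .nil))) (.b 32 .nil)) (.I .jac (.c 59109065668069837513 (.c 24 (.c 32 .nil))) (.b 40 .nil))))) (.node (.node (.node (.I .jac (.c 9025011228269257 (.c 12993 (.c 32 .nil))) .nil) (.I .jac (.c 59109062884628932361 (.c 12993 (.c 32 .nil))) .nil))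 (.node (.I .jac (.c 59109062884628932361 (.c 24 (.c 40 .nil))) (.b 32 .nil)) (.I .jac (.c 14629225721520329 (.c 24 (.c 32 .nil))) (.b 40 .nil)))) (.node (.node (.I .jac (.c 9024839260612617 (.c 24 (.c 40 .nil))) (.b 32 .nil)) (.I .jac (.c 9024839260612617 (.c 24 (.c 32 .nil))) (.b 40 .nil))) (.node (.I .jac (.c 35464401931273 (.c 24 (.c 40 .nil))) (.b 32 .nil)) (.I .jac (.c 2487083360713 (.c 12993 (.c 32 .nil))) .nil)))))))

noncomputable def c4_7 : Tr := (.node (.node (.node (.node (.node (.node (.I .jac (.c 2487083360713 (.c 24 (.c 32 .nil))) (.b 40 .nil)) (.I .jac (.c 2718204041 (.c 12865 (.c 32 .nil))) (.b 24 .nil))) (.node (.I .jac (.c 2718204041 (.c 8 (.c 32 .nil))) (.b 40 (.b 24 .nil))) (.I .jac (.c 2718204041 (.c 8 (.c 40 .nil))) (.b 24 (.b 32 .nil))))) (.node (.node (.I .jac (.c 2718204041 (.c 8257 (.c 24 .nil))) (.b 40 .nil)) (.I .jac (.c 2718204041 (.c 8 (.c 32 .nil)))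 (.b 24 (.b 40 .nil)))) (.node (.I .jac (.c 2718204041 (.c 4673 (.c 32 .nil))) (.b 40 .nil)) (.I .jac (.c 2718204041 (.c 8786499 (.c 40 .nil))) .nil)))) (.node (.node (.node (.I .jac (.c 33587593 (.c 545424713 (.c 24 .nil))) .nil) (.I .jac (.c 33587593 (.c 8257 (.c 40 .nil))) (.b 24 .nil))) (.node (.I .jac (.c 33587593 (.c 1324065993 (.c 32 .nil))) .nil) (.I .jac (.c 33587593 (.c 12865 (.c 24 .nil))) (.b 32 .nil)))) (.node (.node (.I .jac (.c 33587593 (.c 174695753 (.c 32 .nil))) .nil) (.I .jac (.c 33587593 (.c 4673 (.c 40 .nil))) (.b 32 .nil))) (.node (.I .jac (.c 33587593 (.c 8786499 (.c 40 .nil))) .nil) (.I .jac (.c 33587593 (.c 8 (.c 21307587 .nil))) .nil))))) (.node (.node (.node (.node (.I .jac (.c 43059203 (.c 8 (.c 40 .nil))) (.b 32 (.b 24 .nil))) (.I .jac (.c 43059203 (.c 8 (.c 32 .nil))) (.b 40 (.b 24 .nil)))) (.node (.I .jac (.c 43059203 (.c 8 (.c 40 .nil))) (.b 24 (.b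 32 .nil))) (.I .jac (.c 43059203 (.c 8 (.c 24 .nil))) (.b 40 (.b 32 .nil))))) (.node (.node (.I .jac (.c 43059203 (.c 8 (.c 32 .nil))) (.b 24 (.b 40 .nil))) (.I .jac (.c 43059203 (.c 8 (.c 24 .nil))) (.b 32 (.b 40 .nil)))) (.node (.I .jac (.c 2718203977 (.c 21307523 (.c 24 .nil))) .nil) (.I .jac (.c 2718203977 (.c 16 (.c 40 .nil))) (.b 24 (.b 32 .nil)))))) (.node (.node (.node (.I .jac (.c 2718203977 (.c 16 (.c 24 .nil))) (.b 40 (.b 32 .nil))) (.I .jac (.c 2718203977 (.c 21099139 (.c 32 .nil))) .nil)) (.node (.I .jac (.c 2718203977 (.c 16 (.c 32 .nil))) (.b 24 (.b 40 .nil))) (.I .jac (.c 2718203977 (.c 8786563 (.c 40 .nil))) .nil))) (.node (.node (.I .jac (.c 2105737 (.c 16 (.c 40 .nil))) (.b 32 (.b 24 .nil))) (.I .jac (.c 2105737 (.c 21307523 (.c 24 .nil))) .nil)) (.node (.I .jac (.c 2105737 (.c 12929 (.c 24 .nil))) (.b 32 .nil)) (.I .jac (.c 2105737 (.c 16 (.c 40 .nil))) (.b 24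 (.b 32 .nil)))))))) (.node (.node (.node (.node (.node (.I .jac (.c 2105737 (.c 8786563 (.c 40 .nil))) .nil) (.I .jac (.c 2105737 (.c 16 (.c 21307587 .nil))) .nil)) (.node (.I .jac (.c 42762755 (.c 16 (.c 40 .nil))) (.b 32 (.b 24 .nil))) (.I .jac (.c 42762755 (.c 16 (.c 32 .nil))) (.b 40 (.b 24 .nil))))) (.node (.node (.I .jac (.c 42762755 (.c 16 (.c 40 .nil))) (.b 24 (.b 32 .nil))) (.I .jac (.c 42762755 (.c 16 (.c 24 .nil))) (.b 32 (.b 40 .nil)))) (.node (.I .jac (.c 18433 (.c 1324065993 (.c 32 .nil))) (.b 16 .nil)) (.I .jac (.c 18433 (.c 4673 (.c 40 .nil))) (.b 32 (.b 16 .nil)))))) (.node (.node (.node (.I .jac (.c 18433 (.c 8 (.c 24 .nil))) (.b 40 (.b 32 (.b 16 .nil)))) (.I .jac (.c 18433 (.c 21099075 (.c 32 .nil))) (.b 16 .nil))) (.node (.I .jac (.c 18433 (.c 8257 (.c 24 .nil))) (.b 40 (.b 16 .nil))) (.I .jac (.c 18433 (.c 8 (.c 32 .nil))) (.b 24 (.b 40 (.b 16 .nil)))))) (.node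 (.node (.I .jac (.c 18433 (.c 8 (.c 40 .nil))) (.b 32 (.b 16 (.b 24 .nil)))) (.I .jac (.c 18433 (.c 8 (.c 32 .nil))) (.b 40 (.b 16 (.b 24 .nil))))) (.node (.I .jac (.c 18433 (.c 21307459 (.c 16 .nil))) (.b 24 .nil)) (.I .jac (.c 18433 (.c 12865 (.c 16 .nil))) (.b 32 (.b 24 .nil))))))) (.node (.node (.node (.node (.I .jac (.c 18433 (.c 2113 (.c 40 .nil))) (.b 32 (.b 24 .nil))) (.I .jac (.c 18433 (.c 8 (.c 16 .nil))) (.b 40 (.b 32 (.b 24 .nil))))) (.node (.I .jac (.c 18433 (.c 8 (.c 32 .nil))) (.b 16 (.b 40 (.b 24 .nil)))) (.I .jac (.c 18433 (.c 2113 (.c 32 .nil))) (.b 40 (.b 24 .nil))))) (.node (.node (.I .jac (.c 18433 (.c 8 (.c 16 .nil))) (.b 32 (.b 40 (.b 24 .nil)))) (.I .jac (.c 18433 (.c 12865 (.c 24 .nil))) (.b 16 (.b 32 .nil)))) (.node (.I .jac (.c 18433 (.c 4673 (.c 40 .nil))) (.b 16 (.b 32 .nil))) (.I .jac (.c 18433 (.c 8 (.c 24 .nil))) (.b 40 (.b 16 (.b 32 .nil))))))) (.node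 (.node (.node (.I .jac (.c 18433 (.c 21099075 (.c 16 .nil))) (.b 32 .nil)) (.I .jac (.c 18433 (.c 8 (.c 40 .nil))) (.b 16 (.b 24 (.b 32 .nil))))) (.node (.I .jac (.c 18433 (.c 8 (.c 16 .nil))) (.b 40 (.b 24 (.b 32 .nil)))) (.I .jac (.c 18433 (.c 20891715 (.c 24 .nil))) (.b 32 .nil)))) (.node (.node (.I .jac (.c 18433 (.c 8 (.c 24 .nil))) (.b 16 (.b 40 (.b 32 .nil)))) (.I .jac (.c 18433 (.c 35718345 (.c 40 .nil))) (.b 32 .nil))) (.node (.I .jac (.c 18433 (.c 2113 (.c 24 .nil))) (.b 40 (.b 32 .nil))) (.I .jac (.c 18433 (.c 8 (.c 16 .nil))) (.b 24 (.b 40 (.b 32 .nil))))))))))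

noncomputable def c4_8 : Tr := (.node (.node (.node (.node (.node (.node (.I .jac (.c 18433 (.c 2803779 (.c 40 .nil))) (.b 32 .nil)) (.I .jac (.c 18433 (.c 8 (.c 40 .nil))) (.b 8786563 .nil))) (.node (.I .jac (.c 18433 (.c 545424585 (.c 16 .nil))) (.b 40 .nil)) (.I .jac (.c 18433 (.c 8257 (.c 24 .nil))) (.b 16 (.b 40 .nil))))) (.node (.node (.I .jac (.c 18433 (.c 8 (.c 32 .nil))) (.b 24 (.b 16 (.b 40 .nil)))) (.I .jac (.c 18433 (.c 4673 (.c 32 .nil))) (.b 16 (.b 40 .nil)))) (.node (.I .jac (.c 18433 (.c 8 (.c 24 .nil))) (.b 32 (.b 16 (.b 40 .nil)))) (.I .jac (.c 18433 (.c 8 (.c 32 .nil))) (.b 16 (.b 24 (.b 40 .nil))))))) (.node (.node (.node (.I .jac (.c 18433 (.c 35718409 (.c 24 .nil))) (.b 40 .nil)) (.I .jac (.c 18433 (.c 2113 (.c 32 .nil))) (.b 24 (.b 40 .nil)))) (.node (.I .jac (.c 18433 (.c 2113 (.c 24 .nil))) (.b 32 (.b 40 .nil))) (.I .jac (.c 18433 (.c 8 (.c 16 .nil))) (.b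 24 (.b 32 (.b 40 .nil)))))) (.node (.node (.I .jac (.c 18433 (.c 2803779 (.c 32 .nil))) (.b 40 .nil)) (.I .jac (.c 18433 (.c 8 (.c 8786563 .nil))) (.b 40 .nil))) (.node (.I .jac (.c 18433 (.c 8257 (.c 21099139 .nil))) .nil) (.I .jac (.c 18433 (.c 8 (.c 32 .nil))) (.b 21099139 .nil)))))) (.node (.node (.node (.node (.I .jac (.c 18433 (.c 8 (.c 24 .nil))) (.b 21307523 .nil)) (.I .jac (.c 18433 (.c 2113 (.c 21307587 .nil))) .nil)) (.node (.I .jac (.c 1512103191868961664028723725600700192521 (.c 8 (.c 48 .nil))) .nil) (.I .jac (.c 42576953795010656131941434981856024329 (.c 8 (.c 48 .nil))) .nil))) (.node (.node (.I .jac (.c 105533754468739142964158285779721 (.c 8 (.c 48 .nil))) .nil) (.I .jac (.c 101465489572723947598282130405129 (.c 8 (.c 48 .nil))) .nil)) (.node (.I .jac (.c 427057350195048793444981206822395657 (.c 8 (.c 48 .nil))) .nil) (.I .jac (.c 105537558360238163450942167246601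 (.c 8 (.c 48 .nil))) .nil)))) (.node (.node (.node (.I .jac (.c 1512103191868961649950570808237977416521 (.c 8 (.c 48 .nil))) .nil) (.I .jac (.c 97535117142651651247146700977993 (.c 8 (.c 48 .nil))) .nil)) (.node (.I .jac (.c 651596688508365770927126595477321 (.c 8 (.c 48 .nil))) .nil) (.I .jac (.c 2870101301550132088254642182985 (.c 8 (.c 48 .nil))) .nil))) (.node (.node (.I .jac (.c 105536290384975911038036627826505 (.c 8 (.c 48 .nil))) .nil) (.I .jac (.c 1512102896582526821614077026536761750409 (.c 8 (.c 48 .nil))) .nil)) (.node (.I .jac (.c 1512102601296135255437272766182275864457 (.c 8 (.c 48 .nil))) .nil) (.I .jac (.c 31637737730399577210905877385 (.c 8 (.c 48 .nil))) .nil)))))) (.node (.node (.node (.node (.node (.I .jac (.c 101467951811503808354312734910345 (.c 8 (.c 48 .nil))) .nil) (.I .jac (.c 617629514926161 (.c 8 (.c 48 .nil))) .nil)) (.node (.I .jac (.c 42576913200413533512397237570979656649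 (.c 8 (.c 48 .nil))) .nil) (.I .jac (.c 427057350195048083672236560419042249 (.c 8 (.c 48 .nil))) .nil))) (.node (.node (.I .jac (.c 2870101301548905401794626098121 (.c 8 (.c 48 .nil))) .nil) (.I .jac (.c 651591722123561355438909041458121 (.c 8 (.c 48 .nil))) .nil)) (.node (.I .jac (.c 3561389332396113 (.c 8 (.c 48 .nil))) .nil) (.I .jac (.c 3632084291201105 (.c 8 (.c 48 .nil))) .nil)))) (.node (.node (.node (.I .jac (.c 1512103191868961664028723725600700192457 (.c 16 (.c 48 .nil))) .nil) (.I .jac (.c 105533754468739142964158285779657 (.c 16 (.c 48 .nil))) .nil)) (.node (.I .jac (.c 427057993508084089288477468582296265 (.c 16 (.c 48 .nil))) .nil) (.I .jac (.c 101465489572723947598282130405065 (.c 16 (.c 48 .nil))) .nil))) (.node (.node (.I .jac (.c 42576913200413540599411453941751701193 (.c 16 (.c 48 .nil))) .nil) (.I .jac (.c 105537558360238163450942167246537 (.c 16 (.c 48 .nil)))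 .nil)) (.node (.I .jac (.c 42576953795010651407263038383993868105 (.c 16 (.c 48 .nil))) .nil) (.I .jac (.c 1512102306009786937337782324909974764361 (.c 16 (.c 48 .nil))) .nil))))) (.node (.node (.node (.node (.I .jac (.c 42576872605845448752433331259473583945 (.c 16 (.c 48 .nil))) .nil) (.I .jac (.c 105535022421139207878223746525001 (.c 16 (.c 48 .nil))) .nil)) (.node (.I .jac (.c 1512102896582526807535925483778566442889 (.c 16 (.c 48 .nil))) .nil) (.I .jac (.c 427057993508083379515198226665525129 (.c 16 (.c 48 .nil))) .nil))) (.node (.node (.I .jac (.c 101465489572713007142997112408969 (.c 16 (.c 48 .nil))) .nil) (.I .jac (.c 10063013877615402959898107785 (.c 16 (.c 48 .nil))) .nil)) (.node (.I .jac (.c 101466720686505037251115829520265 (.c 16 (.c 48 .nil))) .nil) (.I .jac (.c 427057350195047847081321678284722121 (.c 16 (.c 48 .nil))) .nil)))) (.node (.node (.node (.I .jac (.c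 42576872605845444027759439362436274121 (.c 16 (.c 48 .nil))) .nil) (.I .jac (.c 10064237432019585310071936969 (.c 16 (.c 48 .nil))) .nil)) (.node (.I .jac (.c 2698162480889597495046571987913 (.c 16 (.c 48 .nil))) .nil) (.I .jac (.c 427055420260302801104238302686362569 (.c 16 (.c 48 .nil))) .nil))) (.node (.node (.I .jac (.c 10063013877579085204530183113 (.c 16 (.c 48 .nil))) .nil) (.I .jac (.c 28374916743751823483031730121 (.c 16 (.c 48 .nil))) .nil)) (.node (.I .jac (.c 3561367726910545 (.c 16 (.c 48 .nil))) .nil) (.I .jac (.c 3632062472330321 (.c 16 (.c 48 .nil))) .nil)))))))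

noncomputable def c4_9 : Tr := (.node (.node (.node (.node (.node (.node (.I .jac (.c 13748196208362033993 (.c 18497 (.c 16 .nil))) .nil) (.I .jac (.c 13748196208362033993 (.c 8 (.c 48 .nil))) (.b 16 .nil))) (.node (.I .jac (.c 13748196208362033993 (.c 8 (.c 16 .nil))) (.b 48 .nil)) (.I .jac (.c 2306971873338799945 (.c 18497 (.c 16 .nil))) .nil))) (.node (.node (.I .jac (.c 2306971873338799945 (.c 8 (.c 48 .nil))) (.b 16 .nil)) (.I .jac (.c 2306971873338799945 (.c 8 (.c 16 .nil))) (.b 48 .nil))) (.node (.I .jac (.c 3632040653488393 (.c 8 (.c 16 .nil))) (.b 48 .nil)) (.I .jac (.c 13748194865974800265 (.c 18497 (.c 16 .nil))) .nil)))) (.node (.node (.node (.I .jac (.c 13748194865974800265 (.c 8 (.c 48 .nil))) (.b 16 .nil)) (.I .jac (.c 13748194865974800265 (.c 2113 (.c 48 .nil))) .nil)) (.node (.I .jac (.c 231045989336561545 (.c 18497 (.c 16 .nil))) .nil) (.I .jac (.c 231045989336561545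 (.c 8 (.c 48 .nil))) (.b 16 .nil)))) (.node (.node (.I .jac (.c 231045989336561545 (.c 2113 (.c 48 .nil))) .nil) (.I .jac (.c 3561346121425225 (.c 18497 (.c 16 .nil))) .nil)) (.node (.I .jac (.c 3561346121425225 (.c 8 (.c 48 .nil))) (.b 16 .nil)) (.I .jac (.c 2306970773558194121 (.c 18497 (.c 16 .nil))) .nil))))) (.node (.node (.node (.node (.I .jac (.c 231045815314584521 (.c 18497 (.c 16 .nil))) .nil) (.I .jac (.c 231045815314584521 (.c 2113 (.c 48 .nil))) .nil)) (.node (.I .jac (.c 231045815314584521 (.c 8 (.c 16 .nil))) (.b 48 .nil)) (.I .jac (.c 617611520074121 (.c 8 (.c 48 .nil))) (.b 16 .nil)))) (.node (.node (.I .jac (.c 617611520074121 (.c 2113 (.c 48 .nil))) .nil) (.I .jac (.c 3632106110100553 (.c 8 (.c 48 .nil))) (.b 16 .nil))) (.node (.I .jac (.c 3632106110100553 (.c 2113 (.c 48 .nil))) .nil) (.I .jac (.c 3632106110100553 (.c 8 (.c 16 .nil))) (.b 48 .nil))))) (.node (.node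 (.node (.I .jac (.c 1512102601296135269515422934336011008713 (.c 24 (.c 48 .nil))) .nil) (.I .jac (.c 651601654921541717468315286321865 (.c 24 (.c 48 .nil))) .nil)) (.node (.I .jac (.c 651596688508365770927126595477193 (.c 24 (.c 48 .nil))) .nil) (.I .jac (.c 105536290384975911038036627826377 (.c 24 (.c 48 .nil))) .nil))) (.node (.node (.I .jac (.c 1512103191868961635872417890875254705929 (.c 24 (.c 48 .nil))) .nil) (.I .jac (.c 42576953795010651407263038383993868041 (.c 24 (.c 48 .nil))) .nil)) (.node (.I .jac (.c 1512102306009786937337782324909974764297 (.c 24 (.c 48 .nil))) .nil) (.I .jac (.c 93738611484293500497757600954121 (.c 24 (.c 48 .nil))) .nil)))))) (.node (.node (.node (.node (.node (.I .jac (.c 42576872605845448752433331259473583881 (.c 24 (.c 48 .nil))) .nil) (.I .jac (.c 2698162480890786870601550715657 (.c 24 (.c 48 .nil))) .nil)) (.node (.I .jac (.c 105535022421139207878223746524937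 (.c 24 (.c 48 .nil))) .nil) (.I .jac (.c 10065461098035008044835206025 (.c 24 (.c 48 .nil))) .nil))) (.node (.node (.I .jac (.c 93738611484286490074864659656585 (.c 24 (.c 48 .nil))) .nil) (.I .jac (.c 651581789439149858614694249422729 (.c 24 (.c 48 .nil))) .nil)) (.node (.I .jac (.c 10061790434706725190145613705 (.c 24 (.c 48 .nil))) .nil) (.I .jac (.c 42576872605845441665422493413917717449 (.c 24 (.c 48 .nil))) .nil)))) (.node (.node (.node (.I .jac (.c 10064237431983265346846634953 (.c 24 (.c 48 .nil))) .nil) (.I .jac (.c 10061790434670409642568088521 (.c 24 (.c 48 .nil))) .nil)) (.node (.I .jac (.c 2870186216699415475033029961673 (.c 24 (.c 48 .nil))) .nil) (.I .jac (.c 3491710045195345 (.c 24 (.c 48 .nil))) .nil))) (.node (.node (.I .jac (.c 3632062472309841 (.c 24 (.c 48 .nil))) .nil) (.I .jac (.c 3632084291168337 (.c 24 (.c 48 .nil))) .nil)) (.node (.I .jac (.c 13748196208362033929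 (.c 4673 (.c 48 .nil))) .nil) (.I .jac (.c 13748196208362033929 (.c 8 (.c 24 .nil))) (.b 48 .nil)))))) (.node (.node (.node (.node (.I .jac (.c 2306971873338799881 (.c 18497 (.c 24 .nil))) .nil) (.I .jac (.c 2306971873338799881 (.c 8 (.c 48 .nil))) (.b 24 .nil))) (.node (.I .jac (.c 2306971873338799881 (.c 4673 (.c 48 .nil))) .nil) (.I .jac (.c 3632040653488329 (.c 4673 (.c 48 .nil))) .nil))) (.node (.node (.I .jac (.c 13748193523587632009 (.c 4673 (.c 48 .nil))) .nil) (.I .jac (.c 9024976834606985 (.c 18497 (.c 24 .nil))) .nil)) (.node (.I .jac (.c 3491688652046665 (.c 4673 (.c 48 .nil))) .nil) (.I .jac (.c 3491688652046665 (.c 8 (.c 24 .nil))) (.b 48 .nil))))) (.node (.node (.node (.I .jac (.c 2306970223667989449 (.c 18497 (.c 24 .nil))) .nil) (.I .jac (.c 2306970223667989449 (.c 8 (.c 48 .nil))) (.b 24 .nil))) (.node (.I .jac (.c 9024942441010121 (.c 8 (.c 48 .nil))) (.b 24 .nil))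 (.I .jac (.c 9024942441010121 (.c 4673 (.c 48 .nil))) .nil))) (.node (.node (.I .jac (.c 9024942441010121 (.c 8 (.c 24 .nil))) (.b 48 .nil)) (.I .jac (.c 598967998054793 (.c 8 (.c 48 .nil))) (.b 24 .nil))) (.node (.I .jac (.c 3632084291164233 (.c 8 (.c 48 .nil))) (.b 24 .nil)) (.I .jac (.c 3632084291164233 (.c 8 (.c 24 .nil))) (.b 48 .nil))))))))

noncomputable def c4_10 : Tr := (.node (.node (.node (.node (.node (.node (.I .jac (.c 13748196208362033865 (.c 18561 (.c 24 .nil))) .nil) (.I .jac (.c 13748196208362033865 (.c 16 (.c 24 .nil))) (.b 48 .nil))) (.node (.I .jac (.c 2306971873338799817 (.c 4737 (.c 48 .nil))) .nil) (.I .jac (.c 13748192181200529289 (.c 16 (.c 48 .nil))) (.b 24 .nil)))) (.node (.node (.I .jac (.c 35470870263689 (.c 16 (.c 48 .nil))) (.b 24 .nil)) (.I .jac (.c 3423058053194057 (.c 18561 (.c 24 .nil))) .nil)) (.node (.I .jac (.c 2306969673777850313 (.c 18561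 (.c 24 .nil))) .nil) (.I .jac (.c 2306969673777850313 (.c 16 (.c 48 .nil))) (.b 24 .nil))))) (.node (.node (.node (.I .jac (.c 35468714087369 (.c 4737 (.c 48 .nil))) .nil) (.I .jac (.c 35468714087369 (.c 16 (.c 24 .nil))) (.b 48 .nil))) (.node (.I .jac (.c 580749782704521 (.c 16 (.c 48 .nil))) (.b 24 .nil)) (.I .jac (.c 3632062472293449 (.c 16 (.c 48 .nil))) (.b 24 .nil)))) (.node (.node (.I .jac (.c 3632062472293449 (.c 16 (.c 24 .nil))) (.b 48 .nil)) (.I .jac (.c 1310925065 (.c 2737112265 (.c 16 .nil))) .nil)) (.node (.I .jac (.c 1310925065 (.c 8 (.c 48 .nil))) (.b 24 (.b 16 .nil))) (.I .jac (.c 1310925065 (.c 174695817 (.c 16 .nil))) .nil))))) (.node (.node (.node (.node (.I .jac (.c 1310925065 (.c 4673 (.c 48 .nil))) (.b 16 .nil)) (.I .jac (.c 1310925065 (.c 8 (.c 24 .nil))) (.b 48 (.b 16 .nil)))) (.node (.I .jac (.c 1310925065 (.c 18497 (.c 16 .nil))) (.b 24 .nil)) (.I .jac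 (.c 1310925065 (.c 35718537 (.c 24 .nil))) .nil))) (.node (.node (.I .jac (.c 1310925065 (.c 2113 (.c 48 .nil))) (.b 24 .nil)) (.I .jac (.c 1310925065 (.c 4673 (.c 16 .nil))) (.b 48 .nil))) (.node (.I .jac (.c 1310925065 (.c 8 (.c 16 .nil))) (.b 24 (.b 48 .nil))) (.I .jac (.c 1310925065 (.c 2803779 (.c 48 .nil))) .nil)))) (.node (.node (.node (.I .jac (.c 537002313 (.c 2737112265 (.c 16 .nil))) .nil) (.I .jac (.c 537002313 (.c 35718537 (.c 24 .nil))) .nil)) (.node (.I .jac (.c 537002313 (.c 8 (.c 16 .nil))) (.b 48 (.b 24 .nil))) (.I .jac (.c 537002313 (.c 8 (.c 24 .nil))) (.b 16 (.b 48 .nil))))) (.node (.node (.I .jac (.c 537002313 (.c 2803779 (.c 48 .nil))) .nil) (.I .jac (.c 21307395 (.c 8 (.c 48 .nil))) (.b 24 (.b 16 .nil)))) (.node (.I .jac (.c 21307395 (.c 8 (.c 24 .nil))) (.b 48 (.b 16 .nil))) (.I .jac (.c 427057993508083616106291307304383177 (.c 32 (.c 48 .nil))) .nil))))))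 (.node (.node (.node (.node (.node (.I .jac (.c 97535117142648075757967005225673 (.c 32 (.c 48 .nil))) .nil) (.I .jac (.c 427056063571158149899930723770113737 (.c 32 (.c 48 .nil))) .nil)) (.node (.I .jac (.c 101467951811503808354312734910153 (.c 32 (.c 48 .nil))) .nil) (.I .jac (.c 1512102896582526807535925483778566442761 (.c 32 (.c 48 .nil))) .nil))) (.node (.node (.I .jac (.c 101465489572713007142997112408841 (.c 32 (.c 48 .nil))) .nil) (.I .jac (.c 1512102306009786923259633531360632805129 (.c 32 (.c 48 .nil))) .nil)) (.node (.I .jac (.c 10065461098071330215985125129 (.c 32 (.c 48 .nil))) .nil) (.I .jac (.c 93738611484289995286311130272521 (.c 32 (.c 48 .nil))) .nil)))) (.node (.node (.node (.I .jac (.c 28374916743812808375320238857 (.c 32 (.c 48 .nil))) .nil) (.I .jac (.c 101466720686505037251115829520137 (.c 32 (.c 48 .nil))) .nil)) (.node (.I .jac (.c 1512102601296135227280972429874805772105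 (.c 32 (.c 48 .nil))) .nil) (.I .jac (.c 651601654921513992739479373958985 (.c 32 (.c 48 .nil))) .nil))) (.node (.node (.I .jac (.c 1512102306009786909181484737811290911561 (.c 32 (.c 48 .nil))) .nil) (.I .jac (.c 93738611484286490074864659656521 (.c 32 (.c 48 .nil))) .nil)) (.node (.I .jac (.c 651581789439149858614694249422665 (.c 32 (.c 48 .nil))) .nil) (.I .jac (.c 62889413549137 (.c 32 (.c 48 .nil))) .nil))))) (.node (.node (.node (.node (.I .jac (.c 427056063571157203537696782463438793 (.c 32 (.c 48 .nil))) .nil) (.I .jac (.c 28374916743629853698454908873 (.c 32 (.c 48 .nil))) .nil)) (.node (.I .jac (.c 49484669137443443691131849 (.c 32 (.c 48 .nil))) .nil) (.I .jac (.c 31640626589388946877766395849 (.c 32 (.c 48 .nil))) .nil))) (.node (.node (.I .jac (.c 3491710045166673 (.c 32 (.c 48 .nil))) .nil) (.I .jac (.c 3561367726861393 (.c 32 (.c 48 .nil))) .nil)) (.node (.I .jac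 (.c 3561389332334673 (.c 32 (.c 48 .nil))) .nil) (.I .jac (.c 13748194865974800137 (.c 18497 (.c 32 .nil))) .nil)))) (.node (.node (.node (.I .jac (.c 13748194865974800137 (.c 8 (.c 48 .nil))) (.b 32 .nil)) (.I .jac (.c 13748194865974800137 (.c 8 (.c 32 .nil))) (.b 48 .nil))) (.node (.I .jac (.c 231045989336561417 (.c 8 (.c 48 .nil))) (.b 32 .nil)) (.I .jac (.c 3561346121425097 (.c 18497 (.c 32 .nil))) .nil))) (.node (.node (.I .jac (.c 3561346121425097 (.c 8 (.c 48 .nil))) (.b 32 .nil)) (.I .jac (.c 3561346121425097 (.c 8 (.c 32 .nil))) (.b 48 .nil))) (.node (.I .jac (.c 13748193523587631945 (.c 18497 (.c 32 .nil))) .nil) (.I .jac (.c 13748193523587631945 (.c 8257 (.c 48 .nil))) .nil)))))))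

noncomputable def c4_11 : Tr := (.node (.node (.node (.node (.node (.node (.I .jac (.c 13748193523587631945 (.c 8 (.c 32 .nil))) (.b 48 .nil)) (.I .jac (.c 9024976834606921 (.c 18497 (.c 32 .nil))) .nil)) (.node (.I .jac (.c 9024976834606921 (.c 8 (.c 48 .nil))) (.b 32 .nil)) (.I .jac (.c 9024976834606921 (.c 8257 (.c 48 .nil))) .nil))) (.node (.node (.I .jac (.c 3491688652046601 (.c 8 (.c 48 .nil))) (.b 32 .nil)) (.I .jac (.c 231045467270826953 (.c 8257 (.c 48 .nil))) .nil)) (.node (.I .jac (.c 9024908047478729 (.c 18497 (.c 32 .nil))) .nil) (.I .jac (.c 62886542410121 (.c 8257 (.c 48 .nil))) .nil)))) (.node (.node (.node (.I .jac (.c 62886542410121 (.c 8 (.c 32 .nil))) (.b 48 .nil)) (.I .jac (.c 3561389332330569 (.c 8 (.c 48 .nil))) (.b 32 .nil))) (.node (.I .jac (.c 3561389332330569 (.c 8257 (.c 48 .nil))) .nil) (.I .jac (.c 3561389332330569 (.c 8 (.c 32 .nil))) (.b 48 .nil))))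 (.node (.node (.I .jac (.c 13748194865974800073 (.c 8321 (.c 48 .nil))) .nil) (.I .jac (.c 231045989336561353 (.c 18561 (.c 32 .nil))) .nil)) (.node (.I .jac (.c 3561346121425033 (.c 16 (.c 48 .nil))) (.b 32 .nil)) (.I .jac (.c 13748192181200529225 (.c 18561 (.c 32 .nil))) .nil))))) (.node (.node (.node (.node (.I .jac (.c 13748192181200529225 (.c 16 (.c 32 .nil))) (.b 48 .nil)) (.I .jac (.c 35470870263625 (.c 18561 (.c 32 .nil))) .nil)) (.node (.I .jac (.c 35470870263625 (.c 16 (.c 48 .nil))) (.b 32 .nil)) (.I .jac (.c 35470870263625 (.c 8321 (.c 48 .nil))) .nil))) (.node (.node (.I .jac (.c 3423058053193993 (.c 18561 (.c 32 .nil))) .nil) (.I .jac (.c 3423058053193993 (.c 16 (.c 48 .nil))) (.b 32 .nil))) (.node (.I .jac (.c 231045293249046473 (.c 18561 (.c 32 .nil))) .nil) (.I .jac (.c 231045293249046473 (.c 8321 (.c 48 .nil))) .nil)))) (.node (.node (.node (.I .jac (.c 231045293249046473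 (.c 16 (.c 32 .nil))) (.b 48 .nil)) (.I .jac (.c 35466557976521 (.c 18561 (.c 32 .nil))) .nil)) (.node (.I .jac (.c 35466557976521 (.c 16 (.c 48 .nil))) (.b 32 .nil)) (.I .jac (.c 35466557976521 (.c 8321 (.c 48 .nil))) .nil))) (.node (.node (.I .jac (.c 59555558875529 (.c 18561 (.c 32 .nil))) .nil) (.I .jac (.c 59555558875529 (.c 16 (.c 48 .nil))) (.b 32 .nil))) (.node (.I .jac (.c 3561367726845001 (.c 16 (.c 48 .nil))) (.b 32 .nil)) (.I .jac (.c 3561367726845001 (.c 16 (.c 32 .nil))) (.b 48 .nil))))))) (.node (.node (.node (.node (.node (.I .jac (.c 1310925001 (.c 18497 (.c 32 .nil))) (.b 16 .nil)) (.I .jac (.c 1310925001 (.c 8 (.c 48 .nil))) (.b 32 (.b 16 .nil)))) (.node (.I .jac (.c 1310925001 (.c 8 (.c 32 .nil))) (.b 48 (.b 16 .nil))) (.I .jac (.c 1310925001 (.c 8 (.c 48 .nil))) (.b 16 (.b 32 .nil))))) (.node (.node (.I .jac (.c 1310925001 (.c 8 (.c 16 .nil))) (.b 48 (.b 32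 .nil))) (.I .jac (.c 1310925001 (.c 8257 (.c 16 .nil))) (.b 48 .nil))) (.node (.I .jac (.c 1310925001 (.c 2113 (.c 32 .nil))) (.b 48 .nil)) (.I .jac (.c 1310925001 (.c 8 (.c 16 .nil))) (.b 32 (.b 48 .nil)))))) (.node (.node (.node (.I .jac (.c 169943369 (.c 2737112329 (.c 16 .nil))) .nil) (.I .jac (.c 169943369 (.c 18497 (.c 32 .nil))) (.b 16 .nil))) (.node (.I .jac (.c 169943369 (.c 545424777 (.c 16 .nil))) .nil) (.I .jac (.c 169943369 (.c 8 (.c 32 .nil))) (.b 48 (.b 16 .nil))))) (.node (.node (.I .jac (.c 169943369 (.c 43655235 (.c 16 .nil))) .nil) (.I .jac (.c 169943369 (.c 8 (.c 48 .nil))) (.b 16 (.b 32 .nil)))) (.node (.I .jac (.c 169943369 (.c 35718537 (.c 32 .nil))) .nil) (.I .jac (.c 169943369 (.c 2113 (.c 48 .nil))) (.b 32 .nil)))))) (.node (.node (.node (.node (.I .jac (.c 169943369 (.c 8 (.c 16 .nil))) (.b 48 (.b 32 .nil))) (.I .jac (.c 169943369 (.c 43059267 (.c 32 .nil)))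 .nil)) (.node (.I .jac (.c 169943369 (.c 8 (.c 32 .nil))) (.b 16 (.b 48 .nil))) (.I .jac (.c 169943369 (.c 2113 (.c 32 .nil))) (.b 48 .nil)))) (.node (.node (.I .jac (.c 169943369 (.c 8 (.c 16 .nil))) (.b 32 (.b 48 .nil))) (.I .jac (.c 169943369 (.c 8652867 (.c 48 .nil))) .nil)) (.node (.I .jac (.c 169943369 (.c 8 (.c 43655299 .nil))) .nil) (.I .jac (.c 21099011 (.c 8 (.c 48 .nil))) (.b 32 (.b 16 .nil)))))) (.node (.node (.node (.I .jac (.c 21099011 (.c 8257 (.c 48 .nil))) (.b 16 .nil)) (.I .jac (.c 21099011 (.c 2113 (.c 48 .nil))) (.b 32 .nil))) (.node (.I .jac (.c 21099011 (.c 8 (.c 16 .nil))) (.b 48 (.b 32 .nil))) (.I .jac (.c 21099011 (.c 8257 (.c 16 .nil))) (.b 48 .nil)))) (.node (.node (.I .jac (.c 21099011 (.c 8 (.c 32 .nil))) (.b 16 (.b 48 .nil))) (.I .jac (.c 21099011 (.c 8 (.c 16 .nil))) (.b 32 (.b 48 .nil)))) (.node (.I .jac (.c 9024976834606793 (.c 24 (.c 48 .nil)))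 (.b 32 .nil)) (.I .jac (.c 9024976834606793 (.c 24 (.c 32 .nil))) (.b 48 .nil))))))))

noncomputable def c4_12 : Tr := (.node (.node (.node (.node (.node (.node (.I .jac (.c 3491688652046473 (.c 24 (.c 48 .nil))) (.b 32 .nil)) (.I .jac (.c 3491688652046473 (.c 24 (.c 32 .nil))) (.b 48 .nil))) (.node (.I .jac (.c 13748192181200529161 (.c 24 (.c 48 .nil))) (.b 32 .nil)) (.I .jac (.c 13748192181200529161 (.c 24 (.c 32 .nil))) (.b 48 .nil)))) (.node (.node (.I .jac (.c 35470870263561 (.c 24 (.c 48 .nil))) (.b 32 .nil)) (.I .jac (.c 35470870263561 (.c 24 (.c 32 .nil))) (.b 48 .nil))) (.node (.I .jac (.c 3423058053193929 (.c 24 (.c 48 .nil))) (.b 32 .nil)) (.I .jac (.c 9024839260612553 (.c 24 (.c 48 .nil))) (.b 32 .nil))))) (.node (.node (.node (.I .jac (.c 9024839260612553 (.c 24 (.c 32 .nil))) (.b 48 .nil)) (.I .jac (.c 2487083360649 (.c 24 (.c 32 .nil))) (.b 48 .nil))) (.node (.I .jac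 (.c 1310924937 (.c 8 (.c 48 .nil))) (.b 32 (.b 24 .nil))) (.I .jac (.c 1310924937 (.c 545424777 (.c 24 .nil))) .nil))) (.node (.node (.I .jac (.c 1310924937 (.c 43655235 (.c 24 .nil))) .nil) (.I .jac (.c 1310924937 (.c 2737112265 (.c 32 .nil))) .nil)) (.node (.I .jac (.c 1310924937 (.c 18497 (.c 24 .nil))) (.b 32 .nil)) (.I .jac (.c 1310924937 (.c 174695817 (.c 32 .nil))) .nil))))) (.node (.node (.node (.node (.I .jac (.c 1310924937 (.c 4673 (.c 48 .nil))) (.b 32 .nil)) (.I .jac (.c 1310924937 (.c 8 (.c 32 .nil))) (.b 24 (.b 48 .nil)))) (.node (.I .jac (.c 1310924937 (.c 4673 (.c 32 .nil))) (.b 48 .nil)) (.I .jac (.c 1310924937 (.c 8 (.c 24 .nil))) (.b 32 (.b 48 .nil))))) (.node (.node (.I .jac (.c 33587529 (.c 8 (.c 48 .nil))) (.b 32 (.b 24 .nil))) (.I .jac (.c 33587529 (.c 8257 (.c 48 .nil))) (.b 24 .nil))) (.node (.I .jac (.c 33587529 (.c 8 (.c 32 .nil))) (.b 48 (.b 24 .nil)))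 (.I .jac (.c 33587529 (.c 2737112265 (.c 32 .nil))) .nil)))) (.node (.node (.node (.I .jac (.c 33587529 (.c 18497 (.c 24 .nil))) (.b 32 .nil)) (.I .jac (.c 33587529 (.c 174695817 (.c 32 .nil))) .nil)) (.node (.I .jac (.c 33587529 (.c 4673 (.c 48 .nil))) (.b 32 .nil)) (.I .jac (.c 33587529 (.c 43356739 (.c 32 .nil))) .nil))) (.node (.node (.I .jac (.c 33587529 (.c 545424585 (.c 48 .nil))) .nil) (.I .jac (.c 33587529 (.c 8257 (.c 24 .nil))) (.b 48 .nil))) (.node (.I .jac (.c 33587529 (.c 8 (.c 32 .nil))) (.b 24 (.b 48 .nil))) (.I .jac (.c 33587529 (.c 8786499 (.c 48 .nil))) .nil)))))) (.node (.node (.node (.node (.node (.I .jac (.c 20891651 (.c 8257 (.c 48 .nil))) (.b 24 .nil)) (.I .jac (.c 20891651 (.c 4673 (.c 48 .nil))) (.b 32 .nil))) (.node (.I .jac (.c 20891651 (.c 8 (.c 32 .nil))) (.b 24 (.b 48 .nil))) (.I .jac (.c 20891651 (.c 8 (.c 24 .nil))) (.b 32 (.b 48 .nil))))) (.node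 (.node (.I .jac (.c 1310924873 (.c 16 (.c 48 .nil))) (.b 32 (.b 24 .nil))) (.I .jac (.c 1310924873 (.c 16 (.c 32 .nil))) (.b 48 (.b 24 .nil)))) (.node (.I .jac (.c 1310924873 (.c 16 (.c 48 .nil))) (.b 24 (.b 32 .nil))) (.I .jac (.c 1310924873 (.c 16 (.c 24 .nil))) (.b 48 (.b 32 .nil)))))) (.node (.node (.node (.I .jac (.c 1310924873 (.c 8786563 (.c 48 .nil))) .nil) (.I .jac (.c 1310924873 (.c 16 (.c 43655363 .nil))) .nil)) (.node (.I .jac (.c 2105673 (.c 18561 (.c 32 .nil))) (.b 24 .nil)) (.I .jac (.c 2105673 (.c 16 (.c 48 .nil))) (.b 32 (.b 24 .nil))))) (.node (.node (.I .jac (.c 2105673 (.c 16 (.c 32 .nil))) (.b 48 (.b 24 .nil))) (.I .jac (.c 2105673 (.c 43655299 (.c 24 .nil))) .nil)) (.node (.I .jac (.c 2105673 (.c 16 (.c 24 .nil))) (.b 48 (.b 32 .nil))) (.I .jac (.c 2105673 (.c 8321 (.c 24 .nil))) (.b 48 .nil)))))) (.node (.node (.node (.node (.I .jac (.c 2105673 (.c 4737 (.c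 32 .nil))) (.b 48 .nil)) (.I .jac (.c 2105673 (.c 16 (.c 24 .nil))) (.b 32 (.b 48 .nil)))) (.node (.I .jac (.c 2105673 (.c 8786563 (.c 48 .nil))) .nil) (.I .jac (.c 2105673 (.c 16 (.c 43655363 .nil))) .nil))) (.node (.node (.I .jac (.c 20685315 (.c 16 (.c 48 .nil))) (.b 32 (.b 24 .nil))) (.I .jac (.c 20685315 (.c 16 (.c 32 .nil))) (.b 48 (.b 24 .nil)))) (.node (.I .jac (.c 20685315 (.c 16 (.c 48 .nil))) (.b 24 (.b 32 .nil))) (.I .jac (.c 20685315 (.c 16 (.c 24 .nil))) (.b 48 (.b 32 .nil)))))) (.node (.node (.node (.I .jac (.c 20685315 (.c 16 (.c 32 .nil))) (.b 24 (.b 48 .nil))) (.I .jac (.c 20685315 (.c 16 (.c 24 .nil))) (.b 32 (.b 48 .nil)))) (.node (.I .jac (.c 12801 (.c 4673 (.c 48 .nil))) (.b 32 (.b 16 .nil))) (.I .jac (.c 12801 (.c 8 (.c 24 .nil))) (.b 48 (.b 32 (.b 16 .nil)))))) (.node (.node (.I .jac (.c 12801 (.c 15038454533713225 (.c 16 .nil))) .nil) (.I .jac (.c 12801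 (.c 8257 (.c 24 .nil))) (.b 48 (.b 16 .nil)))) (.node (.I .jac (.c 12801 (.c 617620517416393 (.c 16 .nil))) .nil) (.I .jac (.c 12801 (.c 15246325749294217 (.c 16 .nil))) .nil)))))))

noncomputable def c4_13 : Tr := (.node (.node (.node (.node (.node (.node (.I .jac (.c 12801 (.c 8 (.c 48 .nil))) (.b 32 (.b 16 (.b 24 .nil)))) (.I .jac (.c 12801 (.c 545424777 (.c 16 .nil))) (.b 24 .nil))) (.node (.I .jac (.c 12801 (.c 8257 (.c 48 .nil))) (.b 16 (.b 24 .nil))) (.I .jac (.c 12801 (.c 8 (.c 32 .nil))) (.b 48 (.b 16 (.b 24 .nil)))))) (.node (.node (.I .jac (.c 12801 (.c 15246236343241929 (.c 24 .nil))) .nil) (.I .jac (.c 12801 (.c 43655235 (.c 16 .nil))) (.b 24 .nil))) (.node (.I .jac (.c 12801 (.c 2737112201 (.c 32 .nil))) (.b 24 .nil)) (.I .jac (.c 12801 (.c 18497 (.c 16 .nil))) (.b 32 (.b 24 .nil)))))) (.node (.node (.node (.I .jac (.c 12801 (.c 35718537 (.c 32 .nil))) (.b 24 .nil))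 (.I .jac (.c 12801 (.c 43059267 (.c 32 .nil))) (.b 24 .nil))) (.node (.I .jac (.c 12801 (.c 2113 (.c 32 .nil))) (.b 48 (.b 24 .nil))) (.I .jac (.c 12801 (.c 8 (.c 16 .nil))) (.b 32 (.b 48 (.b 24 .nil)))))) (.node (.node (.I .jac (.c 12801 (.c 598976858557897 (.c 24 .nil))) .nil) (.I .jac (.c 12801 (.c 8 (.c 48 .nil))) (.b 24 (.b 16 (.b 32 .nil))))) (.node (.I .jac (.c 12801 (.c 4673 (.c 48 .nil))) (.b 16 (.b 32 .nil))) (.I .jac (.c 12801 (.c 8 (.c 24 .nil))) (.b 48 (.b 16 (.b 32 .nil)))))))) (.node (.node (.node (.node (.I .jac (.c 12801 (.c 15038454533713097 (.c 32 .nil))) .nil) (.I .jac (.c 12801 (.c 43356739 (.c 16 .nil))) (.b 32 .nil))) (.node (.I .jac (.c 12801 (.c 8 (.c 48 .nil))) (.b 16 (.b 24 (.b 32 .nil)))) (.I .jac (.c 12801 (.c 43059267 (.c 24 .nil))) (.b 32 .nil)))) (.node (.node (.I .jac (.c 12801 (.c 4673 (.c 16 .nil))) (.b 48 (.b 32 .nil))) (.I .jac (.c 12801 (.c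 35718345 (.c 48 .nil))) (.b 32 .nil))) (.node (.I .jac (.c 12801 (.c 2113 (.c 24 .nil))) (.b 48 (.b 32 .nil))) (.I .jac (.c 12801 (.c 8 (.c 16 .nil))) (.b 24 (.b 48 (.b 32 .nil))))))) (.node (.node (.node (.I .jac (.c 12801 (.c 2803779 (.c 48 .nil))) (.b 32 .nil)) (.I .jac (.c 12801 (.c 8 (.c 48 .nil))) (.b 8786563 .nil))) (.node (.I .jac (.c 12801 (.c 8257 (.c 24 .nil))) (.b 16 (.b 48 .nil))) (.I .jac (.c 12801 (.c 8 (.c 32 .nil))) (.b 24 (.b 16 (.b 48 .nil)))))) (.node (.node (.I .jac (.c 12801 (.c 4673 (.c 32 .nil))) (.b 16 (.b 48 .nil))) (.I .jac (.c 12801 (.c 8 (.c 24 .nil))) (.b 32 (.b 16 (.b 48 .nil))))) (.node (.I .jac (.c 12801 (.c 545424521 (.c 24 .nil))) (.b 48 .nil)) (.I .jac (.c 12801 (.c 8257 (.c 16 .nil))) (.b 24 (.b 48 .nil)))))))) (.node (.node (.node (.node (.node (.I .jac (.c 12801 (.c 8 (.c 32 .nil))) (.b 16 (.b 24 (.b 48 .nil)))) (.I .jac (.c 12801 (.c 35718409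 (.c 24 .nil))) (.b 48 .nil))) (.node (.I .jac (.c 12801 (.c 2113 (.c 32 .nil))) (.b 24 (.b 48 .nil))) (.I .jac (.c 12801 (.c 8 (.c 16 .nil))) (.b 32 (.b 24 (.b 48 .nil)))))) (.node (.node (.I .jac (.c 12801 (.c 4673 (.c 43655299 .nil))) .nil) (.I .jac (.c 12801 (.c 8 (.c 16 .nil))) (.b 43655363 .nil))) (.node (.I .jac (.c 42576913200413533512397237570979656393 (.c 40 (.c 48 .nil))) .nil) (.I .jac (.c 651596688508347287845007406880457 (.c 40 (.c 48 .nil))) .nil)))) (.node (.node (.node (.I .jac (.c 31637737730335181391477946057 (.c 40 (.c 48 .nil))) .nil) (.I .jac (.c 42576913200413531150059165447389105929 (.c 40 (.c 48 .nil))) .nil)) (.node (.I .jac (.c 10064237432019585310071936777 (.c 40 (.c 48 .nil))) .nil) (.I .jac (.c 427055420260302801104238302686362377 (.c 40 (.c 48 .nil))) .nil))) (.node (.node (.I .jac (.c 10063013877579085204530182921 (.c 40 (.c 48 .nil))) .nil) (.I .jac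 (.c 42576892903125856676158477119718330185 (.c 40 (.c 48 .nil))) .nil)) (.node (.I .jac (.c 10064237431983265346846634825 (.c 40 (.c 48 .nil))) .nil) (.I .jac (.c 2870186216699415475033029961545 (.c 40 (.c 48 .nil))) .nil))))) (.node (.node (.node (.node (.I .jac (.c 62889413512273 (.c 40 (.c 48 .nil))) .nil) (.I .jac (.c 10063013877506449693794530185 (.c 40 (.c 48 .nil))) .nil)) (.node (.I .jac (.c 28374916743629853698454908809 (.c 40 (.c 48 .nil))) .nil) (.I .jac (.c 49484669137443443691131785 (.c 40 (.c 48 .nil))) .nil))) (.node (.node (.I .jac (.c 31640626589388946877766395785 (.c 40 (.c 48 .nil))) .nil) (.I .jac (.c 617629514827857 (.c 40 (.c 48 .nil))) .nil)) (.node (.I .jac (.c 2306970773558193929 (.c 8 (.c 48 .nil))) (.b 40 .nil)) (.I .jac (.c 2306970773558193929 (.c 8 (.c 40 .nil))) (.b 48 .nil))))) (.node (.node (.node (.I .jac (.c 231045815314584329 (.c 8 (.c 48 .nil)))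 (.b 40 .nil)) (.I .jac (.c 231045815314584329 (.c 8 (.c 40 .nil))) (.b 48 .nil))) (.node (.I .jac (.c 617611520073929 (.c 8 (.c 48 .nil))) (.b 40 .nil)) (.I .jac (.c 2306970223667989321 (.c 12865 (.c 48 .nil))) .nil))) (.node (.node (.I .jac (.c 9024942441009993 (.c 18497 (.c 40 .nil))) .nil) (.I .jac (.c 598967998054665 (.c 8 (.c 48 .nil))) (.b 40 .nil))) (.node (.I .jac (.c 231045467270826889 (.c 8 (.c 48 .nil))) (.b 40 .nil)) (.I .jac (.c 9024908047478665 (.c 8 (.c 48 .nil))) (.b 40 .nil))))))))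

noncomputable def c4_14 : Tr := (.node (.node (.node (.node (.node (.node (.I .jac (.c 9024908047478665 (.c 12865 (.c 48 .nil))) .nil) (.I .jac (.c 9024908047478665 (.c 8 (.c 40 .nil))) (.b 48 .nil))) (.node (.I .jac (.c 62886542410057 (.c 8 (.c 48 .nil))) (.b 40 .nil)) (.I .jac (.c 231045815314584265 (.c 16 (.c 40 .nil))) (.b 48 .nil)))) (.node (.node (.I .jac (.c 2306969673777850185 (.c 18561 (.c 40 .nil))) .nil) (.I .jac (.c 2306969673777850185 (.c 16 (.c 48 .nil))) (.b 40 .nil))) (.node (.I .jac (.c 2306969673777850185 (.c 12929 (.c 48 .nil))) .nil) (.I .jac (.c 2306969673777850185 (.c 16 (.c 40 .nil))) (.b 48 .nil))))) (.node (.node (.node (.I .jac (.c 35468714087241 (.c 18561 (.c 40 .nil))) .nil) (.I .jac (.c 580749782704393 (.c 16 (.c 48 .nil))) (.b 40 .nil))) (.node (.I .jac (.c 580749782704393 (.c 16 (.c 40 .nil))) (.b 48 .nil)) (.I .jac (.c 231045293249046409 (.c 16 (.c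 48 .nil))) (.b 40 .nil)))) (.node (.node (.I .jac (.c 231045293249046409 (.c 16 (.c 40 .nil))) (.b 48 .nil)) (.I .jac (.c 35466557976457 (.c 18561 (.c 40 .nil))) .nil)) (.node (.I .jac (.c 59555558875465 (.c 18561 (.c 40 .nil))) .nil) (.I .jac (.c 59555558875465 (.c 16 (.c 48 .nil))) (.b 40 .nil)))))) (.node (.node (.node (.node (.I .jac (.c 59555558875465 (.c 16 (.c 40 .nil))) (.b 48 .nil)) (.I .jac (.c 537002185 (.c 18497 (.c 40 .nil))) (.b 16 .nil))) (.node (.I .jac (.c 537002185 (.c 8 (.c 40 .nil))) (.b 48 (.b 16 .nil))) (.I .jac (.c 537002185 (.c 43954755 (.c 16 .nil))) .nil))) (.node (.node (.I .jac (.c 537002185 (.c 43059267 (.c 40 .nil))) .nil) (.I .jac (.c 537002185 (.c 12865 (.c 16 .nil))) (.b 48 .nil))) (.node (.I .jac (.c 537002185 (.c 8 (.c 40 .nil))) (.b 16 (.b 48 .nil))) (.I .jac (.c 537002185 (.c 8 (.c 16 .nil))) (.b 40 (.b 48 .nil)))))) (.node (.node (.node (.I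 .jac (.c 537002185 (.c 20891715 (.c 48 .nil))) .nil) (.I .jac (.c 537002185 (.c 8 (.c 43954819 .nil))) .nil)) (.node (.I .jac (.c 169943305 (.c 2737112393 (.c 16 .nil))) .nil) (.I .jac (.c 169943305 (.c 18497 (.c 40 .nil))) (.b 16 .nil)))) (.node (.node (.I .jac (.c 169943305 (.c 8 (.c 48 .nil))) (.b 40 (.b 16 .nil))) (.I .jac (.c 169943305 (.c 1324066185 (.c 16 .nil))) .nil)) (.node (.I .jac (.c 169943305 (.c 12865 (.c 48 .nil))) (.b 16 .nil)) (.I .jac (.c 169943305 (.c 8 (.c 40 .nil))) (.b 48 (.b 16 .nil)))))))) (.node (.node (.node (.node (.node (.I .jac (.c 169943305 (.c 35718537 (.c 40 .nil))) .nil) (.I .jac (.c 169943305 (.c 2113 (.c 48 .nil))) (.b 40 .nil))) (.node (.I .jac (.c 169943305 (.c 12865 (.c 16 .nil))) (.b 48 .nil)) (.I .jac (.c 169943305 (.c 8 (.c 40 .nil))) (.b 16 (.b 48 .nil))))) (.node (.node (.I .jac (.c 8786435 (.c 8 (.c 48 .nil))) (.b 40 (.b 16 .nil))) (.I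 .jac (.c 8786435 (.c 12865 (.c 48 .nil))) (.b 16 .nil))) (.node (.I .jac (.c 8786435 (.c 8 (.c 40 .nil))) (.b 48 (.b 16 .nil))) (.I .jac (.c 8786435 (.c 8 (.c 48 .nil))) (.b 16 (.b 40 .nil)))))) (.node (.node (.node (.I .jac (.c 8786435 (.c 2113 (.c 48 .nil))) (.b 40 .nil)) (.I .jac (.c 8786435 (.c 8 (.c 16 .nil))) (.b 48 (.b 40 .nil)))) (.node (.I .jac (.c 8786435 (.c 2113 (.c 40 .nil))) (.b 48 .nil)) (.I .jac (.c 2306970223667989193 (.c 12993 (.c 48 .nil))) .nil))) (.node (.node (.I .jac (.c 9024942441009865 (.c 24 (.c 48 .nil))) (.b 40 .nil)) (.I .jac (.c 9024942441009865 (.c 12993 (.c 48 .nil))) .nil)) (.node (.I .jac (.c 2306969673777850121 (.c 24 (.c 48 .nil))) (.b 40 .nil)) (.I .jac (.c 2306969673777850121 (.c 12993 (.c 48 .nil))) .nil))))) (.node (.node (.node (.node (.I .jac (.c 2306969673777850121 (.c 24 (.c 40 .nil))) (.b 48 .nil)) (.I .jac (.c 580749782704329 (.c 24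 (.c 48 .nil))) (.b 40 .nil))) (.node (.I .jac (.c 580749782704329 (.c 24 (.c 40 .nil))) (.b 48 .nil)) (.I .jac (.c 9024839260612489 (.c 24 (.c 48 .nil))) (.b 40 .nil)))) (.node (.node (.I .jac (.c 35464401931145 (.c 24 (.c 48 .nil))) (.b 40 .nil)) (.I .jac (.c 2487083360585 (.c 24 (.c 48 .nil))) (.b 40 .nil))) (.node (.I .jac (.c 2487083360585 (.c 12993 (.c 48 .nil))) .nil) (.I .jac (.c 2487083360585 (.c 24 (.c 40 .nil))) (.b 48 .nil))))) (.node (.node (.node (.I .jac (.c 598976858557513 (.c 24 (.c 48 .nil))) (.b 40 .nil)) (.I .jac (.c 598976858557513 (.c 24 (.c 40 .nil))) (.b 48 .nil))) (.node (.I .jac (.c 537002121 (.c 18497 (.c 40 .nil))) (.b 24 .nil)) (.I .jac (.c 537002121 (.c 1324066185 (.c 24 .nil))) .nil))) (.node (.node (.I .jac (.c 537002121 (.c 12865 (.c 48 .nil))) (.b 24 .nil)) (.I .jac (.c 537002121 (.c 2737112265 (.c 40 .nil))) .nil)) (.node (.I .jac (.c 537002121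 (.c 18497 (.c 24 .nil))) (.b 40 .nil)) (.I .jac (.c 537002121 (.c 8 (.c 48 .nil))) (.b 24 (.b 40 .nil)))))))))

noncomputable def c4_15 : Tr := (.node (.node (.node (.node (.node (.node (.I .jac (.c 537002121 (.c 174695817 (.c 40 .nil))) .nil) (.I .jac (.c 537002121 (.c 43356739 (.c 40 .nil))) .nil)) (.node (.I .jac (.c 537002121 (.c 1324065993 (.c 48 .nil))) .nil) (.I .jac (.c 537002121 (.c 12865 (.c 24 .nil))) (.b 48 .nil)))) (.node (.node (.I .jac (.c 537002121 (.c 8 (.c 24 .nil))) (.b 40 (.b 48 .nil))) (.I .jac (.c 537002121 (.c 21099075 (.c 48 .nil))) .nil)) (.node (.I .jac (.c 537002121 (.c 8 (.c 43954883 .nil))) .nil) (.I .jac (.c 33587465 (.c 8 (.c 48 .nil))) (.b 40 (.b 24 .nil)))))) (.node (.node (.node (.I .jac (.c 33587465 (.c 1324066185 (.c 24 .nil))) .nil) (.I .jac (.c 33587465 (.c 12865 (.c 48 .nil))) (.b 24 .nil))) (.node (.I .jac (.c 33587465 (.c 43954755 (.c 24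 .nil))) .nil) (.I .jac (.c 33587465 (.c 2737112265 (.c 40 .nil))) .nil))) (.node (.node (.I .jac (.c 33587465 (.c 18497 (.c 24 .nil))) (.b 40 .nil)) (.I .jac (.c 33587465 (.c 8 (.c 43954883 .nil))) .nil)) (.node (.I .jac (.c 8652803 (.c 8 (.c 48 .nil))) (.b 40 (.b 24 .nil))) (.I .jac (.c 8652803 (.c 12865 (.c 48 .nil))) (.b 24 .nil)))))) (.node (.node (.node (.node (.I .jac (.c 8652803 (.c 8 (.c 40 .nil))) (.b 48 (.b 24 .nil))) (.I .jac (.c 8652803 (.c 8 (.c 48 .nil))) (.b 24 (.b 40 .nil)))) (.node (.I .jac (.c 8652803 (.c 4673 (.c 48 .nil))) (.b 40 .nil)) (.I .jac (.c 8652803 (.c 8 (.c 24 .nil))) (.b 48 (.b 40 .nil))))) (.node (.node (.I .jac (.c 8652803 (.c 4673 (.c 40 .nil))) (.b 48 .nil)) (.I .jac (.c 537002057 (.c 16 (.c 48 .nil))) (.b 40 (.b 24 .nil)))) (.node (.I .jac (.c 537002057 (.c 16 (.c 48 .nil))) (.b 24 (.b 40 .nil))) (.I .jac (.c 537002057 (.c 16 (.c 24 .nil))) (.b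 40 (.b 48 .nil)))))) (.node (.node (.node (.I .jac (.c 537002057 (.c 21099139 (.c 48 .nil))) .nil) (.I .jac (.c 537002057 (.c 16 (.c 43954883 .nil))) .nil)) (.node (.I .jac (.c 2105609 (.c 18561 (.c 40 .nil))) (.b 24 .nil)) (.I .jac (.c 2105609 (.c 16 (.c 48 .nil))) (.b 24 (.b 40 .nil))))) (.node (.node (.I .jac (.c 2105609 (.c 16 (.c 40 .nil))) (.b 24 (.b 48 .nil))) (.I .jac (.c 2105609 (.c 4737 (.c 40 .nil))) (.b 48 .nil))) (.node (.I .jac (.c 2105609 (.c 16 (.c 24 .nil))) (.b 40 (.b 48 .nil))) (.I .jac (.c 2105609 (.c 21099139 (.c 48 .nil))) .nil)))))) (.node (.node (.node (.node (.node (.I .jac (.c 2105609 (.c 16 (.c 43954883 .nil))) .nil) (.I .jac (.c 8520195 (.c 16 (.c 40 .nil))) (.b 24 (.b 48 .nil)))) (.node (.I .jac (.c 8520195 (.c 16 (.c 24 .nil))) (.b 40 (.b 48 .nil))) (.I .jac (.c 8193 (.c 15456163896880393 (.c 16 .nil))) .nil))) (.node (.node (.I .jac (.c 8193 (.c 43954755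 (.c 24 .nil))) (.b 16 .nil)) (.I .jac (.c 8193 (.c 43356739 (.c 40 .nil))) (.b 16 .nil))) (.node (.I .jac (.c 8193 (.c 1324065993 (.c 48 .nil))) (.b 16 .nil)) (.I .jac (.c 8193 (.c 12865 (.c 24 .nil))) (.b 48 (.b 16 .nil)))))) (.node (.node (.node (.I .jac (.c 8193 (.c 3561367726845385 (.c 16 .nil))) .nil) (.I .jac (.c 8193 (.c 21099075 (.c 48 .nil))) (.b 16 .nil))) (.node (.I .jac (.c 8193 (.c 8 (.c 43954883 .nil))) (.b 16 .nil)) (.I .jac (.c 8193 (.c 8 (.c 48 .nil))) (.b 40 (.b 16 (.b 24 .nil)))))) (.node (.node (.I .jac (.c 8193 (.c 2737112201 (.c 40 .nil))) (.b 24 .nil)) (.I .jac (.c 8193 (.c 8 (.c 48 .nil))) (.b 16 (.b 40 (.b 24 .nil))))) (.node (.I .jac (.c 8193 (.c 35718537 (.c 40 .nil))) (.b 24 .nil)) (.I .jac (.c 8193 (.c 14832803796618633 (.c 24 .nil))) .nil))))) (.node (.node (.node (.node (.I .jac (.c 8193 (.c 12865 (.c 16 .nil))) (.b 48 (.b 24 .nil))) (.I .jac (.c 8193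 (.c 8 (.c 40 .nil))) (.b 16 (.b 48 (.b 24 .nil))))) (.node (.I .jac (.c 8193 (.c 2113 (.c 40 .nil))) (.b 48 (.b 24 .nil))) (.I .jac (.c 8193 (.c 8 (.c 16 .nil))) (.b 40 (.b 48 (.b 24 .nil)))))) (.node (.node (.I .jac (.c 8193 (.c 20891715 (.c 48 .nil))) (.b 24 .nil)) (.I .jac (.c 8193 (.c 18497 (.c 24 .nil))) (.b 16 (.b 40 .nil)))) (.node (.I .jac (.c 8193 (.c 8 (.c 48 .nil))) (.b 24 (.b 16 (.b 40 .nil)))) (.I .jac (.c 8193 (.c 4673 (.c 48 .nil))) (.b 16 (.b 40 .nil)))))) (.node (.node (.node (.I .jac (.c 8193 (.c 8 (.c 24 .nil))) (.b 48 (.b 16 (.b 40 .nil)))) (.I .jac (.c 8193 (.c 15038454533713097 (.c 40 .nil))) .nil)) (.node (.I .jac (.c 8193 (.c 43356739 (.c 16 .nil))) (.b 40 .nil)) (.I .jac (.c 8193 (.c 18497 (.c 16 .nil))) (.b 24 (.b 40 .nil))))) (.node (.node (.I .jac (.c 8193 (.c 8 (.c 24 .nil))) (.b 16 (.b 48 (.b 40 .nil)))) (.I .jac (.c 8193 (.c 8 (.c 16 .nil))) (.b 24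 (.b 48 (.b 40 .nil))))) (.node (.I .jac (.c 8193 (.c 2803779 (.c 48 .nil))) (.b 40 .nil)) (.I .jac (.c 8193 (.c 8 (.c 43356803 .nil))) (.b 40 .nil))))))))

noncomputable def c4_16 : Tr := (.node (.node (.node (.node (.node (.node (.I .jac (.c 8193 (.c 4673 (.c 40 .nil))) (.b 16 (.b 48 .nil))) (.I .jac (.c 8193 (.c 8 (.c 24 .nil))) (.b 40 (.b 16 (.b 48 .nil))))) (.node (.I .jac (.c 8193 (.c 21099075 (.c 16 .nil))) (.b 48 .nil)) (.I .jac (.c 8193 (.c 1324065929 (.c 24 .nil))) (.b 48 .nil)))) (.node (.node (.I .jac (.c 8193 (.c 12865 (.c 16 .nil))) (.b 24 (.b 48 .nil))) (.I .jac (.c 8193 (.c 8 (.c 40 .nil))) (.b 16 (.b 24 (.b 48 .nil))))) (.node (.I .jac (.c 9024908047478473 (.c 32 (.c 48 .nil))) (.b 40 .nil)) (.I .jac (.c 62886542409865 (.c 32 (.c 40 .nil))) (.b 48 .nil))))) (.node (.node (.node (.I .jac (.c 35466557976329 (.c 32 (.c 48 .nil))) (.b 40 .nil)) (.I .jac (.c 59555558875337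 (.c 32 (.c 48 .nil))) (.b 40 .nil))) (.node (.I .jac (.c 9024839260612425 (.c 32 (.c 48 .nil))) (.b 40 .nil)) (.I .jac (.c 2487083360521 (.c 32 (.c 48 .nil))) (.b 40 .nil)))) (.node (.node (.I .jac (.c 62889413446729 (.c 32 (.c 48 .nil))) (.b 40 .nil)) (.I .jac (.c 62889413446729 (.c 32 (.c 40 .nil))) (.b 48 .nil))) (.node (.I .jac (.c 169943177 (.c 2737112393 (.c 32 .nil))) .nil) (.I .jac (.c 169943177 (.c 18497 (.c 40 .nil))) (.b 32 .nil)))))) (.node (.node (.node (.node (.I .jac (.c 169943177 (.c 8 (.c 48 .nil))) (.b 40 (.b 32 .nil))) (.I .jac (.c 169943177 (.c 8 (.c 40 .nil))) (.b 48 (.b 32 .nil)))) (.node (.I .jac (.c 169943177 (.c 43954755 (.c 32 .nil))) .nil) (.I .jac (.c 169943177 (.c 2737112329 (.c 40 .nil))) .nil))) (.node (.node (.I .jac (.c 169943177 (.c 18497 (.c 32 .nil))) (.b 40 .nil)) (.I .jac (.c 169943177 (.c 8 (.c 48 .nil))) (.b 32 (.b 40 .nil)))) (.node (.I .jac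 (.c 169943177 (.c 545424777 (.c 40 .nil))) .nil) (.I .jac (.c 169943177 (.c 8257 (.c 48 .nil))) (.b 40 .nil))))) (.node (.node (.node (.I .jac (.c 169943177 (.c 8 (.c 32 .nil))) (.b 48 (.b 40 .nil))) (.I .jac (.c 169943177 (.c 43655235 (.c 40 .nil))) .nil)) (.node (.I .jac (.c 169943177 (.c 8 (.c 40 .nil))) (.b 32 (.b 48 .nil))) (.I .jac (.c 169943177 (.c 8257 (.c 40 .nil))) (.b 48 .nil)))) (.node (.node (.I .jac (.c 169943177 (.c 8 (.c 32 .nil))) (.b 40 (.b 48 .nil))) (.I .jac (.c 169943177 (.c 21307459 (.c 48 .nil))) .nil)) (.node (.I .jac (.c 33587401 (.c 1324066185 (.c 32 .nil))) .nil) (.I .jac (.c 33587401 (.c 12865 (.c 48 .nil))) (.b 32 .nil))))))) (.node (.node (.node (.node (.node (.I .jac (.c 33587401 (.c 43954755 (.c 32 .nil))) .nil) (.I .jac (.c 33587401 (.c 8 (.c 48 .nil))) (.b 32 (.b 40 .nil)))) (.node (.I .jac (.c 33587401 (.c 545424777 (.c 40 .nil))) .nil) (.I .jac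 (.c 33587401 (.c 8 (.c 32 .nil))) (.b 48 (.b 40 .nil))))) (.node (.node (.I .jac (.c 33587401 (.c 43655235 (.c 40 .nil))) .nil) (.I .jac (.c 33587401 (.c 21307459 (.c 48 .nil))) .nil)) (.node (.I .jac (.c 2803715 (.c 8 (.c 40 .nil))) (.b 32 (.b 48 .nil))) (.I .jac (.c 2803715 (.c 8 (.c 32 .nil))) (.b 40 (.b 48 .nil)))))) (.node (.node (.node (.I .jac (.c 169943113 (.c 16 (.c 48 .nil))) (.b 40 (.b 32 .nil))) (.I .jac (.c 169943113 (.c 16 (.c 40 .nil))) (.b 48 (.b 32 .nil)))) (.node (.I .jac (.c 169943113 (.c 16 (.c 48 .nil))) (.b 32 (.b 40 .nil))) (.I .jac (.c 169943113 (.c 16 (.c 32 .nil))) (.b 40 (.b 48 .nil))))) (.node (.node (.I .jac (.c 169943113 (.c 21307523 (.c 48 .nil))) .nil) (.I .jac (.c 169943113 (.c 16 (.c 43954947 .nil))) .nil)) (.node (.I .jac (.c 2105545 (.c 16 (.c 48 .nil))) (.b 40 (.b 32 .nil))) (.I .jac (.c 2105545 (.c 12929 (.c 48 .nil))) (.b 32 .nil)))))) (.node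 (.node (.node (.node (.I .jac (.c 2105545 (.c 43954819 (.c 32 .nil))) .nil) (.I .jac (.c 2105545 (.c 16 (.c 48 .nil))) (.b 32 (.b 40 .nil)))) (.node (.I .jac (.c 2105545 (.c 8321 (.c 40 .nil))) (.b 48 .nil)) (.I .jac (.c 2105545 (.c 16 (.c 32 .nil))) (.b 40 (.b 48 .nil))))) (.node (.node (.I .jac (.c 2105545 (.c 21307523 (.c 48 .nil))) .nil) (.I .jac (.c 2728451 (.c 16 (.c 48 .nil))) (.b 40 (.b 32 .nil)))) (.node (.I .jac (.c 2728451 (.c 16 (.c 40 .nil))) (.b 48 (.b 32 .nil))) (.I .jac (.c 2728451 (.c 16 (.c 40 .nil))) (.b 32 (.b 48 .nil)))))) (.node (.node (.node (.I .jac (.c 2728451 (.c 16 (.c 32 .nil))) (.b 40 (.b 48 .nil))) (.I .jac (.c 4609 (.c 12865 (.c 48 .nil))) (.b 32 (.b 16 .nil)))) (.node (.I .jac (.c 4609 (.c 8 (.c 40 .nil))) (.b 48 (.b 32 (.b 16 .nil)))) (.I .jac (.c 4609 (.c 15456163896880457 (.c 16 .nil))) .nil))) (.node (.node (.I .jac (.c 4609 (.c 8257 (.c 48 .nil)))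 (.b 40 (.b 16 .nil))) (.I .jac (.c 4609 (.c 8 (.c 32 .nil))) (.b 48 (.b 40 (.b 16 .nil))))) (.node (.I .jac (.c 4609 (.c 15246236343242121 (.c 16 .nil))) .nil) (.I .jac (.c 4609 (.c 8257 (.c 40 .nil))) (.b 48 (.b 16 .nil)))))))))

noncomputable def c4_17 : Tr := (.node (.node (.node (.node (.node (.node (.I .jac (.c 4609 (.c 8 (.c 32 .nil))) (.b 40 (.b 48 (.b 16 .nil)))) (.I .jac (.c 4609 (.c 3632062472293833 (.c 16 .nil))) .nil)) (.node (.I .jac (.c 4609 (.c 21307459 (.c 48 .nil))) (.b 16 .nil)) (.I .jac (.c 4609 (.c 8 (.c 43954947 .nil))) (.b 16 .nil)))) (.node (.node (.I .jac (.c 4609 (.c 12865 (.c 48 .nil))) (.b 16 (.b 32 .nil))) (.I .jac (.c 4609 (.c 8 (.c 40 .nil))) (.b 48 (.b 16 (.b 32 .nil))))) (.node (.I .jac (.c 4609 (.c 43954755 (.c 16 .nil))) (.b 32 .nil)) (.I .jac (.c 4609 (.c 18497 (.c 16 .nil))) (.b 40 (.b 32 .nil)))))) (.node (.node (.node (.I .jac (.c 4609 (.c 8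 (.c 16 .nil))) (.b 48 (.b 40 (.b 32 .nil)))) (.I .jac (.c 4609 (.c 14832803796618633 (.c 32 .nil))) .nil)) (.node (.I .jac (.c 4609 (.c 43059267 (.c 40 .nil))) (.b 32 .nil)) (.I .jac (.c 4609 (.c 12865 (.c 16 .nil))) (.b 48 (.b 32 .nil))))) (.node (.node (.I .jac (.c 4609 (.c 8 (.c 43954819 .nil))) (.b 32 .nil)) (.I .jac (.c 4609 (.c 18497 (.c 32 .nil))) (.b 16 (.b 40 .nil)))) (.node (.I .jac (.c 4609 (.c 8 (.c 48 .nil))) (.b 32 (.b 16 (.b 40 .nil)))) (.I .jac (.c 4609 (.c 15246236343241929 (.c 40 .nil))) .nil))))) (.node (.node (.node (.node (.I .jac (.c 4609 (.c 18497 (.c 16 .nil))) (.b 32 (.b 40 .nil))) (.I .jac (.c 4609 (.c 8 (.c 48 .nil))) (.b 16 (.b 32 (.b 40 .nil))))) (.node (.I .jac (.c 4609 (.c 2113 (.c 48 .nil))) (.b 32 (.b 40 .nil))) (.I .jac (.c 4609 (.c 8 (.c 16 .nil))) (.b 48 (.b 32 (.b 40 .nil)))))) (.node (.node (.I .jac (.c 4609 (.c 43059267 (.c 32 .nil))) (.b 40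 .nil)) (.I .jac (.c 4609 (.c 8 (.c 32 .nil))) (.b 16 (.b 48 (.b 40 .nil))))) (.node (.I .jac (.c 4609 (.c 35718409 (.c 48 .nil))) (.b 40 .nil)) (.I .jac (.c 4609 (.c 2113 (.c 32 .nil))) (.b 48 (.b 40 .nil)))))) (.node (.node (.node (.I .jac (.c 4609 (.c 8 (.c 16 .nil))) (.b 32 (.b 48 (.b 40 .nil)))) (.I .jac (.c 4609 (.c 598976858557897 (.c 40 .nil))) .nil)) (.node (.I .jac (.c 4609 (.c 8 (.c 43655299 .nil))) (.b 40 .nil)) (.I .jac (.c 4609 (.c 8 (.c 48 .nil))) (.b 21307523 .nil)))) (.node (.node (.I .jac (.c 4609 (.c 8257 (.c 40 .nil))) (.b 16 (.b 48 .nil))) (.I .jac (.c 4609 (.c 8 (.c 32 .nil))) (.b 40 (.b 16 (.b 48 .nil))))) (.node (.I .jac (.c 4609 (.c 21307459 (.c 16 .nil))) (.b 48 .nil)) (.I .jac (.c 4609 (.c 1324065929 (.c 32 .nil))) (.b 48 .nil))))))) (.node (.node (.node (.node (.node (.I .jac (.c 4609 (.c 12865 (.c 16 .nil))) (.b 32 (.b 48 .nil))) (.I .jac (.c 4609 (.c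 8 (.c 40 .nil))) (.b 16 (.b 32 (.b 48 .nil))))) (.node (.I .jac (.c 4609 (.c 3491710045130057 (.c 48 .nil))) .nil) (.I .jac (.c 4609 (.c 545424521 (.c 40 .nil))) (.b 48 .nil)))) (.node (.node (.I .jac (.c 4609 (.c 8257 (.c 16 .nil))) (.b 40 (.b 48 .nil))) (.I .jac (.c 4609 (.c 8 (.c 32 .nil))) (.b 16 (.b 40 (.b 48 .nil))))) (.node (.I .jac (.c 4609 (.c 35718409 (.c 40 .nil))) (.b 48 .nil)) (.I .jac (.c 4609 (.c 2113 (.c 32 .nil))) (.b 40 (.b 48 .nil)))))) (.node (.node (.node (.I .jac (.c 4609 (.c 8 (.c 16 .nil))) (.b 32 (.b 40 (.b 48 .nil)))) (.I .jac (.c 4609 (.c 598976858557833 (.c 48 .nil))) .nil)) (.node (.I .jac (.c 4609 (.c 8652867 (.c 40 .nil))) (.b 48 .nil)) (.I .jac (.c 4609 (.c 12865 (.c 43655299 .nil))) .nil))) (.node (.node (.I .jac (.c 4609 (.c 2113 (.c 43954947 .nil))) .nil) (.I .jac (.c 4609 (.c 8 (.c 16 .nil))) (.b 43954947 .nil))) (.node (.I .jac (.c 33587273 (.c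 24 (.c 48 .nil))) (.b 40 (.b 32 .nil))) (.I .jac (.c 33587273 (.c 43954883 (.c 32 .nil))) .nil))))) (.node (.node (.node (.node (.I .jac (.c 33587273 (.c 24 (.c 48 .nil))) (.b 32 (.b 40 .nil))) (.I .jac (.c 33587273 (.c 43655363 (.c 40 .nil))) .nil)) (.node (.I .jac (.c 33587273 (.c 24 (.c 43954947 .nil))) .nil) (.I .jac (.c 2105481 (.c 24 (.c 48 .nil))) (.b 40 (.b 32 .nil))))) (.node (.node (.I .jac (.c 2105481 (.c 43954883 (.c 32 .nil))) .nil) (.I .jac (.c 2105481 (.c 43655363 (.c 40 .nil))) .nil)) (.node (.I .jac (.c 557571 (.c 24 (.c 48 .nil))) (.b 40 (.b 32 .nil))) (.I .jac (.c 557571 (.c 24 (.c 40 .nil))) (.b 48 (.b 32 .nil)))))) (.node (.node (.node (.I .jac (.c 557571 (.c 24 (.c 40 .nil))) (.b 32 (.b 48 .nil))) (.I .jac (.c 557571 (.c 24 (.c 32 .nil))) (.b 40 (.b 48 .nil)))) (.node (.I .jac (.c 2049 (.c 12865 (.c 48 .nil))) (.b 32 (.b 24 .nil))) (.I .jac (.c 2049 (.c 8 (.c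 40 .nil))) (.b 48 (.b 32 (.b 24 .nil)))))) (.node (.node (.I .jac (.c 2049 (.c 15456163896880457 (.c 24 .nil))) .nil) (.I .jac (.c 2049 (.c 18497 (.c 32 .nil))) (.b 40 (.b 24 .nil)))) (.node (.I .jac (.c 2049 (.c 8 (.c 48 .nil))) (.b 32 (.b 40 (.b 24 .nil)))) (.I .jac (.c 2049 (.c 545424777 (.c 40 .nil))) (.b 24 .nil))))))))

noncomputable def c4_18 : Tr := (.node (.node (.node (.node (.node (.node (.I .jac (.c 2049 (.c 8257 (.c 48 .nil))) (.b 40 (.b 24 .nil))) (.I .jac (.c 2049 (.c 8 (.c 32 .nil))) (.b 48 (.b 40 (.b 24 .nil))))) (.node (.I .jac (.c 2049 (.c 15246236343242121 (.c 24 .nil))) .nil) (.I .jac (.c 2049 (.c 12865 (.c 32 .nil))) (.b 48 (.b 24 .nil))))) (.node (.node (.I .jac (.c 2049 (.c 8 (.c 40 .nil))) (.b 32 (.b 48 (.b 24 .nil)))) (.I .jac (.c 2049 (.c 3632062472293833 (.c 24 .nil))) .nil)) (.node (.I .jac (.c 2049 (.c 8 (.c 48 .nil))) (.b 40 (.b 24 (.b 32 .nil))))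 (.I .jac (.c 2049 (.c 15456163896880393 (.c 32 .nil))) .nil)))) (.node (.node (.node (.I .jac (.c 2049 (.c 18497 (.c 24 .nil))) (.b 40 (.b 32 .nil))) (.I .jac (.c 2049 (.c 8 (.c 48 .nil))) (.b 24 (.b 40 (.b 32 .nil))))) (.node (.I .jac (.c 2049 (.c 8 (.c 24 .nil))) (.b 48 (.b 40 (.b 32 .nil)))) (.I .jac (.c 2049 (.c 43356739 (.c 40 .nil))) (.b 32 .nil)))) (.node (.node (.I .jac (.c 2049 (.c 12865 (.c 24 .nil))) (.b 48 (.b 32 .nil))) (.I .jac (.c 2049 (.c 8 (.c 40 .nil))) (.b 24 (.b 48 (.b 32 .nil))))) (.node (.I .jac (.c 2049 (.c 4673 (.c 40 .nil))) (.b 48 (.b 32 .nil))) (.I .jac (.c 2049 (.c 8 (.c 24 .nil))) (.b 40 (.b 48 (.b 32 .nil)))))))) (.node (.node (.node (.node (.I .jac (.c 2049 (.c 3561367726845385 (.c 32 .nil))) .nil) (.I .jac (.c 2049 (.c 21099075 (.c 48 .nil))) (.b 32 .nil))) (.node (.I .jac (.c 2049 (.c 8 (.c 43954883 .nil))) (.b 32 .nil)) (.I .jac (.c 2049 (.c 18497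 (.c 32 .nil))) (.b 24 (.b 40 .nil))))) (.node (.node (.I .jac (.c 2049 (.c 43655235 (.c 24 .nil))) (.b 40 .nil)) (.I .jac (.c 2049 (.c 18497 (.c 24 .nil))) (.b 32 (.b 40 .nil)))) (.node (.I .jac (.c 2049 (.c 8 (.c 48 .nil))) (.b 24 (.b 32 (.b 40 .nil)))) (.I .jac (.c 2049 (.c 15038454533713225 (.c 40 .nil))) .nil)))) (.node (.node (.node (.I .jac (.c 2049 (.c 545424585 (.c 48 .nil))) (.b 40 .nil)) (.I .jac (.c 2049 (.c 8257 (.c 24 .nil))) (.b 48 (.b 40 .nil)))) (.node (.I .jac (.c 2049 (.c 617620517416393 (.c 40 .nil))) .nil) (.I .jac (.c 2049 (.c 15246325749294217 (.c 40 .nil))) .nil))) (.node (.node (.I .jac (.c 2049 (.c 8 (.c 48 .nil))) (.b 21307587 .nil)) (.I .jac (.c 2049 (.c 21307459 (.c 24 .nil))) (.b 48 .nil))) (.node (.I .jac (.c 2049 (.c 3561367726845257 (.c 48 .nil))) .nil) (.I .jac (.c 2049 (.c 617620517416329 (.c 48 .nil))) .nil)))))) (.node (.node (.node (.node (.node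 (.I .jac (.c 2049 (.c 8786499 (.c 40 .nil))) (.b 48 .nil)) (.I .jac (.c 2049 (.c 8 (.c 21307587 .nil))) (.b 48 .nil))) (.node (.I .jac (.c 2049 (.c 12865 (.c 43655363 .nil))) .nil) (.I .jac (.c 2049 (.c 8257 (.c 43954883 .nil))) .nil))) (.node (.node (.I .jac (.c 2049 (.c 8 (.c 32 .nil))) (.b 43954883 .nil)) (.I .jac (.c 2049 (.c 4673 (.c 43954947 .nil))) .nil)) (.node (.I .jac (.c 2049 (.c 8 (.c 24 .nil))) (.b 43954947 .nil)) (.I .jac (.c 513 (.c 16 (.c 48 .nil))) (.b 40 (.b 24 (.b 32 .nil))))))) (.node (.node (.node (.I .jac (.c 513 (.c 43954819 (.c 24 .nil))) (.b 32 .nil)) (.I .jac (.c 513 (.c 16 (.c 24 .nil))) (.b 48 (.b 40 (.b 32 .nil))))) (.node (.I .jac (.c 513 (.c 16 (.c 43954883 .nil))) (.b 32 .nil)) (.I .jac (.c 513 (.c 16 (.c 48 .nil))) (.b 32 (.b 24 (.b 40 .nil)))))) (.node (.node (.I .jac (.c 513 (.c 43655299 (.c 24 .nil))) (.b 40 .nil)) (.I .jac (.c 513 (.c 43356803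 (.c 32 .nil))) (.b 40 .nil))) (.node (.I .jac (.c 513 (.c 16 (.c 32 .nil))) (.b 24 (.b 48 (.b 40 .nil)))) (.I .jac (.c 513 (.c 8786563 (.c 48 .nil))) (.b 40 .nil)))))) (.node (.node (.node (.node (.I .jac (.c 513 (.c 16 (.c 43655363 .nil))) (.b 40 .nil)) (.I .jac (.c 513 (.c 16 (.c 48 .nil))) (.b 21307587 .nil))) (.node (.I .jac (.c 513 (.c 16 (.c 40 .nil))) (.b 43655363 .nil)) (.I .jac (.c 0 (.c 1911144019257846993660289188230985 (.c 16 .nil))) .nil))) (.node (.node (.I .jac (.c 0 (.c 15456163896880457 (.c 24 .nil))) (.b 16 .nil)) (.I .jac (.c 0 (.c 1859581781071975053026125028629321 (.c 16 .nil))) .nil)) (.node (.I .jac (.c 0 (.c 15246236343242121 (.c 24 .nil))) (.b 16 .nil)) (.I .jac (.c 0 (.c 43356739 (.c 40 .nil))) (.b 32 (.b 16 .nil)))))) (.node (.node (.node (.I .jac (.c 0 (.c 8 (.c 43954883 .nil))) (.b 32 (.b 16 .nil))) (.I .jac (.c 0 (.c 43356739 (.c 32 .nil))) (.b 40 (.b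 16 .nil)))) (.node (.I .jac (.c 0 (.c 8 (.c 43655363 .nil))) (.b 40 (.b 16 .nil))) (.I .jac (.c 0 (.c 3561367726845257 (.c 48 .nil))) (.b 16 .nil)))) (.node (.node (.I .jac (.c 0 (.c 21099075 (.c 32 .nil))) (.b 48 (.b 16 .nil))) (.I .jac (.c 0 (.c 617620517416329 (.c 48 .nil))) (.b 16 .nil))) (.node (.I .jac (.c 0 (.c 8786499 (.c 40 .nil))) (.b 48 (.b 16 .nil))) (.I .jac (.c 0 (.c 12865 (.c 43655363 .nil))) (.b 16 .nil))))))))

noncomputable def c4_19 : Tr := (.node (.node (.node (.node (.node (.node (.I .jac (.c 0 (.c 8 (.c 40 .nil))) (.b 43655363 (.b 16 .nil))) (.I .jac (.c 0 (.c 8257 (.c 43954883 .nil))) (.b 16 .nil))) (.node (.I .jac (.c 0 (.c 8 (.c 32 .nil))) (.b 43954883 (.b 16 .nil))) (.I .jac (.c 0 (.c 1911144019257846993660289188230921 (.c 24 .nil))) .nil))) (.node (.node (.I .jac (.c 0 (.c 15456163896880457 (.c 16 .nil))) (.b 24 .nil)) (.I .jac (.c 0 (.c 1859581781071975053026125028629257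 (.c 24 .nil))) .nil)) (.node (.I .jac (.c 0 (.c 15246236343242121 (.c 16 .nil))) (.b 24 .nil)) (.I .jac (.c 0 (.c 43059267 (.c 40 .nil))) (.b 32 (.b 24 .nil)))))) (.node (.node (.node (.I .jac (.c 0 (.c 8 (.c 43954819 .nil))) (.b 32 (.b 24 .nil))) (.I .jac (.c 0 (.c 43059267 (.c 32 .nil))) (.b 40 (.b 24 .nil)))) (.node (.I .jac (.c 0 (.c 8 (.c 43655299 .nil))) (.b 40 (.b 24 .nil))) (.I .jac (.c 0 (.c 3491710045130057 (.c 48 .nil))) (.b 24 .nil)))) (.node (.node (.I .jac (.c 0 (.c 20891715 (.c 32 .nil))) (.b 48 (.b 24 .nil))) (.I .jac (.c 0 (.c 598976858557833 (.c 48 .nil))) (.b 24 .nil))) (.node (.I .jac (.c 0 (.c 8652867 (.c 40 .nil))) (.b 48 (.b 24 .nil))) (.I .jac (.c 0 (.c 12865 (.c 43655299 .nil))) (.b 24 .nil)))))) (.node (.node (.node (.node (.I .jac (.c 0 (.c 8 (.c 40 .nil))) (.b 43655299 (.b 24 .nil))) (.I .jac (.c 0 (.c 8257 (.c 43954819 .nil))) (.b 24 .nil))) (.node (.I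 .jac (.c 0 (.c 8 (.c 32 .nil))) (.b 43954819 (.b 24 .nil))) (.I .jac (.c 0 (.c 43954755 (.c 24 .nil))) (.b 16 (.b 32 .nil))))) (.node (.node (.I .jac (.c 0 (.c 8 (.c 43954883 .nil))) (.b 16 (.b 32 .nil))) (.I .jac (.c 0 (.c 43954755 (.c 16 .nil))) (.b 24 (.b 32 .nil)))) (.node (.I .jac (.c 0 (.c 8 (.c 43954819 .nil))) (.b 24 (.b 32 .nil))) (.I .jac (.c 0 (.c 1809240918100448013709967274651593 (.c 32 .nil))) .nil)))) (.node (.node (.node (.I .jac (.c 0 (.c 15038454533713097 (.c 40 .nil))) (.b 32 .nil)) (.I .jac (.c 0 (.c 1760096547751842689920580067480521 (.c 32 .nil))) .nil)) (.node (.I .jac (.c 0 (.c 14832803796618505 (.c 40 .nil))) (.b 32 .nil)) (.I .jac (.c 0 (.c 101466720686512330932220408213513 (.c 32 .nil))) .nil))) (.node (.node (.I .jac (.c 0 (.c 3561367726845129 (.c 48 .nil))) (.b 32 .nil)) (.I .jac (.c 0 (.c 21099075 (.c 16 .nil))) (.b 48 (.b 32 .nil)))) (.node (.I .jac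 (.c 0 (.c 97536312314093582022210145440777 (.c 32 .nil))) .nil) (.I .jac (.c 0 (.c 3491710045129993 (.c 48 .nil))) (.b 32 .nil))))))) (.node (.node (.node (.node (.node (.I .jac (.c 0 (.c 20891715 (.c 24 .nil))) (.b 48 (.b 32 .nil))) (.I .jac (.c 0 (.c 15456208906619473 (.c 32 .nil))) .nil)) (.node (.I .jac (.c 0 (.c 4673 (.c 43954819 .nil))) (.b 32 .nil)) (.I .jac (.c 0 (.c 8 (.c 24 .nil))) (.b 43954819 (.b 32 .nil))))) (.node (.node (.I .jac (.c 0 (.c 15456253916366417 (.c 32 .nil))) .nil) (.I .jac (.c 0 (.c 2113 (.c 43954883 .nil))) (.b 32 .nil))) (.node (.I .jac (.c 0 (.c 8 (.c 16 .nil))) (.b 43954883 (.b 32 .nil))) (.I .jac (.c 0 (.c 43655235 (.c 24 .nil))) (.b 16 (.b 40 .nil)))))) (.node (.node (.node (.I .jac (.c 0 (.c 8 (.c 43655363 .nil))) (.b 16 (.b 40 .nil))) (.I .jac (.c 0 (.c 43655235 (.c 16 .nil))) (.b 24 (.b 40 .nil)))) (.node (.I .jac (.c 0 (.c 8 (.c 43655299 .nil)))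 (.b 24 (.b 40 .nil))) (.I .jac (.c 0 (.c 1809240918100448013709967274651529 (.c 40 .nil))) .nil))) (.node (.node (.I .jac (.c 0 (.c 15038454533713097 (.c 32 .nil))) (.b 40 .nil)) (.I .jac (.c 0 (.c 1760096547751842689920580067480457 (.c 40 .nil))) .nil)) (.node (.I .jac (.c 0 (.c 14832803796618505 (.c 32 .nil))) (.b 40 .nil)) (.I .jac (.c 0 (.c 3051640828267014298710624022537 (.c 40 .nil))) .nil))))) (.node (.node (.node (.node (.I .jac (.c 0 (.c 617620517416137 (.c 48 .nil))) (.b 40 .nil)) (.I .jac (.c 0 (.c 8786499 (.c 16 .nil))) (.b 48 (.b 40 .nil)))) (.node (.I .jac (.c 0 (.c 2870186216701255531942518936585 (.c 40 .nil))) .nil) (.I .jac (.c 0 (.c 598976858557705 (.c 48 .nil))) (.b 40 .nil)))) (.node (.node (.I .jac (.c 0 (.c 8652867 (.c 24 .nil))) (.b 48 (.b 40 .nil))) (.I .jac (.c 0 (.c 15246281046272593 (.c 40 .nil))) .nil)) (.node (.I .jac (.c 0 (.c 4673 (.c 43655299 .nil)))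 (.b 40 .nil)) (.I .jac (.c 0 (.c 8 (.c 24 .nil))) (.b 43655299 (.b 40 .nil)))))) (.node (.node (.node (.I .jac (.c 0 (.c 15246325749311057 (.c 40 .nil))) .nil) (.I .jac (.c 0 (.c 2113 (.c 43655363 .nil))) (.b 40 .nil))) (.node (.I .jac (.c 0 (.c 8 (.c 16 .nil))) (.b 43655363 (.b 40 .nil))) (.I .jac (.c 0 (.c 8 (.c 32 .nil))) (.b 21099139 (.b 48 .nil))))) (.node (.node (.I .jac (.c 0 (.c 8 (.c 24 .nil))) (.b 21307523 (.b 48 .nil))) (.I .jac (.c 0 (.c 8 (.c 16 .nil))) (.b 21307587 (.b 48 .nil)))) (.node (.I .tdb (.c 32 (.c 2718204233 (.c 8 (.c 16 .nil)))) (.b 24 .nil)) (.I .tdb (.c 40 (.c 18433 (.c 8 (.c 16 .nil)))) (.b 32 (.b 24 .nil)))))))))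

noncomputable def c4_20 : Tr := (.node (.node (.node (.node (.node (.node (.I .tdb (.c 0 (.c 48 (.c 8 (.c 16 .nil)))) (.b 40 (.b 32 (.b 24 .nil)))) (.I .tdb (.c 32 (.c 1310925193 (.c 8 (.c 16 .nil)))) (.b 24 .nil))) (.node (.I .tdb (.c 48 (.c 12801 (.c 8 (.c 16 .nil)))) (.b 32 (.b 24 .nil))) (.I .tdb (.c 0 (.c 40 (.c 8 (.c 16 .nil)))) (.b 48 (.b 32 (.b 24 .nil)))))) (.node (.node (.I .tdb (.c 40 (.c 2718204169 (.c 8 (.c 16 .nil)))) (.b 24 .nil)) (.I .tdb (.c 32 (.c 18433 (.c 8 (.c 16 .nil)))) (.b 40 (.b 24 .nil)))) (.node (.I .tdb (.c 0 (.c 48 (.c 8 (.c 16 .nil)))) (.b 32 (.b 40 (.b 24 .nil)))) (.I .tdb (.c 40 (.c 537002377 (.c 8 (.c 16 .nil)))) (.b 24 .nil))))) (.node (.node (.node (.I .tdb (.c 48 (.c 8193 (.c 8 (.c 16 .nil)))) (.b 40 (.b 24 .nil))) (.I .tdb (.c 0 (.c 32 (.c 8 (.c 16 .nil)))) (.b 48 (.b 40 (.b 24 .nil))))) (.node (.I .tdb (.c 48 (.c 1310925065 (.c 8 (.c 16 .nil))))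 (.b 24 .nil)) (.I .tdb (.c 32 (.c 12801 (.c 8 (.c 16 .nil)))) (.b 48 (.b 24 .nil))))) (.node (.node (.I .tdb (.c 0 (.c 40 (.c 8 (.c 16 .nil)))) (.b 32 (.b 48 (.b 24 .nil)))) (.I .tdb (.c 48 (.c 537002313 (.c 8 (.c 16 .nil)))) (.b 24 .nil))) (.node (.I .tdb (.c 40 (.c 8193 (.c 8 (.c 16 .nil)))) (.b 48 (.b 24 .nil))) (.I .tdb (.c 0 (.c 32 (.c 8 (.c 16 .nil)))) (.b 40 (.b 48 (.b 24 .nil)))))))) (.node (.node (.node (.node (.I .tdb (.c 24 (.c 2718204233 (.c 8 (.c 16 .nil)))) (.b 32 .nil)) (.I .tdb (.c 40 (.c 18433 (.c 8 (.c 16 .nil)))) (.b 24 (.b 32 .nil)))) (.node (.I .tdb (.c 0 (.c 48 (.c 8 (.c 16 .nil)))) (.b 40 (.b 24 (.b 32 .nil)))) (.I .tdb (.c 24 (.c 1310925193 (.c 8 (.c 16 .nil)))) (.b 32 .nil)))) (.node (.node (.I .tdb (.c 48 (.c 12801 (.c 8 (.c 16 .nil)))) (.b 24 (.b 32 .nil))) (.I .tdb (.c 0 (.c 40 (.c 8 (.c 16 .nil)))) (.b 48 (.b 24 (.b 32 .nil))))) (.node (.I .tdb (.c 48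 (.c 1310925001 (.c 8 (.c 16 .nil)))) (.b 32 .nil)) (.I .tdb (.c 24 (.c 12801 (.c 8 (.c 16 .nil)))) (.b 48 (.b 32 .nil)))))) (.node (.node (.node (.I .tdb (.c 0 (.c 40 (.c 8 (.c 16 .nil)))) (.b 24 (.b 48 (.b 32 .nil)))) (.I .tdb (.c 24 (.c 2718204169 (.c 8 (.c 16 .nil)))) (.b 40 .nil))) (.node (.I .tdb (.c 32 (.c 18433 (.c 8 (.c 16 .nil)))) (.b 24 (.b 40 .nil))) (.I .tdb (.c 0 (.c 48 (.c 8 (.c 16 .nil)))) (.b 32 (.b 24 (.b 40 .nil)))))) (.node (.node (.I .tdb (.c 24 (.c 537002377 (.c 8 (.c 16 .nil)))) (.b 40 .nil)) (.I .tdb (.c 48 (.c 8193 (.c 8 (.c 16 .nil)))) (.b 24 (.b 40 .nil)))) (.node (.I .tdb (.c 0 (.c 32 (.c 8 (.c 16 .nil)))) (.b 48 (.b 24 (.b 40 .nil)))) (.I .tdb (.c 48 (.c 537002185 (.c 8 (.c 16 .nil)))) (.b 40 .nil))))))) (.node (.node (.node (.node (.node (.I .tdb (.c 24 (.c 8193 (.c 8 (.c 16 .nil)))) (.b 48 (.b 40 .nil))) (.I .tdb (.c 0 (.c 32 (.c 8 (.c 16 .nil)))) (.b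 24 (.b 48 (.b 40 .nil))))) (.node (.I .tdb (.c 32 (.c 2718204233 (.c 8 (.c 24 .nil)))) (.b 16 .nil)) (.I .tdb (.c 40 (.c 18433 (.c 8 (.c 24 .nil)))) (.b 32 (.b 16 .nil))))) (.node (.node (.I .tdb (.c 0 (.c 48 (.c 8 (.c 24 .nil)))) (.b 40 (.b 32 (.b 16 .nil)))) (.I .tdb (.c 32 (.c 1310925193 (.c 8 (.c 24 .nil)))) (.b 16 .nil))) (.node (.I .tdb (.c 48 (.c 12801 (.c 8 (.c 24 .nil)))) (.b 32 (.b 16 .nil))) (.I .tdb (.c 0 (.c 40 (.c 8 (.c 24 .nil)))) (.b 48 (.b 32 (.b 16 .nil))))))) (.node (.node (.node (.I .tdb (.c 40 (.c 2718204169 (.c 8 (.c 24 .nil)))) (.b 16 .nil)) (.I .tdb (.c 32 (.c 18433 (.c 8 (.c 24 .nil)))) (.b 40 (.b 16 .nil)))) (.node (.I .tdb (.c 0 (.c 48 (.c 8 (.c 24 .nil)))) (.b 32 (.b 40 (.b 16 .nil)))) (.I .tdb (.c 40 (.c 537002377 (.c 8 (.c 24 .nil)))) (.b 16 .nil)))) (.node (.node (.I .tdb (.c 48 (.c 8193 (.c 8 (.c 24 .nil)))) (.b 40 (.b 16 .nil))) (.I .tdb (.c 0 (.c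 32 (.c 8 (.c 24 .nil)))) (.b 48 (.b 40 (.b 16 .nil))))) (.node (.I .tdb (.c 48 (.c 1310925065 (.c 8 (.c 24 .nil)))) (.b 16 .nil)) (.I .tdb (.c 32 (.c 12801 (.c 8 (.c 24 .nil)))) (.b 48 (.b 16 .nil))))))) (.node (.node (.node (.node (.I .tdb (.c 0 (.c 40 (.c 8 (.c 24 .nil)))) (.b 32 (.b 48 (.b 16 .nil)))) (.I .tdb (.c 48 (.c 537002313 (.c 8 (.c 24 .nil)))) (.b 16 .nil))) (.node (.I .tdb (.c 40 (.c 8193 (.c 8 (.c 24 .nil)))) (.b 48 (.b 16 .nil))) (.I .tdb (.c 0 (.c 32 (.c 8 (.c 24 .nil)))) (.b 40 (.b 48 (.b 16 .nil)))))) (.node (.node (.I .tdb (.c 16 (.c 2718204233 (.c 8 (.c 24 .nil)))) (.b 32 .nil)) (.I .tdb (.c 40 (.c 18433 (.c 8 (.c 24 .nil)))) (.b 16 (.b 32 .nil)))) (.node (.I .tdb (.c 0 (.c 48 (.c 8 (.c 24 .nil)))) (.b 40 (.b 16 (.b 32 .nil)))) (.I .tdb (.c 16 (.c 1310925193 (.c 8 (.c 24 .nil)))) (.b 32 .nil))))) (.node (.node (.node (.I .tdb (.c 48 (.c 12801 (.c 8 (.c 24 .nil))))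 (.b 16 (.b 32 .nil))) (.I .tdb (.c 0 (.c 40 (.c 8 (.c 24 .nil)))) (.b 48 (.b 16 (.b 32 .nil))))) (.node (.I .tdb (.c 48 (.c 1310924937 (.c 8 (.c 24 .nil)))) (.b 32 .nil)) (.I .tdb (.c 16 (.c 12801 (.c 8 (.c 24 .nil)))) (.b 48 (.b 32 .nil))))) (.node (.node (.I .tdb (.c 0 (.c 40 (.c 8 (.c 24 .nil)))) (.b 16 (.b 48 (.b 32 .nil)))) (.I .tdb (.c 16 (.c 2718204169 (.c 8 (.c 24 .nil)))) (.b 40 .nil))) (.node (.I .tdb (.c 32 (.c 18433 (.c 8 (.c 24 .nil)))) (.b 16 (.b 40 .nil))) (.I .tdb (.c 0 (.c 48 (.c 8 (.c 24 .nil)))) (.b 32 (.b 16 (.b 40 .nil))))))))))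

noncomputable def c4_21 : Tr := (.node (.node (.node (.node (.node (.node (.I .tdb (.c 16 (.c 537002377 (.c 8 (.c 24 .nil)))) (.b 40 .nil)) (.I .tdb (.c 48 (.c 8193 (.c 8 (.c 24 .nil)))) (.b 16 (.b 40 .nil)))) (.node (.I .tdb (.c 0 (.c 32 (.c 8 (.c 24 .nil)))) (.b 48 (.b 16 (.b 40 .nil)))) (.I .tdb (.c 48 (.c 537002121 (.c 8 (.c 24 .nil)))) (.b 40 .nil)))) (.node (.node (.I .tdb (.c 16 (.c 8193 (.c 8 (.c 24 .nil)))) (.b 48 (.b 40 .nil))) (.I .tdb (.c 0 (.c 32 (.c 8 (.c 24 .nil)))) (.b 16 (.b 48 (.b 40 .nil))))) (.node (.I .tdb (.c 8 (.c 24 (.c 13748198893136698249 (.c 16 .nil)))) .nil) (.I .tdb (.c 8 (.c 24 (.c 2306972423229201353 (.c 16 .nil)))) .nil)))) (.node (.node (.node (.I .tdb (.c 8 (.c 24 (.c 13748196208362034185 (.c 16 .nil)))) .nil) (.I .tdb (.c 8 (.c 24 (.c 2306971873338800137 (.c 16 .nil)))) .nil)) (.node (.I .tdb (.c 8 (.c 16 (.c 13748198893136698249 (.c 24 .nil))))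 .nil) (.I .tdb (.c 8 (.c 16 (.c 2306972423229201353 (.c 24 .nil)))) .nil))) (.node (.node (.I .tdb (.c 8 (.c 16 (.c 13748196208362034185 (.c 24 .nil)))) .nil) (.I .tdb (.c 8 (.c 16 (.c 2306971873338800137 (.c 24 .nil)))) .nil)) (.node (.I .tdb (.c 16 (.c 24 (.c 59109074018392946569 (.c 8 .nil)))) .nil) (.I .tdb (.c 16 (.c 24 (.c 59109071234951844809 (.c 8 .nil)))) .nil))))) (.node (.node (.node (.node (.I .tdb (.c 24 (.c 2718204233 (.c 8 (.c 32 .nil)))) (.b 16 .nil)) (.I .tdb (.c 24 (.c 1310925193 (.c 8 (.c 32 .nil)))) (.b 16 .nil))) (.node (.I .tdb (.c 40 (.c 2718204105 (.c 8 (.c 32 .nil)))) (.b 16 .nil)) (.I .tdb (.c 24 (.c 18433 (.c 8 (.c 32 .nil)))) (.b 40 (.b 16 .nil))))) (.node (.node (.I .tdb (.c 0 (.c 48 (.c 8 (.c 32 .nil)))) (.b 24 (.b 40 (.b 16 .nil)))) (.I .tdb (.c 40 (.c 169943433 (.c 8 (.c 32 .nil)))) (.b 16 .nil))) (.node (.I .tdb (.c 4609 (.c 48 (.c 8 (.c 32 .nil))))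 (.b 40 (.b 16 .nil))) (.I .tdb (.c 0 (.c 24 (.c 32 (.c 8 .nil)))) (.b 48 (.b 40 (.b 16 .nil))))))) (.node (.node (.node (.I .tdb (.c 48 (.c 169943369 (.c 8 (.c 32 .nil)))) (.b 16 .nil)) (.I .tdb (.c 4609 (.c 40 (.c 8 (.c 32 .nil)))) (.b 48 (.b 16 .nil)))) (.node (.I .tdb (.c 0 (.c 24 (.c 32 (.c 8 .nil)))) (.b 40 (.b 48 (.b 16 .nil)))) (.I .tdb (.c 16 (.c 2718204233 (.c 8 (.c 32 .nil)))) (.b 24 .nil)))) (.node (.node (.I .tdb (.c 16 (.c 1310925193 (.c 8 (.c 32 .nil)))) (.b 24 .nil)) (.I .tdb (.c 40 (.c 2718204041 (.c 8 (.c 32 .nil)))) (.b 24 .nil))) (.node (.I .tdb (.c 16 (.c 18433 (.c 8 (.c 32 .nil)))) (.b 40 (.b 24 .nil))) (.I .tdb (.c 0 (.c 48 (.c 8 (.c 32 .nil)))) (.b 16 (.b 40 (.b 24 .nil))))))))) (.node (.node (.node (.node (.node (.I .tdb (.c 40 (.c 33587593 (.c 8 (.c 32 .nil)))) (.b 24 .nil)) (.I .tdb (.c 2049 (.c 48 (.c 8 (.c 32 .nil)))) (.b 40 (.b 24 .nil)))) (.node (.I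 .tdb (.c 0 (.c 16 (.c 32 (.c 8 .nil)))) (.b 48 (.b 40 (.b 24 .nil)))) (.I .tdb (.c 48 (.c 33587529 (.c 8 (.c 32 .nil)))) (.b 24 .nil)))) (.node (.node (.I .tdb (.c 2049 (.c 40 (.c 8 (.c 32 .nil)))) (.b 48 (.b 24 .nil))) (.I .tdb (.c 0 (.c 16 (.c 32 (.c 8 .nil)))) (.b 40 (.b 48 (.b 24 .nil))))) (.node (.I .tdb (.c 16 (.c 2718204105 (.c 8 (.c 32 .nil)))) (.b 40 .nil)) (.I .tdb (.c 24 (.c 18433 (.c 8 (.c 32 .nil)))) (.b 16 (.b 40 .nil)))))) (.node (.node (.node (.I .tdb (.c 0 (.c 48 (.c 8 (.c 32 .nil)))) (.b 24 (.b 16 (.b 40 .nil)))) (.I .tdb (.c 16 (.c 169943433 (.c 8 (.c 32 .nil)))) (.b 40 .nil))) (.node (.I .tdb (.c 4609 (.c 48 (.c 8 (.c 32 .nil)))) (.b 16 (.b 40 .nil))) (.I .tdb (.c 0 (.c 24 (.c 32 (.c 8 .nil)))) (.b 48 (.b 16 (.b 40 .nil)))))) (.node (.node (.I .tdb (.c 24 (.c 2718204041 (.c 8 (.c 32 .nil)))) (.b 40 .nil)) (.I .tdb (.c 16 (.c 18433 (.c 8 (.c 32 .nil)))) (.b 24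 (.b 40 .nil)))) (.node (.I .tdb (.c 0 (.c 48 (.c 8 (.c 32 .nil)))) (.b 16 (.b 24 (.b 40 .nil)))) (.I .tdb (.c 24 (.c 33587593 (.c 8 (.c 32 .nil)))) (.b 40 .nil)))))) (.node (.node (.node (.node (.I .tdb (.c 2049 (.c 48 (.c 8 (.c 32 .nil)))) (.b 24 (.b 40 .nil))) (.I .tdb (.c 0 (.c 16 (.c 32 (.c 8 .nil)))) (.b 48 (.b 24 (.b 40 .nil))))) (.node (.I .tdb (.c 48 (.c 169943177 (.c 8 (.c 32 .nil)))) (.b 40 .nil)) (.I .tdb (.c 16 (.c 4609 (.c 8 (.c 32 .nil)))) (.b 48 (.b 40 .nil))))) (.node (.node (.I .tdb (.c 0 (.c 24 (.c 32 (.c 8 .nil)))) (.b 16 (.b 48 (.b 40 .nil)))) (.I .tdb (.c 48 (.c 33587401 (.c 8 (.c 32 .nil)))) (.b 40 .nil))) (.node (.I .tdb (.c 24 (.c 2049 (.c 8 (.c 32 .nil)))) (.b 48 (.b 40 .nil))) (.I .tdb (.c 0 (.c 16 (.c 32 (.c 8 .nil)))) (.b 24 (.b 48 (.b 40 .nil))))))) (.node (.node (.node (.I .tdb (.c 40 (.c 18433 (.c 16 (.c 32 .nil)))) (.b 24 (.b 8 .nil))) (.I .tdb (.c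 0 (.c 48 (.c 16 (.c 32 .nil)))) (.b 40 (.b 24 (.b 8 .nil))))) (.node (.I .tdb (.c 48 (.c 12801 (.c 16 (.c 32 .nil)))) (.b 24 (.b 8 .nil))) (.I .tdb (.c 0 (.c 40 (.c 16 (.c 32 .nil)))) (.b 48 (.b 24 (.b 8 .nil)))))) (.node (.node (.I .tdb (.c 40 (.c 2718204105 (.c 16 (.c 32 .nil)))) (.b 8 .nil)) (.I .tdb (.c 24 (.c 18433 (.c 16 (.c 32 .nil)))) (.b 40 (.b 8 .nil)))) (.node (.I .tdb (.c 0 (.c 48 (.c 16 (.c 32 .nil)))) (.b 24 (.b 40 (.b 8 .nil)))) (.I .tdb (.c 40 (.c 169943433 (.c 16 (.c 32 .nil)))) (.b 8 .nil))))))))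

noncomputable def c4_22 : Tr := (.node (.node (.node (.node (.node (.node (.I .tdb (.c 4609 (.c 48 (.c 16 (.c 32 .nil)))) (.b 40 (.b 8 .nil))) (.I .tdb (.c 0 (.c 24 (.c 32 (.c 16 .nil)))) (.b 48 (.b 40 (.b 8 .nil))))) (.node (.I .tdb (.c 48 (.c 1310925001 (.c 16 (.c 32 .nil)))) (.b 8 .nil)) (.I .tdb (.c 24 (.c 12801 (.c 16 (.c 32 .nil)))) (.b 48 (.b 8 .nil))))) (.node (.node (.I .tdb (.c 0 (.c 40 (.c 16 (.c 32 .nil)))) (.b 24 (.b 48 (.b 8 .nil)))) (.I .tdb (.c 48 (.c 169943369 (.c 16 (.c 32 .nil)))) (.b 8 .nil))) (.node (.I .tdb (.c 4609 (.c 40 (.c 16 (.c 32 .nil)))) (.b 48 (.b 8 .nil))) (.I .tdb (.c 0 (.c 24 (.c 32 (.c 16 .nil)))) (.b 40 (.b 48 (.b 8 .nil))))))) (.node (.node (.node (.I .tdb (.c 8 (.c 2718204233 (.c 16 (.c 32 .nil)))) (.b 24 .nil)) (.I .tdb (.c 48 (.c 12801 (.c 16 (.c 32 .nil)))) (.b 8 (.b 24 .nil)))) (.node (.I .tdb (.c 0 (.c 40 (.c 16 (.c 32 .nil)))) (.b 48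 (.b 8 (.b 24 .nil)))) (.I .tdb (.c 40 (.c 2718203977 (.c 16 (.c 32 .nil)))) (.b 24 .nil)))) (.node (.node (.I .tdb (.c 8 (.c 18433 (.c 16 (.c 32 .nil)))) (.b 40 (.b 24 .nil))) (.I .tdb (.c 0 (.c 48 (.c 16 (.c 32 .nil)))) (.b 8 (.b 40 (.b 24 .nil))))) (.node (.I .tdb (.c 48 (.c 2105673 (.c 16 (.c 32 .nil)))) (.b 24 .nil)) (.I .tdb (.c 513 (.c 40 (.c 16 (.c 32 .nil)))) (.b 48 (.b 24 .nil))))))) (.node (.node (.node (.node (.I .tdb (.c 0 (.c 8 (.c 16 (.c 32 .nil)))) (.b 40 (.b 48 (.b 24 .nil)))) (.I .tdb (.c 8 (.c 169943433 (.c 16 (.c 32 .nil)))) (.b 40 .nil))) (.node (.I .tdb (.c 4609 (.c 48 (.c 16 (.c 32 .nil)))) (.b 8 (.b 40 .nil))) (.I .tdb (.c 0 (.c 24 (.c 32 (.c 16 .nil)))) (.b 48 (.b 8 (.b 40 .nil)))))) (.node (.node (.I .tdb (.c 24 (.c 2718203977 (.c 16 (.c 32 .nil)))) (.b 40 .nil)) (.I .tdb (.c 8 (.c 18433 (.c 16 (.c 32 .nil)))) (.b 24 (.b 40 .nil)))) (.node (.I .tdb (.c 0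 (.c 48 (.c 16 (.c 32 .nil)))) (.b 8 (.b 24 (.b 40 .nil)))) (.I .tdb (.c 2105545 (.c 48 (.c 16 (.c 32 .nil)))) (.b 40 .nil))))) (.node (.node (.node (.I .tdb (.c 513 (.c 24 (.c 16 (.c 32 .nil)))) (.b 48 (.b 40 .nil))) (.I .tdb (.c 0 (.c 8 (.c 16 (.c 32 .nil)))) (.b 24 (.b 48 (.b 40 .nil))))) (.node (.I .tdb (.c 8 (.c 32 (.c 13748198893136698185 (.c 16 .nil)))) .nil) (.I .tdb (.c 8 (.c 32 (.c 231045989336561673 (.c 16 .nil)))) .nil))) (.node (.node (.I .tdb (.c 8 (.c 16 (.c 32 (.c 13748198893136698185 .nil)))) .nil) (.I .tdb (.c 8 (.c 16 (.c 32 (.c 59109068451510808521 .nil)))) .nil)) (.node (.I .tdb (.c 8 (.c 16 (.c 32 (.c 231046163358604233 .nil)))) .nil) (.I .tdb (.c 8 (.c 16 (.c 32 (.c 13748194865974800393 .nil)))) .nil)))))) (.node (.node (.node (.node (.node (.I .tdb (.c 16 (.c 32 (.c 59109074018392946505 (.c 8 .nil)))) .nil) (.I .tdb (.c 16 (.c 32 (.c 13748194865974800393 (.c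 8 .nil)))) .nil)) (.node (.I .tdb (.c 16 (.c 32 (.c 231045989336561673 (.c 8 .nil)))) .nil) (.I .tdb (.c 40 (.c 18433 (.c 24 (.c 32 .nil)))) (.b 16 (.b 8 .nil))))) (.node (.node (.I .tdb (.c 0 (.c 48 (.c 24 (.c 32 .nil)))) (.b 40 (.b 16 (.b 8 .nil)))) (.I .tdb (.c 48 (.c 12801 (.c 24 (.c 32 .nil)))) (.b 16 (.b 8 .nil)))) (.node (.I .tdb (.c 0 (.c 40 (.c 24 (.c 32 .nil)))) (.b 48 (.b 16 (.b 8 .nil)))) (.I .tdb (.c 40 (.c 2718204041 (.c 24 (.c 32 .nil)))) (.b 8 .nil))))) (.node (.node (.node (.I .tdb (.c 16 (.c 18433 (.c 24 (.c 32 .nil)))) (.b 40 (.b 8 .nil))) (.I .tdb (.c 0 (.c 48 (.c 24 (.c 32 .nil)))) (.b 16 (.b 40 (.b 8 .nil))))) (.node (.I .tdb (.c 40 (.c 33587593 (.c 24 (.c 32 .nil)))) (.b 8 .nil)) (.I .tdb (.c 2049 (.c 48 (.c 24 (.c 32 .nil)))) (.b 40 (.b 8 .nil))))) (.node (.node (.I .tdb (.c 0 (.c 16 (.c 32 (.c 24 .nil)))) (.b 48 (.b 40 (.b 8 .nil)))) (.I .tdb (.c 48 (.c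 1310924937 (.c 24 (.c 32 .nil)))) (.b 8 .nil))) (.node (.I .tdb (.c 16 (.c 12801 (.c 24 (.c 32 .nil)))) (.b 48 (.b 8 .nil))) (.I .tdb (.c 0 (.c 40 (.c 24 (.c 32 .nil)))) (.b 16 (.b 48 (.b 8 .nil)))))))) (.node (.node (.node (.node (.I .tdb (.c 48 (.c 33587529 (.c 24 (.c 32 .nil)))) (.b 8 .nil)) (.I .tdb (.c 2049 (.c 40 (.c 24 (.c 32 .nil)))) (.b 48 (.b 8 .nil)))) (.node (.I .tdb (.c 0 (.c 16 (.c 32 (.c 24 .nil)))) (.b 40 (.b 48 (.b 8 .nil)))) (.I .tdb (.c 8 (.c 2718204233 (.c 24 (.c 32 .nil)))) (.b 16 .nil)))) (.node (.node (.I .tdb (.c 48 (.c 12801 (.c 24 (.c 32 .nil)))) (.b 8 (.b 16 .nil))) (.I .tdb (.c 0 (.c 40 (.c 24 (.c 32 .nil)))) (.b 48 (.b 8 (.b 16 .nil))))) (.node (.I .tdb (.c 40 (.c 2718203977 (.c 24 (.c 32 .nil)))) (.b 16 .nil)) (.I .tdb (.c 8 (.c 18433 (.c 24 (.c 32 .nil)))) (.b 40 (.b 16 .nil)))))) (.node (.node (.node (.I .tdb (.c 0 (.c 48 (.c 24 (.c 32 .nil)))) (.b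 8 (.b 40 (.b 16 .nil)))) (.I .tdb (.c 48 (.c 2105673 (.c 24 (.c 32 .nil)))) (.b 16 .nil))) (.node (.I .tdb (.c 513 (.c 40 (.c 24 (.c 32 .nil)))) (.b 48 (.b 16 .nil))) (.I .tdb (.c 0 (.c 8 (.c 24 (.c 32 .nil)))) (.b 40 (.b 48 (.b 16 .nil)))))) (.node (.node (.I .tdb (.c 8 (.c 33587593 (.c 24 (.c 32 .nil)))) (.b 40 .nil)) (.I .tdb (.c 2049 (.c 48 (.c 24 (.c 32 .nil)))) (.b 8 (.b 40 .nil)))) (.node (.I .tdb (.c 0 (.c 16 (.c 32 (.c 24 .nil)))) (.b 48 (.b 8 (.b 40 .nil)))) (.I .tdb (.c 16 (.c 2718203977 (.c 24 (.c 32 .nil)))) (.b 40 .nil))))))))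

noncomputable def c4_23 : Tr := (.node (.node (.node (.node (.node (.node (.I .tdb (.c 8 (.c 18433 (.c 24 (.c 32 .nil)))) (.b 16 (.b 40 .nil))) (.I .tdb (.c 0 (.c 48 (.c 24 (.c 32 .nil)))) (.b 8 (.b 16 (.b 40 .nil))))) (.node (.I .tdb (.c 2105481 (.c 48 (.c 24 (.c 32 .nil)))) (.b 40 .nil)) (.I .tdb (.c 513 (.c 16 (.c 24 (.c 32 .nil)))) (.b 48 (.b 40 .nil))))) (.node (.node (.I .tdb (.c 0 (.c 8 (.c 24 (.c 32 .nil)))) (.b 16 (.b 48 (.b 40 .nil)))) (.I .tdb (.c 8 (.c 32 (.c 13748198893136698121 (.c 24 .nil)))) .nil)) (.node (.I .tdb (.c 8 (.c 32 (.c 9024976834607113 (.c 24 .nil)))) .nil) (.I .tdb (.c 8 (.c 24 (.c 32 (.c 13748198893136698121 .nil)))) .nil)))) (.node (.node (.node (.I .tdb (.c 8 (.c 24 (.c 32 (.c 59109065668069837769 .nil)))) .nil) (.I .tdb (.c 8 (.c 24 (.c 32 (.c 9025011228269513 .nil)))) .nil)) (.node (.I .tdb (.c 8 (.c 24 (.c 32 (.c 13748193523587632137 .nil))))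 .nil) (.I .tdb (.c 24 (.c 32 (.c 59109074018392946441 (.c 8 .nil)))) .nil))) (.node (.node (.I .tdb (.c 24 (.c 32 (.c 13748193523587632137 (.c 8 .nil)))) .nil) (.I .tdb (.c 24 (.c 32 (.c 9024976834607113 (.c 8 .nil)))) .nil)) (.node (.I .tdb (.c 16 (.c 32 (.c 13748198893136698057 (.c 24 .nil)))) .nil) (.I .tdb (.c 16 (.c 32 (.c 13748192181200529417 (.c 24 .nil)))) .nil))))) (.node (.node (.node (.node (.I .tdb (.c 16 (.c 24 (.c 32 (.c 59109074018392946377 .nil)))) .nil) (.I .tdb (.c 16 (.c 24 (.c 32 (.c 13748198893136698057 .nil)))) .nil)) (.node (.I .tdb (.c 16 (.c 24 (.c 32 (.c 59109062884628932553 .nil)))) .nil) (.I .tdb (.c 16 (.c 24 (.c 32 (.c 13748192181200529417 .nil)))) .nil))) (.node (.node (.I .tdb (.c 16 (.c 24 (.c 32 (.c 35470870263817 .nil)))) .nil) (.I .tdb (.c 24 (.c 32 (.c 13748198893136698057 (.c 16 .nil)))) .nil)) (.node (.I .tdb (.c 24 (.c 32 (.c 13748192181200529417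 (.c 16 .nil)))) .nil) (.I .tdb (.c 8 (.c 32 (.c 2718204233 (.c 16 .nil)))) (.b 24 .nil))))) (.node (.node (.node (.I .tdb (.c 40 (.c 18433 (.c 16 (.c 32 .nil)))) (.b 4673 .nil)) (.I .tdb (.c 0 (.c 48 (.c 16 (.c 32 .nil)))) (.b 40 (.b 4673 .nil)))) (.node (.I .tdb (.c 8 (.c 32 (.c 1310925193 (.c 16 .nil)))) (.b 24 .nil)) (.I .tdb (.c 48 (.c 12801 (.c 16 (.c 32 .nil)))) (.b 4673 .nil)))) (.node (.node (.I .tdb (.c 0 (.c 40 (.c 16 (.c 32 .nil)))) (.b 48 (.b 4673 .nil))) (.I .tdb (.c 8 (.c 32 (.c 2718204233 (.c 24 .nil)))) (.b 16 .nil))) (.node (.I .tdb (.c 40 (.c 18433 (.c 24 (.c 32 .nil)))) (.b 2113 .nil)) (.I .tdb (.c 0 (.c 48 (.c 24 (.c 32 .nil)))) (.b 40 (.b 2113 .nil)))))))) (.node (.node (.node (.node (.node (.I .tdb (.c 8 (.c 32 (.c 1310925193 (.c 24 .nil)))) (.b 16 .nil)) (.I .tdb (.c 48 (.c 12801 (.c 24 (.c 32 .nil)))) (.b 2113 .nil))) (.node (.I .tdb (.c 0 (.c 40 (.c 24 (.c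 32 .nil)))) (.b 48 (.b 2113 .nil))) (.I .tdb (.c 16 (.c 24 (.c 8257 (.c 2718204233 .nil)))) .nil))) (.node (.node (.I .tdb (.c 16 (.c 24 (.c 8257 (.c 1310925193 .nil)))) .nil) (.I .tdb (.c 8 (.c 24 (.c 8321 (.c 2718204233 .nil)))) .nil)) (.node (.I .tdb (.c 16 (.c 32 (.c 2718204233 (.c 8 .nil)))) (.b 24 .nil)) (.I .tdb (.c 16 (.c 32 (.c 2718204233 (.c 24 .nil)))) (.b 8 .nil))))) (.node (.node (.node (.I .tdb (.c 8 (.c 24 (.c 8321 (.c 1310925193 .nil)))) .nil) (.I .tdb (.c 16 (.c 32 (.c 1310925193 (.c 8 .nil)))) (.b 24 .nil))) (.node (.I .tdb (.c 16 (.c 32 (.c 1310925193 (.c 24 .nil)))) (.b 8 .nil)) (.I .tdb (.c 8 (.c 16 (.c 8385 (.c 2718204233 .nil)))) .nil))) (.node (.node (.I .tdb (.c 24 (.c 32 (.c 2718204233 (.c 8 .nil)))) (.b 16 .nil)) (.I .tdb (.c 24 (.c 32 (.c 2718204233 (.c 16 .nil)))) (.b 8 .nil))) (.node (.I .tdb (.c 8 (.c 16 (.c 8385 (.c 1310925193 .nil)))) .nil) (.I .tdb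 (.c 24 (.c 32 (.c 1310925193 (.c 8 .nil)))) (.b 16 .nil)))))) (.node (.node (.node (.node (.I .tdb (.c 24 (.c 32 (.c 1310925193 (.c 16 .nil)))) (.b 8 .nil)) (.I .tdb (.c 48 (.c 12801 (.c 8 (.c 24 .nil)))) (.b 8321 .nil))) (.node (.I .tdb (.c 0 (.c 40 (.c 8 (.c 24 .nil)))) (.b 48 (.b 8321 .nil))) (.I .tdb (.c 48 (.c 12801 (.c 8 (.c 32 .nil)))) (.b 4737 .nil)))) (.node (.node (.I .tdb (.c 0 (.c 40 (.c 8 (.c 32 .nil)))) (.b 48 (.b 4737 .nil))) (.I .tdb (.c 24 (.c 2718204169 (.c 8 (.c 40 .nil)))) (.b 16 .nil))) (.node (.I .tdb (.c 24 (.c 537002377 (.c 8 (.c 40 .nil)))) (.b 16 .nil)) (.I .tdb (.c 32 (.c 2718204105 (.c 8 (.c 40 .nil)))) (.b 16 .nil))))) (.node (.node (.node (.I .tdb (.c 24 (.c 18433 (.c 8 (.c 40 .nil)))) (.b 32 (.b 16 .nil))) (.I .tdb (.c 0 (.c 48 (.c 8 (.c 40 .nil)))) (.b 24 (.b 32 (.b 16 .nil))))) (.node (.I .tdb (.c 32 (.c 169943433 (.c 8 (.c 40 .nil)))) (.b 16 .nil))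 (.I .tdb (.c 4609 (.c 48 (.c 8 (.c 40 .nil)))) (.b 32 (.b 16 .nil))))) (.node (.node (.I .tdb (.c 0 (.c 24 (.c 40 (.c 8 .nil)))) (.b 48 (.b 32 (.b 16 .nil)))) (.I .tdb (.c 169943305 (.c 48 (.c 8 (.c 40 .nil)))) (.b 16 .nil))) (.node (.I .tdb (.c 4609 (.c 32 (.c 40 (.c 8 .nil)))) (.b 48 (.b 16 .nil))) (.I .tdb (.c 0 (.c 24 (.c 40 (.c 8 .nil)))) (.b 32 (.b 48 (.b 16 .nil))))))))))

noncomputable def c4_24 : Tr := (.node (.node (.node (.node (.node (.node (.I .tdb (.c 16 (.c 2718204169 (.c 8 (.c 40 .nil)))) (.b 24 .nil)) (.I .tdb (.c 16 (.c 537002377 (.c 8 (.c 40 .nil)))) (.b 24 .nil))) (.node (.I .tdb (.c 32 (.c 2718204041 (.c 8 (.c 40 .nil)))) (.b 24 .nil)) (.I .tdb (.c 16 (.c 18433 (.c 8 (.c 40 .nil)))) (.b 32 (.b 24 .nil))))) (.node (.node (.I .tdb (.c 0 (.c 48 (.c 8 (.c 40 .nil)))) (.b 16 (.b 32 (.b 24 .nil)))) (.I .tdb (.c 32 (.c 33587593 (.c 8 (.c 40 .nil)))) (.b 24 .nil)))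 (.node (.I .tdb (.c 2049 (.c 48 (.c 8 (.c 40 .nil)))) (.b 32 (.b 24 .nil))) (.I .tdb (.c 0 (.c 16 (.c 40 (.c 8 .nil)))) (.b 48 (.b 32 (.b 24 .nil))))))) (.node (.node (.node (.I .tdb (.c 33587465 (.c 48 (.c 8 (.c 40 .nil)))) (.b 24 .nil)) (.I .tdb (.c 2049 (.c 32 (.c 40 (.c 8 .nil)))) (.b 48 (.b 24 .nil)))) (.node (.I .tdb (.c 0 (.c 16 (.c 40 (.c 8 .nil)))) (.b 32 (.b 48 (.b 24 .nil)))) (.I .tdb (.c 16 (.c 2718204105 (.c 8 (.c 40 .nil)))) (.b 32 .nil)))) (.node (.node (.I .tdb (.c 24 (.c 18433 (.c 8 (.c 40 .nil)))) (.b 16 (.b 32 .nil))) (.I .tdb (.c 0 (.c 48 (.c 8 (.c 40 .nil)))) (.b 24 (.b 16 (.b 32 .nil))))) (.node (.I .tdb (.c 16 (.c 169943433 (.c 8 (.c 40 .nil)))) (.b 32 .nil)) (.I .tdb (.c 4609 (.c 48 (.c 8 (.c 40 .nil)))) (.b 16 (.b 32 .nil))))))) (.node (.node (.node (.node (.I .tdb (.c 0 (.c 24 (.c 40 (.c 8 .nil)))) (.b 48 (.b 16 (.b 32 .nil)))) (.I .tdb (.c 24 (.c 2718204041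 (.c 8 (.c 40 .nil)))) (.b 32 .nil))) (.node (.I .tdb (.c 16 (.c 18433 (.c 8 (.c 40 .nil)))) (.b 24 (.b 32 .nil))) (.I .tdb (.c 0 (.c 48 (.c 8 (.c 40 .nil)))) (.b 16 (.b 24 (.b 32 .nil)))))) (.node (.node (.I .tdb (.c 24 (.c 33587593 (.c 8 (.c 40 .nil)))) (.b 32 .nil)) (.I .tdb (.c 2049 (.c 48 (.c 8 (.c 40 .nil)))) (.b 24 (.b 32 .nil)))) (.node (.I .tdb (.c 0 (.c 16 (.c 40 (.c 8 .nil)))) (.b 48 (.b 24 (.b 32 .nil)))) (.I .tdb (.c 48 (.c 169943177 (.c 8 (.c 40 .nil)))) (.b 32 .nil))))) (.node (.node (.node (.I .tdb (.c 16 (.c 4609 (.c 8 (.c 40 .nil)))) (.b 48 (.b 32 .nil))) (.I .tdb (.c 0 (.c 24 (.c 40 (.c 8 .nil)))) (.b 16 (.b 48 (.b 32 .nil))))) (.node (.I .tdb (.c 48 (.c 33587401 (.c 8 (.c 40 .nil)))) (.b 32 .nil)) (.I .tdb (.c 24 (.c 2049 (.c 8 (.c 40 .nil)))) (.b 48 (.b 32 .nil))))) (.node (.node (.I .tdb (.c 0 (.c 16 (.c 40 (.c 8 .nil)))) (.b 24 (.b 48 (.b 32 .nil)))) (.I .tdb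 (.c 32 (.c 18433 (.c 16 (.c 40 .nil)))) (.b 24 (.b 8 .nil)))) (.node (.I .tdb (.c 0 (.c 48 (.c 16 (.c 40 .nil)))) (.b 32 (.b 24 (.b 8 .nil)))) (.I .tdb (.c 48 (.c 8193 (.c 16 (.c 40 .nil)))) (.b 24 (.b 8 .nil)))))))) (.node (.node (.node (.node (.node (.I .tdb (.c 0 (.c 32 (.c 16 (.c 40 .nil)))) (.b 48 (.b 24 (.b 8 .nil)))) (.I .tdb (.c 32 (.c 2718204105 (.c 16 (.c 40 .nil)))) (.b 8 .nil))) (.node (.I .tdb (.c 24 (.c 18433 (.c 16 (.c 40 .nil)))) (.b 32 (.b 8 .nil))) (.I .tdb (.c 0 (.c 48 (.c 16 (.c 40 .nil)))) (.b 24 (.b 32 (.b 8 .nil)))))) (.node (.node (.I .tdb (.c 32 (.c 169943433 (.c 16 (.c 40 .nil)))) (.b 8 .nil)) (.I .tdb (.c 4609 (.c 48 (.c 16 (.c 40 .nil)))) (.b 32 (.b 8 .nil)))) (.node (.I .tdb (.c 0 (.c 24 (.c 40 (.c 16 .nil)))) (.b 48 (.b 32 (.b 8 .nil)))) (.I .tdb (.c 48 (.c 537002185 (.c 16 (.c 40 .nil)))) (.b 8 .nil))))) (.node (.node (.node (.I .tdb (.c 24 (.c 8193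 (.c 16 (.c 40 .nil)))) (.b 48 (.b 8 .nil))) (.I .tdb (.c 0 (.c 32 (.c 16 (.c 40 .nil)))) (.b 24 (.b 48 (.b 8 .nil))))) (.node (.I .tdb (.c 169943305 (.c 48 (.c 16 (.c 40 .nil)))) (.b 8 .nil)) (.I .tdb (.c 4609 (.c 32 (.c 40 (.c 16 .nil)))) (.b 48 (.b 8 .nil))))) (.node (.node (.I .tdb (.c 0 (.c 24 (.c 40 (.c 16 .nil)))) (.b 32 (.b 48 (.b 8 .nil)))) (.I .tdb (.c 8 (.c 2718204169 (.c 16 (.c 40 .nil)))) (.b 24 .nil))) (.node (.I .tdb (.c 48 (.c 8193 (.c 16 (.c 40 .nil)))) (.b 8 (.b 24 .nil))) (.I .tdb (.c 0 (.c 32 (.c 16 (.c 40 .nil)))) (.b 48 (.b 8 (.b 24 .nil)))))))) (.node (.node (.node (.node (.I .tdb (.c 32 (.c 2718203977 (.c 16 (.c 40 .nil)))) (.b 24 .nil)) (.I .tdb (.c 8 (.c 18433 (.c 16 (.c 40 .nil)))) (.b 32 (.b 24 .nil)))) (.node (.I .tdb (.c 0 (.c 48 (.c 16 (.c 40 .nil)))) (.b 8 (.b 32 (.b 24 .nil)))) (.I .tdb (.c 2105609 (.c 48 (.c 16 (.c 40 .nil)))) (.b 24 .nil)))) (.node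 (.node (.I .tdb (.c 513 (.c 32 (.c 40 (.c 16 .nil)))) (.b 48 (.b 24 .nil))) (.I .tdb (.c 0 (.c 8 (.c 16 (.c 40 .nil)))) (.b 32 (.b 48 (.b 24 .nil))))) (.node (.I .tdb (.c 8 (.c 169943433 (.c 16 (.c 40 .nil)))) (.b 32 .nil)) (.I .tdb (.c 4609 (.c 48 (.c 16 (.c 40 .nil)))) (.b 8 (.b 32 .nil)))))) (.node (.node (.node (.I .tdb (.c 0 (.c 24 (.c 40 (.c 16 .nil)))) (.b 48 (.b 8 (.b 32 .nil)))) (.I .tdb (.c 24 (.c 2718203977 (.c 16 (.c 40 .nil)))) (.b 32 .nil))) (.node (.I .tdb (.c 8 (.c 18433 (.c 16 (.c 40 .nil)))) (.b 24 (.b 32 .nil))) (.I .tdb (.c 0 (.c 48 (.c 16 (.c 40 .nil)))) (.b 8 (.b 24 (.b 32 .nil)))))) (.node (.node (.I .tdb (.c 2105545 (.c 48 (.c 16 (.c 40 .nil)))) (.b 32 .nil)) (.I .tdb (.c 513 (.c 24 (.c 40 (.c 16 .nil)))) (.b 48 (.b 32 .nil)))) (.node (.I .tdb (.c 0 (.c 8 (.c 16 (.c 40 .nil)))) (.b 24 (.b 48 (.b 32 .nil)))) (.I .tdb (.c 8 (.c 40 (.c 2306972423229201225 (.c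 16 .nil)))) .nil)))))))

noncomputable def c4_25 : Tr := (.node (.node (.node (.node (.node (.node (.I .tdb (.c 8 (.c 40 (.c 231045815314584585 (.c 16 .nil)))) .nil) (.I .tdb (.c 8 (.c 16 (.c 40 (.c 2306972423229201225 .nil)))) .nil)) (.node (.I .tdb (.c 8 (.c 16 (.c 40 (.c 59109068451510808457 .nil)))) .nil) (.I .tdb (.c 8 (.c 16 (.c 40 (.c 231046163358604169 .nil)))) .nil))) (.node (.node (.I .tdb (.c 8 (.c 16 (.c 40 (.c 2306970773558194185 .nil)))) .nil) (.I .tdb (.c 16 (.c 40 (.c 59109071234951844681 (.c 8 .nil)))) .nil)) (.node (.I .tdb (.c 16 (.c 40 (.c 2306970773558194185 (.c 8 .nil)))) .nil) (.I .tdb (.c 16 (.c 40 (.c 231045815314584585 (.c 8 .nil)))) .nil)))) (.node (.node (.node (.I .tdb (.c 32 (.c 18433 (.c 24 (.c 40 .nil)))) (.b 16 (.b 8 .nil))) (.I .tdb (.c 0 (.c 48 (.c 24 (.c 40 .nil)))) (.b 32 (.b 16 (.b 8 .nil))))) (.node (.I .tdb (.c 48 (.c 8193 (.c 24 (.c 40 .nil))))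 (.b 16 (.b 8 .nil))) (.I .tdb (.c 0 (.c 32 (.c 24 (.c 40 .nil)))) (.b 48 (.b 16 (.b 8 .nil)))))) (.node (.node (.I .tdb (.c 32 (.c 2718204041 (.c 24 (.c 40 .nil)))) (.b 8 .nil)) (.I .tdb (.c 16 (.c 18433 (.c 24 (.c 40 .nil)))) (.b 32 (.b 8 .nil)))) (.node (.I .tdb (.c 0 (.c 48 (.c 24 (.c 40 .nil)))) (.b 16 (.b 32 (.b 8 .nil)))) (.I .tdb (.c 32 (.c 33587593 (.c 24 (.c 40 .nil)))) (.b 8 .nil)))))) (.node (.node (.node (.node (.I .tdb (.c 2049 (.c 48 (.c 24 (.c 40 .nil)))) (.b 32 (.b 8 .nil))) (.I .tdb (.c 0 (.c 16 (.c 40 (.c 24 .nil)))) (.b 48 (.b 32 (.b 8 .nil))))) (.node (.I .tdb (.c 48 (.c 537002121 (.c 24 (.c 40 .nil)))) (.b 8 .nil)) (.I .tdb (.c 16 (.c 8193 (.c 24 (.c 40 .nil)))) (.b 48 (.b 8 .nil))))) (.node (.node (.I .tdb (.c 0 (.c 32 (.c 24 (.c 40 .nil)))) (.b 16 (.b 48 (.b 8 .nil)))) (.I .tdb (.c 33587465 (.c 48 (.c 24 (.c 40 .nil)))) (.b 8 .nil))) (.node (.I .tdb (.c 2049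 (.c 32 (.c 40 (.c 24 .nil)))) (.b 48 (.b 8 .nil))) (.I .tdb (.c 0 (.c 16 (.c 40 (.c 24 .nil)))) (.b 32 (.b 48 (.b 8 .nil))))))) (.node (.node (.node (.I .tdb (.c 8 (.c 2718204169 (.c 24 (.c 40 .nil)))) (.b 16 .nil)) (.I .tdb (.c 48 (.c 8193 (.c 24 (.c 40 .nil)))) (.b 8 (.b 16 .nil)))) (.node (.I .tdb (.c 0 (.c 32 (.c 24 (.c 40 .nil)))) (.b 48 (.b 8 (.b 16 .nil)))) (.I .tdb (.c 32 (.c 2718203977 (.c 24 (.c 40 .nil)))) (.b 16 .nil)))) (.node (.node (.I .tdb (.c 8 (.c 18433 (.c 24 (.c 40 .nil)))) (.b 32 (.b 16 .nil))) (.I .tdb (.c 0 (.c 48 (.c 24 (.c 40 .nil)))) (.b 8 (.b 32 (.b 16 .nil))))) (.node (.I .tdb (.c 2105609 (.c 48 (.c 24 (.c 40 .nil)))) (.b 16 .nil)) (.I .tdb (.c 513 (.c 32 (.c 40 (.c 24 .nil)))) (.b 48 (.b 16 .nil)))))))) (.node (.node (.node (.node (.node (.I .tdb (.c 0 (.c 8 (.c 24 (.c 40 .nil)))) (.b 32 (.b 48 (.b 16 .nil)))) (.I .tdb (.c 8 (.c 33587593 (.c 24 (.c 40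 .nil)))) (.b 32 .nil))) (.node (.I .tdb (.c 2049 (.c 48 (.c 24 (.c 40 .nil)))) (.b 8 (.b 32 .nil))) (.I .tdb (.c 0 (.c 16 (.c 40 (.c 24 .nil)))) (.b 48 (.b 8 (.b 32 .nil)))))) (.node (.node (.I .tdb (.c 16 (.c 2718203977 (.c 24 (.c 40 .nil)))) (.b 32 .nil)) (.I .tdb (.c 8 (.c 18433 (.c 24 (.c 40 .nil)))) (.b 16 (.b 32 .nil)))) (.node (.I .tdb (.c 0 (.c 48 (.c 24 (.c 40 .nil)))) (.b 8 (.b 16 (.b 32 .nil)))) (.I .tdb (.c 2105481 (.c 48 (.c 24 (.c 40 .nil)))) (.b 32 .nil))))) (.node (.node (.node (.I .tdb (.c 513 (.c 16 (.c 40 (.c 24 .nil)))) (.b 48 (.b 32 .nil))) (.I .tdb (.c 0 (.c 8 (.c 24 (.c 40 .nil)))) (.b 16 (.b 48 (.b 32 .nil))))) (.node (.I .tdb (.c 8 (.c 40 (.c 2306972423229201161 (.c 24 .nil)))) .nil) (.I .tdb (.c 8 (.c 40 (.c 9024942441010185 (.c 24 .nil)))) .nil))) (.node (.node (.I .tdb (.c 8 (.c 24 (.c 40 (.c 2306972423229201161 .nil)))) .nil) (.I .tdb (.c 8 (.c 24 (.c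 40 (.c 59109065668069837705 .nil)))) .nil)) (.node (.I .tdb (.c 8 (.c 24 (.c 40 (.c 9025011228269449 .nil)))) .nil) (.I .tdb (.c 8 (.c 24 (.c 40 (.c 2306970223667989513 .nil)))) .nil))))) (.node (.node (.node (.node (.I .tdb (.c 24 (.c 40 (.c 59109071234951844617 (.c 8 .nil)))) .nil) (.I .tdb (.c 24 (.c 40 (.c 2306970223667989513 (.c 8 .nil)))) .nil)) (.node (.I .tdb (.c 24 (.c 40 (.c 9024942441010185 (.c 8 .nil)))) .nil) (.I .tdb (.c 16 (.c 40 (.c 2306972423229201097 (.c 24 .nil)))) .nil))) (.node (.node (.I .tdb (.c 16 (.c 40 (.c 2306969673777850377 (.c 24 .nil)))) .nil) (.I .tdb (.c 16 (.c 24 (.c 40 (.c 59109071234951844553 .nil)))) .nil)) (.node (.I .tdb (.c 16 (.c 24 (.c 40 (.c 2306972423229201097 .nil)))) .nil) (.I .tdb (.c 16 (.c 24 (.c 40 (.c 59109062884628932489 .nil)))) .nil)))) (.node (.node (.node (.I .tdb (.c 16 (.c 24 (.c 40 (.c 2306969673777850377 .nil)))) .nil) (.I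 .tdb (.c 16 (.c 24 (.c 40 (.c 35468714087433 .nil)))) .nil)) (.node (.I .tdb (.c 24 (.c 40 (.c 2306972423229201097 (.c 16 .nil)))) .nil) (.I .tdb (.c 24 (.c 40 (.c 2306969673777850377 (.c 16 .nil)))) .nil))) (.node (.node (.I .tdb (.c 8 (.c 40 (.c 2718204169 (.c 16 .nil)))) (.b 24 .nil)) (.I .tdb (.c 32 (.c 18433 (.c 16 (.c 40 .nil)))) (.b 4673 .nil))) (.node (.I .tdb (.c 0 (.c 48 (.c 16 (.c 40 .nil)))) (.b 32 (.b 4673 .nil))) (.I .tdb (.c 8 (.c 40 (.c 537002377 (.c 16 .nil)))) (.b 24 .nil))))))))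

noncomputable def c4_26 : Tr := (.node (.node (.node (.node (.node (.node (.I .tdb (.c 48 (.c 8193 (.c 16 (.c 40 .nil)))) (.b 4673 .nil)) (.I .tdb (.c 0 (.c 32 (.c 16 (.c 40 .nil)))) (.b 48 (.b 4673 .nil)))) (.node (.I .tdb (.c 8 (.c 40 (.c 2718204169 (.c 24 .nil)))) (.b 16 .nil)) (.I .tdb (.c 32 (.c 18433 (.c 24 (.c 40 .nil)))) (.b 2113 .nil)))) (.node (.node (.I .tdb (.c 0 (.c 48 (.c 24 (.c 40 .nil)))) (.b 32 (.b 2113 .nil))) (.I .tdb (.c 8 (.c 40 (.c 537002377 (.c 24 .nil)))) (.b 16 .nil))) (.node (.I .tdb (.c 48 (.c 8193 (.c 24 (.c 40 .nil)))) (.b 2113 .nil)) (.I .tdb (.c 0 (.c 32 (.c 24 (.c 40 .nil)))) (.b 48 (.b 2113 .nil)))))) (.node (.node (.node (.I .tdb (.c 16 (.c 24 (.c 12865 (.c 2718204169 .nil)))) .nil) (.I .tdb (.c 16 (.c 24 (.c 12865 (.c 537002377 .nil)))) .nil)) (.node (.I .tdb (.c 8 (.c 24 (.c 12929 (.c 2718204169 .nil)))) .nil) (.I .tdb (.c 16 (.c 40 (.c 2718204169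 (.c 8 .nil)))) (.b 24 .nil)))) (.node (.node (.I .tdb (.c 16 (.c 40 (.c 2718204169 (.c 24 .nil)))) (.b 8 .nil)) (.I .tdb (.c 8 (.c 24 (.c 12929 (.c 537002377 .nil)))) .nil)) (.node (.I .tdb (.c 16 (.c 40 (.c 537002377 (.c 8 .nil)))) (.b 24 .nil)) (.I .tdb (.c 16 (.c 40 (.c 537002377 (.c 24 .nil)))) (.b 8 .nil)))))) (.node (.node (.node (.node (.I .tdb (.c 8 (.c 16 (.c 12993 (.c 2718204169 .nil)))) .nil) (.I .tdb (.c 24 (.c 40 (.c 2718204169 (.c 8 .nil)))) (.b 16 .nil))) (.node (.I .tdb (.c 24 (.c 40 (.c 2718204169 (.c 16 .nil)))) (.b 8 .nil)) (.I .tdb (.c 8 (.c 16 (.c 12993 (.c 537002377 .nil)))) .nil))) (.node (.node (.I .tdb (.c 24 (.c 40 (.c 537002377 (.c 8 .nil)))) (.b 16 .nil)) (.I .tdb (.c 24 (.c 40 (.c 537002377 (.c 16 .nil)))) (.b 8 .nil))) (.node (.I .tdb (.c 48 (.c 8193 (.c 8 (.c 24 .nil)))) (.b 12929 .nil)) (.I .tdb (.c 0 (.c 32 (.c 8 (.c 24 .nil)))) (.b 48 (.b 12929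 .nil)))))) (.node (.node (.node (.I .tdb (.c 48 (.c 8193 (.c 8 (.c 40 .nil)))) (.b 4737 .nil)) (.I .tdb (.c 0 (.c 32 (.c 8 (.c 40 .nil)))) (.b 48 (.b 4737 .nil)))) (.node (.I .tdb (.c 8 (.c 40 (.c 59109068451510808329 (.c 32 .nil)))) .nil) (.I .tdb (.c 8 (.c 40 (.c 231046163358604041 (.c 32 .nil)))) .nil))) (.node (.node (.I .tdb (.c 8 (.c 40 (.c 59109065668069837641 (.c 32 .nil)))) .nil) (.I .tdb (.c 8 (.c 40 (.c 9025011228269385 (.c 32 .nil)))) .nil)) (.node (.I .tdb (.c 8 (.c 40 (.c 231045467270827017 (.c 32 .nil)))) .nil) (.I .tdb (.c 8 (.c 40 (.c 9024908047478793 (.c 32 .nil)))) .nil)))))) (.node (.node (.node (.node (.node (.I .tdb (.c 8 (.c 32 (.c 59109068451510808329 (.c 40 .nil)))) .nil) (.I .tdb (.c 8 (.c 32 (.c 231046163358604041 (.c 40 .nil)))) .nil)) (.node (.I .tdb (.c 8 (.c 32 (.c 59109065668069837641 (.c 40 .nil)))) .nil) (.I .tdb (.c 8 (.c 32 (.c 9025011228269385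 (.c 40 .nil)))) .nil))) (.node (.node (.I .tdb (.c 8 (.c 32 (.c 231045467270827017 (.c 40 .nil)))) .nil) (.I .tdb (.c 8 (.c 32 (.c 9024908047478793 (.c 40 .nil)))) .nil)) (.node (.I .tdb (.c 16 (.c 40 (.c 231046163358603977 (.c 32 .nil)))) .nil) (.I .tdb (.c 16 (.c 40 (.c 59109062884628932425 (.c 32 .nil)))) .nil)))) (.node (.node (.node (.I .tdb (.c 16 (.c 40 (.c 35466557976585 (.c 32 .nil)))) .nil) (.I .tdb (.c 16 (.c 32 (.c 231046163358603977 (.c 40 .nil)))) .nil)) (.node (.I .tdb (.c 16 (.c 32 (.c 59109062884628932425 (.c 40 .nil)))) .nil) (.I .tdb (.c 16 (.c 32 (.c 35466557976585 (.c 40 .nil)))) .nil))) (.node (.node (.I .tdb (.c 24 (.c 18433 (.c 16 (.c 32 .nil)))) (.b 12865 .nil)) (.I .tdb (.c 0 (.c 48 (.c 16 (.c 32 .nil)))) (.b 24 (.b 12865 .nil)))) (.node (.I .tdb (.c 24 (.c 18433 (.c 16 (.c 40 .nil)))) (.b 8257 .nil)) (.I .tdb (.c 0 (.c 48 (.c 16 (.c 40 .nil)))) (.b 24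 (.b 8257 .nil))))))) (.node (.node (.node (.node (.I .tdb (.c 4609 (.c 48 (.c 16 (.c 32 .nil)))) (.b 12865 .nil)) (.I .tdb (.c 0 (.c 24 (.c 32 (.c 16 .nil)))) (.b 48 (.b 12865 .nil)))) (.node (.I .tdb (.c 4609 (.c 48 (.c 16 (.c 40 .nil)))) (.b 8257 .nil)) (.I .tdb (.c 0 (.c 24 (.c 40 (.c 16 .nil)))) (.b 48 (.b 8257 .nil))))) (.node (.node (.I .tdb (.c 24 (.c 40 (.c 9025011228269257 (.c 32 .nil)))) .nil) (.I .tdb (.c 24 (.c 40 (.c 59109062884628932361 (.c 32 .nil)))) .nil)) (.node (.I .tdb (.c 24 (.c 40 (.c 35464401931273 (.c 32 .nil)))) .nil) (.I .tdb (.c 24 (.c 32 (.c 9025011228269257 (.c 40 .nil)))) .nil)))) (.node (.node (.node (.I .tdb (.c 24 (.c 32 (.c 59109062884628932361 (.c 40 .nil)))) .nil) (.I .tdb (.c 24 (.c 32 (.c 35464401931273 (.c 40 .nil)))) .nil)) (.node (.I .tdb (.c 16 (.c 18433 (.c 24 (.c 32 .nil)))) (.b 12865 .nil)) (.I .tdb (.c 0 (.c 48 (.c 24 (.c 32 .nil))))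 (.b 16 (.b 12865 .nil))))) (.node (.node (.I .tdb (.c 16 (.c 18433 (.c 24 (.c 40 .nil)))) (.b 8257 .nil)) (.I .tdb (.c 0 (.c 48 (.c 24 (.c 40 .nil)))) (.b 16 (.b 8257 .nil)))) (.node (.I .tdb (.c 2049 (.c 48 (.c 24 (.c 32 .nil)))) (.b 12865 .nil)) (.I .tdb (.c 0 (.c 16 (.c 32 (.c 24 .nil)))) (.b 48 (.b 12865 .nil)))))))))

noncomputable def c4_27 : Tr := (.node (.node (.node (.node (.node (.node (.I .tdb (.c 2049 (.c 48 (.c 24 (.c 40 .nil)))) (.b 8257 .nil)) (.I .tdb (.c 0 (.c 16 (.c 40 (.c 24 .nil)))) (.b 48 (.b 8257 .nil)))) (.node (.I .tdb (.c 8 (.c 18433 (.c 24 (.c 32 .nil)))) (.b 12929 .nil)) (.I .tdb (.c 0 (.c 48 (.c 24 (.c 32 .nil)))) (.b 8 (.b 12929 .nil))))) (.node (.node (.I .tdb (.c 8 (.c 18433 (.c 24 (.c 40 .nil)))) (.b 8321 .nil)) (.I .tdb (.c 0 (.c 48 (.c 24 (.c 40 .nil)))) (.b 8 (.b 8321 .nil)))) (.node (.I .tdb (.c 513 (.c 48 (.c 24 (.c 32 .nil)))) (.b 12929 .nil))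 (.I .tdb (.c 0 (.c 8 (.c 24 (.c 32 .nil)))) (.b 48 (.b 12929 .nil)))))) (.node (.node (.node (.I .tdb (.c 513 (.c 48 (.c 24 (.c 40 .nil)))) (.b 8321 .nil)) (.I .tdb (.c 0 (.c 8 (.c 24 (.c 40 .nil)))) (.b 48 (.b 8321 .nil)))) (.node (.I .tdb (.c 8 (.c 18433 (.c 16 (.c 32 .nil)))) (.b 12993 .nil)) (.I .tdb (.c 0 (.c 48 (.c 16 (.c 32 .nil)))) (.b 8 (.b 12993 .nil))))) (.node (.node (.I .tdb (.c 8 (.c 18433 (.c 16 (.c 40 .nil)))) (.b 8385 .nil)) (.I .tdb (.c 0 (.c 48 (.c 16 (.c 40 .nil)))) (.b 8 (.b 8385 .nil)))) (.node (.I .tdb (.c 513 (.c 48 (.c 16 (.c 32 .nil)))) (.b 12993 .nil)) (.I .tdb (.c 0 (.c 8 (.c 16 (.c 32 .nil)))) (.b 48 (.b 12993 .nil))))))) (.node (.node (.node (.node (.I .tdb (.c 513 (.c 48 (.c 16 (.c 40 .nil)))) (.b 8385 .nil)) (.I .tdb (.c 0 (.c 8 (.c 16 (.c 40 .nil)))) (.b 48 (.b 8385 .nil)))) (.node (.I .tdb (.c 0 (.c 48 (.c 16 (.c 32 .nil)))) (.b 12865 (.b 24 .nil)))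 (.I .tdb (.c 0 (.c 48 (.c 16 (.c 40 .nil)))) (.b 8257 (.b 24 .nil))))) (.node (.node (.I .tdb (.c 0 (.c 48 (.c 24 (.c 40 .nil)))) (.b 2113 (.b 32 .nil))) (.I .tdb (.c 0 (.c 48 (.c 32 (.c 40 .nil)))) (.b 2113 (.b 24 .nil)))) (.node (.I .jac (.c 617611520074185 (.c 16 (.c 40 .nil))) (.b 8 .nil)) (.I .tdb (.c 0 (.c 48 (.c 8 (.c 40 .nil)))) (.b 4737 (.b 32 .nil)))))) (.node (.node (.node (.I .jac (.c 3561346121425353 (.c 16 (.c 32 .nil))) (.b 8 .nil)) (.I .tdb (.c 0 (.c 48 (.c 24 (.c 40 .nil)))) (.b 8321 (.b 8 .nil)))) (.node (.I .jac (.c 580749782704585 (.c 24 (.c 40 .nil))) (.b 16 .nil)) (.I .jac (.c 3491688652046793 (.c 24 (.c 32 .nil))) (.b 8 .nil)))) (.node (.node (.I .jac (.c 15456208906582089 (.c 24 (.c 32 .nil))) (.b 8 .nil)) (.I .tdb (.c 0 (.c 48 (.c 16 (.c 40 .nil)))) (.b 8385 (.b 8 .nil)))) (.node (.I .tdb (.c 32 (.c 2105673 (.c 16 (.c 48 .nil)))) (.b 24 .nil)) (.I .tdb (.c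 513 (.c 40 (.c 16 (.c 48 .nil)))) (.b 32 (.b 24 .nil)))))))) (.node (.node (.node (.node (.node (.I .tdb (.c 0 (.c 8 (.c 16 (.c 48 .nil)))) (.b 40 (.b 32 (.b 24 .nil)))) (.I .tdb (.c 2105609 (.c 40 (.c 16 (.c 48 .nil)))) (.b 24 .nil))) (.node (.I .tdb (.c 513 (.c 32 (.c 48 (.c 16 .nil)))) (.b 40 (.b 24 .nil))) (.I .tdb (.c 0 (.c 8 (.c 16 (.c 48 .nil)))) (.b 32 (.b 40 (.b 24 .nil)))))) (.node (.node (.I .tdb (.c 24 (.c 1310925065 (.c 18497 (.c 16 .nil)))) .nil) (.I .tdb (.c 32 (.c 12801 (.c 18497 (.c 16 .nil)))) (.b 24 .nil))) (.node (.I .tdb (.c 0 (.c 40 (.c 18497 (.c 16 .nil)))) (.b 32 (.b 24 .nil))) (.I .tdb (.c 8 (.c 48 (.c 0 (.c 16 .nil)))) (.b 40 (.b 32 (.b 24 .nil))))))) (.node (.node (.node (.I .tdb (.c 8 (.c 48 (.c 16 (.c 40 .nil)))) (.b 0 (.b 32 (.b 24 .nil)))) (.I .tdb (.c 24 (.c 537002313 (.c 18497 (.c 16 .nil)))) .nil)) (.node (.I .tdb (.c 40 (.c 8193 (.c 18497 (.c 16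 .nil)))) (.b 24 .nil)) (.I .tdb (.c 0 (.c 32 (.c 18497 (.c 16 .nil)))) (.b 40 (.b 24 .nil))))) (.node (.node (.I .tdb (.c 8 (.c 48 (.c 0 (.c 16 .nil)))) (.b 32 (.b 40 (.b 24 .nil)))) (.I .tdb (.c 8 (.c 48 (.c 16 (.c 32 .nil)))) (.b 0 (.b 40 (.b 24 .nil))))) (.node (.I .tdb (.c 8 (.c 48 (.c 16 (.c 32 .nil)))) (.b 1310925001 .nil)) (.I .tdb (.c 8 (.c 48 (.c 16 (.c 40 .nil)))) (.b 0 (.b 24 (.b 32 .nil)))))))) (.node (.node (.node (.node (.I .tdb (.c 32 (.c 169943369 (.c 18497 (.c 16 .nil)))) .nil) (.I .tdb (.c 8 (.c 48 (.c 16 (.c 32 .nil)))) (.b 169943369 .nil))) (.node (.I .tdb (.c 4609 (.c 40 (.c 18497 (.c 16 .nil)))) (.b 32 .nil)) (.I .tdb (.c 0 (.c 24 (.c 18497 (.c 16 .nil)))) (.b 40 (.b 32 .nil))))) (.node (.node (.I .tdb (.c 8 (.c 48 (.c 0 (.c 16 .nil)))) (.b 24 (.b 40 (.b 32 .nil)))) (.I .tdb (.c 8 (.c 48 (.c 16 (.c 40 .nil)))) (.b 537002185 .nil))) (.node (.I .tdb (.c 8 (.c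 48 (.c 16 (.c 32 .nil)))) (.b 0 (.b 24 (.b 40 .nil)))) (.I .tdb (.c 169943305 (.c 40 (.c 18497 (.c 16 .nil)))) .nil)))) (.node (.node (.node (.I .tdb (.c 4609 (.c 32 (.c 18497 (.c 16 .nil)))) (.b 40 .nil)) (.I .tdb (.c 0 (.c 24 (.c 18497 (.c 16 .nil)))) (.b 32 (.b 40 .nil)))) (.node (.I .tdb (.c 8 (.c 48 (.c 0 (.c 16 .nil)))) (.b 24 (.b 32 (.b 40 .nil)))) (.I .tdb (.c 8 (.c 48 (.c 16 (.c 40 .nil)))) (.b 169943305 .nil)))) (.node (.node (.I .tdb (.c 16 (.c 48 (.c 8 (.c 24 .nil)))) (.b 1310925065 .nil)) (.I .tdb (.c 16 (.c 48 (.c 8 (.c 24 .nil)))) (.b 537002313 .nil))) (.node (.I .tdb (.c 32 (.c 1310925001 (.c 18561 (.c 8 .nil)))) .nil) (.I .tdb (.c 24 (.c 12801 (.c 18561 (.c 8 .nil)))) (.b 32 .nil))))))))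

noncomputable def c4_28 : Tr := (.node (.node (.node (.node (.node (.node (.I .tdb (.c 0 (.c 40 (.c 18561 (.c 8 .nil)))) (.b 24 (.b 32 .nil))) (.I .tdb (.c 16 (.c 48 (.c 0 (.c 8 .nil)))) (.b 40 (.b 24 (.b 32 .nil))))) (.node (.I .tdb (.c 16 (.c 48 (.c 8 (.c 40 .nil)))) (.b 0 (.b 24 (.b 32 .nil)))) (.I .tdb (.c 32 (.c 169943369 (.c 18561 (.c 8 .nil)))) .nil))) (.node (.node (.I .tdb (.c 16 (.c 48 (.c 8 (.c 32 .nil)))) (.b 169943369 .nil)) (.I .tdb (.c 4609 (.c 40 (.c 18561 (.c 8 .nil)))) (.b 32 .nil))) (.node (.I .tdb (.c 0 (.c 24 (.c 18561 (.c 8 .nil)))) (.b 40 (.b 32 .nil))) (.I .tdb (.c 16 (.c 48 (.c 0 (.c 8 .nil)))) (.b 24 (.b 40 (.b 32 .nil))))))) (.node (.node (.node (.I .tdb (.c 16 (.c 48 (.c 8 (.c 24 .nil)))) (.b 0 (.b 40 (.b 32 .nil)))) (.I .tdb (.c 40 (.c 537002185 (.c 18561 (.c 8 .nil)))) .nil)) (.node (.I .tdb (.c 24 (.c 8193 (.c 18561 (.c 8 .nil)))) (.b 40 .nil)) (.I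 .tdb (.c 0 (.c 32 (.c 18561 (.c 8 .nil)))) (.b 24 (.b 40 .nil))))) (.node (.node (.I .tdb (.c 16 (.c 48 (.c 0 (.c 8 .nil)))) (.b 32 (.b 24 (.b 40 .nil)))) (.I .tdb (.c 16 (.c 48 (.c 8 (.c 32 .nil)))) (.b 0 (.b 24 (.b 40 .nil))))) (.node (.I .tdb (.c 169943305 (.c 40 (.c 18561 (.c 8 .nil)))) .nil) (.I .tdb (.c 4609 (.c 32 (.c 18561 (.c 8 .nil)))) (.b 40 .nil)))))) (.node (.node (.node (.node (.I .tdb (.c 0 (.c 24 (.c 18561 (.c 8 .nil)))) (.b 32 (.b 40 .nil))) (.I .tdb (.c 16 (.c 48 (.c 0 (.c 8 .nil)))) (.b 24 (.b 32 (.b 40 .nil))))) (.node (.I .tdb (.c 16 (.c 48 (.c 8 (.c 24 .nil)))) (.b 0 (.b 32 (.b 40 .nil)))) (.I .tdb (.c 16 (.c 48 (.c 8 (.c 40 .nil)))) (.b 169943305 .nil)))) (.node (.node (.I .tdb (.c 32 (.c 2105673 (.c 24 (.c 48 .nil)))) (.b 16 .nil)) (.I .tdb (.c 513 (.c 40 (.c 24 (.c 48 .nil)))) (.b 32 (.b 16 .nil)))) (.node (.I .tdb (.c 0 (.c 8 (.c 24 (.c 48 .nil)))) (.b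 40 (.b 32 (.b 16 .nil)))) (.I .tdb (.c 2105609 (.c 40 (.c 24 (.c 48 .nil)))) (.b 16 .nil))))) (.node (.node (.node (.I .tdb (.c 513 (.c 32 (.c 48 (.c 24 .nil)))) (.b 40 (.b 16 .nil))) (.I .tdb (.c 0 (.c 8 (.c 24 (.c 48 .nil)))) (.b 32 (.b 40 (.b 16 .nil))))) (.node (.I .tdb (.c 16 (.c 1310925065 (.c 18497 (.c 24 .nil)))) .nil) (.I .tdb (.c 32 (.c 12801 (.c 18497 (.c 24 .nil)))) (.b 16 .nil)))) (.node (.node (.I .tdb (.c 0 (.c 40 (.c 18497 (.c 24 .nil)))) (.b 32 (.b 16 .nil))) (.I .tdb (.c 8 (.c 48 (.c 0 (.c 24 .nil)))) (.b 40 (.b 32 (.b 16 .nil))))) (.node (.I .tdb (.c 8 (.c 48 (.c 24 (.c 40 .nil)))) (.b 0 (.b 32 (.b 16 .nil)))) (.I .tdb (.c 16 (.c 537002313 (.c 18497 (.c 24 .nil)))) .nil)))))) (.node (.node (.node (.node (.node (.I .tdb (.c 40 (.c 8193 (.c 18497 (.c 24 .nil)))) (.b 16 .nil)) (.I .tdb (.c 0 (.c 32 (.c 18497 (.c 24 .nil)))) (.b 40 (.b 16 .nil)))) (.node (.I .tdb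 (.c 8 (.c 48 (.c 0 (.c 24 .nil)))) (.b 32 (.b 40 (.b 16 .nil)))) (.I .tdb (.c 8 (.c 48 (.c 24 (.c 32 .nil)))) (.b 0 (.b 40 (.b 16 .nil)))))) (.node (.node (.I .tdb (.c 8 (.c 48 (.c 24 (.c 32 .nil)))) (.b 1310924937 .nil)) (.I .tdb (.c 8 (.c 48 (.c 24 (.c 40 .nil)))) (.b 0 (.b 16 (.b 32 .nil))))) (.node (.I .tdb (.c 32 (.c 33587529 (.c 18497 (.c 24 .nil)))) .nil) (.I .tdb (.c 8 (.c 48 (.c 24 (.c 32 .nil)))) (.b 33587529 .nil))))) (.node (.node (.node (.I .tdb (.c 2049 (.c 40 (.c 18497 (.c 24 .nil)))) (.b 32 .nil)) (.I .tdb (.c 0 (.c 16 (.c 18497 (.c 24 .nil)))) (.b 40 (.b 32 .nil)))) (.node (.I .tdb (.c 8 (.c 48 (.c 0 (.c 24 .nil)))) (.b 16 (.b 40 (.b 32 .nil)))) (.I .tdb (.c 8 (.c 48 (.c 24 (.c 40 .nil)))) (.b 537002121 .nil)))) (.node (.node (.I .tdb (.c 8 (.c 48 (.c 24 (.c 32 .nil)))) (.b 0 (.b 16 (.b 40 .nil)))) (.I .tdb (.c 33587465 (.c 40 (.c 18497 (.c 24 .nil)))) .nil)) (.node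 (.I .tdb (.c 2049 (.c 32 (.c 18497 (.c 24 .nil)))) (.b 40 .nil)) (.I .tdb (.c 0 (.c 16 (.c 18497 (.c 24 .nil)))) (.b 32 (.b 40 .nil))))))) (.node (.node (.node (.node (.I .tdb (.c 8 (.c 48 (.c 0 (.c 24 .nil)))) (.b 16 (.b 32 (.b 40 .nil)))) (.I .tdb (.c 8 (.c 48 (.c 24 (.c 40 .nil)))) (.b 33587465 .nil))) (.node (.I .tdb (.c 24 (.c 48 (.c 8 (.c 16 .nil)))) (.b 1310925065 .nil)) (.I .tdb (.c 24 (.c 48 (.c 8 (.c 16 .nil)))) (.b 537002313 .nil)))) (.node (.node (.I .tdb (.c 32 (.c 1310924937 (.c 18625 (.c 8 .nil)))) .nil) (.I .tdb (.c 16 (.c 12801 (.c 18625 (.c 8 .nil)))) (.b 32 .nil))) (.node (.I .tdb (.c 0 (.c 40 (.c 18625 (.c 8 .nil)))) (.b 16 (.b 32 .nil))) (.I .tdb (.c 24 (.c 48 (.c 0 (.c 8 .nil)))) (.b 40 (.b 16 (.b 32 .nil))))))) (.node (.node (.node (.I .tdb (.c 24 (.c 48 (.c 8 (.c 40 .nil)))) (.b 0 (.b 16 (.b 32 .nil)))) (.I .tdb (.c 32 (.c 33587529 (.c 18625 (.c 8 .nil))))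 .nil)) (.node (.I .tdb (.c 24 (.c 48 (.c 8 (.c 32 .nil)))) (.b 33587529 .nil)) (.I .tdb (.c 2049 (.c 40 (.c 18625 (.c 8 .nil)))) (.b 32 .nil)))) (.node (.node (.I .tdb (.c 0 (.c 16 (.c 18625 (.c 8 .nil)))) (.b 40 (.b 32 .nil))) (.I .tdb (.c 24 (.c 48 (.c 0 (.c 8 .nil)))) (.b 16 (.b 40 (.b 32 .nil))))) (.node (.I .tdb (.c 24 (.c 48 (.c 8 (.c 16 .nil)))) (.b 0 (.b 40 (.b 32 .nil)))) (.I .tdb (.c 40 (.c 537002121 (.c 18625 (.c 8 .nil)))) .nil)))))))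

noncomputable def c4_29 : Tr := (.node (.node (.node (.node (.node (.node (.I .tdb (.c 16 (.c 8193 (.c 18625 (.c 8 .nil)))) (.b 40 .nil)) (.I .tdb (.c 0 (.c 32 (.c 18625 (.c 8 .nil)))) (.b 16 (.b 40 .nil)))) (.node (.I .tdb (.c 24 (.c 48 (.c 0 (.c 8 .nil)))) (.b 32 (.b 16 (.b 40 .nil)))) (.I .tdb (.c 24 (.c 48 (.c 8 (.c 32 .nil)))) (.b 0 (.b 16 (.b 40 .nil)))))) (.node (.node (.I .tdb (.c 33587465 (.c 40 (.c 18625 (.c 8 .nil)))) .nil) (.I .tdb (.c 2049 (.c 32 (.c 18625 (.c 8 .nil)))) (.b 40 .nil))) (.node (.I .tdb (.c 0 (.c 16 (.c 18625 (.c 8 .nil)))) (.b 32 (.b 40 .nil))) (.I .tdb (.c 24 (.c 48 (.c 0 (.c 8 .nil)))) (.b 16 (.b 32 (.b 40 .nil))))))) (.node (.node (.node (.I .tdb (.c 24 (.c 48 (.c 8 (.c 16 .nil)))) (.b 0 (.b 32 (.b 40 .nil)))) (.I .tdb (.c 24 (.c 48 (.c 8 (.c 40 .nil)))) (.b 33587465 .nil))) (.node (.I .tdb (.c 8 (.c 1310925065 (.c 18561 (.c 24 .nil)))) .nil) (.I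 .jac (.c 12801 (.c 8786563 (.c 48 .nil))) (.b 8 .nil)))) (.node (.node (.I .jac (.c 0 (.c 16 (.c 43954883 .nil))) (.b 32 (.b 8 .nil))) (.I .tdb (.c 32 (.c 12801 (.c 18561 (.c 24 .nil)))) (.b 8 .nil))) (.node (.I .tdb (.c 0 (.c 40 (.c 18561 (.c 24 .nil)))) (.b 32 (.b 8 .nil))) (.I .tdb (.c 16 (.c 48 (.c 0 (.c 24 .nil)))) (.b 40 (.b 32 (.b 8 .nil)))))))) (.node (.node (.node (.node (.I .tdb (.c 16 (.c 48 (.c 24 (.c 40 .nil)))) (.b 0 (.b 32 (.b 8 .nil)))) (.I .tdb (.c 8 (.c 537002313 (.c 18561 (.c 24 .nil)))) .nil)) (.node (.I .jac (.c 8193 (.c 21099139 (.c 48 .nil))) (.b 8 .nil)) (.I .jac (.c 8193 (.c 16 (.c 43954883 .nil))) (.b 8 .nil)))) (.node (.node (.I .jac (.c 0 (.c 16 (.c 43655363 .nil))) (.b 40 (.b 8 .nil))) (.I .tdb (.c 40 (.c 8193 (.c 18561 (.c 24 .nil)))) (.b 8 .nil))) (.node (.I .tdb (.c 0 (.c 32 (.c 18561 (.c 24 .nil)))) (.b 40 (.b 8 .nil))) (.I .tdb (.c 16 (.c 48 (.c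 0 (.c 24 .nil)))) (.b 32 (.b 40 (.b 8 .nil))))))) (.node (.node (.node (.I .tdb (.c 16 (.c 48 (.c 24 (.c 32 .nil)))) (.b 0 (.b 40 (.b 8 .nil)))) (.I .tdb (.c 32 (.c 1310924873 (.c 18561 (.c 24 .nil)))) .nil)) (.node (.I .tdb (.c 16 (.c 48 (.c 24 (.c 32 .nil)))) (.b 1310924873 .nil)) (.I .tdb (.c 8 (.c 12801 (.c 18561 (.c 24 .nil)))) (.b 32 .nil)))) (.node (.node (.I .tdb (.c 0 (.c 40 (.c 18561 (.c 24 .nil)))) (.b 8 (.b 32 .nil))) (.I .tdb (.c 16 (.c 48 (.c 0 (.c 24 .nil)))) (.b 40 (.b 8 (.b 32 .nil))))) (.node (.I .tdb (.c 40 (.c 537002057 (.c 18561 (.c 24 .nil)))) .nil) (.I .tdb (.c 16 (.c 48 (.c 24 (.c 40 .nil)))) (.b 537002057 .nil))))))) (.node (.node (.node (.node (.node (.I .tdb (.c 8 (.c 8193 (.c 18561 (.c 24 .nil)))) (.b 40 .nil)) (.I .tdb (.c 0 (.c 32 (.c 18561 (.c 24 .nil)))) (.b 8 (.b 40 .nil)))) (.node (.I .tdb (.c 16 (.c 48 (.c 0 (.c 24 .nil)))) (.b 32 (.b 8 (.b 40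 .nil)))) (.I .tdb (.c 16 (.c 24 (.c 48 (.c 35470870263689 .nil)))) .nil))) (.node (.node (.I .tdb (.c 16 (.c 24 (.c 48 (.c 35468714087369 .nil)))) .nil) (.I .tdb (.c 8 (.c 1310925065 (.c 18625 (.c 16 .nil)))) .nil)) (.node (.I .jac (.c 0 (.c 43954819 (.c 24 .nil))) (.b 32 (.b 8 .nil))) (.I .tdb (.c 32 (.c 12801 (.c 18625 (.c 16 .nil)))) (.b 8 .nil))))) (.node (.node (.node (.I .tdb (.c 0 (.c 40 (.c 18625 (.c 16 .nil)))) (.b 32 (.b 8 .nil))) (.I .tdb (.c 24 (.c 48 (.c 0 (.c 16 .nil)))) (.b 40 (.b 32 (.b 8 .nil))))) (.node (.I .tdb (.c 24 (.c 48 (.c 16 (.c 40 .nil)))) (.b 0 (.b 32 (.b 8 .nil)))) (.I .tdb (.c 8 (.c 537002313 (.c 18625 (.c 16 .nil)))) .nil))) (.node (.node (.I .jac (.c 0 (.c 43655299 (.c 24 .nil))) (.b 40 (.b 8 .nil))) (.I .tdb (.c 40 (.c 8193 (.c 18625 (.c 16 .nil)))) (.b 8 .nil))) (.node (.I .tdb (.c 0 (.c 32 (.c 18625 (.c 16 .nil)))) (.b 40 (.b 8 .nil))) (.I .tdb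 (.c 24 (.c 48 (.c 0 (.c 16 .nil)))) (.b 32 (.b 40 (.b 8 .nil)))))))) (.node (.node (.node (.node (.I .tdb (.c 24 (.c 48 (.c 16 (.c 32 .nil)))) (.b 0 (.b 40 (.b 8 .nil)))) (.I .tdb (.c 32 (.c 1310924873 (.c 18625 (.c 16 .nil)))) .nil)) (.node (.I .tdb (.c 24 (.c 48 (.c 16 (.c 32 .nil)))) (.b 1310924873 .nil)) (.I .tdb (.c 8 (.c 12801 (.c 18625 (.c 16 .nil)))) (.b 32 .nil)))) (.node (.node (.I .tdb (.c 0 (.c 40 (.c 18625 (.c 16 .nil)))) (.b 8 (.b 32 .nil))) (.I .tdb (.c 24 (.c 48 (.c 0 (.c 16 .nil)))) (.b 40 (.b 8 (.b 32 .nil))))) (.node (.I .tdb (.c 40 (.c 537002057 (.c 18625 (.c 16 .nil)))) .nil) (.I .tdb (.c 24 (.c 48 (.c 16 (.c 40 .nil)))) (.b 537002057 .nil))))) (.node (.node (.node (.I .tdb (.c 8 (.c 8193 (.c 18625 (.c 16 .nil)))) (.b 40 .nil)) (.I .tdb (.c 0 (.c 32 (.c 18625 (.c 16 .nil)))) (.b 8 (.b 40 .nil)))) (.node (.I .tdb (.c 24 (.c 48 (.c 0 (.c 16 .nil)))) (.b 32 (.b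 8 (.b 40 .nil)))) (.I .tdb (.c 4673 (.c 48 (.c 16 (.c 32 .nil)))) (.b 12801 .nil)))) (.node (.node (.I .tdb (.c 8 (.c 24 (.c 32 (.c 16 .nil)))) (.b 48 (.b 12801 .nil))) (.I .tdb (.c 4673 (.c 48 (.c 16 (.c 40 .nil)))) (.b 8193 .nil))) (.node (.I .tdb (.c 8 (.c 24 (.c 40 (.c 16 .nil)))) (.b 48 (.b 8193 .nil))) (.I .tdb (.c 2113 (.c 48 (.c 24 (.c 32 .nil)))) (.b 12801 .nil))))))))

noncomputable def c4_30 : Tr := (.node (.node (.node (.node (.node (.node (.I .tdb (.c 8 (.c 16 (.c 32 (.c 24 .nil)))) (.b 48 (.b 12801 .nil))) (.I .tdb (.c 2113 (.c 48 (.c 24 (.c 40 .nil)))) (.b 8193 .nil))) (.node (.I .tdb (.c 8 (.c 16 (.c 40 (.c 24 .nil)))) (.b 48 (.b 8193 .nil))) (.I .tdb (.c 32 (.c 12801 (.c 24 (.c 48 .nil)))) (.b 2113 .nil)))) (.node (.node (.I .tdb (.c 0 (.c 40 (.c 24 (.c 48 .nil)))) (.b 32 (.b 2113 .nil))) (.I .tdb (.c 40 (.c 8193 (.c 24 (.c 48 .nil)))) (.b 2113 .nil))) (.node (.I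 .tdb (.c 0 (.c 32 (.c 24 (.c 48 .nil)))) (.b 40 (.b 2113 .nil))) (.I .tdb (.c 16 (.c 2105545 (.c 32 (.c 48 .nil)))) (.b 40 .nil))))) (.node (.node (.node (.I .tdb (.c 513 (.c 24 (.c 48 (.c 32 .nil)))) (.b 16 (.b 40 .nil))) (.I .tdb (.c 0 (.c 8 (.c 32 (.c 48 .nil)))) (.b 24 (.b 16 (.b 40 .nil))))) (.node (.I .tdb (.c 24 (.c 2105481 (.c 32 (.c 48 .nil)))) (.b 40 .nil)) (.I .tdb (.c 513 (.c 16 (.c 48 (.c 32 .nil)))) (.b 24 (.b 40 .nil))))) (.node (.node (.I .tdb (.c 0 (.c 8 (.c 32 (.c 48 .nil)))) (.b 16 (.b 24 (.b 40 .nil)))) (.I .tdb (.c 16 (.c 1310925001 (.c 18497 (.c 32 .nil)))) .nil)) (.node (.I .tdb (.c 24 (.c 12801 (.c 18497 (.c 32 .nil)))) (.b 16 .nil)) (.I .tdb (.c 0 (.c 40 (.c 18497 (.c 32 .nil)))) (.b 24 (.b 16 .nil))))))) (.node (.node (.node (.node (.I .tdb (.c 8 (.c 48 (.c 0 (.c 32 .nil)))) (.b 40 (.b 24 (.b 16 .nil)))) (.I .tdb (.c 24 (.c 1310924937 (.c 18497 (.c 32 .nil))))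 .nil)) (.node (.I .tdb (.c 16 (.c 12801 (.c 18497 (.c 32 .nil)))) (.b 24 .nil)) (.I .tdb (.c 0 (.c 40 (.c 18497 (.c 32 .nil)))) (.b 16 (.b 24 .nil))))) (.node (.node (.I .tdb (.c 8 (.c 48 (.c 0 (.c 32 .nil)))) (.b 40 (.b 16 (.b 24 .nil)))) (.I .tdb (.c 40 (.c 169943177 (.c 18497 (.c 32 .nil)))) .nil)) (.node (.I .tdb (.c 16 (.c 4609 (.c 18497 (.c 32 .nil)))) (.b 40 .nil)) (.I .tdb (.c 0 (.c 24 (.c 32 (.c 18497 .nil)))) (.b 16 (.b 40 .nil)))))) (.node (.node (.node (.I .tdb (.c 8 (.c 48 (.c 0 (.c 32 .nil)))) (.b 24 (.b 16 (.b 40 .nil)))) (.I .tdb (.c 40 (.c 33587401 (.c 18497 (.c 32 .nil)))) .nil)) (.node (.I .tdb (.c 24 (.c 2049 (.c 18497 (.c 32 .nil)))) (.b 40 .nil)) (.I .tdb (.c 0 (.c 16 (.c 32 (.c 18497 .nil)))) (.b 24 (.b 40 .nil))))) (.node (.node (.I .tdb (.c 8 (.c 48 (.c 0 (.c 32 .nil)))) (.b 16 (.b 24 (.b 40 .nil)))) (.I .tdb (.c 16 (.c 1310925001 (.c 18689 (.c 8 .nil))))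 .nil)) (.node (.I .tdb (.c 32 (.c 48 (.c 8 (.c 16 .nil)))) (.b 1310925001 .nil)) (.I .tdb (.c 24 (.c 12801 (.c 18689 (.c 8 .nil)))) (.b 16 .nil))))))) (.node (.node (.node (.node (.node (.I .tdb (.c 0 (.c 40 (.c 18689 (.c 8 .nil)))) (.b 24 (.b 16 .nil))) (.I .tdb (.c 32 (.c 48 (.c 0 (.c 8 .nil)))) (.b 40 (.b 24 (.b 16 .nil))))) (.node (.I .tdb (.c 32 (.c 48 (.c 8 (.c 40 .nil)))) (.b 0 (.b 24 (.b 16 .nil)))) (.I .tdb (.c 16 (.c 169943369 (.c 18689 (.c 8 .nil)))) .nil))) (.node (.node (.I .tdb (.c 4609 (.c 40 (.c 18689 (.c 8 .nil)))) (.b 16 .nil)) (.I .tdb (.c 0 (.c 24 (.c 18689 (.c 8 .nil)))) (.b 40 (.b 16 .nil)))) (.node (.I .tdb (.c 32 (.c 48 (.c 0 (.c 8 .nil)))) (.b 24 (.b 40 (.b 16 .nil)))) (.I .tdb (.c 32 (.c 48 (.c 8 (.c 24 .nil)))) (.b 0 (.b 40 (.b 16 .nil))))))) (.node (.node (.node (.I .tdb (.c 24 (.c 1310924937 (.c 18689 (.c 8 .nil)))) .nil) (.I .tdb (.c 32 (.c 48 (.c 8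 (.c 24 .nil)))) (.b 1310924937 .nil))) (.node (.I .tdb (.c 16 (.c 12801 (.c 18689 (.c 8 .nil)))) (.b 24 .nil)) (.I .tdb (.c 0 (.c 40 (.c 18689 (.c 8 .nil)))) (.b 16 (.b 24 .nil))))) (.node (.node (.I .tdb (.c 32 (.c 48 (.c 0 (.c 8 .nil)))) (.b 40 (.b 16 (.b 24 .nil)))) (.I .tdb (.c 32 (.c 48 (.c 8 (.c 40 .nil)))) (.b 0 (.b 16 (.b 24 .nil))))) (.node (.I .tdb (.c 24 (.c 33587529 (.c 18689 (.c 8 .nil)))) .nil) (.I .tdb (.c 2049 (.c 40 (.c 18689 (.c 8 .nil)))) (.b 24 .nil)))))) (.node (.node (.node (.node (.I .tdb (.c 0 (.c 16 (.c 18689 (.c 8 .nil)))) (.b 40 (.b 24 .nil))) (.I .tdb (.c 32 (.c 48 (.c 0 (.c 8 .nil)))) (.b 16 (.b 40 (.b 24 .nil))))) (.node (.I .tdb (.c 32 (.c 48 (.c 8 (.c 16 .nil)))) (.b 0 (.b 40 (.b 24 .nil)))) (.I .tdb (.c 32 (.c 48 (.c 8 (.c 40 .nil)))) (.b 169943177 .nil)))) (.node (.node (.I .tdb (.c 32 (.c 48 (.c 8 (.c 40 .nil)))) (.b 33587401 .nil)) (.I .tdb (.c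 8 (.c 1310925001 (.c 18561 (.c 32 .nil)))) .nil)) (.node (.I .tdb (.c 24 (.c 12801 (.c 18561 (.c 32 .nil)))) (.b 8 .nil)) (.I .tdb (.c 0 (.c 40 (.c 18561 (.c 32 .nil)))) (.b 24 (.b 8 .nil)))))) (.node (.node (.node (.I .tdb (.c 16 (.c 48 (.c 0 (.c 32 .nil)))) (.b 40 (.b 24 (.b 8 .nil)))) (.I .tdb (.c 40 (.c 169943113 (.c 18561 (.c 32 .nil)))) .nil)) (.node (.I .tdb (.c 8 (.c 4609 (.c 18561 (.c 32 .nil)))) (.b 40 .nil)) (.I .tdb (.c 0 (.c 24 (.c 32 (.c 18561 .nil)))) (.b 8 (.b 40 .nil))))) (.node (.node (.I .tdb (.c 16 (.c 48 (.c 0 (.c 32 .nil)))) (.b 24 (.b 8 (.b 40 .nil)))) (.I .jac (.c 0 (.c 43954819 (.c 32 .nil))) (.b 24 (.b 8 .nil)))) (.node (.I .tdb (.c 32 (.c 48 (.c 16 (.c 40 .nil)))) (.b 0 (.b 24 (.b 8 .nil)))) (.I .tdb (.c 8 (.c 169943369 (.c 18689 (.c 16 .nil)))) .nil)))))))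

noncomputable def c4_31 : Tr := (.node (.node (.node (.node (.node (.node (.I .tdb (.c 4609 (.c 40 (.c 18689 (.c 16 .nil)))) (.b 8 .nil)) (.I .tdb (.c 0 (.c 24 (.c 18689 (.c 16 .nil)))) (.b 40 (.b 8 .nil)))) (.node (.I .tdb (.c 32 (.c 48 (.c 0 (.c 16 .nil)))) (.b 24 (.b 40 (.b 8 .nil)))) (.I .tdb (.c 24 (.c 1310924873 (.c 18689 (.c 16 .nil)))) .nil))) (.node (.node (.I .tdb (.c 8 (.c 12801 (.c 18689 (.c 16 .nil)))) (.b 24 .nil)) (.I .tdb (.c 0 (.c 40 (.c 18689 (.c 16 .nil)))) (.b 8 (.b 24 .nil)))) (.node (.I .tdb (.c 32 (.c 48 (.c 0 (.c 16 .nil)))) (.b 40 (.b 8 (.b 24 .nil)))) (.I .tdb (.c 32 (.c 48 (.c 16 (.c 40 .nil)))) (.b 169943113 .nil))))) (.node (.node (.node (.I .tdb (.c 0 (.c 40 (.c 545424777 (.c 16 .nil)))) (.b 24 .nil)) (.I .tdb (.c 48 (.c 8257 (.c 16 (.c 40 .nil)))) (.b 0 (.b 24 .nil)))) (.node (.I .tdb (.c 8 (.c 32 (.c 16 (.c 40 .nil)))) (.b 48 (.b 0 (.b 24 .nil))))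 (.I .tdb (.c 48 (.c 8257 (.c 16 (.c 40 .nil)))) (.b 4609 .nil)))) (.node (.node (.I .tdb (.c 8 (.c 32 (.c 16 (.c 40 .nil)))) (.b 48 (.b 4609 .nil))) (.I .tdb (.c 2113 (.c 48 (.c 0 (.c 32 .nil)))) (.b 40 (.b 24 .nil)))) (.node (.I .tdb (.c 8 (.c 16 (.c 32 (.c 0 .nil)))) (.b 48 (.b 40 (.b 24 .nil)))) (.I .tdb (.c 2113 (.c 48 (.c 0 (.c 32 .nil)))) (.b 24 (.b 40 .nil))))))) (.node (.node (.node (.node (.I .tdb (.c 8 (.c 16 (.c 32 (.c 0 .nil)))) (.b 48 (.b 24 (.b 40 .nil)))) (.I .tdb (.c 24 (.c 12801 (.c 32 (.c 48 .nil)))) (.b 2113 .nil))) (.node (.I .tdb (.c 0 (.c 40 (.c 32 (.c 48 .nil)))) (.b 24 (.b 2113 .nil))) (.I .tdb (.c 8 (.c 1310924937 (.c 18625 (.c 32 .nil)))) .nil))) (.node (.node (.I .tdb (.c 16 (.c 12801 (.c 18625 (.c 32 .nil)))) (.b 8 .nil)) (.I .tdb (.c 0 (.c 40 (.c 18625 (.c 32 .nil)))) (.b 16 (.b 8 .nil)))) (.node (.I .tdb (.c 24 (.c 48 (.c 0 (.c 32 .nil)))) (.b 40 (.b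 16 (.b 8 .nil)))) (.I .jac (.c 2049 (.c 21307587 (.c 48 .nil))) (.b 8 .nil))))) (.node (.node (.node (.I .jac (.c 513 (.c 24 (.c 43954947 .nil))) (.b 16 .nil)) (.I .tdb (.c 40 (.c 33587273 (.c 18625 (.c 32 .nil)))) .nil)) (.node (.I .tdb (.c 8 (.c 2049 (.c 18625 (.c 32 .nil)))) (.b 40 .nil)) (.I .tdb (.c 0 (.c 16 (.c 32 (.c 18625 .nil)))) (.b 8 (.b 40 .nil))))) (.node (.node (.I .tdb (.c 24 (.c 48 (.c 0 (.c 32 .nil)))) (.b 16 (.b 8 (.b 40 .nil)))) (.I .jac (.c 0 (.c 43954883 (.c 32 .nil))) (.b 16 (.b 8 .nil)))) (.node (.I .tdb (.c 32 (.c 48 (.c 24 (.c 40 .nil)))) (.b 0 (.b 16 (.b 8 .nil)))) (.I .tdb (.c 8 (.c 33587529 (.c 18689 (.c 24 .nil)))) .nil)))))) (.node (.node (.node (.node (.node (.I .jac (.c 2049 (.c 43954883 (.c 32 .nil))) (.b 8 .nil)) (.I .tdb (.c 2049 (.c 40 (.c 18689 (.c 24 .nil)))) (.b 8 .nil))) (.node (.I .tdb (.c 0 (.c 16 (.c 18689 (.c 24 .nil)))) (.b 40 (.b 8 .nil)))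 (.I .tdb (.c 32 (.c 48 (.c 0 (.c 24 .nil)))) (.b 16 (.b 40 (.b 8 .nil)))))) (.node (.node (.I .tdb (.c 16 (.c 1310924873 (.c 18689 (.c 24 .nil)))) .nil) (.I .tdb (.c 8 (.c 12801 (.c 18689 (.c 24 .nil)))) (.b 16 .nil))) (.node (.I .tdb (.c 0 (.c 40 (.c 18689 (.c 24 .nil)))) (.b 8 (.b 16 .nil))) (.I .tdb (.c 32 (.c 48 (.c 0 (.c 24 .nil)))) (.b 40 (.b 8 (.b 16 .nil))))))) (.node (.node (.node (.I .jac (.c 513 (.c 43954883 (.c 32 .nil))) (.b 16 .nil)) (.I .tdb (.c 32 (.c 48 (.c 24 (.c 40 .nil)))) (.b 33587273 .nil))) (.node (.I .tdb (.c 0 (.c 40 (.c 545424777 (.c 24 .nil)))) (.b 16 .nil)) (.I .tdb (.c 48 (.c 8257 (.c 24 (.c 40 .nil)))) (.b 0 (.b 16 .nil))))) (.node (.node (.I .tdb (.c 8 (.c 32 (.c 24 (.c 40 .nil)))) (.b 48 (.b 0 (.b 16 .nil)))) (.I .tdb (.c 48 (.c 8257 (.c 24 (.c 40 .nil)))) (.b 2049 .nil))) (.node (.I .tdb (.c 8 (.c 32 (.c 24 (.c 40 .nil)))) (.b 48 (.b 2049 .nil)))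 (.I .tdb (.c 4673 (.c 48 (.c 0 (.c 32 .nil)))) (.b 40 (.b 16 .nil))))))) (.node (.node (.node (.node (.I .tdb (.c 8 (.c 24 (.c 32 (.c 0 .nil)))) (.b 48 (.b 40 (.b 16 .nil)))) (.I .tdb (.c 4673 (.c 48 (.c 0 (.c 32 .nil)))) (.b 16 (.b 40 .nil)))) (.node (.I .tdb (.c 8 (.c 24 (.c 32 (.c 0 .nil)))) (.b 48 (.b 16 (.b 40 .nil)))) (.I .tdb (.c 16 (.c 12801 (.c 32 (.c 48 .nil)))) (.b 4673 .nil)))) (.node (.node (.I .tdb (.c 0 (.c 40 (.c 32 (.c 48 .nil)))) (.b 16 (.b 4673 .nil))) (.I .jac (.c 3632106110100553 (.c 16 (.c 48 .nil))) (.b 8 .nil))) (.node (.I .jac (.c 18433 (.c 21099139 (.c 32 .nil))) (.b 8 .nil)) (.I .jac (.c 18433 (.c 16 (.c 21307587 .nil))) (.b 8 .nil))))) (.node (.node (.node (.I .jac (.c 8786435 (.c 16 (.c 48 .nil))) (.b 8 (.b 40 .nil))) (.I .jac (.c 43655171 (.c 16 (.c 24 .nil))) (.b 40 (.b 8 .nil)))) (.node (.I .jac (.c 43655171 (.c 16 (.c 24 .nil))) (.b 8 (.b 40 .nil)))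 (.I .jac (.c 8652803 (.c 24 (.c 48 .nil))) (.b 40 (.b 8 .nil))))) (.node (.node (.I .jac (.c 43059203 (.c 24 (.c 32 .nil))) (.b 40 (.b 8 .nil))) (.I .jac (.c 8652803 (.c 24 (.c 48 .nil))) (.b 8 (.b 40 .nil)))) (.node (.I .jac (.c 43059203 (.c 24 (.c 32 .nil))) (.b 8 (.b 40 .nil))) (.I .tdb (.c 24 (.c 545424777 (.c 16 (.c 40 .nil)))) (.b 0 .nil))))))))

noncomputable def c4_32 : Tr := (.node (.node (.node (.node (.node (.node (.I .tdb (.c 32 (.c 174695817 (.c 16 (.c 40 .nil)))) (.b 0 .nil)) (.I .tdb (.c 4673 (.c 48 (.c 16 (.c 40 .nil)))) (.b 32 (.b 0 .nil)))) (.node (.I .tdb (.c 8 (.c 24 (.c 40 (.c 16 .nil)))) (.b 48 (.b 32 (.b 0 .nil)))) (.I .tdb (.c 16 (.c 545424777 (.c 24 (.c 40 .nil)))) (.b 0 .nil)))) (.node (.node (.I .tdb (.c 32 (.c 35718537 (.c 24 (.c 40 .nil)))) (.b 0 .nil)) (.I .tdb (.c 2113 (.c 48 (.c 24 (.c 40 .nil)))) (.b 32 (.b 0 .nil)))) (.node (.I .tdb (.c 8 (.c 16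 (.c 40 (.c 24 .nil)))) (.b 48 (.b 32 (.b 0 .nil)))) (.I .tdb (.c 16 (.c 24 (.c 12801 (.c 545424777 .nil)))) .nil)))) (.node (.node (.node (.I .tdb (.c 0 (.c 40 (.c 244149027818380041 (.c 32 .nil)))) .nil) (.I .tdb (.c 16 (.c 174695817 (.c 0 (.c 32 .nil)))) (.b 40 .nil))) (.node (.I .tdb (.c 0 (.c 40 (.c 10206511083363145 (.c 32 .nil)))) .nil) (.I .tdb (.c 24 (.c 35718537 (.c 0 (.c 32 .nil)))) (.b 40 .nil)))) (.node (.node (.I .jac (.c 0 (.c 21099075 (.c 48 .nil))) (.b 8321 .nil)) (.I .jac (.c 0 (.c 21307459 (.c 48 .nil))) (.b 4737 .nil))) (.node (.I .tdb (.c 0 (.c 40 (.c 24 (.c 48 .nil)))) (.b 8257 (.b 16 .nil))) (.I .tdb (.c 0 (.c 40 (.c 16 (.c 48 .nil)))) (.b 8257 (.b 24 .nil))))))) (.node (.node (.node (.node (.I .tdb (.c 0 (.c 40 (.c 16 (.c 48 .nil)))) (.b 4673 (.b 32 .nil))) (.I .tdb (.c 0 (.c 40 (.c 24 (.c 48 .nil)))) (.b 2113 (.b 32 .nil)))) (.node (.I .jac (.c 15456163896880457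 (.c 16 (.c 24 .nil))) (.b 0 .nil)) (.I .jac (.c 43954755 (.c 4737 (.c 32 .nil))) (.b 0 .nil)))) (.node (.node (.I .tdb (.c 16 (.c 2105545 (.c 40 (.c 48 .nil)))) (.b 32 .nil)) (.I .tdb (.c 513 (.c 24 (.c 40 (.c 48 .nil)))) (.b 16 (.b 32 .nil)))) (.node (.I .tdb (.c 0 (.c 8 (.c 40 (.c 48 .nil)))) (.b 24 (.b 16 (.b 32 .nil)))) (.I .tdb (.c 24 (.c 2105481 (.c 40 (.c 48 .nil)))) (.b 32 .nil))))) (.node (.node (.node (.I .tdb (.c 513 (.c 16 (.c 40 (.c 48 .nil)))) (.b 24 (.b 32 .nil))) (.I .tdb (.c 0 (.c 8 (.c 40 (.c 48 .nil)))) (.b 16 (.b 24 (.b 32 .nil))))) (.node (.I .tdb (.c 16 (.c 537002185 (.c 18497 (.c 40 .nil)))) .nil) (.I .tdb (.c 24 (.c 8193 (.c 18497 (.c 40 .nil)))) (.b 16 .nil)))) (.node (.node (.I .tdb (.c 0 (.c 32 (.c 18497 (.c 40 .nil)))) (.b 24 (.b 16 .nil))) (.I .tdb (.c 8 (.c 48 (.c 0 (.c 40 .nil)))) (.b 32 (.b 24 (.b 16 .nil))))) (.node (.I .tdb (.c 24 (.c 537002121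 (.c 18497 (.c 40 .nil)))) .nil) (.I .tdb (.c 16 (.c 8193 (.c 18497 (.c 40 .nil)))) (.b 24 .nil))))))) (.node (.node (.node (.node (.node (.I .tdb (.c 0 (.c 32 (.c 18497 (.c 40 .nil)))) (.b 16 (.b 24 .nil))) (.I .tdb (.c 8 (.c 48 (.c 0 (.c 40 .nil)))) (.b 32 (.b 16 (.b 24 .nil))))) (.node (.I .tdb (.c 32 (.c 169943177 (.c 18497 (.c 40 .nil)))) .nil) (.I .tdb (.c 16 (.c 4609 (.c 18497 (.c 40 .nil)))) (.b 32 .nil)))) (.node (.node (.I .tdb (.c 0 (.c 24 (.c 40 (.c 18497 .nil)))) (.b 16 (.b 32 .nil))) (.I .tdb (.c 8 (.c 48 (.c 0 (.c 40 .nil)))) (.b 24 (.b 16 (.b 32 .nil))))) (.node (.I .tdb (.c 32 (.c 33587401 (.c 18497 (.c 40 .nil)))) .nil) (.I .tdb (.c 24 (.c 2049 (.c 18497 (.c 40 .nil)))) (.b 32 .nil))))) (.node (.node (.node (.I .tdb (.c 0 (.c 16 (.c 40 (.c 18497 .nil)))) (.b 24 (.b 32 .nil))) (.I .tdb (.c 8 (.c 48 (.c 0 (.c 40 .nil)))) (.b 16 (.b 24 (.b 32 .nil))))) (.node (.I .tdb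 (.c 16 (.c 537002185 (.c 18753 (.c 8 .nil)))) .nil) (.I .tdb (.c 40 (.c 48 (.c 8 (.c 16 .nil)))) (.b 537002185 .nil)))) (.node (.node (.I .tdb (.c 24 (.c 8193 (.c 18753 (.c 8 .nil)))) (.b 16 .nil)) (.I .tdb (.c 0 (.c 32 (.c 18753 (.c 8 .nil)))) (.b 24 (.b 16 .nil)))) (.node (.I .tdb (.c 40 (.c 48 (.c 0 (.c 8 .nil)))) (.b 32 (.b 24 (.b 16 .nil)))) (.I .tdb (.c 40 (.c 48 (.c 8 (.c 32 .nil)))) (.b 0 (.b 24 (.b 16 .nil)))))))) (.node (.node (.node (.node (.I .tdb (.c 16 (.c 169943305 (.c 18753 (.c 8 .nil)))) .nil) (.I .tdb (.c 4609 (.c 32 (.c 18753 (.c 8 .nil)))) (.b 16 .nil))) (.node (.I .tdb (.c 0 (.c 24 (.c 18753 (.c 8 .nil)))) (.b 32 (.b 16 .nil))) (.I .tdb (.c 40 (.c 48 (.c 0 (.c 8 .nil)))) (.b 24 (.b 32 (.b 16 .nil)))))) (.node (.node (.I .tdb (.c 40 (.c 48 (.c 8 (.c 24 .nil)))) (.b 0 (.b 32 (.b 16 .nil)))) (.I .tdb (.c 24 (.c 537002121 (.c 18753 (.c 8 .nil)))) .nil)) (.node (.I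 .tdb (.c 40 (.c 48 (.c 8 (.c 24 .nil)))) (.b 537002121 .nil)) (.I .tdb (.c 16 (.c 8193 (.c 18753 (.c 8 .nil)))) (.b 24 .nil))))) (.node (.node (.node (.I .tdb (.c 0 (.c 32 (.c 18753 (.c 8 .nil)))) (.b 16 (.b 24 .nil))) (.I .tdb (.c 40 (.c 48 (.c 0 (.c 8 .nil)))) (.b 32 (.b 16 (.b 24 .nil))))) (.node (.I .tdb (.c 40 (.c 48 (.c 8 (.c 32 .nil)))) (.b 0 (.b 16 (.b 24 .nil)))) (.I .tdb (.c 24 (.c 33587465 (.c 18753 (.c 8 .nil)))) .nil))) (.node (.node (.I .tdb (.c 2049 (.c 32 (.c 18753 (.c 8 .nil)))) (.b 24 .nil)) (.I .tdb (.c 0 (.c 16 (.c 18753 (.c 8 .nil)))) (.b 32 (.b 24 .nil)))) (.node (.I .tdb (.c 40 (.c 48 (.c 0 (.c 8 .nil)))) (.b 16 (.b 32 (.b 24 .nil)))) (.I .tdb (.c 40 (.c 48 (.c 8 (.c 16 .nil)))) (.b 0 (.b 32 (.b 24 .nil))))))))))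

noncomputable def c4_33 : Tr := (.node (.node (.node (.node (.node (.node (.I .tdb (.c 40 (.c 48 (.c 8 (.c 32 .nil)))) (.b 169943177 .nil)) (.I .tdb (.c 40 (.c 48 (.c 8 (.c 32 .nil)))) (.b 33587401 .nil))) (.node (.I .tdb (.c 8 (.c 537002185 (.c 18561 (.c 40 .nil)))) .nil) (.I .tdb (.c 24 (.c 8193 (.c 18561 (.c 40 .nil)))) (.b 8 .nil)))) (.node (.node (.I .tdb (.c 0 (.c 32 (.c 18561 (.c 40 .nil)))) (.b 24 (.b 8 .nil))) (.I .tdb (.c 16 (.c 48 (.c 0 (.c 40 .nil)))) (.b 32 (.b 24 (.b 8 .nil))))) (.node (.I .tdb (.c 32 (.c 169943113 (.c 18561 (.c 40 .nil)))) .nil) (.I .tdb (.c 8 (.c 4609 (.c 18561 (.c 40 .nil)))) (.b 32 .nil))))) (.node (.node (.node (.I .tdb (.c 0 (.c 24 (.c 40 (.c 18561 .nil)))) (.b 8 (.b 32 .nil))) (.I .tdb (.c 16 (.c 48 (.c 0 (.c 40 .nil)))) (.b 24 (.b 8 (.b 32 .nil))))) (.node (.I .jac (.c 0 (.c 43655299 (.c 40 .nil))) (.b 24 (.b 8 .nil))) (.I .tdb (.c 40 (.c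 48 (.c 16 (.c 32 .nil)))) (.b 0 (.b 24 (.b 8 .nil)))))) (.node (.node (.I .tdb (.c 8 (.c 169943305 (.c 18753 (.c 16 .nil)))) .nil) (.I .tdb (.c 4609 (.c 32 (.c 18753 (.c 16 .nil)))) (.b 8 .nil))) (.node (.I .tdb (.c 0 (.c 24 (.c 18753 (.c 16 .nil)))) (.b 32 (.b 8 .nil))) (.I .tdb (.c 40 (.c 48 (.c 0 (.c 16 .nil)))) (.b 24 (.b 32 (.b 8 .nil)))))))) (.node (.node (.node (.node (.I .tdb (.c 24 (.c 537002057 (.c 18753 (.c 16 .nil)))) .nil) (.I .tdb (.c 8 (.c 8193 (.c 18753 (.c 16 .nil)))) (.b 24 .nil))) (.node (.I .tdb (.c 0 (.c 32 (.c 18753 (.c 16 .nil)))) (.b 8 (.b 24 .nil))) (.I .tdb (.c 40 (.c 48 (.c 0 (.c 16 .nil)))) (.b 32 (.b 8 (.b 24 .nil)))))) (.node (.node (.I .tdb (.c 40 (.c 48 (.c 16 (.c 32 .nil)))) (.b 169943113 .nil)) (.I .tdb (.c 0 (.c 32 (.c 1324066185 (.c 16 .nil)))) (.b 24 .nil))) (.node (.I .tdb (.c 48 (.c 12865 (.c 16 (.c 32 .nil)))) (.b 0 (.b 24 .nil))) (.I .tdb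 (.c 8 (.c 40 (.c 16 (.c 32 .nil)))) (.b 48 (.b 0 (.b 24 .nil))))))) (.node (.node (.node (.I .tdb (.c 48 (.c 12865 (.c 16 (.c 32 .nil)))) (.b 4609 .nil)) (.I .tdb (.c 8 (.c 40 (.c 16 (.c 32 .nil)))) (.b 48 (.b 4609 .nil)))) (.node (.I .tdb (.c 2113 (.c 48 (.c 0 (.c 40 .nil)))) (.b 32 (.b 24 .nil))) (.I .tdb (.c 8 (.c 16 (.c 40 (.c 0 .nil)))) (.b 48 (.b 32 (.b 24 .nil)))))) (.node (.node (.I .tdb (.c 2113 (.c 48 (.c 0 (.c 40 .nil)))) (.b 24 (.b 32 .nil))) (.I .tdb (.c 8 (.c 16 (.c 40 (.c 0 .nil)))) (.b 48 (.b 24 (.b 32 .nil))))) (.node (.I .tdb (.c 8 (.c 537002121 (.c 18625 (.c 40 .nil)))) .nil) (.I .tdb (.c 16 (.c 8193 (.c 18625 (.c 40 .nil)))) (.b 8 .nil))))))) (.node (.node (.node (.node (.node (.I .tdb (.c 0 (.c 32 (.c 18625 (.c 40 .nil)))) (.b 16 (.b 8 .nil))) (.I .tdb (.c 24 (.c 48 (.c 0 (.c 40 .nil)))) (.b 32 (.b 16 (.b 8 .nil))))) (.node (.I .tdb (.c 32 (.c 33587273 (.c 18625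 (.c 40 .nil)))) .nil) (.I .tdb (.c 8 (.c 2049 (.c 18625 (.c 40 .nil)))) (.b 32 .nil)))) (.node (.node (.I .tdb (.c 0 (.c 16 (.c 40 (.c 18625 .nil)))) (.b 8 (.b 32 .nil))) (.I .tdb (.c 24 (.c 48 (.c 0 (.c 40 .nil)))) (.b 16 (.b 8 (.b 32 .nil))))) (.node (.I .jac (.c 0 (.c 43655363 (.c 40 .nil))) (.b 16 (.b 8 .nil))) (.I .jac (.c 513 (.c 43655363 (.c 40 .nil))) (.b 16 .nil))))) (.node (.node (.node (.I .tdb (.c 40 (.c 48 (.c 24 (.c 32 .nil)))) (.b 0 (.b 16 (.b 8 .nil)))) (.I .tdb (.c 8 (.c 33587465 (.c 18753 (.c 24 .nil)))) .nil)) (.node (.I .tdb (.c 2049 (.c 32 (.c 18753 (.c 24 .nil)))) (.b 8 .nil)) (.I .tdb (.c 0 (.c 16 (.c 18753 (.c 24 .nil)))) (.b 32 (.b 8 .nil))))) (.node (.node (.I .tdb (.c 40 (.c 48 (.c 0 (.c 24 .nil)))) (.b 16 (.b 32 (.b 8 .nil)))) (.I .tdb (.c 16 (.c 537002057 (.c 18753 (.c 24 .nil)))) .nil)) (.node (.I .tdb (.c 8 (.c 8193 (.c 18753 (.c 24 .nil)))) (.b 16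 .nil)) (.I .tdb (.c 0 (.c 32 (.c 18753 (.c 24 .nil)))) (.b 8 (.b 16 .nil))))))) (.node (.node (.node (.node (.I .tdb (.c 40 (.c 48 (.c 0 (.c 24 .nil)))) (.b 32 (.b 8 (.b 16 .nil)))) (.I .tdb (.c 40 (.c 48 (.c 24 (.c 32 .nil)))) (.b 33587273 .nil))) (.node (.I .tdb (.c 0 (.c 32 (.c 1324066185 (.c 24 .nil)))) (.b 16 .nil)) (.I .tdb (.c 48 (.c 12865 (.c 24 (.c 32 .nil)))) (.b 0 (.b 16 .nil))))) (.node (.node (.I .tdb (.c 8 (.c 40 (.c 24 (.c 32 .nil)))) (.b 48 (.b 0 (.b 16 .nil)))) (.I .tdb (.c 48 (.c 12865 (.c 24 (.c 32 .nil)))) (.b 2049 .nil))) (.node (.I .tdb (.c 8 (.c 40 (.c 24 (.c 32 .nil)))) (.b 48 (.b 2049 .nil))) (.I .tdb (.c 4673 (.c 48 (.c 0 (.c 40 .nil)))) (.b 32 (.b 16 .nil)))))) (.node (.node (.node (.I .tdb (.c 8 (.c 24 (.c 40 (.c 0 .nil)))) (.b 48 (.b 32 (.b 16 .nil)))) (.I .tdb (.c 4673 (.c 48 (.c 0 (.c 40 .nil)))) (.b 16 (.b 32 .nil)))) (.node (.I .tdb (.c 8 (.c 24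 (.c 40 (.c 0 .nil)))) (.b 48 (.b 16 (.b 32 .nil)))) (.I .jac (.c 42762755 (.c 24 (.c 40 .nil))) (.b 32 (.b 16 .nil))))) (.node (.node (.I .jac (.c 21099011 (.c 16 (.c 48 .nil))) (.b 32 (.b 8 .nil))) (.I .jac (.c 43356675 (.c 16 (.c 40 .nil))) (.b 32 (.b 8 .nil)))) (.node (.I .jac (.c 18433 (.c 8786563 (.c 40 .nil))) (.b 8 .nil)) (.I .jac (.c 21099011 (.c 16 (.c 48 .nil))) (.b 8 (.b 32 .nil)))))))))

noncomputable def c4_34 : Tr := (.node (.node (.node (.node (.node (.node (.I .jac (.c 43954691 (.c 16 (.c 24 .nil))) (.b 32 (.b 8 .nil))) (.I .jac (.c 43954691 (.c 16 (.c 24 .nil))) (.b 8 (.b 32 .nil)))) (.node (.I .tdb (.c 4737 (.c 40 (.c 0 (.c 48 .nil)))) (.b 32 (.b 8 .nil))) (.I .tdb (.c 16 (.c 24 (.c 48 (.c 0 .nil)))) (.b 40 (.b 32 (.b 8 .nil)))))) (.node (.node (.I .jac (.c 43059203 (.c 24 (.c 40 .nil))) (.b 32 (.b 8 .nil))) (.I .jac (.c 43059203 (.c 24 (.c 40 .nil))) (.b 8 (.b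 32 .nil)))) (.node (.I .tdb (.c 24 (.c 1324066185 (.c 16 (.c 32 .nil)))) (.b 0 .nil)) (.I .tdb (.c 40 (.c 174695817 (.c 16 (.c 32 .nil)))) (.b 0 .nil))))) (.node (.node (.node (.I .tdb (.c 4673 (.c 48 (.c 16 (.c 32 .nil)))) (.b 40 (.b 0 .nil))) (.I .tdb (.c 8 (.c 24 (.c 32 (.c 16 .nil)))) (.b 48 (.b 40 (.b 0 .nil))))) (.node (.I .tdb (.c 16 (.c 1324066185 (.c 24 (.c 32 .nil)))) (.b 0 .nil)) (.I .tdb (.c 40 (.c 35718537 (.c 24 (.c 32 .nil)))) (.b 0 .nil)))) (.node (.node (.I .tdb (.c 2113 (.c 48 (.c 24 (.c 32 .nil)))) (.b 40 (.b 0 .nil))) (.I .tdb (.c 8 (.c 16 (.c 32 (.c 24 .nil)))) (.b 48 (.b 40 (.b 0 .nil))))) (.node (.I .tdb (.c 16 (.c 24 (.c 8193 (.c 1324066185 .nil)))) .nil) (.I .tdb (.c 0 (.c 32 (.c 244149027818380041 (.c 40 .nil)))) .nil))))) (.node (.node (.node (.node (.I .tdb (.c 16 (.c 174695817 (.c 0 (.c 40 .nil)))) (.b 32 .nil)) (.I .tdb (.c 0 (.c 32 (.c 10206511083363145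 (.c 40 .nil)))) .nil)) (.node (.I .tdb (.c 24 (.c 35718537 (.c 0 (.c 40 .nil)))) (.b 32 .nil)) (.I .jac (.c 15246236343242121 (.c 16 (.c 24 .nil))) (.b 0 .nil)))) (.node (.node (.I .jac (.c 43655235 (.c 4737 (.c 40 .nil))) (.b 0 .nil)) (.I .tdb (.c 8 (.c 169943177 (.c 18689 (.c 40 .nil)))) .nil)) (.node (.I .tdb (.c 16 (.c 4609 (.c 18689 (.c 40 .nil)))) (.b 8 .nil)) (.I .tdb (.c 0 (.c 24 (.c 40 (.c 18689 .nil)))) (.b 16 (.b 8 .nil)))))) (.node (.node (.node (.I .tdb (.c 32 (.c 48 (.c 0 (.c 40 .nil)))) (.b 24 (.b 16 (.b 8 .nil)))) (.I .tdb (.c 8 (.c 33587401 (.c 18689 (.c 40 .nil)))) .nil)) (.node (.I .tdb (.c 24 (.c 2049 (.c 18689 (.c 40 .nil)))) (.b 8 .nil)) (.I .tdb (.c 0 (.c 16 (.c 40 (.c 18689 .nil)))) (.b 24 (.b 8 .nil))))) (.node (.node (.I .tdb (.c 32 (.c 48 (.c 0 (.c 40 .nil)))) (.b 16 (.b 24 (.b 8 .nil)))) (.I .tdb (.c 16 (.c 169943113 (.c 18689 (.c 40 .nil)))) .nil)) (.node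 (.I .tdb (.c 8 (.c 4609 (.c 18689 (.c 40 .nil)))) (.b 16 .nil)) (.I .tdb (.c 0 (.c 24 (.c 40 (.c 18689 .nil)))) (.b 8 (.b 16 .nil)))))))) (.node (.node (.node (.node (.node (.I .tdb (.c 32 (.c 48 (.c 0 (.c 40 .nil)))) (.b 24 (.b 8 (.b 16 .nil)))) (.I .tdb (.c 24 (.c 33587273 (.c 18689 (.c 40 .nil)))) .nil)) (.node (.I .tdb (.c 8 (.c 2049 (.c 18689 (.c 40 .nil)))) (.b 24 .nil)) (.I .tdb (.c 0 (.c 16 (.c 40 (.c 18689 .nil)))) (.b 8 (.b 24 .nil))))) (.node (.node (.I .tdb (.c 32 (.c 48 (.c 0 (.c 40 .nil)))) (.b 16 (.b 8 (.b 24 .nil)))) (.I .tdb (.c 32 (.c 40 (.c 48 (.c 35466557976329 .nil)))) .nil)) (.node (.I .tdb (.c 32 (.c 40 (.c 48 (.c 35464401931081 .nil)))) .nil) (.I .tdb (.c 8 (.c 169943177 (.c 18753 (.c 32 .nil)))) .nil)))) (.node (.node (.node (.I .tdb (.c 16 (.c 4609 (.c 18753 (.c 32 .nil)))) (.b 8 .nil)) (.I .tdb (.c 0 (.c 24 (.c 32 (.c 18753 .nil)))) (.b 16 (.b 8 .nil))))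 (.node (.I .tdb (.c 40 (.c 48 (.c 0 (.c 32 .nil)))) (.b 24 (.b 16 (.b 8 .nil)))) (.I .tdb (.c 8 (.c 33587401 (.c 18753 (.c 32 .nil)))) .nil))) (.node (.node (.I .tdb (.c 24 (.c 2049 (.c 18753 (.c 32 .nil)))) (.b 8 .nil)) (.I .tdb (.c 0 (.c 16 (.c 32 (.c 18753 .nil)))) (.b 24 (.b 8 .nil)))) (.node (.I .tdb (.c 40 (.c 48 (.c 0 (.c 32 .nil)))) (.b 16 (.b 24 (.b 8 .nil)))) (.I .tdb (.c 16 (.c 169943113 (.c 18753 (.c 32 .nil)))) .nil))))) (.node (.node (.node (.node (.I .tdb (.c 8 (.c 4609 (.c 18753 (.c 32 .nil)))) (.b 16 .nil)) (.I .tdb (.c 0 (.c 24 (.c 32 (.c 18753 .nil)))) (.b 8 (.b 16 .nil)))) (.node (.I .tdb (.c 40 (.c 48 (.c 0 (.c 32 .nil)))) (.b 24 (.b 8 (.b 16 .nil)))) (.I .tdb (.c 24 (.c 33587273 (.c 18753 (.c 32 .nil)))) .nil))) (.node (.node (.I .tdb (.c 8 (.c 2049 (.c 18753 (.c 32 .nil)))) (.b 24 .nil)) (.I .tdb (.c 0 (.c 16 (.c 32 (.c 18753 .nil)))) (.b 8 (.b 24 .nil))))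 (.node (.I .tdb (.c 40 (.c 48 (.c 0 (.c 32 .nil)))) (.b 16 (.b 8 (.b 24 .nil)))) (.I .jac (.c 42762755 (.c 32 (.c 40 .nil))) (.b 16 (.b 24 .nil)))))) (.node (.node (.node (.I .jac (.c 21307395 (.c 16 (.c 48 .nil))) (.b 24 (.b 8 .nil))) (.I .jac (.c 43655171 (.c 16 (.c 40 .nil))) (.b 24 (.b 8 .nil)))) (.node (.I .jac (.c 21307395 (.c 16 (.c 48 .nil))) (.b 8 (.b 24 .nil))) (.I .jac (.c 43954691 (.c 16 (.c 32 .nil))) (.b 8 (.b 24 .nil))))) (.node (.node (.I .jac (.c 20891651 (.c 32 (.c 48 .nil))) (.b 24 (.b 8 .nil))) (.I .jac (.c 20891651 (.c 32 (.c 48 .nil))) (.b 8 (.b 24 .nil)))) (.node (.I .tdb (.c 0 (.c 24 (.c 32 (.c 14025210098083633929 .nil)))) .nil) (.I .tdb (.c 16 (.c 1324066185 (.c 0 (.c 32 .nil)))) (.b 24 .nil))))))))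

noncomputable def c4_35 : Tr := (.node (.node (.node (.node (.node (.node (.I .tdb (.c 0 (.c 24 (.c 32 (.c 10206511083363273 .nil)))) .nil) (.I .tdb (.c 40 (.c 35718537 (.c 0 (.c 32 .nil)))) (.b 24 .nil))) (.node (.I .tdb (.c 0 (.c 24 (.c 8321 (.c 1324066185 .nil)))) .nil) (.I .tdb (.c 16 (.c 32 (.c 1324066185 (.c 0 .nil)))) (.b 24 .nil)))) (.node (.node (.I .tdb (.c 16 (.c 32 (.c 1324066185 (.c 24 .nil)))) (.b 0 .nil)) (.I .tdb (.c 0 (.c 24 (.c 40 (.c 2379905498923997961 .nil)))) .nil)) (.node (.I .tdb (.c 16 (.c 545424777 (.c 0 (.c 40 .nil)))) (.b 24 .nil)) (.I .tdb (.c 0 (.c 24 (.c 40 (.c 10206511083363209 .nil)))) .nil)))) (.node (.node (.node (.I .tdb (.c 32 (.c 35718537 (.c 0 (.c 40 .nil)))) (.b 24 .nil)) (.I .tdb (.c 0 (.c 24 (.c 12929 (.c 545424777 .nil)))) .nil)) (.node (.I .tdb (.c 16 (.c 40 (.c 545424777 (.c 0 .nil)))) (.b 24 .nil)) (.I .tdb (.c 16 (.c 40 (.c 545424777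 (.c 24 .nil)))) (.b 0 .nil)))) (.node (.node (.I .jac (.c 21307395 (.c 24 (.c 48 .nil))) (.b 8 (.b 16 .nil))) (.I .jac (.c 43655171 (.c 24 (.c 40 .nil))) (.b 8 (.b 16 .nil)))) (.node (.I .jac (.c 43954691 (.c 24 (.c 32 .nil))) (.b 8 (.b 16 .nil))) (.I .jac (.c 21099011 (.c 32 (.c 48 .nil))) (.b 16 (.b 8 .nil))))))) (.node (.node (.node (.node (.I .jac (.c 43356675 (.c 32 (.c 40 .nil))) (.b 8 (.b 16 .nil))) (.I .tdb (.c 0 (.c 16 (.c 32 (.c 14025210098083633993 .nil)))) .nil)) (.node (.I .tdb (.c 24 (.c 1324066185 (.c 0 (.c 32 .nil)))) (.b 16 .nil)) (.I .tdb (.c 0 (.c 16 (.c 32 (.c 244149027818380233 .nil)))) .nil))) (.node (.node (.I .tdb (.c 40 (.c 174695817 (.c 0 (.c 32 .nil)))) (.b 16 .nil)) (.I .tdb (.c 0 (.c 16 (.c 8385 (.c 1324066185 .nil)))) .nil)) (.node (.I .tdb (.c 24 (.c 32 (.c 1324066185 (.c 0 .nil)))) (.b 16 .nil)) (.I .tdb (.c 24 (.c 32 (.c 1324066185 (.c 16 .nil))))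 (.b 0 .nil))))) (.node (.node (.node (.I .tdb (.c 0 (.c 16 (.c 40 (.c 2379905498923998025 .nil)))) .nil) (.I .tdb (.c 24 (.c 545424777 (.c 0 (.c 40 .nil)))) (.b 16 .nil))) (.node (.I .tdb (.c 0 (.c 16 (.c 40 (.c 244149027818380169 .nil)))) .nil) (.I .tdb (.c 32 (.c 174695817 (.c 0 (.c 40 .nil)))) (.b 16 .nil)))) (.node (.node (.I .tdb (.c 0 (.c 16 (.c 12993 (.c 545424777 .nil)))) .nil) (.I .tdb (.c 24 (.c 40 (.c 545424777 (.c 0 .nil)))) (.b 16 .nil))) (.node (.I .tdb (.c 24 (.c 40 (.c 545424777 (.c 16 .nil)))) (.b 0 .nil)) (.I .jac (.c 15246191640313993 (.c 24 (.c 40 .nil))) (.b 16 .nil))))))) (.node (.node (.node (.node (.node (.I .jac (.c 580749782704521 (.c 24 (.c 48 .nil))) (.b 16 .nil)) (.I .jac (.c 8520195 (.c 24 (.c 40 .nil))) (.b 48 (.b 16 .nil)))) (.node (.I .jac (.c 8786435 (.c 16 (.c 40 .nil))) (.b 48 (.b 8 .nil))) (.I .jac (.c 15038410136445257 (.c 16 (.c 40 .nil)))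 (.b 8 .nil)))) (.node (.node (.I .jac (.c 3632040653488393 (.c 16 (.c 48 .nil))) (.b 8 .nil)) (.I .jac (.c 15246191640314121 (.c 16 (.c 40 .nil))) (.b 8 .nil))) (.node (.I .jac (.c 15246191640314249 (.c 16 (.c 24 .nil))) (.b 8 .nil)) (.I .jac (.c 43655171 (.c 4737 (.c 40 .nil))) (.b 8 .nil))))) (.node (.node (.node (.I .jac (.c 15456118887244105 (.c 16 (.c 24 .nil))) (.b 8 .nil)) (.I .jac (.c 43954691 (.c 4737 (.c 32 .nil))) (.b 8 .nil))) (.node (.I .tdb (.c 0 (.c 8 (.c 48 (.c 257801270351607689 .nil)))) .nil) (.I .tdb (.c 32 (.c 179513673 (.c 0 (.c 48 .nil)))) (.b 8 .nil)))) (.node (.node (.I .tdb (.c 4737 (.c 40 (.c 8 (.c 48 .nil)))) (.b 32 (.b 0 .nil))) (.I .tdb (.c 16 (.c 24 (.c 48 (.c 8 .nil)))) (.b 40 (.b 32 (.b 0 .nil))))) (.node (.I .tdb (.c 32 (.c 179513673 (.c 8 (.c 48 .nil)))) (.b 0 .nil)) (.I .tdb (.c 0 (.c 8 (.c 48 (.c 257801086529639369 .nil)))) .nil))))) (.node (.node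 (.node (.node (.I .tdb (.c 179513609 (.c 40 (.c 0 (.c 48 .nil)))) (.b 8 .nil)) (.I .tdb (.c 4737 (.c 32 (.c 48 (.c 0 .nil)))) (.b 40 (.b 8 .nil)))) (.node (.I .tdb (.c 16 (.c 24 (.c 48 (.c 0 .nil)))) (.b 32 (.b 40 (.b 8 .nil)))) (.I .tdb (.c 179513609 (.c 40 (.c 8 (.c 48 .nil)))) (.b 0 .nil)))) (.node (.node (.I .tdb (.c 4737 (.c 32 (.c 48 (.c 8 .nil)))) (.b 40 (.b 0 .nil))) (.I .tdb (.c 16 (.c 24 (.c 48 (.c 8 .nil)))) (.b 32 (.b 40 (.b 0 .nil))))) (.node (.I .jac (.c 598967998054793 (.c 24 (.c 48 .nil))) (.b 8 .nil)) (.I .jac (.c 8652803 (.c 24 (.c 40 .nil))) (.b 48 (.b 8 .nil)))))) (.node (.node (.node (.I .jac (.c 21099011 (.c 8 (.c 48 .nil))) (.b 8321 .nil)) (.I .tdb (.c 48 (.c 12865 (.c 0 (.c 32 .nil)))) (.b 4737 .nil))) (.node (.I .tdb (.c 8 (.c 40 (.c 0 (.c 32 .nil)))) (.b 48 (.b 4737 .nil))) (.I .jac (.c 43356675 (.c 8 (.c 32 .nil))) (.b 12929 .nil)))) (.node (.node (.I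 .tdb (.c 48 (.c 8257 (.c 0 (.c 40 .nil)))) (.b 4737 .nil)) (.I .tdb (.c 8 (.c 32 (.c 0 (.c 40 .nil)))) (.b 48 (.b 4737 .nil)))) (.node (.I .tdb (.c 4673 (.c 48 (.c 0 (.c 32 .nil)))) (.b 12929 .nil)) (.I .tdb (.c 8 (.c 24 (.c 32 (.c 0 .nil)))) (.b 48 (.b 12929 .nil)))))))))

noncomputable def c4_36 : Tr := (.node (.node (.node (.node (.node (.node (.I .jac (.c 43954691 (.c 8 (.c 24 .nil))) (.b 8321 .nil)) (.I .tdb (.c 4673 (.c 48 (.c 0 (.c 40 .nil)))) (.b 8321 .nil))) (.node (.I .tdb (.c 8 (.c 24 (.c 40 (.c 0 .nil)))) (.b 48 (.b 8321 .nil))) (.I .jac (.c 43655171 (.c 8 (.c 16 .nil))) (.b 12993 .nil)))) (.node (.node (.I .tdb (.c 2113 (.c 48 (.c 0 (.c 32 .nil)))) (.b 12993 .nil)) (.I .tdb (.c 8 (.c 16 (.c 32 (.c 0 .nil)))) (.b 48 (.b 12993 .nil)))) (.node (.I .jac (.c 43954691 (.c 8 (.c 16 .nil))) (.b 8385 .nil)) (.I .tdb (.c 2113 (.c 48 (.c 0 (.c 40 .nil)))) (.b 8385 .nil))))) (.node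 (.node (.node (.I .tdb (.c 8 (.c 16 (.c 40 (.c 0 .nil)))) (.b 48 (.b 8385 .nil))) (.I .jac (.c 4737 (.c 32 (.c 40 .nil))) (.l 513 (.b 48 .nil)))) (.node (.I .adp (.c 513 (.c 257801270351607689 (.c 48 .nil))) .nil) (.I .adp (.c 513 (.c 257801086529639369 (.c 48 .nil))) .nil))) (.node (.node (.I .jac (.c 513 (.c 32 (.c 40 .nil))) (.l 4737 (.b 48 .nil))) (.I .com (.c 35470870263689 (.c 4737 .nil)) (.b 48 .nil))) (.node (.I .com (.c 35468714087369 (.c 4737 .nil)) (.b 48 .nil)) (.I .adp (.c 35470870263689 (.c 4737 (.c 48 .nil))) .nil))))) (.node (.node (.node (.node (.I .adp (.c 35468714087369 (.c 4737 (.c 48 .nil))) .nil) (.I .jac (.c 513 (.c 16 (.c 24 .nil))) (.l 13057 (.b 48 .nil)))) (.node (.I .com (.c 35466557976329 (.c 13057 .nil)) (.b 48 .nil)) (.I .com (.c 35464401931081 (.c 13057 .nil)) (.b 48 .nil)))) (.node (.node (.I .adp (.c 35466557976329 (.c 13057 (.c 48 .nil))) .nil)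 (.I .adp (.c 35464401931081 (.c 13057 (.c 48 .nil))) .nil)) (.node (.I .jac (.c 35466557976585 (.c 16 (.c 40 .nil))) (.r 32 .nil)) (.I .jac (.c 35470870263817 (.c 16 (.c 24 .nil))) (.r 32 .nil))))) (.node (.node (.node (.I .com (.c 10065461098180296729435276105 (.c 8321 .nil)) .nil) (.I .com (.c 10066684875704784911325976521 (.c 8321 .nil)) .nil)) (.node (.I .com (.c 10065461098071330215985125385 (.c 8321 .nil)) .nil) (.I .jac (.c 513 (.c 16 (.c 32 .nil))) (.r 2775125321 .nil)))) (.node (.node (.I .adp (.c 14025210098083633993 (.c 32 (.c 2049 .nil))) .nil) (.I .com (.c 33587465 (.c 14025210098083633993 .nil)) .nil)) (.node (.I .jac (.c 33587593 (.c 8 (.c 40 .nil))) (.b 24 (.r 32 .nil))) (.I .jac (.c 33587401 (.c 12865 (.c 48 .nil))) (.r 32 .nil))))))) (.node (.node (.node (.node (.node (.I .jac (.c 33587401 (.c 8 (.c 40 .nil))) (.b 48 (.r 32 .nil))) (.I .jac (.c 2049 (.c 1324066185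 (.c 24 .nil))) (.r 32 .nil))) (.node (.I .jac (.c 2049 (.c 12865 (.c 48 .nil))) (.b 24 (.r 32 .nil))) (.I .jac (.c 2049 (.c 8 (.c 40 .nil))) (.b 48 (.b 24 (.r 32 .nil)))))) (.node (.node (.I .adp (.c 244149027818380233 (.c 32 (.c 2049 .nil))) .nil) (.I .jac (.c 9024976834607113 (.c 8 (.c 24 .nil))) (.r 32 .nil))) (.node (.I .jac (.c 33587593 (.c 8 (.c 24 .nil))) (.b 40 (.r 32 .nil))) (.I .jac (.c 33587529 (.c 4673 (.c 48 .nil))) (.r 32 .nil))))) (.node (.node (.node (.I .jac (.c 33587529 (.c 8 (.c 24 .nil))) (.b 48 (.r 32 .nil))) (.I .jac (.c 2049 (.c 174695817 (.c 40 .nil))) (.r 32 .nil))) (.node (.I .jac (.c 2049 (.c 4673 (.c 48 .nil))) (.b 40 (.r 32 .nil))) (.I .jac (.c 2049 (.c 8 (.c 24 .nil))) (.b 48 (.b 40 (.r 32 .nil)))))) (.node (.node (.I .jac (.c 9025011228269385 (.c 8 (.c 40 .nil))) (.r 32 .nil)) (.I .jac (.c 33587529 (.c 24 (.c 48 .nil))) (.l 8257 .nil))) (.node (.I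 .jac (.c 2049 (.c 8 (.c 32 .nil))) (.r 2775125321 .nil)) (.I .adp (.c 13748198893136698185 (.c 32 (.c 2113 .nil))) .nil))))) (.node (.node (.node (.node (.I .jac (.c 13748198893136698185 (.c 8 (.c 16 .nil))) (.r 32 .nil)) (.I .jac (.c 59109068451510808521 (.c 8 (.c 16 .nil))) (.r 32 .nil))) (.node (.I .jac (.c 231046163358604233 (.c 8 (.c 16 .nil))) (.r 32 .nil)) (.I .jac (.c 8193 (.c 8 (.c 16 .nil))) (.r 2775125321 .nil)))) (.node (.node (.I .jac (.c 513 (.c 12993 (.c 48 .nil))) (.l 8321 .nil)) (.I .jac (.c 513 (.c 24 (.c 40 .nil))) (.b 48 (.l 8321 .nil)))) (.node (.I .com (.c 10066684875777433669609463625 (.c 8321 .nil)) .nil) (.I .jac (.c 9024908047478729 (.c 8 (.c 48 .nil))) (.r 32 .nil))))) (.node (.node (.node (.I .jac (.c 9025011228269513 (.c 8 (.c 24 .nil))) (.r 32 .nil)) (.I .jac (.c 2049 (.c 12993 (.c 48 .nil))) (.l 8257 .nil))) (.node (.I .jac (.c 2049 (.c 24 (.c 40 .nil)))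 (.b 48 (.l 8257 .nil))) (.I .jac (.c 2049 (.c 8 (.c 32 .nil))) (.r 1350544777 .nil)))) (.node (.node (.I .adp (.c 59109074018392946505 (.c 32 (.c 2113 .nil))) .nil) (.I .jac (.c 231045989336561673 (.c 8 (.c 16 .nil))) (.r 32 .nil))) (.node (.I .jac (.c 8193 (.c 8 (.c 16 .nil))) (.r 1350544777 .nil)) (.I .jac (.c 35466557976585 (.c 16 (.c 32 .nil))) (.r 40 .nil))))))))

noncomputable def c4_37 : Tr := (.node (.node (.node (.node (.node (.node (.I .jac (.c 35468714087433 (.c 16 (.c 24 .nil))) (.r 40 .nil)) (.I .jac (.c 513 (.c 24 (.c 48 .nil))) (.b 32 (.l 12929 .nil)))) (.node (.I .com (.c 10064237432128545199748236105 (.c 12929 .nil)) .nil) (.I .com (.c 10066684875704784911325976457 (.c 12929 .nil)) .nil))) (.node (.node (.I .com (.c 10064237432019585310071937033 (.c 12929 .nil)) .nil) (.I .adp (.c 2379905498923998025 (.c 40 (.c 2049 .nil))) .nil)) (.node (.I .jac (.c 33587593 (.c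 8 (.c 32 .nil))) (.b 24 (.r 40 .nil))) (.I .jac (.c 33587401 (.c 8257 (.c 48 .nil))) (.r 40 .nil))))) (.node (.node (.node (.I .jac (.c 33587401 (.c 8 (.c 32 .nil))) (.b 48 (.r 40 .nil))) (.I .jac (.c 2049 (.c 545424777 (.c 24 .nil))) (.r 40 .nil))) (.node (.I .jac (.c 2049 (.c 8257 (.c 48 .nil))) (.b 24 (.r 40 .nil))) (.I .jac (.c 2049 (.c 8 (.c 32 .nil))) (.b 48 (.b 24 (.r 40 .nil)))))) (.node (.node (.I .adp (.c 244149027818380169 (.c 40 (.c 2049 .nil))) .nil) (.I .com (.c 33587529 (.c 244149027818380169 .nil)) .nil)) (.node (.I .jac (.c 9024942441010185 (.c 8 (.c 24 .nil))) (.r 40 .nil)) (.I .jac (.c 33587593 (.c 8 (.c 24 .nil))) (.b 32 (.r 40 .nil))))))) (.node (.node (.node (.node (.I .jac (.c 33587465 (.c 4673 (.c 48 .nil))) (.r 40 .nil)) (.I .jac (.c 33587465 (.c 8 (.c 24 .nil))) (.b 48 (.r 40 .nil)))) (.node (.I .jac (.c 2049 (.c 174695817 (.c 32 .nil))) (.r 40 .nil)) (.I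 .jac (.c 2049 (.c 4673 (.c 48 .nil))) (.b 32 (.r 40 .nil))))) (.node (.node (.I .jac (.c 2049 (.c 8 (.c 24 .nil))) (.b 48 (.b 32 (.r 40 .nil)))) (.I .com (.c 33587529 (.c 2379903823379378185 .nil)) .nil)) (.node (.I .jac (.c 9025011228269385 (.c 8 (.c 32 .nil))) (.r 40 .nil)) (.I .jac (.c 2049 (.c 18625 (.c 32 .nil))) (.l 12865 .nil))))) (.node (.node (.node (.I .com (.c 651596688508375012468186189873993 (.c 12865 .nil)) .nil) (.I .com (.c 651596688508347287845007406880777 (.c 12865 .nil)) .nil)) (.node (.I .adp (.c 2306972423229201225 (.c 40 (.c 2113 .nil))) .nil) (.I .jac (.c 2306972423229201225 (.c 8 (.c 16 .nil))) (.r 40 .nil)))) (.node (.node (.I .jac (.c 59109068451510808457 (.c 8 (.c 16 .nil))) (.r 40 .nil)) (.I .jac (.c 231046163358604169 (.c 8 (.c 16 .nil))) (.r 40 .nil))) (.node (.I .jac (.c 35718409 (.c 24 (.c 48 .nil))) (.l 12801 .nil)) (.I .jac (.c 2105737 (.c 24 (.c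 32 .nil))) (.l 12929 .nil))))))) (.node (.node (.node (.node (.node (.I .jac (.c 513 (.c 8385 (.c 48 .nil))) (.l 12929 .nil)) (.I .com (.c 10066684875741109290467687241 (.c 12929 .nil)) .nil)) (.node (.I .jac (.c 513 (.c 16 (.c 40 .nil))) (.r 562466185 .nil)) (.I .jac (.c 9024908047478665 (.c 8 (.c 48 .nil))) (.r 40 .nil)))) (.node (.node (.I .jac (.c 9025011228269449 (.c 8 (.c 24 .nil))) (.r 40 .nil)) (.I .jac (.c 2049 (.c 8385 (.c 48 .nil))) (.l 12865 .nil))) (.node (.I .jac (.c 2049 (.c 24 (.c 32 .nil))) (.b 48 (.l 12865 .nil))) (.I .adp (.c 59109071234951844681 (.c 40 (.c 2113 .nil))) .nil)))) (.node (.node (.node (.I .jac (.c 231045815314584585 (.c 8 (.c 16 .nil))) (.r 40 .nil)) (.I .jac (.c 35718537 (.c 24 (.c 32 .nil))) (.l 12801 .nil))) (.node (.I .jac (.c 2113 (.c 8385 (.c 48 .nil))) (.l 12801 .nil)) (.I .jac (.c 2113 (.c 24 (.c 32 .nil))) (.b 48 (.l 12801 .nil))))) (.node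 (.node (.I .jac (.c 513 (.c 32 (.c 40 .nil))) (.l 2756085961 .nil)) (.I .jac (.c 2105545 (.c 16 (.c 48 .nil))) (.r 13057 .nil))) (.node (.I .jac (.c 2105737 (.c 16 (.c 24 .nil))) (.r 13057 .nil)) (.I .com (.c 35466557976585 (.c 1337272585 .nil)) .nil))))) (.node (.node (.node (.node (.I .jac (.c 2105609 (.c 16 (.c 40 .nil))) (.r 18625 .nil)) (.I .com (.c 35473026505545 (.c 553912649 .nil)) .nil)) (.node (.I .com (.c 35466557976585 (.c 553912649 .nil)) .nil) (.I .jac (.c 2105673 (.c 16 (.c 32 .nil))) (.r 18625 .nil)))) (.node (.node (.I .jac (.c 33587401 (.c 8 (.c 48 .nil))) (.r 13057 .nil)) (.I .jac (.c 2049 (.c 32 (.c 40 .nil))) (.l 174695817 .nil))) (.node (.I .com (.c 9024976834606985 (.c 174695817 .nil)) .nil) (.I .jac (.c 33587593 (.c 8 (.c 24 .nil))) (.r 13057 .nil))))) (.node (.node (.node (.I .com (.c 9024908047478793 (.c 1324066057 .nil)) .nil) (.I .jac (.c 33587465 (.c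 8 (.c 40 .nil))) (.r 18625 .nil))) (.node (.I .com (.c 9025011228269385 (.c 545424713 .nil)) .nil) (.I .com (.c 9024908047478793 (.c 545424713 .nil)) .nil))) (.node (.node (.I .jac (.c 2718204105 (.c 8 (.c 16 .nil))) (.r 13057 .nil)) (.I .jac (.c 2113 (.c 32 (.c 40 .nil))) (.l 169943433 .nil))) (.node (.I .jac (.c 169943433 (.c 8 (.c 16 .nil))) (.r 13057 .nil)) (.I .jac (.c 2113 (.c 24 (.c 48 .nil))) (.l 1310925065 .nil))))))))

noncomputable def c4_38 : Tr := (.node (.node (.node (.node (.node (.node (.I .jac (.c 1310925065 (.c 8 (.c 16 .nil))) (.r 18625 .nil)) (.I .jac (.c 2113 (.c 24 (.c 48 .nil))) (.l 537002313 .nil))) (.node (.I .jac (.c 537002313 (.c 8 (.c 16 .nil))) (.r 18625 .nil)) (.I .tdb (.c 24 (.c 48 (.c 8 (.c 32 .nil)))) (.b 0 (.l 12929 .nil))))) (.node (.node (.I .tdb (.c 0 (.c 8 (.c 32 (.c 18625 .nil)))) (.l 12929 .nil)) (.I .tdb (.c 24 (.c 48 (.c 0 (.c 32 .nil))))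 (.b 8 (.l 12929 .nil)))) (.node (.I .adp (.c 18625 (.c 32 (.c 513 .nil))) (.l 12929 .nil)) (.I .com (.c 2105609 (.c 18625 .nil)) (.l 12929 .nil))))) (.node (.node (.node (.I .jac (.c 513 (.c 24 (.c 48 .nil))) (.r 32 (.l 12929 .nil))) (.I .ass (.c 12929 (.c 2105609 (.c 18625 .nil))) .nil)) (.node (.I .ass (.c 2105609 (.c 12929 (.c 18625 .nil))) .nil) (.I .com (.c 12929 (.c 2105609 .nil)) (.r 18625 .nil)))) (.node (.node (.I .jac (.c 0 (.c 8786499 (.c 48 .nil))) (.b 12929 .nil)) (.I .tdb (.c 24 (.c 48 (.c 8 (.c 40 .nil)))) (.b 0 (.l 8321 .nil)))) (.node (.I .tdb (.c 0 (.c 8 (.c 40 (.c 18625 .nil)))) (.l 8321 .nil)) (.I .tdb (.c 24 (.c 48 (.c 0 (.c 40 .nil)))) (.b 8 (.l 8321 .nil))))))) (.node (.node (.node (.node (.I .adp (.c 18625 (.c 40 (.c 513 .nil))) (.l 8321 .nil)) (.I .com (.c 2105673 (.c 18625 .nil)) (.l 8321 .nil))) (.node (.I .jac (.c 513 (.c 24 (.c 48 .nil))) (.r 40 (.l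 8321 .nil))) (.I .ass (.c 8321 (.c 2105673 (.c 18625 .nil))) .nil))) (.node (.node (.I .ass (.c 2105673 (.c 8321 (.c 18625 .nil))) .nil) (.I .com (.c 8321 (.c 2105673 .nil)) (.r 18625 .nil))) (.node (.I .jac (.c 0 (.c 43954755 (.c 24 .nil))) (.b 8321 .nil)) (.I .adp (.c 18625 (.c 32 (.c 2049 .nil))) (.l 12865 .nil))))) (.node (.node (.node (.I .ass (.c 12865 (.c 33587465 (.c 18625 .nil))) .nil) (.I .ass (.c 33587465 (.c 12865 (.c 18625 .nil))) .nil)) (.node (.I .com (.c 12865 (.c 33587465 .nil)) (.r 18625 .nil)) (.I .tdb (.c 24 (.c 48 (.c 16 (.c 40 .nil)))) (.b 0 (.l 8257 .nil))))) (.node (.node (.I .tdb (.c 0 (.c 16 (.c 40 (.c 18625 .nil)))) (.l 8257 .nil)) (.I .adp (.c 18625 (.c 40 (.c 2049 .nil))) (.l 8257 .nil))) (.node (.I .com (.c 33587529 (.c 18625 .nil)) (.l 8257 .nil)) (.I .jac (.c 2049 (.c 24 (.c 48 .nil))) (.r 40 (.l 8257 .nil)))))))) (.node (.node (.node (.node (.node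 (.I .jac (.c 8 (.c 43655299 (.c 24 .nil))) (.l 12801 .nil)) (.I .tdb (.c 24 (.c 48 (.c 16 (.c 32 .nil)))) (.b 8 (.l 12801 .nil)))) (.node (.I .tdb (.c 8 (.c 16 (.c 32 (.c 18625 .nil)))) (.l 12801 .nil)) (.I .adp (.c 18625 (.c 32 (.c 2113 .nil))) (.l 12801 .nil)))) (.node (.node (.I .com (.c 35718409 (.c 18625 .nil)) (.l 12801 .nil)) (.I .jac (.c 2113 (.c 24 (.c 48 .nil))) (.r 32 (.l 12801 .nil)))) (.node (.I .jac (.c 8 (.c 43954819 (.c 24 .nil))) (.l 8193 .nil)) (.I .tdb (.c 24 (.c 48 (.c 16 (.c 40 .nil)))) (.b 8 (.l 8193 .nil)))))) (.node (.node (.node (.I .tdb (.c 24 (.c 48 (.c 8 (.c 40 .nil)))) (.b 16 (.l 8193 .nil))) (.I .adp (.c 18625 (.c 40 (.c 2113 .nil))) (.l 8193 .nil))) (.node (.I .com (.c 35718473 (.c 18625 .nil)) (.l 8193 .nil)) (.I .tdb (.c 0 (.c 32 (.c 8 (.c 40 .nil)))) (.b 16 (.b 18625 .nil))))) (.node (.node (.I .jac (.c 513 (.c 24 (.c 40 .nil))) (.b 32 (.l 18561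 .nil))) (.I .com (.c 10064237432092225236522737481 (.c 18561 .nil)) .nil)) (.node (.I .com (.c 10065461098071330215985125257 (.c 18561 .nil)) .nil) (.I .com (.c 10063013877615402959898107785 (.c 18561 .nil)) .nil))))) (.node (.node (.node (.node (.I .com (.c 10064237432019585310071936969 (.c 18561 .nil)) .nil) (.I .jac (.c 513 (.c 16 (.c 48 .nil))) (.r 1350544649 .nil))) (.node (.I .jac (.c 2049 (.c 12993 (.c 32 .nil))) (.l 18497 .nil)) (.I .com (.c 651601654921532475892036648802185 (.c 18497 .nil)) .nil))) (.node (.node (.I .com (.c 651591722123570596944749659643785 (.c 18497 .nil)) .nil) (.I .jac (.c 2049 (.c 8 (.c 48 .nil))) (.r 1350544649 .nil))) (.node (.I .com (.c 33587593 (.c 2379904940409059145 .nil)) .nil) (.I .com (.c 33587593 (.c 14025206030552608649 .nil)) .nil)))) (.node (.node (.node (.I .com (.c 33587593 (.c 244148848929896329 .nil)) .nil) (.I .jac (.c 2113 (.c 12993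 (.c 32 .nil))) (.l 18433 .nil))) (.node (.I .jac (.c 2113 (.c 24 (.c 40 .nil))) (.b 32 (.l 18433 .nil))) (.I .jac (.c 18433 (.c 8 (.c 16 .nil))) (.r 1350544649 .nil)))) (.node (.node (.I .jac (.c 2105673 (.c 24 (.c 32 .nil))) (.l 18561 .nil)) (.I .jac (.c 513 (.c 24 (.c 32 .nil))) (.b 40 (.l 18561 .nil)))) (.node (.I .com (.c 10065461098107652387135109961 (.c 18561 .nil)) .nil) (.I .com (.c 10063013877579085204530183113 (.c 18561 .nil)) .nil)))))))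

noncomputable def c4_39 : Tr := (.node (.node (.node (.node (.node (.node (.I .jac (.c 513 (.c 16 (.c 48 .nil))) (.r 562466121 .nil)) (.I .jac (.c 33587529 (.c 24 (.c 32 .nil))) (.l 18497 .nil))) (.node (.I .com (.c 651601654921541717468315286321993 (.c 18497 .nil)) .nil) (.I .com (.c 651591722123561355438909041458121 (.c 18497 .nil)) .nil))) (.node (.node (.I .jac (.c 2049 (.c 8 (.c 48 .nil))) (.r 562466121 .nil)) (.I .jac (.c 18433 (.c 8 (.c 16 .nil))) (.r 562466121 .nil))) (.node (.I .com (.c 35470870263625 (.c 2756086025 .nil)) .nil) (.I .com (.c 35466557976521 (.c 2756086025 .nil)) .nil)))) (.node (.node (.node (.I .jac (.c 2105609 (.c 16 (.c 48 .nil))) (.r 12993 .nil)) (.I .jac (.c 513 (.c 24 (.c 40 .nil))) (.l 553912713 .nil))) (.node (.I .com (.c 35470870263625 (.c 553912713 .nil)) .nil) (.I .jac (.c 2105737 (.c 16 (.c 32 .nil))) (.r 12993 .nil)))) (.node (.node (.I .com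 (.c 35468714087433 (.c 1337272521 .nil)) .nil) (.I .jac (.c 2049 (.c 24 (.c 40 .nil))) (.l 2737112329 .nil))) (.node (.I .com (.c 9024976834606921 (.c 2737112329 .nil)) .nil) (.I .com (.c 9024908047478729 (.c 2737112329 .nil)) .nil))))) (.node (.node (.node (.node (.I .adp (.c 545424777 (.c 12993 (.c 2049 .nil))) .nil) (.I .jac (.c 2049 (.c 24 (.c 40 .nil))) (.l 545424777 .nil))) (.node (.I .com (.c 9024976834606921 (.c 545424777 .nil)) .nil) (.I .com (.c 9024908047478729 (.c 545424777 .nil)) .nil))) (.node (.node (.I .jac (.c 33587593 (.c 8 (.c 32 .nil))) (.r 12993 .nil)) (.I .jac (.c 2049 (.c 8257 (.c 48 .nil))) (.r 12993 .nil))) (.node (.I .jac (.c 2049 (.c 8 (.c 32 .nil))) (.b 48 (.r 12993 .nil))) (.I .com (.c 9024942441010185 (.c 1324065993 .nil)) .nil)))) (.node (.node (.node (.I .com (.c 9025011228269449 (.c 174695753 .nil)) .nil) (.I .jac (.c 33587529 (.c 8 (.c 24 .nil)))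 (.r 18689 .nil))) (.node (.I .adp (.c 2718204169 (.c 12993 (.c 2113 .nil))) .nil) (.I .adp (.c 537002377 (.c 12993 (.c 2113 .nil))) .nil))) (.node (.node (.I .jac (.c 537002377 (.c 8 (.c 16 .nil))) (.r 12993 .nil)) (.I .jac (.c 2113 (.c 32 (.c 48 .nil))) (.l 169943369 .nil))) (.node (.I .com (.c 2105609 (.c 12993 .nil)) (.l 18561 .nil)) (.I .ass (.c 18561 (.c 2105609 (.c 12993 .nil))) .nil)))))) (.node (.node (.node (.node (.node (.I .ass (.c 2105609 (.c 18561 (.c 12993 .nil))) .nil) (.I .com (.c 18561 (.c 2105609 .nil)) (.r 12993 .nil))) (.node (.I .jac (.c 0 (.c 43655235 (.c 16 .nil))) (.b 12993 .nil)) (.I .jac (.c 0 (.c 8652867 (.c 48 .nil))) (.b 12993 .nil)))) (.node (.node (.I .tdb (.c 0 (.c 8 (.c 48 (.c 12993 .nil)))) (.l 8321 .nil)) (.I .tdb (.c 24 (.c 40 (.c 0 (.c 48 .nil)))) (.b 8 (.l 8321 .nil)))) (.node (.I .tdb (.c 24 (.c 40 (.c 8 (.c 48 .nil)))) (.b 0 (.l 8321 .nil)))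 (.I .adp (.c 12993 (.c 48 (.c 513 .nil))) (.l 8321 .nil))))) (.node (.node (.node (.I .com (.c 2105737 (.c 12993 .nil)) (.l 8321 .nil)) (.I .jac (.c 513 (.c 24 (.c 40 .nil))) (.r 48 (.l 8321 .nil)))) (.node (.I .ass (.c 8321 (.c 2105737 (.c 12993 .nil))) .nil) (.I .ass (.c 2105737 (.c 8321 (.c 12993 .nil))) .nil))) (.node (.node (.I .com (.c 8321 (.c 2105737 .nil)) (.r 12993 .nil)) (.I .tdb (.c 24 (.c 40 (.c 16 (.c 32 .nil)))) (.b 0 (.l 18497 .nil)))) (.node (.I .tdb (.c 0 (.c 16 (.c 32 (.c 12993 .nil)))) (.l 18497 .nil)) (.I .adp (.c 12993 (.c 32 (.c 2049 .nil))) (.l 18497 .nil)))))) (.node (.node (.node (.node (.I .com (.c 33587465 (.c 12993 .nil)) (.l 18497 .nil)) (.I .jac (.c 2049 (.c 24 (.c 40 .nil))) (.r 32 (.l 18497 .nil)))) (.node (.I .jac (.c 0 (.c 43356803 (.c 40 .nil))) (.l 8257 .nil)) (.I .tdb (.c 0 (.c 16 (.c 48 (.c 12993 .nil)))) (.l 8257 .nil)))) (.node (.node (.I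 .tdb (.c 24 (.c 40 (.c 0 (.c 48 .nil)))) (.b 16 (.l 8257 .nil))) (.I .tdb (.c 24 (.c 40 (.c 16 (.c 48 .nil)))) (.b 0 (.l 8257 .nil)))) (.node (.I .jac (.c 2049 (.c 24 (.c 40 .nil))) (.r 48 (.l 8257 .nil))) (.I .tdb (.c 8 (.c 16 (.c 32 (.c 12993 .nil)))) (.l 18433 .nil))))) (.node (.node (.node (.I .jac (.c 2113 (.c 24 (.c 40 .nil))) (.r 32 (.l 18433 .nil))) (.I .jac (.c 8 (.c 43356803 (.c 40 .nil))) (.l 8193 .nil))) (.node (.I .tdb (.c 0 (.c 32 (.c 8 (.c 48 .nil)))) (.b 16 (.b 12993 .nil))) (.I .com (.c 35468714087241 (.c 2756086089 .nil)) .nil))) (.node (.node (.I .com (.c 35466557976457 (.c 2756086089 .nil)) .nil) (.I .jac (.c 2105673 (.c 16 (.c 48 .nil))) (.r 8385 .nil))) (.node (.I .jac (.c 513 (.c 24 (.c 32 .nil))) (.l 1337272713 .nil)) (.I .jac (.c 2105737 (.c 16 (.c 40 .nil))) (.r 8385 .nil))))))))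

noncomputable def c4_40 : Tr := (.node (.node (.node (.node (.node (.node (.I .com (.c 35473026505673 (.c 553912521 .nil)) .nil) (.I .jac (.c 33587529 (.c 8 (.c 48 .nil))) (.r 8385 .nil))) (.node (.I .adp (.c 1324066185 (.c 8385 (.c 2049 .nil))) .nil) (.I .com (.c 9024942441009993 (.c 1324066185 .nil)) .nil))) (.node (.node (.I .jac (.c 33587593 (.c 8 (.c 40 .nil))) (.r 8385 .nil)) (.I .jac (.c 2049 (.c 12865 (.c 48 .nil))) (.r 8385 .nil))) (.node (.I .jac (.c 2049 (.c 8 (.c 40 .nil))) (.b 48 (.r 8385 .nil))) (.I .com (.c 9024976834607113 (.c 545424585 .nil)) .nil)))) (.node (.node (.node (.I .jac (.c 2049 (.c 40 (.c 48 .nil))) (.l 174695689 .nil)) (.I .adp (.c 2718204233 (.c 8385 (.c 2113 .nil))) .nil)) (.node (.I .adp (.c 1310925193 (.c 8385 (.c 2113 .nil))) .nil) (.I .jac (.c 1310925193 (.c 8 (.c 16 .nil))) (.r 8385 .nil)))) (.node (.node (.I .jac (.c 2113 (.c 40 (.c 48 .nil)))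 (.l 537002185 .nil)) (.I .jac (.c 2113 (.c 40 (.c 48 .nil))) (.l 169943305 .nil))) (.node (.I .com (.c 2105673 (.c 8385 .nil)) (.l 18561 .nil)) (.I .ass (.c 18561 (.c 2105673 (.c 8385 .nil))) .nil))))) (.node (.node (.node (.node (.I .ass (.c 2105673 (.c 18561 (.c 8385 .nil))) .nil) (.I .com (.c 18561 (.c 2105673 .nil)) (.r 8385 .nil))) (.node (.I .tdb (.c 0 (.c 8 (.c 48 (.c 8385 .nil)))) (.l 12929 .nil)) (.I .tdb (.c 24 (.c 32 (.c 0 (.c 48 .nil)))) (.b 8 (.l 12929 .nil))))) (.node (.node (.I .tdb (.c 24 (.c 32 (.c 8 (.c 48 .nil)))) (.b 0 (.l 12929 .nil))) (.I .adp (.c 8385 (.c 48 (.c 513 .nil))) (.l 12929 .nil))) (.node (.I .com (.c 2105737 (.c 8385 .nil)) (.l 12929 .nil)) (.I .jac (.c 513 (.c 24 (.c 32 .nil))) (.r 48 (.l 12929 .nil)))))) (.node (.node (.node (.I .ass (.c 12929 (.c 2105737 (.c 8385 .nil))) .nil) (.I .ass (.c 2105737 (.c 12929 (.c 8385 .nil))) .nil)) (.node (.I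 .com (.c 12929 (.c 2105737 .nil)) (.r 8385 .nil)) (.I .jac (.c 0 (.c 43059267 (.c 40 .nil))) (.b 8385 .nil)))) (.node (.node (.I .jac (.c 0 (.c 43356739 (.c 32 .nil))) (.b 12929 .nil)) (.I .jac (.c 21099011 (.c 16 (.c 32 .nil))) (.b 8 (.b 48 .nil)))) (.node (.I .jac (.c 0 (.c 21099139 (.c 32 .nil))) (.l 18497 .nil)) (.I .tdb (.c 0 (.c 16 (.c 40 (.c 8385 .nil)))) (.l 18497 .nil))))))) (.node (.node (.node (.node (.node (.I .tdb (.c 24 (.c 32 (.c 0 (.c 40 .nil)))) (.b 16 (.l 18497 .nil))) (.I .tdb (.c 24 (.c 32 (.c 16 (.c 40 .nil)))) (.b 0 (.l 18497 .nil)))) (.node (.I .com (.c 33587529 (.c 8385 .nil)) (.l 18497 .nil)) (.I .jac (.c 2049 (.c 24 (.c 32 .nil))) (.r 40 (.l 18497 .nil))))) (.node (.node (.I .ass (.c 18497 (.c 33587529 (.c 8385 .nil))) .nil) (.I .ass (.c 33587529 (.c 18497 (.c 8385 .nil))) .nil)) (.node (.I .com (.c 18497 (.c 33587529 .nil)) (.r 8385 .nil)) (.I .adp (.c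 8385 (.c 48 (.c 2049 .nil))) (.l 12865 .nil))))) (.node (.node (.node (.I .com (.c 33587593 (.c 8385 .nil)) (.l 12865 .nil)) (.I .tdb (.c 4609 (.c 32 (.c 40 (.c 48 .nil)))) (.b 2113 .nil))) (.node (.I .tdb (.c 0 (.c 24 (.c 40 (.c 48 .nil)))) (.b 32 (.b 2113 .nil))) (.I .jac (.c 2105673 (.c 32 (.c 48 .nil))) (.l 4737 .nil)))) (.node (.node (.I .jac (.c 513 (.c 18689 (.c 40 .nil))) (.l 4737 .nil)) (.I .jac (.c 513 (.c 32 (.c 48 .nil))) (.b 40 (.l 4737 .nil)))) (.node (.I .com (.c 10066684875741109290467687369 (.c 4737 .nil)) .nil) (.I .com (.c 10065461098107652387135110153 (.c 4737 .nil)) .nil))))) (.node (.node (.node (.node (.I .com (.c 33587401 (.c 14025210098083634057 .nil)) .nil) (.I .jac (.c 9024942441010185 (.c 8 (.c 40 .nil))) (.r 24 .nil))) (.node (.I .jac (.c 9024976834606985 (.c 8 (.c 48 .nil))) (.r 24 .nil)) (.I .com (.c 33587401 (.c 2379905498923998153 .nil)) .nil)))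 (.node (.node (.I .jac (.c 9024976834607113 (.c 8 (.c 32 .nil))) (.r 24 .nil)) (.I .jac (.c 33587529 (.c 32 (.c 48 .nil))) (.l 4673 .nil))) (.node (.I .jac (.c 2049 (.c 32 (.c 48 .nil))) (.b 40 (.l 4673 .nil))) (.I .com (.c 651601654921560200620872561558409 (.c 4673 .nil)) .nil)))) (.node (.node (.node (.I .com (.c 651606621363117027878554774109129 (.c 4673 .nil)) .nil) (.I .com (.c 651601654921541717468315286322185 (.c 4673 .nil)) .nil)) (.node (.I .jac (.c 2049 (.c 8 (.c 24 .nil))) (.r 2794230089 .nil)) (.I .jac (.c 13748198893136698249 (.c 8 (.c 16 .nil))) (.r 24 .nil)))) (.node (.node (.I .jac (.c 2306972423229201353 (.c 8 (.c 16 .nil))) (.r 24 .nil)) (.I .jac (.c 13748196208362034185 (.c 8 (.c 16 .nil))) (.r 24 .nil))) (.node (.I .com (.c 10066684875777433669609463689 (.c 4737 .nil)) .nil) (.I .com (.c 10064237432092225236522737673 (.c 4737 .nil)) .nil)))))))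

noncomputable def c4_41 : Tr := (.node (.node (.node (.node (.node (.node (.I .jac (.c 9024942441010121 (.c 8 (.c 48 .nil))) (.r 24 .nil)) (.I .jac (.c 33587593 (.c 32 (.c 40 .nil))) (.l 4673 .nil))) (.node (.I .com (.c 651606621363126269490052522057609 (.c 4673 .nil)) .nil) (.I .jac (.c 2306971873338800137 (.c 8 (.c 16 .nil))) (.r 24 .nil)))) (.node (.node (.I .jac (.c 4609 (.c 8 (.c 16 .nil))) (.r 1363882377 .nil)) (.I .jac (.c 0 (.c 43954755 (.c 32 .nil))) (.l 4737 .nil))) (.node (.I .tdb (.c 32 (.c 48 (.c 8 (.c 40 .nil)))) (.b 0 (.l 4737 .nil))) (.I .tdb (.c 0 (.c 8 (.c 40 (.c 18689 .nil)))) (.l 4737 .nil))))) (.node (.node (.node (.I .tdb (.c 32 (.c 48 (.c 0 (.c 40 .nil)))) (.b 8 (.l 4737 .nil))) (.I .adp (.c 18689 (.c 40 (.c 513 .nil))) (.l 4737 .nil))) (.node (.I .jac (.c 513 (.c 32 (.c 48 .nil))) (.r 40 (.l 4737 .nil))) (.I .jac (.c 0 (.c 8 (.c 21099139 .nil))) (.l 18689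 .nil)))) (.node (.node (.I .tdb (.c 8 (.c 40 (.c 16 (.c 24 .nil)))) (.b 0 (.l 18689 .nil))) (.I .tdb (.c 32 (.c 48 (.c 16 (.c 40 .nil)))) (.b 0 (.l 4673 .nil)))) (.node (.I .tdb (.c 0 (.c 16 (.c 40 (.c 18689 .nil)))) (.l 4673 .nil)) (.I .adp (.c 18689 (.c 40 (.c 2049 .nil))) (.l 4673 .nil)))))) (.node (.node (.node (.node (.I .jac (.c 2049 (.c 32 (.c 48 .nil))) (.r 40 (.l 4673 .nil))) (.I .ass (.c 4673 (.c 33587529 (.c 18689 .nil))) .nil)) (.node (.I .ass (.c 33587529 (.c 4673 (.c 18689 .nil))) .nil) (.I .com (.c 4673 (.c 33587529 .nil)) (.r 18689 .nil)))) (.node (.node (.I .tdb (.c 32 (.c 48 (.c 8 (.c 24 .nil)))) (.b 16 (.l 12801 .nil))) (.I .adp (.c 24 (.c 18689 (.c 2113 .nil))) (.l 12801 .nil))) (.node (.I .jac (.c 2113 (.c 32 (.c 48 .nil))) (.l 24 (.l 12801 .nil))) (.I .com (.c 10206511083363209 (.c 24 .nil)) (.l 12801 .nil))))) (.node (.node (.node (.I .com (.c 10206437931930633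 (.c 24 .nil)) (.l 12801 .nil)) (.I .tdb (.c 0 (.c 40 (.c 16 (.c 24 .nil)))) (.b 8 (.l 18689 .nil)))) (.node (.I .jac (.c 8 (.c 43954819 (.c 32 .nil))) (.l 4609 .nil)) (.I .tdb (.c 32 (.c 48 (.c 16 (.c 40 .nil)))) (.b 8 (.l 4609 .nil))))) (.node (.node (.I .ass (.c 18561 (.c 2105545 (.c 13057 .nil))) .nil) (.I .ass (.c 2105545 (.c 18561 (.c 13057 .nil))) .nil)) (.node (.I .com (.c 18561 (.c 2105545 .nil)) (.r 13057 .nil)) (.I .jac (.c 0 (.c 43655235 (.c 40 .nil))) (.l 4737 .nil))))))) (.node (.node (.node (.node (.node (.I .com (.c 2105737 (.c 13057 .nil)) (.l 4737 .nil)) (.I .ass (.c 4737 (.c 2105737 (.c 13057 .nil))) .nil)) (.node (.I .ass (.c 2105737 (.c 4737 (.c 13057 .nil))) .nil) (.I .com (.c 4737 (.c 2105737 .nil)) (.r 13057 .nil)))) (.node (.node (.I .jac (.c 0 (.c 43059267 (.c 24 .nil))) (.b 13057 .nil)) (.I .tdb (.c 32 (.c 40 (.c 16 (.c 24 .nil)))) (.b 0 (.l 18497 .nil))))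 (.node (.I .tdb (.c 0 (.c 16 (.c 13057 (.c 24 .nil)))) (.l 18497 .nil)) (.I .adp (.c 24 (.c 13057 (.c 2049 .nil))) (.l 18497 .nil))))) (.node (.node (.node (.I .ass (.c 18497 (.c 33587401 (.c 13057 .nil))) .nil) (.I .ass (.c 33587401 (.c 18497 (.c 13057 .nil))) .nil)) (.node (.I .com (.c 18497 (.c 33587401 .nil)) (.r 13057 .nil)) (.I .jac (.c 0 (.c 43655299 (.c 40 .nil))) (.l 4673 .nil)))) (.node (.node (.I .tdb (.c 0 (.c 16 (.c 13057 (.c 48 .nil)))) (.l 4673 .nil)) (.I .tdb (.c 32 (.c 40 (.c 48 (.c 0 .nil)))) (.b 16 (.l 4673 .nil)))) (.node (.I .tdb (.c 32 (.c 40 (.c 48 (.c 16 .nil)))) (.b 0 (.l 4673 .nil))) (.I .adp (.c 13057 (.c 48 (.c 2049 .nil))) (.l 4673 .nil)))))) (.node (.node (.node (.node (.I .jac (.c 2049 (.c 32 (.c 40 .nil))) (.r 48 (.l 4673 .nil))) (.I .ass (.c 4673 (.c 33587593 (.c 13057 .nil))) .nil)) (.node (.I .ass (.c 33587593 (.c 4673 (.c 13057 .nil))) .nil) (.I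 .com (.c 4673 (.c 33587593 .nil)) (.r 13057 .nil)))) (.node (.node (.I .tdb (.c 8 (.c 16 (.c 13057 (.c 24 .nil)))) (.l 18433 .nil)) (.I .jac (.c 2113 (.c 32 (.c 40 .nil))) (.l 24 (.l 18433 .nil)))) (.node (.I .com (.c 10206474507614089 (.c 24 .nil)) (.l 18433 .nil)) (.I .com (.c 10206437931930569 (.c 24 .nil)) (.l 18433 .nil))))) (.node (.node (.node (.I .tdb (.c 40 (.c 48 (.c 8 (.c 32 .nil)))) (.b 0 (.l 4737 .nil))) (.I .tdb (.c 0 (.c 8 (.c 32 (.c 18753 .nil)))) (.l 4737 .nil))) (.node (.I .tdb (.c 40 (.c 48 (.c 0 (.c 32 .nil)))) (.b 8 (.l 4737 .nil))) (.I .adp (.c 32 (.c 18753 (.c 513 .nil))) (.l 4737 .nil)))) (.node (.node (.I .tdb (.c 40 (.c 48 (.c 16 (.c 24 .nil)))) (.b 0 (.l 8257 .nil))) (.I .tdb (.c 0 (.c 16 (.c 18753 (.c 24 .nil)))) (.l 8257 .nil))) (.node (.I .adp (.c 24 (.c 18753 (.c 2049 .nil))) (.l 8257 .nil)) (.I .tdb (.c 40 (.c 48 (.c 16 (.c 32 .nil)))) (.b 0 (.l 4673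 .nil)))))))))

noncomputable def c4_42 : Tr := (.node (.node (.node (.node (.node (.node (.I .tdb (.c 0 (.c 16 (.c 32 (.c 18753 .nil)))) (.l 4673 .nil)) (.I .jac (.c 2049 (.c 40 (.c 48 .nil))) (.l 32 (.l 4673 .nil)))) (.node (.I .com (.c 9025011228269513 (.c 32 .nil)) (.l 4673 .nil)) (.I .com (.c 9024976834607113 (.c 32 .nil)) (.l 4673 .nil)))) (.node (.node (.I .tdb (.c 40 (.c 48 (.c 16 (.c 24 .nil)))) (.b 8 (.l 8193 .nil))) (.I .tdb (.c 40 (.c 48 (.c 8 (.c 24 .nil)))) (.b 16 (.l 8193 .nil)))) (.node (.I .adp (.c 24 (.c 18753 (.c 2113 .nil))) (.l 8193 .nil)) (.I .jac (.c 2113 (.c 40 (.c 48 .nil))) (.l 24 (.l 8193 .nil)))))) (.node (.node (.node (.I .com (.c 10206511083363273 (.c 24 .nil)) (.l 8193 .nil)) (.I .com (.c 10206474507614217 (.c 24 .nil)) (.l 8193 .nil))) (.node (.I .tdb (.c 0 (.c 32 (.c 16 (.c 24 .nil)))) (.b 8 (.b 18753 .nil))) (.I .tdb (.c 8 (.c 16 (.c 32 (.c 18753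 .nil)))) (.l 4609 .nil)))) (.node (.node (.I .tdb (.c 40 (.c 48 (.c 8 (.c 32 .nil)))) (.b 16 (.l 4609 .nil))) (.I .jac (.c 2113 (.c 40 (.c 48 .nil))) (.l 32 (.l 4609 .nil)))) (.node (.I .com (.c 10206511083363273 (.c 32 .nil)) (.l 4609 .nil)) (.I .com (.c 10206474507614217 (.c 32 .nil)) (.l 4609 .nil)))))) (.node (.node (.node (.node (.I .adp (.c 14025210098083633929 (.c 32 (.c 4609 .nil))) .nil) (.I .com (.c 169943305 (.c 14025210098083633929 .nil)) .nil)) (.node (.I .jac (.c 169943433 (.c 8 (.c 40 .nil))) (.b 16 (.r 32 .nil))) (.I .jac (.c 169943177 (.c 12865 (.c 48 .nil))) (.r 32 .nil)))) (.node (.node (.I .jac (.c 169943177 (.c 8 (.c 40 .nil))) (.b 48 (.r 32 .nil))) (.I .jac (.c 4609 (.c 1324066185 (.c 16 .nil))) (.r 32 .nil))) (.node (.I .jac (.c 4609 (.c 12865 (.c 48 .nil))) (.b 16 (.r 32 .nil))) (.I .jac (.c 4609 (.c 8 (.c 40 .nil))) (.b 48 (.b 16 (.r 32 .nil))))))) (.node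 (.node (.node (.I .adp (.c 10206511083363273 (.c 32 (.c 4609 .nil))) .nil) (.I .com (.c 169943305 (.c 10206511083363273 .nil)) .nil)) (.node (.I .jac (.c 169943433 (.c 8 (.c 16 .nil))) (.b 40 (.r 32 .nil))) (.I .jac (.c 169943369 (.c 2113 (.c 48 .nil))) (.r 32 .nil)))) (.node (.node (.I .jac (.c 169943369 (.c 8 (.c 16 .nil))) (.b 48 (.r 32 .nil))) (.I .jac (.c 4609 (.c 35718537 (.c 40 .nil))) (.r 32 .nil))) (.node (.I .jac (.c 4609 (.c 2113 (.c 48 .nil))) (.b 40 (.r 32 .nil))) (.I .jac (.c 4609 (.c 8 (.c 16 .nil))) (.b 48 (.b 40 (.r 32 .nil))))))))) (.node (.node (.node (.node (.node (.I .jac (.c 231046163358604041 (.c 8 (.c 40 .nil))) (.r 32 .nil)) (.I .jac (.c 4609 (.c 18561 (.c 40 .nil))) (.l 8257 .nil))) (.node (.I .jac (.c 4609 (.c 16 (.c 48 .nil))) (.b 40 (.l 8257 .nil))) (.I .com (.c 427057993508084562470663629860471561 (.c 8257 .nil)) .nil))) (.node (.node (.I .com (.c 427056063571158386490489209096946633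 (.c 8257 .nil)) .nil) (.I .com (.c 427057993508083616106291307304383497 (.c 8257 .nil)) .nil)) (.node (.I .jac (.c 4609 (.c 8 (.c 32 .nil))) (.r 2756086089 .nil)) (.I .adp (.c 13748198893136698121 (.c 32 (.c 4673 .nil))) .nil)))) (.node (.node (.node (.I .jac (.c 13748198893136698121 (.c 8 (.c 24 .nil))) (.r 32 .nil)) (.I .jac (.c 59109065668069837769 (.c 8 (.c 24 .nil))) (.r 32 .nil))) (.node (.I .jac (.c 174695753 (.c 16 (.c 48 .nil))) (.l 8193 .nil)) (.I .jac (.c 4673 (.c 18561 (.c 40 .nil))) (.l 8193 .nil)))) (.node (.node (.I .jac (.c 4673 (.c 16 (.c 48 .nil))) (.b 40 (.l 8193 .nil))) (.I .jac (.c 231045467270826953 (.c 8 (.c 48 .nil))) (.r 32 .nil))) (.node (.I .jac (.c 4609 (.c 12929 (.c 48 .nil))) (.l 8257 .nil)) (.I .com (.c 427056063571158149899930723770114057 (.c 8257 .nil)) .nil))))) (.node (.node (.node (.node (.I .adp (.c 59109074018392946441 (.c 32 (.c 4673 .nil)))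 .nil) (.I .jac (.c 174695817 (.c 16 (.c 40 .nil))) (.l 8193 .nil))) (.node (.I .jac (.c 8193 (.c 8 (.c 24 .nil))) (.r 1337272713 .nil)) (.I .adp (.c 2379905498923997961 (.c 40 (.c 4609 .nil))) .nil))) (.node (.node (.I .jac (.c 169943433 (.c 8 (.c 32 .nil))) (.b 16 (.r 40 .nil))) (.I .jac (.c 169943177 (.c 8257 (.c 48 .nil))) (.r 40 .nil))) (.node (.I .jac (.c 169943177 (.c 8 (.c 32 .nil))) (.b 48 (.r 40 .nil))) (.I .jac (.c 4609 (.c 545424777 (.c 16 .nil))) (.r 40 .nil))))) (.node (.node (.node (.I .jac (.c 4609 (.c 8257 (.c 48 .nil))) (.b 16 (.r 40 .nil))) (.I .jac (.c 4609 (.c 8 (.c 32 .nil))) (.b 48 (.b 16 (.r 40 .nil))))) (.node (.I .adp (.c 10206511083363209 (.c 40 (.c 4609 .nil))) .nil) (.I .com (.c 169943369 (.c 10206511083363209 .nil)) .nil))) (.node (.node (.I .jac (.c 169943433 (.c 8 (.c 16 .nil))) (.b 32 (.r 40 .nil))) (.I .jac (.c 169943305 (.c 2113 (.c 48 .nil))) (.r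 40 .nil))) (.node (.I .jac (.c 169943305 (.c 8 (.c 16 .nil))) (.b 48 (.r 40 .nil))) (.I .jac (.c 4609 (.c 35718537 (.c 32 .nil))) (.r 40 .nil))))))))

noncomputable def c4_43 : Tr := (.node (.node (.node (.node (.node (.node (.I .jac (.c 4609 (.c 2113 (.c 48 .nil))) (.b 32 (.r 40 .nil))) (.I .jac (.c 4609 (.c 8 (.c 16 .nil))) (.b 48 (.b 32 (.r 40 .nil))))) (.node (.I .com (.c 169943369 (.c 2379903264864635913 .nil)) .nil) (.I .jac (.c 231046163358604041 (.c 8 (.c 32 .nil))) (.r 40 .nil)))) (.node (.node (.I .jac (.c 4609 (.c 16 (.c 48 .nil))) (.b 32 (.l 12865 .nil))) (.I .com (.c 427057350195049030035896088956977929 (.c 12865 .nil)) .nil)) (.node (.I .com (.c 427056063571158386490489209096946569 (.c 12865 .nil)) .nil) (.I .com (.c 427057350195048083672236560419042313 (.c 12865 .nil)) .nil)))) (.node (.node (.node (.I .adp (.c 2306972423229201161 (.c 40 (.c 4673 .nil))) .nil) (.I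 .jac (.c 2306972423229201161 (.c 8 (.c 24 .nil))) (.r 40 .nil))) (.node (.I .jac (.c 59109065668069837705 (.c 8 (.c 24 .nil))) (.r 40 .nil)) (.I .jac (.c 174695689 (.c 16 (.c 48 .nil))) (.l 12801 .nil)))) (.node (.node (.I .jac (.c 4673 (.c 18561 (.c 32 .nil))) (.l 12801 .nil)) (.I .jac (.c 4673 (.c 16 (.c 48 .nil))) (.b 32 (.l 12801 .nil)))) (.node (.I .jac (.c 231045467270826889 (.c 8 (.c 48 .nil))) (.r 40 .nil)) (.I .jac (.c 169943433 (.c 16 (.c 32 .nil))) (.l 12865 .nil)))))) (.node (.node (.node (.node (.I .com (.c 427056063571157913309372238443346953 (.c 12865 .nil)) .nil) (.I .adp (.c 59109071234951844617 (.c 40 (.c 4673 .nil))) .nil)) (.node (.I .jac (.c 174695817 (.c 16 (.c 32 .nil))) (.l 12801 .nil)) (.I .jac (.c 4673 (.c 16 (.c 32 .nil))) (.b 48 (.l 12801 .nil))))) (.node (.node (.I .jac (.c 12801 (.c 8 (.c 24 .nil))) (.r 553912713 .nil)) (.I .jac (.c 4609 (.c 32 (.c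 40 .nil))) (.l 2737112201 .nil))) (.node (.I .com (.c 231045989336561545 (.c 2737112201 .nil)) .nil) (.I .com (.c 231045815314584521 (.c 2737112201 .nil)) .nil)))) (.node (.node (.node (.I .com (.c 231045467270827017 (.c 1324066057 .nil)) .nil) (.I .jac (.c 169943305 (.c 8 (.c 40 .nil))) (.r 18561 .nil))) (.node (.I .com (.c 231045467270827017 (.c 545424713 .nil)) .nil) (.I .jac (.c 169943369 (.c 8 (.c 32 .nil))) (.r 18561 .nil)))) (.node (.node (.I .jac (.c 4673 (.c 32 (.c 40 .nil))) (.l 33587593 .nil)) (.I .jac (.c 1310925065 (.c 8 (.c 24 .nil))) (.r 18561 .nil))) (.node (.I .jac (.c 4673 (.c 16 (.c 48 .nil))) (.l 537002313 .nil)) (.I .jac (.c 537002313 (.c 8 (.c 24 .nil))) (.r 18561 .nil))))))) (.node (.node (.node (.node (.node (.I .adp (.c 18561 (.c 32 (.c 4609 .nil))) (.l 12865 .nil)) (.I .ass (.c 12865 (.c 169943305 (.c 18561 .nil))) .nil)) (.node (.I .ass (.c 169943305 (.c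 12865 (.c 18561 .nil))) .nil) (.I .com (.c 12865 (.c 169943305 .nil)) (.r 18561 .nil)))) (.node (.node (.I .jac (.c 0 (.c 16 (.c 43954883 .nil))) (.l 8257 .nil)) (.I .tdb (.c 0 (.c 24 (.c 40 (.c 18561 .nil)))) (.l 8257 .nil))) (.node (.I .jac (.c 4609 (.c 16 (.c 48 .nil))) (.r 40 (.l 8257 .nil))) (.I .ass (.c 8257 (.c 169943369 (.c 18561 .nil))) .nil)))) (.node (.node (.node (.I .ass (.c 169943369 (.c 8257 (.c 18561 .nil))) .nil) (.I .com (.c 8257 (.c 169943369 .nil)) (.r 18561 .nil))) (.node (.I .jac (.c 8 (.c 16 (.c 43655363 .nil))) (.l 12801 .nil)) (.I .tdb (.c 16 (.c 48 (.c 24 (.c 32 .nil)))) (.b 8 (.l 12801 .nil))))) (.node (.node (.I .tdb (.c 8 (.c 24 (.c 32 (.c 18561 .nil)))) (.l 12801 .nil)) (.I .adp (.c 18561 (.c 32 (.c 4673 .nil))) (.l 12801 .nil))) (.node (.I .com (.c 174695689 (.c 18561 .nil)) (.l 12801 .nil)) (.I .jac (.c 4673 (.c 16 (.c 48 .nil))) (.r 32 (.l 12801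 .nil))))))) (.node (.node (.node (.node (.I .tdb (.c 0 (.c 40 (.c 8 (.c 32 .nil)))) (.b 24 (.b 18561 .nil))) (.I .tdb (.c 16 (.c 48 (.c 8 (.c 40 .nil)))) (.b 24 (.l 8193 .nil)))) (.node (.I .com (.c 174695753 (.c 18561 .nil)) (.l 8193 .nil)) (.I .tdb (.c 0 (.c 32 (.c 8 (.c 40 .nil)))) (.b 24 (.b 18561 .nil))))) (.node (.node (.I .jac (.c 4609 (.c 16 (.c 40 .nil))) (.b 32 (.l 18497 .nil))) (.I .jac (.c 4609 (.c 8 (.c 48 .nil))) (.r 1337272585 .nil))) (.node (.I .com (.c 169943433 (.c 2379904940409059081 .nil)) .nil) (.I .com (.c 169943433 (.c 2379903264864635849 .nil)) .nil)))) (.node (.node (.node (.I .jac (.c 4673 (.c 16 (.c 40 .nil))) (.b 32 (.l 18433 .nil))) (.I .jac (.c 169943369 (.c 16 (.c 32 .nil))) (.l 18497 .nil))) (.node (.I .jac (.c 4609 (.c 16 (.c 32 .nil))) (.b 40 (.l 18497 .nil))) (.I .jac (.c 4609 (.c 16 (.c 40 .nil))) (.l 2737112329 .nil)))) (.node (.node (.I .com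 (.c 231045989336561417 (.c 2737112329 .nil)) .nil) (.I .com (.c 231045467270826953 (.c 2737112329 .nil)) .nil)) (.node (.I .adp (.c 545424777 (.c 12929 (.c 4609 .nil))) .nil) (.I .jac (.c 4609 (.c 16 (.c 40 .nil))) (.l 545424777 .nil))))))))

noncomputable def c4_44 : Tr := (.node (.node (.node (.node (.node (.node (.I .com (.c 231045989336561417 (.c 545424777 .nil)) .nil) (.I .jac (.c 169943433 (.c 8 (.c 32 .nil))) (.r 12929 .nil))) (.node (.I .jac (.c 4609 (.c 8257 (.c 48 .nil))) (.r 12929 .nil)) (.I .jac (.c 4609 (.c 8 (.c 32 .nil))) (.b 48 (.r 12929 .nil))))) (.node (.node (.I .jac (.c 4609 (.c 32 (.c 48 .nil))) (.l 1324065929 .nil)) (.I .com (.c 231045815314584585 (.c 1324065929 .nil)) .nil)) (.node (.I .jac (.c 169943177 (.c 8 (.c 40 .nil))) (.r 18689 .nil)) (.I .jac (.c 4609 (.c 32 (.c 48 .nil))) (.l 35718473 .nil))))) (.node (.node (.node (.I .com (.c 231046163358604169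 (.c 35718473 .nil)) .nil) (.I .com (.c 231045815314584585 (.c 35718473 .nil)) .nil)) (.node (.I .adp (.c 2718204169 (.c 12929 (.c 4673 .nil))) .nil) (.I .jac (.c 4673 (.c 16 (.c 40 .nil))) (.l 2718204169 .nil)))) (.node (.node (.I .adp (.c 537002377 (.c 12929 (.c 4673 .nil))) .nil) (.I .jac (.c 4673 (.c 16 (.c 40 .nil))) (.l 537002377 .nil))) (.node (.I .jac (.c 537002377 (.c 8 (.c 24 .nil))) (.r 12929 .nil)) (.I .jac (.c 4673 (.c 32 (.c 48 .nil))) (.l 33587529 .nil)))))) (.node (.node (.node (.node (.I .jac (.c 0 (.c 16 (.c 21307587 .nil))) (.l 18497 .nil)) (.I .tdb (.c 0 (.c 24 (.c 32 (.c 12929 .nil)))) (.l 18497 .nil))) (.node (.I .adp (.c 12929 (.c 32 (.c 4609 .nil))) (.l 18497 .nil)) (.I .com (.c 169943305 (.c 12929 .nil)) (.l 18497 .nil)))) (.node (.node (.I .jac (.c 4609 (.c 16 (.c 40 .nil))) (.r 32 (.l 18497 .nil))) (.I .jac (.c 0 (.c 8 (.c 43655363 .nil))) (.b 12929 .nil)))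 (.node (.I .tdb (.c 0 (.c 24 (.c 48 (.c 12929 .nil)))) (.l 8257 .nil)) (.I .tdb (.c 16 (.c 40 (.c 0 (.c 48 .nil)))) (.b 24 (.l 8257 .nil)))))) (.node (.node (.node (.I .tdb (.c 16 (.c 40 (.c 24 (.c 48 .nil)))) (.b 0 (.l 8257 .nil))) (.I .jac (.c 4609 (.c 16 (.c 40 .nil))) (.r 48 (.l 8257 .nil)))) (.node (.I .tdb (.c 8 (.c 24 (.c 32 (.c 12929 .nil)))) (.l 18433 .nil)) (.I .adp (.c 12929 (.c 32 (.c 4673 .nil))) (.l 18433 .nil)))) (.node (.node (.I .com (.c 174695689 (.c 12929 .nil)) (.l 18433 .nil)) (.I .jac (.c 4673 (.c 16 (.c 40 .nil))) (.r 32 (.l 18433 .nil)))) (.node (.I .tdb (.c 0 (.c 32 (.c 24 (.c 48 .nil)))) (.b 8 (.b 12929 .nil))) (.I .jac (.c 4609 (.c 16 (.c 32 .nil))) (.l 2737112393 .nil))))))) (.node (.node (.node (.node (.node (.I .com (.c 231045815314584329 (.c 2737112393 .nil)) .nil) (.I .com (.c 231045467270826889 (.c 2737112393 .nil)) .nil)) (.node (.I .adp (.c 1324066185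 (.c 8321 (.c 4609 .nil))) .nil) (.I .jac (.c 4609 (.c 16 (.c 32 .nil))) (.l 1324066185 .nil)))) (.node (.node (.I .com (.c 231045815314584329 (.c 1324066185 .nil)) .nil) (.I .jac (.c 169943433 (.c 8 (.c 40 .nil))) (.r 8321 .nil))) (.node (.I .jac (.c 4609 (.c 12865 (.c 48 .nil))) (.r 8321 .nil)) (.I .jac (.c 4609 (.c 8 (.c 40 .nil))) (.b 48 (.r 8321 .nil)))))) (.node (.node (.node (.I .jac (.c 4609 (.c 40 (.c 48 .nil))) (.l 545424521 .nil)) (.I .com (.c 231046163358604233 (.c 545424521 .nil)) .nil)) (.node (.I .jac (.c 169943177 (.c 8 (.c 32 .nil))) (.r 18753 .nil)) (.I .jac (.c 4609 (.c 40 (.c 48 .nil))) (.l 35718409 .nil)))) (.node (.node (.I .adp (.c 2718204233 (.c 8321 (.c 4673 .nil))) .nil) (.I .adp (.c 1310925193 (.c 8321 (.c 4673 .nil))) .nil)) (.node (.I .jac (.c 4673 (.c 16 (.c 32 .nil))) (.l 1310925193 .nil)) (.I .jac (.c 1310925193 (.c 8 (.c 24 .nil))) (.r 8321 .nil))))))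 (.node (.node (.node (.node (.I .jac (.c 4673 (.c 40 (.c 48 .nil))) (.l 537002121 .nil)) (.I .jac (.c 537002121 (.c 8 (.c 24 .nil))) (.r 18753 .nil))) (.node (.I .jac (.c 4673 (.c 40 (.c 48 .nil))) (.l 33587465 .nil)) (.I .tdb (.c 0 (.c 24 (.c 40 (.c 8321 .nil)))) (.l 18497 .nil)))) (.node (.node (.I .tdb (.c 16 (.c 32 (.c 0 (.c 40 .nil)))) (.b 24 (.l 18497 .nil))) (.I .tdb (.c 16 (.c 32 (.c 24 (.c 40 .nil)))) (.b 0 (.l 18497 .nil)))) (.node (.I .adp (.c 8321 (.c 40 (.c 4609 .nil))) (.l 18497 .nil)) (.I .jac (.c 4609 (.c 16 (.c 32 .nil))) (.r 40 (.l 18497 .nil)))))) (.node (.node (.node (.I .adp (.c 8321 (.c 48 (.c 4609 .nil))) (.l 12865 .nil)) (.I .com (.c 169943433 (.c 8321 .nil)) (.l 12865 .nil))) (.node (.I .com (.c 174695753 (.c 8321 .nil)) (.l 18433 .nil)) (.I .tdb (.c 2049 (.c 32 (.c 40 (.c 48 .nil)))) (.b 4673 .nil)))) (.node (.node (.I .tdb (.c 0 (.c 16 (.c 40 (.c 48 .nil))))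 (.b 32 (.b 4673 .nil))) (.I .jac (.c 35468714087433 (.c 24 (.c 40 .nil))) (.l 16 .nil))) (.node (.I .jac (.c 2105737 (.c 24 (.c 40 .nil))) (.b 32 (.l 16 .nil))) (.I .jac (.c 2105609 (.c 12993 (.c 48 .nil))) (.l 16 .nil))))))))

noncomputable def c4_45 : Tr := (.node (.node (.node (.node (.node (.node (.I .jac (.c 2105609 (.c 24 (.c 40 .nil))) (.b 48 (.l 16 .nil))) (.I .jac (.c 513 (.c 24 (.c 40 .nil))) (.b 48 (.b 32 (.l 16 .nil))))) (.node (.I .com (.c 810311000722058987568294048101222890115998785554992242505 (.c 16 .nil)) .nil) (.I .com (.c 810508056934298469057804180947616240775987900593371186057 (.c 16 .nil)) .nil))) (.node (.node (.I .com (.c 810113986408641505441454317377410956945037015659145724809 (.c 16 .nil)) .nil) (.I .com (.c 810311000722058987568294027489664629116738216470604568521 (.c 16 .nil)) .nil)) (.node (.I .com (.c 810311000704513416363896103173435689053454605660071256073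 (.c 16 .nil)) .nil) (.I .jac (.c 35470870263689 (.c 24 (.c 48 .nil))) (.l 16 .nil))))) (.node (.node (.node (.I .jac (.c 2105673 (.c 24 (.c 48 .nil))) (.b 32 (.l 16 .nil))) (.I .jac (.c 2105609 (.c 24 (.c 48 .nil))) (.b 40 (.l 16 .nil)))) (.node (.I .com (.c 810508056951847240291898505585423869896609491020671768457 (.c 16 .nil)) .nil) (.I .com (.c 810311000704513416363896113479214819441509963173734745033 (.c 16 .nil)) .nil))) (.node (.node (.I .jac (.c 2105737 (.c 24 (.c 32 .nil))) (.b 40 (.l 16 .nil))) (.I .jac (.c 2105673 (.c 24 (.c 32 .nil))) (.b 48 (.l 16 .nil)))) (.node (.I .com (.c 810508056951847240291898515892456034433233341962394532681 (.c 16 .nil)) .nil) (.I .com (.c 810113986402794048221124582600893268325615363337390506953 (.c 16 .nil)) .nil))))) (.node (.node (.node (.node (.I .com (.c 810508056934298469057804160333551911925903618255834528777 (.c 16 .nil)) .nil) (.I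 .jac (.c 2105737 (.c 12993 (.c 32 .nil))) (.l 16 .nil))) (.node (.I .jac (.c 513 (.c 24 (.c 40 .nil))) (.b 32 (.b 48 (.l 16 .nil)))) (.I .com (.c 810113986408641505441454296768358535588691753787820850185 (.c 16 .nil)) .nil))) (.node (.node (.I .jac (.c 231045815314584585 (.c 8 (.c 40 .nil))) (.r 16 .nil)) (.I .jac (.c 231045989336561545 (.c 8 (.c 48 .nil))) (.r 16 .nil))) (.node (.I .jac (.c 231045989336561673 (.c 8 (.c 32 .nil))) (.r 16 .nil)) (.I .jac (.c 4609 (.c 18689 (.c 40 .nil))) (.l 2113 .nil))))) (.node (.node (.node (.I .jac (.c 4609 (.c 32 (.c 48 .nil))) (.b 40 (.l 2113 .nil))) (.I .com (.c 427058636821846429560832352193444809 (.c 2113 .nil)) .nil)) (.node (.I .jac (.c 13748198893136698249 (.c 8 (.c 24 .nil))) (.r 16 .nil)) (.I .jac (.c 2306972423229201353 (.c 8 (.c 24 .nil))) (.r 16 .nil)))) (.node (.node (.I .jac (.c 13748196208362034185 (.c 8 (.c 24 .nil))) (.r 16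 .nil)) (.I .jac (.c 174695753 (.c 32 (.c 48 .nil))) (.l 2049 .nil))) (.node (.I .jac (.c 4673 (.c 32 (.c 48 .nil))) (.b 40 (.l 2049 .nil))) (.I .jac (.c 35468714087369 (.c 24 (.c 48 .nil))) (.l 16 .nil))))))) (.node (.node (.node (.node (.node (.I .jac (.c 35473026505673 (.c 24 (.c 32 .nil))) (.l 16 .nil)) (.I .com (.c 810113986402794048221124572296367057684632113898482966537 (.c 16 .nil)) .nil)) (.node (.I .jac (.c 231045815314584521 (.c 8 (.c 48 .nil))) (.r 16 .nil)) (.I .jac (.c 169943433 (.c 32 (.c 40 .nil))) (.l 2113 .nil)))) (.node (.node (.I .com (.c 427058636821846666152103631404146569 (.c 2113 .nil)) .nil) (.I .jac (.c 2306971873338800137 (.c 8 (.c 24 .nil))) (.r 16 .nil))) (.node (.I .jac (.c 513 (.c 32 (.c 48 .nil))) (.l 12993 (.l 16 .nil))) (.I .com (.c 35473026505609 (.c 12993 .nil)) (.l 16 .nil))))) (.node (.node (.node (.I .com (.c 35468714087433 (.c 12993 .nil))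 (.l 16 .nil)) (.I .ass (.c 16 (.c 35473026505609 (.c 12993 .nil))) .nil)) (.node (.I .ass (.c 35473026505609 (.c 16 (.c 12993 .nil))) .nil) (.I .com (.c 16 (.c 35473026505609 .nil)) (.r 12993 .nil)))) (.node (.node (.I .ass (.c 16 (.c 35468714087433 (.c 12993 .nil))) .nil) (.I .ass (.c 35468714087433 (.c 16 (.c 12993 .nil))) .nil)) (.node (.I .com (.c 16 (.c 35468714087433 .nil)) (.r 12993 .nil)) (.I .ass (.c 16 (.c 35470870263625 (.c 18689 .nil))) .nil))))) (.node (.node (.node (.node (.I .ass (.c 35470870263625 (.c 16 (.c 18689 .nil))) .nil) (.I .com (.c 16 (.c 35470870263625 .nil)) (.r 18689 .nil))) (.node (.I .ass (.c 16 (.c 35466557976521 (.c 18689 .nil))) .nil) (.I .ass (.c 35466557976521 (.c 16 (.c 18689 .nil))) .nil))) (.node (.node (.I .com (.c 16 (.c 35466557976521 .nil)) (.r 18689 .nil)) (.I .jac (.c 0 (.c 20891715 (.c 24 .nil))) (.l 18689 .nil))) (.node (.I .tdb (.c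 24 (.c 40 (.c 8 (.c 16 .nil)))) (.b 0 (.l 18689 .nil))) (.I .tdb (.c 0 (.c 8 (.c 16 (.c 12993 .nil)))) (.l 18689 .nil))))) (.node (.node (.node (.I .tdb (.c 24 (.c 40 (.c 0 (.c 16 .nil)))) (.b 8 (.l 18689 .nil))) (.I .ass (.c 12865 (.c 169943177 (.c 18689 .nil))) .nil)) (.node (.I .ass (.c 169943177 (.c 12865 (.c 18689 .nil))) .nil) (.I .com (.c 12865 (.c 169943177 .nil)) (.r 18689 .nil)))) (.node (.node (.I .tdb (.c 0 (.c 24 (.c 12865 (.c 16 .nil)))) (.l 18689 .nil)) (.I .tdb (.c 8 (.c 40 (.c 0 (.c 16 .nil)))) (.b 24 (.l 18689 .nil)))) (.node (.I .adp (.c 18689 (.c 40 (.c 4609 .nil))) (.l 2113 .nil)) (.I .com (.c 169943369 (.c 18689 .nil)) (.l 2113 .nil))))))))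

noncomputable def c4_46 : Tr := (.node (.node (.node (.node (.node (.node (.I .tdb (.c 32 (.c 48 (.c 8 (.c 16 .nil)))) (.b 24 (.l 12801 .nil))) (.I .adp (.c 16 (.c 18689 (.c 4673 .nil))) (.l 12801 .nil))) (.node (.I .jac (.c 4673 (.c 32 (.c 48 .nil))) (.l 16 (.l 12801 .nil))) (.I .com (.c 244149027818380169 (.c 16 .nil)) (.l 12801 .nil)))) (.node (.node (.I .com (.c 244148670041478153 (.c 16 .nil)) (.l 12801 .nil)) (.I .tdb (.c 0 (.c 40 (.c 8 (.c 16 .nil)))) (.b 24 (.l 18689 .nil)))) (.node (.I .tdb (.c 8 (.c 24 (.c 12801 (.c 16 .nil)))) (.l 18689 .nil)) (.I .jac (.c 8 (.c 43954883 (.c 32 .nil))) (.l 2049 .nil))))) (.node (.node (.node (.I .tdb (.c 32 (.c 48 (.c 24 (.c 40 .nil)))) (.b 8 (.l 2049 .nil))) (.I .tdb (.c 8 (.c 24 (.c 40 (.c 18689 .nil)))) (.l 2049 .nil))) (.node (.I .tdb (.c 32 (.c 48 (.c 8 (.c 40 .nil)))) (.b 24 (.l 2049 .nil))) (.I .jac (.c 4673 (.c 32 (.c 48 .nil)))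 (.r 40 (.l 2049 .nil))))) (.node (.node (.I .jac (.c 8652803 (.c 24 (.c 40 .nil))) (.b 8 (.b 48 .nil))) (.I .tdb (.c 32 (.c 40 (.c 0 (.c 16 .nil)))) (.b 24 (.l 18497 .nil)))) (.node (.I .com (.c 169943433 (.c 13057 .nil)) (.l 2113 .nil)) (.I .ass (.c 2113 (.c 169943433 (.c 13057 .nil))) .nil))))) (.node (.node (.node (.node (.I .ass (.c 169943433 (.c 2113 (.c 13057 .nil))) .nil) (.I .com (.c 2113 (.c 169943433 .nil)) (.r 13057 .nil))) (.node (.I .tdb (.c 8 (.c 24 (.c 13057 (.c 16 .nil)))) (.l 18433 .nil)) (.I .adp (.c 16 (.c 13057 (.c 4673 .nil))) (.l 18433 .nil)))) (.node (.node (.I .jac (.c 8 (.c 43655363 (.c 40 .nil))) (.l 2049 .nil)) (.I .jac (.c 513 (.c 40 (.c 48 .nil))) (.l 8385 (.l 16 .nil)))) (.node (.I .com (.c 35473026505673 (.c 8385 .nil)) (.l 16 .nil)) (.I .com (.c 35470870263817 (.c 8385 .nil)) (.l 16 .nil))))) (.node (.node (.node (.I .ass (.c 16 (.c 35473026505673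 (.c 8385 .nil))) .nil) (.I .ass (.c 35473026505673 (.c 16 (.c 8385 .nil))) .nil)) (.node (.I .com (.c 16 (.c 35473026505673 .nil)) (.r 8385 .nil)) (.I .ass (.c 16 (.c 35470870263817 (.c 8385 .nil))) .nil))) (.node (.node (.I .ass (.c 35470870263817 (.c 16 (.c 8385 .nil))) .nil) (.I .com (.c 16 (.c 35470870263817 .nil)) (.r 8385 .nil))) (.node (.I .ass (.c 16 (.c 35468714087241 (.c 18753 .nil))) .nil) (.I .ass (.c 35468714087241 (.c 16 (.c 18753 .nil))) .nil)))))) (.node (.node (.node (.node (.node (.I .com (.c 16 (.c 35468714087241 .nil)) (.r 18753 .nil)) (.I .ass (.c 16 (.c 35466557976457 (.c 18753 .nil))) .nil)) (.node (.I .ass (.c 35466557976457 (.c 16 (.c 18753 .nil))) .nil) (.I .com (.c 16 (.c 35466557976457 .nil)) (.r 18753 .nil)))) (.node (.node (.I .tdb (.c 40 (.c 48 (.c 0 (.c 16 .nil)))) (.b 24 (.l 8257 .nil))) (.I .ass (.c 8257 (.c 169943177 (.c 18753 .nil))) .nil)) (.node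 (.I .ass (.c 169943177 (.c 8257 (.c 18753 .nil))) .nil) (.I .com (.c 8257 (.c 169943177 .nil)) (.r 18753 .nil))))) (.node (.node (.node (.I .adp (.c 32 (.c 18753 (.c 4609 .nil))) (.l 2113 .nil)) (.I .jac (.c 4609 (.c 40 (.c 48 .nil))) (.l 32 (.l 2113 .nil)))) (.node (.I .com (.c 231046163358604233 (.c 32 .nil)) (.l 2113 .nil)) (.I .com (.c 231045989336561673 (.c 32 .nil)) (.l 2113 .nil)))) (.node (.node (.I .tdb (.c 8 (.c 24 (.c 18753 (.c 16 .nil)))) (.l 8193 .nil)) (.I .jac (.c 4673 (.c 40 (.c 48 .nil))) (.l 16 (.l 8193 .nil)))) (.node (.I .com (.c 244149027818380233 (.c 16 .nil)) (.l 8193 .nil)) (.I .com (.c 244148848929896457 (.c 16 .nil)) (.l 8193 .nil)))))) (.node (.node (.node (.node (.I .tdb (.c 0 (.c 32 (.c 8 (.c 16 .nil)))) (.b 24 (.b 18753 .nil))) (.I .tdb (.c 40 (.c 48 (.c 24 (.c 32 .nil)))) (.b 8 (.l 2049 .nil)))) (.node (.I .tdb (.c 8 (.c 24 (.c 32 (.c 18753 .nil))))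 (.l 2049 .nil)) (.I .tdb (.c 40 (.c 48 (.c 8 (.c 32 .nil)))) (.b 24 (.l 2049 .nil))))) (.node (.node (.I .jac (.c 4673 (.c 40 (.c 48 .nil))) (.l 32 (.l 2049 .nil))) (.I .com (.c 244149027818380233 (.c 32 .nil)) (.l 2049 .nil))) (.node (.I .com (.c 244148848929896457 (.c 32 .nil)) (.l 2049 .nil)) (.I .adp (.c 13748198893136698057 (.c 32 (.c 4737 .nil))) .nil)))) (.node (.node (.node (.I .jac (.c 13748198893136698057 (.c 16 (.c 24 .nil))) (.r 32 .nil)) (.I .adp (.c 59109062884628932553 (.c 32 (.c 4737 .nil))) .nil)) (.node (.I .jac (.c 59109062884628932553 (.c 16 (.c 24 .nil))) (.r 32 .nil)) (.I .adp (.c 13748192181200529417 (.c 32 (.c 4737 .nil))) .nil))) (.node (.node (.I .jac (.c 13748192181200529417 (.c 16 (.c 24 .nil))) (.r 32 .nil)) (.I .jac (.c 2737112393 (.c 16 (.c 24 .nil))) (.l 8193 .nil))) (.node (.I .jac (.c 8193 (.c 16 (.c 24 .nil))) (.r 2737112393 .nil)) (.I .adp (.c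 1324066185 (.c 32 (.c 24 .nil))) (.b 2049 .nil))))))))

noncomputable def c4_47 : Tr := (.node (.node (.node (.node (.node (.node (.I .adp (.c 1324066185 (.c 32 (.c 16 .nil))) (.b 4609 .nil)) (.I .adp (.c 1324066185 (.c 32 (.c 0 .nil))) (.b 4737 .nil))) (.node (.I .com (.c 8193 (.c 1324066185 .nil)) (.b 4737 .nil)) (.I .jac (.c 18433 (.c 8 (.c 40 .nil))) (.r 32 (.b 4737 .nil))))) (.node (.node (.I .jac (.c 0 (.c 12865 (.c 48 .nil))) (.r 32 (.b 4737 .nil))) (.I .jac (.c 0 (.c 8 (.c 40 .nil))) (.b 48 (.r 32 (.b 4737 .nil))))) (.node (.I .adp (.c 59109074018392946377 (.c 32 (.c 4737 .nil))) .nil) (.I .jac (.c 59109074018392946377 (.c 16 (.c 24 .nil))) (.r 32 .nil))))) (.node (.node (.node (.I .adp (.c 35470870263817 (.c 32 (.c 4737 .nil))) .nil) (.I .adp (.c 8193 (.c 1324066185 (.c 4737 .nil))) .nil)) (.node (.I .jac (.c 1324066185 (.c 16 (.c 24 .nil))) (.l 8193 .nil)) (.I .jac (.c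 8193 (.c 16 (.c 24 .nil))) (.r 1324066185 .nil)))) (.node (.node (.I .jac (.c 43954755 (.c 16 (.c 24 .nil))) (.l 8193 .nil)) (.I .adp (.c 2306972423229201097 (.c 40 (.c 4737 .nil))) .nil)) (.node (.I .jac (.c 2306972423229201097 (.c 16 (.c 24 .nil))) (.r 40 .nil)) (.I .adp (.c 59109062884628932489 (.c 40 (.c 4737 .nil))) .nil))))) (.node (.node (.node (.node (.I .jac (.c 59109062884628932489 (.c 16 (.c 24 .nil))) (.r 40 .nil)) (.I .adp (.c 2306969673777850377 (.c 40 (.c 4737 .nil))) .nil)) (.node (.I .jac (.c 2306969673777850377 (.c 16 (.c 24 .nil))) (.r 40 .nil)) (.I .jac (.c 2737112329 (.c 16 (.c 24 .nil))) (.l 12801 .nil)))) (.node (.node (.I .jac (.c 12801 (.c 16 (.c 24 .nil))) (.r 2737112329 .nil)) (.I .adp (.c 545424777 (.c 40 (.c 24 .nil))) (.b 2049 .nil))) (.node (.I .adp (.c 545424777 (.c 40 (.c 16 .nil))) (.b 4609 .nil)) (.I .adp (.c 545424777 (.c 40 (.c 0 .nil))) (.b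 4737 .nil))))) (.node (.node (.node (.I .com (.c 12801 (.c 545424777 .nil)) (.b 4737 .nil)) (.I .jac (.c 18433 (.c 8 (.c 32 .nil))) (.r 40 (.b 4737 .nil)))) (.node (.I .jac (.c 0 (.c 8257 (.c 48 .nil))) (.r 40 (.b 4737 .nil))) (.I .jac (.c 0 (.c 8 (.c 32 .nil))) (.b 48 (.r 40 (.b 4737 .nil)))))) (.node (.node (.I .adp (.c 59109071234951844553 (.c 40 (.c 4737 .nil))) .nil) (.I .jac (.c 59109071234951844553 (.c 16 (.c 24 .nil))) (.r 40 .nil))) (.node (.I .adp (.c 35468714087433 (.c 40 (.c 4737 .nil))) .nil) (.I .adp (.c 12801 (.c 545424777 (.c 4737 .nil))) .nil)))))) (.node (.node (.node (.node (.node (.I .jac (.c 12801 (.c 16 (.c 24 .nil))) (.r 545424777 .nil)) (.I .jac (.c 4737 (.c 32 (.c 40 .nil))) (.l 2718203977 .nil))) (.node (.I .tdb (.c 8 (.c 48 (.c 16 (.c 32 .nil)))) (.b 24 (.l 12801 .nil))) (.I .tdb (.c 8 (.c 48 (.c 24 (.c 32 .nil)))) (.b 16 (.l 12801 .nil))))) (.node (.node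 (.I .tdb (.c 16 (.c 24 (.c 32 (.c 18497 .nil)))) (.l 12801 .nil)) (.I .adp (.c 18497 (.c 32 (.c 4737 .nil))) (.l 12801 .nil))) (.node (.I .jac (.c 18497 (.c 16 (.c 24 .nil))) (.r 32 (.l 12801 .nil))) (.I .tdb (.c 0 (.c 40 (.c 16 (.c 32 .nil)))) (.b 24 (.b 18497 .nil)))))) (.node (.node (.node (.I .tdb (.c 8 (.c 48 (.c 16 (.c 40 .nil)))) (.b 24 (.l 8193 .nil))) (.I .adp (.c 18497 (.c 40 (.c 4737 .nil))) (.l 8193 .nil))) (.node (.I .tdb (.c 0 (.c 32 (.c 16 (.c 40 .nil)))) (.b 24 (.b 18497 .nil))) (.I .tdb (.c 0 (.c 32 (.c 24 (.c 40 .nil)))) (.b 16 (.b 18497 .nil))))) (.node (.node (.I .jac (.c 1324066057 (.c 16 (.c 24 .nil))) (.l 18433 .nil)) (.I .adp (.c 2718204169 (.c 12865 (.c 4737 .nil))) .nil)) (.node (.I .adp (.c 537002377 (.c 12865 (.c 4737 .nil))) .nil) (.I .jac (.c 537002377 (.c 16 (.c 24 .nil))) (.r 12865 .nil)))))) (.node (.node (.node (.node (.I .tdb (.c 16 (.c 24 (.c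 32 (.c 12865 .nil)))) (.l 18433 .nil)) (.I .jac (.c 12865 (.c 16 (.c 24 .nil))) (.r 32 (.l 18433 .nil)))) (.node (.I .adp (.c 2718204233 (.c 8257 (.c 4737 .nil))) .nil) (.I .adp (.c 1310925193 (.c 8257 (.c 4737 .nil))) .nil))) (.node (.node (.I .jac (.c 1310925193 (.c 16 (.c 24 .nil))) (.r 8257 .nil)) (.I .jac (.c 4737 (.c 40 (.c 48 .nil))) (.l 537002057 .nil))) (.node (.I .jac (.c 4737 (.c 40 (.c 48 .nil))) (.l 2105609 .nil)) (.I .tdb (.c 0 (.c 40 (.c 8 (.c 48 .nil)))) (.b 32 (.b 4737 .nil)))))) (.node (.node (.node (.I .jac (.c 33587593 (.c 24 (.c 40 .nil))) (.b 32 (.l 8 .nil))) (.I .com (.c 3396677733571839102889236125600925175761087616286488823818833200009 (.c 8 .nil)) .nil)) (.node (.I .com (.c 3396574178719683520950915452814913047159318990092683646127663612809 (.c 8 .nil)) .nil) (.I .com (.c 3396625955800353299884767459018054552292453520276230815172891107337 (.c 8 .nil)) .nil)))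 (.node (.node (.I .com (.c 3396625955800353299884767459018721787301486067898984102757536990153 (.c 8 .nil)) .nil) (.I .jac (.c 33587593 (.c 24 (.c 32 .nil))) (.b 40 (.l 8 .nil)))) (.node (.I .com (.c 3396574178719587173931624198464933818003441404440742072888827954121 (.c 8 .nil)) .nil) (.I .com (.c 3396677733571839102889236125599590695571808317775861932762086194185 (.c 8 .nil)) .nil)))))))

noncomputable def c4_48 : Tr := (.node (.node (.node (.node (.node (.node (.I .jac (.c 9025011228269449 (.c 24 (.c 40 .nil))) (.l 8 .nil)) (.I .com (.c 3396574178719683520950915452813578587312409917510140798824713010185 (.c 8 .nil)) .nil)) (.node (.I .jac (.c 231045815314584585 (.c 16 (.c 40 .nil))) (.l 8 .nil)) (.I .jac (.c 169943305 (.c 12929 (.c 48 .nil))) (.l 8 .nil)))) (.node (.node (.I .jac (.c 169943305 (.c 16 (.c 40 .nil))) (.b 48 (.l 8 .nil))) (.I .jac (.c 4609 (.c 12929 (.c 48 .nil)))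 (.b 32 (.l 8 .nil)))) (.node (.I .jac (.c 4609 (.c 16 (.c 40 .nil))) (.b 48 (.b 32 (.l 8 .nil)))) (.I .com (.c 1459028238553203103993755533577261697621901148971561540346963769967592329 (.c 8 .nil)) .nil)))) (.node (.node (.node (.I .com (.c 1459015051463144568155825199432980697041342257723218526480176662311994249 (.c 8 .nil)) .nil) (.I .com (.c 1459023842844927484074647864604431512866864223127535792803546291575824393 (.c 8 .nil)) .nil)) (.node (.I .jac (.c 169943305 (.c 16 (.c 48 .nil))) (.b 40 (.l 8 .nil))) (.I .jac (.c 4609 (.c 18561 (.c 32 .nil))) (.b 40 (.l 8 .nil))))) (.node (.node (.I .jac (.c 4609 (.c 16 (.c 48 .nil))) (.b 32 (.b 40 (.l 8 .nil)))) (.I .com (.c 1459023842844927484074647864604431950173590822856773473173784160675120073 (.c 8 .nil)) .nil)) (.node (.I .jac (.c 231045989336561673 (.c 16 (.c 32 .nil))) (.l 8 .nil)) (.I .jac (.c 169943433 (.c 16 (.c 32 .nil))) (.b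 40 (.l 8 .nil))))))) (.node (.node (.node (.node (.I .jac (.c 169943369 (.c 8321 (.c 48 .nil))) (.l 8 .nil)) (.I .jac (.c 169943369 (.c 16 (.c 32 .nil))) (.b 48 (.l 8 .nil)))) (.node (.I .com (.c 1459015051463142951556903841905138958216352709921802402533905189875073993 (.c 8 .nil)) .nil) (.I .com (.c 1459028238553203103993755533577260823007130444416315754662366410590321673 (.c 8 .nil)) .nil))) (.node (.node (.I .jac (.c 231046163358604169 (.c 16 (.c 40 .nil))) (.l 8 .nil)) (.I .jac (.c 169943433 (.c 12929 (.c 32 .nil))) (.l 8 .nil))) (.node (.I .com (.c 1459015051463144568155825199432979822430524063991327531422054381118536713 (.c 8 .nil)) .nil) (.I .com (.c 59109071234951844809 (.c 8 .nil)) (.b 4737 .nil))))) (.node (.node (.node (.I .adp (.c 59109071234951844809 (.c 8 (.c 4737 .nil))) .nil) (.I .jac (.c 8 (.c 16 (.c 24 .nil))) (.l 59109071234951844809 .nil))) (.node (.I .jac (.c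 59109071234951844809 (.c 16 (.c 24 .nil))) (.r 8 .nil)) (.I .jac (.c 179513673 (.c 32 (.c 48 .nil))) (.l 513 .nil)))) (.node (.node (.I .jac (.c 9025011228269513 (.c 24 (.c 32 .nil))) (.l 8 .nil)) (.I .com (.c 3396574178719587173931624198464266588079986877612772630030374805513 (.c 8 .nil)) .nil)) (.node (.I .jac (.c 231046163358604233 (.c 16 (.c 32 .nil))) (.l 8 .nil)) (.I .jac (.c 169943433 (.c 8321 (.c 40 .nil))) (.l 8 .nil))))))) (.node (.node (.node (.node (.node (.I .com (.c 1459015051463142951556903841905138520910943613056099173736733023887826953 (.c 8 .nil)) .nil) (.I .com (.c 59109074018392946569 (.c 8 .nil)) (.b 4737 .nil))) (.node (.I .adp (.c 59109074018392946569 (.c 8 (.c 4737 .nil))) .nil) (.I .jac (.c 8 (.c 16 (.c 24 .nil))) (.l 59109074018392946569 .nil)))) (.node (.node (.I .jac (.c 59109074018392946569 (.c 16 (.c 24 .nil))) (.r 8 .nil)) (.I .jac (.c 8 (.c 16 (.c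 24 .nil))) (.l 2306971873338800137 .nil))) (.node (.I .jac (.c 179513737 (.c 32 (.c 40 .nil))) (.l 513 .nil)) (.I .jac (.c 8 (.c 16 (.c 24 .nil))) (.l 3632040653488585 .nil))))) (.node (.node (.node (.I .tdb (.c 16 (.c 24 (.c 18689 (.c 8 .nil)))) (.l 12801 .nil)) (.I .adp (.c 8 (.c 18689 (.c 4737 .nil))) (.l 12801 .nil))) (.node (.I .jac (.c 8 (.c 16 (.c 24 .nil))) (.r 18689 (.l 12801 .nil))) (.I .jac (.c 16 (.c 43954883 (.c 32 .nil))) (.l 513 .nil)))) (.node (.node (.I .tdb (.c 32 (.c 48 (.c 24 (.c 40 .nil)))) (.b 16 (.l 513 .nil))) (.I .tdb (.c 16 (.c 24 (.c 40 (.c 18689 .nil)))) (.l 513 .nil))) (.node (.I .jac (.c 4737 (.c 32 (.c 48 .nil))) (.r 40 (.l 513 .nil))) (.I .tdb (.c 16 (.c 24 (.c 13057 (.c 8 .nil)))) (.l 18433 .nil)))))) (.node (.node (.node (.node (.I .tdb (.c 32 (.c 12801 (.c 8 (.c 48 .nil)))) (.b 4737 .nil)) (.I .tdb (.c 40 (.c 8193 (.c 8 (.c 48 .nil)))) (.b 4737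 .nil))) (.node (.I .tdb (.c 0 (.c 32 (.c 8 (.c 48 .nil)))) (.b 40 (.b 4737 .nil))) (.I .com (.c 179513737 (.c 13057 .nil)) (.l 513 .nil)))) (.node (.node (.I .tdb (.c 16 (.c 24 (.c 18753 (.c 8 .nil)))) (.l 8193 .nil)) (.I .adp (.c 8 (.c 18753 (.c 4737 .nil))) (.l 8193 .nil))) (.node (.I .jac (.c 8 (.c 16 (.c 24 .nil))) (.r 18753 (.l 8193 .nil))) (.I .tdb (.c 40 (.c 48 (.c 16 (.c 32 .nil)))) (.b 24 (.l 513 .nil)))))) (.node (.node (.node (.I .adp (.c 2718204233 (.c 32 (.c 24 .nil))) (.b 2113 .nil)) (.I .adp (.c 2718204233 (.c 32 (.c 16 .nil))) (.b 4673 .nil))) (.node (.I .adp (.c 2718204233 (.c 32 (.c 8 .nil))) (.b 4737 .nil)) (.I .adp (.c 1310925193 (.c 32 (.c 24 .nil))) (.b 2113 .nil)))) (.node (.node (.I .adp (.c 1310925193 (.c 32 (.c 16 .nil))) (.b 4673 .nil)) (.I .adp (.c 1310925193 (.c 32 (.c 8 .nil))) (.b 4737 .nil))) (.node (.I .adp (.c 2718204169 (.c 40 (.c 24 .nil))) (.b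 2113 .nil)) (.I .adp (.c 2718204169 (.c 40 (.c 16 .nil))) (.b 4673 .nil))))))))

noncomputable def c4_49 : Tr := (.node (.node (.node (.node (.node (.node (.I .adp (.c 2718204169 (.c 40 (.c 8 .nil))) (.b 4737 .nil)) (.I .adp (.c 537002377 (.c 40 (.c 24 .nil))) (.b 2113 .nil))) (.node (.I .adp (.c 537002377 (.c 40 (.c 16 .nil))) (.b 4673 .nil)) (.I .adp (.c 537002377 (.c 40 (.c 8 .nil))) (.b 4737 .nil)))) (.node (.node (.I .jac (.c 0 (.c 8 (.c 24 .nil))) (.r 60768081417602405321 .nil)) (.I .jac (.c 0 (.c 8 (.c 24 .nil))) (.r 2454554348984163273 .nil))) (.node (.I .jac (.c 0 (.c 8 (.c 24 .nil))) (.r 14306383732740658185 .nil)) (.I .jac (.c 0 (.c 8 (.c 24 .nil))) (.r 60768084239834527625 .nil))))) (.node (.node (.node (.I .jac (.c 4737 (.c 32 (.c 40 .nil))) (.l 18497 (.l 0 .nil))) (.I .jac (.c 4737 (.c 40 (.c 48 .nil))) (.l 8257 (.l 0 .nil)))) (.node (.I .adp (.c 4673 (.c 16 (.c 13748198893136698249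 .nil))) .nil) (.I .com (.c 1512103782441961079041378905002237328137 (.c 4673 .nil)) .nil))) (.node (.node (.I .adp (.c 2113 (.c 24 (.c 13748198893136698249 .nil))) .nil) (.I .com (.c 1512103782441961079041378905002237328201 (.c 2113 .nil)) .nil)) (.node (.I .com (.c 27951058418068892863957554057219361971977 (.c 4673 .nil)) .nil) (.I .com (.c 27951058418068892863957554057219361972041 (.c 2113 .nil)) .nil))))) (.node (.node (.node (.node (.I .adp (.c 4673 (.c 16 (.c 2306972423229201353 .nil))) .nil) (.I .com (.c 42576974092320106643384879185736245001 (.c 4673 .nil)) .nil)) (.node (.I .adp (.c 2113 (.c 24 (.c 2306972423229201353 .nil))) .nil) (.I .com (.c 42576974092320106643384879185736245065 (.c 2113 .nil)) .nil))) (.node (.node (.I .adp (.c 4673 (.c 16 (.c 13748196208362034185 .nil))) .nil) (.I .com (.c 1512103191868961706263182477688868913929 (.c 4673 .nil)) .nil)) (.node (.I .adp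 (.c 2113 (.c 24 (.c 13748196208362034185 .nil))) .nil) (.I .com (.c 1512103191868961706263182477688868913993 (.c 2113 .nil)) .nil)))) (.node (.node (.node (.I .com (.c 27951061050494848639907477563920710974217 (.c 4673 .nil)) .nil) (.I .com (.c 27951061050494848639907477563920710974281 (.c 2113 .nil)) .nil)) (.node (.I .adp (.c 4673 (.c 16 (.c 2306971873338800137 .nil))) .nil) (.I .com (.c 42576953795010663218959029878649750281 (.c 4673 .nil)) .nil))) (.node (.node (.I .adp (.c 2113 (.c 24 (.c 2306971873338800137 .nil))) .nil) (.I .com (.c 42576953795010663218959029878649750345 (.c 2113 .nil)) .nil)) (.node (.I .jac (.c 169943177 (.c 32 (.c 48 .nil))) (.l 12865 .nil)) (.I .jac (.c 537002377 (.c 8 (.c 24 .nil))) (.b 16 (.r 40 .nil)))))))) (.node (.node (.node (.node (.node (.I .jac (.c 537002377 (.c 8 (.c 16 .nil))) (.b 24 (.r 40 .nil))) (.I .jac (.c 35718345 (.c 32 (.c 48 .nil)))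 (.l 12801 .nil))) (.node (.I .tdb (.c 8 (.c 48 (.c 16 (.c 40 .nil)))) (.b 32 (.l 4609 .nil))) (.I .tdb (.c 8 (.c 48 (.c 24 (.c 40 .nil)))) (.b 32 (.l 2049 .nil))))) (.node (.node (.I .jac (.c 2803715 (.c 32 (.c 48 .nil))) (.l 12865 .nil)) (.I .tdb (.c 8 (.c 40 (.c 18689 (.c 16 .nil)))) (.l 4609 .nil))) (.node (.I .tdb (.c 32 (.c 48 (.c 8 (.c 16 .nil)))) (.b 40 (.l 4609 .nil))) (.I .jac (.c 16 (.c 32 (.c 48 .nil))) (.l 12865 (.l 4609 .nil)))))) (.node (.node (.node (.I .ass (.c 231045989336561353 (.c 18689 (.c 16 .nil))) .nil) (.I .com (.c 16 (.c 18689 .nil)) (.l 231045989336561353 .nil))) (.node (.I .ass (.c 231045293249046473 (.c 18689 (.c 16 .nil))) .nil) (.I .jac (.c 16 (.c 32 (.c 48 .nil))) (.l 231045293249046473 .nil)))) (.node (.node (.I .com (.c 16 (.c 18689 .nil)) (.l 231045293249046473 .nil)) (.I .jac (.c 24 (.c 32 (.c 48 .nil))) (.l 9024976834606793 .nil))) (.node (.I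 .jac (.c 24 (.c 32 (.c 48 .nil))) (.l 9024839260612553 .nil)) (.I .tdb (.c 0 (.c 48 (.c 16 (.c 40 .nil)))) (.b 32 (.l 4673 .nil))))))) (.node (.node (.node (.node (.I .ass (.c 4673 (.c 2718204169 (.c 12929 .nil))) .nil) (.I .ass (.c 2718204169 (.c 4673 (.c 12929 .nil))) .nil)) (.node (.I .com (.c 4673 (.c 2718204169 .nil)) (.r 12929 .nil)) (.I .ass (.c 2113 (.c 2718204169 (.c 12993 .nil))) .nil))) (.node (.node (.I .ass (.c 2718204169 (.c 2113 (.c 12993 .nil))) .nil) (.I .com (.c 2113 (.c 2718204169 .nil)) (.r 12993 .nil))) (.node (.I .ass (.c 4673 (.c 537002377 (.c 12929 .nil))) .nil) (.I .ass (.c 537002377 (.c 4673 (.c 12929 .nil))) .nil)))) (.node (.node (.node (.I .com (.c 4673 (.c 537002377 .nil)) (.r 12929 .nil)) (.I .ass (.c 2113 (.c 537002377 (.c 12993 .nil))) .nil)) (.node (.I .ass (.c 537002377 (.c 2113 (.c 12993 .nil))) .nil) (.I .com (.c 2113 (.c 537002377 .nil)) (.r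 12993 .nil)))) (.node (.node (.I .tdb (.c 32 (.c 48 (.c 0 (.c 16 .nil)))) (.b 40 (.l 4673 .nil))) (.I .jac (.c 16 (.c 32 (.c 48 .nil))) (.l 12801 (.l 4673 .nil)))) (.node (.I .ass (.c 4673 (.c 12801 (.c 2756086025 .nil))) .nil) (.I .ass (.c 12801 (.c 4673 (.c 2756086025 .nil))) .nil)))))))

noncomputable def c4_50 : Tr := (.node (.node (.node (.node (.node (.node (.I .com (.c 4673 (.c 12801 .nil)) (.r 2756086025 .nil)) (.I .ass (.c 13748194865974800073 (.c 18689 (.c 16 .nil))) .nil)) (.node (.I .com (.c 16 (.c 18689 .nil)) (.l 13748194865974800073 .nil)) (.I .ass (.c 13748192181200529225 (.c 18689 (.c 16 .nil))) .nil))) (.node (.node (.I .jac (.c 16 (.c 32 (.c 48 .nil))) (.l 13748192181200529225 .nil)) (.I .com (.c 16 (.c 18689 .nil)) (.l 13748192181200529225 .nil))) (.node (.I .jac (.c 24 (.c 32 (.c 48 .nil))) (.l 12801 (.l 2113 .nil))) (.I .ass (.c 2113 (.c 12801 (.c 562466185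 .nil))) .nil)))) (.node (.node (.node (.I .ass (.c 12801 (.c 2113 (.c 562466185 .nil))) .nil) (.I .com (.c 2113 (.c 12801 .nil)) (.r 562466185 .nil))) (.node (.I .jac (.c 24 (.c 32 (.c 48 .nil))) (.l 13748193523587631817 .nil)) (.I .jac (.c 24 (.c 32 (.c 48 .nil))) (.l 13748192181200529161 .nil)))) (.node (.node (.I .jac (.c 169943177 (.c 32 (.c 40 .nil))) (.l 18497 .nil)) (.I .jac (.c 2803715 (.c 32 (.c 40 .nil))) (.l 18497 .nil))) (.node (.I .tdb (.c 32 (.c 40 (.c 18497 (.c 16 .nil)))) (.l 4609 .nil)) (.I .jac (.c 16 (.c 32 (.c 40 .nil))) (.l 18497 (.l 4609 .nil))))))) (.node (.node (.node (.node (.I .jac (.c 16 (.c 32 (.c 40 .nil))) (.l 231046163358603977 .nil)) (.I .jac (.c 16 (.c 32 (.c 40 .nil))) (.l 231045293249046537 .nil))) (.node (.I .tdb (.c 8 (.c 48 (.c 24 (.c 32 .nil)))) (.b 40 (.l 2049 .nil))) (.I .jac (.c 24 (.c 32 (.c 40 .nil))) (.l 18497 (.l 2049 .nil))))) (.node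 (.node (.I .ass (.c 9025011228269257 (.c 13057 (.c 24 .nil))) .nil) (.I .com (.c 24 (.c 13057 .nil)) (.l 9025011228269257 .nil))) (.node (.I .ass (.c 9024839260612617 (.c 13057 (.c 24 .nil))) .nil) (.I .jac (.c 24 (.c 32 (.c 40 .nil))) (.l 9024839260612617 .nil))))) (.node (.node (.node (.I .com (.c 24 (.c 13057 .nil)) (.l 9024839260612617 .nil)) (.I .tdb (.c 0 (.c 48 (.c 16 (.c 32 .nil)))) (.b 40 (.l 4673 .nil)))) (.node (.I .jac (.c 16 (.c 32 (.c 40 .nil))) (.l 18433 (.l 4673 .nil))) (.I .ass (.c 4673 (.c 18433 (.c 1337272585 .nil))) .nil))) (.node (.node (.I .ass (.c 18433 (.c 4673 (.c 1337272585 .nil))) .nil) (.I .com (.c 4673 (.c 18433 .nil)) (.r 1337272585 .nil))) (.node (.I .jac (.c 24 (.c 32 (.c 40 .nil))) (.l 18433 (.l 2113 .nil))) (.I .ass (.c 2113 (.c 2718204105 (.c 13057 .nil))) .nil)))))) (.node (.node (.node (.node (.node (.I .ass (.c 2718204105 (.c 2113 (.c 13057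 .nil))) .nil) (.I .com (.c 2113 (.c 2718204105 .nil)) (.r 13057 .nil))) (.node (.I .ass (.c 2113 (.c 18433 (.c 1350544649 .nil))) .nil) (.I .ass (.c 18433 (.c 2113 (.c 1350544649 .nil))) .nil))) (.node (.node (.I .com (.c 2113 (.c 18433 .nil)) (.r 1350544649 .nil)) (.I .ass (.c 2113 (.c 18433 (.c 562466121 .nil))) .nil)) (.node (.I .ass (.c 18433 (.c 2113 (.c 562466121 .nil))) .nil) (.I .com (.c 2113 (.c 18433 .nil)) (.r 562466121 .nil))))) (.node (.node (.node (.I .ass (.c 59109065668069837513 (.c 13057 (.c 24 .nil))) .nil) (.I .jac (.c 24 (.c 32 (.c 40 .nil))) (.l 59109065668069837513 .nil))) (.node (.I .com (.c 24 (.c 13057 .nil)) (.l 59109065668069837513 .nil)) (.I .ass (.c 59109062884628932361 (.c 13057 (.c 24 .nil))) .nil))) (.node (.node (.I .jac (.c 24 (.c 32 (.c 40 .nil))) (.l 59109062884628932361 .nil)) (.I .com (.c 24 (.c 13057 .nil)) (.l 59109062884628932361 .nil)))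 (.node (.I .tdb (.c 0 (.c 40 (.c 16 (.c 48 .nil)))) (.b 32 (.l 4673 .nil))) (.I .ass (.c 4673 (.c 1310925065 (.c 18561 .nil))) .nil))))) (.node (.node (.node (.node (.I .ass (.c 1310925065 (.c 4673 (.c 18561 .nil))) .nil) (.I .com (.c 4673 (.c 1310925065 .nil)) (.r 18561 .nil))) (.node (.I .ass (.c 2113 (.c 1310925065 (.c 18625 .nil))) .nil) (.I .ass (.c 1310925065 (.c 2113 (.c 18625 .nil))) .nil))) (.node (.node (.I .com (.c 2113 (.c 1310925065 .nil)) (.r 18625 .nil)) (.I .ass (.c 4673 (.c 537002313 (.c 18561 .nil))) .nil)) (.node (.I .ass (.c 537002313 (.c 4673 (.c 18561 .nil))) .nil) (.I .com (.c 4673 (.c 537002313 .nil)) (.r 18561 .nil))))) (.node (.node (.node (.I .ass (.c 2113 (.c 537002313 (.c 18625 .nil))) .nil) (.I .ass (.c 537002313 (.c 2113 (.c 18625 .nil))) .nil)) (.node (.I .com (.c 2113 (.c 537002313 .nil)) (.r 18625 .nil)) (.I .jac (.c 33587401 (.c 40 (.c 48 .nil)))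 (.l 8257 .nil)))) (.node (.node (.I .jac (.c 1310925193 (.c 8 (.c 24 .nil))) (.b 16 (.r 32 .nil))) (.I .jac (.c 174695561 (.c 40 (.c 48 .nil))) (.l 8193 .nil))) (.node (.I .jac (.c 1310925193 (.c 8 (.c 16 .nil))) (.b 24 (.r 32 .nil))) (.I .jac (.c 2803715 (.c 40 (.c 48 .nil))) (.l 8257 .nil))))))))

noncomputable def c4_51 : Tr := (.node (.node (.node (.node (.node (.node (.I .tdb (.c 8 (.c 32 (.c 18753 (.c 16 .nil)))) (.l 4609 .nil)) (.I .tdb (.c 40 (.c 48 (.c 8 (.c 16 .nil)))) (.b 32 (.l 4609 .nil)))) (.node (.I .ass (.c 231045815314584265 (.c 18753 (.c 16 .nil))) .nil) (.I .jac (.c 16 (.c 40 (.c 48 .nil))) (.l 231045815314584265 .nil)))) (.node (.node (.I .com (.c 16 (.c 18753 .nil)) (.l 231045815314584265 .nil)) (.I .ass (.c 231045293249046409 (.c 18753 (.c 16 .nil))) .nil)) (.node (.I .jac (.c 16 (.c 40 (.c 48 .nil))) (.l 231045293249046409 .nil)) (.I .com (.c 16 (.c 18753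 .nil)) (.l 231045293249046409 .nil))))) (.node (.node (.node (.I .ass (.c 4673 (.c 2718204233 (.c 8321 .nil))) .nil) (.I .ass (.c 2718204233 (.c 4673 (.c 8321 .nil))) .nil)) (.node (.I .com (.c 4673 (.c 2718204233 .nil)) (.r 8321 .nil)) (.I .ass (.c 2113 (.c 2718204233 (.c 8385 .nil))) .nil))) (.node (.node (.I .ass (.c 2718204233 (.c 2113 (.c 8385 .nil))) .nil) (.I .com (.c 2113 (.c 2718204233 .nil)) (.r 8385 .nil))) (.node (.I .ass (.c 4673 (.c 1310925193 (.c 8321 .nil))) .nil) (.I .ass (.c 1310925193 (.c 4673 (.c 8321 .nil))) .nil))))) (.node (.node (.node (.node (.I .com (.c 4673 (.c 1310925193 .nil)) (.r 8321 .nil)) (.I .ass (.c 2113 (.c 1310925193 (.c 8385 .nil))) .nil)) (.node (.I .ass (.c 1310925193 (.c 2113 (.c 8385 .nil))) .nil) (.I .com (.c 2113 (.c 1310925193 .nil)) (.r 8385 .nil)))) (.node (.node (.I .tdb (.c 40 (.c 48 (.c 0 (.c 16 .nil)))) (.b 32 (.l 4673 .nil))) (.I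 .jac (.c 16 (.c 40 (.c 48 .nil))) (.l 8193 (.l 4673 .nil)))) (.node (.I .ass (.c 4673 (.c 537002121 (.c 18753 .nil))) .nil) (.I .ass (.c 537002121 (.c 4673 (.c 18753 .nil))) .nil)))) (.node (.node (.node (.I .com (.c 4673 (.c 537002121 .nil)) (.r 18753 .nil)) (.I .ass (.c 4673 (.c 8193 (.c 2756086089 .nil))) .nil)) (.node (.I .ass (.c 8193 (.c 4673 (.c 2756086089 .nil))) .nil) (.I .com (.c 4673 (.c 8193 .nil)) (.r 2756086089 .nil)))) (.node (.node (.I .ass (.c 4673 (.c 8193 (.c 1337272713 .nil))) .nil) (.I .ass (.c 8193 (.c 4673 (.c 1337272713 .nil))) .nil)) (.node (.I .com (.c 4673 (.c 8193 .nil)) (.r 1337272713 .nil)) (.I .ass (.c 2306970773558193865 (.c 18753 (.c 16 .nil))) .nil)))))) (.node (.node (.node (.node (.node (.I .jac (.c 16 (.c 40 (.c 48 .nil))) (.l 2306970773558193865 .nil)) (.I .com (.c 16 (.c 18753 .nil)) (.l 2306970773558193865 .nil))) (.node (.I .ass (.c 2306969673777850185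 (.c 18753 (.c 16 .nil))) .nil) (.I .com (.c 16 (.c 18753 .nil)) (.l 2306969673777850185 .nil)))) (.node (.node (.I .jac (.c 24 (.c 40 (.c 48 .nil))) (.l 8193 (.l 2113 .nil))) (.I .ass (.c 2113 (.c 8193 (.c 1350544777 .nil))) .nil)) (.node (.I .ass (.c 8193 (.c 2113 (.c 1350544777 .nil))) .nil) (.I .com (.c 2113 (.c 8193 .nil)) (.r 1350544777 .nil))))) (.node (.node (.node (.I .jac (.c 24 (.c 40 (.c 48 .nil))) (.l 2306970223667989193 .nil)) (.I .jac (.c 24 (.c 40 (.c 48 .nil))) (.l 2306969673777850121 .nil))) (.node (.I .com (.c 231045467270826953 (.c 32 .nil)) (.l 18497 .nil)) (.I .tdb (.c 16 (.c 4609 (.c 32 (.c 48 .nil)))) (.b 12865 .nil)))) (.node (.node (.I .tdb (.c 0 (.c 24 (.c 32 (.c 48 .nil)))) (.b 16 (.b 12865 .nil))) (.I .com (.c 231045467270827017 (.c 40 .nil)) (.l 8257 .nil))) (.node (.I .tdb (.c 8 (.c 32 (.c 16 (.c 40 .nil)))) (.b 4609 (.b 48 .nil))) (.I .com (.c 9024908047478729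 (.c 32 .nil)) (.l 18497 .nil)))))) (.node (.node (.node (.node (.I .tdb (.c 24 (.c 2049 (.c 32 (.c 48 .nil)))) (.b 12865 .nil)) (.I .tdb (.c 0 (.c 16 (.c 32 (.c 48 .nil)))) (.b 24 (.b 12865 .nil)))) (.node (.I .com (.c 9024908047478793 (.c 40 .nil)) (.l 8257 .nil)) (.I .com (.c 244148312264838089 (.c 32 .nil)) (.l 18433 .nil)))) (.node (.node (.I .com (.c 244148312264838153 (.c 32 .nil)) (.l 12801 .nil)) (.I .tdb (.c 0 (.c 40 (.c 16 (.c 32 .nil)))) (.b 4673 (.b 48 .nil)))) (.node (.I .tdb (.c 0 (.c 32 (.c 16 (.c 48 .nil)))) (.b 4673 (.b 40 .nil))) (.I .com (.c 10206401356312521 (.c 32 .nil)) (.l 18433 .nil))))) (.node (.node (.node (.I .com (.c 10206401356312585 (.c 32 .nil)) (.l 12801 .nil)) (.I .jac (.c 0 (.c 8 (.c 24 .nil))) (.b 15456298926182601 .nil))) (.node (.I .jac (.c 8257 (.c 12929 (.c 48 .nil))) (.l 4609 .nil)) (.I .jac (.c 8257 (.c 16 (.c 40 .nil))) (.b 48 (.l 4609 .nil)))))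 (.node (.node (.I .jac (.c 1324066057 (.c 16 (.c 48 .nil))) (.l 4609 .nil)) (.I .jac (.c 12865 (.c 18561 (.c 32 .nil))) (.l 4609 .nil))) (.node (.I .jac (.c 8257 (.c 16 (.c 48 .nil))) (.b 40 (.l 4609 .nil))) (.I .jac (.c 1324066185 (.c 16 (.c 32 .nil))) (.l 4609 .nil))))))))

noncomputable def c4_52 : Tr := (.node (.node (.node (.node (.node (.node (.I .jac (.c 18497 (.c 16 (.c 32 .nil))) (.b 40 (.l 4609 .nil))) (.I .jac (.c 12865 (.c 8321 (.c 48 .nil))) (.l 4609 .nil))) (.node (.I .jac (.c 12865 (.c 16 (.c 32 .nil))) (.b 48 (.l 4609 .nil))) (.I .jac (.c 2737112329 (.c 16 (.c 40 .nil))) (.l 4609 .nil)))) (.node (.node (.I .jac (.c 18497 (.c 12929 (.c 32 .nil))) (.l 4609 .nil)) (.I .adp (.c 8 (.c 24 (.c 16 .nil))) (.b 13748198893136698249 .nil))) (.node (.I .jac (.c 13748198893136698249 (.c 16 (.c 24 .nil))) (.l 8 .nil)) (.I .jac (.c 59109071234951844809 (.c 16 (.c 24 .nil))) (.l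 8 .nil))))) (.node (.node (.node (.I .com (.c 6250093333522399357233012691825335010346291779882781776226983039323613731725645577 (.c 8 .nil)) .nil) (.I .com (.c 6250093333522399357233012691825335010317669896062679229934290503969021105066308425 (.c 8 .nil)) .nil)) (.node (.I .adp (.c 8 (.c 24 (.c 16 .nil))) (.b 2306972423229201353 .nil)) (.I .jac (.c 2306972423229201353 (.c 16 (.c 24 .nil))) (.l 8 .nil)))) (.node (.node (.I .adp (.c 8 (.c 24 (.c 16 .nil))) (.b 13748196208362034185 .nil)) (.I .jac (.c 13748196208362034185 (.c 16 (.c 24 .nil))) (.l 8 .nil))) (.node (.I .jac (.c 8257 (.c 18561 (.c 40 .nil))) (.l 4609 .nil)) (.I .jac (.c 2737112393 (.c 16 (.c 32 .nil))) (.l 4609 .nil)))))) (.node (.node (.node (.node (.I .jac (.c 18497 (.c 8321 (.c 40 .nil))) (.l 4609 .nil)) (.I .jac (.c 59109074018392946569 (.c 16 (.c 24 .nil))) (.l 8 .nil))) (.node (.I .com (.c 6250094510787921532714972949261795359997986687185520814234411710500539745947735817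 (.c 8 .nil)) .nil) (.I .com (.c 6250094510787921532714972949261795359969364800669814089227146453475084937910104905 (.c 8 .nil)) .nil))) (.node (.node (.I .adp (.c 8 (.c 24 (.c 16 .nil))) (.b 2306971873338800137 .nil)) (.I .jac (.c 2306971873338800137 (.c 16 (.c 24 .nil))) (.l 8 .nil))) (.node (.I .jac (.c 8 (.c 16 (.c 43954947 .nil))) (.l 4609 .nil)) (.I .jac (.c 2105545 (.c 32 (.c 48 .nil))) (.l 12929 .nil))))) (.node (.node (.node (.I .com (.c 231045293249046473 (.c 2756086025 .nil)) .nil) (.I .jac (.c 231045293249046409 (.c 16 (.c 48 .nil))) (.r 40 .nil))) (.node (.I .com (.c 231045293249046473 (.c 553912713 .nil)) .nil) (.I .jac (.c 169943113 (.c 32 (.c 48 .nil))) (.l 12929 .nil)))) (.node (.node (.I .com (.c 427055420260302801104238302686362633 (.c 12929 .nil)) .nil) (.I .tdb (.c 16 (.c 48 (.c 24 (.c 40 .nil)))) (.b 32 (.l 513 .nil)))) (.node (.I .jac (.c 2728451 (.c 32 (.c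 48 .nil))) (.l 12929 .nil)) (.I .jac (.c 8 (.c 32 (.c 48 .nil))) (.l 231045989336561417 .nil))))))) (.node (.node (.node (.node (.node (.I .tdb (.c 32 (.c 48 (.c 16 (.c 24 .nil)))) (.b 40 (.l 513 .nil))) (.I .jac (.c 24 (.c 32 (.c 48 .nil))) (.l 35470870263561 .nil))) (.node (.I .jac (.c 24 (.c 32 (.c 48 .nil))) (.l 35464401931209 .nil)) (.I .ass (.c 2718204169 (.c 12865 (.c 4737 .nil))) .nil))) (.node (.node (.I .jac (.c 2728451 (.c 32 (.c 40 .nil))) (.l 18561 .nil)) (.I .tdb (.c 16 (.c 48 (.c 8 (.c 32 .nil)))) (.b 40 (.l 4609 .nil)))) (.node (.I .jac (.c 8 (.c 16 (.c 48 .nil))) (.l 231045989336561545 .nil)) (.I .ass (.c 35473026505481 (.c 13057 (.c 24 .nil))) .nil)))) (.node (.node (.node (.I .jac (.c 24 (.c 32 (.c 40 .nil))) (.l 35473026505481 .nil)) (.I .com (.c 24 (.c 13057 .nil)) (.l 35473026505481 .nil))) (.node (.I .ass (.c 35464401931273 (.c 13057 (.c 24 .nil))) .nil) (.I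 .jac (.c 24 (.c 32 (.c 40 .nil))) (.l 35464401931273 .nil)))) (.node (.node (.I .com (.c 24 (.c 13057 .nil)) (.l 35464401931273 .nil)) (.I .jac (.c 43655235 (.c 16 (.c 40 .nil))) (.l 4609 .nil))) (.node (.I .jac (.c 8257 (.c 16 (.c 40 .nil))) (.l 169943433 .nil)) (.I .jac (.c 8 (.c 12929 (.c 32 .nil))) (.l 169943433 .nil)))))) (.node (.node (.node (.node (.I .jac (.c 8 (.c 16 (.c 40 .nil))) (.b 32 (.l 169943433 .nil))) (.I .jac (.c 8 (.c 16 (.c 32 .nil))) (.b 40 (.l 169943433 .nil)))) (.node (.I .jac (.c 2105545 (.c 40 (.c 48 .nil))) (.l 8321 .nil)) (.I .jac (.c 231045293249046473 (.c 16 (.c 48 .nil))) (.r 32 .nil)))) (.node (.node (.I .com (.c 427055420260303037694618589709918217 (.c 8321 .nil)) .nil) (.I .jac (.c 12865 (.c 16 (.c 48 .nil))) (.r 32 (.l 4609 .nil)))) (.node (.I .jac (.c 12865 (.c 16 (.c 48 .nil))) (.l 169943305 .nil)) (.I .jac (.c 18497 (.c 16 (.c 40 .nil))) (.r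 32 (.l 4609 .nil)))))) (.node (.node (.node (.I .jac (.c 8 (.c 12929 (.c 48 .nil))) (.l 169943305 .nil)) (.I .jac (.c 2728451 (.c 40 (.c 48 .nil))) (.l 8321 .nil))) (.node (.I .jac (.c 8 (.c 16 (.c 32 .nil))) (.l 231045989336561673 .nil)) (.I .jac (.c 8 (.c 40 (.c 48 .nil))) (.l 231045815314584329 .nil)))) (.node (.node (.I .jac (.c 8 (.c 40 (.c 48 .nil))) (.l 231045467270826889 .nil)) (.I .tdb (.c 40 (.c 48 (.c 16 (.c 24 .nil)))) (.b 32 (.l 513 .nil)))) (.node (.I .jac (.c 24 (.c 40 (.c 48 .nil))) (.l 35468714087177 .nil)) (.I .ass (.c 2718204233 (.c 8257 (.c 4737 .nil))) .nil)))))))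

noncomputable def c4_53 : Tr := (.node (.node (.node (.node (.node (.node (.I .tdb (.c 513 (.c 24 (.c 40 (.c 32 .nil)))) (.b 18561 .nil)) (.I .tdb (.c 0 (.c 8 (.c 32 (.c 40 .nil)))) (.b 24 (.b 18561 .nil)))) (.node (.I .com (.c 35466557976585 (.c 32 .nil)) (.l 12929 .nil)) (.I .com (.c 35466557976585 (.c 40 .nil)) (.l 8321 .nil)))) (.node (.node (.I .tdb (.c 513 (.c 24 (.c 40 (.c 48 .nil)))) (.b 8321 .nil)) (.I .tdb (.c 0 (.c 8 (.c 40 (.c 48 .nil)))) (.b 24 (.b 8321 .nil)))) (.node (.I .tdb (.c 8 (.c 4609 (.c 32 (.c 40 .nil)))) (.b 18561 .nil)) (.I .tdb (.c 0 (.c 24 (.c 32 (.c 40 .nil)))) (.b 8 (.b 18561 .nil)))))) (.node (.node (.node (.I .com (.c 231045293249046537 (.c 32 .nil)) (.l 12929 .nil)) (.I .tdb (.c 8 (.c 4609 (.c 32 (.c 48 .nil)))) (.b 12929 .nil))) (.node (.I .tdb (.c 0 (.c 24 (.c 32 (.c 48 .nil)))) (.b 8 (.b 12929 .nil))) (.I .com (.c 231045293249046537 (.c 40 .nil))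 (.l 8321 .nil)))) (.node (.node (.I .jac (.c 537002377 (.c 16 (.c 40 .nil))) (.r 4673 .nil)) (.I .jac (.c 1310925065 (.c 16 (.c 48 .nil))) (.r 4673 .nil))) (.node (.I .jac (.c 1310925193 (.c 16 (.c 32 .nil))) (.r 4673 .nil)) (.I .jac (.c 2718204169 (.c 16 (.c 40 .nil))) (.r 4673 .nil)))))) (.node (.node (.node (.node (.I .jac (.c 2718204169 (.c 8 (.c 40 .nil))) (.r 4737 .nil)) (.I .jac (.c 537002313 (.c 16 (.c 48 .nil))) (.r 4673 .nil))) (.node (.I .jac (.c 2718204233 (.c 16 (.c 32 .nil))) (.r 4673 .nil)) (.I .jac (.c 2718204233 (.c 8 (.c 32 .nil))) (.r 4737 .nil)))) (.node (.node (.I .ass (.c 2718204169 (.c 12929 (.c 4673 .nil))) .nil) (.I .com (.c 4673 (.c 12929 .nil)) (.l 2718204169 .nil))) (.node (.I .ass (.c 537002377 (.c 12929 (.c 4673 .nil))) .nil) (.I .com (.c 4673 (.c 12929 .nil)) (.l 537002377 .nil))))) (.node (.node (.node (.I .ass (.c 33587529 (.c 18689 (.c 4673 .nil)))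 .nil) (.I .com (.c 4673 (.c 18689 .nil)) (.l 33587529 .nil))) (.node (.I .ass (.c 33587593 (.c 13057 (.c 4673 .nil))) .nil) (.I .com (.c 4673 (.c 13057 .nil)) (.l 33587593 .nil)))) (.node (.node (.I .ass (.c 1310925065 (.c 18561 (.c 4673 .nil))) .nil) (.I .com (.c 4673 (.c 18561 .nil)) (.l 1310925065 .nil))) (.node (.I .ass (.c 537002313 (.c 18561 (.c 4673 .nil))) .nil) (.I .com (.c 4673 (.c 18561 .nil)) (.l 537002313 .nil))))))) (.node (.node (.node (.node (.node (.I .ass (.c 2105737 (.c 13057 (.c 4737 .nil))) .nil) (.I .com (.c 4737 (.c 13057 .nil)) (.l 2105737 .nil))) (.node (.I .ass (.c 2718204233 (.c 8321 (.c 4673 .nil))) .nil) (.I .com (.c 4673 (.c 8321 .nil)) (.l 2718204233 .nil)))) (.node (.node (.I .ass (.c 1310925193 (.c 8321 (.c 4673 .nil))) .nil) (.I .com (.c 4673 (.c 8321 .nil)) (.l 1310925193 .nil))) (.node (.I .ass (.c 537002121 (.c 18753 (.c 4673 .nil))) .nil) (.I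 .com (.c 4673 (.c 18753 .nil)) (.l 537002121 .nil))))) (.node (.node (.node (.I .jac (.c 0 (.c 8 (.c 16 .nil))) (.b 15456298926182665 .nil)) (.I .jac (.c 545424777 (.c 24 (.c 40 .nil))) (.l 2049 .nil))) (.node (.I .jac (.c 8257 (.c 12993 (.c 48 .nil))) (.l 2049 .nil)) (.I .jac (.c 8257 (.c 24 (.c 40 .nil))) (.b 48 (.l 2049 .nil))))) (.node (.node (.I .jac (.c 553912713 (.c 24 (.c 40 .nil))) (.l 513 .nil)) (.I .jac (.c 18561 (.c 24 (.c 40 .nil))) (.b 32 (.l 513 .nil)))) (.node (.I .jac (.c 8321 (.c 12993 (.c 48 .nil))) (.l 513 .nil)) (.I .jac (.c 8321 (.c 24 (.c 40 .nil))) (.b 48 (.l 513 .nil))))))) (.node (.node (.node (.node (.I .jac (.c 35468714087433 (.c 24 (.c 40 .nil))) (.r 16 .nil)) (.I .jac (.c 8257 (.c 24 (.c 48 .nil))) (.b 40 (.l 2049 .nil)))) (.node (.I .jac (.c 1337272585 (.c 24 (.c 48 .nil))) (.l 513 .nil)) (.I .jac (.c 12929 (.c 24 (.c 48 .nil))) (.b 32 (.l 513 .nil)))))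 (.node (.node (.I .jac (.c 1324066185 (.c 24 (.c 32 .nil))) (.l 2049 .nil)) (.I .jac (.c 1337272713 (.c 24 (.c 32 .nil))) (.l 513 .nil))) (.node (.I .jac (.c 12929 (.c 8385 (.c 48 .nil))) (.l 513 .nil)) (.I .jac (.c 12929 (.c 24 (.c 32 .nil))) (.b 48 (.l 513 .nil)))))) (.node (.node (.node (.I .jac (.c 35470870263817 (.c 24 (.c 32 .nil))) (.r 16 .nil)) (.I .jac (.c 2737112329 (.c 24 (.c 40 .nil))) (.l 2049 .nil))) (.node (.I .jac (.c 2756086025 (.c 24 (.c 40 .nil))) (.l 513 .nil)) (.I .adp (.c 8 (.c 16 (.c 24 .nil))) (.b 13748198893136698249 .nil)))) (.node (.node (.I .adp (.c 8 (.c 16 (.c 24 .nil))) (.b 2306972423229201353 .nil)) (.I .adp (.c 8 (.c 16 (.c 24 .nil))) (.b 13748196208362034185 .nil))) (.node (.I .jac (.c 553912649 (.c 24 (.c 48 .nil))) (.l 513 .nil)) (.I .jac (.c 2737112393 (.c 24 (.c 32 .nil))) (.l 2049 .nil))))))))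

noncomputable def c4_54 : Tr := (.node (.node (.node (.node (.node (.node (.I .jac (.c 18497 (.c 8385 (.c 40 .nil))) (.l 2049 .nil)) (.I .jac (.c 2756086089 (.c 24 (.c 32 .nil))) (.l 513 .nil))) (.node (.I .adp (.c 8 (.c 16 (.c 24 .nil))) (.b 2306971873338800137 .nil)) (.I .jac (.c 16 (.c 24 (.c 43954947 .nil))) (.l 513 .nil)))) (.node (.node (.I .jac (.c 35464401931273 (.c 24 (.c 32 .nil))) (.r 40 .nil)) (.I .com (.c 10061790434743040737723204489 (.c 12993 .nil)) .nil)) (.node (.I .com (.c 10061790434670409642568088585 (.c 12993 .nil)) .nil) (.I .jac (.c 2105481 (.c 24 (.c 40 .nil))) (.r 18689 .nil))))) (.node (.node (.node (.I .jac (.c 9024839260612489 (.c 24 (.c 48 .nil))) (.r 40 .nil)) (.I .jac (.c 33587273 (.c 32 (.c 48 .nil))) (.l 12993 .nil))) (.node (.I .com (.c 651581789439140617179291382201353 (.c 12993 .nil)) .nil) (.I .tdb (.c 24 (.c 48 (.c 8 (.c 40 .nil)))) (.b 32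 (.l 2049 .nil))))) (.node (.node (.I .jac (.c 8257 (.c 24 (.c 48 .nil))) (.r 40 (.l 2049 .nil))) (.I .jac (.c 8321 (.c 24 (.c 48 .nil))) (.r 40 (.l 513 .nil)))) (.node (.I .jac (.c 43954755 (.c 24 (.c 32 .nil))) (.l 2049 .nil)) (.I .jac (.c 18497 (.c 24 (.c 32 .nil))) (.r 40 (.l 2049 .nil))))))) (.node (.node (.node (.node (.I .jac (.c 18561 (.c 24 (.c 32 .nil))) (.r 40 (.l 513 .nil))) (.I .jac (.c 18561 (.c 24 (.c 32 .nil))) (.l 2105673 .nil))) (.node (.I .jac (.c 557571 (.c 32 (.c 48 .nil))) (.l 12993 .nil)) (.I .jac (.c 8 (.c 24 (.c 40 .nil))) (.l 9024942441010185 .nil)))) (.node (.node (.I .jac (.c 8 (.c 32 (.c 48 .nil))) (.l 9024976834606921 .nil)) (.I .jac (.c 8 (.c 32 (.c 48 .nil))) (.l 9024908047478729 .nil))) (.node (.I .tdb (.c 24 (.c 40 (.c 18689 (.c 16 .nil)))) (.l 513 .nil)) (.I .com (.c 2756086025 (.c 12993 .nil)) (.l 513 .nil))))) (.node (.node (.node (.I .com (.c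 553912713 (.c 12993 .nil)) (.l 513 .nil)) (.I .ass (.c 35473026505609 (.c 12993 (.c 16 .nil))) .nil)) (.node (.I .com (.c 16 (.c 12993 .nil)) (.l 35473026505609 .nil)) (.I .ass (.c 35468714087433 (.c 12993 (.c 16 .nil))) .nil))) (.node (.node (.I .com (.c 16 (.c 12993 .nil)) (.l 35468714087433 .nil)) (.I .ass (.c 35470870263625 (.c 18689 (.c 16 .nil))) .nil)) (.node (.I .jac (.c 16 (.c 32 (.c 48 .nil))) (.l 35470870263625 .nil)) (.I .com (.c 16 (.c 18689 .nil)) (.l 35470870263625 .nil))))))) (.node (.node (.node (.node (.node (.I .ass (.c 35466557976521 (.c 18689 (.c 16 .nil))) .nil) (.I .com (.c 16 (.c 18689 .nil)) (.l 35466557976521 .nil))) (.node (.I .jac (.c 2105481 (.c 32 (.c 40 .nil))) (.l 18625 .nil)) (.I .jac (.c 557571 (.c 32 (.c 40 .nil))) (.l 18625 .nil)))) (.node (.node (.I .tdb (.c 24 (.c 48 (.c 8 (.c 32 .nil)))) (.b 40 (.l 2049 .nil))) (.I .jac (.c 8 (.c 32 (.c 40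 .nil))) (.l 9024908047478793 .nil))) (.node (.I .jac (.c 8 (.c 24 (.c 48 .nil))) (.l 9024976834606985 .nil)) (.I .jac (.c 8 (.c 24 (.c 48 .nil))) (.l 9024942441010121 .nil))))) (.node (.node (.node (.I .tdb (.c 24 (.c 48 (.c 16 (.c 32 .nil)))) (.b 40 (.l 513 .nil))) (.I .tdb (.c 32 (.c 40 (.c 18625 (.c 16 .nil)))) (.l 513 .nil))) (.node (.I .jac (.c 16 (.c 24 (.c 48 .nil))) (.r 13057 (.l 513 .nil))) (.I .jac (.c 16 (.c 32 (.c 40 .nil))) (.l 35466557976585 .nil)))) (.node (.node (.I .jac (.c 16 (.c 24 (.c 48 .nil))) (.l 35468714087369 .nil)) (.I .jac (.c 43655235 (.c 24 (.c 40 .nil))) (.l 2049 .nil))) (.node (.I .jac (.c 8 (.c 12993 (.c 32 .nil))) (.l 33587593 .nil)) (.I .jac (.c 8 (.c 24 (.c 40 .nil))) (.b 32 (.l 33587593 .nil))))))) (.node (.node (.node (.node (.I .jac (.c 43655299 (.c 24 (.c 40 .nil))) (.l 513 .nil)) (.I .jac (.c 12929 (.c 24 (.c 32 .nil))) (.l 2105737 .nil)))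 (.node (.I .jac (.c 35464401931273 (.c 24 (.c 40 .nil))) (.r 32 .nil)) (.I .com (.c 10061790434743040737723204553 (.c 8385 .nil)) .nil))) (.node (.node (.I .com (.c 10061790434706725190145613833 (.c 8385 .nil)) .nil) (.I .jac (.c 2105481 (.c 24 (.c 32 .nil))) (.r 18753 .nil))) (.node (.I .jac (.c 9024839260612553 (.c 24 (.c 48 .nil))) (.r 32 .nil)) (.I .com (.c 651581789439149858614694249422857 (.c 8385 .nil)) .nil)))) (.node (.node (.node (.I .jac (.c 12865 (.c 24 (.c 48 .nil))) (.r 32 (.l 2049 .nil))) (.I .jac (.c 18497 (.c 24 (.c 40 .nil))) (.r 32 (.l 2049 .nil)))) (.node (.I .jac (.c 8 (.c 12993 (.c 48 .nil))) (.l 33587465 .nil)) (.I .jac (.c 8 (.c 24 (.c 40 .nil))) (.b 48 (.l 33587465 .nil))))) (.node (.node (.I .jac (.c 557571 (.c 40 (.c 48 .nil))) (.l 8385 .nil)) (.I .jac (.c 8 (.c 24 (.c 32 .nil))) (.l 9024976834607113 .nil))) (.node (.I .tdb (.c 24 (.c 32 (.c 18753 (.c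 16 .nil)))) (.l 513 .nil)) (.I .jac (.c 16 (.c 24 (.c 32 .nil))) (.r 18753 (.l 513 .nil)))))))))

noncomputable def c4_55 : Tr := (.node (.node (.node (.node (.node (.node (.I .ass (.c 35473026505673 (.c 8385 (.c 16 .nil))) .nil) (.I .com (.c 16 (.c 8385 .nil)) (.l 35473026505673 .nil))) (.node (.I .ass (.c 35470870263817 (.c 8385 (.c 16 .nil))) .nil) (.I .jac (.c 16 (.c 24 (.c 32 .nil))) (.l 35470870263817 .nil)))) (.node (.node (.I .com (.c 16 (.c 8385 .nil)) (.l 35470870263817 .nil)) (.I .ass (.c 35468714087241 (.c 18753 (.c 16 .nil))) .nil)) (.node (.I .com (.c 16 (.c 18753 .nil)) (.l 35468714087241 .nil)) (.I .ass (.c 35466557976457 (.c 18753 (.c 16 .nil))) .nil)))) (.node (.node (.node (.I .com (.c 16 (.c 18753 .nil)) (.l 35466557976457 .nil)) (.I .com (.c 35464401931273 (.c 32 .nil)) (.l 12993 .nil))) (.node (.I .com (.c 9024839260612617 (.c 32 .nil)) (.l 12993 .nil)) (.I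 .tdb (.c 8 (.c 2049 (.c 32 (.c 48 .nil)))) (.b 12993 .nil)))) (.node (.node (.I .tdb (.c 0 (.c 16 (.c 32 (.c 48 .nil)))) (.b 8 (.b 12993 .nil))) (.I .tdb (.c 8 (.c 2049 (.c 40 (.c 48 .nil)))) (.b 8385 .nil))) (.node (.I .tdb (.c 0 (.c 16 (.c 40 (.c 48 .nil)))) (.b 8 (.b 8385 .nil))) (.I .jac (.c 537002377 (.c 24 (.c 40 .nil))) (.r 2113 .nil)))))) (.node (.node (.node (.node (.I .jac (.c 1310925065 (.c 24 (.c 48 .nil))) (.r 2113 .nil)) (.I .jac (.c 1310925193 (.c 24 (.c 32 .nil))) (.r 2113 .nil))) (.node (.I .jac (.c 2718204169 (.c 24 (.c 40 .nil))) (.r 2113 .nil)) (.I .jac (.c 537002313 (.c 24 (.c 48 .nil))) (.r 2113 .nil)))) (.node (.node (.I .jac (.c 2718204233 (.c 24 (.c 32 .nil))) (.r 2113 .nil)) (.I .ass (.c 2718204169 (.c 12993 (.c 2113 .nil))) .nil)) (.node (.I .com (.c 2113 (.c 12993 .nil)) (.l 2718204169 .nil)) (.I .ass (.c 537002377 (.c 12993 (.c 2113 .nil))) .nil))))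 (.node (.node (.node (.I .com (.c 2113 (.c 12993 .nil)) (.l 537002377 .nil)) (.I .ass (.c 2718204105 (.c 13057 (.c 2113 .nil))) .nil)) (.node (.I .com (.c 2113 (.c 13057 .nil)) (.l 2718204105 .nil)) (.I .ass (.c 169943433 (.c 13057 (.c 2113 .nil))) .nil))) (.node (.node (.I .com (.c 2113 (.c 13057 .nil)) (.l 169943433 .nil)) (.I .ass (.c 1310925065 (.c 18625 (.c 2113 .nil))) .nil)) (.node (.I .com (.c 2113 (.c 18625 .nil)) (.l 1310925065 .nil)) (.I .ass (.c 537002313 (.c 18625 (.c 2113 .nil))) .nil)))))) (.node (.node (.node (.node (.node (.I .com (.c 2113 (.c 18625 .nil)) (.l 537002313 .nil)) (.I .ass (.c 2718204233 (.c 8385 (.c 2113 .nil))) .nil)) (.node (.I .com (.c 2113 (.c 8385 .nil)) (.l 2718204233 .nil)) (.I .ass (.c 1310925193 (.c 8385 (.c 2113 .nil))) .nil))) (.node (.node (.I .com (.c 2113 (.c 8385 .nil)) (.l 1310925193 .nil)) (.I .com (.c 537002185 (.c 14025210098083633929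 .nil)) .nil)) (.node (.I .jac (.c 2306971873338799881 (.c 8 (.c 48 .nil))) (.r 24 .nil)) (.I .jac (.c 2306972423229201161 (.c 8 (.c 40 .nil))) (.r 24 .nil))))) (.node (.node (.node (.I .jac (.c 537002313 (.c 16 (.c 48 .nil))) (.l 4673 .nil)) (.I .jac (.c 8193 (.c 18561 (.c 40 .nil))) (.l 4673 .nil))) (.node (.I .com (.c 42576974092320099556365595025629983689 (.c 4673 .nil)) .nil) (.I .com (.c 42576892903125868487846022299823817673 (.c 4673 .nil)) .nil))) (.node (.node (.I .com (.c 42576953795010653769602236682924913673 (.c 4673 .nil)) .nil) (.I .jac (.c 13748198893136698121 (.c 8 (.c 32 .nil))) (.r 24 .nil))) (.node (.I .adp (.c 59109065668069837769 (.c 24 (.c 8257 .nil))) .nil) (.I .adp (.c 9025011228269513 (.c 24 (.c 8257 .nil))) .nil))))) (.node (.node (.node (.node (.I .jac (.c 537002377 (.c 16 (.c 40 .nil))) (.l 4673 .nil)) (.I .jac (.c 8193 (.c 16 (.c 40 .nil))) (.b 48 (.l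 4673 .nil)))) (.node (.I .com (.c 42576892903125866125508513263802589193 (.c 4673 .nil)) .nil) (.I .adp (.c 244149027818380041 (.c 40 (.c 8193 .nil))) .nil))) (.node (.node (.I .com (.c 537002313 (.c 244149027818380041 .nil)) .nil) (.I .jac (.c 537002121 (.c 4673 (.c 48 .nil))) (.r 40 .nil))) (.node (.I .jac (.c 537002121 (.c 8 (.c 24 .nil))) (.b 48 (.r 40 .nil))) (.I .jac (.c 8193 (.c 174695817 (.c 16 .nil))) (.r 40 .nil))))) (.node (.node (.node (.I .jac (.c 8193 (.c 4673 (.c 48 .nil))) (.b 16 (.r 40 .nil))) (.I .jac (.c 8193 (.c 8 (.c 24 .nil))) (.b 48 (.b 16 (.r 40 .nil))))) (.node (.I .jac (.c 2306970773558193929 (.c 8 (.c 48 .nil))) (.r 40 .nil)) (.I .adp (.c 10206511083363145 (.c 40 (.c 8193 .nil))) .nil))) (.node (.node (.I .com (.c 537002313 (.c 10206511083363145 .nil)) .nil) (.I .jac (.c 537002185 (.c 2113 (.c 48 .nil))) (.r 40 .nil))) (.node (.I .jac (.c 537002185 (.c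 8 (.c 16 .nil))) (.b 48 (.r 40 .nil))) (.I .jac (.c 8193 (.c 35718537 (.c 24 .nil))) (.r 40 .nil))))))))

noncomputable def c4_56 : Tr := (.node (.node (.node (.node (.node (.node (.I .jac (.c 8193 (.c 2113 (.c 48 .nil))) (.b 24 (.r 40 .nil))) (.I .jac (.c 8193 (.c 8 (.c 16 .nil))) (.b 48 (.b 24 (.r 40 .nil))))) (.node (.I .jac (.c 8193 (.c 18561 (.c 24 .nil))) (.l 12865 .nil)) (.I .jac (.c 8193 (.c 16 (.c 48 .nil))) (.b 24 (.l 12865 .nil))))) (.node (.node (.I .com (.c 42576913200413542961749526065342513929 (.c 12865 .nil)) .nil) (.I .com (.c 42576974092320099556365595025629983561 (.c 12865 .nil)) .nil)) (.node (.I .com (.c 42576913200413533512397237570979656713 (.c 12865 .nil)) .nil) (.I .jac (.c 8193 (.c 8 (.c 40 .nil))) (.r 2756085961 .nil))))) (.node (.node (.node (.I .adp (.c 231046163358604041 (.c 40 (.c 8257 .nil))) .nil) (.I .adp (.c 59109065668069837641 (.c 40 (.c 8257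 .nil))) .nil)) (.node (.I .jac (.c 59109065668069837641 (.c 8 (.c 32 .nil))) (.r 40 .nil)) (.I .adp (.c 9025011228269385 (.c 40 (.c 8257 .nil))) .nil))) (.node (.node (.I .jac (.c 8257 (.c 18561 (.c 24 .nil))) (.l 12801 .nil)) (.I .jac (.c 8257 (.c 16 (.c 48 .nil))) (.b 24 (.l 12801 .nil)))) (.node (.I .jac (.c 2306970223667989321 (.c 8 (.c 48 .nil))) (.r 40 .nil)) (.I .jac (.c 8193 (.c 4737 (.c 48 .nil))) (.l 12865 .nil)))))) (.node (.node (.node (.node (.I .jac (.c 8193 (.c 16 (.c 24 .nil))) (.b 48 (.l 12865 .nil))) (.I .com (.c 42576974092320101918705356412332005129 (.c 12865 .nil)) .nil)) (.node (.I .adp (.c 59109068451510808329 (.c 40 (.c 8257 .nil))) .nil) (.I .jac (.c 59109068451510808329 (.c 8 (.c 32 .nil))) (.r 40 .nil)))) (.node (.node (.I .jac (.c 8193 (.c 24 (.c 40 .nil))) (.l 2737112201 .nil)) (.I .com (.c 2306971873338799945 (.c 2737112201 .nil)) .nil)) (.node (.I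 .com (.c 2306970773558194121 (.c 2737112201 .nil)) .nil) (.I .adp (.c 35718537 (.c 12993 (.c 8193 .nil))) .nil)))) (.node (.node (.node (.I .jac (.c 8193 (.c 24 (.c 40 .nil))) (.l 35718537 .nil)) (.I .com (.c 2306971873338799945 (.c 35718537 .nil)) .nil)) (.node (.I .jac (.c 8193 (.c 2113 (.c 48 .nil))) (.r 12993 .nil)) (.I .jac (.c 8193 (.c 8 (.c 16 .nil))) (.b 48 (.r 12993 .nil))))) (.node (.node (.I .com (.c 2306972423229201161 (.c 1324065993 .nil)) .nil) (.I .com (.c 2306970223667989513 (.c 1324065993 .nil)) .nil)) (.node (.I .jac (.c 537002185 (.c 8 (.c 40 .nil))) (.r 18561 .nil)) (.I .com (.c 2306970223667989513 (.c 174695753 .nil)) .nil)))))) (.node (.node (.node (.node (.node (.I .jac (.c 8257 (.c 24 (.c 40 .nil))) (.l 2718204041 .nil)) (.I .jac (.c 8257 (.c 16 (.c 48 .nil))) (.l 1310925001 .nil))) (.node (.I .jac (.c 1310925001 (.c 8 (.c 32 .nil))) (.r 18561 .nil)) (.I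 .ass (.c 12865 (.c 537002185 (.c 18561 .nil))) .nil))) (.node (.node (.I .ass (.c 537002185 (.c 12865 (.c 18561 .nil))) .nil) (.I .com (.c 12865 (.c 537002185 .nil)) (.r 18561 .nil))) (.node (.I .jac (.c 0 (.c 16 (.c 43954947 .nil))) (.l 4673 .nil)) (.I .tdb (.c 0 (.c 32 (.c 18561 (.c 40 .nil)))) (.l 4673 .nil))))) (.node (.node (.node (.I .jac (.c 8193 (.c 16 (.c 48 .nil))) (.r 40 (.l 4673 .nil))) (.I .com (.c 537002313 (.c 18561 .nil)) (.l 4673 .nil))) (.node (.I .tdb (.c 16 (.c 48 (.c 8 (.c 24 .nil)))) (.b 32 (.l 12801 .nil))) (.I .com (.c 545424585 (.c 18561 .nil)) (.l 12801 .nil)))) (.node (.node (.I .tdb (.c 16 (.c 48 (.c 32 (.c 40 .nil)))) (.b 8 (.l 4609 .nil))) (.I .jac (.c 537002185 (.c 16 (.c 40 .nil))) (.l 18497 .nil))) (.node (.I .jac (.c 8193 (.c 16 (.c 40 .nil))) (.b 24 (.l 18497 .nil))) (.I .com (.c 42576913200413540599411453941751701257 (.c 18497 .nil)) .nil)))))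 (.node (.node (.node (.node (.I .com (.c 42576913200413533512397237570979656649 (.c 18497 .nil)) .nil) (.I .com (.c 537002377 (.c 244148848929896201 .nil)) .nil)) (.node (.I .com (.c 537002377 (.c 244148312264838089 .nil)) .nil) (.I .jac (.c 8257 (.c 12929 (.c 24 .nil))) (.l 18433 .nil)))) (.node (.node (.I .jac (.c 8257 (.c 16 (.c 40 .nil))) (.b 24 (.l 18433 .nil))) (.I .com (.c 537002377 (.c 14025206030552608521 .nil)) .nil)) (.node (.I .jac (.c 8257 (.c 4737 (.c 40 .nil))) (.l 18433 .nil)) (.I .jac (.c 8257 (.c 16 (.c 24 .nil))) (.b 40 (.l 18433 .nil)))))) (.node (.node (.node (.I .jac (.c 537002185 (.c 8 (.c 48 .nil))) (.r 12929 .nil)) (.I .adp (.c 174695817 (.c 12929 (.c 8193 .nil))) .nil)) (.node (.I .com (.c 2306970223667989449 (.c 174695817 .nil)) .nil) (.I .jac (.c 8193 (.c 4673 (.c 48 .nil))) (.r 12929 .nil)))) (.node (.node (.I .jac (.c 8193 (.c 8 (.c 24 .nil))) (.b 48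 (.r 12929 .nil))) (.I .jac (.c 8193 (.c 24 (.c 48 .nil))) (.l 1324065929 .nil))) (.node (.I .com (.c 2306972423229201225 (.c 1324065929 .nil)) .nil) (.I .com (.c 2306970773558194185 (.c 1324065929 .nil)) .nil)))))))

noncomputable def c4_57 : Tr := (.node (.node (.node (.node (.node (.node (.I .jac (.c 8193 (.c 24 (.c 48 .nil))) (.l 35718473 .nil)) (.I .com (.c 2306972423229201225 (.c 35718473 .nil)) .nil)) (.node (.I .jac (.c 2718204105 (.c 8 (.c 32 .nil))) (.r 12929 .nil)) (.I .jac (.c 1310924937 (.c 8 (.c 32 .nil))) (.r 18625 .nil)))) (.node (.node (.I .tdb (.c 0 (.c 32 (.c 12929 (.c 24 .nil)))) (.l 18497 .nil)) (.I .adp (.c 12929 (.c 24 (.c 8193 .nil))) (.l 18497 .nil))) (.node (.I .jac (.c 8193 (.c 16 (.c 40 .nil))) (.r 24 (.l 18497 .nil))) (.I .ass (.c 18497 (.c 537002185 (.c 12929 .nil))) .nil)))) (.node (.node (.node (.I .ass (.c 537002185 (.c 18497 (.c 12929 .nil))) .nil)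 (.I .com (.c 18497 (.c 537002185 .nil)) (.r 12929 .nil))) (.node (.I .tdb (.c 0 (.c 32 (.c 12929 (.c 48 .nil)))) (.l 4673 .nil)) (.I .tdb (.c 16 (.c 40 (.c 0 (.c 48 .nil)))) (.b 32 (.l 4673 .nil))))) (.node (.node (.I .tdb (.c 16 (.c 40 (.c 32 (.c 48 .nil)))) (.b 0 (.l 4673 .nil))) (.I .jac (.c 8193 (.c 16 (.c 40 .nil))) (.r 48 (.l 4673 .nil)))) (.node (.I .com (.c 537002377 (.c 12929 .nil)) (.l 4673 .nil)) (.I .tdb (.c 8 (.c 32 (.c 12929 (.c 24 .nil)))) (.l 18433 .nil)))))) (.node (.node (.node (.node (.I .adp (.c 12929 (.c 24 (.c 8257 .nil))) (.l 18433 .nil)) (.I .com (.c 545424585 (.c 12929 .nil)) (.l 18433 .nil))) (.node (.I .jac (.c 8257 (.c 16 (.c 40 .nil))) (.r 24 (.l 18433 .nil))) (.I .jac (.c 8193 (.c 16 (.c 24 .nil))) (.l 1324066185 .nil)))) (.node (.node (.I .jac (.c 8193 (.c 40 (.c 48 .nil))) (.l 174695561 .nil)) (.I .com (.c 2306971873338800137 (.c 174695561 .nil))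 .nil)) (.node (.I .com (.c 2306972423229201353 (.c 35718345 .nil)) .nil) (.I .jac (.c 8257 (.c 40 (.c 48 .nil))) (.l 169943177 .nil))))) (.node (.node (.node (.I .jac (.c 8257 (.c 40 (.c 48 .nil))) (.l 33587401 .nil)) (.I .tdb (.c 0 (.c 32 (.c 16 (.c 40 .nil)))) (.b 24 (.l 18497 .nil)))) (.node (.I .tdb (.c 0 (.c 32 (.c 24 (.c 40 .nil)))) (.b 16 (.l 18497 .nil))) (.I .tdb (.c 16 (.c 24 (.c 40 (.c 8193 .nil)))) (.l 18497 .nil)))) (.node (.node (.I .adp (.c 4737 (.c 40 (.c 8193 .nil))) (.l 18497 .nil)) (.I .jac (.c 8193 (.c 16 (.c 24 .nil))) (.r 40 (.l 18497 .nil)))) (.node (.I .com (.c 545424713 (.c 4737 .nil)) (.l 18433 .nil)) (.I .jac (.c 2306971873338799945 (.c 8 (.c 48 .nil))) (.r 16 .nil))))))) (.node (.node (.node (.node (.node (.I .jac (.c 2306972423229201225 (.c 8 (.c 40 .nil))) (.r 16 .nil)) (.I .jac (.c 537002313 (.c 24 (.c 48 .nil))) (.l 2113 .nil))) (.node (.I .jac (.c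 8193 (.c 18625 (.c 40 .nil))) (.l 2113 .nil)) (.I .jac (.c 8193 (.c 24 (.c 48 .nil))) (.b 40 (.l 2113 .nil))))) (.node (.node (.I .com (.c 42576974092320101918705356412332005321 (.c 2113 .nil)) .nil) (.I .com (.c 42576953795010656131941434981856024585 (.c 2113 .nil)) .nil)) (.node (.I .com (.c 231046163358604233 (.c 16 .nil)) (.b 8257 .nil)) (.I .com (.c 59109068451510808521 (.c 16 .nil)) (.b 8257 .nil))))) (.node (.node (.node (.I .jac (.c 13748198893136698185 (.c 8 (.c 32 .nil))) (.r 16 .nil)) (.I .adp (.c 59109068451510808521 (.c 16 (.c 8257 .nil))) .nil)) (.node (.I .adp (.c 231046163358604233 (.c 16 (.c 8257 .nil))) .nil) (.I .jac (.c 537002377 (.c 24 (.c 40 .nil))) (.l 2113 .nil)))) (.node (.node (.I .tdb (.c 0 (.c 32 (.c 12865 (.c 16 .nil)))) (.l 18625 .nil)) (.I .tdb (.c 8 (.c 40 (.c 0 (.c 16 .nil)))) (.b 32 (.l 18625 .nil)))) (.node (.I .tdb (.c 8 (.c 40 (.c 16 (.c 32 .nil))))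 (.b 0 (.l 18625 .nil))) (.I .com (.c 537002313 (.c 18625 .nil)) (.l 2113 .nil)))))) (.node (.node (.node (.node (.I .adp (.c 18625 (.c 40 (.c 8193 .nil))) (.l 2113 .nil)) (.I .tdb (.c 24 (.c 48 (.c 8 (.c 16 .nil)))) (.b 32 (.l 12801 .nil)))) (.node (.I .tdb (.c 0 (.c 40 (.c 8 (.c 16 .nil)))) (.b 32 (.l 18625 .nil))) (.I .tdb (.c 0 (.c 40 (.c 16 (.c 32 .nil)))) (.b 8 (.l 18625 .nil))))) (.node (.node (.I .tdb (.c 8 (.c 32 (.c 12801 (.c 16 .nil)))) (.l 18625 .nil)) (.I .tdb (.c 0 (.c 40 (.c 8 (.c 16 .nil)))) (.b 32 (.b 18625 .nil)))) (.node (.I .tdb (.c 8 (.c 32 (.c 18625 (.c 40 .nil)))) (.l 2049 .nil)) (.I .adp (.c 18625 (.c 40 (.c 8257 .nil))) (.l 2049 .nil))))) (.node (.node (.node (.I .tdb (.c 24 (.c 40 (.c 0 (.c 16 .nil)))) (.b 32 (.l 18497 .nil))) (.I .tdb (.c 8 (.c 48 (.c 16 (.c 32 .nil)))) (.b 0 (.l 12993 .nil)))) (.node (.I .adp (.c 12993 (.c 48 (.c 8193 .nil))) (.l 2113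 .nil)) (.I .tdb (.c 8 (.c 32 (.c 12993 (.c 16 .nil)))) (.l 18433 .nil)))) (.node (.node (.I .adp (.c 16 (.c 12993 (.c 8257 .nil))) (.l 18433 .nil)) (.I .tdb (.c 0 (.c 48 (.c 16 (.c 32 .nil)))) (.b 8 (.l 12993 .nil)))) (.node (.I .com (.c 2379905498923998153 (.c 16 .nil)) (.l 4609 .nil)) (.I .com (.c 2379904940409059337 (.c 16 .nil)) (.l 4609 .nil))))))))

noncomputable def c4_58 : Tr := (.node (.node (.node (.node (.node (.node (.I .jac (.c 8257 (.c 40 (.c 48 .nil))) (.l 16 (.l 4609 .nil))) (.I .com (.c 2379905498923998153 (.c 24 .nil)) (.l 2049 .nil))) (.node (.I .com (.c 2379904940409059337 (.c 24 .nil)) (.l 2049 .nil)) (.I .adp (.c 24 (.c 18753 (.c 8257 .nil))) (.l 2049 .nil)))) (.node (.node (.I .jac (.c 8257 (.c 40 (.c 48 .nil))) (.l 24 (.l 2049 .nil))) (.I .jac (.c 169943369 (.c 8 (.c 48 .nil))) (.b 8321 .nil))) (.node (.I .jac (.c 12801 (.c 8 (.c 48 .nil))) (.b 24 (.b 8321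 .nil))) (.I .jac (.c 4609 (.c 18497 (.c 40 .nil))) (.b 8321 .nil))))) (.node (.node (.node (.I .jac (.c 4609 (.c 8 (.c 48 .nil))) (.b 40 (.b 8321 .nil))) (.I .jac (.c 169943433 (.c 8 (.c 40 .nil))) (.b 8321 .nil))) (.node (.I .jac (.c 1310925001 (.c 8 (.c 48 .nil))) (.b 8321 .nil)) (.I .jac (.c 12801 (.c 18497 (.c 24 .nil))) (.b 8321 .nil)))) (.node (.node (.I .jac (.c 2718204233 (.c 8 (.c 24 .nil))) (.b 8321 .nil)) (.I .adp (.c 13748198893136698057 (.c 24 (.c 8321 .nil))) .nil)) (.node (.I .jac (.c 13748198893136698057 (.c 16 (.c 32 .nil))) (.r 24 .nil)) (.I .adp (.c 59109062884628932553 (.c 24 (.c 8321 .nil))) .nil))))) (.node (.node (.node (.node (.I .adp (.c 35473026505673 (.c 24 (.c 8321 .nil))) .nil) (.I .jac (.c 13748192181200529417 (.c 16 (.c 32 .nil))) (.r 24 .nil))) (.node (.I .jac (.c 4609 (.c 16 (.c 32 .nil))) (.r 1324066185 .nil)) (.I .jac (.c 231046163358603977 (.c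 16 (.c 32 .nil))) (.r 40 .nil)))) (.node (.node (.I .jac (.c 59109062884628932425 (.c 16 (.c 32 .nil))) (.r 40 .nil)) (.I .adp (.c 35473026505545 (.c 40 (.c 8321 .nil))) .nil)) (.node (.I .adp (.c 231045293249046537 (.c 40 (.c 8321 .nil))) .nil) (.I .jac (.c 2737112265 (.c 16 (.c 32 .nil))) (.l 12801 .nil))))) (.node (.node (.node (.I .jac (.c 12801 (.c 16 (.c 32 .nil))) (.r 2737112265 .nil)) (.I .adp (.c 174695817 (.c 40 (.c 32 .nil))) (.b 2049 .nil))) (.node (.I .adp (.c 174695817 (.c 40 (.c 16 .nil))) (.b 8193 .nil)) (.I .adp (.c 174695817 (.c 40 (.c 0 .nil))) (.b 8321 .nil)))) (.node (.node (.I .com (.c 12801 (.c 174695817 .nil)) (.b 8321 .nil)) (.I .jac (.c 18433 (.c 8 (.c 24 .nil))) (.r 40 (.b 8321 .nil)))) (.node (.I .jac (.c 0 (.c 4673 (.c 48 .nil))) (.r 40 (.b 8321 .nil))) (.I .jac (.c 0 (.c 8 (.c 24 .nil))) (.b 48 (.r 40 (.b 8321 .nil))))))))) (.node (.node (.node (.node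 (.node (.I .adp (.c 59109068451510808265 (.c 40 (.c 8321 .nil))) .nil) (.I .adp (.c 35466557976585 (.c 40 (.c 8321 .nil))) .nil)) (.node (.I .adp (.c 12801 (.c 174695817 (.c 8321 .nil))) .nil) (.I .jac (.c 43356739 (.c 16 (.c 32 .nil))) (.l 12801 .nil)))) (.node (.node (.I .jac (.c 8321 (.c 24 (.c 40 .nil))) (.l 2718203977 .nil)) (.I .jac (.c 1310925001 (.c 16 (.c 32 .nil))) (.r 18497 .nil))) (.node (.I .adp (.c 18497 (.c 24 (.c 8321 .nil))) (.l 12801 .nil)) (.I .tdb (.c 0 (.c 40 (.c 16 (.c 24 .nil)))) (.b 32 (.b 18497 .nil)))))) (.node (.node (.node (.I .tdb (.c 8 (.c 48 (.c 32 (.c 40 .nil)))) (.b 16 (.l 4609 .nil))) (.I .jac (.c 1324065993 (.c 16 (.c 32 .nil))) (.l 18433 .nil))) (.node (.I .jac (.c 18433 (.c 16 (.c 32 .nil))) (.r 1324065993 .nil)) (.I .jac (.c 12865 (.c 16 (.c 32 .nil))) (.l 2718204105 .nil)))) (.node (.node (.I .jac (.c 2718204105 (.c 16 (.c 32 .nil))) (.r 12865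 .nil)) (.I .jac (.c 8321 (.c 24 (.c 48 .nil))) (.l 1310924873 .nil))) (.node (.I .tdb (.c 16 (.c 32 (.c 12865 (.c 24 .nil)))) (.l 18433 .nil)) (.I .jac (.c 12865 (.c 16 (.c 32 .nil))) (.r 24 (.l 18433 .nil))))))) (.node (.node (.node (.node (.I .jac (.c 2306970773558194185 (.c 16 (.c 40 .nil))) (.l 8 .nil)) (.I .jac (.c 537002377 (.c 16 (.c 40 .nil))) (.b 24 (.l 8 .nil)))) (.node (.I .jac (.c 537002185 (.c 12929 (.c 48 .nil))) (.l 8 .nil)) (.I .jac (.c 537002185 (.c 16 (.c 40 .nil))) (.b 48 (.l 8 .nil))))) (.node (.node (.I .com (.c 14502389782864775724004637839190473870054118106376301380787647791187248389961 (.c 8 .nil)) .nil) (.I .com (.c 14502375955699776897097553016463223738893908669131956560655866970196018807625 (.c 8 .nil)) .nil)) (.node (.I .com (.c 14502334474273997956006391148615249424177942797046741887347248663445763130185 (.c 8 .nil)) .nil) (.I .com (.c 14502348301404390435294447255639053322907799187522885426054877299630203040777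 (.c 8 .nil)) .nil)))) (.node (.node (.node (.I .jac (.c 2306971873338799945 (.c 16 (.c 48 .nil))) (.l 8 .nil)) (.I .jac (.c 537002313 (.c 16 (.c 48 .nil))) (.b 24 (.l 8 .nil)))) (.node (.I .jac (.c 537002185 (.c 16 (.c 48 .nil))) (.b 40 (.l 8 .nil))) (.I .jac (.c 8193 (.c 18561 (.c 24 .nil))) (.b 40 (.l 8 .nil))))) (.node (.node (.I .jac (.c 8193 (.c 16 (.c 48 .nil))) (.b 24 (.b 40 (.l 8 .nil)))) (.I .com (.c 14502375955699778506396863322320873579733869446538369716876502350880995377929 (.c 8 .nil)) .nil)) (.node (.I .com (.c 14502389782864775724004637839190473782856475165304737489350909178697041926089 (.c 8 .nil)) .nil) (.I .com (.c 14502375955699778506396863322320873405338666702174722200444384665198719202313 (.c 8 .nil)) .nil)))))))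

noncomputable def c4_59 : Tr := (.node (.node (.node (.node (.node (.node (.I .jac (.c 537002377 (.c 16 (.c 24 .nil))) (.b 40 (.l 8 .nil))) (.I .jac (.c 537002313 (.c 4737 (.c 48 .nil))) (.l 8 .nil))) (.node (.I .jac (.c 537002313 (.c 16 (.c 24 .nil))) (.b 48 (.l 8 .nil))) (.I .com (.c 14502389782864777333305098924298644431720863286348602819849794413613458453449 (.c 8 .nil)) .nil))) (.node (.node (.I .com (.c 14502375955699776897097553016463223608097506610859228180437795880250684299273 (.c 8 .nil)) .nil) (.I .jac (.c 537002377 (.c 12929 (.c 24 .nil))) (.l 8 .nil))) (.node (.I .com (.c 14502389782864777333305098924298644562517327697955955914112649312297378504457 (.c 8 .nil)) .nil) (.I .com (.c 14502334474273997956006391148615249293381727798644081149785095917044209424393 (.c 8 .nil)) .nil)))) (.node (.node (.node (.I .com (.c 13748198893136698185 (.c 8 .nil)) (.b 8321 .nil)) (.I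 .adp (.c 13748198893136698185 (.c 8 (.c 8321 .nil))) .nil)) (.node (.I .jac (.c 8 (.c 16 (.c 32 .nil))) (.l 13748198893136698185 .nil)) (.I .jac (.c 13748198893136698185 (.c 16 (.c 32 .nil))) (.r 8 .nil)))) (.node (.node (.I .jac (.c 8 (.c 16 (.c 32 .nil))) (.l 59109068451510808521 .nil)) (.I .jac (.c 8 (.c 16 (.c 32 .nil))) (.l 13748194865974800393 .nil))) (.node (.I .jac (.c 2306970773558194121 (.c 16 (.c 48 .nil))) (.l 8 .nil)) (.I .jac (.c 8193 (.c 18561 (.c 40 .nil))) (.b 24 (.l 8 .nil))))))) (.node (.node (.node (.node (.I .jac (.c 8193 (.c 16 (.c 48 .nil))) (.b 40 (.b 24 (.l 8 .nil)))) (.I .com (.c 14502348301404390435294447255639053497302835656416747721244192645045171913481 (.c 8 .nil)) .nil)) (.node (.I .jac (.c 537002377 (.c 4737 (.c 40 .nil))) (.l 8 .nil)) (.I .jac (.c 0 (.c 21307459 (.c 16 .nil))) (.l 18625 .nil)))) (.node (.node (.I .tdb (.c 16 (.c 32 (.c 18625 (.c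 8 .nil)))) (.l 12801 .nil)) (.I .adp (.c 8 (.c 18625 (.c 8321 .nil))) (.l 12801 .nil))) (.node (.I .jac (.c 8 (.c 16 (.c 32 .nil))) (.r 18625 (.l 12801 .nil))) (.I .tdb (.c 24 (.c 48 (.c 32 (.c 40 .nil)))) (.b 16 (.l 513 .nil)))))) (.node (.node (.node (.I .tdb (.c 16 (.c 32 (.c 18625 (.c 40 .nil)))) (.l 513 .nil)) (.I .tdb (.c 16 (.c 48 (.c 8 (.c 32 .nil)))) (.b 0 (.l 12993 .nil)))) (.node (.I .jac (.c 8 (.c 16 (.c 32 .nil))) (.l 15038410136445321 .nil)) (.I .tdb (.c 16 (.c 32 (.c 12993 (.c 8 .nil)))) (.l 18433 .nil)))) (.node (.node (.I .tdb (.c 0 (.c 48 (.c 8 (.c 32 .nil)))) (.b 16 (.l 12993 .nil))) (.I .jac (.c 0 (.c 8 (.c 32 .nil))) (.r 60768078595370348489 .nil))) (.node (.I .jac (.c 0 (.c 8 (.c 32 .nil))) (.r 257801454173641673 .nil)) (.I .jac (.c 0 (.c 8 (.c 32 .nil))) (.r 14306382363373563913 .nil))))))) (.node (.node (.node (.node (.node (.I .jac (.c 0 (.c 16 (.c 32 .nil)))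 (.r 14025210098083633993 .nil)) (.I .jac (.c 0 (.c 8 (.c 32 .nil))) (.r 60768084239834527561 .nil))) (.node (.I .jac (.c 0 (.c 8 (.c 32 .nil))) (.r 257801270351607817 .nil)) (.I .jac (.c 0 (.c 16 (.c 32 .nil))) (.r 244148848929896457 .nil)))) (.node (.node (.I .tdb (.c 16 (.c 48 (.c 0 (.c 32 .nil)))) (.b 8 (.l 12993 .nil))) (.I .jac (.c 8321 (.c 24 (.c 40 .nil))) (.l 18497 (.l 0 .nil)))) (.node (.I .tdb (.c 8 (.c 48 (.c 0 (.c 32 .nil)))) (.b 16 (.l 12993 .nil))) (.I .jac (.c 8321 (.c 40 (.c 48 .nil))) (.l 4673 (.l 0 .nil)))))) (.node (.node (.node (.I .adp (.c 8257 (.c 16 (.c 13748198893136698185 .nil))) .nil) (.I .com (.c 1512103782441961064963223238430258353929 (.c 8257 .nil)) .nil)) (.node (.I .com (.c 1512103782441961064963223238430258354057 (.c 2113 .nil)) .nil) (.I .adp (.c 16 (.c 32 (.c 8 .nil))) (.b 59109068451510808521 .nil)))) (.node (.node (.I .com (.c 8257 (.c 16 .nil))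 (.b 59109068451510808521 .nil)) (.I .adp (.c 8257 (.c 16 (.c 59109068451510808521 .nil))) .nil)) (.node (.I .com (.c 27951055785643122968540376538297009659657 (.c 8257 .nil)) .nil) (.I .adp (.c 2113 (.c 32 (.c 59109068451510808521 .nil))) .nil))))) (.node (.node (.node (.node (.I .com (.c 27951055785643122968540376538297009659785 (.c 2113 .nil)) .nil) (.I .adp (.c 16 (.c 32 (.c 8 .nil))) (.b 231046163358604233 .nil))) (.node (.I .com (.c 8257 (.c 16 .nil)) (.b 231046163358604233 .nil)) (.I .adp (.c 8257 (.c 16 (.c 231046163358604233 .nil))) .nil))) (.node (.node (.I .adp (.c 2113 (.c 32 (.c 231046163358604233 .nil))) .nil) (.I .com (.c 1512102896582526877926683197569543635721 (.c 8257 .nil)) .nil)) (.node (.I .adp (.c 2113 (.c 32 (.c 13748194865974800393 .nil))) .nil) (.I .adp (.c 2113 (.c 32 (.c 59109074018392946505 .nil))) .nil)))) (.node (.node (.node (.I .com (.c 27951061050494848579379785769086333720457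 (.c 2113 .nil)) .nil) (.I .adp (.c 8257 (.c 16 (.c 231045989336561673 .nil))) .nil)) (.node (.I .jac (.c 545424521 (.c 24 (.c 48 .nil))) (.l 12801 .nil)) (.I .tdb (.c 8 (.c 40 (.c 18625 (.c 16 .nil)))) (.l 8193 .nil)))) (.node (.node (.I .jac (.c 16 (.c 24 (.c 48 .nil))) (.l 12865 (.l 8193 .nil))) (.I .jac (.c 16 (.c 24 (.c 48 .nil))) (.l 2306971873338799817 .nil))) (.node (.I .jac (.c 16 (.c 24 (.c 48 .nil))) (.l 2306969673777850313 .nil)) (.I .tdb (.c 8 (.c 40 (.c 18625 (.c 32 .nil)))) (.l 2049 .nil))))))))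

noncomputable def c4_60 : Tr := (.node (.node (.node (.node (.node (.node (.I .tdb (.c 0 (.c 48 (.c 16 (.c 40 .nil)))) (.b 24 (.l 8257 .nil))) (.I .ass (.c 8257 (.c 2718204105 (.c 12929 .nil))) .nil)) (.node (.I .ass (.c 2718204105 (.c 8257 (.c 12929 .nil))) .nil) (.I .com (.c 8257 (.c 2718204105 .nil)) (.r 12929 .nil)))) (.node (.node (.I .tdb (.c 24 (.c 48 (.c 0 (.c 16 .nil)))) (.b 40 (.l 8257 .nil))) (.I .ass (.c 8257 (.c 1310924937 (.c 18625 .nil))) .nil)) (.node (.I .ass (.c 1310924937 (.c 8257 (.c 18625 .nil))) .nil) (.I .com (.c 8257 (.c 1310924937 .nil)) (.r 18625 .nil))))) (.node (.node (.node (.I .ass (.c 8257 (.c 12801 (.c 2756085961 .nil))) .nil) (.I .ass (.c 12801 (.c 8257 (.c 2756085961 .nil))) .nil)) (.node (.I .com (.c 8257 (.c 12801 .nil)) (.r 2756085961 .nil)) (.I .ass (.c 8257 (.c 12801 (.c 179513737 .nil))) .nil))) (.node (.node (.I .ass (.c 12801 (.c 8257 (.c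 179513737 .nil))) .nil) (.I .com (.c 8257 (.c 12801 .nil)) (.r 179513737 .nil))) (.node (.I .jac (.c 16 (.c 24 (.c 48 .nil))) (.l 13748196208362033865 .nil)) (.I .jac (.c 16 (.c 24 (.c 48 .nil))) (.l 13748192181200529289 .nil)))))) (.node (.node (.node (.node (.I .jac (.c 537002121 (.c 24 (.c 40 .nil))) (.l 18497 .nil)) (.I .tdb (.c 8 (.c 48 (.c 16 (.c 24 .nil)))) (.b 40 (.l 8193 .nil)))) (.node (.I .tdb (.c 24 (.c 40 (.c 18497 (.c 16 .nil)))) (.l 8193 .nil)) (.I .jac (.c 16 (.c 24 (.c 40 .nil))) (.l 18497 (.l 8193 .nil))))) (.node (.node (.I .ass (.c 2306972423229201097 (.c 12993 (.c 16 .nil))) .nil) (.I .jac (.c 16 (.c 24 (.c 40 .nil))) (.l 2306972423229201097 .nil))) (.node (.I .com (.c 16 (.c 12993 .nil)) (.l 2306972423229201097 .nil)) (.I .ass (.c 2306969673777850377 (.c 12993 (.c 16 .nil))) .nil)))) (.node (.node (.node (.I .com (.c 16 (.c 12993 .nil)) (.l 2306969673777850377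 .nil)) (.I .tdb (.c 24 (.c 40 (.c 18497 (.c 32 .nil)))) (.l 2049 .nil))) (.node (.I .tdb (.c 0 (.c 16 (.c 32 (.c 18497 .nil)))) (.l 12993 .nil)) (.I .tdb (.c 0 (.c 48 (.c 16 (.c 24 .nil)))) (.b 40 (.l 8257 .nil))))) (.node (.node (.I .ass (.c 59109071234951844553 (.c 12993 (.c 16 .nil))) .nil) (.I .com (.c 16 (.c 12993 .nil)) (.l 59109071234951844553 .nil))) (.node (.I .ass (.c 59109062884628932489 (.c 12993 (.c 16 .nil))) .nil) (.I .jac (.c 16 (.c 24 (.c 40 .nil))) (.l 59109062884628932489 .nil))))))) (.node (.node (.node (.node (.node (.I .com (.c 16 (.c 12993 .nil)) (.l 59109062884628932489 .nil)) (.I .tdb (.c 8 (.c 16 (.c 32 (.c 18433 .nil)))) (.l 12993 .nil))) (.node (.I .tdb (.c 0 (.c 40 (.c 16 (.c 48 .nil)))) (.b 24 (.l 8257 .nil))) (.I .ass (.c 8257 (.c 1310925001 (.c 18561 .nil))) .nil))) (.node (.node (.I .ass (.c 1310925001 (.c 8257 (.c 18561 .nil))) .nil) (.I .com (.c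 8257 (.c 1310925001 .nil)) (.r 18561 .nil))) (.node (.I .jac (.c 33587465 (.c 40 (.c 48 .nil))) (.l 4673 .nil)) (.I .jac (.c 16 (.c 40 (.c 48 .nil))) (.l 4673 (.l 8193 .nil)))))) (.node (.node (.node (.I .jac (.c 32 (.c 40 (.c 48 .nil))) (.l 4673 (.l 2049 .nil))) (.I .jac (.c 32 (.c 40 (.c 48 .nil))) (.l 9024908047478473 .nil))) (.node (.I .jac (.c 32 (.c 40 (.c 48 .nil))) (.l 9024839260612425 .nil)) (.I .ass (.c 8257 (.c 2718204233 (.c 4737 .nil))) .nil))) (.node (.node (.I .com (.c 8257 (.c 2718204233 .nil)) (.r 4737 .nil)) (.I .ass (.c 8257 (.c 4609 (.c 2756086089 .nil))) .nil)) (.node (.I .ass (.c 4609 (.c 8257 (.c 2756086089 .nil))) .nil) (.I .com (.c 8257 (.c 4609 .nil)) (.r 2756086089 .nil)))))) (.node (.node (.node (.node (.I .ass (.c 8257 (.c 4609 (.c 1337272713 .nil))) .nil) (.I .ass (.c 4609 (.c 8257 (.c 1337272713 .nil))) .nil)) (.node (.I .com (.c 8257 (.c 4609 .nil))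 (.r 1337272713 .nil)) (.I .jac (.c 32 (.c 40 (.c 48 .nil))) (.l 4609 (.l 2113 .nil))))) (.node (.node (.I .jac (.c 32 (.c 40 (.c 48 .nil))) (.l 231045467270826697 .nil)) (.I .jac (.c 32 (.c 40 (.c 48 .nil))) (.l 231045293249046281 .nil))) (.node (.I .tdb (.c 2049 (.c 32 (.c 40 (.c 24 .nil)))) (.b 18497 .nil)) (.I .tdb (.c 0 (.c 16 (.c 40 (.c 24 .nil)))) (.b 32 (.b 18497 .nil)))))) (.node (.node (.node (.I .com (.c 9024942441010185 (.c 40 .nil)) (.l 4673 .nil)) (.I .com (.c 2306970223667989449 (.c 24 .nil)) (.l 18497 .nil))) (.node (.I .tdb (.c 16 (.c 8193 (.c 24 (.c 40 .nil)))) (.b 18497 .nil)) (.I .com (.c 2306970223667989513 (.c 40 .nil)) (.l 4673 .nil)))) (.node (.node (.I .com (.c 2379903264864635849 (.c 24 .nil)) (.l 18433 .nil)) (.I .jac (.c 18497 (.c 16 (.c 40 .nil))) (.b 24 (.l 8193 .nil)))) (.node (.I .jac (.c 1324065993 (.c 16 (.c 48 .nil))) (.l 8193 .nil)) (.I .jac (.c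 12865 (.c 18561 (.c 24 .nil))) (.l 8193 .nil))))))))

noncomputable def c4_61 : Tr := (.node (.node (.node (.node (.node (.node (.I .jac (.c 2306971873338799945 (.c 16 (.c 48 .nil))) (.r 8 .nil)) (.I .jac (.c 18497 (.c 16 (.c 24 .nil))) (.b 40 (.l 8193 .nil)))) (.node (.I .jac (.c 2737112265 (.c 16 (.c 40 .nil))) (.l 8193 .nil)) (.I .jac (.c 2306972423229201225 (.c 16 (.c 40 .nil))) (.r 8 .nil)))) (.node (.node (.I .adp (.c 8 (.c 8321 (.c 13748198893136698185 .nil))) .nil) (.I .com (.c 18291662791002284158804837459398313859147950704863321659390321634942710146874121 (.c 8 .nil)) .nil)) (.node (.I .com (.c 18291662791002284158804837459398313856051162158422185398345640442637541037896585 (.c 8 .nil)) .nil) (.I .adp (.c 8 (.c 32 (.c 16 .nil))) (.b 13748194865974800393 .nil))))) (.node (.node (.node (.I .adp (.c 8 (.c 8321 (.c 13748194865974800393 .nil))) .nil) (.I .jac (.c 13748194865974800393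 (.c 16 (.c 32 .nil))) (.l 8 .nil))) (.node (.I .jac (.c 2306970773558194121 (.c 16 (.c 48 .nil))) (.r 8 .nil)) (.I .jac (.c 18497 (.c 4737 (.c 40 .nil))) (.l 8193 .nil)))) (.node (.node (.I .adp (.c 8 (.c 32 (.c 16 .nil))) (.b 59109074018392946505 .nil)) (.I .adp (.c 8 (.c 8321 (.c 59109074018392946505 .nil))) .nil)) (.node (.I .adp (.c 8 (.c 8321 (.c 231045989336561673 .nil))) .nil) (.I .jac (.c 537002057 (.c 24 (.c 48 .nil))) (.l 12929 .nil)))))) (.node (.node (.node (.node (.I .com (.c 42576872605845444027759439362436274185 (.c 12929 .nil)) .nil) (.I .tdb (.c 16 (.c 48 (.c 32 (.c 40 .nil)))) (.b 24 (.l 513 .nil)))) (.node (.I .jac (.c 8 (.c 4737 (.c 48 .nil))) (.l 537002313 .nil)) (.I .jac (.c 8 (.c 16 (.c 24 .nil))) (.b 48 (.l 537002313 .nil))))) (.node (.node (.I .jac (.c 8520195 (.c 24 (.c 48 .nil))) (.l 12929 .nil)) (.I .tdb (.c 16 (.c 40 (.c 18625 (.c 8 .nil)))) (.l 8193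 .nil))) (.node (.I .jac (.c 8 (.c 16 (.c 40 .nil))) (.r 18625 (.l 8193 .nil))) (.I .jac (.c 8 (.c 16 (.c 40 .nil))) (.l 2306972423229201225 .nil))))) (.node (.node (.node (.I .ass (.c 2718204105 (.c 12865 (.c 8321 .nil))) .nil) (.I .jac (.c 8520195 (.c 24 (.c 40 .nil))) (.l 18561 .nil))) (.node (.I .tdb (.c 16 (.c 48 (.c 8 (.c 24 .nil)))) (.b 40 (.l 8193 .nil))) (.I .tdb (.c 24 (.c 40 (.c 18561 (.c 8 .nil)))) (.l 8193 .nil)))) (.node (.node (.I .com (.c 1324065993 (.c 18561 .nil)) (.l 8193 .nil)) (.I .jac (.c 8 (.c 24 (.c 40 .nil))) (.l 2306972423229201161 .nil))) (.node (.I .jac (.c 8 (.c 24 (.c 40 .nil))) (.l 2306970223667989513 .nil)) (.I .jac (.c 8 (.c 16 (.c 48 .nil))) (.l 2306970773558194121 .nil))))))) (.node (.node (.node (.node (.node (.I .tdb (.c 0 (.c 8 (.c 32 (.c 18561 .nil)))) (.l 12993 .nil)) (.I .jac (.c 43356739 (.c 16 (.c 40 .nil))) (.l 8193 .nil))) (.node (.I .jac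 (.c 8 (.c 4737 (.c 40 .nil))) (.l 537002377 .nil)) (.I .jac (.c 8 (.c 16 (.c 24 .nil))) (.b 40 (.l 537002377 .nil))))) (.node (.node (.I .ass (.c 1310925001 (.c 18497 (.c 8321 .nil))) .nil) (.I .jac (.c 2306969673777850313 (.c 16 (.c 48 .nil))) (.r 24 .nil))) (.node (.I .com (.c 2306969673777850185 (.c 1337272713 .nil)) .nil) (.I .jac (.c 2306969673777850377 (.c 16 (.c 40 .nil))) (.r 24 .nil))))) (.node (.node (.node (.I .jac (.c 8 (.c 16 (.c 40 .nil))) (.b 48 (.l 537002185 .nil))) (.I .jac (.c 8520195 (.c 40 (.c 48 .nil))) (.l 4737 .nil))) (.node (.I .jac (.c 8 (.c 40 (.c 48 .nil))) (.l 2306970773558193929 .nil)) (.I .jac (.c 32 (.c 40 (.c 48 .nil))) (.l 35464401931081 .nil)))) (.node (.node (.I .tdb (.c 513 (.c 32 (.c 48 (.c 24 .nil)))) (.b 12929 .nil)) (.I .tdb (.c 0 (.c 8 (.c 24 (.c 48 .nil)))) (.b 32 (.b 12929 .nil)))) (.node (.I .com (.c 35468714087433 (.c 40 .nil)) (.l 4737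 .nil)) (.I .tdb (.c 0 (.c 32 (.c 24 (.c 48 .nil)))) (.b 8 (.l 12929 .nil))))))) (.node (.node (.node (.node (.I .tdb (.c 8 (.c 8193 (.c 24 (.c 48 .nil)))) (.b 12929 .nil)) (.I .com (.c 2306969673777850377 (.c 40 .nil)) (.l 4737 .nil))) (.node (.I .jac (.c 1310925001 (.c 16 (.c 48 .nil))) (.r 8257 .nil)) (.I .jac (.c 2718204105 (.c 16 (.c 40 .nil))) (.r 8257 .nil)))) (.node (.node (.I .jac (.c 1310925001 (.c 8 (.c 48 .nil))) (.r 8321 .nil)) (.I .jac (.c 12801 (.c 4673 (.c 48 .nil))) (.r 8321 .nil))) (.node (.I .jac (.c 12801 (.c 8 (.c 24 .nil))) (.b 48 (.r 8321 .nil))) (.I .jac (.c 2718204105 (.c 8 (.c 40 .nil))) (.r 8321 .nil))))) (.node (.node (.node (.I .jac (.c 169943369 (.c 16 (.c 48 .nil))) (.r 8257 .nil)) (.I .ass (.c 2718204105 (.c 12929 (.c 8257 .nil))) .nil)) (.node (.I .com (.c 8257 (.c 12929 .nil)) (.l 2718204105 .nil)) (.I .ass (.c 1310924937 (.c 18625 (.c 8257 .nil)))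 .nil))) (.node (.node (.I .com (.c 8257 (.c 18625 .nil)) (.l 1310924937 .nil)) (.I .ass (.c 2105673 (.c 18625 (.c 8321 .nil))) .nil)) (.node (.I .com (.c 8321 (.c 18625 .nil)) (.l 2105673 .nil)) (.I .ass (.c 1310925001 (.c 18561 (.c 8257 .nil))) .nil)))))))

noncomputable def c4_62 : Tr := (.node (.node (.node (.node (.node (.node (.I .com (.c 8257 (.c 18561 .nil)) (.l 1310925001 .nil)) (.I .ass (.c 169943369 (.c 18561 (.c 8257 .nil))) .nil)) (.node (.I .com (.c 8257 (.c 18561 .nil)) (.l 169943369 .nil)) (.I .ass (.c 2105737 (.c 12993 (.c 8321 .nil))) .nil))) (.node (.node (.I .com (.c 8321 (.c 12993 .nil)) (.l 2105737 .nil)) (.I .ass (.c 2718204233 (.c 4737 (.c 8257 .nil))) .nil)) (.node (.I .com (.c 8257 (.c 4737 .nil)) (.l 2718204233 .nil)) (.I .ass (.c 169943177 (.c 18753 (.c 8257 .nil))) .nil)))) (.node (.node (.node (.I .com (.c 8257 (.c 18753 .nil)) (.l 169943177 .nil)) (.I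 .adp (.c 8 (.c 16 (.c 32 .nil))) (.b 13748198893136698185 .nil))) (.node (.I .adp (.c 8 (.c 16 (.c 32 .nil))) (.b 231045989336561673 .nil)) (.I .com (.c 809917014021492389842747146179266883316316492151278009289 (.c 24 .nil)) .nil))) (.node (.node (.I .com (.c 809917014021492389842747156482540288493190207579839438729 (.c 24 .nil)) .nil) (.I .com (.c 3396470626629796977786973438201765697400987898257132266220752339849 (.c 24 .nil)) .nil)) (.node (.I .com (.c 3396470626629893322603242024126378935757647612787457730849440267209 (.c 24 .nil)) .nil) (.I .com (.c 3396470626629700632970704854325517098868394792330189114561880245193 (.c 24 .nil)) .nil))))) (.node (.node (.node (.node (.I .com (.c 3396470626629796977786973438200431257896216519346689372397934459913 (.c 24 .nil)) .nil) (.I .jac (.c 33587273 (.c 32 (.c 40 .nil))) (.b 48 (.l 24 .nil)))) (.node (.I .com (.c 3396470626629893322603242024127046155510033311705909030296951103369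 (.c 24 .nil)) .nil) (.I .com (.c 3396470626629700632970704854324849879116009112338197520186506092553 (.c 24 .nil)) .nil))) (.node (.node (.I .jac (.c 12865 (.c 32 (.c 48 .nil))) (.l 24 (.l 2049 .nil))) (.I .com (.c 14025210098083634057 (.c 24 .nil)) (.l 2049 .nil))) (.node (.I .com (.c 14025207386396218377 (.c 24 .nil)) (.l 2049 .nil)) (.I .jac (.c 12865 (.c 32 (.c 48 .nil))) (.l 33587401 .nil))))) (.node (.node (.node (.I .jac (.c 43356803 (.c 32 (.c 40 .nil))) (.l 513 .nil)) (.I .com (.c 35464401931273 (.c 13057 .nil)) (.l 24 .nil))) (.node (.I .ass (.c 24 (.c 35464401931273 (.c 13057 .nil))) .nil) (.I .ass (.c 35464401931273 (.c 24 (.c 13057 .nil))) .nil))) (.node (.node (.I .com (.c 24 (.c 35464401931273 .nil)) (.r 13057 .nil)) (.I .tdb (.c 513 (.c 16 (.c 48 (.c 24 .nil)))) (.b 13057 .nil))) (.node (.I .tdb (.c 0 (.c 8 (.c 24 (.c 48 .nil)))) (.b 16 (.b 13057 .nil))) (.I .com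 (.c 9024839260612617 (.c 13057 .nil)) (.l 24 .nil))))))) (.node (.node (.node (.node (.node (.I .ass (.c 24 (.c 9024839260612617 (.c 13057 .nil))) .nil) (.I .ass (.c 9024839260612617 (.c 24 (.c 13057 .nil))) .nil)) (.node (.I .com (.c 24 (.c 9024839260612617 .nil)) (.r 13057 .nil)) (.I .tdb (.c 8 (.c 2049 (.c 24 (.c 48 .nil)))) (.b 13057 .nil)))) (.node (.node (.I .tdb (.c 0 (.c 16 (.c 48 (.c 24 .nil)))) (.b 8 (.b 13057 .nil))) (.I .com (.c 9025011228269513 (.c 24 .nil)) (.b 8257 .nil))) (.node (.I .com (.c 35473026505673 (.c 24 .nil)) (.b 8321 .nil)) (.I .jac (.c 1310925193 (.c 8 (.c 16 .nil))) (.b 8385 .nil))))) (.node (.node (.node (.I .jac (.c 12801 (.c 2113 (.c 48 .nil))) (.b 8385 .nil)) (.I .jac (.c 12801 (.c 8 (.c 16 .nil))) (.b 48 (.b 8385 .nil)))) (.node (.I .adp (.c 13748198893136698057 (.c 16 (.c 8385 .nil))) .nil) (.I .jac (.c 16 (.c 24 (.c 32 .nil))) (.l 13748198893136698057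 .nil)))) (.node (.node (.I .adp (.c 59109062884628932553 (.c 16 (.c 8385 .nil))) .nil) (.I .adp (.c 35473026505673 (.c 16 (.c 8385 .nil))) .nil)) (.node (.I .jac (.c 16 (.c 24 (.c 32 .nil))) (.l 13748192181200529417 .nil)) (.I .jac (.c 13748192181200529417 (.c 24 (.c 32 .nil))) (.r 16 .nil)))))) (.node (.node (.node (.node (.I .jac (.c 2049 (.c 24 (.c 32 .nil))) (.r 2737112393 .nil)) (.I .jac (.c 16 (.c 24 (.c 32 .nil))) (.l 59109074018392946377 .nil))) (.node (.I .jac (.c 59109074018392946377 (.c 24 (.c 32 .nil))) (.r 16 .nil)) (.I .jac (.c 2049 (.c 24 (.c 32 .nil))) (.r 1324066185 .nil)))) (.node (.node (.I .jac (.c 9025011228269257 (.c 24 (.c 32 .nil))) (.r 40 .nil)) (.I .jac (.c 59109062884628932361 (.c 24 (.c 32 .nil))) (.r 40 .nil))) (.node (.I .adp (.c 35473026505481 (.c 40 (.c 8385 .nil))) .nil) (.I .adp (.c 9024839260612617 (.c 40 (.c 8385 .nil))) .nil)))) (.node (.node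 (.node (.I .jac (.c 2737112201 (.c 24 (.c 32 .nil))) (.l 12801 .nil)) (.I .adp (.c 35718537 (.c 40 (.c 32 .nil))) (.b 4609 .nil))) (.node (.I .adp (.c 35718537 (.c 40 (.c 24 .nil))) (.b 8193 .nil)) (.I .adp (.c 35718537 (.c 40 (.c 0 .nil))) (.b 8385 .nil)))) (.node (.node (.I .com (.c 12801 (.c 35718537 .nil)) (.b 8385 .nil)) (.I .jac (.c 18433 (.c 8 (.c 16 .nil))) (.r 40 (.b 8385 .nil)))) (.node (.I .jac (.c 0 (.c 2113 (.c 48 .nil))) (.r 40 (.b 8385 .nil))) (.I .jac (.c 0 (.c 8 (.c 16 .nil))) (.b 48 (.r 40 (.b 8385 .nil))))))))))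

noncomputable def c4_63 : Tr := (.node (.node (.node (.node (.node (.node (.I .adp (.c 59109065668069837513 (.c 40 (.c 8385 .nil))) .nil) (.I .adp (.c 35464401931273 (.c 40 (.c 8385 .nil))) .nil)) (.node (.I .adp (.c 12801 (.c 35718537 (.c 8385 .nil))) .nil) (.I .jac (.c 12801 (.c 24 (.c 32 .nil))) (.r 35718537 .nil)))) (.node (.node (.I .jac (.c 43059267 (.c 24 (.c 32 .nil))) (.l 12801 .nil)) (.I .jac (.c 12929 (.c 24 (.c 32 .nil))) (.l 2718203977 .nil))) (.node (.I .jac (.c 2105737 (.c 24 (.c 32 .nil))) (.r 12929 .nil)) (.I .jac (.c 1310924937 (.c 24 (.c 32 .nil))) (.r 18497 .nil))))) (.node (.node (.node (.I .jac (.c 33587529 (.c 24 (.c 32 .nil))) (.r 18497 .nil)) (.I .jac (.c 16 (.c 24 (.c 32 .nil))) (.l 3423058053194185 .nil))) (.node (.I .adp (.c 18497 (.c 16 (.c 8385 .nil))) (.l 12801 .nil)) (.I .jac (.c 18497 (.c 24 (.c 32 .nil))) (.r 16 (.l 12801 .nil))))) (.node (.node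 (.I .tdb (.c 24 (.c 32 (.c 18497 (.c 40 .nil)))) (.l 2049 .nil)) (.I .jac (.c 1324065929 (.c 24 (.c 32 .nil))) (.l 18433 .nil))) (.node (.I .jac (.c 18433 (.c 24 (.c 32 .nil))) (.r 1324065929 .nil)) (.I .jac (.c 18433 (.c 24 (.c 32 .nil))) (.r 35718473 .nil)))))) (.node (.node (.node (.node (.I .jac (.c 2105673 (.c 24 (.c 32 .nil))) (.r 18561 .nil)) (.I .jac (.c 16 (.c 24 (.c 32 .nil))) (.l 14629225721520521 .nil))) (.node (.I .tdb (.c 24 (.c 32 (.c 12865 (.c 16 .nil)))) (.l 18433 .nil)) (.I .adp (.c 12865 (.c 16 (.c 8385 .nil))) (.l 18433 .nil)))) (.node (.node (.I .jac (.c 12865 (.c 24 (.c 32 .nil))) (.r 16 (.l 18433 .nil))) (.I .jac (.c 20685315 (.c 16 (.c 48 .nil))) (.b 8385 .nil))) (.node (.I .com (.c 13748198893136698121 (.c 8 .nil)) (.b 8385 .nil)) (.I .adp (.c 13748198893136698121 (.c 8 (.c 8385 .nil))) .nil)))) (.node (.node (.node (.I .jac (.c 8 (.c 24 (.c 32 .nil))) (.l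 13748198893136698121 .nil)) (.I .jac (.c 13748198893136698121 (.c 24 (.c 32 .nil))) (.r 8 .nil))) (.node (.I .jac (.c 8 (.c 24 (.c 32 .nil))) (.l 59109065668069837769 .nil)) (.I .jac (.c 513 (.c 24 (.c 32 .nil))) (.r 2756086089 .nil)))) (.node (.node (.I .jac (.c 42762755 (.c 16 (.c 40 .nil))) (.b 8385 .nil)) (.I .jac (.c 8 (.c 24 (.c 32 .nil))) (.l 3491688652046793 .nil))) (.node (.I .tdb (.c 24 (.c 32 (.c 18561 (.c 8 .nil)))) (.l 12801 .nil)) (.I .adp (.c 8 (.c 18561 (.c 8385 .nil))) (.l 12801 .nil))))))) (.node (.node (.node (.node (.node (.I .jac (.c 8 (.c 24 (.c 32 .nil))) (.r 18561 (.l 12801 .nil))) (.I .tdb (.c 24 (.c 32 (.c 18561 (.c 40 .nil)))) (.l 513 .nil))) (.node (.I .adp (.c 18561 (.c 40 (.c 8385 .nil))) (.l 513 .nil)) (.I .jac (.c 8 (.c 24 (.c 32 .nil))) (.l 14832759703961993 .nil)))) (.node (.node (.I .tdb (.c 24 (.c 32 (.c 12929 (.c 8 .nil)))) (.l 18433 .nil)) (.I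 .adp (.c 8 (.c 12929 (.c 8385 .nil))) (.l 18433 .nil))) (.node (.I .jac (.c 8 (.c 24 (.c 32 .nil))) (.r 12929 (.l 18433 .nil))) (.I .tdb (.c 0 (.c 48 (.c 8 (.c 32 .nil)))) (.b 24 (.l 12929 .nil)))))) (.node (.node (.node (.I .tdb (.c 48 (.c 12801 (.c 8 (.c 16 .nil)))) (.b 8385 .nil)) (.I .tdb (.c 0 (.c 40 (.c 8 (.c 16 .nil)))) (.b 48 (.b 8385 .nil)))) (.node (.I .adp (.c 16 (.c 18753 (.c 8385 .nil))) (.l 513 .nil)) (.I .jac (.c 12929 (.c 24 (.c 32 .nil))) (.l 18497 (.l 0 .nil))))) (.node (.node (.I .tdb (.c 8 (.c 48 (.c 0 (.c 32 .nil)))) (.b 24 (.l 12929 .nil))) (.I .adp (.c 8257 (.c 24 (.c 13748198893136698121 .nil))) .nil)) (.node (.I .com (.c 1512103782441961050885067571858279445321 (.c 8257 .nil)) .nil) (.I .com (.c 1512103782441961050885067571858279445385 (.c 4673 .nil)) .nil))))) (.node (.node (.node (.node (.I .com (.c 8257 (.c 24 .nil)) (.b 59109065668069837769 .nil)) (.I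 .adp (.c 24 (.c 32 (.c 8 .nil))) (.b 59109065668069837769 .nil))) (.node (.I .adp (.c 8257 (.c 24 (.c 59109065668069837769 .nil))) .nil) (.I .adp (.c 4673 (.c 32 (.c 59109065668069837769 .nil))) .nil))) (.node (.node (.I .com (.c 8257 (.c 24 .nil)) (.b 9025011228269513 .nil)) (.I .adp (.c 24 (.c 32 (.c 8 .nil))) (.b 9025011228269513 .nil))) (.node (.I .adp (.c 8257 (.c 24 (.c 9025011228269513 .nil))) .nil) (.I .adp (.c 4673 (.c 32 (.c 9025011228269513 .nil))) .nil)))) (.node (.node (.node (.I .com (.c 1512102601296135297671723270643481494345 (.c 8257 .nil)) .nil) (.I .adp (.c 4673 (.c 32 (.c 13748193523587632137 .nil))) .nil)) (.node (.I .adp (.c 4673 (.c 32 (.c 59109074018392946441 .nil))) .nil) (.I .com (.c 27951061050494848518852093974251956532105 (.c 4673 .nil)) .nil))) (.node (.node (.I .adp (.c 8257 (.c 24 (.c 9024976834607113 .nil))) .nil) (.I .tdb (.c 8 (.c 40 (.c 18561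 (.c 32 .nil)))) (.l 4609 .nil))) (.node (.I .tdb (.c 0 (.c 40 (.c 18561 (.c 24 .nil)))) (.l 8257 .nil)) (.I .tdb (.c 0 (.c 40 (.c 18561 (.c 32 .nil)))) (.l 4673 .nil))))))))

noncomputable def c4_64 : Tr := (.node (.node (.node (.node (.node (.node (.I .tdb (.c 8 (.c 48 (.c 24 (.c 32 .nil)))) (.b 0 (.l 12929 .nil))) (.I .tdb (.c 16 (.c 40 (.c 18497 (.c 32 .nil)))) (.l 4609 .nil))) (.node (.I .tdb (.c 0 (.c 24 (.c 32 (.c 18497 .nil)))) (.l 12929 .nil)) (.I .tdb (.c 16 (.c 40 (.c 18433 (.c 24 .nil)))) (.l 8257 .nil)))) (.node (.node (.I .tdb (.c 0 (.c 48 (.c 24 (.c 32 .nil)))) (.b 8 (.l 12929 .nil))) (.I .tdb (.c 16 (.c 40 (.c 18433 (.c 32 .nil)))) (.l 4673 .nil))) (.node (.I .tdb (.c 8 (.c 24 (.c 32 (.c 18433 .nil)))) (.l 12929 .nil)) (.I .tdb (.c 0 (.c 40 (.c 24 (.c 48 .nil)))) (.b 16 (.l 8257 .nil)))))) (.node (.node (.node (.I .tdb (.c 0 (.c 40 (.c 32 (.c 48 .nil)))) (.b 16 (.l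 4673 .nil))) (.I .jac (.c 169943305 (.c 40 (.c 48 .nil))) (.l 2113 .nil))) (.node (.I .jac (.c 545424585 (.c 40 (.c 48 .nil))) (.l 2049 .nil)) (.I .jac (.c 24 (.c 40 (.c 48 .nil))) (.l 2113 (.l 8193 .nil))))) (.node (.node (.I .jac (.c 32 (.c 40 (.c 48 .nil))) (.l 2113 (.l 4609 .nil))) (.I .ass (.c 8257 (.c 2049 (.c 1350544777 .nil))) .nil)) (.node (.I .ass (.c 2049 (.c 8257 (.c 1350544777 .nil))) .nil) (.I .com (.c 8257 (.c 2049 .nil)) (.r 1350544777 .nil)))))) (.node (.node (.node (.node (.I .jac (.c 32 (.c 40 (.c 48 .nil))) (.l 2049 (.l 4673 .nil))) (.I .tdb (.c 4609 (.c 32 (.c 40 (.c 16 .nil)))) (.b 18497 .nil))) (.node (.I .tdb (.c 0 (.c 24 (.c 40 (.c 16 .nil)))) (.b 32 (.b 18497 .nil))) (.I .tdb (.c 24 (.c 8193 (.c 16 (.c 40 .nil)))) (.b 18497 .nil)))) (.node (.node (.I .com (.c 244148670041478153 (.c 40 .nil)) (.l 2049 .nil)) (.I .com (.c 2379903823379378185 (.c 40 .nil))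 (.l 2049 .nil))) (.node (.I .jac (.c 0 (.c 8 (.c 32 .nil))) (.b 15456208906582281 .nil)) (.I .adp (.c 8 (.c 8385 (.c 13748198893136698121 .nil))) .nil)))) (.node (.node (.node (.I .jac (.c 13748198893136698121 (.c 24 (.c 32 .nil))) (.l 8 .nil)) (.I .com (.c 18291662791002283818202718527714844178410062149173241265351214608323065582385993 (.c 8 .nil)) .nil)) (.node (.I .com (.c 18291662791002283818202718527714844176861667875952673149244905414740187430344585 (.c 8 .nil)) .nil) (.I .jac (.c 59109065668069837769 (.c 24 (.c 32 .nil))) (.l 8 .nil)))) (.node (.node (.I .adp (.c 8 (.c 32 (.c 24 .nil))) (.b 13748193523587632137 .nil)) (.I .adp (.c 8 (.c 8385 (.c 13748193523587632137 .nil))) .nil)) (.node (.I .jac (.c 13748193523587632137 (.c 24 (.c 32 .nil))) (.l 8 .nil)) (.I .adp (.c 8 (.c 32 (.c 24 .nil))) (.b 59109074018392946441 .nil))))))) (.node (.node (.node (.node (.node (.I .adp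 (.c 8 (.c 8385 (.c 59109074018392946441 .nil))) .nil) (.I .adp (.c 8 (.c 8385 (.c 9024976834607113 .nil))) .nil)) (.node (.I .ass (.c 1310924937 (.c 18497 (.c 8385 .nil))) .nil) (.I .jac (.c 537002057 (.c 24 (.c 48 .nil))) (.b 40 (.l 16 .nil))))) (.node (.node (.I .com (.c 14502320647155140909428280329389864468614660556172994053999052471206544278345 (.c 16 .nil)) .nil) (.I .com (.c 14502320647155142518722987525103327713070509053182658461137079954544965605321 (.c 16 .nil)) .nil)) (.node (.I .com (.c 14502320647155137690838865937963339523891584194807221604892938200835979314121 (.c 16 .nil)) .nil) (.I .com (.c 14502320647155140909428280329389864337818507911015775486523858842103694104585 (.c 16 .nil)) .nil)))) (.node (.node (.node (.I .jac (.c 2306969673777850377 (.c 24 (.c 40 .nil))) (.l 16 .nil)) (.I .com (.c 14502320647155142518722987525103327800267944149954142344186607676513272373065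 (.c 16 .nil)) .nil)) (.node (.I .com (.c 14502320647155137690838865937963339480292866646421486920467272293701234581513 (.c 16 .nil)) .nil) (.I .jac (.c 12865 (.c 24 (.c 48 .nil))) (.l 16 (.l 8193 .nil))))) (.node (.node (.I .com (.c 14025210098083633993 (.c 16 .nil)) (.l 8193 .nil)) (.I .com (.c 59934268409707442121 (.c 16 .nil)) (.l 8193 .nil))) (.node (.I .com (.c 14025206030552608777 (.c 16 .nil)) (.l 8193 .nil)) (.I .jac (.c 12865 (.c 24 (.c 48 .nil))) (.l 537002121 .nil)))))) (.node (.node (.node (.node (.I .jac (.c 18497 (.c 24 (.c 40 .nil))) (.l 16 (.l 8193 .nil))) (.I .com (.c 59934274015313491785 (.c 16 .nil)) (.l 8193 .nil))) (.node (.I .ass (.c 59109074018392946377 (.c 16 (.c 8385 .nil))) .nil) (.I .ass (.c 13748198893136698057 (.c 16 (.c 8385 .nil))) .nil))) (.node (.node (.I .com (.c 2306969673777850377 (.c 12993 .nil)) (.l 16 .nil)) (.I .ass (.c 16 (.c 2306969673777850377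 (.c 12993 .nil))) .nil)) (.node (.I .ass (.c 2306969673777850377 (.c 16 (.c 12993 .nil))) .nil) (.I .com (.c 16 (.c 2306969673777850377 .nil)) (.r 12993 .nil))))) (.node (.node (.node (.I .jac (.c 1310924937 (.c 8 (.c 48 .nil))) (.r 8385 .nil)) (.I .jac (.c 12801 (.c 2113 (.c 48 .nil))) (.r 8385 .nil))) (.node (.I .jac (.c 12801 (.c 8 (.c 16 .nil))) (.b 48 (.r 8385 .nil))) (.I .ass (.c 59109062884628932553 (.c 16 (.c 8385 .nil))) .nil))) (.node (.node (.I .ass (.c 13748192181200529417 (.c 16 (.c 8385 .nil))) .nil) (.I .ass (.c 2105481 (.c 18753 (.c 8385 .nil))) .nil)) (.node (.I .com (.c 8385 (.c 18753 .nil)) (.l 2105481 .nil)) (.I .adp (.c 8 (.c 24 (.c 32 .nil))) (.b 13748198893136698121 .nil))))))))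

noncomputable def c4_65 : Tr := (.node (.node (.node (.node (.node (.node (.I .adp (.c 8 (.c 24 (.c 32 .nil))) (.b 9024976834607113 .nil)) (.I .jac (.c 231045293249046473 (.c 32 (.c 48 .nil))) (.l 16 .nil))) (.node (.I .jac (.c 169943113 (.c 32 (.c 48 .nil))) (.b 40 (.l 16 .nil))) (.I .jac (.c 231045293249046537 (.c 32 (.c 40 .nil))) (.l 16 .nil)))) (.node (.node (.I .jac (.c 169943113 (.c 32 (.c 40 .nil))) (.b 48 (.l 16 .nil))) (.I .jac (.c 12865 (.c 32 (.c 48 .nil))) (.l 169943177 .nil))) (.node (.I .jac (.c 43059267 (.c 32 (.c 40 .nil))) (.l 4609 .nil)) (.I .com (.c 35466557976521 (.c 18689 .nil)) (.l 16 .nil))))) (.node (.node (.node (.I .tdb (.c 513 (.c 24 (.c 40 (.c 16 .nil)))) (.b 18689 .nil)) (.I .tdb (.c 0 (.c 8 (.c 16 (.c 40 .nil)))) (.b 24 (.b 18689 .nil)))) (.node (.I .tdb (.c 513 (.c 24 (.c 48 (.c 16 .nil)))) (.b 13057 .nil)) (.I .tdb (.c 0 (.c 8 (.c 16 (.c 48 .nil))))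 (.b 24 (.b 13057 .nil))))) (.node (.node (.I .com (.c 231045293249046473 (.c 18689 .nil)) (.l 16 .nil)) (.I .ass (.c 16 (.c 231045293249046473 (.c 18689 .nil))) .nil)) (.node (.I .ass (.c 231045293249046473 (.c 16 (.c 18689 .nil))) .nil) (.I .com (.c 16 (.c 231045293249046473 .nil)) (.r 18689 .nil)))))) (.node (.node (.node (.node (.I .tdb (.c 8 (.c 4609 (.c 16 (.c 40 .nil)))) (.b 18689 .nil)) (.I .tdb (.c 0 (.c 24 (.c 40 (.c 16 .nil)))) (.b 8 (.b 18689 .nil)))) (.node (.I .tdb (.c 8 (.c 4609 (.c 16 (.c 48 .nil)))) (.b 13057 .nil)) (.I .tdb (.c 0 (.c 24 (.c 48 (.c 16 .nil)))) (.b 8 (.b 13057 .nil))))) (.node (.node (.I .jac (.c 2105737 (.c 16 (.c 40 .nil))) (.b 8385 .nil)) (.I .com (.c 35473026505673 (.c 16 .nil)) (.b 8385 .nil))) (.node (.I .com (.c 1512103782441961036806911905286300602185 (.c 8321 .nil)) .nil) (.I .com (.c 8321 (.c 24 .nil)) (.b 59109062884628932553 .nil)))))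 (.node (.node (.node (.I .adp (.c 24 (.c 32 (.c 16 .nil))) (.b 59109062884628932553 .nil)) (.I .adp (.c 8321 (.c 24 (.c 59109062884628932553 .nil))) .nil)) (.node (.I .com (.c 8321 (.c 24 .nil)) (.b 35473026505673 .nil)) (.I .adp (.c 24 (.c 32 (.c 16 .nil))) (.b 35473026505673 .nil)))) (.node (.node (.I .adp (.c 8321 (.c 24 (.c 35473026505673 .nil))) .nil) (.I .com (.c 8321 (.c 24 .nil)) (.b 13748192181200529417 .nil))) (.node (.I .adp (.c 24 (.c 32 (.c 16 .nil))) (.b 13748192181200529417 .nil)) (.I .adp (.c 8321 (.c 24 (.c 13748192181200529417 .nil))) .nil)))))) (.node (.node (.node (.node (.node (.I .com (.c 27951061050494848458324402179417579409289 (.c 4737 .nil)) .nil) (.I .jac (.c 18497 (.c 8321 (.c 24 .nil))) (.l 12801 .nil))) (.node (.I .jac (.c 18497 (.c 16 (.c 32 .nil))) (.b 24 (.l 12801 .nil))) (.I .tdb (.c 0 (.c 48 (.c 24 (.c 40 .nil)))) (.b 8 (.l 8321 .nil))))) (.node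 (.node (.I .tdb (.c 8 (.c 48 (.c 24 (.c 40 .nil)))) (.b 0 (.l 8321 .nil))) (.I .ass (.c 8321 (.c 1310925001 (.c 18497 .nil))) .nil)) (.node (.I .ass (.c 1310925001 (.c 8321 (.c 18497 .nil))) .nil) (.I .com (.c 8321 (.c 1310925001 .nil)) (.r 18497 .nil))))) (.node (.node (.node (.I .com (.c 18497 (.c 8321 .nil)) (.l 1310925001 .nil)) (.I .ass (.c 8321 (.c 12801 (.c 2737112265 .nil))) .nil)) (.node (.I .ass (.c 12801 (.c 8321 (.c 2737112265 .nil))) .nil) (.I .com (.c 8321 (.c 12801 .nil)) (.r 2737112265 .nil)))) (.node (.node (.I .tdb (.c 0 (.c 40 (.c 16 (.c 24 .nil)))) (.b 32 (.l 18497 .nil))) (.I .tdb (.c 16 (.c 32 (.c 12801 (.c 24 .nil)))) (.l 18497 .nil))) (.node (.I .tdb (.c 0 (.c 40 (.c 18497 (.c 32 .nil)))) (.l 4737 .nil)) (.I .tdb (.c 8 (.c 48 (.c 0 (.c 32 .nil)))) (.b 40 (.l 4737 .nil))))))) (.node (.node (.node (.node (.I .ass (.c 4737 (.c 12801 (.c 2737112329 .nil))) .nil)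 (.I .ass (.c 12801 (.c 4737 (.c 2737112329 .nil))) .nil)) (.node (.I .com (.c 4737 (.c 12801 .nil)) (.r 2737112329 .nil)) (.I .tdb (.c 0 (.c 40 (.c 16 (.c 32 .nil)))) (.b 24 (.l 18497 .nil))))) (.node (.node (.I .tdb (.c 16 (.c 24 (.c 32 (.c 12801 .nil)))) (.l 18497 .nil)) (.I .ass (.c 8321 (.c 2718204105 (.c 12865 .nil))) .nil)) (.node (.I .ass (.c 2718204105 (.c 8321 (.c 12865 .nil))) .nil) (.I .com (.c 8321 (.c 2718204105 .nil)) (.r 12865 .nil))))) (.node (.node (.node (.I .com (.c 12865 (.c 8321 .nil)) (.l 2718204105 .nil)) (.I .ass (.c 8321 (.c 18433 (.c 1324065993 .nil))) .nil)) (.node (.I .ass (.c 18433 (.c 8321 (.c 1324065993 .nil))) .nil) (.I .com (.c 8321 (.c 18433 .nil)) (.r 1324065993 .nil)))) (.node (.node (.I .com (.c 1324065993 (.c 8321 .nil)) (.l 18433 .nil)) (.I .tdb (.c 0 (.c 40 (.c 24 (.c 48 .nil)))) (.b 8 (.l 8321 .nil)))) (.node (.I .tdb (.c 0 (.c 48 (.c 8 (.c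 32 .nil)))) (.b 40 (.l 4737 .nil))) (.I .tdb (.c 8 (.c 40 (.c 18433 (.c 32 .nil)))) (.l 4737 .nil))))))))

noncomputable def c4_66 : Tr := (.node (.node (.node (.node (.node (.node (.I .ass (.c 4737 (.c 2718204169 (.c 12865 .nil))) .nil) (.I .ass (.c 2718204169 (.c 4737 (.c 12865 .nil))) .nil)) (.node (.I .com (.c 4737 (.c 2718204169 .nil)) (.r 12865 .nil)) (.I .com (.c 12865 (.c 4737 .nil)) (.l 2718204169 .nil)))) (.node (.node (.I .com (.c 1324066057 (.c 4737 .nil)) (.l 18433 .nil)) (.I .jac (.c 179513609 (.c 40 (.c 48 .nil))) (.l 513 .nil))) (.node (.I .jac (.c 553912521 (.c 40 (.c 48 .nil))) (.l 513 .nil)) (.I .ass (.c 8321 (.c 2718204233 (.c 4673 .nil))) .nil)))) (.node (.node (.node (.I .com (.c 8321 (.c 2718204233 .nil)) (.r 4673 .nil)) (.I .ass (.c 8321 (.c 1310925193 (.c 4673 .nil))) .nil)) (.node (.I .com (.c 8321 (.c 1310925193 .nil)) (.r 4673 .nil)) (.I .ass (.c 4737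 (.c 2718204233 (.c 8257 .nil))) .nil))) (.node (.node (.I .com (.c 4737 (.c 2718204233 .nil)) (.r 8257 .nil)) (.I .jac (.c 32 (.c 40 (.c 48 .nil))) (.l 513 (.l 4737 .nil)))) (.node (.I .tdb (.c 4609 (.c 32 (.c 40 (.c 8 .nil)))) (.b 18561 .nil)) (.I .tdb (.c 0 (.c 24 (.c 40 (.c 8 .nil)))) (.b 32 (.b 18561 .nil))))))) (.node (.node (.node (.node (.I .tdb (.c 24 (.c 8193 (.c 8 (.c 40 .nil)))) (.b 18561 .nil)) (.I .com (.c 257801086529639433 (.c 40 .nil)) (.l 513 .nil))) (.node (.I .com (.c 2454552647364603913 (.c 40 .nil)) (.l 513 .nil)) (.I .jac (.c 13748198893136698057 (.c 24 (.c 32 .nil))) (.l 16 .nil)))) (.node (.node (.I .adp (.c 16 (.c 32 (.c 24 .nil))) (.b 59109062884628932553 .nil)) (.I .adp (.c 16 (.c 8385 (.c 59109062884628932553 .nil))) .nil)) (.node (.I .jac (.c 59109062884628932553 (.c 24 (.c 32 .nil))) (.l 16 .nil)) (.I .adp (.c 16 (.c 32 (.c 24 .nil))) (.b 35473026505673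 .nil))))) (.node (.node (.node (.I .adp (.c 16 (.c 8385 (.c 35473026505673 .nil))) .nil) (.I .adp (.c 16 (.c 32 (.c 24 .nil))) (.b 13748192181200529417 .nil))) (.node (.I .adp (.c 16 (.c 8385 (.c 13748192181200529417 .nil))) .nil) (.I .com (.c 18291627070720923377478216906293781422229280460617050807067065977983415150705481 (.c 16 .nil)) .nil))) (.node (.node (.I .com (.c 18291627070720923377478216906293781420680887699263028954401128148086548458264457 (.c 16 .nil)) .nil) (.I .jac (.c 59109074018392946377 (.c 24 (.c 32 .nil))) (.l 16 .nil))) (.node (.I .com (.c 6250094510787921451507938936320109349001104367827754403475649131556193201435884361 (.c 16 .nil)) .nil) (.I .com (.c 6250094510787921451507938936320109348972482481312047678654324943724469600120805257 (.c 16 .nil)) .nil)))))) (.node (.node (.node (.node (.node (.I .com (.c 59934271212510434121 (.c 16 .nil)) (.l 12801 .nil)) (.I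 .com (.c 59934268409707442057 (.c 16 .nil)) (.l 12801 .nil))) (.node (.I .com (.c 14025207386396218185 (.c 16 .nil)) (.l 18433 .nil)) (.I .com (.c 14025206030552608649 (.c 16 .nil)) (.l 18433 .nil)))) (.node (.node (.I .jac (.c 2306970223667989449 (.c 24 (.c 48 .nil))) (.l 8 .nil)) (.I .jac (.c 2306970223667989513 (.c 24 (.c 40 .nil))) (.l 8 .nil))) (.node (.I .jac (.c 18561 (.c 24 (.c 40 .nil))) (.l 537002057 .nil)) (.I .tdb (.c 2049 (.c 32 (.c 40 (.c 8 .nil)))) (.b 18625 .nil))))) (.node (.node (.node (.I .tdb (.c 0 (.c 16 (.c 40 (.c 8 .nil)))) (.b 32 (.b 18625 .nil))) (.I .tdb (.c 2049 (.c 32 (.c 48 (.c 8 .nil)))) (.b 12993 .nil))) (.node (.I .tdb (.c 0 (.c 16 (.c 48 (.c 8 .nil)))) (.b 32 (.b 12993 .nil))) (.I .tdb (.c 16 (.c 8193 (.c 8 (.c 40 .nil)))) (.b 18625 .nil)))) (.node (.node (.I .tdb (.c 16 (.c 8193 (.c 8 (.c 48 .nil)))) (.b 12993 .nil)) (.I .jac (.c 231045467270826953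 (.c 32 (.c 48 .nil))) (.l 8 .nil))) (.node (.I .jac (.c 231045467270827017 (.c 32 (.c 40 .nil))) (.l 8 .nil)) (.I .jac (.c 9024908047478729 (.c 32 (.c 48 .nil))) (.l 8 .nil)))))) (.node (.node (.node (.node (.I .jac (.c 18561 (.c 32 (.c 40 .nil))) (.l 169943113 .nil)) (.I .tdb (.c 16 (.c 4609 (.c 8 (.c 40 .nil)))) (.b 18689 .nil))) (.node (.I .tdb (.c 0 (.c 24 (.c 40 (.c 8 .nil)))) (.b 16 (.b 18689 .nil))) (.I .tdb (.c 24 (.c 2049 (.c 8 (.c 40 .nil)))) (.b 18689 .nil)))) (.node (.node (.I .tdb (.c 0 (.c 16 (.c 40 (.c 8 .nil)))) (.b 24 (.b 18689 .nil))) (.I .jac (.c 0 (.c 8257 (.c 24 .nil))) (.r 2756086089 .nil))) (.node (.I .jac (.c 0 (.c 8 (.c 32 .nil))) (.b 24 (.r 2756086089 .nil))) (.I .ass (.c 8257 (.c 0 (.c 60768084239834527561 .nil))) .nil)))) (.node (.node (.node (.I .ass (.c 0 (.c 8257 (.c 60768084239834527561 .nil))) .nil) (.I .com (.c 8257 (.c 0 .nil)) (.r 60768084239834527561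 .nil))) (.node (.I .jac (.c 43356675 (.c 16 (.c 40 .nil))) (.l 8257 .nil)) (.I .ass (.c 8257 (.c 0 (.c 14306386471475043145 .nil))) .nil))) (.node (.node (.I .ass (.c 0 (.c 8257 (.c 14306386471475043145 .nil))) .nil) (.I .com (.c 8257 (.c 0 .nil)) (.r 14306386471475043145 .nil))) (.node (.I .jac (.c 21307395 (.c 16 (.c 48 .nil))) (.l 4673 .nil)) (.I .ass (.c 4673 (.c 0 (.c 60768084239834527625 .nil))) .nil)))))))

noncomputable def c4_67 : Tr := (.node (.node (.node (.node (.node (.node (.I .ass (.c 0 (.c 4673 (.c 60768084239834527625 .nil))) .nil) (.I .com (.c 4673 (.c 0 .nil)) (.r 60768084239834527625 .nil))) (.node (.I .ass (.c 4673 (.c 0 (.c 14306386471475043209 .nil))) .nil) (.I .ass (.c 0 (.c 4673 (.c 14306386471475043209 .nil))) .nil))) (.node (.node (.I .com (.c 4673 (.c 0 .nil)) (.r 14306386471475043209 .nil)) (.I .ass (.c 8321 (.c 4609 (.c 2737112393 .nil))) .nil)) (.node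 (.I .ass (.c 4609 (.c 8321 (.c 2737112393 .nil))) .nil) (.I .com (.c 8321 (.c 4609 .nil)) (.r 2737112393 .nil))))) (.node (.node (.node (.I .jac (.c 43356675 (.c 8 (.c 40 .nil))) (.l 8321 .nil)) (.I .ass (.c 8321 (.c 4609 (.c 1324066185 .nil))) .nil)) (.node (.I .ass (.c 4609 (.c 8321 (.c 1324066185 .nil))) .nil) (.I .com (.c 8321 (.c 4609 .nil)) (.r 1324066185 .nil)))) (.node (.node (.I .jac (.c 21307395 (.c 8 (.c 48 .nil))) (.l 4737 .nil)) (.I .ass (.c 4737 (.c 8193 (.c 2737112393 .nil))) .nil)) (.node (.I .ass (.c 8193 (.c 4737 (.c 2737112393 .nil))) .nil) (.I .com (.c 4737 (.c 8193 .nil)) (.r 2737112393 .nil)))))) (.node (.node (.node (.node (.I .jac (.c 43655171 (.c 8 (.c 40 .nil))) (.l 4737 .nil)) (.I .jac (.c 21307395 (.c 8 (.c 24 .nil))) (.b 18561 .nil))) (.node (.I .jac (.c 0 (.c 8257 (.c 16 .nil))) (.r 2775125321 .nil)) (.I .jac (.c 0 (.c 8 (.c 32 .nil))) (.b 16 (.r 2775125321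 .nil))))) (.node (.node (.I .jac (.c 0 (.c 8257 (.c 16 .nil))) (.r 1350544777 .nil)) (.I .jac (.c 0 (.c 8 (.c 32 .nil))) (.b 16 (.r 1350544777 .nil)))) (.node (.I .jac (.c 20891651 (.c 24 (.c 48 .nil))) (.l 8257 .nil)) (.I .jac (.c 12929 (.c 24 (.c 48 .nil))) (.l 0 (.l 8257 .nil)))))) (.node (.node (.node (.I .ass (.c 8257 (.c 0 (.c 60768078595370348489 .nil))) .nil) (.I .ass (.c 0 (.c 8257 (.c 60768078595370348489 .nil))) .nil)) (.node (.I .com (.c 8257 (.c 0 .nil)) (.r 60768078595370348489 .nil)) (.I .ass (.c 8257 (.c 0 (.c 257801454173641673 .nil))) .nil))) (.node (.node (.I .ass (.c 0 (.c 8257 (.c 257801454173641673 .nil))) .nil) (.I .com (.c 8257 (.c 0 .nil)) (.r 257801454173641673 .nil))) (.node (.I .ass (.c 8257 (.c 0 (.c 14306382363373563913 .nil))) .nil) (.I .ass (.c 0 (.c 8257 (.c 14306382363373563913 .nil))) .nil)))))) (.node (.node (.node (.node (.node (.I .com (.c 8257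 (.c 0 .nil)) (.r 14306382363373563913 .nil)) (.I .jac (.c 18561 (.c 24 (.c 40 .nil))) (.l 0 (.l 8257 .nil)))) (.node (.I .ass (.c 8257 (.c 0 (.c 257801270351607817 .nil))) .nil) (.I .ass (.c 0 (.c 8257 (.c 257801270351607817 .nil))) .nil))) (.node (.node (.I .com (.c 8257 (.c 0 .nil)) (.r 257801270351607817 .nil)) (.I .jac (.c 21307395 (.c 24 (.c 48 .nil))) (.l 2113 .nil))) (.node (.I .adp (.c 8 (.c 32 (.c 2718204233 .nil))) (.b 4737 .nil)) (.I .jac (.c 0 (.c 4673 (.c 16 .nil))) (.r 1363882377 .nil))))) (.node (.node (.node (.I .jac (.c 0 (.c 8 (.c 24 .nil))) (.b 16 (.r 1363882377 .nil))) (.I .jac (.c 20891651 (.c 32 (.c 48 .nil))) (.l 4673 .nil))) (.node (.I .jac (.c 12929 (.c 32 (.c 48 .nil))) (.l 0 (.l 4673 .nil))) (.I .ass (.c 4673 (.c 0 (.c 60768081417602405321 .nil))) .nil))) (.node (.node (.I .ass (.c 0 (.c 4673 (.c 60768081417602405321 .nil))) .nil) (.I .com (.c 4673 (.c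 0 .nil)) (.r 60768081417602405321 .nil))) (.node (.I .ass (.c 4673 (.c 0 (.c 2454554348984163273 .nil))) .nil) (.I .ass (.c 0 (.c 4673 (.c 2454554348984163273 .nil))) .nil))))) (.node (.node (.node (.node (.I .com (.c 4673 (.c 0 .nil)) (.r 2454554348984163273 .nil)) (.I .ass (.c 4673 (.c 0 (.c 14306383732740658185 .nil))) .nil)) (.node (.I .ass (.c 0 (.c 4673 (.c 14306383732740658185 .nil))) .nil) (.I .com (.c 4673 (.c 0 .nil)) (.r 14306383732740658185 .nil)))) (.node (.node (.I .jac (.c 18561 (.c 32 (.c 40 .nil))) (.l 0 (.l 4673 .nil))) (.I .ass (.c 4673 (.c 0 (.c 2454553781777577993 .nil))) .nil)) (.node (.I .ass (.c 0 (.c 4673 (.c 2454553781777577993 .nil))) .nil) (.I .com (.c 4673 (.c 0 .nil)) (.r 2454553781777577993 .nil))))) (.node (.node (.node (.I .jac (.c 43356675 (.c 32 (.c 40 .nil))) (.l 2113 .nil)) (.I .jac (.c 20891651 (.c 8 (.c 24 .nil))) (.b 18689 .nil))) (.node (.I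 .adp (.c 8 (.c 24 (.c 1310925193 .nil))) (.b 8321 .nil)) (.I .adp (.c 8 (.c 16 (.c 1310925193 .nil))) (.b 8385 .nil)))) (.node (.node (.I .com (.c 59109074018392946505 (.c 35718409 .nil)) .nil) (.I .jac (.c 2718204233 (.c 16 (.c 32 .nil))) (.l 4673 .nil))) (.node (.I .com (.c 13748198893136698185 (.c 35718409 .nil)) .nil) (.I .jac (.c 1310925193 (.c 16 (.c 32 .nil))) (.l 4673 .nil))))))))

noncomputable def c4_68 : Tr := (.node (.node (.node (.node (.node (.node (.I .com (.c 59109074018392946569 (.c 174695561 .nil)) .nil) (.I .jac (.c 1310925193 (.c 16 (.c 24 .nil))) (.l 8257 .nil))) (.node (.I .com (.c 59109074018392946441 (.c 545424585 .nil)) .nil) (.I .com (.c 59109074018392946441 (.c 174695689 .nil)) .nil))) (.node (.node (.I .jac (.c 2718204233 (.c 24 (.c 32 .nil))) (.l 2113 .nil)) (.I .com (.c 13748198893136698121 (.c 174695689 .nil)) .nil)) (.node (.I .adp (.c 18497 (.c 40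 (.c 2306970223667989321 .nil))) .nil) (.I .adp (.c 18497 (.c 40 (.c 231045467270826889 .nil))) .nil)))) (.node (.node (.node (.I .adp (.c 18497 (.c 40 (.c 2306970773558193929 .nil))) .nil) (.I .adp (.c 18497 (.c 40 (.c 9024908047478665 .nil))) .nil)) (.node (.I .jac (.c 43954691 (.c 16 (.c 32 .nil))) (.l 4673 .nil)) (.I .tdb (.c 16 (.c 32 (.c 18433 (.c 40 .nil)))) (.l 4673 .nil)))) (.node (.node (.I .jac (.c 18433 (.c 16 (.c 32 .nil))) (.r 40 (.l 4673 .nil))) (.I .tdb (.c 16 (.c 32 (.c 12801 (.c 48 .nil)))) (.l 4673 .nil))) (.node (.I .jac (.c 12801 (.c 16 (.c 32 .nil))) (.r 48 (.l 4673 .nil))) (.I .jac (.c 43954691 (.c 16 (.c 24 .nil))) (.l 8257 .nil)))))) (.node (.node (.node (.node (.I .tdb (.c 16 (.c 24 (.c 40 (.c 18433 .nil)))) (.l 8257 .nil)) (.I .jac (.c 18433 (.c 16 (.c 24 .nil))) (.r 40 (.l 8257 .nil)))) (.node (.I .tdb (.c 16 (.c 24 (.c 48 (.c 12801 .nil)))) (.l 8257 .nil))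 (.I .jac (.c 12801 (.c 16 (.c 24 .nil))) (.r 48 (.l 8257 .nil))))) (.node (.node (.I .adp (.c 12801 (.c 48 (.c 4737 .nil))) (.l 8257 .nil)) (.I .adp (.c 12801 (.c 48 (.c 8385 .nil))) (.l 2113 .nil))) (.node (.I .jac (.c 2718204233 (.c 16 (.c 24 .nil))) (.b 32 (.l 8 .nil))) (.I .jac (.c 1310925193 (.c 8321 (.c 24 .nil))) (.l 8 .nil))))) (.node (.node (.node (.I .jac (.c 1310925193 (.c 16 (.c 32 .nil))) (.b 24 (.l 8 .nil))) (.I .jac (.c 1310925193 (.c 4737 (.c 32 .nil))) (.l 8 .nil))) (.node (.I .com (.c 427057350195047847081321678284722121 (.c 18561 .nil)) .nil) (.I .com (.c 427057350195047847081321678284722185 (.c 12929 .nil)) .nil))) (.node (.node (.I .adp (.c 18561 (.c 40 (.c 2306969673777850185 .nil))) .nil) (.I .adp (.c 18561 (.c 40 (.c 231045293249046409 .nil))) .nil)) (.node (.I .com (.c 42576913200413531150059165447389106121 (.c 18561 .nil)) .nil) (.I .jac (.c 2306970773558193865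 (.c 16 (.c 48 .nil))) (.r 40 .nil))))))) (.node (.node (.node (.node (.node (.I .com (.c 12865 (.c 18561 .nil)) (.l 537002185 .nil)) (.I .com (.c 12865 (.c 18561 .nil)) (.l 169943305 .nil))) (.node (.I .com (.c 18497 (.c 12929 .nil)) (.l 537002185 .nil)) (.I .ass (.c 18433 (.c 12865 (.c 553912521 .nil))) .nil))) (.node (.node (.I .ass (.c 12801 (.c 18497 (.c 553912521 .nil))) .nil) (.I .jac (.c 12801 (.c 16 (.c 48 .nil))) (.r 545424585 .nil))) (.node (.I .jac (.c 12801 (.c 16 (.c 48 .nil))) (.r 174695689 .nil)) (.I .jac (.c 18433 (.c 16 (.c 40 .nil))) (.r 545424585 .nil))))) (.node (.node (.node (.I .jac (.c 12801 (.c 8 (.c 48 .nil))) (.r 553912521 .nil)) (.I .jac (.c 0 (.c 12865 (.c 48 .nil))) (.r 553912521 .nil))) (.node (.I .jac (.c 0 (.c 8 (.c 40 .nil))) (.b 48 (.r 553912521 .nil))) (.I .ass (.c 12801 (.c 18561 (.c 545424585 .nil))) .nil))) (.node (.node (.I .ass (.c 12801 (.c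 18561 (.c 174695689 .nil))) .nil) (.I .ass (.c 18433 (.c 12929 (.c 545424585 .nil))) .nil)) (.node (.I .jac (.c 2306969673777850313 (.c 24 (.c 48 .nil))) (.r 16 .nil)) (.I .jac (.c 2306969673777850377 (.c 24 (.c 40 .nil))) (.r 16 .nil)))))) (.node (.node (.node (.node (.I .jac (.c 2306970223667989449 (.c 24 (.c 48 .nil))) (.r 8 .nil)) (.I .jac (.c 2105673 (.c 24 (.c 48 .nil))) (.r 8321 .nil))) (.node (.I .jac (.c 2105737 (.c 24 (.c 40 .nil))) (.r 8321 .nil)) (.I .jac (.c 12865 (.c 24 (.c 48 .nil))) (.r 16 (.l 8193 .nil))))) (.node (.node (.I .jac (.c 18497 (.c 24 (.c 40 .nil))) (.r 16 (.l 8193 .nil))) (.I .tdb (.c 0 (.c 48 (.c 8 (.c 16 .nil)))) (.b 40 (.l 8385 .nil)))) (.node (.I .com (.c 651596688508328804762888218546121 (.c 18625 .nil)) .nil) (.I .com (.c 651596688508328804762888218546185 (.c 12993 .nil)) .nil)))) (.node (.node (.node (.I .adp (.c 18625 (.c 40 (.c 2306969673777850121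 .nil))) .nil) (.I .com (.c 42576872605845441665422493413917717513 (.c 12993 .nil)) .nil)) (.node (.I .com (.c 10064237431983265346846634953 (.c 18625 .nil)) .nil) (.I .com (.c 10064237431983265346846635017 (.c 12993 .nil)) .nil))) (.node (.node (.I .adp (.c 18625 (.c 40 (.c 9024839260612489 .nil))) .nil) (.I .jac (.c 2306970223667989193 (.c 24 (.c 48 .nil))) (.r 40 .nil))) (.node (.I .com (.c 42576892903125856676158477119718330377 (.c 12993 .nil)) .nil) (.I .com (.c 12929 (.c 18625 .nil)) (.l 2105609 .nil))))))))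

noncomputable def c4_69 : Tr := (.node (.node (.node (.node (.node (.node (.I .com (.c 18561 (.c 12993 .nil)) (.l 2105609 .nil)) (.I .com (.c 12865 (.c 18625 .nil)) (.l 33587465 .nil))) (.node (.I .jac (.c 12801 (.c 24 (.c 48 .nil))) (.r 35718409 .nil)) (.I .jac (.c 12929 (.c 24 (.c 48 .nil))) (.l 8257 (.l 0 .nil))))) (.node (.node (.I .jac (.c 18561 (.c 24 (.c 40 .nil))) (.l 8257 (.l 0 .nil))) (.I .jac (.c 20891651 (.c 8 (.c 48 .nil))) (.l 8385 .nil))) (.node (.I .tdb (.c 8 (.c 48 (.c 0 (.c 16 .nil)))) (.b 40 (.l 8385 .nil))) (.I .com (.c 545424521 (.c 18625 .nil)) (.l 12801 .nil))))) (.node (.node (.node (.I .ass (.c 12801 (.c 18625 (.c 35718409 .nil))) .nil) (.I .com (.c 545424521 (.c 12993 .nil)) (.l 18433 .nil))) (.node (.I .jac (.c 20685315 (.c 24 (.c 48 .nil))) (.l 8321 .nil)) (.I .jac (.c 42762755 (.c 24 (.c 40 .nil))) (.l 8321 .nil)))) (.node (.node (.I .jac (.c 20685315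 (.c 16 (.c 48 .nil))) (.l 8385 .nil)) (.I .jac (.c 42762755 (.c 16 (.c 40 .nil))) (.l 8385 .nil))) (.node (.I .jac (.c 35466557976521 (.c 32 (.c 48 .nil))) (.r 16 .nil)) (.I .jac (.c 33587529 (.c 32 (.c 48 .nil))) (.r 4673 .nil)))))) (.node (.node (.node (.node (.I .jac (.c 33587593 (.c 32 (.c 40 .nil))) (.r 4673 .nil)) (.I .jac (.c 9024839260612553 (.c 32 (.c 48 .nil))) (.r 24 .nil))) (.node (.I .jac (.c 169943433 (.c 32 (.c 40 .nil))) (.r 2113 .nil)) (.I .jac (.c 9024839260612617 (.c 32 (.c 40 .nil))) (.r 24 .nil)))) (.node (.node (.I .jac (.c 35464401931273 (.c 32 (.c 40 .nil))) (.r 24 .nil)) (.I .jac (.c 231045467270826953 (.c 32 (.c 48 .nil))) (.r 8 .nil))) (.node (.I .jac (.c 9024908047478729 (.c 32 (.c 48 .nil))) (.r 8 .nil)) (.I .jac (.c 2105737 (.c 32 (.c 40 .nil))) (.r 4737 .nil))))) (.node (.node (.node (.I .jac (.c 12865 (.c 32 (.c 48 .nil))) (.r 24 (.l 2049 .nil)))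 (.I .jac (.c 9024908047478473 (.c 32 (.c 48 .nil))) (.r 40 .nil))) (.node (.I .com (.c 651591722123533630921387187294217 (.c 13057 .nil)) .nil) (.I .jac (.c 231045293249046281 (.c 32 (.c 48 .nil))) (.r 40 .nil)))) (.node (.node (.I .jac (.c 9024839260612425 (.c 32 (.c 48 .nil))) (.r 40 .nil)) (.I .com (.c 427056063571157203537696782463438793 (.c 18689 .nil)) .nil)) (.node (.I .jac (.c 231045467270826697 (.c 32 (.c 48 .nil))) (.r 40 .nil)) (.I .com (.c 10061790434634094094990628809 (.c 18689 .nil)) .nil)))))) (.node (.node (.node (.node (.node (.I .com (.c 10061790434634094094990628873 (.c 13057 .nil)) .nil) (.I .com (.c 18561 (.c 13057 .nil)) (.l 2105545 .nil))) (.node (.I .com (.c 12993 (.c 18689 .nil)) (.l 2105481 .nil)) (.I .com (.c 12865 (.c 18689 .nil)) (.l 169943177 .nil)))) (.node (.node (.I .com (.c 18497 (.c 13057 .nil)) (.l 33587401 .nil)) (.I .jac (.c 12801 (.c 32 (.c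 48 .nil))) (.r 174695561 .nil))) (.node (.I .jac (.c 18433 (.c 32 (.c 40 .nil))) (.r 35718345 .nil)) (.I .jac (.c 12929 (.c 32 (.c 48 .nil))) (.l 4673 (.l 0 .nil)))))) (.node (.node (.node (.I .jac (.c 18561 (.c 32 (.c 40 .nil))) (.l 4673 (.l 0 .nil))) (.I .ass (.c 12801 (.c 18689 (.c 174695561 .nil))) .nil)) (.node (.I .com (.c 174695561 (.c 13057 .nil)) (.l 18433 .nil)) (.I .ass (.c 18433 (.c 13057 (.c 35718345 .nil))) .nil))) (.node (.node (.I .jac (.c 20685315 (.c 32 (.c 48 .nil))) (.l 4737 .nil)) (.I .jac (.c 42762755 (.c 32 (.c 40 .nil))) (.l 4737 .nil))) (.node (.I .com (.c 1310925001 (.c 2379905498923997961 .nil)) .nil) (.I .jac (.c 13748196208362033929 (.c 8 (.c 48 .nil))) (.r 24 .nil)))))) (.node (.node (.node (.node (.I .jac (.c 12801 (.c 18561 (.c 32 .nil))) (.l 4673 .nil)) (.I .jac (.c 12801 (.c 16 (.c 48 .nil))) (.b 32 (.l 4673 .nil)))) (.node (.I .com (.c 1512103191868961649950570808237977416713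 (.c 4673 .nil)) .nil) (.I .adp (.c 59109065668069837705 (.c 24 (.c 12865 .nil))) .nil))) (.node (.node (.I .adp (.c 9025011228269449 (.c 24 (.c 12865 .nil))) .nil) (.I .jac (.c 12801 (.c 16 (.c 32 .nil))) (.b 48 (.l 4673 .nil)))) (.node (.I .adp (.c 244149027818380041 (.c 32 (.c 12801 .nil))) .nil) (.I .jac (.c 1310924937 (.c 4673 (.c 48 .nil))) (.r 32 .nil))))) (.node (.node (.node (.I .jac (.c 1310924937 (.c 8 (.c 24 .nil))) (.b 48 (.r 32 .nil))) (.I .jac (.c 12801 (.c 174695817 (.c 16 .nil))) (.r 32 .nil))) (.node (.I .jac (.c 12801 (.c 4673 (.c 48 .nil))) (.b 16 (.r 32 .nil))) (.I .jac (.c 12801 (.c 8 (.c 24 .nil))) (.b 48 (.b 16 (.r 32 .nil)))))) (.node (.node (.I .jac (.c 13748194865974800137 (.c 8 (.c 48 .nil))) (.r 32 .nil)) (.I .adp (.c 10206511083363145 (.c 32 (.c 12801 .nil))) .nil)) (.node (.I .com (.c 1310925065 (.c 10206511083363145 .nil)) .nil) (.I .jac (.c 1310925001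 (.c 2113 (.c 48 .nil))) (.r 32 .nil))))))))

noncomputable def c4_70 : Tr := (.node (.node (.node (.node (.node (.node (.I .jac (.c 1310925001 (.c 8 (.c 16 .nil))) (.b 48 (.r 32 .nil))) (.I .jac (.c 12801 (.c 35718537 (.c 24 .nil))) (.r 32 .nil))) (.node (.I .jac (.c 12801 (.c 2113 (.c 48 .nil))) (.b 24 (.r 32 .nil))) (.I .jac (.c 12801 (.c 8 (.c 16 .nil))) (.b 48 (.b 24 (.r 32 .nil)))))) (.node (.node (.I .com (.c 1512102896582526821614077026536761750537 (.c 8257 .nil)) .nil) (.I .adp (.c 231046163358604041 (.c 32 (.c 12865 .nil))) .nil)) (.node (.I .adp (.c 59109065668069837641 (.c 32 (.c 12865 .nil))) .nil) (.I .jac (.c 59109065668069837641 (.c 8 (.c 40 .nil))) (.r 32 .nil))))) (.node (.node (.node (.I .adp (.c 9025011228269385 (.c 32 (.c 12865 .nil))) .nil) (.I .jac (.c 13748193523587631945 (.c 8 (.c 48 .nil))) (.r 32 .nil))) (.node (.I .com (.c 1512102601296135255437272766182275864585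 (.c 8257 .nil)) .nil) (.I .adp (.c 59109068451510808329 (.c 32 (.c 12865 .nil))) .nil))) (.node (.node (.I .jac (.c 59109068451510808329 (.c 8 (.c 40 .nil))) (.r 32 .nil)) (.I .jac (.c 12801 (.c 24 (.c 32 .nil))) (.l 2737112201 .nil))) (.node (.I .com (.c 13748196208362033993 (.c 2737112201 .nil)) .nil) (.I .com (.c 13748194865974800265 (.c 2737112201 .nil)) .nil))))) (.node (.node (.node (.node (.I .adp (.c 35718537 (.c 8385 (.c 12801 .nil))) .nil) (.I .jac (.c 12801 (.c 24 (.c 32 .nil))) (.l 35718537 .nil))) (.node (.I .com (.c 13748196208362033993 (.c 35718537 .nil)) .nil) (.I .com (.c 13748194865974800265 (.c 35718537 .nil)) .nil))) (.node (.node (.I .jac (.c 12801 (.c 16 (.c 48 .nil))) (.l 174695689 .nil)) (.I .com (.c 13748193523587632137 (.c 174695689 .nil)) .nil)) (.node (.I .jac (.c 12801 (.c 16 (.c 48 .nil))) (.r 24 (.l 8257 .nil))) (.I .jac (.c 12801 (.c 16 (.c 48 .nil)))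 (.r 32 (.l 4673 .nil)))))) (.node (.node (.node (.I .com (.c 1310925065 (.c 18561 .nil)) (.l 4673 .nil)) (.I .adp (.c 18561 (.c 32 (.c 12801 .nil))) (.l 4673 .nil))) (.node (.I .adp (.c 18561 (.c 32 (.c 12865 .nil))) (.l 4609 .nil)) (.I .jac (.c 12801 (.c 8321 (.c 24 .nil))) (.l 18497 .nil)))) (.node (.node (.I .com (.c 1512102896582526849770380112053152561929 (.c 18497 .nil)) .nil) (.I .com (.c 1512102601296135269515422934336011008841 (.c 18497 .nil)) .nil)) (.node (.I .com (.c 1512102896582526821614077026536761750409 (.c 18497 .nil)) .nil) (.I .com (.c 1310925193 (.c 244148670041477897 .nil)) .nil)))))) (.node (.node (.node (.node (.node (.I .com (.c 1310925193 (.c 2379903264864635721 .nil)) .nil) (.I .jac (.c 1310925065 (.c 16 (.c 24 .nil))) (.l 18497 .nil))) (.node (.I .jac (.c 12801 (.c 4737 (.c 32 .nil))) (.l 18497 .nil)) (.I .com (.c 1512102601296135255437272766182275864457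 (.c 18497 .nil)) .nil))) (.node (.node (.I .jac (.c 12801 (.c 16 (.c 32 .nil))) (.l 2737112265 .nil)) (.I .com (.c 13748196208362033929 (.c 2737112265 .nil)) .nil)) (.node (.I .com (.c 13748193523587632009 (.c 2737112265 .nil)) .nil) (.I .adp (.c 174695817 (.c 8321 (.c 12801 .nil))) .nil)))) (.node (.node (.node (.I .jac (.c 12801 (.c 24 (.c 48 .nil))) (.l 545424521 .nil)) (.I .jac (.c 12801 (.c 24 (.c 48 .nil))) (.l 35718409 .nil))) (.node (.I .com (.c 13748194865974800393 (.c 35718409 .nil)) .nil) (.I .com (.c 1310925001 (.c 8321 .nil)) (.l 18497 .nil)))) (.node (.node (.I .jac (.c 12801 (.c 16 (.c 32 .nil))) (.r 24 (.l 18497 .nil))) (.I .ass (.c 18497 (.c 1310925001 (.c 8321 .nil))) .nil)) (.node (.I .com (.c 18497 (.c 1310925001 .nil)) (.r 8321 .nil)) (.I .adp (.c 8321 (.c 48 (.c 12801 .nil))) (.l 4673 .nil)))))) (.node (.node (.node (.node (.I .adp (.c 8321 (.c 24 (.c 12865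 .nil))) (.l 18433 .nil)) (.I .jac (.c 12801 (.c 16 (.c 24 .nil))) (.l 2737112329 .nil))) (.node (.I .com (.c 13748194865974800137 (.c 2737112329 .nil)) .nil) (.I .com (.c 13748193523587631945 (.c 2737112329 .nil)) .nil))) (.node (.node (.I .jac (.c 12801 (.c 32 (.c 48 .nil))) (.l 174695561 .nil)) (.I .com (.c 13748196208362034185 (.c 174695561 .nil)) .nil)) (.node (.I .com (.c 13748196208362034185 (.c 35718345 .nil)) .nil) (.I .jac (.c 12801 (.c 16 (.c 24 .nil))) (.r 32 (.l 18497 .nil)))))) (.node (.node (.node (.I .adp (.c 4737 (.c 32 (.c 12865 .nil))) (.l 18433 .nil)) (.I .jac (.c 13748196208362033993 (.c 8 (.c 48 .nil))) (.r 16 .nil))) (.node (.I .jac (.c 1310925065 (.c 24 (.c 48 .nil))) (.l 2113 .nil)) (.I .jac (.c 12801 (.c 18625 (.c 32 .nil))) (.l 2113 .nil)))) (.node (.node (.I .jac (.c 12801 (.c 24 (.c 48 .nil))) (.b 32 (.l 2113 .nil))) (.I .com (.c 1512103191868961664028723725600700192777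 (.c 2113 .nil)) .nil)) (.node (.I .com (.c 231046163358604169 (.c 16 .nil)) (.b 12865 .nil)) (.I .com (.c 59109068451510808457 (.c 16 .nil)) (.b 12865 .nil))))))))

noncomputable def c4_71 : Tr := (.node (.node (.node (.node (.node (.node (.I .adp (.c 59109068451510808457 (.c 16 (.c 12865 .nil))) .nil) (.I .adp (.c 231046163358604169 (.c 16 (.c 12865 .nil))) .nil)) (.node (.I .jac (.c 12801 (.c 8385 (.c 48 .nil))) (.l 2113 .nil)) (.I .jac (.c 12801 (.c 24 (.c 32 .nil))) (.b 48 (.l 2113 .nil))))) (.node (.node (.I .com (.c 1310925065 (.c 18625 .nil)) (.l 2113 .nil)) (.I .adp (.c 18625 (.c 32 (.c 12801 .nil))) (.l 2113 .nil))) (.node (.I .adp (.c 18625 (.c 32 (.c 12865 .nil))) (.l 2049 .nil)) (.I .ass (.c 18497 (.c 1310924937 (.c 8385 .nil))) .nil)))) (.node (.node (.node (.I .com (.c 18497 (.c 1310924937 .nil)) (.r 8385 .nil)) (.I .tdb (.c 0 (.c 40 (.c 18497 (.c 16 .nil)))) (.l 8385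 .nil))) (.node (.I .tdb (.c 8 (.c 48 (.c 16 (.c 40 .nil)))) (.b 0 (.l 8385 .nil))) (.I .adp (.c 8385 (.c 48 (.c 12801 .nil))) (.l 2113 .nil)))) (.node (.node (.I .jac (.c 12865 (.c 24 (.c 32 .nil))) (.l 16 (.l 18433 .nil))) (.I .tdb (.c 0 (.c 48 (.c 16 (.c 40 .nil)))) (.b 8 (.l 8385 .nil)))) (.node (.I .tdb (.c 8 (.c 40 (.c 18433 (.c 16 .nil)))) (.l 8385 .nil)) (.I .adp (.c 16 (.c 18689 (.c 12865 .nil))) (.l 4609 .nil)))))) (.node (.node (.node (.node (.I .adp (.c 24 (.c 18689 (.c 12865 .nil))) (.l 2049 .nil)) (.I .jac (.c 169943305 (.c 8 (.c 48 .nil))) (.b 12929 .nil))) (.node (.I .jac (.c 8193 (.c 8 (.c 48 .nil))) (.b 24 (.b 12929 .nil))) (.I .jac (.c 4609 (.c 18497 (.c 32 .nil))) (.b 12929 .nil)))) (.node (.node (.I .jac (.c 4609 (.c 8 (.c 48 .nil))) (.b 32 (.b 12929 .nil))) (.I .jac (.c 169943433 (.c 8 (.c 32 .nil))) (.b 12929 .nil))) (.node (.I .jac (.c 4609 (.c 8257 (.c 48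 .nil))) (.b 12929 .nil)) (.I .jac (.c 4609 (.c 8 (.c 32 .nil))) (.b 48 (.b 12929 .nil)))))) (.node (.node (.node (.I .jac (.c 537002185 (.c 8 (.c 48 .nil))) (.b 12929 .nil)) (.I .jac (.c 8193 (.c 18497 (.c 24 .nil))) (.b 12929 .nil))) (.node (.I .jac (.c 537002377 (.c 8 (.c 24 .nil))) (.b 12929 .nil)) (.I .adp (.c 2306972423229201097 (.c 24 (.c 12929 .nil))) .nil))) (.node (.node (.I .jac (.c 2306972423229201097 (.c 16 (.c 40 .nil))) (.r 24 .nil)) (.I .adp (.c 59109062884628932489 (.c 24 (.c 12929 .nil))) .nil)) (.node (.I .adp (.c 35473026505609 (.c 24 (.c 12929 .nil))) .nil) (.I .jac (.c 4609 (.c 16 (.c 40 .nil))) (.r 2737112329 .nil))))))) (.node (.node (.node (.node (.node (.I .jac (.c 231046163358603977 (.c 16 (.c 40 .nil))) (.r 32 .nil)) (.I .jac (.c 59109062884628932425 (.c 16 (.c 40 .nil))) (.r 32 .nil))) (.node (.I .adp (.c 35473026505545 (.c 32 (.c 12929 .nil))) .nil)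 (.I .adp (.c 231045293249046537 (.c 32 (.c 12929 .nil))) .nil))) (.node (.node (.I .jac (.c 8193 (.c 16 (.c 40 .nil))) (.r 2737112265 .nil)) (.I .adp (.c 174695817 (.c 32 (.c 40 .nil))) (.b 2049 .nil))) (.node (.I .adp (.c 174695817 (.c 32 (.c 16 .nil))) (.b 12801 .nil)) (.I .adp (.c 174695817 (.c 32 (.c 0 .nil))) (.b 12929 .nil))))) (.node (.node (.node (.I .com (.c 8193 (.c 174695817 .nil)) (.b 12929 .nil)) (.I .jac (.c 18433 (.c 8 (.c 24 .nil))) (.r 32 (.b 12929 .nil)))) (.node (.I .jac (.c 0 (.c 4673 (.c 48 .nil))) (.r 32 (.b 12929 .nil))) (.I .jac (.c 0 (.c 8 (.c 24 .nil))) (.b 48 (.r 32 (.b 12929 .nil)))))) (.node (.node (.I .adp (.c 59109068451510808265 (.c 32 (.c 12929 .nil))) .nil) (.I .adp (.c 35466557976585 (.c 32 (.c 12929 .nil))) .nil)) (.node (.I .adp (.c 8193 (.c 174695817 (.c 12929 .nil))) .nil) (.I .jac (.c 537002185 (.c 16 (.c 40 .nil))) (.r 18497 .nil)))))) (.node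 (.node (.node (.node (.I .adp (.c 18497 (.c 24 (.c 12929 .nil))) (.l 8193 .nil)) (.I .jac (.c 1310925001 (.c 8321 (.c 48 .nil))) (.l 8 .nil))) (.node (.I .jac (.c 1310925001 (.c 16 (.c 32 .nil))) (.b 48 (.l 8 .nil))) (.I .com (.c 18291648502882414793990884575208062674675073637948631312895131832587142813795145 (.c 8 .nil)) .nil))) (.node (.node (.I .com (.c 18291634214772312189215281240800328714634050431995533489048656990682998460760905 (.c 8 .nil)) .nil) (.I .com (.c 18291641358826143115283479484929247917215886197188666885349800855484929441608713 (.c 8 .nil)) .nil)) (.node (.I .jac (.c 13748196208362033993 (.c 16 (.c 48 .nil))) (.l 8 .nil)) (.I .jac (.c 1310925065 (.c 16 (.c 48 .nil))) (.b 24 (.l 8 .nil)))))) (.node (.node (.node (.I .com (.c 18291648502882415134592803966624182683633491467101037772051102322018599703773961 (.c 8 .nil)) .nil) (.I .com (.c 18291648502882415134592803966624182677439916793205770796189449941958131714683913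 (.c 8 .nil)) .nil)) (.node (.I .jac (.c 1310925065 (.c 4737 (.c 48 .nil))) (.l 8 .nil)) (.I .jac (.c 1310925065 (.c 16 (.c 24 .nil))) (.b 48 (.l 8 .nil))))) (.node (.node (.I .jac (.c 12801 (.c 4737 (.c 48 .nil))) (.b 32 (.l 8 .nil))) (.I .jac (.c 12801 (.c 16 (.c 24 .nil))) (.b 48 (.b 32 (.l 8 .nil))))) (.node (.I .com (.c 18291648502882414793990884575208062670029892632527181124246978309680076189947913 (.c 8 .nil)) .nil) (.I .com (.c 18291634214772312189215281240800328709988871240813805941097277736402772641306633 (.c 8 .nil)) .nil)))))))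

noncomputable def c4_72 : Tr := (.node (.node (.node (.node (.node (.node (.I .com (.c 2306972423229201225 (.c 8 .nil)) (.b 12929 .nil)) (.I .adp (.c 2306972423229201225 (.c 8 (.c 12929 .nil))) .nil)) (.node (.I .jac (.c 8 (.c 16 (.c 40 .nil))) (.l 59109068451510808457 .nil)) (.I .jac (.c 13748194865974800265 (.c 16 (.c 48 .nil))) (.l 8 .nil)))) (.node (.node (.I .jac (.c 12801 (.c 18561 (.c 32 .nil))) (.b 24 (.l 8 .nil))) (.I .jac (.c 12801 (.c 16 (.c 48 .nil))) (.b 32 (.b 24 (.l 8 .nil))))) (.node (.I .com (.c 18291641358826143115283479484929247923409459661590696862009277794454642335793929 (.c 8 .nil)) .nil) (.I .adp (.c 8 (.c 18625 (.c 12929 .nil))) (.l 8193 .nil))))) (.node (.node (.node (.I .jac (.c 0 (.c 43954755 (.c 16 .nil))) (.l 8385 .nil)) (.I .jac (.c 8 (.c 16 (.c 40 .nil))) (.l 15038410136445257 .nil))) (.node (.I .jac (.c 0 (.c 8 (.c 40 .nil))) (.r 2454554348984163145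 .nil)) (.I .jac (.c 0 (.c 16 (.c 40 .nil))) (.r 2379905498923998025 .nil)))) (.node (.node (.I .jac (.c 0 (.c 16 (.c 40 .nil))) (.r 244149027818380169 .nil)) (.I .adp (.c 12865 (.c 16 (.c 2306972423229201225 .nil))) .nil)) (.node (.I .adp (.c 16 (.c 40 (.c 8 .nil))) (.b 59109068451510808457 .nil)) (.I .com (.c 12865 (.c 16 .nil)) (.b 59109068451510808457 .nil)))))) (.node (.node (.node (.node (.I .adp (.c 12865 (.c 16 (.c 59109068451510808457 .nil))) .nil) (.I .com (.c 27951055785643122908012690443949941766921 (.c 12865 .nil)) .nil)) (.node (.I .adp (.c 2113 (.c 40 (.c 59109068451510808457 .nil))) .nil) (.I .com (.c 27951055785643122908012690443949941767113 (.c 2113 .nil)) .nil))) (.node (.node (.I .adp (.c 16 (.c 40 (.c 8 .nil))) (.b 231046163358604169 .nil)) (.I .com (.c 12865 (.c 16 .nil)) (.b 231046163358604169 .nil))) (.node (.I .adp (.c 12865 (.c 16 (.c 231046163358604169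 .nil))) .nil) (.I .adp (.c 2113 (.c 40 (.c 231046163358604169 .nil))) .nil)))) (.node (.node (.node (.I .adp (.c 2113 (.c 40 (.c 2306970773558194185 .nil))) .nil) (.I .adp (.c 2113 (.c 40 (.c 59109071234951844681 .nil))) .nil)) (.node (.I .com (.c 27951058418068892742902176168037983934409 (.c 2113 .nil)) .nil) (.I .adp (.c 12865 (.c 16 (.c 231045815314584585 .nil))) .nil))) (.node (.node (.I .jac (.c 1310924937 (.c 24 (.c 48 .nil))) (.l 8257 .nil)) (.I .jac (.c 16 (.c 24 (.c 48 .nil))) (.l 8257 (.l 12801 .nil)))) (.node (.I .jac (.c 0 (.c 20891715 (.c 32 .nil))) (.l 18625 .nil)) (.I .tdb (.c 0 (.c 16 (.c 40 (.c 8257 .nil)))) (.l 18625 .nil))))))) (.node (.node (.node (.node (.node (.I .tdb (.c 8 (.c 32 (.c 0 (.c 40 .nil)))) (.b 16 (.l 18625 .nil))) (.I .tdb (.c 8 (.c 32 (.c 16 (.c 40 .nil)))) (.b 0 (.l 18625 .nil)))) (.node (.I .ass (.c 12865 (.c 2718204105 (.c 8321 .nil))) .nil)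 (.I .com (.c 12865 (.c 2718204105 .nil)) (.r 8321 .nil)))) (.node (.node (.I .jac (.c 16 (.c 24 (.c 48 .nil))) (.l 8193 (.l 12865 .nil))) (.I .ass (.c 12865 (.c 8193 (.c 2756085961 .nil))) .nil)) (.node (.I .ass (.c 8193 (.c 12865 (.c 2756085961 .nil))) .nil) (.I .com (.c 12865 (.c 8193 .nil)) (.r 2756085961 .nil))))) (.node (.node (.node (.I .ass (.c 12865 (.c 8193 (.c 179513737 .nil))) .nil) (.I .ass (.c 8193 (.c 12865 (.c 179513737 .nil))) .nil)) (.node (.I .com (.c 12865 (.c 8193 .nil)) (.r 179513737 .nil)) (.I .tdb (.c 0 (.c 32 (.c 8 (.c 40 .nil)))) (.b 16 (.l 18625 .nil))))) (.node (.node (.I .tdb (.c 0 (.c 32 (.c 16 (.c 40 .nil)))) (.b 8 (.l 18625 .nil))) (.I .tdb (.c 8 (.c 16 (.c 40 (.c 8193 .nil)))) (.l 18625 .nil))) (.node (.I .jac (.c 1310924937 (.c 24 (.c 32 .nil))) (.l 18497 .nil)) (.I .ass (.c 13748198893136698057 (.c 8385 (.c 16 .nil))) .nil))))) (.node (.node (.node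 (.node (.I .com (.c 16 (.c 8385 .nil)) (.l 13748198893136698057 .nil)) (.I .ass (.c 13748192181200529417 (.c 8385 (.c 16 .nil))) .nil)) (.node (.I .com (.c 16 (.c 8385 .nil)) (.l 13748192181200529417 .nil)) (.I .jac (.c 16 (.c 24 (.c 32 .nil))) (.l 18433 (.l 12865 .nil))))) (.node (.node (.I .ass (.c 12865 (.c 18433 (.c 553912521 .nil))) .nil) (.I .com (.c 12865 (.c 18433 .nil)) (.r 553912521 .nil))) (.node (.I .ass (.c 59109074018392946377 (.c 8385 (.c 16 .nil))) .nil) (.I .com (.c 16 (.c 8385 .nil)) (.l 59109074018392946377 .nil))))) (.node (.node (.node (.I .ass (.c 59109062884628932553 (.c 8385 (.c 16 .nil))) .nil) (.I .com (.c 16 (.c 8385 .nil)) (.l 59109062884628932553 .nil))) (.node (.I .jac (.c 1310924937 (.c 32 (.c 48 .nil))) (.l 4673 .nil)) (.I .jac (.c 1324065929 (.c 32 (.c 48 .nil))) (.l 4609 .nil)))) (.node (.node (.I .tdb (.c 0 (.c 16 (.c 4673 (.c 40 .nil)))) (.l 18689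 .nil)) (.I .tdb (.c 8 (.c 24 (.c 40 (.c 0 .nil)))) (.b 16 (.l 18689 .nil)))) (.node (.I .tdb (.c 8 (.c 24 (.c 40 (.c 16 .nil)))) (.b 0 (.l 18689 .nil))) (.I .ass (.c 12865 (.c 2718204169 (.c 4737 .nil))) .nil)))))))

noncomputable def c4_73 : Tr := (.node (.node (.node (.node (.node (.node (.I .com (.c 12865 (.c 2718204169 .nil)) (.r 4737 .nil)) (.I .jac (.c 16 (.c 32 (.c 48 .nil))) (.l 4609 (.l 12865 .nil)))) (.node (.I .ass (.c 12865 (.c 4609 (.c 2756086025 .nil))) .nil) (.I .ass (.c 4609 (.c 12865 (.c 2756086025 .nil))) .nil))) (.node (.node (.I .com (.c 12865 (.c 4609 .nil)) (.r 2756086025 .nil)) (.I .tdb (.c 0 (.c 24 (.c 2113 (.c 40 .nil)))) (.l 18689 .nil))) (.node (.I .tdb (.c 8 (.c 16 (.c 40 (.c 0 .nil)))) (.b 24 (.l 18689 .nil))) (.I .tdb (.c 8 (.c 16 (.c 40 (.c 24 .nil)))) (.b 0 (.l 18689 .nil)))))) (.node (.node (.node (.I .com (.c 13748193523587632009 (.c 24 .nil)) (.l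 18497 .nil)) (.I .com (.c 13748193523587632137 (.c 24 .nil)) (.l 8257 .nil))) (.node (.I .com (.c 13748193523587632137 (.c 32 .nil)) (.l 4673 .nil)) (.I .com (.c 14025204674709064585 (.c 24 .nil)) (.l 18433 .nil)))) (.node (.node (.I .com (.c 14025204674709064713 (.c 32 .nil)) (.l 4609 .nil)) (.I .jac (.c 13748196208362033993 (.c 16 (.c 48 .nil))) (.r 8 .nil))) (.node (.I .adp (.c 8 (.c 12929 (.c 2306972423229201225 .nil))) .nil) (.I .adp (.c 8 (.c 40 (.c 16 .nil))) (.b 2306970773558194185 .nil)))))) (.node (.node (.node (.node (.I .adp (.c 8 (.c 12929 (.c 2306970773558194185 .nil))) .nil) (.I .jac (.c 13748194865974800265 (.c 16 (.c 48 .nil))) (.r 8 .nil))) (.node (.I .adp (.c 8 (.c 40 (.c 16 .nil))) (.b 59109071234951844681 .nil)) (.I .adp (.c 8 (.c 12929 (.c 59109071234951844681 .nil))) .nil))) (.node (.node (.I .adp (.c 8 (.c 12929 (.c 231045815314584585 .nil))) .nil) (.I .com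 (.c 13748192181200529289 (.c 2756085961 .nil)) .nil)) (.node (.I .com (.c 1512102306009786923259633531360632805385 (.c 8321 .nil)) .nil) (.I .jac (.c 8 (.c 24 (.c 48 .nil))) (.l 13748196208362033929 .nil))))) (.node (.node (.node (.I .jac (.c 8 (.c 24 (.c 48 .nil))) (.l 13748193523587632009 .nil)) (.I .tdb (.c 0 (.c 8 (.c 40 (.c 8321 .nil)))) (.l 18625 .nil))) (.node (.I .tdb (.c 16 (.c 32 (.c 0 (.c 40 .nil)))) (.b 8 (.l 18625 .nil))) (.I .tdb (.c 16 (.c 32 (.c 8 (.c 40 .nil)))) (.b 0 (.l 18625 .nil))))) (.node (.node (.I .jac (.c 1310924873 (.c 24 (.c 32 .nil))) (.l 18561 .nil)) (.I .jac (.c 20685315 (.c 24 (.c 32 .nil))) (.l 18561 .nil))) (.node (.I .jac (.c 8 (.c 16 (.c 48 .nil))) (.l 13748196208362033993 .nil)) (.I .jac (.c 13748192181200529289 (.c 16 (.c 48 .nil))) (.r 24 .nil))))))) (.node (.node (.node (.node (.node (.I .jac (.c 8 (.c 16 (.c 32 .nil))) (.b 48 (.l 1310925001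 .nil))) (.I .jac (.c 8 (.c 32 (.c 48 .nil))) (.l 13748194865974800137 .nil))) (.node (.I .tdb (.c 0 (.c 8 (.c 4737 (.c 40 .nil)))) (.l 18689 .nil)) (.I .tdb (.c 16 (.c 24 (.c 40 (.c 0 .nil)))) (.b 8 (.l 18689 .nil))))) (.node (.node (.I .tdb (.c 16 (.c 24 (.c 40 (.c 8 .nil)))) (.b 0 (.l 18689 .nil))) (.I .com (.c 13748192181200529417 (.c 32 .nil)) (.l 4737 .nil))) (.node (.I .jac (.c 537002185 (.c 16 (.c 48 .nil))) (.r 12865 .nil)) (.I .jac (.c 169943305 (.c 16 (.c 48 .nil))) (.r 12865 .nil))))) (.node (.node (.node (.I .ass (.c 33587465 (.c 18625 (.c 12865 .nil))) .nil) (.I .ass (.c 2105609 (.c 18625 (.c 12929 .nil))) .nil)) (.node (.I .ass (.c 537002185 (.c 18561 (.c 12865 .nil))) .nil) (.I .ass (.c 169943305 (.c 18561 (.c 12865 .nil))) .nil))) (.node (.node (.I .ass (.c 2105737 (.c 8385 (.c 12929 .nil))) .nil) (.I .com (.c 12929 (.c 8385 .nil)) (.l 2105737 .nil))) (.node (.I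 .ass (.c 169943177 (.c 18689 (.c 12865 .nil))) .nil) (.I .adp (.c 8 (.c 16 (.c 40 .nil))) (.b 2306972423229201225 .nil)))))) (.node (.node (.node (.node (.I .adp (.c 8 (.c 16 (.c 40 .nil))) (.b 231045815314584585 .nil)) (.I .tdb (.c 513 (.c 16 (.c 24 (.c 32 .nil)))) (.b 18753 .nil))) (.node (.I .tdb (.c 0 (.c 8 (.c 24 (.c 32 .nil)))) (.b 16 (.b 18753 .nil))) (.I .tdb (.c 8 (.c 2049 (.c 24 (.c 32 .nil)))) (.b 18753 .nil)))) (.node (.node (.I .tdb (.c 0 (.c 16 (.c 32 (.c 24 .nil)))) (.b 8 (.b 18753 .nil))) (.I .com (.c 9025011228269449 (.c 24 .nil)) (.b 12865 .nil))) (.node (.I .com (.c 35473026505609 (.c 24 .nil)) (.b 12929 .nil)) (.I .jac (.c 33587465 (.c 8 (.c 48 .nil))) (.b 12993 .nil))))) (.node (.node (.node (.I .jac (.c 8193 (.c 2113 (.c 48 .nil))) (.b 12993 .nil)) (.I .jac (.c 8193 (.c 8 (.c 16 .nil))) (.b 48 (.b 12993 .nil)))) (.node (.I .adp (.c 2306972423229201097 (.c 16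 (.c 12993 .nil))) .nil) (.I .adp (.c 59109062884628932489 (.c 16 (.c 12993 .nil))) .nil))) (.node (.node (.I .adp (.c 35473026505609 (.c 16 (.c 12993 .nil))) .nil) (.I .jac (.c 2049 (.c 24 (.c 40 .nil))) (.r 2737112329 .nil))) (.node (.I .jac (.c 59109071234951844553 (.c 24 (.c 40 .nil))) (.r 16 .nil)) (.I .jac (.c 2049 (.c 24 (.c 40 .nil))) (.r 545424777 .nil))))))))

noncomputable def c4_74 : Tr := (.node (.node (.node (.node (.node (.node (.I .jac (.c 9025011228269257 (.c 24 (.c 40 .nil))) (.r 32 .nil)) (.I .jac (.c 59109062884628932361 (.c 24 (.c 40 .nil))) (.r 32 .nil))) (.node (.I .adp (.c 35473026505481 (.c 32 (.c 12993 .nil))) .nil) (.I .adp (.c 9024839260612617 (.c 32 (.c 12993 .nil))) .nil))) (.node (.node (.I .jac (.c 2737112201 (.c 24 (.c 40 .nil))) (.l 8193 .nil)) (.I .adp (.c 35718537 (.c 32 (.c 40 .nil))) (.b 4609 .nil))) (.node (.I .adp (.c 35718537 (.c 32 (.c 24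 .nil))) (.b 12801 .nil)) (.I .adp (.c 35718537 (.c 32 (.c 0 .nil))) (.b 12993 .nil))))) (.node (.node (.node (.I .com (.c 8193 (.c 35718537 .nil)) (.b 12993 .nil)) (.I .jac (.c 18433 (.c 8 (.c 16 .nil))) (.r 32 (.b 12993 .nil)))) (.node (.I .jac (.c 0 (.c 2113 (.c 48 .nil))) (.r 32 (.b 12993 .nil))) (.I .jac (.c 0 (.c 8 (.c 16 .nil))) (.b 48 (.r 32 (.b 12993 .nil)))))) (.node (.node (.I .adp (.c 59109065668069837513 (.c 32 (.c 12993 .nil))) .nil) (.I .adp (.c 35464401931273 (.c 32 (.c 12993 .nil))) .nil)) (.node (.I .adp (.c 8193 (.c 35718537 (.c 12993 .nil))) .nil) (.I .jac (.c 8193 (.c 24 (.c 40 .nil))) (.r 35718537 .nil)))))) (.node (.node (.node (.node (.I .jac (.c 16 (.c 24 (.c 40 .nil))) (.l 580749782704585 .nil)) (.I .adp (.c 18497 (.c 16 (.c 12993 .nil))) (.l 8193 .nil))) (.node (.I .jac (.c 2105609 (.c 24 (.c 40 .nil))) (.r 18561 .nil)) (.I .jac (.c 16 (.c 24 (.c 40 .nil)))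 (.l 14629225721520457 .nil)))) (.node (.node (.I .jac (.c 16 (.c 24 (.c 40 .nil))) (.l 8257 (.l 18433 .nil))) (.I .adp (.c 2113 (.c 32 (.c 12993 .nil))) (.l 18433 .nil))) (.node (.I .com (.c 2306972423229201161 (.c 8 .nil)) (.b 12993 .nil)) (.I .adp (.c 2306972423229201161 (.c 8 (.c 12993 .nil))) .nil)))) (.node (.node (.node (.I .jac (.c 2306972423229201161 (.c 24 (.c 40 .nil))) (.r 8 .nil)) (.I .jac (.c 8 (.c 24 (.c 40 .nil))) (.l 59109065668069837705 .nil))) (.node (.I .jac (.c 513 (.c 24 (.c 40 .nil))) (.r 2756086025 .nil)) (.I .jac (.c 513 (.c 24 (.c 40 .nil))) (.r 553912713 .nil)))) (.node (.node (.I .adp (.c 8 (.c 18561 (.c 12993 .nil))) (.l 8193 .nil)) (.I .jac (.c 8 (.c 24 (.c 40 .nil))) (.r 18561 (.l 8193 .nil)))) (.node (.I .jac (.c 8 (.c 24 (.c 40 .nil))) (.l 14832759703961929 .nil)) (.I .adp (.c 8 (.c 8321 (.c 12993 .nil))) (.l 18433 .nil))))))) (.node (.node (.node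 (.node (.node (.I .jac (.c 8 (.c 24 (.c 40 .nil))) (.r 8321 (.l 18433 .nil))) (.I .tdb (.c 0 (.c 48 (.c 8 (.c 40 .nil)))) (.b 24 (.l 8321 .nil)))) (.node (.I .tdb (.c 48 (.c 8193 (.c 8 (.c 16 .nil)))) (.b 12993 .nil)) (.I .tdb (.c 0 (.c 32 (.c 8 (.c 16 .nil)))) (.b 48 (.b 12993 .nil))))) (.node (.node (.I .tdb (.c 8 (.c 48 (.c 0 (.c 40 .nil)))) (.b 24 (.l 8321 .nil))) (.I .adp (.c 12865 (.c 24 (.c 2306972423229201161 .nil))) .nil)) (.node (.I .adp (.c 24 (.c 40 (.c 8 .nil))) (.b 59109065668069837705 .nil)) (.I .com (.c 12865 (.c 24 .nil)) (.b 59109065668069837705 .nil))))) (.node (.node (.node (.I .adp (.c 12865 (.c 24 (.c 59109065668069837705 .nil))) .nil) (.I .adp (.c 4673 (.c 40 (.c 59109065668069837705 .nil))) .nil)) (.node (.I .adp (.c 24 (.c 40 (.c 8 .nil))) (.b 9025011228269449 .nil)) (.I .com (.c 12865 (.c 24 .nil)) (.b 9025011228269449 .nil)))) (.node (.node (.I .adp (.c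 12865 (.c 24 (.c 9025011228269449 .nil))) .nil) (.I .adp (.c 4673 (.c 40 (.c 9025011228269449 .nil))) .nil)) (.node (.I .adp (.c 4673 (.c 40 (.c 2306970223667989513 .nil))) .nil) (.I .adp (.c 4673 (.c 40 (.c 59109071234951844617 .nil))) .nil))))) (.node (.node (.node (.node (.I .com (.c 27951058418068892682374487223447295013833 (.c 4673 .nil)) .nil) (.I .adp (.c 12865 (.c 24 (.c 9024942441010185 .nil))) .nil)) (.node (.I .jac (.c 8193 (.c 16 (.c 48 .nil))) (.b 21099075 .nil)) (.I .tdb (.c 0 (.c 24 (.c 40 (.c 18497 .nil)))) (.l 8321 .nil)))) (.node (.node (.I .jac (.c 18433 (.c 16 (.c 32 .nil))) (.b 21099075 .nil)) (.I .tdb (.c 8 (.c 24 (.c 40 (.c 18433 .nil)))) (.l 8321 .nil))) (.node (.I .jac (.c 1310925001 (.c 32 (.c 48 .nil))) (.l 2113 .nil)) (.I .jac (.c 1324065993 (.c 32 (.c 48 .nil))) (.l 2049 .nil))))) (.node (.node (.node (.I .jac (.c 24 (.c 32 (.c 48 .nil))) (.l 2113 (.l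 12801 .nil))) (.I .ass (.c 12865 (.c 2049 (.c 562466185 .nil))) .nil)) (.node (.I .ass (.c 2049 (.c 12865 (.c 562466185 .nil))) .nil) (.I .com (.c 12865 (.c 2049 .nil)) (.r 562466185 .nil)))) (.node (.node (.I .tdb (.c 24 (.c 12801 (.c 16 (.c 32 .nil)))) (.b 18497 .nil)) (.I .tdb (.c 4609 (.c 40 (.c 16 (.c 32 .nil)))) (.b 18497 .nil))) (.node (.I .tdb (.c 0 (.c 24 (.c 32 (.c 16 .nil)))) (.b 40 (.b 18497 .nil))) (.I .com (.c 14025206030552608777 (.c 32 .nil)) (.l 2049 .nil))))))))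

noncomputable def c4_75 : Tr := (.node (.node (.node (.node (.node (.node (.I .adp (.c 8 (.c 12993 (.c 2306972423229201161 .nil))) .nil) (.I .jac (.c 2306972423229201161 (.c 24 (.c 40 .nil))) (.l 8 .nil))) (.node (.I .jac (.c 59109065668069837705 (.c 24 (.c 40 .nil))) (.l 8 .nil)) (.I .adp (.c 8 (.c 40 (.c 24 .nil))) (.b 2306970223667989513 .nil)))) (.node (.node (.I .adp (.c 8 (.c 12993 (.c 2306970223667989513 .nil))) .nil) (.I .adp (.c 8 (.c 40 (.c 24 .nil))) (.b 59109071234951844617 .nil))) (.node (.I .adp (.c 8 (.c 12993 (.c 59109071234951844617 .nil))) .nil) (.I .adp (.c 8 (.c 12993 (.c 9024942441010185 .nil))) .nil)))) (.node (.node (.node (.I .jac (.c 1310924873 (.c 24 (.c 48 .nil))) (.b 32 (.l 16 .nil))) (.I .com (.c 18291627070720922696274976743898254764368868198737022773233475155738302282318665 (.c 16 .nil)) .nil)) (.node (.I .com (.c 18291627070720922355673356662700498568884113625775573273225141993518842279986057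 (.c 16 .nil)) .nil) (.I .com (.c 18291627070720922696274976743898254759723689914674957301731807853614859805906953 (.c 16 .nil)) .nil))) (.node (.node (.I .jac (.c 1310924873 (.c 24 (.c 32 .nil))) (.b 48 (.l 16 .nil))) (.I .com (.c 18291627070720922355673356662700498565787328103067529654389412521292266294688777 (.c 16 .nil)) .nil)) (.node (.I .jac (.c 18497 (.c 24 (.c 32 .nil))) (.l 16 (.l 12801 .nil))) (.I .ass (.c 59109071234951844553 (.c 16 (.c 12993 .nil))) .nil))))) (.node (.node (.node (.node (.I .ass (.c 2306972423229201097 (.c 16 (.c 12993 .nil))) .nil) (.I .com (.c 13748192181200529417 (.c 8385 .nil)) (.l 16 .nil))) (.node (.I .ass (.c 16 (.c 13748192181200529417 (.c 8385 .nil))) .nil) (.I .com (.c 16 (.c 13748192181200529417 .nil)) (.r 8385 .nil)))) (.node (.node (.I .ass (.c 59109062884628932489 (.c 16 (.c 12993 .nil))) .nil) (.I .ass (.c 2105481 (.c 18689 (.c 12993 .nil)))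 .nil)) (.node (.I .jac (.c 0 (.c 8 (.c 24 .nil))) (.b 15246281046235529 .nil)) (.I .adp (.c 8 (.c 24 (.c 40 .nil))) (.b 2306972423229201161 .nil))))) (.node (.node (.node (.I .adp (.c 8 (.c 24 (.c 40 .nil))) (.b 9024942441010185 .nil)) (.I .ass (.c 16 (.c 231045293249046409 (.c 18753 .nil))) .nil)) (.node (.I .ass (.c 231045293249046409 (.c 16 (.c 18753 .nil))) .nil) (.I .com (.c 16 (.c 231045293249046409 .nil)) (.r 18753 .nil)))) (.node (.node (.I .com (.c 35473026505609 (.c 16 .nil)) (.b 12993 .nil)) (.I .com (.c 42576974092320097194025833638928027465 (.c 12929 .nil)) .nil)) (.node (.I .adp (.c 24 (.c 40 (.c 16 .nil))) (.b 59109062884628932489 .nil)) (.I .com (.c 12929 (.c 24 .nil)) (.b 59109062884628932489 .nil))))))) (.node (.node (.node (.node (.node (.I .adp (.c 12929 (.c 24 (.c 59109062884628932489 .nil))) .nil) (.I .adp (.c 24 (.c 40 (.c 16 .nil))) (.b 35473026505609 .nil)))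 (.node (.I .com (.c 12929 (.c 24 .nil)) (.b 35473026505609 .nil)) (.I .adp (.c 12929 (.c 24 (.c 35473026505609 .nil))) .nil))) (.node (.node (.I .adp (.c 24 (.c 40 (.c 16 .nil))) (.b 2306969673777850377 .nil)) (.I .com (.c 12929 (.c 24 .nil)) (.b 2306969673777850377 .nil))) (.node (.I .adp (.c 12929 (.c 24 (.c 2306969673777850377 .nil))) .nil) (.I .com (.c 27951058418068892621846798278856606158793 (.c 4737 .nil)) .nil)))) (.node (.node (.node (.I .ass (.c 12929 (.c 537002185 (.c 18497 .nil))) .nil) (.I .ass (.c 537002185 (.c 12929 (.c 18497 .nil))) .nil)) (.node (.I .com (.c 12929 (.c 537002185 .nil)) (.r 18497 .nil)) (.I .ass (.c 12929 (.c 8193 (.c 2737112265 .nil))) .nil))) (.node (.node (.I .ass (.c 8193 (.c 12929 (.c 2737112265 .nil))) .nil) (.I .com (.c 12929 (.c 8193 .nil)) (.r 2737112265 .nil))) (.node (.I .tdb (.c 0 (.c 32 (.c 18497 (.c 40 .nil)))) (.l 4737 .nil)) (.I .tdb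 (.c 8 (.c 48 (.c 0 (.c 40 .nil)))) (.b 32 (.l 4737 .nil))))))) (.node (.node (.node (.node (.I .ass (.c 12929 (.c 2718204105 (.c 8257 .nil))) .nil) (.I .com (.c 12929 (.c 2718204105 .nil)) (.r 8257 .nil))) (.node (.I .ass (.c 12929 (.c 18433 (.c 545424585 .nil))) .nil) (.I .com (.c 12929 (.c 18433 .nil)) (.r 545424585 .nil)))) (.node (.node (.I .tdb (.c 0 (.c 48 (.c 8 (.c 40 .nil)))) (.b 32 (.l 4737 .nil))) (.I .tdb (.c 8 (.c 32 (.c 18433 (.c 40 .nil)))) (.l 4737 .nil))) (.node (.I .jac (.c 1337272521 (.c 32 (.c 48 .nil))) (.l 513 .nil)) (.I .ass (.c 12929 (.c 2718204169 (.c 4673 .nil))) .nil)))) (.node (.node (.node (.I .com (.c 12929 (.c 2718204169 .nil)) (.r 4673 .nil)) (.I .ass (.c 12929 (.c 537002377 (.c 4673 .nil))) .nil)) (.node (.I .com (.c 12929 (.c 537002377 .nil)) (.r 4673 .nil)) (.I .tdb (.c 24 (.c 12801 (.c 8 (.c 32 .nil)))) (.b 18561 .nil)))) (.node (.node (.I .tdb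 (.c 4609 (.c 40 (.c 8 (.c 32 .nil)))) (.b 18561 .nil)) (.I .tdb (.c 0 (.c 24 (.c 32 (.c 8 .nil)))) (.b 40 (.b 18561 .nil)))) (.node (.I .jac (.c 2306972423229201097 (.c 24 (.c 40 .nil))) (.l 16 .nil)) (.I .adp (.c 16 (.c 40 (.c 24 .nil))) (.b 59109062884628932489 .nil))))))))

noncomputable def c4_76 : Tr := (.node (.node (.node (.node (.node (.node (.I .adp (.c 16 (.c 12993 (.c 59109062884628932489 .nil))) .nil) (.I .adp (.c 16 (.c 40 (.c 24 .nil))) (.b 35473026505609 .nil))) (.node (.I .adp (.c 16 (.c 12993 (.c 35473026505609 .nil))) .nil) (.I .adp (.c 16 (.c 40 (.c 24 .nil))) (.b 2306969673777850377 .nil)))) (.node (.node (.I .adp (.c 16 (.c 12993 (.c 2306969673777850377 .nil))) .nil) (.I .jac (.c 59109071234951844553 (.c 24 (.c 40 .nil))) (.l 16 .nil))) (.node (.I .com (.c 6250093333522399248956982637364085055414223704215283955664159904225520786649734985 (.c 16 .nil)) .nil)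 (.I .com (.c 6250093333522399248956982637364085055356979936575078863574617661350422457236658121 (.c 16 .nil)) .nil)))) (.node (.node (.node (.I .jac (.c 13748193523587632009 (.c 24 (.c 48 .nil))) (.l 8 .nil)) (.I .jac (.c 1310924937 (.c 24 (.c 48 .nil))) (.b 32 (.l 8 .nil)))) (.node (.I .jac (.c 0 (.c 12865 (.c 24 .nil))) (.r 553912713 .nil)) (.I .jac (.c 0 (.c 8 (.c 40 .nil))) (.b 24 (.r 553912713 .nil))))) (.node (.node (.I .jac (.c 0 (.c 4673 (.c 40 .nil))) (.r 553912713 .nil)) (.I .jac (.c 0 (.c 8 (.c 24 .nil))) (.b 40 (.r 553912713 .nil)))) (.node (.I .jac (.c 43356675 (.c 16 (.c 32 .nil))) (.l 12865 .nil)) (.I .ass (.c 12929 (.c 4609 (.c 2737112329 .nil))) .nil))))) (.node (.node (.node (.node (.I .ass (.c 4609 (.c 12929 (.c 2737112329 .nil))) .nil) (.I .com (.c 12929 (.c 4609 .nil)) (.r 2737112329 .nil))) (.node (.I .jac (.c 43356675 (.c 8 (.c 32 .nil))) (.l 12929 .nil))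 (.I .ass (.c 12929 (.c 4609 (.c 545424777 .nil))) .nil))) (.node (.node (.I .ass (.c 4609 (.c 12929 (.c 545424777 .nil))) .nil) (.I .com (.c 12929 (.c 4609 .nil)) (.r 545424777 .nil))) (.node (.I .jac (.c 43954691 (.c 8 (.c 32 .nil))) (.l 4737 .nil)) (.I .jac (.c 43059203 (.c 24 (.c 32 .nil))) (.l 12865 .nil))))) (.node (.node (.node (.I .adp (.c 8 (.c 40 (.c 2718204169 .nil))) (.b 4737 .nil)) (.I .jac (.c 8786435 (.c 8 (.c 16 .nil))) (.b 18753 .nil))) (.node (.I .adp (.c 8 (.c 24 (.c 537002377 .nil))) (.b 12929 .nil)) (.I .adp (.c 8 (.c 16 (.c 537002377 .nil))) (.b 12993 .nil)))) (.node (.node (.I .com (.c 59109071234951844681 (.c 1324065929 .nil)) .nil) (.I .com (.c 59109071234951844681 (.c 35718473 .nil)) .nil)) (.node (.I .jac (.c 2718204169 (.c 16 (.c 40 .nil))) (.l 4673 .nil)) (.I .jac (.c 2718204169 (.c 16 (.c 24 .nil))) (.l 12865 .nil))))))) (.node (.node (.node (.node (.node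 (.I .com (.c 59109071234951844809 (.c 174695561 .nil)) .nil) (.I .com (.c 59109071234951844617 (.c 1324065993 .nil)) .nil)) (.node (.I .jac (.c 2718204169 (.c 24 (.c 40 .nil))) (.l 2113 .nil)) (.I .adp (.c 18497 (.c 32 (.c 13748193523587631945 .nil))) .nil))) (.node (.node (.I .adp (.c 18497 (.c 32 (.c 231045467270826953 .nil))) .nil) (.I .adp (.c 18497 (.c 32 (.c 13748194865974800137 .nil))) .nil)) (.node (.I .adp (.c 18497 (.c 32 (.c 9024908047478729 .nil))) .nil) (.I .jac (.c 18433 (.c 16 (.c 40 .nil))) (.r 32 (.l 4673 .nil)))))) (.node (.node (.node (.I .adp (.c 8193 (.c 48 (.c 12929 .nil))) (.l 4673 .nil)) (.I .adp (.c 8193 (.c 48 (.c 12993 .nil))) (.l 2113 .nil))) (.node (.I .com (.c 427057993508083379515198226665525129 (.c 18561 .nil)) .nil) (.I .com (.c 427057993508083379515198226665525257 (.c 8321 .nil)) .nil))) (.node (.node (.I .adp (.c 18561 (.c 32 (.c 13748192181200529225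 .nil))) .nil) (.I .adp (.c 18561 (.c 32 (.c 231045293249046473 .nil))) .nil)) (.node (.I .com (.c 1512102896582526807535925483778566442889 (.c 18561 .nil)) .nil) (.I .jac (.c 13748194865974800073 (.c 16 (.c 48 .nil))) (.r 32 .nil)))))) (.node (.node (.node (.node (.I .jac (.c 8193 (.c 16 (.c 48 .nil))) (.r 1324065993 .nil)) (.I .jac (.c 8193 (.c 16 (.c 48 .nil))) (.r 174695753 .nil))) (.node (.I .jac (.c 0 (.c 8257 (.c 48 .nil))) (.r 1337272521 .nil)) (.I .jac (.c 0 (.c 8 (.c 32 .nil))) (.b 48 (.r 1337272521 .nil))))) (.node (.node (.I .jac (.c 0 (.c 8257 (.c 48 .nil))) (.r 179513673 .nil)) (.I .jac (.c 0 (.c 8 (.c 32 .nil))) (.b 48 (.r 179513673 .nil)))) (.node (.I .ass (.c 8193 (.c 18561 (.c 1324065993 .nil))) .nil) (.I .ass (.c 8193 (.c 18561 (.c 174695753 .nil))) .nil)))) (.node (.node (.node (.I .jac (.c 13748192181200529289 (.c 24 (.c 48 .nil))) (.r 16 .nil)) (.I .jac (.c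 33587465 (.c 24 (.c 48 .nil))) (.r 12865 .nil))) (.node (.I .jac (.c 13748193523587632009 (.c 24 (.c 48 .nil))) (.r 8 .nil)) (.I .jac (.c 2105609 (.c 24 (.c 48 .nil))) (.r 12929 .nil)))) (.node (.node (.I .adp (.c 18625 (.c 32 (.c 13748192181200529161 .nil))) .nil) (.I .com (.c 1512102306009786909181484737811290911753 (.c 8385 .nil)) .nil)) (.node (.I .com (.c 10065461098035008044835206025 (.c 18625 .nil)) .nil) (.I .com (.c 10065461098035008044835206153 (.c 8385 .nil)) .nil)))))))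

noncomputable def c4_77 : Tr := (.node (.node (.node (.node (.node (.node (.I .adp (.c 18625 (.c 32 (.c 9024839260612553 .nil))) .nil) (.I .com (.c 1512102601296135227280972429874805772169 (.c 18625 .nil)) .nil)) (.node (.I .jac (.c 13748193523587631817 (.c 24 (.c 48 .nil))) (.r 32 .nil)) (.I .com (.c 18561 (.c 8385 .nil)) (.l 2105673 .nil)))) (.node (.node (.I .com (.c 18497 (.c 8385 .nil)) (.l 1310924937 .nil)) (.I .com (.c 18497 (.c 8385 .nil)) (.l 33587529 .nil))) (.node (.I .jac (.c 8193 (.c 24 (.c 48 .nil))) (.r 1324065929 .nil)) (.I .jac (.c 43059203 (.c 8 (.c 32 .nil))) (.l 12993 .nil))))) (.node (.node (.node (.I .ass (.c 8193 (.c 18625 (.c 1324065929 .nil))) .nil) (.I .com (.c 1324065929 (.c 18625 .nil)) (.l 8193 .nil))) (.node (.I .ass (.c 18433 (.c 8385 (.c 1324065929 .nil))) .nil) (.I .ass (.c 18433 (.c 8385 (.c 35718473 .nil))) .nil))) (.node (.node (.I .jac (.c 42762755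 (.c 24 (.c 32 .nil))) (.l 12929 .nil)) (.I .jac (.c 8520195 (.c 16 (.c 48 .nil))) (.l 12993 .nil))) (.node (.I .jac (.c 42762755 (.c 16 (.c 32 .nil))) (.l 12993 .nil)) (.I .jac (.c 9024908047478473 (.c 40 (.c 48 .nil))) (.l 32 .nil)))))) (.node (.node (.node (.node (.I .com (.c 1459010655789627520195474563615301834809395174156062875678246881712513033 (.c 32 .nil)) .nil) (.I .jac (.c 35466557976329 (.c 40 (.c 48 .nil))) (.l 32 .nil))) (.node (.I .jac (.c 9024839260612425 (.c 40 (.c 48 .nil))) (.l 32 .nil)) (.I .com (.c 3396470626629604288154436272498300359912224951272662142229471944713 (.c 32 .nil)) .nil))) (.node (.node (.I .ass (.c 8193 (.c 18753 (.c 174695561 .nil))) .nil) (.I .com (.c 174695561 (.c 18753 .nil)) (.l 8193 .nil))) (.node (.I .jac (.c 33587401 (.c 8 (.c 48 .nil))) (.b 13057 .nil)) (.I .jac (.c 2049 (.c 18497 (.c 24 .nil))) (.b 13057 .nil))))) (.node (.node (.node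 (.I .jac (.c 2049 (.c 8 (.c 48 .nil))) (.b 24 (.b 13057 .nil))) (.I .jac (.c 2737112265 (.c 32 (.c 40 .nil))) (.l 2049 .nil))) (.node (.I .jac (.c 2049 (.c 32 (.c 40 .nil))) (.r 2737112265 .nil)) (.I .jac (.c 2049 (.c 32 (.c 40 .nil))) (.r 174695817 .nil)))) (.node (.node (.I .jac (.c 9025011228269257 (.c 32 (.c 40 .nil))) (.r 24 .nil)) (.I .jac (.c 59109062884628932361 (.c 32 (.c 40 .nil))) (.r 24 .nil))) (.node (.I .jac (.c 35473026505481 (.c 32 (.c 40 .nil))) (.r 24 .nil)) (.I .jac (.c 2737112201 (.c 32 (.c 40 .nil))) (.l 4609 .nil))))))) (.node (.node (.node (.node (.node (.I .jac (.c 59109065668069837513 (.c 32 (.c 40 .nil))) (.r 24 .nil)) (.I .jac (.c 4609 (.c 32 (.c 40 .nil))) (.r 35718537 .nil))) (.node (.I .jac (.c 33587401 (.c 32 (.c 40 .nil))) (.r 18497 .nil)) (.I .jac (.c 16 (.c 32 (.c 40 .nil))) (.l 15038410136445065 .nil)))) (.node (.node (.I .jac (.c 16 (.c 32 (.c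 40 .nil))) (.l 59555558875593 .nil)) (.I .jac (.c 24 (.c 32 (.c 40 .nil))) (.l 14832759703961737 .nil))) (.node (.I .jac (.c 24 (.c 32 (.c 40 .nil))) (.l 2487083360713 .nil)) (.I .jac (.c 2105545 (.c 32 (.c 40 .nil))) (.r 18561 .nil))))) (.node (.node (.node (.I .jac (.c 16 (.c 32 (.c 40 .nil))) (.l 14629225721520393 .nil)) (.I .jac (.c 16 (.c 32 (.c 40 .nil))) (.l 4673 (.l 18433 .nil)))) (.node (.I .jac (.c 2718204105 (.c 32 (.c 40 .nil))) (.r 2113 .nil)) (.I .jac (.c 24 (.c 32 (.c 40 .nil))) (.l 14629225721520329 .nil)))) (.node (.node (.I .adp (.c 2113 (.c 24 (.c 13057 .nil))) (.l 18433 .nil)) (.I .jac (.c 2113 (.c 32 (.c 40 .nil))) (.r 24 (.l 18433 .nil)))) (.node (.I .jac (.c 2728451 (.c 16 (.c 48 .nil))) (.b 13057 .nil)) (.I .jac (.c 8 (.c 32 (.c 40 .nil))) (.l 59109065668069837641 .nil)))))) (.node (.node (.node (.node (.I .jac (.c 2756085961 (.c 32 (.c 40 .nil))) (.l 513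 .nil)) (.I .jac (.c 513 (.c 32 (.c 40 .nil))) (.r 2756085961 .nil))) (.node (.I .jac (.c 8 (.c 32 (.c 40 .nil))) (.l 59109068451510808329 .nil)) (.I .jac (.c 513 (.c 32 (.c 40 .nil))) (.r 179513737 .nil)))) (.node (.node (.I .jac (.c 8 (.c 32 (.c 40 .nil))) (.l 15038410136445129 .nil)) (.I .jac (.c 8 (.c 32 (.c 40 .nil))) (.l 62886542410185 .nil))) (.node (.I .jac (.c 8 (.c 32 (.c 40 .nil))) (.l 14832759703961865 .nil)) (.I .adp (.c 8 (.c 4737 (.c 13057 .nil))) (.l 18433 .nil))))) (.node (.node (.node (.I .jac (.c 8 (.c 32 (.c 40 .nil))) (.r 4737 (.l 18433 .nil))) (.I .tdb (.c 32 (.c 40 (.c 8 (.c 16 .nil)))) (.b 0 (.l 18625 .nil)))) (.node (.I .tdb (.c 0 (.c 8 (.c 16 (.c 13057 .nil)))) (.l 18625 .nil)) (.I .tdb (.c 32 (.c 40 (.c 0 (.c 16 .nil)))) (.b 8 (.l 18625 .nil))))) (.node (.node (.I .adp (.c 12865 (.c 32 (.c 231045467270827017 .nil))) .nil) (.I .adp (.c 8257 (.c 40 (.c 231045467270827017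 .nil))) .nil)) (.node (.I .com (.c 27951055785643122786957318255255806178185 (.c 12865 .nil)) .nil) (.I .com (.c 27951055785643122786957318255255806178249 (.c 8257 .nil)) .nil)))))))

noncomputable def c4_78 : Tr := (.node (.node (.node (.node (.node (.node (.I .adp (.c 12865 (.c 32 (.c 9024908047478793 .nil))) .nil) (.I .adp (.c 8257 (.c 40 (.c 9024908047478793 .nil))) .nil)) (.node (.I .tdb (.c 32 (.c 12801 (.c 16 (.c 24 .nil)))) (.b 18497 .nil)) (.I .tdb (.c 40 (.c 8193 (.c 16 (.c 24 .nil)))) (.b 18497 .nil)))) (.node (.node (.I .tdb (.c 0 (.c 32 (.c 16 (.c 24 .nil)))) (.b 40 (.b 18497 .nil))) (.I .jac (.c 59109065668069837641 (.c 32 (.c 40 .nil))) (.l 8 .nil))) (.node (.I .jac (.c 9025011228269385 (.c 32 (.c 40 .nil))) (.l 8 .nil)) (.I .adp (.c 8 (.c 40 (.c 32 .nil))) (.b 231045467270827017 .nil))))) (.node (.node (.node (.I .adp (.c 8 (.c 40 (.c 32 .nil))) (.b 9024908047478793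 .nil)) (.I .ass (.c 59109065668069837513 (.c 24 (.c 13057 .nil))) .nil)) (.node (.I .ass (.c 9025011228269257 (.c 24 (.c 13057 .nil))) .nil) (.I .ass (.c 16 (.c 13748192181200529225 (.c 18689 .nil))) .nil))) (.node (.node (.I .ass (.c 13748192181200529225 (.c 16 (.c 18689 .nil))) .nil) (.I .com (.c 16 (.c 13748192181200529225 .nil)) (.r 18689 .nil))) (.node (.I .ass (.c 59109062884628932361 (.c 24 (.c 13057 .nil))) .nil) (.I .ass (.c 35473026505481 (.c 24 (.c 13057 .nil))) .nil))))) (.node (.node (.node (.node (.I .adp (.c 8 (.c 32 (.c 40 .nil))) (.b 231045467270827017 .nil)) (.I .adp (.c 8 (.c 32 (.c 40 .nil))) (.b 9024908047478793 .nil))) (.node (.I .tdb (.c 513 (.c 32 (.c 16 (.c 24 .nil)))) (.b 18753 .nil)) (.I .tdb (.c 0 (.c 8 (.c 16 (.c 24 .nil)))) (.b 32 (.b 18753 .nil))))) (.node (.node (.I .ass (.c 16 (.c 2306969673777850185 (.c 18753 .nil))) .nil) (.I .ass (.c 2306969673777850185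 (.c 16 (.c 18753 .nil))) .nil)) (.node (.I .com (.c 16 (.c 2306969673777850185 .nil)) (.r 18753 .nil)) (.I .tdb (.c 8 (.c 8193 (.c 16 (.c 24 .nil)))) (.b 18753 .nil))))) (.node (.node (.node (.I .adp (.c 12929 (.c 32 (.c 231046163358603977 .nil))) .nil) (.I .com (.c 427058636821845719787018514561732489 (.c 12929 .nil)) .nil)) (.node (.I .adp (.c 8321 (.c 40 (.c 231046163358603977 .nil))) .nil) (.I .com (.c 427058636821845719787018514561732553 (.c 8321 .nil)) .nil))) (.node (.node (.I .adp (.c 12929 (.c 32 (.c 59109062884628932425 .nil))) .nil) (.I .adp (.c 8321 (.c 40 (.c 59109062884628932425 .nil))) .nil)) (.node (.I .adp (.c 12929 (.c 32 (.c 35473026505545 .nil))) .nil) (.I .adp (.c 8321 (.c 40 (.c 35473026505545 .nil))) .nil)))))) (.node (.node (.node (.node (.node (.I .adp (.c 12929 (.c 32 (.c 231045293249046537 .nil))) .nil) (.I .adp (.c 8321 (.c 40 (.c 231045293249046537 .nil)))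 .nil)) (.node (.I .adp (.c 12929 (.c 32 (.c 59109068451510808265 .nil))) .nil) (.I .com (.c 27951055785643122726429632160908738482057 (.c 12929 .nil)) .nil))) (.node (.node (.I .adp (.c 8321 (.c 40 (.c 59109068451510808265 .nil))) .nil) (.I .com (.c 27951055785643122726429632160908738482121 (.c 8321 .nil)) .nil)) (.node (.I .adp (.c 16 (.c 40 (.c 32 .nil))) (.b 231046163358603977 .nil)) (.I .adp (.c 16 (.c 40 (.c 32 .nil))) (.b 59109062884628932425 .nil))))) (.node (.node (.node (.I .adp (.c 16 (.c 40 (.c 32 .nil))) (.b 35473026505545 .nil)) (.I .jac (.c 35473026505545 (.c 32 (.c 40 .nil))) (.l 16 .nil))) (.node (.I .adp (.c 16 (.c 40 (.c 32 .nil))) (.b 231045293249046537 .nil)) (.I .adp (.c 16 (.c 40 (.c 32 .nil))) (.b 59109068451510808265 .nil)))) (.node (.node (.I .jac (.c 59109068451510808265 (.c 32 (.c 40 .nil))) (.l 16 .nil)) (.I .tdb (.c 2049 (.c 40 (.c 8 (.c 24 .nil))))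 (.b 18689 .nil))) (.node (.I .tdb (.c 0 (.c 16 (.c 8 (.c 24 .nil)))) (.b 40 (.b 18689 .nil))) (.I .adp (.c 16 (.c 32 (.c 40 .nil))) (.b 231046163358603977 .nil)))))) (.node (.node (.node (.node (.I .adp (.c 16 (.c 32 (.c 40 .nil))) (.b 59109062884628932425 .nil)) (.I .adp (.c 16 (.c 32 (.c 40 .nil))) (.b 35473026505545 .nil))) (.node (.I .adp (.c 16 (.c 32 (.c 40 .nil))) (.b 231045293249046537 .nil)) (.I .adp (.c 16 (.c 32 (.c 40 .nil))) (.b 59109068451510808265 .nil)))) (.node (.node (.I .tdb (.c 2049 (.c 32 (.c 8 (.c 24 .nil)))) (.b 18753 .nil)) (.I .tdb (.c 0 (.c 16 (.c 8 (.c 24 .nil)))) (.b 32 (.b 18753 .nil)))) (.node (.I .jac (.c 0 (.c 8257 (.c 40 .nil))) (.r 179513737 .nil)) (.I .jac (.c 0 (.c 8 (.c 32 .nil))) (.b 40 (.r 179513737 .nil)))))) (.node (.node (.node (.I .adp (.c 16 (.c 40 (.c 2718204105 .nil))) (.b 8257 .nil)) (.I .adp (.c 16 (.c 40 (.c 169943433 .nil))) (.b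 8257 .nil))) (.node (.I .jac (.c 2803715 (.c 8 (.c 40 .nil))) (.l 18689 .nil)) (.I .jac (.c 21099011 (.c 8 (.c 16 .nil))) (.l 18689 .nil)))) (.node (.node (.I .adp (.c 16 (.c 32 (.c 2718204105 .nil))) (.b 12865 .nil)) (.I .adp (.c 16 (.c 32 (.c 169943433 .nil))) (.b 12865 .nil))) (.node (.I .jac (.c 2803715 (.c 8 (.c 32 .nil))) (.l 18753 .nil)) (.I .jac (.c 2803715 (.c 8 (.c 32 .nil))) (.b 18753 .nil))))))))

noncomputable def c4_79 : Tr := (.node (.node (.node (.node (.node (.node (.I .com (.c 59109068451510808457 (.c 1324065929 .nil)) .nil) (.I .com (.c 59109068451510808457 (.c 35718473 .nil)) .nil)) (.node (.I .jac (.c 2718204105 (.c 16 (.c 32 .nil))) (.l 12865 .nil)) (.I .com (.c 59109068451510808521 (.c 35718409 .nil)) .nil))) (.node (.node (.I .com (.c 59109068451510808329 (.c 545424713 .nil)) .nil) (.I .jac (.c 2718204105 (.c 32 (.c 40 .nil))) (.l 2113 .nil))) (.node (.I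 .com (.c 59934268409707442121 (.c 32 .nil)) (.l 2049 .nil)) (.I .adp (.c 18497 (.c 24 (.c 2306971873338799881 .nil))) .nil)))) (.node (.node (.node (.I .adp (.c 18497 (.c 24 (.c 9024976834606985 .nil))) .nil) (.I .adp (.c 18497 (.c 24 (.c 13748196208362033929 .nil))) .nil)) (.node (.I .adp (.c 18497 (.c 24 (.c 9024942441010121 .nil))) .nil) (.I .jac (.c 18433 (.c 16 (.c 40 .nil))) (.r 24 (.l 8257 .nil))))) (.node (.node (.I .adp (.c 4609 (.c 48 (.c 12929 .nil))) (.l 8257 .nil)) (.I .adp (.c 4609 (.c 48 (.c 8321 .nil))) (.l 12865 .nil))) (.node (.I .jac (.c 2718204105 (.c 16 (.c 40 .nil))) (.b 32 (.l 8 .nil))) (.I .com (.c 42576953795010651407263038383993868105 (.c 18561 .nil)) .nil))))) (.node (.node (.node (.node (.I .jac (.c 2306971873338799817 (.c 16 (.c 48 .nil))) (.r 24 .nil)) (.I .com (.c 1512103191868961635872417890875254705993 (.c 18561 .nil)) .nil)) (.node (.I .jac (.c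 13748196208362033865 (.c 16 (.c 48 .nil))) (.r 24 .nil)) (.I .ass (.c 4609 (.c 18497 (.c 1337272585 .nil))) .nil))) (.node (.node (.I .jac (.c 4609 (.c 16 (.c 48 .nil))) (.r 1324066057 .nil)) (.I .jac (.c 4609 (.c 16 (.c 48 .nil))) (.r 545424713 .nil))) (.node (.I .jac (.c 0 (.c 4673 (.c 48 .nil))) (.r 1337272585 .nil)) (.I .jac (.c 0 (.c 8 (.c 24 .nil))) (.b 48 (.r 1337272585 .nil)))))) (.node (.node (.node (.I .ass (.c 4609 (.c 18561 (.c 1324066057 .nil))) .nil) (.I .ass (.c 4609 (.c 18561 (.c 545424713 .nil))) .nil)) (.node (.I .com (.c 3396677733571646404444524329248206141615278632961794744256500138889 (.c 24 .nil)) .nil) (.I .com (.c 3396677733571646404444524329246871661425999372304664290498631875593 (.c 24 .nil)) .nil))) (.node (.node (.I .adp (.c 24 (.c 18689 (.c 13748192181200529161 .nil))) .nil) (.I .adp (.c 24 (.c 18689 (.c 9024839260612553 .nil))) .nil)) (.node (.I .jac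 (.c 2803715 (.c 8 (.c 48 .nil))) (.l 13057 .nil)) (.I .jac (.c 43059203 (.c 8 (.c 24 .nil))) (.l 13057 .nil))))))) (.node (.node (.node (.node (.node (.I .com (.c 1324065929 (.c 18689 .nil)) (.l 4609 .nil)) (.I .ass (.c 4609 (.c 18689 (.c 35718473 .nil))) .nil)) (.node (.I .jac (.c 2728451 (.c 16 (.c 48 .nil))) (.l 13057 .nil)) (.I .jac (.c 42762755 (.c 16 (.c 24 .nil))) (.l 13057 .nil)))) (.node (.node (.I .com (.c 3396625955800160603643130806315961360728832908976413815959824434121 (.c 24 .nil)) .nil) (.I .com (.c 3396625955800160603643130806315294125719800380280336618424033173513 (.c 24 .nil)) .nil)) (.node (.I .adp (.c 24 (.c 18753 (.c 2306969673777850121 .nil))) .nil) (.I .jac (.c 2306969673777850121 (.c 40 (.c 48 .nil))) (.l 24 .nil))))) (.node (.node (.node (.I .adp (.c 24 (.c 18753 (.c 9024839260612489 .nil))) .nil) (.I .ass (.c 4609 (.c 18753 (.c 545424521 .nil))) .nil))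 (.node (.I .adp (.c 12993 (.c 32 (.c 9025011228269257 .nil))) .nil) (.I .com (.c 651606621363089303044061530656649 (.c 12993 .nil)) .nil))) (.node (.node (.I .adp (.c 8385 (.c 40 (.c 9025011228269257 .nil))) .nil) (.I .com (.c 651606621363089303044061530656713 (.c 8385 .nil)) .nil)) (.node (.I .adp (.c 12993 (.c 32 (.c 59109062884628932361 .nil))) .nil) (.I .adp (.c 8385 (.c 40 (.c 59109062884628932361 .nil))) .nil))))) (.node (.node (.node (.node (.I .adp (.c 12993 (.c 32 (.c 35473026505481 .nil))) .nil) (.I .com (.c 10066684875668460532184331145 (.c 12993 .nil)) .nil)) (.node (.I .adp (.c 8385 (.c 40 (.c 35473026505481 .nil))) .nil) (.I .com (.c 10066684875668460532184331209 (.c 8385 .nil)) .nil))) (.node (.node (.I .adp (.c 12993 (.c 32 (.c 9024839260612617 .nil))) .nil) (.I .adp (.c 8385 (.c 40 (.c 9024839260612617 .nil))) .nil)) (.node (.I .adp (.c 12993 (.c 32 (.c 59109065668069837513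 .nil))) .nil) (.I .adp (.c 8385 (.c 40 (.c 59109065668069837513 .nil))) .nil)))) (.node (.node (.node (.I .ass (.c 12993 (.c 59109062884628932489 (.c 16 .nil))) .nil) (.I .com (.c 12993 (.c 59109062884628932489 .nil)) (.r 16 .nil))) (.node (.I .ass (.c 12993 (.c 35473026505609 (.c 16 .nil))) .nil) (.I .com (.c 12993 (.c 35473026505609 .nil)) (.r 16 .nil)))) (.node (.node (.I .ass (.c 12993 (.c 2105737 (.c 8321 .nil))) .nil) (.I .com (.c 12993 (.c 2105737 .nil)) (.r 8321 .nil))) (.node (.I .ass (.c 12993 (.c 2049 (.c 2737112329 .nil))) .nil) (.I .ass (.c 2049 (.c 12993 (.c 2737112329 .nil))) .nil)))))))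

noncomputable def c4_80 : Tr := (.node (.node (.node (.node (.node (.node (.I .com (.c 12993 (.c 2049 .nil)) (.r 2737112329 .nil)) (.I .ass (.c 8385 (.c 59109062884628932553 (.c 16 .nil))) .nil)) (.node (.I .com (.c 8385 (.c 59109062884628932553 .nil)) (.r 16 .nil)) (.I .ass (.c 8385 (.c 35473026505673 (.c 16 .nil))) .nil))) (.node (.node (.I .com (.c 8385 (.c 35473026505673 .nil)) (.r 16 .nil)) (.I .ass (.c 8385 (.c 2105737 (.c 12929 .nil))) .nil)) (.node (.I .com (.c 8385 (.c 2105737 .nil)) (.r 12929 .nil)) (.I .ass (.c 8385 (.c 33587529 (.c 18497 .nil))) .nil)))) (.node (.node (.node (.I .ass (.c 33587529 (.c 8385 (.c 18497 .nil))) .nil) (.I .com (.c 8385 (.c 33587529 .nil)) (.r 18497 .nil))) (.node (.I .ass (.c 8385 (.c 2049 (.c 2737112393 .nil))) .nil) (.I .ass (.c 2049 (.c 8385 (.c 2737112393 .nil))) .nil))) (.node (.node (.I .com (.c 8385 (.c 2049 .nil)) (.r 2737112393 .nil))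 (.I .ass (.c 12993 (.c 2718204169 (.c 2113 .nil))) .nil)) (.node (.I .com (.c 12993 (.c 2718204169 .nil)) (.r 2113 .nil)) (.I .ass (.c 12993 (.c 2105481 (.c 18689 .nil))) .nil))))) (.node (.node (.node (.node (.I .ass (.c 2105481 (.c 12993 (.c 18689 .nil))) .nil) (.I .com (.c 12993 (.c 2105481 .nil)) (.r 18689 .nil))) (.node (.I .ass (.c 8385 (.c 2718204233 (.c 2113 .nil))) .nil) (.I .com (.c 8385 (.c 2718204233 .nil)) (.r 2113 .nil)))) (.node (.node (.I .ass (.c 8385 (.c 18433 (.c 35718473 .nil))) .nil) (.I .com (.c 8385 (.c 18433 .nil)) (.r 35718473 .nil))) (.node (.I .ass (.c 8385 (.c 2105481 (.c 18753 .nil))) .nil) (.I .ass (.c 2105481 (.c 8385 (.c 18753 .nil))) .nil)))) (.node (.node (.node (.I .com (.c 8385 (.c 2105481 .nil)) (.r 18753 .nil)) (.I .ass (.c 12993 (.c 2105609 (.c 18561 .nil))) .nil)) (.node (.I .ass (.c 2105609 (.c 12993 (.c 18561 .nil))) .nil) (.I .com (.c 12993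 (.c 2105609 .nil)) (.r 18561 .nil)))) (.node (.node (.I .ass (.c 12993 (.c 513 (.c 2756086025 .nil))) .nil) (.I .ass (.c 513 (.c 12993 (.c 2756086025 .nil))) .nil)) (.node (.I .com (.c 12993 (.c 513 .nil)) (.r 2756086025 .nil)) (.I .ass (.c 8385 (.c 2105673 (.c 18561 .nil))) .nil)))))) (.node (.node (.node (.node (.node (.I .ass (.c 2105673 (.c 8385 (.c 18561 .nil))) .nil) (.I .com (.c 8385 (.c 2105673 .nil)) (.r 18561 .nil))) (.node (.I .ass (.c 8385 (.c 513 (.c 2756086089 .nil))) .nil) (.I .ass (.c 513 (.c 8385 (.c 2756086089 .nil))) .nil))) (.node (.node (.I .com (.c 8385 (.c 513 .nil)) (.r 2756086089 .nil)) (.I .tdb (.c 32 (.c 12801 (.c 8 (.c 16 .nil)))) (.b 18625 .nil))) (.node (.I .tdb (.c 40 (.c 8193 (.c 8 (.c 16 .nil)))) (.b 18625 .nil)) (.I .tdb (.c 0 (.c 32 (.c 8 (.c 16 .nil)))) (.b 40 (.b 18625 .nil)))))) (.node (.node (.node (.I .adp (.c 24 (.c 40 (.c 32 .nil))) (.b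 9025011228269257 .nil)) (.I .jac (.c 9025011228269257 (.c 32 (.c 40 .nil))) (.l 24 .nil))) (.node (.I .com (.c 3396729512033763431099245905597117501648044234927123676264415715209 (.c 24 .nil)) .nil) (.I .com (.c 3396729512033763431099245905596450256467768431480806557257023273929 (.c 24 .nil)) .nil))) (.node (.node (.I .adp (.c 24 (.c 40 (.c 32 .nil))) (.b 59109062884628932361 .nil)) (.I .jac (.c 59109062884628932361 (.c 32 (.c 40 .nil))) (.l 24 .nil))) (.node (.I .com (.c 6250089801726996852138612724015139686848446364528325304486710893661442378207698825 (.c 24 .nil)) .nil) (.I .com (.c 6250089801726996852138612724015139686819824488795034152287779161311181433030245321 (.c 24 .nil)) .nil))))) (.node (.node (.node (.node (.I .adp (.c 24 (.c 40 (.c 32 .nil))) (.b 35473026505481 .nil)) (.I .jac (.c 35473026505481 (.c 32 (.c 40 .nil))) (.l 24 .nil))) (.node (.I .com (.c 810705155088097029465566038962797496400789314964891213705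 (.c 24 .nil)) .nil) (.I .com (.c 810705155088097029465566028654512183716285730008136088521 (.c 24 .nil)) .nil))) (.node (.node (.I .adp (.c 24 (.c 40 (.c 32 .nil))) (.b 9024839260612617 .nil)) (.I .adp (.c 24 (.c 40 (.c 32 .nil))) (.b 59109065668069837513 .nil))) (.node (.I .com (.c 6250090978991936935765232166385601895368071167207495409807565740440772089343991689 (.c 24 .nil)) .nil) (.I .com (.c 6250090978991936935765232166385601895339449288778600650104972053014550238513511369 (.c 24 .nil)) .nil)))) (.node (.node (.node (.I .tdb (.c 4609 (.c 40 (.c 8 (.c 16 .nil)))) (.b 18689 .nil)) (.I .tdb (.c 0 (.c 24 (.c 8 (.c 16 .nil)))) (.b 40 (.b 18689 .nil)))) (.node (.I .adp (.c 24 (.c 32 (.c 40 .nil))) (.b 9025011228269257 .nil)) (.I .adp (.c 24 (.c 32 (.c 40 .nil))) (.b 59109062884628932361 .nil)))) (.node (.node (.I .adp (.c 24 (.c 32 (.c 40 .nil))) (.b 35473026505481 .nil)) (.I .adp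 (.c 24 (.c 32 (.c 40 .nil))) (.b 9024839260612617 .nil))) (.node (.I .adp (.c 24 (.c 32 (.c 40 .nil))) (.b 59109065668069837513 .nil)) (.I .tdb (.c 24 (.c 8193 (.c 8 (.c 16 .nil)))) (.b 18753 .nil))))))))

noncomputable def c4_81 : Tr := (.node (.node (.node (.node (.node (.node (.I .com (.c 2737112201 (.c 8385 .nil)) (.l 12801 .nil)) (.I .jac (.c 43954691 (.c 8 (.c 16 .nil))) (.l 8385 .nil))) (.node (.I .adp (.c 24 (.c 40 (.c 2718204041 .nil))) (.b 8257 .nil)) (.I .com (.c 59109065668069837769 (.c 24 .nil)) (.b 8257 .nil)))) (.node (.node (.I .adp (.c 24 (.c 40 (.c 33587593 .nil))) (.b 8257 .nil)) (.I .jac (.c 20891651 (.c 8 (.c 24 .nil))) (.l 18689 .nil))) (.node (.I .adp (.c 24 (.c 32 (.c 2718204041 .nil))) (.b 12865 .nil)) (.I .com (.c 59109065668069837705 (.c 24 .nil)) (.b 12865 .nil))))) (.node (.node (.node (.I .adp (.c 24 (.c 32 (.c 33587593 .nil))) (.b 12865 .nil)) (.I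 .com (.c 59109065668069837705 (.c 1324065993 .nil)) .nil)) (.node (.I .jac (.c 2718204041 (.c 24 (.c 40 .nil))) (.l 8257 .nil)) (.I .com (.c 59109065668069837769 (.c 545424585 .nil)) .nil))) (.node (.node (.I .com (.c 59109065668069837769 (.c 174695689 .nil)) .nil) (.I .com (.c 59109065668069837641 (.c 545424713 .nil)) .nil)) (.node (.I .com (.c 59934265606904515529 (.c 32 .nil)) (.l 4609 .nil)) (.I .com (.c 59109065668069837769 (.c 24 .nil)) (.l 8257 .nil)))))) (.node (.node (.node (.node (.I .com (.c 59109065668069837769 (.c 32 .nil)) (.l 4673 .nil)) (.I .adp (.c 18497 (.c 16 (.c 2306971873338799945 .nil))) .nil)) (.node (.I .adp (.c 18497 (.c 16 (.c 231045989336561545 .nil))) .nil) (.I .adp (.c 18497 (.c 16 (.c 13748196208362033993 .nil))) .nil))) (.node (.node (.I .adp (.c 18497 (.c 16 (.c 231045815314584521 .nil))) .nil) (.I .adp (.c 2049 (.c 48 (.c 12993 .nil))) (.l 8257 .nil)))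 (.node (.I .adp (.c 2049 (.c 48 (.c 8385 .nil))) (.l 12865 .nil)) (.I .jac (.c 2718204041 (.c 24 (.c 32 .nil))) (.b 40 (.l 8 .nil)))))) (.node (.node (.node (.I .com (.c 14502375955699775287798242710605707833569655562999404747740027693550253441865 (.c 16 .nil)) .nil) (.I .com (.c 14502375955699775287798242710605707702773253504726683624627973777921090328585 (.c 16 .nil)) .nil)) (.node (.I .com (.c 18291648502882414453388965183791947422382005360361218029448368799991925418033993 (.c 16 .nil)) .nil) (.I .com (.c 18291648502882414453388965183791947417736824354939767884048301039223142960928777 (.c 16 .nil)) .nil))) (.node (.node (.I .ass (.c 2049 (.c 18497 (.c 1350544649 .nil))) .nil) (.I .ass (.c 2049 (.c 18497 (.c 562466121 .nil))) .nil)) (.node (.I .ass (.c 2049 (.c 18625 (.c 1324066057 .nil))) .nil) (.I .ass (.c 2049 (.c 18625 (.c 545424713 .nil))) .nil)))))) (.node (.node (.node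 (.node (.node (.I .jac (.c 231045989336561353 (.c 32 (.c 48 .nil))) (.l 16 .nil)) (.I .adp (.c 16 (.c 18689 (.c 13748192181200529225 .nil))) .nil)) (.node (.I .jac (.c 13748192181200529225 (.c 32 (.c 48 .nil))) (.l 16 .nil)) (.I .jac (.c 35470870263625 (.c 32 (.c 48 .nil))) (.l 16 .nil)))) (.node (.node (.I .adp (.c 16 (.c 18689 (.c 231045293249046473 .nil))) .nil) (.I .com (.c 18291641358826142093478020620972318827415861510426971176696968884913148064498569 (.c 16 .nil)) .nil)) (.node (.I .com (.c 18291641358826142093478020620972318824319074778225956274863393494134643989330953 (.c 16 .nil)) .nil) (.I .jac (.c 43356675 (.c 8 (.c 16 .nil))) (.l 13057 .nil))))) (.node (.node (.node (.I .com (.c 1324065993 (.c 18689 .nil)) (.l 2049 .nil)) (.I .jac (.c 1310924873 (.c 16 (.c 48 .nil))) (.b 8385 .nil))) (.node (.I .adp (.c 16 (.c 18753 (.c 2306969673777850185 .nil))) .nil) (.I .jac (.c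 2306969673777850185 (.c 40 (.c 48 .nil))) (.l 16 .nil)))) (.node (.node (.I .adp (.c 16 (.c 18753 (.c 231045293249046409 .nil))) .nil) (.I .jac (.c 231045293249046409 (.c 40 (.c 48 .nil))) (.l 16 .nil))) (.node (.I .jac (.c 2306970773558193865 (.c 40 (.c 48 .nil))) (.l 16 .nil)) (.I .com (.c 14502348301404383998106412257983356298717263581651800628735067064105642034121 (.c 16 .nil)) .nil))))) (.node (.node (.node (.node (.I .com (.c 14502348301404383998106412257983356255118504464428344731074481645979197333513 (.c 16 .nil)) .nil) (.I .jac (.c 35466557976457 (.c 40 (.c 48 .nil))) (.l 16 .nil))) (.node (.I .com (.c 545424585 (.c 18753 .nil)) (.l 2049 .nil)) (.I .jac (.c 537002057 (.c 16 (.c 48 .nil))) (.b 12993 .nil)))) (.node (.node (.I .jac (.c 8520195 (.c 16 (.c 40 .nil))) (.l 18625 .nil)) (.I .jac (.c 20685315 (.c 16 (.c 32 .nil))) (.l 18625 .nil))) (.node (.I .adp (.c 24 (.c 40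 (.c 2718203977 .nil))) (.b 8321 .nil)) (.I .com (.c 59109062884628932553 (.c 24 .nil)) (.b 8321 .nil))))) (.node (.node (.node (.I .adp (.c 24 (.c 40 (.c 2105737 .nil))) (.b 8321 .nil)) (.I .jac (.c 2728451 (.c 16 (.c 40 .nil))) (.l 18689 .nil))) (.node (.I .jac (.c 2718203977 (.c 16 (.c 40 .nil))) (.b 8385 .nil)) (.I .adp (.c 16 (.c 40 (.c 2718203977 .nil))) (.b 8385 .nil)))) (.node (.node (.I .com (.c 59109062884628932553 (.c 16 .nil)) (.b 8385 .nil)) (.I .adp (.c 16 (.c 40 (.c 2105737 .nil))) (.b 8385 .nil))) (.node (.I .adp (.c 24 (.c 32 (.c 2718203977 .nil))) (.b 12929 .nil)) (.I .com (.c 59109062884628932489 (.c 24 .nil)) (.b 12929 .nil))))))))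

noncomputable def c4_82 : Tr := (.node (.node (.node (.node (.node (.node (.I .adp (.c 24 (.c 32 (.c 2105737 .nil))) (.b 12929 .nil)) (.I .jac (.c 8520195 (.c 16 (.c 24 .nil))) (.l 18753 .nil))) (.node (.I .jac (.c 2728451 (.c 16 (.c 32 .nil))) (.l 18753 .nil)) (.I .adp (.c 16 (.c 32 (.c 2718203977 .nil))) (.b 12993 .nil)))) (.node (.node (.I .com (.c 59109062884628932489 (.c 16 .nil)) (.b 12993 .nil)) (.I .adp (.c 16 (.c 32 (.c 2105737 .nil))) (.b 12993 .nil))) (.node (.I .com (.c 59109062884628932553 (.c 553912521 .nil)) .nil) (.I .com (.c 59109062884628932425 (.c 1337272585 .nil)) .nil)))) (.node (.node (.node (.I .jac (.c 2718203977 (.c 32 (.c 40 .nil))) (.l 4737 .nil)) (.I .com (.c 59109062884628932553 (.c 32 .nil)) (.l 4737 .nil))) (.node (.I .adp (.c 8 (.c 18561 (.c 2306971873338799945 .nil))) .nil) (.I .adp (.c 8 (.c 18561 (.c 231045989336561545 .nil))) .nil))) (.node (.node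 (.I .adp (.c 8 (.c 18561 (.c 13748196208362033993 .nil))) .nil) (.I .adp (.c 8 (.c 18561 (.c 231045815314584521 .nil))) .nil)) (.node (.I .jac (.c 2718203977 (.c 24 (.c 32 .nil))) (.b 40 (.l 16 .nil))) (.I .com (.c 59109062884628932489 (.c 12993 .nil)) (.l 16 .nil)))))) (.node (.node (.node (.node (.I .ass (.c 16 (.c 59109062884628932489 (.c 12993 .nil))) .nil) (.I .com (.c 16 (.c 59109062884628932489 .nil)) (.r 12993 .nil))) (.node (.I .com (.c 59109062884628932553 (.c 8385 .nil)) (.l 16 .nil)) (.I .ass (.c 16 (.c 59109062884628932553 (.c 8385 .nil))) .nil))) (.node (.node (.I .com (.c 16 (.c 59109062884628932553 .nil)) (.r 8385 .nil)) (.I .adp (.c 8 (.c 18625 (.c 2306971873338799881 .nil))) .nil)) (.node (.I .adp (.c 8 (.c 18625 (.c 9024976834606985 .nil))) .nil) (.I .adp (.c 8 (.c 18625 (.c 13748196208362033929 .nil))) .nil)))) (.node (.node (.node (.I .adp (.c 8 (.c 18625 (.c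 9024942441010121 .nil))) .nil) (.I .ass (.c 513 (.c 18625 (.c 553912649 .nil))) .nil)) (.node (.I .adp (.c 8 (.c 18689 (.c 13748193523587631945 .nil))) .nil) (.I .jac (.c 9024976834606921 (.c 32 (.c 48 .nil))) (.l 8 .nil)))) (.node (.node (.I .adp (.c 8 (.c 18689 (.c 231045467270826953 .nil))) .nil) (.I .adp (.c 8 (.c 18689 (.c 13748194865974800137 .nil))) .nil)) (.node (.I .jac (.c 13748194865974800137 (.c 32 (.c 48 .nil))) (.l 8 .nil)) (.I .adp (.c 8 (.c 18689 (.c 9024908047478729 .nil))) .nil)))))) (.node (.node (.node (.node (.node (.I .ass (.c 513 (.c 18689 (.c 179513673 .nil))) .nil) (.I .adp (.c 8 (.c 18753 (.c 2306970223667989321 .nil))) .nil)) (.node (.I .jac (.c 9024942441009993 (.c 40 (.c 48 .nil))) (.l 8 .nil)) (.I .adp (.c 8 (.c 18753 (.c 231045467270826889 .nil))) .nil))) (.node (.node (.I .jac (.c 231045467270826889 (.c 40 (.c 48 .nil))) (.l 8 .nil)) (.I .adp (.c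 8 (.c 18753 (.c 2306970773558193929 .nil))) .nil)) (.node (.I .jac (.c 2306970773558193929 (.c 40 (.c 48 .nil))) (.l 8 .nil)) (.I .adp (.c 8 (.c 18753 (.c 9024908047478665 .nil))) .nil)))) (.node (.node (.node (.I .jac (.c 9024908047478665 (.c 40 (.c 48 .nil))) (.l 8 .nil)) (.I .ass (.c 513 (.c 18753 (.c 553912521 .nil))) .nil)) (.node (.I .com (.c 553912521 (.c 18753 .nil)) (.l 513 .nil)) (.I .ass (.c 513 (.c 18753 (.c 179513609 .nil))) .nil))) (.node (.node (.I .com (.c 179513609 (.c 18753 .nil)) (.l 513 .nil)) (.I .jac (.c 21307395 (.c 8 (.c 24 .nil))) (.l 18561 .nil))) (.node (.I .tdb (.c 24 (.c 40 (.c 18561 (.c 0 .nil)))) (.l 8257 .nil)) (.I .adp (.c 0 (.c 18561 (.c 12993 .nil))) (.l 8257 .nil)))))) (.node (.node (.node (.node (.I .jac (.c 0 (.c 24 (.c 40 .nil))) (.r 18561 (.l 8257 .nil))) (.I .tdb (.c 16 (.c 32 (.c 12993 (.c 0 .nil)))) (.l 18497 .nil))) (.node (.I .adp (.c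 0 (.c 18561 (.c 8385 .nil))) (.l 12865 .nil)) (.I .jac (.c 0 (.c 24 (.c 32 .nil))) (.r 18561 (.l 12865 .nil))))) (.node (.node (.I .tdb (.c 24 (.c 32 (.c 12929 (.c 0 .nil)))) (.l 18497 .nil)) (.I .tdb (.c 32 (.c 40 (.c 18561 (.c 0 .nil)))) (.l 4673 .nil))) (.node (.I .tdb (.c 16 (.c 24 (.c 13057 (.c 0 .nil)))) (.l 18497 .nil)) (.I .tdb (.c 16 (.c 40 (.c 18625 (.c 0 .nil)))) (.l 8257 .nil))))) (.node (.node (.node (.I .jac (.c 0 (.c 16 (.c 40 .nil))) (.r 18625 (.l 8257 .nil))) (.I .adp (.c 0 (.c 18625 (.c 12929 .nil))) (.l 8257 .nil))) (.node (.I .jac (.c 0 (.c 16 (.c 32 .nil))) (.r 18625 (.l 12865 .nil))) (.I .adp (.c 0 (.c 18625 (.c 8321 .nil))) (.l 12865 .nil)))) (.node (.node (.I .tdb (.c 16 (.c 40 (.c 18689 (.c 0 .nil)))) (.l 4673 .nil)) (.I .jac (.c 0 (.c 16 (.c 40 .nil))) (.r 18689 (.l 4673 .nil)))) (.node (.I .adp (.c 0 (.c 18689 (.c 12929 .nil))) (.l 4673 .nil)) (.I .jac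 (.c 0 (.c 24 (.c 40 .nil))) (.r 18689 (.l 2113 .nil)))))))))

noncomputable def c4_83 : Tr := (.node (.node (.node (.node (.node (.node (.I .adp (.c 0 (.c 18689 (.c 12993 .nil))) (.l 2113 .nil)) (.I .tdb (.c 16 (.c 32 (.c 18753 (.c 0 .nil)))) (.l 4673 .nil))) (.node (.I .jac (.c 8321 (.c 40 (.c 48 .nil))) (.l 0 (.l 4673 .nil))) (.I .tdb (.c 16 (.c 24 (.c 18753 (.c 0 .nil)))) (.l 8257 .nil)))) (.node (.node (.I .jac (.c 0 (.c 16 (.c 24 .nil))) (.r 18753 (.l 8257 .nil))) (.I .adp (.c 0 (.c 18753 (.c 4737 .nil))) (.l 8257 .nil))) (.node (.I .jac (.c 4737 (.c 40 (.c 48 .nil))) (.l 0 (.l 8257 .nil))) (.I .jac (.c 0 (.c 24 (.c 32 .nil))) (.r 18753 (.l 2113 .nil)))))) (.node (.node (.node (.I .adp (.c 0 (.c 18753 (.c 8385 .nil))) (.l 2113 .nil)) (.I .com (.c 2718204105 (.c 2379904940409059081 .nil)) .nil)) (.node (.I .com (.c 2718204105 (.c 14025204674709064585 .nil)) .nil) (.I .com (.c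 2718204105 (.c 2379903264864635849 .nil)) .nil))) (.node (.node (.I .com (.c 2718204105 (.c 14025207386396218121 .nil)) .nil) (.I .jac (.c 18433 (.c 16 (.c 32 .nil))) (.b 40 (.l 4673 .nil)))) (.node (.I .com (.c 2718204169 (.c 244148848929896201 .nil)) .nil) (.I .com (.c 2718204169 (.c 244148312264838089 .nil)) .nil))))) (.node (.node (.node (.node (.I .jac (.c 18433 (.c 12929 (.c 24 .nil))) (.l 8257 .nil)) (.I .jac (.c 18433 (.c 16 (.c 40 .nil))) (.b 24 (.l 8257 .nil)))) (.node (.I .jac (.c 18433 (.c 4737 (.c 40 .nil))) (.l 8257 .nil)) (.I .jac (.c 18433 (.c 16 (.c 24 .nil))) (.b 40 (.l 8257 .nil))))) (.node (.node (.I .jac (.c 18433 (.c 24 (.c 32 .nil))) (.l 1324065929 .nil)) (.I .jac (.c 18433 (.c 24 (.c 32 .nil))) (.l 35718473 .nil))) (.node (.I .jac (.c 18433 (.c 16 (.c 40 .nil))) (.l 174695689 .nil)) (.I .adp (.c 12929 (.c 24 (.c 18497 .nil))) (.l 8193 .nil))))) (.node (.node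 (.node (.I .adp (.c 12929 (.c 32 (.c 18497 .nil))) (.l 4609 .nil)) (.I .com (.c 2718204105 (.c 12929 .nil)) (.l 8257 .nil))) (.node (.I .adp (.c 12929 (.c 24 (.c 18433 .nil))) (.l 8257 .nil)) (.I .com (.c 2718204169 (.c 12929 .nil)) (.l 4673 .nil)))) (.node (.node (.I .adp (.c 12929 (.c 32 (.c 18433 .nil))) (.l 4673 .nil)) (.I .jac (.c 18433 (.c 8321 (.c 24 .nil))) (.l 12865 .nil))) (.node (.I .jac (.c 18433 (.c 16 (.c 32 .nil))) (.b 24 (.l 12865 .nil))) (.I .com (.c 2718204233 (.c 2379903264864635721 .nil)) .nil)))))) (.node (.node (.node (.node (.node (.I .jac (.c 18433 (.c 4737 (.c 32 .nil))) (.l 12865 .nil)) (.I .com (.c 2718204233 (.c 2379903823379377929 .nil)) .nil)) (.node (.I .jac (.c 18433 (.c 16 (.c 32 .nil))) (.l 1324065993 .nil)) (.I .jac (.c 18433 (.c 24 (.c 40 .nil))) (.l 545424521 .nil)))) (.node (.node (.I .jac (.c 18433 (.c 24 (.c 40 .nil))) (.l 35718409 .nil))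 (.I .adp (.c 8321 (.c 24 (.c 18497 .nil))) (.l 12801 .nil))) (.node (.I .adp (.c 8321 (.c 40 (.c 18433 .nil))) (.l 4673 .nil)) (.I .jac (.c 18433 (.c 32 (.c 40 .nil))) (.l 174695561 .nil))))) (.node (.node (.node (.I .adp (.c 4737 (.c 40 (.c 18497 .nil))) (.l 8193 .nil)) (.I .com (.c 2718204169 (.c 4737 .nil)) (.l 12865 .nil))) (.node (.I .com (.c 2718204233 (.c 4737 .nil)) (.l 8257 .nil)) (.I .adp (.c 4737 (.c 40 (.c 18433 .nil))) (.l 8257 .nil)))) (.node (.node (.I .jac (.c 18433 (.c 12993 (.c 32 .nil))) (.l 2113 .nil)) (.I .jac (.c 18433 (.c 24 (.c 40 .nil))) (.b 32 (.l 2113 .nil)))) (.node (.I .adp (.c 12993 (.c 32 (.c 18497 .nil))) (.l 2049 .nil)) (.I .adp (.c 16 (.c 8385 (.c 18497 .nil))) (.l 12801 .nil)))))) (.node (.node (.node (.node (.I .adp (.c 8385 (.c 40 (.c 18497 .nil))) (.l 2049 .nil)) (.I .adp (.c 16 (.c 13057 (.c 18497 .nil))) (.l 4609 .nil))) (.node (.I .jac (.c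 8193 (.c 8 (.c 40 .nil))) (.b 24 (.b 18561 .nil))) (.I .jac (.c 537002185 (.c 8 (.c 40 .nil))) (.b 18561 .nil)))) (.node (.node (.I .jac (.c 8193 (.c 12865 (.c 24 .nil))) (.b 18561 .nil)) (.I .jac (.c 537002313 (.c 8 (.c 24 .nil))) (.b 18561 .nil))) (.node (.I .adp (.c 2306971873338799817 (.c 24 (.c 18561 .nil))) .nil) (.I .adp (.c 13748192181200529289 (.c 24 (.c 18561 .nil))) .nil)))) (.node (.node (.node (.I .adp (.c 2306969673777850313 (.c 24 (.c 18561 .nil))) .nil) (.I .adp (.c 13748196208362033865 (.c 24 (.c 18561 .nil))) .nil)) (.node (.I .adp (.c 13748192181200529225 (.c 32 (.c 18561 .nil))) .nil) (.I .adp (.c 13748194865974800073 (.c 32 (.c 18561 .nil))) .nil))) (.node (.node (.I .adp (.c 2306969673777850185 (.c 40 (.c 18561 .nil))) .nil) (.I .adp (.c 2306970773558193865 (.c 40 (.c 18561 .nil))) .nil)) (.node (.I .com (.c 2306971873338799945 (.c 8 .nil)) (.b 18561 .nil))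 (.I .com (.c 13748194865974800265 (.c 8 .nil)) (.b 18561 .nil))))))))

noncomputable def c4_84 : Tr := (.node (.node (.node (.node (.node (.node (.I .com (.c 2306970773558194121 (.c 8 .nil)) (.b 18561 .nil)) (.I .adp (.c 2306971873338799945 (.c 8 (.c 18561 .nil))) .nil)) (.node (.I .adp (.c 13748194865974800265 (.c 8 (.c 18561 .nil))) .nil) (.I .adp (.c 2306970773558194121 (.c 8 (.c 18561 .nil))) .nil))) (.node (.node (.I .jac (.c 18433 (.c 12929 (.c 24 .nil))) (.b 32 (.l 8 .nil))) (.I .jac (.c 18433 (.c 16 (.c 40 .nil))) (.b 24 (.b 32 (.l 8 .nil))))) (.node (.I .jac (.c 18433 (.c 4737 (.c 40 .nil))) (.b 32 (.l 8 .nil))) (.I .jac (.c 18433 (.c 16 (.c 24 .nil))) (.b 40 (.b 32 (.l 8 .nil))))))) (.node (.node (.node (.I .com (.c 13748196208362033993 (.c 8 .nil)) (.b 18561 .nil)) (.I .adp (.c 13748196208362033993 (.c 8 (.c 18561 .nil))) .nil)) (.node (.I .jac (.c 8 (.c 16 (.c 48 .nil)))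 (.l 3632040653488393 .nil)) (.I .jac (.c 0 (.c 8 (.c 48 .nil))) (.r 2454553781777577801 .nil)))) (.node (.node (.I .jac (.c 0 (.c 8 (.c 48 .nil))) (.r 14306382363373563785 .nil)) (.I .jac (.c 0 (.c 8 (.c 48 .nil))) (.r 257801270351607689 .nil))) (.node (.I .jac (.c 0 (.c 8 (.c 48 .nil))) (.r 2454552647364603849 .nil)) (.I .jac (.c 0 (.c 8 (.c 48 .nil))) (.r 14306383732740657993 .nil)))))) (.node (.node (.node (.node (.I .jac (.c 0 (.c 8 (.c 48 .nil))) (.r 257801086529639369 .nil)) (.I .jac (.c 0 (.c 8 (.c 16 .nil))) (.b 3632106110100937 .nil))) (.node (.I .adp (.c 8 (.c 16 (.c 48 .nil))) (.b 2306971873338799945 .nil)) (.I .adp (.c 8 (.c 16 (.c 48 .nil))) (.b 231045989336561545 .nil)))) (.node (.node (.I .adp (.c 8 (.c 16 (.c 48 .nil))) (.b 13748196208362033993 .nil)) (.I .adp (.c 8 (.c 16 (.c 48 .nil))) (.b 231045815314584521 .nil))) (.node (.I .adp (.c 2306971873338799817 (.c 16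 (.c 18625 .nil))) .nil) (.I .jac (.c 2306971873338799817 (.c 24 (.c 48 .nil))) (.r 16 .nil))))) (.node (.node (.node (.I .adp (.c 13748192181200529289 (.c 16 (.c 18625 .nil))) .nil) (.I .adp (.c 2306969673777850313 (.c 16 (.c 18625 .nil))) .nil)) (.node (.I .jac (.c 2049 (.c 24 (.c 48 .nil))) (.r 1324066057 .nil)) (.I .adp (.c 13748196208362033865 (.c 16 (.c 18625 .nil))) .nil))) (.node (.node (.I .jac (.c 13748196208362033865 (.c 24 (.c 48 .nil))) (.r 16 .nil)) (.I .jac (.c 2049 (.c 24 (.c 48 .nil))) (.r 545424713 .nil))) (.node (.I .adp (.c 13748192181200529161 (.c 32 (.c 18625 .nil))) .nil) (.I .adp (.c 13748193523587631817 (.c 32 (.c 18625 .nil))) .nil)))))) (.node (.node (.node (.node (.node (.I .jac (.c 16 (.c 24 (.c 48 .nil))) (.l 3632040653488265 .nil)) (.I .jac (.c 16 (.c 24 (.c 48 .nil))) (.l 580749782704521 .nil))) (.node (.I .adp (.c 12865 (.c 16 (.c 18625 .nil))) (.l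 8193 .nil)) (.I .adp (.c 2306969673777850121 (.c 40 (.c 18625 .nil))) .nil))) (.node (.node (.I .adp (.c 2306970223667989193 (.c 40 (.c 18625 .nil))) .nil) (.I .jac (.c 1310924937 (.c 24 (.c 48 .nil))) (.r 8257 .nil))) (.node (.I .jac (.c 16 (.c 24 (.c 48 .nil))) (.l 3423058053194057 .nil)) (.I .adp (.c 2113 (.c 40 (.c 18625 .nil))) (.l 8193 .nil))))) (.node (.node (.node (.I .com (.c 2306971873338799881 (.c 8 .nil)) (.b 18625 .nil)) (.I .com (.c 13748193523587632009 (.c 8 .nil)) (.b 18625 .nil))) (.node (.I .com (.c 2306970223667989449 (.c 8 .nil)) (.b 18625 .nil)) (.I .adp (.c 2306971873338799881 (.c 8 (.c 18625 .nil))) .nil))) (.node (.node (.I .jac (.c 2306971873338799881 (.c 24 (.c 48 .nil))) (.r 8 .nil)) (.I .adp (.c 13748193523587632009 (.c 8 (.c 18625 .nil))) .nil)) (.node (.I .adp (.c 2306970223667989449 (.c 8 (.c 18625 .nil))) .nil) (.I .com (.c 13748196208362033929 (.c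 8 .nil)) (.b 18625 .nil)))))) (.node (.node (.node (.node (.I .adp (.c 13748196208362033929 (.c 8 (.c 18625 .nil))) .nil) (.I .jac (.c 13748196208362033929 (.c 24 (.c 48 .nil))) (.r 8 .nil))) (.node (.I .jac (.c 513 (.c 24 (.c 48 .nil))) (.r 553912649 .nil)) (.I .jac (.c 8 (.c 24 (.c 48 .nil))) (.l 3632040653488329 .nil)))) (.node (.node (.I .jac (.c 8 (.c 24 (.c 48 .nil))) (.l 3491688652046665 .nil)) (.I .adp (.c 8321 (.c 40 (.c 18625 .nil))) (.l 513 .nil))) (.node (.I .adp (.c 16 (.c 13057 (.c 18625 .nil))) (.l 513 .nil)) (.I .adp (.c 8 (.c 24 (.c 48 .nil))) (.b 2306971873338799881 .nil))))) (.node (.node (.node (.I .adp (.c 8 (.c 24 (.c 48 .nil))) (.b 9024976834606985 .nil)) (.I .adp (.c 8 (.c 24 (.c 48 .nil))) (.b 13748196208362033929 .nil))) (.node (.I .adp (.c 8 (.c 24 (.c 48 .nil))) (.b 9024942441010121 .nil)) (.I .adp (.c 8 (.c 24 (.c 1310925065 .nil))) (.b 18561 .nil))))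 (.node (.node (.I .adp (.c 8 (.c 24 (.c 537002313 .nil))) (.b 18561 .nil)) (.I .adp (.c 8 (.c 16 (.c 1310925065 .nil))) (.b 18625 .nil))) (.node (.I .adp (.c 8 (.c 16 (.c 537002313 .nil))) (.b 18625 .nil)) (.I .adp (.c 231045989336561353 (.c 16 (.c 18689 .nil))) .nil)))))))

noncomputable def c4_85 : Tr := (.node (.node (.node (.node (.node (.node (.I .jac (.c 13748192181200529225 (.c 32 (.c 48 .nil))) (.r 16 .nil)) (.I .jac (.c 35470870263625 (.c 32 (.c 48 .nil))) (.r 16 .nil))) (.node (.I .adp (.c 231045293249046473 (.c 16 (.c 18689 .nil))) .nil) (.I .jac (.c 13748194865974800073 (.c 32 (.c 48 .nil))) (.r 16 .nil)))) (.node (.node (.I .adp (.c 9024976834606793 (.c 24 (.c 18689 .nil))) .nil) (.I .jac (.c 9024976834606793 (.c 32 (.c 48 .nil))) (.r 24 .nil))) (.node (.I .adp (.c 9024839260612553 (.c 24 (.c 18689 .nil))) .nil) (.I .jac (.c 4609 (.c 32 (.c 48 .nil))) (.r 35718473 .nil)))))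 (.node (.node (.node (.I .jac (.c 169943177 (.c 32 (.c 48 .nil))) (.r 12865 .nil)) (.I .jac (.c 16 (.c 32 (.c 48 .nil))) (.l 59555558875529 .nil))) (.node (.I .jac (.c 24 (.c 32 (.c 48 .nil))) (.l 3491688652046473 .nil)) (.I .jac (.c 24 (.c 32 (.c 48 .nil))) (.l 2487083360649 .nil)))) (.node (.node (.I .adp (.c 12865 (.c 24 (.c 18689 .nil))) (.l 2049 .nil)) (.I .adp (.c 9024908047478473 (.c 40 (.c 18689 .nil))) .nil)) (.node (.I .adp (.c 231045293249046281 (.c 40 (.c 18689 .nil))) .nil) (.I .adp (.c 9024839260612425 (.c 40 (.c 18689 .nil))) .nil))))) (.node (.node (.node (.node (.I .adp (.c 231045467270826697 (.c 40 (.c 18689 .nil))) .nil) (.I .jac (.c 16 (.c 32 (.c 48 .nil))) (.l 3423058053193993 .nil))) (.node (.I .adp (.c 4673 (.c 16 (.c 18689 .nil))) (.l 12801 .nil)) (.I .jac (.c 4673 (.c 32 (.c 48 .nil))) (.r 16 (.l 12801 .nil))))) (.node (.node (.I .adp (.c 4673 (.c 40 (.c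 18689 .nil))) (.l 2049 .nil)) (.I .jac (.c 2105481 (.c 32 (.c 48 .nil))) (.r 12993 .nil))) (.node (.I .jac (.c 24 (.c 32 (.c 48 .nil))) (.l 3423058053193929 .nil)) (.I .adp (.c 2113 (.c 24 (.c 18689 .nil))) (.l 12801 .nil))))) (.node (.node (.node (.I .jac (.c 2113 (.c 32 (.c 48 .nil))) (.r 24 (.l 12801 .nil))) (.I .com (.c 231045989336561417 (.c 8 .nil)) (.b 18689 .nil))) (.node (.I .com (.c 9024976834606921 (.c 8 .nil)) (.b 18689 .nil)) (.I .com (.c 231045467270826953 (.c 8 .nil)) (.b 18689 .nil)))) (.node (.node (.I .adp (.c 231045989336561417 (.c 8 (.c 18689 .nil))) .nil) (.I .jac (.c 231045989336561417 (.c 32 (.c 48 .nil))) (.r 8 .nil))) (.node (.I .adp (.c 9024976834606921 (.c 8 (.c 18689 .nil))) .nil) (.I .jac (.c 9024976834606921 (.c 32 (.c 48 .nil))) (.r 8 .nil))))))) (.node (.node (.node (.node (.node (.I .adp (.c 231045467270826953 (.c 8 (.c 18689 .nil))) .nil) (.I .com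 (.c 9024908047478729 (.c 8 .nil)) (.b 18689 .nil))) (.node (.I .adp (.c 9024908047478729 (.c 8 (.c 18689 .nil))) .nil) (.I .jac (.c 513 (.c 32 (.c 48 .nil))) (.r 179513673 .nil)))) (.node (.node (.I .jac (.c 8 (.c 32 (.c 48 .nil))) (.l 62886542410121 .nil)) (.I .jac (.c 8 (.c 32 (.c 48 .nil))) (.l 3491688652046601 .nil))) (.node (.I .adp (.c 4737 (.c 40 (.c 18689 .nil))) (.l 513 .nil)) (.I .adp (.c 16 (.c 12993 (.c 18689 .nil))) (.l 513 .nil))))) (.node (.node (.node (.I .jac (.c 16 (.c 32 (.c 48 .nil))) (.r 12993 (.l 513 .nil))) (.I .jac (.c 0 (.c 8 (.c 32 .nil))) (.b 3561389332330953 .nil))) (.node (.I .adp (.c 8 (.c 32 (.c 48 .nil))) (.b 13748193523587631945 .nil)) (.I .adp (.c 8 (.c 32 (.c 48 .nil))) (.b 231045467270826953 .nil)))) (.node (.node (.I .adp (.c 8 (.c 32 (.c 48 .nil))) (.b 13748194865974800137 .nil)) (.I .adp (.c 8 (.c 32 (.c 48 .nil))) (.b 9024908047478729 .nil)))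 (.node (.I .adp (.c 16 (.c 32 (.c 48 .nil))) (.b 13748192181200529225 .nil)) (.I .adp (.c 16 (.c 32 (.c 48 .nil))) (.b 231045293249046473 .nil)))))) (.node (.node (.node (.node (.I .adp (.c 8 (.c 32 (.c 1310925001 .nil))) (.b 18561 .nil)) (.I .adp (.c 8 (.c 16 (.c 169943369 .nil))) (.b 18689 .nil))) (.node (.I .adp (.c 24 (.c 40 (.c 48 .nil))) (.b 2306969673777850121 .nil)) (.I .adp (.c 24 (.c 40 (.c 48 .nil))) (.b 9024839260612489 .nil)))) (.node (.node (.I .adp (.c 24 (.c 40 (.c 537002057 .nil))) (.b 18561 .nil)) (.I .com (.c 2306969673777850313 (.c 24 .nil)) (.b 18561 .nil))) (.node (.I .jac (.c 557571 (.c 24 (.c 40 .nil))) (.b 18689 .nil)) (.I .adp (.c 24 (.c 40 (.c 33587273 .nil))) (.b 18689 .nil))))) (.node (.node (.node (.I .com (.c 9024839260612553 (.c 24 .nil)) (.b 18689 .nil)) (.I .adp (.c 24 (.c 32 (.c 48 .nil))) (.b 13748192181200529161 .nil))) (.node (.I .adp (.c 24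 (.c 32 (.c 48 .nil))) (.b 9024839260612553 .nil)) (.I .adp (.c 8 (.c 32 (.c 1310924937 .nil))) (.b 18625 .nil)))) (.node (.node (.I .adp (.c 8 (.c 24 (.c 33587529 .nil))) (.b 18689 .nil)) (.I .adp (.c 16 (.c 40 (.c 48 .nil))) (.b 2306969673777850185 .nil))) (.node (.I .adp (.c 16 (.c 40 (.c 48 .nil))) (.b 231045293249046409 .nil)) (.I .adp (.c 16 (.c 40 (.c 537002057 .nil))) (.b 18625 .nil))))))))

noncomputable def c4_86 : Tr := (.node (.node (.node (.node (.node (.node (.I .com (.c 2306969673777850313 (.c 16 .nil)) (.b 18625 .nil)) (.I .adp (.c 16 (.c 40 (.c 169943113 .nil))) (.b 18689 .nil))) (.node (.I .com (.c 231045293249046473 (.c 16 .nil)) (.b 18689 .nil)) (.I .adp (.c 24 (.c 32 (.c 1310924873 .nil))) (.b 18561 .nil)))) (.node (.node (.I .com (.c 13748192181200529289 (.c 24 .nil)) (.b 18561 .nil)) (.I .adp (.c 16 (.c 32 (.c 1310924873 .nil))) (.b 18625 .nil))) (.node (.I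 .com (.c 13748192181200529289 (.c 16 .nil)) (.b 18625 .nil)) (.I .adp (.c 8 (.c 40 (.c 48 .nil))) (.b 2306970223667989321 .nil))))) (.node (.node (.node (.I .adp (.c 8 (.c 40 (.c 48 .nil))) (.b 231045467270826889 .nil)) (.I .adp (.c 8 (.c 40 (.c 48 .nil))) (.b 2306970773558193929 .nil))) (.node (.I .adp (.c 8 (.c 40 (.c 48 .nil))) (.b 9024908047478665 .nil)) (.I .adp (.c 8 (.c 40 (.c 537002185 .nil))) (.b 18561 .nil)))) (.node (.node (.I .adp (.c 8 (.c 40 (.c 537002121 .nil))) (.b 18625 .nil)) (.I .adp (.c 8 (.c 40 (.c 169943177 .nil))) (.b 18689 .nil))) (.node (.I .adp (.c 8 (.c 40 (.c 33587401 .nil))) (.b 18689 .nil)) (.I .jac (.c 4609 (.c 8 (.c 32 .nil))) (.b 16 (.b 18753 .nil))))))) (.node (.node (.node (.node (.I .jac (.c 33587465 (.c 8 (.c 24 .nil))) (.b 18753 .nil)) (.I .jac (.c 169943177 (.c 8 (.c 32 .nil))) (.b 18753 .nil))) (.node (.I .jac (.c 4609 (.c 8257 (.c 16 .nil)))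 (.b 18753 .nil)) (.I .adp (.c 231045815314584265 (.c 16 (.c 18753 .nil))) .nil))) (.node (.node (.I .jac (.c 2306969673777850185 (.c 40 (.c 48 .nil))) (.r 16 .nil)) (.I .jac (.c 35468714087241 (.c 40 (.c 48 .nil))) (.r 16 .nil))) (.node (.I .adp (.c 231045293249046409 (.c 16 (.c 18753 .nil))) .nil) (.I .jac (.c 2306970773558193865 (.c 40 (.c 48 .nil))) (.r 16 .nil))))) (.node (.node (.node (.I .jac (.c 35466557976457 (.c 40 (.c 48 .nil))) (.r 16 .nil)) (.I .adp (.c 9024942441009865 (.c 24 (.c 18753 .nil))) .nil)) (.node (.I .jac (.c 9024942441009865 (.c 40 (.c 48 .nil))) (.r 24 .nil)) (.I .adp (.c 9024839260612489 (.c 24 (.c 18753 .nil))) .nil))) (.node (.node (.I .jac (.c 9024839260612489 (.c 40 (.c 48 .nil))) (.r 24 .nil)) (.I .jac (.c 4609 (.c 40 (.c 48 .nil))) (.r 545424521 .nil))) (.node (.I .jac (.c 169943177 (.c 40 (.c 48 .nil))) (.r 8257 .nil)) (.I .jac (.c 16 (.c 40 (.c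 48 .nil))) (.l 59555558875465 .nil))))))) (.node (.node (.node (.node (.node (.I .jac (.c 24 (.c 40 (.c 48 .nil))) (.l 2487083360585 .nil)) (.I .adp (.c 8257 (.c 16 (.c 18753 .nil))) (.l 4609 .nil))) (.node (.I .jac (.c 8257 (.c 40 (.c 48 .nil))) (.r 16 (.l 4609 .nil))) (.I .adp (.c 8257 (.c 24 (.c 18753 .nil))) (.l 2049 .nil)))) (.node (.node (.I .jac (.c 8257 (.c 40 (.c 48 .nil))) (.r 24 (.l 2049 .nil))) (.I .jac (.c 8193 (.c 40 (.c 48 .nil))) (.r 174695561 .nil))) (.node (.I .adp (.c 9024908047478473 (.c 32 (.c 18753 .nil))) .nil) (.I .jac (.c 9024908047478473 (.c 40 (.c 48 .nil))) (.r 32 .nil))))) (.node (.node (.node (.I .adp (.c 231045293249046281 (.c 32 (.c 18753 .nil))) .nil) (.I .jac (.c 231045293249046281 (.c 40 (.c 48 .nil))) (.r 32 .nil))) (.node (.I .adp (.c 9024839260612425 (.c 32 (.c 18753 .nil))) .nil) (.I .jac (.c 9024839260612425 (.c 40 (.c 48 .nil))) (.r 32 .nil))))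 (.node (.node (.I .adp (.c 231045467270826697 (.c 32 (.c 18753 .nil))) .nil) (.I .jac (.c 231045467270826697 (.c 40 (.c 48 .nil))) (.r 32 .nil))) (.node (.I .jac (.c 537002121 (.c 40 (.c 48 .nil))) (.r 4673 .nil)) (.I .jac (.c 16 (.c 40 (.c 48 .nil))) (.l 580749782704393 .nil)))))) (.node (.node (.node (.node (.I .adp (.c 4673 (.c 16 (.c 18753 .nil))) (.l 8193 .nil)) (.I .jac (.c 4673 (.c 40 (.c 48 .nil))) (.r 16 (.l 8193 .nil)))) (.node (.I .jac (.c 32 (.c 40 (.c 48 .nil))) (.l 62886542409865 .nil)) (.I .jac (.c 32 (.c 40 (.c 48 .nil))) (.l 2487083360521 .nil)))) (.node (.node (.I .adp (.c 4673 (.c 32 (.c 18753 .nil))) (.l 2049 .nil)) (.I .jac (.c 4673 (.c 40 (.c 48 .nil))) (.r 32 (.l 2049 .nil)))) (.node (.I .jac (.c 2105481 (.c 40 (.c 48 .nil))) (.r 8385 .nil)) (.I .jac (.c 24 (.c 40 (.c 48 .nil))) (.l 580749782704329 .nil))))) (.node (.node (.node (.I .adp (.c 2113 (.c 24 (.c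 18753 .nil))) (.l 8193 .nil)) (.I .jac (.c 2113 (.c 40 (.c 48 .nil))) (.r 24 (.l 8193 .nil)))) (.node (.I .jac (.c 32 (.c 40 (.c 48 .nil))) (.l 59555558875337 .nil)) (.I .adp (.c 2113 (.c 32 (.c 18753 .nil))) (.l 4609 .nil)))) (.node (.node (.I .jac (.c 2113 (.c 40 (.c 48 .nil))) (.r 32 (.l 4609 .nil))) (.I .com (.c 231045815314584329 (.c 8 .nil)) (.b 18753 .nil))) (.node (.I .com (.c 9024942441009993 (.c 8 .nil)) (.b 18753 .nil)) (.I .com (.c 231045467270826889 (.c 8 .nil)) (.b 18753 .nil))))))))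

noncomputable def c4_87 : Tr := (.node (.node (.node (.node (.node (.node (.I .adp (.c 231045815314584329 (.c 8 (.c 18753 .nil))) .nil) (.I .jac (.c 231045815314584329 (.c 40 (.c 48 .nil))) (.r 8 .nil))) (.node (.I .adp (.c 9024942441009993 (.c 8 (.c 18753 .nil))) .nil) (.I .jac (.c 9024942441009993 (.c 40 (.c 48 .nil))) (.r 8 .nil)))) (.node (.node (.I .adp (.c 231045467270826889 (.c 8 (.c 18753 .nil))) .nil) (.I .jac (.c 231045467270826889 (.c 40 (.c 48 .nil))) (.r 8 .nil))) (.node (.I .jac (.c 513 (.c 40 (.c 48 .nil))) (.r 553912521 .nil)) (.I .com (.c 9024908047478665 (.c 8 .nil)) (.b 18753 .nil))))) (.node (.node (.node (.I .jac (.c 513 (.c 40 (.c 48 .nil))) (.r 179513609 .nil)) (.I .adp (.c 9024908047478665 (.c 8 (.c 18753 .nil))) .nil)) (.node (.I .jac (.c 9024908047478665 (.c 40 (.c 48 .nil))) (.r 8 .nil)) (.I .jac (.c 8 (.c 40 (.c 48 .nil))) (.l 62886542410057 .nil))))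 (.node (.node (.I .jac (.c 0 (.c 43059267 (.c 40 .nil))) (.l 8385 .nil)) (.I .tdb (.c 40 (.c 48 (.c 8 (.c 16 .nil)))) (.b 0 (.l 8385 .nil)))) (.node (.I .tdb (.c 0 (.c 8 (.c 16 (.c 18753 .nil)))) (.l 8385 .nil)) (.I .tdb (.c 40 (.c 48 (.c 0 (.c 16 .nil)))) (.b 8 (.l 8385 .nil))))))) (.node (.node (.node (.node (.I .jac (.c 2105545 (.c 16 (.c 32 .nil))) (.b 18753 .nil)) (.I .jac (.c 2105609 (.c 16 (.c 24 .nil))) (.b 18753 .nil))) (.node (.I .adp (.c 8 (.c 16 (.c 169943305 .nil))) (.b 18753 .nil)) (.I .adp (.c 24 (.c 32 (.c 33587273 .nil))) (.b 18753 .nil)))) (.node (.node (.I .com (.c 9024839260612489 (.c 24 .nil)) (.b 18753 .nil)) (.I .adp (.c 8 (.c 24 (.c 33587465 .nil))) (.b 18753 .nil))) (.node (.I .adp (.c 16 (.c 32 (.c 169943113 .nil))) (.b 18753 .nil)) (.I .com (.c 231045293249046409 (.c 16 .nil)) (.b 18753 .nil))))) (.node (.node (.node (.I .adp (.c 8 (.c 32 (.c 169943177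 .nil))) (.b 18753 .nil)) (.I .adp (.c 8 (.c 32 (.c 33587401 .nil))) (.b 18753 .nil))) (.node (.I .jac (.c 0 (.c 16 (.c 32 .nil))) (.b 48 (.l 174695753 .nil))) (.I .jac (.c 0 (.c 16 (.c 40 .nil))) (.b 32 (.l 174695817 .nil))))) (.node (.node (.I .jac (.c 0 (.c 16 (.c 40 .nil))) (.b 24 (.l 545424777 .nil))) (.I .jac (.c 0 (.c 16 (.c 32 .nil))) (.b 24 (.l 1324066185 .nil)))) (.node (.I .ass (.c 18497 (.c 12801 (.c 553912521 .nil))) .nil) (.I .com (.c 18497 (.c 12801 .nil)) (.r 553912521 .nil))))))) (.node (.node (.node (.node (.node (.I .ass (.c 18497 (.c 2049 (.c 562466121 .nil))) .nil) (.I .com (.c 18497 (.c 2049 .nil)) (.r 562466121 .nil))) (.node (.I .jac (.c 0 (.c 16 (.c 48 .nil))) (.r 13057 (.l 4673 .nil))) (.I .jac (.c 0 (.c 16 (.c 32 .nil))) (.r 12993 (.l 18497 .nil))))) (.node (.node (.I .jac (.c 0 (.c 16 (.c 24 .nil))) (.r 13057 (.l 18497 .nil))) (.I .jac (.c 0 (.c 16 (.c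 48 .nil))) (.r 8385 (.l 12865 .nil)))) (.node (.I .ass (.c 18497 (.c 4609 (.c 1337272585 .nil))) .nil) (.I .com (.c 18497 (.c 4609 .nil)) (.r 1337272585 .nil))))) (.node (.node (.node (.I .ass (.c 18497 (.c 2049 (.c 1350544649 .nil))) .nil) (.I .com (.c 18497 (.c 2049 .nil)) (.r 1350544649 .nil))) (.node (.I .jac (.c 9025011228269449 (.c 24 (.c 40 .nil))) (.b 8 .nil)) (.I .jac (.c 33587593 (.c 12993 (.c 32 .nil))) (.b 8 .nil)))) (.node (.node (.I .jac (.c 33587593 (.c 24 (.c 32 .nil))) (.b 40 (.b 8 .nil))) (.I .jac (.c 33587529 (.c 24 (.c 48 .nil))) (.b 32 (.b 8 .nil)))) (.node (.I .jac (.c 33587465 (.c 12993 (.c 48 .nil))) (.b 8 .nil)) (.I .jac (.c 231045989336561673 (.c 16 (.c 32 .nil))) (.b 8 .nil)))))) (.node (.node (.node (.node (.I .jac (.c 231046163358604169 (.c 16 (.c 40 .nil))) (.b 8 .nil)) (.I .jac (.c 231045815314584585 (.c 16 (.c 40 .nil))) (.b 8 .nil))) (.node (.I .jac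 (.c 169943433 (.c 12929 (.c 32 .nil))) (.b 8 .nil)) (.I .jac (.c 169943433 (.c 16 (.c 32 .nil))) (.b 40 (.b 8 .nil))))) (.node (.node (.I .jac (.c 231045989336561545 (.c 16 (.c 48 .nil))) (.b 8 .nil)) (.I .jac (.c 169943369 (.c 16 (.c 32 .nil))) (.b 48 (.b 8 .nil)))) (.node (.I .jac (.c 169943305 (.c 12929 (.c 48 .nil))) (.b 8 .nil)) (.I .jac (.c 4609 (.c 8321 (.c 48 .nil))) (.b 40 (.b 8 .nil)))))) (.node (.node (.node (.I .jac (.c 4609 (.c 16 (.c 32 .nil))) (.b 48 (.b 40 (.b 8 .nil)))) (.I .jac (.c 13748198893136698249 (.c 16 (.c 24 .nil))) (.b 8 .nil))) (.node (.I .jac (.c 59109071234951844809 (.c 16 (.c 24 .nil))) (.b 8 .nil)) (.I .jac (.c 2306972423229201353 (.c 16 (.c 24 .nil))) (.b 8 .nil)))) (.node (.node (.I .jac (.c 13748196208362034185 (.c 16 (.c 24 .nil))) (.b 8 .nil)) (.I .jac (.c 33587593 (.c 24 (.c 40 .nil))) (.b 32 (.b 8 .nil)))) (.node (.I .jac (.c 9024942441010121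 (.c 24 (.c 48 .nil))) (.b 8 .nil)) (.I .jac (.c 169943305 (.c 16 (.c 40 .nil))) (.b 48 (.b 8 .nil)))))))))

noncomputable def c4_88 : Tr := (.node (.node (.node (.node (.node (.node (.I .jac (.c 4609 (.c 18561 (.c 40 .nil))) (.b 32 (.b 8 .nil))) (.I .jac (.c 4609 (.c 16 (.c 48 .nil))) (.b 40 (.b 32 (.b 8 .nil))))) (.node (.I .jac (.c 4609 (.c 8321 (.c 40 .nil))) (.b 48 (.b 8 .nil))) (.I .jac (.c 4609 (.c 16 (.c 32 .nil))) (.b 40 (.b 48 (.b 8 .nil)))))) (.node (.node (.I .jac (.c 2306971873338800137 (.c 16 (.c 24 .nil))) (.b 8 .nil)) (.I .tdb (.c 0 (.c 24 (.c 32 (.c 40 .nil)))) (.b 18561 (.b 8 .nil)))) (.node (.I .tdb (.c 0 (.c 24 (.c 32 (.c 48 .nil)))) (.b 12929 (.b 8 .nil))) (.I .jac (.c 2306972423229201225 (.c 16 (.c 40 .nil))) (.b 8 .nil))))) (.node (.node (.node (.I .jac (.c 2306970773558194185 (.c 16 (.c 40 .nil))) (.b 8 .nil)) (.I .jac (.c 537002377 (.c 12929 (.c 24 .nil)))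 (.b 8 .nil))) (.node (.I .jac (.c 537002377 (.c 16 (.c 24 .nil))) (.b 40 (.b 8 .nil))) (.I .jac (.c 537002313 (.c 16 (.c 48 .nil))) (.b 24 (.b 8 .nil))))) (.node (.node (.I .jac (.c 537002313 (.c 4737 (.c 48 .nil))) (.b 8 .nil)) (.I .jac (.c 537002185 (.c 12929 (.c 48 .nil))) (.b 8 .nil))) (.node (.I .jac (.c 13748198893136698185 (.c 16 (.c 32 .nil))) (.b 8 .nil)) (.I .jac (.c 537002377 (.c 4737 (.c 40 .nil))) (.b 8 .nil)))))) (.node (.node (.node (.node (.I .jac (.c 537002185 (.c 16 (.c 40 .nil))) (.b 48 (.b 8 .nil))) (.I .jac (.c 8193 (.c 4737 (.c 40 .nil))) (.b 48 (.b 8 .nil)))) (.node (.I .jac (.c 8193 (.c 16 (.c 24 .nil))) (.b 40 (.b 48 (.b 8 .nil)))) (.I .jac (.c 3561346121425097 (.c 32 (.c 48 .nil))) (.b 8 .nil)))) (.node (.node (.I .jac (.c 3561389332330569 (.c 32 (.c 48 .nil))) (.b 8 .nil)) (.I .tdb (.c 0 (.c 16 (.c 40 (.c 24 .nil)))) (.b 18689 (.b 8 .nil)))) (.node (.I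 .tdb (.c 0 (.c 32 (.c 24 (.c 48 .nil)))) (.b 12929 (.b 8 .nil))) (.I .jac (.c 13748193523587632137 (.c 24 (.c 32 .nil))) (.b 8 .nil))))) (.node (.node (.node (.I .jac (.c 3491688652046601 (.c 32 (.c 48 .nil))) (.b 8 .nil)) (.I .tdb (.c 0 (.c 24 (.c 40 (.c 16 .nil)))) (.b 18689 (.b 8 .nil)))) (.node (.I .jac (.c 3632084291164233 (.c 24 (.c 48 .nil))) (.b 8 .nil)) (.I .jac (.c 2718204233 (.c 16 (.c 32 .nil))) (.b 24 (.b 8 .nil))))) (.node (.node (.I .jac (.c 2718204233 (.c 16 (.c 24 .nil))) (.b 32 (.b 8 .nil))) (.I .jac (.c 1310925193 (.c 8321 (.c 24 .nil))) (.b 8 .nil))) (.node (.I .jac (.c 1310925193 (.c 4737 (.c 32 .nil))) (.b 8 .nil)) (.I .jac (.c 2306970223667989513 (.c 24 (.c 40 .nil))) (.b 8 .nil))))))) (.node (.node (.node (.node (.node (.I .jac (.c 537002121 (.c 24 (.c 48 .nil))) (.b 40 (.b 8 .nil))) (.I .jac (.c 537002121 (.c 24 (.c 40 .nil))) (.b 48 (.b 8 .nil)))) (.node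 (.I .jac (.c 231045467270827017 (.c 32 (.c 40 .nil))) (.b 8 .nil)) (.I .jac (.c 9024908047478793 (.c 32 (.c 40 .nil))) (.b 8 .nil)))) (.node (.node (.I .jac (.c 169943177 (.c 32 (.c 40 .nil))) (.b 48 (.b 8 .nil))) (.I .jac (.c 33587401 (.c 32 (.c 48 .nil))) (.b 40 (.b 8 .nil)))) (.node (.I .jac (.c 33587401 (.c 32 (.c 40 .nil))) (.b 48 (.b 8 .nil))) (.I .jac (.c 62886542410185 (.c 32 (.c 40 .nil))) (.b 8 .nil))))) (.node (.node (.node (.I .jac (.c 62886542410121 (.c 32 (.c 48 .nil))) (.b 8 .nil)) (.I .jac (.c 2803715 (.c 32 (.c 48 .nil))) (.b 40 (.b 8 .nil)))) (.node (.I .jac (.c 1310925065 (.c 16 (.c 48 .nil))) (.b 24 (.b 8 .nil))) (.I .jac (.c 1310925065 (.c 4737 (.c 48 .nil))) (.b 8 .nil)))) (.node (.node (.I .jac (.c 1310925001 (.c 8321 (.c 48 .nil))) (.b 8 .nil)) (.I .jac (.c 12801 (.c 18561 (.c 24 .nil))) (.b 32 (.b 8 .nil)))) (.node (.I .jac (.c 12801 (.c 16 (.c 48 .nil)))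 (.b 24 (.b 32 (.b 8 .nil)))) (.I .jac (.c 12801 (.c 8321 (.c 24 .nil))) (.b 48 (.b 8 .nil))))))) (.node (.node (.node (.node (.I .jac (.c 12801 (.c 16 (.c 32 .nil))) (.b 24 (.b 48 (.b 8 .nil)))) (.I .jac (.c 13748194865974800265 (.c 16 (.c 48 .nil))) (.b 8 .nil))) (.node (.I .jac (.c 12801 (.c 16 (.c 48 .nil))) (.b 32 (.b 24 (.b 8 .nil)))) (.I .jac (.c 12801 (.c 4737 (.c 32 .nil))) (.b 48 (.b 8 .nil))))) (.node (.node (.I .jac (.c 12801 (.c 16 (.c 24 .nil))) (.b 32 (.b 48 (.b 8 .nil)))) (.I .jac (.c 59109071234951844681 (.c 16 (.c 40 .nil))) (.b 8 .nil))) (.node (.I .tdb (.c 0 (.c 16 (.c 32 (.c 24 .nil)))) (.b 18753 (.b 8 .nil))) (.I .tdb (.c 0 (.c 40 (.c 24 (.c 32 .nil)))) (.b 18561 (.b 8 .nil)))))) (.node (.node (.node (.I .jac (.c 59109071234951844617 (.c 24 (.c 40 .nil))) (.b 8 .nil)) (.I .tdb (.c 0 (.c 24 (.c 32 (.c 16 .nil)))) (.b 18753 (.b 8 .nil)))) (.node (.I .tdb (.c 0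 (.c 40 (.c 16 (.c 32 .nil)))) (.b 18625 (.b 8 .nil))) (.I .jac (.c 2718204169 (.c 16 (.c 40 .nil))) (.b 24 (.b 8 .nil))))) (.node (.node (.I .jac (.c 2718204169 (.c 16 (.c 24 .nil))) (.b 40 (.b 8 .nil))) (.I .jac (.c 1310924937 (.c 24 (.c 48 .nil))) (.b 32 (.b 8 .nil)))) (.node (.I .tdb (.c 0 (.c 32 (.c 16 (.c 24 .nil)))) (.b 18753 (.b 8 .nil))) (.I .jac (.c 2718204105 (.c 16 (.c 40 .nil))) (.b 32 (.b 8 .nil)))))))))

noncomputable def c4_89 : Tr := (.node (.node (.node (.node (.node (.node (.I .jac (.c 2718204041 (.c 24 (.c 32 .nil))) (.b 40 (.b 8 .nil))) (.I .jac (.c 18433 (.c 8321 (.c 24 .nil))) (.b 40 (.b 8 .nil)))) (.node (.I .jac (.c 18433 (.c 16 (.c 32 .nil))) (.b 24 (.b 40 (.b 8 .nil)))) (.I .jac (.c 18433 (.c 16 (.c 40 .nil))) (.b 32 (.b 24 (.b 8 .nil)))))) (.node (.node (.I .jac (.c 2306971873338799881 (.c 24 (.c 48 .nil))) (.b 8 .nil)) (.I .jac (.c 8193 (.c 16 (.c 40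 .nil))) (.b 18625 (.b 8 .nil)))) (.node (.I .jac (.c 8193 (.c 16 (.c 40 .nil))) (.b 18625 (.l 8 .nil))) (.I .jac (.c 13748196208362033929 (.c 24 (.c 48 .nil))) (.b 8 .nil))))) (.node (.node (.node (.I .jac (.c 12801 (.c 16 (.c 32 .nil))) (.b 18625 (.b 8 .nil))) (.I .jac (.c 12801 (.c 16 (.c 32 .nil))) (.b 18625 (.l 8 .nil)))) (.node (.I .jac (.c 9024976834606921 (.c 32 (.c 48 .nil))) (.b 8 .nil)) (.I .jac (.c 4609 (.c 16 (.c 40 .nil))) (.b 18689 (.b 8 .nil))))) (.node (.node (.I .jac (.c 4609 (.c 16 (.c 40 .nil))) (.b 18689 (.l 8 .nil))) (.I .jac (.c 12801 (.c 16 (.c 24 .nil))) (.b 18689 (.b 8 .nil)))) (.node (.I .jac (.c 12801 (.c 16 (.c 24 .nil))) (.b 18689 (.l 8 .nil))) (.I .jac (.c 2049 (.c 24 (.c 40 .nil))) (.b 18689 (.b 8 .nil))))))) (.node (.node (.node (.node (.I .jac (.c 9024942441009993 (.c 40 (.c 48 .nil))) (.b 8 .nil)) (.I .jac (.c 231045467270826889 (.c 40 (.c 48 .nil)))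 (.b 8 .nil))) (.node (.I .jac (.c 4609 (.c 16 (.c 32 .nil))) (.b 18753 (.l 8 .nil))) (.I .jac (.c 2306970773558193929 (.c 40 (.c 48 .nil))) (.b 8 .nil)))) (.node (.node (.I .jac (.c 9024908047478665 (.c 40 (.c 48 .nil))) (.b 8 .nil)) (.I .jac (.c 8193 (.c 16 (.c 24 .nil))) (.b 18753 (.b 8 .nil)))) (.node (.I .jac (.c 8193 (.c 16 (.c 24 .nil))) (.b 18753 (.l 8 .nil))) (.I .jac (.c 598967998054665 (.c 40 (.c 48 .nil))) (.b 8 .nil))))) (.node (.node (.node (.I .adp (.c 16 (.c 40 (.c 48 .nil))) (.b 8385 (.l 513 .nil))) (.I .adp (.c 16 (.c 40 (.c 24 .nil))) (.b 18689 (.l 513 .nil)))) (.node (.I .adp (.c 16 (.c 40 (.c 32 .nil))) (.b 18625 (.l 513 .nil))) (.I .jac (.c 35473026505609 (.c 24 (.c 40 .nil))) (.b 16 .nil)))) (.node (.node (.I .jac (.c 35468714087433 (.c 24 (.c 40 .nil))) (.b 16 .nil)) (.I .jac (.c 35470870263689 (.c 24 (.c 48 .nil))) (.b 16 .nil))) (.node (.I .jac (.c 2105673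 (.c 18625 (.c 32 .nil))) (.b 16 .nil)) (.I .jac (.c 231045815314584585 (.c 8 (.c 40 .nil))) (.l 16 .nil))))))) (.node (.node (.node (.node (.node (.I .jac (.c 169943369 (.c 8 (.c 48 .nil))) (.b 32 (.l 16 .nil))) (.I .jac (.c 169943369 (.c 8 (.c 32 .nil))) (.b 48 (.l 16 .nil)))) (.node (.I .jac (.c 4609 (.c 12865 (.c 48 .nil))) (.b 32 (.l 16 .nil))) (.I .jac (.c 4609 (.c 12865 (.c 32 .nil))) (.b 48 (.l 16 .nil))))) (.node (.node (.I .com (.c 1459028238553209570433275079308972094006562919290924266667282316564101833 (.c 16 .nil)) .nil) (.I .com (.c 1459023842844933950499556010948852603115774541335620372854307360581525193 (.c 16 .nil)) .nil)) (.node (.I .com (.c 1459028238553206337213515306440430516546012989717776346166102983221297865 (.c 16 .nil)) .nil) (.I .jac (.c 13748198893136698249 (.c 8 (.c 24 .nil))) (.l 16 .nil))))) (.node (.node (.node (.I .jac (.c 13748196208362034185 (.c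 8 (.c 24 .nil))) (.l 16 .nil)) (.I .com (.c 18291662791002284499406956391081788295004652320918130873121368043579831919171273 (.c 16 .nil)) .nil)) (.node (.I .com (.c 14502389782864780551906021094515387666984776397839823428933576006765894833865 (.c 16 .nil)) .nil) (.I .com (.c 18291648502882416156398562140872571245855661258527208702531966255903161849632457 (.c 16 .nil)) .nil))) (.node (.node (.I .com (.c 18291662791002284499406956391081788291907863774476994583244624046135249871146825 (.c 16 .nil)) .nil) (.I .com (.c 14502389782864780551906021094515387579787133456768245023281343434378065071945 (.c 16 .nil)) .nil)) (.node (.I .com (.c 18291648502882416156398562140872571242758873921579575128104968541596358313905993 (.c 16 .nil)) .nil) (.I .jac (.c 35473026505673 (.c 24 (.c 32 .nil))) (.b 16 .nil)))))) (.node (.node (.node (.node (.I .jac (.c 2105609 (.c 18625 (.c 40 .nil))) (.b 16 .nil))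 (.I .jac (.c 2105609 (.c 24 (.c 40 .nil))) (.b 48 (.b 16 .nil)))) (.node (.I .jac (.c 231045815314584521 (.c 8 (.c 48 .nil))) (.l 16 .nil)) (.I .com (.c 1459023842844932333893328974360732658464102006581455240230057549752828617 (.c 16 .nil)) .nil))) (.node (.node (.I .jac (.c 59109074018392946569 (.c 8 (.c 24 .nil))) (.l 16 .nil)) (.I .jac (.c 2306971873338800137 (.c 8 (.c 24 .nil))) (.l 16 .nil))) (.node (.I .com (.c 14502375955699783334294794239894626584551595748202332602340910330646620952265 (.c 16 .nil)) .nil) (.I .com (.c 14502375955699783334294794239894626497353994376020494329912817139171932376905 (.c 16 .nil)) .nil)))) (.node (.node (.node (.I .ass (.c 16 (.c 231045989336561353 (.c 18689 .nil))) .nil) (.I .ass (.c 231045989336561353 (.c 16 (.c 18689 .nil))) .nil)) (.node (.I .com (.c 16 (.c 231045989336561353 .nil)) (.r 18689 .nil)) (.I .ass (.c 16 (.c 13748194865974800073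 (.c 18689 .nil))) .nil))) (.node (.node (.I .ass (.c 13748194865974800073 (.c 16 (.c 18689 .nil))) .nil) (.I .com (.c 16 (.c 13748194865974800073 .nil)) (.r 18689 .nil))) (.node (.I .ass (.c 16 (.c 231045815314584265 (.c 18753 .nil))) .nil) (.I .ass (.c 231045815314584265 (.c 16 (.c 18753 .nil))) .nil)))))))

noncomputable def c4_90 : Tr := (.node (.node (.node (.node (.node (.node (.I .com (.c 16 (.c 231045815314584265 .nil)) (.r 18753 .nil)) (.I .ass (.c 16 (.c 2306970773558193865 (.c 18753 .nil))) .nil)) (.node (.I .ass (.c 2306970773558193865 (.c 16 (.c 18753 .nil))) .nil) (.I .com (.c 16 (.c 2306970773558193865 .nil)) (.r 18753 .nil)))) (.node (.node (.I .tdb (.c 0 (.c 8 (.c 32 (.c 40 .nil)))) (.b 18625 (.b 16 .nil))) (.I .tdb (.c 0 (.c 24 (.c 32 (.c 48 .nil)))) (.b 12865 (.b 16 .nil)))) (.node (.I .tdb (.c 0 (.c 24 (.c 40 (.c 48 .nil)))) (.b 8257 (.b 16 .nil))) (.I .jac (.c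 2306972423229201225 (.c 8 (.c 40 .nil))) (.l 16 .nil))))) (.node (.node (.node (.I .jac (.c 2306970773558194185 (.c 8 (.c 40 .nil))) (.l 16 .nil)) (.I .jac (.c 537002377 (.c 12865 (.c 24 .nil))) (.l 16 .nil))) (.node (.I .jac (.c 2306971873338799945 (.c 8 (.c 48 .nil))) (.l 16 .nil)) (.I .jac (.c 537002185 (.c 8 (.c 48 .nil))) (.b 40 (.l 16 .nil))))) (.node (.node (.I .jac (.c 537002185 (.c 12865 (.c 48 .nil))) (.l 16 .nil)) (.I .jac (.c 8193 (.c 8 (.c 40 .nil))) (.b 48 (.b 24 (.l 16 .nil))))) (.node (.I .jac (.c 8193 (.c 8 (.c 48 .nil))) (.b 24 (.b 40 (.l 16 .nil)))) (.I .jac (.c 8193 (.c 4673 (.c 48 .nil))) (.b 40 (.l 16 .nil))))))) (.node (.node (.node (.node (.I .jac (.c 8193 (.c 8 (.c 24 .nil))) (.b 48 (.b 40 (.l 16 .nil)))) (.I .jac (.c 8193 (.c 12865 (.c 24 .nil))) (.b 48 (.l 16 .nil)))) (.node (.I .jac (.c 8193 (.c 8 (.c 40 .nil))) (.b 24 (.b 48 (.l 16 .nil)))) (.I .com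 (.c 14502389782864777333305098924298644562517327697955955914112649312297378504393 (.c 16 .nil)) .nil))) (.node (.node (.I .com (.c 14502375955699778506396863322320873579733869446538369716876502350880995377865 (.c 16 .nil)) .nil) (.I .jac (.c 59109068451510808521 (.c 8 (.c 32 .nil))) (.l 16 .nil))) (.node (.I .com (.c 18291662791002284158804837459398313859147950704863321659390321634942710146874057 (.c 16 .nil)) .nil) (.I .com (.c 18291662791002284158804837459398313854502767885201617267823299846484956483506057 (.c 16 .nil)) .nil)))) (.node (.node (.node (.I .jac (.c 537002377 (.c 8 (.c 40 .nil))) (.b 24 (.l 16 .nil))) (.I .jac (.c 59109074018392946505 (.c 8 (.c 32 .nil))) (.l 16 .nil))) (.node (.I .com (.c 1459028238553209570433275079308970782084406862455148356788611385195368329 (.c 16 .nil)) .nil) (.I .ass (.c 16 (.c 2306972423229201097 (.c 12993 .nil))) .nil))) (.node (.node (.I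 .com (.c 16 (.c 2306972423229201097 .nil)) (.r 12993 .nil)) (.I .ass (.c 16 (.c 59109071234951844553 (.c 12993 .nil))) .nil)) (.node (.I .com (.c 16 (.c 59109071234951844553 .nil)) (.r 12993 .nil)) (.I .jac (.c 15038410136445065 (.c 32 (.c 40 .nil))) (.b 16 .nil))))))) (.node (.node (.node (.node (.node (.I .jac (.c 15038454533712969 (.c 32 (.c 40 .nil))) (.b 16 .nil)) (.I .jac (.c 3561367726845001 (.c 32 (.c 48 .nil))) (.b 16 .nil))) (.node (.I .tdb (.c 0 (.c 8 (.c 24 (.c 48 .nil)))) (.b 13057 (.b 16 .nil))) (.I .tdb (.c 0 (.c 32 (.c 24 (.c 48 .nil)))) (.b 12865 (.b 16 .nil))))) (.node (.node (.I .jac (.c 13748192181200529417 (.c 24 (.c 32 .nil))) (.b 16 .nil)) (.I .jac (.c 12801 (.c 8 (.c 48 .nil))) (.b 8385 (.b 16 .nil)))) (.node (.I .com (.c 1459023842844933950499556010948850853888868142414793345823926992799666121 (.c 16 .nil)) .nil) (.I .com (.c 1459023842844932333893328974360730471930469007931632801926278619086573577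 (.c 16 .nil)) .nil)))) (.node (.node (.node (.I .jac (.c 59109074018392946377 (.c 24 (.c 32 .nil))) (.b 16 .nil)) (.I .jac (.c 14629225721520393 (.c 32 (.c 40 .nil))) (.b 16 .nil))) (.node (.I .jac (.c 3423058053193993 (.c 32 (.c 48 .nil))) (.b 16 .nil)) (.I .tdb (.c 0 (.c 24 (.c 40 (.c 8 .nil)))) (.b 18689 (.b 16 .nil))))) (.node (.node (.I .tdb (.c 0 (.c 24 (.c 48 (.c 8 .nil)))) (.b 13057 (.b 16 .nil))) (.I .jac (.c 3632062472293449 (.c 24 (.c 48 .nil))) (.b 16 .nil))) (.node (.I .jac (.c 3632040653488265 (.c 24 (.c 48 .nil))) (.b 16 .nil)) (.I .jac (.c 2718204233 (.c 8257 (.c 24 .nil))) (.l 16 .nil)))))) (.node (.node (.node (.node (.I .jac (.c 2718204233 (.c 8 (.c 32 .nil))) (.b 24 (.l 16 .nil))) (.I .jac (.c 2718204233 (.c 4673 (.c 32 .nil))) (.l 16 .nil))) (.node (.I .jac (.c 2718204233 (.c 8 (.c 24 .nil))) (.b 32 (.l 16 .nil))) (.I .jac (.c 1310925193 (.c 4673 (.c 32 .nil)))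 (.l 16 .nil)))) (.node (.node (.I .jac (.c 1310925193 (.c 8 (.c 24 .nil))) (.b 32 (.l 16 .nil))) (.I .jac (.c 2306969673777850313 (.c 24 (.c 48 .nil))) (.b 16 .nil))) (.node (.I .jac (.c 537002057 (.c 24 (.c 40 .nil))) (.b 48 (.b 16 .nil))) (.I .ass (.c 16 (.c 59109074018392946377 (.c 8385 .nil))) .nil)))) (.node (.node (.node (.I .com (.c 16 (.c 59109074018392946377 .nil)) (.r 8385 .nil)) (.I .ass (.c 16 (.c 13748198893136698057 (.c 8385 .nil))) .nil)) (.node (.I .com (.c 16 (.c 13748198893136698057 .nil)) (.r 8385 .nil)) (.I .jac (.c 231045293249046537 (.c 32 (.c 40 .nil))) (.b 16 .nil)))) (.node (.node (.I .jac (.c 35466557976585 (.c 32 (.c 40 .nil))) (.b 16 .nil)) (.I .jac (.c 2728451 (.c 32 (.c 48 .nil))) (.b 40 (.b 16 .nil)))) (.node (.I .jac (.c 2728451 (.c 32 (.c 40 .nil))) (.b 48 (.b 16 .nil))) (.I .jac (.c 1310925065 (.c 4673 (.c 48 .nil))) (.l 16 .nil))))))))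

noncomputable def c4_91 : Tr := (.node (.node (.node (.node (.node (.node (.I .jac (.c 1310925065 (.c 8 (.c 24 .nil))) (.b 48 (.l 16 .nil))) (.I .jac (.c 12801 (.c 8 (.c 32 .nil))) (.b 48 (.b 24 (.l 16 .nil))))) (.node (.I .jac (.c 12801 (.c 8 (.c 24 .nil))) (.b 48 (.b 32 (.l 16 .nil)))) (.I .com (.c 18291648502882415134592803966624182683633491467101037772051102322018599703773897 (.c 16 .nil)) .nil))) (.node (.node (.I .com (.c 14502389782864777333305098924298644388122041815812818455095509447385485234121 (.c 16 .nil)) .nil) (.I .jac (.c 12801 (.c 8 (.c 48 .nil))) (.b 32 (.b 24 (.l 16 .nil))))) (.node (.I .jac (.c 12801 (.c 8 (.c 24 .nil))) (.b 32 (.b 48 (.l 16 .nil)))) (.I .jac (.c 59109071234951844681 (.c 8 (.c 40 .nil))) (.l 16 .nil))))) (.node (.node (.node (.I .tdb (.c 0 (.c 40 (.c 24 (.c 32 .nil)))) (.b 18497 (.b 16 .nil))) (.I .jac (.c 8193 (.c 8 (.c 48 .nil))) (.b 12993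 (.b 16 .nil)))) (.node (.I .com (.c 1459028238553206337213515306440428330009086228327239189161463841863602185 (.c 16 .nil)) .nil) (.I .jac (.c 59109071234951844553 (.c 24 (.c 40 .nil))) (.b 16 .nil)))) (.node (.node (.I .jac (.c 18433 (.c 8 (.c 32 .nil))) (.b 12993 (.l 16 .nil))) (.I .jac (.c 2718204169 (.c 4673 (.c 40 .nil))) (.l 16 .nil))) (.node (.I .jac (.c 2718204169 (.c 8 (.c 24 .nil))) (.b 40 (.l 16 .nil))) (.I .jac (.c 1310924873 (.c 24 (.c 48 .nil))) (.b 32 (.b 16 .nil))))))) (.node (.node (.node (.node (.I .jac (.c 231046163358603977 (.c 32 (.c 40 .nil))) (.b 16 .nil)) (.I .com (.c 14502375955699778506396863322320873361739866016083810321336355243778150322185 (.c 16 .nil)) .nil)) (.node (.I .com (.c 18291648502882415134592803966624182675891523124731954052224036846943014717575177 (.c 16 .nil)) .nil) (.I .jac (.c 18433 (.c 8 (.c 24 .nil))) (.b 13057 (.l 16 .nil))))) (.node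 (.node (.I .tdb (.c 0 (.c 32 (.c 8 (.c 24 .nil)))) (.b 18753 (.b 16 .nil))) (.I .jac (.c 2718204105 (.c 8 (.c 40 .nil))) (.b 32 (.l 16 .nil)))) (.node (.I .jac (.c 2718204105 (.c 8257 (.c 40 .nil))) (.l 16 .nil)) (.I .jac (.c 513 (.c 24 (.c 48 .nil))) (.b 13057 (.b 16 .nil)))))) (.node (.node (.node (.I .jac (.c 2718203977 (.c 24 (.c 32 .nil))) (.b 40 (.b 16 .nil))) (.I .jac (.c 18433 (.c 12865 (.c 24 .nil))) (.b 32 (.l 16 .nil)))) (.node (.I .jac (.c 18433 (.c 8 (.c 40 .nil))) (.b 24 (.b 32 (.l 16 .nil)))) (.I .jac (.c 18433 (.c 8 (.c 32 .nil))) (.b 24 (.b 40 (.l 16 .nil)))))) (.node (.node (.I .jac (.c 18433 (.c 8 (.c 40 .nil))) (.b 32 (.b 24 (.l 16 .nil)))) (.I .jac (.c 18433 (.c 4673 (.c 32 .nil))) (.b 40 (.l 16 .nil)))) (.node (.I .jac (.c 18433 (.c 8 (.c 24 .nil))) (.b 32 (.b 40 (.l 16 .nil)))) (.I .jac (.c 8193 (.c 8 (.c 40 .nil))) (.b 18625 (.l 16 .nil)))))))) (.node (.node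 (.node (.node (.node (.I .jac (.c 13748192181200529225 (.c 32 (.c 48 .nil))) (.b 16 .nil)) (.I .jac (.c 35470870263625 (.c 32 (.c 48 .nil))) (.b 16 .nil))) (.node (.I .jac (.c 4609 (.c 8 (.c 40 .nil))) (.b 18689 (.b 16 .nil))) (.I .jac (.c 0 (.c 12865 (.c 24 .nil))) (.b 18689 (.b 16 .nil))))) (.node (.node (.I .jac (.c 0 (.c 8 (.c 40 .nil))) (.b 24 (.b 18689 (.b 16 .nil)))) (.I .jac (.c 13748194865974800073 (.c 32 (.c 48 .nil))) (.b 16 .nil))) (.node (.I .jac (.c 12801 (.c 8 (.c 24 .nil))) (.b 18689 (.l 16 .nil))) (.I .jac (.c 513 (.c 24 (.c 40 .nil))) (.b 18689 (.l 16 .nil)))))) (.node (.node (.node (.I .jac (.c 231045815314584265 (.c 40 (.c 48 .nil))) (.b 16 .nil)) (.I .jac (.c 2306969673777850185 (.c 40 (.c 48 .nil))) (.b 16 .nil))) (.node (.I .jac (.c 35468714087241 (.c 40 (.c 48 .nil))) (.b 16 .nil)) (.I .jac (.c 4609 (.c 8 (.c 32 .nil))) (.b 18753 (.b 16 .nil))))) (.node (.node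 (.I .jac (.c 59555558875465 (.c 40 (.c 48 .nil))) (.b 16 .nil)) (.I .jac (.c 580749782704393 (.c 40 (.c 48 .nil))) (.b 16 .nil))) (.node (.I .adp (.c 24 (.c 40 (.c 48 .nil))) (.b 8257 (.l 2049 .nil))) (.I .adp (.c 24 (.c 40 (.c 8 .nil))) (.b 18689 (.l 2049 .nil))))))) (.node (.node (.node (.node (.I .com (.c 12865 (.c 24 .nil)) (.b 18689 (.l 2049 .nil))) (.I .adp (.c 24 (.c 40 (.c 32 .nil))) (.b 18497 (.l 2049 .nil)))) (.node (.I .jac (.c 8 (.c 24 (.c 32 .nil))) (.b 18753 (.l 2049 .nil))) (.I .com (.c 8257 (.c 24 .nil)) (.b 18753 (.l 2049 .nil))))) (.node (.node (.I .adp (.c 24 (.c 32 (.c 8 .nil))) (.b 18753 (.l 2049 .nil))) (.I .adp (.c 24 (.c 32 (.c 48 .nil))) (.b 12865 (.l 2049 .nil)))) (.node (.I .adp (.c 24 (.c 32 (.c 40 .nil))) (.b 18497 (.l 2049 .nil))) (.I .jac (.c 169943369 (.c 32 (.c 48 .nil))) (.b 16 (.b 8 .nil)))))) (.node (.node (.node (.I .jac (.c 4609 (.c 32 (.c 48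 .nil))) (.b 40 (.b 16 (.b 8 .nil)))) (.I .jac (.c 537002313 (.c 24 (.c 48 .nil))) (.b 16 (.b 8 .nil)))) (.node (.I .jac (.c 8193 (.c 24 (.c 48 .nil))) (.b 40 (.b 16 (.b 8 .nil)))) (.I .jac (.c 8193 (.c 12993 (.c 48 .nil))) (.b 16 (.b 8 .nil))))) (.node (.node (.I .jac (.c 8193 (.c 24 (.c 40 .nil))) (.b 48 (.b 16 (.b 8 .nil)))) (.I .jac (.c 2718204233 (.c 24 (.c 32 .nil))) (.b 16 (.b 8 .nil)))) (.node (.I .jac (.c 169943433 (.c 32 (.c 40 .nil))) (.b 16 (.l 8 .nil))) (.I .jac (.c 169943369 (.c 32 (.c 48 .nil))) (.b 16 (.l 8 .nil)))))))))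

noncomputable def c4_92 : Tr := (.node (.node (.node (.node (.node (.node (.I .jac (.c 4609 (.c 32 (.c 40 .nil))) (.b 48 (.b 16 (.l 8 .nil)))) (.I .jac (.c 537002377 (.c 24 (.c 40 .nil))) (.b 16 (.l 8 .nil)))) (.node (.I .jac (.c 537002313 (.c 24 (.c 48 .nil))) (.b 16 (.l 8 .nil))) (.I .jac (.c 8193 (.c 24 (.c 40 .nil))) (.b 48 (.b 16 (.l 8 .nil)))))) (.node (.node (.I .jac (.c 1310925193 (.c 24 (.c 32 .nil))) (.b 16 (.l 8 .nil))) (.I .jac (.c 169943433 (.c 32 (.c 40 .nil))) (.b 8 (.b 16 .nil)))) (.node (.I .jac (.c 537002377 (.c 24 (.c 40 .nil))) (.b 8 (.b 16 .nil))) (.I .jac (.c 8193 (.c 12993 (.c 48 .nil))) (.b 8 (.b 16 .nil)))))) (.node (.node (.node (.I .jac (.c 8193 (.c 24 (.c 40 .nil))) (.b 48 (.b 8 (.b 16 .nil)))) (.I .jac (.c 1310925193 (.c 24 (.c 32 .nil))) (.b 8 (.b 16 .nil)))) (.node (.I .jac (.c 169943433 (.c 32 (.c 40 .nil))) (.b 8 (.l 16 .nil))) (.I .jac (.c 4609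 (.c 32 (.c 48 .nil))) (.b 40 (.b 8 (.l 16 .nil)))))) (.node (.node (.I .jac (.c 4609 (.c 32 (.c 40 .nil))) (.b 48 (.b 8 (.l 16 .nil)))) (.I .jac (.c 537002377 (.c 24 (.c 40 .nil))) (.b 8 (.l 16 .nil)))) (.node (.I .jac (.c 8193 (.c 24 (.c 48 .nil))) (.b 40 (.b 8 (.l 16 .nil)))) (.I .jac (.c 8193 (.c 12993 (.c 48 .nil))) (.b 8 (.l 16 .nil))))))) (.node (.node (.node (.node (.I .jac (.c 2718204233 (.c 24 (.c 32 .nil))) (.b 8 (.l 16 .nil))) (.I .adp (.c 40 (.c 48 (.c 32 .nil))) (.b 4609 (.l 2113 .nil)))) (.node (.I .com (.c 18689 (.c 40 .nil)) (.b 4609 (.l 2113 .nil))) (.I .adp (.c 40 (.c 48 (.c 24 .nil))) (.b 8193 (.l 2113 .nil))))) (.node (.node (.I .com (.c 18625 (.c 40 .nil)) (.b 8193 (.l 2113 .nil))) (.I .adp (.c 40 (.c 48 (.c 0 .nil))) (.b 8385 (.l 2113 .nil)))) (.node (.I .com (.c 18433 (.c 40 .nil)) (.b 8385 (.l 2113 .nil))) (.I .jac (.c 1310925065 (.c 24 (.c 48 .nil))) (.b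 16 (.b 8 .nil)))))) (.node (.node (.node (.I .jac (.c 12801 (.c 8385 (.c 48 .nil))) (.b 16 (.b 8 .nil))) (.I .jac (.c 12801 (.c 24 (.c 32 .nil))) (.b 48 (.b 16 (.b 8 .nil))))) (.node (.I .jac (.c 2718204169 (.c 24 (.c 40 .nil))) (.b 16 (.b 8 .nil))) (.I .jac (.c 1310925065 (.c 24 (.c 48 .nil))) (.b 16 (.l 8 .nil))))) (.node (.node (.I .jac (.c 12801 (.c 24 (.c 32 .nil))) (.b 48 (.b 16 (.l 8 .nil)))) (.I .jac (.c 12801 (.c 8385 (.c 48 .nil))) (.b 8 (.b 16 .nil)))) (.node (.I .jac (.c 12801 (.c 24 (.c 32 .nil))) (.b 48 (.b 8 (.b 16 .nil)))) (.I .jac (.c 12801 (.c 24 (.c 48 .nil))) (.b 32 (.b 8 (.l 16 .nil))))))))) (.node (.node (.node (.node (.node (.I .jac (.c 12801 (.c 24 (.c 32 .nil))) (.b 48 (.b 8 (.l 16 .nil)))) (.I .adp (.c 32 (.c 48 (.c 40 .nil))) (.b 4609 (.l 2113 .nil)))) (.node (.I .adp (.c 32 (.c 48 (.c 24 .nil))) (.b 12801 (.l 2113 .nil))) (.I .com (.c 18625 (.c 32 .nil))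 (.b 12801 (.l 2113 .nil))))) (.node (.node (.I .adp (.c 32 (.c 48 (.c 0 .nil))) (.b 12993 (.l 2113 .nil))) (.I .com (.c 18433 (.c 32 .nil)) (.b 12993 (.l 2113 .nil)))) (.node (.I .jac (.c 2718204105 (.c 32 (.c 40 .nil))) (.b 8 (.b 16 .nil))) (.I .jac (.c 2718204105 (.c 32 (.c 40 .nil))) (.b 8 (.l 16 .nil)))))) (.node (.node (.node (.I .jac (.c 18433 (.c 12993 (.c 32 .nil))) (.b 16 (.b 8 .nil))) (.I .jac (.c 18433 (.c 24 (.c 40 .nil))) (.b 32 (.b 16 (.b 8 .nil))))) (.node (.I .jac (.c 18433 (.c 8385 (.c 40 .nil))) (.b 16 (.b 8 .nil))) (.I .jac (.c 18433 (.c 12993 (.c 32 .nil))) (.b 8 (.b 16 .nil))))) (.node (.node (.I .jac (.c 18433 (.c 24 (.c 40 .nil))) (.b 32 (.b 8 (.b 16 .nil)))) (.I .jac (.c 18433 (.c 8385 (.c 40 .nil))) (.b 8 (.b 16 .nil)))) (.node (.I .jac (.c 18433 (.c 24 (.c 32 .nil))) (.b 40 (.b 8 (.b 16 .nil)))) (.I .jac (.c 18433 (.c 12993 (.c 32 .nil))) (.b 8 (.l 16 .nil)))))))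 (.node (.node (.node (.node (.I .jac (.c 18433 (.c 24 (.c 32 .nil))) (.b 40 (.b 8 (.l 16 .nil)))) (.I .adp (.c 12801 (.c 32 (.c 18625 .nil))) (.l 2113 .nil))) (.node (.I .adp (.c 8193 (.c 40 (.c 18625 .nil))) (.l 2113 .nil)) (.I .jac (.c 0 (.c 24 (.c 40 .nil))) (.b 18689 (.l 2113 .nil))))) (.node (.node (.I .jac (.c 0 (.c 24 (.c 40 .nil))) (.b 18689 (.b 16 (.b 8 .nil)))) (.I .jac (.c 1310925001 (.c 32 (.c 48 .nil))) (.b 16 (.l 8 .nil)))) (.node (.I .jac (.c 1310925001 (.c 32 (.c 48 .nil))) (.b 8 (.b 16 .nil))) (.I .jac (.c 0 (.c 24 (.c 40 .nil))) (.b 18689 (.b 8 (.b 16 .nil))))))) (.node (.node (.node (.I .jac (.c 1310925001 (.c 32 (.c 48 .nil))) (.b 8 (.l 16 .nil))) (.I .jac (.c 0 (.c 24 (.c 40 .nil))) (.b 18689 (.b 8 (.l 16 .nil))))) (.node (.I .adp (.c 4609 (.c 40 (.c 18689 .nil))) (.l 2113 .nil)) (.I .adp (.c 0 (.c 40 (.c 48 .nil))) (.b 8385 (.l 2113 .nil))))) (.node (.node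 (.I .adp (.c 0 (.c 12993 (.c 18689 .nil))) (.l 2113 .nil)) (.I .jac (.c 0 (.c 32 (.c 48 .nil))) (.r 12993 (.l 2113 .nil)))) (.node (.I .adp (.c 0 (.c 40 (.c 24 .nil))) (.b 18689 (.l 2113 .nil))) (.I .adp (.c 0 (.c 40 (.c 32 .nil))) (.b 18625 (.l 2113 .nil)))))))))

noncomputable def c4_93 : Tr := (.node (.node (.node (.node (.node (.node (.I .jac (.c 169943305 (.c 40 (.c 48 .nil))) (.b 16 (.b 8 .nil))) (.I .jac (.c 0 (.c 24 (.c 32 .nil))) (.b 18753 (.b 16 (.b 8 .nil))))) (.node (.I .jac (.c 537002185 (.c 40 (.c 48 .nil))) (.b 16 (.l 8 .nil))) (.I .jac (.c 169943305 (.c 40 (.c 48 .nil))) (.b 16 (.l 8 .nil))))) (.node (.node (.I .jac (.c 537002185 (.c 40 (.c 48 .nil))) (.b 8 (.b 16 .nil))) (.I .jac (.c 0 (.c 24 (.c 32 .nil))) (.b 18753 (.b 8 (.b 16 .nil))))) (.node (.I .jac (.c 169943305 (.c 40 (.c 48 .nil))) (.b 8 (.l 16 .nil))) (.I .adp (.c 4609 (.c 32 (.c 18753 .nil))) (.l 2113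 .nil))))) (.node (.node (.node (.I .jac (.c 4609 (.c 40 (.c 48 .nil))) (.r 32 (.l 2113 .nil))) (.I .jac (.c 8786435 (.c 40 (.c 48 .nil))) (.b 16 (.b 8 .nil)))) (.node (.I .adp (.c 0 (.c 8385 (.c 18753 .nil))) (.l 2113 .nil)) (.I .jac (.c 0 (.c 40 (.c 48 .nil))) (.r 8385 (.l 2113 .nil))))) (.node (.node (.I .adp (.c 0 (.c 32 (.c 24 .nil))) (.b 18753 (.l 2113 .nil))) (.I .adp (.c 0 (.c 32 (.c 48 .nil))) (.b 12993 (.l 2113 .nil)))) (.node (.I .adp (.c 0 (.c 32 (.c 40 .nil))) (.b 18625 (.l 2113 .nil))) (.I .jac (.c 35473026505609 (.c 16 (.c 40 .nil))) (.l 24 .nil)))))) (.node (.node (.node (.node (.I .jac (.c 2105737 (.c 12929 (.c 32 .nil))) (.l 24 .nil)) (.I .jac (.c 2105737 (.c 16 (.c 32 .nil))) (.b 40 (.l 24 .nil)))) (.node (.I .jac (.c 35470870263689 (.c 16 (.c 48 .nil))) (.l 24 .nil)) (.I .jac (.c 2105673 (.c 16 (.c 48 .nil))) (.b 32 (.l 24 .nil))))) (.node (.node (.I .jac (.c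 513 (.c 16 (.c 40 .nil))) (.b 48 (.b 32 (.l 24 .nil)))) (.I .jac (.c 513 (.c 16 (.c 48 .nil))) (.b 32 (.b 40 (.l 24 .nil))))) (.node (.I .jac (.c 33587593 (.c 8 (.c 32 .nil))) (.b 40 (.l 24 .nil))) (.I .jac (.c 33587529 (.c 8 (.c 48 .nil))) (.b 32 (.l 24 .nil)))))) (.node (.node (.node (.I .jac (.c 33587529 (.c 8 (.c 32 .nil))) (.b 48 (.l 24 .nil))) (.I .jac (.c 2049 (.c 1324066185 (.c 32 .nil))) (.l 24 .nil))) (.node (.I .jac (.c 2049 (.c 12865 (.c 48 .nil))) (.b 32 (.l 24 .nil))) (.I .jac (.c 2049 (.c 8 (.c 48 .nil))) (.b 32 (.b 40 (.l 24 .nil)))))) (.node (.node (.I .jac (.c 2049 (.c 545424777 (.c 40 .nil))) (.l 24 .nil)) (.I .jac (.c 2049 (.c 8257 (.c 48 .nil))) (.b 40 (.l 24 .nil)))) (.node (.I .jac (.c 2049 (.c 8 (.c 32 .nil))) (.b 48 (.b 40 (.l 24 .nil)))) (.I .com (.c 3396677733572128150556303835501881027288113257117602985141748890313 (.c 24 .nil)) .nil)))))) (.node (.node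 (.node (.node (.node (.I .com (.c 3396625955800642344247222453445289800261403136942003849550604181193 (.c 24 .nil)) .nil) (.I .com (.c 3396677733571935452111592026851927048933481340690560935548985393865 (.c 24 .nil)) .nil)) (.node (.I .jac (.c 13748198893136698249 (.c 8 (.c 16 .nil))) (.l 24 .nil)) (.I .jac (.c 2306972423229201353 (.c 8 (.c 16 .nil))) (.l 24 .nil)))) (.node (.node (.I .com (.c 18291662791002284499406956391081788293456258047697562728182996044857540895126217 (.c 24 .nil)) .nil) (.I .com (.c 14502389782864780551906021094515387623385954927304034226107459720571979920073 (.c 24 .nil)) .nil)) (.node (.I .com (.c 18291648502882416156398562140872571244307267590053391915318467398749760081736393 (.c 24 .nil)) .nil) (.I .com (.c 18291662791002284499406956391081788291907863774476994583244624046135249871146761 (.c 24 .nil)) .nil)))) (.node (.node (.node (.I .com (.c 14502389782864780551906021094515387579787133456768245023281343434378065071881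 (.c 24 .nil)) .nil) (.I .com (.c 18291648502882416156398562140872571242758873921579575128104968541596358313905929 (.c 24 .nil)) .nil)) (.node (.I .jac (.c 35473026505673 (.c 16 (.c 32 .nil))) (.l 24 .nil)) (.I .jac (.c 2105737 (.c 8321 (.c 40 .nil))) (.l 24 .nil)))) (.node (.node (.I .jac (.c 35468714087369 (.c 16 (.c 48 .nil))) (.l 24 .nil)) (.I .jac (.c 33587465 (.c 8 (.c 40 .nil))) (.b 48 (.l 24 .nil)))) (.node (.I .com (.c 3396625955800545996126404119920466004866084415213952229955909321417 (.c 24 .nil)) .nil) (.I .com (.c 14502375955699783334294794239894626540952795062111413466126863734909276631753 (.c 24 .nil)) .nil))))) (.node (.node (.node (.node (.I .com (.c 14502375955699783334294794239894626497353994376020494329912817139171932376841 (.c 24 .nil)) .nil) (.I .ass (.c 24 (.c 35473026505481 (.c 13057 .nil))) .nil)) (.node (.I .com (.c 24 (.c 35473026505481 .nil)) (.r 13057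 .nil)) (.I .ass (.c 24 (.c 9025011228269257 (.c 13057 .nil))) .nil))) (.node (.node (.I .com (.c 24 (.c 9025011228269257 .nil)) (.r 13057 .nil)) (.I .ass (.c 24 (.c 59109065668069837513 (.c 13057 .nil))) .nil)) (.node (.I .com (.c 24 (.c 59109065668069837513 .nil)) (.r 13057 .nil)) (.I .ass (.c 24 (.c 59109062884628932361 (.c 13057 .nil))) .nil)))) (.node (.node (.node (.I .com (.c 24 (.c 59109062884628932361 .nil)) (.r 13057 .nil)) (.I .tdb (.c 0 (.c 8 (.c 32 (.c 40 .nil)))) (.b 18561 (.b 24 .nil)))) (.node (.I .tdb (.c 0 (.c 8 (.c 32 (.c 48 .nil)))) (.b 12929 (.b 24 .nil))) (.I .tdb (.c 0 (.c 16 (.c 32 (.c 40 .nil)))) (.b 18497 (.b 24 .nil))))) (.node (.node (.I .tdb (.c 0 (.c 16 (.c 32 (.c 48 .nil)))) (.b 12865 (.b 24 .nil))) (.I .tdb (.c 0 (.c 16 (.c 40 (.c 48 .nil)))) (.b 8257 (.b 24 .nil)))) (.node (.I .jac (.c 2306970223667989513 (.c 8 (.c 40 .nil))) (.l 24 .nil)) (.I .jac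 (.c 537002313 (.c 18497 (.c 16 .nil))) (.l 24 .nil))))))))

noncomputable def c4_94 : Tr := (.node (.node (.node (.node (.node (.node (.I .jac (.c 537002313 (.c 2113 (.c 48 .nil))) (.l 24 .nil)) (.I .jac (.c 537002313 (.c 8 (.c 16 .nil))) (.b 48 (.l 24 .nil)))) (.node (.I .jac (.c 8193 (.c 1324066185 (.c 16 .nil))) (.l 24 .nil)) (.I .jac (.c 8193 (.c 8 (.c 40 .nil))) (.b 16 (.b 48 (.l 24 .nil)))))) (.node (.node (.I .com (.c 14502389782864775724004637839190473870054118106376301380787647791187248389833 (.c 24 .nil)) .nil) (.I .com (.c 14502375955699776897097553016463223738893908669131956560655866970196018807497 (.c 24 .nil)) .nil)) (.node (.I .com (.c 14502320647155140909428280329389864468614660556172994053999052471206544278281 (.c 24 .nil)) .nil) (.I .com (.c 14502320647155142518722987525103327669471791504796916519612316093560812319689 (.c 24 .nil)) .nil)))) (.node (.node (.node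 (.I .com (.c 14502320647155140909428280329389864294219790362630035964032127632402744177673 (.c 24 .nil)) .nil) (.I .jac (.c 59109065668069837769 (.c 8 (.c 32 .nil))) (.l 24 .nil))) (.node (.I .jac (.c 13748193523587632137 (.c 8 (.c 32 .nil))) (.l 24 .nil)) (.I .com (.c 18291662791002283818202718527714844178410062149173241265351214608323065582385865 (.c 24 .nil)) .nil))) (.node (.node (.I .com (.c 18291662791002283818202718527714844173764879329511536917032287027574431126458249 (.c 24 .nil)) .nil) (.I .jac (.c 537002377 (.c 8 (.c 40 .nil))) (.b 16 (.l 24 .nil)))) (.node (.I .jac (.c 537002377 (.c 2113 (.c 40 .nil))) (.l 24 .nil)) (.I .jac (.c 537002121 (.c 18497 (.c 40 .nil))) (.l 24 .nil)))))) (.node (.node (.node (.node (.I .jac (.c 8193 (.c 8 (.c 48 .nil))) (.b 40 (.b 16 (.l 24 .nil)))) (.I .com (.c 14502320647155142518722987525103327800267944149954142344186607676513272373001 (.c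 24 .nil)) .nil)) (.node (.I .com (.c 3396677733572128150556303835499879307004194224181295664632641752969 (.c 24 .nil)) .nil) (.I .com (.c 2379904940409059081 (.c 24 .nil)) (.l 18433 .nil)))) (.node (.node (.I .jac (.c 3491688652046473 (.c 32 (.c 48 .nil))) (.b 24 .nil)) (.I .tdb (.c 0 (.c 8 (.c 16 (.c 40 .nil)))) (.b 18689 (.b 24 .nil)))) (.node (.I .tdb (.c 0 (.c 32 (.c 16 (.c 48 .nil)))) (.b 12865 (.b 24 .nil))) (.I .com (.c 3396625955800642344247222453442620860225272832890934158916880306121 (.c 24 .nil)) .nil)))) (.node (.node (.node (.I .com (.c 3396625955800545996126404119917129829820921582466805341787065274377 (.c 24 .nil)) .nil) (.I .com (.c 14502389782864774114704176754082437113170466000718784094293155055050954989321 (.c 24 .nil)) .nil)) (.node (.I .com (.c 14502375955699775287798242710605707833569655562999404747740027693550253441801 (.c 24 .nil)) .nil) (.I .jac (.c 13748198893136698057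 (.c 16 (.c 32 .nil))) (.l 24 .nil)))) (.node (.node (.I .jac (.c 13748192181200529417 (.c 16 (.c 32 .nil))) (.l 24 .nil)) (.I .com (.c 18291662791002283477600599596031379254339380927068413549893950268305120830864137 (.c 24 .nil)) .nil)) (.node (.I .com (.c 18291627070720923377478216906293781422229280460617050807067065977983415150705417 (.c 24 .nil)) .nil) (.I .com (.c 18291662791002283477600599596031379251242592380627277346513394686278777197589385 (.c 24 .nil)) .nil)))))) (.node (.node (.node (.node (.node (.I .com (.c 18291627070720923377478216906293781419132494937909007101735190318189681765888905 (.c 24 .nil)) .nil) (.I .jac (.c 18433 (.c 8 (.c 40 .nil))) (.b 8321 (.b 24 .nil)))) (.node (.I .jac (.c 0 (.c 12865 (.c 48 .nil))) (.b 8321 (.l 24 .nil))) (.I .jac (.c 0 (.c 8 (.c 40 .nil))) (.b 48 (.b 8321 (.l 24 .nil)))))) (.node (.node (.I .com (.c 14025207386396218121 (.c 24 .nil))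 (.l 18433 .nil)) (.I .jac (.c 14629225721520329 (.c 32 (.c 40 .nil))) (.b 24 .nil))) (.node (.I .jac (.c 3423058053193929 (.c 32 (.c 48 .nil))) (.b 24 .nil)) (.I .tdb (.c 0 (.c 16 (.c 40 (.c 8 .nil)))) (.b 18689 (.b 24 .nil)))))) (.node (.node (.node (.I .tdb (.c 0 (.c 32 (.c 8 (.c 40 .nil)))) (.b 18561 (.b 24 .nil))) (.I .tdb (.c 0 (.c 32 (.c 8 (.c 48 .nil)))) (.b 12929 (.b 24 .nil)))) (.node (.I .jac (.c 2718204233 (.c 8 (.c 32 .nil))) (.b 16 (.l 24 .nil))) (.I .jac (.c 1310925193 (.c 8257 (.c 16 .nil))) (.l 24 .nil)))) (.node (.node (.I .jac (.c 1310925193 (.c 8 (.c 32 .nil))) (.b 16 (.l 24 .nil))) (.I .jac (.c 1310925193 (.c 8 (.c 16 .nil))) (.b 32 (.l 24 .nil)))) (.node (.I .jac (.c 2306969673777850313 (.c 16 (.c 48 .nil))) (.l 24 .nil)) (.I .jac (.c 537002057 (.c 16 (.c 48 .nil))) (.b 40 (.l 24 .nil))))))) (.node (.node (.node (.node (.I .jac (.c 537002057 (.c 12929 (.c 48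 .nil))) (.l 24 .nil)) (.I .jac (.c 537002057 (.c 16 (.c 40 .nil))) (.b 48 (.l 24 .nil)))) (.node (.I .jac (.c 33587273 (.c 32 (.c 48 .nil))) (.b 40 (.b 24 .nil))) (.I .jac (.c 33587273 (.c 32 (.c 40 .nil))) (.b 48 (.b 24 .nil))))) (.node (.node (.I .jac (.c 2105481 (.c 32 (.c 40 .nil))) (.b 48 (.b 24 .nil))) (.I .jac (.c 2487083360713 (.c 32 (.c 40 .nil))) (.b 24 .nil))) (.node (.I .jac (.c 2487083360649 (.c 32 (.c 48 .nil))) (.b 24 .nil)) (.I .jac (.c 557571 (.c 32 (.c 48 .nil))) (.b 40 (.b 24 .nil)))))) (.node (.node (.node (.I .jac (.c 1310925065 (.c 8 (.c 16 .nil))) (.b 48 (.l 24 .nil))) (.I .jac (.c 1310924937 (.c 8 (.c 48 .nil))) (.b 32 (.l 24 .nil)))) (.node (.I .jac (.c 1310924937 (.c 8257 (.c 48 .nil))) (.l 24 .nil)) (.I .jac (.c 12801 (.c 545424777 (.c 16 .nil))) (.l 24 .nil)))) (.node (.node (.I .jac (.c 12801 (.c 8 (.c 48 .nil))) (.b 16 (.b 32 (.l 24 .nil)))) (.I .jac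 (.c 12801 (.c 8 (.c 16 .nil))) (.b 48 (.b 32 (.l 24 .nil))))) (.node (.I .jac (.c 12801 (.c 8 (.c 32 .nil))) (.b 16 (.b 48 (.l 24 .nil)))) (.I .com (.c 18291648502882414793990884575208062674675073637948631312895131832587142813795017 (.c 24 .nil)) .nil)))))))

noncomputable def c4_95 : Tr := (.node (.node (.node (.node (.node (.node (.I .com (.c 18291627070720922696274976743898254764368868198737022773233475155738302282318601 (.c 24 .nil)) .nil) (.I .com (.c 18291627070720922696274976743898254758175297153320935477897918752907045647234057 (.c 24 .nil)) .nil)) (.node (.I .jac (.c 59109065668069837705 (.c 8 (.c 40 .nil))) (.l 24 .nil)) (.I .com (.c 14502389782864775724004637839190473695658832224233173597914170566206835724233 (.c 24 .nil)) .nil))) (.node (.node (.I .jac (.c 12801 (.c 8 (.c 48 .nil))) (.b 32 (.b 16 (.l 24 .nil)))) (.I .tdb (.c 0 (.c 8 (.c 16 (.c 32 .nil)))) (.b 18753 (.b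 24 .nil)))) (.node (.I .jac (.c 8193 (.c 8 (.c 48 .nil))) (.b 12929 (.b 24 .nil))) (.I .com (.c 3396677733571935452111592026848590848460283047097123161283016626185 (.c 24 .nil)) .nil)))) (.node (.node (.node (.I .com (.c 18291648502882414453388965183791947422382005360361218029448368799991925418033929 (.c 24 .nil)) .nil) (.I .jac (.c 2306972423229201097 (.c 16 (.c 40 .nil))) (.l 24 .nil))) (.node (.I .jac (.c 8193 (.c 8 (.c 48 .nil))) (.b 12929 (.l 24 .nil))) (.I .com (.c 14502389782864774114704176754082436982374001589111445514245794116264054518729 (.c 24 .nil)) .nil))) (.node (.node (.I .jac (.c 18433 (.c 8 (.c 32 .nil))) (.b 12929 (.b 24 .nil))) (.I .jac (.c 0 (.c 8257 (.c 48 .nil))) (.b 12929 (.b 24 .nil)))) (.node (.I .jac (.c 0 (.c 8 (.c 32 .nil))) (.b 48 (.b 12929 (.b 24 .nil)))) (.I .jac (.c 0 (.c 8257 (.c 48 .nil))) (.b 12929 (.l 24 .nil))))))) (.node (.node (.node (.node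 (.I .jac (.c 0 (.c 8 (.c 32 .nil))) (.b 48 (.b 12929 (.l 24 .nil)))) (.I .jac (.c 2718204169 (.c 8 (.c 40 .nil))) (.b 16 (.l 24 .nil)))) (.node (.I .jac (.c 2718204169 (.c 8 (.c 16 .nil))) (.b 40 (.l 24 .nil))) (.I .jac (.c 1310924873 (.c 16 (.c 48 .nil))) (.b 32 (.l 24 .nil))))) (.node (.node (.I .jac (.c 1310924873 (.c 8321 (.c 48 .nil))) (.l 24 .nil)) (.I .jac (.c 2049 (.c 8 (.c 48 .nil))) (.b 13057 (.b 24 .nil)))) (.node (.I .jac (.c 0 (.c 18497 (.c 16 .nil))) (.b 13057 (.b 24 .nil))) (.I .jac (.c 0 (.c 8 (.c 48 .nil))) (.b 16 (.b 13057 (.b 24 .nil))))))) (.node (.node (.node (.I .com (.c 14502375955699776897097553016463223520899905238677409260292415153620461621257 (.c 24 .nil)) .nil) (.I .com (.c 18291648502882414793990884575208062666933105295579547665148209294408698441043977 (.c 24 .nil)) .nil)) (.node (.I .jac (.c 59109065668069837513 (.c 32 (.c 40 .nil))) (.b 24 .nil)) (.I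 .jac (.c 18433 (.c 8 (.c 16 .nil))) (.b 13057 (.b 24 .nil))))) (.node (.node (.I .jac (.c 0 (.c 2113 (.c 48 .nil))) (.b 13057 (.b 24 .nil))) (.I .jac (.c 0 (.c 8 (.c 16 .nil))) (.b 48 (.b 13057 (.b 24 .nil))))) (.node (.I .com (.c 14502375955699775287798242710605707659174452818635776583590622472711369421833 (.c 24 .nil)) .nil) (.I .com (.c 18291648502882414453388965183791947416188430686465951168914945118966882142024713 (.c 24 .nil)) .nil)))))) (.node (.node (.node (.node (.node (.I .tdb (.c 0 (.c 32 (.c 8 (.c 16 .nil)))) (.b 18753 (.b 24 .nil))) (.I .tdb (.c 0 (.c 40 (.c 8 (.c 16 .nil)))) (.b 18689 (.b 24 .nil)))) (.node (.I .tdb (.c 0 (.c 48 (.c 8 (.c 16 .nil)))) (.b 13057 (.b 24 .nil))) (.I .jac (.c 2718204041 (.c 8 (.c 40 .nil))) (.b 32 (.l 24 .nil))))) (.node (.node (.I .jac (.c 513 (.c 16 (.c 48 .nil))) (.b 13057 (.b 24 .nil))) (.I .jac (.c 2718203977 (.c 16 (.c 32 .nil)))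 (.b 40 (.l 24 .nil)))) (.node (.I .jac (.c 18433 (.c 545424713 (.c 16 .nil))) (.l 24 .nil)) (.I .jac (.c 18433 (.c 8 (.c 32 .nil))) (.b 40 (.b 16 (.l 24 .nil))))))) (.node (.node (.node (.I .jac (.c 18433 (.c 1324065929 (.c 32 .nil))) (.l 24 .nil)) (.I .jac (.c 18433 (.c 12865 (.c 16 .nil))) (.b 32 (.l 24 .nil)))) (.node (.I .jac (.c 18433 (.c 545424521 (.c 40 .nil))) (.l 24 .nil)) (.I .jac (.c 18433 (.c 8257 (.c 16 .nil))) (.b 40 (.l 24 .nil))))) (.node (.node (.I .jac (.c 18433 (.c 8 (.c 32 .nil))) (.b 16 (.b 40 (.l 24 .nil)))) (.I .jac (.c 8257 (.c 16 (.c 40 .nil))) (.b 18433 (.l 24 .nil)))) (.node (.I .jac (.c 18433 (.c 1324066057 (.c 16 .nil))) (.l 24 .nil)) (.I .jac (.c 18433 (.c 8 (.c 40 .nil))) (.b 32 (.b 16 (.l 24 .nil)))))))) (.node (.node (.node (.node (.I .jac (.c 18433 (.c 8 (.c 16 .nil))) (.b 32 (.b 40 (.l 24 .nil)))) (.I .jac (.c 12865 (.c 16 (.c 32 .nil))) (.b 18433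 (.l 24 .nil)))) (.node (.I .jac (.c 2306971873338799817 (.c 16 (.c 48 .nil))) (.l 24 .nil)) (.I .jac (.c 13748196208362033865 (.c 16 (.c 48 .nil))) (.l 24 .nil)))) (.node (.node (.I .jac (.c 12801 (.c 8 (.c 32 .nil))) (.b 18561 (.l 24 .nil))) (.I .jac (.c 9024976834606793 (.c 32 (.c 48 .nil))) (.b 24 .nil))) (.node (.I .jac (.c 13748193523587631817 (.c 32 (.c 48 .nil))) (.b 24 .nil)) (.I .jac (.c 12801 (.c 8 (.c 16 .nil))) (.b 18689 (.b 24 .nil)))))) (.node (.node (.node (.I .jac (.c 0 (.c 8 (.c 32 .nil))) (.b 1337272713 (.l 24 .nil))) (.I .jac (.c 0 (.c 16 (.c 40 .nil))) (.b 545424777 (.l 24 .nil)))) (.node (.I .jac (.c 513 (.c 16 (.c 40 .nil))) (.b 18689 (.l 24 .nil))) (.I .jac (.c 0 (.c 16 (.c 32 .nil))) (.b 1324066185 (.l 24 .nil))))) (.node (.node (.I .jac (.c 0 (.c 8 (.c 40 .nil))) (.b 553912713 (.l 24 .nil))) (.I .jac (.c 9024942441009865 (.c 40 (.c 48 .nil))) (.b 24 .nil)))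 (.node (.I .jac (.c 35468714087177 (.c 40 (.c 48 .nil))) (.b 24 .nil)) (.I .jac (.c 2306970223667989193 (.c 40 (.c 48 .nil))) (.b 24 .nil))))))))

noncomputable def c4_96 : Tr := (.node (.node (.node (.node (.node (.node (.I .jac (.c 8193 (.c 8 (.c 16 .nil))) (.b 18753 (.l 24 .nil))) (.I .jac (.c 598976858557513 (.c 40 (.c 48 .nil))) (.b 24 .nil))) (.node (.I .jac (.c 2487083360585 (.c 40 (.c 48 .nil))) (.b 24 .nil)) (.I .jac (.c 580749782704329 (.c 40 (.c 48 .nil))) (.b 24 .nil)))) (.node (.node (.I .jac (.c 513 (.c 16 (.c 32 .nil))) (.b 18753 (.l 24 .nil))) (.I .adp (.c 16 (.c 32 (.c 8 .nil))) (.b 18753 (.l 4609 .nil)))) (.node (.I .com (.c 8257 (.c 16 .nil)) (.b 18753 (.l 4609 .nil))) (.I .adp (.c 16 (.c 32 (.c 48 .nil))) (.b 12865 (.l 4609 .nil)))))) (.node (.node (.node (.I .adp (.c 16 (.c 32 (.c 40 .nil))) (.b 18497 (.l 4609 .nil))) (.I .jac (.c 33587593 (.c 32 (.c 40 .nil)))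 (.b 24 (.b 8 .nil)))) (.node (.I .jac (.c 33587529 (.c 32 (.c 48 .nil))) (.b 24 (.b 8 .nil))) (.I .jac (.c 33587593 (.c 32 (.c 40 .nil))) (.b 24 (.l 8 .nil))))) (.node (.node (.I .jac (.c 2049 (.c 32 (.c 48 .nil))) (.b 40 (.b 8 (.b 24 .nil)))) (.I .jac (.c 537002377 (.c 16 (.c 40 .nil))) (.b 8 (.b 24 .nil)))) (.node (.I .jac (.c 537002313 (.c 16 (.c 48 .nil))) (.b 8 (.b 24 .nil))) (.I .jac (.c 8193 (.c 16 (.c 48 .nil))) (.b 40 (.b 8 (.b 24 .nil)))))))) (.node (.node (.node (.node (.I .jac (.c 2718204233 (.c 16 (.c 32 .nil))) (.b 8 (.b 24 .nil))) (.I .jac (.c 33587529 (.c 32 (.c 48 .nil))) (.b 8 (.l 24 .nil)))) (.node (.I .jac (.c 537002313 (.c 16 (.c 48 .nil))) (.b 8 (.l 24 .nil))) (.I .jac (.c 8193 (.c 18561 (.c 40 .nil))) (.b 8 (.l 24 .nil))))) (.node (.node (.I .jac (.c 8193 (.c 16 (.c 48 .nil))) (.b 40 (.b 8 (.l 24 .nil)))) (.I .jac (.c 12801 (.c 16 (.c 48 .nil))) (.b 32 (.b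 8 (.b 24 .nil))))) (.node (.I .jac (.c 2718204169 (.c 16 (.c 40 .nil))) (.b 8 (.b 24 .nil))) (.I .jac (.c 1310925065 (.c 16 (.c 48 .nil))) (.b 8 (.l 24 .nil)))))) (.node (.node (.node (.I .jac (.c 12801 (.c 18561 (.c 32 .nil))) (.b 8 (.l 24 .nil))) (.I .jac (.c 12801 (.c 16 (.c 48 .nil))) (.b 32 (.b 8 (.l 24 .nil))))) (.node (.I .adp (.c 32 (.c 48 (.c 40 .nil))) (.b 2049 (.l 4673 .nil))) (.I .adp (.c 32 (.c 48 (.c 16 .nil))) (.b 12801 (.l 4673 .nil))))) (.node (.node (.I .com (.c 18561 (.c 32 .nil)) (.b 12801 (.l 4673 .nil))) (.I .adp (.c 32 (.c 48 (.c 0 .nil))) (.b 12929 (.l 4673 .nil)))) (.node (.I .com (.c 18433 (.c 32 .nil)) (.b 12929 (.l 4673 .nil))) (.I .jac (.c 2718204041 (.c 32 (.c 40 .nil))) (.b 24 (.b 8 .nil)))))))) (.node (.node (.node (.node (.node (.I .jac (.c 2718204041 (.c 32 (.c 40 .nil))) (.b 24 (.l 8 .nil))) (.I .jac (.c 0 (.c 16 (.c 48 .nil))) (.b 13057 (.b 24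 (.l 8 .nil))))) (.node (.I .jac (.c 2718204041 (.c 32 (.c 40 .nil))) (.b 8 (.b 24 .nil))) (.I .jac (.c 2718204041 (.c 32 (.c 40 .nil))) (.b 8 (.l 24 .nil))))) (.node (.node (.I .jac (.c 0 (.c 16 (.c 48 .nil))) (.b 13057 (.b 8 (.l 24 .nil)))) (.I .jac (.c 18433 (.c 16 (.c 40 .nil))) (.b 32 (.b 8 (.b 24 .nil))))) (.node (.I .jac (.c 18433 (.c 16 (.c 32 .nil))) (.b 40 (.b 8 (.b 24 .nil)))) (.I .adp (.c 32 (.c 40 (.c 48 .nil))) (.b 2049 (.l 4673 .nil)))))) (.node (.node (.node (.I .adp (.c 8193 (.c 40 (.c 18561 .nil))) (.l 4673 .nil)) (.I .adp (.c 32 (.c 40 (.c 0 .nil))) (.b 18561 (.l 4673 .nil)))) (.node (.I .com (.c 12801 (.c 32 .nil)) (.b 18561 (.l 4673 .nil))) (.I .adp (.c 32 (.c 40 (.c 16 .nil))) (.b 18433 (.l 4673 .nil))))) (.node (.node (.I .com (.c 12929 (.c 32 .nil)) (.b 18433 (.l 4673 .nil))) (.I .jac (.c 0 (.c 16 (.c 40 .nil))) (.b 18689 (.l 4673 .nil)))) (.node (.I .jac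 (.c 1310924937 (.c 32 (.c 48 .nil))) (.b 24 (.b 8 .nil))) (.I .adp (.c 0 (.c 13057 (.c 18561 .nil))) (.l 4673 .nil)))))) (.node (.node (.node (.node (.I .jac (.c 537002121 (.c 40 (.c 48 .nil))) (.b 24 (.b 8 .nil))) (.I .jac (.c 33587465 (.c 40 (.c 48 .nil))) (.b 24 (.b 8 .nil)))) (.node (.I .jac (.c 537002121 (.c 40 (.c 48 .nil))) (.b 8 (.b 24 .nil))) (.I .jac (.c 33587465 (.c 40 (.c 48 .nil))) (.b 8 (.l 24 .nil))))) (.node (.node (.I .adp (.c 2049 (.c 32 (.c 18753 .nil))) (.l 4673 .nil)) (.I .jac (.c 2049 (.c 40 (.c 48 .nil))) (.r 32 (.l 4673 .nil)))) (.node (.I .jac (.c 8652803 (.c 40 (.c 48 .nil))) (.b 24 (.b 8 .nil))) (.I .jac (.c 8652803 (.c 40 (.c 48 .nil))) (.b 8 (.b 24 .nil)))))) (.node (.node (.node (.I .adp (.c 0 (.c 8321 (.c 18753 .nil))) (.l 4673 .nil)) (.I .jac (.c 0 (.c 40 (.c 48 .nil))) (.r 8321 (.l 4673 .nil)))) (.node (.I .adp (.c 0 (.c 32 (.c 16 .nil))) (.b 18753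 (.l 4673 .nil))) (.I .adp (.c 0 (.c 32 (.c 48 .nil))) (.b 12929 (.l 4673 .nil))))) (.node (.node (.I .adp (.c 0 (.c 32 (.c 40 .nil))) (.b 18561 (.l 4673 .nil))) (.I .jac (.c 8321 (.c 40 (.c 48 .nil))) (.b 24 (.l 513 .nil)))) (.node (.I .jac (.c 12929 (.c 32 (.c 48 .nil))) (.b 24 (.l 513 .nil))) (.I .jac (.c 18561 (.c 32 (.c 40 .nil))) (.b 24 (.l 513 .nil)))))))))

noncomputable def c4_97 : Tr := (.node (.node (.node (.node (.node (.node (.I .jac (.c 537002313 (.c 8 (.c 48 .nil))) (.l 4737 .nil)) (.I .jac (.c 8193 (.c 8 (.c 40 .nil))) (.b 48 (.l 4737 .nil)))) (.node (.I .jac (.c 2718204233 (.c 8 (.c 32 .nil))) (.l 4737 .nil)) (.I .com (.c 27951061050494848639907477563920710974153 (.c 4737 .nil)) .nil))) (.node (.node (.I .jac (.c 2105737 (.c 32 (.c 40 .nil))) (.b 24 (.b 16 .nil))) (.I .jac (.c 2105673 (.c 32 (.c 48 .nil))) (.b 24 (.b 16 .nil)))) (.node (.I .jac (.c 513 (.c 32 (.c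 40 .nil))) (.b 48 (.b 24 (.l 16 .nil)))) (.I .jac (.c 2105737 (.c 32 (.c 40 .nil))) (.b 16 (.b 24 .nil)))))) (.node (.node (.node (.I .jac (.c 2105673 (.c 32 (.c 48 .nil))) (.b 16 (.b 24 .nil))) (.I .jac (.c 513 (.c 32 (.c 48 .nil))) (.b 40 (.b 16 (.b 24 .nil))))) (.node (.I .jac (.c 2105673 (.c 32 (.c 48 .nil))) (.b 16 (.l 24 .nil))) (.I .jac (.c 513 (.c 32 (.c 48 .nil))) (.b 40 (.b 16 (.l 24 .nil)))))) (.node (.node (.I .adp (.c 40 (.c 48 (.c 32 .nil))) (.b 513 (.l 4737 .nil))) (.I .com (.c 18689 (.c 40 .nil)) (.b 513 (.l 4737 .nil)))) (.node (.I .jac (.c 8193 (.c 8 (.c 48 .nil))) (.r 40 (.l 4737 .nil))) (.I .adp (.c 18497 (.c 40 (.c 8193 .nil))) (.l 4737 .nil)))))) (.node (.node (.node (.node (.I .adp (.c 12865 (.c 48 (.c 8193 .nil))) (.l 4737 .nil)) (.I .adp (.c 40 (.c 48 (.c 8 .nil))) (.b 8193 (.l 4737 .nil)))) (.node (.I .com (.c 18497 (.c 40 .nil)) (.b 8193 (.l 4737 .nil)))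 (.I .jac (.c 18433 (.c 8 (.c 32 .nil))) (.r 40 (.l 4737 .nil))))) (.node (.node (.I .adp (.c 18433 (.c 40 (.c 8257 .nil))) (.l 4737 .nil)) (.I .adp (.c 12801 (.c 48 (.c 8257 .nil))) (.l 4737 .nil))) (.node (.I .adp (.c 40 (.c 48 (.c 0 .nil))) (.b 8257 (.l 4737 .nil))) (.I .com (.c 18433 (.c 40 .nil)) (.b 8257 (.l 4737 .nil)))))) (.node (.node (.node (.I .jac (.c 12801 (.c 18497 (.c 32 .nil))) (.l 4737 .nil)) (.I .jac (.c 12801 (.c 8 (.c 48 .nil))) (.b 32 (.l 4737 .nil)))) (.node (.I .jac (.c 12801 (.c 8 (.c 32 .nil))) (.b 48 (.l 4737 .nil))) (.I .jac (.c 2718204169 (.c 8 (.c 40 .nil))) (.l 4737 .nil)))) (.node (.node (.I .com (.c 27951058418068892863957554057219361971913 (.c 4737 .nil)) .nil) (.I .adp (.c 32 (.c 48 (.c 40 .nil))) (.b 513 (.l 4737 .nil)))) (.node (.I .jac (.c 12801 (.c 8 (.c 48 .nil))) (.r 32 (.l 4737 .nil))) (.I .adp (.c 18497 (.c 32 (.c 12801 .nil))) (.l 4737 .nil)))))))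 (.node (.node (.node (.node (.node (.I .adp (.c 8257 (.c 48 (.c 12801 .nil))) (.l 4737 .nil)) (.I .adp (.c 32 (.c 48 (.c 8 .nil))) (.b 12801 (.l 4737 .nil)))) (.node (.I .com (.c 18497 (.c 32 .nil)) (.b 12801 (.l 4737 .nil))) (.I .jac (.c 18433 (.c 8 (.c 40 .nil))) (.r 32 (.l 4737 .nil))))) (.node (.node (.I .adp (.c 18433 (.c 32 (.c 12865 .nil))) (.l 4737 .nil)) (.I .adp (.c 8193 (.c 48 (.c 12865 .nil))) (.l 4737 .nil))) (.node (.I .adp (.c 32 (.c 48 (.c 0 .nil))) (.b 12865 (.l 4737 .nil))) (.I .com (.c 18433 (.c 32 .nil)) (.b 12865 (.l 4737 .nil)))))) (.node (.node (.node (.I .jac (.c 2718203977 (.c 32 (.c 40 .nil))) (.b 24 (.b 16 .nil))) (.I .jac (.c 2718203977 (.c 32 (.c 40 .nil))) (.b 16 (.b 24 .nil)))) (.node (.I .jac (.c 2718203977 (.c 32 (.c 40 .nil))) (.b 16 (.l 24 .nil))) (.I .jac (.c 18433 (.c 12865 (.c 32 .nil))) (.l 4737 .nil)))) (.node (.node (.I .jac (.c 18433 (.c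 8 (.c 40 .nil))) (.b 32 (.l 4737 .nil))) (.I .com (.c 2718204169 (.c 12865 .nil)) (.l 4737 .nil))) (.node (.I .com (.c 2718204233 (.c 8257 .nil)) (.l 4737 .nil)) (.I .jac (.c 1310924873 (.c 32 (.c 48 .nil))) (.b 24 (.b 16 .nil))))))) (.node (.node (.node (.node (.I .jac (.c 1310924873 (.c 32 (.c 48 .nil))) (.b 16 (.b 24 .nil))) (.I .jac (.c 1310924873 (.c 32 (.c 48 .nil))) (.b 16 (.l 24 .nil)))) (.node (.I .jac (.c 0 (.c 8 (.c 40 .nil))) (.b 18689 (.b 16 (.l 24 .nil)))) (.I .jac (.c 2105609 (.c 40 (.c 48 .nil))) (.b 24 (.b 16 .nil))))) (.node (.node (.I .jac (.c 2105609 (.c 40 (.c 48 .nil))) (.b 16 (.b 24 .nil))) (.I .jac (.c 2105609 (.c 40 (.c 48 .nil))) (.b 16 (.l 24 .nil)))) (.node (.I .jac (.c 0 (.c 8 (.c 32 .nil))) (.b 18753 (.b 16 (.l 24 .nil)))) (.I .jac (.c 8257 (.c 40 (.c 48 .nil))) (.b 24 (.l 2049 .nil)))))) (.node (.node (.node (.I .jac (.c 12865 (.c 32 (.c 48 .nil)))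 (.b 24 (.l 2049 .nil))) (.I .jac (.c 18497 (.c 32 (.c 40 .nil))) (.b 24 (.l 2049 .nil)))) (.node (.I .jac (.c 8257 (.c 40 (.c 48 .nil))) (.b 16 (.l 4609 .nil))) (.I .jac (.c 12865 (.c 32 (.c 48 .nil))) (.b 16 (.l 4609 .nil))))) (.node (.node (.I .jac (.c 18497 (.c 32 (.c 40 .nil))) (.b 16 (.l 4609 .nil))) (.I .jac (.c 0 (.c 8257 (.c 48 .nil))) (.b 40 (.l 4737 .nil)))) (.node (.I .jac (.c 0 (.c 8 (.c 32 .nil))) (.b 48 (.b 40 (.l 4737 .nil)))) (.I .jac (.c 0 (.c 8257 (.c 40 .nil))) (.b 48 (.l 4737 .nil)))))))))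

noncomputable def c4_98 : Tr := (.node (.node (.node (.node (.node (.node (.I .jac (.c 0 (.c 8 (.c 32 .nil))) (.b 40 (.b 48 (.l 4737 .nil)))) (.I .jac (.c 8193 (.c 40 (.c 48 .nil))) (.b 2803779 .nil))) (.node (.I .jac (.c 12801 (.c 32 (.c 48 .nil))) (.b 2803779 .nil)) (.I .jac (.c 18433 (.c 32 (.c 40 .nil))) (.b 2803779 .nil)))) (.node (.node (.I .jac (.c 8193 (.c 40 (.c 48 .nil))) (.b 24 (.b 8 (.b 16 .nil)))) (.I .jac (.c 12801 (.c 32 (.c 48 .nil))) (.b 24 (.b 8 (.b 16 .nil))))) (.node (.I .jac (.c 18433 (.c 32 (.c 40 .nil))) (.b 24 (.b 8 (.b 16 .nil)))) (.I .jac (.c 8193 (.c 40 (.c 48 .nil))) (.b 8 (.b 16 (.l 24 .nil))))))) (.node (.node (.node (.I .jac (.c 12801 (.c 32 (.c 48 .nil))) (.b 8 (.b 16 (.l 24 .nil)))) (.I .jac (.c 18433 (.c 32 (.c 40 .nil))) (.b 8 (.b 16 (.l 24 .nil))))) (.node (.I .jac (.c 35470870263817 (.c 16 (.c 24 .nil))) (.l 32 .nil)) (.I .jac (.c 35466557976585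 (.c 16 (.c 40 .nil))) (.l 32 .nil)))) (.node (.node (.I .jac (.c 2105737 (.c 12929 (.c 24 .nil))) (.l 32 .nil)) (.I .jac (.c 2105737 (.c 16 (.c 24 .nil))) (.b 40 (.l 32 .nil)))) (.node (.I .jac (.c 35470870263625 (.c 16 (.c 48 .nil))) (.l 32 .nil)) (.I .jac (.c 2105673 (.c 18561 (.c 24 .nil))) (.l 32 .nil)))))) (.node (.node (.node (.node (.I .jac (.c 2105673 (.c 4737 (.c 48 .nil))) (.l 32 .nil)) (.I .jac (.c 2105673 (.c 16 (.c 24 .nil))) (.b 48 (.l 32 .nil)))) (.node (.I .jac (.c 2105545 (.c 16 (.c 48 .nil))) (.b 40 (.l 32 .nil))) (.I .jac (.c 513 (.c 16 (.c 40 .nil))) (.b 48 (.b 24 (.l 32 .nil)))))) (.node (.node (.I .jac (.c 513 (.c 16 (.c 48 .nil))) (.b 24 (.b 40 (.l 32 .nil)))) (.I .com (.c 810508056951847240291898505585423869896609491020671768329 (.c 32 .nil)) .nil)) (.node (.I .com (.c 810113986414488962661815697353921638195418889919997845257 (.c 32 .nil)) .nil) (.I .com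 (.c 809917014021492389842747135875993478139442776722716645321 (.c 32 .nil)) .nil)))) (.node (.node (.node (.I .jac (.c 9025011228269385 (.c 8 (.c 40 .nil))) (.l 32 .nil)) (.I .jac (.c 33587593 (.c 12865 (.c 24 .nil))) (.l 32 .nil))) (.node (.I .jac (.c 33587593 (.c 8 (.c 24 .nil))) (.b 40 (.l 32 .nil))) (.I .jac (.c 33587529 (.c 8 (.c 48 .nil))) (.b 24 (.l 32 .nil))))) (.node (.node (.I .jac (.c 33587401 (.c 12865 (.c 48 .nil))) (.l 32 .nil)) (.I .jac (.c 2049 (.c 8 (.c 40 .nil))) (.b 48 (.b 24 (.l 32 .nil))))) (.node (.I .jac (.c 2049 (.c 8 (.c 48 .nil))) (.b 24 (.b 40 (.l 32 .nil)))) (.I .jac (.c 2049 (.c 174695817 (.c 40 .nil))) (.l 32 .nil))))))) (.node (.node (.node (.node (.node (.I .jac (.c 2049 (.c 4673 (.c 48 .nil))) (.b 40 (.l 32 .nil))) (.I .jac (.c 2049 (.c 8 (.c 24 .nil))) (.b 48 (.b 40 (.l 32 .nil))))) (.node (.I .com (.c 3396677733572128150556303835501213787193473579472167211638713112265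 (.c 32 .nil)) .nil) (.I .com (.c 3396729512033956131747053835158279524984183348903608636827381653193 (.c 32 .nil)) .nil))) (.node (.node (.I .com (.c 3396470626629796977786973438199764038143830829891467925486525618185 (.c 32 .nil)) .nil) (.I .jac (.c 13748198893136698185 (.c 8 (.c 16 .nil))) (.l 32 .nil))) (.node (.I .jac (.c 231046163358604233 (.c 8 (.c 16 .nil))) (.l 32 .nil)) (.I .com (.c 18291662791002284158804837459398313856051162158422185398345640442637541037896393 (.c 32 .nil)) .nil)))) (.node (.node (.node (.I .com (.c 6250092156257071185327898691570831983536797006162547351610529844742892535786861257 (.c 32 .nil)) .nil) (.I .com (.c 1459032634273071433372491467052242947284366151276478843415911102183731913 (.c 32 .nil)) .nil)) (.node (.I .com (.c 6250092156257071185327898691570831983508175125038048793690744499167676397895405321 (.c 32 .nil)) .nil) (.I .jac (.c 2105737 (.c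 4737 (.c 40 .nil))) (.l 32 .nil)))) (.node (.node (.I .jac (.c 35466557976521 (.c 16 (.c 48 .nil))) (.l 32 .nil)) (.I .jac (.c 2105545 (.c 18561 (.c 40 .nil))) (.l 32 .nil))) (.node (.I .jac (.c 2105545 (.c 16 (.c 40 .nil))) (.b 48 (.l 32 .nil))) (.I .com (.c 809917014021492389842747156482540288493190207579839438665 (.c 32 .nil)) .nil))))) (.node (.node (.node (.node (.I .jac (.c 9024908047478729 (.c 8 (.c 48 .nil))) (.l 32 .nil)) (.I .jac (.c 2049 (.c 4673 (.c 40 .nil))) (.b 48 (.l 32 .nil)))) (.node (.I .jac (.c 2049 (.c 8 (.c 24 .nil))) (.b 40 (.b 48 (.l 32 .nil)))) (.I .com (.c 3396729512034148832394861772917215833189076101393365030082331416265 (.c 32 .nil)) .nil))) (.node (.node (.I .com (.c 3396574178719683520950915452814913047159318990092683646127663612617 (.c 32 .nil)) .nil) (.I .jac (.c 59109074018392946505 (.c 8 (.c 16 .nil))) (.l 32 .nil))) (.node (.I .jac (.c 231045989336561673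 (.c 8 (.c 16 .nil))) (.l 32 .nil)) (.I .com (.c 1459028238553209570433275079308971219391792214733740326748168362318213833 (.c 32 .nil)) .nil)))) (.node (.node (.node (.I .com (.c 1459028238553209570433275079308970782084406862455148356788611385195368201 (.c 32 .nil)) .nil) (.I .com (.c 10206511083363145 (.c 32 .nil)) (.l 12801 .nil))) (.node (.I .com (.c 10206474507614025 (.c 32 .nil)) (.l 18433 .nil)) (.I .tdb (.c 0 (.c 8 (.c 24 (.c 40 .nil)))) (.b 18561 (.b 32 .nil))))) (.node (.node (.I .tdb (.c 0 (.c 16 (.c 48 (.c 24 .nil)))) (.b 12865 (.b 32 .nil))) (.I .com (.c 810508056951847240291898495278391705359985640078949069641 (.c 32 .nil)) .nil)) (.node (.I .com (.c 810113986414488962661815666440343006049332852622544712649 (.c 32 .nil)) .nil) (.I .jac (.c 231046163358604041 (.c 8 (.c 40 .nil))) (.l 32 .nil))))))))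

noncomputable def c4_99 : Tr := (.node (.node (.node (.node (.node (.node (.I .jac (.c 169943433 (.c 12865 (.c 16 .nil))) (.l 32 .nil)) (.I .jac (.c 169943433 (.c 8 (.c 16 .nil))) (.b 40 (.l 32 .nil)))) (.node (.I .jac (.c 169943369 (.c 8 (.c 48 .nil))) (.b 16 (.l 32 .nil))) (.I .jac (.c 169943369 (.c 2113 (.c 48 .nil))) (.l 32 .nil)))) (.node (.node (.I .jac (.c 169943177 (.c 12865 (.c 48 .nil))) (.l 32 .nil)) (.I .jac (.c 4609 (.c 8 (.c 40 .nil))) (.b 48 (.b 16 (.l 32 .nil))))) (.node (.I .jac (.c 4609 (.c 8 (.c 48 .nil))) (.b 16 (.b 40 (.l 32 .nil)))) (.I .com (.c 1459032634273066583531893237580256985218596216947732073279478446960778953 (.c 32 .nil)) .nil)))) (.node (.node (.node (.I .com (.c 1459010655789632369981280148558395299196715309671123682041100554803180553 (.c 32 .nil)) .nil) (.I .jac (.c 59109065668069837769 (.c 8 (.c 24 .nil))) (.l 32 .nil))) (.node (.I .jac (.c 13748193523587632137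 (.c 8 (.c 24 .nil))) (.l 32 .nil)) (.I .com (.c 18291662791002283818202718527714844176861667875952673149244905414740187430344393 (.c 32 .nil)) .nil))) (.node (.node (.I .com (.c 6250090978991937044041231628596924245349489429598525485846561767342824885536036553 (.c 32 .nil)) .nil) (.I .com (.c 6250090978991937044041231628596924245292245672740735965945531611354685199281409865 (.c 32 .nil)) .nil)) (.node (.I .jac (.c 169943433 (.c 2113 (.c 40 .nil))) (.l 32 .nil)) (.I .jac (.c 231045467270826953 (.c 8 (.c 48 .nil))) (.l 32 .nil)))))) (.node (.node (.node (.node (.I .com (.c 1459015051463144568155825199432980697041342257723218526480176662311994057 (.c 32 .nil)) .nil) (.I .com (.c 3396677733572128150556303835499879307004194224181295664632641752905 (.c 32 .nil)) .nil)) (.node (.I .com (.c 244149027818380041 (.c 32 .nil)) (.l 12801 .nil)) (.I .com (.c 244148848929896201 (.c 32 .nil)) (.l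 18433 .nil)))) (.node (.node (.I .tdb (.c 0 (.c 8 (.c 16 (.c 40 .nil)))) (.b 18625 (.b 32 .nil))) (.I .tdb (.c 0 (.c 24 (.c 40 (.c 16 .nil)))) (.b 18497 (.b 32 .nil)))) (.node (.I .tdb (.c 0 (.c 24 (.c 48 (.c 16 .nil)))) (.b 12865 (.b 32 .nil))) (.I .com (.c 3396677733571646404444524329248206141615278632961794744256500138825 (.c 32 .nil)) .nil)))) (.node (.node (.node (.I .com (.c 1459028238553201487383875647147692400591548524256869967776896253639328521 (.c 32 .nil)) .nil) (.I .jac (.c 59109062884628932553 (.c 16 (.c 24 .nil))) (.l 32 .nil))) (.node (.I .com (.c 6250089801726996933345600848581934553915599426919390178254450228486076490276017929 (.c 32 .nil)) .nil) (.I .com (.c 18291627070720923377478216906293781420680887699263028954401128148086548458264329 (.c 32 .nil)) .nil))) (.node (.node (.I .com (.c 6250089801726996933345600848581934553886977551186099025869577461965877542658601801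 (.c 32 .nil)) .nil) (.I .com (.c 18291627070720923377478216906293781419132494937909007101735190318189681765888841 (.c 32 .nil)) .nil)) (.node (.I .jac (.c 59109074018392946377 (.c 16 (.c 24 .nil))) (.l 32 .nil)) (.I .com (.c 6250094510787921451507938936320109348972482481312047678654324943724469600120805129 (.c 32 .nil)) .nil)))))) (.node (.node (.node (.node (.node (.I .com (.c 6250094510787921451507938936320109348943860594796340953833000755892745998805791561 (.c 32 .nil)) .nil) (.I .com (.c 59934268409707441929 (.c 32 .nil)) (.l 12801 .nil))) (.node (.I .com (.c 59934265606904515401 (.c 32 .nil)) (.l 12801 .nil)) (.I .com (.c 14025206030552608521 (.c 32 .nil)) (.l 18433 .nil)))) (.node (.node (.I .com (.c 14025204674709064521 (.c 32 .nil)) (.l 18433 .nil)) (.I .tdb (.c 0 (.c 24 (.c 40 (.c 8 .nil)))) (.b 18561 (.b 32 .nil)))) (.node (.I .jac (.c 2718204233 (.c 4673 (.c 16 .nil)))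 (.l 32 .nil)) (.I .jac (.c 1310925193 (.c 2113 (.c 24 .nil))) (.l 32 .nil))))) (.node (.node (.node (.I .com (.c 59934274015313491721 (.c 32 .nil)) (.l 4609 .nil)) (.I .com (.c 14025210098083633929 (.c 32 .nil)) (.l 4609 .nil))) (.node (.I .com (.c 59934274015313491785 (.c 32 .nil)) (.l 2049 .nil)) (.I .com (.c 14025210098083633993 (.c 32 .nil)) (.l 2049 .nil)))) (.node (.node (.I .jac (.c 231045293249046537 (.c 16 (.c 40 .nil))) (.l 32 .nil)) (.I .jac (.c 169943113 (.c 12929 (.c 48 .nil))) (.l 32 .nil))) (.node (.I .jac (.c 169943113 (.c 16 (.c 40 .nil))) (.b 48 (.l 32 .nil))) (.I .jac (.c 9024839260612617 (.c 24 (.c 40 .nil))) (.l 32 .nil)))))) (.node (.node (.node (.node (.I .jac (.c 33587273 (.c 24 (.c 40 .nil))) (.b 48 (.l 32 .nil))) (.I .jac (.c 13748194865974800137 (.c 8 (.c 48 .nil))) (.l 32 .nil))) (.node (.I .jac (.c 1310925001 (.c 8 (.c 48 .nil))) (.b 16 (.l 32 .nil)))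 (.I .jac (.c 1310925001 (.c 2113 (.c 48 .nil))) (.l 32 .nil)))) (.node (.node (.I .jac (.c 1310924937 (.c 8 (.c 48 .nil))) (.b 24 (.l 32 .nil))) (.I .jac (.c 12801 (.c 174695817 (.c 16 .nil))) (.l 32 .nil))) (.node (.I .jac (.c 12801 (.c 4673 (.c 48 .nil))) (.b 16 (.l 32 .nil))) (.I .jac (.c 12801 (.c 8 (.c 16 .nil))) (.b 48 (.b 24 (.l 32 .nil))))))) (.node (.node (.node (.I .jac (.c 12801 (.c 4673 (.c 16 .nil))) (.b 48 (.l 32 .nil))) (.I .jac (.c 12801 (.c 8 (.c 24 .nil))) (.b 16 (.b 48 (.l 32 .nil))))) (.node (.I .com (.c 18291641358826142434079840242291290436082640233389264807381943222108356958307017 (.c 32 .nil)) .nil) (.I .com (.c 18291627070720922355673356662700498568884113625775573273225141993518842279985929 (.c 32 .nil)) .nil))) (.node (.node (.I .com (.c 18291627070720922015071736581502747130061921932369122304897278171320112268264265 (.c 32 .nil)) .nil) (.I .com (.c 6250090978991936989903231897491262894534581109702500833427451460749785180061425353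 (.c 32 .nil)) .nil)) (.node (.I .com (.c 6250090978991936989903231897491262894420093595986921794121233929909201792682774473 (.c 32 .nil)) .nil) (.I .jac (.c 13748193523587631945 (.c 8 (.c 48 .nil))) (.l 32 .nil))))))))

noncomputable def c4_100 : Tr := (.node (.node (.node (.node (.node (.node (.I .com (.c 18291634214772311848613561389554137114432794579945185498779786200241674057777865 (.c 32 .nil)) .nil) (.I .com (.c 6250092156257071104120887622819292512244039279254712318694820320574562873285648073 (.c 32 .nil)) .nil)) (.node (.I .com (.c 6250092156257071104120887622819292512129551754756718087759443145001035091180064713 (.c 32 .nil)) .nil) (.I .com (.c 3396677733571839102889236125597588975287889370009921596176966176777 (.c 32 .nil)) .nil))) (.node (.node (.I .com (.c 6250089801726996879207608765537404554630176383143787888342765416259476986847944457 (.c 32 .nil)) .nil) (.I .com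 (.c 6250089801726996879207608765537404554544310755943914431560029185038756149077013449 (.c 32 .nil)) .nil)) (.node (.I .com (.c 3396677733571646404444524329246204421331359741976099063619697842185 (.c 32 .nil)) .nil) (.I .jac (.c 59109068451510808265 (.c 16 (.c 40 .nil))) (.l 32 .nil))))) (.node (.node (.node (.I .jac (.c 18433 (.c 8 (.c 24 .nil))) (.b 12929 (.l 32 .nil))) (.I .jac (.c 0 (.c 4673 (.c 48 .nil))) (.b 12929 (.l 32 .nil)))) (.node (.I .jac (.c 0 (.c 8 (.c 24 .nil))) (.b 48 (.b 12929 (.l 32 .nil)))) (.I .tdb (.c 0 (.c 16 (.c 8 (.c 24 .nil)))) (.b 18753 (.b 32 .nil))))) (.node (.node (.I .tdb (.c 0 (.c 40 (.c 8 (.c 24 .nil)))) (.b 18561 (.b 32 .nil))) (.I .jac (.c 2718204105 (.c 8 (.c 16 .nil))) (.b 40 (.l 32 .nil)))) (.node (.I .jac (.c 1310924873 (.c 16 (.c 48 .nil))) (.b 24 (.l 32 .nil))) (.I .jac (.c 1310924873 (.c 16 (.c 24 .nil))) (.b 48 (.l 32 .nil))))))) (.node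 (.node (.node (.node (.I .com (.c 1459028238553203103993755533577259511084974387583447076135470371524907017 (.c 32 .nil)) .nil) (.I .jac (.c 59109062884628932361 (.c 24 (.c 40 .nil))) (.l 32 .nil))) (.node (.I .com (.c 6250089801726996852138612724015139686848446364528325304486710893661442378207698761 (.c 32 .nil)) .nil) (.I .com (.c 6250089801726996852138612724015139686791202613061743000088847428960920487852857289 (.c 32 .nil)) .nil))) (.node (.node (.I .com (.c 1459028238553201487383875647147690651362007115147347473524959831648400393 (.c 32 .nil)) .nil) (.I .tdb (.c 0 (.c 24 (.c 8 (.c 16 .nil)))) (.b 18753 (.b 32 .nil)))) (.node (.I .tdb (.c 0 (.c 40 (.c 8 (.c 16 .nil)))) (.b 18625 (.b 32 .nil))) (.I .jac (.c 2718204041 (.c 4673 (.c 40 .nil))) (.l 32 .nil))))) (.node (.node (.node (.I .jac (.c 2718204041 (.c 8 (.c 24 .nil))) (.b 40 (.l 32 .nil))) (.I .jac (.c 513 (.c 16 (.c 48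 .nil))) (.b 12993 (.l 32 .nil)))) (.node (.I .jac (.c 2718203977 (.c 16 (.c 24 .nil))) (.b 40 (.l 32 .nil))) (.I .jac (.c 18433 (.c 174695753 (.c 16 .nil))) (.l 32 .nil)))) (.node (.node (.I .jac (.c 18433 (.c 4673 (.c 40 .nil))) (.b 16 (.l 32 .nil))) (.I .jac (.c 18433 (.c 8 (.c 24 .nil))) (.b 40 (.b 16 (.l 32 .nil))))) (.node (.I .jac (.c 18433 (.c 174695561 (.c 40 .nil))) (.l 32 .nil)) (.I .jac (.c 18433 (.c 4673 (.c 16 .nil))) (.b 40 (.l 32 .nil)))))))) (.node (.node (.node (.node (.node (.I .jac (.c 4673 (.c 16 (.c 40 .nil))) (.b 18433 (.l 32 .nil))) (.I .jac (.c 18433 (.c 8 (.c 16 .nil))) (.b 24 (.b 40 (.l 32 .nil))))) (.node (.I .jac (.c 231045989336561353 (.c 16 (.c 48 .nil))) (.l 32 .nil)) (.I .jac (.c 4609 (.c 8 (.c 40 .nil))) (.b 18561 (.l 32 .nil))))) (.node (.node (.I .jac (.c 13748194865974800073 (.c 16 (.c 48 .nil))) (.l 32 .nil)) (.I .jac (.c 9024976834606793 (.c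 24 (.c 48 .nil))) (.l 32 .nil))) (.node (.I .jac (.c 13748192181200529161 (.c 24 (.c 48 .nil))) (.l 32 .nil)) (.I .jac (.c 35470870263561 (.c 24 (.c 48 .nil))) (.l 32 .nil))))) (.node (.node (.node (.I .jac (.c 2049 (.c 8 (.c 40 .nil))) (.b 18625 (.l 32 .nil))) (.I .jac (.c 12801 (.c 8 (.c 16 .nil))) (.b 18625 (.l 32 .nil)))) (.node (.I .jac (.c 0 (.c 8 (.c 24 .nil))) (.b 1337272713 (.l 32 .nil))) (.I .jac (.c 0 (.c 16 (.c 40 .nil))) (.b 174695817 (.l 32 .nil))))) (.node (.node (.I .jac (.c 513 (.c 16 (.c 40 .nil))) (.b 18625 (.b 32 .nil))) (.I .jac (.c 513 (.c 16 (.c 40 .nil))) (.b 18625 (.l 32 .nil)))) (.node (.I .jac (.c 9024908047478473 (.c 40 (.c 48 .nil))) (.b 32 .nil)) (.I .jac (.c 4609 (.c 8 (.c 16 .nil))) (.b 18753 (.b 32 .nil))))))) (.node (.node (.node (.node (.I .jac (.c 0 (.c 2113 (.c 24 .nil))) (.b 18753 (.b 32 .nil))) (.I .jac (.c 0 (.c 8 (.c 16 .nil))) (.b 24 (.b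 18753 (.b 32 .nil))))) (.node (.I .jac (.c 4609 (.c 8 (.c 16 .nil))) (.b 18753 (.l 32 .nil))) (.I .jac (.c 62889413446729 (.c 40 (.c 48 .nil))) (.b 32 .nil)))) (.node (.node (.I .jac (.c 513 (.c 16 (.c 24 .nil))) (.b 18753 (.l 32 .nil))) (.I .adp (.c 24 (.c 40 (.c 48 .nil))) (.b 2113 (.l 8193 .nil)))) (.node (.I .adp (.c 24 (.c 40 (.c 8 .nil))) (.b 18561 (.l 8193 .nil))) (.I .com (.c 12865 (.c 24 .nil)) (.b 18561 (.l 8193 .nil)))))) (.node (.node (.node (.I .adp (.c 24 (.c 40 (.c 16 .nil))) (.b 18497 (.l 8193 .nil))) (.I .com (.c 12929 (.c 24 .nil)) (.b 18497 (.l 8193 .nil)))) (.node (.I .adp (.c 8 (.c 40 (.c 48 .nil))) (.b 4737 (.l 8193 .nil))) (.I .adp (.c 8 (.c 40 (.c 16 .nil))) (.b 18625 (.l 8193 .nil))))) (.node (.node (.I .adp (.c 8 (.c 40 (.c 24 .nil))) (.b 18561 (.l 8193 .nil))) (.I .adp (.c 8 (.c 24 (.c 16 .nil))) (.b 18753 (.l 8193 .nil)))) (.node (.I .adp (.c 8 (.c 24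 (.c 48 .nil))) (.b 12929 (.l 8193 .nil))) (.I .adp (.c 8 (.c 24 (.c 40 .nil))) (.b 18561 (.l 8193 .nil)))))))))

noncomputable def c4_101 : Tr := (.node (.node (.node (.node (.node (.node (.I .adp (.c 8 (.c 16 (.c 24 .nil))) (.b 18753 (.l 8193 .nil))) (.I .adp (.c 8 (.c 16 (.c 40 .nil))) (.b 18625 (.l 8193 .nil)))) (.node (.I .adp (.c 8 (.c 16 (.c 48 .nil))) (.b 12993 (.l 8193 .nil))) (.I .jac (.c 169943433 (.c 16 (.c 40 .nil))) (.b 8 (.b 32 .nil))))) (.node (.node (.I .jac (.c 169943369 (.c 16 (.c 48 .nil))) (.b 8 (.b 32 .nil))) (.I .jac (.c 4609 (.c 18561 (.c 40 .nil))) (.b 8 (.b 32 .nil)))) (.node (.I .jac (.c 4609 (.c 16 (.c 48 .nil))) (.b 40 (.b 8 (.b 32 .nil)))) (.I .jac (.c 4609 (.c 12929 (.c 48 .nil))) (.b 8 (.b 32 .nil)))))) (.node (.node (.node (.I .jac (.c 4609 (.c 16 (.c 40 .nil))) (.b 48 (.b 8 (.b 32 .nil)))) (.I .jac (.c 1310925193 (.c 16 (.c 24 .nil))) (.b 8 (.b 32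 .nil)))) (.node (.I .jac (.c 2718204233 (.c 16 (.c 24 .nil))) (.b 8 (.l 32 .nil))) (.I .jac (.c 12801 (.c 18561 (.c 24 .nil))) (.b 8 (.b 32 .nil))))) (.node (.node (.I .jac (.c 12801 (.c 16 (.c 48 .nil))) (.b 24 (.b 8 (.b 32 .nil)))) (.I .jac (.c 2718204105 (.c 16 (.c 40 .nil))) (.b 8 (.b 32 .nil)))) (.node (.I .jac (.c 12801 (.c 16 (.c 48 .nil))) (.b 24 (.b 8 (.l 32 .nil)))) (.I .jac (.c 2718204105 (.c 16 (.c 40 .nil))) (.b 8 (.l 32 .nil))))))) (.node (.node (.node (.node (.I .jac (.c 0 (.c 16 (.c 48 .nil))) (.b 12993 (.b 32 (.b 8 .nil)))) (.I .jac (.c 2718204041 (.c 24 (.c 40 .nil))) (.b 8 (.b 32 .nil)))) (.node (.I .jac (.c 0 (.c 16 (.c 48 .nil))) (.b 12993 (.b 8 (.b 32 .nil)))) (.I .jac (.c 2718204041 (.c 24 (.c 40 .nil))) (.b 8 (.l 32 .nil))))) (.node (.node (.I .adp (.c 0 (.c 48 (.c 40 .nil))) (.b 4737 (.l 8257 .nil))) (.I .adp (.c 0 (.c 48 (.c 24 .nil))) (.b 12929 (.l 8257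 .nil)))) (.node (.I .adp (.c 0 (.c 48 (.c 16 .nil))) (.b 12993 (.l 8257 .nil))) (.I .jac (.c 18433 (.c 12929 (.c 24 .nil))) (.b 8 (.b 32 .nil)))))) (.node (.node (.node (.I .jac (.c 18433 (.c 16 (.c 40 .nil))) (.b 24 (.b 8 (.b 32 .nil)))) (.I .jac (.c 18433 (.c 16 (.c 40 .nil))) (.b 24 (.b 8 (.l 32 .nil))))) (.node (.I .adp (.c 24 (.c 40 (.c 48 .nil))) (.b 2049 (.l 8257 .nil))) (.I .adp (.c 12801 (.c 24 (.c 18561 .nil))) (.l 8257 .nil)))) (.node (.node (.I .adp (.c 4609 (.c 40 (.c 18561 .nil))) (.l 8257 .nil)) (.I .adp (.c 24 (.c 40 (.c 0 .nil))) (.b 18561 (.l 8257 .nil)))) (.node (.I .com (.c 12801 (.c 24 .nil)) (.b 18561 (.l 8257 .nil))) (.I .adp (.c 24 (.c 40 (.c 16 .nil))) (.b 18433 (.l 8257 .nil)))))))) (.node (.node (.node (.node (.node (.I .com (.c 12929 (.c 24 .nil)) (.b 18433 (.l 8257 .nil))) (.I .jac (.c 0 (.c 16 (.c 40 .nil))) (.b 18625 (.b 32 (.l 8 .nil))))) (.node (.I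 .jac (.c 0 (.c 16 (.c 40 .nil))) (.b 18625 (.b 8 (.b 32 .nil)))) (.I .jac (.c 169943177 (.c 40 (.c 48 .nil))) (.b 32 (.b 8 .nil))))) (.node (.node (.I .jac (.c 33587401 (.c 40 (.c 48 .nil))) (.b 32 (.b 8 .nil))) (.I .jac (.c 169943177 (.c 40 (.c 48 .nil))) (.b 32 (.l 8 .nil)))) (.node (.I .jac (.c 0 (.c 16 (.c 24 .nil))) (.b 18753 (.b 32 (.l 8 .nil)))) (.I .jac (.c 33587401 (.c 40 (.c 48 .nil))) (.b 8 (.b 32 .nil)))))) (.node (.node (.node (.I .jac (.c 2803715 (.c 40 (.c 48 .nil))) (.b 8 (.b 32 .nil))) (.I .jac (.c 4737 (.c 40 (.c 48 .nil))) (.b 32 (.l 513 .nil)))) (.node (.I .jac (.c 169943433 (.c 8 (.c 40 .nil))) (.l 8321 .nil)) (.I .com (.c 427058636821846666152103631404146377 (.c 8321 .nil)) .nil))) (.node (.node (.I .com (.c 427057993508084562470663629860471497 (.c 8321 .nil)) .nil) (.I .jac (.c 2718204233 (.c 8 (.c 24 .nil))) (.l 8321 .nil))) (.node (.I .com (.c 27951061050494848579379785769086333720265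 (.c 8321 .nil)) .nil) (.I .jac (.c 2105673 (.c 24 (.c 48 .nil))) (.b 16 (.b 32 .nil))))))) (.node (.node (.node (.node (.I .jac (.c 513 (.c 24 (.c 40 .nil))) (.b 48 (.b 16 (.l 32 .nil)))) (.I .tdb (.c 0 (.c 24 (.c 48 (.c 12865 .nil)))) (.l 8321 .nil))) (.node (.I .tdb (.c 8 (.c 40 (.c 0 (.c 48 .nil)))) (.b 24 (.l 8321 .nil))) (.I .tdb (.c 8 (.c 40 (.c 24 (.c 48 .nil)))) (.b 0 (.l 8321 .nil))))) (.node (.node (.I .jac (.c 4609 (.c 8 (.c 48 .nil))) (.r 40 (.l 8321 .nil))) (.I .jac (.c 4609 (.c 8 (.c 40 .nil))) (.r 48 (.l 8321 .nil)))) (.node (.I .tdb (.c 0 (.c 40 (.c 8 (.c 48 .nil)))) (.b 24 (.l 8321 .nil))) (.I .tdb (.c 8 (.c 24 (.c 48 (.c 12801 .nil)))) (.l 8321 .nil))))) (.node (.node (.node (.I .jac (.c 18433 (.c 8 (.c 24 .nil))) (.r 40 (.l 8321 .nil))) (.I .jac (.c 12801 (.c 8 (.c 24 .nil))) (.r 48 (.l 8321 .nil)))) (.node (.I .jac (.c 1310925001 (.c 8 (.c 48 .nil))) (.l 8321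 .nil)) (.I .jac (.c 12801 (.c 8 (.c 48 .nil))) (.b 24 (.l 8321 .nil))))) (.node (.node (.I .jac (.c 12801 (.c 4673 (.c 48 .nil))) (.l 8321 .nil)) (.I .com (.c 27951055785643122968540376538297009659593 (.c 8321 .nil)) .nil)) (.node (.I .adp (.c 24 (.c 48 (.c 40 .nil))) (.b 513 (.l 8321 .nil))) (.I .com (.c 1310925001 (.c 18497 .nil)) (.l 8321 .nil))))))))

noncomputable def c4_102 : Tr := (.node (.node (.node (.node (.node (.node (.I .com (.c 1310925193 (.c 4673 .nil)) (.l 8321 .nil)) (.I .adp (.c 18497 (.c 24 (.c 12801 .nil))) (.l 8321 .nil))) (.node (.I .adp (.c 4673 (.c 48 (.c 12801 .nil))) (.l 8321 .nil)) (.I .adp (.c 24 (.c 48 (.c 8 .nil))) (.b 12801 (.l 8321 .nil))))) (.node (.node (.I .com (.c 18497 (.c 24 .nil)) (.b 12801 (.l 8321 .nil))) (.I .adp (.c 18433 (.c 24 (.c 12865 .nil))) (.l 8321 .nil))) (.node (.I .adp (.c 4609 (.c 48 (.c 12865 .nil))) (.l 8321 .nil)) (.I .adp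 (.c 24 (.c 48 (.c 0 .nil))) (.b 12865 (.l 8321 .nil)))))) (.node (.node (.node (.I .com (.c 18433 (.c 24 .nil)) (.b 12865 (.l 8321 .nil))) (.I .jac (.c 0 (.c 8 (.c 48 .nil))) (.b 12993 (.l 8321 .nil)))) (.node (.I .jac (.c 2718203977 (.c 24 (.c 40 .nil))) (.b 16 (.b 32 .nil))) (.I .jac (.c 18433 (.c 12865 (.c 24 .nil))) (.l 8321 .nil)))) (.node (.node (.I .jac (.c 18433 (.c 8 (.c 40 .nil))) (.b 24 (.l 8321 .nil))) (.I .adp (.c 24 (.c 40 (.c 48 .nil))) (.b 513 (.l 8321 .nil)))) (.node (.I .adp (.c 12801 (.c 24 (.c 18497 .nil))) (.l 8321 .nil)) (.I .adp (.c 4609 (.c 40 (.c 18497 .nil))) (.l 8321 .nil)))))) (.node (.node (.node (.node (.I .adp (.c 24 (.c 40 (.c 0 .nil))) (.b 18497 (.l 8321 .nil))) (.I .com (.c 12801 (.c 24 .nil)) (.b 18497 (.l 8321 .nil)))) (.node (.I .com (.c 2718204105 (.c 12865 .nil)) (.l 8321 .nil)) (.I .com (.c 2718204233 (.c 4673 .nil)) (.l 8321 .nil)))) (.node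 (.node (.I .adp (.c 12865 (.c 24 (.c 18433 .nil))) (.l 8321 .nil)) (.I .adp (.c 4673 (.c 40 (.c 18433 .nil))) (.l 8321 .nil))) (.node (.I .adp (.c 24 (.c 40 (.c 8 .nil))) (.b 18433 (.l 8321 .nil))) (.I .com (.c 12865 (.c 24 .nil)) (.b 18433 (.l 8321 .nil)))))) (.node (.node (.node (.I .jac (.c 0 (.c 8 (.c 40 .nil))) (.b 18625 (.b 32 (.b 16 .nil)))) (.I .jac (.c 0 (.c 8 (.c 40 .nil))) (.b 18625 (.b 32 (.l 16 .nil))))) (.node (.I .jac (.c 0 (.c 8 (.c 40 .nil))) (.b 18625 (.b 16 (.b 32 .nil)))) (.I .jac (.c 1310924873 (.c 24 (.c 48 .nil))) (.b 16 (.l 32 .nil))))) (.node (.node (.I .jac (.c 2105545 (.c 40 (.c 48 .nil))) (.b 32 (.b 16 .nil))) (.I .jac (.c 0 (.c 8 (.c 24 .nil))) (.b 18753 (.b 32 (.b 16 .nil))))) (.node (.I .jac (.c 169943113 (.c 40 (.c 48 .nil))) (.b 32 (.l 16 .nil))) (.I .jac (.c 2105545 (.c 40 (.c 48 .nil))) (.b 16 (.b 32 .nil)))))))) (.node (.node (.node (.node (.node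 (.I .jac (.c 0 (.c 8 (.c 24 .nil))) (.b 18753 (.b 16 (.b 32 .nil)))) (.I .jac (.c 169943113 (.c 40 (.c 48 .nil))) (.b 16 (.l 32 .nil)))) (.node (.I .jac (.c 2728451 (.c 40 (.c 48 .nil))) (.b 32 (.b 16 .nil))) (.I .jac (.c 12865 (.c 24 (.c 48 .nil))) (.l 32 (.l 2049 .nil))))) (.node (.node (.I .jac (.c 18497 (.c 24 (.c 40 .nil))) (.l 32 (.l 2049 .nil))) (.I .jac (.c 0 (.c 4673 (.c 40 .nil))) (.b 48 (.l 8321 .nil)))) (.node (.I .jac (.c 0 (.c 8 (.c 24 .nil))) (.b 40 (.b 48 (.l 8321 .nil)))) (.I .jac (.c 0 (.c 12865 (.c 48 .nil))) (.b 24 (.l 8321 .nil)))))) (.node (.node (.node (.I .jac (.c 0 (.c 8 (.c 40 .nil))) (.b 48 (.b 24 (.l 8321 .nil)))) (.I .jac (.c 0 (.c 12865 (.c 24 .nil))) (.b 48 (.l 8321 .nil)))) (.node (.I .jac (.c 0 (.c 8 (.c 40 .nil))) (.b 24 (.b 48 (.l 8321 .nil)))) (.I .jac (.c 4609 (.c 40 (.c 48 .nil))) (.b 32 (.b 8 (.l 16 .nil)))))) (.node (.node (.I .jac (.c 4609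 (.c 40 (.c 48 .nil))) (.b 16 (.b 32 (.l 8 .nil)))) (.I .jac (.c 12801 (.c 24 (.c 48 .nil))) (.b 16 (.b 32 (.l 8 .nil))))) (.node (.I .jac (.c 18433 (.c 24 (.c 40 .nil))) (.b 16 (.b 32 (.l 8 .nil)))) (.I .jac (.c 4609 (.c 40 (.c 48 .nil))) (.b 16 (.b 8 (.b 32 .nil)))))))) (.node (.node (.node (.node (.I .jac (.c 12801 (.c 24 (.c 48 .nil))) (.b 16 (.b 8 (.b 32 .nil)))) (.I .jac (.c 18433 (.c 24 (.c 40 .nil))) (.b 16 (.b 8 (.b 32 .nil))))) (.node (.I .jac (.c 4609 (.c 40 (.c 48 .nil))) (.b 8 (.b 16 (.l 32 .nil)))) (.I .jac (.c 12801 (.c 24 (.c 48 .nil))) (.b 8 (.b 16 (.l 32 .nil)))))) (.node (.node (.I .jac (.c 18433 (.c 24 (.c 40 .nil))) (.b 8 (.b 16 (.l 32 .nil)))) (.I .jac (.c 2105737 (.c 16 (.c 40 .nil))) (.l 8385 .nil))) (.node (.I .jac (.c 513 (.c 18561 (.c 40 .nil))) (.l 8385 .nil)) (.I .jac (.c 513 (.c 12929 (.c 48 .nil))) (.l 8385 .nil))))) (.node (.node (.node (.I .com (.c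 10066684875777433669609463561 (.c 8385 .nil)) .nil) (.I .jac (.c 33587593 (.c 8 (.c 40 .nil))) (.l 8385 .nil))) (.node (.I .jac (.c 33587529 (.c 8 (.c 48 .nil))) (.l 8385 .nil)) (.I .jac (.c 2049 (.c 8 (.c 40 .nil))) (.b 48 (.l 8385 .nil))))) (.node (.node (.I .com (.c 651606621363126269490052522057417 (.c 8385 .nil)) .nil) (.I .jac (.c 2718204233 (.c 8 (.c 16 .nil))) (.l 8385 .nil))) (.node (.I .com (.c 27951061050494848518852093974251956531913 (.c 8385 .nil)) .nil) (.I .com (.c 27951061050494848458324402179417579409161 (.c 8385 .nil)) .nil)))))))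

noncomputable def c4_103 : Tr := (.node (.node (.node (.node (.node (.node (.I .tdb (.c 0 (.c 8 (.c 48 (.c 12929 .nil)))) (.l 8385 .nil)) (.I .tdb (.c 16 (.c 40 (.c 0 (.c 48 .nil)))) (.b 8 (.l 8385 .nil)))) (.node (.I .tdb (.c 16 (.c 40 (.c 8 (.c 48 .nil)))) (.b 0 (.l 8385 .nil))) (.I .com (.c 2105673 (.c 18561 .nil)) (.l 8385 .nil)))) (.node (.node (.I .adp (.c 12929 (.c 48 (.c 513 .nil))) (.l 8385 .nil)) (.I .com (.c 2105737 (.c 12929 .nil)) (.l 8385 .nil))) (.node (.I .jac (.c 513 (.c 16 (.c 40 .nil))) (.r 48 (.l 8385 .nil))) (.I .tdb (.c 0 (.c 16 (.c 48 (.c 12865 .nil)))) (.l 8385 .nil))))) (.node (.node (.node (.I .tdb (.c 8 (.c 40 (.c 0 (.c 48 .nil)))) (.b 16 (.l 8385 .nil))) (.I .tdb (.c 8 (.c 40 (.c 16 (.c 48 .nil)))) (.b 0 (.l 8385 .nil)))) (.node (.I .com (.c 33587529 (.c 18497 .nil)) (.l 8385 .nil)) (.I .jac (.c 2049 (.c 8 (.c 40 .nil))) (.r 48 (.l 8385 .nil))))) (.node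 (.node (.I .tdb (.c 0 (.c 40 (.c 8 (.c 48 .nil)))) (.b 16 (.l 8385 .nil))) (.I .tdb (.c 0 (.c 40 (.c 16 (.c 48 .nil)))) (.b 8 (.l 8385 .nil)))) (.node (.I .tdb (.c 8 (.c 16 (.c 48 (.c 12801 .nil)))) (.l 8385 .nil)) (.I .jac (.c 12801 (.c 8 (.c 16 .nil))) (.r 48 (.l 8385 .nil))))))) (.node (.node (.node (.node (.I .jac (.c 12801 (.c 8 (.c 48 .nil))) (.b 16 (.l 8385 .nil))) (.I .jac (.c 12801 (.c 2113 (.c 48 .nil))) (.l 8385 .nil))) (.node (.I .jac (.c 2718204041 (.c 8 (.c 40 .nil))) (.l 8385 .nil)) (.I .jac (.c 0 (.c 16 (.c 48 .nil))) (.b 12865 (.l 8385 .nil))))) (.node (.node (.I .adp (.c 16 (.c 18753 (.c 513 .nil))) (.l 8385 .nil)) (.I .jac (.c 513 (.c 40 (.c 48 .nil))) (.l 16 (.l 8385 .nil)))) (.node (.I .com (.c 35473026505673 (.c 16 .nil)) (.l 8385 .nil)) (.I .com (.c 35470870263817 (.c 16 .nil)) (.l 8385 .nil))))) (.node (.node (.node (.I .adp (.c 16 (.c 48 (.c 40 .nil))) (.b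 513 (.l 8385 .nil))) (.I .ass (.c 8385 (.c 35470870263817 (.c 16 .nil))) .nil)) (.node (.I .com (.c 8385 (.c 35470870263817 .nil)) (.r 16 .nil)) (.I .jac (.c 12801 (.c 8 (.c 48 .nil))) (.r 16 (.l 8385 .nil))))) (.node (.node (.I .com (.c 1310924937 (.c 18497 .nil)) (.l 8385 .nil)) (.I .com (.c 1310925193 (.c 2113 .nil)) (.l 8385 .nil))) (.node (.I .adp (.c 18497 (.c 16 (.c 12801 .nil))) (.l 8385 .nil)) (.I .adp (.c 2113 (.c 48 (.c 12801 .nil))) (.l 8385 .nil))))))) (.node (.node (.node (.node (.node (.I .adp (.c 16 (.c 48 (.c 8 .nil))) (.b 12801 (.l 8385 .nil))) (.I .com (.c 18497 (.c 16 .nil)) (.b 12801 (.l 8385 .nil)))) (.node (.I .ass (.c 8385 (.c 13748198893136698057 (.c 16 .nil))) .nil) (.I .com (.c 8385 (.c 13748198893136698057 .nil)) (.r 16 .nil)))) (.node (.node (.I .ass (.c 8385 (.c 13748192181200529417 (.c 16 .nil))) .nil) (.I .com (.c 8385 (.c 13748192181200529417 .nil))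 (.r 16 .nil))) (.node (.I .ass (.c 8385 (.c 1310925193 (.c 2113 .nil))) .nil) (.I .com (.c 8385 (.c 1310925193 .nil)) (.r 2113 .nil))))) (.node (.node (.node (.I .ass (.c 8385 (.c 1310924937 (.c 18497 .nil))) .nil) (.I .ass (.c 1310924937 (.c 8385 (.c 18497 .nil))) .nil)) (.node (.I .com (.c 8385 (.c 1310924937 .nil)) (.r 18497 .nil)) (.I .jac (.c 18433 (.c 8 (.c 40 .nil))) (.r 16 (.l 8385 .nil))))) (.node (.node (.I .adp (.c 18433 (.c 16 (.c 12865 .nil))) (.l 8385 .nil)) (.I .adp (.c 2049 (.c 48 (.c 12865 .nil))) (.l 8385 .nil))) (.node (.I .adp (.c 16 (.c 48 (.c 0 .nil))) (.b 12865 (.l 8385 .nil))) (.I .com (.c 18433 (.c 16 .nil)) (.b 12865 (.l 8385 .nil))))))) (.node (.node (.node (.node (.I .ass (.c 8385 (.c 59109074018392946377 (.c 16 .nil))) .nil) (.I .com (.c 8385 (.c 59109074018392946377 .nil)) (.r 16 .nil))) (.node (.I .ass (.c 8385 (.c 18433 (.c 1324065929 .nil))) .nil)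 (.I .com (.c 8385 (.c 18433 .nil)) (.r 1324065929 .nil)))) (.node (.node (.I .ass (.c 8385 (.c 2049 (.c 1324066185 .nil))) .nil) (.I .ass (.c 2049 (.c 8385 (.c 1324066185 .nil))) .nil)) (.node (.I .com (.c 8385 (.c 2049 .nil)) (.r 1324066185 .nil)) (.I .jac (.c 0 (.c 8 (.c 48 .nil))) (.b 12929 (.l 8385 .nil)))))) (.node (.node (.node (.I .jac (.c 0 (.c 16 (.c 40 .nil))) (.b 18497 (.l 8385 .nil))) (.I .jac (.c 18433 (.c 12865 (.c 16 .nil))) (.l 8385 .nil))) (.node (.I .jac (.c 18433 (.c 2113 (.c 40 .nil))) (.l 8385 .nil)) (.I .jac (.c 18433 (.c 8 (.c 16 .nil))) (.b 40 (.l 8385 .nil))))) (.node (.node (.I .com (.c 2718204233 (.c 2113 .nil)) (.l 8385 .nil)) (.I .jac (.c 1310924873 (.c 16 (.c 48 .nil))) (.l 8385 .nil))) (.node (.I .jac (.c 0 (.c 8 (.c 40 .nil))) (.b 18561 (.b 32 (.b 24 .nil)))) (.I .jac (.c 0 (.c 8 (.c 16 .nil))) (.b 18753 (.b 32 (.b 24 .nil))))))))))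

noncomputable def c4_104 : Tr := (.node (.node (.node (.node (.node (.node (.I .jac (.c 33587273 (.c 40 (.c 48 .nil))) (.b 32 (.l 24 .nil))) (.I .jac (.c 2105481 (.c 40 (.c 48 .nil))) (.b 32 (.l 24 .nil)))) (.node (.I .jac (.c 33587273 (.c 40 (.c 48 .nil))) (.b 24 (.b 32 .nil))) (.I .jac (.c 33587273 (.c 40 (.c 48 .nil))) (.b 24 (.l 32 .nil))))) (.node (.node (.I .jac (.c 2105481 (.c 40 (.c 48 .nil))) (.b 24 (.l 32 .nil))) (.I .jac (.c 557571 (.c 40 (.c 48 .nil))) (.b 24 (.b 32 .nil)))) (.node (.I .jac (.c 2113 (.c 40 (.c 48 .nil))) (.b 32 (.l 4609 .nil))) (.I .jac (.c 12865 (.c 16 (.c 48 .nil))) (.l 32 (.l 4609 .nil)))))) (.node (.node (.node (.I .jac (.c 18497 (.c 16 (.c 40 .nil))) (.l 32 (.l 4609 .nil))) (.I .jac (.c 2113 (.c 40 (.c 48 .nil))) (.b 24 (.l 8193 .nil)))) (.node (.I .jac (.c 2049 (.c 40 (.c 48 .nil))) (.b 32 (.b 24 (.b 8 .nil)))) (.I .jac (.c 2049 (.c 40 (.c 48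 .nil))) (.b 32 (.b 8 (.b 24 .nil)))))) (.node (.node (.I .jac (.c 12801 (.c 16 (.c 48 .nil))) (.l 32 (.l 4673 .nil))) (.I .com (.c 13748198893136698121 (.c 32 .nil)) (.l 4673 .nil))) (.node (.I .jac (.c 18433 (.c 16 (.c 40 .nil))) (.l 32 (.l 4673 .nil))) (.I .com (.c 59109074018392946441 (.c 32 .nil)) (.l 4673 .nil)))))) (.node (.node (.node (.node (.I .jac (.c 2049 (.c 40 (.c 48 .nil))) (.b 24 (.b 8 (.l 32 .nil)))) (.I .jac (.c 12801 (.c 16 (.c 48 .nil))) (.l 24 (.l 8257 .nil)))) (.node (.I .com (.c 13748198893136698121 (.c 24 .nil)) (.l 8257 .nil)) (.I .jac (.c 18433 (.c 16 (.c 40 .nil))) (.l 24 (.l 8257 .nil))))) (.node (.node (.I .com (.c 59109074018392946441 (.c 24 .nil)) (.l 8257 .nil)) (.I .jac (.c 2049 (.c 40 (.c 48 .nil))) (.b 8 (.b 32 (.b 24 .nil))))) (.node (.I .jac (.c 12801 (.c 16 (.c 48 .nil))) (.b 8 (.b 32 (.b 24 .nil)))) (.I .jac (.c 18433 (.c 16 (.c 40 .nil))) (.b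 8 (.b 32 (.b 24 .nil))))))) (.node (.node (.node (.I .jac (.c 12801 (.c 8 (.c 48 .nil))) (.l 553912521 .nil)) (.I .com (.c 13748198893136698057 (.c 553912521 .nil)) .nil)) (.node (.I .jac (.c 18433 (.c 8 (.c 40 .nil))) (.l 553912521 .nil)) (.I .com (.c 59109074018392946377 (.c 553912521 .nil)) .nil))) (.node (.node (.I .jac (.c 513 (.c 40 (.c 48 .nil))) (.b 8786563 .nil)) (.I .jac (.c 12801 (.c 8 (.c 48 .nil))) (.l 8385 (.l 16 .nil)))) (.node (.I .com (.c 13748198893136698057 (.c 8385 .nil)) (.l 16 .nil)) (.I .jac (.c 18433 (.c 8 (.c 40 .nil))) (.l 8385 (.l 16 .nil)))))))) (.node (.node (.node (.node (.node (.I .com (.c 59109074018392946377 (.c 8385 .nil)) (.l 16 .nil)) (.I .jac (.c 513 (.c 40 (.c 48 .nil))) (.b 32 (.b 24 (.l 16 .nil))))) (.node (.I .jac (.c 513 (.c 40 (.c 48 .nil))) (.b 32 (.b 16 (.b 24 .nil)))) (.I .jac (.c 513 (.c 40 (.c 48 .nil))) (.b 32 (.b 16 (.l 24 .nil))))))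 (.node (.node (.I .jac (.c 12801 (.c 8 (.c 48 .nil))) (.l 32 (.l 4737 .nil))) (.I .com (.c 13748198893136698057 (.c 32 .nil)) (.l 4737 .nil))) (.node (.I .jac (.c 18433 (.c 8 (.c 40 .nil))) (.l 32 (.l 4737 .nil))) (.I .com (.c 59109074018392946377 (.c 32 .nil)) (.l 4737 .nil))))) (.node (.node (.node (.I .jac (.c 513 (.c 40 (.c 48 .nil))) (.b 24 (.l 8321 .nil))) (.I .jac (.c 513 (.c 40 (.c 48 .nil))) (.b 24 (.b 16 (.b 32 .nil))))) (.node (.I .jac (.c 513 (.c 40 (.c 48 .nil))) (.b 16 (.l 8385 .nil))) (.I .jac (.c 513 (.c 40 (.c 48 .nil))) (.b 16 (.b 32 (.b 24 .nil)))))) (.node (.node (.I .jac (.c 513 (.c 40 (.c 48 .nil))) (.b 16 (.b 32 (.l 24 .nil)))) (.I .jac (.c 513 (.c 40 (.c 48 .nil))) (.b 16 (.b 24 (.b 32 .nil))))) (.node (.I .jac (.c 35473026505545 (.c 16 (.c 32 .nil))) (.l 40 .nil)) (.I .jac (.c 513 (.c 16 (.c 48 .nil))) (.b 24 (.b 32 (.l 40 .nil)))))))) (.node (.node (.node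 (.node (.I .com (.c 810311000722058987568294027489664629116738216470604568329 (.c 40 .nil)) .nil) (.I .com (.c 810113986414488962661815687049395427480056877487513402121 (.c 40 .nil)) .nil)) (.node (.I .com (.c 809917014021492389842747135875993478139442776722716645257 (.c 40 .nil)) .nil) (.I .jac (.c 9025011228269385 (.c 8 (.c 32 .nil))) (.l 40 .nil)))) (.node (.node (.I .jac (.c 9024942441009993 (.c 8 (.c 48 .nil))) (.l 40 .nil)) (.I .jac (.c 33587465 (.c 8 (.c 48 .nil))) (.b 24 (.l 40 .nil)))) (.node (.I .jac (.c 33587465 (.c 4673 (.c 48 .nil))) (.l 40 .nil)) (.I .jac (.c 33587465 (.c 8 (.c 24 .nil))) (.b 48 (.l 40 .nil)))))) (.node (.node (.node (.I .jac (.c 33587401 (.c 8 (.c 48 .nil))) (.b 32 (.l 40 .nil))) (.I .jac (.c 2049 (.c 545424777 (.c 24 .nil))) (.l 40 .nil))) (.node (.I .jac (.c 2049 (.c 8257 (.c 48 .nil))) (.b 24 (.l 40 .nil))) (.I .jac (.c 2049 (.c 8 (.c 32 .nil)))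 (.b 48 (.b 24 (.l 40 .nil)))))) (.node (.node (.I .jac (.c 2049 (.c 8 (.c 48 .nil))) (.b 24 (.b 32 (.l 40 .nil)))) (.I .jac (.c 2049 (.c 545424585 (.c 48 .nil))) (.l 40 .nil))) (.node (.I .jac (.c 2049 (.c 8257 (.c 24 .nil))) (.b 48 (.l 40 .nil))) (.I .jac (.c 2049 (.c 8 (.c 32 .nil))) (.b 24 (.b 48 (.l 40 .nil))))))))))

noncomputable def c4_105 : Tr := (.node (.node (.node (.node (.node (.node (.I .com (.c 3396625955800642344247222453443955330243337984916469004233742112457 (.c 40 .nil)) .nil) (.I .com (.c 3396729512033956131747053835157612279803907526530471170432526138057 (.c 40 .nil)) .nil)) (.node (.I .com (.c 3396470626629700632970704854323515439611237752354214331435757983753 (.c 40 .nil)) .nil) (.I .jac (.c 59109068451510808457 (.c 8 (.c 16 .nil))) (.l 40 .nil)))) (.node (.node (.I .jac (.c 231046163358604169 (.c 8 (.c 16 .nil))) (.l 40 .nil)) (.I .jac (.c 2306970773558194185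 (.c 8 (.c 16 .nil))) (.l 40 .nil))) (.node (.I .com (.c 14502389782864777333305098924298644431720863286348602819849794413613458453193 (.c 40 .nil)) .nil) (.I .com (.c 6250092156257071158258895001986985405150837068275867440529049998660375931918561993 (.c 40 .nil)) .nil)))) (.node (.node (.node (.I .com (.c 1459032634273069816758958723893570445642906421186218312840953502770213577 (.c 40 .nil)) .nil) (.I .com (.c 6250092156257071158258895001986985405122215187151368882671245003645771191549267721 (.c 40 .nil)) .nil)) (.node (.I .jac (.c 35473026505609 (.c 16 (.c 24 .nil))) (.l 40 .nil)) (.I .jac (.c 513 (.c 16 (.c 48 .nil))) (.b 32 (.b 24 (.l 40 .nil)))))) (.node (.node (.I .com (.c 809917014021492389842747146179266883316316492151278009161 (.c 40 .nil)) .nil) (.I .jac (.c 33587593 (.c 4673 (.c 32 .nil))) (.l 40 .nil))) (.node (.I .jac (.c 33587401 (.c 8 (.c 32 .nil))) (.b 48 (.l 40 .nil)))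 (.I .jac (.c 2049 (.c 8 (.c 48 .nil))) (.b 32 (.b 24 (.l 40 .nil)))))))) (.node (.node (.node (.node (.I .com (.c 3396729512034052482070957803012191837002676201838174190827433744073 (.c 40 .nil)) .nil) (.I .com (.c 3396574178719587173931624198464933818003441404440742072888827953865 (.c 40 .nil)) .nil)) (.node (.I .com (.c 3396470626629604288154436272497633140159839280743900400390065568777 (.c 40 .nil)) .nil) (.I .jac (.c 231045815314584585 (.c 8 (.c 16 .nil))) (.l 40 .nil)))) (.node (.node (.I .com (.c 1459023842844933950499556010948851291195594742145000102581522084745032393 (.c 40 .nil)) .nil) (.I .com (.c 1459023842844933950499556010948850853888868142414793345823926992799665929 (.c 40 .nil)) .nil)) (.node (.I .tdb (.c 0 (.c 8 (.c 24 (.c 32 .nil)))) (.b 18561 (.b 40 .nil))) (.I .com (.c 810311000722058987568294017183885498617107931928410829641 (.c 40 .nil)) .nil)))) (.node (.node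 (.node (.I .com (.c 810113986414488962661815666440343006049332852622544712585 (.c 40 .nil)) .nil) (.I .jac (.c 231045467270827017 (.c 8 (.c 32 .nil))) (.l 40 .nil))) (.node (.I .jac (.c 169943433 (.c 8 (.c 16 .nil))) (.b 32 (.l 40 .nil))) (.I .jac (.c 169943177 (.c 8257 (.c 48 .nil))) (.l 40 .nil)))) (.node (.node (.I .jac (.c 4609 (.c 545424777 (.c 16 .nil))) (.l 40 .nil)) (.I .jac (.c 4609 (.c 8257 (.c 48 .nil))) (.b 16 (.l 40 .nil)))) (.node (.I .jac (.c 4609 (.c 8 (.c 32 .nil))) (.b 48 (.b 16 (.l 40 .nil)))) (.I .jac (.c 4609 (.c 8 (.c 48 .nil))) (.b 16 (.b 32 (.l 40 .nil))))))))) (.node (.node (.node (.node (.node (.I .jac (.c 4609 (.c 545424521 (.c 48 .nil))) (.l 40 .nil)) (.I .jac (.c 4609 (.c 8257 (.c 16 .nil))) (.b 48 (.l 40 .nil)))) (.node (.I .jac (.c 4609 (.c 8 (.c 32 .nil))) (.b 16 (.b 48 (.l 40 .nil)))) (.I .com (.c 1459032634273066583531893237580256547910552111377472741910729624189336265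 (.c 40 .nil)) .nil))) (.node (.node (.I .com (.c 1459010655789630753386011620242686973569793649721357247531368164488721417 (.c 40 .nil)) .nil) (.I .jac (.c 59109065668069837705 (.c 8 (.c 24 .nil))) (.l 40 .nil))) (.node (.I .jac (.c 2306970223667989513 (.c 8 (.c 24 .nil))) (.l 40 .nil)) (.I .com (.c 14502389782864775724004637839190473782856475165304737489350909178697041925833 (.c 40 .nil)) .nil)))) (.node (.node (.node (.I .com (.c 6250090978991937016972231763044093525950208124439267211021106410498509330578003657 (.c 40 .nil)) .nil) (.I .com (.c 6250090978991937016972231763044093525892964367581477691244036949794293640673201993 (.c 40 .nil)) .nil)) (.node (.I .jac (.c 169943433 (.c 8 (.c 32 .nil))) (.b 16 (.l 40 .nil))) (.I .jac (.c 169943433 (.c 2113 (.c 32 .nil))) (.l 40 .nil)))) (.node (.node (.I .jac (.c 231045467270826889 (.c 8 (.c 48 .nil))) (.l 40 .nil)) (.I .jac (.c 4609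 (.c 8 (.c 48 .nil))) (.b 32 (.b 16 (.l 40 .nil))))) (.node (.I .com (.c 1459015051463142951556903841905138958216352709921802402533905189875073737 (.c 40 .nil)) .nil) (.I .com (.c 1459010655789627520195474563615301397504644827606479082037052754917784585 (.c 40 .nil)) .nil))))) (.node (.node (.node (.node (.I .com (.c 3396625955800642344247222453442620860225272832890934158916880305993 (.c 40 .nil)) .nil) (.I .com (.c 244149027818380169 (.c 40 .nil)) (.l 2049 .nil))) (.node (.I .tdb (.c 0 (.c 24 (.c 32 (.c 16 .nil)))) (.b 18497 (.b 40 .nil))) (.I .tdb (.c 0 (.c 24 (.c 48 (.c 16 .nil)))) (.b 8257 (.b 40 .nil))))) (.node (.node (.I .com (.c 3396625955800160603643130806315961360728832908976413815959824433993 (.c 40 .nil)) .nil) (.I .com (.c 1459023842844925867468420828021685193271649165710521966216956661049393929 (.c 40 .nil)) .nil)) (.node (.I .jac (.c 2306972423229201097 (.c 16 (.c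 24 .nil))) (.l 40 .nil)) (.I .jac (.c 2306969673777850377 (.c 16 (.c 24 .nil))) (.l 40 .nil))))) (.node (.node (.node (.I .com (.c 6250089801726996906276604807059669510281064902963087913074935865281876929589663497 (.c 40 .nil)) .nil) (.I .com (.c 14502320647155142518722987525103327713070509053182658461137079954544965605129 (.c 40 .nil)) .nil)) (.node (.I .com (.c 6250089801726996906276604807059669510252443027229796760752043443484990649519387465 (.c 40 .nil)) .nil) (.I .com (.c 14502320647155142518722987525103327669471791504796916519612316093560812319561 (.c 40 .nil)) .nil))) (.node (.node (.I .jac (.c 59109071234951844553 (.c 16 (.c 24 .nil))) (.l 40 .nil)) (.I .jac (.c 0 (.c 8257 (.c 48 .nil))) (.b 4737 (.l 40 .nil)))) (.node (.I .jac (.c 0 (.c 8 (.c 32 .nil))) (.b 48 (.b 4737 (.l 40 .nil)))) (.I .com (.c 6250093333522399248956982637364085055356979936575078863574617661350422457236657929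 (.c 40 .nil)) .nil)))))))

noncomputable def c4_106 : Tr := (.node (.node (.node (.node (.node (.node (.I .com (.c 6250093333522399248956982637364085055328358052754976317529846539912873292530217801 (.c 40 .nil)) .nil) (.I .com (.c 257801454173641609 (.c 40 .nil)) (.l 513 .nil))) (.node (.I .tdb (.c 0 (.c 16 (.c 48 (.c 8 .nil)))) (.b 8385 (.b 40 .nil))) (.I .tdb (.c 0 (.c 32 (.c 8 (.c 48 .nil)))) (.b 4737 (.b 40 .nil))))) (.node (.node (.I .jac (.c 2718204169 (.c 4673 (.c 16 .nil))) (.l 40 .nil)) (.I .jac (.c 2718204169 (.c 2113 (.c 24 .nil))) (.l 40 .nil))) (.node (.I .jac (.c 537002377 (.c 4673 (.c 16 .nil))) (.l 40 .nil)) (.I .jac (.c 537002377 (.c 2113 (.c 24 .nil))) (.l 40 .nil))))) (.node (.node (.node (.I .com (.c 59934271212510434121 (.c 40 .nil)) (.l 2049 .nil)) (.I .com (.c 2379905498923998025 (.c 40 .nil)) (.l 2049 .nil))) (.node (.I .jac (.c 231045293249046537 (.c 16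 (.c 32 .nil))) (.l 40 .nil)) (.I .jac (.c 231045293249046409 (.c 16 (.c 48 .nil))) (.l 40 .nil)))) (.node (.node (.I .jac (.c 169943113 (.c 8321 (.c 48 .nil))) (.l 40 .nil)) (.I .jac (.c 169943113 (.c 16 (.c 32 .nil))) (.b 48 (.l 40 .nil)))) (.node (.I .com (.c 60768081417602405193 (.c 40 .nil)) (.l 513 .nil)) (.I .com (.c 2454554348984163145 (.c 40 .nil)) (.l 513 .nil)))))) (.node (.node (.node (.node (.I .jac (.c 33587273 (.c 24 (.c 48 .nil))) (.b 32 (.l 40 .nil))) (.I .jac (.c 537002185 (.c 8 (.c 48 .nil))) (.b 16 (.l 40 .nil)))) (.node (.I .jac (.c 537002185 (.c 2113 (.c 48 .nil))) (.l 40 .nil)) (.I .jac (.c 537002185 (.c 8 (.c 16 .nil))) (.b 48 (.l 40 .nil))))) (.node (.node (.I .jac (.c 537002121 (.c 8 (.c 48 .nil))) (.b 24 (.l 40 .nil))) (.I .jac (.c 537002121 (.c 4673 (.c 48 .nil))) (.l 40 .nil))) (.node (.I .jac (.c 8193 (.c 8 (.c 48 .nil))) (.b 16 (.b 24 (.l 40 .nil))))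 (.I .com (.c 14502348301404385607403421007397079695281644434639682799337378736762607715017 (.c 40 .nil)) .nil)))) (.node (.node (.node (.I .com (.c 14502320647155137690838865937963339523891584194807221604892938200835979313929 (.c 40 .nil)) .nil) (.I .com (.c 14502320647155136081544158742250277954420508975593476848546533513373335241545 (.c 40 .nil)) .nil)) (.node (.I .com (.c 6250090978991936989903231897491262894505959231273606073600897078039639333216664265 (.c 40 .nil)) .nil) (.I .com (.c 6250090978991936989903231897491262894420093595986921794121233929909201792682774409 (.c 40 .nil)) .nil))) (.node (.node (.I .jac (.c 537002121 (.c 8 (.c 24 .nil))) (.b 48 (.l 40 .nil))) (.I .jac (.c 8193 (.c 8 (.c 48 .nil))) (.b 24 (.b 16 (.l 40 .nil))))) (.node (.I .com (.c 14502334474273994737414675204173677576472838470281954748266460304942497891017 (.c 40 .nil)) .nil) (.I .com (.c 6250092156257071104120887622819292512215417398130213760960976026681180927759153865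 (.c 40 .nil)) .nil)))))) (.node (.node (.node (.node (.node (.I .com (.c 6250092156257071104120887622819292512129551754756718087759443145001035091180064649 (.c 40 .nil)) .nil) (.I .tdb (.c 0 (.c 8 (.c 16 (.c 24 .nil)))) (.b 18689 (.b 40 .nil)))) (.node (.I .com (.c 3396625955800353299884767459015385612256323329785217664834308231177 (.c 40 .nil)) .nil) (.I .jac (.c 59109062884628932425 (.c 16 (.c 32 .nil))) (.l 40 .nil)))) (.node (.node (.I .com (.c 6250089801726996879207608765537404554601554507410496736081853339185903374257568521 (.c 40 .nil)) .nil) (.I .com (.c 6250089801726996879207608765537404554544310755943914431560029185038756149077013385 (.c 40 .nil)) .nil)) (.node (.I .jac (.c 18433 (.c 8 (.c 24 .nil))) (.b 8321 (.b 40 .nil))) (.I .com (.c 3396625955800160603643130806313959655701735322888182223352450848777 (.c 40 .nil)) .nil)))) (.node (.node (.node (.I .jac (.c 59109068451510808265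 (.c 16 (.c 32 .nil))) (.l 40 .nil)) (.I .jac (.c 18433 (.c 8 (.c 24 .nil))) (.b 8321 (.l 40 .nil)))) (.node (.I .tdb (.c 0 (.c 16 (.c 8 (.c 24 .nil)))) (.b 18689 (.b 40 .nil))) (.I .jac (.c 2718204105 (.c 2113 (.c 32 .nil))) (.l 40 .nil)))) (.node (.node (.I .com (.c 59934268409707442057 (.c 40 .nil)) (.l 2049 .nil)) (.I .jac (.c 537002057 (.c 16 (.c 48 .nil))) (.b 24 (.l 40 .nil)))) (.node (.I .com (.c 60768078595370348425 (.c 40 .nil)) (.l 513 .nil)) (.I .com (.c 1459023842844927484074647864604429763639957824210585071322594815179296777 (.c 40 .nil)) .nil))))) (.node (.node (.node (.node (.I .jac (.c 9025011228269257 (.c 24 (.c 32 .nil))) (.l 40 .nil)) (.I .jac (.c 59109062884628932361 (.c 24 (.c 32 .nil))) (.l 40 .nil))) (.node (.I .jac (.c 35473026505481 (.c 24 (.c 32 .nil))) (.l 40 .nil)) (.I .com (.c 6250089801726996852138612724015139686819824488795034152287779161311181433030245193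 (.c 40 .nil)) .nil))) (.node (.node (.I .com (.c 6250089801726996852138612724015139686791202613061743000088847428960920487852857225 (.c 40 .nil)) .nil) (.I .jac (.c 18433 (.c 8 (.c 16 .nil))) (.b 8385 (.b 40 .nil)))) (.node (.I .com (.c 1459023842844925867468420828021683444044742766794540321123362406827848713 (.c 40 .nil)) .nil) (.I .jac (.c 59109065668069837513 (.c 24 (.c 32 .nil))) (.l 40 .nil))))) (.node (.node (.node (.I .jac (.c 18433 (.c 8 (.c 16 .nil))) (.b 8385 (.l 40 .nil))) (.I .jac (.c 2718204041 (.c 4673 (.c 32 .nil))) (.l 40 .nil))) (.node (.I .jac (.c 2718203977 (.c 16 (.c 32 .nil))) (.b 24 (.l 40 .nil))) (.I .jac (.c 2718203977 (.c 16 (.c 24 .nil))) (.b 32 (.l 40 .nil))))) (.node (.node (.I .jac (.c 4609 (.c 16 (.c 32 .nil))) (.b 18497 (.l 40 .nil))) (.I .jac (.c 18433 (.c 8 (.c 24 .nil))) (.b 32 (.b 16 (.l 40 .nil))))) (.node (.I .jac (.c 18433 (.c 545424521 (.c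 24 .nil))) (.l 40 .nil)) (.I .jac (.c 18433 (.c 8257 (.c 16 .nil))) (.b 24 (.l 40 .nil)))))))))

noncomputable def c4_107 : Tr := (.node (.node (.node (.node (.node (.node (.I .jac (.c 18433 (.c 8 (.c 16 .nil))) (.b 32 (.b 24 (.l 40 .nil)))) (.I .jac (.c 18433 (.c 8 (.c 24 .nil))) (.b 16 (.b 32 (.l 40 .nil))))) (.node (.I .jac (.c 18433 (.c 545424585 (.c 16 .nil))) (.l 40 .nil)) (.I .jac (.c 18433 (.c 8257 (.c 24 .nil))) (.b 16 (.l 40 .nil))))) (.node (.node (.I .jac (.c 18433 (.c 8 (.c 16 .nil))) (.b 24 (.b 32 (.l 40 .nil)))) (.I .jac (.c 4609 (.c 8 (.c 32 .nil))) (.b 18561 (.b 40 .nil)))) (.node (.I .jac (.c 0 (.c 8257 (.c 24 .nil))) (.b 18561 (.b 40 .nil))) (.I .jac (.c 0 (.c 8 (.c 32 .nil))) (.b 24 (.b 18561 (.b 40 .nil))))))) (.node (.node (.node (.I .jac (.c 4609 (.c 8 (.c 32 .nil))) (.b 18561 (.l 40 .nil))) (.I .jac (.c 0 (.c 8257 (.c 24 .nil))) (.b 18561 (.l 40 .nil))))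 (.node (.I .jac (.c 0 (.c 8 (.c 32 .nil))) (.b 24 (.b 18561 (.l 40 .nil)))) (.I .jac (.c 8193 (.c 8 (.c 24 .nil))) (.b 18561 (.b 40 .nil))))) (.node (.node (.I .jac (.c 2306970773558193865 (.c 16 (.c 48 .nil))) (.l 40 .nil)) (.I .jac (.c 8193 (.c 8 (.c 24 .nil))) (.b 18561 (.l 40 .nil)))) (.node (.I .jac (.c 2049 (.c 8 (.c 32 .nil))) (.b 18625 (.b 40 .nil))) (.I .jac (.c 9024942441009865 (.c 24 (.c 48 .nil))) (.l 40 .nil)))))) (.node (.node (.node (.node (.I .jac (.c 0 (.c 8257 (.c 16 .nil))) (.b 18625 (.l 40 .nil))) (.I .jac (.c 0 (.c 8 (.c 32 .nil))) (.b 16 (.b 18625 (.l 40 .nil))))) (.node (.I .jac (.c 8193 (.c 8 (.c 16 .nil))) (.b 18625 (.b 40 .nil))) (.I .jac (.c 0 (.c 2113 (.c 32 .nil))) (.b 18625 (.b 40 .nil))))) (.node (.node (.I .jac (.c 0 (.c 8 (.c 16 .nil))) (.b 32 (.b 18625 (.b 40 .nil)))) (.I .jac (.c 2306970223667989193 (.c 24 (.c 48 .nil))) (.l 40 .nil))) (.node (.I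 .jac (.c 8193 (.c 8 (.c 16 .nil))) (.b 18625 (.l 40 .nil))) (.I .jac (.c 8 (.c 16 (.c 32 .nil))) (.b 169943433 (.l 40 .nil)))))) (.node (.node (.node (.I .jac (.c 9024908047478473 (.c 32 (.c 48 .nil))) (.l 40 .nil)) (.I .jac (.c 9024839260612425 (.c 32 (.c 48 .nil))) (.l 40 .nil))) (.node (.I .jac (.c 2049 (.c 8 (.c 24 .nil))) (.b 18689 (.l 40 .nil))) (.I .jac (.c 8 (.c 16 (.c 48 .nil))) (.b 8385 (.l 12801 .nil))))) (.node (.node (.I .adp (.c 24 (.c 32 (.c 48 .nil))) (.b 2113 (.l 12801 .nil))) (.I .com (.c 8257 (.c 24 .nil)) (.b 18561 (.l 12801 .nil)))) (.node (.I .adp (.c 24 (.c 32 (.c 8 .nil))) (.b 18561 (.l 12801 .nil))) (.I .com (.c 8321 (.c 24 .nil)) (.b 18497 (.l 12801 .nil)))))))) (.node (.node (.node (.node (.node (.I .adp (.c 24 (.c 32 (.c 16 .nil))) (.b 18497 (.l 12801 .nil))) (.I .adp (.c 16 (.c 32 (.c 48 .nil))) (.b 4673 (.l 12801 .nil)))) (.node (.I .adp (.c 16 (.c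 32 (.c 8 .nil))) (.b 18625 (.l 12801 .nil))) (.I .com (.c 8257 (.c 16 .nil)) (.b 18625 (.l 12801 .nil))))) (.node (.node (.I .adp (.c 16 (.c 32 (.c 24 .nil))) (.b 18497 (.l 12801 .nil))) (.I .adp (.c 8 (.c 32 (.c 48 .nil))) (.b 4737 (.l 12801 .nil)))) (.node (.I .adp (.c 8 (.c 32 (.c 16 .nil))) (.b 18625 (.l 12801 .nil))) (.I .adp (.c 8 (.c 32 (.c 24 .nil))) (.b 18561 (.l 12801 .nil)))))) (.node (.node (.node (.I .adp (.c 8 (.c 24 (.c 16 .nil))) (.b 18689 (.l 12801 .nil))) (.I .adp (.c 8 (.c 24 (.c 48 .nil))) (.b 8321 (.l 12801 .nil)))) (.node (.I .adp (.c 8 (.c 24 (.c 32 .nil))) (.b 18561 (.l 12801 .nil))) (.I .adp (.c 8 (.c 16 (.c 24 .nil))) (.b 18689 (.l 12801 .nil))))) (.node (.node (.I .adp (.c 8 (.c 16 (.c 32 .nil))) (.b 18625 (.l 12801 .nil))) (.I .adp (.c 8 (.c 16 (.c 48 .nil))) (.b 8385 (.l 12801 .nil)))) (.node (.I .jac (.c 33587593 (.c 24 (.c 32 .nil))) (.b 8 (.b 40 .nil)))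 (.I .jac (.c 2049 (.c 24 (.c 48 .nil))) (.b 32 (.b 8 (.b 40 .nil)))))))) (.node (.node (.node (.node (.I .jac (.c 169943433 (.c 16 (.c 32 .nil))) (.b 8 (.b 40 .nil))) (.I .jac (.c 4609 (.c 16 (.c 48 .nil))) (.b 32 (.b 8 (.b 40 .nil))))) (.node (.I .jac (.c 4609 (.c 8321 (.c 48 .nil))) (.b 8 (.b 40 .nil))) (.I .jac (.c 4609 (.c 16 (.c 32 .nil))) (.b 48 (.b 8 (.b 40 .nil)))))) (.node (.node (.I .jac (.c 2718204169 (.c 16 (.c 24 .nil))) (.b 8 (.b 40 .nil))) (.I .jac (.c 537002377 (.c 16 (.c 24 .nil))) (.b 8 (.b 40 .nil)))) (.node (.I .jac (.c 33587593 (.c 24 (.c 32 .nil))) (.b 8 (.l 40 .nil))) (.I .jac (.c 33587465 (.c 24 (.c 48 .nil))) (.b 8 (.l 40 .nil)))))) (.node (.node (.node (.I .jac (.c 2049 (.c 24 (.c 48 .nil))) (.b 32 (.b 8 (.l 40 .nil)))) (.I .jac (.c 4609 (.c 16 (.c 48 .nil))) (.b 32 (.b 8 (.l 40 .nil))))) (.node (.I .jac (.c 537002377 (.c 16 (.c 24 .nil))) (.b 8 (.l 40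 .nil))) (.I .adp (.c 32 (.c 48 (.c 24 .nil))) (.b 2049 (.l 12865 .nil))))) (.node (.node (.I .com (.c 18625 (.c 32 .nil)) (.b 2049 (.l 12865 .nil))) (.I .adp (.c 32 (.c 48 (.c 16 .nil))) (.b 4609 (.l 12865 .nil)))) (.node (.I .com (.c 18561 (.c 32 .nil)) (.b 4609 (.l 12865 .nil))) (.I .adp (.c 32 (.c 48 (.c 0 .nil))) (.b 4737 (.l 12865 .nil)))))))))

noncomputable def c4_108 : Tr := (.node (.node (.node (.node (.node (.node (.I .com (.c 18433 (.c 32 .nil)) (.b 4737 (.l 12865 .nil))) (.I .jac (.c 537002185 (.c 16 (.c 48 .nil))) (.b 8 (.b 40 .nil)))) (.node (.I .jac (.c 537002185 (.c 16 (.c 48 .nil))) (.b 8 (.l 40 .nil))) (.I .jac (.c 0 (.c 16 (.c 48 .nil))) (.b 8385 (.l 12865 .nil))))) (.node (.node (.I .jac (.c 0 (.c 16 (.c 48 .nil))) (.b 8385 (.b 40 (.l 8 .nil)))) (.I .jac (.c 2718204041 (.c 24 (.c 32 .nil))) (.b 8 (.b 40 .nil)))) (.node (.I .adp (.c 0 (.c 48 (.c 32 .nil))) (.b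 4737 (.l 12865 .nil))) (.I .adp (.c 0 (.c 48 (.c 24 .nil))) (.b 8321 (.l 12865 .nil)))))) (.node (.node (.node (.I .adp (.c 0 (.c 48 (.c 16 .nil))) (.b 8385 (.l 12865 .nil))) (.I .jac (.c 18433 (.c 8321 (.c 24 .nil))) (.b 8 (.b 40 .nil)))) (.node (.I .jac (.c 18433 (.c 16 (.c 32 .nil))) (.b 24 (.b 8 (.b 40 .nil)))) (.I .jac (.c 18433 (.c 16 (.c 24 .nil))) (.b 32 (.b 8 (.b 40 .nil)))))) (.node (.node (.I .jac (.c 18433 (.c 16 (.c 24 .nil))) (.b 32 (.b 8 (.l 40 .nil)))) (.I .adp (.c 4609 (.c 32 (.c 18561 .nil))) (.l 12865 .nil))) (.node (.I .jac (.c 0 (.c 16 (.c 32 .nil))) (.b 18625 (.b 40 (.b 8 .nil)))) (.I .jac (.c 0 (.c 16 (.c 32 .nil))) (.b 18625 (.b 8 (.b 40 .nil)))))))) (.node (.node (.node (.node (.I .jac (.c 537002121 (.c 24 (.c 48 .nil))) (.b 8 (.l 40 .nil))) (.I .adp (.c 2049 (.c 32 (.c 18625 .nil))) (.l 12865 .nil))) (.node (.I .adp (.c 0 (.c 32 (.c 48 .nil))) (.b 4737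 (.l 12865 .nil))) (.I .adp (.c 0 (.c 8321 (.c 18625 .nil))) (.l 12865 .nil)))) (.node (.node (.I .jac (.c 0 (.c 24 (.c 48 .nil))) (.r 8321 (.l 12865 .nil))) (.I .adp (.c 0 (.c 32 (.c 16 .nil))) (.b 18625 (.l 12865 .nil)))) (.node (.I .adp (.c 0 (.c 8385 (.c 18561 .nil))) (.l 12865 .nil)) (.I .adp (.c 0 (.c 32 (.c 24 .nil))) (.b 18561 (.l 12865 .nil)))))) (.node (.node (.node (.I .jac (.c 0 (.c 16 (.c 24 .nil))) (.b 18689 (.l 12865 .nil))) (.I .jac (.c 33587401 (.c 32 (.c 48 .nil))) (.b 8 (.b 40 .nil)))) (.node (.I .jac (.c 33587401 (.c 32 (.c 48 .nil))) (.b 8 (.l 40 .nil))) (.I .jac (.c 4737 (.c 32 (.c 48 .nil))) (.l 40 (.l 513 .nil))))) (.node (.node (.I .jac (.c 8321 (.c 24 (.c 48 .nil))) (.l 40 (.l 513 .nil))) (.I .jac (.c 18561 (.c 24 (.c 32 .nil))) (.l 40 (.l 513 .nil)))) (.node (.I .jac (.c 169943433 (.c 8 (.c 32 .nil))) (.l 12929 .nil)) (.I .jac (.c 169943305 (.c 8 (.c 48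 .nil))) (.l 12929 .nil))))))) (.node (.node (.node (.node (.node (.I .jac (.c 4609 (.c 18497 (.c 32 .nil))) (.l 12929 .nil)) (.I .com (.c 427058636821846429560832352193444553 (.c 12929 .nil)) .nil)) (.node (.I .com (.c 427057350195049030035896088956977865 (.c 12929 .nil)) .nil) (.I .jac (.c 2718204169 (.c 8 (.c 24 .nil))) (.l 12929 .nil)))) (.node (.node (.I .com (.c 27951058418068892742902176168037983934153 (.c 12929 .nil)) .nil) (.I .jac (.c 2105737 (.c 24 (.c 32 .nil))) (.b 16 (.b 40 .nil)))) (.node (.I .jac (.c 513 (.c 24 (.c 48 .nil))) (.b 32 (.b 16 (.l 40 .nil)))) (.I .tdb (.c 0 (.c 24 (.c 48 (.c 8257 .nil)))) (.l 12929 .nil))))) (.node (.node (.node (.I .tdb (.c 8 (.c 32 (.c 0 (.c 48 .nil)))) (.b 24 (.l 12929 .nil))) (.I .tdb (.c 8 (.c 32 (.c 24 (.c 48 .nil)))) (.b 0 (.l 12929 .nil)))) (.node (.I .jac (.c 4609 (.c 8 (.c 48 .nil))) (.r 32 (.l 12929 .nil))) (.I .jac (.c 4609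 (.c 8 (.c 32 .nil))) (.r 48 (.l 12929 .nil))))) (.node (.node (.I .tdb (.c 0 (.c 32 (.c 8 (.c 48 .nil)))) (.b 24 (.l 12929 .nil))) (.I .tdb (.c 8 (.c 24 (.c 48 (.c 8193 .nil)))) (.l 12929 .nil))) (.node (.I .jac (.c 18433 (.c 8 (.c 24 .nil))) (.r 32 (.l 12929 .nil))) (.I .jac (.c 8193 (.c 8 (.c 24 .nil))) (.r 48 (.l 12929 .nil))))))) (.node (.node (.node (.node (.I .jac (.c 8193 (.c 8 (.c 24 .nil))) (.b 48 (.l 12929 .nil))) (.I .com (.c 27951055785643122908012690443949941766857 (.c 12929 .nil)) .nil)) (.node (.I .adp (.c 24 (.c 48 (.c 32 .nil))) (.b 513 (.l 12929 .nil))) (.I .com (.c 537002185 (.c 18497 .nil)) (.l 12929 .nil)))) (.node (.node (.I .com (.c 537002377 (.c 4673 .nil)) (.l 12929 .nil)) (.I .adp (.c 18497 (.c 24 (.c 8193 .nil))) (.l 12929 .nil))) (.node (.I .adp (.c 4673 (.c 48 (.c 8193 .nil))) (.l 12929 .nil)) (.I .adp (.c 24 (.c 48 (.c 8 .nil))) (.b 8193 (.l 12929 .nil))))))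 (.node (.node (.node (.I .com (.c 18497 (.c 24 .nil)) (.b 8193 (.l 12929 .nil))) (.I .adp (.c 18433 (.c 24 (.c 8257 .nil))) (.l 12929 .nil))) (.node (.I .adp (.c 4609 (.c 48 (.c 8257 .nil))) (.l 12929 .nil)) (.I .adp (.c 24 (.c 48 (.c 0 .nil))) (.b 8257 (.l 12929 .nil))))) (.node (.node (.I .com (.c 18433 (.c 24 .nil)) (.b 8257 (.l 12929 .nil))) (.I .jac (.c 0 (.c 8 (.c 48 .nil))) (.b 8385 (.l 12929 .nil)))) (.node (.I .jac (.c 2718203977 (.c 24 (.c 32 .nil))) (.b 16 (.b 40 .nil))) (.I .jac (.c 0 (.c 8 (.c 48 .nil))) (.b 8385 (.b 16 (.b 40 .nil))))))))))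

noncomputable def c4_109 : Tr := (.node (.node (.node (.node (.node (.node (.I .jac (.c 2718203977 (.c 24 (.c 32 .nil))) (.b 16 (.l 40 .nil))) (.I .jac (.c 18433 (.c 8257 (.c 24 .nil))) (.l 12929 .nil))) (.node (.I .jac (.c 18433 (.c 8 (.c 32 .nil))) (.b 24 (.l 12929 .nil))) (.I .jac (.c 18433 (.c 4673 (.c 32 .nil))) (.l 12929 .nil)))) (.node (.node (.I .jac (.c 18433 (.c 8 (.c 24 .nil))) (.b 32 (.l 12929 .nil))) (.I .adp (.c 24 (.c 32 (.c 48 .nil))) (.b 513 (.l 12929 .nil)))) (.node (.I .adp (.c 8193 (.c 24 (.c 18497 .nil))) (.l 12929 .nil)) (.I .adp (.c 4609 (.c 32 (.c 18497 .nil))) (.l 12929 .nil))))) (.node (.node (.node (.I .adp (.c 24 (.c 32 (.c 0 .nil))) (.b 18497 (.l 12929 .nil))) (.I .com (.c 8193 (.c 24 .nil)) (.b 18497 (.l 12929 .nil)))) (.node (.I .com (.c 2718204105 (.c 8257 .nil)) (.l 12929 .nil)) (.I .com (.c 2718204169 (.c 4673 .nil)) (.l 12929 .nil)))) (.node (.node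 (.I .adp (.c 8257 (.c 24 (.c 18433 .nil))) (.l 12929 .nil)) (.I .adp (.c 4673 (.c 32 (.c 18433 .nil))) (.l 12929 .nil))) (.node (.I .com (.c 8257 (.c 24 .nil)) (.b 18433 (.l 12929 .nil))) (.I .adp (.c 24 (.c 32 (.c 8 .nil))) (.b 18433 (.l 12929 .nil))))))) (.node (.node (.node (.node (.I .jac (.c 0 (.c 8 (.c 32 .nil))) (.b 18625 (.b 40 (.b 16 .nil)))) (.I .jac (.c 537002057 (.c 24 (.c 48 .nil))) (.b 16 (.b 40 .nil)))) (.node (.I .jac (.c 537002057 (.c 24 (.c 48 .nil))) (.b 16 (.l 40 .nil))) (.I .jac (.c 0 (.c 8 (.c 24 .nil))) (.b 18689 (.l 12929 .nil))))) (.node (.node (.I .jac (.c 0 (.c 8 (.c 24 .nil))) (.b 18689 (.b 40 (.l 16 .nil)))) (.I .jac (.c 2105545 (.c 32 (.c 48 .nil))) (.b 16 (.b 40 .nil)))) (.node (.I .jac (.c 0 (.c 8 (.c 24 .nil))) (.b 18689 (.b 16 (.b 40 .nil)))) (.I .jac (.c 2728451 (.c 32 (.c 48 .nil))) (.b 16 (.b 40 .nil)))))) (.node (.node (.node (.I .jac (.c 4673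 (.c 32 (.c 48 .nil))) (.l 40 (.l 2049 .nil))) (.I .jac (.c 8257 (.c 24 (.c 48 .nil))) (.l 40 (.l 2049 .nil)))) (.node (.I .jac (.c 18497 (.c 24 (.c 32 .nil))) (.l 40 (.l 2049 .nil))) (.I .jac (.c 0 (.c 4673 (.c 48 .nil))) (.b 32 (.l 12929 .nil))))) (.node (.node (.I .jac (.c 0 (.c 8 (.c 24 .nil))) (.b 48 (.b 32 (.l 12929 .nil)))) (.I .jac (.c 0 (.c 8257 (.c 48 .nil))) (.b 24 (.l 12929 .nil)))) (.node (.I .jac (.c 0 (.c 8 (.c 32 .nil))) (.b 48 (.b 24 (.l 12929 .nil)))) (.I .jac (.c 4609 (.c 32 (.c 48 .nil))) (.b 16 (.l 12865 .nil)))))))) (.node (.node (.node (.node (.node (.I .jac (.c 8193 (.c 24 (.c 48 .nil))) (.b 16 (.l 12865 .nil))) (.I .jac (.c 18433 (.c 24 (.c 32 .nil))) (.b 16 (.l 12865 .nil)))) (.node (.I .jac (.c 4609 (.c 32 (.c 48 .nil))) (.b 16 (.b 40 (.b 8 .nil)))) (.I .jac (.c 8193 (.c 24 (.c 48 .nil))) (.b 16 (.b 40 (.b 8 .nil)))))) (.node (.node (.I .jac (.c 18433 (.c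 24 (.c 32 .nil))) (.b 16 (.b 40 (.b 8 .nil)))) (.I .jac (.c 2105737 (.c 16 (.c 32 .nil))) (.l 12993 .nil))) (.node (.I .jac (.c 2105609 (.c 16 (.c 48 .nil))) (.l 12993 .nil)) (.I .jac (.c 513 (.c 16 (.c 48 .nil))) (.b 32 (.l 12993 .nil)))))) (.node (.node (.node (.I .com (.c 10066684875741109290467687177 (.c 12993 .nil)) .nil) (.I .jac (.c 33587593 (.c 8 (.c 32 .nil))) (.l 12993 .nil))) (.node (.I .com (.c 651606621363117027878554774108873 (.c 12993 .nil)) .nil) (.I .com (.c 651596688508375012468186189873865 (.c 12993 .nil)) .nil))) (.node (.node (.I .jac (.c 2718204169 (.c 8 (.c 16 .nil))) (.l 12993 .nil)) (.I .com (.c 27951058418068892682374487223447295013577 (.c 12993 .nil)) .nil)) (.node (.I .com (.c 27951058418068892621846798278856606158601 (.c 12993 .nil)) .nil) (.I .tdb (.c 0 (.c 8 (.c 48 (.c 8321 .nil)))) (.l 12993 .nil)))))) (.node (.node (.node (.node (.I .tdb (.c 16 (.c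 32 (.c 0 (.c 48 .nil)))) (.b 8 (.l 12993 .nil))) (.I .tdb (.c 16 (.c 32 (.c 8 (.c 48 .nil)))) (.b 0 (.l 12993 .nil)))) (.node (.I .adp (.c 18561 (.c 32 (.c 513 .nil))) (.l 12993 .nil)) (.I .com (.c 2105609 (.c 18561 .nil)) (.l 12993 .nil)))) (.node (.node (.I .jac (.c 513 (.c 16 (.c 48 .nil))) (.r 32 (.l 12993 .nil))) (.I .adp (.c 8321 (.c 48 (.c 513 .nil))) (.l 12993 .nil))) (.node (.I .com (.c 2105737 (.c 8321 .nil)) (.l 12993 .nil)) (.I .jac (.c 513 (.c 16 (.c 32 .nil))) (.r 48 (.l 12993 .nil)))))) (.node (.node (.node (.I .tdb (.c 0 (.c 16 (.c 48 (.c 8257 .nil)))) (.l 12993 .nil)) (.I .tdb (.c 8 (.c 32 (.c 0 (.c 48 .nil)))) (.b 16 (.l 12993 .nil)))) (.node (.I .tdb (.c 8 (.c 32 (.c 16 (.c 48 .nil)))) (.b 0 (.l 12993 .nil))) (.I .jac (.c 2049 (.c 8 (.c 48 .nil))) (.r 32 (.l 12993 .nil))))) (.node (.node (.I .jac (.c 2049 (.c 8 (.c 32 .nil))) (.r 48 (.l 12993 .nil))) (.I .tdb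 (.c 0 (.c 32 (.c 8 (.c 48 .nil)))) (.b 16 (.l 12993 .nil)))) (.node (.I .tdb (.c 0 (.c 32 (.c 16 (.c 48 .nil)))) (.b 8 (.l 12993 .nil))) (.I .tdb (.c 8 (.c 16 (.c 48 (.c 8193 .nil)))) (.l 12993 .nil))))))))

noncomputable def c4_110 : Tr := (.node (.node (.node (.node (.node (.node (.I .jac (.c 18433 (.c 8 (.c 16 .nil))) (.r 32 (.l 12993 .nil))) (.I .jac (.c 8193 (.c 8 (.c 16 .nil))) (.r 48 (.l 12993 .nil)))) (.node (.I .jac (.c 8193 (.c 18497 (.c 16 .nil))) (.l 12993 .nil)) (.I .jac (.c 8193 (.c 2113 (.c 48 .nil))) (.l 12993 .nil)))) (.node (.node (.I .jac (.c 8193 (.c 8 (.c 16 .nil))) (.b 48 (.l 12993 .nil))) (.I .com (.c 42576892903125868487846022299823817417 (.c 12993 .nil)) .nil)) (.node (.I .jac (.c 2718204041 (.c 8 (.c 32 .nil))) (.l 12993 .nil)) (.I .jac (.c 513 (.c 32 (.c 48 .nil))) (.l 16 (.l 12993 .nil)))))) (.node (.node (.node (.I .com (.c 35473026505609 (.c 16 .nil))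 (.l 12993 .nil)) (.I .com (.c 35468714087433 (.c 16 .nil)) (.l 12993 .nil))) (.node (.I .adp (.c 16 (.c 48 (.c 32 .nil))) (.b 513 (.l 12993 .nil))) (.I .ass (.c 12993 (.c 35468714087433 (.c 16 .nil))) .nil))) (.node (.node (.I .com (.c 12993 (.c 35468714087433 .nil)) (.r 16 .nil)) (.I .com (.c 537002377 (.c 2113 .nil)) (.l 12993 .nil))) (.node (.I .adp (.c 18497 (.c 16 (.c 8193 .nil))) (.l 12993 .nil)) (.I .adp (.c 2113 (.c 48 (.c 8193 .nil))) (.l 12993 .nil)))))) (.node (.node (.node (.node (.I .adp (.c 16 (.c 48 (.c 8 .nil))) (.b 8193 (.l 12993 .nil))) (.I .com (.c 18497 (.c 16 .nil)) (.b 8193 (.l 12993 .nil)))) (.node (.I .ass (.c 12993 (.c 2306972423229201097 (.c 16 .nil))) .nil) (.I .com (.c 12993 (.c 2306972423229201097 .nil)) (.r 16 .nil)))) (.node (.node (.I .ass (.c 12993 (.c 2306969673777850377 (.c 16 .nil))) .nil) (.I .com (.c 12993 (.c 2306969673777850377 .nil)) (.r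 16 .nil))) (.node (.I .ass (.c 12993 (.c 537002377 (.c 2113 .nil))) .nil) (.I .com (.c 12993 (.c 537002377 .nil)) (.r 2113 .nil))))) (.node (.node (.node (.I .adp (.c 18433 (.c 16 (.c 8257 .nil))) (.l 12993 .nil)) (.I .adp (.c 2049 (.c 48 (.c 8257 .nil))) (.l 12993 .nil))) (.node (.I .adp (.c 16 (.c 48 (.c 0 .nil))) (.b 8257 (.l 12993 .nil))) (.I .com (.c 18433 (.c 16 .nil)) (.b 8257 (.l 12993 .nil))))) (.node (.node (.I .ass (.c 12993 (.c 59109071234951844553 (.c 16 .nil))) .nil) (.I .com (.c 12993 (.c 59109071234951844553 .nil)) (.r 16 .nil))) (.node (.I .ass (.c 12993 (.c 2049 (.c 545424777 .nil))) .nil) (.I .ass (.c 2049 (.c 12993 (.c 545424777 .nil))) .nil)))))) (.node (.node (.node (.node (.node (.I .com (.c 12993 (.c 2049 .nil)) (.r 545424777 .nil)) (.I .jac (.c 0 (.c 8 (.c 48 .nil))) (.b 8321 (.l 12993 .nil)))) (.node (.I .jac (.c 0 (.c 8 (.c 48 .nil))) (.b 8321 (.b 40 (.b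 24 .nil)))) (.I .jac (.c 0 (.c 8 (.c 48 .nil))) (.b 8321 (.b 24 (.b 40 .nil)))))) (.node (.node (.I .ass (.c 12993 (.c 513 (.c 553912713 .nil))) .nil) (.I .ass (.c 513 (.c 12993 (.c 553912713 .nil))) .nil)) (.node (.I .com (.c 12993 (.c 513 .nil)) (.r 553912713 .nil)) (.I .jac (.c 0 (.c 16 (.c 32 .nil))) (.b 18497 (.l 12993 .nil)))))) (.node (.node (.node (.I .jac (.c 18433 (.c 8257 (.c 16 .nil))) (.l 12993 .nil)) (.I .jac (.c 18433 (.c 8 (.c 32 .nil))) (.b 16 (.l 12993 .nil)))) (.node (.I .jac (.c 18433 (.c 2113 (.c 32 .nil))) (.l 12993 .nil)) (.I .jac (.c 18433 (.c 8 (.c 16 .nil))) (.b 32 (.l 12993 .nil))))) (.node (.node (.I .adp (.c 16 (.c 32 (.c 48 .nil))) (.b 513 (.l 12993 .nil))) (.I .adp (.c 8193 (.c 16 (.c 18497 .nil))) (.l 12993 .nil))) (.node (.I .adp (.c 2049 (.c 32 (.c 18497 .nil))) (.l 12993 .nil)) (.I .adp (.c 16 (.c 32 (.c 0 .nil))) (.b 18497 (.l 12993 .nil)))))))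 (.node (.node (.node (.node (.I .com (.c 8193 (.c 16 .nil)) (.b 18497 (.l 12993 .nil))) (.I .com (.c 2718204169 (.c 2113 .nil)) (.l 12993 .nil))) (.node (.I .adp (.c 8257 (.c 16 (.c 18433 .nil))) (.l 12993 .nil)) (.I .adp (.c 2113 (.c 32 (.c 18433 .nil))) (.l 12993 .nil)))) (.node (.node (.I .adp (.c 16 (.c 32 (.c 8 .nil))) (.b 18433 (.l 12993 .nil))) (.I .com (.c 8257 (.c 16 .nil)) (.b 18433 (.l 12993 .nil)))) (.node (.I .jac (.c 0 (.c 8 (.c 16 .nil))) (.b 18689 (.b 40 (.b 24 .nil)))) (.I .jac (.c 2105481 (.c 32 (.c 48 .nil))) (.b 24 (.b 40 .nil)))))) (.node (.node (.node (.I .jac (.c 33587273 (.c 32 (.c 48 .nil))) (.b 24 (.l 40 .nil))) (.I .jac (.c 16 (.c 32 (.c 48 .nil))) (.l 513 (.l 12993 .nil)))) (.node (.I .jac (.c 557571 (.c 32 (.c 48 .nil))) (.b 24 (.b 40 .nil))) (.I .jac (.c 0 (.c 8257 (.c 16 .nil))) (.b 48 (.l 12993 .nil))))) (.node (.node (.I .jac (.c 0 (.c 8 (.c 32 .nil)))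 (.b 16 (.b 48 (.l 12993 .nil)))) (.I .jac (.c 2049 (.c 32 (.c 48 .nil))) (.b 21099075 .nil))) (.node (.I .jac (.c 2049 (.c 32 (.c 48 .nil))) (.l 40 (.l 4673 .nil))) (.I .com (.c 9025011228269449 (.c 40 .nil)) (.l 4673 .nil))))))))

noncomputable def c4_111 : Tr := (.node (.node (.node (.node (.node (.node (.I .jac (.c 8193 (.c 16 (.c 48 .nil))) (.l 40 (.l 4673 .nil))) (.I .com (.c 2306972423229201161 (.c 40 .nil)) (.l 4673 .nil))) (.node (.I .jac (.c 18433 (.c 16 (.c 32 .nil))) (.l 40 (.l 4673 .nil))) (.I .com (.c 59109071234951844617 (.c 40 .nil)) (.l 4673 .nil)))) (.node (.node (.I .com (.c 59109065668069837705 (.c 40 .nil)) (.l 4673 .nil)) (.I .jac (.c 2049 (.c 32 (.c 48 .nil))) (.b 8 (.b 40 (.b 24 .nil))))) (.node (.I .jac (.c 8193 (.c 16 (.c 48 .nil))) (.b 8 (.b 40 (.b 24 .nil)))) (.I .jac (.c 18433 (.c 16 (.c 32 .nil))) (.b 8 (.b 40 (.b 24 .nil))))))) (.node (.node (.node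 (.I .jac (.c 2049 (.c 32 (.c 48 .nil))) (.b 8 (.b 40 (.l 24 .nil)))) (.I .jac (.c 8193 (.c 16 (.c 48 .nil))) (.b 8 (.b 40 (.l 24 .nil))))) (.node (.I .jac (.c 18433 (.c 16 (.c 32 .nil))) (.b 8 (.b 40 (.l 24 .nil)))) (.I .jac (.c 8193 (.c 8 (.c 48 .nil))) (.l 1337272521 .nil)))) (.node (.node (.I .com (.c 2306972423229201097 (.c 1337272521 .nil)) .nil) (.I .com (.c 2306972423229201097 (.c 179513673 .nil)) .nil)) (.node (.I .jac (.c 8193 (.c 8 (.c 48 .nil))) (.l 12993 (.l 16 .nil))) (.I .com (.c 2306972423229201097 (.c 12993 .nil)) (.l 16 .nil)))))) (.node (.node (.node (.node (.I .jac (.c 18433 (.c 8 (.c 32 .nil))) (.l 12993 (.l 16 .nil))) (.I .com (.c 59109071234951844553 (.c 12993 .nil)) (.l 16 .nil))) (.node (.I .jac (.c 513 (.c 32 (.c 48 .nil))) (.l 40 (.l 4737 .nil))) (.I .com (.c 35473026505609 (.c 40 .nil)) (.l 4737 .nil)))) (.node (.node (.I .jac (.c 8193 (.c 8 (.c 48 .nil)))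 (.l 40 (.l 4737 .nil))) (.I .com (.c 2306972423229201097 (.c 40 .nil)) (.l 4737 .nil))) (.node (.I .jac (.c 18433 (.c 8 (.c 32 .nil))) (.l 40 (.l 4737 .nil))) (.I .com (.c 59109071234951844553 (.c 40 .nil)) (.l 4737 .nil))))) (.node (.node (.node (.I .com (.c 59109062884628932489 (.c 40 .nil)) (.l 4737 .nil)) (.I .jac (.c 513 (.c 32 (.c 48 .nil))) (.b 24 (.b 40 (.l 16 .nil))))) (.node (.I .jac (.c 513 (.c 32 (.c 48 .nil))) (.b 24 (.b 16 (.l 40 .nil)))) (.I .jac (.c 513 (.c 32 (.c 48 .nil))) (.b 16 (.l 12993 .nil))))) (.node (.node (.I .jac (.c 513 (.c 32 (.c 48 .nil))) (.b 16 (.b 40 (.b 24 .nil)))) (.I .jac (.c 513 (.c 32 (.c 48 .nil))) (.b 16 (.b 24 (.b 40 .nil))))) (.node (.I .jac (.c 513 (.c 32 (.c 48 .nil))) (.b 16 (.b 24 (.l 40 .nil)))) (.I .com (.c 2306969673777850377 (.c 16 .nil)) (.l 12993 .nil))))))) (.node (.node (.node (.node (.node (.I .jac (.c 8193 (.c 8 (.c 48 .nil)))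 (.l 16 (.l 12993 .nil))) (.I .com (.c 2306972423229201097 (.c 16 .nil)) (.l 12993 .nil))) (.node (.I .com (.c 59109062884628932489 (.c 16 .nil)) (.l 12993 .nil)) (.I .jac (.c 18433 (.c 8 (.c 32 .nil))) (.l 16 (.l 12993 .nil))))) (.node (.node (.I .com (.c 59109071234951844553 (.c 16 .nil)) (.l 12993 .nil)) (.I .jac (.c 2105545 (.c 16 (.c 48 .nil))) (.l 13057 .nil))) (.node (.I .com (.c 10066684875704784911325976329 (.c 13057 .nil)) .nil) (.I .com (.c 10063013877651720715266097929 (.c 13057 .nil)) .nil)))) (.node (.node (.node (.I .com (.c 10061790434743040737723204425 (.c 13057 .nil)) .nil) (.I .jac (.c 33587593 (.c 8 (.c 24 .nil))) (.l 13057 .nil))) (.node (.I .jac (.c 2049 (.c 8 (.c 48 .nil))) (.b 24 (.l 13057 .nil))) (.I .com (.c 651606621363107786267057026225865 (.c 13057 .nil)) .nil))) (.node (.node (.I .com (.c 651591722123579838450590277894857 (.c 13057 .nil)) .nil) (.I .com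 (.c 651581789439159100050097116709705 (.c 13057 .nil)) .nil)) (.node (.I .jac (.c 169943433 (.c 8 (.c 16 .nil))) (.l 13057 .nil)) (.I .com (.c 27951055785643122786957318255255806177993 (.c 13057 .nil)) .nil))))) (.node (.node (.node (.node (.I .com (.c 427058636821845956378289793772237513 (.c 13057 .nil)) .nil) (.I .com (.c 27951055785643122726429632160908738481929 (.c 13057 .nil)) .nil)) (.node (.I .com (.c 427058636821845719787018514561732361 (.c 13057 .nil)) .nil) (.I .com (.c 2105545 (.c 18561 .nil)) (.l 13057 .nil)))) (.node (.node (.I .com (.c 2105737 (.c 4737 .nil)) (.l 13057 .nil)) (.I .ass (.c 13057 (.c 35473026505481 (.c 24 .nil))) .nil)) (.node (.I .com (.c 13057 (.c 35473026505481 .nil)) (.r 24 .nil)) (.I .ass (.c 13057 (.c 35464401931273 (.c 24 .nil))) .nil)))) (.node (.node (.node (.I .com (.c 13057 (.c 35464401931273 .nil)) (.r 24 .nil)) (.I .ass (.c 13057 (.c 2105737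 (.c 4737 .nil))) .nil)) (.node (.I .com (.c 13057 (.c 2105737 .nil)) (.r 4737 .nil)) (.I .ass (.c 13057 (.c 2105545 (.c 18561 .nil))) .nil))) (.node (.node (.I .ass (.c 2105545 (.c 13057 (.c 18561 .nil))) .nil) (.I .com (.c 13057 (.c 2105545 .nil)) (.r 18561 .nil))) (.node (.I .com (.c 33587401 (.c 18497 .nil)) (.l 13057 .nil)) (.I .com (.c 33587593 (.c 4673 .nil)) (.l 13057 .nil))))))))

noncomputable def c4_112 : Tr := (.node (.node (.node (.node (.node (.node (.I .ass (.c 13057 (.c 9025011228269257 (.c 24 .nil))) .nil) (.I .com (.c 13057 (.c 9025011228269257 .nil)) (.r 24 .nil))) (.node (.I .ass (.c 13057 (.c 9024839260612617 (.c 24 .nil))) .nil) (.I .com (.c 13057 (.c 9024839260612617 .nil)) (.r 24 .nil)))) (.node (.node (.I .ass (.c 13057 (.c 33587593 (.c 4673 .nil))) .nil) (.I .com (.c 13057 (.c 33587593 .nil)) (.r 4673 .nil))) (.node (.I .ass (.c 13057 (.c 33587401 (.c 18497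 .nil))) .nil) (.I .ass (.c 33587401 (.c 13057 (.c 18497 .nil))) .nil)))) (.node (.node (.node (.I .com (.c 13057 (.c 33587401 .nil)) (.r 18497 .nil)) (.I .ass (.c 13057 (.c 59109065668069837513 (.c 24 .nil))) .nil)) (.node (.I .com (.c 13057 (.c 59109065668069837513 .nil)) (.r 24 .nil)) (.I .ass (.c 13057 (.c 59109062884628932361 (.c 24 .nil))) .nil))) (.node (.node (.I .com (.c 13057 (.c 59109062884628932361 .nil)) (.r 24 .nil)) (.I .ass (.c 13057 (.c 18433 (.c 35718345 .nil))) .nil)) (.node (.I .com (.c 13057 (.c 18433 .nil)) (.r 35718345 .nil)) (.I .ass (.c 13057 (.c 4609 (.c 35718537 .nil))) .nil))))) (.node (.node (.node (.node (.I .ass (.c 4609 (.c 13057 (.c 35718537 .nil))) .nil) (.I .com (.c 13057 (.c 4609 .nil)) (.r 35718537 .nil))) (.node (.I .jac (.c 4609 (.c 8 (.c 48 .nil))) (.b 16 (.l 13057 .nil))) (.I .jac (.c 4609 (.c 2113 (.c 48 .nil))) (.l 13057 .nil)))) (.node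 (.node (.I .jac (.c 2718204041 (.c 8 (.c 24 .nil))) (.l 13057 .nil)) (.I .com (.c 27951053153217538772064147877169776201545 (.c 13057 .nil)) .nil)) (.node (.I .com (.c 169943433 (.c 2113 .nil)) (.l 13057 .nil)) (.I .ass (.c 13057 (.c 169943433 (.c 2113 .nil))) .nil)))) (.node (.node (.node (.I .com (.c 13057 (.c 169943433 .nil)) (.r 2113 .nil)) (.I .ass (.c 13057 (.c 2049 (.c 174695817 .nil))) .nil)) (.node (.I .ass (.c 2049 (.c 13057 (.c 174695817 .nil))) .nil) (.I .com (.c 13057 (.c 2049 .nil)) (.r 174695817 .nil)))) (.node (.node (.I .jac (.c 2718203977 (.c 16 (.c 24 .nil))) (.l 13057 .nil)) (.I .com (.c 27951050520792140819269269873301704274761 (.c 13057 .nil)) .nil)) (.node (.I .jac (.c 0 (.c 8 (.c 48 .nil))) (.b 4737 (.b 40 (.b 32 .nil)))) (.I .jac (.c 0 (.c 8 (.c 48 .nil))) (.b 4737 (.b 32 (.b 40 .nil))))))))) (.node (.node (.node (.node (.node (.I .ass (.c 13057 (.c 513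 (.c 179513737 .nil))) .nil) (.I .ass (.c 513 (.c 13057 (.c 179513737 .nil))) .nil)) (.node (.I .com (.c 13057 (.c 513 .nil)) (.r 179513737 .nil)) (.I .jac (.c 18433 (.c 8 (.c 24 .nil))) (.b 16 (.l 13057 .nil))))) (.node (.node (.I .jac (.c 18433 (.c 8 (.c 16 .nil))) (.b 24 (.l 13057 .nil))) (.I .com (.c 2737112201 (.c 13057 .nil)) (.l 4609 .nil))) (.node (.I .ass (.c 13057 (.c 2049 (.c 2737112265 .nil))) .nil) (.I .ass (.c 2049 (.c 13057 (.c 2737112265 .nil))) .nil)))) (.node (.node (.node (.I .com (.c 13057 (.c 2049 .nil)) (.r 2737112265 .nil)) (.I .com (.c 2718204105 (.c 2113 .nil)) (.l 13057 .nil))) (.node (.I .ass (.c 13057 (.c 2718204105 (.c 2113 .nil))) .nil) (.I .com (.c 13057 (.c 2718204105 .nil)) (.r 2113 .nil)))) (.node (.node (.I .jac (.c 0 (.c 8 (.c 24 .nil))) (.b 18561 (.l 13057 .nil))) (.I .ass (.c 13057 (.c 513 (.c 2756085961 .nil))) .nil)) (.node (.I .ass (.c 513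 (.c 13057 (.c 2756085961 .nil))) .nil) (.I .com (.c 13057 (.c 513 .nil)) (.r 2756085961 .nil)))))) (.node (.node (.node (.node (.I .com (.c 2756085961 (.c 13057 .nil)) (.l 513 .nil)) (.I .jac (.c 33587273 (.c 24 (.c 48 .nil))) (.l 13057 .nil))) (.node (.I .jac (.c 2105481 (.c 24 (.c 48 .nil))) (.l 13057 .nil)) (.I .jac (.c 0 (.c 8 (.c 16 .nil))) (.b 18625 (.b 32 (.b 40 .nil)))))) (.node (.node (.I .jac (.c 557571 (.c 24 (.c 48 .nil))) (.l 13057 .nil)) (.I .jac (.c 2113 (.c 24 (.c 48 .nil))) (.l 32 (.l 12801 .nil)))) (.node (.I .jac (.c 4673 (.c 16 (.c 48 .nil))) (.l 32 (.l 12801 .nil))) (.I .jac (.c 18497 (.c 16 (.c 24 .nil))) (.l 32 (.l 12801 .nil)))))) (.node (.node (.node (.I .jac (.c 0 (.c 4673 (.c 16 .nil))) (.b 48 (.l 13057 .nil))) (.I .jac (.c 0 (.c 8 (.c 24 .nil))) (.b 16 (.b 48 (.l 13057 .nil))))) (.node (.I .jac (.c 2049 (.c 24 (.c 48 .nil))) (.l 40 (.l 8257 .nil))) (.I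 .com (.c 9025011228269385 (.c 40 .nil)) (.l 8257 .nil)))) (.node (.node (.I .jac (.c 4609 (.c 16 (.c 48 .nil))) (.l 40 (.l 8257 .nil))) (.I .com (.c 231046163358604041 (.c 40 .nil)) (.l 8257 .nil))) (.node (.I .jac (.c 18433 (.c 16 (.c 24 .nil))) (.l 40 (.l 8257 .nil))) (.I .com (.c 59109068451510808329 (.c 40 .nil)) (.l 8257 .nil))))))))

noncomputable def c4_113 : Tr := (.node (.node (.node (.node (.node (.node (.I .com (.c 59109065668069837641 (.c 40 .nil)) (.l 8257 .nil)) (.I .jac (.c 2049 (.c 24 (.c 48 .nil))) (.b 8 (.b 32 (.l 40 .nil))))) (.node (.I .jac (.c 4609 (.c 16 (.c 48 .nil))) (.b 8 (.b 32 (.l 40 .nil)))) (.I .jac (.c 18433 (.c 16 (.c 24 .nil))) (.b 8 (.b 32 (.l 40 .nil)))))) (.node (.node (.I .jac (.c 4609 (.c 8 (.c 48 .nil))) (.l 1337272585 .nil)) (.I .jac (.c 18433 (.c 8 (.c 24 .nil))) (.l 1337272585 .nil))) (.node (.I .com (.c 59109068451510808265 (.c 1337272585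 .nil)) .nil) (.I .jac (.c 4609 (.c 8 (.c 48 .nil))) (.l 553912649 .nil))))) (.node (.node (.node (.I .com (.c 231046163358603977 (.c 553912649 .nil)) .nil) (.I .jac (.c 513 (.c 24 (.c 48 .nil))) (.b 21307523 .nil))) (.node (.I .jac (.c 513 (.c 24 (.c 48 .nil))) (.l 40 (.l 8321 .nil))) (.I .com (.c 35473026505545 (.c 40 .nil)) (.l 8321 .nil)))) (.node (.node (.I .jac (.c 4609 (.c 8 (.c 48 .nil))) (.l 40 (.l 8321 .nil))) (.I .com (.c 231046163358603977 (.c 40 .nil)) (.l 8321 .nil))) (.node (.I .jac (.c 18433 (.c 8 (.c 24 .nil))) (.l 40 (.l 8321 .nil))) (.I .com (.c 59109068451510808265 (.c 40 .nil)) (.l 8321 .nil)))))) (.node (.node (.node (.node (.I .com (.c 59109062884628932425 (.c 40 .nil)) (.l 8321 .nil)) (.I .jac (.c 513 (.c 24 (.c 48 .nil))) (.l 32 (.l 12929 .nil)))) (.node (.I .com (.c 35473026505545 (.c 32 .nil)) (.l 12929 .nil)) (.I .jac (.c 4609 (.c 8 (.c 48 .nil))) (.l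 32 (.l 12929 .nil))))) (.node (.node (.I .com (.c 231046163358603977 (.c 32 .nil)) (.l 12929 .nil)) (.I .jac (.c 18433 (.c 8 (.c 24 .nil))) (.l 32 (.l 12929 .nil)))) (.node (.I .com (.c 59109068451510808265 (.c 32 .nil)) (.l 12929 .nil)) (.I .com (.c 59109062884628932425 (.c 32 .nil)) (.l 12929 .nil))))) (.node (.node (.node (.I .jac (.c 513 (.c 24 (.c 48 .nil))) (.b 16 (.l 13057 .nil))) (.I .jac (.c 513 (.c 24 (.c 48 .nil))) (.b 16 (.b 40 (.b 32 .nil))))) (.node (.I .jac (.c 513 (.c 24 (.c 48 .nil))) (.b 16 (.b 40 (.l 32 .nil)))) (.I .jac (.c 513 (.c 24 (.c 48 .nil))) (.b 16 (.b 32 (.l 40 .nil)))))) (.node (.node (.I .com (.c 9025011228269257 (.c 1350544649 .nil)) .nil) (.I .jac (.c 18433 (.c 8 (.c 16 .nil))) (.l 1350544649 .nil))) (.node (.I .com (.c 59109065668069837513 (.c 1350544649 .nil)) .nil) (.I .com (.c 59109062884628932361 (.c 1350544649 .nil)) .nil)))))) (.node (.node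 (.node (.node (.node (.I .jac (.c 513 (.c 16 (.c 48 .nil))) (.l 13057 (.l 24 .nil))) (.I .com (.c 35473026505481 (.c 13057 .nil)) (.l 24 .nil))) (.node (.I .jac (.c 2049 (.c 8 (.c 48 .nil))) (.l 13057 (.l 24 .nil))) (.I .com (.c 9025011228269257 (.c 13057 .nil)) (.l 24 .nil)))) (.node (.node (.I .jac (.c 18433 (.c 8 (.c 16 .nil))) (.l 13057 (.l 24 .nil))) (.I .com (.c 59109065668069837513 (.c 13057 .nil)) (.l 24 .nil))) (.node (.I .com (.c 59109062884628932361 (.c 13057 .nil)) (.l 24 .nil)) (.I .jac (.c 513 (.c 16 (.c 48 .nil))) (.l 32 (.l 12993 .nil)))))) (.node (.node (.node (.I .com (.c 35473026505481 (.c 32 .nil)) (.l 12993 .nil)) (.I .jac (.c 2049 (.c 8 (.c 48 .nil))) (.l 32 (.l 12993 .nil)))) (.node (.I .com (.c 9025011228269257 (.c 32 .nil)) (.l 12993 .nil)) (.I .jac (.c 18433 (.c 8 (.c 16 .nil))) (.l 32 (.l 12993 .nil))))) (.node (.node (.I .com (.c 59109065668069837513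 (.c 32 .nil)) (.l 12993 .nil)) (.I .com (.c 59109062884628932361 (.c 32 .nil)) (.l 12993 .nil))) (.node (.I .com (.c 35464401931273 (.c 24 .nil)) (.l 13057 .nil)) (.I .jac (.c 513 (.c 16 (.c 48 .nil))) (.l 24 (.l 13057 .nil))))))) (.node (.node (.node (.node (.I .com (.c 35473026505481 (.c 24 .nil)) (.l 13057 .nil)) (.I .com (.c 9024839260612617 (.c 24 .nil)) (.l 13057 .nil))) (.node (.I .jac (.c 2049 (.c 8 (.c 48 .nil))) (.l 24 (.l 13057 .nil))) (.I .com (.c 9025011228269257 (.c 24 .nil)) (.l 13057 .nil)))) (.node (.node (.I .jac (.c 18433 (.c 8 (.c 16 .nil))) (.l 24 (.l 13057 .nil))) (.I .com (.c 59109065668069837513 (.c 24 .nil)) (.l 13057 .nil))) (.node (.I .com (.c 59109062884628932361 (.c 24 .nil)) (.l 13057 .nil)) (.I .jac (.c 35468714087369 (.c 16 (.c 24 .nil))) (.l 48 .nil))))) (.node (.node (.node (.I .jac (.c 2105673 (.c 16 (.c 24 .nil))) (.b 32 (.l 48 .nil))) (.I .jac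 (.c 2105545 (.c 16 (.c 40 .nil))) (.b 32 (.l 48 .nil)))) (.node (.I .jac (.c 2105545 (.c 8321 (.c 40 .nil))) (.l 48 .nil)) (.I .jac (.c 513 (.c 16 (.c 40 .nil))) (.b 24 (.b 32 (.l 48 .nil)))))) (.node (.node (.I .jac (.c 33587529 (.c 8257 (.c 24 .nil))) (.l 48 .nil)) (.I .jac (.c 33587529 (.c 8 (.c 24 .nil))) (.b 32 (.l 48 .nil)))) (.node (.I .jac (.c 9024942441009993 (.c 8 (.c 40 .nil))) (.l 48 .nil)) (.I .jac (.c 33587465 (.c 8 (.c 40 .nil))) (.b 24 (.l 48 .nil)))))))))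

noncomputable def c4_114 : Tr := (.node (.node (.node (.node (.node (.node (.I .jac (.c 33587465 (.c 4673 (.c 40 .nil))) (.l 48 .nil)) (.I .jac (.c 33587401 (.c 8 (.c 40 .nil))) (.b 32 (.l 48 .nil)))) (.node (.I .jac (.c 2049 (.c 545424713 (.c 24 .nil))) (.l 48 .nil)) (.I .jac (.c 2049 (.c 8257 (.c 40 .nil))) (.b 24 (.l 48 .nil))))) (.node (.node (.I .jac (.c 2049 (.c 8 (.c 32 .nil))) (.b 40 (.b 24 (.l 48 .nil)))) (.I .jac (.c 2049 (.c 1324065993 (.c 32 .nil))) (.l 48 .nil))) (.node (.I .jac (.c 2049 (.c 12865 (.c 24 .nil))) (.b 32 (.l 48 .nil))) (.I .jac (.c 2049 (.c 174695753 (.c 32 .nil))) (.l 48 .nil))))) (.node (.node (.node (.I .jac (.c 2049 (.c 4673 (.c 40 .nil))) (.b 32 (.l 48 .nil))) (.I .jac (.c 2049 (.c 8 (.c 24 .nil))) (.b 40 (.b 32 (.l 48 .nil))))) (.node (.I .jac (.c 2306971873338799945 (.c 8 (.c 16 .nil))) (.l 48 .nil)) (.I .jac (.c 231045989336561545 (.c 8 (.c 16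 .nil))) (.l 48 .nil)))) (.node (.node (.I .jac (.c 2306970773558194121 (.c 8 (.c 16 .nil))) (.l 48 .nil)) (.I .jac (.c 35470870263689 (.c 16 (.c 24 .nil))) (.l 48 .nil))) (.node (.I .jac (.c 513 (.c 16 (.c 24 .nil))) (.b 32 (.b 40 (.l 48 .nil)))) (.I .jac (.c 33587529 (.c 8 (.c 32 .nil))) (.b 24 (.l 48 .nil))))))) (.node (.node (.node (.node (.I .jac (.c 33587529 (.c 4673 (.c 32 .nil))) (.l 48 .nil)) (.I .jac (.c 9024908047478665 (.c 8 (.c 40 .nil))) (.l 48 .nil))) (.node (.I .jac (.c 33587401 (.c 12865 (.c 32 .nil))) (.l 48 .nil)) (.I .jac (.c 2049 (.c 4673 (.c 32 .nil))) (.b 40 (.l 48 .nil))))) (.node (.node (.I .jac (.c 231045815314584521 (.c 8 (.c 16 .nil))) (.l 48 .nil)) (.I .tdb (.c 0 (.c 8 (.c 24 (.c 32 .nil)))) (.b 12929 (.b 48 .nil)))) (.node (.I .tdb (.c 8 (.c 24 (.c 32 (.c 40 .nil)))) (.b 2049 (.b 48 .nil))) (.I .tdb (.c 8 (.c 16 (.c 32 (.c 40 .nil)))) (.b 4609 (.b 48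 .nil)))))) (.node (.node (.node (.I .jac (.c 169943369 (.c 8257 (.c 16 .nil))) (.l 48 .nil)) (.I .jac (.c 169943369 (.c 8 (.c 16 .nil))) (.b 32 (.l 48 .nil)))) (.node (.I .jac (.c 231045815314584329 (.c 8 (.c 40 .nil))) (.l 48 .nil)) (.I .jac (.c 169943305 (.c 8 (.c 40 .nil))) (.b 16 (.l 48 .nil))))) (.node (.node (.I .jac (.c 169943177 (.c 8 (.c 40 .nil))) (.b 32 (.l 48 .nil))) (.I .jac (.c 4609 (.c 545424713 (.c 16 .nil))) (.l 48 .nil))) (.node (.I .jac (.c 4609 (.c 8257 (.c 40 .nil))) (.b 16 (.l 48 .nil))) (.I .jac (.c 4609 (.c 8 (.c 32 .nil))) (.b 40 (.b 16 (.l 48 .nil))))))))) (.node (.node (.node (.node (.node (.I .jac (.c 4609 (.c 1324065929 (.c 32 .nil))) (.l 48 .nil)) (.I .jac (.c 4609 (.c 12865 (.c 16 .nil))) (.b 32 (.l 48 .nil)))) (.node (.I .jac (.c 13748193523587632009 (.c 8 (.c 24 .nil))) (.l 48 .nil)) (.I .jac (.c 8193 (.c 16 (.c 40 .nil))) (.b 4673 (.l 48 .nil)))))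 (.node (.node (.I .jac (.c 169943369 (.c 8 (.c 32 .nil))) (.b 16 (.l 48 .nil))) (.I .jac (.c 169943369 (.c 2113 (.c 32 .nil))) (.l 48 .nil))) (.node (.I .jac (.c 231045467270826889 (.c 8 (.c 40 .nil))) (.l 48 .nil)) (.I .jac (.c 4609 (.c 8 (.c 16 .nil))) (.b 32 (.b 40 (.l 48 .nil))))))) (.node (.node (.node (.I .jac (.c 13748196208362033929 (.c 8 (.c 24 .nil))) (.l 48 .nil)) (.I .jac (.c 12801 (.c 16 (.c 32 .nil))) (.b 4673 (.l 48 .nil)))) (.node (.I .tdb (.c 0 (.c 8 (.c 16 (.c 32 .nil)))) (.b 12993 (.b 48 .nil))) (.I .tdb (.c 0 (.c 8 (.c 16 (.c 40 .nil)))) (.b 8385 (.b 48 .nil))))) (.node (.node (.I .jac (.c 2306971873338799817 (.c 16 (.c 24 .nil))) (.l 48 .nil)) (.I .jac (.c 2306969673777850313 (.c 16 (.c 24 .nil))) (.l 48 .nil))) (.node (.I .jac (.c 8193 (.c 8 (.c 40 .nil))) (.b 4737 (.l 48 .nil))) (.I .jac (.c 13748196208362033865 (.c 16 (.c 24 .nil))) (.l 48 .nil)))))) (.node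 (.node (.node (.node (.I .jac (.c 12801 (.c 8 (.c 32 .nil))) (.b 4737 (.l 48 .nil))) (.I .jac (.c 0 (.c 8257 (.c 40 .nil))) (.b 4737 (.l 48 .nil)))) (.node (.I .jac (.c 0 (.c 8 (.c 32 .nil))) (.b 40 (.b 4737 (.l 48 .nil)))) (.I .tdb (.c 8 (.c 32 (.c 0 (.c 40 .nil)))) (.b 4737 (.b 48 .nil))))) (.node (.node (.I .tdb (.c 0 (.c 32 (.c 8 (.c 40 .nil)))) (.b 4737 (.b 48 .nil))) (.I .tdb (.c 8 (.c 16 (.c 32 (.c 0 .nil)))) (.b 12993 (.b 48 .nil)))) (.node (.I .tdb (.c 8 (.c 24 (.c 32 (.c 0 .nil)))) (.b 12929 (.b 48 .nil))) (.I .jac (.c 537002313 (.c 4673 (.c 16 .nil))) (.l 48 .nil))))) (.node (.node (.node (.I .jac (.c 537002313 (.c 8 (.c 24 .nil))) (.b 16 (.l 48 .nil))) (.I .jac (.c 537002313 (.c 2113 (.c 24 .nil))) (.l 48 .nil))) (.node (.I .jac (.c 537002313 (.c 8 (.c 16 .nil))) (.b 24 (.l 48 .nil))) (.I .jac (.c 231045293249046473 (.c 16 (.c 32 .nil))) (.l 48 .nil)))) (.node (.node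 (.I .jac (.c 169943113 (.c 12929 (.c 32 .nil))) (.l 48 .nil)) (.I .jac (.c 169943113 (.c 16 (.c 40 .nil))) (.b 32 (.l 48 .nil)))) (.node (.I .jac (.c 169943113 (.c 8321 (.c 40 .nil))) (.l 48 .nil)) (.I .jac (.c 9024839260612553 (.c 24 (.c 32 .nil))) (.l 48 .nil))))))))

noncomputable def c4_115 : Tr := (.node (.node (.node (.node (.node (.node (.I .jac (.c 33587273 (.c 24 (.c 40 .nil))) (.b 32 (.l 48 .nil))) (.I .jac (.c 2105481 (.c 24 (.c 40 .nil))) (.b 32 (.l 48 .nil)))) (.node (.I .jac (.c 2306970773558193929 (.c 8 (.c 40 .nil))) (.l 48 .nil)) (.I .jac (.c 537002185 (.c 12865 (.c 16 .nil))) (.l 48 .nil)))) (.node (.node (.I .jac (.c 537002185 (.c 8 (.c 40 .nil))) (.b 16 (.l 48 .nil))) (.I .jac (.c 537002185 (.c 2113 (.c 40 .nil))) (.l 48 .nil))) (.node (.I .jac (.c 537002121 (.c 8 (.c 40 .nil))) (.b 24 (.l 48 .nil))) (.I .jac (.c 8193 (.c 174695753 (.c 16 .nil))) (.l 48 .nil)))))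 (.node (.node (.node (.I .jac (.c 8193 (.c 4673 (.c 40 .nil))) (.b 16 (.l 48 .nil))) (.I .jac (.c 8193 (.c 8 (.c 24 .nil))) (.b 40 (.b 16 (.l 48 .nil))))) (.node (.I .jac (.c 8193 (.c 1324065929 (.c 24 .nil))) (.l 48 .nil)) (.I .jac (.c 8193 (.c 12865 (.c 16 .nil))) (.b 24 (.l 48 .nil))))) (.node (.node (.I .jac (.c 8193 (.c 174695561 (.c 40 .nil))) (.l 48 .nil)) (.I .jac (.c 13748193523587631945 (.c 8 (.c 32 .nil))) (.l 48 .nil))) (.node (.I .jac (.c 4609 (.c 16 (.c 40 .nil))) (.b 8257 (.l 48 .nil))) (.I .jac (.c 2306970223667989321 (.c 8 (.c 40 .nil))) (.l 48 .nil)))))) (.node (.node (.node (.node (.I .jac (.c 8193 (.c 1324065993 (.c 16 .nil))) (.l 48 .nil)) (.I .jac (.c 8193 (.c 12865 (.c 24 .nil))) (.b 16 (.l 48 .nil)))) (.node (.I .jac (.c 8193 (.c 35718345 (.c 40 .nil))) (.l 48 .nil)) (.I .jac (.c 8193 (.c 2113 (.c 24 .nil))) (.b 40 (.l 48 .nil))))) (.node (.node (.I .jac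 (.c 8193 (.c 8 (.c 16 .nil))) (.b 24 (.b 40 (.l 48 .nil)))) (.I .jac (.c 13748194865974800137 (.c 8 (.c 32 .nil))) (.l 48 .nil))) (.node (.I .tdb (.c 0 (.c 8 (.c 16 (.c 24 .nil)))) (.b 13057 (.b 48 .nil))) (.I .jac (.c 231045989336561353 (.c 16 (.c 32 .nil))) (.l 48 .nil))))) (.node (.node (.node (.I .jac (.c 4609 (.c 8 (.c 40 .nil))) (.b 8321 (.l 48 .nil))) (.I .jac (.c 0 (.c 12865 (.c 24 .nil))) (.b 8321 (.l 48 .nil)))) (.node (.I .jac (.c 0 (.c 8 (.c 40 .nil))) (.b 24 (.b 8321 (.l 48 .nil)))) (.I .jac (.c 12801 (.c 8 (.c 24 .nil))) (.b 8321 (.b 48 .nil))))) (.node (.node (.I .jac (.c 13748194865974800073 (.c 16 (.c 32 .nil))) (.l 48 .nil)) (.I .jac (.c 12801 (.c 8 (.c 24 .nil))) (.b 8321 (.l 48 .nil)))) (.node (.I .jac (.c 0 (.c 4673 (.c 40 .nil))) (.b 8321 (.l 48 .nil))) (.I .jac (.c 0 (.c 8 (.c 24 .nil))) (.b 40 (.b 8321 (.l 48 .nil))))))))) (.node (.node (.node (.node (.node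 (.I .tdb (.c 0 (.c 32 (.c 8 (.c 24 .nil)))) (.b 12929 (.b 48 .nil))) (.I .jac (.c 1310925001 (.c 8257 (.c 16 .nil))) (.l 48 .nil))) (.node (.I .jac (.c 537002057 (.c 12929 (.c 24 .nil))) (.l 48 .nil)) (.I .jac (.c 537002057 (.c 16 (.c 40 .nil))) (.b 24 (.l 48 .nil))))) (.node (.node (.I .jac (.c 2049 (.c 8 (.c 40 .nil))) (.b 8385 (.b 48 .nil))) (.I .jac (.c 0 (.c 12865 (.c 16 .nil))) (.b 8385 (.b 48 .nil)))) (.node (.I .jac (.c 0 (.c 8 (.c 40 .nil))) (.b 16 (.b 8385 (.b 48 .nil)))) (.I .jac (.c 9024976834606793 (.c 24 (.c 32 .nil))) (.l 48 .nil))))) (.node (.node (.node (.I .jac (.c 13748192181200529161 (.c 24 (.c 32 .nil))) (.l 48 .nil)) (.I .jac (.c 0 (.c 12865 (.c 16 .nil))) (.b 8385 (.l 48 .nil)))) (.node (.I .jac (.c 0 (.c 8 (.c 40 .nil))) (.b 16 (.b 8385 (.l 48 .nil)))) (.I .jac (.c 12801 (.c 8 (.c 16 .nil))) (.b 8385 (.l 48 .nil))))) (.node (.node (.I .tdb (.c 0 (.c 40 (.c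 8 (.c 16 .nil)))) (.b 8385 (.b 48 .nil))) (.I .jac (.c 8 (.c 16 (.c 40 .nil))) (.b 169943305 (.l 48 .nil)))) (.node (.I .jac (.c 8 (.c 16 (.c 40 .nil))) (.b 537002185 (.l 48 .nil))) (.I .jac (.c 1310924937 (.c 4673 (.c 32 .nil))) (.l 48 .nil)))))) (.node (.node (.node (.node (.I .jac (.c 1310924873 (.c 8321 (.c 24 .nil))) (.l 48 .nil)) (.I .jac (.c 1310924873 (.c 16 (.c 32 .nil))) (.b 24 (.l 48 .nil)))) (.node (.I .jac (.c 1310924873 (.c 16 (.c 24 .nil))) (.b 32 (.l 48 .nil))) (.I .jac (.c 8 (.c 16 (.c 32 .nil))) (.b 1310925001 (.l 48 .nil))))) (.node (.node (.I .jac (.c 12801 (.c 174695689 (.c 16 .nil))) (.l 48 .nil)) (.I .jac (.c 12801 (.c 4673 (.c 32 .nil))) (.b 16 (.l 48 .nil)))) (.node (.I .jac (.c 12801 (.c 8 (.c 24 .nil))) (.b 32 (.b 16 (.l 48 .nil)))) (.I .jac (.c 12801 (.c 8 (.c 32 .nil))) (.b 16 (.b 24 (.l 48 .nil))))))) (.node (.node (.node (.I .jac (.c 12801 (.c 8 (.c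 24 .nil))) (.b 16 (.b 32 (.l 48 .nil)))) (.I .jac (.c 4673 (.c 16 (.c 32 .nil))) (.b 12801 (.l 48 .nil)))) (.node (.I .jac (.c 12801 (.c 8 (.c 32 .nil))) (.b 24 (.b 16 (.l 48 .nil)))) (.I .jac (.c 12801 (.c 35718345 (.c 32 .nil))) (.l 48 .nil)))) (.node (.node (.I .jac (.c 12801 (.c 2113 (.c 24 .nil))) (.b 32 (.l 48 .nil))) (.I .jac (.c 4609 (.c 8 (.c 32 .nil))) (.b 12929 (.b 48 .nil)))) (.node (.I .jac (.c 4609 (.c 8 (.c 32 .nil))) (.b 12929 (.l 48 .nil))) (.I .jac (.c 2049 (.c 8 (.c 32 .nil))) (.b 12993 (.b 48 .nil)))))))))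

noncomputable def c4_116 : Tr := (.node (.node (.node (.node (.node (.node (.I .jac (.c 0 (.c 8257 (.c 16 .nil))) (.b 12993 (.b 48 .nil))) (.I .jac (.c 0 (.c 8 (.c 32 .nil))) (.b 16 (.b 12993 (.b 48 .nil))))) (.node (.I .jac (.c 2306969673777850121 (.c 24 (.c 40 .nil))) (.l 48 .nil)) (.I .jac (.c 2049 (.c 8 (.c 32 .nil))) (.b 12993 (.l 48 .nil))))) (.node (.node (.I .jac (.c 8193 (.c 8 (.c 16 .nil))) (.b 12993 (.b 48 .nil))) (.I .jac (.c 0 (.c 2113 (.c 32 .nil))) (.b 12993 (.b 48 .nil)))) (.node (.I .jac (.c 0 (.c 8 (.c 16 .nil))) (.b 32 (.b 12993 (.b 48 .nil)))) (.I .jac (.c 2306970223667989193 (.c 24 (.c 40 .nil))) (.l 48 .nil))))) (.node (.node (.node (.I .jac (.c 0 (.c 8 (.c 24 .nil))) (.b 553912649 (.l 48 .nil))) (.I .jac (.c 0 (.c 16 (.c 32 .nil))) (.b 174695753 (.l 48 .nil)))) (.node (.I .jac (.c 513 (.c 16 (.c 32 .nil))) (.b 12993 (.b 48 .nil))) (.I .jac (.c 231045293249046281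 (.c 32 (.c 40 .nil))) (.l 48 .nil)))) (.node (.node (.I .jac (.c 35466557976329 (.c 32 (.c 40 .nil))) (.l 48 .nil)) (.I .jac (.c 0 (.c 4673 (.c 16 .nil))) (.b 13057 (.l 48 .nil)))) (.node (.I .jac (.c 0 (.c 8 (.c 24 .nil))) (.b 16 (.b 13057 (.l 48 .nil)))) (.I .jac (.c 231045467270826697 (.c 32 (.c 40 .nil))) (.l 48 .nil)))))) (.node (.node (.node (.node (.I .jac (.c 35464401931081 (.c 32 (.c 40 .nil))) (.l 48 .nil)) (.I .jac (.c 0 (.c 2113 (.c 24 .nil))) (.b 13057 (.l 48 .nil)))) (.node (.I .jac (.c 0 (.c 8 (.c 16 .nil))) (.b 24 (.b 13057 (.l 48 .nil)))) (.I .jac (.c 513 (.c 16 (.c 24 .nil))) (.b 13057 (.b 48 .nil))))) (.node (.node (.I .jac (.c 8 (.c 16 (.c 40 .nil))) (.b 8385 (.l 18433 .nil))) (.I .adp (.c 16 (.c 32 (.c 40 .nil))) (.b 4673 (.l 18433 .nil)))) (.node (.I .adp (.c 16 (.c 32 (.c 8 .nil))) (.b 12993 (.l 18433 .nil))) (.I .com (.c 8257 (.c 16 .nil)) (.b 12993 (.l 18433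 .nil)))))) (.node (.node (.node (.I .adp (.c 16 (.c 32 (.c 24 .nil))) (.b 12865 (.l 18433 .nil))) (.I .adp (.c 16 (.c 24 (.c 8 .nil))) (.b 13057 (.l 18433 .nil)))) (.node (.I .com (.c 4673 (.c 16 .nil)) (.b 13057 (.l 18433 .nil))) (.I .adp (.c 16 (.c 24 (.c 40 .nil))) (.b 8257 (.l 18433 .nil))))) (.node (.node (.I .adp (.c 16 (.c 24 (.c 32 .nil))) (.b 12865 (.l 18433 .nil))) (.I .adp (.c 8 (.c 16 (.c 24 .nil))) (.b 13057 (.l 18433 .nil)))) (.node (.I .adp (.c 8 (.c 16 (.c 32 .nil))) (.b 12993 (.l 18433 .nil))) (.I .adp (.c 8 (.c 16 (.c 40 .nil))) (.b 8385 (.l 18433 .nil)))))))) (.node (.node (.node (.node (.node (.I .jac (.c 33587529 (.c 24 (.c 32 .nil))) (.b 8 (.l 48 .nil))) (.I .jac (.c 33587465 (.c 24 (.c 40 .nil))) (.b 8 (.l 48 .nil)))) (.node (.I .jac (.c 2049 (.c 24 (.c 40 .nil))) (.b 32 (.b 8 (.l 48 .nil)))) (.I .jac (.c 169943369 (.c 16 (.c 32 .nil))) (.b 8 (.l 48 .nil)))))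 (.node (.node (.I .jac (.c 169943305 (.c 16 (.c 40 .nil))) (.b 8 (.l 48 .nil))) (.I .jac (.c 4609 (.c 16 (.c 40 .nil))) (.b 32 (.b 8 (.l 48 .nil))))) (.node (.I .jac (.c 537002313 (.c 16 (.c 24 .nil))) (.b 8 (.l 48 .nil))) (.I .adp (.c 32 (.c 40 (.c 24 .nil))) (.b 2049 (.l 18497 .nil)))))) (.node (.node (.node (.I .com (.c 12993 (.c 32 .nil)) (.b 2049 (.l 18497 .nil))) (.I .adp (.c 32 (.c 40 (.c 16 .nil))) (.b 4609 (.l 18497 .nil)))) (.node (.I .com (.c 12929 (.c 32 .nil)) (.b 4609 (.l 18497 .nil))) (.I .adp (.c 12801 (.c 32 (.c 4737 .nil))) (.l 18497 .nil)))) (.node (.node (.I .adp (.c 32 (.c 40 (.c 0 .nil))) (.b 4737 (.l 18497 .nil))) (.I .com (.c 12801 (.c 32 .nil)) (.b 4737 (.l 18497 .nil)))) (.node (.I .jac (.c 537002185 (.c 16 (.c 40 .nil))) (.b 8 (.l 48 .nil))) (.I .jac (.c 8193 (.c 16 (.c 40 .nil))) (.b 24 (.b 8 (.l 48 .nil)))))))) (.node (.node (.node (.node (.I .adp (.c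 24 (.c 40 (.c 32 .nil))) (.b 2049 (.l 18497 .nil))) (.I .adp (.c 24 (.c 40 (.c 16 .nil))) (.b 8193 (.l 18497 .nil)))) (.node (.I .com (.c 12929 (.c 24 .nil)) (.b 8193 (.l 18497 .nil))) (.I .adp (.c 12801 (.c 24 (.c 8321 .nil))) (.l 18497 .nil)))) (.node (.node (.I .adp (.c 24 (.c 40 (.c 0 .nil))) (.b 8321 (.l 18497 .nil))) (.I .com (.c 12801 (.c 24 .nil)) (.b 8321 (.l 18497 .nil)))) (.node (.I .jac (.c 0 (.c 16 (.c 40 .nil))) (.b 8385 (.l 18497 .nil))) (.I .jac (.c 16 (.c 24 (.c 32 .nil))) (.l 12801 (.l 18497 .nil)))))) (.node (.node (.node (.I .adp (.c 2049 (.c 40 (.c 8385 .nil))) (.l 18497 .nil)) (.I .adp (.c 0 (.c 13057 (.c 4737 .nil))) (.l 18497 .nil))) (.node (.I .jac (.c 4737 (.c 32 (.c 40 .nil))) (.l 0 (.l 18497 .nil))) (.I .adp (.c 0 (.c 40 (.c 32 .nil))) (.b 4737 (.l 18497 .nil))))) (.node (.node (.I .ass (.c 18497 (.c 0 (.c 257801270351607689 .nil))) .nil) (.I .ass (.c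 0 (.c 18497 (.c 257801270351607689 .nil))) .nil)) (.node (.I .com (.c 18497 (.c 0 .nil)) (.r 257801270351607689 .nil)) (.I .ass (.c 18497 (.c 0 (.c 257801086529639369 .nil))) .nil)))))))

noncomputable def c4_117 : Tr := (.node (.node (.node (.node (.node (.node (.I .ass (.c 0 (.c 18497 (.c 257801086529639369 .nil))) .nil) (.I .com (.c 18497 (.c 0 .nil)) (.r 257801086529639369 .nil))) (.node (.I .jac (.c 8321 (.c 24 (.c 40 .nil))) (.l 0 (.l 18497 .nil))) (.I .adp (.c 0 (.c 12993 (.c 8321 .nil))) (.l 18497 .nil)))) (.node (.node (.I .adp (.c 0 (.c 40 (.c 24 .nil))) (.b 8321 (.l 18497 .nil))) (.I .ass (.c 18497 (.c 0 (.c 2454553781777577801 .nil))) .nil)) (.node (.I .ass (.c 0 (.c 18497 (.c 2454553781777577801 .nil))) .nil) (.I .com (.c 18497 (.c 0 .nil)) (.r 2454553781777577801 .nil))))) (.node (.node (.node (.I .ass (.c 18497 (.c 0 (.c 2454552647364603849 .nil))) .nil) (.I .ass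 (.c 0 (.c 18497 (.c 2454552647364603849 .nil))) .nil)) (.node (.I .com (.c 18497 (.c 0 .nil)) (.r 2454552647364603849 .nil)) (.I .jac (.c 12929 (.c 24 (.c 32 .nil))) (.l 0 (.l 18497 .nil))))) (.node (.node (.I .adp (.c 0 (.c 12929 (.c 8385 .nil))) (.l 18497 .nil)) (.I .jac (.c 0 (.c 24 (.c 32 .nil))) (.r 12929 (.l 18497 .nil)))) (.node (.I .adp (.c 0 (.c 40 (.c 16 .nil))) (.b 8385 (.l 18497 .nil))) (.I .ass (.c 18497 (.c 0 (.c 14306383732740657993 .nil))) .nil))))) (.node (.node (.node (.node (.I .ass (.c 0 (.c 18497 (.c 14306383732740657993 .nil))) .nil) (.I .com (.c 18497 (.c 0 .nil)) (.r 14306383732740657993 .nil))) (.node (.I .ass (.c 18497 (.c 0 (.c 14306382363373563785 .nil))) .nil) (.I .ass (.c 0 (.c 18497 (.c 14306382363373563785 .nil))) .nil))) (.node (.node (.I .com (.c 18497 (.c 0 .nil)) (.r 14306382363373563785 .nil)) (.I .jac (.c 12801 (.c 16 (.c 32 .nil))) (.b 24 (.b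 8 (.l 48 .nil))))) (.node (.I .jac (.c 12801 (.c 16 (.c 24 .nil))) (.b 32 (.b 8 (.l 48 .nil)))) (.I .jac (.c 0 (.c 16 (.c 32 .nil))) (.b 12993 (.b 48 (.b 8 .nil))))))) (.node (.node (.node (.I .jac (.c 537002121 (.c 24 (.c 40 .nil))) (.b 8 (.l 48 .nil))) (.I .jac (.c 16 (.c 24 (.c 40 .nil))) (.l 8193 (.l 18497 .nil)))) (.node (.I .jac (.c 0 (.c 16 (.c 24 .nil))) (.b 13057 (.l 18497 .nil))) (.I .jac (.c 0 (.c 16 (.c 24 .nil))) (.b 13057 (.b 48 (.b 8 .nil)))))) (.node (.node (.I .jac (.c 169943177 (.c 32 (.c 40 .nil))) (.b 8 (.l 48 .nil))) (.I .jac (.c 33587401 (.c 32 (.c 40 .nil))) (.b 8 (.l 48 .nil)))) (.node (.I .jac (.c 16 (.c 32 (.c 40 .nil))) (.l 4609 (.l 18497 .nil))) (.I .jac (.c 24 (.c 32 (.c 40 .nil))) (.l 2049 (.l 18497 .nil)))))))) (.node (.node (.node (.node (.node (.I .jac (.c 169943369 (.c 8 (.c 32 .nil))) (.l 18561 .nil)) (.I .jac (.c 4609 (.c 12865 (.c 32 .nil)))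 (.l 18561 .nil))) (.node (.I .jac (.c 4609 (.c 8 (.c 40 .nil))) (.b 32 (.l 18561 .nil))) (.I .jac (.c 4609 (.c 8 (.c 32 .nil))) (.b 40 (.l 18561 .nil))))) (.node (.node (.I .jac (.c 537002313 (.c 8 (.c 24 .nil))) (.l 18561 .nil)) (.I .jac (.c 2105609 (.c 24 (.c 40 .nil))) (.b 16 (.b 48 .nil)))) (.node (.I .com (.c 169943305 (.c 12865 .nil)) (.l 18561 .nil)) (.I .com (.c 169943369 (.c 8257 .nil)) (.l 18561 .nil))))) (.node (.node (.node (.I .ass (.c 18561 (.c 169943369 (.c 8257 .nil))) .nil) (.I .com (.c 18561 (.c 169943369 .nil)) (.r 8257 .nil))) (.node (.I .ass (.c 18561 (.c 169943305 (.c 12865 .nil))) .nil) (.I .com (.c 18561 (.c 169943305 .nil)) (.r 12865 .nil)))) (.node (.node (.I .ass (.c 18561 (.c 12801 (.c 174695689 .nil))) .nil) (.I .com (.c 18561 (.c 12801 .nil)) (.r 174695689 .nil))) (.node (.I .ass (.c 18561 (.c 8193 (.c 174695753 .nil))) .nil) (.I .com (.c 18561 (.c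 8193 .nil)) (.r 174695753 .nil)))))) (.node (.node (.node (.node (.I .jac (.c 537002185 (.c 8 (.c 40 .nil))) (.l 18561 .nil)) (.I .jac (.c 8193 (.c 8 (.c 40 .nil))) (.b 24 (.l 18561 .nil)))) (.node (.I .com (.c 42576913200413540599411453941751701193 (.c 18561 .nil)) .nil) (.I .com (.c 1512102896582526849770380112053152561865 (.c 18561 .nil)) .nil))) (.node (.node (.I .com (.c 537002185 (.c 12865 .nil)) (.l 18561 .nil)) (.I .com (.c 537002313 (.c 4673 .nil)) (.l 18561 .nil))) (.node (.I .ass (.c 18561 (.c 537002313 (.c 4673 .nil))) .nil) (.I .com (.c 18561 (.c 537002313 .nil)) (.r 4673 .nil))))) (.node (.node (.node (.I .ass (.c 18561 (.c 537002185 (.c 12865 .nil))) .nil) (.I .com (.c 18561 (.c 537002185 .nil)) (.r 12865 .nil))) (.node (.I .ass (.c 18561 (.c 12801 (.c 545424585 .nil))) .nil) (.I .com (.c 18561 (.c 12801 .nil)) (.r 545424585 .nil)))) (.node (.node (.I .ass (.c 18561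 (.c 4609 (.c 545424713 .nil))) .nil) (.I .com (.c 18561 (.c 4609 .nil)) (.r 545424713 .nil))) (.node (.I .jac (.c 0 (.c 8 (.c 40 .nil))) (.b 8385 (.b 48 (.l 16 .nil)))) (.I .jac (.c 1310924873 (.c 24 (.c 32 .nil))) (.b 16 (.l 48 .nil)))))))))

noncomputable def c4_118 : Tr := (.node (.node (.node (.node (.node (.node (.I .ass (.c 18561 (.c 8193 (.c 1324065993 .nil))) .nil) (.I .com (.c 18561 (.c 8193 .nil)) (.r 1324065993 .nil))) (.node (.I .ass (.c 18561 (.c 4609 (.c 1324066057 .nil))) .nil) (.I .com (.c 18561 (.c 4609 .nil)) (.r 1324066057 .nil)))) (.node (.node (.I .com (.c 1310925001 (.c 8257 .nil)) (.l 18561 .nil)) (.I .com (.c 1310925065 (.c 4673 .nil)) (.l 18561 .nil))) (.node (.I .ass (.c 18561 (.c 1310925065 (.c 4673 .nil))) .nil) (.I .com (.c 18561 (.c 1310925065 .nil)) (.r 4673 .nil))))) (.node (.node (.node (.I .ass (.c 18561 (.c 1310925001 (.c 8257 .nil))) .nil) (.I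 .com (.c 18561 (.c 1310925001 .nil)) (.r 8257 .nil))) (.node (.I .jac (.c 0 (.c 8 (.c 32 .nil))) (.b 12993 (.b 48 (.b 16 .nil)))) (.I .jac (.c 537002057 (.c 24 (.c 40 .nil))) (.b 16 (.b 48 .nil))))) (.node (.node (.I .jac (.c 0 (.c 8 (.c 32 .nil))) (.b 12993 (.b 16 (.b 48 .nil)))) (.I .jac (.c 537002057 (.c 24 (.c 40 .nil))) (.b 16 (.l 48 .nil)))) (.node (.I .jac (.c 169943113 (.c 32 (.c 40 .nil))) (.b 16 (.b 48 .nil))) (.I .jac (.c 2105545 (.c 32 (.c 40 .nil))) (.b 16 (.b 48 .nil))))))) (.node (.node (.node (.node (.I .jac (.c 0 (.c 8 (.c 24 .nil))) (.b 13057 (.b 16 (.b 48 .nil)))) (.I .jac (.c 169943113 (.c 32 (.c 40 .nil))) (.b 16 (.l 48 .nil)))) (.node (.I .jac (.c 24 (.c 32 (.c 40 .nil))) (.l 513 (.l 18561 .nil))) (.I .jac (.c 0 (.c 8257 (.c 24 .nil))) (.b 40 (.l 18561 .nil))))) (.node (.node (.I .jac (.c 0 (.c 8 (.c 32 .nil))) (.b 24 (.b 40 (.l 18561 .nil)))) (.I .jac (.c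 4609 (.c 32 (.c 40 .nil))) (.b 16 (.b 48 (.l 8 .nil))))) (.node (.I .jac (.c 8193 (.c 24 (.c 40 .nil))) (.b 16 (.b 48 (.l 8 .nil)))) (.I .jac (.c 12801 (.c 24 (.c 32 .nil))) (.b 16 (.b 48 (.l 8 .nil))))))) (.node (.node (.node (.I .jac (.c 2105609 (.c 16 (.c 40 .nil))) (.l 18625 .nil)) (.I .jac (.c 513 (.c 16 (.c 32 .nil))) (.b 40 (.l 18625 .nil)))) (.node (.I .com (.c 10065461098107652387135109897 (.c 18625 .nil)) .nil) (.I .com (.c 10064237432092225236522737417 (.c 18625 .nil)) .nil))) (.node (.node (.I .jac (.c 33587529 (.c 8 (.c 32 .nil))) (.l 18625 .nil)) (.I .jac (.c 2049 (.c 8 (.c 32 .nil))) (.b 40 (.l 18625 .nil)))) (.node (.I .com (.c 651601654921541717468315286321865 (.c 18625 .nil)) .nil) (.I .jac (.c 1310925065 (.c 8 (.c 16 .nil))) (.l 18625 .nil))))))) (.node (.node (.node (.node (.node (.I .com (.c 1512103191868961635872417890875254705929 (.c 18625 .nil)) .nil) (.I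 .com (.c 42576953795010651407263038383993868041 (.c 18625 .nil)) .nil)) (.node (.I .com (.c 2105609 (.c 12929 .nil)) (.l 18625 .nil)) (.I .adp (.c 8321 (.c 40 (.c 513 .nil))) (.l 18625 .nil)))) (.node (.node (.I .com (.c 2105673 (.c 8321 .nil)) (.l 18625 .nil)) (.I .jac (.c 513 (.c 16 (.c 32 .nil))) (.r 40 (.l 18625 .nil)))) (.node (.I .ass (.c 18625 (.c 2105673 (.c 8321 .nil))) .nil) (.I .com (.c 18625 (.c 2105673 .nil)) (.r 8321 .nil))))) (.node (.node (.node (.I .ass (.c 18625 (.c 2105609 (.c 12929 .nil))) .nil) (.I .com (.c 18625 (.c 2105609 .nil)) (.r 12929 .nil))) (.node (.I .com (.c 33587465 (.c 12865 .nil)) (.l 18625 .nil)) (.I .jac (.c 2049 (.c 8 (.c 32 .nil))) (.r 40 (.l 18625 .nil))))) (.node (.node (.I .ass (.c 18625 (.c 33587465 (.c 12865 .nil))) .nil) (.I .com (.c 18625 (.c 33587465 .nil)) (.r 12865 .nil))) (.node (.I .jac (.c 8193 (.c 8 (.c 16 .nil))) (.r 40 (.l 18625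 .nil))) (.I .ass (.c 18625 (.c 12801 (.c 35718409 .nil))) .nil))))) (.node (.node (.node (.node (.I .com (.c 18625 (.c 12801 .nil)) (.r 35718409 .nil)) (.I .jac (.c 8193 (.c 12865 (.c 16 .nil))) (.l 18625 .nil))) (.node (.I .jac (.c 8193 (.c 8 (.c 40 .nil))) (.b 16 (.l 18625 .nil))) (.I .jac (.c 8193 (.c 2113 (.c 40 .nil))) (.l 18625 .nil)))) (.node (.node (.I .com (.c 1512102601296135269515422934336011008713 (.c 18625 .nil)) .nil) (.I .adp (.c 16 (.c 13057 (.c 513 .nil))) (.l 18625 .nil))) (.node (.I .adp (.c 16 (.c 40 (.c 32 .nil))) (.b 513 (.l 18625 .nil))) (.I .jac (.c 8193 (.c 8 (.c 40 .nil))) (.r 16 (.l 18625 .nil)))))) (.node (.node (.node (.I .com (.c 537002313 (.c 2113 .nil)) (.l 18625 .nil)) (.I .adp (.c 12865 (.c 16 (.c 8193 .nil))) (.l 18625 .nil))) (.node (.I .adp (.c 2113 (.c 40 (.c 8193 .nil))) (.l 18625 .nil)) (.I .adp (.c 16 (.c 40 (.c 8 .nil))) (.b 8193 (.l 18625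 .nil))))) (.node (.node (.I .com (.c 12865 (.c 16 .nil)) (.b 8193 (.l 18625 .nil))) (.I .ass (.c 18625 (.c 537002313 (.c 2113 .nil))) .nil)) (.node (.I .com (.c 18625 (.c 537002313 .nil)) (.r 2113 .nil)) (.I .jac (.c 12801 (.c 8 (.c 32 .nil))) (.r 16 (.l 18625 .nil)))))))))

noncomputable def c4_119 : Tr := (.node (.node (.node (.node (.node (.node (.I .adp (.c 12801 (.c 16 (.c 8257 .nil))) (.l 18625 .nil)) (.I .adp (.c 2049 (.c 40 (.c 8257 .nil))) (.l 18625 .nil))) (.node (.I .adp (.c 16 (.c 40 (.c 0 .nil))) (.b 8257 (.l 18625 .nil))) (.I .com (.c 12801 (.c 16 .nil)) (.b 8257 (.l 18625 .nil))))) (.node (.node (.I .ass (.c 18625 (.c 2049 (.c 545424713 .nil))) .nil) (.I .com (.c 18625 (.c 2049 .nil)) (.r 545424713 .nil))) (.node (.I .jac (.c 0 (.c 8 (.c 40 .nil))) (.b 8321 (.b 48 (.b 24 .nil)))) (.I .ass (.c 18625 (.c 513 (.c 553912649 .nil))) .nil)))) (.node (.node (.node (.I .com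 (.c 18625 (.c 513 .nil)) (.r 553912649 .nil)) (.I .jac (.c 0 (.c 16 (.c 32 .nil))) (.b 12865 (.l 18625 .nil)))) (.node (.I .jac (.c 12801 (.c 8 (.c 32 .nil))) (.b 16 (.l 18625 .nil))) (.I .jac (.c 12801 (.c 2113 (.c 32 .nil))) (.l 18625 .nil)))) (.node (.node (.I .jac (.c 12801 (.c 8 (.c 16 .nil))) (.b 32 (.l 18625 .nil))) (.I .ass (.c 18625 (.c 8193 (.c 1324065929 .nil))) .nil)) (.node (.I .com (.c 18625 (.c 8193 .nil)) (.r 1324065929 .nil)) (.I .ass (.c 18625 (.c 2049 (.c 1324066057 .nil))) .nil))))) (.node (.node (.node (.node (.I .com (.c 18625 (.c 2049 .nil)) (.r 1324066057 .nil)) (.I .com (.c 1310924937 (.c 8257 .nil)) (.l 18625 .nil))) (.node (.I .com (.c 1310925065 (.c 2113 .nil)) (.l 18625 .nil)) (.I .ass (.c 18625 (.c 1310925065 (.c 2113 .nil))) .nil))) (.node (.node (.I .com (.c 18625 (.c 1310925065 .nil)) (.r 2113 .nil)) (.I .ass (.c 18625 (.c 1310924937 (.c 8257 .nil)))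 .nil)) (.node (.I .com (.c 18625 (.c 1310924937 .nil)) (.r 8257 .nil)) (.I .jac (.c 537002057 (.c 16 (.c 40 .nil))) (.l 18625 .nil))))) (.node (.node (.node (.I .jac (.c 0 (.c 8 (.c 16 .nil))) (.b 13057 (.b 48 (.b 24 .nil)))) (.I .jac (.c 2105481 (.c 32 (.c 40 .nil))) (.b 24 (.b 48 .nil)))) (.node (.I .jac (.c 33587273 (.c 32 (.c 40 .nil))) (.b 24 (.l 48 .nil))) (.I .jac (.c 16 (.c 32 (.c 40 .nil))) (.l 513 (.l 18625 .nil))))) (.node (.node (.I .jac (.c 557571 (.c 32 (.c 40 .nil))) (.b 24 (.b 48 .nil))) (.I .jac (.c 2113 (.c 32 (.c 40 .nil))) (.b 24 (.l 18433 .nil)))) (.node (.I .jac (.c 8257 (.c 16 (.c 40 .nil))) (.l 24 (.l 18433 .nil))) (.I .jac (.c 12865 (.c 16 (.c 32 .nil))) (.l 24 (.l 18433 .nil)))))))) (.node (.node (.node (.node (.node (.I .jac (.c 0 (.c 8257 (.c 16 .nil))) (.b 40 (.l 18625 .nil))) (.I .jac (.c 0 (.c 8 (.c 32 .nil))) (.b 16 (.b 40 (.l 18625 .nil))))) (.node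 (.I .jac (.c 2049 (.c 32 (.c 40 .nil))) (.l 48 (.l 4673 .nil))) (.I .com (.c 9024976834606985 (.c 48 .nil)) (.l 4673 .nil)))) (.node (.node (.I .com (.c 9024942441010121 (.c 48 .nil)) (.l 4673 .nil)) (.I .jac (.c 8193 (.c 16 (.c 40 .nil))) (.l 48 (.l 4673 .nil)))) (.node (.I .com (.c 2306971873338799881 (.c 48 .nil)) (.l 4673 .nil)) (.I .com (.c 2306970223667989449 (.c 48 .nil)) (.l 4673 .nil))))) (.node (.node (.node (.I .jac (.c 12801 (.c 16 (.c 32 .nil))) (.l 48 (.l 4673 .nil))) (.I .com (.c 13748196208362033929 (.c 48 .nil)) (.l 4673 .nil))) (.node (.I .com (.c 13748193523587632009 (.c 48 .nil)) (.l 4673 .nil)) (.I .jac (.c 2049 (.c 32 (.c 40 .nil))) (.b 24 (.l 18497 .nil))))) (.node (.node (.I .jac (.c 2049 (.c 32 (.c 40 .nil))) (.b 24 (.b 8 (.l 48 .nil)))) (.I .jac (.c 8193 (.c 16 (.c 40 .nil))) (.l 24 (.l 18497 .nil)))) (.node (.I .com (.c 2306971873338799881 (.c 24 .nil))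 (.l 18497 .nil)) (.I .jac (.c 12801 (.c 16 (.c 32 .nil))) (.l 24 (.l 18497 .nil))))))) (.node (.node (.node (.node (.I .com (.c 13748196208362033929 (.c 24 .nil)) (.l 18497 .nil)) (.I .jac (.c 2049 (.c 32 (.c 40 .nil))) (.b 8 (.l 18625 .nil)))) (.node (.I .jac (.c 8193 (.c 16 (.c 40 .nil))) (.b 8 (.l 18625 .nil))) (.I .jac (.c 12801 (.c 16 (.c 32 .nil))) (.b 8 (.l 18625 .nil))))) (.node (.node (.I .jac (.c 2049 (.c 32 (.c 40 .nil))) (.b 8 (.b 48 (.b 24 .nil)))) (.I .jac (.c 8193 (.c 16 (.c 40 .nil))) (.b 8 (.b 48 (.b 24 .nil))))) (.node (.I .jac (.c 12801 (.c 16 (.c 32 .nil))) (.b 8 (.b 48 (.b 24 .nil)))) (.I .jac (.c 2049 (.c 32 (.c 40 .nil))) (.b 8 (.b 24 (.l 48 .nil))))))) (.node (.node (.node (.I .jac (.c 8193 (.c 16 (.c 40 .nil))) (.b 8 (.b 24 (.l 48 .nil)))) (.I .jac (.c 12801 (.c 16 (.c 32 .nil))) (.b 8 (.b 24 (.l 48 .nil))))) (.node (.I .jac (.c 12801 (.c 8 (.c 32 .nil)))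 (.l 2756085961 .nil)) (.I .com (.c 13748196208362033865 (.c 2756085961 .nil)) .nil))) (.node (.node (.I .com (.c 2306971873338799817 (.c 179513737 .nil)) .nil) (.I .jac (.c 513 (.c 32 (.c 40 .nil))) (.b 24 (.l 18561 .nil)))) (.node (.I .jac (.c 513 (.c 32 (.c 40 .nil))) (.b 24 (.b 48 (.b 16 .nil)))) (.I .jac (.c 513 (.c 32 (.c 40 .nil))) (.b 24 (.b 16 (.l 48 .nil))))))))))

noncomputable def c4_120 : Tr := (.node (.node (.node (.node (.node (.node (.I .jac (.c 513 (.c 32 (.c 40 .nil))) (.b 16 (.l 18625 .nil))) (.I .jac (.c 513 (.c 32 (.c 40 .nil))) (.b 16 (.b 48 (.l 24 .nil))))) (.node (.I .jac (.c 513 (.c 32 (.c 40 .nil))) (.b 16 (.b 24 (.l 48 .nil)))) (.I .com (.c 2306969673777850313 (.c 16 .nil)) (.l 18625 .nil)))) (.node (.node (.I .jac (.c 8193 (.c 8 (.c 40 .nil))) (.l 16 (.l 18625 .nil))) (.I .com (.c 2306971873338799817 (.c 16 .nil)) (.l 18625 .nil))) (.node (.I .com (.c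 13748192181200529289 (.c 16 .nil)) (.l 18625 .nil)) (.I .jac (.c 12801 (.c 8 (.c 32 .nil))) (.l 16 (.l 18625 .nil)))))) (.node (.node (.node (.I .com (.c 13748196208362033865 (.c 16 .nil)) (.l 18625 .nil)) (.I .jac (.c 2105673 (.c 16 (.c 24 .nil))) (.l 18689 .nil))) (.node (.I .jac (.c 513 (.c 4737 (.c 40 .nil))) (.l 18689 .nil)) (.I .jac (.c 513 (.c 16 (.c 24 .nil))) (.b 40 (.l 18689 .nil))))) (.node (.node (.I .com (.c 10065461098071330215985125129 (.c 18689 .nil)) .nil) (.I .com (.c 10063013877615402959898107657 (.c 18689 .nil)) .nil)) (.node (.I .com (.c 10061790434706725190145613641 (.c 18689 .nil)) .nil) (.I .jac (.c 33587529 (.c 8 (.c 24 .nil))) (.l 18689 .nil)))))) (.node (.node (.node (.node (.I .jac (.c 33587401 (.c 8 (.c 40 .nil))) (.l 18689 .nil)) (.I .jac (.c 2049 (.c 8 (.c 24 .nil))) (.b 40 (.l 18689 .nil)))) (.node (.I .com (.c 651601654921532475892036648801993 (.c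 18689 .nil)) .nil) (.I .com (.c 651591722123570596944749659643593 (.c 18689 .nil)) .nil))) (.node (.node (.I .com (.c 651581789439149858614694249422665 (.c 18689 .nil)) .nil) (.I .jac (.c 0 (.c 24 (.c 40 .nil))) (.b 2113 (.l 18689 .nil)))) (.node (.I .com (.c 1512102896582526821614077026536761750217 (.c 18689 .nil)) .nil) (.I .com (.c 1512102896582526807535925483778566442761 (.c 18689 .nil)) .nil)))) (.node (.node (.node (.I .com (.c 427057993508083379515198226665525001 (.c 18689 .nil)) .nil) (.I .adp (.c 4737 (.c 40 (.c 513 .nil))) (.l 18689 .nil))) (.node (.I .jac (.c 513 (.c 16 (.c 24 .nil))) (.r 40 (.l 18689 .nil))) (.I .jac (.c 2049 (.c 8 (.c 24 .nil))) (.r 40 (.l 18689 .nil))))) (.node (.node (.I .com (.c 33587529 (.c 4673 .nil)) (.l 18689 .nil)) (.I .ass (.c 18689 (.c 33587529 (.c 4673 .nil))) .nil)) (.node (.I .com (.c 18689 (.c 33587529 .nil)) (.r 4673 .nil)) (.I .jac (.c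 4609 (.c 8 (.c 16 .nil))) (.r 40 (.l 18689 .nil)))))))) (.node (.node (.node (.node (.node (.I .ass (.c 18689 (.c 4609 (.c 35718473 .nil))) .nil) (.I .com (.c 18689 (.c 4609 .nil)) (.r 35718473 .nil))) (.node (.I .jac (.c 169943177 (.c 8 (.c 40 .nil))) (.l 18689 .nil)) (.I .jac (.c 4609 (.c 8 (.c 40 .nil))) (.b 16 (.l 18689 .nil))))) (.node (.node (.I .jac (.c 4609 (.c 2113 (.c 40 .nil))) (.l 18689 .nil)) (.I .jac (.c 4609 (.c 8 (.c 16 .nil))) (.b 40 (.l 18689 .nil)))) (.node (.I .jac (.c 1310924937 (.c 8 (.c 24 .nil))) (.l 18689 .nil)) (.I .jac (.c 0 (.c 16 (.c 40 .nil))) (.b 4673 (.l 18689 .nil)))))) (.node (.node (.node (.I .com (.c 1512102601296135255437272766182275864265 (.c 18689 .nil)) .nil) (.I .com (.c 651601654921513992739479373958985 (.c 18689 .nil)) .nil)) (.node (.I .adp (.c 16 (.c 12993 (.c 513 .nil))) (.l 18689 .nil)) (.I .jac (.c 513 (.c 24 (.c 40 .nil))) (.l 16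 (.l 18689 .nil))))) (.node (.node (.I .com (.c 35470870263625 (.c 16 .nil)) (.l 18689 .nil)) (.I .com (.c 35466557976521 (.c 16 .nil)) (.l 18689 .nil))) (.node (.I .adp (.c 16 (.c 40 (.c 24 .nil))) (.b 513 (.l 18689 .nil))) (.I .ass (.c 18689 (.c 35470870263625 (.c 16 .nil))) .nil))))) (.node (.node (.node (.node (.I .com (.c 18689 (.c 35470870263625 .nil)) (.r 16 .nil)) (.I .ass (.c 18689 (.c 35466557976521 (.c 16 .nil))) .nil)) (.node (.I .com (.c 18689 (.c 35466557976521 .nil)) (.r 16 .nil)) (.I .ass (.c 18689 (.c 2105481 (.c 12993 .nil))) .nil))) (.node (.node (.I .com (.c 18689 (.c 2105481 .nil)) (.r 12993 .nil)) (.I .jac (.c 4609 (.c 8 (.c 40 .nil))) (.r 16 (.l 18689 .nil)))) (.node (.I .com (.c 169943177 (.c 12865 .nil)) (.l 18689 .nil)) (.I .adp (.c 12865 (.c 16 (.c 4609 .nil))) (.l 18689 .nil))))) (.node (.node (.node (.I .adp (.c 2113 (.c 40 (.c 4609 .nil))) (.l 18689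 .nil)) (.I .adp (.c 16 (.c 40 (.c 8 .nil))) (.b 4609 (.l 18689 .nil)))) (.node (.I .com (.c 12865 (.c 16 .nil)) (.b 4609 (.l 18689 .nil))) (.I .ass (.c 18689 (.c 231045989336561353 (.c 16 .nil))) .nil))) (.node (.node (.I .com (.c 18689 (.c 231045989336561353 .nil)) (.r 16 .nil)) (.I .ass (.c 18689 (.c 231045293249046473 (.c 16 .nil))) .nil)) (.node (.I .com (.c 18689 (.c 231045293249046473 .nil)) (.r 16 .nil)) (.I .ass (.c 18689 (.c 169943177 (.c 12865 .nil))) .nil)))))))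

noncomputable def c4_121 : Tr := (.node (.node (.node (.node (.node (.node (.I .com (.c 18689 (.c 169943177 .nil)) (.r 12865 .nil)) (.I .jac (.c 12801 (.c 8 (.c 24 .nil))) (.r 16 (.l 18689 .nil)))) (.node (.I .adp (.c 12801 (.c 16 (.c 4673 .nil))) (.l 18689 .nil)) (.I .adp (.c 2049 (.c 40 (.c 4673 .nil))) (.l 18689 .nil)))) (.node (.node (.I .adp (.c 16 (.c 40 (.c 0 .nil))) (.b 4673 (.l 18689 .nil))) (.I .com (.c 12801 (.c 16 .nil)) (.b 4673 (.l 18689 .nil)))) (.node (.I .ass (.c 18689 (.c 13748194865974800073 (.c 16 .nil))) .nil) (.I .com (.c 18689 (.c 13748194865974800073 .nil)) (.r 16 .nil))))) (.node (.node (.node (.I .ass (.c 18689 (.c 13748192181200529225 (.c 16 .nil))) .nil) (.I .com (.c 18689 (.c 13748192181200529225 .nil)) (.r 16 .nil))) (.node (.I .ass (.c 18689 (.c 12801 (.c 174695561 .nil))) .nil) (.I .com (.c 18689 (.c 12801 .nil)) (.r 174695561 .nil)))) (.node (.node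 (.I .com (.c 1512102306009786909181484737811290911561 (.c 18689 .nil)) .nil) (.I .jac (.c 0 (.c 8 (.c 40 .nil))) (.b 4737 (.b 48 (.b 32 .nil))))) (.node (.I .ass (.c 18689 (.c 513 (.c 179513673 .nil))) .nil) (.I .com (.c 18689 (.c 513 .nil)) (.r 179513673 .nil)))))) (.node (.node (.node (.node (.I .jac (.c 12801 (.c 4673 (.c 16 .nil))) (.l 18689 .nil)) (.I .jac (.c 0 (.c 8 (.c 24 .nil))) (.b 12929 (.b 48 (.b 32 .nil))))) (.node (.I .jac (.c 0 (.c 8 (.c 24 .nil))) (.b 12929 (.b 48 (.l 32 .nil)))) (.I .jac (.c 33587273 (.c 24 (.c 40 .nil))) (.l 18689 .nil)))) (.node (.node (.I .jac (.c 557571 (.c 24 (.c 40 .nil))) (.l 18689 .nil)) (.I .jac (.c 2113 (.c 24 (.c 40 .nil))) (.l 32 (.l 18433 .nil)))) (.node (.I .jac (.c 4673 (.c 16 (.c 40 .nil))) (.l 32 (.l 18433 .nil))) (.I .jac (.c 12865 (.c 16 (.c 24 .nil))) (.l 32 (.l 18433 .nil)))))) (.node (.node (.node (.I .jac (.c 2049 (.c 24 (.c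 40 .nil))) (.l 48 (.l 8257 .nil))) (.I .com (.c 9024976834606921 (.c 48 .nil)) (.l 8257 .nil))) (.node (.I .com (.c 9024908047478729 (.c 48 .nil)) (.l 8257 .nil)) (.I .jac (.c 4609 (.c 16 (.c 40 .nil))) (.l 48 (.l 8257 .nil))))) (.node (.node (.I .com (.c 231045989336561417 (.c 48 .nil)) (.l 8257 .nil)) (.I .com (.c 231045467270826953 (.c 48 .nil)) (.l 8257 .nil))) (.node (.I .jac (.c 12801 (.c 16 (.c 24 .nil))) (.l 48 (.l 8257 .nil))) (.I .com (.c 13748194865974800137 (.c 48 .nil)) (.l 8257 .nil))))))) (.node (.node (.node (.node (.node (.I .com (.c 13748193523587631945 (.c 48 .nil)) (.l 8257 .nil)) (.I .jac (.c 2049 (.c 24 (.c 40 .nil))) (.l 32 (.l 18497 .nil)))) (.node (.I .com (.c 9024976834606921 (.c 32 .nil)) (.l 18497 .nil)) (.I .jac (.c 4609 (.c 16 (.c 40 .nil))) (.l 32 (.l 18497 .nil))))) (.node (.node (.I .com (.c 231045989336561417 (.c 32 .nil)) (.l 18497 .nil)) (.I .jac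 (.c 12801 (.c 16 (.c 24 .nil))) (.l 32 (.l 18497 .nil)))) (.node (.I .com (.c 13748194865974800137 (.c 32 .nil)) (.l 18497 .nil)) (.I .com (.c 13748193523587631945 (.c 32 .nil)) (.l 18497 .nil))))) (.node (.node (.node (.I .jac (.c 2049 (.c 24 (.c 40 .nil))) (.b 8 (.l 18689 .nil))) (.I .jac (.c 4609 (.c 16 (.c 40 .nil))) (.b 8 (.l 18689 .nil)))) (.node (.I .jac (.c 2049 (.c 24 (.c 40 .nil))) (.b 8 (.b 48 (.l 32 .nil)))) (.I .jac (.c 4609 (.c 16 (.c 40 .nil))) (.b 8 (.b 48 (.l 32 .nil)))))) (.node (.node (.I .jac (.c 12801 (.c 16 (.c 24 .nil))) (.b 8 (.b 48 (.l 32 .nil)))) (.I .jac (.c 2049 (.c 24 (.c 40 .nil))) (.b 8 (.b 32 (.l 48 .nil))))) (.node (.I .jac (.c 4609 (.c 16 (.c 40 .nil))) (.b 8 (.b 32 (.l 48 .nil)))) (.I .jac (.c 12801 (.c 16 (.c 24 .nil))) (.b 8 (.b 32 (.l 48 .nil)))))))) (.node (.node (.node (.node (.I .jac (.c 4609 (.c 8 (.c 40 .nil))) (.l 2756086025 .nil)) (.I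 .com (.c 231045989336561353 (.c 2756086025 .nil)) .nil)) (.node (.I .jac (.c 12801 (.c 8 (.c 24 .nil))) (.l 553912713 .nil)) (.I .com (.c 13748194865974800073 (.c 553912713 .nil)) .nil))) (.node (.node (.I .jac (.c 513 (.c 24 (.c 40 .nil))) (.b 43655299 .nil)) (.I .jac (.c 513 (.c 24 (.c 40 .nil))) (.l 18689 (.l 16 .nil)))) (.node (.I .com (.c 35470870263625 (.c 18689 .nil)) (.l 16 .nil)) (.I .jac (.c 4609 (.c 8 (.c 40 .nil))) (.l 18689 (.l 16 .nil)))))) (.node (.node (.node (.I .com (.c 231045989336561353 (.c 18689 .nil)) (.l 16 .nil)) (.I .jac (.c 12801 (.c 8 (.c 24 .nil))) (.l 18689 (.l 16 .nil)))) (.node (.I .com (.c 13748194865974800073 (.c 18689 .nil)) (.l 16 .nil)) (.I .com (.c 13748192181200529225 (.c 18689 .nil)) (.l 16 .nil)))) (.node (.node (.I .jac (.c 513 (.c 24 (.c 40 .nil))) (.l 48 (.l 8321 .nil))) (.I .com (.c 35470870263625 (.c 48 .nil)) (.l 8321 .nil))) (.node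 (.I .com (.c 35466557976521 (.c 48 .nil)) (.l 8321 .nil)) (.I .jac (.c 4609 (.c 8 (.c 40 .nil))) (.l 48 (.l 8321 .nil)))))))))

noncomputable def c4_122 : Tr := (.node (.node (.node (.node (.node (.node (.I .com (.c 231045989336561353 (.c 48 .nil)) (.l 8321 .nil)) (.I .com (.c 231045293249046473 (.c 48 .nil)) (.l 8321 .nil))) (.node (.I .jac (.c 12801 (.c 8 (.c 24 .nil))) (.l 48 (.l 8321 .nil))) (.I .com (.c 13748194865974800073 (.c 48 .nil)) (.l 8321 .nil)))) (.node (.node (.I .com (.c 13748192181200529225 (.c 48 .nil)) (.l 8321 .nil)) (.I .jac (.c 513 (.c 24 (.c 40 .nil))) (.b 16 (.l 18689 .nil)))) (.node (.I .jac (.c 513 (.c 24 (.c 40 .nil))) (.b 16 (.b 48 (.b 32 .nil)))) (.I .jac (.c 513 (.c 24 (.c 40 .nil))) (.b 16 (.b 32 (.l 48 .nil))))))) (.node (.node (.node (.I .jac (.c 513 (.c 16 (.c 40 .nil))) (.l 48 (.l 8385 .nil))) (.I .com (.c 35470870263561 (.c 48 .nil)) (.l 8385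 .nil))) (.node (.I .com (.c 35464401931209 (.c 48 .nil)) (.l 8385 .nil)) (.I .jac (.c 2049 (.c 8 (.c 40 .nil))) (.l 48 (.l 8385 .nil))))) (.node (.node (.I .com (.c 9024976834606793 (.c 48 .nil)) (.l 8385 .nil)) (.I .com (.c 9024839260612553 (.c 48 .nil)) (.l 8385 .nil))) (.node (.I .jac (.c 12801 (.c 8 (.c 16 .nil))) (.l 48 (.l 8385 .nil))) (.I .com (.c 13748193523587631817 (.c 48 .nil)) (.l 8385 .nil)))))) (.node (.node (.node (.node (.I .com (.c 13748192181200529161 (.c 48 .nil)) (.l 8385 .nil)) (.I .jac (.c 513 (.c 8321 (.c 24 .nil))) (.l 18753 .nil))) (.node (.I .com (.c 10064237432019585310071936777 (.c 18753 .nil)) .nil) (.I .com (.c 10063013877579085204530182921 (.c 18753 .nil)) .nil))) (.node (.node (.I .com (.c 10061790434670409642568088393 (.c 18753 .nil)) .nil) (.I .com (.c 10061790434634094094990628745 (.c 18753 .nil)) .nil)) (.node (.I .jac (.c 33587465 (.c 8 (.c 24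 .nil))) (.l 18753 .nil)) (.I .jac (.c 2049 (.c 8 (.c 32 .nil))) (.b 24 (.l 18753 .nil)))))) (.node (.node (.node (.I .jac (.c 2049 (.c 8 (.c 24 .nil))) (.b 32 (.l 18753 .nil))) (.I .com (.c 651591722123561355438909041457865 (.c 18753 .nil)) .nil)) (.node (.I .com (.c 651581789439140617179291382201161 (.c 18753 .nil)) .nil) (.I .com (.c 42576913200413533512397237570979656393 (.c 18753 .nil)) .nil))) (.node (.node (.I .com (.c 42576913200413531150059165447389105929 (.c 18753 .nil)) .nil) (.I .com (.c 427057350195047847081321678284721929 (.c 18753 .nil)) .nil)) (.node (.I .jac (.c 4609 (.c 8 (.c 32 .nil))) (.b 16 (.l 18753 .nil))) (.I .jac (.c 4609 (.c 2113 (.c 32 .nil))) (.l 18753 .nil))))))) (.node (.node (.node (.node (.node (.I .jac (.c 4609 (.c 8 (.c 16 .nil))) (.b 32 (.l 18753 .nil))) (.I .com (.c 42576892903125856676158477119718330185 (.c 18753 .nil)) .nil)) (.node (.I .jac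 (.c 513 (.c 24 (.c 32 .nil))) (.l 16 (.l 18753 .nil))) (.I .com (.c 35468714087241 (.c 16 .nil)) (.l 18753 .nil)))) (.node (.node (.I .com (.c 35466557976457 (.c 16 .nil)) (.l 18753 .nil)) (.I .ass (.c 18753 (.c 35468714087241 (.c 16 .nil))) .nil)) (.node (.I .com (.c 18753 (.c 35468714087241 .nil)) (.r 16 .nil)) (.I .ass (.c 18753 (.c 35466557976457 (.c 16 .nil))) .nil)))) (.node (.node (.node (.I .com (.c 18753 (.c 35466557976457 .nil)) (.r 16 .nil)) (.I .ass (.c 18753 (.c 2105481 (.c 8385 .nil))) .nil)) (.node (.I .com (.c 18753 (.c 2105481 .nil)) (.r 8385 .nil)) (.I .com (.c 169943177 (.c 8257 .nil)) (.l 18753 .nil)))) (.node (.node (.I .ass (.c 18753 (.c 231045815314584265 (.c 16 .nil))) .nil) (.I .com (.c 18753 (.c 231045815314584265 .nil)) (.r 16 .nil))) (.node (.I .ass (.c 18753 (.c 231045293249046409 (.c 16 .nil))) .nil) (.I .com (.c 18753 (.c 231045293249046409 .nil))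 (.r 16 .nil)))))) (.node (.node (.node (.node (.I .ass (.c 18753 (.c 169943177 (.c 8257 .nil))) .nil) (.I .com (.c 18753 (.c 169943177 .nil)) (.r 8257 .nil))) (.node (.I .ass (.c 18753 (.c 2306970773558193865 (.c 16 .nil))) .nil) (.I .com (.c 18753 (.c 2306970773558193865 .nil)) (.r 16 .nil)))) (.node (.node (.I .ass (.c 18753 (.c 2306969673777850185 (.c 16 .nil))) .nil) (.I .com (.c 18753 (.c 2306969673777850185 .nil)) (.r 16 .nil))) (.node (.I .ass (.c 18753 (.c 8193 (.c 174695561 .nil))) .nil) (.I .com (.c 18753 (.c 8193 .nil)) (.r 174695561 .nil))))) (.node (.node (.node (.I .com (.c 427056063571157203537696782463438729 (.c 18753 .nil)) .nil) (.I .com (.c 42576872605845441665422493413917717321 (.c 18753 .nil)) .nil)) (.node (.I .ass (.c 18753 (.c 513 (.c 179513609 .nil))) .nil) (.I .com (.c 18753 (.c 513 .nil)) (.r 179513609 .nil)))) (.node (.node (.I .jac (.c 8193 (.c 4673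 (.c 16 .nil))) (.l 18753 .nil)) (.I .ass (.c 18753 (.c 4609 (.c 545424521 .nil))) .nil)) (.node (.I .com (.c 18753 (.c 4609 .nil)) (.r 545424521 .nil)) (.I .com (.c 537002121 (.c 4673 .nil)) (.l 18753 .nil))))))))

noncomputable def c4_123 : Tr := (.node (.node (.node (.node (.node (.node (.I .ass (.c 18753 (.c 537002121 (.c 4673 .nil))) .nil) (.I .com (.c 18753 (.c 537002121 .nil)) (.r 4673 .nil))) (.node (.I .jac (.c 169943113 (.c 16 (.c 32 .nil))) (.l 18753 .nil)) (.I .jac (.c 0 (.c 8 (.c 24 .nil))) (.b 8321 (.b 40 (.l 48 .nil)))))) (.node (.node (.I .ass (.c 18753 (.c 513 (.c 553912521 .nil))) .nil) (.I .com (.c 18753 (.c 513 .nil)) (.r 553912521 .nil))) (.node (.I .jac (.c 557571 (.c 24 (.c 32 .nil))) (.l 18753 .nil)) (.I .jac (.c 16 (.c 24 (.c 32 .nil))) (.l 513 (.l 18753 .nil)))))) (.node (.node (.node (.I .jac (.c 2049 (.c 24 (.c 32 .nil))) (.l 40 (.l 18497 .nil))) (.I .com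 (.c 9024942441009993 (.c 40 .nil)) (.l 18497 .nil))) (.node (.I .com (.c 9024908047478665 (.c 40 .nil)) (.l 18497 .nil)) (.I .jac (.c 4609 (.c 16 (.c 32 .nil))) (.l 40 (.l 18497 .nil))))) (.node (.node (.I .com (.c 231045815314584329 (.c 40 .nil)) (.l 18497 .nil)) (.I .com (.c 231045467270826889 (.c 40 .nil)) (.l 18497 .nil))) (.node (.I .jac (.c 8193 (.c 16 (.c 24 .nil))) (.l 40 (.l 18497 .nil))) (.I .com (.c 2306970773558193929 (.c 40 .nil)) (.l 18497 .nil)))))) (.node (.node (.node (.node (.I .com (.c 2306970223667989321 (.c 40 .nil)) (.l 18497 .nil)) (.I .jac (.c 8193 (.c 16 (.c 24 .nil))) (.b 8 (.l 18753 .nil)))) (.node (.I .jac (.c 2049 (.c 24 (.c 32 .nil))) (.b 8 (.b 48 (.l 40 .nil)))) (.I .jac (.c 4609 (.c 16 (.c 32 .nil))) (.b 8 (.b 48 (.l 40 .nil)))))) (.node (.node (.I .jac (.c 8193 (.c 16 (.c 24 .nil))) (.b 8 (.b 48 (.l 40 .nil)))) (.I .jac (.c 2049 (.c 24 (.c 32 .nil)))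 (.b 8 (.b 40 (.b 48 .nil))))) (.node (.I .jac (.c 4609 (.c 16 (.c 32 .nil))) (.b 8 (.b 40 (.b 48 .nil)))) (.I .jac (.c 8193 (.c 16 (.c 24 .nil))) (.b 8 (.b 40 (.b 48 .nil))))))) (.node (.node (.node (.I .jac (.c 2049 (.c 24 (.c 32 .nil))) (.b 8 (.b 40 (.l 48 .nil)))) (.I .jac (.c 4609 (.c 16 (.c 32 .nil))) (.b 8 (.b 40 (.l 48 .nil))))) (.node (.I .jac (.c 8193 (.c 16 (.c 24 .nil))) (.b 8 (.b 40 (.l 48 .nil)))) (.I .jac (.c 4609 (.c 8 (.c 32 .nil))) (.l 1337272713 .nil)))) (.node (.node (.I .jac (.c 513 (.c 24 (.c 32 .nil))) (.l 18753 (.l 16 .nil))) (.I .com (.c 35468714087241 (.c 18753 .nil)) (.l 16 .nil))) (.node (.I .com (.c 35466557976457 (.c 18753 .nil)) (.l 16 .nil)) (.I .jac (.c 4609 (.c 8 (.c 32 .nil))) (.l 18753 (.l 16 .nil)))))))) (.node (.node (.node (.node (.node (.I .com (.c 231045815314584265 (.c 18753 .nil)) (.l 16 .nil)) (.I .com (.c 231045293249046409 (.c 18753 .nil))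 (.l 16 .nil))) (.node (.I .jac (.c 8193 (.c 8 (.c 24 .nil))) (.l 18753 (.l 16 .nil))) (.I .com (.c 2306970773558193865 (.c 18753 .nil)) (.l 16 .nil)))) (.node (.node (.I .com (.c 2306969673777850185 (.c 18753 .nil)) (.l 16 .nil)) (.I .jac (.c 513 (.c 24 (.c 32 .nil))) (.l 48 (.l 12929 .nil)))) (.node (.I .com (.c 35468714087241 (.c 48 .nil)) (.l 12929 .nil)) (.I .com (.c 35466557976457 (.c 48 .nil)) (.l 12929 .nil))))) (.node (.node (.node (.I .jac (.c 4609 (.c 8 (.c 32 .nil))) (.l 48 (.l 12929 .nil))) (.I .com (.c 231045815314584265 (.c 48 .nil)) (.l 12929 .nil))) (.node (.I .com (.c 231045293249046409 (.c 48 .nil)) (.l 12929 .nil)) (.I .jac (.c 8193 (.c 8 (.c 24 .nil))) (.l 48 (.l 12929 .nil))))) (.node (.node (.I .com (.c 2306970773558193865 (.c 48 .nil)) (.l 12929 .nil)) (.I .com (.c 2306969673777850185 (.c 48 .nil)) (.l 12929 .nil))) (.node (.I .jac (.c 513 (.c 24 (.c 32 .nil)))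 (.b 16 (.l 18753 .nil))) (.I .jac (.c 513 (.c 24 (.c 32 .nil))) (.b 16 (.b 48 (.b 40 .nil)))))))) (.node (.node (.node (.node (.I .com (.c 231045293249046409 (.c 16 .nil)) (.l 18753 .nil)) (.I .jac (.c 4609 (.c 8 (.c 32 .nil))) (.l 16 (.l 18753 .nil)))) (.node (.I .com (.c 231045815314584265 (.c 16 .nil)) (.l 18753 .nil)) (.I .com (.c 2306969673777850185 (.c 16 .nil)) (.l 18753 .nil)))) (.node (.node (.I .jac (.c 8193 (.c 8 (.c 24 .nil))) (.l 16 (.l 18753 .nil))) (.I .com (.c 2306970773558193865 (.c 16 .nil)) (.l 18753 .nil))) (.node (.I .com (.c 9024942441009865 (.c 1350544777 .nil)) .nil) (.I .jac (.c 8193 (.c 8 (.c 16 .nil))) (.l 1350544777 .nil))))) (.node (.node (.node (.I .com (.c 2306970223667989193 (.c 1350544777 .nil)) .nil) (.I .com (.c 2306969673777850121 (.c 1350544777 .nil)) .nil)) (.node (.I .jac (.c 513 (.c 16 (.c 32 .nil))) (.l 48 (.l 12993 .nil))) (.I .com (.c 35468714087177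 (.c 48 .nil)) (.l 12993 .nil)))) (.node (.node (.I .com (.c 35464401931145 (.c 48 .nil)) (.l 12993 .nil)) (.I .jac (.c 2049 (.c 8 (.c 32 .nil))) (.l 48 (.l 12993 .nil)))) (.node (.I .com (.c 9024942441009865 (.c 48 .nil)) (.l 12993 .nil)) (.I .com (.c 9024839260612489 (.c 48 .nil)) (.l 12993 .nil))))))))

noncomputable def c4_124 : Tr := (.node (.node (.node (.node (.node (.node (.I .jac (.c 8193 (.c 8 (.c 16 .nil))) (.l 48 (.l 12993 .nil))) (.I .com (.c 2306970223667989193 (.c 48 .nil)) (.l 12993 .nil))) (.node (.I .com (.c 2306969673777850121 (.c 48 .nil)) (.l 12993 .nil)) (.I .jac (.c 513 (.c 16 (.c 32 .nil))) (.l 40 (.l 18625 .nil))))) (.node (.node (.I .com (.c 35468714087177 (.c 40 .nil)) (.l 18625 .nil)) (.I .com (.c 35464401931145 (.c 40 .nil)) (.l 18625 .nil))) (.node (.I .jac (.c 2049 (.c 8 (.c 32 .nil))) (.l 40 (.l 18625 .nil))) (.I .com (.c 9024942441009865 (.c 40 .nil))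 (.l 18625 .nil))))) (.node (.node (.node (.I .com (.c 9024839260612489 (.c 40 .nil)) (.l 18625 .nil)) (.I .jac (.c 8193 (.c 8 (.c 16 .nil))) (.l 40 (.l 18625 .nil)))) (.node (.I .com (.c 2306970223667989193 (.c 40 .nil)) (.l 18625 .nil)) (.I .com (.c 2306969673777850121 (.c 40 .nil)) (.l 18625 .nil)))) (.node (.node (.I .jac (.c 513 (.c 16 (.c 24 .nil))) (.l 40 (.l 18689 .nil))) (.I .com (.c 35466557976329 (.c 40 .nil)) (.l 18689 .nil))) (.node (.I .com (.c 35464401931081 (.c 40 .nil)) (.l 18689 .nil)) (.I .jac (.c 2049 (.c 8 (.c 24 .nil))) (.l 40 (.l 18689 .nil))))))) (.node (.node (.node (.node (.I .com (.c 9024908047478473 (.c 40 .nil)) (.l 18689 .nil)) (.I .com (.c 9024839260612425 (.c 40 .nil)) (.l 18689 .nil))) (.node (.I .jac (.c 4609 (.c 8 (.c 16 .nil))) (.l 40 (.l 18689 .nil))) (.I .com (.c 231045467270826697 (.c 40 .nil)) (.l 18689 .nil)))) (.node (.node (.I .com (.c 231045293249046281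 (.c 40 .nil)) (.l 18689 .nil)) (.I .com (.c 2105481 (.c 18689 .nil)) (.l 12993 .nil))) (.node (.I .com (.c 169943177 (.c 18689 .nil)) (.l 12865 .nil)) (.I .com (.c 2105481 (.c 13057 .nil)) (.l 18625 .nil))))) (.node (.node (.node (.I .com (.c 2105545 (.c 13057 .nil)) (.l 18561 .nil)) (.I .com (.c 169943177 (.c 13057 .nil)) (.l 18497 .nil))) (.node (.I .com (.c 33587401 (.c 13057 .nil)) (.l 18497 .nil)) (.I .com (.c 537002121 (.c 18625 .nil)) (.l 12865 .nil)))) (.node (.node (.I .com (.c 537002121 (.c 12993 .nil)) (.l 18497 .nil)) (.I .com (.c 2105609 (.c 18753 .nil)) (.l 4737 .nil))) (.node (.I .com (.c 537002121 (.c 18753 .nil)) (.l 4673 .nil)) (.I .com (.c 537002185 (.c 18753 .nil)) (.l 2113 .nil))))))) (.node (.node (.node (.node (.node (.I .jac (.c 0 (.c 8 (.c 32 .nil))) (.b 24 (.l 1337272713 .nil))) (.I .jac (.c 0 (.c 8 (.c 24 .nil))) (.b 32 (.l 1337272713 .nil)))) (.node (.I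 .com (.c 1310924937 (.c 8385 .nil)) (.l 18497 .nil)) (.I .com (.c 1310924937 (.c 18689 .nil)) (.l 4673 .nil)))) (.node (.node (.I .com (.c 1310925001 (.c 18689 .nil)) (.l 2113 .nil)) (.I .jac (.c 18433 (.c 8 (.c 32 .nil))) (.r 1350544521 .nil))) (.node (.I .jac (.c 0 (.c 8 (.c 40 .nil))) (.b 24 (.l 553912713 .nil))) (.I .jac (.c 0 (.c 8 (.c 24 .nil))) (.b 48 (.l 553912649 .nil)))))) (.node (.node (.node (.I .jac (.c 513 (.c 16 (.c 48 .nil))) (.r 1363882185 .nil)) (.I .jac (.c 0 (.c 16 (.c 48 .nil))) (.r 1324132881 .nil))) (.node (.I .jac (.c 0 (.c 8 (.c 48 .nil))) (.r 1350610961 .nil)) (.I .com (.c 2718204041 (.c 8385 .nil)) (.l 12865 .nil)))) (.node (.node (.I .com (.c 2718204041 (.c 13057 .nil)) (.l 4673 .nil)) (.I .com (.c 2718204105 (.c 13057 .nil)) (.l 2113 .nil))) (.node (.I .jac (.c 8257 (.c 16 (.c 40 .nil))) (.r 2718204105 .nil)) (.I .jac (.c 12865 (.c 16 (.c 32 .nil)))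 (.r 2718204105 .nil)))))) (.node (.node (.node (.node (.I .jac (.c 8193 (.c 8 (.c 40 .nil))) (.r 2775125129 .nil)) (.I .jac (.c 4609 (.c 16 (.c 40 .nil))) (.r 2794229833 .nil))) (.node (.I .jac (.c 4673 (.c 16 (.c 40 .nil))) (.r 2718204169 .nil)) (.I .jac (.c 2049 (.c 24 (.c 40 .nil))) (.r 2794229833 .nil)))) (.node (.node (.I .jac (.c 0 (.c 24 (.c 40 .nil))) (.r 2794246673 .nil)) (.I .jac (.c 0 (.c 16 (.c 40 .nil))) (.r 2794267153 .nil))) (.node (.I .jac (.c 0 (.c 16 (.c 40 .nil))) (.r 2737179153 .nil)) (.I .jac (.c 0 (.c 8 (.c 40 .nil))) (.r 2775191569 .nil))))) (.node (.node (.node (.I .jac (.c 8193 (.c 16 (.c 24 .nil))) (.r 2813400137 .nil)) (.I .jac (.c 2049 (.c 8 (.c 32 .nil))) (.r 2813400265 .nil))) (.node (.I .jac (.c 513 (.c 16 (.c 32 .nil))) (.r 2813400265 .nil)) (.I .jac (.c 2049 (.c 8 (.c 24 .nil))) (.r 2813400329 .nil)))) (.node (.node (.I .jac (.c 8 (.c 16 (.c 32 .nil)))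 (.r 231046163358604233 .nil)) (.I .jac (.c 0 (.c 16 (.c 32 .nil))) (.r 2775227921 .nil))) (.node (.I .jac (.c 0 (.c 16 (.c 32 .nil))) (.r 2737216017 .nil)) (.I .jac (.c 8 (.c 16 (.c 40 .nil))) (.r 2306970773558194185 .nil))))))))

noncomputable def c4_125 : Tr := (.node (.node (.node (.node (.node (.node (.I .jac (.c 8 (.c 16 (.c 40 .nil))) (.r 231045815314584585 .nil)) (.I .jac (.c 8 (.c 16 (.c 32 .nil))) (.r 13748194865974800393 .nil))) (.node (.I .jac (.c 4673 (.c 16 (.c 32 .nil))) (.r 1310925193 .nil)) (.I .com (.c 2105481 (.c 8385 .nil)) (.l 18753 .nil)))) (.node (.node (.X 1 (.c 48 (.c 0 (.c 24 (.c 16 (.c 40 .nil))))) (.b 32 (.b 8 .nil))) (.X 1 (.c 48 (.c 0 (.c 24 (.c 16 (.c 40 .nil))))) (.b 8 (.b 32 .nil)))) (.node (.X 1 (.c 32 (.c 24 (.c 16 (.c 8 (.c 48 .nil))))) (.l 12801 .nil)) (.X 1 (.c 40 (.c 24 (.c 16 (.c 0 (.c 48 .nil))))) (.b 32 (.b 8 .nil)))))) (.node (.node (.node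 (.X 1 (.c 40 (.c 24 (.c 16 (.c 0 (.c 48 .nil))))) (.b 8 (.b 32 .nil))) (.X 1 (.c 32 (.c 16 (.c 24 (.c 8 (.c 48 .nil))))) (.l 12801 .nil))) (.node (.X 1 (.c 48 (.c 8 (.c 32 (.c 16 (.c 24 .nil))))) (.l 12801 .nil)) (.X 1 (.c 40 (.c 16 (.c 24 (.c 0 (.c 48 .nil))))) (.b 32 (.b 8 .nil))))) (.node (.node (.X 1 (.c 40 (.c 16 (.c 24 (.c 0 (.c 48 .nil))))) (.b 8 (.b 32 .nil))) (.X 1 (.c 48 (.c 32 (.c 16 (.c 0 (.c 24 .nil))))) (.b 40 (.b 8 .nil)))) (.node (.X 1 (.c 48 (.c 24 (.c 16 (.c 0 (.c 32 .nil))))) (.b 8 (.b 40 .nil))) (.X 1 (.c 48 (.c 16 (.c 40 (.c 0 (.c 24 .nil))))) (.b 8 (.b 32 .nil))))))) (.node (.node (.node (.node (.X 1 (.c 48 (.c 24 (.c 16 (.c 0 (.c 32 .nil))))) (.b 40 (.b 8 .nil))) (.X 1 (.c 48 (.c 16 (.c 24 (.c 0 (.c 40 .nil))))) (.b 32 (.b 8 .nil)))) (.node (.X 1 (.c 48 (.c 24 (.c 32 (.c 0 (.c 16 .nil))))) (.b 40 (.b 8 .nil))) (.X 1 (.c 48 (.c 16 (.c 24 (.c 0 (.c 40 .nil)))))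 (.b 8 (.b 32 .nil))))) (.node (.node (.X 1 (.c 48 (.c 16 (.c 24 (.c 8 (.c 32 .nil))))) (.l 12801 .nil)) (.X 1 (.c 48 (.c 32 (.c 24 (.c 0 (.c 16 .nil))))) (.b 8 (.b 40 .nil)))) (.node (.X 1 (.c 48 (.c 32 (.c 24 (.c 0 (.c 16 .nil))))) (.b 40 (.b 8 .nil))) (.X 1 (.c 48 (.c 24 (.c 8 (.c 0 (.c 40 .nil))))) (.b 32 (.b 16 .nil)))))) (.node (.node (.node (.X 1 (.c 48 (.c 24 (.c 8 (.c 0 (.c 40 .nil))))) (.b 16 (.b 32 .nil))) (.X 1 (.c 48 (.c 8 (.c 40 (.c 0 (.c 24 .nil))))) (.b 32 (.b 16 .nil)))) (.node (.X 1 (.c 48 (.c 8 (.c 24 (.c 0 (.c 40 .nil))))) (.b 32 (.b 16 .nil))) (.X 1 (.c 40 (.c 0 (.c 32 (.c 24 (.c 48 .nil))))) (.b 8 (.b 16 .nil))))) (.node (.node (.X 1 (.c 48 (.c 40 (.c 24 (.c 0 (.c 8 .nil))))) (.b 32 (.b 16 .nil))) (.X 1 (.c 48 (.c 40 (.c 8 (.c 0 (.c 24 .nil))))) (.b 16 (.b 32 .nil)))) (.node (.X 1 (.c 48 (.c 8 (.c 40 (.c 24 (.c 16 .nil))))) (.l 8193 .nil)) (.X 1 (.c 48 (.c 8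 (.c 40 (.c 16 (.c 24 .nil))))) (.l 8193 .nil))))))) (.node (.node (.node (.node (.node (.X 1 (.c 40 (.c 24 (.c 16 (.c 8 (.c 48 .nil))))) (.l 8193 .nil)) (.X 1 (.c 40 (.c 16 (.c 24 (.c 8 (.c 48 .nil))))) (.l 8193 .nil))) (.node (.X 1 (.c 32 (.c 0 (.c 24 (.c 16 (.c 48 .nil))))) (.b 40 (.b 8 .nil))) (.X 1 (.c 48 (.c 24 (.c 8 (.c 0 (.c 32 .nil))))) (.b 40 (.b 16 .nil))))) (.node (.node (.X 1 (.c 48 (.c 24 (.c 40 (.c 8 (.c 16 .nil))))) (.l 8193 .nil)) (.X 1 (.c 48 (.c 24 (.c 32 (.c 0 (.c 8 .nil))))) (.b 16 (.b 40 .nil)))) (.node (.X 1 (.c 48 (.c 24 (.c 32 (.c 0 (.c 8 .nil))))) (.b 40 (.b 16 .nil))) (.X 1 (.c 48 (.c 32 (.c 8 (.c 0 (.c 24 .nil))))) (.b 16 (.b 40 .nil)))))) (.node (.node (.node (.X 1 (.c 48 (.c 40 (.c 16 (.c 0 (.c 8 .nil))))) (.b 32 (.b 24 .nil))) (.X 1 (.c 48 (.c 40 (.c 16 (.c 0 (.c 8 .nil))))) (.b 24 (.b 32 .nil)))) (.node (.X 1 (.c 48 (.c 40 (.c 8 (.c 0 (.c 16 .nil)))))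 (.b 32 (.b 24 .nil))) (.X 1 (.c 48 (.c 40 (.c 8 (.c 0 (.c 16 .nil))))) (.b 24 (.b 32 .nil))))) (.node (.node (.X 1 (.c 48 (.c 32 (.c 24 (.c 16 (.c 40 .nil))))) (.l 513 .nil)) (.X 1 (.c 48 (.c 16 (.c 40 (.c 32 (.c 24 .nil))))) (.l 513 .nil))) (.node (.X 1 (.c 48 (.c 16 (.c 8 (.c 0 (.c 40 .nil))))) (.b 32 (.b 24 .nil))) (.X 1 (.c 48 (.c 0 (.c 40 (.c 8 (.c 16 .nil))))) (.b 24 (.b 32 .nil))))))) (.node (.node (.node (.node (.X 1 (.c 48 (.c 32 (.c 40 (.c 0 (.c 24 .nil))))) (.b 16 (.b 8 .nil))) (.X 1 (.c 48 (.c 32 (.c 24 (.c 0 (.c 40 .nil))))) (.b 8 (.b 16 .nil)))) (.node (.X 1 (.c 48 (.c 40 (.c 32 (.c 0 (.c 24 .nil))))) (.b 16 (.b 8 .nil))) (.X 1 (.c 48 (.c 40 (.c 32 (.c 8 (.c 24 .nil))))) (.l 2049 .nil)))) (.node (.node (.X 1 (.c 48 (.c 8 (.c 40 (.c 32 (.c 24 .nil))))) (.l 2049 .nil)) (.X 1 (.c 40 (.c 8 (.c 32 (.c 24 (.c 48 .nil))))) (.l 2049 .nil))) (.node (.X 1 (.c 40 (.c 24 (.c 32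 (.c 8 (.c 48 .nil))))) (.l 2049 .nil)) (.X 1 (.c 48 (.c 8 (.c 32 (.c 24 (.c 40 .nil))))) (.l 2049 .nil))))) (.node (.node (.node (.X 1 (.c 40 (.c 32 (.c 8 (.c 0 (.c 16 .nil))))) (.b 24 (.b 48 .nil))) (.X 1 (.c 40 (.c 32 (.c 8 (.c 0 (.c 16 .nil))))) (.b 48 (.b 24 .nil)))) (.node (.X 1 (.c 40 (.c 32 (.c 16 (.c 0 (.c 8 .nil))))) (.b 24 (.b 48 .nil))) (.X 1 (.c 40 (.c 32 (.c 16 (.c 0 (.c 8 .nil))))) (.b 48 (.b 24 .nil))))) (.node (.node (.X 1 (.c 48 (.c 8 (.c 24 (.c 0 (.c 16 .nil))))) (.b 40 (.b 32 .nil))) (.X 1 (.c 48 (.c 8 (.c 24 (.c 0 (.c 16 .nil))))) (.b 32 (.b 40 .nil)))) (.node (.X 1 (.c 48 (.c 8 (.c 16 (.c 0 (.c 24 .nil))))) (.b 40 (.b 32 .nil))) (.X 1 (.c 48 (.c 16 (.c 24 (.c 0 (.c 8 .nil))))) (.b 32 (.b 40 .nil)))))))))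

noncomputable def c4_126 : Tr := (.node (.node (.node (.node (.node (.node (.X 1 (.c 40 (.c 32 (.c 8 (.c 0 (.c 48 .nil))))) (.b 16 (.b 24 .nil))) (.X 1 (.c 40 (.c 8 (.c 32 (.c 0 (.c 48 .nil))))) (.b 16 (.b 24 .nil)))) (.node (.X 1 (.c 40 (.c 0 (.c 32 (.c 24 (.c 8 .nil))))) (.b 48 (.b 16 .nil))) (.X 1 (.c 32 (.c 0 (.c 24 (.c 8 (.c 40 .nil))))) (.b 48 (.b 16 .nil))))) (.node (.node (.X 1 (.c 32 (.c 8 (.c 24 (.c 0 (.c 40 .nil))))) (.b 48 (.b 16 .nil))) (.X 1 (.c 40 (.c 0 (.c 32 (.c 8 (.c 16 .nil))))) (.b 24 (.b 48 .nil)))) (.node (.X 1 (.c 40 (.c 0 (.c 16 (.c 8 (.c 32 .nil))))) (.b 48 (.b 24 .nil))) (.X 1 (.c 32 (.c 0 (.c 16 (.c 8 (.c 48 .nil))))) (.b 40 (.b 24 .nil)))))) (.node (.node (.node (.X 1 (.c 32 (.c 16 (.c 8 (.c 0 (.c 48 .nil))))) (.b 24 (.b 40 .nil))) (.X 1 (.c 48 (.c 40 (.c 8 (.c 0 (.c 32 .nil))))) (.b 24 (.b 16 .nil)))) (.node (.X 1 (.c 40 (.c 16 (.c 32 (.c 0 (.c 48 .nil)))))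 (.b 8 (.b 24 .nil))) (.X 1 (.c 40 (.c 0 (.c 32 (.c 16 (.c 48 .nil))))) (.b 8 (.b 24 .nil))))) (.node (.node (.X 1 (.c 48 (.c 0 (.c 32 (.c 8 (.c 16 .nil))))) (.b 40 (.b 24 .nil))) (.X 1 (.c 48 (.c 0 (.c 32 (.c 8 (.c 16 .nil))))) (.b 24 (.b 40 .nil)))) (.node (.X 1 (.c 40 (.c 8 (.c 24 (.c 16 (.c 32 .nil))))) (.l 18433 .nil)) (.X 1 (.c 32 (.c 16 (.c 24 (.c 8 (.c 40 .nil))))) (.l 18433 .nil)))))) (.node (.node (.node (.node (.X 1 (.c 40 (.c 8 (.c 32 (.c 16 (.c 24 .nil))))) (.l 18433 .nil)) (.X 1 (.c 40 (.c 32 (.c 16 (.c 0 (.c 24 .nil))))) (.b 8 (.b 48 .nil)))) (.node (.X 1 (.c 40 (.c 32 (.c 24 (.c 8 (.c 16 .nil))))) (.l 18433 .nil)) (.X 1 (.c 40 (.c 0 (.c 24 (.c 16 (.c 32 .nil))))) (.b 8 (.b 48 .nil))))) (.node (.node (.X 1 (.c 40 (.c 0 (.c 24 (.c 16 (.c 32 .nil))))) (.b 48 (.b 8 .nil))) (.X 1 (.c 48 (.c 32 (.c 16 (.c 8 (.c 40 .nil))))) (.l 4609 .nil))) (.node (.X 1 (.c 48 (.c 16 (.c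 32 (.c 8 (.c 40 .nil))))) (.l 4609 .nil)) (.X 1 (.c 32 (.c 0 (.c 24 (.c 8 (.c 48 .nil))))) (.b 16 (.b 40 .nil)))))) (.node (.node (.node (.X 1 (.c 48 (.c 16 (.c 40 (.c 8 (.c 32 .nil))))) (.l 4609 .nil)) (.X 1 (.c 32 (.c 0 (.c 24 (.c 8 (.c 48 .nil))))) (.b 40 (.b 16 .nil)))) (.node (.X 1 (.c 24 (.c 8 (.c 16 (.c 0 (.c 40 .nil))))) (.b 32 (.b 48 .nil))) (.X 1 (.c 24 (.c 16 (.c 8 (.c 0 (.c 40 .nil))))) (.b 32 (.b 48 .nil))))) (.node (.node (.X 1 (.c 24 (.c 0 (.c 16 (.c 8 (.c 40 .nil))))) (.b 48 (.b 32 .nil))) (.X 1 (.c 48 (.c 40 (.c 32 (.c 0 (.c 16 .nil))))) (.b 24 (.b 8 .nil)))) (.node (.X 1 (.c 40 (.c 8 (.c 16 (.c 0 (.c 24 .nil))))) (.b 32 (.b 48 .nil))) (.X 1 (.c 40 (.c 0 (.c 24 (.c 16 (.c 8 .nil))))) (.b 48 (.b 32 .nil)))))))) (.node (.node (.node (.node (.node (.X 1 (.c 40 (.c 0 (.c 24 (.c 8 (.c 16 .nil))))) (.b 32 (.b 48 .nil))) (.X 1 (.c 32 (.c 0 (.c 16 (.c 8 (.c 24 .nil)))))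 (.b 40 (.b 48 .nil)))) (.node (.X 1 (.c 24 (.c 16 (.c 8 (.c 0 (.c 32 .nil))))) (.b 40 (.b 48 .nil))) (.X 1 (.c 32 (.c 16 (.c 24 (.c 0 (.c 8 .nil))))) (.b 40 (.b 48 .nil))))) (.node (.node (.X 1 (.c 40 (.c 16 (.c 32 (.c 0 (.c 48 .nil))))) (.b 24 (.b 8 .nil))) (.X 1 (.c 48 (.c 16 (.c 32 (.c 0 (.c 40 .nil))))) (.b 8 (.b 24 .nil)))) (.node (.X 1 (.c 48 (.c 16 (.c 40 (.c 0 (.c 32 .nil))))) (.b 8 (.b 24 .nil))) (.X 1 (.c 48 (.c 32 (.c 16 (.c 0 (.c 40 .nil))))) (.b 8 (.b 24 .nil)))))) (.node (.node (.node (.X 1 (.c 48 (.c 32 (.c 16 (.c 0 (.c 40 .nil))))) (.b 24 (.b 8 .nil))) (.X 1 (.c 48 (.c 16 (.c 40 (.c 0 (.c 32 .nil))))) (.b 24 (.b 8 .nil)))) (.node (.X 0 (.c 48 (.c 3561346121425225 (.c 16 (.c 8 .nil)))) .nil) (.X 0 (.c 48 (.c 231045989336561545 (.c 16 (.c 8 .nil)))) .nil))) (.node (.node (.X 0 (.c 48 (.c 40 (.c 231045815314584329 (.c 8 .nil)))) .nil) (.X 0 (.c 48 (.c 231045989336561353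 (.c 32 (.c 16 .nil)))) .nil)) (.node (.X 0 (.c 48 (.c 580749782704521 (.c 24 (.c 16 .nil)))) .nil) (.X 0 (.c 48 (.c 35468714087369 (.c 24 (.c 16 .nil)))) .nil))))) (.node (.node (.node (.node (.X 0 (.c 15246236343241801 (.c 40 (.c 24 (.c 16 .nil)))) .nil) (.X 0 (.c 580749782704585 (.c 40 (.c 24 (.c 16 .nil)))) .nil)) (.node (.X 0 (.c 2306969673777850377 (.c 40 (.c 24 (.c 16 .nil)))) .nil) (.X 0 (.c 35473026505609 (.c 40 (.c 24 (.c 16 .nil)))) .nil))) (.node (.node (.X 0 (.c 59109062884628932489 (.c 40 (.c 24 (.c 16 .nil)))) .nil) (.X 0 (.c 48 (.c 12801 (.c 32 (.c 2803779 .nil)))) .nil)) (.node (.X 0 (.c 15246191640313993 (.c 40 (.c 24 (.c 16 .nil)))) .nil) (.X 0 (.c 48 (.c 3632040653488393 (.c 16 (.c 8 .nil)))) .nil)))) (.node (.node (.node (.X 0 (.c 59109071234951844553 (.c 40 (.c 24 (.c 16 .nil)))) .nil) (.X 0 (.c 48 (.c 35470870263689 (.c 24 (.c 16 .nil)))) .nil)) (.node (.X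 0 (.c 24 (.c 16 (.c 8 (.c 0 .nil)))) (.b 48 (.b 40 (.b 32 .nil)))) (.X 0 (.c 48 (.c 2306970223667989449 (.c 24 (.c 8 .nil)))) .nil))) (.node (.node (.X 0 (.c 48 (.c 13748193523587632009 (.c 24 (.c 8 .nil)))) .nil) (.X 0 (.c 48 (.c 2487083360649 (.c 32 (.c 24 .nil)))) .nil)) (.node (.X 0 (.c 48 (.c 2306971873338799881 (.c 24 (.c 8 .nil)))) .nil) (.X 0 (.c 48 (.c 13748196208362033929 (.c 24 (.c 8 .nil)))) .nil)))))))

noncomputable def c4_127 : Tr := (.node (.node (.node (.node (.node (.node (.X 0 (.c 48 (.c 9024942441010121 (.c 24 (.c 8 .nil)))) .nil) (.X 0 (.c 18433 (.c 21099139 (.c 32 (.c 8 .nil)))) .nil)) (.node (.X 0 (.c 48 (.c 59555558875529 (.c 32 (.c 16 .nil)))) .nil) (.X 0 (.c 9025011228269449 (.c 40 (.c 24 (.c 8 .nil)))) .nil))) (.node (.node (.X 0 (.c 59109065668069837705 (.c 40 (.c 24 (.c 8 .nil)))) .nil) (.X 0 (.c 15246191640314057 (.c 40 (.c 24 (.c 8 .nil)))) .nil))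 (.node (.X 0 (.c 48 (.c 231045293249046473 (.c 32 (.c 16 .nil)))) .nil) (.X 0 (.c 48 (.c 40 (.c 32 (.c 35464401931081 .nil)))) .nil)))) (.node (.node (.node (.X 0 (.c 48 (.c 20891715 (.c 8193 (.c 24 .nil)))) .nil) (.X 0 (.c 48 (.c 21307523 (.c 24 (.c 513 .nil)))) .nil)) (.node (.X 0 (.c 48 (.c 3561346121425033 (.c 32 (.c 16 .nil)))) .nil) (.X 0 (.c 43655299 (.c 12801 (.c 24 (.c 8 .nil)))) .nil))) (.node (.node (.X 0 (.c 48 (.c 13748192181200529225 (.c 32 (.c 16 .nil)))) .nil) (.X 0 (.c 48 (.c 13748193523587631817 (.c 32 (.c 24 .nil)))) .nil)) (.node (.X 0 (.c 48 (.c 21307523 (.c 4609 (.c 8 .nil)))) .nil) (.X 0 (.c 48 (.c 9024839260612553 (.c 32 (.c 24 .nil)))) .nil))))) (.node (.node (.node (.node (.X 0 (.c 48 (.c 3632084291164233 (.c 24 (.c 8 .nil)))) .nil) (.X 0 (.c 48 (.c 35464401931209 (.c 32 (.c 24 .nil)))) .nil)) (.node (.X 0 (.c 48 (.c 21307587 (.c 2049 (.c 8 .nil)))) .nil)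 (.X 0 (.c 14832759703961865 (.c 40 (.c 32 (.c 8 .nil)))) .nil))) (.node (.node (.X 0 (.c 48 (.c 40 (.c 35464401931145 (.c 24 .nil)))) .nil) (.X 0 (.c 48 (.c 40 (.c 2487083360585 (.c 24 .nil)))) .nil)) (.node (.X 0 (.c 48 (.c 13748193523587631945 (.c 32 (.c 8 .nil)))) .nil) (.X 0 (.c 48 (.c 13748194865974800137 (.c 32 (.c 8 .nil)))) .nil)))) (.node (.node (.node (.X 0 (.c 43059267 (.c 40 (.c 8193 (.c 24 .nil)))) .nil) (.X 0 (.c 9024908047478793 (.c 40 (.c 32 (.c 8 .nil)))) .nil)) (.node (.X 0 (.c 231045467270827017 (.c 40 (.c 32 (.c 8 .nil)))) .nil) (.X 0 (.c 48 (.c 12801 (.c 8786563 (.c 8 .nil)))) .nil))) (.node (.node (.X 0 (.c 59109068451510808265 (.c 40 (.c 32 (.c 16 .nil)))) .nil) (.X 0 (.c 231046163358603977 (.c 40 (.c 32 (.c 16 .nil)))) .nil)) (.node (.X 0 (.c 9025011228269385 (.c 40 (.c 32 (.c 8 .nil)))) .nil) (.X 0 (.c 59109062884628932425 (.c 40 (.c 32 (.c 16 .nil)))) .nil))))))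 (.node (.node (.node (.node (.node (.X 0 (.c 43059267 (.c 40 (.c 32 (.c 4609 .nil)))) .nil) (.X 0 (.c 59109065668069837641 (.c 40 (.c 32 (.c 8 .nil)))) .nil)) (.node (.X 0 (.c 48 (.c 40 (.c 35468714087241 (.c 16 .nil)))) .nil) (.X 0 (.c 48 (.c 12801 (.c 8786499 (.c 16 .nil)))) .nil))) (.node (.node (.X 0 (.c 48 (.c 40 (.c 231045293249046409 (.c 16 .nil)))) .nil) (.X 0 (.c 48 (.c 40 (.c 35466557976457 (.c 16 .nil)))) .nil)) (.node (.X 0 (.c 48 (.c 40 (.c 617620517416009 (.c 16 .nil)))) .nil) (.X 0 (.c 18433 (.c 40 (.c 8786499 (.c 16 .nil)))) .nil)))) (.node (.node (.node (.X 0 (.c 48 (.c 40 (.c 9024942441009865 (.c 24 .nil)))) .nil) (.X 0 (.c 48 (.c 40 (.c 2306969673777850121 (.c 24 .nil)))) .nil)) (.node (.X 0 (.c 48 (.c 3491688652046601 (.c 32 (.c 8 .nil)))) .nil) (.X 0 (.c 43059267 (.c 12801 (.c 32 (.c 24 .nil)))) .nil))) (.node (.node (.X 0 (.c 43655299 (.c 40 (.c 24 (.c 513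 .nil)))) .nil) (.X 0 (.c 18433 (.c 20891715 (.c 32 (.c 24 .nil)))) .nil)) (.node (.X 0 (.c 48 (.c 35466557976521 (.c 32 (.c 16 .nil)))) .nil) (.X 0 (.c 48 (.c 40 (.c 62886542410057 (.c 8 .nil)))) .nil))))) (.node (.node (.node (.node (.X 0 (.c 48 (.c 40 (.c 8193 (.c 2803779 .nil)))) .nil) (.X 0 (.c 43655235 (.c 12801 (.c 24 (.c 16 .nil)))) .nil)) (.node (.X 0 (.c 18433 (.c 21307523 (.c 24 (.c 8 .nil)))) .nil) (.X 0 (.c 18433 (.c 40 (.c 32 (.c 2803779 .nil)))) .nil))) (.node (.node (.X 0 (.c 48 (.c 40 (.c 32 (.c 2487083360521 .nil)))) .nil) (.X 0 (.c 48 (.c 40 (.c 32 (.c 62889413446729 .nil)))) .nil)) (.node (.X 0 (.c 48 (.c 40 (.c 9024942441009993 (.c 8 .nil)))) .nil) (.X 0 (.c 59555558875593 (.c 40 (.c 32 (.c 16 .nil)))) .nil)))) (.node (.node (.node (.X 0 (.c 2487083360713 (.c 40 (.c 32 (.c 24 .nil)))) .nil) (.X 0 (.c 9024839260612617 (.c 40 (.c 32 (.c 24 .nil)))) .nil)) (.node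 (.X 0 (.c 43655235 (.c 40 (.c 24 (.c 2049 .nil)))) .nil) (.X 0 (.c 14629225721520329 (.c 40 (.c 32 (.c 24 .nil)))) .nil))) (.node (.node (.X 0 (.c 48 (.c 21099075 (.c 32 (.c 2049 .nil)))) .nil) (.X 0 (.c 59109062884628932361 (.c 40 (.c 32 (.c 24 .nil)))) .nil)) (.node (.X 0 (.c 14832759703961737 (.c 40 (.c 32 (.c 24 .nil)))) .nil) (.X 0 (.c 18433 (.c 40 (.c 8652867 (.c 24 .nil)))) .nil)))))))

noncomputable def c4_128 : Tr := (.node (.node (.node (.node (.node (.node (.X 0 (.c 48 (.c 40 (.c 8786563 (.c 513 .nil)))) .nil) (.X 0 (.c 59109065668069837513 (.c 40 (.c 32 (.c 24 .nil)))) .nil)) (.node (.X 0 (.c 18433 (.c 40 (.c 8786563 (.c 8 .nil)))) .nil) (.X 0 (.c 48 (.c 12801 (.c 8652867 (.c 24 .nil)))) .nil))) (.node (.node (.X 0 (.c 43655235 (.c 40 (.c 4609 (.c 16 .nil)))) .nil) (.X 0 (.c 48 (.c 21307587 (.c 16 (.c 513 .nil)))) .nil)) (.node (.X 0 (.c 48 (.c 8520195 (.c 24 (.c 16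 .nil)))) (.b 40 .nil)) (.X 0 (.c 18497 (.c 32 (.c 24 (.c 16 .nil)))) (.l 12801 .nil))))) (.node (.node (.node (.X 0 (.c 48 (.c 32 (.c 24 (.c 557571 .nil)))) (.b 40 .nil)) (.X 0 (.c 48 (.c 32 (.c 24 (.c 33587273 .nil)))) (.b 40 .nil))) (.node (.X 0 (.c 48 (.c 32 (.c 2105545 (.c 16 .nil)))) (.b 40 .nil)) (.X 0 (.c 43954819 (.c 32 (.c 4609 (.c 8 .nil)))) .nil))) (.node (.node (.X 0 (.c 48 (.c 32 (.c 2803715 (.c 8 .nil)))) (.b 40 .nil)) (.X 0 (.c 48 (.c 32 (.c 33587401 (.c 8 .nil)))) (.b 40 .nil))) (.node (.X 0 (.c 48 (.c 40 (.c 8321 (.c 24 .nil)))) (.l 513 .nil)) (.X 0 (.c 48 (.c 32 (.c 2803779 (.c 0 .nil)))) (.b 40 .nil)))))) (.node (.node (.node (.node (.X 0 (.c 43954819 (.c 32 (.c 24 (.c 513 .nil)))) .nil) (.X 0 (.c 48 (.c 537002121 (.c 24 (.c 8 .nil)))) (.b 40 .nil))) (.node (.X 0 (.c 48 (.c 8652867 (.c 24 (.c 0 .nil)))) (.b 40 .nil)) (.X 0 (.c 48 (.c 8786435 (.c 16 (.c 8 .nil))))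 (.b 40 .nil)))) (.node (.node (.X 0 (.c 48 (.c 169943305 (.c 16 (.c 8 .nil)))) (.b 40 .nil)) (.X 0 (.c 48 (.c 537002185 (.c 16 (.c 8 .nil)))) (.b 40 .nil))) (.node (.X 0 (.c 48 (.c 8786499 (.c 16 (.c 0 .nil)))) (.b 40 .nil)) (.X 0 (.c 48 (.c 8786563 (.c 8 (.c 0 .nil)))) (.b 40 .nil))))) (.node (.node (.node (.X 0 (.c 43954947 (.c 24 (.c 8 (.c 0 .nil)))) (.b 16 .nil)) (.X 0 (.c 15456163896880201 (.c 32 (.c 24 (.c 16 .nil)))) .nil)) (.node (.X 0 (.c 48 (.c 32 (.c 24 (.c 16 .nil)))) (.l 2105673 .nil)) (.X 0 (.c 48 (.c 32 (.c 24 (.c 2049 .nil)))) (.b 8 (.b 40 .nil))))) (.node (.node (.X 0 (.c 48 (.c 32 (.c 24 (.c 2049 .nil)))) (.b 40 (.b 8 .nil))) (.X 0 (.c 48 (.c 8193 (.c 24 (.c 16 .nil)))) (.b 8 (.b 40 .nil)))) (.node (.X 0 (.c 18433 (.c 32 (.c 24 (.c 16 .nil)))) (.b 8 (.b 40 .nil))) (.X 0 (.c 18433 (.c 32 (.c 24 (.c 16 .nil)))) (.b 40 (.b 8 .nil)))))))) (.node (.node (.node (.node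 (.node (.X 0 (.c 48 (.c 32 (.c 24 (.c 2113 .nil)))) (.l 12801 .nil)) (.X 0 (.c 13748192181200529417 (.c 32 (.c 24 (.c 16 .nil)))) .nil)) (.node (.X 0 (.c 35473026505673 (.c 32 (.c 24 (.c 16 .nil)))) .nil) (.X 0 (.c 59109062884628932553 (.c 32 (.c 24 (.c 16 .nil)))) .nil))) (.node (.node (.X 0 (.c 15456118887243913 (.c 32 (.c 24 (.c 16 .nil)))) .nil) (.X 0 (.c 13748198893136698057 (.c 32 (.c 24 (.c 16 .nil)))) .nil)) (.node (.X 0 (.c 59109074018392946377 (.c 32 (.c 24 (.c 16 .nil)))) .nil) (.X 0 (.c 48 (.c 32 (.c 4673 (.c 16 .nil)))) (.l 12801 .nil))))) (.node (.node (.node (.X 0 (.c 48 (.c 8257 (.c 24 (.c 16 .nil)))) (.l 12801 .nil)) (.X 0 (.c 48 (.c 12929 (.c 32 (.c 24 .nil)))) (.l 513 .nil))) (.node (.X 0 (.c 13748198893136698121 (.c 32 (.c 24 (.c 8 .nil)))) .nil) (.X 0 (.c 48 (.c 40 (.c 16 (.c 0 .nil)))) (.b 8 (.b 32 (.b 24 .nil)))))) (.node (.node (.X 0 (.c 48 (.c 40 (.c 16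 (.c 0 .nil)))) (.b 32 (.b 8 (.b 24 .nil)))) (.X 0 (.c 48 (.c 40 (.c 16 (.c 0 .nil)))) (.b 32 (.b 24 (.b 8 .nil))))) (.node (.X 0 (.c 2718204169 (.c 40 (.c 24 (.c 8 .nil)))) (.b 16 .nil)) (.X 0 (.c 15456208906582089 (.c 32 (.c 24 (.c 8 .nil)))) .nil))))) (.node (.node (.node (.node (.X 0 (.c 9024976834607113 (.c 32 (.c 24 (.c 8 .nil)))) .nil) (.X 0 (.c 9025011228269513 (.c 32 (.c 24 (.c 8 .nil)))) .nil)) (.node (.X 0 (.c 59109065668069837769 (.c 32 (.c 24 (.c 8 .nil)))) .nil) (.X 0 (.c 43655363 (.c 40 (.c 8 (.c 0 .nil)))) (.b 16 .nil)))) (.node (.node (.X 0 (.c 59109074018392946441 (.c 32 (.c 24 (.c 8 .nil)))) .nil) (.X 0 (.c 537002377 (.c 40 (.c 24 (.c 8 .nil)))) (.b 16 .nil))) (.node (.X 0 (.c 43655171 (.c 40 (.c 24 (.c 8 .nil)))) (.b 16 .nil)) (.X 0 (.c 48 (.c 40 (.c 16 (.c 8 .nil)))) (.b 24 (.l 8193 .nil)))))) (.node (.node (.node (.X 0 (.c 48 (.c 40 (.c 16 (.c 8 .nil)))) (.b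 32 (.l 4609 .nil))) (.X 0 (.c 48 (.c 40 (.c 16 (.c 8 .nil)))) (.l 537002185 .nil))) (.node (.X 0 (.c 48 (.c 40 (.c 16 (.c 513 .nil)))) (.b 32 (.b 24 .nil))) (.X 0 (.c 48 (.c 40 (.c 2049 (.c 8 .nil)))) (.b 24 (.b 32 .nil))))) (.node (.node (.X 0 (.c 48 (.c 40 (.c 2049 (.c 8 .nil)))) (.b 32 (.b 24 .nil))) (.X 0 (.c 43356803 (.c 32 (.c 8 (.c 0 .nil)))) (.b 40 .nil))) (.node (.X 0 (.c 43954883 (.c 32 (.c 8 (.c 0 .nil)))) (.b 16 .nil)) (.X 0 (.c 2718203977 (.c 32 (.c 24 (.c 16 .nil)))) (.b 40 .nil))))))))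

noncomputable def c4_129 : Tr := (.node (.node (.node (.node (.node (.node (.X 0 (.c 43059267 (.c 32 (.c 24 (.c 0 .nil)))) (.b 40 .nil)) (.X 0 (.c 169943433 (.c 32 (.c 16 (.c 8 .nil)))) (.b 40 .nil))) (.node (.X 0 (.c 2718204233 (.c 32 (.c 24 (.c 8 .nil)))) (.b 16 .nil)) (.X 0 (.c 1310925193 (.c 32 (.c 24 (.c 8 .nil)))) (.b 16 .nil)))) (.node (.node (.X 0 (.c 2718204105 (.c 32 (.c 16 (.c 8 .nil)))) (.b 40 .nil)) (.X 0 (.c 43356739 (.c 32 (.c 16 (.c 0 .nil)))) (.b 40 .nil))) (.node (.X 0 (.c 43655235 (.c 24 (.c 16 (.c 0 .nil)))) (.b 40 .nil)) (.X 0 (.c 43655299 (.c 24 (.c 8 (.c 0 .nil)))) (.b 40 .nil))))) (.node (.node (.node (.X 0 (.c 43655363 (.c 16 (.c 8 (.c 0 .nil)))) (.b 40 .nil)) (.X 0 (.c 48 (.c 40 (.c 8 (.c 0 .nil)))) (.b 16 (.b 24 (.b 32 .nil))))) (.node (.X 0 (.c 48 (.c 40 (.c 8 (.c 0 .nil)))) (.b 16 (.b 32 (.b 24 .nil)))) (.X 0 (.c 48 (.c 40 (.c 8 (.c 0 .nil)))) (.b 24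 (.b 16 (.b 32 .nil)))))) (.node (.node (.X 0 (.c 48 (.c 40 (.c 8 (.c 0 .nil)))) (.b 32 (.b 16 (.b 24 .nil)))) (.X 0 (.c 48 (.c 40 (.c 8 (.c 0 .nil)))) (.b 8786563 .nil))) (.node (.X 0 (.c 48 (.c 4609 (.c 16 (.c 8 .nil)))) (.b 40 (.b 32 .nil))) (.X 0 (.c 48 (.c 24 (.c 16 (.c 8 .nil)))) (.l 1310925065 .nil)))))) (.node (.node (.node (.node (.X 0 (.c 48 (.c 24 (.c 16 (.c 513 .nil)))) (.b 32 (.b 40 .nil))) (.X 0 (.c 48 (.c 24 (.c 16 (.c 513 .nil)))) (.b 40 (.b 32 .nil)))) (.node (.X 0 (.c 48 (.c 24 (.c 2049 (.c 8 .nil)))) (.b 40 (.b 32 .nil))) (.X 0 (.c 48 (.c 4609 (.c 16 (.c 8 .nil)))) (.b 32 (.b 40 .nil))))) (.node (.node (.X 0 (.c 18433 (.c 24 (.c 16 (.c 8 .nil)))) (.b 32 (.b 40 .nil))) (.X 0 (.c 48 (.c 32 (.c 8 (.c 0 .nil)))) (.b 16 (.b 24 (.b 40 .nil))))) (.node (.X 0 (.c 48 (.c 21099139 (.c 32 (.c 0 .nil)))) (.b 8 .nil)) (.X 0 (.c 48 (.c 32 (.c 8 (.c 0 .nil)))) (.b 16 (.b 40 (.b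 24 .nil))))))) (.node (.node (.node (.X 0 (.c 48 (.c 1310925001 (.c 32 (.c 16 .nil)))) (.b 8 .nil)) (.X 0 (.c 48 (.c 169943369 (.c 32 (.c 16 .nil)))) (.b 8 .nil))) (.node (.X 0 (.c 48 (.c 32 (.c 8 (.c 0 .nil)))) (.b 40 (.b 16 (.b 24 .nil)))) (.X 0 (.c 48 (.c 32 (.c 16 (.c 0 .nil)))) (.b 8 (.b 40 (.b 24 .nil)))))) (.node (.node (.X 0 (.c 21099075 (.c 32 (.c 16 (.c 0 .nil)))) (.b 48 .nil)) (.X 0 (.c 21307395 (.c 24 (.c 16 (.c 8 .nil)))) (.b 48 .nil))) (.node (.X 0 (.c 537002313 (.c 24 (.c 16 (.c 8 .nil)))) (.b 48 .nil)) (.X 0 (.c 1310925065 (.c 24 (.c 16 (.c 8 .nil)))) (.b 48 .nil))))))) (.node (.node (.node (.node (.node (.X 0 (.c 48 (.c 16 (.c 8 (.c 0 .nil)))) (.b 32 (.b 24 (.b 40 .nil)))) (.X 0 (.c 48 (.c 16 (.c 8 (.c 0 .nil)))) (.b 40 (.b 24 (.b 32 .nil))))) (.node (.X 0 (.c 48 (.c 16 (.c 8 (.c 0 .nil)))) (.b 21307587 .nil)) (.X 0 (.c 48 (.c 24 (.c 8 (.c 0 .nil)))) (.b 16 (.b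 40 (.b 32 .nil)))))) (.node (.node (.X 0 (.c 48 (.c 24 (.c 8 (.c 0 .nil)))) (.b 21307523 .nil)) (.X 0 (.c 48 (.c 24 (.c 16 (.c 0 .nil)))) (.b 32 (.b 8 (.b 40 .nil))))) (.node (.X 0 (.c 48 (.c 21307587 (.c 16 (.c 0 .nil)))) (.b 8 .nil)) (.X 0 (.c 48 (.c 32 (.c 24 (.c 0 .nil)))) (.b 16 (.b 40 (.b 8 .nil))))))) (.node (.node (.node (.X 0 (.c 48 (.c 32 (.c 24 (.c 0 .nil)))) (.b 40 (.b 16 (.b 8 .nil)))) (.X 0 (.c 48 (.c 40 (.c 32 (.c 169943177 .nil)))) (.b 8 .nil))) (.node (.X 0 (.c 48 (.c 40 (.c 32 (.c 33587401 .nil)))) (.b 8 .nil)) (.X 0 (.c 48 (.c 40 (.c 32 (.c 2803715 .nil)))) (.b 8 .nil)))) (.node (.node (.X 0 (.c 48 (.c 32 (.c 24 (.c 8 .nil)))) (.b 40 (.l 2049 .nil))) (.X 0 (.c 48 (.c 32 (.c 24 (.c 8 .nil)))) (.l 1310924937 .nil))) (.node (.X 0 (.c 43954755 (.c 8193 (.c 24 (.c 16 .nil)))) .nil) (.X 0 (.c 48 (.c 32 (.c 4609 (.c 8 .nil)))) (.b 16 (.b 40 .nil))))))) (.node (.node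 (.node (.node (.X 0 (.c 48 (.c 8193 (.c 24 (.c 8 .nil)))) (.b 16 (.b 40 .nil))) (.X 0 (.c 48 (.c 8193 (.c 24 (.c 8 .nil)))) (.b 40 (.b 16 .nil)))) (.node (.X 0 (.c 18433 (.c 32 (.c 24 (.c 8 .nil)))) (.b 40 (.b 16 .nil))) (.X 0 (.c 48 (.c 32 (.c 24 (.c 16 .nil)))) (.l 8 (.l 12801 .nil))))) (.node (.node (.X 0 (.c 48 (.c 32 (.c 16 (.c 513 .nil)))) (.b 40 (.b 24 .nil))) (.X 0 (.c 48 (.c 1310924937 (.c 32 (.c 24 .nil)))) (.b 8 .nil))) (.node (.X 0 (.c 48 (.c 32 (.c 16 (.c 0 .nil)))) (.b 40 (.b 8 (.b 24 .nil)))) (.X 0 (.c 48 (.c 32 (.c 16 (.c 0 .nil)))) (.b 21099075 .nil))))) (.node (.node (.node (.X 0 (.c 48 (.c 32 (.c 16 (.c 8 .nil)))) (.l 169943369 .nil)) (.X 0 (.c 48 (.c 32 (.c 16 (.c 513 .nil)))) (.b 24 (.b 40 .nil)))) (.node (.X 0 (.c 48 (.c 12801 (.c 16 (.c 8 .nil)))) (.b 24 (.b 32 .nil))) (.X 0 (.c 43954755 (.c 32 (.c 24 (.c 2049 .nil)))) .nil))) (.node (.node (.X 0 (.c 48 (.c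 8193 (.c 16 (.c 8 .nil)))) (.b 24 (.b 40 .nil))) (.X 0 (.c 48 (.c 40 (.c 8786563 (.c 0 .nil)))) (.b 8 .nil))) (.node (.X 0 (.c 48 (.c 8193 (.c 16 (.c 8 .nil)))) (.b 40 (.b 24 .nil))) (.X 0 (.c 48 (.c 40 (.c 8786435 (.c 16 .nil)))) (.b 8 .nil))))))))

noncomputable def c4_130 : Tr := (.node (.node (.node (.node (.node (.node (.X 0 (.c 18433 (.c 32 (.c 16 (.c 8 .nil)))) (.b 40 (.b 24 .nil))) (.X 0 (.c 48 (.c 40 (.c 537002121 (.c 24 .nil)))) (.b 8 .nil))) (.node (.X 0 (.c 43954755 (.c 32 (.c 4609 (.c 16 .nil)))) .nil) (.X 0 (.c 48 (.c 40 (.c 33587465 (.c 24 .nil)))) (.b 8 .nil)))) (.node (.node (.X 0 (.c 18433 (.c 40 (.c 32 (.c 16 .nil)))) (.b 24 (.b 8 .nil))) (.X 0 (.c 48 (.c 40 (.c 32 (.c 16 .nil)))) (.b 24 (.l 513 .nil)))) (.node (.X 0 (.c 48 (.c 40 (.c 32 (.c 16 .nil)))) (.l 4673 (.l 0 .nil))) (.X 0 (.c 48 (.c 40 (.c 32 (.c 16 .nil)))) (.l 2105545 .nil))))) (.node (.node (.node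 (.X 0 (.c 48 (.c 40 (.c 32 (.c 16 .nil)))) (.l 169943113 .nil)) (.X 0 (.c 48 (.c 40 (.c 32 (.c 2049 .nil)))) (.b 24 (.b 8 .nil)))) (.node (.X 0 (.c 48 (.c 40 (.c 8193 (.c 16 .nil)))) (.b 8 (.b 24 .nil))) (.X 0 (.c 48 (.c 40 (.c 8193 (.c 16 .nil)))) (.b 24 (.b 8 .nil))))) (.node (.node (.X 0 (.c 48 (.c 12801 (.c 32 (.c 16 .nil)))) (.b 24 (.b 8 .nil))) (.X 0 (.c 18433 (.c 40 (.c 32 (.c 16 .nil)))) (.b 8 (.b 24 .nil)))) (.node (.X 0 (.c 18497 (.c 40 (.c 32 (.c 24 .nil)))) (.l 2049 .nil)) (.X 0 (.c 48 (.c 12865 (.c 32 (.c 24 .nil)))) (.l 2049 .nil)))))) (.node (.node (.node (.node (.X 0 (.c 2306971873338800137 (.c 24 (.c 16 (.c 8 .nil)))) .nil) (.X 0 (.c 15246191640314249 (.c 24 (.c 16 (.c 8 .nil)))) .nil)) (.node (.X 0 (.c 59109074018392946569 (.c 24 (.c 16 (.c 8 .nil)))) .nil) (.X 0 (.c 48 (.c 40 (.c 32 (.c 2113 .nil)))) (.l 4609 .nil)))) (.node (.node (.X 0 (.c 48 (.c 40 (.c 537002057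 (.c 24 .nil)))) (.b 16 .nil)) (.X 0 (.c 48 (.c 40 (.c 2105609 (.c 24 .nil)))) (.b 16 .nil))) (.node (.X 0 (.c 48 (.c 40 (.c 8520195 (.c 24 .nil)))) (.b 16 .nil)) (.X 0 (.c 43954883 (.c 16 (.c 8 (.c 0 .nil)))) (.b 32 .nil))))) (.node (.node (.node (.X 0 (.c 48 (.c 40 (.c 32 (.c 0 .nil)))) (.b 24 (.b 8 (.b 16 .nil)))) (.X 0 (.c 48 (.c 40 (.c 32 (.c 169943113 .nil)))) (.b 16 .nil))) (.node (.X 0 (.c 48 (.c 40 (.c 32 (.c 0 .nil)))) (.b 2803779 .nil)) (.X 0 (.c 48 (.c 40 (.c 8257 (.c 16 .nil)))) (.l 4609 .nil)))) (.node (.node (.X 0 (.c 48 (.c 40 (.c 32 (.c 8 .nil)))) (.b 16 (.l 4609 .nil))) (.X 0 (.c 48 (.c 40 (.c 32 (.c 8 .nil)))) (.b 24 (.l 2049 .nil)))) (.node (.X 0 (.c 48 (.c 40 (.c 32 (.c 8 .nil)))) (.l 169943177 .nil)) (.X 0 (.c 48 (.c 40 (.c 32 (.c 513 .nil)))) (.b 16 (.b 24 .nil)))))))) (.node (.node (.node (.node (.node (.X 0 (.c 48 (.c 40 (.c 32 (.c 513 .nil)))) (.b 24 (.b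 16 .nil))) (.X 0 (.c 48 (.c 12801 (.c 32 (.c 8 .nil)))) (.b 16 (.b 24 .nil)))) (.node (.X 0 (.c 48 (.c 12801 (.c 32 (.c 8 .nil)))) (.b 24 (.b 16 .nil))) (.X 0 (.c 18433 (.c 40 (.c 32 (.c 8 .nil)))) (.b 16 (.b 24 .nil))))) (.node (.node (.X 0 (.c 18433 (.c 40 (.c 32 (.c 8 .nil)))) (.b 24 (.b 16 .nil))) (.X 0 (.c 2718204233 (.c 32 (.c 16 (.c 8 .nil)))) (.b 24 .nil))) (.node (.X 0 (.c 18433 (.c 40 (.c 32 (.c 24 .nil)))) (.b 8 (.b 16 .nil))) (.X 0 (.c 33587593 (.c 40 (.c 32 (.c 8 .nil)))) (.b 24 .nil))))) (.node (.node (.node (.X 0 (.c 43059267 (.c 40 (.c 32 (.c 0 .nil)))) (.b 24 .nil)) (.X 0 (.c 537002377 (.c 40 (.c 16 (.c 8 .nil)))) (.b 24 .nil))) (.node (.X 0 (.c 1310925193 (.c 32 (.c 16 (.c 8 .nil)))) (.b 24 .nil)) (.X 0 (.c 42762755 (.c 40 (.c 32 (.c 16 .nil)))) (.b 24 .nil)))) (.node (.node (.X 0 (.c 48 (.c 40 (.c 32 (.c 24 .nil)))) (.l 16 (.l 513 .nil))) (.X 0 (.c 48 (.c 40 (.c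 32 (.c 24 .nil)))) (.l 33587273 .nil))) (.node (.X 0 (.c 48 (.c 40 (.c 32 (.c 4609 .nil)))) (.b 8 (.b 16 .nil))) (.X 0 (.c 48 (.c 12801 (.c 32 (.c 24 .nil)))) (.b 16 (.b 8 .nil))))))) (.node (.node (.node (.node (.X 0 (.c 48 (.c 40 (.c 8193 (.c 24 .nil)))) (.b 16 (.b 8 .nil))) (.X 0 (.c 48 (.c 40 (.c 33587465 (.c 8 .nil)))) (.b 24 .nil))) (.node (.X 0 (.c 48 (.c 12865 (.c 32 (.c 16 .nil)))) (.l 4609 .nil)) (.X 0 (.c 48 (.c 40 (.c 32 (.c 4673 .nil)))) (.l 2049 .nil)))) (.node (.node (.X 0 (.c 48 (.c 40 (.c 8520195 (.c 16 .nil)))) (.b 24 .nil)) (.X 0 (.c 48 (.c 40 (.c 2105609 (.c 16 .nil)))) (.b 24 .nil))) (.node (.X 0 (.c 48 (.c 40 (.c 8652803 (.c 8 .nil)))) (.b 24 .nil)) (.X 0 (.c 43954819 (.c 24 (.c 8 (.c 0 .nil)))) (.b 32 .nil))))) (.node (.node (.node (.X 0 (.c 48 (.c 40 (.c 537002121 (.c 8 .nil)))) (.b 24 .nil)) (.X 0 (.c 48 (.c 40 (.c 8652867 (.c 0 .nil)))) (.b 24 .nil))) (.node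 (.X 0 (.c 48 (.c 1310924873 (.c 32 (.c 16 .nil)))) (.b 24 .nil)) (.X 0 (.c 48 (.c 33587529 (.c 32 (.c 8 .nil)))) (.b 24 .nil)))) (.node (.node (.X 0 (.c 48 (.c 20891715 (.c 32 (.c 0 .nil)))) (.b 24 .nil)) (.X 0 (.c 48 (.c 21307395 (.c 16 (.c 8 .nil)))) (.b 24 .nil))) (.node (.X 0 (.c 48 (.c 1310925065 (.c 16 (.c 8 .nil)))) (.b 24 .nil)) (.X 0 (.c 48 (.c 21307459 (.c 16 (.c 0 .nil)))) (.b 24 .nil))))))))

noncomputable def c4_131 : Tr := (.node (.node (.node (.node (.node (.node (.X 0 (.c 48 (.c 12801 (.c 24 (.c 16 .nil)))) (.b 8 (.b 32 .nil))) (.X 0 (.c 48 (.c 12801 (.c 24 (.c 8 .nil)))) (.b 16 (.b 32 .nil)))) (.node (.X 0 (.c 18433 (.c 40 (.c 24 (.c 8 .nil)))) (.b 16 (.b 32 .nil))) (.X 0 (.c 48 (.c 40 (.c 24 (.c 16 .nil)))) (.l 8 (.l 8193 .nil))))) (.node (.node (.X 0 (.c 48 (.c 40 (.c 24 (.c 16 .nil)))) (.b 32 (.l 513 .nil))) (.X 0 (.c 48 (.c 40 (.c 24 (.c 16 .nil)))) (.l 8257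 (.l 0 .nil)))) (.node (.X 0 (.c 48 (.c 40 (.c 24 (.c 16 .nil)))) (.l 2105609 .nil)) (.X 0 (.c 48 (.c 40 (.c 24 (.c 16 .nil)))) (.l 537002057 .nil))))) (.node (.node (.node (.X 0 (.c 48 (.c 40 (.c 24 (.c 2049 .nil)))) (.b 8 (.b 32 .nil))) (.X 0 (.c 48 (.c 40 (.c 24 (.c 2049 .nil)))) (.b 32 (.b 8 .nil)))) (.node (.X 0 (.c 48 (.c 40 (.c 4609 (.c 16 .nil)))) (.b 32 (.b 8 .nil))) (.X 0 (.c 48 (.c 40 (.c 4609 (.c 8 .nil)))) (.b 32 (.b 16 .nil))))) (.node (.node (.X 0 (.c 48 (.c 12801 (.c 24 (.c 16 .nil)))) (.b 32 (.b 8 .nil))) (.X 0 (.c 18433 (.c 40 (.c 24 (.c 16 .nil)))) (.b 32 (.b 8 .nil)))) (.node (.X 0 (.c 48 (.c 40 (.c 4673 (.c 16 .nil)))) (.l 8193 .nil)) (.X 0 (.c 15456253916349513 (.c 32 (.c 16 (.c 8 .nil)))) .nil))))) (.node (.node (.node (.node (.X 0 (.c 3561346121425353 (.c 32 (.c 16 (.c 8 .nil)))) .nil) (.X 0 (.c 13748194865974800393 (.c 32 (.c 16 (.c 8 .nil)))) .nil)) (.node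 (.X 0 (.c 15038410136445321 (.c 32 (.c 16 (.c 8 .nil)))) .nil) (.X 0 (.c 231046163358604233 (.c 32 (.c 16 (.c 8 .nil)))) .nil))) (.node (.node (.X 0 (.c 18433 (.c 40 (.c 16 (.c 8 .nil)))) (.b 24 (.b 32 .nil))) (.X 0 (.c 43356739 (.c 40 (.c 32 (.c 0 .nil)))) (.b 16 .nil))) (.node (.X 0 (.c 43954883 (.c 32 (.c 16 (.c 513 .nil)))) .nil) (.X 0 (.c 169943433 (.c 40 (.c 32 (.c 8 .nil)))) (.b 16 .nil))))) (.node (.node (.node (.X 0 (.c 48 (.c 40 (.c 24 (.c 0 .nil)))) (.b 16 (.b 8 (.b 32 .nil)))) (.X 0 (.c 59109068451510808521 (.c 32 (.c 16 (.c 8 .nil)))) .nil)) (.node (.X 0 (.c 48 (.c 40 (.c 24 (.c 8 .nil)))) (.l 33587465 .nil)) (.X 0 (.c 2105737 (.c 40 (.c 32 (.c 24 .nil)))) (.b 16 .nil)))) (.node (.node (.X 0 (.c 48 (.c 40 (.c 4609 (.c 8 .nil)))) (.b 16 (.b 32 .nil))) (.X 0 (.c 48 (.c 169943369 (.c 16 (.c 8 .nil)))) (.b 32 .nil))) (.node (.X 0 (.c 43954947 (.c 24 (.c 16 (.c 513 .nil))))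 .nil) (.X 0 (.c 33587593 (.c 40 (.c 24 (.c 8 .nil)))) (.b 32 .nil))))))) (.node (.node (.node (.node (.node (.X 0 (.c 43356675 (.c 40 (.c 16 (.c 8 .nil)))) (.b 32 .nil)) (.X 0 (.c 169943433 (.c 40 (.c 16 (.c 8 .nil)))) (.b 32 .nil))) (.node (.X 0 (.c 2718204105 (.c 40 (.c 16 (.c 8 .nil)))) (.b 32 .nil)) (.X 0 (.c 43356739 (.c 40 (.c 16 (.c 0 .nil)))) (.b 32 .nil)))) (.node (.node (.X 0 (.c 48 (.c 40 (.c 8786499 (.c 0 .nil)))) (.b 16 .nil)) (.X 0 (.c 43954691 (.c 24 (.c 16 (.c 8 .nil)))) (.b 32 .nil))) (.node (.X 0 (.c 1310925193 (.c 24 (.c 16 (.c 8 .nil)))) (.b 32 .nil)) (.X 0 (.c 43954755 (.c 24 (.c 16 (.c 0 .nil)))) (.b 32 .nil))))) (.node (.node (.node (.X 0 (.c 48 (.c 40 (.c 169943113 (.c 16 .nil)))) (.b 32 .nil)) (.X 0 (.c 18497 (.c 40 (.c 24 (.c 16 .nil)))) (.l 8193 .nil))) (.node (.X 0 (.c 48 (.c 40 (.c 24 (.c 557571 .nil)))) (.b 32 .nil)) (.X 0 (.c 48 (.c 40 (.c 24 (.c 2105481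 .nil)))) (.b 32 .nil)))) (.node (.node (.X 0 (.c 48 (.c 40 (.c 24 (.c 33587273 .nil)))) (.b 32 .nil)) (.X 0 (.c 48 (.c 40 (.c 2728451 (.c 16 .nil)))) (.b 32 .nil))) (.node (.X 0 (.c 32 (.c 16 (.c 8 (.c 0 .nil)))) (.b 24 (.b 48 (.b 40 .nil)))) (.X 0 (.c 48 (.c 40 (.c 33587401 (.c 8 .nil)))) (.b 32 .nil)))))) (.node (.node (.node (.node (.X 0 (.c 48 (.c 40 (.c 169943177 (.c 8 .nil)))) (.b 32 .nil)) (.X 0 (.c 48 (.c 40 (.c 2803779 (.c 0 .nil)))) (.b 32 .nil))) (.node (.X 0 (.c 48 (.c 20685315 (.c 24 (.c 16 .nil)))) (.b 32 .nil)) (.X 0 (.c 48 (.c 1310925001 (.c 32 (.c 8 .nil)))) (.b 16 .nil)))) (.node (.node (.X 0 (.c 48 (.c 169943369 (.c 32 (.c 8 .nil)))) (.b 16 .nil)) (.X 0 (.c 48 (.c 1310924873 (.c 24 (.c 16 .nil)))) (.b 32 .nil))) (.node (.X 0 (.c 48 (.c 33587529 (.c 24 (.c 8 .nil)))) (.b 32 .nil)) (.X 0 (.c 40 (.c 24 (.c 8 (.c 0 .nil)))) (.b 43655299 .nil))))) (.node (.node (.node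 (.X 0 (.c 40 (.c 24 (.c 8 (.c 0 .nil)))) (.b 16 (.b 48 (.b 32 .nil)))) (.X 0 (.c 2718204169 (.c 40 (.c 24 (.c 16 .nil)))) (.b 8 .nil))) (.node (.X 0 (.c 40 (.c 32 (.c 16 (.c 8 .nil)))) (.b 24 (.l 18433 .nil))) (.X 0 (.c 40 (.c 32 (.c 24 (.c 16 .nil)))) (.l 2718203977 .nil)))) (.node (.node (.X 0 (.c 40 (.c 32 (.c 24 (.c 16 .nil)))) (.l 2105737 .nil)) (.X 0 (.c 8193 (.c 24 (.c 16 (.c 8 .nil)))) (.b 40 (.b 48 .nil)))) (.node (.X 0 (.c 32 (.c 4609 (.c 16 (.c 8 .nil)))) (.b 40 (.b 48 .nil))) (.X 0 (.c 40 (.c 32 (.c 16 (.c 513 .nil)))) (.b 24 (.b 48 .nil)))))))))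

noncomputable def c4_132 : Tr := (.node (.node (.node (.node (.node (.node (.X 0 (.c 40 (.c 32 (.c 16 (.c 8 .nil)))) (.l 2718204105 .nil)) (.X 0 (.c 40 (.c 16 (.c 8 (.c 0 .nil)))) (.b 43655363 .nil))) (.node (.X 0 (.c 40 (.c 24 (.c 16 (.c 8 .nil)))) (.l 2718204169 .nil)) (.X 0 (.c 40 (.c 32 (.c 4673 (.c 16 .nil)))) (.l 18433 .nil)))) (.node (.node (.X 0 (.c 12865 (.c 32 (.c 24 (.c 16 .nil)))) (.l 18433 .nil)) (.X 0 (.c 40 (.c 32 (.c 16 (.c 0 .nil)))) (.b 8 (.b 48 (.b 24 .nil))))) (.node (.X 0 (.c 40 (.c 32 (.c 8 (.c 0 .nil)))) (.b 24 (.b 48 (.b 16 .nil)))) (.X 0 (.c 32 (.c 24 (.c 8 (.c 0 .nil)))) (.b 16 (.b 48 (.b 40 .nil))))))) (.node (.node (.node (.X 0 (.c 43655363 (.c 40 (.c 16 (.c 513 .nil)))) .nil) (.X 0 (.c 32 (.c 24 (.c 16 (.c 0 .nil)))) (.b 8 (.b 40 (.b 48 .nil))))) (.node (.X 0 (.c 43954883 (.c 32 (.c 16 (.c 0 .nil)))) (.b 8 .nil)) (.X 0 (.c 32 (.c 24 (.c 16 (.c 8 .nil))))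 (.l 1310925193 .nil)))) (.node (.node (.X 0 (.c 40 (.c 32 (.c 24 (.c 16 .nil)))) (.l 18497 (.l 0 .nil))) (.X 0 (.c 40 (.c 32 (.c 24 (.c 16 .nil)))) (.l 8 (.l 18433 .nil)))) (.node (.X 1 (.c 48 (.c 2049 (.c 32 (.c 24 (.c 40 .nil))))) (.b 8 .nil)) (.X 1 (.c 48 (.c 12801 (.c 32 (.c 16 (.c 24 .nil))))) (.b 8 .nil)))))) (.node (.node (.node (.node (.X 1 (.c 48 (.c 12801 (.c 32 (.c 24 (.c 16 .nil))))) (.b 8 .nil)) (.X 1 (.c 48 (.c 2049 (.c 40 (.c 24 (.c 32 .nil))))) (.b 8 .nil))) (.node (.X 1 (.c 32 (.c 24 (.c 16 (.c 513 (.c 48 .nil))))) (.b 40 .nil)) (.X 1 (.c 18433 (.c 32 (.c 24 (.c 16 (.c 40 .nil))))) (.b 8 .nil)))) (.node (.node (.X 1 (.c 48 (.c 16 (.c 40 (.c 4609 (.c 32 .nil))))) (.b 8 .nil)) (.X 1 (.c 32 (.c 4609 (.c 16 (.c 8 (.c 48 .nil))))) (.b 40 .nil))) (.node (.X 1 (.c 8193 (.c 8 (.c 24 (.c 16 (.c 48 .nil))))) (.b 40 .nil)) (.X 1 (.c 8193 (.c 16 (.c 24 (.c 8 (.c 48 .nil)))))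 (.b 40 .nil))))) (.node (.node (.node (.X 1 (.c 48 (.c 16 (.c 40 (.c 8193 (.c 24 .nil))))) (.b 8 .nil)) (.X 1 (.c 48 (.c 4609 (.c 40 (.c 16 (.c 32 .nil))))) (.b 8 .nil))) (.node (.X 1 (.c 48 (.c 4609 (.c 40 (.c 32 (.c 16 .nil))))) (.b 8 .nil)) (.X 1 (.c 32 (.c 513 (.c 24 (.c 16 (.c 48 .nil))))) (.b 40 .nil)))) (.node (.node (.X 1 (.c 48 (.c 513 (.c 24 (.c 16 (.c 40 .nil))))) (.b 32 .nil)) (.X 1 (.c 48 (.c 16 (.c 4609 (.c 8 (.c 40 .nil))))) (.b 32 .nil))) (.node (.X 1 (.c 18433 (.c 16 (.c 24 (.c 8 (.c 40 .nil))))) (.b 32 .nil)) (.X 1 (.c 48 (.c 8 (.c 40 (.c 2049 (.c 24 .nil))))) (.b 32 .nil))))))) (.node (.node (.node (.node (.node (.X 1 (.c 48 (.c 8 (.c 4609 (.c 16 (.c 40 .nil))))) (.b 32 .nil)) (.X 1 (.c 48 (.c 8 (.c 12801 (.c 16 (.c 24 .nil))))) (.b 32 .nil))) (.node (.X 1 (.c 48 (.c 8 (.c 12801 (.c 24 (.c 16 .nil))))) (.b 32 .nil)) (.X 1 (.c 48 (.c 8 (.c 40 (.c 4609 (.c 16 .nil)))))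 (.b 32 .nil)))) (.node (.node (.X 1 (.c 48 (.c 40 (.c 2049 (.c 8 (.c 32 .nil))))) (.b 24 .nil)) (.X 1 (.c 48 (.c 32 (.c 12801 (.c 8 (.c 16 .nil))))) (.b 24 .nil))) (.node (.X 1 (.c 48 (.c 8193 (.c 40 (.c 8 (.c 16 .nil))))) (.b 24 .nil)) (.X 1 (.c 48 (.c 40 (.c 16 (.c 513 (.c 32 .nil))))) (.b 24 .nil))))) (.node (.node (.node (.X 1 (.c 48 (.c 40 (.c 32 (.c 513 (.c 16 .nil))))) (.b 24 .nil)) (.X 1 (.c 48 (.c 40 (.c 8193 (.c 8 (.c 16 .nil))))) (.b 24 .nil))) (.node (.X 1 (.c 48 (.c 40 (.c 8193 (.c 16 (.c 8 .nil))))) (.b 24 .nil)) (.X 1 (.c 48 (.c 12801 (.c 32 (.c 8 (.c 16 .nil))))) (.b 24 .nil)))) (.node (.node (.X 1 (.c 18433 (.c 8 (.c 40 (.c 16 (.c 32 .nil))))) (.b 24 .nil)) (.X 1 (.c 48 (.c 2049 (.c 32 (.c 8 (.c 40 .nil))))) (.b 24 .nil))) (.node (.X 1 (.c 48 (.c 32 (.c 2049 (.c 8 (.c 40 .nil))))) (.b 24 .nil)) (.X 1 (.c 48 (.c 32 (.c 40 (.c 513 (.c 16 .nil))))) (.b 24 .nil))))))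 (.node (.node (.node (.node (.X 1 (.c 40 (.c 24 (.c 32 (.c 513 (.c 48 .nil))))) (.b 16 .nil)) (.X 1 (.c 40 (.c 4609 (.c 32 (.c 8 (.c 48 .nil))))) (.b 16 .nil))) (.node (.X 1 (.c 12801 (.c 8 (.c 32 (.c 24 (.c 48 .nil))))) (.b 16 .nil)) (.X 1 (.c 48 (.c 8 (.c 32 (.c 4609 (.c 40 .nil))))) (.b 16 .nil)))) (.node (.node (.X 1 (.c 48 (.c 8 (.c 40 (.c 8193 (.c 24 .nil))))) (.b 16 .nil)) (.X 1 (.c 48 (.c 8 (.c 12801 (.c 24 (.c 32 .nil))))) (.b 16 .nil))) (.node (.X 1 (.c 48 (.c 513 (.c 32 (.c 24 (.c 40 .nil))))) (.b 16 .nil)) (.X 1 (.c 18433 (.c 32 (.c 40 (.c 8 (.c 16 .nil))))) (.b 24 .nil))))) (.node (.node (.node (.X 1 (.c 48 (.c 24 (.c 32 (.c 513 (.c 40 .nil))))) (.b 16 .nil)) (.X 1 (.c 48 (.c 16 (.c 32 (.c 4609 (.c 8 .nil))))) (.b 40 .nil))) (.node (.X 1 (.c 48 (.c 4609 (.c 32 (.c 8 (.c 16 .nil))))) (.b 40 .nil)) (.X 1 (.c 48 (.c 24 (.c 32 (.c 2049 (.c 8 .nil))))) (.b 40 .nil)))) (.node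 (.node (.X 1 (.c 48 (.c 24 (.c 32 (.c 513 (.c 16 .nil))))) (.b 40 .nil)) (.X 1 (.c 48 (.c 24 (.c 16 (.c 513 (.c 32 .nil))))) (.b 40 .nil))) (.node (.X 1 (.c 48 (.c 12801 (.c 24 (.c 8 (.c 32 .nil))))) (.b 16 .nil)) (.X 1 (.c 40 (.c 513 (.c 24 (.c 16 (.c 32 .nil))))) (.b 48 .nil))))))))

noncomputable def c4_133 : Tr := (.node (.node (.node (.node (.node (.node (.X 1 (.c 40 (.c 24 (.c 32 (.c 513 (.c 16 .nil))))) (.b 48 .nil)) (.X 1 (.c 12801 (.c 24 (.c 32 (.c 8 (.c 16 .nil))))) (.b 48 .nil))) (.node (.X 1 (.c 40 (.c 16 (.c 8193 (.c 24 (.c 8 .nil))))) (.b 48 .nil)) (.X 1 (.c 40 (.c 8193 (.c 24 (.c 16 (.c 8 .nil))))) (.b 48 .nil)))) (.node (.node (.X 0 (.c 40 (.c 32 (.c 4609 (.c 8 .nil)))) (.b 48 (.l 16 .nil))) (.X 0 (.c 48 (.c 40 (.c 4673 (.c 0 .nil)))) (.b 16 (.b 32 .nil)))) (.node (.X 0 (.c 40 (.c 32 (.c 4673 (.c 0 .nil)))) (.b 16 (.b 48 .nil))) (.X 0 (.c 48 (.c 40 (.c 16 (.c 8 .nil))))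 (.l 32 (.l 4609 .nil)))))) (.node (.node (.node (.X 0 (.c 40 (.c 8257 (.c 24 (.c 0 .nil)))) (.b 48 (.b 16 .nil))) (.X 0 (.c 40 (.c 8257 (.c 24 (.c 0 .nil)))) (.b 16 (.b 48 .nil)))) (.node (.X 0 (.c 48 (.c 40 (.c 4673 (.c 0 .nil)))) (.b 32 (.b 16 .nil))) (.X 0 (.c 40 (.c 8193 (.c 24 (.c 8 .nil)))) (.b 16 (.l 48 .nil))))) (.node (.node (.X 0 (.c 48 (.c 40 (.c 16 (.c 0 .nil)))) (.b 24 (.b 8 (.l 32 .nil)))) (.X 0 (.c 14832803796618633 (.c 32 (.c 24 (.c 0 .nil)))) .nil)) (.node (.X 0 (.c 48 (.c 1310925001 (.c 32 (.c 8 .nil)))) (.l 16 .nil)) (.X 0 (.c 40 (.c 32 (.c 24 (.c 8 .nil)))) (.l 48 (.l 2049 .nil))))))) (.node (.node (.node (.node (.X 0 (.c 40 (.c 24 (.c 8 (.c 0 .nil)))) (.b 48 (.b 16 (.l 32 .nil)))) (.X 0 (.c 48 (.c 40 (.c 2049 (.c 8 .nil)))) (.b 32 (.l 24 .nil)))) (.node (.X 0 (.c 48 (.c 40 (.c 4609 (.c 8 .nil)))) (.b 32 (.l 16 .nil))) (.X 0 (.c 40 (.c 24 (.c 8 (.c 0 .nil))))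 (.b 48 (.b 32 (.l 16 .nil)))))) (.node (.node (.X 0 (.c 40 (.c 16 (.c 8 (.c 0 .nil)))) (.b 24 (.b 32 (.l 48 .nil)))) (.X 0 (.c 48 (.c 2105673 (.c 32 (.c 24 .nil)))) (.l 16 .nil))) (.node (.X 0 (.c 40 (.c 32 (.c 4609 (.c 8 .nil)))) (.b 16 (.l 48 .nil))) (.X 0 (.c 48 (.c 40 (.c 16 (.c 513 .nil)))) (.b 32 (.l 24 .nil)))))) (.node (.node (.node (.X 0 (.c 48 (.c 2105673 (.c 24 (.c 16 .nil)))) (.l 32 .nil)) (.X 0 (.c 48 (.c 40 (.c 16 (.c 513 .nil)))) (.b 24 (.l 32 .nil)))) (.node (.X 0 (.c 48 (.c 40 (.c 2049 (.c 8 .nil)))) (.b 24 (.l 32 .nil))) (.X 0 (.c 40 (.c 16 (.c 8 (.c 0 .nil)))) (.l 43655363 .nil)))) (.node (.node (.X 0 (.c 40 (.c 32 (.c 4609 (.c 16 .nil)))) (.b 8 (.l 48 .nil))) (.X 0 (.c 40 (.c 16 (.c 8 (.c 0 .nil)))) (.b 48 (.b 24 (.l 32 .nil))))) (.node (.X 0 (.c 18497 (.c 12801 (.c 32 (.c 24 .nil)))) (.b 16 .nil)) (.X 0 (.c 48 (.c 12865 (.c 24 (.c 0 .nil)))) (.b 32 (.b 16 .nil))))))))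 (.node (.node (.node (.node (.node (.X 0 (.c 48 (.c 12865 (.c 24 (.c 0 .nil)))) (.b 16 (.b 32 .nil))) (.X 0 (.c 15456163896880393 (.c 32 (.c 16 (.c 0 .nil)))) .nil)) (.node (.X 0 (.c 40 (.c 8321 (.c 24 (.c 0 .nil)))) (.b 48 (.b 8 .nil))) (.X 0 (.c 40 (.c 16 (.c 8 (.c 0 .nil)))) (.b 48 (.b 32 (.l 24 .nil)))))) (.node (.node (.X 0 (.c 2718204233 (.c 32 (.c 24 (.c 16 .nil)))) (.l 8 .nil)) (.X 0 (.c 40 (.c 8193 (.c 24 (.c 16 .nil)))) (.b 8 (.l 48 .nil)))) (.node (.X 0 (.c 40 (.c 32 (.c 4737 (.c 0 .nil)))) (.b 48 (.b 8 .nil))) (.X 0 (.c 48 (.c 12801 (.c 32 (.c 24 .nil)))) (.b 16 (.l 8 .nil)))))) (.node (.node (.node (.X 0 (.c 48 (.c 12801 (.c 24 (.c 8 .nil)))) (.b 16 (.l 32 .nil))) (.X 0 (.c 40 (.c 24 (.c 8 (.c 0 .nil)))) (.b 32 (.b 48 (.l 16 .nil))))) (.node (.X 0 (.c 12801 (.c 32 (.c 24 (.c 8 .nil)))) (.b 16 (.l 48 .nil))) (.X 0 (.c 40 (.c 32 (.c 24 (.c 2049 .nil)))) (.b 8 (.l 48 .nil)))))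 (.node (.node (.X 0 (.c 40 (.c 24 (.c 8 (.c 0 .nil)))) (.b 16 (.b 32 (.l 48 .nil)))) (.X 0 (.c 2718204169 (.c 40 (.c 24 (.c 8 .nil)))) (.l 16 .nil))) (.node (.X 0 (.c 537002377 (.c 40 (.c 24 (.c 8 .nil)))) (.l 16 .nil)) (.X 0 (.c 48 (.c 40 (.c 8193 (.c 24 .nil)))) (.b 16 (.l 8 .nil))))))) (.node (.node (.node (.node (.X 0 (.c 43059203 (.c 40 (.c 32 (.c 8 .nil)))) (.l 24 .nil)) (.X 0 (.c 48 (.c 20685315 (.c 24 (.c 16 .nil)))) (.l 32 .nil))) (.node (.X 0 (.c 40 (.c 24 (.c 16 (.c 513 .nil)))) (.b 32 (.l 48 .nil))) (.X 0 (.c 15246325749294217 (.c 40 (.c 16 (.c 0 .nil)))) .nil))) (.node (.node (.X 0 (.c 40 (.c 32 (.c 16 (.c 0 .nil)))) (.l 43356739 .nil)) (.X 0 (.c 40 (.c 24 (.c 2049 (.c 8 .nil)))) (.b 32 (.l 48 .nil)))) (.node (.X 0 (.c 617620517416393 (.c 40 (.c 16 (.c 0 .nil)))) .nil) (.X 0 (.c 40 (.c 24 (.c 2049 (.c 8 .nil)))) (.b 48 (.l 32 .nil)))))) (.node (.node (.node (.X 0 (.c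 18625 (.c 40 (.c 32 (.c 513 .nil)))) (.b 16 .nil)) (.X 0 (.c 48 (.c 20891651 (.c 24 (.c 8 .nil)))) (.l 32 .nil))) (.node (.X 0 (.c 40 (.c 32 (.c 4737 (.c 513 .nil)))) (.b 48 .nil)) (.X 0 (.c 48 (.c 40 (.c 24 (.c 0 .nil)))) (.b 16 (.b 32 (.l 8 .nil)))))) (.node (.node (.X 0 (.c 48 (.c 169943369 (.c 16 (.c 8 .nil)))) (.l 32 .nil)) (.X 0 (.c 48 (.c 40 (.c 24 (.c 0 .nil)))) (.b 32 (.b 8 (.l 16 .nil))))) (.node (.X 0 (.c 15038454533713225 (.c 40 (.c 16 (.c 0 .nil)))) .nil) (.X 0 (.c 48 (.c 33587529 (.c 24 (.c 8 .nil)))) (.l 32 .nil))))))))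

noncomputable def c4_134 : Tr := (.node (.node (.node (.node (.node (.node (.X 0 (.c 40 (.c 32 (.c 16 (.c 8 .nil)))) (.l 48 (.l 4609 .nil))) (.X 0 (.c 42762755 (.c 12929 (.c 32 (.c 24 .nil)))) .nil)) (.node (.X 0 (.c 40 (.c 32 (.c 8 (.c 0 .nil)))) (.b 24 (.b 16 (.l 48 .nil)))) (.X 0 (.c 40 (.c 32 (.c 8 (.c 0 .nil)))) (.b 16 (.b 48 (.l 24 .nil)))))) (.node (.node (.X 0 (.c 40 (.c 4609 (.c 16 (.c 8 .nil)))) (.b 48 (.l 32 .nil))) (.X 0 (.c 2105737 (.c 12929 (.c 32 (.c 24 .nil)))) .nil)) (.node (.X 0 (.c 40 (.c 32 (.c 8 (.c 0 .nil)))) (.b 16 (.b 24 (.l 48 .nil)))) (.X 0 (.c 40 (.c 4673 (.c 16 (.c 0 .nil)))) (.b 48 (.b 32 .nil)))))) (.node (.node (.node (.X 0 (.c 12801 (.c 24 (.c 16 (.c 8 .nil)))) (.b 32 (.l 48 .nil))) (.X 0 (.c 48 (.c 40 (.c 24 (.c 8 .nil)))) (.l 32 (.l 2049 .nil)))) (.node (.X 0 (.c 12865 (.c 24 (.c 16 (.c 0 .nil)))) (.b 48 (.b 32 .nil))) (.X 0 (.c 12801 (.c 24 (.c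 16 (.c 8 .nil)))) (.b 48 (.l 32 .nil))))) (.node (.node (.X 0 (.c 40 (.c 32 (.c 8 (.c 0 .nil)))) (.l 43356803 .nil)) (.X 0 (.c 40 (.c 32 (.c 16 (.c 0 .nil)))) (.b 24 (.b 8 (.l 48 .nil))))) (.node (.X 0 (.c 48 (.c 40 (.c 8385 (.c 0 .nil)))) (.b 8 (.b 16 .nil))) (.X 0 (.c 48 (.c 40 (.c 8385 (.c 0 .nil)))) (.b 16 (.b 8 .nil))))))) (.node (.node (.node (.node (.X 0 (.c 48 (.c 40 (.c 24 (.c 8 .nil)))) (.l 16 (.l 8193 .nil))) (.X 0 (.c 40 (.c 32 (.c 16 (.c 0 .nil)))) (.b 8 (.b 24 (.l 48 .nil))))) (.node (.X 0 (.c 40 (.c 32 (.c 2049 (.c 8 .nil)))) (.b 24 (.l 48 .nil))) (.X 0 (.c 18561 (.c 40 (.c 32 (.c 513 .nil)))) (.b 24 .nil)))) (.node (.node (.X 0 (.c 40 (.c 32 (.c 8 (.c 0 .nil)))) (.b 48 (.b 24 (.l 16 .nil)))) (.X 0 (.c 2718203977 (.c 12929 (.c 32 (.c 24 .nil)))) .nil)) (.node (.X 0 (.c 48 (.c 1310924937 (.c 24 (.c 8 .nil)))) (.l 32 .nil)) (.X 0 (.c 42762755 (.c 40 (.c 32 (.c 24 .nil))))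 (.l 16 .nil))))) (.node (.node (.node (.X 0 (.c 40 (.c 24 (.c 16 (.c 0 .nil)))) (.b 8 (.b 32 (.l 48 .nil)))) (.X 0 (.c 40 (.c 24 (.c 16 (.c 0 .nil)))) (.b 8 (.b 48 (.l 32 .nil))))) (.node (.X 0 (.c 40 (.c 32 (.c 24 (.c 0 .nil)))) (.b 16 (.b 48 (.l 8 .nil)))) (.X 0 (.c 48 (.c 12865 (.c 16 (.c 0 .nil)))) (.b 32 (.b 24 .nil))))) (.node (.node (.X 0 (.c 2105737 (.c 40 (.c 32 (.c 24 .nil)))) (.l 16 .nil)) (.X 0 (.c 40 (.c 24 (.c 16 (.c 0 .nil)))) (.b 32 (.b 8 (.l 48 .nil))))) (.node (.X 0 (.c 48 (.c 12801 (.c 16 (.c 8 .nil)))) (.b 32 (.l 24 .nil))) (.X 0 (.c 48 (.c 40 (.c 2113 (.c 0 .nil)))) (.b 32 (.b 24 .nil)))))))) (.node (.node (.node (.node (.node (.X 0 (.c 48 (.c 12801 (.c 16 (.c 8 .nil)))) (.b 24 (.l 32 .nil))) (.X 0 (.c 40 (.c 32 (.c 24 (.c 0 .nil)))) (.l 43059267 .nil))) (.node (.X 0 (.c 40 (.c 24 (.c 8 (.c 0 .nil)))) (.l 43655299 .nil)) (.X 0 (.c 40 (.c 32 (.c 24 (.c 0 .nil))))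 (.b 48 (.b 16 (.l 8 .nil)))))) (.node (.node (.X 0 (.c 40 (.c 32 (.c 24 (.c 0 .nil)))) (.b 48 (.b 8 (.l 16 .nil)))) (.X 0 (.c 48 (.c 40 (.c 4609 (.c 8 .nil)))) (.b 16 (.l 32 .nil)))) (.node (.X 0 (.c 169943433 (.c 40 (.c 32 (.c 8 .nil)))) (.l 16 .nil)) (.X 0 (.c 43356675 (.c 40 (.c 32 (.c 8 .nil)))) (.l 16 .nil))))) (.node (.node (.node (.X 0 (.c 40 (.c 32 (.c 2113 (.c 0 .nil)))) (.b 48 (.b 24 .nil))) (.X 0 (.c 48 (.c 40 (.c 24 (.c 0 .nil)))) (.b 8 (.b 16 (.l 32 .nil))))) (.node (.X 0 (.c 48 (.c 12929 (.c 24 (.c 513 .nil)))) (.b 32 .nil)) (.X 0 (.c 40 (.c 32 (.c 2049 (.c 8 .nil)))) (.b 48 (.l 24 .nil))))) (.node (.node (.X 0 (.c 12801 (.c 32 (.c 16 (.c 8 .nil)))) (.b 48 (.l 24 .nil))) (.X 0 (.c 2718203977 (.c 40 (.c 32 (.c 24 .nil)))) (.l 16 .nil))) (.node (.X 0 (.c 12865 (.c 32 (.c 16 (.c 0 .nil)))) (.b 48 (.b 24 .nil))) (.X 0 (.c 18433 (.c 40 (.c 32 (.c 24 .nil)))) (.b 8 (.l 16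 .nil))))))) (.node (.node (.node (.node (.X 0 (.c 18497 (.c 40 (.c 8193 (.c 24 .nil)))) (.b 16 .nil)) (.X 0 (.c 40 (.c 24 (.c 16 (.c 8 .nil)))) (.l 32 (.l 18433 .nil)))) (.node (.X 0 (.c 18561 (.c 32 (.c 24 (.c 8 .nil)))) (.l 12801 .nil)) (.X 0 (.c 48 (.c 12993 (.c 32 (.c 2049 .nil)))) (.b 8 .nil)))) (.node (.node (.X 0 (.c 48 (.c 32 (.c 16 (.c 0 .nil)))) (.b 8 (.b 40 (.l 24 .nil)))) (.X 0 (.c 48 (.c 32 (.c 24 (.c 557571 .nil)))) (.l 40 .nil))) (.node (.X 0 (.c 48 (.c 32 (.c 24 (.c 2105481 .nil)))) (.l 40 .nil)) (.X 0 (.c 48 (.c 32 (.c 8 (.c 0 .nil)))) (.b 40 (.b 16 (.l 24 .nil))))))) (.node (.node (.node (.X 0 (.c 48 (.c 32 (.c 24 (.c 33587273 .nil)))) (.l 40 .nil)) (.X 0 (.c 48 (.c 12929 (.c 32 (.c 4609 .nil)))) (.b 8 .nil))) (.node (.X 0 (.c 48 (.c 32 (.c 16 (.c 8 .nil)))) (.l 40 (.l 4609 .nil))) (.X 0 (.c 48 (.c 12929 (.c 8193 (.c 24 .nil)))) (.b 8 .nil)))) (.node (.node (.X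 0 (.c 48 (.c 12929 (.c 24 (.c 0 .nil)))) (.b 8 (.b 32 .nil))) (.X 0 (.c 48 (.c 20891651 (.c 32 (.c 24 .nil)))) (.l 8 .nil))) (.node (.X 0 (.c 2718204233 (.c 32 (.c 4673 (.c 16 .nil)))) .nil) (.X 0 (.c 48 (.c 24 (.c 2113 (.c 0 .nil)))) (.b 32 (.b 40 .nil)))))))))

noncomputable def c4_135 : Tr := (.node (.node (.node (.node (.node (.node (.X 0 (.c 48 (.c 24 (.c 2049 (.c 8 .nil)))) (.b 32 (.l 40 .nil))) (.X 0 (.c 48 (.c 21307395 (.c 24 (.c 16 .nil)))) (.l 8 .nil))) (.node (.X 0 (.c 48 (.c 537002313 (.c 24 (.c 16 .nil)))) (.l 8 .nil)) (.X 0 (.c 537002377 (.c 40 (.c 16 (.c 8 .nil)))) (.l 24 .nil)))) (.node (.node (.X 0 (.c 48 (.c 32 (.c 2803715 (.c 8 .nil)))) (.l 40 .nil)) (.X 0 (.c 48 (.c 32 (.c 33587401 (.c 8 .nil)))) (.l 40 .nil))) (.node (.X 0 (.c 48 (.c 8193 (.c 4673 (.c 16 .nil)))) (.b 40 .nil)) (.X 0 (.c 48 (.c 8257 (.c 24 (.c 2049 .nil)))) (.b 40 .nil))))) (.node (.node (.node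 (.X 0 (.c 18497 (.c 24 (.c 16 (.c 0 .nil)))) (.b 32 (.b 40 .nil))) (.X 0 (.c 48 (.c 32 (.c 8 (.c 0 .nil)))) (.b 24 (.b 40 (.l 16 .nil))))) (.node (.X 0 (.c 48 (.c 32 (.c 8 (.c 0 .nil)))) (.b 24 (.b 16 (.l 40 .nil)))) (.X 0 (.c 43954691 (.c 8257 (.c 24 (.c 16 .nil)))) .nil))) (.node (.node (.X 0 (.c 48 (.c 32 (.c 8 (.c 0 .nil)))) (.b 16 (.b 24 (.l 40 .nil)))) (.X 0 (.c 18561 (.c 40 (.c 537002057 (.c 24 .nil)))) .nil)) (.node (.X 0 (.c 18497 (.c 24 (.c 16 (.c 0 .nil)))) (.b 40 (.b 32 .nil))) (.X 0 (.c 18433 (.c 24 (.c 16 (.c 8 .nil)))) (.b 40 (.l 32 .nil))))))) (.node (.node (.node (.node (.X 0 (.c 18433 (.c 24 (.c 16 (.c 8 .nil)))) (.b 32 (.l 40 .nil))) (.X 0 (.c 48 (.c 32 (.c 2728451 (.c 16 .nil)))) (.l 40 .nil))) (.node (.X 0 (.c 48 (.c 40 (.c 32 (.c 33587401 .nil)))) (.l 8 .nil)) (.X 0 (.c 48 (.c 40 (.c 32 (.c 169943177 .nil)))) (.l 8 .nil)))) (.node (.node (.X 0 (.c 48 (.c 12993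 (.c 32 (.c 0 .nil)))) (.b 16 (.b 8 .nil))) (.X 0 (.c 48 (.c 32 (.c 24 (.c 0 .nil)))) (.b 40 (.b 8 (.l 16 .nil))))) (.node (.X 0 (.c 18433 (.c 32 (.c 24 (.c 8 .nil)))) (.b 16 (.l 40 .nil))) (.X 0 (.c 48 (.c 40 (.c 8193 (.c 4737 .nil)))) (.b 8 .nil))))) (.node (.node (.node (.X 0 (.c 18433 (.c 32 (.c 24 (.c 8 .nil)))) (.b 40 (.l 16 .nil))) (.X 0 (.c 48 (.c 8257 (.c 24 (.c 0 .nil)))) (.b 40 (.b 16 .nil)))) (.node (.X 0 (.c 18497 (.c 32 (.c 24 (.c 0 .nil)))) (.b 16 (.b 40 .nil))) (.X 0 (.c 18433 (.c 40 (.c 24 (.c 16 .nil)))) (.b 8 (.l 32 .nil))))) (.node (.node (.X 0 (.c 48 (.c 12993 (.c 32 (.c 0 .nil)))) (.b 8 (.b 16 .nil))) (.X 0 (.c 48 (.c 32 (.c 4673 (.c 0 .nil)))) (.b 16 (.b 40 .nil)))) (.node (.X 0 (.c 18561 (.c 40 (.c 24 (.c 0 .nil)))) (.b 8 (.b 32 .nil))) (.X 0 (.c 48 (.c 32 (.c 24 (.c 513 .nil)))) (.b 40 (.l 16 .nil)))))))) (.node (.node (.node (.node (.node (.X 0 (.c 18561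 (.c 40 (.c 24 (.c 0 .nil)))) (.b 32 (.b 8 .nil))) (.X 0 (.c 48 (.c 8193 (.c 24 (.c 8 .nil)))) (.b 16 (.l 40 .nil)))) (.node (.X 0 (.c 48 (.c 8193 (.c 24 (.c 8 .nil)))) (.b 40 (.l 16 .nil))) (.X 0 (.c 48 (.c 32 (.c 24 (.c 8 .nil)))) (.l 40 (.l 2049 .nil))))) (.node (.node (.X 0 (.c 48 (.c 32 (.c 24 (.c 8 .nil)))) (.l 16 (.l 12801 .nil))) (.X 0 (.c 48 (.c 32 (.c 24 (.c 0 .nil)))) (.l 20891715 .nil))) (.node (.X 0 (.c 48 (.c 40 (.c 32 (.c 2803715 .nil)))) (.l 8 .nil)) (.X 0 (.c 48 (.c 8321 (.c 24 (.c 0 .nil)))) (.b 40 (.b 8 .nil)))))) (.node (.node (.node (.X 0 (.c 48 (.c 32 (.c 2113 (.c 0 .nil)))) (.b 40 (.b 24 .nil))) (.X 0 (.c 1310925193 (.c 32 (.c 16 (.c 8 .nil)))) (.l 24 .nil))) (.node (.X 0 (.c 48 (.c 12801 (.c 32 (.c 4737 .nil)))) (.b 8 .nil)) (.X 0 (.c 48 (.c 8193 (.c 24 (.c 16 .nil)))) (.b 8 (.l 40 .nil))))) (.node (.node (.X 0 (.c 48 (.c 8321 (.c 24 (.c 0 .nil)))) (.b 8 (.b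 40 .nil))) (.X 0 (.c 48 (.c 32 (.c 2049 (.c 8 .nil)))) (.b 24 (.l 40 .nil)))) (.node (.X 0 (.c 48 (.c 8193 (.c 16 (.c 8 .nil)))) (.b 24 (.l 40 .nil))) (.X 0 (.c 48 (.c 12801 (.c 8321 (.c 24 .nil)))) (.b 8 .nil)))))) (.node (.node (.node (.node (.X 0 (.c 48 (.c 40 (.c 537002121 (.c 24 .nil)))) (.l 8 .nil)) (.X 0 (.c 18497 (.c 32 (.c 16 (.c 0 .nil)))) (.b 40 (.b 24 .nil)))) (.node (.X 0 (.c 18497 (.c 32 (.c 16 (.c 0 .nil)))) (.b 24 (.b 40 .nil))) (.X 0 (.c 48 (.c 32 (.c 24 (.c 2049 .nil)))) (.b 8 (.l 40 .nil))))) (.node (.node (.X 0 (.c 18433 (.c 32 (.c 16 (.c 8 .nil)))) (.b 40 (.l 24 .nil))) (.X 0 (.c 18433 (.c 32 (.c 16 (.c 8 .nil)))) (.b 24 (.l 40 .nil)))) (.node (.X 0 (.c 48 (.c 40 (.c 169943305 (.c 16 .nil)))) (.l 8 .nil)) (.X 0 (.c 48 (.c 40 (.c 537002185 (.c 16 .nil)))) (.l 8 .nil))))) (.node (.node (.node (.X 0 (.c 48 (.c 8193 (.c 16 (.c 8 .nil)))) (.b 40 (.l 24 .nil))) (.X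 0 (.c 43356675 (.c 40 (.c 32 (.c 16 .nil)))) (.l 8 .nil))) (.node (.X 0 (.c 3561367726845385 (.c 32 (.c 16 (.c 0 .nil)))) .nil) (.X 0 (.c 2718204105 (.c 40 (.c 32 (.c 16 .nil)))) (.l 8 .nil)))) (.node (.node (.X 0 (.c 48 (.c 40 (.c 169943113 (.c 16 .nil)))) (.l 32 .nil)) (.X 0 (.c 18561 (.c 40 (.c 32 (.c 2728451 .nil)))) .nil)) (.node (.X 0 (.c 40 (.c 33587465 (.c 24 (.c 8 .nil)))) (.l 48 .nil)) (.X 0 (.c 48 (.c 40 (.c 24 (.c 2049 .nil)))) (.b 32 (.l 8 .nil)))))))))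

noncomputable def c4_136 : Tr := (.node (.node (.node (.node (.node (.node (.X 0 (.c 40 (.c 8321 (.c 24 (.c 513 .nil)))) (.b 48 .nil)) (.X 0 (.c 40 (.c 537002057 (.c 24 (.c 16 .nil)))) (.l 48 .nil))) (.node (.X 0 (.c 1310925193 (.c 32 (.c 24 (.c 8 .nil)))) (.l 16 .nil)) (.X 0 (.c 40 (.c 8520195 (.c 24 (.c 16 .nil)))) (.l 48 .nil)))) (.node (.node (.X 0 (.c 40 (.c 8257 (.c 4609 (.c 16 .nil)))) (.b 48 .nil)) (.X 0 (.c 48 (.c 40 (.c 2803715 (.c 8 .nil)))) (.l 32 .nil))) (.node (.X 0 (.c 48 (.c 40 (.c 32 (.c 4609 .nil)))) (.b 16 (.l 8 .nil))) (.X 0 (.c 20891651 (.c 32 (.c 24 (.c 8 .nil)))) (.l 48 .nil))))) (.node (.node (.node (.X 0 (.c 2718204041 (.c 32 (.c 24 (.c 8 .nil)))) (.l 40 .nil)) (.X 0 (.c 43954819 (.c 8257 (.c 24 (.c 0 .nil)))) .nil)) (.node (.X 0 (.c 2105673 (.c 32 (.c 24 (.c 16 .nil)))) (.l 48 .nil)) (.X 0 (.c 20685315 (.c 32 (.c 24 (.c 16 .nil)))) (.l 48 .nil)))) (.node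 (.node (.X 0 (.c 2718204105 (.c 32 (.c 16 (.c 8 .nil)))) (.l 40 .nil)) (.X 0 (.c 48 (.c 40 (.c 2728451 (.c 16 .nil)))) (.l 32 .nil))) (.node (.X 0 (.c 12801 (.c 32 (.c 4673 (.c 16 .nil)))) (.b 48 .nil)) (.X 0 (.c 43356675 (.c 32 (.c 16 (.c 8 .nil)))) (.l 40 .nil)))))) (.node (.node (.node (.node (.X 0 (.c 2718204169 (.c 40 (.c 24 (.c 16 .nil)))) (.l 8 .nil)) (.X 0 (.c 33587593 (.c 40 (.c 32 (.c 8 .nil)))) (.l 24 .nil))) (.node (.X 0 (.c 12929 (.c 32 (.c 24 (.c 8 .nil)))) (.l 18433 .nil)) (.X 0 (.c 48 (.c 40 (.c 8 (.c 0 .nil)))) (.b 32 (.b 16 (.l 24 .nil)))))) (.node (.node (.X 0 (.c 48 (.c 40 (.c 169943177 (.c 8 .nil)))) (.l 32 .nil)) (.X 0 (.c 48 (.c 40 (.c 8 (.c 0 .nil)))) (.b 32 (.b 24 (.l 16 .nil))))) (.node (.X 0 (.c 48 (.c 40 (.c 8 (.c 0 .nil)))) (.l 8786563 .nil)) (.X 0 (.c 40 (.c 32 (.c 169943177 (.c 8 .nil)))) (.l 48 .nil))))) (.node (.node (.node (.X 0 (.c 40 (.c 32 (.c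 33587401 (.c 8 .nil)))) (.l 48 .nil)) (.X 0 (.c 40 (.c 32 (.c 2803715 (.c 8 .nil)))) (.l 48 .nil))) (.node (.X 0 (.c 40 (.c 32 (.c 169943113 (.c 16 .nil)))) (.l 48 .nil)) (.X 0 (.c 40 (.c 32 (.c 2728451 (.c 16 .nil)))) (.l 48 .nil)))) (.node (.node (.X 0 (.c 2718204041 (.c 40 (.c 32 (.c 8 .nil)))) (.l 24 .nil)) (.X 0 (.c 48 (.c 40 (.c 8 (.c 0 .nil)))) (.b 16 (.b 32 (.l 24 .nil))))) (.node (.X 0 (.c 40 (.c 32 (.c 24 (.c 557571 .nil)))) (.l 48 .nil)) (.X 0 (.c 48 (.c 24 (.c 16 (.c 0 .nil)))) (.b 8 (.b 32 (.l 40 .nil))))))))) (.node (.node (.node (.node (.node (.X 0 (.c 48 (.c 537002121 (.c 24 (.c 8 .nil)))) (.l 40 .nil)) (.X 0 (.c 48 (.c 24 (.c 8 (.c 0 .nil)))) (.b 32 (.b 16 (.l 40 .nil))))) (.node (.X 0 (.c 48 (.c 24 (.c 8 (.c 0 .nil)))) (.b 16 (.b 40 (.l 32 .nil)))) (.X 0 (.c 48 (.c 24 (.c 8 (.c 0 .nil)))) (.b 16 (.b 32 (.l 40 .nil)))))) (.node (.node (.X 0 (.c 48 (.c 16 (.c 8 (.c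 0 .nil)))) (.l 21307587 .nil)) (.X 0 (.c 48 (.c 8520195 (.c 24 (.c 16 .nil)))) (.l 40 .nil))) (.node (.X 0 (.c 48 (.c 21307395 (.c 24 (.c 8 .nil)))) (.l 16 .nil)) (.X 0 (.c 48 (.c 24 (.c 16 (.c 0 .nil)))) (.l 21307459 .nil))))) (.node (.node (.node (.X 0 (.c 48 (.c 40 (.c 32 (.c 4609 .nil)))) (.b 8 (.l 16 .nil))) (.X 0 (.c 48 (.c 24 (.c 16 (.c 0 .nil)))) (.b 32 (.b 8 (.l 40 .nil))))) (.node (.X 0 (.c 1310925065 (.c 24 (.c 16 (.c 8 .nil)))) (.l 48 .nil)) (.X 0 (.c 42762755 (.c 32 (.c 24 (.c 16 .nil)))) (.l 40 .nil)))) (.node (.node (.X 0 (.c 21307395 (.c 24 (.c 16 (.c 8 .nil)))) (.l 48 .nil)) (.X 0 (.c 18561 (.c 20685315 (.c 32 (.c 24 .nil)))) .nil)) (.node (.X 0 (.c 43059203 (.c 40 (.c 32 (.c 24 .nil)))) (.l 8 .nil)) (.X 0 (.c 33587593 (.c 40 (.c 32 (.c 24 .nil)))) (.l 8 .nil)))))) (.node (.node (.node (.node (.X 0 (.c 43059203 (.c 32 (.c 24 (.c 8 .nil)))) (.l 40 .nil)) (.X 0 (.c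 18561 (.c 1310924873 (.c 32 (.c 24 .nil)))) .nil)) (.node (.X 0 (.c 48 (.c 40 (.c 24 (.c 557571 .nil)))) (.l 32 .nil)) (.X 0 (.c 18433 (.c 32 (.c 4673 (.c 16 .nil)))) (.b 40 .nil)))) (.node (.node (.X 0 (.c 48 (.c 169943305 (.c 16 (.c 8 .nil)))) (.l 40 .nil)) (.X 0 (.c 48 (.c 16 (.c 8 (.c 0 .nil)))) (.b 32 (.b 40 (.l 24 .nil))))) (.node (.X 0 (.c 18433 (.c 32 (.c 24 (.c 2113 .nil)))) (.b 40 .nil)) (.X 0 (.c 48 (.c 16 (.c 8 (.c 0 .nil)))) (.b 32 (.b 24 (.l 40 .nil))))))) (.node (.node (.node (.X 0 (.c 48 (.c 16 (.c 8 (.c 0 .nil)))) (.b 24 (.b 40 (.l 32 .nil)))) (.X 0 (.c 48 (.c 16 (.c 8 (.c 0 .nil)))) (.b 24 (.b 32 (.l 40 .nil))))) (.node (.X 0 (.c 48 (.c 12801 (.c 32 (.c 2113 .nil)))) (.b 24 .nil)) (.X 0 (.c 48 (.c 21307395 (.c 4673 (.c 16 .nil)))) .nil))) (.node (.node (.X 0 (.c 48 (.c 537002313 (.c 4673 (.c 16 .nil)))) .nil) (.X 0 (.c 43655171 (.c 40 (.c 4673 (.c 16 .nil)))) .nil))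 (.node (.X 0 (.c 537002377 (.c 40 (.c 4673 (.c 16 .nil)))) .nil) (.X 0 (.c 48 (.c 40 (.c 8257 (.c 4609 .nil)))) (.b 16 .nil))))))))

noncomputable def c4_137 : Tr := (.node (.node (.node (.node (.node (.node (.X 0 (.c 48 (.c 40 (.c 8786435 (.c 2113 .nil)))) .nil) (.X 0 (.c 48 (.c 40 (.c 32 (.c 0 .nil)))) (.b 8 (.b 16 (.l 24 .nil))))) (.node (.X 0 (.c 48 (.c 40 (.c 8520195 (.c 24 .nil)))) (.l 16 .nil)) (.X 0 (.c 48 (.c 40 (.c 8385 (.c 8 .nil)))) (.l 2049 .nil)))) (.node (.node (.X 0 (.c 48 (.c 40 (.c 32 (.c 0 .nil)))) (.l 2803779 .nil)) (.X 0 (.c 48 (.c 40 (.c 32 (.c 2728451 .nil)))) (.l 16 .nil))) (.node (.X 0 (.c 48 (.c 40 (.c 32 (.c 2105545 .nil)))) (.l 16 .nil)) (.X 0 (.c 43655171 (.c 12865 (.c 24 (.c 16 .nil)))) .nil)))) (.node (.node (.node (.X 0 (.c 48 (.c 1310925065 (.c 16 (.c 8 .nil)))) (.l 24 .nil)) (.X 0 (.c 537002377 (.c 40 (.c 24 (.c 2113 .nil)))) .nil)) (.node (.X 0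 (.c 18433 (.c 12865 (.c 32 (.c 16 .nil)))) (.b 24 .nil)) (.X 0 (.c 48 (.c 40 (.c 2105609 (.c 4737 .nil)))) .nil))) (.node (.node (.X 0 (.c 48 (.c 40 (.c 8257 (.c 2803715 .nil)))) .nil) (.X 0 (.c 18497 (.c 40 (.c 8193 (.c 16 .nil)))) (.b 24 .nil))) (.node (.X 0 (.c 2718204233 (.c 24 (.c 16 (.c 8 .nil)))) (.l 32 .nil)) (.X 0 (.c 43356675 (.c 40 (.c 8257 (.c 16 .nil)))) .nil))))) (.node (.node (.node (.node (.X 0 (.c 48 (.c 40 (.c 33587465 (.c 4673 .nil)))) .nil) (.X 0 (.c 18497 (.c 21099011 (.c 32 (.c 16 .nil)))) .nil)) (.node (.X 0 (.c 43954947 (.c 24 (.c 2113 (.c 0 .nil)))) .nil) (.X 0 (.c 169943433 (.c 12865 (.c 32 (.c 16 .nil)))) .nil))) (.node (.node (.X 0 (.c 48 (.c 40 (.c 8321 (.c 2105545 .nil)))) .nil) (.X 0 (.c 48 (.c 20891651 (.c 32 (.c 4673 .nil)))) .nil)) (.node (.X 0 (.c 48 (.c 40 (.c 32 (.c 2049 .nil)))) (.b 8 (.l 24 .nil))) (.X 0 (.c 48 (.c 1310924937 (.c 32 (.c 8 .nil))))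 (.l 24 .nil))))) (.node (.node (.node (.X 0 (.c 18497 (.c 40 (.c 33587465 (.c 24 .nil)))) .nil) (.X 0 (.c 48 (.c 21307395 (.c 16 (.c 8 .nil)))) (.l 24 .nil))) (.node (.X 0 (.c 48 (.c 12993 (.c 32 (.c 557571 .nil)))) .nil) (.X 0 (.c 48 (.c 20891651 (.c 32 (.c 8 .nil)))) (.l 24 .nil)))) (.node (.node (.X 0 (.c 14832803796618505 (.c 40 (.c 32 (.c 0 .nil)))) .nil) (.X 0 (.c 18433 (.c 40 (.c 32 (.c 8 .nil)))) (.b 16 (.l 24 .nil)))) (.node (.X 0 (.c 48 (.c 21099139 (.c 8257 (.c 0 .nil)))) .nil) (.X 0 (.c 48 (.c 40 (.c 8193 (.c 8 .nil)))) (.b 16 (.l 24 .nil)))))))) (.node (.node (.node (.node (.node (.X 0 (.c 43954947 (.c 4673 (.c 16 (.c 0 .nil)))) .nil) (.X 0 (.c 48 (.c 20685315 (.c 32 (.c 16 .nil)))) (.l 24 .nil))) (.node (.X 0 (.c 48 (.c 40 (.c 32 (.c 8 .nil)))) (.l 24 (.l 2049 .nil))) (.X 0 (.c 3632062472293833 (.c 24 (.c 16 (.c 0 .nil)))) .nil))) (.node (.node (.X 0 (.c 48 (.c 21307587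 (.c 2113 (.c 0 .nil)))) .nil) (.X 0 (.c 32 (.c 24 (.c 16 (.c 8 .nil)))) (.l 40 (.l 18433 .nil)))) (.node (.X 0 (.c 48 (.c 40 (.c 2105609 (.c 16 .nil)))) (.l 24 .nil)) (.X 0 (.c 48 (.c 20685315 (.c 32 (.c 24 .nil)))) (.l 16 .nil))))) (.node (.node (.node (.X 0 (.c 32 (.c 16 (.c 8 (.c 0 .nil)))) (.l 43954883 .nil)) (.X 0 (.c 24 (.c 16 (.c 8 (.c 0 .nil)))) (.b 32 (.b 40 (.l 48 .nil))))) (.node (.X 0 (.c 15246236343241929 (.c 40 (.c 24 (.c 0 .nil)))) .nil) (.X 0 (.c 43356675 (.c 40 (.c 16 (.c 8 .nil)))) (.l 32 .nil)))) (.node (.node (.X 0 (.c 2105737 (.c 40 (.c 32 (.c 16 .nil)))) (.l 24 .nil)) (.X 0 (.c 43655299 (.c 40 (.c 4673 (.c 0 .nil)))) .nil)) (.node (.X 0 (.c 42762755 (.c 40 (.c 32 (.c 16 .nil)))) (.l 24 .nil)) (.X 0 (.c 48 (.c 40 (.c 8520195 (.c 16 .nil)))) (.l 24 .nil)))))) (.node (.node (.node (.node (.X 0 (.c 32 (.c 24 (.c 16 (.c 0 .nil)))) (.b 8 (.b 48 (.l 40 .nil)))) (.X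 0 (.c 598976858557897 (.c 40 (.c 24 (.c 0 .nil)))) .nil)) (.node (.X 0 (.c 32 (.c 24 (.c 16 (.c 0 .nil)))) (.b 8 (.b 40 (.l 48 .nil)))) (.X 0 (.c 48 (.c 40 (.c 32 (.c 557571 .nil)))) (.l 24 .nil)))) (.node (.node (.X 0 (.c 42762755 (.c 40 (.c 24 (.c 16 .nil)))) (.l 32 .nil)) (.X 0 (.c 24 (.c 16 (.c 8 (.c 0 .nil)))) (.l 43954947 .nil))) (.node (.X 0 (.c 48 (.c 40 (.c 32 (.c 33587273 .nil)))) (.l 24 .nil)) (.X 0 (.c 43059203 (.c 40 (.c 24 (.c 8 .nil)))) (.l 32 .nil))))) (.node (.node (.node (.X 1 (.c 8257 (.c 24 (.c 16 (.c 0 (.c 40 .nil))))) (.b 48 .nil)) (.X 1 (.c 40 (.c 0 (.c 24 (.c 2113 (.c 32 .nil))))) (.b 48 .nil))) (.node (.X 1 (.c 48 (.c 40 (.c 2105545 (.c 16 (.c 32 .nil))))) .nil) (.X 1 (.c 48 (.c 16 (.c 40 (.c 537002057 (.c 24 .nil))))) .nil))) (.node (.node (.X 1 (.c 48 (.c 537002185 (.c 40 (.c 8 (.c 16 .nil))))) .nil) (.X 1 (.c 48 (.c 169943305 (.c 40 (.c 8 (.c 16 .nil)))))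 .nil)) (.node (.X 1 (.c 40 (.c 0 (.c 4673 (.c 16 (.c 32 .nil))))) (.b 48 .nil)) (.X 1 (.c 48 (.c 16 (.c 40 (.c 2105609 (.c 24 .nil))))) .nil)))))))

noncomputable def c4_138 : Tr := (.node (.node (.node (.node (.node (.node (.X 1 (.c 48 (.c 1310924873 (.c 24 (.c 16 (.c 32 .nil))))) .nil) (.X 1 (.c 48 (.c 8 (.c 169943305 (.c 16 (.c 40 .nil))))) .nil)) (.node (.X 1 (.c 48 (.c 8 (.c 40 (.c 33587401 (.c 32 .nil))))) .nil) (.X 1 (.c 48 (.c 8 (.c 40 (.c 169943177 (.c 32 .nil))))) .nil))) (.node (.node (.X 1 (.c 48 (.c 169943369 (.c 16 (.c 8 (.c 32 .nil))))) .nil) (.X 1 (.c 48 (.c 8 (.c 33587465 (.c 24 (.c 40 .nil))))) .nil)) (.node (.X 1 (.c 48 (.c 1310924937 (.c 32 (.c 24 (.c 8 .nil))))) .nil) (.X 1 (.c 48 (.c 1310924937 (.c 32 (.c 8 (.c 24 .nil))))) .nil)))) (.node (.node (.node (.X 1 (.c 48 (.c 40 (.c 32 (.c 169943113 (.c 16 .nil))))) .nil) (.X 1 (.c 48 (.c 40 (.c 32 (.c 2105545 (.c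 16 .nil))))) .nil)) (.node (.X 1 (.c 48 (.c 40 (.c 32 (.c 33587273 (.c 24 .nil))))) .nil) (.X 1 (.c 48 (.c 40 (.c 32 (.c 2105481 (.c 24 .nil))))) .nil))) (.node (.node (.X 1 (.c 48 (.c 16 (.c 40 (.c 169943113 (.c 32 .nil))))) .nil) (.X 1 (.c 48 (.c 40 (.c 537002121 (.c 8 (.c 24 .nil))))) .nil)) (.node (.X 1 (.c 48 (.c 40 (.c 33587465 (.c 8 (.c 24 .nil))))) .nil) (.X 1 (.c 48 (.c 40 (.c 537002057 (.c 24 (.c 16 .nil))))) .nil))))) (.node (.node (.node (.node (.X 1 (.c 48 (.c 40 (.c 537002057 (.c 16 (.c 24 .nil))))) .nil) (.X 1 (.c 48 (.c 16 (.c 1310925065 (.c 8 (.c 24 .nil))))) .nil)) (.node (.X 1 (.c 40 (.c 537002121 (.c 24 (.c 8 (.c 48 .nil))))) .nil) (.X 1 (.c 40 (.c 33587465 (.c 24 (.c 8 (.c 48 .nil))))) .nil))) (.node (.node (.X 1 (.c 48 (.c 16 (.c 537002313 (.c 8 (.c 24 .nil))))) .nil) (.X 1 (.c 48 (.c 24 (.c 1310925065 (.c 16 (.c 8 .nil))))) .nil)) (.node (.X 1 (.c 48 (.c 24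 (.c 537002313 (.c 16 (.c 8 .nil))))) .nil) (.X 1 (.c 48 (.c 169943113 (.c 32 (.c 16 (.c 40 .nil))))) .nil)))) (.node (.node (.node (.X 1 (.c 48 (.c 24 (.c 1310924937 (.c 8 (.c 32 .nil))))) .nil) (.X 1 (.c 40 (.c 537002057 (.c 24 (.c 16 (.c 48 .nil))))) .nil)) (.node (.X 1 (.c 40 (.c 32 (.c 24 (.c 33587273 (.c 48 .nil))))) .nil) (.X 1 (.c 48 (.c 16 (.c 1310925001 (.c 8 (.c 32 .nil))))) .nil))) (.node (.node (.X 1 (.c 40 (.c 32 (.c 2105545 (.c 16 (.c 48 .nil))))) .nil) (.X 1 (.c 48 (.c 2105481 (.c 32 (.c 24 (.c 40 .nil))))) .nil)) (.node (.X 1 (.c 48 (.c 2105481 (.c 40 (.c 24 (.c 32 .nil))))) .nil) (.X 1 (.c 40 (.c 16 (.c 8 (.c 0 (.c 32 .nil))))) (.l 18625 .nil))))))) (.node (.node (.node (.node (.node (.X 1 (.c 40 (.c 16 (.c 32 (.c 0 (.c 48 .nil))))) (.l 4673 .nil)) (.X 1 (.c 48 (.c 0 (.c 32 (.c 16 (.c 24 .nil))))) (.l 12865 .nil))) (.node (.X 1 (.c 48 (.c 8 (.c 24 (.c 0 (.c 40 .nil)))))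 (.l 8321 .nil)) (.X 1 (.c 40 (.c 16 (.c 32 (.c 0 (.c 8 .nil))))) (.l 18625 .nil)))) (.node (.node (.X 1 (.c 48 (.c 8 (.c 24 (.c 0 (.c 16 .nil))))) (.l 13057 .nil)) (.X 1 (.c 48 (.c 0 (.c 16 (.c 8 (.c 40 .nil))))) (.l 8385 .nil))) (.node (.X 1 (.c 48 (.c 0 (.c 32 (.c 16 (.c 40 .nil))))) (.l 4673 .nil)) (.X 1 (.c 48 (.c 40 (.c 16 (.c 0 (.c 24 .nil))))) (.l 8257 .nil))))) (.node (.node (.node (.X 1 (.c 48 (.c 0 (.c 40 (.c 8 (.c 24 .nil))))) (.l 8321 .nil)) (.X 1 (.c 32 (.c 8 (.c 24 (.c 0 (.c 40 .nil))))) (.l 18561 .nil))) (.node (.X 1 (.c 32 (.c 8 (.c 16 (.c 0 (.c 24 .nil))))) (.l 18753 .nil)) (.X 1 (.c 40 (.c 32 (.c 8 (.c 0 (.c 16 .nil))))) (.l 18625 .nil)))) (.node (.node (.X 1 (.c 40 (.c 8 (.c 16 (.c 0 (.c 48 .nil))))) (.l 8385 .nil)) (.X 1 (.c 32 (.c 16 (.c 8 (.c 0 (.c 24 .nil))))) (.l 18753 .nil))) (.node (.X 1 (.c 48 (.c 16 (.c 8 (.c 0 (.c 24 .nil))))) (.l 13057 .nil)) (.X 1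 (.c 40 (.c 32 (.c 16 (.c 0 (.c 8 .nil))))) (.l 18625 .nil)))))) (.node (.node (.node (.node (.X 1 (.c 48 (.c 0 (.c 24 (.c 16 (.c 32 .nil))))) (.l 12865 .nil)) (.X 1 (.c 48 (.c 40 (.c 32 (.c 0 (.c 24 .nil))))) (.l 2113 .nil))) (.node (.X 1 (.c 48 (.c 0 (.c 32 (.c 8 (.c 40 .nil))))) (.l 4737 .nil)) (.X 1 (.c 48 (.c 8 (.c 16 (.c 0 (.c 32 .nil))))) (.l 12993 .nil)))) (.node (.node (.X 1 (.c 40 (.c 24 (.c 16 (.c 0 (.c 8 .nil))))) (.l 18689 .nil)) (.X 1 (.c 48 (.c 0 (.c 40 (.c 8 (.c 32 .nil))))) (.l 4737 .nil))) (.node (.X 1 (.c 24 (.c 8 (.c 16 (.c 0 (.c 40 .nil))))) (.l 18689 .nil)) (.X 1 (.c 32 (.c 8 (.c 16 (.c 0 (.c 40 .nil))))) (.l 18625 .nil))))) (.node (.node (.node (.X 1 (.c 40 (.c 8 (.c 32 (.c 0 (.c 48 .nil))))) (.l 4737 .nil)) (.X 1 (.c 48 (.c 40 (.c 8 (.c 0 (.c 32 .nil))))) (.l 4737 .nil))) (.node (.X 1 (.c 40 (.c 0 (.c 24 (.c 8 (.c 16 .nil))))) (.l 18689 .nil)) (.X 1 (.c 40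 (.c 32 (.c 8 (.c 0 (.c 48 .nil))))) (.l 4737 .nil)))) (.node (.node (.X 1 (.c 48 (.c 16 (.c 8 (.c 0 (.c 32 .nil))))) (.l 12993 .nil)) (.X 1 (.c 48 (.c 24 (.c 16 (.c 0 (.c 32 .nil))))) (.l 12865 .nil))) (.node (.X 1 (.c 48 (.c 16 (.c 32 (.c 0 (.c 8 .nil))))) (.l 12993 .nil)) (.X 1 (.c 48 (.c 0 (.c 40 (.c 24 (.c 32 .nil))))) (.l 2113 .nil))))))))

noncomputable def c4_139 : Tr := (.node (.node (.node (.node (.node (.node (.X 1 (.c 48 (.c 24 (.c 16 (.c 0 (.c 8 .nil))))) (.l 13057 .nil)) (.X 1 (.c 32 (.c 16 (.c 24 (.c 0 (.c 8 .nil))))) (.l 18753 .nil))) (.node (.X 1 (.c 40 (.c 8 (.c 24 (.c 0 (.c 48 .nil))))) (.l 8321 .nil)) (.X 1 (.c 40 (.c 32 (.c 24 (.c 0 (.c 8 .nil))))) (.l 18561 .nil)))) (.node (.node (.X 1 (.c 48 (.c 32 (.c 40 (.c 0 (.c 16 .nil))))) (.l 4673 .nil)) (.X 1 (.c 40 (.c 0 (.c 24 (.c 16 (.c 48 .nil))))) (.l 8257 .nil))) (.node (.X 1 (.c 48 (.c 32 (.c 24 (.c 0 (.c 8 .nil)))))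 (.l 12929 .nil)) (.X 1 (.c 48 (.c 0 (.c 40 (.c 24 (.c 16 .nil))))) (.l 8257 .nil))))) (.node (.node (.node (.X 1 (.c 48 (.c 8 (.c 40 (.c 0 (.c 16 .nil))))) (.l 8385 .nil)) (.X 1 (.c 40 (.c 24 (.c 32 (.c 0 (.c 8 .nil))))) (.l 18561 .nil))) (.node (.X 1 (.c 48 (.c 0 (.c 32 (.c 8 (.c 24 .nil))))) (.l 12929 .nil)) (.X 1 (.c 40 (.c 24 (.c 32 (.c 0 (.c 16 .nil))))) (.l 18497 .nil)))) (.node (.node (.X 0 (.c 48 (.c 24 (.c 8 (.c 0 .nil)))) (.b 16 (.l 13057 .nil))) (.X 4 (.c 2718203977 (.c 40 (.c 24 (.c 16 (.c 32 .nil))))) .nil)) (.node (.X 0 (.c 18433 (.c 24 (.c 16 (.c 8 .nil)))) (.l 13057 .nil)) (.X 0 (.c 18433 (.c 32 (.c 24 (.c 16 .nil)))) (.l 12865 .nil)))))) (.node (.node (.node (.node (.X 4 (.c 48 (.c 32 (.c 24 (.c 33587273 (.c 40 .nil))))) .nil) (.X 0 (.c 40 (.c 8193 (.c 24 (.c 16 .nil)))) (.l 18497 .nil))) (.node (.X 0 (.c 48 (.c 40 (.c 32 (.c 2049 .nil)))) (.l 4673 .nil)) (.X 4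 (.c 2105737 (.c 40 (.c 24 (.c 16 (.c 32 .nil))))) .nil))) (.node (.node (.X 4 (.c 43059203 (.c 32 (.c 24 (.c 8 (.c 40 .nil))))) .nil) (.X 4 (.c 24 (.c 16 (.c 8 (.c 0 (.c 43954947 .nil))))) .nil)) (.node (.X 0 (.c 40 (.c 32 (.c 8 (.c 0 .nil)))) (.b 16 (.l 18625 .nil))) (.X 0 (.c 40 (.c 32 (.c 2049 (.c 8 .nil)))) (.l 18625 .nil))))) (.node (.node (.node (.X 4 (.c 33587593 (.c 32 (.c 24 (.c 8 (.c 40 .nil))))) .nil) (.X 4 (.c 40 (.c 16 (.c 8 (.c 0 (.c 43655363 .nil))))) .nil)) (.node (.X 0 (.c 18433 (.c 40 (.c 16 (.c 8 .nil)))) (.l 8385 .nil)) (.X 0 (.c 48 (.c 40 (.c 4609 (.c 16 .nil)))) (.l 8257 .nil)))) (.node (.node (.X 4 (.c 2718204041 (.c 32 (.c 24 (.c 8 (.c 40 .nil))))) .nil) (.X 4 (.c 32 (.c 16 (.c 8 (.c 0 (.c 43954883 .nil))))) .nil)) (.node (.X 4 (.c 40 (.c 32 (.c 2803715 (.c 8 (.c 48 .nil))))) .nil) (.X 0 (.c 18433 (.c 32 (.c 24 (.c 8 .nil)))) (.l 12929 .nil))))))) (.node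 (.node (.node (.node (.node (.X 4 (.c 43356675 (.c 32 (.c 16 (.c 8 (.c 40 .nil))))) .nil) (.X 4 (.c 40 (.c 32 (.c 33587401 (.c 8 (.c 48 .nil))))) .nil)) (.node (.X 4 (.c 32 (.c 24 (.c 16 (.c 8 (.c 40 .nil))))) (.l 18433 .nil)) (.X 0 (.c 48 (.c 40 (.c 32 (.c 513 .nil)))) (.l 4737 .nil)))) (.node (.node (.X 4 (.c 537002377 (.c 24 (.c 16 (.c 8 (.c 40 .nil))))) .nil) (.X 0 (.c 40 (.c 4609 (.c 16 (.c 8 .nil)))) (.l 18689 .nil))) (.node (.X 0 (.c 48 (.c 40 (.c 8 (.c 0 .nil)))) (.b 24 (.l 8321 .nil))) (.X 0 (.c 48 (.c 40 (.c 8 (.c 0 .nil)))) (.b 16 (.l 8385 .nil)))))) (.node (.node (.node (.X 0 (.c 12801 (.c 32 (.c 24 (.c 8 .nil)))) (.l 18561 .nil)) (.X 4 (.c 40 (.c 32 (.c 24 (.c 8 (.c 48 .nil))))) (.l 2049 .nil))) (.node (.X 4 (.c 48 (.c 20891651 (.c 24 (.c 8 (.c 32 .nil))))) .nil) (.X 4 (.c 48 (.c 32 (.c 24 (.c 16 (.c 40 .nil))))) (.l 513 .nil)))) (.node (.node (.X 4 (.c 43356675 (.c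 40 (.c 16 (.c 8 (.c 32 .nil))))) .nil) (.X 4 (.c 2718204105 (.c 32 (.c 16 (.c 8 (.c 40 .nil))))) .nil)) (.node (.X 4 (.c 48 (.c 32 (.c 2728451 (.c 16 (.c 40 .nil))))) .nil) (.X 4 (.c 48 (.c 1310925001 (.c 16 (.c 8 (.c 32 .nil))))) .nil))))) (.node (.node (.node (.node (.X 4 (.c 40 (.c 32 (.c 24 (.c 33587273 (.c 48 .nil))))) .nil) (.X 4 (.c 48 (.c 169943369 (.c 16 (.c 8 (.c 32 .nil))))) .nil)) (.node (.X 0 (.c 48 (.c 24 (.c 16 (.c 513 .nil)))) (.l 13057 .nil)) (.X 4 (.c 537002377 (.c 40 (.c 16 (.c 8 (.c 24 .nil))))) .nil))) (.node (.node (.X 4 (.c 2718204169 (.c 24 (.c 16 (.c 8 (.c 40 .nil))))) .nil) (.X 4 (.c 48 (.c 32 (.c 24 (.c 2105481 (.c 40 .nil))))) .nil)) (.node (.X 4 (.c 48 (.c 16 (.c 8 (.c 0 (.c 21307587 .nil))))) .nil) (.X 4 (.c 48 (.c 32 (.c 24 (.c 557571 (.c 40 .nil))))) .nil)))) (.node (.node (.node (.X 0 (.c 32 (.c 24 (.c 2049 (.c 8 .nil)))) (.l 18753 .nil)) (.X 0 (.c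 48 (.c 16 (.c 8 (.c 0 .nil)))) (.b 24 (.l 13057 .nil)))) (.node (.X 0 (.c 48 (.c 12801 (.c 16 (.c 8 .nil)))) (.l 8385 .nil)) (.X 4 (.c 40 (.c 32 (.c 2728451 (.c 16 (.c 48 .nil))))) .nil))) (.node (.node (.X 0 (.c 40 (.c 24 (.c 16 (.c 513 .nil)))) (.l 18689 .nil)) (.X 4 (.c 40 (.c 32 (.c 169943113 (.c 16 (.c 48 .nil))))) .nil)) (.node (.X 4 (.c 48 (.c 32 (.c 16 (.c 8 (.c 40 .nil))))) (.l 4609 .nil)) (.X 4 (.c 40 (.c 32 (.c 24 (.c 557571 (.c 48 .nil))))) .nil)))))))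

noncomputable def c4_140 : Tr := (.node (.node (.node (.node (.node (.node (.X 0 (.c 18433 (.c 40 (.c 32 (.c 8 .nil)))) (.l 4737 .nil)) (.X 4 (.c 48 (.c 33587529 (.c 24 (.c 8 (.c 32 .nil))))) .nil)) (.node (.X 0 (.c 48 (.c 12801 (.c 24 (.c 16 .nil)))) (.l 8257 .nil)) (.X 4 (.c 48 (.c 24 (.c 16 (.c 8 (.c 32 .nil))))) (.l 12801 .nil)))) (.node (.node (.X 0 (.c 48 (.c 4609 (.c 16 (.c 8 .nil)))) (.l 13057 .nil)) (.X 4 (.c 48 (.c 2105609 (.c 24 (.c 16 (.c 40 .nil))))) .nil)) (.node (.X 0 (.c 48 (.c 40 (.c 8193 (.c 24 .nil)))) (.l 2113 .nil)) (.X 4 (.c 1310924873 (.c 32 (.c 24 (.c 16 (.c 48 .nil))))) .nil)))) (.node (.node (.node (.X 4 (.c 48 (.c 1310925065 (.c 16 (.c 8 (.c 24 .nil))))) .nil) (.X 4 (.c 40 (.c 169943305 (.c 16 (.c 8 (.c 48 .nil))))) .nil)) (.node (.X 0 (.c 40 (.c 24 (.c 8 (.c 0 .nil)))) (.b 16 (.l 18689 .nil))) (.X 0 (.c 48 (.c 32 (.c 24 (.c 513 .nil)))) (.l 12929 .nil))))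 (.node (.node (.X 0 (.c 48 (.c 40 (.c 16 (.c 513 .nil)))) (.l 8385 .nil)) (.X 0 (.c 40 (.c 32 (.c 24 (.c 2049 .nil)))) (.l 18497 .nil))) (.node (.X 4 (.c 40 (.c 32 (.c 16 (.c 8 (.c 48 .nil))))) (.l 4609 .nil)) (.X 4 (.c 1310924937 (.c 32 (.c 24 (.c 8 (.c 48 .nil))))) .nil))))) (.node (.node (.node (.node (.X 0 (.c 48 (.c 40 (.c 2049 (.c 8 .nil)))) (.l 8385 .nil)) (.X 0 (.c 18433 (.c 40 (.c 32 (.c 16 .nil)))) (.l 4673 .nil))) (.node (.X 0 (.c 32 (.c 24 (.c 8 (.c 0 .nil)))) (.b 48 (.l 12929 .nil))) (.X 4 (.c 48 (.c 8520195 (.c 24 (.c 16 (.c 40 .nil))))) .nil))) (.node (.node (.X 0 (.c 48 (.c 32 (.c 4609 (.c 8 .nil)))) (.l 12929 .nil)) (.X 0 (.c 40 (.c 24 (.c 8 (.c 0 .nil)))) (.b 32 (.l 18561 .nil)))) (.node (.X 4 (.c 33587529 (.c 32 (.c 24 (.c 8 (.c 48 .nil))))) .nil) (.X 0 (.c 40 (.c 32 (.c 16 (.c 0 .nil)))) (.b 8 (.l 18625 .nil)))))) (.node (.node (.node (.X 0 (.c 32 (.c 24 (.c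 8 (.c 0 .nil)))) (.b 40 (.l 18561 .nil))) (.X 0 (.c 48 (.c 40 (.c 4609 (.c 8 .nil)))) (.l 8321 .nil))) (.node (.X 0 (.c 40 (.c 32 (.c 16 (.c 0 .nil)))) (.b 24 (.l 18497 .nil))) (.X 4 (.c 48 (.c 20685315 (.c 24 (.c 16 (.c 32 .nil))))) .nil))) (.node (.node (.X 0 (.c 32 (.c 24 (.c 8 (.c 0 .nil)))) (.b 16 (.l 18753 .nil))) (.X 4 (.c 48 (.c 2105673 (.c 24 (.c 16 (.c 32 .nil))))) .nil)) (.node (.X 0 (.c 48 (.c 32 (.c 16 (.c 0 .nil)))) (.b 40 (.l 4673 .nil))) (.X 4 (.c 48 (.c 32 (.c 33587401 (.c 8 (.c 40 .nil))))) .nil)))))) (.node (.node (.node (.node (.node (.X 4 (.c 40 (.c 537002121 (.c 24 (.c 8 (.c 48 .nil))))) .nil) (.X 0 (.c 48 (.c 32 (.c 24 (.c 0 .nil)))) (.b 16 (.l 12865 .nil)))) (.node (.X 0 (.c 40 (.c 32 (.c 24 (.c 513 .nil)))) (.l 18561 .nil)) (.X 4 (.c 1310925065 (.c 24 (.c 16 (.c 8 (.c 48 .nil))))) .nil))) (.node (.node (.X 4 (.c 20891651 (.c 32 (.c 24 (.c 8 (.c 48 .nil)))))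 .nil) (.X 4 (.c 48 (.c 32 (.c 2803715 (.c 8 (.c 40 .nil))))) .nil)) (.node (.X 0 (.c 40 (.c 32 (.c 8 (.c 0 .nil)))) (.b 24 (.l 18561 .nil))) (.X 0 (.c 48 (.c 8193 (.c 24 (.c 16 .nil)))) (.l 12865 .nil))))) (.node (.node (.node (.X 0 (.c 48 (.c 24 (.c 8 (.c 0 .nil)))) (.b 32 (.l 12929 .nil))) (.X 4 (.c 48 (.c 33587465 (.c 24 (.c 8 (.c 40 .nil))))) .nil)) (.node (.X 0 (.c 48 (.c 12801 (.c 32 (.c 16 .nil)))) (.l 4673 .nil)) (.X 4 (.c 48 (.c 537002121 (.c 24 (.c 8 (.c 40 .nil))))) .nil))) (.node (.node (.X 4 (.c 42762755 (.c 40 (.c 24 (.c 16 (.c 32 .nil))))) .nil) (.X 0 (.c 48 (.c 40 (.c 8193 (.c 16 .nil)))) (.l 4673 .nil))) (.node (.X 4 (.c 43059203 (.c 40 (.c 24 (.c 8 (.c 32 .nil))))) .nil) (.X 0 (.c 48 (.c 32 (.c 8 (.c 0 .nil)))) (.b 16 (.l 12993 .nil))))))) (.node (.node (.node (.node (.X 0 (.c 40 (.c 24 (.c 16 (.c 0 .nil)))) (.b 32 (.l 18497 .nil))) (.X 4 (.c 20685315 (.c 32 (.c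 24 (.c 16 (.c 48 .nil))))) .nil)) (.node (.X 4 (.c 40 (.c 8520195 (.c 24 (.c 16 (.c 48 .nil))))) .nil) (.X 4 (.c 48 (.c 21307395 (.c 16 (.c 8 (.c 24 .nil))))) .nil))) (.node (.node (.X 4 (.c 48 (.c 537002313 (.c 16 (.c 8 (.c 24 .nil))))) .nil) (.X 4 (.c 42762755 (.c 32 (.c 24 (.c 16 (.c 40 .nil))))) .nil)) (.node (.X 0 (.c 48 (.c 24 (.c 16 (.c 0 .nil)))) (.b 32 (.l 12865 .nil))) (.X 4 (.c 21307395 (.c 24 (.c 16 (.c 8 (.c 48 .nil))))) .nil)))) (.node (.node (.node (.X 4 (.c 2105737 (.c 32 (.c 24 (.c 16 (.c 40 .nil))))) .nil) (.X 4 (.c 48 (.c 40 (.c 8 (.c 0 (.c 8786563 .nil))))) .nil)) (.node (.X 4 (.c 48 (.c 40 (.c 8520195 (.c 16 (.c 24 .nil))))) .nil) (.X 4 (.c 48 (.c 40 (.c 2803715 (.c 8 (.c 32 .nil))))) .nil))) (.node (.node (.X 4 (.c 48 (.c 537002313 (.c 24 (.c 8 (.c 16 .nil))))) .nil) (.X 4 (.c 48 (.c 40 (.c 33587401 (.c 8 (.c 32 .nil))))) .nil)) (.node (.X 4 (.c 48 (.c 21307395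 (.c 24 (.c 8 (.c 16 .nil))))) .nil) (.X 4 (.c 48 (.c 40 (.c 24 (.c 557571 (.c 32 .nil))))) .nil)))))))

noncomputable def c4_141 : Tr := (.node (.node (.node (.node (.node (.node (.X 4 (.c 48 (.c 40 (.c 24 (.c 2105481 (.c 32 .nil))))) .nil) (.X 4 (.c 48 (.c 40 (.c 24 (.c 33587273 (.c 32 .nil))))) .nil)) (.node (.X 4 (.c 1310925193 (.c 32 (.c 24 (.c 8 (.c 16 .nil))))) .nil) (.X 4 (.c 48 (.c 40 (.c 2728451 (.c 16 (.c 32 .nil))))) .nil))) (.node (.node (.X 4 (.c 169943433 (.c 40 (.c 32 (.c 8 (.c 16 .nil))))) .nil) (.X 4 (.c 43356675 (.c 40 (.c 32 (.c 8 (.c 16 .nil))))) .nil)) (.node (.X 4 (.c 48 (.c 1310924937 (.c 32 (.c 8 (.c 24 .nil))))) .nil) (.X 4 (.c 48 (.c 20891651 (.c 32 (.c 8 (.c 24 .nil))))) .nil)))) (.node (.node (.node (.X 4 (.c 33587593 (.c 40 (.c 32 (.c 8 (.c 24 .nil))))) .nil) (.X 4 (.c 43059203 (.c 40 (.c 32 (.c 8 (.c 24 .nil))))) .nil)) (.node (.X 4 (.c 40 (.c 32 (.c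 16 (.c 8 (.c 24 .nil))))) (.l 18433 .nil)) (.X 4 (.c 48 (.c 20685315 (.c 32 (.c 16 (.c 24 .nil))))) .nil))) (.node (.node (.X 4 (.c 48 (.c 2105673 (.c 32 (.c 16 (.c 24 .nil))))) .nil) (.X 4 (.c 48 (.c 1310924873 (.c 32 (.c 16 (.c 24 .nil))))) .nil)) (.node (.X 4 (.c 2105737 (.c 40 (.c 32 (.c 16 (.c 24 .nil))))) .nil) (.X 4 (.c 42762755 (.c 40 (.c 32 (.c 16 (.c 24 .nil))))) .nil))))) (.node (.node (.node (.node (.X 4 (.c 48 (.c 1310925001 (.c 32 (.c 8 (.c 16 .nil))))) .nil) (.X 4 (.c 537002377 (.c 40 (.c 24 (.c 8 (.c 16 .nil))))) .nil)) (.node (.X 4 (.c 40 (.c 32 (.c 8 (.c 0 (.c 43356803 .nil))))) .nil) (.X 4 (.c 48 (.c 40 (.c 537002057 (.c 16 (.c 24 .nil))))) .nil))) (.node (.node (.X 4 (.c 40 (.c 24 (.c 8 (.c 0 (.c 43655299 .nil))))) .nil) (.X 4 (.c 48 (.c 40 (.c 537002121 (.c 8 (.c 24 .nil))))) .nil)) (.node (.X 4 (.c 48 (.c 40 (.c 169943305 (.c 8 (.c 16 .nil))))) .nil) (.X 4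 (.c 48 (.c 40 (.c 32 (.c 8 (.c 24 .nil))))) (.l 2049 .nil))))) (.node (.node (.node (.X 4 (.c 48 (.c 40 (.c 32 (.c 2803715 (.c 8 .nil))))) .nil) (.X 4 (.c 48 (.c 40 (.c 32 (.c 33587401 (.c 8 .nil))))) .nil)) (.node (.X 4 (.c 48 (.c 40 (.c 537002057 (.c 24 (.c 16 .nil))))) .nil) (.X 4 (.c 48 (.c 40 (.c 2105609 (.c 24 (.c 16 .nil))))) .nil))) (.node (.node (.X 4 (.c 48 (.c 40 (.c 8520195 (.c 24 (.c 16 .nil))))) .nil) (.X 4 (.c 48 (.c 40 (.c 537002121 (.c 24 (.c 8 .nil))))) .nil)) (.node (.X 4 (.c 48 (.c 40 (.c 33587465 (.c 24 (.c 8 .nil))))) .nil) (.X 4 (.c 48 (.c 169943369 (.c 32 (.c 16 (.c 8 .nil))))) .nil)))))) (.node (.node (.node (.node (.node (.X 4 (.c 48 (.c 1310925001 (.c 32 (.c 16 (.c 8 .nil))))) .nil) (.X 4 (.c 48 (.c 20685315 (.c 32 (.c 24 (.c 16 .nil))))) .nil)) (.node (.X 4 (.c 48 (.c 40 (.c 32 (.c 0 (.c 2803779 .nil))))) .nil) (.X 4 (.c 48 (.c 20891651 (.c 32 (.c 24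 (.c 8 .nil))))) .nil))) (.node (.node (.X 4 (.c 48 (.c 33587529 (.c 32 (.c 24 (.c 8 .nil))))) .nil) (.X 4 (.c 48 (.c 40 (.c 32 (.c 2105545 (.c 16 .nil))))) .nil)) (.node (.X 4 (.c 48 (.c 40 (.c 32 (.c 169943113 (.c 16 .nil))))) .nil) (.X 4 (.c 48 (.c 40 (.c 32 (.c 557571 (.c 24 .nil))))) .nil)))) (.node (.node (.node (.X 4 (.c 48 (.c 40 (.c 32 (.c 2105481 (.c 24 .nil))))) .nil) (.X 4 (.c 48 (.c 537002313 (.c 24 (.c 16 (.c 8 .nil))))) .nil)) (.node (.X 4 (.c 48 (.c 40 (.c 32 (.c 8 (.c 16 .nil))))) (.l 4609 .nil)) (.X 4 (.c 48 (.c 21307395 (.c 24 (.c 16 (.c 8 .nil))))) .nil))) (.node (.node (.X 4 (.c 48 (.c 40 (.c 32 (.c 2728451 (.c 16 .nil))))) .nil) (.X 4 (.c 40 (.c 32 (.c 24 (.c 8 (.c 16 .nil))))) (.l 18433 .nil))) (.node (.X 4 (.c 48 (.c 32 (.c 24 (.c 0 (.c 20891715 .nil))))) .nil) (.X 4 (.c 2718204041 (.c 40 (.c 32 (.c 24 (.c 8 .nil))))) .nil))))) (.node (.node (.node (.node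 (.X 4 (.c 2718204105 (.c 40 (.c 32 (.c 16 (.c 8 .nil))))) .nil) (.X 4 (.c 43356675 (.c 40 (.c 32 (.c 16 (.c 8 .nil))))) .nil)) (.node (.X 4 (.c 43059203 (.c 40 (.c 32 (.c 24 (.c 8 .nil))))) .nil) (.X 4 (.c 48 (.c 32 (.c 24 (.c 8 (.c 16 .nil))))) (.l 12801 .nil)))) (.node (.node (.X 4 (.c 40 (.c 32 (.c 16 (.c 0 (.c 43356739 .nil))))) .nil) (.X 4 (.c 42762755 (.c 40 (.c 32 (.c 24 (.c 16 .nil))))) .nil)) (.node (.X 4 (.c 40 (.c 32 (.c 24 (.c 0 (.c 43059267 .nil))))) .nil) (.X 4 (.c 48 (.c 24 (.c 16 (.c 0 (.c 21307459 .nil))))) .nil)))) (.node (.node (.node (.X 0 (.c 48 (.c 8257 (.c 24 (.c 2049 .nil)))) (.l 40 .nil)) (.X 0 (.c 48 (.c 8257 (.c 4609 (.c 16 .nil)))) (.l 40 .nil))) (.node (.X 0 (.c 32 (.c 4673 (.c 16 (.c 0 .nil)))) (.b 40 (.l 48 .nil))) (.X 0 (.c 48 (.c 12993 (.c 32 (.c 2049 .nil)))) (.l 8 .nil)))) (.node (.node (.X 0 (.c 12929 (.c 32 (.c 24 (.c 513 .nil)))) (.l 48 .nil))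 (.X 0 (.c 48 (.c 12993 (.c 32 (.c 513 .nil)))) (.l 16 .nil))) (.node (.X 0 (.c 545424777 (.c 40 (.c 4609 (.c 16 .nil)))) .nil) (.X 0 (.c 48 (.c 40 (.c 545424521 (.c 4609 .nil)))) .nil)))))))

noncomputable def c4_142 : Tr := (.node (.node (.node (.node (.node (.node (.X 0 (.c 48 (.c 40 (.c 8193 (.c 2113 .nil)))) (.l 24 .nil)) (.X 0 (.c 1324065929 (.c 32 (.c 24 (.c 0 .nil)))) (.b 48 .nil))) (.node (.X 0 (.c 48 (.c 8321 (.c 24 (.c 513 .nil)))) (.l 40 .nil)) (.X 0 (.c 2737112393 (.c 32 (.c 4609 (.c 16 .nil)))) .nil))) (.node (.node (.X 0 (.c 48 (.c 40 (.c 8257 (.c 2049 .nil)))) (.l 24 .nil)) (.X 0 (.c 48 (.c 40 (.c 4609 (.c 2113 .nil)))) (.l 32 .nil))) (.node (.X 0 (.c 18561 (.c 40 (.c 32 (.c 0 .nil)))) (.b 8 (.l 24 .nil))) (.X 0 (.c 174695817 (.c 40 (.c 8193 (.c 16 .nil)))) .nil)))) (.node (.node (.node (.X 0 (.c 48 (.c 40 (.c 4673 (.c 2049 .nil)))) (.l 32 .nil)) (.X 0 (.c 18561 (.c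 40 (.c 32 (.c 0 .nil)))) (.b 24 (.l 8 .nil)))) (.node (.X 0 (.c 545424777 (.c 12801 (.c 24 (.c 16 .nil)))) .nil) (.X 0 (.c 2737112329 (.c 40 (.c 4609 (.c 16 .nil)))) .nil))) (.node (.node (.X 0 (.c 2737112265 (.c 40 (.c 32 (.c 2049 .nil)))) .nil) (.X 0 (.c 48 (.c 12801 (.c 32 (.c 4737 .nil)))) (.l 8 .nil))) (.node (.X 0 (.c 18433 (.c 32 (.c 4673 (.c 16 .nil)))) (.l 40 .nil)) (.X 0 (.c 48 (.c 12801 (.c 8321 (.c 24 .nil)))) (.l 8 .nil)))))) (.node (.node (.node (.node (.X 0 (.c 18433 (.c 32 (.c 24 (.c 2113 .nil)))) (.l 40 .nil)) (.X 0 (.c 48 (.c 12865 (.c 24 (.c 2049 .nil)))) (.l 32 .nil))) (.node (.X 0 (.c 48 (.c 12801 (.c 4673 (.c 16 .nil)))) (.l 32 .nil)) (.X 0 (.c 48 (.c 545424585 (.c 16 (.c 0 .nil)))) (.b 40 .nil)))) (.node (.node (.X 0 (.c 48 (.c 12801 (.c 24 (.c 2113 .nil)))) (.l 32 .nil)) (.X 0 (.c 48 (.c 12929 (.c 24 (.c 513 .nil)))) (.l 32 .nil))) (.node (.X 0 (.c 48 (.c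 12865 (.c 24 (.c 0 .nil)))) (.b 32 (.l 16 .nil))) (.X 0 (.c 1324066185 (.c 8193 (.c 24 (.c 16 .nil)))) .nil)))) (.node (.node (.node (.X 0 (.c 12865 (.c 32 (.c 24 (.c 0 .nil)))) (.b 48 (.l 16 .nil))) (.X 0 (.c 48 (.c 12929 (.c 8193 (.c 24 .nil)))) (.l 8 .nil))) (.node (.X 0 (.c 48 (.c 40 (.c 4737 (.c 513 .nil)))) (.l 32 .nil)) (.X 0 (.c 2737112265 (.c 40 (.c 8193 (.c 16 .nil)))) .nil))) (.node (.node (.X 0 (.c 18561 (.c 32 (.c 24 (.c 513 .nil)))) (.l 40 .nil)) (.X 0 (.c 12865 (.c 32 (.c 4609 (.c 16 .nil)))) (.l 48 .nil))) (.node (.X 0 (.c 174695817 (.c 12801 (.c 32 (.c 16 .nil)))) .nil) (.X 0 (.c 48 (.c 35718409 (.c 24 (.c 0 .nil)))) (.b 40 .nil))))))) (.node (.node (.node (.node (.node (.X 0 (.c 2737112265 (.c 12801 (.c 32 (.c 16 .nil)))) .nil) (.X 0 (.c 48 (.c 40 (.c 35718345 (.c 0 .nil)))) (.b 32 .nil))) (.node (.X 0 (.c 48 (.c 1324065993 (.c 32 (.c 0 .nil)))) (.b 16 .nil)) (.X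 0 (.c 18561 (.c 40 (.c 32 (.c 513 .nil)))) (.l 24 .nil)))) (.node (.node (.X 0 (.c 35718537 (.c 40 (.c 32 (.c 0 .nil)))) (.b 24 .nil)) (.X 0 (.c 2737112201 (.c 40 (.c 32 (.c 0 .nil)))) (.b 24 .nil))) (.node (.X 0 (.c 48 (.c 12929 (.c 24 (.c 0 .nil)))) (.b 32 (.l 8 .nil))) (.X 0 (.c 18561 (.c 32 (.c 24 (.c 0 .nil)))) (.b 40 (.l 8 .nil)))))) (.node (.node (.node (.X 0 (.c 18433 (.c 12865 (.c 32 (.c 16 .nil)))) (.l 24 .nil)) (.X 0 (.c 545424777 (.c 40 (.c 16 (.c 0 .nil)))) (.b 24 .nil))) (.node (.X 0 (.c 18497 (.c 40 (.c 8193 (.c 16 .nil)))) (.l 24 .nil)) (.X 0 (.c 48 (.c 40 (.c 4737 (.c 0 .nil)))) (.b 32 (.l 8 .nil))))) (.node (.node (.X 0 (.c 48 (.c 32 (.c 4673 (.c 0 .nil)))) (.b 40 (.l 16 .nil))) (.X 0 (.c 48 (.c 12993 (.c 32 (.c 0 .nil)))) (.b 8 (.l 16 .nil)))) (.node (.X 0 (.c 18433 (.c 40 (.c 32 (.c 4673 .nil)))) (.l 16 .nil)) (.X 0 (.c 48 (.c 1324065993 (.c 8193 (.c 16 .nil))))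 .nil))))) (.node (.node (.node (.node (.X 0 (.c 48 (.c 40 (.c 8321 (.c 4609 .nil)))) (.l 8 .nil)) (.X 0 (.c 48 (.c 12929 (.c 32 (.c 513 .nil)))) (.l 24 .nil))) (.node (.X 0 (.c 40 (.c 545424521 (.c 24 (.c 0 .nil)))) (.b 48 .nil)) (.X 0 (.c 40 (.c 35718409 (.c 24 (.c 0 .nil)))) (.b 48 .nil)))) (.node (.node (.X 0 (.c 48 (.c 12865 (.c 32 (.c 0 .nil)))) (.b 16 (.l 24 .nil))) (.X 0 (.c 48 (.c 12801 (.c 32 (.c 4673 .nil)))) (.l 16 .nil))) (.node (.X 0 (.c 48 (.c 40 (.c 8257 (.c 0 .nil)))) (.b 16 (.l 24 .nil))) (.X 0 (.c 40 (.c 4673 (.c 16 (.c 0 .nil)))) (.b 48 (.l 32 .nil)))))) (.node (.node (.node (.X 0 (.c 40 (.c 32 (.c 24 (.c 0 .nil)))) (.l 2737112201 .nil)) (.X 0 (.c 32 (.c 16 (.c 8 (.c 0 .nil)))) (.l 1350544777 .nil))) (.node (.X 0 (.c 40 (.c 32 (.c 24 (.c 0 .nil)))) (.l 35718537 .nil)) (.X 0 (.c 40 (.c 32 (.c 8 (.c 0 .nil)))) (.l 2756085961 .nil)))) (.node (.node (.X 0 (.c 40 (.c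 24 (.c 16 (.c 0 .nil)))) (.l 2737112329 .nil)) (.X 0 (.c 48 (.c 32 (.c 8 (.c 0 .nil)))) (.l 179513673 .nil))) (.node (.X 0 (.c 40 (.c 24 (.c 8 (.c 0 .nil)))) (.l 553912713 .nil)) (.X 0 (.c 32 (.c 24 (.c 8 (.c 0 .nil)))) (.l 2756086089 .nil))))))))

noncomputable def c4_143 : Tr := (.node (.node (.node (.node (.node (.node (.X 0 (.c 40 (.c 16 (.c 8 (.c 0 .nil)))) (.l 562466185 .nil)) (.X 0 (.c 32 (.c 24 (.c 16 (.c 0 .nil)))) (.l 2737112393 .nil))) (.node (.X 0 (.c 48 (.c 40 (.c 24 (.c 0 .nil)))) (.l 545424521 .nil)) (.X 0 (.c 48 (.c 40 (.c 16 (.c 0 .nil)))) (.l 174695689 .nil)))) (.node (.node (.X 0 (.c 48 (.c 24 (.c 16 (.c 0 .nil)))) (.l 1324066057 .nil)) (.X 0 (.c 32 (.c 24 (.c 16 (.c 0 .nil)))) (.l 1324066185 .nil))) (.node (.X 0 (.c 48 (.c 40 (.c 8 (.c 0 .nil)))) (.l 553912521 .nil)) (.X 4 (.c 40 (.c 24 (.c 16 (.c 513 (.c 18689 .nil))))) .nil)))) (.node (.node (.node (.X 4 (.c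 40 (.c 32 (.c 4609 (.c 16 (.c 18497 .nil))))) .nil) (.X 4 (.c 40 (.c 24 (.c 2049 (.c 8 (.c 18689 .nil))))) .nil)) (.node (.X 4 (.c 40 (.c 4609 (.c 16 (.c 8 (.c 18689 .nil))))) .nil) (.X 4 (.c 40 (.c 32 (.c 2049 (.c 8 (.c 18625 .nil))))) .nil))) (.node (.node (.X 4 (.c 40 (.c 8193 (.c 24 (.c 16 (.c 18497 .nil))))) .nil) (.X 4 (.c 32 (.c 4609 (.c 16 (.c 8 (.c 18753 .nil))))) .nil)) (.node (.X 4 (.c 40 (.c 32 (.c 24 (.c 2049 (.c 18497 .nil))))) .nil) (.X 4 (.c 12801 (.c 32 (.c 24 (.c 16 (.c 18497 .nil))))) .nil))))) (.node (.node (.node (.node (.X 4 (.c 48 (.c 40 (.c 24 (.c 2049 (.c 8257 .nil))))) .nil) (.X 4 (.c 48 (.c 40 (.c 16 (.c 513 (.c 8385 .nil))))) .nil)) (.node (.X 4 (.c 48 (.c 40 (.c 2049 (.c 8 (.c 8385 .nil))))) .nil) (.X 4 (.c 48 (.c 40 (.c 24 (.c 513 (.c 8321 .nil))))) .nil))) (.node (.node (.X 0 (.c 48 (.c 12865 (.c 24 (.c 0 .nil)))) (.l 8321 .nil)) (.X 4 (.c 18433 (.c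 32 (.c 16 (.c 8 (.c 12993 .nil))))) .nil)) (.node (.X 0 (.c 40 (.c 32 (.c 4737 (.c 0 .nil)))) (.l 18497 .nil)) (.X 4 (.c 48 (.c 8193 (.c 24 (.c 8 (.c 12929 .nil))))) .nil)))) (.node (.node (.node (.X 0 (.c 40 (.c 8321 (.c 24 (.c 0 .nil)))) (.l 18497 .nil)) (.X 4 (.c 18433 (.c 32 (.c 24 (.c 16 (.c 12865 .nil))))) .nil)) (.node (.X 4 (.c 48 (.c 12801 (.c 32 (.c 24 (.c 2113 .nil))))) .nil) (.X 0 (.c 18497 (.c 32 (.c 24 (.c 0 .nil)))) (.l 12929 .nil)))) (.node (.node (.X 0 (.c 48 (.c 8321 (.c 24 (.c 0 .nil)))) (.l 12865 .nil)) (.X 0 (.c 48 (.c 32 (.c 4737 (.c 0 .nil)))) (.l 12865 .nil))) (.node (.X 0 (.c 48 (.c 32 (.c 4673 (.c 0 .nil)))) (.l 12929 .nil)) (.X 0 (.c 18497 (.c 40 (.c 16 (.c 0 .nil)))) (.l 8385 .nil))))))) (.node (.node (.node (.node (.node (.X 0 (.c 48 (.c 4673 (.c 16 (.c 0 .nil)))) (.l 13057 .nil)) (.X 0 (.c 12865 (.c 32 (.c 16 (.c 0 .nil)))) (.l 18625 .nil))) (.node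 (.X 4 (.c 40 (.c 32 (.c 4673 (.c 2049 (.c 48 .nil))))) .nil) (.X 4 (.c 40 (.c 32 (.c 4609 (.c 2113 (.c 48 .nil))))) .nil))) (.node (.node (.X 4 (.c 48 (.c 12801 (.c 4673 (.c 16 (.c 32 .nil))))) .nil) (.X 4 (.c 18561 (.c 40 (.c 24 (.c 513 (.c 32 .nil))))) .nil)) (.node (.X 4 (.c 18561 (.c 32 (.c 24 (.c 513 (.c 40 .nil))))) .nil) (.X 4 (.c 12929 (.c 32 (.c 24 (.c 513 (.c 48 .nil))))) .nil)))) (.node (.node (.node (.X 4 (.c 12801 (.c 32 (.c 24 (.c 2113 (.c 48 .nil))))) .nil) (.X 4 (.c 48 (.c 8193 (.c 24 (.c 2113 (.c 40 .nil))))) .nil)) (.node (.X 4 (.c 48 (.c 8193 (.c 4673 (.c 16 (.c 40 .nil))))) .nil) (.X 4 (.c 40 (.c 8257 (.c 24 (.c 2049 (.c 48 .nil))))) .nil))) (.node (.node (.X 4 (.c 48 (.c 8257 (.c 4609 (.c 16 (.c 40 .nil))))) .nil) (.X 4 (.c 18433 (.c 40 (.c 8257 (.c 16 (.c 24 .nil))))) .nil)) (.node (.X 4 (.c 12865 (.c 8193 (.c 24 (.c 16 (.c 48 .nil))))) .nil) (.X 4 (.c 12865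 (.c 32 (.c 4609 (.c 16 (.c 48 .nil))))) .nil))))) (.node (.node (.node (.node (.X 4 (.c 12865 (.c 32 (.c 24 (.c 2049 (.c 48 .nil))))) .nil) (.X 4 (.c 48 (.c 32 (.c 4673 (.c 2049 (.c 40 .nil))))) .nil)) (.node (.X 4 (.c 48 (.c 12801 (.c 8257 (.c 16 (.c 24 .nil))))) .nil) (.X 4 (.c 48 (.c 8321 (.c 24 (.c 513 (.c 40 .nil))))) .nil))) (.node (.node (.X 4 (.c 18433 (.c 8257 (.c 24 (.c 16 (.c 40 .nil))))) .nil) (.X 4 (.c 40 (.c 8257 (.c 4609 (.c 16 (.c 48 .nil))))) .nil)) (.node (.X 4 (.c 48 (.c 12865 (.c 4609 (.c 16 (.c 32 .nil))))) .nil) (.X 4 (.c 48 (.c 12865 (.c 8193 (.c 24 (.c 16 .nil))))) .nil)))) (.node (.node (.node (.X 4 (.c 48 (.c 40 (.c 8321 (.c 513 (.c 24 .nil))))) .nil) (.X 0 (.c 48 (.c 12866 (.c 24 (.c 16 .nil)))) (.l 8193 .nil))) (.node (.X 4 (.c 18433 (.c 40 (.c 8257 (.c 24 (.c 16 .nil))))) .nil) (.X 4 (.c 48 (.c 40 (.c 8257 (.c 2049 (.c 24 .nil))))) .nil))) (.node (.node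 (.X 0 (.c 48 (.c 8258 (.c 24 (.c 16 .nil)))) (.l 12801 .nil)) (.X 4 (.c 48 (.c 40 (.c 4673 (.c 2049 (.c 32 .nil))))) .nil)) (.node (.X 4 (.c 18561 (.c 40 (.c 32 (.c 513 (.c 24 .nil))))) .nil) (.X 0 (.c 48 (.c 12930 (.c 32 (.c 24 .nil)))) (.l 513 .nil))))))))

noncomputable def c4_144 : Tr := (.node (.node (.node (.node (.node (.node (.X 0 (.c 48 (.c 32 (.c 4674 (.c 16 .nil)))) (.l 12801 .nil)) (.X 0 (.c 48 (.c 40 (.c 4674 (.c 16 .nil)))) (.l 8193 .nil))) (.node (.X 0 (.c 40 (.c 32 (.c 24 (.c 2114 .nil)))) (.l 18433 .nil)) (.X 0 (.c 48 (.c 32 (.c 24 (.c 2114 .nil)))) (.l 12801 .nil)))) (.node (.node (.X 0 (.c 48 (.c 40 (.c 24 (.c 2114 .nil)))) (.l 8193 .nil)) (.X 4 (.c 48 (.c 12929 (.c 32 (.c 4609 (.c 8 .nil))))) .nil)) (.node (.X 4 (.c 48 (.c 40 (.c 8193 (.c 4737 (.c 8 .nil))))) .nil) (.X 4 (.c 48 (.c 12993 (.c 32 (.c 2049 (.c 8 .nil))))) .nil)))) (.node (.node (.node (.X 0 (.c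 48 (.c 8322 (.c 24 (.c 8 .nil)))) (.l 12801 .nil)) (.X 0 (.c 48 (.c 12994 (.c 32 (.c 8 .nil)))) (.l 2049 .nil))) (.node (.X 0 (.c 40 (.c 8322 (.c 24 (.c 8 .nil)))) (.l 18433 .nil)) (.X 0 (.c 48 (.c 12994 (.c 16 (.c 8 .nil)))) (.l 8193 .nil)))) (.node (.node (.X 0 (.c 48 (.c 40 (.c 8322 (.c 8 .nil)))) (.l 4609 .nil)) (.X 0 (.c 48 (.c 40 (.c 8386 (.c 8 .nil)))) (.l 2049 .nil))) (.node (.X 0 (.c 48 (.c 8386 (.c 16 (.c 8 .nil)))) (.l 12801 .nil)) (.X 0 (.c 40 (.c 32 (.c 4738 (.c 8 .nil)))) (.l 18433 .nil)))))) (.node (.node (.node (.node (.X 4 (.c 12929 (.c 8193 (.c 24 (.c 8 (.c 48 .nil))))) .nil) (.X 0 (.c 40 (.c 32 (.c 24 (.c 0 .nil)))) (.l 48 (.l 2113 .nil)))) (.node (.X 0 (.c 48 (.c 24 (.c 16 (.c 0 .nil)))) (.l 32 (.l 12865 .nil))) (.X 0 (.c 40 (.c 32 (.c 35718345 (.c 0 .nil)))) (.l 48 .nil)))) (.node (.node (.X 0 (.c 1324065929 (.c 32 (.c 24 (.c 0 .nil)))) (.l 48 .nil)) (.X 0 (.c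 32 (.c 24 (.c 8 (.c 0 .nil)))) (.l 40 (.l 18561 .nil)))) (.node (.X 0 (.c 40 (.c 32 (.c 24 (.c 0 .nil)))) (.l 16 (.l 18497 .nil))) (.X 0 (.c 40 (.c 16 (.c 8 (.c 0 .nil)))) (.l 32 (.l 18625 .nil)))))) (.node (.node (.node (.X 4 (.c 12929 (.c 32 (.c 4609 (.c 8 (.c 48 .nil))))) .nil) (.X 0 (.c 48 (.c 16 (.c 8 (.c 0 .nil)))) (.l 13057 (.l 24 .nil)))) (.node (.X 0 (.c 48 (.c 40 (.c 32 (.c 0 .nil)))) (.l 16 (.l 4673 .nil))) (.X 0 (.c 48 (.c 32 (.c 8 (.c 0 .nil)))) (.l 12993 (.l 16 .nil))))) (.node (.node (.X 4 (.c 48 (.c 8321 (.c 4609 (.c 8 (.c 40 .nil))))) .nil) (.X 0 (.c 40 (.c 16 (.c 8 (.c 0 .nil)))) (.l 48 (.l 8385 .nil)))) (.node (.X 0 (.c 40 (.c 24 (.c 8 (.c 0 .nil)))) (.l 18689 (.l 16 .nil))) (.X 0 (.c 40 (.c 24 (.c 8 (.c 0 .nil)))) (.l 32 (.l 18561 .nil)))))))) (.node (.node (.node (.node (.node (.X 0 (.c 48 (.c 40 (.c 8 (.c 0 .nil)))) (.l 8385 (.l 16 .nil))) (.X 0 (.c 48 (.c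 24 (.c 8 (.c 0 .nil)))) (.l 32 (.l 12929 .nil)))) (.node (.X 0 (.c 40 (.c 24 (.c 8 (.c 0 .nil)))) (.l 48 (.l 8321 .nil))) (.X 0 (.c 48 (.c 24 (.c 16 (.c 0 .nil)))) (.l 40 (.l 8257 .nil))))) (.node (.node (.X 0 (.c 32 (.c 24 (.c 8 (.c 0 .nil)))) (.l 48 (.l 12929 .nil))) (.X 0 (.c 40 (.c 24 (.c 16 (.c 0 .nil)))) (.l 32 (.l 18497 .nil)))) (.node (.X 0 (.c 48 (.c 40 (.c 32 (.c 0 .nil)))) (.l 24 (.l 2113 .nil))) (.X 0 (.c 40 (.c 24 (.c 16 (.c 0 .nil)))) (.l 48 (.l 8257 .nil)))))) (.node (.node (.node (.X 0 (.c 32 (.c 24 (.c 8 (.c 0 .nil)))) (.l 18753 (.l 16 .nil))) (.X 0 (.c 48 (.c 24 (.c 8 (.c 0 .nil)))) (.l 40 (.l 8321 .nil)))) (.node (.X 0 (.c 48 (.c 32 (.c 24 (.c 0 .nil)))) (.l 16 (.l 12865 .nil))) (.X 0 (.c 48 (.c 16 (.c 8 (.c 0 .nil)))) (.l 32 (.l 12993 .nil))))) (.node (.node (.X 0 (.c 48 (.c 40 (.c 16 (.c 0 .nil)))) (.l 24 (.l 8257 .nil))) (.X 4 (.c 12801 (.c 8321 (.c 24 (.c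 8 (.c 48 .nil))))) .nil)) (.node (.X 0 (.c 40 (.c 545424521 (.c 24 (.c 0 .nil)))) (.l 48 .nil)) (.X 0 (.c 48 (.c 40 (.c 16 (.c 0 .nil)))) (.l 32 (.l 4673 .nil))))))) (.node (.node (.node (.node (.X 0 (.c 32 (.c 16 (.c 8 (.c 0 .nil)))) (.l 48 (.l 12993 .nil))) (.X 0 (.c 48 (.c 16 (.c 8 (.c 0 .nil)))) (.l 40 (.l 8385 .nil)))) (.node (.X 0 (.c 32 (.c 16 (.c 8 (.c 0 .nil)))) (.l 40 (.l 18625 .nil))) (.X 0 (.c 40 (.c 32 (.c 8 (.c 0 .nil)))) (.l 48 (.l 4737 .nil))))) (.node (.node (.X 0 (.c 24 (.c 16 (.c 8 (.c 0 .nil)))) (.l 48 (.l 13057 .nil))) (.X 0 (.c 40 (.c 32 (.c 8 (.c 0 .nil)))) (.l 24 (.l 18561 .nil)))) (.node (.X 0 (.c 59109074040138580434 (.c 24 (.c 16 (.c 8 .nil)))) .nil) (.X 0 (.c 13748198903624099794 (.c 24 (.c 16 (.c 8 .nil)))) .nil)))) (.node (.node (.node (.X 0 (.c 59109071256697478162 (.c 24 (.c 16 (.c 8 .nil)))) .nil) (.X 0 (.c 2306972427525220370 (.c 24 (.c 16 (.c 8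 .nil)))) .nil)) (.node (.X 0 (.c 2718204233 (.c 8258 (.c 24 (.c 16 .nil)))) .nil) (.X 0 (.c 1310925193 (.c 32 (.c 4674 (.c 16 .nil)))) .nil))) (.node (.node (.X 0 (.c 2718204169 (.c 12866 (.c 24 (.c 16 .nil)))) .nil) (.X 0 (.c 2105737 (.c 12930 (.c 32 (.c 24 .nil)))) .nil)) (.node (.X 0 (.c 2105737 (.c 40 (.c 8322 (.c 24 .nil)))) .nil) (.X 0 (.c 2718203977 (.c 40 (.c 8322 (.c 24 .nil)))) .nil)))))))

noncomputable def c4_145 : Tr := (.node (.node (.node (.node (.node (.node (.X 0 (.c 2718203977 (.c 12930 (.c 32 (.c 24 .nil)))) .nil) (.X 0 (.c 537002377 (.c 40 (.c 4674 (.c 16 .nil)))) .nil)) (.node (.X 0 (.c 33587593 (.c 40 (.c 8386 (.c 8 .nil)))) .nil) (.X 0 (.c 537002377 (.c 40 (.c 24 (.c 2114 .nil)))) .nil))) (.node (.node (.X 0 (.c 2718204041 (.c 12994 (.c 32 (.c 8 .nil)))) .nil) (.X 0 (.c 33587593 (.c 12994 (.c 32 (.c 8 .nil)))) .nil)) (.node (.X 0 (.c 2718204041 (.c 40 (.c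 8386 (.c 8 .nil)))) .nil) (.X 0 (.c 169943433 (.c 40 (.c 8322 (.c 8 .nil)))) .nil)))) (.node (.node (.node (.X 0 (.c 2718204105 (.c 40 (.c 8322 (.c 8 .nil)))) .nil) (.X 0 (.c 2105737 (.c 12994 (.c 32 (.c 16 .nil)))) .nil)) (.node (.X 0 (.c 2718203977 (.c 12994 (.c 32 (.c 16 .nil)))) .nil) (.X 0 (.c 169943433 (.c 12930 (.c 32 (.c 8 .nil)))) .nil))) (.node (.node (.X 0 (.c 2718204105 (.c 12930 (.c 32 (.c 8 .nil)))) .nil) (.X 0 (.c 2105737 (.c 40 (.c 8386 (.c 16 .nil)))) .nil)) (.node (.X 0 (.c 2718203977 (.c 40 (.c 8386 (.c 16 .nil)))) .nil) (.X 0 (.c 1310925193 (.c 32 (.c 24 (.c 2114 .nil)))) .nil))))) (.node (.node (.node (.node (.X 4 (.c 48 (.c 32 (.c 24 (.c 0 (.c 35718473 .nil))))) .nil) (.X 4 (.c 40 (.c 32 (.c 24 (.c 0 (.c 35718537 .nil))))) .nil)) (.node (.X 4 (.c 40 (.c 32 (.c 16 (.c 0 (.c 174695817 .nil))))) .nil) (.X 4 (.c 32 (.c 24 (.c 16 (.c 0 (.c 2737112393 .nil))))) .nil)))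 (.node (.node (.X 4 (.c 48 (.c 40 (.c 24 (.c 0 (.c 35718409 .nil))))) .nil) (.X 4 (.c 48 (.c 32 (.c 24 (.c 0 (.c 1324065929 .nil))))) .nil)) (.node (.X 4 (.c 48 (.c 24 (.c 16 (.c 0 (.c 1324066057 .nil))))) .nil) (.X 4 (.c 48 (.c 40 (.c 32 (.c 0 (.c 174695561 .nil))))) .nil)))) (.node (.node (.node (.X 4 (.c 32 (.c 24 (.c 8 (.c 0 (.c 2756086089 .nil))))) .nil) (.X 4 (.c 18497 (.c 40 (.c 24 (.c 0 (.c 8321 .nil))))) .nil)) (.node (.X 4 (.c 32 (.c 24 (.c 8 (.c 0 (.c 1337272713 .nil))))) .nil) (.X 4 (.c 48 (.c 32 (.c 8 (.c 0 (.c 179513673 .nil))))) .nil))) (.node (.node (.X 4 (.c 48 (.c 12865 (.c 24 (.c 0 (.c 8321 .nil))))) .nil) (.X 4 (.c 48 (.c 40 (.c 8 (.c 0 (.c 553912521 .nil))))) .nil)) (.node (.X 4 (.c 40 (.c 16 (.c 8 (.c 0 (.c 562466185 .nil))))) .nil) (.X 4 (.c 32 (.c 16 (.c 8 (.c 0 (.c 1350544777 .nil))))) .nil)))))) (.node (.node (.node (.node (.node (.X 4 (.c 48 (.c 8321 (.c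 24 (.c 0 (.c 12865 .nil))))) .nil) (.X 4 (.c 18561 (.c 32 (.c 24 (.c 0 (.c 12865 .nil))))) .nil)) (.node (.X 4 (.c 12929 (.c 32 (.c 24 (.c 0 (.c 18497 .nil))))) .nil) (.X 4 (.c 40 (.c 8321 (.c 24 (.c 0 (.c 18497 .nil))))) .nil))) (.node (.node (.X 4 (.c 48 (.c 12993 (.c 32 (.c 0 (.c 2113 .nil))))) .nil) (.X 4 (.c 48 (.c 12929 (.c 32 (.c 0 (.c 4673 .nil))))) .nil)) (.node (.X 4 (.c 174695817 (.c 40 (.c 16 (.c 0 (.c 32 .nil))))) .nil) (.X 4 (.c 40 (.c 545424521 (.c 24 (.c 0 (.c 48 .nil))))) .nil)))) (.node (.node (.node (.X 4 (.c 545424777 (.c 24 (.c 16 (.c 0 (.c 40 .nil))))) .nil) (.X 4 (.c 545424777 (.c 40 (.c 16 (.c 0 (.c 24 .nil))))) .nil)) (.node (.X 4 (.c 40 (.c 32 (.c 174695561 (.c 0 (.c 48 .nil))))) .nil) (.X 4 (.c 545424713 (.c 24 (.c 16 (.c 0 (.c 48 .nil))))) .nil))) (.node (.node (.X 4 (.c 174695753 (.c 32 (.c 16 (.c 0 (.c 48 .nil))))) .nil) (.X 4 (.c 1324065993 (.c 32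 (.c 16 (.c 0 (.c 48 .nil))))) .nil)) (.node (.X 4 (.c 48 (.c 545424521 (.c 24 (.c 0 (.c 40 .nil))))) .nil) (.X 4 (.c 48 (.c 545424585 (.c 16 (.c 0 (.c 40 .nil))))) .nil))))) (.node (.node (.node (.node (.X 4 (.c 1324066185 (.c 32 (.c 16 (.c 0 (.c 24 .nil))))) .nil) (.X 0 (.c 48 (.c 1310924937 (.c 8258 (.c 24 .nil)))) .nil)) (.node (.X 0 (.c 48 (.c 537002313 (.c 4674 (.c 16 .nil)))) .nil) (.X 0 (.c 48 (.c 12930 (.c 32 (.c 169943113 .nil)))) .nil))) (.node (.node (.X 0 (.c 48 (.c 12866 (.c 537002185 (.c 16 .nil)))) .nil) (.X 0 (.c 48 (.c 12866 (.c 32 (.c 33587401 .nil)))) .nil)) (.node (.X 0 (.c 48 (.c 1310924873 (.c 8322 (.c 24 .nil)))) .nil) (.X 0 (.c 48 (.c 12866 (.c 32 (.c 169943177 .nil)))) .nil)))) (.node (.node (.node (.X 0 (.c 48 (.c 1310925001 (.c 8258 (.c 16 .nil)))) .nil) (.X 0 (.c 48 (.c 12866 (.c 537002121 (.c 24 .nil)))) .nil)) (.node (.X 0 (.c 48 (.c 12994 (.c 32 (.c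 33587273 .nil)))) .nil) (.X 0 (.c 48 (.c 1310925065 (.c 4674 (.c 16 .nil)))) .nil))) (.node (.node (.X 0 (.c 48 (.c 12930 (.c 537002057 (.c 24 .nil)))) .nil) (.X 0 (.c 48 (.c 12994 (.c 537002057 (.c 16 .nil)))) .nil)) (.node (.X 0 (.c 48 (.c 40 (.c 8258 (.c 33587401 .nil)))) .nil) (.X 0 (.c 48 (.c 40 (.c 8258 (.c 169943177 .nil)))) .nil)))))))

noncomputable def c4_146 : Tr := (.node (.node (.node (.node (.node (.node (.X 0 (.c 48 (.c 40 (.c 8322 (.c 169943113 .nil)))) .nil) (.X 0 (.c 48 (.c 169943369 (.c 32 (.c 2114 .nil)))) .nil)) (.node (.X 0 (.c 48 (.c 40 (.c 33587465 (.c 4674 .nil)))) .nil) (.X 0 (.c 48 (.c 40 (.c 8386 (.c 33587273 .nil)))) .nil))) (.node (.node (.X 0 (.c 48 (.c 40 (.c 169943305 (.c 2114 .nil)))) .nil) (.X 0 (.c 48 (.c 1310924873 (.c 8386 (.c 16 .nil)))) .nil)) (.node (.X 0 (.c 48 (.c 537002313 (.c 24 (.c 2114 .nil)))) .nil) (.X 0 (.c 48 (.c 1310925065 (.c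 24 (.c 2114 .nil)))) .nil)))) (.node (.node (.node (.X 0 (.c 48 (.c 33587529 (.c 32 (.c 4674 .nil)))) .nil) (.X 4 (.c 48 (.c 12865 (.c 8321 (.c 0 (.c 24 .nil))))) .nil)) (.node (.X 4 (.c 48 (.c 12929 (.c 8257 (.c 0 (.c 24 .nil))))) .nil) (.X 4 (.c 40 (.c 8321 (.c 4673 (.c 0 (.c 48 .nil))))) .nil))) (.node (.node (.X 4 (.c 48 (.c 12929 (.c 4673 (.c 0 (.c 32 .nil))))) .nil) (.X 4 (.c 40 (.c 32 (.c 16 (.c 0 (.c 48 .nil))))) (.l 4673 .nil))) (.node (.X 4 (.c 32 (.c 24 (.c 16 (.c 0 (.c 40 .nil))))) (.l 18497 .nil)) (.X 4 (.c 48 (.c 24 (.c 16 (.c 0 (.c 32 .nil))))) (.l 12865 .nil)))))) (.node (.node (.node (.node (.X 4 (.c 40 (.c 32 (.c 24 (.c 0 (.c 48 .nil))))) (.l 2113 .nil)) (.X 4 (.c 48 (.c 32 (.c 16 (.c 0 (.c 40 .nil))))) (.l 4673 .nil))) (.node (.X 4 (.c 40 (.c 32 (.c 16 (.c 0 (.c 24 .nil))))) (.l 18497 .nil)) (.X 4 (.c 40 (.c 24 (.c 8 (.c 0 (.c 32 .nil))))) (.l 18561 .nil)))) (.node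 (.node (.X 4 (.c 32 (.c 24 (.c 8 (.c 0 (.c 40 .nil))))) (.l 18561 .nil)) (.X 4 (.c 48 (.c 32 (.c 8 (.c 0 (.c 40 .nil))))) (.l 4737 .nil))) (.node (.X 4 (.c 40 (.c 32 (.c 8 (.c 0 (.c 48 .nil))))) (.l 4737 .nil)) (.X 4 (.c 40 (.c 16 (.c 8 (.c 0 (.c 32 .nil))))) (.l 18625 .nil))))) (.node (.node (.node (.X 4 (.c 24 (.c 16 (.c 8 (.c 0 (.c 40 .nil))))) (.l 18689 .nil)) (.X 4 (.c 48 (.c 16 (.c 8 (.c 0 (.c 40 .nil))))) (.l 8385 .nil))) (.node (.X 4 (.c 24 (.c 16 (.c 8 (.c 0 (.c 48 .nil))))) (.l 13057 .nil)) (.X 4 (.c 48 (.c 40 (.c 8 (.c 0 (.c 32 .nil))))) (.l 4737 .nil)))) (.node (.node (.X 4 (.c 40 (.c 32 (.c 8 (.c 0 (.c 24 .nil))))) (.l 18561 .nil)) (.X 4 (.c 48 (.c 32 (.c 24 (.c 0 (.c 16 .nil))))) (.l 12865 .nil))) (.node (.X 4 (.c 48 (.c 40 (.c 32 (.c 0 (.c 24 .nil))))) (.l 2113 .nil)) (.X 4 (.c 48 (.c 40 (.c 32 (.c 0 (.c 16 .nil))))) (.l 4673 .nil))))))) (.node (.node (.node (.node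 (.node (.X 4 (.c 40 (.c 32 (.c 24 (.c 0 (.c 16 .nil))))) (.l 18497 .nil)) (.X 4 (.c 48 (.c 16 (.c 8 (.c 0 (.c 24 .nil))))) (.l 13057 .nil))) (.node (.X 4 (.c 40 (.c 32 (.c 8 (.c 0 (.c 16 .nil))))) (.l 18625 .nil)) (.X 4 (.c 48 (.c 32 (.c 8 (.c 0 (.c 16 .nil))))) (.l 12993 .nil)))) (.node (.node (.X 4 (.c 32 (.c 24 (.c 8 (.c 0 (.c 16 .nil))))) (.l 18753 .nil)) (.X 0 (.c 18434 (.c 32 (.c 24 (.c 16 .nil)))) (.l 12865 .nil))) (.node (.X 0 (.c 12802 (.c 32 (.c 24 (.c 16 .nil)))) (.l 18497 .nil)) (.X 0 (.c 18434 (.c 40 (.c 24 (.c 16 .nil)))) (.l 8257 .nil))))) (.node (.node (.node (.X 0 (.c 18690 (.c 40 (.c 24 (.c 0 .nil)))) (.l 2113 .nil)) (.X 0 (.c 18690 (.c 40 (.c 16 (.c 0 .nil)))) (.l 4673 .nil))) (.node (.X 0 (.c 18754 (.c 32 (.c 24 (.c 0 .nil)))) (.l 2113 .nil)) (.X 0 (.c 13058 (.c 24 (.c 16 (.c 0 .nil)))) (.l 18497 .nil)))) (.node (.node (.X 0 (.c 12994 (.c 32 (.c 16 (.c 0 .nil))))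 (.l 18497 .nil)) (.X 0 (.c 18690 (.c 24 (.c 16 (.c 0 .nil)))) (.l 12865 .nil))) (.node (.X 0 (.c 48 (.c 8194 (.c 24 (.c 16 .nil)))) (.l 12865 .nil)) (.X 0 (.c 48 (.c 12802 (.c 32 (.c 24 .nil)))) (.l 2113 .nil)))))) (.node (.node (.node (.node (.X 0 (.c 48 (.c 12994 (.c 16 (.c 0 .nil)))) (.l 8257 .nil)) (.X 0 (.c 18690 (.c 40 (.c 8 (.c 0 .nil)))) (.l 4737 .nil))) (.node (.X 0 (.c 18754 (.c 32 (.c 8 (.c 0 .nil)))) (.l 4737 .nil)) (.X 0 (.c 48 (.c 13058 (.c 16 (.c 0 .nil)))) (.l 4673 .nil)))) (.node (.node (.X 0 (.c 18626 (.c 32 (.c 8 (.c 0 .nil)))) (.l 12929 .nil)) (.X 0 (.c 18626 (.c 40 (.c 8 (.c 0 .nil)))) (.l 8321 .nil))) (.node (.X 0 (.c 48 (.c 40 (.c 8194 (.c 24 .nil)))) (.l 2113 .nil)) (.X 0 (.c 48 (.c 40 (.c 8194 (.c 16 .nil)))) (.l 4673 .nil))))) (.node (.node (.node (.X 0 (.c 48 (.c 8386 (.c 8 (.c 0 .nil)))) (.l 12929 .nil)) (.X 0 (.c 48 (.c 12994 (.c 8 (.c 0 .nil)))) (.l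 8321 .nil))) (.node (.X 0 (.c 18562 (.c 32 (.c 8 (.c 0 .nil)))) (.l 12993 .nil)) (.X 0 (.c 18562 (.c 40 (.c 8 (.c 0 .nil)))) (.l 8385 .nil)))) (.node (.node (.X 0 (.c 12930 (.c 32 (.c 8 (.c 0 .nil)))) (.l 18625 .nil)) (.X 0 (.c 12930 (.c 24 (.c 8 (.c 0 .nil)))) (.l 18689 .nil))) (.node (.X 0 (.c 48 (.c 8322 (.c 8 (.c 0 .nil)))) (.l 12993 .nil)) (.X 0 (.c 244149029215946770 (.c 32 (.c 16 (.c 0 .nil)))) .nil)))))))

noncomputable def c4_147 : Tr := (.node (.node (.X 0 (.c 14025210108676163538 (.c 24 (.c 16 (.c 0 .nil)))) .nil) (.X 0 (.c 2379905503287396370 (.c 24 (.c 16 (.c 0 .nil)))) .nil)) (.node (.X 0 (.c 10206511369111570 (.c 32 (.c 24 (.c 0 .nil)))) .nil) (.node (.X 0 (.c 10206511369111506 (.c 40 (.c 24 (.c 0 .nil)))) .nil) (.X 0 (.c 244149029215946706 (.c 40 (.c 16 (.c 0 .nil)))) .nil))))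

noncomputable def c4T : Tr := (.node (.node (.node (.node (.node (.node (.node (c4_0) (c4_1)) (.node (c4_2) (c4_3))) (.node (.node (c4_4) (c4_5)) (.node (c4_6) (.node (c4_7) (c4_8))))) (.node (.node (.node (c4_9) (c4_10)) (.node (c4_11) (c4_12))) (.node (.node (c4_13) (c4_14)) (.node (c4_15) (.node (c4_16) (c4_17)))))) (.node (.node (.node (.node (c4_18) (c4_19)) (.node (c4_20) (c4_21))) (.node (.node (c4_22) (c4_23)) (.node (c4_24) (.node (c4_25) (c4_26))))) (.node (.node (.node (c4_27) (c4_28)) (.node (c4_29) (.node (c4_30) (c4_31)))) (.node (.node (c4_32) (c4_33)) (.node (c4_34) (.node (c4_35) (c4_36))))))) (.node (.node (.node (.node (.node (c4_37) (c4_38)) (.node (c4_39) (c4_40))) (.node (.node (c4_41) (c4_42)) (.node (c4_43) (.node (c4_44) (c4_45))))) (.node (.node (.node (c4_46) (c4_47)) (.node (c4_48) (c4_49))) (.node (.node (c4_50) (c4_51)) (.node (c4_52) (.node (c4_53)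 (c4_54)))))) (.node (.node (.node (.node (c4_55) (c4_56)) (.node (c4_57) (c4_58))) (.node (.node (c4_59) (c4_60)) (.node (c4_61) (.node (c4_62) (c4_63))))) (.node (.node (.node (c4_64) (c4_65)) (.node (c4_66) (.node (c4_67) (c4_68)))) (.node (.node (c4_69) (c4_70)) (.node (c4_71) (.node (c4_72) (c4_73)))))))) (.node (.node (.node (.node (.node (.node (c4_74) (c4_75)) (.node (c4_76) (c4_77))) (.node (.node (c4_78) (c4_79)) (.node (c4_80) (.node (c4_81) (c4_82))))) (.node (.node (.node (c4_83) (c4_84)) (.node (c4_85) (c4_86))) (.node (.node (c4_87) (c4_88)) (.node (c4_89) (.node (c4_90) (c4_91)))))) (.node (.node (.node (.node (c4_92) (c4_93)) (.node (c4_94) (c4_95))) (.node (.node (c4_96) (c4_97)) (.node (c4_98) (.node (c4_99) (c4_100))))) (.node (.node (.node (c4_101) (c4_102)) (.node (c4_103) (.node (c4_104) (c4_105)))) (.node (.node (c4_106) (c4_107)) (.node (c4_108) (.node (c4_109)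 (c4_110))))))) (.node (.node (.node (.node (.node (c4_111) (c4_112)) (.node (c4_113) (c4_114))) (.node (.node (c4_115) (c4_116)) (.node (c4_117) (.node (c4_118) (c4_119))))) (.node (.node (.node (c4_120) (c4_121)) (.node (c4_122) (c4_123))) (.node (.node (c4_124) (c4_125)) (.node (c4_126) (.node (c4_127) (c4_128)))))) (.node (.node (.node (.node (c4_129) (c4_130)) (.node (c4_131) (c4_132))) (.node (.node (c4_133) (c4_134)) (.node (c4_135) (.node (c4_136) (c4_137))))) (.node (.node (.node (c4_138) (c4_139)) (.node (c4_140) (.node (c4_141) (c4_142)))) (.node (.node (c4_143) (c4_144)) (.node (c4_145) (.node (c4_146) (c4_147)))))))))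

noncomputable def c4G : TL := .p (.b (.m (.b (.x 0) (.x 1)) (.b (.b (.x 2) (.x 3)) (.b (.x 4) (.x 5)))) (.x 6)) <| .p (.b (.m (.b (.x 2) (.x 3)) (.b (.b (.x 0) (.x 1)) (.b (.x 4) (.x 5)))) (.x 6)) <| .p (.b (.m (.b (.x 4) (.x 5)) (.b (.b (.x 0) (.x 1)) (.b (.x 2) (.x 3)))) (.x 6)) .nil

theorem c4C : chk hl4 c4G c4T = true := by decide +kernel

end Pool.Agent.TP.Chk2
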