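import Pool.Agent.Helper52_TP.C2Hyp

/-! Certificate c5 in characteristic 2, generated (helper52). -/

set_option autoImplicit false
set_option maxRecDepth 1000000

namespace Pool.Agent.TP.Chk2

noncomputable def c5_0 : Tr := (.node (.node (.node (.node (.node (.node (.I .jac (.c 27951061050494848639907477563920710974281 (.c 8 (.c 16 .nil))) .nil) (.I .jac (.c 1512103782441961079041378905002237328201 (.c 8 (.c 16 .nil))) .nil)) (.node (.I .jac (.c 1859570876265504724427643779472201 (.c 8 (.c 16 .nil))) .nil) (.I .jac (.c 1512103191868961706263182477688868913993 (.c 8 (.c 16 .nil))) .nil))) (.node (.node (.I .jac (.c 105533754468750300593045802417993 (.c 8 (.c 16 .nil))) .nil) (.I .jac (.c 27951055785643122968540376538297009659785 (.c 8 (.c 16 .nil))) .nil)) (.node (.I .jac (.c 427058636821846666152103631404146569 (.c 8 (.c 16 .nil))) .nil) (.I .jac (.c 1809230235455531025412364982344585 (.c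 8 (.c 16 .nil))) .nil)))) (.node (.node (.node (.I .jac (.c 1512102896582526877926683197569543635849 (.c 8 (.c 16 .nil))) .nil) (.I .jac (.c 101465489572731241235138809397129 (.c 8 (.c 16 .nil))) .nil)) (.node (.I .jac (.c 27951058418068892742902176168037983934409 (.c 8 (.c 16 .nil))) .nil) (.I .jac (.c 42576974092320101918705356412332005321 (.c 8 (.c 16 .nil))) .nil))) (.node (.node (.I .jac (.c 1859570876265473500227164416021449 (.c 8 (.c 16 .nil))) .nil) (.I .jac (.c 27951055785643122908012690443949941767113 (.c 8 (.c 16 .nil))) .nil)) (.node (.I .jac (.c 42576913200413542961749526065342514121 (.c 8 (.c 16 .nil))) .nil) (.I .jac (.c 427057350195049030035896088956978121 (.c 8 (.c 16 .nil))) .nil))))) (.node (.node (.node (.node (.I .jac (.c 3051551917826763369823227314121 (.c 8 (.c 16 .nil))) .nil) (.I .jac (.c 1859603590828719327337421759899593 (.c 8 (.c 16 .nil))) .nil)) (.node (.I .jac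 (.c 1512103191868961664028723725600700192777 (.c 8 (.c 16 .nil))) .nil) (.I .jac (.c 105533754468739142964158285779977 (.c 8 (.c 16 .nil))) .nil))) (.node (.node (.I .jac (.c 427057993508084089288477468582296585 (.c 8 (.c 16 .nil))) .nil) (.I .jac (.c 101465489572723947598282130405385 (.c 8 (.c 16 .nil))) .nil)) (.node (.I .jac (.c 42576913200413540599411453941751701513 (.c 8 (.c 16 .nil))) .nil) (.I .jac (.c 427057350195048793444981206822395913 (.c 8 (.c 16 .nil))) .nil)))) (.node (.node (.node (.I .jac (.c 3051551917826130935626671381513 (.c 8 (.c 16 .nil))) .nil) (.I .jac (.c 15246325749396561 (.c 8 (.c 16 .nil))) .nil)) (.node (.I .jac (.c 47680498716043023250607908555 (.c 8 (.c 16 .nil))) .nil) (.I .jac (.c 29861973140834692636938164206731 (.c 8 (.c 16 .nil))) .nil))) (.node (.node (.I .jac (.c 1649024349379069078081013509515 (.c 8 (.c 16 .nil))) .nil) (.I .jac (.c 29862147061939421531258886767115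 (.c 8 (.c 16 .nil))) .nil)) (.node (.I .jac (.c 1512103782441961079041378905002237328137 (.c 8 (.c 24 .nil))) .nil) (.I .jac (.c 1911132888452991604567054858008329 (.c 8 (.c 24 .nil))) .nil)))))) (.node (.node (.node (.node (.node (.I .jac (.c 1512103191868961706263182477688868913929 (.c 8 (.c 24 .nil))) .nil) (.I .jac (.c 105533754468750300593045802417929 (.c 8 (.c 24 .nil))) .nil)) (.node (.I .jac (.c 27951061050494848518852093974251956532105 (.c 8 (.c 24 .nil))) .nil) (.I .jac (.c 1512103782441961050885067571858279445385 (.c 8 (.c 24 .nil))) .nil))) (.node (.node (.I .jac (.c 1911132888452959950435573782212489 (.c 8 (.c 24 .nil))) .nil) (.I .jac (.c 1760086083483829361758892708256649 (.c 8 (.c 24 .nil))) .nil)) (.node (.I .jac (.c 1512102601296135297671723270643481494409 (.c 8 (.c 24 .nil))) .nil) (.I .jac (.c 1911155150111259961664864764831625 (.c 8 (.c 24 .nil))) .nil)))) (.node (.node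 (.node (.I .jac (.c 27951058418068892682374487223447295013833 (.c 8 (.c 24 .nil))) .nil) (.I .jac (.c 1859570876265457888126924734394313 (.c 8 (.c 24 .nil))) .nil)) (.node (.I .jac (.c 27951053153217538953647197609480317336521 (.c 8 (.c 24 .nil))) .nil) (.I .jac (.c 1760086083483814173012955851208649 (.c 8 (.c 24 .nil))) .nil))) (.node (.node (.I .jac (.c 651596688508375012468186189874121 (.c 8 (.c 24 .nil))) .nil) (.I .jac (.c 42576953795010653769602236682924913673 (.c 8 (.c 24 .nil))) .nil)) (.node (.I .jac (.c 105533754468735423754529113698313 (.c 8 (.c 24 .nil))) .nil) (.I .jac (.c 1512102601296135269515422934336011009033 (.c 8 (.c 24 .nil))) .nil))))) (.node (.node (.node (.node (.I .jac (.c 97535117142651651247146700978185 (.c 8 (.c 24 .nil))) .nil) (.I .jac (.c 105536290384975911038036627826697 (.c 8 (.c 24 .nil))) .nil)) (.node (.I .jac (.c 15246281046337617 (.c 8 (.c 24 .nil)))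 .nil) (.I .jac (.c 15456208906647633 (.c 8 (.c 24 .nil))) .nil))) (.node (.node (.I .jac (.c 15456298926198865 (.c 8 (.c 24 .nil))) .nil) (.I .jac (.c 29861451382077989957330510345483 (.c 8 (.c 24 .nil))) .nil)) (.node (.I .jac (.c 29055794941648507507634023975819 (.c 8 (.c 24 .nil))) .nil) (.I .jac (.c 1648964913574222538756177290763 (.c 8 (.c 24 .nil))) .nil)))) (.node (.node (.node (.I .jac (.c 44845332836730247624948147915 (.c 8 (.c 24 .nil))) .nil) (.I .jac (.c 29861799220489422234331306566795 (.c 8 (.c 24 .nil))) .nil)) (.node (.I .jac (.c 1649004537265596382040201303435 (.c 8 (.c 24 .nil))) .nil) (.I .jac (.c 27951061050494848639907477563920710974153 (.c 16 (.c 24 .nil))) .nil))) (.node (.node (.I .jac (.c 1512103782441961079041378905002237328073 (.c 16 (.c 24 .nil))) .nil) (.I .jac (.c 27951058418068892863957554057219361971913 (.c 16 (.c 24 .nil))) .nil)) (.node (.I .jac (.c 42576974092320106643384879185736244937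 (.c 16 (.c 24 .nil))) .nil) (.I .jac (.c 1512103191868961706263182477688868913865 (.c 16 (.c 24 .nil))) .nil)))))))

noncomputable def c5_1 : Tr := (.node (.node (.node (.node (.node (.node (.I .jac (.c 105533754468750300593045802417865 (.c 16 (.c 24 .nil))) .nil) (.I .jac (.c 27951061050494848458324402179417579409289 (.c 16 (.c 24 .nil))) .nil)) (.node (.I .jac (.c 1512103782441961036806911905286300602249 (.c 16 (.c 24 .nil))) .nil) (.I .jac (.c 10066684875777433669609463689 (.c 16 (.c 24 .nil))) .nil))) (.node (.node (.I .jac (.c 1712113961689580865954497792891785 (.c 16 (.c 24 .nil))) .nil) (.I .jac (.c 1911144019257783685212967566403465 (.c 16 (.c 24 .nil))) .nil)) (.node (.I .jac (.c 42576974092320097194025833638928027593 (.c 16 (.c 24 .nil))) .nil) (.I .jac (.c 1859570876265442276026685052832713 (.c 16 (.c 24 .nil))) .nil)))) (.node (.node (.node (.I .jac (.c 1712113961689565885627358955911113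 (.c 16 (.c 24 .nil))) .nil) (.I .jac (.c 42576872605845451114770277207992337353 (.c 16 (.c 24 .nil))) .nil)) (.node (.I .jac (.c 2698162480891381558379040178121 (.c 16 (.c 24 .nil))) .nil) (.I .jac (.c 1512103191868961635872417890875254706185 (.c 16 (.c 24 .nil))) .nil))) (.node (.node (.I .jac (.c 42576953795010651407263038383993868297 (.c 16 (.c 24 .nil))) .nil) (.I .jac (.c 93738611484293500497757600954377 (.c 16 (.c 24 .nil))) .nil)) (.node (.I .jac (.c 42576872605845448752433331259473584137 (.c 16 (.c 24 .nil))) .nil) (.I .jac (.c 10064237432092225236522737673 (.c 16 (.c 24 .nil))) .nil))))) (.node (.node (.node (.node (.I .jac (.c 15246236343344209 (.c 16 (.c 24 .nil))) .nil) (.I .jac (.c 26751780651399697373232597634059 (.c 16 (.c 24 .nil))) .nil)) (.node (.I .jac (.c 1648964913574222538756177290699 (.c 16 (.c 24 .nil))) .nil) (.I .jac (.c 29861625300903855411901044345995 (.c 16 (.c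 24 .nil))) .nil))) (.node (.node (.I .jac (.c 1648984725330647893078968155531 (.c 16 (.c 24 .nil))) .nil) (.I .jac (.c 59109074018392946569 (.c 4673 (.c 16 .nil))) .nil)) (.node (.I .jac (.c 59109074018392946569 (.c 8 (.c 24 .nil))) (.b 16 .nil)) (.I .jac (.c 13748198893136698249 (.c 4673 (.c 16 .nil))) .nil)))) (.node (.node (.node (.I .jac (.c 15456118887244105 (.c 8 (.c 24 .nil))) (.b 16 .nil)) (.I .jac (.c 15456118887244105 (.c 2113 (.c 24 .nil))) .nil)) (.node (.I .jac (.c 15456118887244105 (.c 8 (.c 16 .nil))) (.b 24 .nil)) (.I .jac (.c 59109071234951844809 (.c 2113 (.c 24 .nil))) .nil))) (.node (.node (.I .jac (.c 2306972423229201353 (.c 4673 (.c 16 .nil))) .nil) (.I .jac (.c 2306972423229201353 (.c 8 (.c 24 .nil))) (.b 16 .nil))) (.node (.I .jac (.c 2306972423229201353 (.c 2113 (.c 24 .nil))) .nil) (.I .jac (.c 2306972423229201353 (.c 8 (.c 16 .nil))) (.b 24 .nil))))))) (.node (.node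 (.node (.node (.node (.I .jac (.c 15246191640314249 (.c 4673 (.c 16 .nil))) .nil) (.I .jac (.c 15246191640314249 (.c 2113 (.c 24 .nil))) .nil)) (.node (.I .jac (.c 15246191640314249 (.c 8 (.c 16 .nil))) (.b 24 .nil)) (.I .jac (.c 13748196208362034185 (.c 4673 (.c 16 .nil))) .nil))) (.node (.node (.I .jac (.c 2306971873338800137 (.c 4673 (.c 16 .nil))) .nil) (.I .jac (.c 2306971873338800137 (.c 8 (.c 16 .nil))) (.b 24 .nil))) (.node (.I .jac (.c 3632040653488585 (.c 8 (.c 24 .nil))) (.b 16 .nil)) (.I .jac (.c 3632040653488585 (.c 2113 (.c 24 .nil))) .nil)))) (.node (.node (.node (.I .jac (.c 15456298926182473 (.c 8 (.c 16 .nil))) (.b 24 .nil)) (.I .jac (.c 27951061050494848579379785769086333720329 (.c 8 (.c 32 .nil))) .nil)) (.node (.I .jac (.c 1512103782441961064963223238430258353929 (.c 8 (.c 32 .nil))) .nil) (.I .jac (.c 27951055785643122968540376538297009659657 (.c 8 (.c 32 .nil))) .nil)))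 (.node (.node (.I .jac (.c 1809230235455531025412364982344457 (.c 8 (.c 32 .nil))) .nil) (.I .jac (.c 1512102896582526877926683197569543635721 (.c 8 (.c 32 .nil))) .nil)) (.node (.I .jac (.c 27951061050494848518852093974251956532041 (.c 8 (.c 32 .nil))) .nil) (.I .jac (.c 651606621363126269490052522057545 (.c 8 (.c 32 .nil))) .nil))))) (.node (.node (.node (.node (.I .jac (.c 1760086083483829361758892708256585 (.c 8 (.c 32 .nil))) .nil) (.I .jac (.c 1512102601296135297671723270643481494345 (.c 8 (.c 32 .nil))) .nil)) (.node (.I .jac (.c 651601654921560200620872561558345 (.c 8 (.c 32 .nil))) .nil) (.I .jac (.c 97535117142658802225506092678985 (.c 8 (.c 32 .nil))) .nil))) (.node (.node (.I .jac (.c 27951055785643122786957318255255806178249 (.c 8 (.c 32 .nil))) .nil) (.I .jac (.c 1809230235455484827416425822613449 (.c 8 (.c 32 .nil))) .nil)) (.node (.I .jac (.c 651606621363107786267057026226121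 (.c 8 (.c 32 .nil))) .nil) (.I .jac (.c 1760086083483798984267018994226121 (.c 8 (.c 32 .nil))) .nil)))) (.node (.node (.node (.I .jac (.c 651591722123579838450590277895113 (.c 8 (.c 32 .nil))) .nil) (.I .jac (.c 1809251600792687288661143085918153 (.c 8 (.c 32 .nil))) .nil)) (.node (.I .jac (.c 3561389332478033 (.c 8 (.c 32 .nil))) .nil) (.I .jac (.c 1512102896582526821614077026536761750537 (.c 8 (.c 32 .nil))) .nil))) (.node (.node (.I .jac (.c 427057993508083616106291307304383497 (.c 8 (.c 32 .nil))) .nil) (.I .jac (.c 1512102601296135255437272766182275864585 (.c 8 (.c 32 .nil))) .nil)) (.node (.I .jac (.c 651601654921532475892036648802313 (.c 8 (.c 32 .nil))) .nil) (.I .jac (.c 427056063571158149899930723770114057 (.c 8 (.c 32 .nil))) .nil)))))))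

noncomputable def c5_2 : Tr := (.node (.node (.node (.node (.node (.node (.I .jac (.c 651591722123570596944749659643913 (.c 8 (.c 32 .nil))) .nil) (.I .jac (.c 101467951811503808354312734910473 (.c 8 (.c 32 .nil))) .nil)) (.node (.I .jac (.c 15038498931148881 (.c 8 (.c 32 .nil))) .nil) (.I .jac (.c 27501345054434830069292772576203 (.c 8 (.c 32 .nil))) .nil))) (.node (.node (.I .jac (.c 1585398274573924753962513540619 (.c 8 (.c 32 .nil))) .nil) (.I .jac (.c 29861799220489174934988801249803 (.c 8 (.c 32 .nil))) .nil)) (.node (.I .jac (.c 28269556262386938205620111686411 (.c 8 (.c 32 .nil))) .nil) (.I .jac (.c 27951061050494848579379785769086333720265 (.c 16 (.c 32 .nil))) .nil)))) (.node (.node (.node (.I .jac (.c 1512103782441961064963223238430258353865 (.c 16 (.c 32 .nil))) .nil) (.I .jac (.c 427058636821846666152103631404146377 (.c 16 (.c 32 .nil))) .nil)) (.node (.I .jac (.c 1512102896582526877926683197569543635657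 (.c 16 (.c 32 .nil))) .nil) (.I .jac (.c 1911166281013357267248063802697417 (.c 16 (.c 32 .nil))) .nil))) (.node (.node (.I .jac (.c 27951061050494848458324402179417579409225 (.c 16 (.c 32 .nil))) .nil) (.I .jac (.c 1512103782441961036806911905286300602185 (.c 16 (.c 32 .nil))) .nil)) (.node (.I .jac (.c 27951050520792141000852311054881784782665 (.c 16 (.c 32 .nil))) .nil) (.I .jac (.c 10066684875777433669609463625 (.c 16 (.c 32 .nil))) .nil))))) (.node (.node (.node (.node (.I .jac (.c 1712113961689580865954497792891721 (.c 16 (.c 32 .nil))) .nil) (.I .jac (.c 1911144019257783685212967566403401 (.c 16 (.c 32 .nil))) .nil)) (.node (.I .jac (.c 10066684875704784911325976521 (.c 16 (.c 32 .nil))) .nil) (.I .jac (.c 427055420260303274284998876733539273 (.c 16 (.c 32 .nil))) .nil))) (.node (.node (.I .jac (.c 10063013877651720715266098121 (.c 16 (.c 32 .nil))) .nil) (.I .jac (.c 1809240918100417214955082230360009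 (.c 16 (.c 32 .nil))) .nil)) (.node (.I .jac (.c 427057993508083379515198226665525257 (.c 16 (.c 32 .nil))) .nil) (.I .jac (.c 101465489572713007142997112409097 (.c 16 (.c 32 .nil))) .nil)))) (.node (.node (.node (.I .jac (.c 10065461098071330215985125385 (.c 16 (.c 32 .nil))) .nil) (.I .jac (.c 10063013877615402959898107913 (.c 16 (.c 32 .nil))) .nil)) (.node (.I .jac (.c 28374916743812808375320239113 (.c 16 (.c 32 .nil))) .nil) (.I .jac (.c 101466720686505037251115829520393 (.c 16 (.c 32 .nil))) .nil))) (.node (.node (.I .jac (.c 15038454533815377 (.c 16 (.c 32 .nil))) .nil) (.I .jac (.c 26751780651399697373232597633995 (.c 16 (.c 32 .nil))) .nil)) (.node (.I .jac (.c 1585398274573924753962513540555 (.c 16 (.c 32 .nil))) .nil) (.I .jac (.c 443358074123013130916669131 (.c 16 (.c 32 .nil))) .nil)))))) (.node (.node (.node (.node (.node (.I .jac (.c 29861625300903608113278694259211 (.c 16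 (.c 32 .nil))) .nil) (.I .jac (.c 28269389345320218300422223471371 (.c 16 (.c 32 .nil))) .nil)) (.node (.I .jac (.c 1585417510726982208008530263435 (.c 16 (.c 32 .nil))) .nil) (.I .jac (.c 29861973140833950736750179422475 (.c 16 (.c 32 .nil))) .nil))) (.node (.node (.I .jac (.c 59109074018392946505 (.c 8 (.c 16 .nil))) (.b 32 .nil)) (.I .jac (.c 13748198893136698185 (.c 8 (.c 32 .nil))) (.b 16 .nil))) (.node (.I .jac (.c 13748198893136698185 (.c 2113 (.c 32 .nil))) .nil) (.I .jac (.c 15456118887244041 (.c 8257 (.c 16 .nil))) .nil)))) (.node (.node (.node (.I .jac (.c 15456118887244041 (.c 8 (.c 32 .nil))) (.b 16 .nil)) (.I .jac (.c 15456118887244041 (.c 2113 (.c 32 .nil))) .nil)) (.node (.I .jac (.c 231046163358604233 (.c 8257 (.c 16 .nil))) .nil) (.I .jac (.c 231046163358604233 (.c 8 (.c 32 .nil))) (.b 16 .nil)))) (.node (.node (.I .jac (.c 231046163358604233 (.c 2113 (.c 32 .nil))) .nil)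 (.I .jac (.c 13748194865974800393 (.c 8257 (.c 16 .nil))) .nil)) (.node (.I .jac (.c 231045989336561673 (.c 8 (.c 32 .nil))) (.b 16 .nil)) (.I .jac (.c 231045989336561673 (.c 2113 (.c 32 .nil))) .nil))))) (.node (.node (.node (.node (.I .jac (.c 15456253916349513 (.c 8257 (.c 16 .nil))) .nil) (.I .jac (.c 15456253916349513 (.c 8 (.c 32 .nil))) (.b 16 .nil))) (.node (.I .jac (.c 15456253916349513 (.c 2113 (.c 32 .nil))) .nil) (.I .jac (.c 1911132888452959950435573782212297 (.c 24 (.c 32 .nil))) .nil))) (.node (.node (.I .jac (.c 27951053153217539014174880853583831178953 (.c 24 (.c 32 .nil))) .nil) (.I .jac (.c 651606621363126269490052522057417 (.c 24 (.c 32 .nil))) .nil)) (.node (.I .jac (.c 1760086083483829361758892708256457 (.c 24 (.c 32 .nil))) .nil) (.I .jac (.c 1512102601296135297671723270643481494217 (.c 24 (.c 32 .nil))) .nil)))) (.node (.node (.node (.I .jac (.c 97535117142658802225506092678857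 (.c 24 (.c 32 .nil))) .nil) (.I .jac (.c 27951061050494848458324402179417579409161 (.c 24 (.c 32 .nil))) .nil)) (.node (.I .jac (.c 1512103782441961036806911905286300602121 (.c 24 (.c 32 .nil))) .nil) (.I .jac (.c 10065461098180296729435276041 (.c 24 (.c 32 .nil))) .nil))) (.node (.node (.I .jac (.c 93738611484300510920650542513929 (.c 24 (.c 32 .nil))) .nil) (.I .jac (.c 27951053153217538772064147877169776201673 (.c 24 (.c 32 .nil))) .nil)) (.node (.I .jac (.c 27951050520792140819269269873301704274889 (.c 24 (.c 32 .nil))) .nil) (.I .jac (.c 1712113961689535924973081282146249 (.c 24 (.c 32 .nil))) .nil)))))))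

noncomputable def c5_3 : Tr := (.node (.node (.node (.node (.node (.node (.I .jac (.c 49484669145083763774947273 (.c 24 (.c 32 .nil))) .nil) (.I .jac (.c 651601654921513992739479373959177 (.c 24 (.c 32 .nil))) .nil)) (.node (.I .jac (.c 97535117142640924779607613918217 (.c 24 (.c 32 .nil))) .nil) (.I .jac (.c 93738611484286490074864659656713 (.c 24 (.c 32 .nil))) .nil))) (.node (.node (.I .jac (.c 651581789439149858614694249422857 (.c 24 (.c 32 .nil))) .nil) (.I .jac (.c 49484669142536990413609993 (.c 24 (.c 32 .nil))) .nil)) (.node (.I .jac (.c 14832803796720721 (.c 24 (.c 32 .nil))) .nil) (.I .jac (.c 15456208906586193 (.c 24 (.c 32 .nil))) .nil)))) (.node (.node (.node (.I .jac (.c 29861451382077495361526118536139 (.c 24 (.c 32 .nil))) .nil) (.I .jac (.c 27501345054434830069292772576075 (.c 24 (.c 32 .nil))) .nil)) (.node (.I .jac (.c 26751780651399697373232597633931 (.c 24 (.c 32 .nil)))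 .nil) (.I .jac (.c 1523986205354042911851369686475 (.c 24 (.c 32 .nil))) .nil))) (.node (.node (.I .jac (.c 1464665804442194627370651428363 (.c 24 (.c 32 .nil))) .nil) (.I .jac (.c 29861625300903360814656344173451 (.c 24 (.c 32 .nil))) .nil)) (.node (.I .jac (.c 29861799220488680336303790618891 (.c 24 (.c 32 .nil))) .nil) (.I .jac (.c 59109074018392946441 (.c 8 (.c 24 .nil))) (.b 32 .nil)))))) (.node (.node (.node (.node (.I .jac (.c 13748198893136698121 (.c 8257 (.c 24 .nil))) .nil) (.I .jac (.c 13748198893136698121 (.c 8 (.c 32 .nil))) (.b 24 .nil))) (.node (.I .jac (.c 13748198893136698121 (.c 8 (.c 24 .nil))) (.b 32 .nil)) (.I .jac (.c 15456118887243977 (.c 8257 (.c 24 .nil))) .nil))) (.node (.node (.I .jac (.c 15456118887243977 (.c 8 (.c 32 .nil))) (.b 24 .nil)) (.I .jac (.c 15456118887243977 (.c 8 (.c 24 .nil))) (.b 32 .nil))) (.node (.I .jac (.c 59109065668069837769 (.c 8257 (.c 24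 .nil))) .nil) (.I .jac (.c 59109065668069837769 (.c 8 (.c 32 .nil))) (.b 24 .nil))))) (.node (.node (.node (.I .jac (.c 9025011228269513 (.c 8 (.c 32 .nil))) (.b 24 .nil)) (.I .jac (.c 9025011228269513 (.c 4673 (.c 32 .nil))) .nil)) (.node (.I .jac (.c 9025011228269513 (.c 8 (.c 24 .nil))) (.b 32 .nil)) (.I .jac (.c 13748193523587632137 (.c 8257 (.c 24 .nil))) .nil))) (.node (.node (.I .jac (.c 13748193523587632137 (.c 8 (.c 32 .nil))) (.b 24 .nil)) (.I .jac (.c 13748193523587632137 (.c 4673 (.c 32 .nil))) .nil)) (.node (.I .jac (.c 13748193523587632137 (.c 8 (.c 24 .nil))) (.b 32 .nil)) (.I .jac (.c 9024976834607113 (.c 4673 (.c 32 .nil))) .nil)))))) (.node (.node (.node (.node (.node (.I .jac (.c 3491688652046793 (.c 8 (.c 24 .nil))) (.b 32 .nil)) (.I .jac (.c 15456208906582089 (.c 8 (.c 32 .nil))) (.b 24 .nil))) (.node (.I .jac (.c 15456208906582089 (.c 4673 (.c 32 .nil))) .nil) (.I .jac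 (.c 15456208906582089 (.c 8 (.c 24 .nil))) (.b 32 .nil)))) (.node (.node (.I .jac (.c 59109074018392946377 (.c 16 (.c 24 .nil))) (.b 32 .nil)) (.I .jac (.c 13748198893136698057 (.c 8321 (.c 24 .nil))) .nil)) (.node (.I .jac (.c 13748198893136698057 (.c 16 (.c 32 .nil))) (.b 24 .nil)) (.I .jac (.c 13748198893136698057 (.c 4737 (.c 32 .nil))) .nil)))) (.node (.node (.node (.I .jac (.c 15456118887243913 (.c 16 (.c 24 .nil))) (.b 32 .nil)) (.I .jac (.c 59109062884628932553 (.c 8321 (.c 24 .nil))) .nil)) (.node (.I .jac (.c 59109062884628932553 (.c 16 (.c 32 .nil))) (.b 24 .nil)) (.I .jac (.c 59109062884628932553 (.c 4737 (.c 32 .nil))) .nil))) (.node (.node (.I .jac (.c 35473026505673 (.c 16 (.c 32 .nil))) (.b 24 .nil)) (.I .jac (.c 35473026505673 (.c 16 (.c 24 .nil))) (.b 32 .nil))) (.node (.I .jac (.c 14629225721520521 (.c 8321 (.c 24 .nil))) .nil) (.I .jac (.c 14629225721520521 (.c 16 (.c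 32 .nil))) (.b 24 .nil)))))) (.node (.node (.node (.node (.I .jac (.c 13748192181200529417 (.c 8321 (.c 24 .nil))) .nil) (.I .jac (.c 13748192181200529417 (.c 16 (.c 32 .nil))) (.b 24 .nil))) (.node (.I .jac (.c 13748192181200529417 (.c 4737 (.c 32 .nil))) .nil) (.I .jac (.c 13748192181200529417 (.c 16 (.c 24 .nil))) (.b 32 .nil)))) (.node (.node (.I .jac (.c 35470870263817 (.c 8321 (.c 24 .nil))) .nil) (.I .jac (.c 35470870263817 (.c 16 (.c 32 .nil))) (.b 24 .nil))) (.node (.I .jac (.c 35470870263817 (.c 4737 (.c 32 .nil))) .nil) (.I .jac (.c 35470870263817 (.c 16 (.c 24 .nil))) (.b 32 .nil))))) (.node (.node (.node (.I .jac (.c 3423058053194185 (.c 16 (.c 24 .nil))) (.b 32 .nil)) (.I .jac (.c 15456163896880201 (.c 16 (.c 32 .nil))) (.b 24 .nil))) (.node (.I .jac (.c 15456163896880201 (.c 16 (.c 24 .nil))) (.b 32 .nil)) (.I .jac (.c 2718204233 (.c 8 (.c 32 .nil))) (.b 16 (.b 24 .nil)))))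 (.node (.node (.I .jac (.c 2718204233 (.c 174695561 (.c 32 .nil))) .nil) (.I .jac (.c 2718204233 (.c 8 (.c 16 .nil))) (.b 24 (.b 32 .nil)))) (.node (.I .jac (.c 2718204233 (.c 2803779 (.c 32 .nil))) .nil) (.I .jac (.c 1310925193 (.c 545424585 (.c 16 .nil))) .nil)))))))

noncomputable def c5_4 : Tr := (.node (.node (.node (.node (.node (.node (.I .jac (.c 1310925193 (.c 8257 (.c 24 .nil))) (.b 16 .nil)) (.I .jac (.c 1310925193 (.c 8 (.c 32 .nil))) (.b 24 (.b 16 .nil)))) (.node (.I .jac (.c 1310925193 (.c 174695689 (.c 16 .nil))) .nil) (.I .jac (.c 1310925193 (.c 4673 (.c 32 .nil))) (.b 16 .nil)))) (.node (.node (.I .jac (.c 1310925193 (.c 8 (.c 24 .nil))) (.b 32 (.b 16 .nil))) (.I .jac (.c 1310925193 (.c 8786499 (.c 16 .nil))) .nil)) (.node (.I .jac (.c 1310925193 (.c 8 (.c 32 .nil))) (.b 16 (.b 24 .nil))) (.I .jac (.c 1310925193 (.c 2803779 (.c 32 .nil))) .nil)))) (.node (.node (.node (.I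 .jac (.c 1310925193 (.c 8 (.c 8786563 .nil))) .nil) (.I .jac (.c 43954691 (.c 8 (.c 32 .nil))) (.b 24 (.b 16 .nil)))) (.node (.I .jac (.c 43954691 (.c 8786499 (.c 16 .nil))) .nil) (.I .jac (.c 43954691 (.c 8 (.c 32 .nil))) (.b 16 (.b 24 .nil))))) (.node (.node (.I .jac (.c 43954691 (.c 8 (.c 16 .nil))) (.b 32 (.b 24 .nil))) (.I .jac (.c 43954691 (.c 8652867 (.c 24 .nil))) .nil)) (.node (.I .jac (.c 43954691 (.c 4673 (.c 16 .nil))) (.b 32 .nil)) (.I .jac (.c 43954691 (.c 8 (.c 24 .nil))) (.b 16 (.b 32 .nil))))))) (.node (.node (.node (.node (.I .jac (.c 43954691 (.c 8 (.c 16 .nil))) (.b 24 (.b 32 .nil))) (.I .jac (.c 43954691 (.c 2803779 (.c 32 .nil))) .nil)) (.node (.I .jac (.c 27951058418068892742902176168037983934217 (.c 8 (.c 40 .nil))) .nil) (.I .jac (.c 27951055785643122908012690443949941766921 (.c 8 (.c 40 .nil))) .nil))) (.node (.node (.I .jac (.c 1809230235455515626080385262368521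 (.c 8 (.c 40 .nil))) .nil) (.I .jac (.c 1859603590828719327337421759899401 (.c 8 (.c 40 .nil))) .nil)) (.node (.I .jac (.c 42576974092320099556365595025629983561 (.c 8 (.c 40 .nil))) .nil) (.I .jac (.c 1859570876265457888126924734394185 (.c 8 (.c 40 .nil))) .nil)))) (.node (.node (.node (.I .jac (.c 1859592685926327833225220410189641 (.c 8 (.c 40 .nil))) .nil) (.I .jac (.c 427058636821845956378289793772237705 (.c 8 (.c 40 .nil))) .nil)) (.node (.I .jac (.c 27951053153217538893119514365376803559305 (.c 8 (.c 40 .nil))) .nil) (.I .jac (.c 651591722123579838450590277895049 (.c 8 (.c 40 .nil))) .nil))) (.node (.node (.I .jac (.c 31637737730463973030333874057 (.c 8 (.c 40 .nil))) .nil) (.I .jac (.c 617629514971217 (.c 8 (.c 40 .nil))) .nil)) (.node (.I .jac (.c 427057350195048083672236560419042313 (.c 8 (.c 40 .nil))) .nil) (.I .jac (.c 651596688508347287845007406880777 (.c 8 (.c 40 .nil))) .nil))))))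 (.node (.node (.node (.node (.node (.I .jac (.c 427056063571157913309372238443346953 (.c 8 (.c 40 .nil))) .nil) (.I .jac (.c 651591722123561355438909041458185 (.c 8 (.c 40 .nil))) .nil)) (.node (.I .jac (.c 31637737730335181391477946377 (.c 8 (.c 40 .nil))) .nil) (.I .jac (.c 15038498931112017 (.c 8 (.c 40 .nil))) .nil))) (.node (.node (.I .jac (.c 15246281046272081 (.c 8 (.c 40 .nil))) .nil) (.I .jac (.c 29055794941648019629501533921931 (.c 8 (.c 40 .nil))) .nil)) (.node (.I .jac (.c 44845332836730247624948147787 (.c 8 (.c 40 .nil))) .nil) (.I .jac (.c 29056135717599600404064026645003 (.c 8 (.c 40 .nil))) .nil)))) (.node (.node (.node (.I .jac (.c 29056306106699223560489755089803 (.c 8 (.c 40 .nil))) .nil) (.I .jac (.c 427058636821846429560832352193444553 (.c 16 (.c 40 .nil))) .nil)) (.node (.I .jac (.c 1809230235455515626080385262368457 (.c 16 (.c 40 .nil))) .nil) (.I .jac (.c 427057350195049030035896088956977865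 (.c 16 (.c 40 .nil))) .nil))) (.node (.node (.I .jac (.c 1859603590828719327337421759899337 (.c 16 (.c 40 .nil))) .nil) (.I .jac (.c 42576974092320097194025833638928027465 (.c 16 (.c 40 .nil))) .nil)) (.node (.I .jac (.c 1859570876265442276026685052832585 (.c 16 (.c 40 .nil))) .nil) (.I .jac (.c 27951050520792140940324630661021757881161 (.c 16 (.c 40 .nil))) .nil))))) (.node (.node (.node (.node (.I .jac (.c 10066684875741109290467687241 (.c 16 (.c 40 .nil))) .nil) (.I .jac (.c 1712113961689565885627358955910985 (.c 16 (.c 40 .nil))) .nil)) (.node (.I .jac (.c 2698162480891381558379040177993 (.c 16 (.c 40 .nil))) .nil) (.I .jac (.c 27951055785643122726429632160908738482057 (.c 16 (.c 40 .nil))) .nil))) (.node (.node (.I .jac (.c 427055420260303274284998876733539209 (.c 16 (.c 40 .nil))) .nil) (.I .jac (.c 10063013877651720715266098057 (.c 16 (.c 40 .nil))) .nil)) (.node (.I .jac (.c 1809240918100417214955082230359945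 (.c 16 (.c 40 .nil))) .nil) (.I .jac (.c 3051551917823601198840448306185 (.c 16 (.c 40 .nil))) .nil)))) (.node (.node (.node (.I .jac (.c 2698162480889597495046571987977 (.c 16 (.c 40 .nil))) .nil) (.I .jac (.c 427055420260302801104238302686362633 (.c 16 (.c 40 .nil))) .nil)) (.node (.I .jac (.c 3051640828265749411890955905033 (.c 16 (.c 40 .nil))) .nil) (.I .jac (.c 15246236343278673 (.c 16 (.c 40 .nil))) .nil))) (.node (.node (.I .jac (.c 29055794941648019629501533921867 (.c 16 (.c 40 .nil))) .nil) (.I .jac (.c 29055965329249118512411134016011 (.c 16 (.c 40 .nil))) .nil)) (.node (.I .jac (.c 28269389345319977685149684059275 (.c 16 (.c 40 .nil))) .nil) (.I .jac (.c 47681887941711471725338787211 (.c 16 (.c 40 .nil))) .nil)))))))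

noncomputable def c5_5 : Tr := (.node (.node (.node (.node (.node (.node (.I .jac (.c 59109071234951844681 (.c 12865 (.c 16 .nil))) .nil) (.I .jac (.c 59109071234951844681 (.c 8 (.c 40 .nil))) (.b 16 .nil))) (.node (.I .jac (.c 59109071234951844681 (.c 8 (.c 16 .nil))) (.b 40 .nil)) (.I .jac (.c 2306972423229201225 (.c 8 (.c 40 .nil))) (.b 16 .nil)))) (.node (.node (.I .jac (.c 2306972423229201225 (.c 8 (.c 16 .nil))) (.b 40 .nil)) (.I .jac (.c 15246191640314121 (.c 2113 (.c 40 .nil))) .nil)) (.node (.I .jac (.c 15246191640314121 (.c 8 (.c 16 .nil))) (.b 40 .nil)) (.I .jac (.c 59109068451510808457 (.c 12865 (.c 16 .nil))) .nil)))) (.node (.node (.node (.I .jac (.c 59109068451510808457 (.c 2113 (.c 40 .nil))) .nil) (.I .jac (.c 231046163358604169 (.c 12865 (.c 16 .nil))) .nil)) (.node (.I .jac (.c 231046163358604169 (.c 8 (.c 40 .nil))) (.b 16 .nil)) (.I .jac (.c 231046163358604169 (.c 2113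 (.c 40 .nil))) .nil))) (.node (.node (.I .jac (.c 231046163358604169 (.c 8 (.c 16 .nil))) (.b 40 .nil)) (.I .jac (.c 15038410136445257 (.c 8 (.c 40 .nil))) (.b 16 .nil))) (.node (.I .jac (.c 15038410136445257 (.c 8 (.c 16 .nil))) (.b 40 .nil)) (.I .jac (.c 2306970773558194185 (.c 12865 (.c 16 .nil))) .nil))))) (.node (.node (.node (.node (.I .jac (.c 2306970773558194185 (.c 2113 (.c 40 .nil))) .nil) (.I .jac (.c 231045815314584585 (.c 12865 (.c 16 .nil))) .nil)) (.node (.I .jac (.c 231045815314584585 (.c 2113 (.c 40 .nil))) .nil) (.I .jac (.c 617611520074185 (.c 8 (.c 16 .nil))) (.b 40 .nil)))) (.node (.node (.I .jac (.c 15246325749294153 (.c 12865 (.c 16 .nil))) .nil) (.I .jac (.c 15246325749294153 (.c 8 (.c 40 .nil))) (.b 16 .nil))) (.node (.I .jac (.c 15246325749294153 (.c 8 (.c 16 .nil))) (.b 40 .nil)) (.I .jac (.c 27951058418068892682374487223447295013577 (.c 24 (.c 40 .nil))) .nil))))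 (.node (.node (.node (.I .jac (.c 27951053153217538953647197609480317336265 (.c 24 (.c 40 .nil))) .nil) (.I .jac (.c 42576892903125868487846022299823817417 (.c 24 (.c 40 .nil))) .nil)) (.node (.I .jac (.c 2870101301550745431484650323657 (.c 24 (.c 40 .nil))) .nil) (.I .jac (.c 27951050520792140940324630661021757881097 (.c 24 (.c 40 .nil))) .nil))) (.node (.node (.I .jac (.c 10064237432128545199748236041 (.c 24 (.c 40 .nil))) .nil) (.I .jac (.c 2698162480891381558379040177929 (.c 24 (.c 40 .nil))) .nil)) (.node (.I .jac (.c 1859581781071896992296047629788937 (.c 24 (.c 40 .nil))) .nil) (.I .jac (.c 27951053153217538772064147877169776201609 (.c 24 (.c 40 .nil))) .nil)))))) (.node (.node (.node (.node (.node (.I .jac (.c 651606621363089303044061530656649 (.c 24 (.c 40 .nil))) .nil) (.I .jac (.c 1712113961689535924973081282146185 (.c 24 (.c 40 .nil))) .nil)) (.node (.I .jac (.c 1760096547751797123547316855728009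 (.c 24 (.c 40 .nil))) .nil) (.I .jac (.c 598976858704977 (.c 24 (.c 40 .nil))) .nil))) (.node (.node (.I .jac (.c 42576872605845441665422493413917717513 (.c 24 (.c 40 .nil))) .nil) (.I .jac (.c 2698162480889002807269082722313 (.c 24 (.c 40 .nil))) .nil)) (.node (.I .jac (.c 15246281046239313 (.c 24 (.c 40 .nil))) .nil) (.I .jac (.c 26751780651399463305621053306123 (.c 24 (.c 40 .nil))) .nil)))) (.node (.node (.node (.I .jac (.c 44845332836730247624948147659 (.c 24 (.c 40 .nil))) .nil) (.I .jac (.c 42158788763927691662226826763 (.c 24 (.c 40 .nil))) .nil)) (.node (.I .jac (.c 773197955391312038143627 (.c 24 (.c 40 .nil))) .nil) (.I .jac (.c 29055965329248874572629642144651 (.c 24 (.c 40 .nil))) .nil))) (.node (.node (.I .jac (.c 44846659635985718831597993355 (.c 24 (.c 40 .nil))) .nil) (.I .jac (.c 29056135717599112523070547114251 (.c 24 (.c 40 .nil))) .nil)) (.node (.I .jac (.c 59109071234951844617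 (.c 12865 (.c 24 .nil))) .nil) (.I .jac (.c 59109071234951844617 (.c 8 (.c 40 .nil))) (.b 24 .nil)))))) (.node (.node (.node (.node (.I .jac (.c 59109071234951844617 (.c 8 (.c 24 .nil))) (.b 40 .nil)) (.I .jac (.c 2306972423229201161 (.c 12865 (.c 24 .nil))) .nil)) (.node (.I .jac (.c 2306972423229201161 (.c 4673 (.c 40 .nil))) .nil) (.I .jac (.c 15246191640314057 (.c 4673 (.c 40 .nil))) .nil))) (.node (.node (.I .jac (.c 59109065668069837705 (.c 12865 (.c 24 .nil))) .nil) (.I .jac (.c 59109065668069837705 (.c 8 (.c 40 .nil))) (.b 24 .nil))) (.node (.I .jac (.c 59109065668069837705 (.c 4673 (.c 40 .nil))) .nil) (.I .jac (.c 59109065668069837705 (.c 8 (.c 24 .nil))) (.b 40 .nil))))) (.node (.node (.node (.I .jac (.c 9025011228269449 (.c 8 (.c 40 .nil))) (.b 24 .nil)) (.I .jac (.c 9025011228269449 (.c 8 (.c 24 .nil))) (.b 40 .nil))) (.node (.I .jac (.c 14832759703961929 (.c 12865 (.c 24 .nil)))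 .nil) (.I .jac (.c 14832759703961929 (.c 4673 (.c 40 .nil))) .nil))) (.node (.node (.I .jac (.c 2306970223667989513 (.c 4673 (.c 40 .nil))) .nil) (.I .jac (.c 2306970223667989513 (.c 8 (.c 24 .nil))) (.b 40 .nil))) (.node (.I .jac (.c 9024942441010185 (.c 8 (.c 40 .nil))) (.b 24 .nil)) (.I .jac (.c 9024942441010185 (.c 8 (.c 24 .nil))) (.b 40 .nil))))))))

noncomputable def c5_6 : Tr := (.node (.node (.node (.node (.node (.node (.I .jac (.c 598967998054857 (.c 8 (.c 40 .nil))) (.b 24 .nil)) (.I .jac (.c 598967998054857 (.c 4673 (.c 40 .nil))) .nil)) (.node (.I .jac (.c 15246281046235209 (.c 4673 (.c 40 .nil))) .nil) (.I .jac (.c 15246281046235209 (.c 8 (.c 24 .nil))) (.b 40 .nil)))) (.node (.node (.I .jac (.c 59109071234951844553 (.c 12929 (.c 24 .nil))) .nil) (.I .jac (.c 59109071234951844553 (.c 16 (.c 24 .nil))) (.b 40 .nil))) (.node (.I .jac (.c 2306972423229201097 (.c 12929 (.c 24 .nil)))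 .nil) (.I .jac (.c 2306972423229201097 (.c 16 (.c 40 .nil))) (.b 24 .nil))))) (.node (.node (.node (.I .jac (.c 15246191640313993 (.c 16 (.c 40 .nil))) (.b 24 .nil)) (.I .jac (.c 15246191640313993 (.c 16 (.c 24 .nil))) (.b 40 .nil))) (.node (.I .jac (.c 59109062884628932489 (.c 4737 (.c 40 .nil))) .nil) (.I .jac (.c 59109062884628932489 (.c 16 (.c 24 .nil))) (.b 40 .nil)))) (.node (.node (.I .jac (.c 35473026505609 (.c 16 (.c 40 .nil))) (.b 24 .nil)) (.I .jac (.c 35473026505609 (.c 16 (.c 24 .nil))) (.b 40 .nil))) (.node (.I .jac (.c 14629225721520457 (.c 16 (.c 40 .nil))) (.b 24 .nil)) (.I .jac (.c 14629225721520457 (.c 16 (.c 24 .nil))) (.b 40 .nil)))))) (.node (.node (.node (.node (.I .jac (.c 2306969673777850377 (.c 16 (.c 40 .nil))) (.b 24 .nil)) (.I .jac (.c 2306969673777850377 (.c 4737 (.c 40 .nil))) .nil)) (.node (.I .jac (.c 2306969673777850377 (.c 16 (.c 24 .nil))) (.b 40 .nil))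 (.I .jac (.c 35468714087433 (.c 16 (.c 24 .nil))) (.b 40 .nil)))) (.node (.node (.I .jac (.c 580749782704585 (.c 16 (.c 40 .nil))) (.b 24 .nil)) (.I .jac (.c 580749782704585 (.c 4737 (.c 40 .nil))) .nil)) (.node (.I .jac (.c 15246236343241801 (.c 4737 (.c 40 .nil))) .nil) (.I .jac (.c 15246236343241801 (.c 16 (.c 24 .nil))) (.b 40 .nil))))) (.node (.node (.node (.I .jac (.c 2718204169 (.c 8 (.c 24 .nil))) (.b 40 (.b 16 .nil))) (.I .jac (.c 2718204169 (.c 21099075 (.c 16 .nil))) .nil)) (.node (.I .jac (.c 2718204169 (.c 1324065929 (.c 24 .nil))) .nil) (.I .jac (.c 2718204169 (.c 12865 (.c 16 .nil))) (.b 24 .nil)))) (.node (.node (.I .jac (.c 2718204169 (.c 8 (.c 16 .nil))) (.b 40 (.b 24 .nil))) (.I .jac (.c 2718204169 (.c 174695561 (.c 40 .nil))) .nil)) (.node (.I .jac (.c 2718204169 (.c 4673 (.c 16 .nil))) (.b 40 .nil)) (.I .jac (.c 2718204169 (.c 2113 (.c 24 .nil))) (.b 40 .nil))))))) (.node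 (.node (.node (.node (.node (.I .jac (.c 2718204169 (.c 2803779 (.c 40 .nil))) .nil) (.I .jac (.c 537002377 (.c 1324065993 (.c 16 .nil))) .nil)) (.node (.I .jac (.c 537002377 (.c 12865 (.c 24 .nil))) (.b 16 .nil)) (.I .jac (.c 537002377 (.c 1324065929 (.c 24 .nil))) .nil))) (.node (.node (.I .jac (.c 537002377 (.c 12865 (.c 16 .nil))) (.b 24 .nil)) (.I .jac (.c 537002377 (.c 8 (.c 40 .nil))) (.b 16 (.b 24 .nil)))) (.node (.I .jac (.c 537002377 (.c 35718473 (.c 24 .nil))) .nil) (.I .jac (.c 537002377 (.c 20891715 (.c 24 .nil))) .nil)))) (.node (.node (.node (.I .jac (.c 537002377 (.c 4673 (.c 16 .nil))) (.b 40 .nil)) (.I .jac (.c 537002377 (.c 8 (.c 24 .nil))) (.b 16 (.b 40 .nil)))) (.node (.I .jac (.c 537002377 (.c 35718345 (.c 40 .nil))) .nil) (.I .jac (.c 537002377 (.c 2113 (.c 24 .nil))) (.b 40 .nil)))) (.node (.node (.I .jac (.c 537002377 (.c 2803779 (.c 40 .nil))) .nil) (.I .jac (.c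 43655171 (.c 8 (.c 40 .nil))) (.b 24 (.b 16 .nil)))) (.node (.I .jac (.c 43655171 (.c 8 (.c 40 .nil))) (.b 16 (.b 24 .nil))) (.I .jac (.c 43655171 (.c 8 (.c 16 .nil))) (.b 40 (.b 24 .nil))))))) (.node (.node (.node (.node (.I .jac (.c 43655171 (.c 20891715 (.c 24 .nil))) .nil) (.I .jac (.c 43655171 (.c 8 (.c 16 .nil))) (.b 24 (.b 40 .nil)))) (.node (.I .jac (.c 43655171 (.c 8 (.c 21099139 .nil))) .nil) (.I .jac (.c 427058636821845956378289793772237513 (.c 32 (.c 40 .nil))) .nil))) (.node (.node (.I .jac (.c 1809230235455484827416425822613193 (.c 32 (.c 40 .nil))) .nil) (.I .jac (.c 651606621363107786267057026225865 (.c 32 (.c 40 .nil))) .nil)) (.node (.I .jac (.c 427056063571158386490489209096946377 (.c 32 (.c 40 .nil))) .nil) (.I .jac (.c 31637737730463973030333873865 (.c 32 (.c 40 .nil))) .nil)))) (.node (.node (.node (.I .jac (.c 1809230235455469428084446102833929 (.c 32 (.c 40 .nil)))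 .nil) (.I .jac (.c 27951050520792140879796950267161731045129 (.c 32 (.c 40 .nil))) .nil)) (.node (.I .jac (.c 10066684875704784911325976329 (.c 32 (.c 40 .nil))) .nil) (.I .jac (.c 427055420260303274284998876733539081 (.c 32 (.c 40 .nil))) .nil))) (.node (.node (.I .jac (.c 28374916743873793267608813321 (.c 32 (.c 40 .nil))) .nil) (.I .jac (.c 1809240918100417214955082230359817 (.c 32 (.c 40 .nil))) .nil)) (.node (.I .jac (.c 27951053153217538772064147877169776201545 (.c 32 (.c 40 .nil))) .nil) (.I .jac (.c 27951050520792140819269269873301704274761 (.c 32 (.c 40 .nil))) .nil)))))))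

noncomputable def c5_7 : Tr := (.node (.node (.node (.node (.node (.node (.I .jac (.c 10066684875668460532184331081 (.c 32 (.c 40 .nil))) .nil) (.I .jac (.c 10061790434743040737723204425 (.c 32 (.c 40 .nil))) .nil)) (.node (.I .jac (.c 49484669145083763774947145 (.c 32 (.c 40 .nil))) .nil) (.I .jac (.c 62889413594193 (.c 32 (.c 40 .nil))) .nil))) (.node (.node (.I .jac (.c 427056063571157203537696782463438857 (.c 32 (.c 40 .nil))) .nil) (.I .jac (.c 31637737730141993933194546185 (.c 32 (.c 40 .nil))) .nil)) (.node (.I .jac (.c 427055420260302327923477728639448073 (.c 32 (.c 40 .nil))) .nil) (.I .jac (.c 28374916743629853698454908937 (.c 32 (.c 40 .nil))) .nil)))) (.node (.node (.node (.I .jac (.c 651581789439131375743888515045385 (.c 32 (.c 40 .nil))) .nil) (.I .jac (.c 10061790434634094094990628873 (.c 32 (.c 40 .nil))) .nil)) (.node (.I .jac (.c 15038454533729361 (.c 32 (.c 40 .nil)))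 .nil) (.I .jac (.c 15038498931050577 (.c 32 (.c 40 .nil))) .nil))) (.node (.node (.I .jac (.c 443358074123013130916668939 (.c 32 (.c 40 .nil))) .nil) (.I .jac (.c 773197955391312038143563 (.c 32 (.c 40 .nil))) .nil)) (.node (.I .jac (.c 28269389345319496454604605238155 (.c 32 (.c 40 .nil))) .nil) (.I .jac (.c 59109068451510808329 (.c 12865 (.c 32 .nil))) .nil))))) (.node (.node (.node (.node (.I .jac (.c 59109068451510808329 (.c 8 (.c 40 .nil))) (.b 32 .nil)) (.I .jac (.c 59109068451510808329 (.c 8257 (.c 40 .nil))) .nil)) (.node (.I .jac (.c 59109068451510808329 (.c 8 (.c 32 .nil))) (.b 40 .nil)) (.I .jac (.c 231046163358604041 (.c 12865 (.c 32 .nil))) .nil))) (.node (.node (.I .jac (.c 231046163358604041 (.c 8 (.c 40 .nil))) (.b 32 .nil)) (.I .jac (.c 231046163358604041 (.c 8 (.c 32 .nil))) (.b 40 .nil))) (.node (.I .jac (.c 15038410136445129 (.c 8 (.c 40 .nil))) (.b 32 .nil)) (.I .jac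 (.c 59109065668069837641 (.c 12865 (.c 32 .nil))) .nil)))) (.node (.node (.node (.I .jac (.c 59109065668069837641 (.c 8 (.c 40 .nil))) (.b 32 .nil)) (.I .jac (.c 59109065668069837641 (.c 8 (.c 32 .nil))) (.b 40 .nil))) (.node (.I .jac (.c 9025011228269385 (.c 12865 (.c 32 .nil))) .nil) (.I .jac (.c 14832759703961865 (.c 8 (.c 40 .nil))) (.b 32 .nil)))) (.node (.node (.I .jac (.c 14832759703961865 (.c 8 (.c 32 .nil))) (.b 40 .nil)) (.I .jac (.c 231045467270827017 (.c 8 (.c 40 .nil))) (.b 32 .nil))) (.node (.I .jac (.c 62886542410185 (.c 12865 (.c 32 .nil))) .nil) (.I .jac (.c 62886542410185 (.c 8 (.c 40 .nil))) (.b 32 .nil))))))) (.node (.node (.node (.node (.node (.I .jac (.c 62886542410185 (.c 8 (.c 32 .nil))) (.b 40 .nil)) (.I .jac (.c 15038498931046473 (.c 8 (.c 32 .nil))) (.b 40 .nil))) (.node (.I .jac (.c 59109068451510808265 (.c 12929 (.c 32 .nil))) .nil) (.I .jac (.c 231046163358603977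 (.c 16 (.c 40 .nil))) (.b 32 .nil)))) (.node (.node (.I .jac (.c 231046163358603977 (.c 8321 (.c 40 .nil))) .nil) (.I .jac (.c 15038410136445065 (.c 16 (.c 32 .nil))) (.b 40 .nil))) (.node (.I .jac (.c 59109062884628932425 (.c 12929 (.c 32 .nil))) .nil) (.I .jac (.c 59109062884628932425 (.c 16 (.c 40 .nil))) (.b 32 .nil))))) (.node (.node (.node (.I .jac (.c 59109062884628932425 (.c 16 (.c 32 .nil))) (.b 40 .nil)) (.I .jac (.c 35473026505545 (.c 12929 (.c 32 .nil))) .nil)) (.node (.I .jac (.c 35473026505545 (.c 8321 (.c 40 .nil))) .nil) (.I .jac (.c 35473026505545 (.c 16 (.c 32 .nil))) (.b 40 .nil)))) (.node (.node (.I .jac (.c 14629225721520393 (.c 16 (.c 40 .nil))) (.b 32 .nil)) (.I .jac (.c 14629225721520393 (.c 8321 (.c 40 .nil))) .nil)) (.node (.I .jac (.c 231045293249046537 (.c 16 (.c 40 .nil))) (.b 32 .nil)) (.I .jac (.c 231045293249046537 (.c 8321 (.c 40 .nil))) .nil))))) (.node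 (.node (.node (.node (.I .jac (.c 231045293249046537 (.c 16 (.c 32 .nil))) (.b 40 .nil)) (.I .jac (.c 35466557976585 (.c 12929 (.c 32 .nil))) .nil)) (.node (.I .jac (.c 59555558875593 (.c 16 (.c 40 .nil))) (.b 32 .nil)) (.I .jac (.c 59555558875593 (.c 8321 (.c 40 .nil))) .nil))) (.node (.node (.I .jac (.c 15038454533712969 (.c 12929 (.c 32 .nil))) .nil) (.I .jac (.c 15038454533712969 (.c 16 (.c 40 .nil))) (.b 32 .nil))) (.node (.I .jac (.c 15038454533712969 (.c 16 (.c 32 .nil))) (.b 40 .nil)) (.I .jac (.c 2718204105 (.c 1324066057 (.c 16 .nil))) .nil)))) (.node (.node (.node (.I .jac (.c 2718204105 (.c 12865 (.c 32 .nil))) (.b 16 .nil)) (.I .jac (.c 2718204105 (.c 8 (.c 40 .nil))) (.b 32 (.b 16 .nil)))) (.node (.I .jac (.c 2718204105 (.c 8 (.c 32 .nil))) (.b 40 (.b 16 .nil))) (.I .jac (.c 2718204105 (.c 12865 (.c 16 .nil))) (.b 32 .nil)))) (.node (.node (.I .jac (.c 2718204105 (.c 8 (.c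 40 .nil))) (.b 16 (.b 32 .nil))) (.I .jac (.c 2718204105 (.c 2113 (.c 40 .nil))) (.b 32 .nil))) (.node (.I .jac (.c 2718204105 (.c 8 (.c 16 .nil))) (.b 40 (.b 32 .nil))) (.I .jac (.c 2718204105 (.c 20891715 (.c 32 .nil))) .nil)))))))

noncomputable def c5_8 : Tr := (.node (.node (.node (.node (.node (.node (.I .jac (.c 2718204105 (.c 35718409 (.c 40 .nil))) .nil) (.I .jac (.c 2718204105 (.c 2113 (.c 32 .nil))) (.b 40 .nil))) (.node (.I .jac (.c 2718204105 (.c 8 (.c 16 .nil))) (.b 32 (.b 40 .nil))) (.I .jac (.c 169943433 (.c 21307459 (.c 16 .nil))) .nil))) (.node (.node (.I .jac (.c 169943433 (.c 1324065929 (.c 32 .nil))) .nil) (.I .jac (.c 169943433 (.c 12865 (.c 16 .nil))) (.b 32 .nil))) (.node (.I .jac (.c 169943433 (.c 8 (.c 40 .nil))) (.b 16 (.b 32 .nil))) (.I .jac (.c 169943433 (.c 35718473 (.c 32 .nil))) .nil)))) (.node (.node (.node (.I .jac (.c 169943433 (.c 8 (.c 16 .nil))) (.b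 40 (.b 32 .nil))) (.I .jac (.c 169943433 (.c 20891715 (.c 32 .nil))) .nil)) (.node (.I .jac (.c 169943433 (.c 545424521 (.c 40 .nil))) .nil) (.I .jac (.c 169943433 (.c 8 (.c 32 .nil))) (.b 16 (.b 40 .nil))))) (.node (.node (.I .jac (.c 169943433 (.c 35718409 (.c 40 .nil))) .nil) (.I .jac (.c 169943433 (.c 2113 (.c 32 .nil))) (.b 40 .nil))) (.node (.I .jac (.c 169943433 (.c 8652867 (.c 40 .nil))) .nil) (.I .jac (.c 169943433 (.c 8 (.c 21307523 .nil))) .nil))))) (.node (.node (.node (.node (.I .jac (.c 43356675 (.c 8 (.c 40 .nil))) (.b 16 (.b 32 .nil))) (.I .jac (.c 43356675 (.c 8652867 (.c 40 .nil))) .nil)) (.node (.I .jac (.c 43356675 (.c 8 (.c 21307523 .nil))) .nil) (.I .jac (.c 59109065668069837513 (.c 12993 (.c 32 .nil))) .nil))) (.node (.node (.I .jac (.c 59109065668069837513 (.c 24 (.c 40 .nil))) (.b 32 .nil)) (.I .jac (.c 59109065668069837513 (.c 8385 (.c 40 .nil))) .nil)) (.node (.I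 .jac (.c 59109065668069837513 (.c 24 (.c 32 .nil))) (.b 40 .nil)) (.I .jac (.c 9025011228269257 (.c 12993 (.c 32 .nil))) .nil)))) (.node (.node (.node (.I .jac (.c 9025011228269257 (.c 8385 (.c 40 .nil))) .nil) (.I .jac (.c 9025011228269257 (.c 24 (.c 32 .nil))) (.b 40 .nil))) (.node (.I .jac (.c 14832759703961737 (.c 24 (.c 40 .nil))) (.b 32 .nil)) (.I .jac (.c 14832759703961737 (.c 24 (.c 32 .nil))) (.b 40 .nil)))) (.node (.node (.I .jac (.c 59109062884628932361 (.c 12993 (.c 32 .nil))) .nil) (.I .jac (.c 59109062884628932361 (.c 24 (.c 40 .nil))) (.b 32 .nil))) (.node (.I .jac (.c 59109062884628932361 (.c 8385 (.c 40 .nil))) .nil) (.I .jac (.c 59109062884628932361 (.c 24 (.c 32 .nil))) (.b 40 .nil))))))) (.node (.node (.node (.node (.node (.I .jac (.c 35473026505481 (.c 12993 (.c 32 .nil))) .nil) (.I .jac (.c 35473026505481 (.c 8385 (.c 40 .nil))) .nil)) (.node (.I .jac (.c 35473026505481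 (.c 24 (.c 32 .nil))) (.b 40 .nil)) (.I .jac (.c 14629225721520329 (.c 24 (.c 40 .nil))) (.b 32 .nil)))) (.node (.node (.I .jac (.c 9024839260612617 (.c 12993 (.c 32 .nil))) .nil) (.I .jac (.c 9024839260612617 (.c 8385 (.c 40 .nil))) .nil)) (.node (.I .jac (.c 9024839260612617 (.c 24 (.c 32 .nil))) (.b 40 .nil)) (.I .jac (.c 35464401931273 (.c 12993 (.c 32 .nil))) .nil)))) (.node (.node (.node (.I .jac (.c 35464401931273 (.c 24 (.c 40 .nil))) (.b 32 .nil)) (.I .jac (.c 35464401931273 (.c 8385 (.c 40 .nil))) .nil)) (.node (.I .jac (.c 35464401931273 (.c 24 (.c 32 .nil))) (.b 40 .nil)) (.I .jac (.c 2487083360713 (.c 8385 (.c 40 .nil))) .nil))) (.node (.node (.I .jac (.c 2718204041 (.c 21307459 (.c 24 .nil))) .nil) (.I .jac (.c 2718204041 (.c 8 (.c 40 .nil))) (.b 24 (.b 32 .nil)))) (.node (.I .jac (.c 2718204041 (.c 545424585 (.c 40 .nil))) .nil) (.I .jac (.c 2718204041 (.c 8257 (.c 24 .nil)))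 (.b 40 .nil)))))) (.node (.node (.node (.node (.I .jac (.c 2718204041 (.c 8786499 (.c 40 .nil))) .nil) (.I .jac (.c 2718204041 (.c 8 (.c 21307587 .nil))) .nil)) (.node (.I .jac (.c 33587593 (.c 8 (.c 32 .nil))) (.b 40 (.b 24 .nil))) (.I .jac (.c 33587593 (.c 1324065993 (.c 32 .nil))) .nil))) (.node (.node (.I .jac (.c 33587593 (.c 8 (.c 40 .nil))) (.b 24 (.b 32 .nil))) (.I .jac (.c 33587593 (.c 4673 (.c 40 .nil))) (.b 32 .nil))) (.node (.I .jac (.c 33587593 (.c 8 (.c 24 .nil))) (.b 40 (.b 32 .nil))) (.I .jac (.c 33587593 (.c 174695689 (.c 40 .nil))) .nil)))) (.node (.node (.node (.I .jac (.c 33587593 (.c 4673 (.c 32 .nil))) (.b 40 .nil)) (.I .jac (.c 33587593 (.c 8 (.c 24 .nil))) (.b 32 (.b 40 .nil)))) (.node (.I .jac (.c 33587593 (.c 8 (.c 21307587 .nil))) .nil) (.I .jac (.c 43059203 (.c 8 (.c 40 .nil))) (.b 32 (.b 24 .nil))))) (.node (.node (.I .jac (.c 43059203 (.c 8 (.c 32 .nil))) (.b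 40 (.b 24 .nil))) (.I .jac (.c 43059203 (.c 8 (.c 40 .nil))) (.b 24 (.b 32 .nil)))) (.node (.I .jac (.c 43059203 (.c 8 (.c 24 .nil))) (.b 40 (.b 32 .nil))) (.I .jac (.c 43059203 (.c 21099075 (.c 32 .nil))) .nil)))))))

noncomputable def c5_9 : Tr := (.node (.node (.node (.node (.node (.node (.I .jac (.c 43059203 (.c 8 (.c 32 .nil))) (.b 24 (.b 40 .nil))) (.I .jac (.c 43059203 (.c 8 (.c 24 .nil))) (.b 32 (.b 40 .nil)))) (.node (.I .jac (.c 43059203 (.c 8 (.c 21307587 .nil))) .nil) (.I .jac (.c 2718203977 (.c 16 (.c 32 .nil))) (.b 40 (.b 24 .nil))))) (.node (.node (.I .jac (.c 2718203977 (.c 179513673 (.c 32 .nil))) .nil) (.I .jac (.c 2718203977 (.c 4737 (.c 40 .nil))) (.b 32 .nil))) (.node (.I .jac (.c 2718203977 (.c 16 (.c 24 .nil))) (.b 40 (.b 32 .nil))) (.I .jac (.c 2718203977 (.c 21099139 (.c 32 .nil))) .nil)))) (.node (.node (.node (.I .jac (.c 2718203977 (.c 553912521 (.c 40 .nil)))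 .nil) (.I .jac (.c 2718203977 (.c 8321 (.c 24 .nil))) (.b 40 .nil))) (.node (.I .jac (.c 2718203977 (.c 16 (.c 32 .nil))) (.b 24 (.b 40 .nil))) (.I .jac (.c 2718203977 (.c 179513609 (.c 40 .nil))) .nil))) (.node (.node (.I .jac (.c 2718203977 (.c 4737 (.c 32 .nil))) (.b 40 .nil)) (.I .jac (.c 2718203977 (.c 8786563 (.c 40 .nil))) .nil)) (.node (.I .jac (.c 2718203977 (.c 16 (.c 21307587 .nil))) .nil) (.I .jac (.c 2105737 (.c 1337272521 (.c 32 .nil))) .nil))))) (.node (.node (.node (.node (.I .jac (.c 2105737 (.c 12929 (.c 24 .nil))) (.b 32 .nil)) (.I .jac (.c 2105737 (.c 16 (.c 40 .nil))) (.b 24 (.b 32 .nil)))) (.node (.I .jac (.c 2105737 (.c 179513673 (.c 32 .nil))) .nil) (.I .jac (.c 2105737 (.c 4737 (.c 40 .nil))) (.b 32 .nil)))) (.node (.node (.I .jac (.c 2105737 (.c 4737 (.c 32 .nil))) (.b 40 .nil)) (.I .jac (.c 2105737 (.c 16 (.c 24 .nil))) (.b 32 (.b 40 .nil)))) (.node (.I .jac (.c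 2105737 (.c 8786563 (.c 40 .nil))) .nil) (.I .jac (.c 2105737 (.c 16 (.c 21307587 .nil))) .nil)))) (.node (.node (.node (.I .jac (.c 42762755 (.c 21307523 (.c 24 .nil))) .nil) (.I .jac (.c 42762755 (.c 16 (.c 40 .nil))) (.b 24 (.b 32 .nil)))) (.node (.I .jac (.c 42762755 (.c 16 (.c 24 .nil))) (.b 40 (.b 32 .nil))) (.I .jac (.c 42762755 (.c 16 (.c 24 .nil))) (.b 32 (.b 40 .nil))))) (.node (.node (.I .jac (.c 42762755 (.c 8786563 (.c 40 .nil))) .nil) (.I .jac (.c 18433 (.c 3632062472293641 (.c 16 .nil))) .nil)) (.node (.I .jac (.c 18433 (.c 21307459 (.c 24 .nil))) (.b 16 .nil)) (.I .jac (.c 18433 (.c 8 (.c 32 .nil))) (.b 24 (.b 40 (.b 16 .nil))))))))) (.node (.node (.node (.node (.node (.I .jac (.c 18433 (.c 8 (.c 24 .nil))) (.b 32 (.b 40 (.b 16 .nil)))) (.I .jac (.c 18433 (.c 8786499 (.c 40 .nil))) (.b 16 .nil))) (.node (.I .jac (.c 18433 (.c 3632106110100617 (.c 16 .nil))) .nil) (.I .jac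 (.c 18433 (.c 8 (.c 32 .nil))) (.b 40 (.b 16 (.b 24 .nil)))))) (.node (.node (.I .jac (.c 18433 (.c 8 (.c 40 .nil))) (.b 16 (.b 32 (.b 24 .nil)))) (.I .jac (.c 18433 (.c 3491710045130057 (.c 24 .nil))) .nil)) (.node (.I .jac (.c 18433 (.c 20891715 (.c 32 .nil))) (.b 24 .nil)) (.I .jac (.c 18433 (.c 8257 (.c 16 .nil))) (.b 40 (.b 24 .nil)))))) (.node (.node (.node (.I .jac (.c 18433 (.c 8652867 (.c 40 .nil))) (.b 24 .nil)) (.I .jac (.c 18433 (.c 8 (.c 21307523 .nil))) (.b 24 .nil))) (.node (.I .jac (.c 18433 (.c 3561367726845129 (.c 32 .nil))) .nil) (.I .jac (.c 18433 (.c 21099075 (.c 16 .nil))) (.b 32 .nil)))) (.node (.node (.I .jac (.c 18433 (.c 1324065929 (.c 24 .nil))) (.b 32 .nil)) (.I .jac (.c 18433 (.c 12865 (.c 16 .nil))) (.b 24 (.b 32 .nil)))) (.node (.I .jac (.c 18433 (.c 8 (.c 40 .nil))) (.b 16 (.b 24 (.b 32 .nil)))) (.I .jac (.c 18433 (.c 35718473 (.c 24 .nil))) (.b 32 .nil))))))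 (.node (.node (.node (.node (.I .jac (.c 18433 (.c 2113 (.c 40 .nil))) (.b 24 (.b 32 .nil))) (.I .jac (.c 18433 (.c 8 (.c 16 .nil))) (.b 40 (.b 24 (.b 32 .nil))))) (.node (.I .jac (.c 18433 (.c 3491710045129993 (.c 32 .nil))) .nil) (.I .jac (.c 18433 (.c 174695561 (.c 40 .nil))) (.b 32 .nil)))) (.node (.node (.I .jac (.c 18433 (.c 3561389332330633 (.c 32 .nil))) .nil) (.I .jac (.c 18433 (.c 12865 (.c 8786563 .nil))) .nil)) (.node (.I .jac (.c 18433 (.c 545424585 (.c 16 .nil))) (.b 40 .nil)) (.I .jac (.c 18433 (.c 8257 (.c 24 .nil))) (.b 16 (.b 40 .nil)))))) (.node (.node (.node (.I .jac (.c 18433 (.c 8 (.c 24 .nil))) (.b 32 (.b 16 (.b 40 .nil)))) (.I .jac (.c 18433 (.c 545424521 (.c 24 .nil))) (.b 40 .nil))) (.node (.I .jac (.c 18433 (.c 8257 (.c 16 .nil))) (.b 24 (.b 40 .nil))) (.I .jac (.c 18433 (.c 2113 (.c 32 .nil))) (.b 24 (.b 40 .nil))))) (.node (.node (.I .jac (.c 18433 (.c 598976858557705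 (.c 40 .nil))) .nil) (.I .jac (.c 18433 (.c 8652867 (.c 24 .nil))) (.b 40 .nil))) (.node (.I .jac (.c 18433 (.c 4673 (.c 16 .nil))) (.b 32 (.b 40 .nil))) (.I .jac (.c 18433 (.c 8 (.c 24 .nil))) (.b 16 (.b 32 (.b 40 .nil))))))))))

noncomputable def c5_10 : Tr := (.node (.node (.node (.node (.node (.node (.I .jac (.c 18433 (.c 35718345 (.c 32 .nil))) (.b 40 .nil)) (.I .jac (.c 18433 (.c 2113 (.c 24 .nil))) (.b 32 (.b 40 .nil)))) (.node (.I .jac (.c 18433 (.c 8257 (.c 21099139 .nil))) .nil) (.I .jac (.c 18433 (.c 8 (.c 16 .nil))) (.b 21307587 .nil)))) (.node (.node (.I .jac (.c 42576953795010656131941434981856024329 (.c 8 (.c 48 .nil))) .nil) (.I .jac (.c 105533754468739142964158285779721 (.c 8 (.c 48 .nil))) .nil)) (.node (.I .jac (.c 1512102896582526849770380112053152561929 (.c 8 (.c 48 .nil))) .nil) (.I .jac (.c 42576913200413540599411453941751701257 (.c 8 (.c 48 .nil))) .nil)))) (.node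 (.node (.node (.I .jac (.c 3051551917826130935626671381257 (.c 8 (.c 48 .nil))) .nil) (.I .jac (.c 105537558360238163450942167246601 (.c 8 (.c 48 .nil))) .nil)) (.node (.I .jac (.c 1512103191868961649950570808237977416521 (.c 8 (.c 48 .nil))) .nil) (.I .jac (.c 42576953795010653769602236682924913481 (.c 8 (.c 48 .nil))) .nil))) (.node (.node (.I .jac (.c 1512102601296135269515422934336011008841 (.c 8 (.c 48 .nil))) .nil) (.I .jac (.c 651601654921541717468315286321993 (.c 8 (.c 48 .nil))) .nil)) (.node (.I .jac (.c 2870101301550132088254642182985 (.c 8 (.c 48 .nil))) .nil) (.I .jac (.c 105536290384975911038036627826505 (.c 8 (.c 48 .nil))) .nil))))) (.node (.node (.node (.node (.I .jac (.c 101465489572716653961425451675529 (.c 8 (.c 48 .nil))) .nil) (.I .jac (.c 1512102601296135255437272766182275864457 (.c 8 (.c 48 .nil))) .nil)) (.node (.I .jac (.c 97535117142648075757967005225865 (.c 8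 (.c 48 .nil))) .nil) (.I .jac (.c 427056063571158149899930723770113929 (.c 8 (.c 48 .nil))) .nil))) (.node (.node (.I .jac (.c 31637737730399577210905877385 (.c 8 (.c 48 .nil))) .nil) (.I .jac (.c 101467951811503808354312734910345 (.c 8 (.c 48 .nil))) .nil)) (.node (.I .jac (.c 427057350195048083672236560419042249 (.c 8 (.c 48 .nil))) .nil) (.I .jac (.c 651596688508347287845007406880713 (.c 8 (.c 48 .nil))) .nil)))) (.node (.node (.node (.I .jac (.c 427056063571157913309372238443346889 (.c 8 (.c 48 .nil))) .nil) (.I .jac (.c 31637737730335181391477946313 (.c 8 (.c 48 .nil))) .nil)) (.node (.I .jac (.c 3051729740651396214165224040393 (.c 8 (.c 48 .nil))) .nil) (.I .jac (.c 3632084291201105 (.c 8 (.c 48 .nil))) .nil))) (.node (.node (.I .jac (.c 1585398274573810790886627931403 (.c 8 (.c 48 .nil))) .nil) (.I .jac (.c 1523986205353931177814504191307 (.c 8 (.c 48 .nil))) .nil)) (.node (.I .jac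 (.c 47680498716033141466286721931 (.c 8 (.c 48 .nil))) .nil) (.I .jac (.c 44845332836720664136979270603 (.c 8 (.c 48 .nil))) .nil)))))) (.node (.node (.node (.node (.node (.I .jac (.c 494339652037477672284802059 (.c 8 (.c 48 .nil))) .nil) (.I .jac (.c 1649004537265422041994225406475 (.c 8 (.c 48 .nil))) .nil)) (.node (.I .jac (.c 1585436747054974044106072564875 (.c 8 (.c 48 .nil))) .nil) (.I .jac (.c 47683277197727321800138832651 (.c 8 (.c 48 .nil))) .nil))) (.node (.node (.I .jac (.c 1649024349378836623289967057803 (.c 8 (.c 48 .nil))) .nil) (.I .jac (.c 1512103191868961664028723725600700192457 (.c 16 (.c 48 .nil))) .nil)) (.node (.I .jac (.c 42576953795010656131941434981856024265 (.c 16 (.c 48 .nil))) .nil) (.I .jac (.c 105533754468739142964158285779657 (.c 16 (.c 48 .nil))) .nil)))) (.node (.node (.node (.I .jac (.c 42576913200413540599411453941751701193 (.c 16 (.c 48 .nil))) .nil) (.I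 .jac (.c 427057350195048793444981206822395593 (.c 16 (.c 48 .nil))) .nil)) (.node (.I .jac (.c 1512102896582526807535925483778566442889 (.c 16 (.c 48 .nil))) .nil) (.I .jac (.c 101465489572713007142997112408969 (.c 16 (.c 48 .nil))) .nil))) (.node (.node (.I .jac (.c 1512102306009786923259633531360632805257 (.c 16 (.c 48 .nil))) .nil) (.I .jac (.c 93738611484289995286311130272649 (.c 16 (.c 48 .nil))) .nil)) (.node (.I .jac (.c 427055420260303037694618589709918089 (.c 16 (.c 48 .nil))) .nil) (.I .jac (.c 101466720686505037251115829520265 (.c 16 (.c 48 .nil))) .nil))))) (.node (.node (.node (.node (.I .jac (.c 42576913200413531150059165447389106121 (.c 16 (.c 48 .nil))) .nil) (.I .jac (.c 3051551917823601198840448306121 (.c 16 (.c 48 .nil))) .nil)) (.node (.I .jac (.c 2698162480889597495046571987913 (.c 16 (.c 48 .nil))) .nil) (.I .jac (.c 427055420260302801104238302686362569 (.c 16 (.c 48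 .nil))) .nil))) (.node (.node (.I .jac (.c 10063013877579085204530183113 (.c 16 (.c 48 .nil))) .nil) (.I .jac (.c 28374916743751823483031730121 (.c 16 (.c 48 .nil))) .nil)) (.node (.I .jac (.c 3632062472330321 (.c 16 (.c 48 .nil))) .nil) (.I .jac (.c 3632106110104657 (.c 16 (.c 48 .nil))) .nil)))) (.node (.node (.node (.I .jac (.c 1648964913574048200804809843275 (.c 16 (.c 48 .nil))) .nil) (.I .jac (.c 1585398274573810790886627931339 (.c 16 (.c 48 .nil))) .nil)) (.node (.I .jac (.c 1464665804442085089512949216587 (.c 16 (.c 48 .nil))) .nil) (.I .jac (.c 47680498716033141466286721867 (.c 16 (.c 48 .nil))) .nil))) (.node (.node (.I .jac (.c 1585417510726868244241271213195 (.c 16 (.c 48 .nil))) .nil) (.I .jac (.c 1649024349378778509592205447435 (.c 16 (.c 48 .nil))) .nil)) (.node (.I .jac (.c 13748196208362033993 (.c 18497 (.c 16 .nil))) .nil) (.I .jac (.c 13748196208362033993 (.c 8 (.c 48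 .nil))) (.b 16 .nil))))))))

noncomputable def c5_11 : Tr := (.node (.node (.node (.node (.node (.node (.I .jac (.c 13748196208362033993 (.c 2113 (.c 48 .nil))) .nil) (.I .jac (.c 13748196208362033993 (.c 8 (.c 16 .nil))) (.b 48 .nil))) (.node (.I .jac (.c 2306971873338799945 (.c 8 (.c 16 .nil))) (.b 48 .nil)) (.I .jac (.c 3632040653488393 (.c 8 (.c 48 .nil))) (.b 16 .nil)))) (.node (.node (.I .jac (.c 3632040653488393 (.c 2113 (.c 48 .nil))) .nil) (.I .jac (.c 13748194865974800265 (.c 18497 (.c 16 .nil))) .nil)) (.node (.I .jac (.c 13748194865974800265 (.c 8 (.c 16 .nil))) (.b 48 .nil)) (.I .jac (.c 231045989336561545 (.c 18497 (.c 16 .nil))) .nil)))) (.node (.node (.node (.I .jac (.c 231045989336561545 (.c 2113 (.c 48 .nil))) .nil) (.I .jac (.c 231045989336561545 (.c 8 (.c 16 .nil))) (.b 48 .nil))) (.node (.I .jac (.c 2306970773558194121 (.c 18497 (.c 16 .nil))) .nil) (.I .jac (.c 2306970773558194121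 (.c 8 (.c 48 .nil))) (.b 16 .nil)))) (.node (.node (.I .jac (.c 2306970773558194121 (.c 8 (.c 16 .nil))) (.b 48 .nil)) (.I .jac (.c 231045815314584521 (.c 18497 (.c 16 .nil))) .nil)) (.node (.I .jac (.c 231045815314584521 (.c 8 (.c 48 .nil))) (.b 16 .nil)) (.I .jac (.c 231045815314584521 (.c 2113 (.c 48 .nil))) .nil))))) (.node (.node (.node (.node (.I .jac (.c 231045815314584521 (.c 8 (.c 16 .nil))) (.b 48 .nil)) (.I .jac (.c 617611520074121 (.c 2113 (.c 48 .nil))) .nil)) (.node (.I .jac (.c 617611520074121 (.c 8 (.c 16 .nil))) (.b 48 .nil)) (.I .jac (.c 3632106110100553 (.c 2113 (.c 48 .nil))) .nil))) (.node (.node (.I .jac (.c 3632106110100553 (.c 8 (.c 16 .nil))) (.b 48 .nil)) (.I .jac (.c 97535117142651651247146700977865 (.c 24 (.c 48 .nil))) .nil)) (.node (.I .jac (.c 42576892903125866125508513263802588873 (.c 24 (.c 48 .nil))) .nil) (.I .jac (.c 2870101301550132088254642182857 (.c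 24 (.c 48 .nil))) .nil)))) (.node (.node (.node (.I .jac (.c 1512103191868961635872417890875254705929 (.c 24 (.c 48 .nil))) .nil) (.I .jac (.c 105533754468731704544899941681929 (.c 24 (.c 48 .nil))) .nil)) (.node (.I .jac (.c 1512102306009786937337782324909974764297 (.c 24 (.c 48 .nil))) .nil) (.I .jac (.c 10065461098107652387135109897 (.c 24 (.c 48 .nil))) .nil))) (.node (.node (.I .jac (.c 93738611484293500497757600954121 (.c 24 (.c 48 .nil))) .nil) (.I .jac (.c 105535022421139207878223746524937 (.c 24 (.c 48 .nil))) .nil)) (.node (.I .jac (.c 1512102601296135227280972429874805772169 (.c 24 (.c 48 .nil))) .nil) (.I .jac (.c 97535117142640924779607613918089 (.c 24 (.c 48 .nil))) .nil)))))) (.node (.node (.node (.node (.node (.I .jac (.c 10065461098035008044835206025 (.c 24 (.c 48 .nil))) .nil) (.I .jac (.c 97536312314082855488951506397065 (.c 24 (.c 48 .nil))) .nil)) (.node (.I .jac (.c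 651596688508328804762888218546121 (.c 24 (.c 48 .nil))) .nil) (.I .jac (.c 42576872605845441665422493413917717449 (.c 24 (.c 48 .nil))) .nil))) (.node (.node (.I .jac (.c 10064237431983265346846634953 (.c 24 (.c 48 .nil))) .nil) (.I .jac (.c 2698162480889002807269082722249 (.c 24 (.c 48 .nil))) .nil)) (.node (.I .jac (.c 10061790434670409642568088521 (.c 24 (.c 48 .nil))) .nil) (.I .jac (.c 49484669139990217052338121 (.c 24 (.c 48 .nil))) .nil)))) (.node (.node (.node (.I .jac (.c 2870186216699415475033029961673 (.c 24 (.c 48 .nil))) .nil) (.I .jac (.c 3632084291168337 (.c 24 (.c 48 .nil))) .nil)) (.node (.I .jac (.c 1523986205353931177814504191179 (.c 24 (.c 48 .nil))) .nil) (.I .jac (.c 1464665804442085089512949216523 (.c 24 (.c 48 .nil))) .nil))) (.node (.node (.I .jac (.c 44845332836720664136979270475 (.c 24 (.c 48 .nil))) .nil) (.I .jac (.c 1524004879907767213530244320395 (.c 24 (.c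 48 .nil))) .nil)) (.node (.I .jac (.c 1649004537265305815296908146955 (.c 24 (.c 48 .nil))) .nil) (.I .jac (.c 13748196208362033929 (.c 4673 (.c 48 .nil))) .nil))))) (.node (.node (.node (.node (.I .jac (.c 13748196208362033929 (.c 8 (.c 24 .nil))) (.b 48 .nil)) (.I .jac (.c 2306971873338799881 (.c 18497 (.c 24 .nil))) .nil)) (.node (.I .jac (.c 2306971873338799881 (.c 4673 (.c 48 .nil))) .nil) (.I .jac (.c 2306971873338799881 (.c 8 (.c 24 .nil))) (.b 48 .nil)))) (.node (.node (.I .jac (.c 3632040653488329 (.c 8 (.c 48 .nil))) (.b 24 .nil)) (.I .jac (.c 13748193523587632009 (.c 18497 (.c 24 .nil))) .nil)) (.node (.I .jac (.c 13748193523587632009 (.c 8 (.c 48 .nil))) (.b 24 .nil)) (.I .jac (.c 13748193523587632009 (.c 4673 (.c 48 .nil))) .nil)))) (.node (.node (.node (.I .jac (.c 13748193523587632009 (.c 8 (.c 24 .nil))) (.b 48 .nil)) (.I .jac (.c 9024976834606985 (.c 18497 (.c 24 .nil)))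 .nil)) (.node (.I .jac (.c 9024976834606985 (.c 8 (.c 48 .nil))) (.b 24 .nil)) (.I .jac (.c 9024976834606985 (.c 8 (.c 24 .nil))) (.b 48 .nil)))) (.node (.node (.I .jac (.c 3491688652046665 (.c 18497 (.c 24 .nil))) .nil) (.I .jac (.c 3491688652046665 (.c 8 (.c 48 .nil))) (.b 24 .nil))) (.node (.I .jac (.c 3491688652046665 (.c 8 (.c 24 .nil))) (.b 48 .nil)) (.I .jac (.c 2306970223667989449 (.c 18497 (.c 24 .nil))) .nil)))))))

noncomputable def c5_12 : Tr := (.node (.node (.node (.node (.node (.node (.I .jac (.c 2306970223667989449 (.c 8 (.c 48 .nil))) (.b 24 .nil)) (.I .jac (.c 9024942441010121 (.c 8 (.c 48 .nil))) (.b 24 .nil))) (.node (.I .jac (.c 9024942441010121 (.c 8 (.c 24 .nil))) (.b 48 .nil)) (.I .jac (.c 598967998054793 (.c 8 (.c 24 .nil))) (.b 48 .nil)))) (.node (.node (.I .jac (.c 3632084291164233 (.c 4673 (.c 48 .nil))) .nil) (.I .jac (.c 13748192181200529289 (.c 16 (.c 24 .nil)))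 (.b 48 .nil))) (.node (.I .jac (.c 35470870263689 (.c 18561 (.c 24 .nil))) .nil) (.I .jac (.c 35470870263689 (.c 16 (.c 48 .nil))) (.b 24 .nil))))) (.node (.node (.node (.I .jac (.c 35470870263689 (.c 16 (.c 24 .nil))) (.b 48 .nil)) (.I .jac (.c 2306969673777850313 (.c 16 (.c 48 .nil))) (.b 24 .nil))) (.node (.I .jac (.c 2306969673777850313 (.c 4737 (.c 48 .nil))) .nil) (.I .jac (.c 2306969673777850313 (.c 16 (.c 24 .nil))) (.b 48 .nil)))) (.node (.node (.I .jac (.c 35468714087369 (.c 18561 (.c 24 .nil))) .nil) (.I .jac (.c 35468714087369 (.c 4737 (.c 48 .nil))) .nil)) (.node (.I .jac (.c 580749782704521 (.c 18561 (.c 24 .nil))) .nil) (.I .jac (.c 3632062472293449 (.c 16 (.c 48 .nil))) (.b 24 .nil)))))) (.node (.node (.node (.node (.I .jac (.c 1310925065 (.c 174695817 (.c 16 .nil))) .nil) (.I .jac (.c 1310925065 (.c 4673 (.c 48 .nil))) (.b 16 .nil))) (.node (.I .jac (.c 1310925065 (.c 8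 (.c 24 .nil))) (.b 48 (.b 16 .nil))) (.I .jac (.c 1310925065 (.c 43356739 (.c 16 .nil))) .nil))) (.node (.node (.I .jac (.c 1310925065 (.c 8 (.c 48 .nil))) (.b 16 (.b 24 .nil))) (.I .jac (.c 1310925065 (.c 8 (.c 16 .nil))) (.b 48 (.b 24 .nil)))) (.node (.I .jac (.c 1310925065 (.c 8 (.c 24 .nil))) (.b 16 (.b 48 .nil))) (.I .jac (.c 1310925065 (.c 8 (.c 43356803 .nil))) .nil)))) (.node (.node (.node (.I .jac (.c 537002313 (.c 2737112265 (.c 16 .nil))) .nil) (.I .jac (.c 537002313 (.c 18497 (.c 24 .nil))) (.b 16 .nil))) (.node (.I .jac (.c 537002313 (.c 8 (.c 48 .nil))) (.b 24 (.b 16 .nil))) (.I .jac (.c 537002313 (.c 2737112201 (.c 24 .nil))) .nil))) (.node (.node (.I .jac (.c 537002313 (.c 18497 (.c 16 .nil))) (.b 24 .nil)) (.I .jac (.c 537002313 (.c 8 (.c 48 .nil))) (.b 16 (.b 24 .nil)))) (.node (.I .jac (.c 537002313 (.c 2113 (.c 48 .nil))) (.b 24 .nil)) (.I .jac (.c 537002313 (.c 8 (.c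 16 .nil))) (.b 48 (.b 24 .nil)))))))) (.node (.node (.node (.node (.node (.I .jac (.c 537002313 (.c 43059267 (.c 24 .nil))) .nil) (.I .jac (.c 537002313 (.c 8 (.c 24 .nil))) (.b 16 (.b 48 .nil)))) (.node (.I .jac (.c 537002313 (.c 35718345 (.c 48 .nil))) .nil) (.I .jac (.c 537002313 (.c 2113 (.c 24 .nil))) (.b 48 .nil)))) (.node (.node (.I .jac (.c 537002313 (.c 2803779 (.c 48 .nil))) .nil) (.I .jac (.c 537002313 (.c 8 (.c 43356803 .nil))) .nil)) (.node (.I .jac (.c 21307395 (.c 8 (.c 24 .nil))) (.b 48 (.b 16 .nil))) (.I .jac (.c 21307395 (.c 8 (.c 48 .nil))) (.b 16 (.b 24 .nil)))))) (.node (.node (.node (.I .jac (.c 21307395 (.c 8 (.c 16 .nil))) (.b 48 (.b 24 .nil))) (.I .jac (.c 21307395 (.c 43059267 (.c 24 .nil))) .nil)) (.node (.I .jac (.c 21307395 (.c 8 (.c 24 .nil))) (.b 16 (.b 48 .nil))) (.I .jac (.c 21307395 (.c 8 (.c 16 .nil))) (.b 24 (.b 48 .nil))))) (.node (.node (.I .jac (.c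 21307395 (.c 2803779 (.c 48 .nil))) .nil) (.I .jac (.c 21307395 (.c 8 (.c 43356803 .nil))) .nil)) (.node (.I .jac (.c 427057993508083616106291307304383177 (.c 32 (.c 48 .nil))) .nil) (.I .jac (.c 651601654921532475892036648801993 (.c 32 (.c 48 .nil))) .nil))))) (.node (.node (.node (.node (.I .jac (.c 97535117142648075757967005225673 (.c 32 (.c 48 .nil))) .nil) (.I .jac (.c 651591722123570596944749659643593 (.c 32 (.c 48 .nil))) .nil)) (.node (.I .jac (.c 31637737730399577210905877193 (.c 32 (.c 48 .nil))) .nil) (.I .jac (.c 101467951811503808354312734910153 (.c 32 (.c 48 .nil))) .nil))) (.node (.node (.I .jac (.c 1512102306009786923259633531360632805129 (.c 32 (.c 48 .nil))) .nil) (.I .jac (.c 93738611484289995286311130272521 (.c 32 (.c 48 .nil))) .nil)) (.node (.I .jac (.c 10063013877615402959898107657 (.c 32 (.c 48 .nil))) .nil) (.I .jac (.c 28374916743812808375320238857 (.c 32 (.c 48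 .nil))) .nil)))) (.node (.node (.node (.I .jac (.c 1512102306009786909181484737811290911561 (.c 32 (.c 48 .nil))) .nil) (.I .jac (.c 651581789439149858614694249422665 (.c 32 (.c 48 .nil))) .nil)) (.node (.I .jac (.c 427056063571157203537696782463438793 (.c 32 (.c 48 .nil))) .nil) (.I .jac (.c 10063013877506449693794530249 (.c 32 (.c 48 .nil))) .nil))) (.node (.node (.I .jac (.c 28374916743629853698454908873 (.c 32 (.c 48 .nil))) .nil) (.I .jac (.c 31640626589388946877766395849 (.c 32 (.c 48 .nil))) .nil)) (.node (.I .jac (.c 3491710045166673 (.c 32 (.c 48 .nil))) .nil) (.I .jac (.c 1523986205353875310796071445067 (.c 32 (.c 48 .nil))) .nil)))))))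

noncomputable def c5_13 : Tr := (.node (.node (.node (.node (.node (.node (.I .jac (.c 1464665804442030320584098112139 (.c 32 (.c 48 .nil))) .nil) (.I .jac (.c 1585417510726754280474012167051 (.c 32 (.c 48 .nil))) .nil)) (.node (.I .jac (.c 1524004879907711346169522240011 (.c 32 (.c 48 .nil))) .nil) (.I .jac (.c 13748194865974800137 (.c 8257 (.c 48 .nil))) .nil))) (.node (.node (.I .jac (.c 231045989336561417 (.c 18497 (.c 32 .nil))) .nil) (.I .jac (.c 231045989336561417 (.c 8 (.c 48 .nil))) (.b 32 .nil))) (.node (.I .jac (.c 231045989336561417 (.c 8257 (.c 48 .nil))) .nil) (.I .jac (.c 231045989336561417 (.c 8 (.c 32 .nil))) (.b 48 .nil))))) (.node (.node (.node (.I .jac (.c 3561346121425097 (.c 8 (.c 48 .nil))) (.b 32 .nil)) (.I .jac (.c 3561346121425097 (.c 8 (.c 32 .nil))) (.b 48 .nil))) (.node (.I .jac (.c 13748193523587631945 (.c 18497 (.c 32 .nil))) .nil) (.I .jac (.c 13748193523587631945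 (.c 8 (.c 48 .nil))) (.b 32 .nil)))) (.node (.node (.I .jac (.c 13748193523587631945 (.c 8257 (.c 48 .nil))) .nil) (.I .jac (.c 9024976834606921 (.c 18497 (.c 32 .nil))) .nil)) (.node (.I .jac (.c 3491688652046601 (.c 18497 (.c 32 .nil))) .nil) (.I .jac (.c 3491688652046601 (.c 8 (.c 48 .nil))) (.b 32 .nil)))))) (.node (.node (.node (.node (.I .jac (.c 3491688652046601 (.c 8 (.c 32 .nil))) (.b 48 .nil)) (.I .jac (.c 231045467270826953 (.c 18497 (.c 32 .nil))) .nil)) (.node (.I .jac (.c 231045467270826953 (.c 8 (.c 48 .nil))) (.b 32 .nil)) (.I .jac (.c 231045467270826953 (.c 8257 (.c 48 .nil))) .nil))) (.node (.node (.I .jac (.c 231045467270826953 (.c 8 (.c 32 .nil))) (.b 48 .nil)) (.I .jac (.c 9024908047478729 (.c 18497 (.c 32 .nil))) .nil)) (.node (.I .jac (.c 9024908047478729 (.c 8 (.c 48 .nil))) (.b 32 .nil)) (.I .jac (.c 62886542410121 (.c 18497 (.c 32 .nil))) .nil)))) (.node (.node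 (.node (.I .jac (.c 3561389332330569 (.c 8257 (.c 48 .nil))) .nil) (.I .jac (.c 3561389332330569 (.c 8 (.c 32 .nil))) (.b 48 .nil))) (.node (.I .jac (.c 13748194865974800073 (.c 18561 (.c 32 .nil))) .nil) (.I .jac (.c 231045989336561353 (.c 18561 (.c 32 .nil))) .nil))) (.node (.node (.I .jac (.c 231045989336561353 (.c 8321 (.c 48 .nil))) .nil) (.I .jac (.c 3561346121425033 (.c 18561 (.c 32 .nil))) .nil)) (.node (.I .jac (.c 3561346121425033 (.c 16 (.c 48 .nil))) (.b 32 .nil)) (.I .jac (.c 13748192181200529225 (.c 18561 (.c 32 .nil))) .nil)))))) (.node (.node (.node (.node (.node (.I .jac (.c 35470870263625 (.c 18561 (.c 32 .nil))) .nil) (.I .jac (.c 35470870263625 (.c 8321 (.c 48 .nil))) .nil)) (.node (.I .jac (.c 35470870263625 (.c 16 (.c 32 .nil))) (.b 48 .nil)) (.I .jac (.c 231045293249046473 (.c 18561 (.c 32 .nil))) .nil))) (.node (.node (.I .jac (.c 231045293249046473 (.c 16 (.c 48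 .nil))) (.b 32 .nil)) (.I .jac (.c 231045293249046473 (.c 8321 (.c 48 .nil))) .nil)) (.node (.I .jac (.c 35466557976521 (.c 16 (.c 48 .nil))) (.b 32 .nil)) (.I .jac (.c 35466557976521 (.c 16 (.c 32 .nil))) (.b 48 .nil))))) (.node (.node (.node (.I .jac (.c 59555558875529 (.c 8321 (.c 48 .nil))) .nil) (.I .jac (.c 59555558875529 (.c 16 (.c 32 .nil))) (.b 48 .nil))) (.node (.I .jac (.c 3561367726845001 (.c 18561 (.c 32 .nil))) .nil) (.I .jac (.c 3561367726845001 (.c 16 (.c 48 .nil))) (.b 32 .nil)))) (.node (.node (.I .jac (.c 3561367726845001 (.c 16 (.c 32 .nil))) (.b 48 .nil)) (.I .jac (.c 1310925001 (.c 18497 (.c 32 .nil))) (.b 16 .nil))) (.node (.I .jac (.c 1310925001 (.c 8 (.c 48 .nil))) (.b 32 (.b 16 .nil))) (.I .jac (.c 1310925001 (.c 545424777 (.c 16 .nil))) .nil))))) (.node (.node (.node (.node (.I .jac (.c 1310925001 (.c 8257 (.c 48 .nil))) (.b 16 .nil)) (.I .jac (.c 1310925001 (.c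 8 (.c 32 .nil))) (.b 48 (.b 16 .nil)))) (.node (.I .jac (.c 1310925001 (.c 8 (.c 16 .nil))) (.b 48 (.b 32 .nil))) (.I .jac (.c 1310925001 (.c 8652867 (.c 48 .nil))) .nil))) (.node (.node (.I .jac (.c 1310925001 (.c 8 (.c 43655299 .nil))) .nil) (.I .jac (.c 169943369 (.c 43655235 (.c 16 .nil))) .nil)) (.node (.I .jac (.c 169943369 (.c 35718537 (.c 32 .nil))) .nil) (.I .jac (.c 169943369 (.c 2113 (.c 48 .nil))) (.b 32 .nil))))) (.node (.node (.node (.I .jac (.c 169943369 (.c 43059267 (.c 32 .nil))) .nil) (.I .jac (.c 169943369 (.c 545424521 (.c 48 .nil))) .nil)) (.node (.I .jac (.c 169943369 (.c 8257 (.c 16 .nil))) (.b 48 .nil)) (.I .jac (.c 169943369 (.c 2113 (.c 32 .nil))) (.b 48 .nil)))) (.node (.node (.I .jac (.c 169943369 (.c 8652867 (.c 48 .nil))) .nil) (.I .jac (.c 169943369 (.c 8 (.c 43655299 .nil))) .nil)) (.node (.I .jac (.c 21099011 (.c 43655235 (.c 16 .nil))) .nil) (.I .jac (.c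 21099011 (.c 8652867 (.c 48 .nil))) .nil)))))))

noncomputable def c5_14 : Tr := (.node (.node (.node (.node (.node (.node (.I .jac (.c 21099011 (.c 8 (.c 43655299 .nil))) .nil) (.I .jac (.c 13748193523587631817 (.c 18625 (.c 32 .nil))) .nil)) (.node (.I .jac (.c 13748193523587631817 (.c 8385 (.c 48 .nil))) .nil) (.I .jac (.c 13748193523587631817 (.c 24 (.c 32 .nil))) (.b 48 .nil)))) (.node (.node (.I .jac (.c 9024976834606793 (.c 18625 (.c 32 .nil))) .nil) (.I .jac (.c 9024976834606793 (.c 24 (.c 48 .nil))) (.b 32 .nil))) (.node (.I .jac (.c 9024976834606793 (.c 8385 (.c 48 .nil))) .nil) (.I .jac (.c 3491688652046473 (.c 24 (.c 32 .nil))) (.b 48 .nil))))) (.node (.node (.node (.I .jac (.c 13748192181200529161 (.c 18625 (.c 32 .nil))) .nil) (.I .jac (.c 13748192181200529161 (.c 24 (.c 48 .nil))) (.b 32 .nil))) (.node (.I .jac (.c 13748192181200529161 (.c 8385 (.c 48 .nil))) .nil) (.I .jac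 (.c 13748192181200529161 (.c 24 (.c 32 .nil))) (.b 48 .nil)))) (.node (.node (.I .jac (.c 35470870263561 (.c 24 (.c 48 .nil))) (.b 32 .nil)) (.I .jac (.c 35470870263561 (.c 8385 (.c 48 .nil))) .nil)) (.node (.I .jac (.c 3423058053193929 (.c 24 (.c 48 .nil))) (.b 32 .nil)) (.I .jac (.c 9024839260612553 (.c 18625 (.c 32 .nil))) .nil))))) (.node (.node (.node (.node (.I .jac (.c 9024839260612553 (.c 24 (.c 48 .nil))) (.b 32 .nil)) (.I .jac (.c 9024839260612553 (.c 8385 (.c 48 .nil))) .nil)) (.node (.I .jac (.c 9024839260612553 (.c 24 (.c 32 .nil))) (.b 48 .nil)) (.I .jac (.c 35464401931209 (.c 18625 (.c 32 .nil))) .nil))) (.node (.node (.I .jac (.c 35464401931209 (.c 24 (.c 48 .nil))) (.b 32 .nil)) (.I .jac (.c 35464401931209 (.c 8385 (.c 48 .nil))) .nil)) (.node (.I .jac (.c 2487083360649 (.c 24 (.c 48 .nil))) (.b 32 .nil)) (.I .jac (.c 2487083360649 (.c 8385 (.c 48 .nil))) .nil)))) (.node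 (.node (.node (.I .jac (.c 2487083360649 (.c 24 (.c 32 .nil))) (.b 48 .nil)) (.I .jac (.c 3491710045129801 (.c 24 (.c 48 .nil))) (.b 32 .nil))) (.node (.I .jac (.c 3491710045129801 (.c 24 (.c 32 .nil))) (.b 48 .nil)) (.I .jac (.c 1310924937 (.c 8 (.c 32 .nil))) (.b 48 (.b 24 .nil))))) (.node (.node (.I .jac (.c 1310924937 (.c 43655235 (.c 24 .nil))) .nil) (.I .jac (.c 1310924937 (.c 174695817 (.c 32 .nil))) .nil)) (.node (.I .jac (.c 1310924937 (.c 8 (.c 24 .nil))) (.b 48 (.b 32 .nil))) (.I .jac (.c 1310924937 (.c 545424585 (.c 48 .nil))) .nil)))))) (.node (.node (.node (.node (.node (.I .jac (.c 1310924937 (.c 8257 (.c 24 .nil))) (.b 48 .nil)) (.I .jac (.c 1310924937 (.c 8 (.c 43655363 .nil))) .nil)) (.node (.I .jac (.c 33587529 (.c 2737112265 (.c 32 .nil))) .nil) (.I .jac (.c 33587529 (.c 18497 (.c 24 .nil))) (.b 32 .nil)))) (.node (.node (.I .jac (.c 33587529 (.c 4673 (.c 48 .nil))) (.b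 32 .nil)) (.I .jac (.c 33587529 (.c 8 (.c 24 .nil))) (.b 48 (.b 32 .nil)))) (.node (.I .jac (.c 33587529 (.c 43356739 (.c 32 .nil))) .nil) (.I .jac (.c 33587529 (.c 545424585 (.c 48 .nil))) .nil)))) (.node (.node (.node (.I .jac (.c 33587529 (.c 8257 (.c 24 .nil))) (.b 48 .nil)) (.I .jac (.c 33587529 (.c 8 (.c 24 .nil))) (.b 32 (.b 48 .nil)))) (.node (.I .jac (.c 33587529 (.c 8 (.c 43655363 .nil))) .nil) (.I .jac (.c 20891651 (.c 8 (.c 32 .nil))) (.b 48 (.b 24 .nil))))) (.node (.node (.I .jac (.c 20891651 (.c 43655235 (.c 24 .nil))) .nil) (.I .jac (.c 20891651 (.c 43356739 (.c 32 .nil))) .nil)) (.node (.I .jac (.c 20891651 (.c 8 (.c 24 .nil))) (.b 32 (.b 48 .nil))) (.I .jac (.c 20891651 (.c 8786499 (.c 48 .nil))) .nil))))) (.node (.node (.node (.node (.I .jac (.c 1310924873 (.c 43356803 (.c 32 .nil))) .nil) (.I .jac (.c 1310924873 (.c 553912521 (.c 48 .nil))) .nil)) (.node (.I .jac (.c 1310924873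 (.c 8321 (.c 24 .nil))) (.b 48 .nil)) (.I .jac (.c 1310924873 (.c 16 (.c 32 .nil))) (.b 24 (.b 48 .nil))))) (.node (.node (.I .jac (.c 1310924873 (.c 179513609 (.c 48 .nil))) .nil) (.I .jac (.c 1310924873 (.c 4737 (.c 32 .nil))) (.b 48 .nil))) (.node (.I .jac (.c 1310924873 (.c 16 (.c 24 .nil))) (.b 32 (.b 48 .nil))) (.I .jac (.c 2105673 (.c 18561 (.c 24 .nil))) (.b 32 .nil))))) (.node (.node (.node (.I .jac (.c 2105673 (.c 16 (.c 48 .nil))) (.b 24 (.b 32 .nil))) (.I .jac (.c 2105673 (.c 16 (.c 24 .nil))) (.b 48 (.b 32 .nil)))) (.node (.I .jac (.c 2105673 (.c 16 (.c 32 .nil))) (.b 24 (.b 48 .nil))) (.I .jac (.c 2105673 (.c 4737 (.c 32 .nil))) (.b 48 .nil)))) (.node (.node (.I .jac (.c 2105673 (.c 16 (.c 24 .nil))) (.b 32 (.b 48 .nil))) (.I .jac (.c 20685315 (.c 16 (.c 48 .nil))) (.b 32 (.b 24 .nil)))) (.node (.I .jac (.c 20685315 (.c 16 (.c 32 .nil))) (.b 48 (.b 24 .nil))) (.I .jac (.c 20685315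 (.c 43356803 (.c 32 .nil))) .nil)))))))

noncomputable def c5_15 : Tr := (.node (.node (.node (.node (.node (.node (.I .jac (.c 20685315 (.c 8786563 (.c 48 .nil))) .nil) (.I .jac (.c 20685315 (.c 16 (.c 43655363 .nil))) .nil)) (.node (.I .jac (.c 12801 (.c 2737112329 (.c 24 .nil))) (.b 16 .nil)) (.I .jac (.c 12801 (.c 8 (.c 32 .nil))) (.b 48 (.b 24 (.b 16 .nil)))))) (.node (.node (.I .jac (.c 12801 (.c 43655235 (.c 24 .nil))) (.b 16 .nil)) (.I .jac (.c 12801 (.c 15038454533713225 (.c 16 .nil))) .nil)) (.node (.I .jac (.c 12801 (.c 43356739 (.c 32 .nil))) (.b 16 .nil)) (.I .jac (.c 12801 (.c 8 (.c 32 .nil))) (.b 24 (.b 48 (.b 16 .nil))))))) (.node (.node (.node (.I .jac (.c 12801 (.c 8 (.c 24 .nil))) (.b 32 (.b 48 (.b 16 .nil)))) (.I .jac (.c 12801 (.c 617620517416393 (.c 16 .nil))) .nil)) (.node (.I .jac (.c 12801 (.c 8786499 (.c 48 .nil))) (.b 16 .nil)) (.I .jac (.c 12801 (.c 15246325749294217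 (.c 16 .nil))) .nil))) (.node (.node (.I .jac (.c 12801 (.c 8 (.c 32 .nil))) (.b 48 (.b 16 (.b 24 .nil)))) (.I .jac (.c 12801 (.c 15246236343241929 (.c 24 .nil))) .nil)) (.node (.I .jac (.c 12801 (.c 8 (.c 48 .nil))) (.b 16 (.b 32 (.b 24 .nil)))) (.I .jac (.c 12801 (.c 14832803796618569 (.c 24 .nil))) .nil))))) (.node (.node (.node (.node (.I .jac (.c 12801 (.c 8257 (.c 16 .nil))) (.b 48 (.b 24 .nil))) (.I .jac (.c 12801 (.c 8 (.c 32 .nil))) (.b 16 (.b 48 (.b 24 .nil))))) (.node (.I .jac (.c 12801 (.c 2113 (.c 32 .nil))) (.b 48 (.b 24 .nil))) (.I .jac (.c 12801 (.c 598976858557897 (.c 24 .nil))) .nil))) (.node (.node (.I .jac (.c 12801 (.c 8652867 (.c 48 .nil))) (.b 24 .nil)) (.I .jac (.c 12801 (.c 15246281046235273 (.c 24 .nil))) .nil)) (.node (.I .jac (.c 12801 (.c 8 (.c 43655299 .nil))) (.b 24 .nil)) (.I .jac (.c 12801 (.c 8 (.c 24 .nil))) (.b 48 (.b 16 (.b 32 .nil))))))) (.node (.node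 (.node (.I .jac (.c 12801 (.c 15038454533713097 (.c 32 .nil))) .nil) (.I .jac (.c 12801 (.c 43356739 (.c 16 .nil))) (.b 32 .nil))) (.node (.I .jac (.c 12801 (.c 43059267 (.c 24 .nil))) (.b 32 .nil)) (.I .jac (.c 12801 (.c 174695561 (.c 48 .nil))) (.b 32 .nil)))) (.node (.node (.I .jac (.c 12801 (.c 4673 (.c 16 .nil))) (.b 48 (.b 32 .nil))) (.I .jac (.c 12801 (.c 2113 (.c 24 .nil))) (.b 48 (.b 32 .nil)))) (.node (.I .jac (.c 12801 (.c 8 (.c 16 .nil))) (.b 24 (.b 48 (.b 32 .nil)))) (.I .jac (.c 12801 (.c 2803779 (.c 48 .nil))) (.b 32 .nil))))))) (.node (.node (.node (.node (.node (.I .jac (.c 12801 (.c 15038498931046537 (.c 32 .nil))) .nil) (.I .jac (.c 12801 (.c 8 (.c 43356803 .nil))) (.b 32 .nil))) (.node (.I .jac (.c 12801 (.c 18497 (.c 8786563 .nil))) .nil) (.I .jac (.c 12801 (.c 8257 (.c 24 .nil))) (.b 16 (.b 48 .nil))))) (.node (.node (.I .jac (.c 12801 (.c 8 (.c 32 .nil))) (.b 24 (.b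 16 (.b 48 .nil)))) (.I .jac (.c 12801 (.c 8 (.c 24 .nil))) (.b 32 (.b 16 (.b 48 .nil))))) (.node (.I .jac (.c 12801 (.c 8257 (.c 16 .nil))) (.b 24 (.b 48 .nil))) (.I .jac (.c 12801 (.c 8 (.c 32 .nil))) (.b 16 (.b 24 (.b 48 .nil))))))) (.node (.node (.node (.I .jac (.c 12801 (.c 598976858557705 (.c 48 .nil))) .nil) (.I .jac (.c 12801 (.c 8 (.c 16 .nil))) (.b 24 (.b 32 (.b 48 .nil))))) (.node (.I .jac (.c 12801 (.c 62889413446985 (.c 48 .nil))) .nil) (.I .jac (.c 12801 (.c 2803779 (.c 32 .nil))) (.b 48 .nil)))) (.node (.node (.I .jac (.c 12801 (.c 617629514823817 (.c 48 .nil))) .nil) (.I .jac (.c 12801 (.c 4673 (.c 43655299 .nil))) .nil)) (.node (.I .jac (.c 12801 (.c 8 (.c 24 .nil))) (.b 43655299 .nil)) (.I .jac (.c 3051551917824233633037003976393 (.c 40 (.c 48 .nil))) .nil))))) (.node (.node (.node (.node (.I .jac (.c 651596688508347287845007406880457 (.c 40 (.c 48 .nil))) .nil) (.I .jac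 (.c 651591722123561355438909041457865 (.c 40 (.c 48 .nil))) .nil)) (.node (.I .jac (.c 427057350195047847081321678284721929 (.c 40 (.c 48 .nil))) .nil) (.I .jac (.c 3051551917823601198840448305929 (.c 40 (.c 48 .nil))) .nil))) (.node (.node (.I .jac (.c 42576872605845444027759439362436273929 (.c 40 (.c 48 .nil))) .nil) (.I .jac (.c 427055420260302801104238302686362377 (.c 40 (.c 48 .nil))) .nil)) (.node (.I .jac (.c 10063013877579085204530182921 (.c 40 (.c 48 .nil))) .nil) (.I .jac (.c 2870101301547678715334610275145 (.c 40 (.c 48 .nil))) .nil)))) (.node (.node (.node (.I .jac (.c 42576872605845441665422493413917717321 (.c 40 (.c 48 .nil))) .nil) (.I .jac (.c 62889413512273 (.c 40 (.c 48 .nil))) .nil)) (.node (.I .jac (.c 651591722123533630921387187294089 (.c 40 (.c 48 .nil))) .nil) (.I .jac (.c 31637737730141993933194546057 (.c 40 (.c 48 .nil))) .nil))) (.node (.node (.I .jac (.c 28374916743629853698454908809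 (.c 40 (.c 48 .nil))) .nil) (.I .jac (.c 651581789439131375743888515045257 (.c 40 (.c 48 .nil))) .nil)) (.node (.I .jac (.c 617629514827857 (.c 40 (.c 48 .nil))) .nil) (.I .jac (.c 47680498716003496113323168715 (.c 40 (.c 48 .nil))) .nil)))))))

noncomputable def c5_16 : Tr := (.node (.node (.node (.node (.node (.node (.I .jac (.c 44845332836701497161041519179 (.c 40 (.c 48 .nil))) .nil) (.I .jac (.c 42158788763899815672657011339 (.c 40 (.c 48 .nil))) .nil)) (.node (.I .jac (.c 443358074121107353032652043 (.c 40 (.c 48 .nil))) .nil) (.I .jac (.c 773197955311725370602827 (.c 40 (.c 48 .nil))) .nil))) (.node (.node (.I .jac (.c 494384790463211495072337035 (.c 40 (.c 48 .nil))) .nil) (.I .jac (.c 47683277197687793511190100235 (.c 40 (.c 48 .nil))) .nil)) (.node (.I .jac (.c 2306970773558193929 (.c 8 (.c 48 .nil))) (.b 40 .nil)) (.I .jac (.c 2306970773558193929 (.c 12865 (.c 48 .nil))) .nil))))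 (.node (.node (.node (.I .jac (.c 231045815314584329 (.c 12865 (.c 48 .nil))) .nil) (.I .jac (.c 231045815314584329 (.c 8 (.c 40 .nil))) (.b 48 .nil))) (.node (.I .jac (.c 617611520073929 (.c 8 (.c 48 .nil))) (.b 40 .nil)) (.I .jac (.c 617611520073929 (.c 12865 (.c 48 .nil))) .nil))) (.node (.node (.I .jac (.c 2306970223667989321 (.c 12865 (.c 48 .nil))) .nil) (.I .jac (.c 598967998054665 (.c 8 (.c 40 .nil))) (.b 48 .nil))) (.node (.I .jac (.c 231045467270826889 (.c 18497 (.c 40 .nil))) .nil) (.I .jac (.c 231045467270826889 (.c 8 (.c 48 .nil))) (.b 40 .nil)))))) (.node (.node (.node (.node (.I .jac (.c 9024908047478665 (.c 18497 (.c 40 .nil))) .nil) (.I .jac (.c 9024908047478665 (.c 8 (.c 48 .nil))) (.b 40 .nil))) (.node (.I .jac (.c 9024908047478665 (.c 12865 (.c 48 .nil))) .nil) (.I .jac (.c 62886542410057 (.c 18497 (.c 40 .nil))) .nil))) (.node (.node (.I .jac (.c 62886542410057 (.c 8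 (.c 48 .nil))) (.b 40 .nil)) (.I .jac (.c 62886542410057 (.c 12865 (.c 48 .nil))) .nil)) (.node (.I .jac (.c 617629514823753 (.c 18497 (.c 40 .nil))) .nil) (.I .jac (.c 617629514823753 (.c 8 (.c 48 .nil))) (.b 40 .nil))))) (.node (.node (.node (.I .jac (.c 617629514823753 (.c 12865 (.c 48 .nil))) .nil) (.I .jac (.c 617629514823753 (.c 8 (.c 40 .nil))) (.b 48 .nil))) (.node (.I .jac (.c 2306970773558193865 (.c 16 (.c 48 .nil))) (.b 40 .nil)) (.I .jac (.c 2306970773558193865 (.c 12929 (.c 48 .nil))) .nil))) (.node (.node (.I .jac (.c 231045815314584265 (.c 18561 (.c 40 .nil))) .nil) (.I .jac (.c 231045815314584265 (.c 16 (.c 40 .nil))) (.b 48 .nil))) (.node (.I .jac (.c 617611520073865 (.c 16 (.c 40 .nil))) (.b 48 .nil)) (.I .jac (.c 2306969673777850185 (.c 12929 (.c 48 .nil))) .nil)))))) (.node (.node (.node (.node (.node (.I .jac (.c 35468714087241 (.c 18561 (.c 40 .nil))) .nil) (.I .jac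 (.c 35468714087241 (.c 12929 (.c 48 .nil))) .nil)) (.node (.I .jac (.c 580749782704393 (.c 18561 (.c 40 .nil))) .nil) (.I .jac (.c 580749782704393 (.c 16 (.c 40 .nil))) (.b 48 .nil)))) (.node (.node (.I .jac (.c 231045293249046409 (.c 18561 (.c 40 .nil))) .nil) (.I .jac (.c 35466557976457 (.c 18561 (.c 40 .nil))) .nil)) (.node (.I .jac (.c 35466557976457 (.c 16 (.c 48 .nil))) (.b 40 .nil)) (.I .jac (.c 35466557976457 (.c 12929 (.c 48 .nil))) .nil)))) (.node (.node (.node (.I .jac (.c 59555558875465 (.c 16 (.c 40 .nil))) (.b 48 .nil)) (.I .jac (.c 617620517416009 (.c 16 (.c 48 .nil))) (.b 40 .nil))) (.node (.I .jac (.c 537002185 (.c 2737112393 (.c 16 .nil))) .nil) (.I .jac (.c 537002185 (.c 18497 (.c 40 .nil))) (.b 16 .nil)))) (.node (.node (.I .jac (.c 537002185 (.c 8 (.c 48 .nil))) (.b 40 (.b 16 .nil))) (.I .jac (.c 537002185 (.c 43954755 (.c 16 .nil))) .nil)) (.node (.I .jac (.c 537002185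 (.c 2737112201 (.c 40 .nil))) .nil) (.I .jac (.c 537002185 (.c 18497 (.c 16 .nil))) (.b 40 .nil)))))) (.node (.node (.node (.node (.I .jac (.c 537002185 (.c 8 (.c 48 .nil))) (.b 16 (.b 40 .nil))) (.I .jac (.c 537002185 (.c 2113 (.c 48 .nil))) (.b 40 .nil))) (.node (.I .jac (.c 537002185 (.c 8 (.c 16 .nil))) (.b 48 (.b 40 .nil))) (.I .jac (.c 537002185 (.c 43059267 (.c 40 .nil))) .nil))) (.node (.node (.I .jac (.c 537002185 (.c 8 (.c 40 .nil))) (.b 16 (.b 48 .nil))) (.I .jac (.c 169943305 (.c 18497 (.c 40 .nil))) (.b 16 .nil))) (.node (.I .jac (.c 169943305 (.c 8 (.c 48 .nil))) (.b 16 (.b 40 .nil))) (.I .jac (.c 169943305 (.c 35718537 (.c 40 .nil))) .nil)))) (.node (.node (.node (.I .jac (.c 169943305 (.c 2113 (.c 48 .nil))) (.b 40 .nil)) (.I .jac (.c 169943305 (.c 8 (.c 16 .nil))) (.b 48 (.b 40 .nil)))) (.node (.I .jac (.c 169943305 (.c 43059267 (.c 40 .nil))) .nil) (.I .jac (.c 169943305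 (.c 1324065929 (.c 48 .nil))) .nil))) (.node (.node (.I .jac (.c 169943305 (.c 12865 (.c 16 .nil))) (.b 48 .nil)) (.I .jac (.c 169943305 (.c 2113 (.c 40 .nil))) (.b 48 .nil))) (.node (.I .jac (.c 169943305 (.c 8 (.c 43954819 .nil))) .nil) (.I .jac (.c 8786435 (.c 8 (.c 48 .nil))) (.b 40 (.b 16 .nil)))))))))

noncomputable def c5_17 : Tr := (.node (.node (.node (.node (.node (.node (.I .jac (.c 8786435 (.c 8 (.c 40 .nil))) (.b 48 (.b 16 .nil))) (.I .jac (.c 8786435 (.c 18497 (.c 16 .nil))) (.b 40 .nil))) (.node (.I .jac (.c 8786435 (.c 8 (.c 16 .nil))) (.b 48 (.b 40 .nil))) (.I .jac (.c 8786435 (.c 43059267 (.c 40 .nil))) .nil))) (.node (.node (.I .jac (.c 8786435 (.c 8 (.c 40 .nil))) (.b 16 (.b 48 .nil))) (.I .jac (.c 8786435 (.c 8 (.c 16 .nil))) (.b 40 (.b 48 .nil)))) (.node (.I .jac (.c 8786435 (.c 20891715 (.c 48 .nil))) .nil) (.I .jac (.c 8786435 (.c 8 (.c 43954819 .nil))) .nil)))) (.node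 (.node (.node (.I .jac (.c 2306970223667989193 (.c 18625 (.c 40 .nil))) .nil) (.I .jac (.c 2306970223667989193 (.c 12993 (.c 48 .nil))) .nil)) (.node (.I .jac (.c 598967998054537 (.c 24 (.c 48 .nil))) (.b 40 .nil)) (.I .jac (.c 598967998054537 (.c 24 (.c 40 .nil))) (.b 48 .nil)))) (.node (.node (.I .jac (.c 2306969673777850121 (.c 12993 (.c 48 .nil))) .nil) (.I .jac (.c 35468714087177 (.c 18625 (.c 40 .nil))) .nil)) (.node (.I .jac (.c 35468714087177 (.c 12993 (.c 48 .nil))) .nil) (.I .jac (.c 9024839260612489 (.c 18625 (.c 40 .nil))) .nil))))) (.node (.node (.node (.node (.I .jac (.c 9024839260612489 (.c 24 (.c 48 .nil))) (.b 40 .nil)) (.I .jac (.c 35464401931145 (.c 18625 (.c 40 .nil))) .nil)) (.node (.I .jac (.c 35464401931145 (.c 24 (.c 48 .nil))) (.b 40 .nil)) (.I .jac (.c 35464401931145 (.c 12993 (.c 48 .nil))) .nil))) (.node (.node (.I .jac (.c 35464401931145 (.c 24 (.c 40 .nil)))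 (.b 48 .nil)) (.I .jac (.c 2487083360585 (.c 24 (.c 48 .nil))) (.b 40 .nil))) (.node (.I .jac (.c 598976858557513 (.c 24 (.c 48 .nil))) (.b 40 .nil)) (.I .jac (.c 537002121 (.c 8 (.c 40 .nil))) (.b 48 (.b 24 .nil)))))) (.node (.node (.node (.I .jac (.c 537002121 (.c 174695817 (.c 40 .nil))) .nil) (.I .jac (.c 537002121 (.c 8 (.c 24 .nil))) (.b 48 (.b 40 .nil)))) (.node (.I .jac (.c 537002121 (.c 8 (.c 40 .nil))) (.b 24 (.b 48 .nil))) (.I .jac (.c 537002121 (.c 4673 (.c 40 .nil))) (.b 48 .nil)))) (.node (.node (.I .jac (.c 537002121 (.c 8 (.c 24 .nil))) (.b 40 (.b 48 .nil))) (.I .jac (.c 537002121 (.c 21099075 (.c 48 .nil))) .nil)) (.node (.I .jac (.c 33587465 (.c 8 (.c 40 .nil))) (.b 48 (.b 24 .nil))) (.I .jac (.c 33587465 (.c 174695817 (.c 40 .nil))) .nil)))))) (.node (.node (.node (.node (.node (.I .jac (.c 33587465 (.c 4673 (.c 48 .nil))) (.b 40 .nil)) (.I .jac (.c 33587465 (.c 43356739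 (.c 40 .nil))) .nil)) (.node (.I .jac (.c 33587465 (.c 4673 (.c 40 .nil))) (.b 48 .nil)) (.I .jac (.c 33587465 (.c 8 (.c 24 .nil))) (.b 40 (.b 48 .nil))))) (.node (.node (.I .jac (.c 8652803 (.c 8 (.c 48 .nil))) (.b 24 (.b 40 .nil))) (.I .jac (.c 8652803 (.c 8 (.c 40 .nil))) (.b 24 (.b 48 .nil)))) (.node (.I .jac (.c 8652803 (.c 8 (.c 24 .nil))) (.b 40 (.b 48 .nil))) (.I .jac (.c 8652803 (.c 21099075 (.c 48 .nil))) .nil)))) (.node (.node (.node (.I .jac (.c 537002057 (.c 16 (.c 48 .nil))) (.b 40 (.b 24 .nil))) (.I .jac (.c 537002057 (.c 43954819 (.c 24 .nil))) .nil)) (.node (.I .jac (.c 537002057 (.c 16 (.c 24 .nil))) (.b 48 (.b 40 .nil))) (.I .jac (.c 537002057 (.c 43356803 (.c 40 .nil))) .nil))) (.node (.node (.I .jac (.c 537002057 (.c 179513673 (.c 48 .nil))) .nil) (.I .jac (.c 537002057 (.c 4737 (.c 40 .nil))) (.b 48 .nil))) (.node (.I .jac (.c 2105609 (.c 16 (.c 48 .nil))) (.b 40 (.b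 24 .nil))) (.I .jac (.c 2105609 (.c 1337272713 (.c 24 .nil))) .nil))))) (.node (.node (.node (.node (.I .jac (.c 2105609 (.c 12929 (.c 48 .nil))) (.b 24 .nil)) (.I .jac (.c 2105609 (.c 43954819 (.c 24 .nil))) .nil)) (.node (.I .jac (.c 2105609 (.c 4737 (.c 48 .nil))) (.b 40 .nil)) (.I .jac (.c 2105609 (.c 16 (.c 24 .nil))) (.b 48 (.b 40 .nil))))) (.node (.node (.I .jac (.c 2105609 (.c 43356803 (.c 40 .nil))) .nil) (.I .jac (.c 2105609 (.c 1337272521 (.c 48 .nil))) .nil)) (.node (.I .jac (.c 2105609 (.c 179513673 (.c 48 .nil))) .nil) (.I .jac (.c 2105609 (.c 16 (.c 24 .nil))) (.b 40 (.b 48 .nil)))))) (.node (.node (.node (.I .jac (.c 2105609 (.c 16 (.c 43954883 .nil))) .nil) (.I .jac (.c 8520195 (.c 18561 (.c 40 .nil))) (.b 24 .nil))) (.node (.I .jac (.c 8520195 (.c 43954819 (.c 24 .nil))) .nil) (.I .jac (.c 8520195 (.c 16 (.c 24 .nil))) (.b 48 (.b 40 .nil))))) (.node (.node (.I .jac (.c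 8520195 (.c 43356803 (.c 40 .nil))) .nil) (.I .jac (.c 8520195 (.c 16 (.c 40 .nil))) (.b 24 (.b 48 .nil)))) (.node (.I .jac (.c 8193 (.c 18497 (.c 40 .nil))) (.b 24 (.b 16 .nil))) (.I .jac (.c 8193 (.c 8 (.c 48 .nil))) (.b 40 (.b 24 (.b 16 .nil))))))))))

noncomputable def c5_18 : Tr := (.node (.node (.node (.node (.node (.node (.I .jac (.c 8193 (.c 8 (.c 40 .nil))) (.b 48 (.b 24 (.b 16 .nil)))) (.I .jac (.c 8193 (.c 43954755 (.c 24 .nil))) (.b 16 .nil))) (.node (.I .jac (.c 8193 (.c 8 (.c 48 .nil))) (.b 24 (.b 40 (.b 16 .nil)))) (.I .jac (.c 8193 (.c 8 (.c 40 .nil))) (.b 24 (.b 48 (.b 16 .nil)))))) (.node (.node (.I .jac (.c 8193 (.c 8 (.c 48 .nil))) (.b 40 (.b 16 (.b 24 .nil)))) (.I .jac (.c 8193 (.c 8 (.c 40 .nil))) (.b 48 (.b 16 (.b 24 .nil))))) (.node (.I .jac (.c 8193 (.c 8 (.c 48 .nil))) (.b 16 (.b 40 (.b 24 .nil)))) (.I .jac (.c 8193 (.c 2113 (.c 40 .nil))) (.b 48 (.b 24 .nil))))))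 (.node (.node (.node (.I .jac (.c 8193 (.c 8 (.c 16 .nil))) (.b 40 (.b 48 (.b 24 .nil)))) (.I .jac (.c 8193 (.c 20891715 (.c 48 .nil))) (.b 24 .nil))) (.node (.I .jac (.c 8193 (.c 8 (.c 48 .nil))) (.b 24 (.b 16 (.b 40 .nil)))) (.I .jac (.c 8193 (.c 15038454533713097 (.c 40 .nil))) .nil))) (.node (.node (.I .jac (.c 8193 (.c 43356739 (.c 16 .nil))) (.b 40 .nil)) (.I .jac (.c 8193 (.c 8 (.c 48 .nil))) (.b 16 (.b 24 (.b 40 .nil))))) (.node (.I .jac (.c 8193 (.c 2113 (.c 48 .nil))) (.b 24 (.b 40 .nil))) (.I .jac (.c 8193 (.c 8 (.c 16 .nil))) (.b 48 (.b 24 (.b 40 .nil)))))))) (.node (.node (.node (.node (.I .jac (.c 8193 (.c 43059267 (.c 24 .nil))) (.b 40 .nil)) (.I .jac (.c 8193 (.c 35718345 (.c 48 .nil))) (.b 40 .nil))) (.node (.I .jac (.c 8193 (.c 2113 (.c 24 .nil))) (.b 48 (.b 40 .nil))) (.I .jac (.c 8193 (.c 15038498931046537 (.c 40 .nil))) .nil))) (.node (.node (.I .jac (.c 8193 (.c 8 (.c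 48 .nil))) (.b 21099139 .nil)) (.I .jac (.c 8193 (.c 12865 (.c 24 .nil))) (.b 16 (.b 48 .nil)))) (.node (.I .jac (.c 8193 (.c 8 (.c 40 .nil))) (.b 24 (.b 16 (.b 48 .nil)))) (.I .jac (.c 8193 (.c 174695753 (.c 16 .nil))) (.b 48 .nil))))) (.node (.node (.node (.I .jac (.c 8193 (.c 4673 (.c 40 .nil))) (.b 16 (.b 48 .nil))) (.I .jac (.c 8193 (.c 21099075 (.c 16 .nil))) (.b 48 .nil))) (.node (.I .jac (.c 8193 (.c 3491710045129993 (.c 48 .nil))) .nil) (.I .jac (.c 8193 (.c 20891715 (.c 24 .nil))) (.b 48 .nil)))) (.node (.node (.I .jac (.c 8193 (.c 3561389332330633 (.c 48 .nil))) .nil) (.I .jac (.c 8193 (.c 4673 (.c 43954819 .nil))) .nil)) (.node (.I .jac (.c 8193 (.c 8 (.c 24 .nil))) (.b 43954819 .nil)) (.I .jac (.c 8193 (.c 2113 (.c 43954883 .nil))) .nil)))))) (.node (.node (.node (.node (.node (.I .jac (.c 8193 (.c 8 (.c 16 .nil))) (.b 43954883 .nil)) (.I .jac (.c 231045467270826697 (.c 18689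 (.c 40 .nil))) .nil)) (.node (.I .jac (.c 231045467270826697 (.c 13057 (.c 48 .nil))) .nil) (.I .jac (.c 9024908047478473 (.c 18689 (.c 40 .nil))) .nil))) (.node (.node (.I .jac (.c 9024908047478473 (.c 32 (.c 48 .nil))) (.b 40 .nil)) (.I .jac (.c 231045293249046281 (.c 32 (.c 48 .nil))) (.b 40 .nil))) (.node (.I .jac (.c 231045293249046281 (.c 13057 (.c 48 .nil))) .nil) (.I .jac (.c 35466557976329 (.c 32 (.c 48 .nil))) (.b 40 .nil))))) (.node (.node (.node (.I .jac (.c 35466557976329 (.c 13057 (.c 48 .nil))) .nil) (.I .jac (.c 59555558875337 (.c 32 (.c 48 .nil))) (.b 40 .nil))) (.node (.I .jac (.c 9024839260612425 (.c 32 (.c 48 .nil))) (.b 40 .nil)) (.I .jac (.c 35464401931081 (.c 13057 (.c 48 .nil))) .nil))) (.node (.node (.I .jac (.c 2487083360521 (.c 32 (.c 48 .nil))) (.b 40 .nil)) (.I .jac (.c 2487083360521 (.c 32 (.c 40 .nil))) (.b 48 .nil))) (.node (.I .jac (.c 62889413446729 (.c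 32 (.c 48 .nil))) (.b 40 .nil)) (.I .jac (.c 169943177 (.c 8 (.c 48 .nil))) (.b 40 (.b 32 .nil))))))) (.node (.node (.node (.node (.I .jac (.c 169943177 (.c 12865 (.c 48 .nil))) (.b 32 .nil)) (.I .jac (.c 169943177 (.c 8 (.c 40 .nil))) (.b 48 (.b 32 .nil)))) (.node (.I .jac (.c 169943177 (.c 43954755 (.c 32 .nil))) .nil) (.I .jac (.c 169943177 (.c 8 (.c 48 .nil))) (.b 32 (.b 40 .nil))))) (.node (.node (.I .jac (.c 169943177 (.c 8 (.c 32 .nil))) (.b 48 (.b 40 .nil))) (.I .jac (.c 169943177 (.c 8 (.c 40 .nil))) (.b 32 (.b 48 .nil)))) (.node (.I .jac (.c 169943177 (.c 21307459 (.c 48 .nil))) .nil) (.I .jac (.c 169943177 (.c 8 (.c 43954947 .nil))) .nil)))) (.node (.node (.node (.I .jac (.c 33587401 (.c 2737112393 (.c 32 .nil))) .nil) (.I .jac (.c 33587401 (.c 18497 (.c 40 .nil))) (.b 32 .nil))) (.node (.I .jac (.c 33587401 (.c 12865 (.c 48 .nil))) (.b 32 .nil)) (.I .jac (.c 33587401 (.c 8 (.c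 40 .nil))) (.b 48 (.b 32 .nil))))) (.node (.node (.I .jac (.c 33587401 (.c 8 (.c 48 .nil))) (.b 32 (.b 40 .nil))) (.I .jac (.c 33587401 (.c 545424777 (.c 40 .nil))) .nil)) (.node (.I .jac (.c 33587401 (.c 43655235 (.c 40 .nil))) .nil) (.I .jac (.c 33587401 (.c 1324066057 (.c 48 .nil))) .nil)))))))

noncomputable def c5_19 : Tr := (.node (.node (.node (.node (.node (.node (.I .jac (.c 33587401 (.c 12865 (.c 32 .nil))) (.b 48 .nil)) (.I .jac (.c 33587401 (.c 8 (.c 40 .nil))) (.b 32 (.b 48 .nil)))) (.node (.I .jac (.c 33587401 (.c 8 (.c 32 .nil))) (.b 40 (.b 48 .nil))) (.I .jac (.c 2803715 (.c 8 (.c 40 .nil))) (.b 48 (.b 32 .nil))))) (.node (.node (.I .jac (.c 2803715 (.c 43655235 (.c 40 .nil))) .nil) (.I .jac (.c 2803715 (.c 21307459 (.c 48 .nil))) .nil)) (.node (.I .jac (.c 2803715 (.c 8 (.c 43954947 .nil))) .nil) (.I .jac (.c 169943113 (.c 16 (.c 40 .nil))) (.b 48 (.b 32 .nil)))))) (.node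 (.node (.node (.I .jac (.c 169943113 (.c 43655299 (.c 40 .nil))) .nil) (.I .jac (.c 169943113 (.c 16 (.c 40 .nil))) (.b 32 (.b 48 .nil)))) (.node (.I .jac (.c 169943113 (.c 16 (.c 32 .nil))) (.b 40 (.b 48 .nil))) (.I .jac (.c 2105545 (.c 18561 (.c 40 .nil))) (.b 32 .nil)))) (.node (.node (.I .jac (.c 2105545 (.c 16 (.c 48 .nil))) (.b 40 (.b 32 .nil))) (.I .jac (.c 2105545 (.c 1337272713 (.c 32 .nil))) .nil)) (.node (.I .jac (.c 2105545 (.c 12929 (.c 48 .nil))) (.b 32 .nil)) (.I .jac (.c 2105545 (.c 43954819 (.c 32 .nil))) .nil))))) (.node (.node (.node (.node (.I .jac (.c 2105545 (.c 16 (.c 48 .nil))) (.b 32 (.b 40 .nil))) (.I .jac (.c 2105545 (.c 43655299 (.c 40 .nil))) .nil)) (.node (.I .jac (.c 2105545 (.c 12929 (.c 32 .nil))) (.b 48 .nil)) (.I .jac (.c 2105545 (.c 16 (.c 40 .nil))) (.b 32 (.b 48 .nil))))) (.node (.node (.I .jac (.c 2105545 (.c 21307523 (.c 48 .nil))) .nil) (.I .jac (.c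 2105545 (.c 16 (.c 43954947 .nil))) .nil)) (.node (.I .jac (.c 2728451 (.c 43655299 (.c 40 .nil))) .nil) (.I .jac (.c 2728451 (.c 16 (.c 40 .nil))) (.b 32 (.b 48 .nil)))))) (.node (.node (.node (.I .jac (.c 2728451 (.c 16 (.c 32 .nil))) (.b 40 (.b 48 .nil))) (.I .jac (.c 2728451 (.c 16 (.c 43954947 .nil))) .nil)) (.node (.I .jac (.c 4609 (.c 2737112329 (.c 40 .nil))) (.b 16 .nil)) (.I .jac (.c 4609 (.c 18497 (.c 32 .nil))) (.b 40 (.b 16 .nil))))) (.node (.node (.I .jac (.c 4609 (.c 43655235 (.c 40 .nil))) (.b 16 .nil)) (.I .jac (.c 4609 (.c 8 (.c 40 .nil))) (.b 32 (.b 48 (.b 16 .nil))))) (.node (.I .jac (.c 4609 (.c 3632062472293833 (.c 16 .nil))) .nil) (.I .jac (.c 4609 (.c 21307459 (.c 48 .nil))) (.b 16 .nil))))))) (.node (.node (.node (.node (.node (.I .jac (.c 4609 (.c 15456298926182537 (.c 16 .nil))) .nil) (.I .jac (.c 4609 (.c 8 (.c 40 .nil))) (.b 48 (.b 16 (.b 32 .nil))))) (.node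 (.I .jac (.c 4609 (.c 14832803796618633 (.c 32 .nil))) .nil) (.I .jac (.c 4609 (.c 43059267 (.c 40 .nil))) (.b 32 .nil)))) (.node (.node (.I .jac (.c 4609 (.c 1324065929 (.c 48 .nil))) (.b 32 .nil)) (.I .jac (.c 4609 (.c 12865 (.c 16 .nil))) (.b 48 (.b 32 .nil)))) (.node (.I .jac (.c 4609 (.c 35718473 (.c 48 .nil))) (.b 32 .nil)) (.I .jac (.c 4609 (.c 20891715 (.c 48 .nil))) (.b 32 .nil))))) (.node (.node (.node (.I .jac (.c 4609 (.c 8 (.c 43954819 .nil))) (.b 32 .nil)) (.I .jac (.c 4609 (.c 8 (.c 48 .nil))) (.b 32 (.b 16 (.b 40 .nil))))) (.node (.I .jac (.c 4609 (.c 15246236343241929 (.c 40 .nil))) .nil) (.I .jac (.c 4609 (.c 43655235 (.c 16 .nil))) (.b 40 .nil)))) (.node (.node (.I .jac (.c 4609 (.c 43059267 (.c 32 .nil))) (.b 40 .nil)) (.I .jac (.c 4609 (.c 545424521 (.c 48 .nil))) (.b 40 .nil))) (.node (.I .jac (.c 4609 (.c 8257 (.c 16 .nil))) (.b 48 (.b 40 .nil))) (.I .jac (.c 4609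 (.c 8 (.c 32 .nil))) (.b 16 (.b 48 (.b 40 .nil)))))))) (.node (.node (.node (.node (.I .jac (.c 4609 (.c 8 (.c 16 .nil))) (.b 32 (.b 48 (.b 40 .nil)))) (.I .jac (.c 4609 (.c 598976858557897 (.c 40 .nil))) .nil)) (.node (.I .jac (.c 4609 (.c 8 (.c 43655299 .nil))) (.b 40 .nil)) (.I .jac (.c 4609 (.c 8 (.c 48 .nil))) (.b 21307523 .nil)))) (.node (.node (.I .jac (.c 4609 (.c 12865 (.c 32 .nil))) (.b 16 (.b 48 .nil))) (.I .jac (.c 4609 (.c 8257 (.c 40 .nil))) (.b 16 (.b 48 .nil)))) (.node (.I .jac (.c 4609 (.c 3632062472293577 (.c 48 .nil))) .nil) (.I .jac (.c 4609 (.c 21307459 (.c 16 .nil))) (.b 48 .nil))))) (.node (.node (.node (.I .jac (.c 4609 (.c 3491710045130057 (.c 48 .nil))) .nil) (.I .jac (.c 4609 (.c 8257 (.c 16 .nil))) (.b 40 (.b 48 .nil)))) (.node (.I .jac (.c 4609 (.c 8 (.c 32 .nil))) (.b 16 (.b 40 (.b 48 .nil)))) (.I .jac (.c 4609 (.c 8 (.c 21307523 .nil))) (.b 48 .nil)))) (.node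 (.node (.I .jac (.c 4609 (.c 8 (.c 32 .nil))) (.b 43954819 .nil)) (.I .jac (.c 4609 (.c 8 (.c 16 .nil))) (.b 43954947 .nil))) (.node (.I .jac (.c 33587273 (.c 24 (.c 48 .nil))) (.b 40 (.b 32 .nil))) (.I .jac (.c 33587273 (.c 24 (.c 40 .nil))) (.b 48 (.b 32 .nil)))))))))

noncomputable def c5_20 : Tr := (.node (.node (.node (.node (.node (.node (.I .jac (.c 33587273 (.c 24 (.c 48 .nil))) (.b 32 (.b 40 .nil))) (.I .jac (.c 33587273 (.c 24 (.c 32 .nil))) (.b 48 (.b 40 .nil)))) (.node (.I .jac (.c 33587273 (.c 21307587 (.c 48 .nil))) .nil) (.I .jac (.c 2105481 (.c 24 (.c 48 .nil))) (.b 40 (.b 32 .nil))))) (.node (.node (.I .jac (.c 2105481 (.c 43954883 (.c 32 .nil))) .nil) (.I .jac (.c 2105481 (.c 43655363 (.c 40 .nil))) .nil)) (.node (.I .jac (.c 2105481 (.c 24 (.c 43954947 .nil))) .nil) (.I .jac (.c 557571 (.c 24 (.c 48 .nil))) (.b 40 (.b 32 .nil)))))) (.node (.node (.node (.I .jac (.c 557571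 (.c 12993 (.c 48 .nil))) (.b 32 .nil)) (.I .jac (.c 557571 (.c 24 (.c 40 .nil))) (.b 48 (.b 32 .nil)))) (.node (.I .jac (.c 557571 (.c 43655363 (.c 40 .nil))) .nil) (.I .jac (.c 557571 (.c 24 (.c 43954947 .nil))) .nil))) (.node (.node (.I .jac (.c 2049 (.c 8257 (.c 48 .nil))) (.b 40 (.b 24 .nil))) (.I .jac (.c 2049 (.c 8 (.c 32 .nil))) (.b 48 (.b 40 (.b 24 .nil))))) (.node (.I .jac (.c 2049 (.c 43655235 (.c 40 .nil))) (.b 24 .nil)) (.I .jac (.c 2049 (.c 8 (.c 40 .nil))) (.b 32 (.b 48 (.b 24 .nil)))))))) (.node (.node (.node (.node (.I .jac (.c 2049 (.c 8257 (.c 40 .nil))) (.b 48 (.b 24 .nil))) (.I .jac (.c 2049 (.c 8 (.c 32 .nil))) (.b 40 (.b 48 (.b 24 .nil))))) (.node (.I .jac (.c 2049 (.c 3632062472293833 (.c 24 .nil))) .nil) (.I .jac (.c 2049 (.c 15456298926182537 (.c 24 .nil))) .nil))) (.node (.node (.I .jac (.c 2049 (.c 43954755 (.c 24 .nil))) (.b 32 .nil)) (.I .jac (.c 2049 (.c 4673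 (.c 48 .nil))) (.b 40 (.b 32 .nil)))) (.node (.I .jac (.c 2049 (.c 8 (.c 24 .nil))) (.b 48 (.b 40 (.b 32 .nil)))) (.I .jac (.c 2049 (.c 43356739 (.c 40 .nil))) (.b 32 .nil))))) (.node (.node (.node (.I .jac (.c 2049 (.c 21099075 (.c 48 .nil))) (.b 32 .nil)) (.I .jac (.c 2049 (.c 8 (.c 48 .nil))) (.b 32 (.b 24 (.b 40 .nil))))) (.node (.I .jac (.c 2049 (.c 8 (.c 48 .nil))) (.b 24 (.b 32 (.b 40 .nil)))) (.I .jac (.c 2049 (.c 4673 (.c 48 .nil))) (.b 32 (.b 40 .nil))))) (.node (.node (.I .jac (.c 2049 (.c 8 (.c 24 .nil))) (.b 48 (.b 32 (.b 40 .nil)))) (.I .jac (.c 2049 (.c 545424585 (.c 48 .nil))) (.b 40 .nil))) (.node (.I .jac (.c 2049 (.c 8257 (.c 24 .nil))) (.b 48 (.b 40 .nil))) (.I .jac (.c 2049 (.c 8 (.c 24 .nil))) (.b 32 (.b 48 (.b 40 .nil))))))))) (.node (.node (.node (.node (.node (.I .jac (.c 2049 (.c 617620517416393 (.c 40 .nil))) .nil) (.I .jac (.c 2049 (.c 8 (.c 43655363 .nil))) (.b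 40 .nil))) (.node (.I .jac (.c 2049 (.c 8 (.c 48 .nil))) (.b 21307587 .nil)) (.I .jac (.c 2049 (.c 8257 (.c 40 .nil))) (.b 24 (.b 48 .nil))))) (.node (.node (.I .jac (.c 2049 (.c 8 (.c 32 .nil))) (.b 40 (.b 24 (.b 48 .nil)))) (.I .jac (.c 2049 (.c 21307459 (.c 24 .nil))) (.b 48 .nil))) (.node (.I .jac (.c 2049 (.c 8 (.c 40 .nil))) (.b 24 (.b 32 (.b 48 .nil)))) (.I .jac (.c 2049 (.c 174695753 (.c 32 .nil))) (.b 48 .nil))))) (.node (.node (.node (.I .jac (.c 2049 (.c 4673 (.c 40 .nil))) (.b 32 (.b 48 .nil))) (.I .jac (.c 2049 (.c 8 (.c 24 .nil))) (.b 40 (.b 32 (.b 48 .nil))))) (.node (.I .jac (.c 2049 (.c 3561367726845257 (.c 48 .nil))) .nil) (.I .jac (.c 2049 (.c 8257 (.c 24 .nil))) (.b 40 (.b 48 .nil))))) (.node (.node (.I .jac (.c 2049 (.c 8 (.c 32 .nil))) (.b 24 (.b 40 (.b 48 .nil)))) (.I .jac (.c 2049 (.c 3632106110100617 (.c 48 .nil))) .nil)) (.node (.I .jac (.c 2049 (.c 8 (.c 40 .nil)))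 (.b 43655363 .nil)) (.I .jac (.c 2049 (.c 8257 (.c 43954883 .nil))) .nil))))) (.node (.node (.node (.node (.I .jac (.c 2049 (.c 8 (.c 32 .nil))) (.b 43954883 .nil)) (.I .jac (.c 2049 (.c 8 (.c 24 .nil))) (.b 43954947 .nil))) (.node (.I .jac (.c 513 (.c 43954819 (.c 32 .nil))) (.b 24 .nil)) (.I .jac (.c 513 (.c 43655299 (.c 40 .nil))) (.b 24 .nil)))) (.node (.node (.I .jac (.c 513 (.c 16 (.c 40 .nil))) (.b 32 (.b 48 (.b 24 .nil)))) (.I .jac (.c 513 (.c 43954819 (.c 24 .nil))) (.b 32 .nil))) (.node (.I .jac (.c 513 (.c 21099139 (.c 48 .nil))) (.b 32 .nil)) (.I .jac (.c 513 (.c 16 (.c 43954883 .nil))) (.b 32 .nil))))) (.node (.node (.node (.I .jac (.c 513 (.c 16 (.c 48 .nil))) (.b 32 (.b 24 (.b 40 .nil)))) (.I .jac (.c 513 (.c 16 (.c 48 .nil))) (.b 24 (.b 32 (.b 40 .nil))))) (.node (.I .jac (.c 513 (.c 43356803 (.c 32 .nil))) (.b 40 .nil)) (.I .jac (.c 513 (.c 16 (.c 32 .nil))) (.b 24 (.b 48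 (.b 40 .nil)))))) (.node (.node (.I .jac (.c 513 (.c 16 (.c 24 .nil))) (.b 32 (.b 48 (.b 40 .nil)))) (.I .jac (.c 513 (.c 8786563 (.c 48 .nil))) (.b 40 .nil))) (.node (.I .jac (.c 513 (.c 16 (.c 43655363 .nil))) (.b 40 .nil)) (.I .jac (.c 513 (.c 21307523 (.c 24 .nil))) (.b 48 .nil))))))))

noncomputable def c5_21 : Tr := (.node (.node (.node (.node (.node (.node (.I .jac (.c 513 (.c 16 (.c 40 .nil))) (.b 24 (.b 32 (.b 48 .nil)))) (.I .jac (.c 513 (.c 16 (.c 40 .nil))) (.b 43655363 .nil))) (.node (.I .jac (.c 513 (.c 16 (.c 24 .nil))) (.b 43954947 .nil)) (.I .jac (.c 0 (.c 43954755 (.c 32 .nil))) (.b 24 (.b 16 .nil))))) (.node (.node (.I .jac (.c 0 (.c 43655235 (.c 40 .nil))) (.b 24 (.b 16 .nil))) (.I .jac (.c 0 (.c 21307459 (.c 48 .nil))) (.b 24 (.b 16 .nil)))) (.node (.I .jac (.c 0 (.c 8 (.c 43954947 .nil))) (.b 24 (.b 16 .nil))) (.I .jac (.c 0 (.c 21099075 (.c 48 .nil))) (.b 32 (.b 16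 .nil)))))) (.node (.node (.node (.I .jac (.c 0 (.c 8 (.c 43954883 .nil))) (.b 32 (.b 16 .nil))) (.I .jac (.c 0 (.c 43655235 (.c 24 .nil))) (.b 40 (.b 16 .nil)))) (.node (.I .jac (.c 0 (.c 8786499 (.c 48 .nil))) (.b 40 (.b 16 .nil))) (.I .jac (.c 0 (.c 29861625300903855411901044346187 (.c 16 .nil))) .nil))) (.node (.node (.I .jac (.c 0 (.c 29055965329249606391974117761995 (.c 16 .nil))) .nil) (.I .jac (.c 0 (.c 28269389345320218300422223471627 (.c 16 .nil))) .nil)) (.node (.I .jac (.c 0 (.c 47681887941711471725338787531 (.c 16 .nil))) .nil) (.I .jac (.c 0 (.c 29861973140834692636938164206795 (.c 16 .nil))) .nil))))) (.node (.node (.node (.node (.I .jac (.c 0 (.c 29056306106699955384125721219915 (.c 16 .nil))) .nil) (.I .jac (.c 0 (.c 1649024349379069078081013509579 (.c 16 .nil))) .nil)) (.node (.I .jac (.c 0 (.c 15246236343242121 (.c 16 .nil))) (.b 24 .nil)) (.I .jac (.c 0 (.c 21307459 (.c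 48 .nil))) (.b 16 (.b 24 .nil))))) (.node (.node (.I .jac (.c 0 (.c 15456298926182537 (.c 16 .nil))) (.b 24 .nil)) (.I .jac (.c 0 (.c 8 (.c 43954947 .nil))) (.b 16 (.b 24 .nil)))) (.node (.I .jac (.c 0 (.c 14832803796618633 (.c 32 .nil))) (.b 24 .nil)) (.I .jac (.c 0 (.c 43059267 (.c 40 .nil))) (.b 32 (.b 24 .nil)))))) (.node (.node (.node (.I .jac (.c 0 (.c 20891715 (.c 48 .nil))) (.b 32 (.b 24 .nil))) (.I .jac (.c 0 (.c 15456208906582153 (.c 32 .nil))) (.b 24 .nil))) (.node (.I .jac (.c 0 (.c 43655235 (.c 16 .nil))) (.b 40 (.b 24 .nil))) (.I .jac (.c 0 (.c 43059267 (.c 32 .nil))) (.b 40 (.b 24 .nil))))) (.node (.node (.I .jac (.c 0 (.c 598976858557833 (.c 48 .nil))) (.b 24 .nil)) (.I .jac (.c 0 (.c 8652867 (.c 40 .nil))) (.b 48 (.b 24 .nil)))) (.node (.I .jac (.c 0 (.c 3632084291164297 (.c 48 .nil))) (.b 24 .nil)) (.I .jac (.c 0 (.c 8 (.c 21307523 .nil))) (.b 48 (.b 24 .nil)))))))) (.node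 (.node (.node (.node (.node (.I .jac (.c 0 (.c 29861625300903855411901044346123 (.c 24 .nil))) .nil) (.I .jac (.c 0 (.c 29055965329249606391974117761931 (.c 24 .nil))) .nil)) (.node (.I .jac (.c 0 (.c 1524004879907878948251688484491 (.c 24 .nil))) .nil) (.I .jac (.c 0 (.c 44846659635985718831597993675 (.c 24 .nil))) .nil))) (.node (.node (.I .jac (.c 0 (.c 29861799220489422234331306566859 (.c 24 .nil))) .nil) (.I .jac (.c 0 (.c 29056135717600088285057506179915 (.c 24 .nil))) .nil)) (.node (.I .jac (.c 0 (.c 1649004537265596382040201303499 (.c 24 .nil))) .nil) (.I .jac (.c 0 (.c 29862147061939174230476067845067 (.c 24 .nil))) .nil)))) (.node (.node (.node (.I .jac (.c 0 (.c 43356739 (.c 40 .nil))) (.b 16 (.b 32 .nil))) (.I .jac (.c 0 (.c 21099075 (.c 48 .nil))) (.b 16 (.b 32 .nil)))) (.node (.I .jac (.c 0 (.c 43954755 (.c 16 .nil))) (.b 24 (.b 32 .nil))) (.I .jac (.c 0 (.c 20891715 (.c 48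 .nil))) (.b 24 (.b 32 .nil))))) (.node (.node (.I .jac (.c 0 (.c 43059267 (.c 24 .nil))) (.b 40 (.b 32 .nil))) (.I .jac (.c 0 (.c 2803779 (.c 48 .nil))) (.b 40 (.b 32 .nil)))) (.node (.I .jac (.c 0 (.c 8 (.c 24 .nil))) (.b 43954819 (.b 32 .nil))) (.I .jac (.c 0 (.c 1524004879907878948251688484427 (.c 32 .nil))) .nil))))) (.node (.node (.node (.node (.I .jac (.c 0 (.c 494384790465223956302642891 (.c 32 .nil))) .nil) (.I .jac (.c 0 (.c 29861799220489174934988801249867 (.c 32 .nil))) .nil)) (.node (.I .jac (.c 0 (.c 43954755 (.c 8786563 .nil))) .nil) (.I .jac (.c 0 (.c 43655235 (.c 24 .nil))) (.b 16 (.b 40 .nil))))) (.node (.node (.I .jac (.c 0 (.c 8 (.c 43655363 .nil))) (.b 16 (.b 40 .nil))) (.I .jac (.c 0 (.c 43059267 (.c 32 .nil))) (.b 24 (.b 40 .nil)))) (.node (.I .jac (.c 0 (.c 8 (.c 43655299 .nil))) (.b 24 (.b 40 .nil))) (.I .jac (.c 0 (.c 43059267 (.c 24 .nil))) (.b 32 (.b 40 .nil))))))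 (.node (.node (.node (.I .jac (.c 0 (.c 8 (.c 43356803 .nil))) (.b 32 (.b 40 .nil))) (.I .jac (.c 0 (.c 8 (.c 48 .nil))) (.b 8786563 (.b 40 .nil)))) (.node (.I .jac (.c 0 (.c 28269389345319977685149684059403 (.c 40 .nil))) .nil) (.I .jac (.c 0 (.c 47681887941711471725338787339 (.c 40 .nil))) .nil))) (.node (.node (.I .jac (.c 0 (.c 29056135717599600404064026645067 (.c 40 .nil))) .nil) (.I .jac (.c 0 (.c 29056306106699223560489755089867 (.c 40 .nil))) .nil)) (.node (.I .jac (.c 0 (.c 43655235 (.c 21099139 .nil))) .nil) (.I .jac (.c 0 (.c 43356739 (.c 21307523 .nil))) .nil)))))))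

noncomputable def c5_22 : Tr := (.node (.node (.node (.node (.node (.node (.I .jac (.c 0 (.c 3632062472293641 (.c 16 .nil))) (.b 48 .nil)) (.I .jac (.c 0 (.c 21307459 (.c 24 .nil))) (.b 16 (.b 48 .nil)))) (.node (.I .jac (.c 0 (.c 3632106110100617 (.c 16 .nil))) (.b 48 .nil)) (.I .jac (.c 0 (.c 8 (.c 21307587 .nil))) (.b 16 (.b 48 .nil))))) (.node (.node (.I .jac (.c 0 (.c 3491710045129993 (.c 32 .nil))) (.b 48 .nil)) (.I .jac (.c 0 (.c 20891715 (.c 24 .nil))) (.b 32 (.b 48 .nil)))) (.node (.I .jac (.c 0 (.c 3561389332330633 (.c 32 .nil))) (.b 48 .nil)) (.I .jac (.c 0 (.c 8 (.c 21099139 .nil))) (.b 32 (.b 48 .nil)))))) (.node (.node (.node (.I .jac (.c 0 (.c 598976858557705 (.c 40 .nil))) (.b 48 .nil)) (.I .jac (.c 0 (.c 8652867 (.c 24 .nil))) (.b 40 (.b 48 .nil)))) (.node (.I .jac (.c 0 (.c 617629514823817 (.c 40 .nil))) (.b 48 .nil)) (.I .jac (.c 0 (.c 8 (.c 8786563 .nil))) (.b 40 (.b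 48 .nil))))) (.node (.node (.I .jac (.c 0 (.c 47681887941701589797060125579 (.c 48 .nil))) .nil) (.I .jac (.c 0 (.c 1585436747054974044106072564939 (.c 48 .nil))) .nil)) (.node (.I .jac (.c 0 (.c 8786499 (.c 43954819 .nil))) .nil) (.I .jac (.c 0 (.c 8652867 (.c 43954883 .nil))) .nil))))) (.node (.node (.node (.node (.I .jac (.c 0 (.c 2803779 (.c 43954947 .nil))) .nil) (.I .jac (.c 0 (.c 8 (.c 47683277197737203872376018635 .nil))) .nil)) (.node (.I .jac (.c 0 (.c 8 (.c 29861973140834692636938164206859 .nil))) .nil) (.I .jac (.c 0 (.c 8 (.c 1649024349379069078081013509643 .nil))) .nil))) (.node (.node (.I .jac (.c 0 (.c 8 (.c 29862147061939421531258886767243 .nil))) .nil) (.I .tdb (.c 40 (.c 18433 (.c 8 (.c 16 .nil)))) (.b 32 (.b 24 .nil)))) (.node (.I .tdb (.c 0 (.c 48 (.c 8 (.c 16 .nil)))) (.b 40 (.b 32 (.b 24 .nil)))) (.I .tdb (.c 32 (.c 1310925193 (.c 8 (.c 16 .nil)))) (.b 24 .nil)))))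 (.node (.node (.node (.I .tdb (.c 48 (.c 12801 (.c 8 (.c 16 .nil)))) (.b 32 (.b 24 .nil))) (.I .tdb (.c 0 (.c 40 (.c 8 (.c 16 .nil)))) (.b 48 (.b 32 (.b 24 .nil))))) (.node (.I .tdb (.c 48 (.c 1310925065 (.c 8 (.c 16 .nil)))) (.b 24 .nil)) (.I .tdb (.c 48 (.c 21307395 (.c 8 (.c 16 .nil)))) (.b 24 .nil)))) (.node (.node (.I .tdb (.c 24 (.c 15456298926182473 (.c 8 (.c 16 .nil)))) .nil) (.I .tdb (.c 0 (.c 43954947 (.c 8 (.c 16 .nil)))) (.b 24 .nil))) (.node (.I .tdb (.c 40 (.c 18433 (.c 8 (.c 16 .nil)))) (.b 24 (.b 32 .nil))) (.I .tdb (.c 0 (.c 48 (.c 8 (.c 16 .nil)))) (.b 40 (.b 24 (.b 32 .nil))))))))) (.node (.node (.node (.node (.node (.I .tdb (.c 32 (.c 15456118887244041 (.c 8 (.c 16 .nil)))) .nil) (.I .tdb (.c 40 (.c 2718204105 (.c 8 (.c 16 .nil)))) (.b 32 .nil))) (.node (.I .tdb (.c 24 (.c 18433 (.c 8 (.c 16 .nil)))) (.b 40 (.b 32 .nil))) (.I .tdb (.c 0 (.c 48 (.c 8 (.c 16 .nil)))) (.b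 24 (.b 40 (.b 32 .nil)))))) (.node (.node (.I .tdb (.c 24 (.c 12801 (.c 8 (.c 16 .nil)))) (.b 48 (.b 32 .nil))) (.I .tdb (.c 0 (.c 40 (.c 8 (.c 16 .nil)))) (.b 24 (.b 48 (.b 32 .nil))))) (.node (.I .tdb (.c 4609 (.c 40 (.c 8 (.c 16 .nil)))) (.b 48 (.b 32 .nil))) (.I .tdb (.c 0 (.c 24 (.c 8 (.c 16 .nil)))) (.b 40 (.b 48 (.b 32 .nil))))))) (.node (.node (.node (.I .tdb (.c 32 (.c 3561346121425353 (.c 8 (.c 16 .nil)))) .nil) (.I .tdb (.c 24 (.c 537002377 (.c 8 (.c 16 .nil)))) (.b 40 .nil))) (.node (.I .tdb (.c 48 (.c 8193 (.c 8 (.c 16 .nil)))) (.b 24 (.b 40 .nil))) (.I .tdb (.c 0 (.c 32 (.c 8 (.c 16 .nil)))) (.b 48 (.b 24 (.b 40 .nil)))))) (.node (.node (.I .tdb (.c 32 (.c 169943433 (.c 8 (.c 16 .nil)))) (.b 40 .nil)) (.I .tdb (.c 4609 (.c 48 (.c 8 (.c 16 .nil)))) (.b 32 (.b 40 .nil)))) (.node (.I .tdb (.c 0 (.c 24 (.c 8 (.c 16 .nil)))) (.b 48 (.b 32 (.b 40 .nil)))) (.I .tdb (.c 40 (.c 15038410136445257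 (.c 8 (.c 16 .nil)))) .nil))))) (.node (.node (.node (.node (.I .tdb (.c 48 (.c 537002185 (.c 8 (.c 16 .nil)))) (.b 40 .nil)) (.I .tdb (.c 24 (.c 8193 (.c 8 (.c 16 .nil)))) (.b 48 (.b 40 .nil)))) (.node (.I .tdb (.c 0 (.c 32 (.c 8 (.c 16 .nil)))) (.b 24 (.b 48 (.b 40 .nil)))) (.I .tdb (.c 169943305 (.c 48 (.c 8 (.c 16 .nil)))) (.b 40 .nil)))) (.node (.node (.I .tdb (.c 4609 (.c 32 (.c 8 (.c 16 .nil)))) (.b 48 (.b 40 .nil))) (.I .tdb (.c 0 (.c 24 (.c 8 (.c 16 .nil)))) (.b 32 (.b 48 (.b 40 .nil))))) (.node (.I .tdb (.c 8786435 (.c 48 (.c 8 (.c 16 .nil)))) (.b 40 .nil)) (.I .tdb (.c 40 (.c 15246325749294153 (.c 8 (.c 16 .nil)))) .nil)))) (.node (.node (.node (.I .tdb (.c 0 (.c 43655363 (.c 8 (.c 16 .nil)))) (.b 40 .nil)) (.I .tdb (.c 21307587 (.c 18433 (.c 8 (.c 16 .nil)))) .nil)) (.node (.I .tdb (.c 0 (.c 48 (.c 8 (.c 16 .nil)))) (.b 21307587 .nil)) (.I .tdb (.c 24 (.c 537002313 (.c 8 (.c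 16 .nil)))) (.b 48 .nil)))) (.node (.node (.I .tdb (.c 40 (.c 8193 (.c 8 (.c 16 .nil)))) (.b 24 (.b 48 .nil))) (.I .tdb (.c 0 (.c 32 (.c 8 (.c 16 .nil)))) (.b 40 (.b 24 (.b 48 .nil))))) (.node (.I .tdb (.c 48 (.c 3632040653488393 (.c 8 (.c 16 .nil)))) .nil) (.I .tdb (.c 24 (.c 12801 (.c 8 (.c 16 .nil)))) (.b 32 (.b 48 .nil)))))))))

noncomputable def c5_23 : Tr := (.node (.node (.node (.node (.node (.node (.I .tdb (.c 0 (.c 40 (.c 8 (.c 16 .nil)))) (.b 24 (.b 32 (.b 48 .nil)))) (.I .tdb (.c 4609 (.c 40 (.c 8 (.c 16 .nil)))) (.b 32 (.b 48 .nil)))) (.node (.I .tdb (.c 0 (.c 24 (.c 8 (.c 16 .nil)))) (.b 40 (.b 32 (.b 48 .nil)))) (.I .tdb (.c 169943305 (.c 40 (.c 8 (.c 16 .nil)))) (.b 48 .nil)))) (.node (.node (.I .tdb (.c 48 (.c 617611520074121 (.c 8 (.c 16 .nil)))) .nil) (.I .tdb (.c 48 (.c 3632106110100553 (.c 8 (.c 16 .nil)))) .nil)) (.node (.I .tdb (.c 0 (.c 21307587 (.c 8 (.c 16 .nil))))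 (.b 48 .nil)) (.I .tdb (.c 12801 (.c 43655363 (.c 8 (.c 16 .nil)))) .nil)))) (.node (.node (.node (.I .tdb (.c 0 (.c 40 (.c 8 (.c 16 .nil)))) (.b 43655363 .nil)) (.I .tdb (.c 8193 (.c 43954883 (.c 8 (.c 16 .nil)))) .nil)) (.node (.I .tdb (.c 0 (.c 32 (.c 8 (.c 16 .nil)))) (.b 43954883 .nil)) (.I .tdb (.c 32 (.c 2718204233 (.c 8 (.c 24 .nil)))) (.b 16 .nil)))) (.node (.node (.I .tdb (.c 40 (.c 18433 (.c 8 (.c 24 .nil)))) (.b 32 (.b 16 .nil))) (.I .tdb (.c 0 (.c 48 (.c 8 (.c 24 .nil)))) (.b 40 (.b 32 (.b 16 .nil))))) (.node (.I .tdb (.c 32 (.c 18433 (.c 8 (.c 24 .nil)))) (.b 40 (.b 16 .nil))) (.I .tdb (.c 0 (.c 48 (.c 8 (.c 24 .nil)))) (.b 32 (.b 40 (.b 16 .nil)))))))) (.node (.node (.node (.node (.I .tdb (.c 48 (.c 8193 (.c 8 (.c 24 .nil)))) (.b 40 (.b 16 .nil))) (.I .tdb (.c 0 (.c 32 (.c 8 (.c 24 .nil)))) (.b 48 (.b 40 (.b 16 .nil))))) (.node (.I .tdb (.c 40 (.c 8193 (.c 8 (.c 24 .nil))))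 (.b 48 (.b 16 .nil))) (.I .tdb (.c 0 (.c 32 (.c 8 (.c 24 .nil)))) (.b 40 (.b 48 (.b 16 .nil)))))) (.node (.node (.I .tdb (.c 16 (.c 3632040653488585 (.c 8 (.c 24 .nil)))) .nil) (.I .tdb (.c 40 (.c 18433 (.c 8 (.c 24 .nil)))) (.b 16 (.b 32 .nil)))) (.node (.I .tdb (.c 0 (.c 48 (.c 8 (.c 24 .nil)))) (.b 40 (.b 16 (.b 32 .nil)))) (.I .tdb (.c 16 (.c 1310925193 (.c 8 (.c 24 .nil)))) (.b 32 .nil))))) (.node (.node (.node (.I .tdb (.c 40 (.c 2718204041 (.c 8 (.c 24 .nil)))) (.b 32 .nil)) (.I .tdb (.c 16 (.c 18433 (.c 8 (.c 24 .nil)))) (.b 40 (.b 32 .nil)))) (.node (.I .tdb (.c 0 (.c 48 (.c 8 (.c 24 .nil)))) (.b 16 (.b 40 (.b 32 .nil)))) (.I .tdb (.c 40 (.c 33587593 (.c 8 (.c 24 .nil)))) (.b 32 .nil)))) (.node (.node (.I .tdb (.c 32 (.c 14832759703961993 (.c 8 (.c 24 .nil)))) .nil) (.I .tdb (.c 48 (.c 1310924937 (.c 8 (.c 24 .nil)))) (.b 32 .nil))) (.node (.I .tdb (.c 2049 (.c 40 (.c 8 (.c 24 .nil))))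 (.b 48 (.b 32 .nil))) (.I .tdb (.c 0 (.c 16 (.c 8 (.c 24 .nil)))) (.b 40 (.b 48 (.b 32 .nil))))))))) (.node (.node (.node (.node (.node (.I .tdb (.c 32 (.c 3491688652046793 (.c 8 (.c 24 .nil)))) .nil) (.I .tdb (.c 32 (.c 18433 (.c 8 (.c 24 .nil)))) (.b 16 (.b 40 .nil)))) (.node (.I .tdb (.c 0 (.c 48 (.c 8 (.c 24 .nil)))) (.b 32 (.b 16 (.b 40 .nil)))) (.I .tdb (.c 16 (.c 537002377 (.c 8 (.c 24 .nil)))) (.b 40 .nil)))) (.node (.node (.I .tdb (.c 48 (.c 8193 (.c 8 (.c 24 .nil)))) (.b 16 (.b 40 .nil))) (.I .tdb (.c 0 (.c 32 (.c 8 (.c 24 .nil)))) (.b 48 (.b 16 (.b 40 .nil))))) (.node (.I .tdb (.c 32 (.c 2718204041 (.c 8 (.c 24 .nil)))) (.b 40 .nil)) (.I .tdb (.c 16 (.c 18433 (.c 8 (.c 24 .nil)))) (.b 32 (.b 40 .nil)))))) (.node (.node (.node (.I .tdb (.c 0 (.c 48 (.c 8 (.c 24 .nil)))) (.b 16 (.b 32 (.b 40 .nil)))) (.I .tdb (.c 32 (.c 33587593 (.c 8 (.c 24 .nil)))) (.b 40 .nil))) (.node (.I .tdb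 (.c 2049 (.c 48 (.c 8 (.c 24 .nil)))) (.b 32 (.b 40 .nil))) (.I .tdb (.c 0 (.c 16 (.c 8 (.c 24 .nil)))) (.b 48 (.b 32 (.b 40 .nil)))))) (.node (.node (.I .tdb (.c 40 (.c 14832759703961929 (.c 8 (.c 24 .nil)))) .nil) (.I .tdb (.c 48 (.c 537002121 (.c 8 (.c 24 .nil)))) (.b 40 .nil))) (.node (.I .tdb (.c 16 (.c 8193 (.c 8 (.c 24 .nil)))) (.b 48 (.b 40 .nil))) (.I .tdb (.c 0 (.c 32 (.c 8 (.c 24 .nil)))) (.b 16 (.b 48 (.b 40 .nil)))))))) (.node (.node (.node (.node (.I .tdb (.c 33587465 (.c 48 (.c 8 (.c 24 .nil)))) (.b 40 .nil)) (.I .tdb (.c 2049 (.c 32 (.c 8 (.c 24 .nil)))) (.b 48 (.b 40 .nil)))) (.node (.I .tdb (.c 0 (.c 16 (.c 8 (.c 24 .nil)))) (.b 32 (.b 48 (.b 40 .nil)))) (.I .tdb (.c 40 (.c 15246281046235209 (.c 8 (.c 24 .nil)))) .nil))) (.node (.node (.I .tdb (.c 0 (.c 48 (.c 8 (.c 24 .nil)))) (.b 21307523 .nil)) (.I .tdb (.c 16 (.c 537002313 (.c 8 (.c 24 .nil)))) (.b 48 .nil))) (.node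 (.I .tdb (.c 40 (.c 8193 (.c 8 (.c 24 .nil)))) (.b 16 (.b 48 .nil))) (.I .tdb (.c 0 (.c 32 (.c 8 (.c 24 .nil)))) (.b 40 (.b 16 (.b 48 .nil))))))) (.node (.node (.node (.I .tdb (.c 16 (.c 12801 (.c 8 (.c 24 .nil)))) (.b 32 (.b 48 .nil))) (.I .tdb (.c 0 (.c 40 (.c 8 (.c 24 .nil)))) (.b 16 (.b 32 (.b 48 .nil))))) (.node (.I .tdb (.c 32 (.c 33587529 (.c 8 (.c 24 .nil)))) (.b 48 .nil)) (.I .tdb (.c 48 (.c 3491688652046665 (.c 8 (.c 24 .nil)))) .nil))) (.node (.node (.I .tdb (.c 32 (.c 20891651 (.c 8 (.c 24 .nil)))) (.b 48 .nil)) (.I .tdb (.c 48 (.c 3632084291164233 (.c 8 (.c 24 .nil)))) .nil)) (.node (.I .tdb (.c 0 (.c 21307523 (.c 8 (.c 24 .nil)))) (.b 48 .nil)) (.I .tdb (.c 2049 (.c 43954947 (.c 8 (.c 24 .nil)))) .nil)))))))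

noncomputable def c5_24 : Tr := (.node (.node (.node (.node (.node (.node (.I .tdb (.c 0 (.c 16 (.c 8 (.c 24 .nil)))) (.b 43954947 .nil)) (.I .tdb (.c 32 (.c 1310925193 (.c 16 (.c 24 .nil)))) (.b 8 .nil))) (.node (.I .tdb (.c 48 (.c 12801 (.c 16 (.c 24 .nil)))) (.b 32 (.b 8 .nil))) (.I .tdb (.c 0 (.c 40 (.c 16 (.c 24 .nil)))) (.b 48 (.b 32 (.b 8 .nil)))))) (.node (.node (.I .tdb (.c 8 (.c 15456118887244105 (.c 16 (.c 24 .nil)))) .nil) (.I .tdb (.c 32 (.c 18433 (.c 16 (.c 24 .nil)))) (.b 40 (.b 8 .nil)))) (.node (.I .tdb (.c 0 (.c 48 (.c 16 (.c 24 .nil)))) (.b 32 (.b 40 (.b 8 .nil)))) (.I .tdb (.c 40 (.c 537002377 (.c 16 (.c 24 .nil)))) (.b 8 .nil))))) (.node (.node (.node (.I .tdb (.c 48 (.c 1310925065 (.c 16 (.c 24 .nil)))) (.b 8 .nil)) (.I .tdb (.c 48 (.c 537002313 (.c 16 (.c 24 .nil)))) (.b 8 .nil))) (.node (.I .tdb (.c 0 (.c 43954947 (.c 16 (.c 24 .nil)))) (.b 8 .nil)) (.I .tdb (.c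 8 (.c 1310925193 (.c 16 (.c 24 .nil)))) (.b 32 .nil)))) (.node (.node (.I .tdb (.c 48 (.c 12801 (.c 16 (.c 24 .nil)))) (.b 8 (.b 32 .nil))) (.I .tdb (.c 0 (.c 40 (.c 16 (.c 24 .nil)))) (.b 48 (.b 8 (.b 32 .nil))))) (.node (.I .tdb (.c 8 (.c 43954691 (.c 16 (.c 24 .nil)))) (.b 32 .nil)) (.I .tdb (.c 40 (.c 2718203977 (.c 16 (.c 24 .nil)))) (.b 32 .nil)))))) (.node (.node (.node (.node (.I .tdb (.c 8 (.c 18433 (.c 16 (.c 24 .nil)))) (.b 40 (.b 32 .nil))) (.I .tdb (.c 0 (.c 48 (.c 16 (.c 24 .nil)))) (.b 8 (.b 40 (.b 32 .nil))))) (.node (.I .tdb (.c 40 (.c 2105737 (.c 16 (.c 24 .nil)))) (.b 32 .nil)) (.I .tdb (.c 40 (.c 42762755 (.c 16 (.c 24 .nil)))) (.b 32 .nil)))) (.node (.node (.I .tdb (.c 48 (.c 1310924873 (.c 16 (.c 24 .nil)))) (.b 32 .nil)) (.I .tdb (.c 48 (.c 2105673 (.c 16 (.c 24 .nil)))) (.b 32 .nil))) (.node (.I .tdb (.c 48 (.c 20685315 (.c 16 (.c 24 .nil)))) (.b 32 .nil)) (.I .tdb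 (.c 32 (.c 15456163896880201 (.c 16 (.c 24 .nil)))) .nil)))) (.node (.node (.node (.I .tdb (.c 8 (.c 537002377 (.c 16 (.c 24 .nil)))) (.b 40 .nil)) (.I .tdb (.c 48 (.c 8193 (.c 16 (.c 24 .nil)))) (.b 8 (.b 40 .nil)))) (.node (.I .tdb (.c 0 (.c 32 (.c 16 (.c 24 .nil)))) (.b 48 (.b 8 (.b 40 .nil)))) (.I .tdb (.c 8 (.c 43655171 (.c 16 (.c 24 .nil)))) (.b 40 .nil)))) (.node (.node (.I .tdb (.c 32 (.c 2718203977 (.c 16 (.c 24 .nil)))) (.b 40 .nil)) (.I .tdb (.c 8 (.c 18433 (.c 16 (.c 24 .nil)))) (.b 32 (.b 40 .nil)))) (.node (.I .tdb (.c 0 (.c 48 (.c 16 (.c 24 .nil)))) (.b 8 (.b 32 (.b 40 .nil)))) (.I .tdb (.c 32 (.c 2105737 (.c 16 (.c 24 .nil)))) (.b 40 .nil))))))) (.node (.node (.node (.node (.node (.I .tdb (.c 40 (.c 14629225721520457 (.c 16 (.c 24 .nil)))) .nil) (.I .tdb (.c 32 (.c 42762755 (.c 16 (.c 24 .nil)))) (.b 40 .nil))) (.node (.I .tdb (.c 2105609 (.c 48 (.c 16 (.c 24 .nil)))) (.b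 40 .nil)) (.I .tdb (.c 8520195 (.c 48 (.c 16 (.c 24 .nil)))) (.b 40 .nil)))) (.node (.node (.I .tdb (.c 0 (.c 43655235 (.c 16 (.c 24 .nil)))) (.b 40 .nil)) (.I .tdb (.c 32 (.c 12801 (.c 16 (.c 24 .nil)))) (.b 8 (.b 48 .nil)))) (.node (.I .tdb (.c 0 (.c 40 (.c 16 (.c 24 .nil)))) (.b 32 (.b 8 (.b 48 .nil)))) (.I .tdb (.c 8 (.c 537002313 (.c 16 (.c 24 .nil)))) (.b 48 .nil))))) (.node (.node (.node (.I .tdb (.c 8 (.c 21307395 (.c 16 (.c 24 .nil)))) (.b 48 .nil)) (.I .tdb (.c 8 (.c 12801 (.c 16 (.c 24 .nil)))) (.b 32 (.b 48 .nil)))) (.node (.I .tdb (.c 0 (.c 40 (.c 16 (.c 24 .nil)))) (.b 8 (.b 32 (.b 48 .nil)))) (.I .tdb (.c 48 (.c 3423058053194057 (.c 16 (.c 24 .nil)))) .nil))) (.node (.node (.I .tdb (.c 8520195 (.c 40 (.c 16 (.c 24 .nil)))) (.b 48 .nil)) (.I .tdb (.c 48 (.c 3632062472293449 (.c 16 (.c 24 .nil)))) .nil)) (.node (.I .tdb (.c 12801 (.c 43655235 (.c 16 (.c 24 .nil)))) .nil) (.I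 .tdb (.c 0 (.c 40 (.c 16 (.c 24 .nil)))) (.b 43655235 .nil)))))) (.node (.node (.node (.node (.I .tdb (.c 8 (.c 24 (.c 59109074018392946569 (.c 16 .nil)))) .nil) (.I .tdb (.c 8 (.c 24 (.c 13748198893136698249 (.c 16 .nil)))) .nil)) (.node (.I .tdb (.c 8 (.c 24 (.c 2306972423229201353 (.c 16 .nil)))) .nil) (.I .tdb (.c 8 (.c 24 (.c 3632040653488585 (.c 16 .nil)))) .nil))) (.node (.node (.I .tdb (.c 8 (.c 24 (.c 15456298926182473 (.c 16 .nil)))) .nil) (.I .tdb (.c 8 (.c 16 (.c 59109074018392946569 (.c 24 .nil)))) .nil)) (.node (.I .tdb (.c 8 (.c 16 (.c 15456118887244105 (.c 24 .nil)))) .nil) (.I .tdb (.c 8 (.c 16 (.c 2306972423229201353 (.c 24 .nil)))) .nil)))) (.node (.node (.node (.I .tdb (.c 8 (.c 16 (.c 15246191640314249 (.c 24 .nil)))) .nil) (.I .tdb (.c 8 (.c 16 (.c 3632040653488585 (.c 24 .nil)))) .nil)) (.node (.I .tdb (.c 8 (.c 16 (.c 15456298926182473 (.c 24 .nil)))) .nil) (.I .tdb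 (.c 16 (.c 24 (.c 59109074018392946569 (.c 8 .nil)))) .nil))) (.node (.node (.I .tdb (.c 16 (.c 24 (.c 13748198893136698249 (.c 8 .nil)))) .nil) (.I .tdb (.c 16 (.c 24 (.c 2306972423229201353 (.c 8 .nil)))) .nil)) (.node (.I .tdb (.c 16 (.c 24 (.c 3632040653488585 (.c 8 .nil)))) .nil) (.I .tdb (.c 24 (.c 2718204233 (.c 8 (.c 32 .nil)))) (.b 16 .nil))))))))

noncomputable def c5_25 : Tr := (.node (.node (.node (.node (.node (.node (.I .tdb (.c 40 (.c 18433 (.c 8 (.c 32 .nil)))) (.b 24 (.b 16 .nil))) (.I .tdb (.c 0 (.c 48 (.c 8 (.c 32 .nil)))) (.b 40 (.b 24 (.b 16 .nil))))) (.node (.I .tdb (.c 48 (.c 12801 (.c 8 (.c 32 .nil)))) (.b 24 (.b 16 .nil))) (.I .tdb (.c 0 (.c 40 (.c 8 (.c 32 .nil)))) (.b 48 (.b 24 (.b 16 .nil)))))) (.node (.node (.I .tdb (.c 16 (.c 15456118887244041 (.c 8 (.c 32 .nil)))) .nil) (.I .tdb (.c 40 (.c 2718204105 (.c 8 (.c 32 .nil)))) (.b 16 .nil))) (.node (.I .tdb (.c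 40 (.c 169943433 (.c 8 (.c 32 .nil)))) (.b 16 .nil)) (.I .tdb (.c 4609 (.c 48 (.c 8 (.c 32 .nil)))) (.b 40 (.b 16 .nil)))))) (.node (.node (.node (.I .tdb (.c 0 (.c 24 (.c 32 (.c 8 .nil)))) (.b 48 (.b 40 (.b 16 .nil)))) (.I .tdb (.c 16 (.c 15038410136445321 (.c 8 (.c 32 .nil)))) .nil)) (.node (.I .tdb (.c 16 (.c 3561346121425353 (.c 8 (.c 32 .nil)))) .nil) (.I .tdb (.c 48 (.c 21099011 (.c 8 (.c 32 .nil)))) (.b 16 .nil)))) (.node (.node (.I .tdb (.c 16 (.c 15456253916349513 (.c 8 (.c 32 .nil)))) .nil) (.I .tdb (.c 40 (.c 18433 (.c 8 (.c 32 .nil)))) (.b 16 (.b 24 .nil)))) (.node (.I .tdb (.c 0 (.c 48 (.c 8 (.c 32 .nil)))) (.b 40 (.b 16 (.b 24 .nil)))) (.I .tdb (.c 24 (.c 15456118887243977 (.c 8 (.c 32 .nil)))) .nil))))) (.node (.node (.node (.node (.I .tdb (.c 16 (.c 43954691 (.c 8 (.c 32 .nil)))) (.b 24 .nil)) (.I .tdb (.c 40 (.c 2718204041 (.c 8 (.c 32 .nil)))) (.b 24 .nil))) (.node (.I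 .tdb (.c 16 (.c 18433 (.c 8 (.c 32 .nil)))) (.b 40 (.b 24 .nil))) (.I .tdb (.c 0 (.c 48 (.c 8 (.c 32 .nil)))) (.b 16 (.b 40 (.b 24 .nil)))))) (.node (.node (.I .tdb (.c 48 (.c 1310924937 (.c 8 (.c 32 .nil)))) (.b 24 .nil)) (.I .tdb (.c 24 (.c 15456208906582089 (.c 8 (.c 32 .nil)))) .nil)) (.node (.I .tdb (.c 16 (.c 2718204105 (.c 8 (.c 32 .nil)))) (.b 40 .nil)) (.I .tdb (.c 40 (.c 231046163358604041 (.c 8 (.c 32 .nil)))) .nil)))) (.node (.node (.node (.I .tdb (.c 16 (.c 169943433 (.c 8 (.c 32 .nil)))) (.b 40 .nil)) (.I .tdb (.c 4609 (.c 48 (.c 8 (.c 32 .nil)))) (.b 16 (.b 40 .nil)))) (.node (.I .tdb (.c 0 (.c 24 (.c 32 (.c 8 .nil)))) (.b 48 (.b 16 (.b 40 .nil)))) (.I .tdb (.c 40 (.c 15038410136445129 (.c 8 (.c 32 .nil)))) .nil))) (.node (.node (.I .tdb (.c 16 (.c 43356675 (.c 8 (.c 32 .nil)))) (.b 40 .nil)) (.I .tdb (.c 24 (.c 2718204041 (.c 8 (.c 32 .nil)))) (.b 40 .nil))) (.node (.I .tdb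 (.c 16 (.c 18433 (.c 8 (.c 32 .nil)))) (.b 24 (.b 40 .nil))) (.I .tdb (.c 0 (.c 48 (.c 8 (.c 32 .nil)))) (.b 16 (.b 24 (.b 40 .nil))))))))) (.node (.node (.node (.node (.node (.I .tdb (.c 40 (.c 14832759703961865 (.c 8 (.c 32 .nil)))) .nil) (.I .tdb (.c 24 (.c 43059203 (.c 8 (.c 32 .nil)))) (.b 40 .nil))) (.node (.I .tdb (.c 0 (.c 43356803 (.c 8 (.c 32 .nil)))) (.b 40 .nil)) (.I .tdb (.c 21099139 (.c 18433 (.c 8 (.c 32 .nil)))) .nil))) (.node (.node (.I .tdb (.c 24 (.c 33587529 (.c 8 (.c 32 .nil)))) (.b 48 .nil)) (.I .tdb (.c 24 (.c 20891651 (.c 8 (.c 32 .nil)))) (.b 48 .nil))) (.node (.I .tdb (.c 40 (.c 169943177 (.c 8 (.c 32 .nil)))) (.b 48 .nil)) (.I .tdb (.c 40 (.c 2803715 (.c 8 (.c 32 .nil)))) (.b 48 .nil))))) (.node (.node (.node (.I .tdb (.c 2049 (.c 43954883 (.c 8 (.c 32 .nil)))) .nil) (.I .tdb (.c 0 (.c 16 (.c 32 (.c 8 .nil)))) (.b 43954883 .nil))) (.node (.I .tdb (.c 40 (.c 18433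 (.c 16 (.c 32 .nil)))) (.b 24 (.b 8 .nil))) (.I .tdb (.c 0 (.c 48 (.c 16 (.c 32 .nil)))) (.b 40 (.b 24 (.b 8 .nil)))))) (.node (.node (.I .tdb (.c 24 (.c 1310925193 (.c 16 (.c 32 .nil)))) (.b 8 .nil)) (.I .tdb (.c 48 (.c 12801 (.c 16 (.c 32 .nil)))) (.b 24 (.b 8 .nil)))) (.node (.I .tdb (.c 0 (.c 40 (.c 16 (.c 32 .nil)))) (.b 48 (.b 24 (.b 8 .nil)))) (.I .tdb (.c 40 (.c 2718204105 (.c 16 (.c 32 .nil)))) (.b 8 .nil)))))) (.node (.node (.node (.node (.I .tdb (.c 40 (.c 169943433 (.c 16 (.c 32 .nil)))) (.b 8 .nil)) (.I .tdb (.c 4609 (.c 48 (.c 16 (.c 32 .nil)))) (.b 40 (.b 8 .nil)))) (.node (.I .tdb (.c 0 (.c 24 (.c 32 (.c 16 .nil)))) (.b 48 (.b 40 (.b 8 .nil)))) (.I .tdb (.c 8 (.c 15038410136445321 (.c 16 (.c 32 .nil)))) .nil))) (.node (.node (.I .tdb (.c 48 (.c 1310925001 (.c 16 (.c 32 .nil)))) (.b 8 .nil)) (.I .tdb (.c 4609 (.c 40 (.c 16 (.c 32 .nil)))) (.b 48 (.b 8 .nil)))) (.node (.I .tdb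 (.c 0 (.c 24 (.c 32 (.c 16 .nil)))) (.b 40 (.b 48 (.b 8 .nil)))) (.I .tdb (.c 8 (.c 3561346121425353 (.c 16 (.c 32 .nil)))) .nil)))) (.node (.node (.node (.I .tdb (.c 48 (.c 21099011 (.c 16 (.c 32 .nil)))) (.b 8 .nil)) (.I .tdb (.c 8 (.c 43954691 (.c 16 (.c 32 .nil)))) (.b 24 .nil))) (.node (.I .tdb (.c 24 (.c 14629225721520521 (.c 16 (.c 32 .nil)))) .nil) (.I .tdb (.c 40 (.c 42762755 (.c 16 (.c 32 .nil)))) (.b 24 .nil)))) (.node (.node (.I .tdb (.c 48 (.c 1310924873 (.c 16 (.c 32 .nil)))) (.b 24 .nil)) (.I .tdb (.c 8 (.c 12801 (.c 16 (.c 32 .nil)))) (.b 48 (.b 24 .nil)))) (.node (.I .tdb (.c 0 (.c 40 (.c 16 (.c 32 .nil)))) (.b 8 (.b 48 (.b 24 .nil)))) (.I .tdb (.c 24 (.c 3423058053194185 (.c 16 (.c 32 .nil)))) .nil)))))))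

noncomputable def c5_26 : Tr := (.node (.node (.node (.node (.node (.node (.I .tdb (.c 8 (.c 2718204105 (.c 16 (.c 32 .nil)))) (.b 40 .nil)) (.I .tdb (.c 24 (.c 18433 (.c 16 (.c 32 .nil)))) (.b 8 (.b 40 .nil)))) (.node (.I .tdb (.c 0 (.c 48 (.c 16 (.c 32 .nil)))) (.b 24 (.b 8 (.b 40 .nil)))) (.I .tdb (.c 40 (.c 15038410136445065 (.c 16 (.c 32 .nil)))) .nil))) (.node (.node (.I .tdb (.c 8 (.c 43356675 (.c 16 (.c 32 .nil)))) (.b 40 .nil)) (.I .tdb (.c 8 (.c 18433 (.c 16 (.c 32 .nil)))) (.b 24 (.b 40 .nil)))) (.node (.I .tdb (.c 0 (.c 48 (.c 16 (.c 32 .nil)))) (.b 8 (.b 24 (.b 40 .nil)))) (.I .tdb (.c 40 (.c 14629225721520393 (.c 16 (.c 32 .nil)))) .nil)))) (.node (.node (.node (.I .tdb (.c 24 (.c 42762755 (.c 16 (.c 32 .nil)))) (.b 40 .nil)) (.I .tdb (.c 2105545 (.c 48 (.c 16 (.c 32 .nil)))) (.b 40 .nil))) (.node (.I .tdb (.c 2728451 (.c 48 (.c 16 (.c 32 .nil)))) (.b 40 .nil)) (.I .tdb (.c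 0 (.c 43356739 (.c 16 (.c 32 .nil)))) (.b 40 .nil)))) (.node (.node (.I .tdb (.c 21099075 (.c 18433 (.c 16 (.c 32 .nil)))) .nil) (.I .tdb (.c 0 (.c 48 (.c 16 (.c 32 .nil)))) (.b 21099075 .nil))) (.node (.I .tdb (.c 24 (.c 12801 (.c 16 (.c 32 .nil)))) (.b 8 (.b 48 .nil))) (.I .tdb (.c 0 (.c 40 (.c 16 (.c 32 .nil)))) (.b 24 (.b 8 (.b 48 .nil)))))))) (.node (.node (.node (.node (.I .tdb (.c 48 (.c 3561346121425033 (.c 16 (.c 32 .nil)))) .nil) (.I .tdb (.c 8 (.c 12801 (.c 16 (.c 32 .nil)))) (.b 24 (.b 48 .nil)))) (.node (.I .tdb (.c 0 (.c 40 (.c 16 (.c 32 .nil)))) (.b 8 (.b 24 (.b 48 .nil)))) (.I .tdb (.c 48 (.c 3423058053193993 (.c 16 (.c 32 .nil)))) .nil))) (.node (.node (.I .tdb (.c 513 (.c 24 (.c 16 (.c 32 .nil)))) (.b 40 (.b 48 .nil))) (.I .tdb (.c 0 (.c 8 (.c 16 (.c 32 .nil)))) (.b 24 (.b 40 (.b 48 .nil))))) (.node (.I .tdb (.c 2728451 (.c 40 (.c 16 (.c 32 .nil)))) (.b 48 .nil)) (.I .tdb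 (.c 48 (.c 3561367726845001 (.c 16 (.c 32 .nil)))) .nil)))) (.node (.node (.node (.I .tdb (.c 12801 (.c 43356739 (.c 16 (.c 32 .nil)))) .nil) (.I .tdb (.c 0 (.c 40 (.c 16 (.c 32 .nil)))) (.b 43356739 .nil))) (.node (.I .tdb (.c 4609 (.c 43954755 (.c 16 (.c 32 .nil)))) .nil) (.I .tdb (.c 0 (.c 24 (.c 32 (.c 16 .nil)))) (.b 43954755 .nil)))) (.node (.node (.I .tdb (.c 8 (.c 32 (.c 59109074018392946505 (.c 16 .nil)))) .nil) (.I .tdb (.c 8 (.c 32 (.c 13748198893136698185 (.c 16 .nil)))) .nil)) (.node (.I .tdb (.c 8 (.c 32 (.c 59109068451510808521 (.c 16 .nil)))) .nil) (.I .tdb (.c 8 (.c 32 (.c 231045989336561673 (.c 16 .nil)))) .nil)))))) (.node (.node (.node (.node (.node (.I .tdb (.c 8 (.c 16 (.c 32 (.c 59109074018392946505 .nil)))) .nil) (.I .tdb (.c 8 (.c 16 (.c 32 (.c 231046163358604233 .nil)))) .nil)) (.node (.I .tdb (.c 8 (.c 16 (.c 32 (.c 231045989336561673 .nil)))) .nil) (.I .tdb (.c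 8 (.c 16 (.c 32 (.c 3561346121425353 .nil)))) .nil))) (.node (.node (.I .tdb (.c 16 (.c 32 (.c 59109074018392946505 (.c 8 .nil)))) .nil) (.I .tdb (.c 16 (.c 32 (.c 13748198893136698185 (.c 8 .nil)))) .nil)) (.node (.I .tdb (.c 16 (.c 32 (.c 59109068451510808521 (.c 8 .nil)))) .nil) (.I .tdb (.c 16 (.c 32 (.c 231045989336561673 (.c 8 .nil)))) .nil)))) (.node (.node (.node (.I .tdb (.c 16 (.c 32 (.c 3561346121425353 (.c 8 .nil)))) .nil) (.I .tdb (.c 16 (.c 32 (.c 15456253916349513 (.c 8 .nil)))) .nil)) (.node (.I .tdb (.c 40 (.c 18433 (.c 24 (.c 32 .nil)))) (.b 16 (.b 8 .nil))) (.I .tdb (.c 0 (.c 48 (.c 24 (.c 32 .nil)))) (.b 40 (.b 16 (.b 8 .nil)))))) (.node (.node (.I .tdb (.c 48 (.c 12801 (.c 24 (.c 32 .nil)))) (.b 16 (.b 8 .nil))) (.I .tdb (.c 0 (.c 40 (.c 24 (.c 32 .nil)))) (.b 48 (.b 16 (.b 8 .nil))))) (.node (.I .tdb (.c 16 (.c 18433 (.c 24 (.c 32 .nil)))) (.b 40 (.b 8 .nil))) (.I .tdb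 (.c 0 (.c 48 (.c 24 (.c 32 .nil)))) (.b 16 (.b 40 (.b 8 .nil)))))))) (.node (.node (.node (.node (.I .tdb (.c 40 (.c 43059203 (.c 24 (.c 32 .nil)))) (.b 8 .nil)) (.I .tdb (.c 48 (.c 1310924937 (.c 24 (.c 32 .nil)))) (.b 8 .nil))) (.node (.I .tdb (.c 2049 (.c 40 (.c 24 (.c 32 .nil)))) (.b 48 (.b 8 .nil))) (.I .tdb (.c 0 (.c 16 (.c 32 (.c 24 .nil)))) (.b 40 (.b 48 (.b 8 .nil)))))) (.node (.node (.I .tdb (.c 8 (.c 3491688652046793 (.c 24 (.c 32 .nil)))) .nil) (.I .tdb (.c 8 (.c 15456208906582089 (.c 24 (.c 32 .nil)))) .nil)) (.node (.I .tdb (.c 8 (.c 2718204233 (.c 24 (.c 32 .nil)))) (.b 16 .nil)) (.I .tdb (.c 40 (.c 18433 (.c 24 (.c 32 .nil)))) (.b 8 (.b 16 .nil)))))) (.node (.node (.node (.I .tdb (.c 0 (.c 48 (.c 24 (.c 32 .nil)))) (.b 40 (.b 8 (.b 16 .nil)))) (.I .tdb (.c 8 (.c 1310925193 (.c 24 (.c 32 .nil)))) (.b 16 .nil))) (.node (.I .tdb (.c 16 (.c 15456118887243913 (.c 24 (.c 32 .nil))))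 .nil) (.I .tdb (.c 8 (.c 43954691 (.c 24 (.c 32 .nil)))) (.b 16 .nil)))) (.node (.node (.I .tdb (.c 40 (.c 2718203977 (.c 24 (.c 32 .nil)))) (.b 16 .nil)) (.I .tdb (.c 8 (.c 18433 (.c 24 (.c 32 .nil)))) (.b 40 (.b 16 .nil)))) (.node (.I .tdb (.c 0 (.c 48 (.c 24 (.c 32 .nil)))) (.b 8 (.b 40 (.b 16 .nil)))) (.I .tdb (.c 40 (.c 2105737 (.c 24 (.c 32 .nil)))) (.b 16 .nil))))))))

noncomputable def c5_27 : Tr := (.node (.node (.node (.node (.node (.node (.I .tdb (.c 513 (.c 40 (.c 24 (.c 32 .nil)))) (.b 48 (.b 16 .nil))) (.I .tdb (.c 0 (.c 8 (.c 24 (.c 32 .nil)))) (.b 40 (.b 48 (.b 16 .nil))))) (.node (.I .tdb (.c 16 (.c 15456163896880201 (.c 24 (.c 32 .nil)))) .nil) (.I .tdb (.c 0 (.c 43954755 (.c 24 (.c 32 .nil)))) (.b 16 .nil)))) (.node (.node (.I .tdb (.c 8 (.c 2718204041 (.c 24 (.c 32 .nil)))) (.b 40 .nil)) (.I .tdb (.c 40 (.c 14832759703961737 (.c 24 (.c 32 .nil)))) .nil)) (.node (.I .tdb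 (.c 8 (.c 43059203 (.c 24 (.c 32 .nil)))) (.b 40 .nil)) (.I .tdb (.c 8 (.c 18433 (.c 24 (.c 32 .nil)))) (.b 16 (.b 40 .nil)))))) (.node (.node (.node (.I .tdb (.c 0 (.c 48 (.c 24 (.c 32 .nil)))) (.b 8 (.b 16 (.b 40 .nil)))) (.I .tdb (.c 16 (.c 42762755 (.c 24 (.c 32 .nil)))) (.b 40 .nil))) (.node (.I .tdb (.c 48 (.c 33587273 (.c 24 (.c 32 .nil)))) (.b 40 .nil)) (.I .tdb (.c 8 (.c 2049 (.c 24 (.c 32 .nil)))) (.b 48 (.b 40 .nil))))) (.node (.node (.I .tdb (.c 0 (.c 16 (.c 32 (.c 24 .nil)))) (.b 8 (.b 48 (.b 40 .nil)))) (.I .tdb (.c 2105481 (.c 48 (.c 24 (.c 32 .nil)))) (.b 40 .nil))) (.node (.I .tdb (.c 40 (.c 2487083360713 (.c 24 (.c 32 .nil)))) .nil) (.I .tdb (.c 557571 (.c 48 (.c 24 (.c 32 .nil)))) (.b 40 .nil)))))) (.node (.node (.node (.node (.I .tdb (.c 40 (.c 14832803796618313 (.c 24 (.c 32 .nil)))) .nil) (.I .tdb (.c 0 (.c 43059267 (.c 24 (.c 32 .nil)))) (.b 40 .nil))) (.node (.I .tdb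 (.c 16 (.c 12801 (.c 24 (.c 32 .nil)))) (.b 8 (.b 48 .nil))) (.I .tdb (.c 0 (.c 40 (.c 24 (.c 32 .nil)))) (.b 16 (.b 8 (.b 48 .nil)))))) (.node (.node (.I .tdb (.c 8 (.c 33587529 (.c 24 (.c 32 .nil)))) (.b 48 .nil)) (.I .tdb (.c 48 (.c 3491688652046473 (.c 24 (.c 32 .nil)))) .nil)) (.node (.I .tdb (.c 513 (.c 40 (.c 24 (.c 32 .nil)))) (.b 16 (.b 48 .nil))) (.I .tdb (.c 0 (.c 8 (.c 24 (.c 32 .nil)))) (.b 40 (.b 16 (.b 48 .nil))))))) (.node (.node (.node (.I .tdb (.c 16 (.c 20685315 (.c 24 (.c 32 .nil)))) (.b 48 .nil)) (.I .tdb (.c 48 (.c 2487083360649 (.c 24 (.c 32 .nil)))) .nil)) (.node (.I .tdb (.c 557571 (.c 40 (.c 24 (.c 32 .nil)))) (.b 48 .nil)) (.I .tdb (.c 12801 (.c 43059267 (.c 24 (.c 32 .nil)))) .nil))) (.node (.node (.I .tdb (.c 0 (.c 40 (.c 24 (.c 32 .nil)))) (.b 43059267 .nil)) (.I .tdb (.c 2049 (.c 43954755 (.c 24 (.c 32 .nil)))) .nil)) (.node (.I .tdb (.c 0 (.c 16 (.c 32 (.c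 24 .nil)))) (.b 43954755 .nil)) (.I .tdb (.c 8 (.c 32 (.c 59109074018392946441 (.c 24 .nil)))) .nil)))))) (.node (.node (.node (.node (.node (.I .tdb (.c 8 (.c 32 (.c 15456118887243977 (.c 24 .nil)))) .nil) (.I .tdb (.c 8 (.c 32 (.c 59109065668069837769 (.c 24 .nil)))) .nil)) (.node (.I .tdb (.c 8 (.c 32 (.c 9025011228269513 (.c 24 .nil)))) .nil) (.I .tdb (.c 8 (.c 32 (.c 13748193523587632137 (.c 24 .nil)))) .nil))) (.node (.node (.I .tdb (.c 8 (.c 32 (.c 9024976834607113 (.c 24 .nil)))) .nil) (.I .tdb (.c 8 (.c 24 (.c 32 (.c 59109074018392946441 .nil)))) .nil)) (.node (.I .tdb (.c 8 (.c 24 (.c 32 (.c 59109065668069837769 .nil)))) .nil) (.I .tdb (.c 8 (.c 24 (.c 32 (.c 13748193523587632137 .nil)))) .nil)))) (.node (.node (.node (.I .tdb (.c 8 (.c 24 (.c 32 (.c 9024976834607113 .nil)))) .nil) (.I .tdb (.c 24 (.c 32 (.c 59109074018392946441 (.c 8 .nil)))) .nil)) (.node (.I .tdb (.c 24 (.c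 32 (.c 13748198893136698121 (.c 8 .nil)))) .nil) (.I .tdb (.c 24 (.c 32 (.c 9024976834607113 (.c 8 .nil)))) .nil))) (.node (.node (.I .tdb (.c 24 (.c 32 (.c 15456208906582089 (.c 8 .nil)))) .nil) (.I .tdb (.c 16 (.c 32 (.c 59109074018392946377 (.c 24 .nil)))) .nil)) (.node (.I .tdb (.c 16 (.c 32 (.c 59109062884628932553 (.c 24 .nil)))) .nil) (.I .tdb (.c 16 (.c 32 (.c 35473026505673 (.c 24 .nil)))) .nil))))) (.node (.node (.node (.node (.I .tdb (.c 16 (.c 32 (.c 13748192181200529417 (.c 24 .nil)))) .nil) (.I .tdb (.c 16 (.c 32 (.c 15456163896880201 (.c 24 .nil)))) .nil)) (.node (.I .tdb (.c 16 (.c 24 (.c 32 (.c 59109074018392946377 .nil)))) .nil) (.I .tdb (.c 16 (.c 24 (.c 32 (.c 15456118887243913 .nil)))) .nil))) (.node (.node (.I .tdb (.c 16 (.c 24 (.c 32 (.c 35470870263817 .nil)))) .nil) (.I .tdb (.c 16 (.c 24 (.c 32 (.c 3423058053194185 .nil)))) .nil)) (.node (.I .tdb (.c 16 (.c 24 (.c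 32 (.c 15456163896880201 .nil)))) .nil) (.I .tdb (.c 24 (.c 32 (.c 59109074018392946377 (.c 16 .nil)))) .nil)))) (.node (.node (.node (.I .tdb (.c 24 (.c 32 (.c 13748198893136698057 (.c 16 .nil)))) .nil) (.I .tdb (.c 24 (.c 32 (.c 15456118887243913 (.c 16 .nil)))) .nil)) (.node (.I .tdb (.c 24 (.c 32 (.c 14629225721520521 (.c 16 .nil)))) .nil) (.I .tdb (.c 24 (.c 32 (.c 13748192181200529417 (.c 16 .nil)))) .nil))) (.node (.node (.I .tdb (.c 24 (.c 32 (.c 35470870263817 (.c 16 .nil)))) .nil) (.I .tdb (.c 24 (.c 32 (.c 3423058053194185 (.c 16 .nil)))) .nil)) (.node (.I .tdb (.c 40 (.c 18433 (.c 16 (.c 32 .nil)))) (.b 4673 .nil)) (.I .tdb (.c 0 (.c 48 (.c 16 (.c 32 .nil)))) (.b 40 (.b 4673 .nil)))))))))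

noncomputable def c5_28 : Tr := (.node (.node (.node (.node (.node (.node (.I .tdb (.c 0 (.c 40 (.c 16 (.c 8786499 .nil)))) (.b 48 .nil)) (.I .tdb (.c 40 (.c 18433 (.c 24 (.c 32 .nil)))) (.b 2113 .nil))) (.node (.I .tdb (.c 0 (.c 48 (.c 24 (.c 32 .nil)))) (.b 40 (.b 2113 .nil))) (.I .tdb (.c 40 (.c 18433 (.c 24 (.c 8652867 .nil)))) .nil))) (.node (.node (.I .tdb (.c 0 (.c 40 (.c 24 (.c 8652867 .nil)))) (.b 48 .nil)) (.I .tdb (.c 40 (.c 18433 (.c 8 (.c 24 .nil)))) (.b 8321 .nil))) (.node (.I .tdb (.c 0 (.c 48 (.c 8 (.c 24 .nil)))) (.b 40 (.b 8321 .nil))) (.I .tdb (.c 40 (.c 18433 (.c 8 (.c 32 .nil)))) (.b 4737 .nil))))) (.node (.node (.node (.I .tdb (.c 0 (.c 48 (.c 8 (.c 32 .nil)))) (.b 40 (.b 4737 .nil))) (.I .tdb (.c 48 (.c 12801 (.c 8 (.c 32 .nil)))) (.b 4737 .nil))) (.node (.I .tdb (.c 0 (.c 40 (.c 8 (.c 32 .nil)))) (.b 48 (.b 4737 .nil))) (.I .tdb (.c 24 (.c 537002377 (.c 8 (.c 40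 .nil)))) (.b 16 .nil)))) (.node (.node (.I .tdb (.c 48 (.c 8193 (.c 8 (.c 40 .nil)))) (.b 24 (.b 16 .nil))) (.I .tdb (.c 0 (.c 32 (.c 8 (.c 40 .nil)))) (.b 48 (.b 24 (.b 16 .nil))))) (.node (.I .tdb (.c 16 (.c 15246191640314121 (.c 8 (.c 40 .nil)))) .nil) (.I .tdb (.c 24 (.c 18433 (.c 8 (.c 40 .nil)))) (.b 32 (.b 16 .nil))))))) (.node (.node (.node (.node (.I .tdb (.c 0 (.c 48 (.c 8 (.c 40 .nil)))) (.b 24 (.b 32 (.b 16 .nil)))) (.I .tdb (.c 32 (.c 169943433 (.c 8 (.c 40 .nil)))) (.b 16 .nil))) (.node (.I .tdb (.c 4609 (.c 48 (.c 8 (.c 40 .nil)))) (.b 32 (.b 16 .nil))) (.I .tdb (.c 0 (.c 24 (.c 40 (.c 8 .nil)))) (.b 48 (.b 32 (.b 16 .nil)))))) (.node (.node (.I .tdb (.c 32 (.c 43356675 (.c 8 (.c 40 .nil)))) (.b 16 .nil)) (.I .tdb (.c 48 (.c 537002185 (.c 8 (.c 40 .nil)))) (.b 16 .nil))) (.node (.I .tdb (.c 16 (.c 617611520074185 (.c 8 (.c 40 .nil)))) .nil) (.I .tdb (.c 8786435 (.c 48 (.c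 8 (.c 40 .nil)))) (.b 16 .nil))))) (.node (.node (.node (.I .tdb (.c 32 (.c 18433 (.c 8 (.c 40 .nil)))) (.b 16 (.b 24 .nil))) (.I .tdb (.c 0 (.c 48 (.c 8 (.c 40 .nil)))) (.b 32 (.b 16 (.b 24 .nil))))) (.node (.I .tdb (.c 16 (.c 537002377 (.c 8 (.c 40 .nil)))) (.b 24 .nil)) (.I .tdb (.c 48 (.c 8193 (.c 8 (.c 40 .nil)))) (.b 16 (.b 24 .nil))))) (.node (.node (.I .tdb (.c 0 (.c 32 (.c 8 (.c 40 .nil)))) (.b 48 (.b 16 (.b 24 .nil)))) (.I .tdb (.c 24 (.c 15246191640314057 (.c 8 (.c 40 .nil)))) .nil)) (.node (.I .tdb (.c 16 (.c 18433 (.c 8 (.c 40 .nil)))) (.b 32 (.b 24 .nil))) (.I .tdb (.c 0 (.c 48 (.c 8 (.c 40 .nil)))) (.b 16 (.b 32 (.b 24 .nil))))))))) (.node (.node (.node (.node (.node (.I .tdb (.c 32 (.c 33587593 (.c 8 (.c 40 .nil)))) (.b 24 .nil)) (.I .tdb (.c 2049 (.c 48 (.c 8 (.c 40 .nil)))) (.b 32 (.b 24 .nil)))) (.node (.I .tdb (.c 0 (.c 16 (.c 40 (.c 8 .nil)))) (.b 48 (.b 32 (.b 24 .nil))))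 (.I .tdb (.c 24 (.c 14832759703961929 (.c 8 (.c 40 .nil)))) .nil))) (.node (.node (.I .tdb (.c 48 (.c 537002121 (.c 8 (.c 40 .nil)))) (.b 24 .nil)) (.I .tdb (.c 16 (.c 8193 (.c 8 (.c 40 .nil)))) (.b 48 (.b 24 .nil)))) (.node (.I .tdb (.c 0 (.c 32 (.c 8 (.c 40 .nil)))) (.b 16 (.b 48 (.b 24 .nil)))) (.I .tdb (.c 24 (.c 598967998054857 (.c 8 (.c 40 .nil)))) .nil)))) (.node (.node (.node (.I .tdb (.c 8652803 (.c 48 (.c 8 (.c 40 .nil)))) (.b 24 .nil)) (.I .tdb (.c 24 (.c 15246281046235209 (.c 8 (.c 40 .nil)))) .nil)) (.node (.I .tdb (.c 0 (.c 43655299 (.c 8 (.c 40 .nil)))) (.b 24 .nil)) (.I .tdb (.c 16 (.c 2718204105 (.c 8 (.c 40 .nil)))) (.b 32 .nil)))) (.node (.node (.I .tdb (.c 24 (.c 18433 (.c 8 (.c 40 .nil)))) (.b 16 (.b 32 .nil))) (.I .tdb (.c 0 (.c 48 (.c 8 (.c 40 .nil)))) (.b 24 (.b 16 (.b 32 .nil))))) (.node (.I .tdb (.c 32 (.c 231046163358604041 (.c 8 (.c 40 .nil)))) .nil) (.I .tdb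 (.c 4609 (.c 48 (.c 8 (.c 40 .nil)))) (.b 16 (.b 32 .nil))))))) (.node (.node (.node (.node (.I .tdb (.c 0 (.c 24 (.c 40 (.c 8 .nil)))) (.b 48 (.b 16 (.b 32 .nil)))) (.I .tdb (.c 16 (.c 43356675 (.c 8 (.c 40 .nil)))) (.b 32 .nil))) (.node (.I .tdb (.c 16 (.c 18433 (.c 8 (.c 40 .nil)))) (.b 24 (.b 32 .nil))) (.I .tdb (.c 0 (.c 48 (.c 8 (.c 40 .nil)))) (.b 16 (.b 24 (.b 32 .nil)))))) (.node (.node (.I .tdb (.c 24 (.c 33587593 (.c 8 (.c 40 .nil)))) (.b 32 .nil)) (.I .tdb (.c 2049 (.c 48 (.c 8 (.c 40 .nil)))) (.b 24 (.b 32 .nil)))) (.node (.I .tdb (.c 0 (.c 16 (.c 40 (.c 8 .nil)))) (.b 48 (.b 24 (.b 32 .nil)))) (.I .tdb (.c 24 (.c 43059203 (.c 8 (.c 40 .nil)))) (.b 32 .nil))))) (.node (.node (.node (.I .tdb (.c 48 (.c 169943177 (.c 8 (.c 40 .nil)))) (.b 32 .nil)) (.I .tdb (.c 24 (.c 2049 (.c 8 (.c 40 .nil)))) (.b 48 (.b 32 .nil)))) (.node (.I .tdb (.c 0 (.c 16 (.c 40 (.c 8 .nil)))) (.b 24 (.b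 48 (.b 32 .nil)))) (.I .tdb (.c 32 (.c 62886542410185 (.c 8 (.c 40 .nil)))) .nil))) (.node (.node (.I .tdb (.c 48 (.c 2803715 (.c 8 (.c 40 .nil)))) (.b 32 .nil)) (.I .tdb (.c 32 (.c 15038498931046473 (.c 8 (.c 40 .nil)))) .nil)) (.node (.I .tdb (.c 0 (.c 43356803 (.c 8 (.c 40 .nil)))) (.b 32 .nil)) (.I .tdb (.c 0 (.c 48 (.c 8 (.c 40 .nil)))) (.b 8786563 .nil))))))))

noncomputable def c5_29 : Tr := (.node (.node (.node (.node (.node (.node (.I .tdb (.c 16 (.c 169943305 (.c 8 (.c 40 .nil)))) (.b 48 .nil)) (.I .tdb (.c 4609 (.c 32 (.c 40 (.c 8 .nil)))) (.b 16 (.b 48 .nil)))) (.node (.I .tdb (.c 0 (.c 24 (.c 40 (.c 8 .nil)))) (.b 32 (.b 16 (.b 48 .nil)))) (.I .tdb (.c 48 (.c 617611520073929 (.c 8 (.c 40 .nil)))) .nil))) (.node (.node (.I .tdb (.c 16 (.c 8786435 (.c 8 (.c 40 .nil)))) (.b 48 .nil)) (.I .tdb (.c 2049 (.c 32 (.c 40 (.c 8 .nil)))) (.b 24 (.b 48 .nil)))) (.node (.I .tdb (.c 0 (.c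 16 (.c 40 (.c 8 .nil)))) (.b 32 (.b 24 (.b 48 .nil)))) (.I .tdb (.c 32 (.c 169943177 (.c 8 (.c 40 .nil)))) (.b 48 .nil))))) (.node (.node (.node (.I .tdb (.c 24 (.c 2049 (.c 8 (.c 40 .nil)))) (.b 32 (.b 48 .nil))) (.I .tdb (.c 0 (.c 16 (.c 40 (.c 8 .nil)))) (.b 24 (.b 32 (.b 48 .nil))))) (.node (.I .tdb (.c 48 (.c 617629514823753 (.c 8 (.c 40 .nil)))) .nil) (.I .tdb (.c 0 (.c 8786563 (.c 8 (.c 40 .nil)))) (.b 48 .nil)))) (.node (.node (.I .tdb (.c 4609 (.c 43655299 (.c 8 (.c 40 .nil)))) .nil) (.I .tdb (.c 0 (.c 24 (.c 40 (.c 8 .nil)))) (.b 43655299 .nil))) (.node (.I .tdb (.c 32 (.c 18433 (.c 16 (.c 40 .nil)))) (.b 24 (.b 8 .nil))) (.I .tdb (.c 0 (.c 48 (.c 16 (.c 40 .nil)))) (.b 32 (.b 24 (.b 8 .nil)))))))) (.node (.node (.node (.node (.I .tdb (.c 24 (.c 43655171 (.c 16 (.c 40 .nil)))) (.b 8 .nil)) (.I .tdb (.c 24 (.c 18433 (.c 16 (.c 40 .nil)))) (.b 32 (.b 8 .nil)))) (.node (.I .tdb (.c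 0 (.c 48 (.c 16 (.c 40 .nil)))) (.b 24 (.b 32 (.b 8 .nil)))) (.I .tdb (.c 32 (.c 169943433 (.c 16 (.c 40 .nil)))) (.b 8 .nil)))) (.node (.node (.I .tdb (.c 4609 (.c 48 (.c 16 (.c 40 .nil)))) (.b 32 (.b 8 .nil))) (.I .tdb (.c 0 (.c 24 (.c 40 (.c 16 .nil)))) (.b 48 (.b 32 (.b 8 .nil))))) (.node (.I .tdb (.c 8 (.c 15038410136445257 (.c 16 (.c 40 .nil)))) .nil) (.I .tdb (.c 32 (.c 43356675 (.c 16 (.c 40 .nil)))) (.b 8 .nil))))) (.node (.node (.node (.I .tdb (.c 24 (.c 8193 (.c 16 (.c 40 .nil)))) (.b 48 (.b 8 .nil))) (.I .tdb (.c 0 (.c 32 (.c 16 (.c 40 .nil)))) (.b 24 (.b 48 (.b 8 .nil))))) (.node (.I .tdb (.c 169943305 (.c 48 (.c 16 (.c 40 .nil)))) (.b 8 .nil)) (.I .tdb (.c 8 (.c 15246325749294153 (.c 16 (.c 40 .nil)))) .nil))) (.node (.node (.I .tdb (.c 8 (.c 537002377 (.c 16 (.c 40 .nil)))) (.b 24 .nil)) (.I .tdb (.c 48 (.c 8193 (.c 16 (.c 40 .nil)))) (.b 8 (.b 24 .nil)))) (.node (.I .tdb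 (.c 0 (.c 32 (.c 16 (.c 40 .nil)))) (.b 48 (.b 8 (.b 24 .nil)))) (.I .tdb (.c 24 (.c 15246191640313993 (.c 16 (.c 40 .nil)))) .nil)))))) (.node (.node (.node (.node (.node (.I .tdb (.c 48 (.c 537002057 (.c 16 (.c 40 .nil)))) (.b 24 .nil)) (.I .tdb (.c 8 (.c 8193 (.c 16 (.c 40 .nil)))) (.b 48 (.b 24 .nil)))) (.node (.I .tdb (.c 0 (.c 32 (.c 16 (.c 40 .nil)))) (.b 8 (.b 48 (.b 24 .nil)))) (.I .tdb (.c 2105609 (.c 48 (.c 16 (.c 40 .nil)))) (.b 24 .nil)))) (.node (.node (.I .tdb (.c 24 (.c 580749782704585 (.c 16 (.c 40 .nil)))) .nil) (.I .tdb (.c 24 (.c 15246236343241801 (.c 16 (.c 40 .nil)))) .nil)) (.node (.I .tdb (.c 0 (.c 43655235 (.c 16 (.c 40 .nil)))) (.b 24 .nil)) (.I .tdb (.c 8 (.c 2718204105 (.c 16 (.c 40 .nil)))) (.b 32 .nil))))) (.node (.node (.node (.I .tdb (.c 8 (.c 169943433 (.c 16 (.c 40 .nil)))) (.b 32 .nil)) (.I .tdb (.c 32 (.c 15038410136445065 (.c 16 (.c 40 .nil)))) .nil))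 (.node (.I .tdb (.c 32 (.c 14629225721520393 (.c 16 (.c 40 .nil)))) .nil) (.I .tdb (.c 8 (.c 4609 (.c 16 (.c 40 .nil)))) (.b 48 (.b 32 .nil))))) (.node (.node (.I .tdb (.c 0 (.c 24 (.c 40 (.c 16 .nil)))) (.b 8 (.b 48 (.b 32 .nil)))) (.I .tdb (.c 2105545 (.c 48 (.c 16 (.c 40 .nil)))) (.b 32 .nil))) (.node (.I .tdb (.c 32 (.c 59555558875593 (.c 16 (.c 40 .nil)))) .nil) (.I .tdb (.c 2728451 (.c 48 (.c 16 (.c 40 .nil)))) (.b 32 .nil)))))) (.node (.node (.node (.node (.I .tdb (.c 32 (.c 15038454533712969 (.c 16 (.c 40 .nil)))) .nil) (.I .tdb (.c 0 (.c 48 (.c 16 (.c 40 .nil)))) (.b 8786499 .nil))) (.node (.I .tdb (.c 24 (.c 8193 (.c 16 (.c 40 .nil)))) (.b 8 (.b 48 .nil))) (.I .tdb (.c 0 (.c 32 (.c 16 (.c 40 .nil)))) (.b 24 (.b 8 (.b 48 .nil)))))) (.node (.node (.I .tdb (.c 8 (.c 169943305 (.c 16 (.c 40 .nil)))) (.b 48 .nil)) (.I .tdb (.c 4609 (.c 32 (.c 40 (.c 16 .nil)))) (.b 8 (.b 48 .nil))))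 (.node (.I .tdb (.c 0 (.c 24 (.c 40 (.c 16 .nil)))) (.b 32 (.b 8 (.b 48 .nil)))) (.I .tdb (.c 513 (.c 32 (.c 40 (.c 16 .nil)))) (.b 24 (.b 48 .nil)))))) (.node (.node (.node (.I .tdb (.c 0 (.c 8 (.c 16 (.c 40 .nil)))) (.b 32 (.b 24 (.b 48 .nil)))) (.I .tdb (.c 8 (.c 4609 (.c 16 (.c 40 .nil)))) (.b 32 (.b 48 .nil)))) (.node (.I .tdb (.c 0 (.c 24 (.c 40 (.c 16 .nil)))) (.b 8 (.b 32 (.b 48 .nil)))) (.I .tdb (.c 48 (.c 59555558875465 (.c 16 (.c 40 .nil)))) .nil))) (.node (.node (.I .tdb (.c 32 (.c 2728451 (.c 16 (.c 40 .nil)))) (.b 48 .nil)) (.I .tdb (.c 4609 (.c 43655235 (.c 16 (.c 40 .nil)))) .nil)) (.node (.I .tdb (.c 0 (.c 24 (.c 40 (.c 16 .nil)))) (.b 43655235 .nil)) (.I .tdb (.c 8 (.c 40 (.c 2306972423229201225 (.c 16 .nil)))) .nil)))))))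

noncomputable def c5_30 : Tr := (.node (.node (.node (.node (.node (.node (.I .tdb (.c 8 (.c 40 (.c 59109068451510808457 (.c 16 .nil)))) .nil) (.I .tdb (.c 8 (.c 40 (.c 2306970773558194185 (.c 16 .nil)))) .nil)) (.node (.I .tdb (.c 8 (.c 40 (.c 231045815314584585 (.c 16 .nil)))) .nil) (.I .tdb (.c 8 (.c 40 (.c 617611520074185 (.c 16 .nil)))) .nil))) (.node (.node (.I .tdb (.c 8 (.c 16 (.c 40 (.c 15246191640314121 .nil)))) .nil) (.I .tdb (.c 8 (.c 16 (.c 40 (.c 59109068451510808457 .nil)))) .nil)) (.node (.I .tdb (.c 8 (.c 16 (.c 40 (.c 231046163358604169 .nil)))) .nil) (.I .tdb (.c 8 (.c 16 (.c 40 (.c 15038410136445257 .nil)))) .nil)))) (.node (.node (.node (.I .tdb (.c 8 (.c 16 (.c 40 (.c 2306970773558194185 .nil)))) .nil) (.I .tdb (.c 8 (.c 16 (.c 40 (.c 617611520074185 .nil)))) .nil)) (.node (.I .tdb (.c 16 (.c 40 (.c 2306972423229201225 (.c 8 .nil)))) .nil) (.I .tdb (.c 16 (.c 40 (.c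 59109068451510808457 (.c 8 .nil)))) .nil))) (.node (.node (.I .tdb (.c 16 (.c 40 (.c 617611520074185 (.c 8 .nil)))) .nil) (.I .tdb (.c 32 (.c 18433 (.c 24 (.c 40 .nil)))) (.b 16 (.b 8 .nil)))) (.node (.I .tdb (.c 0 (.c 48 (.c 24 (.c 40 .nil)))) (.b 32 (.b 16 (.b 8 .nil)))) (.I .tdb (.c 48 (.c 8193 (.c 24 (.c 40 .nil)))) (.b 16 (.b 8 .nil))))))) (.node (.node (.node (.node (.I .tdb (.c 0 (.c 32 (.c 24 (.c 40 .nil)))) (.b 48 (.b 16 (.b 8 .nil)))) (.I .tdb (.c 8 (.c 15246191640314057 (.c 24 (.c 40 .nil)))) .nil)) (.node (.I .tdb (.c 32 (.c 2718204041 (.c 24 (.c 40 .nil)))) (.b 8 .nil)) (.I .tdb (.c 16 (.c 18433 (.c 24 (.c 40 .nil)))) (.b 32 (.b 8 .nil))))) (.node (.node (.I .tdb (.c 0 (.c 48 (.c 24 (.c 40 .nil)))) (.b 16 (.b 32 (.b 8 .nil)))) (.I .tdb (.c 32 (.c 33587593 (.c 24 (.c 40 .nil)))) (.b 8 .nil))) (.node (.I .tdb (.c 8 (.c 14832759703961929 (.c 24 (.c 40 .nil)))) .nil) (.I .tdb (.c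 16 (.c 8193 (.c 24 (.c 40 .nil)))) (.b 48 (.b 8 .nil)))))) (.node (.node (.node (.I .tdb (.c 0 (.c 32 (.c 24 (.c 40 .nil)))) (.b 16 (.b 48 (.b 8 .nil)))) (.I .tdb (.c 33587465 (.c 48 (.c 24 (.c 40 .nil)))) (.b 8 .nil))) (.node (.I .tdb (.c 8652803 (.c 48 (.c 24 (.c 40 .nil)))) (.b 8 .nil)) (.I .tdb (.c 0 (.c 43655299 (.c 24 (.c 40 .nil)))) (.b 8 .nil)))) (.node (.node (.I .tdb (.c 8 (.c 537002377 (.c 24 (.c 40 .nil)))) (.b 16 .nil)) (.I .tdb (.c 48 (.c 8193 (.c 24 (.c 40 .nil)))) (.b 8 (.b 16 .nil)))) (.node (.I .tdb (.c 0 (.c 32 (.c 24 (.c 40 .nil)))) (.b 48 (.b 8 (.b 16 .nil)))) (.I .tdb (.c 16 (.c 15246191640313993 (.c 24 (.c 40 .nil)))) .nil)))))) (.node (.node (.node (.node (.node (.I .tdb (.c 8 (.c 43655171 (.c 24 (.c 40 .nil)))) (.b 16 .nil)) (.I .tdb (.c 32 (.c 2718203977 (.c 24 (.c 40 .nil)))) (.b 16 .nil))) (.node (.I .tdb (.c 32 (.c 2105737 (.c 24 (.c 40 .nil)))) (.b 16 .nil))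 (.I .tdb (.c 513 (.c 48 (.c 24 (.c 40 .nil)))) (.b 32 (.b 16 .nil))))) (.node (.node (.I .tdb (.c 0 (.c 8 (.c 24 (.c 40 .nil)))) (.b 48 (.b 32 (.b 16 .nil)))) (.I .tdb (.c 32 (.c 42762755 (.c 24 (.c 40 .nil)))) (.b 16 .nil))) (.node (.I .tdb (.c 48 (.c 537002057 (.c 24 (.c 40 .nil)))) (.b 16 .nil)) (.I .tdb (.c 8 (.c 8193 (.c 24 (.c 40 .nil)))) (.b 48 (.b 16 .nil)))))) (.node (.node (.node (.I .tdb (.c 0 (.c 32 (.c 24 (.c 40 .nil)))) (.b 8 (.b 48 (.b 16 .nil)))) (.I .tdb (.c 2105609 (.c 48 (.c 24 (.c 40 .nil)))) (.b 16 .nil))) (.node (.I .tdb (.c 513 (.c 32 (.c 40 (.c 24 .nil)))) (.b 48 (.b 16 .nil))) (.I .tdb (.c 0 (.c 8 (.c 24 (.c 40 .nil)))) (.b 32 (.b 48 (.b 16 .nil)))))) (.node (.node (.I .tdb (.c 8520195 (.c 48 (.c 24 (.c 40 .nil)))) (.b 16 .nil)) (.I .tdb (.c 0 (.c 43655235 (.c 24 (.c 40 .nil)))) (.b 16 .nil))) (.node (.I .tdb (.c 8 (.c 2718204041 (.c 24 (.c 40 .nil)))) (.b 32 .nil))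 (.I .tdb (.c 16 (.c 18433 (.c 24 (.c 40 .nil)))) (.b 8 (.b 32 .nil))))))) (.node (.node (.node (.node (.I .tdb (.c 0 (.c 48 (.c 24 (.c 40 .nil)))) (.b 16 (.b 8 (.b 32 .nil)))) (.I .tdb (.c 32 (.c 14832759703961737 (.c 24 (.c 40 .nil)))) .nil)) (.node (.I .tdb (.c 16 (.c 2718203977 (.c 24 (.c 40 .nil)))) (.b 32 .nil)) (.I .tdb (.c 8 (.c 18433 (.c 24 (.c 40 .nil)))) (.b 16 (.b 32 .nil))))) (.node (.node (.I .tdb (.c 0 (.c 48 (.c 24 (.c 40 .nil)))) (.b 8 (.b 16 (.b 32 .nil)))) (.I .tdb (.c 16 (.c 2105737 (.c 24 (.c 40 .nil)))) (.b 32 .nil))) (.node (.I .tdb (.c 16 (.c 42762755 (.c 24 (.c 40 .nil)))) (.b 32 .nil)) (.I .tdb (.c 48 (.c 33587273 (.c 24 (.c 40 .nil)))) (.b 32 .nil))))) (.node (.node (.node (.I .tdb (.c 8 (.c 2049 (.c 24 (.c 40 .nil)))) (.b 48 (.b 32 .nil))) (.I .tdb (.c 0 (.c 16 (.c 40 (.c 24 .nil)))) (.b 8 (.b 48 (.b 32 .nil))))) (.node (.I .tdb (.c 2105481 (.c 48 (.c 24 (.c 40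 .nil)))) (.b 32 .nil)) (.I .tdb (.c 513 (.c 16 (.c 40 (.c 24 .nil)))) (.b 48 (.b 32 .nil))))) (.node (.node (.I .tdb (.c 0 (.c 8 (.c 24 (.c 40 .nil)))) (.b 16 (.b 48 (.b 32 .nil)))) (.I .tdb (.c 557571 (.c 48 (.c 24 (.c 40 .nil)))) (.b 32 .nil))) (.node (.I .tdb (.c 32 (.c 14832803796618313 (.c 24 (.c 40 .nil)))) .nil) (.I .tdb (.c 0 (.c 43059267 (.c 24 (.c 40 .nil)))) (.b 32 .nil))))))))

noncomputable def c5_31 : Tr := (.node (.node (.node (.node (.node (.node (.I .tdb (.c 8652867 (.c 18433 (.c 24 (.c 40 .nil)))) .nil) (.I .tdb (.c 48 (.c 598967998054537 (.c 24 (.c 40 .nil)))) .nil)) (.node (.I .tdb (.c 8 (.c 8652803 (.c 24 (.c 40 .nil)))) (.b 48 .nil)) (.I .tdb (.c 513 (.c 32 (.c 40 (.c 24 .nil)))) (.b 16 (.b 48 .nil))))) (.node (.node (.I .tdb (.c 0 (.c 8 (.c 24 (.c 40 .nil)))) (.b 32 (.b 16 (.b 48 .nil)))) (.I .tdb (.c 8 (.c 2049 (.c 24 (.c 40 .nil)))) (.b 32 (.b 48 .nil)))) (.node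 (.I .tdb (.c 0 (.c 16 (.c 40 (.c 24 .nil)))) (.b 8 (.b 32 (.b 48 .nil)))) (.I .tdb (.c 48 (.c 2487083360585 (.c 24 (.c 40 .nil)))) .nil)))) (.node (.node (.node (.I .tdb (.c 32 (.c 557571 (.c 24 (.c 40 .nil)))) (.b 48 .nil)) (.I .tdb (.c 8 (.c 40 (.c 2306972423229201161 (.c 24 .nil)))) .nil)) (.node (.I .tdb (.c 8 (.c 40 (.c 59109065668069837705 (.c 24 .nil)))) .nil) (.I .tdb (.c 8 (.c 40 (.c 9025011228269449 (.c 24 .nil)))) .nil))) (.node (.node (.I .tdb (.c 8 (.c 40 (.c 14832759703961929 (.c 24 .nil)))) .nil) (.I .tdb (.c 8 (.c 40 (.c 598967998054857 (.c 24 .nil)))) .nil)) (.node (.I .tdb (.c 8 (.c 24 (.c 40 (.c 9025011228269449 .nil)))) .nil) (.I .tdb (.c 8 (.c 24 (.c 40 (.c 14832759703961929 .nil)))) .nil))))) (.node (.node (.node (.node (.I .tdb (.c 8 (.c 24 (.c 40 (.c 9024942441010185 .nil)))) .nil) (.I .tdb (.c 8 (.c 24 (.c 40 (.c 598967998054857 .nil)))) .nil)) (.node (.I .tdb (.c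 24 (.c 40 (.c 2306972423229201161 (.c 8 .nil)))) .nil) (.I .tdb (.c 24 (.c 40 (.c 2306970223667989513 (.c 8 .nil)))) .nil))) (.node (.node (.I .tdb (.c 24 (.c 40 (.c 9024942441010185 (.c 8 .nil)))) .nil) (.I .tdb (.c 16 (.c 40 (.c 2306972423229201097 (.c 24 .nil)))) .nil)) (.node (.I .tdb (.c 16 (.c 40 (.c 59109062884628932489 (.c 24 .nil)))) .nil) (.I .tdb (.c 16 (.c 40 (.c 35473026505609 (.c 24 .nil)))) .nil)))) (.node (.node (.node (.I .tdb (.c 16 (.c 40 (.c 580749782704585 (.c 24 .nil)))) .nil) (.I .tdb (.c 16 (.c 24 (.c 40 (.c 2306969673777850377 .nil)))) .nil)) (.node (.I .tdb (.c 16 (.c 24 (.c 40 (.c 35468714087433 .nil)))) .nil) (.I .tdb (.c 16 (.c 24 (.c 40 (.c 580749782704585 .nil)))) .nil))) (.node (.node (.I .tdb (.c 16 (.c 24 (.c 40 (.c 15246236343241801 .nil)))) .nil) (.I .tdb (.c 24 (.c 40 (.c 2306972423229201097 (.c 16 .nil)))) .nil)) (.node (.I .tdb (.c 32 (.c 18433 (.c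 16 (.c 24 .nil)))) (.b 12865 .nil)) (.I .tdb (.c 0 (.c 48 (.c 16 (.c 24 .nil)))) (.b 32 (.b 12865 .nil)))))))) (.node (.node (.node (.node (.node (.I .tdb (.c 32 (.c 18433 (.c 16 (.c 40 .nil)))) (.b 4673 .nil)) (.I .tdb (.c 0 (.c 48 (.c 16 (.c 40 .nil)))) (.b 32 (.b 4673 .nil)))) (.node (.I .tdb (.c 32 (.c 18433 (.c 16 (.c 21099075 .nil)))) .nil) (.I .tdb (.c 48 (.c 8193 (.c 16 (.c 24 .nil)))) (.b 12865 .nil)))) (.node (.node (.I .tdb (.c 0 (.c 32 (.c 16 (.c 24 .nil)))) (.b 48 (.b 12865 .nil))) (.I .tdb (.c 8 (.c 40 (.c 537002377 (.c 16 .nil)))) (.b 24 .nil))) (.node (.I .tdb (.c 48 (.c 8193 (.c 16 (.c 21099075 .nil)))) .nil) (.I .tdb (.c 32 (.c 18433 (.c 24 (.c 40 .nil)))) (.b 2113 .nil))))) (.node (.node (.node (.I .tdb (.c 0 (.c 48 (.c 24 (.c 40 .nil)))) (.b 32 (.b 2113 .nil))) (.I .tdb (.c 8 (.c 40 (.c 537002377 (.c 24 .nil)))) (.b 16 .nil))) (.node (.I .tdb (.c 48 (.c 8193 (.c 24 (.c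 40 .nil)))) (.b 2113 .nil)) (.I .tdb (.c 0 (.c 32 (.c 24 (.c 40 .nil)))) (.b 48 (.b 2113 .nil))))) (.node (.node (.I .tdb (.c 48 (.c 8193 (.c 24 (.c 20891715 .nil)))) .nil) (.I .tdb (.c 16 (.c 24 (.c 12865 (.c 537002377 .nil)))) .nil)) (.node (.I .tdb (.c 0 (.c 48 (.c 40 (.c 2803779 .nil)))) (.b 32 .nil)) (.I .tdb (.c 0 (.c 32 (.c 40 (.c 2803779 .nil)))) (.b 48 .nil)))))) (.node (.node (.node (.node (.I .tdb (.c 8 (.c 24 (.c 12929 (.c 537002377 .nil)))) .nil) (.I .tdb (.c 16 (.c 40 (.c 537002377 (.c 8 .nil)))) (.b 24 .nil))) (.node (.I .tdb (.c 16 (.c 40 (.c 537002377 (.c 24 .nil)))) (.b 8 .nil)) (.I .tdb (.c 8 (.c 16 (.c 12993 (.c 537002377 .nil)))) .nil))) (.node (.node (.I .tdb (.c 24 (.c 40 (.c 537002377 (.c 8 .nil)))) (.b 16 .nil)) (.I .tdb (.c 24 (.c 40 (.c 537002377 (.c 16 .nil)))) (.b 8 .nil))) (.node (.I .tdb (.c 8 (.c 16 (.c 12993 (.c 43655171 .nil)))) .nil) (.I .tdb (.c 24 (.c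 40 (.c 43655171 (.c 8 .nil)))) (.b 16 .nil))))) (.node (.node (.node (.I .tdb (.c 24 (.c 40 (.c 43655171 (.c 16 .nil)))) (.b 8 .nil)) (.I .tdb (.c 32 (.c 18433 (.c 8 (.c 24 .nil)))) (.b 12929 .nil))) (.node (.I .tdb (.c 32 (.c 18433 (.c 8 (.c 21099139 .nil)))) .nil) (.I .tdb (.c 48 (.c 8193 (.c 8 (.c 40 .nil)))) (.b 4737 .nil)))) (.node (.node (.I .tdb (.c 0 (.c 32 (.c 8 (.c 40 .nil)))) (.b 48 (.b 4737 .nil))) (.I .tdb (.c 16 (.c 2718204105 (.c 32 (.c 40 .nil)))) (.b 8 .nil))) (.node (.I .tdb (.c 24 (.c 18433 (.c 32 (.c 40 .nil)))) (.b 16 (.b 8 .nil))) (.I .tdb (.c 0 (.c 48 (.c 32 (.c 40 .nil)))) (.b 24 (.b 16 (.b 8 .nil))))))))))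

noncomputable def c5_32 : Tr := (.node (.node (.node (.node (.node (.node (.I .tdb (.c 8 (.c 231046163358604041 (.c 32 (.c 40 .nil)))) .nil) (.I .tdb (.c 16 (.c 169943433 (.c 32 (.c 40 .nil)))) (.b 8 .nil))) (.node (.I .tdb (.c 4609 (.c 48 (.c 32 (.c 40 .nil)))) (.b 16 (.b 8 .nil))) (.I .tdb (.c 0 (.c 24 (.c 32 (.c 40 .nil)))) (.b 48 (.b 16 (.b 8 .nil)))))) (.node (.node (.I .tdb (.c 8 (.c 15038410136445129 (.c 32 (.c 40 .nil)))) .nil) (.I .tdb (.c 16 (.c 43356675 (.c 32 (.c 40 .nil)))) (.b 8 .nil))) (.node (.I .tdb (.c 24 (.c 2718204041 (.c 32 (.c 40 .nil)))) (.b 8 .nil)) (.I .tdb (.c 2049 (.c 48 (.c 32 (.c 40 .nil)))) (.b 24 (.b 8 .nil)))))) (.node (.node (.node (.I .tdb (.c 0 (.c 16 (.c 32 (.c 40 .nil)))) (.b 48 (.b 24 (.b 8 .nil)))) (.I .tdb (.c 16 (.c 4609 (.c 32 (.c 40 .nil)))) (.b 48 (.b 8 .nil)))) (.node (.I .tdb (.c 0 (.c 24 (.c 32 (.c 40 .nil)))) (.b 16 (.b 48 (.b 8 .nil)))) (.I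 .tdb (.c 24 (.c 2049 (.c 32 (.c 40 .nil)))) (.b 48 (.b 8 .nil))))) (.node (.node (.I .tdb (.c 0 (.c 16 (.c 32 (.c 40 .nil)))) (.b 24 (.b 48 (.b 8 .nil)))) (.I .tdb (.c 8 (.c 62886542410185 (.c 32 (.c 40 .nil)))) .nil)) (.node (.I .tdb (.c 8 (.c 2718204105 (.c 32 (.c 40 .nil)))) (.b 16 .nil)) (.I .tdb (.c 16 (.c 15038410136445065 (.c 32 (.c 40 .nil)))) .nil))))) (.node (.node (.node (.node (.I .tdb (.c 8 (.c 18433 (.c 32 (.c 40 .nil)))) (.b 24 (.b 16 .nil))) (.I .tdb (.c 0 (.c 48 (.c 32 (.c 40 .nil)))) (.b 8 (.b 24 (.b 16 .nil))))) (.node (.I .tdb (.c 24 (.c 42762755 (.c 32 (.c 40 .nil)))) (.b 16 .nil)) (.I .tdb (.c 513 (.c 24 (.c 40 (.c 32 .nil)))) (.b 48 (.b 16 .nil))))) (.node (.node (.I .tdb (.c 0 (.c 8 (.c 32 (.c 40 .nil)))) (.b 24 (.b 48 (.b 16 .nil)))) (.I .tdb (.c 2728451 (.c 48 (.c 32 (.c 40 .nil)))) (.b 16 .nil))) (.node (.I .tdb (.c 16 (.c 15038454533712969 (.c 32 (.c 40 .nil))))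 .nil) (.I .tdb (.c 0 (.c 43356739 (.c 32 (.c 40 .nil)))) (.b 16 .nil))))) (.node (.node (.node (.I .tdb (.c 24 (.c 14832759703961737 (.c 32 (.c 40 .nil)))) .nil) (.I .tdb (.c 16 (.c 2718203977 (.c 32 (.c 40 .nil)))) (.b 24 .nil))) (.node (.I .tdb (.c 8 (.c 18433 (.c 32 (.c 40 .nil)))) (.b 16 (.b 24 .nil))) (.I .tdb (.c 0 (.c 48 (.c 32 (.c 40 .nil)))) (.b 8 (.b 16 (.b 24 .nil)))))) (.node (.node (.I .tdb (.c 16 (.c 2105737 (.c 32 (.c 40 .nil)))) (.b 24 .nil)) (.I .tdb (.c 513 (.c 48 (.c 32 (.c 40 .nil)))) (.b 16 (.b 24 .nil)))) (.node (.I .tdb (.c 0 (.c 8 (.c 32 (.c 40 .nil)))) (.b 48 (.b 16 (.b 24 .nil)))) (.I .tdb (.c 513 (.c 16 (.c 40 (.c 32 .nil)))) (.b 48 (.b 24 .nil)))))))) (.node (.node (.node (.node (.node (.I .tdb (.c 0 (.c 8 (.c 32 (.c 40 .nil)))) (.b 16 (.b 48 (.b 24 .nil)))) (.I .tdb (.c 0 (.c 43059267 (.c 32 (.c 40 .nil)))) (.b 24 .nil))) (.node (.I .tdb (.c 0 (.c 48 (.c 32 (.c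 40 .nil)))) (.b 2803779 .nil)) (.I .tdb (.c 8 (.c 169943177 (.c 32 (.c 40 .nil)))) (.b 48 .nil)))) (.node (.node (.I .tdb (.c 16 (.c 4609 (.c 32 (.c 40 .nil)))) (.b 8 (.b 48 .nil))) (.I .tdb (.c 0 (.c 24 (.c 32 (.c 40 .nil)))) (.b 16 (.b 8 (.b 48 .nil))))) (.node (.I .tdb (.c 24 (.c 2049 (.c 32 (.c 40 .nil)))) (.b 8 (.b 48 .nil))) (.I .tdb (.c 0 (.c 16 (.c 32 (.c 40 .nil)))) (.b 24 (.b 8 (.b 48 .nil))))))) (.node (.node (.node (.I .tdb (.c 48 (.c 62886542409865 (.c 32 (.c 40 .nil)))) .nil) (.I .tdb (.c 513 (.c 24 (.c 40 (.c 32 .nil)))) (.b 16 (.b 48 .nil)))) (.node (.I .tdb (.c 0 (.c 8 (.c 32 (.c 40 .nil)))) (.b 24 (.b 16 (.b 48 .nil)))) (.I .tdb (.c 48 (.c 59555558875337 (.c 32 (.c 40 .nil)))) .nil))) (.node (.node (.I .tdb (.c 16 (.c 2728451 (.c 32 (.c 40 .nil)))) (.b 48 .nil)) (.I .tdb (.c 8 (.c 2049 (.c 32 (.c 40 .nil)))) (.b 24 (.b 48 .nil)))) (.node (.I .tdb (.c 0 (.c 16 (.c 32 (.c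 40 .nil)))) (.b 8 (.b 24 (.b 48 .nil)))) (.I .tdb (.c 513 (.c 16 (.c 40 (.c 32 .nil)))) (.b 24 (.b 48 .nil))))))) (.node (.node (.node (.node (.I .tdb (.c 0 (.c 8 (.c 32 (.c 40 .nil)))) (.b 16 (.b 24 (.b 48 .nil)))) (.I .tdb (.c 48 (.c 2487083360521 (.c 32 (.c 40 .nil)))) .nil)) (.node (.I .tdb (.c 4609 (.c 43059267 (.c 32 (.c 40 .nil)))) .nil) (.I .tdb (.c 0 (.c 24 (.c 32 (.c 40 .nil)))) (.b 43059267 .nil)))) (.node (.node (.I .tdb (.c 2049 (.c 43356739 (.c 32 (.c 40 .nil)))) .nil) (.I .tdb (.c 0 (.c 16 (.c 32 (.c 40 .nil)))) (.b 43356739 .nil))) (.node (.I .tdb (.c 513 (.c 43356803 (.c 32 (.c 40 .nil)))) .nil) (.I .tdb (.c 0 (.c 8 (.c 32 (.c 40 .nil)))) (.b 43356803 .nil))))) (.node (.node (.node (.I .tdb (.c 8 (.c 40 (.c 231046163358604041 (.c 32 .nil)))) .nil) (.I .tdb (.c 8 (.c 40 (.c 59109065668069837641 (.c 32 .nil)))) .nil)) (.node (.I .tdb (.c 8 (.c 40 (.c 231045467270827017 (.c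 32 .nil)))) .nil) (.I .tdb (.c 8 (.c 40 (.c 62886542410185 (.c 32 .nil)))) .nil))) (.node (.node (.I .tdb (.c 8 (.c 40 (.c 15038498931046473 (.c 32 .nil)))) .nil) (.I .tdb (.c 8 (.c 32 (.c 59109068451510808329 (.c 40 .nil)))) .nil)) (.node (.I .tdb (.c 8 (.c 32 (.c 231046163358604041 (.c 40 .nil)))) .nil) (.I .tdb (.c 8 (.c 32 (.c 15038410136445129 (.c 40 .nil)))) .nil)))))))

noncomputable def c5_33 : Tr := (.node (.node (.node (.node (.node (.node (.I .tdb (.c 8 (.c 32 (.c 9025011228269385 (.c 40 .nil)))) .nil) (.I .tdb (.c 8 (.c 32 (.c 231045467270827017 (.c 40 .nil)))) .nil)) (.node (.I .tdb (.c 8 (.c 32 (.c 62886542410185 (.c 40 .nil)))) .nil) (.I .tdb (.c 8 (.c 32 (.c 15038498931046473 (.c 40 .nil)))) .nil))) (.node (.node (.I .tdb (.c 32 (.c 40 (.c 59109068451510808329 (.c 8 .nil)))) .nil) (.I .tdb (.c 32 (.c 40 (.c 62886542410185 (.c 8 .nil)))) .nil)) (.node (.I .tdb (.c 16 (.c 40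 (.c 231046163358603977 (.c 32 .nil)))) .nil) (.I .tdb (.c 16 (.c 40 (.c 14629225721520393 (.c 32 .nil)))) .nil)))) (.node (.node (.node (.I .tdb (.c 16 (.c 40 (.c 231045293249046537 (.c 32 .nil)))) .nil) (.I .tdb (.c 16 (.c 40 (.c 59555558875593 (.c 32 .nil)))) .nil)) (.node (.I .tdb (.c 16 (.c 40 (.c 15038454533712969 (.c 32 .nil)))) .nil) (.I .tdb (.c 16 (.c 32 (.c 59109068451510808265 (.c 40 .nil)))) .nil))) (.node (.node (.I .tdb (.c 16 (.c 32 (.c 231046163358603977 (.c 40 .nil)))) .nil) (.I .tdb (.c 16 (.c 32 (.c 15038410136445065 (.c 40 .nil)))) .nil)) (.node (.I .tdb (.c 16 (.c 32 (.c 14629225721520393 (.c 40 .nil)))) .nil) (.I .tdb (.c 16 (.c 32 (.c 231045293249046537 (.c 40 .nil)))) .nil))))) (.node (.node (.node (.node (.I .tdb (.c 32 (.c 40 (.c 59109068451510808265 (.c 16 .nil)))) .nil) (.I .tdb (.c 32 (.c 40 (.c 231045293249046537 (.c 16 .nil)))) .nil)) (.node (.I .tdb (.c 32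 (.c 40 (.c 35466557976585 (.c 16 .nil)))) .nil) (.I .tdb (.c 32 (.c 40 (.c 59555558875593 (.c 16 .nil)))) .nil))) (.node (.node (.I .tdb (.c 8 (.c 40 (.c 2718204105 (.c 16 .nil)))) (.b 32 .nil)) (.I .tdb (.c 24 (.c 18433 (.c 16 (.c 40 .nil)))) (.b 8257 .nil))) (.node (.I .tdb (.c 0 (.c 48 (.c 16 (.c 40 .nil)))) (.b 24 (.b 8257 .nil))) (.I .tdb (.c 4609 (.c 48 (.c 16 (.c 32 .nil)))) (.b 12865 .nil))))) (.node (.node (.node (.I .tdb (.c 0 (.c 24 (.c 32 (.c 16 .nil)))) (.b 48 (.b 12865 .nil))) (.I .tdb (.c 4609 (.c 48 (.c 16 (.c 40 .nil)))) (.b 8257 .nil))) (.node (.I .tdb (.c 0 (.c 24 (.c 40 (.c 16 .nil)))) (.b 48 (.b 8257 .nil))) (.I .tdb (.c 4609 (.c 48 (.c 16 (.c 21307459 .nil)))) .nil))) (.node (.node (.I .tdb (.c 8 (.c 40 (.c 2718204105 (.c 32 .nil)))) (.b 16 .nil)) (.I .tdb (.c 0 (.c 48 (.c 32 (.c 20891715 .nil)))) (.b 24 .nil))) (.node (.I .tdb (.c 2113 (.c 40 (.c 43356675 (.c 32 .nil))))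 .nil) (.I .tdb (.c 8 (.c 16 (.c 32 (.c 43356675 .nil)))) (.b 40 .nil))))))) (.node (.node (.node (.node (.node (.I .tdb (.c 16 (.c 32 (.c 12865 (.c 2718204105 .nil)))) .nil) (.I .tdb (.c 24 (.c 18433 (.c 8652867 (.c 40 .nil)))) .nil)) (.node (.I .tdb (.c 0 (.c 48 (.c 8652867 (.c 40 .nil)))) (.b 24 .nil)) (.I .tdb (.c 0 (.c 24 (.c 8652867 (.c 40 .nil)))) (.b 48 .nil)))) (.node (.node (.I .tdb (.c 2113 (.c 32 (.c 40 (.c 43356675 .nil)))) .nil) (.I .tdb (.c 8 (.c 16 (.c 40 (.c 43356675 .nil)))) (.b 32 .nil))) (.node (.I .tdb (.c 8 (.c 32 (.c 12929 (.c 2718204105 .nil)))) .nil) (.I .tdb (.c 16 (.c 40 (.c 2718204105 (.c 8 .nil)))) (.b 32 .nil))))) (.node (.node (.node (.I .tdb (.c 16 (.c 40 (.c 2718204105 (.c 32 .nil)))) (.b 8 .nil)) (.I .tdb (.c 8 (.c 16 (.c 13057 (.c 2718204105 .nil)))) .nil)) (.node (.I .tdb (.c 32 (.c 40 (.c 2718204105 (.c 8 .nil)))) (.b 16 .nil)) (.I .tdb (.c 32 (.c 40 (.c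 2718204105 (.c 16 .nil)))) (.b 8 .nil)))) (.node (.node (.I .tdb (.c 8 (.c 16 (.c 13057 (.c 43356675 .nil)))) .nil) (.I .tdb (.c 32 (.c 40 (.c 43356675 (.c 8 .nil)))) (.b 16 .nil))) (.node (.I .tdb (.c 32 (.c 40 (.c 43356675 (.c 16 .nil)))) (.b 8 .nil)) (.I .tdb (.c 0 (.c 48 (.c 8 (.c 21307523 .nil)))) (.b 24 .nil)))))) (.node (.node (.node (.node (.I .tdb (.c 24 (.c 40 (.c 59109065668069837513 (.c 32 .nil)))) .nil) (.I .tdb (.c 24 (.c 40 (.c 14832803796618313 (.c 32 .nil)))) .nil)) (.node (.I .tdb (.c 24 (.c 32 (.c 59109065668069837513 (.c 40 .nil)))) .nil) (.I .tdb (.c 24 (.c 32 (.c 14832759703961737 (.c 40 .nil)))) .nil))) (.node (.node (.I .tdb (.c 24 (.c 32 (.c 59109062884628932361 (.c 40 .nil)))) .nil) (.I .tdb (.c 24 (.c 32 (.c 35473026505481 (.c 40 .nil)))) .nil)) (.node (.I .tdb (.c 24 (.c 32 (.c 14629225721520329 (.c 40 .nil)))) .nil) (.I .tdb (.c 24 (.c 32 (.c 2487083360713 (.c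 40 .nil)))) .nil)))) (.node (.node (.node (.I .tdb (.c 32 (.c 40 (.c 14832759703961737 (.c 24 .nil)))) .nil) (.I .tdb (.c 32 (.c 40 (.c 14629225721520329 (.c 24 .nil)))) .nil)) (.node (.I .tdb (.c 32 (.c 40 (.c 9024839260612617 (.c 24 .nil)))) .nil) (.I .tdb (.c 32 (.c 40 (.c 35464401931273 (.c 24 .nil)))) .nil))) (.node (.node (.I .tdb (.c 32 (.c 40 (.c 2487083360713 (.c 24 .nil)))) .nil) (.I .tdb (.c 32 (.c 40 (.c 14832803796618313 (.c 24 .nil)))) .nil)) (.node (.I .tdb (.c 16 (.c 18433 (.c 24 (.c 32 .nil)))) (.b 12865 .nil)) (.I .tdb (.c 0 (.c 48 (.c 24 (.c 32 .nil)))) (.b 16 (.b 12865 .nil)))))))))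

noncomputable def c5_34 : Tr := (.node (.node (.node (.node (.node (.node (.I .tdb (.c 16 (.c 18433 (.c 24 (.c 40 .nil)))) (.b 8257 .nil)) (.I .tdb (.c 0 (.c 48 (.c 24 (.c 40 .nil)))) (.b 16 (.b 8257 .nil)))) (.node (.I .tdb (.c 0 (.c 48 (.c 24 (.c 21307459 .nil)))) (.b 16 .nil)) (.I .tdb (.c 2049 (.c 48 (.c 24 (.c 32 .nil)))) (.b 12865 .nil)))) (.node (.node (.I .tdb (.c 0 (.c 16 (.c 32 (.c 24 .nil)))) (.b 48 (.b 12865 .nil))) (.I .tdb (.c 2049 (.c 48 (.c 24 (.c 40 .nil)))) (.b 8257 .nil))) (.node (.I .tdb (.c 0 (.c 16 (.c 40 (.c 24 .nil)))) (.b 48 (.b 8257 .nil))) (.I .tdb (.c 2049 (.c 48 (.c 24 (.c 21307459 .nil)))) .nil)))) (.node (.node (.node (.I .tdb (.c 16 (.c 18433 (.c 32 (.c 21099075 .nil)))) .nil) (.I .tdb (.c 0 (.c 16 (.c 32 (.c 21099075 .nil)))) (.b 48 .nil))) (.node (.I .tdb (.c 4673 (.c 40 (.c 43059203 (.c 32 .nil)))) .nil) (.I .tdb (.c 8 (.c 24 (.c 32 (.c 43059203 .nil))))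 (.b 40 .nil)))) (.node (.node (.I .tdb (.c 0 (.c 48 (.c 8786499 (.c 40 .nil)))) (.b 16 .nil)) (.I .tdb (.c 0 (.c 16 (.c 8786499 (.c 40 .nil)))) (.b 48 .nil))) (.node (.I .tdb (.c 4673 (.c 32 (.c 40 (.c 43059203 .nil)))) .nil) (.I .tdb (.c 8 (.c 24 (.c 40 (.c 43059203 .nil)))) (.b 32 .nil)))))) (.node (.node (.node (.node (.I .tdb (.c 16 (.c 18433 (.c 8 (.c 40 .nil)))) (.b 8385 .nil)) (.I .tdb (.c 16 (.c 18433 (.c 8 (.c 21307587 .nil)))) .nil)) (.node (.I .tdb (.c 0 (.c 48 (.c 8 (.c 21307587 .nil)))) (.b 16 .nil)) (.I .tdb (.c 2049 (.c 48 (.c 8 (.c 32 .nil)))) (.b 12993 .nil)))) (.node (.node (.I .tdb (.c 0 (.c 16 (.c 32 (.c 8 .nil)))) (.b 48 (.b 12993 .nil))) (.I .tdb (.c 8 (.c 18433 (.c 24 (.c 32 .nil)))) (.b 12929 .nil))) (.node (.I .tdb (.c 16 (.c 40 (.c 2718203977 (.c 24 .nil)))) (.b 32 .nil)) (.I .tdb (.c 16 (.c 40 (.c 2105737 (.c 24 .nil)))) (.b 32 .nil))))) (.node (.node (.node (.I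 .tdb (.c 513 (.c 48 (.c 24 (.c 40 .nil)))) (.b 8321 .nil)) (.I .tdb (.c 0 (.c 8 (.c 24 (.c 40 .nil)))) (.b 48 (.b 8321 .nil)))) (.node (.I .tdb (.c 16 (.c 40 (.c 42762755 (.c 24 .nil)))) (.b 32 .nil)) (.I .tdb (.c 16 (.c 40 (.c 2718203977 (.c 32 .nil)))) (.b 24 .nil)))) (.node (.node (.I .tdb (.c 8 (.c 18433 (.c 32 (.c 40 .nil)))) (.b 4737 .nil)) (.I .tdb (.c 0 (.c 48 (.c 32 (.c 40 .nil)))) (.b 8 (.b 4737 .nil)))) (.node (.I .tdb (.c 8 (.c 18433 (.c 32 (.c 21099139 .nil)))) .nil) (.I .tdb (.c 0 (.c 48 (.c 32 (.c 21099139 .nil)))) (.b 8 .nil))))))) (.node (.node (.node (.node (.node (.I .tdb (.c 16 (.c 40 (.c 2105737 (.c 32 .nil)))) (.b 24 .nil)) (.I .tdb (.c 513 (.c 48 (.c 32 (.c 40 .nil)))) (.b 4737 .nil))) (.node (.I .tdb (.c 0 (.c 8 (.c 32 (.c 40 .nil)))) (.b 48 (.b 4737 .nil))) (.I .tdb (.c 0 (.c 8 (.c 32 (.c 21099139 .nil)))) (.b 48 .nil)))) (.node (.node (.I .tdb (.c 16 (.c 40 (.c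 42762755 (.c 32 .nil)))) (.b 24 .nil)) (.I .tdb (.c 24 (.c 32 (.c 12929 (.c 2718203977 .nil)))) .nil)) (.node (.I .tdb (.c 24 (.c 32 (.c 12929 (.c 2105737 .nil)))) .nil) (.I .tdb (.c 24 (.c 32 (.c 12929 (.c 42762755 .nil)))) .nil)))) (.node (.node (.node (.I .tdb (.c 0 (.c 48 (.c 8786563 (.c 40 .nil)))) (.b 8 .nil)) (.I .tdb (.c 0 (.c 8 (.c 8786563 (.c 40 .nil)))) (.b 48 .nil))) (.node (.I .tdb (.c 16 (.c 32 (.c 12993 (.c 2718203977 .nil)))) .nil) (.I .tdb (.c 24 (.c 40 (.c 2718203977 (.c 16 .nil)))) (.b 32 .nil)))) (.node (.node (.I .tdb (.c 24 (.c 40 (.c 2718203977 (.c 32 .nil)))) (.b 16 .nil)) (.I .tdb (.c 16 (.c 32 (.c 12993 (.c 2105737 .nil)))) .nil)) (.node (.I .tdb (.c 24 (.c 40 (.c 2105737 (.c 16 .nil)))) (.b 32 .nil)) (.I .tdb (.c 24 (.c 40 (.c 2105737 (.c 32 .nil)))) (.b 16 .nil)))))) (.node (.node (.node (.node (.I .tdb (.c 16 (.c 32 (.c 12993 (.c 42762755 .nil)))) .nil) (.I .tdb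 (.c 24 (.c 40 (.c 42762755 (.c 16 .nil)))) (.b 32 .nil))) (.node (.I .tdb (.c 24 (.c 40 (.c 42762755 (.c 32 .nil)))) (.b 16 .nil)) (.I .tdb (.c 16 (.c 24 (.c 13057 (.c 2718203977 .nil)))) .nil))) (.node (.node (.I .tdb (.c 32 (.c 40 (.c 2718203977 (.c 16 .nil)))) (.b 24 .nil)) (.I .tdb (.c 32 (.c 40 (.c 2718203977 (.c 24 .nil)))) (.b 16 .nil))) (.node (.I .tdb (.c 16 (.c 24 (.c 13057 (.c 2105737 .nil)))) .nil) (.I .tdb (.c 32 (.c 40 (.c 2105737 (.c 16 .nil)))) (.b 24 .nil))))) (.node (.node (.node (.I .tdb (.c 32 (.c 40 (.c 2105737 (.c 24 .nil)))) (.b 16 .nil)) (.I .tdb (.c 16 (.c 24 (.c 13057 (.c 42762755 .nil)))) .nil)) (.node (.I .tdb (.c 32 (.c 40 (.c 42762755 (.c 16 .nil)))) (.b 24 .nil)) (.I .tdb (.c 32 (.c 40 (.c 42762755 (.c 24 .nil)))) (.b 16 .nil)))) (.node (.node (.I .tdb (.c 8 (.c 18433 (.c 16 (.c 32 .nil)))) (.b 12993 .nil)) (.I .tdb (.c 8 (.c 18433 (.c 16 (.c 40 .nil)))) (.b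 8385 .nil))) (.node (.I .tdb (.c 0 (.c 48 (.c 16 (.c 40 .nil)))) (.b 8 (.b 8385 .nil))) (.I .tdb (.c 8 (.c 18433 (.c 16 (.c 21307587 .nil)))) .nil)))))))

noncomputable def c5_35 : Tr := (.node (.node (.node (.node (.node (.node (.I .tdb (.c 0 (.c 48 (.c 16 (.c 21307587 .nil)))) (.b 8 .nil)) (.I .tdb (.c 513 (.c 48 (.c 16 (.c 21307587 .nil)))) .nil)) (.node (.I .tdb (.c 0 (.c 8 (.c 16 (.c 21307587 .nil)))) (.b 48 .nil)) (.I .tdb (.c 0 (.c 48 (.c 16 (.c 32 .nil)))) (.b 174695753 .nil)))) (.node (.node (.I .tdb (.c 0 (.c 48 (.c 16 (.c 24 .nil)))) (.b 8257 (.b 40 .nil))) (.I .tdb (.c 8786499 (.c 40 (.c 18433 (.c 16 .nil)))) .nil)) (.node (.I .tdb (.c 8 (.c 21307587 (.c 18433 (.c 16 .nil)))) .nil) (.I .tdb (.c 32 (.c 20891715 (.c 18433 (.c 24 .nil)))) .nil)))) (.node (.node (.node (.I .tdb (.c 8652867 (.c 40 (.c 18433 (.c 24 .nil)))) .nil) (.I .tdb (.c 8 (.c 21307523 (.c 18433 (.c 24 .nil))))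 .nil)) (.node (.I .tdb (.c 0 (.c 48 (.c 32 (.c 40 .nil)))) (.b 2113 (.b 24 .nil))) (.I .tdb (.c 24 (.c 20891715 (.c 18433 (.c 32 .nil)))) .nil))) (.node (.node (.I .tdb (.c 8 (.c 21099139 (.c 18433 (.c 32 .nil)))) .nil) (.I .tdb (.c 8 (.c 40 (.c 18433 (.c 8786563 .nil)))) .nil)) (.node (.I .tdb (.c 32 (.c 2803779 (.c 18433 (.c 40 .nil)))) .nil) (.I .tdb (.c 16 (.c 40 (.c 18433 (.c 8786499 .nil)))) .nil))))) (.node (.node (.node (.node (.I .jac (.c 617611520074185 (.c 16 (.c 40 .nil))) (.b 8 .nil)) (.I .jac (.c 15246325749294153 (.c 16 (.c 40 .nil))) (.b 8 .nil))) (.node (.I .tdb (.c 0 (.c 48 (.c 8 (.c 40 .nil)))) (.b 4737 (.b 32 .nil))) (.I .jac (.c 3632040653488585 (.c 16 (.c 24 .nil))) (.b 8 .nil)))) (.node (.node (.I .tdb (.c 0 (.c 48 (.c 8 (.c 32 .nil)))) (.b 12929 (.b 24 .nil))) (.I .tdb (.c 0 (.c 48 (.c 8 (.c 40 .nil)))) (.b 8321 (.b 24 .nil)))) (.node (.I .jac (.c 3561346121425353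 (.c 16 (.c 32 .nil))) (.b 8 .nil)) (.I .jac (.c 15456253916349513 (.c 16 (.c 32 .nil))) (.b 8 .nil))))) (.node (.node (.node (.I .tdb (.c 8 (.c 24 (.c 21307523 (.c 18433 .nil)))) .nil) (.I .jac (.c 580749782704585 (.c 24 (.c 40 .nil))) (.b 16 .nil))) (.node (.I .jac (.c 15246236343241801 (.c 24 (.c 40 .nil))) (.b 16 .nil)) (.I .tdb (.c 0 (.c 48 (.c 8 (.c 32 .nil)))) (.b 12993 (.b 16 .nil))))) (.node (.node (.I .jac (.c 598967998054857 (.c 24 (.c 40 .nil))) (.b 8 .nil)) (.I .jac (.c 3423058053194185 (.c 24 (.c 32 .nil))) (.b 16 .nil))) (.node (.I .jac (.c 15456163896880201 (.c 24 (.c 32 .nil))) (.b 16 .nil)) (.I .jac (.c 3491688652046793 (.c 24 (.c 32 .nil))) (.b 8 .nil))))))) (.node (.node (.node (.node (.node (.I .jac (.c 15456208906582089 (.c 24 (.c 32 .nil))) (.b 8 .nil)) (.I .tdb (.c 0 (.c 48 (.c 8 (.c 24 .nil)))) (.b 1337272585 .nil))) (.node (.I .tdb (.c 0 (.c 48 (.c 8 (.c 32 .nil))))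 (.b 179513673 .nil)) (.I .tdb (.c 8786563 (.c 40 (.c 18433 (.c 8 .nil)))) .nil))) (.node (.node (.I .tdb (.c 16 (.c 21307587 (.c 18433 (.c 8 .nil)))) .nil) (.I .tdb (.c 32 (.c 12801 (.c 8 (.c 48 .nil)))) (.b 24 (.b 16 .nil)))) (.node (.I .tdb (.c 0 (.c 40 (.c 8 (.c 48 .nil)))) (.b 32 (.b 24 (.b 16 .nil)))) (.I .tdb (.c 40 (.c 8193 (.c 8 (.c 48 .nil)))) (.b 24 (.b 16 .nil)))))) (.node (.node (.node (.I .tdb (.c 0 (.c 32 (.c 8 (.c 48 .nil)))) (.b 40 (.b 24 (.b 16 .nil)))) (.I .tdb (.c 16 (.c 3632040653488393 (.c 8 (.c 48 .nil)))) .nil)) (.node (.I .tdb (.c 24 (.c 21307395 (.c 8 (.c 48 .nil)))) (.b 16 .nil)) (.I .tdb (.c 16 (.c 3561346121425225 (.c 8 (.c 48 .nil)))) .nil))) (.node (.node (.I .tdb (.c 24 (.c 8193 (.c 8 (.c 48 .nil)))) (.b 40 (.b 16 .nil))) (.I .tdb (.c 0 (.c 32 (.c 8 (.c 48 .nil)))) (.b 24 (.b 40 (.b 16 .nil))))) (.node (.I .tdb (.c 169943305 (.c 40 (.c 8 (.c 48 .nil)))) (.b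 16 .nil)) (.I .tdb (.c 4609 (.c 32 (.c 48 (.c 8 .nil)))) (.b 40 (.b 16 .nil))))))) (.node (.node (.node (.node (.I .tdb (.c 0 (.c 24 (.c 48 (.c 8 .nil)))) (.b 32 (.b 40 (.b 16 .nil)))) (.I .tdb (.c 8786435 (.c 40 (.c 8 (.c 48 .nil)))) (.b 16 .nil))) (.node (.I .tdb (.c 16 (.c 1310925065 (.c 8 (.c 48 .nil)))) (.b 24 .nil)) (.I .tdb (.c 32 (.c 12801 (.c 8 (.c 48 .nil)))) (.b 16 (.b 24 .nil))))) (.node (.node (.I .tdb (.c 0 (.c 40 (.c 8 (.c 48 .nil)))) (.b 32 (.b 16 (.b 24 .nil)))) (.I .tdb (.c 40 (.c 8193 (.c 8 (.c 48 .nil)))) (.b 16 (.b 24 .nil)))) (.node (.I .tdb (.c 0 (.c 32 (.c 8 (.c 48 .nil)))) (.b 40 (.b 16 (.b 24 .nil)))) (.I .tdb (.c 24 (.c 3632040653488329 (.c 8 (.c 48 .nil)))) .nil)))) (.node (.node (.node (.I .tdb (.c 24 (.c 3491688652046665 (.c 8 (.c 48 .nil)))) .nil) (.I .tdb (.c 40 (.c 537002121 (.c 8 (.c 48 .nil)))) (.b 24 .nil))) (.node (.I .tdb (.c 16 (.c 8193 (.c 8 (.c 48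 .nil)))) (.b 40 (.b 24 .nil))) (.I .tdb (.c 0 (.c 32 (.c 8 (.c 48 .nil)))) (.b 16 (.b 40 (.b 24 .nil)))))) (.node (.node (.I .tdb (.c 8652803 (.c 40 (.c 8 (.c 48 .nil)))) (.b 24 .nil)) (.I .tdb (.c 24 (.c 3632084291164233 (.c 8 (.c 48 .nil)))) .nil)) (.node (.I .tdb (.c 24 (.c 12801 (.c 8 (.c 48 .nil)))) (.b 16 (.b 32 .nil))) (.I .tdb (.c 0 (.c 40 (.c 8 (.c 48 .nil)))) (.b 24 (.b 16 (.b 32 .nil))))))))))

noncomputable def c5_36 : Tr := (.node (.node (.node (.node (.node (.node (.I .tdb (.c 4609 (.c 40 (.c 8 (.c 48 .nil)))) (.b 16 (.b 32 .nil))) (.I .tdb (.c 0 (.c 24 (.c 48 (.c 8 .nil)))) (.b 40 (.b 16 (.b 32 .nil))))) (.node (.I .tdb (.c 32 (.c 3561346121425097 (.c 8 (.c 48 .nil)))) .nil) (.I .tdb (.c 32 (.c 3491688652046601 (.c 8 (.c 48 .nil)))) .nil))) (.node (.node (.I .tdb (.c 24 (.c 20891651 (.c 8 (.c 48 .nil)))) (.b 32 .nil)) (.I .tdb (.c 24 (.c 2049 (.c 8 (.c 48 .nil)))) (.b 40 (.b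 32 .nil)))) (.node (.I .tdb (.c 0 (.c 16 (.c 48 (.c 8 .nil)))) (.b 24 (.b 40 (.b 32 .nil)))) (.I .tdb (.c 40 (.c 2803715 (.c 8 (.c 48 .nil)))) (.b 32 .nil))))) (.node (.node (.node (.I .tdb (.c 32 (.c 3561389332330569 (.c 8 (.c 48 .nil)))) .nil) (.I .tdb (.c 0 (.c 21099139 (.c 8 (.c 48 .nil)))) (.b 32 .nil))) (.node (.I .tdb (.c 8786563 (.c 12801 (.c 8 (.c 48 .nil)))) .nil) (.I .tdb (.c 0 (.c 40 (.c 8 (.c 48 .nil)))) (.b 8786563 .nil)))) (.node (.node (.I .tdb (.c 40 (.c 617611520073929 (.c 8 (.c 48 .nil)))) .nil) (.I .tdb (.c 16 (.c 8786435 (.c 8 (.c 48 .nil)))) (.b 40 .nil))) (.node (.I .tdb (.c 24 (.c 8652803 (.c 8 (.c 48 .nil)))) (.b 40 .nil)) (.I .tdb (.c 32 (.c 169943177 (.c 8 (.c 48 .nil)))) (.b 40 .nil)))))) (.node (.node (.node (.node (.I .tdb (.c 16 (.c 4609 (.c 8 (.c 48 .nil)))) (.b 32 (.b 40 .nil))) (.I .tdb (.c 0 (.c 24 (.c 48 (.c 8 .nil)))) (.b 16 (.b 32 (.b 40 .nil))))) (.node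 (.I .tdb (.c 0 (.c 8786563 (.c 8 (.c 48 .nil)))) (.b 40 .nil)) (.I .tdb (.c 4609 (.c 21307523 (.c 8 (.c 48 .nil)))) .nil))) (.node (.node (.I .tdb (.c 0 (.c 24 (.c 48 (.c 8 .nil)))) (.b 21307523 .nil)) (.I .tdb (.c 24 (.c 1310925065 (.c 16 (.c 48 .nil)))) (.b 8 .nil))) (.node (.I .tdb (.c 32 (.c 12801 (.c 16 (.c 48 .nil)))) (.b 24 (.b 8 .nil))) (.I .tdb (.c 0 (.c 40 (.c 16 (.c 48 .nil)))) (.b 32 (.b 24 (.b 8 .nil))))))) (.node (.node (.node (.I .tdb (.c 24 (.c 537002313 (.c 16 (.c 48 .nil)))) (.b 8 .nil)) (.I .tdb (.c 32 (.c 1310925001 (.c 16 (.c 48 .nil)))) (.b 8 .nil))) (.node (.I .tdb (.c 24 (.c 12801 (.c 16 (.c 48 .nil)))) (.b 32 (.b 8 .nil))) (.I .tdb (.c 0 (.c 40 (.c 16 (.c 48 .nil)))) (.b 24 (.b 32 (.b 8 .nil)))))) (.node (.node (.I .tdb (.c 8 (.c 3561346121425225 (.c 16 (.c 48 .nil)))) .nil) (.I .tdb (.c 32 (.c 21099011 (.c 16 (.c 48 .nil)))) (.b 8 .nil))) (.node (.I .tdb (.c 24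 (.c 8193 (.c 16 (.c 48 .nil)))) (.b 40 (.b 8 .nil))) (.I .tdb (.c 0 (.c 32 (.c 16 (.c 48 .nil)))) (.b 24 (.b 40 (.b 8 .nil))))))))) (.node (.node (.node (.node (.node (.I .tdb (.c 169943305 (.c 40 (.c 16 (.c 48 .nil)))) (.b 8 .nil)) (.I .tdb (.c 4609 (.c 32 (.c 48 (.c 16 .nil)))) (.b 40 (.b 8 .nil)))) (.node (.I .tdb (.c 0 (.c 24 (.c 48 (.c 16 .nil)))) (.b 32 (.b 40 (.b 8 .nil)))) (.I .tdb (.c 8 (.c 617611520074121 (.c 16 (.c 48 .nil)))) .nil))) (.node (.node (.I .tdb (.c 8 (.c 3632106110100553 (.c 16 (.c 48 .nil)))) .nil) (.I .tdb (.c 8 (.c 1310925065 (.c 16 (.c 48 .nil)))) (.b 24 .nil))) (.node (.I .tdb (.c 32 (.c 12801 (.c 16 (.c 48 .nil)))) (.b 8 (.b 24 .nil))) (.I .tdb (.c 0 (.c 40 (.c 16 (.c 48 .nil)))) (.b 32 (.b 8 (.b 24 .nil))))))) (.node (.node (.node (.I .tdb (.c 40 (.c 8193 (.c 16 (.c 48 .nil)))) (.b 8 (.b 24 .nil))) (.I .tdb (.c 0 (.c 32 (.c 16 (.c 48 .nil)))) (.b 40 (.b 8 (.b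 24 .nil))))) (.node (.I .tdb (.c 24 (.c 3632040653488265 (.c 16 (.c 48 .nil)))) .nil) (.I .tdb (.c 513 (.c 40 (.c 16 (.c 48 .nil)))) (.b 32 (.b 24 .nil))))) (.node (.node (.I .tdb (.c 0 (.c 8 (.c 16 (.c 48 .nil)))) (.b 40 (.b 32 (.b 24 .nil)))) (.I .tdb (.c 32 (.c 20685315 (.c 16 (.c 48 .nil)))) (.b 24 .nil))) (.node (.I .tdb (.c 40 (.c 537002057 (.c 16 (.c 48 .nil)))) (.b 24 .nil)) (.I .tdb (.c 8 (.c 8193 (.c 16 (.c 48 .nil)))) (.b 40 (.b 24 .nil))))))) (.node (.node (.node (.node (.I .tdb (.c 0 (.c 32 (.c 16 (.c 48 .nil)))) (.b 8 (.b 40 (.b 24 .nil)))) (.I .tdb (.c 2105609 (.c 40 (.c 16 (.c 48 .nil)))) (.b 24 .nil))) (.node (.I .tdb (.c 513 (.c 32 (.c 48 (.c 16 .nil)))) (.b 40 (.b 24 .nil))) (.I .tdb (.c 0 (.c 8 (.c 16 (.c 48 .nil)))) (.b 32 (.b 40 (.b 24 .nil)))))) (.node (.node (.I .tdb (.c 24 (.c 580749782704521 (.c 16 (.c 48 .nil)))) .nil) (.I .tdb (.c 4609 (.c 40 (.c 16 (.c 48 .nil))))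 (.b 8 (.b 32 .nil)))) (.node (.I .tdb (.c 0 (.c 24 (.c 48 (.c 16 .nil)))) (.b 40 (.b 8 (.b 32 .nil)))) (.I .tdb (.c 32 (.c 3561346121425033 (.c 16 (.c 48 .nil)))) .nil)))) (.node (.node (.node (.I .tdb (.c 24 (.c 1310924873 (.c 16 (.c 48 .nil)))) (.b 32 .nil)) (.I .tdb (.c 8 (.c 12801 (.c 16 (.c 48 .nil)))) (.b 24 (.b 32 .nil)))) (.node (.I .tdb (.c 0 (.c 40 (.c 16 (.c 48 .nil)))) (.b 8 (.b 24 (.b 32 .nil)))) (.I .tdb (.c 513 (.c 40 (.c 16 (.c 48 .nil)))) (.b 24 (.b 32 .nil))))) (.node (.node (.I .tdb (.c 0 (.c 8 (.c 16 (.c 48 .nil)))) (.b 40 (.b 24 (.b 32 .nil)))) (.I .tdb (.c 40 (.c 169943113 (.c 16 (.c 48 .nil)))) (.b 32 .nil))) (.node (.I .tdb (.c 2105545 (.c 40 (.c 16 (.c 48 .nil)))) (.b 32 .nil)) (.I .tdb (.c 513 (.c 24 (.c 48 (.c 16 .nil)))) (.b 40 (.b 32 .nil)))))))))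

noncomputable def c5_37 : Tr := (.node (.node (.node (.node (.node (.node (.I .tdb (.c 0 (.c 8 (.c 16 (.c 48 .nil)))) (.b 24 (.b 40 (.b 32 .nil)))) (.I .tdb (.c 8786499 (.c 12801 (.c 16 (.c 48 .nil)))) .nil)) (.node (.I .tdb (.c 0 (.c 40 (.c 16 (.c 48 .nil)))) (.b 8786499 .nil)) (.I .tdb (.c 40 (.c 617611520073865 (.c 16 (.c 48 .nil)))) .nil))) (.node (.node (.I .tdb (.c 24 (.c 2105609 (.c 16 (.c 48 .nil)))) (.b 40 .nil)) (.I .tdb (.c 24 (.c 8520195 (.c 16 (.c 48 .nil)))) (.b 40 .nil))) (.node (.I .tdb (.c 513 (.c 24 (.c 48 (.c 16 .nil)))) (.b 32 (.b 40 .nil))) (.I .tdb (.c 0 (.c 8 (.c 16 (.c 48 .nil)))) (.b 24 (.b 32 (.b 40 .nil))))))) (.node (.node (.node (.I .tdb (.c 40 (.c 59555558875465 (.c 16 (.c 48 .nil)))) .nil) (.I .tdb (.c 32 (.c 2728451 (.c 16 (.c 48 .nil)))) (.b 40 .nil))) (.node (.I .tdb (.c 40 (.c 617620517416009 (.c 16 (.c 48 .nil)))) .nil) (.I .tdb (.c 0 (.c 8786499 (.c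 16 (.c 48 .nil)))) (.b 40 .nil)))) (.node (.node (.I .tdb (.c 8193 (.c 21099075 (.c 16 (.c 48 .nil)))) .nil) (.I .tdb (.c 0 (.c 32 (.c 16 (.c 48 .nil)))) (.b 21099075 .nil))) (.node (.I .tdb (.c 8 (.c 48 (.c 16 (.c 32 .nil)))) (.b 12801 (.b 24 .nil))) (.I .tdb (.c 8 (.c 48 (.c 16 (.c 40 .nil)))) (.b 0 (.b 32 (.b 24 .nil)))))))) (.node (.node (.node (.node (.I .tdb (.c 24 (.c 21307395 (.c 18497 (.c 16 .nil)))) .nil) (.I .tdb (.c 8 (.c 48 (.c 16 (.c 24 .nil)))) (.b 21307395 .nil))) (.node (.I .tdb (.c 8 (.c 48 (.c 16 (.c 21307395 .nil)))) (.b 24 .nil)) (.I .tdb (.c 8 (.c 48 (.c 16 (.c 24 .nil)))) (.b 12801 (.b 32 .nil))))) (.node (.node (.I .tdb (.c 32 (.c 169943369 (.c 18497 (.c 16 .nil)))) .nil) (.I .tdb (.c 8 (.c 48 (.c 16 (.c 40 .nil)))) (.b 4609 (.b 32 .nil)))) (.node (.I .tdb (.c 32 (.c 21099011 (.c 18497 (.c 16 .nil)))) .nil) (.I .tdb (.c 8 (.c 48 (.c 16 (.c 32 .nil)))) (.b 21099011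 .nil))))) (.node (.node (.node (.I .tdb (.c 8 (.c 48 (.c 16 (.c 21099011 .nil)))) (.b 32 .nil)) (.I .tdb (.c 40 (.c 537002185 (.c 18497 (.c 16 .nil)))) .nil)) (.node (.I .tdb (.c 24 (.c 8193 (.c 18497 (.c 16 .nil)))) (.b 40 .nil)) (.I .tdb (.c 8 (.c 48 (.c 16 (.c 24 .nil)))) (.b 8193 (.b 40 .nil))))) (.node (.node (.I .tdb (.c 0 (.c 32 (.c 18497 (.c 16 .nil)))) (.b 24 (.b 40 .nil))) (.I .tdb (.c 8 (.c 48 (.c 16 (.c 32 .nil)))) (.b 0 (.b 24 (.b 40 .nil))))) (.node (.I .tdb (.c 169943305 (.c 40 (.c 18497 (.c 16 .nil)))) .nil) (.I .tdb (.c 4609 (.c 32 (.c 18497 (.c 16 .nil)))) (.b 40 .nil))))))) (.node (.node (.node (.node (.node (.I .tdb (.c 0 (.c 24 (.c 18497 (.c 16 .nil)))) (.b 32 (.b 40 .nil))) (.I .tdb (.c 8 (.c 48 (.c 0 (.c 16 .nil)))) (.b 24 (.b 32 (.b 40 .nil))))) (.node (.I .tdb (.c 8 (.c 48 (.c 16 (.c 24 .nil)))) (.b 0 (.b 32 (.b 40 .nil)))) (.I .tdb (.c 8 (.c 48 (.c 16 (.c 32 .nil))))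 (.b 4609 (.b 40 .nil))))) (.node (.node (.I .tdb (.c 8 (.c 48 (.c 16 (.c 40 .nil)))) (.b 169943305 .nil)) (.I .tdb (.c 8786435 (.c 40 (.c 18497 (.c 16 .nil)))) .nil)) (.node (.I .tdb (.c 8 (.c 48 (.c 16 (.c 8786435 .nil)))) (.b 40 .nil)) (.I .tdb (.c 8 (.c 48 (.c 16 (.c 40 .nil)))) (.b 8786435 .nil))))) (.node (.node (.node (.I .tdb (.c 0 (.c 21307587 (.c 18497 (.c 16 .nil)))) .nil) (.I .tdb (.c 8 (.c 48 (.c 16 (.c 21307587 .nil)))) (.b 0 .nil))) (.node (.I .tdb (.c 8 (.c 16 (.c 48 (.c 3561346121425225 .nil)))) .nil) (.I .tdb (.c 8 (.c 16 (.c 48 (.c 231045815314584521 .nil)))) .nil))) (.node (.node (.I .tdb (.c 8 (.c 16 (.c 48 (.c 617611520074121 .nil)))) .nil) (.I .tdb (.c 16 (.c 48 (.c 8 (.c 40 .nil)))) (.b 0 (.b 32 (.b 24 .nil))))) (.node (.I .tdb (.c 16 (.c 48 (.c 8 (.c 32 .nil)))) (.b 0 (.b 40 (.b 24 .nil)))) (.I .tdb (.c 24 (.c 21307395 (.c 18561 (.c 8 .nil)))) .nil))))) (.node (.node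 (.node (.node (.I .tdb (.c 16 (.c 48 (.c 8 (.c 24 .nil)))) (.b 21307395 .nil)) (.I .tdb (.c 16 (.c 48 (.c 8 (.c 21307395 .nil)))) (.b 24 .nil))) (.node (.I .tdb (.c 16 (.c 48 (.c 8 (.c 24 .nil)))) (.b 12801 (.b 32 .nil))) (.I .tdb (.c 32 (.c 169943369 (.c 18561 (.c 8 .nil)))) .nil))) (.node (.node (.I .tdb (.c 16 (.c 48 (.c 8 (.c 40 .nil)))) (.b 4609 (.b 32 .nil))) (.I .tdb (.c 16 (.c 48 (.c 8 (.c 40 .nil)))) (.b 537002185 .nil))) (.node (.I .tdb (.c 16 (.c 48 (.c 8 (.c 32 .nil)))) (.b 4609 (.b 40 .nil))) (.I .tdb (.c 8786435 (.c 40 (.c 18561 (.c 8 .nil)))) .nil)))) (.node (.node (.node (.I .tdb (.c 16 (.c 48 (.c 8 (.c 8786435 .nil)))) (.b 40 .nil)) (.I .tdb (.c 16 (.c 48 (.c 8 (.c 40 .nil)))) (.b 8786435 .nil))) (.node (.I .tdb (.c 0 (.c 21307587 (.c 18561 (.c 8 .nil)))) .nil) (.I .tdb (.c 16 (.c 48 (.c 8 (.c 21307587 .nil)))) (.b 0 .nil)))) (.node (.node (.I .tdb (.c 16 (.c 1310925065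 (.c 24 (.c 48 .nil)))) (.b 8 .nil)) (.I .tdb (.c 16 (.c 537002313 (.c 24 (.c 48 .nil)))) (.b 8 .nil))) (.node (.I .tdb (.c 40 (.c 8193 (.c 24 (.c 48 .nil)))) (.b 16 (.b 8 .nil))) (.I .tdb (.c 0 (.c 32 (.c 24 (.c 48 .nil)))) (.b 40 (.b 16 (.b 8 .nil))))))))))

noncomputable def c5_38 : Tr := (.node (.node (.node (.node (.node (.node (.I .tdb (.c 16 (.c 21307395 (.c 24 (.c 48 .nil)))) (.b 8 .nil)) (.I .tdb (.c 32 (.c 1310924937 (.c 24 (.c 48 .nil)))) (.b 8 .nil))) (.node (.I .tdb (.c 16 (.c 12801 (.c 24 (.c 48 .nil)))) (.b 32 (.b 8 .nil))) (.I .tdb (.c 0 (.c 40 (.c 24 (.c 48 .nil)))) (.b 16 (.b 32 (.b 8 .nil)))))) (.node (.node (.I .tdb (.c 2049 (.c 40 (.c 24 (.c 48 .nil)))) (.b 32 (.b 8 .nil))) (.I .tdb (.c 0 (.c 16 (.c 48 (.c 24 .nil)))) (.b 40 (.b 32 (.b 8 .nil))))) (.node (.I .tdb (.c 8 (.c 3491688652046665 (.c 24 (.c 48 .nil)))) .nil) (.I .tdb (.c 32 (.c 20891651 (.c 24 (.c 48 .nil))))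 (.b 8 .nil))))) (.node (.node (.node (.I .tdb (.c 40 (.c 537002121 (.c 24 (.c 48 .nil)))) (.b 8 .nil)) (.I .tdb (.c 8 (.c 598967998054793 (.c 24 (.c 48 .nil)))) .nil)) (.node (.I .tdb (.c 8652803 (.c 40 (.c 24 (.c 48 .nil)))) (.b 8 .nil)) (.I .tdb (.c 8 (.c 3632084291164233 (.c 24 (.c 48 .nil)))) .nil))) (.node (.node (.I .tdb (.c 32 (.c 12801 (.c 24 (.c 48 .nil)))) (.b 8 (.b 16 .nil))) (.I .tdb (.c 0 (.c 40 (.c 24 (.c 48 .nil)))) (.b 32 (.b 8 (.b 16 .nil))))) (.node (.I .tdb (.c 40 (.c 8193 (.c 24 (.c 48 .nil)))) (.b 8 (.b 16 .nil))) (.I .tdb (.c 0 (.c 32 (.c 24 (.c 48 .nil)))) (.b 40 (.b 8 (.b 16 .nil)))))))) (.node (.node (.node (.node (.I .tdb (.c 32 (.c 1310924873 (.c 24 (.c 48 .nil)))) (.b 16 .nil)) (.I .tdb (.c 8 (.c 12801 (.c 24 (.c 48 .nil)))) (.b 32 (.b 16 .nil)))) (.node (.I .tdb (.c 0 (.c 40 (.c 24 (.c 48 .nil)))) (.b 8 (.b 32 (.b 16 .nil)))) (.I .tdb (.c 32 (.c 2105673 (.c 24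 (.c 48 .nil)))) (.b 16 .nil)))) (.node (.node (.I .tdb (.c 16 (.c 3423058053194057 (.c 24 (.c 48 .nil)))) .nil) (.I .tdb (.c 40 (.c 537002057 (.c 24 (.c 48 .nil)))) (.b 16 .nil))) (.node (.I .tdb (.c 2105609 (.c 40 (.c 24 (.c 48 .nil)))) (.b 16 .nil)) (.I .tdb (.c 513 (.c 32 (.c 48 (.c 24 .nil)))) (.b 40 (.b 16 .nil)))))) (.node (.node (.node (.I .tdb (.c 0 (.c 8 (.c 24 (.c 48 .nil)))) (.b 32 (.b 40 (.b 16 .nil)))) (.I .tdb (.c 16 (.c 580749782704521 (.c 24 (.c 48 .nil)))) .nil)) (.node (.I .tdb (.c 8520195 (.c 40 (.c 24 (.c 48 .nil)))) (.b 16 .nil)) (.I .tdb (.c 16 (.c 3632062472293449 (.c 24 (.c 48 .nil)))) .nil))) (.node (.node (.I .tdb (.c 0 (.c 21307459 (.c 24 (.c 48 .nil)))) (.b 16 .nil)) (.I .tdb (.c 8 (.c 20891651 (.c 24 (.c 48 .nil)))) (.b 32 .nil))) (.node (.I .tdb (.c 16 (.c 1310924873 (.c 24 (.c 48 .nil)))) (.b 32 .nil)) (.I .tdb (.c 16 (.c 20685315 (.c 24 (.c 48 .nil)))) (.b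 32 .nil))))))) (.node (.node (.node (.node (.node (.I .tdb (.c 40 (.c 33587273 (.c 24 (.c 48 .nil)))) (.b 32 .nil)) (.I .tdb (.c 2105481 (.c 40 (.c 24 (.c 48 .nil)))) (.b 32 .nil))) (.node (.I .tdb (.c 32 (.c 2487083360649 (.c 24 (.c 48 .nil)))) .nil) (.I .tdb (.c 32 (.c 3491710045129801 (.c 24 (.c 48 .nil)))) .nil))) (.node (.node (.I .tdb (.c 0 (.c 20891715 (.c 24 (.c 48 .nil)))) (.b 32 .nil)) (.I .tdb (.c 8652867 (.c 12801 (.c 24 (.c 48 .nil)))) .nil)) (.node (.I .tdb (.c 0 (.c 40 (.c 24 (.c 48 .nil)))) (.b 8652867 .nil)) (.I .tdb (.c 2049 (.c 32 (.c 48 (.c 24 .nil)))) (.b 8 (.b 40 .nil)))))) (.node (.node (.node (.I .tdb (.c 0 (.c 16 (.c 48 (.c 24 .nil)))) (.b 32 (.b 8 (.b 40 .nil)))) (.I .tdb (.c 40 (.c 598967998054537 (.c 24 (.c 48 .nil)))) .nil)) (.node (.I .tdb (.c 8 (.c 8193 (.c 24 (.c 48 .nil)))) (.b 16 (.b 40 .nil))) (.I .tdb (.c 0 (.c 32 (.c 24 (.c 48 .nil)))) (.b 8 (.b 16 (.b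 40 .nil)))))) (.node (.node (.I .tdb (.c 16 (.c 2105609 (.c 24 (.c 48 .nil)))) (.b 40 .nil)) (.I .tdb (.c 40 (.c 580749782704329 (.c 24 (.c 48 .nil)))) .nil)) (.node (.I .tdb (.c 16 (.c 8520195 (.c 24 (.c 48 .nil)))) (.b 40 .nil)) (.I .tdb (.c 513 (.c 16 (.c 48 (.c 24 .nil)))) (.b 32 (.b 40 .nil))))))) (.node (.node (.node (.node (.I .tdb (.c 0 (.c 8 (.c 24 (.c 48 .nil)))) (.b 16 (.b 32 (.b 40 .nil)))) (.I .tdb (.c 40 (.c 2487083360585 (.c 24 (.c 48 .nil)))) .nil)) (.node (.I .tdb (.c 32 (.c 557571 (.c 24 (.c 48 .nil)))) (.b 40 .nil)) (.I .tdb (.c 40 (.c 598976858557513 (.c 24 (.c 48 .nil)))) .nil))) (.node (.node (.I .tdb (.c 2049 (.c 21307459 (.c 24 (.c 48 .nil)))) .nil) (.I .tdb (.c 0 (.c 16 (.c 48 (.c 24 .nil)))) (.b 21307459 .nil))) (.node (.I .tdb (.c 8 (.c 48 (.c 24 (.c 40 .nil)))) (.b 8193 (.b 16 .nil))) (.I .tdb (.c 8 (.c 48 (.c 0 (.c 24 .nil)))) (.b 32 (.b 40 (.b 16 .nil)))))))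 (.node (.node (.node (.I .tdb (.c 32 (.c 1310924937 (.c 18497 (.c 24 .nil)))) .nil) (.I .tdb (.c 16 (.c 12801 (.c 18497 (.c 24 .nil)))) (.b 32 .nil))) (.node (.I .tdb (.c 0 (.c 40 (.c 18497 (.c 24 .nil)))) (.b 16 (.b 32 .nil))) (.I .tdb (.c 8 (.c 48 (.c 0 (.c 24 .nil)))) (.b 40 (.b 16 (.b 32 .nil)))))) (.node (.node (.I .tdb (.c 32 (.c 33587529 (.c 18497 (.c 24 .nil)))) .nil) (.I .tdb (.c 8 (.c 48 (.c 24 (.c 32 .nil)))) (.b 20891651 .nil))) (.node (.I .tdb (.c 8 (.c 48 (.c 24 (.c 32 .nil)))) (.b 0 (.b 16 (.b 40 .nil)))) (.I .tdb (.c 8 (.c 48 (.c 24 (.c 40 .nil)))) (.b 33587465 .nil))))))))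

noncomputable def c5_39 : Tr := (.node (.node (.node (.node (.node (.node (.I .tdb (.c 8 (.c 48 (.c 24 (.c 8652803 .nil)))) (.b 40 .nil)) (.I .tdb (.c 0 (.c 21307523 (.c 18497 (.c 24 .nil)))) .nil)) (.node (.I .tdb (.c 8 (.c 48 (.c 0 (.c 24 .nil)))) (.b 21307523 .nil)) (.I .tdb (.c 8 (.c 24 (.c 48 (.c 3632040653488329 .nil)))) .nil))) (.node (.node (.I .tdb (.c 8 (.c 24 (.c 48 (.c 3491688652046665 .nil)))) .nil) (.I .tdb (.c 8 (.c 24 (.c 48 (.c 2306970223667989449 .nil)))) .nil)) (.node (.I .tdb (.c 24 (.c 48 (.c 8 (.c 40 .nil)))) (.b 0 (.b 32 (.b 16 .nil)))) (.I .tdb (.c 24 (.c 48 (.c 8 (.c 40 .nil)))) (.b 8193 (.b 16 .nil)))))) (.node (.node (.node (.I .tdb (.c 24 (.c 48 (.c 8 (.c 32 .nil)))) (.b 0 (.b 40 (.b 16 .nil)))) (.I .tdb (.c 16 (.c 21307395 (.c 18625 (.c 8 .nil)))) .nil)) (.node (.I .tdb (.c 24 (.c 48 (.c 8 (.c 32 .nil)))) (.b 1310924937 .nil)) (.I .tdb (.c 24 (.c 48 (.c 8 (.c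 16 .nil)))) (.b 12801 (.b 32 .nil))))) (.node (.node (.I .tdb (.c 24 (.c 48 (.c 8 (.c 40 .nil)))) (.b 0 (.b 16 (.b 32 .nil)))) (.I .tdb (.c 32 (.c 33587529 (.c 18625 (.c 8 .nil)))) .nil)) (.node (.I .tdb (.c 24 (.c 48 (.c 8 (.c 16 .nil)))) (.b 0 (.b 40 (.b 32 .nil)))) (.I .tdb (.c 24 (.c 48 (.c 8 (.c 40 .nil)))) (.b 2049 (.b 32 .nil))))))) (.node (.node (.node (.node (.I .tdb (.c 32 (.c 20891651 (.c 18625 (.c 8 .nil)))) .nil) (.I .tdb (.c 24 (.c 48 (.c 8 (.c 20891651 .nil)))) (.b 32 .nil))) (.node (.I .tdb (.c 40 (.c 537002121 (.c 18625 (.c 8 .nil)))) .nil) (.I .tdb (.c 24 (.c 48 (.c 8 (.c 40 .nil)))) (.b 537002121 .nil)))) (.node (.node (.I .tdb (.c 16 (.c 8193 (.c 18625 (.c 8 .nil)))) (.b 40 .nil)) (.I .tdb (.c 24 (.c 48 (.c 8 (.c 16 .nil)))) (.b 8193 (.b 40 .nil)))) (.node (.I .tdb (.c 0 (.c 32 (.c 18625 (.c 8 .nil)))) (.b 16 (.b 40 .nil))) (.I .tdb (.c 24 (.c 48 (.c 0 (.c 8 .nil))))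 (.b 32 (.b 16 (.b 40 .nil))))))) (.node (.node (.node (.I .tdb (.c 24 (.c 48 (.c 8 (.c 32 .nil)))) (.b 0 (.b 16 (.b 40 .nil)))) (.I .tdb (.c 33587465 (.c 40 (.c 18625 (.c 8 .nil)))) .nil)) (.node (.I .tdb (.c 2049 (.c 32 (.c 18625 (.c 8 .nil)))) (.b 40 .nil)) (.I .tdb (.c 0 (.c 16 (.c 18625 (.c 8 .nil)))) (.b 32 (.b 40 .nil))))) (.node (.node (.I .tdb (.c 24 (.c 48 (.c 0 (.c 8 .nil)))) (.b 16 (.b 32 (.b 40 .nil)))) (.I .tdb (.c 24 (.c 48 (.c 8 (.c 16 .nil)))) (.b 0 (.b 32 (.b 40 .nil))))) (.node (.I .tdb (.c 24 (.c 48 (.c 8 (.c 32 .nil)))) (.b 2049 (.b 40 .nil))) (.I .tdb (.c 8652803 (.c 40 (.c 18625 (.c 8 .nil)))) .nil)))))) (.node (.node (.node (.node (.node (.I .tdb (.c 24 (.c 48 (.c 8 (.c 40 .nil)))) (.b 8652803 .nil)) (.I .tdb (.c 24 (.c 48 (.c 8 (.c 21307523 .nil)))) (.b 0 .nil))) (.node (.I .jac (.c 12801 (.c 16 (.c 43655363 .nil))) (.b 8 .nil)) (.I .jac (.c 0 (.c 16 (.c 43954883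 .nil))) (.b 32 (.b 8 .nil))))) (.node (.node (.I .jac (.c 8193 (.c 16 (.c 43954883 .nil))) (.b 8 .nil)) (.I .tdb (.c 16 (.c 48 (.c 24 (.c 40 .nil)))) (.b 8193 (.b 8 .nil)))) (.node (.I .tdb (.c 32 (.c 1310924873 (.c 18561 (.c 24 .nil)))) .nil) (.I .tdb (.c 16 (.c 48 (.c 24 (.c 32 .nil)))) (.b 1310924873 .nil))))) (.node (.node (.node (.I .tdb (.c 8 (.c 12801 (.c 18561 (.c 24 .nil)))) (.b 32 .nil)) (.I .jac (.c 0 (.c 21099139 (.c 48 .nil))) (.b 8 (.b 32 .nil)))) (.node (.I .jac (.c 0 (.c 16 (.c 43954883 .nil))) (.b 8 (.b 32 .nil))) (.I .tdb (.c 0 (.c 40 (.c 18561 (.c 24 .nil)))) (.b 8 (.b 32 .nil))))) (.node (.node (.I .tdb (.c 16 (.c 48 (.c 0 (.c 24 .nil)))) (.b 40 (.b 8 (.b 32 .nil)))) (.I .tdb (.c 16 (.c 48 (.c 24 (.c 32 .nil)))) (.b 2105673 .nil))) (.node (.I .tdb (.c 32 (.c 20685315 (.c 18561 (.c 24 .nil)))) .nil) (.I .tdb (.c 16 (.c 48 (.c 24 (.c 20685315 .nil)))) (.b 32 .nil))))))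 (.node (.node (.node (.node (.I .tdb (.c 16 (.c 48 (.c 24 (.c 40 .nil)))) (.b 537002057 .nil)) (.I .jac (.c 0 (.c 16 (.c 43655363 .nil))) (.b 8 (.b 40 .nil)))) (.node (.I .tdb (.c 16 (.c 48 (.c 0 (.c 24 .nil)))) (.b 32 (.b 8 (.b 40 .nil)))) (.I .tdb (.c 16 (.c 48 (.c 24 (.c 32 .nil)))) (.b 0 (.b 8 (.b 40 .nil)))))) (.node (.node (.I .tdb (.c 16 (.c 48 (.c 24 (.c 40 .nil)))) (.b 2105609 .nil)) (.I .tdb (.c 16 (.c 48 (.c 24 (.c 8520195 .nil)))) (.b 40 .nil))) (.node (.I .tdb (.c 0 (.c 21307459 (.c 18561 (.c 24 .nil)))) .nil) (.I .tdb (.c 16 (.c 48 (.c 0 (.c 24 .nil)))) (.b 21307459 .nil))))) (.node (.node (.node (.I .tdb (.c 16 (.c 24 (.c 48 (.c 3632040653488265 .nil)))) .nil) (.I .tdb (.c 16 (.c 24 (.c 48 (.c 3423058053194057 .nil)))) .nil)) (.node (.I .tdb (.c 16 (.c 24 (.c 48 (.c 2306969673777850313 .nil)))) .nil) (.I .tdb (.c 16 (.c 24 (.c 48 (.c 35468714087369 .nil)))) .nil))) (.node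 (.node (.I .tdb (.c 16 (.c 24 (.c 48 (.c 580749782704521 .nil)))) .nil) (.I .jac (.c 0 (.c 43954819 (.c 24 .nil))) (.b 32 (.b 8 .nil)))) (.node (.I .tdb (.c 24 (.c 48 (.c 16 (.c 32 .nil)))) (.b 12801 (.b 8 .nil))) (.I .tdb (.c 24 (.c 48 (.c 16 (.c 40 .nil)))) (.b 0 (.b 32 (.b 8 .nil))))))))))

noncomputable def c5_40 : Tr := (.node (.node (.node (.node (.node (.node (.I .tdb (.c 8 (.c 21307395 (.c 18625 (.c 16 .nil)))) .nil) (.I .tdb (.c 32 (.c 1310924873 (.c 18625 (.c 16 .nil)))) .nil)) (.node (.I .tdb (.c 24 (.c 48 (.c 16 (.c 32 .nil)))) (.b 1310924873 .nil)) (.I .tdb (.c 8 (.c 12801 (.c 18625 (.c 16 .nil)))) (.b 32 .nil)))) (.node (.node (.I .jac (.c 0 (.c 43954819 (.c 24 .nil))) (.b 8 (.b 32 .nil))) (.I .tdb (.c 0 (.c 40 (.c 18625 (.c 16 .nil)))) (.b 8 (.b 32 .nil)))) (.node (.I .tdb (.c 24 (.c 48 (.c 0 (.c 16 .nil)))) (.b 40 (.b 8 (.b 32 .nil)))) (.I .tdb (.c 32 (.c 2105673 (.c 18625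 (.c 16 .nil)))) .nil)))) (.node (.node (.node (.I .tdb (.c 513 (.c 40 (.c 18625 (.c 16 .nil)))) (.b 32 .nil)) (.I .tdb (.c 0 (.c 8 (.c 16 (.c 18625 .nil)))) (.b 40 (.b 32 .nil)))) (.node (.I .tdb (.c 24 (.c 48 (.c 0 (.c 16 .nil)))) (.b 8 (.b 40 (.b 32 .nil)))) (.I .tdb (.c 32 (.c 20685315 (.c 18625 (.c 16 .nil)))) .nil))) (.node (.node (.I .tdb (.c 24 (.c 48 (.c 16 (.c 20685315 .nil)))) (.b 32 .nil)) (.I .tdb (.c 24 (.c 48 (.c 16 (.c 40 .nil)))) (.b 537002057 .nil))) (.node (.I .tdb (.c 24 (.c 48 (.c 16 (.c 40 .nil)))) (.b 2105609 .nil)) (.I .tdb (.c 8520195 (.c 40 (.c 18625 (.c 16 .nil)))) .nil))))) (.node (.node (.node (.node (.I .tdb (.c 4673 (.c 48 (.c 0 (.c 16 .nil)))) (.b 40 (.b 32 .nil))) (.I .tdb (.c 8 (.c 24 (.c 0 (.c 16 .nil)))) (.b 48 (.b 40 (.b 32 .nil))))) (.node (.I .tdb (.c 32 (.c 12801 (.c 43356739 (.c 16 .nil)))) .nil) (.I .tdb (.c 0 (.c 32 (.c 43356739 (.c 16 .nil)))) (.b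 40 .nil)))) (.node (.node (.I .tdb (.c 0 (.c 40 (.c 43059267 (.c 24 .nil)))) (.b 32 .nil)) (.I .tdb (.c 2113 (.c 48 (.c 24 (.c 21307395 .nil)))) .nil)) (.node (.I .tdb (.c 8 (.c 16 (.c 21307395 (.c 24 .nil)))) (.b 48 .nil)) (.I .tdb (.c 32 (.c 12801 (.c 16 (.c 48 .nil)))) (.b 4673 .nil))))) (.node (.node (.node (.I .tdb (.c 0 (.c 40 (.c 16 (.c 48 .nil)))) (.b 32 (.b 4673 .nil))) (.I .tdb (.c 32 (.c 12801 (.c 24 (.c 48 .nil)))) (.b 2113 .nil))) (.node (.I .tdb (.c 0 (.c 40 (.c 24 (.c 48 .nil)))) (.b 32 (.b 2113 .nil))) (.I .tdb (.c 40 (.c 8193 (.c 16 (.c 48 .nil)))) (.b 4673 .nil)))) (.node (.node (.I .tdb (.c 0 (.c 32 (.c 16 (.c 48 .nil)))) (.b 40 (.b 4673 .nil))) (.I .tdb (.c 40 (.c 8193 (.c 24 (.c 48 .nil)))) (.b 2113 .nil))) (.node (.I .tdb (.c 0 (.c 32 (.c 24 (.c 48 .nil)))) (.b 40 (.b 2113 .nil))) (.I .tdb (.c 0 (.c 32 (.c 48 (.c 2803779 .nil)))) (.b 40 .nil))))))) (.node (.node (.node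 (.node (.node (.I .tdb (.c 24 (.c 2113 (.c 21307395 (.c 48 .nil)))) .nil) (.I .tdb (.c 8 (.c 16 (.c 48 (.c 21307395 .nil)))) (.b 24 .nil))) (.node (.I .tdb (.c 8 (.c 16 (.c 21307395 (.c 18625 .nil)))) .nil) (.I .tdb (.c 0 (.c 32 (.c 43356803 (.c 8 .nil)))) (.b 40 .nil)))) (.node (.node (.I .tdb (.c 16 (.c 1310925001 (.c 32 (.c 48 .nil)))) (.b 8 .nil)) (.I .tdb (.c 24 (.c 12801 (.c 32 (.c 48 .nil)))) (.b 16 (.b 8 .nil)))) (.node (.I .tdb (.c 0 (.c 40 (.c 32 (.c 48 .nil)))) (.b 24 (.b 16 (.b 8 .nil)))) (.I .tdb (.c 4609 (.c 40 (.c 32 (.c 48 .nil)))) (.b 16 (.b 8 .nil)))))) (.node (.node (.node (.I .tdb (.c 0 (.c 24 (.c 32 (.c 48 .nil)))) (.b 40 (.b 16 (.b 8 .nil)))) (.I .tdb (.c 8 (.c 3561346121425097 (.c 32 (.c 48 .nil)))) .nil)) (.node (.I .tdb (.c 24 (.c 1310924937 (.c 32 (.c 48 .nil)))) (.b 8 .nil)) (.I .tdb (.c 8 (.c 3491688652046601 (.c 32 (.c 48 .nil)))) .nil))) (.node (.node (.I .tdb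 (.c 24 (.c 20891651 (.c 32 (.c 48 .nil)))) (.b 8 .nil)) (.I .tdb (.c 40 (.c 2803715 (.c 32 (.c 48 .nil)))) (.b 8 .nil))) (.node (.I .tdb (.c 24 (.c 12801 (.c 32 (.c 48 .nil)))) (.b 8 (.b 16 .nil))) (.I .tdb (.c 0 (.c 40 (.c 32 (.c 48 .nil)))) (.b 24 (.b 8 (.b 16 .nil)))))))) (.node (.node (.node (.node (.I .tdb (.c 16 (.c 3561346121425033 (.c 32 (.c 48 .nil)))) .nil) (.I .tdb (.c 8 (.c 21099011 (.c 32 (.c 48 .nil)))) (.b 16 .nil))) (.node (.I .tdb (.c 24 (.c 1310924873 (.c 32 (.c 48 .nil)))) (.b 16 .nil)) (.I .tdb (.c 24 (.c 2105673 (.c 32 (.c 48 .nil)))) (.b 16 .nil)))) (.node (.node (.I .tdb (.c 16 (.c 3423058053193993 (.c 32 (.c 48 .nil)))) .nil) (.I .tdb (.c 24 (.c 20685315 (.c 32 (.c 48 .nil)))) (.b 16 .nil))) (.node (.I .tdb (.c 40 (.c 169943113 (.c 32 (.c 48 .nil)))) (.b 16 .nil)) (.I .tdb (.c 8 (.c 4609 (.c 32 (.c 48 .nil)))) (.b 40 (.b 16 .nil)))))) (.node (.node (.node (.I .tdb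 (.c 0 (.c 24 (.c 32 (.c 48 .nil)))) (.b 8 (.b 40 (.b 16 .nil)))) (.I .tdb (.c 2105545 (.c 40 (.c 32 (.c 48 .nil)))) (.b 16 .nil))) (.node (.I .tdb (.c 513 (.c 24 (.c 48 (.c 32 .nil)))) (.b 40 (.b 16 .nil))) (.I .tdb (.c 0 (.c 8 (.c 32 (.c 48 .nil)))) (.b 24 (.b 40 (.b 16 .nil)))))) (.node (.node (.I .tdb (.c 16 (.c 59555558875529 (.c 32 (.c 48 .nil)))) .nil) (.I .tdb (.c 2728451 (.c 40 (.c 32 (.c 48 .nil)))) (.b 16 .nil))) (.node (.I .tdb (.c 0 (.c 21099075 (.c 32 (.c 48 .nil)))) (.b 16 .nil)) (.I .tdb (.c 8 (.c 20891651 (.c 32 (.c 48 .nil)))) (.b 24 .nil))))))))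

noncomputable def c5_41 : Tr := (.node (.node (.node (.node (.node (.node (.I .tdb (.c 513 (.c 40 (.c 32 (.c 48 .nil)))) (.b 16 (.b 24 .nil))) (.I .tdb (.c 0 (.c 8 (.c 32 (.c 48 .nil)))) (.b 40 (.b 16 (.b 24 .nil))))) (.node (.I .tdb (.c 24 (.c 3423058053193929 (.c 32 (.c 48 .nil)))) .nil) (.I .tdb (.c 40 (.c 33587273 (.c 32 (.c 48 .nil)))) (.b 24 .nil)))) (.node (.node (.I .tdb (.c 8 (.c 2049 (.c 32 (.c 48 .nil)))) (.b 40 (.b 24 .nil))) (.I .tdb (.c 0 (.c 16 (.c 32 (.c 48 .nil)))) (.b 8 (.b 40 (.b 24 .nil))))) (.node (.I .tdb (.c 2105481 (.c 40 (.c 32 (.c 48 .nil)))) (.b 24 .nil)) (.I .tdb (.c 513 (.c 16 (.c 48 (.c 32 .nil)))) (.b 40 (.b 24 .nil)))))) (.node (.node (.node (.I .tdb (.c 0 (.c 8 (.c 32 (.c 48 .nil)))) (.b 16 (.b 40 (.b 24 .nil)))) (.I .tdb (.c 24 (.c 2487083360649 (.c 32 (.c 48 .nil)))) .nil)) (.node (.I .tdb (.c 557571 (.c 40 (.c 32 (.c 48 .nil)))) (.b 24 .nil)) (.I .tdb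 (.c 24 (.c 3491710045129801 (.c 32 (.c 48 .nil)))) .nil))) (.node (.node (.I .tdb (.c 8 (.c 169943177 (.c 32 (.c 48 .nil)))) (.b 40 .nil)) (.I .tdb (.c 16 (.c 4609 (.c 32 (.c 48 .nil)))) (.b 8 (.b 40 .nil)))) (.node (.I .tdb (.c 0 (.c 24 (.c 32 (.c 48 .nil)))) (.b 16 (.b 8 (.b 40 .nil)))) (.I .tdb (.c 24 (.c 2049 (.c 32 (.c 48 .nil)))) (.b 8 (.b 40 .nil))))))) (.node (.node (.node (.node (.I .tdb (.c 0 (.c 16 (.c 32 (.c 48 .nil)))) (.b 24 (.b 8 (.b 40 .nil)))) (.I .tdb (.c 40 (.c 62886542409865 (.c 32 (.c 48 .nil)))) .nil)) (.node (.I .tdb (.c 8 (.c 2803715 (.c 32 (.c 48 .nil)))) (.b 40 .nil)) (.I .tdb (.c 16 (.c 169943113 (.c 32 (.c 48 .nil)))) (.b 40 .nil)))) (.node (.node (.I .tdb (.c 8 (.c 4609 (.c 32 (.c 48 .nil)))) (.b 16 (.b 40 .nil))) (.I .tdb (.c 0 (.c 24 (.c 32 (.c 48 .nil)))) (.b 8 (.b 16 (.b 40 .nil))))) (.node (.I .tdb (.c 24 (.c 33587273 (.c 32 (.c 48 .nil)))) (.b 40 .nil))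 (.I .tdb (.c 8 (.c 2049 (.c 32 (.c 48 .nil)))) (.b 24 (.b 40 .nil)))))) (.node (.node (.node (.I .tdb (.c 0 (.c 16 (.c 32 (.c 48 .nil)))) (.b 8 (.b 24 (.b 40 .nil)))) (.I .tdb (.c 513 (.c 16 (.c 48 (.c 32 .nil)))) (.b 24 (.b 40 .nil)))) (.node (.I .tdb (.c 0 (.c 8 (.c 32 (.c 48 .nil)))) (.b 16 (.b 24 (.b 40 .nil)))) (.I .tdb (.c 40 (.c 2487083360521 (.c 32 (.c 48 .nil)))) .nil))) (.node (.node (.I .tdb (.c 0 (.c 2803779 (.c 32 (.c 48 .nil)))) (.b 40 .nil)) (.I .tdb (.c 8 (.c 48 (.c 32 (.c 40 .nil)))) (.b 0 (.b 24 (.b 16 .nil))))) (.node (.I .tdb (.c 16 (.c 169943369 (.c 18497 (.c 32 .nil)))) .nil) (.I .tdb (.c 8 (.c 48 (.c 0 (.c 32 .nil)))) (.b 24 (.b 40 (.b 16 .nil))))))))) (.node (.node (.node (.node (.node (.I .tdb (.c 24 (.c 1310924937 (.c 18497 (.c 32 .nil)))) .nil) (.I .tdb (.c 16 (.c 12801 (.c 18497 (.c 32 .nil)))) (.b 24 .nil))) (.node (.I .tdb (.c 0 (.c 40 (.c 18497 (.c 32 .nil))))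 (.b 16 (.b 24 .nil))) (.I .tdb (.c 8 (.c 48 (.c 0 (.c 32 .nil)))) (.b 40 (.b 16 (.b 24 .nil)))))) (.node (.node (.I .tdb (.c 8 (.c 48 (.c 32 (.c 40 .nil)))) (.b 0 (.b 16 (.b 24 .nil)))) (.I .tdb (.c 24 (.c 33587529 (.c 18497 (.c 32 .nil)))) .nil)) (.node (.I .tdb (.c 8 (.c 48 (.c 32 (.c 40 .nil)))) (.b 2049 (.b 24 .nil))) (.I .tdb (.c 24 (.c 20891651 (.c 18497 (.c 32 .nil)))) .nil)))) (.node (.node (.node (.I .tdb (.c 8 (.c 48 (.c 32 (.c 20891651 .nil)))) (.b 24 .nil)) (.I .tdb (.c 40 (.c 169943177 (.c 18497 (.c 32 .nil)))) .nil)) (.node (.I .tdb (.c 16 (.c 4609 (.c 18497 (.c 32 .nil)))) (.b 40 .nil)) (.I .tdb (.c 0 (.c 24 (.c 32 (.c 18497 .nil)))) (.b 16 (.b 40 .nil))))) (.node (.node (.I .tdb (.c 8 (.c 48 (.c 0 (.c 32 .nil)))) (.b 24 (.b 16 (.b 40 .nil)))) (.I .tdb (.c 8 (.c 48 (.c 0 (.c 32 .nil)))) (.b 16 (.b 24 (.b 40 .nil))))) (.node (.I .tdb (.c 8 (.c 48 (.c 32 (.c 40 .nil)))) (.b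 2803715 .nil)) (.I .tdb (.c 0 (.c 21099139 (.c 18497 (.c 32 .nil)))) .nil))))) (.node (.node (.node (.node (.I .tdb (.c 8 (.c 32 (.c 3561346121425097 (.c 48 .nil)))) .nil) (.I .tdb (.c 8 (.c 32 (.c 62886542410121 (.c 48 .nil)))) .nil)) (.node (.I .tdb (.c 32 (.c 48 (.c 8 (.c 24 .nil)))) (.b 12801 (.b 16 .nil))) (.I .tdb (.c 32 (.c 48 (.c 8 (.c 40 .nil)))) (.b 0 (.b 24 (.b 16 .nil)))))) (.node (.node (.I .tdb (.c 16 (.c 169943369 (.c 18689 (.c 8 .nil)))) .nil) (.I .tdb (.c 32 (.c 48 (.c 8 (.c 40 .nil)))) (.b 4609 (.b 16 .nil)))) (.node (.I .tdb (.c 32 (.c 48 (.c 8 (.c 16 .nil)))) (.b 21099011 .nil)) (.I .tdb (.c 32 (.c 48 (.c 8 (.c 21099011 .nil)))) (.b 16 .nil))))) (.node (.node (.node (.I .tdb (.c 32 (.c 48 (.c 8 (.c 24 .nil)))) (.b 1310924937 .nil)) (.I .tdb (.c 32 (.c 48 (.c 8 (.c 16 .nil)))) (.b 12801 (.b 24 .nil)))) (.node (.I .tdb (.c 24 (.c 33587529 (.c 18689 (.c 8 .nil)))) .nil)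 (.I .tdb (.c 32 (.c 48 (.c 8 (.c 16 .nil)))) (.b 0 (.b 40 (.b 24 .nil)))))) (.node (.node (.I .tdb (.c 32 (.c 48 (.c 8 (.c 40 .nil)))) (.b 2049 (.b 24 .nil))) (.I .tdb (.c 24 (.c 20891651 (.c 18689 (.c 8 .nil)))) .nil)) (.node (.I .tdb (.c 32 (.c 48 (.c 8 (.c 24 .nil)))) (.b 20891651 .nil)) (.I .tdb (.c 32 (.c 48 (.c 8 (.c 20891651 .nil)))) (.b 24 .nil))))))))

noncomputable def c5_42 : Tr := (.node (.node (.node (.node (.node (.node (.I .tdb (.c 32 (.c 48 (.c 8 (.c 40 .nil)))) (.b 169943177 .nil)) (.I .tdb (.c 32 (.c 48 (.c 8 (.c 16 .nil)))) (.b 4609 (.b 40 .nil)))) (.node (.I .tdb (.c 32 (.c 48 (.c 8 (.c 16 .nil)))) (.b 0 (.b 24 (.b 40 .nil)))) (.I .tdb (.c 32 (.c 48 (.c 0 (.c 8 .nil)))) (.b 21099139 .nil)))) (.node (.node (.I .jac (.c 0 (.c 16 (.c 43954947 .nil))) (.b 24 (.b 8 .nil))) (.I .tdb (.c 16 (.c 48 (.c 32 (.c 40 .nil)))) (.b 0 (.b 24 (.b 8 .nil))))) (.node (.I .tdb (.c 8 (.c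 169943369 (.c 18561 (.c 32 .nil)))) .nil) (.I .jac (.c 4609 (.c 16 (.c 43954947 .nil))) (.b 8 .nil))))) (.node (.node (.node (.I .jac (.c 0 (.c 21307523 (.c 48 .nil))) (.b 8 (.b 24 .nil))) (.I .tdb (.c 16 (.c 48 (.c 32 (.c 40 .nil)))) (.b 0 (.b 8 (.b 24 .nil))))) (.node (.I .tdb (.c 24 (.c 2105673 (.c 18561 (.c 32 .nil)))) .nil) (.I .tdb (.c 513 (.c 40 (.c 18561 (.c 32 .nil)))) (.b 24 .nil)))) (.node (.node (.I .tdb (.c 0 (.c 8 (.c 32 (.c 18561 .nil)))) (.b 40 (.b 24 .nil))) (.I .tdb (.c 16 (.c 48 (.c 0 (.c 32 .nil)))) (.b 8 (.b 40 (.b 24 .nil))))) (.node (.I .tdb (.c 24 (.c 20685315 (.c 18561 (.c 32 .nil)))) .nil) (.I .tdb (.c 16 (.c 48 (.c 32 (.c 20685315 .nil)))) (.b 24 .nil)))))) (.node (.node (.node (.node (.I .tdb (.c 40 (.c 169943113 (.c 18561 (.c 32 .nil)))) .nil) (.I .tdb (.c 8 (.c 4609 (.c 18561 (.c 32 .nil)))) (.b 40 .nil))) (.node (.I .tdb (.c 0 (.c 24 (.c 32 (.c 18561 .nil))))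 (.b 8 (.b 40 .nil))) (.I .tdb (.c 16 (.c 48 (.c 32 (.c 40 .nil)))) (.b 2105545 .nil)))) (.node (.node (.I .tdb (.c 2728451 (.c 40 (.c 18561 (.c 32 .nil)))) .nil) (.I .tdb (.c 16 (.c 32 (.c 3561346121425033 (.c 48 .nil)))) .nil)) (.node (.I .tdb (.c 16 (.c 32 (.c 231045293249046473 (.c 48 .nil)))) .nil) (.I .tdb (.c 16 (.c 32 (.c 35466557976521 (.c 48 .nil)))) .nil)))) (.node (.node (.node (.I .tdb (.c 16 (.c 32 (.c 59555558875529 (.c 48 .nil)))) .nil) (.I .tdb (.c 16 (.c 32 (.c 3561367726845001 (.c 48 .nil)))) .nil)) (.node (.I .tdb (.c 32 (.c 48 (.c 16 (.c 24 .nil)))) (.b 12801 (.b 8 .nil))) (.I .tdb (.c 8 (.c 169943369 (.c 18689 (.c 16 .nil)))) .nil))) (.node (.node (.I .tdb (.c 32 (.c 48 (.c 16 (.c 40 .nil)))) (.b 4609 (.b 8 .nil))) (.I .tdb (.c 8 (.c 21099011 (.c 18689 (.c 16 .nil)))) .nil)) (.node (.I .tdb (.c 24 (.c 1310924873 (.c 18689 (.c 16 .nil)))) .nil) (.I .tdb (.c 8 (.c 12801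 (.c 18689 (.c 16 .nil)))) (.b 24 .nil))))))) (.node (.node (.node (.node (.node (.I .tdb (.c 0 (.c 40 (.c 18689 (.c 16 .nil)))) (.b 8 (.b 24 .nil))) (.I .tdb (.c 32 (.c 48 (.c 0 (.c 16 .nil)))) (.b 40 (.b 8 (.b 24 .nil))))) (.node (.I .tdb (.c 24 (.c 2105673 (.c 18689 (.c 16 .nil)))) .nil) (.I .tdb (.c 32 (.c 48 (.c 16 (.c 24 .nil)))) (.b 2105673 .nil)))) (.node (.node (.I .tdb (.c 513 (.c 40 (.c 18689 (.c 16 .nil)))) (.b 24 .nil)) (.I .tdb (.c 0 (.c 8 (.c 16 (.c 18689 .nil)))) (.b 40 (.b 24 .nil)))) (.node (.I .tdb (.c 32 (.c 48 (.c 0 (.c 16 .nil)))) (.b 8 (.b 40 (.b 24 .nil)))) (.I .tdb (.c 32 (.c 48 (.c 16 (.c 40 .nil)))) (.b 513 (.b 24 .nil)))))) (.node (.node (.node (.I .tdb (.c 24 (.c 20685315 (.c 18689 (.c 16 .nil)))) .nil) (.I .tdb (.c 32 (.c 48 (.c 16 (.c 20685315 .nil)))) (.b 24 .nil))) (.node (.I .tdb (.c 40 (.c 169943113 (.c 18689 (.c 16 .nil)))) .nil) (.I .jac (.c 0 (.c 43356803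 (.c 32 .nil))) (.b 8 (.b 40 .nil))))) (.node (.node (.I .tdb (.c 8 (.c 4609 (.c 18689 (.c 16 .nil)))) (.b 40 .nil)) (.I .tdb (.c 0 (.c 24 (.c 18689 (.c 16 .nil)))) (.b 8 (.b 40 .nil)))) (.node (.I .tdb (.c 32 (.c 48 (.c 0 (.c 16 .nil)))) (.b 24 (.b 8 (.b 40 .nil)))) (.I .tdb (.c 32 (.c 48 (.c 16 (.c 24 .nil)))) (.b 0 (.b 8 (.b 40 .nil)))))))) (.node (.node (.node (.node (.I .tdb (.c 2105545 (.c 40 (.c 18689 (.c 16 .nil)))) .nil) (.I .tdb (.c 513 (.c 24 (.c 18689 (.c 16 .nil)))) (.b 40 .nil))) (.node (.I .tdb (.c 0 (.c 8 (.c 16 (.c 18689 .nil)))) (.b 24 (.b 40 .nil))) (.I .tdb (.c 32 (.c 48 (.c 0 (.c 16 .nil)))) (.b 8 (.b 24 (.b 40 .nil)))))) (.node (.node (.I .tdb (.c 32 (.c 48 (.c 16 (.c 24 .nil)))) (.b 513 (.b 40 .nil))) (.I .tdb (.c 2728451 (.c 40 (.c 18689 (.c 16 .nil)))) .nil)) (.node (.I .tdb (.c 32 (.c 48 (.c 16 (.c 2728451 .nil)))) (.b 40 .nil)) (.I .tdb (.c 48 (.c 8257 (.c 16 (.c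 24 .nil)))) (.b 12801 .nil))))) (.node (.node (.node (.I .tdb (.c 8 (.c 32 (.c 16 (.c 24 .nil)))) (.b 48 (.b 12801 .nil))) (.I .tdb (.c 24 (.c 12801 (.c 43655235 (.c 16 .nil)))) .nil)) (.node (.I .tdb (.c 32 (.c 18497 (.c 0 (.c 16 .nil)))) (.b 24 (.b 40 .nil))) (.I .tdb (.c 0 (.c 24 (.c 43655235 (.c 16 .nil)))) (.b 40 .nil)))) (.node (.node (.I .tdb (.c 0 (.c 40 (.c 43059267 (.c 32 .nil)))) (.b 24 .nil)) (.I .tdb (.c 16 (.c 18497 (.c 0 (.c 32 .nil)))) (.b 24 (.b 40 .nil)))) (.node (.I .tdb (.c 4609 (.c 40 (.c 43059267 (.c 32 .nil)))) .nil) (.I .tdb (.c 0 (.c 24 (.c 32 (.c 43059267 .nil)))) (.b 40 .nil))))))))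

noncomputable def c5_43 : Tr := (.node (.node (.node (.node (.node (.node (.I .tdb (.c 2113 (.c 48 (.c 32 (.c 21099011 .nil)))) .nil) (.I .tdb (.c 8 (.c 16 (.c 32 (.c 21099011 .nil)))) (.b 48 .nil))) (.node (.I .tdb (.c 16 (.c 32 (.c 169943369 (.c 18497 .nil)))) .nil) (.I .tdb (.c 24 (.c 12801 (.c 16 (.c 48 .nil)))) (.b 8257 .nil)))) (.node (.node (.I .tdb (.c 0 (.c 40 (.c 16 (.c 48 .nil)))) (.b 24 (.b 8257 .nil))) (.I .tdb (.c 24 (.c 12801 (.c 32 (.c 48 .nil)))) (.b 2113 .nil))) (.node (.I .tdb (.c 0 (.c 40 (.c 32 (.c 48 .nil)))) (.b 24 (.b 2113 .nil))) (.I .tdb (.c 4609 (.c 40 (.c 32 (.c 48 .nil)))) (.b 2113 .nil))))) (.node (.node (.node (.I .tdb (.c 0 (.c 24 (.c 32 (.c 48 .nil)))) (.b 40 (.b 2113 .nil))) (.I .tdb (.c 2113 (.c 32 (.c 48 (.c 21099011 .nil)))) .nil)) (.node (.I .tdb (.c 8 (.c 16 (.c 48 (.c 21099011 .nil)))) (.b 32 .nil)) (.I .tdb (.c 8 (.c 32 (.c 169943369 (.c 18561 .nil))))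 .nil))) (.node (.node (.I .tdb (.c 8 (.c 16 (.c 169943369 (.c 18689 .nil)))) .nil) (.I .tdb (.c 8 (.c 16 (.c 21099011 (.c 18689 .nil)))) .nil)) (.node (.I .tdb (.c 24 (.c 12801 (.c 43655299 (.c 8 .nil)))) .nil) (.I .tdb (.c 4609 (.c 40 (.c 43655299 (.c 8 .nil)))) .nil))))) (.node (.node (.node (.node (.I .tdb (.c 8 (.c 1310924937 (.c 18625 (.c 32 .nil)))) .nil) (.I .tdb (.c 16 (.c 12801 (.c 18625 (.c 32 .nil)))) (.b 8 .nil))) (.node (.I .tdb (.c 0 (.c 40 (.c 18625 (.c 32 .nil)))) (.b 16 (.b 8 .nil))) (.I .tdb (.c 24 (.c 48 (.c 0 (.c 32 .nil)))) (.b 40 (.b 16 (.b 8 .nil)))))) (.node (.node (.I .tdb (.c 24 (.c 48 (.c 32 (.c 40 .nil)))) (.b 0 (.b 16 (.b 8 .nil)))) (.I .tdb (.c 8 (.c 33587529 (.c 18625 (.c 32 .nil)))) .nil)) (.node (.I .jac (.c 2049 (.c 21307587 (.c 48 .nil))) (.b 8 .nil)) (.I .jac (.c 2049 (.c 24 (.c 43954947 .nil))) (.b 8 .nil))))) (.node (.node (.node (.I .tdb (.c 24 (.c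 48 (.c 32 (.c 40 .nil)))) (.b 2049 (.b 8 .nil))) (.I .tdb (.c 8 (.c 20891651 (.c 18625 (.c 32 .nil)))) .nil)) (.node (.I .tdb (.c 24 (.c 48 (.c 32 (.c 20891651 .nil)))) (.b 8 .nil)) (.I .tdb (.c 24 (.c 48 (.c 32 (.c 40 .nil)))) (.b 0 (.b 8 (.b 16 .nil)))))) (.node (.node (.I .tdb (.c 16 (.c 2105673 (.c 18625 (.c 32 .nil)))) .nil) (.I .jac (.c 513 (.c 21307587 (.c 48 .nil))) (.b 16 .nil))) (.node (.I .jac (.c 513 (.c 24 (.c 43954947 .nil))) (.b 16 .nil)) (.I .tdb (.c 513 (.c 40 (.c 18625 (.c 32 .nil)))) (.b 16 .nil))))))) (.node (.node (.node (.node (.node (.I .tdb (.c 0 (.c 8 (.c 32 (.c 18625 .nil)))) (.b 40 (.b 16 .nil))) (.I .tdb (.c 24 (.c 48 (.c 0 (.c 32 .nil)))) (.b 8 (.b 40 (.b 16 .nil))))) (.node (.I .tdb (.c 16 (.c 20685315 (.c 18625 (.c 32 .nil)))) .nil) (.I .tdb (.c 24 (.c 48 (.c 32 (.c 20685315 .nil)))) (.b 16 .nil)))) (.node (.node (.I .tdb (.c 24 (.c 48 (.c 32 (.c 40 .nil))))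 (.b 33587273 .nil)) (.I .tdb (.c 24 (.c 48 (.c 32 (.c 40 .nil)))) (.b 2105481 .nil))) (.node (.I .tdb (.c 557571 (.c 40 (.c 18625 (.c 32 .nil)))) .nil) (.I .tdb (.c 24 (.c 48 (.c 32 (.c 40 .nil)))) (.b 557571 .nil))))) (.node (.node (.node (.I .tdb (.c 0 (.c 20891715 (.c 18625 (.c 32 .nil)))) .nil) (.I .tdb (.c 24 (.c 48 (.c 0 (.c 32 .nil)))) (.b 20891715 .nil))) (.node (.I .tdb (.c 24 (.c 48 (.c 32 (.c 20891715 .nil)))) (.b 0 .nil)) (.I .tdb (.c 24 (.c 32 (.c 3491688652046473 (.c 48 .nil)))) .nil))) (.node (.node (.I .tdb (.c 24 (.c 32 (.c 3423058053193929 (.c 48 .nil)))) .nil) (.I .tdb (.c 24 (.c 32 (.c 9024839260612553 (.c 48 .nil)))) .nil)) (.node (.I .tdb (.c 24 (.c 32 (.c 35464401931209 (.c 48 .nil)))) .nil) (.I .tdb (.c 24 (.c 32 (.c 3491710045129801 (.c 48 .nil)))) .nil))))) (.node (.node (.node (.node (.I .tdb (.c 8 (.c 1310924937 (.c 18689 (.c 24 .nil)))) .nil) (.I .tdb (.c 16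 (.c 12801 (.c 18689 (.c 24 .nil)))) (.b 8 .nil))) (.node (.I .tdb (.c 0 (.c 40 (.c 18689 (.c 24 .nil)))) (.b 16 (.b 8 .nil))) (.I .tdb (.c 32 (.c 48 (.c 0 (.c 24 .nil)))) (.b 40 (.b 16 (.b 8 .nil)))))) (.node (.node (.I .tdb (.c 8 (.c 33587529 (.c 18689 (.c 24 .nil)))) .nil) (.I .jac (.c 2049 (.c 43954883 (.c 32 .nil))) (.b 8 .nil))) (.node (.I .tdb (.c 16 (.c 1310924873 (.c 18689 (.c 24 .nil)))) .nil) (.I .tdb (.c 8 (.c 12801 (.c 18689 (.c 24 .nil)))) (.b 16 .nil))))) (.node (.node (.node (.I .tdb (.c 0 (.c 40 (.c 18689 (.c 24 .nil)))) (.b 8 (.b 16 .nil))) (.I .tdb (.c 32 (.c 48 (.c 0 (.c 24 .nil)))) (.b 40 (.b 8 (.b 16 .nil))))) (.node (.I .tdb (.c 32 (.c 48 (.c 24 (.c 40 .nil)))) (.b 513 (.b 16 .nil))) (.I .tdb (.c 16 (.c 20685315 (.c 18689 (.c 24 .nil)))) .nil))) (.node (.node (.I .tdb (.c 32 (.c 48 (.c 24 (.c 20685315 .nil)))) (.b 16 .nil)) (.I .tdb (.c 32 (.c 48 (.c 24 (.c 40 .nil))))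 (.b 33587273 .nil))) (.node (.I .tdb (.c 32 (.c 48 (.c 24 (.c 557571 .nil)))) (.b 40 .nil)) (.I .tdb (.c 0 (.c 20891715 (.c 18689 (.c 24 .nil)))) .nil)))))))

noncomputable def c5_44 : Tr := (.node (.node (.node (.node (.node (.node (.I .tdb (.c 32 (.c 48 (.c 0 (.c 24 .nil)))) (.b 20891715 .nil)) (.I .tdb (.c 32 (.c 48 (.c 24 (.c 20891715 .nil)))) (.b 0 .nil))) (.node (.I .tdb (.c 32 (.c 18497 (.c 0 (.c 24 .nil)))) (.b 40 (.b 16 .nil))) (.I .tdb (.c 16 (.c 12801 (.c 43655235 (.c 24 .nil)))) .nil))) (.node (.node (.I .tdb (.c 0 (.c 40 (.c 43655235 (.c 24 .nil)))) (.b 16 .nil)) (.I .tdb (.c 48 (.c 8257 (.c 0 (.c 24 .nil)))) (.b 16 (.b 40 .nil)))) (.node (.I .tdb (.c 8 (.c 32 (.c 0 (.c 24 .nil)))) (.b 48 (.b 16 (.b 40 .nil)))) (.I .tdb (.c 24 (.c 18497 (.c 0 (.c 32 .nil)))) (.b 40 (.b 16 .nil)))))) (.node (.node (.node (.I .tdb (.c 16 (.c 12801 (.c 43356739 (.c 32 .nil)))) .nil) (.I .tdb (.c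 0 (.c 40 (.c 43356739 (.c 32 .nil)))) (.b 16 .nil))) (.node (.I .tdb (.c 2049 (.c 40 (.c 43356739 (.c 32 .nil)))) .nil) (.I .tdb (.c 0 (.c 16 (.c 32 (.c 43356739 .nil)))) (.b 40 .nil)))) (.node (.node (.I .tdb (.c 4673 (.c 48 (.c 32 (.c 20891651 .nil)))) .nil) (.I .tdb (.c 8 (.c 24 (.c 32 (.c 20891651 .nil)))) (.b 48 .nil))) (.node (.I .tdb (.c 24 (.c 32 (.c 33587529 (.c 18497 .nil)))) .nil) (.I .tdb (.c 16 (.c 12801 (.c 24 (.c 48 .nil)))) (.b 8257 .nil)))))) (.node (.node (.node (.node (.I .tdb (.c 0 (.c 40 (.c 24 (.c 48 .nil)))) (.b 16 (.b 8257 .nil))) (.I .tdb (.c 0 (.c 40 (.c 8786499 (.c 48 .nil)))) (.b 16 .nil))) (.node (.I .tdb (.c 2049 (.c 40 (.c 24 (.c 48 .nil)))) (.b 8257 .nil)) (.I .tdb (.c 0 (.c 16 (.c 48 (.c 24 .nil)))) (.b 40 (.b 8257 .nil))))) (.node (.node (.I .tdb (.c 4673 (.c 32 (.c 48 (.c 20891651 .nil)))) .nil) (.I .tdb (.c 8 (.c 24 (.c 48 (.c 20891651 .nil)))) (.b 32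 .nil))) (.node (.I .tdb (.c 8 (.c 32 (.c 33587529 (.c 18625 .nil)))) .nil) (.I .tdb (.c 8 (.c 24 (.c 33587529 (.c 18689 .nil)))) .nil)))) (.node (.node (.node (.I .jac (.c 8520195 (.c 24 (.c 48 .nil))) (.b 16 (.b 40 .nil))) (.I .tdb (.c 2049 (.c 40 (.c 43655363 (.c 8 .nil)))) .nil)) (.node (.I .tdb (.c 0 (.c 16 (.c 43655363 (.c 8 .nil)))) (.b 40 .nil)) (.I .tdb (.c 8 (.c 12801 (.c 43655299 (.c 24 .nil)))) .nil))) (.node (.node (.I .jac (.c 8786435 (.c 16 (.c 48 .nil))) (.b 8 (.b 40 .nil))) (.I .tdb (.c 32 (.c 18561 (.c 0 (.c 24 .nil)))) (.b 8 (.b 40 .nil)))) (.node (.I .jac (.c 43356675 (.c 16 (.c 32 .nil))) (.b 8 (.b 40 .nil))) (.I .tdb (.c 0 (.c 8 (.c 24 (.c 43655299 .nil)))) (.b 40 .nil))))))) (.node (.node (.node (.node (.node (.I .jac (.c 43655171 (.c 16 (.c 24 .nil))) (.b 40 (.b 8 .nil))) (.I .jac (.c 18433 (.c 21307523 (.c 24 .nil))) (.b 8 .nil))) (.node (.I .jac (.c 0 (.c 16 (.c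 24 .nil))) (.b 43954947 (.b 8 .nil))) (.I .tdb (.c 0 (.c 40 (.c 43356803 (.c 32 .nil)))) (.b 8 .nil)))) (.node (.node (.I .tdb (.c 24 (.c 18561 (.c 0 (.c 32 .nil)))) (.b 8 (.b 40 .nil))) (.I .tdb (.c 513 (.c 40 (.c 43356803 (.c 32 .nil)))) .nil)) (.node (.I .tdb (.c 4737 (.c 48 (.c 32 (.c 20685315 .nil)))) .nil) (.I .tdb (.c 16 (.c 24 (.c 32 (.c 20685315 .nil)))) (.b 48 .nil))))) (.node (.node (.node (.I .tdb (.c 8 (.c 12801 (.c 32 (.c 48 .nil)))) (.b 4737 .nil)) (.I .tdb (.c 0 (.c 40 (.c 32 (.c 48 .nil)))) (.b 8 (.b 4737 .nil)))) (.node (.I .tdb (.c 513 (.c 40 (.c 24 (.c 48 .nil)))) (.b 8321 .nil)) (.I .tdb (.c 0 (.c 8 (.c 24 (.c 48 .nil)))) (.b 40 (.b 8321 .nil))))) (.node (.node (.I .tdb (.c 0 (.c 8 (.c 8786563 (.c 48 .nil)))) (.b 40 .nil)) (.I .tdb (.c 4737 (.c 32 (.c 48 (.c 20685315 .nil)))) .nil)) (.node (.I .tdb (.c 16 (.c 24 (.c 48 (.c 20685315 .nil)))) (.b 32 .nil)) (.I .jac (.c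 43059203 (.c 24 (.c 32 .nil))) (.b 40 (.b 8 .nil))))))) (.node (.node (.node (.node (.I .jac (.c 43059203 (.c 24 (.c 32 .nil))) (.b 8 (.b 40 .nil))) (.I .tdb (.c 513 (.c 40 (.c 43655363 (.c 16 .nil)))) .nil)) (.node (.I .tdb (.c 0 (.c 8 (.c 16 (.c 43655363 .nil)))) (.b 40 .nil)) (.I .tdb (.c 24 (.c 43655235 (.c 0 (.c 16 .nil)))) (.b 40 .nil)))) (.node (.node (.I .tdb (.c 0 (.c 40 (.c 15038454533713225 (.c 16 .nil)))) .nil) (.I .tdb (.c 0 (.c 40 (.c 617620517416393 (.c 16 .nil)))) .nil)) (.node (.I .tdb (.c 8786499 (.c 48 (.c 0 (.c 16 .nil)))) (.b 40 .nil)) (.I .tdb (.c 8786499 (.c 48 (.c 16 (.c 40 .nil)))) (.b 0 .nil))))) (.node (.node (.node (.I .tdb (.c 0 (.c 40 (.c 15246236343241929 (.c 24 .nil)))) .nil) (.I .tdb (.c 16 (.c 43655235 (.c 24 (.c 40 .nil)))) (.b 0 .nil))) (.node (.I .tdb (.c 0 (.c 40 (.c 14832803796618569 (.c 24 .nil)))) .nil) (.I .tdb (.c 32 (.c 43059267 (.c 24 (.c 40 .nil))))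 (.b 0 .nil)))) (.node (.node (.I .tdb (.c 0 (.c 40 (.c 598976858557897 (.c 24 .nil)))) .nil) (.I .tdb (.c 8652867 (.c 48 (.c 0 (.c 24 .nil)))) (.b 40 .nil))) (.node (.I .tdb (.c 8652867 (.c 48 (.c 24 (.c 40 .nil)))) (.b 0 .nil)) (.I .tdb (.c 8 (.c 43655299 (.c 0 (.c 24 .nil)))) (.b 40 .nil))))))))

noncomputable def c5_45 : Tr := (.node (.node (.node (.node (.node (.node (.I .tdb (.c 0 (.c 40 (.c 15038454533713097 (.c 32 .nil)))) .nil) (.I .tdb (.c 48 (.c 2803779 (.c 32 (.c 40 .nil)))) (.b 0 .nil))) (.node (.I .tdb (.c 0 (.c 40 (.c 15038498931046537 (.c 32 .nil)))) .nil) (.I .tdb (.c 8 (.c 43356803 (.c 0 (.c 32 .nil)))) (.b 40 .nil)))) (.node (.node (.I .tdb (.c 24 (.c 32 (.c 12801 (.c 43059267 .nil)))) .nil) (.I .jac (.c 0 (.c 21307459 (.c 48 .nil))) (.b 4737 .nil))) (.node (.I .jac (.c 0 (.c 8 (.c 43954947 .nil))) (.b 4737 .nil)) (.I .tdb (.c 0 (.c 40 (.c 18497 (.c 8786563 .nil)))) .nil))))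 (.node (.node (.node (.I .tdb (.c 8 (.c 48 (.c 0 (.c 8786563 .nil)))) (.b 40 .nil)) (.I .tdb (.c 8 (.c 48 (.c 8786563 (.c 40 .nil)))) (.b 0 .nil))) (.node (.I .tdb (.c 0 (.c 40 (.c 24 (.c 48 .nil)))) (.b 8257 (.b 16 .nil))) (.I .tdb (.c 0 (.c 40 (.c 16 (.c 48 .nil)))) (.b 4673 (.b 32 .nil))))) (.node (.node (.I .tdb (.c 0 (.c 40 (.c 18561 (.c 8786499 .nil)))) .nil) (.I .tdb (.c 16 (.c 48 (.c 0 (.c 8786499 .nil)))) (.b 40 .nil))) (.node (.I .tdb (.c 0 (.c 40 (.c 18625 (.c 8652867 .nil)))) .nil) (.I .tdb (.c 24 (.c 48 (.c 0 (.c 8652867 .nil)))) (.b 40 .nil)))))) (.node (.node (.node (.node (.I .tdb (.c 24 (.c 48 (.c 8652867 (.c 40 .nil)))) (.b 0 .nil)) (.I .tdb (.c 0 (.c 40 (.c 18689 (.c 2803779 .nil)))) .nil)) (.node (.I .tdb (.c 32 (.c 48 (.c 0 (.c 2803779 .nil)))) (.b 40 .nil)) (.I .tdb (.c 32 (.c 48 (.c 40 (.c 2803779 .nil)))) (.b 0 .nil)))) (.node (.node (.I .tdb (.c 8 (.c 16 (.c 12801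 (.c 43655363 .nil)))) .nil) (.I .tdb (.c 0 (.c 40 (.c 15246281046235401 (.c 8 .nil)))) .nil)) (.node (.I .tdb (.c 24 (.c 43655299 (.c 8 (.c 40 .nil)))) (.b 0 .nil)) (.I .tdb (.c 0 (.c 40 (.c 15038498931046729 (.c 8 .nil)))) .nil)))) (.node (.node (.node (.I .tdb (.c 0 (.c 40 (.c 617629514824137 (.c 8 .nil)))) .nil) (.I .tdb (.c 8786563 (.c 48 (.c 0 (.c 8 .nil)))) (.b 40 .nil))) (.node (.I .tdb (.c 8786563 (.c 48 (.c 8 (.c 40 .nil)))) (.b 0 .nil)) (.I .tdb (.c 8 (.c 617611520073929 (.c 40 (.c 48 .nil)))) .nil))) (.node (.node (.I .tdb (.c 16 (.c 8786435 (.c 40 (.c 48 .nil)))) (.b 8 .nil)) (.I .tdb (.c 16 (.c 8193 (.c 40 (.c 48 .nil)))) (.b 24 (.b 8 .nil)))) (.node (.I .tdb (.c 0 (.c 32 (.c 40 (.c 48 .nil)))) (.b 16 (.b 24 (.b 8 .nil)))) (.I .tdb (.c 2049 (.c 32 (.c 40 (.c 48 .nil)))) (.b 24 (.b 8 .nil)))))))) (.node (.node (.node (.node (.node (.I .tdb (.c 0 (.c 16 (.c 40 (.c 48 .nil))))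 (.b 32 (.b 24 (.b 8 .nil)))) (.I .tdb (.c 24 (.c 2049 (.c 40 (.c 48 .nil)))) (.b 32 (.b 8 .nil)))) (.node (.I .tdb (.c 0 (.c 16 (.c 40 (.c 48 .nil)))) (.b 24 (.b 32 (.b 8 .nil)))) (.I .tdb (.c 8 (.c 62886542410057 (.c 40 (.c 48 .nil)))) .nil))) (.node (.node (.I .tdb (.c 32 (.c 2803715 (.c 40 (.c 48 .nil)))) (.b 8 .nil)) (.I .tdb (.c 24 (.c 8193 (.c 40 (.c 48 .nil)))) (.b 8 (.b 16 .nil)))) (.node (.I .tdb (.c 0 (.c 32 (.c 40 (.c 48 .nil)))) (.b 24 (.b 8 (.b 16 .nil)))) (.I .tdb (.c 16 (.c 580749782704393 (.c 40 (.c 48 .nil)))) .nil)))) (.node (.node (.node (.I .tdb (.c 24 (.c 8520195 (.c 40 (.c 48 .nil)))) (.b 16 .nil)) (.I .tdb (.c 513 (.c 24 (.c 40 (.c 48 .nil)))) (.b 32 (.b 16 .nil)))) (.node (.I .tdb (.c 0 (.c 8 (.c 40 (.c 48 .nil)))) (.b 24 (.b 32 (.b 16 .nil)))) (.I .tdb (.c 16 (.c 59555558875465 (.c 40 (.c 48 .nil)))) .nil))) (.node (.node (.I .tdb (.c 32 (.c 2728451 (.c 40 (.c 48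 .nil)))) (.b 16 .nil)) (.I .tdb (.c 16 (.c 617620517416009 (.c 40 (.c 48 .nil)))) .nil)) (.node (.I .tdb (.c 0 (.c 8786499 (.c 40 (.c 48 .nil)))) (.b 16 .nil)) (.I .tdb (.c 16 (.c 8193 (.c 40 (.c 48 .nil)))) (.b 8 (.b 24 .nil))))))) (.node (.node (.node (.node (.I .tdb (.c 0 (.c 32 (.c 40 (.c 48 .nil)))) (.b 16 (.b 8 (.b 24 .nil)))) (.I .tdb (.c 24 (.c 598967998054537 (.c 40 (.c 48 .nil)))) .nil)) (.node (.I .tdb (.c 8 (.c 8652803 (.c 40 (.c 48 .nil)))) (.b 24 .nil)) (.I .tdb (.c 8 (.c 8193 (.c 40 (.c 48 .nil)))) (.b 16 (.b 24 .nil))))) (.node (.node (.I .tdb (.c 0 (.c 32 (.c 40 (.c 48 .nil)))) (.b 8 (.b 16 (.b 24 .nil)))) (.I .tdb (.c 513 (.c 32 (.c 40 (.c 48 .nil)))) (.b 16 (.b 24 .nil)))) (.node (.I .tdb (.c 0 (.c 8 (.c 40 (.c 48 .nil)))) (.b 32 (.b 16 (.b 24 .nil)))) (.I .tdb (.c 513 (.c 16 (.c 40 (.c 48 .nil)))) (.b 32 (.b 24 .nil)))))) (.node (.node (.node (.I .tdb (.c 0 (.c 8 (.c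 40 (.c 48 .nil)))) (.b 16 (.b 32 (.b 24 .nil)))) (.I .tdb (.c 2803779 (.c 8193 (.c 40 (.c 48 .nil)))) .nil)) (.node (.I .tdb (.c 0 (.c 32 (.c 40 (.c 48 .nil)))) (.b 2803779 .nil)) (.I .tdb (.c 24 (.c 2049 (.c 40 (.c 48 .nil)))) (.b 8 (.b 32 .nil))))) (.node (.node (.I .tdb (.c 0 (.c 16 (.c 40 (.c 48 .nil)))) (.b 24 (.b 8 (.b 32 .nil)))) (.I .tdb (.c 32 (.c 62886542409865 (.c 40 (.c 48 .nil)))) .nil)) (.node (.I .tdb (.c 8 (.c 2803715 (.c 40 (.c 48 .nil)))) (.b 32 .nil)) (.I .tdb (.c 16 (.c 169943113 (.c 40 (.c 48 .nil)))) (.b 32 .nil))))))))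

noncomputable def c5_46 : Tr := (.node (.node (.node (.node (.node (.node (.I .tdb (.c 24 (.c 33587273 (.c 40 (.c 48 .nil)))) (.b 32 .nil)) (.I .tdb (.c 8 (.c 2049 (.c 40 (.c 48 .nil)))) (.b 24 (.b 32 .nil)))) (.node (.I .tdb (.c 0 (.c 16 (.c 40 (.c 48 .nil)))) (.b 8 (.b 24 (.b 32 .nil)))) (.I .tdb (.c 513 (.c 16 (.c 40 (.c 48 .nil)))) (.b 24 (.b 32 .nil))))) (.node (.node (.I .tdb (.c 0 (.c 8 (.c 40 (.c 48 .nil)))) (.b 16 (.b 24 (.b 32 .nil)))) (.I .tdb (.c 16 (.c 537002185 (.c 18497 (.c 40 .nil)))) .nil)) (.node (.I .tdb (.c 24 (.c 8193 (.c 18497 (.c 40 .nil)))) (.b 16 .nil)) (.I .tdb (.c 0 (.c 32 (.c 18497 (.c 40 .nil)))) (.b 24 (.b 16 .nil)))))) (.node (.node (.node (.I .tdb (.c 8 (.c 48 (.c 0 (.c 40 .nil)))) (.b 32 (.b 24 (.b 16 .nil)))) (.I .tdb (.c 24 (.c 33587465 (.c 18497 (.c 40 .nil)))) .nil)) (.node (.I .tdb (.c 2049 (.c 32 (.c 40 (.c 18497 .nil)))) (.b 24 .nil)) (.I .tdb (.c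 0 (.c 16 (.c 40 (.c 18497 .nil)))) (.b 32 (.b 24 .nil))))) (.node (.node (.I .tdb (.c 8 (.c 48 (.c 0 (.c 40 .nil)))) (.b 16 (.b 32 (.b 24 .nil)))) (.I .tdb (.c 8 (.c 48 (.c 8652803 (.c 40 .nil)))) (.b 24 .nil))) (.node (.I .tdb (.c 32 (.c 169943177 (.c 18497 (.c 40 .nil)))) .nil) (.I .tdb (.c 16 (.c 4609 (.c 18497 (.c 40 .nil)))) (.b 32 .nil)))))) (.node (.node (.node (.node (.I .tdb (.c 0 (.c 24 (.c 40 (.c 18497 .nil)))) (.b 16 (.b 32 .nil))) (.I .tdb (.c 8 (.c 48 (.c 0 (.c 40 .nil)))) (.b 24 (.b 16 (.b 32 .nil))))) (.node (.I .tdb (.c 32 (.c 2803715 (.c 18497 (.c 40 .nil)))) .nil) (.I .tdb (.c 8 (.c 48 (.c 40 (.c 2803715 .nil)))) (.b 32 .nil)))) (.node (.node (.I .tdb (.c 16 (.c 169943305 (.c 12865 (.c 48 .nil)))) .nil) (.I .tdb (.c 8 (.c 40 (.c 16 (.c 48 .nil)))) (.b 169943305 .nil))) (.node (.I .tdb (.c 4609 (.c 32 (.c 48 (.c 12865 .nil)))) (.b 16 .nil)) (.I .tdb (.c 0 (.c 24 (.c 48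 (.c 12865 .nil)))) (.b 32 (.b 16 .nil)))))) (.node (.node (.node (.I .tdb (.c 8 (.c 40 (.c 0 (.c 48 .nil)))) (.b 24 (.b 32 (.b 16 .nil)))) (.I .tdb (.c 8 (.c 40 (.c 24 (.c 48 .nil)))) (.b 0 (.b 32 (.b 16 .nil))))) (.node (.I .tdb (.c 8 (.c 40 (.c 32 (.c 48 .nil)))) (.b 4609 (.b 16 .nil))) (.I .tdb (.c 24 (.c 537002121 (.c 12865 (.c 48 .nil)))) .nil))) (.node (.node (.I .tdb (.c 8 (.c 40 (.c 24 (.c 48 .nil)))) (.b 537002121 .nil)) (.I .tdb (.c 16 (.c 8193 (.c 12865 (.c 48 .nil)))) (.b 24 .nil))) (.node (.I .tdb (.c 8 (.c 40 (.c 16 (.c 48 .nil)))) (.b 8193 (.b 24 .nil))) (.I .tdb (.c 0 (.c 32 (.c 12865 (.c 48 .nil)))) (.b 16 (.b 24 .nil)))))))) (.node (.node (.node (.node (.node (.I .tdb (.c 8 (.c 40 (.c 0 (.c 48 .nil)))) (.b 32 (.b 16 (.b 24 .nil)))) (.I .tdb (.c 8 (.c 40 (.c 32 (.c 48 .nil)))) (.b 0 (.b 16 (.b 24 .nil))))) (.node (.I .tdb (.c 40 (.c 48 (.c 8 (.c 16 .nil)))) (.b 537002185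 .nil)) (.I .tdb (.c 40 (.c 48 (.c 8 (.c 32 .nil)))) (.b 0 (.b 24 (.b 16 .nil)))))) (.node (.node (.I .tdb (.c 40 (.c 48 (.c 8 (.c 16 .nil)))) (.b 169943305 .nil)) (.I .tdb (.c 40 (.c 48 (.c 8 (.c 32 .nil)))) (.b 4609 (.b 16 .nil)))) (.node (.I .tdb (.c 16 (.c 8786435 (.c 18753 (.c 8 .nil)))) .nil) (.I .tdb (.c 40 (.c 48 (.c 8 (.c 8786435 .nil)))) (.b 16 .nil))))) (.node (.node (.node (.I .tdb (.c 24 (.c 537002121 (.c 18753 (.c 8 .nil)))) .nil) (.I .tdb (.c 40 (.c 48 (.c 8 (.c 24 .nil)))) (.b 537002121 .nil))) (.node (.I .tdb (.c 16 (.c 8193 (.c 18753 (.c 8 .nil)))) (.b 24 .nil)) (.I .tdb (.c 40 (.c 48 (.c 8 (.c 16 .nil)))) (.b 8193 (.b 24 .nil))))) (.node (.node (.I .tdb (.c 0 (.c 32 (.c 18753 (.c 8 .nil)))) (.b 16 (.b 24 .nil))) (.I .tdb (.c 40 (.c 48 (.c 0 (.c 8 .nil)))) (.b 32 (.b 16 (.b 24 .nil))))) (.node (.I .tdb (.c 24 (.c 33587465 (.c 18753 (.c 8 .nil)))) .nil) (.I .tdb (.c 40 (.c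 48 (.c 8 (.c 24 .nil)))) (.b 33587465 .nil)))))) (.node (.node (.node (.node (.I .tdb (.c 2049 (.c 32 (.c 18753 (.c 8 .nil)))) (.b 24 .nil)) (.I .tdb (.c 0 (.c 16 (.c 18753 (.c 8 .nil)))) (.b 32 (.b 24 .nil)))) (.node (.I .tdb (.c 40 (.c 48 (.c 0 (.c 8 .nil)))) (.b 16 (.b 32 (.b 24 .nil)))) (.I .tdb (.c 40 (.c 48 (.c 8 (.c 16 .nil)))) (.b 0 (.b 32 (.b 24 .nil)))))) (.node (.node (.I .tdb (.c 40 (.c 48 (.c 8 (.c 32 .nil)))) (.b 2049 (.b 24 .nil))) (.I .tdb (.c 24 (.c 8652803 (.c 18753 (.c 8 .nil)))) .nil)) (.node (.I .tdb (.c 40 (.c 48 (.c 8 (.c 24 .nil)))) (.b 8652803 .nil)) (.I .tdb (.c 40 (.c 48 (.c 8 (.c 32 .nil)))) (.b 169943177 .nil))))) (.node (.node (.node (.I .tdb (.c 40 (.c 48 (.c 8 (.c 16 .nil)))) (.b 4609 (.b 32 .nil))) (.I .tdb (.c 40 (.c 48 (.c 8 (.c 16 .nil)))) (.b 0 (.b 24 (.b 32 .nil))))) (.node (.I .tdb (.c 40 (.c 48 (.c 8 (.c 32 .nil)))) (.b 2803715 .nil)) (.I .tdb (.c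 0 (.c 8786563 (.c 18753 (.c 8 .nil)))) .nil))) (.node (.node (.I .tdb (.c 40 (.c 48 (.c 0 (.c 8 .nil)))) (.b 8786563 .nil)) (.I .tdb (.c 8 (.c 537002185 (.c 18561 (.c 40 .nil)))) .nil)) (.node (.I .tdb (.c 24 (.c 8193 (.c 18561 (.c 40 .nil)))) (.b 8 .nil)) (.I .tdb (.c 0 (.c 32 (.c 18561 (.c 40 .nil)))) (.b 24 (.b 8 .nil)))))))))

noncomputable def c5_47 : Tr := (.node (.node (.node (.node (.node (.node (.I .tdb (.c 16 (.c 48 (.c 0 (.c 40 .nil)))) (.b 32 (.b 24 (.b 8 .nil)))) (.I .tdb (.c 24 (.c 537002057 (.c 18561 (.c 40 .nil)))) .nil)) (.node (.I .tdb (.c 8 (.c 8193 (.c 18561 (.c 40 .nil)))) (.b 24 .nil)) (.I .tdb (.c 0 (.c 32 (.c 18561 (.c 40 .nil)))) (.b 8 (.b 24 .nil))))) (.node (.node (.I .tdb (.c 16 (.c 48 (.c 0 (.c 40 .nil)))) (.b 32 (.b 8 (.b 24 .nil)))) (.I .tdb (.c 24 (.c 2105609 (.c 18561 (.c 40 .nil)))) .nil)) (.node (.I .tdb (.c 513 (.c 32 (.c 40 (.c 18561 .nil)))) (.b 24 .nil))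 (.I .tdb (.c 0 (.c 8 (.c 40 (.c 18561 .nil)))) (.b 32 (.b 24 .nil)))))) (.node (.node (.node (.I .tdb (.c 16 (.c 48 (.c 0 (.c 40 .nil)))) (.b 8 (.b 32 (.b 24 .nil)))) (.I .tdb (.c 16 (.c 48 (.c 8520195 (.c 40 .nil)))) (.b 24 .nil))) (.node (.I .tdb (.c 32 (.c 169943113 (.c 18561 (.c 40 .nil)))) .nil) (.I .tdb (.c 8 (.c 4609 (.c 18561 (.c 40 .nil)))) (.b 32 .nil)))) (.node (.node (.I .tdb (.c 0 (.c 24 (.c 40 (.c 18561 .nil)))) (.b 8 (.b 32 .nil))) (.I .tdb (.c 16 (.c 48 (.c 0 (.c 40 .nil)))) (.b 24 (.b 8 (.b 32 .nil))))) (.node (.I .tdb (.c 32 (.c 2728451 (.c 18561 (.c 40 .nil)))) .nil) (.I .tdb (.c 0 (.c 8786499 (.c 18561 (.c 40 .nil)))) .nil))))) (.node (.node (.node (.node (.I .tdb (.c 16 (.c 48 (.c 0 (.c 40 .nil)))) (.b 8786499 .nil)) (.I .jac (.c 8193 (.c 43356803 (.c 40 .nil))) (.b 8 .nil))) (.node (.I .jac (.c 0 (.c 43655299 (.c 40 .nil))) (.b 24 (.b 8 .nil))) (.I .tdb (.c 16 (.c 40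 (.c 24 (.c 48 .nil)))) (.b 8193 (.b 8 .nil))))) (.node (.node (.I .tdb (.c 16 (.c 40 (.c 0 (.c 48 .nil)))) (.b 32 (.b 24 (.b 8 .nil)))) (.I .tdb (.c 8 (.c 169943305 (.c 12929 (.c 48 .nil)))) .nil)) (.node (.I .tdb (.c 16 (.c 40 (.c 8 (.c 48 .nil)))) (.b 169943305 .nil)) (.I .tdb (.c 4609 (.c 32 (.c 48 (.c 12929 .nil)))) (.b 8 .nil))))) (.node (.node (.node (.I .tdb (.c 0 (.c 24 (.c 48 (.c 12929 .nil)))) (.b 32 (.b 8 .nil))) (.I .tdb (.c 16 (.c 40 (.c 0 (.c 48 .nil)))) (.b 24 (.b 32 (.b 8 .nil))))) (.node (.I .tdb (.c 16 (.c 40 (.c 24 (.c 48 .nil)))) (.b 0 (.b 32 (.b 8 .nil)))) (.I .tdb (.c 16 (.c 40 (.c 32 (.c 48 .nil)))) (.b 4609 (.b 8 .nil))))) (.node (.node (.I .tdb (.c 24 (.c 537002057 (.c 12929 (.c 48 .nil)))) .nil) (.I .tdb (.c 16 (.c 40 (.c 24 (.c 48 .nil)))) (.b 537002057 .nil))) (.node (.I .tdb (.c 8 (.c 8193 (.c 12929 (.c 48 .nil)))) (.b 24 .nil)) (.I .tdb (.c 16 (.c 40 (.c 8 (.c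 48 .nil)))) (.b 8193 (.b 24 .nil)))))))) (.node (.node (.node (.node (.node (.I .jac (.c 0 (.c 43655299 (.c 40 .nil))) (.b 8 (.b 24 .nil))) (.I .tdb (.c 0 (.c 32 (.c 12929 (.c 48 .nil)))) (.b 8 (.b 24 .nil)))) (.node (.I .tdb (.c 16 (.c 40 (.c 0 (.c 48 .nil)))) (.b 32 (.b 8 (.b 24 .nil)))) (.I .tdb (.c 16 (.c 40 (.c 32 (.c 48 .nil)))) (.b 0 (.b 8 (.b 24 .nil)))))) (.node (.node (.I .tdb (.c 24 (.c 2105609 (.c 12929 (.c 48 .nil)))) .nil) (.I .tdb (.c 16 (.c 40 (.c 24 (.c 48 .nil)))) (.b 2105609 .nil))) (.node (.I .tdb (.c 513 (.c 32 (.c 48 (.c 12929 .nil)))) (.b 24 .nil)) (.I .tdb (.c 0 (.c 8 (.c 48 (.c 12929 .nil)))) (.b 32 (.b 24 .nil)))))) (.node (.node (.node (.I .tdb (.c 16 (.c 40 (.c 0 (.c 48 .nil)))) (.b 8 (.b 32 (.b 24 .nil)))) (.I .tdb (.c 16 (.c 40 (.c 8 (.c 48 .nil)))) (.b 0 (.b 32 (.b 24 .nil))))) (.node (.I .tdb (.c 16 (.c 40 (.c 32 (.c 48 .nil)))) (.b 513 (.b 24 .nil))) (.I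 .tdb (.c 24 (.c 8520195 (.c 12929 (.c 48 .nil)))) .nil))) (.node (.node (.I .tdb (.c 16 (.c 40 (.c 24 (.c 48 .nil)))) (.b 8520195 .nil)) (.I .tdb (.c 16 (.c 40 (.c 8520195 (.c 48 .nil)))) (.b 24 .nil))) (.node (.I .tdb (.c 32 (.c 169943113 (.c 12929 (.c 48 .nil)))) .nil) (.I .tdb (.c 16 (.c 40 (.c 32 (.c 48 .nil)))) (.b 169943113 .nil)))))) (.node (.node (.node (.node (.I .tdb (.c 8 (.c 4609 (.c 12929 (.c 48 .nil)))) (.b 32 .nil)) (.I .tdb (.c 16 (.c 40 (.c 8 (.c 48 .nil)))) (.b 4609 (.b 32 .nil)))) (.node (.I .jac (.c 0 (.c 43356803 (.c 40 .nil))) (.b 8 (.b 32 .nil))) (.I .tdb (.c 0 (.c 24 (.c 48 (.c 12929 .nil)))) (.b 8 (.b 32 .nil))))) (.node (.node (.I .tdb (.c 16 (.c 40 (.c 0 (.c 48 .nil)))) (.b 24 (.b 8 (.b 32 .nil)))) (.I .tdb (.c 16 (.c 40 (.c 24 (.c 48 .nil)))) (.b 0 (.b 8 (.b 32 .nil))))) (.node (.I .tdb (.c 32 (.c 2105545 (.c 12929 (.c 48 .nil)))) .nil) (.I .tdb (.c 16 (.c 40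 (.c 32 (.c 48 .nil)))) (.b 2105545 .nil))))) (.node (.node (.node (.I .tdb (.c 513 (.c 24 (.c 48 (.c 12929 .nil)))) (.b 32 .nil)) (.I .tdb (.c 0 (.c 8 (.c 48 (.c 12929 .nil)))) (.b 24 (.b 32 .nil)))) (.node (.I .tdb (.c 16 (.c 40 (.c 0 (.c 48 .nil)))) (.b 8 (.b 24 (.b 32 .nil)))) (.I .tdb (.c 16 (.c 40 (.c 8 (.c 48 .nil)))) (.b 0 (.b 24 (.b 32 .nil)))))) (.node (.node (.I .tdb (.c 16 (.c 40 (.c 24 (.c 48 .nil)))) (.b 513 (.b 32 .nil))) (.I .tdb (.c 0 (.c 8786499 (.c 12929 (.c 48 .nil)))) .nil)) (.node (.I .tdb (.c 16 (.c 40 (.c 0 (.c 48 .nil)))) (.b 8786499 .nil)) (.I .tdb (.c 16 (.c 40 (.c 8786499 (.c 48 .nil)))) (.b 0 .nil))))))))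

noncomputable def c5_48 : Tr := (.node (.node (.node (.node (.node (.node (.I .tdb (.c 8 (.c 537002185 (.c 18753 (.c 16 .nil)))) .nil) (.I .tdb (.c 24 (.c 8193 (.c 18753 (.c 16 .nil)))) (.b 8 .nil))) (.node (.I .tdb (.c 40 (.c 48 (.c 16 (.c 24 .nil)))) (.b 8193 (.b 8 .nil))) (.I .tdb (.c 0 (.c 32 (.c 18753 (.c 16 .nil)))) (.b 24 (.b 8 .nil))))) (.node (.node (.I .tdb (.c 40 (.c 48 (.c 0 (.c 16 .nil)))) (.b 32 (.b 24 (.b 8 .nil)))) (.I .tdb (.c 40 (.c 48 (.c 16 (.c 32 .nil)))) (.b 0 (.b 24 (.b 8 .nil))))) (.node (.I .tdb (.c 8 (.c 169943305 (.c 18753 (.c 16 .nil)))) .nil) (.I .tdb (.c 4609 (.c 32 (.c 18753 (.c 16 .nil)))) (.b 8 .nil))))) (.node (.node (.node (.I .tdb (.c 0 (.c 24 (.c 18753 (.c 16 .nil)))) (.b 32 (.b 8 .nil))) (.I .tdb (.c 40 (.c 48 (.c 0 (.c 16 .nil)))) (.b 24 (.b 32 (.b 8 .nil))))) (.node (.I .tdb (.c 40 (.c 48 (.c 16 (.c 24 .nil)))) (.b 0 (.b 32 (.b 8 .nil)))) (.I .tdb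 (.c 8 (.c 8786435 (.c 18753 (.c 16 .nil)))) .nil))) (.node (.node (.I .tdb (.c 40 (.c 48 (.c 16 (.c 8786435 .nil)))) (.b 8 .nil)) (.I .tdb (.c 40 (.c 48 (.c 16 (.c 32 .nil)))) (.b 513 (.b 24 .nil)))) (.node (.I .tdb (.c 24 (.c 8520195 (.c 18753 (.c 16 .nil)))) .nil) (.I .tdb (.c 32 (.c 169943113 (.c 18753 (.c 16 .nil)))) .nil))))) (.node (.node (.node (.node (.I .tdb (.c 8 (.c 4609 (.c 18753 (.c 16 .nil)))) (.b 32 .nil)) (.I .tdb (.c 0 (.c 24 (.c 18753 (.c 16 .nil)))) (.b 8 (.b 32 .nil)))) (.node (.I .tdb (.c 40 (.c 48 (.c 0 (.c 16 .nil)))) (.b 24 (.b 8 (.b 32 .nil)))) (.I .tdb (.c 40 (.c 48 (.c 16 (.c 24 .nil)))) (.b 0 (.b 8 (.b 32 .nil)))))) (.node (.node (.I .tdb (.c 32 (.c 2105545 (.c 18753 (.c 16 .nil)))) .nil) (.I .tdb (.c 513 (.c 24 (.c 18753 (.c 16 .nil)))) (.b 32 .nil))) (.node (.I .tdb (.c 0 (.c 8 (.c 16 (.c 18753 .nil)))) (.b 24 (.b 32 .nil))) (.I .tdb (.c 40 (.c 48 (.c 0 (.c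 16 .nil)))) (.b 8 (.b 24 (.b 32 .nil))))))) (.node (.node (.node (.I .tdb (.c 40 (.c 48 (.c 16 (.c 24 .nil)))) (.b 513 (.b 32 .nil))) (.I .tdb (.c 32 (.c 2728451 (.c 18753 (.c 16 .nil)))) .nil)) (.node (.I .tdb (.c 40 (.c 48 (.c 16 (.c 2728451 .nil)))) (.b 32 .nil)) (.I .tdb (.c 0 (.c 8786499 (.c 18753 (.c 16 .nil)))) .nil))) (.node (.node (.I .tdb (.c 40 (.c 48 (.c 0 (.c 16 .nil)))) (.b 8786499 .nil)) (.I .tdb (.c 48 (.c 12865 (.c 16 (.c 32 .nil)))) (.b 0 (.b 24 .nil)))) (.node (.I .tdb (.c 8 (.c 40 (.c 16 (.c 32 .nil)))) (.b 48 (.b 0 (.b 24 .nil)))) (.I .tdb (.c 0 (.c 32 (.c 43954755 (.c 16 .nil)))) (.b 24 .nil))))))) (.node (.node (.node (.node (.node (.I .tdb (.c 4609 (.c 32 (.c 43954755 (.c 16 .nil)))) .nil) (.I .tdb (.c 4609 (.c 32 (.c 40 (.c 43059267 .nil)))) .nil)) (.node (.I .tdb (.c 16 (.c 12865 (.c 32 (.c 48 .nil)))) (.b 0 (.b 24 .nil))) (.I .tdb (.c 8 (.c 40 (.c 32 (.c 48 .nil))))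 (.b 16 (.b 0 (.b 24 .nil)))))) (.node (.node (.I .tdb (.c 24 (.c 8193 (.c 20891715 (.c 48 .nil)))) .nil) (.I .tdb (.c 0 (.c 32 (.c 20891715 (.c 48 .nil)))) (.b 24 .nil))) (.node (.I .tdb (.c 4609 (.c 32 (.c 43954819 (.c 8 .nil)))) .nil) (.I .tdb (.c 0 (.c 24 (.c 43954819 (.c 8 .nil)))) (.b 32 .nil))))) (.node (.node (.node (.I .tdb (.c 8 (.c 33587465 (.c 18625 (.c 40 .nil)))) .nil) (.I .tdb (.c 2049 (.c 32 (.c 40 (.c 18625 .nil)))) (.b 8 .nil))) (.node (.I .tdb (.c 0 (.c 16 (.c 40 (.c 18625 .nil)))) (.b 32 (.b 8 .nil))) (.I .tdb (.c 24 (.c 48 (.c 0 (.c 40 .nil)))) (.b 16 (.b 32 (.b 8 .nil)))))) (.node (.node (.I .tdb (.c 24 (.c 48 (.c 8652803 (.c 40 .nil)))) (.b 8 .nil)) (.I .tdb (.c 16 (.c 537002057 (.c 18625 (.c 40 .nil)))) .nil)) (.node (.I .tdb (.c 8 (.c 8193 (.c 18625 (.c 40 .nil)))) (.b 16 .nil)) (.I .tdb (.c 0 (.c 32 (.c 18625 (.c 40 .nil)))) (.b 8 (.b 16 .nil))))))) (.node (.node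 (.node (.node (.I .tdb (.c 24 (.c 48 (.c 0 (.c 40 .nil)))) (.b 32 (.b 8 (.b 16 .nil)))) (.I .tdb (.c 16 (.c 2105609 (.c 18625 (.c 40 .nil)))) .nil)) (.node (.I .tdb (.c 513 (.c 32 (.c 40 (.c 18625 .nil)))) (.b 16 .nil)) (.I .tdb (.c 0 (.c 8 (.c 40 (.c 18625 .nil)))) (.b 32 (.b 16 .nil))))) (.node (.node (.I .tdb (.c 24 (.c 48 (.c 0 (.c 40 .nil)))) (.b 8 (.b 32 (.b 16 .nil)))) (.I .tdb (.c 16 (.c 8520195 (.c 18625 (.c 40 .nil)))) .nil)) (.node (.I .tdb (.c 32 (.c 33587273 (.c 18625 (.c 40 .nil)))) .nil) (.I .tdb (.c 8 (.c 2049 (.c 18625 (.c 40 .nil)))) (.b 32 .nil))))) (.node (.node (.node (.I .tdb (.c 0 (.c 16 (.c 40 (.c 18625 .nil)))) (.b 8 (.b 32 .nil))) (.I .tdb (.c 24 (.c 48 (.c 0 (.c 40 .nil)))) (.b 16 (.b 8 (.b 32 .nil))))) (.node (.I .tdb (.c 32 (.c 2105481 (.c 18625 (.c 40 .nil)))) .nil) (.I .tdb (.c 513 (.c 16 (.c 40 (.c 18625 .nil)))) (.b 32 .nil)))) (.node (.node (.I .tdb (.c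 0 (.c 8 (.c 40 (.c 18625 .nil)))) (.b 16 (.b 32 .nil))) (.I .tdb (.c 24 (.c 48 (.c 0 (.c 40 .nil)))) (.b 8 (.b 16 (.b 32 .nil))))) (.node (.I .tdb (.c 24 (.c 48 (.c 557571 (.c 40 .nil)))) (.b 32 .nil)) (.I .tdb (.c 8 (.c 537002121 (.c 12993 (.c 48 .nil)))) .nil)))))))

noncomputable def c5_49 : Tr := (.node (.node (.node (.node (.node (.node (.I .tdb (.c 24 (.c 40 (.c 8 (.c 48 .nil)))) (.b 537002121 .nil)) (.I .tdb (.c 16 (.c 8193 (.c 12993 (.c 48 .nil)))) (.b 8 .nil))) (.node (.I .tdb (.c 24 (.c 40 (.c 16 (.c 48 .nil)))) (.b 8193 (.b 8 .nil))) (.I .tdb (.c 0 (.c 32 (.c 12993 (.c 48 .nil)))) (.b 16 (.b 8 .nil))))) (.node (.node (.I .tdb (.c 24 (.c 40 (.c 32 (.c 48 .nil)))) (.b 0 (.b 16 (.b 8 .nil)))) (.I .tdb (.c 16 (.c 537002057 (.c 12993 (.c 48 .nil)))) .nil)) (.node (.I .tdb (.c 24 (.c 40 (.c 16 (.c 48 .nil)))) (.b 537002057 .nil)) (.I .tdb (.c 8 (.c 8193 (.c 12993 (.c 48 .nil)))) (.b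 16 .nil))))) (.node (.node (.node (.I .tdb (.c 24 (.c 40 (.c 8 (.c 48 .nil)))) (.b 8193 (.b 16 .nil))) (.I .tdb (.c 0 (.c 32 (.c 12993 (.c 48 .nil)))) (.b 8 (.b 16 .nil)))) (.node (.I .tdb (.c 24 (.c 40 (.c 0 (.c 48 .nil)))) (.b 32 (.b 8 (.b 16 .nil)))) (.I .tdb (.c 24 (.c 40 (.c 32 (.c 48 .nil)))) (.b 0 (.b 8 (.b 16 .nil)))))) (.node (.node (.I .tdb (.c 16 (.c 2105609 (.c 12993 (.c 48 .nil)))) .nil) (.I .tdb (.c 24 (.c 40 (.c 16 (.c 48 .nil)))) (.b 2105609 .nil))) (.node (.I .jac (.c 513 (.c 43655363 (.c 40 .nil))) (.b 16 .nil)) (.I .tdb (.c 513 (.c 32 (.c 48 (.c 12993 .nil)))) (.b 16 .nil)))))) (.node (.node (.node (.node (.I .tdb (.c 0 (.c 8 (.c 48 (.c 12993 .nil)))) (.b 32 (.b 16 .nil))) (.I .tdb (.c 24 (.c 40 (.c 0 (.c 48 .nil)))) (.b 8 (.b 32 (.b 16 .nil))))) (.node (.I .tdb (.c 24 (.c 40 (.c 8 (.c 48 .nil)))) (.b 0 (.b 32 (.b 16 .nil)))) (.I .tdb (.c 24 (.c 40 (.c 32 (.c 48 .nil))))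 (.b 513 (.b 16 .nil))))) (.node (.node (.I .tdb (.c 32 (.c 33587273 (.c 12993 (.c 48 .nil)))) .nil) (.I .tdb (.c 24 (.c 40 (.c 32 (.c 48 .nil)))) (.b 33587273 .nil))) (.node (.I .tdb (.c 8 (.c 2049 (.c 12993 (.c 48 .nil)))) (.b 32 .nil)) (.I .tdb (.c 0 (.c 16 (.c 48 (.c 12993 .nil)))) (.b 8 (.b 32 .nil)))))) (.node (.node (.node (.I .tdb (.c 24 (.c 40 (.c 0 (.c 48 .nil)))) (.b 16 (.b 8 (.b 32 .nil)))) (.I .tdb (.c 24 (.c 40 (.c 16 (.c 48 .nil)))) (.b 0 (.b 8 (.b 32 .nil))))) (.node (.I .tdb (.c 32 (.c 2105481 (.c 12993 (.c 48 .nil)))) .nil) (.I .tdb (.c 24 (.c 40 (.c 32 (.c 48 .nil)))) (.b 2105481 .nil)))) (.node (.node (.I .tdb (.c 513 (.c 16 (.c 48 (.c 12993 .nil)))) (.b 32 .nil)) (.I .tdb (.c 0 (.c 8 (.c 48 (.c 12993 .nil)))) (.b 16 (.b 32 .nil)))) (.node (.I .tdb (.c 24 (.c 40 (.c 0 (.c 48 .nil)))) (.b 8 (.b 16 (.b 32 .nil)))) (.I .tdb (.c 24 (.c 40 (.c 8 (.c 48 .nil)))) (.b 0 (.b 16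 (.b 32 .nil))))))))) (.node (.node (.node (.node (.node (.I .tdb (.c 24 (.c 40 (.c 16 (.c 48 .nil)))) (.b 513 (.b 32 .nil))) (.I .tdb (.c 40 (.c 48 (.c 24 (.c 32 .nil)))) (.b 0 (.b 16 (.b 8 .nil))))) (.node (.I .tdb (.c 40 (.c 48 (.c 24 (.c 8652803 .nil)))) (.b 8 .nil)) (.I .tdb (.c 40 (.c 48 (.c 24 (.c 32 .nil)))) (.b 0 (.b 8 (.b 16 .nil)))))) (.node (.node (.I .tdb (.c 40 (.c 48 (.c 24 (.c 32 .nil)))) (.b 513 (.b 16 .nil))) (.I .tdb (.c 16 (.c 8520195 (.c 18753 (.c 24 .nil)))) .nil)) (.node (.I .tdb (.c 40 (.c 48 (.c 24 (.c 32 .nil)))) (.b 2105481 .nil)) (.I .tdb (.c 40 (.c 48 (.c 24 (.c 32 .nil)))) (.b 557571 .nil))))) (.node (.node (.node (.I .tdb (.c 40 (.c 48 (.c 24 (.c 557571 .nil)))) (.b 32 .nil)) (.I .tdb (.c 0 (.c 8652867 (.c 18753 (.c 24 .nil)))) .nil)) (.node (.I .tdb (.c 40 (.c 48 (.c 0 (.c 24 .nil)))) (.b 8652867 .nil)) (.I .tdb (.c 0 (.c 32 (.c 43954755 (.c 24 .nil)))) (.b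 16 .nil)))) (.node (.node (.I .tdb (.c 0 (.c 32 (.c 43356739 (.c 40 .nil)))) (.b 16 .nil)) (.I .tdb (.c 2049 (.c 32 (.c 40 (.c 43356739 .nil)))) .nil)) (.node (.I .tdb (.c 4673 (.c 48 (.c 8652803 (.c 40 .nil)))) .nil) (.I .tdb (.c 8 (.c 24 (.c 8652803 (.c 40 .nil)))) (.b 48 .nil)))))) (.node (.node (.node (.node (.I .tdb (.c 24 (.c 40 (.c 18497 (.c 8652803 .nil)))) .nil) (.I .tdb (.c 16 (.c 8193 (.c 21099075 (.c 48 .nil)))) .nil)) (.node (.I .tdb (.c 0 (.c 32 (.c 21099075 (.c 48 .nil)))) (.b 16 .nil)) (.I .tdb (.c 4673 (.c 40 (.c 8652803 (.c 48 .nil)))) .nil))) (.node (.node (.I .tdb (.c 8 (.c 24 (.c 8652803 (.c 48 .nil)))) (.b 40 .nil)) (.I .tdb (.c 8 (.c 40 (.c 18625 (.c 8652803 .nil)))) .nil)) (.node (.I .tdb (.c 8 (.c 24 (.c 8652803 (.c 18753 .nil)))) .nil) (.I .jac (.c 42762755 (.c 24 (.c 40 .nil))) (.b 32 (.b 16 .nil)))))) (.node (.node (.node (.I .tdb (.c 0 (.c 32 (.c 43954883 (.c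 8 .nil)))) (.b 16 .nil)) (.I .jac (.c 42762755 (.c 24 (.c 40 .nil))) (.b 16 (.b 32 .nil)))) (.node (.I .tdb (.c 0 (.c 16 (.c 43954883 (.c 8 .nil)))) (.b 32 .nil)) (.I .jac (.c 21099011 (.c 16 (.c 48 .nil))) (.b 32 (.b 8 .nil))))) (.node (.node (.I .jac (.c 0 (.c 16 (.c 40 .nil))) (.b 43655363 (.b 8 .nil))) (.I .tdb (.c 513 (.c 32 (.c 43954819 (.c 24 .nil)))) .nil)) (.node (.I .tdb (.c 0 (.c 32 (.c 43356803 (.c 40 .nil)))) (.b 8 .nil)) (.I .jac (.c 43954691 (.c 16 (.c 24 .nil))) (.b 8 (.b 32 .nil)))))))))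

noncomputable def c5_50 : Tr := (.node (.node (.node (.node (.node (.node (.I .tdb (.c 4737 (.c 48 (.c 0 (.c 40 .nil)))) (.b 8 (.b 32 .nil))) (.I .tdb (.c 16 (.c 24 (.c 40 (.c 0 .nil)))) (.b 48 (.b 8 (.b 32 .nil))))) (.node (.I .tdb (.c 513 (.c 32 (.c 40 (.c 43356803 .nil)))) .nil) (.I .tdb (.c 0 (.c 8 (.c 40 (.c 43356803 .nil)))) (.b 32 .nil)))) (.node (.node (.I .tdb (.c 4737 (.c 48 (.c 8520195 (.c 40 .nil)))) .nil) (.I .tdb (.c 16 (.c 24 (.c 8520195 (.c 40 .nil)))) (.b 48 .nil))) (.node (.I .tdb (.c 24 (.c 40 (.c 18561 (.c 8520195 .nil)))) .nil) (.I .tdb (.c 0 (.c 32 (.c 21099139 (.c 48 .nil)))) (.b 8 .nil))))) (.node (.node (.node (.I .tdb (.c 4737 (.c 40 (.c 0 (.c 48 .nil)))) (.b 8 (.b 32 .nil))) (.I .tdb (.c 16 (.c 24 (.c 48 (.c 0 .nil)))) (.b 40 (.b 8 (.b 32 .nil))))) (.node (.I .tdb (.c 0 (.c 8 (.c 48 (.c 21099139 .nil)))) (.b 32 .nil)) (.I .tdb (.c 4737 (.c 40 (.c 8520195 (.c 48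 .nil)))) .nil))) (.node (.node (.I .tdb (.c 16 (.c 24 (.c 8520195 (.c 48 .nil)))) (.b 40 .nil)) (.I .tdb (.c 16 (.c 40 (.c 18625 (.c 8520195 .nil)))) .nil)) (.node (.I .tdb (.c 16 (.c 24 (.c 8520195 (.c 18753 .nil)))) .nil) (.I .jac (.c 43059203 (.c 24 (.c 40 .nil))) (.b 32 (.b 8 .nil))))))) (.node (.node (.node (.node (.I .jac (.c 20891651 (.c 24 (.c 48 .nil))) (.b 8 (.b 32 .nil))) (.I .tdb (.c 513 (.c 32 (.c 43954883 (.c 16 .nil)))) .nil)) (.node (.I .tdb (.c 0 (.c 8 (.c 16 (.c 43954883 .nil)))) (.b 32 .nil)) (.I .tdb (.c 24 (.c 43954755 (.c 0 (.c 16 .nil)))) (.b 32 .nil)))) (.node (.node (.I .tdb (.c 0 (.c 32 (.c 15038454533713289 (.c 16 .nil)))) .nil) (.I .tdb (.c 0 (.c 32 (.c 15456163896880329 (.c 24 .nil)))) .nil)) (.node (.I .tdb (.c 16 (.c 43954755 (.c 24 (.c 32 .nil)))) (.b 0 .nil)) (.I .tdb (.c 0 (.c 32 (.c 14832803796618633 (.c 24 .nil)))) .nil)))) (.node (.node (.node (.I .tdb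 (.c 40 (.c 43059267 (.c 0 (.c 24 .nil)))) (.b 32 .nil)) (.I .tdb (.c 40 (.c 43059267 (.c 24 (.c 32 .nil)))) (.b 0 .nil))) (.node (.I .tdb (.c 2113 (.c 40 (.c 0 (.c 24 .nil)))) (.b 48 (.b 32 .nil))) (.I .tdb (.c 8 (.c 16 (.c 0 (.c 24 .nil)))) (.b 40 (.b 48 (.b 32 .nil)))))) (.node (.node (.I .tdb (.c 0 (.c 32 (.c 3491710045130185 (.c 24 .nil)))) .nil) (.I .tdb (.c 48 (.c 20891715 (.c 0 (.c 24 .nil)))) (.b 32 .nil))) (.node (.I .tdb (.c 0 (.c 32 (.c 15456208906582153 (.c 24 .nil)))) .nil) (.I .tdb (.c 8 (.c 43954819 (.c 0 (.c 24 .nil)))) (.b 32 .nil))))))) (.node (.node (.node (.node (.node (.I .tdb (.c 16 (.c 24 (.c 8193 (.c 43954755 .nil)))) .nil) (.I .tdb (.c 0 (.c 32 (.c 15038454533713097 (.c 40 .nil)))) .nil)) (.node (.I .tdb (.c 16 (.c 43356739 (.c 0 (.c 40 .nil)))) (.b 32 .nil)) (.I .tdb (.c 8 (.c 16 (.c 40 (.c 0 .nil)))) (.b 24 (.b 48 (.b 32 .nil)))))) (.node (.node (.I .tdb (.c 24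 (.c 2113 (.c 0 (.c 40 .nil)))) (.b 48 (.b 32 .nil))) (.I .tdb (.c 0 (.c 32 (.c 62889413447113 (.c 40 .nil)))) .nil)) (.node (.I .tdb (.c 0 (.c 32 (.c 15038498931046537 (.c 40 .nil)))) .nil) (.I .tdb (.c 8 (.c 43356803 (.c 0 (.c 40 .nil)))) (.b 32 .nil))))) (.node (.node (.node (.I .tdb (.c 0 (.c 32 (.c 12929 (.c 43356739 .nil)))) .nil) (.I .tdb (.c 16 (.c 40 (.c 43356739 (.c 0 .nil)))) (.b 32 .nil))) (.node (.I .tdb (.c 16 (.c 40 (.c 43356739 (.c 32 .nil)))) (.b 0 .nil)) (.I .tdb (.c 0 (.c 32 (.c 21099139 (.c 18497 .nil)))) .nil))) (.node (.node (.I .tdb (.c 24 (.c 20891715 (.c 0 (.c 48 .nil)))) (.b 32 .nil)) (.I .tdb (.c 8 (.c 24 (.c 48 (.c 0 .nil)))) (.b 16 (.b 40 (.b 32 .nil))))) (.node (.I .tdb (.c 16 (.c 4673 (.c 0 (.c 48 .nil)))) (.b 40 (.b 32 .nil))) (.I .tdb (.c 0 (.c 32 (.c 18753 (.c 2803779 .nil)))) .nil))))) (.node (.node (.node (.node (.I .tdb (.c 40 (.c 48 (.c 0 (.c 2803779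 .nil)))) (.b 32 .nil)) (.I .tdb (.c 24 (.c 43954819 (.c 8 (.c 32 .nil)))) (.b 0 .nil))) (.node (.I .tdb (.c 0 (.c 32 (.c 15038498931046793 (.c 8 .nil)))) .nil) (.I .tdb (.c 40 (.c 43356803 (.c 0 (.c 8 .nil)))) (.b 32 .nil)))) (.node (.node (.I .tdb (.c 48 (.c 21099139 (.c 0 (.c 8 .nil)))) (.b 32 .nil)) (.I .tdb (.c 48 (.c 21099139 (.c 8 (.c 32 .nil)))) (.b 0 .nil))) (.node (.I .tdb (.c 16 (.c 43954883 (.c 0 (.c 8 .nil)))) (.b 32 .nil)) (.I .tdb (.c 8 (.c 169943177 (.c 18689 (.c 40 .nil)))) .nil)))) (.node (.node (.node (.I .tdb (.c 16 (.c 4609 (.c 18689 (.c 40 .nil)))) (.b 8 .nil)) (.I .tdb (.c 0 (.c 24 (.c 40 (.c 18689 .nil)))) (.b 16 (.b 8 .nil)))) (.node (.I .tdb (.c 32 (.c 48 (.c 0 (.c 40 .nil)))) (.b 24 (.b 16 (.b 8 .nil)))) (.I .tdb (.c 16 (.c 169943113 (.c 18689 (.c 40 .nil)))) .nil))) (.node (.node (.I .tdb (.c 8 (.c 4609 (.c 18689 (.c 40 .nil)))) (.b 16 .nil)) (.I .tdb (.c 0 (.c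 24 (.c 40 (.c 18689 .nil)))) (.b 8 (.b 16 .nil)))) (.node (.I .tdb (.c 32 (.c 48 (.c 0 (.c 40 .nil)))) (.b 24 (.b 8 (.b 16 .nil)))) (.I .tdb (.c 16 (.c 2105545 (.c 18689 (.c 40 .nil)))) .nil)))))))

noncomputable def c5_51 : Tr := (.node (.node (.node (.node (.node (.node (.I .tdb (.c 513 (.c 24 (.c 40 (.c 18689 .nil)))) (.b 16 .nil)) (.I .tdb (.c 0 (.c 8 (.c 40 (.c 18689 .nil)))) (.b 24 (.b 16 .nil)))) (.node (.I .tdb (.c 32 (.c 48 (.c 0 (.c 40 .nil)))) (.b 8 (.b 24 (.b 16 .nil)))) (.I .tdb (.c 16 (.c 2728451 (.c 18689 (.c 40 .nil)))) .nil))) (.node (.node (.I .tdb (.c 32 (.c 48 (.c 2728451 (.c 40 .nil)))) (.b 16 .nil)) (.I .tdb (.c 24 (.c 33587273 (.c 18689 (.c 40 .nil)))) .nil)) (.node (.I .tdb (.c 8 (.c 2049 (.c 18689 (.c 40 .nil)))) (.b 24 .nil)) (.I .tdb (.c 0 (.c 16 (.c 40 (.c 18689 .nil)))) (.b 8 (.b 24 .nil)))))) (.node (.node (.node (.I .tdb (.c 32 (.c 48 (.c 0 (.c 40 .nil))))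 (.b 16 (.b 8 (.b 24 .nil)))) (.I .tdb (.c 32 (.c 48 (.c 557571 (.c 40 .nil)))) (.b 24 .nil))) (.node (.I .tdb (.c 32 (.c 40 (.c 48 (.c 62886542409865 .nil)))) .nil) (.I .tdb (.c 32 (.c 40 (.c 48 (.c 231045293249046281 .nil)))) .nil))) (.node (.node (.I .tdb (.c 32 (.c 40 (.c 48 (.c 9024839260612425 .nil)))) .nil) (.I .tdb (.c 32 (.c 40 (.c 48 (.c 62889413446729 .nil)))) .nil)) (.node (.I .tdb (.c 8 (.c 169943177 (.c 18753 (.c 32 .nil)))) .nil) (.I .tdb (.c 16 (.c 4609 (.c 18753 (.c 32 .nil)))) (.b 8 .nil)))))) (.node (.node (.node (.node (.I .tdb (.c 0 (.c 24 (.c 32 (.c 18753 .nil)))) (.b 16 (.b 8 .nil))) (.I .tdb (.c 40 (.c 48 (.c 0 (.c 32 .nil)))) (.b 24 (.b 16 (.b 8 .nil))))) (.node (.I .tdb (.c 8 (.c 2803715 (.c 18753 (.c 32 .nil)))) .nil) (.I .tdb (.c 40 (.c 48 (.c 32 (.c 2803715 .nil)))) (.b 8 .nil)))) (.node (.node (.I .tdb (.c 16 (.c 169943113 (.c 18753 (.c 32 .nil)))) .nil) (.I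 .tdb (.c 8 (.c 4609 (.c 18753 (.c 32 .nil)))) (.b 16 .nil))) (.node (.I .tdb (.c 0 (.c 24 (.c 32 (.c 18753 .nil)))) (.b 8 (.b 16 .nil))) (.I .tdb (.c 40 (.c 48 (.c 0 (.c 32 .nil)))) (.b 24 (.b 8 (.b 16 .nil))))))) (.node (.node (.node (.I .tdb (.c 16 (.c 2105545 (.c 18753 (.c 32 .nil)))) .nil) (.I .tdb (.c 513 (.c 24 (.c 18753 (.c 32 .nil)))) (.b 16 .nil))) (.node (.I .tdb (.c 0 (.c 8 (.c 32 (.c 18753 .nil)))) (.b 24 (.b 16 .nil))) (.I .tdb (.c 40 (.c 48 (.c 0 (.c 32 .nil)))) (.b 8 (.b 24 (.b 16 .nil)))))) (.node (.node (.I .tdb (.c 16 (.c 2728451 (.c 18753 (.c 32 .nil)))) .nil) (.I .tdb (.c 40 (.c 48 (.c 32 (.c 2728451 .nil)))) (.b 16 .nil))) (.node (.I .tdb (.c 24 (.c 2105481 (.c 18753 (.c 32 .nil)))) .nil) (.I .tdb (.c 513 (.c 16 (.c 18753 (.c 32 .nil)))) (.b 24 .nil))))))) (.node (.node (.node (.node (.node (.I .tdb (.c 0 (.c 8 (.c 32 (.c 18753 .nil)))) (.b 16 (.b 24 .nil))) (.I .tdb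 (.c 40 (.c 48 (.c 0 (.c 32 .nil)))) (.b 8 (.b 16 (.b 24 .nil))))) (.node (.I .tdb (.c 24 (.c 557571 (.c 18753 (.c 32 .nil)))) .nil) (.I .tdb (.c 0 (.c 2803779 (.c 18753 (.c 32 .nil)))) .nil))) (.node (.node (.I .tdb (.c 40 (.c 48 (.c 0 (.c 32 .nil)))) (.b 2803779 .nil)) (.I .tdb (.c 16 (.c 4609 (.c 43954755 (.c 32 .nil)))) .nil)) (.node (.I .tdb (.c 0 (.c 24 (.c 32 (.c 43954755 .nil)))) (.b 16 .nil)) (.I .tdb (.c 0 (.c 16 (.c 32 (.c 43954755 .nil)))) (.b 24 .nil))))) (.node (.node (.node (.I .tdb (.c 48 (.c 8257 (.c 0 (.c 40 .nil)))) (.b 24 (.b 16 .nil))) (.I .tdb (.c 8 (.c 32 (.c 0 (.c 40 .nil)))) (.b 48 (.b 24 (.b 16 .nil))))) (.node (.I .tdb (.c 0 (.c 24 (.c 40 (.c 43655235 .nil)))) (.b 16 .nil)) (.I .tdb (.c 40 (.c 8257 (.c 0 (.c 48 .nil)))) (.b 24 (.b 16 .nil))))) (.node (.node (.I .tdb (.c 8 (.c 32 (.c 0 (.c 48 .nil)))) (.b 40 (.b 24 (.b 16 .nil)))) (.I .tdb (.c 32 (.c 12865 (.c 16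 (.c 48 .nil)))) (.b 0 (.b 24 .nil)))) (.node (.I .tdb (.c 8 (.c 40 (.c 16 (.c 48 .nil)))) (.b 32 (.b 0 (.b 24 .nil)))) (.I .tdb (.c 24 (.c 2049 (.c 21307459 (.c 48 .nil)))) .nil))))) (.node (.node (.node (.node (.I .tdb (.c 0 (.c 16 (.c 48 (.c 21307459 .nil)))) (.b 24 .nil)) (.I .jac (.c 42762755 (.c 32 (.c 40 .nil))) (.b 24 (.b 16 .nil)))) (.node (.I .tdb (.c 16 (.c 4609 (.c 43954947 (.c 8 .nil)))) .nil) (.I .jac (.c 20685315 (.c 32 (.c 48 .nil))) (.b 16 (.b 24 .nil))))) (.node (.node (.I .jac (.c 42762755 (.c 32 (.c 40 .nil))) (.b 16 (.b 24 .nil))) (.I .tdb (.c 0 (.c 16 (.c 43954947 (.c 8 .nil)))) (.b 24 .nil))) (.node (.I .jac (.c 43655171 (.c 16 (.c 40 .nil))) (.b 24 (.b 8 .nil))) (.I .tdb (.c 48 (.c 12929 (.c 0 (.c 32 .nil)))) (.b 24 (.b 8 .nil)))))) (.node (.node (.node (.I .tdb (.c 16 (.c 40 (.c 0 (.c 32 .nil)))) (.b 48 (.b 24 (.b 8 .nil)))) (.I .tdb (.c 0 (.c 8 (.c 32 (.c 43954819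 .nil)))) (.b 24 .nil))) (.node (.I .tdb (.c 40 (.c 18561 (.c 32 (.c 2728451 .nil)))) .nil) (.I .tdb (.c 8 (.c 4609 (.c 43655299 (.c 40 .nil)))) .nil))) (.node (.node (.I .tdb (.c 0 (.c 24 (.c 40 (.c 43655299 .nil)))) (.b 8 .nil)) (.I .jac (.c 43954691 (.c 16 (.c 32 .nil))) (.b 8 (.b 24 .nil)))) (.node (.I .tdb (.c 0 (.c 8 (.c 40 (.c 43655299 .nil)))) (.b 24 .nil)) (.I .tdb (.c 32 (.c 18561 (.c 2728451 (.c 40 .nil)))) .nil)))))))

noncomputable def c5_52 : Tr := (.node (.node (.node (.node (.node (.node (.I .tdb (.c 32 (.c 12929 (.c 0 (.c 48 .nil)))) (.b 24 (.b 8 .nil))) (.I .jac (.c 43059203 (.c 32 (.c 40 .nil))) (.b 24 (.b 8 .nil)))) (.node (.I .tdb (.c 8 (.c 4609 (.c 43954947 (.c 16 .nil)))) .nil) (.I .tdb (.c 0 (.c 24 (.c 43954947 (.c 16 .nil)))) (.b 8 .nil)))) (.node (.node (.I .jac (.c 20891651 (.c 32 (.c 48 .nil))) (.b 8 (.b 24 .nil))) (.I .tdb (.c 513 (.c 24 (.c 43954947 (.c 16 .nil))))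 .nil)) (.node (.I .tdb (.c 0 (.c 8 (.c 16 (.c 43954947 .nil)))) (.b 24 .nil)) (.I .tdb (.c 32 (.c 43954755 (.c 16 (.c 24 .nil)))) (.b 0 .nil))))) (.node (.node (.node (.I .tdb (.c 40 (.c 43655235 (.c 0 (.c 16 .nil)))) (.b 24 .nil)) (.I .tdb (.c 40 (.c 43655235 (.c 16 (.c 24 .nil)))) (.b 0 .nil))) (.node (.I .tdb (.c 8 (.c 40 (.c 0 (.c 16 .nil)))) (.b 32 (.b 48 (.b 24 .nil)))) (.I .tdb (.c 32 (.c 12865 (.c 0 (.c 16 .nil)))) (.b 48 (.b 24 .nil))))) (.node (.node (.I .tdb (.c 8 (.c 43954947 (.c 0 (.c 16 .nil)))) (.b 24 .nil)) (.I .tdb (.c 16 (.c 43954755 (.c 0 (.c 32 .nil)))) (.b 24 .nil))) (.node (.I .tdb (.c 8 (.c 40 (.c 0 (.c 32 .nil)))) (.b 16 (.b 48 (.b 24 .nil)))) (.I .tdb (.c 16 (.c 12865 (.c 0 (.c 32 .nil)))) (.b 48 (.b 24 .nil))))))) (.node (.node (.node (.node (.I .tdb (.c 0 (.c 24 (.c 32 (.c 3491710045130185 .nil)))) .nil) (.I .tdb (.c 48 (.c 20891715 (.c 0 (.c 32 .nil)))) (.b 24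 .nil))) (.node (.I .tdb (.c 0 (.c 24 (.c 32 (.c 15456208906582153 .nil)))) .nil) (.I .tdb (.c 8 (.c 43954819 (.c 0 (.c 32 .nil)))) (.b 24 .nil)))) (.node (.node (.I .tdb (.c 32 (.c 43059267 (.c 0 (.c 40 .nil)))) (.b 24 .nil)) (.I .tdb (.c 8652867 (.c 48 (.c 0 (.c 40 .nil)))) (.b 24 .nil))) (.node (.I .tdb (.c 8 (.c 43655299 (.c 0 (.c 40 .nil)))) (.b 24 .nil)) (.I .tdb (.c 0 (.c 24 (.c 13057 (.c 43059267 .nil)))) .nil)))) (.node (.node (.node (.I .tdb (.c 32 (.c 40 (.c 43059267 (.c 0 .nil)))) (.b 24 .nil)) (.I .tdb (.c 32 (.c 40 (.c 43059267 (.c 24 .nil)))) (.b 0 .nil))) (.node (.I .tdb (.c 0 (.c 24 (.c 21307523 (.c 18497 .nil)))) .nil) (.I .tdb (.c 8 (.c 48 (.c 0 (.c 21307523 .nil)))) (.b 24 .nil)))) (.node (.node (.I .tdb (.c 0 (.c 24 (.c 21307459 (.c 18561 .nil)))) .nil) (.I .tdb (.c 16 (.c 48 (.c 0 (.c 21307459 .nil)))) (.b 24 .nil))) (.node (.I .tdb (.c 0 (.c 24 (.c 8652867 (.c 18753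 .nil)))) .nil) (.I .tdb (.c 40 (.c 48 (.c 0 (.c 8652867 .nil)))) (.b 24 .nil))))))) (.node (.node (.node (.node (.node (.I .tdb (.c 0 (.c 24 (.c 2113 (.c 43954947 .nil)))) .nil) (.I .tdb (.c 8 (.c 16 (.c 43954947 (.c 24 .nil)))) (.b 0 .nil))) (.node (.I .tdb (.c 32 (.c 43954819 (.c 8 (.c 24 .nil)))) (.b 0 .nil)) (.I .tdb (.c 0 (.c 24 (.c 15246281046235529 (.c 8 .nil)))) .nil))) (.node (.node (.I .tdb (.c 40 (.c 43655299 (.c 0 (.c 8 .nil)))) (.b 24 .nil)) (.I .tdb (.c 40 (.c 43655299 (.c 8 (.c 24 .nil)))) (.b 0 .nil))) (.node (.I .tdb (.c 48 (.c 21307523 (.c 8 (.c 24 .nil)))) (.b 0 .nil)) (.I .jac (.c 21307395 (.c 24 (.c 48 .nil))) (.b 16 (.b 8 .nil)))))) (.node (.node (.node (.I .tdb (.c 48 (.c 12993 (.c 0 (.c 32 .nil)))) (.b 16 (.b 8 .nil))) (.I .tdb (.c 24 (.c 40 (.c 0 (.c 32 .nil)))) (.b 48 (.b 16 (.b 8 .nil))))) (.node (.I .tdb (.c 8 (.c 2049 (.c 43954883 (.c 32 .nil)))) .nil) (.I .tdb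 (.c 0 (.c 16 (.c 32 (.c 43954883 .nil)))) (.b 8 .nil)))) (.node (.node (.I .jac (.c 21307395 (.c 24 (.c 48 .nil))) (.b 8 (.b 16 .nil))) (.I .jac (.c 43655171 (.c 24 (.c 40 .nil))) (.b 8 (.b 16 .nil)))) (.node (.I .jac (.c 43954691 (.c 24 (.c 32 .nil))) (.b 16 (.b 8 .nil))) (.I .tdb (.c 0 (.c 8 (.c 40 (.c 43655363 .nil)))) (.b 16 .nil)))))) (.node (.node (.node (.node (.I .tdb (.c 32 (.c 40 (.c 18625 (.c 557571 .nil)))) .nil) (.I .tdb (.c 32 (.c 12993 (.c 0 (.c 48 .nil)))) (.b 16 (.b 8 .nil)))) (.node (.I .tdb (.c 8 (.c 2049 (.c 21307587 (.c 48 .nil)))) .nil) (.I .tdb (.c 24 (.c 40 (.c 18689 (.c 557571 .nil)))) .nil))) (.node (.node (.I .tdb (.c 24 (.c 32 (.c 18753 (.c 557571 .nil)))) .nil) (.I .jac (.c 21099011 (.c 32 (.c 48 .nil))) (.b 16 (.b 8 .nil)))) (.node (.I .jac (.c 43356675 (.c 32 (.c 40 .nil))) (.b 16 (.b 8 .nil))) (.I .tdb (.c 8 (.c 2049 (.c 43954947 (.c 24 .nil)))) .nil)))) (.node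 (.node (.node (.I .tdb (.c 0 (.c 16 (.c 43954947 (.c 24 .nil)))) (.b 8 .nil)) (.I .jac (.c 21099011 (.c 32 (.c 48 .nil))) (.b 8 (.b 16 .nil)))) (.node (.I .jac (.c 43356675 (.c 32 (.c 40 .nil))) (.b 8 (.b 16 .nil))) (.I .tdb (.c 0 (.c 16 (.c 15456163896880457 (.c 24 .nil)))) .nil))) (.node (.node (.I .tdb (.c 32 (.c 43954755 (.c 0 (.c 24 .nil)))) (.b 16 .nil)) (.I .tdb (.c 0 (.c 16 (.c 15246236343242121 (.c 24 .nil)))) .nil)) (.node (.I .tdb (.c 40 (.c 8257 (.c 0 (.c 24 .nil)))) (.b 48 (.b 16 .nil))) (.I .tdb (.c 8 (.c 32 (.c 0 (.c 24 .nil)))) (.b 40 (.b 48 (.b 16 .nil))))))))))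

noncomputable def c5_53 : Tr := (.node (.node (.node (.node (.node (.node (.I .tdb (.c 8 (.c 43954947 (.c 0 (.c 24 .nil)))) (.b 16 .nil)) (.I .tdb (.c 0 (.c 16 (.c 32 (.c 15038454533713289 .nil)))) .nil)) (.node (.I .tdb (.c 8 (.c 43954883 (.c 0 (.c 32 .nil)))) (.b 16 .nil)) (.I .tdb (.c 0 (.c 16 (.c 8385 (.c 43954755 .nil)))) .nil))) (.node (.node (.I .tdb (.c 24 (.c 32 (.c 43954755 (.c 0 .nil)))) (.b 16 .nil)) (.I .tdb (.c 24 (.c 32 (.c 43954755 (.c 16 .nil)))) (.b 0 .nil))) (.node (.I .tdb (.c 0 (.c 16 (.c 40 (.c 15038454533713225 .nil)))) .nil) (.I .tdb (.c 8 (.c 32 (.c 0 (.c 40 .nil)))) (.b 24 (.b 48 (.b 16 .nil))))))) (.node (.node (.node (.I .tdb (.c 24 (.c 8257 (.c 0 (.c 40 .nil)))) (.b 48 (.b 16 .nil))) (.I .tdb (.c 8786499 (.c 48 (.c 0 (.c 40 .nil)))) (.b 16 .nil))) (.node (.I .tdb (.c 0 (.c 16 (.c 12993 (.c 43655235 .nil)))) .nil) (.I .tdb (.c 24 (.c 40 (.c 43655235 (.c 0 .nil))))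 (.b 16 .nil)))) (.node (.node (.I .tdb (.c 24 (.c 40 (.c 43655235 (.c 16 .nil)))) (.b 0 .nil)) (.I .jac (.c 15246191640313993 (.c 24 (.c 40 .nil))) (.b 16 .nil))) (.node (.I .jac (.c 15456118887243913 (.c 24 (.c 32 .nil))) (.b 16 .nil)) (.I .tdb (.c 8 (.c 48 (.c 0 (.c 21307587 .nil)))) (.b 16 .nil)))))) (.node (.node (.node (.node (.I .tdb (.c 0 (.c 16 (.c 8786499 (.c 18753 .nil)))) .nil) (.I .tdb (.c 40 (.c 48 (.c 0 (.c 8786499 .nil)))) (.b 16 .nil))) (.node (.I .tdb (.c 0 (.c 16 (.c 8257 (.c 43954883 .nil)))) .nil) (.I .tdb (.c 8 (.c 32 (.c 43954883 (.c 0 .nil)))) (.b 16 .nil)))) (.node (.node (.I .tdb (.c 8 (.c 32 (.c 43954883 (.c 16 .nil)))) (.b 0 .nil)) (.I .jac (.c 8520195 (.c 24 (.c 40 .nil))) (.b 48 (.b 16 .nil)))) (.node (.I .jac (.c 14629225721520457 (.c 24 (.c 40 .nil))) (.b 16 .nil)) (.I .jac (.c 14629225721520521 (.c 24 (.c 32 .nil))) (.b 16 .nil))))) (.node (.node (.node (.I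 .tdb (.c 0 (.c 16 (.c 3632106110100937 (.c 8 .nil)))) .nil) (.I .tdb (.c 24 (.c 43954947 (.c 0 (.c 8 .nil)))) (.b 16 .nil))) (.node (.I .jac (.c 617611520074121 (.c 16 (.c 48 .nil))) (.b 8 .nil)) (.I .jac (.c 8786435 (.c 12929 (.c 48 .nil))) (.b 8 .nil)))) (.node (.node (.I .jac (.c 8786435 (.c 16 (.c 40 .nil))) (.b 48 (.b 8 .nil))) (.I .tdb (.c 0 (.c 8 (.c 24 (.c 15456208906582345 .nil)))) .nil)) (.node (.I .tdb (.c 32 (.c 43954819 (.c 0 (.c 24 .nil)))) (.b 8 .nil)) (.I .jac (.c 3561346121425225 (.c 16 (.c 48 .nil))) (.b 8 .nil))))))) (.node (.node (.node (.node (.node (.I .tdb (.c 40 (.c 43655299 (.c 0 (.c 24 .nil)))) (.b 8 .nil)) (.I .jac (.c 15038410136445257 (.c 16 (.c 40 .nil))) (.b 8 .nil))) (.node (.I .tdb (.c 0 (.c 8 (.c 24 (.c 3632084291164617 .nil)))) .nil) (.I .tdb (.c 48 (.c 21307523 (.c 0 (.c 24 .nil)))) (.b 8 .nil)))) (.node (.node (.I .tdb (.c 16 (.c 43954947 (.c 0 (.c 24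 .nil)))) (.b 8 .nil)) (.I .tdb (.c 0 (.c 8 (.c 32 (.c 15456208906582281 .nil)))) .nil)) (.node (.I .tdb (.c 24 (.c 43954819 (.c 0 (.c 32 .nil)))) (.b 8 .nil)) (.I .jac (.c 21307395 (.c 4737 (.c 48 .nil))) (.b 8 .nil))))) (.node (.node (.node (.I .tdb (.c 0 (.c 8 (.c 32 (.c 15038498931046793 .nil)))) .nil) (.I .tdb (.c 0 (.c 8 (.c 32 (.c 3561389332330953 .nil)))) .nil)) (.node (.I .tdb (.c 24 (.c 43655299 (.c 0 (.c 40 .nil)))) (.b 8 .nil)) (.I .tdb (.c 0 (.c 8 (.c 40 (.c 15038498931046729 .nil)))) .nil))) (.node (.node (.I .jac (.c 15456118887244041 (.c 16 (.c 32 .nil))) (.b 8 .nil)) (.I .tdb (.c 16 (.c 48 (.c 0 (.c 21307587 .nil)))) (.b 8 .nil))) (.node (.I .tdb (.c 0 (.c 8 (.c 21307523 (.c 18625 .nil)))) .nil) (.I .tdb (.c 24 (.c 48 (.c 0 (.c 21307523 .nil)))) (.b 8 .nil)))))) (.node (.node (.node (.node (.I .tdb (.c 32 (.c 48 (.c 0 (.c 21099139 .nil)))) (.b 8 .nil)) (.I .tdb (.c 0 (.c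 8 (.c 12929 (.c 43655363 .nil)))) .nil)) (.node (.I .tdb (.c 16 (.c 40 (.c 43655363 (.c 0 .nil)))) (.b 8 .nil)) (.I .tdb (.c 16 (.c 40 (.c 43655363 (.c 8 .nil)))) (.b 0 .nil)))) (.node (.node (.I .tdb (.c 0 (.c 8 (.c 8786563 (.c 18753 .nil)))) .nil) (.I .tdb (.c 40 (.c 48 (.c 0 (.c 8786563 .nil)))) (.b 8 .nil))) (.node (.I .tdb (.c 0 (.c 8 (.c 8321 (.c 43954883 .nil)))) .nil) (.I .tdb (.c 16 (.c 32 (.c 43954883 (.c 0 .nil)))) (.b 8 .nil))))) (.node (.node (.node (.I .tdb (.c 16 (.c 32 (.c 43954883 (.c 8 .nil)))) (.b 0 .nil)) (.I .tdb (.c 0 (.c 8 (.c 4737 (.c 43954947 .nil)))) .nil)) (.node (.I .tdb (.c 16 (.c 24 (.c 43954947 (.c 0 .nil)))) (.b 8 .nil)) (.I .tdb (.c 16 (.c 24 (.c 43954947 (.c 8 .nil)))) (.b 0 .nil)))) (.node (.node (.I .jac (.c 20891651 (.c 8385 (.c 48 .nil))) (.b 8 .nil)) (.I .jac (.c 14832759703961993 (.c 24 (.c 32 .nil))) (.b 8 .nil))) (.node (.I .tdb (.c 0 (.c 8 (.c 16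 (.c 3632106110100937 .nil)))) .nil) (.I .tdb (.c 24 (.c 43954947 (.c 0 (.c 16 .nil)))) (.b 8 .nil))))))))

noncomputable def c5_54 : Tr := (.node (.node (.node (.node (.node (.node (.I .tdb (.c 24 (.c 15456163896880457 (.c 0 (.c 16 .nil)))) .nil) (.I .tdb (.c 8 (.c 40 (.c 0 (.c 16 .nil)))) (.b 32 (.b 24 (.b 48 .nil))))) (.node (.I .tdb (.c 32 (.c 12865 (.c 0 (.c 16 .nil)))) (.b 24 (.b 48 .nil))) (.I .tdb (.c 4673 (.c 32 (.c 0 (.c 16 .nil)))) (.b 40 (.b 48 .nil))))) (.node (.node (.I .tdb (.c 8 (.c 24 (.c 0 (.c 16 .nil)))) (.b 32 (.b 40 (.b 48 .nil)))) (.I .tdb (.c 16 (.c 15456163896880457 (.c 0 (.c 24 .nil)))) .nil)) (.node (.I .tdb (.c 32 (.c 14832803796618633 (.c 0 (.c 24 .nil)))) .nil) (.I .tdb (.c 2113 (.c 43954947 (.c 0 (.c 24 .nil)))) .nil)))) (.node (.node (.node (.I .tdb (.c 8 (.c 16 (.c 0 (.c 24 .nil)))) (.b 43954947 .nil)) (.I .tdb (.c 16 (.c 24 (.c 15456163896880457 (.c 0 .nil))))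 .nil)) (.node (.I .tdb (.c 16 (.c 24 (.c 15246236343242121 (.c 0 .nil)))) .nil) (.I .tdb (.c 16 (.c 24 (.c 15456298926182537 (.c 0 .nil)))) .nil))) (.node (.node (.I .tdb (.c 16 (.c 15456163896880393 (.c 0 (.c 32 .nil)))) .nil) (.I .tdb (.c 16 (.c 15456253916349577 (.c 0 (.c 32 .nil)))) .nil)) (.node (.I .tdb (.c 24 (.c 14832803796618633 (.c 0 (.c 32 .nil)))) .nil) (.I .tdb (.c 40 (.c 14832803796618505 (.c 0 (.c 32 .nil)))) .nil))))) (.node (.node (.node (.node (.I .tdb (.c 40 (.c 15038498931046537 (.c 0 (.c 32 .nil)))) .nil) (.I .tdb (.c 8 (.c 40 (.c 0 (.c 32 .nil)))) (.b 16 (.b 24 (.b 48 .nil))))) (.node (.I .tdb (.c 16 (.c 12865 (.c 0 (.c 32 .nil)))) (.b 24 (.b 48 .nil))) (.I .tdb (.c 8 (.c 24 (.c 32 (.c 0 .nil)))) (.b 16 (.b 40 (.b 48 .nil)))))) (.node (.node (.I .tdb (.c 16 (.c 4673 (.c 0 (.c 32 .nil)))) (.b 40 (.b 48 .nil))) (.I .tdb (.c 48 (.c 3561389332330633 (.c 0 (.c 32 .nil))))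 .nil)) (.node (.I .tdb (.c 8 (.c 21099139 (.c 0 (.c 32 .nil)))) (.b 48 .nil)) (.I .tdb (.c 4673 (.c 43954819 (.c 0 (.c 32 .nil)))) .nil)))) (.node (.node (.node (.I .tdb (.c 8 (.c 24 (.c 32 (.c 0 .nil)))) (.b 43954819 .nil)) (.I .tdb (.c 2113 (.c 43954883 (.c 0 (.c 32 .nil)))) .nil)) (.node (.I .tdb (.c 8 (.c 16 (.c 32 (.c 0 .nil)))) (.b 43954883 .nil)) (.I .tdb (.c 16 (.c 32 (.c 15456163896880393 (.c 0 .nil)))) .nil))) (.node (.node (.I .tdb (.c 16 (.c 32 (.c 15038454533713289 (.c 0 .nil)))) .nil) (.I .tdb (.c 24 (.c 32 (.c 15456163896880329 (.c 0 .nil)))) .nil)) (.node (.I .tdb (.c 24 (.c 32 (.c 14832803796618633 (.c 0 .nil)))) .nil) (.I .jac (.c 21307395 (.c 8 (.c 48 .nil))) (.b 4737 .nil))))))) (.node (.node (.node (.node (.node (.I .jac (.c 43356675 (.c 8 (.c 40 .nil))) (.b 8321 .nil)) (.I .tdb (.c 16 (.c 15246236343241993 (.c 0 (.c 40 .nil)))) .nil)) (.node (.I .tdb (.c 16 (.c 617620517416393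 (.c 0 (.c 40 .nil)))) .nil) (.I .tdb (.c 24 (.c 15246236343241929 (.c 0 (.c 40 .nil)))) .nil))) (.node (.node (.I .tdb (.c 24 (.c 598976858557897 (.c 0 (.c 40 .nil)))) .nil) (.I .tdb (.c 32 (.c 15038454533713097 (.c 0 (.c 40 .nil)))) .nil)) (.node (.I .tdb (.c 32 (.c 14832803796618505 (.c 0 (.c 40 .nil)))) .nil) (.I .tdb (.c 32 (.c 62889413447113 (.c 0 (.c 40 .nil)))) .nil)))) (.node (.node (.node (.I .tdb (.c 32 (.c 15038498931046537 (.c 0 (.c 40 .nil)))) .nil) (.I .tdb (.c 48 (.c 617620517416137 (.c 0 (.c 40 .nil)))) .nil)) (.node (.I .tdb (.c 16 (.c 8786499 (.c 0 (.c 40 .nil)))) (.b 48 .nil)) (.I .tdb (.c 48 (.c 598976858557705 (.c 0 (.c 40 .nil)))) .nil))) (.node (.node (.I .tdb (.c 24 (.c 8652867 (.c 0 (.c 40 .nil)))) (.b 48 .nil)) (.I .tdb (.c 2113 (.c 43655363 (.c 0 (.c 40 .nil)))) .nil)) (.node (.I .tdb (.c 8 (.c 16 (.c 40 (.c 0 .nil)))) (.b 43655363 .nil)) (.I .tdb (.c 16 (.c 40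 (.c 15246236343241993 (.c 0 .nil)))) .nil))))) (.node (.node (.node (.node (.I .tdb (.c 16 (.c 40 (.c 15038454533713225 (.c 0 .nil)))) .nil) (.I .tdb (.c 24 (.c 40 (.c 15246236343241929 (.c 0 .nil)))) .nil)) (.node (.I .tdb (.c 24 (.c 40 (.c 14832803796618569 (.c 0 .nil)))) .nil) (.I .tdb (.c 24 (.c 40 (.c 15246281046235273 (.c 0 .nil)))) .nil))) (.node (.node (.I .jac (.c 8786435 (.c 8 (.c 48 .nil))) (.b 12929 .nil)) (.I .tdb (.c 32 (.c 40 (.c 15038454533713097 (.c 0 .nil)))) .nil)) (.node (.I .tdb (.c 32 (.c 40 (.c 14832803796618505 (.c 0 .nil)))) .nil) (.I .tdb (.c 32 (.c 40 (.c 15038498931046537 (.c 0 .nil)))) .nil)))) (.node (.node (.node (.I .jac (.c 43655171 (.c 8 (.c 24 .nil))) (.b 12929 .nil)) (.I .jac (.c 8652803 (.c 8 (.c 48 .nil))) (.b 12993 .nil))) (.node (.I .jac (.c 20891651 (.c 8 (.c 48 .nil))) (.b 8385 .nil)) (.I .tdb (.c 2113 (.c 48 (.c 0 (.c 21307587 .nil)))) .nil))) (.node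 (.node (.I .tdb (.c 8 (.c 16 (.c 21307587 (.c 0 .nil)))) (.b 48 .nil)) (.I .tdb (.c 32 (.c 21099139 (.c 18497 (.c 0 .nil)))) .nil)) (.node (.I .tdb (.c 8 (.c 48 (.c 0 (.c 32 .nil)))) (.b 4737 (.b 40 .nil))) (.I .tdb (.c 16 (.c 21307587 (.c 18497 (.c 0 .nil)))) .nil)))))))

noncomputable def c5_55 : Tr := (.node (.node (.node (.node (.node (.node (.I .tdb (.c 32 (.c 3491710045129993 (.c 0 (.c 48 .nil)))) .nil) (.I .tdb (.c 8 (.c 32 (.c 0 (.c 48 .nil)))) (.b 24 (.b 16 (.b 40 .nil))))) (.node (.I .tdb (.c 24 (.c 8257 (.c 0 (.c 48 .nil)))) (.b 16 (.b 40 .nil))) (.I .tdb (.c 2113 (.c 21307587 (.c 0 (.c 48 .nil)))) .nil))) (.node (.node (.I .tdb (.c 8 (.c 16 (.c 48 (.c 0 .nil)))) (.b 21307587 .nil)) (.I .tdb (.c 8 (.c 21307587 (.c 18561 (.c 0 .nil)))) .nil)) (.node (.I .jac (.c 8786435 (.c 16 (.c 48 .nil))) (.b 12865 .nil)) (.I .jac (.c 43655171 (.c 16 (.c 24 .nil))) (.b 12865 .nil))))) (.node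 (.node (.node (.I .tdb (.c 8 (.c 21099139 (.c 18689 (.c 0 .nil)))) .nil) (.I .jac (.c 21307395 (.c 16 (.c 48 .nil))) (.b 4673 .nil))) (.node (.I .jac (.c 43954691 (.c 16 (.c 32 .nil))) (.b 4673 .nil)) (.I .jac (.c 43059203 (.c 24 (.c 32 .nil))) (.b 12865 .nil)))) (.node (.node (.I .jac (.c 21307395 (.c 24 (.c 48 .nil))) (.b 2113 .nil)) (.I .tdb (.c 2113 (.c 40 (.c 43655363 (.c 0 .nil)))) .nil)) (.node (.I .tdb (.c 8 (.c 16 (.c 43655363 (.c 0 .nil)))) (.b 40 .nil)) (.I .tdb (.c 8 (.c 40 (.c 15246281046235401 (.c 0 .nil)))) .nil))))) (.node (.node (.node (.node (.I .tdb (.c 8 (.c 40 (.c 15038498931046729 (.c 0 .nil)))) .nil) (.I .jac (.c 43356675 (.c 16 (.c 40 .nil))) (.b 8257 .nil))) (.node (.I .jac (.c 43655171 (.c 16 (.c 40 .nil))) (.b 4673 .nil)) (.I .tdb (.c 4673 (.c 32 (.c 43954819 (.c 0 .nil)))) .nil))) (.node (.node (.I .tdb (.c 8 (.c 24 (.c 43954819 (.c 0 .nil)))) (.b 32 .nil)) (.I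 .jac (.c 43655171 (.c 24 (.c 40 .nil))) (.b 2113 .nil))) (.node (.I .tdb (.c 2113 (.c 32 (.c 43954883 (.c 0 .nil)))) .nil) (.I .tdb (.c 8 (.c 16 (.c 43954883 (.c 0 .nil)))) (.b 32 .nil))))) (.node (.node (.node (.I .tdb (.c 8 (.c 32 (.c 15038498931046793 (.c 0 .nil)))) .nil) (.I .tdb (.c 8 (.c 32 (.c 3561389332330953 (.c 0 .nil)))) .nil)) (.node (.I .jac (.c 43059203 (.c 32 (.c 40 .nil))) (.b 4673 .nil)) (.I .tdb (.c 24 (.c 2113 (.c 43954947 (.c 0 .nil)))) .nil))) (.node (.node (.I .tdb (.c 8 (.c 24 (.c 15246281046235529 (.c 0 .nil)))) .nil) (.I .tdb (.c 8 (.c 24 (.c 15456298926182601 (.c 0 .nil)))) .nil)) (.node (.I .tdb (.c 8 (.c 16 (.c 3632106110100937 (.c 0 .nil)))) .nil) (.I .tdb (.c 8 (.c 16 (.c 15456298926182665 (.c 0 .nil)))) .nil)))))) (.node (.node (.node (.node (.node (.I .tdb (.c 24 (.c 15246281046235529 (.c 0 (.c 8 .nil)))) .nil) (.I .tdb (.c 24 (.c 15456298926182601 (.c 0 (.c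 8 .nil)))) .nil)) (.node (.I .tdb (.c 32 (.c 15038498931046793 (.c 0 (.c 8 .nil)))) .nil) (.I .tdb (.c 32 (.c 15456253916349641 (.c 0 (.c 8 .nil)))) .nil))) (.node (.node (.I .tdb (.c 48 (.c 617629514824073 (.c 0 (.c 8 .nil)))) .nil) (.I .tdb (.c 8786563 (.c 40 (.c 0 (.c 8 .nil)))) (.b 48 .nil))) (.node (.I .tdb (.c 48 (.c 3632106110100681 (.c 0 (.c 8 .nil)))) .nil) (.I .tdb (.c 16 (.c 21307587 (.c 0 (.c 8 .nil)))) (.b 48 .nil))))) (.node (.node (.node (.I .tdb (.c 16 (.c 24 (.c 13057 (.c 48 .nil)))) (.l 513 .nil)) (.I .tdb (.c 32 (.c 40 (.c 48 (.c 16 .nil)))) (.b 24 (.l 513 .nil)))) (.node (.I .tdb (.c 32 (.c 40 (.c 48 (.c 24 .nil)))) (.b 16 (.l 513 .nil))) (.I .adp (.c 13057 (.c 48 (.c 4737 .nil))) (.l 513 .nil)))) (.node (.node (.I .jac (.c 4737 (.c 32 (.c 40 .nil))) (.r 48 (.l 513 .nil))) (.I .tdb (.c 0 (.c 8 (.c 13057 (.c 48 .nil)))) (.l 4737 .nil))) (.node (.I .tdb (.c 32 (.c 40 (.c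 48 (.c 0 .nil)))) (.b 8 (.l 4737 .nil))) (.I .tdb (.c 32 (.c 40 (.c 48 (.c 8 .nil)))) (.b 0 (.l 4737 .nil))))))) (.node (.node (.node (.node (.I .adp (.c 13057 (.c 48 (.c 513 .nil))) (.l 4737 .nil)) (.I .com (.c 2105737 (.c 13057 .nil)) (.l 4737 .nil))) (.node (.I .jac (.c 513 (.c 32 (.c 40 .nil))) (.r 48 (.l 4737 .nil))) (.I .com (.c 1859570876265504724427643779472073 (.c 4737 .nil)) .nil))) (.node (.node (.I .com (.c 10066684875777433669609463689 (.c 4737 .nil)) .nil) (.I .com (.c 10066684875741109290467687369 (.c 4737 .nil)) .nil)) (.node (.I .com (.c 15246236343344209 (.c 4737 .nil)) .nil) (.I .com (.c 15456163896945745 (.c 4737 .nil)) .nil)))) (.node (.node (.node (.I .ass (.c 4737 (.c 2105737 (.c 13057 .nil))) .nil) (.I .ass (.c 2105737 (.c 4737 (.c 13057 .nil))) .nil)) (.node (.I .com (.c 4737 (.c 2105737 .nil)) (.r 13057 .nil)) (.I .ass (.c 4737 (.c 35470870263689 (.c 48 .nil)))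 .nil))) (.node (.node (.I .ass (.c 35470870263689 (.c 4737 (.c 48 .nil))) .nil) (.I .com (.c 4737 (.c 35470870263689 .nil)) (.r 48 .nil))) (.node (.I .jac (.c 35470870263689 (.c 16 (.c 24 .nil))) (.r 48 .nil)) (.I .ass (.c 4737 (.c 35468714087369 (.c 48 .nil))) .nil)))))))

noncomputable def c5_56 : Tr := (.node (.node (.node (.node (.node (.node (.I .ass (.c 35468714087369 (.c 4737 (.c 48 .nil))) .nil) (.I .com (.c 4737 (.c 35468714087369 .nil)) (.r 48 .nil))) (.node (.I .jac (.c 513 (.c 16 (.c 24 .nil))) (.l 1363986834 .nil)) (.I .ass (.c 13057 (.c 48 (.c 35466557976329 .nil))) .nil))) (.node (.node (.I .com (.c 35466557976329 (.c 48 .nil)) (.l 13057 .nil)) (.I .com (.c 10063013877506449693794530313 (.c 13057 .nil)) .nil)) (.node (.I .ass (.c 13057 (.c 35466557976329 (.c 48 .nil))) .nil) (.I .ass (.c 35466557976329 (.c 13057 (.c 48 .nil))) .nil)))) (.node (.node (.node (.I .com (.c 13057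 (.c 35466557976329 .nil)) (.r 48 .nil)) (.I .ass (.c 13057 (.c 48 (.c 35464401931081 .nil))) .nil)) (.node (.I .com (.c 35464401931081 (.c 48 .nil)) (.l 13057 .nil)) (.I .com (.c 10061790434634094094990628873 (.c 13057 .nil)) .nil))) (.node (.node (.I .ass (.c 13057 (.c 35464401931081 (.c 48 .nil))) .nil) (.I .ass (.c 35464401931081 (.c 13057 (.c 48 .nil))) .nil)) (.node (.I .com (.c 13057 (.c 35464401931081 .nil)) (.r 48 .nil)) (.I .jac (.c 35466557976585 (.c 16 (.c 40 .nil))) (.r 32 .nil)))))) (.node (.node (.node (.node (.I .jac (.c 35470870263817 (.c 16 (.c 24 .nil))) (.r 32 .nil)) (.I .jac (.c 35473026505545 (.c 16 (.c 40 .nil))) (.r 32 .nil))) (.node (.I .jac (.c 2105673 (.c 24 (.c 48 .nil))) (.l 8321 .nil)) (.I .jac (.c 513 (.c 18625 (.c 40 .nil))) (.l 8321 .nil)))) (.node (.node (.I .jac (.c 513 (.c 24 (.c 48 .nil))) (.b 40 (.l 8321 .nil))) (.I .com (.c 10066684875704784911325976521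 (.c 8321 .nil)) .nil)) (.node (.I .com (.c 10065461098071330215985125385 (.c 8321 .nil)) .nil) (.I .jac (.c 513 (.c 16 (.c 32 .nil))) (.r 2775125321 .nil))))) (.node (.node (.node (.I .jac (.c 9024908047478793 (.c 8 (.c 40 .nil))) (.r 32 .nil)) (.I .com (.c 33587465 (.c 244149027818380233 .nil)) .nil)) (.node (.I .jac (.c 9025011228269385 (.c 8 (.c 40 .nil))) (.r 32 .nil)) (.I .jac (.c 33587529 (.c 24 (.c 48 .nil))) (.l 8257 .nil)))) (.node (.node (.I .jac (.c 2049 (.c 24 (.c 48 .nil))) (.b 40 (.l 8257 .nil))) (.I .com (.c 651601654921560200620872561558345 (.c 8257 .nil)) .nil)) (.node (.I .com (.c 651606621363107786267057026226121 (.c 8257 .nil)) .nil) (.I .jac (.c 13748198893136698185 (.c 8 (.c 16 .nil))) (.r 32 .nil))))))) (.node (.node (.node (.node (.node (.I .jac (.c 59109068451510808521 (.c 8 (.c 16 .nil))) (.r 32 .nil)) (.I .adp (.c 13748194865974800393 (.c 32 (.c 2113 .nil))) .nil))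 (.node (.I .jac (.c 13748194865974800393 (.c 8 (.c 16 .nil))) (.r 32 .nil)) (.I .jac (.c 2113 (.c 24 (.c 48 .nil))) (.b 40 (.l 8193 .nil))))) (.node (.node (.I .jac (.c 35466557976521 (.c 16 (.c 48 .nil))) (.r 32 .nil)) (.I .jac (.c 513 (.c 24 (.c 40 .nil))) (.b 48 (.l 8321 .nil)))) (.node (.I .com (.c 10066684875777433669609463625 (.c 8321 .nil)) .nil) (.I .com (.c 10063013877615402959898107913 (.c 8321 .nil)) .nil)))) (.node (.node (.node (.I .jac (.c 513 (.c 16 (.c 32 .nil))) (.r 1350544777 .nil)) (.I .jac (.c 9024908047478729 (.c 8 (.c 48 .nil))) (.r 32 .nil))) (.node (.I .jac (.c 9025011228269513 (.c 8 (.c 24 .nil))) (.r 32 .nil)) (.I .jac (.c 2049 (.c 12993 (.c 48 .nil))) (.l 8257 .nil)))) (.node (.node (.I .com (.c 651606621363126269490052522057545 (.c 8257 .nil)) .nil) (.I .com (.c 651591722123570596944749659643913 (.c 8257 .nil)) .nil)) (.node (.I .jac (.c 2049 (.c 8 (.c 32 .nil)))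 (.r 1350544777 .nil)) (.I .jac (.c 2113 (.c 24 (.c 40 .nil))) (.b 48 (.l 8193 .nil))))))) (.node (.node (.node (.node (.I .jac (.c 8193 (.c 8 (.c 16 .nil))) (.r 1350544777 .nil)) (.I .jac (.c 513 (.c 16 (.c 32 .nil))) (.r 43954883 .nil))) (.node (.I .jac (.c 2049 (.c 8 (.c 32 .nil))) (.r 43954883 .nil)) (.I .jac (.c 35466557976585 (.c 16 (.c 32 .nil))) (.r 40 .nil)))) (.node (.node (.I .jac (.c 35468714087241 (.c 16 (.c 48 .nil))) (.r 40 .nil)) (.I .jac (.c 35468714087433 (.c 16 (.c 24 .nil))) (.r 40 .nil))) (.node (.I .jac (.c 35473026505545 (.c 16 (.c 32 .nil))) (.r 40 .nil)) (.I .jac (.c 513 (.c 18625 (.c 32 .nil))) (.l 12929 .nil))))) (.node (.node (.node (.I .com (.c 10064237432019585310071937033 (.c 12929 .nil)) .nil) (.I .jac (.c 9024908047478793 (.c 8 (.c 32 .nil))) (.r 40 .nil))) (.node (.I .com (.c 33587529 (.c 59934268409707442057 .nil)) .nil) (.I .jac (.c 9024942441009993 (.c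 8 (.c 48 .nil))) (.r 40 .nil)))) (.node (.node (.I .com (.c 651606621363107786267057026226057 (.c 12865 .nil)) .nil) (.I .com (.c 651596688508347287845007406880777 (.c 12865 .nil)) .nil)) (.node (.I .adp (.c 2306972423229201225 (.c 40 (.c 2113 .nil))) .nil) (.I .jac (.c 2306972423229201225 (.c 8 (.c 16 .nil))) (.r 40 .nil))))))))

noncomputable def c5_57 : Tr := (.node (.node (.node (.node (.node (.node (.I .adp (.c 59109068451510808457 (.c 40 (.c 2113 .nil))) .nil) (.I .jac (.c 59109068451510808457 (.c 8 (.c 16 .nil))) (.r 40 .nil))) (.node (.I .jac (.c 2113 (.c 24 (.c 48 .nil))) (.b 32 (.l 12801 .nil))) (.I .com (.c 10063013877579085204530183177 (.c 12929 .nil)) .nil))) (.node (.node (.I .jac (.c 513 (.c 16 (.c 40 .nil))) (.r 562466185 .nil)) (.I .jac (.c 2049 (.c 24 (.c 32 .nil))) (.b 48 (.l 12865 .nil)))) (.node (.I .com (.c 651606621363117027878554774109001 (.c 12865 .nil)) .nil) (.I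 .com (.c 651591722123561355438909041458185 (.c 12865 .nil)) .nil)))) (.node (.node (.node (.I .adp (.c 231045815314584585 (.c 40 (.c 2113 .nil))) .nil) (.I .jac (.c 231045815314584585 (.c 8 (.c 16 .nil))) (.r 40 .nil))) (.node (.I .jac (.c 2113 (.c 24 (.c 32 .nil))) (.b 48 (.l 12801 .nil))) (.I .jac (.c 12801 (.c 8 (.c 16 .nil))) (.r 562466185 .nil)))) (.node (.node (.I .adp (.c 15246325749294281 (.c 40 (.c 513 .nil))) .nil) (.I .com (.c 2105673 (.c 15246325749294281 .nil)) .nil)) (.node (.I .com (.c 15246325749298257 (.c 12929 .nil)) .nil) (.I .jac (.c 513 (.c 16 (.c 40 .nil))) (.r 43655363 .nil)))))) (.node (.node (.node (.node (.I .adp (.c 15246325749294217 (.c 40 (.c 2049 .nil))) .nil) (.I .com (.c 33587529 (.c 15246325749294217 .nil)) .nil)) (.node (.I .com (.c 15246325749310545 (.c 12865 .nil)) .nil) (.I .adp (.c 12801 (.c 43655363 (.c 2113 .nil))) .nil))) (.node (.node (.I .jac (.c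 12801 (.c 8 (.c 16 .nil))) (.r 43655363 .nil)) (.I .jac (.c 513 (.c 32 (.c 40 .nil))) (.l 2756085961 .nil))) (.node (.I .com (.c 35470870263689 (.c 2756085961 .nil)) .nil) (.I .com (.c 35468714087369 (.c 2756085961 .nil)) .nil)))) (.node (.node (.node (.I .jac (.c 513 (.c 32 (.c 40 .nil))) (.l 179513737 .nil)) (.I .com (.c 35470870263689 (.c 179513737 .nil)) .nil)) (.node (.I .com (.c 35468714087369 (.c 179513737 .nil)) .nil) (.I .jac (.c 2105609 (.c 16 (.c 40 .nil))) (.r 18625 .nil)))) (.node (.node (.I .jac (.c 513 (.c 24 (.c 48 .nil))) (.l 553912649 .nil)) (.I .com (.c 35473026505545 (.c 553912649 .nil)) .nil)) (.node (.I .com (.c 35466557976585 (.c 553912649 .nil)) .nil) (.I .jac (.c 2105673 (.c 16 (.c 32 .nil))) (.r 18625 .nil))))))) (.node (.node (.node (.node (.node (.I .com (.c 9024976834606985 (.c 2737112265 .nil)) .nil) (.I .com (.c 9024942441010121 (.c 174695817 .nil)) .nil))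 (.node (.I .jac (.c 33587593 (.c 8 (.c 24 .nil))) (.r 13057 .nil)) (.I .jac (.c 2049 (.c 24 (.c 48 .nil))) (.l 1324066057 .nil)))) (.node (.node (.I .com (.c 9025011228269385 (.c 1324066057 .nil)) .nil) (.I .com (.c 9024908047478793 (.c 1324066057 .nil)) .nil)) (.node (.I .jac (.c 33587465 (.c 8 (.c 40 .nil))) (.r 18625 .nil)) (.I .jac (.c 33587529 (.c 8 (.c 32 .nil))) (.r 18625 .nil))))) (.node (.node (.node (.I .adp (.c 2718204105 (.c 13057 (.c 2113 .nil))) .nil) (.I .jac (.c 2113 (.c 32 (.c 40 .nil))) (.l 2718204105 .nil))) (.node (.I .jac (.c 2718204105 (.c 8 (.c 16 .nil))) (.r 13057 .nil)) (.I .jac (.c 2113 (.c 32 (.c 40 .nil))) (.l 169943433 .nil)))) (.node (.node (.I .jac (.c 169943433 (.c 8 (.c 16 .nil))) (.r 13057 .nil)) (.I .adp (.c 1310925065 (.c 18625 (.c 2113 .nil))) .nil)) (.node (.I .jac (.c 2113 (.c 24 (.c 48 .nil))) (.l 1310925065 .nil)) (.I .adp (.c 537002313 (.c 18625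 (.c 2113 .nil))) .nil))))) (.node (.node (.node (.node (.I .jac (.c 2113 (.c 24 (.c 48 .nil))) (.l 537002313 .nil)) (.I .jac (.c 537002313 (.c 8 (.c 16 .nil))) (.r 18625 .nil))) (.node (.I .jac (.c 513 (.c 43954819 (.c 24 .nil))) (.r 32 .nil)) (.I .com (.c 2105609 (.c 3561389332330953 .nil)) .nil))) (.node (.node (.I .jac (.c 513 (.c 21099139 (.c 48 .nil))) (.r 32 .nil)) (.I .jac (.c 4609 (.c 20891715 (.c 48 .nil))) (.r 32 .nil))) (.node (.I .jac (.c 18433 (.c 20891715 (.c 24 .nil))) (.r 32 .nil)) (.I .adp (.c 21307523 (.c 18625 (.c 513 .nil))) .nil)))) (.node (.node (.node (.I .com (.c 2105609 (.c 18625 .nil)) (.l 12929 .nil)) (.I .com (.c 1859581781071896992296047629789001 (.c 12929 .nil)) .nil)) (.node (.I .com (.c 617620517563473 (.c 12929 .nil)) .nil) (.I .com (.c 3051640828265749411890955905033 (.c 12929 .nil)) .nil))) (.node (.node (.I .ass (.c 12929 (.c 35473026505545 (.c 32 .nil)))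 .nil) (.I .ass (.c 35473026505545 (.c 12929 (.c 32 .nil))) .nil)) (.node (.I .com (.c 12929 (.c 35473026505545 .nil)) (.r 32 .nil)) (.I .ass (.c 12929 (.c 35466557976585 (.c 32 .nil))) .nil)))))))

noncomputable def c5_58 : Tr := (.node (.node (.node (.node (.node (.node (.I .ass (.c 35466557976585 (.c 12929 (.c 32 .nil))) .nil) (.I .com (.c 12929 (.c 35466557976585 .nil)) (.r 32 .nil))) (.node (.I .ass (.c 12929 (.c 2105609 (.c 18625 .nil))) .nil) (.I .ass (.c 2105609 (.c 12929 (.c 18625 .nil))) .nil))) (.node (.node (.I .com (.c 12929 (.c 2105609 .nil)) (.r 18625 .nil)) (.I .com (.c 29219431338612914847243612605233219589382418649756010576090385527497 (.c 32 .nil)) .nil)) (.node (.I .com (.c 24783224170186708860719149059567241173199868443197257919485429653193 (.c 32 .nil)) .nil) (.I .jac (.c 0 (.c 8652867 (.c 40 .nil))) (.r 18625 .nil))))) (.node (.node (.node (.I .jac (.c 0 (.c 21307459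 (.c 16 .nil))) (.b 18625 .nil)) (.I .jac (.c 0 (.c 8786499 (.c 48 .nil))) (.b 12929 .nil))) (.node (.I .com (.c 1911132888452975777501314320077513 (.c 8321 .nil)) .nil) (.I .com (.c 3561367726992465 (.c 8321 .nil)) .nil))) (.node (.node (.I .com (.c 101466720686505037251115829520393 (.c 8321 .nil)) .nil) (.I .ass (.c 8321 (.c 35473026505545 (.c 40 .nil))) .nil)) (.node (.I .ass (.c 35473026505545 (.c 8321 (.c 40 .nil))) .nil) (.I .com (.c 8321 (.c 35473026505545 .nil)) (.r 40 .nil)))))) (.node (.node (.node (.node (.I .ass (.c 8321 (.c 35466557976585 (.c 40 .nil))) .nil) (.I .ass (.c 35466557976585 (.c 8321 (.c 40 .nil))) .nil)) (.node (.I .com (.c 8321 (.c 35466557976585 .nil)) (.r 40 .nil)) (.I .jac (.c 8193 (.c 2803779 (.c 48 .nil))) (.l 40 .nil)))) (.node (.node (.I .com (.c 8007571589612989335961665235786490713886726698447501114057 (.c 40 .nil)) .nil) (.I .com (.c 2306972423251631265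 (.c 40 .nil)) .nil)) (.node (.I .com (.c 31640626737771738483866570249 (.c 40 .nil)) .nil) (.I .com (.c 8009034007753174566127033588678893513899209520779704828809 (.c 40 .nil)) .nil)))) (.node (.node (.node (.I .com (.c 31640626655341326351373012617 (.c 40 .nil)) .nil) (.I .jac (.c 0 (.c 20891715 (.c 32 .nil))) (.r 18625 .nil))) (.node (.I .jac (.c 0 (.c 20891715 (.c 32 .nil))) (.b 18625 .nil)) (.I .com (.c 33587465 (.c 3561367726845385 .nil)) .nil))) (.node (.node (.I .com (.c 33587529 (.c 15246236343241993 .nil)) .nil) (.I .adp (.c 617620517416393 (.c 40 (.c 2049 .nil))) .nil)) (.node (.I .com (.c 58240646186319479625272581887717718545853334101767720972064521 (.c 40 .nil)) .nil) (.I .jac (.c 3561389332330569 (.c 8 (.c 48 .nil))) (.r 32 .nil))))))) (.node (.node (.node (.node (.node (.I .jac (.c 4609 (.c 8 (.c 43954819 .nil))) (.r 32 .nil)) (.I .com (.c 58240646186242460541317411874801925428841500682353038660420361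 (.c 40 .nil)) .nil)) (.node (.I .jac (.c 15456208906582089 (.c 8 (.c 24 .nil))) (.r 32 .nil)) (.I .jac (.c 18433 (.c 8 (.c 21099139 .nil))) (.r 32 .nil)))) (.node (.node (.I .jac (.c 2049 (.c 24 (.c 48 .nil))) (.l 21307459 .nil)) (.I .com (.c 9025011228269385 (.c 21307459 .nil)) .nil)) (.node (.I .com (.c 9024908047478793 (.c 21307459 .nil)) .nil) (.I .com (.c 33587465 (.c 18625 .nil)) (.l 12865 .nil))))) (.node (.node (.node (.I .com (.c 3051551917826763369823227313929 (.c 12865 .nil)) .nil) (.I .com (.c 617629514971217 (.c 12865 .nil)) .nil)) (.node (.I .com (.c 3051729740651396214165224040457 (.c 12865 .nil)) .nil) (.I .ass (.c 12865 (.c 9025011228269385 (.c 32 .nil))) .nil))) (.node (.node (.I .ass (.c 9025011228269385 (.c 12865 (.c 32 .nil))) .nil) (.I .com (.c 12865 (.c 9025011228269385 .nil)) (.r 32 .nil))) (.node (.I .ass (.c 12865 (.c 9024908047478793 (.c 32 .nil))) .nil) (.I .ass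 (.c 9024908047478793 (.c 12865 (.c 32 .nil))) .nil))))) (.node (.node (.node (.node (.I .com (.c 12865 (.c 9024908047478793 .nil)) (.r 32 .nil)) (.I .ass (.c 12865 (.c 33587465 (.c 18625 .nil))) .nil)) (.node (.I .ass (.c 33587465 (.c 12865 (.c 18625 .nil))) .nil) (.I .com (.c 12865 (.c 33587465 .nil)) (.r 18625 .nil)))) (.node (.node (.I .jac (.c 15456208906582089 (.c 8 (.c 24 .nil))) (.l 32 .nil)) (.I .jac (.c 18433 (.c 8 (.c 21099139 .nil))) (.l 32 .nil))) (.node (.I .jac (.c 3561389332330569 (.c 8 (.c 48 .nil))) (.l 32 .nil)) (.I .jac (.c 4609 (.c 8 (.c 43954819 .nil))) (.l 32 .nil))))) (.node (.node (.node (.I .com (.c 29220112062374340779692772142339364419449699618982151301797613573833 (.c 32 .nil)) .nil) (.I .com (.c 101467951819906635818531420392777 (.c 32 .nil)) .nil)) (.node (.I .com (.c 82365961958573271866848171381574870661362170256856900442600669897 (.c 32 .nil)) .nil) (.I .com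 (.c 1911155150120378383021731557756233 (.c 32 .nil)) .nil))) (.node (.node (.I .com (.c 29219431338612914847243612605231262589304642802559849230226626121481 (.c 32 .nil)) .nil) (.I .com (.c 23450673742498311880358975801698568264628776966019601293978485628681 (.c 32 .nil)) .nil)) (.node (.I .com (.c 6441087201774154803902012151386361471235253502684891209481 (.c 32 .nil)) .nil) (.I .com (.c 1911155150112274878166506705866185 (.c 32 .nil)) .nil)))))))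

noncomputable def c5_59 : Tr := (.node (.node (.node (.node (.node (.node (.I .com (.c 3561389349176465 (.c 32 .nil)) .nil) (.I .com (.c 101467951811737663423431024135817 (.c 32 .nil)) .nil)) (.node (.I .com (.c 15456208923426449 (.c 32 .nil)) .nil) (.I .jac (.c 0 (.c 8 (.c 21307523 .nil))) (.r 18625 .nil)))) (.node (.node (.I .com (.c 1911132888452975777501314320077577 (.c 8257 .nil)) .nil) (.I .com (.c 101465489572731241235138809397001 (.c 8257 .nil)) .nil)) (.node (.I .com (.c 3561389332478033 (.c 8257 .nil)) .nil) (.I .com (.c 101467951811503808354312734910473 (.c 8257 .nil)) .nil)))) (.node (.node (.node (.I .com (.c 15456208906618961 (.c 8257 .nil)) .nil) (.I .ass (.c 8257 (.c 9025011228269385 (.c 40 .nil))) .nil)) (.node (.I .ass (.c 9025011228269385 (.c 8257 (.c 40 .nil))) .nil) (.I .com (.c 8257 (.c 9025011228269385 .nil)) (.r 40 .nil)))) (.node (.node (.I .ass (.c 8257 (.c 9024908047478793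 (.c 40 .nil))) .nil) (.I .ass (.c 9024908047478793 (.c 8257 (.c 40 .nil))) .nil)) (.node (.I .com (.c 8257 (.c 9024908047478793 .nil)) (.r 40 .nil)) (.I .com (.c 23450673742498311880358975801696815059932006865892573868576633846537 (.c 40 .nil)) .nil))))) (.node (.node (.node (.node (.I .com (.c 6441087201774154803902012122330446725508489196653466204937 (.c 40 .nil)) .nil) (.I .com (.c 21307395 (.c 18625 .nil)) (.b 2113 .nil))) (.node (.I .adp (.c 15456118887244041 (.c 32 (.c 2113 .nil))) .nil) (.I .jac (.c 15456118887244041 (.c 8 (.c 16 .nil))) (.r 32 .nil)))) (.node (.node (.I .adp (.c 15246191640314121 (.c 40 (.c 2113 .nil))) .nil) (.I .adp (.c 21307395 (.c 18625 (.c 2113 .nil))) .nil)) (.node (.I .jac (.c 21307395 (.c 8 (.c 16 .nil))) (.r 18625 .nil)) (.I .jac (.c 8 (.c 43655299 (.c 24 .nil))) (.l 12801 .nil))))) (.node (.node (.node (.I .tdb (.c 8 (.c 16 (.c 32 (.c 18625 .nil)))) (.l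 12801 .nil)) (.I .adp (.c 18625 (.c 32 (.c 2113 .nil))) (.l 12801 .nil))) (.node (.I .com (.c 35718409 (.c 18625 .nil)) (.l 12801 .nil)) (.I .jac (.c 2113 (.c 24 (.c 48 .nil))) (.r 32 (.l 12801 .nil))))) (.node (.node (.I .tdb (.c 0 (.c 40 (.c 8 (.c 32 .nil)))) (.b 16 (.b 18625 .nil))) (.I .tdb (.c 8 (.c 16 (.c 32 (.c 12801 .nil)))) (.b 18625 .nil))) (.node (.I .jac (.c 8 (.c 43954819 (.c 24 .nil))) (.l 8193 .nil)) (.I .tdb (.c 8 (.c 16 (.c 40 (.c 18625 .nil)))) (.l 8193 .nil))))))) (.node (.node (.node (.node (.node (.I .adp (.c 18625 (.c 40 (.c 2113 .nil))) (.l 8193 .nil)) (.I .com (.c 35718473 (.c 18625 .nil)) (.l 8193 .nil))) (.node (.I .jac (.c 2113 (.c 24 (.c 48 .nil))) (.r 40 (.l 8193 .nil))) (.I .tdb (.c 0 (.c 32 (.c 8 (.c 40 .nil)))) (.b 16 (.b 18625 .nil))))) (.node (.node (.I .com (.c 10064237432092225236522737481 (.c 18561 .nil)) .nil) (.I .com (.c 10063013877615402959898107785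 (.c 18561 .nil)) .nil)) (.node (.I .com (.c 10064237432019585310071936969 (.c 18561 .nil)) .nil) (.I .jac (.c 35466557976521 (.c 16 (.c 32 .nil))) (.r 48 .nil))))) (.node (.node (.node (.I .jac (.c 35468714087241 (.c 16 (.c 40 .nil))) (.r 48 .nil)) (.I .jac (.c 2049 (.c 24 (.c 40 .nil))) (.b 32 (.l 18497 .nil)))) (.node (.I .com (.c 651596688508365770927126595477321 (.c 18497 .nil)) .nil) (.I .com (.c 651591722123570596944749659643785 (.c 18497 .nil)) .nil))) (.node (.node (.I .com (.c 651596688508347287845007406880713 (.c 18497 .nil)) .nil) (.I .jac (.c 2049 (.c 8 (.c 48 .nil))) (.r 1350544649 .nil))) (.node (.I .com (.c 33587593 (.c 14025206030552608649 .nil)) .nil) (.I .com (.c 33587593 (.c 2379903823379378121 .nil)) .nil))))) (.node (.node (.node (.node (.I .jac (.c 35718409 (.c 24 (.c 40 .nil))) (.l 18433 .nil)) (.I .jac (.c 18433 (.c 8 (.c 16 .nil))) (.r 1350544649 .nil))) (.node (.I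 .jac (.c 2105673 (.c 24 (.c 32 .nil))) (.l 18561 .nil)) (.I .jac (.c 513 (.c 24 (.c 32 .nil))) (.b 40 (.l 18561 .nil))))) (.node (.node (.I .com (.c 10065461098107652387135109961 (.c 18561 .nil)) .nil) (.I .jac (.c 513 (.c 16 (.c 48 .nil))) (.r 562466121 .nil))) (.node (.I .jac (.c 35466557976457 (.c 16 (.c 40 .nil))) (.r 48 .nil)) (.I .com (.c 651601654921541717468315286321993 (.c 18497 .nil)) .nil)))) (.node (.node (.node (.I .jac (.c 2049 (.c 8 (.c 48 .nil))) (.r 562466121 .nil)) (.I .com (.c 33587593 (.c 244148670041478089 .nil)) .nil)) (.node (.I .jac (.c 35718473 (.c 24 (.c 32 .nil))) (.l 18433 .nil)) (.I .jac (.c 18433 (.c 8 (.c 16 .nil))) (.r 562466121 .nil)))) (.node (.node (.I .adp (.c 231045815314584521 (.c 48 (.c 2113 .nil))) .nil) (.I .jac (.c 231045815314584521 (.c 8 (.c 16 .nil))) (.r 48 .nil))) (.node (.I .com (.c 3632106110104657 (.c 18561 .nil)) .nil) (.I .com (.c 3632106110116945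 (.c 18497 .nil)) .nil)))))))

noncomputable def c5_60 : Tr := (.node (.node (.node (.node (.node (.node (.I .jac (.c 513 (.c 24 (.c 40 .nil))) (.l 2756086025 .nil)) (.I .com (.c 35470870263625 (.c 2756086025 .nil)) .nil)) (.node (.I .com (.c 35466557976521 (.c 2756086025 .nil)) .nil) (.I .jac (.c 2105609 (.c 16 (.c 48 .nil))) (.r 12993 .nil)))) (.node (.node (.I .jac (.c 513 (.c 24 (.c 40 .nil))) (.l 553912713 .nil)) (.I .com (.c 35470870263625 (.c 553912713 .nil)) .nil)) (.node (.I .com (.c 35466557976521 (.c 553912713 .nil)) .nil) (.I .jac (.c 2105737 (.c 16 (.c 32 .nil))) (.r 12993 .nil))))) (.node (.node (.node (.I .jac (.c 2105545 (.c 16 (.c 40 .nil))) (.r 18689 .nil)) (.I .jac (.c 513 (.c 32 (.c 48 .nil))) (.l 179513673 .nil))) (.node (.I .com (.c 35473026505609 (.c 179513673 .nil)) .nil) (.I .com (.c 35468714087433 (.c 179513673 .nil)) .nil))) (.node (.node (.I .jac (.c 33587465 (.c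 8 (.c 48 .nil))) (.r 12993 .nil)) (.I .com (.c 9024908047478729 (.c 545424777 .nil)) .nil)) (.node (.I .jac (.c 2049 (.c 32 (.c 48 .nil))) (.l 1324065993 .nil)) (.I .com (.c 9024942441010185 (.c 1324065993 .nil)) .nil))))) (.node (.node (.node (.node (.I .jac (.c 33587401 (.c 8 (.c 40 .nil))) (.r 18689 .nil)) (.I .jac (.c 33587529 (.c 8 (.c 24 .nil))) (.r 18689 .nil))) (.node (.I .jac (.c 2113 (.c 24 (.c 40 .nil))) (.l 2718204169 .nil)) (.I .jac (.c 2718204169 (.c 8 (.c 16 .nil))) (.r 12993 .nil)))) (.node (.node (.I .adp (.c 537002377 (.c 12993 (.c 2113 .nil))) .nil) (.I .jac (.c 2113 (.c 24 (.c 40 .nil))) (.l 537002377 .nil))) (.node (.I .jac (.c 537002377 (.c 8 (.c 16 .nil))) (.r 12993 .nil)) (.I .adp (.c 1310925001 (.c 18689 (.c 2113 .nil))) .nil)))) (.node (.node (.node (.I .jac (.c 2113 (.c 32 (.c 48 .nil))) (.l 1310925001 .nil)) (.I .jac (.c 2113 (.c 32 (.c 48 .nil))) (.l 169943369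 .nil))) (.node (.I .jac (.c 169943369 (.c 8 (.c 16 .nil))) (.r 18689 .nil)) (.I .com (.c 2105609 (.c 15038498931046793 .nil)) .nil))) (.node (.node (.I .jac (.c 513 (.c 43356803 (.c 40 .nil))) (.r 32 .nil)) (.I .jac (.c 513 (.c 24 (.c 40 .nil))) (.l 43655299 .nil))) (.node (.I .com (.c 35470870263625 (.c 43655299 .nil)) .nil) (.I .com (.c 35466557976521 (.c 43655299 .nil)) .nil)))))) (.node (.node (.node (.node (.node (.I .jac (.c 0 (.c 21307459 (.c 24 .nil))) (.l 18561 .nil)) (.I .jac (.c 0 (.c 8786499 (.c 40 .nil))) (.l 18561 .nil))) (.node (.I .com (.c 2105609 (.c 12993 .nil)) (.l 18561 .nil)) (.I .com (.c 105533754468739142964158285779657 (.c 18561 .nil)) .nil))) (.node (.node (.I .com (.c 3051551917826130935626671381193 (.c 18561 .nil)) .nil) (.I .com (.c 105535022421139207878223746525001 (.c 18561 .nil)) .nil)) (.node (.I .com (.c 617620517518417 (.c 18561 .nil)) .nil) (.I .ass (.c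 18561 (.c 35470870263625 (.c 32 .nil))) .nil)))) (.node (.node (.node (.I .ass (.c 35470870263625 (.c 18561 (.c 32 .nil))) .nil) (.I .com (.c 18561 (.c 35470870263625 .nil)) (.r 32 .nil))) (.node (.I .ass (.c 18561 (.c 35466557976521 (.c 32 .nil))) .nil) (.I .ass (.c 35466557976521 (.c 18561 (.c 32 .nil))) .nil))) (.node (.node (.I .com (.c 18561 (.c 35466557976521 .nil)) (.r 32 .nil)) (.I .ass (.c 18561 (.c 2105609 (.c 12993 .nil))) .nil)) (.node (.I .ass (.c 2105609 (.c 18561 (.c 12993 .nil))) .nil) (.I .com (.c 18561 (.c 2105609 .nil)) (.r 12993 .nil)))))) (.node (.node (.node (.node (.I .jac (.c 12801 (.c 43356739 (.c 16 .nil))) (.l 32 .nil)) (.I .jac (.c 4609 (.c 20891715 (.c 48 .nil))) (.l 32 .nil))) (.node (.I .com (.c 29219431338612430885229781418976216775048210836066696362622595045065 (.c 32 .nil)) .nil) (.I .com (.c 76104792608257399621125824957850823471303513498263777714085041865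 (.c 32 .nil)) .nil))) (.node (.node (.I .com (.c 1809240918125058143785381773217161 (.c 32 .nil)) .nil) (.I .com (.c 97536312322321279970645807041993 (.c 32 .nil)) .nil)) (.node (.I .com (.c 76106657758642486978324907789974561240542867680914137624626234185 (.c 32 .nil)) .nil) (.I .com (.c 26186821597830724738774049788021605992987777185030068365066306188233 (.c 32 .nil)) .nil)))) (.node (.node (.node (.I .com (.c 1809240918104361380502550347746889 (.c 32 .nil)) .nil) (.I .com (.c 231046163525737633 (.c 32 .nil)) .nil)) (.node (.I .com (.c 97536312316142796813506799111817 (.c 32 .nil)) .nil) (.I .com (.c 13748193523934485665 (.c 32 .nil)) .nil))) (.node (.node (.I .jac (.c 0 (.c 43655235 (.c 16 .nil))) (.r 12993 .nil)) (.I .jac (.c 0 (.c 43655235 (.c 16 .nil))) (.b 12993 .nil))) (.node (.I .jac (.c 0 (.c 8652867 (.c 48 .nil))) (.b 12993 .nil)) (.I .com (.c 2105737 (.c 3632084291164425 .nil))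 .nil)))))))

noncomputable def c5_61 : Tr := (.node (.node (.node (.node (.node (.node (.I .com (.c 2105737 (.c 617629514824073 .nil)) .nil) (.I .jac (.c 12801 (.c 43356739 (.c 16 .nil))) (.r 32 .nil))) (.node (.I .jac (.c 2049 (.c 43356739 (.c 40 .nil))) (.r 32 .nil)) (.I .jac (.c 8786435 (.c 16 (.c 40 .nil))) (.b 8 (.b 48 .nil))))) (.node (.node (.I .com (.c 1809230235455531025412364982344393 (.c 8321 .nil)) .nil) (.I .com (.c 1809240918100417214955082230360009 (.c 8321 .nil)) .nil)) (.node (.I .jac (.c 0 (.c 43059267 (.c 32 .nil))) (.r 12993 .nil)) (.I .com (.c 33587465 (.c 15038454533713289 .nil)) .nil)))) (.node (.node (.node (.I .jac (.c 2049 (.c 24 (.c 40 .nil))) (.l 43655235 .nil)) (.I .com (.c 9024976834606921 (.c 43655235 .nil)) .nil)) (.node (.I .com (.c 9024908047478729 (.c 43655235 .nil)) .nil) (.I .jac (.c 0 (.c 21307523 (.c 24 .nil))) (.l 18497 .nil)))) (.node (.node (.I .jac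 (.c 0 (.c 8786563 (.c 40 .nil))) (.l 18497 .nil)) (.I .com (.c 33587465 (.c 12993 .nil)) (.l 18497 .nil))) (.node (.I .com (.c 3051551917826130935626671381257 (.c 18497 .nil)) .nil) (.I .com (.c 105536290384975911038036627826505 (.c 18497 .nil)) .nil))))) (.node (.node (.node (.node (.I .com (.c 3632084291201105 (.c 18497 .nil)) .nil) (.I .ass (.c 18497 (.c 9024976834606921 (.c 32 .nil))) .nil)) (.node (.I .ass (.c 9024976834606921 (.c 18497 (.c 32 .nil))) .nil) (.I .com (.c 18497 (.c 9024976834606921 .nil)) (.r 32 .nil)))) (.node (.node (.I .ass (.c 18497 (.c 9024908047478729 (.c 32 .nil))) .nil) (.I .ass (.c 9024908047478729 (.c 18497 (.c 32 .nil))) .nil)) (.node (.I .com (.c 18497 (.c 9024908047478729 .nil)) (.r 32 .nil)) (.I .ass (.c 18497 (.c 33587465 (.c 12993 .nil))) .nil)))) (.node (.node (.node (.I .ass (.c 33587465 (.c 18497 (.c 12993 .nil))) .nil) (.I .com (.c 18497 (.c 33587465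 .nil)) (.r 12993 .nil))) (.node (.I .jac (.c 12801 (.c 8 (.c 43356803 .nil))) (.l 32 .nil)) (.I .com (.c 1809251600817328290237716700417353 (.c 32 .nil)) .nil))) (.node (.node (.I .com (.c 29219431338611946923215950238729161199563579974145017446079347480329 (.c 32 .nil)) .nil) (.I .com (.c 70295418264037085081049688170555673261203244033357058660806432521 (.c 32 .nil)) .nil)) (.node (.I .com (.c 29220112062374340779692772142335450373702271758580661658759238668105 (.c 32 .nil)) .nil) (.I .com (.c 26187130839767211929984184877253916925759421657949693875416199221193 (.c 32 .nil)) .nil)))))) (.node (.node (.node (.node (.node (.I .com (.c 1809251600793674776654951456263753 (.c 32 .nil)) .nil) (.I .com (.c 13748192181547383457 (.c 32 .nil)) .nil)) (.node (.I .com (.c 231045293600684705 (.c 32 .nil)) .nil) (.I .jac (.c 0 (.c 8 (.c 43655299 .nil))) (.r 12993 .nil)))) (.node (.node (.I .com (.c 33587593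 (.c 617620517416329 .nil)) .nil) (.I .jac (.c 15038498931046473 (.c 8 (.c 40 .nil))) (.r 32 .nil))) (.node (.I .jac (.c 12801 (.c 8 (.c 43356803 .nil))) (.r 32 .nil)) (.I .tdb (.c 4673 (.c 40 (.c 16 (.c 32 .nil)))) (.b 0 (.b 48 .nil)))))) (.node (.node (.node (.I .tdb (.c 8 (.c 24 (.c 32 (.c 16 .nil)))) (.b 40 (.b 0 (.b 48 .nil)))) (.I .com (.c 1809230235455531025412364982344457 (.c 8257 .nil)) .nil)) (.node (.I .com (.c 70295418264021313545660038924892751035385032092094293128619817737 (.c 48 .nil)) .nil) (.I .com (.c 43655171 (.c 12993 .nil)) (.b 2113 .nil)))) (.node (.node (.I .tdb (.c 8 (.c 16 (.c 32 (.c 12993 .nil)))) (.l 18433 .nil)) (.I .adp (.c 12993 (.c 32 (.c 2113 .nil))) (.l 18433 .nil))) (.node (.I .com (.c 35718409 (.c 12993 .nil)) (.l 18433 .nil)) (.I .jac (.c 2113 (.c 24 (.c 40 .nil))) (.r 32 (.l 18433 .nil))))))) (.node (.node (.node (.node (.I .com (.c 26187130839767211929984184877261327620316268505084049917496119451337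 (.c 32 .nil)) .nil) (.I .com (.c 26186821597830724738774049788027163981088181666714410377677971840777 (.c 32 .nil)) .nil)) (.node (.I .tdb (.c 8 (.c 16 (.c 32 (.c 48 .nil)))) (.b 1310925001 .nil)) (.I .jac (.c 8 (.c 43356803 (.c 40 .nil))) (.l 8193 .nil)))) (.node (.node (.I .tdb (.c 0 (.c 32 (.c 16 (.c 48 .nil)))) (.b 8 (.b 12993 .nil))) (.I .jac (.c 513 (.c 24 (.c 32 .nil))) (.l 2756086089 .nil))) (.node (.I .com (.c 35468714087241 (.c 2756086089 .nil)) .nil) (.I .com (.c 35466557976457 (.c 2756086089 .nil)) .nil)))) (.node (.node (.node (.I .jac (.c 2105673 (.c 16 (.c 48 .nil))) (.r 8385 .nil)) (.I .jac (.c 2105545 (.c 16 (.c 32 .nil))) (.r 18753 .nil))) (.node (.I .com (.c 9024908047478665 (.c 2737112393 .nil)) .nil) (.I .com (.c 9024908047478665 (.c 1324066185 .nil)) .nil))) (.node (.node (.I .com (.c 9025011228269513 (.c 545424585 .nil)) .nil) (.I .jac (.c 33587401 (.c 8 (.c 32 .nil)))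 (.r 18753 .nil))) (.node (.I .jac (.c 2049 (.c 40 (.c 48 .nil))) (.l 174695689 .nil)) (.I .com (.c 9024976834607113 (.c 174695689 .nil)) .nil)))))))

noncomputable def c5_62 : Tr := (.node (.node (.node (.node (.node (.node (.I .jac (.c 2113 (.c 24 (.c 32 .nil))) (.l 2718204233 .nil)) (.I .jac (.c 2718204233 (.c 8 (.c 16 .nil))) (.r 8385 .nil))) (.node (.I .jac (.c 2113 (.c 40 (.c 48 .nil))) (.l 537002185 .nil)) (.I .jac (.c 537002185 (.c 8 (.c 16 .nil))) (.r 18753 .nil)))) (.node (.node (.I .jac (.c 513 (.c 24 (.c 32 .nil))) (.l 43954819 .nil)) (.I .com (.c 35468714087241 (.c 43954819 .nil)) .nil)) (.node (.I .com (.c 35466557976457 (.c 43954819 .nil)) .nil) (.I .com (.c 2105673 (.c 15038498931046729 .nil)) .nil)))) (.node (.node (.node (.I .jac (.c 513 (.c 43356803 (.c 32 .nil))) (.r 40 .nil)) (.I .tdb (.c 0 (.c 8 (.c 40 (.c 8385 .nil)))) (.l 18561 .nil))) (.node (.I .tdb (.c 24 (.c 32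 (.c 0 (.c 40 .nil)))) (.b 8 (.l 18561 .nil))) (.I .tdb (.c 24 (.c 32 (.c 8 (.c 40 .nil)))) (.b 0 (.l 18561 .nil))))) (.node (.node (.I .adp (.c 8385 (.c 40 (.c 513 .nil))) (.l 18561 .nil)) (.I .com (.c 2105673 (.c 8385 .nil)) (.l 18561 .nil))) (.node (.I .jac (.c 513 (.c 24 (.c 32 .nil))) (.r 40 (.l 18561 .nil))) (.I .ass (.c 18561 (.c 2105673 (.c 8385 .nil))) .nil))))) (.node (.node (.node (.node (.I .ass (.c 2105673 (.c 18561 (.c 8385 .nil))) .nil) (.I .com (.c 18561 (.c 2105673 .nil)) (.r 8385 .nil))) (.node (.I .jac (.c 8193 (.c 43356739 (.c 16 .nil))) (.l 40 .nil)) (.I .com (.c 26186512359090472543188603966562695456857129399664195120249449265865 (.c 40 .nil)) .nil))) (.node (.node (.I .com (.c 1809240918116188102378439523929481 (.c 40 .nil)) .nil) (.I .com (.c 26186821597830724738774049788021605992987777185030068365066306188169 (.c 40 .nil)) .nil)) (.node (.I .com (.c 1809240918104361380502550347746825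 (.c 40 .nil)) .nil) (.I .com (.c 2306970224014843041 (.c 40 .nil)) .nil)))) (.node (.node (.node (.I .jac (.c 0 (.c 43954755 (.c 16 .nil))) (.r 8385 .nil)) (.I .jac (.c 0 (.c 43954755 (.c 16 .nil))) (.b 8385 .nil))) (.node (.I .jac (.c 0 (.c 20891715 (.c 48 .nil))) (.b 8385 .nil)) (.I .tdb (.c 16 (.c 48 (.c 8 (.c 40 .nil)))) (.b 0 (.b 8385 .nil))))) (.node (.node (.I .tdb (.c 0 (.c 8 (.c 40 (.c 18561 .nil)))) (.b 8385 .nil)) (.I .tdb (.c 16 (.c 48 (.c 0 (.c 40 .nil)))) (.b 8 (.b 8385 .nil)))) (.node (.I .jac (.c 0 (.c 21099075 (.c 32 .nil))) (.b 18561 .nil)) (.I .com (.c 1809230235455515626080385262368457 (.c 12929 .nil)) .nil)))))) (.node (.node (.node (.node (.node (.I .jac (.c 0 (.c 43059267 (.c 40 .nil))) (.b 8385 .nil)) (.I .jac (.c 8193 (.c 43356739 (.c 16 .nil))) (.r 40 .nil))) (.node (.I .jac (.c 2049 (.c 43356739 (.c 32 .nil))) (.r 40 .nil)) (.I .tdb (.c 16 (.c 32 (.c 0 (.c 40 .nil))))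 (.b 24 (.b 8 (.b 48 .nil)))))) (.node (.node (.I .tdb (.c 24 (.c 8321 (.c 0 (.c 40 .nil)))) (.b 8 (.b 48 .nil))) (.I .jac (.c 2049 (.c 24 (.c 32 .nil))) (.l 43954755 .nil))) (.node (.I .com (.c 9024942441009993 (.c 43954755 .nil)) .nil) (.I .com (.c 9024908047478665 (.c 43954755 .nil)) .nil)))) (.node (.node (.node (.I .tdb (.c 0 (.c 16 (.c 40 (.c 8385 .nil)))) (.l 18497 .nil)) (.I .tdb (.c 24 (.c 32 (.c 0 (.c 40 .nil)))) (.b 16 (.l 18497 .nil)))) (.node (.I .tdb (.c 24 (.c 32 (.c 16 (.c 40 .nil)))) (.b 0 (.l 18497 .nil))) (.I .adp (.c 8385 (.c 40 (.c 2049 .nil))) (.l 18497 .nil)))) (.node (.node (.I .com (.c 33587529 (.c 8385 .nil)) (.l 18497 .nil)) (.I .jac (.c 2049 (.c 24 (.c 32 .nil))) (.r 40 (.l 18497 .nil)))) (.node (.I .com (.c 101465489572723947598282130405129 (.c 18497 .nil)) .nil) (.I .ass (.c 18497 (.c 33587529 (.c 8385 .nil))) .nil))))) (.node (.node (.node (.node (.I .ass (.c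 33587529 (.c 18497 (.c 8385 .nil))) .nil) (.I .com (.c 18497 (.c 33587529 .nil)) (.r 8385 .nil))) (.node (.I .jac (.c 8193 (.c 8 (.c 43356803 .nil))) (.l 40 .nil)) (.I .com (.c 1809251600808458222644161614466377 (.c 40 .nil)) .nil))) (.node (.node (.I .com (.c 26186512359090026768196227558961301156345883085621217037498232634121 (.c 40 .nil)) .nil) (.I .com (.c 26187130839767211929984184877253916925759421657949693875416199221129 (.c 40 .nil)) .nil)) (.node (.I .com (.c 1809251600793674776654951456263689 (.c 40 .nil)) .nil) (.I .com (.c 2306969674124704417 (.c 40 .nil)) .nil)))) (.node (.node (.node (.I .jac (.c 0 (.c 8 (.c 43954819 .nil))) (.r 8385 .nil)) (.I .com (.c 1809230235455515626080385262368521 (.c 12865 .nil)) .nil)) (.node (.I .com (.c 70295418264026570724123255045173558057950527221325376179752113929 (.c 48 .nil)) .nil) (.I .jac (.c 15038498931046473 (.c 8 (.c 32 .nil))) (.r 40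 .nil)))) (.node (.node (.I .jac (.c 8193 (.c 8 (.c 43356803 .nil))) (.r 40 .nil)) (.I .tdb (.c 4673 (.c 32 (.c 40 (.c 16 .nil)))) (.b 0 (.b 48 .nil)))) (.node (.I .tdb (.c 8 (.c 24 (.c 40 (.c 16 .nil)))) (.b 32 (.b 0 (.b 48 .nil)))) (.I .adp (.c 15038410136445257 (.c 40 (.c 2113 .nil))) .nil)))))))

noncomputable def c5_63 : Tr := (.node (.node (.node (.node (.node (.node (.I .jac (.c 15038410136445257 (.c 8 (.c 16 .nil))) (.r 40 .nil)) (.I .tdb (.c 8 (.c 16 (.c 40 (.c 8385 .nil)))) (.l 18433 .nil))) (.node (.I .tdb (.c 24 (.c 32 (.c 8 (.c 40 .nil)))) (.b 16 (.l 18433 .nil))) (.I .tdb (.c 24 (.c 32 (.c 16 (.c 40 .nil)))) (.b 8 (.l 18433 .nil))))) (.node (.node (.I .adp (.c 8385 (.c 40 (.c 2113 .nil))) (.l 18433 .nil)) (.I .jac (.c 2113 (.c 24 (.c 32 .nil))) (.r 40 (.l 18433 .nil)))) (.node (.I .com (.c 26187130839767211929984184877259474946677056793300460906976139295433 (.c 40 .nil)) .nil)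 (.I .com (.c 26186821597830724738774049788025311318388046839486296373474083224329 (.c 40 .nil)) .nil)))) (.node (.node (.node (.I .jac (.c 8 (.c 43356803 (.c 32 .nil))) (.l 12801 .nil)) (.I .tdb (.c 0 (.c 40 (.c 8 (.c 48 .nil)))) (.b 16 (.b 8385 .nil)))) (.node (.I .tdb (.c 0 (.c 40 (.c 16 (.c 48 .nil)))) (.b 8 (.b 8385 .nil))) (.I .tdb (.c 24 (.c 8193 (.c 40 (.c 48 .nil)))) (.b 2113 .nil)))) (.node (.node (.I .tdb (.c 0 (.c 32 (.c 40 (.c 48 .nil)))) (.b 24 (.b 2113 .nil))) (.I .jac (.c 35468714087433 (.c 16 (.c 40 .nil))) (.r 24 .nil))) (.node (.I .jac (.c 35470870263817 (.c 16 (.c 32 .nil))) (.r 24 .nil)) (.I .jac (.c 2105673 (.c 32 (.c 48 .nil))) (.l 4737 .nil)))))) (.node (.node (.node (.node (.I .com (.c 10065461098107652387135110153 (.c 4737 .nil)) .nil) (.I .jac (.c 513 (.c 16 (.c 24 .nil))) (.r 2794230089 .nil))) (.node (.I .jac (.c 9024942441010185 (.c 8 (.c 40 .nil))) (.r 24 .nil))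 (.I .jac (.c 9024976834606985 (.c 8 (.c 48 .nil))) (.r 24 .nil)))) (.node (.node (.I .com (.c 33587401 (.c 2379905498923998153 .nil)) .nil) (.I .com (.c 33587401 (.c 14025207386396218377 .nil)) .nil)) (.node (.I .jac (.c 33587529 (.c 32 (.c 48 .nil))) (.l 4673 .nil)) (.I .jac (.c 2049 (.c 18689 (.c 40 .nil))) (.l 4673 .nil))))) (.node (.node (.node (.I .com (.c 651601654921560200620872561558409 (.c 4673 .nil)) .nil) (.I .com (.c 651596688508375012468186189874121 (.c 4673 .nil)) .nil)) (.node (.I .jac (.c 13748198893136698249 (.c 8 (.c 16 .nil))) (.r 24 .nil)) (.I .adp (.c 13748196208362034185 (.c 24 (.c 2113 .nil))) .nil))) (.node (.node (.I .jac (.c 13748196208362034185 (.c 8 (.c 16 .nil))) (.r 24 .nil)) (.I .jac (.c 35718473 (.c 32 (.c 48 .nil))) (.l 4609 .nil))) (.node (.I .jac (.c 2113 (.c 18689 (.c 40 .nil))) (.l 4609 .nil)) (.I .com (.c 10064237432092225236522737673 (.c 4737 .nil))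 .nil)))))) (.node (.node (.node (.node (.node (.I .jac (.c 513 (.c 16 (.c 24 .nil))) (.r 1363882377 .nil)) (.I .com (.c 33587401 (.c 59934274015313491849 .nil)) .nil)) (.node (.I .jac (.c 2049 (.c 13057 (.c 48 .nil))) (.l 4673 .nil)) (.I .jac (.c 2049 (.c 32 (.c 40 .nil))) (.b 48 (.l 4673 .nil))))) (.node (.node (.I .jac (.c 2049 (.c 8 (.c 24 .nil))) (.r 1363882377 .nil)) (.I .jac (.c 59109074018392946569 (.c 8 (.c 16 .nil))) (.r 24 .nil))) (.node (.I .adp (.c 2306971873338800137 (.c 24 (.c 2113 .nil))) .nil) (.I .jac (.c 2306971873338800137 (.c 8 (.c 16 .nil))) (.r 24 .nil))))) (.node (.node (.node (.I .jac (.c 35718537 (.c 32 (.c 40 .nil))) (.l 4609 .nil)) (.I .com (.c 2105545 (.c 15456298926182601 .nil)) .nil)) (.node (.I .jac (.c 513 (.c 16 (.c 24 .nil))) (.r 43954947 .nil)) (.I .com (.c 33587401 (.c 15456298926182537 .nil)) .nil))) (.node (.node (.I .adp (.c 4609 (.c 43954947 (.c 2113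 .nil))) .nil) (.I .jac (.c 4609 (.c 8 (.c 16 .nil))) (.r 43954947 .nil))) (.node (.I .com (.c 2105545 (.c 15456208906582345 .nil)) .nil) (.I .jac (.c 513 (.c 43954819 (.c 32 .nil))) (.r 24 .nil)))))) (.node (.node (.node (.node (.I .adp (.c 3632084291164617 (.c 24 (.c 513 .nil))) .nil) (.I .jac (.c 513 (.c 21307523 (.c 48 .nil))) (.r 24 .nil))) (.node (.I .jac (.c 8193 (.c 43954755 (.c 16 .nil))) (.r 24 .nil)) (.I .jac (.c 8193 (.c 20891715 (.c 48 .nil))) (.r 24 .nil)))) (.node (.node (.I .tdb (.c 0 (.c 8 (.c 24 (.c 40 .nil)))) (.b 2756086025 .nil)) (.I .jac (.c 18433 (.c 2803779 (.c 32 .nil))) (.l 40 .nil))) (.node (.I .jac (.c 2049 (.c 43356739 (.c 32 .nil))) (.l 40 .nil)) (.I .com (.c 26186512359091364093173356798835817384714191699394783667286493819593 (.c 40 .nil)) .nil)))) (.node (.node (.node (.I .com (.c 8007571589547794518489790365394020006113287788426299409097 (.c 40 .nil)) .nil)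 (.I .com (.c 59109071234974274721 (.c 40 .nil)) .nil)) (.node (.I .com (.c 8009034007753174566127033523878890258830646315114126130185 (.c 40 .nil)) .nil) (.I .com (.c 15038454802412689 (.c 40 .nil)) .nil))) (.node (.node (.I .jac (.c 18433 (.c 20891715 (.c 32 .nil))) (.r 24 .nil)) (.I .jac (.c 2049 (.c 43954755 (.c 32 .nil))) (.r 24 .nil))) (.node (.I .jac (.c 513 (.c 32 (.c 48 .nil))) (.l 21099139 .nil)) (.I .com (.c 35473026505609 (.c 21099139 .nil)) .nil)))))))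

noncomputable def c5_64 : Tr := (.node (.node (.node (.node (.node (.node (.I .com (.c 35468714087433 (.c 21099139 .nil)) .nil) (.I .jac (.c 513 (.c 32 (.c 48 .nil))) (.l 24 (.l 12929 .nil)))) (.node (.I .com (.c 35473026505609 (.c 24 .nil)) (.l 12929 .nil)) (.I .com (.c 35468714087433 (.c 24 .nil)) (.l 12929 .nil)))) (.node (.node (.I .ass (.c 12929 (.c 35473026505609 (.c 24 .nil))) .nil) (.I .ass (.c 35473026505609 (.c 12929 (.c 24 .nil))) .nil)) (.node (.I .com (.c 12929 (.c 35473026505609 .nil)) (.r 24 .nil)) (.I .ass (.c 12929 (.c 35468714087433 (.c 24 .nil))) .nil)))) (.node (.node (.node (.I .ass (.c 35468714087433 (.c 12929 (.c 24 .nil))) .nil) (.I .com (.c 12929 (.c 35468714087433 .nil)) (.r 24 .nil))) (.node (.I .ass (.c 12929 (.c 2105545 (.c 18689 .nil))) .nil) (.I .ass (.c 2105545 (.c 12929 (.c 18689 .nil))) .nil))) (.node (.node (.I .com (.c 12929 (.c 2105545 .nil)) (.r 18689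 .nil)) (.I .com (.c 31637737730399577210905877193 (.c 18689 .nil)) .nil)) (.node (.I .com (.c 31640626589388946877766395849 (.c 18689 .nil)) .nil) (.I .jac (.c 12801 (.c 43059267 (.c 32 .nil))) (.r 24 .nil)))))) (.node (.node (.node (.node (.I .jac (.c 12801 (.c 8652867 (.c 48 .nil))) (.r 24 .nil)) (.I .tdb (.c 32 (.c 48 (.c 8 (.c 40 .nil)))) (.b 0 (.l 4737 .nil)))) (.node (.I .tdb (.c 0 (.c 8 (.c 40 (.c 18689 .nil)))) (.l 4737 .nil)) (.I .tdb (.c 32 (.c 48 (.c 0 (.c 40 .nil)))) (.b 8 (.l 4737 .nil))))) (.node (.node (.I .adp (.c 18689 (.c 40 (.c 513 .nil))) (.l 4737 .nil)) (.I .com (.c 2105673 (.c 18689 .nil)) (.l 4737 .nil))) (.node (.I .jac (.c 513 (.c 32 (.c 48 .nil))) (.r 40 (.l 4737 .nil))) (.I .com (.c 105533754468750300593045802417865 (.c 4737 .nil)) .nil)))) (.node (.node (.node (.I .com (.c 3632062472440913 (.c 4737 .nil)) .nil) (.I .ass (.c 4737 (.c 2105673 (.c 18689 .nil))) .nil))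 (.node (.I .ass (.c 2105673 (.c 4737 (.c 18689 .nil))) .nil) (.I .com (.c 4737 (.c 2105673 .nil)) (.r 18689 .nil)))) (.node (.node (.I .jac (.c 0 (.c 20891715 (.c 24 .nil))) (.r 18689 .nil)) (.I .jac (.c 0 (.c 20891715 (.c 24 .nil))) (.b 18689 .nil))) (.node (.I .com (.c 33587401 (.c 3632062472293833 .nil)) .nil) (.I .jac (.c 3632084291164233 (.c 8 (.c 48 .nil))) (.r 24 .nil))))))) (.node (.node (.node (.node (.node (.I .jac (.c 8193 (.c 8 (.c 43954819 .nil))) (.r 24 .nil)) (.I .jac (.c 15038498931046473 (.c 8 (.c 32 .nil))) (.l 40 .nil))) (.node (.I .com (.c 26186512359091364093173356798833964732953085251393677352777828486921 (.c 40 .nil)) .nil) (.I .com (.c 6441087201718780684179843784022943497563255004117121073929 (.c 40 .nil)) .nil))) (.node (.node (.I .com (.c 15038498947891345 (.c 40 .nil)) .nil) (.I .jac (.c 15456208906582089 (.c 8 (.c 32 .nil))) (.r 24 .nil))) (.node (.I .jac (.c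 18433 (.c 8 (.c 21307523 .nil))) (.r 24 .nil)) (.I .jac (.c 2049 (.c 32 (.c 48 .nil))) (.l 21099075 .nil))))) (.node (.node (.node (.I .com (.c 9025011228269449 (.c 21099075 .nil)) .nil) (.I .com (.c 9024942441010185 (.c 21099075 .nil)) .nil)) (.node (.I .jac (.c 2049 (.c 32 (.c 48 .nil))) (.l 24 (.l 12865 .nil))) (.I .com (.c 9025011228269449 (.c 24 .nil)) (.l 12865 .nil)))) (.node (.node (.I .com (.c 9024942441010185 (.c 24 .nil)) (.l 12865 .nil)) (.I .ass (.c 12865 (.c 9025011228269449 (.c 24 .nil))) .nil)) (.node (.I .ass (.c 9025011228269449 (.c 12865 (.c 24 .nil))) .nil) (.I .com (.c 12865 (.c 9025011228269449 .nil)) (.r 24 .nil)))))) (.node (.node (.node (.node (.I .ass (.c 12865 (.c 9024942441010185 (.c 24 .nil))) .nil) (.I .ass (.c 9024942441010185 (.c 12865 (.c 24 .nil))) .nil)) (.node (.I .com (.c 12865 (.c 9024942441010185 .nil)) (.r 24 .nil)) (.I .ass (.c 12865 (.c 33587401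 (.c 18689 .nil))) .nil))) (.node (.node (.I .ass (.c 33587401 (.c 12865 (.c 18689 .nil))) .nil) (.I .com (.c 12865 (.c 33587401 .nil)) (.r 18689 .nil))) (.node (.I .com (.c 101467951811503808354312734910153 (.c 18689 .nil)) .nil) (.I .com (.c 28374916743812808375320238857 (.c 18689 .nil)) .nil)))) (.node (.node (.node (.I .com (.c 3561389332334673 (.c 18689 .nil)) .nil) (.I .jac (.c 0 (.c 8 (.c 21099139 .nil))) (.b 18689 .nil))) (.node (.I .tdb (.c 32 (.c 48 (.c 16 (.c 40 .nil)))) (.b 0 (.l 4673 .nil))) (.I .tdb (.c 0 (.c 16 (.c 40 (.c 18689 .nil)))) (.l 4673 .nil)))) (.node (.node (.I .com (.c 33587529 (.c 18689 .nil)) (.l 4673 .nil)) (.I .jac (.c 2049 (.c 32 (.c 48 .nil))) (.r 40 (.l 4673 .nil)))) (.node (.I .com (.c 1911155150111259961664864764831625 (.c 4673 .nil)) .nil) (.I .ass (.c 4673 (.c 9025011228269449 (.c 40 .nil))) .nil)))))))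

noncomputable def c5_65 : Tr := (.node (.node (.node (.node (.node (.node (.I .ass (.c 9025011228269449 (.c 4673 (.c 40 .nil))) .nil) (.I .com (.c 4673 (.c 9025011228269449 .nil)) (.r 40 .nil))) (.node (.I .ass (.c 4673 (.c 9024942441010185 (.c 40 .nil))) .nil) (.I .ass (.c 9024942441010185 (.c 4673 (.c 40 .nil))) .nil))) (.node (.node (.I .com (.c 4673 (.c 9024942441010185 .nil)) (.r 40 .nil)) (.I .ass (.c 4673 (.c 33587529 (.c 18689 .nil))) .nil)) (.node (.I .ass (.c 33587529 (.c 4673 (.c 18689 .nil))) .nil) (.I .com (.c 4673 (.c 33587529 .nil)) (.r 18689 .nil))))) (.node (.node (.node (.I .com (.c 23450673742498722248794897076545645409660943720441369768569949361929 (.c 40 .nil)) .nil) (.I .jac (.c 0 (.c 8 (.c 21099139 .nil))) (.r 18689 .nil))) (.node (.I .adp (.c 15456118887244105 (.c 24 (.c 2113 .nil))) .nil) (.I .jac (.c 15456118887244105 (.c 8 (.c 16 .nil))) (.r 24 .nil)))) (.node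 (.node (.I .tdb (.c 8 (.c 16 (.c 18689 (.c 24 .nil)))) (.l 12801 .nil)) (.I .adp (.c 24 (.c 18689 (.c 2113 .nil))) (.l 12801 .nil))) (.node (.I .jac (.c 2113 (.c 32 (.c 48 .nil))) (.l 24 (.l 12801 .nil))) (.I .tdb (.c 0 (.c 40 (.c 8 (.c 24 .nil)))) (.b 16 (.l 18689 .nil))))))) (.node (.node (.node (.node (.I .tdb (.c 0 (.c 40 (.c 16 (.c 24 .nil)))) (.b 8 (.l 18689 .nil))) (.I .tdb (.c 0 (.c 40 (.c 8 (.c 24 .nil)))) (.b 16 (.b 18689 .nil)))) (.node (.I .tdb (.c 0 (.c 40 (.c 16 (.c 24 .nil)))) (.b 8 (.b 18689 .nil))) (.I .jac (.c 8 (.c 43954819 (.c 32 .nil))) (.l 4609 .nil)))) (.node (.node (.I .tdb (.c 32 (.c 48 (.c 16 (.c 40 .nil)))) (.b 8 (.l 4609 .nil))) (.I .tdb (.c 8 (.c 16 (.c 40 (.c 18689 .nil)))) (.l 4609 .nil))) (.node (.I .tdb (.c 32 (.c 48 (.c 8 (.c 40 .nil)))) (.b 16 (.l 4609 .nil))) (.I .adp (.c 18689 (.c 40 (.c 2113 .nil))) (.l 4609 .nil))))) (.node (.node (.node (.I .com (.c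 35718473 (.c 18689 .nil)) (.l 4609 .nil)) (.I .jac (.c 2113 (.c 32 (.c 48 .nil))) (.r 40 (.l 4609 .nil)))) (.node (.I .com (.c 23450673742498722248794897076543892204964173604974487352999096546121 (.c 40 .nil)) .nil) (.I .com (.c 58240646186319479625272581884954800165420559385987583829832521 (.c 40 .nil)) .nil))) (.node (.node (.I .com (.c 2105545 (.c 15246281046235529 .nil)) .nil) (.I .jac (.c 513 (.c 32 (.c 40 .nil))) (.l 43356803 .nil))) (.node (.I .com (.c 35470870263689 (.c 43356803 .nil)) .nil) (.I .com (.c 35468714087369 (.c 43356803 .nil)) .nil)))))) (.node (.node (.node (.node (.node (.I .tdb (.c 32 (.c 40 (.c 8 (.c 24 .nil)))) (.b 0 (.l 18561 .nil))) (.I .tdb (.c 0 (.c 8 (.c 24 (.c 13057 .nil)))) (.l 18561 .nil))) (.node (.I .tdb (.c 32 (.c 40 (.c 0 (.c 24 .nil)))) (.b 8 (.l 18561 .nil))) (.I .adp (.c 24 (.c 13057 (.c 513 .nil))) (.l 18561 .nil)))) (.node (.node (.I .com (.c 1809230235455484827416425822613193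 (.c 13057 .nil)) .nil) (.I .com (.c 1809240918100417214955082230359817 (.c 13057 .nil)) .nil)) (.node (.I .com (.c 62889413594193 (.c 13057 .nil)) .nil) (.I .com (.c 31640626589388946877766395913 (.c 13057 .nil)) .nil)))) (.node (.node (.node (.I .jac (.c 12801 (.c 43655235 (.c 16 .nil))) (.r 24 .nil)) (.I .jac (.c 0 (.c 43356739 (.c 16 .nil))) (.b 13057 .nil))) (.node (.I .jac (.c 8193 (.c 43059267 (.c 40 .nil))) (.r 24 .nil)) (.I .jac (.c 2049 (.c 43655235 (.c 40 .nil))) (.r 24 .nil)))) (.node (.node (.I .tdb (.c 40 (.c 8321 (.c 0 (.c 24 .nil)))) (.b 8 (.b 48 .nil))) (.I .tdb (.c 16 (.c 32 (.c 0 (.c 24 .nil)))) (.b 40 (.b 8 (.b 48 .nil))))) (.node (.I .jac (.c 0 (.c 43059267 (.c 24 .nil))) (.r 13057 .nil)) (.I .tdb (.c 32 (.c 40 (.c 16 (.c 24 .nil)))) (.b 0 (.l 18497 .nil))))))) (.node (.node (.node (.node (.I .tdb (.c 0 (.c 16 (.c 13057 (.c 24 .nil)))) (.l 18497 .nil)) (.I .tdb (.c 32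 (.c 40 (.c 0 (.c 24 .nil)))) (.b 16 (.l 18497 .nil)))) (.node (.I .adp (.c 24 (.c 13057 (.c 2049 .nil))) (.l 18497 .nil)) (.I .com (.c 1809251600792687288661143085917897 (.c 13057 .nil)) .nil))) (.node (.node (.I .com (.c 1809230235455469428084446102833929 (.c 13057 .nil)) .nil) (.I .com (.c 28374916743873793267608813321 (.c 13057 .nil)) .nil)) (.node (.I .jac (.c 0 (.c 8 (.c 43356803 .nil))) (.b 13057 .nil)) (.I .jac (.c 0 (.c 43655299 (.c 40 .nil))) (.l 4673 .nil))))) (.node (.node (.node (.I .tdb (.c 0 (.c 16 (.c 13057 (.c 48 .nil)))) (.l 4673 .nil)) (.I .tdb (.c 32 (.c 40 (.c 48 (.c 0 .nil)))) (.b 16 (.l 4673 .nil)))) (.node (.I .tdb (.c 32 (.c 40 (.c 48 (.c 16 .nil)))) (.b 0 (.l 4673 .nil))) (.I .com (.c 33587593 (.c 13057 .nil)) (.l 4673 .nil)))) (.node (.node (.I .jac (.c 2049 (.c 32 (.c 40 .nil))) (.r 48 (.l 4673 .nil))) (.I .com (.c 1859570876265504724427643779472137 (.c 4673 .nil))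 .nil)) (.node (.I .com (.c 1859592685926327833225220410189769 (.c 4673 .nil)) .nil) (.I .com (.c 15246281046337617 (.c 4673 .nil)) .nil)))))))

noncomputable def c5_66 : Tr := (.node (.node (.node (.node (.node (.node (.I .ass (.c 4673 (.c 33587593 (.c 13057 .nil))) .nil) (.I .ass (.c 33587593 (.c 4673 (.c 13057 .nil))) .nil)) (.node (.I .com (.c 4673 (.c 33587593 .nil)) (.r 13057 .nil)) (.I .jac (.c 15246191640314249 (.c 8 (.c 16 .nil))) (.r 24 .nil)))) (.node (.node (.I .adp (.c 43356675 (.c 13057 (.c 2113 .nil))) .nil) (.I .jac (.c 43356675 (.c 8 (.c 16 .nil))) (.r 13057 .nil))) (.node (.I .tdb (.c 32 (.c 40 (.c 16 (.c 24 .nil)))) (.b 8 (.l 18433 .nil))) (.I .tdb (.c 32 (.c 40 (.c 8 (.c 24 .nil)))) (.b 16 (.l 18433 .nil)))))) (.node (.node (.node (.I .tdb (.c 0 (.c 48 (.c 8 (.c 24 .nil)))) (.b 16 (.l 13057 .nil))) (.I .jac (.c 8 (.c 43655299 (.c 40 .nil))) (.l 4609 .nil))) (.node (.I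 .com (.c 70295418264026570724123255045077569719790610676815672396375061321 (.c 48 .nil)) .nil) (.I .jac (.c 2049 (.c 43356739 (.c 40 .nil))) (.l 32 .nil)))) (.node (.node (.I .com (.c 15038454802413201 (.c 32 .nil)) .nil) (.I .jac (.c 18433 (.c 8652867 (.c 40 .nil))) (.r 24 .nil))) (.node (.I .jac (.c 513 (.c 40 (.c 48 .nil))) (.l 8786563 .nil)) (.I .com (.c 35473026505673 (.c 8786563 .nil)) .nil))))) (.node (.node (.node (.node (.I .com (.c 35470870263817 (.c 8786563 .nil)) .nil) (.I .jac (.c 513 (.c 40 (.c 48 .nil))) (.l 24 (.l 8321 .nil)))) (.node (.I .com (.c 35473026505673 (.c 24 .nil)) (.l 8321 .nil)) (.I .com (.c 35470870263817 (.c 24 .nil)) (.l 8321 .nil)))) (.node (.node (.I .ass (.c 8321 (.c 35473026505673 (.c 24 .nil))) .nil) (.I .ass (.c 35473026505673 (.c 8321 (.c 24 .nil))) .nil)) (.node (.I .com (.c 8321 (.c 35473026505673 .nil)) (.r 24 .nil)) (.I .ass (.c 8321 (.c 35470870263817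 (.c 24 .nil))) .nil)))) (.node (.node (.node (.I .ass (.c 35470870263817 (.c 8321 (.c 24 .nil))) .nil) (.I .com (.c 8321 (.c 35470870263817 .nil)) (.r 24 .nil))) (.node (.I .ass (.c 8321 (.c 2105545 (.c 18753 .nil))) .nil) (.I .ass (.c 2105545 (.c 8321 (.c 18753 .nil))) .nil))) (.node (.node (.I .com (.c 8321 (.c 2105545 .nil)) (.r 18753 .nil)) (.I .com (.c 3051551917824233633037003976393 (.c 18753 .nil)) .nil)) (.node (.I .com (.c 3051640828265749411890955904777 (.c 18753 .nil)) .nil) (.I .com (.c 62889413512273 (.c 18753 .nil)) .nil)))))) (.node (.node (.node (.node (.node (.I .com (.c 31640626589388946877766395785 (.c 18753 .nil)) .nil) (.I .tdb (.c 40 (.c 48 (.c 8 (.c 32 .nil)))) (.b 0 (.l 4737 .nil)))) (.node (.I .tdb (.c 0 (.c 8 (.c 32 (.c 18753 .nil)))) (.l 4737 .nil)) (.I .tdb (.c 40 (.c 48 (.c 0 (.c 32 .nil)))) (.b 8 (.l 4737 .nil))))) (.node (.node (.I .adp (.c 32 (.c 18753 (.c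 513 .nil))) (.l 4737 .nil)) (.I .com (.c 2870186216699415475033029961545 (.c 18753 .nil)) .nil)) (.node (.I .jac (.c 0 (.c 8652867 (.c 24 .nil))) (.b 18753 .nil)) (.I .com (.c 59109062884797725345 (.c 32 .nil)) .nil)))) (.node (.node (.node (.I .com (.c 82365961958573271866848171381055354748087270758082819239859867657 (.c 32 .nil)) .nil) (.I .jac (.c 15038498931046473 (.c 8 (.c 40 .nil))) (.l 32 .nil))) (.node (.I .com (.c 6441087201746467744040883352347560516873603966715960214281 (.c 32 .nil)) .nil) (.I .com (.c 15038498947891857 (.c 32 .nil)) .nil))) (.node (.node (.I .adp (.c 8786499 (.c 18753 (.c 2049 .nil))) .nil) (.I .jac (.c 2049 (.c 40 (.c 48 .nil))) (.l 24 (.l 8257 .nil)))) (.node (.I .com (.c 9025011228269513 (.c 24 .nil)) (.l 8257 .nil)) (.I .com (.c 9024976834607113 (.c 24 .nil)) (.l 8257 .nil)))))) (.node (.node (.node (.node (.I .ass (.c 8257 (.c 9025011228269513 (.c 24 .nil)))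 .nil) (.I .ass (.c 9025011228269513 (.c 8257 (.c 24 .nil))) .nil)) (.node (.I .com (.c 8257 (.c 9025011228269513 .nil)) (.r 24 .nil)) (.I .ass (.c 8257 (.c 9024976834607113 (.c 24 .nil))) .nil))) (.node (.node (.I .ass (.c 9024976834607113 (.c 8257 (.c 24 .nil))) .nil) (.I .com (.c 8257 (.c 9024976834607113 .nil)) (.r 24 .nil))) (.node (.I .ass (.c 8257 (.c 33587401 (.c 18753 .nil))) .nil) (.I .ass (.c 33587401 (.c 8257 (.c 18753 .nil))) .nil)))) (.node (.node (.node (.I .com (.c 8257 (.c 33587401 .nil)) (.r 18753 .nil)) (.I .com (.c 617629514827857 (.c 18753 .nil)) .nil)) (.node (.I .com (.c 3051551917823601198840448305929 (.c 18753 .nil)) .nil) (.I .com (.c 28374916743751823483031729929 (.c 18753 .nil)) .nil))) (.node (.node (.I .tdb (.c 40 (.c 48 (.c 16 (.c 32 .nil)))) (.b 0 (.l 4673 .nil))) (.I .tdb (.c 0 (.c 16 (.c 32 (.c 18753 .nil)))) (.l 4673 .nil))) (.node (.I .ass (.c 4673 (.c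 9025011228269513 (.c 32 .nil))) .nil) (.I .ass (.c 9025011228269513 (.c 4673 (.c 32 .nil))) .nil)))))))

noncomputable def c5_67 : Tr := (.node (.node (.node (.node (.node (.node (.I .com (.c 4673 (.c 9025011228269513 .nil)) (.r 32 .nil)) (.I .ass (.c 4673 (.c 9024976834607113 (.c 32 .nil))) .nil)) (.node (.I .ass (.c 9024976834607113 (.c 4673 (.c 32 .nil))) .nil) (.I .com (.c 4673 (.c 9024976834607113 .nil)) (.r 32 .nil)))) (.node (.node (.I .com (.c 2698162480889597495046571987721 (.c 18753 .nil)) .nil) (.I .tdb (.c 8 (.c 16 (.c 18753 (.c 24 .nil)))) (.l 8193 .nil))) (.node (.I .adp (.c 24 (.c 18753 (.c 2113 .nil))) (.l 8193 .nil)) (.I .jac (.c 2113 (.c 40 (.c 48 .nil))) (.l 24 (.l 8193 .nil)))))) (.node (.node (.node (.I .tdb (.c 0 (.c 32 (.c 8 (.c 24 .nil)))) (.b 16 (.l 18753 .nil))) (.I .tdb (.c 0 (.c 32 (.c 16 (.c 24 .nil)))) (.b 8 (.l 18753 .nil)))) (.node (.I .tdb (.c 0 (.c 32 (.c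 16 (.c 24 .nil)))) (.b 8 (.b 18753 .nil))) (.I .tdb (.c 40 (.c 48 (.c 16 (.c 32 .nil)))) (.b 8 (.l 4609 .nil))))) (.node (.node (.I .tdb (.c 8 (.c 16 (.c 32 (.c 18753 .nil)))) (.l 4609 .nil)) (.I .tdb (.c 40 (.c 48 (.c 8 (.c 32 .nil)))) (.b 16 (.l 4609 .nil)))) (.node (.I .adp (.c 32 (.c 18753 (.c 2113 .nil))) (.l 4609 .nil)) (.I .jac (.c 2113 (.c 40 (.c 48 .nil))) (.l 32 (.l 4609 .nil))))))) (.node (.node (.node (.node (.I .com (.c 2698162480889002807269082722121 (.c 18753 .nil)) .nil) (.I .com (.c 169943305 (.c 14025204674709064713 .nil)) .nil)) (.node (.I .jac (.c 169943369 (.c 16 (.c 48 .nil))) (.l 8257 .nil)) (.I .jac (.c 4609 (.c 16 (.c 48 .nil))) (.b 40 (.l 8257 .nil))))) (.node (.node (.I .com (.c 427058636821845956378289793772237769 (.c 8257 .nil)) .nil) (.I .com (.c 427056063571158386490489209096946633 (.c 8257 .nil)) .nil)) (.node (.I .jac (.c 13748198893136698121 (.c 8 (.c 24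 .nil))) (.r 32 .nil)) (.I .adp (.c 13748193523587632137 (.c 32 (.c 4673 .nil))) .nil)))) (.node (.node (.node (.I .jac (.c 4673 (.c 18561 (.c 40 .nil))) (.l 8193 .nil)) (.I .jac (.c 8193 (.c 8 (.c 24 .nil))) (.r 2756086089 .nil))) (.node (.I .jac (.c 4609 (.c 16 (.c 40 .nil))) (.b 48 (.l 8257 .nil))) (.I .jac (.c 4609 (.c 8 (.c 32 .nil))) (.r 1337272713 .nil)))) (.node (.node (.I .adp (.c 59109074018392946441 (.c 32 (.c 4673 .nil))) .nil) (.I .jac (.c 174695817 (.c 16 (.c 40 .nil))) (.l 8193 .nil))) (.node (.I .jac (.c 4673 (.c 12929 (.c 48 .nil))) (.l 8193 .nil)) (.I .jac (.c 8193 (.c 8 (.c 24 .nil))) (.r 1337272713 .nil))))))) (.node (.node (.node (.node (.node (.I .adp (.c 15456208906582153 (.c 32 (.c 4609 .nil))) .nil) (.I .com (.c 169943305 (.c 15456208906582153 .nil)) .nil)) (.node (.I .jac (.c 231045815314584329 (.c 8 (.c 48 .nil))) (.r 40 .nil)) (.I .jac (.c 4609 (.c 18561 (.c 32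 .nil))) (.l 12865 .nil)))) (.node (.node (.I .jac (.c 4609 (.c 16 (.c 48 .nil))) (.b 32 (.l 12865 .nil))) (.I .com (.c 427057350195049030035896088956977929 (.c 12865 .nil)) .nil)) (.node (.I .com (.c 427058636821845956378289793772237705 (.c 12865 .nil)) .nil) (.I .com (.c 427056063571158386490489209096946569 (.c 12865 .nil)) .nil)))) (.node (.node (.node (.I .com (.c 427057350195048083672236560419042313 (.c 12865 .nil)) .nil) (.I .jac (.c 2306972423229201161 (.c 8 (.c 24 .nil))) (.r 40 .nil))) (.node (.I .jac (.c 59109065668069837705 (.c 8 (.c 24 .nil))) (.r 40 .nil)) (.I .adp (.c 2306970223667989513 (.c 40 (.c 4673 .nil))) .nil))) (.node (.node (.I .jac (.c 2306970223667989513 (.c 8 (.c 24 .nil))) (.r 40 .nil)) (.I .jac (.c 4673 (.c 16 (.c 48 .nil))) (.b 32 (.l 12801 .nil)))) (.node (.I .com (.c 169943369 (.c 10206437931930633 .nil)) .nil) (.I .jac (.c 169943433 (.c 16 (.c 32 .nil))) (.l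 12865 .nil)))))) (.node (.node (.node (.node (.I .jac (.c 4609 (.c 16 (.c 32 .nil))) (.b 48 (.l 12865 .nil))) (.I .adp (.c 59109071234951844617 (.c 40 (.c 4673 .nil))) .nil)) (.node (.I .jac (.c 59109071234951844617 (.c 8 (.c 24 .nil))) (.r 40 .nil)) (.I .jac (.c 174695817 (.c 16 (.c 32 .nil))) (.l 12801 .nil)))) (.node (.node (.I .jac (.c 4673 (.c 8321 (.c 48 .nil))) (.l 12801 .nil)) (.I .jac (.c 4673 (.c 16 (.c 32 .nil))) (.b 48 (.l 12801 .nil)))) (.node (.I .jac (.c 4609 (.c 8 (.c 40 .nil))) (.r 43655299 .nil)) (.I .jac (.c 12801 (.c 8 (.c 24 .nil))) (.r 43655299 .nil))))) (.node (.node (.node (.I .jac (.c 4609 (.c 32 (.c 40 .nil))) (.l 2737112201 .nil)) (.I .com (.c 231045989336561545 (.c 2737112201 .nil)) .nil)) (.node (.I .com (.c 231045815314584521 (.c 2737112201 .nil)) .nil) (.I .jac (.c 4609 (.c 32 (.c 40 .nil))) (.l 35718537 .nil)))) (.node (.node (.I .com (.c 231045989336561545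 (.c 35718537 .nil)) .nil) (.I .com (.c 231045467270827017 (.c 1324066057 .nil)) .nil)) (.node (.I .jac (.c 169943305 (.c 8 (.c 40 .nil))) (.r 18561 .nil)) (.I .jac (.c 169943369 (.c 8 (.c 32 .nil))) (.r 18561 .nil))))))))

noncomputable def c5_68 : Tr := (.node (.node (.node (.node (.node (.node (.I .adp (.c 1310925065 (.c 18561 (.c 4673 .nil))) .nil) (.I .adp (.c 537002313 (.c 18561 (.c 4673 .nil))) .nil)) (.node (.I .jac (.c 4673 (.c 16 (.c 48 .nil))) (.l 537002313 .nil)) (.I .jac (.c 537002313 (.c 8 (.c 24 .nil))) (.r 18561 .nil)))) (.node (.node (.I .com (.c 169943305 (.c 3491710045130185 .nil)) .nil) (.I .com (.c 169943369 (.c 15246236343241929 .nil)) .nil)) (.node (.I .adp (.c 598976858557897 (.c 40 (.c 4609 .nil))) .nil) (.I .com (.c 169943369 (.c 598976858557897 .nil)) .nil)))) (.node (.node (.node (.I .com (.c 58240646186216787513332372176437605379642580613035000544559945 (.c 40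 .nil)) .nil) (.I .jac (.c 4609 (.c 16 (.c 48 .nil))) (.l 21307459 .nil))) (.node (.I .com (.c 231046163358604041 (.c 21307459 .nil)) .nil) (.I .com (.c 231045467270827017 (.c 21307459 .nil)) .nil))) (.node (.node (.I .com (.c 169943305 (.c 18561 .nil)) (.l 12865 .nil)) (.I .com (.c 1859603590828719327337421759899401 (.c 12865 .nil)) .nil)) (.node (.I .com (.c 1859570876265457888126924734394185 (.c 12865 .nil)) .nil) (.I .ass (.c 12865 (.c 231046163358604041 (.c 32 .nil))) .nil))))) (.node (.node (.node (.node (.I .ass (.c 231046163358604041 (.c 12865 (.c 32 .nil))) .nil) (.I .com (.c 12865 (.c 231046163358604041 .nil)) (.r 32 .nil))) (.node (.I .ass (.c 12865 (.c 231045467270827017 (.c 32 .nil))) .nil) (.I .ass (.c 231045467270827017 (.c 12865 (.c 32 .nil))) .nil))) (.node (.node (.I .com (.c 12865 (.c 231045467270827017 .nil)) (.r 32 .nil)) (.I .ass (.c 12865 (.c 169943305 (.c 18561 .nil)))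 .nil)) (.node (.I .ass (.c 169943305 (.c 12865 (.c 18561 .nil))) .nil) (.I .com (.c 12865 (.c 169943305 .nil)) (.r 18561 .nil))))) (.node (.node (.node (.I .com (.c 29219431338612430885229781418972302774892659174088204307516624129865 (.c 32 .nil)) .nil) (.I .com (.c 76104792608257399621125824957651071551395348271305941236278611785 (.c 32 .nil)) .nil)) (.node (.I .com (.c 23450673742497901511923054532233829538680817570892318822750598160201 (.c 32 .nil)) .nil) (.I .com (.c 19589859843187240611233688838559812699198991441092425 (.c 32 .nil)) .nil))) (.node (.node (.I .jac (.c 0 (.c 8786499 (.c 40 .nil))) (.r 18561 .nil)) (.I .jac (.c 0 (.c 8 (.c 21307587 .nil))) (.r 18561 .nil))) (.node (.I .jac (.c 0 (.c 8 (.c 21307587 .nil))) (.b 18561 .nil)) (.I .ass (.c 8257 (.c 231046163358604041 (.c 40 .nil))) .nil)))))) (.node (.node (.node (.node (.node (.I .ass (.c 231046163358604041 (.c 8257 (.c 40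 .nil))) .nil) (.I .com (.c 8257 (.c 231046163358604041 .nil)) (.r 40 .nil))) (.node (.I .ass (.c 8257 (.c 231045467270827017 (.c 40 .nil))) .nil) (.I .ass (.c 231045467270827017 (.c 8257 (.c 40 .nil))) .nil))) (.node (.node (.I .com (.c 8257 (.c 231045467270827017 .nil)) (.r 40 .nil)) (.I .com (.c 23450673742497901511923054532232076333984047486105146387517680433993 (.c 40 .nil)) .nil)) (.node (.I .com (.c 21307395 (.c 18561 .nil)) (.b 4673 .nil)) (.I .adp (.c 15456118887243977 (.c 32 (.c 4673 .nil))) .nil)))) (.node (.node (.node (.I .jac (.c 15456118887243977 (.c 8 (.c 24 .nil))) (.r 32 .nil)) (.I .jac (.c 3491688652046793 (.c 8 (.c 24 .nil))) (.r 32 .nil))) (.node (.I .adp (.c 15246191640314057 (.c 40 (.c 4673 .nil))) .nil) (.I .adp (.c 21307395 (.c 18561 (.c 4673 .nil))) .nil))) (.node (.node (.I .jac (.c 8 (.c 16 (.c 43655363 .nil))) (.l 12801 .nil)) (.I .tdb (.c 8 (.c 24 (.c 32 (.c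 18561 .nil)))) (.l 12801 .nil))) (.node (.I .adp (.c 18561 (.c 32 (.c 4673 .nil))) (.l 12801 .nil)) (.I .com (.c 174695689 (.c 18561 .nil)) (.l 12801 .nil)))))) (.node (.node (.node (.node (.I .jac (.c 4673 (.c 16 (.c 48 .nil))) (.r 32 (.l 12801 .nil))) (.I .tdb (.c 0 (.c 40 (.c 8 (.c 32 .nil)))) (.b 24 (.b 18561 .nil)))) (.node (.I .tdb (.c 0 (.c 40 (.c 24 (.c 32 .nil)))) (.b 8 (.b 18561 .nil))) (.I .jac (.c 8 (.c 16 (.c 43954883 .nil))) (.l 8193 .nil)))) (.node (.node (.I .tdb (.c 8 (.c 24 (.c 40 (.c 18561 .nil)))) (.l 8193 .nil)) (.I .adp (.c 18561 (.c 40 (.c 4673 .nil))) (.l 8193 .nil))) (.node (.I .com (.c 174695753 (.c 18561 .nil)) (.l 8193 .nil)) (.I .jac (.c 4673 (.c 16 (.c 48 .nil))) (.r 40 (.l 8193 .nil)))))) (.node (.node (.node (.I .tdb (.c 0 (.c 32 (.c 24 (.c 40 .nil)))) (.b 8 (.b 18561 .nil))) (.I .jac (.c 169943305 (.c 16 (.c 40 .nil))) (.l 18497 .nil))) (.node (.I .jac (.c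 4609 (.c 12929 (.c 32 .nil))) (.l 18497 .nil)) (.I .com (.c 427057350195048793444981206822395657 (.c 18497 .nil)) .nil))) (.node (.node (.I .com (.c 427057993508083616106291307304383369 (.c 18497 .nil)) .nil) (.I .com (.c 427056063571158149899930723770113929 (.c 18497 .nil)) .nil)) (.node (.I .jac (.c 4609 (.c 8 (.c 48 .nil))) (.r 1337272585 .nil)) (.I .com (.c 169943433 (.c 14025204674709064585 .nil)) .nil)))))))

noncomputable def c5_69 : Tr := (.node (.node (.node (.node (.node (.node (.I .jac (.c 231045815314584329 (.c 8 (.c 40 .nil))) (.r 48 .nil)) (.I .com (.c 169943433 (.c 10206474507614089 .nil)) .nil)) (.node (.I .jac (.c 4673 (.c 12929 (.c 32 .nil))) (.l 18433 .nil)) (.I .jac (.c 4673 (.c 16 (.c 40 .nil))) (.b 32 (.l 18433 .nil))))) (.node (.node (.I .adp (.c 2306970223667989449 (.c 48 (.c 4673 .nil))) .nil) (.I .jac (.c 2306970223667989449 (.c 8 (.c 24 .nil))) (.r 48 .nil))) (.node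 (.I .jac (.c 169943369 (.c 16 (.c 32 .nil))) (.l 18497 .nil)) (.I .com (.c 427056063571157913309372238443346889 (.c 18497 .nil)) .nil)))) (.node (.node (.node (.I .jac (.c 4609 (.c 8 (.c 48 .nil))) (.r 553912649 .nil)) (.I .jac (.c 4673 (.c 8321 (.c 40 .nil))) (.l 18433 .nil))) (.node (.I .com (.c 169943433 (.c 3632084291164297 .nil)) .nil) (.I .adp (.c 18433 (.c 21307523 (.c 4673 .nil))) .nil))) (.node (.node (.I .jac (.c 4609 (.c 16 (.c 40 .nil))) (.l 2737112329 .nil)) (.I .com (.c 231045989336561417 (.c 2737112329 .nil)) .nil)) (.node (.I .com (.c 231045467270826953 (.c 2737112329 .nil)) .nil) (.I .jac (.c 169943305 (.c 8 (.c 48 .nil))) (.r 12929 .nil)))))) (.node (.node (.node (.node (.I .jac (.c 4609 (.c 16 (.c 40 .nil))) (.l 545424777 .nil)) (.I .com (.c 231045989336561417 (.c 545424777 .nil)) .nil)) (.node (.I .com (.c 231045467270826953 (.c 545424777 .nil)) .nil) (.I .jac (.c 4609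 (.c 32 (.c 48 .nil))) (.l 1324065929 .nil)))) (.node (.node (.I .com (.c 231045815314584585 (.c 35718473 .nil)) .nil) (.I .jac (.c 4673 (.c 16 (.c 40 .nil))) (.l 2718204169 .nil))) (.node (.I .jac (.c 2718204169 (.c 8 (.c 24 .nil))) (.r 12929 .nil)) (.I .adp (.c 537002377 (.c 12929 (.c 4673 .nil))) .nil)))) (.node (.node (.node (.I .jac (.c 537002377 (.c 8 (.c 24 .nil))) (.r 12929 .nil)) (.I .adp (.c 1310924937 (.c 18689 (.c 4673 .nil))) .nil)) (.node (.I .jac (.c 1310924937 (.c 8 (.c 24 .nil))) (.r 18689 .nil)) (.I .jac (.c 4673 (.c 32 (.c 48 .nil))) (.l 33587529 .nil)))) (.node (.node (.I .com (.c 169943305 (.c 14832803796618633 .nil)) .nil) (.I .jac (.c 4609 (.c 16 (.c 40 .nil))) (.l 43655235 .nil))) (.node (.I .com (.c 231045989336561417 (.c 43655235 .nil)) .nil) (.I .com (.c 231045467270826953 (.c 43655235 .nil)) .nil)))))) (.node (.node (.node (.node (.node (.I .com (.c 169943305 (.c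 12929 .nil)) (.l 18497 .nil)) (.I .com (.c 105537558360238163450942167246601 (.c 18497 .nil)) .nil)) (.node (.I .ass (.c 18497 (.c 231045989336561417 (.c 32 .nil))) .nil) (.I .ass (.c 231045989336561417 (.c 18497 (.c 32 .nil))) .nil))) (.node (.node (.I .com (.c 18497 (.c 231045989336561417 .nil)) (.r 32 .nil)) (.I .ass (.c 18497 (.c 231045467270826953 (.c 32 .nil))) .nil)) (.node (.I .ass (.c 231045467270826953 (.c 18497 (.c 32 .nil))) .nil) (.I .com (.c 18497 (.c 231045467270826953 .nil)) (.r 32 .nil))))) (.node (.node (.node (.I .ass (.c 18497 (.c 169943305 (.c 12929 .nil))) .nil) (.I .ass (.c 169943305 (.c 18497 (.c 12929 .nil))) .nil)) (.node (.I .com (.c 18497 (.c 169943305 .nil)) (.r 12929 .nil)) (.I .com (.c 29219431338611946923215950238727204199485804159362686736837068862281 (.c 32 .nil)) .nil))) (.node (.node (.I .com (.c 70295418264037085081049688170459684923043320310174312505272136521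 (.c 32 .nil)) .nil) (.I .com (.c 24783224170185853388707980014196235007036345793947844253410756599625 (.c 32 .nil)) .nil)) (.node (.I .jac (.c 0 (.c 8 (.c 43655363 .nil))) (.r 12929 .nil)) (.I .com (.c 70295418264016056367196823099392130501912218710370445521070897993 (.c 48 .nil)) .nil))))) (.node (.node (.node (.node (.I .com (.c 43655171 (.c 12929 .nil)) (.b 4673 .nil)) (.I .adp (.c 14832759703961993 (.c 32 (.c 4673 .nil))) .nil)) (.node (.I .jac (.c 14832759703961993 (.c 8 (.c 24 .nil))) (.r 32 .nil)) (.I .jac (.c 43655171 (.c 8 (.c 24 .nil))) (.r 12929 .nil)))) (.node (.node (.I .tdb (.c 8 (.c 24 (.c 32 (.c 12929 .nil)))) (.l 18433 .nil)) (.I .adp (.c 12929 (.c 32 (.c 4673 .nil))) (.l 18433 .nil))) (.node (.I .com (.c 174695689 (.c 12929 .nil)) (.l 18433 .nil)) (.I .jac (.c 4673 (.c 16 (.c 40 .nil))) (.r 32 (.l 18433 .nil)))))) (.node (.node (.node (.I .tdb (.c 0 (.c 32 (.c 24 (.c 48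 .nil)))) (.b 8 (.b 12929 .nil))) (.I .tdb (.c 8 (.c 24 (.c 48 (.c 8193 .nil)))) (.b 12929 .nil))) (.node (.I .jac (.c 4609 (.c 16 (.c 32 .nil))) (.l 2737112393 .nil)) (.I .com (.c 231045815314584329 (.c 2737112393 .nil)) .nil))) (.node (.node (.I .com (.c 231045467270826889 (.c 2737112393 .nil)) .nil) (.I .jac (.c 169943369 (.c 8 (.c 48 .nil))) (.r 8321 .nil))) (.node (.I .jac (.c 4609 (.c 16 (.c 32 .nil))) (.l 1324066185 .nil)) (.I .com (.c 231045815314584329 (.c 1324066185 .nil)) .nil)))))))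

noncomputable def c5_70 : Tr := (.node (.node (.node (.node (.node (.node (.I .jac (.c 4609 (.c 40 (.c 48 .nil))) (.l 35718409 .nil)) (.I .jac (.c 4673 (.c 16 (.c 32 .nil))) (.l 2718204233 .nil))) (.node (.I .jac (.c 4673 (.c 16 (.c 32 .nil))) (.l 1310925193 .nil)) (.I .jac (.c 4673 (.c 40 (.c 48 .nil))) (.l 33587465 .nil)))) (.node (.node (.I .jac (.c 4609 (.c 16 (.c 32 .nil))) (.l 43954755 .nil)) (.I .com (.c 231045815314584329 (.c 43954755 .nil)) .nil)) (.node (.I .com (.c 231045467270826889 (.c 43954755 .nil)) .nil) (.I .com (.c 169943369 (.c 14832803796618569 .nil)) .nil)))) (.node (.node (.node (.I .ass (.c 18497 (.c 231045815314584329 (.c 40 .nil))) .nil) (.I .ass (.c 231045815314584329 (.c 18497 (.c 40 .nil))) .nil)) (.node (.I .com (.c 18497 (.c 231045815314584329 .nil)) (.r 40 .nil)) (.I .ass (.c 18497 (.c 231045467270826889 (.c 40 .nil))) .nil))) (.node (.node (.I .ass (.c 231045467270826889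 (.c 18497 (.c 40 .nil))) .nil) (.I .com (.c 18497 (.c 231045467270826889 .nil)) (.r 40 .nil))) (.node (.I .com (.c 169943433 (.c 3491710045130057 .nil)) .nil) (.I .com (.c 43954691 (.c 8321 .nil)) (.b 4673 .nil)))))) (.node (.node (.node (.node (.I .adp (.c 43954691 (.c 8321 (.c 4673 .nil))) .nil) (.I .jac (.c 43954691 (.c 8 (.c 24 .nil))) (.r 8321 .nil))) (.node (.I .adp (.c 14832759703961929 (.c 40 (.c 4673 .nil))) .nil) (.I .tdb (.c 16 (.c 32 (.c 8 (.c 40 .nil)))) (.b 24 (.l 18433 .nil))))) (.node (.node (.I .tdb (.c 16 (.c 32 (.c 8 (.c 48 .nil)))) (.b 24 (.l 12801 .nil))) (.I .tdb (.c 8 (.c 24 (.c 40 (.c 48 .nil)))) (.b 537002121 .nil))) (.node (.I .tdb (.c 2049 (.c 32 (.c 40 (.c 48 .nil)))) (.b 4673 .nil)) (.I .tdb (.c 0 (.c 16 (.c 40 (.c 48 .nil)))) (.b 32 (.b 4673 .nil)))))) (.node (.node (.node (.I .jac (.c 2105737 (.c 24 (.c 40 .nil))) (.b 32 (.l 16 .nil))) (.I .jac (.c 513 (.c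 24 (.c 40 .nil))) (.b 48 (.b 32 (.l 16 .nil))))) (.node (.I .com (.c 810311000722058987568294048101222890115998785554992242505 (.c 16 .nil)) .nil) (.I .com (.c 810705155105649001215608578975542243164664209281585125257 (.c 16 .nil)) .nil))) (.node (.node (.I .com (.c 810705155093947686715548558786755234702307279633946107785 (.c 16 .nil)) .nil) (.I .com (.c 810113986408641505441454317377410956945037015659145724809 (.c 16 .nil)) .nil)) (.node (.I .com (.c 810311000722058987568294027489664629116738216470604568521 (.c 16 .nil)) .nil) (.I .com (.c 810311000704513416363896103173435689053454605660071256073 (.c 16 .nil)) .nil)))))) (.node (.node (.node (.node (.node (.I .jac (.c 35470870263689 (.c 24 (.c 48 .nil))) (.l 16 .nil)) (.I .jac (.c 2105673 (.c 18625 (.c 32 .nil))) (.l 16 .nil))) (.node (.I .jac (.c 2105673 (.c 24 (.c 48 .nil))) (.b 32 (.l 16 .nil))) (.I .jac (.c 513 (.c 24 (.c 48 .nil)))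 (.b 32 (.b 40 (.l 16 .nil)))))) (.node (.node (.I .com (.c 810508056940148059469137302931108348943800201403549467465 (.c 16 .nil)) .nil) (.I .com (.c 810705155093947686715548548478469921980607530436146183113 (.c 16 .nil)) .nil)) (.node (.I .com (.c 810311000704513416363896113479214819441509963173734745033 (.c 16 .nil)) .nil) (.I .com (.c 810508056940148059469137272010011855557092068124491372553 (.c 16 .nil)) .nil)))) (.node (.node (.node (.I .jac (.c 35470870263817 (.c 24 (.c 32 .nil))) (.l 16 .nil)) (.I .jac (.c 35473026505609 (.c 24 (.c 40 .nil))) (.l 16 .nil))) (.node (.I .com (.c 810113986408641505441454296768358535588691753787820850185 (.c 16 .nil)) .nil) (.I .jac (.c 231045815314584585 (.c 8 (.c 40 .nil))) (.r 16 .nil)))) (.node (.node (.I .jac (.c 231045989336561545 (.c 8 (.c 48 .nil))) (.r 16 .nil)) (.I .jac (.c 231045989336561673 (.c 8 (.c 32 .nil))) (.r 16 .nil))) (.node (.I .jac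 (.c 169943369 (.c 32 (.c 48 .nil))) (.l 2113 .nil)) (.I .jac (.c 4609 (.c 18689 (.c 40 .nil))) (.l 2113 .nil)))))) (.node (.node (.node (.node (.I .com (.c 427057993508084562470663629860471689 (.c 2113 .nil)) .nil) (.I .com (.c 427057350195049030035896088956978121 (.c 2113 .nil)) .nil)) (.node (.I .com (.c 59109071234951844809 (.c 16 .nil)) (.b 4673 .nil)) (.I .com (.c 2306972423229201353 (.c 16 .nil)) (.b 4673 .nil)))) (.node (.node (.I .jac (.c 13748198893136698249 (.c 8 (.c 24 .nil))) (.r 16 .nil)) (.I .adp (.c 59109071234951844809 (.c 16 (.c 4673 .nil))) .nil)) (.node (.I .adp (.c 2306972423229201353 (.c 16 (.c 4673 .nil))) .nil) (.I .jac (.c 2306972423229201353 (.c 8 (.c 24 .nil))) (.r 16 .nil))))) (.node (.node (.node (.I .adp (.c 13748196208362034185 (.c 16 (.c 4673 .nil))) .nil) (.I .jac (.c 4673 (.c 18689 (.c 40 .nil))) (.l 2049 .nil))) (.node (.I .jac (.c 2105609 (.c 18625 (.c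 40 .nil))) (.l 16 .nil)) (.I .com (.c 810705155105649001215608589283827555960756286961675909961 (.c 16 .nil)) .nil))) (.node (.node (.I .jac (.c 231045815314584521 (.c 8 (.c 48 .nil))) (.r 16 .nil)) (.I .com (.c 59109074018392946569 (.c 16 .nil)) (.b 4673 .nil))) (.node (.I .adp (.c 59109074018392946569 (.c 16 (.c 4673 .nil))) .nil) (.I .jac (.c 59109074018392946569 (.c 8 (.c 24 .nil))) (.r 16 .nil))))))))

noncomputable def c5_71 : Tr := (.node (.node (.node (.node (.node (.node (.I .adp (.c 2306971873338800137 (.c 16 (.c 4673 .nil))) .nil) (.I .jac (.c 174695817 (.c 32 (.c 40 .nil))) (.l 2049 .nil))) (.node (.I .jac (.c 4673 (.c 13057 (.c 48 .nil))) (.l 2049 .nil)) (.I .com (.c 169943177 (.c 15456298926182537 .nil)) .nil))) (.node (.node (.I .jac (.c 513 (.c 21307587 (.c 48 .nil))) (.l 16 .nil)) (.I .com (.c 3632106126946449 (.c 16 .nil)) .nil)) (.node (.I .com (.c 105537558360476662066555944701577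 (.c 16 .nil)) .nil) (.I .com (.c 89098986658163792321215551618375622539977696491209536043921184457 (.c 16 .nil)) .nil)))) (.node (.node (.node (.I .com (.c 29219431338612914847243612605237133589537970344148333267817904536265 (.c 16 .nil)) .nil) (.I .com (.c 82361964593872257944173769947661949152100541591018890531467541193 (.c 16 .nil)) .nil)) (.node (.I .com (.c 89098986658144952217736054751241614994493116461214391418032964297 (.c 16 .nil)) .nil) (.I .com (.c 29219431338613398809257443797506040642799580744445301974771667539657 (.c 16 .nil)) .nil))) (.node (.node (.I .com (.c 82361964593860417105222911965185041321224976572768821635495985865 (.c 16 .nil)) .nil) (.I .jac (.c 12801 (.c 43356739 (.c 32 .nil))) (.l 16 .nil))) (.node (.I .jac (.c 12801 (.c 8786499 (.c 48 .nil))) (.l 16 .nil)) (.I .com (.c 74495752857537580654899489541974847815541613424103004848021193 (.c 16 .nil)) .nil))))) (.node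 (.node (.node (.node (.I .com (.c 1809240918125058143785381773217289 (.c 16 .nil)) .nil) (.I .com (.c 13748198893206989985 (.c 16 .nil)) .nil)) (.node (.I .com (.c 26186821597830724738774049788025311318388046839486296373474083224521 (.c 16 .nil)) .nil) (.I .com (.c 3051640829722978083748670574153 (.c 16 .nil)) .nil))) (.node (.node (.I .com (.c 74500093957907752758059857579305407283366286366713376917849033 (.c 16 .nil)) .nil) (.I .com (.c 1809240918116188102378439523929673 (.c 16 .nil)) .nil)) (.node (.I .com (.c 3051640829277737923135473487497 (.c 16 .nil)) .nil) (.I .com (.c 13748196208708887713 (.c 16 .nil)) .nil)))) (.node (.node (.node (.I .com (.c 97535117142648075757967005225673 (.c 18689 .nil)) .nil) (.I .com (.c 97536312314082855488951506397001 (.c 18689 .nil)) .nil)) (.node (.I .com (.c 3491710045166673 (.c 18689 .nil)) .nil) (.I .com (.c 169943177 (.c 15456163896880457 .nil))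 .nil))) (.node (.node (.I .jac (.c 3632106110100553 (.c 8 (.c 48 .nil))) (.r 16 .nil)) (.I .jac (.c 18433 (.c 8 (.c 21307587 .nil))) (.r 16 .nil))) (.node (.I .jac (.c 4609 (.c 32 (.c 48 .nil))) (.l 20891715 .nil)) (.I .com (.c 231046163358604169 (.c 20891715 .nil)) .nil)))))) (.node (.node (.node (.node (.node (.I .com (.c 231045815314584585 (.c 20891715 .nil)) .nil) (.I .com (.c 49484669142536990413609801 (.c 18689 .nil)) .nil)) (.node (.I .jac (.c 12801 (.c 43356739 (.c 32 .nil))) (.r 16 .nil)) (.I .jac (.c 12801 (.c 8786499 (.c 48 .nil))) (.r 16 .nil)))) (.node (.node (.I .tdb (.c 32 (.c 48 (.c 24 (.c 40 .nil)))) (.b 0 (.l 2113 .nil))) (.I .tdb (.c 0 (.c 24 (.c 40 (.c 18689 .nil)))) (.l 2113 .nil))) (.node (.I .com (.c 169943369 (.c 18689 .nil)) (.l 2113 .nil)) (.I .jac (.c 4609 (.c 32 (.c 48 .nil))) (.r 40 (.l 2113 .nil)))))) (.node (.node (.node (.I .com (.c 105533754468750300593045802417993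 (.c 2113 .nil)) .nil) (.I .ass (.c 2113 (.c 231046163358604169 (.c 40 .nil))) .nil)) (.node (.I .ass (.c 231046163358604169 (.c 2113 (.c 40 .nil))) .nil) (.I .com (.c 2113 (.c 231046163358604169 .nil)) (.r 40 .nil)))) (.node (.node (.I .ass (.c 2113 (.c 231045815314584585 (.c 40 .nil))) .nil) (.I .ass (.c 231045815314584585 (.c 2113 (.c 40 .nil))) .nil)) (.node (.I .com (.c 2113 (.c 231045815314584585 .nil)) (.r 40 .nil)) (.I .ass (.c 2113 (.c 169943369 (.c 18689 .nil))) .nil))))) (.node (.node (.node (.node (.I .ass (.c 169943369 (.c 2113 (.c 18689 .nil))) .nil) (.I .com (.c 2113 (.c 169943369 .nil)) (.r 18689 .nil))) (.node (.I .adp (.c 15456118887244105 (.c 16 (.c 4673 .nil))) .nil) (.I .jac (.c 15456118887244105 (.c 8 (.c 24 .nil))) (.r 16 .nil)))) (.node (.node (.I .jac (.c 3632040653488585 (.c 8 (.c 24 .nil))) (.r 16 .nil)) (.I .tdb (.c 8 (.c 24 (.c 40 (.c 16 .nil)))) (.b 2718204169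 .nil))) (.node (.I .tdb (.c 8 (.c 24 (.c 18689 (.c 16 .nil)))) (.l 12801 .nil)) (.I .adp (.c 16 (.c 18689 (.c 4673 .nil))) (.l 12801 .nil))))) (.node (.node (.node (.I .tdb (.c 0 (.c 40 (.c 8 (.c 16 .nil)))) (.b 24 (.b 18689 .nil))) (.I .tdb (.c 32 (.c 48 (.c 24 (.c 40 .nil)))) (.b 8 (.l 2049 .nil)))) (.node (.I .tdb (.c 8 (.c 24 (.c 40 (.c 18689 .nil)))) (.l 2049 .nil)) (.I .tdb (.c 32 (.c 48 (.c 8 (.c 40 .nil)))) (.b 24 (.l 2049 .nil))))) (.node (.node (.I .adp (.c 18689 (.c 40 (.c 4673 .nil))) (.l 2049 .nil)) (.I .com (.c 174695753 (.c 18689 .nil)) (.l 2049 .nil))) (.node (.I .jac (.c 4673 (.c 32 (.c 48 .nil))) (.r 40 (.l 2049 .nil))) (.I .adp (.c 16 (.c 15246325749294473 (.c 513 .nil))) .nil)))))))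

noncomputable def c5_72 : Tr := (.node (.node (.node (.node (.node (.node (.I .jac (.c 513 (.c 43655363 (.c 40 .nil))) (.l 16 .nil)) (.I .com (.c 1859603590829720462071423545904713 (.c 16 .nil)) .nil)) (.node (.I .com (.c 15246325766139537 (.c 16 .nil)) .nil) (.I .com (.c 1760086083483798984267018994225865 (.c 13057 .nil)) .nil))) (.node (.node (.I .com (.c 14832803796655185 (.c 13057 .nil)) .nil) (.I .jac (.c 8193 (.c 43356739 (.c 40 .nil))) (.l 16 .nil))) (.node (.I .com (.c 26186821597830724738774049788027163981088181666714410377677971840905 (.c 16 .nil)) .nil) (.I .com (.c 2306971873685653665 (.c 16 .nil)) .nil)))) (.node (.node (.node (.I .jac (.c 8652803 (.c 24 (.c 40 .nil))) (.b 8 (.b 48 .nil))) (.I .jac (.c 20891651 (.c 24 (.c 32 .nil))) (.b 8 (.b 48 .nil)))) (.node (.I .jac (.c 4609 (.c 32 (.c 40 .nil))) (.l 43059267 .nil)) (.I .com (.c 231045989336561545 (.c 43059267 .nil)) .nil)))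 (.node (.node (.I .com (.c 231045815314584521 (.c 43059267 .nil)) .nil) (.I .jac (.c 8193 (.c 43356739 (.c 40 .nil))) (.r 16 .nil))) (.node (.I .jac (.c 0 (.c 43655363 (.c 40 .nil))) (.l 2113 .nil)) (.I .tdb (.c 0 (.c 24 (.c 13057 (.c 48 .nil)))) (.l 2113 .nil)))))) (.node (.node (.node (.node (.I .tdb (.c 32 (.c 40 (.c 48 (.c 0 .nil)))) (.b 24 (.l 2113 .nil))) (.I .tdb (.c 32 (.c 40 (.c 48 (.c 24 .nil)))) (.b 0 (.l 2113 .nil)))) (.node (.I .com (.c 169943433 (.c 13057 .nil)) (.l 2113 .nil)) (.I .jac (.c 4609 (.c 32 (.c 40 .nil))) (.r 48 (.l 2113 .nil))))) (.node (.node (.I .com (.c 1859570876265504724427643779472201 (.c 2113 .nil)) .nil) (.I .ass (.c 2113 (.c 169943433 (.c 13057 .nil))) .nil)) (.node (.I .ass (.c 169943433 (.c 2113 (.c 13057 .nil))) .nil) (.I .com (.c 2113 (.c 169943433 .nil)) (.r 13057 .nil))))) (.node (.node (.node (.I .adp (.c 43059203 (.c 13057 (.c 4673 .nil))) .nil)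 (.I .jac (.c 43059203 (.c 8 (.c 24 .nil))) (.r 13057 .nil))) (.node (.I .tdb (.c 8 (.c 24 (.c 13057 (.c 16 .nil)))) (.l 18433 .nil)) (.I .adp (.c 16 (.c 13057 (.c 4673 .nil))) (.l 18433 .nil)))) (.node (.node (.I .tdb (.c 0 (.c 48 (.c 8 (.c 16 .nil)))) (.b 24 (.l 13057 .nil))) (.I .tdb (.c 0 (.c 48 (.c 8 (.c 16 .nil)))) (.b 24 (.b 13057 .nil)))) (.node (.I .tdb (.c 8 (.c 24 (.c 18433 (.c 16 .nil)))) (.b 13057 .nil)) (.I .jac (.c 8 (.c 43655363 (.c 40 .nil))) (.l 2049 .nil))))))) (.node (.node (.node (.node (.node (.I .jac (.c 18433 (.c 20891715 (.c 24 .nil))) (.l 32 .nil)) (.I .com (.c 76104792608240660304838596729314971079053310705683998184022688457 (.c 32 .nil)) .nil)) (.node (.I .com (.c 59109068451677941921 (.c 32 .nil)) .nil) (.I .com (.c 76106657758642486978324907789674929689114005148852078596974352393 (.c 32 .nil)) .nil))) (.node (.node (.I .jac (.c 18433 (.c 8786499 (.c 40 .nil)))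 (.l 16 .nil)) (.I .com (.c 74495752857506702162333100991755731799430958637739295985353417 (.c 16 .nil)) .nil)) (.node (.I .com (.c 59109074018463238305 (.c 16 .nil)) .nil) (.I .com (.c 74500093957907752758059857576180527075222158968937038071128073 (.c 16 .nil)) .nil)))) (.node (.node (.node (.I .com (.c 24783224170187564332730318127081650983965712254635073880241566897865 (.c 32 .nil)) .nil) (.I .com (.c 76104792608229500760647112777519395792203986434173576121315672905 (.c 32 .nil)) .nil)) (.node (.I .com (.c 24783224170187564332730318127078046327666737372102191667975057542985 (.c 32 .nil)) .nil) (.I .com (.c 19589859841170820816512966668513448346842930475680585 (.c 32 .nil)) .nil))) (.node (.node (.I .jac (.c 18433 (.c 8786499 (.c 40 .nil))) (.r 16 .nil)) (.I .adp (.c 8652867 (.c 18753 (.c 4609 .nil))) .nil)) (.node (.I .jac (.c 4609 (.c 40 (.c 48 .nil))) (.l 8652867 .nil)) (.I .com (.c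 231046163358604233 (.c 8652867 .nil)) .nil))))) (.node (.node (.node (.node (.I .com (.c 231045989336561673 (.c 8652867 .nil)) .nil) (.I .tdb (.c 40 (.c 48 (.c 24 (.c 32 .nil)))) (.b 0 (.l 2113 .nil)))) (.node (.I .tdb (.c 0 (.c 24 (.c 32 (.c 18753 .nil)))) (.l 2113 .nil)) (.I .ass (.c 2113 (.c 231046163358604233 (.c 32 .nil))) .nil))) (.node (.node (.I .ass (.c 231046163358604233 (.c 2113 (.c 32 .nil))) .nil) (.I .com (.c 2113 (.c 231046163358604233 .nil)) (.r 32 .nil))) (.node (.I .ass (.c 2113 (.c 231045989336561673 (.c 32 .nil))) .nil) (.I .ass (.c 231045989336561673 (.c 2113 (.c 32 .nil))) .nil)))) (.node (.node (.node (.I .com (.c 2113 (.c 231045989336561673 .nil)) (.r 32 .nil)) (.I .tdb (.c 8 (.c 24 (.c 18753 (.c 16 .nil)))) (.l 8193 .nil))) (.node (.I .adp (.c 16 (.c 18753 (.c 4673 .nil))) (.l 8193 .nil)) (.I .tdb (.c 0 (.c 32 (.c 8 (.c 16 .nil)))) (.b 24 (.l 18753 .nil))))) (.node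 (.node (.I .tdb (.c 40 (.c 48 (.c 24 (.c 32 .nil)))) (.b 8 (.l 2049 .nil))) (.I .tdb (.c 8 (.c 24 (.c 32 (.c 18753 .nil)))) (.l 2049 .nil))) (.node (.I .tdb (.c 40 (.c 48 (.c 8 (.c 32 .nil)))) (.b 24 (.l 2049 .nil))) (.I .adp (.c 32 (.c 18753 (.c 4673 .nil))) (.l 2049 .nil))))))))

noncomputable def c5_73 : Tr := (.node (.node (.node (.node (.node (.node (.I .jac (.c 4673 (.c 40 (.c 48 .nil))) (.l 32 (.l 2049 .nil))) (.I .jac (.c 13748198893136698057 (.c 16 (.c 24 .nil))) (.r 32 .nil))) (.node (.I .jac (.c 59109062884628932553 (.c 16 (.c 24 .nil))) (.r 32 .nil)) (.I .adp (.c 13748192181200529417 (.c 32 (.c 4737 .nil))) .nil))) (.node (.node (.I .jac (.c 13748192181200529417 (.c 16 (.c 24 .nil))) (.r 32 .nil)) (.I .jac (.c 2737112393 (.c 16 (.c 24 .nil))) (.l 8193 .nil))) (.node (.I .jac (.c 8193 (.c 16 (.c 24 .nil))) (.r 2737112393 .nil)) (.I .adp (.c 35470870263817 (.c 32 (.c 4737 .nil)))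 .nil)))) (.node (.node (.node (.I .adp (.c 8193 (.c 43954755 (.c 4737 .nil))) .nil) (.I .jac (.c 43954755 (.c 16 (.c 24 .nil))) (.l 8193 .nil))) (.node (.I .jac (.c 8193 (.c 16 (.c 24 .nil))) (.r 43954755 .nil)) (.I .adp (.c 2306972423229201097 (.c 40 (.c 4737 .nil))) .nil))) (.node (.node (.I .jac (.c 2306972423229201097 (.c 16 (.c 24 .nil))) (.r 40 .nil)) (.I .adp (.c 59109062884628932489 (.c 40 (.c 4737 .nil))) .nil)) (.node (.I .jac (.c 59109062884628932489 (.c 16 (.c 24 .nil))) (.r 40 .nil)) (.I .adp (.c 35473026505609 (.c 40 (.c 4737 .nil))) .nil))))) (.node (.node (.node (.node (.I .jac (.c 2737112329 (.c 16 (.c 24 .nil))) (.l 12801 .nil)) (.I .jac (.c 12801 (.c 16 (.c 24 .nil))) (.r 2737112329 .nil))) (.node (.I .adp (.c 59109071234951844553 (.c 40 (.c 4737 .nil))) .nil) (.I .jac (.c 59109071234951844553 (.c 16 (.c 24 .nil))) (.r 40 .nil)))) (.node (.node (.I .jac (.c 12801 (.c 16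 (.c 24 .nil))) (.r 545424777 .nil)) (.I .jac (.c 12801 (.c 16 (.c 24 .nil))) (.r 43655235 .nil))) (.node (.I .adp (.c 2718203977 (.c 13057 (.c 4737 .nil))) .nil) (.I .jac (.c 4737 (.c 32 (.c 40 .nil))) (.l 2718203977 .nil))))) (.node (.node (.node (.I .jac (.c 2718203977 (.c 16 (.c 24 .nil))) (.r 13057 .nil)) (.I .adp (.c 2105737 (.c 13057 (.c 4737 .nil))) .nil)) (.node (.I .jac (.c 4737 (.c 32 (.c 40 .nil))) (.l 2105737 .nil)) (.I .jac (.c 18497 (.c 16 (.c 24 .nil))) (.l 1310925065 .nil)))) (.node (.node (.I .jac (.c 1310925065 (.c 16 (.c 24 .nil))) (.r 18497 .nil)) (.I .com (.c 21307395 (.c 18497 .nil)) (.b 4737 .nil))) (.node (.I .adp (.c 15456118887243913 (.c 32 (.c 4737 .nil))) .nil) (.I .jac (.c 15456118887243913 (.c 16 (.c 24 .nil))) (.r 32 .nil))))))) (.node (.node (.node (.node (.node (.I .jac (.c 3423058053194185 (.c 16 (.c 24 .nil))) (.r 32 .nil)) (.I .adp (.c 580749782704585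 (.c 40 (.c 4737 .nil))) .nil)) (.node (.I .jac (.c 580749782704585 (.c 16 (.c 24 .nil))) (.r 40 .nil)) (.I .adp (.c 21307395 (.c 18497 (.c 4737 .nil))) .nil))) (.node (.node (.I .tdb (.c 16 (.c 24 (.c 32 (.c 18497 .nil)))) (.l 12801 .nil)) (.I .adp (.c 18497 (.c 32 (.c 4737 .nil))) (.l 12801 .nil))) (.node (.I .jac (.c 18497 (.c 16 (.c 24 .nil))) (.r 32 (.l 12801 .nil))) (.I .tdb (.c 0 (.c 40 (.c 16 (.c 32 .nil)))) (.b 24 (.b 18497 .nil)))))) (.node (.node (.node (.I .tdb (.c 0 (.c 40 (.c 24 (.c 32 .nil)))) (.b 16 (.b 18497 .nil))) (.I .tdb (.c 8 (.c 48 (.c 16 (.c 40 .nil)))) (.b 24 (.l 8193 .nil)))) (.node (.I .tdb (.c 8 (.c 48 (.c 24 (.c 40 .nil)))) (.b 16 (.l 8193 .nil))) (.I .tdb (.c 16 (.c 24 (.c 40 (.c 18497 .nil)))) (.l 8193 .nil)))) (.node (.node (.I .adp (.c 18497 (.c 40 (.c 4737 .nil))) (.l 8193 .nil)) (.I .jac (.c 18497 (.c 16 (.c 24 .nil))) (.r 40 (.l 8193 .nil)))) (.node (.I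 .tdb (.c 0 (.c 32 (.c 16 (.c 40 .nil)))) (.b 24 (.b 18497 .nil))) (.I .jac (.c 1324066057 (.c 16 (.c 24 .nil))) (.l 18433 .nil)))))) (.node (.node (.node (.node (.I .jac (.c 18433 (.c 16 (.c 24 .nil))) (.r 1324066057 .nil)) (.I .jac (.c 2306969673777850313 (.c 16 (.c 24 .nil))) (.r 48 .nil))) (.node (.I .adp (.c 18433 (.c 21307459 (.c 4737 .nil))) .nil) (.I .jac (.c 12865 (.c 16 (.c 24 .nil))) (.l 2718204169 .nil)))) (.node (.node (.I .jac (.c 2718204169 (.c 16 (.c 24 .nil))) (.r 12865 .nil)) (.I .adp (.c 537002377 (.c 12865 (.c 4737 .nil))) .nil)) (.node (.I .jac (.c 12865 (.c 16 (.c 24 .nil))) (.l 537002377 .nil)) (.I .jac (.c 537002377 (.c 16 (.c 24 .nil))) (.r 12865 .nil))))) (.node (.node (.node (.I .adp (.c 1310924873 (.c 18689 (.c 4737 .nil))) .nil) (.I .jac (.c 1310924873 (.c 16 (.c 24 .nil))) (.r 18689 .nil))) (.node (.I .adp (.c 2105673 (.c 18689 (.c 4737 .nil))) .nil) (.I .jac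 (.c 14629225721520521 (.c 16 (.c 24 .nil))) (.r 32 .nil)))) (.node (.node (.I .adp (.c 43655171 (.c 12865 (.c 4737 .nil))) .nil) (.I .tdb (.c 16 (.c 24 (.c 32 (.c 12865 .nil)))) (.l 18433 .nil))) (.node (.I .adp (.c 12865 (.c 32 (.c 4737 .nil))) (.l 18433 .nil)) (.I .jac (.c 12865 (.c 16 (.c 24 .nil))) (.r 32 (.l 18433 .nil)))))))))

noncomputable def c5_74 : Tr := (.node (.node (.node (.node (.node (.node (.I .tdb (.c 0 (.c 32 (.c 24 (.c 48 .nil)))) (.b 16 (.b 12865 .nil))) (.I .jac (.c 8257 (.c 16 (.c 24 .nil))) (.l 2718204233 .nil))) (.node (.I .jac (.c 8257 (.c 16 (.c 24 .nil))) (.l 1310925193 .nil)) (.I .jac (.c 4737 (.c 40 (.c 48 .nil))) (.l 537002057 .nil)))) (.node (.node (.I .com (.c 43954691 (.c 8257 .nil)) (.b 4737 .nil)) (.I .adp (.c 14629225721520457 (.c 40 (.c 4737 .nil))) .nil)) (.node (.I .jac (.c 14629225721520457 (.c 16 (.c 24 .nil))) (.r 40 .nil)) (.I .tdb (.c 8 (.c 32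 (.c 24 (.c 40 .nil)))) (.b 16 (.l 18433 .nil)))))) (.node (.node (.node (.I .adp (.c 3423058053194057 (.c 48 (.c 4737 .nil))) .nil) (.I .jac (.c 3423058053194057 (.c 16 (.c 24 .nil))) (.r 48 .nil))) (.node (.I .tdb (.c 8 (.c 32 (.c 16 (.c 48 .nil)))) (.b 24 (.l 12801 .nil))) (.I .tdb (.c 8 (.c 32 (.c 16 (.c 48 .nil)))) (.b 24 (.b 12801 .nil))))) (.node (.node (.I .tdb (.c 8 (.c 32 (.c 24 (.c 48 .nil)))) (.b 16 (.b 12801 .nil))) (.I .jac (.c 9024942441010185 (.c 24 (.c 40 .nil))) (.l 8 .nil))) (.node (.I .jac (.c 2049 (.c 24 (.c 40 .nil))) (.b 48 (.b 32 (.l 8 .nil)))) (.I .com (.c 3396729512033956131747053835158279524984183348903608636827381653385 (.c 8 .nil)) .nil))))) (.node (.node (.node (.node (.I .com (.c 3396677733571839102889236125600925175761087616286488823818833200009 (.c 8 .nil)) .nil) (.I .com (.c 3396625955800353299884767459018054552292453520276230815172891107337 (.c 8 .nil))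 .nil)) (.node (.I .jac (.c 33587529 (.c 24 (.c 48 .nil))) (.b 32 (.l 8 .nil))) (.I .jac (.c 33587465 (.c 24 (.c 48 .nil))) (.b 40 (.l 8 .nil))))) (.node (.node (.I .com (.c 3396729512033956131747053835157612279803907526530471170432526138313 (.c 8 .nil)) .nil) (.I .com (.c 3396625955800353299884767459018721787301486067898984102757536990153 (.c 8 .nil)) .nil)) (.node (.I .jac (.c 9024976834607113 (.c 24 (.c 32 .nil))) (.l 8 .nil)) (.I .jac (.c 2049 (.c 24 (.c 32 .nil))) (.b 48 (.b 40 (.l 8 .nil))))))) (.node (.node (.node (.I .com (.c 3396729512034052482070957803012191837002676201838174190827433744329 (.c 8 .nil)) .nil) (.I .com (.c 3396677733571839102889236125599590695571808317775861932762086194185 (.c 8 .nil)) .nil)) (.node (.I .jac (.c 9025011228269449 (.c 24 (.c 40 .nil))) (.l 8 .nil)) (.I .com (.c 3396729512034052482070957803013526327363227865511269471004809109321 (.c 8 .nil)) .nil)))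 (.node (.node (.I .jac (.c 169943433 (.c 16 (.c 40 .nil))) (.b 32 (.l 8 .nil))) (.I .jac (.c 169943305 (.c 12929 (.c 48 .nil))) (.l 8 .nil))) (.node (.I .jac (.c 169943305 (.c 16 (.c 40 .nil))) (.b 48 (.l 8 .nil))) (.I .jac (.c 4609 (.c 1337272713 (.c 32 .nil))) (.l 8 .nil))))))) (.node (.node (.node (.node (.node (.I .jac (.c 4609 (.c 12929 (.c 48 .nil))) (.b 32 (.l 8 .nil))) (.I .com (.c 1459032634273066583531893237580256985218596216947732073279478446960779145 (.c 8 .nil)) .nil)) (.node (.I .com (.c 1459028238553203103993755533577261697621901148971561540346963769967592329 (.c 8 .nil)) .nil) (.I .com (.c 1459023842844932333893328974360730909237195607661597289587034405219693577 (.c 8 .nil)) .nil))) (.node (.node (.I .com (.c 1459023842844927484074647864604431512866864223127535792803546291575824393 (.c 8 .nil)) .nil) (.I .jac (.c 231045989336561545 (.c 16 (.c 48 .nil))) (.l 8 .nil))) (.node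 (.I .jac (.c 169943369 (.c 16 (.c 48 .nil))) (.b 32 (.l 8 .nil))) (.I .jac (.c 169943305 (.c 16 (.c 48 .nil))) (.b 40 (.l 8 .nil)))))) (.node (.node (.node (.I .jac (.c 4609 (.c 18561 (.c 32 .nil))) (.b 40 (.l 8 .nil))) (.I .jac (.c 4609 (.c 16 (.c 48 .nil))) (.b 32 (.b 40 (.l 8 .nil))))) (.node (.I .com (.c 1459032634273066583531893237580256547910552111377472741910729624189336521 (.c 8 .nil)) .nil) (.I .com (.c 1459023842844927484074647864604431950173590822856773473173784160675120073 (.c 8 .nil)) .nil))) (.node (.node (.I .jac (.c 231045989336561673 (.c 16 (.c 32 .nil))) (.l 8 .nil)) (.I .jac (.c 169943433 (.c 16 (.c 32 .nil))) (.b 40 (.l 8 .nil)))) (.node (.I .jac (.c 169943369 (.c 16 (.c 32 .nil))) (.b 48 (.l 8 .nil))) (.I .jac (.c 4609 (.c 16 (.c 32 .nil))) (.b 48 (.b 40 (.l 8 .nil)))))))) (.node (.node (.node (.node (.I .com (.c 1459032634273069816758958723893570445642906421186218312840953502770213833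 (.c 8 .nil)) .nil) (.I .com (.c 1459028238553203103993755533577260823007130444416315754662366410590321673 (.c 8 .nil)) .nil)) (.node (.I .jac (.c 231046163358604169 (.c 16 (.c 40 .nil))) (.l 8 .nil)) (.I .com (.c 1459032634273069816758958723893571757567038737898449923717939441032371977 (.c 8 .nil)) .nil))) (.node (.node (.I .com (.c 59109071234951844809 (.c 8 .nil)) (.b 4737 .nil)) (.I .adp (.c 59109071234951844809 (.c 8 (.c 4737 .nil))) .nil)) (.node (.I .jac (.c 8 (.c 16 (.c 24 .nil))) (.l 59109071234951844809 .nil)) (.I .jac (.c 59109071234951844809 (.c 16 (.c 24 .nil))) (.r 8 .nil))))) (.node (.node (.node (.I .jac (.c 4609 (.c 18561 (.c 40 .nil))) (.b 32 (.l 8 .nil))) (.I .jac (.c 4609 (.c 16 (.c 48 .nil))) (.b 40 (.b 32 (.l 8 .nil))))) (.node (.I .com (.c 1459023842844932333893328974360732658464102006581455240230057549752828681 (.c 8 .nil)) .nil) (.I .jac (.c 231046163358604233 (.c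 16 (.c 32 .nil))) (.l 8 .nil)))) (.node (.node (.I .jac (.c 169943433 (.c 8321 (.c 40 .nil))) (.l 8 .nil)) (.I .jac (.c 4609 (.c 553912649 (.c 48 .nil))) (.l 8 .nil))) (.node (.I .jac (.c 4609 (.c 8321 (.c 40 .nil))) (.b 48 (.l 8 .nil))) (.I .jac (.c 4609 (.c 16 (.c 32 .nil))) (.b 40 (.b 48 (.l 8 .nil))))))))))

noncomputable def c5_75 : Tr := (.node (.node (.node (.node (.node (.node (.I .jac (.c 4737 (.c 32 (.c 40 .nil))) (.b 48 (.l 513 .nil))) (.I .adp (.c 513 (.c 43954947 (.c 4737 .nil))) .nil)) (.node (.I .jac (.c 2049 (.c 21307587 (.c 48 .nil))) (.l 8 .nil)) (.I .com (.c 9025011398729889 (.c 8 .nil)) .nil))) (.node (.node (.I .com (.c 105537558361190763184652609064585 (.c 8 .nil)) .nil) (.I .jac (.c 18433 (.c 21307523 (.c 24 .nil))) (.l 8 .nil))) (.node (.I .com (.c 89103268705775671430842569995576164540864323586885284363727438665 (.c 8 .nil)) .nil) (.I .com (.c 29220112062374340779692772142339364419449699618982151301797613574025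 (.c 8 .nil)) .nil)))) (.node (.node (.node (.I .com (.c 1911155150120378383021731557756425 (.c 8 .nil)) .nil) (.I .com (.c 59109068451681268385 (.c 8 .nil)) .nil)) (.node (.I .com (.c 89103268705775671430842569995251957056801677588176435843044120585 (.c 8 .nil)) .nil) (.I .jac (.c 4609 (.c 43954819 (.c 32 .nil))) (.l 8 .nil)))) (.node (.node (.I .com (.c 29220112062374340779692772142341321442323413549182896123316801125193 (.c 8 .nil)) .nil) (.I .com (.c 105536290393545537884806472158665 (.c 8 .nil)) .nil)) (.node (.I .com (.c 231045815666222753 (.c 8 .nil)) .nil) (.I .jac (.c 12801 (.c 43356803 (.c 32 .nil))) (.l 8 .nil)))))) (.node (.node (.node (.node (.I .jac (.c 12801 (.c 8786563 (.c 48 .nil))) (.l 8 .nil)) (.I .com (.c 1809251600817328290237716700417545 (.c 8 .nil)) .nil)) (.node (.I .com (.c 13748198893206990497 (.c 8 .nil)) .nil) (.I .com (.c 26187130839767211929984184877259474946677056793300460906976139295689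 (.c 8 .nil)) .nil))) (.node (.node (.I .com (.c 1809251600808458222644161614466633 (.c 8 .nil)) .nil) (.I .com (.c 3051729741663399467914257583753 (.c 8 .nil)) .nil)) (.node (.I .com (.c 13748196208708888225 (.c 8 .nil)) .nil) (.I .adp (.c 8 (.c 15456208906582345 (.c 4609 .nil))) .nil)))) (.node (.node (.node (.I .jac (.c 3632106110100553 (.c 16 (.c 48 .nil))) (.l 8 .nil)) (.I .com (.c 89105409797125410142448901339435736082031236869394800793411027721 (.c 8 .nil)) .nil)) (.node (.I .com (.c 89098986658138672183242889792716518669646882409277971683032367945 (.c 8 .nil)) .nil) (.I .com (.c 59109065668240298145 (.c 8 .nil)) .nil))) (.node (.node (.I .com (.c 89105409797125410142448901339003454242987701351899741676368425993 (.c 8 .nil)) .nil) (.I .jac (.c 18433 (.c 16 (.c 21307587 .nil))) (.l 8 .nil))) (.node (.I .com (.c 105537558368807841777834019458441 (.c 8 .nil)) .nil) (.I .com (.c 76104792608246240076934339165441182190834418170163123486767153993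 (.c 8 .nil)) .nil)))))) (.node (.node (.node (.node (.node (.I .com (.c 65899851849306263681208984341494072687331164155799806557052745 (.c 8 .nil)) .nil) (.I .com (.c 93738611484286490074864659656521 (.c 18689 .nil)) .nil)) (.node (.I .jac (.c 8 (.c 16 (.c 24 .nil))) (.l 3632040653488585 .nil)) (.I .tdb (.c 16 (.c 24 (.c 40 (.c 8 .nil)))) (.b 2718204169 .nil)))) (.node (.node (.I .adp (.c 20685315 (.c 18689 (.c 4737 .nil))) .nil) (.I .jac (.c 20685315 (.c 16 (.c 24 .nil))) (.r 18689 .nil))) (.node (.I .tdb (.c 16 (.c 24 (.c 18689 (.c 8 .nil)))) (.l 12801 .nil)) (.I .adp (.c 8 (.c 18689 (.c 4737 .nil))) (.l 12801 .nil))))) (.node (.node (.node (.I .jac (.c 8 (.c 16 (.c 24 .nil))) (.r 18689 (.l 12801 .nil))) (.I .tdb (.c 32 (.c 48 (.c 24 (.c 40 .nil)))) (.b 16 (.l 513 .nil)))) (.node (.I .tdb (.c 32 (.c 48 (.c 16 (.c 40 .nil)))) (.b 24 (.l 513 .nil))) (.I .com (.c 179513673 (.c 18689 .nil))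 (.l 513 .nil)))) (.node (.node (.I .adp (.c 8 (.c 15246325749294473 (.c 2049 .nil))) .nil) (.I .jac (.c 2049 (.c 43655363 (.c 40 .nil))) (.l 8 .nil))) (.node (.I .com (.c 1859603590832718011684342785576521 (.c 8 .nil)) .nil) (.I .com (.c 15246326017994385 (.c 8 .nil)) .nil))))) (.node (.node (.node (.node (.I .com (.c 27664030750837927638519238748135447749468735632874927640944224476937 (.c 8 .nil)) .nil) (.I .com (.c 1859592685935322407221019840564809 (.c 8 .nil)) .nil)) (.node (.I .com (.c 1712113961689550905300220118995721 (.c 13057 .nil)) .nil) (.I .jac (.c 8193 (.c 43356803 (.c 40 .nil))) (.l 8 .nil)))) (.node (.node (.I .jac (.c 4609 (.c 43655299 (.c 40 .nil))) (.l 8 .nil)) (.I .com (.c 27664030750838856656340776335292338607177587091810531851185054275337 (.c 8 .nil)) .nil)) (.node (.I .com (.c 26187130839767211929984184877261327620316268505084049917496119451529 (.c 8 .nil)) .nil) (.I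 .com (.c 2306971873685654177 (.c 8 .nil)) .nil)))) (.node (.node (.node (.I .com (.c 231045989685803681 (.c 8 .nil)) .nil) (.I .jac (.c 20685315 (.c 24 (.c 32 .nil))) (.b 16 (.b 48 .nil)))) (.node (.I .com (.c 27665004120184535784999080124869416588568062503198904133933121270729 (.c 8 .nil)) .nil) (.I .jac (.c 15246325749294153 (.c 16 (.c 40 .nil))) (.l 8 .nil)))) (.node (.node (.I .com (.c 27665004120184535784999080124875129290799088328972484693579532525321 (.c 8 .nil)) .nil) (.I .com (.c 27664030750838856656340776335290434406600291214972717943954874774345 (.c 8 .nil)) .nil)) (.node (.I .com (.c 15246191640314249 (.c 8 .nil)) (.b 4737 .nil)) (.I .adp (.c 15246191640314249 (.c 8 (.c 4737 .nil))) .nil)))))))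

noncomputable def c5_76 : Tr := (.node (.node (.node (.node (.node (.node (.I .jac (.c 15246191640314249 (.c 16 (.c 24 .nil))) (.r 8 .nil)) (.I .adp (.c 42762755 (.c 13057 (.c 4737 .nil))) .nil)) (.node (.I .jac (.c 42762755 (.c 16 (.c 24 .nil))) (.r 13057 .nil)) (.I .tdb (.c 16 (.c 24 (.c 13057 (.c 8 .nil)))) (.l 18433 .nil)))) (.node (.node (.I .adp (.c 8 (.c 13057 (.c 4737 .nil))) (.l 18433 .nil)) (.I .jac (.c 8 (.c 16 (.c 24 .nil))) (.r 13057 (.l 18433 .nil)))) (.node (.I .tdb (.c 16 (.c 24 (.c 18433 (.c 8 .nil)))) (.b 13057 .nil)) (.I .com (.c 70295418264021313545660038925084727711704858002440658323418333961 (.c 32 .nil)) .nil)))) (.node (.node (.node (.I .com (.c 74495752857506702162333100991755731799430958637739295985353481 (.c 8 .nil)) .nil) (.I .com (.c 23450673742499132617230818356782073792564445389379973727641842734857 (.c 32 .nil)) .nil)) (.node (.I .com (.c 70295418264016056367196823099584107178232037442043768344047715145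 (.c 32 .nil)) .nil) (.I .com (.c 65899851849278097965965088103831915539735404868841190574506825 (.c 8 .nil)) .nil))) (.node (.node (.I .com (.c 23450673742499132617230818356780320587867675258573236321901921645385 (.c 32 .nil)) .nil) (.I .adp (.c 8520195 (.c 18753 (.c 4737 .nil))) .nil)) (.node (.I .jac (.c 8520195 (.c 16 (.c 24 .nil))) (.r 18753 .nil)) (.I .tdb (.c 16 (.c 24 (.c 18753 (.c 8 .nil)))) (.l 8193 .nil)))))) (.node (.node (.node (.node (.I .adp (.c 8 (.c 18753 (.c 4737 .nil))) (.l 8193 .nil)) (.I .jac (.c 8 (.c 16 (.c 24 .nil))) (.r 18753 (.l 8193 .nil)))) (.node (.I .tdb (.c 40 (.c 48 (.c 24 (.c 32 .nil)))) (.b 16 (.l 513 .nil))) (.I .tdb (.c 40 (.c 48 (.c 16 (.c 32 .nil)))) (.b 24 (.l 513 .nil))))) (.node (.node (.I .adp (.c 43954691 (.c 32 (.c 24 .nil))) (.b 2113 .nil)) (.I .adp (.c 43954691 (.c 32 (.c 16 .nil))) (.b 4673 .nil))) (.node (.I .adp (.c 43954691 (.c 32 (.c 8 .nil)))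 (.b 4737 .nil)) (.I .adp (.c 537002377 (.c 40 (.c 24 .nil))) (.b 2113 .nil))))) (.node (.node (.node (.I .adp (.c 537002377 (.c 40 (.c 16 .nil))) (.b 4673 .nil)) (.I .adp (.c 537002377 (.c 40 (.c 8 .nil))) (.b 4737 .nil))) (.node (.I .adp (.c 43655171 (.c 40 (.c 24 .nil))) (.b 2113 .nil)) (.I .adp (.c 43655171 (.c 40 (.c 16 .nil))) (.b 4673 .nil)))) (.node (.node (.I .adp (.c 43655171 (.c 40 (.c 8 .nil))) (.b 4737 .nil)) (.I .jac (.c 0 (.c 8 (.c 16 .nil))) (.r 14591769557455838089 .nil))) (.node (.I .jac (.c 0 (.c 8 (.c 16 .nil))) (.r 61610561536314528713 .nil)) (.I .jac (.c 0 (.c 8 (.c 16 .nil))) (.r 2530945674147634121 .nil))))))) (.node (.node (.node (.node (.node (.I .jac (.c 0 (.c 8 (.c 16 .nil))) (.r 14591766791540265993 .nil)) (.I .jac (.c 0 (.c 8 (.c 24 .nil))) (.r 14306386471475043209 .nil))) (.node (.I .jac (.c 0 (.c 8 (.c 24 .nil))) (.r 60768081417602405321 .nil)) (.I .jac (.c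 0 (.c 8 (.c 24 .nil))) (.r 2454554348984163273 .nil)))) (.node (.node (.I .jac (.c 0 (.c 8 (.c 24 .nil))) (.r 14306383732740658185 .nil)) (.I .jac (.c 0 (.c 8 (.c 16 .nil))) (.r 61610564378042824585 .nil))) (.node (.I .jac (.c 0 (.c 8 (.c 16 .nil))) (.r 2530945098182293513 .nil)) (.I .jac (.c 0 (.c 8 (.c 24 .nil))) (.r 60768084239834527625 .nil))))) (.node (.node (.node (.I .jac (.c 0 (.c 8 (.c 24 .nil))) (.r 2454553781777577993 .nil)) (.I .adp (.c 0 (.c 43954947 (.c 24 .nil))) (.b 2113 .nil))) (.node (.I .adp (.c 0 (.c 15456298926182665 (.c 2113 .nil))) .nil) (.I .jac (.c 0 (.c 8 (.c 16 .nil))) (.r 15456298926182665 .nil)))) (.node (.node (.I .adp (.c 0 (.c 43954947 (.c 16 .nil))) (.b 4673 .nil)) (.I .adp (.c 0 (.c 15456298926182601 (.c 4673 .nil))) .nil)) (.node (.I .jac (.c 0 (.c 8 (.c 24 .nil))) (.r 15456298926182601 .nil)) (.I .adp (.c 0 (.c 43954947 (.c 8 .nil))) (.b 4737 .nil))))))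 (.node (.node (.node (.node (.I .adp (.c 0 (.c 15456298926182537 (.c 4737 .nil))) .nil) (.I .jac (.c 0 (.c 16 (.c 24 .nil))) (.r 15456298926182537 .nil))) (.node (.I .adp (.c 0 (.c 3632106110100937 (.c 2113 .nil))) .nil) (.I .jac (.c 0 (.c 8 (.c 16 .nil))) (.r 3632106110100937 .nil)))) (.node (.node (.I .adp (.c 16 (.c 24 (.c 8 .nil))) (.b 13748198893136698249 .nil)) (.I .com (.c 4673 (.c 16 .nil)) (.b 13748198893136698249 .nil))) (.node (.I .adp (.c 4673 (.c 16 (.c 13748198893136698249 .nil))) .nil) (.I .com (.c 1512103782441961079041378905002237328201 (.c 2113 .nil)) .nil)))) (.node (.node (.node (.I .adp (.c 16 (.c 24 (.c 8 .nil))) (.b 59109071234951844809 .nil)) (.I .com (.c 4673 (.c 16 .nil)) (.b 59109071234951844809 .nil))) (.node (.I .adp (.c 4673 (.c 16 (.c 59109071234951844809 .nil))) .nil) (.I .com (.c 27951058418068892863957554057219361971977 (.c 4673 .nil)) .nil))) (.node (.node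 (.I .com (.c 27951058418068892863957554057219361972041 (.c 2113 .nil)) .nil) (.I .adp (.c 16 (.c 24 (.c 8 .nil))) (.b 2306972423229201353 .nil))) (.node (.I .com (.c 4673 (.c 16 .nil)) (.b 2306972423229201353 .nil)) (.I .adp (.c 2113 (.c 24 (.c 2306972423229201353 .nil))) .nil)))))))

noncomputable def c5_77 : Tr := (.node (.node (.node (.node (.node (.node (.I .com (.c 42576974092320106643384879185736245065 (.c 2113 .nil)) .nil) (.I .adp (.c 4673 (.c 16 (.c 13748196208362034185 .nil))) .nil)) (.node (.I .adp (.c 2113 (.c 24 (.c 13748196208362034185 .nil))) .nil) (.I .com (.c 1512103191868961706263182477688868913993 (.c 2113 .nil)) .nil))) (.node (.node (.I .adp (.c 16 (.c 24 (.c 8 .nil))) (.b 59109074018392946569 .nil)) (.I .com (.c 4673 (.c 16 .nil)) (.b 59109074018392946569 .nil))) (.node (.I .adp (.c 2113 (.c 24 (.c 59109074018392946569 .nil))) .nil) (.I .com (.c 27951061050494848639907477563920710974281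 (.c 2113 .nil)) .nil)))) (.node (.node (.node (.I .adp (.c 4673 (.c 16 (.c 2306971873338800137 .nil))) .nil) (.I .com (.c 42576953795010663218959029878649750281 (.c 4673 .nil)) .nil)) (.node (.I .adp (.c 2113 (.c 24 (.c 2306971873338800137 .nil))) .nil) (.I .com (.c 1911177411964075743551050339165961 (.c 4673 .nil)) .nil))) (.node (.node (.I .com (.c 1911177411964075743551050339166025 (.c 2113 .nil)) .nil) (.I .jac (.c 169943177 (.c 32 (.c 48 .nil))) (.l 12865 .nil))) (.node (.I .adp (.c 2049 (.c 24 (.c 15456163896880457 .nil))) .nil) (.I .jac (.c 62886542410057 (.c 8 (.c 48 .nil))) (.r 40 .nil)))))) (.node (.node (.node (.node (.I .tdb (.c 32 (.c 18497 (.c 16 (.c 40 .nil)))) (.l 4609 .nil)) (.I .tdb (.c 8 (.c 48 (.c 24 (.c 40 .nil)))) (.b 32 (.l 2049 .nil)))) (.node (.I .jac (.c 62886542410185 (.c 8 (.c 32 .nil))) (.r 40 .nil)) (.I .com (.c 31637737730463973030333874057 (.c 12865 .nil))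 .nil))) (.node (.node (.I .jac (.c 16 (.c 32 (.c 48 .nil))) (.l 12865 (.l 4609 .nil))) (.I .jac (.c 16 (.c 32 (.c 48 .nil))) (.l 231045989336561353 .nil))) (.node (.I .jac (.c 0 (.c 8786563 (.c 48 .nil))) (.r 12865 .nil)) (.I .ass (.c 9024976834606793 (.c 18689 (.c 24 .nil))) .nil)))) (.node (.node (.node (.I .com (.c 24 (.c 18689 .nil)) (.l 9024976834606793 .nil)) (.I .ass (.c 9024839260612553 (.c 18689 (.c 24 .nil))) .nil)) (.node (.I .jac (.c 24 (.c 32 (.c 48 .nil))) (.l 9024839260612553 .nil)) (.I .com (.c 24 (.c 18689 .nil)) (.l 9024839260612553 .nil)))) (.node (.node (.I .adp (.c 4673 (.c 16 (.c 3632040653488585 .nil))) .nil) (.I .tdb (.c 0 (.c 48 (.c 16 (.c 40 .nil)))) (.b 32 (.l 4673 .nil)))) (.node (.I .com (.c 97535117142658802225506092679049 (.c 4673 .nil)) .nil) (.I .ass (.c 4673 (.c 59109071234951844617 (.c 40 .nil))) .nil)))))) (.node (.node (.node (.node (.node (.I .ass (.c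 59109071234951844617 (.c 4673 (.c 40 .nil))) .nil) (.I .com (.c 4673 (.c 59109071234951844617 .nil)) (.r 40 .nil))) (.node (.I .ass (.c 4673 (.c 2718204169 (.c 12929 .nil))) .nil) (.I .ass (.c 2718204169 (.c 4673 (.c 12929 .nil))) .nil))) (.node (.node (.I .com (.c 4673 (.c 2718204169 .nil)) (.r 12929 .nil)) (.I .com (.c 2718204169 (.c 3491710045129993 .nil)) .nil)) (.node (.I .com (.c 2718204169 (.c 3561389332330633 .nil)) .nil) (.I .tdb (.c 0 (.c 48 (.c 24 (.c 40 .nil)))) (.b 32 (.l 2113 .nil)))))) (.node (.node (.node (.I .ass (.c 2113 (.c 2718204169 (.c 12993 .nil))) .nil) (.I .ass (.c 2718204169 (.c 2113 (.c 12993 .nil))) .nil)) (.node (.I .com (.c 2113 (.c 2718204169 .nil)) (.r 12993 .nil)) (.I .com (.c 2718204169 (.c 3561367726845129 .nil)) .nil))) (.node (.node (.I .tdb (.c 48 (.c 8193 (.c 16 (.c 40 .nil)))) (.l 4673 .nil)) (.I .tdb (.c 0 (.c 32 (.c 16 (.c 40 .nil)))) (.b 48 (.l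 4673 .nil)))) (.node (.I .com (.c 97535117142651651247146700978185 (.c 4673 .nil)) .nil) (.I .ass (.c 4673 (.c 2306972423229201161 (.c 40 .nil))) .nil))))) (.node (.node (.node (.node (.I .ass (.c 2306972423229201161 (.c 4673 (.c 40 .nil))) .nil) (.I .com (.c 4673 (.c 2306972423229201161 .nil)) (.r 40 .nil))) (.node (.I .com (.c 537002377 (.c 3491710045129993 .nil)) .nil) (.I .tdb (.c 48 (.c 8193 (.c 24 (.c 40 .nil)))) (.l 2113 .nil)))) (.node (.node (.I .tdb (.c 0 (.c 32 (.c 24 (.c 40 .nil)))) (.b 48 (.l 2113 .nil))) (.I .ass (.c 2113 (.c 2306972423229201225 (.c 40 .nil))) .nil)) (.node (.I .ass (.c 2306972423229201225 (.c 2113 (.c 40 .nil))) .nil) (.I .com (.c 2113 (.c 2306972423229201225 .nil)) (.r 40 .nil))))) (.node (.node (.node (.I .tdb (.c 32 (.c 48 (.c 0 (.c 16 .nil)))) (.b 40 (.l 4673 .nil))) (.I .ass (.c 4673 (.c 12801 (.c 2756086025 .nil))) .nil)) (.node (.I .ass (.c 12801 (.c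 4673 (.c 2756086025 .nil))) .nil) (.I .com (.c 4673 (.c 12801 .nil)) (.r 2756086025 .nil)))) (.node (.node (.I .tdb (.c 32 (.c 48 (.c 0 (.c 24 .nil)))) (.b 40 (.l 2113 .nil))) (.I .jac (.c 24 (.c 32 (.c 48 .nil))) (.l 12801 (.l 2113 .nil)))) (.node (.I .com (.c 3051551917826763369823227314121 (.c 2113 .nil)) .nil) (.I .ass (.c 2113 (.c 1310925001 (.c 18689 .nil))) .nil)))))))

noncomputable def c5_78 : Tr := (.node (.node (.node (.node (.node (.node (.I .ass (.c 1310925001 (.c 2113 (.c 18689 .nil))) .nil) (.I .com (.c 2113 (.c 1310925001 .nil)) (.r 18689 .nil))) (.node (.I .ass (.c 2113 (.c 12801 (.c 562466185 .nil))) .nil) (.I .ass (.c 12801 (.c 2113 (.c 562466185 .nil))) .nil))) (.node (.node (.I .com (.c 2113 (.c 12801 .nil)) (.r 562466185 .nil)) (.I .ass (.c 13748193523587631817 (.c 18689 (.c 24 .nil))) .nil)) (.node (.I .jac (.c 24 (.c 32 (.c 48 .nil))) (.l 13748193523587631817 .nil))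 (.I .com (.c 24 (.c 18689 .nil)) (.l 13748193523587631817 .nil))))) (.node (.node (.node (.I .ass (.c 13748192181200529161 (.c 18689 (.c 24 .nil))) .nil) (.I .com (.c 24 (.c 18689 .nil)) (.l 13748192181200529161 .nil))) (.node (.I .jac (.c 169943177 (.c 32 (.c 40 .nil))) (.l 18497 .nil)) (.I .jac (.c 174695561 (.c 32 (.c 40 .nil))) (.l 18433 .nil)))) (.node (.node (.I .adp (.c 2049 (.c 24 (.c 15246236343242121 .nil))) .nil) (.I .jac (.c 16 (.c 32 (.c 40 .nil))) (.l 231045293249046537 .nil))) (.node (.I .tdb (.c 32 (.c 40 (.c 18497 (.c 24 .nil)))) (.l 2049 .nil)) (.I .jac (.c 24 (.c 32 (.c 40 .nil))) (.l 18497 (.l 2049 .nil))))))) (.node (.node (.node (.node (.I .jac (.c 24 (.c 32 (.c 40 .nil))) (.l 9025011228269257 .nil)) (.I .tdb (.c 32 (.c 12865 (.c 24 (.c 48 .nil)))) (.l 2049 .nil))) (.node (.I .tdb (.c 8 (.c 40 (.c 24 (.c 48 .nil)))) (.b 32 (.l 2049 .nil))) (.I .adp (.c 2113 (.c 24 (.c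 15246191640314249 .nil))) .nil))) (.node (.node (.I .ass (.c 4673 (.c 18433 (.c 1337272585 .nil))) .nil) (.I .ass (.c 18433 (.c 4673 (.c 1337272585 .nil))) .nil)) (.node (.I .com (.c 4673 (.c 18433 .nil)) (.r 1337272585 .nil)) (.I .jac (.c 16 (.c 32 (.c 40 .nil))) (.l 59109068451510808265 .nil))))) (.node (.node (.node (.I .tdb (.c 0 (.c 48 (.c 24 (.c 32 .nil)))) (.b 40 (.l 2113 .nil))) (.I .tdb (.c 32 (.c 40 (.c 18433 (.c 24 .nil)))) (.l 2113 .nil))) (.node (.I .jac (.c 24 (.c 32 (.c 40 .nil))) (.l 18433 (.l 2113 .nil))) (.I .ass (.c 2113 (.c 18433 (.c 562466121 .nil))) .nil))) (.node (.node (.I .ass (.c 18433 (.c 2113 (.c 562466121 .nil))) .nil) (.I .com (.c 2113 (.c 18433 .nil)) (.r 562466121 .nil))) (.node (.I .jac (.c 24 (.c 32 (.c 40 .nil))) (.l 59109062884628932361 .nil)) (.I .tdb (.c 32 (.c 12801 (.c 16 (.c 48 .nil)))) (.l 4673 .nil))))))) (.node (.node (.node (.node (.node (.I .ass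 (.c 4673 (.c 1310925065 (.c 18561 .nil))) .nil) (.I .ass (.c 1310925065 (.c 4673 (.c 18561 .nil))) .nil)) (.node (.I .com (.c 4673 (.c 1310925065 .nil)) (.r 18561 .nil)) (.I .com (.c 1310925065 (.c 14832803796618505 .nil)) .nil))) (.node (.node (.I .com (.c 1310925065 (.c 15038498931046537 .nil)) .nil) (.I .tdb (.c 0 (.c 40 (.c 24 (.c 48 .nil)))) (.b 32 (.l 2113 .nil)))) (.node (.I .ass (.c 2113 (.c 1310925065 (.c 18625 .nil))) .nil) (.I .ass (.c 1310925065 (.c 2113 (.c 18625 .nil))) .nil)))) (.node (.node (.node (.I .com (.c 2113 (.c 1310925065 .nil)) (.r 18625 .nil)) (.I .com (.c 1310925065 (.c 15038454533713097 .nil)) .nil)) (.node (.I .com (.c 537002313 (.c 15038498931046537 .nil)) .nil) (.I .tdb (.c 40 (.c 8193 (.c 24 (.c 48 .nil)))) (.l 2113 .nil)))) (.node (.node (.I .tdb (.c 0 (.c 32 (.c 24 (.c 48 .nil)))) (.b 40 (.l 2113 .nil))) (.I .jac (.c 169943177 (.c 40 (.c 48 .nil))) (.l 8257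 .nil))) (.node (.I .jac (.c 33587401 (.c 40 (.c 48 .nil))) (.l 8257 .nil)) (.I .jac (.c 174695561 (.c 40 (.c 48 .nil))) (.l 8193 .nil)))))) (.node (.node (.node (.node (.I .tdb (.c 40 (.c 18497 (.c 16 (.c 32 .nil)))) (.l 4609 .nil)) (.I .tdb (.c 48 (.c 12865 (.c 24 (.c 32 .nil)))) (.l 2049 .nil))) (.node (.I .tdb (.c 8 (.c 40 (.c 24 (.c 32 .nil)))) (.b 48 (.l 2049 .nil))) (.I .com (.c 31637737730399577210905877513 (.c 8257 .nil)) .nil))) (.node (.node (.I .jac (.c 16 (.c 40 (.c 48 .nil))) (.l 8257 (.l 4609 .nil))) (.I .jac (.c 0 (.c 21099139 (.c 48 .nil))) (.r 8257 .nil))) (.node (.I .ass (.c 9024942441009865 (.c 18753 (.c 24 .nil))) .nil) (.I .jac (.c 24 (.c 40 (.c 48 .nil))) (.l 9024942441009865 .nil))))) (.node (.node (.node (.I .com (.c 24 (.c 18753 .nil)) (.l 9024942441009865 .nil)) (.I .ass (.c 9024839260612489 (.c 18753 (.c 24 .nil))) .nil)) (.node (.I .jac (.c 24 (.c 40 (.c 48 .nil)))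 (.l 9024839260612489 .nil)) (.I .com (.c 24 (.c 18753 .nil)) (.l 9024839260612489 .nil)))) (.node (.node (.I .tdb (.c 40 (.c 18433 (.c 16 (.c 32 .nil)))) (.l 4673 .nil)) (.I .ass (.c 4673 (.c 59109074018392946441 (.c 32 .nil))) .nil)) (.node (.I .ass (.c 59109074018392946441 (.c 4673 (.c 32 .nil))) .nil) (.I .com (.c 4673 (.c 59109074018392946441 .nil)) (.r 32 .nil))))))))

noncomputable def c5_79 : Tr := (.node (.node (.node (.node (.node (.node (.I .com (.c 2718204233 (.c 598976858557705 .nil)) .nil) (.I .com (.c 2718204233 (.c 617629514823817 .nil)) .nil)) (.node (.I .tdb (.c 40 (.c 18433 (.c 24 (.c 32 .nil)))) (.l 2113 .nil)) (.I .ass (.c 2113 (.c 59109074018392946505 (.c 32 .nil))) .nil))) (.node (.node (.I .ass (.c 59109074018392946505 (.c 2113 (.c 32 .nil))) .nil) (.I .com (.c 2113 (.c 59109074018392946505 .nil)) (.r 32 .nil))) (.node (.I .ass (.c 2113 (.c 2718204233 (.c 8385 .nil)))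 .nil) (.I .ass (.c 2718204233 (.c 2113 (.c 8385 .nil))) .nil)))) (.node (.node (.node (.I .com (.c 2113 (.c 2718204233 .nil)) (.r 8385 .nil)) (.I .com (.c 2870101301550132088254642183177 (.c 4673 .nil)) .nil)) (.node (.I .ass (.c 4673 (.c 13748198893136698121 (.c 32 .nil))) .nil) (.I .ass (.c 13748198893136698121 (.c 4673 (.c 32 .nil))) .nil))) (.node (.node (.I .com (.c 4673 (.c 13748198893136698121 .nil)) (.r 32 .nil)) (.I .com (.c 1310925193 (.c 617629514823817 .nil)) .nil)) (.node (.I .tdb (.c 48 (.c 12801 (.c 24 (.c 32 .nil)))) (.l 2113 .nil)) (.I .tdb (.c 0 (.c 40 (.c 24 (.c 32 .nil)))) (.b 48 (.l 2113 .nil))))))) (.node (.node (.node (.node (.I .com (.c 3051551917826130935626671381513 (.c 2113 .nil)) .nil) (.I .ass (.c 2113 (.c 13748198893136698185 (.c 32 .nil))) .nil)) (.node (.I .ass (.c 13748198893136698185 (.c 2113 (.c 32 .nil))) .nil) (.I .com (.c 2113 (.c 13748198893136698185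 .nil)) (.r 32 .nil)))) (.node (.node (.I .com (.c 1310925193 (.c 617620517416137 .nil)) .nil) (.I .tdb (.c 40 (.c 48 (.c 0 (.c 16 .nil)))) (.b 32 (.l 4673 .nil)))) (.node (.I .tdb (.c 40 (.c 48 (.c 0 (.c 24 .nil)))) (.b 32 (.l 2113 .nil))) (.I .jac (.c 24 (.c 40 (.c 48 .nil))) (.l 8193 (.l 2113 .nil)))))) (.node (.node (.node (.I .ass (.c 2113 (.c 537002185 (.c 18753 .nil))) .nil) (.I .ass (.c 537002185 (.c 2113 (.c 18753 .nil))) .nil)) (.node (.I .com (.c 2113 (.c 537002185 .nil)) (.r 18753 .nil)) (.I .ass (.c 2113 (.c 8193 (.c 2775125321 .nil))) .nil))) (.node (.node (.I .ass (.c 8193 (.c 2113 (.c 2775125321 .nil))) .nil) (.I .com (.c 2113 (.c 8193 .nil)) (.r 2775125321 .nil))) (.node (.I .ass (.c 2113 (.c 8193 (.c 1350544777 .nil))) .nil) (.I .ass (.c 8193 (.c 2113 (.c 1350544777 .nil))) .nil)))))) (.node (.node (.node (.node (.node (.I .com (.c 2113 (.c 8193 .nil)) (.r 1350544777 .nil))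 (.I .ass (.c 2306970223667989193 (.c 18753 (.c 24 .nil))) .nil)) (.node (.I .jac (.c 24 (.c 40 (.c 48 .nil))) (.l 2306970223667989193 .nil)) (.I .com (.c 24 (.c 18753 .nil)) (.l 2306970223667989193 .nil)))) (.node (.node (.I .ass (.c 2306969673777850121 (.c 18753 (.c 24 .nil))) .nil) (.I .com (.c 24 (.c 18753 .nil)) (.l 2306969673777850121 .nil))) (.node (.I .com (.c 231045467270826953 (.c 32 .nil)) (.l 18497 .nil)) (.I .tdb (.c 16 (.c 4609 (.c 32 (.c 40 .nil)))) (.b 18497 .nil))))) (.node (.node (.node (.I .tdb (.c 0 (.c 24 (.c 32 (.c 40 .nil)))) (.b 16 (.b 18497 .nil))) (.I .tdb (.c 16 (.c 4609 (.c 32 (.c 48 .nil)))) (.l 12865 .nil))) (.node (.I .tdb (.c 0 (.c 24 (.c 32 (.c 48 .nil)))) (.b 16 (.l 12865 .nil))) (.I .com (.c 231045467270827017 (.c 32 .nil)) (.l 12865 .nil)))) (.node (.node (.I .tdb (.c 16 (.c 4609 (.c 32 (.c 48 .nil)))) (.b 12865 .nil)) (.I .tdb (.c 0 (.c 24 (.c 32 (.c 48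 .nil)))) (.b 16 (.b 12865 .nil)))) (.node (.I .tdb (.c 16 (.c 4609 (.c 40 (.c 48 .nil)))) (.l 8257 .nil)) (.I .tdb (.c 0 (.c 24 (.c 40 (.c 48 .nil)))) (.b 16 (.l 8257 .nil))))))) (.node (.node (.node (.node (.I .com (.c 231045467270827017 (.c 40 .nil)) (.l 8257 .nil)) (.I .tdb (.c 24 (.c 2049 (.c 32 (.c 40 .nil)))) (.l 18497 .nil))) (.node (.I .tdb (.c 0 (.c 16 (.c 32 (.c 40 .nil)))) (.b 24 (.l 18497 .nil))) (.I .com (.c 9024908047478729 (.c 32 .nil)) (.l 18497 .nil)))) (.node (.node (.I .tdb (.c 24 (.c 2049 (.c 32 (.c 48 .nil)))) (.l 12865 .nil)) (.I .tdb (.c 0 (.c 16 (.c 32 (.c 48 .nil)))) (.b 24 (.l 12865 .nil)))) (.node (.I .com (.c 9024908047478793 (.c 32 .nil)) (.l 12865 .nil)) (.I .tdb (.c 24 (.c 2049 (.c 32 (.c 48 .nil)))) (.b 12865 .nil))))) (.node (.node (.node (.I .tdb (.c 0 (.c 16 (.c 32 (.c 48 .nil)))) (.b 24 (.b 12865 .nil))) (.I .tdb (.c 24 (.c 2049 (.c 40 (.c 48 .nil))))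 (.l 8257 .nil))) (.node (.I .tdb (.c 0 (.c 16 (.c 40 (.c 48 .nil)))) (.b 24 (.l 8257 .nil))) (.I .com (.c 9024908047478793 (.c 40 .nil)) (.l 8257 .nil)))) (.node (.node (.I .tdb (.c 16 (.c 4673 (.c 32 (.c 40 .nil)))) (.l 18433 .nil)) (.I .tdb (.c 8 (.c 24 (.c 32 (.c 40 .nil)))) (.b 16 (.l 18433 .nil)))) (.node (.I .com (.c 244148312264838089 (.c 32 .nil)) (.l 18433 .nil)) (.I .com (.c 244148312264838153 (.c 32 .nil)) (.l 12801 .nil))))))))

noncomputable def c5_80 : Tr := (.node (.node (.node (.node (.node (.node (.I .com (.c 244148312264838153 (.c 40 .nil)) (.l 8193 .nil)) (.I .tdb (.c 0 (.c 32 (.c 16 (.c 48 .nil)))) (.b 4673 (.b 40 .nil)))) (.node (.I .com (.c 10206401356312521 (.c 32 .nil)) (.l 18433 .nil)) (.I .com (.c 10206401356312585 (.c 32 .nil)) (.l 12801 .nil)))) (.node (.node (.I .com (.c 10206401356312585 (.c 40 .nil)) (.l 8193 .nil)) (.I .tdb (.c 0 (.c 32 (.c 24 (.c 48 .nil))))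 (.b 2113 (.b 40 .nil)))) (.node (.I .jac (.c 12865 (.c 16 (.c 48 .nil))) (.b 32 (.l 4609 .nil))) (.I .jac (.c 8257 (.c 16 (.c 48 .nil))) (.b 40 (.l 4609 .nil)))))) (.node (.node (.node (.I .jac (.c 2737112329 (.c 16 (.c 40 .nil))) (.l 4609 .nil)) (.I .jac (.c 18497 (.c 12929 (.c 32 .nil))) (.l 4609 .nil))) (.node (.I .jac (.c 231046163358604169 (.c 16 (.c 40 .nil))) (.r 8 .nil)) (.I .adp (.c 8 (.c 24 (.c 16 .nil))) (.b 13748198893136698249 .nil)))) (.node (.node (.I .adp (.c 8 (.c 4737 (.c 13748198893136698249 .nil))) .nil) (.I .jac (.c 13748198893136698249 (.c 16 (.c 24 .nil))) (.l 8 .nil))) (.node (.I .adp (.c 8 (.c 24 (.c 16 .nil))) (.b 59109071234951844809 .nil)) (.I .adp (.c 8 (.c 4737 (.c 59109071234951844809 .nil))) .nil))))) (.node (.node (.node (.node (.I .jac (.c 59109071234951844809 (.c 16 (.c 24 .nil))) (.l 8 .nil)) (.I .com (.c 6250093333522399357233012691825335010346291779882781776226983039323613731725645577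 (.c 8 .nil)) .nil)) (.node (.I .com (.c 6250093333522399357233012691825335010317669896062679229934290503969021105066308425 (.c 8 .nil)) .nil) (.I .adp (.c 8 (.c 4737 (.c 2306972423229201353 .nil))) .nil))) (.node (.node (.I .jac (.c 2306972423229201353 (.c 16 (.c 24 .nil))) (.l 8 .nil)) (.I .adp (.c 8 (.c 24 (.c 16 .nil))) (.b 13748196208362034185 .nil))) (.node (.I .jac (.c 13748196208362034185 (.c 16 (.c 24 .nil))) (.l 8 .nil)) (.I .jac (.c 231045815314584521 (.c 16 (.c 48 .nil))) (.r 8 .nil))))) (.node (.node (.node (.I .jac (.c 2737112393 (.c 16 (.c 32 .nil))) (.l 4609 .nil)) (.I .jac (.c 18497 (.c 8321 (.c 40 .nil))) (.l 4609 .nil))) (.node (.I .adp (.c 8 (.c 4737 (.c 59109074018392946569 .nil))) .nil) (.I .adp (.c 8 (.c 24 (.c 16 .nil))) (.b 2306971873338800137 .nil)))) (.node (.node (.I .jac (.c 2306971873338800137 (.c 16 (.c 24 .nil))) (.l 8 .nil)) (.I .com (.c 231045293249046473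 (.c 2756086025 .nil)) .nil)) (.node (.I .com (.c 231045293249046473 (.c 553912713 .nil)) .nil) (.I .com (.c 427055420260303274284998876733539209 (.c 12929 .nil)) .nil)))))) (.node (.node (.node (.node (.node (.I .adp (.c 4609 (.c 8 (.c 15456208906582345 .nil))) .nil) (.I .jac (.c 4609 (.c 43954819 (.c 32 .nil))) (.r 8 .nil))) (.node (.I .adp (.c 513 (.c 24 (.c 15456208906582345 .nil))) .nil) (.I .adp (.c 8 (.c 24 (.c 0 .nil))) (.b 3632084291164617 .nil)))) (.node (.node (.I .com (.c 4609 (.c 8 .nil)) (.b 3632084291164617 .nil)) (.I .jac (.c 59555558875465 (.c 16 (.c 48 .nil))) (.r 40 .nil))) (.node (.I .jac (.c 21307459 (.c 16 (.c 48 .nil))) (.l 4609 .nil)) (.I .tdb (.c 16 (.c 48 (.c 8 (.c 40 .nil)))) (.b 32 (.l 4609 .nil)))))) (.node (.node (.node (.I .jac (.c 8257 (.c 16 (.c 48 .nil))) (.r 40 (.l 4609 .nil))) (.I .jac (.c 3632106110100553 (.c 16 (.c 48 .nil))) (.r 8 .nil))) (.node (.I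 .jac (.c 8257 (.c 16 (.c 48 .nil))) (.l 169943369 .nil)) (.I .jac (.c 59555558875593 (.c 16 (.c 32 .nil))) (.r 40 .nil)))) (.node (.node (.I .jac (.c 18497 (.c 16 (.c 32 .nil))) (.r 40 (.l 4609 .nil))) (.I .jac (.c 18433 (.c 16 (.c 21307587 .nil))) (.r 8 .nil))) (.node (.I .jac (.c 18497 (.c 16 (.c 32 .nil))) (.l 169943369 .nil)) (.I .tdb (.c 48 (.c 8321 (.c 24 (.c 40 .nil)))) (.l 513 .nil)))))) (.node (.node (.node (.node (.I .tdb (.c 16 (.c 32 (.c 24 (.c 40 .nil)))) (.b 48 (.l 513 .nil))) (.I .com (.c 28374916743873793267608813449 (.c 12929 .nil)) .nil)) (.node (.I .com (.c 28374916743751823483031730185 (.c 12929 .nil)) .nil) (.I .jac (.c 2728451 (.c 16 (.c 40 .nil))) (.r 18689 .nil)))) (.node (.node (.I .com (.c 2737112329 (.c 12929 .nil)) (.l 4609 .nil)) (.I .com (.c 545424777 (.c 12929 .nil)) (.l 4609 .nil))) (.node (.I .jac (.c 8 (.c 16 (.c 40 .nil))) (.r 18689 (.l 4609 .nil))) (.I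 .jac (.c 12801 (.c 43356803 (.c 32 .nil))) (.r 8 .nil))))) (.node (.node (.node (.I .jac (.c 12801 (.c 8786563 (.c 48 .nil))) (.r 8 .nil)) (.I .jac (.c 8 (.c 16 (.c 40 .nil))) (.l 231046163358604169 .nil))) (.node (.I .jac (.c 8 (.c 32 (.c 48 .nil))) (.l 231045989336561417 .nil)) (.I .jac (.c 8 (.c 32 (.c 48 .nil))) (.l 231045467270826953 .nil)))) (.node (.node (.I .tdb (.c 16 (.c 40 (.c 18689 (.c 24 .nil)))) (.l 513 .nil)) (.I .jac (.c 24 (.c 32 (.c 48 .nil))) (.l 12929 (.l 513 .nil)))) (.node (.I .ass (.c 35470870263561 (.c 18689 (.c 24 .nil))) .nil) (.I .jac (.c 24 (.c 32 (.c 48 .nil))) (.l 35470870263561 .nil))))))))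

noncomputable def c5_81 : Tr := (.node (.node (.node (.node (.node (.node (.I .com (.c 24 (.c 18689 .nil)) (.l 35470870263561 .nil)) (.I .ass (.c 35464401931209 (.c 18689 (.c 24 .nil))) .nil)) (.node (.I .com (.c 24 (.c 18689 .nil)) (.l 35464401931209 .nil)) (.I .adp (.c 8 (.c 4737 (.c 3632040653488585 .nil))) .nil))) (.node (.node (.I .ass (.c 59109071234951844553 (.c 40 (.c 4737 .nil))) .nil) (.I .com (.c 4737 (.c 40 .nil)) (.l 59109071234951844553 .nil))) (.node (.I .ass (.c 2718204169 (.c 12865 (.c 4737 .nil))) .nil) (.I .ass (.c 2306972423229201097 (.c 40 (.c 4737 .nil))) .nil)))) (.node (.node (.node (.I .com (.c 4737 (.c 40 .nil)) (.l 2306972423229201097 .nil)) (.I .jac (.c 0 (.c 43954755 (.c 32 .nil))) (.r 4737 .nil))) (.node (.I .com (.c 427055420260303037694618589709918089 (.c 18561 .nil)) .nil) (.I .com (.c 427055420260302801104238302686362569 (.c 18561 .nil)) .nil))) (.node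 (.node (.I .jac (.c 231045293249046409 (.c 16 (.c 40 .nil))) (.r 48 .nil)) (.I .com (.c 231045293249046537 (.c 553912649 .nil)) .nil)) (.node (.I .jac (.c 231045293249046473 (.c 16 (.c 32 .nil))) (.r 48 .nil)) (.I .adp (.c 8 (.c 24 (.c 0 .nil))) (.b 15246281046235529 .nil)))))) (.node (.node (.node (.node (.I .com (.c 4609 (.c 8 .nil)) (.b 15246281046235529 .nil)) (.I .adp (.c 4609 (.c 8 (.c 15246281046235529 .nil))) .nil)) (.node (.I .jac (.c 4609 (.c 43655299 (.c 40 .nil))) (.r 8 .nil)) (.I .jac (.c 2728451 (.c 32 (.c 40 .nil))) (.l 18561 .nil)))) (.node (.node (.I .tdb (.c 16 (.c 48 (.c 8 (.c 32 .nil)))) (.b 40 (.l 4609 .nil))) (.I .jac (.c 8 (.c 32 (.c 40 .nil))) (.l 231046163358604041 .nil))) (.node (.I .jac (.c 8 (.c 16 (.c 48 .nil))) (.l 231045815314584521 .nil)) (.I .tdb (.c 16 (.c 48 (.c 24 (.c 32 .nil)))) (.b 40 (.l 513 .nil)))))) (.node (.node (.node (.I .jac (.c 24 (.c 32 (.c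 40 .nil))) (.l 35473026505481 .nil)) (.I .jac (.c 43655235 (.c 16 (.c 40 .nil))) (.l 4609 .nil))) (.node (.I .jac (.c 15246325749294153 (.c 16 (.c 40 .nil))) (.r 8 .nil)) (.I .jac (.c 8193 (.c 43356803 (.c 40 .nil))) (.r 8 .nil)))) (.node (.node (.I .tdb (.c 32 (.c 12929 (.c 24 (.c 48 .nil)))) (.l 513 .nil)) (.I .tdb (.c 16 (.c 40 (.c 24 (.c 48 .nil)))) (.b 32 (.l 513 .nil)))) (.node (.I .tdb (.c 40 (.c 8321 (.c 24 (.c 48 .nil)))) (.l 513 .nil)) (.I .tdb (.c 16 (.c 32 (.c 24 (.c 48 .nil)))) (.b 40 (.l 513 .nil)))))))) (.node (.node (.node (.node (.node (.I .adp (.c 8 (.c 24 (.c 16 .nil))) (.b 15246191640314249 .nil)) (.I .adp (.c 8 (.c 4737 (.c 15246191640314249 .nil))) .nil)) (.node (.I .jac (.c 15246191640314249 (.c 16 (.c 24 .nil))) (.l 8 .nil)) (.I .ass (.c 1310925065 (.c 18497 (.c 4737 .nil))) .nil))) (.node (.node (.I .jac (.c 2105545 (.c 40 (.c 48 .nil))) (.l 8321 .nil)) (.I .jac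 (.c 169943113 (.c 40 (.c 48 .nil))) (.l 8321 .nil))) (.node (.I .com (.c 427055420260303274284998876733539273 (.c 8321 .nil)) .nil) (.I .jac (.c 59555558875529 (.c 16 (.c 48 .nil))) (.r 32 .nil))))) (.node (.node (.node (.I .jac (.c 12865 (.c 16 (.c 48 .nil))) (.r 32 (.l 4609 .nil))) (.I .jac (.c 12865 (.c 16 (.c 48 .nil))) (.l 169943305 .nil))) (.node (.I .jac (.c 59555558875593 (.c 16 (.c 40 .nil))) (.r 32 .nil)) (.I .jac (.c 18497 (.c 16 (.c 40 .nil))) (.r 32 (.l 4609 .nil))))) (.node (.node (.I .jac (.c 18497 (.c 16 (.c 40 .nil))) (.l 169943305 .nil)) (.I .tdb (.c 48 (.c 12929 (.c 24 (.c 32 .nil)))) (.l 513 .nil))) (.node (.I .tdb (.c 16 (.c 40 (.c 24 (.c 32 .nil)))) (.b 48 (.l 513 .nil))) (.I .com (.c 28374916743873793267608813513 (.c 8321 .nil)) .nil))))) (.node (.node (.node (.node (.I .com (.c 28374916743812808375320239113 (.c 8321 .nil)) .nil) (.I .com (.c 2737112393 (.c 8321 .nil))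 (.l 4609 .nil))) (.node (.I .com (.c 1324066185 (.c 8321 .nil)) (.l 4609 .nil)) (.I .jac (.c 8 (.c 16 (.c 32 .nil))) (.r 18753 (.l 4609 .nil))))) (.node (.node (.I .tdb (.c 16 (.c 32 (.c 18753 (.c 24 .nil)))) (.l 513 .nil)) (.I .jac (.c 24 (.c 40 (.c 48 .nil))) (.l 8321 (.l 513 .nil)))) (.node (.I .ass (.c 35468714087177 (.c 18753 (.c 24 .nil))) .nil) (.I .com (.c 24 (.c 18753 .nil)) (.l 35468714087177 .nil))))) (.node (.node (.node (.I .ass (.c 35464401931145 (.c 18753 (.c 24 .nil))) .nil) (.I .com (.c 24 (.c 18753 .nil)) (.l 35464401931145 .nil))) (.node (.I .ass (.c 59109074018392946377 (.c 32 (.c 4737 .nil))) .nil) (.I .com (.c 4737 (.c 32 .nil)) (.l 59109074018392946377 .nil)))) (.node (.node (.I .ass (.c 13748198893136698057 (.c 32 (.c 4737 .nil))) .nil) (.I .com (.c 4737 (.c 32 .nil)) (.l 13748198893136698057 .nil))) (.node (.I .jac (.c 0 (.c 43655235 (.c 40 .nil))) (.r 4737 .nil))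 (.I .tdb (.c 513 (.c 24 (.c 40 (.c 32 .nil)))) (.l 18561 .nil))))))))

noncomputable def c5_82 : Tr := (.node (.node (.node (.node (.node (.node (.I .tdb (.c 0 (.c 8 (.c 32 (.c 40 .nil)))) (.b 24 (.l 18561 .nil))) (.I .com (.c 35466557976521 (.c 32 .nil)) (.l 18561 .nil))) (.node (.I .com (.c 35466557976585 (.c 32 .nil)) (.l 12929 .nil)) (.I .tdb (.c 513 (.c 24 (.c 48 (.c 32 .nil)))) (.b 12929 .nil)))) (.node (.node (.I .tdb (.c 0 (.c 8 (.c 32 (.c 48 .nil)))) (.b 24 (.b 12929 .nil))) (.I .tdb (.c 513 (.c 24 (.c 40 (.c 48 .nil)))) (.l 8321 .nil))) (.node (.I .tdb (.c 0 (.c 8 (.c 40 (.c 48 .nil)))) (.b 24 (.l 8321 .nil))) (.I .com (.c 35466557976585 (.c 40 .nil)) (.l 8321 .nil))))) (.node (.node (.node (.I .com (.c 231045293249046409 (.c 43954819 .nil)) .nil) (.I .com (.c 231045293249046473 (.c 43655299 .nil)) .nil)) (.node (.I .com (.c 231045293249046473 (.c 32 .nil)) (.l 18561 .nil)) (.I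 .com (.c 105537558360238163450942167246537 (.c 18561 .nil)) .nil))) (.node (.node (.I .ass (.c 18561 (.c 231045293249046473 (.c 32 .nil))) .nil) (.I .ass (.c 231045293249046473 (.c 18561 (.c 32 .nil))) .nil)) (.node (.I .com (.c 18561 (.c 231045293249046473 .nil)) (.r 32 .nil)) (.I .ass (.c 18561 (.c 231045293249046409 (.c 40 .nil))) .nil))))) (.node (.node (.node (.node (.I .ass (.c 231045293249046409 (.c 18561 (.c 40 .nil))) .nil) (.I .com (.c 18561 (.c 231045293249046409 .nil)) (.r 40 .nil))) (.node (.I .tdb (.c 8 (.c 4609 (.c 32 (.c 48 .nil)))) (.l 12929 .nil)) (.I .tdb (.c 0 (.c 24 (.c 32 (.c 48 .nil)))) (.b 8 (.l 12929 .nil))))) (.node (.node (.I .com (.c 231045293249046537 (.c 32 .nil)) (.l 12929 .nil)) (.I .ass (.c 12929 (.c 231045293249046537 (.c 32 .nil))) .nil)) (.node (.I .ass (.c 231045293249046537 (.c 12929 (.c 32 .nil))) .nil) (.I .com (.c 12929 (.c 231045293249046537 .nil))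 (.r 32 .nil))))) (.node (.node (.node (.I .tdb (.c 8 (.c 4609 (.c 40 (.c 48 .nil)))) (.l 8321 .nil)) (.I .tdb (.c 0 (.c 24 (.c 40 (.c 48 .nil)))) (.b 8 (.l 8321 .nil)))) (.node (.I .com (.c 231045293249046537 (.c 40 .nil)) (.l 8321 .nil)) (.I .com (.c 1911166281013357267248063802697417 (.c 8321 .nil)) .nil))) (.node (.node (.I .ass (.c 8321 (.c 231045293249046537 (.c 40 .nil))) .nil) (.I .ass (.c 231045293249046537 (.c 8321 (.c 40 .nil))) .nil)) (.node (.I .com (.c 8321 (.c 231045293249046537 .nil)) (.r 40 .nil)) (.I .tdb (.c 8 (.c 4609 (.c 40 (.c 48 .nil)))) (.b 8321 .nil))))))) (.node (.node (.node (.node (.node (.I .tdb (.c 0 (.c 24 (.c 40 (.c 48 .nil)))) (.b 8 (.b 8321 .nil))) (.I .jac (.c 2718204169 (.c 16 (.c 40 .nil))) (.r 4673 .nil))) (.node (.I .jac (.c 1310925065 (.c 8 (.c 48 .nil))) (.r 4737 .nil)) (.I .jac (.c 2718204169 (.c 8 (.c 40 .nil))) (.r 4737 .nil)))) (.node (.node (.I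 .jac (.c 537002313 (.c 16 (.c 48 .nil))) (.r 4673 .nil)) (.I .adp (.c 0 (.c 24 (.c 8 .nil))) (.b 15456208906582345 .nil))) (.node (.I .adp (.c 0 (.c 24 (.c 8 .nil))) (.b 3632084291164617 .nil)) (.I .ass (.c 2306972423229201161 (.c 40 (.c 4673 .nil))) .nil)))) (.node (.node (.node (.I .com (.c 4673 (.c 40 .nil)) (.l 2306972423229201161 .nil)) (.I .ass (.c 59109065668069837705 (.c 40 (.c 4673 .nil))) .nil)) (.node (.I .com (.c 4673 (.c 40 .nil)) (.l 59109065668069837705 .nil)) (.I .ass (.c 9025011228269449 (.c 40 (.c 4673 .nil))) .nil))) (.node (.node (.I .com (.c 4673 (.c 40 .nil)) (.l 9025011228269449 .nil)) (.I .ass (.c 2306970223667989513 (.c 40 (.c 4673 .nil))) .nil)) (.node (.I .com (.c 4673 (.c 40 .nil)) (.l 2306970223667989513 .nil)) (.I .jac (.c 43954691 (.c 16 (.c 32 .nil))) (.r 4673 .nil)))))) (.node (.node (.node (.node (.I .ass (.c 59109071234951844617 (.c 40 (.c 4673 .nil)))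 .nil) (.I .com (.c 4673 (.c 40 .nil)) (.l 59109071234951844617 .nil))) (.node (.I .ass (.c 9024942441010185 (.c 40 (.c 4673 .nil))) .nil) (.I .com (.c 4673 (.c 40 .nil)) (.l 9024942441010185 .nil)))) (.node (.node (.I .ass (.c 2718204169 (.c 12929 (.c 4673 .nil))) .nil) (.I .com (.c 4673 (.c 12929 .nil)) (.l 2718204169 .nil))) (.node (.I .ass (.c 33587529 (.c 18689 (.c 4673 .nil))) .nil) (.I .com (.c 4673 (.c 18689 .nil)) (.l 33587529 .nil))))) (.node (.node (.node (.I .adp (.c 0 (.c 24 (.c 16 .nil))) (.b 15456163896880457 .nil)) (.I .adp (.c 0 (.c 4737 (.c 15456163896880457 .nil))) .nil)) (.node (.I .ass (.c 59109062884628932489 (.c 40 (.c 4737 .nil))) .nil) (.I .com (.c 4737 (.c 40 .nil)) (.l 59109062884628932489 .nil)))) (.node (.node (.I .ass (.c 2306969673777850377 (.c 40 (.c 4737 .nil))) .nil) (.I .com (.c 4737 (.c 40 .nil)) (.l 2306969673777850377 .nil))) (.node (.I .ass (.c 2105673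 (.c 18689 (.c 4737 .nil))) .nil) (.I .com (.c 4737 (.c 18689 .nil)) (.l 2105673 .nil))))))))

noncomputable def c5_83 : Tr := (.node (.node (.node (.node (.node (.node (.I .adp (.c 0 (.c 24 (.c 8 .nil))) (.b 15246281046235529 .nil)) (.I .adp (.c 0 (.c 4673 (.c 15246281046235529 .nil))) .nil)) (.node (.I .jac (.c 0 (.c 43655299 (.c 40 .nil))) (.r 4673 .nil)) (.I .ass (.c 33587593 (.c 13057 (.c 4673 .nil))) .nil))) (.node (.node (.I .com (.c 4673 (.c 13057 .nil)) (.l 33587593 .nil)) (.I .ass (.c 1310925065 (.c 18561 (.c 4673 .nil))) .nil)) (.node (.I .com (.c 4673 (.c 18561 .nil)) (.l 1310925065 .nil)) (.I .jac (.c 43655171 (.c 16 (.c 40 .nil))) (.r 4673 .nil))))) (.node (.node (.node (.I .adp (.c 0 (.c 24 (.c 16 .nil))) (.b 15246236343242121 .nil)) (.I .adp (.c 0 (.c 4737 (.c 15246236343242121 .nil))) .nil)) (.node (.I .ass (.c 2105737 (.c 13057 (.c 4737 .nil))) .nil) (.I .com (.c 4737 (.c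 13057 .nil)) (.l 2105737 .nil)))) (.node (.node (.I .ass (.c 35470870263689 (.c 48 (.c 4737 .nil))) .nil) (.I .com (.c 4737 (.c 48 .nil)) (.l 35470870263689 .nil))) (.node (.I .ass (.c 35468714087369 (.c 48 (.c 4737 .nil))) .nil) (.I .com (.c 4737 (.c 48 .nil)) (.l 35468714087369 .nil)))))) (.node (.node (.node (.node (.I .ass (.c 13748198893136698121 (.c 32 (.c 4673 .nil))) .nil) (.I .com (.c 4673 (.c 32 .nil)) (.l 13748198893136698121 .nil))) (.node (.I .ass (.c 59109065668069837769 (.c 32 (.c 4673 .nil))) .nil) (.I .com (.c 4673 (.c 32 .nil)) (.l 59109065668069837769 .nil)))) (.node (.node (.I .ass (.c 9025011228269513 (.c 32 (.c 4673 .nil))) .nil) (.I .com (.c 4673 (.c 32 .nil)) (.l 9025011228269513 .nil))) (.node (.I .ass (.c 13748193523587632137 (.c 32 (.c 4673 .nil))) .nil) (.I .com (.c 4673 (.c 32 .nil)) (.l 13748193523587632137 .nil))))) (.node (.node (.node (.I .ass (.c 59109074018392946441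 (.c 32 (.c 4673 .nil))) .nil) (.I .com (.c 4673 (.c 32 .nil)) (.l 59109074018392946441 .nil))) (.node (.I .ass (.c 9024976834607113 (.c 32 (.c 4673 .nil))) .nil) (.I .com (.c 4673 (.c 32 .nil)) (.l 9024976834607113 .nil)))) (.node (.node (.I .ass (.c 59109062884628932553 (.c 32 (.c 4737 .nil))) .nil) (.I .com (.c 4737 (.c 32 .nil)) (.l 59109062884628932553 .nil))) (.node (.I .ass (.c 13748192181200529417 (.c 32 (.c 4737 .nil))) .nil) (.I .com (.c 4737 (.c 32 .nil)) (.l 13748192181200529417 .nil))))))) (.node (.node (.node (.node (.node (.I .jac (.c 545424777 (.c 24 (.c 40 .nil))) (.l 2049 .nil)) (.I .jac (.c 18497 (.c 24 (.c 40 .nil))) (.b 32 (.l 2049 .nil)))) (.node (.I .jac (.c 8257 (.c 12993 (.c 48 .nil))) (.l 2049 .nil)) (.I .jac (.c 553912713 (.c 24 (.c 40 .nil))) (.l 513 .nil)))) (.node (.node (.I .jac (.c 18561 (.c 24 (.c 40 .nil))) (.b 32 (.l 513 .nil))) (.I .jac (.c 8321 (.c 24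 (.c 40 .nil))) (.b 48 (.l 513 .nil)))) (.node (.I .jac (.c 35468714087433 (.c 24 (.c 40 .nil))) (.r 16 .nil)) (.I .jac (.c 1324066057 (.c 24 (.c 48 .nil))) (.l 2049 .nil))))) (.node (.node (.node (.I .jac (.c 12865 (.c 18625 (.c 32 .nil))) (.l 2049 .nil)) (.I .jac (.c 12865 (.c 24 (.c 48 .nil))) (.b 32 (.l 2049 .nil)))) (.node (.I .jac (.c 1337272585 (.c 24 (.c 48 .nil))) (.l 513 .nil)) (.I .jac (.c 35470870263689 (.c 24 (.c 48 .nil))) (.r 16 .nil)))) (.node (.node (.I .jac (.c 18497 (.c 24 (.c 32 .nil))) (.b 40 (.l 2049 .nil))) (.I .jac (.c 12865 (.c 24 (.c 32 .nil))) (.b 48 (.l 2049 .nil)))) (.node (.I .jac (.c 1337272713 (.c 24 (.c 32 .nil))) (.l 513 .nil)) (.I .jac (.c 12929 (.c 24 (.c 32 .nil))) (.b 48 (.l 513 .nil))))))) (.node (.node (.node (.node (.I .jac (.c 2737112329 (.c 24 (.c 40 .nil))) (.l 2049 .nil)) (.I .jac (.c 18497 (.c 12993 (.c 32 .nil))) (.l 2049 .nil))) (.node (.I .jac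 (.c 9025011228269449 (.c 24 (.c 40 .nil))) (.r 8 .nil)) (.I .jac (.c 18561 (.c 12993 (.c 32 .nil))) (.l 513 .nil)))) (.node (.node (.I .adp (.c 8 (.c 16 (.c 24 .nil))) (.b 2306972423229201353 .nil)) (.I .adp (.c 8 (.c 16 (.c 24 .nil))) (.b 13748196208362034185 .nil))) (.node (.I .jac (.c 8257 (.c 18625 (.c 40 .nil))) (.l 2049 .nil)) (.I .jac (.c 553912649 (.c 24 (.c 48 .nil))) (.l 513 .nil))))) (.node (.node (.node (.I .jac (.c 35473026505673 (.c 24 (.c 32 .nil))) (.r 16 .nil)) (.I .adp (.c 8 (.c 16 (.c 24 .nil))) (.b 59109074018392946569 .nil))) (.node (.I .adp (.c 8 (.c 16 (.c 24 .nil))) (.b 2306971873338800137 .nil)) (.I .jac (.c 16 (.c 24 (.c 43954947 .nil))) (.l 513 .nil)))) (.node (.node (.I .com (.c 35464401931209 (.c 562466185 .nil)) .nil) (.I .jac (.c 35464401931273 (.c 24 (.c 32 .nil))) (.r 40 .nil))) (.node (.I .com (.c 10061790434743040737723204489 (.c 12993 .nil)) .nil) (.I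 .com (.c 9024839260612553 (.c 2775125257 .nil)) .nil)))))))

noncomputable def c5_84 : Tr := (.node (.node (.node (.node (.node (.node (.I .com (.c 9024839260612553 (.c 562466185 .nil)) .nil) (.I .jac (.c 9024839260612617 (.c 24 (.c 32 .nil))) (.r 40 .nil))) (.node (.I .com (.c 651581789439159100050097116709769 (.c 12993 .nil)) .nil) (.I .adp (.c 2049 (.c 8 (.c 3632106110100937 .nil))) .nil))) (.node (.node (.I .jac (.c 2049 (.c 21307587 (.c 48 .nil))) (.r 8 .nil)) (.I .adp (.c 513 (.c 16 (.c 3632106110100937 .nil))) .nil)) (.node (.I .jac (.c 513 (.c 21307587 (.c 48 .nil))) (.r 16 .nil)) (.I .jac (.c 21307459 (.c 24 (.c 48 .nil))) (.l 2049 .nil))))) (.node (.node (.node (.I .tdb (.c 32 (.c 18625 (.c 8 (.c 40 .nil)))) (.l 2049 .nil)) (.I .jac (.c 8257 (.c 24 (.c 48 .nil))) (.r 40 (.l 2049 .nil)))) (.node (.I .jac (.c 18433 (.c 21307523 (.c 24 .nil))) (.r 8 .nil)) (.I .jac (.c 8257 (.c 24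 (.c 48 .nil))) (.l 33587529 .nil)))) (.node (.node (.I .jac (.c 21307523 (.c 24 (.c 48 .nil))) (.l 513 .nil)) (.I .tdb (.c 24 (.c 48 (.c 16 (.c 40 .nil)))) (.b 32 (.l 513 .nil)))) (.node (.I .tdb (.c 32 (.c 18625 (.c 16 (.c 40 .nil)))) (.l 513 .nil)) (.I .jac (.c 8321 (.c 24 (.c 48 .nil))) (.r 40 (.l 513 .nil))))))) (.node (.node (.node (.node (.I .jac (.c 8321 (.c 24 (.c 48 .nil))) (.l 2105673 .nil)) (.I .jac (.c 43954819 (.c 24 (.c 32 .nil))) (.l 513 .nil))) (.node (.I .jac (.c 557571 (.c 32 (.c 48 .nil))) (.l 12993 .nil)) (.I .com (.c 49484669145083763774947209 (.c 12993 .nil)) .nil))) (.node (.node (.I .jac (.c 557571 (.c 24 (.c 40 .nil))) (.r 18689 .nil)) (.I .com (.c 2737112329 (.c 12993 .nil)) (.l 2049 .nil))) (.node (.I .com (.c 545424777 (.c 12993 .nil)) (.l 2049 .nil)) (.I .jac (.c 8 (.c 24 (.c 40 .nil))) (.r 18689 (.l 2049 .nil)))))) (.node (.node (.node (.I .jac (.c 8 (.c 24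 (.c 40 .nil))) (.l 9025011228269449 .nil)) (.I .jac (.c 8 (.c 32 (.c 48 .nil))) (.l 9024976834606921 .nil))) (.node (.I .jac (.c 8 (.c 32 (.c 48 .nil))) (.l 9024908047478729 .nil)) (.I .tdb (.c 24 (.c 40 (.c 18689 (.c 16 .nil)))) (.l 513 .nil)))) (.node (.node (.I .jac (.c 16 (.c 24 (.c 40 .nil))) (.r 18689 (.l 513 .nil))) (.I .jac (.c 16 (.c 24 (.c 40 .nil))) (.l 35468714087433 .nil))) (.node (.I .jac (.c 16 (.c 32 (.c 48 .nil))) (.l 35466557976521 .nil)) (.I .adp (.c 8 (.c 16 (.c 24 .nil))) (.b 3632040653488585 .nil))))))) (.node (.node (.node (.node (.node (.I .jac (.c 2105481 (.c 32 (.c 40 .nil))) (.l 18625 .nil)) (.I .com (.c 10061790434706725190145613705 (.c 18625 .nil)) .nil)) (.node (.I .com (.c 10061790434670409642568088521 (.c 18625 .nil)) .nil) (.I .com (.c 35464401931273 (.c 1350544649 .nil)) .nil))) (.node (.node (.I .jac (.c 35464401931145 (.c 24 (.c 40 .nil))) (.r 48 .nil))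 (.I .com (.c 35464401931273 (.c 562466121 .nil)) .nil)) (.node (.I .jac (.c 35464401931209 (.c 24 (.c 32 .nil))) (.r 48 .nil)) (.I .com (.c 651581789439149858614694249422729 (.c 18625 .nil)) .nil)))) (.node (.node (.node (.I .com (.c 651581789439140617179291382201289 (.c 18625 .nil)) .nil) (.I .com (.c 9024839260612617 (.c 1350544649 .nil)) .nil)) (.node (.I .jac (.c 9024839260612489 (.c 24 (.c 40 .nil))) (.r 48 .nil)) (.I .com (.c 9024839260612617 (.c 562466121 .nil)) .nil))) (.node (.node (.I .jac (.c 9024839260612553 (.c 24 (.c 32 .nil))) (.r 48 .nil)) (.I .adp (.c 2049 (.c 8 (.c 15246325749294473 .nil))) .nil)) (.node (.I .jac (.c 2049 (.c 43655363 (.c 40 .nil))) (.r 8 .nil)) (.I .adp (.c 513 (.c 16 (.c 15246325749294473 .nil))) .nil))))) (.node (.node (.node (.node (.I .jac (.c 513 (.c 43655363 (.c 40 .nil))) (.r 16 .nil)) (.I .jac (.c 557571 (.c 24 (.c 48 .nil))) (.r 13057 .nil)))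 (.node (.I .jac (.c 8 (.c 32 (.c 40 .nil))) (.l 9025011228269385 .nil)) (.I .tdb (.c 24 (.c 48 (.c 16 (.c 32 .nil)))) (.b 40 (.l 513 .nil))))) (.node (.node (.I .tdb (.c 32 (.c 40 (.c 18625 (.c 16 .nil)))) (.l 513 .nil)) (.I .com (.c 1337272585 (.c 18625 .nil)) (.l 513 .nil))) (.node (.I .com (.c 553912649 (.c 18625 .nil)) (.l 513 .nil)) (.I .jac (.c 16 (.c 32 (.c 40 .nil))) (.l 35473026505545 .nil))))) (.node (.node (.node (.I .jac (.c 16 (.c 32 (.c 40 .nil))) (.l 35466557976585 .nil)) (.I .jac (.c 16 (.c 24 (.c 48 .nil))) (.l 35470870263689 .nil))) (.node (.I .jac (.c 43655235 (.c 24 (.c 40 .nil))) (.l 2049 .nil)) (.I .com (.c 35464401931145 (.c 2775125321 .nil)) .nil))) (.node (.node (.I .jac (.c 35464401931209 (.c 24 (.c 48 .nil))) (.r 32 .nil)) (.I .com (.c 35464401931145 (.c 1350544777 .nil)) .nil)) (.node (.I .jac (.c 35464401931273 (.c 24 (.c 40 .nil))) (.r 32 .nil)) (.I .jac (.c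 9024839260612553 (.c 24 (.c 48 .nil))) (.r 32 .nil))))))))

noncomputable def c5_85 : Tr := (.node (.node (.node (.node (.node (.node (.I .jac (.c 9024839260612617 (.c 24 (.c 40 .nil))) (.r 32 .nil)) (.I .jac (.c 33587273 (.c 40 (.c 48 .nil))) (.l 8385 .nil))) (.node (.I .jac (.c 2487083360649 (.c 24 (.c 48 .nil))) (.r 32 .nil)) (.I .tdb (.c 40 (.c 18625 (.c 8 (.c 32 .nil)))) (.l 2049 .nil)))) (.node (.node (.I .jac (.c 12865 (.c 24 (.c 48 .nil))) (.r 32 (.l 2049 .nil))) (.I .jac (.c 12865 (.c 24 (.c 48 .nil))) (.l 33587465 .nil))) (.node (.I .tdb (.c 40 (.c 18625 (.c 16 (.c 32 .nil)))) (.l 513 .nil)) (.I .jac (.c 12929 (.c 24 (.c 48 .nil))) (.r 32 (.l 513 .nil)))))) (.node (.node (.node (.I .jac (.c 12929 (.c 24 (.c 48 .nil))) (.l 2105609 .nil)) (.I .jac (.c 2487083360713 (.c 24 (.c 40 .nil))) (.r 32 .nil))) (.node (.I .jac (.c 18497 (.c 24 (.c 40 .nil))) (.r 32 (.l 2049 .nil))) (.I .jac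 (.c 18497 (.c 24 (.c 40 .nil))) (.l 33587465 .nil)))) (.node (.node (.I .jac (.c 18561 (.c 24 (.c 40 .nil))) (.r 32 (.l 513 .nil))) (.I .jac (.c 18561 (.c 24 (.c 40 .nil))) (.l 2105609 .nil))) (.node (.I .com (.c 49484669142536990413609993 (.c 8385 .nil)) .nil) (.I .com (.c 2737112393 (.c 8385 .nil)) (.l 2049 .nil)))))) (.node (.node (.node (.node (.I .com (.c 1324066185 (.c 8385 .nil)) (.l 2049 .nil)) (.I .jac (.c 8 (.c 24 (.c 32 .nil))) (.r 18753 (.l 2049 .nil)))) (.node (.I .jac (.c 8 (.c 40 (.c 48 .nil))) (.l 9024908047478665 .nil)) (.I .tdb (.c 24 (.c 32 (.c 18753 (.c 16 .nil)))) (.l 513 .nil)))) (.node (.node (.I .jac (.c 16 (.c 24 (.c 32 .nil))) (.r 18753 (.l 513 .nil))) (.I .jac (.c 16 (.c 24 (.c 32 .nil))) (.l 35473026505673 .nil))) (.node (.I .com (.c 35464401931209 (.c 43655363 .nil)) .nil) (.I .tdb (.c 513 (.c 16 (.c 40 (.c 32 .nil)))) (.l 18625 .nil))))) (.node (.node (.node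 (.I .tdb (.c 0 (.c 8 (.c 32 (.c 40 .nil)))) (.b 16 (.l 18625 .nil))) (.I .com (.c 35464401931209 (.c 32 .nil)) (.l 18625 .nil))) (.node (.I .com (.c 105533754468731704544899941681929 (.c 18625 .nil)) .nil) (.I .ass (.c 18625 (.c 35464401931209 (.c 32 .nil))) .nil))) (.node (.node (.I .ass (.c 35464401931209 (.c 18625 (.c 32 .nil))) .nil) (.I .com (.c 18625 (.c 35464401931209 .nil)) (.r 32 .nil))) (.node (.I .ass (.c 18625 (.c 35464401931145 (.c 40 .nil))) .nil) (.I .ass (.c 35464401931145 (.c 18625 (.c 40 .nil))) .nil)))))) (.node (.node (.node (.node (.node (.I .com (.c 18625 (.c 35464401931145 .nil)) (.r 40 .nil)) (.I .com (.c 35464401931273 (.c 21307587 .nil)) .nil)) (.node (.I .com (.c 35464401931273 (.c 32 .nil)) (.l 12993 .nil)) (.I .com (.c 1859581781071896992296047629788937 (.c 12993 .nil)) .nil))) (.node (.node (.I .com (.c 15246281046239313 (.c 12993 .nil)) .nil) (.I .ass (.c 12993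 (.c 35464401931273 (.c 32 .nil))) .nil)) (.node (.I .ass (.c 35464401931273 (.c 12993 (.c 32 .nil))) .nil) (.I .com (.c 12993 (.c 35464401931273 .nil)) (.r 32 .nil))))) (.node (.node (.node (.I .tdb (.c 513 (.c 16 (.c 48 (.c 32 .nil)))) (.b 12993 .nil)) (.I .tdb (.c 0 (.c 8 (.c 32 (.c 48 .nil)))) (.b 16 (.b 12993 .nil)))) (.node (.I .com (.c 1911144019257783685212967566403337 (.c 8385 .nil)) .nil) (.I .com (.c 15456208906586193 (.c 8385 .nil)) .nil))) (.node (.node (.I .com (.c 9024839260612553 (.c 43655363 .nil)) .nil) (.I .tdb (.c 8 (.c 2049 (.c 32 (.c 40 .nil)))) (.l 18625 .nil))) (.node (.I .tdb (.c 0 (.c 16 (.c 32 (.c 40 .nil)))) (.b 8 (.l 18625 .nil))) (.I .com (.c 9024839260612553 (.c 32 .nil)) (.l 18625 .nil)))))) (.node (.node (.node (.node (.I .com (.c 105533754468735423754529113697993 (.c 18625 .nil)) .nil) (.I .ass (.c 18625 (.c 9024839260612553 (.c 32 .nil))) .nil)) (.node (.I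 .ass (.c 9024839260612553 (.c 18625 (.c 32 .nil))) .nil) (.I .com (.c 18625 (.c 9024839260612553 .nil)) (.r 32 .nil)))) (.node (.node (.I .ass (.c 18625 (.c 9024839260612489 (.c 40 .nil))) .nil) (.I .ass (.c 9024839260612489 (.c 18625 (.c 40 .nil))) .nil)) (.node (.I .com (.c 18625 (.c 9024839260612489 .nil)) (.r 40 .nil)) (.I .tdb (.c 8 (.c 2049 (.c 32 (.c 48 .nil)))) (.l 12993 .nil))))) (.node (.node (.node (.I .tdb (.c 0 (.c 16 (.c 32 (.c 48 .nil)))) (.b 8 (.l 12993 .nil))) (.I .com (.c 9024839260612617 (.c 32 .nil)) (.l 12993 .nil))) (.node (.I .com (.c 1859592685926327833225220410189513 (.c 12993 .nil)) .nil) (.I .com (.c 15246236343258193 (.c 12993 .nil)) .nil))) (.node (.node (.I .ass (.c 12993 (.c 9024839260612617 (.c 32 .nil))) .nil) (.I .ass (.c 9024839260612617 (.c 12993 (.c 32 .nil))) .nil)) (.node (.I .com (.c 12993 (.c 9024839260612617 .nil)) (.r 32 .nil)) (.I .com (.c 1911155150111259961664864764831433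 (.c 8385 .nil)) .nil)))))))

noncomputable def c5_86 : Tr := (.node (.node (.node (.node (.node (.node (.I .com (.c 15456163896896593 (.c 8385 .nil)) .nil) (.I .tdb (.c 8 (.c 2049 (.c 40 (.c 48 .nil)))) (.b 8385 .nil))) (.node (.I .tdb (.c 0 (.c 16 (.c 40 (.c 48 .nil)))) (.b 8 (.b 8385 .nil))) (.I .jac (.c 2718204169 (.c 24 (.c 40 .nil))) (.r 2113 .nil)))) (.node (.node (.I .jac (.c 537002313 (.c 24 (.c 48 .nil))) (.r 2113 .nil)) (.I .jac (.c 2718204233 (.c 24 (.c 32 .nil))) (.r 2113 .nil))) (.node (.I .adp (.c 0 (.c 16 (.c 8 .nil))) (.b 3632106110100937 .nil)) (.I .ass (.c 2306972423229201225 (.c 40 (.c 2113 .nil))) .nil)))) (.node (.node (.node (.I .com (.c 2113 (.c 40 .nil)) (.l 2306972423229201225 .nil)) (.I .ass (.c 231046163358604169 (.c 40 (.c 2113 .nil))) .nil)) (.node (.I .com (.c 2113 (.c 40 .nil)) (.l 231046163358604169 .nil)) (.I .ass (.c 2306970773558194185 (.c 40 (.c 2113 .nil)))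 .nil))) (.node (.node (.I .com (.c 2113 (.c 40 .nil)) (.l 2306970773558194185 .nil)) (.I .ass (.c 231045815314584585 (.c 40 (.c 2113 .nil))) .nil)) (.node (.I .com (.c 2113 (.c 40 .nil)) (.l 231045815314584585 .nil)) (.I .ass (.c 2718204169 (.c 12993 (.c 2113 .nil))) .nil))))) (.node (.node (.node (.node (.I .com (.c 2113 (.c 12993 .nil)) (.l 2718204169 .nil)) (.I .ass (.c 1310925001 (.c 18689 (.c 2113 .nil))) .nil)) (.node (.I .com (.c 2113 (.c 18689 .nil)) (.l 1310925001 .nil)) (.I .ass (.c 169943369 (.c 18689 (.c 2113 .nil))) .nil))) (.node (.node (.I .com (.c 2113 (.c 18689 .nil)) (.l 169943369 .nil)) (.I .adp (.c 0 (.c 16 (.c 8 .nil))) (.b 15246325749294473 .nil))) (.node (.I .ass (.c 169943433 (.c 13057 (.c 2113 .nil))) .nil) (.I .com (.c 2113 (.c 13057 .nil)) (.l 169943433 .nil))))) (.node (.node (.node (.I .ass (.c 1310925065 (.c 18625 (.c 2113 .nil))) .nil) (.I .com (.c 2113 (.c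 18625 .nil)) (.l 1310925065 .nil))) (.node (.I .jac (.c 43655171 (.c 24 (.c 40 .nil))) (.r 2113 .nil)) (.I .com (.c 43059203 (.c 13057 .nil)) (.b 4673 .nil)))) (.node (.node (.I .ass (.c 13748198893136698185 (.c 32 (.c 2113 .nil))) .nil) (.I .com (.c 2113 (.c 32 .nil)) (.l 13748198893136698185 .nil))) (.node (.I .ass (.c 59109068451510808521 (.c 32 (.c 2113 .nil))) .nil) (.I .com (.c 2113 (.c 32 .nil)) (.l 59109068451510808521 .nil))))))) (.node (.node (.node (.node (.node (.I .ass (.c 231046163358604233 (.c 32 (.c 2113 .nil))) .nil) (.I .com (.c 2113 (.c 32 .nil)) (.l 231046163358604233 .nil))) (.node (.I .ass (.c 13748194865974800393 (.c 32 (.c 2113 .nil))) .nil) (.I .com (.c 2113 (.c 32 .nil)) (.l 13748194865974800393 .nil)))) (.node (.node (.I .ass (.c 59109074018392946505 (.c 32 (.c 2113 .nil))) .nil) (.I .com (.c 2113 (.c 32 .nil)) (.l 59109074018392946505 .nil))) (.node (.I .ass (.c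 231045989336561673 (.c 32 (.c 2113 .nil))) .nil) (.I .com (.c 2113 (.c 32 .nil)) (.l 231045989336561673 .nil))))) (.node (.node (.node (.I .ass (.c 2718204233 (.c 8385 (.c 2113 .nil))) .nil) (.I .com (.c 2113 (.c 8385 .nil)) (.l 2718204233 .nil))) (.node (.I .ass (.c 537002185 (.c 18753 (.c 2113 .nil))) .nil) (.I .com (.c 2113 (.c 18753 .nil)) (.l 537002185 .nil)))) (.node (.node (.I .adp (.c 0 (.c 8 (.c 16 .nil))) (.b 3632106110100937 .nil)) (.I .adp (.c 0 (.c 8 (.c 24 .nil))) (.b 15456208906582345 .nil))) (.node (.I .adp (.c 0 (.c 8 (.c 24 .nil))) (.b 3632084291164617 .nil)) (.I .adp (.c 0 (.c 8 (.c 16 .nil))) (.b 15246325749294473 .nil)))))) (.node (.node (.node (.node (.I .jac (.c 2306970223667989513 (.c 8 (.c 40 .nil))) (.r 24 .nil)) (.I .jac (.c 2306971873338799881 (.c 8 (.c 48 .nil))) (.r 24 .nil))) (.node (.I .jac (.c 8193 (.c 18561 (.c 40 .nil))) (.l 4673 .nil)) (.I .com (.c 42576974092320099556365595025629983689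 (.c 4673 .nil)) .nil))) (.node (.node (.I .com (.c 42576892903125868487846022299823817673 (.c 4673 .nil)) .nil) (.I .com (.c 42576953795010653769602236682924913673 (.c 4673 .nil)) .nil)) (.node (.I .adp (.c 13748198893136698121 (.c 24 (.c 8257 .nil))) .nil) (.I .jac (.c 13748198893136698121 (.c 8 (.c 32 .nil))) (.r 24 .nil))))) (.node (.node (.node (.I .adp (.c 59109065668069837769 (.c 24 (.c 8257 .nil))) .nil) (.I .adp (.c 9025011228269513 (.c 24 (.c 8257 .nil))) .nil)) (.node (.I .adp (.c 13748193523587632137 (.c 24 (.c 8257 .nil))) .nil) (.I .com (.c 537002185 (.c 59934274015313491721 .nil)) .nil))) (.node (.node (.I .jac (.c 2306970223667989449 (.c 8 (.c 48 .nil))) (.r 24 .nil)) (.I .jac (.c 8193 (.c 12929 (.c 48 .nil))) (.l 4673 .nil))) (.node (.I .jac (.c 8193 (.c 16 (.c 40 .nil))) (.b 48 (.l 4673 .nil))) (.I .adp (.c 59109074018392946441 (.c 24 (.c 8257 .nil))) .nil)))))))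

noncomputable def c5_87 : Tr := (.node (.node (.node (.node (.node (.node (.I .adp (.c 9024976834607113 (.c 24 (.c 8257 .nil))) .nil) (.I .com (.c 537002185 (.c 15456208906582153 .nil)) .nil)) (.node (.I .adp (.c 15456208906582089 (.c 24 (.c 8257 .nil))) .nil) (.I .jac (.c 8193 (.c 18561 (.c 24 .nil))) (.l 12865 .nil)))) (.node (.node (.I .jac (.c 8193 (.c 16 (.c 48 .nil))) (.b 24 (.l 12865 .nil))) (.I .com (.c 42576913200413542961749526065342513929 (.c 12865 .nil)) .nil)) (.node (.I .com (.c 42576892903125868487846022299823817545 (.c 12865 .nil)) .nil) (.I .com (.c 42576913200413533512397237570979656713 (.c 12865 .nil)) .nil)))) (.node (.node (.node (.I .adp (.c 231046163358604041 (.c 40 (.c 8257 .nil))) .nil) (.I .adp (.c 59109065668069837641 (.c 40 (.c 8257 .nil))) .nil)) (.node (.I .jac (.c 59109065668069837641 (.c 8 (.c 32 .nil))) (.r 40 .nil)) (.I .adp (.c 9025011228269385 (.c 40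 (.c 8257 .nil))) .nil))) (.node (.node (.I .jac (.c 545424585 (.c 16 (.c 48 .nil))) (.l 12801 .nil)) (.I .com (.c 537002313 (.c 59934268409707441929 .nil)) .nil)) (.node (.I .jac (.c 2306970223667989321 (.c 8 (.c 48 .nil))) (.r 40 .nil)) (.I .jac (.c 8193 (.c 16 (.c 24 .nil))) (.b 48 (.l 12865 .nil))))))) (.node (.node (.node (.node (.I .com (.c 42576974092320101918705356412332005129 (.c 12865 .nil)) .nil) (.I .adp (.c 59109068451510808329 (.c 40 (.c 8257 .nil))) .nil)) (.node (.I .jac (.c 8193 (.c 8 (.c 40 .nil))) (.r 43356803 .nil)) (.I .adp (.c 15038498931046473 (.c 40 (.c 8257 .nil))) .nil))) (.node (.node (.I .jac (.c 12801 (.c 8 (.c 32 .nil))) (.r 43356803 .nil)) (.I .com (.c 2306971873338799945 (.c 2737112201 .nil)) .nil)) (.node (.I .com (.c 2306970773558194121 (.c 2737112201 .nil)) .nil) (.I .jac (.c 537002185 (.c 8 (.c 40 .nil))) (.r 18561 .nil))))) (.node (.node (.node (.I .jac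 (.c 8193 (.c 16 (.c 48 .nil))) (.l 174695753 .nil)) (.I .com (.c 2306972423229201161 (.c 174695753 .nil)) .nil)) (.node (.I .com (.c 2306970223667989513 (.c 174695753 .nil)) .nil) (.I .adp (.c 1310925001 (.c 18561 (.c 8257 .nil))) .nil))) (.node (.node (.I .adp (.c 169943369 (.c 18561 (.c 8257 .nil))) .nil) (.I .com (.c 537002185 (.c 3491710045130185 .nil)) .nil)) (.node (.I .adp (.c 62889413447113 (.c 40 (.c 8193 .nil))) .nil) (.I .jac (.c 8193 (.c 2803779 (.c 48 .nil))) (.r 40 .nil))))))) (.node (.node (.node (.node (.node (.I .com (.c 8007571589612989335961665138595360405901401549261840306057 (.c 40 .nil)) .nil) (.I .com (.c 26186512359090026768196227558957595852823670284232500091879628616585 (.c 40 .nil)) .nil)) (.node (.I .com (.c 6441087201774154803902012064218617234054960584590616392585 (.c 40 .nil)) .nil) (.I .com (.c 8007571589450002292282724390494945418759635515424784434057 (.c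 40 .nil)) .nil))) (.node (.node (.I .com (.c 26186512359090472543188603966557137501573810150274371860122381242249 (.c 40 .nil)) .nil) (.I .com (.c 6441087201663406564458032426684004733909218721543699760009 (.c 40 .nil)) .nil)) (.node (.I .jac (.c 8193 (.c 16 (.c 48 .nil))) (.l 21099075 .nil)) (.I .com (.c 2306972423229201161 (.c 21099075 .nil)) .nil)))) (.node (.node (.node (.I .com (.c 2306970223667989513 (.c 21099075 .nil)) .nil) (.I .com (.c 537002185 (.c 18561 .nil)) (.l 12865 .nil))) (.node (.I .com (.c 1809230235455484827416425822613385 (.c 12865 .nil)) .nil) (.I .ass (.c 12865 (.c 2306972423229201161 (.c 24 .nil))) .nil))) (.node (.node (.I .ass (.c 2306972423229201161 (.c 12865 (.c 24 .nil))) .nil) (.I .com (.c 12865 (.c 2306972423229201161 .nil)) (.r 24 .nil))) (.node (.I .ass (.c 12865 (.c 2306970223667989513 (.c 24 .nil))) .nil) (.I .ass (.c 2306970223667989513 (.c 12865 (.c 24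 .nil))) .nil))))) (.node (.node (.node (.node (.I .com (.c 12865 (.c 2306970223667989513 .nil)) (.r 24 .nil)) (.I .ass (.c 12865 (.c 537002185 (.c 18561 .nil))) .nil)) (.node (.I .ass (.c 537002185 (.c 12865 (.c 18561 .nil))) .nil) (.I .com (.c 12865 (.c 537002185 .nil)) (.r 18561 .nil)))) (.node (.node (.I .jac (.c 18433 (.c 8 (.c 21307523 .nil))) (.l 24 .nil)) (.I .jac (.c 3632084291164233 (.c 8 (.c 48 .nil))) (.l 24 .nil))) (.node (.I .jac (.c 12801 (.c 43655235 (.c 16 .nil))) (.l 24 .nil)) (.I .jac (.c 12801 (.c 8652867 (.c 48 .nil))) (.l 24 .nil))))) (.node (.node (.node (.I .com (.c 105536290393545537884806472158537 (.c 24 .nil)) .nil) (.I .com (.c 89103268705775671430842569995576164540864323586885284363727438537 (.c 24 .nil)) .nil)) (.node (.I .com (.c 1859581781096878377439150830685577 (.c 24 .nil)) .nil) (.I .com (.c 29219431338612430885229781418972302774892659174088204307516624129929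 (.c 24 .nil)) .nil))) (.node (.node (.I .com (.c 13748198893205920929 (.c 24 .nil)) .nil) (.I .com (.c 27664355203956229079760193910629585386738772235669243985465340720073 (.c 24 .nil)) .nil)) (.node (.I .com (.c 2870186218112655850732196564553 (.c 24 .nil)) .nil) (.I .com (.c 65903751348250431743063771908006148737120978708178781472457673 (.c 24 .nil)) .nil)))))))

noncomputable def c5_88 : Tr := (.node (.node (.node (.node (.node (.node (.I .com (.c 1859581781075895653194264493002313 (.c 24 .nil)) .nil) (.I .com (.c 3632084308010129 (.c 24 .nil)) .nil)) (.node (.I .com (.c 2870186217680855829215453810313 (.c 24 .nil)) .nil) (.I .com (.c 105536290385214408220931770764937 (.c 24 .nil)) .nil))) (.node (.node (.I .com (.c 13748193523936873633 (.c 24 .nil)) .nil) (.I .jac (.c 0 (.c 16 (.c 43954947 .nil))) (.l 4673 .nil))) (.node (.I .tdb (.c 0 (.c 32 (.c 18561 (.c 40 .nil)))) (.l 4673 .nil))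 (.I .jac (.c 8193 (.c 16 (.c 48 .nil))) (.r 40 (.l 4673 .nil)))))) (.node (.node (.node (.I .com (.c 537002313 (.c 18561 .nil)) (.l 4673 .nil)) (.I .ass (.c 4673 (.c 2306970223667989513 (.c 40 .nil))) .nil)) (.node (.I .ass (.c 2306970223667989513 (.c 4673 (.c 40 .nil))) .nil) (.I .com (.c 4673 (.c 2306970223667989513 .nil)) (.r 40 .nil)))) (.node (.node (.I .adp (.c 15456118887243977 (.c 24 (.c 8257 .nil))) .nil) (.I .jac (.c 15456118887243977 (.c 8 (.c 32 .nil))) (.r 24 .nil))) (.node (.I .adp (.c 15038410136445129 (.c 40 (.c 8257 .nil))) .nil) (.I .jac (.c 15038410136445129 (.c 8 (.c 32 .nil))) (.r 40 .nil)))))) (.node (.node (.node (.node (.I .adp (.c 62886542410185 (.c 40 (.c 8257 .nil))) .nil) (.I .tdb (.c 8 (.c 32 (.c 24 (.c 40 .nil)))) (.b 2718204041 .nil))) (.node (.I .adp (.c 21099011 (.c 18561 (.c 8257 .nil))) .nil) (.I .tdb (.c 8 (.c 32 (.c 18561 (.c 24 .nil)))) (.l 12801 .nil))))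 (.node (.node (.I .adp (.c 18561 (.c 24 (.c 8257 .nil))) (.l 12801 .nil)) (.I .com (.c 545424585 (.c 18561 .nil)) (.l 12801 .nil))) (.node (.I .jac (.c 8257 (.c 16 (.c 48 .nil))) (.r 24 (.l 12801 .nil))) (.I .com (.c 27664030750837463129608469963329654380216291716663639211447733935817 (.c 24 .nil)) .nil)))) (.node (.node (.node (.I .com (.c 29219771698758366859580286719259392412272240005227598035985317884809 (.c 24 .nil)) .nil) (.I .com (.c 97536312322321279970645807042057 (.c 24 .nil)) .nil)) (.node (.I .com (.c 76106657758642486978324907789974561240542867680914137624626234249 (.c 24 .nil)) .nil) (.I .com (.c 1911144019261837404230532280061449 (.c 24 .nil)) .nil))) (.node (.node (.I .tdb (.c 8 (.c 32 (.c 12801 (.c 24 .nil)))) (.b 18561 .nil)) (.I .tdb (.c 8 (.c 32 (.c 18561 (.c 40 .nil)))) (.l 4609 .nil))) (.node (.I .adp (.c 18561 (.c 40 (.c 8257 .nil))) (.l 4609 .nil)) (.I .jac (.c 8193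 (.c 12929 (.c 24 .nil))) (.l 18497 .nil))))))) (.node (.node (.node (.node (.node (.I .com (.c 42576913200413540599411453941751701257 (.c 18497 .nil)) .nil) (.I .com (.c 42576953795010653769602236682924913481 (.c 18497 .nil)) .nil)) (.node (.I .com (.c 42576892903125866125508513263802589001 (.c 18497 .nil)) .nil) (.I .com (.c 537002377 (.c 14025204674709064521 .nil)) .nil))) (.node (.node (.I .com (.c 537002377 (.c 10206474507614025 .nil)) .nil) (.I .jac (.c 545424585 (.c 16 (.c 40 .nil))) (.l 18433 .nil))) (.node (.I .jac (.c 8257 (.c 16 (.c 40 .nil))) (.b 24 (.l 18433 .nil))) (.I .jac (.c 537002313 (.c 16 (.c 24 .nil))) (.l 18497 .nil))))) (.node (.node (.node (.I .jac (.c 8193 (.c 16 (.c 24 .nil))) (.b 40 (.l 18497 .nil))) (.I .com (.c 42576892903125861400833495191760328649 (.c 18497 .nil)) .nil)) (.node (.I .jac (.c 8193 (.c 8 (.c 48 .nil))) (.r 179513673 .nil)) (.I .com (.c 537002377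 (.c 14025206030552608521 .nil)) .nil))) (.node (.node (.I .jac (.c 2306970223667989321 (.c 8 (.c 40 .nil))) (.r 48 .nil)) (.I .jac (.c 8257 (.c 16 (.c 24 .nil))) (.b 40 (.l 18433 .nil)))) (.node (.I .jac (.c 18433 (.c 8 (.c 32 .nil))) (.r 179513673 .nil)) (.I .adp (.c 18433 (.c 21099139 (.c 8257 .nil))) .nil))))) (.node (.node (.node (.node (.I .jac (.c 18433 (.c 8 (.c 32 .nil))) (.r 21099139 .nil)) (.I .com (.c 2306970223667989449 (.c 2737112265 .nil)) .nil)) (.node (.I .jac (.c 537002185 (.c 8 (.c 48 .nil))) (.r 12929 .nil)) (.I .com (.c 2306970223667989449 (.c 174695817 .nil)) .nil))) (.node (.node (.I .jac (.c 8193 (.c 24 (.c 48 .nil))) (.l 35718473 .nil)) (.I .com (.c 2306972423229201225 (.c 35718473 .nil)) .nil)) (.node (.I .com (.c 2306970773558194185 (.c 35718473 .nil)) .nil) (.I .adp (.c 2718204105 (.c 12929 (.c 8257 .nil))) .nil)))) (.node (.node (.node (.I .jac (.c 8257 (.c 16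 (.c 40 .nil))) (.l 2718204105 .nil)) (.I .adp (.c 1310924937 (.c 18625 (.c 8257 .nil))) .nil)) (.node (.I .jac (.c 8257 (.c 24 (.c 48 .nil))) (.l 1310924937 .nil)) (.I .jac (.c 1310924937 (.c 8 (.c 32 .nil))) (.r 18625 .nil)))) (.node (.node (.I .adp (.c 33587529 (.c 18625 (.c 8257 .nil))) .nil) (.I .adp (.c 14832803796618633 (.c 24 (.c 8193 .nil))) .nil)) (.node (.I .com (.c 537002185 (.c 14832803796618633 .nil)) .nil) (.I .com (.c 537002185 (.c 12929 .nil)) (.l 18497 .nil))))))))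

noncomputable def c5_89 : Tr := (.node (.node (.node (.node (.node (.node (.I .com (.c 101465489572716653961425451675529 (.c 18497 .nil)) .nil) (.I .ass (.c 18497 (.c 2306971873338799881 (.c 24 .nil))) .nil)) (.node (.I .ass (.c 2306971873338799881 (.c 18497 (.c 24 .nil))) .nil) (.I .com (.c 18497 (.c 2306971873338799881 .nil)) (.r 24 .nil)))) (.node (.node (.I .ass (.c 18497 (.c 2306970223667989449 (.c 24 .nil))) .nil) (.I .ass (.c 2306970223667989449 (.c 18497 (.c 24 .nil))) .nil)) (.node (.I .com (.c 18497 (.c 2306970223667989449 .nil)) (.r 24 .nil)) (.I .ass (.c 18497 (.c 537002185 (.c 12929 .nil))) .nil)))) (.node (.node (.node (.I .ass (.c 537002185 (.c 18497 (.c 12929 .nil))) .nil) (.I .com (.c 18497 (.c 537002185 .nil)) (.r 12929 .nil))) (.node (.I .com (.c 29219431338611946923215950238727204199485804159362686736837068862345 (.c 24 .nil)) .nil) (.I .com (.c 70295418264037085081049688170459684923043320310174312505272136585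 (.c 24 .nil)) .nil))) (.node (.node (.I .tdb (.c 0 (.c 32 (.c 12929 (.c 48 .nil)))) (.l 4673 .nil)) (.I .tdb (.c 16 (.c 40 (.c 0 (.c 48 .nil)))) (.b 32 (.l 4673 .nil)))) (.node (.I .tdb (.c 16 (.c 40 (.c 32 (.c 48 .nil)))) (.b 0 (.l 4673 .nil))) (.I .jac (.c 8193 (.c 16 (.c 40 .nil))) (.r 48 (.l 4673 .nil))))))) (.node (.node (.node (.node (.I .com (.c 537002377 (.c 12929 .nil)) (.l 4673 .nil)) (.I .com (.c 43356675 (.c 12929 .nil)) (.b 8257 .nil))) (.node (.I .adp (.c 14832759703961993 (.c 24 (.c 8257 .nil))) .nil) (.I .jac (.c 14832759703961993 (.c 8 (.c 32 .nil))) (.r 24 .nil)))) (.node (.node (.I .jac (.c 43356675 (.c 8 (.c 32 .nil))) (.r 12929 .nil)) (.I .tdb (.c 8 (.c 32 (.c 12929 (.c 24 .nil)))) (.l 18433 .nil))) (.node (.I .adp (.c 12929 (.c 24 (.c 8257 .nil))) (.l 18433 .nil)) (.I .com (.c 545424585 (.c 12929 .nil)) (.l 18433 .nil))))) (.node (.node (.node (.I .jac (.c 8257 (.c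 16 (.c 40 .nil))) (.r 24 (.l 18433 .nil))) (.I .tdb (.c 8 (.c 32 (.c 18433 (.c 24 .nil)))) (.b 12929 .nil))) (.node (.I .tdb (.c 8 (.c 32 (.c 24 (.c 48 .nil)))) (.b 1310924937 .nil)) (.I .com (.c 2306970223667989321 (.c 2737112393 .nil)) .nil))) (.node (.node (.I .jac (.c 8193 (.c 16 (.c 24 .nil))) (.l 1324066185 .nil)) (.I .com (.c 2306970773558193929 (.c 1324066185 .nil)) .nil)) (.node (.I .com (.c 2306970223667989321 (.c 1324066185 .nil)) .nil) (.I .jac (.c 8193 (.c 40 (.c 48 .nil))) (.l 35718345 .nil))))))) (.node (.node (.node (.node (.node (.I .com (.c 2306971873338800137 (.c 35718345 .nil)) .nil) (.I .jac (.c 8257 (.c 40 (.c 48 .nil))) (.l 33587401 .nil))) (.node (.I .jac (.c 8193 (.c 16 (.c 24 .nil))) (.l 43954755 .nil)) (.I .com (.c 2306970773558193929 (.c 43954755 .nil)) .nil))) (.node (.node (.I .com (.c 2306970223667989321 (.c 43954755 .nil)) .nil) (.I .adp (.c 14832803796618505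 (.c 40 (.c 8193 .nil))) .nil)) (.node (.I .tdb (.c 0 (.c 32 (.c 24 (.c 40 .nil)))) (.b 16 (.l 18497 .nil))) (.I .ass (.c 18497 (.c 2306970773558193929 (.c 40 .nil))) .nil)))) (.node (.node (.node (.I .ass (.c 2306970773558193929 (.c 18497 (.c 40 .nil))) .nil) (.I .com (.c 18497 (.c 2306970773558193929 .nil)) (.r 40 .nil))) (.node (.I .ass (.c 18497 (.c 2306970223667989321 (.c 40 .nil))) .nil) (.I .ass (.c 2306970223667989321 (.c 18497 (.c 40 .nil))) .nil))) (.node (.node (.I .com (.c 18497 (.c 2306970223667989321 .nil)) (.r 40 .nil)) (.I .tdb (.c 0 (.c 32 (.c 16 (.c 48 .nil)))) (.b 24 (.l 12865 .nil)))) (.node (.I .jac (.c 2306970773558194185 (.c 8 (.c 40 .nil))) (.r 16 .nil)) (.I .com (.c 537002121 (.c 244149027818380233 .nil)) .nil))))) (.node (.node (.node (.node (.I .jac (.c 2306972423229201225 (.c 8 (.c 40 .nil))) (.r 16 .nil)) (.I .jac (.c 537002313 (.c 24 (.c 48 .nil))) (.l 2113 .nil)))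 (.node (.I .jac (.c 8193 (.c 24 (.c 48 .nil))) (.b 40 (.l 2113 .nil))) (.I .com (.c 42576974092320101918705356412332005321 (.c 2113 .nil)) .nil))) (.node (.node (.I .com (.c 42576953795010656131941434981856024585 (.c 2113 .nil)) .nil) (.I .com (.c 231046163358604233 (.c 16 .nil)) (.b 8257 .nil))) (.node (.I .com (.c 13748198893136698185 (.c 16 .nil)) (.b 8257 .nil)) (.I .adp (.c 13748198893136698185 (.c 16 (.c 8257 .nil))) .nil)))) (.node (.node (.node (.I .jac (.c 13748198893136698185 (.c 8 (.c 32 .nil))) (.r 16 .nil)) (.I .jac (.c 59109068451510808521 (.c 8 (.c 32 .nil))) (.r 16 .nil))) (.node (.I .adp (.c 231046163358604233 (.c 16 (.c 8257 .nil))) .nil) (.I .adp (.c 13748194865974800393 (.c 16 (.c 8257 .nil))) .nil))) (.node (.node (.I .jac (.c 2306970773558194121 (.c 8 (.c 48 .nil))) (.r 16 .nil)) (.I .com (.c 42576913200413540599411453941751701513 (.c 2113 .nil)) .nil)) (.node (.I .com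 (.c 59109074018392946505 (.c 16 .nil)) (.b 8257 .nil)) (.I .adp (.c 59109074018392946505 (.c 16 (.c 8257 .nil))) .nil)))))))

noncomputable def c5_90 : Tr := (.node (.node (.node (.node (.node (.node (.I .jac (.c 59109074018392946505 (.c 8 (.c 32 .nil))) (.r 16 .nil)) (.I .adp (.c 231045989336561673 (.c 16 (.c 8257 .nil))) .nil)) (.node (.I .adp (.c 2049 (.c 43954883 (.c 8257 .nil))) .nil) (.I .com (.c 537002121 (.c 15456163896880393 .nil)) .nil))) (.node (.node (.I .com (.c 537002121 (.c 3561367726845385 .nil)) .nil) (.I .jac (.c 8193 (.c 24 (.c 48 .nil))) (.l 20891715 .nil))) (.node (.I .com (.c 2306972423229201225 (.c 20891715 .nil)) .nil) (.I .com (.c 2306970773558194185 (.c 20891715 .nil)) .nil)))) (.node (.node (.node (.I .com (.c 1760086083483798984267018994226057 (.c 12865 .nil)) .nil) (.I .com (.c 598976858659921 (.c 18625 .nil)) .nil)) (.node (.I .com (.c 2870186216699415475033029961673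 (.c 18625 .nil)) .nil) (.I .jac (.c 0 (.c 24 (.c 43954947 .nil))) (.l 2113 .nil)))) (.node (.node (.I .tdb (.c 0 (.c 32 (.c 18625 (.c 40 .nil)))) (.l 2113 .nil)) (.I .jac (.c 8193 (.c 24 (.c 48 .nil))) (.r 40 (.l 2113 .nil)))) (.node (.I .com (.c 537002313 (.c 18625 .nil)) (.l 2113 .nil)) (.I .com (.c 1911132888452975777501314320077705 (.c 2113 .nil)) .nil))))) (.node (.node (.node (.node (.I .ass (.c 2113 (.c 2306970773558194185 (.c 40 .nil))) .nil) (.I .ass (.c 2306970773558194185 (.c 2113 (.c 40 .nil))) .nil)) (.node (.I .com (.c 2113 (.c 2306970773558194185 .nil)) (.r 40 .nil)) (.I .adp (.c 15456118887244041 (.c 16 (.c 8257 .nil))) .nil))) (.node (.node (.I .jac (.c 15456118887244041 (.c 8 (.c 32 .nil))) (.r 16 .nil)) (.I .adp (.c 3561346121425353 (.c 16 (.c 8257 .nil))) .nil)) (.node (.I .jac (.c 3561346121425353 (.c 8 (.c 32 .nil))) (.r 16 .nil)) (.I .tdb (.c 8 (.c 32 (.c 16 (.c 40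 .nil)))) (.b 2718204105 .nil))))) (.node (.node (.node (.I .tdb (.c 8 (.c 32 (.c 18625 (.c 16 .nil)))) (.l 12801 .nil)) (.I .adp (.c 16 (.c 18625 (.c 8257 .nil))) (.l 12801 .nil))) (.node (.I .tdb (.c 0 (.c 40 (.c 8 (.c 16 .nil)))) (.b 32 (.l 18625 .nil))) (.I .tdb (.c 0 (.c 40 (.c 16 (.c 32 .nil)))) (.b 8 (.l 18625 .nil))))) (.node (.node (.I .com (.c 97536312314082855488951506397065 (.c 18625 .nil)) .nil) (.I .tdb (.c 8 (.c 32 (.c 12801 (.c 16 .nil)))) (.b 18625 .nil))) (.node (.I .tdb (.c 8 (.c 32 (.c 18625 (.c 40 .nil)))) (.l 2049 .nil)) (.I .adp (.c 18625 (.c 40 (.c 8257 .nil))) (.l 2049 .nil))))))) (.node (.node (.node (.node (.node (.I .jac (.c 8193 (.c 24 (.c 40 .nil))) (.l 43059267 .nil)) (.I .com (.c 2306971873338799945 (.c 43059267 .nil)) .nil)) (.node (.I .com (.c 2306970773558194121 (.c 43059267 .nil)) .nil) (.I .com (.c 598976858704977 (.c 12993 .nil)) .nil))) (.node (.node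 (.I .tdb (.c 0 (.c 32 (.c 16 (.c 48 .nil)))) (.b 174695753 .nil)) (.I .tdb (.c 0 (.c 32 (.c 12993 (.c 48 .nil)))) (.l 2113 .nil))) (.node (.I .tdb (.c 24 (.c 40 (.c 0 (.c 48 .nil)))) (.b 32 (.l 2113 .nil))) (.I .tdb (.c 24 (.c 40 (.c 32 (.c 48 .nil)))) (.b 0 (.l 2113 .nil)))))) (.node (.node (.node (.I .jac (.c 8193 (.c 24 (.c 40 .nil))) (.r 48 (.l 2113 .nil))) (.I .com (.c 537002377 (.c 12993 .nil)) (.l 2113 .nil))) (.node (.I .adp (.c 43059203 (.c 12993 (.c 8257 .nil))) .nil) (.I .jac (.c 43059203 (.c 8 (.c 32 .nil))) (.r 12993 .nil)))) (.node (.node (.I .tdb (.c 8 (.c 32 (.c 12993 (.c 16 .nil)))) (.l 18433 .nil)) (.I .adp (.c 16 (.c 12993 (.c 8257 .nil))) (.l 18433 .nil))) (.node (.I .tdb (.c 0 (.c 48 (.c 8 (.c 16 .nil)))) (.b 32 (.l 12993 .nil))) (.I .tdb (.c 0 (.c 48 (.c 16 (.c 32 .nil)))) (.b 8 (.l 12993 .nil))))))) (.node (.node (.node (.node (.I .tdb (.c 0 (.c 48 (.c 8 (.c 16 .nil))))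 (.b 32 (.b 12993 .nil))) (.I .tdb (.c 8 (.c 32 (.c 18433 (.c 16 .nil)))) (.b 12993 .nil))) (.node (.I .tdb (.c 8 (.c 32 (.c 16 (.c 48 .nil)))) (.b 1310925001 .nil)) (.I .com (.c 59109062884799392417 (.c 24 .nil)) .nil))) (.node (.node (.I .com (.c 89103268705775671430842569995035818734093246922370536829255569417 (.c 24 .nil)) .nil) (.I .jac (.c 18433 (.c 8652867 (.c 40 .nil))) (.l 24 .nil))) (.node (.I .com (.c 24783224170187564332730318127078046327666737372102191667975057543049 (.c 24 .nil)) .nil) (.I .com (.c 59109074018462169249 (.c 24 .nil)) .nil)))) (.node (.node (.node (.I .com (.c 65903751348250431743063771905067078051220777261744958791671817 (.c 24 .nil)) .nil) (.I .adp (.c 2803779 (.c 18753 (.c 8193 .nil))) .nil)) (.node (.I .com (.c 2306972423229201353 (.c 24 .nil)) (.l 2113 .nil)) (.I .com (.c 2306971873338800137 (.c 24 .nil)) (.l 2113 .nil)))) (.node (.node (.I .jac (.c 8193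 (.c 40 (.c 48 .nil))) (.l 24 (.l 2113 .nil))) (.I .ass (.c 2113 (.c 2306972423229201353 (.c 24 .nil))) .nil)) (.node (.I .ass (.c 2306972423229201353 (.c 2113 (.c 24 .nil))) .nil) (.I .com (.c 2113 (.c 2306972423229201353 .nil)) (.r 24 .nil))))))))

noncomputable def c5_91 : Tr := (.node (.node (.node (.node (.node (.node (.I .ass (.c 2113 (.c 2306971873338800137 (.c 24 .nil))) .nil) (.I .ass (.c 2306971873338800137 (.c 2113 (.c 24 .nil))) .nil)) (.node (.I .com (.c 2113 (.c 2306971873338800137 .nil)) (.r 24 .nil)) (.I .com (.c 2803715 (.c 18753 .nil)) (.b 8257 .nil)))) (.node (.node (.I .com (.c 1760096547776101087886666166078985 (.c 24 .nil)) .nil) (.I .com (.c 2379905498923998153 (.c 16 .nil)) (.l 4609 .nil))) (.node (.I .com (.c 2379904940409059337 (.c 16 .nil)) (.l 4609 .nil)) (.I .adp (.c 16 (.c 18753 (.c 8257 .nil))) (.l 4609 .nil))))) (.node (.node (.node (.I .jac (.c 8257 (.c 40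 (.c 48 .nil))) (.l 16 (.l 4609 .nil))) (.I .com (.c 2379905498923998153 (.c 24 .nil)) (.l 2049 .nil))) (.node (.I .com (.c 2379904940409059337 (.c 24 .nil)) (.l 2049 .nil)) (.I .adp (.c 24 (.c 18753 (.c 8257 .nil))) (.l 2049 .nil)))) (.node (.node (.I .jac (.c 169943433 (.c 8 (.c 40 .nil))) (.b 8321 .nil)) (.I .adp (.c 13748198893136698057 (.c 24 (.c 8321 .nil))) .nil)) (.node (.I .jac (.c 13748198893136698057 (.c 16 (.c 32 .nil))) (.r 24 .nil)) (.I .adp (.c 59109062884628932553 (.c 24 (.c 8321 .nil))) .nil))))) (.node (.node (.node (.node (.I .adp (.c 13748192181200529417 (.c 24 (.c 8321 .nil))) .nil) (.I .adp (.c 35470870263817 (.c 24 (.c 8321 .nil))) .nil)) (.node (.I .adp (.c 15456163896880201 (.c 24 (.c 8321 .nil))) .nil) (.I .jac (.c 15456163896880201 (.c 16 (.c 32 .nil))) (.r 24 .nil)))) (.node (.node (.I .jac (.c 59109062884628932425 (.c 16 (.c 32 .nil))) (.r 40 .nil)) (.I .adp (.c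 35473026505545 (.c 40 (.c 8321 .nil))) .nil)) (.node (.I .adp (.c 231045293249046537 (.c 40 (.c 8321 .nil))) .nil) (.I .jac (.c 2737112265 (.c 16 (.c 32 .nil))) (.l 12801 .nil))))) (.node (.node (.node (.I .jac (.c 12801 (.c 16 (.c 32 .nil))) (.r 2737112265 .nil)) (.I .adp (.c 59109068451510808265 (.c 40 (.c 8321 .nil))) .nil)) (.node (.I .jac (.c 12801 (.c 16 (.c 32 .nil))) (.r 174695817 .nil)) (.I .adp (.c 15038454533712969 (.c 40 (.c 8321 .nil))) .nil))) (.node (.node (.I .jac (.c 15038454533712969 (.c 16 (.c 32 .nil))) (.r 40 .nil)) (.I .jac (.c 43356739 (.c 16 (.c 32 .nil))) (.l 12801 .nil))) (.node (.I .jac (.c 12801 (.c 16 (.c 32 .nil))) (.r 43356739 .nil)) (.I .adp (.c 2718203977 (.c 12993 (.c 8321 .nil))) .nil)))))) (.node (.node (.node (.node (.node (.I .jac (.c 2718203977 (.c 16 (.c 32 .nil))) (.r 12993 .nil)) (.I .adp (.c 2105737 (.c 12993 (.c 8321 .nil))) .nil)) (.node (.I .jac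 (.c 18497 (.c 16 (.c 32 .nil))) (.l 1310925001 .nil)) (.I .jac (.c 1310925001 (.c 16 (.c 32 .nil))) (.r 18497 .nil)))) (.node (.node (.I .adp (.c 15456118887243913 (.c 24 (.c 8321 .nil))) .nil) (.I .jac (.c 15456118887243913 (.c 16 (.c 32 .nil))) (.r 24 .nil))) (.node (.I .adp (.c 3423058053194185 (.c 24 (.c 8321 .nil))) .nil) (.I .jac (.c 3423058053194185 (.c 16 (.c 32 .nil))) (.r 24 .nil))))) (.node (.node (.node (.I .adp (.c 15038410136445065 (.c 40 (.c 8321 .nil))) .nil) (.I .jac (.c 15038410136445065 (.c 16 (.c 32 .nil))) (.r 40 .nil))) (.node (.I .adp (.c 59555558875593 (.c 40 (.c 8321 .nil))) .nil) (.I .jac (.c 21099011 (.c 16 (.c 32 .nil))) (.r 18497 .nil)))) (.node (.node (.I .tdb (.c 16 (.c 32 (.c 18497 (.c 24 .nil)))) (.l 12801 .nil)) (.I .adp (.c 18497 (.c 24 (.c 8321 .nil))) (.l 12801 .nil))) (.node (.I .jac (.c 18497 (.c 16 (.c 32 .nil))) (.r 24 (.l 12801 .nil))) (.I .com (.c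 27664030750836998620697701184373565184416634111954085472844503523081 (.c 24 .nil)) .nil))))) (.node (.node (.node (.node (.I .com (.c 58240646186319479625272581893243555306718883533327995256725257 (.c 24 .nil)) .nil) (.I .com (.c 29220112062374340779692772142335450373702271758580661658759238668169 (.c 24 .nil)) .nil)) (.node (.I .com (.c 1911155150112274878166506705866249 (.c 24 .nil)) .nil) (.I .tdb (.c 8 (.c 48 (.c 32 (.c 40 .nil)))) (.b 16 (.l 4609 .nil))))) (.node (.node (.I .tdb (.c 16 (.c 32 (.c 18497 (.c 40 .nil)))) (.l 4609 .nil)) (.I .adp (.c 18497 (.c 40 (.c 8321 .nil))) (.l 4609 .nil))) (.node (.I .jac (.c 0 (.c 16 (.c 21307587 .nil))) (.r 18497 .nil)) (.I .jac (.c 1324065993 (.c 16 (.c 32 .nil))) (.l 18433 .nil))))) (.node (.node (.node (.I .jac (.c 18433 (.c 16 (.c 32 .nil))) (.r 1324065993 .nil)) (.I .adp (.c 231045293249046473 (.c 48 (.c 8321 .nil))) .nil)) (.node (.I .jac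 (.c 18433 (.c 16 (.c 32 .nil))) (.r 174695753 .nil)) (.I .adp (.c 18433 (.c 21099075 (.c 8321 .nil))) .nil))) (.node (.node (.I .adp (.c 2718204105 (.c 12865 (.c 8321 .nil))) .nil) (.I .adp (.c 1310924873 (.c 18625 (.c 8321 .nil))) .nil)) (.node (.I .jac (.c 1310924873 (.c 16 (.c 32 .nil))) (.r 18625 .nil)) (.I .adp (.c 2105673 (.c 18625 (.c 8321 .nil))) .nil)))))))

noncomputable def c5_92 : Tr := (.node (.node (.node (.node (.node (.node (.I .com (.c 43356675 (.c 12865 .nil)) (.b 8321 .nil)) (.I .jac (.c 43356675 (.c 16 (.c 32 .nil))) (.r 12865 .nil))) (.node (.I .tdb (.c 16 (.c 32 (.c 12865 (.c 24 .nil)))) (.l 18433 .nil)) (.I .adp (.c 12865 (.c 24 (.c 8321 .nil))) (.l 18433 .nil)))) (.node (.node (.I .jac (.c 12865 (.c 16 (.c 32 .nil))) (.r 24 (.l 18433 .nil))) (.I .com (.c 27664355203956229079760193910635298021970225103229577443784052629257 (.c 24 .nil)) .nil)) (.node (.I .jac (.c 0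 (.c 16 (.c 43655363 .nil))) (.r 12865 .nil)) (.I .jac (.c 8321 (.c 40 (.c 48 .nil))) (.l 169943113 .nil))))) (.node (.node (.node (.I .adp (.c 43954691 (.c 4673 (.c 8321 .nil))) .nil) (.I .adp (.c 14629225721520393 (.c 40 (.c 8321 .nil))) .nil)) (.node (.I .jac (.c 14629225721520393 (.c 16 (.c 32 .nil))) (.r 40 .nil)) (.I .adp (.c 3423058053193993 (.c 48 (.c 8321 .nil))) .nil))) (.node (.node (.I .jac (.c 3423058053193993 (.c 16 (.c 32 .nil))) (.r 48 .nil)) (.I .jac (.c 537002377 (.c 16 (.c 40 .nil))) (.b 24 (.l 8 .nil)))) (.node (.I .jac (.c 537002185 (.c 12929 (.c 48 .nil))) (.l 8 .nil)) (.I .jac (.c 537002185 (.c 16 (.c 40 .nil))) (.b 48 (.l 8 .nil))))))) (.node (.node (.node (.node (.I .jac (.c 8193 (.c 1337272713 (.c 24 .nil))) (.l 8 .nil)) (.I .com (.c 14502389782864775724004637839190473870054118106376301380787647791187248389961 (.c 8 .nil)) .nil)) (.node (.I .com (.c 14502375955699776897097553016463223738893908669131956560655866970196018807625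 (.c 8 .nil)) .nil) (.I .com (.c 14502334474273997956006391148615249424177942797046741887347248663445763130185 (.c 8 .nil)) .nil))) (.node (.node (.I .jac (.c 537002313 (.c 16 (.c 48 .nil))) (.b 24 (.l 8 .nil))) (.I .jac (.c 537002185 (.c 16 (.c 48 .nil))) (.b 40 (.l 8 .nil)))) (.node (.I .jac (.c 8193 (.c 18561 (.c 24 .nil))) (.b 40 (.l 8 .nil))) (.I .jac (.c 8193 (.c 16 (.c 48 .nil))) (.b 24 (.b 40 (.l 8 .nil))))))) (.node (.node (.node (.I .com (.c 14502375955699778506396863322320873579733869446538369716876502350880995377929 (.c 8 .nil)) .nil) (.I .com (.c 14502389782864775724004637839190473782856475165304737489350909178697041926089 (.c 8 .nil)) .nil)) (.node (.I .com (.c 14502375955699778506396863322320873405338666702174722200444384665198719202313 (.c 8 .nil)) .nil) (.I .jac (.c 537002377 (.c 16 (.c 24 .nil))) (.b 40 (.l 8 .nil))))) (.node (.node (.I .jac (.c 537002313 (.c 16 (.c 24 .nil)))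 (.b 48 (.l 8 .nil))) (.I .jac (.c 8193 (.c 16 (.c 24 .nil))) (.b 48 (.b 40 (.l 8 .nil))))) (.node (.I .com (.c 14502375955699776897097553016463223608097506610859228180437795880250684299273 (.c 8 .nil)) .nil) (.I .com (.c 14502334474273997956006391148615249293381727798644081149785095917044209424393 (.c 8 .nil)) .nil)))))) (.node (.node (.node (.node (.node (.I .com (.c 13748198893136698185 (.c 8 .nil)) (.b 8321 .nil)) (.I .adp (.c 13748198893136698185 (.c 8 (.c 8321 .nil))) .nil)) (.node (.I .jac (.c 8 (.c 16 (.c 32 .nil))) (.l 13748198893136698185 .nil)) (.I .jac (.c 13748198893136698185 (.c 16 (.c 32 .nil))) (.r 8 .nil)))) (.node (.node (.I .jac (.c 2306970773558194121 (.c 16 (.c 48 .nil))) (.l 8 .nil)) (.I .jac (.c 8193 (.c 16 (.c 48 .nil))) (.b 40 (.b 24 (.l 8 .nil))))) (.node (.I .jac (.c 537002377 (.c 4737 (.c 40 .nil))) (.l 8 .nil)) (.I .jac (.c 8193 (.c 179513673 (.c 48 .nil))) (.l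 8 .nil))))) (.node (.node (.node (.I .jac (.c 8193 (.c 4737 (.c 40 .nil))) (.b 48 (.l 8 .nil))) (.I .jac (.c 8193 (.c 16 (.c 24 .nil))) (.b 40 (.b 48 (.l 8 .nil))))) (.node (.I .adp (.c 513 (.c 43954883 (.c 8321 .nil))) .nil) (.I .com (.c 23450673742497901511923054532230323129287277401317973952284762773385 (.c 40 .nil)) .nil))) (.node (.node (.I .com (.c 23450673742498311880358975801693308650538466665638519017772930478985 (.c 40 .nil)) .nil) (.I .com (.c 8007571589612989335961665268183534149881835081509388181385 (.c 8 .nil)) .nil)) (.node (.I .tdb (.c 16 (.c 32 (.c 18625 (.c 8 .nil)))) (.l 12801 .nil)) (.I .adp (.c 8 (.c 18625 (.c 8321 .nil))) (.l 12801 .nil)))))) (.node (.node (.node (.node (.I .jac (.c 8 (.c 16 (.c 32 .nil))) (.r 18625 (.l 12801 .nil))) (.I .com (.c 2698162480890786870601550715657 (.c 18625 .nil)) .nil)) (.node (.I .tdb (.c 16 (.c 32 (.c 18625 (.c 40 .nil)))) (.l 513 .nil))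 (.I .adp (.c 18625 (.c 40 (.c 8321 .nil))) (.l 513 .nil)))) (.node (.node (.I .com (.c 70295418264016056367196823099296142163752309344533784109582587785 (.c 48 .nil)) .nil) (.I .com (.c 70295418264021313545660038924700774359065206181747927933821563785 (.c 48 .nil)) .nil)) (.node (.I .jac (.c 8 (.c 16 (.c 32 .nil))) (.l 15038410136445321 .nil)) (.I .adp (.c 42762755 (.c 12993 (.c 8321 .nil))) .nil)))) (.node (.node (.node (.I .jac (.c 42762755 (.c 16 (.c 32 .nil))) (.r 12993 .nil)) (.I .tdb (.c 16 (.c 32 (.c 12993 (.c 8 .nil)))) (.l 18433 .nil))) (.node (.I .adp (.c 8 (.c 12993 (.c 8321 .nil))) (.l 18433 .nil)) (.I .jac (.c 8 (.c 16 (.c 32 .nil))) (.r 12993 (.l 18433 .nil))))) (.node (.node (.I .tdb (.c 0 (.c 48 (.c 8 (.c 32 .nil)))) (.b 16 (.l 12993 .nil))) (.I .com (.c 2698162480891381558379040177929 (.c 12993 .nil)) .nil)) (.node (.I .com (.c 70295418264016056367196823099584107178232037442043768344047715209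 (.c 24 .nil)) .nil) (.I .com (.c 8007571589580391927225678071128581208794505372228472521609 (.c 8 .nil)) .nil)))))))

noncomputable def c5_93 : Tr := (.node (.node (.node (.node (.node (.node (.I .jac (.c 2049 (.c 43655235 (.c 40 .nil))) (.l 24 .nil)) (.I .com (.c 15246236611942033 (.c 24 .nil)) .nil)) (.node (.I .com (.c 2728451 (.c 18753 .nil)) (.b 8321 .nil)) (.I .com (.c 58240646186293806597287516734586359580725313507483542651388681 (.c 24 .nil)) .nil))) (.node (.node (.I .adp (.c 8 (.c 18753 (.c 8321 .nil))) (.l 4609 .nil)) (.I .adp (.c 24 (.c 18753 (.c 8321 .nil))) (.l 513 .nil))) (.node (.I .jac (.c 8321 (.c 40 (.c 48 .nil))) (.l 24 (.l 513 .nil))) (.I .adp (.c 43954691 (.c 24 (.c 32 .nil))) (.b 2113 .nil))))) (.node (.node (.node (.I .adp (.c 43954691 (.c 24 (.c 16 .nil))) (.b 8257 .nil)) (.I .adp (.c 43954691 (.c 24 (.c 8 .nil))) (.b 8321 .nil))) (.node (.I .adp (.c 2718204105 (.c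 40 (.c 32 .nil))) (.b 2113 .nil)) (.I .adp (.c 2718204105 (.c 40 (.c 16 .nil))) (.b 8257 .nil)))) (.node (.node (.I .adp (.c 2718204105 (.c 40 (.c 8 .nil))) (.b 8321 .nil)) (.I .adp (.c 43356675 (.c 40 (.c 32 .nil))) (.b 2113 .nil))) (.node (.I .adp (.c 43356675 (.c 40 (.c 16 .nil))) (.b 8257 .nil)) (.I .adp (.c 43356675 (.c 40 (.c 8 .nil))) (.b 8321 .nil)))))) (.node (.node (.node (.node (.I .adp (.c 0 (.c 15456208906582281 (.c 8257 .nil))) .nil) (.I .jac (.c 0 (.c 8 (.c 32 .nil))) (.r 15456208906582281 .nil))) (.node (.I .adp (.c 0 (.c 15456163896880393 (.c 8321 .nil))) .nil) (.I .jac (.c 0 (.c 16 (.c 32 .nil))) (.r 15456163896880393 .nil)))) (.node (.node (.I .adp (.c 0 (.c 15038498931046793 (.c 8257 .nil))) .nil) (.I .jac (.c 0 (.c 8 (.c 32 .nil))) (.r 15038498931046793 .nil))) (.node (.I .adp (.c 0 (.c 15038454533713289 (.c 8321 .nil))) .nil) (.I .jac (.c 0 (.c 16 (.c 32 .nil))) (.r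 15038454533713289 .nil))))) (.node (.node (.node (.I .com (.c 27664030750838856656340776335290434406600291214972717943954874774217 (.c 24 .nil)) .nil) (.I .com (.c 27664030750838856656340776335288530206022995338134904036724695338761 (.c 24 .nil)) .nil)) (.node (.I .jac (.c 8321 (.c 40 (.c 48 .nil))) (.l 4673 (.l 0 .nil))) (.I .com (.c 1512103782441961064963223238430258354057 (.c 2113 .nil)) .nil))) (.node (.node (.I .adp (.c 8257 (.c 16 (.c 59109068451510808521 .nil))) .nil) (.I .com (.c 27951055785643122968540376538297009659657 (.c 8257 .nil)) .nil)) (.node (.I .com (.c 27951055785643122968540376538297009659785 (.c 2113 .nil)) .nil) (.I .adp (.c 8257 (.c 16 (.c 231046163358604233 .nil))) .nil)))))) (.node (.node (.node (.node (.node (.I .adp (.c 2113 (.c 32 (.c 231046163358604233 .nil))) .nil) (.I .adp (.c 16 (.c 32 (.c 8 .nil))) (.b 13748194865974800393 .nil))) (.node (.I .com (.c 8257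 (.c 16 .nil)) (.b 13748194865974800393 .nil)) (.I .adp (.c 8257 (.c 16 (.c 13748194865974800393 .nil))) .nil))) (.node (.node (.I .adp (.c 2113 (.c 32 (.c 13748194865974800393 .nil))) .nil) (.I .com (.c 1512102896582526877926683197569543635849 (.c 2113 .nil)) .nil)) (.node (.I .adp (.c 16 (.c 32 (.c 8 .nil))) (.b 59109074018392946505 .nil)) (.I .com (.c 8257 (.c 16 .nil)) (.b 59109074018392946505 .nil))))) (.node (.node (.node (.I .adp (.c 2113 (.c 32 (.c 59109074018392946505 .nil))) .nil) (.I .adp (.c 16 (.c 32 (.c 8 .nil))) (.b 231045989336561673 .nil))) (.node (.I .com (.c 8257 (.c 16 .nil)) (.b 231045989336561673 .nil)) (.I .adp (.c 2113 (.c 32 (.c 231045989336561673 .nil))) .nil))) (.node (.node (.I .jac (.c 537002121 (.c 24 (.c 48 .nil))) (.l 12865 .nil)) (.I .jac (.c 545424521 (.c 24 (.c 48 .nil))) (.l 12801 .nil))) (.node (.I .tdb (.c 24 (.c 18497 (.c 16 (.c 40 .nil)))) (.l 8193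 .nil)) (.I .tdb (.c 24 (.c 18497 (.c 32 (.c 40 .nil)))) (.l 2049 .nil)))))) (.node (.node (.node (.node (.I .tdb (.c 4673 (.c 48 (.c 16 (.c 40 .nil)))) (.l 8193 .nil)) (.I .tdb (.c 8 (.c 24 (.c 40 (.c 16 .nil)))) (.b 48 (.l 8193 .nil)))) (.node (.I .tdb (.c 4673 (.c 48 (.c 32 (.c 40 .nil)))) (.l 2049 .nil)) (.I .tdb (.c 8 (.c 24 (.c 32 (.c 40 .nil)))) (.b 48 (.l 2049 .nil))))) (.node (.node (.I .jac (.c 8652803 (.c 24 (.c 48 .nil))) (.l 12865 .nil)) (.I .com (.c 2870101301548905401794626098185 (.c 12865 .nil)) .nil)) (.node (.I .tdb (.c 8 (.c 40 (.c 18625 (.c 16 .nil)))) (.l 8193 .nil)) (.I .jac (.c 16 (.c 24 (.c 48 .nil))) (.l 2306971873338799817 .nil))))) (.node (.node (.node (.I .tdb (.c 8 (.c 40 (.c 18625 (.c 32 .nil)))) (.l 2049 .nil)) (.I .ass (.c 9024976834606793 (.c 18625 (.c 32 .nil))) .nil)) (.node (.I .tdb (.c 24 (.c 18433 (.c 16 (.c 40 .nil)))) (.l 8257 .nil)) (.I .tdb (.c 0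 (.c 48 (.c 16 (.c 40 .nil)))) (.b 24 (.l 8257 .nil))))) (.node (.node (.I .ass (.c 8257 (.c 59109068451510808329 (.c 40 .nil))) .nil) (.I .ass (.c 59109068451510808329 (.c 8257 (.c 40 .nil))) .nil)) (.node (.I .com (.c 8257 (.c 59109068451510808329 .nil)) (.r 40 .nil)) (.I .ass (.c 8257 (.c 2718204105 (.c 12929 .nil))) .nil)))))))

noncomputable def c5_94 : Tr := (.node (.node (.node (.node (.node (.node (.I .ass (.c 2718204105 (.c 8257 (.c 12929 .nil))) .nil) (.I .com (.c 8257 (.c 2718204105 .nil)) (.r 12929 .nil))) (.node (.I .com (.c 2718204105 (.c 3491710045130057 .nil)) .nil) (.I .com (.c 2718204105 (.c 3632084291164297 .nil)) .nil))) (.node (.node (.I .tdb (.c 24 (.c 18433 (.c 32 (.c 40 .nil)))) (.l 2113 .nil)) (.I .com (.c 2718204105 (.c 3632062472293577 .nil)) .nil)) (.node (.I .com (.c 1760086083483798984267018994226121 (.c 8257 .nil)) .nil) (.I .ass (.c 8257 (.c 12801 (.c 2756085961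 .nil))) .nil)))) (.node (.node (.node (.I .ass (.c 12801 (.c 8257 (.c 2756085961 .nil))) .nil) (.I .com (.c 8257 (.c 12801 .nil)) (.r 2756085961 .nil))) (.node (.I .jac (.c 16 (.c 24 (.c 48 .nil))) (.l 13748196208362033865 .nil)) (.I .jac (.c 16 (.c 24 (.c 48 .nil))) (.l 13748192181200529289 .nil)))) (.node (.node (.I .tdb (.c 0 (.c 40 (.c 18625 (.c 32 .nil)))) (.l 2113 .nil)) (.I .ass (.c 13748193523587631817 (.c 18625 (.c 32 .nil))) .nil)) (.node (.I .ass (.c 13748192181200529161 (.c 18625 (.c 32 .nil))) .nil) (.I .adp (.c 8193 (.c 16 (.c 15038454533713289 .nil))) .nil))))) (.node (.node (.node (.node (.I .adp (.c 2049 (.c 32 (.c 15038454533713289 .nil))) .nil) (.I .jac (.c 8652803 (.c 8 (.c 48 .nil))) (.r 12993 .nil))) (.node (.I .tdb (.c 8 (.c 48 (.c 16 (.c 24 .nil)))) (.b 40 (.l 8193 .nil))) (.I .tdb (.c 24 (.c 40 (.c 18497 (.c 16 .nil)))) (.l 8193 .nil)))) (.node (.node (.I .jac (.c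 16 (.c 24 (.c 40 .nil))) (.l 18497 (.l 8193 .nil))) (.I .jac (.c 16 (.c 24 (.c 40 .nil))) (.l 2306969673777850377 .nil))) (.node (.I .jac (.c 0 (.c 21307523 (.c 24 .nil))) (.r 18497 .nil)) (.I .tdb (.c 24 (.c 40 (.c 18497 (.c 32 .nil)))) (.l 2049 .nil))))) (.node (.node (.node (.I .ass (.c 9025011228269257 (.c 12993 (.c 32 .nil))) .nil) (.I .tdb (.c 24 (.c 12865 (.c 32 (.c 48 .nil)))) (.l 2049 .nil))) (.node (.I .tdb (.c 8 (.c 40 (.c 32 (.c 48 .nil)))) (.b 24 (.l 2049 .nil))) (.I .tdb (.c 4673 (.c 40 (.c 16 (.c 48 .nil)))) (.l 8193 .nil)))) (.node (.node (.I .tdb (.c 8 (.c 24 (.c 48 (.c 16 .nil)))) (.b 40 (.l 8193 .nil))) (.I .tdb (.c 0 (.c 48 (.c 16 (.c 24 .nil)))) (.b 40 (.l 8257 .nil)))) (.node (.I .ass (.c 8257 (.c 18433 (.c 1337272521 .nil))) .nil) (.I .ass (.c 18433 (.c 8257 (.c 1337272521 .nil))) .nil)))))) (.node (.node (.node (.node (.node (.I .com (.c 8257 (.c 18433 .nil)) (.r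 1337272521 .nil)) (.I .jac (.c 16 (.c 24 (.c 40 .nil))) (.l 59109071234951844553 .nil))) (.node (.I .jac (.c 16 (.c 24 (.c 40 .nil))) (.l 59109062884628932489 .nil)) (.I .tdb (.c 24 (.c 40 (.c 18433 (.c 32 .nil)))) (.l 2113 .nil)))) (.node (.node (.I .ass (.c 59109065668069837513 (.c 12993 (.c 32 .nil))) .nil) (.I .ass (.c 59109062884628932361 (.c 12993 (.c 32 .nil))) .nil)) (.node (.I .tdb (.c 24 (.c 12801 (.c 16 (.c 48 .nil)))) (.l 8257 .nil)) (.I .tdb (.c 0 (.c 40 (.c 16 (.c 48 .nil)))) (.b 24 (.l 8257 .nil)))))) (.node (.node (.node (.I .ass (.c 8257 (.c 1310925001 (.c 18561 .nil))) .nil) (.I .ass (.c 1310925001 (.c 8257 (.c 18561 .nil))) .nil)) (.node (.I .com (.c 8257 (.c 1310925001 .nil)) (.r 18561 .nil)) (.I .tdb (.c 0 (.c 40 (.c 32 (.c 48 .nil)))) (.b 24 (.l 2113 .nil))))) (.node (.node (.I .tdb (.c 4609 (.c 40 (.c 32 (.c 48 .nil)))) (.l 2113 .nil)) (.I .tdb (.c 0 (.c 24 (.c 32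 (.c 48 .nil)))) (.b 40 (.l 2113 .nil)))) (.node (.I .jac (.c 537002121 (.c 40 (.c 48 .nil))) (.l 4673 .nil)) (.I .tdb (.c 40 (.c 18497 (.c 16 (.c 24 .nil)))) (.l 8193 .nil)))))) (.node (.node (.node (.node (.I .jac (.c 32 (.c 40 (.c 48 .nil))) (.l 9024908047478473 .nil)) (.I .jac (.c 32 (.c 40 (.c 48 .nil))) (.l 9024839260612425 .nil))) (.node (.I .tdb (.c 40 (.c 18433 (.c 16 (.c 24 .nil)))) (.l 8257 .nil)) (.I .ass (.c 8257 (.c 59109074018392946441 (.c 24 .nil))) .nil))) (.node (.node (.I .ass (.c 59109074018392946441 (.c 8257 (.c 24 .nil))) .nil) (.I .com (.c 8257 (.c 59109074018392946441 .nil)) (.r 24 .nil))) (.node (.I .tdb (.c 48 (.c 12801 (.c 16 (.c 24 .nil)))) (.l 8257 .nil)) (.I .tdb (.c 0 (.c 40 (.c 16 (.c 24 .nil)))) (.b 48 (.l 8257 .nil)))))) (.node (.node (.node (.I .ass (.c 8257 (.c 13748198893136698121 (.c 24 .nil))) .nil) (.I .ass (.c 13748198893136698121 (.c 8257 (.c 24 .nil)))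 .nil)) (.node (.I .com (.c 8257 (.c 13748198893136698121 .nil)) (.r 24 .nil)) (.I .ass (.c 2113 (.c 13748198893136698249 (.c 24 .nil))) .nil))) (.node (.node (.I .ass (.c 13748198893136698249 (.c 2113 (.c 24 .nil))) .nil) (.I .com (.c 2113 (.c 13748198893136698249 .nil)) (.r 24 .nil))) (.node (.I .jac (.c 32 (.c 40 (.c 48 .nil))) (.l 4609 (.l 2113 .nil))) (.I .ass (.c 2113 (.c 4609 (.c 2794230089 .nil))) .nil)))))))

noncomputable def c5_95 : Tr := (.node (.node (.node (.node (.node (.node (.I .ass (.c 4609 (.c 2113 (.c 2794230089 .nil))) .nil) (.I .com (.c 2113 (.c 4609 .nil)) (.r 2794230089 .nil))) (.node (.I .ass (.c 2113 (.c 4609 (.c 1363882377 .nil))) .nil) (.I .ass (.c 4609 (.c 2113 (.c 1363882377 .nil))) .nil))) (.node (.node (.I .com (.c 2113 (.c 4609 .nil)) (.r 1363882377 .nil)) (.I .jac (.c 32 (.c 40 (.c 48 .nil))) (.l 231045467270826697 .nil))) (.node (.I .jac (.c 32 (.c 40 (.c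 48 .nil))) (.l 231045293249046281 .nil)) (.I .tdb (.c 2049 (.c 32 (.c 40 (.c 24 .nil)))) (.b 18497 .nil))))) (.node (.node (.node (.I .tdb (.c 0 (.c 16 (.c 40 (.c 24 .nil)))) (.b 32 (.b 18497 .nil))) (.I .tdb (.c 2049 (.c 32 (.c 48 (.c 24 .nil)))) (.b 12865 .nil))) (.node (.I .tdb (.c 0 (.c 16 (.c 48 (.c 24 .nil)))) (.b 32 (.b 12865 .nil))) (.I .tdb (.c 2049 (.c 32 (.c 40 (.c 48 .nil)))) (.l 4673 .nil)))) (.node (.node (.I .tdb (.c 0 (.c 16 (.c 40 (.c 48 .nil)))) (.b 32 (.l 4673 .nil))) (.I .tdb (.c 16 (.c 8193 (.c 24 (.c 40 .nil)))) (.l 18497 .nil))) (.node (.I .com (.c 2306970223667989449 (.c 24 .nil)) (.l 18497 .nil)) (.I .com (.c 2306970223667989513 (.c 24 .nil)) (.l 12865 .nil)))))) (.node (.node (.node (.node (.I .tdb (.c 16 (.c 8193 (.c 24 (.c 48 .nil)))) (.b 12865 .nil)) (.I .tdb (.c 16 (.c 8193 (.c 40 (.c 48 .nil)))) (.l 4673 .nil))) (.node (.I .tdb (.c 0 (.c 32 (.c 40 (.c 48 .nil))))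 (.b 16 (.l 4673 .nil))) (.I .tdb (.c 2113 (.c 32 (.c 40 (.c 24 .nil)))) (.l 18433 .nil)))) (.node (.node (.I .tdb (.c 8 (.c 16 (.c 40 (.c 24 .nil)))) (.b 32 (.l 18433 .nil))) (.I .tdb (.c 2113 (.c 32 (.c 48 (.c 24 .nil)))) (.l 12801 .nil))) (.node (.I .tdb (.c 8 (.c 16 (.c 48 (.c 24 .nil)))) (.b 32 (.l 12801 .nil))) (.I .tdb (.c 2113 (.c 32 (.c 40 (.c 48 .nil)))) (.l 4609 .nil))))) (.node (.node (.node (.I .tdb (.c 8 (.c 16 (.c 40 (.c 48 .nil)))) (.b 32 (.l 4609 .nil))) (.I .com (.c 10206437931930633 (.c 40 .nil)) (.l 4609 .nil))) (.node (.I .tdb (.c 16 (.c 8257 (.c 24 (.c 40 .nil)))) (.l 18433 .nil)) (.I .com (.c 2379903264864635849 (.c 24 .nil)) (.l 18433 .nil)))) (.node (.node (.I .jac (.c 62886542410185 (.c 8 (.c 32 .nil))) (.l 40 .nil)) (.I .com (.c 2379903264864635913 (.c 24 .nil)) (.l 12801 .nil))) (.node (.I .tdb (.c 16 (.c 8257 (.c 24 (.c 48 .nil)))) (.b 12801 .nil)) (.I .com (.c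 2379903264864635913 (.c 40 .nil)) (.l 4609 .nil))))))) (.node (.node (.node (.node (.node (.I .jac (.c 0 (.c 8 (.c 32 .nil))) (.b 15456253916349641 .nil)) (.I .jac (.c 18497 (.c 16 (.c 40 .nil))) (.b 24 (.l 8193 .nil)))) (.node (.I .jac (.c 12865 (.c 18561 (.c 24 .nil))) (.l 8193 .nil)) (.I .jac (.c 12865 (.c 16 (.c 48 .nil))) (.b 24 (.l 8193 .nil))))) (.node (.node (.I .jac (.c 2306971873338799945 (.c 16 (.c 48 .nil))) (.r 8 .nil)) (.I .jac (.c 18497 (.c 16 (.c 24 .nil))) (.b 40 (.l 8193 .nil)))) (.node (.I .jac (.c 12865 (.c 4737 (.c 48 .nil))) (.l 8193 .nil)) (.I .jac (.c 12865 (.c 16 (.c 24 .nil))) (.b 48 (.l 8193 .nil)))))) (.node (.node (.node (.I .jac (.c 2737112265 (.c 16 (.c 40 .nil))) (.l 8193 .nil)) (.I .jac (.c 18497 (.c 12929 (.c 24 .nil))) (.l 8193 .nil))) (.node (.I .com (.c 18291662791002284158804837459398313859147950704863321659390321634942710146874121 (.c 8 .nil)) .nil)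 (.I .com (.c 18291662791002284158804837459398313856051162158422185398345640442637541037896585 (.c 8 .nil)) .nil))) (.node (.node (.I .adp (.c 8 (.c 8321 (.c 59109068451510808521 .nil))) .nil) (.I .adp (.c 8 (.c 32 (.c 16 .nil))) (.b 231046163358604233 .nil))) (.node (.I .jac (.c 13748194865974800393 (.c 16 (.c 32 .nil))) (.l 8 .nil)) (.I .jac (.c 8 (.c 179513673 (.c 48 .nil))) (.l 8193 .nil)))))) (.node (.node (.node (.node (.I .jac (.c 8 (.c 4737 (.c 40 .nil))) (.b 48 (.l 8193 .nil))) (.I .jac (.c 8 (.c 16 (.c 24 .nil))) (.b 40 (.b 48 (.l 8193 .nil))))) (.node (.I .adp (.c 8 (.c 8321 (.c 59109074018392946505 .nil))) .nil) (.I .adp (.c 8 (.c 8321 (.c 231045989336561673 .nil))) .nil))) (.node (.node (.I .com (.c 2306969673777850313 (.c 179513737 .nil)) .nil) (.I .jac (.c 537002057 (.c 24 (.c 48 .nil))) (.l 12929 .nil))) (.node (.I .com (.c 42576872605845451114770277207992337225 (.c 12929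 .nil)) .nil) (.I .adp (.c 8 (.c 32 (.c 0 .nil))) (.b 15456208906582281 .nil))))) (.node (.node (.node (.I .com (.c 8193 (.c 8 .nil)) (.b 15456208906582281 .nil)) (.I .adp (.c 513 (.c 32 (.c 15456208906582281 .nil))) .nil)) (.node (.I .adp (.c 513 (.c 32 (.c 3561389332330953 .nil))) .nil) (.I .jac (.c 580749782704393 (.c 16 (.c 48 .nil))) (.r 40 .nil)))) (.node (.node (.I .tdb (.c 24 (.c 18561 (.c 32 (.c 40 .nil)))) (.l 513 .nil)) (.I .tdb (.c 4737 (.c 48 (.c 8 (.c 40 .nil)))) (.l 8193 .nil))) (.node (.I .tdb (.c 16 (.c 24 (.c 40 (.c 8 .nil)))) (.b 48 (.l 8193 .nil))) (.I .com (.c 2698162480889597495046571987977 (.c 12929 .nil)) .nil)))))))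

noncomputable def c5_96 : Tr := (.node (.node (.node (.node (.node (.node (.I .jac (.c 8520195 (.c 16 (.c 40 .nil))) (.r 18625 .nil)) (.I .tdb (.c 16 (.c 40 (.c 18625 (.c 8 .nil)))) (.l 8193 .nil))) (.node (.I .jac (.c 8 (.c 16 (.c 40 .nil))) (.r 18625 (.l 8193 .nil))) (.I .jac (.c 8 (.c 24 (.c 48 .nil))) (.l 2306971873338799881 .nil)))) (.node (.node (.I .jac (.c 8 (.c 24 (.c 48 .nil))) (.l 2306970223667989449 .nil)) (.I .tdb (.c 16 (.c 40 (.c 18625 (.c 32 .nil)))) (.l 513 .nil))) (.node (.I .ass (.c 35470870263561 (.c 18625 (.c 32 .nil))) .nil) (.I .ass (.c 59109068451510808265 (.c 40 (.c 8321 .nil))) .nil)))) (.node (.node (.node (.I .com (.c 8321 (.c 40 .nil)) (.l 59109068451510808265 .nil)) (.I .ass (.c 2718204105 (.c 12865 (.c 8321 .nil))) .nil)) (.node (.I .ass (.c 231046163358603977 (.c 40 (.c 8321 .nil))) .nil) (.I .com (.c 8321 (.c 40 .nil)) (.l 231046163358603977 .nil)))) (.node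 (.node (.I .com (.c 42576872605845448752433331259473583945 (.c 18561 .nil)) .nil) (.I .com (.c 42576872605845444027759439362436274121 (.c 18561 .nil)) .nil)) (.node (.I .com (.c 2306969673777850377 (.c 1337272521 .nil)) .nil) (.I .jac (.c 2306969673777850185 (.c 16 (.c 40 .nil))) (.r 48 .nil)))))) (.node (.node (.node (.node (.I .adp (.c 8193 (.c 8 (.c 15038498931046793 .nil))) .nil) (.I .adp (.c 513 (.c 32 (.c 15038498931046793 .nil))) .nil)) (.node (.I .jac (.c 8520195 (.c 24 (.c 40 .nil))) (.l 18561 .nil)) (.I .tdb (.c 24 (.c 40 (.c 18561 (.c 8 .nil)))) (.l 8193 .nil)))) (.node (.node (.I .com (.c 1324065993 (.c 18561 .nil)) (.l 8193 .nil)) (.I .jac (.c 8 (.c 24 (.c 40 .nil))) (.l 2306972423229201161 .nil))) (.node (.I .jac (.c 8 (.c 16 (.c 48 .nil))) (.l 2306971873338799945 .nil)) (.I .tdb (.c 24 (.c 40 (.c 18561 (.c 32 .nil)))) (.l 513 .nil))))) (.node (.node (.node (.I .ass (.c 35473026505481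 (.c 12993 (.c 32 .nil))) .nil) (.I .jac (.c 43356739 (.c 16 (.c 40 .nil))) (.l 8193 .nil))) (.node (.I .tdb (.c 24 (.c 12929 (.c 32 (.c 48 .nil)))) (.l 513 .nil)) (.I .tdb (.c 16 (.c 40 (.c 32 (.c 48 .nil)))) (.b 24 (.l 513 .nil))))) (.node (.node (.I .tdb (.c 4737 (.c 40 (.c 8 (.c 48 .nil)))) (.l 8193 .nil)) (.I .tdb (.c 16 (.c 24 (.c 48 (.c 8 .nil)))) (.b 40 (.l 8193 .nil)))) (.node (.I .jac (.c 8 (.c 16 (.c 24 .nil))) (.b 40 (.l 537002377 .nil))) (.I .tdb (.c 4737 (.c 40 (.c 32 (.c 48 .nil)))) (.l 513 .nil))))))) (.node (.node (.node (.node (.node (.I .tdb (.c 16 (.c 24 (.c 32 (.c 48 .nil)))) (.b 40 (.l 513 .nil))) (.I .ass (.c 1310925001 (.c 18497 (.c 8321 .nil))) .nil)) (.node (.I .jac (.c 2105609 (.c 40 (.c 48 .nil))) (.l 4737 .nil)) (.I .jac (.c 2306969673777850313 (.c 16 (.c 48 .nil))) (.r 24 .nil)))) (.node (.node (.I .com (.c 2306969673777850185 (.c 1337272713 .nil)) .nil) (.I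 .jac (.c 2306969673777850377 (.c 16 (.c 40 .nil))) (.r 24 .nil))) (.node (.I .com (.c 42576872605845451114770277207992337353 (.c 4737 .nil)) .nil) (.I .jac (.c 580749782704521 (.c 16 (.c 48 .nil))) (.r 24 .nil))))) (.node (.node (.node (.I .jac (.c 12865 (.c 16 (.c 48 .nil))) (.r 24 (.l 8193 .nil))) (.I .jac (.c 12865 (.c 16 (.c 48 .nil))) (.l 537002185 .nil))) (.node (.I .jac (.c 580749782704585 (.c 16 (.c 40 .nil))) (.r 24 .nil)) (.I .jac (.c 18497 (.c 16 (.c 40 .nil))) (.r 24 (.l 8193 .nil))))) (.node (.node (.I .jac (.c 8520195 (.c 40 (.c 48 .nil))) (.l 4737 .nil)) (.I .com (.c 2698162480890786870601550715913 (.c 4737 .nil)) .nil)) (.node (.I .jac (.c 8 (.c 40 (.c 48 .nil))) (.l 2306970773558193929 .nil)) (.I .jac (.c 32 (.c 40 (.c 48 .nil))) (.l 4737 (.l 513 .nil))))))) (.node (.node (.node (.node (.I .jac (.c 32 (.c 40 (.c 48 .nil))) (.l 35466557976329 .nil)) (.I .ass (.c 59109074018392946377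 (.c 24 (.c 8321 .nil))) .nil)) (.node (.I .com (.c 8321 (.c 24 .nil)) (.l 59109074018392946377 .nil)) (.I .ass (.c 13748198893136698057 (.c 24 (.c 8321 .nil))) .nil))) (.node (.node (.I .com (.c 8321 (.c 24 .nil)) (.l 13748198893136698057 .nil)) (.I .tdb (.c 513 (.c 32 (.c 40 (.c 24 .nil)))) (.l 18561 .nil))) (.node (.I .tdb (.c 0 (.c 8 (.c 24 (.c 40 .nil)))) (.b 32 (.l 18561 .nil))) (.I .tdb (.c 513 (.c 32 (.c 40 (.c 24 .nil)))) (.b 18561 .nil))))) (.node (.node (.node (.I .tdb (.c 0 (.c 8 (.c 24 (.c 40 .nil)))) (.b 32 (.b 18561 .nil))) (.I .tdb (.c 513 (.c 32 (.c 48 (.c 24 .nil)))) (.l 12929 .nil))) (.node (.I .tdb (.c 0 (.c 8 (.c 24 (.c 48 .nil)))) (.b 32 (.l 12929 .nil))) (.I .com (.c 1809230235455469428084446102834057 (.c 12929 .nil)) .nil))) (.node (.node (.I .com (.c 35468714087433 (.c 40 .nil)) (.l 4737 .nil)) (.I .com (.c 2306969673777850185 (.c 43954819 .nil)) .nil)) (.node (.I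 .com (.c 2306969673777850313 (.c 43356803 .nil)) .nil) (.I .tdb (.c 8 (.c 8193 (.c 24 (.c 40 .nil)))) (.l 18561 .nil))))))))

noncomputable def c5_97 : Tr := (.node (.node (.node (.node (.node (.node (.I .tdb (.c 0 (.c 32 (.c 24 (.c 40 .nil)))) (.b 8 (.l 18561 .nil))) (.I .com (.c 2306969673777850313 (.c 24 .nil)) (.l 18561 .nil))) (.node (.I .ass (.c 18561 (.c 2306969673777850313 (.c 24 .nil))) .nil) (.I .ass (.c 2306969673777850313 (.c 18561 (.c 24 .nil))) .nil))) (.node (.node (.I .com (.c 18561 (.c 2306969673777850313 .nil)) (.r 24 .nil)) (.I .ass (.c 18561 (.c 2306969673777850185 (.c 40 .nil))) .nil)) (.node (.I .ass (.c 2306969673777850185 (.c 18561 (.c 40 .nil))) .nil) (.I .com (.c 18561 (.c 2306969673777850185 .nil)) (.r 40 .nil))))) (.node (.node (.node (.I .tdb (.c 8 (.c 8193 (.c 24 (.c 40 .nil)))) (.b 18561 .nil)) (.I .com (.c 2306969673777850377 (.c 21099139 .nil)) .nil)) (.node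 (.I .tdb (.c 8 (.c 8193 (.c 24 (.c 48 .nil)))) (.l 12929 .nil)) (.I .tdb (.c 0 (.c 32 (.c 24 (.c 48 .nil)))) (.b 8 (.l 12929 .nil))))) (.node (.node (.I .com (.c 2306969673777850377 (.c 24 .nil)) (.l 12929 .nil)) (.I .ass (.c 12929 (.c 2306969673777850377 (.c 24 .nil))) .nil)) (.node (.I .ass (.c 2306969673777850377 (.c 12929 (.c 24 .nil))) .nil) (.I .com (.c 12929 (.c 2306969673777850377 .nil)) (.r 24 .nil)))))) (.node (.node (.node (.node (.I .com (.c 2306969673777850377 (.c 40 .nil)) (.l 4737 .nil)) (.I .ass (.c 4737 (.c 2306969673777850377 (.c 40 .nil))) .nil)) (.node (.I .ass (.c 2306969673777850377 (.c 4737 (.c 40 .nil))) .nil) (.I .com (.c 4737 (.c 2306969673777850377 .nil)) (.r 40 .nil)))) (.node (.node (.I .jac (.c 2718204105 (.c 16 (.c 40 .nil))) (.r 8257 .nil)) (.I .jac (.c 1310925001 (.c 8 (.c 48 .nil))) (.r 8321 .nil))) (.node (.I .jac (.c 2718204105 (.c 8 (.c 40 .nil))) (.r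 8321 .nil)) (.I .adp (.c 0 (.c 8257 (.c 15456208906582281 .nil))) .nil)))) (.node (.node (.node (.I .jac (.c 0 (.c 43954819 (.c 24 .nil))) (.r 8257 .nil)) (.I .adp (.c 0 (.c 32 (.c 8 .nil))) (.b 3561389332330953 .nil))) (.node (.I .adp (.c 0 (.c 8257 (.c 3561389332330953 .nil))) .nil) (.I .ass (.c 231046163358604041 (.c 40 (.c 8257 .nil))) .nil))) (.node (.node (.I .com (.c 8257 (.c 40 .nil)) (.l 231046163358604041 .nil)) (.I .ass (.c 59109065668069837641 (.c 40 (.c 8257 .nil))) .nil)) (.node (.I .com (.c 8257 (.c 40 .nil)) (.l 59109065668069837641 .nil)) (.I .ass (.c 9025011228269385 (.c 40 (.c 8257 .nil))) .nil)))))) (.node (.node (.node (.node (.node (.I .com (.c 8257 (.c 40 .nil)) (.l 9025011228269385 .nil)) (.I .ass (.c 231045467270827017 (.c 40 (.c 8257 .nil))) .nil)) (.node (.I .com (.c 8257 (.c 40 .nil)) (.l 231045467270827017 .nil)) (.I .ass (.c 59109068451510808329 (.c 40 (.c 8257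 .nil))) .nil))) (.node (.node (.I .com (.c 8257 (.c 40 .nil)) (.l 59109068451510808329 .nil)) (.I .ass (.c 9024908047478793 (.c 40 (.c 8257 .nil))) .nil)) (.node (.I .com (.c 8257 (.c 40 .nil)) (.l 9024908047478793 .nil)) (.I .ass (.c 2718204105 (.c 12929 (.c 8257 .nil))) .nil)))) (.node (.node (.node (.I .com (.c 8257 (.c 12929 .nil)) (.l 2718204105 .nil)) (.I .jac (.c 21099011 (.c 8 (.c 48 .nil))) (.r 8321 .nil))) (.node (.I .ass (.c 59109062884628932425 (.c 40 (.c 8321 .nil))) .nil) (.I .com (.c 8321 (.c 40 .nil)) (.l 59109062884628932425 .nil)))) (.node (.node (.I .ass (.c 35473026505545 (.c 40 (.c 8321 .nil))) .nil) (.I .com (.c 8321 (.c 40 .nil)) (.l 35473026505545 .nil))) (.node (.I .ass (.c 231045293249046537 (.c 40 (.c 8321 .nil))) .nil) (.I .com (.c 8321 (.c 40 .nil)) (.l 231045293249046537 .nil)))))) (.node (.node (.node (.node (.I .ass (.c 35466557976585 (.c 40 (.c 8321 .nil)))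 .nil) (.I .com (.c 8321 (.c 40 .nil)) (.l 35466557976585 .nil))) (.node (.I .adp (.c 0 (.c 32 (.c 8 .nil))) (.b 15038498931046793 .nil)) (.I .ass (.c 1310925001 (.c 18561 (.c 8257 .nil))) .nil))) (.node (.node (.I .com (.c 8257 (.c 18561 .nil)) (.l 1310925001 .nil)) (.I .jac (.c 43356675 (.c 16 (.c 40 .nil))) (.r 8257 .nil))) (.node (.I .adp (.c 0 (.c 32 (.c 16 .nil))) (.b 15038454533713289 .nil)) (.I .jac (.c 43356675 (.c 8 (.c 40 .nil))) (.r 8321 .nil))))) (.node (.node (.node (.I .ass (.c 13748198893136698121 (.c 24 (.c 8257 .nil))) .nil) (.I .com (.c 8257 (.c 24 .nil)) (.l 13748198893136698121 .nil))) (.node (.I .ass (.c 59109065668069837769 (.c 24 (.c 8257 .nil))) .nil) (.I .com (.c 8257 (.c 24 .nil)) (.l 59109065668069837769 .nil)))) (.node (.node (.I .ass (.c 9025011228269513 (.c 24 (.c 8257 .nil))) .nil) (.I .com (.c 8257 (.c 24 .nil)) (.l 9025011228269513 .nil))) (.node (.I .ass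 (.c 13748193523587632137 (.c 24 (.c 8257 .nil))) .nil) (.I .com (.c 8257 (.c 24 .nil)) (.l 13748193523587632137 .nil))))))))

noncomputable def c5_98 : Tr := (.node (.node (.node (.node (.node (.node (.I .ass (.c 59109074018392946441 (.c 24 (.c 8257 .nil))) .nil) (.I .com (.c 8257 (.c 24 .nil)) (.l 59109074018392946441 .nil))) (.node (.I .ass (.c 9024976834607113 (.c 24 (.c 8257 .nil))) .nil) (.I .com (.c 8257 (.c 24 .nil)) (.l 9024976834607113 .nil)))) (.node (.node (.I .ass (.c 33587401 (.c 18753 (.c 8257 .nil))) .nil) (.I .com (.c 8257 (.c 18753 .nil)) (.l 33587401 .nil))) (.node (.I .ass (.c 59109062884628932553 (.c 24 (.c 8321 .nil))) .nil) (.I .com (.c 8321 (.c 24 .nil)) (.l 59109062884628932553 .nil))))) (.node (.node (.node (.I .ass (.c 35473026505673 (.c 24 (.c 8321 .nil))) .nil) (.I .com (.c 8321 (.c 24 .nil)) (.l 35473026505673 .nil))) (.node (.I .ass (.c 13748192181200529417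 (.c 24 (.c 8321 .nil))) .nil) (.I .com (.c 8321 (.c 24 .nil)) (.l 13748192181200529417 .nil)))) (.node (.node (.I .ass (.c 35470870263817 (.c 24 (.c 8321 .nil))) .nil) (.I .com (.c 8321 (.c 24 .nil)) (.l 35470870263817 .nil))) (.node (.I .ass (.c 2105545 (.c 18753 (.c 8321 .nil))) .nil) (.I .com (.c 8321 (.c 18753 .nil)) (.l 2105545 .nil)))))) (.node (.node (.node (.node (.I .jac (.c 0 (.c 8 (.c 16 .nil))) (.b 15456253916349769 .nil)) (.I .adp (.c 8 (.c 16 (.c 32 .nil))) (.b 59109068451510808521 .nil))) (.node (.I .adp (.c 8 (.c 16 (.c 32 .nil))) (.b 231046163358604233 .nil)) (.I .adp (.c 8 (.c 16 (.c 32 .nil))) (.b 59109074018392946505 .nil)))) (.node (.node (.I .adp (.c 8 (.c 16 (.c 32 .nil))) (.b 231045989336561673 .nil)) (.I .jac (.c 35464401931209 (.c 32 (.c 48 .nil))) (.l 24 .nil))) (.node (.I .jac (.c 2105481 (.c 32 (.c 48 .nil))) (.b 40 (.l 24 .nil))) (.I .jac (.c 35464401931273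 (.c 32 (.c 40 .nil))) (.l 24 .nil))))) (.node (.node (.node (.I .jac (.c 2105481 (.c 32 (.c 40 .nil))) (.b 48 (.l 24 .nil))) (.I .com (.c 3396470626629796977786973438201765697400987898257132266220752339849 (.c 24 .nil)) .nil)) (.node (.I .com (.c 3396470626629700632970704854325517098868394792330189114561880245193 (.c 24 .nil)) .nil) (.I .com (.c 3396470626629796977786973438200431257896216519346689372397934459913 (.c 24 .nil)) .nil))) (.node (.node (.I .com (.c 3396470626629700632970704854324849879116009112338197520186506092553 (.c 24 .nil)) .nil) (.I .com (.c 14025210098083634057 (.c 24 .nil)) (.l 2049 .nil))) (.node (.I .com (.c 14025207386396218377 (.c 24 .nil)) (.l 2049 .nil)) (.I .jac (.c 43356739 (.c 32 (.c 40 .nil))) (.l 2049 .nil))))))) (.node (.node (.node (.node (.node (.I .jac (.c 21099139 (.c 32 (.c 48 .nil))) (.l 513 .nil)) (.I .jac (.c 12929 (.c 32 (.c 48 .nil))) (.l 24 (.l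 513 .nil)))) (.node (.I .com (.c 60768081417602405321 (.c 24 .nil)) (.l 513 .nil)) (.I .jac (.c 43356803 (.c 32 (.c 40 .nil))) (.l 513 .nil)))) (.node (.node (.I .jac (.c 18561 (.c 32 (.c 40 .nil))) (.l 24 (.l 513 .nil))) (.I .com (.c 60768084239834527625 (.c 24 .nil)) (.l 513 .nil))) (.node (.I .jac (.c 18561 (.c 32 (.c 40 .nil))) (.l 2105545 .nil)) (.I .jac (.c 513 (.c 43954819 (.c 32 .nil))) (.l 24 .nil))))) (.node (.node (.node (.I .jac (.c 513 (.c 21307523 (.c 48 .nil))) (.l 24 .nil)) (.I .com (.c 35464401931209 (.c 18689 .nil)) (.l 24 .nil))) (.node (.I .com (.c 29219431338613398809257443797502126642644029017639148646422466481929 (.c 24 .nil)) .nil) (.I .com (.c 29219771698758366859580286719263306435223679946214914193561312049929 (.c 24 .nil)) .nil))) (.node (.node (.I .com (.c 1911144019273992626116315788840329 (.c 24 .nil)) .nil) (.I .com (.c 15456208923426961 (.c 24 .nil)) .nil))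 (.node (.I .ass (.c 24 (.c 35464401931209 (.c 18689 .nil))) .nil) (.I .ass (.c 35464401931209 (.c 24 (.c 18689 .nil))) .nil))))) (.node (.node (.node (.node (.I .com (.c 24 (.c 35464401931209 .nil)) (.r 18689 .nil)) (.I .jac (.c 513 (.c 43356803 (.c 32 .nil))) (.l 40 .nil))) (.node (.I .tdb (.c 513 (.c 16 (.c 48 (.c 24 .nil)))) (.b 13057 .nil)) (.I .tdb (.c 0 (.c 8 (.c 24 (.c 48 .nil)))) (.b 16 (.b 13057 .nil))))) (.node (.node (.I .jac (.c 2049 (.c 43954755 (.c 32 .nil))) (.l 24 .nil)) (.I .com (.c 9024839260612553 (.c 18689 .nil)) (.l 24 .nil))) (.node (.I .com (.c 29219431338613398809257443797504083642721804881042225310597066977993 (.c 24 .nil)) .nil) (.I .com (.c 29220112062374340779692772142341321442323413549182896123316801125065 (.c 24 .nil)) .nil)))) (.node (.node (.node (.I .com (.c 1911155150127468949770067396021577 (.c 24 .nil)) .nil) (.I .com (.c 15456164165579921 (.c 24 .nil))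 .nil)) (.node (.I .ass (.c 24 (.c 9024839260612553 (.c 18689 .nil))) .nil) (.I .ass (.c 9024839260612553 (.c 24 (.c 18689 .nil))) .nil))) (.node (.node (.I .com (.c 24 (.c 9024839260612553 .nil)) (.r 18689 .nil)) (.I .com (.c 27664030750837463129608469963322037577907108401153871327735655354313 (.c 24 .nil)) .nil)) (.node (.I .adp (.c 0 (.c 16 (.c 32 .nil))) (.b 15038454533713289 .nil)) (.I .com (.c 9025011228269513 (.c 24 .nil)) (.b 8257 .nil))))))))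

noncomputable def c5_99 : Tr := (.node (.node (.node (.node (.node (.node (.I .jac (.c 21099011 (.c 32 (.c 48 .nil))) (.r 2113 .nil)) (.I .ass (.c 13748198893136698249 (.c 24 (.c 2113 .nil))) .nil)) (.node (.I .com (.c 2113 (.c 24 .nil)) (.l 13748198893136698249 .nil)) (.I .ass (.c 2306972423229201353 (.c 24 (.c 2113 .nil))) .nil))) (.node (.node (.I .com (.c 2113 (.c 24 .nil)) (.l 2306972423229201353 .nil)) (.I .ass (.c 13748196208362034185 (.c 24 (.c 2113 .nil))) .nil)) (.node (.I .com (.c 2113 (.c 24 .nil)) (.l 13748196208362034185 .nil)) (.I .ass (.c 2306971873338800137 (.c 24 (.c 2113 .nil))) .nil)))) (.node (.node (.node (.I .com (.c 2113 (.c 24 .nil)) (.l 2306971873338800137 .nil)) (.I .adp (.c 0 (.c 8 (.c 32 .nil))) (.b 15456208906582281 .nil))) (.node (.I .adp (.c 0 (.c 8 (.c 32 .nil))) (.b 15038498931046793 .nil)) (.I .jac (.c 33587529 (.c 8 (.c 48 .nil))) (.b 8385 .nil)))) (.node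 (.node (.I .jac (.c 1310924937 (.c 8 (.c 48 .nil))) (.b 8385 .nil)) (.I .jac (.c 1310925193 (.c 8 (.c 16 .nil))) (.b 8385 .nil))) (.node (.I .adp (.c 35473026505673 (.c 16 (.c 8385 .nil))) .nil) (.I .jac (.c 2049 (.c 24 (.c 32 .nil))) (.r 2737112393 .nil)))))) (.node (.node (.node (.node (.I .jac (.c 43059203 (.c 8 (.c 40 .nil))) (.b 8385 .nil)) (.I .adp (.c 59109074018392946377 (.c 16 (.c 8385 .nil))) .nil)) (.node (.I .jac (.c 16 (.c 24 (.c 32 .nil))) (.l 59109074018392946377 .nil)) (.I .jac (.c 59109074018392946377 (.c 24 (.c 32 .nil))) (.r 16 .nil)))) (.node (.node (.I .jac (.c 16 (.c 24 (.c 32 .nil))) (.l 15456163896880201 .nil)) (.I .adp (.c 2049 (.c 43954755 (.c 8385 .nil))) .nil)) (.node (.I .jac (.c 2049 (.c 24 (.c 32 .nil))) (.r 43954755 .nil)) (.I .jac (.c 9025011228269257 (.c 24 (.c 32 .nil))) (.r 40 .nil))))) (.node (.node (.node (.I .adp (.c 59109062884628932361 (.c 40 (.c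 8385 .nil))) .nil) (.I .adp (.c 9024839260612617 (.c 40 (.c 8385 .nil))) .nil)) (.node (.I .jac (.c 2737112201 (.c 24 (.c 32 .nil))) (.l 12801 .nil)) (.I .adp (.c 59109065668069837513 (.c 40 (.c 8385 .nil))) .nil))) (.node (.node (.I .adp (.c 14832803796618313 (.c 40 (.c 8385 .nil))) .nil) (.I .adp (.c 12801 (.c 43059267 (.c 8385 .nil))) .nil)) (.node (.I .jac (.c 43059267 (.c 24 (.c 32 .nil))) (.l 12801 .nil)) (.I .jac (.c 12801 (.c 24 (.c 32 .nil))) (.r 43059267 .nil))))))) (.node (.node (.node (.node (.node (.I .adp (.c 2718203977 (.c 12929 (.c 8385 .nil))) .nil) (.I .jac (.c 2718203977 (.c 24 (.c 32 .nil))) (.r 12929 .nil))) (.node (.I .adp (.c 2105737 (.c 12929 (.c 8385 .nil))) .nil) (.I .jac (.c 2105737 (.c 24 (.c 32 .nil))) (.r 12929 .nil)))) (.node (.node (.I .jac (.c 33587529 (.c 24 (.c 32 .nil))) (.r 18497 .nil)) (.I .adp (.c 15456118887243913 (.c 16 (.c 8385 .nil))) .nil)) (.node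 (.I .jac (.c 16 (.c 24 (.c 32 .nil))) (.l 15456118887243913 .nil)) (.I .jac (.c 15456118887243913 (.c 24 (.c 32 .nil))) (.r 16 .nil))))) (.node (.node (.node (.I .jac (.c 16 (.c 24 (.c 32 .nil))) (.l 3423058053194185 .nil)) (.I .adp (.c 14832759703961737 (.c 40 (.c 8385 .nil))) .nil)) (.node (.I .tdb (.c 24 (.c 32 (.c 18497 (.c 16 .nil)))) (.l 12801 .nil)) (.I .adp (.c 18497 (.c 16 (.c 8385 .nil))) (.l 12801 .nil)))) (.node (.node (.I .jac (.c 16 (.c 24 (.c 32 .nil))) (.l 18497 (.l 12801 .nil))) (.I .jac (.c 18497 (.c 24 (.c 32 .nil))) (.r 16 (.l 12801 .nil)))) (.node (.I .com (.c 58240646186319479625272581893243555306718883533327995256725321 (.c 16 .nil)) .nil) (.I .adp (.c 18497 (.c 40 (.c 8385 .nil))) (.l 2049 .nil)))))) (.node (.node (.node (.node (.I .adp (.c 9024839260612553 (.c 48 (.c 8385 .nil))) .nil) (.I .jac (.c 18433 (.c 24 (.c 32 .nil))) (.r 35718473 .nil))) (.node (.I .jac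 (.c 20891715 (.c 24 (.c 32 .nil))) (.l 18433 .nil)) (.I .jac (.c 12865 (.c 24 (.c 32 .nil))) (.l 2718204041 .nil)))) (.node (.node (.I .jac (.c 2105673 (.c 24 (.c 32 .nil))) (.r 18561 .nil)) (.I .com (.c 43059203 (.c 12865 .nil)) (.b 8385 .nil))) (.node (.I .jac (.c 16 (.c 24 (.c 32 .nil))) (.l 14629225721520521 .nil)) (.I .tdb (.c 24 (.c 32 (.c 12865 (.c 16 .nil)))) (.l 18433 .nil))))) (.node (.node (.node (.I .adp (.c 12865 (.c 16 (.c 8385 .nil))) (.l 18433 .nil)) (.I .jac (.c 16 (.c 24 (.c 32 .nil))) (.l 12865 (.l 18433 .nil)))) (.node (.I .jac (.c 12865 (.c 24 (.c 32 .nil))) (.r 16 (.l 18433 .nil))) (.I .com (.c 89098986658163792321215551618159489410825695875594978240569265993 (.c 16 .nil)) .nil))) (.node (.node (.I .com (.c 82361964593872257944173769947350247168133111217944544108999856009 (.c 16 .nil)) .nil) (.I .tdb (.c 8 (.c 12801 (.c 16 (.c 48 .nil)))) (.b 8385 .nil))) (.node (.I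 .tdb (.c 513 (.c 40 (.c 16 (.c 48 .nil)))) (.b 8385 .nil)) (.I .tdb (.c 0 (.c 8 (.c 16 (.c 48 .nil)))) (.b 40 (.b 8385 .nil)))))))))

noncomputable def c5_100 : Tr := (.node (.node (.node (.node (.node (.node (.I .jac (.c 8385 (.c 40 (.c 48 .nil))) (.l 33587273 .nil)) (.I .jac (.c 8385 (.c 40 (.c 48 .nil))) (.l 2105481 .nil))) (.node (.I .com (.c 43954691 (.c 2113 .nil)) (.b 8385 .nil)) (.I .adp (.c 14629225721520329 (.c 40 (.c 8385 .nil))) .nil))) (.node (.node (.I .jac (.c 14629225721520329 (.c 24 (.c 32 .nil))) (.r 40 .nil)) (.I .adp (.c 3423058053193929 (.c 48 (.c 8385 .nil))) .nil)) (.node (.I .jac (.c 3423058053193929 (.c 24 (.c 32 .nil))) (.r 48 .nil)) (.I .com (.c 59109065668069837769 (.c 8 .nil)) (.b 8385 .nil))))) (.node (.node (.node (.I .adp (.c 59109065668069837769 (.c 8 (.c 8385 .nil))) .nil) (.I .jac (.c 8 (.c 24 (.c 32 .nil))) (.l 59109065668069837769 .nil))) (.node (.I .jac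 (.c 59109065668069837769 (.c 24 (.c 32 .nil))) (.r 8 .nil)) (.I .jac (.c 513 (.c 24 (.c 32 .nil))) (.r 2756086089 .nil)))) (.node (.node (.I .com (.c 59109074018392946441 (.c 8 .nil)) (.b 8385 .nil)) (.I .adp (.c 59109074018392946441 (.c 8 (.c 8385 .nil))) .nil)) (.node (.I .jac (.c 8 (.c 24 (.c 32 .nil))) (.l 59109074018392946441 .nil)) (.I .jac (.c 59109074018392946441 (.c 24 (.c 32 .nil))) (.r 8 .nil)))))) (.node (.node (.node (.node (.I .adp (.c 15456208906582089 (.c 8 (.c 8385 .nil))) .nil) (.I .jac (.c 8 (.c 24 (.c 32 .nil))) (.l 15456208906582089 .nil))) (.node (.I .jac (.c 15456208906582089 (.c 24 (.c 32 .nil))) (.r 8 .nil)) (.I .jac (.c 8 (.c 24 (.c 32 .nil))) (.l 3491688652046793 .nil)))) (.node (.node (.I .adp (.c 20685315 (.c 18561 (.c 8385 .nil))) .nil) (.I .jac (.c 20685315 (.c 24 (.c 32 .nil))) (.r 18561 .nil))) (.node (.I .tdb (.c 24 (.c 32 (.c 18561 (.c 8 .nil)))) (.l 12801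 .nil)) (.I .adp (.c 8 (.c 18561 (.c 8385 .nil))) (.l 12801 .nil))))) (.node (.node (.node (.I .jac (.c 8 (.c 24 (.c 32 .nil))) (.r 18561 (.l 12801 .nil))) (.I .tdb (.c 0 (.c 40 (.c 8 (.c 32 .nil)))) (.b 24 (.l 18561 .nil)))) (.node (.I .adp (.c 18561 (.c 40 (.c 8385 .nil))) (.l 513 .nil)) (.I .jac (.c 8 (.c 24 (.c 32 .nil))) (.l 14832759703961993 .nil)))) (.node (.node (.I .adp (.c 42762755 (.c 12929 (.c 8385 .nil))) .nil) (.I .jac (.c 42762755 (.c 24 (.c 32 .nil))) (.r 12929 .nil))) (.node (.I .tdb (.c 24 (.c 32 (.c 12929 (.c 8 .nil)))) (.l 18433 .nil)) (.I .adp (.c 8 (.c 12929 (.c 8385 .nil))) (.l 18433 .nil))))))) (.node (.node (.node (.node (.node (.I .jac (.c 8 (.c 24 (.c 32 .nil))) (.r 12929 (.l 18433 .nil))) (.I .tdb (.c 0 (.c 48 (.c 8 (.c 24 .nil)))) (.b 32 (.l 12929 .nil)))) (.node (.I .tdb (.c 16 (.c 40 (.c 18433 (.c 8 .nil)))) (.b 8385 .nil)) (.I .tdb (.c 16 (.c 12801 (.c 8 (.c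 48 .nil)))) (.b 8385 .nil)))) (.node (.node (.I .tdb (.c 2049 (.c 40 (.c 8 (.c 48 .nil)))) (.b 8385 .nil)) (.I .tdb (.c 0 (.c 16 (.c 48 (.c 8 .nil)))) (.b 40 (.b 8385 .nil)))) (.node (.I .tdb (.c 40 (.c 18433 (.c 8 (.c 16 .nil)))) (.b 8385 .nil)) (.I .com (.c 58240646186293806597287516734586359580725313507483542651388745 (.c 16 .nil)) .nil)))) (.node (.node (.node (.I .com (.c 6441087201746467744040883352347560516873603966715960214409 (.c 16 .nil)) .nil) (.I .tdb (.c 48 (.c 12801 (.c 8 (.c 16 .nil)))) (.b 8385 .nil))) (.node (.I .tdb (.c 0 (.c 40 (.c 8 (.c 16 .nil)))) (.b 48 (.b 8385 .nil))) (.I .adp (.c 8 (.c 18753 (.c 8385 .nil))) (.l 2049 .nil)))) (.node (.node (.I .adp (.c 16 (.c 18753 (.c 8385 .nil))) (.l 513 .nil)) (.I .adp (.c 43954691 (.c 16 (.c 32 .nil))) (.b 4673 .nil))) (.node (.I .adp (.c 43954691 (.c 16 (.c 24 .nil))) (.b 8257 .nil)) (.I .adp (.c 43954691 (.c 16 (.c 8 .nil)))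 (.b 8385 .nil)))))) (.node (.node (.node (.node (.I .adp (.c 43059203 (.c 40 (.c 32 .nil))) (.b 4673 .nil)) (.I .adp (.c 43059203 (.c 40 (.c 24 .nil))) (.b 8257 .nil))) (.node (.I .adp (.c 43059203 (.c 40 (.c 8 .nil))) (.b 8385 .nil)) (.I .adp (.c 0 (.c 15456208906582153 (.c 8385 .nil))) .nil))) (.node (.node (.I .jac (.c 0 (.c 24 (.c 32 .nil))) (.r 15456208906582153 .nil)) (.I .adp (.c 0 (.c 14832803796618633 (.c 8385 .nil))) .nil)) (.node (.I .jac (.c 0 (.c 24 (.c 32 .nil))) (.r 14832803796618633 .nil)) (.I .com (.c 89098986658132392148749725166171908722226795453828911740370993993 (.c 16 .nil)) .nil)))) (.node (.node (.node (.I .com (.c 82361964593842655846796627385029214460608705653583385784706843529 (.c 16 .nil)) .nil) (.I .jac (.c 8385 (.c 40 (.c 48 .nil))) (.l 2113 (.l 0 .nil)))) (.node (.I .adp (.c 8257 (.c 24 (.c 13748198893136698121 .nil))) .nil) (.I .com (.c 1512103782441961050885067571858279445321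 (.c 8257 .nil)) .nil))) (.node (.node (.I .com (.c 1512103782441961050885067571858279445385 (.c 4673 .nil)) .nil) (.I .com (.c 8257 (.c 24 .nil)) (.b 59109065668069837769 .nil))) (.node (.I .adp (.c 24 (.c 32 (.c 8 .nil))) (.b 59109065668069837769 .nil)) (.I .com (.c 27951053153217539014174880853583831179081 (.c 8257 .nil)) .nil)))))))

noncomputable def c5_101 : Tr := (.node (.node (.node (.node (.node (.node (.I .adp (.c 4673 (.c 32 (.c 59109065668069837769 .nil))) .nil) (.I .com (.c 27951053153217539014174880853583831179145 (.c 4673 .nil)) .nil)) (.node (.I .com (.c 8257 (.c 24 .nil)) (.b 9025011228269513 .nil)) (.I .adp (.c 24 (.c 32 (.c 8 .nil))) (.b 9025011228269513 .nil)))) (.node (.node (.I .com (.c 27951061050494848518852093974251956532041 (.c 8257 .nil)) .nil) (.I .com (.c 27951061050494848518852093974251956532105 (.c 4673 .nil)) .nil)) (.node (.I .com (.c 8257 (.c 24 .nil)) (.b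 9024976834607113 .nil)) (.I .adp (.c 24 (.c 32 (.c 8 .nil))) (.b 9024976834607113 .nil))))) (.node (.node (.node (.I .adp (.c 4673 (.c 32 (.c 9024976834607113 .nil))) .nil) (.I .adp (.c 8193 (.c 24 (.c 15456208906582153 .nil))) .nil)) (.node (.I .adp (.c 4673 (.c 32 (.c 15456208906582089 .nil))) .nil) (.I .adp (.c 8193 (.c 24 (.c 15456163896880329 .nil))) .nil))) (.node (.node (.I .adp (.c 8193 (.c 24 (.c 3491710045130185 .nil))) .nil) (.I .adp (.c 4609 (.c 32 (.c 3491710045130185 .nil))) .nil)) (.node (.I .tdb (.c 16 (.c 18497 (.c 24 (.c 40 .nil)))) (.l 8193 .nil)) (.I .tdb (.c 16 (.c 18497 (.c 32 (.c 40 .nil)))) (.l 4609 .nil)))))) (.node (.node (.node (.node (.I .tdb (.c 2113 (.c 48 (.c 24 (.c 40 .nil)))) (.l 8193 .nil)) (.I .tdb (.c 8 (.c 16 (.c 40 (.c 24 .nil)))) (.b 48 (.l 8193 .nil)))) (.node (.I .tdb (.c 2113 (.c 48 (.c 32 (.c 40 .nil)))) (.l 4609 .nil)) (.I .tdb (.c 8 (.c 16 (.c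 32 (.c 40 .nil)))) (.b 48 (.l 4609 .nil))))) (.node (.node (.I .jac (.c 8786435 (.c 16 (.c 48 .nil))) (.l 12865 .nil)) (.I .com (.c 3051551917824233633037003976713 (.c 12865 .nil)) .nil)) (.node (.I .jac (.c 8786435 (.c 8 (.c 40 .nil))) (.r 18561 .nil)) (.I .tdb (.c 8 (.c 40 (.c 18561 (.c 24 .nil)))) (.l 8193 .nil))))) (.node (.node (.node (.I .ass (.c 2306971873338799817 (.c 18561 (.c 24 .nil))) .nil) (.I .tdb (.c 8 (.c 40 (.c 18561 (.c 32 .nil)))) (.l 4609 .nil))) (.node (.I .ass (.c 231045989336561353 (.c 18561 (.c 32 .nil))) .nil) (.I .adp (.c 4673 (.c 32 (.c 3491688652046793 .nil))) .nil))) (.node (.node (.I .ass (.c 8257 (.c 59109065668069837641 (.c 40 .nil))) .nil) (.I .ass (.c 59109065668069837641 (.c 8257 (.c 40 .nil))) .nil)) (.node (.I .com (.c 8257 (.c 59109065668069837641 .nil)) (.r 40 .nil)) (.I .com (.c 2718204041 (.c 3561367726845257 .nil)) .nil)))))) (.node (.node (.node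 (.node (.node (.I .com (.c 2718204041 (.c 3632106110100617 .nil)) .nil) (.I .ass (.c 4673 (.c 59109065668069837705 (.c 40 .nil))) .nil)) (.node (.I .ass (.c 59109065668069837705 (.c 4673 (.c 40 .nil))) .nil) (.I .com (.c 4673 (.c 59109065668069837705 .nil)) (.r 40 .nil)))) (.node (.node (.I .com (.c 101465489572716653961425451675657 (.c 8257 .nil)) .nil) (.I .com (.c 105533754468735423754529113698313 (.c 4673 .nil)) .nil)) (.node (.I .com (.c 1809230235455484827416425822613449 (.c 8257 .nil)) .nil) (.I .ass (.c 13748196208362033865 (.c 18561 (.c 24 .nil))) .nil)))) (.node (.node (.node (.I .ass (.c 13748192181200529289 (.c 18561 (.c 24 .nil))) .nil) (.I .tdb (.c 0 (.c 40 (.c 24 (.c 32 .nil)))) (.b 8 (.l 18561 .nil)))) (.node (.I .tdb (.c 0 (.c 40 (.c 18561 (.c 32 .nil)))) (.l 4673 .nil)) (.I .com (.c 1859570876265457888126924734394313 (.c 4673 .nil)) .nil))) (.node (.node (.I .ass (.c 13748194865974800073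 (.c 18561 (.c 32 .nil))) .nil) (.I .ass (.c 13748192181200529225 (.c 18561 (.c 32 .nil))) .nil)) (.node (.I .com (.c 3051551917824233633037003976649 (.c 18497 .nil)) .nil) (.I .jac (.c 8786435 (.c 8 (.c 48 .nil))) (.r 12929 .nil)))))) (.node (.node (.node (.node (.I .tdb (.c 16 (.c 40 (.c 18497 (.c 24 .nil)))) (.l 8193 .nil)) (.I .ass (.c 2306972423229201097 (.c 12929 (.c 24 .nil))) .nil)) (.node (.I .tdb (.c 16 (.c 40 (.c 18497 (.c 32 .nil)))) (.l 4609 .nil)) (.I .ass (.c 231046163358603977 (.c 12929 (.c 32 .nil))) .nil))) (.node (.node (.I .tdb (.c 2113 (.c 40 (.c 24 (.c 48 .nil)))) (.l 8193 .nil)) (.I .tdb (.c 8 (.c 16 (.c 48 (.c 24 .nil)))) (.b 40 (.l 8193 .nil)))) (.node (.I .tdb (.c 2113 (.c 40 (.c 32 (.c 48 .nil)))) (.l 4609 .nil)) (.I .tdb (.c 8 (.c 16 (.c 32 (.c 48 .nil)))) (.b 40 (.l 4609 .nil)))))) (.node (.node (.node (.I .jac (.c 8786499 (.c 16 (.c 40 .nil))) (.l 18433 .nil))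 (.I .ass (.c 59109071234951844553 (.c 12929 (.c 24 .nil))) .nil)) (.node (.I .ass (.c 59109062884628932489 (.c 12929 (.c 24 .nil))) .nil) (.I .tdb (.c 0 (.c 48 (.c 24 (.c 32 .nil)))) (.b 8 (.l 12929 .nil))))) (.node (.node (.I .tdb (.c 16 (.c 40 (.c 18433 (.c 32 .nil)))) (.l 4673 .nil)) (.I .ass (.c 59109068451510808265 (.c 12929 (.c 32 .nil))) .nil)) (.node (.I .ass (.c 59109062884628932425 (.c 12929 (.c 32 .nil))) .nil) (.I .tdb (.c 16 (.c 12801 (.c 24 (.c 48 .nil)))) (.l 8257 .nil))))))))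

noncomputable def c5_102 : Tr := (.node (.node (.node (.node (.node (.node (.I .tdb (.c 0 (.c 40 (.c 24 (.c 48 .nil)))) (.b 16 (.l 8257 .nil))) (.I .com (.c 1310924937 (.c 15246325749294217 .nil)) .nil)) (.node (.I .tdb (.c 16 (.c 12801 (.c 32 (.c 48 .nil)))) (.l 4673 .nil)) (.I .jac (.c 174695689 (.c 40 (.c 48 .nil))) (.l 2049 .nil)))) (.node (.node (.I .jac (.c 545424585 (.c 40 (.c 48 .nil))) (.l 2049 .nil)) (.I .jac (.c 617611520074121 (.c 8 (.c 48 .nil))) (.r 16 .nil))) (.node (.I .jac (.c 3632106110100553 (.c 8 (.c 48 .nil))) (.l 16 .nil)) (.I .com (.c 89105409797125410142448901339435736082031236869394800793411027657 (.c 16 .nil)) .nil)))) (.node (.node (.node (.I .com (.c 59109062884799392929 (.c 16 .nil)) .nil) (.I .com (.c 89105409797125410142448901338895383783226817472525976897107939337 (.c 16 .nil)) .nil)) (.node (.I .jac (.c 617611520074185 (.c 8 (.c 40 .nil))) (.r 16 .nil))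 (.I .jac (.c 18433 (.c 8 (.c 21307587 .nil))) (.l 16 .nil)))) (.node (.node (.I .com (.c 105537558368807841777834019458377 (.c 16 .nil)) .nil) (.I .jac (.c 8786435 (.c 40 (.c 48 .nil))) (.l 2113 .nil))) (.node (.I .jac (.c 24 (.c 40 (.c 48 .nil))) (.l 2113 (.l 8193 .nil))) (.I .jac (.c 24 (.c 40 (.c 48 .nil))) (.l 2049 (.l 8257 .nil))))))) (.node (.node (.node (.node (.I .ass (.c 8257 (.c 2049 (.c 2775125321 .nil))) .nil) (.I .ass (.c 2049 (.c 8257 (.c 2775125321 .nil))) .nil)) (.node (.I .com (.c 8257 (.c 2049 .nil)) (.r 2775125321 .nil)) (.I .ass (.c 8257 (.c 2049 (.c 1350544777 .nil))) .nil))) (.node (.node (.I .ass (.c 2049 (.c 8257 (.c 1350544777 .nil))) .nil) (.I .com (.c 8257 (.c 2049 .nil)) (.r 1350544777 .nil))) (.node (.I .jac (.c 32 (.c 40 (.c 48 .nil))) (.l 2049 (.l 4673 .nil))) (.I .ass (.c 4673 (.c 2049 (.c 2794230089 .nil))) .nil)))) (.node (.node (.node (.I .ass (.c 2049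 (.c 4673 (.c 2794230089 .nil))) .nil) (.I .com (.c 4673 (.c 2049 .nil)) (.r 2794230089 .nil))) (.node (.I .ass (.c 4673 (.c 2049 (.c 1363882377 .nil))) .nil) (.I .ass (.c 2049 (.c 4673 (.c 1363882377 .nil))) .nil))) (.node (.node (.I .com (.c 4673 (.c 2049 .nil)) (.r 1363882377 .nil)) (.I .tdb (.c 4609 (.c 32 (.c 40 (.c 16 .nil)))) (.b 18497 .nil))) (.node (.I .tdb (.c 0 (.c 24 (.c 40 (.c 16 .nil)))) (.b 32 (.b 18497 .nil))) (.I .tdb (.c 4609 (.c 32 (.c 48 (.c 16 .nil)))) (.l 12865 .nil))))))) (.node (.node (.node (.node (.node (.I .tdb (.c 0 (.c 24 (.c 48 (.c 16 .nil)))) (.b 32 (.l 12865 .nil))) (.I .tdb (.c 24 (.c 8193 (.c 16 (.c 40 .nil)))) (.b 18497 .nil))) (.node (.I .tdb (.c 24 (.c 8193 (.c 16 (.c 48 .nil)))) (.l 12865 .nil)) (.I .tdb (.c 4673 (.c 32 (.c 40 (.c 16 .nil)))) (.l 18433 .nil)))) (.node (.node (.I .tdb (.c 8 (.c 24 (.c 40 (.c 16 .nil)))) (.b 32 (.l 18433 .nil))) (.I .com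 (.c 244148670041478153 (.c 40 .nil)) (.l 2049 .nil))) (.node (.I .tdb (.c 24 (.c 8257 (.c 16 (.c 48 .nil)))) (.l 12801 .nil)) (.I .tdb (.c 24 (.c 8257 (.c 16 (.c 48 .nil)))) (.b 12801 .nil))))) (.node (.node (.node (.I .com (.c 2379903823379378185 (.c 40 .nil)) (.l 2049 .nil)) (.I .adp (.c 8 (.c 8385 (.c 13748198893136698121 .nil))) .nil)) (.node (.I .adp (.c 8 (.c 8385 (.c 59109065668069837769 .nil))) .nil) (.I .com (.c 6250090978991937044041231628596924245378111308027420245797076845336894728663448393 (.c 8 .nil)) .nil))) (.node (.node (.I .com (.c 6250090978991937044041231628596924245349489429598525485846561767342824885536036745 (.c 8 .nil)) .nil) (.I .adp (.c 8 (.c 32 (.c 24 .nil))) (.b 9025011228269513 .nil))) (.node (.I .jac (.c 13748193523587632137 (.c 24 (.c 32 .nil))) (.l 8 .nil)) (.I .jac (.c 59109074018392946441 (.c 24 (.c 32 .nil))) (.l 8 .nil)))))) (.node (.node (.node (.node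 (.I .com (.c 6250094510787921478576950273967337931416503726867853210418213585316883023165848393 (.c 8 .nil)) .nil) (.I .com (.c 6250094510787921478576950273967337931387881840352146485534909041087249019677005705 (.c 8 .nil)) .nil)) (.node (.I .adp (.c 8 (.c 8385 (.c 9024976834607113 .nil))) .nil) (.I .adp (.c 8 (.c 32 (.c 43954819 .nil))) (.b 4609 .nil)))) (.node (.node (.I .adp (.c 8 (.c 32 (.c 24 .nil))) (.b 15456208906582089 .nil)) (.I .adp (.c 8 (.c 8385 (.c 15456208906582089 .nil))) .nil)) (.node (.I .jac (.c 15456208906582089 (.c 24 (.c 32 .nil))) (.l 8 .nil)) (.I .adp (.c 8 (.c 32 (.c 24 .nil))) (.b 3491688652046793 .nil))))) (.node (.node (.node (.I .adp (.c 8 (.c 8385 (.c 3491688652046793 .nil))) .nil) (.I .com (.c 14502320647155142518722987525103327713070509053182658461137079954544965605321 (.c 16 .nil)) .nil)) (.node (.I .com (.c 14502320647155137690838865937963339523891584194807221604892938200835979314121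 (.c 16 .nil)) .nil) (.I .jac (.c 537002057 (.c 24 (.c 40 .nil))) (.b 48 (.l 16 .nil))))) (.node (.node (.I .com (.c 14502320647155142518722987525103327800267944149954142344186607676513272373065 (.c 16 .nil)) .nil) (.I .com (.c 14502320647155137690838865937963339480292866646421486920467272293701234581513 (.c 16 .nil)) .nil)) (.node (.I .jac (.c 580749782704521 (.c 24 (.c 48 .nil))) (.l 16 .nil)) (.I .com (.c 58240646186319479625272581887717718545853334101767720972064713 (.c 16 .nil)) .nil)))))))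

noncomputable def c5_103 : Tr := (.node (.node (.node (.node (.node (.node (.I .com (.c 58240646186242460541317411874801925428841500682353038660420553 (.c 16 .nil)) .nil) (.I .com (.c 58240646186293806597287516726297604439428816240995578852399113 (.c 16 .nil)) .nil)) (.node (.I .jac (.c 580749782704585 (.c 24 (.c 40 .nil))) (.l 16 .nil)) (.I .com (.c 58240646186242460541317411872039007048410552847425348944764937 (.c 16 .nil)) .nil))) (.node (.node (.I .jac (.c 20891715 (.c 24 (.c 48 .nil))) (.l 8193 .nil)) (.I .com (.c 59934268409707442121 (.c 16 .nil)) (.l 8193 .nil))) (.node (.I .jac (.c 18497 (.c 24 (.c 40 .nil))) (.l 16 (.l 8193 .nil))) (.I .com (.c 59934274015313491785 (.c 16 .nil)) (.l 8193 .nil))))) (.node (.node (.node (.I .jac (.c 18497 (.c 24 (.c 40 .nil))) (.l 537002121 .nil)) (.I .com (.c 29219431338612914847243612605231262589304642802559849230226626121609 (.c 16 .nil)) .nil))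 (.node (.I .tdb (.c 513 (.c 32 (.c 48 (.c 16 .nil)))) (.b 12993 .nil)) (.I .tdb (.c 0 (.c 8 (.c 16 (.c 48 .nil)))) (.b 32 (.b 12993 .nil))))) (.node (.node (.I .tdb (.c 8 (.c 8193 (.c 16 (.c 48 .nil)))) (.b 12993 .nil)) (.I .adp (.c 0 (.c 8385 (.c 15456208906582153 .nil))) .nil)) (.node (.I .adp (.c 0 (.c 8385 (.c 15456163896880329 .nil))) .nil) (.I .adp (.c 0 (.c 32 (.c 24 .nil))) (.b 3491710045130185 .nil)))))) (.node (.node (.node (.node (.I .jac (.c 43059203 (.c 24 (.c 40 .nil))) (.r 8257 .nil)) (.I .jac (.c 0 (.c 8 (.c 24 .nil))) (.b 15456208906582345 .nil))) (.node (.I .adp (.c 8 (.c 24 (.c 32 .nil))) (.b 13748198893136698121 .nil)) (.I .adp (.c 8 (.c 24 (.c 32 .nil))) (.b 59109065668069837769 .nil)))) (.node (.node (.I .adp (.c 8 (.c 24 (.c 32 .nil))) (.b 9025011228269513 .nil)) (.I .adp (.c 8 (.c 24 (.c 32 .nil))) (.b 9024976834607113 .nil))) (.node (.I .jac (.c 2105545 (.c 32 (.c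 48 .nil))) (.b 40 (.l 16 .nil))) (.I .jac (.c 2105545 (.c 32 (.c 40 .nil))) (.b 48 (.l 16 .nil)))))) (.node (.node (.node (.I .com (.c 1459010655789630753386011620242688722788795035921630570491455967829541833 (.c 16 .nil)) .nil) (.I .com (.c 1459010655789630753386011620242688285484044689371562239751434016994238473 (.c 16 .nil)) .nil)) (.node (.I .jac (.c 59555558875529 (.c 32 (.c 48 .nil))) (.l 16 .nil)) (.I .com (.c 6441087201746467744040883294235731025544972414060110642185 (.c 16 .nil)) .nil))) (.node (.node (.I .jac (.c 20891715 (.c 32 (.c 48 .nil))) (.l 4609 .nil)) (.I .jac (.c 12865 (.c 32 (.c 48 .nil))) (.l 16 (.l 4609 .nil)))) (.node (.I .com (.c 14025210098083634057 (.c 16 .nil)) (.l 4609 .nil)) (.I .com (.c 14025207386396218377 (.c 16 .nil)) (.l 4609 .nil))))))) (.node (.node (.node (.node (.node (.I .jac (.c 12865 (.c 32 (.c 48 .nil))) (.l 169943177 .nil)) (.I .jac (.c 43059267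 (.c 32 (.c 40 .nil))) (.l 4609 .nil))) (.node (.I .jac (.c 12993 (.c 32 (.c 48 .nil))) (.l 2105481 .nil)) (.I .jac (.c 18625 (.c 32 (.c 40 .nil))) (.l 2105481 .nil)))) (.node (.node (.I .com (.c 29219431338613398809257443797502126642644029017639148646422466481993 (.c 16 .nil)) .nil) (.I .tdb (.c 513 (.c 24 (.c 40 (.c 16 .nil)))) (.b 18689 .nil))) (.node (.I .tdb (.c 0 (.c 8 (.c 16 (.c 40 .nil)))) (.b 24 (.b 18689 .nil))) (.I .tdb (.c 8 (.c 4609 (.c 16 (.c 40 .nil)))) (.b 18689 .nil))))) (.node (.node (.node (.I .tdb (.c 0 (.c 24 (.c 40 (.c 16 .nil)))) (.b 8 (.b 18689 .nil))) (.I .adp (.c 0 (.c 24 (.c 43954819 .nil))) (.b 8257 .nil))) (.node (.I .adp (.c 0 (.c 24 (.c 32 .nil))) (.b 15456208906582153 .nil)) (.I .adp (.c 0 (.c 24 (.c 32 .nil))) (.b 15456163896880329 .nil)))) (.node (.node (.I .adp (.c 0 (.c 24 (.c 32 .nil))) (.b 3491710045130185 .nil)) (.I .jac (.c 43059203 (.c 32 (.c 40 .nil)))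 (.r 4673 .nil))) (.node (.I .jac (.c 513 (.c 12929 (.c 48 .nil))) (.b 8385 .nil)) (.I .jac (.c 513 (.c 16 (.c 40 .nil))) (.b 48 (.b 8385 .nil))))))) (.node (.node (.node (.node (.I .adp (.c 0 (.c 8 (.c 43954819 .nil))) (.b 8385 .nil)) (.I .com (.c 35473026505673 (.c 16 .nil)) (.b 8385 .nil))) (.node (.I .adp (.c 2718203977 (.c 40 (.c 32 .nil))) (.b 4737 .nil)) (.I .adp (.c 2718203977 (.c 40 (.c 24 .nil))) (.b 8321 .nil)))) (.node (.node (.I .adp (.c 2718203977 (.c 40 (.c 16 .nil))) (.b 8385 .nil)) (.I .adp (.c 2105737 (.c 40 (.c 32 .nil))) (.b 4737 .nil))) (.node (.I .adp (.c 2105737 (.c 40 (.c 24 .nil))) (.b 8321 .nil)) (.I .adp (.c 2105737 (.c 40 (.c 16 .nil))) (.b 8385 .nil))))) (.node (.node (.node (.I .adp (.c 42762755 (.c 40 (.c 32 .nil))) (.b 4737 .nil)) (.I .adp (.c 42762755 (.c 40 (.c 24 .nil))) (.b 8321 .nil))) (.node (.I .adp (.c 42762755 (.c 40 (.c 16 .nil))) (.b 8385 .nil))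 (.I .adp (.c 20685315 (.c 48 (.c 32 .nil))) (.b 4737 .nil)))) (.node (.node (.I .adp (.c 20685315 (.c 48 (.c 24 .nil))) (.b 8321 .nil)) (.I .adp (.c 20685315 (.c 48 (.c 16 .nil))) (.b 8385 .nil))) (.node (.I .adp (.c 8321 (.c 24 (.c 13748198893136698057 .nil))) .nil) (.I .com (.c 1512103782441961036806911905286300602185 (.c 8321 .nil)) .nil)))))))

noncomputable def c5_104 : Tr := (.node (.node (.node (.node (.node (.node (.I .com (.c 1512103782441961036806911905286300602249 (.c 4737 .nil)) .nil) (.I .com (.c 8321 (.c 24 .nil)) (.b 59109062884628932553 .nil))) (.node (.I .adp (.c 24 (.c 32 (.c 16 .nil))) (.b 59109062884628932553 .nil)) (.I .com (.c 27951050520792141000852311054881784782665 (.c 8321 .nil)) .nil))) (.node (.node (.I .com (.c 27951050520792141000852311054881784782729 (.c 4737 .nil)) .nil) (.I .adp (.c 8321 (.c 24 (.c 35473026505673 .nil))) .nil)) (.node (.I .adp (.c 4737 (.c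 32 (.c 13748192181200529417 .nil))) .nil) (.I .adp (.c 8321 (.c 24 (.c 59109074018392946377 .nil))) .nil)))) (.node (.node (.node (.I .com (.c 27951061050494848458324402179417579409225 (.c 8321 .nil)) .nil) (.I .adp (.c 4737 (.c 32 (.c 59109074018392946377 .nil))) .nil)) (.node (.I .com (.c 27951061050494848458324402179417579409289 (.c 4737 .nil)) .nil) (.I .com (.c 8321 (.c 24 .nil)) (.b 35470870263817 .nil)))) (.node (.node (.I .adp (.c 24 (.c 32 (.c 16 .nil))) (.b 35470870263817 .nil)) (.I .adp (.c 8321 (.c 24 (.c 35470870263817 .nil))) .nil)) (.node (.I .jac (.c 18497 (.c 4737 (.c 32 .nil))) (.l 12801 .nil)) (.I .com (.c 93738611484300510920650542513993 (.c 8321 .nil)) .nil))))) (.node (.node (.node (.node (.I .ass (.c 8321 (.c 59109062884628932425 (.c 40 .nil))) .nil) (.I .ass (.c 59109062884628932425 (.c 8321 (.c 40 .nil))) .nil)) (.node (.I .com (.c 8321 (.c 59109062884628932425 .nil))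 (.r 40 .nil)) (.I .com (.c 2718203977 (.c 3632106110100681 .nil)) .nil))) (.node (.node (.I .tdb (.c 513 (.c 48 (.c 24 (.c 40 .nil)))) (.l 8321 .nil)) (.I .tdb (.c 0 (.c 8 (.c 24 (.c 40 .nil)))) (.b 48 (.l 8321 .nil)))) (.node (.I .com (.c 1809230235455469428084446102834121 (.c 8321 .nil)) .nil) (.I .ass (.c 8321 (.c 1310925001 (.c 18497 .nil))) .nil)))) (.node (.node (.node (.I .ass (.c 1310925001 (.c 8321 (.c 18497 .nil))) .nil) (.I .com (.c 8321 (.c 1310925001 .nil)) (.r 18497 .nil))) (.node (.I .com (.c 18497 (.c 8321 .nil)) (.l 1310925001 .nil)) (.I .ass (.c 8321 (.c 12801 (.c 2737112265 .nil))) .nil))) (.node (.node (.I .ass (.c 12801 (.c 8321 (.c 2737112265 .nil))) .nil) (.I .com (.c 8321 (.c 12801 .nil)) (.r 2737112265 .nil))) (.node (.I .ass (.c 13748196208362033929 (.c 18497 (.c 24 .nil))) .nil) (.I .ass (.c 13748193523587632009 (.c 18497 (.c 24 .nil))) .nil)))))) (.node (.node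 (.node (.node (.node (.I .tdb (.c 0 (.c 40 (.c 16 (.c 24 .nil)))) (.b 32 (.l 18497 .nil))) (.I .tdb (.c 0 (.c 40 (.c 24 (.c 32 .nil)))) (.b 16 (.l 18497 .nil)))) (.node (.I .adp (.c 4737 (.c 32 (.c 3423058053194185 .nil))) .nil) (.I .com (.c 93738611484300510920650542514057 (.c 4737 .nil)) .nil))) (.node (.node (.I .tdb (.c 8 (.c 18433 (.c 32 (.c 40 .nil)))) (.l 4737 .nil)) (.I .tdb (.c 0 (.c 48 (.c 32 (.c 40 .nil)))) (.b 8 (.l 4737 .nil)))) (.node (.I .ass (.c 4737 (.c 59109062884628932489 (.c 40 .nil))) .nil) (.I .ass (.c 59109062884628932489 (.c 4737 (.c 40 .nil))) .nil)))) (.node (.node (.node (.I .com (.c 4737 (.c 59109062884628932489 .nil)) (.r 40 .nil)) (.I .tdb (.c 513 (.c 48 (.c 32 (.c 40 .nil)))) (.l 4737 .nil))) (.node (.I .tdb (.c 0 (.c 8 (.c 32 (.c 40 .nil)))) (.b 48 (.l 4737 .nil))) (.I .com (.c 105533754468731704544899941682185 (.c 4737 .nil)) .nil))) (.node (.node (.I .ass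 (.c 4737 (.c 1310925065 (.c 18497 .nil))) .nil) (.I .ass (.c 1310925065 (.c 4737 (.c 18497 .nil))) .nil)) (.node (.I .com (.c 4737 (.c 1310925065 .nil)) (.r 18497 .nil)) (.I .com (.c 18497 (.c 4737 .nil)) (.l 1310925065 .nil)))))) (.node (.node (.node (.node (.I .ass (.c 4737 (.c 12801 (.c 2737112329 .nil))) .nil) (.I .ass (.c 12801 (.c 4737 (.c 2737112329 .nil))) .nil)) (.node (.I .com (.c 4737 (.c 12801 .nil)) (.r 2737112329 .nil)) (.I .ass (.c 13748194865974800137 (.c 18497 (.c 32 .nil))) .nil))) (.node (.node (.I .ass (.c 13748193523587631945 (.c 18497 (.c 32 .nil))) .nil) (.I .tdb (.c 0 (.c 40 (.c 16 (.c 32 .nil)))) (.b 24 (.l 18497 .nil)))) (.node (.I .jac (.c 12865 (.c 4737 (.c 32 .nil))) (.l 18433 .nil)) (.I .jac (.c 12865 (.c 16 (.c 32 .nil))) (.b 24 (.l 18433 .nil)))))) (.node (.node (.node (.I .ass (.c 8321 (.c 2718204105 (.c 12865 .nil))) .nil) (.I .ass (.c 2718204105 (.c 8321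 (.c 12865 .nil))) .nil)) (.node (.I .com (.c 8321 (.c 2718204105 .nil)) (.r 12865 .nil)) (.I .com (.c 12865 (.c 8321 .nil)) (.l 2718204105 .nil)))) (.node (.node (.I .ass (.c 8321 (.c 18433 (.c 1324065993 .nil))) .nil) (.I .ass (.c 18433 (.c 8321 (.c 1324065993 .nil))) .nil)) (.node (.I .com (.c 8321 (.c 18433 .nil)) (.r 1324065993 .nil)) (.I .ass (.c 59109071234951844617 (.c 12865 (.c 24 .nil))) .nil)))))))

noncomputable def c5_105 : Tr := (.node (.node (.node (.node (.node (.node (.I .ass (.c 59109065668069837705 (.c 12865 (.c 24 .nil))) .nil) (.I .tdb (.c 8 (.c 12801 (.c 24 (.c 48 .nil)))) (.l 8321 .nil))) (.node (.I .tdb (.c 0 (.c 40 (.c 24 (.c 48 .nil)))) (.b 8 (.l 8321 .nil))) (.I .com (.c 1310924873 (.c 15246325749294281 .nil)) .nil))) (.node (.node (.I .adp (.c 4737 (.c 32 (.c 14629225721520521 .nil))) .nil) (.I .com (.c 1712113961689580865954497792891785 (.c 4737 .nil)) .nil))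 (.node (.I .tdb (.c 0 (.c 48 (.c 8 (.c 32 .nil)))) (.b 40 (.l 4737 .nil))) (.I .ass (.c 4737 (.c 2718204169 (.c 12865 .nil))) .nil)))) (.node (.node (.node (.I .ass (.c 2718204169 (.c 4737 (.c 12865 .nil))) .nil) (.I .com (.c 4737 (.c 2718204169 .nil)) (.r 12865 .nil))) (.node (.I .com (.c 12865 (.c 4737 .nil)) (.l 2718204169 .nil)) (.I .ass (.c 4737 (.c 18433 (.c 1324066057 .nil))) .nil))) (.node (.node (.I .ass (.c 18433 (.c 4737 (.c 1324066057 .nil))) .nil) (.I .com (.c 4737 (.c 18433 .nil)) (.r 1324066057 .nil))) (.node (.I .ass (.c 59109068451510808329 (.c 12865 (.c 32 .nil))) .nil) (.I .ass (.c 59109065668069837641 (.c 12865 (.c 32 .nil))) .nil))))) (.node (.node (.node (.node (.I .tdb (.c 8 (.c 12801 (.c 32 (.c 48 .nil)))) (.l 4737 .nil)) (.I .tdb (.c 0 (.c 40 (.c 32 (.c 48 .nil)))) (.b 8 (.l 4737 .nil)))) (.node (.I .com (.c 1310924873 (.c 15246281046235401 .nil)) .nil) (.I .tdb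 (.c 513 (.c 40 (.c 32 (.c 48 .nil)))) (.l 4737 .nil)))) (.node (.node (.I .tdb (.c 0 (.c 8 (.c 32 (.c 48 .nil)))) (.b 40 (.l 4737 .nil))) (.I .jac (.c 553912521 (.c 40 (.c 48 .nil))) (.l 513 .nil))) (.node (.I .jac (.c 617611520074121 (.c 16 (.c 48 .nil))) (.l 8 .nil)) (.I .com (.c 74495752857506702162333100979256575144015126325412450007200777 (.c 8 .nil)) .nil)))) (.node (.node (.node (.I .jac (.c 24 (.c 40 (.c 48 .nil))) (.l 513 (.l 8321 .nil))) (.I .ass (.c 8321 (.c 513 (.c 2775125321 .nil))) .nil)) (.node (.I .ass (.c 513 (.c 8321 (.c 2775125321 .nil))) .nil) (.I .com (.c 8321 (.c 513 .nil)) (.r 2775125321 .nil)))) (.node (.node (.I .ass (.c 8321 (.c 513 (.c 1350544777 .nil))) .nil) (.I .ass (.c 513 (.c 8321 (.c 1350544777 .nil))) .nil)) (.node (.I .com (.c 8321 (.c 513 .nil)) (.r 1350544777 .nil)) (.I .tdb (.c 40 (.c 18433 (.c 8 (.c 32 .nil)))) (.l 4737 .nil))))))) (.node (.node (.node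 (.node (.node (.I .tdb (.c 48 (.c 12801 (.c 8 (.c 32 .nil)))) (.l 4737 .nil)) (.I .tdb (.c 0 (.c 40 (.c 8 (.c 32 .nil)))) (.b 48 (.l 4737 .nil)))) (.node (.I .jac (.c 32 (.c 40 (.c 48 .nil))) (.l 513 (.l 4737 .nil))) (.I .ass (.c 4737 (.c 513 (.c 2794230089 .nil))) .nil))) (.node (.node (.I .ass (.c 513 (.c 4737 (.c 2794230089 .nil))) .nil) (.I .com (.c 4737 (.c 513 .nil)) (.r 2794230089 .nil))) (.node (.I .ass (.c 4737 (.c 513 (.c 1363882377 .nil))) .nil) (.I .ass (.c 513 (.c 4737 (.c 1363882377 .nil))) .nil)))) (.node (.node (.node (.I .com (.c 4737 (.c 513 .nil)) (.r 1363882377 .nil)) (.I .tdb (.c 4609 (.c 32 (.c 40 (.c 8 .nil)))) (.b 18561 .nil))) (.node (.I .tdb (.c 0 (.c 24 (.c 40 (.c 8 .nil)))) (.b 32 (.b 18561 .nil))) (.I .tdb (.c 24 (.c 8193 (.c 8 (.c 48 .nil)))) (.b 12929 .nil)))) (.node (.node (.I .jac (.c 580749782704585 (.c 16 (.c 24 .nil))) (.l 40 .nil)) (.I .jac (.c 21307459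 (.c 16 (.c 24 .nil))) (.b 18433 .nil))) (.node (.I .tdb (.c 0 (.c 40 (.c 32 (.c 48 .nil)))) (.b 4737 (.b 8 .nil))) (.I .tdb (.c 0 (.c 40 (.c 8 (.c 32 .nil)))) (.b 4737 (.b 48 .nil))))))) (.node (.node (.node (.node (.I .tdb (.c 4737 (.c 32 (.c 40 (.c 48 .nil)))) (.l 513 .nil)) (.I .tdb (.c 16 (.c 24 (.c 40 (.c 48 .nil)))) (.b 32 (.l 513 .nil)))) (.node (.I .tdb (.c 24 (.c 8321 (.c 8 (.c 40 .nil)))) (.l 18433 .nil)) (.I .jac (.c 59555558875593 (.c 16 (.c 32 .nil))) (.l 40 .nil)))) (.node (.node (.I .jac (.c 15038454533712969 (.c 16 (.c 32 .nil))) (.l 40 .nil)) (.I .jac (.c 21099075 (.c 16 (.c 32 .nil))) (.b 18433 .nil))) (.node (.I .tdb (.c 24 (.c 8321 (.c 8 (.c 48 .nil)))) (.l 12801 .nil)) (.I .tdb (.c 0 (.c 40 (.c 24 (.c 48 .nil)))) (.b 8321 (.b 8 .nil)))))) (.node (.node (.node (.I .tdb (.c 0 (.c 40 (.c 8 (.c 24 .nil)))) (.b 8321 (.b 48 .nil))) (.I .tdb (.c 24 (.c 8321 (.c 40 (.c 48 .nil))))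 (.l 513 .nil))) (.node (.I .tdb (.c 16 (.c 32 (.c 40 (.c 48 .nil)))) (.b 24 (.l 513 .nil))) (.I .com (.c 2454552647364603913 (.c 40 .nil)) (.l 513 .nil)))) (.node (.node (.I .adp (.c 16 (.c 8385 (.c 13748198893136698057 .nil))) .nil) (.I .adp (.c 16 (.c 32 (.c 24 .nil))) (.b 59109062884628932553 .nil))) (.node (.I .jac (.c 59109062884628932553 (.c 24 (.c 32 .nil))) (.l 16 .nil)) (.I .adp (.c 16 (.c 8385 (.c 35473026505673 .nil))) .nil)))))))

noncomputable def c5_106 : Tr := (.node (.node (.node (.node (.node (.node (.I .adp (.c 16 (.c 32 (.c 24 .nil))) (.b 13748192181200529417 .nil)) (.I .adp (.c 16 (.c 8385 (.c 13748192181200529417 .nil))) .nil)) (.node (.I .jac (.c 13748192181200529417 (.c 24 (.c 32 .nil))) (.l 16 .nil)) (.I .adp (.c 16 (.c 32 (.c 24 .nil))) (.b 59109074018392946377 .nil)))) (.node (.node (.I .jac (.c 59109074018392946377 (.c 24 (.c 32 .nil))) (.l 16 .nil)) (.I .com (.c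 6250094510787921451507938936320109349001104367827754403475649131556193201435884361 (.c 16 .nil)) .nil)) (.node (.I .com (.c 6250094510787921451507938936320109348972482481312047678654324943724469600120805257 (.c 16 .nil)) .nil) (.I .adp (.c 16 (.c 32 (.c 24 .nil))) (.b 35470870263817 .nil))))) (.node (.node (.node (.I .adp (.c 16 (.c 8385 (.c 35470870263817 .nil))) .nil) (.I .jac (.c 15456118887243913 (.c 24 (.c 32 .nil))) (.l 16 .nil))) (.node (.I .com (.c 29219431338611946923215950238731118199641355788927348155321626164041 (.c 16 .nil)) .nil) (.I .com (.c 29219431338611946923215950238729161199563579974145017446079347480457 (.c 16 .nil)) .nil))) (.node (.node (.I .adp (.c 16 (.c 32 (.c 24 .nil))) (.b 3423058053194185 .nil)) (.I .adp (.c 16 (.c 8385 (.c 3423058053194185 .nil))) .nil)) (.node (.I .com (.c 59934271212510434121 (.c 16 .nil)) (.l 12801 .nil)) (.I .com (.c 59934268409707442057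 (.c 16 .nil)) (.l 12801 .nil)))))) (.node (.node (.node (.node (.I .adp (.c 16 (.c 32 (.c 24 .nil))) (.b 14629225721520521 .nil)) (.I .adp (.c 16 (.c 8385 (.c 14629225721520521 .nil))) .nil)) (.node (.I .com (.c 14025207386396218185 (.c 16 .nil)) (.l 18433 .nil)) (.I .com (.c 14025206030552608649 (.c 16 .nil)) (.l 18433 .nil)))) (.node (.node (.I .jac (.c 2306970223667989449 (.c 24 (.c 48 .nil))) (.l 8 .nil)) (.I .jac (.c 2306970223667989513 (.c 24 (.c 40 .nil))) (.l 8 .nil))) (.node (.I .jac (.c 598967998054793 (.c 24 (.c 48 .nil))) (.l 8 .nil)) (.I .com (.c 65899851849306263681208984335616105221755237512119242693810121 (.c 8 .nil)) .nil)))) (.node (.node (.node (.I .com (.c 65899851849221766535477322708303715145120289842293738082354121 (.c 8 .nil)) .nil) (.I .com (.c 65899851849278097965965088095014964341373399093722929788082185 (.c 8 .nil)) .nil)) (.node (.I .jac (.c 598967998054857 (.c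 24 (.c 40 .nil))) (.l 8 .nil)) (.I .com (.c 65899851849221766535477322705364731412334210710856040957845513 (.c 8 .nil)) .nil))) (.node (.node (.I .tdb (.c 16 (.c 8193 (.c 8 (.c 40 .nil)))) (.b 18625 .nil)) (.I .jac (.c 20685315 (.c 16 (.c 48 .nil))) (.r 8385 .nil))) (.node (.I .adp (.c 16 (.c 24 (.c 32 .nil))) (.b 13748198893136698057 .nil)) (.I .adp (.c 16 (.c 24 (.c 32 .nil))) (.b 59109062884628932553 .nil))))))) (.node (.node (.node (.node (.node (.I .adp (.c 16 (.c 24 (.c 32 .nil))) (.b 35473026505673 .nil)) (.I .adp (.c 16 (.c 24 (.c 32 .nil))) (.b 59109074018392946377 .nil))) (.node (.I .jac (.c 231045467270827017 (.c 32 (.c 40 .nil))) (.l 8 .nil)) (.I .jac (.c 33587401 (.c 32 (.c 48 .nil))) (.b 40 (.l 8 .nil))))) (.node (.node (.I .jac (.c 9024908047478793 (.c 32 (.c 40 .nil))) (.l 8 .nil)) (.I .jac (.c 62886542410121 (.c 32 (.c 48 .nil))) (.l 8 .nil))) (.node (.I .com (.c 8007571589612989335961665235786490713886726698447501114313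 (.c 8 .nil)) .nil) (.I .com (.c 8007571589580391927225678006334494336936171244293235506185 (.c 8 .nil)) .nil)))) (.node (.node (.node (.I .jac (.c 62886542410185 (.c 32 (.c 40 .nil))) (.l 8 .nil)) (.I .jac (.c 12929 (.c 32 (.c 48 .nil))) (.l 169943113 .nil))) (.node (.I .jac (.c 18561 (.c 32 (.c 40 .nil))) (.l 169943113 .nil)) (.I .jac (.c 12993 (.c 32 (.c 48 .nil))) (.l 33587273 .nil)))) (.node (.node (.I .jac (.c 18625 (.c 32 (.c 40 .nil))) (.l 33587273 .nil)) (.I .com (.c 27664030750837927638519238748129735147736848098282229791858206880713 (.c 8 .nil)) .nil)) (.node (.I .tdb (.c 24 (.c 2049 (.c 8 (.c 40 .nil)))) (.b 18689 .nil)) (.I .tdb (.c 0 (.c 16 (.c 40 (.c 8 .nil)))) (.b 24 (.b 18689 .nil))))))) (.node (.node (.node (.node (.I .adp (.c 0 (.c 24 (.c 43954755 .nil))) (.b 8321 .nil)) (.I .jac (.c 20685315 (.c 32 (.c 48 .nil))) (.r 4737 .nil))) (.node (.I .jac (.c 0 (.c 4673 (.c 32 .nil)))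 (.r 1337272713 .nil)) (.I .jac (.c 0 (.c 8 (.c 24 .nil))) (.b 32 (.r 1337272713 .nil))))) (.node (.node (.I .jac (.c 0 (.c 8257 (.c 24 .nil))) (.r 1337272713 .nil)) (.I .jac (.c 0 (.c 8 (.c 32 .nil))) (.b 24 (.r 1337272713 .nil)))) (.node (.I .jac (.c 21099011 (.c 16 (.c 48 .nil))) (.l 8257 .nil)) (.I .jac (.c 43356675 (.c 16 (.c 40 .nil))) (.l 8257 .nil))))) (.node (.node (.node (.I .ass (.c 4673 (.c 0 (.c 60768084239834527625 .nil))) .nil) (.I .ass (.c 0 (.c 4673 (.c 60768084239834527625 .nil))) .nil)) (.node (.I .com (.c 4673 (.c 0 .nil)) (.r 60768084239834527625 .nil)) (.I .ass (.c 4673 (.c 0 (.c 14306386471475043209 .nil))) .nil))) (.node (.node (.I .ass (.c 0 (.c 4673 (.c 14306386471475043209 .nil))) .nil) (.I .com (.c 4673 (.c 0 .nil)) (.r 14306386471475043209 .nil))) (.node (.I .jac (.c 21099011 (.c 8 (.c 48 .nil))) (.l 8321 .nil)) (.I .jac (.c 43356675 (.c 8 (.c 40 .nil))) (.l 8321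 .nil))))))))

noncomputable def c5_107 : Tr := (.node (.node (.node (.node (.node (.node (.I .jac (.c 21307395 (.c 8 (.c 48 .nil))) (.l 4737 .nil)) (.I .jac (.c 43655171 (.c 8 (.c 40 .nil))) (.l 4737 .nil))) (.node (.I .jac (.c 21307395 (.c 8 (.c 24 .nil))) (.b 18561 .nil)) (.I .jac (.c 15038410136445129 (.c 8 (.c 32 .nil))) (.l 40 .nil)))) (.node (.node (.I .jac (.c 21099011 (.c 8 (.c 32 .nil))) (.b 18561 .nil)) (.I .jac (.c 21307395 (.c 16 (.c 24 .nil))) (.b 18497 .nil))) (.node (.I .jac (.c 15038410136445065 (.c 16 (.c 32 .nil))) (.l 40 .nil)) (.I .jac (.c 21099011 (.c 16 (.c 32 .nil))) (.b 18497 .nil))))) (.node (.node (.node (.I .adp (.c 16 (.c 32 (.c 2718204233 .nil))) (.b 4673 .nil)) (.I .jac (.c 0 (.c 2113 (.c 32 .nil))) (.r 2775125321 .nil))) (.node (.I .jac (.c 0 (.c 8 (.c 16 .nil))) (.b 32 (.r 2775125321 .nil))) (.I .jac (.c 21307395 (.c 24 (.c 48 .nil))) (.l 2113 .nil)))) (.node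 (.node (.I .ass (.c 2113 (.c 0 (.c 61610564378042824585 .nil))) .nil) (.I .ass (.c 0 (.c 2113 (.c 61610564378042824585 .nil))) .nil)) (.node (.I .com (.c 2113 (.c 0 .nil)) (.r 61610564378042824585 .nil)) (.I .ass (.c 2113 (.c 0 (.c 14591769557455838089 .nil))) .nil))))) (.node (.node (.node (.node (.I .ass (.c 0 (.c 2113 (.c 14591769557455838089 .nil))) .nil) (.I .com (.c 2113 (.c 0 .nil)) (.r 14591769557455838089 .nil))) (.node (.I .jac (.c 21307395 (.c 8 (.c 16 .nil))) (.b 18625 .nil)) (.I .adp (.c 16 (.c 24 (.c 2718204233 .nil))) (.b 8257 .nil)))) (.node (.node (.I .adp (.c 16 (.c 24 (.c 1310925193 .nil))) (.b 8257 .nil)) (.I .jac (.c 12929 (.c 32 (.c 48 .nil))) (.l 0 (.l 4673 .nil)))) (.node (.I .ass (.c 4673 (.c 0 (.c 60768081417602405321 .nil))) .nil) (.I .ass (.c 0 (.c 4673 (.c 60768081417602405321 .nil))) .nil)))) (.node (.node (.node (.I .com (.c 4673 (.c 0 .nil)) (.r 60768081417602405321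 .nil)) (.I .ass (.c 4673 (.c 0 (.c 2454554348984163273 .nil))) .nil)) (.node (.I .ass (.c 0 (.c 4673 (.c 2454554348984163273 .nil))) .nil) (.I .com (.c 4673 (.c 0 .nil)) (.r 2454554348984163273 .nil)))) (.node (.node (.I .ass (.c 4673 (.c 0 (.c 14306383732740658185 .nil))) .nil) (.I .ass (.c 0 (.c 4673 (.c 14306383732740658185 .nil))) .nil)) (.node (.I .com (.c 4673 (.c 0 .nil)) (.r 14306383732740658185 .nil)) (.I .jac (.c 43059203 (.c 32 (.c 40 .nil))) (.l 4673 .nil))))))) (.node (.node (.node (.node (.node (.I .jac (.c 18561 (.c 32 (.c 40 .nil))) (.l 0 (.l 4673 .nil))) (.I .ass (.c 4673 (.c 0 (.c 2454553781777577993 .nil))) .nil)) (.node (.I .ass (.c 0 (.c 4673 (.c 2454553781777577993 .nil))) .nil) (.I .com (.c 4673 (.c 0 .nil)) (.r 2454553781777577993 .nil)))) (.node (.node (.I .jac (.c 21099011 (.c 32 (.c 48 .nil))) (.l 2113 .nil)) (.I .jac (.c 12993 (.c 32 (.c 48 .nil))) (.l 0 (.l 2113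 .nil)))) (.node (.I .ass (.c 2113 (.c 0 (.c 61610561536314528713 .nil))) .nil) (.I .ass (.c 0 (.c 2113 (.c 61610561536314528713 .nil))) .nil)))) (.node (.node (.node (.I .com (.c 2113 (.c 0 .nil)) (.r 61610561536314528713 .nil)) (.I .ass (.c 2113 (.c 0 (.c 2530945674147634121 .nil))) .nil)) (.node (.I .ass (.c 0 (.c 2113 (.c 2530945674147634121 .nil))) .nil) (.I .com (.c 2113 (.c 0 .nil)) (.r 2530945674147634121 .nil)))) (.node (.node (.I .ass (.c 2113 (.c 0 (.c 14591766791540265993 .nil))) .nil) (.I .ass (.c 0 (.c 2113 (.c 14591766791540265993 .nil))) .nil)) (.node (.I .com (.c 2113 (.c 0 .nil)) (.r 14591766791540265993 .nil)) (.I .jac (.c 18625 (.c 32 (.c 40 .nil))) (.l 0 (.l 2113 .nil))))))) (.node (.node (.node (.node (.I .ass (.c 2113 (.c 0 (.c 2530945098182293513 .nil))) .nil) (.I .ass (.c 0 (.c 2113 (.c 2530945098182293513 .nil))) .nil)) (.node (.I .com (.c 2113 (.c 0 .nil)) (.r 2530945098182293513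 .nil)) (.I .jac (.c 43059203 (.c 8 (.c 24 .nil))) (.b 13057 .nil)))) (.node (.node (.I .jac (.c 15038410136445257 (.c 8 (.c 16 .nil))) (.l 40 .nil)) (.I .adp (.c 8 (.c 24 (.c 1310925193 .nil))) (.b 8321 .nil))) (.node (.I .adp (.c 8 (.c 16 (.c 2718204233 .nil))) (.b 8385 .nil)) (.I .com (.c 59109074018392946505 (.c 545424521 .nil)) .nil)))) (.node (.node (.node (.I .jac (.c 2718204233 (.c 16 (.c 32 .nil))) (.l 4673 .nil)) (.I .com (.c 59109074018392946569 (.c 174695561 .nil)) .nil)) (.node (.I .com (.c 13748198893136698249 (.c 35718345 .nil)) .nil) (.I .jac (.c 2718204233 (.c 24 (.c 32 .nil))) (.l 2113 .nil)))) (.node (.node (.I .com (.c 13748198893136698121 (.c 174695689 .nil)) .nil) (.I .com (.c 59109074018392946441 (.c 8786499 .nil)) .nil)) (.node (.I .com (.c 59109074018392946505 (.c 8652867 .nil)) .nil) (.I .com (.c 13748198893136698121 (.c 8786499 .nil)) .nil)))))))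

noncomputable def c5_108 : Tr := (.node (.node (.node (.node (.node (.node (.I .com (.c 13748198893136698249 (.c 2803779 .nil)) .nil) (.I .com (.c 13748198893136698249 (.c 24 .nil)) (.l 2113 .nil))) (.node (.I .adp (.c 40 (.c 48 (.c 8 .nil))) (.b 231045815314584329 .nil)) (.I .com (.c 18497 (.c 40 .nil)) (.b 231045815314584329 .nil)))) (.node (.node (.I .adp (.c 12865 (.c 48 (.c 231045815314584329 .nil))) .nil) (.I .adp (.c 40 (.c 48 (.c 8 .nil))) (.b 2306970223667989321 .nil))) (.node (.I .com (.c 18497 (.c 40 .nil)) (.b 2306970223667989321 .nil)) (.I .adp (.c 12865 (.c 48 (.c 2306970223667989321 .nil))) .nil)))) (.node (.node (.node (.I .adp (.c 18497 (.c 40 (.c 617629514823753 .nil))) .nil) (.I .adp (.c 18433 (.c 40 (.c 617629514823817 .nil))) .nil)) (.node (.I .adp (.c 18497 (.c 40 (.c 617611520073929 .nil))) .nil) (.I .adp (.c 18433 (.c 40 (.c 617620517416137 .nil))) .nil))) (.node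 (.node (.I .jac (.c 18433 (.c 2803779 (.c 32 .nil))) (.r 40 .nil)) (.I .tdb (.c 16 (.c 32 (.c 18433 (.c 40 .nil)))) (.l 4673 .nil))) (.node (.I .jac (.c 18433 (.c 16 (.c 32 .nil))) (.r 40 (.l 4673 .nil))) (.I .adp (.c 18433 (.c 40 (.c 8321 .nil))) (.l 4673 .nil)))))) (.node (.node (.node (.node (.I .tdb (.c 16 (.c 32 (.c 12801 (.c 48 .nil)))) (.l 4673 .nil)) (.I .jac (.c 12801 (.c 16 (.c 32 .nil))) (.r 48 (.l 4673 .nil)))) (.node (.I .adp (.c 12801 (.c 48 (.c 8321 .nil))) (.l 4673 .nil)) (.I .adp (.c 18433 (.c 40 (.c 598976858557705 .nil))) .nil))) (.node (.node (.I .adp (.c 18433 (.c 40 (.c 8385 .nil))) (.l 2113 .nil)) (.I .tdb (.c 24 (.c 32 (.c 12801 (.c 48 .nil)))) (.l 2113 .nil))) (.node (.I .jac (.c 12801 (.c 24 (.c 32 .nil))) (.r 48 (.l 2113 .nil))) (.I .adp (.c 12801 (.c 48 (.c 8385 .nil))) (.l 2113 .nil))))) (.node (.node (.node (.I .jac (.c 2718204233 (.c 8321 (.c 24 .nil))) (.l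 8 .nil)) (.I .jac (.c 2718204233 (.c 4737 (.c 32 .nil))) (.l 8 .nil))) (.node (.I .jac (.c 1310925193 (.c 8321 (.c 24 .nil))) (.l 8 .nil)) (.I .jac (.c 1310925193 (.c 16 (.c 32 .nil))) (.b 24 (.l 8 .nil))))) (.node (.node (.I .jac (.c 1310925193 (.c 4737 (.c 32 .nil))) (.l 8 .nil)) (.I .jac (.c 1310925193 (.c 16 (.c 24 .nil))) (.b 32 (.l 8 .nil)))) (.node (.I .jac (.c 617611520074121 (.c 16 (.c 48 .nil))) (.r 8 .nil)) (.I .adp (.c 40 (.c 48 (.c 16 .nil))) (.b 231045815314584265 .nil))))))) (.node (.node (.node (.node (.node (.I .com (.c 18561 (.c 40 .nil)) (.b 231045815314584265 .nil)) (.I .adp (.c 18561 (.c 40 (.c 231045815314584265 .nil))) .nil)) (.node (.I .jac (.c 231045815314584265 (.c 16 (.c 48 .nil))) (.r 40 .nil)) (.I .adp (.c 12929 (.c 48 (.c 231045815314584265 .nil))) .nil))) (.node (.node (.I .com (.c 427057350195047847081321678284722185 (.c 12929 .nil)) .nil) (.I .jac (.c 231045815314584265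 (.c 16 (.c 40 .nil))) (.r 48 .nil))) (.node (.I .adp (.c 12929 (.c 48 (.c 2306969673777850185 .nil))) .nil) (.I .adp (.c 12929 (.c 48 (.c 35468714087241 .nil))) .nil)))) (.node (.node (.node (.I .adp (.c 40 (.c 48 (.c 16 .nil))) (.b 231045293249046409 .nil)) (.I .com (.c 18561 (.c 40 .nil)) (.b 231045293249046409 .nil))) (.node (.I .adp (.c 18561 (.c 40 (.c 231045293249046409 .nil))) .nil) (.I .adp (.c 12929 (.c 48 (.c 231045293249046409 .nil))) .nil))) (.node (.node (.I .adp (.c 18561 (.c 40 (.c 2306970773558193865 .nil))) .nil) (.I .com (.c 42576913200413531150059165447389106185 (.c 12929 .nil)) .nil)) (.node (.I .adp (.c 18561 (.c 40 (.c 35466557976457 .nil))) .nil) (.I .adp (.c 18561 (.c 40 (.c 617611520073865 .nil))) .nil))))) (.node (.node (.node (.node (.I .com (.c 3051551917823601198840448306121 (.c 18561 .nil)) .nil) (.I .adp (.c 18561 (.c 40 (.c 59555558875465 .nil))) .nil)) (.node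 (.I .com (.c 3051551917823601198840448306185 (.c 12929 .nil)) .nil) (.I .com (.c 12865 (.c 18561 .nil)) (.l 537002185 .nil)))) (.node (.node (.I .com (.c 12865 (.c 18561 .nil)) (.l 169943305 .nil)) (.I .com (.c 18497 (.c 12929 .nil)) (.l 537002185 .nil))) (.node (.I .com (.c 18497 (.c 12929 .nil)) (.l 169943305 .nil)) (.I .ass (.c 18433 (.c 12865 (.c 553912521 .nil))) .nil)))) (.node (.node (.node (.I .ass (.c 18433 (.c 12865 (.c 179513609 .nil))) .nil) (.I .ass (.c 12801 (.c 18497 (.c 553912521 .nil))) .nil)) (.node (.I .ass (.c 12801 (.c 18497 (.c 179513609 .nil))) .nil) (.I .jac (.c 12801 (.c 16 (.c 48 .nil))) (.r 545424585 .nil)))) (.node (.node (.I .jac (.c 12801 (.c 16 (.c 48 .nil))) (.r 174695689 .nil)) (.I .jac (.c 18433 (.c 16 (.c 40 .nil))) (.r 545424585 .nil))) (.node (.I .jac (.c 18433 (.c 16 (.c 40 .nil))) (.r 174695689 .nil)) (.I .jac (.c 0 (.c 18497 (.c 40 .nil))) (.r 553912521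 .nil))))))))

noncomputable def c5_109 : Tr := (.node (.node (.node (.node (.node (.node (.I .jac (.c 0 (.c 8 (.c 48 .nil))) (.b 40 (.r 553912521 .nil))) (.I .jac (.c 12801 (.c 8 (.c 48 .nil))) (.r 179513609 .nil))) (.node (.I .jac (.c 12801 (.c 16 (.c 48 .nil))) (.r 8786499 .nil)) (.I .jac (.c 12801 (.c 8 (.c 48 .nil))) (.r 8786563 .nil)))) (.node (.node (.I .jac (.c 18433 (.c 8 (.c 40 .nil))) (.r 8786563 .nil)) (.I .adp (.c 40 (.c 48 (.c 169943305 .nil))) (.b 2113 .nil))) (.node (.I .com (.c 231045815314584585 (.c 40 .nil)) (.b 2113 .nil)) (.I .ass (.c 12801 (.c 18561 (.c 545424585 .nil))) .nil)))) (.node (.node (.node (.I .ass (.c 12801 (.c 18561 (.c 174695689 .nil))) .nil) (.I .ass (.c 18433 (.c 12929 (.c 545424585 .nil))) .nil)) (.node (.I .ass (.c 18433 (.c 12929 (.c 174695689 .nil))) .nil) (.I .jac (.c 2306969673777850377 (.c 24 (.c 40 .nil))) (.r 16 .nil)))) (.node (.node (.I .jac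 (.c 2306970223667989449 (.c 24 (.c 48 .nil))) (.r 8 .nil)) (.I .jac (.c 2105673 (.c 24 (.c 48 .nil))) (.r 8321 .nil))) (.node (.I .jac (.c 598967998054793 (.c 24 (.c 48 .nil))) (.r 8 .nil)) (.I .jac (.c 580749782704521 (.c 24 (.c 48 .nil))) (.r 16 .nil)))))) (.node (.node (.node (.node (.I .jac (.c 598967998054857 (.c 24 (.c 40 .nil))) (.r 8 .nil)) (.I .jac (.c 580749782704585 (.c 24 (.c 40 .nil))) (.r 16 .nil))) (.node (.I .jac (.c 18497 (.c 24 (.c 40 .nil))) (.r 16 (.l 8193 .nil))) (.I .tdb (.c 48 (.c 12801 (.c 8 (.c 16 .nil)))) (.l 8385 .nil)))) (.node (.node (.I .tdb (.c 0 (.c 40 (.c 8 (.c 16 .nil)))) (.b 48 (.l 8385 .nil))) (.I .com (.c 97536312314082855488951506397193 (.c 8385 .nil)) .nil)) (.node (.I .adp (.c 18625 (.c 40 (.c 9024942441009865 .nil))) .nil) (.I .com (.c 651596688508328804762888218546185 (.c 12993 .nil)) .nil)))) (.node (.node (.node (.I .adp (.c 18625 (.c 40 (.c 2306969673777850121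 .nil))) .nil) (.I .com (.c 42576872605845441665422493413917717449 (.c 18625 .nil)) .nil)) (.node (.I .jac (.c 2306969673777850121 (.c 24 (.c 40 .nil))) (.r 48 .nil)) (.I .adp (.c 18625 (.c 40 (.c 35468714087177 .nil))) .nil))) (.node (.node (.I .com (.c 10064237431983265346846635017 (.c 12993 .nil)) .nil) (.I .jac (.c 35468714087177 (.c 24 (.c 40 .nil))) (.r 48 .nil))) (.node (.I .adp (.c 40 (.c 48 (.c 24 .nil))) (.b 9024839260612489 .nil)) (.I .com (.c 18625 (.c 40 .nil)) (.b 9024839260612489 .nil))))))) (.node (.node (.node (.node (.node (.I .adp (.c 18625 (.c 40 (.c 9024839260612489 .nil))) .nil) (.I .adp (.c 12993 (.c 48 (.c 9024839260612489 .nil))) .nil)) (.node (.I .adp (.c 40 (.c 48 (.c 24 .nil))) (.b 2306970223667989193 .nil)) (.I .com (.c 18625 (.c 40 .nil)) (.b 2306970223667989193 .nil)))) (.node (.node (.I .adp (.c 18625 (.c 40 (.c 2306970223667989193 .nil))) .nil) (.I .com (.c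 42576892903125856676158477119718330313 (.c 18625 .nil)) .nil)) (.node (.I .jac (.c 2306970223667989193 (.c 24 (.c 48 .nil))) (.r 40 .nil)) (.I .adp (.c 12993 (.c 48 (.c 2306970223667989193 .nil))) .nil)))) (.node (.node (.node (.I .jac (.c 2306970223667989193 (.c 24 (.c 40 .nil))) (.r 48 .nil)) (.I .adp (.c 18625 (.c 40 (.c 35464401931145 .nil))) .nil)) (.node (.I .com (.c 12929 (.c 18625 .nil)) (.l 2105609 .nil)) (.I .com (.c 2870101301547678715334610275337 (.c 12993 .nil)) .nil))) (.node (.node (.I .com (.c 18561 (.c 12993 .nil)) (.l 2105609 .nil)) (.I .com (.c 2698162480889002807269082722249 (.c 18625 .nil)) .nil)) (.node (.I .jac (.c 580749782704329 (.c 24 (.c 48 .nil))) (.r 40 .nil)) (.I .com (.c 12865 (.c 18625 .nil)) (.l 33587465 .nil)))))) (.node (.node (.node (.node (.I .com (.c 18497 (.c 12993 .nil)) (.l 33587465 .nil)) (.I .jac (.c 12801 (.c 24 (.c 48 .nil))) (.r 35718409 .nil)))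 (.node (.I .jac (.c 18433 (.c 24 (.c 40 .nil))) (.r 35718409 .nil)) (.I .jac (.c 12801 (.c 24 (.c 48 .nil))) (.r 8652867 .nil)))) (.node (.node (.I .jac (.c 18433 (.c 24 (.c 40 .nil))) (.r 8652867 .nil)) (.I .com (.c 1760086083483768606775145280457673 (.c 8385 .nil)) .nil)) (.node (.I .com (.c 97535117142640924779607613918217 (.c 8385 .nil)) .nil) (.I .jac (.c 43059203 (.c 8 (.c 40 .nil))) (.l 8385 .nil))))) (.node (.node (.node (.I .adp (.c 40 (.c 48 (.c 537002121 .nil))) (.b 4673 .nil)) (.I .com (.c 2306970223667989513 (.c 40 .nil)) (.b 4673 .nil))) (.node (.I .ass (.c 12801 (.c 18625 (.c 35718409 .nil))) .nil) (.I .ass (.c 18433 (.c 12993 (.c 35718409 .nil))) .nil))) (.node (.node (.I .com (.c 93738611484289995286311130272777 (.c 8321 .nil)) .nil) (.I .com (.c 93738611484286490074864659656713 (.c 8385 .nil)) .nil)) (.node (.I .jac (.c 42762755 (.c 16 (.c 40 .nil))) (.l 8385 .nil)) (.I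 .com (.c 1712113961689580865954497792891657 (.c 8385 .nil)) .nil)))))))

noncomputable def c5_110 : Tr := (.node (.node (.node (.node (.node (.node (.I .jac (.c 35466557976521 (.c 32 (.c 48 .nil))) (.r 16 .nil)) (.I .jac (.c 33587593 (.c 32 (.c 40 .nil))) (.r 4673 .nil))) (.node (.I .jac (.c 9024839260612553 (.c 32 (.c 48 .nil))) (.r 24 .nil)) (.I .jac (.c 169943433 (.c 32 (.c 40 .nil))) (.r 2113 .nil)))) (.node (.node (.I .jac (.c 2105737 (.c 32 (.c 40 .nil))) (.r 4737 .nil)) (.I .jac (.c 62886542410121 (.c 32 (.c 48 .nil))) (.r 8 .nil))) (.node (.I .jac (.c 59555558875529 (.c 32 (.c 48 .nil))) (.r 16 .nil)) (.I .jac (.c 12865 (.c 32 (.c 48 .nil))) (.r 16 (.l 4609 .nil)))))) (.node (.node (.node (.I .com (.c 23450673742498722248794897076549151819054483951375134599711655190345 (.c 16 .nil)) .nil) (.I .com (.c 70295418264026570724123255045461523072430276854854487529883665225 (.c 16 .nil))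 .nil)) (.node (.I .jac (.c 12865 (.c 32 (.c 48 .nil))) (.r 24 (.l 2049 .nil))) (.I .jac (.c 18433 (.c 20891715 (.c 32 .nil))) (.l 24 .nil)))) (.node (.node (.I .jac (.c 12801 (.c 43059267 (.c 32 .nil))) (.l 24 .nil)) (.I .jac (.c 8193 (.c 20891715 (.c 48 .nil))) (.l 24 .nil))) (.node (.I .com (.c 70295418264037085081049688170651661599363167756539804816340794121 (.c 24 .nil)) .nil) (.I .com (.c 70295418264026570724123255045461523072430276854854487529883665161 (.c 24 .nil)) .nil))))) (.node (.node (.node (.node (.I .com (.c 1760096547767352344220080035171913 (.c 24 .nil)) .nil) (.I .com (.c 59109071235118978209 (.c 24 .nil)) .nil)) (.node (.I .com (.c 2306972423396334753 (.c 24 .nil)) .nil) (.I .com (.c 76106657758642486978324907789774806872923625992872764939524914185 (.c 24 .nil)) .nil))) (.node (.node (.I .com (.c 13748196208706507937 (.c 24 .nil)) .nil) (.I .com (.c 24783224170187136596724733590557872369119591894760757214033059241673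 (.c 24 .nil)) .nil)) (.node (.I .jac (.c 62886542410185 (.c 32 (.c 40 .nil))) (.r 8 .nil)) (.I .jac (.c 8193 (.c 43059267 (.c 40 .nil))) (.l 24 .nil))))) (.node (.node (.node (.I .com (.c 97536312317744625780153677352585 (.c 24 .nil)) .nil) (.I .com (.c 2306971873683273889 (.c 24 .nil)) .nil)) (.node (.I .jac (.c 18561 (.c 32 (.c 40 .nil))) (.r 24 (.l 513 .nil))) (.I .com (.c 24783224170187564332730318127083453312115199695901514986374821673673 (.c 24 .nil)) .nil))) (.node (.node (.I .com (.c 14832803796618633 (.c 24 .nil)) (.b 8193 .nil)) (.I .jac (.c 9024908047478473 (.c 32 (.c 48 .nil))) (.r 40 .nil))) (.node (.I .adp (.c 40 (.c 48 (.c 32 .nil))) (.b 231045293249046281 .nil)) (.I .com (.c 18689 (.c 40 .nil)) (.b 231045293249046281 .nil))))))) (.node (.node (.node (.node (.node (.I .adp (.c 13057 (.c 48 (.c 231045293249046281 .nil))) .nil) (.I .jac (.c 231045293249046281 (.c 32 (.c 40 .nil)))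 (.r 48 .nil))) (.node (.I .adp (.c 18689 (.c 40 (.c 231045293249046281 .nil))) .nil) (.I .com (.c 427055420260302327923477728639448009 (.c 18689 .nil)) .nil))) (.node (.node (.I .adp (.c 13057 (.c 48 (.c 35466557976329 .nil))) .nil) (.I .adp (.c 18689 (.c 40 (.c 35466557976329 .nil))) .nil)) (.node (.I .com (.c 10063013877506449693794530249 (.c 18689 .nil)) .nil) (.I .adp (.c 40 (.c 48 (.c 32 .nil))) (.b 9024839260612425 .nil))))) (.node (.node (.node (.I .com (.c 18689 (.c 40 .nil)) (.b 9024839260612425 .nil)) (.I .adp (.c 13057 (.c 48 (.c 9024839260612425 .nil))) .nil)) (.node (.I .jac (.c 9024839260612425 (.c 32 (.c 40 .nil))) (.r 48 .nil)) (.I .adp (.c 18689 (.c 40 (.c 9024839260612425 .nil))) .nil))) (.node (.node (.I .com (.c 651581789439131375743888515045321 (.c 18689 .nil)) .nil) (.I .adp (.c 18689 (.c 40 (.c 231045467270826697 .nil))) .nil)) (.node (.I .com (.c 427056063571157203537696782463438793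 (.c 18689 .nil)) .nil) (.I .adp (.c 13057 (.c 48 (.c 35464401931081 .nil))) .nil))))) (.node (.node (.node (.node (.I .jac (.c 35464401931081 (.c 32 (.c 48 .nil))) (.r 40 .nil)) (.I .jac (.c 62889413446729 (.c 32 (.c 48 .nil))) (.r 40 .nil))) (.node (.I .com (.c 31637737730141993933194546185 (.c 13057 .nil)) .nil) (.I .com (.c 49484669137443443691131913 (.c 13057 .nil)) .nil))) (.node (.node (.I .com (.c 169943113 (.c 15456208906582345 .nil)) .nil) (.I .com (.c 169943113 (.c 15246281046235529 .nil)) .nil)) (.node (.I .tdb (.c 513 (.c 24 (.c 48 (.c 16 .nil)))) (.l 13057 .nil)) (.I .tdb (.c 0 (.c 8 (.c 16 (.c 48 .nil)))) (.b 24 (.l 13057 .nil)))))) (.node (.node (.node (.I .ass (.c 13057 (.c 33587593 (.c 4673 .nil))) .nil) (.I .com (.c 13057 (.c 33587593 .nil)) (.r 4673 .nil))) (.node (.I .ass (.c 13057 (.c 2049 (.c 174695817 .nil))) .nil) (.I .ass (.c 2049 (.c 13057 (.c 174695817 .nil)))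 .nil))) (.node (.node (.I .com (.c 13057 (.c 2049 .nil)) (.r 174695817 .nil)) (.I .jac (.c 2049 (.c 32 (.c 40 .nil))) (.r 174695817 .nil))) (.node (.I .com (.c 31637737730141993933194546121 (.c 18689 .nil)) .nil) (.I .jac (.c 62886542409865 (.c 32 (.c 48 .nil))) (.r 40 .nil))))))))

noncomputable def c5_111 : Tr := (.node (.node (.node (.node (.node (.node (.I .com (.c 49484669137443443691131849 (.c 18689 .nil)) .nil) (.I .com (.c 12929 (.c 18689 .nil)) (.l 2105545 .nil))) (.node (.I .ass (.c 13057 (.c 169943433 (.c 2113 .nil))) .nil) (.I .com (.c 13057 (.c 169943433 .nil)) (.r 2113 .nil)))) (.node (.node (.I .ass (.c 13057 (.c 4609 (.c 35718537 .nil))) .nil) (.I .ass (.c 4609 (.c 13057 (.c 35718537 .nil))) .nil)) (.node (.I .com (.c 13057 (.c 4609 .nil)) (.r 35718537 .nil)) (.I .jac (.c 4609 (.c 32 (.c 40 .nil))) (.r 35718537 .nil))))) (.node (.node (.node (.I .tdb (.c 8 (.c 2049 (.c 24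 (.c 48 .nil)))) (.l 13057 .nil)) (.I .tdb (.c 0 (.c 16 (.c 48 (.c 24 .nil)))) (.b 8 (.l 13057 .nil)))) (.node (.I .com (.c 33587273 (.c 15456253916349769 .nil)) .nil) (.I .com (.c 33587273 (.c 15246325749294473 .nil)) .nil))) (.node (.node (.I .tdb (.c 513 (.c 16 (.c 48 (.c 24 .nil)))) (.l 13057 .nil)) (.I .tdb (.c 0 (.c 8 (.c 24 (.c 48 .nil)))) (.b 16 (.l 13057 .nil)))) (.node (.I .com (.c 2105481 (.c 15246325749294473 .nil)) .nil) (.I .adp (.c 18689 (.c 40 (.c 59555558875337 .nil))) .nil))))) (.node (.node (.node (.node (.I .com (.c 28374916743629853698454908873 (.c 18689 .nil)) .nil) (.I .jac (.c 59555558875337 (.c 32 (.c 48 .nil))) (.r 40 .nil))) (.node (.I .tdb (.c 16 (.c 4609 (.c 8 (.c 48 .nil)))) (.l 13057 .nil)) (.I .tdb (.c 0 (.c 24 (.c 48 (.c 8 .nil)))) (.b 16 (.l 13057 .nil))))) (.node (.node (.I .ass (.c 13057 (.c 2105737 (.c 4737 .nil))) .nil) (.I .com (.c 13057 (.c 2105737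 .nil)) (.r 4737 .nil))) (.node (.I .ass (.c 13057 (.c 513 (.c 179513737 .nil))) .nil) (.I .ass (.c 513 (.c 13057 (.c 179513737 .nil))) .nil)))) (.node (.node (.node (.I .com (.c 13057 (.c 513 .nil)) (.r 179513737 .nil)) (.I .jac (.c 513 (.c 32 (.c 40 .nil))) (.r 179513737 .nil))) (.node (.I .com (.c 12865 (.c 18689 .nil)) (.l 33587401 .nil)) (.I .jac (.c 2803715 (.c 40 (.c 48 .nil))) (.b 8257 .nil)))) (.node (.node (.I .jac (.c 12801 (.c 32 (.c 48 .nil))) (.r 35718345 .nil)) (.I .jac (.c 12801 (.c 32 (.c 48 .nil))) (.r 2803779 .nil))) (.node (.I .jac (.c 12929 (.c 32 (.c 48 .nil))) (.l 4673 (.l 0 .nil))) (.I .jac (.c 12993 (.c 32 (.c 48 .nil))) (.l 2113 (.l 0 .nil)))))))) (.node (.node (.node (.node (.node (.I .jac (.c 18433 (.c 32 (.c 40 .nil))) (.r 2803779 .nil)) (.I .jac (.c 18561 (.c 32 (.c 40 .nil))) (.l 4673 (.l 0 .nil)))) (.node (.I .jac (.c 18625 (.c 32 (.c 40 .nil))) (.l 2113 (.l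 0 .nil))) (.I .com (.c 14832759703961993 (.c 24 .nil)) (.b 8257 .nil)))) (.node (.node (.I .jac (.c 43356675 (.c 8 (.c 16 .nil))) (.l 13057 .nil)) (.I .com (.c 35718345 (.c 13057 .nil)) (.l 18433 .nil))) (.node (.I .ass (.c 12801 (.c 18689 (.c 35718345 .nil))) .nil) (.I .jac (.c 2728451 (.c 40 (.c 48 .nil))) (.b 8321 .nil))))) (.node (.node (.node (.I .com (.c 1712113961689565885627358955911113 (.c 4737 .nil)) .nil) (.I .com (.c 93738611484293500497757600954377 (.c 4737 .nil)) .nil)) (.node (.I .jac (.c 42762755 (.c 32 (.c 40 .nil))) (.l 4737 .nil)) (.I .adp (.c 40 (.c 48 (.c 169943113 .nil))) (.b 8321 .nil)))) (.node (.node (.I .com (.c 231045293249046537 (.c 40 .nil)) (.b 8321 .nil)) (.I .adp (.c 40 (.c 48 (.c 33587273 .nil))) (.b 8385 .nil))) (.node (.I .com (.c 9024839260612617 (.c 40 .nil)) (.b 8385 .nil)) (.I .com (.c 1310925001 (.c 2379905498923997961 .nil)) .nil))))) (.node (.node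 (.node (.node (.I .jac (.c 13748196208362033929 (.c 8 (.c 48 .nil))) (.r 24 .nil)) (.I .jac (.c 1310925065 (.c 16 (.c 48 .nil))) (.l 4673 .nil))) (.node (.I .jac (.c 12801 (.c 18561 (.c 32 .nil))) (.l 4673 .nil)) (.I .adp (.c 2306972423229201161 (.c 24 (.c 12865 .nil))) .nil))) (.node (.node (.I .adp (.c 59109065668069837705 (.c 24 (.c 12865 .nil))) .nil) (.I .adp (.c 9025011228269449 (.c 24 (.c 12865 .nil))) .nil)) (.node (.I .jac (.c 12801 (.c 16 (.c 32 .nil))) (.b 48 (.l 4673 .nil))) (.I .com (.c 1512102601296135269515422934336011009033 (.c 4673 .nil)) .nil)))) (.node (.node (.node (.I .adp (.c 59109071234951844617 (.c 24 (.c 12865 .nil))) .nil) (.I .jac (.c 59109071234951844617 (.c 8 (.c 40 .nil))) (.r 24 .nil))) (.node (.I .adp (.c 15246281046235273 (.c 24 (.c 12801 .nil))) .nil) (.I .adp (.c 15246281046235209 (.c 24 (.c 12865 .nil))) .nil))) (.node (.node (.I .com (.c 1310925065 (.c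 244149027818380041 .nil)) .nil) (.I .jac (.c 13748194865974800137 (.c 8 (.c 48 .nil))) (.r 32 .nil))) (.node (.I .adp (.c 59109065668069837641 (.c 32 (.c 12865 .nil))) .nil) (.I .adp (.c 9025011228269385 (.c 32 (.c 12865 .nil))) .nil)))))))

noncomputable def c5_112 : Tr := (.node (.node (.node (.node (.node (.node (.I .com (.c 1512102601296135255437272766182275864585 (.c 8257 .nil)) .nil) (.I .jac (.c 59109068451510808329 (.c 8 (.c 40 .nil))) (.r 32 .nil))) (.node (.I .adp (.c 15038498931046473 (.c 32 (.c 12865 .nil))) .nil) (.I .jac (.c 12801 (.c 24 (.c 32 .nil))) (.l 2737112201 .nil)))) (.node (.node (.I .com (.c 13748196208362033993 (.c 2737112201 .nil)) .nil) (.I .com (.c 13748194865974800265 (.c 2737112201 .nil)) .nil)) (.node (.I .jac (.c 12801 (.c 16 (.c 48 .nil))) (.l 174695689 .nil)) (.I .com (.c 13748193523587632137 (.c 174695689 .nil)) .nil)))) (.node (.node (.node (.I .com (.c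 1310925001 (.c 598976858557897 .nil)) .nil) (.I .com (.c 6441087201774154803902012064218617234054960584590616392649 (.c 32 .nil)) .nil)) (.node (.I .tdb (.c 0 (.c 40 (.c 24 (.c 32 .nil)))) (.b 35718537 .nil)) (.I .jac (.c 12801 (.c 16 (.c 48 .nil))) (.l 8786499 .nil)))) (.node (.node (.I .com (.c 13748193523587632137 (.c 8786499 .nil)) .nil) (.I .com (.c 1310925001 (.c 18561 .nil)) (.l 8257 .nil))) (.node (.I .ass (.c 8257 (.c 13748193523587632137 (.c 24 .nil))) .nil) (.I .ass (.c 13748193523587632137 (.c 8257 (.c 24 .nil))) .nil))))) (.node (.node (.node (.node (.I .com (.c 8257 (.c 13748193523587632137 .nil)) (.r 24 .nil)) (.I .jac (.c 12801 (.c 16 (.c 48 .nil))) (.r 32 (.l 4673 .nil)))) (.node (.I .ass (.c 4673 (.c 13748193523587632137 (.c 32 .nil))) .nil) (.I .ass (.c 13748193523587632137 (.c 4673 (.c 32 .nil))) .nil))) (.node (.node (.I .com (.c 4673 (.c 13748193523587632137 .nil))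 (.r 32 .nil)) (.I .com (.c 8786435 (.c 18561 .nil)) (.b 12865 .nil))) (.node (.I .jac (.c 15246191640314057 (.c 8 (.c 40 .nil))) (.r 24 .nil)) (.I .adp (.c 62886542410185 (.c 32 (.c 12865 .nil))) .nil)))) (.node (.node (.node (.I .adp (.c 8786435 (.c 18561 (.c 12865 .nil))) .nil) (.I .adp (.c 18561 (.c 24 (.c 12865 .nil))) (.l 8193 .nil))) (.node (.I .adp (.c 18561 (.c 32 (.c 12865 .nil))) (.l 4609 .nil)) (.I .jac (.c 1310925001 (.c 16 (.c 32 .nil))) (.l 18497 .nil)))) (.node (.node (.I .jac (.c 12801 (.c 8321 (.c 24 .nil))) (.l 18497 .nil)) (.I .com (.c 1512102896582526849770380112053152561929 (.c 18497 .nil)) .nil)) (.node (.I .com (.c 1512102601296135269515422934336011008841 (.c 18497 .nil)) .nil) (.I .com (.c 1310925193 (.c 244148670041477897 .nil)) .nil)))))) (.node (.node (.node (.node (.node (.I .jac (.c 12801 (.c 16 (.c 24 .nil))) (.b 32 (.l 18497 .nil))) (.I .com (.c 1512103191868961664028723725600700192521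 (.c 18497 .nil)) .nil)) (.node (.I .com (.c 1512102601296135255437272766182275864457 (.c 18497 .nil)) .nil) (.I .com (.c 1310925193 (.c 2379903823379377929 .nil)) .nil))) (.node (.node (.I .adp (.c 18433 (.c 8786563 (.c 12865 .nil))) .nil) (.I .jac (.c 12801 (.c 16 (.c 32 .nil))) (.l 174695817 .nil))) (.node (.I .com (.c 13748196208362033929 (.c 174695817 .nil)) .nil) (.I .jac (.c 12801 (.c 24 (.c 48 .nil))) (.l 545424521 .nil))))) (.node (.node (.node (.I .com (.c 1310925001 (.c 8321 .nil)) (.l 18497 .nil)) (.I .ass (.c 18497 (.c 13748196208362033929 (.c 24 .nil))) .nil)) (.node (.I .com (.c 18497 (.c 13748196208362033929 .nil)) (.r 24 .nil)) (.I .ass (.c 18497 (.c 13748193523587632009 (.c 24 .nil))) .nil))) (.node (.node (.I .com (.c 18497 (.c 13748193523587632009 .nil)) (.r 24 .nil)) (.I .ass (.c 18497 (.c 1310925001 (.c 8321 .nil))) .nil)) (.node (.I .com (.c 18497 (.c 1310925001 .nil))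 (.r 8321 .nil)) (.I .com (.c 1310925193 (.c 8321 .nil)) (.l 4673 .nil)))))) (.node (.node (.node (.node (.I .jac (.c 14832759703961929 (.c 8 (.c 40 .nil))) (.r 24 .nil)) (.I .com (.c 13748193523587631945 (.c 545424777 .nil)) .nil)) (.node (.I .jac (.c 12801 (.c 32 (.c 48 .nil))) (.l 174695561 .nil)) (.I .jac (.c 12801 (.c 32 (.c 48 .nil))) (.l 35718345 .nil)))) (.node (.node (.I .com (.c 13748196208362034185 (.c 35718345 .nil)) .nil) (.I .jac (.c 12801 (.c 16 (.c 24 .nil))) (.l 43655235 .nil))) (.node (.I .com (.c 13748194865974800137 (.c 43655235 .nil)) .nil) (.I .com (.c 13748193523587631945 (.c 43655235 .nil)) .nil)))) (.node (.node (.node (.I .com (.c 1310925065 (.c 4737 .nil)) (.l 18497 .nil)) (.I .ass (.c 18497 (.c 1310925065 (.c 4737 .nil))) .nil)) (.node (.I .com (.c 18497 (.c 1310925065 .nil)) (.r 4737 .nil)) (.I .ass (.c 18497 (.c 13748194865974800137 (.c 32 .nil))) .nil))) (.node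 (.node (.I .com (.c 18497 (.c 13748194865974800137 .nil)) (.r 32 .nil)) (.I .ass (.c 18497 (.c 13748193523587631945 (.c 32 .nil))) .nil)) (.node (.I .com (.c 18497 (.c 13748193523587631945 .nil)) (.r 32 .nil)) (.I .com (.c 43655171 (.c 4737 .nil)) (.b 12865 .nil))))))))

noncomputable def c5_113 : Tr := (.node (.node (.node (.node (.node (.node (.I .adp (.c 43655171 (.c 4737 (.c 12865 .nil))) .nil) (.I .adp (.c 14832759703961865 (.c 32 (.c 12865 .nil))) .nil)) (.node (.I .jac (.c 14832759703961865 (.c 8 (.c 40 .nil))) (.r 32 .nil)) (.I .com (.c 1310924937 (.c 244149027818380169 .nil)) .nil))) (.node (.node (.I .com (.c 1310924937 (.c 2379903823379378185 .nil)) .nil) (.I .com (.c 2306972423229201225 (.c 16 .nil)) (.b 12865 .nil))) (.node (.I .adp (.c 2306972423229201225 (.c 16 (.c 12865 .nil))) .nil) (.I .jac (.c 59109068451510808457 (.c 8 (.c 40 .nil))) (.r 16 .nil))))) (.node (.node (.node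 (.I .com (.c 59109071234951844681 (.c 16 .nil)) (.b 12865 .nil)) (.I .adp (.c 59109071234951844681 (.c 16 (.c 12865 .nil))) .nil)) (.node (.I .adp (.c 15246325749294153 (.c 16 (.c 12865 .nil))) .nil) (.I .com (.c 1310924937 (.c 617620517416393 .nil)) .nil))) (.node (.node (.I .com (.c 24783224170185853388707980014192630350737371035841168755876379416521 (.c 32 .nil)) .nil) (.I .com (.c 19589859843187240611233587493957403567650780349208521 (.c 32 .nil)) .nil)) (.node (.I .com (.c 24783224170186708860719149059560031860601918802557700209685079986121 (.c 32 .nil)) .nil) (.I .com (.c 19589859837137981227538416911687542859649913336316873 (.c 32 .nil)) .nil))))) (.node (.node (.node (.node (.I .jac (.c 12801 (.c 24 (.c 48 .nil))) (.r 32 (.l 2113 .nil))) (.I .ass (.c 2113 (.c 13748194865974800393 (.c 32 .nil))) .nil)) (.node (.I .ass (.c 13748194865974800393 (.c 2113 (.c 32 .nil))) .nil) (.I .com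 (.c 2113 (.c 13748194865974800393 .nil)) (.r 32 .nil)))) (.node (.node (.I .adp (.c 16 (.c 18625 (.c 12865 .nil))) (.l 8193 .nil)) (.I .adp (.c 18625 (.c 32 (.c 12865 .nil))) (.l 2049 .nil))) (.node (.I .jac (.c 12801 (.c 24 (.c 32 .nil))) (.l 43059267 .nil)) (.I .com (.c 13748196208362033993 (.c 43059267 .nil)) .nil)))) (.node (.node (.node (.I .com (.c 13748194865974800265 (.c 43059267 .nil)) .nil) (.I .com (.c 1310925193 (.c 8385 .nil)) (.l 2113 .nil))) (.node (.I .jac (.c 12865 (.c 24 (.c 32 .nil))) (.l 16 (.l 18433 .nil))) (.I .jac (.c 8193 (.c 8 (.c 43954819 .nil))) (.l 24 .nil)))) (.node (.node (.I .com (.c 2306969674129488545 (.c 24 .nil)) .nil) (.I .jac (.c 15456208906582089 (.c 8 (.c 32 .nil))) (.l 24 .nil))) (.node (.I .com (.c 24783224170187136596724733590550663056521642191908096146866509139913 (.c 24 .nil)) .nil) (.I .jac (.c 12801 (.c 32 (.c 48 .nil))) (.l 2803779 .nil)))))))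 (.node (.node (.node (.node (.node (.I .com (.c 13748196208362034185 (.c 2803779 .nil)) .nil) (.I .jac (.c 12801 (.c 32 (.c 48 .nil))) (.l 24 (.l 2113 .nil)))) (.node (.I .com (.c 13748196208362034185 (.c 24 .nil)) (.l 2113 .nil)) (.I .ass (.c 2113 (.c 13748196208362034185 (.c 24 .nil))) .nil))) (.node (.node (.I .ass (.c 13748196208362034185 (.c 2113 (.c 24 .nil))) .nil) (.I .com (.c 2113 (.c 13748196208362034185 .nil)) (.r 24 .nil))) (.node (.I .com (.c 2803715 (.c 18689 .nil)) (.b 12865 .nil)) (.I .adp (.c 16 (.c 18689 (.c 12865 .nil))) (.l 4609 .nil))))) (.node (.node (.node (.I .adp (.c 24 (.c 18689 (.c 12865 .nil))) (.l 2049 .nil)) (.I .jac (.c 537002185 (.c 8 (.c 48 .nil))) (.b 12929 .nil))) (.node (.I .jac (.c 2718204105 (.c 8 (.c 32 .nil))) (.b 12929 .nil)) (.I .jac (.c 2718204169 (.c 8 (.c 24 .nil))) (.b 12929 .nil)))) (.node (.node (.I .adp (.c 59109062884628932489 (.c 24 (.c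 12929 .nil))) .nil) (.I .jac (.c 4609 (.c 16 (.c 40 .nil))) (.r 2737112329 .nil))) (.node (.I .adp (.c 59109071234951844553 (.c 24 (.c 12929 .nil))) .nil) (.I .jac (.c 59109071234951844553 (.c 16 (.c 40 .nil))) (.r 24 .nil)))))) (.node (.node (.node (.node (.I .adp (.c 15246236343241801 (.c 24 (.c 12929 .nil))) .nil) (.I .jac (.c 15246236343241801 (.c 16 (.c 40 .nil))) (.r 24 .nil))) (.node (.I .jac (.c 4609 (.c 16 (.c 40 .nil))) (.r 43655235 .nil)) (.I .adp (.c 231046163358603977 (.c 32 (.c 12929 .nil))) .nil))) (.node (.node (.I .adp (.c 59109062884628932425 (.c 32 (.c 12929 .nil))) .nil) (.I .jac (.c 59109062884628932425 (.c 16 (.c 40 .nil))) (.r 32 .nil))) (.node (.I .jac (.c 8193 (.c 16 (.c 40 .nil))) (.r 2737112265 .nil)) (.I .jac (.c 59109068451510808265 (.c 16 (.c 40 .nil))) (.r 32 .nil))))) (.node (.node (.node (.I .adp (.c 35466557976585 (.c 32 (.c 12929 .nil))) .nil) (.I .adp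 (.c 15038454533712969 (.c 32 (.c 12929 .nil))) .nil)) (.node (.I .jac (.c 15038454533712969 (.c 16 (.c 40 .nil))) (.r 32 .nil)) (.I .adp (.c 8193 (.c 43356739 (.c 12929 .nil))) .nil))) (.node (.node (.I .jac (.c 537002185 (.c 16 (.c 40 .nil))) (.r 18497 .nil)) (.I .jac (.c 169943305 (.c 16 (.c 40 .nil))) (.r 18497 .nil))) (.node (.I .com (.c 8786435 (.c 18497 .nil)) (.b 12929 .nil)) (.I .adp (.c 15246191640313993 (.c 24 (.c 12929 .nil))) .nil)))))))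

noncomputable def c5_114 : Tr := (.node (.node (.node (.node (.node (.node (.I .jac (.c 15246191640313993 (.c 16 (.c 40 .nil))) (.r 24 .nil)) (.I .adp (.c 580749782704585 (.c 24 (.c 12929 .nil))) .nil)) (.node (.I .adp (.c 8786435 (.c 18497 (.c 12929 .nil))) .nil) (.I .jac (.c 8786435 (.c 16 (.c 40 .nil))) (.r 18497 .nil)))) (.node (.node (.I .adp (.c 18497 (.c 24 (.c 12929 .nil))) (.l 8193 .nil)) (.I .adp (.c 18497 (.c 32 (.c 12929 .nil))) (.l 4609 .nil))) (.node (.I .adp (.c 35466557976457 (.c 48 (.c 12929 .nil))) .nil) (.I .jac (.c 14629225721520393 (.c 16 (.c 40 .nil))) (.r 32 .nil))))) (.node (.node (.node (.I .jac (.c 1310925001 (.c 16 (.c 32 .nil))) (.b 48 (.l 8 .nil))) (.I .jac (.c 12801 (.c 8321 (.c 48 .nil))) (.b 24 (.l 8 .nil)))) (.node (.I .jac (.c 12801 (.c 16 (.c 32 .nil))) (.b 48 (.b 24 (.l 8 .nil)))) (.I .com (.c 18291648502882414793990884575208062674675073637948631312895131832587142813795145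 (.c 8 .nil)) .nil))) (.node (.node (.I .jac (.c 1310925065 (.c 16 (.c 48 .nil))) (.b 24 (.l 8 .nil))) (.I .jac (.c 1310925001 (.c 16 (.c 48 .nil))) (.b 32 (.l 8 .nil)))) (.node (.I .jac (.c 12801 (.c 18561 (.c 24 .nil))) (.b 32 (.l 8 .nil))) (.I .jac (.c 12801 (.c 16 (.c 48 .nil))) (.b 24 (.b 32 (.l 8 .nil)))))))) (.node (.node (.node (.node (.I .com (.c 18291648502882415134592803966624182683633491467101037772051102322018599703773961 (.c 8 .nil)) .nil) (.I .com (.c 18291648502882415134592803966624182677439916793205770796189449941958131714683913 (.c 8 .nil)) .nil)) (.node (.I .jac (.c 1310925065 (.c 16 (.c 24 .nil))) (.b 48 (.l 8 .nil))) (.I .jac (.c 12801 (.c 16 (.c 24 .nil))) (.b 48 (.b 32 (.l 8 .nil)))))) (.node (.node (.I .com (.c 18291648502882414793990884575208062670029892632527181124246978309680076189947913 (.c 8 .nil)) .nil) (.I .jac (.c 12801 (.c 553912521 (.c 48 .nil))) (.l 8 .nil)))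 (.node (.I .jac (.c 12801 (.c 8321 (.c 24 .nil))) (.b 48 (.l 8 .nil))) (.I .jac (.c 12801 (.c 16 (.c 32 .nil))) (.b 24 (.b 48 (.l 8 .nil))))))) (.node (.node (.node (.I .com (.c 231046163358604169 (.c 8 .nil)) (.b 12929 .nil)) (.I .adp (.c 231046163358604169 (.c 8 (.c 12929 .nil))) .nil)) (.node (.I .jac (.c 13748194865974800265 (.c 16 (.c 48 .nil))) (.l 8 .nil)) (.I .jac (.c 12801 (.c 16 (.c 48 .nil))) (.b 32 (.b 24 (.l 8 .nil)))))) (.node (.node (.I .jac (.c 12801 (.c 179513609 (.c 48 .nil))) (.l 8 .nil)) (.I .jac (.c 12801 (.c 4737 (.c 32 .nil))) (.b 48 (.l 8 .nil)))) (.node (.I .jac (.c 12801 (.c 16 (.c 24 .nil))) (.b 32 (.b 48 (.l 8 .nil)))) (.I .com (.c 59109071234951844681 (.c 8 .nil)) (.b 12929 .nil))))))) (.node (.node (.node (.node (.node (.I .adp (.c 59109071234951844681 (.c 8 (.c 12929 .nil))) .nil) (.I .jac (.c 8 (.c 16 (.c 40 .nil))) (.l 59109071234951844681 .nil))) (.node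 (.I .jac (.c 59109071234951844681 (.c 16 (.c 40 .nil))) (.r 8 .nil)) (.I .adp (.c 15246325749294153 (.c 8 (.c 12929 .nil))) .nil))) (.node (.node (.I .adp (.c 513 (.c 43655363 (.c 12929 .nil))) .nil) (.I .adp (.c 8 (.c 15246281046235401 (.c 12801 .nil))) .nil)) (.node (.I .com (.c 23450673742497901511923054532230323129287277401317973952284762773449 (.c 32 .nil)) .nil) (.I .com (.c 23450673742498311880358975801693308650538466665638519017772930479049 (.c 32 .nil)) .nil)))) (.node (.node (.node (.I .com (.c 15246191640314121 (.c 8 .nil)) (.b 12929 .nil)) (.I .adp (.c 15246191640314121 (.c 8 (.c 12929 .nil))) .nil)) (.node (.I .jac (.c 15246191640314121 (.c 16 (.c 40 .nil))) (.r 8 .nil)) (.I .jac (.c 8 (.c 16 (.c 40 .nil))) (.l 617611520074185 .nil)))) (.node (.node (.I .tdb (.c 16 (.c 40 (.c 8 (.c 32 .nil)))) (.b 2718204105 .nil)) (.I .adp (.c 8520195 (.c 18625 (.c 12929 .nil))) .nil)) (.node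 (.I .adp (.c 8 (.c 18625 (.c 12929 .nil))) (.l 8193 .nil)) (.I .adp (.c 18625 (.c 32 (.c 12929 .nil))) (.l 513 .nil)))))) (.node (.node (.node (.node (.I .jac (.c 8 (.c 16 (.c 40 .nil))) (.l 15038410136445257 .nil)) (.I .tdb (.c 0 (.c 48 (.c 8 (.c 40 .nil)))) (.b 16 (.l 8385 .nil)))) (.node (.I .jac (.c 8193 (.c 43954755 (.c 16 .nil))) (.l 24 .nil)) (.I .com (.c 58240646186319479625272581884954800165420559385987583829832649 (.c 24 .nil)) .nil))) (.node (.node (.I .com (.c 58240646186216787513332372176437605379642580613035000544560073 (.c 24 .nil)) .nil) (.I .com (.c 2306970224019627169 (.c 24 .nil)) .nil)) (.node (.I .com (.c 2728451 (.c 18689 .nil)) (.b 12929 .nil)) (.I .adp (.c 2728451 (.c 18689 (.c 12929 .nil))) .nil)))) (.node (.node (.node (.I .adp (.c 8 (.c 18689 (.c 12929 .nil))) (.l 4609 .nil)) (.I .adp (.c 24 (.c 18689 (.c 12929 .nil))) (.l 513 .nil))) (.node (.I .adp (.c 0 (.c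 15246325749294281 (.c 12865 .nil))) .nil) (.I .jac (.c 0 (.c 8 (.c 40 .nil))) (.r 15246325749294281 .nil)))) (.node (.node (.I .adp (.c 0 (.c 15246325749294217 (.c 12929 .nil))) .nil) (.I .jac (.c 0 (.c 16 (.c 40 .nil))) (.r 15246325749294217 .nil))) (.node (.I .adp (.c 0 (.c 15246281046235401 (.c 12865 .nil))) .nil) (.I .jac (.c 0 (.c 8 (.c 40 .nil))) (.r 15246281046235401 .nil))))))))

noncomputable def c5_115 : Tr := (.node (.node (.node (.node (.node (.node (.I .adp (.c 0 (.c 617629514824137 (.c 12865 .nil))) .nil) (.I .jac (.c 0 (.c 8 (.c 40 .nil))) (.r 617629514824137 .nil))) (.node (.I .adp (.c 0 (.c 15246236343241993 (.c 12929 .nil))) .nil) (.I .jac (.c 0 (.c 16 (.c 40 .nil))) (.r 15246236343241993 .nil)))) (.node (.node (.I .adp (.c 0 (.c 15038498931046729 (.c 12865 .nil))) .nil) (.I .jac (.c 0 (.c 8 (.c 40 .nil))) (.r 15038498931046729 .nil))) (.node (.I .adp (.c 0 (.c 15038454533713225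 (.c 12929 .nil))) .nil) (.I .jac (.c 0 (.c 16 (.c 40 .nil))) (.r 15038454533713225 .nil))))) (.node (.node (.node (.I .com (.c 29219431338612430885229781418978173775125986667055942390175580601033 (.c 24 .nil)) .nil) (.I .com (.c 29219431338611946923215950238731118199641355788927348155321626163977 (.c 24 .nil)) .nil)) (.node (.I .adp (.c 16 (.c 40 (.c 8 .nil))) (.b 2306972423229201225 .nil)) (.I .com (.c 12865 (.c 16 .nil)) (.b 2306972423229201225 .nil)))) (.node (.node (.I .adp (.c 2113 (.c 40 (.c 2306972423229201225 .nil))) .nil) (.I .adp (.c 12865 (.c 16 (.c 59109068451510808457 .nil))) .nil)) (.node (.I .adp (.c 16 (.c 40 (.c 8 .nil))) (.b 231046163358604169 .nil)) (.I .com (.c 12865 (.c 16 .nil)) (.b 231046163358604169 .nil)))))) (.node (.node (.node (.node (.I .adp (.c 2113 (.c 40 (.c 231046163358604169 .nil))) .nil) (.I .adp (.c 16 (.c 40 (.c 8 .nil))) (.b 2306970773558194185 .nil)))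 (.node (.I .com (.c 12865 (.c 16 .nil)) (.b 2306970773558194185 .nil)) (.I .adp (.c 12865 (.c 16 (.c 2306970773558194185 .nil))) .nil))) (.node (.node (.I .adp (.c 2113 (.c 40 (.c 2306970773558194185 .nil))) .nil) (.I .adp (.c 16 (.c 40 (.c 8 .nil))) (.b 59109071234951844681 .nil))) (.node (.I .com (.c 12865 (.c 16 .nil)) (.b 59109071234951844681 .nil)) (.I .adp (.c 12865 (.c 16 (.c 59109071234951844681 .nil))) .nil)))) (.node (.node (.node (.I .com (.c 27951058418068892742902176168037983934217 (.c 12865 .nil)) .nil) (.I .com (.c 27951058418068892742902176168037983934409 (.c 2113 .nil)) .nil)) (.node (.I .adp (.c 12865 (.c 16 (.c 231045815314584585 .nil))) .nil) (.I .adp (.c 2113 (.c 40 (.c 231045815314584585 .nil))) .nil))) (.node (.node (.I .adp (.c 16 (.c 40 (.c 43655363 .nil))) (.b 513 .nil)) (.I .adp (.c 16 (.c 40 (.c 0 .nil))) (.b 15246325749294217 .nil))) (.node (.I .com (.c 12801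 (.c 16 .nil)) (.b 15246325749294217 .nil)) (.I .adp (.c 2049 (.c 40 (.c 15246325749294217 .nil))) .nil)))))) (.node (.node (.node (.node (.node (.I .adp (.c 16 (.c 40 (.c 8 .nil))) (.b 15246325749294153 .nil)) (.I .com (.c 12865 (.c 16 .nil)) (.b 15246325749294153 .nil))) (.node (.I .adp (.c 12865 (.c 16 (.c 15246325749294153 .nil))) .nil) (.I .jac (.c 3491688652046601 (.c 8 (.c 48 .nil))) (.r 32 .nil)))) (.node (.node (.I .adp (.c 12801 (.c 16 (.c 617620517416393 .nil))) .nil) (.I .adp (.c 2049 (.c 40 (.c 617620517416393 .nil))) .nil)) (.node (.I .ass (.c 9024942441009865 (.c 18625 (.c 40 .nil))) .nil) (.I .com (.c 3491710045195345 (.c 18625 .nil)) .nil)))) (.node (.node (.node (.I .adp (.c 12865 (.c 16 (.c 617611520074185 .nil))) .nil) (.I .ass (.c 12865 (.c 59109068451510808329 (.c 32 .nil))) .nil)) (.node (.I .com (.c 12865 (.c 59109068451510808329 .nil)) (.r 32 .nil)) (.I .ass (.c 12865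 (.c 2718204105 (.c 8321 .nil))) .nil))) (.node (.node (.I .com (.c 12865 (.c 2718204105 .nil)) (.r 8321 .nil)) (.I .com (.c 2718204105 (.c 598976858557833 .nil)) .nil)) (.node (.I .tdb (.c 4609 (.c 48 (.c 16 (.c 32 .nil)))) (.l 12865 .nil)) (.I .tdb (.c 0 (.c 24 (.c 32 (.c 16 .nil)))) (.b 48 (.l 12865 .nil))))))) (.node (.node (.node (.node (.I .ass (.c 12865 (.c 8193 (.c 2756085961 .nil))) .nil) (.I .ass (.c 8193 (.c 12865 (.c 2756085961 .nil))) .nil)) (.node (.I .com (.c 12865 (.c 8193 .nil)) (.r 2756085961 .nil)) (.I .adp (.c 2113 (.c 40 (.c 15246191640314121 .nil))) .nil))) (.node (.node (.I .ass (.c 2113 (.c 59109068451510808521 (.c 32 .nil))) .nil) (.I .ass (.c 59109068451510808521 (.c 2113 (.c 32 .nil))) .nil)) (.node (.I .com (.c 2113 (.c 59109068451510808521 .nil)) (.r 32 .nil)) (.I .ass (.c 2306970223667989193 (.c 18625 (.c 40 .nil))) .nil)))) (.node (.node (.node (.I .ass (.c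 2306969673777850121 (.c 18625 (.c 40 .nil))) .nil) (.I .tdb (.c 0 (.c 32 (.c 8 (.c 40 .nil)))) (.b 16 (.l 18625 .nil)))) (.node (.I .jac (.c 1310924937 (.c 24 (.c 32 .nil))) (.l 18497 .nil)) (.I .jac (.c 20891651 (.c 24 (.c 32 .nil))) (.l 18497 .nil)))) (.node (.node (.I .adp (.c 12801 (.c 16 (.c 15038454533713225 .nil))) .nil) (.I .adp (.c 2049 (.c 40 (.c 15038454533713225 .nil))) .nil)) (.node (.I .ass (.c 12865 (.c 18433 (.c 553912521 .nil))) .nil) (.I .com (.c 12865 (.c 18433 .nil)) (.r 553912521 .nil))))))))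

noncomputable def c5_116 : Tr := (.node (.node (.node (.node (.node (.node (.I .ass (.c 12865 (.c 18433 (.c 179513609 .nil))) .nil) (.I .com (.c 12865 (.c 18433 .nil)) (.r 179513609 .nil))) (.node (.I .jac (.c 1324065929 (.c 32 (.c 48 .nil))) (.l 4609 .nil)) (.I .tdb (.c 48 (.c 8257 (.c 16 (.c 24 .nil)))) (.l 12801 .nil)))) (.node (.node (.I .tdb (.c 8 (.c 32 (.c 16 (.c 24 .nil)))) (.b 48 (.l 12801 .nil))) (.I .ass (.c 9024908047478473 (.c 18689 (.c 40 .nil))) .nil)) (.node (.I .ass (.c 9024839260612425 (.c 18689 (.c 40 .nil))) .nil) (.I .ass (.c 12865 (.c 59109071234951844617 (.c 24 .nil))) .nil)))) (.node (.node (.node (.I .com (.c 12865 (.c 59109071234951844617 .nil)) (.r 24 .nil)) (.I .ass (.c 12865 (.c 2718204169 (.c 4737 .nil))) .nil)) (.node (.I .com (.c 12865 (.c 2718204169 .nil)) (.r 4737 .nil)) (.I .ass (.c 12865 (.c 4609 (.c 2756086025 .nil))) .nil))) (.node (.node (.I .ass (.c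 4609 (.c 12865 (.c 2756086025 .nil))) .nil) (.I .com (.c 12865 (.c 4609 .nil)) (.r 2756086025 .nil))) (.node (.I .ass (.c 231045467270826697 (.c 18689 (.c 40 .nil))) .nil) (.I .ass (.c 231045293249046281 (.c 18689 (.c 40 .nil))) .nil))))) (.node (.node (.node (.node (.I .tdb (.c 16 (.c 12801 (.c 24 (.c 32 .nil)))) (.l 18497 .nil)) (.I .com (.c 13748193523587632009 (.c 24 .nil)) (.l 18497 .nil))) (.node (.I .tdb (.c 16 (.c 12801 (.c 24 (.c 32 .nil)))) (.b 18497 .nil)) (.I .com (.c 13748193523587632137 (.c 24 .nil)) (.l 8257 .nil)))) (.node (.node (.I .com (.c 14025204674709064585 (.c 24 .nil)) (.l 18433 .nil)) (.I .com (.c 14025204674709064713 (.c 24 .nil)) (.l 8193 .nil))) (.node (.I .com (.c 14025204674709064713 (.c 32 .nil)) (.l 4609 .nil)) (.I .jac (.c 13748196208362033993 (.c 16 (.c 48 .nil))) (.r 8 .nil))))) (.node (.node (.node (.I .jac (.c 8 (.c 553912521 (.c 48 .nil))) (.l 12801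 .nil)) (.I .jac (.c 8 (.c 8321 (.c 24 .nil))) (.b 48 (.l 12801 .nil)))) (.node (.I .jac (.c 8 (.c 16 (.c 32 .nil))) (.b 24 (.b 48 (.l 12801 .nil)))) (.I .adp (.c 8 (.c 12929 (.c 2306972423229201225 .nil))) .nil))) (.node (.node (.I .adp (.c 8 (.c 12929 (.c 59109068451510808457 .nil))) .nil) (.I .jac (.c 59109068451510808457 (.c 16 (.c 40 .nil))) (.l 8 .nil))) (.node (.I .adp (.c 8 (.c 12929 (.c 231046163358604169 .nil))) .nil) (.I .jac (.c 8 (.c 179513609 (.c 48 .nil))) (.l 12801 .nil))))))) (.node (.node (.node (.node (.node (.I .jac (.c 8 (.c 4737 (.c 32 .nil))) (.b 48 (.l 12801 .nil))) (.I .jac (.c 8 (.c 16 (.c 24 .nil))) (.b 32 (.b 48 (.l 12801 .nil))))) (.node (.I .adp (.c 8 (.c 40 (.c 16 .nil))) (.b 59109071234951844681 .nil)) (.I .adp (.c 8 (.c 12929 (.c 59109071234951844681 .nil))) .nil))) (.node (.node (.I .com (.c 6250093333522399303094997664594709857056025435159091751549910341669577497713434377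 (.c 8 .nil)) .nil) (.I .com (.c 6250093333522399303094997664594709856970159783698784113043714856481364811067225033 (.c 8 .nil)) .nil)) (.node (.I .adp (.c 8 (.c 40 (.c 16 .nil))) (.b 231045815314584585 .nil)) (.I .adp (.c 8 (.c 40 (.c 43655363 .nil))) (.b 2049 .nil))))) (.node (.node (.node (.I .adp (.c 8 (.c 40 (.c 0 .nil))) (.b 15246325749294281 .nil)) (.I .com (.c 12801 (.c 8 .nil)) (.b 15246325749294281 .nil))) (.node (.I .adp (.c 513 (.c 40 (.c 15246325749294281 .nil))) .nil) (.I .adp (.c 8 (.c 40 (.c 16 .nil))) (.b 15246325749294153 .nil)))) (.node (.node (.I .adp (.c 8 (.c 12929 (.c 15246325749294153 .nil))) .nil) (.I .jac (.c 13748192181200529225 (.c 16 (.c 48 .nil))) (.r 32 .nil))) (.node (.I .jac (.c 1310924873 (.c 24 (.c 48 .nil))) (.l 8321 .nil)) (.I .com (.c 1512102306009786923259633531360632805385 (.c 8321 .nil)) .nil))))) (.node (.node (.node (.node (.I .adp (.c 8 (.c 40 (.c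 0 .nil))) (.b 617629514824137 .nil)) (.I .com (.c 12801 (.c 8 .nil)) (.b 617629514824137 .nil))) (.node (.I .adp (.c 12801 (.c 8 (.c 617629514824137 .nil))) .nil) (.I .jac (.c 3423058053193993 (.c 16 (.c 48 .nil))) (.r 32 .nil)))) (.node (.node (.I .jac (.c 8 (.c 16 (.c 24 .nil))) (.b 48 (.l 1310925065 .nil))) (.I .jac (.c 8 (.c 24 (.c 48 .nil))) (.l 13748196208362033929 .nil))) (.node (.I .ass (.c 35468714087177 (.c 18625 (.c 40 .nil))) .nil) (.I .adp (.c 8 (.c 12929 (.c 15246191640314121 .nil))) .nil)))) (.node (.node (.node (.I .jac (.c 15246191640314121 (.c 16 (.c 40 .nil))) (.l 8 .nil)) (.I .adp (.c 8 (.c 12929 (.c 617611520074185 .nil))) .nil)) (.node (.I .ass (.c 59109068451510808265 (.c 32 (.c 12929 .nil))) .nil) (.I .com (.c 12929 (.c 32 .nil)) (.l 59109068451510808265 .nil)))) (.node (.node (.I .ass (.c 231046163358603977 (.c 32 (.c 12929 .nil))) .nil) (.I .com (.c 12929 (.c 32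 .nil)) (.l 231046163358603977 .nil))) (.node (.I .com (.c 1512102306009786937337782324909974764361 (.c 18561 .nil)) .nil) (.I .com (.c 1512102306009786923259633531360632805257 (.c 18561 .nil)) .nil)))))))

noncomputable def c5_117 : Tr := (.node (.node (.node (.node (.node (.node (.I .adp (.c 12801 (.c 8 (.c 15038498931046729 .nil))) .nil) (.I .adp (.c 513 (.c 40 (.c 15038498931046729 .nil))) .nil)) (.node (.I .jac (.c 20685315 (.c 24 (.c 32 .nil))) (.l 18561 .nil)) (.I .com (.c 93738611484293500497757600954185 (.c 18561 .nil)) .nil))) (.node (.node (.I .com (.c 93738611484289995286311130272649 (.c 18561 .nil)) .nil) (.I .jac (.c 8 (.c 16 (.c 48 .nil))) (.l 13748196208362033993 .nil))) (.node (.I .com (.c 13748192181200529225 (.c 2756086025 .nil)) .nil) (.I .com (.c 1512102306009786937337782324909974764553 (.c 4737 .nil)) .nil)))) (.node (.node (.node (.I .jac (.c 3423058053194057 (.c 16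 (.c 48 .nil))) (.r 24 .nil)) (.I .tdb (.c 48 (.c 8321 (.c 8 (.c 24 .nil)))) (.l 12801 .nil))) (.node (.I .tdb (.c 16 (.c 32 (.c 8 (.c 24 .nil)))) (.b 48 (.l 12801 .nil))) (.I .jac (.c 8 (.c 16 (.c 32 .nil))) (.b 48 (.l 1310925001 .nil))))) (.node (.node (.I .jac (.c 8 (.c 32 (.c 48 .nil))) (.l 13748194865974800137 .nil)) (.I .jac (.c 8 (.c 32 (.c 48 .nil))) (.l 13748193523587631945 .nil))) (.node (.I .ass (.c 59109071234951844553 (.c 24 (.c 12929 .nil))) .nil) (.I .com (.c 12929 (.c 24 .nil)) (.l 59109071234951844553 .nil)))))) (.node (.node (.node (.node (.I .ass (.c 2306972423229201097 (.c 24 (.c 12929 .nil))) .nil) (.I .com (.c 12929 (.c 24 .nil)) (.l 2306972423229201097 .nil))) (.node (.I .com (.c 13748192181200529225 (.c 43655299 .nil)) .nil) (.I .com (.c 13748192181200529289 (.c 43356803 .nil)) .nil))) (.node (.node (.I .tdb (.c 8 (.c 12801 (.c 24 (.c 32 .nil)))) (.l 18561 .nil)) (.I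 .com (.c 13748192181200529289 (.c 24 .nil)) (.l 18561 .nil))) (.node (.I .ass (.c 18561 (.c 13748192181200529289 (.c 24 .nil))) .nil) (.I .com (.c 18561 (.c 13748192181200529289 .nil)) (.r 24 .nil))))) (.node (.node (.node (.I .ass (.c 18561 (.c 13748192181200529225 (.c 32 .nil))) .nil) (.I .com (.c 18561 (.c 13748192181200529225 .nil)) (.r 32 .nil))) (.node (.I .com (.c 13748192181200529417 (.c 8786563 .nil)) .nil) (.I .com (.c 13748192181200529417 (.c 24 .nil)) (.l 8321 .nil)))) (.node (.node (.I .ass (.c 8321 (.c 13748192181200529417 (.c 24 .nil))) .nil) (.I .ass (.c 13748192181200529417 (.c 8321 (.c 24 .nil))) .nil)) (.node (.I .com (.c 8321 (.c 13748192181200529417 .nil)) (.r 24 .nil)) (.I .com (.c 13748192181200529417 (.c 32 .nil)) (.l 4737 .nil))))))) (.node (.node (.node (.node (.node (.I .ass (.c 4737 (.c 13748192181200529417 (.c 32 .nil))) .nil) (.I .ass (.c 13748192181200529417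 (.c 4737 (.c 32 .nil))) .nil)) (.node (.I .com (.c 4737 (.c 13748192181200529417 .nil)) (.r 32 .nil)) (.I .jac (.c 513 (.c 21099139 (.c 48 .nil))) (.l 32 .nil)))) (.node (.node (.I .tdb (.c 513 (.c 40 (.c 24 (.c 32 .nil)))) (.b 18561 .nil)) (.I .tdb (.c 0 (.c 8 (.c 24 (.c 32 .nil)))) (.b 40 (.b 18561 .nil)))) (.node (.I .jac (.c 537002185 (.c 16 (.c 48 .nil))) (.r 12865 .nil)) (.I .jac (.c 169943305 (.c 16 (.c 48 .nil))) (.r 12865 .nil))))) (.node (.node (.node (.I .adp (.c 0 (.c 12865 (.c 15246325749294281 .nil))) .nil) (.I .adp (.c 0 (.c 12929 (.c 15246325749294217 .nil))) .nil)) (.node (.I .adp (.c 0 (.c 40 (.c 8 .nil))) (.b 617629514824137 .nil)) (.I .adp (.c 0 (.c 12865 (.c 617629514824137 .nil))) .nil))) (.node (.node (.I .jac (.c 8786435 (.c 16 (.c 48 .nil))) (.r 12865 .nil)) (.I .ass (.c 231046163358604041 (.c 32 (.c 12865 .nil))) .nil)) (.node (.I .com (.c 12865 (.c 32 .nil)) (.l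 231046163358604041 .nil)) (.I .ass (.c 59109065668069837641 (.c 32 (.c 12865 .nil))) .nil))))) (.node (.node (.node (.node (.I .com (.c 12865 (.c 32 .nil)) (.l 59109065668069837641 .nil)) (.I .ass (.c 9025011228269385 (.c 32 (.c 12865 .nil))) .nil)) (.node (.I .com (.c 12865 (.c 32 .nil)) (.l 9025011228269385 .nil)) (.I .ass (.c 231045467270827017 (.c 32 (.c 12865 .nil))) .nil))) (.node (.node (.I .com (.c 12865 (.c 32 .nil)) (.l 231045467270827017 .nil)) (.I .ass (.c 59109068451510808329 (.c 32 (.c 12865 .nil))) .nil)) (.node (.I .com (.c 12865 (.c 32 .nil)) (.l 59109068451510808329 .nil)) (.I .ass (.c 9024908047478793 (.c 32 (.c 12865 .nil))) .nil)))) (.node (.node (.node (.I .com (.c 12865 (.c 32 .nil)) (.l 9024908047478793 .nil)) (.I .ass (.c 33587465 (.c 18625 (.c 12865 .nil))) .nil)) (.node (.I .adp (.c 0 (.c 40 (.c 16 .nil))) (.b 617620517416393 .nil)) (.I .ass (.c 59109062884628932425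 (.c 32 (.c 12929 .nil))) .nil))) (.node (.node (.I .com (.c 12929 (.c 32 .nil)) (.l 59109062884628932425 .nil)) (.I .ass (.c 35473026505545 (.c 32 (.c 12929 .nil))) .nil)) (.node (.I .com (.c 12929 (.c 32 .nil)) (.l 35473026505545 .nil)) (.I .ass (.c 231045293249046537 (.c 32 (.c 12929 .nil))) .nil)))))))

noncomputable def c5_118 : Tr := (.node (.node (.node (.node (.node (.node (.I .com (.c 12929 (.c 32 .nil)) (.l 231045293249046537 .nil)) (.I .ass (.c 35466557976585 (.c 32 (.c 12929 .nil))) .nil)) (.node (.I .com (.c 12929 (.c 32 .nil)) (.l 35466557976585 .nil)) (.I .ass (.c 2105609 (.c 18625 (.c 12929 .nil))) .nil))) (.node (.node (.I .adp (.c 0 (.c 40 (.c 8 .nil))) (.b 15038498931046729 .nil)) (.I .ass (.c 537002185 (.c 18561 (.c 12865 .nil))) .nil)) (.node (.I .ass (.c 169943305 (.c 18561 (.c 12865 .nil))) .nil) (.I .adp (.c 0 (.c 40 (.c 16 .nil))) (.b 15038454533713225 .nil))))) (.node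 (.node (.node (.I .ass (.c 2306972423229201161 (.c 24 (.c 12865 .nil))) .nil) (.I .com (.c 12865 (.c 24 .nil)) (.l 2306972423229201161 .nil))) (.node (.I .ass (.c 59109065668069837705 (.c 24 (.c 12865 .nil))) .nil) (.I .com (.c 12865 (.c 24 .nil)) (.l 59109065668069837705 .nil)))) (.node (.node (.I .ass (.c 9025011228269449 (.c 24 (.c 12865 .nil))) .nil) (.I .com (.c 12865 (.c 24 .nil)) (.l 9025011228269449 .nil))) (.node (.I .ass (.c 2306970223667989513 (.c 24 (.c 12865 .nil))) .nil) (.I .com (.c 12865 (.c 24 .nil)) (.l 2306970223667989513 .nil)))))) (.node (.node (.node (.node (.I .ass (.c 59109071234951844617 (.c 24 (.c 12865 .nil))) .nil) (.I .com (.c 12865 (.c 24 .nil)) (.l 59109071234951844617 .nil))) (.node (.I .ass (.c 9024942441010185 (.c 24 (.c 12865 .nil))) .nil) (.I .com (.c 12865 (.c 24 .nil)) (.l 9024942441010185 .nil)))) (.node (.node (.I .ass (.c 33587401 (.c 18689 (.c 12865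 .nil))) .nil) (.I .ass (.c 59109062884628932489 (.c 24 (.c 12929 .nil))) .nil)) (.node (.I .com (.c 12929 (.c 24 .nil)) (.l 59109062884628932489 .nil)) (.I .ass (.c 35473026505609 (.c 24 (.c 12929 .nil))) .nil)))) (.node (.node (.node (.I .com (.c 12929 (.c 24 .nil)) (.l 35473026505609 .nil)) (.I .ass (.c 2306969673777850377 (.c 24 (.c 12929 .nil))) .nil)) (.node (.I .com (.c 12929 (.c 24 .nil)) (.l 2306969673777850377 .nil)) (.I .ass (.c 35468714087433 (.c 24 (.c 12929 .nil))) .nil))) (.node (.node (.I .com (.c 12929 (.c 24 .nil)) (.l 35468714087433 .nil)) (.I .ass (.c 2105545 (.c 18689 (.c 12929 .nil))) .nil)) (.node (.I .adp (.c 8 (.c 16 (.c 40 .nil))) (.b 2306972423229201225 .nil)) (.I .adp (.c 8 (.c 16 (.c 40 .nil))) (.b 59109068451510808457 .nil))))))) (.node (.node (.node (.node (.node (.I .adp (.c 8 (.c 16 (.c 40 .nil))) (.b 231046163358604169 .nil)) (.I .adp (.c 8 (.c 16 (.c 40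 .nil))) (.b 231045815314584585 .nil))) (.node (.I .ass (.c 24 (.c 35464401931145 (.c 18753 .nil))) .nil) (.I .ass (.c 35464401931145 (.c 24 (.c 18753 .nil))) .nil))) (.node (.node (.I .com (.c 24 (.c 35464401931145 .nil)) (.r 18753 .nil)) (.I .tdb (.c 513 (.c 16 (.c 24 (.c 32 .nil)))) (.b 18753 .nil))) (.node (.I .tdb (.c 0 (.c 8 (.c 24 (.c 32 .nil)))) (.b 16 (.b 18753 .nil))) (.I .ass (.c 24 (.c 9024839260612489 (.c 18753 .nil))) .nil)))) (.node (.node (.node (.I .ass (.c 9024839260612489 (.c 24 (.c 18753 .nil))) .nil) (.I .com (.c 24 (.c 9024839260612489 .nil)) (.r 18753 .nil))) (.node (.I .adp (.c 0 (.c 16 (.c 43655363 .nil))) (.b 12865 .nil)) (.I .adp (.c 0 (.c 16 (.c 40 .nil))) (.b 15246325749294217 .nil)))) (.node (.node (.I .adp (.c 0 (.c 16 (.c 40 .nil))) (.b 617620517416393 .nil)) (.I .adp (.c 0 (.c 16 (.c 40 .nil))) (.b 15038454533713225 .nil))) (.node (.I .com (.c 9025011228269449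 (.c 24 .nil)) (.b 12865 .nil)) (.I .adp (.c 0 (.c 8 (.c 40 .nil))) (.b 15246325749294281 .nil)))))) (.node (.node (.node (.node (.I .adp (.c 0 (.c 8 (.c 43655363 .nil))) (.b 12929 .nil)) (.I .adp (.c 0 (.c 8 (.c 40 .nil))) (.b 15038498931046729 .nil))) (.node (.I .jac (.c 8193 (.c 8 (.c 48 .nil))) (.b 16 (.b 12993 .nil))) (.I .jac (.c 537002121 (.c 8 (.c 48 .nil))) (.b 12993 .nil)))) (.node (.node (.I .jac (.c 8193 (.c 18497 (.c 16 .nil))) (.b 12993 .nil)) (.I .jac (.c 18433 (.c 8 (.c 16 .nil))) (.b 32 (.b 12993 .nil)))) (.node (.I .jac (.c 2718204169 (.c 8 (.c 16 .nil))) (.b 12993 .nil)) (.I .jac (.c 18433 (.c 2113 (.c 32 .nil))) (.b 12993 .nil))))) (.node (.node (.node (.I .adp (.c 2306972423229201097 (.c 16 (.c 12993 .nil))) .nil) (.I .jac (.c 2306972423229201097 (.c 24 (.c 40 .nil))) (.r 16 .nil))) (.node (.I .adp (.c 59109062884628932489 (.c 16 (.c 12993 .nil))) .nil) (.I .jac (.c 59109062884628932489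 (.c 24 (.c 40 .nil))) (.r 16 .nil)))) (.node (.node (.I .adp (.c 2306969673777850377 (.c 16 (.c 12993 .nil))) .nil) (.I .jac (.c 2049 (.c 24 (.c 40 .nil))) (.r 2737112329 .nil))) (.node (.I .adp (.c 35468714087433 (.c 16 (.c 12993 .nil))) .nil) (.I .adp (.c 2049 (.c 43655235 (.c 12993 .nil))) .nil)))))))

noncomputable def c5_119 : Tr := (.node (.node (.node (.node (.node (.node (.I .jac (.c 2049 (.c 24 (.c 40 .nil))) (.r 43655235 .nil)) (.I .adp (.c 9025011228269257 (.c 32 (.c 12993 .nil))) .nil)) (.node (.I .jac (.c 9025011228269257 (.c 24 (.c 40 .nil))) (.r 32 .nil)) (.I .adp (.c 59109062884628932361 (.c 32 (.c 12993 .nil))) .nil))) (.node (.node (.I .jac (.c 59109062884628932361 (.c 24 (.c 40 .nil))) (.r 32 .nil)) (.I .jac (.c 35473026505481 (.c 24 (.c 40 .nil))) (.r 32 .nil))) (.node (.I .adp (.c 35464401931273 (.c 32 (.c 12993 .nil))) .nil) (.I .jac (.c 33587465 (.c 24 (.c 40 .nil)))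 (.r 18497 .nil))))) (.node (.node (.node (.I .com (.c 8652803 (.c 18497 .nil)) (.b 12993 .nil)) (.I .adp (.c 580749782704585 (.c 16 (.c 12993 .nil))) .nil)) (.node (.I .jac (.c 16 (.c 24 (.c 40 .nil))) (.l 580749782704585 .nil)) (.I .adp (.c 14832759703961737 (.c 32 (.c 12993 .nil))) .nil))) (.node (.node (.I .jac (.c 14832759703961737 (.c 24 (.c 40 .nil))) (.r 32 .nil)) (.I .adp (.c 2487083360713 (.c 32 (.c 12993 .nil))) .nil)) (.node (.I .adp (.c 18497 (.c 16 (.c 12993 .nil))) (.l 8193 .nil)) (.I .adp (.c 18497 (.c 32 (.c 12993 .nil))) (.l 2049 .nil)))))) (.node (.node (.node (.node (.I .adp (.c 2306969673777850121 (.c 48 (.c 12993 .nil))) .nil) (.I .adp (.c 35468714087177 (.c 48 (.c 12993 .nil))) .nil)) (.node (.I .adp (.c 35464401931145 (.c 48 (.c 12993 .nil))) .nil) (.I .adp (.c 18433 (.c 8652867 (.c 12993 .nil))) .nil))) (.node (.node (.I .jac (.c 2105609 (.c 24 (.c 40 .nil))) (.r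 18561 .nil)) (.I .adp (.c 14629225721520457 (.c 16 (.c 12993 .nil))) .nil)) (.node (.I .jac (.c 16 (.c 24 (.c 40 .nil))) (.l 14629225721520457 .nil)) (.I .jac (.c 14629225721520457 (.c 24 (.c 40 .nil))) (.r 16 .nil))))) (.node (.node (.node (.I .adp (.c 43059203 (.c 8257 (.c 12993 .nil))) .nil) (.I .com (.c 43655171 (.c 2113 .nil)) (.b 12993 .nil))) (.node (.I .adp (.c 43655171 (.c 2113 (.c 12993 .nil))) .nil) (.I .adp (.c 14629225721520329 (.c 32 (.c 12993 .nil))) .nil))) (.node (.node (.I .jac (.c 14629225721520329 (.c 24 (.c 40 .nil))) (.r 32 .nil)) (.I .jac (.c 8520195 (.c 16 (.c 48 .nil))) (.b 12993 .nil))) (.node (.I .com (.c 2306972423229201161 (.c 8 .nil)) (.b 12993 .nil)) (.I .com (.c 9025011228269449 (.c 8 .nil)) (.b 12993 .nil))))))) (.node (.node (.node (.node (.node (.I .adp (.c 2306972423229201161 (.c 8 (.c 12993 .nil))) .nil) (.I .jac (.c 2306972423229201161 (.c 24 (.c 40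 .nil))) (.r 8 .nil))) (.node (.I .adp (.c 9025011228269449 (.c 8 (.c 12993 .nil))) .nil) (.I .jac (.c 513 (.c 24 (.c 40 .nil))) (.r 2756086025 .nil)))) (.node (.node (.I .jac (.c 42762755 (.c 16 (.c 32 .nil))) (.b 12993 .nil)) (.I .jac (.c 8 (.c 24 (.c 40 .nil))) (.l 15246191640314057 .nil))) (.node (.I .adp (.c 598967998054857 (.c 8 (.c 12993 .nil))) .nil) (.I .adp (.c 8520195 (.c 18561 (.c 12993 .nil))) .nil)))) (.node (.node (.node (.I .jac (.c 8520195 (.c 24 (.c 40 .nil))) (.r 18561 .nil)) (.I .adp (.c 8 (.c 18561 (.c 12993 .nil))) (.l 8193 .nil))) (.node (.I .jac (.c 8 (.c 24 (.c 40 .nil))) (.r 18561 (.l 8193 .nil))) (.I .adp (.c 18561 (.c 32 (.c 12993 .nil))) (.l 513 .nil)))) (.node (.node (.I .jac (.c 8 (.c 24 (.c 40 .nil))) (.l 14832759703961929 .nil)) (.I .tdb (.c 48 (.c 8193 (.c 8 (.c 16 .nil)))) (.b 12993 .nil))) (.node (.I .tdb (.c 0 (.c 32 (.c 8 (.c 16 .nil)))) (.b 48 (.b 12993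 .nil))) (.I .adp (.c 557571 (.c 18689 (.c 12993 .nil))) .nil))))) (.node (.node (.node (.node (.I .adp (.c 8 (.c 18689 (.c 12993 .nil))) (.l 2049 .nil)) (.I .adp (.c 16 (.c 18689 (.c 12993 .nil))) (.l 513 .nil))) (.node (.I .adp (.c 43059203 (.c 32 (.c 40 .nil))) (.b 4673 .nil)) (.I .adp (.c 43059203 (.c 32 (.c 24 .nil))) (.b 12865 .nil)))) (.node (.node (.I .adp (.c 43059203 (.c 32 (.c 8 .nil))) (.b 12993 .nil)) (.I .com (.c 74495752857537580654899489529475691160123190661307065769906121 (.c 16 .nil)) .nil)) (.node (.I .adp (.c 24 (.c 40 (.c 8 .nil))) (.b 59109065668069837705 .nil)) (.I .com (.c 12865 (.c 24 .nil)) (.b 59109065668069837705 .nil))))) (.node (.node (.node (.I .com (.c 27951053153217538953647197609480317336393 (.c 12865 .nil)) .nil) (.I .com (.c 27951053153217538953647197609480317336521 (.c 4673 .nil)) .nil)) (.node (.I .adp (.c 24 (.c 40 (.c 8 .nil))) (.b 9025011228269449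 .nil)) (.I .com (.c 12865 (.c 24 .nil)) (.b 9025011228269449 .nil)))) (.node (.node (.I .adp (.c 4673 (.c 40 (.c 9025011228269449 .nil))) .nil) (.I .adp (.c 4673 (.c 40 (.c 2306970223667989513 .nil))) .nil)) (.node (.I .adp (.c 12865 (.c 24 (.c 59109071234951844617 .nil))) .nil) (.I .adp (.c 4673 (.c 40 (.c 59109071234951844617 .nil))) .nil)))))))

noncomputable def c5_120 : Tr := (.node (.node (.node (.node (.node (.node (.I .adp (.c 24 (.c 40 (.c 8 .nil))) (.b 9024942441010185 .nil)) (.I .com (.c 12865 (.c 24 .nil)) (.b 9024942441010185 .nil))) (.node (.I .adp (.c 4673 (.c 40 (.c 9024942441010185 .nil))) .nil) (.I .adp (.c 12801 (.c 24 (.c 15246281046235273 .nil))) .nil))) (.node (.node (.I .adp (.c 12865 (.c 24 (.c 15246281046235209 .nil))) .nil) (.I .adp (.c 12801 (.c 24 (.c 15246236343241929 .nil))) .nil)) (.node (.I .adp (.c 12801 (.c 24 (.c 598976858557897 .nil))) .nil) (.I .adp (.c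 4609 (.c 40 (.c 598976858557897 .nil))) .nil)))) (.node (.node (.node (.I .ass (.c 231045815314584265 (.c 18561 (.c 40 .nil))) .nil) (.I .jac (.c 8193 (.c 16 (.c 48 .nil))) (.b 21099075 .nil))) (.node (.I .adp (.c 12865 (.c 24 (.c 15246191640314057 .nil))) .nil) (.I .ass (.c 12865 (.c 59109065668069837641 (.c 32 .nil))) .nil))) (.node (.node (.I .com (.c 12865 (.c 59109065668069837641 .nil)) (.r 32 .nil)) (.I .com (.c 2718204041 (.c 617620517416329 .nil)) .nil)) (.node (.I .tdb (.c 2049 (.c 48 (.c 24 (.c 32 .nil)))) (.l 12865 .nil)) (.I .tdb (.c 0 (.c 16 (.c 32 (.c 24 .nil)))) (.b 48 (.l 12865 .nil))))))) (.node (.node (.node (.node (.I .adp (.c 4673 (.c 40 (.c 15246191640314057 .nil))) .nil) (.I .ass (.c 4673 (.c 59109065668069837769 (.c 32 .nil))) .nil)) (.node (.I .ass (.c 59109065668069837769 (.c 4673 (.c 32 .nil))) .nil) (.I .com (.c 4673 (.c 59109065668069837769 .nil)) (.r 32 .nil))))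 (.node (.node (.I .ass (.c 2306970773558193865 (.c 18561 (.c 40 .nil))) .nil) (.I .tdb (.c 0 (.c 32 (.c 8 (.c 40 .nil)))) (.b 24 (.l 18561 .nil)))) (.node (.I .adp (.c 12801 (.c 24 (.c 14832803796618569 .nil))) .nil) (.I .ass (.c 13748198893136698057 (.c 8321 (.c 24 .nil))) .nil)))) (.node (.node (.node (.I .ass (.c 231046163358603977 (.c 8321 (.c 40 .nil))) .nil) (.I .jac (.c 18433 (.c 16 (.c 32 .nil))) (.b 21099075 .nil))) (.node (.I .adp (.c 12865 (.c 24 (.c 14832759703961929 .nil))) .nil) (.I .ass (.c 59109074018392946377 (.c 8321 (.c 24 .nil))) .nil))) (.node (.node (.I .ass (.c 59109062884628932553 (.c 8321 (.c 24 .nil))) .nil) (.I .adp (.c 4673 (.c 40 (.c 14832759703961929 .nil))) .nil)) (.node (.I .ass (.c 59109068451510808265 (.c 8321 (.c 40 .nil))) .nil) (.I .jac (.c 1310925001 (.c 32 (.c 48 .nil))) (.l 2113 .nil))))))) (.node (.node (.node (.node (.node (.I .jac (.c 3561346121425225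 (.c 8 (.c 48 .nil))) (.r 16 .nil)) (.I .jac (.c 24 (.c 32 (.c 48 .nil))) (.l 2113 (.l 12801 .nil)))) (.node (.I .jac (.c 24 (.c 32 (.c 48 .nil))) (.l 2049 (.l 12865 .nil))) (.I .ass (.c 12865 (.c 2049 (.c 562466185 .nil))) .nil))) (.node (.node (.I .ass (.c 2049 (.c 12865 (.c 562466185 .nil))) .nil) (.I .com (.c 12865 (.c 2049 .nil)) (.r 562466185 .nil))) (.node (.I .tdb (.c 24 (.c 12801 (.c 16 (.c 32 .nil)))) (.l 18497 .nil)) (.I .tdb (.c 24 (.c 12801 (.c 16 (.c 32 .nil)))) (.b 18497 .nil))))) (.node (.node (.node (.I .tdb (.c 4609 (.c 40 (.c 16 (.c 32 .nil)))) (.l 18497 .nil)) (.I .tdb (.c 0 (.c 24 (.c 32 (.c 16 .nil)))) (.b 40 (.l 18497 .nil)))) (.node (.I .tdb (.c 4609 (.c 40 (.c 16 (.c 32 .nil)))) (.b 18497 .nil)) (.I .tdb (.c 0 (.c 24 (.c 32 (.c 16 .nil)))) (.b 40 (.b 18497 .nil))))) (.node (.node (.I .com (.c 14025206030552608777 (.c 32 .nil)) (.l 2049 .nil)) (.I .tdb (.c 4673 (.c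 40 (.c 16 (.c 32 .nil)))) (.l 18433 .nil))) (.node (.I .tdb (.c 8 (.c 24 (.c 32 (.c 16 .nil)))) (.b 40 (.l 18433 .nil))) (.I .jac (.c 3491688652046793 (.c 8 (.c 24 .nil))) (.l 32 .nil)))))) (.node (.node (.node (.node (.I .jac (.c 2306972423229201161 (.c 24 (.c 40 .nil))) (.l 8 .nil)) (.I .adp (.c 8 (.c 40 (.c 24 .nil))) (.b 59109065668069837705 .nil))) (.node (.I .adp (.c 8 (.c 12993 (.c 9025011228269449 .nil))) .nil) (.I .adp (.c 8 (.c 40 (.c 24 .nil))) (.b 2306970223667989513 .nil)))) (.node (.node (.I .adp (.c 8 (.c 12993 (.c 2306970223667989513 .nil))) .nil) (.I .adp (.c 8 (.c 40 (.c 24 .nil))) (.b 59109071234951844617 .nil))) (.node (.I .jac (.c 59109071234951844617 (.c 24 (.c 40 .nil))) (.l 8 .nil)) (.I .adp (.c 8 (.c 12993 (.c 9024942441010185 .nil))) .nil)))) (.node (.node (.node (.I .adp (.c 8 (.c 12993 (.c 15246281046235209 .nil))) .nil) (.I .ass (.c 59109065668069837513 (.c 32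 (.c 12993 .nil))) .nil)) (.node (.I .com (.c 12993 (.c 32 .nil)) (.l 59109065668069837513 .nil)) (.I .ass (.c 9025011228269257 (.c 32 (.c 12993 .nil))) .nil))) (.node (.node (.I .com (.c 12993 (.c 32 .nil)) (.l 9025011228269257 .nil)) (.I .jac (.c 13748192181200529289 (.c 24 (.c 48 .nil))) (.l 16 .nil))) (.node (.I .jac (.c 1310924873 (.c 24 (.c 48 .nil))) (.b 32 (.l 16 .nil))) (.I .com (.c 18291627070720922696274976743898254764368868198737022773233475155738302282318665 (.c 16 .nil)) .nil)))))))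

noncomputable def c5_121 : Tr := (.node (.node (.node (.node (.node (.node (.I .com (.c 18291627070720922696274976743898254759723689914674957301731807853614859805906953 (.c 16 .nil)) .nil) (.I .jac (.c 1310924873 (.c 24 (.c 32 .nil))) (.b 48 (.l 16 .nil)))) (.node (.I .jac (.c 3423058053194057 (.c 24 (.c 48 .nil))) (.l 16 .nil)) (.I .com (.c 70295418264026570724123255045173558057950527221325376179752114185 (.c 16 .nil)) .nil))) (.node (.node (.I .jac (.c 18497 (.c 24 (.c 32 .nil))) (.l 16 (.l 12801 .nil))) (.I .jac (.c 513 (.c 43954819 (.c 24 .nil))) (.l 32 .nil))) (.node (.I .adp (.c 0 (.c 12993 (.c 15246281046235273 .nil))) .nil) (.I .adp (.c 0 (.c 12993 (.c 15246236343241929 .nil))) .nil)))) (.node (.node (.node (.I .adp (.c 0 (.c 40 (.c 24 .nil))) (.b 598976858557897 .nil)) (.I .ass (.c 59109062884628932361 (.c 32 (.c 12993 .nil))) .nil)) (.node (.I .com (.c 12993 (.c 32 .nil)) (.l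 59109062884628932361 .nil)) (.I .ass (.c 35473026505481 (.c 32 (.c 12993 .nil))) .nil))) (.node (.node (.I .com (.c 12993 (.c 32 .nil)) (.l 35473026505481 .nil)) (.I .ass (.c 9024839260612617 (.c 32 (.c 12993 .nil))) .nil)) (.node (.I .com (.c 12993 (.c 32 .nil)) (.l 9024839260612617 .nil)) (.I .ass (.c 35464401931273 (.c 32 (.c 12993 .nil))) .nil))))) (.node (.node (.node (.node (.I .com (.c 12993 (.c 32 .nil)) (.l 35464401931273 .nil)) (.I .adp (.c 0 (.c 40 (.c 24 .nil))) (.b 14832803796618569 .nil))) (.node (.I .adp (.c 0 (.c 12993 (.c 14832803796618569 .nil))) .nil) (.I .jac (.c 8652803 (.c 24 (.c 48 .nil))) (.r 12865 .nil)))) (.node (.node (.I .jac (.c 0 (.c 8 (.c 24 .nil))) (.b 15246281046235529 .nil)) (.I .adp (.c 8 (.c 24 (.c 40 .nil))) (.b 59109065668069837705 .nil))) (.node (.I .adp (.c 8 (.c 24 (.c 40 .nil))) (.b 9025011228269449 .nil)) (.I .adp (.c 8 (.c 24 (.c 40 .nil))) (.b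 59109071234951844617 .nil))))) (.node (.node (.node (.I .adp (.c 8 (.c 24 (.c 40 .nil))) (.b 9024942441010185 .nil)) (.I .adp (.c 8 (.c 24 (.c 43655299 .nil))) (.b 12801 .nil))) (.node (.I .adp (.c 8 (.c 24 (.c 40 .nil))) (.b 15246281046235209 .nil)) (.I .adp (.c 8 (.c 24 (.c 40 .nil))) (.b 15246191640314057 .nil)))) (.node (.node (.I .tdb (.c 513 (.c 24 (.c 16 (.c 32 .nil)))) (.l 18753 .nil)) (.I .tdb (.c 0 (.c 8 (.c 16 (.c 32 .nil)))) (.b 24 (.l 18753 .nil)))) (.node (.I .tdb (.c 513 (.c 24 (.c 16 (.c 32 .nil)))) (.b 18753 .nil)) (.I .tdb (.c 0 (.c 8 (.c 16 (.c 32 .nil)))) (.b 24 (.b 18753 .nil)))))))) (.node (.node (.node (.node (.node (.I .adp (.c 0 (.c 24 (.c 43655299 .nil))) (.b 12865 .nil)) (.I .adp (.c 0 (.c 24 (.c 40 .nil))) (.b 15246281046235273 .nil))) (.node (.I .adp (.c 0 (.c 24 (.c 40 .nil))) (.b 15246236343241929 .nil)) (.I .adp (.c 0 (.c 24 (.c 40 .nil))) (.b 598976858557897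 .nil)))) (.node (.node (.I .com (.c 35468714087433 (.c 16 .nil)) (.b 12993 .nil)) (.I .adp (.c 12929 (.c 24 (.c 2306972423229201097 .nil))) .nil)) (.node (.I .adp (.c 4737 (.c 40 (.c 2306972423229201097 .nil))) .nil) (.I .com (.c 42576974092320097194025833638928027593 (.c 4737 .nil)) .nil)))) (.node (.node (.node (.I .adp (.c 24 (.c 40 (.c 16 .nil))) (.b 59109062884628932489 .nil)) (.I .com (.c 12929 (.c 24 .nil)) (.b 59109062884628932489 .nil))) (.node (.I .adp (.c 4737 (.c 40 (.c 59109062884628932489 .nil))) .nil) (.I .com (.c 27951050520792140940324630661021757881289 (.c 4737 .nil)) .nil))) (.node (.node (.I .adp (.c 12929 (.c 24 (.c 35473026505609 .nil))) .nil) (.I .adp (.c 4737 (.c 40 (.c 35473026505609 .nil))) .nil)) (.node (.I .adp (.c 24 (.c 40 (.c 16 .nil))) (.b 2306969673777850377 .nil)) (.I .com (.c 12929 (.c 24 .nil)) (.b 2306969673777850377 .nil)))))) (.node (.node (.node (.node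 (.I .adp (.c 4737 (.c 40 (.c 2306969673777850377 .nil))) .nil) (.I .adp (.c 12929 (.c 24 (.c 59109071234951844553 .nil))) .nil)) (.node (.I .adp (.c 4737 (.c 40 (.c 59109071234951844553 .nil))) .nil) (.I .adp (.c 24 (.c 40 (.c 16 .nil))) (.b 35468714087433 .nil)))) (.node (.node (.I .com (.c 12929 (.c 24 .nil)) (.b 35468714087433 .nil)) (.I .adp (.c 4737 (.c 40 (.c 35468714087433 .nil))) .nil)) (.node (.I .tdb (.c 8 (.c 18433 (.c 24 (.c 32 .nil)))) (.l 12929 .nil)) (.I .ass (.c 12929 (.c 59109062884628932425 (.c 32 .nil))) .nil)))) (.node (.node (.node (.I .com (.c 12929 (.c 59109062884628932425 .nil)) (.r 32 .nil)) (.I .com (.c 2718203977 (.c 617629514824073 .nil)) .nil)) (.node (.I .ass (.c 12929 (.c 537002185 (.c 18497 .nil))) .nil) (.I .ass (.c 537002185 (.c 12929 (.c 18497 .nil))) .nil))) (.node (.node (.I .com (.c 12929 (.c 537002185 .nil)) (.r 18497 .nil)) (.I .ass (.c 12929 (.c 8193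 (.c 2737112265 .nil))) .nil)) (.node (.I .ass (.c 8193 (.c 12929 (.c 2737112265 .nil))) .nil) (.I .com (.c 12929 (.c 8193 .nil)) (.r 2737112265 .nil))))))))

noncomputable def c5_122 : Tr := (.node (.node (.node (.node (.node (.node (.I .ass (.c 4737 (.c 59109062884628932553 (.c 32 .nil))) .nil) (.I .ass (.c 59109062884628932553 (.c 4737 (.c 32 .nil))) .nil)) (.node (.I .com (.c 4737 (.c 59109062884628932553 .nil)) (.r 32 .nil)) (.I .com (.c 1712113961689565885627358955910985 (.c 12929 .nil)) .nil))) (.node (.node (.I .ass (.c 12929 (.c 2718204105 (.c 8257 .nil))) .nil) (.I .com (.c 12929 (.c 2718204105 .nil)) (.r 8257 .nil))) (.node (.I .ass (.c 12929 (.c 18433 (.c 545424585 .nil))) .nil) (.I .com (.c 12929 (.c 18433 .nil)) (.r 545424585 .nil))))) (.node (.node (.node (.I .ass (.c 59109065668069837769 (.c 8257 (.c 24 .nil))) .nil) (.I .com (.c 537002057 (.c 15456253916349641 .nil)) .nil))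 (.node (.I .tdb (.c 0 (.c 48 (.c 8 (.c 40 .nil)))) (.b 32 (.l 4737 .nil))) (.I .com (.c 537002057 (.c 15456208906582281 .nil)) .nil))) (.node (.node (.I .jac (.c 1337272521 (.c 32 (.c 48 .nil))) (.l 513 .nil)) (.I .tdb (.c 32 (.c 18433 (.c 8 (.c 24 .nil)))) (.l 12929 .nil))) (.node (.I .ass (.c 12929 (.c 2718204169 (.c 4673 .nil))) .nil) (.I .com (.c 12929 (.c 2718204169 .nil)) (.r 4673 .nil)))))) (.node (.node (.node (.node (.I .jac (.c 24 (.c 32 (.c 48 .nil))) (.l 513 (.l 12929 .nil))) (.I .ass (.c 12929 (.c 513 (.c 562466185 .nil))) .nil)) (.node (.I .ass (.c 513 (.c 12929 (.c 562466185 .nil))) .nil) (.I .com (.c 12929 (.c 513 .nil)) (.r 562466185 .nil)))) (.node (.node (.I .tdb (.c 32 (.c 18433 (.c 8 (.c 40 .nil)))) (.l 4737 .nil)) (.I .tdb (.c 24 (.c 12801 (.c 8 (.c 32 .nil)))) (.b 18561 .nil))) (.node (.I .jac (.c 59555558875593 (.c 16 (.c 40 .nil))) (.l 32 .nil)) (.I .jac (.c 15038454533712969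 (.c 16 (.c 40 .nil))) (.l 32 .nil))))) (.node (.node (.node (.I .com (.c 14306382363373563913 (.c 32 .nil)) (.l 513 .nil)) (.I .jac (.c 3423058053194185 (.c 16 (.c 24 .nil))) (.l 32 .nil))) (.node (.I .adp (.c 16 (.c 40 (.c 24 .nil))) (.b 2306972423229201097 .nil)) (.I .jac (.c 2306972423229201097 (.c 24 (.c 40 .nil))) (.l 16 .nil)))) (.node (.node (.I .com (.c 14502389782864774114704176754082437113170466000718784094293155055050954989385 (.c 16 .nil)) .nil) (.I .com (.c 14502389782864774114704176754082437025972823059647225040928247762526354610121 (.c 16 .nil)) .nil)) (.node (.I .adp (.c 16 (.c 12993 (.c 59109062884628932489 .nil))) .nil) (.I .com (.c 6250089801726996906276604807059669510338308654429670217720720708875649489730412361 (.c 16 .nil)) .nil)))))) (.node (.node (.node (.node (.node (.I .com (.c 6250089801726996906276604807059669510281064902963087913074935865281876929589663689 (.c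 16 .nil)) .nil) (.I .adp (.c 16 (.c 40 (.c 24 .nil))) (.b 35473026505609 .nil))) (.node (.I .adp (.c 16 (.c 12993 (.c 2306969673777850377 .nil))) .nil) (.I .adp (.c 16 (.c 40 (.c 24 .nil))) (.b 59109071234951844553 .nil)))) (.node (.node (.I .adp (.c 16 (.c 12993 (.c 35468714087433 .nil))) .nil) (.I .jac (.c 14629225721520457 (.c 24 (.c 40 .nil))) (.l 16 .nil))) (.node (.I .com (.c 23450673742498722248794897076545645409660943720441369768569949362121 (.c 16 .nil)) .nil) (.I .jac (.c 13748193523587632009 (.c 24 (.c 48 .nil))) (.l 8 .nil))))) (.node (.node (.node (.I .jac (.c 3491688652046665 (.c 24 (.c 48 .nil))) (.l 8 .nil)) (.I .com (.c 76104792608246240076934339165141554310972192297531888821362464777 (.c 8 .nil)) .nil)) (.node (.I .tdb (.c 2049 (.c 40 (.c 8 (.c 32 .nil)))) (.b 18625 .nil)) (.I .tdb (.c 0 (.c 16 (.c 32 (.c 8 .nil)))) (.b 40 (.b 18625 .nil))))) (.node (.node (.I .adp (.c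 16 (.c 24 (.c 40 .nil))) (.b 2306972423229201097 .nil)) (.I .adp (.c 16 (.c 24 (.c 40 .nil))) (.b 59109062884628932489 .nil))) (.node (.I .adp (.c 16 (.c 24 (.c 40 .nil))) (.b 35473026505609 .nil)) (.I .adp (.c 16 (.c 24 (.c 40 .nil))) (.b 2306969673777850377 .nil)))))) (.node (.node (.node (.node (.I .adp (.c 16 (.c 24 (.c 40 .nil))) (.b 59109071234951844553 .nil)) (.I .adp (.c 16 (.c 24 (.c 40 .nil))) (.b 35468714087433 .nil))) (.node (.I .tdb (.c 16 (.c 4609 (.c 8 (.c 32 .nil)))) (.l 18753 .nil)) (.I .tdb (.c 0 (.c 24 (.c 32 (.c 8 .nil)))) (.b 16 (.l 18753 .nil))))) (.node (.node (.I .tdb (.c 16 (.c 4609 (.c 8 (.c 32 .nil)))) (.b 18753 .nil)) (.I .tdb (.c 0 (.c 24 (.c 32 (.c 8 .nil)))) (.b 16 (.b 18753 .nil)))) (.node (.I .adp (.c 0 (.c 24 (.c 43655235 .nil))) (.b 12929 .nil)) (.I .jac (.c 0 (.c 12865 (.c 24 .nil))) (.r 553912713 .nil))))) (.node (.node (.node (.I .jac (.c 0 (.c 8 (.c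 40 .nil))) (.b 24 (.r 553912713 .nil))) (.I .ass (.c 12929 (.c 4609 (.c 2737112329 .nil))) .nil)) (.node (.I .ass (.c 4609 (.c 12929 (.c 2737112329 .nil))) .nil) (.I .com (.c 12929 (.c 4609 .nil)) (.r 2737112329 .nil)))) (.node (.node (.I .jac (.c 43356675 (.c 8 (.c 32 .nil))) (.l 12929 .nil)) (.I .jac (.c 15456118887243977 (.c 8 (.c 24 .nil))) (.l 32 .nil))) (.node (.I .jac (.c 8786435 (.c 16 (.c 40 .nil))) (.b 18497 .nil)) (.I .jac (.c 15456118887243913 (.c 16 (.c 24 .nil))) (.l 32 .nil))))))))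

noncomputable def c5_123 : Tr := (.node (.node (.node (.node (.node (.node (.I .adp (.c 16 (.c 40 (.c 2718204169 .nil))) (.b 4673 .nil)) (.I .adp (.c 16 (.c 40 (.c 537002377 .nil))) (.b 4673 .nil))) (.node (.I .jac (.c 0 (.c 12865 (.c 16 .nil))) (.r 2775125257 .nil)) (.I .jac (.c 0 (.c 8 (.c 40 .nil))) (.b 16 (.r 2775125257 .nil))))) (.node (.node (.I .jac (.c 0 (.c 12865 (.c 16 .nil))) (.r 562466185 .nil)) (.I .jac (.c 0 (.c 8 (.c 40 .nil))) (.b 16 (.r 562466185 .nil)))) (.node (.I .jac (.c 0 (.c 2113 (.c 40 .nil))) (.r 562466185 .nil)) (.I .jac (.c 0 (.c 8 (.c 16 .nil))) (.b 40 (.r 562466185 .nil)))))) (.node (.node (.node (.I .jac (.c 43059203 (.c 24 (.c 32 .nil))) (.l 12865 .nil)) (.I .jac (.c 14832759703961865 (.c 8 (.c 40 .nil))) (.l 32 .nil))) (.node (.I .jac (.c 15456118887244041 (.c 8 (.c 16 .nil))) (.l 32 .nil)) (.I .adp (.c 8 (.c 40 (.c 2718204169 .nil))) (.b 4737 .nil)))) (.node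 (.node (.I .adp (.c 8 (.c 40 (.c 43655171 .nil))) (.b 4737 .nil)) (.I .adp (.c 8 (.c 40 (.c 16 .nil))) (.b 15246191640314121 .nil))) (.node (.I .adp (.c 8 (.c 40 (.c 24 .nil))) (.b 15246191640314057 .nil)) (.I .adp (.c 16 (.c 24 (.c 2718204169 .nil))) (.b 12865 .nil)))))) (.node (.node (.node (.node (.I .adp (.c 16 (.c 24 (.c 537002377 .nil))) (.b 12865 .nil)) (.I .adp (.c 8 (.c 24 (.c 2718204169 .nil))) (.b 12929 .nil))) (.node (.I .adp (.c 8 (.c 24 (.c 43655171 .nil))) (.b 12929 .nil)) (.I .adp (.c 8 (.c 16 (.c 537002377 .nil))) (.b 12993 .nil)))) (.node (.node (.I .com (.c 59109071234951844681 (.c 1324065929 .nil)) .nil) (.I .jac (.c 2718204169 (.c 16 (.c 24 .nil))) (.l 12865 .nil))) (.node (.I .com (.c 59109071234951844809 (.c 174695561 .nil)) .nil) (.I .com (.c 59109071234951844809 (.c 35718345 .nil)) .nil)))) (.node (.node (.node (.I .com (.c 59109071234951844617 (.c 1324065993 .nil))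 .nil) (.I .com (.c 59109071234951844617 (.c 174695753 .nil)) .nil)) (.node (.I .com (.c 59109071234951844681 (.c 20891715 .nil)) .nil) (.I .adp (.c 18433 (.c 32 (.c 3561389332330633 .nil))) .nil))) (.node (.node (.I .jac (.c 4609 (.c 16 (.c 40 .nil))) (.b 43655235 .nil)) (.I .adp (.c 18497 (.c 32 (.c 62886542410121 .nil))) .nil)) (.node (.I .jac (.c 18433 (.c 16 (.c 40 .nil))) (.r 32 (.l 4673 .nil))) (.I .adp (.c 18433 (.c 32 (.c 12929 .nil))) (.l 4673 .nil))))))) (.node (.node (.node (.node (.node (.I .adp (.c 8193 (.c 48 (.c 12929 .nil))) (.l 4673 .nil)) (.I .jac (.c 12801 (.c 16 (.c 24 .nil))) (.b 43655235 .nil))) (.node (.I .adp (.c 18497 (.c 32 (.c 3491688652046601 .nil))) .nil) (.I .jac (.c 43655171 (.c 16 (.c 24 .nil))) (.l 12865 .nil)))) (.node (.node (.I .adp (.c 18433 (.c 32 (.c 3491710045129993 .nil))) .nil) (.I .jac (.c 18433 (.c 24 (.c 40 .nil))) (.r 32 (.l 2113 .nil)))) (.node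 (.I .adp (.c 18433 (.c 32 (.c 12993 .nil))) (.l 2113 .nil)) (.I .adp (.c 8193 (.c 48 (.c 12993 .nil))) (.l 2113 .nil))))) (.node (.node (.node (.I .jac (.c 2718204169 (.c 4737 (.c 40 .nil))) (.l 8 .nil)) (.I .adp (.c 18561 (.c 32 (.c 231045989336561353 .nil))) .nil)) (.node (.I .com (.c 427057993508083379515198226665525257 (.c 8321 .nil)) .nil) (.I .adp (.c 18561 (.c 32 (.c 13748192181200529225 .nil))) .nil))) (.node (.node (.I .adp (.c 18561 (.c 32 (.c 35470870263625 .nil))) .nil) (.I .adp (.c 18561 (.c 32 (.c 231045293249046473 .nil))) .nil)) (.node (.I .adp (.c 18561 (.c 32 (.c 13748194865974800073 .nil))) .nil) (.I .com (.c 1512102896582526807535925483778566442889 (.c 18561 .nil)) .nil))))) (.node (.node (.node (.node (.I .jac (.c 13748194865974800073 (.c 16 (.c 48 .nil))) (.r 32 .nil)) (.I .com (.c 1512102896582526807535925483778566443017 (.c 8321 .nil)) .nil)) (.node (.I .adp (.c 32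 (.c 48 (.c 16 .nil))) (.b 35466557976521 .nil)) (.I .com (.c 18561 (.c 32 .nil)) (.b 35466557976521 .nil)))) (.node (.node (.I .adp (.c 18561 (.c 32 (.c 35466557976521 .nil))) .nil) (.I .adp (.c 8321 (.c 48 (.c 35466557976521 .nil))) .nil)) (.node (.I .adp (.c 18561 (.c 32 (.c 3423058053193993 .nil))) .nil) (.I .ass (.c 8193 (.c 18497 (.c 1337272521 .nil))) .nil)))) (.node (.node (.node (.I .jac (.c 8193 (.c 16 (.c 48 .nil))) (.r 1324065993 .nil)) (.I .jac (.c 0 (.c 8257 (.c 48 .nil))) (.r 1337272521 .nil))) (.node (.I .jac (.c 0 (.c 8 (.c 32 .nil))) (.b 48 (.r 1337272521 .nil))) (.I .jac (.c 8193 (.c 16 (.c 48 .nil))) (.r 21099075 .nil)))) (.node (.node (.I .ass (.c 8193 (.c 18561 (.c 1324065993 .nil))) .nil) (.I .jac (.c 13748192181200529289 (.c 24 (.c 48 .nil))) (.r 16 .nil))) (.node (.I .jac (.c 33587465 (.c 24 (.c 48 .nil))) (.r 12865 .nil)) (.I .jac (.c 2105609 (.c 24 (.c 48 .nil)))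 (.r 12929 .nil))))))))

noncomputable def c5_124 : Tr := (.node (.node (.node (.node (.node (.node (.I .jac (.c 3491688652046665 (.c 24 (.c 48 .nil))) (.r 8 .nil)) (.I .jac (.c 3423058053194057 (.c 24 (.c 48 .nil))) (.r 16 .nil))) (.node (.I .tdb (.c 32 (.c 18433 (.c 8 (.c 16 .nil)))) (.l 12993 .nil)) (.I .tdb (.c 48 (.c 8193 (.c 8 (.c 16 .nil)))) (.l 12993 .nil)))) (.node (.node (.I .tdb (.c 0 (.c 32 (.c 8 (.c 16 .nil)))) (.b 48 (.l 12993 .nil))) (.I .com (.c 14832803796683857 (.c 12993 .nil)) .nil)) (.node (.I .adp (.c 18625 (.c 32 (.c 9024976834606793 .nil))) .nil) (.I .jac (.c 13748192181200529161 (.c 24 (.c 48 .nil))) (.r 32 .nil))))) (.node (.node (.node (.I .adp (.c 18625 (.c 32 (.c 35470870263561 .nil))) .nil) (.I .com (.c 10065461098035008044835206153 (.c 8385 .nil)) .nil)) (.node (.I .adp (.c 32 (.c 48 (.c 24 .nil))) (.b 35464401931209 .nil)) (.I .com (.c 18625 (.c 32 .nil)) (.b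 35464401931209 .nil)))) (.node (.node (.I .adp (.c 8385 (.c 48 (.c 35464401931209 .nil))) .nil) (.I .jac (.c 3491710045129801 (.c 24 (.c 48 .nil))) (.r 32 .nil))) (.node (.I .jac (.c 3491688652046473 (.c 24 (.c 48 .nil))) (.r 32 .nil)) (.I .com (.c 18561 (.c 8385 .nil)) (.l 2105673 .nil)))))) (.node (.node (.node (.node (.I .jac (.c 3423058053193929 (.c 24 (.c 48 .nil))) (.r 32 .nil)) (.I .com (.c 18497 (.c 8385 .nil)) (.l 33587529 .nil))) (.node (.I .jac (.c 8652803 (.c 8 (.c 48 .nil))) (.l 12993 .nil)) (.I .com (.c 1760086083483814173012955851208393 (.c 12993 .nil)) .nil))) (.node (.node (.I .ass (.c 18433 (.c 8385 (.c 35718473 .nil))) .nil) (.I .com (.c 1712113961689550905300220118995849 (.c 12929 .nil)) .nil)) (.node (.I .jac (.c 42762755 (.c 24 (.c 32 .nil))) (.l 12929 .nil)) (.I .jac (.c 8520195 (.c 16 (.c 48 .nil))) (.l 12993 .nil))))) (.node (.node (.node (.I .jac (.c 42762755 (.c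 16 (.c 32 .nil))) (.l 12993 .nil)) (.I .com (.c 1459010655789627520195474563615302272114145520705646669319441008507306953 (.c 32 .nil)) .nil)) (.node (.I .com (.c 1459010655789627520195474563615301834809395174156062875678246881712513033 (.c 32 .nil)) .nil) (.I .adp (.c 32 (.c 48 (.c 40 .nil))) (.b 35466557976329 .nil)))) (.node (.node (.I .adp (.c 32 (.c 18753 (.c 231045467270826697 .nil))) .nil) (.I .jac (.c 231045467270826697 (.c 40 (.c 48 .nil))) (.l 32 .nil))) (.node (.I .adp (.c 32 (.c 48 (.c 40 .nil))) (.b 35464401931081 .nil)) (.I .adp (.c 32 (.c 18753 (.c 35464401931081 .nil))) .nil)))))) (.node (.node (.node (.node (.node (.I .jac (.c 35464401931081 (.c 40 (.c 48 .nil))) (.l 32 .nil)) (.I .com (.c 809917014003953217238938153194345491491293581504170001353 (.c 32 .nil)) .nil)) (.node (.I .com (.c 809917014003953217238938142891072086425981228233766068233 (.c 32 .nil)) .nil) (.I .jac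 (.c 2487083360521 (.c 40 (.c 48 .nil))) (.l 32 .nil)))) (.node (.node (.I .com (.c 19589859837137981227538366239386346117563573617270793 (.c 32 .nil)) .nil) (.I .adp (.c 32 (.c 18753 (.c 59555558875337 .nil))) .nil)) (.node (.I .jac (.c 2803715 (.c 32 (.c 48 .nil))) (.b 12865 .nil)) (.I .ass (.c 8193 (.c 18753 (.c 35718345 .nil))) .nil)))) (.node (.node (.node (.I .jac (.c 2728451 (.c 32 (.c 48 .nil))) (.b 12929 .nil)) (.I .adp (.c 32 (.c 48 (.c 2105545 .nil))) (.b 12929 .nil))) (.node (.I .com (.c 35466557976585 (.c 32 .nil)) (.b 12929 .nil)) (.I .com (.c 14629225721520457 (.c 16 .nil)) (.b 12993 .nil)))) (.node (.node (.I .adp (.c 32 (.c 48 (.c 2105481 .nil))) (.b 12993 .nil)) (.I .com (.c 35464401931273 (.c 32 .nil)) (.b 12993 .nil))) (.node (.I .jac (.c 33587401 (.c 8 (.c 48 .nil))) (.b 13057 .nil)) (.I .jac (.c 18433 (.c 8 (.c 24 .nil))) (.b 16 (.b 13057 .nil))))))) (.node (.node (.node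 (.node (.I .jac (.c 169943433 (.c 8 (.c 16 .nil))) (.b 13057 .nil)) (.I .jac (.c 4609 (.c 2113 (.c 48 .nil))) (.b 13057 .nil))) (.node (.I .jac (.c 4609 (.c 8 (.c 16 .nil))) (.b 48 (.b 13057 .nil))) (.I .jac (.c 2718204041 (.c 8 (.c 24 .nil))) (.b 13057 .nil)))) (.node (.node (.I .jac (.c 18433 (.c 4673 (.c 16 .nil))) (.b 13057 .nil)) (.I .adp (.c 231046163358603977 (.c 16 (.c 13057 .nil))) .nil)) (.node (.I .jac (.c 231046163358603977 (.c 32 (.c 40 .nil))) (.r 16 .nil)) (.I .adp (.c 59109062884628932425 (.c 16 (.c 13057 .nil))) .nil)))) (.node (.node (.node (.I .jac (.c 59109062884628932425 (.c 32 (.c 40 .nil))) (.r 16 .nil)) (.I .adp (.c 35473026505545 (.c 16 (.c 13057 .nil))) .nil)) (.node (.I .jac (.c 35473026505545 (.c 32 (.c 40 .nil))) (.r 16 .nil)) (.I .adp (.c 59109068451510808265 (.c 16 (.c 13057 .nil))) .nil))) (.node (.node (.I .jac (.c 59109068451510808265 (.c 32 (.c 40 .nil)))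 (.r 16 .nil)) (.I .adp (.c 15038454533712969 (.c 16 (.c 13057 .nil))) .nil)) (.node (.I .jac (.c 15038454533712969 (.c 32 (.c 40 .nil))) (.r 16 .nil)) (.I .adp (.c 9025011228269257 (.c 24 (.c 13057 .nil))) .nil)))))))

noncomputable def c5_125 : Tr := (.node (.node (.node (.node (.node (.node (.I .jac (.c 9025011228269257 (.c 32 (.c 40 .nil))) (.r 24 .nil)) (.I .adp (.c 59109062884628932361 (.c 24 (.c 13057 .nil))) .nil)) (.node (.I .jac (.c 59109062884628932361 (.c 32 (.c 40 .nil))) (.r 24 .nil)) (.I .adp (.c 35473026505481 (.c 24 (.c 13057 .nil))) .nil))) (.node (.node (.I .jac (.c 35473026505481 (.c 32 (.c 40 .nil))) (.r 24 .nil)) (.I .jac (.c 2737112201 (.c 32 (.c 40 .nil))) (.l 4609 .nil))) (.node (.I .adp (.c 59109065668069837513 (.c 24 (.c 13057 .nil))) .nil) (.I .jac (.c 59109065668069837513 (.c 32 (.c 40 .nil))) (.r 24 .nil))))) (.node (.node (.node (.I .adp (.c 4609 (.c 43059267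 (.c 13057 .nil))) .nil) (.I .jac (.c 4609 (.c 32 (.c 40 .nil))) (.r 43059267 .nil))) (.node (.I .com (.c 2803715 (.c 18497 .nil)) (.b 13057 .nil)) (.I .jac (.c 16 (.c 32 (.c 40 .nil))) (.l 15038410136445065 .nil)))) (.node (.node (.I .jac (.c 16 (.c 32 (.c 40 .nil))) (.l 59555558875593 .nil)) (.I .jac (.c 24 (.c 32 (.c 40 .nil))) (.l 14832759703961737 .nil))) (.node (.I .jac (.c 24 (.c 32 (.c 40 .nil))) (.l 2487083360713 .nil)) (.I .tdb (.c 8 (.c 18433 (.c 16 (.c 24 .nil)))) (.b 13057 .nil)))))) (.node (.node (.node (.node (.I .tdb (.c 513 (.c 48 (.c 16 (.c 24 .nil)))) (.b 13057 .nil)) (.I .tdb (.c 0 (.c 8 (.c 16 (.c 24 .nil)))) (.b 48 (.b 13057 .nil)))) (.node (.I .adp (.c 18433 (.c 2803779 (.c 13057 .nil))) .nil) (.I .com (.c 43059203 (.c 4673 .nil)) (.b 13057 .nil)))) (.node (.node (.I .adp (.c 43059203 (.c 4673 (.c 13057 .nil))) .nil) (.I .jac (.c 24 (.c 32 (.c 40 .nil))) (.l 2113 (.l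 18433 .nil)))) (.node (.I .com (.c 231046163358604041 (.c 8 .nil)) (.b 13057 .nil)) (.I .com (.c 59109065668069837641 (.c 8 .nil)) (.b 13057 .nil))))) (.node (.node (.node (.I .com (.c 9025011228269385 (.c 8 .nil)) (.b 13057 .nil)) (.I .adp (.c 231046163358604041 (.c 8 (.c 13057 .nil))) .nil)) (.node (.I .jac (.c 231046163358604041 (.c 32 (.c 40 .nil))) (.r 8 .nil)) (.I .adp (.c 59109065668069837641 (.c 8 (.c 13057 .nil))) .nil))) (.node (.node (.I .jac (.c 8 (.c 32 (.c 40 .nil))) (.l 59109065668069837641 .nil)) (.I .jac (.c 59109065668069837641 (.c 32 (.c 40 .nil))) (.r 8 .nil))) (.node (.I .adp (.c 9025011228269385 (.c 8 (.c 13057 .nil))) .nil) (.I .jac (.c 9025011228269385 (.c 32 (.c 40 .nil))) (.r 8 .nil))))))) (.node (.node (.node (.node (.node (.I .com (.c 59109068451510808329 (.c 8 .nil)) (.b 13057 .nil)) (.I .adp (.c 59109068451510808329 (.c 8 (.c 13057 .nil))) .nil)) (.node (.I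 .jac (.c 8 (.c 32 (.c 40 .nil))) (.l 59109068451510808329 .nil)) (.I .jac (.c 59109068451510808329 (.c 32 (.c 40 .nil))) (.r 8 .nil)))) (.node (.node (.I .adp (.c 15038498931046473 (.c 8 (.c 13057 .nil))) .nil) (.I .jac (.c 15038498931046473 (.c 32 (.c 40 .nil))) (.r 8 .nil))) (.node (.I .jac (.c 8 (.c 32 (.c 40 .nil))) (.l 15038410136445129 .nil)) (.I .adp (.c 62886542410185 (.c 8 (.c 13057 .nil))) .nil)))) (.node (.node (.node (.I .tdb (.c 16 (.c 18433 (.c 8 (.c 24 .nil)))) (.b 13057 .nil)) (.I .tdb (.c 2049 (.c 48 (.c 8 (.c 24 .nil)))) (.b 13057 .nil))) (.node (.I .tdb (.c 0 (.c 16 (.c 8 (.c 24 .nil)))) (.b 48 (.b 13057 .nil))) (.I .adp (.c 18561 (.c 24 (.c 13057 .nil))) (.l 513 .nil)))) (.node (.node (.I .jac (.c 8 (.c 32 (.c 40 .nil))) (.l 14832759703961865 .nil)) (.I .tdb (.c 24 (.c 18433 (.c 8 (.c 16 .nil)))) (.b 13057 .nil))) (.node (.I .tdb (.c 4609 (.c 48 (.c 8 (.c 16 .nil))))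 (.b 13057 .nil)) (.I .tdb (.c 0 (.c 24 (.c 8 (.c 16 .nil)))) (.b 48 (.b 13057 .nil))))))) (.node (.node (.node (.node (.I .jac (.c 16 (.c 32 (.c 40 .nil))) (.r 18625 (.l 513 .nil))) (.I .adp (.c 16 (.c 18625 (.c 13057 .nil))) (.l 513 .nil))) (.node (.I .adp (.c 0 (.c 15038498931046537 (.c 13057 .nil))) .nil) (.I .jac (.c 0 (.c 32 (.c 40 .nil))) (.r 15038498931046537 .nil)))) (.node (.node (.I .adp (.c 0 (.c 15038454533713097 (.c 13057 .nil))) .nil) (.I .jac (.c 0 (.c 32 (.c 40 .nil))) (.r 15038454533713097 .nil))) (.node (.I .com (.c 27664030750836998620697701184367852582684746673282131496362201723849 (.c 24 .nil)) .nil) (.I .adp (.c 12865 (.c 32 (.c 231046163358604041 .nil))) .nil)))) (.node (.node (.node (.I .com (.c 27951053153217538893119514365376803559305 (.c 12865 .nil)) .nil) (.I .adp (.c 8257 (.c 40 (.c 59109065668069837641 .nil))) .nil)) (.node (.I .com (.c 27951053153217538893119514365376803559369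 (.c 8257 .nil)) .nil) (.I .adp (.c 12865 (.c 32 (.c 9025011228269385 .nil))) .nil))) (.node (.node (.I .adp (.c 32 (.c 40 (.c 8 .nil))) (.b 231045467270827017 .nil)) (.I .com (.c 12865 (.c 32 .nil)) (.b 231045467270827017 .nil))) (.node (.I .adp (.c 12865 (.c 32 (.c 231045467270827017 .nil))) .nil) (.I .adp (.c 8257 (.c 40 (.c 231045467270827017 .nil))) .nil)))))))

noncomputable def c5_126 : Tr := (.node (.node (.node (.node (.node (.node (.I .com (.c 27951055785643122786957318255255806178185 (.c 12865 .nil)) .nil) (.I .adp (.c 12801 (.c 32 (.c 15038498931046537 .nil))) .nil)) (.node (.I .adp (.c 8193 (.c 40 (.c 15038498931046537 .nil))) .nil) (.I .adp (.c 12801 (.c 32 (.c 15038454533713097 .nil))) .nil))) (.node (.node (.I .adp (.c 8193 (.c 40 (.c 15038454533713097 .nil))) .nil) (.I .adp (.c 12865 (.c 32 (.c 62886542410185 .nil))) .nil)) (.node (.I .ass (.c 12865 (.c 59109065668069837705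 (.c 24 .nil))) .nil) (.I .com (.c 12865 (.c 59109065668069837705 .nil)) (.r 24 .nil))))) (.node (.node (.node (.I .ass (.c 8257 (.c 59109065668069837769 (.c 24 .nil))) .nil) (.I .com (.c 8257 (.c 59109065668069837769 .nil)) (.r 24 .nil))) (.node (.I .jac (.c 21307395 (.c 16 (.c 24 .nil))) (.l 18497 .nil)) (.I .ass (.c 13748198893136698057 (.c 4737 (.c 32 .nil))) .nil))) (.node (.node (.I .adp (.c 8193 (.c 40 (.c 14832803796618505 .nil))) .nil) (.I .ass (.c 2306972423229201097 (.c 4737 (.c 40 .nil))) .nil)) (.node (.I .jac (.c 18433 (.c 16 (.c 24 .nil))) (.b 21307459 .nil)) (.I .ass (.c 59109074018392946377 (.c 4737 (.c 32 .nil))) .nil))))) (.node (.node (.node (.node (.I .ass (.c 59109071234951844553 (.c 4737 (.c 40 .nil))) .nil) (.I .jac (.c 3632040653488393 (.c 8 (.c 48 .nil))) (.r 16 .nil))) (.node (.I .tdb (.c 32 (.c 12801 (.c 16 (.c 24 .nil)))) (.l 18497 .nil)) (.I .tdb (.c 40 (.c 8193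 (.c 16 (.c 24 .nil)))) (.l 18497 .nil)))) (.node (.node (.I .tdb (.c 0 (.c 32 (.c 16 (.c 24 .nil)))) (.b 40 (.l 18497 .nil))) (.I .adp (.c 8 (.c 13057 (.c 231046163358604041 .nil))) .nil)) (.node (.I .jac (.c 231046163358604041 (.c 32 (.c 40 .nil))) (.l 8 .nil)) (.I .adp (.c 8 (.c 40 (.c 32 .nil))) (.b 59109065668069837641 .nil))))) (.node (.node (.node (.I .adp (.c 8 (.c 13057 (.c 59109065668069837641 .nil))) .nil) (.I .jac (.c 59109065668069837641 (.c 32 (.c 40 .nil))) (.l 8 .nil))) (.node (.I .com (.c 6250090978991936989903231897491262894534581109702500833427451460749785180061425545 (.c 8 .nil)) .nil) (.I .com (.c 6250090978991936989903231897491262894505959231273606073600897078039639333216664521 (.c 8 .nil)) .nil))) (.node (.node (.I .adp (.c 8 (.c 13057 (.c 9025011228269385 .nil))) .nil) (.I .jac (.c 9025011228269385 (.c 32 (.c 40 .nil))) (.l 8 .nil))) (.node (.I .com (.c 6250092156257071104120887622819292512244039279254712318694820320574562873285648265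 (.c 8 .nil)) .nil) (.I .com (.c 6250092156257071104120887622819292512215417398130213760960976026681180927759154121 (.c 8 .nil)) .nil)))))) (.node (.node (.node (.node (.node (.I .jac (.c 15038498931046473 (.c 32 (.c 40 .nil))) (.l 8 .nil)) (.I .adp (.c 8 (.c 13057 (.c 62886542410185 .nil))) .nil)) (.node (.I .tdb (.c 8 (.c 12801 (.c 16 (.c 24 .nil)))) (.l 18689 .nil)) (.I .tdb (.c 8 (.c 12801 (.c 16 (.c 24 .nil)))) (.b 18689 .nil)))) (.node (.node (.I .tdb (.c 513 (.c 40 (.c 16 (.c 24 .nil)))) (.b 18689 .nil)) (.I .tdb (.c 0 (.c 8 (.c 16 (.c 24 .nil)))) (.b 40 (.b 18689 .nil)))) (.node (.I .adp (.c 0 (.c 40 (.c 43356803 .nil))) (.b 8257 .nil)) (.I .adp (.c 0 (.c 40 (.c 32 .nil))) (.b 15038498931046537 .nil))))) (.node (.node (.node (.I .adp (.c 0 (.c 40 (.c 32 .nil))) (.b 15038454533713097 .nil)) (.I .adp (.c 0 (.c 40 (.c 32 .nil))) (.b 14832803796618505 .nil))) (.node (.I .adp (.c 0 (.c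 13057 (.c 14832803796618505 .nil))) .nil) (.I .ass (.c 35466557976329 (.c 48 (.c 13057 .nil))) .nil))) (.node (.node (.I .com (.c 13057 (.c 48 .nil)) (.l 35466557976329 .nil)) (.I .ass (.c 35464401931081 (.c 48 (.c 13057 .nil))) .nil)) (.node (.I .com (.c 13057 (.c 48 .nil)) (.l 35464401931081 .nil)) (.I .adp (.c 8 (.c 32 (.c 40 .nil))) (.b 231046163358604041 .nil)))))) (.node (.node (.node (.node (.I .adp (.c 8 (.c 32 (.c 40 .nil))) (.b 9025011228269385 .nil)) (.I .com (.c 31637737730141993933194546057 (.c 18753 .nil)) .nil)) (.node (.I .tdb (.c 513 (.c 32 (.c 16 (.c 24 .nil)))) (.b 18753 .nil)) (.I .tdb (.c 0 (.c 8 (.c 16 (.c 24 .nil)))) (.b 32 (.b 18753 .nil))))) (.node (.node (.I .tdb (.c 8 (.c 8193 (.c 16 (.c 24 .nil)))) (.l 18753 .nil)) (.I .tdb (.c 8 (.c 8193 (.c 16 (.c 24 .nil)))) (.b 18753 .nil))) (.node (.I .adp (.c 0 (.c 32 (.c 43356803 .nil))) (.b 12865 .nil)) (.I .adp (.c 0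 (.c 32 (.c 40 .nil))) (.b 15038498931046537 .nil))))) (.node (.node (.node (.I .adp (.c 0 (.c 32 (.c 40 .nil))) (.b 15038454533713097 .nil)) (.I .adp (.c 0 (.c 8 (.c 43356803 .nil))) (.b 13057 .nil))) (.node (.I .com (.c 35473026505545 (.c 16 .nil)) (.b 13057 .nil)) (.I .com (.c 427058636821845719787018514561732489 (.c 12929 .nil)) .nil))) (.node (.node (.I .adp (.c 8321 (.c 40 (.c 231046163358603977 .nil))) .nil) (.I .com (.c 427058636821845719787018514561732553 (.c 8321 .nil)) .nil)) (.node (.I .adp (.c 12929 (.c 32 (.c 59109062884628932425 .nil))) .nil) (.I .com (.c 27951050520792140879796950267161731045321 (.c 8321 .nil)) .nil)))))))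

noncomputable def c5_127 : Tr := (.node (.node (.node (.node (.node (.node (.I .adp (.c 8321 (.c 40 (.c 35473026505545 .nil))) .nil) (.I .adp (.c 12929 (.c 32 (.c 231045293249046537 .nil))) .nil)) (.node (.I .com (.c 27951055785643122726429632160908738482057 (.c 12929 .nil)) .nil) (.I .adp (.c 32 (.c 40 (.c 16 .nil))) (.b 35466557976585 .nil)))) (.node (.node (.I .com (.c 12929 (.c 32 .nil)) (.b 35466557976585 .nil)) (.I .adp (.c 12929 (.c 32 (.c 35466557976585 .nil))) .nil)) (.node (.I .adp (.c 12929 (.c 32 (.c 59555558875593 .nil))) .nil) (.I .ass (.c 12929 (.c 59109062884628932489 (.c 24 .nil))) .nil)))) (.node (.node (.node (.I .com (.c 12929 (.c 59109062884628932489 .nil)) (.r 24 .nil)) (.I .ass (.c 12929 (.c 169943305 (.c 18497 .nil))) .nil)) (.node (.I .ass (.c 169943305 (.c 12929 (.c 18497 .nil))) .nil) (.I .com (.c 12929 (.c 169943305 .nil)) (.r 18497 .nil)))) (.node (.node (.I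 .ass (.c 8321 (.c 59109062884628932553 (.c 24 .nil))) .nil) (.I .com (.c 8321 (.c 59109062884628932553 .nil)) (.r 24 .nil))) (.node (.I .adp (.c 12929 (.c 32 (.c 14629225721520393 .nil))) .nil) (.I .ass (.c 12929 (.c 18433 (.c 174695689 .nil))) .nil))))) (.node (.node (.node (.node (.I .com (.c 12929 (.c 18433 .nil)) (.r 174695689 .nil)) (.I .jac (.c 8 (.c 16 (.c 32 .nil))) (.b 40 (.l 2718204105 .nil)))) (.node (.I .com (.c 89098986658138672183242889792392318975918927187504058245751445513 (.c 8 .nil)) .nil) (.I .tdb (.c 32 (.c 12801 (.c 8 (.c 24 .nil)))) (.b 18561 .nil)))) (.node (.node (.I .jac (.c 580749782704585 (.c 16 (.c 40 .nil))) (.l 24 .nil)) (.I .jac (.c 15246236343241801 (.c 16 (.c 40 .nil))) (.l 24 .nil))) (.node (.I .tdb (.c 40 (.c 8321 (.c 8 (.c 24 .nil)))) (.l 18433 .nil)) (.I .tdb (.c 16 (.c 32 (.c 8 (.c 24 .nil)))) (.b 40 (.l 18433 .nil)))))) (.node (.node (.node (.I .jac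 (.c 3423058053194185 (.c 16 (.c 32 .nil))) (.l 24 .nil)) (.I .jac (.c 15456163896880201 (.c 16 (.c 32 .nil))) (.l 24 .nil))) (.node (.I .adp (.c 16 (.c 40 (.c 32 .nil))) (.b 231046163358603977 .nil)) (.I .adp (.c 16 (.c 13057 (.c 231046163358603977 .nil))) .nil))) (.node (.node (.I .jac (.c 231046163358603977 (.c 32 (.c 40 .nil))) (.l 16 .nil)) (.I .com (.c 1459032634273064966918360494425614714511613424599497988564127560799182729 (.c 16 .nil)) .nil)) (.node (.I .com (.c 1459032634273064966918360494425614277203569319029480926657168649585081289 (.c 16 .nil)) .nil) (.I .adp (.c 16 (.c 13057 (.c 59109062884628932425 .nil))) .nil)))))) (.node (.node (.node (.node (.node (.I .jac (.c 59109062884628932425 (.c 32 (.c 40 .nil))) (.l 16 .nil)) (.I .com (.c 6250089801726996879207608765537404554630176383143787888342765416259476986847944585 (.c 16 .nil)) .nil)) (.node (.I .com (.c 6250089801726996879207608765537404554601554507410496736081853339185903374257568713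 (.c 16 .nil)) .nil) (.I .adp (.c 16 (.c 40 (.c 32 .nil))) (.b 35473026505545 .nil)))) (.node (.node (.I .adp (.c 16 (.c 13057 (.c 35473026505545 .nil))) .nil) (.I .adp (.c 16 (.c 13057 (.c 231045293249046537 .nil))) .nil)) (.node (.I .jac (.c 59109068451510808265 (.c 32 (.c 40 .nil))) (.l 16 .nil)) (.I .com (.c 6250092156257071077051883933235446197637335784746741053747322710812860632293269385 (.c 16 .nil)) .nil)))) (.node (.node (.node (.I .com (.c 6250092156257071077051883933235446197608713903622242496075458767480090084087610313 (.c 16 .nil)) .nil) (.I .adp (.c 16 (.c 40 (.c 32 .nil))) (.b 35466557976585 .nil))) (.node (.I .adp (.c 16 (.c 13057 (.c 35466557976585 .nil))) .nil) (.I .jac (.c 15038454533712969 (.c 32 (.c 40 .nil))) (.l 16 .nil)))) (.node (.node (.I .adp (.c 16 (.c 13057 (.c 59555558875593 .nil))) .nil) (.I .adp (.c 16 (.c 13057 (.c 14629225721520393 .nil))) .nil)) (.node (.I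 .tdb (.c 16 (.c 12801 (.c 8 (.c 24 .nil)))) (.l 18689 .nil)) (.I .tdb (.c 16 (.c 12801 (.c 8 (.c 24 .nil)))) (.b 18689 .nil)))))) (.node (.node (.node (.node (.I .adp (.c 0 (.c 40 (.c 43356739 .nil))) (.b 8321 .nil)) (.I .adp (.c 16 (.c 32 (.c 40 .nil))) (.b 59109062884628932425 .nil))) (.node (.I .adp (.c 16 (.c 32 (.c 40 .nil))) (.b 231045293249046537 .nil)) (.I .tdb (.c 2049 (.c 32 (.c 8 (.c 24 .nil)))) (.l 18753 .nil)))) (.node (.node (.I .tdb (.c 0 (.c 16 (.c 8 (.c 24 .nil)))) (.b 32 (.l 18753 .nil))) (.I .com (.c 28374916743629853698454908809 (.c 18753 .nil)) .nil)) (.node (.I .tdb (.c 2049 (.c 32 (.c 8 (.c 24 .nil)))) (.b 18753 .nil)) (.I .tdb (.c 0 (.c 16 (.c 8 (.c 24 .nil)))) (.b 32 (.b 18753 .nil)))))) (.node (.node (.node (.I .tdb (.c 16 (.c 8193 (.c 8 (.c 24 .nil)))) (.l 18753 .nil)) (.I .adp (.c 0 (.c 32 (.c 43356739 .nil))) (.b 12929 .nil))) (.node (.I .adp (.c 0 (.c 16 (.c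 43356739 .nil))) (.b 13057 .nil)) (.I .jac (.c 0 (.c 12865 (.c 32 .nil))) (.r 2756085961 .nil)))) (.node (.node (.I .jac (.c 0 (.c 8 (.c 40 .nil))) (.b 32 (.r 2756085961 .nil))) (.I .jac (.c 15246191640314057 (.c 8 (.c 40 .nil))) (.l 24 .nil))) (.node (.I .jac (.c 15456118887243977 (.c 8 (.c 32 .nil))) (.l 24 .nil)) (.I .jac (.c 15246191640313993 (.c 16 (.c 40 .nil))) (.l 24 .nil))))))))

noncomputable def c5_128 : Tr := (.node (.node (.node (.node (.node (.node (.I .jac (.c 15456118887243913 (.c 16 (.c 32 .nil))) (.l 24 .nil)) (.I .adp (.c 16 (.c 40 (.c 169943433 .nil))) (.b 8257 .nil))) (.node (.I .jac (.c 2803715 (.c 8 (.c 40 .nil))) (.b 18689 .nil)) (.I .jac (.c 21099011 (.c 8 (.c 16 .nil))) (.l 18689 .nil)))) (.node (.node (.I .jac (.c 2803715 (.c 8 (.c 32 .nil))) (.l 18753 .nil)) (.I .adp (.c 8 (.c 32 (.c 169943433 .nil))) (.b 12929 .nil))) (.node (.I .adp (.c 8 (.c 16 (.c 2718204105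 .nil))) (.b 13057 .nil)) (.I .adp (.c 8 (.c 16 (.c 169943433 .nil))) (.b 13057 .nil))))) (.node (.node (.node (.I .com (.c 59109068451510808457 (.c 1324065929 .nil)) .nil) (.I .com (.c 59109068451510808457 (.c 35718473 .nil)) .nil)) (.node (.I .jac (.c 2718204105 (.c 16 (.c 40 .nil))) (.l 8257 .nil)) (.I .com (.c 59109068451510808521 (.c 545424521 .nil)) .nil))) (.node (.node (.I .com (.c 59109068451510808521 (.c 35718409 .nil)) .nil) (.I .com (.c 59934268409707442121 (.c 32 .nil)) (.l 2049 .nil))) (.node (.I .com (.c 59109068451510808329 (.c 21307459 .nil)) .nil) (.I .com (.c 59109068451510808457 (.c 20891715 .nil)) .nil))))) (.node (.node (.node (.node (.I .com (.c 59109068451510808521 (.c 8652867 .nil)) .nil) (.I .adp (.c 18497 (.c 24 (.c 2306971873338799881 .nil))) .nil)) (.node (.I .adp (.c 18497 (.c 24 (.c 9024976834606985 .nil))) .nil) (.I .adp (.c 18497 (.c 24 (.c 13748196208362033929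 .nil))) .nil))) (.node (.node (.I .adp (.c 18497 (.c 24 (.c 9024942441010121 .nil))) .nil) (.I .adp (.c 18497 (.c 24 (.c 3632084291164233 .nil))) .nil)) (.node (.I .adp (.c 18433 (.c 24 (.c 3632084291164297 .nil))) .nil) (.I .jac (.c 8193 (.c 16 (.c 40 .nil))) (.b 43356739 .nil))))) (.node (.node (.node (.I .adp (.c 18433 (.c 24 (.c 598976858557833 .nil))) .nil) (.I .jac (.c 12801 (.c 16 (.c 32 .nil))) (.b 43356739 .nil))) (.node (.I .adp (.c 18433 (.c 24 (.c 3491710045130057 .nil))) .nil) (.I .adp (.c 4609 (.c 48 (.c 13057 .nil))) (.l 2113 .nil)))) (.node (.node (.I .jac (.c 2718204105 (.c 8321 (.c 40 .nil))) (.l 8 .nil)) (.I .com (.c 60768078595370348489 (.c 32 .nil)) (.l 513 .nil))) (.node (.I .jac (.c 2306971873338799817 (.c 16 (.c 48 .nil))) (.r 24 .nil)) (.I .adp (.c 18561 (.c 24 (.c 2306969673777850313 .nil))) .nil)))))) (.node (.node (.node (.node (.node (.I .adp (.c 4737 (.c 48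 (.c 2306969673777850313 .nil))) .nil) (.I .com (.c 1512103191868961635872417890875254705993 (.c 18561 .nil)) .nil)) (.node (.I .jac (.c 13748196208362033865 (.c 16 (.c 48 .nil))) (.r 24 .nil)) (.I .com (.c 1512103191868961635872417890875254706185 (.c 4737 .nil)) .nil))) (.node (.node (.I .adp (.c 18561 (.c 24 (.c 35468714087369 .nil))) .nil) (.I .adp (.c 4737 (.c 48 (.c 35468714087369 .nil))) .nil)) (.node (.I .ass (.c 4609 (.c 18497 (.c 1337272585 .nil))) .nil) (.I .jac (.c 4609 (.c 16 (.c 48 .nil))) (.r 1324066057 .nil))))) (.node (.node (.node (.I .jac (.c 0 (.c 18497 (.c 24 .nil))) (.r 553912649 .nil)) (.I .jac (.c 0 (.c 8 (.c 48 .nil))) (.b 24 (.r 553912649 .nil)))) (.node (.I .jac (.c 0 (.c 4673 (.c 48 .nil))) (.r 1337272585 .nil)) (.I .jac (.c 0 (.c 8 (.c 24 .nil))) (.b 48 (.r 1337272585 .nil))))) (.node (.node (.I .ass (.c 4609 (.c 18561 (.c 1324066057 .nil))) .nil) (.I .tdb (.c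 24 (.c 18433 (.c 8 (.c 16 .nil)))) (.l 13057 .nil))) (.node (.I .adp (.c 24 (.c 18689 (.c 9024976834606793 .nil))) .nil) (.I .jac (.c 9024976834606793 (.c 32 (.c 48 .nil))) (.l 24 .nil)))))) (.node (.node (.node (.node (.I .com (.c 3396677733571646404444524329248206141615278632961794744256500138889 (.c 24 .nil)) .nil) (.I .com (.c 3396677733571646404444524329246871661425999372304664290498631875593 (.c 24 .nil)) .nil)) (.node (.I .adp (.c 24 (.c 18689 (.c 35470870263561 .nil))) .nil) (.I .jac (.c 35470870263561 (.c 32 (.c 48 .nil))) (.l 24 .nil)))) (.node (.node (.I .adp (.c 24 (.c 18689 (.c 35464401931209 .nil))) .nil) (.I .jac (.c 3491710045129801 (.c 32 (.c 48 .nil))) (.l 24 .nil))) (.node (.I .jac (.c 3423058053193929 (.c 32 (.c 48 .nil))) (.l 24 .nil)) (.I .com (.c 70295418264016056367196823099392130501912218710370445521070898185 (.c 24 .nil)) .nil)))) (.node (.node (.node (.I .tdb (.c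 513 (.c 16 (.c 40 (.c 24 .nil)))) (.l 18689 .nil)) (.I .tdb (.c 0 (.c 8 (.c 24 (.c 40 .nil)))) (.b 16 (.l 18689 .nil)))) (.node (.I .ass (.c 4609 (.c 18689 (.c 35718473 .nil))) .nil) (.I .jac (.c 2728451 (.c 16 (.c 48 .nil))) (.l 13057 .nil)))) (.node (.node (.I .jac (.c 42762755 (.c 16 (.c 24 .nil))) (.l 13057 .nil)) (.I .adp (.c 24 (.c 18753 (.c 9024942441009865 .nil))) .nil)) (.node (.I .jac (.c 9024942441009865 (.c 40 (.c 48 .nil))) (.l 24 .nil)) (.I .adp (.c 24 (.c 18753 (.c 2306969673777850121 .nil))) .nil)))))))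

noncomputable def c5_129 : Tr := (.node (.node (.node (.node (.node (.node (.I .adp (.c 24 (.c 18753 (.c 35468714087177 .nil))) .nil) (.I .jac (.c 9024839260612489 (.c 40 (.c 48 .nil))) (.l 24 .nil))) (.node (.I .jac (.c 2306970223667989193 (.c 40 (.c 48 .nil))) (.l 24 .nil)) (.I .com (.c 14502334474273991518822959259732641470064367600756098493782322290052167697353 (.c 24 .nil)) .nil))) (.node (.node (.I .com (.c 14502334474273991518822959259732641426465629267955221257396041719460597424137 (.c 24 .nil)) .nil) (.I .adp (.c 24 (.c 18753 (.c 35464401931145 .nil))) .nil)) (.node (.I .jac (.c 598976858557513 (.c 40 (.c 48 .nil))) (.l 24 .nil)) (.I .jac (.c 580749782704329 (.c 40 (.c 48 .nil))) (.l 24 .nil))))) (.node (.node (.node (.I .com (.c 58240646186216787513332372173674686999212241738391459836944393 (.c 24 .nil)) .nil) (.I .adp (.c 12993 (.c 32 (.c 9025011228269257 .nil))) .nil)) (.node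 (.I .com (.c 651606621363089303044061530656649 (.c 12993 .nil)) .nil) (.I .adp (.c 8385 (.c 40 (.c 9025011228269257 .nil))) .nil))) (.node (.node (.I .adp (.c 12993 (.c 32 (.c 59109062884628932361 .nil))) .nil) (.I .adp (.c 8385 (.c 40 (.c 59109062884628932361 .nil))) .nil)) (.node (.I .adp (.c 12993 (.c 32 (.c 59109065668069837513 .nil))) .nil) (.I .com (.c 27951053153217538772064147877169776201609 (.c 12993 .nil)) .nil))))) (.node (.node (.node (.node (.I .adp (.c 8385 (.c 40 (.c 59109065668069837513 .nil))) .nil) (.I .adp (.c 12993 (.c 32 (.c 35464401931273 .nil))) .nil)) (.node (.I .adp (.c 8385 (.c 40 (.c 35464401931273 .nil))) .nil) (.I .adp (.c 8385 (.c 40 (.c 14832803796618313 .nil))) .nil))) (.node (.node (.I .tdb (.c 8 (.c 18433 (.c 16 (.c 32 .nil)))) (.l 12993 .nil)) (.I .tdb (.c 513 (.c 48 (.c 16 (.c 32 .nil)))) (.l 12993 .nil))) (.node (.I .tdb (.c 0 (.c 8 (.c 16 (.c 32 .nil))))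 (.b 48 (.l 12993 .nil))) (.I .ass (.c 12993 (.c 33587465 (.c 18497 .nil))) .nil)))) (.node (.node (.node (.I .ass (.c 33587465 (.c 12993 (.c 18497 .nil))) .nil) (.I .com (.c 12993 (.c 33587465 .nil)) (.r 18497 .nil))) (.node (.I .ass (.c 12993 (.c 2049 (.c 2737112329 .nil))) .nil) (.I .ass (.c 2049 (.c 12993 (.c 2737112329 .nil))) .nil))) (.node (.node (.I .com (.c 12993 (.c 2049 .nil)) (.r 2737112329 .nil)) (.I .adp (.c 8385 (.c 40 (.c 14832759703961737 .nil))) .nil)) (.node (.I .tdb (.c 513 (.c 48 (.c 16 (.c 40 .nil)))) (.l 8385 .nil)) (.I .tdb (.c 0 (.c 8 (.c 16 (.c 40 .nil)))) (.b 48 (.l 8385 .nil)))))))) (.node (.node (.node (.node (.node (.I .ass (.c 8385 (.c 33587529 (.c 18497 .nil))) .nil) (.I .ass (.c 33587529 (.c 8385 (.c 18497 .nil))) .nil)) (.node (.I .com (.c 8385 (.c 33587529 .nil)) (.r 18497 .nil)) (.I .ass (.c 8385 (.c 2049 (.c 2737112393 .nil))) .nil))) (.node (.node (.I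 .ass (.c 2049 (.c 8385 (.c 2737112393 .nil))) .nil) (.I .com (.c 8385 (.c 2049 .nil)) (.r 2737112393 .nil))) (.node (.I .ass (.c 12993 (.c 2718204169 (.c 2113 .nil))) .nil) (.I .com (.c 12993 (.c 2718204169 .nil)) (.r 2113 .nil))))) (.node (.node (.node (.I .ass (.c 12993 (.c 18433 (.c 35718409 .nil))) .nil) (.I .com (.c 12993 (.c 18433 .nil)) (.r 35718409 .nil))) (.node (.I .com (.c 2105481 (.c 15456298926182665 .nil)) .nil) (.I .ass (.c 8385 (.c 2718204233 (.c 2113 .nil))) .nil))) (.node (.node (.I .com (.c 8385 (.c 2718204233 .nil)) (.r 2113 .nil)) (.I .ass (.c 8385 (.c 18433 (.c 35718473 .nil))) .nil)) (.node (.I .com (.c 8385 (.c 18433 .nil)) (.r 35718473 .nil)) (.I .tdb (.c 16 (.c 18433 (.c 8 (.c 32 .nil)))) (.l 12993 .nil)))))) (.node (.node (.node (.node (.I .ass (.c 12993 (.c 2105609 (.c 18561 .nil))) .nil) (.I .ass (.c 2105609 (.c 12993 (.c 18561 .nil))) .nil)) (.node (.I .com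 (.c 12993 (.c 2105609 .nil)) (.r 18561 .nil)) (.I .ass (.c 12993 (.c 513 (.c 2756086025 .nil))) .nil))) (.node (.node (.I .ass (.c 513 (.c 12993 (.c 2756086025 .nil))) .nil) (.I .com (.c 12993 (.c 513 .nil)) (.r 2756086025 .nil))) (.node (.I .tdb (.c 16 (.c 18433 (.c 8 (.c 40 .nil)))) (.l 8385 .nil)) (.I .ass (.c 8385 (.c 2105673 (.c 18561 .nil))) .nil)))) (.node (.node (.node (.I .ass (.c 2105673 (.c 8385 (.c 18561 .nil))) .nil) (.I .com (.c 8385 (.c 2105673 .nil)) (.r 18561 .nil))) (.node (.I .ass (.c 8385 (.c 513 (.c 2756086089 .nil))) .nil) (.I .ass (.c 513 (.c 8385 (.c 2756086089 .nil))) .nil))) (.node (.node (.I .com (.c 8385 (.c 513 .nil)) (.r 2756086089 .nil)) (.I .tdb (.c 32 (.c 12801 (.c 8 (.c 16 .nil)))) (.l 18625 .nil))) (.node (.I .tdb (.c 32 (.c 12801 (.c 8 (.c 16 .nil)))) (.b 18625 .nil)) (.I .adp (.c 24 (.c 40 (.c 32 .nil))) (.b 9025011228269257 .nil))))))))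

noncomputable def c5_130 : Tr := (.node (.node (.node (.node (.node (.node (.I .com (.c 3396729512033763431099245905597117501648044234927123676264415715209 (.c 24 .nil)) .nil) (.I .com (.c 3396729512033763431099245905596450256467768431480806557257023273929 (.c 24 .nil)) .nil)) (.node (.I .adp (.c 24 (.c 40 (.c 32 .nil))) (.b 59109062884628932361 .nil)) (.I .jac (.c 59109062884628932361 (.c 32 (.c 40 .nil))) (.l 24 .nil)))) (.node (.node (.I .com (.c 6250089801726996852138612724015139686848446364528325304486710893661442378207698825 (.c 24 .nil)) .nil) (.I .com (.c 6250089801726996852138612724015139686819824488795034152287779161311181433030245321 (.c 24 .nil)) .nil)) (.node (.I .com (.c 810705155088097029465566038962797496400789314964891213705 (.c 24 .nil)) .nil) (.I .com (.c 810705155088097029465566028654512183716285730008136088521 (.c 24 .nil)) .nil)))) (.node (.node (.node (.I .adp (.c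 24 (.c 40 (.c 32 .nil))) (.b 59109065668069837513 .nil)) (.I .com (.c 6250090978991936935765232166385601895368071167207495409807565740440772089343991689 (.c 24 .nil)) .nil)) (.node (.I .com (.c 6250090978991936935765232166385601895339449288778600650104972053014550238513511369 (.c 24 .nil)) .nil) (.I .adp (.c 24 (.c 40 (.c 32 .nil))) (.b 35464401931273 .nil)))) (.node (.node (.I .adp (.c 24 (.c 40 (.c 43059267 .nil))) (.b 8193 .nil)) (.I .adp (.c 24 (.c 40 (.c 0 .nil))) (.b 14832803796618569 .nil))) (.node (.I .com (.c 12801 (.c 24 .nil)) (.b 14832803796618569 .nil)) (.I .adp (.c 24 (.c 40 (.c 32 .nil))) (.b 14832803796618313 .nil)))))) (.node (.node (.node (.node (.I .adp (.c 24 (.c 13057 (.c 14832803796618313 .nil))) .nil) (.I .adp (.c 24 (.c 13057 (.c 14832759703961737 .nil))) .nil)) (.node (.I .tdb (.c 24 (.c 12801 (.c 8 (.c 16 .nil)))) (.b 18689 .nil)) (.I .tdb (.c 4609 (.c 40 (.c 8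 (.c 16 .nil)))) (.b 18689 .nil)))) (.node (.node (.I .tdb (.c 0 (.c 24 (.c 8 (.c 16 .nil)))) (.b 40 (.b 18689 .nil))) (.I .adp (.c 0 (.c 40 (.c 43059267 .nil))) (.b 8385 .nil))) (.node (.I .adp (.c 24 (.c 32 (.c 40 .nil))) (.b 9025011228269257 .nil)) (.I .adp (.c 24 (.c 32 (.c 40 .nil))) (.b 59109062884628932361 .nil))))) (.node (.node (.node (.I .adp (.c 24 (.c 32 (.c 40 .nil))) (.b 59109065668069837513 .nil)) (.I .adp (.c 24 (.c 32 (.c 40 .nil))) (.b 35464401931273 .nil))) (.node (.I .tdb (.c 4609 (.c 32 (.c 8 (.c 16 .nil)))) (.b 18753 .nil)) (.I .tdb (.c 0 (.c 24 (.c 8 (.c 16 .nil)))) (.b 32 (.b 18753 .nil))))) (.node (.node (.I .tdb (.c 24 (.c 8193 (.c 8 (.c 16 .nil)))) (.l 18753 .nil)) (.I .jac (.c 8652803 (.c 8 (.c 40 .nil))) (.l 18625 .nil))) (.node (.I .jac (.c 8652803 (.c 24 (.c 40 .nil))) (.b 18497 .nil)) (.I .adp (.c 24 (.c 40 (.c 2718204041 .nil))) (.b 8257 .nil))))))) (.node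 (.node (.node (.node (.node (.I .com (.c 59109065668069837769 (.c 24 .nil)) (.b 8257 .nil)) (.I .adp (.c 24 (.c 40 (.c 33587593 .nil))) (.b 8257 .nil))) (.node (.I .adp (.c 24 (.c 40 (.c 43059203 .nil))) (.b 8257 .nil)) (.I .adp (.c 24 (.c 40 (.c 8 .nil))) (.b 14832759703961929 .nil)))) (.node (.node (.I .com (.c 12865 (.c 24 .nil)) (.b 14832759703961929 .nil)) (.I .adp (.c 24 (.c 40 (.c 32 .nil))) (.b 14832759703961737 .nil))) (.node (.I .jac (.c 20891651 (.c 8 (.c 24 .nil))) (.l 18689 .nil)) (.I .adp (.c 8 (.c 40 (.c 2718204041 .nil))) (.b 8385 .nil))))) (.node (.node (.node (.I .adp (.c 24 (.c 32 (.c 2718204041 .nil))) (.b 12865 .nil)) (.I .com (.c 59109065668069837705 (.c 24 .nil)) (.b 12865 .nil))) (.node (.I .adp (.c 24 (.c 32 (.c 33587593 .nil))) (.b 12865 .nil)) (.I .adp (.c 8 (.c 32 (.c 33587593 .nil))) (.b 12993 .nil)))) (.node (.node (.I .adp (.c 8 (.c 24 (.c 2718204041 .nil)))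 (.b 13057 .nil)) (.I .adp (.c 8 (.c 24 (.c 33587593 .nil))) (.b 13057 .nil))) (.node (.I .com (.c 59109065668069837705 (.c 174695753 .nil)) .nil) (.I .jac (.c 2718204041 (.c 24 (.c 40 .nil))) (.l 8257 .nil)))))) (.node (.node (.node (.node (.I .com (.c 59109065668069837769 (.c 545424585 .nil)) .nil) (.I .com (.c 59109065668069837641 (.c 1324066057 .nil)) .nil)) (.node (.I .jac (.c 2718204041 (.c 32 (.c 40 .nil))) (.l 4673 .nil)) (.I .com (.c 59934265606904515465 (.c 24 .nil)) (.l 12801 .nil)))) (.node (.node (.I .com (.c 59934265606904515529 (.c 24 .nil)) (.l 8193 .nil)) (.I .com (.c 59934265606904515529 (.c 32 .nil)) (.l 4609 .nil))) (.node (.I .com (.c 59109065668069837641 (.c 21307459 .nil)) .nil) (.I .com (.c 59109065668069837705 (.c 24 .nil)) (.l 12865 .nil))))) (.node (.node (.node (.I .com (.c 59109065668069837769 (.c 8786499 .nil)) .nil) (.I .com (.c 59109065668069837769 (.c 24 .nil))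 (.l 8257 .nil))) (.node (.I .adp (.c 18497 (.c 16 (.c 2306971873338799945 .nil))) .nil) (.I .adp (.c 18497 (.c 16 (.c 231045989336561545 .nil))) .nil))) (.node (.node (.I .adp (.c 18497 (.c 16 (.c 13748196208362033993 .nil))) .nil) (.I .adp (.c 18497 (.c 16 (.c 231045815314584521 .nil))) .nil)) (.node (.I .adp (.c 18433 (.c 16 (.c 3632106110100617 .nil))) .nil) (.I .jac (.c 8193 (.c 24 (.c 40 .nil))) (.b 43059267 .nil))))))))

noncomputable def c5_131 : Tr := (.node (.node (.node (.node (.node (.node (.I .adp (.c 18497 (.c 16 (.c 3632040653488393 .nil))) .nil) (.I .adp (.c 18433 (.c 16 (.c 617620517416329 .nil))) .nil)) (.node (.I .jac (.c 617611520074185 (.c 8 (.c 40 .nil))) (.l 16 .nil)) (.I .jac (.c 3632040653488585 (.c 8 (.c 24 .nil))) (.l 16 .nil)))) (.node (.node (.I .jac (.c 12801 (.c 24 (.c 32 .nil))) (.b 43059267 .nil)) (.I .jac (.c 3561346121425353 (.c 8 (.c 32 .nil))) (.l 16 .nil)))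 (.node (.I .adp (.c 2049 (.c 48 (.c 13057 .nil))) (.l 4673 .nil)) (.I .jac (.c 2718204041 (.c 24 (.c 40 .nil))) (.b 32 (.l 8 .nil)))))) (.node (.node (.node (.I .jac (.c 2718204041 (.c 24 (.c 32 .nil))) (.b 40 (.l 8 .nil))) (.I .adp (.c 16 (.c 48 (.c 24 .nil))) (.b 2306969673777850313 .nil))) (.node (.I .adp (.c 16 (.c 48 (.c 24 .nil))) (.b 35468714087369 .nil)) (.I .jac (.c 3632040653488265 (.c 24 (.c 48 .nil))) (.l 16 .nil)))) (.node (.node (.I .com (.c 89098986658132392148749725165847709028498851657466979119523616777 (.c 16 .nil)) .nil) (.I .tdb (.c 8 (.c 12801 (.c 16 (.c 32 .nil)))) (.l 18625 .nil))) (.node (.I .ass (.c 2049 (.c 18497 (.c 562466121 .nil))) .nil) (.I .ass (.c 2049 (.c 18625 (.c 1324066057 .nil))) .nil))))) (.node (.node (.node (.node (.I .tdb (.c 16 (.c 18433 (.c 8 (.c 24 .nil)))) (.l 13057 .nil)) (.I .adp (.c 16 (.c 18689 (.c 231045989336561353 .nil))) .nil)) (.node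 (.I .jac (.c 231045989336561353 (.c 32 (.c 48 .nil))) (.l 16 .nil)) (.I .adp (.c 16 (.c 18689 (.c 13748192181200529225 .nil))) .nil))) (.node (.node (.I .adp (.c 16 (.c 18689 (.c 35470870263625 .nil))) .nil) (.I .adp (.c 16 (.c 18689 (.c 231045293249046473 .nil))) .nil)) (.node (.I .adp (.c 16 (.c 18689 (.c 13748194865974800073 .nil))) .nil) (.I .com (.c 18291641358826142093478020620972318827415861510426971176696968884913148064498569 (.c 16 .nil)) .nil)))) (.node (.node (.node (.I .com (.c 18291641358826142093478020620972318824319074778225956274863393494134643989330953 (.c 16 .nil)) .nil) (.I .jac (.c 3561346121425033 (.c 32 (.c 48 .nil))) (.l 16 .nil))) (.node (.I .com (.c 82361964593842655846796627384821413137963789414954527698493144073 (.c 16 .nil)) .nil) (.I .adp (.c 16 (.c 18689 (.c 3423058053193993 .nil))) .nil))) (.node (.node (.I .ass (.c 2049 (.c 18689 (.c 1324065993 .nil))) .nil)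 (.I .ass (.c 2049 (.c 18689 (.c 174695753 .nil))) .nil)) (.node (.I .com (.c 1459023842844925867468420828021685193271649165710521966216956661049394121 (.c 16 .nil)) .nil) (.I .com (.c 1459023842844925867468420828021684755964922565981526554943558097493909513 (.c 16 .nil)) .nil)))))) (.node (.node (.node (.node (.node (.I .adp (.c 16 (.c 48 (.c 40 .nil))) (.b 2306969673777850185 .nil)) (.I .adp (.c 16 (.c 18753 (.c 2306969673777850185 .nil))) .nil)) (.node (.I .jac (.c 2306969673777850185 (.c 40 (.c 48 .nil))) (.l 16 .nil)) (.I .adp (.c 16 (.c 48 (.c 40 .nil))) (.b 35468714087241 .nil)))) (.node (.node (.I .adp (.c 16 (.c 18753 (.c 35468714087241 .nil))) .nil) (.I .jac (.c 35468714087241 (.c 40 (.c 48 .nil))) (.l 16 .nil))) (.node (.I .jac (.c 231045293249046409 (.c 40 (.c 48 .nil))) (.l 16 .nil)) (.I .adp (.c 16 (.c 18753 (.c 2306970773558193865 .nil))) .nil)))) (.node (.node (.node (.I .jac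 (.c 2306970773558193865 (.c 40 (.c 48 .nil))) (.l 16 .nil)) (.I .adp (.c 16 (.c 18753 (.c 35466557976457 .nil))) .nil)) (.node (.I .jac (.c 35466557976457 (.c 40 (.c 48 .nil))) (.l 16 .nil)) (.I .jac (.c 617620517416009 (.c 40 (.c 48 .nil))) (.l 16 .nil)))) (.node (.node (.I .adp (.c 16 (.c 18753 (.c 617611520073865 .nil))) .nil) (.I .adp (.c 16 (.c 18753 (.c 59555558875465 .nil))) .nil)) (.node (.I .jac (.c 580749782704393 (.c 40 (.c 48 .nil))) (.l 16 .nil)) (.I .ass (.c 2049 (.c 18753 (.c 545424585 .nil))) .nil))))) (.node (.node (.node (.node (.I .adp (.c 16 (.c 48 (.c 537002057 .nil))) (.b 12993 .nil)) (.I .com (.c 2306969673777850377 (.c 16 .nil)) (.b 12993 .nil))) (.node (.I .adp (.c 16 (.c 48 (.c 2105609 .nil))) (.b 12993 .nil)) (.I .adp (.c 24 (.c 40 (.c 2718203977 .nil))) (.b 8321 .nil)))) (.node (.node (.I .com (.c 59109062884628932553 (.c 24 .nil)) (.b 8321 .nil)) (.I .jac (.c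 2728451 (.c 16 (.c 40 .nil))) (.l 18689 .nil))) (.node (.I .adp (.c 16 (.c 40 (.c 2105737 .nil))) (.b 8385 .nil)) (.I .adp (.c 24 (.c 32 (.c 2718203977 .nil))) (.b 12929 .nil))))) (.node (.node (.node (.I .com (.c 59109062884628932489 (.c 24 .nil)) (.b 12929 .nil)) (.I .jac (.c 8520195 (.c 16 (.c 24 .nil))) (.l 18753 .nil))) (.node (.I .jac (.c 2728451 (.c 16 (.c 32 .nil))) (.l 18753 .nil)) (.I .jac (.c 2728451 (.c 16 (.c 32 .nil))) (.b 18753 .nil)))) (.node (.node (.I .adp (.c 16 (.c 32 (.c 2718203977 .nil))) (.b 12993 .nil)) (.I .com (.c 59109062884628932489 (.c 16 .nil)) (.b 12993 .nil))) (.node (.I .adp (.c 16 (.c 32 (.c 42762755 .nil))) (.b 12993 .nil)) (.I .adp (.c 16 (.c 32 (.c 40 .nil))) (.b 14629225721520393 .nil))))))))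

noncomputable def c5_132 : Tr := (.node (.node (.node (.node (.node (.node (.I .adp (.c 16 (.c 24 (.c 2718203977 .nil))) (.b 13057 .nil)) (.I .com (.c 59109062884628932425 (.c 16 .nil)) (.b 13057 .nil))) (.node (.I .adp (.c 16 (.c 24 (.c 2105737 .nil))) (.b 13057 .nil)) (.I .com (.c 59109062884628932489 (.c 1337272521 .nil)) .nil))) (.node (.node (.I .jac (.c 2718203977 (.c 24 (.c 40 .nil))) (.l 8321 .nil)) (.I .jac (.c 2718203977 (.c 24 (.c 32 .nil))) (.l 12929 .nil))) (.node (.I .com (.c 59109062884628932553 (.c 553912521 .nil)) .nil) (.I .com (.c 59109062884628932425 (.c 1337272585 .nil)) .nil)))) (.node (.node (.node (.I .com (.c 59109062884628932425 (.c 21307523 .nil)) .nil) (.I .com (.c 59109062884628932489 (.c 21099139 .nil)) .nil)) (.node (.I .com (.c 59109062884628932489 (.c 24 .nil)) (.l 12929 .nil)) (.I .com (.c 59109062884628932553 (.c 24 .nil)) (.l 8321 .nil)))) (.node (.node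 (.I .com (.c 59109062884628932553 (.c 32 .nil)) (.l 4737 .nil)) (.I .adp (.c 8 (.c 18561 (.c 2306971873338799945 .nil))) .nil)) (.node (.I .adp (.c 8 (.c 18561 (.c 231045989336561545 .nil))) .nil) (.I .jac (.c 8 (.c 179513673 (.c 32 .nil))) (.l 18433 .nil)))))) (.node (.node (.node (.node (.I .jac (.c 8 (.c 4737 (.c 40 .nil))) (.b 32 (.l 18433 .nil))) (.I .jac (.c 8 (.c 16 (.c 24 .nil))) (.b 40 (.b 32 (.l 18433 .nil))))) (.node (.I .jac (.c 8 (.c 553912521 (.c 40 .nil))) (.l 18433 .nil)) (.I .jac (.c 8 (.c 8321 (.c 24 .nil))) (.b 40 (.l 18433 .nil))))) (.node (.node (.I .jac (.c 8 (.c 16 (.c 32 .nil))) (.b 24 (.b 40 (.l 18433 .nil)))) (.I .adp (.c 8 (.c 18561 (.c 13748196208362033993 .nil))) .nil)) (.node (.I .adp (.c 8 (.c 18561 (.c 231045815314584521 .nil))) .nil) (.I .jac (.c 8 (.c 179513609 (.c 40 .nil))) (.l 18433 .nil))))) (.node (.node (.node (.I .jac (.c 8 (.c 4737 (.c 32 .nil)))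 (.b 40 (.l 18433 .nil))) (.I .jac (.c 8 (.c 16 (.c 24 .nil))) (.b 32 (.b 40 (.l 18433 .nil))))) (.node (.I .adp (.c 18433 (.c 8 (.c 3632106110100681 .nil))) .nil) (.I .adp (.c 8 (.c 18561 (.c 3632040653488393 .nil))) .nil))) (.node (.node (.I .tdb (.c 24 (.c 12801 (.c 8 (.c 32 .nil)))) (.l 18561 .nil)) (.I .tdb (.c 4609 (.c 40 (.c 8 (.c 32 .nil)))) (.l 18561 .nil))) (.node (.I .tdb (.c 0 (.c 24 (.c 32 (.c 8 .nil)))) (.b 40 (.l 18561 .nil))) (.I .adp (.c 18433 (.c 8 (.c 3632084291164425 .nil))) .nil)))))) (.node (.node (.node (.node (.node (.I .tdb (.c 24 (.c 8193 (.c 8 (.c 40 .nil)))) (.l 18561 .nil)) (.I .tdb (.c 40 (.c 8193 (.c 8 (.c 24 .nil)))) (.l 18561 .nil))) (.node (.I .tdb (.c 0 (.c 32 (.c 8 (.c 24 .nil)))) (.b 40 (.l 18561 .nil))) (.I .jac (.c 2718203977 (.c 24 (.c 32 .nil))) (.b 40 (.l 16 .nil))))) (.node (.node (.I .adp (.c 8 (.c 18625 (.c 2306971873338799881 .nil))) .nil) (.I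 .adp (.c 8 (.c 18625 (.c 9024976834606985 .nil))) .nil)) (.node (.I .adp (.c 8 (.c 18625 (.c 13748196208362033929 .nil))) .nil) (.I .jac (.c 13748196208362033929 (.c 24 (.c 48 .nil))) (.l 8 .nil))))) (.node (.node (.node (.I .adp (.c 8 (.c 18625 (.c 9024942441010121 .nil))) .nil) (.I .adp (.c 8 (.c 18625 (.c 3632084291164233 .nil))) .nil)) (.node (.I .jac (.c 3632084291164233 (.c 24 (.c 48 .nil))) (.l 8 .nil)) (.I .jac (.c 3632040653488329 (.c 24 (.c 48 .nil))) (.l 8 .nil)))) (.node (.node (.I .tdb (.c 2049 (.c 40 (.c 8 (.c 32 .nil)))) (.l 18625 .nil)) (.I .tdb (.c 0 (.c 16 (.c 32 (.c 8 .nil)))) (.b 40 (.l 18625 .nil)))) (.node (.I .tdb (.c 16 (.c 8193 (.c 8 (.c 40 .nil)))) (.l 18625 .nil)) (.I .tdb (.c 2049 (.c 32 (.c 40 (.c 8 .nil)))) (.l 18625 .nil)))))) (.node (.node (.node (.node (.I .tdb (.c 0 (.c 16 (.c 40 (.c 8 .nil)))) (.b 32 (.l 18625 .nil))) (.I .ass (.c 513 (.c 18561 (.c 562466121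 .nil))) .nil)) (.node (.I .ass (.c 513 (.c 18625 (.c 1337272585 .nil))) .nil) (.I .tdb (.c 513 (.c 48 (.c 16 (.c 24 .nil)))) (.l 13057 .nil)))) (.node (.node (.I .tdb (.c 0 (.c 8 (.c 16 (.c 24 .nil)))) (.b 48 (.l 13057 .nil))) (.I .jac (.c 13748193523587631945 (.c 32 (.c 48 .nil))) (.l 8 .nil))) (.node (.I .jac (.c 9024976834606921 (.c 32 (.c 48 .nil))) (.l 8 .nil)) (.I .adp (.c 8 (.c 18689 (.c 62886542410121 .nil))) .nil)))) (.node (.node (.node (.I .adp (.c 8 (.c 18689 (.c 3491688652046601 .nil))) .nil) (.I .tdb (.c 16 (.c 4609 (.c 8 (.c 40 .nil)))) (.l 18689 .nil))) (.node (.I .tdb (.c 0 (.c 24 (.c 40 (.c 8 .nil)))) (.b 16 (.l 18689 .nil))) (.I .ass (.c 513 (.c 18689 (.c 1337272521 .nil))) .nil))) (.node (.node (.I .ass (.c 513 (.c 18689 (.c 179513673 .nil))) .nil) (.I .jac (.c 0 (.c 8 (.c 48 .nil))) (.b 617629514824073 .nil))) (.node (.I .adp (.c 8 (.c 18753 (.c 231045815314584329 .nil)))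 .nil) (.I .jac (.c 231045815314584329 (.c 40 (.c 48 .nil))) (.l 8 .nil))))))))

noncomputable def c5_133 : Tr := (.node (.node (.node (.node (.node (.node (.I .adp (.c 8 (.c 18753 (.c 2306970223667989321 .nil))) .nil) (.I .jac (.c 2306970223667989321 (.c 40 (.c 48 .nil))) (.l 8 .nil))) (.node (.I .jac (.c 9024942441009993 (.c 40 (.c 48 .nil))) (.l 8 .nil)) (.I .jac (.c 231045467270826889 (.c 40 (.c 48 .nil))) (.l 8 .nil)))) (.node (.node (.I .adp (.c 8 (.c 18753 (.c 617629514823753 .nil))) .nil) (.I .adp (.c 8 (.c 18753 (.c 617611520073929 .nil))) .nil)) (.node (.I .jac (.c 598967998054665 (.c 40 (.c 48 .nil))) (.l 8 .nil)) (.I .ass (.c 513 (.c 18753 (.c 553912521 .nil))) .nil)))) (.node (.node (.node (.I .com (.c 179513609 (.c 18753 .nil)) (.l 513 .nil)) (.I .adp (.c 0 (.c 18561 (.c 3632106110100617 .nil))) .nil)) (.node (.I .adp (.c 0 (.c 18497 (.c 3632106110100681 .nil))) .nil) (.I .adp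 (.c 0 (.c 18561 (.c 617620517416329 .nil))) .nil))) (.node (.node (.I .jac (.c 21307395 (.c 8 (.c 24 .nil))) (.l 18561 .nil)) (.I .adp (.c 0 (.c 18497 (.c 3632084291164425 .nil))) .nil)) (.node (.I .tdb (.c 32 (.c 40 (.c 18561 (.c 0 .nil)))) (.l 4673 .nil)) (.I .jac (.c 0 (.c 32 (.c 40 .nil))) (.r 18561 (.l 4673 .nil))))))) (.node (.node (.node (.node (.I .adp (.c 0 (.c 18561 (.c 13057 .nil))) (.l 4673 .nil)) (.I .adp (.c 0 (.c 18625 (.c 3632084291164297 .nil))) .nil)) (.node (.I .adp (.c 0 (.c 18625 (.c 598976858557833 .nil))) .nil) (.I .jac (.c 21307395 (.c 8 (.c 16 .nil))) (.l 18625 .nil)))) (.node (.node (.I .adp (.c 0 (.c 18625 (.c 3491710045130057 .nil))) .nil) (.I .tdb (.c 32 (.c 40 (.c 18625 (.c 0 .nil)))) (.l 2113 .nil))) (.node (.I .jac (.c 0 (.c 32 (.c 40 .nil))) (.r 18625 (.l 2113 .nil))) (.I .adp (.c 0 (.c 18625 (.c 13057 .nil))) (.l 2113 .nil))))) (.node (.node (.node (.I .adp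 (.c 0 (.c 18689 (.c 3561389332330633 .nil))) .nil) (.I .tdb (.c 16 (.c 40 (.c 18689 (.c 0 .nil)))) (.l 4673 .nil))) (.node (.I .adp (.c 0 (.c 18689 (.c 3491710045129993 .nil))) .nil) (.I .tdb (.c 24 (.c 40 (.c 18689 (.c 0 .nil)))) (.l 2113 .nil)))) (.node (.node (.I .adp (.c 0 (.c 18753 (.c 617629514823817 .nil))) .nil) (.I .jac (.c 0 (.c 8 (.c 8786563 .nil))) (.r 18753 .nil))) (.node (.I .adp (.c 0 (.c 18753 (.c 617620517416137 .nil))) .nil) (.I .jac (.c 0 (.c 8786499 (.c 16 .nil))) (.r 18753 .nil))))))) (.node (.node (.node (.node (.node (.I .tdb (.c 16 (.c 32 (.c 18753 (.c 0 .nil)))) (.l 4673 .nil)) (.I .jac (.c 8321 (.c 40 (.c 48 .nil))) (.l 0 (.l 4673 .nil)))) (.node (.I .adp (.c 0 (.c 18753 (.c 598976858557705 .nil))) .nil) (.I .jac (.c 0 (.c 8652867 (.c 24 .nil))) (.r 18753 .nil)))) (.node (.node (.I .tdb (.c 24 (.c 32 (.c 18753 (.c 0 .nil)))) (.l 2113 .nil)) (.I .jac (.c 8385 (.c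 40 (.c 48 .nil))) (.l 0 (.l 2113 .nil)))) (.node (.I .adp (.c 2306971873338799881 (.c 24 (.c 18497 .nil))) .nil) (.I .adp (.c 13748193523587632009 (.c 24 (.c 18497 .nil))) .nil)))) (.node (.node (.node (.I .jac (.c 18433 (.c 12929 (.c 32 .nil))) (.l 4673 .nil)) (.I .adp (.c 13748196208362033929 (.c 24 (.c 18497 .nil))) .nil)) (.node (.I .adp (.c 9024942441010121 (.c 24 (.c 18497 .nil))) .nil) (.I .com (.c 2718204105 (.c 14025207386396218121 .nil)) .nil))) (.node (.node (.I .jac (.c 18433 (.c 8321 (.c 40 .nil))) (.l 4673 .nil)) (.I .jac (.c 18433 (.c 16 (.c 32 .nil))) (.b 40 (.l 4673 .nil)))) (.node (.I .adp (.c 21307523 (.c 24 (.c 48 .nil))) (.b 513 .nil)) (.I .adp (.c 21307523 (.c 24 (.c 0 .nil))) (.b 18497 .nil)))))) (.node (.node (.node (.node (.I .com (.c 4609 (.c 21307523 .nil)) (.b 18497 .nil)) (.I .adp (.c 4609 (.c 21307523 (.c 18497 .nil))) .nil)) (.node (.I .adp (.c 21307523 (.c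 24 (.c 8 .nil))) (.b 18433 .nil)) (.I .com (.c 4673 (.c 21307523 .nil)) (.b 18433 .nil)))) (.node (.node (.I .adp (.c 231045989336561417 (.c 32 (.c 18497 .nil))) .nil) (.I .adp (.c 13748193523587631945 (.c 32 (.c 18497 .nil))) .nil)) (.node (.I .adp (.c 9024976834606921 (.c 32 (.c 18497 .nil))) .nil) (.I .adp (.c 231045467270826953 (.c 32 (.c 18497 .nil))) .nil)))) (.node (.node (.node (.I .com (.c 2718204169 (.c 14025204674709064521 .nil)) .nil) (.I .jac (.c 18433 (.c 16 (.c 24 .nil))) (.b 40 (.l 8257 .nil)))) (.node (.I .adp (.c 3561389332330569 (.c 32 (.c 18497 .nil))) .nil) (.I .adp (.c 8193 (.c 21099139 (.c 18497 .nil))) .nil))) (.node (.node (.I .adp (.c 8257 (.c 21099139 (.c 18433 .nil))) .nil) (.I .adp (.c 33587529 (.c 8385 (.c 18497 .nil))) .nil)) (.node (.I .com (.c 8786435 (.c 12929 .nil)) (.b 18497 .nil)) (.I .adp (.c 62886542410121 (.c 32 (.c 18497 .nil))) .nil)))))))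

noncomputable def c5_134 : Tr := (.node (.node (.node (.node (.node (.node (.I .adp (.c 8786435 (.c 12929 (.c 18497 .nil))) .nil) (.I .adp (.c 8786499 (.c 12929 (.c 18433 .nil))) .nil)) (.node (.I .jac (.c 18433 (.c 16 (.c 40 .nil))) (.l 8786499 .nil)) (.I .com (.c 2718204105 (.c 12929 .nil)) (.l 8257 .nil)))) (.node (.node (.I .adp (.c 9024942441009993 (.c 40 (.c 18497 .nil))) .nil) (.I .adp (.c 231045467270826889 (.c 40 (.c 18497 .nil))) .nil)) (.node (.I .jac (.c 18433 (.c 8321 (.c 24 .nil))) (.l 12865 .nil)) (.I .jac (.c 18433 (.c 16 (.c 32 .nil))) (.b 24 (.l 12865 .nil)))))) (.node (.node (.node (.I .com (.c 2718204233 (.c 10206437931930441 .nil)) .nil) (.I .adp (.c 2306970773558193929 (.c 40 (.c 18497 .nil))) .nil)) (.node (.I .jac (.c 18433 (.c 4737 (.c 32 .nil))) (.l 12865 .nil)) (.I .jac (.c 18433 (.c 16 (.c 24 .nil))) (.b 32 (.l 12865 .nil))))) (.node (.node (.I .adp (.c 12801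 (.c 8786563 (.c 18497 .nil))) .nil) (.I .adp (.c 617629514823753 (.c 40 (.c 18497 .nil))) .nil)) (.node (.I .adp (.c 617629514823817 (.c 40 (.c 18433 .nil))) .nil) (.I .adp (.c 169943369 (.c 8321 (.c 18497 .nil))) .nil))))) (.node (.node (.node (.node (.I .jac (.c 18433 (.c 16 (.c 32 .nil))) (.l 1324065993 .nil)) (.I .jac (.c 18433 (.c 16 (.c 32 .nil))) (.l 174695753 .nil))) (.node (.I .jac (.c 18433 (.c 24 (.c 40 .nil))) (.l 545424521 .nil)) (.I .com (.c 21099011 (.c 8321 .nil)) (.b 18497 .nil)))) (.node (.node (.I .adp (.c 617611520073929 (.c 40 (.c 18497 .nil))) .nil) (.I .adp (.c 62886542410057 (.c 40 (.c 18497 .nil))) .nil)) (.node (.I .com (.c 21099075 (.c 8321 .nil)) (.b 18433 .nil)) (.I .adp (.c 21099075 (.c 8321 (.c 18433 .nil))) .nil)))) (.node (.node (.node (.I .com (.c 2718204105 (.c 8321 .nil)) (.l 12865 .nil)) (.I .adp (.c 617620517416137 (.c 40 (.c 18433 .nil))) .nil)) (.node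 (.I .adp (.c 62889413446985 (.c 40 (.c 18433 .nil))) .nil) (.I .com (.c 2718204233 (.c 8321 .nil)) (.l 4673 .nil)))) (.node (.node (.I .jac (.c 18433 (.c 32 (.c 40 .nil))) (.l 174695561 .nil)) (.I .jac (.c 18433 (.c 32 (.c 40 .nil))) (.l 35718345 .nil))) (.node (.I .com (.c 21307395 (.c 4737 .nil)) (.b 18497 .nil)) (.I .adp (.c 21307395 (.c 4737 (.c 18497 .nil))) .nil)))))) (.node (.node (.node (.node (.node (.I .com (.c 21307459 (.c 4737 .nil)) (.b 18433 .nil)) (.I .adp (.c 21307459 (.c 4737 (.c 18433 .nil))) .nil)) (.node (.I .jac (.c 18433 (.c 16 (.c 24 .nil))) (.l 21307459 .nil)) (.I .com (.c 2718204169 (.c 4737 .nil)) (.l 12865 .nil)))) (.node (.node (.I .adp (.c 598976858557705 (.c 40 (.c 18433 .nil))) .nil) (.I .com (.c 231045989336561545 (.c 16 .nil)) (.b 18497 .nil))) (.node (.I .com (.c 2306970773558194121 (.c 16 .nil)) (.b 18497 .nil)) (.I .com (.c 13748194865974800265 (.c 16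 .nil)) (.b 18497 .nil))))) (.node (.node (.node (.I .adp (.c 2306971873338799945 (.c 16 (.c 18497 .nil))) .nil) (.I .adp (.c 2306970773558194121 (.c 16 (.c 18497 .nil))) .nil)) (.node (.I .com (.c 2718204041 (.c 2379903823379378121 .nil)) .nil) (.I .adp (.c 13748196208362033993 (.c 16 (.c 18497 .nil))) .nil))) (.node (.node (.I .jac (.c 18433 (.c 24 (.c 32 .nil))) (.b 40 (.l 2113 .nil))) (.I .adp (.c 3632106110100553 (.c 16 (.c 18497 .nil))) .nil)) (.node (.I .com (.c 617611520074121 (.c 16 .nil)) (.b 18497 .nil)) (.I .adp (.c 617611520074121 (.c 16 (.c 18497 .nil))) .nil))))) (.node (.node (.node (.node (.I .adp (.c 8652803 (.c 12993 (.c 18497 .nil))) .nil) (.I .adp (.c 8652867 (.c 12993 (.c 18433 .nil))) .nil)) (.node (.I .jac (.c 18433 (.c 24 (.c 40 .nil))) (.l 8652867 .nil)) (.I .adp (.c 3561346121425225 (.c 16 (.c 18497 .nil))) .nil))) (.node (.node (.I .adp (.c 8385 (.c 40 (.c 18497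 .nil))) (.l 2049 .nil)) (.I .jac (.c 18433 (.c 24 (.c 32 .nil))) (.l 20891715 .nil))) (.node (.I .adp (.c 8385 (.c 40 (.c 18433 .nil))) (.l 2113 .nil)) (.I .adp (.c 24 (.c 13057 (.c 18497 .nil))) (.l 2049 .nil))))) (.node (.node (.node (.I .adp (.c 2803779 (.c 13057 (.c 18433 .nil))) .nil) (.I .adp (.c 24 (.c 13057 (.c 18433 .nil))) (.l 2113 .nil))) (.node (.I .jac (.c 537002313 (.c 8 (.c 24 .nil))) (.b 18561 .nil)) (.I .jac (.c 1310925065 (.c 8 (.c 24 .nil))) (.b 18561 .nil)))) (.node (.node (.I .adp (.c 13748192181200529289 (.c 24 (.c 18561 .nil))) .nil) (.I .adp (.c 2306969673777850313 (.c 24 (.c 18561 .nil))) .nil)) (.node (.I .adp (.c 35468714087369 (.c 24 (.c 18561 .nil))) .nil) (.I .adp (.c 4609 (.c 21307459 (.c 18561 .nil))) .nil)))))))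

noncomputable def c5_135 : Tr := (.node (.node (.node (.node (.node (.node (.I .adp (.c 13748192181200529225 (.c 32 (.c 18561 .nil))) .nil) (.I .adp (.c 13748194865974800073 (.c 32 (.c 18561 .nil))) .nil)) (.node (.I .adp (.c 35466557976521 (.c 32 (.c 18561 .nil))) .nil) (.I .com (.c 8786435 (.c 12865 .nil)) (.b 18561 .nil)))) (.node (.node (.I .com (.c 59555558875529 (.c 32 .nil)) (.b 18561 .nil)) (.I .adp (.c 580749782704521 (.c 24 (.c 18561 .nil))) .nil)) (.node (.I .adp (.c 59555558875529 (.c 32 (.c 18561 .nil))) .nil) (.I .adp (.c 8786435 (.c 12865 (.c 18561 .nil))) .nil)))) (.node (.node (.node (.I .adp (.c 231045815314584265 (.c 40 (.c 18561 .nil))) .nil) (.I .adp (.c 2306969673777850185 (.c 40 (.c 18561 .nil))) .nil)) (.node (.I .adp (.c 35468714087241 (.c 40 (.c 18561 .nil))) .nil) (.I .adp (.c 35466557976457 (.c 40 (.c 18561 .nil))) .nil))) (.node (.node (.I .adp (.c 8786499 (.c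 40 (.c 48 .nil))) (.b 2049 .nil)) (.I .adp (.c 8786499 (.c 40 (.c 0 .nil))) (.b 18561 .nil))) (.node (.I .com (.c 12801 (.c 8786499 .nil)) (.b 18561 .nil)) (.I .adp (.c 12801 (.c 8786499 (.c 18561 .nil))) .nil))))) (.node (.node (.node (.node (.I .adp (.c 8786499 (.c 40 (.c 16 .nil))) (.b 18433 .nil)) (.I .adp (.c 1310925001 (.c 8257 (.c 18561 .nil))) .nil)) (.node (.I .com (.c 21099011 (.c 8257 .nil)) (.b 18561 .nil)) (.I .adp (.c 3423058053194057 (.c 24 (.c 18561 .nil))) .nil))) (.node (.node (.I .adp (.c 21099011 (.c 8257 (.c 18561 .nil))) .nil) (.I .adp (.c 617611520073865 (.c 40 (.c 18561 .nil))) .nil)) (.node (.I .adp (.c 1310925065 (.c 4673 (.c 18561 .nil))) .nil) (.I .adp (.c 537002313 (.c 4673 (.c 18561 .nil))) .nil)))) (.node (.node (.node (.I .com (.c 21307395 (.c 4673 .nil)) (.b 18561 .nil)) (.I .adp (.c 21307395 (.c 4673 (.c 18561 .nil))) .nil)) (.node (.I .adp (.c 580749782704393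 (.c 40 (.c 18561 .nil))) .nil) (.I .com (.c 2306971873338799945 (.c 8 .nil)) (.b 18561 .nil)))) (.node (.node (.I .adp (.c 2306971873338799945 (.c 8 (.c 18561 .nil))) .nil) (.I .jac (.c 18433 (.c 553912649 (.c 24 .nil))) (.l 8 .nil))) (.node (.I .jac (.c 18433 (.c 16 (.c 32 .nil))) (.b 40 (.b 24 (.l 8 .nil)))) (.I .jac (.c 18433 (.c 179513673 (.c 32 .nil))) (.l 8 .nil))))))) (.node (.node (.node (.node (.node (.I .jac (.c 18433 (.c 4737 (.c 40 .nil))) (.b 32 (.l 8 .nil))) (.I .jac (.c 18433 (.c 16 (.c 24 .nil))) (.b 40 (.b 32 (.l 8 .nil))))) (.node (.I .jac (.c 18433 (.c 553912521 (.c 40 .nil))) (.l 8 .nil)) (.I .jac (.c 18433 (.c 8321 (.c 24 .nil))) (.b 40 (.l 8 .nil))))) (.node (.node (.I .jac (.c 18433 (.c 16 (.c 32 .nil))) (.b 24 (.b 40 (.l 8 .nil)))) (.I .com (.c 13748196208362033993 (.c 8 .nil)) (.b 18561 .nil))) (.node (.I .com (.c 231045815314584521 (.c 8 .nil)) (.b 18561 .nil))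 (.I .adp (.c 13748196208362033993 (.c 8 (.c 18561 .nil))) .nil)))) (.node (.node (.node (.I .adp (.c 231045815314584521 (.c 8 (.c 18561 .nil))) .nil) (.I .jac (.c 18433 (.c 12929 (.c 32 .nil))) (.b 24 (.l 8 .nil)))) (.node (.I .jac (.c 18433 (.c 179513609 (.c 40 .nil))) (.l 8 .nil)) (.I .jac (.c 18433 (.c 4737 (.c 32 .nil))) (.b 40 (.l 8 .nil))))) (.node (.node (.I .jac (.c 18433 (.c 16 (.c 24 .nil))) (.b 32 (.b 40 (.l 8 .nil)))) (.I .adp (.c 3632106110100553 (.c 8 (.c 18561 .nil))) .nil)) (.node (.I .com (.c 617611520074121 (.c 8 .nil)) (.b 18561 .nil)) (.I .jac (.c 8 (.c 16 (.c 48 .nil))) (.l 3632040653488393 .nil)))))) (.node (.node (.node (.node (.I .adp (.c 617611520074121 (.c 8 (.c 18561 .nil))) .nil) (.I .adp (.c 8 (.c 3632084291164425 (.c 18433 .nil))) .nil)) (.node (.I .adp (.c 8 (.c 617629514824073 (.c 18433 .nil))) .nil) (.I .jac (.c 8 (.c 16 (.c 48 .nil))) (.l 3561346121425225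 .nil)))) (.node (.node (.I .adp (.c 20685315 (.c 8385 (.c 18561 .nil))) .nil) (.I .adp (.c 8385 (.c 40 (.c 18561 .nil))) (.l 513 .nil))) (.node (.I .com (.c 2728451 (.c 13057 .nil)) (.b 18561 .nil)) (.I .adp (.c 24 (.c 13057 (.c 18561 .nil))) (.l 513 .nil))))) (.node (.node (.node (.I .adp (.c 1310925065 (.c 24 (.c 48 .nil))) (.b 2113 .nil)) (.I .adp (.c 1310925065 (.c 24 (.c 8 .nil))) (.b 18561 .nil))) (.node (.I .adp (.c 1310925065 (.c 24 (.c 16 .nil))) (.b 18497 .nil)) (.I .adp (.c 537002313 (.c 24 (.c 48 .nil))) (.b 2113 .nil)))) (.node (.node (.I .adp (.c 537002313 (.c 24 (.c 8 .nil))) (.b 18561 .nil)) (.I .adp (.c 537002313 (.c 24 (.c 16 .nil))) (.b 18497 .nil))) (.node (.I .adp (.c 1310925001 (.c 32 (.c 48 .nil))) (.b 2113 .nil)) (.I .adp (.c 1310925001 (.c 32 (.c 8 .nil))) (.b 18561 .nil))))))))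

noncomputable def c5_136 : Tr := (.node (.node (.node (.node (.node (.node (.I .adp (.c 1310925001 (.c 32 (.c 16 .nil))) (.b 18497 .nil)) (.I .adp (.c 0 (.c 21307587 (.c 48 .nil))) (.b 2113 .nil))) (.node (.I .adp (.c 0 (.c 21307587 (.c 8 .nil))) (.b 18561 .nil)) (.I .adp (.c 0 (.c 21307587 (.c 16 .nil))) (.b 18497 .nil)))) (.node (.node (.I .adp (.c 0 (.c 617620517416329 (.c 18561 .nil))) .nil) (.I .jac (.c 0 (.c 16 (.c 48 .nil))) (.r 617620517416329 .nil))) (.node (.I .adp (.c 0 (.c 3632084291164425 (.c 18497 .nil))) .nil) (.I .jac (.c 0 (.c 8 (.c 48 .nil))) (.r 3632084291164425 .nil))))) (.node (.node (.node (.I .adp (.c 0 (.c 3561389332330825 (.c 18497 .nil))) .nil) (.I .jac (.c 0 (.c 8 (.c 48 .nil))) (.r 3561389332330825 .nil))) (.node (.I .adp (.c 8 (.c 16 (.c 48 .nil))) (.b 2306971873338799945 .nil)) (.I .adp (.c 8 (.c 16 (.c 48 .nil))) (.b 231045989336561545 .nil)))) (.node (.node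 (.I .adp (.c 8 (.c 16 (.c 48 .nil))) (.b 13748196208362033993 .nil)) (.I .adp (.c 8 (.c 16 (.c 48 .nil))) (.b 231045815314584521 .nil))) (.node (.I .adp (.c 0 (.c 16 (.c 48 .nil))) (.b 3632106110100617 .nil)) (.I .adp (.c 0 (.c 16 (.c 21307587 .nil))) (.b 18497 .nil)))))) (.node (.node (.node (.node (.I .com (.c 9024976834606985 (.c 24 .nil)) (.b 18497 .nil)) (.I .com (.c 9024942441010121 (.c 24 .nil)) (.b 18497 .nil))) (.node (.I .adp (.c 0 (.c 8 (.c 21307587 .nil))) (.b 18561 .nil)) (.I .adp (.c 0 (.c 8 (.c 48 .nil))) (.b 3632106110100681 .nil)))) (.node (.node (.I .com (.c 35470870263689 (.c 24 .nil)) (.b 18561 .nil)) (.I .com (.c 35468714087369 (.c 24 .nil)) (.b 18561 .nil))) (.node (.I .jac (.c 1310925065 (.c 8 (.c 16 .nil))) (.b 18625 .nil)) (.I .adp (.c 13748192181200529289 (.c 16 (.c 18625 .nil))) .nil)))) (.node (.node (.node (.I .adp (.c 35470870263689 (.c 16 (.c 18625 .nil)))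 .nil) (.I .jac (.c 2049 (.c 24 (.c 48 .nil))) (.r 1324066057 .nil))) (.node (.I .adp (.c 13748193523587631817 (.c 32 (.c 18625 .nil))) .nil) (.I .adp (.c 3491710045129801 (.c 32 (.c 18625 .nil))) .nil))) (.node (.node (.I .adp (.c 1310924873 (.c 8321 (.c 18625 .nil))) .nil) (.I .jac (.c 1310924873 (.c 24 (.c 48 .nil))) (.r 8321 .nil))) (.node (.I .adp (.c 2105673 (.c 8321 (.c 18625 .nil))) .nil) (.I .adp (.c 3632040653488265 (.c 16 (.c 18625 .nil))) .nil)))))) (.node (.node (.node (.node (.node (.I .jac (.c 3632040653488265 (.c 24 (.c 48 .nil))) (.r 16 .nil)) (.I .adp (.c 580749782704521 (.c 16 (.c 18625 .nil))) .nil)) (.node (.I .adp (.c 3491688652046473 (.c 32 (.c 18625 .nil))) .nil) (.I .adp (.c 2487083360649 (.c 32 (.c 18625 .nil))) .nil))) (.node (.node (.I .adp (.c 8652803 (.c 12865 (.c 18625 .nil))) .nil) (.I .adp (.c 2306970223667989193 (.c 40 (.c 18625 .nil))) .nil)) (.node (.I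 .adp (.c 8652867 (.c 40 (.c 48 .nil))) (.b 4609 .nil)) (.I .adp (.c 8652867 (.c 40 (.c 0 .nil))) (.b 18625 .nil))))) (.node (.node (.node (.I .com (.c 12801 (.c 8652867 .nil)) (.b 18625 .nil)) (.I .adp (.c 12801 (.c 8652867 (.c 18625 .nil))) .nil)) (.node (.I .adp (.c 8652867 (.c 40 (.c 24 .nil))) (.b 18433 .nil)) (.I .adp (.c 1310924937 (.c 8257 (.c 18625 .nil))) .nil))) (.node (.node (.I .jac (.c 1310924937 (.c 24 (.c 48 .nil))) (.r 8257 .nil)) (.I .adp (.c 3423058053194057 (.c 16 (.c 18625 .nil))) .nil)) (.node (.I .adp (.c 1310925065 (.c 2113 (.c 18625 .nil))) .nil) (.I .adp (.c 537002313 (.c 2113 (.c 18625 .nil))) .nil))))) (.node (.node (.node (.node (.I .adp (.c 3423058053193929 (.c 32 (.c 18625 .nil))) .nil) (.I .adp (.c 580749782704329 (.c 40 (.c 18625 .nil))) .nil)) (.node (.I .com (.c 2306971873338799881 (.c 8 .nil)) (.b 18625 .nil)) (.I .com (.c 2306970223667989449 (.c 8 .nil))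 (.b 18625 .nil)))) (.node (.node (.I .adp (.c 2306971873338799881 (.c 8 (.c 18625 .nil))) .nil) (.I .jac (.c 2306971873338799881 (.c 24 (.c 48 .nil))) (.r 8 .nil))) (.node (.I .adp (.c 2306970223667989449 (.c 8 (.c 18625 .nil))) .nil) (.I .jac (.c 513 (.c 24 (.c 48 .nil))) (.r 1337272585 .nil))))) (.node (.node (.node (.I .com (.c 13748196208362033929 (.c 8 .nil)) (.b 18625 .nil)) (.I .adp (.c 13748196208362033929 (.c 8 (.c 18625 .nil))) .nil)) (.node (.I .jac (.c 13748196208362033929 (.c 24 (.c 48 .nil))) (.r 8 .nil)) (.I .adp (.c 3632084291164233 (.c 8 (.c 18625 .nil))) .nil))) (.node (.node (.I .jac (.c 8 (.c 24 (.c 48 .nil))) (.l 3632084291164233 .nil)) (.I .jac (.c 3632084291164233 (.c 24 (.c 48 .nil))) (.r 8 .nil))) (.node (.I .com (.c 3632040653488329 (.c 8 .nil)) (.b 18625 .nil)) (.I .adp (.c 3632040653488329 (.c 8 (.c 18625 .nil))) .nil)))))))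

noncomputable def c5_137 : Tr := (.node (.node (.node (.node (.node (.node (.I .jac (.c 3632040653488329 (.c 24 (.c 48 .nil))) (.r 8 .nil)) (.I .adp (.c 598967998054793 (.c 8 (.c 18625 .nil))) .nil)) (.node (.I .jac (.c 8 (.c 24 (.c 48 .nil))) (.l 598967998054793 .nil)) (.I .com (.c 3491688652046665 (.c 8 .nil)) (.b 18625 .nil)))) (.node (.node (.I .adp (.c 3491688652046665 (.c 8 (.c 18625 .nil))) .nil) (.I .jac (.c 8 (.c 24 (.c 48 .nil))) (.l 3491688652046665 .nil))) (.node (.I .adp (.c 557571 (.c 13057 (.c 18625 .nil))) .nil) (.I .adp (.c 1310925065 (.c 16 (.c 48 .nil))) (.b 4673 .nil))))) (.node (.node (.node (.I .adp (.c 1310925065 (.c 16 (.c 8 .nil))) (.b 18625 .nil)) (.I .adp (.c 1310925065 (.c 16 (.c 24 .nil))) (.b 18497 .nil))) (.node (.I .adp (.c 537002313 (.c 16 (.c 48 .nil))) (.b 4673 .nil)) (.I .adp (.c 537002313 (.c 16 (.c 8 .nil))) (.b 18625 .nil)))) (.node (.node (.I .adp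 (.c 537002313 (.c 16 (.c 24 .nil))) (.b 18497 .nil)) (.I .adp (.c 1310924937 (.c 32 (.c 48 .nil))) (.b 4673 .nil))) (.node (.I .adp (.c 1310924937 (.c 32 (.c 8 .nil))) (.b 18625 .nil)) (.I .adp (.c 1310924937 (.c 32 (.c 24 .nil))) (.b 18497 .nil)))))) (.node (.node (.node (.node (.I .adp (.c 0 (.c 3632084291164297 (.c 18625 .nil))) .nil) (.I .jac (.c 0 (.c 24 (.c 48 .nil))) (.r 3632084291164297 .nil))) (.node (.I .adp (.c 0 (.c 598976858557833 (.c 18625 .nil))) .nil) (.I .jac (.c 0 (.c 24 (.c 48 .nil))) (.r 598976858557833 .nil)))) (.node (.node (.I .adp (.c 0 (.c 3491710045130057 (.c 18625 .nil))) .nil) (.I .jac (.c 0 (.c 24 (.c 48 .nil))) (.r 3491710045130057 .nil))) (.node (.I .jac (.c 15456118887244041 (.c 8 (.c 32 .nil))) (.l 16 .nil)) (.I .jac (.c 0 (.c 8 (.c 24 .nil))) (.b 3632084291164617 .nil))))) (.node (.node (.node (.I .adp (.c 8 (.c 24 (.c 48 .nil))) (.b 2306971873338799881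 .nil)) (.I .adp (.c 8 (.c 24 (.c 48 .nil))) (.b 9024976834606985 .nil))) (.node (.I .adp (.c 8 (.c 24 (.c 48 .nil))) (.b 13748196208362033929 .nil)) (.I .adp (.c 8 (.c 24 (.c 48 .nil))) (.b 9024942441010121 .nil)))) (.node (.node (.I .adp (.c 8 (.c 24 (.c 48 .nil))) (.b 3632084291164233 .nil)) (.I .adp (.c 8 (.c 24 (.c 21307523 .nil))) (.b 18433 .nil))) (.node (.I .adp (.c 0 (.c 24 (.c 48 .nil))) (.b 3632084291164297 .nil)) (.I .adp (.c 0 (.c 24 (.c 21307523 .nil))) (.b 18497 .nil))))))) (.node (.node (.node (.node (.node (.I .adp (.c 0 (.c 8 (.c 21307523 .nil))) (.b 18625 .nil)) (.I .adp (.c 0 (.c 8 (.c 48 .nil))) (.b 3632084291164425 .nil))) (.node (.I .com (.c 35470870263689 (.c 16 .nil)) (.b 18625 .nil)) (.I .adp (.c 1310924873 (.c 32 (.c 48 .nil))) (.b 4737 .nil)))) (.node (.node (.I .adp (.c 1310924873 (.c 32 (.c 16 .nil))) (.b 18625 .nil)) (.I .adp (.c 1310924873 (.c 32 (.c 24 .nil)))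 (.b 18561 .nil))) (.node (.I .adp (.c 2105673 (.c 32 (.c 48 .nil))) (.b 4737 .nil)) (.I .adp (.c 2105673 (.c 32 (.c 16 .nil))) (.b 18625 .nil))))) (.node (.node (.node (.I .adp (.c 2105673 (.c 32 (.c 24 .nil))) (.b 18561 .nil)) (.I .adp (.c 8520195 (.c 40 (.c 48 .nil))) (.b 4737 .nil))) (.node (.I .adp (.c 8520195 (.c 40 (.c 16 .nil))) (.b 18625 .nil)) (.I .adp (.c 8520195 (.c 40 (.c 24 .nil))) (.b 18561 .nil)))) (.node (.node (.I .adp (.c 16 (.c 24 (.c 48 .nil))) (.b 2306969673777850313 .nil)) (.I .adp (.c 16 (.c 24 (.c 48 .nil))) (.b 35468714087369 .nil))) (.node (.I .adp (.c 8 (.c 24 (.c 1310925065 .nil))) (.b 18561 .nil)) (.I .adp (.c 8 (.c 24 (.c 537002313 .nil))) (.b 18561 .nil)))))) (.node (.node (.node (.node (.I .adp (.c 8 (.c 16 (.c 1310925065 .nil))) (.b 18625 .nil)) (.I .adp (.c 8 (.c 16 (.c 537002313 .nil))) (.b 18625 .nil))) (.node (.I .adp (.c 8 (.c 16 (.c 21307395 .nil)))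 (.b 18625 .nil)) (.I .adp (.c 8 (.c 16 (.c 48 .nil))) (.b 3632040653488393 .nil)))) (.node (.node (.I .adp (.c 32 (.c 40 (.c 48 .nil))) (.b 35466557976329 .nil)) (.I .adp (.c 32 (.c 40 (.c 48 .nil))) (.b 231045467270826697 .nil))) (.node (.I .adp (.c 32 (.c 40 (.c 48 .nil))) (.b 59555558875337 .nil)) (.I .adp (.c 32 (.c 40 (.c 169943177 .nil))) (.b 18497 .nil))))) (.node (.node (.node (.I .com (.c 231045467270826953 (.c 32 .nil)) (.b 18497 .nil)) (.I .jac (.c 2728451 (.c 32 (.c 40 .nil))) (.b 18561 .nil))) (.node (.I .adp (.c 32 (.c 40 (.c 2105545 .nil))) (.b 18561 .nil)) (.I .com (.c 35466557976521 (.c 32 .nil)) (.b 18561 .nil)))) (.node (.node (.I .adp (.c 32 (.c 40 (.c 16 .nil))) (.b 59555558875593 .nil)) (.I .com (.c 12929 (.c 32 .nil)) (.b 59555558875593 .nil))) (.node (.I .adp (.c 32 (.c 40 (.c 2728451 .nil))) (.b 18561 .nil)) (.I .adp (.c 0 (.c 16 (.c 48 .nil))) (.b 617620517416329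 .nil))))))))

noncomputable def c5_138 : Tr := (.node (.node (.node (.node (.node (.node (.I .com (.c 3423058053194057 (.c 16 .nil)) (.b 18625 .nil)) (.I .jac (.c 169943369 (.c 8 (.c 16 .nil))) (.b 18689 .nil))) (.node (.I .jac (.c 2049 (.c 32 (.c 48 .nil))) (.r 1324065993 .nil)) (.I .adp (.c 13748194865974800073 (.c 16 (.c 18689 .nil))) .nil))) (.node (.node (.I .jac (.c 13748194865974800073 (.c 32 (.c 48 .nil))) (.r 16 .nil)) (.I .adp (.c 35466557976521 (.c 16 (.c 18689 .nil))) .nil)) (.node (.I .jac (.c 2049 (.c 32 (.c 48 .nil))) (.r 174695753 .nil)) (.I .jac (.c 16 (.c 32 (.c 48 .nil))) (.l 3561367726845001 .nil))))) (.node (.node (.node (.I .jac (.c 9024976834606793 (.c 32 (.c 48 .nil))) (.r 24 .nil)) (.I .adp (.c 13748192181200529161 (.c 24 (.c 18689 .nil))) .nil)) (.node (.I .adp (.c 35470870263561 (.c 24 (.c 18689 .nil))) .nil) (.I .adp (.c 13748193523587631817 (.c 24 (.c 18689 .nil)))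 .nil))) (.node (.node (.I .adp (.c 35464401931209 (.c 24 (.c 18689 .nil))) .nil) (.I .jac (.c 4609 (.c 32 (.c 48 .nil))) (.r 35718473 .nil))) (.node (.I .adp (.c 3491710045129801 (.c 24 (.c 18689 .nil))) .nil) (.I .jac (.c 3491710045129801 (.c 32 (.c 48 .nil))) (.r 24 .nil)))))) (.node (.node (.node (.node (.I .adp (.c 1310924873 (.c 4737 (.c 18689 .nil))) .nil) (.I .jac (.c 1310924873 (.c 32 (.c 48 .nil))) (.r 4737 .nil))) (.node (.I .adp (.c 2105673 (.c 4737 (.c 18689 .nil))) .nil) (.I .jac (.c 33587401 (.c 32 (.c 48 .nil))) (.r 12865 .nil)))) (.node (.node (.I .adp (.c 3561346121425033 (.c 16 (.c 18689 .nil))) .nil) (.I .jac (.c 16 (.c 32 (.c 48 .nil))) (.l 3561346121425033 .nil))) (.node (.I .jac (.c 3561346121425033 (.c 32 (.c 48 .nil))) (.r 16 .nil)) (.I .adp (.c 59555558875529 (.c 16 (.c 18689 .nil))) .nil)))) (.node (.node (.node (.I .jac (.c 24 (.c 32 (.c 48 .nil))) (.l 3491688652046473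 .nil)) (.I .adp (.c 12865 (.c 16 (.c 18689 .nil))) (.l 4609 .nil))) (.node (.I .adp (.c 12865 (.c 24 (.c 18689 .nil))) (.l 2049 .nil)) (.I .adp (.c 35466557976329 (.c 40 (.c 18689 .nil))) .nil))) (.node (.node (.I .adp (.c 35464401931081 (.c 40 (.c 18689 .nil))) .nil) (.I .adp (.c 2803779 (.c 40 (.c 48 .nil))) (.b 8193 .nil))) (.node (.I .adp (.c 2803779 (.c 40 (.c 0 .nil))) (.b 18689 .nil)) (.I .com (.c 12801 (.c 2803779 .nil)) (.b 18689 .nil))))))) (.node (.node (.node (.node (.node (.I .adp (.c 12801 (.c 2803779 (.c 18689 .nil))) .nil) (.I .adp (.c 62889413446729 (.c 40 (.c 18689 .nil))) .nil)) (.node (.I .adp (.c 2803779 (.c 40 (.c 32 .nil))) (.b 18433 .nil)) (.I .adp (.c 1310924937 (.c 4673 (.c 18689 .nil))) .nil))) (.node (.node (.I .jac (.c 1310924937 (.c 32 (.c 48 .nil))) (.r 4673 .nil)) (.I .adp (.c 33587529 (.c 4673 (.c 18689 .nil))) .nil)) (.node (.I .jac (.c 2105545 (.c 32 (.c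 48 .nil))) (.r 12929 .nil)) (.I .jac (.c 16 (.c 32 (.c 48 .nil))) (.l 3423058053193993 .nil))))) (.node (.node (.node (.I .adp (.c 62886542409865 (.c 40 (.c 18689 .nil))) .nil) (.I .adp (.c 1310925001 (.c 2113 (.c 18689 .nil))) .nil)) (.node (.I .adp (.c 169943369 (.c 2113 (.c 18689 .nil))) .nil) (.I .adp (.c 21099011 (.c 2113 (.c 18689 .nil))) .nil))) (.node (.node (.I .adp (.c 3423058053193929 (.c 24 (.c 18689 .nil))) .nil) (.I .jac (.c 3423058053193929 (.c 32 (.c 48 .nil))) (.r 24 .nil))) (.node (.I .com (.c 231045989336561417 (.c 8 .nil)) (.b 18689 .nil)) (.I .com (.c 9024976834606921 (.c 8 .nil)) (.b 18689 .nil)))))) (.node (.node (.node (.node (.I .adp (.c 231045989336561417 (.c 8 (.c 18689 .nil))) .nil) (.I .jac (.c 231045989336561417 (.c 32 (.c 48 .nil))) (.r 8 .nil))) (.node (.I .adp (.c 9024976834606921 (.c 8 (.c 18689 .nil))) .nil) (.I .jac (.c 9024976834606921 (.c 32 (.c 48 .nil)))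 (.r 8 .nil)))) (.node (.node (.I .jac (.c 513 (.c 32 (.c 48 .nil))) (.r 1337272521 .nil)) (.I .jac (.c 513 (.c 32 (.c 48 .nil))) (.r 179513673 .nil))) (.node (.I .jac (.c 8 (.c 32 (.c 48 .nil))) (.l 3561346121425097 .nil)) (.I .adp (.c 62886542410121 (.c 8 (.c 18689 .nil))) .nil)))) (.node (.node (.node (.I .jac (.c 8 (.c 32 (.c 48 .nil))) (.l 62886542410121 .nil)) (.I .adp (.c 2728451 (.c 12929 (.c 18689 .nil))) .nil)) (.node (.I .jac (.c 2728451 (.c 32 (.c 48 .nil))) (.r 12929 .nil)) (.I .adp (.c 8 (.c 12929 (.c 18689 .nil))) (.l 4609 .nil)))) (.node (.node (.I .jac (.c 8 (.c 32 (.c 48 .nil))) (.r 12929 (.l 4609 .nil))) (.I .adp (.c 20685315 (.c 4737 (.c 18689 .nil))) .nil)) (.node (.I .adp (.c 8 (.c 12993 (.c 18689 .nil))) (.l 2049 .nil)) (.I .jac (.c 8 (.c 32 (.c 48 .nil))) (.r 12993 (.l 2049 .nil)))))))))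

noncomputable def c5_139 : Tr := (.node (.node (.node (.node (.node (.node (.I .adp (.c 1310925001 (.c 16 (.c 48 .nil))) (.b 8257 .nil)) (.I .adp (.c 1310925001 (.c 16 (.c 8 .nil))) (.b 18689 .nil))) (.node (.I .adp (.c 1310925001 (.c 16 (.c 32 .nil))) (.b 18497 .nil)) (.I .adp (.c 169943369 (.c 16 (.c 48 .nil))) (.b 8257 .nil)))) (.node (.node (.I .adp (.c 169943369 (.c 16 (.c 8 .nil))) (.b 18689 .nil)) (.I .adp (.c 169943369 (.c 16 (.c 32 .nil))) (.b 18497 .nil))) (.node (.I .adp (.c 21099011 (.c 16 (.c 48 .nil))) (.b 8257 .nil)) (.I .adp (.c 21099011 (.c 16 (.c 8 .nil))) (.b 18689 .nil))))) (.node (.node (.node (.I .adp (.c 21099011 (.c 16 (.c 32 .nil))) (.b 18497 .nil)) (.I .adp (.c 1310924937 (.c 24 (.c 48 .nil))) (.b 8257 .nil))) (.node (.I .adp (.c 1310924937 (.c 24 (.c 8 .nil))) (.b 18689 .nil)) (.I .adp (.c 1310924937 (.c 24 (.c 32 .nil))) (.b 18497 .nil)))) (.node (.node (.I .adp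 (.c 33587529 (.c 24 (.c 48 .nil))) (.b 8257 .nil)) (.I .adp (.c 33587529 (.c 24 (.c 8 .nil))) (.b 18689 .nil))) (.node (.I .adp (.c 33587529 (.c 24 (.c 32 .nil))) (.b 18497 .nil)) (.I .adp (.c 2803715 (.c 40 (.c 48 .nil))) (.b 8257 .nil)))))) (.node (.node (.node (.node (.I .adp (.c 2803715 (.c 40 (.c 8 .nil))) (.b 18689 .nil)) (.I .adp (.c 2803715 (.c 40 (.c 32 .nil))) (.b 18497 .nil))) (.node (.I .jac (.c 14832759703961929 (.c 8 (.c 40 .nil))) (.l 24 .nil)) (.I .jac (.c 15456118887244105 (.c 8 (.c 16 .nil))) (.l 24 .nil)))) (.node (.node (.I .adp (.c 0 (.c 3491710045129993 (.c 18689 .nil))) .nil) (.I .jac (.c 0 (.c 32 (.c 48 .nil))) (.r 3491710045129993 .nil))) (.node (.I .jac (.c 15456118887244105 (.c 8 (.c 24 .nil))) (.l 16 .nil)) (.I .com (.c 8652803 (.c 12993 .nil)) (.b 18497 .nil))))) (.node (.node (.node (.I .jac (.c 0 (.c 8 (.c 32 .nil))) (.b 3561389332330953 .nil)) (.I .adp (.c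 8 (.c 32 (.c 48 .nil))) (.b 62886542410121 .nil))) (.node (.I .adp (.c 8 (.c 32 (.c 48 .nil))) (.b 3491688652046601 .nil)) (.I .adp (.c 0 (.c 32 (.c 48 .nil))) (.b 3561389332330633 .nil)))) (.node (.node (.I .adp (.c 0 (.c 32 (.c 21099139 .nil))) (.b 18497 .nil)) (.I .adp (.c 0 (.c 32 (.c 48 .nil))) (.b 3491710045129993 .nil))) (.node (.I .jac (.c 2105545 (.c 16 (.c 40 .nil))) (.b 18689 .nil)) (.I .jac (.c 513 (.c 12929 (.c 24 .nil))) (.b 18689 .nil))))))) (.node (.node (.node (.node (.node (.I .jac (.c 513 (.c 16 (.c 40 .nil))) (.b 24 (.b 18689 .nil))) (.I .jac (.c 513 (.c 4737 (.c 40 .nil))) (.b 18689 .nil))) (.node (.I .jac (.c 513 (.c 16 (.c 24 .nil))) (.b 40 (.b 18689 .nil))) (.I .com (.c 35466557976521 (.c 16 .nil)) (.b 18689 .nil)))) (.node (.node (.I .adp (.c 1310924873 (.c 24 (.c 48 .nil))) (.b 8321 .nil)) (.I .adp (.c 1310924873 (.c 24 (.c 16 .nil))) (.b 18689 .nil))) (.node (.I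 .adp (.c 1310924873 (.c 24 (.c 32 .nil))) (.b 18561 .nil)) (.I .adp (.c 2105673 (.c 24 (.c 48 .nil))) (.b 8321 .nil))))) (.node (.node (.node (.I .adp (.c 2105673 (.c 24 (.c 16 .nil))) (.b 18689 .nil)) (.I .adp (.c 2105673 (.c 24 (.c 32 .nil))) (.b 18561 .nil))) (.node (.I .adp (.c 20685315 (.c 24 (.c 48 .nil))) (.b 8321 .nil)) (.I .adp (.c 20685315 (.c 24 (.c 16 .nil))) (.b 18689 .nil)))) (.node (.node (.I .adp (.c 20685315 (.c 24 (.c 32 .nil))) (.b 18561 .nil)) (.I .adp (.c 2728451 (.c 40 (.c 48 .nil))) (.b 8321 .nil))) (.node (.I .adp (.c 2728451 (.c 40 (.c 16 .nil))) (.b 18689 .nil)) (.I .adp (.c 2728451 (.c 40 (.c 32 .nil))) (.b 18561 .nil)))))) (.node (.node (.node (.node (.I .adp (.c 16 (.c 32 (.c 48 .nil))) (.b 231045989336561353 .nil)) (.I .adp (.c 16 (.c 32 (.c 48 .nil))) (.b 13748192181200529225 .nil))) (.node (.I .adp (.c 16 (.c 32 (.c 48 .nil))) (.b 35470870263625 .nil)) (.I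 .adp (.c 16 (.c 32 (.c 48 .nil))) (.b 231045293249046473 .nil)))) (.node (.node (.I .adp (.c 16 (.c 32 (.c 48 .nil))) (.b 13748194865974800073 .nil)) (.I .adp (.c 16 (.c 32 (.c 48 .nil))) (.b 3423058053193993 .nil))) (.node (.I .adp (.c 16 (.c 32 (.c 1310925001 .nil))) (.b 18497 .nil)) (.I .adp (.c 16 (.c 32 (.c 169943369 .nil))) (.b 18497 .nil))))) (.node (.node (.node (.I .adp (.c 8 (.c 16 (.c 169943369 .nil))) (.b 18689 .nil)) (.I .adp (.c 24 (.c 40 (.c 48 .nil))) (.b 9024942441009865 .nil))) (.node (.I .adp (.c 24 (.c 40 (.c 48 .nil))) (.b 2306969673777850121 .nil)) (.I .adp (.c 24 (.c 40 (.c 48 .nil))) (.b 35468714087177 .nil)))) (.node (.node (.I .adp (.c 24 (.c 40 (.c 48 .nil))) (.b 35464401931145 .nil)) (.I .adp (.c 24 (.c 40 (.c 33587465 .nil))) (.b 18497 .nil))) (.node (.I .adp (.c 24 (.c 40 (.c 537002057 .nil))) (.b 18561 .nil)) (.I .com (.c 2306969673777850313 (.c 24 .nil)) (.b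 18561 .nil))))))))

noncomputable def c5_140 : Tr := (.node (.node (.node (.node (.node (.node (.I .adp (.c 24 (.c 40 (.c 2105609 .nil))) (.b 18561 .nil)) (.I .com (.c 59555558875529 (.c 16 .nil)) (.b 18689 .nil))) (.node (.I .adp (.c 24 (.c 40 (.c 2105481 .nil))) (.b 18689 .nil)) (.I .com (.c 35464401931209 (.c 24 .nil)) (.b 18689 .nil)))) (.node (.node (.I .adp (.c 24 (.c 32 (.c 48 .nil))) (.b 9024976834606793 .nil)) (.I .adp (.c 24 (.c 32 (.c 48 .nil))) (.b 35470870263561 .nil))) (.node (.I .adp (.c 24 (.c 32 (.c 48 .nil))) (.b 35464401931209 .nil)) (.I .adp (.c 0 (.c 32 (.c 20891715 .nil))) (.b 18625 .nil))))) (.node (.node (.node (.I .adp (.c 0 (.c 24 (.c 20891715 .nil))) (.b 18689 .nil)) (.I .adp (.c 0 (.c 24 (.c 48 .nil))) (.b 3491710045130057 .nil))) (.node (.I .adp (.c 24 (.c 32 (.c 33587529 .nil))) (.b 18497 .nil)) (.I .adp (.c 8 (.c 32 (.c 20891651 .nil))) (.b 18625 .nil)))) (.node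 (.node (.I .adp (.c 8 (.c 24 (.c 33587529 .nil))) (.b 18689 .nil)) (.I .adp (.c 16 (.c 40 (.c 48 .nil))) (.b 2306970773558193865 .nil))) (.node (.I .adp (.c 16 (.c 40 (.c 48 .nil))) (.b 35466557976457 .nil)) (.I .adp (.c 16 (.c 40 (.c 48 .nil))) (.b 617611520073865 .nil)))))) (.node (.node (.node (.node (.I .adp (.c 16 (.c 40 (.c 48 .nil))) (.b 59555558875465 .nil)) (.I .adp (.c 16 (.c 40 (.c 537002185 .nil))) (.b 18497 .nil))) (.node (.I .adp (.c 16 (.c 40 (.c 8 .nil))) (.b 617611520074185 .nil)) (.I .com (.c 12865 (.c 16 .nil)) (.b 617611520074185 .nil)))) (.node (.node (.I .adp (.c 16 (.c 40 (.c 8786435 .nil))) (.b 18497 .nil)) (.I .adp (.c 16 (.c 40 (.c 2105545 .nil))) (.b 18689 .nil))) (.node (.I .adp (.c 16 (.c 40 (.c 2728451 .nil))) (.b 18689 .nil)) (.I .adp (.c 16 (.c 40 (.c 32 .nil))) (.b 59555558875593 .nil))))) (.node (.node (.node (.I .adp (.c 24 (.c 32 (.c 2105673 .nil))) (.b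 18561 .nil)) (.I .adp (.c 16 (.c 32 (.c 1310924873 .nil))) (.b 18625 .nil))) (.node (.I .com (.c 13748192181200529289 (.c 16 .nil)) (.b 18625 .nil)) (.I .adp (.c 16 (.c 32 (.c 2105673 .nil))) (.b 18625 .nil)))) (.node (.node (.I .adp (.c 16 (.c 32 (.c 20685315 .nil))) (.b 18625 .nil)) (.I .jac (.c 0 (.c 8 (.c 40 .nil))) (.b 617629514824137 .nil))) (.node (.I .adp (.c 8 (.c 40 (.c 48 .nil))) (.b 231045815314584329 .nil)) (.I .adp (.c 8 (.c 40 (.c 48 .nil))) (.b 2306970223667989321 .nil))))))) (.node (.node (.node (.node (.node (.I .adp (.c 8 (.c 40 (.c 48 .nil))) (.b 617629514823753 .nil)) (.I .adp (.c 8 (.c 40 (.c 8786563 .nil))) (.b 18433 .nil))) (.node (.I .adp (.c 8 (.c 40 (.c 48 .nil))) (.b 617611520073929 .nil)) (.I .adp (.c 8 (.c 40 (.c 169943305 .nil))) (.b 18561 .nil)))) (.node (.node (.I .adp (.c 8 (.c 40 (.c 16 .nil))) (.b 617611520074185 .nil)) (.I .adp (.c 8 (.c 40 (.c 8786435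 .nil))) (.b 18561 .nil))) (.node (.I .adp (.c 8 (.c 40 (.c 537002121 .nil))) (.b 18625 .nil)) (.I .adp (.c 0 (.c 40 (.c 48 .nil))) (.b 617629514823817 .nil))))) (.node (.node (.node (.I .adp (.c 0 (.c 40 (.c 8786563 .nil))) (.b 18497 .nil)) (.I .adp (.c 0 (.c 40 (.c 48 .nil))) (.b 617620517416137 .nil))) (.node (.I .adp (.c 0 (.c 40 (.c 48 .nil))) (.b 598976858557705 .nil)) (.I .adp (.c 0 (.c 40 (.c 8786499 .nil))) (.b 18561 .nil)))) (.node (.node (.I .adp (.c 0 (.c 40 (.c 8652867 .nil))) (.b 18625 .nil)) (.I .jac (.c 33587401 (.c 8 (.c 32 .nil))) (.b 18753 .nil))) (.node (.I .jac (.c 4609 (.c 8 (.c 32 .nil))) (.b 16 (.b 18753 .nil))) (.I .jac (.c 2049 (.c 8257 (.c 24 .nil))) (.b 18753 .nil)))))) (.node (.node (.node (.node (.I .jac (.c 2049 (.c 8 (.c 32 .nil))) (.b 24 (.b 18753 .nil))) (.I .jac (.c 169943177 (.c 8 (.c 32 .nil))) (.b 18753 .nil))) (.node (.I .jac (.c 4609 (.c 8257 (.c 16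 .nil))) (.b 18753 .nil)) (.I .jac (.c 169943305 (.c 8 (.c 16 .nil))) (.b 18753 .nil)))) (.node (.node (.I .jac (.c 8193 (.c 8 (.c 16 .nil))) (.b 24 (.b 18753 .nil))) (.I .jac (.c 4609 (.c 2113 (.c 32 .nil))) (.b 18753 .nil))) (.node (.I .jac (.c 4609 (.c 8 (.c 16 .nil))) (.b 32 (.b 18753 .nil))) (.I .jac (.c 537002185 (.c 8 (.c 16 .nil))) (.b 18753 .nil))))) (.node (.node (.node (.I .jac (.c 8193 (.c 2113 (.c 24 .nil))) (.b 18753 .nil)) (.I .adp (.c 231045815314584265 (.c 16 (.c 18753 .nil))) .nil)) (.node (.I .jac (.c 231045815314584265 (.c 40 (.c 48 .nil))) (.r 16 .nil)) (.I .adp (.c 2306969673777850185 (.c 16 (.c 18753 .nil))) .nil))) (.node (.node (.I .jac (.c 2306969673777850185 (.c 40 (.c 48 .nil))) (.r 16 .nil)) (.I .adp (.c 35468714087241 (.c 16 (.c 18753 .nil))) .nil)) (.node (.I .jac (.c 35468714087241 (.c 40 (.c 48 .nil))) (.r 16 .nil)) (.I .adp (.c 231045293249046409 (.c 16 (.c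 18753 .nil))) .nil)))))))

noncomputable def c5_141 : Tr := (.node (.node (.node (.node (.node (.node (.I .jac (.c 231045293249046409 (.c 40 (.c 48 .nil))) (.r 16 .nil)) (.I .jac (.c 2049 (.c 40 (.c 48 .nil))) (.r 545424585 .nil))) (.node (.I .adp (.c 617620517416009 (.c 16 (.c 18753 .nil))) .nil) (.I .jac (.c 617620517416009 (.c 40 (.c 48 .nil))) (.r 16 .nil)))) (.node (.node (.I .adp (.c 9024942441009865 (.c 24 (.c 18753 .nil))) .nil) (.I .adp (.c 2306969673777850121 (.c 24 (.c 18753 .nil))) .nil)) (.node (.I .adp (.c 35468714087177 (.c 24 (.c 18753 .nil))) .nil) (.I .jac (.c 9024839260612489 (.c 40 (.c 48 .nil))) (.r 24 .nil))))) (.node (.node (.node (.I .jac (.c 2306970223667989193 (.c 40 (.c 48 .nil))) (.r 24 .nil)) (.I .adp (.c 35464401931145 (.c 24 (.c 18753 .nil))) .nil)) (.node (.I .adp (.c 598976858557513 (.c 24 (.c 18753 .nil))) .nil) (.I .jac (.c 598976858557513 (.c 40 (.c 48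 .nil))) (.r 24 .nil)))) (.node (.node (.I .jac (.c 33587401 (.c 40 (.c 48 .nil))) (.r 8257 .nil)) (.I .jac (.c 16 (.c 40 (.c 48 .nil))) (.l 617611520073865 .nil))) (.node (.I .jac (.c 16 (.c 40 (.c 48 .nil))) (.l 59555558875465 .nil)) (.I .jac (.c 24 (.c 40 (.c 48 .nil))) (.l 598967998054537 .nil)))))) (.node (.node (.node (.node (.I .adp (.c 8257 (.c 16 (.c 18753 .nil))) (.l 4609 .nil)) (.I .jac (.c 8257 (.c 40 (.c 48 .nil))) (.r 16 (.l 4609 .nil)))) (.node (.I .adp (.c 8257 (.c 24 (.c 18753 .nil))) (.l 2049 .nil)) (.I .jac (.c 8257 (.c 40 (.c 48 .nil))) (.r 24 (.l 2049 .nil))))) (.node (.node (.I .adp (.c 231045293249046281 (.c 32 (.c 18753 .nil))) .nil) (.I .jac (.c 231045293249046281 (.c 40 (.c 48 .nil))) (.r 32 .nil))) (.node (.I .jac (.c 8193 (.c 40 (.c 48 .nil))) (.r 35718345 .nil)) (.I .adp (.c 35464401931081 (.c 32 (.c 18753 .nil))) .nil)))) (.node (.node (.node (.I .jac (.c 35464401931081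 (.c 40 (.c 48 .nil))) (.r 32 .nil)) (.I .jac (.c 32 (.c 40 (.c 48 .nil))) (.l 62889413446729 .nil))) (.node (.I .jac (.c 2105545 (.c 40 (.c 48 .nil))) (.r 8321 .nil)) (.I .adp (.c 580749782704393 (.c 16 (.c 18753 .nil))) .nil))) (.node (.node (.I .jac (.c 580749782704393 (.c 40 (.c 48 .nil))) (.r 16 .nil)) (.I .adp (.c 8652803 (.c 4673 (.c 18753 .nil))) .nil)) (.node (.I .jac (.c 8652803 (.c 40 (.c 48 .nil))) (.r 4673 .nil)) (.I .jac (.c 32 (.c 40 (.c 48 .nil))) (.l 62886542409865 .nil))))))) (.node (.node (.node (.node (.node (.I .adp (.c 2487083360521 (.c 32 (.c 18753 .nil))) .nil) (.I .jac (.c 2487083360521 (.c 40 (.c 48 .nil))) (.r 32 .nil))) (.node (.I .jac (.c 513 (.c 43356803 (.c 40 .nil))) (.l 32 .nil)) (.I .jac (.c 537002185 (.c 40 (.c 48 .nil))) (.r 2113 .nil)))) (.node (.node (.I .adp (.c 580749782704329 (.c 24 (.c 18753 .nil))) .nil) (.I .jac (.c 24 (.c 40 (.c 48 .nil))) (.l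 580749782704329 .nil))) (.node (.I .jac (.c 580749782704329 (.c 40 (.c 48 .nil))) (.r 24 .nil)) (.I .jac (.c 32 (.c 40 (.c 48 .nil))) (.l 59555558875337 .nil))))) (.node (.node (.node (.I .com (.c 231045815314584329 (.c 8 .nil)) (.b 18753 .nil)) (.I .com (.c 9024942441009993 (.c 8 .nil)) (.b 18753 .nil))) (.node (.I .adp (.c 231045815314584329 (.c 8 (.c 18753 .nil))) .nil) (.I .jac (.c 231045815314584329 (.c 40 (.c 48 .nil))) (.r 8 .nil)))) (.node (.node (.I .adp (.c 9024942441009993 (.c 8 (.c 18753 .nil))) .nil) (.I .jac (.c 9024942441009993 (.c 40 (.c 48 .nil))) (.r 8 .nil))) (.node (.I .jac (.c 513 (.c 40 (.c 48 .nil))) (.r 553912521 .nil)) (.I .jac (.c 8 (.c 40 (.c 48 .nil))) (.l 617629514823753 .nil)))))) (.node (.node (.node (.node (.I .adp (.c 513 (.c 8786563 (.c 18753 .nil))) .nil) (.I .jac (.c 513 (.c 40 (.c 48 .nil))) (.r 8786563 .nil))) (.node (.I .com (.c 62886542410057 (.c 8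 .nil)) (.b 18753 .nil)) (.I .jac (.c 8 (.c 40 (.c 48 .nil))) (.l 617611520073929 .nil)))) (.node (.node (.I .adp (.c 8 (.c 8321 (.c 18753 .nil))) (.l 4609 .nil)) (.I .jac (.c 8 (.c 40 (.c 48 .nil))) (.r 8321 (.l 4609 .nil)))) (.node (.I .adp (.c 598967998054665 (.c 8 (.c 18753 .nil))) .nil) (.I .jac (.c 8 (.c 40 (.c 48 .nil))) (.l 598967998054665 .nil))))) (.node (.node (.node (.I .jac (.c 598967998054665 (.c 40 (.c 48 .nil))) (.r 8 .nil)) (.I .adp (.c 557571 (.c 8385 (.c 18753 .nil))) .nil)) (.node (.I .jac (.c 557571 (.c 40 (.c 48 .nil))) (.r 8385 .nil)) (.I .adp (.c 8 (.c 8385 (.c 18753 .nil))) (.l 2049 .nil)))) (.node (.node (.I .jac (.c 8 (.c 40 (.c 48 .nil))) (.r 8385 (.l 2049 .nil))) (.I .adp (.c 2803715 (.c 32 (.c 8 .nil))) (.b 18753 .nil))) (.node (.I .adp (.c 2803715 (.c 32 (.c 48 .nil))) (.b 12865 .nil)) (.I .adp (.c 2803715 (.c 32 (.c 40 .nil))) (.b 18497 .nil))))))))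

noncomputable def c5_142 : Tr := (.node (.node (.node (.node (.node (.node (.I .adp (.c 0 (.c 8786563 (.c 8 .nil))) (.b 18753 .nil)) (.I .adp (.c 0 (.c 617629514823817 (.c 18753 .nil))) .nil)) (.node (.I .jac (.c 0 (.c 40 (.c 48 .nil))) (.r 617629514823817 .nil)) (.I .adp (.c 0 (.c 8786563 (.c 48 .nil))) (.b 12865 .nil)))) (.node (.node (.I .adp (.c 0 (.c 8786563 (.c 40 .nil))) (.b 18497 .nil)) (.I .adp (.c 0 (.c 617620517416137 (.c 18753 .nil))) .nil)) (.node (.I .jac (.c 0 (.c 40 (.c 48 .nil))) (.r 617620517416137 .nil)) (.I .jac (.c 14832759703961993 (.c 8 (.c 32 .nil))) (.l 24 .nil))))) (.node (.node (.node (.I .jac (.c 15246191640314249 (.c 8 (.c 16 .nil))) (.l 24 .nil)) (.I .adp (.c 0 (.c 598976858557705 (.c 18753 .nil))) .nil)) (.node (.I .jac (.c 0 (.c 40 (.c 48 .nil))) (.r 598976858557705 .nil)) (.I .jac (.c 14832759703961993 (.c 8 (.c 24 .nil))) (.l 32 .nil)))) (.node (.node (.I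 .com (.c 43059203 (.c 8385 .nil)) (.b 12865 .nil)) (.I .jac (.c 2105545 (.c 16 (.c 32 .nil))) (.b 18753 .nil))) (.node (.I .com (.c 35468714087241 (.c 16 .nil)) (.b 18753 .nil)) (.I .adp (.c 8520195 (.c 24 (.c 16 .nil))) (.b 18753 .nil)))))) (.node (.node (.node (.node (.I .adp (.c 8520195 (.c 24 (.c 48 .nil))) (.b 12929 .nil)) (.I .adp (.c 8520195 (.c 24 (.c 40 .nil))) (.b 18561 .nil))) (.node (.I .adp (.c 0 (.c 16 (.c 8786499 .nil))) (.b 18753 .nil)) (.I .adp (.c 8 (.c 16 (.c 169943305 .nil))) (.b 18753 .nil)))) (.node (.node (.I .jac (.c 557571 (.c 24 (.c 32 .nil))) (.b 18753 .nil)) (.I .adp (.c 24 (.c 32 (.c 2105481 .nil))) (.b 18753 .nil))) (.node (.I .com (.c 35464401931145 (.c 24 .nil)) (.b 18753 .nil)) (.I .adp (.c 8652803 (.c 8 (.c 24 .nil))) (.b 18753 .nil))))) (.node (.node (.node (.I .adp (.c 8652803 (.c 8 (.c 48 .nil))) (.b 12993 .nil)) (.I .adp (.c 8652803 (.c 8 (.c 40 .nil)))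 (.b 18625 .nil))) (.node (.I .adp (.c 8520195 (.c 16 (.c 24 .nil))) (.b 18753 .nil)) (.I .adp (.c 8520195 (.c 16 (.c 48 .nil))) (.b 12993 .nil)))) (.node (.node (.I .adp (.c 8520195 (.c 16 (.c 40 .nil))) (.b 18625 .nil)) (.I .adp (.c 557571 (.c 32 (.c 24 .nil))) (.b 18753 .nil))) (.node (.I .adp (.c 557571 (.c 32 (.c 48 .nil))) (.b 12993 .nil)) (.I .adp (.c 557571 (.c 32 (.c 40 .nil))) (.b 18625 .nil))))))) (.node (.node (.node (.node (.node (.I .adp (.c 0 (.c 24 (.c 8652867 .nil))) (.b 18753 .nil)) (.I .adp (.c 0 (.c 24 (.c 48 .nil))) (.b 598976858557833 .nil))) (.node (.I .adp (.c 8 (.c 24 (.c 33587465 .nil))) (.b 18753 .nil)) (.I .adp (.c 16 (.c 32 (.c 169943113 .nil))) (.b 18753 .nil)))) (.node (.node (.I .com (.c 231045293249046409 (.c 16 .nil)) (.b 18753 .nil)) (.I .adp (.c 16 (.c 24 (.c 537002057 .nil))) (.b 18753 .nil))) (.node (.I .com (.c 2306969673777850185 (.c 16 .nil)) (.b 18753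 .nil)) (.I .adp (.c 16 (.c 24 (.c 2105609 .nil))) (.b 18753 .nil))))) (.node (.node (.node (.I .adp (.c 8 (.c 32 (.c 2803715 .nil))) (.b 18753 .nil)) (.I .adp (.c 8 (.c 32 (.c 40 .nil))) (.b 62886542410185 .nil))) (.node (.I .adp (.c 2803715 (.c 8 (.c 32 .nil))) (.b 18753 .nil)) (.I .adp (.c 2803715 (.c 8 (.c 40 .nil))) (.b 18689 .nil)))) (.node (.node (.I .adp (.c 2803715 (.c 8 (.c 48 .nil))) (.b 13057 .nil)) (.I .com (.c 58240646186216787513332372168148850238351563989104378421909513 (.c 40 .nil)) .nil)) (.node (.I .com (.c 58240646186242460541317411863750251907117709342642279798191113 (.c 40 .nil)) .nil) (.I .ass (.c 18497 (.c 12801 (.c 179513609 .nil))) .nil))))) (.node (.node (.node (.node (.I .com (.c 18497 (.c 12801 .nil)) (.r 179513609 .nil)) (.I .com (.c 8007571589450002292282724325700858547428831940242353978377 (.c 40 .nil)) .nil)) (.node (.I .com (.c 6441087201663406564458032368572175242955278347108046388233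 (.c 40 .nil)) .nil) (.I .com (.c 8007571589547794518489790203408802826797159064059214778377 (.c 40 .nil)) .nil))) (.node (.node (.I .com (.c 6441087201718780684179843667799284515155786017619154760713 (.c 40 .nil)) .nil) (.I .jac (.c 62886542410057 (.c 8 (.c 48 .nil))) (.l 40 .nil))) (.node (.I .ass (.c 18497 (.c 12801 (.c 553912521 .nil))) .nil) (.I .com (.c 18497 (.c 12801 .nil)) (.r 553912521 .nil))))) (.node (.node (.node (.I .ass (.c 18497 (.c 2049 (.c 562466121 .nil))) .nil) (.I .com (.c 18497 (.c 2049 .nil)) (.r 562466121 .nil))) (.node (.I .jac (.c 14629225721520457 (.c 16 (.c 24 .nil))) (.l 40 .nil)) (.I .jac (.c 3423058053194057 (.c 16 (.c 24 .nil))) (.l 48 .nil)))) (.node (.node (.I .jac (.c 14629225721520393 (.c 16 (.c 32 .nil))) (.l 40 .nil)) (.I .jac (.c 3423058053193993 (.c 16 (.c 32 .nil))) (.l 48 .nil))) (.node (.I .jac (.c 59555558875465 (.c 16 (.c 48 .nil))) (.l 40 .nil))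 (.I .jac (.c 580749782704393 (.c 16 (.c 48 .nil))) (.l 40 .nil))))))))

noncomputable def c5_143 : Tr := (.node (.node (.node (.node (.node (.node (.I .com (.c 6441087201746467744040883236123901534216340861404261331977 (.c 32 .nil)) .nil) (.I .ass (.c 18497 (.c 4609 (.c 1337272585 .nil))) .nil)) (.node (.I .com (.c 18497 (.c 4609 .nil)) (.r 1337272585 .nil)) (.I .ass (.c 18497 (.c 8193 (.c 1337272521 .nil))) .nil))) (.node (.node (.I .com (.c 18497 (.c 8193 .nil)) (.r 1337272521 .nil)) (.I .com (.c 76104792608240660304838596728815591279282952557803207117266423817 (.c 32 .nil)) .nil)) (.node (.I .com (.c 76104792608229500760647112777219767912341793513250621531359205385 (.c 32 .nil)) .nil) (.I .com (.c 19589859841170820816512814651609842473208379866077193 (.c 32 .nil)) .nil)))) (.node (.node (.node (.I .jac (.c 3491688652046601 (.c 8 (.c 48 .nil))) (.l 32 .nil)) (.I .com (.c 70295418264021313545660038924700774359065206181747927933821563913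 (.c 32 .nil)) .nil)) (.node (.I .com (.c 70295418264016056367196823099296142163752309344533784109582587913 (.c 32 .nil)) .nil) (.I .jac (.c 14629225721520521 (.c 16 (.c 24 .nil))) (.l 32 .nil)))) (.node (.node (.I .jac (.c 14629225721520393 (.c 16 (.c 40 .nil))) (.l 32 .nil)) (.I .jac (.c 59555558875529 (.c 16 (.c 48 .nil))) (.l 32 .nil))) (.node (.I .jac (.c 3423058053193993 (.c 16 (.c 48 .nil))) (.l 32 .nil)) (.I .com (.c 70295418264026570724123255045077569719790610676815672396375061513 (.c 24 .nil)) .nil))))) (.node (.node (.node (.node (.I .com (.c 58240646186293806597287516723534686058996650485499590919533577 (.c 24 .nil)) .nil) (.I .jac (.c 580749782704521 (.c 16 (.c 48 .nil))) (.l 24 .nil))) (.node (.I .jac (.c 3423058053194057 (.c 16 (.c 48 .nil))) (.l 24 .nil)) (.I .jac (.c 9025011228269449 (.c 24 (.c 40 .nil))) (.b 8 .nil)))) (.node (.node (.I .jac (.c 9024942441010185 (.c 24 (.c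 40 .nil))) (.b 8 .nil)) (.I .jac (.c 33587593 (.c 12993 (.c 32 .nil))) (.b 8 .nil))) (.node (.I .jac (.c 9024976834606985 (.c 24 (.c 48 .nil))) (.b 8 .nil)) (.I .jac (.c 33587529 (.c 18625 (.c 32 .nil))) (.b 8 .nil))))) (.node (.node (.node (.I .jac (.c 33587529 (.c 24 (.c 48 .nil))) (.b 32 (.b 8 .nil))) (.I .jac (.c 33587465 (.c 24 (.c 48 .nil))) (.b 40 (.b 8 .nil)))) (.node (.I .jac (.c 33587465 (.c 12993 (.c 48 .nil))) (.b 8 .nil)) (.I .jac (.c 2049 (.c 24 (.c 32 .nil))) (.b 48 (.b 40 (.b 8 .nil)))))) (.node (.node (.I .jac (.c 231045815314584585 (.c 16 (.c 40 .nil))) (.b 8 .nil)) (.I .jac (.c 169943433 (.c 12929 (.c 32 .nil))) (.b 8 .nil))) (.node (.I .jac (.c 169943433 (.c 16 (.c 32 .nil))) (.b 40 (.b 8 .nil))) (.I .jac (.c 169943369 (.c 16 (.c 48 .nil))) (.b 32 (.b 8 .nil)))))))) (.node (.node (.node (.node (.node (.I .jac (.c 169943305 (.c 16 (.c 48 .nil))) (.b 40 (.b 8 .nil))) (.I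 .jac (.c 169943305 (.c 12929 (.c 48 .nil))) (.b 8 .nil))) (.node (.I .jac (.c 4609 (.c 16 (.c 32 .nil))) (.b 48 (.b 40 (.b 8 .nil)))) (.I .jac (.c 13748198893136698249 (.c 16 (.c 24 .nil))) (.b 8 .nil)))) (.node (.node (.I .jac (.c 59109071234951844809 (.c 16 (.c 24 .nil))) (.b 8 .nil)) (.I .jac (.c 33587593 (.c 24 (.c 40 .nil))) (.b 32 (.b 8 .nil)))) (.node (.I .jac (.c 9024942441010121 (.c 24 (.c 48 .nil))) (.b 8 .nil)) (.I .jac (.c 33587465 (.c 18625 (.c 40 .nil))) (.b 8 .nil))))) (.node (.node (.node (.I .jac (.c 33587465 (.c 24 (.c 40 .nil))) (.b 48 (.b 8 .nil))) (.I .jac (.c 2049 (.c 24 (.c 32 .nil))) (.b 40 (.b 48 (.b 8 .nil))))) (.node (.I .jac (.c 231046163358604233 (.c 16 (.c 32 .nil))) (.b 8 .nil)) (.I .jac (.c 169943305 (.c 16 (.c 40 .nil))) (.b 48 (.b 8 .nil))))) (.node (.node (.I .jac (.c 4609 (.c 16 (.c 32 .nil))) (.b 40 (.b 48 (.b 8 .nil)))) (.I .com (.c 15246281046235209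 (.c 12993 .nil)) (.b 8 .nil))) (.node (.I .tdb (.c 0 (.c 16 (.c 32 (.c 48 .nil)))) (.b 12993 (.b 8 .nil))) (.I .com (.c 15456208906582089 (.c 8385 .nil)) (.b 8 .nil)))))) (.node (.node (.node (.node (.I .tdb (.c 0 (.c 16 (.c 40 (.c 48 .nil)))) (.b 8385 (.b 8 .nil))) (.I .adp (.c 15456208906582089 (.c 8385 (.c 8 .nil))) .nil)) (.node (.I .adp (.c 15246281046235209 (.c 12993 (.c 8 .nil))) .nil) (.I .com (.c 18497 (.c 32 .nil)) (.l 9024976834606921 .nil)))) (.node (.node (.I .com (.c 18497 (.c 32 .nil)) (.l 9024908047478729 .nil)) (.I .tdb (.c 0 (.c 24 (.c 32 (.c 48 .nil)))) (.b 12929 (.b 8 .nil)))) (.node (.I .com (.c 15456253916349513 (.c 8321 .nil)) (.b 8 .nil)) (.I .adp (.c 15456253916349513 (.c 8321 (.c 8 .nil))) .nil)))) (.node (.node (.node (.I .com (.c 18497 (.c 32 .nil)) (.l 231045989336561417 .nil)) (.I .com (.c 18497 (.c 32 .nil)) (.l 231045467270826953 .nil))) (.node (.I .com (.c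 18497 (.c 40 .nil)) (.l 231045815314584329 .nil)) (.I .com (.c 18497 (.c 40 .nil)) (.l 231045467270826889 .nil)))) (.node (.node (.I .tdb (.c 16 (.c 24 (.c 32 (.c 48 .nil)))) (.b 12801 (.b 8 .nil))) (.I .tdb (.c 0 (.c 32 (.c 40 (.c 48 .nil)))) (.b 4737 (.b 8 .nil)))) (.node (.I .com (.c 18497 (.c 32 .nil)) (.l 13748194865974800137 .nil)) (.I .com (.c 18497 (.c 32 .nil)) (.l 13748193523587631945 .nil))))))))

noncomputable def c5_144 : Tr := (.node (.node (.node (.node (.node (.node (.I .com (.c 18497 (.c 40 .nil)) (.l 2306970773558193929 .nil)) (.I .com (.c 18497 (.c 40 .nil)) (.l 2306970223667989321 .nil))) (.node (.I .jac (.c 2306970773558194185 (.c 16 (.c 40 .nil))) (.b 8 .nil)) (.I .jac (.c 537002185 (.c 16 (.c 48 .nil))) (.b 40 (.b 8 .nil))))) (.node (.node (.I .jac (.c 8193 (.c 4737 (.c 48 .nil))) (.b 40 (.b 8 .nil))) (.I .jac (.c 13748198893136698185 (.c 16 (.c 32 .nil))) (.b 8 .nil)))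 (.node (.I .jac (.c 59109068451510808521 (.c 16 (.c 32 .nil))) (.b 8 .nil)) (.I .jac (.c 2306970773558194121 (.c 16 (.c 48 .nil))) (.b 8 .nil))))) (.node (.node (.node (.I .jac (.c 8193 (.c 16 (.c 48 .nil))) (.b 40 (.b 24 (.b 8 .nil)))) (.I .jac (.c 8193 (.c 16 (.c 24 .nil))) (.b 40 (.b 48 (.b 8 .nil))))) (.node (.I .jac (.c 59109074018392946505 (.c 16 (.c 32 .nil))) (.b 8 .nil)) (.I .jac (.c 15038498931046473 (.c 32 (.c 40 .nil))) (.b 8 .nil)))) (.node (.node (.I .jac (.c 3561346121425097 (.c 32 (.c 48 .nil))) (.b 8 .nil)) (.I .jac (.c 3561389332330569 (.c 32 (.c 48 .nil))) (.b 8 .nil))) (.node (.I .tdb (.c 0 (.c 16 (.c 48 (.c 24 .nil)))) (.b 13057 (.b 8 .nil))) (.I .adp (.c 15038498931046473 (.c 13057 (.c 8 .nil))) .nil))))) (.node (.node (.node (.node (.I .tdb (.c 0 (.c 32 (.c 24 (.c 40 .nil)))) (.b 18561 (.b 8 .nil))) (.I .com (.c 18497 (.c 24 .nil)) (.l 2306971873338799881 .nil))) (.node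 (.I .com (.c 18497 (.c 24 .nil)) (.l 2306970223667989449 .nil)) (.I .com (.c 18497 (.c 24 .nil)) (.l 13748196208362033929 .nil)))) (.node (.node (.I .com (.c 18497 (.c 24 .nil)) (.l 13748193523587632009 .nil)) (.I .jac (.c 12801 (.c 16 (.c 48 .nil))) (.b 8385 (.b 8 .nil)))) (.node (.I .jac (.c 59109074018392946441 (.c 24 (.c 32 .nil))) (.b 8 .nil)) (.I .jac (.c 18433 (.c 16 (.c 40 .nil))) (.b 8385 (.l 8 .nil)))))) (.node (.node (.node (.I .jac (.c 0 (.c 12929 (.c 48 .nil))) (.b 8385 (.l 8 .nil))) (.I .jac (.c 0 (.c 16 (.c 40 .nil))) (.b 48 (.b 8385 (.l 8 .nil))))) (.node (.I .jac (.c 3491688652046601 (.c 32 (.c 48 .nil))) (.b 8 .nil)) (.I .tdb (.c 0 (.c 24 (.c 48 (.c 16 .nil)))) (.b 13057 (.b 8 .nil))))) (.node (.node (.I .tdb (.c 0 (.c 32 (.c 16 (.c 40 .nil)))) (.b 18625 (.b 8 .nil))) (.I .tdb (.c 0 (.c 32 (.c 16 (.c 48 .nil)))) (.b 12993 (.b 8 .nil)))) (.node (.I .tdb (.c 24 (.c 32 (.c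 16 (.c 48 .nil)))) (.b 12801 (.b 8 .nil))) (.I .jac (.c 2718204233 (.c 4737 (.c 32 .nil))) (.b 8 .nil))))))) (.node (.node (.node (.node (.node (.I .jac (.c 2718204233 (.c 16 (.c 24 .nil))) (.b 32 (.b 8 .nil))) (.I .tdb (.c 0 (.c 48 (.c 24 (.c 40 .nil)))) (.l 8321 (.b 8 .nil)))) (.node (.I .com (.c 3561346121425353 (.c 8321 .nil)) (.b 8 .nil)) (.I .adp (.c 3561346121425353 (.c 8321 (.c 8 .nil))) .nil))) (.node (.node (.I .jac (.c 2306970223667989513 (.c 24 (.c 40 .nil))) (.b 8 .nil)) (.I .jac (.c 2306970223667989449 (.c 24 (.c 48 .nil))) (.b 8 .nil))) (.node (.I .jac (.c 537002121 (.c 24 (.c 48 .nil))) (.b 40 (.b 8 .nil))) (.I .com (.c 598967998054857 (.c 12993 .nil)) (.b 8 .nil))))) (.node (.node (.node (.I .adp (.c 598967998054857 (.c 12993 (.c 8 .nil))) .nil) (.I .adp (.c 3491688652046793 (.c 8385 (.c 8 .nil))) .nil)) (.node (.I .jac (.c 231045467270826953 (.c 32 (.c 48 .nil))) (.b 8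 .nil)) (.I .jac (.c 33587401 (.c 32 (.c 48 .nil))) (.b 40 (.b 8 .nil))))) (.node (.node (.I .jac (.c 62886542410185 (.c 32 (.c 40 .nil))) (.b 8 .nil)) (.I .com (.c 62886542410185 (.c 13057 .nil)) (.b 8 .nil))) (.node (.I .adp (.c 62886542410185 (.c 13057 (.c 8 .nil))) .nil) (.I .com (.c 15038498931046473 (.c 13057 .nil)) (.b 8 .nil)))))) (.node (.node (.node (.node (.I .jac (.c 13748196208362033993 (.c 16 (.c 48 .nil))) (.b 8 .nil)) (.I .jac (.c 1310925065 (.c 18561 (.c 24 .nil))) (.b 8 .nil))) (.node (.I .jac (.c 1310925065 (.c 16 (.c 48 .nil))) (.b 24 (.b 8 .nil))) (.I .jac (.c 12801 (.c 4737 (.c 48 .nil))) (.b 32 (.b 8 .nil))))) (.node (.node (.I .jac (.c 12801 (.c 16 (.c 24 .nil))) (.b 48 (.b 32 (.b 8 .nil)))) (.I .jac (.c 59109068451510808457 (.c 16 (.c 40 .nil))) (.b 8 .nil))) (.node (.I .jac (.c 13748194865974800265 (.c 16 (.c 48 .nil))) (.b 8 .nil)) (.I .jac (.c 1310925001 (.c 18561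 (.c 32 .nil))) (.b 8 .nil))))) (.node (.node (.node (.I .jac (.c 12801 (.c 16 (.c 48 .nil))) (.b 32 (.b 24 (.b 8 .nil)))) (.I .tdb (.c 0 (.c 16 (.c 32 (.c 24 .nil)))) (.b 18753 (.b 8 .nil)))) (.node (.I .tdb (.c 0 (.c 40 (.c 24 (.c 32 .nil)))) (.b 18561 (.b 8 .nil))) (.I .tdb (.c 16 (.c 24 (.c 32 (.c 0 .nil)))) (.b 18753 (.b 8 .nil))))) (.node (.node (.I .jac (.c 2718204169 (.c 4737 (.c 40 .nil))) (.b 8 .nil)) (.I .jac (.c 13748193523587632009 (.c 24 (.c 48 .nil))) (.b 8 .nil))) (.node (.I .jac (.c 1310924937 (.c 24 (.c 48 .nil))) (.b 32 (.b 8 .nil))) (.I .com (.c 3491688652046793 (.c 8385 .nil)) (.b 8 .nil))))))))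

noncomputable def c5_145 : Tr := (.node (.node (.node (.node (.node (.node (.I .jac (.c 231046163358604041 (.c 32 (.c 40 .nil))) (.b 8 .nil)) (.I .jac (.c 59109065668069837641 (.c 32 (.c 40 .nil))) (.b 8 .nil))) (.node (.I .jac (.c 9025011228269385 (.c 32 (.c 40 .nil))) (.b 8 .nil)) (.I .jac (.c 18433 (.c 16 (.c 24 .nil))) (.b 13057 (.b 8 .nil))))) (.node (.node (.I .tdb (.c 0 (.c 40 (.c 16 (.c 24 .nil)))) (.b 18689 (.b 8 .nil))) (.I .tdb (.c 16 (.c 40 (.c 0 (.c 24 .nil)))) (.b 18689 (.b 8 .nil)))) (.node (.I .jac (.c 2718204105 (.c 16 (.c 40 .nil))) (.b 32 (.b 8 .nil))) (.I .jac (.c 2049 (.c 24 (.c 48 .nil))) (.b 13057 (.b 8 .nil)))))) (.node (.node (.node (.I .tdb (.c 24 (.c 32 (.c 0 (.c 16 .nil)))) (.b 18753 (.b 8 .nil))) (.I .jac (.c 2718204041 (.c 24 (.c 40 .nil))) (.b 32 (.b 8 .nil)))) (.node (.I .tdb (.c 0 (.c 48 (.c 16 (.c 32 .nil)))) (.l 12993 (.b 8 .nil))) (.I .tdb (.c 0 (.c 48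 (.c 16 (.c 40 .nil)))) (.l 8385 (.b 8 .nil))))) (.node (.node (.I .jac (.c 18433 (.c 16 (.c 32 .nil))) (.b 40 (.b 24 (.b 8 .nil)))) (.I .jac (.c 18433 (.c 4737 (.c 40 .nil))) (.b 32 (.b 8 .nil)))) (.node (.I .jac (.c 18433 (.c 16 (.c 24 .nil))) (.b 40 (.b 32 (.b 8 .nil)))) (.I .jac (.c 18433 (.c 16 (.c 40 .nil))) (.b 32 (.b 24 (.b 8 .nil)))))))) (.node (.node (.node (.node (.I .jac (.c 18433 (.c 4737 (.c 32 .nil))) (.b 40 (.b 8 .nil))) (.I .jac (.c 18433 (.c 16 (.c 24 .nil))) (.b 32 (.b 40 (.b 8 .nil))))) (.node (.I .adp (.c 2718204169 (.c 21099139 (.c 8 .nil))) .nil) (.I .jac (.c 12801 (.c 16 (.c 32 .nil))) (.b 18625 (.l 8 .nil))))) (.node (.node (.I .jac (.c 0 (.c 8321 (.c 40 .nil))) (.b 18625 (.l 8 .nil))) (.I .jac (.c 0 (.c 16 (.c 32 .nil))) (.b 40 (.b 18625 (.l 8 .nil))))) (.node (.I .adp (.c 2718204041 (.c 21307587 (.c 8 .nil))) .nil) (.I .jac (.c 231045989336561417 (.c 32 (.c 48 .nil)))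 (.b 8 .nil))))) (.node (.node (.node (.I .jac (.c 13748193523587631945 (.c 32 (.c 48 .nil))) (.b 8 .nil)) (.I .jac (.c 9024976834606921 (.c 32 (.c 48 .nil))) (.b 8 .nil))) (.node (.I .jac (.c 4609 (.c 16 (.c 40 .nil))) (.b 18689 (.b 8 .nil))) (.I .jac (.c 12801 (.c 16 (.c 24 .nil))) (.b 18689 (.l 8 .nil))))) (.node (.node (.I .jac (.c 0 (.c 4737 (.c 40 .nil))) (.b 18689 (.l 8 .nil))) (.I .jac (.c 0 (.c 16 (.c 24 .nil))) (.b 40 (.b 18689 (.l 8 .nil))))) (.node (.I .tdb (.c 0 (.c 48 (.c 16 (.c 24 .nil)))) (.l 13057 (.b 8 .nil))) (.I .jac (.c 2049 (.c 24 (.c 40 .nil))) (.b 18689 (.b 8 .nil)))))))) (.node (.node (.node (.node (.node (.I .jac (.c 2306970223667989321 (.c 40 (.c 48 .nil))) (.b 8 .nil)) (.I .jac (.c 4609 (.c 16 (.c 32 .nil))) (.b 18753 (.l 8 .nil)))) (.node (.I .jac (.c 0 (.c 8321 (.c 24 .nil))) (.b 18753 (.l 8 .nil))) (.I .jac (.c 0 (.c 16 (.c 32 .nil))) (.b 24 (.b 18753 (.l 8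 .nil)))))) (.node (.node (.I .jac (.c 2306970773558193929 (.c 40 (.c 48 .nil))) (.b 8 .nil)) (.I .jac (.c 9024908047478665 (.c 40 (.c 48 .nil))) (.b 8 .nil))) (.node (.I .jac (.c 8193 (.c 16 (.c 24 .nil))) (.b 18753 (.l 8 .nil))) (.I .jac (.c 0 (.c 4737 (.c 32 .nil))) (.b 18753 (.l 8 .nil)))))) (.node (.node (.node (.I .jac (.c 0 (.c 16 (.c 24 .nil))) (.b 32 (.b 18753 (.l 8 .nil)))) (.I .jac (.c 617629514823753 (.c 40 (.c 48 .nil))) (.b 8 .nil))) (.node (.I .jac (.c 62886542410057 (.c 40 (.c 48 .nil))) (.b 8 .nil)) (.I .tdb (.c 16 (.c 40 (.c 24 (.c 48 .nil)))) (.b 32 (.t 0 8 .nil))))) (.node (.node (.I .tdb (.c 16 (.c 40 (.c 32 (.c 48 .nil)))) (.b 24 (.t 0 8 .nil))) (.I .jac (.c 16 (.c 24 (.c 48 .nil))) (.b 13057 (.l 513 .nil)))) (.node (.I .adp (.c 32 (.c 40 (.c 16 .nil))) (.b 18625 (.l 513 .nil))) (.I .com (.c 12929 (.c 32 .nil)) (.b 18625 (.l 513 .nil))))))) (.node (.node (.node (.node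 (.I .adp (.c 24 (.c 40 (.c 48 .nil))) (.b 8321 (.l 513 .nil))) (.I .adp (.c 24 (.c 40 (.c 16 .nil))) (.b 18689 (.l 513 .nil)))) (.node (.I .com (.c 12929 (.c 24 .nil)) (.b 18689 (.l 513 .nil))) (.I .adp (.c 24 (.c 40 (.c 32 .nil))) (.b 18561 (.l 513 .nil))))) (.node (.node (.I .adp (.c 16 (.c 40 (.c 48 .nil))) (.b 8385 (.l 513 .nil))) (.I .adp (.c 16 (.c 40 (.c 24 .nil))) (.b 18689 (.l 513 .nil)))) (.node (.I .adp (.c 16 (.c 40 (.c 32 .nil))) (.b 18625 (.l 513 .nil))) (.I .com (.c 8321 (.c 24 .nil)) (.b 18753 (.l 513 .nil)))))) (.node (.node (.node (.I .adp (.c 24 (.c 32 (.c 16 .nil))) (.b 18753 (.l 513 .nil))) (.I .adp (.c 24 (.c 32 (.c 48 .nil))) (.b 12929 (.l 513 .nil)))) (.node (.I .adp (.c 16 (.c 32 (.c 24 .nil))) (.b 18753 (.l 513 .nil))) (.I .adp (.c 16 (.c 32 (.c 48 .nil))) (.b 12993 (.l 513 .nil))))) (.node (.node (.I .adp (.c 16 (.c 32 (.c 40 .nil))) (.b 18625 (.l 513 .nil))) (.I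 .adp (.c 16 (.c 24 (.c 32 .nil))) (.b 18753 (.l 513 .nil)))) (.node (.I .adp (.c 16 (.c 24 (.c 40 .nil))) (.b 18689 (.l 513 .nil))) (.I .adp (.c 16 (.c 24 (.c 48 .nil))) (.b 13057 (.l 513 .nil)))))))))

noncomputable def c5_146 : Tr := (.node (.node (.node (.node (.node (.node (.I .jac (.c 35473026505609 (.c 24 (.c 40 .nil))) (.b 16 .nil)) (.I .jac (.c 35468714087433 (.c 24 (.c 40 .nil))) (.b 16 .nil))) (.node (.I .jac (.c 2105737 (.c 12993 (.c 32 .nil))) (.b 16 .nil)) (.I .jac (.c 2105737 (.c 24 (.c 32 .nil))) (.b 40 (.b 16 .nil))))) (.node (.node (.I .jac (.c 2105609 (.c 24 (.c 48 .nil))) (.b 40 (.b 16 .nil))) (.I .jac (.c 2105609 (.c 12993 (.c 48 .nil))) (.b 16 .nil))) (.node (.I .jac (.c 513 (.c 24 (.c 48 .nil))) (.b 32 (.b 40 (.b 16 .nil)))) (.I .jac (.c 513 (.c 24 (.c 40 .nil))) (.b 32 (.b 48 (.b 16 .nil))))))) (.node (.node (.node (.I .jac (.c 231045989336561673 (.c 8 (.c 32 .nil)))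 (.l 16 .nil)) (.I .jac (.c 231046163358604169 (.c 8 (.c 40 .nil))) (.l 16 .nil))) (.node (.I .jac (.c 231045815314584585 (.c 8 (.c 40 .nil))) (.l 16 .nil)) (.I .jac (.c 231045989336561545 (.c 8 (.c 48 .nil))) (.l 16 .nil)))) (.node (.node (.I .jac (.c 169943369 (.c 8 (.c 32 .nil))) (.b 48 (.l 16 .nil))) (.I .jac (.c 169943305 (.c 8 (.c 48 .nil))) (.b 40 (.l 16 .nil)))) (.node (.I .jac (.c 4609 (.c 8 (.c 40 .nil))) (.b 48 (.b 32 (.l 16 .nil)))) (.I .jac (.c 4609 (.c 18497 (.c 32 .nil))) (.b 40 (.l 16 .nil))))))) (.node (.node (.node (.node (.I .com (.c 1459028238553209570433275079308972094006562919290924266667282316564101833 (.c 16 .nil)) .nil) (.I .com (.c 1459023842844933950499556010948852603115774541335620372854307360581525193 (.c 16 .nil)) .nil)) (.node (.I .com (.c 1459028238553206337213515306440430516546012989717776346166102983221297865 (.c 16 .nil)) .nil) (.I .jac (.c 13748198893136698249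 (.c 8 (.c 24 .nil))) (.l 16 .nil)))) (.node (.node (.I .jac (.c 2306972423229201353 (.c 8 (.c 24 .nil))) (.l 16 .nil)) (.I .jac (.c 13748196208362034185 (.c 8 (.c 24 .nil))) (.l 16 .nil))) (.node (.I .com (.c 18291662791002284499406956391081788295004652320918130873121368043579831919171273 (.c 16 .nil)) .nil) (.I .com (.c 14502389782864780551906021094515387666984776397839823428933576006765894833865 (.c 16 .nil)) .nil)))) (.node (.node (.node (.I .com (.c 18291662791002284499406956391081788291907863774476994583244624046135249871146825 (.c 16 .nil)) .nil) (.I .com (.c 14502389782864780551906021094515387579787133456768245023281343434378065071945 (.c 16 .nil)) .nil)) (.node (.I .jac (.c 35473026505673 (.c 24 (.c 32 .nil))) (.b 16 .nil)) (.I .jac (.c 2105737 (.c 24 (.c 40 .nil))) (.b 32 (.b 16 .nil))))) (.node (.node (.I .jac (.c 2105609 (.c 24 (.c 40 .nil))) (.b 48 (.b 16 .nil))) (.I .jac (.c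 231046163358604233 (.c 8 (.c 32 .nil))) (.l 16 .nil))) (.node (.I .jac (.c 169943433 (.c 8 (.c 40 .nil))) (.b 32 (.l 16 .nil))) (.I .jac (.c 231045815314584521 (.c 8 (.c 48 .nil))) (.l 16 .nil))))))) (.node (.node (.node (.node (.node (.I .jac (.c 169943305 (.c 8 (.c 40 .nil))) (.b 48 (.l 16 .nil))) (.I .jac (.c 4609 (.c 18497 (.c 40 .nil))) (.b 32 (.l 16 .nil)))) (.node (.I .jac (.c 4609 (.c 8 (.c 48 .nil))) (.b 40 (.b 32 (.l 16 .nil)))) (.I .com (.c 1459023842844932333893328974360732658464102006581455240230057549752828617 (.c 16 .nil)) .nil))) (.node (.node (.I .jac (.c 59109074018392946569 (.c 8 (.c 24 .nil))) (.l 16 .nil)) (.I .jac (.c 2306971873338800137 (.c 8 (.c 24 .nil))) (.l 16 .nil))) (.node (.I .com (.c 6250094510787921532714972949261795359997986687185520814234411710500539745947735753 (.c 16 .nil)) .nil) (.I .com (.c 6250094510787921532714972949261795359940742914154107364219881196449630129872539465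 (.c 16 .nil)) .nil)))) (.node (.node (.node (.I .tdb (.c 0 (.c 8 (.c 32 (.c 40 .nil)))) (.b 18625 (.b 16 .nil))) (.I .com (.c 18561 (.c 32 .nil)) (.l 35470870263625 .nil))) (.node (.I .com (.c 18561 (.c 32 .nil)) (.l 35466557976521 .nil)) (.I .tdb (.c 0 (.c 24 (.c 32 (.c 48 .nil)))) (.b 12865 (.b 16 .nil))))) (.node (.node (.I .tdb (.c 0 (.c 24 (.c 40 (.c 48 .nil)))) (.l 8257 (.b 16 .nil))) (.I .com (.c 15456118887244041 (.c 8257 .nil)) (.b 16 .nil))) (.node (.I .adp (.c 15456118887244041 (.c 8257 (.c 16 .nil))) .nil) (.I .com (.c 18561 (.c 32 .nil)) (.l 231045989336561353 .nil)))))) (.node (.node (.node (.node (.I .com (.c 18561 (.c 32 .nil)) (.l 231045293249046473 .nil)) (.I .adp (.c 169943369 (.c 43655235 (.c 16 .nil))) .nil)) (.node (.I .com (.c 18561 (.c 40 .nil)) (.l 231045815314584265 .nil)) (.I .com (.c 18561 (.c 40 .nil)) (.l 231045293249046409 .nil)))) (.node (.node (.I .tdb (.c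 0 (.c 32 (.c 40 (.c 48 .nil)))) (.b 4673 (.b 16 .nil))) (.I .com (.c 18561 (.c 32 .nil)) (.l 13748194865974800073 .nil))) (.node (.I .com (.c 18561 (.c 32 .nil)) (.l 13748192181200529225 .nil)) (.I .com (.c 18561 (.c 40 .nil)) (.l 2306970773558193865 .nil))))) (.node (.node (.node (.I .com (.c 18561 (.c 40 .nil)) (.l 2306969673777850185 .nil)) (.I .jac (.c 2306972423229201225 (.c 8 (.c 40 .nil))) (.l 16 .nil))) (.node (.I .jac (.c 2306970773558194185 (.c 8 (.c 40 .nil))) (.l 16 .nil)) (.I .jac (.c 537002377 (.c 12865 (.c 24 .nil))) (.l 16 .nil)))) (.node (.node (.I .jac (.c 537002377 (.c 8 (.c 24 .nil))) (.b 40 (.l 16 .nil))) (.I .jac (.c 537002313 (.c 4673 (.c 48 .nil))) (.l 16 .nil))) (.node (.I .jac (.c 537002313 (.c 8 (.c 24 .nil))) (.b 48 (.l 16 .nil))) (.I .jac (.c 537002185 (.c 8 (.c 48 .nil))) (.b 40 (.l 16 .nil)))))))))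

noncomputable def c5_147 : Tr := (.node (.node (.node (.node (.node (.node (.I .jac (.c 8193 (.c 2737112265 (.c 40 .nil))) (.l 16 .nil)) (.I .jac (.c 8193 (.c 8 (.c 48 .nil))) (.b 24 (.b 40 (.l 16 .nil))))) (.node (.I .jac (.c 8193 (.c 1324065993 (.c 48 .nil))) (.l 16 .nil)) (.I .jac (.c 8193 (.c 12865 (.c 24 .nil))) (.b 48 (.l 16 .nil))))) (.node (.node (.I .jac (.c 8193 (.c 8 (.c 40 .nil))) (.b 24 (.b 48 (.l 16 .nil)))) (.I .com (.c 14502389782864777333305098924298644562517327697955955914112649312297378504393 (.c 16 .nil)) .nil)) (.node (.I .com (.c 14502348301404392044591456005053312591820489834081545082478059549224675221193 (.c 16 .nil)) .nil) (.I .jac (.c 13748198893136698185 (.c 8 (.c 32 .nil))) (.l 16 .nil))))) (.node (.node (.node (.I .jac (.c 59109068451510808521 (.c 8 (.c 32 .nil))) (.l 16 .nil)) (.I .com (.c 18291662791002284158804837459398313859147950704863321659390321634942710146874057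 (.c 16 .nil)) .nil)) (.node (.I .com (.c 6250092156257071185327898691570831983594040768411544467450100535893324811569969865 (.c 16 .nil)) .nil) (.I .com (.c 18291662791002284158804837459398313854502767885201617267823299846484956483506057 (.c 16 .nil)) .nil))) (.node (.node (.I .com (.c 6250092156257071185327898691570831983508175125038048793690744499167676397895405449 (.c 16 .nil)) .nil) (.I .jac (.c 537002377 (.c 8 (.c 40 .nil))) (.b 24 (.l 16 .nil)))) (.node (.I .jac (.c 537002377 (.c 4673 (.c 40 .nil))) (.l 16 .nil)) (.I .jac (.c 537002185 (.c 18497 (.c 40 .nil))) (.l 16 .nil)))))) (.node (.node (.node (.node (.I .jac (.c 8193 (.c 8 (.c 48 .nil))) (.b 40 (.b 24 (.l 16 .nil)))) (.I .jac (.c 8193 (.c 4673 (.c 40 .nil))) (.b 48 (.l 16 .nil)))) (.node (.I .jac (.c 8193 (.c 8 (.c 24 .nil))) (.b 40 (.b 48 (.l 16 .nil)))) (.I .com (.c 14502348301404390435294447255639053497302835656416747721244192645045171913417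 (.c 16 .nil)) .nil))) (.node (.node (.I .com (.c 6250094510787921505645961611614566601758338462159010858872337912513231579362310857 (.c 16 .nil)) .nil) (.I .com (.c 6250094510787921505645961611614566601672472802611890684036483210630598362173362057 (.c 16 .nil)) .nil)) (.node (.I .com (.c 1459028238553209570433275079308970782084406862455148356788611385195368329 (.c 16 .nil)) .nil) (.I .jac (.c 15038454533712969 (.c 32 (.c 40 .nil))) (.b 16 .nil))))) (.node (.node (.node (.I .jac (.c 3561346121425033 (.c 32 (.c 48 .nil))) (.b 16 .nil)) (.I .tdb (.c 0 (.c 8 (.c 24 (.c 48 .nil)))) (.b 13057 (.b 16 .nil)))) (.node (.I .adp (.c 15038454533712969 (.c 13057 (.c 16 .nil))) .nil) (.I .tdb (.c 0 (.c 32 (.c 24 (.c 40 .nil)))) (.b 18497 (.b 16 .nil))))) (.node (.node (.I .tdb (.c 0 (.c 32 (.c 40 (.c 48 .nil)))) (.l 4673 (.b 16 .nil))) (.I .com (.c 15456118887244105 (.c 4673 .nil)) (.b 16 .nil))) (.node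 (.I .com (.c 15456298926182473 (.c 4673 .nil)) (.b 16 .nil)) (.I .adp (.c 15456118887244105 (.c 4673 (.c 16 .nil))) .nil)))))) (.node (.node (.node (.node (.node (.I .adp (.c 15456298926182473 (.c 4673 (.c 16 .nil))) .nil) (.I .com (.c 18561 (.c 24 .nil)) (.l 2306971873338799817 .nil))) (.node (.I .com (.c 18561 (.c 24 .nil)) (.l 2306969673777850313 .nil)) (.I .adp (.c 537002313 (.c 43356739 (.c 16 .nil))) .nil))) (.node (.node (.I .com (.c 18561 (.c 24 .nil)) (.l 13748196208362033865 .nil)) (.I .com (.c 18561 (.c 24 .nil)) (.l 13748192181200529289 .nil))) (.node (.I .jac (.c 59109062884628932553 (.c 24 (.c 32 .nil))) (.b 16 .nil)) (.I .com (.c 1459023842844933950499556010948850853888868142414793345823926992799666121 (.c 16 .nil)) .nil)))) (.node (.node (.node (.I .com (.c 1459023842844932333893328974360730471930469007931632801926278619086573577 (.c 16 .nil)) .nil) (.I .com (.c 14502348301404392044591456005053312417425453365187673111152000785581737906121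 (.c 16 .nil)) .nil)) (.node (.I .com (.c 14502348301404390435294447255639053279309040070299419852257548463276460986377 (.c 16 .nil)) .nil) (.I .jac (.c 12801 (.c 8 (.c 48 .nil))) (.b 8385 (.l 16 .nil))))) (.node (.node (.I .jac (.c 14629225721520393 (.c 32 (.c 40 .nil))) (.b 16 .nil)) (.I .jac (.c 3423058053193993 (.c 32 (.c 48 .nil))) (.b 16 .nil))) (.node (.I .tdb (.c 0 (.c 24 (.c 48 (.c 8 .nil)))) (.b 13057 (.b 16 .nil))) (.I .adp (.c 14629225721520393 (.c 13057 (.c 16 .nil))) .nil))))) (.node (.node (.node (.node (.I .adp (.c 169943113 (.c 43954947 (.c 16 .nil))) .nil) (.I .jac (.c 3632062472293449 (.c 24 (.c 48 .nil))) (.b 16 .nil))) (.node (.I .tdb (.c 0 (.c 32 (.c 8 (.c 40 .nil)))) (.b 18625 (.b 16 .nil))) (.I .tdb (.c 0 (.c 32 (.c 8 (.c 48 .nil)))) (.b 12993 (.b 16 .nil))))) (.node (.node (.I .adp (.c 14629225721520457 (.c 12993 (.c 16 .nil))) .nil) (.I .adp (.c 537002057 (.c 43954883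 (.c 16 .nil))) .nil)) (.node (.I .jac (.c 3632040653488393 (.c 8 (.c 48 .nil))) (.l 16 .nil)) (.I .jac (.c 3561346121425225 (.c 8 (.c 48 .nil))) (.l 16 .nil))))) (.node (.node (.node (.I .com (.c 89098986658144952217736054750701282171613172049237900994840301577 (.c 16 .nil)) .nil) (.I .com (.c 82361964593860417105222911964665538014612629961065617127821234185 (.c 16 .nil)) .nil)) (.node (.I .jac (.c 2718204233 (.c 8257 (.c 24 .nil))) (.l 16 .nil)) (.I .jac (.c 2718204233 (.c 8 (.c 32 .nil))) (.b 24 (.l 16 .nil))))) (.node (.node (.I .jac (.c 2718204233 (.c 8 (.c 24 .nil))) (.b 32 (.l 16 .nil))) (.I .jac (.c 1310925193 (.c 8257 (.c 24 .nil))) (.l 16 .nil))) (.node (.I .jac (.c 1310925193 (.c 8 (.c 32 .nil))) (.b 24 (.l 16 .nil))) (.I .jac (.c 1310925193 (.c 4673 (.c 32 .nil))) (.l 16 .nil))))))))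

noncomputable def c5_148 : Tr := (.node (.node (.node (.node (.node (.node (.I .jac (.c 617611520074121 (.c 8 (.c 48 .nil))) (.l 16 .nil)) (.I .tdb (.c 0 (.c 48 (.c 24 (.c 40 .nil)))) (.l 8257 (.b 16 .nil)))) (.node (.I .com (.c 3561346121425353 (.c 8257 .nil)) (.b 16 .nil)) (.I .adp (.c 3561346121425353 (.c 8257 (.c 16 .nil))) .nil))) (.node (.node (.I .jac (.c 2306969673777850313 (.c 24 (.c 48 .nil))) (.b 16 .nil)) (.I .com (.c 580749782704585 (.c 12993 .nil)) (.b 16 .nil))) (.node (.I .adp (.c 580749782704585 (.c 12993 (.c 16 .nil))) .nil) (.I .jac (.c 231045293249046537 (.c 32 (.c 40 .nil))) (.b 16 .nil))))) (.node (.node (.node (.I .jac (.c 35466557976585 (.c 32 (.c 40 .nil))) (.b 16 .nil)) (.I .jac (.c 2105545 (.c 32 (.c 48 .nil))) (.b 40 (.b 16 .nil)))) (.node (.I .jac (.c 59555558875529 (.c 32 (.c 48 .nil))) (.b 16 .nil)) (.I .tdb (.c 0 (.c 24 (.c 48 (.c 8 .nil)))) (.l 13057 (.b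 16 .nil))))) (.node (.node (.I .com (.c 14629225721520393 (.c 13057 .nil)) (.b 16 .nil)) (.I .com (.c 74495752857506702162333100976131785980161168247330738512826377 (.c 16 .nil)) .nil)) (.node (.I .com (.c 15038454533712969 (.c 13057 .nil)) (.b 16 .nil)) (.I .jac (.c 1310925065 (.c 4673 (.c 48 .nil))) (.l 16 .nil)))))) (.node (.node (.node (.node (.I .jac (.c 1310925065 (.c 8 (.c 24 .nil))) (.b 48 (.l 16 .nil))) (.I .jac (.c 12801 (.c 2737112265 (.c 32 .nil))) (.l 16 .nil))) (.node (.I .jac (.c 12801 (.c 8 (.c 24 .nil))) (.b 48 (.b 32 (.l 16 .nil)))) (.I .jac (.c 12801 (.c 545424585 (.c 48 .nil))) (.l 16 .nil)))) (.node (.node (.I .jac (.c 12801 (.c 8257 (.c 24 .nil))) (.b 48 (.l 16 .nil))) (.I .jac (.c 12801 (.c 8 (.c 32 .nil))) (.b 24 (.b 48 (.l 16 .nil))))) (.node (.I .jac (.c 59109068451510808457 (.c 8 (.c 40 .nil))) (.l 16 .nil)) (.I .com (.c 6250092156257071158258895001986985405236702711649363114102464983704190153026838217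 (.c 16 .nil)) .nil)))) (.node (.node (.node (.I .com (.c 14502389782864777333305098924298644388122041815812818455095509447385485234121 (.c 16 .nil)) .nil) (.I .com (.c 6250092156257071158258895001986985405122215187151368882671245003645771191549267913 (.c 16 .nil)) .nil)) (.node (.I .jac (.c 13748194865974800265 (.c 8 (.c 48 .nil))) (.l 16 .nil)) (.I .jac (.c 1310925001 (.c 18497 (.c 32 .nil))) (.l 16 .nil)))) (.node (.node (.I .jac (.c 12801 (.c 8 (.c 48 .nil))) (.b 32 (.b 24 (.l 16 .nil)))) (.I .jac (.c 12801 (.c 4673 (.c 32 .nil))) (.b 48 (.l 16 .nil)))) (.node (.I .jac (.c 12801 (.c 8 (.c 24 .nil))) (.b 32 (.b 48 (.l 16 .nil)))) (.I .jac (.c 59109071234951844681 (.c 8 (.c 40 .nil))) (.l 16 .nil))))))) (.node (.node (.node (.node (.node (.I .jac (.c 2306972423229201097 (.c 24 (.c 40 .nil))) (.b 16 .nil)) (.I .jac (.c 8193 (.c 8 (.c 48 .nil))) (.b 12993 (.b 16 .nil)))) (.node (.I .jac (.c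 0 (.c 18497 (.c 32 .nil))) (.b 12993 (.b 16 .nil))) (.I .jac (.c 0 (.c 8 (.c 48 .nil))) (.b 32 (.b 12993 (.b 16 .nil)))))) (.node (.node (.I .com (.c 1459028238553206337213515306440428330009086228327239189161463841863602185 (.c 16 .nil)) .nil) (.I .jac (.c 8193 (.c 8 (.c 48 .nil))) (.b 12993 (.l 16 .nil)))) (.node (.I .tdb (.c 0 (.c 40 (.c 8 (.c 32 .nil)))) (.b 18625 (.b 16 .nil))) (.I .jac (.c 2718204169 (.c 12865 (.c 24 .nil))) (.l 16 .nil))))) (.node (.node (.node (.I .jac (.c 2718204169 (.c 8 (.c 40 .nil))) (.b 24 (.l 16 .nil))) (.I .jac (.c 231046163358603977 (.c 32 (.c 40 .nil))) (.b 16 .nil))) (.node (.I .jac (.c 59109062884628932425 (.c 32 (.c 40 .nil))) (.b 16 .nil)) (.I .jac (.c 35473026505545 (.c 32 (.c 40 .nil))) (.b 16 .nil)))) (.node (.node (.I .jac (.c 4609 (.c 8 (.c 48 .nil))) (.b 13057 (.b 16 .nil))) (.I .jac (.c 4609 (.c 8 (.c 48 .nil))) (.b 13057 (.l 16 .nil)))) (.node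 (.I .jac (.c 0 (.c 18497 (.c 24 .nil))) (.b 13057 (.l 16 .nil))) (.I .jac (.c 0 (.c 8 (.c 48 .nil))) (.b 24 (.b 13057 (.l 16 .nil)))))))) (.node (.node (.node (.node (.I .tdb (.c 0 (.c 48 (.c 8 (.c 24 .nil)))) (.b 13057 (.b 16 .nil))) (.I .jac (.c 2718204105 (.c 8 (.c 32 .nil))) (.b 40 (.l 16 .nil)))) (.node (.I .jac (.c 513 (.c 24 (.c 48 .nil))) (.b 13057 (.l 16 .nil))) (.I .jac (.c 2718203977 (.c 24 (.c 32 .nil))) (.b 40 (.b 16 .nil))))) (.node (.node (.I .com (.c 14629225721520457 (.c 12993 .nil)) (.b 16 .nil)) (.I .tdb (.c 0 (.c 48 (.c 8 (.c 32 .nil)))) (.l 12993 (.b 16 .nil)))) (.node (.I .jac (.c 18433 (.c 8 (.c 32 .nil))) (.b 40 (.b 24 (.l 16 .nil)))) (.I .jac (.c 18433 (.c 1324065993 (.c 32 .nil))) (.l 16 .nil))))) (.node (.node (.node (.I .jac (.c 18433 (.c 12865 (.c 24 .nil))) (.b 32 (.l 16 .nil))) (.I .jac (.c 18433 (.c 8 (.c 40 .nil))) (.b 24 (.b 32 (.l 16 .nil))))) (.node (.I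 .jac (.c 18433 (.c 545424585 (.c 40 .nil))) (.l 16 .nil)) (.I .jac (.c 18433 (.c 8257 (.c 24 .nil))) (.b 40 (.l 16 .nil))))) (.node (.node (.I .jac (.c 18433 (.c 8 (.c 40 .nil))) (.b 32 (.b 24 (.l 16 .nil)))) (.I .jac (.c 18433 (.c 8 (.c 24 .nil))) (.b 32 (.b 40 (.l 16 .nil))))) (.node (.I .adp (.c 2718204233 (.c 8786499 (.c 16 .nil))) .nil) (.I .adp (.c 2718204169 (.c 21099075 (.c 16 .nil))) .nil)))))))

noncomputable def c5_149 : Tr := (.node (.node (.node (.node (.node (.node (.I .adp (.c 2718204105 (.c 21307459 (.c 16 .nil))) .nil) (.I .jac (.c 2306971873338799817 (.c 24 (.c 48 .nil))) (.b 16 .nil))) (.node (.I .adp (.c 2718203977 (.c 21307587 (.c 16 .nil))) .nil) (.I .jac (.c 231045989336561353 (.c 32 (.c 48 .nil))) (.b 16 .nil)))) (.node (.node (.I .jac (.c 35470870263625 (.c 32 (.c 48 .nil))) (.b 16 .nil)) (.I .jac (.c 4609 (.c 8 (.c 40 .nil))) (.b 18689 (.l 16 .nil)))) (.node (.I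 .jac (.c 0 (.c 12865 (.c 24 .nil))) (.b 18689 (.l 16 .nil))) (.I .jac (.c 0 (.c 8 (.c 40 .nil))) (.b 24 (.b 18689 (.l 16 .nil))))))) (.node (.node (.node (.I .jac (.c 12801 (.c 8 (.c 24 .nil))) (.b 18689 (.l 16 .nil))) (.I .jac (.c 513 (.c 24 (.c 40 .nil))) (.b 18689 (.b 16 .nil)))) (.node (.I .jac (.c 231045815314584265 (.c 40 (.c 48 .nil))) (.b 16 .nil)) (.I .jac (.c 2306969673777850185 (.c 40 (.c 48 .nil))) (.b 16 .nil)))) (.node (.node (.I .jac (.c 4609 (.c 8 (.c 32 .nil))) (.b 18753 (.l 16 .nil))) (.I .jac (.c 0 (.c 8257 (.c 24 .nil))) (.b 18753 (.l 16 .nil)))) (.node (.I .jac (.c 0 (.c 8 (.c 32 .nil))) (.b 24 (.b 18753 (.l 16 .nil)))) (.I .jac (.c 2306970773558193865 (.c 40 (.c 48 .nil))) (.b 16 .nil)))))) (.node (.node (.node (.node (.I .jac (.c 35466557976457 (.c 40 (.c 48 .nil))) (.b 16 .nil)) (.I .jac (.c 8193 (.c 8 (.c 24 .nil))) (.b 18753 (.l 16 .nil)))) (.node (.I .jac (.c 617620517416009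 (.c 40 (.c 48 .nil))) (.b 16 .nil)) (.I .jac (.c 59555558875465 (.c 40 (.c 48 .nil))) (.b 16 .nil)))) (.node (.node (.I .jac (.c 580749782704393 (.c 40 (.c 48 .nil))) (.b 16 .nil)) (.I .jac (.c 8 (.c 24 (.c 48 .nil))) (.b 13057 (.l 2049 .nil)))) (.node (.I .adp (.c 32 (.c 40 (.c 48 .nil))) (.b 4673 (.l 2049 .nil))) (.I .adp (.c 32 (.c 40 (.c 8 .nil))) (.b 18625 (.l 2049 .nil)))))) (.node (.node (.node (.I .com (.c 12865 (.c 32 .nil)) (.b 18625 (.l 2049 .nil))) (.I .adp (.c 32 (.c 40 (.c 24 .nil))) (.b 18497 (.l 2049 .nil)))) (.node (.I .com (.c 12993 (.c 32 .nil)) (.b 18497 (.l 2049 .nil))) (.I .adp (.c 24 (.c 40 (.c 48 .nil))) (.b 8257 (.l 2049 .nil))))) (.node (.node (.I .adp (.c 24 (.c 40 (.c 8 .nil))) (.b 18689 (.l 2049 .nil))) (.I .com (.c 12865 (.c 24 .nil)) (.b 18689 (.l 2049 .nil)))) (.node (.I .adp (.c 8 (.c 40 (.c 48 .nil))) (.b 8385 (.l 2049 .nil))) (.I .adp (.c 8 (.c 40 (.c 24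 .nil))) (.b 18689 (.l 2049 .nil)))))))) (.node (.node (.node (.node (.node (.I .adp (.c 8 (.c 40 (.c 32 .nil))) (.b 18625 (.l 2049 .nil))) (.I .com (.c 8257 (.c 24 .nil)) (.b 18753 (.l 2049 .nil)))) (.node (.I .adp (.c 24 (.c 32 (.c 8 .nil))) (.b 18753 (.l 2049 .nil))) (.I .adp (.c 24 (.c 32 (.c 48 .nil))) (.b 12865 (.l 2049 .nil))))) (.node (.node (.I .adp (.c 24 (.c 32 (.c 40 .nil))) (.b 18497 (.l 2049 .nil))) (.I .adp (.c 8 (.c 32 (.c 24 .nil))) (.b 18753 (.l 2049 .nil)))) (.node (.I .adp (.c 8 (.c 32 (.c 48 .nil))) (.b 12993 (.l 2049 .nil))) (.I .adp (.c 8 (.c 32 (.c 40 .nil))) (.b 18625 (.l 2049 .nil)))))) (.node (.node (.node (.I .jac (.c 4609 (.c 32 (.c 48 .nil))) (.b 40 (.b 16 (.b 8 .nil)))) (.I .jac (.c 4609 (.c 32 (.c 40 .nil))) (.b 48 (.b 16 (.b 8 .nil))))) (.node (.I .jac (.c 8193 (.c 24 (.c 48 .nil))) (.b 40 (.b 16 (.b 8 .nil)))) (.I .jac (.c 8193 (.c 24 (.c 40 .nil))) (.b 48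 (.b 16 (.b 8 .nil)))))) (.node (.node (.I .jac (.c 2718204233 (.c 24 (.c 32 .nil))) (.b 16 (.b 8 .nil))) (.I .jac (.c 169943433 (.c 32 (.c 40 .nil))) (.b 16 (.l 8 .nil)))) (.node (.I .jac (.c 169943369 (.c 32 (.c 48 .nil))) (.b 16 (.l 8 .nil))) (.I .jac (.c 4609 (.c 32 (.c 48 .nil))) (.b 40 (.b 16 (.l 8 .nil)))))))) (.node (.node (.node (.node (.I .jac (.c 537002377 (.c 24 (.c 40 .nil))) (.b 16 (.l 8 .nil))) (.I .jac (.c 537002313 (.c 24 (.c 48 .nil))) (.b 16 (.l 8 .nil)))) (.node (.I .jac (.c 8193 (.c 24 (.c 48 .nil))) (.b 40 (.b 16 (.l 8 .nil)))) (.I .jac (.c 1310925193 (.c 24 (.c 32 .nil))) (.b 16 (.l 8 .nil))))) (.node (.node (.I .jac (.c 4609 (.c 32 (.c 48 .nil))) (.b 40 (.b 8 (.b 16 .nil)))) (.I .jac (.c 8193 (.c 24 (.c 48 .nil))) (.b 40 (.b 8 (.b 16 .nil))))) (.node (.I .jac (.c 2718204233 (.c 24 (.c 32 .nil))) (.b 8 (.b 16 .nil))) (.I .jac (.c 169943369 (.c 32 (.c 48 .nil))) (.b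 8 (.l 16 .nil)))))) (.node (.node (.node (.I .jac (.c 4609 (.c 32 (.c 48 .nil))) (.b 40 (.b 8 (.l 16 .nil)))) (.I .jac (.c 4609 (.c 32 (.c 40 .nil))) (.b 48 (.b 8 (.l 16 .nil))))) (.node (.I .jac (.c 537002313 (.c 24 (.c 48 .nil))) (.b 8 (.l 16 .nil))) (.I .jac (.c 8193 (.c 18625 (.c 40 .nil))) (.b 8 (.l 16 .nil))))) (.node (.node (.I .jac (.c 8193 (.c 24 (.c 40 .nil))) (.b 48 (.b 8 (.l 16 .nil)))) (.I .tdb (.c 0 (.c 48 (.c 32 (.c 40 .nil)))) (.b 24 (.t 8 16 .nil)))) (.node (.I .tdb (.c 0 (.c 40 (.c 24 (.c 48 .nil)))) (.b 32 (.t 8 16 .nil))) (.I .tdb (.c 0 (.c 40 (.c 32 (.c 48 .nil)))) (.b 24 (.t 8 16 .nil)))))))))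

noncomputable def c5_150 : Tr := (.node (.node (.node (.node (.node (.node (.I .jac (.c 1310925065 (.c 24 (.c 48 .nil))) (.b 16 (.b 8 .nil))) (.I .jac (.c 12801 (.c 8385 (.c 48 .nil))) (.b 16 (.b 8 .nil)))) (.node (.I .jac (.c 1310925065 (.c 24 (.c 48 .nil))) (.b 16 (.l 8 .nil))) (.I .jac (.c 1310925065 (.c 24 (.c 48 .nil))) (.b 8 (.b 16 .nil))))) (.node (.node (.I .jac (.c 12801 (.c 8385 (.c 48 .nil))) (.b 8 (.b 16 .nil))) (.I .jac (.c 12801 (.c 24 (.c 32 .nil))) (.b 48 (.b 8 (.b 16 .nil))))) (.node (.I .jac (.c 1310925065 (.c 24 (.c 48 .nil))) (.b 8 (.l 16 .nil))) (.I .jac (.c 12801 (.c 18625 (.c 32 .nil))) (.b 8 (.l 16 .nil)))))) (.node (.node (.node (.I .jac (.c 12801 (.c 24 (.c 32 .nil))) (.b 48 (.b 8 (.l 16 .nil)))) (.I .tdb (.c 0 (.c 48 (.c 24 (.c 32 .nil)))) (.b 40 (.t 8 16 .nil)))) (.node (.I .jac (.c 2718204105 (.c 32 (.c 40 .nil))) (.b 8 (.l 16 .nil))) (.I .jac (.c 0 (.c 24 (.c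 48 .nil))) (.b 13057 (.b 8 (.l 16 .nil)))))) (.node (.node (.I .adp (.c 0 (.c 48 (.c 40 .nil))) (.b 8385 (.l 2113 .nil))) (.I .adp (.c 0 (.c 48 (.c 32 .nil))) (.b 12993 (.l 2113 .nil)))) (.node (.I .adp (.c 0 (.c 48 (.c 24 .nil))) (.b 13057 (.l 2113 .nil))) (.I .jac (.c 18433 (.c 8385 (.c 40 .nil))) (.b 16 (.b 8 .nil))))))) (.node (.node (.node (.node (.I .jac (.c 18433 (.c 24 (.c 32 .nil))) (.b 40 (.b 16 (.l 8 .nil)))) (.I .jac (.c 18433 (.c 8385 (.c 40 .nil))) (.b 8 (.b 16 .nil)))) (.node (.I .jac (.c 18433 (.c 24 (.c 40 .nil))) (.b 32 (.b 8 (.l 16 .nil)))) (.I .jac (.c 18433 (.c 24 (.c 32 .nil))) (.b 40 (.b 8 (.l 16 .nil)))))) (.node (.node (.I .adp (.c 12801 (.c 32 (.c 18625 .nil))) (.l 2113 .nil)) (.I .adp (.c 8193 (.c 40 (.c 18625 .nil))) (.l 2113 .nil))) (.node (.I .jac (.c 1310925001 (.c 32 (.c 48 .nil))) (.b 16 (.b 8 .nil))) (.I .jac (.c 1310925001 (.c 32 (.c 48 .nil))) (.b 16 (.l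 8 .nil)))))) (.node (.node (.node (.I .jac (.c 1310925001 (.c 32 (.c 48 .nil))) (.b 8 (.b 16 .nil))) (.I .adp (.c 4609 (.c 40 (.c 18689 .nil))) (.l 2113 .nil))) (.node (.I .adp (.c 24 (.c 40 (.c 32 .nil))) (.b 18433 (.l 2113 .nil))) (.I .adp (.c 0 (.c 40 (.c 48 .nil))) (.b 8385 (.l 2113 .nil))))) (.node (.node (.I .adp (.c 0 (.c 12993 (.c 18689 .nil))) (.l 2113 .nil)) (.I .jac (.c 0 (.c 32 (.c 48 .nil))) (.r 12993 (.l 2113 .nil)))) (.node (.I .adp (.c 0 (.c 40 (.c 24 .nil))) (.b 18689 (.l 2113 .nil))) (.I .adp (.c 0 (.c 40 (.c 32 .nil))) (.b 18625 (.l 2113 .nil)))))))) (.node (.node (.node (.node (.node (.I .jac (.c 537002185 (.c 40 (.c 48 .nil))) (.b 16 (.b 8 .nil))) (.I .jac (.c 169943305 (.c 40 (.c 48 .nil))) (.b 16 (.b 8 .nil)))) (.node (.I .jac (.c 0 (.c 24 (.c 32 .nil))) (.b 18753 (.b 16 (.b 8 .nil)))) (.I .jac (.c 537002185 (.c 40 (.c 48 .nil))) (.b 16 (.l 8 .nil))))) (.node (.node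 (.I .jac (.c 169943305 (.c 40 (.c 48 .nil))) (.b 16 (.l 8 .nil))) (.I .jac (.c 537002185 (.c 40 (.c 48 .nil))) (.b 8 (.b 16 .nil)))) (.node (.I .jac (.c 169943305 (.c 40 (.c 48 .nil))) (.b 8 (.b 16 .nil))) (.I .jac (.c 0 (.c 24 (.c 32 .nil))) (.b 18753 (.b 8 (.b 16 .nil))))))) (.node (.node (.node (.I .jac (.c 169943305 (.c 40 (.c 48 .nil))) (.b 8 (.l 16 .nil))) (.I .adp (.c 4609 (.c 32 (.c 18753 .nil))) (.l 2113 .nil))) (.node (.I .jac (.c 4609 (.c 40 (.c 48 .nil))) (.r 32 (.l 2113 .nil))) (.I .jac (.c 8786435 (.c 40 (.c 48 .nil))) (.b 16 (.b 8 .nil))))) (.node (.node (.I .adp (.c 0 (.c 8385 (.c 18753 .nil))) (.l 2113 .nil)) (.I .jac (.c 0 (.c 40 (.c 48 .nil))) (.r 8385 (.l 2113 .nil)))) (.node (.I .adp (.c 0 (.c 32 (.c 24 .nil))) (.b 18753 (.l 2113 .nil))) (.I .adp (.c 0 (.c 32 (.c 48 .nil))) (.b 12993 (.l 2113 .nil))))))) (.node (.node (.node (.node (.I .adp (.c 0 (.c 32 (.c 40 .nil)))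 (.b 18625 (.l 2113 .nil))) (.I .jac (.c 35470870263817 (.c 16 (.c 32 .nil))) (.l 24 .nil))) (.node (.I .jac (.c 35473026505609 (.c 16 (.c 40 .nil))) (.l 24 .nil)) (.I .jac (.c 2105737 (.c 16 (.c 32 .nil))) (.b 40 (.l 24 .nil))))) (.node (.node (.I .jac (.c 35470870263689 (.c 16 (.c 48 .nil))) (.l 24 .nil)) (.I .jac (.c 2105673 (.c 16 (.c 32 .nil))) (.b 48 (.l 24 .nil)))) (.node (.I .jac (.c 2105609 (.c 16 (.c 48 .nil))) (.b 40 (.l 24 .nil))) (.I .jac (.c 513 (.c 16 (.c 40 .nil))) (.b 48 (.b 32 (.l 24 .nil))))))) (.node (.node (.node (.I .jac (.c 513 (.c 16 (.c 32 .nil))) (.b 48 (.b 40 (.l 24 .nil)))) (.I .com (.c 810508056951847240291898515892456034433233341962394532617 (.c 24 .nil)) .nil)) (.node (.I .com (.c 810311000722058987568294048101222890115998785554992242441 (.c 24 .nil)) .nil) (.I .jac (.c 9024976834607113 (.c 8 (.c 32 .nil))) (.l 24 .nil)))) (.node (.node (.I .jac (.c 9024942441010185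 (.c 8 (.c 40 .nil))) (.l 24 .nil)) (.I .jac (.c 33587593 (.c 12865 (.c 32 .nil))) (.l 24 .nil))) (.node (.I .jac (.c 33587593 (.c 8 (.c 32 .nil))) (.b 40 (.l 24 .nil))) (.I .jac (.c 33587529 (.c 8 (.c 48 .nil))) (.b 32 (.l 24 .nil)))))))))

noncomputable def c5_151 : Tr := (.node (.node (.node (.node (.node (.node (.I .jac (.c 33587529 (.c 8 (.c 32 .nil))) (.b 48 (.l 24 .nil))) (.I .jac (.c 33587465 (.c 8 (.c 48 .nil))) (.b 40 (.l 24 .nil)))) (.node (.I .jac (.c 2049 (.c 8 (.c 40 .nil))) (.b 48 (.b 32 (.l 24 .nil)))) (.I .jac (.c 2049 (.c 545424777 (.c 40 .nil))) (.l 24 .nil)))) (.node (.node (.I .jac (.c 2049 (.c 8257 (.c 48 .nil))) (.b 40 (.l 24 .nil))) (.I .jac (.c 2049 (.c 1324066057 (.c 48 .nil))) (.l 24 .nil))) (.node (.I .jac (.c 2049 (.c 12865 (.c 32 .nil))) (.b 48 (.l 24 .nil))) (.I .jac (.c 2049 (.c 8 (.c 40 .nil))) (.b 32 (.b 48 (.l 24 .nil))))))) (.node (.node (.node (.I .com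 (.c 3396625955800642344247222453445289800261403136942003849550604181193 (.c 24 .nil)) .nil) (.I .com (.c 3396677733571935452111592026851927048933481340690560935548985393865 (.c 24 .nil)) .nil)) (.node (.I .jac (.c 13748198893136698249 (.c 8 (.c 16 .nil))) (.l 24 .nil)) (.I .jac (.c 59109071234951844809 (.c 8 (.c 16 .nil))) (.l 24 .nil)))) (.node (.node (.I .jac (.c 13748196208362034185 (.c 8 (.c 16 .nil))) (.l 24 .nil)) (.I .com (.c 18291662791002284499406956391081788293456258047697562728182996044857540895126217 (.c 24 .nil)) .nil)) (.node (.I .com (.c 18291648502882416156398562140872571244307267590053391915318467398749760081736393 (.c 24 .nil)) .nil) (.I .com (.c 18291662791002284499406956391081788291907863774476994583244624046135249871146761 (.c 24 .nil)) .nil))))) (.node (.node (.node (.node (.I .com (.c 18291648502882416156398562140872571242758873921579575128104968541596358313905929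 (.c 24 .nil)) .nil) (.I .jac (.c 35468714087369 (.c 16 (.c 48 .nil))) (.l 24 .nil))) (.node (.I .jac (.c 2105609 (.c 16 (.c 40 .nil))) (.b 48 (.l 24 .nil))) (.I .jac (.c 513 (.c 16 (.c 48 .nil))) (.b 40 (.b 32 (.l 24 .nil)))))) (.node (.node (.I .jac (.c 513 (.c 16 (.c 32 .nil))) (.b 40 (.b 48 (.l 24 .nil)))) (.I .jac (.c 9025011228269513 (.c 8 (.c 32 .nil))) (.l 24 .nil))) (.node (.I .jac (.c 33587593 (.c 8 (.c 40 .nil))) (.b 32 (.l 24 .nil))) (.I .jac (.c 9024942441010121 (.c 8 (.c 48 .nil))) (.l 24 .nil))))) (.node (.node (.node (.I .jac (.c 33587465 (.c 18497 (.c 40 .nil))) (.l 24 .nil)) (.I .jac (.c 33587465 (.c 8 (.c 40 .nil))) (.b 48 (.l 24 .nil)))) (.node (.I .jac (.c 2049 (.c 2737112393 (.c 32 .nil))) (.l 24 .nil)) (.I .jac (.c 2049 (.c 18497 (.c 40 .nil))) (.b 32 (.l 24 .nil))))) (.node (.node (.I .jac (.c 2049 (.c 545424713 (.c 48 .nil))) (.l 24 .nil)) (.I .jac (.c 2049 (.c 8257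 (.c 40 .nil))) (.b 48 (.l 24 .nil)))) (.node (.I .jac (.c 2306971873338800137 (.c 8 (.c 16 .nil))) (.l 24 .nil)) (.I .com (.c 6250094510787921532714972949261795359969364800669814089227146453475084937910104777 (.c 24 .nil)) .nil)))))) (.node (.node (.node (.node (.node (.I .com (.c 14502375955699783334294794239894626540952795062111413466126863734909276631753 (.c 24 .nil)) .nil) (.I .com (.c 6250094510787921532714972949261795359940742914154107364219881196449630129872539401 (.c 24 .nil)) .nil)) (.node (.I .com (.c 14502375955699783334294794239894626497353994376020494329912817139171932376841 (.c 24 .nil)) .nil) (.I .jac (.c 513 (.c 32 (.c 48 .nil))) (.l 12929 (.l 24 .nil))))) (.node (.node (.I .com (.c 35473026505609 (.c 12929 .nil)) (.l 24 .nil)) (.I .com (.c 35468714087433 (.c 12929 .nil)) (.l 24 .nil))) (.node (.I .ass (.c 24 (.c 35473026505609 (.c 12929 .nil))) .nil) (.I .com (.c 24 (.c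 35473026505609 .nil)) (.r 12929 .nil))))) (.node (.node (.node (.I .ass (.c 24 (.c 35468714087433 (.c 12929 .nil))) .nil) (.I .com (.c 24 (.c 35468714087433 .nil)) (.r 12929 .nil))) (.node (.I .ass (.c 24 (.c 35470870263561 (.c 18689 .nil))) .nil) (.I .ass (.c 35470870263561 (.c 24 (.c 18689 .nil))) .nil))) (.node (.node (.I .com (.c 24 (.c 35470870263561 .nil)) (.r 18689 .nil)) (.I .jac (.c 2049 (.c 32 (.c 48 .nil))) (.l 12865 (.l 24 .nil)))) (.node (.I .com (.c 9025011228269449 (.c 12865 .nil)) (.l 24 .nil)) (.I .com (.c 9024942441010185 (.c 12865 .nil)) (.l 24 .nil)))))) (.node (.node (.node (.node (.I .ass (.c 24 (.c 9025011228269449 (.c 12865 .nil))) .nil) (.I .com (.c 24 (.c 9025011228269449 .nil)) (.r 12865 .nil))) (.node (.I .ass (.c 24 (.c 9024942441010185 (.c 12865 .nil))) .nil) (.I .com (.c 24 (.c 9024942441010185 .nil)) (.r 12865 .nil)))) (.node (.node (.I .ass (.c 24 (.c 9024976834606793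 (.c 18689 .nil))) .nil) (.I .ass (.c 9024976834606793 (.c 24 (.c 18689 .nil))) .nil)) (.node (.I .com (.c 24 (.c 9024976834606793 .nil)) (.r 18689 .nil)) (.I .jac (.c 2113 (.c 32 (.c 48 .nil))) (.l 12801 (.l 24 .nil)))))) (.node (.node (.node (.I .ass (.c 24 (.c 13748193523587631817 (.c 18689 .nil))) .nil) (.I .ass (.c 13748193523587631817 (.c 24 (.c 18689 .nil))) .nil)) (.node (.I .com (.c 24 (.c 13748193523587631817 .nil)) (.r 18689 .nil)) (.I .ass (.c 24 (.c 13748192181200529161 (.c 18689 .nil))) .nil))) (.node (.node (.I .ass (.c 13748192181200529161 (.c 24 (.c 18689 .nil))) .nil) (.I .com (.c 24 (.c 13748192181200529161 .nil)) (.r 18689 .nil))) (.node (.I .ass (.c 24 (.c 12801 (.c 10206511083363209 .nil))) .nil) (.I .ass (.c 12801 (.c 24 (.c 10206511083363209 .nil))) .nil)))))))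

noncomputable def c5_152 : Tr := (.node (.node (.node (.node (.node (.node (.I .com (.c 24 (.c 12801 .nil)) (.r 10206511083363209 .nil)) (.I .ass (.c 24 (.c 12801 (.c 10206437931930633 .nil))) .nil)) (.node (.I .ass (.c 12801 (.c 24 (.c 10206437931930633 .nil))) .nil) (.I .com (.c 24 (.c 12801 .nil)) (.r 10206437931930633 .nil)))) (.node (.node (.I .jac (.c 513 (.c 40 (.c 48 .nil))) (.l 8321 (.l 24 .nil))) (.I .com (.c 35473026505673 (.c 8321 .nil)) (.l 24 .nil))) (.node (.I .com (.c 35470870263817 (.c 8321 .nil)) (.l 24 .nil)) (.I .ass (.c 24 (.c 35473026505673 (.c 8321 .nil))) .nil)))) (.node (.node (.node (.I .com (.c 24 (.c 35473026505673 .nil)) (.r 8321 .nil)) (.I .ass (.c 24 (.c 35470870263817 (.c 8321 .nil))) .nil)) (.node (.I .com (.c 24 (.c 35470870263817 .nil)) (.r 8321 .nil)) (.I .ass (.c 24 (.c 35468714087177 (.c 18753 .nil))) .nil))) (.node (.node (.I .ass (.c 35468714087177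 (.c 24 (.c 18753 .nil))) .nil) (.I .com (.c 24 (.c 35468714087177 .nil)) (.r 18753 .nil))) (.node (.I .jac (.c 2049 (.c 40 (.c 48 .nil))) (.l 8257 (.l 24 .nil))) (.I .com (.c 9025011228269513 (.c 8257 .nil)) (.l 24 .nil)))))) (.node (.node (.node (.node (.I .com (.c 9024976834607113 (.c 8257 .nil)) (.l 24 .nil)) (.I .ass (.c 24 (.c 9025011228269513 (.c 8257 .nil))) .nil)) (.node (.I .com (.c 24 (.c 9025011228269513 .nil)) (.r 8257 .nil)) (.I .ass (.c 24 (.c 9024976834607113 (.c 8257 .nil))) .nil))) (.node (.node (.I .com (.c 24 (.c 9024976834607113 .nil)) (.r 8257 .nil)) (.I .ass (.c 24 (.c 9024942441009865 (.c 18753 .nil))) .nil)) (.node (.I .ass (.c 9024942441009865 (.c 24 (.c 18753 .nil))) .nil) (.I .com (.c 24 (.c 9024942441009865 .nil)) (.r 18753 .nil))))) (.node (.node (.node (.I .jac (.c 2113 (.c 40 (.c 48 .nil))) (.l 8193 (.l 24 .nil))) (.I .ass (.c 24 (.c 2306970223667989193 (.c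 18753 .nil))) .nil)) (.node (.I .ass (.c 2306970223667989193 (.c 24 (.c 18753 .nil))) .nil) (.I .com (.c 24 (.c 2306970223667989193 .nil)) (.r 18753 .nil)))) (.node (.node (.I .ass (.c 24 (.c 2306969673777850121 (.c 18753 .nil))) .nil) (.I .ass (.c 2306969673777850121 (.c 24 (.c 18753 .nil))) .nil)) (.node (.I .com (.c 24 (.c 2306969673777850121 .nil)) (.r 18753 .nil)) (.I .ass (.c 24 (.c 8193 (.c 10206511083363273 .nil))) .nil)))))) (.node (.node (.node (.node (.node (.I .ass (.c 8193 (.c 24 (.c 10206511083363273 .nil))) .nil) (.I .com (.c 24 (.c 8193 .nil)) (.r 10206511083363273 .nil))) (.node (.I .ass (.c 24 (.c 8193 (.c 10206474507614217 .nil))) .nil) (.I .ass (.c 8193 (.c 24 (.c 10206474507614217 .nil))) .nil))) (.node (.node (.I .com (.c 24 (.c 8193 .nil)) (.r 10206474507614217 .nil)) (.I .com (.c 3632062472293449 (.c 18561 .nil)) (.b 24 .nil))) (.node (.I .tdb (.c 0 (.c 8 (.c 32 (.c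 40 .nil)))) (.b 18561 (.b 24 .nil))) (.I .tdb (.c 0 (.c 8 (.c 32 (.c 48 .nil)))) (.l 12929 (.b 24 .nil)))))) (.node (.node (.node (.I .com (.c 15246191640313993 (.c 12929 .nil)) (.b 24 .nil)) (.I .com (.c 15246236343241801 (.c 12929 .nil)) (.b 24 .nil))) (.node (.I .tdb (.c 0 (.c 8 (.c 40 (.c 48 .nil)))) (.l 8321 (.b 24 .nil))) (.I .com (.c 15456118887243913 (.c 8321 .nil)) (.b 24 .nil)))) (.node (.node (.I .tdb (.c 0 (.c 8 (.c 40 (.c 48 .nil)))) (.b 8321 (.b 24 .nil))) (.I .adp (.c 15456118887243913 (.c 8321 (.c 24 .nil))) .nil)) (.node (.I .adp (.c 15246191640313993 (.c 12929 (.c 24 .nil))) .nil) (.I .adp (.c 15246236343241801 (.c 12929 (.c 24 .nil))) .nil))))) (.node (.node (.node (.node (.I .adp (.c 3632062472293449 (.c 18561 (.c 24 .nil))) .nil) (.I .com (.c 18625 (.c 32 .nil)) (.l 35470870263561 .nil))) (.node (.I .com (.c 18625 (.c 32 .nil)) (.l 35464401931209 .nil)) (.I .adp (.c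 2105673 (.c 43655299 (.c 24 .nil))) .nil))) (.node (.node (.I .com (.c 18625 (.c 40 .nil)) (.l 35468714087177 .nil)) (.I .com (.c 18625 (.c 40 .nil)) (.l 35464401931145 .nil))) (.node (.I .adp (.c 2105609 (.c 43954819 (.c 24 .nil))) .nil) (.I .tdb (.c 0 (.c 16 (.c 32 (.c 48 .nil)))) (.l 12865 (.b 24 .nil)))))) (.node (.node (.node (.I .com (.c 15246191640314057 (.c 12865 .nil)) (.b 24 .nil)) (.I .tdb (.c 0 (.c 16 (.c 32 (.c 48 .nil)))) (.b 12865 (.b 24 .nil)))) (.node (.I .com (.c 15456208906582089 (.c 8257 .nil)) (.b 24 .nil)) (.I .adp (.c 15456208906582089 (.c 8257 (.c 24 .nil))) .nil))) (.node (.node (.I .adp (.c 15246191640314057 (.c 12865 (.c 24 .nil))) .nil) (.I .com (.c 18625 (.c 32 .nil)) (.l 9024976834606793 .nil))) (.node (.I .com (.c 18625 (.c 32 .nil)) (.l 9024839260612553 .nil)) (.I .com (.c 18625 (.c 40 .nil)) (.l 9024942441009865 .nil))))))))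

noncomputable def c5_153 : Tr := (.node (.node (.node (.node (.node (.node (.I .com (.c 18625 (.c 40 .nil)) (.l 9024839260612489 .nil)) (.I .adp (.c 33587465 (.c 43954755 (.c 24 .nil))) .nil)) (.node (.I .com (.c 18625 (.c 32 .nil)) (.l 13748193523587631817 .nil)) (.I .com (.c 18625 (.c 32 .nil)) (.l 13748192181200529161 .nil)))) (.node (.node (.I .com (.c 18625 (.c 40 .nil)) (.l 2306970223667989193 .nil)) (.I .com (.c 18625 (.c 40 .nil)) (.l 2306969673777850121 .nil))) (.node (.I .com (.c 810508056951847240291898495278391705359985640078949069705 (.c 24 .nil)) .nil) (.I .com (.c 810311000722058987568294017183885498617107931928410829769 (.c 24 .nil)) .nil)))) (.node (.node (.node (.I .jac (.c 2306972423229201161 (.c 8 (.c 40 .nil))) (.l 24 .nil)) (.I .jac (.c 2306971873338799881 (.c 8 (.c 48 .nil))) (.l 24 .nil))) (.node (.I .jac (.c 537002313 (.c 18497 (.c 16 .nil))) (.l 24 .nil)) (.I .jac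 (.c 537002313 (.c 8 (.c 48 .nil))) (.b 16 (.l 24 .nil))))) (.node (.node (.I .jac (.c 537002313 (.c 2113 (.c 48 .nil))) (.l 24 .nil)) (.I .jac (.c 537002121 (.c 12865 (.c 48 .nil))) (.l 24 .nil))) (.node (.I .jac (.c 8193 (.c 35718537 (.c 40 .nil))) (.l 24 .nil)) (.I .jac (.c 8193 (.c 2113 (.c 48 .nil))) (.b 40 (.l 24 .nil))))))) (.node (.node (.node (.node (.I .jac (.c 8193 (.c 1324065929 (.c 48 .nil))) (.l 24 .nil)) (.I .jac (.c 8193 (.c 12865 (.c 16 .nil))) (.b 48 (.l 24 .nil)))) (.node (.I .jac (.c 8193 (.c 8 (.c 40 .nil))) (.b 16 (.b 48 (.l 24 .nil)))) (.I .com (.c 14502334474273999565302249120836236207417994174111423385176122048098777079497 (.c 24 .nil)) .nil))) (.node (.node (.I .com (.c 14502375955699776897097553016463223738893908669131956560655866970196018807497 (.c 24 .nil)) .nil) (.I .com (.c 14502320647155140909428280329389864468614660556172994053999052471206544278281 (.c 24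 .nil)) .nil)) (.node (.I .com (.c 14502320647155142518722987525103327669471791504796916519612316093560812319689 (.c 24 .nil)) .nil) (.I .com (.c 14502320647155140909428280329389864294219790362630035964032127632402744177673 (.c 24 .nil)) .nil)))) (.node (.node (.node (.I .jac (.c 13748198893136698121 (.c 8 (.c 32 .nil))) (.l 24 .nil)) (.I .jac (.c 59109065668069837769 (.c 8 (.c 32 .nil))) (.l 24 .nil))) (.node (.I .com (.c 18291662791002283818202718527714844178410062149173241265351214608323065582385865 (.c 24 .nil)) .nil) (.I .com (.c 18291662791002283818202718527714844173764879329511536917032287027574431126458249 (.c 24 .nil)) .nil))) (.node (.node (.I .jac (.c 537002377 (.c 8 (.c 40 .nil))) (.b 16 (.l 24 .nil))) (.I .jac (.c 537002377 (.c 2113 (.c 40 .nil))) (.l 24 .nil))) (.node (.I .jac (.c 2306970223667989449 (.c 8 (.c 48 .nil))) (.l 24 .nil)) (.I .jac (.c 8193 (.c 2737112393 (.c 16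 .nil))) (.l 24 .nil))))))) (.node (.node (.node (.node (.node (.I .jac (.c 8193 (.c 18497 (.c 40 .nil))) (.b 16 (.l 24 .nil))) (.I .jac (.c 8193 (.c 8 (.c 48 .nil))) (.b 40 (.b 16 (.l 24 .nil))))) (.node (.I .jac (.c 8193 (.c 35718473 (.c 48 .nil))) (.l 24 .nil)) (.I .jac (.c 8193 (.c 2113 (.c 40 .nil))) (.b 48 (.l 24 .nil))))) (.node (.node (.I .com (.c 14502334474273997956006391148615249424177942797046741887347248663445763130057 (.c 24 .nil)) .nil) (.I .com (.c 14502320647155142518722987525103327800267944149954142344186607676513272373001 (.c 24 .nil)) .nil)) (.node (.I .jac (.c 59109074018392946441 (.c 8 (.c 32 .nil))) (.l 24 .nil)) (.I .jac (.c 8193 (.c 16 (.c 48 .nil))) (.l 12865 (.l 24 .nil)))))) (.node (.node (.node (.I .com (.c 2306972423229201161 (.c 12865 .nil)) (.l 24 .nil)) (.I .com (.c 2306970223667989513 (.c 12865 .nil)) (.l 24 .nil))) (.node (.I .ass (.c 24 (.c 2306972423229201161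 (.c 12865 .nil))) .nil) (.I .com (.c 24 (.c 2306972423229201161 .nil)) (.r 12865 .nil)))) (.node (.node (.I .ass (.c 24 (.c 2306970223667989513 (.c 12865 .nil))) .nil) (.I .com (.c 24 (.c 2306970223667989513 .nil)) (.r 12865 .nil))) (.node (.I .ass (.c 24 (.c 2306971873338799817 (.c 18561 .nil))) .nil) (.I .ass (.c 2306971873338799817 (.c 24 (.c 18561 .nil))) .nil))))) (.node (.node (.node (.node (.I .com (.c 24 (.c 2306971873338799817 .nil)) (.r 18561 .nil)) (.I .ass (.c 24 (.c 2306969673777850313 (.c 18561 .nil))) .nil)) (.node (.I .ass (.c 2306969673777850313 (.c 24 (.c 18561 .nil))) .nil) (.I .com (.c 24 (.c 2306969673777850313 .nil)) (.r 18561 .nil)))) (.node (.node (.I .jac (.c 8257 (.c 16 (.c 48 .nil))) (.l 12801 (.l 24 .nil))) (.I .ass (.c 24 (.c 13748196208362033865 (.c 18561 .nil))) .nil)) (.node (.I .ass (.c 13748196208362033865 (.c 24 (.c 18561 .nil))) .nil) (.I .com (.c 24 (.c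 13748196208362033865 .nil)) (.r 18561 .nil))))) (.node (.node (.node (.I .ass (.c 24 (.c 13748192181200529289 (.c 18561 .nil))) .nil) (.I .ass (.c 13748192181200529289 (.c 24 (.c 18561 .nil))) .nil)) (.node (.I .com (.c 24 (.c 13748192181200529289 .nil)) (.r 18561 .nil)) (.I .ass (.c 24 (.c 12801 (.c 2379905498923997961 .nil))) .nil))) (.node (.node (.I .ass (.c 12801 (.c 24 (.c 2379905498923997961 .nil))) .nil) (.I .com (.c 24 (.c 12801 .nil)) (.r 2379905498923997961 .nil))) (.node (.I .com (.c 2379905498923997961 (.c 24 .nil)) (.l 12801 .nil)) (.I .ass (.c 24 (.c 12801 (.c 2379903264864635913 .nil))) .nil)))))))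

noncomputable def c5_154 : Tr := (.node (.node (.node (.node (.node (.node (.I .ass (.c 12801 (.c 24 (.c 2379903264864635913 .nil))) .nil) (.I .com (.c 24 (.c 12801 .nil)) (.r 2379903264864635913 .nil))) (.node (.I .jac (.c 8193 (.c 16 (.c 40 .nil))) (.l 18497 (.l 24 .nil))) (.I .com (.c 2306971873338799881 (.c 18497 .nil)) (.l 24 .nil)))) (.node (.node (.I .com (.c 2306970223667989449 (.c 18497 .nil)) (.l 24 .nil)) (.I .ass (.c 24 (.c 2306972423229201097 (.c 12929 .nil))) .nil)) (.node (.I .com (.c 24 (.c 2306972423229201097 .nil)) (.r 12929 .nil)) (.I .ass (.c 24 (.c 2306969673777850377 (.c 12929 .nil))) .nil)))) (.node (.node (.node (.I .com (.c 24 (.c 2306969673777850377 .nil)) (.r 12929 .nil)) (.I .ass (.c 24 (.c 2306971873338799881 (.c 18497 .nil))) .nil)) (.node (.I .ass (.c 2306971873338799881 (.c 24 (.c 18497 .nil))) .nil) (.I .com (.c 24 (.c 2306971873338799881 .nil)) (.r 18497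 .nil)))) (.node (.node (.I .ass (.c 24 (.c 2306970223667989449 (.c 18497 .nil))) .nil) (.I .ass (.c 2306970223667989449 (.c 24 (.c 18497 .nil))) .nil)) (.node (.I .com (.c 24 (.c 2306970223667989449 .nil)) (.r 18497 .nil)) (.I .jac (.c 8257 (.c 16 (.c 40 .nil))) (.l 18433 (.l 24 .nil))))))) (.node (.node (.node (.node (.I .ass (.c 24 (.c 59109071234951844553 (.c 12929 .nil))) .nil) (.I .com (.c 24 (.c 59109071234951844553 .nil)) (.r 12929 .nil))) (.node (.I .ass (.c 24 (.c 59109062884628932489 (.c 12929 .nil))) .nil) (.I .com (.c 24 (.c 59109062884628932489 .nil)) (.r 12929 .nil)))) (.node (.node (.I .ass (.c 24 (.c 18433 (.c 2379904940409059081 .nil))) .nil) (.I .ass (.c 18433 (.c 24 (.c 2379904940409059081 .nil))) .nil)) (.node (.I .com (.c 24 (.c 18433 .nil)) (.r 2379904940409059081 .nil)) (.I .com (.c 2379904940409059081 (.c 24 .nil)) (.l 18433 .nil))))) (.node (.node (.node (.I .ass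 (.c 24 (.c 18433 (.c 2379903264864635849 .nil))) .nil) (.I .ass (.c 18433 (.c 24 (.c 2379903264864635849 .nil))) .nil)) (.node (.I .com (.c 24 (.c 18433 .nil)) (.r 2379903264864635849 .nil)) (.I .jac (.c 8193 (.c 40 (.c 48 .nil))) (.l 2113 (.l 24 .nil))))) (.node (.node (.I .com (.c 2306972423229201353 (.c 2113 .nil)) (.l 24 .nil)) (.I .com (.c 2306971873338800137 (.c 2113 .nil)) (.l 24 .nil))) (.node (.I .ass (.c 24 (.c 2306972423229201353 (.c 2113 .nil))) .nil) (.I .com (.c 24 (.c 2306972423229201353 .nil)) (.r 2113 .nil))))))) (.node (.node (.node (.node (.node (.I .ass (.c 24 (.c 2306971873338800137 (.c 2113 .nil))) .nil) (.I .com (.c 24 (.c 2306971873338800137 .nil)) (.r 2113 .nil))) (.node (.I .jac (.c 8257 (.c 40 (.c 48 .nil))) (.l 2049 (.l 24 .nil))) (.I .ass (.c 24 (.c 2049 (.c 2379905498923998153 .nil))) .nil))) (.node (.node (.I .ass (.c 2049 (.c 24 (.c 2379905498923998153 .nil)))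 .nil) (.I .com (.c 24 (.c 2049 .nil)) (.r 2379905498923998153 .nil))) (.node (.I .ass (.c 24 (.c 2049 (.c 2379904940409059337 .nil))) .nil) (.I .ass (.c 2049 (.c 24 (.c 2379904940409059337 .nil))) .nil)))) (.node (.node (.node (.I .com (.c 24 (.c 2049 .nil)) (.r 2379904940409059337 .nil)) (.I .jac (.c 14832803796618313 (.c 32 (.c 40 .nil))) (.b 24 .nil))) (.node (.I .jac (.c 3491688652046473 (.c 32 (.c 48 .nil))) (.b 24 .nil)) (.I .tdb (.c 0 (.c 8 (.c 16 (.c 40 .nil)))) (.b 18689 (.b 24 .nil))))) (.node (.node (.I .tdb (.c 0 (.c 8 (.c 16 (.c 48 .nil)))) (.b 13057 (.b 24 .nil))) (.I .com (.c 15456298926182473 (.c 2113 .nil)) (.b 24 .nil))) (.node (.I .adp (.c 15456298926182473 (.c 2113 (.c 24 .nil))) .nil) (.I .com (.c 3396625955800642344247222453442620860225272832890934158916880306121 (.c 24 .nil)) .nil))))) (.node (.node (.node (.node (.I .com (.c 14502375955699775287798242710605707833569655562999404747740027693550253441801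 (.c 24 .nil)) .nil) (.I .com (.c 14502334474273999565302249120836236033023040842907866058958814708020420415433 (.c 24 .nil)) .nil)) (.node (.I .com (.c 14502334474273997956006391148615249206184251133042307324743660752776507281417 (.c 24 .nil)) .nil) (.I .jac (.c 13748198893136698057 (.c 16 (.c 32 .nil))) (.l 24 .nil)))) (.node (.node (.I .jac (.c 59109062884628932553 (.c 16 (.c 32 .nil))) (.l 24 .nil)) (.I .jac (.c 12801 (.c 8 (.c 48 .nil))) (.b 8321 (.l 24 .nil)))) (.node (.I .jac (.c 0 (.c 18497 (.c 40 .nil))) (.b 8321 (.l 24 .nil))) (.I .jac (.c 0 (.c 8 (.c 48 .nil))) (.b 40 (.b 8321 (.l 24 .nil))))))) (.node (.node (.node (.I .com (.c 18291662791002283477600599596031379254339380927068413549893950268305120830864137 (.c 24 .nil)) .nil) (.I .com (.c 18291662791002283477600599596031379251242592380627277346513394686278777197589385 (.c 24 .nil)) .nil)) (.node (.I .jac (.c 18433 (.c 8 (.c 40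 .nil))) (.b 8321 (.l 24 .nil))) (.I .jac (.c 18497 (.c 16 (.c 32 .nil))) (.l 12801 (.l 24 .nil))))) (.node (.node (.I .ass (.c 24 (.c 13748196208362033929 (.c 18497 .nil))) .nil) (.I .ass (.c 13748196208362033929 (.c 24 (.c 18497 .nil))) .nil)) (.node (.I .com (.c 24 (.c 13748196208362033929 .nil)) (.r 18497 .nil)) (.I .ass (.c 24 (.c 13748193523587632009 (.c 18497 .nil))) .nil)))))))

noncomputable def c5_155 : Tr := (.node (.node (.node (.node (.node (.node (.I .ass (.c 13748193523587632009 (.c 24 (.c 18497 .nil))) .nil) (.I .com (.c 24 (.c 13748193523587632009 .nil)) (.r 18497 .nil))) (.node (.I .ass (.c 24 (.c 12801 (.c 59934271212510434057 .nil))) .nil) (.I .ass (.c 12801 (.c 24 (.c 59934271212510434057 .nil))) .nil))) (.node (.node (.I .com (.c 24 (.c 12801 .nil)) (.r 59934271212510434057 .nil)) (.I .com (.c 59934271212510434057 (.c 24 .nil)) (.l 12801 .nil))) (.node (.I .ass (.c 24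 (.c 12801 (.c 59934265606904515465 .nil))) .nil) (.I .ass (.c 12801 (.c 24 (.c 59934265606904515465 .nil))) .nil)))) (.node (.node (.node (.I .com (.c 24 (.c 12801 .nil)) (.r 59934265606904515465 .nil)) (.I .jac (.c 12865 (.c 16 (.c 32 .nil))) (.l 18433 (.l 24 .nil)))) (.node (.I .ass (.c 24 (.c 59109071234951844617 (.c 12865 .nil))) .nil) (.I .com (.c 24 (.c 59109071234951844617 .nil)) (.r 12865 .nil)))) (.node (.node (.I .ass (.c 24 (.c 59109065668069837705 (.c 12865 .nil))) .nil) (.I .com (.c 24 (.c 59109065668069837705 .nil)) (.r 12865 .nil))) (.node (.I .ass (.c 24 (.c 18433 (.c 14025207386396218121 .nil))) .nil) (.I .ass (.c 18433 (.c 24 (.c 14025207386396218121 .nil))) .nil))))) (.node (.node (.node (.node (.I .com (.c 24 (.c 18433 .nil)) (.r 14025207386396218121 .nil)) (.I .com (.c 14025207386396218121 (.c 24 .nil)) (.l 18433 .nil))) (.node (.I .ass (.c 24 (.c 18433 (.c 14025204674709064585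 .nil))) .nil) (.I .ass (.c 18433 (.c 24 (.c 14025204674709064585 .nil))) .nil))) (.node (.node (.I .com (.c 24 (.c 18433 .nil)) (.r 14025204674709064585 .nil)) (.I .jac (.c 8321 (.c 40 (.c 48 .nil))) (.l 513 (.l 24 .nil)))) (.node (.I .ass (.c 24 (.c 513 (.c 2454554348984163273 .nil))) .nil) (.I .ass (.c 513 (.c 24 (.c 2454554348984163273 .nil))) .nil)))) (.node (.node (.node (.I .com (.c 24 (.c 513 .nil)) (.r 2454554348984163273 .nil)) (.I .ass (.c 24 (.c 513 (.c 2454553781777577993 .nil))) .nil)) (.node (.I .ass (.c 513 (.c 24 (.c 2454553781777577993 .nil))) .nil) (.I .com (.c 24 (.c 513 .nil)) (.r 2454553781777577993 .nil)))) (.node (.node (.I .jac (.c 14629225721520329 (.c 32 (.c 40 .nil))) (.b 24 .nil)) (.I .tdb (.c 0 (.c 16 (.c 48 (.c 8 .nil)))) (.b 13057 (.b 24 .nil)))) (.node (.I .adp (.c 14629225721520329 (.c 13057 (.c 24 .nil))) .nil) (.I .adp (.c 33587273 (.c 43954947 (.c 24 .nil)))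 .nil)))))) (.node (.node (.node (.node (.node (.I .tdb (.c 0 (.c 32 (.c 8 (.c 48 .nil)))) (.b 12929 (.b 24 .nil))) (.I .jac (.c 2718204233 (.c 8 (.c 16 .nil))) (.b 32 (.l 24 .nil)))) (.node (.I .jac (.c 1310925193 (.c 8257 (.c 16 .nil))) (.l 24 .nil)) (.I .jac (.c 1310925193 (.c 8 (.c 32 .nil))) (.b 16 (.l 24 .nil))))) (.node (.node (.I .jac (.c 1310925193 (.c 2113 (.c 32 .nil))) (.l 24 .nil)) (.I .ass (.c 24 (.c 8193 (.c 59934274015313491721 .nil))) .nil)) (.node (.I .ass (.c 8193 (.c 24 (.c 59934274015313491721 .nil))) .nil) (.I .com (.c 24 (.c 8193 .nil)) (.r 59934274015313491721 .nil))))) (.node (.node (.node (.I .com (.c 59934274015313491721 (.c 24 .nil)) (.l 8193 .nil)) (.I .ass (.c 24 (.c 8193 (.c 14025210098083633929 .nil))) .nil)) (.node (.I .ass (.c 8193 (.c 24 (.c 14025210098083633929 .nil))) .nil) (.I .com (.c 24 (.c 8193 .nil)) (.r 14025210098083633929 .nil)))) (.node (.node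 (.I .com (.c 14025210098083633929 (.c 24 .nil)) (.l 8193 .nil)) (.I .ass (.c 24 (.c 2049 (.c 14025210098083634057 .nil))) .nil)) (.node (.I .ass (.c 2049 (.c 24 (.c 14025210098083634057 .nil))) .nil) (.I .com (.c 24 (.c 2049 .nil)) (.r 14025210098083634057 .nil)))))) (.node (.node (.node (.node (.I .com (.c 13748198893136698121 (.c 8257 .nil)) (.l 24 .nil)) (.I .com (.c 13748198893136698249 (.c 2113 .nil)) (.l 24 .nil))) (.node (.I .com (.c 59109074018392946441 (.c 8257 .nil)) (.l 24 .nil)) (.I .ass (.c 24 (.c 13748198893136698249 (.c 2113 .nil))) .nil))) (.node (.node (.I .com (.c 24 (.c 13748198893136698249 .nil)) (.r 2113 .nil)) (.I .ass (.c 24 (.c 59109074018392946441 (.c 8257 .nil))) .nil)) (.node (.I .com (.c 24 (.c 59109074018392946441 .nil)) (.r 8257 .nil)) (.I .ass (.c 24 (.c 13748198893136698121 (.c 8257 .nil))) .nil)))) (.node (.node (.node (.I .com (.c 24 (.c 13748198893136698121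 .nil)) (.r 8257 .nil)) (.I .com (.c 598967998054857 (.c 12865 .nil)) (.b 24 .nil))) (.node (.I .adp (.c 598967998054857 (.c 12865 (.c 24 .nil))) .nil) (.I .tdb (.c 0 (.c 48 (.c 32 (.c 40 .nil)))) (.l 2113 (.b 24 .nil))))) (.node (.node (.I .com (.c 3632040653488585 (.c 2113 .nil)) (.b 24 .nil)) (.I .tdb (.c 0 (.c 40 (.c 16 (.c 48 .nil)))) (.l 8257 (.b 24 .nil)))) (.node (.I .com (.c 14832759703961993 (.c 8257 .nil)) (.b 24 .nil)) (.I .adp (.c 3632040653488585 (.c 2113 (.c 24 .nil))) .nil)))))))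

noncomputable def c5_156 : Tr := (.node (.node (.node (.node (.node (.node (.I .adp (.c 14832759703961993 (.c 8257 (.c 24 .nil))) .nil) (.I .jac (.c 2306969673777850377 (.c 16 (.c 40 .nil))) (.l 24 .nil))) (.node (.I .jac (.c 12865 (.c 16 (.c 48 .nil))) (.l 8193 (.l 24 .nil))) (.I .jac (.c 18497 (.c 16 (.c 40 .nil))) (.l 8193 (.l 24 .nil))))) (.node (.node (.I .ass (.c 24 (.c 513 (.c 14306386471475043209 .nil))) .nil) (.I .ass (.c 513 (.c 24 (.c 14306386471475043209 .nil))) .nil)) (.node (.I .com (.c 24 (.c 513 .nil)) (.r 14306386471475043209 .nil)) (.I .ass (.c 24 (.c 59109074018392946377 (.c 8321 .nil))) .nil)))) (.node (.node (.node (.I .com (.c 24 (.c 59109074018392946377 .nil)) (.r 8321 .nil)) (.I .ass (.c 24 (.c 13748198893136698057 (.c 8321 .nil))) .nil)) (.node (.I .com (.c 24 (.c 13748198893136698057 .nil)) (.r 8321 .nil)) (.I .com (.c 2306969673777850313 (.c 18561 .nil)) (.l 24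 .nil)))) (.node (.node (.I .com (.c 2306969673777850377 (.c 12929 .nil)) (.l 24 .nil)) (.I .com (.c 580749782704521 (.c 18561 .nil)) (.b 24 .nil))) (.node (.I .adp (.c 580749782704521 (.c 18561 (.c 24 .nil))) .nil) (.I .adp (.c 3423058053194185 (.c 8321 (.c 24 .nil))) .nil))))) (.node (.node (.node (.node (.I .jac (.c 2105481 (.c 32 (.c 40 .nil))) (.b 48 (.b 24 .nil))) (.I .jac (.c 2487083360713 (.c 32 (.c 40 .nil))) (.b 24 .nil))) (.node (.I .jac (.c 2487083360649 (.c 32 (.c 48 .nil))) (.b 24 .nil)) (.I .jac (.c 557571 (.c 32 (.c 48 .nil))) (.b 40 (.b 24 .nil))))) (.node (.node (.I .jac (.c 12865 (.c 32 (.c 48 .nil))) (.l 2049 (.l 24 .nil))) (.I .jac (.c 12929 (.c 32 (.c 48 .nil))) (.l 513 (.l 24 .nil)))) (.node (.I .com (.c 2487083360713 (.c 13057 .nil)) (.b 24 .nil)) (.I .tdb (.c 0 (.c 16 (.c 48 (.c 8 .nil)))) (.l 13057 (.b 24 .nil)))))) (.node (.node (.node (.I .com (.c 14629225721520329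 (.c 13057 .nil)) (.b 24 .nil)) (.I .adp (.c 2487083360713 (.c 13057 (.c 24 .nil))) .nil)) (.node (.I .jac (.c 13748196208362033929 (.c 8 (.c 48 .nil))) (.l 24 .nil)) (.I .jac (.c 1310925065 (.c 8 (.c 48 .nil))) (.b 16 (.l 24 .nil))))) (.node (.node (.I .jac (.c 12801 (.c 545424777 (.c 16 .nil))) (.l 24 .nil)) (.I .jac (.c 12801 (.c 8257 (.c 48 .nil))) (.b 16 (.l 24 .nil)))) (.node (.I .jac (.c 12801 (.c 8 (.c 32 .nil))) (.b 48 (.b 16 (.l 24 .nil)))) (.I .jac (.c 12801 (.c 35718537 (.c 32 .nil))) (.l 24 .nil))))))) (.node (.node (.node (.node (.node (.I .jac (.c 12801 (.c 2113 (.c 48 .nil))) (.b 32 (.l 24 .nil))) (.I .com (.c 18291648502882414793990884575208062674675073637948631312895131832587142813795017 (.c 24 .nil)) .nil)) (.node (.I .jac (.c 12801 (.c 8 (.c 48 .nil))) (.b 32 (.b 16 (.l 24 .nil)))) (.I .jac (.c 59109071234951844617 (.c 8 (.c 40 .nil))) (.l 24 .nil)))) (.node (.node (.I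 .com (.c 6250093333522399276025990150979397412271911022009677033636769650727342909290815177 (.c 24 .nil)) .nil) (.I .com (.c 6250093333522399276025990150979397412157423486729266849209763751060102788914679753 (.c 24 .nil)) .nil)) (.node (.I .jac (.c 12801 (.c 16 (.c 48 .nil))) (.l 8257 (.l 24 .nil))) (.I .com (.c 13748193523587632137 (.c 8257 .nil)) (.l 24 .nil))))) (.node (.node (.node (.I .ass (.c 24 (.c 13748193523587632137 (.c 8257 .nil))) .nil) (.I .com (.c 24 (.c 13748193523587632137 .nil)) (.r 8257 .nil))) (.node (.I .ass (.c 24 (.c 8193 (.c 14025204674709064713 .nil))) .nil) (.I .ass (.c 8193 (.c 24 (.c 14025204674709064713 .nil))) .nil))) (.node (.node (.I .com (.c 24 (.c 8193 .nil)) (.r 14025204674709064713 .nil)) (.I .jac (.c 12801 (.c 16 (.c 32 .nil))) (.l 18497 (.l 24 .nil)))) (.node (.I .com (.c 13748196208362033929 (.c 18497 .nil)) (.l 24 .nil)) (.I .com (.c 13748193523587632009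 (.c 18497 .nil)) (.l 24 .nil)))))) (.node (.node (.node (.node (.I .ass (.c 24 (.c 13748192181200529417 (.c 8321 .nil))) .nil) (.I .com (.c 24 (.c 13748192181200529417 .nil)) (.r 8321 .nil))) (.node (.I .ass (.c 24 (.c 59109062884628932553 (.c 8321 .nil))) .nil) (.I .com (.c 24 (.c 59109062884628932553 .nil)) (.r 8321 .nil)))) (.node (.node (.I .jac (.c 12801 (.c 32 (.c 48 .nil))) (.l 2113 (.l 24 .nil))) (.I .com (.c 13748196208362034185 (.c 2113 .nil)) (.l 24 .nil))) (.node (.I .ass (.c 24 (.c 13748196208362034185 (.c 2113 .nil))) .nil) (.I .com (.c 24 (.c 13748196208362034185 .nil)) (.r 2113 .nil))))) (.node (.node (.node (.I .ass (.c 24 (.c 2049 (.c 14025207386396218377 .nil))) .nil) (.I .ass (.c 2049 (.c 24 (.c 14025207386396218377 .nil))) .nil)) (.node (.I .com (.c 24 (.c 2049 .nil)) (.r 14025207386396218377 .nil)) (.I .adp (.c 1310925193 (.c 8652867 (.c 24 .nil))) .nil))) (.node (.node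 (.I .adp (.c 1310925065 (.c 43059267 (.c 24 .nil))) .nil) (.I .adp (.c 1310924937 (.c 43655235 (.c 24 .nil))) .nil)) (.node (.I .com (.c 3396677733571935452111592026848590848460283047097123161283016626185 (.c 24 .nil)) .nil) (.I .com (.c 18291648502882414453388965183791947422382005360361218029448368799991925418033929 (.c 24 .nil)) .nil)))))))

noncomputable def c5_157 : Tr := (.node (.node (.node (.node (.node (.node (.I .jac (.c 8193 (.c 8 (.c 48 .nil))) (.b 12929 (.l 24 .nil))) (.I .jac (.c 18433 (.c 8 (.c 32 .nil))) (.b 12929 (.l 24 .nil)))) (.node (.I .jac (.c 0 (.c 8257 (.c 48 .nil))) (.b 12929 (.l 24 .nil))) (.I .jac (.c 0 (.c 8 (.c 32 .nil))) (.b 48 (.b 12929 (.l 24 .nil)))))) (.node (.node (.I .com (.c 6250093333522399248956982637364085055414223704215283955664159904225520786649734921 (.c 24 .nil)) .nil) (.I .com (.c 6250093333522399248956982637364085055328358052754976317529846539912873292530217929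 (.c 24 .nil)) .nil)) (.node (.I .ass (.c 24 (.c 8193 (.c 59934265606904515529 .nil))) .nil) (.I .ass (.c 8193 (.c 24 (.c 59934265606904515529 .nil))) .nil)))) (.node (.node (.node (.I .com (.c 24 (.c 8193 .nil)) (.r 59934265606904515529 .nil)) (.I .ass (.c 24 (.c 59109065668069837769 (.c 8257 .nil))) .nil)) (.node (.I .com (.c 24 (.c 59109065668069837769 .nil)) (.r 8257 .nil)) (.I .ass (.c 24 (.c 513 (.c 14306383732740658185 .nil))) .nil))) (.node (.node (.I .ass (.c 513 (.c 24 (.c 14306383732740658185 .nil))) .nil) (.I .com (.c 24 (.c 513 .nil)) (.r 14306383732740658185 .nil))) (.node (.I .tdb (.c 0 (.c 40 (.c 8 (.c 32 .nil)))) (.b 18561 (.b 24 .nil))) (.I .adp (.c 1310924873 (.c 43655299 (.c 24 .nil))) .nil))))) (.node (.node (.node (.node (.I .jac (.c 2718204169 (.c 2113 (.c 40 .nil))) (.l 24 .nil)) (.I .jac (.c 2718204169 (.c 8 (.c 16 .nil))) (.b 40 (.l 24 .nil)))) (.node (.I .com (.c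 59109071234951844617 (.c 12865 .nil)) (.l 24 .nil)) (.I .tdb (.c 0 (.c 48 (.c 16 (.c 32 .nil)))) (.l 12865 (.b 24 .nil))))) (.node (.node (.I .com (.c 13748192181200529289 (.c 18561 .nil)) (.l 24 .nil)) (.I .com (.c 13748192181200529417 (.c 8321 .nil)) (.l 24 .nil))) (.node (.I .com (.c 3423058053194185 (.c 8321 .nil)) (.b 24 .nil)) (.I .jac (.c 9025011228269257 (.c 32 (.c 40 .nil))) (.b 24 .nil))))) (.node (.node (.node (.I .jac (.c 35473026505481 (.c 32 (.c 40 .nil))) (.b 24 .nil)) (.I .com (.c 14502375955699776897097553016463223520899905238677409260292415153620461621257 (.c 24 .nil)) .nil)) (.node (.I .com (.c 18291648502882414793990884575208062666933105295579547665148209294408698441043977 (.c 24 .nil)) .nil) (.I .com (.c 14502375955699775287798242710605707659174452818635776583590622472711369421833 (.c 24 .nil)) .nil))) (.node (.node (.I .com (.c 18291648502882414453388965183791947416188430686465951168914945118966882142024713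 (.c 24 .nil)) .nil) (.I .jac (.c 18433 (.c 8 (.c 16 .nil))) (.b 13057 (.l 24 .nil)))) (.node (.I .jac (.c 0 (.c 2113 (.c 48 .nil))) (.b 13057 (.l 24 .nil))) (.I .jac (.c 0 (.c 8 (.c 16 .nil))) (.b 48 (.b 13057 (.l 24 .nil))))))))) (.node (.node (.node (.node (.node (.I .tdb (.c 16 (.c 48 (.c 0 (.c 8 .nil)))) (.b 13057 (.b 24 .nil))) (.I .tdb (.c 0 (.c 32 (.c 8 (.c 16 .nil)))) (.b 18753 (.b 24 .nil)))) (.node (.I .tdb (.c 0 (.c 40 (.c 8 (.c 16 .nil)))) (.b 18689 (.b 24 .nil))) (.I .tdb (.c 0 (.c 48 (.c 8 (.c 16 .nil)))) (.b 13057 (.b 24 .nil))))) (.node (.node (.I .jac (.c 2718204041 (.c 8 (.c 40 .nil))) (.b 32 (.l 24 .nil))) (.I .jac (.c 2718204041 (.c 8257 (.c 40 .nil))) (.l 24 .nil))) (.node (.I .jac (.c 2718204041 (.c 8 (.c 32 .nil))) (.b 40 (.l 24 .nil))) (.I .com (.c 59109065668069837705 (.c 12865 .nil)) (.l 24 .nil))))) (.node (.node (.node (.I .com (.c 59109065668069837769 (.c 8257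 .nil)) (.l 24 .nil)) (.I .com (.c 59109062884628932489 (.c 12929 .nil)) (.l 24 .nil))) (.node (.I .com (.c 59109062884628932553 (.c 8321 .nil)) (.l 24 .nil)) (.I .tdb (.c 0 (.c 40 (.c 8 (.c 32 .nil)))) (.l 18561 (.b 24 .nil))))) (.node (.node (.I .tdb (.c 0 (.c 48 (.c 8 (.c 40 .nil)))) (.l 8321 (.b 24 .nil))) (.I .jac (.c 18433 (.c 545424713 (.c 16 .nil))) (.l 24 .nil))) (.node (.I .jac (.c 18433 (.c 8257 (.c 40 .nil))) (.b 16 (.l 24 .nil))) (.I .jac (.c 18433 (.c 8 (.c 32 .nil))) (.b 40 (.b 16 (.l 24 .nil)))))))) (.node (.node (.node (.node (.I .jac (.c 18433 (.c 1324065929 (.c 32 .nil))) (.l 24 .nil)) (.I .jac (.c 18433 (.c 12865 (.c 16 .nil))) (.b 32 (.l 24 .nil)))) (.node (.I .jac (.c 18433 (.c 8 (.c 40 .nil))) (.b 16 (.b 32 (.l 24 .nil)))) (.I .jac (.c 18433 (.c 35718473 (.c 32 .nil))) (.l 24 .nil)))) (.node (.node (.I .jac (.c 18433 (.c 2113 (.c 40 .nil))) (.b 32 (.l 24 .nil))) (.I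 .jac (.c 18433 (.c 1324066057 (.c 16 .nil))) (.l 24 .nil))) (.node (.I .jac (.c 18433 (.c 12865 (.c 32 .nil))) (.b 16 (.l 24 .nil))) (.I .jac (.c 18433 (.c 16 (.c 40 .nil))) (.l 8257 (.l 24 .nil)))))) (.node (.node (.node (.I .jac (.c 18433 (.c 16 (.c 32 .nil))) (.l 12865 (.l 24 .nil))) (.I .jac (.c 0 (.c 12865 (.c 32 .nil))) (.b 18561 (.l 24 .nil)))) (.node (.I .jac (.c 0 (.c 8 (.c 40 .nil))) (.b 32 (.b 18561 (.l 24 .nil)))) (.I .jac (.c 13748196208362033865 (.c 16 (.c 48 .nil))) (.l 24 .nil)))) (.node (.node (.I .jac (.c 0 (.c 8257 (.c 40 .nil))) (.b 18561 (.l 24 .nil))) (.I .jac (.c 0 (.c 8 (.c 32 .nil))) (.b 40 (.b 18561 (.l 24 .nil))))) (.node (.I .jac (.c 2049 (.c 8 (.c 40 .nil))) (.b 18689 (.l 24 .nil))) (.I .jac (.c 0 (.c 12865 (.c 16 .nil))) (.b 18689 (.l 24 .nil)))))))))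

noncomputable def c5_158 : Tr := (.node (.node (.node (.node (.node (.node (.I .jac (.c 0 (.c 8 (.c 40 .nil))) (.b 16 (.b 18689 (.l 24 .nil)))) (.I .jac (.c 0 (.c 2113 (.c 40 .nil))) (.b 18689 (.l 24 .nil)))) (.node (.I .jac (.c 0 (.c 8 (.c 16 .nil))) (.b 40 (.b 18689 (.l 24 .nil)))) (.I .tdb (.c 0 (.c 48 (.c 8 (.c 16 .nil)))) (.l 13057 (.b 24 .nil))))) (.node (.node (.I .jac (.c 9024942441009865 (.c 40 (.c 48 .nil))) (.b 24 .nil)) (.I .jac (.c 35468714087177 (.c 40 (.c 48 .nil))) (.b 24 .nil))) (.node (.I .jac (.c 2049 (.c 8 (.c 32 .nil))) (.b 18753 (.l 24 .nil))) (.I .jac (.c 2306970223667989193 (.c 40 (.c 48 .nil))) (.b 24 .nil))))) (.node (.node (.node (.I .jac (.c 8193 (.c 8 (.c 16 .nil))) (.b 18753 (.b 24 .nil))) (.I .jac (.c 598976858557513 (.c 40 (.c 48 .nil))) (.b 24 .nil))) (.node (.I .jac (.c 2487083360585 (.c 40 (.c 48 .nil))) (.b 24 .nil)) (.I .adp (.c 32 (.c 40 (.c 48 .nil)))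 (.b 2113 (.l 4609 .nil))))) (.node (.node (.I .adp (.c 32 (.c 40 (.c 8 .nil))) (.b 18561 (.l 4609 .nil))) (.I .com (.c 12865 (.c 32 .nil)) (.b 18561 (.l 4609 .nil)))) (.node (.I .adp (.c 16 (.c 40 (.c 48 .nil))) (.b 8257 (.l 4609 .nil))) (.I .adp (.c 16 (.c 40 (.c 8 .nil))) (.b 18689 (.l 4609 .nil))))))) (.node (.node (.node (.node (.I .com (.c 12865 (.c 16 .nil)) (.b 18689 (.l 4609 .nil))) (.I .adp (.c 8 (.c 40 (.c 48 .nil))) (.b 8321 (.l 4609 .nil)))) (.node (.I .adp (.c 8 (.c 40 (.c 16 .nil))) (.b 18689 (.l 4609 .nil))) (.I .adp (.c 8 (.c 40 (.c 32 .nil))) (.b 18561 (.l 4609 .nil))))) (.node (.node (.I .adp (.c 16 (.c 32 (.c 8 .nil))) (.b 18753 (.l 4609 .nil))) (.I .com (.c 8257 (.c 16 .nil)) (.b 18753 (.l 4609 .nil)))) (.node (.I .adp (.c 16 (.c 32 (.c 48 .nil))) (.b 12865 (.l 4609 .nil))) (.I .adp (.c 8 (.c 32 (.c 16 .nil))) (.b 18753 (.l 4609 .nil)))))) (.node (.node (.node (.I .adp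 (.c 8 (.c 32 (.c 48 .nil))) (.b 12929 (.l 4609 .nil))) (.I .adp (.c 8 (.c 32 (.c 40 .nil))) (.b 18561 (.l 4609 .nil)))) (.node (.I .jac (.c 33587593 (.c 32 (.c 40 .nil))) (.b 24 (.b 8 .nil))) (.I .jac (.c 33587529 (.c 32 (.c 48 .nil))) (.b 24 (.b 8 .nil))))) (.node (.node (.I .jac (.c 2049 (.c 32 (.c 48 .nil))) (.b 40 (.b 24 (.b 8 .nil)))) (.I .jac (.c 33587593 (.c 32 (.c 40 .nil))) (.b 24 (.l 8 .nil)))) (.node (.I .jac (.c 2049 (.c 32 (.c 48 .nil))) (.b 40 (.b 24 (.l 8 .nil)))) (.I .jac (.c 33587529 (.c 32 (.c 48 .nil))) (.b 8 (.b 24 .nil)))))))) (.node (.node (.node (.node (.node (.I .jac (.c 2049 (.c 32 (.c 48 .nil))) (.b 40 (.b 8 (.b 24 .nil)))) (.I .jac (.c 2049 (.c 32 (.c 40 .nil))) (.b 48 (.b 8 (.b 24 .nil))))) (.node (.I .jac (.c 537002377 (.c 16 (.c 40 .nil))) (.b 8 (.b 24 .nil))) (.I .jac (.c 8193 (.c 16 (.c 48 .nil))) (.b 40 (.b 8 (.b 24 .nil)))))) (.node (.node (.I .jac (.c 8193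 (.c 12929 (.c 48 .nil))) (.b 8 (.b 24 .nil))) (.I .jac (.c 2718204233 (.c 16 (.c 32 .nil))) (.b 8 (.b 24 .nil)))) (.node (.I .jac (.c 33587593 (.c 32 (.c 40 .nil))) (.b 8 (.l 24 .nil))) (.I .jac (.c 33587529 (.c 32 (.c 48 .nil))) (.b 8 (.l 24 .nil)))))) (.node (.node (.node (.I .jac (.c 2049 (.c 32 (.c 48 .nil))) (.b 40 (.b 8 (.l 24 .nil)))) (.I .jac (.c 8193 (.c 16 (.c 48 .nil))) (.b 40 (.b 8 (.l 24 .nil))))) (.node (.I .jac (.c 2718204233 (.c 16 (.c 32 .nil))) (.b 8 (.l 24 .nil))) (.I .tdb (.c 0 (.c 40 (.c 16 (.c 48 .nil)))) (.b 32 (.t 8 24 .nil))))) (.node (.node (.I .tdb (.c 0 (.c 40 (.c 32 (.c 48 .nil)))) (.b 16 (.t 8 24 .nil))) (.I .jac (.c 12801 (.c 16 (.c 48 .nil))) (.b 32 (.b 8 (.b 24 .nil))))) (.node (.I .jac (.c 12801 (.c 16 (.c 32 .nil))) (.b 48 (.b 8 (.b 24 .nil)))) (.I .jac (.c 2718204169 (.c 16 (.c 40 .nil))) (.b 8 (.l 24 .nil))))))) (.node (.node (.node (.node (.I .tdb (.c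 0 (.c 48 (.c 16 (.c 32 .nil)))) (.b 40 (.t 8 24 .nil))) (.I .jac (.c 0 (.c 16 (.c 48 .nil))) (.b 13057 (.l 4673 .nil)))) (.node (.I .jac (.c 2718204041 (.c 32 (.c 40 .nil))) (.b 24 (.l 8 .nil))) (.I .jac (.c 2718204041 (.c 32 (.c 40 .nil))) (.b 8 (.b 24 .nil))))) (.node (.node (.I .jac (.c 2718204041 (.c 32 (.c 40 .nil))) (.b 8 (.l 24 .nil))) (.I .adp (.c 0 (.c 48 (.c 40 .nil))) (.b 8321 (.l 4673 .nil)))) (.node (.I .adp (.c 0 (.c 48 (.c 32 .nil))) (.b 12929 (.l 4673 .nil))) (.I .adp (.c 0 (.c 48 (.c 16 .nil))) (.b 13057 (.l 4673 .nil)))))) (.node (.node (.node (.I .jac (.c 18433 (.c 12929 (.c 32 .nil))) (.b 8 (.b 24 .nil))) (.I .jac (.c 18433 (.c 16 (.c 32 .nil))) (.b 40 (.b 8 (.b 24 .nil))))) (.node (.I .jac (.c 18433 (.c 16 (.c 32 .nil))) (.b 40 (.b 8 (.l 24 .nil)))) (.I .adp (.c 12801 (.c 32 (.c 18561 .nil))) (.l 4673 .nil)))) (.node (.node (.I .adp (.c 8193 (.c 40 (.c 18561 .nil)))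 (.l 4673 .nil)) (.I .jac (.c 0 (.c 16 (.c 40 .nil))) (.b 18689 (.b 24 (.l 8 .nil))))) (.node (.I .jac (.c 1310924937 (.c 32 (.c 48 .nil))) (.b 8 (.b 24 .nil))) (.I .jac (.c 0 (.c 16 (.c 40 .nil))) (.b 18689 (.b 8 (.b 24 .nil))))))))))

noncomputable def c5_159 : Tr := (.node (.node (.node (.node (.node (.node (.I .adp (.c 2049 (.c 40 (.c 18689 .nil))) (.l 4673 .nil)) (.I .adp (.c 0 (.c 40 (.c 48 .nil))) (.b 8321 (.l 4673 .nil)))) (.node (.I .adp (.c 0 (.c 12929 (.c 18689 .nil))) (.l 4673 .nil)) (.I .jac (.c 0 (.c 32 (.c 48 .nil))) (.r 12929 (.l 4673 .nil))))) (.node (.node (.I .adp (.c 0 (.c 40 (.c 16 .nil))) (.b 18689 (.l 4673 .nil))) (.I .adp (.c 0 (.c 40 (.c 32 .nil))) (.b 18561 (.l 4673 .nil)))) (.node (.I .jac (.c 0 (.c 16 (.c 32 .nil))) (.b 18753 (.l 4673 .nil))) (.I .jac (.c 33587465 (.c 40 (.c 48 .nil))) (.b 24 (.b 8 .nil)))))) (.node (.node (.node (.I .jac (.c 0 (.c 16 (.c 32 .nil)))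 (.b 18753 (.b 24 (.l 8 .nil)))) (.I .jac (.c 33587465 (.c 40 (.c 48 .nil))) (.b 8 (.l 24 .nil)))) (.node (.I .adp (.c 2049 (.c 32 (.c 18753 .nil))) (.l 4673 .nil)) (.I .jac (.c 2049 (.c 40 (.c 48 .nil))) (.r 32 (.l 4673 .nil))))) (.node (.node (.I .jac (.c 8652803 (.c 40 (.c 48 .nil))) (.b 24 (.b 8 .nil))) (.I .adp (.c 0 (.c 8321 (.c 18753 .nil))) (.l 4673 .nil))) (.node (.I .jac (.c 0 (.c 40 (.c 48 .nil))) (.r 8321 (.l 4673 .nil))) (.I .adp (.c 0 (.c 32 (.c 16 .nil))) (.b 18753 (.l 4673 .nil))))))) (.node (.node (.node (.node (.I .adp (.c 0 (.c 32 (.c 48 .nil))) (.b 12929 (.l 4673 .nil))) (.I .adp (.c 0 (.c 32 (.c 40 .nil))) (.b 18561 (.l 4673 .nil)))) (.node (.I .jac (.c 8321 (.c 40 (.c 48 .nil))) (.b 24 (.l 513 .nil))) (.I .jac (.c 12929 (.c 32 (.c 48 .nil))) (.b 24 (.l 513 .nil))))) (.node (.node (.I .jac (.c 18561 (.c 32 (.c 40 .nil))) (.b 24 (.l 513 .nil))) (.I .jac (.c 537002313 (.c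 8 (.c 48 .nil))) (.l 4737 .nil))) (.node (.I .jac (.c 8193 (.c 18497 (.c 40 .nil))) (.l 4737 .nil)) (.I .com (.c 42576974092320106643384879185736244937 (.c 4737 .nil)) .nil)))) (.node (.node (.node (.I .com (.c 27951061050494848639907477563920710974153 (.c 4737 .nil)) .nil) (.I .com (.c 1512103782441961079041378905002237328073 (.c 4737 .nil)) .nil)) (.node (.I .jac (.c 2105737 (.c 32 (.c 40 .nil))) (.b 24 (.b 16 .nil))) (.I .jac (.c 513 (.c 32 (.c 40 .nil))) (.b 48 (.b 24 (.b 16 .nil)))))) (.node (.node (.I .jac (.c 513 (.c 32 (.c 48 .nil))) (.b 40 (.b 24 (.l 16 .nil)))) (.I .jac (.c 513 (.c 32 (.c 48 .nil))) (.b 40 (.b 16 (.b 24 .nil))))) (.node (.I .jac (.c 513 (.c 32 (.c 40 .nil))) (.b 48 (.b 16 (.b 24 .nil)))) (.I .jac (.c 2105737 (.c 32 (.c 40 .nil))) (.b 16 (.l 24 .nil)))))))) (.node (.node (.node (.node (.node (.I .jac (.c 2105673 (.c 32 (.c 48 .nil))) (.b 16 (.l 24 .nil))) (.I .ass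 (.c 4737 (.c 2306972423229201097 (.c 40 .nil))) .nil)) (.node (.I .com (.c 4737 (.c 2306972423229201097 .nil)) (.r 40 .nil)) (.I .tdb (.c 0 (.c 40 (.c 8 (.c 48 .nil)))) (.b 32 (.l 4737 .nil))))) (.node (.node (.I .ass (.c 4737 (.c 59109071234951844553 (.c 40 .nil))) .nil) (.I .com (.c 4737 (.c 59109071234951844553 .nil)) (.r 40 .nil))) (.node (.I .com (.c 2306972423229201097 (.c 21099139 .nil)) .nil) (.I .com (.c 2306971873338799817 (.c 43356803 .nil)) .nil)))) (.node (.node (.node (.I .tdb (.c 0 (.c 48 (.c 8 (.c 40 .nil)))) (.b 32 (.t 16 24 .nil))) (.I .tdb (.c 0 (.c 48 (.c 32 (.c 40 .nil)))) (.b 8 (.t 16 24 .nil)))) (.node (.I .tdb (.c 0 (.c 40 (.c 8 (.c 48 .nil)))) (.b 32 (.t 16 24 .nil))) (.I .tdb (.c 0 (.c 40 (.c 32 (.c 48 .nil)))) (.b 8 (.t 16 24 .nil))))) (.node (.node (.I .com (.c 59109071234951844553 (.c 21099139 .nil)) .nil) (.I .com (.c 13748196208362033865 (.c 43356803 .nil))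 .nil)) (.node (.I .jac (.c 12801 (.c 18497 (.c 32 .nil))) (.l 4737 .nil)) (.I .jac (.c 12801 (.c 8 (.c 48 .nil))) (.b 32 (.l 4737 .nil))))))) (.node (.node (.node (.node (.I .com (.c 1512103191868961706263182477688868913865 (.c 4737 .nil)) .nil) (.I .jac (.c 2718204169 (.c 8 (.c 40 .nil))) (.l 4737 .nil))) (.node (.I .com (.c 1310925065 (.c 18497 .nil)) (.l 4737 .nil)) (.I .ass (.c 4737 (.c 13748198893136698057 (.c 32 .nil))) .nil))) (.node (.node (.I .com (.c 4737 (.c 13748198893136698057 .nil)) (.r 32 .nil)) (.I .ass (.c 4737 (.c 59109074018392946377 (.c 32 .nil))) .nil)) (.node (.I .com (.c 4737 (.c 59109074018392946377 .nil)) (.r 32 .nil)) (.I .jac (.c 0 (.c 43954755 (.c 32 .nil))) (.t 16 24 .nil))))) (.node (.node (.node (.I .com (.c 13748198893136698057 (.c 8786563 .nil)) .nil) (.I .tdb (.c 0 (.c 48 (.c 8 (.c 32 .nil)))) (.b 40 (.t 16 24 .nil)))) (.node (.I .jac (.c 0 (.c 8 (.c 48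 .nil))) (.b 13057 (.l 4737 .nil))) (.I .jac (.c 2718203977 (.c 32 (.c 40 .nil))) (.b 24 (.b 16 .nil))))) (.node (.node (.I .jac (.c 0 (.c 8 (.c 48 .nil))) (.b 13057 (.b 24 (.b 16 .nil)))) (.I .jac (.c 2718203977 (.c 32 (.c 40 .nil))) (.b 16 (.b 24 .nil)))) (.node (.I .jac (.c 2718203977 (.c 32 (.c 40 .nil))) (.b 16 (.l 24 .nil))) (.I .com (.c 1310924873 (.c 617629514824137 .nil)) .nil)))))))

noncomputable def c5_160 : Tr := (.node (.node (.node (.node (.node (.node (.I .jac (.c 18433 (.c 8 (.c 40 .nil))) (.b 32 (.l 4737 .nil))) (.I .jac (.c 18433 (.c 8 (.c 32 .nil))) (.b 40 (.l 4737 .nil)))) (.node (.I .adp (.c 32 (.c 40 (.c 48 .nil))) (.b 513 (.l 4737 .nil))) (.I .com (.c 2718204169 (.c 12865 .nil)) (.l 4737 .nil)))) (.node (.node (.I .adp (.c 32 (.c 40 (.c 8 .nil))) (.b 18433 (.l 4737 .nil))) (.I .com (.c 12865 (.c 32 .nil)) (.b 18433 (.l 4737 .nil)))) (.node (.I .jac (.c 1310924873 (.c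 32 (.c 48 .nil))) (.b 16 (.b 24 .nil))) (.I .jac (.c 1310924873 (.c 32 (.c 48 .nil))) (.b 16 (.l 24 .nil)))))) (.node (.node (.node (.I .adp (.c 8 (.c 40 (.c 32 .nil))) (.b 18433 (.l 4737 .nil))) (.I .jac (.c 537002057 (.c 40 (.c 48 .nil))) (.b 24 (.b 16 .nil)))) (.node (.I .jac (.c 537002057 (.c 40 (.c 48 .nil))) (.b 16 (.l 24 .nil))) (.I .jac (.c 2105609 (.c 40 (.c 48 .nil))) (.b 16 (.l 24 .nil))))) (.node (.node (.I .adp (.c 8 (.c 32 (.c 40 .nil))) (.b 18433 (.l 4737 .nil))) (.I .jac (.c 8520195 (.c 40 (.c 48 .nil))) (.b 16 (.b 24 .nil)))) (.node (.I .jac (.c 8257 (.c 40 (.c 48 .nil))) (.b 24 (.l 2049 .nil))) (.I .jac (.c 12865 (.c 32 (.c 48 .nil))) (.b 24 (.l 2049 .nil))))))) (.node (.node (.node (.node (.I .jac (.c 18497 (.c 32 (.c 40 .nil))) (.b 24 (.l 2049 .nil))) (.I .jac (.c 8257 (.c 40 (.c 48 .nil))) (.b 16 (.l 4609 .nil)))) (.node (.I .jac (.c 12865 (.c 32 (.c 48 .nil))) (.b 16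 (.l 4609 .nil))) (.I .jac (.c 18497 (.c 32 (.c 40 .nil))) (.b 16 (.l 4609 .nil))))) (.node (.node (.I .jac (.c 8193 (.c 40 (.c 48 .nil))) (.b 2803779 .nil)) (.I .jac (.c 12801 (.c 32 (.c 48 .nil))) (.b 2803779 .nil))) (.node (.I .jac (.c 18433 (.c 32 (.c 40 .nil))) (.b 2803779 .nil)) (.I .jac (.c 8193 (.c 40 (.c 48 .nil))) (.b 24 (.l 2113 .nil)))))) (.node (.node (.node (.I .jac (.c 12801 (.c 32 (.c 48 .nil))) (.b 24 (.l 2113 .nil))) (.I .jac (.c 18433 (.c 32 (.c 40 .nil))) (.b 24 (.l 2113 .nil)))) (.node (.I .jac (.c 8193 (.c 40 (.c 48 .nil))) (.b 16 (.l 4673 .nil))) (.I .jac (.c 12801 (.c 32 (.c 48 .nil))) (.b 16 (.l 4673 .nil))))) (.node (.node (.I .jac (.c 18433 (.c 32 (.c 40 .nil))) (.b 16 (.l 4673 .nil))) (.I .jac (.c 8193 (.c 40 (.c 48 .nil))) (.b 8 (.l 4737 .nil)))) (.node (.I .jac (.c 12801 (.c 32 (.c 48 .nil))) (.b 8 (.l 4737 .nil))) (.I .jac (.c 18433 (.c 32 (.c 40 .nil))) (.b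 8 (.l 4737 .nil)))))))) (.node (.node (.node (.node (.node (.I .jac (.c 8193 (.c 40 (.c 48 .nil))) (.b 8 (.b 24 (.b 16 .nil)))) (.I .jac (.c 12801 (.c 32 (.c 48 .nil))) (.b 8 (.b 24 (.b 16 .nil))))) (.node (.I .jac (.c 18433 (.c 32 (.c 40 .nil))) (.b 8 (.b 24 (.b 16 .nil)))) (.I .jac (.c 8193 (.c 40 (.c 48 .nil))) (.b 8 (.b 24 (.l 16 .nil)))))) (.node (.node (.I .jac (.c 12801 (.c 32 (.c 48 .nil))) (.b 8 (.b 24 (.l 16 .nil)))) (.I .jac (.c 18433 (.c 32 (.c 40 .nil))) (.b 8 (.b 24 (.l 16 .nil))))) (.node (.I .jac (.c 8193 (.c 40 (.c 48 .nil))) (.b 8 (.b 16 (.b 24 .nil)))) (.I .jac (.c 12801 (.c 32 (.c 48 .nil))) (.b 8 (.b 16 (.b 24 .nil))))))) (.node (.node (.node (.I .jac (.c 18433 (.c 32 (.c 40 .nil))) (.b 8 (.b 16 (.b 24 .nil)))) (.I .jac (.c 8193 (.c 40 (.c 48 .nil))) (.b 8 (.b 16 (.l 24 .nil))))) (.node (.I .jac (.c 12801 (.c 32 (.c 48 .nil))) (.b 8 (.b 16 (.l 24 .nil)))) (.I .jac (.c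 18433 (.c 32 (.c 40 .nil))) (.b 8 (.b 16 (.l 24 .nil)))))) (.node (.node (.I .jac (.c 35470870263817 (.c 16 (.c 24 .nil))) (.l 32 .nil)) (.I .jac (.c 2105737 (.c 16 (.c 24 .nil))) (.b 40 (.l 32 .nil)))) (.node (.I .jac (.c 2105545 (.c 16 (.c 48 .nil))) (.b 40 (.l 32 .nil))) (.I .jac (.c 513 (.c 16 (.c 40 .nil))) (.b 48 (.b 24 (.l 32 .nil)))))))) (.node (.node (.node (.node (.I .jac (.c 513 (.c 16 (.c 48 .nil))) (.b 24 (.b 40 (.l 32 .nil)))) (.I .jac (.c 513 (.c 16 (.c 24 .nil))) (.b 48 (.b 40 (.l 32 .nil))))) (.node (.I .jac (.c 513 (.c 16 (.c 40 .nil))) (.b 24 (.b 48 (.l 32 .nil)))) (.I .com (.c 810508056951847240291898505585423869896609491020671768329 (.c 32 .nil)) .nil))) (.node (.node (.I .com (.c 810705155093947686715548558786755234702307279633946107657 (.c 32 .nil)) .nil) (.I .com (.c 810113986414488962661815697353921638195418889919997845257 (.c 32 .nil)) .nil)) (.node (.I .com (.c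 809917014015645998974779177266090408572866479426887615305 (.c 32 .nil)) .nil) (.I .com (.c 809917014021492389842747135875993478139442776722716645321 (.c 32 .nil)) .nil)))) (.node (.node (.node (.I .com (.c 809917014015645998974779146356270193153806695299562215433 (.c 32 .nil)) .nil) (.I .jac (.c 2049 (.c 8 (.c 40 .nil))) (.b 48 (.b 24 (.l 32 .nil))))) (.node (.I .jac (.c 2049 (.c 2737112265 (.c 40 .nil))) (.l 32 .nil)) (.I .jac (.c 2049 (.c 18497 (.c 24 .nil))) (.b 40 (.l 32 .nil))))) (.node (.node (.I .jac (.c 2049 (.c 174695817 (.c 40 .nil))) (.l 32 .nil)) (.I .jac (.c 2049 (.c 4673 (.c 48 .nil))) (.b 40 (.l 32 .nil)))) (.node (.I .jac (.c 2049 (.c 8 (.c 40 .nil))) (.b 24 (.b 48 (.l 32 .nil)))) (.I .com (.c 3396729512033956131747053835158279524984183348903608636827381653193 (.c 32 .nil)) .nil)))))))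

noncomputable def c5_161 : Tr := (.node (.node (.node (.node (.node (.node (.I .com (.c 3396574178719779867970206709213955371244077516775865272270634262217 (.c 32 .nil)) .nil) (.I .com (.c 3396470626629796977786973438201765697400987898257132266220752339785 (.c 32 .nil)) .nil)) (.node (.I .com (.c 3396470626629893322603242024125711716005261913869006431401929496521 (.c 32 .nil)) .nil) (.I .com (.c 3396470626629796977786973438199764038143830829891467925486525618185 (.c 32 .nil)) .nil))) (.node (.node (.I .jac (.c 13748198893136698185 (.c 8 (.c 16 .nil))) (.l 32 .nil)) (.I .jac (.c 231046163358604233 (.c 8 (.c 16 .nil))) (.l 32 .nil))) (.node (.I .jac (.c 13748194865974800393 (.c 8 (.c 16 .nil))) (.l 32 .nil)) (.I .com (.c 18291662791002284158804837459398313856051162158422185398345640442637541037896393 (.c 32 .nil)) .nil)))) (.node (.node (.node (.I .com (.c 6250092156257071185327898691570831983536797006162547351610529844742892535786861257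 (.c 32 .nil)) .nil) (.I .com (.c 18291641358826143796487118727567224431200388268426187122562074504514361177518793 (.c 32 .nil)) .nil)) (.node (.I .com (.c 18291662791002284158804837459398313854502767885201617267823299846484956483505929 (.c 32 .nil)) .nil) (.I .com (.c 6250092156257071185327898691570831983508175125038048793690744499167676397895405321 (.c 32 .nil)) .nil))) (.node (.node (.I .com (.c 18291641358826143796487118727567224429651994902325679599565150910203148494573321 (.c 32 .nil)) .nil) (.I .jac (.c 35466557976521 (.c 16 (.c 48 .nil))) (.l 32 .nil))) (.node (.I .com (.c 810113986408641505441454317377410956945037015659145724681 (.c 32 .nil)) .nil) (.I .com (.c 809917014021492389842747156482540288493190207579839438665 (.c 32 .nil)) .nil))))) (.node (.node (.node (.node (.I .jac (.c 9025011228269513 (.c 8 (.c 24 .nil))) (.l 32 .nil)) (.I .jac (.c 33587593 (.c 4673 (.c 40 .nil))) (.l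 32 .nil))) (.node (.I .jac (.c 9024908047478729 (.c 8 (.c 48 .nil))) (.l 32 .nil)) (.I .jac (.c 33587401 (.c 18497 (.c 40 .nil))) (.l 32 .nil)))) (.node (.node (.I .com (.c 3396729512034148832394861772917215833189076101393365030082331416265 (.c 32 .nil)) .nil) (.I .com (.c 3396574178719683520950915452814913047159318990092683646127663612617 (.c 32 .nil)) .nil)) (.node (.I .com (.c 3396470626629893322603242024127046155510033311705909030296951103305 (.c 32 .nil)) .nil) (.I .jac (.c 59109074018392946505 (.c 8 (.c 16 .nil))) (.l 32 .nil))))) (.node (.node (.node (.I .jac (.c 231045989336561673 (.c 8 (.c 16 .nil))) (.l 32 .nil)) (.I .jac (.c 513 (.c 24 (.c 48 .nil))) (.l 12929 (.l 32 .nil)))) (.node (.I .com (.c 35473026505545 (.c 12929 .nil)) (.l 32 .nil)) (.I .com (.c 35466557976585 (.c 12929 .nil)) (.l 32 .nil)))) (.node (.node (.I .ass (.c 32 (.c 35473026505545 (.c 12929 .nil))) .nil) (.I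 .com (.c 32 (.c 35473026505545 .nil)) (.r 12929 .nil))) (.node (.I .ass (.c 32 (.c 35466557976585 (.c 12929 .nil))) .nil) (.I .com (.c 32 (.c 35466557976585 .nil)) (.r 12929 .nil))))))) (.node (.node (.node (.node (.node (.I .ass (.c 32 (.c 35470870263561 (.c 18625 .nil))) .nil) (.I .ass (.c 35470870263561 (.c 32 (.c 18625 .nil))) .nil)) (.node (.I .com (.c 32 (.c 35470870263561 .nil)) (.r 18625 .nil)) (.I .ass (.c 32 (.c 35464401931209 (.c 18625 .nil))) .nil))) (.node (.node (.I .ass (.c 35464401931209 (.c 32 (.c 18625 .nil))) .nil) (.I .com (.c 32 (.c 35464401931209 .nil)) (.r 18625 .nil))) (.node (.I .jac (.c 2049 (.c 24 (.c 48 .nil))) (.l 12865 (.l 32 .nil))) (.I .com (.c 9025011228269385 (.c 12865 .nil)) (.l 32 .nil))))) (.node (.node (.node (.I .com (.c 9024908047478793 (.c 12865 .nil)) (.l 32 .nil)) (.I .ass (.c 32 (.c 9025011228269385 (.c 12865 .nil))) .nil)) (.node (.I .com (.c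 32 (.c 9025011228269385 .nil)) (.r 12865 .nil)) (.I .ass (.c 32 (.c 9024908047478793 (.c 12865 .nil))) .nil))) (.node (.node (.I .com (.c 32 (.c 9024908047478793 .nil)) (.r 12865 .nil)) (.I .ass (.c 32 (.c 9024976834606793 (.c 18625 .nil))) .nil)) (.node (.I .ass (.c 9024976834606793 (.c 32 (.c 18625 .nil))) .nil) (.I .com (.c 32 (.c 9024976834606793 .nil)) (.r 18625 .nil)))))) (.node (.node (.node (.node (.I .ass (.c 32 (.c 9024839260612553 (.c 18625 .nil))) .nil) (.I .ass (.c 9024839260612553 (.c 32 (.c 18625 .nil))) .nil)) (.node (.I .com (.c 32 (.c 9024839260612553 .nil)) (.r 18625 .nil)) (.I .jac (.c 2113 (.c 24 (.c 48 .nil))) (.l 12801 (.l 32 .nil))))) (.node (.node (.I .ass (.c 32 (.c 13748193523587631817 (.c 18625 .nil))) .nil) (.I .ass (.c 13748193523587631817 (.c 32 (.c 18625 .nil))) .nil)) (.node (.I .com (.c 32 (.c 13748193523587631817 .nil)) (.r 18625 .nil)) (.I .ass (.c 32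 (.c 13748192181200529161 (.c 18625 .nil))) .nil)))) (.node (.node (.node (.I .ass (.c 13748192181200529161 (.c 32 (.c 18625 .nil))) .nil) (.I .com (.c 32 (.c 13748192181200529161 .nil)) (.r 18625 .nil))) (.node (.I .ass (.c 32 (.c 12801 (.c 10206511083363145 .nil))) .nil) (.I .ass (.c 12801 (.c 32 (.c 10206511083363145 .nil))) .nil))) (.node (.node (.I .com (.c 32 (.c 12801 .nil)) (.r 10206511083363145 .nil)) (.I .com (.c 10206511083363145 (.c 32 .nil)) (.l 12801 .nil))) (.node (.I .ass (.c 32 (.c 12801 (.c 10206401356312585 .nil))) .nil) (.I .ass (.c 12801 (.c 32 (.c 10206401356312585 .nil))) .nil)))))))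

noncomputable def c5_162 : Tr := (.node (.node (.node (.node (.node (.node (.I .com (.c 32 (.c 12801 .nil)) (.r 10206401356312585 .nil)) (.I .jac (.c 513 (.c 24 (.c 40 .nil))) (.l 18561 (.l 32 .nil)))) (.node (.I .com (.c 35470870263625 (.c 18561 .nil)) (.l 32 .nil)) (.I .com (.c 35466557976521 (.c 18561 .nil)) (.l 32 .nil)))) (.node (.node (.I .ass (.c 32 (.c 35473026505481 (.c 12993 .nil))) .nil) (.I .com (.c 32 (.c 35473026505481 .nil)) (.r 12993 .nil))) (.node (.I .ass (.c 32 (.c 35464401931273 (.c 12993 .nil))) .nil) (.I .com (.c 32 (.c 35464401931273 .nil)) (.r 12993 .nil))))) (.node (.node (.node (.I .ass (.c 32 (.c 35470870263625 (.c 18561 .nil))) .nil) (.I .ass (.c 35470870263625 (.c 32 (.c 18561 .nil))) .nil)) (.node (.I .com (.c 32 (.c 35470870263625 .nil)) (.r 18561 .nil)) (.I .ass (.c 32 (.c 35466557976521 (.c 18561 .nil))) .nil))) (.node (.node (.I .ass (.c 35466557976521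 (.c 32 (.c 18561 .nil))) .nil) (.I .com (.c 32 (.c 35466557976521 .nil)) (.r 18561 .nil))) (.node (.I .jac (.c 2049 (.c 24 (.c 40 .nil))) (.l 18497 (.l 32 .nil))) (.I .com (.c 9024976834606921 (.c 18497 .nil)) (.l 32 .nil)))))) (.node (.node (.node (.node (.I .com (.c 9024908047478729 (.c 18497 .nil)) (.l 32 .nil)) (.I .ass (.c 32 (.c 9025011228269257 (.c 12993 .nil))) .nil)) (.node (.I .com (.c 32 (.c 9025011228269257 .nil)) (.r 12993 .nil)) (.I .ass (.c 32 (.c 9024839260612617 (.c 12993 .nil))) .nil))) (.node (.node (.I .com (.c 32 (.c 9024839260612617 .nil)) (.r 12993 .nil)) (.I .ass (.c 32 (.c 9024976834606921 (.c 18497 .nil))) .nil)) (.node (.I .ass (.c 9024976834606921 (.c 32 (.c 18497 .nil))) .nil) (.I .com (.c 32 (.c 9024976834606921 .nil)) (.r 18497 .nil))))) (.node (.node (.node (.I .ass (.c 32 (.c 9024908047478729 (.c 18497 .nil))) .nil) (.I .ass (.c 9024908047478729 (.c 32 (.c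 18497 .nil))) .nil)) (.node (.I .com (.c 32 (.c 9024908047478729 .nil)) (.r 18497 .nil)) (.I .jac (.c 2113 (.c 24 (.c 40 .nil))) (.l 18433 (.l 32 .nil))))) (.node (.node (.I .ass (.c 32 (.c 59109065668069837513 (.c 12993 .nil))) .nil) (.I .com (.c 32 (.c 59109065668069837513 .nil)) (.r 12993 .nil))) (.node (.I .ass (.c 32 (.c 59109062884628932361 (.c 12993 .nil))) .nil) (.I .com (.c 32 (.c 59109062884628932361 .nil)) (.r 12993 .nil))))))) (.node (.node (.node (.node (.node (.I .ass (.c 32 (.c 18433 (.c 10206474507614025 .nil))) .nil) (.I .ass (.c 18433 (.c 32 (.c 10206474507614025 .nil))) .nil)) (.node (.I .com (.c 32 (.c 18433 .nil)) (.r 10206474507614025 .nil)) (.I .com (.c 10206474507614025 (.c 32 .nil)) (.l 18433 .nil)))) (.node (.node (.I .ass (.c 32 (.c 18433 (.c 10206401356312521 .nil))) .nil) (.I .ass (.c 18433 (.c 32 (.c 10206401356312521 .nil))) .nil)) (.node (.I .com (.c 32 (.c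 18433 .nil)) (.r 10206401356312521 .nil)) (.I .jac (.c 2049 (.c 40 (.c 48 .nil))) (.l 4673 (.l 32 .nil)))))) (.node (.node (.node (.I .com (.c 9025011228269513 (.c 4673 .nil)) (.l 32 .nil)) (.I .com (.c 9024976834607113 (.c 4673 .nil)) (.l 32 .nil))) (.node (.I .ass (.c 32 (.c 9025011228269513 (.c 4673 .nil))) .nil) (.I .com (.c 32 (.c 9025011228269513 .nil)) (.r 4673 .nil)))) (.node (.node (.I .ass (.c 32 (.c 9024976834607113 (.c 4673 .nil))) .nil) (.I .com (.c 32 (.c 9024976834607113 .nil)) (.r 4673 .nil))) (.node (.I .jac (.c 2113 (.c 40 (.c 48 .nil))) (.l 4609 (.l 32 .nil))) (.I .ass (.c 32 (.c 4609 (.c 10206511083363273 .nil))) .nil))))) (.node (.node (.node (.node (.I .ass (.c 4609 (.c 32 (.c 10206511083363273 .nil))) .nil) (.I .com (.c 32 (.c 4609 .nil)) (.r 10206511083363273 .nil))) (.node (.I .ass (.c 32 (.c 4609 (.c 10206474507614217 .nil))) .nil) (.I .ass (.c 4609 (.c 32 (.c 10206474507614217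 .nil))) .nil))) (.node (.node (.I .com (.c 32 (.c 4609 .nil)) (.r 10206474507614217 .nil)) (.I .com (.c 15456163896880201 (.c 4737 .nil)) (.b 32 .nil))) (.node (.I .adp (.c 15456163896880201 (.c 4737 (.c 32 .nil))) .nil) (.I .adp (.c 2105737 (.c 21099139 (.c 32 .nil))) .nil)))) (.node (.node (.node (.I .adp (.c 2105545 (.c 43954819 (.c 32 .nil))) .nil) (.I .tdb (.c 0 (.c 16 (.c 48 (.c 24 .nil)))) (.b 12865 (.b 32 .nil)))) (.node (.I .tdb (.c 0 (.c 16 (.c 40 (.c 48 .nil)))) (.l 4673 (.b 32 .nil))) (.I .com (.c 15456118887243977 (.c 4673 .nil)) (.b 32 .nil)))) (.node (.node (.I .com (.c 15456208906582089 (.c 4673 .nil)) (.b 32 .nil)) (.I .adp (.c 15456118887243977 (.c 4673 (.c 32 .nil))) .nil)) (.node (.I .adp (.c 15456208906582089 (.c 4673 (.c 32 .nil))) .nil) (.I .adp (.c 33587529 (.c 43356739 (.c 32 .nil))) .nil)))))))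

noncomputable def c5_163 : Tr := (.node (.node (.node (.node (.node (.node (.I .com (.c 18689 (.c 40 .nil)) (.l 9024908047478473 .nil)) (.I .com (.c 18689 (.c 40 .nil)) (.l 9024839260612425 .nil))) (.node (.I .tdb (.c 0 (.c 24 (.c 40 (.c 48 .nil)))) (.b 2113 (.b 32 .nil))) (.I .com (.c 18689 (.c 40 .nil)) (.l 231045467270826697 .nil)))) (.node (.node (.I .com (.c 18689 (.c 40 .nil)) (.l 231045293249046281 .nil)) (.I .com (.c 810508056951847240291898495278391705359985640078949069641 (.c 32 .nil)) .nil)) (.node (.I .com (.c 810705155088097029465566038962797496400789314964891213641 (.c 32 .nil)) .nil) (.I .com (.c 810113986414488962661815666440343006049332852622544712649 (.c 32 .nil)) .nil)))) (.node (.node (.node (.I .com (.c 810113986408641505441454276159306114232346491916496237577 (.c 32 .nil)) .nil) (.I .jac (.c 231046163358604041 (.c 8 (.c 40 .nil))) (.l 32 .nil))) (.node (.I .jac (.c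 231045467270827017 (.c 8 (.c 40 .nil))) (.l 32 .nil)) (.I .jac (.c 169943369 (.c 8 (.c 48 .nil))) (.b 16 (.l 32 .nil))))) (.node (.node (.I .jac (.c 169943369 (.c 2113 (.c 48 .nil))) (.l 32 .nil)) (.I .jac (.c 169943177 (.c 12865 (.c 48 .nil))) (.l 32 .nil))) (.node (.I .jac (.c 4609 (.c 8 (.c 16 .nil))) (.b 48 (.b 40 (.l 32 .nil)))) (.I .jac (.c 4609 (.c 1324065929 (.c 48 .nil))) (.l 32 .nil)))))) (.node (.node (.node (.node (.I .jac (.c 4609 (.c 12865 (.c 16 .nil))) (.b 48 (.l 32 .nil))) (.I .jac (.c 4609 (.c 8 (.c 40 .nil))) (.b 16 (.b 48 (.l 32 .nil))))) (.node (.I .jac (.c 13748193523587632137 (.c 8 (.c 24 .nil))) (.l 32 .nil)) (.I .com (.c 18291662791002283818202718527714844176861667875952673149244905414740187430344393 (.c 32 .nil)) .nil))) (.node (.node (.I .com (.c 18291662791002283818202718527714844173764879329511536917032287027574431126458185 (.c 32 .nil)) .nil) (.I .com (.c 3396729512034148832394861772915881342828524418793449402517157695305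 (.c 32 .nil)) .nil)) (.node (.I .jac (.c 169943433 (.c 8 (.c 40 .nil))) (.b 16 (.l 32 .nil))) (.I .jac (.c 4609 (.c 8 (.c 48 .nil))) (.b 40 (.b 16 (.l 32 .nil))))))) (.node (.node (.node (.I .jac (.c 4609 (.c 35718473 (.c 48 .nil))) (.l 32 .nil)) (.I .jac (.c 4609 (.c 2113 (.c 40 .nil))) (.b 48 (.l 32 .nil)))) (.node (.I .jac (.c 4609 (.c 8 (.c 16 .nil))) (.b 40 (.b 48 (.l 32 .nil)))) (.I .jac (.c 4609 (.c 16 (.c 48 .nil))) (.l 12865 (.l 32 .nil))))) (.node (.node (.I .com (.c 231046163358604041 (.c 12865 .nil)) (.l 32 .nil)) (.I .com (.c 231045467270827017 (.c 12865 .nil)) (.l 32 .nil))) (.node (.I .ass (.c 32 (.c 231046163358604041 (.c 12865 .nil))) .nil) (.I .com (.c 32 (.c 231046163358604041 .nil)) (.r 12865 .nil))))))) (.node (.node (.node (.node (.node (.I .ass (.c 32 (.c 231045467270827017 (.c 12865 .nil))) .nil) (.I .com (.c 32 (.c 231045467270827017 .nil)) (.r 12865 .nil))) (.node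 (.I .ass (.c 32 (.c 231045989336561353 (.c 18561 .nil))) .nil) (.I .ass (.c 231045989336561353 (.c 32 (.c 18561 .nil))) .nil))) (.node (.node (.I .com (.c 32 (.c 231045989336561353 .nil)) (.r 18561 .nil)) (.I .ass (.c 32 (.c 231045293249046473 (.c 18561 .nil))) .nil)) (.node (.I .ass (.c 231045293249046473 (.c 32 (.c 18561 .nil))) .nil) (.I .com (.c 32 (.c 231045293249046473 .nil)) (.r 18561 .nil))))) (.node (.node (.node (.I .jac (.c 4673 (.c 16 (.c 48 .nil))) (.l 12801 (.l 32 .nil))) (.I .ass (.c 32 (.c 13748194865974800073 (.c 18561 .nil))) .nil)) (.node (.I .ass (.c 13748194865974800073 (.c 32 (.c 18561 .nil))) .nil) (.I .com (.c 32 (.c 13748194865974800073 .nil)) (.r 18561 .nil)))) (.node (.node (.I .ass (.c 32 (.c 13748192181200529225 (.c 18561 .nil))) .nil) (.I .ass (.c 13748192181200529225 (.c 32 (.c 18561 .nil))) .nil)) (.node (.I .com (.c 32 (.c 13748192181200529225 .nil)) (.r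 18561 .nil)) (.I .ass (.c 32 (.c 12801 (.c 244149027818380041 .nil))) .nil))))) (.node (.node (.node (.node (.I .ass (.c 12801 (.c 32 (.c 244149027818380041 .nil))) .nil) (.I .com (.c 32 (.c 12801 .nil)) (.r 244149027818380041 .nil))) (.node (.I .com (.c 244149027818380041 (.c 32 .nil)) (.l 12801 .nil)) (.I .ass (.c 32 (.c 12801 (.c 244148312264838153 .nil))) .nil))) (.node (.node (.I .ass (.c 12801 (.c 32 (.c 244148312264838153 .nil))) .nil) (.I .com (.c 32 (.c 12801 .nil)) (.r 244148312264838153 .nil))) (.node (.I .jac (.c 4609 (.c 16 (.c 40 .nil))) (.l 18497 (.l 32 .nil))) (.I .com (.c 231045989336561417 (.c 18497 .nil)) (.l 32 .nil))))) (.node (.node (.node (.I .com (.c 231045467270826953 (.c 18497 .nil)) (.l 32 .nil)) (.I .ass (.c 32 (.c 231046163358603977 (.c 12929 .nil))) .nil)) (.node (.I .com (.c 32 (.c 231046163358603977 .nil)) (.r 12929 .nil)) (.I .ass (.c 32 (.c 231045293249046537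 (.c 12929 .nil))) .nil))) (.node (.node (.I .com (.c 32 (.c 231045293249046537 .nil)) (.r 12929 .nil)) (.I .ass (.c 32 (.c 231045989336561417 (.c 18497 .nil))) .nil)) (.node (.I .ass (.c 231045989336561417 (.c 32 (.c 18497 .nil))) .nil) (.I .com (.c 32 (.c 231045989336561417 .nil)) (.r 18497 .nil))))))))

noncomputable def c5_164 : Tr := (.node (.node (.node (.node (.node (.node (.I .ass (.c 32 (.c 231045467270826953 (.c 18497 .nil))) .nil) (.I .ass (.c 231045467270826953 (.c 32 (.c 18497 .nil))) .nil)) (.node (.I .com (.c 32 (.c 231045467270826953 .nil)) (.r 18497 .nil)) (.I .jac (.c 4673 (.c 16 (.c 40 .nil))) (.l 18433 (.l 32 .nil))))) (.node (.node (.I .ass (.c 32 (.c 59109068451510808265 (.c 12929 .nil))) .nil) (.I .com (.c 32 (.c 59109068451510808265 .nil)) (.r 12929 .nil))) (.node (.I .ass (.c 32 (.c 59109062884628932425 (.c 12929 .nil))) .nil) (.I .com (.c 32 (.c 59109062884628932425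 .nil)) (.r 12929 .nil))))) (.node (.node (.node (.I .ass (.c 32 (.c 18433 (.c 244148848929896201 .nil))) .nil) (.I .ass (.c 18433 (.c 32 (.c 244148848929896201 .nil))) .nil)) (.node (.I .com (.c 32 (.c 18433 .nil)) (.r 244148848929896201 .nil)) (.I .com (.c 244148848929896201 (.c 32 .nil)) (.l 18433 .nil)))) (.node (.node (.I .ass (.c 32 (.c 18433 (.c 244148312264838089 .nil))) .nil) (.I .ass (.c 18433 (.c 32 (.c 244148312264838089 .nil))) .nil)) (.node (.I .com (.c 32 (.c 18433 .nil)) (.r 244148312264838089 .nil)) (.I .jac (.c 4609 (.c 40 (.c 48 .nil))) (.l 2113 (.l 32 .nil))))))) (.node (.node (.node (.node (.I .com (.c 231046163358604233 (.c 2113 .nil)) (.l 32 .nil)) (.I .com (.c 231045989336561673 (.c 2113 .nil)) (.l 32 .nil))) (.node (.I .ass (.c 32 (.c 231046163358604233 (.c 2113 .nil))) .nil) (.I .com (.c 32 (.c 231046163358604233 .nil)) (.r 2113 .nil)))) (.node (.node (.I .ass (.c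 32 (.c 231045989336561673 (.c 2113 .nil))) .nil) (.I .com (.c 32 (.c 231045989336561673 .nil)) (.r 2113 .nil))) (.node (.I .jac (.c 4673 (.c 40 (.c 48 .nil))) (.l 2049 (.l 32 .nil))) (.I .ass (.c 32 (.c 2049 (.c 244149027818380233 .nil))) .nil)))) (.node (.node (.node (.I .ass (.c 2049 (.c 32 (.c 244149027818380233 .nil))) .nil) (.I .com (.c 32 (.c 2049 .nil)) (.r 244149027818380233 .nil))) (.node (.I .ass (.c 32 (.c 2049 (.c 244148848929896457 .nil))) .nil) (.I .ass (.c 2049 (.c 32 (.c 244148848929896457 .nil))) .nil))) (.node (.node (.I .com (.c 32 (.c 2049 .nil)) (.r 244148848929896457 .nil)) (.I .adp (.c 14832759703961737 (.c 12993 (.c 32 .nil))) .nil)) (.node (.I .adp (.c 14832803796618313 (.c 12993 (.c 32 .nil))) .nil) (.I .tdb (.c 0 (.c 24 (.c 48 (.c 16 .nil)))) (.l 12865 (.b 32 .nil)))))))) (.node (.node (.node (.node (.node (.I .com (.c 14832759703961865 (.c 12865 .nil)) (.b 32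 .nil)) (.I .tdb (.c 0 (.c 24 (.c 40 (.c 48 .nil)))) (.l 2113 (.b 32 .nil)))) (.node (.I .com (.c 15456118887244041 (.c 2113 .nil)) (.b 32 .nil)) (.I .adp (.c 15456118887244041 (.c 2113 (.c 32 .nil))) .nil))) (.node (.node (.I .adp (.c 14832759703961865 (.c 12865 (.c 32 .nil))) .nil) (.I .adp (.c 169943369 (.c 43059267 (.c 32 .nil))) .nil)) (.node (.I .adp (.c 169943177 (.c 43954755 (.c 32 .nil))) .nil) (.I .tdb (.c 8 (.c 24 (.c 40 (.c 16 .nil)))) (.b 18433 (.b 32 .nil)))))) (.node (.node (.node (.I .jac (.c 14832759703961737 (.c 24 (.c 40 .nil))) (.l 32 .nil)) (.I .jac (.c 3491688652046473 (.c 24 (.c 48 .nil))) (.l 32 .nil))) (.node (.I .jac (.c 3491710045129801 (.c 24 (.c 48 .nil))) (.l 32 .nil)) (.I .com (.c 3396729512033763431099245905597117501648044234927123676264415715145 (.c 32 .nil)) .nil))) (.node (.node (.I .com (.c 3396574178719779867970206709211286451550259333757571654492376403913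 (.c 32 .nil)) .nil) (.I .com (.c 3396574178719683520950915452811576897542046308636326527870287597577 (.c 32 .nil)) .nil)) (.node (.I .jac (.c 13748192181200529417 (.c 16 (.c 24 .nil))) (.l 32 .nil)) (.I .com (.c 18291662791002283477600599596031379252790986653847845448203672477291949014193929 (.c 32 .nil)) .nil))))) (.node (.node (.node (.node (.I .com (.c 6250089801726996933345600848581934553915599426919390178254450228486076490276017929 (.c 32 .nil)) .nil) (.I .com (.c 18291627070720923377478216906293781420680887699263028954401128148086548458264329 (.c 32 .nil)) .nil)) (.node (.I .com (.c 18291662791002283477600599596031379251242592380627277346513394686278777197589321 (.c 32 .nil)) .nil) (.I .com (.c 6250089801726996933345600848581934553886977551186099025869577461965877542658601801 (.c 32 .nil)) .nil))) (.node (.node (.I .com (.c 18291627070720923377478216906293781419132494937909007101735190318189681765888841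 (.c 32 .nil)) .nil) (.I .jac (.c 59109074018392946377 (.c 16 (.c 24 .nil))) (.l 32 .nil))) (.node (.I .jac (.c 18433 (.c 8 (.c 40 .nil))) (.b 4737 (.l 32 .nil))) (.I .jac (.c 18497 (.c 16 (.c 24 .nil))) (.l 12801 (.l 32 .nil)))))) (.node (.node (.node (.I .ass (.c 32 (.c 13748194865974800137 (.c 18497 .nil))) .nil) (.I .ass (.c 13748194865974800137 (.c 32 (.c 18497 .nil))) .nil)) (.node (.I .com (.c 32 (.c 13748194865974800137 .nil)) (.r 18497 .nil)) (.I .ass (.c 32 (.c 13748193523587631945 (.c 18497 .nil))) .nil))) (.node (.node (.I .ass (.c 13748193523587631945 (.c 32 (.c 18497 .nil))) .nil) (.I .com (.c 32 (.c 13748193523587631945 .nil)) (.r 18497 .nil))) (.node (.I .ass (.c 32 (.c 12801 (.c 59934268409707441929 .nil))) .nil) (.I .ass (.c 12801 (.c 32 (.c 59934268409707441929 .nil))) .nil)))))))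

noncomputable def c5_165 : Tr := (.node (.node (.node (.node (.node (.node (.I .com (.c 32 (.c 12801 .nil)) (.r 59934268409707441929 .nil)) (.I .com (.c 59934268409707441929 (.c 32 .nil)) (.l 12801 .nil))) (.node (.I .ass (.c 32 (.c 12801 (.c 59934265606904515401 .nil))) .nil) (.I .ass (.c 12801 (.c 32 (.c 59934265606904515401 .nil))) .nil))) (.node (.node (.I .com (.c 32 (.c 12801 .nil)) (.r 59934265606904515401 .nil)) (.I .com (.c 59934265606904515401 (.c 32 .nil)) (.l 12801 .nil))) (.node (.I .jac (.c 12865 (.c 16 (.c 24 .nil))) (.l 18433 (.l 32 .nil))) (.I .ass (.c 32 (.c 59109068451510808329 (.c 12865 .nil))) .nil)))) (.node (.node (.node (.I .com (.c 32 (.c 59109068451510808329 .nil)) (.r 12865 .nil)) (.I .ass (.c 32 (.c 59109065668069837641 (.c 12865 .nil))) .nil)) (.node (.I .com (.c 32 (.c 59109065668069837641 .nil)) (.r 12865 .nil)) (.I .ass (.c 32 (.c 18433 (.c 14025206030552608521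 .nil))) .nil))) (.node (.node (.I .ass (.c 18433 (.c 32 (.c 14025206030552608521 .nil))) .nil) (.I .com (.c 32 (.c 18433 .nil)) (.r 14025206030552608521 .nil))) (.node (.I .com (.c 14025206030552608521 (.c 32 .nil)) (.l 18433 .nil)) (.I .ass (.c 32 (.c 18433 (.c 14025204674709064521 .nil))) .nil))))) (.node (.node (.node (.node (.I .ass (.c 18433 (.c 32 (.c 14025204674709064521 .nil))) .nil) (.I .com (.c 32 (.c 18433 .nil)) (.r 14025204674709064521 .nil))) (.node (.I .com (.c 14025204674709064521 (.c 32 .nil)) (.l 18433 .nil)) (.I .tdb (.c 0 (.c 16 (.c 40 (.c 8 .nil)))) (.b 18625 (.b 32 .nil))))) (.node (.node (.I .adp (.c 14629225721520329 (.c 12993 (.c 32 .nil))) .nil) (.I .adp (.c 33587273 (.c 43954883 (.c 32 .nil))) .nil)) (.node (.I .tdb (.c 0 (.c 24 (.c 48 (.c 8 .nil)))) (.b 12929 (.b 32 .nil))) (.I .tdb (.c 0 (.c 40 (.c 8 (.c 48 .nil)))) (.b 4737 (.b 32 .nil)))))) (.node (.node (.node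 (.I .jac (.c 14629225721520329 (.c 24 (.c 40 .nil))) (.l 32 .nil)) (.I .jac (.c 3423058053193929 (.c 24 (.c 48 .nil))) (.l 32 .nil))) (.node (.I .tdb (.c 8 (.c 24 (.c 40 (.c 0 .nil)))) (.b 18561 (.b 32 .nil))) (.I .jac (.c 2718204233 (.c 8 (.c 24 .nil))) (.b 16 (.l 32 .nil))))) (.node (.node (.I .jac (.c 2718204233 (.c 2113 (.c 24 .nil))) (.l 32 .nil)) (.I .jac (.c 1310925193 (.c 2113 (.c 24 .nil))) (.l 32 .nil))) (.node (.I .jac (.c 1310925193 (.c 8 (.c 16 .nil))) (.b 24 (.l 32 .nil))) (.I .ass (.c 32 (.c 4609 (.c 59934274015313491721 .nil))) .nil)))))) (.node (.node (.node (.node (.node (.I .ass (.c 4609 (.c 32 (.c 59934274015313491721 .nil))) .nil) (.I .com (.c 32 (.c 4609 .nil)) (.r 59934274015313491721 .nil))) (.node (.I .com (.c 59934274015313491721 (.c 32 .nil)) (.l 4609 .nil)) (.I .ass (.c 32 (.c 4609 (.c 14025210098083633929 .nil))) .nil))) (.node (.node (.I .ass (.c 4609 (.c 32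 (.c 14025210098083633929 .nil))) .nil) (.I .com (.c 32 (.c 4609 .nil)) (.r 14025210098083633929 .nil))) (.node (.I .com (.c 14025210098083633929 (.c 32 .nil)) (.l 4609 .nil)) (.I .ass (.c 32 (.c 2049 (.c 59934274015313491785 .nil))) .nil)))) (.node (.node (.node (.I .ass (.c 2049 (.c 32 (.c 59934274015313491785 .nil))) .nil) (.I .com (.c 32 (.c 2049 .nil)) (.r 59934274015313491785 .nil))) (.node (.I .com (.c 59934274015313491785 (.c 32 .nil)) (.l 2049 .nil)) (.I .ass (.c 32 (.c 2049 (.c 14025210098083633993 .nil))) .nil))) (.node (.node (.I .ass (.c 2049 (.c 32 (.c 14025210098083633993 .nil))) .nil) (.I .com (.c 32 (.c 2049 .nil)) (.r 14025210098083633993 .nil))) (.node (.I .com (.c 14025210098083633993 (.c 32 .nil)) (.l 2049 .nil)) (.I .com (.c 13748198893136698121 (.c 4673 .nil)) (.l 32 .nil)))))) (.node (.node (.node (.node (.I .com (.c 13748198893136698185 (.c 2113 .nil)) (.l 32 .nil))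 (.I .com (.c 59109074018392946441 (.c 4673 .nil)) (.l 32 .nil))) (.node (.I .com (.c 59109074018392946505 (.c 2113 .nil)) (.l 32 .nil)) (.I .ass (.c 32 (.c 59109074018392946505 (.c 2113 .nil))) .nil))) (.node (.node (.I .com (.c 32 (.c 59109074018392946505 .nil)) (.r 2113 .nil)) (.I .ass (.c 32 (.c 13748198893136698185 (.c 2113 .nil))) .nil)) (.node (.I .com (.c 32 (.c 13748198893136698185 .nil)) (.r 2113 .nil)) (.I .ass (.c 32 (.c 59109074018392946441 (.c 4673 .nil))) .nil)))) (.node (.node (.node (.I .com (.c 32 (.c 59109074018392946441 .nil)) (.r 4673 .nil)) (.I .ass (.c 32 (.c 13748198893136698121 (.c 4673 .nil))) .nil)) (.node (.I .com (.c 32 (.c 13748198893136698121 .nil)) (.r 4673 .nil)) (.I .com (.c 62886542410185 (.c 12865 .nil)) (.b 32 .nil)))) (.node (.node (.I .adp (.c 62886542410185 (.c 12865 (.c 32 .nil))) .nil) (.I .tdb (.c 0 (.c 48 (.c 16 (.c 40 .nil)))) (.l 4673 (.b 32 .nil))))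 (.node (.I .com (.c 3491688652046793 (.c 4673 .nil)) (.b 32 .nil)) (.I .tdb (.c 0 (.c 48 (.c 24 (.c 40 .nil)))) (.l 2113 (.b 32 .nil)))))))))

noncomputable def c5_166 : Tr := (.node (.node (.node (.node (.node (.node (.I .com (.c 3561346121425353 (.c 2113 .nil)) (.b 32 .nil)) (.I .tdb (.c 0 (.c 40 (.c 16 (.c 48 .nil)))) (.l 4673 (.b 32 .nil)))) (.node (.I .com (.c 14832759703961993 (.c 4673 .nil)) (.b 32 .nil)) (.I .adp (.c 3561346121425353 (.c 2113 (.c 32 .nil))) .nil))) (.node (.node (.I .adp (.c 14832759703961993 (.c 4673 (.c 32 .nil))) .nil) (.I .adp (.c 3491688652046793 (.c 4673 (.c 32 .nil))) .nil)) (.node (.I .jac (.c 231045293249046473 (.c 16 (.c 48 .nil))) (.l 32 .nil)) (.I .jac (.c 12865 (.c 16 (.c 48 .nil))) (.l 4609 (.l 32 .nil)))))) (.node (.node (.node (.I .jac (.c 18497 (.c 16 (.c 40 .nil))) (.l 4609 (.l 32 .nil))) (.I .ass (.c 32 (.c 513 (.c 60768084239834527561 .nil)))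 .nil)) (.node (.I .ass (.c 513 (.c 32 (.c 60768084239834527561 .nil))) .nil) (.I .com (.c 32 (.c 513 .nil)) (.r 60768084239834527561 .nil)))) (.node (.node (.I .com (.c 60768084239834527561 (.c 32 .nil)) (.l 513 .nil)) (.I .ass (.c 32 (.c 513 (.c 14306386471475043145 .nil))) .nil)) (.node (.I .ass (.c 513 (.c 32 (.c 14306386471475043145 .nil))) .nil) (.I .com (.c 32 (.c 513 .nil)) (.r 14306386471475043145 .nil)))))) (.node (.node (.node (.node (.I .com (.c 14306386471475043145 (.c 32 .nil)) (.l 513 .nil)) (.I .ass (.c 32 (.c 59109074018392946377 (.c 4737 .nil))) .nil)) (.node (.I .com (.c 32 (.c 59109074018392946377 .nil)) (.r 4737 .nil)) (.I .ass (.c 32 (.c 13748198893136698057 (.c 4737 .nil))) .nil))) (.node (.node (.I .com (.c 32 (.c 13748198893136698057 .nil)) (.r 4737 .nil)) (.I .com (.c 231045293249046473 (.c 18561 .nil)) (.l 32 .nil))) (.node (.I .com (.c 231045293249046537 (.c 12929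 .nil)) (.l 32 .nil)) (.I .adp (.c 14629225721520521 (.c 4737 (.c 32 .nil))) .nil)))) (.node (.node (.node (.I .jac (.c 9024839260612617 (.c 24 (.c 40 .nil))) (.l 32 .nil)) (.I .jac (.c 35464401931273 (.c 24 (.c 40 .nil))) (.l 32 .nil))) (.node (.I .jac (.c 2105481 (.c 24 (.c 48 .nil))) (.b 40 (.l 32 .nil))) (.I .jac (.c 2487083360713 (.c 24 (.c 40 .nil))) (.l 32 .nil)))) (.node (.node (.I .jac (.c 2487083360649 (.c 24 (.c 48 .nil))) (.l 32 .nil)) (.I .jac (.c 12865 (.c 24 (.c 48 .nil))) (.l 2049 (.l 32 .nil)))) (.node (.I .jac (.c 12929 (.c 24 (.c 48 .nil))) (.l 513 (.l 32 .nil))) (.I .jac (.c 18497 (.c 24 (.c 40 .nil))) (.l 2049 (.l 32 .nil)))))))) (.node (.node (.node (.node (.node (.I .jac (.c 18561 (.c 24 (.c 40 .nil))) (.l 513 (.l 32 .nil))) (.I .com (.c 9024839260612553 (.c 18625 .nil)) (.l 32 .nil))) (.node (.I .com (.c 35464401931209 (.c 18625 .nil)) (.l 32 .nil)) (.I .com (.c 9024839260612617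 (.c 12993 .nil)) (.l 32 .nil)))) (.node (.node (.I .com (.c 35464401931273 (.c 12993 .nil)) (.l 32 .nil)) (.I .com (.c 2487083360713 (.c 12993 .nil)) (.b 32 .nil))) (.node (.I .adp (.c 2487083360713 (.c 12993 (.c 32 .nil))) .nil) (.I .com (.c 810705155088097029465566018346226871031782145051381028809 (.c 32 .nil)) .nil)))) (.node (.node (.node (.I .jac (.c 1310925001 (.c 2113 (.c 48 .nil))) (.l 32 .nil)) (.I .jac (.c 1310925001 (.c 8 (.c 16 .nil))) (.b 48 (.l 32 .nil)))) (.node (.I .jac (.c 1310924937 (.c 8 (.c 48 .nil))) (.b 24 (.l 32 .nil))) (.I .jac (.c 1310924937 (.c 4673 (.c 48 .nil))) (.l 32 .nil)))) (.node (.node (.I .jac (.c 12801 (.c 174695817 (.c 16 .nil))) (.l 32 .nil)) (.I .jac (.c 12801 (.c 4673 (.c 48 .nil))) (.b 16 (.l 32 .nil)))) (.node (.I .jac (.c 12801 (.c 8 (.c 24 .nil))) (.b 48 (.b 16 (.l 32 .nil)))) (.I .jac (.c 12801 (.c 8 (.c 16 .nil))) (.b 48 (.b 24 (.l 32 .nil))))))))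 (.node (.node (.node (.node (.I .com (.c 18291641358826142434079840242291290436082640233389264807381943222108356958307017 (.c 32 .nil)) .nil) (.I .com (.c 18291627070720922355673356662700498568884113625775573273225141993518842279985929 (.c 32 .nil)) .nil)) (.node (.I .com (.c 18291627070720922015071736581502747130061921932369122304897278171320112268264265 (.c 32 .nil)) .nil) (.I .com (.c 18291627070720922355673356662700498562690542580359486035553683049065690309653513 (.c 32 .nil)) .nil))) (.node (.node (.I .jac (.c 59109065668069837641 (.c 8 (.c 40 .nil))) (.l 32 .nil)) (.I .com (.c 3396729512033956131747053835155610544263080059411058771247959986121 (.c 32 .nil)) .nil)) (.node (.I .com (.c 810705155093947686715548527861899296537208032040546530249 (.c 32 .nil)) .nil) (.I .jac (.c 13748193523587631945 (.c 8 (.c 48 .nil))) (.l 32 .nil))))) (.node (.node (.node (.I .jac (.c 1310924937 (.c 18497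 (.c 24 .nil))) (.l 32 .nil)) (.I .jac (.c 1310924937 (.c 8 (.c 24 .nil))) (.b 48 (.l 32 .nil)))) (.node (.I .jac (.c 12801 (.c 2737112265 (.c 16 .nil))) (.l 32 .nil)) (.I .jac (.c 12801 (.c 18497 (.c 24 .nil))) (.b 16 (.l 32 .nil))))) (.node (.node (.I .jac (.c 12801 (.c 8 (.c 48 .nil))) (.b 24 (.b 16 (.l 32 .nil)))) (.I .jac (.c 12801 (.c 8 (.c 16 .nil))) (.b 24 (.b 48 (.l 32 .nil))))) (.node (.I .com (.c 18291627070720922015071736581502747125416743648307056919891757056763826587654153 (.c 32 .nil)) .nil) (.I .com (.c 6250092156257071104120887622819292512244039279254712318694820320574562873285648073 (.c 32 .nil)) .nil)))))))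

noncomputable def c5_167 : Tr := (.node (.node (.node (.node (.node (.node (.I .com (.c 6250092156257071104120887622819292512129551754756718087759443145001035091180064713 (.c 32 .nil)) .nil) (.I .jac (.c 12801 (.c 16 (.c 48 .nil))) (.l 4673 (.l 32 .nil)))) (.node (.I .com (.c 13748193523587632137 (.c 4673 .nil)) (.l 32 .nil)) (.I .ass (.c 32 (.c 13748193523587632137 (.c 4673 .nil))) .nil))) (.node (.node (.I .com (.c 32 (.c 13748193523587632137 .nil)) (.r 4673 .nil)) (.I .ass (.c 32 (.c 4609 (.c 14025204674709064713 .nil))) .nil)) (.node (.I .ass (.c 4609 (.c 32 (.c 14025204674709064713 .nil))) .nil) (.I .com (.c 32 (.c 4609 .nil)) (.r 14025204674709064713 .nil))))) (.node (.node (.node (.I .jac (.c 12801 (.c 16 (.c 24 .nil))) (.l 18497 (.l 32 .nil))) (.I .com (.c 13748194865974800137 (.c 18497 .nil)) (.l 32 .nil))) (.node (.I .com (.c 13748193523587631945 (.c 18497 .nil)) (.l 32 .nil))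 (.I .ass (.c 32 (.c 13748192181200529417 (.c 4737 .nil))) .nil))) (.node (.node (.I .com (.c 32 (.c 13748192181200529417 .nil)) (.r 4737 .nil)) (.I .ass (.c 32 (.c 59109062884628932553 (.c 4737 .nil))) .nil)) (.node (.I .com (.c 32 (.c 59109062884628932553 .nil)) (.r 4737 .nil)) (.I .jac (.c 12801 (.c 24 (.c 48 .nil))) (.l 2113 (.l 32 .nil))))))) (.node (.node (.node (.node (.I .com (.c 13748194865974800393 (.c 2113 .nil)) (.l 32 .nil)) (.I .ass (.c 32 (.c 13748194865974800393 (.c 2113 .nil))) .nil)) (.node (.I .com (.c 32 (.c 13748194865974800393 .nil)) (.r 2113 .nil)) (.I .ass (.c 32 (.c 2049 (.c 14025206030552608777 .nil))) .nil))) (.node (.node (.I .ass (.c 2049 (.c 32 (.c 14025206030552608777 .nil))) .nil) (.I .com (.c 32 (.c 2049 .nil)) (.r 14025206030552608777 .nil))) (.node (.I .tdb (.c 0 (.c 8 (.c 16 (.c 24 .nil)))) (.l 18753 (.b 32 .nil))) (.I .com (.c 62886542409865 (.c 18753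 .nil)) (.b 32 .nil))))) (.node (.node (.node (.I .com (.c 62889413446729 (.c 18753 .nil)) (.b 32 .nil)) (.I .adp (.c 62886542409865 (.c 18753 (.c 32 .nil))) .nil)) (.node (.I .adp (.c 62889413446729 (.c 18753 (.c 32 .nil))) .nil) (.I .adp (.c 1310924937 (.c 43356739 (.c 32 .nil))) .nil))) (.node (.node (.I .com (.c 3396729512033763431099245905595783011287492628034489438249630898121 (.c 32 .nil)) .nil) (.I .com (.c 18291641358826142093478020620972318827415861510426971176696968884913148064498441 (.c 32 .nil)) .nil)) (.node (.I .jac (.c 59109062884628932425 (.c 16 (.c 40 .nil))) (.l 32 .nil)) (.I .jac (.c 4609 (.c 8 (.c 48 .nil))) (.b 12929 (.l 32 .nil)))))))) (.node (.node (.node (.node (.node (.I .jac (.c 0 (.c 18497 (.c 24 .nil))) (.b 12929 (.l 32 .nil))) (.I .jac (.c 0 (.c 8 (.c 48 .nil))) (.b 24 (.b 12929 (.l 32 .nil))))) (.node (.I .com (.c 6250089801726996879207608765537404554630176383143787888342765416259476986847944457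 (.c 32 .nil)) .nil) (.I .com (.c 6250089801726996879207608765537404554544310755943914431560029185038756149077013449 (.c 32 .nil)) .nil))) (.node (.node (.I .jac (.c 59109068451510808265 (.c 16 (.c 40 .nil))) (.l 32 .nil)) (.I .jac (.c 18433 (.c 8 (.c 24 .nil))) (.b 12929 (.l 32 .nil)))) (.node (.I .jac (.c 0 (.c 4673 (.c 48 .nil))) (.b 12929 (.l 32 .nil))) (.I .jac (.c 0 (.c 8 (.c 24 .nil))) (.b 48 (.b 12929 (.l 32 .nil))))))) (.node (.node (.node (.I .com (.c 6250092156257071077051883933235446197637335784746741053747322710812860632293269257 (.c 32 .nil)) .nil) (.I .com (.c 6250092156257071077051883933235446197551470141373245380731730880814548987676488649 (.c 32 .nil)) .nil)) (.node (.I .ass (.c 32 (.c 4609 (.c 59934265606904515529 .nil))) .nil) (.I .ass (.c 4609 (.c 32 (.c 59934265606904515529 .nil))) .nil))) (.node (.node (.I .com (.c 32 (.c 4609 .nil)) (.r 59934265606904515529 .nil))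 (.I .ass (.c 32 (.c 59109065668069837769 (.c 4673 .nil))) .nil)) (.node (.I .com (.c 32 (.c 59109065668069837769 .nil)) (.r 4673 .nil)) (.I .ass (.c 32 (.c 513 (.c 14306382363373563913 .nil))) .nil))))) (.node (.node (.node (.node (.I .ass (.c 513 (.c 32 (.c 14306382363373563913 .nil))) .nil) (.I .com (.c 32 (.c 513 .nil)) (.r 14306382363373563913 .nil))) (.node (.I .adp (.c 1310924873 (.c 43356803 (.c 32 .nil))) .nil) (.I .jac (.c 2718204105 (.c 8 (.c 40 .nil))) (.b 16 (.l 32 .nil))))) (.node (.node (.I .ass (.c 32 (.c 2049 (.c 59934268409707442121 .nil))) .nil) (.I .ass (.c 2049 (.c 32 (.c 59934268409707442121 .nil))) .nil)) (.node (.I .com (.c 32 (.c 2049 .nil)) (.r 59934268409707442121 .nil)) (.I .com (.c 59109068451510808329 (.c 12865 .nil)) (.l 32 .nil))))) (.node (.node (.node (.I .com (.c 59109068451510808521 (.c 2113 .nil)) (.l 32 .nil)) (.I .ass (.c 32 (.c 59109068451510808521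 (.c 2113 .nil))) .nil)) (.node (.I .com (.c 32 (.c 59109068451510808521 .nil)) (.r 2113 .nil)) (.I .tdb (.c 0 (.c 48 (.c 16 (.c 24 .nil)))) (.l 12865 (.b 32 .nil))))) (.node (.node (.I .jac (.c 13748192181200529225 (.c 16 (.c 48 .nil))) (.l 32 .nil)) (.I .ass (.c 32 (.c 513 (.c 60768078595370348489 .nil))) .nil)) (.node (.I .ass (.c 513 (.c 32 (.c 60768078595370348489 .nil))) .nil) (.I .com (.c 32 (.c 513 .nil)) (.r 60768078595370348489 .nil))))))))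

noncomputable def c5_168 : Tr := (.node (.node (.node (.node (.node (.node (.I .com (.c 13748192181200529225 (.c 18561 .nil)) (.l 32 .nil)) (.I .com (.c 13748192181200529417 (.c 4737 .nil)) (.l 32 .nil))) (.node (.I .com (.c 18291641358826142434079840242291290428340673402886727480717868846240136796377097 (.c 32 .nil)) .nil) (.I .jac (.c 9025011228269257 (.c 24 (.c 40 .nil))) (.l 32 .nil)))) (.node (.node (.I .jac (.c 35473026505481 (.c 24 (.c 40 .nil))) (.l 32 .nil)) (.I .jac (.c 2049 (.c 8 (.c 48 .nil))) (.b 12993 (.l 32 .nil)))) (.node (.I .com (.c 6250089801726996852138612724015139686848446364528325304486710893661442378207698761 (.c 32 .nil)) .nil) (.I .com (.c 6250089801726996852138612724015139686791202613061743000088847428960920487852857289 (.c 32 .nil)) .nil)))) (.node (.node (.node (.I .com (.c 18291641358826142093478020620972318821222288046024941373029818103356139914425353 (.c 32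 .nil)) .nil) (.I .jac (.c 59109065668069837513 (.c 24 (.c 40 .nil))) (.l 32 .nil))) (.node (.I .jac (.c 18433 (.c 8 (.c 16 .nil))) (.b 12993 (.l 32 .nil))) (.I .tdb (.c 0 (.c 48 (.c 8 (.c 16 .nil)))) (.b 12993 (.b 32 .nil))))) (.node (.node (.I .jac (.c 2718204041 (.c 12865 (.c 24 .nil))) (.l 32 .nil)) (.I .com (.c 59109065668069837641 (.c 12865 .nil)) (.l 32 .nil))) (.node (.I .com (.c 59109065668069837769 (.c 4673 .nil)) (.l 32 .nil)) (.I .jac (.c 513 (.c 16 (.c 48 .nil))) (.b 12993 (.b 32 .nil))))))) (.node (.node (.node (.node (.I .tdb (.c 24 (.c 40 (.c 0 (.c 8 .nil)))) (.b 18561 (.b 32 .nil))) (.I .com (.c 59109062884628932425 (.c 12929 .nil)) (.l 32 .nil))) (.node (.I .com (.c 59109062884628932553 (.c 4737 .nil)) (.l 32 .nil)) (.I .com (.c 14629225721520521 (.c 4737 .nil)) (.b 32 .nil)))) (.node (.node (.I .jac (.c 18433 (.c 8 (.c 24 .nil))) (.b 40 (.b 16 (.l 32 .nil)))) (.I .jac (.c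 18433 (.c 1324065929 (.c 24 .nil))) (.l 32 .nil))) (.node (.I .jac (.c 18433 (.c 12865 (.c 16 .nil))) (.b 24 (.l 32 .nil))) (.I .jac (.c 18433 (.c 8 (.c 40 .nil))) (.b 16 (.b 24 (.l 32 .nil))))))) (.node (.node (.node (.I .jac (.c 18433 (.c 35718473 (.c 24 .nil))) (.l 32 .nil)) (.I .jac (.c 18433 (.c 2113 (.c 40 .nil))) (.b 24 (.l 32 .nil)))) (.node (.I .jac (.c 18433 (.c 8 (.c 16 .nil))) (.b 40 (.b 24 (.l 32 .nil)))) (.I .jac (.c 18433 (.c 8 (.c 16 .nil))) (.b 24 (.b 40 (.l 32 .nil)))))) (.node (.node (.I .jac (.c 18433 (.c 16 (.c 40 .nil))) (.l 4673 (.l 32 .nil))) (.I .jac (.c 18433 (.c 16 (.c 24 .nil))) (.l 12865 (.l 32 .nil)))) (.node (.I .jac (.c 18433 (.c 24 (.c 40 .nil))) (.l 2113 (.l 32 .nil))) (.I .adp (.c 2718204041 (.c 21099075 (.c 32 .nil))) .nil)))))) (.node (.node (.node (.node (.node (.I .jac (.c 4609 (.c 8 (.c 40 .nil))) (.b 18561 (.b 32 .nil))) (.I .jac (.c 231045989336561353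 (.c 16 (.c 48 .nil))) (.l 32 .nil))) (.node (.I .jac (.c 4609 (.c 8 (.c 40 .nil))) (.b 18561 (.l 32 .nil))) (.I .jac (.c 12801 (.c 8 (.c 24 .nil))) (.b 18561 (.b 32 .nil))))) (.node (.node (.I .adp (.c 2718203977 (.c 21099139 (.c 32 .nil))) .nil) (.I .jac (.c 0 (.c 12865 (.c 16 .nil))) (.b 18625 (.b 32 .nil)))) (.node (.I .jac (.c 0 (.c 8 (.c 40 .nil))) (.b 16 (.b 18625 (.b 32 .nil)))) (.I .jac (.c 9024976834606793 (.c 24 (.c 48 .nil))) (.l 32 .nil))))) (.node (.node (.node (.I .jac (.c 35470870263561 (.c 24 (.c 48 .nil))) (.l 32 .nil)) (.I .jac (.c 2049 (.c 8 (.c 40 .nil))) (.b 18625 (.l 32 .nil)))) (.node (.I .jac (.c 0 (.c 12865 (.c 16 .nil))) (.b 18625 (.l 32 .nil))) (.I .jac (.c 0 (.c 8 (.c 40 .nil))) (.b 16 (.b 18625 (.l 32 .nil)))))) (.node (.node (.I .jac (.c 12801 (.c 8 (.c 16 .nil))) (.b 18625 (.b 32 .nil))) (.I .jac (.c 0 (.c 2113 (.c 40 .nil))) (.b 18625 (.b 32 .nil)))) (.node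 (.I .jac (.c 0 (.c 8 (.c 16 .nil))) (.b 40 (.b 18625 (.b 32 .nil)))) (.I .jac (.c 0 (.c 2113 (.c 40 .nil))) (.b 18625 (.l 32 .nil))))))) (.node (.node (.node (.node (.I .jac (.c 0 (.c 8 (.c 16 .nil))) (.b 40 (.b 18625 (.l 32 .nil)))) (.I .tdb (.c 0 (.c 48 (.c 8 (.c 16 .nil)))) (.l 12993 (.b 32 .nil)))) (.node (.I .com (.c 14832803796618313 (.c 12993 .nil)) (.b 32 .nil)) (.I .com (.c 14832759703961737 (.c 12993 .nil)) (.b 32 .nil)))) (.node (.node (.I .com (.c 14629225721520329 (.c 12993 .nil)) (.b 32 .nil)) (.I .jac (.c 9024908047478473 (.c 40 (.c 48 .nil))) (.b 32 .nil))) (.node (.I .jac (.c 35466557976329 (.c 40 (.c 48 .nil))) (.b 32 .nil)) (.I .jac (.c 9024839260612425 (.c 40 (.c 48 .nil))) (.b 32 .nil))))) (.node (.node (.node (.I .jac (.c 0 (.c 4673 (.c 16 .nil))) (.b 18753 (.b 32 .nil))) (.I .jac (.c 0 (.c 8 (.c 24 .nil))) (.b 16 (.b 18753 (.b 32 .nil))))) (.node (.I .jac (.c 2049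 (.c 8 (.c 24 .nil))) (.b 18753 (.l 32 .nil))) (.I .jac (.c 35464401931081 (.c 40 (.c 48 .nil))) (.b 32 .nil)))) (.node (.node (.I .jac (.c 4609 (.c 8 (.c 16 .nil))) (.b 18753 (.l 32 .nil))) (.I .jac (.c 62889413446729 (.c 40 (.c 48 .nil))) (.b 32 .nil))) (.node (.I .jac (.c 2487083360521 (.c 40 (.c 48 .nil))) (.b 32 .nil)) (.I .jac (.c 59555558875337 (.c 40 (.c 48 .nil))) (.b 32 .nil))))))))

noncomputable def c5_169 : Tr := (.node (.node (.node (.node (.node (.node (.I .jac (.c 8 (.c 16 (.c 48 .nil))) (.b 12993 (.l 8193 .nil))) (.I .adp (.c 24 (.c 40 (.c 48 .nil))) (.b 2113 (.l 8193 .nil)))) (.node (.I .adp (.c 24 (.c 40 (.c 8 .nil))) (.b 18561 (.l 8193 .nil))) (.I .com (.c 12865 (.c 24 .nil)) (.b 18561 (.l 8193 .nil))))) (.node (.node (.I .adp (.c 24 (.c 40 (.c 16 .nil))) (.b 18497 (.l 8193 .nil))) (.I .com (.c 12929 (.c 24 .nil)) (.b 18497 (.l 8193 .nil)))) (.node (.I .adp (.c 16 (.c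 40 (.c 48 .nil))) (.b 4673 (.l 8193 .nil))) (.I .adp (.c 16 (.c 40 (.c 8 .nil))) (.b 18625 (.l 8193 .nil)))))) (.node (.node (.node (.I .com (.c 12865 (.c 16 .nil)) (.b 18625 (.l 8193 .nil))) (.I .adp (.c 16 (.c 40 (.c 24 .nil))) (.b 18497 (.l 8193 .nil)))) (.node (.I .adp (.c 8 (.c 40 (.c 48 .nil))) (.b 4737 (.l 8193 .nil))) (.I .adp (.c 8 (.c 40 (.c 16 .nil))) (.b 18625 (.l 8193 .nil))))) (.node (.node (.I .adp (.c 8 (.c 40 (.c 24 .nil))) (.b 18561 (.l 8193 .nil))) (.I .jac (.c 8 (.c 16 (.c 24 .nil))) (.b 18753 (.l 8193 .nil)))) (.node (.I .adp (.c 16 (.c 24 (.c 8 .nil))) (.b 18753 (.l 8193 .nil))) (.I .com (.c 4673 (.c 16 .nil)) (.b 18753 (.l 8193 .nil))))))) (.node (.node (.node (.node (.I .adp (.c 16 (.c 24 (.c 48 .nil))) (.b 12865 (.l 8193 .nil))) (.I .adp (.c 16 (.c 24 (.c 40 .nil))) (.b 18497 (.l 8193 .nil)))) (.node (.I .adp (.c 8 (.c 24 (.c 16 .nil))) (.b 18753 (.l 8193 .nil)))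 (.I .adp (.c 8 (.c 24 (.c 48 .nil))) (.b 12929 (.l 8193 .nil))))) (.node (.node (.I .adp (.c 8 (.c 24 (.c 40 .nil))) (.b 18561 (.l 8193 .nil))) (.I .adp (.c 8 (.c 16 (.c 24 .nil))) (.b 18753 (.l 8193 .nil)))) (.node (.I .adp (.c 8 (.c 16 (.c 40 .nil))) (.b 18625 (.l 8193 .nil))) (.I .adp (.c 8 (.c 16 (.c 48 .nil))) (.b 12993 (.l 8193 .nil)))))) (.node (.node (.node (.I .jac (.c 33587593 (.c 24 (.c 40 .nil))) (.b 8 (.b 32 .nil))) (.I .jac (.c 33587529 (.c 24 (.c 48 .nil))) (.b 8 (.b 32 .nil)))) (.node (.I .jac (.c 2049 (.c 24 (.c 48 .nil))) (.b 40 (.b 8 (.b 32 .nil)))) (.I .jac (.c 4609 (.c 16 (.c 48 .nil))) (.b 40 (.b 8 (.b 32 .nil)))))) (.node (.node (.I .jac (.c 33587593 (.c 24 (.c 40 .nil))) (.b 8 (.l 32 .nil))) (.I .jac (.c 33587529 (.c 24 (.c 48 .nil))) (.b 8 (.l 32 .nil)))) (.node (.I .jac (.c 2049 (.c 24 (.c 40 .nil))) (.b 48 (.b 8 (.l 32 .nil)))) (.I .jac (.c 169943433 (.c 16 (.c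 40 .nil))) (.b 8 (.l 32 .nil)))))))) (.node (.node (.node (.node (.node (.I .jac (.c 169943369 (.c 16 (.c 48 .nil))) (.b 8 (.l 32 .nil))) (.I .jac (.c 4609 (.c 16 (.c 40 .nil))) (.b 48 (.b 8 (.l 32 .nil))))) (.node (.I .jac (.c 2718204233 (.c 16 (.c 24 .nil))) (.b 8 (.l 32 .nil))) (.I .tdb (.c 0 (.c 48 (.c 16 (.c 40 .nil)))) (.b 24 (.t 8 32 .nil))))) (.node (.node (.I .jac (.c 12801 (.c 16 (.c 48 .nil))) (.b 24 (.b 8 (.l 32 .nil)))) (.I .jac (.c 12801 (.c 16 (.c 24 .nil))) (.b 48 (.b 8 (.l 32 .nil))))) (.node (.I .jac (.c 2718204105 (.c 16 (.c 40 .nil))) (.b 8 (.l 32 .nil))) (.I .tdb (.c 0 (.c 48 (.c 16 (.c 24 .nil)))) (.b 40 (.t 8 32 .nil)))))) (.node (.node (.node (.I .jac (.c 0 (.c 16 (.c 48 .nil))) (.b 12993 (.b 32 (.l 8 .nil)))) (.I .jac (.c 2718204041 (.c 24 (.c 40 .nil))) (.b 8 (.l 32 .nil)))) (.node (.I .jac (.c 18433 (.c 16 (.c 24 .nil))) (.b 40 (.b 8 (.b 32 .nil)))) (.I .jac (.c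 18433 (.c 16 (.c 40 .nil))) (.b 24 (.b 8 (.l 32 .nil)))))) (.node (.node (.I .jac (.c 33587401 (.c 40 (.c 48 .nil))) (.b 32 (.b 8 .nil))) (.I .jac (.c 0 (.c 16 (.c 24 .nil))) (.b 18753 (.b 32 (.b 8 .nil))))) (.node (.I .jac (.c 33587401 (.c 40 (.c 48 .nil))) (.b 32 (.l 8 .nil))) (.I .jac (.c 33587401 (.c 40 (.c 48 .nil))) (.b 8 (.b 32 .nil))))))) (.node (.node (.node (.node (.I .jac (.c 169943177 (.c 40 (.c 48 .nil))) (.b 8 (.l 32 .nil))) (.I .jac (.c 33587401 (.c 40 (.c 48 .nil))) (.b 8 (.l 32 .nil)))) (.node (.I .jac (.c 2803715 (.c 40 (.c 48 .nil))) (.b 8 (.b 32 .nil))) (.I .jac (.c 4609 (.c 18497 (.c 40 .nil))) (.l 8321 .nil)))) (.node (.node (.I .jac (.c 4609 (.c 8 (.c 40 .nil))) (.b 48 (.l 8321 .nil))) (.I .jac (.c 2718204233 (.c 8 (.c 24 .nil))) (.l 8321 .nil))) (.node (.I .com (.c 27951061050494848579379785769086333720265 (.c 8321 .nil)) .nil) (.I .jac (.c 513 (.c 24 (.c 40 .nil)))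 (.b 48 (.b 16 (.b 32 .nil))))))) (.node (.node (.node (.I .jac (.c 513 (.c 24 (.c 48 .nil))) (.b 40 (.b 16 (.l 32 .nil)))) (.I .ass (.c 8321 (.c 231046163358603977 (.c 40 .nil))) .nil)) (.node (.I .com (.c 8321 (.c 231046163358603977 .nil)) (.r 40 .nil)) (.I .tdb (.c 0 (.c 40 (.c 8 (.c 48 .nil)))) (.b 24 (.l 8321 .nil))))) (.node (.node (.I .ass (.c 8321 (.c 59109068451510808265 (.c 40 .nil))) .nil) (.I .com (.c 8321 (.c 59109068451510808265 .nil)) (.r 40 .nil))) (.node (.I .com (.c 231045989336561353 (.c 43655299 .nil)) .nil) (.I .com (.c 59109068451510808265 (.c 21307523 .nil)) .nil)))))))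

noncomputable def c5_170 : Tr := (.node (.node (.node (.node (.node (.node (.I .com (.c 13748194865974800073 (.c 43655299 .nil)) .nil) (.I .jac (.c 1310925001 (.c 8 (.c 48 .nil))) (.l 8321 .nil))) (.node (.I .jac (.c 12801 (.c 18497 (.c 24 .nil))) (.l 8321 .nil)) (.I .jac (.c 12801 (.c 4673 (.c 48 .nil))) (.l 8321 .nil)))) (.node (.node (.I .com (.c 1512102896582526877926683197569543635657 (.c 8321 .nil)) .nil) (.I .com (.c 1310925001 (.c 18497 .nil)) (.l 8321 .nil))) (.node (.I .ass (.c 8321 (.c 13748198893136698057 (.c 24 .nil))) .nil) (.I .com (.c 8321 (.c 13748198893136698057 .nil)) (.r 24 .nil))))) (.node (.node (.node (.I .ass (.c 8321 (.c 59109074018392946377 (.c 24 .nil))) .nil) (.I .com (.c 8321 (.c 59109074018392946377 .nil)) (.r 24 .nil))) (.node (.I .jac (.c 0 (.c 8 (.c 48 .nil))) (.b 12993 (.b 32 (.l 16 .nil)))) (.I .jac (.c 2718203977 (.c 24 (.c 40 .nil))) (.b 16 (.l 32 .nil)))))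 (.node (.node (.I .jac (.c 18433 (.c 12865 (.c 24 .nil))) (.l 8321 .nil)) (.I .com (.c 2718204105 (.c 12865 .nil)) (.l 8321 .nil))) (.node (.I .jac (.c 1310924873 (.c 24 (.c 48 .nil))) (.b 16 (.l 32 .nil))) (.I .jac (.c 0 (.c 8 (.c 24 .nil))) (.b 18753 (.l 8321 .nil))))))) (.node (.node (.node (.node (.I .jac (.c 169943113 (.c 40 (.c 48 .nil))) (.b 32 (.l 16 .nil))) (.I .jac (.c 169943113 (.c 40 (.c 48 .nil))) (.b 16 (.l 32 .nil)))) (.node (.I .jac (.c 2728451 (.c 40 (.c 48 .nil))) (.b 32 (.b 16 .nil))) (.I .jac (.c 0 (.c 12865 (.c 24 .nil))) (.b 48 (.l 8321 .nil))))) (.node (.node (.I .jac (.c 0 (.c 8 (.c 40 .nil))) (.b 24 (.b 48 (.l 8321 .nil)))) (.I .jac (.c 0 (.c 18497 (.c 40 .nil))) (.b 24 (.l 8321 .nil)))) (.node (.I .jac (.c 0 (.c 8 (.c 48 .nil))) (.b 40 (.b 24 (.l 8321 .nil)))) (.I .jac (.c 0 (.c 18497 (.c 24 .nil))) (.b 40 (.l 8321 .nil)))))) (.node (.node (.node (.I .jac (.c 0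 (.c 8 (.c 48 .nil))) (.b 24 (.b 40 (.l 8321 .nil)))) (.I .jac (.c 4609 (.c 40 (.c 48 .nil))) (.b 32 (.b 8 (.l 16 .nil))))) (.node (.I .jac (.c 4609 (.c 40 (.c 48 .nil))) (.b 16 (.b 32 (.b 8 .nil)))) (.I .jac (.c 12801 (.c 24 (.c 48 .nil))) (.b 16 (.b 32 (.b 8 .nil)))))) (.node (.node (.I .jac (.c 18433 (.c 24 (.c 40 .nil))) (.b 16 (.b 32 (.b 8 .nil)))) (.I .jac (.c 2105673 (.c 16 (.c 48 .nil))) (.l 8385 .nil))) (.node (.I .jac (.c 513 (.c 18561 (.c 40 .nil))) (.l 8385 .nil)) (.I .jac (.c 513 (.c 16 (.c 48 .nil))) (.b 40 (.l 8385 .nil)))))))) (.node (.node (.node (.node (.node (.I .jac (.c 513 (.c 16 (.c 40 .nil))) (.b 48 (.l 8385 .nil))) (.I .com (.c 10066684875777433669609463561 (.c 8385 .nil)) .nil)) (.node (.I .jac (.c 33587529 (.c 8 (.c 48 .nil))) (.l 8385 .nil)) (.I .com (.c 651601654921560200620872561558217 (.c 8385 .nil)) .nil))) (.node (.node (.I .jac (.c 2718204233 (.c 8 (.c 16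 .nil))) (.l 8385 .nil)) (.I .jac (.c 1310925193 (.c 8 (.c 16 .nil))) (.l 8385 .nil))) (.node (.I .com (.c 27951061050494848518852093974251956531913 (.c 8385 .nil)) .nil) (.I .com (.c 1512103782441961050885067571858279445193 (.c 8385 .nil)) .nil)))) (.node (.node (.node (.I .com (.c 27951061050494848458324402179417579409161 (.c 8385 .nil)) .nil) (.I .com (.c 1512103782441961036806911905286300602121 (.c 8385 .nil)) .nil)) (.node (.I .com (.c 2105673 (.c 18561 .nil)) (.l 8385 .nil)) (.I .com (.c 33587529 (.c 18497 .nil)) (.l 8385 .nil)))) (.node (.node (.I .tdb (.c 0 (.c 40 (.c 8 (.c 48 .nil)))) (.b 16 (.l 8385 .nil))) (.I .jac (.c 0 (.c 43059267 (.c 40 .nil))) (.t 24 32 .nil))) (.node (.I .com (.c 35473026505481 (.c 21307587 .nil)) .nil) (.I .com (.c 35470870263561 (.c 43655363 .nil)) .nil))))) (.node (.node (.node (.node (.I .com (.c 9024976834606793 (.c 43655363 .nil)) .nil) (.I .tdb (.c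 0 (.c 48 (.c 8 (.c 40 .nil)))) (.b 16 (.t 24 32 .nil)))) (.node (.I .tdb (.c 0 (.c 40 (.c 8 (.c 48 .nil)))) (.b 16 (.t 24 32 .nil))) (.I .com (.c 13748193523587631817 (.c 43655363 .nil)) .nil))) (.node (.node (.I .com (.c 13748192181200529161 (.c 43655363 .nil)) .nil) (.I .jac (.c 12801 (.c 18497 (.c 16 .nil))) (.l 8385 .nil))) (.node (.I .jac (.c 12801 (.c 8 (.c 16 .nil))) (.b 48 (.l 8385 .nil))) (.I .com (.c 1512102306009786965494079912008658879241 (.c 8385 .nil)) .nil)))) (.node (.node (.node (.I .jac (.c 2718204041 (.c 8 (.c 40 .nil))) (.l 8385 .nil)) (.I .com (.c 27951053153217539014174880853583831178953 (.c 8385 .nil)) .nil)) (.node (.I .com (.c 2105481 (.c 3632106110100937 .nil)) .nil) (.I .com (.c 33587273 (.c 3632106110100937 .nil)) .nil))) (.node (.node (.I .jac (.c 18433 (.c 12865 (.c 16 .nil))) (.l 8385 .nil)) (.I .jac (.c 18433 (.c 2113 (.c 40 .nil))) (.l 8385 .nil))) (.node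 (.I .jac (.c 18433 (.c 8 (.c 16 .nil))) (.b 40 (.l 8385 .nil))) (.I .com (.c 2718204233 (.c 2113 .nil)) (.l 8385 .nil))))))))

noncomputable def c5_171 : Tr := (.node (.node (.node (.node (.node (.node (.I .jac (.c 1310924873 (.c 16 (.c 48 .nil))) (.l 8385 .nil)) (.I .jac (.c 0 (.c 8 (.c 40 .nil))) (.b 18561 (.l 8385 .nil)))) (.node (.I .jac (.c 33587273 (.c 40 (.c 48 .nil))) (.b 24 (.b 32 .nil))) (.I .jac (.c 557571 (.c 40 (.c 48 .nil))) (.b 32 (.b 24 .nil))))) (.node (.node (.I .jac (.c 557571 (.c 40 (.c 48 .nil))) (.b 24 (.b 32 .nil))) (.I .jac (.c 2113 (.c 40 (.c 48 .nil))) (.b 32 (.l 4609 .nil)))) (.node (.I .jac (.c 0 (.c 2113 (.c 40 .nil))) (.b 48 (.l 8385 .nil))) (.I .jac (.c 0 (.c 8 (.c 16 .nil))) (.b 40 (.b 48 (.l 8385 .nil))))))) (.node (.node (.node (.I .jac (.c 0 (.c 12865 (.c 16 .nil))) (.b 48 (.l 8385 .nil))) (.I .jac (.c 0 (.c 8 (.c 40 .nil))) (.b 16 (.b 48 (.l 8385 .nil)))))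 (.node (.I .jac (.c 2049 (.c 40 (.c 48 .nil))) (.b 8786499 .nil)) (.I .jac (.c 12801 (.c 16 (.c 48 .nil))) (.b 8786499 .nil)))) (.node (.node (.I .jac (.c 2049 (.c 40 (.c 48 .nil))) (.b 32 (.l 4673 .nil))) (.I .jac (.c 2049 (.c 40 (.c 48 .nil))) (.b 32 (.b 24 (.b 8 .nil))))) (.node (.I .jac (.c 2049 (.c 40 (.c 48 .nil))) (.b 32 (.b 24 (.l 8 .nil)))) (.I .jac (.c 2049 (.c 40 (.c 48 .nil))) (.b 32 (.b 8 (.b 24 .nil)))))))) (.node (.node (.node (.node (.I .jac (.c 2049 (.c 40 (.c 48 .nil))) (.b 24 (.b 8 (.l 32 .nil)))) (.I .jac (.c 12801 (.c 16 (.c 48 .nil))) (.l 24 (.l 8257 .nil)))) (.node (.I .com (.c 13748198893136698121 (.c 24 .nil)) (.l 8257 .nil)) (.I .jac (.c 18433 (.c 16 (.c 40 .nil))) (.l 24 (.l 8257 .nil))))) (.node (.node (.I .com (.c 59109074018392946441 (.c 24 .nil)) (.l 8257 .nil)) (.I .jac (.c 12801 (.c 8 (.c 48 .nil))) (.l 553912521 .nil))) (.node (.I .com (.c 13748198893136698057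 (.c 553912521 .nil)) .nil) (.I .jac (.c 12801 (.c 8 (.c 48 .nil))) (.l 179513609 .nil))))) (.node (.node (.node (.I .com (.c 13748198893136698057 (.c 179513609 .nil)) .nil) (.I .jac (.c 513 (.c 40 (.c 48 .nil))) (.b 8786563 .nil))) (.node (.I .jac (.c 12801 (.c 8 (.c 48 .nil))) (.l 8786563 .nil)) (.I .jac (.c 12801 (.c 8 (.c 48 .nil))) (.l 8321 (.l 24 .nil))))) (.node (.node (.I .com (.c 13748198893136698057 (.c 8321 .nil)) (.l 24 .nil)) (.I .jac (.c 18433 (.c 8 (.c 40 .nil))) (.l 8321 (.l 24 .nil)))) (.node (.I .com (.c 59109074018392946377 (.c 8321 .nil)) (.l 24 .nil)) (.I .jac (.c 513 (.c 40 (.c 48 .nil))) (.b 32 (.b 24 (.l 16 .nil))))))))) (.node (.node (.node (.node (.node (.I .jac (.c 513 (.c 40 (.c 48 .nil))) (.b 32 (.b 16 (.l 24 .nil)))) (.I .jac (.c 12801 (.c 8 (.c 48 .nil))) (.l 32 (.l 4737 .nil)))) (.node (.I .com (.c 13748198893136698057 (.c 32 .nil)) (.l 4737 .nil)) (.I .jac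 (.c 18433 (.c 8 (.c 40 .nil))) (.l 32 (.l 4737 .nil))))) (.node (.node (.I .com (.c 59109074018392946377 (.c 32 .nil)) (.l 4737 .nil)) (.I .jac (.c 12801 (.c 8 (.c 48 .nil))) (.l 4737 (.l 32 .nil)))) (.node (.I .com (.c 13748198893136698057 (.c 4737 .nil)) (.l 32 .nil)) (.I .jac (.c 18433 (.c 8 (.c 40 .nil))) (.l 4737 (.l 32 .nil)))))) (.node (.node (.node (.I .com (.c 59109074018392946377 (.c 4737 .nil)) (.l 32 .nil)) (.I .jac (.c 12801 (.c 8 (.c 48 .nil))) (.l 24 (.l 8321 .nil)))) (.node (.I .com (.c 13748198893136698057 (.c 24 .nil)) (.l 8321 .nil)) (.I .jac (.c 18433 (.c 8 (.c 40 .nil))) (.l 24 (.l 8321 .nil))))) (.node (.node (.I .com (.c 59109074018392946377 (.c 24 .nil)) (.l 8321 .nil)) (.I .jac (.c 513 (.c 40 (.c 48 .nil))) (.b 16 (.l 8385 .nil)))) (.node (.I .jac (.c 513 (.c 40 (.c 48 .nil))) (.b 16 (.b 32 (.b 24 .nil)))) (.I .jac (.c 2105737 (.c 16 (.c 24 .nil))) (.b 32 (.l 40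 .nil))))))) (.node (.node (.node (.node (.I .jac (.c 35468714087241 (.c 16 (.c 48 .nil))) (.l 40 .nil)) (.I .jac (.c 2105609 (.c 16 (.c 48 .nil))) (.b 24 (.l 40 .nil)))) (.node (.I .jac (.c 2105545 (.c 16 (.c 48 .nil))) (.b 32 (.l 40 .nil))) (.I .jac (.c 513 (.c 16 (.c 32 .nil))) (.b 48 (.b 24 (.l 40 .nil)))))) (.node (.node (.I .jac (.c 513 (.c 16 (.c 24 .nil))) (.b 48 (.b 32 (.l 40 .nil)))) (.I .com (.c 810311000722058987568294027489664629116738216470604568329 (.c 40 .nil)) .nil)) (.node (.I .com (.c 810705155093947686715548548478469921980607530436146182921 (.c 40 .nil)) .nil) (.I .com (.c 810113986414488962661815687049395427480056877487513402121 (.c 40 .nil)) .nil)))) (.node (.node (.node (.I .com (.c 810311000704513416363896113479214819441509963173734744841 (.c 40 .nil)) .nil) (.I .com (.c 809917014021492389842747135875993478139442776722716645257 (.c 40 .nil)) .nil)) (.node (.I .com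 (.c 809917014003953217238938153194345491491293581504170001289 (.c 40 .nil)) .nil) (.I .jac (.c 9024942441010185 (.c 8 (.c 24 .nil))) (.l 40 .nil)))) (.node (.node (.I .jac (.c 9025011228269385 (.c 8 (.c 32 .nil))) (.l 40 .nil)) (.I .jac (.c 33587593 (.c 8257 (.c 24 .nil))) (.l 40 .nil))) (.node (.I .jac (.c 2049 (.c 545424777 (.c 24 .nil))) (.l 40 .nil)) (.I .jac (.c 2049 (.c 8257 (.c 48 .nil))) (.b 24 (.l 40 .nil)))))))))

noncomputable def c5_172 : Tr := (.node (.node (.node (.node (.node (.node (.I .jac (.c 2049 (.c 174695817 (.c 32 .nil))) (.l 40 .nil)) (.I .jac (.c 2049 (.c 4673 (.c 48 .nil))) (.b 32 (.l 40 .nil)))) (.node (.I .com (.c 3396574178719779867970206709213288141320622971021291867826069699273 (.c 40 .nil)) .nil) (.I .com (.c 3396625955800353299884767459018721787301486067898984102757536989897 (.c 40 .nil)) .nil))) (.node (.node (.I .com (.c 3396470626629893322603242024125711716005261913869006431401929496457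 (.c 40 .nil)) .nil) (.I .jac (.c 2306972423229201225 (.c 8 (.c 16 .nil))) (.l 40 .nil))) (.node (.I .jac (.c 59109068451510808457 (.c 8 (.c 16 .nil))) (.l 40 .nil)) (.I .jac (.c 231046163358604169 (.c 8 (.c 16 .nil))) (.l 40 .nil))))) (.node (.node (.node (.I .com (.c 14502389782864777333305098924298644431720863286348602819849794413613458453193 (.c 40 .nil)) .nil) (.I .com (.c 6250092156257071158258895001986985405150837068275867440529049998660375931918561993 (.c 40 .nil)) .nil)) (.node (.I .com (.c 14502389782864777333305098924298644388122041815812818455095509447385485233929 (.c 40 .nil)) .nil) (.I .com (.c 6250092156257071158258895001986985405122215187151368882671245003645771191549267721 (.c 40 .nil)) .nil))) (.node (.node (.I .jac (.c 35473026505609 (.c 16 (.c 24 .nil))) (.l 40 .nil)) (.I .jac (.c 2105737 (.c 16 (.c 32 .nil))) (.b 24 (.l 40 .nil)))) (.node (.I .com (.c 809917014021492389842747146179266883316316492151278009161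 (.c 40 .nil)) .nil) (.I .com (.c 809917014003953217238938132587798681360668874963362200585 (.c 40 .nil)) .nil))))) (.node (.node (.node (.node (.I .jac (.c 9025011228269449 (.c 8 (.c 24 .nil))) (.l 40 .nil)) (.I .jac (.c 33587593 (.c 4673 (.c 32 .nil))) (.l 40 .nil))) (.node (.I .jac (.c 9024908047478665 (.c 8 (.c 48 .nil))) (.l 40 .nil)) (.I .com (.c 3396470626629893322603242024126378935757647612787457730849440267081 (.c 40 .nil)) .nil))) (.node (.node (.I .com (.c 1459023842844933950499556010948851291195594742145000102581522084745032393 (.c 40 .nil)) .nil) (.I .com (.c 1459023842844933950499556010948850853888868142414793345823926992799665929 (.c 40 .nil)) .nil)) (.node (.I .jac (.c 513 (.c 24 (.c 48 .nil))) (.l 8321 (.l 40 .nil))) (.I .com (.c 35473026505545 (.c 8321 .nil)) (.l 40 .nil))))) (.node (.node (.node (.I .com (.c 35466557976585 (.c 8321 .nil)) (.l 40 .nil)) (.I .ass (.c 40 (.c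 35473026505545 (.c 8321 .nil))) .nil)) (.node (.I .com (.c 40 (.c 35473026505545 .nil)) (.r 8321 .nil)) (.I .ass (.c 40 (.c 35466557976585 (.c 8321 .nil))) .nil))) (.node (.node (.I .com (.c 40 (.c 35466557976585 .nil)) (.r 8321 .nil)) (.I .ass (.c 40 (.c 35468714087177 (.c 18625 .nil))) .nil)) (.node (.I .ass (.c 35468714087177 (.c 40 (.c 18625 .nil))) .nil) (.I .com (.c 40 (.c 35468714087177 .nil)) (.r 18625 .nil))))))) (.node (.node (.node (.node (.node (.I .ass (.c 40 (.c 35464401931145 (.c 18625 .nil))) .nil) (.I .ass (.c 35464401931145 (.c 40 (.c 18625 .nil))) .nil)) (.node (.I .com (.c 40 (.c 35464401931145 .nil)) (.r 18625 .nil)) (.I .jac (.c 2049 (.c 24 (.c 48 .nil))) (.l 8257 (.l 40 .nil))))) (.node (.node (.I .com (.c 9025011228269385 (.c 8257 .nil)) (.l 40 .nil)) (.I .com (.c 9024908047478793 (.c 8257 .nil)) (.l 40 .nil))) (.node (.I .ass (.c 40 (.c 9025011228269385 (.c 8257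 .nil))) .nil) (.I .com (.c 40 (.c 9025011228269385 .nil)) (.r 8257 .nil))))) (.node (.node (.node (.I .ass (.c 40 (.c 9024908047478793 (.c 8257 .nil))) .nil) (.I .com (.c 40 (.c 9024908047478793 .nil)) (.r 8257 .nil))) (.node (.I .ass (.c 40 (.c 9024942441009865 (.c 18625 .nil))) .nil) (.I .ass (.c 9024942441009865 (.c 40 (.c 18625 .nil))) .nil))) (.node (.node (.I .com (.c 40 (.c 9024942441009865 .nil)) (.r 18625 .nil)) (.I .ass (.c 40 (.c 9024839260612489 (.c 18625 .nil))) .nil)) (.node (.I .ass (.c 9024839260612489 (.c 40 (.c 18625 .nil))) .nil) (.I .com (.c 40 (.c 9024839260612489 .nil)) (.r 18625 .nil)))))) (.node (.node (.node (.node (.I .jac (.c 2113 (.c 24 (.c 48 .nil))) (.l 8193 (.l 40 .nil))) (.I .ass (.c 40 (.c 2306970223667989193 (.c 18625 .nil))) .nil)) (.node (.I .ass (.c 2306970223667989193 (.c 40 (.c 18625 .nil))) .nil) (.I .com (.c 40 (.c 2306970223667989193 .nil)) (.r 18625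 .nil)))) (.node (.node (.I .ass (.c 40 (.c 2306969673777850121 (.c 18625 .nil))) .nil) (.I .ass (.c 2306969673777850121 (.c 40 (.c 18625 .nil))) .nil)) (.node (.I .com (.c 40 (.c 2306969673777850121 .nil)) (.r 18625 .nil)) (.I .ass (.c 40 (.c 8193 (.c 10206511083363145 .nil))) .nil)))) (.node (.node (.node (.I .ass (.c 8193 (.c 40 (.c 10206511083363145 .nil))) .nil) (.I .com (.c 40 (.c 8193 .nil)) (.r 10206511083363145 .nil))) (.node (.I .com (.c 10206511083363145 (.c 40 .nil)) (.l 8193 .nil)) (.I .ass (.c 40 (.c 8193 (.c 10206401356312585 .nil))) .nil))) (.node (.node (.I .ass (.c 8193 (.c 40 (.c 10206401356312585 .nil))) .nil) (.I .com (.c 40 (.c 8193 .nil)) (.r 10206401356312585 .nil))) (.node (.I .com (.c 10206437931930441 (.c 40 .nil)) (.l 18433 .nil)) (.I .com (.c 10206401356312457 (.c 40 .nil)) (.l 18433 .nil))))))))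

noncomputable def c5_173 : Tr := (.node (.node (.node (.node (.node (.node (.I .jac (.c 2049 (.c 32 (.c 48 .nil))) (.l 4673 (.l 40 .nil))) (.I .com (.c 9025011228269449 (.c 4673 .nil)) (.l 40 .nil))) (.node (.I .com (.c 9024942441010185 (.c 4673 .nil)) (.l 40 .nil)) (.I .ass (.c 40 (.c 9025011228269449 (.c 4673 .nil))) .nil))) (.node (.node (.I .com (.c 40 (.c 9025011228269449 .nil)) (.r 4673 .nil)) (.I .ass (.c 40 (.c 9024942441010185 (.c 4673 .nil))) .nil)) (.node (.I .com (.c 40 (.c 9024942441010185 .nil)) (.r 4673 .nil)) (.I .ass (.c 40 (.c 9024908047478473 (.c 18689 .nil))) .nil)))) (.node (.node (.node (.I .ass (.c 9024908047478473 (.c 40 (.c 18689 .nil))) .nil) (.I .com (.c 40 (.c 9024908047478473 .nil)) (.r 18689 .nil))) (.node (.I .ass (.c 40 (.c 9024839260612425 (.c 18689 .nil))) .nil) (.I .ass (.c 9024839260612425 (.c 40 (.c 18689 .nil))) .nil))) (.node (.node (.I .com (.c 40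 (.c 9024839260612425 .nil)) (.r 18689 .nil)) (.I .jac (.c 2113 (.c 32 (.c 48 .nil))) (.l 4609 (.l 40 .nil)))) (.node (.I .ass (.c 40 (.c 231045467270826697 (.c 18689 .nil))) .nil) (.I .ass (.c 231045467270826697 (.c 40 (.c 18689 .nil))) .nil))))) (.node (.node (.node (.node (.I .com (.c 40 (.c 231045467270826697 .nil)) (.r 18689 .nil)) (.I .ass (.c 40 (.c 231045293249046281 (.c 18689 .nil))) .nil)) (.node (.I .ass (.c 231045293249046281 (.c 40 (.c 18689 .nil))) .nil) (.I .com (.c 40 (.c 231045293249046281 .nil)) (.r 18689 .nil)))) (.node (.node (.I .ass (.c 40 (.c 4609 (.c 10206511083363209 .nil))) .nil) (.I .ass (.c 4609 (.c 40 (.c 10206511083363209 .nil))) .nil)) (.node (.I .com (.c 40 (.c 4609 .nil)) (.r 10206511083363209 .nil)) (.I .com (.c 10206511083363209 (.c 40 .nil)) (.l 4609 .nil))))) (.node (.node (.node (.I .ass (.c 40 (.c 4609 (.c 10206437931930633 .nil))) .nil) (.I .ass (.c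 4609 (.c 40 (.c 10206437931930633 .nil))) .nil)) (.node (.I .com (.c 40 (.c 4609 .nil)) (.r 10206437931930633 .nil)) (.I .com (.c 617620517416009 (.c 18561 .nil)) (.b 40 .nil)))) (.node (.node (.I .com (.c 15038454533712969 (.c 8321 .nil)) (.b 40 .nil)) (.I .tdb (.c 0 (.c 8 (.c 24 (.c 48 .nil)))) (.b 8321 (.b 40 .nil)))) (.node (.I .com (.c 15246236343241801 (.c 4737 .nil)) (.b 40 .nil)) (.I .adp (.c 15246236343241801 (.c 4737 (.c 40 .nil))) .nil)))))) (.node (.node (.node (.node (.node (.I .adp (.c 15038454533712969 (.c 8321 (.c 40 .nil))) .nil) (.I .adp (.c 2105737 (.c 8786563 (.c 40 .nil))) .nil)) (.node (.I .adp (.c 617620517416009 (.c 18561 (.c 40 .nil))) .nil) (.I .adp (.c 2105545 (.c 43655299 (.c 40 .nil))) .nil))) (.node (.node (.I .tdb (.c 0 (.c 16 (.c 32 (.c 48 .nil)))) (.b 4673 (.b 40 .nil))) (.I .tdb (.c 0 (.c 24 (.c 32 (.c 48 .nil)))) (.b 2113 (.b 40 .nil)))) (.node (.I .com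 (.c 810311000722058987568294017183885498617107931928410829641 (.c 40 .nil)) .nil) (.I .com (.c 810113986414488962661815666440343006049332852622544712585 (.c 40 .nil)) .nil)))) (.node (.node (.node (.I .jac (.c 169943433 (.c 8257 (.c 16 .nil))) (.l 40 .nil)) (.I .jac (.c 169943433 (.c 8 (.c 16 .nil))) (.b 32 (.l 40 .nil)))) (.node (.I .jac (.c 231045815314584329 (.c 8 (.c 48 .nil))) (.l 40 .nil)) (.I .jac (.c 169943305 (.c 8 (.c 48 .nil))) (.b 16 (.l 40 .nil))))) (.node (.node (.I .jac (.c 169943305 (.c 2113 (.c 48 .nil))) (.l 40 .nil)) (.I .jac (.c 169943305 (.c 8 (.c 16 .nil))) (.b 48 (.l 40 .nil)))) (.node (.I .jac (.c 169943177 (.c 8 (.c 48 .nil))) (.b 32 (.l 40 .nil))) (.I .jac (.c 4609 (.c 545424777 (.c 16 .nil))) (.l 40 .nil)))))) (.node (.node (.node (.node (.I .jac (.c 4609 (.c 8257 (.c 48 .nil))) (.b 16 (.l 40 .nil))) (.I .jac (.c 4609 (.c 8 (.c 16 .nil))) (.b 48 (.b 32 (.l 40 .nil)))))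 (.node (.I .com (.c 1459023842844927484074647864604431950173590822856773473173784160675119817 (.c 40 .nil)) .nil) (.I .com (.c 14502389782864775724004637839190473782856475165304737489350909178697041925833 (.c 40 .nil)) .nil))) (.node (.node (.I .com (.c 6250090978991937016972231763044093525950208124439267211021106410498509330578003657 (.c 40 .nil)) .nil) (.I .com (.c 14502334474273999565302249120836236120220517508509644722067468378059598616265 (.c 40 .nil)) .nil)) (.node (.I .com (.c 14502389782864775724004637839190473695658832224233173597914170566206835724105 (.c 40 .nil)) .nil) (.I .com (.c 6250090978991937016972231763044093525892964367581477691244036949794293640673201993 (.c 40 .nil)) .nil)))) (.node (.node (.node (.I .com (.c 14502334474273999565302249120836236033023040842907866058958814708020420415305 (.c 40 .nil)) .nil) (.I .jac (.c 169943433 (.c 8 (.c 32 .nil))) (.b 16 (.l 40 .nil))))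 (.node (.I .jac (.c 169943177 (.c 8 (.c 32 .nil))) (.b 48 (.l 40 .nil))) (.I .jac (.c 4609 (.c 35718409 (.c 48 .nil))) (.l 40 .nil)))) (.node (.node (.I .jac (.c 4609 (.c 2113 (.c 32 .nil))) (.b 48 (.l 40 .nil))) (.I .jac (.c 4609 (.c 8 (.c 16 .nil))) (.b 32 (.b 48 (.l 40 .nil))))) (.node (.I .jac (.c 18433 (.c 16 (.c 32 .nil))) (.b 4673 (.l 40 .nil))) (.I .com (.c 6250093333522399276025990150979397412214667254369471941423266700893722849102616265 (.c 40 .nil)) .nil)))))))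

noncomputable def c5_174 : Tr := (.node (.node (.node (.node (.node (.node (.I .com (.c 6250093333522399276025990150979397412157423486729266849209763751060102788914679625 (.c 40 .nil)) .nil) (.I .jac (.c 4609 (.c 16 (.c 48 .nil))) (.l 8257 (.l 40 .nil)))) (.node (.I .com (.c 231046163358604041 (.c 8257 .nil)) (.l 40 .nil)) (.I .com (.c 231045467270827017 (.c 8257 .nil)) (.l 40 .nil)))) (.node (.node (.I .ass (.c 40 (.c 231046163358604041 (.c 8257 .nil))) .nil) (.I .com (.c 40 (.c 231046163358604041 .nil)) (.r 8257 .nil))) (.node (.I .ass (.c 40 (.c 231045467270827017 (.c 8257 .nil))) .nil) (.I .com (.c 40 (.c 231045467270827017 .nil)) (.r 8257 .nil))))) (.node (.node (.node (.I .ass (.c 40 (.c 231045815314584265 (.c 18561 .nil))) .nil) (.I .ass (.c 231045815314584265 (.c 40 (.c 18561 .nil))) .nil)) (.node (.I .com (.c 40 (.c 231045815314584265 .nil)) (.r 18561 .nil)) (.I .ass (.c 40 (.c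 231045293249046409 (.c 18561 .nil))) .nil))) (.node (.node (.I .ass (.c 231045293249046409 (.c 40 (.c 18561 .nil))) .nil) (.I .com (.c 40 (.c 231045293249046409 .nil)) (.r 18561 .nil))) (.node (.I .jac (.c 4673 (.c 16 (.c 48 .nil))) (.l 8193 (.l 40 .nil))) (.I .ass (.c 40 (.c 2306970773558193865 (.c 18561 .nil))) .nil))))) (.node (.node (.node (.node (.I .ass (.c 2306970773558193865 (.c 40 (.c 18561 .nil))) .nil) (.I .com (.c 40 (.c 2306970773558193865 .nil)) (.r 18561 .nil))) (.node (.I .ass (.c 40 (.c 2306969673777850185 (.c 18561 .nil))) .nil) (.I .ass (.c 2306969673777850185 (.c 40 (.c 18561 .nil))) .nil))) (.node (.node (.I .com (.c 40 (.c 2306969673777850185 .nil)) (.r 18561 .nil)) (.I .ass (.c 40 (.c 8193 (.c 244149027818380041 .nil))) .nil)) (.node (.I .ass (.c 8193 (.c 40 (.c 244149027818380041 .nil))) .nil) (.I .com (.c 40 (.c 8193 .nil)) (.r 244149027818380041 .nil))))) (.node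 (.node (.node (.I .com (.c 244149027818380041 (.c 40 .nil)) (.l 8193 .nil)) (.I .ass (.c 40 (.c 8193 (.c 244148312264838153 .nil))) .nil)) (.node (.I .ass (.c 8193 (.c 40 (.c 244148312264838153 .nil))) .nil) (.I .com (.c 40 (.c 8193 .nil)) (.r 244148312264838153 .nil)))) (.node (.node (.I .jac (.c 4609 (.c 16 (.c 32 .nil))) (.l 18497 (.l 40 .nil))) (.I .com (.c 231045815314584329 (.c 18497 .nil)) (.l 40 .nil))) (.node (.I .com (.c 231045467270826889 (.c 18497 .nil)) (.l 40 .nil)) (.I .ass (.c 40 (.c 231046163358603977 (.c 8321 .nil))) .nil)))))) (.node (.node (.node (.node (.node (.I .com (.c 40 (.c 231046163358603977 .nil)) (.r 8321 .nil)) (.I .ass (.c 40 (.c 231045293249046537 (.c 8321 .nil))) .nil)) (.node (.I .com (.c 40 (.c 231045293249046537 .nil)) (.r 8321 .nil)) (.I .ass (.c 40 (.c 231045815314584329 (.c 18497 .nil))) .nil))) (.node (.node (.I .ass (.c 231045815314584329 (.c 40 (.c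 18497 .nil))) .nil) (.I .com (.c 40 (.c 231045815314584329 .nil)) (.r 18497 .nil))) (.node (.I .ass (.c 40 (.c 231045467270826889 (.c 18497 .nil))) .nil) (.I .ass (.c 231045467270826889 (.c 40 (.c 18497 .nil))) .nil)))) (.node (.node (.node (.I .com (.c 40 (.c 231045467270826889 .nil)) (.r 18497 .nil)) (.I .jac (.c 4673 (.c 16 (.c 32 .nil))) (.l 18433 (.l 40 .nil)))) (.node (.I .ass (.c 40 (.c 59109068451510808265 (.c 8321 .nil))) .nil) (.I .com (.c 40 (.c 59109068451510808265 .nil)) (.r 8321 .nil)))) (.node (.node (.I .ass (.c 40 (.c 59109062884628932425 (.c 8321 .nil))) .nil) (.I .com (.c 40 (.c 59109062884628932425 .nil)) (.r 8321 .nil))) (.node (.I .ass (.c 40 (.c 18433 (.c 244148670041477897 .nil))) .nil) (.I .ass (.c 18433 (.c 40 (.c 244148670041477897 .nil))) .nil))))) (.node (.node (.node (.node (.I .com (.c 40 (.c 18433 .nil)) (.r 244148670041477897 .nil)) (.I .ass (.c 40 (.c 18433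 (.c 244148312264838025 .nil))) .nil)) (.node (.I .ass (.c 18433 (.c 40 (.c 244148312264838025 .nil))) .nil) (.I .com (.c 40 (.c 18433 .nil)) (.r 244148312264838025 .nil)))) (.node (.node (.I .jac (.c 4609 (.c 32 (.c 48 .nil))) (.l 2113 (.l 40 .nil))) (.I .com (.c 231046163358604169 (.c 2113 .nil)) (.l 40 .nil))) (.node (.I .com (.c 231045815314584585 (.c 2113 .nil)) (.l 40 .nil)) (.I .ass (.c 40 (.c 231046163358604169 (.c 2113 .nil))) .nil)))) (.node (.node (.node (.I .com (.c 40 (.c 231046163358604169 .nil)) (.r 2113 .nil)) (.I .ass (.c 40 (.c 231045815314584585 (.c 2113 .nil))) .nil)) (.node (.I .com (.c 40 (.c 231045815314584585 .nil)) (.r 2113 .nil)) (.I .jac (.c 4673 (.c 32 (.c 48 .nil))) (.l 2049 (.l 40 .nil))))) (.node (.node (.I .ass (.c 40 (.c 2049 (.c 244149027818380169 .nil))) .nil) (.I .ass (.c 2049 (.c 40 (.c 244149027818380169 .nil))) .nil)) (.node (.I .com (.c 40 (.c 2049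 .nil)) (.r 244149027818380169 .nil)) (.I .com (.c 244149027818380169 (.c 40 .nil)) (.l 2049 .nil))))))))

noncomputable def c5_175 : Tr := (.node (.node (.node (.node (.node (.node (.I .ass (.c 40 (.c 2049 (.c 244148670041478153 .nil))) .nil) (.I .ass (.c 2049 (.c 40 (.c 244148670041478153 .nil))) .nil)) (.node (.I .com (.c 40 (.c 2049 .nil)) (.r 244148670041478153 .nil)) (.I .tdb (.c 0 (.c 8 (.c 16 (.c 32 .nil)))) (.b 18625 (.b 40 .nil))))) (.node (.node (.I .tdb (.c 0 (.c 8 (.c 16 (.c 48 .nil)))) (.b 8385 (.b 40 .nil))) (.I .adp (.c 14832759703961737 (.c 8385 (.c 40 .nil))) .nil)) (.node (.I .tdb (.c 0 (.c 24 (.c 32 (.c 48 .nil)))) (.l 2113 (.b 40 .nil))) (.I .com (.c 15246191640314121 (.c 2113 .nil)) (.b 40 .nil))))) (.node (.node (.node (.I .adp (.c 15246191640314121 (.c 2113 (.c 40 .nil))) .nil) (.I .adp (.c 169943433 (.c 8652867 (.c 40 .nil))) .nil)) (.node (.I .com (.c 3396729512033763431099245905596450256467768431480806557257023273801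 (.c 40 .nil)) .nil) (.I .com (.c 3396574178719779867970206709211286451550259333757571654492376403849 (.c 40 .nil)) .nil))) (.node (.node (.I .com (.c 3396574178719298132873750447713378079649530855562948136653773144969 (.c 40 .nil)) .nil) (.I .com (.c 1459023842844925867468420828021685193271649165710521966216956661049393929 (.c 40 .nil)) .nil)) (.node (.I .jac (.c 2306972423229201097 (.c 16 (.c 24 .nil))) (.l 40 .nil)) (.I .jac (.c 2306969673777850377 (.c 16 (.c 24 .nil))) (.l 40 .nil)))))) (.node (.node (.node (.node (.I .jac (.c 8193 (.c 8 (.c 48 .nil))) (.b 4737 (.l 40 .nil))) (.I .com (.c 14502389782864774114704176754082437025972823059647225040928247762526354609929 (.c 40 .nil)) .nil)) (.node (.I .com (.c 6250089801726996906276604807059669510281064902963087913074935865281876929589663497 (.c 40 .nil)) .nil) (.I .com (.c 14502389782864774114704176754082436982374001589111445514245794116264054518601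 (.c 40 .nil)) .nil))) (.node (.node (.I .com (.c 6250089801726996906276604807059669510252443027229796760752043443484990649519387465 (.c 40 .nil)) .nil) (.I .jac (.c 18433 (.c 8 (.c 32 .nil))) (.b 4737 (.b 40 .nil)))) (.node (.I .com (.c 3396574178719298132873750447712043619802621858686821135694194719753 (.c 40 .nil)) .nil) (.I .jac (.c 59109071234951844553 (.c 16 (.c 24 .nil))) (.l 40 .nil))))) (.node (.node (.node (.I .jac (.c 18433 (.c 8 (.c 32 .nil))) (.b 4737 (.l 40 .nil))) (.I .jac (.c 0 (.c 8257 (.c 48 .nil))) (.b 4737 (.l 40 .nil)))) (.node (.I .jac (.c 0 (.c 8 (.c 32 .nil))) (.b 48 (.b 4737 (.l 40 .nil)))) (.I .com (.c 6250093333522399248956982637364085055356979936575078863574617661350422457236657929 (.c 40 .nil)) .nil))) (.node (.node (.I .com (.c 6250093333522399248956982637364085055328358052754976317529846539912873292530217801 (.c 40 .nil)) .nil) (.I .jac (.c 18497 (.c 16 (.c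 24 .nil))) (.l 8193 (.l 40 .nil)))) (.node (.I .ass (.c 40 (.c 2306970773558193929 (.c 18497 .nil))) .nil) (.I .ass (.c 2306970773558193929 (.c 40 (.c 18497 .nil))) .nil)))))) (.node (.node (.node (.node (.node (.I .com (.c 40 (.c 2306970773558193929 .nil)) (.r 18497 .nil)) (.I .ass (.c 40 (.c 2306970223667989321 (.c 18497 .nil))) .nil)) (.node (.I .ass (.c 2306970223667989321 (.c 40 (.c 18497 .nil))) .nil) (.I .com (.c 40 (.c 2306970223667989321 .nil)) (.r 18497 .nil)))) (.node (.node (.I .ass (.c 40 (.c 8193 (.c 59934268409707441929 .nil))) .nil) (.I .ass (.c 8193 (.c 40 (.c 59934268409707441929 .nil))) .nil)) (.node (.I .com (.c 40 (.c 8193 .nil)) (.r 59934268409707441929 .nil)) (.I .com (.c 59934268409707441929 (.c 40 .nil)) (.l 8193 .nil))))) (.node (.node (.node (.I .ass (.c 40 (.c 8193 (.c 59934265606904515401 .nil))) .nil) (.I .ass (.c 8193 (.c 40 (.c 59934265606904515401 .nil)))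 .nil)) (.node (.I .com (.c 40 (.c 8193 .nil)) (.r 59934265606904515401 .nil)) (.I .com (.c 59934265606904515401 (.c 40 .nil)) (.l 8193 .nil)))) (.node (.node (.I .jac (.c 8257 (.c 16 (.c 24 .nil))) (.l 18433 (.l 40 .nil))) (.I .ass (.c 40 (.c 59109068451510808329 (.c 8257 .nil))) .nil)) (.node (.I .com (.c 40 (.c 59109068451510808329 .nil)) (.r 8257 .nil)) (.I .ass (.c 40 (.c 59109065668069837641 (.c 8257 .nil))) .nil))))) (.node (.node (.node (.node (.I .com (.c 40 (.c 59109065668069837641 .nil)) (.r 8257 .nil)) (.I .ass (.c 40 (.c 18433 (.c 2379903823379377929 .nil))) .nil)) (.node (.I .ass (.c 18433 (.c 40 (.c 2379903823379377929 .nil))) .nil) (.I .com (.c 40 (.c 18433 .nil)) (.r 2379903823379377929 .nil)))) (.node (.node (.I .ass (.c 40 (.c 18433 (.c 2379903264864635721 .nil))) .nil) (.I .ass (.c 18433 (.c 40 (.c 2379903264864635721 .nil))) .nil)) (.node (.I .com (.c 40 (.c 18433 .nil))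 (.r 2379903264864635721 .nil)) (.I .tdb (.c 0 (.c 24 (.c 48 (.c 8 .nil)))) (.b 8321 (.b 40 .nil)))))) (.node (.node (.node (.I .adp (.c 580749782704393 (.c 18561 (.c 40 .nil))) .nil) (.I .adp (.c 169943113 (.c 43655299 (.c 40 .nil))) .nil)) (.node (.I .jac (.c 14629225721520329 (.c 24 (.c 32 .nil))) (.l 40 .nil)) (.I .jac (.c 580749782704329 (.c 24 (.c 48 .nil))) (.l 40 .nil)))) (.node (.node (.I .jac (.c 2718204169 (.c 4673 (.c 16 .nil))) (.l 40 .nil)) (.I .jac (.c 2718204169 (.c 2113 (.c 24 .nil))) (.l 40 .nil))) (.node (.I .jac (.c 537002377 (.c 2113 (.c 24 .nil))) (.l 40 .nil)) (.I .ass (.c 40 (.c 4609 (.c 59934271212510434057 .nil))) .nil)))))))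

noncomputable def c5_176 : Tr := (.node (.node (.node (.node (.node (.node (.I .ass (.c 4609 (.c 40 (.c 59934271212510434057 .nil))) .nil) (.I .com (.c 40 (.c 4609 .nil)) (.r 59934271212510434057 .nil))) (.node (.I .com (.c 59934271212510434057 (.c 40 .nil)) (.l 4609 .nil)) (.I .ass (.c 40 (.c 4609 (.c 2379905498923997961 .nil))) .nil))) (.node (.node (.I .ass (.c 4609 (.c 40 (.c 2379905498923997961 .nil))) .nil) (.I .com (.c 40 (.c 4609 .nil)) (.r 2379905498923997961 .nil))) (.node (.I .com (.c 2379905498923997961 (.c 40 .nil)) (.l 4609 .nil)) (.I .ass (.c 40 (.c 2049 (.c 2379905498923998025 .nil))) .nil)))) (.node (.node (.node (.I .ass (.c 2049 (.c 40 (.c 2379905498923998025 .nil))) .nil) (.I .com (.c 40 (.c 2049 .nil)) (.r 2379905498923998025 .nil))) (.node (.I .com (.c 2379905498923998025 (.c 40 .nil)) (.l 2049 .nil)) (.I .com (.c 2306972423229201161 (.c 4673 .nil)) (.l 40 .nil))))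 (.node (.node (.I .com (.c 2306972423229201225 (.c 2113 .nil)) (.l 40 .nil)) (.I .com (.c 59109071234951844617 (.c 4673 .nil)) (.l 40 .nil))) (.node (.I .ass (.c 40 (.c 2306972423229201225 (.c 2113 .nil))) .nil) (.I .com (.c 40 (.c 2306972423229201225 .nil)) (.r 2113 .nil)))))) (.node (.node (.node (.node (.I .ass (.c 40 (.c 59109071234951844617 (.c 4673 .nil))) .nil) (.I .com (.c 40 (.c 59109071234951844617 .nil)) (.r 4673 .nil))) (.node (.I .ass (.c 40 (.c 2306972423229201161 (.c 4673 .nil))) .nil) (.I .com (.c 40 (.c 2306972423229201161 .nil)) (.r 4673 .nil)))) (.node (.node (.I .tdb (.c 0 (.c 48 (.c 16 (.c 32 .nil)))) (.l 4673 (.b 40 .nil))) (.I .com (.c 598967998054857 (.c 4673 .nil)) (.b 40 .nil))) (.node (.I .tdb (.c 0 (.c 48 (.c 24 (.c 32 .nil)))) (.l 2113 (.b 40 .nil))) (.I .com (.c 617611520074185 (.c 2113 .nil)) (.b 40 .nil))))) (.node (.node (.node (.I .tdb (.c 0 (.c 32 (.c 16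 (.c 48 .nil)))) (.l 4673 (.b 40 .nil))) (.I .com (.c 14832759703961929 (.c 4673 .nil)) (.b 40 .nil))) (.node (.I .adp (.c 617611520074185 (.c 2113 (.c 40 .nil))) .nil) (.I .adp (.c 14832759703961929 (.c 4673 (.c 40 .nil))) .nil))) (.node (.node (.I .adp (.c 598967998054857 (.c 4673 (.c 40 .nil))) .nil) (.I .jac (.c 231045293249046537 (.c 16 (.c 32 .nil))) (.l 40 .nil))) (.node (.I .jac (.c 231045293249046409 (.c 16 (.c 48 .nil))) (.l 40 .nil)) (.I .jac (.c 169943113 (.c 16 (.c 48 .nil))) (.b 32 (.l 40 .nil)))))))) (.node (.node (.node (.node (.node (.I .jac (.c 169943113 (.c 16 (.c 32 .nil))) (.b 48 (.l 40 .nil))) (.I .jac (.c 8257 (.c 16 (.c 48 .nil))) (.l 4609 (.l 40 .nil)))) (.node (.I .jac (.c 18497 (.c 16 (.c 32 .nil))) (.l 4609 (.l 40 .nil))) (.I .ass (.c 40 (.c 513 (.c 2454554348984163145 .nil))) .nil))) (.node (.node (.I .ass (.c 513 (.c 40 (.c 2454554348984163145 .nil))) .nil) (.I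 .com (.c 40 (.c 513 .nil)) (.r 2454554348984163145 .nil))) (.node (.I .com (.c 2454554348984163145 (.c 40 .nil)) (.l 513 .nil)) (.I .ass (.c 40 (.c 59109071234951844553 (.c 4737 .nil))) .nil)))) (.node (.node (.node (.I .com (.c 40 (.c 59109071234951844553 .nil)) (.r 4737 .nil)) (.I .ass (.c 40 (.c 2306972423229201097 (.c 4737 .nil))) .nil)) (.node (.I .com (.c 40 (.c 2306972423229201097 .nil)) (.r 4737 .nil)) (.I .com (.c 231045293249046409 (.c 18561 .nil)) (.l 40 .nil)))) (.node (.node (.I .com (.c 231045293249046537 (.c 8321 .nil)) (.l 40 .nil)) (.I .com (.c 59555558875593 (.c 8321 .nil)) (.b 40 .nil))) (.node (.I .adp (.c 59555558875593 (.c 8321 (.c 40 .nil))) .nil) (.I .adp (.c 14629225721520457 (.c 4737 (.c 40 .nil))) .nil))))) (.node (.node (.node (.node (.I .jac (.c 9024839260612617 (.c 24 (.c 32 .nil))) (.l 40 .nil)) (.I .jac (.c 2105481 (.c 24 (.c 48 .nil))) (.b 32 (.l 40 .nil))))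 (.node (.I .jac (.c 8257 (.c 24 (.c 48 .nil))) (.l 2049 (.l 40 .nil))) (.I .jac (.c 8321 (.c 24 (.c 48 .nil))) (.l 513 (.l 40 .nil))))) (.node (.node (.I .com (.c 9024839260612489 (.c 18625 .nil)) (.l 40 .nil)) (.I .com (.c 35464401931145 (.c 18625 .nil)) (.l 40 .nil))) (.node (.I .com (.c 2487083360713 (.c 8385 .nil)) (.b 40 .nil)) (.I .adp (.c 2487083360713 (.c 8385 (.c 40 .nil))) .nil)))) (.node (.node (.node (.I .com (.c 810311000704513416363896072256098297889288533119081182217 (.c 40 .nil)) .nil) (.I .jac (.c 2306970773558193929 (.c 8 (.c 48 .nil))) (.l 40 .nil))) (.node (.I .jac (.c 537002185 (.c 18497 (.c 16 .nil))) (.l 40 .nil)) (.I .jac (.c 537002185 (.c 2113 (.c 48 .nil))) (.l 40 .nil)))) (.node (.node (.I .jac (.c 8193 (.c 174695817 (.c 16 .nil))) (.l 40 .nil)) (.I .jac (.c 8193 (.c 4673 (.c 48 .nil))) (.b 16 (.l 40 .nil)))) (.node (.I .jac (.c 8193 (.c 8 (.c 16 .nil))) (.b 48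 (.b 24 (.l 40 .nil)))) (.I .com (.c 6250090978991936989903231897491262894505959231273606073600897078039639333216664265 (.c 40 .nil)) .nil)))))))

noncomputable def c5_177 : Tr := (.node (.node (.node (.node (.node (.node (.I .com (.c 6250090978991936989903231897491262894420093595986921794121233929909201792682774409 (.c 40 .nil)) .nil) (.I .com (.c 810705155093947686715548527861899296537208032040546530185 (.c 40 .nil)) .nil)) (.node (.I .jac (.c 537002121 (.c 18497 (.c 24 .nil))) (.l 40 .nil)) (.I .jac (.c 8193 (.c 35718345 (.c 48 .nil))) (.l 40 .nil)))) (.node (.node (.I .jac (.c 8193 (.c 2113 (.c 24 .nil))) (.b 48 (.l 40 .nil))) (.I .jac (.c 8193 (.c 8 (.c 16 .nil))) (.b 24 (.b 48 (.l 40 .nil))))) (.node (.I .com (.c 14502334474273994737414675204173677576472838470281954748266460304942497891017 (.c 40 .nil)) .nil) (.I .jac (.c 59109068451510808329 (.c 8 (.c 32 .nil))) (.l 40 .nil))))) (.node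 (.node (.node (.I .jac (.c 8193 (.c 16 (.c 48 .nil))) (.l 4673 (.l 40 .nil))) (.I .com (.c 2306970223667989513 (.c 4673 .nil)) (.l 40 .nil))) (.node (.I .ass (.c 40 (.c 2306970223667989513 (.c 4673 .nil))) .nil) (.I .com (.c 40 (.c 2306970223667989513 .nil)) (.r 4673 .nil)))) (.node (.node (.I .ass (.c 40 (.c 4609 (.c 2379903264864635913 .nil))) .nil) (.I .ass (.c 4609 (.c 40 (.c 2379903264864635913 .nil))) .nil)) (.node (.I .com (.c 40 (.c 4609 .nil)) (.r 2379903264864635913 .nil)) (.I .jac (.c 8193 (.c 16 (.c 24 .nil))) (.l 18497 (.l 40 .nil))))))) (.node (.node (.node (.node (.I .com (.c 2306970773558193929 (.c 18497 .nil)) (.l 40 .nil)) (.I .com (.c 2306970223667989321 (.c 18497 .nil)) (.l 40 .nil))) (.node (.I .ass (.c 40 (.c 2306969673777850377 (.c 4737 .nil))) .nil) (.I .com (.c 40 (.c 2306969673777850377 .nil)) (.r 4737 .nil)))) (.node (.node (.I .ass (.c 40 (.c 59109062884628932489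 (.c 4737 .nil))) .nil) (.I .com (.c 40 (.c 59109062884628932489 .nil)) (.r 4737 .nil))) (.node (.I .jac (.c 8193 (.c 24 (.c 48 .nil))) (.l 2113 (.l 40 .nil))) (.I .com (.c 2306970773558194185 (.c 2113 .nil)) (.l 40 .nil))))) (.node (.node (.node (.I .ass (.c 40 (.c 2306970773558194185 (.c 2113 .nil))) .nil) (.I .com (.c 40 (.c 2306970773558194185 .nil)) (.r 2113 .nil))) (.node (.I .ass (.c 40 (.c 2049 (.c 2379903823379378185 .nil))) .nil) (.I .ass (.c 2049 (.c 40 (.c 2379903823379378185 .nil))) .nil))) (.node (.node (.I .com (.c 40 (.c 2049 .nil)) (.r 2379903823379378185 .nil)) (.I .tdb (.c 0 (.c 8 (.c 16 (.c 24 .nil)))) (.l 18689 (.b 40 .nil)))) (.node (.I .com (.c 62886542409865 (.c 18689 .nil)) (.b 40 .nil)) (.I .com (.c 62889413446729 (.c 18689 .nil)) (.b 40 .nil))))))) (.node (.node (.node (.node (.node (.I .tdb (.c 0 (.c 8 (.c 16 (.c 24 .nil)))) (.b 18689 (.b 40 .nil))) (.I .adp (.c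 62886542409865 (.c 18689 (.c 40 .nil))) .nil)) (.node (.I .adp (.c 62889413446729 (.c 18689 (.c 40 .nil))) .nil) (.I .adp (.c 537002121 (.c 43356739 (.c 40 .nil))) .nil))) (.node (.node (.I .com (.c 3396729512033763431099245905595783011287492628034489438249630898057 (.c 40 .nil)) .nil) (.I .com (.c 3396625955800353299884767459015385612256323329785217664834308231177 (.c 40 .nil)) .nil)) (.node (.I .com (.c 14502334474273991518822959259732641470064367600756098493782322290052167697225 (.c 40 .nil)) .nil) (.I .com (.c 14502334474273994737414675204173677358479146806277544375998964923129615699977 (.c 40 .nil)) .nil)))) (.node (.node (.node (.I .jac (.c 231046163358603977 (.c 16 (.c 32 .nil))) (.l 40 .nil)) (.I .com (.c 6250089801726996879207608765537404554601554507410496736081853339185903374257568521 (.c 40 .nil)) .nil)) (.node (.I .com (.c 6250089801726996879207608765537404554544310755943914431560029185038756149077013385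 (.c 40 .nil)) .nil) (.I .com (.c 14502334474273991518822959259732641339268152602353466784623480578277457074185 (.c 40 .nil)) .nil))) (.node (.node (.I .jac (.c 0 (.c 4673 (.c 48 .nil))) (.b 8321 (.l 40 .nil))) (.I .jac (.c 0 (.c 8 (.c 24 .nil))) (.b 48 (.b 8321 (.l 40 .nil))))) (.node (.I .ass (.c 40 (.c 4609 (.c 59934265606904515465 .nil))) .nil) (.I .ass (.c 4609 (.c 40 (.c 59934265606904515465 .nil))) .nil))))) (.node (.node (.node (.node (.I .com (.c 40 (.c 4609 .nil)) (.r 59934265606904515465 .nil)) (.I .com (.c 59934265606904515465 (.c 40 .nil)) (.l 4609 .nil))) (.node (.I .ass (.c 40 (.c 59109065668069837705 (.c 4673 .nil))) .nil) (.I .com (.c 40 (.c 59109065668069837705 .nil)) (.r 4673 .nil)))) (.node (.node (.I .ass (.c 40 (.c 513 (.c 2454552647364603913 .nil))) .nil) (.I .ass (.c 513 (.c 40 (.c 2454552647364603913 .nil))) .nil)) (.node (.I .com (.c 40 (.c 513 .nil)) (.r 2454552647364603913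 .nil)) (.I .tdb (.c 0 (.c 16 (.c 8 (.c 24 .nil)))) (.b 18689 (.b 40 .nil)))))) (.node (.node (.node (.I .adp (.c 537002057 (.c 43356803 (.c 40 .nil))) .nil) (.I .jac (.c 2718204105 (.c 8257 (.c 16 .nil))) (.l 40 .nil))) (.node (.I .com (.c 59109068451510808329 (.c 8257 .nil)) (.l 40 .nil)) (.I .jac (.c 2306969673777850185 (.c 16 (.c 48 .nil))) (.l 40 .nil)))) (.node (.node (.I .jac (.c 537002057 (.c 16 (.c 48 .nil))) (.b 24 (.l 40 .nil))) (.I .jac (.c 537002057 (.c 4737 (.c 48 .nil))) (.l 40 .nil))) (.node (.I .jac (.c 537002057 (.c 16 (.c 24 .nil))) (.b 48 (.l 40 .nil))) (.I .com (.c 2306969673777850185 (.c 18561 .nil)) (.l 40 .nil))))))))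

noncomputable def c5_178 : Tr := (.node (.node (.node (.node (.node (.node (.I .com (.c 2306969673777850377 (.c 4737 .nil)) (.l 40 .nil)) (.I .com (.c 580749782704393 (.c 18561 .nil)) (.b 40 .nil))) (.node (.I .com (.c 1459023842844927484074647864604429763639957824210585071322594815179296777 (.c 40 .nil)) .nil) (.I .jac (.c 9025011228269257 (.c 24 (.c 32 .nil))) (.l 40 .nil)))) (.node (.node (.I .jac (.c 35473026505481 (.c 24 (.c 32 .nil))) (.l 40 .nil)) (.I .com (.c 1459023842844925867468420828021683444044742766794540321123362406827848713 (.c 40 .nil)) .nil)) (.node (.I .jac (.c 59109065668069837513 (.c 24 (.c 32 .nil))) (.l 40 .nil)) (.I .tdb (.c 0 (.c 48 (.c 8 (.c 16 .nil)))) (.b 8385 (.b 40 .nil)))))) (.node (.node (.node (.I .jac (.c 2718204041 (.c 4673 (.c 32 .nil))) (.l 40 .nil)) (.I .com (.c 59109065668069837641 (.c 8257 .nil)) (.l 40 .nil))) (.node (.I .com (.c 59109065668069837705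 (.c 4673 .nil)) (.l 40 .nil)) (.I .jac (.c 2718203977 (.c 8321 (.c 24 .nil))) (.l 40 .nil)))) (.node (.node (.I .jac (.c 2718203977 (.c 16 (.c 32 .nil))) (.b 24 (.l 40 .nil))) (.I .jac (.c 2718203977 (.c 16 (.c 24 .nil))) (.b 32 (.l 40 .nil)))) (.node (.I .com (.c 59109062884628932425 (.c 8321 .nil)) (.l 40 .nil)) (.I .com (.c 59109062884628932489 (.c 4737 .nil)) (.l 40 .nil)))))) (.node (.node (.node (.node (.I .tdb (.c 0 (.c 24 (.c 32 (.c 8 .nil)))) (.l 18561 (.b 40 .nil))) (.I .tdb (.c 0 (.c 48 (.c 8 (.c 24 .nil)))) (.l 8321 (.b 40 .nil)))) (.node (.I .com (.c 14629225721520457 (.c 4737 .nil)) (.b 40 .nil)) (.I .jac (.c 8 (.c 16 (.c 32 .nil))) (.b 2718204105 (.l 40 .nil))))) (.node (.node (.I .jac (.c 18433 (.c 35718409 (.c 24 .nil))) (.l 40 .nil)) (.I .jac (.c 18433 (.c 2113 (.c 32 .nil))) (.b 24 (.l 40 .nil)))) (.node (.I .jac (.c 18433 (.c 8 (.c 16 .nil))) (.b 32 (.b 24 (.l 40 .nil))))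 (.I .jac (.c 8193 (.c 16 (.c 24 .nil))) (.b 18497 (.l 40 .nil)))))) (.node (.node (.node (.I .jac (.c 18433 (.c 35718345 (.c 32 .nil))) (.l 40 .nil)) (.I .jac (.c 18433 (.c 2113 (.c 24 .nil))) (.b 32 (.l 40 .nil)))) (.node (.I .jac (.c 18433 (.c 8 (.c 16 .nil))) (.b 24 (.b 32 (.l 40 .nil)))) (.I .jac (.c 18433 (.c 16 (.c 32 .nil))) (.l 4673 (.l 40 .nil))))) (.node (.node (.I .jac (.c 18433 (.c 16 (.c 24 .nil))) (.l 8257 (.l 40 .nil))) (.I .jac (.c 4609 (.c 8 (.c 32 .nil))) (.b 18561 (.b 40 .nil)))) (.node (.I .jac (.c 0 (.c 8257 (.c 24 .nil))) (.b 18561 (.b 40 .nil))) (.I .jac (.c 0 (.c 8 (.c 32 .nil))) (.b 24 (.b 18561 (.b 40 .nil))))))))) (.node (.node (.node (.node (.node (.I .jac (.c 4609 (.c 8 (.c 32 .nil))) (.b 18561 (.l 40 .nil))) (.I .jac (.c 8193 (.c 8 (.c 24 .nil))) (.b 18561 (.b 40 .nil)))) (.node (.I .jac (.c 8193 (.c 8 (.c 24 .nil))) (.b 18561 (.l 40 .nil))) (.I .jac (.c 0 (.c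 8257 (.c 16 .nil))) (.b 18625 (.b 40 .nil))))) (.node (.node (.I .jac (.c 0 (.c 8 (.c 32 .nil))) (.b 16 (.b 18625 (.b 40 .nil)))) (.I .jac (.c 2049 (.c 8 (.c 32 .nil))) (.b 18625 (.l 40 .nil)))) (.node (.I .jac (.c 8193 (.c 8 (.c 16 .nil))) (.b 18625 (.b 40 .nil))) (.I .jac (.c 0 (.c 2113 (.c 32 .nil))) (.b 18625 (.l 40 .nil)))))) (.node (.node (.node (.I .jac (.c 0 (.c 8 (.c 16 .nil))) (.b 32 (.b 18625 (.l 40 .nil)))) (.I .tdb (.c 0 (.c 48 (.c 8 (.c 16 .nil)))) (.l 8385 (.b 40 .nil)))) (.node (.I .com (.c 14832759703961737 (.c 8385 .nil)) (.b 40 .nil)) (.I .jac (.c 8 (.c 16 (.c 24 .nil))) (.b 537002377 (.l 40 .nil))))) (.node (.node (.I .jac (.c 9024908047478473 (.c 32 (.c 48 .nil))) (.l 40 .nil)) (.I .jac (.c 2049 (.c 8 (.c 24 .nil))) (.b 18689 (.l 40 .nil)))) (.node (.I .jac (.c 4609 (.c 8 (.c 16 .nil))) (.b 18689 (.b 40 .nil))) (.I .jac (.c 0 (.c 2113 (.c 24 .nil))) (.b 18689 (.b 40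 .nil))))))) (.node (.node (.node (.node (.I .jac (.c 0 (.c 8 (.c 16 .nil))) (.b 24 (.b 18689 (.b 40 .nil)))) (.I .jac (.c 35464401931081 (.c 32 (.c 48 .nil))) (.l 40 .nil))) (.node (.I .jac (.c 0 (.c 2113 (.c 24 .nil))) (.b 18689 (.l 40 .nil))) (.I .jac (.c 0 (.c 8 (.c 16 .nil))) (.b 24 (.b 18689 (.l 40 .nil)))))) (.node (.node (.I .jac (.c 62889413446729 (.c 32 (.c 48 .nil))) (.l 40 .nil)) (.I .jac (.c 62886542409865 (.c 32 (.c 48 .nil))) (.l 40 .nil))) (.node (.I .jac (.c 59555558875337 (.c 32 (.c 48 .nil))) (.l 40 .nil)) (.I .jac (.c 513 (.c 16 (.c 24 .nil))) (.b 18689 (.b 40 .nil)))))) (.node (.node (.node (.I .tdb (.c 8 (.c 48 (.c 16 (.c 32 .nil)))) (.b 24 (.t 0 40 .nil))) (.I .tdb (.c 8 (.c 48 (.c 24 (.c 32 .nil)))) (.b 16 (.t 0 40 .nil)))) (.node (.I .tdb (.c 8 (.c 48 (.c 16 (.c 24 .nil)))) (.b 32 (.t 0 40 .nil))) (.I .adp (.c 24 (.c 32 (.c 48 .nil))) (.b 2113 (.l 12801 .nil)))))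 (.node (.node (.I .com (.c 8257 (.c 24 .nil)) (.b 18561 (.l 12801 .nil))) (.I .adp (.c 24 (.c 32 (.c 8 .nil))) (.b 18561 (.l 12801 .nil)))) (.node (.I .com (.c 8321 (.c 24 .nil)) (.b 18497 (.l 12801 .nil))) (.I .adp (.c 24 (.c 32 (.c 16 .nil))) (.b 18497 (.l 12801 .nil)))))))))

noncomputable def c5_179 : Tr := (.node (.node (.node (.node (.node (.node (.I .adp (.c 16 (.c 32 (.c 48 .nil))) (.b 4673 (.l 12801 .nil))) (.I .adp (.c 16 (.c 32 (.c 8 .nil))) (.b 18625 (.l 12801 .nil)))) (.node (.I .com (.c 8257 (.c 16 .nil)) (.b 18625 (.l 12801 .nil))) (.I .adp (.c 16 (.c 32 (.c 24 .nil))) (.b 18497 (.l 12801 .nil))))) (.node (.node (.I .adp (.c 8 (.c 32 (.c 48 .nil))) (.b 4737 (.l 12801 .nil))) (.I .adp (.c 8 (.c 32 (.c 16 .nil))) (.b 18625 (.l 12801 .nil)))) (.node (.I .adp (.c 8 (.c 32 (.c 24 .nil))) (.b 18561 (.l 12801 .nil))) (.I .adp (.c 16 (.c 24 (.c 8 .nil))) (.b 18689 (.l 12801 .nil))))))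 (.node (.node (.node (.I .com (.c 4673 (.c 16 .nil)) (.b 18689 (.l 12801 .nil))) (.I .adp (.c 16 (.c 24 (.c 48 .nil))) (.b 8257 (.l 12801 .nil)))) (.node (.I .adp (.c 16 (.c 24 (.c 32 .nil))) (.b 18497 (.l 12801 .nil))) (.I .adp (.c 8 (.c 24 (.c 16 .nil))) (.b 18689 (.l 12801 .nil))))) (.node (.node (.I .adp (.c 8 (.c 24 (.c 48 .nil))) (.b 8321 (.l 12801 .nil))) (.I .adp (.c 8 (.c 24 (.c 32 .nil))) (.b 18561 (.l 12801 .nil)))) (.node (.I .adp (.c 8 (.c 16 (.c 24 .nil))) (.b 18689 (.l 12801 .nil))) (.I .adp (.c 8 (.c 16 (.c 32 .nil))) (.b 18625 (.l 12801 .nil))))))) (.node (.node (.node (.node (.I .adp (.c 8 (.c 16 (.c 48 .nil))) (.b 8385 (.l 12801 .nil))) (.I .jac (.c 2718204169 (.c 16 (.c 24 .nil))) (.b 8 (.b 40 .nil)))) (.node (.I .jac (.c 537002377 (.c 16 (.c 24 .nil))) (.b 8 (.b 40 .nil))) (.I .jac (.c 2049 (.c 24 (.c 48 .nil))) (.b 32 (.b 8 (.l 40 .nil)))))) (.node (.node (.I .jac (.c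 2049 (.c 24 (.c 32 .nil))) (.b 48 (.b 8 (.l 40 .nil)))) (.I .jac (.c 169943433 (.c 16 (.c 32 .nil))) (.b 8 (.l 40 .nil)))) (.node (.I .jac (.c 169943305 (.c 16 (.c 48 .nil))) (.b 8 (.l 40 .nil))) (.I .jac (.c 4609 (.c 16 (.c 48 .nil))) (.b 32 (.b 8 (.l 40 .nil))))))) (.node (.node (.node (.I .jac (.c 4609 (.c 16 (.c 32 .nil))) (.b 48 (.b 8 (.l 40 .nil)))) (.I .tdb (.c 0 (.c 32 (.c 24 (.c 48 .nil)))) (.b 16 (.t 8 40 .nil)))) (.node (.I .jac (.c 537002185 (.c 16 (.c 48 .nil))) (.b 8 (.b 40 .nil))) (.I .jac (.c 8193 (.c 16 (.c 48 .nil))) (.b 24 (.b 8 (.b 40 .nil)))))) (.node (.node (.I .jac (.c 2718204105 (.c 16 (.c 32 .nil))) (.b 8 (.b 40 .nil))) (.I .jac (.c 8193 (.c 16 (.c 48 .nil))) (.b 24 (.b 8 (.l 40 .nil))))) (.node (.I .jac (.c 8193 (.c 16 (.c 24 .nil))) (.b 48 (.b 8 (.l 40 .nil)))) (.I .jac (.c 0 (.c 16 (.c 48 .nil))) (.b 8385 (.l 12865 .nil)))))))) (.node (.node (.node (.node (.node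 (.I .jac (.c 0 (.c 16 (.c 48 .nil))) (.b 8385 (.b 40 (.l 8 .nil)))) (.I .jac (.c 2718204041 (.c 24 (.c 32 .nil))) (.b 8 (.b 40 .nil)))) (.node (.I .jac (.c 18433 (.c 16 (.c 32 .nil))) (.b 24 (.b 8 (.b 40 .nil)))) (.I .jac (.c 18433 (.c 16 (.c 32 .nil))) (.b 24 (.b 8 (.l 40 .nil)))))) (.node (.node (.I .jac (.c 18433 (.c 16 (.c 24 .nil))) (.b 32 (.b 8 (.l 40 .nil)))) (.I .com (.c 8321 (.c 24 .nil)) (.b 18433 (.l 12865 .nil)))) (.node (.I .adp (.c 24 (.c 32 (.c 16 .nil))) (.b 18433 (.l 12865 .nil))) (.I .jac (.c 537002121 (.c 24 (.c 48 .nil))) (.b 8 (.b 40 .nil)))))) (.node (.node (.node (.I .adp (.c 16 (.c 32 (.c 24 .nil))) (.b 18433 (.l 12865 .nil))) (.I .jac (.c 0 (.c 16 (.c 24 .nil))) (.b 18689 (.b 40 (.b 8 .nil))))) (.node (.I .jac (.c 169943177 (.c 32 (.c 48 .nil))) (.b 8 (.l 40 .nil))) (.I .adp (.c 16 (.c 24 (.c 32 .nil))) (.b 18433 (.l 12865 .nil))))) (.node (.node (.I .jac (.c 169943433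 (.c 8 (.c 32 .nil))) (.l 12929 .nil)) (.I .jac (.c 169943305 (.c 8 (.c 48 .nil))) (.l 12929 .nil))) (.node (.I .jac (.c 4609 (.c 18497 (.c 32 .nil))) (.l 12929 .nil)) (.I .jac (.c 4609 (.c 8257 (.c 48 .nil))) (.l 12929 .nil)))))) (.node (.node (.node (.node (.I .com (.c 427058636821846429560832352193444553 (.c 12929 .nil)) .nil) (.I .com (.c 427057350195049030035896088956977865 (.c 12929 .nil)) .nil)) (.node (.I .jac (.c 2105737 (.c 24 (.c 32 .nil))) (.b 16 (.b 40 .nil))) (.I .jac (.c 2105609 (.c 24 (.c 48 .nil))) (.b 16 (.b 40 .nil))))) (.node (.node (.I .jac (.c 513 (.c 24 (.c 48 .nil))) (.b 32 (.b 16 (.b 40 .nil)))) (.I .jac (.c 2105737 (.c 24 (.c 32 .nil))) (.b 16 (.l 40 .nil)))) (.node (.I .jac (.c 2105609 (.c 24 (.c 48 .nil))) (.b 16 (.l 40 .nil))) (.I .jac (.c 513 (.c 24 (.c 32 .nil))) (.b 48 (.b 16 (.l 40 .nil))))))) (.node (.node (.node (.I .com (.c 169943305 (.c 18497 .nil)) (.l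 12929 .nil)) (.I .ass (.c 12929 (.c 231046163358603977 (.c 32 .nil))) .nil)) (.node (.I .com (.c 12929 (.c 231046163358603977 .nil)) (.r 32 .nil)) (.I .tdb (.c 0 (.c 32 (.c 8 (.c 48 .nil)))) (.b 24 (.l 12929 .nil))))) (.node (.node (.I .ass (.c 12929 (.c 59109068451510808265 (.c 32 .nil))) .nil) (.I .com (.c 12929 (.c 59109068451510808265 .nil)) (.r 32 .nil))) (.node (.I .com (.c 231045815314584265 (.c 43954819 .nil)) .nil) (.I .tdb (.c 0 (.c 48 (.c 24 (.c 32 .nil)))) (.b 8 (.t 16 40 .nil)))))))))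

noncomputable def c5_180 : Tr := (.node (.node (.node (.node (.node (.node (.I .com (.c 2306970773558193865 (.c 43954819 .nil)) .nil) (.I .jac (.c 537002185 (.c 8 (.c 48 .nil))) (.l 12929 .nil))) (.node (.I .jac (.c 8193 (.c 18497 (.c 24 .nil))) (.l 12929 .nil)) (.I .jac (.c 8193 (.c 4673 (.c 48 .nil))) (.l 12929 .nil)))) (.node (.node (.I .com (.c 42576913200413542961749526065342513865 (.c 12929 .nil)) .nil) (.I .jac (.c 2718204105 (.c 8 (.c 32 .nil))) (.l 12929 .nil))) (.node (.I .com (.c 27951055785643122908012690443949941766857 (.c 12929 .nil)) .nil) (.I .com (.c 537002185 (.c 18497 .nil)) (.l 12929 .nil))))) (.node (.node (.node (.I .ass (.c 12929 (.c 2306972423229201097 (.c 24 .nil))) .nil) (.I .com (.c 12929 (.c 2306972423229201097 .nil)) (.r 24 .nil))) (.node (.I .ass (.c 12929 (.c 59109071234951844553 (.c 24 .nil))) .nil) (.I .com (.c 12929 (.c 59109071234951844553 .nil)) (.r 24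 .nil)))) (.node (.node (.I .tdb (.c 0 (.c 48 (.c 8 (.c 24 .nil)))) (.b 32 (.t 16 40 .nil))) (.I .jac (.c 0 (.c 8 (.c 48 .nil))) (.b 8385 (.b 40 (.l 16 .nil))))) (.node (.I .jac (.c 2718203977 (.c 24 (.c 32 .nil))) (.b 16 (.b 40 .nil))) (.I .jac (.c 2718203977 (.c 24 (.c 32 .nil))) (.b 16 (.l 40 .nil))))))) (.node (.node (.node (.node (.I .jac (.c 18433 (.c 8257 (.c 24 .nil))) (.l 12929 .nil)) (.I .com (.c 2718204105 (.c 8257 .nil)) (.l 12929 .nil))) (.node (.I .com (.c 2718204169 (.c 4673 .nil)) (.l 12929 .nil)) (.I .com (.c 8257 (.c 24 .nil)) (.b 18433 (.l 12929 .nil))))) (.node (.node (.I .adp (.c 24 (.c 32 (.c 8 .nil))) (.b 18433 (.l 12929 .nil))) (.I .jac (.c 537002057 (.c 24 (.c 48 .nil))) (.b 16 (.l 40 .nil)))) (.node (.I .adp (.c 8 (.c 32 (.c 24 .nil))) (.b 18433 (.l 12929 .nil))) (.I .jac (.c 169943113 (.c 32 (.c 48 .nil))) (.b 16 (.b 40 .nil)))))) (.node (.node (.node (.I .jac (.c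 2105545 (.c 32 (.c 48 .nil))) (.b 16 (.b 40 .nil))) (.I .jac (.c 169943113 (.c 32 (.c 48 .nil))) (.b 16 (.l 40 .nil)))) (.node (.I .jac (.c 2105545 (.c 32 (.c 48 .nil))) (.b 16 (.l 40 .nil))) (.I .adp (.c 8 (.c 24 (.c 32 .nil))) (.b 18433 (.l 12929 .nil))))) (.node (.node (.I .jac (.c 2728451 (.c 32 (.c 48 .nil))) (.b 16 (.b 40 .nil))) (.I .jac (.c 0 (.c 4673 (.c 48 .nil))) (.b 32 (.l 12929 .nil)))) (.node (.I .jac (.c 0 (.c 8 (.c 24 .nil))) (.b 48 (.b 32 (.l 12929 .nil)))) (.I .jac (.c 0 (.c 4673 (.c 32 .nil))) (.b 48 (.l 12929 .nil)))))))) (.node (.node (.node (.node (.node (.I .jac (.c 0 (.c 8 (.c 24 .nil))) (.b 32 (.b 48 (.l 12929 .nil)))) (.I .jac (.c 0 (.c 8257 (.c 48 .nil))) (.b 24 (.l 12929 .nil)))) (.node (.I .jac (.c 0 (.c 8 (.c 32 .nil))) (.b 48 (.b 24 (.l 12929 .nil)))) (.I .jac (.c 0 (.c 8257 (.c 24 .nil))) (.b 48 (.l 12929 .nil))))) (.node (.node (.I .jac (.c 0 (.c 8 (.c 32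 .nil))) (.b 24 (.b 48 (.l 12929 .nil)))) (.I .jac (.c 4609 (.c 32 (.c 48 .nil))) (.b 16 (.b 40 (.l 8 .nil))))) (.node (.I .jac (.c 8193 (.c 24 (.c 48 .nil))) (.b 16 (.b 40 (.l 8 .nil)))) (.I .jac (.c 18433 (.c 24 (.c 32 .nil))) (.b 16 (.b 40 (.l 8 .nil))))))) (.node (.node (.node (.I .jac (.c 4609 (.c 32 (.c 48 .nil))) (.b 16 (.b 8 (.b 40 .nil)))) (.I .jac (.c 8193 (.c 24 (.c 48 .nil))) (.b 16 (.b 8 (.b 40 .nil))))) (.node (.I .jac (.c 18433 (.c 24 (.c 32 .nil))) (.b 16 (.b 8 (.b 40 .nil)))) (.I .jac (.c 4609 (.c 32 (.c 48 .nil))) (.b 8 (.b 40 (.l 16 .nil)))))) (.node (.node (.I .jac (.c 8193 (.c 24 (.c 48 .nil))) (.b 8 (.b 40 (.l 16 .nil)))) (.I .jac (.c 18433 (.c 24 (.c 32 .nil))) (.b 8 (.b 40 (.l 16 .nil))))) (.node (.I .jac (.c 4609 (.c 32 (.c 48 .nil))) (.b 8 (.b 16 (.b 40 .nil)))) (.I .jac (.c 8193 (.c 24 (.c 48 .nil))) (.b 8 (.b 16 (.b 40 .nil)))))))) (.node (.node (.node (.node (.I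 .jac (.c 18433 (.c 24 (.c 32 .nil))) (.b 8 (.b 16 (.b 40 .nil)))) (.I .jac (.c 2105609 (.c 16 (.c 48 .nil))) (.l 12993 .nil))) (.node (.I .jac (.c 513 (.c 16 (.c 32 .nil))) (.b 48 (.l 12993 .nil))) (.I .com (.c 10066684875741109290467687177 (.c 12993 .nil)) .nil))) (.node (.node (.I .jac (.c 33587593 (.c 8 (.c 32 .nil))) (.l 12993 .nil)) (.I .jac (.c 2049 (.c 8 (.c 48 .nil))) (.b 32 (.l 12993 .nil)))) (.node (.I .jac (.c 2049 (.c 8 (.c 32 .nil))) (.b 48 (.l 12993 .nil))) (.I .com (.c 651606621363117027878554774108873 (.c 12993 .nil)) .nil)))) (.node (.node (.node (.I .jac (.c 2718204169 (.c 8 (.c 16 .nil))) (.l 12993 .nil)) (.I .jac (.c 537002377 (.c 8 (.c 16 .nil))) (.l 12993 .nil))) (.node (.I .com (.c 27951058418068892682374487223447295013577 (.c 12993 .nil)) .nil) (.I .com (.c 42576974092320099556365595025629983433 (.c 12993 .nil)) .nil))) (.node (.node (.I .com (.c 27951058418068892621846798278856606158601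 (.c 12993 .nil)) .nil) (.I .com (.c 42576974092320097194025833638928027401 (.c 12993 .nil)) .nil)) (.node (.I .com (.c 2105609 (.c 18561 .nil)) (.l 12993 .nil)) (.I .ass (.c 12993 (.c 35473026505481 (.c 32 .nil))) .nil)))))))

noncomputable def c5_181 : Tr := (.node (.node (.node (.node (.node (.node (.I .com (.c 12993 (.c 35473026505481 .nil)) (.r 32 .nil)) (.I .com (.c 33587465 (.c 18497 .nil)) (.l 12993 .nil))) (.node (.I .ass (.c 12993 (.c 9025011228269257 (.c 32 .nil))) .nil) (.I .com (.c 12993 (.c 9025011228269257 .nil)) (.r 32 .nil)))) (.node (.node (.I .ass (.c 12993 (.c 59109065668069837513 (.c 32 .nil))) .nil) (.I .com (.c 12993 (.c 59109065668069837513 .nil)) (.r 32 .nil))) (.node (.I .ass (.c 12993 (.c 59109062884628932361 (.c 32 .nil))) .nil) (.I .com (.c 12993 (.c 59109062884628932361 .nil)) (.r 32 .nil))))) (.node (.node (.node (.I .tdb (.c 0 (.c 48 (.c 8 (.c 32 .nil)))) (.b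 16 (.t 24 40 .nil))) (.I .tdb (.c 0 (.c 48 (.c 16 (.c 32 .nil)))) (.b 8 (.t 24 40 .nil)))) (.node (.I .jac (.c 537002121 (.c 8 (.c 48 .nil))) (.l 12993 .nil)) (.I .jac (.c 8193 (.c 8 (.c 48 .nil))) (.b 16 (.l 12993 .nil))))) (.node (.node (.I .jac (.c 8193 (.c 8 (.c 16 .nil))) (.b 48 (.l 12993 .nil))) (.I .com (.c 42576892903125868487846022299823817417 (.c 12993 .nil)) .nil)) (.node (.I .com (.c 42576872605845451114770277207992337161 (.c 12993 .nil)) .nil) (.I .tdb (.c 0 (.c 48 (.c 8 (.c 16 .nil)))) (.b 32 (.t 24 40 .nil))))))) (.node (.node (.node (.node (.I .jac (.c 2718203977 (.c 16 (.c 32 .nil))) (.l 12993 .nil)) (.I .jac (.c 18433 (.c 8 (.c 32 .nil))) (.b 16 (.l 12993 .nil)))) (.node (.I .jac (.c 18433 (.c 2113 (.c 32 .nil))) (.l 12993 .nil)) (.I .com (.c 2718204169 (.c 2113 .nil)) (.l 12993 .nil)))) (.node (.node (.I .jac (.c 0 (.c 8 (.c 32 .nil))) (.b 18561 (.b 40 (.b 24 .nil))))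 (.I .jac (.c 33587273 (.c 32 (.c 48 .nil))) (.b 24 (.b 40 .nil)))) (.node (.I .jac (.c 2105481 (.c 32 (.c 48 .nil))) (.b 24 (.b 40 .nil))) (.I .jac (.c 0 (.c 8 (.c 16 .nil))) (.b 18689 (.b 24 (.b 40 .nil))))))) (.node (.node (.node (.I .jac (.c 2105481 (.c 32 (.c 48 .nil))) (.b 24 (.l 40 .nil))) (.I .jac (.c 2049 (.c 32 (.c 48 .nil))) (.b 21099075 .nil))) (.node (.I .jac (.c 2049 (.c 32 (.c 48 .nil))) (.b 24 (.b 8 (.b 40 .nil)))) (.I .jac (.c 2049 (.c 32 (.c 48 .nil))) (.b 24 (.b 8 (.l 40 .nil)))))) (.node (.node (.I .jac (.c 8193 (.c 16 (.c 48 .nil))) (.l 24 (.l 12865 .nil))) (.I .com (.c 2306972423229201161 (.c 24 .nil)) (.l 12865 .nil))) (.node (.I .jac (.c 18433 (.c 16 (.c 32 .nil))) (.l 24 (.l 12865 .nil))) (.I .com (.c 59109071234951844617 (.c 24 .nil)) (.l 12865 .nil))))))) (.node (.node (.node (.node (.node (.I .jac (.c 2049 (.c 32 (.c 48 .nil))) (.b 8 (.b 40 (.l 24 .nil)))) (.I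 .jac (.c 8193 (.c 16 (.c 48 .nil))) (.b 8 (.b 40 (.l 24 .nil))))) (.node (.I .jac (.c 18433 (.c 16 (.c 32 .nil))) (.b 8 (.b 40 (.l 24 .nil)))) (.I .jac (.c 2049 (.c 32 (.c 48 .nil))) (.b 8 (.b 24 (.b 40 .nil)))))) (.node (.node (.I .jac (.c 8193 (.c 16 (.c 48 .nil))) (.b 8 (.b 24 (.b 40 .nil)))) (.I .jac (.c 18433 (.c 16 (.c 32 .nil))) (.b 8 (.b 24 (.b 40 .nil))))) (.node (.I .jac (.c 2049 (.c 32 (.c 48 .nil))) (.b 8 (.b 24 (.l 40 .nil)))) (.I .jac (.c 8193 (.c 16 (.c 48 .nil))) (.b 8 (.b 24 (.l 40 .nil))))))) (.node (.node (.node (.I .jac (.c 18433 (.c 16 (.c 32 .nil))) (.b 8 (.b 24 (.l 40 .nil)))) (.I .jac (.c 8193 (.c 8 (.c 48 .nil))) (.l 1337272521 .nil))) (.node (.I .com (.c 2306972423229201097 (.c 1337272521 .nil)) .nil) (.I .jac (.c 18433 (.c 8 (.c 32 .nil))) (.l 1337272521 .nil)))) (.node (.node (.I .com (.c 59109071234951844553 (.c 1337272521 .nil)) .nil) (.I .jac (.c 513 (.c 32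 (.c 48 .nil))) (.b 21099139 .nil))) (.node (.I .jac (.c 8193 (.c 8 (.c 48 .nil))) (.l 21099139 .nil)) (.I .jac (.c 18433 (.c 8 (.c 32 .nil))) (.l 21099139 .nil)))))) (.node (.node (.node (.node (.I .jac (.c 8193 (.c 8 (.c 48 .nil))) (.l 12929 (.l 24 .nil))) (.I .com (.c 2306972423229201097 (.c 12929 .nil)) (.l 24 .nil))) (.node (.I .jac (.c 18433 (.c 8 (.c 32 .nil))) (.l 12929 (.l 24 .nil))) (.I .com (.c 59109071234951844553 (.c 12929 .nil)) (.l 24 .nil)))) (.node (.node (.I .jac (.c 513 (.c 32 (.c 48 .nil))) (.l 40 (.l 4737 .nil))) (.I .com (.c 35473026505609 (.c 40 .nil)) (.l 4737 .nil))) (.node (.I .jac (.c 8193 (.c 8 (.c 48 .nil))) (.l 40 (.l 4737 .nil))) (.I .com (.c 2306972423229201097 (.c 40 .nil)) (.l 4737 .nil))))) (.node (.node (.node (.I .jac (.c 18433 (.c 8 (.c 32 .nil))) (.l 40 (.l 4737 .nil))) (.I .com (.c 59109071234951844553 (.c 40 .nil)) (.l 4737 .nil))) (.node (.I .com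 (.c 59109062884628932489 (.c 40 .nil)) (.l 4737 .nil)) (.I .jac (.c 8193 (.c 8 (.c 48 .nil))) (.l 4737 (.l 40 .nil))))) (.node (.node (.I .com (.c 2306972423229201097 (.c 4737 .nil)) (.l 40 .nil)) (.I .jac (.c 18433 (.c 8 (.c 32 .nil))) (.l 4737 (.l 40 .nil)))) (.node (.I .com (.c 59109071234951844553 (.c 4737 .nil)) (.l 40 .nil)) (.I .jac (.c 513 (.c 32 (.c 48 .nil))) (.b 24 (.b 40 (.b 16 .nil))))))))))

noncomputable def c5_182 : Tr := (.node (.node (.node (.node (.node (.node (.I .jac (.c 513 (.c 32 (.c 48 .nil))) (.b 24 (.b 40 (.l 16 .nil)))) (.I .jac (.c 513 (.c 32 (.c 48 .nil))) (.b 24 (.b 16 (.b 40 .nil))))) (.node (.I .jac (.c 8193 (.c 8 (.c 48 .nil))) (.l 24 (.l 12929 .nil))) (.I .com (.c 2306972423229201097 (.c 24 .nil)) (.l 12929 .nil)))) (.node (.node (.I .jac (.c 18433 (.c 8 (.c 32 .nil))) (.l 24 (.l 12929 .nil))) (.I .com (.c 59109071234951844553 (.c 24 .nil)) (.l 12929 .nil)))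 (.node (.I .jac (.c 513 (.c 32 (.c 48 .nil))) (.b 16 (.l 12993 .nil))) (.I .jac (.c 513 (.c 32 (.c 48 .nil))) (.b 16 (.b 40 (.b 24 .nil))))))) (.node (.node (.node (.I .jac (.c 513 (.c 32 (.c 48 .nil))) (.b 16 (.b 24 (.b 40 .nil)))) (.I .jac (.c 2105545 (.c 16 (.c 48 .nil))) (.l 13057 .nil))) (.node (.I .jac (.c 513 (.c 18561 (.c 24 .nil))) (.l 13057 .nil)) (.I .jac (.c 513 (.c 4737 (.c 48 .nil))) (.l 13057 .nil)))) (.node (.node (.I .com (.c 10066684875704784911325976329 (.c 13057 .nil)) .nil) (.I .com (.c 10063013877651720715266097929 (.c 13057 .nil)) .nil)) (.node (.I .jac (.c 33587593 (.c 8 (.c 24 .nil))) (.l 13057 .nil)) (.I .jac (.c 33587401 (.c 8 (.c 48 .nil))) (.l 13057 .nil)))))) (.node (.node (.node (.node (.I .jac (.c 2049 (.c 18497 (.c 24 .nil))) (.l 13057 .nil)) (.I .jac (.c 2049 (.c 8 (.c 24 .nil))) (.b 48 (.l 13057 .nil)))) (.node (.I .jac (.c 169943433 (.c 8 (.c 16 .nil)))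 (.l 13057 .nil)) (.I .com (.c 27951055785643122786957318255255806177993 (.c 13057 .nil)) .nil))) (.node (.node (.I .com (.c 27951055785643122726429632160908738481929 (.c 13057 .nil)) .nil) (.I .com (.c 2105737 (.c 4737 .nil)) (.l 13057 .nil))) (.node (.I .com (.c 33587593 (.c 4673 .nil)) (.l 13057 .nil)) (.I .com (.c 35466557976329 (.c 43954947 .nil)) .nil)))) (.node (.node (.node (.I .com (.c 35464401931081 (.c 43954947 .nil)) .nil) (.I .jac (.c 43356675 (.c 8 (.c 16 .nil))) (.t 32 40 .nil))) (.node (.I .tdb (.c 0 (.c 48 (.c 8 (.c 24 .nil)))) (.b 16 (.t 32 40 .nil))) (.I .jac (.c 169943177 (.c 8 (.c 48 .nil))) (.l 13057 .nil)))) (.node (.node (.I .jac (.c 4609 (.c 18497 (.c 16 .nil))) (.l 13057 .nil)) (.I .jac (.c 4609 (.c 2113 (.c 48 .nil))) (.l 13057 .nil))) (.node (.I .jac (.c 4609 (.c 8 (.c 16 .nil))) (.b 48 (.l 13057 .nil))) (.I .com (.c 427055420260303274284998876733539081 (.c 13057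 .nil)) .nil)))))) (.node (.node (.node (.node (.node (.I .com (.c 27951053153217538893119514365376803559113 (.c 13057 .nil)) .nil) (.I .com (.c 651606621363089303044061530656585 (.c 13057 .nil)) .nil)) (.node (.I .com (.c 169943433 (.c 2113 .nil)) (.l 13057 .nil)) (.I .jac (.c 43059203 (.c 8 (.c 24 .nil))) (.t 32 40 .nil)))) (.node (.node (.I .tdb (.c 0 (.c 48 (.c 8 (.c 16 .nil)))) (.b 24 (.t 32 40 .nil))) (.I .com (.c 27951050520792140819269269873301704274761 (.c 13057 .nil)) .nil)) (.node (.I .jac (.c 18433 (.c 8 (.c 16 .nil))) (.b 24 (.l 13057 .nil))) (.I .com (.c 2737112265 (.c 13057 .nil)) (.l 2049 .nil))))) (.node (.node (.node (.I .jac (.c 0 (.c 8 (.c 24 .nil))) (.b 18561 (.l 13057 .nil))) (.I .jac (.c 0 (.c 8 (.c 24 .nil))) (.b 18561 (.b 40 (.b 32 .nil))))) (.node (.I .jac (.c 0 (.c 8 (.c 24 .nil))) (.b 18561 (.b 32 (.b 40 .nil)))) (.I .com (.c 2756085961 (.c 13057 .nil)) (.l 513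 .nil)))) (.node (.node (.I .jac (.c 2728451 (.c 16 (.c 48 .nil))) (.t 32 40 .nil)) (.I .jac (.c 557571 (.c 24 (.c 48 .nil))) (.l 13057 .nil))) (.node (.I .jac (.c 0 (.c 4673 (.c 48 .nil))) (.b 16 (.l 13057 .nil))) (.I .jac (.c 0 (.c 8 (.c 24 .nil))) (.b 48 (.b 16 (.l 13057 .nil)))))))) (.node (.node (.node (.node (.I .jac (.c 2049 (.c 24 (.c 48 .nil))) (.l 40 (.l 8257 .nil))) (.I .com (.c 9025011228269385 (.c 40 .nil)) (.l 8257 .nil))) (.node (.I .jac (.c 4609 (.c 16 (.c 48 .nil))) (.l 40 (.l 8257 .nil))) (.I .com (.c 231046163358604041 (.c 40 .nil)) (.l 8257 .nil)))) (.node (.node (.I .jac (.c 18433 (.c 16 (.c 24 .nil))) (.l 40 (.l 8257 .nil))) (.I .com (.c 59109068451510808329 (.c 40 .nil)) (.l 8257 .nil))) (.node (.I .com (.c 59109065668069837641 (.c 40 .nil)) (.l 8257 .nil)) (.I .jac (.c 2049 (.c 24 (.c 48 .nil))) (.l 32 (.l 12865 .nil)))))) (.node (.node (.node (.I .com (.c 9025011228269385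 (.c 32 .nil)) (.l 12865 .nil)) (.I .jac (.c 4609 (.c 16 (.c 48 .nil))) (.l 32 (.l 12865 .nil)))) (.node (.I .com (.c 231046163358604041 (.c 32 .nil)) (.l 12865 .nil)) (.I .jac (.c 18433 (.c 16 (.c 24 .nil))) (.l 32 (.l 12865 .nil))))) (.node (.node (.I .com (.c 59109068451510808329 (.c 32 .nil)) (.l 12865 .nil)) (.I .com (.c 59109065668069837641 (.c 32 .nil)) (.l 12865 .nil))) (.node (.I .jac (.c 2049 (.c 24 (.c 48 .nil))) (.b 8 (.l 13057 .nil))) (.I .jac (.c 4609 (.c 16 (.c 48 .nil))) (.b 8 (.l 13057 .nil)))))))))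

noncomputable def c5_183 : Tr := (.node (.node (.node (.node (.node (.node (.I .jac (.c 18433 (.c 16 (.c 24 .nil))) (.b 8 (.l 13057 .nil))) (.I .jac (.c 2049 (.c 24 (.c 48 .nil))) (.b 8 (.b 40 (.b 32 .nil))))) (.node (.I .jac (.c 4609 (.c 16 (.c 48 .nil))) (.b 8 (.b 40 (.b 32 .nil)))) (.I .jac (.c 18433 (.c 16 (.c 24 .nil))) (.b 8 (.b 40 (.b 32 .nil)))))) (.node (.node (.I .jac (.c 2049 (.c 24 (.c 48 .nil))) (.b 8 (.b 40 (.l 32 .nil)))) (.I .jac (.c 4609 (.c 16 (.c 48 .nil))) (.b 8 (.b 40 (.l 32 .nil))))) (.node (.I .jac (.c 18433 (.c 16 (.c 24 .nil))) (.b 8 (.b 40 (.l 32 .nil)))) (.I .jac (.c 2049 (.c 24 (.c 48 .nil))) (.b 8 (.b 32 (.l 40 .nil))))))) (.node (.node (.node (.I .jac (.c 4609 (.c 16 (.c 48 .nil))) (.b 8 (.b 32 (.l 40 .nil)))) (.I .jac (.c 18433 (.c 16 (.c 24 .nil))) (.b 8 (.b 32 (.l 40 .nil))))) (.node (.I .jac (.c 18433 (.c 8 (.c 24 .nil))) (.l 1337272585 .nil)) (.I .com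 (.c 59109068451510808265 (.c 1337272585 .nil)) .nil))) (.node (.node (.I .jac (.c 4609 (.c 8 (.c 48 .nil))) (.l 553912649 .nil)) (.I .com (.c 231046163358603977 (.c 553912649 .nil)) .nil)) (.node (.I .jac (.c 513 (.c 24 (.c 48 .nil))) (.b 21307523 .nil)) (.I .jac (.c 18433 (.c 8 (.c 24 .nil))) (.l 21307523 .nil)))))) (.node (.node (.node (.node (.I .jac (.c 4609 (.c 8 (.c 48 .nil))) (.l 12929 (.l 32 .nil))) (.I .com (.c 231046163358603977 (.c 12929 .nil)) (.l 32 .nil))) (.node (.I .jac (.c 18433 (.c 8 (.c 24 .nil))) (.l 12929 (.l 32 .nil))) (.I .com (.c 59109068451510808265 (.c 12929 .nil)) (.l 32 .nil)))) (.node (.node (.I .jac (.c 513 (.c 24 (.c 48 .nil))) (.l 40 (.l 8321 .nil))) (.I .com (.c 35473026505545 (.c 40 .nil)) (.l 8321 .nil))) (.node (.I .jac (.c 4609 (.c 8 (.c 48 .nil))) (.l 40 (.l 8321 .nil))) (.I .com (.c 231046163358603977 (.c 40 .nil)) (.l 8321 .nil))))) (.node (.node (.node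 (.I .jac (.c 18433 (.c 8 (.c 24 .nil))) (.l 40 (.l 8321 .nil))) (.I .com (.c 59109068451510808265 (.c 40 .nil)) (.l 8321 .nil))) (.node (.I .com (.c 59109062884628932425 (.c 40 .nil)) (.l 8321 .nil)) (.I .jac (.c 4609 (.c 8 (.c 48 .nil))) (.l 8321 (.l 40 .nil))))) (.node (.node (.I .com (.c 231046163358603977 (.c 8321 .nil)) (.l 40 .nil)) (.I .jac (.c 18433 (.c 8 (.c 24 .nil))) (.l 8321 (.l 40 .nil)))) (.node (.I .com (.c 59109068451510808265 (.c 8321 .nil)) (.l 40 .nil)) (.I .jac (.c 513 (.c 24 (.c 48 .nil))) (.l 32 (.l 12929 .nil)))))))) (.node (.node (.node (.node (.node (.I .com (.c 35473026505545 (.c 32 .nil)) (.l 12929 .nil)) (.I .jac (.c 4609 (.c 8 (.c 48 .nil))) (.l 32 (.l 12929 .nil)))) (.node (.I .com (.c 231046163358603977 (.c 32 .nil)) (.l 12929 .nil)) (.I .jac (.c 18433 (.c 8 (.c 24 .nil))) (.l 32 (.l 12929 .nil))))) (.node (.node (.I .com (.c 59109068451510808265 (.c 32 .nil))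 (.l 12929 .nil)) (.I .com (.c 59109062884628932425 (.c 32 .nil)) (.l 12929 .nil))) (.node (.I .jac (.c 513 (.c 24 (.c 48 .nil))) (.b 16 (.l 13057 .nil))) (.I .jac (.c 513 (.c 16 (.c 48 .nil))) (.l 1350544649 .nil))))) (.node (.node (.node (.I .com (.c 35473026505481 (.c 1350544649 .nil)) .nil) (.I .jac (.c 2049 (.c 8 (.c 48 .nil))) (.l 1350544649 .nil))) (.node (.I .com (.c 9025011228269257 (.c 1350544649 .nil)) .nil) (.I .jac (.c 18433 (.c 8 (.c 16 .nil))) (.l 1350544649 .nil)))) (.node (.node (.I .com (.c 59109065668069837513 (.c 1350544649 .nil)) .nil) (.I .com (.c 59109062884628932361 (.c 1350544649 .nil)) .nil)) (.node (.I .jac (.c 513 (.c 16 (.c 48 .nil))) (.l 562466121 .nil)) (.I .com (.c 35473026505481 (.c 562466121 .nil)) .nil))))) (.node (.node (.node (.node (.I .jac (.c 2049 (.c 8 (.c 48 .nil))) (.l 562466121 .nil)) (.I .com (.c 9025011228269257 (.c 562466121 .nil)) .nil)) (.node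 (.I .jac (.c 18433 (.c 8 (.c 16 .nil))) (.l 562466121 .nil)) (.I .com (.c 59109065668069837513 (.c 562466121 .nil)) .nil))) (.node (.node (.I .com (.c 59109062884628932361 (.c 562466121 .nil)) .nil) (.I .jac (.c 513 (.c 16 (.c 48 .nil))) (.l 21307587 .nil))) (.node (.I .jac (.c 513 (.c 16 (.c 48 .nil))) (.l 13057 (.l 24 .nil))) (.I .jac (.c 2049 (.c 8 (.c 48 .nil))) (.l 13057 (.l 24 .nil)))))) (.node (.node (.node (.I .jac (.c 18433 (.c 8 (.c 16 .nil))) (.l 13057 (.l 24 .nil))) (.I .jac (.c 513 (.c 16 (.c 48 .nil))) (.l 12993 (.l 32 .nil)))) (.node (.I .com (.c 35473026505481 (.c 12993 .nil)) (.l 32 .nil)) (.I .jac (.c 2049 (.c 8 (.c 48 .nil))) (.l 12993 (.l 32 .nil))))) (.node (.node (.I .com (.c 9025011228269257 (.c 12993 .nil)) (.l 32 .nil)) (.I .jac (.c 18433 (.c 8 (.c 16 .nil))) (.l 12993 (.l 32 .nil)))) (.node (.I .com (.c 59109065668069837513 (.c 12993 .nil)) (.l 32 .nil)) (.I .com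 (.c 59109062884628932361 (.c 12993 .nil)) (.l 32 .nil))))))))

noncomputable def c5_184 : Tr := (.node (.node (.node (.node (.node (.node (.I .jac (.c 513 (.c 16 (.c 48 .nil))) (.l 40 (.l 8385 .nil))) (.I .jac (.c 2049 (.c 8 (.c 48 .nil))) (.l 40 (.l 8385 .nil)))) (.node (.I .jac (.c 18433 (.c 8 (.c 16 .nil))) (.l 40 (.l 8385 .nil))) (.I .jac (.c 513 (.c 16 (.c 48 .nil))) (.l 32 (.l 12993 .nil))))) (.node (.node (.I .com (.c 35473026505481 (.c 32 .nil)) (.l 12993 .nil)) (.I .jac (.c 2049 (.c 8 (.c 48 .nil))) (.l 32 (.l 12993 .nil)))) (.node (.I .com (.c 9025011228269257 (.c 32 .nil)) (.l 12993 .nil)) (.I .jac (.c 18433 (.c 8 (.c 16 .nil))) (.l 32 (.l 12993 .nil)))))) (.node (.node (.node (.I .com (.c 59109065668069837513 (.c 32 .nil)) (.l 12993 .nil)) (.I .com (.c 59109062884628932361 (.c 32 .nil)) (.l 12993 .nil))) (.node (.I .jac (.c 35470870263625 (.c 16 (.c 32 .nil))) (.l 48 .nil)) (.I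 .jac (.c 35468714087241 (.c 16 (.c 40 .nil))) (.l 48 .nil)))) (.node (.node (.I .jac (.c 2105609 (.c 16 (.c 40 .nil))) (.b 24 (.l 48 .nil))) (.I .jac (.c 513 (.c 16 (.c 32 .nil))) (.b 40 (.b 24 (.l 48 .nil))))) (.node (.I .jac (.c 513 (.c 16 (.c 40 .nil))) (.b 24 (.b 32 (.l 48 .nil)))) (.I .jac (.c 513 (.c 16 (.c 24 .nil))) (.b 40 (.b 32 (.l 48 .nil)))))))) (.node (.node (.node (.node (.I .com (.c 810113986408641505441454296768358535588691753787820849929 (.c 48 .nil)) .nil) (.I .com (.c 810311000704513416363896103173435689053454605660071255817 (.c 48 .nil)) .nil)) (.node (.I .com (.c 809917014009799608106842829098994307490388508253535739721 (.c 48 .nil)) .nil) (.I .com (.c 809917014015645998974779146356270193153806695299562215305 (.c 48 .nil)) .nil))) (.node (.node (.I .com (.c 809917014009799608106842808492447497285389560274090579913 (.c 48 .nil)) .nil) (.I .jac (.c 9024942441010121 (.c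 8 (.c 24 .nil))) (.l 48 .nil))) (.node (.I .jac (.c 9024976834606921 (.c 8 (.c 32 .nil))) (.l 48 .nil)) (.I .jac (.c 9024908047478729 (.c 8 (.c 32 .nil))) (.l 48 .nil))))) (.node (.node (.node (.I .jac (.c 33587529 (.c 8 (.c 24 .nil))) (.b 32 (.l 48 .nil))) (.I .jac (.c 33587465 (.c 8 (.c 40 .nil))) (.b 24 (.l 48 .nil)))) (.node (.I .jac (.c 33587465 (.c 4673 (.c 40 .nil))) (.l 48 .nil)) (.I .jac (.c 33587401 (.c 8 (.c 40 .nil))) (.b 32 (.l 48 .nil))))) (.node (.node (.I .jac (.c 2049 (.c 8 (.c 32 .nil))) (.b 40 (.b 24 (.l 48 .nil)))) (.I .jac (.c 2049 (.c 1324065993 (.c 32 .nil))) (.l 48 .nil))) (.node (.I .jac (.c 2049 (.c 12865 (.c 24 .nil))) (.b 32 (.l 48 .nil))) (.I .jac (.c 2049 (.c 8 (.c 24 .nil))) (.b 40 (.b 32 (.l 48 .nil))))))))) (.node (.node (.node (.node (.node (.I .com (.c 3396470626629700632970704854324849879116009112338197520186506092361 (.c 48 .nil)) .nil) (.I .com (.c 3396470626629796977786973438199764038143830829891467925486525618057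 (.c 48 .nil)) .nil)) (.node (.I .com (.c 3396470626629604288154436272498300359912224951272662142229471944585 (.c 48 .nil)) .nil) (.I .com (.c 3396470626629700632970704854323515439611237752354214331435757983689 (.c 48 .nil)) .nil))) (.node (.node (.I .jac (.c 231045989336561545 (.c 8 (.c 16 .nil))) (.l 48 .nil)) (.I .jac (.c 35470870263689 (.c 16 (.c 24 .nil))) (.l 48 .nil))) (.node (.I .jac (.c 2105673 (.c 16 (.c 32 .nil))) (.b 24 (.l 48 .nil))) (.I .jac (.c 35466557976457 (.c 16 (.c 40 .nil))) (.l 48 .nil))))) (.node (.node (.node (.I .jac (.c 513 (.c 16 (.c 24 .nil))) (.b 32 (.b 40 (.l 48 .nil)))) (.I .com (.c 810508056940148059469137272010011855557092068124491372297 (.c 48 .nil)) .nil)) (.node (.I .com (.c 810113986402794048221124572296367057684632113898482966281 (.c 48 .nil)) .nil) (.I .com (.c 809917014015645998974779156659543598293493290008670616393 (.c 48 .nil)) .nil))) (.node (.node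 (.I .jac (.c 9024976834606985 (.c 8 (.c 24 .nil))) (.l 48 .nil)) (.I .jac (.c 33587529 (.c 8 (.c 32 .nil))) (.b 24 (.l 48 .nil)))) (.node (.I .jac (.c 33587401 (.c 12865 (.c 32 .nil))) (.l 48 .nil)) (.I .jac (.c 2049 (.c 174695689 (.c 40 .nil))) (.l 48 .nil)))))) (.node (.node (.node (.node (.I .jac (.c 2049 (.c 4673 (.c 32 .nil))) (.b 40 (.l 48 .nil))) (.I .com (.c 3396470626629796977786973438200431257896216519346689372397934459721 (.c 48 .nil)) .nil)) (.node (.I .com (.c 3396470626629604288154436272497633140159839280743900400390065568713 (.c 48 .nil)) .nil) (.I .com (.c 1459023842844932333893328974360730909237195607661597289587034405219693257 (.c 48 .nil)) .nil))) (.node (.node (.I .com (.c 1459023842844932333893328974360730471930469007931632801926278619086573321 (.c 48 .nil)) .nil) (.I .jac (.c 513 (.c 32 (.c 40 .nil))) (.l 4737 (.l 48 .nil)))) (.node (.I .com (.c 35470870263689 (.c 4737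 .nil)) (.l 48 .nil)) (.I .com (.c 35468714087369 (.c 4737 .nil)) (.l 48 .nil))))) (.node (.node (.node (.I .ass (.c 48 (.c 35470870263689 (.c 4737 .nil))) .nil) (.I .com (.c 48 (.c 35470870263689 .nil)) (.r 4737 .nil))) (.node (.I .ass (.c 48 (.c 35468714087369 (.c 4737 .nil))) .nil) (.I .com (.c 48 (.c 35468714087369 .nil)) (.r 4737 .nil)))) (.node (.node (.I .ass (.c 48 (.c 35466557976329 (.c 13057 .nil))) .nil) (.I .com (.c 48 (.c 35466557976329 .nil)) (.r 13057 .nil))) (.node (.I .ass (.c 48 (.c 35464401931081 (.c 13057 .nil))) .nil) (.I .com (.c 48 (.c 35464401931081 .nil)) (.r 13057 .nil))))))))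

noncomputable def c5_185 : Tr := (.node (.node (.node (.node (.node (.node (.I .com (.c 617620517416009 (.c 12929 .nil)) (.b 48 .nil)) (.I .tdb (.c 0 (.c 8 (.c 24 (.c 40 .nil)))) (.l 8321 (.b 48 .nil)))) (.node (.I .com (.c 3561346121425033 (.c 8321 .nil)) (.b 48 .nil)) (.I .com (.c 3561367726845001 (.c 8321 .nil)) (.b 48 .nil)))) (.node (.node (.I .tdb (.c 0 (.c 8 (.c 32 (.c 40 .nil)))) (.l 4737 (.b 48 .nil))) (.I .com (.c 3632040653488265 (.c 4737 .nil)) (.b 48 .nil))) (.node (.I .adp (.c 3632040653488265 (.c 4737 (.c 48 .nil))) .nil) (.I .adp (.c 3561346121425033 (.c 8321 (.c 48 .nil))) .nil)))) (.node (.node (.node (.I .adp (.c 3561367726845001 (.c 8321 (.c 48 .nil))) .nil) (.I .adp (.c 2105673 (.c 8786563 (.c 48 .nil))) .nil)) (.node (.I .adp (.c 617620517416009 (.c 12929 (.c 48 .nil))) .nil) (.I .adp (.c 2105609 (.c 21099139 (.c 48 .nil))) .nil))) (.node (.node (.I .tdb (.c 0 (.c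 16 (.c 40 (.c 24 .nil)))) (.l 8257 (.b 48 .nil))) (.I .com (.c 3561346121425097 (.c 8257 .nil)) (.b 48 .nil))) (.node (.I .tdb (.c 0 (.c 16 (.c 40 (.c 24 .nil)))) (.b 8257 (.b 48 .nil))) (.I .tdb (.c 0 (.c 16 (.c 32 (.c 40 .nil)))) (.l 4673 (.b 48 .nil))))))) (.node (.node (.node (.node (.I .com (.c 3632040653488329 (.c 4673 .nil)) (.b 48 .nil)) (.I .adp (.c 3632040653488329 (.c 4673 (.c 48 .nil))) .nil)) (.node (.I .adp (.c 3561346121425097 (.c 8257 (.c 48 .nil))) .nil) (.I .adp (.c 33587465 (.c 21099075 (.c 48 .nil))) .nil))) (.node (.node (.I .adp (.c 33587401 (.c 21307459 (.c 48 .nil))) .nil) (.I .com (.c 810311000698664892629160106904483878581690145757130497865 (.c 48 .nil)) .nil)) (.node (.I .com (.c 810113986408641505441454276159306114232346491916496237449 (.c 48 .nil)) .nil) (.I .com (.c 810113986402794048221124541382788425761682365581760738249 (.c 48 .nil)) .nil)))) (.node (.node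 (.node (.I .jac (.c 169943305 (.c 8 (.c 40 .nil))) (.b 16 (.l 48 .nil))) (.I .jac (.c 169943305 (.c 8 (.c 16 .nil))) (.b 40 (.l 48 .nil)))) (.node (.I .jac (.c 4609 (.c 1324065929 (.c 32 .nil))) (.l 48 .nil)) (.I .jac (.c 4609 (.c 12865 (.c 16 .nil))) (.b 32 (.l 48 .nil))))) (.node (.node (.I .jac (.c 4609 (.c 35718473 (.c 32 .nil))) (.l 48 .nil)) (.I .jac (.c 4609 (.c 2113 (.c 40 .nil))) (.b 32 (.l 48 .nil)))) (.node (.I .com (.c 1459023842844927484074647864604431512866864223127535792803546291575824073 (.c 48 .nil)) .nil) (.I .com (.c 1459010655789630753386011620242688285484044689371562239751434016994238217 (.c 48 .nil)) .nil)))))) (.node (.node (.node (.node (.node (.I .com (.c 1459010655789632369981280148558395299196715309671123682041100554803180425 (.c 48 .nil)) .nil) (.I .com (.c 1459010655789627520195474563615301834809395174156062875678246881712512905 (.c 48 .nil)) .nil)) (.node (.I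 .com (.c 1459010655789630753386011620242686973569793649721357247531368164488721353 (.c 48 .nil)) .nil) (.I .jac (.c 2306971873338799881 (.c 8 (.c 24 .nil))) (.l 48 .nil)))) (.node (.node (.I .jac (.c 13748193523587632009 (.c 8 (.c 24 .nil))) (.l 48 .nil)) (.I .com (.c 14502334474273997956006391148615249293381727798644081149785095917044209424073 (.c 48 .nil)) .nil)) (.node (.I .com (.c 14502334474273997956006391148615249206184251133042307324743660752776507281225 (.c 48 .nil)) .nil) (.I .com (.c 810508056940148059469137261702979691094856023698138805065 (.c 48 .nil)) .nil)))) (.node (.node (.node (.I .jac (.c 169943369 (.c 8 (.c 32 .nil))) (.b 16 (.l 48 .nil))) (.I .jac (.c 169943369 (.c 2113 (.c 32 .nil))) (.l 48 .nil))) (.node (.I .jac (.c 231045467270826889 (.c 8 (.c 40 .nil))) (.l 48 .nil)) (.I .jac (.c 169943177 (.c 12865 (.c 32 .nil))) (.l 48 .nil)))) (.node (.node (.I .jac (.c 169943177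 (.c 8 (.c 32 .nil))) (.b 40 (.l 48 .nil))) (.I .jac (.c 4609 (.c 8 (.c 40 .nil))) (.b 32 (.b 16 (.l 48 .nil))))) (.node (.I .jac (.c 4609 (.c 8 (.c 16 .nil))) (.b 32 (.b 40 (.l 48 .nil)))) (.I .com (.c 1459010655789632369981280148558396173806216002771744880619972280715295497 (.c 48 .nil)) .nil))))) (.node (.node (.node (.node (.I .com (.c 1459010655789627520195474563615301397504644827606479082037052754917784521 (.c 48 .nil)) .nil) (.I .jac (.c 13748196208362033929 (.c 8 (.c 24 .nil))) (.l 48 .nil))) (.node (.I .jac (.c 12801 (.c 16 (.c 32 .nil))) (.b 4673 (.l 48 .nil))) (.I .adp (.c 3491688652046473 (.c 8385 (.c 48 .nil))) .nil))) (.node (.node (.I .adp (.c 3491710045129801 (.c 8385 (.c 48 .nil))) .nil) (.I .tdb (.c 513 (.c 32 (.c 48 (.c 16 .nil)))) (.l 12993 .nil))) (.node (.I .tdb (.c 0 (.c 8 (.c 16 (.c 48 .nil)))) (.b 32 (.l 12993 .nil))) (.I .tdb (.c 0 (.c 24 (.c 40 (.c 16 .nil)))) (.b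 8257 (.b 48 .nil)))))) (.node (.node (.node (.I .adp (.c 169943369 (.c 8652867 (.c 48 .nil))) .nil) (.I .adp (.c 169943305 (.c 20891715 (.c 48 .nil))) .nil)) (.node (.I .com (.c 1459023842844925867468420828021684755964922565981526554943558097493909257 (.c 48 .nil)) .nil) (.I .jac (.c 2306971873338799817 (.c 16 (.c 24 .nil))) (.l 48 .nil)))) (.node (.node (.I .com (.c 14502320647155140909428280329389864337818507911015775486523858842103694104329 (.c 48 .nil)) .nil) (.I .com (.c 14502320647155140909428280329389864294219790362630035964032127632402744177481 (.c 48 .nil)) .nil)) (.node (.I .jac (.c 12801 (.c 8 (.c 32 .nil))) (.b 4737 (.l 48 .nil))) (.I .jac (.c 4737 (.c 32 (.c 40 .nil))) (.l 513 (.l 48 .nil)))))))))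

noncomputable def c5_186 : Tr := (.node (.node (.node (.node (.node (.node (.I .ass (.c 48 (.c 513 (.c 257801270351607689 .nil))) .nil) (.I .ass (.c 513 (.c 48 (.c 257801270351607689 .nil))) .nil)) (.node (.I .com (.c 48 (.c 513 .nil)) (.r 257801270351607689 .nil)) (.I .com (.c 257801270351607689 (.c 48 .nil)) (.l 513 .nil)))) (.node (.node (.I .ass (.c 48 (.c 513 (.c 257801086529639369 .nil))) .nil) (.I .ass (.c 513 (.c 48 (.c 257801086529639369 .nil))) .nil)) (.node (.I .com (.c 48 (.c 513 .nil)) (.r 257801086529639369 .nil)) (.I .com (.c 257801086529639369 (.c 48 .nil)) (.l 513 .nil))))) (.node (.node (.node (.I .tdb (.c 0 (.c 16 (.c 40 (.c 8 .nil)))) (.b 8385 (.b 48 .nil))) (.I .tdb (.c 2049 (.c 32 (.c 48 (.c 8 .nil)))) (.l 12993 .nil))) (.node (.I .tdb (.c 0 (.c 16 (.c 48 (.c 8 .nil)))) (.b 32 (.l 12993 .nil))) (.I .adp (.c 3423058053193993 (.c 8321 (.c 48 .nil))) .nil))) (.node (.node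 (.I .tdb (.c 4609 (.c 40 (.c 8 (.c 48 .nil)))) (.l 8321 .nil)) (.I .tdb (.c 0 (.c 24 (.c 48 (.c 8 .nil)))) (.b 40 (.l 8321 .nil)))) (.node (.I .adp (.c 580749782704393 (.c 12929 (.c 48 .nil))) .nil) (.I .tdb (.c 4609 (.c 32 (.c 48 (.c 8 .nil)))) (.l 12929 .nil)))))) (.node (.node (.node (.node (.I .tdb (.c 0 (.c 24 (.c 48 (.c 8 .nil)))) (.b 32 (.l 12929 .nil))) (.I .tdb (.c 0 (.c 32 (.c 8 (.c 40 .nil)))) (.b 4737 (.b 48 .nil)))) (.node (.I .jac (.c 3423058053193929 (.c 24 (.c 32 .nil))) (.l 48 .nil)) (.I .jac (.c 1310925065 (.c 4673 (.c 16 .nil))) (.l 48 .nil)))) (.node (.node (.I .jac (.c 1310925065 (.c 2113 (.c 24 .nil))) (.l 48 .nil)) (.I .jac (.c 1310925065 (.c 8 (.c 16 .nil))) (.b 24 (.l 48 .nil)))) (.node (.I .jac (.c 537002313 (.c 2113 (.c 24 .nil))) (.l 48 .nil)) (.I .jac (.c 537002313 (.c 8 (.c 16 .nil))) (.b 24 (.l 48 .nil)))))) (.node (.node (.node (.I .com (.c 62886542410121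 (.c 8257 .nil)) (.b 48 .nil)) (.I .adp (.c 62886542410121 (.c 8257 (.c 48 .nil))) .nil)) (.node (.I .tdb (.c 0 (.c 40 (.c 24 (.c 32 .nil)))) (.l 2113 (.b 48 .nil))) (.I .com (.c 617611520074121 (.c 2113 .nil)) (.b 48 .nil)))) (.node (.node (.I .tdb (.c 0 (.c 32 (.c 16 (.c 40 .nil)))) (.l 4673 (.b 48 .nil))) (.I .com (.c 3491688652046665 (.c 4673 .nil)) (.b 48 .nil))) (.node (.I .tdb (.c 0 (.c 32 (.c 24 (.c 40 .nil)))) (.l 2113 (.b 48 .nil))) (.I .com (.c 3561346121425225 (.c 2113 .nil)) (.b 48 .nil))))))) (.node (.node (.node (.node (.node (.I .adp (.c 3561346121425225 (.c 2113 (.c 48 .nil))) .nil) (.I .adp (.c 617611520074121 (.c 2113 (.c 48 .nil))) .nil)) (.node (.I .adp (.c 3491688652046665 (.c 4673 (.c 48 .nil))) .nil) (.I .jac (.c 231045293249046473 (.c 16 (.c 32 .nil))) (.l 48 .nil)))) (.node (.node (.I .jac (.c 169943113 (.c 16 (.c 32 .nil))) (.b 40 (.l 48 .nil))) (.I .com (.c 59555558875529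 (.c 8321 .nil)) (.b 48 .nil))) (.node (.I .adp (.c 59555558875529 (.c 8321 (.c 48 .nil))) .nil) (.I .adp (.c 580749782704521 (.c 4737 (.c 48 .nil))) .nil)))) (.node (.node (.node (.I .jac (.c 9024839260612489 (.c 24 (.c 40 .nil))) (.l 48 .nil)) (.I .jac (.c 35464401931145 (.c 24 (.c 40 .nil))) (.l 48 .nil))) (.node (.I .jac (.c 33587273 (.c 24 (.c 40 .nil))) (.b 32 (.l 48 .nil))) (.I .com (.c 810311000704513416363896072256098297889288533119081182153 (.c 48 .nil)) .nil))) (.node (.node (.I .jac (.c 537002185 (.c 12865 (.c 16 .nil))) (.l 48 .nil)) (.I .jac (.c 537002185 (.c 2113 (.c 40 .nil))) (.l 48 .nil))) (.node (.I .jac (.c 537002121 (.c 8 (.c 40 .nil))) (.b 24 (.l 48 .nil))) (.I .jac (.c 8193 (.c 1324065929 (.c 24 .nil))) (.l 48 .nil)))))) (.node (.node (.node (.node (.I .jac (.c 8193 (.c 12865 (.c 16 .nil))) (.b 24 (.l 48 .nil))) (.I .jac (.c 8193 (.c 35718473 (.c 24 .nil))) (.l 48 .nil)))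 (.node (.I .jac (.c 8193 (.c 2113 (.c 40 .nil))) (.b 24 (.l 48 .nil))) (.I .com (.c 14502320647155137690838865937963339480292866646421486920467272293701234581257 (.c 48 .nil)) .nil))) (.node (.node (.I .com (.c 14502320647155136081544158742250277910821791427207744583153900257521592541001 (.c 48 .nil)) .nil) (.I .com (.c 14502320647155137690838865937963339349496714001264282867190274572297000776649 (.c 48 .nil)) .nil)) (.node (.I .jac (.c 13748193523587631945 (.c 8 (.c 32 .nil))) (.l 48 .nil)) (.I .com (.c 810311000698664892629160086292925617879962715415222245321 (.c 48 .nil)) .nil)))) (.node (.node (.node (.I .jac (.c 2306970223667989321 (.c 8 (.c 40 .nil))) (.l 48 .nil)) (.I .jac (.c 537002121 (.c 12865 (.c 24 .nil))) (.l 48 .nil))) (.node (.I .jac (.c 8193 (.c 1324065993 (.c 16 .nil))) (.l 48 .nil)) (.I .jac (.c 8193 (.c 12865 (.c 24 .nil))) (.b 16 (.l 48 .nil))))) (.node (.node (.I .jac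 (.c 8193 (.c 8 (.c 40 .nil))) (.b 24 (.b 16 (.l 48 .nil)))) (.I .jac (.c 8193 (.c 35718345 (.c 40 .nil))) (.l 48 .nil))) (.node (.I .jac (.c 8193 (.c 2113 (.c 24 .nil))) (.b 40 (.l 48 .nil))) (.I .jac (.c 8193 (.c 8 (.c 16 .nil))) (.b 24 (.b 40 (.l 48 .nil))))))))))

noncomputable def c5_187 : Tr := (.node (.node (.node (.node (.node (.node (.I .com (.c 14502334474273994737414675204173677532874100137481072673812961228579921321673 (.c 48 .nil)) .nil) (.I .com (.c 14502320647155136081544158742250277823624356330436280052368633745818107336649 (.c 48 .nil)) .nil)) (.node (.I .jac (.c 13748194865974800137 (.c 8 (.c 32 .nil))) (.l 48 .nil)) (.I .jac (.c 12801 (.c 16 (.c 24 .nil))) (.b 8257 (.l 48 .nil))))) (.node (.node (.I .tdb (.c 0 (.c 8 (.c 16 (.c 24 .nil)))) (.l 13057 (.b 48 .nil))) (.I .com (.c 62886542409865 (.c 13057 .nil)) (.b 48 .nil))) (.node (.I .com (.c 62889413446729 (.c 13057 .nil))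 (.b 48 .nil)) (.I .adp (.c 62886542409865 (.c 13057 (.c 48 .nil))) .nil)))) (.node (.node (.node (.I .adp (.c 62889413446729 (.c 13057 (.c 48 .nil))) .nil) (.I .adp (.c 537002185 (.c 20891715 (.c 48 .nil))) .nil)) (.node (.I .adp (.c 537002121 (.c 21099075 (.c 48 .nil))) .nil) (.I .com (.c 14502334474273991518822959259732641426465629267955221257396041719460597423945 (.c 48 .nil)) .nil))) (.node (.node (.I .com (.c 14502334474273994737414675204173677358479146806277544375998964923129615699913 (.c 48 .nil)) .nil) (.I .jac (.c 0 (.c 12865 (.c 24 .nil))) (.b 8321 (.l 48 .nil)))) (.node (.I .jac (.c 0 (.c 8 (.c 40 .nil))) (.b 24 (.b 8321 (.l 48 .nil)))) (.I .jac (.c 12801 (.c 8 (.c 24 .nil))) (.b 8321 (.b 48 .nil))))))) (.node (.node (.node (.node (.I .jac (.c 0 (.c 4673 (.c 40 .nil))) (.b 8321 (.b 48 .nil))) (.I .jac (.c 0 (.c 8 (.c 24 .nil))) (.b 40 (.b 8321 (.b 48 .nil))))) (.node (.I .com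 (.c 14502334474273991518822959259732641339268152602353466784623480578277457074121 (.c 48 .nil)) .nil) (.I .tdb (.c 0 (.c 32 (.c 8 (.c 24 .nil)))) (.b 12929 (.b 48 .nil))))) (.node (.node (.I .tdb (.c 40 (.c 8193 (.c 8 (.c 48 .nil)))) (.l 4737 .nil)) (.I .tdb (.c 0 (.c 32 (.c 8 (.c 48 .nil)))) (.b 40 (.l 4737 .nil)))) (.node (.I .tdb (.c 24 (.c 8193 (.c 8 (.c 48 .nil)))) (.l 12929 .nil)) (.I .jac (.c 1310925001 (.c 8 (.c 16 .nil))) (.b 32 (.l 48 .nil)))))) (.node (.node (.node (.I .tdb (.c 0 (.c 40 (.c 16 (.c 24 .nil)))) (.l 8257 (.b 48 .nil))) (.I .jac (.c 2306969673777850185 (.c 16 (.c 40 .nil))) (.l 48 .nil))) (.node (.I .jac (.c 537002057 (.c 16 (.c 40 .nil))) (.b 24 (.l 48 .nil))) (.I .com (.c 580749782704393 (.c 12929 .nil)) (.b 48 .nil)))) (.node (.node (.I .com (.c 580749782704521 (.c 4737 .nil)) (.b 48 .nil)) (.I .com (.c 1459023842844927484074647864604429763639957824210585071322594815179296713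 (.c 48 .nil)) .nil)) (.node (.I .jac (.c 9024976834606793 (.c 24 (.c 32 .nil))) (.l 48 .nil)) (.I .jac (.c 13748192181200529161 (.c 24 (.c 32 .nil))) (.l 48 .nil))))))) (.node (.node (.node (.node (.node (.I .jac (.c 35470870263561 (.c 24 (.c 32 .nil))) (.l 48 .nil)) (.I .jac (.c 0 (.c 12865 (.c 16 .nil))) (.b 8385 (.l 48 .nil)))) (.node (.I .jac (.c 0 (.c 8 (.c 40 .nil))) (.b 16 (.b 8385 (.l 48 .nil)))) (.I .com (.c 1459023842844925867468420828021683444044742766794540321123362406827848649 (.c 48 .nil)) .nil))) (.node (.node (.I .jac (.c 13748193523587631817 (.c 24 (.c 32 .nil))) (.l 48 .nil)) (.I .jac (.c 0 (.c 2113 (.c 40 .nil))) (.b 8385 (.l 48 .nil)))) (.node (.I .jac (.c 0 (.c 8 (.c 16 .nil))) (.b 40 (.b 8385 (.l 48 .nil)))) (.I .tdb (.c 0 (.c 24 (.c 8 (.c 16 .nil)))) (.b 13057 (.b 48 .nil)))))) (.node (.node (.node (.I .jac (.c 1310924937 (.c 8257 (.c 24 .nil))) (.l 48 .nil)) (.I .jac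 (.c 1310924937 (.c 8 (.c 32 .nil))) (.b 24 (.l 48 .nil)))) (.node (.I .jac (.c 1310924937 (.c 4673 (.c 32 .nil))) (.l 48 .nil)) (.I .jac (.c 1310924937 (.c 8 (.c 24 .nil))) (.b 32 (.l 48 .nil))))) (.node (.node (.I .jac (.c 513 (.c 16 (.c 40 .nil))) (.b 8385 (.b 48 .nil))) (.I .jac (.c 1310924873 (.c 8321 (.c 24 .nil))) (.l 48 .nil))) (.node (.I .jac (.c 1310924873 (.c 16 (.c 32 .nil))) (.b 24 (.l 48 .nil))) (.I .jac (.c 1310924873 (.c 4737 (.c 32 .nil))) (.l 48 .nil)))))) (.node (.node (.node (.node (.I .jac (.c 1310924873 (.c 16 (.c 24 .nil))) (.b 32 (.l 48 .nil))) (.I .tdb (.c 0 (.c 24 (.c 32 (.c 8 .nil)))) (.l 12929 (.b 48 .nil)))) (.node (.I .com (.c 3423058053193993 (.c 8321 .nil)) (.b 48 .nil)) (.I .tdb (.c 0 (.c 40 (.c 8 (.c 24 .nil)))) (.l 8321 (.b 48 .nil))))) (.node (.node (.I .tdb (.c 0 (.c 40 (.c 8 (.c 32 .nil)))) (.l 4737 (.b 48 .nil))) (.I .tdb (.c 32 (.c 12801 (.c 8 (.c 48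 .nil)))) (.l 4737 .nil))) (.node (.I .tdb (.c 24 (.c 12801 (.c 8 (.c 48 .nil)))) (.l 8321 .nil)) (.I .tdb (.c 16 (.c 12801 (.c 8 (.c 48 .nil)))) (.l 8385 .nil))))) (.node (.node (.node (.I .jac (.c 8 (.c 16 (.c 32 .nil))) (.b 1310925001 (.l 48 .nil))) (.I .jac (.c 8 (.c 16 (.c 24 .nil))) (.b 1310925065 (.l 48 .nil)))) (.node (.I .jac (.c 12801 (.c 174695689 (.c 16 .nil))) (.l 48 .nil)) (.I .jac (.c 12801 (.c 4673 (.c 32 .nil))) (.b 16 (.l 48 .nil))))) (.node (.node (.I .jac (.c 12801 (.c 8 (.c 32 .nil))) (.b 16 (.b 24 (.l 48 .nil)))) (.I .jac (.c 12801 (.c 8 (.c 24 .nil))) (.b 16 (.b 32 (.l 48 .nil))))) (.node (.I .jac (.c 12801 (.c 35718345 (.c 32 .nil))) (.l 48 .nil)) (.I .jac (.c 12801 (.c 2113 (.c 24 .nil))) (.b 32 (.l 48 .nil)))))))))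

noncomputable def c5_188 : Tr := (.node (.node (.node (.node (.node (.node (.I .adp (.c 1310925001 (.c 8652867 (.c 48 .nil))) .nil) (.I .adp (.c 1310924937 (.c 8786499 (.c 48 .nil))) .nil)) (.node (.I .jac (.c 8193 (.c 8 (.c 24 .nil))) (.b 12929 (.l 48 .nil))) (.I .jac (.c 0 (.c 4673 (.c 32 .nil))) (.b 12929 (.l 48 .nil))))) (.node (.node (.I .jac (.c 0 (.c 8 (.c 24 .nil))) (.b 32 (.b 12929 (.l 48 .nil)))) (.I .jac (.c 35468714087177 (.c 24 (.c 40 .nil))) (.l 48 .nil))) (.node (.I .com (.c 3491710045129801 (.c 8385 .nil)) (.b 48 .nil)) (.I .com (.c 3491688652046473 (.c 8385 .nil)) (.b 48 .nil))))) (.node (.node (.node (.I .jac (.c 231045293249046281 (.c 32 (.c 40 .nil))) (.l 48 .nil)) (.I .jac (.c 35466557976329 (.c 32 (.c 40 .nil))) (.l 48 .nil))) (.node (.I .jac (.c 9024839260612425 (.c 32 (.c 40 .nil))) (.l 48 .nil)) (.I .jac (.c 2049 (.c 8 (.c 24 .nil))) (.b 13057 (.l 48 .nil))))) (.node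 (.node (.I .jac (.c 4609 (.c 8 (.c 16 .nil))) (.b 13057 (.b 48 .nil))) (.I .jac (.c 35464401931081 (.c 32 (.c 40 .nil))) (.l 48 .nil))) (.node (.I .jac (.c 0 (.c 2113 (.c 24 .nil))) (.b 13057 (.l 48 .nil))) (.I .jac (.c 0 (.c 8 (.c 16 .nil))) (.b 24 (.b 13057 (.l 48 .nil)))))))) (.node (.node (.node (.node (.I .jac (.c 513 (.c 16 (.c 24 .nil))) (.b 13057 (.b 48 .nil))) (.I .adp (.c 32 (.c 40 (.c 8 .nil))) (.b 4737 (.l 18433 .nil)))) (.node (.I .com (.c 12865 (.c 32 .nil)) (.b 4737 (.l 18433 .nil))) (.I .adp (.c 24 (.c 40 (.c 32 .nil))) (.b 2113 (.l 18433 .nil))))) (.node (.node (.I .adp (.c 8 (.c 40 (.c 32 .nil))) (.b 4737 (.l 18433 .nil))) (.I .adp (.c 24 (.c 32 (.c 40 .nil))) (.b 2113 (.l 18433 .nil)))) (.node (.I .jac (.c 8 (.c 16 (.c 32 .nil))) (.b 12993 (.l 18433 .nil))) (.I .adp (.c 16 (.c 32 (.c 40 .nil))) (.b 4673 (.l 18433 .nil)))))) (.node (.node (.node (.I .adp (.c 16 (.c 32 (.c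 8 .nil))) (.b 12993 (.l 18433 .nil))) (.I .com (.c 8257 (.c 16 .nil)) (.b 12993 (.l 18433 .nil)))) (.node (.I .adp (.c 8 (.c 32 (.c 16 .nil))) (.b 12993 (.l 18433 .nil))) (.I .jac (.c 8 (.c 16 (.c 24 .nil))) (.b 13057 (.l 18433 .nil))))) (.node (.node (.I .adp (.c 16 (.c 24 (.c 8 .nil))) (.b 13057 (.l 18433 .nil))) (.I .com (.c 4673 (.c 16 .nil)) (.b 13057 (.l 18433 .nil)))) (.node (.I .adp (.c 16 (.c 24 (.c 40 .nil))) (.b 8257 (.l 18433 .nil))) (.I .adp (.c 8 (.c 24 (.c 16 .nil))) (.b 13057 (.l 18433 .nil)))))))) (.node (.node (.node (.node (.node (.I .adp (.c 8 (.c 24 (.c 40 .nil))) (.b 8321 (.l 18433 .nil))) (.I .adp (.c 8 (.c 16 (.c 24 .nil))) (.b 13057 (.l 18433 .nil)))) (.node (.I .adp (.c 8 (.c 16 (.c 32 .nil))) (.b 12993 (.l 18433 .nil))) (.I .adp (.c 8 (.c 16 (.c 40 .nil))) (.b 8385 (.l 18433 .nil))))) (.node (.node (.I .jac (.c 33587465 (.c 24 (.c 40 .nil))) (.b 8 (.b 48 .nil)))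 (.I .jac (.c 169943369 (.c 16 (.c 32 .nil))) (.b 8 (.b 48 .nil)))) (.node (.I .jac (.c 4609 (.c 8321 (.c 40 .nil))) (.b 8 (.b 48 .nil))) (.I .jac (.c 4609 (.c 16 (.c 32 .nil))) (.b 40 (.b 8 (.b 48 .nil))))))) (.node (.node (.node (.I .jac (.c 1310925065 (.c 16 (.c 24 .nil))) (.b 8 (.b 48 .nil))) (.I .jac (.c 2049 (.c 24 (.c 40 .nil))) (.b 32 (.b 8 (.l 48 .nil))))) (.node (.I .jac (.c 169943369 (.c 16 (.c 32 .nil))) (.b 8 (.l 48 .nil))) (.I .jac (.c 169943305 (.c 16 (.c 40 .nil))) (.b 8 (.l 48 .nil))))) (.node (.node (.I .jac (.c 4609 (.c 16 (.c 40 .nil))) (.b 32 (.b 8 (.l 48 .nil)))) (.I .adp (.c 32 (.c 40 (.c 16 .nil))) (.b 4609 (.l 18497 .nil)))) (.node (.I .com (.c 12929 (.c 32 .nil)) (.b 4609 (.l 18497 .nil))) (.I .tdb (.c 0 (.c 32 (.c 24 (.c 40 .nil)))) (.b 16 (.t 8 48 .nil))))))) (.node (.node (.node (.node (.I .jac (.c 8193 (.c 16 (.c 40 .nil))) (.b 24 (.b 8 (.l 48 .nil)))) (.I .adp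 (.c 24 (.c 40 (.c 32 .nil))) (.b 2049 (.l 18497 .nil)))) (.node (.I .jac (.c 0 (.c 16 (.c 40 .nil))) (.b 8385 (.l 18497 .nil))) (.I .jac (.c 1310924937 (.c 24 (.c 32 .nil))) (.b 8 (.b 48 .nil))))) (.node (.node (.I .adp (.c 16 (.c 40 (.c 32 .nil))) (.b 4609 (.l 18497 .nil))) (.I .jac (.c 20891651 (.c 24 (.c 32 .nil))) (.t 8 48 .nil))) (.node (.I .jac (.c 12801 (.c 8321 (.c 24 .nil))) (.b 8 (.b 48 .nil))) (.I .jac (.c 12801 (.c 16 (.c 32 .nil))) (.b 24 (.b 8 (.b 48 .nil))))))) (.node (.node (.node (.I .jac (.c 12801 (.c 16 (.c 32 .nil))) (.b 24 (.b 8 (.l 48 .nil)))) (.I .jac (.c 12801 (.c 16 (.c 24 .nil))) (.b 32 (.b 8 (.l 48 .nil))))) (.node (.I .jac (.c 8786435 (.c 16 (.c 40 .nil))) (.t 8 48 .nil)) (.I .jac (.c 0 (.c 16 (.c 32 .nil))) (.b 12993 (.l 18497 .nil))))) (.node (.node (.I .jac (.c 537002121 (.c 24 (.c 40 .nil))) (.b 8 (.b 48 .nil))) (.I .jac (.c 0 (.c 16 (.c 32 .nil))) (.b 12993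 (.b 8 (.b 48 .nil))))) (.node (.I .adp (.c 16 (.c 32 (.c 40 .nil))) (.b 4609 (.l 18497 .nil))) (.I .jac (.c 169943177 (.c 32 (.c 40 .nil))) (.b 8 (.l 48 .nil)))))))))

noncomputable def c5_189 : Tr := (.node (.node (.node (.node (.node (.node (.I .jac (.c 24 (.c 32 (.c 40 .nil))) (.l 2049 (.l 18497 .nil))) (.I .jac (.c 4609 (.c 8 (.c 40 .nil))) (.b 32 (.l 18561 .nil)))) (.node (.I .jac (.c 4609 (.c 8257 (.c 40 .nil))) (.l 18561 .nil)) (.I .jac (.c 1310925065 (.c 8 (.c 24 .nil))) (.l 18561 .nil)))) (.node (.node (.I .com (.c 1512103191868961664028723725600700192457 (.c 18561 .nil)) .nil) (.I .jac (.c 513 (.c 24 (.c 40 .nil))) (.b 32 (.b 16 (.b 48 .nil))))) (.node (.I .jac (.c 513 (.c 24 (.c 32 .nil))) (.b 40 (.b 16 (.b 48 .nil)))) (.I .jac (.c 513 (.c 24 (.c 40 .nil))) (.b 32 (.b 16 (.l 48 .nil))))))) (.node (.node (.node (.I .adp (.c 32 (.c 40 (.c 24 .nil))) (.b 513 (.l 18561 .nil))) (.I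 .com (.c 12993 (.c 32 .nil)) (.b 513 (.l 18561 .nil)))) (.node (.I .com (.c 169943305 (.c 12865 .nil)) (.l 18561 .nil)) (.I .ass (.c 18561 (.c 231045989336561353 (.c 32 .nil))) .nil))) (.node (.node (.I .com (.c 18561 (.c 231045989336561353 .nil)) (.r 32 .nil)) (.I .ass (.c 18561 (.c 231045815314584265 (.c 40 .nil))) .nil)) (.node (.I .com (.c 18561 (.c 231045815314584265 .nil)) (.r 40 .nil)) (.I .ass (.c 18561 (.c 169943305 (.c 12865 .nil))) .nil))))) (.node (.node (.node (.node (.I .com (.c 18561 (.c 169943305 .nil)) (.r 12865 .nil)) (.I .ass (.c 18561 (.c 13748194865974800073 (.c 32 .nil))) .nil)) (.node (.I .com (.c 18561 (.c 13748194865974800073 .nil)) (.r 32 .nil)) (.I .ass (.c 18561 (.c 12801 (.c 174695689 .nil))) .nil))) (.node (.node (.I .com (.c 18561 (.c 12801 .nil)) (.r 174695689 .nil)) (.I .ass (.c 18561 (.c 2306970773558193865 (.c 40 .nil))) .nil)) (.node (.I .com (.c 18561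 (.c 2306970773558193865 .nil)) (.r 40 .nil)) (.I .tdb (.c 0 (.c 32 (.c 8 (.c 40 .nil)))) (.b 24 (.t 16 48 .nil)))))) (.node (.node (.node (.I .tdb (.c 0 (.c 32 (.c 24 (.c 40 .nil)))) (.b 8 (.t 16 48 .nil))) (.I .jac (.c 537002185 (.c 8 (.c 40 .nil))) (.l 18561 .nil))) (.node (.I .jac (.c 8193 (.c 8 (.c 40 .nil))) (.b 24 (.l 18561 .nil))) (.I .jac (.c 8193 (.c 4673 (.c 40 .nil))) (.l 18561 .nil)))) (.node (.node (.I .jac (.c 8193 (.c 8 (.c 24 .nil))) (.b 40 (.l 18561 .nil))) (.I .com (.c 42576913200413540599411453941751701193 (.c 18561 .nil)) .nil)) (.node (.I .com (.c 537002185 (.c 12865 .nil)) (.l 18561 .nil)) (.I .ass (.c 18561 (.c 2306971873338799817 (.c 24 .nil))) .nil)))))) (.node (.node (.node (.node (.node (.I .com (.c 18561 (.c 2306971873338799817 .nil)) (.r 24 .nil)) (.I .ass (.c 18561 (.c 537002185 (.c 12865 .nil))) .nil)) (.node (.I .com (.c 18561 (.c 537002185 .nil)) (.r 12865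 .nil)) (.I .ass (.c 18561 (.c 13748196208362033865 (.c 24 .nil))) .nil))) (.node (.node (.I .com (.c 18561 (.c 13748196208362033865 .nil)) (.r 24 .nil)) (.I .ass (.c 18561 (.c 12801 (.c 545424585 .nil))) .nil)) (.node (.I .com (.c 18561 (.c 12801 .nil)) (.r 545424585 .nil)) (.I .tdb (.c 0 (.c 40 (.c 8 (.c 24 .nil)))) (.b 32 (.t 16 48 .nil)))))) (.node (.node (.node (.I .jac (.c 0 (.c 8 (.c 40 .nil))) (.b 8385 (.b 16 (.b 48 .nil)))) (.I .ass (.c 18561 (.c 513 (.c 562466121 .nil))) .nil)) (.node (.I .com (.c 18561 (.c 513 .nil)) (.r 562466121 .nil)) (.I .jac (.c 12801 (.c 8 (.c 32 .nil))) (.b 24 (.l 18561 .nil))))) (.node (.node (.I .jac (.c 12801 (.c 4673 (.c 32 .nil))) (.l 18561 .nil)) (.I .adp (.c 24 (.c 32 (.c 40 .nil))) (.b 513 (.l 18561 .nil)))) (.node (.I .ass (.c 18561 (.c 8193 (.c 1324065993 .nil))) .nil) (.I .com (.c 18561 (.c 8193 .nil)) (.r 1324065993 .nil)))))) (.node (.node (.node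 (.node (.I .ass (.c 18561 (.c 4609 (.c 1324066057 .nil))) .nil) (.I .com (.c 18561 (.c 4609 .nil)) (.r 1324066057 .nil))) (.node (.I .com (.c 1310925001 (.c 8257 .nil)) (.l 18561 .nil)) (.I .com (.c 1310925065 (.c 4673 .nil)) (.l 18561 .nil)))) (.node (.node (.I .ass (.c 18561 (.c 1310925065 (.c 4673 .nil))) .nil) (.I .com (.c 18561 (.c 1310925065 .nil)) (.r 4673 .nil))) (.node (.I .ass (.c 18561 (.c 1310925001 (.c 8257 .nil))) .nil) (.I .com (.c 18561 (.c 1310925001 .nil)) (.r 8257 .nil))))) (.node (.node (.node (.I .jac (.c 0 (.c 8 (.c 32 .nil))) (.b 12993 (.l 18561 .nil))) (.I .jac (.c 537002057 (.c 24 (.c 40 .nil))) (.b 16 (.b 48 .nil)))) (.node (.I .jac (.c 0 (.c 8 (.c 32 .nil))) (.b 12993 (.b 16 (.b 48 .nil)))) (.I .jac (.c 0 (.c 8 (.c 24 .nil))) (.b 13057 (.b 48 (.l 16 .nil)))))) (.node (.node (.I .jac (.c 2105545 (.c 32 (.c 40 .nil))) (.b 16 (.b 48 .nil))) (.I .jac (.c 169943113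 (.c 32 (.c 40 .nil))) (.b 16 (.l 48 .nil)))) (.node (.I .jac (.c 24 (.c 32 (.c 40 .nil))) (.l 513 (.l 18561 .nil))) (.I .jac (.c 2728451 (.c 32 (.c 40 .nil))) (.b 16 (.b 48 .nil)))))))))

noncomputable def c5_190 : Tr := (.node (.node (.node (.node (.node (.node (.I .jac (.c 0 (.c 12865 (.c 32 .nil))) (.b 24 (.l 18561 .nil))) (.I .jac (.c 0 (.c 8 (.c 40 .nil))) (.b 32 (.b 24 (.l 18561 .nil))))) (.node (.I .jac (.c 4609 (.c 32 (.c 40 .nil))) (.b 43059267 .nil)) (.I .jac (.c 4609 (.c 32 (.c 40 .nil))) (.l 48 (.l 2113 .nil))))) (.node (.node (.I .com (.c 231045989336561545 (.c 48 .nil)) (.l 2113 .nil)) (.I .com (.c 231045815314584521 (.c 48 .nil)) (.l 2113 .nil))) (.node (.I .jac (.c 8193 (.c 24 (.c 40 .nil))) (.l 48 (.l 2113 .nil))) (.I .com (.c 2306971873338799945 (.c 48 .nil)) (.l 2113 .nil))))) (.node (.node (.node (.I .com (.c 2306970773558194121 (.c 48 .nil)) (.l 2113 .nil)) (.I .jac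 (.c 12801 (.c 24 (.c 32 .nil))) (.l 48 (.l 2113 .nil)))) (.node (.I .com (.c 13748196208362033993 (.c 48 .nil)) (.l 2113 .nil)) (.I .com (.c 13748194865974800265 (.c 48 .nil)) (.l 2113 .nil)))) (.node (.node (.I .jac (.c 4609 (.c 32 (.c 40 .nil))) (.b 16 (.l 18497 .nil))) (.I .jac (.c 8193 (.c 24 (.c 40 .nil))) (.b 16 (.l 18497 .nil)))) (.node (.I .jac (.c 12801 (.c 24 (.c 32 .nil))) (.b 16 (.l 18497 .nil))) (.I .jac (.c 4609 (.c 32 (.c 40 .nil))) (.b 8 (.b 48 (.b 16 .nil)))))))) (.node (.node (.node (.node (.I .jac (.c 8193 (.c 24 (.c 40 .nil))) (.b 8 (.b 48 (.b 16 .nil)))) (.I .jac (.c 12801 (.c 24 (.c 32 .nil))) (.b 8 (.b 48 (.b 16 .nil))))) (.node (.I .jac (.c 4609 (.c 32 (.c 40 .nil))) (.b 8 (.b 48 (.l 16 .nil)))) (.I .jac (.c 8193 (.c 24 (.c 40 .nil))) (.b 8 (.b 48 (.l 16 .nil)))))) (.node (.node (.I .jac (.c 12801 (.c 24 (.c 32 .nil))) (.b 8 (.b 48 (.l 16 .nil)))) (.I .jac (.c 4609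 (.c 32 (.c 40 .nil))) (.b 8 (.b 16 (.b 48 .nil))))) (.node (.I .jac (.c 8193 (.c 24 (.c 40 .nil))) (.b 8 (.b 16 (.b 48 .nil)))) (.I .jac (.c 12801 (.c 24 (.c 32 .nil))) (.b 8 (.b 16 (.b 48 .nil))))))) (.node (.node (.node (.I .jac (.c 513 (.c 8321 (.c 40 .nil))) (.l 18625 .nil)) (.I .jac (.c 513 (.c 16 (.c 32 .nil))) (.b 40 (.l 18625 .nil)))) (.node (.I .com (.c 10065461098107652387135109897 (.c 18625 .nil)) .nil) (.I .com (.c 10064237432092225236522737417 (.c 18625 .nil)) .nil))) (.node (.node (.I .jac (.c 33587529 (.c 8 (.c 32 .nil))) (.l 18625 .nil)) (.I .jac (.c 33587465 (.c 8 (.c 40 .nil))) (.l 18625 .nil))) (.node (.I .jac (.c 2049 (.c 12865 (.c 32 .nil))) (.l 18625 .nil)) (.I .jac (.c 2049 (.c 8 (.c 40 .nil))) (.b 32 (.l 18625 .nil)))))))) (.node (.node (.node (.node (.node (.I .jac (.c 2049 (.c 8 (.c 32 .nil))) (.b 40 (.l 18625 .nil))) (.I .jac (.c 537002313 (.c 8 (.c 16 .nil)))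 (.l 18625 .nil))) (.node (.I .com (.c 1512103191868961649950570808237977416393 (.c 18625 .nil)) .nil) (.I .com (.c 42576953795010651407263038383993868041 (.c 18625 .nil)) .nil))) (.node (.node (.I .com (.c 2105609 (.c 12929 .nil)) (.l 18625 .nil)) (.I .ass (.c 18625 (.c 35470870263561 (.c 32 .nil))) .nil)) (.node (.I .com (.c 18625 (.c 35470870263561 .nil)) (.r 32 .nil)) (.I .ass (.c 18625 (.c 35468714087177 (.c 40 .nil))) .nil)))) (.node (.node (.node (.I .com (.c 18625 (.c 35468714087177 .nil)) (.r 40 .nil)) (.I .ass (.c 18625 (.c 2105609 (.c 12929 .nil))) .nil)) (.node (.I .com (.c 18625 (.c 2105609 .nil)) (.r 12929 .nil)) (.I .com (.c 33587465 (.c 12865 .nil)) (.l 18625 .nil)))) (.node (.node (.I .ass (.c 18625 (.c 9024976834606793 (.c 32 .nil))) .nil) (.I .com (.c 18625 (.c 9024976834606793 .nil)) (.r 32 .nil))) (.node (.I .ass (.c 18625 (.c 9024942441009865 (.c 40 .nil))) .nil) (.I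 .com (.c 18625 (.c 9024942441009865 .nil)) (.r 40 .nil)))))) (.node (.node (.node (.node (.I .ass (.c 18625 (.c 33587465 (.c 12865 .nil))) .nil) (.I .com (.c 18625 (.c 33587465 .nil)) (.r 12865 .nil))) (.node (.I .ass (.c 18625 (.c 13748193523587631817 (.c 32 .nil))) .nil) (.I .com (.c 18625 (.c 13748193523587631817 .nil)) (.r 32 .nil)))) (.node (.node (.I .ass (.c 18625 (.c 13748192181200529161 (.c 32 .nil))) .nil) (.I .com (.c 18625 (.c 13748192181200529161 .nil)) (.r 32 .nil))) (.node (.I .ass (.c 18625 (.c 12801 (.c 35718409 .nil))) .nil) (.I .com (.c 18625 (.c 12801 .nil)) (.r 35718409 .nil))))) (.node (.node (.node (.I .ass (.c 18625 (.c 2306970223667989193 (.c 40 .nil))) .nil) (.I .com (.c 18625 (.c 2306970223667989193 .nil)) (.r 40 .nil))) (.node (.I .ass (.c 18625 (.c 2306969673777850121 (.c 40 .nil))) .nil) (.I .com (.c 18625 (.c 2306969673777850121 .nil)) (.r 40 .nil)))) (.node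 (.node (.I .jac (.c 21307395 (.c 8 (.c 16 .nil))) (.t 24 48 .nil)) (.I .tdb (.c 0 (.c 40 (.c 16 (.c 32 .nil)))) (.b 8 (.t 24 48 .nil)))) (.node (.I .tdb (.c 0 (.c 32 (.c 16 (.c 40 .nil)))) (.b 8 (.t 24 48 .nil))) (.I .jac (.c 537002121 (.c 8 (.c 40 .nil))) (.l 18625 .nil))))))))

noncomputable def c5_191 : Tr := (.node (.node (.node (.node (.node (.node (.I .jac (.c 8193 (.c 8 (.c 40 .nil))) (.b 16 (.l 18625 .nil))) (.I .jac (.c 8193 (.c 8 (.c 16 .nil))) (.b 40 (.l 18625 .nil)))) (.node (.I .com (.c 1512102601296135269515422934336011008713 (.c 18625 .nil)) .nil) (.I .tdb (.c 0 (.c 40 (.c 8 (.c 16 .nil)))) (.b 32 (.t 24 48 .nil))))) (.node (.node (.I .com (.c 1512102306009786937337782324909974764297 (.c 18625 .nil)) .nil) (.I .jac (.c 12801 (.c 8 (.c 32 .nil))) (.b 16 (.l 18625 .nil)))) (.node (.I .jac (.c 12801 (.c 2113 (.c 32 .nil))) (.l 18625 .nil)) (.I .jac (.c 12801 (.c 8 (.c 16 .nil)))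 (.b 32 (.l 18625 .nil)))))) (.node (.node (.node (.I .ass (.c 18625 (.c 2049 (.c 1324066057 .nil))) .nil) (.I .com (.c 18625 (.c 2049 .nil)) (.r 1324066057 .nil))) (.node (.I .com (.c 1310925065 (.c 2113 .nil)) (.l 18625 .nil)) (.I .ass (.c 18625 (.c 1310925065 (.c 2113 .nil))) .nil))) (.node (.node (.I .com (.c 18625 (.c 1310925065 .nil)) (.r 2113 .nil)) (.I .jac (.c 537002057 (.c 16 (.c 40 .nil))) (.l 18625 .nil))) (.node (.I .jac (.c 0 (.c 8 (.c 32 .nil))) (.b 12929 (.b 48 (.b 24 .nil)))) (.I .jac (.c 0 (.c 8 (.c 32 .nil))) (.b 12929 (.b 24 (.b 48 .nil)))))))) (.node (.node (.node (.node (.I .ass (.c 18625 (.c 513 (.c 1337272585 .nil))) .nil) (.I .com (.c 18625 (.c 513 .nil)) (.r 1337272585 .nil))) (.node (.I .jac (.c 0 (.c 8 (.c 16 .nil))) (.b 13057 (.b 48 (.b 24 .nil)))) (.I .jac (.c 2105481 (.c 32 (.c 40 .nil))) (.b 24 (.b 48 .nil))))) (.node (.node (.I .jac (.c 33587273 (.c 32 (.c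 40 .nil))) (.b 24 (.l 48 .nil))) (.I .jac (.c 2105481 (.c 32 (.c 40 .nil))) (.b 24 (.l 48 .nil)))) (.node (.I .jac (.c 2113 (.c 32 (.c 40 .nil))) (.b 24 (.l 18433 .nil))) (.I .jac (.c 0 (.c 2113 (.c 32 .nil))) (.b 40 (.l 18625 .nil)))))) (.node (.node (.node (.I .jac (.c 0 (.c 8 (.c 16 .nil))) (.b 32 (.b 40 (.l 18625 .nil)))) (.I .jac (.c 0 (.c 12865 (.c 16 .nil))) (.b 32 (.l 18625 .nil)))) (.node (.I .jac (.c 0 (.c 8 (.c 40 .nil))) (.b 16 (.b 32 (.l 18625 .nil)))) (.I .jac (.c 2049 (.c 32 (.c 40 .nil))) (.b 43356739 .nil)))) (.node (.node (.I .jac (.c 2049 (.c 32 (.c 40 .nil))) (.l 48 (.l 4673 .nil))) (.I .com (.c 9024976834606985 (.c 48 .nil)) (.l 4673 .nil))) (.node (.I .com (.c 9024942441010121 (.c 48 .nil)) (.l 4673 .nil)) (.I .jac (.c 8193 (.c 16 (.c 40 .nil))) (.l 48 (.l 4673 .nil)))))))) (.node (.node (.node (.node (.node (.I .com (.c 2306971873338799881 (.c 48 .nil)) (.l 4673 .nil))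 (.I .com (.c 2306970223667989449 (.c 48 .nil)) (.l 4673 .nil))) (.node (.I .jac (.c 12801 (.c 16 (.c 32 .nil))) (.l 48 (.l 4673 .nil))) (.I .com (.c 13748196208362033929 (.c 48 .nil)) (.l 4673 .nil)))) (.node (.node (.I .com (.c 13748193523587632009 (.c 48 .nil)) (.l 4673 .nil)) (.I .jac (.c 2049 (.c 32 (.c 40 .nil))) (.b 24 (.l 18497 .nil)))) (.node (.I .jac (.c 2049 (.c 32 (.c 40 .nil))) (.b 24 (.b 8 (.l 48 .nil)))) (.I .jac (.c 8193 (.c 16 (.c 40 .nil))) (.l 24 (.l 18497 .nil)))))) (.node (.node (.node (.I .com (.c 2306971873338799881 (.c 24 .nil)) (.l 18497 .nil)) (.I .jac (.c 12801 (.c 16 (.c 32 .nil))) (.l 24 (.l 18497 .nil)))) (.node (.I .com (.c 13748196208362033929 (.c 24 .nil)) (.l 18497 .nil)) (.I .jac (.c 2049 (.c 32 (.c 40 .nil))) (.b 8 (.l 18625 .nil))))) (.node (.node (.I .jac (.c 8193 (.c 16 (.c 40 .nil))) (.b 8 (.l 18625 .nil))) (.I .jac (.c 12801 (.c 16 (.c 32 .nil))) (.b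 8 (.l 18625 .nil)))) (.node (.I .jac (.c 2049 (.c 32 (.c 40 .nil))) (.b 8 (.b 24 (.b 48 .nil)))) (.I .jac (.c 8193 (.c 16 (.c 40 .nil))) (.b 8 (.b 24 (.b 48 .nil)))))))) (.node (.node (.node (.node (.I .jac (.c 12801 (.c 16 (.c 32 .nil))) (.b 8 (.b 24 (.b 48 .nil)))) (.I .jac (.c 8193 (.c 8 (.c 40 .nil))) (.l 43356803 .nil))) (.node (.I .jac (.c 12801 (.c 8 (.c 32 .nil))) (.l 43356803 .nil)) (.I .jac (.c 8193 (.c 8 (.c 40 .nil))) (.l 18561 (.l 24 .nil))))) (.node (.node (.I .com (.c 2306971873338799817 (.c 18561 .nil)) (.l 24 .nil)) (.I .jac (.c 12801 (.c 8 (.c 32 .nil))) (.l 18561 (.l 24 .nil)))) (.node (.I .com (.c 13748196208362033865 (.c 18561 .nil)) (.l 24 .nil)) (.I .jac (.c 513 (.c 32 (.c 40 .nil))) (.b 24 (.b 48 (.b 16 .nil))))))) (.node (.node (.node (.I .jac (.c 8193 (.c 8 (.c 40 .nil))) (.l 24 (.l 18561 .nil))) (.I .com (.c 2306971873338799817 (.c 24 .nil)) (.l 18561 .nil))) (.node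 (.I .jac (.c 12801 (.c 8 (.c 32 .nil))) (.l 24 (.l 18561 .nil))) (.I .com (.c 13748196208362033865 (.c 24 .nil)) (.l 18561 .nil)))) (.node (.node (.I .jac (.c 513 (.c 32 (.c 40 .nil))) (.b 16 (.l 18625 .nil))) (.I .jac (.c 513 (.c 32 (.c 40 .nil))) (.b 16 (.b 24 (.l 48 .nil))))) (.node (.I .jac (.c 513 (.c 12929 (.c 24 .nil))) (.l 18689 .nil)) (.I .jac (.c 513 (.c 4737 (.c 40 .nil))) (.l 18689 .nil))))))))

noncomputable def c5_192 : Tr := (.node (.node (.node (.node (.node (.node (.I .jac (.c 513 (.c 16 (.c 24 .nil))) (.b 40 (.l 18689 .nil))) (.I .com (.c 10065461098071330215985125129 (.c 18689 .nil)) .nil)) (.node (.I .com (.c 10063013877615402959898107657 (.c 18689 .nil)) .nil) (.I .jac (.c 33587529 (.c 8 (.c 24 .nil))) (.l 18689 .nil)))) (.node (.node (.I .jac (.c 2049 (.c 12865 (.c 24 .nil))) (.l 18689 .nil)) (.I .jac (.c 2049 (.c 4673 (.c 40 .nil))) (.l 18689 .nil))) (.node (.I .com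 (.c 651601654921532475892036648801993 (.c 18689 .nil)) .nil) (.I .com (.c 651591722123570596944749659643593 (.c 18689 .nil)) .nil)))) (.node (.node (.node (.I .com (.c 651581789439149858614694249422665 (.c 18689 .nil)) .nil) (.I .jac (.c 1310925001 (.c 8 (.c 16 .nil))) (.l 18689 .nil))) (.node (.I .jac (.c 169943369 (.c 8 (.c 16 .nil))) (.l 18689 .nil)) (.I .com (.c 427057993508083616106291307304383177 (.c 18689 .nil)) .nil))) (.node (.node (.I .com (.c 1512102896582526807535925483778566442761 (.c 18689 .nil)) .nil) (.I .com (.c 2105545 (.c 12929 .nil)) (.l 18689 .nil))) (.node (.I .com (.c 2105673 (.c 4737 .nil)) (.l 18689 .nil)) (.I .ass (.c 18689 (.c 35470870263561 (.c 24 .nil))) .nil))))) (.node (.node (.node (.node (.I .com (.c 18689 (.c 35470870263561 .nil)) (.r 24 .nil)) (.I .ass (.c 18689 (.c 35464401931209 (.c 24 .nil))) .nil)) (.node (.I .com (.c 18689 (.c 35464401931209 .nil))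 (.r 24 .nil)) (.I .ass (.c 18689 (.c 2105673 (.c 4737 .nil))) .nil))) (.node (.node (.I .com (.c 18689 (.c 2105673 .nil)) (.r 4737 .nil)) (.I .ass (.c 18689 (.c 2105545 (.c 12929 .nil))) .nil)) (.node (.I .com (.c 18689 (.c 2105545 .nil)) (.r 12929 .nil)) (.I .com (.c 33587401 (.c 12865 .nil)) (.l 18689 .nil))))) (.node (.node (.node (.I .com (.c 33587529 (.c 4673 .nil)) (.l 18689 .nil)) (.I .ass (.c 18689 (.c 9024976834606793 (.c 24 .nil))) .nil)) (.node (.I .com (.c 18689 (.c 9024976834606793 .nil)) (.r 24 .nil)) (.I .ass (.c 18689 (.c 9024839260612553 (.c 24 .nil))) .nil))) (.node (.node (.I .com (.c 18689 (.c 9024839260612553 .nil)) (.r 24 .nil)) (.I .ass (.c 18689 (.c 33587529 (.c 4673 .nil))) .nil)) (.node (.I .com (.c 18689 (.c 33587529 .nil)) (.r 4673 .nil)) (.I .ass (.c 18689 (.c 9024908047478473 (.c 40 .nil))) .nil)))))) (.node (.node (.node (.node (.node (.I .com (.c 18689 (.c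 9024908047478473 .nil)) (.r 40 .nil)) (.I .ass (.c 18689 (.c 9024839260612425 (.c 40 .nil))) .nil)) (.node (.I .com (.c 18689 (.c 9024839260612425 .nil)) (.r 40 .nil)) (.I .ass (.c 18689 (.c 33587401 (.c 12865 .nil))) .nil))) (.node (.node (.I .com (.c 18689 (.c 33587401 .nil)) (.r 12865 .nil)) (.I .ass (.c 18689 (.c 13748193523587631817 (.c 24 .nil))) .nil)) (.node (.I .com (.c 18689 (.c 13748193523587631817 .nil)) (.r 24 .nil)) (.I .ass (.c 18689 (.c 13748192181200529161 (.c 24 .nil))) .nil)))) (.node (.node (.node (.I .com (.c 18689 (.c 13748192181200529161 .nil)) (.r 24 .nil)) (.I .ass (.c 18689 (.c 12801 (.c 35718345 .nil))) .nil)) (.node (.I .com (.c 18689 (.c 12801 .nil)) (.r 35718345 .nil)) (.I .ass (.c 18689 (.c 231045467270826697 (.c 40 .nil))) .nil))) (.node (.node (.I .com (.c 18689 (.c 231045467270826697 .nil)) (.r 40 .nil)) (.I .ass (.c 18689 (.c 231045293249046281 (.c 40 .nil)))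 .nil)) (.node (.I .com (.c 18689 (.c 231045293249046281 .nil)) (.r 40 .nil)) (.I .ass (.c 18689 (.c 4609 (.c 35718473 .nil))) .nil))))) (.node (.node (.node (.node (.I .com (.c 18689 (.c 4609 .nil)) (.r 35718473 .nil)) (.I .jac (.c 0 (.c 20891715 (.c 24 .nil))) (.t 32 48 .nil))) (.node (.I .jac (.c 21099011 (.c 8 (.c 16 .nil))) (.t 32 48 .nil)) (.I .jac (.c 169943177 (.c 8 (.c 40 .nil))) (.l 18689 .nil)))) (.node (.node (.I .jac (.c 4609 (.c 12865 (.c 16 .nil))) (.l 18689 .nil)) (.I .jac (.c 4609 (.c 8 (.c 16 .nil))) (.b 40 (.l 18689 .nil)))) (.node (.I .com (.c 427055420260303037694618589709917961 (.c 18689 .nil)) .nil) (.I .com (.c 1512102601296135255437272766182275864265 (.c 18689 .nil)) .nil)))) (.node (.node (.node (.I .com (.c 651601654921513992739479373958985 (.c 18689 .nil)) .nil) (.I .com (.c 169943369 (.c 2113 .nil)) (.l 18689 .nil))) (.node (.I .ass (.c 18689 (.c 169943369 (.c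 2113 .nil))) .nil) (.I .com (.c 18689 (.c 169943369 .nil)) (.r 2113 .nil)))) (.node (.node (.I .ass (.c 18689 (.c 2049 (.c 174695753 .nil))) .nil) (.I .com (.c 18689 (.c 2049 .nil)) (.r 174695753 .nil))) (.node (.I .jac (.c 20891651 (.c 8 (.c 24 .nil))) (.t 32 48 .nil)) (.I .tdb (.c 0 (.c 40 (.c 8 (.c 16 .nil)))) (.b 24 (.t 32 48 .nil)))))))))

noncomputable def c5_193 : Tr := (.node (.node (.node (.node (.node (.node (.I .jac (.c 1310924873 (.c 16 (.c 24 .nil))) (.l 18689 .nil)) (.I .ass (.c 18689 (.c 513 (.c 179513673 .nil))) .nil)) (.node (.I .com (.c 18689 (.c 513 .nil)) (.r 179513673 .nil)) (.I .jac (.c 20685315 (.c 16 (.c 24 .nil))) (.t 32 48 .nil)))) (.node (.node (.I .jac (.c 12801 (.c 8 (.c 24 .nil))) (.b 16 (.l 18689 .nil))) (.I .jac (.c 12801 (.c 2113 (.c 24 .nil))) (.l 18689 .nil))) (.node (.I .ass (.c 18689 (.c 2049 (.c 1324065993 .nil))) .nil) (.I .com (.c 18689 (.c 2049 .nil))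 (.r 1324065993 .nil))))) (.node (.node (.node (.I .com (.c 1310925001 (.c 2113 .nil)) (.l 18689 .nil)) (.I .ass (.c 18689 (.c 1310925001 (.c 2113 .nil))) .nil)) (.node (.I .com (.c 18689 (.c 1310925001 .nil)) (.r 2113 .nil)) (.I .jac (.c 169943113 (.c 16 (.c 40 .nil))) (.l 18689 .nil)))) (.node (.node (.I .jac (.c 0 (.c 8 (.c 24 .nil))) (.b 12929 (.l 18689 .nil))) (.I .ass (.c 18689 (.c 513 (.c 1337272521 .nil))) .nil)) (.node (.I .com (.c 18689 (.c 513 .nil)) (.r 1337272521 .nil)) (.I .jac (.c 2105481 (.c 24 (.c 40 .nil))) (.l 18689 .nil)))))) (.node (.node (.node (.node (.I .jac (.c 0 (.c 8 (.c 16 .nil))) (.b 12993 (.l 18689 .nil))) (.I .jac (.c 0 (.c 8 (.c 16 .nil))) (.b 12993 (.b 48 (.b 32 .nil))))) (.node (.I .jac (.c 557571 (.c 24 (.c 40 .nil))) (.l 18689 .nil)) (.I .jac (.c 2049 (.c 24 (.c 40 .nil))) (.b 43655235 .nil)))) (.node (.node (.I .jac (.c 2049 (.c 24 (.c 40 .nil))) (.l 32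 (.l 18497 .nil))) (.I .com (.c 9024976834606921 (.c 32 .nil)) (.l 18497 .nil))) (.node (.I .jac (.c 4609 (.c 16 (.c 40 .nil))) (.l 32 (.l 18497 .nil))) (.I .com (.c 231045989336561417 (.c 32 .nil)) (.l 18497 .nil))))) (.node (.node (.node (.I .jac (.c 12801 (.c 16 (.c 24 .nil))) (.l 32 (.l 18497 .nil))) (.I .com (.c 13748194865974800137 (.c 32 .nil)) (.l 18497 .nil))) (.node (.I .com (.c 13748193523587631945 (.c 32 .nil)) (.l 18497 .nil)) (.I .jac (.c 12801 (.c 16 (.c 24 .nil))) (.b 8 (.l 18689 .nil))))) (.node (.node (.I .jac (.c 4609 (.c 8 (.c 40 .nil))) (.l 2756086025 .nil)) (.I .com (.c 231045989336561353 (.c 2756086025 .nil)) .nil)) (.node (.I .jac (.c 12801 (.c 8 (.c 24 .nil))) (.l 2756086025 .nil)) (.I .com (.c 13748194865974800073 (.c 2756086025 .nil)) .nil)))))) (.node (.node (.node (.node (.node (.I .jac (.c 4609 (.c 8 (.c 40 .nil))) (.l 553912713 .nil)) (.I .com (.c 231045989336561353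 (.c 553912713 .nil)) .nil)) (.node (.I .jac (.c 4609 (.c 8 (.c 40 .nil))) (.l 43655299 .nil)) (.I .jac (.c 12801 (.c 8 (.c 24 .nil))) (.l 43655299 .nil)))) (.node (.node (.I .jac (.c 4609 (.c 8 (.c 40 .nil))) (.l 18561 (.l 32 .nil))) (.I .com (.c 231045989336561353 (.c 18561 .nil)) (.l 32 .nil))) (.node (.I .jac (.c 12801 (.c 8 (.c 24 .nil))) (.l 18561 (.l 32 .nil))) (.I .com (.c 13748194865974800073 (.c 18561 .nil)) (.l 32 .nil))))) (.node (.node (.node (.I .jac (.c 513 (.c 24 (.c 40 .nil))) (.l 32 (.l 18561 .nil))) (.I .com (.c 35470870263625 (.c 32 .nil)) (.l 18561 .nil))) (.node (.I .jac (.c 4609 (.c 8 (.c 40 .nil))) (.l 32 (.l 18561 .nil))) (.I .com (.c 231045989336561353 (.c 32 .nil)) (.l 18561 .nil)))) (.node (.node (.I .jac (.c 12801 (.c 8 (.c 24 .nil))) (.l 32 (.l 18561 .nil))) (.I .com (.c 13748194865974800073 (.c 32 .nil)) (.l 18561 .nil))) (.node (.I .com (.c 13748192181200529225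 (.c 32 .nil)) (.l 18561 .nil)) (.I .jac (.c 513 (.c 24 (.c 40 .nil))) (.b 16 (.l 18689 .nil))))))) (.node (.node (.node (.node (.I .jac (.c 513 (.c 24 (.c 40 .nil))) (.b 16 (.b 48 (.b 32 .nil)))) (.I .jac (.c 513 (.c 24 (.c 40 .nil))) (.b 16 (.b 32 (.l 48 .nil))))) (.node (.I .jac (.c 2049 (.c 8 (.c 40 .nil))) (.l 2775125257 .nil)) (.I .com (.c 9024976834606793 (.c 2775125257 .nil)) .nil))) (.node (.node (.I .jac (.c 12801 (.c 8 (.c 16 .nil))) (.l 2775125257 .nil)) (.I .com (.c 13748193523587631817 (.c 2775125257 .nil)) .nil)) (.node (.I .com (.c 13748192181200529161 (.c 2775125257 .nil)) .nil) (.I .jac (.c 513 (.c 16 (.c 40 .nil))) (.l 562466185 .nil))))) (.node (.node (.node (.I .com (.c 35470870263561 (.c 562466185 .nil)) .nil) (.I .jac (.c 2049 (.c 8 (.c 40 .nil))) (.l 562466185 .nil))) (.node (.I .com (.c 9024976834606793 (.c 562466185 .nil)) .nil) (.I .jac (.c 12801 (.c 8 (.c 16 .nil)))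 (.l 562466185 .nil)))) (.node (.node (.I .com (.c 13748193523587631817 (.c 562466185 .nil)) .nil) (.I .com (.c 13748192181200529161 (.c 562466185 .nil)) .nil)) (.node (.I .jac (.c 513 (.c 16 (.c 40 .nil))) (.l 43655363 .nil)) (.I .jac (.c 2049 (.c 8 (.c 40 .nil))) (.l 43655363 .nil))))))))

noncomputable def c5_194 : Tr := (.node (.node (.node (.node (.node (.node (.I .jac (.c 12801 (.c 8 (.c 16 .nil))) (.l 43655363 .nil)) (.I .jac (.c 513 (.c 16 (.c 40 .nil))) (.l 18689 (.l 24 .nil)))) (.node (.I .com (.c 35470870263561 (.c 18689 .nil)) (.l 24 .nil)) (.I .jac (.c 2049 (.c 8 (.c 40 .nil))) (.l 18689 (.l 24 .nil))))) (.node (.node (.I .com (.c 9024976834606793 (.c 18689 .nil)) (.l 24 .nil)) (.I .jac (.c 12801 (.c 8 (.c 16 .nil))) (.l 18689 (.l 24 .nil)))) (.node (.I .com (.c 13748193523587631817 (.c 18689 .nil)) (.l 24 .nil)) (.I .com (.c 13748192181200529161 (.c 18689 .nil)) (.l 24 .nil)))))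 (.node (.node (.node (.I .jac (.c 513 (.c 16 (.c 40 .nil))) (.l 18625 (.l 32 .nil))) (.I .com (.c 35470870263561 (.c 18625 .nil)) (.l 32 .nil))) (.node (.I .jac (.c 2049 (.c 8 (.c 40 .nil))) (.l 18625 (.l 32 .nil))) (.I .com (.c 9024976834606793 (.c 18625 .nil)) (.l 32 .nil)))) (.node (.node (.I .jac (.c 12801 (.c 8 (.c 16 .nil))) (.l 18625 (.l 32 .nil))) (.I .com (.c 13748193523587631817 (.c 18625 .nil)) (.l 32 .nil))) (.node (.I .com (.c 13748192181200529161 (.c 18625 .nil)) (.l 32 .nil)) (.I .jac (.c 513 (.c 16 (.c 40 .nil))) (.l 32 (.l 18625 .nil))))))) (.node (.node (.node (.node (.I .com (.c 35470870263561 (.c 32 .nil)) (.l 18625 .nil)) (.I .jac (.c 2049 (.c 8 (.c 40 .nil))) (.l 32 (.l 18625 .nil)))) (.node (.I .com (.c 9024976834606793 (.c 32 .nil)) (.l 18625 .nil)) (.I .jac (.c 12801 (.c 8 (.c 16 .nil))) (.l 32 (.l 18625 .nil))))) (.node (.node (.I .com (.c 13748193523587631817 (.c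 32 .nil)) (.l 18625 .nil)) (.I .com (.c 13748192181200529161 (.c 32 .nil)) (.l 18625 .nil))) (.node (.I .com (.c 35464401931209 (.c 24 .nil)) (.l 18689 .nil)) (.I .jac (.c 513 (.c 16 (.c 40 .nil))) (.l 24 (.l 18689 .nil)))))) (.node (.node (.node (.I .com (.c 35470870263561 (.c 24 .nil)) (.l 18689 .nil)) (.I .com (.c 9024839260612553 (.c 24 .nil)) (.l 18689 .nil))) (.node (.I .jac (.c 2049 (.c 8 (.c 40 .nil))) (.l 24 (.l 18689 .nil))) (.I .com (.c 9024976834606793 (.c 24 .nil)) (.l 18689 .nil)))) (.node (.node (.I .jac (.c 12801 (.c 8 (.c 16 .nil))) (.l 24 (.l 18689 .nil))) (.I .com (.c 13748193523587631817 (.c 24 .nil)) (.l 18689 .nil))) (.node (.I .com (.c 13748192181200529161 (.c 24 .nil)) (.l 18689 .nil)) (.I .jac (.c 513 (.c 8321 (.c 24 .nil))) (.l 18753 .nil))))))) (.node (.node (.node (.node (.node (.I .jac (.c 513 (.c 16 (.c 32 .nil))) (.b 24 (.l 18753 .nil))) (.I .jac (.c 513 (.c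 4737 (.c 32 .nil))) (.l 18753 .nil))) (.node (.I .com (.c 10064237432019585310071936777 (.c 18753 .nil)) .nil) (.I .com (.c 10061790434634094094990628745 (.c 18753 .nil)) .nil))) (.node (.node (.I .jac (.c 33587465 (.c 8 (.c 24 .nil))) (.l 18753 .nil)) (.I .jac (.c 2049 (.c 8257 (.c 24 .nil))) (.l 18753 .nil))) (.node (.I .jac (.c 2049 (.c 8 (.c 32 .nil))) (.b 24 (.l 18753 .nil))) (.I .jac (.c 2049 (.c 4673 (.c 32 .nil))) (.l 18753 .nil))))) (.node (.node (.node (.I .com (.c 651591722123561355438909041457865 (.c 18753 .nil)) .nil) (.I .com (.c 651581789439140617179291382201161 (.c 18753 .nil)) .nil)) (.node (.I .com (.c 42576913200413533512397237570979656393 (.c 18753 .nil)) .nil) (.I .com (.c 427057350195048083672236560419041993 (.c 18753 .nil)) .nil))) (.node (.node (.I .com (.c 2105545 (.c 8321 .nil)) (.l 18753 .nil)) (.I .ass (.c 18753 (.c 35468714087177 (.c 24 .nil))) .nil)) (.node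 (.I .com (.c 18753 (.c 35468714087177 .nil)) (.r 24 .nil)) (.I .ass (.c 18753 (.c 35464401931145 (.c 24 .nil))) .nil))))) (.node (.node (.node (.node (.I .com (.c 18753 (.c 35464401931145 .nil)) (.r 24 .nil)) (.I .ass (.c 18753 (.c 2105545 (.c 8321 .nil))) .nil)) (.node (.I .com (.c 18753 (.c 2105545 .nil)) (.r 8321 .nil)) (.I .com (.c 33587401 (.c 8257 .nil)) (.l 18753 .nil)))) (.node (.node (.I .ass (.c 18753 (.c 9024942441009865 (.c 24 .nil))) .nil) (.I .com (.c 18753 (.c 9024942441009865 .nil)) (.r 24 .nil))) (.node (.I .ass (.c 18753 (.c 9024839260612489 (.c 24 .nil))) .nil) (.I .com (.c 18753 (.c 9024839260612489 .nil)) (.r 24 .nil))))) (.node (.node (.node (.I .ass (.c 18753 (.c 33587401 (.c 8257 .nil))) .nil) (.I .com (.c 18753 (.c 33587401 .nil)) (.r 8257 .nil))) (.node (.I .ass (.c 18753 (.c 2306970223667989193 (.c 24 .nil))) .nil) (.I .com (.c 18753 (.c 2306970223667989193 .nil))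 (.r 24 .nil)))) (.node (.node (.I .ass (.c 18753 (.c 2306969673777850121 (.c 24 .nil))) .nil) (.I .com (.c 18753 (.c 2306969673777850121 .nil)) (.r 24 .nil))) (.node (.I .ass (.c 18753 (.c 8193 (.c 35718345 .nil))) .nil) (.I .com (.c 18753 (.c 8193 .nil)) (.r 35718345 .nil))))))))

noncomputable def c5_195 : Tr := (.node (.node (.node (.node (.node (.node (.I .com (.c 10063013877506449693794530185 (.c 18753 .nil)) .nil) (.I .jac (.c 4609 (.c 8257 (.c 16 .nil))) (.l 18753 .nil))) (.node (.I .jac (.c 4609 (.c 2113 (.c 32 .nil))) (.l 18753 .nil)) (.I .jac (.c 537002121 (.c 8 (.c 24 .nil))) (.l 18753 .nil)))) (.node (.node (.I .com (.c 42576892903125861400833495191760328393 (.c 18753 .nil)) .nil) (.I .com (.c 42576892903125856676158477119718330185 (.c 18753 .nil)) .nil)) (.node (.I .com (.c 651591722123533630921387187294089 (.c 18753 .nil)) .nil) (.I .com (.c 427056063571157203537696782463438729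 (.c 18753 .nil)) .nil)))) (.node (.node (.node (.I .com (.c 42576872605845444027759439362436273929 (.c 18753 .nil)) .nil) (.I .jac (.c 0 (.c 8 (.c 32 .nil))) (.b 4737 (.b 40 (.b 48 .nil))))) (.node (.I .jac (.c 8520195 (.c 16 (.c 24 .nil))) (.t 40 48 .nil)) (.I .jac (.c 8193 (.c 2113 (.c 24 .nil))) (.l 18753 .nil)))) (.node (.node (.I .jac (.c 8193 (.c 8 (.c 16 .nil))) (.b 24 (.l 18753 .nil))) (.I .ass (.c 18753 (.c 2049 (.c 545424585 .nil))) .nil)) (.node (.I .com (.c 18753 (.c 2049 .nil)) (.r 545424585 .nil)) (.I .com (.c 537002185 (.c 2113 .nil)) (.l 18753 .nil)))))) (.node (.node (.node (.node (.I .ass (.c 18753 (.c 537002185 (.c 2113 .nil))) .nil) (.I .com (.c 18753 (.c 537002185 .nil)) (.r 2113 .nil))) (.node (.I .ass (.c 18753 (.c 513 (.c 553912521 .nil))) .nil) (.I .com (.c 18753 (.c 513 .nil)) (.r 553912521 .nil)))) (.node (.node (.I .jac (.c 2728451 (.c 16 (.c 32 .nil))) (.t 40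 48 .nil)) (.I .jac (.c 33587273 (.c 24 (.c 32 .nil))) (.l 18753 .nil))) (.node (.I .jac (.c 0 (.c 8 (.c 16 .nil))) (.b 8385 (.l 18753 .nil))) (.I .jac (.c 557571 (.c 24 (.c 32 .nil))) (.l 18753 .nil))))) (.node (.node (.node (.I .jac (.c 2113 (.c 24 (.c 32 .nil))) (.l 40 (.l 18433 .nil))) (.I .jac (.c 4673 (.c 16 (.c 32 .nil))) (.l 40 (.l 18433 .nil)))) (.node (.I .jac (.c 8257 (.c 16 (.c 24 .nil))) (.l 40 (.l 18433 .nil))) (.I .jac (.c 0 (.c 8257 (.c 24 .nil))) (.b 16 (.l 18753 .nil))))) (.node (.node (.I .jac (.c 0 (.c 8 (.c 32 .nil))) (.b 24 (.b 16 (.l 18753 .nil)))) (.I .jac (.c 2049 (.c 24 (.c 32 .nil))) (.l 40 (.l 18497 .nil)))) (.node (.I .com (.c 9024942441009993 (.c 40 .nil)) (.l 18497 .nil)) (.I .com (.c 9024908047478665 (.c 40 .nil)) (.l 18497 .nil))))))) (.node (.node (.node (.node (.node (.I .jac (.c 4609 (.c 16 (.c 32 .nil))) (.l 40 (.l 18497 .nil))) (.I .com (.c 231045815314584329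 (.c 40 .nil)) (.l 18497 .nil))) (.node (.I .com (.c 231045467270826889 (.c 40 .nil)) (.l 18497 .nil)) (.I .jac (.c 8193 (.c 16 (.c 24 .nil))) (.l 40 (.l 18497 .nil))))) (.node (.node (.I .com (.c 2306970773558193929 (.c 40 .nil)) (.l 18497 .nil)) (.I .com (.c 2306970223667989321 (.c 40 .nil)) (.l 18497 .nil))) (.node (.I .jac (.c 4609 (.c 16 (.c 32 .nil))) (.b 8 (.l 18753 .nil))) (.I .jac (.c 8193 (.c 16 (.c 24 .nil))) (.b 8 (.l 18753 .nil)))))) (.node (.node (.node (.I .jac (.c 2049 (.c 24 (.c 32 .nil))) (.b 8 (.b 48 (.l 40 .nil)))) (.I .jac (.c 4609 (.c 16 (.c 32 .nil))) (.b 8 (.b 48 (.l 40 .nil))))) (.node (.I .jac (.c 8193 (.c 16 (.c 24 .nil))) (.b 8 (.b 48 (.l 40 .nil)))) (.I .jac (.c 8193 (.c 8 (.c 24 .nil))) (.l 1337272713 .nil)))) (.node (.node (.I .com (.c 2306970773558193865 (.c 1337272713 .nil)) .nil) (.I .jac (.c 513 (.c 24 (.c 32 .nil))) (.b 43954819 .nil))) (.node (.I .jac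 (.c 4609 (.c 8 (.c 32 .nil))) (.l 43954819 .nil)) (.I .jac (.c 8193 (.c 8 (.c 24 .nil))) (.l 43954819 .nil)))))) (.node (.node (.node (.node (.I .jac (.c 4609 (.c 8 (.c 32 .nil))) (.l 18561 (.l 40 .nil))) (.I .com (.c 231045815314584265 (.c 18561 .nil)) (.l 40 .nil))) (.node (.I .jac (.c 8193 (.c 8 (.c 24 .nil))) (.l 18561 (.l 40 .nil))) (.I .com (.c 2306970773558193865 (.c 18561 .nil)) (.l 40 .nil)))) (.node (.node (.I .jac (.c 513 (.c 24 (.c 32 .nil))) (.l 40 (.l 18561 .nil))) (.I .com (.c 35468714087241 (.c 40 .nil)) (.l 18561 .nil))) (.node (.I .com (.c 35466557976457 (.c 40 .nil)) (.l 18561 .nil)) (.I .jac (.c 4609 (.c 8 (.c 32 .nil))) (.l 40 (.l 18561 .nil)))))) (.node (.node (.node (.I .com (.c 231045815314584265 (.c 40 .nil)) (.l 18561 .nil)) (.I .com (.c 231045293249046409 (.c 40 .nil)) (.l 18561 .nil))) (.node (.I .jac (.c 8193 (.c 8 (.c 24 .nil))) (.l 40 (.l 18561 .nil))) (.I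 .com (.c 2306970773558193865 (.c 40 .nil)) (.l 18561 .nil)))) (.node (.node (.I .com (.c 2306969673777850185 (.c 40 .nil)) (.l 18561 .nil)) (.I .jac (.c 513 (.c 16 (.c 32 .nil))) (.l 2775125321 .nil))) (.node (.I .com (.c 35468714087177 (.c 2775125321 .nil)) .nil) (.I .jac (.c 513 (.c 16 (.c 32 .nil))) (.l 1350544777 .nil))))))))

noncomputable def c5_196 : Tr := (.node (.node (.node (.node (.node (.node (.I .com (.c 35468714087177 (.c 1350544777 .nil)) .nil) (.I .jac (.c 8193 (.c 8 (.c 16 .nil))) (.l 1350544777 .nil))) (.node (.I .com (.c 2306970223667989193 (.c 1350544777 .nil)) .nil) (.I .com (.c 2306969673777850121 (.c 1350544777 .nil)) .nil))) (.node (.node (.I .jac (.c 513 (.c 16 (.c 32 .nil))) (.l 18753 (.l 24 .nil))) (.I .com (.c 35468714087177 (.c 18753 .nil)) (.l 24 .nil))) (.node (.I .com (.c 35464401931145 (.c 18753 .nil)) (.l 24 .nil)) (.I .jac (.c 2049 (.c 8 (.c 32 .nil)))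 (.l 18753 (.l 24 .nil)))))) (.node (.node (.node (.I .com (.c 9024942441009865 (.c 18753 .nil)) (.l 24 .nil)) (.I .com (.c 9024839260612489 (.c 18753 .nil)) (.l 24 .nil))) (.node (.I .jac (.c 8193 (.c 8 (.c 16 .nil))) (.l 18753 (.l 24 .nil))) (.I .com (.c 2306970223667989193 (.c 18753 .nil)) (.l 24 .nil)))) (.node (.node (.I .com (.c 2306969673777850121 (.c 18753 .nil)) (.l 24 .nil)) (.I .jac (.c 513 (.c 16 (.c 32 .nil))) (.l 18625 (.l 40 .nil)))) (.node (.I .com (.c 35468714087177 (.c 18625 .nil)) (.l 40 .nil)) (.I .jac (.c 2049 (.c 8 (.c 32 .nil))) (.l 18625 (.l 40 .nil))))))) (.node (.node (.node (.node (.I .com (.c 9024942441009865 (.c 18625 .nil)) (.l 40 .nil)) (.I .jac (.c 8193 (.c 8 (.c 16 .nil))) (.l 18625 (.l 40 .nil)))) (.node (.I .com (.c 2306970223667989193 (.c 18625 .nil)) (.l 40 .nil)) (.I .com (.c 2306969673777850121 (.c 18625 .nil)) (.l 40 .nil)))) (.node (.node (.I .jac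 (.c 513 (.c 16 (.c 32 .nil))) (.l 40 (.l 18625 .nil))) (.I .com (.c 35468714087177 (.c 40 .nil)) (.l 18625 .nil))) (.node (.I .com (.c 35464401931145 (.c 40 .nil)) (.l 18625 .nil)) (.I .jac (.c 2049 (.c 8 (.c 32 .nil))) (.l 40 (.l 18625 .nil)))))) (.node (.node (.node (.I .com (.c 9024942441009865 (.c 40 .nil)) (.l 18625 .nil)) (.I .com (.c 9024839260612489 (.c 40 .nil)) (.l 18625 .nil))) (.node (.I .jac (.c 8193 (.c 8 (.c 16 .nil))) (.l 40 (.l 18625 .nil))) (.I .com (.c 2306970223667989193 (.c 40 .nil)) (.l 18625 .nil)))) (.node (.node (.I .com (.c 2306969673777850121 (.c 40 .nil)) (.l 18625 .nil)) (.I .com (.c 35464401931145 (.c 24 .nil)) (.l 18753 .nil))) (.node (.I .jac (.c 513 (.c 16 (.c 32 .nil))) (.l 24 (.l 18753 .nil))) (.I .com (.c 35468714087177 (.c 24 .nil)) (.l 18753 .nil))))))) (.node (.node (.node (.node (.node (.I .com (.c 9024839260612489 (.c 24 .nil)) (.l 18753 .nil)) (.I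 .jac (.c 2049 (.c 8 (.c 32 .nil))) (.l 24 (.l 18753 .nil)))) (.node (.I .com (.c 9024942441009865 (.c 24 .nil)) (.l 18753 .nil)) (.I .jac (.c 8193 (.c 8 (.c 16 .nil))) (.l 24 (.l 18753 .nil))))) (.node (.node (.I .com (.c 2306970223667989193 (.c 24 .nil)) (.l 18753 .nil)) (.I .com (.c 2306969673777850121 (.c 24 .nil)) (.l 18753 .nil))) (.node (.I .jac (.c 2049 (.c 8 (.c 24 .nil))) (.l 2794230089 .nil)) (.I .com (.c 9024908047478473 (.c 2794230089 .nil)) .nil)))) (.node (.node (.node (.I .com (.c 9024839260612425 (.c 2794230089 .nil)) .nil) (.I .jac (.c 4609 (.c 8 (.c 16 .nil))) (.l 2794230089 .nil))) (.node (.I .com (.c 231045467270826697 (.c 2794230089 .nil)) .nil) (.I .com (.c 231045293249046281 (.c 2794230089 .nil)) .nil))) (.node (.node (.I .jac (.c 513 (.c 16 (.c 24 .nil))) (.l 1363882377 .nil)) (.I .com (.c 35466557976329 (.c 1363882377 .nil)) .nil)) (.node (.I .com (.c 35464401931081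 (.c 1363882377 .nil)) .nil) (.I .jac (.c 4609 (.c 8 (.c 16 .nil))) (.l 1363882377 .nil)))))) (.node (.node (.node (.node (.I .com (.c 231045467270826697 (.c 1363882377 .nil)) .nil) (.I .com (.c 231045293249046281 (.c 1363882377 .nil)) .nil)) (.node (.I .jac (.c 513 (.c 16 (.c 24 .nil))) (.l 43954947 .nil)) (.I .jac (.c 513 (.c 16 (.c 24 .nil))) (.l 18753 (.l 32 .nil))))) (.node (.node (.I .jac (.c 2049 (.c 8 (.c 24 .nil))) (.l 18689 (.l 40 .nil))) (.I .com (.c 9024908047478473 (.c 18689 .nil)) (.l 40 .nil))) (.node (.I .com (.c 9024839260612425 (.c 18689 .nil)) (.l 40 .nil)) (.I .jac (.c 4609 (.c 8 (.c 16 .nil))) (.l 18689 (.l 40 .nil)))))) (.node (.node (.node (.I .com (.c 231045467270826697 (.c 18689 .nil)) (.l 40 .nil)) (.I .com (.c 231045293249046281 (.c 18689 .nil)) (.l 40 .nil))) (.node (.I .jac (.c 513 (.c 16 (.c 24 .nil))) (.l 13057 (.l 48 .nil))) (.I .com (.c 35466557976329 (.c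 13057 .nil)) (.l 48 .nil)))) (.node (.node (.I .com (.c 35464401931081 (.c 13057 .nil)) (.l 48 .nil)) (.I .jac (.c 513 (.c 16 (.c 24 .nil))) (.l 40 (.l 18689 .nil)))) (.node (.I .jac (.c 2049 (.c 8 (.c 24 .nil))) (.l 40 (.l 18689 .nil))) (.I .com (.c 9024908047478473 (.c 40 .nil)) (.l 18689 .nil))))))))

noncomputable def c5_197 : Tr := (.node (.node (.node (.node (.node (.node (.I .com (.c 9024839260612425 (.c 40 .nil)) (.l 18689 .nil)) (.I .jac (.c 4609 (.c 8 (.c 16 .nil))) (.l 40 (.l 18689 .nil)))) (.node (.I .com (.c 231045467270826697 (.c 40 .nil)) (.l 18689 .nil)) (.I .com (.c 231045293249046281 (.c 40 .nil)) (.l 18689 .nil)))) (.node (.node (.I .ass (.c 8257 (.c 43356675 (.c 12929 .nil))) .nil) (.I .ass (.c 43356675 (.c 8257 (.c 12929 .nil))) .nil)) (.node (.I .com (.c 8257 (.c 43356675 .nil)) (.r 12929 .nil)) (.I .ass (.c 8257 (.c 21099011 (.c 18561 .nil))) .nil)))) (.node (.node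 (.node (.I .ass (.c 21099011 (.c 8257 (.c 18561 .nil))) .nil) (.I .com (.c 8257 (.c 21099011 .nil)) (.r 18561 .nil))) (.node (.I .ass (.c 43356675 (.c 12865 (.c 8321 .nil))) .nil) (.I .ass (.c 21099011 (.c 18497 (.c 8321 .nil))) .nil))) (.node (.node (.I .ass (.c 4673 (.c 43655171 (.c 12929 .nil))) .nil) (.I .ass (.c 43655171 (.c 4673 (.c 12929 .nil))) .nil)) (.node (.I .com (.c 4673 (.c 43655171 .nil)) (.r 12929 .nil)) (.I .ass (.c 4673 (.c 21307395 (.c 18561 .nil))) .nil))))) (.node (.node (.node (.node (.I .ass (.c 21307395 (.c 4673 (.c 18561 .nil))) .nil) (.I .com (.c 4673 (.c 21307395 .nil)) (.r 18561 .nil))) (.node (.I .ass (.c 43655171 (.c 12865 (.c 4737 .nil))) .nil) (.I .ass (.c 21307395 (.c 18497 (.c 4737 .nil))) .nil))) (.node (.node (.I .ass (.c 12865 (.c 43356675 (.c 8321 .nil))) .nil) (.I .com (.c 12865 (.c 43356675 .nil)) (.r 8321 .nil))) (.node (.I .com (.c 8257 (.c 18561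 .nil)) (.l 21099011 .nil)) (.I .com (.c 18497 (.c 8321 .nil)) (.l 21099011 .nil))))) (.node (.node (.node (.I .ass (.c 18433 (.c 8257 (.c 21099139 .nil))) .nil) (.I .ass (.c 8193 (.c 18497 (.c 21099139 .nil))) .nil)) (.node (.I .ass (.c 8193 (.c 18561 (.c 21099075 .nil))) .nil) (.I .ass (.c 18433 (.c 8321 (.c 21099075 .nil))) .nil))) (.node (.node (.I .ass (.c 12865 (.c 43655171 (.c 4737 .nil))) .nil) (.I .com (.c 12865 (.c 43655171 .nil)) (.r 4737 .nil))) (.node (.I .com (.c 4673 (.c 18561 .nil)) (.l 21307395 .nil)) (.I .com (.c 18497 (.c 4737 .nil)) (.l 21307395 .nil))))))) (.node (.node (.node (.node (.node (.I .ass (.c 18433 (.c 4673 (.c 21307523 .nil))) .nil) (.I .ass (.c 4609 (.c 18497 (.c 21307523 .nil))) .nil)) (.node (.I .ass (.c 4609 (.c 18561 (.c 21307459 .nil))) .nil) (.I .ass (.c 18433 (.c 4737 (.c 21307459 .nil))) .nil))) (.node (.node (.I .ass (.c 12929 (.c 43356675 (.c 8257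 .nil))) .nil) (.I .ass (.c 43356675 (.c 12929 (.c 8257 .nil))) .nil)) (.node (.I .com (.c 12929 (.c 43356675 .nil)) (.r 8257 .nil)) (.I .com (.c 8257 (.c 12929 .nil)) (.l 43356675 .nil))))) (.node (.node (.node (.I .ass (.c 8321 (.c 43356675 (.c 12865 .nil))) .nil) (.I .ass (.c 43356675 (.c 8321 (.c 12865 .nil))) .nil)) (.node (.I .com (.c 8321 (.c 43356675 .nil)) (.r 12865 .nil)) (.I .com (.c 12865 (.c 8321 .nil)) (.l 43356675 .nil)))) (.node (.node (.I .ass (.c 12929 (.c 43655171 (.c 4673 .nil))) .nil) (.I .ass (.c 43655171 (.c 12929 (.c 4673 .nil))) .nil)) (.node (.I .com (.c 12929 (.c 43655171 .nil)) (.r 4673 .nil)) (.I .com (.c 4673 (.c 12929 .nil)) (.l 43655171 .nil)))))) (.node (.node (.node (.node (.I .ass (.c 4737 (.c 43655171 (.c 12865 .nil))) .nil) (.I .ass (.c 43655171 (.c 4737 (.c 12865 .nil))) .nil)) (.node (.I .com (.c 4737 (.c 43655171 .nil)) (.r 12865 .nil)) (.I .com (.c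 12865 (.c 4737 .nil)) (.l 43655171 .nil)))) (.node (.node (.I .ass (.c 12929 (.c 8193 (.c 43356739 .nil))) .nil) (.I .ass (.c 8193 (.c 12929 (.c 43356739 .nil))) .nil)) (.node (.I .com (.c 12929 (.c 8193 .nil)) (.r 43356739 .nil)) (.I .ass (.c 8321 (.c 12801 (.c 43356739 .nil))) .nil)))) (.node (.node (.node (.I .ass (.c 12801 (.c 8321 (.c 43356739 .nil))) .nil) (.I .com (.c 8321 (.c 12801 .nil)) (.r 43356739 .nil))) (.node (.I .ass (.c 12865 (.c 8193 (.c 43356803 .nil))) .nil) (.I .ass (.c 8193 (.c 12865 (.c 43356803 .nil))) .nil))) (.node (.node (.I .com (.c 12865 (.c 8193 .nil)) (.r 43356803 .nil)) (.I .ass (.c 8257 (.c 12801 (.c 43356803 .nil))) .nil)) (.node (.I .ass (.c 12801 (.c 8257 (.c 43356803 .nil))) .nil) (.I .com (.c 8257 (.c 12801 .nil)) (.r 43356803 .nil))))))))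

noncomputable def c5_198 : Tr := (.node (.node (.node (.node (.node (.node (.I .ass (.c 12929 (.c 4609 (.c 43655235 .nil))) .nil) (.I .ass (.c 4609 (.c 12929 (.c 43655235 .nil))) .nil)) (.node (.I .com (.c 12929 (.c 4609 .nil)) (.r 43655235 .nil)) (.I .ass (.c 4737 (.c 12801 (.c 43655235 .nil))) .nil))) (.node (.node (.I .ass (.c 12801 (.c 4737 (.c 43655235 .nil))) .nil) (.I .com (.c 4737 (.c 12801 .nil)) (.r 43655235 .nil))) (.node (.I .ass (.c 12865 (.c 4609 (.c 43655299 .nil))) .nil) (.I .ass (.c 4609 (.c 12865 (.c 43655299 .nil))) .nil)))) (.node (.node (.node (.I .com (.c 12865 (.c 4609 .nil)) (.r 43655299 .nil)) (.I .ass (.c 4673 (.c 12801 (.c 43655299 .nil))) .nil)) (.node (.I .ass (.c 12801 (.c 4673 (.c 43655299 .nil))) .nil) (.I .com (.c 4673 (.c 12801 .nil)) (.r 43655299 .nil)))) (.node (.node (.I .jac (.c 0 (.c 24 (.c 32 .nil))) (.b 43954819 (.b 8 .nil))) (.I .jac (.c 0 (.c 16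 (.c 48 .nil))) (.b 21307459 (.b 24 .nil)))) (.node (.I .jac (.c 0 (.c 24 (.c 40 .nil))) (.b 43059267 (.b 32 .nil))) (.I .tdb (.c 48 (.c 12929 (.c 24 (.c 32 .nil)))) (.t 0 8 .nil)))))) (.node (.node (.node (.node (.I .tdb (.c 16 (.c 40 (.c 24 (.c 32 .nil)))) (.b 48 (.t 0 8 .nil))) (.I .ass (.c 8321 (.c 21099011 (.c 18497 .nil))) .nil)) (.node (.I .ass (.c 21099011 (.c 8321 (.c 18497 .nil))) .nil) (.I .com (.c 8321 (.c 21099011 .nil)) (.r 18497 .nil)))) (.node (.node (.I .ass (.c 4737 (.c 21307395 (.c 18497 .nil))) .nil) (.I .ass (.c 21307395 (.c 4737 (.c 18497 .nil))) .nil)) (.node (.I .com (.c 4737 (.c 21307395 .nil)) (.r 18497 .nil)) (.I .tdb (.c 48 (.c 12801 (.c 8 (.c 16 .nil)))) (.t 24 32 .nil))))) (.node (.node (.node (.I .tdb (.c 0 (.c 40 (.c 8 (.c 16 .nil)))) (.b 48 (.t 24 32 .nil))) (.I .tdb (.c 48 (.c 12801 (.c 8 (.c 24 .nil)))) (.t 16 32 .nil))) (.node (.I .tdb (.c 0 (.c 40 (.c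 8 (.c 24 .nil)))) (.b 48 (.t 16 32 .nil))) (.I .ass (.c 8321 (.c 18433 (.c 21099075 .nil))) .nil))) (.node (.node (.I .com (.c 8321 (.c 18433 .nil)) (.r 21099075 .nil)) (.I .tdb (.c 40 (.c 18433 (.c 16 (.c 24 .nil)))) (.t 8 32 .nil))) (.node (.I .ass (.c 8257 (.c 18433 (.c 21099139 .nil))) .nil) (.I .com (.c 8257 (.c 18433 .nil)) (.r 21099139 .nil))))))) (.node (.node (.node (.node (.node (.I .tdb (.c 40 (.c 18433 (.c 8 (.c 32 .nil)))) (.t 16 24 .nil)) (.I .tdb (.c 48 (.c 12801 (.c 8 (.c 32 .nil)))) (.t 16 24 .nil))) (.node (.I .tdb (.c 0 (.c 40 (.c 8 (.c 32 .nil)))) (.b 48 (.t 16 24 .nil))) (.I .ass (.c 4737 (.c 18433 (.c 21307459 .nil))) .nil))) (.node (.node (.I .com (.c 4737 (.c 18433 .nil)) (.r 21307459 .nil)) (.I .tdb (.c 40 (.c 18433 (.c 16 (.c 32 .nil)))) (.t 8 24 .nil))) (.node (.I .ass (.c 4673 (.c 18433 (.c 21307523 .nil))) .nil) (.I .com (.c 4673 (.c 18433 .nil)) (.r 21307523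 .nil))))) (.node (.node (.node (.I .tdb (.c 40 (.c 18433 (.c 24 (.c 32 .nil)))) (.t 8 16 .nil)) (.I .tdb (.c 8 (.c 24 (.c 40 (.c 16 .nil)))) (.b 48 (.t 0 32 .nil)))) (.node (.I .tdb (.c 8 (.c 24 (.c 48 (.c 16 .nil)))) (.b 40 (.t 0 32 .nil))) (.I .tdb (.c 8 (.c 24 (.c 40 (.c 48 .nil)))) (.b 16 (.t 0 32 .nil))))) (.node (.node (.I .tdb (.c 0 (.c 24 (.c 40 (.c 8 .nil)))) (.b 48 (.t 16 32 .nil))) (.I .tdb (.c 0 (.c 24 (.c 40 (.c 16 .nil)))) (.b 48 (.t 8 32 .nil)))) (.node (.I .tdb (.c 0 (.c 24 (.c 40 (.c 48 .nil)))) (.b 16 (.t 8 32 .nil))) (.I .tdb (.c 0 (.c 16 (.c 40 (.c 8 .nil)))) (.b 48 (.t 24 32 .nil))))))) (.node (.node (.node (.node (.I .tdb (.c 0 (.c 16 (.c 48 (.c 8 .nil)))) (.b 40 (.t 24 32 .nil))) (.I .tdb (.c 0 (.c 16 (.c 40 (.c 48 .nil)))) (.b 8 (.t 24 32 .nil)))) (.node (.I .tdb (.c 0 (.c 8 (.c 16 (.c 40 .nil)))) (.b 48 (.t 24 32 .nil))) (.I .tdb (.c 0 (.c 8 (.c 24 (.c 40 .nil))))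 (.b 48 (.t 16 32 .nil))))) (.node (.node (.I .tdb (.c 0 (.c 8 (.c 40 (.c 48 .nil)))) (.b 24 (.t 16 32 .nil))) (.I .tdb (.c 0 (.c 16 (.c 40 (.c 24 .nil)))) (.b 48 (.t 8 32 .nil)))) (.node (.I .tdb (.c 0 (.c 16 (.c 48 (.c 24 .nil)))) (.b 40 (.t 8 32 .nil))) (.I .tdb (.c 0 (.c 32 (.c 8 (.c 48 .nil)))) (.b 40 (.t 16 24 .nil)))))) (.node (.node (.node (.I .tdb (.c 0 (.c 32 (.c 16 (.c 40 .nil)))) (.b 48 (.t 8 24 .nil))) (.I .tdb (.c 0 (.c 32 (.c 40 (.c 48 .nil)))) (.b 16 (.t 8 24 .nil)))) (.node (.I .tdb (.c 0 (.c 8 (.c 40 (.c 48 .nil)))) (.b 32 (.t 16 24 .nil))) (.I .tdb (.c 0 (.c 16 (.c 40 (.c 48 .nil)))) (.b 32 (.t 8 24 .nil))))) (.node (.node (.I .tdb (.c 0 (.c 32 (.c 40 (.c 48 .nil)))) (.b 24 (.t 8 16 .nil))) (.I .tdb (.c 0 (.c 24 (.c 32 (.c 40 .nil)))) (.b 48 (.t 8 16 .nil)))) (.node (.I .tdb (.c 0 (.c 24 (.c 40 (.c 48 .nil)))) (.b 32 (.t 8 16 .nil))) (.I .com (.c 21099011 (.c 18561 .nil))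 (.l 8257 .nil))))))))

noncomputable def c5_199 : Tr := (.node (.node (.node (.node (.node (.node (.I .com (.c 21099011 (.c 8321 .nil)) (.l 18497 .nil)) (.I .ass (.c 18497 (.c 21099011 (.c 8321 .nil))) .nil)) (.node (.I .com (.c 18497 (.c 21099011 .nil)) (.r 8321 .nil)) (.I .tdb (.c 32 (.c 18497 (.c 16 (.c 24 .nil)))) (.t 0 40 .nil)))) (.node (.node (.I .tdb (.c 32 (.c 18433 (.c 8 (.c 16 .nil)))) (.t 24 40 .nil)) (.I .tdb (.c 32 (.c 18433 (.c 8 (.c 24 .nil)))) (.t 16 40 .nil))) (.node (.I .tdb (.c 48 (.c 8193 (.c 8 (.c 16 .nil)))) (.t 24 40 .nil)) (.I .tdb (.c 0 (.c 32 (.c 8 (.c 16 .nil)))) (.b 48 (.t 24 40 .nil)))))) (.node (.node (.node (.I .tdb (.c 48 (.c 8193 (.c 8 (.c 24 .nil)))) (.t 16 40 .nil)) (.I .tdb (.c 0 (.c 32 (.c 8 (.c 24 .nil)))) (.b 48 (.t 16 40 .nil)))) (.node (.I .tdb (.c 48 (.c 8193 (.c 16 (.c 24 .nil)))) (.t 8 40 .nil)) (.I .tdb (.c 0 (.c 32 (.c 16 (.c 24 .nil)))) (.b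 48 (.t 8 40 .nil))))) (.node (.node (.I .tdb (.c 32 (.c 18433 (.c 8 (.c 40 .nil)))) (.t 16 24 .nil)) (.I .tdb (.c 48 (.c 8193 (.c 16 (.c 40 .nil)))) (.t 8 24 .nil))) (.node (.I .tdb (.c 8 (.c 24 (.c 32 (.c 16 .nil)))) (.b 48 (.t 0 40 .nil))) (.I .tdb (.c 8 (.c 24 (.c 48 (.c 16 .nil)))) (.b 32 (.t 0 40 .nil))))))) (.node (.node (.node (.node (.I .tdb (.c 8 (.c 24 (.c 32 (.c 48 .nil)))) (.b 16 (.t 0 40 .nil))) (.I .tdb (.c 0 (.c 24 (.c 32 (.c 8 .nil)))) (.b 48 (.t 16 40 .nil)))) (.node (.I .tdb (.c 0 (.c 24 (.c 48 (.c 16 .nil)))) (.b 32 (.t 8 40 .nil))) (.I .tdb (.c 0 (.c 24 (.c 32 (.c 48 .nil)))) (.b 16 (.t 8 40 .nil))))) (.node (.node (.I .tdb (.c 0 (.c 16 (.c 48 (.c 8 .nil)))) (.b 32 (.t 24 40 .nil))) (.I .tdb (.c 0 (.c 16 (.c 32 (.c 48 .nil)))) (.b 8 (.t 24 40 .nil)))) (.node (.I .tdb (.c 0 (.c 8 (.c 32 (.c 48 .nil)))) (.b 16 (.t 24 40 .nil))) (.I .tdb (.c 0 (.c 8 (.c 24 (.c 32 .nil))))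 (.b 48 (.t 16 40 .nil)))))) (.node (.node (.node (.I .tdb (.c 0 (.c 8 (.c 32 (.c 48 .nil)))) (.b 24 (.t 16 40 .nil))) (.I .tdb (.c 0 (.c 16 (.c 32 (.c 24 .nil)))) (.b 48 (.t 8 40 .nil)))) (.node (.I .tdb (.c 0 (.c 16 (.c 32 (.c 48 .nil)))) (.b 24 (.t 8 40 .nil))) (.I .tdb (.c 8 (.c 16 (.c 32 (.c 24 .nil)))) (.b 48 (.t 0 40 .nil))))) (.node (.node (.I .tdb (.c 8 (.c 16 (.c 48 (.c 24 .nil)))) (.b 32 (.t 0 40 .nil))) (.I .tdb (.c 8 (.c 16 (.c 32 (.c 48 .nil)))) (.b 24 (.t 0 40 .nil)))) (.node (.I .com (.c 21307395 (.c 18561 .nil)) (.l 4673 .nil)) (.I .com (.c 21307395 (.c 4737 .nil)) (.l 18497 .nil))))))) (.node (.node (.node (.node (.node (.I .ass (.c 18497 (.c 21307395 (.c 4737 .nil))) .nil) (.I .com (.c 18497 (.c 21307395 .nil)) (.r 4737 .nil))) (.node (.I .tdb (.c 24 (.c 18497 (.c 16 (.c 32 .nil)))) (.t 0 40 .nil)) (.I .tdb (.c 4673 (.c 48 (.c 16 (.c 32 .nil)))) (.t 0 40 .nil)))) (.node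 (.node (.I .tdb (.c 4673 (.c 48 (.c 16 (.c 40 .nil)))) (.t 0 32 .nil)) (.I .tdb (.c 24 (.c 18433 (.c 8 (.c 16 .nil)))) (.t 32 40 .nil))) (.node (.I .tdb (.c 4609 (.c 48 (.c 8 (.c 16 .nil)))) (.t 32 40 .nil)) (.I .tdb (.c 0 (.c 24 (.c 8 (.c 16 .nil)))) (.b 48 (.t 32 40 .nil)))))) (.node (.node (.node (.I .tdb (.c 4609 (.c 48 (.c 8 (.c 32 .nil)))) (.t 16 40 .nil)) (.I .tdb (.c 0 (.c 24 (.c 48 (.c 8 .nil)))) (.b 16 (.t 32 40 .nil)))) (.node (.I .tdb (.c 4609 (.c 48 (.c 8 (.c 40 .nil)))) (.t 16 32 .nil)) (.I .tdb (.c 24 (.c 18433 (.c 16 (.c 40 .nil)))) (.t 8 32 .nil)))) (.node (.node (.I .tdb (.c 4609 (.c 48 (.c 16 (.c 40 .nil)))) (.t 8 32 .nil)) (.I .tdb (.c 24 (.c 18433 (.c 32 (.c 40 .nil)))) (.t 8 16 .nil))) (.node (.I .tdb (.c 4609 (.c 48 (.c 32 (.c 40 .nil)))) (.t 8 16 .nil)) (.I .tdb (.c 0 (.c 16 (.c 8 (.c 24 .nil)))) (.b 48 (.t 32 40 .nil))))))) (.node (.node (.node (.node (.I .tdb (.c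 0 (.c 16 (.c 48 (.c 8 .nil)))) (.b 24 (.t 32 40 .nil))) (.I .tdb (.c 0 (.c 8 (.c 16 (.c 24 .nil)))) (.b 48 (.t 32 40 .nil)))) (.node (.I .tdb (.c 0 (.c 8 (.c 16 (.c 48 .nil)))) (.b 24 (.t 32 40 .nil))) (.I .tdb (.c 0 (.c 8 (.c 24 (.c 48 .nil)))) (.b 16 (.t 32 40 .nil))))) (.node (.node (.I .tdb (.c 16 (.c 18497 (.c 24 (.c 32 .nil)))) (.t 0 40 .nil)) (.I .tdb (.c 2113 (.c 48 (.c 24 (.c 32 .nil)))) (.t 0 40 .nil))) (.node (.I .tdb (.c 16 (.c 18433 (.c 8 (.c 24 .nil)))) (.t 32 40 .nil)) (.I .tdb (.c 16 (.c 18433 (.c 8 (.c 32 .nil)))) (.t 24 40 .nil))))) (.node (.node (.node (.I .tdb (.c 2049 (.c 48 (.c 8 (.c 24 .nil)))) (.t 32 40 .nil)) (.I .tdb (.c 2049 (.c 48 (.c 24 (.c 32 .nil)))) (.t 8 40 .nil))) (.node (.I .tdb (.c 16 (.c 18433 (.c 8 (.c 40 .nil)))) (.t 24 32 .nil)) (.I .tdb (.c 2049 (.c 48 (.c 8 (.c 40 .nil)))) (.t 24 32 .nil)))) (.node (.node (.I .tdb (.c 2049 (.c 48 (.c 24 (.c 40 .nil))))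 (.t 8 32 .nil)) (.I .tdb (.c 8 (.c 18433 (.c 16 (.c 32 .nil)))) (.t 24 40 .nil))) (.node (.I .tdb (.c 513 (.c 48 (.c 16 (.c 24 .nil)))) (.t 32 40 .nil)) (.I .tdb (.c 8 (.c 18433 (.c 24 (.c 32 .nil)))) (.t 16 40 .nil))))))))

noncomputable def c5_200 : Tr := (.node (.node (.node (.node (.node (.node (.I .tdb (.c 513 (.c 48 (.c 24 (.c 32 .nil)))) (.t 16 40 .nil)) (.I .tdb (.c 513 (.c 48 (.c 16 (.c 40 .nil)))) (.t 24 32 .nil))) (.node (.I .tdb (.c 513 (.c 48 (.c 24 (.c 40 .nil)))) (.t 16 32 .nil)) (.I .com (.c 21099011 (.c 18497 .nil)) (.l 8321 .nil)))) (.node (.node (.I .tdb (.c 8 (.c 18433 (.c 32 (.c 40 .nil)))) (.t 16 24 .nil)) (.I .com (.c 21307395 (.c 18497 .nil)) (.l 4737 .nil))) (.node (.I .com (.c 43356675 (.c 12929 .nil)) (.l 8257 .nil)) (.I .com (.c 43356675 (.c 8321 .nil)) (.l 12865 .nil))))) (.node (.node (.node (.I .ass (.c 18561 (.c 21099011 (.c 8257 .nil))) .nil) (.I .ass (.c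 21099011 (.c 18561 (.c 8257 .nil))) .nil)) (.node (.I .com (.c 18561 (.c 21099011 .nil)) (.r 8257 .nil)) (.I .tdb (.c 32 (.c 12801 (.c 8 (.c 16 .nil)))) (.t 24 48 .nil)))) (.node (.node (.I .tdb (.c 32 (.c 12801 (.c 8 (.c 24 .nil)))) (.t 16 48 .nil)) (.I .tdb (.c 40 (.c 8193 (.c 8 (.c 16 .nil)))) (.t 24 48 .nil))) (.node (.I .tdb (.c 0 (.c 32 (.c 8 (.c 16 .nil)))) (.b 40 (.t 24 48 .nil))) (.I .tdb (.c 40 (.c 8193 (.c 8 (.c 24 .nil)))) (.t 16 48 .nil)))))) (.node (.node (.node (.node (.I .tdb (.c 0 (.c 32 (.c 8 (.c 24 .nil)))) (.b 40 (.t 16 48 .nil))) (.I .ass (.c 18561 (.c 8193 (.c 21099075 .nil))) .nil)) (.node (.I .com (.c 18561 (.c 8193 .nil)) (.r 21099075 .nil)) (.I .tdb (.c 40 (.c 8193 (.c 16 (.c 24 .nil)))) (.t 8 48 .nil)))) (.node (.node (.I .tdb (.c 0 (.c 32 (.c 16 (.c 24 .nil)))) (.b 40 (.t 8 48 .nil))) (.I .ass (.c 18497 (.c 8193 (.c 21099139 .nil))) .nil)) (.node (.I .com (.c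 18497 (.c 8193 .nil)) (.r 21099139 .nil)) (.I .tdb (.c 0 (.c 24 (.c 32 (.c 8 .nil)))) (.b 40 (.t 16 48 .nil)))))) (.node (.node (.node (.I .tdb (.c 0 (.c 24 (.c 40 (.c 16 .nil)))) (.b 32 (.t 8 48 .nil))) (.I .tdb (.c 0 (.c 24 (.c 32 (.c 40 .nil)))) (.b 16 (.t 8 48 .nil)))) (.node (.I .tdb (.c 0 (.c 16 (.c 32 (.c 8 .nil)))) (.b 40 (.t 24 48 .nil))) (.I .tdb (.c 0 (.c 16 (.c 40 (.c 8 .nil)))) (.b 32 (.t 24 48 .nil))))) (.node (.node (.I .tdb (.c 0 (.c 16 (.c 32 (.c 40 .nil)))) (.b 8 (.t 24 48 .nil))) (.I .tdb (.c 0 (.c 8 (.c 32 (.c 40 .nil)))) (.b 16 (.t 24 48 .nil)))) (.node (.I .tdb (.c 0 (.c 8 (.c 24 (.c 40 .nil)))) (.b 32 (.t 16 48 .nil))) (.I .tdb (.c 0 (.c 8 (.c 32 (.c 40 .nil)))) (.b 24 (.t 16 48 .nil)))))))) (.node (.node (.node (.node (.node (.I .tdb (.c 0 (.c 16 (.c 32 (.c 40 .nil)))) (.b 24 (.t 8 48 .nil))) (.I .com (.c 43655171 (.c 12929 .nil)) (.l 4673 .nil))) (.node (.I .com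 (.c 43655171 (.c 4737 .nil)) (.l 12865 .nil)) (.I .ass (.c 18561 (.c 21307395 (.c 4673 .nil))) .nil))) (.node (.node (.I .ass (.c 21307395 (.c 18561 (.c 4673 .nil))) .nil) (.I .com (.c 18561 (.c 21307395 .nil)) (.r 4673 .nil))) (.node (.I .tdb (.c 24 (.c 12801 (.c 8 (.c 16 .nil)))) (.t 32 48 .nil)) (.I .tdb (.c 4609 (.c 40 (.c 8 (.c 16 .nil)))) (.t 32 48 .nil))))) (.node (.node (.node (.I .tdb (.c 0 (.c 24 (.c 8 (.c 16 .nil)))) (.b 40 (.t 32 48 .nil))) (.I .tdb (.c 4609 (.c 40 (.c 8 (.c 32 .nil)))) (.t 16 48 .nil))) (.node (.I .tdb (.c 0 (.c 24 (.c 40 (.c 16 .nil)))) (.b 8 (.t 32 48 .nil))) (.I .ass (.c 18561 (.c 4609 (.c 21307459 .nil))) .nil))) (.node (.node (.I .com (.c 18561 (.c 4609 .nil)) (.r 21307459 .nil)) (.I .ass (.c 18497 (.c 4609 (.c 21307523 .nil))) .nil)) (.node (.I .com (.c 18497 (.c 4609 .nil)) (.r 21307523 .nil)) (.I .tdb (.c 0 (.c 16 (.c 8 (.c 24 .nil)))) (.b 40 (.t 32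 48 .nil))))))) (.node (.node (.node (.node (.I .tdb (.c 0 (.c 16 (.c 40 (.c 8 .nil)))) (.b 24 (.t 32 48 .nil))) (.I .tdb (.c 0 (.c 16 (.c 40 (.c 24 .nil)))) (.b 8 (.t 32 48 .nil)))) (.node (.I .tdb (.c 0 (.c 8 (.c 16 (.c 24 .nil)))) (.b 40 (.t 32 48 .nil))) (.I .tdb (.c 0 (.c 8 (.c 16 (.c 40 .nil)))) (.b 24 (.t 32 48 .nil))))) (.node (.node (.I .tdb (.c 2049 (.c 40 (.c 8 (.c 24 .nil)))) (.t 32 48 .nil)) (.I .tdb (.c 2049 (.c 40 (.c 8 (.c 32 .nil)))) (.t 24 48 .nil))) (.node (.I .tdb (.c 8 (.c 12801 (.c 16 (.c 32 .nil)))) (.t 24 48 .nil)) (.I .tdb (.c 513 (.c 40 (.c 16 (.c 24 .nil)))) (.t 32 48 .nil))))) (.node (.node (.node (.I .tdb (.c 4673 (.c 32 (.c 48 (.c 16 .nil)))) (.t 0 40 .nil)) (.I .tdb (.c 24 (.c 8193 (.c 8 (.c 40 .nil)))) (.t 16 48 .nil))) (.node (.I .tdb (.c 4609 (.c 32 (.c 40 (.c 16 .nil)))) (.t 8 48 .nil)) (.I .tdb (.c 4609 (.c 32 (.c 48 (.c 16 .nil)))) (.t 8 40 .nil)))) (.node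 (.node (.I .tdb (.c 2113 (.c 32 (.c 48 (.c 24 .nil)))) (.t 0 40 .nil)) (.I .tdb (.c 2049 (.c 32 (.c 40 (.c 8 .nil)))) (.t 24 48 .nil))) (.node (.I .tdb (.c 2049 (.c 32 (.c 48 (.c 8 .nil)))) (.t 24 40 .nil)) (.I .tdb (.c 16 (.c 8193 (.c 24 (.c 40 .nil)))) (.t 8 48 .nil))))))))

noncomputable def c5_201 : Tr := (.node (.node (.node (.node (.node (.node (.I .tdb (.c 16 (.c 8193 (.c 24 (.c 48 .nil)))) (.t 8 40 .nil)) (.I .tdb (.c 8 (.c 8193 (.c 16 (.c 40 .nil)))) (.t 24 48 .nil))) (.node (.I .tdb (.c 8 (.c 8193 (.c 24 (.c 40 .nil)))) (.t 16 48 .nil)) (.I .tdb (.c 513 (.c 32 (.c 40 (.c 24 .nil)))) (.t 16 48 .nil)))) (.node (.node (.I .com (.c 21099011 (.c 8257 .nil)) (.l 18561 .nil)) (.I .com (.c 43356675 (.c 8257 .nil)) (.l 12929 .nil))) (.node (.I .tdb (.c 16 (.c 4609 (.c 8 (.c 48 .nil)))) (.t 32 40 .nil)) (.I .tdb (.c 24 (.c 2049 (.c 8 (.c 40 .nil)))) (.t 32 48 .nil))))) (.node (.node (.node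 (.I .tdb (.c 24 (.c 2049 (.c 8 (.c 48 .nil)))) (.t 32 40 .nil)) (.I .tdb (.c 8 (.c 4609 (.c 16 (.c 40 .nil)))) (.t 32 48 .nil))) (.node (.I .tdb (.c 513 (.c 24 (.c 40 (.c 16 .nil)))) (.t 32 48 .nil)) (.I .tdb (.c 513 (.c 24 (.c 48 (.c 16 .nil)))) (.t 32 40 .nil)))) (.node (.node (.I .tdb (.c 8 (.c 2049 (.c 24 (.c 40 .nil)))) (.t 32 48 .nil)) (.I .tdb (.c 8 (.c 2049 (.c 32 (.c 40 .nil)))) (.t 24 48 .nil))) (.node (.I .tdb (.c 8 (.c 2049 (.c 32 (.c 48 .nil)))) (.t 24 40 .nil)) (.I .tdb (.c 513 (.c 16 (.c 48 (.c 24 .nil)))) (.t 32 40 .nil)))))) (.node (.node (.node (.node (.I .tdb (.c 513 (.c 16 (.c 40 (.c 32 .nil)))) (.t 24 48 .nil)) (.I .tdb (.c 513 (.c 16 (.c 48 (.c 32 .nil)))) (.t 24 40 .nil))) (.node (.I .tdb (.c 513 (.c 24 (.c 40 (.c 32 .nil)))) (.t 16 48 .nil)) (.I .tdb (.c 513 (.c 24 (.c 48 (.c 32 .nil)))) (.t 16 40 .nil)))) (.node (.node (.I .com (.c 21307395 (.c 4673 .nil)) (.l 18561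 .nil)) (.I .com (.c 43655171 (.c 4673 .nil)) (.l 12929 .nil))) (.node (.I .tdb (.c 16 (.c 4609 (.c 32 (.c 40 .nil)))) (.t 8 48 .nil)) (.I .tdb (.c 16 (.c 4609 (.c 32 (.c 48 .nil)))) (.t 8 40 .nil))))) (.node (.node (.node (.I .tdb (.c 24 (.c 2049 (.c 32 (.c 40 .nil)))) (.t 8 48 .nil)) (.I .tdb (.c 24 (.c 2049 (.c 32 (.c 48 .nil)))) (.t 8 40 .nil))) (.node (.I .tdb (.c 16 (.c 4673 (.c 32 (.c 48 .nil)))) (.t 0 40 .nil)) (.I .tdb (.c 24 (.c 2113 (.c 32 (.c 48 .nil)))) (.t 0 40 .nil)))) (.node (.node (.I .tdb (.c 0 (.c 24 (.c 32 (.c 8 .nil)))) (.b 16 (.t 40 48 .nil))) (.I .tdb (.c 0 (.c 16 (.c 32 (.c 8 .nil)))) (.b 24 (.t 40 48 .nil)))) (.node (.I .tdb (.c 0 (.c 16 (.c 32 (.c 24 .nil)))) (.b 8 (.t 40 48 .nil))) (.I .tdb (.c 0 (.c 8 (.c 16 (.c 24 .nil)))) (.b 32 (.t 40 48 .nil)))))))) (.node (.node (.node (.node (.node (.I .tdb (.c 0 (.c 8 (.c 24 (.c 32 .nil)))) (.b 16 (.t 40 48 .nil))) (.I .tdb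 (.c 513 (.c 32 (.c 16 (.c 24 .nil)))) (.t 40 48 .nil))) (.node (.I .tdb (.c 4673 (.c 40 (.c 16 (.c 48 .nil)))) (.t 0 32 .nil)) (.I .tdb (.c 16 (.c 12801 (.c 8 (.c 48 .nil)))) (.t 24 32 .nil)))) (.node (.node (.I .tdb (.c 2049 (.c 40 (.c 8 (.c 48 .nil)))) (.t 24 32 .nil)) (.I .tdb (.c 2049 (.c 40 (.c 24 (.c 48 .nil)))) (.t 8 32 .nil))) (.node (.I .com (.c 43356675 (.c 12865 .nil)) (.l 8321 .nil)) (.I .tdb (.c 16 (.c 4609 (.c 8 (.c 32 .nil)))) (.t 40 48 .nil))))) (.node (.node (.node (.I .tdb (.c 24 (.c 2049 (.c 8 (.c 32 .nil)))) (.t 40 48 .nil)) (.I .tdb (.c 8 (.c 2049 (.c 24 (.c 32 .nil)))) (.t 40 48 .nil))) (.node (.I .tdb (.c 8 (.c 2049 (.c 40 (.c 48 .nil)))) (.t 24 32 .nil)) (.I .tdb (.c 513 (.c 16 (.c 24 (.c 32 .nil)))) (.t 40 48 .nil)))) (.node (.node (.I .tdb (.c 513 (.c 24 (.c 40 (.c 48 .nil)))) (.t 16 32 .nil)) (.I .tdb (.c 16 (.c 4609 (.c 40 (.c 48 .nil)))) (.t 8 32 .nil))) (.node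 (.I .tdb (.c 16 (.c 4673 (.c 40 (.c 48 .nil)))) (.t 0 32 .nil)) (.I .tdb (.c 32 (.c 12801 (.c 8 (.c 48 .nil)))) (.t 16 24 .nil)))))) (.node (.node (.node (.node (.I .tdb (.c 40 (.c 8193 (.c 8 (.c 48 .nil)))) (.t 16 24 .nil)) (.I .tdb (.c 32 (.c 12801 (.c 16 (.c 48 .nil)))) (.t 8 24 .nil))) (.node (.I .tdb (.c 16 (.c 12801 (.c 32 (.c 48 .nil)))) (.t 8 24 .nil)) (.I .tdb (.c 8 (.c 12801 (.c 32 (.c 48 .nil)))) (.t 16 24 .nil)))) (.node (.node (.I .com (.c 43655171 (.c 12865 .nil)) (.l 4737 .nil)) (.I .tdb (.c 513 (.c 32 (.c 40 (.c 48 .nil)))) (.t 16 24 .nil))) (.node (.I .tdb (.c 16 (.c 8193 (.c 40 (.c 48 .nil)))) (.t 8 24 .nil)) (.I .tdb (.c 2049 (.c 32 (.c 40 (.c 48 .nil)))) (.t 8 24 .nil))))) (.node (.node (.node (.I .tdb (.c 32 (.c 12801 (.c 24 (.c 48 .nil)))) (.t 8 16 .nil)) (.I .tdb (.c 24 (.c 12801 (.c 32 (.c 48 .nil)))) (.t 8 16 .nil))) (.node (.I .tdb (.c 24 (.c 8193 (.c 40 (.c 48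 .nil)))) (.t 8 16 .nil)) (.I .tdb (.c 4609 (.c 32 (.c 40 (.c 48 .nil)))) (.t 8 16 .nil)))) (.node (.node (.I .tdb (.c 32 (.c 12929 (.c 24 (.c 48 .nil)))) (.t 0 8 .nil)) (.I .tdb (.c 24 (.c 12929 (.c 32 (.c 48 .nil)))) (.t 0 8 .nil))) (.node (.I .tdb (.c 0 (.c 48 (.c 16 (.c 24 .nil)))) (.t 32 40 (.b 8 .nil))) (.I .tdb (.c 0 (.c 48 (.c 16 (.c 32 .nil)))) (.t 24 40 (.b 8 .nil)))))))))

noncomputable def c5_202 : Tr := (.node (.node (.node (.node (.node (.node (.I .tdb (.c 0 (.c 48 (.c 16 (.c 40 .nil)))) (.t 24 32 (.b 8 .nil))) (.I .tdb (.c 0 (.c 48 (.c 24 (.c 40 .nil)))) (.t 16 32 (.b 8 .nil)))) (.node (.I .tdb (.c 0 (.c 32 (.c 16 (.c 40 .nil)))) (.t 24 48 (.b 8 .nil))) (.I .tdb (.c 0 (.c 32 (.c 16 (.c 48 .nil)))) (.t 24 40 (.b 8 .nil))))) (.node (.node (.I .tdb (.c 0 (.c 32 (.c 24 (.c 40 .nil)))) (.t 16 48 (.b 8 .nil))) (.I .tdb (.c 0 (.c 32 (.c 24 (.c 48 .nil)))) (.t 16 40 (.b 8 .nil))))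 (.node (.I .tdb (.c 0 (.c 16 (.c 48 (.c 24 .nil)))) (.t 32 40 (.b 8 .nil))) (.I .tdb (.c 0 (.c 16 (.c 32 (.c 48 .nil)))) (.t 24 40 (.b 8 .nil)))))) (.node (.node (.node (.I .tdb (.c 0 (.c 40 (.c 16 (.c 48 .nil)))) (.t 24 32 (.b 8 .nil))) (.I .tdb (.c 0 (.c 40 (.c 24 (.c 48 .nil)))) (.t 16 32 (.b 8 .nil)))) (.node (.I .tdb (.c 0 (.c 16 (.c 40 (.c 48 .nil)))) (.t 24 32 (.b 8 .nil))) (.I .tdb (.c 0 (.c 40 (.c 32 (.c 48 .nil)))) (.t 16 24 (.b 8 .nil))))) (.node (.node (.I .tdb (.c 0 (.c 48 (.c 8 (.c 32 .nil)))) (.t 24 40 (.b 16 .nil))) (.I .tdb (.c 0 (.c 48 (.c 8 (.c 40 .nil)))) (.t 24 32 (.b 16 .nil)))) (.node (.I .tdb (.c 0 (.c 48 (.c 32 (.c 40 .nil)))) (.t 8 24 (.b 16 .nil))) (.I .tdb (.c 0 (.c 40 (.c 8 (.c 24 .nil)))) (.t 32 48 (.b 16 .nil))))))) (.node (.node (.node (.node (.I .tdb (.c 0 (.c 40 (.c 8 (.c 32 .nil)))) (.t 24 48 (.b 16 .nil))) (.I .tdb (.c 0 (.c 32 (.c 8 (.c 48 .nil)))) (.t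 24 40 (.b 16 .nil)))) (.node (.I .tdb (.c 0 (.c 32 (.c 8 (.c 48 .nil)))) (.l 12993 (.b 16 .nil))) (.I .tdb (.c 0 (.c 24 (.c 48 (.c 8 .nil)))) (.t 32 40 (.b 16 .nil))))) (.node (.node (.I .tdb (.c 0 (.c 8 (.c 24 (.c 40 .nil)))) (.t 32 48 (.b 16 .nil))) (.I .tdb (.c 0 (.c 8 (.c 32 (.c 40 .nil)))) (.t 24 48 (.b 16 .nil)))) (.node (.I .tdb (.c 0 (.c 40 (.c 24 (.c 48 .nil)))) (.t 8 32 (.b 16 .nil))) (.I .tdb (.c 0 (.c 8 (.c 40 (.c 48 .nil)))) (.t 24 32 (.b 16 .nil)))))) (.node (.node (.node (.I .tdb (.c 0 (.c 24 (.c 40 (.c 48 .nil)))) (.t 8 32 (.b 16 .nil))) (.I .tdb (.c 0 (.c 40 (.c 32 (.c 48 .nil)))) (.t 8 24 (.b 16 .nil)))) (.node (.I .tdb (.c 0 (.c 32 (.c 40 (.c 48 .nil)))) (.t 8 24 (.b 16 .nil))) (.I .tdb (.c 0 (.c 48 (.c 8 (.c 16 .nil)))) (.t 32 40 (.b 24 .nil))))) (.node (.node (.I .tdb (.c 0 (.c 48 (.c 16 (.c 32 .nil)))) (.t 8 40 (.b 24 .nil))) (.I .tdb (.c 0 (.c 48 (.c 8 (.c 40 .nil))))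 (.t 16 32 (.b 24 .nil)))) (.node (.I .tdb (.c 0 (.c 48 (.c 32 (.c 40 .nil)))) (.t 8 16 (.b 24 .nil))) (.I .tdb (.c 0 (.c 40 (.c 16 (.c 32 .nil)))) (.t 8 48 (.b 24 .nil)))))))) (.node (.node (.node (.node (.node (.I .tdb (.c 0 (.c 16 (.c 48 (.c 8 .nil)))) (.t 32 40 (.b 24 .nil))) (.I .tdb (.c 0 (.c 8 (.c 32 (.c 48 .nil)))) (.t 16 40 (.b 24 .nil)))) (.node (.I .tdb (.c 0 (.c 16 (.c 32 (.c 48 .nil)))) (.t 8 40 (.b 24 .nil))) (.I .tdb (.c 0 (.c 40 (.c 8 (.c 48 .nil)))) (.t 16 32 (.b 24 .nil))))) (.node (.node (.I .tdb (.c 0 (.c 8 (.c 40 (.c 48 .nil)))) (.t 16 32 (.b 24 .nil))) (.I .tdb (.c 0 (.c 48 (.c 8 (.c 16 .nil)))) (.t 24 40 (.b 32 .nil)))) (.node (.I .tdb (.c 0 (.c 48 (.c 8 (.c 24 .nil)))) (.t 16 40 (.b 32 .nil))) (.I .tdb (.c 0 (.c 48 (.c 16 (.c 40 .nil)))) (.t 8 24 (.b 32 .nil)))))) (.node (.node (.node (.I .tdb (.c 0 (.c 40 (.c 8 (.c 16 .nil)))) (.t 24 48 (.b 32 .nil))) (.I .tdb (.c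 0 (.c 40 (.c 8 (.c 24 .nil)))) (.t 16 48 (.b 32 .nil)))) (.node (.I .tdb (.c 0 (.c 24 (.c 48 (.c 16 .nil)))) (.t 8 40 (.b 32 .nil))) (.I .tdb (.c 0 (.c 16 (.c 48 (.c 8 .nil)))) (.t 24 40 (.b 32 .nil))))) (.node (.node (.I .tdb (.c 0 (.c 16 (.c 48 (.c 8 .nil)))) (.l 12993 (.b 32 .nil))) (.I .tdb (.c 0 (.c 8 (.c 16 (.c 48 .nil)))) (.t 24 40 (.b 32 .nil)))) (.node (.I .tdb (.c 0 (.c 8 (.c 16 (.c 48 .nil)))) (.l 12993 (.b 32 .nil))) (.I .tdb (.c 0 (.c 40 (.c 8 (.c 48 .nil)))) (.l 4737 (.b 32 .nil))))))) (.node (.node (.node (.node (.I .tdb (.c 0 (.c 40 (.c 16 (.c 48 .nil)))) (.t 8 24 (.b 32 .nil))) (.I .tdb (.c 0 (.c 8 (.c 16 (.c 24 .nil)))) (.t 40 48 (.b 32 .nil)))) (.node (.I .tdb (.c 0 (.c 16 (.c 40 (.c 48 .nil)))) (.t 8 24 (.b 32 .nil))) (.I .tdb (.c 0 (.c 24 (.c 40 (.c 48 .nil)))) (.t 8 16 (.b 32 .nil))))) (.node (.node (.I .tdb (.c 0 (.c 48 (.c 8 (.c 16 .nil)))) (.t 24 32 (.b 40 .nil)))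 (.I .tdb (.c 0 (.c 48 (.c 8 (.c 24 .nil)))) (.t 16 32 (.b 40 .nil)))) (.node (.I .tdb (.c 0 (.c 48 (.c 16 (.c 32 .nil)))) (.t 8 24 (.b 40 .nil))) (.I .tdb (.c 0 (.c 48 (.c 24 (.c 32 .nil)))) (.t 8 16 (.b 40 .nil)))))) (.node (.node (.node (.I .tdb (.c 0 (.c 24 (.c 32 (.c 8 .nil)))) (.t 16 48 (.b 40 .nil))) (.I .tdb (.c 0 (.c 24 (.c 48 (.c 8 .nil)))) (.t 16 32 (.b 40 .nil)))) (.node (.I .tdb (.c 0 (.c 24 (.c 32 (.c 16 .nil)))) (.t 8 48 (.b 40 .nil))) (.I .tdb (.c 0 (.c 8 (.c 16 (.c 32 .nil)))) (.t 24 48 (.b 40 .nil))))) (.node (.node (.I .tdb (.c 0 (.c 8 (.c 16 (.c 48 .nil)))) (.t 24 32 (.b 40 .nil))) (.I .tdb (.c 0 (.c 8 (.c 16 (.c 48 .nil)))) (.l 8385 (.b 40 .nil)))) (.node (.I .tdb (.c 0 (.c 8 (.c 24 (.c 32 .nil)))) (.t 16 48 (.b 40 .nil))) (.I .tdb (.c 0 (.c 24 (.c 8 (.c 16 .nil)))) (.t 32 48 (.b 40 .nil)))))))))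

noncomputable def c5_203 : Tr := (.node (.node (.node (.node (.node (.node (.I .tdb (.c 0 (.c 32 (.c 8 (.c 48 .nil)))) (.l 4737 (.b 40 .nil))) (.I .tdb (.c 0 (.c 8 (.c 16 (.c 24 .nil)))) (.t 32 48 (.b 40 .nil)))) (.node (.I .tdb (.c 0 (.c 8 (.c 32 (.c 48 .nil)))) (.t 16 24 (.b 40 .nil))) (.I .tdb (.c 0 (.c 32 (.c 24 (.c 48 .nil)))) (.t 8 16 (.b 40 .nil))))) (.node (.node (.I .tdb (.c 0 (.c 40 (.c 8 (.c 24 .nil)))) (.t 16 32 (.b 48 .nil))) (.I .tdb (.c 0 (.c 40 (.c 16 (.c 24 .nil)))) (.t 8 32 (.b 48 .nil)))) (.node (.I .tdb (.c 0 (.c 40 (.c 8 (.c 32 .nil)))) (.t 16 24 (.b 48 .nil))) (.I .tdb (.c 0 (.c 40 (.c 24 (.c 32 .nil)))) (.t 8 16 (.b 48 .nil)))))) (.node (.node (.node (.I .tdb (.c 0 (.c 24 (.c 40 (.c 8 .nil)))) (.t 16 32 (.b 48 .nil))) (.I .tdb (.c 0 (.c 24 (.c 40 (.c 8 .nil)))) (.l 8321 (.b 48 .nil)))) (.node (.I .tdb (.c 0 (.c 24 (.c 40 (.c 16 .nil)))) (.t 8 32 (.b 48 .nil))) (.I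 .tdb (.c 0 (.c 16 (.c 40 (.c 8 .nil)))) (.t 24 32 (.b 48 .nil))))) (.node (.node (.I .tdb (.c 0 (.c 8 (.c 16 (.c 40 .nil)))) (.t 24 32 (.b 48 .nil))) (.I .tdb (.c 0 (.c 8 (.c 16 (.c 40 .nil)))) (.l 8385 (.b 48 .nil)))) (.node (.I .tdb (.c 0 (.c 8 (.c 24 (.c 40 .nil)))) (.t 16 32 (.b 48 .nil))) (.I .tdb (.c 0 (.c 24 (.c 8 (.c 16 .nil)))) (.t 32 40 (.b 48 .nil))))))) (.node (.node (.node (.node (.I .tdb (.c 0 (.c 32 (.c 8 (.c 40 .nil)))) (.t 16 24 (.b 48 .nil))) (.I .tdb (.c 0 (.c 8 (.c 16 (.c 24 .nil)))) (.t 32 40 (.b 48 .nil)))) (.node (.I .tdb (.c 0 (.c 8 (.c 32 (.c 40 .nil)))) (.t 16 24 (.b 48 .nil))) (.I .tdb (.c 0 (.c 24 (.c 32 (.c 40 .nil)))) (.t 8 16 (.b 48 .nil))))) (.node (.node (.I .tdb (.c 16 (.c 4673 (.c 32 (.c 40 .nil)))) (.b 0 (.b 48 .nil))) (.I .tdb (.c 8 (.c 24 (.c 32 (.c 40 .nil)))) (.b 16 (.b 0 (.b 48 .nil))))) (.node (.I .jac (.c 0 (.c 8 (.c 24 .nil))) (.t 32 43954819 .nil))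 (.I .jac (.c 0 (.c 8 (.c 16 .nil))) (.t 24 43954947 .nil))))) (.node (.node (.node (.I .jac (.c 0 (.c 8 (.c 16 .nil))) (.t 32 43954883 .nil)) (.I .jac (.c 0 (.c 8 (.c 16 .nil))) (.t 40 43655363 .nil))) (.node (.I .jac (.c 0 (.c 8 (.c 16 .nil))) (.t 48 21307587 .nil)) (.I .jac (.c 16 (.c 24 (.c 48 .nil))) (.t 32 40 (.l 513 .nil))))) (.node (.node (.I .jac (.c 8 (.c 24 (.c 48 .nil))) (.t 32 40 (.l 2049 .nil))) (.I .jac (.c 0 (.c 24 (.c 40 .nil))) (.t 32 48 (.b 16 (.b 8 .nil))))) (.node (.I .jac (.c 0 (.c 16 (.c 40 .nil))) (.t 32 48 (.b 24 (.b 8 .nil)))) (.I .jac (.c 0 (.c 8 (.c 32 .nil))) (.t 40 48 (.b 24 (.b 16 .nil))))))))) (.node (.node (.node (.node (.node (.I .jac (.c 8 (.c 16 (.c 24 .nil))) (.t 40 48 (.l 8193 .nil))) (.I .jac (.c 0 (.c 16 (.c 24 .nil))) (.t 40 48 (.b 8 (.b 32 .nil))))) (.node (.I .jac (.c 8 (.c 16 (.c 32 .nil))) (.t 24 48 (.l 12801 .nil))) (.I .jac (.c 0 (.c 16 (.c 48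 .nil))) (.t 24 32 (.b 8 (.b 40 .nil)))))) (.node (.node (.I .jac (.c 0 (.c 8 (.c 48 .nil))) (.t 24 32 (.b 40 (.b 16 .nil)))) (.I .jac (.c 0 (.c 8 (.c 32 .nil))) (.t 24 48 (.b 16 (.b 40 .nil))))) (.node (.I .jac (.c 0 (.c 8 (.c 48 .nil))) (.t 16 32 (.b 24 (.b 40 .nil)))) (.I .jac (.c 0 (.c 8 (.c 24 .nil))) (.t 16 48 (.b 40 (.b 32 .nil))))))) (.node (.node (.node (.I .jac (.c 8 (.c 16 (.c 32 .nil))) (.t 24 40 (.l 18433 .nil))) (.I .jac (.c 0 (.c 16 (.c 32 .nil))) (.t 24 40 (.b 8 (.b 48 .nil))))) (.node (.I .jac (.c 0 (.c 8 (.c 32 .nil))) (.t 24 40 (.b 48 (.b 16 .nil)))) (.I .jac (.c 0 (.c 8 (.c 40 .nil))) (.t 16 32 (.b 48 (.b 24 .nil)))))) (.node (.node (.I .jac (.c 0 (.c 8 (.c 40 .nil))) (.t 16 32 (.b 24 (.b 48 .nil)))) (.I .jac (.c 0 (.c 8 (.c 16 .nil))) (.t 24 40 (.b 48 (.b 32 .nil))))) (.node (.I .jac (.c 0 (.c 8 (.c 24 .nil))) (.t 16 32 (.b 40 (.b 48 .nil)))) (.I .com (.c 2105545 (.c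 18689 .nil)) (.l 12929 .nil)))))) (.node (.node (.node (.node (.I .com (.c 33587401 (.c 18689 .nil)) (.l 12865 .nil)) (.I .com (.c 2105545 (.c 13057 .nil)) (.l 18561 .nil))) (.node (.I .com (.c 33587401 (.c 13057 .nil)) (.l 18497 .nil)) (.I .com (.c 2105545 (.c 18753 .nil)) (.l 8321 .nil)))) (.node (.node (.I .com (.c 33587401 (.c 18753 .nil)) (.l 8257 .nil)) (.I .com (.c 537002057 (.c 257801270351607817 .nil)) .nil)) (.node (.I .com (.c 2105609 (.c 18753 .nil)) (.l 4737 .nil)) (.I .com (.c 537002185 (.c 18753 .nil)) (.l 2113 .nil))))) (.node (.node (.node (.I .ass (.c 18689 (.c 40 (.c 35466557976329 .nil))) .nil) (.I .ass (.c 18689 (.c 40 (.c 35464401931081 .nil))) .nil)) (.node (.I .jac (.c 513 (.c 16 (.c 24 .nil))) (.l 2794379602 .nil)) (.I .com (.c 1310924873 (.c 2454552647364603913 .nil)) .nil))) (.node (.node (.I .com (.c 1310924873 (.c 257801086529639433 .nil)) .nil) (.I .com (.c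 1310925001 (.c 18689 .nil)) (.l 2113 .nil))) (.node (.I .ass (.c 32 (.c 18753 (.c 35466557976329 .nil))) .nil) (.I .ass (.c 32 (.c 18753 (.c 35464401931081 .nil))) .nil)))))))

noncomputable def c5_204 : Tr := (.node (.node (.node (.node (.node (.node (.I .jac (.c 513 (.c 16 (.c 24 .nil))) (.l 2813400330 .nil)) (.I .jac (.c 18433 (.c 8 (.c 24 .nil))) (.r 1363882121 .nil))) (.node (.I .jac (.c 0 (.c 4673 (.c 48 .nil))) (.r 1363882121 .nil)) (.I .jac (.c 0 (.c 8 (.c 24 .nil))) (.b 48 (.r 1363882121 .nil))))) (.node (.node (.I .jac (.c 18433 (.c 8 (.c 16 .nil))) (.l 562533202 .nil)) (.I .jac (.c 2049 (.c 8 (.c 48 .nil))) (.l 562533202 .nil))) (.node (.I .ass (.c 8385 (.c 40 (.c 59109065668069837513 .nil))) .nil) (.I .ass (.c 8385 (.c 40 (.c 9025011228269257 .nil))) .nil)))) (.node (.node (.node (.I .ass (.c 8385 (.c 40 (.c 35473026505481 .nil))) .nil) (.I .ass (.c 8385 (.c 40 (.c 35464401931273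 .nil))) .nil)) (.node (.I .jac (.c 18433 (.c 8 (.c 16 .nil))) (.l 1363882186 .nil)) (.I .jac (.c 2049 (.c 8 (.c 48 .nil))) (.l 1363882186 .nil)))) (.node (.node (.I .ass (.c 24 (.c 13057 (.c 59109065668069837513 .nil))) .nil) (.I .ass (.c 24 (.c 13057 (.c 9025011228269257 .nil))) .nil)) (.node (.I .ass (.c 24 (.c 13057 (.c 35473026505481 .nil))) .nil) (.I .ass (.c 24 (.c 13057 (.c 35464401931273 .nil))) .nil))))) (.node (.node (.node (.node (.I .ass (.c 8385 (.c 40 (.c 59109062884628932361 .nil))) .nil) (.I .ass (.c 8385 (.c 40 (.c 9024839260612617 .nil))) .nil)) (.node (.I .ass (.c 24 (.c 13057 (.c 59109062884628932361 .nil))) .nil) (.I .ass (.c 24 (.c 13057 (.c 9024839260612617 .nil))) .nil))) (.node (.node (.I .jac (.c 8 (.c 16 (.c 32 .nil))) (.r 59109068451510808521 .nil)) (.I .com (.c 2718203977 (.c 257801270351607689 .nil)) .nil)) (.node (.I .com (.c 2718203977 (.c 2454552647364603849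 .nil)) .nil) (.I .com (.c 2718203977 (.c 257801086529639369 .nil)) .nil)))) (.node (.node (.node (.I .com (.c 2718204105 (.c 13057 .nil)) (.l 2113 .nil)) (.I .adp (.c 32 (.c 40 (.c 48 .nil))) (.r 179517457 .nil))) (.node (.I .adp (.c 32 (.c 40 (.c 24 .nil))) (.r 2756089873 .nil)) (.I .com (.c 12993 (.c 32 .nil)) (.r 2756089873 .nil)))) (.node (.node (.I .jac (.c 513 (.c 16 (.c 48 .nil))) (.l 562533202 .nil)) (.I .adp (.c 32 (.c 40 (.c 16 .nil))) (.r 2737148945 .nil))) (.node (.I .com (.c 12929 (.c 32 .nil)) (.r 2737148945 .nil)) (.I .adp (.c 32 (.c 40 (.c 8 .nil))) (.r 2718241809 .nil))))))) (.node (.node (.node (.node (.node (.I .com (.c 12865 (.c 32 .nil)) (.r 2718241809 .nil)) (.I .jac (.c 0 (.c 4737 (.c 40 .nil))) (.b 8 (.l 18689 .nil)))) (.node (.I .jac (.c 0 (.c 16 (.c 24 .nil))) (.b 40 (.b 8 (.l 18689 .nil)))) (.I .jac (.c 12801 (.c 16 (.c 24 .nil))) (.r 2794229833 .nil)))) (.node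 (.node (.I .jac (.c 0 (.c 4737 (.c 40 .nil))) (.r 2794229833 .nil)) (.I .jac (.c 0 (.c 16 (.c 24 .nil))) (.b 40 (.r 2794229833 .nil)))) (.node (.I .jac (.c 513 (.c 16 (.c 48 .nil))) (.l 1363882186 .nil)) (.I .adp (.c 24 (.c 40 (.c 32 .nil))) (.r 2737128465 .nil))))) (.node (.node (.node (.I .adp (.c 24 (.c 40 (.c 32 .nil))) (.r 2718220817 .nil)) (.I .adp (.c 16 (.c 40 (.c 32 .nil))) (.r 2737148945 .nil))) (.node (.I .adp (.c 8 (.c 40 (.c 32 .nil))) (.r 2718241809 .nil)) (.I .jac (.c 0 (.c 8321 (.c 24 .nil))) (.b 8 (.l 18753 .nil))))) (.node (.node (.I .jac (.c 0 (.c 16 (.c 32 .nil))) (.b 24 (.b 8 (.l 18753 .nil)))) (.I .jac (.c 4609 (.c 16 (.c 32 .nil))) (.r 2813400137 .nil))) (.node (.I .jac (.c 0 (.c 8321 (.c 24 .nil))) (.r 2813400137 .nil)) (.I .jac (.c 0 (.c 16 (.c 32 .nil))) (.b 24 (.r 2813400137 .nil))))))) (.node (.node (.node (.node (.I .jac (.c 0 (.c 4737 (.c 32 .nil))) (.b 8 (.l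 18753 .nil))) (.I .jac (.c 0 (.c 16 (.c 24 .nil))) (.b 32 (.b 8 (.l 18753 .nil))))) (.node (.I .jac (.c 8193 (.c 16 (.c 24 .nil))) (.r 2813400137 .nil)) (.I .jac (.c 0 (.c 4737 (.c 32 .nil))) (.r 2813400137 .nil)))) (.node (.node (.I .jac (.c 0 (.c 16 (.c 24 .nil))) (.b 32 (.r 2813400137 .nil))) (.I .jac (.c 4609 (.c 8 (.c 32 .nil))) (.r 2813400201 .nil))) (.node (.I .jac (.c 0 (.c 8257 (.c 24 .nil))) (.r 2813400201 .nil)) (.I .jac (.c 0 (.c 8 (.c 32 .nil))) (.b 24 (.r 2813400201 .nil)))))) (.node (.node (.node (.I .adp (.c 24 (.c 32 (.c 40 .nil))) (.r 2756089873 .nil)) (.I .adp (.c 16 (.c 32 (.c 40 .nil))) (.r 2737148945 .nil))) (.node (.I .adp (.c 8 (.c 32 (.c 40 .nil))) (.r 2718241809 .nil)) (.I .com (.c 8321 (.c 24 .nil)) (.r 2718306833 .nil)))) (.node (.node (.I .adp (.c 24 (.c 32 (.c 16 .nil))) (.r 2718306833 .nil)) (.I .com (.c 8257 (.c 24 .nil)) (.r 2718307345 .nil))) (.node (.I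 .adp (.c 24 (.c 32 (.c 8 .nil))) (.r 2718307345 .nil)) (.I .adp (.c 16 (.c 32 (.c 24 .nil))) (.r 2718306833 .nil))))))))

noncomputable def c5_205 : Tr := (.node (.node (.node (.node (.node (.node (.I .adp (.c 8 (.c 32 (.c 24 .nil))) (.r 2718307345 .nil)) (.I .jac (.c 8 (.c 16 (.c 24 .nil))) (.r 2306972423229201353 .nil))) (.node (.I .adp (.c 16 (.c 24 (.c 32 .nil))) (.r 2718306833 .nil)) (.I .adp (.c 8 (.c 24 (.c 32 .nil))) (.r 2718307345 .nil)))) (.node (.node (.I .jac (.c 8 (.c 16 (.c 32 .nil))) (.r 13748194865974800393 .nil)) (.I .jac (.c 8 (.c 16 (.c 24 .nil))) (.r 13748196208362034185 .nil))) (.node (.X 1 (.c 48 (.c 24 (.c 32 (.c 0 (.c 20891715 .nil))))) .nil) (.X 1 (.c 48 (.c 20891715 (.c 32 (.c 0 (.c 24 .nil))))) .nil)))) (.node (.node (.node (.X 1 (.c 32 (.c 16 (.c 24 (.c 8 (.c 40 .nil))))) (.l 18433 .nil)) (.X 1 (.c 43655235 (.c 40 (.c 16 (.c 0 (.c 24 .nil))))) .nil)) (.node (.X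 1 (.c 48 (.c 20891715 (.c 24 (.c 0 (.c 32 .nil))))) .nil) (.X 1 (.c 40 (.c 32 (.c 24 (.c 0 (.c 16 .nil))))) (.b 8 (.b 48 .nil))))) (.node (.node (.X 1 (.c 40 (.c 32 (.c 16 (.c 0 (.c 24 .nil))))) (.b 48 (.b 8 .nil))) (.X 1 (.c 40 (.c 32 (.c 16 (.c 0 (.c 24 .nil))))) (.b 8 (.b 48 .nil)))) (.node (.X 1 (.c 48 (.c 16 (.c 40 (.c 0 (.c 8 .nil))))) (.b 24 (.b 32 .nil))) (.X 1 (.c 43655299 (.c 0 (.c 40 (.c 8 (.c 24 .nil))))) .nil))))) (.node (.node (.node (.node (.X 1 (.c 40 (.c 24 (.c 32 (.c 0 (.c 16 .nil))))) (.b 48 (.b 8 .nil))) (.X 1 (.c 43059203 (.c 24 (.c 40 (.c 32 (.c 8 .nil))))) .nil)) (.node (.X 1 (.c 43655235 (.c 16 (.c 40 (.c 0 (.c 24 .nil))))) .nil) (.X 1 (.c 48 (.c 21099075 (.c 16 (.c 0 (.c 32 .nil))))) .nil))) (.node (.node (.X 1 (.c 48 (.c 557571 (.c 40 (.c 24 (.c 32 .nil))))) .nil) (.X 1 (.c 48 (.c 8 (.c 40 (.c 0 (.c 24 .nil))))) (.b 16 (.b 32 .nil)))) (.node (.X 1 (.c 48 (.c 40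 (.c 24 (.c 0 (.c 16 .nil))))) (.b 32 (.b 8 .nil))) (.X 1 (.c 48 (.c 24 (.c 8 (.c 0 (.c 21307523 .nil))))) .nil)))) (.node (.node (.node (.X 1 (.c 43059203 (.c 32 (.c 40 (.c 8 (.c 24 .nil))))) .nil) (.X 1 (.c 40 (.c 0 (.c 32 (.c 16 (.c 24 .nil))))) (.b 48 (.b 8 .nil)))) (.node (.X 1 (.c 48 (.c 32 (.c 40 (.c 0 (.c 16 .nil))))) (.b 24 (.b 8 .nil))) (.X 1 (.c 43655363 (.c 0 (.c 40 (.c 8 (.c 16 .nil))))) .nil))) (.node (.node (.X 1 (.c 43655363 (.c 0 (.c 40 (.c 16 (.c 8 .nil))))) .nil) (.X 1 (.c 43954819 (.c 0 (.c 24 (.c 8 (.c 32 .nil))))) .nil)) (.node (.X 1 (.c 48 (.c 8652867 (.c 24 (.c 0 (.c 40 .nil))))) .nil) (.X 1 (.c 48 (.c 32 (.c 8 (.c 0 (.c 21099139 .nil))))) .nil)))))) (.node (.node (.node (.node (.node (.X 1 (.c 32 (.c 24 (.c 16 (.c 0 (.c 40 .nil))))) (.b 48 (.b 8 .nil))) (.X 1 (.c 48 (.c 24 (.c 40 (.c 8652803 (.c 8 .nil))))) .nil)) (.node (.X 1 (.c 48 (.c 24 (.c 40 (.c 0 (.c 8652867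 .nil))))) .nil) (.X 1 (.c 48 (.c 21099075 (.c 32 (.c 0 (.c 16 .nil))))) .nil))) (.node (.node (.X 1 (.c 43655299 (.c 24 (.c 40 (.c 0 (.c 8 .nil))))) .nil) (.X 1 (.c 48 (.c 32 (.c 24 (.c 0 (.c 20891715 .nil))))) .nil)) (.node (.X 1 (.c 24 (.c 8 (.c 16 (.c 0 (.c 43954947 .nil))))) .nil) (.X 1 (.c 48 (.c 16 (.c 40 (.c 8520195 (.c 24 .nil))))) .nil)))) (.node (.node (.node (.X 1 (.c 43655171 (.c 8 (.c 24 (.c 16 (.c 40 .nil))))) .nil) (.X 1 (.c 32 (.c 0 (.c 16 (.c 8 (.c 43954883 .nil))))) .nil)) (.node (.X 1 (.c 48 (.c 16 (.c 40 (.c 8786435 (.c 8 .nil))))) .nil) (.X 1 (.c 48 (.c 24 (.c 40 (.c 0 (.c 32 .nil))))) (.b 16 (.b 8 .nil))))) (.node (.node (.X 1 (.c 48 (.c 21307459 (.c 16 (.c 0 (.c 24 .nil))))) .nil) (.X 1 (.c 48 (.c 24 (.c 40 (.c 0 (.c 32 .nil))))) (.b 8 (.b 16 .nil)))) (.node (.X 1 (.c 48 (.c 8 (.c 32 (.c 0 (.c 40 .nil))))) (.b 16 (.b 24 .nil))) (.X 1 (.c 43655171 (.c 16 (.c 40 (.c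 8 (.c 24 .nil))))) .nil))))) (.node (.node (.node (.node (.X 1 (.c 48 (.c 32 (.c 40 (.c 557571 (.c 24 .nil))))) .nil) (.X 1 (.c 40 (.c 0 (.c 32 (.c 8 (.c 43356803 .nil))))) .nil)) (.node (.X 1 (.c 40 (.c 16 (.c 24 (.c 8 (.c 48 .nil))))) (.l 8193 .nil)) (.X 1 (.c 40 (.c 0 (.c 8786563 (.c 8 (.c 48 .nil))))) .nil))) (.node (.node (.X 1 (.c 40 (.c 0 (.c 32 (.c 2803779 (.c 48 .nil))))) .nil) (.X 1 (.c 40 (.c 8 (.c 24 (.c 16 (.c 48 .nil))))) (.l 8193 .nil))) (.node (.X 1 (.c 48 (.c 32 (.c 40 (.c 2728451 (.c 16 .nil))))) .nil) (.X 1 (.c 48 (.c 0 (.c 40 (.c 8 (.c 32 .nil))))) (.b 16 (.b 24 .nil)))))) (.node (.node (.node (.X 1 (.c 48 (.c 16 (.c 21307459 (.c 0 (.c 24 .nil))))) .nil) (.X 1 (.c 48 (.c 32 (.c 2728451 (.c 16 (.c 40 .nil))))) .nil)) (.node (.X 1 (.c 48 (.c 24 (.c 32 (.c 0 (.c 40 .nil))))) (.b 8 (.b 16 .nil))) (.X 1 (.c 43655171 (.c 40 (.c 24 (.c 16 (.c 8 .nil))))) .nil))) (.node (.node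 (.X 1 (.c 48 (.c 8652803 (.c 40 (.c 8 (.c 24 .nil))))) .nil) (.X 1 (.c 48 (.c 32 (.c 40 (.c 0 (.c 2803779 .nil))))) .nil)) (.node (.X 1 (.c 48 (.c 32 (.c 2803779 (.c 0 (.c 40 .nil))))) .nil) (.X 1 (.c 48 (.c 21307395 (.c 24 (.c 8 (.c 16 .nil))))) .nil)))))))

noncomputable def c5_206 : Tr := (.node (.node (.node (.node (.node (.node (.X 1 (.c 48 (.c 16 (.c 21099011 (.c 8 (.c 32 .nil))))) .nil) (.X 1 (.c 48 (.c 16 (.c 21099011 (.c 32 (.c 8 .nil))))) .nil)) (.node (.X 1 (.c 48 (.c 16 (.c 21099075 (.c 0 (.c 32 .nil))))) .nil) (.X 1 (.c 43954691 (.c 8 (.c 32 (.c 16 (.c 24 .nil))))) .nil))) (.node (.node (.X 1 (.c 48 (.c 0 (.c 24 (.c 16 (.c 40 .nil))))) (.b 8 (.b 32 .nil))) (.X 1 (.c 43954691 (.c 8 (.c 32 (.c 24 (.c 16 .nil))))) .nil)) (.node (.X 1 (.c 48 (.c 24 (.c 40 (.c 0 (.c 8 .nil))))) (.b 16 (.b 32 .nil))) (.X 1 (.c 40 (.c 16 (.c 8 (.c 0 (.c 24 .nil))))) (.b 48 (.b 32 .nil)))))) (.node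 (.node (.node (.X 1 (.c 32 (.c 8 (.c 16 (.c 0 (.c 24 .nil))))) (.b 40 (.b 48 .nil))) (.X 1 (.c 40 (.c 16 (.c 8 (.c 0 (.c 48 .nil))))) (.b 24 (.b 32 .nil)))) (.node (.X 1 (.c 43954691 (.c 16 (.c 32 (.c 8 (.c 24 .nil))))) .nil) (.X 1 (.c 48 (.c 8786499 (.c 16 (.c 0 (.c 40 .nil))))) .nil))) (.node (.node (.X 1 (.c 48 (.c 24 (.c 40 (.c 0 (.c 8 .nil))))) (.b 32 (.b 16 .nil))) (.X 1 (.c 40 (.c 8 (.c 24 (.c 0 (.c 16 .nil))))) (.b 32 (.b 48 .nil)))) (.node (.X 1 (.c 40 (.c 16 (.c 8 (.c 0 (.c 48 .nil))))) (.b 32 (.b 24 .nil))) (.X 1 (.c 40 (.c 0 (.c 24 (.c 16 (.c 8 .nil))))) (.b 32 (.b 48 .nil))))))) (.node (.node (.node (.node (.X 1 (.c 48 (.c 40 (.c 2728451 (.c 16 (.c 32 .nil))))) .nil) (.X 1 (.c 40 (.c 24 (.c 32 (.c 0 (.c 48 .nil))))) (.b 16 (.b 8 .nil)))) (.node (.X 1 (.c 48 (.c 24 (.c 21307523 (.c 0 (.c 8 .nil))))) .nil) (.X 1 (.c 43059267 (.c 40 (.c 32 (.c 0 (.c 24 .nil))))) .nil))) (.node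 (.node (.X 1 (.c 32 (.c 8 (.c 16 (.c 0 (.c 40 .nil))))) (.b 48 (.b 24 .nil))) (.X 1 (.c 32 (.c 0 (.c 16 (.c 8 (.c 24 .nil))))) (.b 48 (.b 40 .nil)))) (.node (.X 1 (.c 48 (.c 0 (.c 40 (.c 16 (.c 24 .nil))))) (.b 8 (.b 32 .nil))) (.X 1 (.c 48 (.c 0 (.c 24 (.c 16 (.c 40 .nil))))) (.b 32 (.b 8 .nil)))))) (.node (.node (.node (.X 1 (.c 48 (.c 40 (.c 32 (.c 0 (.c 2803779 .nil))))) .nil) (.X 1 (.c 48 (.c 40 (.c 2803779 (.c 0 (.c 32 .nil))))) .nil)) (.node (.X 1 (.c 32 (.c 24 (.c 16 (.c 0 (.c 8 .nil))))) (.b 48 (.b 40 .nil))) (.X 1 (.c 48 (.c 8786563 (.c 8 (.c 0 (.c 40 .nil))))) .nil))) (.node (.node (.X 1 (.c 48 (.c 16 (.c 32 (.c 0 (.c 40 .nil))))) (.b 8 (.b 24 .nil))) (.X 1 (.c 48 (.c 0 (.c 40 (.c 16 (.c 8 .nil))))) (.b 32 (.b 24 .nil)))) (.node (.X 1 (.c 40 (.c 0 (.c 32 (.c 8 (.c 48 .nil))))) (.b 16 (.b 24 .nil))) (.X 1 (.c 48 (.c 40 (.c 16 (.c 0 (.c 8786499 .nil))))) .nil)))))) (.node (.node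 (.node (.node (.node (.X 1 (.c 32 (.c 16 (.c 8 (.c 0 (.c 24 .nil))))) (.b 48 (.b 40 .nil))) (.X 1 (.c 40 (.c 0 (.c 32 (.c 8 (.c 48 .nil))))) (.b 24 (.b 16 .nil)))) (.node (.X 1 (.c 48 (.c 40 (.c 24 (.c 0 (.c 8652867 .nil))))) .nil) (.X 1 (.c 48 (.c 8786499 (.c 40 (.c 0 (.c 16 .nil))))) .nil))) (.node (.node (.X 1 (.c 43954691 (.c 24 (.c 32 (.c 8 (.c 16 .nil))))) .nil) (.X 1 (.c 40 (.c 24 (.c 32 (.c 0 (.c 48 .nil))))) (.b 8 (.b 16 .nil)))) (.node (.X 1 (.c 40 (.c 0 (.c 32 (.c 8 (.c 24 .nil))))) (.b 16 (.b 48 .nil))) (.X 1 (.c 40 (.c 8 (.c 24 (.c 0 (.c 32 .nil))))) (.b 48 (.b 16 .nil)))))) (.node (.node (.node (.X 1 (.c 48 (.c 0 (.c 40 (.c 24 (.c 32 .nil))))) (.b 8 (.b 16 .nil))) (.X 1 (.c 40 (.c 8 (.c 24 (.c 0 (.c 32 .nil))))) (.b 16 (.b 48 .nil)))) (.node (.X 1 (.c 48 (.c 40 (.c 8786435 (.c 8 (.c 16 .nil))))) .nil) (.X 1 (.c 40 (.c 0 (.c 32 (.c 8 (.c 24 .nil))))) (.b 48 (.b 16 .nil)))))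 (.node (.node (.X 1 (.c 40 (.c 8 (.c 32 (.c 0 (.c 24 .nil))))) (.b 48 (.b 16 .nil))) (.X 1 (.c 48 (.c 0 (.c 32 (.c 24 (.c 40 .nil))))) (.b 16 (.b 8 .nil)))) (.node (.X 1 (.c 48 (.c 40 (.c 8652803 (.c 8 (.c 24 .nil))))) .nil) (.X 1 (.c 48 (.c 2803715 (.c 40 (.c 8 (.c 32 .nil))))) .nil))))) (.node (.node (.node (.node (.X 1 (.c 40 (.c 32 (.c 24 (.c 0 (.c 8 .nil))))) (.b 16 (.b 48 .nil))) (.X 1 (.c 48 (.c 40 (.c 8786563 (.c 0 (.c 8 .nil))))) .nil)) (.node (.X 1 (.c 40 (.c 8 (.c 32 (.c 0 (.c 16 .nil))))) (.b 48 (.b 24 .nil))) (.X 1 (.c 40 (.c 8 (.c 16 (.c 0 (.c 32 .nil))))) (.b 24 (.b 48 .nil))))) (.node (.node (.X 1 (.c 40 (.c 0 (.c 32 (.c 8 (.c 16 .nil))))) (.b 48 (.b 24 .nil))) (.X 1 (.c 48 (.c 24 (.c 20891651 (.c 8 (.c 32 .nil))))) .nil)) (.node (.X 1 (.c 48 (.c 24 (.c 20891651 (.c 32 (.c 8 .nil))))) .nil) (.X 1 (.c 48 (.c 24 (.c 20891715 (.c 0 (.c 32 .nil))))) .nil)))) (.node (.node (.node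 (.X 1 (.c 48 (.c 0 (.c 24 (.c 8 (.c 32 .nil))))) (.b 16 (.b 40 .nil))) (.X 1 (.c 48 (.c 16 (.c 40 (.c 24 (.c 32 .nil))))) (.l 513 .nil))) (.node (.X 1 (.c 43356739 (.c 16 (.c 40 (.c 0 (.c 32 .nil))))) .nil) (.X 1 (.c 48 (.c 24 (.c 32 (.c 8 (.c 40 .nil))))) (.l 2049 .nil)))) (.node (.node (.X 1 (.c 48 (.c 8 (.c 32 (.c 0 (.c 24 .nil))))) (.b 16 (.b 40 .nil))) (.X 1 (.c 48 (.c 24 (.c 40 (.c 8 (.c 32 .nil))))) (.l 2049 .nil))) (.node (.X 1 (.c 43356803 (.c 8 (.c 32 (.c 0 (.c 40 .nil))))) .nil) (.X 1 (.c 48 (.c 8 (.c 32 (.c 0 (.c 16 .nil))))) (.b 40 (.b 24 .nil)))))))))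

noncomputable def c5_207 : Tr := (.node (.node (.node (.node (.node (.node (.X 1 (.c 21307523 (.c 8 (.c 24 (.c 0 (.c 48 .nil))))) .nil) (.X 1 (.c 43954883 (.c 32 (.c 16 (.c 0 (.c 8 .nil))))) .nil)) (.node (.X 1 (.c 48 (.c 8 (.c 32 (.c 0 (.c 16 .nil))))) (.b 24 (.b 40 .nil))) (.X 1 (.c 48 (.c 40 (.c 24 (.c 8 (.c 32 .nil))))) (.l 2049 .nil)))) (.node (.node (.X 1 (.c 48 (.c 8 (.c 16 (.c 0 (.c 32 .nil))))) (.b 40 (.b 24 .nil))) (.X 1 (.c 48 (.c 8 (.c 16 (.c 0 (.c 32 .nil))))) (.b 24 (.b 40 .nil)))) (.node (.X 1 (.c 43356803 (.c 8 (.c 40 (.c 0 (.c 32 .nil))))) .nil) (.X 1 (.c 43356803 (.c 32 (.c 8 (.c 0 (.c 40 .nil))))) .nil)))) (.node (.node (.node (.X 1 (.c 43356803 (.c 40 (.c 8 (.c 0 (.c 32 .nil))))) .nil) (.X 1 (.c 48 (.c 0 (.c 32 (.c 16 (.c 8 .nil))))) (.b 24 (.b 40 .nil)))) (.node (.X 1 (.c 48 (.c 8 (.c 21099139 (.c 0 (.c 32 .nil))))) .nil) (.X 1 (.c 48 (.c 40 (.c 16 (.c 8 (.c 32 .nil)))))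 (.l 4609 .nil)))) (.node (.node (.X 1 (.c 48 (.c 24 (.c 32 (.c 0 (.c 16 .nil))))) (.b 8 (.b 40 .nil))) (.X 1 (.c 48 (.c 16 (.c 32 (.c 0 (.c 24 .nil))))) (.b 8 (.b 40 .nil)))) (.node (.X 1 (.c 48 (.c 16 (.c 24 (.c 0 (.c 32 .nil))))) (.b 40 (.b 8 .nil))) (.X 1 (.c 48 (.c 16 (.c 24 (.c 8 (.c 32 .nil))))) (.l 12801 .nil)))))) (.node (.node (.node (.node (.X 1 (.c 48 (.c 8 (.c 24 (.c 16 (.c 32 .nil))))) (.l 12801 .nil)) (.X 1 (.c 32 (.c 16 (.c 24 (.c 8 (.c 48 .nil))))) (.l 12801 .nil))) (.node (.X 1 (.c 48 (.c 32 (.c 24 (.c 0 (.c 16 .nil))))) (.b 40 (.b 8 .nil))) (.X 1 (.c 48 (.c 8 (.c 8786435 (.c 16 (.c 40 .nil))))) .nil))) (.node (.node (.X 1 (.c 48 (.c 8 (.c 40 (.c 16 (.c 24 .nil))))) (.l 8193 .nil)) (.X 1 (.c 43954883 (.c 0 (.c 32 (.c 16 (.c 8 .nil))))) .nil)) (.node (.X 1 (.c 48 (.c 40 (.c 24 (.c 8 (.c 16 .nil))))) (.l 8193 .nil)) (.X 1 (.c 43954883 (.c 0 (.c 32 (.c 8 (.c 16 .nil))))) .nil))))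 (.node (.node (.node (.X 1 (.c 24 (.c 0 (.c 16 (.c 8 (.c 48 .nil))))) (.b 32 (.b 40 .nil))) (.X 1 (.c 48 (.c 40 (.c 16 (.c 8 (.c 24 .nil))))) (.l 8193 .nil))) (.node (.X 1 (.c 48 (.c 0 (.c 24 (.c 16 (.c 8 .nil))))) (.b 40 (.b 32 .nil))) (.X 1 (.c 48 (.c 24 (.c 16 (.c 0 (.c 8 .nil))))) (.b 40 (.b 32 .nil))))) (.node (.node (.X 0 (.c 231045467270827017 (.c 40 (.c 32 (.c 8 .nil)))) .nil) (.X 0 (.c 48 (.c 32 (.c 4609 (.c 8 .nil)))) (.b 16 (.b 40 .nil)))) (.node (.X 0 (.c 48 (.c 20685315 (.c 32 (.c 24 .nil)))) (.b 16 .nil)) (.X 0 (.c 48 (.c 40 (.c 8520195 (.c 24 .nil)))) (.b 16 .nil))))))) (.node (.node (.node (.node (.node (.X 0 (.c 43954755 (.c 32 (.c 24 (.c 0 .nil)))) (.b 16 .nil)) (.X 0 (.c 59109065668069837641 (.c 40 (.c 32 (.c 8 .nil)))) .nil)) (.node (.X 0 (.c 231046163358604041 (.c 40 (.c 32 (.c 8 .nil)))) .nil) (.X 0 (.c 48 (.c 40 (.c 8786499 (.c 0 .nil)))) (.b 16 .nil)))) (.node (.node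 (.X 0 (.c 48 (.c 40 (.c 32 (.c 24 .nil)))) (.l 33587273 .nil)) (.X 0 (.c 43954691 (.c 32 (.c 24 (.c 8 .nil)))) (.b 16 .nil))) (.node (.X 0 (.c 48 (.c 40 (.c 537002185 (.c 8 .nil)))) (.b 16 .nil)) (.X 0 (.c 24 (.c 16 (.c 8 (.c 0 .nil)))) (.b 32 (.b 48 (.b 40 .nil))))))) (.node (.node (.node (.X 0 (.c 40 (.c 32 (.c 16 (.c 8 .nil)))) (.b 24 (.l 18433 .nil))) (.X 0 (.c 48 (.c 40 (.c 169943305 (.c 8 .nil)))) (.b 16 .nil))) (.node (.X 0 (.c 48 (.c 40 (.c 537002057 (.c 24 .nil)))) (.b 16 .nil)) (.X 0 (.c 48 (.c 40 (.c 32 (.c 24 .nil)))) (.l 2105481 .nil)))) (.node (.node (.X 0 (.c 59109062884628932425 (.c 40 (.c 32 (.c 16 .nil)))) .nil) (.X 0 (.c 43356739 (.c 40 (.c 32 (.c 2049 .nil)))) .nil)) (.node (.X 0 (.c 15038410136445065 (.c 40 (.c 32 (.c 16 .nil)))) .nil) (.X 0 (.c 231046163358603977 (.c 40 (.c 32 (.c 16 .nil)))) .nil))))) (.node (.node (.node (.node (.X 0 (.c 48 (.c 32 (.c 24 (.c 8 .nil))))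 (.l 33587529 .nil)) (.X 0 (.c 43356675 (.c 40 (.c 32 (.c 8 .nil)))) (.b 16 .nil))) (.node (.X 0 (.c 35473026505545 (.c 40 (.c 32 (.c 16 .nil)))) .nil) (.X 0 (.c 48 (.c 21307587 (.c 8 (.c 0 .nil)))) (.b 16 .nil)))) (.node (.node (.X 0 (.c 18497 (.c 40 (.c 32 (.c 24 .nil)))) (.l 2049 .nil)) (.X 0 (.c 43356739 (.c 40 (.c 32 (.c 0 .nil)))) (.b 16 .nil))) (.node (.X 0 (.c 40 (.c 32 (.c 16 (.c 8 .nil)))) (.l 43356675 .nil)) (.X 0 (.c 48 (.c 40 (.c 8257 (.c 24 .nil)))) (.l 2049 .nil))))) (.node (.node (.node (.X 0 (.c 40 (.c 32 (.c 16 (.c 8 .nil)))) (.l 2718204105 .nil)) (.X 0 (.c 40 (.c 8786435 (.c 16 (.c 8 .nil)))) (.b 48 .nil))) (.node (.X 0 (.c 40 (.c 169943305 (.c 16 (.c 8 .nil)))) (.b 48 .nil)) (.X 0 (.c 40 (.c 537002185 (.c 16 (.c 8 .nil)))) (.b 48 .nil)))) (.node (.node (.X 0 (.c 43356739 (.c 12801 (.c 32 (.c 16 .nil)))) .nil) (.X 0 (.c 35466557976585 (.c 40 (.c 32 (.c 16 .nil)))) .nil))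 (.node (.X 0 (.c 14629225721520393 (.c 40 (.c 32 (.c 16 .nil)))) .nil) (.X 0 (.c 48 (.c 32 (.c 24 (.c 0 .nil)))) (.b 40 (.b 16 (.b 8 .nil))))))))))

noncomputable def c5_208 : Tr := (.node (.node (.node (.node (.node (.node (.X 0 (.c 42762755 (.c 40 (.c 32 (.c 24 .nil)))) (.b 16 .nil)) (.X 0 (.c 2105737 (.c 40 (.c 32 (.c 24 .nil)))) (.b 16 .nil))) (.node (.X 0 (.c 2718203977 (.c 40 (.c 32 (.c 24 .nil)))) (.b 16 .nil)) (.X 0 (.c 43356739 (.c 40 (.c 8193 (.c 16 .nil)))) .nil))) (.node (.node (.X 0 (.c 48 (.c 32 (.c 24 (.c 0 .nil)))) (.b 40 (.b 8 (.b 16 .nil)))) (.X 0 (.c 48 (.c 32 (.c 24 (.c 0 .nil)))) (.b 8 (.b 16 (.b 40 .nil))))) (.node (.X 0 (.c 48 (.c 40 (.c 32 (.c 2728451 .nil)))) (.b 16 .nil)) (.X 0 (.c 40 (.c 32 (.c 2803715 (.c 8 .nil)))) (.b 48 .nil))))) (.node (.node (.node (.X 0 (.c 48 (.c 40 (.c 32 (.c 2105545 .nil)))) (.b 16 .nil)) (.X 0 (.c 48 (.c 169943369 (.c 32 (.c 8 .nil))))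 (.b 16 .nil))) (.node (.X 0 (.c 40 (.c 2105609 (.c 24 (.c 16 .nil)))) (.b 48 .nil)) (.X 0 (.c 48 (.c 32 (.c 24 (.c 513 .nil)))) (.b 16 (.b 40 .nil))))) (.node (.node (.X 0 (.c 48 (.c 32 (.c 24 (.c 513 .nil)))) (.b 40 (.b 16 .nil))) (.X 0 (.c 48 (.c 21099011 (.c 32 (.c 8 .nil)))) (.b 16 .nil))) (.node (.X 0 (.c 43655235 (.c 40 (.c 24 (.c 0 .nil)))) (.b 16 .nil)) (.X 0 (.c 43655363 (.c 40 (.c 8 (.c 0 .nil)))) (.b 16 .nil)))))) (.node (.node (.node (.node (.X 0 (.c 40 (.c 537002057 (.c 24 (.c 16 .nil)))) (.b 48 .nil)) (.X 0 (.c 40 (.c 537002121 (.c 24 (.c 8 .nil)))) (.b 48 .nil))) (.node (.X 0 (.c 48 (.c 12801 (.c 32 (.c 24 .nil)))) (.b 16 (.b 8 .nil))) (.X 0 (.c 40 (.c 8652803 (.c 24 (.c 8 .nil)))) (.b 48 .nil)))) (.node (.node (.X 0 (.c 48 (.c 12801 (.c 32 (.c 24 .nil)))) (.b 8 (.b 16 .nil))) (.X 0 (.c 62886542410185 (.c 40 (.c 32 (.c 8 .nil)))) .nil)) (.node (.X 0 (.c 48 (.c 537002313 (.c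 24 (.c 8 .nil)))) (.b 16 .nil)) (.X 0 (.c 40 (.c 32 (.c 16 (.c 513 .nil)))) (.b 24 (.b 48 .nil)))))) (.node (.node (.node (.X 0 (.c 48 (.c 32 (.c 24 (.c 0 .nil)))) (.b 16 (.b 8 (.b 40 .nil)))) (.X 0 (.c 48 (.c 32 (.c 24 (.c 8 .nil)))) (.b 40 (.l 2049 .nil)))) (.node (.X 0 (.c 43356803 (.c 40 (.c 8193 (.c 8 .nil)))) .nil) (.X 0 (.c 9024908047478793 (.c 40 (.c 32 (.c 8 .nil)))) .nil))) (.node (.node (.X 0 (.c 48 (.c 21307395 (.c 24 (.c 8 .nil)))) (.b 16 .nil)) (.X 0 (.c 43655171 (.c 40 (.c 24 (.c 8 .nil)))) (.b 16 .nil))) (.node (.X 0 (.c 43356803 (.c 12801 (.c 32 (.c 8 .nil)))) .nil) (.X 0 (.c 48 (.c 3491688652046473 (.c 32 (.c 24 .nil)))) .nil)))))) (.node (.node (.node (.node (.node (.X 0 (.c 48 (.c 4609 (.c 16 (.c 8 .nil)))) (.b 40 (.b 32 .nil))) (.X 0 (.c 48 (.c 21099075 (.c 32 (.c 2049 .nil)))) .nil)) (.node (.X 0 (.c 48 (.c 16 (.c 8 (.c 0 .nil)))) (.b 24 (.b 32 (.b 40 .nil)))) (.X 0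 (.c 18433 (.c 24 (.c 16 (.c 8 .nil)))) (.b 32 (.b 40 .nil))))) (.node (.node (.X 0 (.c 48 (.c 9024976834606793 (.c 32 (.c 24 .nil)))) .nil) (.X 0 (.c 48 (.c 4609 (.c 16 (.c 8 .nil)))) (.b 32 (.b 40 .nil)))) (.node (.X 0 (.c 48 (.c 13748192181200529161 (.c 32 (.c 24 .nil)))) .nil) (.X 0 (.c 48 (.c 35470870263561 (.c 32 (.c 24 .nil)))) .nil)))) (.node (.node (.node (.X 0 (.c 48 (.c 3491710045129801 (.c 32 (.c 24 .nil)))) .nil) (.X 0 (.c 48 (.c 20891715 (.c 8193 (.c 24 .nil)))) .nil)) (.node (.X 0 (.c 48 (.c 20891715 (.c 32 (.c 4609 .nil)))) .nil) (.X 0 (.c 48 (.c 13748194865974800073 (.c 32 (.c 16 .nil)))) .nil))) (.node (.node (.X 0 (.c 48 (.c 3491688652046601 (.c 32 (.c 8 .nil)))) .nil) (.X 0 (.c 48 (.c 3561389332330569 (.c 32 (.c 8 .nil)))) .nil)) (.node (.X 0 (.c 48 (.c 24 (.c 2049 (.c 8 .nil)))) (.b 40 (.b 32 .nil))) (.X 0 (.c 48 (.c 16 (.c 8 (.c 0 .nil)))) (.b 32 (.b 24 (.b 40 .nil))))))))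 (.node (.node (.node (.node (.X 0 (.c 48 (.c 21099139 (.c 8193 (.c 8 .nil)))) .nil) (.X 0 (.c 48 (.c 231045989336561353 (.c 32 (.c 16 .nil)))) .nil)) (.node (.X 0 (.c 48 (.c 13748192181200529225 (.c 32 (.c 16 .nil)))) .nil) (.X 0 (.c 48 (.c 35470870263625 (.c 32 (.c 16 .nil)))) .nil))) (.node (.node (.X 0 (.c 48 (.c 3423058053193993 (.c 32 (.c 16 .nil)))) .nil) (.X 0 (.c 48 (.c 231045293249046473 (.c 32 (.c 16 .nil)))) .nil)) (.node (.X 0 (.c 48 (.c 3561367726845001 (.c 32 (.c 16 .nil)))) .nil) (.X 0 (.c 48 (.c 40 (.c 617629514823753 (.c 8 .nil)))) .nil)))) (.node (.node (.node (.X 0 (.c 21307395 (.c 24 (.c 16 (.c 8 .nil)))) (.b 48 .nil)) (.X 0 (.c 48 (.c 40 (.c 231045815314584329 (.c 8 .nil)))) .nil)) (.node (.X 0 (.c 48 (.c 40 (.c 2306970223667989321 (.c 8 .nil)))) .nil) (.X 0 (.c 48 (.c 40 (.c 231045467270826889 (.c 8 .nil)))) .nil))) (.node (.node (.X 0 (.c 48 (.c 40 (.c 9024908047478665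 (.c 8 .nil)))) .nil) (.X 0 (.c 48 (.c 40 (.c 8786563 (.c 513 .nil)))) .nil)) (.node (.X 0 (.c 48 (.c 40 (.c 2306970773558193865 (.c 16 .nil)))) .nil) (.X 0 (.c 48 (.c 40 (.c 231045815314584265 (.c 16 .nil)))) .nil)))))))

noncomputable def c5_209 : Tr := (.node (.node (.node (.node (.node (.node (.X 0 (.c 48 (.c 40 (.c 617611520073865 (.c 16 .nil)))) .nil) (.X 0 (.c 48 (.c 40 (.c 2306969673777850185 (.c 16 .nil)))) .nil)) (.node (.X 0 (.c 48 (.c 40 (.c 231045293249046409 (.c 16 .nil)))) .nil) (.X 0 (.c 48 (.c 32 (.c 8 (.c 0 .nil)))) (.b 21099139 .nil)))) (.node (.node (.X 0 (.c 48 (.c 32 (.c 8 (.c 0 .nil)))) (.b 16 (.b 24 (.b 40 .nil)))) (.X 0 (.c 21307523 (.c 24 (.c 8 (.c 0 .nil)))) (.b 48 .nil))) (.node (.X 0 (.c 48 (.c 32 (.c 8 (.c 0 .nil)))) (.b 16 (.b 40 (.b 24 .nil)))) (.X 0 (.c 48 (.c 32 (.c 8 (.c 0 .nil)))) (.b 24 (.b 16 (.b 40 .nil))))))) (.node (.node (.node (.X 0 (.c 48 (.c 32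 (.c 8 (.c 0 .nil)))) (.b 24 (.b 40 (.b 16 .nil)))) (.X 0 (.c 48 (.c 32 (.c 8 (.c 0 .nil)))) (.b 40 (.b 16 (.b 24 .nil))))) (.node (.X 0 (.c 48 (.c 9024976834606921 (.c 32 (.c 8 .nil)))) .nil) (.X 0 (.c 48 (.c 32 (.c 16 (.c 0 .nil)))) (.b 8 (.b 24 (.b 40 .nil)))))) (.node (.node (.X 0 (.c 48 (.c 12801 (.c 8786563 (.c 8 .nil)))) .nil) (.X 0 (.c 48 (.c 32 (.c 16 (.c 0 .nil)))) (.b 24 (.b 8 (.b 40 .nil))))) (.node (.X 0 (.c 48 (.c 12801 (.c 8652867 (.c 24 .nil)))) .nil) (.X 0 (.c 48 (.c 21307587 (.c 16 (.c 513 .nil)))) .nil))))) (.node (.node (.node (.node (.X 0 (.c 48 (.c 617611520074121 (.c 16 (.c 8 .nil)))) .nil) (.X 0 (.c 40 (.c 32 (.c 24 (.c 0 .nil)))) (.b 43059267 .nil))) (.node (.X 0 (.c 48 (.c 24 (.c 16 (.c 0 .nil)))) (.b 40 (.b 8 (.b 32 .nil)))) (.X 0 (.c 48 (.c 24 (.c 8 (.c 0 .nil)))) (.b 32 (.b 40 (.b 16 .nil)))))) (.node (.node (.X 0 (.c 48 (.c 24 (.c 8 (.c 0 .nil)))) (.b 32 (.b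 16 (.b 40 .nil)))) (.X 0 (.c 18433 (.c 21099139 (.c 32 (.c 8 .nil)))) .nil)) (.node (.X 0 (.c 48 (.c 13748196208362033929 (.c 24 (.c 8 .nil)))) .nil) (.X 0 (.c 48 (.c 2306971873338799881 (.c 24 (.c 8 .nil)))) .nil)))) (.node (.node (.node (.X 0 (.c 48 (.c 3632040653488329 (.c 24 (.c 8 .nil)))) .nil) (.X 0 (.c 48 (.c 13748193523587632009 (.c 24 (.c 8 .nil)))) .nil)) (.node (.X 0 (.c 18433 (.c 40 (.c 8786563 (.c 8 .nil)))) .nil) (.X 0 (.c 48 (.c 24 (.c 8 (.c 0 .nil)))) (.b 21307523 .nil)))) (.node (.node (.X 0 (.c 18433 (.c 40 (.c 32 (.c 2803779 .nil)))) .nil) (.X 0 (.c 48 (.c 24 (.c 16 (.c 0 .nil)))) (.b 8 (.b 40 (.b 32 .nil))))) (.node (.X 0 (.c 40 (.c 32 (.c 24 (.c 0 .nil)))) (.b 48 (.b 16 (.b 8 .nil)))) (.X 0 (.c 48 (.c 598967998054793 (.c 24 (.c 8 .nil)))) .nil)))))) (.node (.node (.node (.node (.node (.X 0 (.c 48 (.c 2306971873338799945 (.c 16 (.c 8 .nil)))) .nil) (.X 0 (.c 48 (.c 3632040653488393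 (.c 16 (.c 8 .nil)))) .nil)) (.node (.X 0 (.c 48 (.c 24 (.c 16 (.c 8 .nil)))) (.l 1310925065 .nil)) (.X 0 (.c 48 (.c 16 (.c 8 (.c 0 .nil)))) (.b 21307587 .nil)))) (.node (.node (.X 0 (.c 48 (.c 24 (.c 16 (.c 8 .nil)))) (.b 40 (.l 8193 .nil))) (.X 0 (.c 48 (.c 24 (.c 16 (.c 8 .nil)))) (.l 21307395 .nil))) (.node (.X 0 (.c 40 (.c 32 (.c 24 (.c 0 .nil)))) (.b 8 (.b 48 (.b 16 .nil)))) (.X 0 (.c 40 (.c 32 (.c 24 (.c 0 .nil)))) (.b 8 (.b 16 (.b 48 .nil))))))) (.node (.node (.node (.X 0 (.c 48 (.c 24 (.c 16 (.c 513 .nil)))) (.b 40 (.b 32 .nil))) (.X 0 (.c 48 (.c 24 (.c 2049 (.c 8 .nil)))) (.b 32 (.b 40 .nil)))) (.node (.X 0 (.c 48 (.c 13748193523587631945 (.c 32 (.c 8 .nil)))) .nil) (.X 0 (.c 48 (.c 24 (.c 16 (.c 8 .nil)))) (.b 32 (.l 12801 .nil))))) (.node (.node (.X 0 (.c 48 (.c 21307523 (.c 24 (.c 513 .nil)))) .nil) (.X 0 (.c 48 (.c 2306971873338799817 (.c 24 (.c 16 .nil)))) .nil)) (.node (.X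 0 (.c 48 (.c 3632040653488265 (.c 24 (.c 16 .nil)))) .nil) (.X 0 (.c 48 (.c 13748192181200529289 (.c 24 (.c 16 .nil)))) .nil))))) (.node (.node (.node (.node (.X 0 (.c 48 (.c 35470870263689 (.c 24 (.c 16 .nil)))) .nil) (.X 0 (.c 48 (.c 3423058053194057 (.c 24 (.c 16 .nil)))) .nil)) (.node (.X 0 (.c 48 (.c 35468714087369 (.c 24 (.c 16 .nil)))) .nil) (.X 0 (.c 48 (.c 32 (.c 16 (.c 8 .nil)))) (.l 169943369 .nil)))) (.node (.node (.X 0 (.c 43655171 (.c 40 (.c 24 (.c 16 .nil)))) (.b 8 .nil)) (.X 0 (.c 40 (.c 32 (.c 24 (.c 513 .nil)))) (.b 16 (.b 48 .nil)))) (.node (.X 0 (.c 48 (.c 32 (.c 16 (.c 8 .nil)))) (.b 40 (.l 4609 .nil))) (.X 0 (.c 2718204105 (.c 40 (.c 32 (.c 16 .nil)))) (.b 8 .nil))))) (.node (.node (.node (.X 0 (.c 169943433 (.c 40 (.c 32 (.c 16 .nil)))) (.b 8 .nil)) (.X 0 (.c 43356675 (.c 40 (.c 32 (.c 16 .nil)))) (.b 8 .nil))) (.node (.X 0 (.c 48 (.c 32 (.c 16 (.c 8 .nil)))) (.l 21099011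 .nil)) (.X 0 (.c 48 (.c 32 (.c 16 (.c 8 .nil)))) (.l 1310925001 .nil)))) (.node (.node (.X 0 (.c 43059203 (.c 40 (.c 32 (.c 24 .nil)))) (.b 8 .nil)) (.X 0 (.c 40 (.c 8193 (.c 16 (.c 8 .nil)))) (.b 48 (.b 24 .nil)))) (.node (.X 0 (.c 20685315 (.c 32 (.c 24 (.c 16 .nil)))) (.b 48 .nil)) (.X 0 (.c 43954883 (.c 32 (.c 16 (.c 0 .nil)))) (.b 8 .nil))))))))

noncomputable def c5_210 : Tr := (.node (.node (.node (.node (.node (.node (.X 0 (.c 14832803796618313 (.c 40 (.c 32 (.c 24 .nil)))) .nil) (.X 0 (.c 35464401931273 (.c 40 (.c 32 (.c 24 .nil)))) .nil)) (.node (.X 0 (.c 35473026505481 (.c 40 (.c 32 (.c 24 .nil)))) .nil) (.X 0 (.c 14832759703961737 (.c 40 (.c 32 (.c 24 .nil)))) .nil))) (.node (.node (.X 0 (.c 9025011228269257 (.c 40 (.c 32 (.c 24 .nil)))) .nil) (.X 0 (.c 40 (.c 8193 (.c 16 (.c 8 .nil)))) (.b 24 (.b 48 .nil)))) (.node (.X 0 (.c 43954819 (.c 32 (.c 24 (.c 0 .nil)))) (.b 8 .nil))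 (.X 0 (.c 2718204233 (.c 32 (.c 24 (.c 16 .nil)))) (.b 8 .nil))))) (.node (.node (.node (.X 0 (.c 1310925193 (.c 32 (.c 24 (.c 16 .nil)))) (.b 8 .nil)) (.X 0 (.c 43954691 (.c 32 (.c 24 (.c 16 .nil)))) (.b 8 .nil))) (.node (.X 0 (.c 43655299 (.c 40 (.c 24 (.c 0 .nil)))) (.b 8 .nil)) (.X 0 (.c 48 (.c 40 (.c 537002121 (.c 24 .nil)))) (.b 8 .nil)))) (.node (.node (.X 0 (.c 48 (.c 40 (.c 32 (.c 33587401 .nil)))) (.b 8 .nil)) (.X 0 (.c 18561 (.c 40 (.c 32 (.c 24 .nil)))) (.l 513 .nil))) (.node (.X 0 (.c 48 (.c 12929 (.c 32 (.c 24 .nil)))) (.l 513 .nil)) (.X 0 (.c 18433 (.c 32 (.c 16 (.c 8 .nil)))) (.b 40 (.b 24 .nil))))))) (.node (.node (.node (.node (.X 0 (.c 48 (.c 40 (.c 8321 (.c 24 .nil)))) (.l 513 .nil)) (.X 0 (.c 40 (.c 32 (.c 2049 (.c 8 .nil)))) (.b 48 (.b 24 .nil)))) (.node (.X 0 (.c 43954883 (.c 32 (.c 8 (.c 0 .nil)))) (.b 16 .nil)) (.X 0 (.c 48 (.c 21307523 (.c 24 (.c 0 .nil)))) (.b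 8 .nil)))) (.node (.node (.X 0 (.c 48 (.c 1310924937 (.c 32 (.c 24 .nil)))) (.b 8 .nil)) (.X 0 (.c 48 (.c 20891651 (.c 32 (.c 24 .nil)))) (.b 8 .nil))) (.node (.X 0 (.c 48 (.c 40 (.c 537002185 (.c 16 .nil)))) (.b 8 .nil)) (.X 0 (.c 48 (.c 40 (.c 32 (.c 9024839260612425 .nil)))) .nil)))) (.node (.node (.node (.X 0 (.c 48 (.c 40 (.c 32 (.c 35464401931081 .nil)))) .nil) (.X 0 (.c 43954947 (.c 24 (.c 16 (.c 8 .nil)))) (.l 0 .nil))) (.node (.X 0 (.c 43954755 (.c 32 (.c 24 (.c 16 .nil)))) (.l 0 .nil)) (.X 0 (.c 21099075 (.c 32 (.c 16 (.c 0 .nil)))) (.b 48 .nil)))) (.node (.node (.X 0 (.c 48 (.c 32 (.c 16 (.c 0 .nil)))) (.b 40 (.b 8 (.b 24 .nil)))) (.X 0 (.c 48 (.c 32 (.c 16 (.c 0 .nil)))) (.b 40 (.b 24 (.b 8 .nil))))) (.node (.X 0 (.c 1310925001 (.c 32 (.c 16 (.c 8 .nil)))) (.b 48 .nil)) (.X 0 (.c 43655299 (.c 40 (.c 24 (.c 8 .nil)))) (.l 0 .nil))))))) (.node (.node (.node (.node (.node (.X 0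 (.c 169943369 (.c 32 (.c 16 (.c 8 .nil)))) (.b 48 .nil)) (.X 0 (.c 21099011 (.c 32 (.c 16 (.c 8 .nil)))) (.b 48 .nil))) (.node (.X 0 (.c 48 (.c 40 (.c 2487083360585 (.c 24 .nil)))) .nil) (.X 0 (.c 48 (.c 40 (.c 617620517416009 (.c 16 .nil)))) .nil))) (.node (.node (.X 0 (.c 48 (.c 40 (.c 8786499 (.c 2049 .nil)))) .nil) (.X 0 (.c 48 (.c 40 (.c 9024942441009865 (.c 24 .nil)))) .nil)) (.node (.X 0 (.c 48 (.c 40 (.c 580749782704329 (.c 24 .nil)))) .nil) (.X 0 (.c 48 (.c 40 (.c 35464401931145 (.c 24 .nil)))) .nil)))) (.node (.node (.node (.X 0 (.c 48 (.c 40 (.c 598976858557513 (.c 24 .nil)))) .nil) (.X 0 (.c 48 (.c 40 (.c 8652867 (.c 4609 .nil)))) .nil)) (.node (.X 0 (.c 40 (.c 32 (.c 24 (.c 8 .nil)))) (.b 48 (.l 2049 .nil))) (.X 0 (.c 48 (.c 40 (.c 8193 (.c 2803779 .nil)))) .nil))) (.node (.node (.X 0 (.c 48 (.c 40 (.c 32 (.c 231045467270826697 .nil)))) .nil) (.X 0 (.c 48 (.c 40 (.c 32 (.c 9024908047478473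 .nil)))) .nil)) (.node (.X 0 (.c 48 (.c 40 (.c 32 (.c 62886542409865 .nil)))) .nil) (.X 0 (.c 48 (.c 40 (.c 32 (.c 231045293249046281 .nil)))) .nil))))) (.node (.node (.node (.node (.X 0 (.c 43059267 (.c 12801 (.c 32 (.c 24 .nil)))) .nil) (.X 0 (.c 33587529 (.c 32 (.c 24 (.c 8 .nil)))) (.b 48 .nil))) (.node (.X 0 (.c 20891715 (.c 32 (.c 24 (.c 0 .nil)))) (.b 48 .nil)) (.X 0 (.c 43059267 (.c 40 (.c 32 (.c 24 .nil)))) (.l 0 .nil)))) (.node (.node (.X 0 (.c 43655235 (.c 40 (.c 24 (.c 16 .nil)))) (.l 0 .nil)) (.X 0 (.c 43356803 (.c 40 (.c 32 (.c 8 .nil)))) (.l 0 .nil))) (.node (.X 0 (.c 43059203 (.c 32 (.c 24 (.c 8 .nil)))) (.b 40 .nil)) (.X 0 (.c 43356739 (.c 40 (.c 32 (.c 16 .nil)))) (.l 0 .nil))))) (.node (.node (.node (.X 0 (.c 48 (.c 32 (.c 16 (.c 0 .nil)))) (.b 21099075 .nil)) (.X 0 (.c 40 (.c 32 (.c 24 (.c 8 .nil)))) (.l 33587593 .nil))) (.node (.X 0 (.c 40 (.c 32 (.c 24 (.c 8 .nil))))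 (.l 2718204041 .nil)) (.X 0 (.c 48 (.c 21307587 (.c 16 (.c 8 .nil)))) (.l 0 .nil)))) (.node (.node (.X 0 (.c 43059267 (.c 40 (.c 8193 (.c 24 .nil)))) .nil) (.X 0 (.c 48 (.c 21099139 (.c 32 (.c 8 .nil)))) (.l 0 .nil))) (.node (.X 0 (.c 43954819 (.c 32 (.c 24 (.c 513 .nil)))) .nil) (.X 0 (.c 48 (.c 40 (.c 33587465 (.c 8 .nil)))) (.b 24 .nil))))))))

noncomputable def c5_211 : Tr := (.node (.node (.node (.node (.node (.node (.X 0 (.c 43655299 (.c 40 (.c 4609 (.c 8 .nil)))) .nil) (.X 0 (.c 40 (.c 16 (.c 8 (.c 0 .nil)))) (.b 24 (.b 32 (.b 48 .nil))))) (.node (.X 0 (.c 48 (.c 40 (.c 32 (.c 16 .nil)))) (.b 24 (.l 513 .nil))) (.X 0 (.c 48 (.c 40 (.c 537002057 (.c 16 .nil)))) (.b 24 .nil)))) (.node (.node (.X 0 (.c 48 (.c 12865 (.c 24 (.c 16 .nil)))) (.l 8193 .nil)) (.X 0 (.c 48 (.c 40 (.c 2105609 (.c 16 .nil)))) (.b 24 .nil))) (.node (.X 0 (.c 12801 (.c 32 (.c 24 (.c 8 .nil)))) (.b 16 (.b 48 .nil)))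 (.X 0 (.c 48 (.c 40 (.c 32 (.c 16 .nil)))) (.l 4673 (.l 0 .nil)))))) (.node (.node (.node (.X 0 (.c 48 (.c 40 (.c 4673 (.c 16 .nil)))) (.l 8193 .nil)) (.X 0 (.c 43954819 (.c 8193 (.c 24 (.c 8 .nil)))) .nil)) (.node (.X 0 (.c 40 (.c 16 (.c 8 (.c 0 .nil)))) (.b 32 (.b 48 (.b 24 .nil)))) (.X 0 (.c 48 (.c 40 (.c 24 (.c 2113 .nil)))) (.l 8193 .nil)))) (.node (.node (.X 0 (.c 40 (.c 32 (.c 16 (.c 0 .nil)))) (.b 8 (.b 24 (.b 48 .nil)))) (.X 0 (.c 48 (.c 40 (.c 33587401 (.c 8 .nil)))) (.b 32 .nil))) (.node (.X 0 (.c 48 (.c 40 (.c 2803715 (.c 8 .nil)))) (.b 32 .nil)) (.X 0 (.c 48 (.c 40 (.c 169943113 (.c 16 .nil)))) (.b 32 .nil)))))) (.node (.node (.node (.node (.X 0 (.c 48 (.c 40 (.c 2728451 (.c 16 .nil)))) (.b 32 .nil)) (.X 0 (.c 48 (.c 40 (.c 24 (.c 33587273 .nil)))) (.b 32 .nil))) (.node (.X 0 (.c 48 (.c 40 (.c 24 (.c 2105481 .nil)))) (.b 32 .nil)) (.X 0 (.c 48 (.c 40 (.c 24 (.c 557571 .nil))))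 (.b 32 .nil)))) (.node (.node (.X 0 (.c 15456163896880201 (.c 32 (.c 24 (.c 16 .nil)))) .nil) (.X 0 (.c 3423058053194185 (.c 32 (.c 24 (.c 16 .nil)))) .nil)) (.node (.X 0 (.c 35470870263817 (.c 32 (.c 24 (.c 16 .nil)))) .nil) (.X 0 (.c 13748192181200529417 (.c 32 (.c 24 (.c 16 .nil)))) .nil)))) (.node (.node (.node (.X 0 (.c 43655363 (.c 12801 (.c 16 (.c 8 .nil)))) .nil) (.X 0 (.c 13748198893136698057 (.c 32 (.c 24 (.c 16 .nil)))) .nil)) (.node (.X 0 (.c 18497 (.c 40 (.c 24 (.c 16 .nil)))) (.l 8193 .nil)) (.X 0 (.c 35473026505609 (.c 40 (.c 24 (.c 16 .nil)))) .nil))) (.node (.node (.X 0 (.c 14832759703961993 (.c 32 (.c 24 (.c 8 .nil)))) .nil) (.X 0 (.c 9025011228269513 (.c 32 (.c 24 (.c 8 .nil)))) .nil)) (.node (.X 0 (.c 59109065668069837769 (.c 32 (.c 24 (.c 8 .nil)))) .nil) (.X 0 (.c 15456118887243977 (.c 32 (.c 24 (.c 8 .nil)))) .nil)))))) (.node (.node (.node (.node (.node (.X 0 (.c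 2306969673777850377 (.c 40 (.c 24 (.c 16 .nil)))) .nil) (.X 0 (.c 48 (.c 40 (.c 4609 (.c 16 .nil)))) (.b 32 (.b 8 .nil)))) (.node (.X 0 (.c 580749782704585 (.c 40 (.c 24 (.c 16 .nil)))) .nil) (.X 0 (.c 40 (.c 24 (.c 8 (.c 0 .nil)))) (.b 16 (.b 48 (.b 32 .nil)))))) (.node (.node (.X 0 (.c 48 (.c 32 (.c 24 (.c 16 .nil)))) (.l 8 (.l 12801 .nil))) (.X 0 (.c 12801 (.c 32 (.c 24 (.c 16 .nil)))) (.b 8 (.b 48 .nil)))) (.node (.X 0 (.c 48 (.c 40 (.c 24 (.c 2049 .nil)))) (.b 8 (.b 32 .nil))) (.X 0 (.c 48 (.c 40 (.c 24 (.c 16 .nil)))) (.l 537002057 .nil))))) (.node (.node (.node (.X 0 (.c 48 (.c 40 (.c 24 (.c 16 .nil)))) (.l 8520195 .nil)) (.X 0 (.c 40 (.c 24 (.c 8 (.c 0 .nil)))) (.b 32 (.b 16 (.b 48 .nil))))) (.node (.X 0 (.c 48 (.c 40 (.c 32 (.c 2049 .nil)))) (.b 24 (.b 8 .nil))) (.X 0 (.c 40 (.c 24 (.c 8 (.c 0 .nil)))) (.b 32 (.b 48 (.b 16 .nil)))))) (.node (.node (.X 0 (.c 48 (.c 32 (.c 24 (.c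 557571 .nil)))) (.b 40 .nil)) (.X 0 (.c 43059203 (.c 40 (.c 32 (.c 8 .nil)))) (.b 24 .nil))) (.node (.X 0 (.c 48 (.c 40 (.c 32 (.c 16 .nil)))) (.l 169943113 .nil)) (.X 0 (.c 33587593 (.c 40 (.c 32 (.c 8 .nil)))) (.b 24 .nil)))))) (.node (.node (.node (.node (.X 0 (.c 18433 (.c 40 (.c 24 (.c 16 .nil)))) (.b 32 (.b 8 .nil))) (.X 0 (.c 32 (.c 24 (.c 8 (.c 0 .nil)))) (.b 43954819 .nil))) (.node (.X 0 (.c 48 (.c 12801 (.c 24 (.c 16 .nil)))) (.b 32 (.b 8 .nil))) (.X 0 (.c 40 (.c 16 (.c 8 (.c 0 .nil)))) (.b 43655363 .nil)))) (.node (.node (.X 0 (.c 48 (.c 32 (.c 4609 (.c 16 .nil)))) (.b 40 (.b 8 .nil))) (.X 0 (.c 15246191640313993 (.c 40 (.c 24 (.c 16 .nil)))) .nil)) (.node (.X 0 (.c 2306970223667989513 (.c 40 (.c 24 (.c 8 .nil)))) .nil) (.X 0 (.c 48 (.c 8193 (.c 24 (.c 16 .nil)))) (.b 40 (.b 8 .nil)))))) (.node (.node (.node (.X 0 (.c 48 (.c 40 (.c 32 (.c 0 .nil)))) (.b 2803779 .nil)) (.X 0 (.c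 40 (.c 32 (.c 8 (.c 0 .nil)))) (.b 48 (.b 24 (.b 16 .nil))))) (.node (.X 0 (.c 48 (.c 8193 (.c 24 (.c 16 .nil)))) (.b 8 (.b 40 .nil))) (.X 0 (.c 18433 (.c 32 (.c 24 (.c 8 .nil)))) (.b 40 (.b 16 .nil))))) (.node (.node (.X 0 (.c 32 (.c 24 (.c 2049 (.c 8 .nil)))) (.b 48 (.b 40 .nil))) (.X 0 (.c 18433 (.c 40 (.c 32 (.c 8 .nil)))) (.b 16 (.b 24 .nil)))) (.node (.X 0 (.c 40 (.c 32 (.c 8 (.c 0 .nil)))) (.b 48 (.b 16 (.b 24 .nil)))) (.X 0 (.c 48 (.c 40 (.c 32 (.c 0 .nil)))) (.b 8 (.b 24 (.b 16 .nil))))))))))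

noncomputable def c5_212 : Tr := (.node (.node (.node (.node (.node (.node (.X 0 (.c 48 (.c 40 (.c 32 (.c 0 .nil)))) (.b 8 (.b 16 (.b 24 .nil)))) (.X 0 (.c 2718204233 (.c 24 (.c 16 (.c 8 .nil)))) (.b 32 .nil))) (.node (.X 0 (.c 1310925193 (.c 24 (.c 16 (.c 8 .nil)))) (.b 32 .nil)) (.X 0 (.c 43954691 (.c 24 (.c 16 (.c 8 .nil)))) (.b 32 .nil)))) (.node (.node (.X 0 (.c 32 (.c 4609 (.c 16 (.c 8 .nil)))) (.b 40 (.b 48 .nil))) (.X 0 (.c 48 (.c 12801 (.c 32 (.c 8 .nil)))) (.b 16 (.b 24 .nil)))) (.node (.X 0 (.c 32 (.c 24 (.c 16 (.c 8 .nil)))) (.l 2718204233 .nil)) (.X 0 (.c 48 (.c 40 (.c 32 (.c 8 .nil)))) (.l 169943177 .nil))))) (.node (.node (.node (.X 0 (.c 18433 (.c 32 (.c 24 (.c 16 .nil)))) (.b 8 (.b 40 .nil))) (.X 0 (.c 48 (.c 40 (.c 32 (.c 8 .nil)))) (.b 24 (.l 2049 .nil)))) (.node (.X 0 (.c 48 (.c 40 (.c 8193 (.c 8 .nil)))) (.b 24 (.b 16 .nil))) (.X 0 (.c 32 (.c 24 (.c 16 (.c 8 .nil))))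 (.b 48 (.l 12801 .nil))))) (.node (.node (.X 0 (.c 59109071234951844617 (.c 40 (.c 24 (.c 8 .nil)))) .nil) (.X 0 (.c 59109065668069837705 (.c 40 (.c 24 (.c 8 .nil)))) .nil)) (.node (.X 0 (.c 48 (.c 40 (.c 32 (.c 8 .nil)))) (.b 16 (.l 4609 .nil))) (.X 0 (.c 32 (.c 24 (.c 8 (.c 0 .nil)))) (.b 40 (.b 16 (.b 48 .nil)))))))) (.node (.node (.node (.node (.X 0 (.c 40 (.c 32 (.c 16 (.c 0 .nil)))) (.b 43356739 .nil)) (.X 0 (.c 8193 (.c 24 (.c 16 (.c 8 .nil)))) (.b 48 (.b 40 .nil)))) (.node (.X 0 (.c 2105737 (.c 40 (.c 32 (.c 16 .nil)))) (.b 24 .nil)) (.X 0 (.c 40 (.c 32 (.c 8 (.c 0 .nil)))) (.b 24 (.b 48 (.b 16 .nil)))))) (.node (.node (.X 0 (.c 48 (.c 21099011 (.c 16 (.c 8 .nil)))) (.b 32 .nil)) (.X 0 (.c 43954755 (.c 32 (.c 4609 (.c 16 .nil)))) .nil)) (.node (.X 0 (.c 43356803 (.c 40 (.c 8 (.c 0 .nil)))) (.b 32 .nil)) (.X 0 (.c 18433 (.c 32 (.c 24 (.c 8 .nil)))) (.b 16 (.b 40 .nil)))))) (.node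 (.node (.node (.X 0 (.c 43356739 (.c 40 (.c 16 (.c 0 .nil)))) (.b 32 .nil)) (.X 0 (.c 2718204105 (.c 40 (.c 16 (.c 8 .nil)))) (.b 32 .nil))) (.node (.X 0 (.c 169943433 (.c 40 (.c 16 (.c 8 .nil)))) (.b 32 .nil)) (.X 0 (.c 48 (.c 21307395 (.c 16 (.c 8 .nil)))) (.b 24 .nil)))) (.node (.node (.X 0 (.c 33587593 (.c 40 (.c 24 (.c 8 .nil)))) (.b 32 .nil)) (.X 0 (.c 32 (.c 24 (.c 16 (.c 0 .nil)))) (.b 48 (.b 40 (.b 8 .nil))))) (.node (.X 0 (.c 43954947 (.c 4609 (.c 16 (.c 8 .nil)))) .nil) (.X 0 (.c 43655235 (.c 40 (.c 24 (.c 2049 .nil)))) .nil)))))) (.node (.node (.node (.node (.node (.X 0 (.c 40 (.c 32 (.c 24 (.c 16 .nil)))) (.l 2718203977 .nil)) (.X 0 (.c 40 (.c 32 (.c 24 (.c 16 .nil)))) (.l 2105737 .nil))) (.node (.X 0 (.c 40 (.c 24 (.c 16 (.c 8 .nil)))) (.b 48 (.l 8193 .nil))) (.X 0 (.c 48 (.c 32 (.c 24 (.c 16 .nil)))) (.l 1310924873 .nil)))) (.node (.node (.X 0 (.c 32 (.c 16 (.c 8 (.c 0 .nil))))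 (.b 24 (.b 48 (.b 40 .nil)))) (.X 0 (.c 40 (.c 32 (.c 24 (.c 16 .nil)))) (.l 42762755 .nil))) (.node (.X 0 (.c 18433 (.c 40 (.c 32 (.c 16 .nil)))) (.b 8 (.b 24 .nil))) (.X 0 (.c 40 (.c 24 (.c 16 (.c 8 .nil)))) (.l 43655171 .nil))))) (.node (.node (.node (.X 0 (.c 43954947 (.c 16 (.c 8 (.c 0 .nil)))) (.b 24 .nil)) (.X 0 (.c 48 (.c 40 (.c 16 (.c 0 .nil)))) (.b 8786499 .nil))) (.node (.X 0 (.c 48 (.c 40 (.c 16 (.c 0 .nil)))) (.b 32 (.b 24 (.b 8 .nil)))) (.X 0 (.c 48 (.c 40 (.c 16 (.c 0 .nil)))) (.b 32 (.b 8 (.b 24 .nil)))))) (.node (.node (.X 0 (.c 48 (.c 32 (.c 24 (.c 16 .nil)))) (.l 2105673 .nil)) (.X 0 (.c 43655235 (.c 40 (.c 4609 (.c 16 .nil)))) .nil)) (.node (.X 0 (.c 48 (.c 40 (.c 2049 (.c 8 .nil)))) (.b 24 (.b 32 .nil))) (.X 0 (.c 40 (.c 32 (.c 24 (.c 16 .nil)))) (.b 48 (.l 513 .nil))))))) (.node (.node (.node (.node (.X 0 (.c 48 (.c 12865 (.c 32 (.c 16 .nil)))) (.l 4609 .nil)) (.X 0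 (.c 48 (.c 40 (.c 16 (.c 8 .nil)))) (.l 169943305 .nil))) (.node (.X 0 (.c 40 (.c 32 (.c 16 (.c 0 .nil)))) (.b 48 (.b 8 (.b 24 .nil)))) (.X 0 (.c 43954755 (.c 32 (.c 16 (.c 0 .nil)))) (.b 24 .nil)))) (.node (.node (.X 0 (.c 48 (.c 40 (.c 16 (.c 8 .nil)))) (.b 32 (.l 4609 .nil))) (.X 0 (.c 48 (.c 40 (.c 8 (.c 0 .nil)))) (.b 16 (.b 32 (.b 24 .nil))))) (.node (.X 0 (.c 43655363 (.c 16 (.c 8 (.c 0 .nil)))) (.b 40 .nil)) (.X 0 (.c 43655235 (.c 24 (.c 16 (.c 0 .nil)))) (.b 40 .nil))))) (.node (.node (.node (.X 0 (.c 48 (.c 40 (.c 32 (.c 24 .nil)))) (.l 16 (.l 513 .nil))) (.X 0 (.c 40 (.c 4609 (.c 16 (.c 8 .nil)))) (.b 32 (.b 48 .nil)))) (.node (.X 0 (.c 40 (.c 4609 (.c 16 (.c 8 .nil)))) (.b 48 (.b 32 .nil))) (.X 0 (.c 169943433 (.c 32 (.c 16 (.c 8 .nil)))) (.b 40 .nil)))) (.node (.node (.X 0 (.c 32 (.c 24 (.c 16 (.c 0 .nil)))) (.b 40 (.b 48 (.b 8 .nil)))) (.X 0 (.c 48 (.c 40 (.c 32 (.c 24 .nil))))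 (.l 2113 (.l 0 .nil)))) (.node (.X 0 (.c 40 (.c 32 (.c 24 (.c 16 .nil)))) (.l 8 (.l 18433 .nil))) (.X 0 (.c 48 (.c 40 (.c 32 (.c 24 .nil)))) (.l 557571 .nil))))))))

noncomputable def c5_213 : Tr := (.node (.node (.node (.node (.node (.node (.X 0 (.c 24 (.c 16 (.c 8 (.c 0 .nil)))) (.b 43954947 .nil)) (.X 0 (.c 40 (.c 24 (.c 16 (.c 513 .nil)))) (.b 48 (.b 32 .nil)))) (.node (.X 0 (.c 15456298926182473 (.c 24 (.c 16 (.c 8 .nil)))) .nil) (.X 0 (.c 15246191640314249 (.c 24 (.c 16 (.c 8 .nil)))) .nil))) (.node (.node (.X 0 (.c 48 (.c 40 (.c 8 (.c 0 .nil)))) (.b 8786563 .nil)) (.X 0 (.c 2718204169 (.c 40 (.c 16 (.c 8 .nil)))) (.b 24 .nil))) (.node (.X 0 (.c 48 (.c 40 (.c 24 (.c 8 .nil)))) (.l 537002121 .nil)) (.X 0 (.c 48 (.c 40 (.c 24 (.c 8 .nil)))) (.l 33587465 .nil))))) (.node (.node (.node (.X 0 (.c 48 (.c 40 (.c 24 (.c 8 .nil)))) (.l 8652803 .nil)) (.X 0 (.c 43655235 (.c 40 (.c 16 (.c 0 .nil))))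 (.b 24 .nil))) (.node (.X 0 (.c 15038410136445257 (.c 40 (.c 16 (.c 8 .nil)))) .nil) (.X 0 (.c 231046163358604169 (.c 40 (.c 16 (.c 8 .nil)))) .nil))) (.node (.node (.X 0 (.c 15456253916349513 (.c 32 (.c 16 (.c 8 .nil)))) .nil) (.X 0 (.c 43655299 (.c 40 (.c 8 (.c 0 .nil)))) (.b 24 .nil))) (.node (.X 0 (.c 48 (.c 40 (.c 24 (.c 16 .nil)))) (.l 8 (.l 8193 .nil))) (.X 0 (.c 40 (.c 24 (.c 8 (.c 0 .nil)))) (.b 48 (.b 16 (.b 32 .nil)))))))) (.node (.node (.node (.node (.X 0 (.c 43954883 (.c 32 (.c 2049 (.c 8 .nil)))) .nil) (.X 0 (.c 617611520074185 (.c 40 (.c 16 (.c 8 .nil)))) .nil)) (.node (.X 0 (.c 48 (.c 40 (.c 24 (.c 0 .nil)))) (.b 16 (.b 32 (.b 8 .nil)))) (.X 0 (.c 40 (.c 24 (.c 16 (.c 0 .nil)))) (.b 43655235 .nil)))) (.node (.node (.X 2 (.c 48 (.c 8 (.c 32 (.c 24 (.c 16 .nil))))) (.l 12801 .nil)) (.X 2 (.c 48 (.c 16 (.c 32 (.c 8 (.c 24 .nil))))) (.l 12801 .nil))) (.node (.X 2 (.c 40 (.c 16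 (.c 32 (.c 8 (.c 48 .nil))))) (.l 4609 .nil)) (.X 2 (.c 40 (.c 8 (.c 32 (.c 16 (.c 48 .nil))))) (.l 4609 .nil))))) (.node (.node (.node (.X 2 (.c 48 (.c 16 (.c 24 (.c 8 (.c 32 .nil))))) (.l 12801 .nil)) (.X 2 (.c 40 (.c 24 (.c 16 (.c 8 (.c 48 .nil))))) (.l 8193 .nil))) (.node (.X 2 (.c 48 (.c 24 (.c 16 (.c 8 (.c 40 .nil))))) (.l 8193 .nil)) (.X 2 (.c 40 (.c 32 (.c 16 (.c 8 (.c 24 .nil))))) (.l 18433 .nil)))) (.node (.node (.X 2 (.c 40 (.c 24 (.c 16 (.c 8 (.c 32 .nil))))) (.l 18433 .nil)) (.X 2 (.c 40 (.c 8786563 (.c 8 (.c 0 (.c 48 .nil))))) .nil)) (.node (.X 2 (.c 40 (.c 8786435 (.c 16 (.c 8 (.c 48 .nil))))) .nil) (.X 2 (.c 48 (.c 557571 (.c 40 (.c 32 (.c 24 .nil))))) .nil)))))) (.node (.node (.node (.node (.node (.X 2 (.c 43356675 (.c 40 (.c 32 (.c 16 (.c 8 .nil))))) .nil) (.X 2 (.c 43954691 (.c 32 (.c 16 (.c 8 (.c 24 .nil))))) .nil)) (.node (.X 2 (.c 48 (.c 557571 (.c 40 (.c 24 (.c 32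 .nil))))) .nil) (.X 2 (.c 20685315 (.c 16 (.c 32 (.c 24 (.c 48 .nil))))) .nil))) (.node (.node (.X 2 (.c 43954691 (.c 24 (.c 32 (.c 16 (.c 8 .nil))))) .nil) (.X 2 (.c 43954691 (.c 24 (.c 32 (.c 8 (.c 16 .nil))))) .nil)) (.node (.X 2 (.c 43356739 (.c 0 (.c 40 (.c 16 (.c 32 .nil))))) .nil) (.X 2 (.c 43954755 (.c 0 (.c 24 (.c 16 (.c 32 .nil))))) .nil)))) (.node (.node (.node (.X 2 (.c 40 (.c 8652803 (.c 24 (.c 8 (.c 48 .nil))))) .nil) (.X 2 (.c 48 (.c 24 (.c 8520195 (.c 16 (.c 40 .nil))))) .nil)) (.node (.X 2 (.c 48 (.c 16 (.c 21307395 (.c 24 (.c 8 .nil))))) .nil) (.X 2 (.c 48 (.c 24 (.c 32 (.c 557571 (.c 40 .nil))))) .nil))) (.node (.node (.X 2 (.c 48 (.c 24 (.c 32 (.c 0 (.c 20891715 .nil))))) .nil) (.X 2 (.c 48 (.c 24 (.c 16 (.c 0 (.c 21307459 .nil))))) .nil)) (.node (.X 2 (.c 48 (.c 24 (.c 8 (.c 0 (.c 21307523 .nil))))) .nil) (.X 2 (.c 48 (.c 16 (.c 40 (.c 8520195 (.c 24 .nil))))) .nil)))))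 (.node (.node (.node (.node (.X 2 (.c 48 (.c 16 (.c 20685315 (.c 24 (.c 32 .nil))))) .nil) (.X 2 (.c 43356739 (.c 32 (.c 40 (.c 0 (.c 16 .nil))))) .nil)) (.node (.X 2 (.c 43356739 (.c 40 (.c 16 (.c 0 (.c 32 .nil))))) .nil) (.X 2 (.c 20685315 (.c 24 (.c 32 (.c 16 (.c 48 .nil))))) .nil))) (.node (.node (.X 2 (.c 48 (.c 16 (.c 21307395 (.c 8 (.c 24 .nil))))) .nil) (.X 2 (.c 48 (.c 16 (.c 21099075 (.c 0 (.c 32 .nil))))) .nil)) (.node (.X 2 (.c 48 (.c 16 (.c 21099011 (.c 32 (.c 8 .nil))))) .nil) (.X 2 (.c 48 (.c 16 (.c 21099011 (.c 8 (.c 32 .nil))))) .nil)))) (.node (.node (.node (.X 2 (.c 48 (.c 2803715 (.c 40 (.c 8 (.c 32 .nil))))) .nil) (.X 2 (.c 43356675 (.c 8 (.c 32 (.c 16 (.c 40 .nil))))) .nil)) (.node (.X 2 (.c 43954755 (.c 32 (.c 24 (.c 0 (.c 16 .nil))))) .nil) (.X 2 (.c 48 (.c 2728451 (.c 40 (.c 32 (.c 16 .nil))))) .nil))) (.node (.node (.X 2 (.c 43954755 (.c 32 (.c 16 (.c 0 (.c 24 .nil)))))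 .nil) (.X 2 (.c 40 (.c 2803715 (.c 32 (.c 8 (.c 48 .nil))))) .nil)) (.node (.X 2 (.c 48 (.c 32 (.c 24 (.c 0 (.c 20891715 .nil))))) .nil) (.X 2 (.c 48 (.c 32 (.c 8 (.c 0 (.c 21099139 .nil))))) .nil)))))))

noncomputable def c5_214 : Tr := (.node (.node (.node (.node (.node (.node (.X 2 (.c 48 (.c 2803779 (.c 40 (.c 0 (.c 32 .nil))))) .nil) (.X 2 (.c 40 (.c 2803779 (.c 32 (.c 0 (.c 48 .nil))))) .nil)) (.node (.X 2 (.c 40 (.c 32 (.c 24 (.c 557571 (.c 48 .nil))))) .nil) (.X 2 (.c 40 (.c 32 (.c 2728451 (.c 16 (.c 48 .nil))))) .nil))) (.node (.node (.X 2 (.c 40 (.c 32 (.c 2803715 (.c 8 (.c 48 .nil))))) .nil) (.X 2 (.c 40 (.c 32 (.c 2803779 (.c 0 (.c 48 .nil))))) .nil)) (.node (.X 2 (.c 48 (.c 24 (.c 20685315 (.c 16 (.c 32 .nil))))) .nil) (.X 2 (.c 40 (.c 8520195 (.c 24 (.c 16 (.c 48 .nil))))) .nil)))) (.node (.node (.node (.X 2 (.c 48 (.c 24 (.c 40 (.c 8652803 (.c 8 .nil))))) .nil) (.X 2 (.c 48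 (.c 24 (.c 40 (.c 0 (.c 8652867 .nil))))) .nil)) (.node (.X 2 (.c 48 (.c 24 (.c 21307395 (.c 16 (.c 8 .nil))))) .nil) (.X 2 (.c 48 (.c 24 (.c 21307395 (.c 8 (.c 16 .nil))))) .nil))) (.node (.node (.X 2 (.c 48 (.c 24 (.c 20891651 (.c 32 (.c 8 .nil))))) .nil) (.X 2 (.c 48 (.c 24 (.c 20891651 (.c 8 (.c 32 .nil))))) .nil)) (.node (.X 2 (.c 43655171 (.c 40 (.c 16 (.c 8 (.c 24 .nil))))) .nil) (.X 2 (.c 43655299 (.c 0 (.c 24 (.c 8 (.c 40 .nil))))) .nil))))) (.node (.node (.node (.node (.X 2 (.c 21099075 (.c 32 (.c 16 (.c 0 (.c 48 .nil))))) .nil) (.X 2 (.c 43655171 (.c 16 (.c 40 (.c 24 (.c 8 .nil))))) .nil)) (.node (.X 2 (.c 43655171 (.c 24 (.c 16 (.c 8 (.c 40 .nil))))) .nil) (.X 2 (.c 48 (.c 0 (.c 24 (.c 8 (.c 21307523 .nil))))) .nil))) (.node (.node (.X 2 (.c 43655171 (.c 24 (.c 40 (.c 8 (.c 16 .nil))))) .nil) (.X 2 (.c 48 (.c 0 (.c 40 (.c 8786499 (.c 16 .nil))))) .nil)) (.node (.X 2 (.c 48 (.c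 0 (.c 21099075 (.c 32 (.c 16 .nil))))) .nil) (.X 2 (.c 48 (.c 0 (.c 8786499 (.c 16 (.c 40 .nil))))) .nil)))) (.node (.node (.node (.X 2 (.c 48 (.c 0 (.c 8786563 (.c 8 (.c 40 .nil))))) .nil) (.X 2 (.c 43655299 (.c 40 (.c 24 (.c 0 (.c 8 .nil))))) .nil)) (.node (.X 2 (.c 48 (.c 16 (.c 40 (.c 0 (.c 8786499 .nil))))) .nil) (.X 2 (.c 43655299 (.c 40 (.c 8 (.c 0 (.c 24 .nil))))) .nil))) (.node (.node (.X 2 (.c 48 (.c 16 (.c 8786435 (.c 8 (.c 40 .nil))))) .nil) (.X 2 (.c 48 (.c 8 (.c 8786563 (.c 0 (.c 40 .nil))))) .nil)) (.node (.X 2 (.c 48 (.c 8 (.c 8786435 (.c 16 (.c 40 .nil))))) .nil) (.X 2 (.c 48 (.c 8 (.c 8652803 (.c 24 (.c 40 .nil))))) .nil)))))) (.node (.node (.node (.node (.node (.X 2 (.c 43655171 (.c 16 (.c 24 (.c 8 (.c 40 .nil))))) .nil) (.X 2 (.c 48 (.c 8 (.c 32 (.c 16 (.c 40 .nil))))) (.l 4609 .nil))) (.node (.X 2 (.c 42762755 (.c 24 (.c 32 (.c 16 (.c 40 .nil))))) .nil) (.X 2 (.c 42762755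 (.c 16 (.c 32 (.c 24 (.c 40 .nil))))) .nil))) (.node (.node (.X 2 (.c 24 (.c 8 (.c 16 (.c 0 (.c 43954947 .nil))))) .nil) (.X 2 (.c 42762755 (.c 16 (.c 40 (.c 24 (.c 32 .nil))))) .nil)) (.node (.X 2 (.c 42762755 (.c 32 (.c 40 (.c 16 (.c 24 .nil))))) .nil) (.X 2 (.c 32 (.c 24 (.c 8 (.c 0 (.c 43954819 .nil))))) .nil)))) (.node (.node (.node (.X 2 (.c 48 (.c 40 (.c 32 (.c 557571 (.c 24 .nil))))) .nil) (.X 2 (.c 32 (.c 0 (.c 16 (.c 8 (.c 43954883 .nil))))) .nil)) (.node (.X 2 (.c 32 (.c 0 (.c 24 (.c 8 (.c 43954819 .nil))))) .nil) (.X 2 (.c 32 (.c 8 (.c 16 (.c 0 (.c 43954883 .nil))))) .nil))) (.node (.node (.X 2 (.c 48 (.c 16 (.c 32 (.c 8 (.c 40 .nil))))) (.l 4609 .nil)) (.X 2 (.c 43059203 (.c 24 (.c 40 (.c 8 (.c 32 .nil))))) .nil)) (.node (.X 2 (.c 43059203 (.c 24 (.c 32 (.c 8 (.c 40 .nil))))) .nil) (.X 2 (.c 43059203 (.c 8 (.c 40 (.c 32 (.c 24 .nil))))) .nil))))) (.node (.node (.node (.node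 (.X 1 (.c 48 (.c 8193 (.c 40 (.c 16 (.c 8 .nil))))) (.b 24 .nil)) (.X 1 (.c 12801 (.c 16 (.c 32 (.c 8 (.c 24 .nil))))) (.b 48 .nil))) (.node (.X 1 (.c 12801 (.c 16 (.c 24 (.c 8 (.c 32 .nil))))) (.b 48 .nil)) (.X 1 (.c 32 (.c 8 (.c 24 (.c 2049 (.c 48 .nil))))) (.b 40 .nil)))) (.node (.node (.X 1 (.c 12801 (.c 16 (.c 24 (.c 8 (.c 48 .nil))))) (.b 32 .nil)) (.X 1 (.c 32 (.c 8 (.c 4609 (.c 16 (.c 48 .nil))))) (.b 40 .nil))) (.node (.X 1 (.c 32 (.c 513 (.c 24 (.c 16 (.c 48 .nil))))) (.b 40 .nil)) (.X 1 (.c 32 (.c 24 (.c 16 (.c 513 (.c 48 .nil))))) (.b 40 .nil))))) (.node (.node (.node (.X 1 (.c 48 (.c 16 (.c 24 (.c 513 (.c 32 .nil))))) (.b 40 .nil)) (.X 3 (.c 40 (.c 16 (.c 48 (.c 32 (.c 24 .nil))))) (.l 513 .nil))) (.node (.X 1 (.c 48 (.c 8 (.c 24 (.c 2049 (.c 40 .nil))))) (.b 32 .nil)) (.X 1 (.c 32 (.c 2049 (.c 24 (.c 8 (.c 48 .nil))))) (.b 40 .nil)))) (.node (.node (.X 3 (.c 48 (.c 0 (.c 40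 (.c 32 (.c 8 .nil))))) (.b 16 (.b 24 .nil))) (.X 1 (.c 48 (.c 16 (.c 32 (.c 513 (.c 24 .nil))))) (.b 40 .nil))) (.node (.X 3 (.c 16 (.c 0 (.c 48 (.c 40 (.c 32 .nil))))) (.b 24 (.b 8 .nil))) (.X 1 (.c 12801 (.c 8 (.c 32 (.c 24 (.c 48 .nil))))) (.b 16 .nil))))))))

noncomputable def c5_215 : Tr := (.node (.node (.node (.node (.node (.node (.X 1 (.c 12801 (.c 8 (.c 24 (.c 16 (.c 48 .nil))))) (.b 32 .nil)) (.X 1 (.c 40 (.c 2049 (.c 32 (.c 8 (.c 48 .nil))))) (.b 24 .nil))) (.node (.X 3 (.c 40 (.c 0 (.c 48 (.c 32 (.c 8 .nil))))) (.b 24 (.b 16 .nil))) (.X 1 (.c 48 (.c 12801 (.c 32 (.c 16 (.c 8 .nil))))) (.b 24 .nil)))) (.node (.node (.X 1 (.c 40 (.c 8 (.c 24 (.c 2049 (.c 48 .nil))))) (.b 32 .nil)) (.X 3 (.c 40 (.c 8 (.c 48 (.c 32 (.c 24 .nil))))) (.l 2049 .nil))) (.node (.X 1 (.c 48 (.c 8 (.c 32 (.c 2049 (.c 24 .nil))))) (.b 40 .nil)) (.X 1 (.c 40 (.c 2049 (.c 24 (.c 8 (.c 48 .nil))))) (.b 32 .nil)))))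 (.node (.node (.node (.X 1 (.c 8193 (.c 24 (.c 16 (.c 8 (.c 48 .nil))))) (.b 40 .nil)) (.X 1 (.c 40 (.c 8 (.c 4609 (.c 16 (.c 48 .nil))))) (.b 32 .nil))) (.node (.X 3 (.c 48 (.c 0 (.c 40 (.c 32 (.c 24 .nil))))) (.b 16 (.b 8 .nil))) (.X 3 (.c 40 (.c 0 (.c 48 (.c 32 (.c 24 .nil))))) (.b 16 (.b 8 .nil))))) (.node (.node (.X 1 (.c 48 (.c 40 (.c 32 (.c 513 (.c 16 .nil))))) (.b 24 .nil)) (.X 3 (.c 40 (.c 0 (.c 48 (.c 32 (.c 24 .nil))))) (.b 8 (.b 16 .nil)))) (.node (.X 3 (.c 32 (.c 0 (.c 48 (.c 40 (.c 24 .nil))))) (.b 8 (.b 16 .nil))) (.X 3 (.c 16 (.c 8 (.c 48 (.c 40 (.c 32 .nil))))) (.l 4609 .nil)))))) (.node (.node (.node (.node (.X 1 (.c 40 (.c 32 (.c 24 (.c 513 (.c 48 .nil))))) (.b 16 .nil)) (.X 1 (.c 40 (.c 4609 (.c 32 (.c 8 (.c 48 .nil))))) (.b 16 .nil))) (.node (.X 3 (.c 32 (.c 0 (.c 48 (.c 40 (.c 16 .nil))))) (.b 24 (.b 8 .nil))) (.X 3 (.c 32 (.c 0 (.c 48 (.c 40 (.c 16 .nil))))) (.b 8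 (.b 24 .nil))))) (.node (.node (.X 1 (.c 18433 (.c 40 (.c 32 (.c 24 (.c 8 .nil))))) (.b 16 .nil)) (.X 3 (.c 24 (.c 16 (.c 48 (.c 40 (.c 32 .nil))))) (.l 513 .nil))) (.node (.X 3 (.c 32 (.c 16 (.c 48 (.c 40 (.c 24 .nil))))) (.l 513 .nil)) (.X 1 (.c 40 (.c 24 (.c 32 (.c 513 (.c 48 .nil))))) (.b 16 .nil))))) (.node (.node (.node (.X 1 (.c 8193 (.c 16 (.c 24 (.c 8 (.c 48 .nil))))) (.b 40 .nil)) (.X 3 (.c 48 (.c 8 (.c 40 (.c 32 (.c 16 .nil))))) (.l 4609 .nil))) (.node (.X 1 (.c 48 (.c 40 (.c 8193 (.c 16 (.c 8 .nil))))) (.b 24 .nil)) (.X 3 (.c 48 (.c 0 (.c 40 (.c 32 (.c 16 .nil))))) (.b 24 (.b 8 .nil))))) (.node (.node (.X 1 (.c 48 (.c 24 (.c 8193 (.c 8 (.c 40 .nil))))) (.b 16 .nil)) (.X 3 (.c 43954755 (.c 0 (.c 32 (.c 24 (.c 16 .nil))))) .nil)) (.node (.X 1 (.c 48 (.c 24 (.c 40 (.c 513 (.c 32 .nil))))) (.b 16 .nil)) (.X 3 (.c 43954691 (.c 32 (.c 24 (.c 16 (.c 8 .nil))))) .nil)))))) (.node (.node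 (.node (.node (.node (.X 3 (.c 43954691 (.c 16 (.c 32 (.c 24 (.c 8 .nil))))) .nil) (.X 3 (.c 43954691 (.c 8 (.c 32 (.c 24 (.c 16 .nil))))) .nil)) (.node (.X 3 (.c 43655171 (.c 40 (.c 24 (.c 16 (.c 8 .nil))))) .nil) (.X 1 (.c 40 (.c 8193 (.c 24 (.c 16 (.c 48 .nil))))) (.b 8 .nil)))) (.node (.node (.X 1 (.c 48 (.c 24 (.c 12801 (.c 8 (.c 32 .nil))))) (.b 16 .nil)) (.X 1 (.c 18433 (.c 32 (.c 24 (.c 8 (.c 16 .nil))))) (.b 40 .nil))) (.node (.X 1 (.c 18433 (.c 16 (.c 40 (.c 32 (.c 8 .nil))))) (.b 24 .nil)) (.X 3 (.c 42762755 (.c 40 (.c 32 (.c 24 (.c 16 .nil))))) .nil)))) (.node (.node (.node (.X 1 (.c 40 (.c 32 (.c 24 (.c 2049 (.c 48 .nil))))) (.b 8 .nil)) (.X 3 (.c 42762755 (.c 24 (.c 40 (.c 32 (.c 16 .nil))))) .nil)) (.node (.X 3 (.c 42762755 (.c 16 (.c 40 (.c 32 (.c 24 .nil))))) .nil) (.X 3 (.c 48 (.c 21307395 (.c 24 (.c 16 (.c 8 .nil))))) .nil))) (.node (.node (.X 3 (.c 48 (.c 21099011 (.c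 32 (.c 16 (.c 8 .nil))))) .nil) (.X 3 (.c 48 (.c 20891651 (.c 32 (.c 24 (.c 8 .nil))))) .nil)) (.node (.X 1 (.c 48 (.c 513 (.c 40 (.c 24 (.c 32 .nil))))) (.b 16 .nil)) (.X 3 (.c 48 (.c 20685315 (.c 32 (.c 24 (.c 16 .nil))))) .nil))))) (.node (.node (.node (.node (.X 3 (.c 48 (.c 8786435 (.c 40 (.c 16 (.c 8 .nil))))) .nil) (.X 3 (.c 48 (.c 8652803 (.c 40 (.c 24 (.c 8 .nil))))) .nil)) (.node (.X 3 (.c 48 (.c 8520195 (.c 40 (.c 24 (.c 16 .nil))))) .nil) (.X 3 (.c 48 (.c 2803715 (.c 40 (.c 32 (.c 8 .nil))))) .nil))) (.node (.node (.X 3 (.c 43356675 (.c 40 (.c 32 (.c 16 (.c 8 .nil))))) .nil) (.X 3 (.c 43356675 (.c 32 (.c 40 (.c 16 (.c 8 .nil))))) .nil)) (.node (.X 3 (.c 43356675 (.c 8 (.c 40 (.c 32 (.c 16 .nil))))) .nil) (.X 3 (.c 43059267 (.c 0 (.c 40 (.c 32 (.c 24 .nil))))) .nil)))) (.node (.node (.node (.X 1 (.c 18433 (.c 16 (.c 40 (.c 8 (.c 32 .nil))))) (.b 24 .nil)) (.X 3 (.c 43059203 (.c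 32 (.c 40 (.c 24 (.c 8 .nil))))) .nil)) (.node (.X 3 (.c 43059203 (.c 24 (.c 40 (.c 32 (.c 8 .nil))))) .nil) (.X 3 (.c 43059203 (.c 8 (.c 40 (.c 32 (.c 24 .nil))))) .nil))) (.node (.node (.X 1 (.c 48 (.c 32 (.c 40 (.c 2049 (.c 24 .nil))))) (.b 8 .nil)) (.X 1 (.c 48 (.c 32 (.c 40 (.c 4609 (.c 16 .nil))))) (.b 8 .nil))) (.node (.X 1 (.c 48 (.c 32 (.c 12801 (.c 16 (.c 24 .nil))))) (.b 8 .nil)) (.X 1 (.c 48 (.c 40 (.c 8193 (.c 24 (.c 8 .nil))))) (.b 16 .nil))))))))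

noncomputable def c5_216 : Tr := (.node (.node (.node (.node (.node (.node (.X 1 (.c 48 (.c 8193 (.c 24 (.c 16 (.c 40 .nil))))) (.b 8 .nil)) (.X 1 (.c 18433 (.c 40 (.c 32 (.c 16 (.c 8 .nil))))) (.b 24 .nil))) (.node (.X 1 (.c 48 (.c 40 (.c 8193 (.c 16 (.c 24 .nil))))) (.b 8 .nil)) (.X 1 (.c 48 (.c 12801 (.c 24 (.c 8 (.c 32 .nil))))) (.b 16 .nil)))) (.node (.node (.X 1 (.c 48 (.c 12801 (.c 24 (.c 16 (.c 32 .nil))))) (.b 8 .nil)) (.X 1 (.c 48 (.c 12801 (.c 32 (.c 16 (.c 24 .nil))))) (.b 8 .nil))) (.node (.X 1 (.c 48 (.c 16 (.c 40 (.c 4609 (.c 32 .nil))))) (.b 8 .nil)) (.X 1 (.c 48 (.c 16 (.c 12801 (.c 24 (.c 32 .nil))))) (.b 8 .nil))))) (.node (.node (.node (.X 1 (.c 48 (.c 24 (.c 8193 (.c 16 (.c 40 .nil))))) (.b 8 .nil)) (.X 3 (.c 24 (.c 0 (.c 48 (.c 40 (.c 8652867 .nil))))) .nil)) (.node (.X 3 (.c 24 (.c 0 (.c 43655299 (.c 40 (.c 8 .nil))))) .nil) (.X 3 (.c 24 (.c 0 (.c 43059267 (.c 40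 (.c 32 .nil))))) .nil))) (.node (.node (.X 1 (.c 40 (.c 8 (.c 32 (.c 2049 (.c 24 .nil))))) (.b 48 .nil)) (.X 3 (.c 24 (.c 0 (.c 48 (.c 21307459 (.c 16 .nil))))) .nil)) (.node (.X 3 (.c 24 (.c 0 (.c 48 (.c 20891715 (.c 32 .nil))))) .nil) (.X 3 (.c 16 (.c 0 (.c 43954883 (.c 32 (.c 8 .nil))))) .nil))))) (.node (.node (.node (.node (.X 1 (.c 40 (.c 8 (.c 32 (.c 4609 (.c 16 .nil))))) (.b 48 .nil)) (.X 1 (.c 40 (.c 8 (.c 8193 (.c 16 (.c 24 .nil))))) (.b 48 .nil))) (.node (.X 3 (.c 16 (.c 0 (.c 43356739 (.c 40 (.c 32 .nil))))) .nil) (.X 3 (.c 32 (.c 0 (.c 48 (.c 21099075 (.c 16 .nil))))) .nil))) (.node (.node (.X 1 (.c 8193 (.c 16 (.c 24 (.c 8 (.c 40 .nil))))) (.b 48 .nil)) (.X 3 (.c 32 (.c 0 (.c 43954819 (.c 24 (.c 8 .nil))))) .nil)) (.node (.X 3 (.c 32 (.c 0 (.c 43059267 (.c 40 (.c 24 .nil))))) .nil) (.X 3 (.c 32 (.c 0 (.c 48 (.c 21099139 (.c 8 .nil))))) .nil)))) (.node (.node (.node (.X 3 (.c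 2803779 (.c 0 (.c 48 (.c 40 (.c 32 .nil))))) .nil) (.X 3 (.c 2728451 (.c 16 (.c 48 (.c 40 (.c 32 .nil))))) .nil)) (.node (.X 1 (.c 40 (.c 24 (.c 32 (.c 2049 (.c 8 .nil))))) (.b 48 .nil)) (.X 3 (.c 8 (.c 0 (.c 48 (.c 21099139 (.c 32 .nil))))) .nil))) (.node (.node (.X 3 (.c 16 (.c 0 (.c 48 (.c 21099075 (.c 32 .nil))))) .nil) (.X 3 (.c 8 (.c 0 (.c 43954947 (.c 24 (.c 16 .nil))))) .nil)) (.node (.X 3 (.c 8 (.c 0 (.c 43655363 (.c 40 (.c 16 .nil))))) .nil) (.X 3 (.c 8 (.c 0 (.c 43655299 (.c 40 (.c 24 .nil))))) .nil)))))) (.node (.node (.node (.node (.node (.X 3 (.c 21099011 (.c 16 (.c 48 (.c 32 (.c 8 .nil))))) .nil) (.X 3 (.c 20891715 (.c 0 (.c 48 (.c 32 (.c 24 .nil))))) .nil)) (.node (.X 3 (.c 20891651 (.c 24 (.c 48 (.c 32 (.c 8 .nil))))) .nil) (.X 3 (.c 20685315 (.c 32 (.c 48 (.c 24 (.c 16 .nil))))) .nil))) (.node (.node (.X 3 (.c 20685315 (.c 16 (.c 48 (.c 32 (.c 24 .nil))))) .nil) (.X 3 (.c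 48 (.c 557571 (.c 40 (.c 32 (.c 24 .nil))))) .nil)) (.node (.X 3 (.c 48 (.c 0 (.c 21307587 (.c 16 (.c 8 .nil))))) .nil) (.X 3 (.c 48 (.c 0 (.c 21307523 (.c 24 (.c 8 .nil))))) .nil)))) (.node (.node (.node (.X 3 (.c 48 (.c 0 (.c 21307459 (.c 24 (.c 16 .nil))))) .nil) (.X 3 (.c 48 (.c 0 (.c 21099139 (.c 32 (.c 8 .nil))))) .nil)) (.node (.X 3 (.c 48 (.c 0 (.c 21099075 (.c 32 (.c 16 .nil))))) .nil) (.X 3 (.c 48 (.c 0 (.c 20891715 (.c 32 (.c 24 .nil))))) .nil))) (.node (.node (.X 3 (.c 40 (.c 8786435 (.c 48 (.c 16 (.c 8 .nil))))) .nil) (.X 3 (.c 48 (.c 0 (.c 40 (.c 8786563 (.c 8 .nil))))) .nil)) (.node (.X 3 (.c 48 (.c 0 (.c 40 (.c 8786499 (.c 16 .nil))))) .nil) (.X 3 (.c 48 (.c 0 (.c 40 (.c 8652867 (.c 24 .nil))))) .nil))))) (.node (.node (.node (.node (.X 3 (.c 48 (.c 0 (.c 40 (.c 32 (.c 2803779 .nil))))) .nil) (.X 3 (.c 8652803 (.c 8 (.c 48 (.c 40 (.c 24 .nil))))) .nil)) (.node (.X 3 (.c 40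 (.c 0 (.c 48 (.c 8652867 (.c 24 .nil))))) .nil) (.X 3 (.c 8786563 (.c 0 (.c 48 (.c 40 (.c 8 .nil))))) .nil))) (.node (.node (.X 3 (.c 8786499 (.c 0 (.c 48 (.c 40 (.c 16 .nil))))) .nil) (.X 3 (.c 8786435 (.c 8 (.c 48 (.c 40 (.c 16 .nil))))) .nil)) (.node (.X 3 (.c 8652867 (.c 0 (.c 48 (.c 40 (.c 24 .nil))))) .nil) (.X 3 (.c 8520195 (.c 24 (.c 48 (.c 40 (.c 16 .nil))))) .nil)))) (.node (.node (.node (.X 3 (.c 32 (.c 2803715 (.c 48 (.c 40 (.c 8 .nil))))) .nil) (.X 3 (.c 40 (.c 8520195 (.c 48 (.c 24 (.c 16 .nil))))) .nil)) (.node (.X 3 (.c 40 (.c 2728451 (.c 48 (.c 32 (.c 16 .nil))))) .nil) (.X 3 (.c 40 (.c 0 (.c 43655299 (.c 24 (.c 8 .nil))))) .nil))) (.node (.node (.X 3 (.c 40 (.c 0 (.c 43655235 (.c 24 (.c 16 .nil))))) .nil) (.X 1 (.c 18433 (.c 24 (.c 16 (.c 8 (.c 40 .nil))))) (.b 32 .nil))) (.node (.X 1 (.c 18433 (.c 24 (.c 40 (.c 8 (.c 16 .nil))))) (.b 32 .nil)) (.X 3 (.c 48 (.c 0 (.c 32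 (.c 24 (.c 16 .nil))))) (.b 40 (.b 8 .nil)))))))))

noncomputable def c5_217 : Tr := (.node (.node (.node (.node (.node (.node (.X 3 (.c 32 (.c 0 (.c 48 (.c 24 (.c 16 .nil))))) (.b 40 (.b 8 .nil))) (.X 3 (.c 16 (.c 0 (.c 40 (.c 32 (.c 8 .nil))))) (.b 24 (.b 48 .nil)))) (.node (.X 3 (.c 8 (.c 0 (.c 40 (.c 32 (.c 16 .nil))))) (.b 48 (.b 24 .nil))) (.X 3 (.c 16 (.c 0 (.c 48 (.c 32 (.c 24 .nil))))) (.b 8 (.b 40 .nil))))) (.node (.node (.X 3 (.c 8 (.c 0 (.c 40 (.c 32 (.c 16 .nil))))) (.b 24 (.b 48 .nil))) (.X 1 (.c 48 (.c 32 (.c 16 (.c 513 (.c 40 .nil))))) (.b 24 .nil))) (.node (.X 3 (.c 40 (.c 0 (.c 24 (.c 16 (.c 8 .nil))))) (.b 48 (.b 32 .nil))) (.X 3 (.c 24 (.c 8 (.c 48 (.c 40 (.c 16 .nil))))) (.l 8193 .nil))))) (.node (.node (.node (.X 3 (.c 48 (.c 0 (.c 32 (.c 24 (.c 8 .nil))))) (.b 40 (.b 16 .nil))) (.X 3 (.c 48 (.c 0 (.c 32 (.c 24 (.c 8 .nil))))) (.b 16 (.b 40 .nil)))) (.node (.X 3 (.c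 40 (.c 0 (.c 32 (.c 16 (.c 8 .nil))))) (.b 48 (.b 24 .nil))) (.X 3 (.c 32 (.c 8 (.c 48 (.c 24 (.c 16 .nil))))) (.l 12801 .nil)))) (.node (.node (.X 3 (.c 8 (.c 0 (.c 48 (.c 24 (.c 16 .nil))))) (.b 40 (.b 32 .nil))) (.X 3 (.c 24 (.c 0 (.c 32 (.c 16 (.c 8 .nil))))) (.b 40 (.b 48 .nil)))) (.node (.X 3 (.c 8 (.c 0 (.c 48 (.c 24 (.c 16 .nil))))) (.b 32 (.b 40 .nil))) (.X 3 (.c 8 (.c 0 (.c 48 (.c 32 (.c 16 .nil))))) (.b 24 (.b 40 .nil))))))) (.node (.node (.node (.node (.X 3 (.c 16 (.c 0 (.c 48 (.c 24 (.c 8 .nil))))) (.b 40 (.b 32 .nil))) (.X 3 (.c 8 (.c 0 (.c 32 (.c 24 (.c 16 .nil))))) (.b 48 (.b 40 .nil)))) (.node (.X 3 (.c 40 (.c 0 (.c 24 (.c 16 (.c 8 .nil))))) (.b 32 (.b 48 .nil))) (.X 3 (.c 32 (.c 0 (.c 48 (.c 24 (.c 8 .nil))))) (.b 40 (.b 16 .nil))))) (.node (.node (.X 3 (.c 24 (.c 0 (.c 40 (.c 16 (.c 8 .nil))))) (.b 48 (.b 32 .nil))) (.X 3 (.c 24 (.c 0 (.c 40 (.c 16 (.c 8 .nil))))) (.b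 32 (.b 48 .nil)))) (.node (.X 3 (.c 16 (.c 8 (.c 48 (.c 40 (.c 24 .nil))))) (.l 8193 .nil)) (.X 3 (.c 16 (.c 0 (.c 40 (.c 24 (.c 8 .nil))))) (.b 48 (.b 32 .nil)))))) (.node (.node (.node (.X 3 (.c 16 (.c 0 (.c 40 (.c 24 (.c 8 .nil))))) (.b 32 (.b 48 .nil))) (.X 3 (.c 8 (.c 0 (.c 40 (.c 24 (.c 16 .nil))))) (.b 48 (.b 32 .nil)))) (.node (.X 3 (.c 48 (.c 0 (.c 40 (.c 16 (.c 8 .nil))))) (.b 24 (.b 32 .nil))) (.X 3 (.c 24 (.c 0 (.c 48 (.c 40 (.c 8 .nil))))) (.b 16 (.b 32 .nil))))) (.node (.node (.X 3 (.c 40 (.c 0 (.c 32 (.c 24 (.c 16 .nil))))) (.b 8 (.b 48 .nil))) (.X 3 (.c 8 (.c 0 (.c 48 (.c 40 (.c 24 .nil))))) (.b 32 (.b 16 .nil)))) (.node (.X 3 (.c 16 (.c 0 (.c 48 (.c 40 (.c 24 .nil))))) (.b 32 (.b 8 .nil))) (.X 3 (.c 32 (.c 0 (.c 48 (.c 40 (.c 8 .nil))))) (.b 24 (.b 16 .nil)))))))) (.node (.node (.node (.node (.node (.X 3 (.c 40 (.c 0 (.c 32 (.c 24 (.c 16 .nil))))) (.b 48 (.b 8 .nil))) (.X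 3 (.c 48 (.c 0 (.c 40 (.c 16 (.c 8 .nil))))) (.b 32 (.b 24 .nil)))) (.node (.X 3 (.c 24 (.c 0 (.c 48 (.c 40 (.c 16 .nil))))) (.b 8 (.b 32 .nil))) (.X 3 (.c 32 (.c 0 (.c 48 (.c 40 (.c 8 .nil))))) (.b 16 (.b 24 .nil))))) (.node (.node (.X 3 (.c 32 (.c 0 (.c 40 (.c 24 (.c 8 .nil))))) (.b 48 (.b 16 .nil))) (.X 3 (.c 16 (.c 0 (.c 40 (.c 32 (.c 24 .nil))))) (.b 8 (.b 48 .nil)))) (.node (.X 3 (.c 32 (.c 0 (.c 40 (.c 24 (.c 16 .nil))))) (.b 8 (.b 48 .nil))) (.X 3 (.c 48 (.c 0 (.c 40 (.c 24 (.c 8 .nil))))) (.b 16 (.b 32 .nil)))))) (.node (.node (.node (.X 3 (.c 24 (.c 0 (.c 40 (.c 32 (.c 16 .nil))))) (.b 48 (.b 8 .nil))) (.X 3 (.c 32 (.c 0 (.c 40 (.c 24 (.c 16 .nil))))) (.b 48 (.b 8 .nil)))) (.node (.X 3 (.c 16 (.c 0 (.c 40 (.c 32 (.c 24 .nil))))) (.b 48 (.b 8 .nil))) (.X 3 (.c 40 (.c 0 (.c 48 (.c 24 (.c 8 .nil))))) (.b 16 (.b 32 .nil))))) (.node (.node (.X 3 (.c 8 (.c 0 (.c 40 (.c 32 (.c 24 .nil)))))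 (.b 16 (.b 48 .nil))) (.X 3 (.c 8 (.c 0 (.c 48 (.c 40 (.c 16 .nil))))) (.b 32 (.b 24 .nil)))) (.node (.X 3 (.c 8 (.c 0 (.c 48 (.c 40 (.c 16 .nil))))) (.b 24 (.b 32 .nil))) (.X 3 (.c 8 (.c 0 (.c 40 (.c 32 (.c 24 .nil))))) (.b 48 (.b 16 .nil))))))) (.node (.node (.node (.node (.X 3 (.c 8 (.c 0 (.c 48 (.c 40 (.c 32 .nil))))) (.b 16 (.b 24 .nil))) (.X 3 (.c 48 (.c 8 (.c 40 (.c 24 (.c 16 .nil))))) (.l 8193 .nil))) (.node (.X 3 (.c 8 (.c 0 (.c 48 (.c 40 (.c 32 .nil))))) (.b 24 (.b 16 .nil))) (.X 3 (.c 24 (.c 8 (.c 40 (.c 32 (.c 16 .nil))))) (.l 18433 .nil)))) (.node (.node (.X 0 (.c 48 (.c 40 (.c 8385 (.c 0 .nil)))) (.b 8 (.b 16 .nil))) (.X 0 (.c 43059203 (.c 40 (.c 32 (.c 24 .nil)))) (.l 8 .nil))) (.node (.X 0 (.c 48 (.c 32 (.c 4609 (.c 8 .nil)))) (.b 16 (.l 40 .nil))) (.X 0 (.c 40 (.c 32 (.c 4737 (.c 513 .nil)))) (.b 48 .nil))))) (.node (.node (.node (.X 0 (.c 32 (.c 4609 (.c 16 (.c 8 .nil))))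 (.b 40 (.l 48 .nil))) (.X 0 (.c 48 (.c 32 (.c 16 (.c 513 .nil)))) (.b 24 (.l 40 .nil)))) (.node (.X 0 (.c 18625 (.c 40 (.c 32 (.c 2049 .nil)))) (.b 8 .nil)) (.X 0 (.c 43655171 (.c 40 (.c 24 (.c 2113 .nil)))) .nil))) (.node (.node (.X 0 (.c 18561 (.c 40 (.c 24 (.c 513 .nil)))) (.b 32 .nil)) (.X 0 (.c 48 (.c 4673 (.c 16 (.c 0 .nil)))) (.b 32 (.b 40 .nil)))) (.node (.X 0 (.c 43356675 (.c 40 (.c 32 (.c 16 .nil)))) (.l 8 .nil)) (.X 0 (.c 48 (.c 40 (.c 32 (.c 4609 .nil)))) (.b 8 (.l 16 .nil)))))))))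

noncomputable def c5_218 : Tr := (.node (.node (.node (.node (.node (.node (.X 0 (.c 2718204169 (.c 40 (.c 4673 (.c 16 .nil)))) .nil) (.X 0 (.c 43356803 (.c 40 (.c 32 (.c 0 .nil)))) (.l 8 .nil))) (.node (.X 0 (.c 48 (.c 16 (.c 8 (.c 0 .nil)))) (.b 24 (.b 40 (.l 32 .nil)))) (.X 0 (.c 48 (.c 1310924873 (.c 24 (.c 16 .nil)))) (.l 32 .nil)))) (.node (.node (.X 0 (.c 24 (.c 16 (.c 8 (.c 0 .nil)))) (.b 40 (.b 32 (.l 48 .nil)))) (.X 0 (.c 169943433 (.c 32 (.c 16 (.c 8 .nil)))) (.l 40 .nil))) (.node (.X 0 (.c 40 (.c 8321 (.c 24 (.c 8 .nil)))) (.l 18433 .nil)) (.X 0 (.c 40 (.c 32 (.c 2728451 (.c 16 .nil)))) (.l 48 .nil))))) (.node (.node (.node (.X 0 (.c 24 (.c 16 (.c 8 (.c 0 .nil)))) (.b 32 (.b 40 (.l 48 .nil)))) (.X 0 (.c 48 (.c 40 (.c 8193 (.c 24 .nil)))) (.b 16 (.l 8 .nil)))) (.node (.X 0 (.c 40 (.c 24 (.c 8 (.c 0 .nil)))) (.b 48 (.b 32 (.l 16 .nil)))) (.X 0 (.c 48 (.c 4673 (.c 16 (.c 0 .nil))))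 (.b 40 (.b 32 .nil))))) (.node (.node (.X 0 (.c 12929 (.c 32 (.c 24 (.c 513 .nil)))) (.b 48 .nil)) (.X 0 (.c 40 (.c 32 (.c 169943113 (.c 16 .nil)))) (.l 48 .nil))) (.node (.X 0 (.c 43655171 (.c 40 (.c 4673 (.c 16 .nil)))) .nil) (.X 0 (.c 48 (.c 40 (.c 32 (.c 4609 .nil)))) (.b 16 (.l 8 .nil))))))) (.node (.node (.node (.node (.X 0 (.c 48 (.c 21099011 (.c 32 (.c 16 .nil)))) (.l 8 .nil)) (.X 0 (.c 48 (.c 4609 (.c 16 (.c 8 .nil)))) (.b 32 (.l 40 .nil)))) (.node (.X 0 (.c 48 (.c 40 (.c 24 (.c 16 .nil)))) (.l 32 (.l 513 .nil))) (.X 0 (.c 48 (.c 1310925001 (.c 32 (.c 16 .nil)))) (.l 8 .nil)))) (.node (.node (.X 0 (.c 48 (.c 12801 (.c 4673 (.c 16 .nil)))) (.b 32 .nil)) (.X 0 (.c 48 (.c 32 (.c 2113 (.c 0 .nil)))) (.b 24 (.b 40 .nil)))) (.node (.X 0 (.c 40 (.c 24 (.c 2049 (.c 8 .nil)))) (.b 32 (.l 48 .nil))) (.X 0 (.c 40 (.c 32 (.c 33587401 (.c 8 .nil)))) (.l 48 .nil))))) (.node (.node (.node (.X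 0 (.c 48 (.c 32 (.c 4737 (.c 0 .nil)))) (.b 40 (.b 8 .nil))) (.X 0 (.c 48 (.c 33587529 (.c 32 (.c 24 .nil)))) (.l 8 .nil))) (.node (.X 0 (.c 40 (.c 32 (.c 4609 (.c 8 .nil)))) (.b 48 (.l 16 .nil))) (.X 0 (.c 14832803796618633 (.c 32 (.c 24 (.c 0 .nil)))) .nil))) (.node (.node (.X 0 (.c 48 (.c 8193 (.c 16 (.c 8 .nil)))) (.b 24 (.l 40 .nil))) (.X 0 (.c 48 (.c 20891651 (.c 32 (.c 24 .nil)))) (.l 8 .nil))) (.node (.X 0 (.c 40 (.c 32 (.c 4609 (.c 8 .nil)))) (.b 16 (.l 48 .nil))) (.X 0 (.c 48 (.c 32 (.c 4737 (.c 513 .nil)))) (.b 40 .nil))))))) (.node (.node (.node (.node (.node (.X 0 (.c 48 (.c 32 (.c 2105545 (.c 16 .nil)))) (.l 40 .nil)) (.X 0 (.c 48 (.c 40 (.c 32 (.c 16 .nil)))) (.l 24 (.l 513 .nil)))) (.node (.X 0 (.c 48 (.c 12993 (.c 32 (.c 2049 .nil)))) (.b 8 .nil)) (.X 0 (.c 40 (.c 8193 (.c 16 (.c 8 .nil)))) (.b 24 (.l 48 .nil))))) (.node (.node (.X 0 (.c 48 (.c 12801 (.c 32 (.c 24 .nil))))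 (.b 16 (.l 8 .nil))) (.X 0 (.c 48 (.c 24 (.c 16 (.c 0 .nil)))) (.b 8 (.b 40 (.l 32 .nil))))) (.node (.X 0 (.c 2718204169 (.c 40 (.c 24 (.c 16 .nil)))) (.l 8 .nil)) (.X 0 (.c 32 (.c 24 (.c 16 (.c 8 .nil)))) (.l 40 (.l 18433 .nil)))))) (.node (.node (.node (.X 0 (.c 48 (.c 24 (.c 8 (.c 0 .nil)))) (.b 32 (.b 40 (.l 16 .nil)))) (.X 0 (.c 48 (.c 40 (.c 8385 (.c 0 .nil)))) (.b 16 (.b 8 .nil)))) (.node (.X 0 (.c 1310924873 (.c 32 (.c 24 (.c 16 .nil)))) (.l 48 .nil)) (.X 0 (.c 48 (.c 32 (.c 16 (.c 513 .nil)))) (.b 40 (.l 24 .nil))))) (.node (.node (.X 0 (.c 18561 (.c 12801 (.c 32 (.c 24 .nil)))) (.b 8 .nil)) (.X 0 (.c 48 (.c 537002313 (.c 24 (.c 16 .nil)))) (.l 8 .nil))) (.node (.X 0 (.c 48 (.c 32 (.c 24 (.c 513 .nil)))) (.b 16 (.l 40 .nil))) (.X 0 (.c 48 (.c 1310925065 (.c 24 (.c 16 .nil)))) (.l 8 .nil)))))) (.node (.node (.node (.node (.X 0 (.c 48 (.c 12865 (.c 24 (.c 2049 .nil)))) (.b 32 .nil))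 (.X 0 (.c 32 (.c 4609 (.c 16 (.c 8 .nil)))) (.b 48 (.l 40 .nil)))) (.node (.X 0 (.c 48 (.c 32 (.c 24 (.c 513 .nil)))) (.b 40 (.l 16 .nil))) (.X 0 (.c 18433 (.c 40 (.c 32 (.c 4737 .nil)))) (.b 8 .nil)))) (.node (.node (.X 0 (.c 48 (.c 12865 (.c 4609 (.c 16 .nil)))) (.b 32 .nil)) (.X 0 (.c 48 (.c 12801 (.c 24 (.c 8 .nil)))) (.b 16 (.l 32 .nil)))) (.node (.X 0 (.c 18497 (.c 40 (.c 32 (.c 33587401 .nil)))) .nil) (.X 0 (.c 18497 (.c 40 (.c 32 (.c 2803715 .nil)))) .nil)))) (.node (.node (.node (.X 0 (.c 3632062472293833 (.c 24 (.c 16 (.c 0 .nil)))) .nil) (.X 0 (.c 48 (.c 169943369 (.c 32 (.c 2113 .nil)))) .nil)) (.node (.X 0 (.c 18433 (.c 8257 (.c 24 (.c 16 .nil)))) (.b 40 .nil)) (.X 0 (.c 48 (.c 3632062472293577 (.c 24 (.c 0 .nil)))) .nil))) (.node (.node (.X 0 (.c 43954691 (.c 24 (.c 16 (.c 8 .nil)))) (.l 32 .nil)) (.X 0 (.c 32 (.c 16 (.c 8 (.c 0 .nil)))) (.b 48 (.b 24 (.l 40 .nil))))) (.node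 (.X 0 (.c 20891715 (.c 32 (.c 24 (.c 0 .nil)))) (.l 48 .nil)) (.X 0 (.c 18433 (.c 24 (.c 16 (.c 8 .nil)))) (.b 32 (.l 40 .nil)))))))))

noncomputable def c5_219 : Tr := (.node (.node (.node (.node (.node (.node (.X 0 (.c 32 (.c 16 (.c 8 (.c 0 .nil)))) (.b 48 (.b 40 (.l 24 .nil)))) (.X 0 (.c 43655299 (.c 40 (.c 8 (.c 0 .nil)))) (.l 24 .nil))) (.node (.X 0 (.c 32 (.c 16 (.c 8 (.c 0 .nil)))) (.b 40 (.b 24 (.l 48 .nil)))) (.X 0 (.c 40 (.c 32 (.c 24 (.c 33587273 .nil)))) (.l 48 .nil)))) (.node (.node (.X 0 (.c 32 (.c 16 (.c 8 (.c 0 .nil)))) (.b 40 (.b 48 (.l 24 .nil)))) (.X 0 (.c 18433 (.c 40 (.c 32 (.c 8 .nil)))) (.b 16 (.l 24 .nil)))) (.node (.X 0 (.c 32 (.c 24 (.c 8 (.c 0 .nil)))) (.l 43954819 .nil)) (.X 0 (.c 43954691 (.c 8257 (.c 24 (.c 16 .nil)))) .nil)))) (.node (.node (.node (.X 0 (.c 40 (.c 8321 (.c 24 (.c 0 .nil)))) (.b 8 (.b 48 .nil))) (.X 0 (.c 48 (.c 12801 (.c 24 (.c 8 .nil)))) (.b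 32 (.l 16 .nil)))) (.node (.X 0 (.c 42762755 (.c 40 (.c 24 (.c 16 .nil)))) (.l 32 .nil)) (.X 0 (.c 43954883 (.c 8257 (.c 16 (.c 0 .nil)))) .nil))) (.node (.node (.X 0 (.c 48 (.c 3491710045130057 (.c 24 (.c 0 .nil)))) .nil) (.X 0 (.c 48 (.c 40 (.c 4609 (.c 8 .nil)))) (.b 16 (.l 32 .nil)))) (.node (.X 0 (.c 48 (.c 40 (.c 32 (.c 33587273 .nil)))) (.l 24 .nil)) (.X 0 (.c 43655235 (.c 40 (.c 16 (.c 0 .nil)))) (.l 24 .nil)))))) (.node (.node (.node (.node (.X 0 (.c 2718204233 (.c 24 (.c 16 (.c 8 .nil)))) (.l 32 .nil)) (.X 0 (.c 48 (.c 40 (.c 8193 (.c 2113 .nil)))) (.b 24 .nil))) (.node (.X 0 (.c 48 (.c 8520195 (.c 24 (.c 16 .nil)))) (.l 40 .nil)) (.X 0 (.c 48 (.c 40 (.c 4609 (.c 8 .nil)))) (.b 32 (.l 16 .nil))))) (.node (.node (.X 0 (.c 43655171 (.c 40 (.c 16 (.c 8 .nil)))) (.l 24 .nil)) (.X 0 (.c 40 (.c 8257 (.c 16 (.c 0 .nil)))) (.b 24 (.b 48 .nil)))) (.node (.X 0 (.c 43954883 (.c 32 (.c 2113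 (.c 0 .nil)))) .nil) (.X 0 (.c 43655363 (.c 40 (.c 16 (.c 0 .nil)))) (.l 8 .nil))))) (.node (.node (.node (.X 0 (.c 24 (.c 16 (.c 8 (.c 0 .nil)))) (.b 48 (.b 32 (.l 40 .nil)))) (.X 0 (.c 24 (.c 16 (.c 8 (.c 0 .nil)))) (.b 48 (.b 40 (.l 32 .nil))))) (.node (.X 0 (.c 48 (.c 32 (.c 16 (.c 8 .nil)))) (.l 40 (.l 4609 .nil))) (.X 0 (.c 43356675 (.c 32 (.c 16 (.c 8 .nil)))) (.l 40 .nil)))) (.node (.node (.X 0 (.c 48 (.c 8193 (.c 24 (.c 2113 .nil)))) (.b 40 .nil)) (.X 0 (.c 48 (.c 16 (.c 8 (.c 0 .nil)))) (.l 21307587 .nil))) (.node (.X 0 (.c 18433 (.c 40 (.c 24 (.c 8 .nil)))) (.b 32 (.l 16 .nil))) (.X 0 (.c 18433 (.c 40 (.c 24 (.c 8 .nil)))) (.b 16 (.l 32 .nil)))))))) (.node (.node (.node (.node (.node (.X 0 (.c 48 (.c 40 (.c 16 (.c 8 .nil)))) (.l 24 (.l 8193 .nil))) (.X 0 (.c 12865 (.c 32 (.c 24 (.c 0 .nil)))) (.b 16 (.b 48 .nil)))) (.node (.X 0 (.c 40 (.c 24 (.c 2113 (.c 0 .nil)))) (.b 48 (.b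 32 .nil))) (.X 0 (.c 43655171 (.c 40 (.c 24 (.c 16 .nil)))) (.l 8 .nil)))) (.node (.node (.X 0 (.c 537002377 (.c 40 (.c 24 (.c 16 .nil)))) (.l 8 .nil)) (.X 0 (.c 15456298926182537 (.c 24 (.c 16 (.c 0 .nil)))) .nil)) (.node (.X 0 (.c 48 (.c 40 (.c 169943305 (.c 16 .nil)))) (.l 8 .nil)) (.X 0 (.c 8257 (.c 24 (.c 16 (.c 0 .nil)))) (.b 40 (.b 48 .nil)))))) (.node (.node (.node (.X 0 (.c 2718203977 (.c 40 (.c 24 (.c 16 .nil)))) (.l 32 .nil)) (.X 0 (.c 40 (.c 32 (.c 16 (.c 8 .nil)))) (.l 24 (.l 18433 .nil)))) (.node (.X 0 (.c 48 (.c 8257 (.c 24 (.c 2049 .nil)))) (.b 40 .nil)) (.X 0 (.c 48 (.c 8193 (.c 24 (.c 8 .nil)))) (.b 16 (.l 40 .nil))))) (.node (.node (.X 0 (.c 40 (.c 32 (.c 4609 (.c 2113 .nil)))) (.b 48 .nil)) (.X 0 (.c 40 (.c 8257 (.c 24 (.c 0 .nil)))) (.b 16 (.b 48 .nil)))) (.node (.X 0 (.c 43954755 (.c 32 (.c 16 (.c 0 .nil)))) (.l 24 .nil)) (.X 0 (.c 2105737 (.c 40 (.c 24 (.c 16 .nil))))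 (.l 32 .nil)))))) (.node (.node (.node (.node (.X 0 (.c 18497 (.c 40 (.c 32 (.c 0 .nil)))) (.b 24 (.b 16 .nil))) (.X 0 (.c 40 (.c 8257 (.c 16 (.c 0 .nil)))) (.b 48 (.b 24 .nil)))) (.node (.X 0 (.c 1310925193 (.c 32 (.c 24 (.c 16 .nil)))) (.l 8 .nil)) (.X 0 (.c 48 (.c 8193 (.c 4673 (.c 16 .nil)))) (.b 40 .nil)))) (.node (.node (.X 0 (.c 48 (.c 32 (.c 16 (.c 8 .nil)))) (.l 24 (.l 12801 .nil))) (.X 0 (.c 43954819 (.c 32 (.c 24 (.c 0 .nil)))) (.l 8 .nil))) (.node (.X 0 (.c 48 (.c 24 (.c 16 (.c 0 .nil)))) (.b 8 (.b 32 (.l 40 .nil)))) (.X 0 (.c 43954883 (.c 32 (.c 16 (.c 0 .nil)))) (.l 8 .nil))))) (.node (.node (.node (.X 0 (.c 48 (.c 20891651 (.c 24 (.c 8 .nil)))) (.l 32 .nil)) (.X 0 (.c 48 (.c 33587529 (.c 24 (.c 8 .nil)))) (.l 32 .nil))) (.node (.X 0 (.c 48 (.c 1310924937 (.c 24 (.c 8 .nil)))) (.l 32 .nil)) (.X 0 (.c 43954947 (.c 16 (.c 8 (.c 0 .nil)))) (.l 24 .nil)))) (.node (.node (.X 0 (.c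 48 (.c 32 (.c 24 (.c 0 .nil)))) (.b 40 (.b 8 (.l 16 .nil)))) (.X 0 (.c 40 (.c 8786499 (.c 16 (.c 0 .nil)))) (.l 48 .nil))) (.node (.X 0 (.c 48 (.c 40 (.c 4737 (.c 8 .nil)))) (.l 8193 .nil)) (.X 0 (.c 40 (.c 32 (.c 24 (.c 0 .nil)))) (.b 48 (.b 8 (.l 16 .nil))))))))))

noncomputable def c5_220 : Tr := (.node (.node (.node (.node (.node (.node (.X 0 (.c 18433 (.c 40 (.c 32 (.c 16 .nil)))) (.b 24 (.l 8 .nil))) (.X 0 (.c 40 (.c 8786563 (.c 8 (.c 0 .nil)))) (.l 48 .nil))) (.node (.X 0 (.c 43954819 (.c 32 (.c 4673 (.c 0 .nil)))) .nil) (.X 0 (.c 43356675 (.c 40 (.c 32 (.c 8 .nil)))) (.l 16 .nil)))) (.node (.node (.X 0 (.c 18625 (.c 40 (.c 32 (.c 8 .nil)))) (.l 2049 .nil)) (.X 0 (.c 40 (.c 8520195 (.c 24 (.c 16 .nil)))) (.l 48 .nil))) (.node (.X 0 (.c 18497 (.c 40 (.c 32 (.c 4609 .nil)))) (.b 16 .nil)) (.X 0 (.c 40 (.c 169943305 (.c 16 (.c 8 .nil)))) (.l 48 .nil))))) (.node (.node (.node (.X 0 (.c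 40 (.c 537002185 (.c 16 (.c 8 .nil)))) (.l 48 .nil)) (.X 0 (.c 18561 (.c 40 (.c 24 (.c 8 .nil)))) (.l 8193 .nil))) (.node (.X 0 (.c 2105737 (.c 40 (.c 32 (.c 24 .nil)))) (.l 16 .nil)) (.X 0 (.c 2718203977 (.c 40 (.c 32 (.c 24 .nil)))) (.l 16 .nil)))) (.node (.node (.X 0 (.c 48 (.c 32 (.c 24 (.c 0 .nil)))) (.b 40 (.b 16 (.l 8 .nil)))) (.X 0 (.c 43954691 (.c 32 (.c 24 (.c 2113 .nil)))) .nil)) (.node (.X 0 (.c 48 (.c 32 (.c 24 (.c 0 .nil)))) (.b 8 (.b 40 (.l 16 .nil)))) (.X 0 (.c 32 (.c 24 (.c 16 (.c 0 .nil)))) (.b 48 (.b 40 (.l 8 .nil)))))))) (.node (.node (.node (.node (.X 0 (.c 537002377 (.c 40 (.c 24 (.c 8 .nil)))) (.l 16 .nil)) (.X 0 (.c 2718204169 (.c 40 (.c 24 (.c 8 .nil)))) (.l 16 .nil))) (.node (.X 0 (.c 40 (.c 32 (.c 16 (.c 513 .nil)))) (.b 48 (.l 24 .nil))) (.X 0 (.c 2718204105 (.c 40 (.c 8257 (.c 16 .nil)))) .nil))) (.node (.node (.X 0 (.c 48 (.c 16 (.c 8 (.c 0 .nil)))) (.b 40 (.b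 32 (.l 24 .nil)))) (.X 0 (.c 43655363 (.c 40 (.c 8 (.c 0 .nil)))) (.l 16 .nil))) (.node (.X 0 (.c 18433 (.c 40 (.c 32 (.c 16 .nil)))) (.b 8 (.l 24 .nil))) (.X 0 (.c 169943433 (.c 12865 (.c 32 (.c 16 .nil)))) .nil)))) (.node (.node (.node (.X 0 (.c 43356739 (.c 40 (.c 32 (.c 0 .nil)))) (.l 16 .nil)) (.X 0 (.c 12801 (.c 32 (.c 24 (.c 8 .nil)))) (.b 48 (.l 16 .nil)))) (.node (.X 0 (.c 32 (.c 24 (.c 16 (.c 0 .nil)))) (.b 48 (.b 8 (.l 40 .nil)))) (.X 0 (.c 48 (.c 32 (.c 24 (.c 0 .nil)))) (.b 16 (.b 40 (.l 8 .nil)))))) (.node (.node (.X 0 (.c 40 (.c 32 (.c 16 (.c 513 .nil)))) (.b 24 (.l 48 .nil))) (.X 0 (.c 1310925193 (.c 32 (.c 24 (.c 2113 .nil)))) .nil)) (.node (.X 0 (.c 40 (.c 537002121 (.c 24 (.c 8 .nil)))) (.l 48 .nil)) (.X 0 (.c 48 (.c 1310924873 (.c 32 (.c 24 .nil)))) (.l 16 .nil))))))) (.node (.node (.node (.node (.node (.X 0 (.c 40 (.c 8652803 (.c 24 (.c 8 .nil)))) (.l 48 .nil)) (.X 0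 (.c 48 (.c 12993 (.c 32 (.c 513 .nil)))) (.b 16 .nil))) (.node (.X 0 (.c 40 (.c 32 (.c 4737 (.c 8 .nil)))) (.l 18433 .nil)) (.X 0 (.c 48 (.c 40 (.c 537002185 (.c 8 .nil)))) (.l 16 .nil)))) (.node (.node (.X 0 (.c 48 (.c 21099011 (.c 32 (.c 8 .nil)))) (.l 16 .nil)) (.X 0 (.c 48 (.c 40 (.c 169943305 (.c 8 .nil)))) (.l 16 .nil))) (.node (.X 0 (.c 48 (.c 1310925001 (.c 32 (.c 8 .nil)))) (.l 16 .nil)) (.X 0 (.c 48 (.c 21099075 (.c 32 (.c 0 .nil)))) (.l 16 .nil))))) (.node (.node (.node (.X 0 (.c 15038498931046537 (.c 40 (.c 32 (.c 0 .nil)))) .nil) (.X 0 (.c 48 (.c 24 (.c 16 (.c 513 .nil)))) (.b 32 (.l 40 .nil)))) (.node (.X 0 (.c 48 (.c 24 (.c 16 (.c 513 .nil)))) (.b 40 (.l 32 .nil))) (.X 0 (.c 48 (.c 32 (.c 24 (.c 8 .nil)))) (.l 16 (.l 12801 .nil))))) (.node (.node (.X 0 (.c 40 (.c 32 (.c 24 (.c 0 .nil)))) (.b 8 (.b 48 (.l 16 .nil)))) (.X 0 (.c 40 (.c 8193 (.c 24 (.c 8 .nil)))) (.b 48 (.l 16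 .nil)))) (.node (.X 0 (.c 15038454533713097 (.c 40 (.c 32 (.c 0 .nil)))) .nil) (.X 0 (.c 40 (.c 537002057 (.c 24 (.c 16 .nil)))) (.l 48 .nil)))))) (.node (.node (.node (.node (.X 0 (.c 48 (.c 32 (.c 24 (.c 8 .nil)))) (.l 40 (.l 2049 .nil))) (.X 0 (.c 18497 (.c 40 (.c 8786563 (.c 0 .nil)))) .nil)) (.node (.X 0 (.c 40 (.c 16 (.c 8 (.c 0 .nil)))) (.b 24 (.b 48 (.l 32 .nil)))) (.X 0 (.c 48 (.c 40 (.c 16 (.c 0 .nil)))) (.b 24 (.b 8 (.l 32 .nil)))))) (.node (.node (.X 0 (.c 40 (.c 8786435 (.c 16 (.c 8 .nil)))) (.l 48 .nil)) (.X 0 (.c 40 (.c 32 (.c 24 (.c 0 .nil)))) (.l 43059267 .nil))) (.node (.X 0 (.c 48 (.c 537002313 (.c 24 (.c 8 .nil)))) (.l 16 .nil)) (.X 0 (.c 48 (.c 3491710045129993 (.c 32 (.c 0 .nil)))) .nil)))) (.node (.node (.node (.X 0 (.c 43059267 (.c 40 (.c 24 (.c 0 .nil)))) (.l 32 .nil)) (.X 0 (.c 48 (.c 1310925065 (.c 24 (.c 8 .nil)))) (.l 16 .nil))) (.node (.X 0 (.c 48 (.c 3561389332330633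 (.c 32 (.c 0 .nil)))) .nil) (.X 0 (.c 48 (.c 40 (.c 2105609 (.c 24 .nil)))) (.l 16 .nil)))) (.node (.node (.X 0 (.c 40 (.c 16 (.c 8 (.c 0 .nil)))) (.b 24 (.b 32 (.l 48 .nil)))) (.X 0 (.c 40 (.c 32 (.c 24 (.c 8 .nil)))) (.l 16 (.l 18433 .nil)))) (.node (.X 0 (.c 18625 (.c 40 (.c 32 (.c 16 .nil)))) (.l 513 .nil)) (.X 0 (.c 48 (.c 8257 (.c 16 (.c 0 .nil)))) (.b 40 (.b 24 .nil)))))))))

noncomputable def c5_221 : Tr := (.node (.node (.node (.node (.node (.node (.X 0 (.c 48 (.c 40 (.c 4609 (.c 16 .nil)))) (.b 8 (.l 32 .nil))) (.X 0 (.c 40 (.c 24 (.c 8 (.c 0 .nil)))) (.b 16 (.b 32 (.l 48 .nil))))) (.node (.X 0 (.c 48 (.c 40 (.c 32 (.c 2049 .nil)))) (.b 24 (.l 8 .nil))) (.X 0 (.c 48 (.c 40 (.c 32 (.c 2049 .nil)))) (.b 8 (.l 24 .nil))))) (.node (.node (.X 0 (.c 48 (.c 3561367726845257 (.c 16 (.c 0 .nil)))) .nil) (.X 0 (.c 48 (.c 40 (.c 8 (.c 0 .nil)))) (.b 32 (.b 24 (.l 16 .nil))))) (.node (.X 0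 (.c 48 (.c 40 (.c 4737 (.c 0 .nil)))) (.b 32 (.b 8 .nil))) (.X 0 (.c 48 (.c 40 (.c 8 (.c 0 .nil)))) (.b 32 (.b 16 (.l 24 .nil))))))) (.node (.node (.node (.X 0 (.c 48 (.c 40 (.c 2105545 (.c 16 .nil)))) (.l 32 .nil)) (.X 0 (.c 48 (.c 40 (.c 8193 (.c 16 .nil)))) (.b 24 (.l 8 .nil)))) (.node (.X 0 (.c 48 (.c 32 (.c 4609 (.c 16 .nil)))) (.b 8 (.l 40 .nil))) (.X 0 (.c 43356675 (.c 40 (.c 16 (.c 8 .nil)))) (.l 32 .nil)))) (.node (.node (.X 0 (.c 48 (.c 40 (.c 169943113 (.c 16 .nil)))) (.l 32 .nil)) (.X 0 (.c 169943433 (.c 40 (.c 16 (.c 8 .nil)))) (.l 32 .nil))) (.node (.X 0 (.c 48 (.c 1310925065 (.c 4673 (.c 16 .nil)))) .nil) (.X 0 (.c 48 (.c 40 (.c 537002185 (.c 16 .nil)))) (.l 8 .nil)))))) (.node (.node (.node (.node (.X 0 (.c 32 (.c 24 (.c 16 (.c 0 .nil)))) (.b 8 (.b 48 (.l 40 .nil)))) (.X 0 (.c 40 (.c 32 (.c 2113 (.c 0 .nil)))) (.b 48 (.b 24 .nil)))) (.node (.X 0 (.c 40 (.c 24 (.c 8 (.c 0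 .nil)))) (.b 32 (.b 16 (.l 48 .nil)))) (.X 0 (.c 18497 (.c 20891651 (.c 32 (.c 24 .nil)))) .nil))) (.node (.node (.X 0 (.c 40 (.c 32 (.c 16 (.c 8 .nil)))) (.l 48 (.l 4609 .nil))) (.X 0 (.c 18497 (.c 33587529 (.c 32 (.c 24 .nil)))) .nil)) (.node (.X 0 (.c 18497 (.c 1310924937 (.c 32 (.c 24 .nil)))) .nil) (.X 0 (.c 48 (.c 12929 (.c 32 (.c 4609 .nil)))) (.b 8 .nil))))) (.node (.node (.node (.X 0 (.c 40 (.c 32 (.c 8 (.c 0 .nil)))) (.b 16 (.b 24 (.l 48 .nil)))) (.X 0 (.c 48 (.c 40 (.c 32 (.c 33587401 .nil)))) (.l 8 .nil))) (.node (.X 0 (.c 48 (.c 40 (.c 32 (.c 169943177 .nil)))) (.l 8 .nil)) (.X 0 (.c 48 (.c 40 (.c 24 (.c 2049 .nil)))) (.b 32 (.l 8 .nil))))) (.node (.node (.X 0 (.c 43356739 (.c 32 (.c 16 (.c 0 .nil)))) (.l 40 .nil)) (.X 0 (.c 48 (.c 40 (.c 8652803 (.c 24 .nil)))) (.l 8 .nil))) (.node (.X 0 (.c 48 (.c 537002313 (.c 4673 (.c 16 .nil)))) .nil) (.X 0 (.c 48 (.c 40 (.c 24 (.c 2049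 .nil)))) (.b 8 (.l 32 .nil)))))))) (.node (.node (.node (.node (.node (.X 0 (.c 48 (.c 40 (.c 24 (.c 2105481 .nil)))) (.l 32 .nil)) (.X 0 (.c 43954755 (.c 32 (.c 24 (.c 0 .nil)))) (.l 16 .nil))) (.node (.X 0 (.c 48 (.c 21099139 (.c 8257 (.c 0 .nil)))) .nil) (.X 0 (.c 617620517416393 (.c 40 (.c 16 (.c 0 .nil)))) .nil))) (.node (.node (.X 0 (.c 40 (.c 16 (.c 8 (.c 0 .nil)))) (.b 48 (.b 24 (.l 32 .nil)))) (.X 0 (.c 48 (.c 32 (.c 24 (.c 2049 .nil)))) (.b 40 (.l 8 .nil)))) (.node (.X 0 (.c 18433 (.c 40 (.c 24 (.c 16 .nil)))) (.b 8 (.l 32 .nil))) (.X 0 (.c 40 (.c 16 (.c 8 (.c 0 .nil)))) (.b 48 (.b 32 (.l 24 .nil))))))) (.node (.node (.node (.X 0 (.c 43954947 (.c 24 (.c 8 (.c 0 .nil)))) (.l 16 .nil)) (.X 0 (.c 48 (.c 12801 (.c 32 (.c 16 .nil)))) (.b 24 (.l 8 .nil)))) (.node (.X 0 (.c 48 (.c 12929 (.c 32 (.c 0 .nil)))) (.b 8 (.b 24 .nil))) (.X 0 (.c 40 (.c 32 (.c 2049 (.c 8 .nil)))) (.b 24 (.l 48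 .nil))))) (.node (.node (.X 0 (.c 43954691 (.c 32 (.c 24 (.c 8 .nil)))) (.l 16 .nil)) (.X 0 (.c 18497 (.c 40 (.c 537002185 (.c 16 .nil)))) .nil)) (.node (.X 0 (.c 2718204233 (.c 32 (.c 24 (.c 8 .nil)))) (.l 16 .nil)) (.X 0 (.c 48 (.c 1310925065 (.c 24 (.c 2113 .nil)))) .nil))))) (.node (.node (.node (.node (.X 0 (.c 48 (.c 40 (.c 4673 (.c 2049 .nil)))) (.b 32 .nil)) (.X 0 (.c 48 (.c 24 (.c 16 (.c 0 .nil)))) (.b 32 (.b 8 (.l 40 .nil))))) (.node (.X 0 (.c 48 (.c 40 (.c 16 (.c 0 .nil)))) (.b 32 (.b 24 (.l 8 .nil)))) (.X 0 (.c 48 (.c 21307395 (.c 24 (.c 2113 .nil)))) .nil))) (.node (.node (.X 0 (.c 40 (.c 32 (.c 16 (.c 0 .nil)))) (.b 24 (.b 8 (.l 48 .nil)))) (.X 0 (.c 48 (.c 3632106110100617 (.c 16 (.c 0 .nil)))) .nil)) (.node (.X 0 (.c 598976858557897 (.c 40 (.c 24 (.c 0 .nil)))) .nil) (.X 0 (.c 48 (.c 32 (.c 16 (.c 0 .nil)))) (.b 40 (.b 8 (.l 24 .nil))))))) (.node (.node (.node (.X 0 (.c 48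 (.c 40 (.c 8652803 (.c 8 .nil)))) (.l 24 .nil)) (.X 0 (.c 2105737 (.c 12929 (.c 32 (.c 24 .nil)))) .nil)) (.node (.X 0 (.c 48 (.c 24 (.c 8 (.c 0 .nil)))) (.l 21307523 .nil)) (.X 0 (.c 48 (.c 40 (.c 8193 (.c 8 .nil)))) (.b 16 (.l 24 .nil))))) (.node (.node (.X 0 (.c 48 (.c 32 (.c 16 (.c 0 .nil)))) (.b 40 (.b 24 (.l 8 .nil)))) (.X 0 (.c 48 (.c 32 (.c 16 (.c 0 .nil)))) (.b 8 (.b 40 (.l 24 .nil))))) (.node (.X 0 (.c 40 (.c 32 (.c 4609 (.c 16 .nil)))) (.b 8 (.l 48 .nil))) (.X 0 (.c 48 (.c 40 (.c 24 (.c 8 .nil)))) (.l 16 (.l 8193 .nil)))))))))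

noncomputable def c5_222 : Tr := (.node (.node (.node (.node (.node (.node (.X 0 (.c 48 (.c 537002313 (.c 16 (.c 8 .nil)))) (.l 24 .nil)) (.X 0 (.c 43059203 (.c 32 (.c 24 (.c 8 .nil)))) (.l 40 .nil))) (.node (.X 0 (.c 48 (.c 8652803 (.c 24 (.c 8 .nil)))) (.l 40 .nil)) (.X 0 (.c 43954819 (.c 24 (.c 8 (.c 0 .nil)))) (.l 32 .nil)))) (.node (.node (.X 0 (.c 48 (.c 40 (.c 32 (.c 513 .nil)))) (.b 16 (.l 24 .nil))) (.X 0 (.c 48 (.c 40 (.c 32 (.c 0 .nil)))) (.b 8 (.b 16 (.l 24 .nil))))) (.node (.X 0 (.c 48 (.c 21307459 (.c 16 (.c 0 .nil)))) (.l 24 .nil)) (.X 0 (.c 42762755 (.c 40 (.c 32 (.c 16 .nil)))) (.l 24 .nil))))) (.node (.node (.node (.X 0 (.c 48 (.c 40 (.c 33587465 (.c 8 .nil)))) (.l 24 .nil)) (.X 0 (.c 48 (.c 32 (.c 16 (.c 0 .nil)))) (.b 24 (.b 8 (.l 40 .nil))))) (.node (.X 0 (.c 48 (.c 12865 (.c 8786563 (.c 0 .nil)))) .nil) (.X 0 (.c 48 (.c 12865 (.c 8786435 (.c 16 .nil)))) .nil))) (.node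 (.node (.X 0 (.c 32 (.c 24 (.c 8 (.c 0 .nil)))) (.b 48 (.b 16 (.l 40 .nil)))) (.X 0 (.c 48 (.c 8786499 (.c 16 (.c 0 .nil)))) (.l 40 .nil))) (.node (.X 0 (.c 48 (.c 2105673 (.c 32 (.c 4737 .nil)))) .nil) (.X 0 (.c 48 (.c 32 (.c 8 (.c 0 .nil)))) (.b 40 (.b 24 (.l 16 .nil)))))))) (.node (.node (.node (.node (.X 0 (.c 48 (.c 32 (.c 8 (.c 0 .nil)))) (.l 21099139 .nil)) (.X 0 (.c 43059267 (.c 32 (.c 24 (.c 0 .nil)))) (.l 40 .nil))) (.node (.X 0 (.c 48 (.c 12865 (.c 32 (.c 2803715 .nil)))) .nil) (.X 0 (.c 48 (.c 40 (.c 32 (.c 0 .nil)))) (.l 2803779 .nil)))) (.node (.node (.X 0 (.c 48 (.c 32 (.c 16 (.c 0 .nil)))) (.b 8 (.b 24 (.l 40 .nil)))) (.X 0 (.c 2718204169 (.c 24 (.c 16 (.c 8 .nil)))) (.l 40 .nil))) (.node (.X 0 (.c 40 (.c 24 (.c 16 (.c 0 .nil)))) (.b 48 (.b 8 (.l 32 .nil)))) (.X 0 (.c 43655299 (.c 40 (.c 4673 (.c 0 .nil)))) .nil)))) (.node (.node (.node (.X 0 (.c 15246236343241929 (.c 40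 (.c 24 (.c 0 .nil)))) .nil) (.X 0 (.c 48 (.c 40 (.c 32 (.c 0 .nil)))) (.b 8 (.b 24 (.l 16 .nil))))) (.node (.X 0 (.c 42762755 (.c 40 (.c 8321 (.c 24 .nil)))) .nil) (.X 0 (.c 48 (.c 40 (.c 24 (.c 0 .nil)))) (.b 32 (.b 8 (.l 16 .nil)))))) (.node (.node (.X 0 (.c 48 (.c 40 (.c 8321 (.c 2105545 .nil)))) .nil) (.X 0 (.c 18561 (.c 40 (.c 8520195 (.c 24 .nil)))) .nil)) (.node (.X 0 (.c 48 (.c 40 (.c 8321 (.c 2728451 .nil)))) .nil) (.X 0 (.c 40 (.c 24 (.c 16 (.c 0 .nil)))) (.b 48 (.b 32 (.l 8 .nil))))))))) (.node (.node (.node (.node (.node (.X 0 (.c 40 (.c 32 (.c 24 (.c 8 .nil)))) (.l 48 (.l 2049 .nil))) (.X 0 (.c 18433 (.c 32 (.c 24 (.c 8 .nil)))) (.b 16 (.l 40 .nil)))) (.node (.X 0 (.c 48 (.c 40 (.c 8385 (.c 557571 .nil)))) .nil) (.X 0 (.c 48 (.c 24 (.c 16 (.c 8 .nil)))) (.l 32 (.l 12801 .nil))))) (.node (.node (.X 0 (.c 48 (.c 40 (.c 598976858557705 (.c 0 .nil)))) .nil) (.X 0 (.c 48 (.c 21307523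 (.c 4673 (.c 0 .nil)))) .nil)) (.node (.X 0 (.c 48 (.c 24 (.c 16 (.c 0 .nil)))) (.l 21307459 .nil)) (.X 0 (.c 48 (.c 24 (.c 8 (.c 0 .nil)))) (.b 40 (.b 16 (.l 32 .nil))))))) (.node (.node (.node (.X 0 (.c 40 (.c 32 (.c 16 (.c 0 .nil)))) (.l 43356739 .nil)) (.X 0 (.c 43655235 (.c 24 (.c 16 (.c 0 .nil)))) (.l 40 .nil))) (.node (.X 0 (.c 21307395 (.c 24 (.c 16 (.c 8 .nil)))) (.l 48 .nil)) (.X 0 (.c 43059267 (.c 40 (.c 32 (.c 0 .nil)))) (.l 24 .nil)))) (.node (.node (.X 0 (.c 48 (.c 32 (.c 8 (.c 0 .nil)))) (.b 24 (.b 40 (.l 16 .nil)))) (.X 0 (.c 48 (.c 2105673 (.c 32 (.c 16 .nil)))) (.l 24 .nil))) (.node (.X 0 (.c 40 (.c 24 (.c 16 (.c 0 .nil)))) (.b 32 (.b 8 (.l 48 .nil)))) (.X 0 (.c 21307523 (.c 24 (.c 8 (.c 0 .nil)))) (.l 48 .nil)))))) (.node (.node (.node (.node (.X 0 (.c 48 (.c 12801 (.c 32 (.c 8 .nil)))) (.b 16 (.l 24 .nil))) (.X 0 (.c 48 (.c 40 (.c 8520195 (.c 16 .nil)))) (.l 24 .nil)))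 (.node (.X 0 (.c 48 (.c 21099075 (.c 16 (.c 0 .nil)))) (.l 32 .nil)) (.X 0 (.c 48 (.c 21099011 (.c 16 (.c 8 .nil)))) (.l 32 .nil)))) (.node (.node (.X 0 (.c 48 (.c 33587529 (.c 32 (.c 8 .nil)))) (.l 24 .nil)) (.X 0 (.c 48 (.c 20891651 (.c 32 (.c 8 .nil)))) (.l 24 .nil))) (.node (.X 0 (.c 40 (.c 32 (.c 8 (.c 0 .nil)))) (.l 43356803 .nil)) (.X 0 (.c 40 (.c 24 (.c 16 (.c 8 .nil)))) (.l 32 (.l 18433 .nil)))))) (.node (.node (.node (.X 1 (.c 48 (.c 40 (.c 32 (.c 2105481 (.c 24 .nil))))) .nil) (.X 3 (.c 24 (.c 16 (.c 48 (.c 40 (.c 0 .nil))))) (.b 8 (.b 32 .nil)))) (.node (.X 1 (.c 48 (.c 4673 (.c 16 (.c 0 (.c 40 .nil))))) (.b 32 .nil)) (.X 1 (.c 2718204233 (.c 32 (.c 24 (.c 8 (.c 16 .nil))))) .nil))) (.node (.node (.X 1 (.c 18497 (.c 24 (.c 16 (.c 0 (.c 32 .nil))))) (.b 40 .nil)) (.X 1 (.c 48 (.c 0 (.c 40 (.c 4737 (.c 32 .nil))))) (.b 8 .nil))) (.node (.X 1 (.c 169943433 (.c 40 (.c 16 (.c 8 (.c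 32 .nil))))) .nil) (.X 3 (.c 32 (.c 16 (.c 40 (.c 24 (.c 0 .nil))))) (.b 8 (.b 48 .nil)))))))))

noncomputable def c5_223 : Tr := (.node (.node (.node (.node (.node (.node (.X 1 (.c 2718204233 (.c 24 (.c 32 (.c 16 (.c 8 .nil))))) .nil) (.X 1 (.c 18561 (.c 32 (.c 40 (.c 0 (.c 8 .nil))))) (.b 24 .nil))) (.node (.X 3 (.c 24 (.c 8 (.c 48 (.c 20891651 (.c 32 .nil))))) .nil) (.X 3 (.c 24 (.c 8 (.c 48 (.c 40 (.c 8652803 .nil))))) .nil))) (.node (.node (.X 1 (.c 1310925193 (.c 24 (.c 32 (.c 16 (.c 8 .nil))))) .nil) (.X 1 (.c 48 (.c 32 (.c 33587529 (.c 24 (.c 8 .nil))))) .nil)) (.node (.X 1 (.c 1310925193 (.c 32 (.c 16 (.c 8 (.c 24 .nil))))) .nil) (.X 1 (.c 1310924937 (.c 24 (.c 32 (.c 8 (.c 48 .nil))))) .nil)))) (.node (.node (.node (.X 1 (.c 48 (.c 0 (.c 40 (.c 8385 (.c 16 .nil))))) (.b 8 .nil)) (.X 1 (.c 48 (.c 0 (.c 12929 (.c 32 (.c 24 .nil))))) (.b 8 .nil))) (.node (.X 3 (.c 16 (.c 8 (.c 48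 (.c 21307395 (.c 24 .nil))))) .nil) (.X 3 (.c 16 (.c 8 (.c 48 (.c 21099011 (.c 32 .nil))))) .nil))) (.node (.node (.X 1 (.c 2718204169 (.c 16 (.c 24 (.c 8 (.c 40 .nil))))) .nil) (.X 1 (.c 48 (.c 0 (.c 12993 (.c 16 (.c 8 .nil))))) (.b 32 .nil))) (.node (.X 3 (.c 32 (.c 16 (.c 40 (.c 24 (.c 8 .nil))))) (.l 18433 .nil)) (.X 1 (.c 2718204105 (.c 16 (.c 32 (.c 8 (.c 40 .nil))))) .nil))))) (.node (.node (.node (.node (.X 3 (.c 16 (.c 8 (.c 43954883 (.c 32 (.c 0 .nil))))) .nil) (.X 1 (.c 48 (.c 169943369 (.c 32 (.c 8 (.c 16 .nil))))) .nil)) (.node (.X 1 (.c 40 (.c 8 (.c 537002185 (.c 16 (.c 48 .nil))))) .nil) (.X 3 (.c 16 (.c 8 (.c 43954947 (.c 24 (.c 0 .nil))))) .nil))) (.node (.node (.X 3 (.c 40 (.c 16 (.c 48 (.c 32 (.c 0 .nil))))) (.b 24 (.b 8 .nil))) (.X 3 (.c 16 (.c 8 (.c 43655363 (.c 40 (.c 0 .nil))))) .nil)) (.node (.X 1 (.c 48 (.c 169943113 (.c 40 (.c 32 (.c 16 .nil))))) .nil) (.X 3 (.c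 24 (.c 8 (.c 48 (.c 16 (.c 0 .nil))))) (.b 40 (.b 32 .nil)))))) (.node (.node (.node (.X 3 (.c 16 (.c 8 (.c 43356675 (.c 40 (.c 32 .nil))))) .nil) (.X 1 (.c 1310924873 (.c 32 (.c 24 (.c 16 (.c 48 .nil))))) .nil)) (.node (.X 3 (.c 16 (.c 8 (.c 48 (.c 21307587 (.c 0 .nil))))) .nil) (.X 1 (.c 48 (.c 1310925065 (.c 24 (.c 16 (.c 8 .nil))))) .nil))) (.node (.node (.X 3 (.c 48 (.c 24 (.c 40 (.c 32 (.c 16 .nil))))) (.l 513 .nil)) (.X 1 (.c 40 (.c 24 (.c 537002121 (.c 8 (.c 48 .nil))))) .nil)) (.node (.X 1 (.c 40 (.c 24 (.c 33587465 (.c 8 (.c 48 .nil))))) .nil) (.X 1 (.c 2718204233 (.c 16 (.c 32 (.c 8 (.c 24 .nil))))) .nil)))))) (.node (.node (.node (.node (.node (.X 1 (.c 48 (.c 16 (.c 169943305 (.c 8 (.c 40 .nil))))) .nil) (.X 1 (.c 48 (.c 8 (.c 40 (.c 169943177 (.c 32 .nil))))) .nil)) (.node (.X 1 (.c 48 (.c 33587401 (.c 40 (.c 32 (.c 8 .nil))))) .nil) (.X 1 (.c 48 (.c 8 (.c 40 (.c 33587401 (.c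 32 .nil))))) .nil))) (.node (.node (.X 3 (.c 40 (.c 24 (.c 48 (.c 32 (.c 0 .nil))))) (.b 16 (.b 8 .nil))) (.X 3 (.c 48 (.c 24 (.c 40 (.c 32 (.c 8 .nil))))) (.l 2049 .nil))) (.node (.X 1 (.c 48 (.c 1310924937 (.c 24 (.c 8 (.c 32 .nil))))) .nil) (.X 3 (.c 24 (.c 8 (.c 43954819 (.c 32 (.c 0 .nil))))) .nil)))) (.node (.node (.node (.X 1 (.c 169943369 (.c 8 (.c 32 (.c 16 (.c 48 .nil))))) .nil) (.X 3 (.c 40 (.c 8 (.c 32 (.c 16 (.c 0 .nil))))) (.b 48 (.b 24 .nil)))) (.node (.X 3 (.c 24 (.c 8 (.c 43059203 (.c 40 (.c 32 .nil))))) .nil) (.X 1 (.c 48 (.c 2105545 (.c 40 (.c 16 (.c 32 .nil))))) .nil))) (.node (.node (.X 1 (.c 2105673 (.c 24 (.c 32 (.c 16 (.c 48 .nil))))) .nil) (.X 3 (.c 32 (.c 8 (.c 48 (.c 40 (.c 0 .nil))))) (.b 24 (.b 16 .nil)))) (.node (.X 3 (.c 24 (.c 16 (.c 48 (.c 20685315 (.c 32 .nil))))) .nil) (.X 3 (.c 24 (.c 16 (.c 48 (.c 40 (.c 8520195 .nil))))) .nil))))) (.node (.node (.node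 (.node (.X 3 (.c 40 (.c 8 (.c 32 (.c 16 (.c 0 .nil))))) (.b 24 (.b 48 .nil))) (.X 3 (.c 32 (.c 8 (.c 40 (.c 24 (.c 0 .nil))))) (.b 48 (.b 16 .nil)))) (.node (.X 3 (.c 24 (.c 16 (.c 48 (.c 40 (.c 8 .nil))))) (.l 8193 .nil)) (.X 3 (.c 16 (.c 8 (.c 40 (.c 24 (.c 0 .nil))))) (.b 48 (.b 32 .nil))))) (.node (.node (.X 3 (.c 48 (.c 8 (.c 32 (.c 24 (.c 0 .nil))))) (.b 40 (.b 16 .nil))) (.X 3 (.c 48 (.c 16 (.c 40 (.c 32 (.c 2728451 .nil))))) .nil)) (.node (.X 3 (.c 20891715 (.c 24 (.c 48 (.c 32 (.c 0 .nil))))) .nil) (.X 3 (.c 32 (.c 8 (.c 48 (.c 24 (.c 0 .nil))))) (.b 16 (.b 40 .nil)))))) (.node (.node (.node (.X 3 (.c 43954755 (.c 32 (.c 24 (.c 16 (.c 0 .nil))))) .nil) (.X 3 (.c 48 (.c 16 (.c 32 (.c 24 (.c 0 .nil))))) (.b 8 (.b 40 .nil)))) (.node (.X 3 (.c 24 (.c 8 (.c 32 (.c 16 (.c 0 .nil))))) (.b 40 (.b 48 .nil))) (.X 3 (.c 32 (.c 16 (.c 48 (.c 24 (.c 8 .nil))))) (.l 12801 .nil)))) (.node (.node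 (.X 3 (.c 43059267 (.c 40 (.c 32 (.c 24 (.c 0 .nil))))) .nil) (.X 3 (.c 48 (.c 8 (.c 32 (.c 16 (.c 0 .nil))))) (.b 24 (.b 40 .nil)))) (.node (.X 5 (.c 48 (.c 16 (.c 40 (.c 32 (.c 24 (.c 513 .nil)))))) .nil) (.X 5 (.c 48 (.c 24 (.c 40 (.c 16 (.c 8193 (.c 8 .nil)))))) .nil)))))))

noncomputable def c5_224 : Tr := (.node (.node (.node (.node (.node (.node (.X 5 (.c 48 (.c 40 (.c 32 (.c 16 (.c 24 (.c 513 .nil)))))) .nil) (.X 5 (.c 18433 (.c 40 (.c 32 (.c 24 (.c 16 (.c 8 .nil)))))) .nil)) (.node (.X 5 (.c 48 (.c 2049 (.c 40 (.c 24 (.c 32 (.c 8 .nil)))))) .nil) (.X 5 (.c 48 (.c 8 (.c 12801 (.c 32 (.c 24 (.c 16 .nil)))))) .nil))) (.node (.node (.X 5 (.c 48 (.c 32 (.c 12801 (.c 24 (.c 16 (.c 8 .nil)))))) .nil) (.X 5 (.c 48 (.c 16 (.c 40 (.c 24 (.c 8193 (.c 8 .nil)))))) .nil)) (.node (.X 5 (.c 48 (.c 8 (.c 40 (.c 32 (.c 4609 (.c 16 .nil)))))) .nil) (.X 5 (.c 48 (.c 2049 (.c 40 (.c 8 (.c 32 (.c 24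 .nil)))))) .nil)))) (.node (.node (.node (.X 5 (.c 48 (.c 16 (.c 12801 (.c 8 (.c 32 (.c 24 .nil)))))) .nil) (.X 5 (.c 48 (.c 24 (.c 40 (.c 8 (.c 8193 (.c 16 .nil)))))) .nil)) (.node (.X 5 (.c 48 (.c 16 (.c 40 (.c 8 (.c 32 (.c 4609 .nil)))))) .nil) (.X 5 (.c 18433 (.c 24 (.c 40 (.c 32 (.c 16 (.c 8 .nil)))))) .nil))) (.node (.node (.X 5 (.c 48 (.c 32 (.c 40 (.c 8 (.c 24 (.c 2049 .nil)))))) .nil) (.X 5 (.c 48 (.c 16 (.c 40 (.c 4609 (.c 32 (.c 8 .nil)))))) .nil)) (.node (.X 5 (.c 48 (.c 24 (.c 12801 (.c 32 (.c 16 (.c 8 .nil)))))) .nil) (.X 5 (.c 18433 (.c 16 (.c 40 (.c 32 (.c 24 (.c 8 .nil)))))) .nil))))) (.node (.node (.node (.node (.X 5 (.c 48 (.c 24 (.c 12801 (.c 16 (.c 32 (.c 8 .nil)))))) .nil) (.X 5 (.c 48 (.c 12801 (.c 32 (.c 8 (.c 24 (.c 16 .nil)))))) .nil)) (.node (.X 5 (.c 48 (.c 8 (.c 40 (.c 4609 (.c 32 (.c 16 .nil)))))) .nil) (.X 5 (.c 48 (.c 24 (.c 12801 (.c 8 (.c 32 (.c 16 .nil))))))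 .nil))) (.node (.node (.X 5 (.c 18433 (.c 24 (.c 40 (.c 8 (.c 32 (.c 16 .nil)))))) .nil) (.X 5 (.c 48 (.c 16 (.c 40 (.c 8193 (.c 24 (.c 8 .nil)))))) .nil)) (.node (.X 5 (.c 48 (.c 8 (.c 40 (.c 24 (.c 32 (.c 2049 .nil)))))) .nil) (.X 5 (.c 48 (.c 8 (.c 40 (.c 16 (.c 32 (.c 4609 .nil)))))) .nil)))) (.node (.node (.node (.X 5 (.c 48 (.c 12801 (.c 32 (.c 16 (.c 24 (.c 8 .nil)))))) .nil) (.X 5 (.c 48 (.c 32 (.c 40 (.c 16 (.c 24 (.c 513 .nil)))))) .nil)) (.node (.X 5 (.c 48 (.c 8 (.c 40 (.c 2049 (.c 32 (.c 24 .nil)))))) .nil) (.X 5 (.c 18433 (.c 8 (.c 40 (.c 32 (.c 24 (.c 16 .nil)))))) .nil))) (.node (.node (.X 5 (.c 48 (.c 40 (.c 8193 (.c 16 (.c 24 (.c 8 .nil)))))) .nil) (.X 5 (.c 48 (.c 40 (.c 32 (.c 8 (.c 4609 (.c 16 .nil)))))) .nil)) (.node (.X 5 (.c 48 (.c 8193 (.c 40 (.c 16 (.c 24 (.c 8 .nil)))))) .nil) (.X 5 (.c 48 (.c 24 (.c 40 (.c 8 (.c 32 (.c 2049 .nil)))))) .nil)))))) (.node (.node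 (.node (.node (.node (.X 5 (.c 48 (.c 8 (.c 12801 (.c 24 (.c 32 (.c 16 .nil)))))) .nil) (.X 5 (.c 48 (.c 32 (.c 12801 (.c 8 (.c 24 (.c 16 .nil)))))) .nil)) (.node (.X 5 (.c 48 (.c 24 (.c 40 (.c 2049 (.c 32 (.c 8 .nil)))))) .nil) (.X 5 (.c 48 (.c 40 (.c 32 (.c 4609 (.c 16 (.c 8 .nil)))))) .nil))) (.node (.node (.X 5 (.c 48 (.c 8 (.c 40 (.c 16 (.c 8193 (.c 24 .nil)))))) .nil) (.X 5 (.c 18433 (.c 16 (.c 40 (.c 24 (.c 32 (.c 8 .nil)))))) .nil)) (.node (.X 5 (.c 48 (.c 24 (.c 40 (.c 8193 (.c 16 (.c 8 .nil)))))) .nil) (.X 1 (.c 40 (.c 0 (.c 32 (.c 24 (.c 16 .nil))))) (.t 8 48 .nil))))) (.node (.node (.node (.X 1 (.c 32 (.c 0 (.c 24 (.c 16 (.c 8 .nil))))) (.t 40 48 .nil)) (.X 1 (.c 40 (.c 0 (.c 32 (.c 16 (.c 24 .nil))))) (.t 8 48 .nil))) (.node (.X 1 (.c 32 (.c 0 (.c 24 (.c 8 (.c 16 .nil))))) (.l 18753 .nil)) (.X 1 (.c 48 (.c 0 (.c 32 (.c 24 (.c 8 .nil))))) (.l 12929 .nil)))) (.node (.node (.X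 1 (.c 32 (.c 0 (.c 24 (.c 16 (.c 40 .nil))))) (.l 18497 .nil)) (.X 1 (.c 32 (.c 8 (.c 24 (.c 0 (.c 16 .nil))))) (.t 40 48 .nil))) (.node (.X 1 (.c 48 (.c 16 (.c 32 (.c 0 (.c 24 .nil))))) (.l 12865 .nil)) (.X 1 (.c 48 (.c 16 (.c 24 (.c 0 (.c 32 .nil))))) (.l 12865 .nil)))))) (.node (.node (.node (.node (.X 1 (.c 40 (.c 32 (.c 24 (.c 0 (.c 8 .nil))))) (.l 18561 .nil)) (.X 1 (.c 32 (.c 0 (.c 24 (.c 16 (.c 8 .nil))))) (.l 18753 .nil))) (.node (.X 1 (.c 40 (.c 32 (.c 24 (.c 0 (.c 48 .nil))))) (.l 2113 .nil)) (.X 1 (.c 40 (.c 32 (.c 24 (.c 0 (.c 16 .nil))))) (.t 8 48 .nil)))) (.node (.node (.X 1 (.c 40 (.c 8 (.c 16 (.c 0 (.c 24 .nil))))) (.l 18689 .nil)) (.X 1 (.c 40 (.c 8 (.c 24 (.c 0 (.c 16 .nil))))) (.l 18689 .nil))) (.node (.X 1 (.c 48 (.c 24 (.c 16 (.c 0 (.c 32 .nil))))) (.l 12865 .nil)) (.X 1 (.c 40 (.c 16 (.c 8 (.c 0 (.c 32 .nil))))) (.l 18625 .nil))))) (.node (.node (.node (.X 1 (.c 40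 (.c 24 (.c 32 (.c 0 (.c 48 .nil))))) (.l 2113 .nil)) (.X 1 (.c 40 (.c 0 (.c 16 (.c 8 (.c 48 .nil))))) (.l 8385 .nil))) (.node (.X 1 (.c 48 (.c 16 (.c 40 (.c 0 (.c 32 .nil))))) (.l 4673 .nil)) (.X 1 (.c 48 (.c 24 (.c 32 (.c 0 (.c 16 .nil))))) (.l 12865 .nil)))) (.node (.node (.X 1 (.c 40 (.c 8 (.c 32 (.c 0 (.c 24 .nil))))) (.l 18561 .nil)) (.X 1 (.c 32 (.c 16 (.c 24 (.c 0 (.c 8 .nil))))) (.l 18753 .nil))) (.node (.X 1 (.c 48 (.c 0 (.c 40 (.c 24 (.c 32 .nil))))) (.l 2113 .nil)) (.X 1 (.c 48 (.c 32 (.c 16 (.c 0 (.c 40 .nil))))) (.l 4673 .nil))))))))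

noncomputable def c5_225 : Tr := (.node (.node (.node (.node (.node (.node (.X 1 (.c 48 (.c 16 (.c 32 (.c 0 (.c 40 .nil))))) (.l 4673 .nil)) (.X 1 (.c 48 (.c 0 (.c 40 (.c 32 (.c 8 .nil))))) (.l 4737 .nil))) (.node (.X 1 (.c 48 (.c 8 (.c 32 (.c 0 (.c 40 .nil))))) (.l 4737 .nil)) (.X 1 (.c 40 (.c 8 (.c 32 (.c 0 (.c 48 .nil))))) (.l 4737 .nil)))) (.node (.node (.X 1 (.c 48 (.c 24 (.c 40 (.c 0 (.c 32 .nil))))) (.l 2113 .nil)) (.X 1 (.c 48 (.c 16 (.c 32 (.c 0 (.c 8 .nil))))) (.l 12993 .nil))) (.node (.X 1 (.c 48 (.c 8 (.c 16 (.c 0 (.c 24 .nil))))) (.l 13057 .nil)) (.X 1 (.c 48 (.c 24 (.c 32 (.c 0 (.c 8 .nil))))) (.l 12929 .nil))))) (.node (.node (.node (.X 1 (.c 48 (.c 8 (.c 24 (.c 0 (.c 16 .nil))))) (.l 13057 .nil)) (.X 1 (.c 48 (.c 16 (.c 8 (.c 0 (.c 32 .nil))))) (.l 12993 .nil))) (.node (.X 1 (.c 48 (.c 8 (.c 24 (.c 0 (.c 32 .nil))))) (.l 12929 .nil)) (.X 1 (.c 48 (.c 8 (.c 16 (.c 0 (.c 32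 .nil))))) (.l 12993 .nil)))) (.node (.node (.X 1 (.c 24 (.c 0 (.c 16 (.c 8 (.c 48 .nil))))) (.l 13057 .nil)) (.X 0 (.c 48 (.c 4609 (.c 16 (.c 8 .nil)))) (.l 13057 .nil))) (.node (.X 4 (.c 48 (.c 537002057 (.c 24 (.c 16 (.c 40 .nil))))) .nil) (.X 4 (.c 40 (.c 8786435 (.c 16 (.c 8 (.c 48 .nil))))) .nil))))) (.node (.node (.node (.node (.X 4 (.c 40 (.c 8786499 (.c 16 (.c 0 (.c 48 .nil))))) .nil) (.X 4 (.c 48 (.c 2105609 (.c 24 (.c 16 (.c 40 .nil))))) .nil)) (.node (.X 4 (.c 48 (.c 8652803 (.c 24 (.c 8 (.c 40 .nil))))) .nil) (.X 4 (.c 40 (.c 169943305 (.c 16 (.c 8 (.c 48 .nil))))) .nil))) (.node (.node (.X 0 (.c 18433 (.c 40 (.c 24 (.c 8 .nil)))) (.l 8321 .nil)) (.X 0 (.c 48 (.c 16 (.c 8 (.c 0 .nil)))) (.b 24 (.l 13057 .nil)))) (.node (.X 0 (.c 48 (.c 32 (.c 16 (.c 0 .nil)))) (.b 40 (.l 4673 .nil))) (.X 0 (.c 18433 (.c 24 (.c 16 (.c 8 .nil)))) (.l 13057 .nil))))) (.node (.node (.node (.X 4 (.c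 40 (.c 2105609 (.c 24 (.c 16 (.c 48 .nil))))) .nil) (.X 0 (.c 40 (.c 8193 (.c 24 (.c 16 .nil)))) (.l 18497 .nil))) (.node (.X 4 (.c 40 (.c 8652803 (.c 24 (.c 8 (.c 48 .nil))))) .nil) (.X 4 (.c 48 (.c 8786499 (.c 16 (.c 0 (.c 40 .nil))))) .nil))) (.node (.node (.X 4 (.c 40 (.c 8786563 (.c 8 (.c 0 (.c 48 .nil))))) .nil) (.X 4 (.c 40 (.c 537002057 (.c 24 (.c 16 (.c 48 .nil))))) .nil)) (.node (.X 0 (.c 40 (.c 32 (.c 16 (.c 0 .nil)))) (.b 8 (.l 18625 .nil))) (.X 4 (.c 40 (.c 537002121 (.c 24 (.c 8 (.c 48 .nil))))) .nil)))))) (.node (.node (.node (.node (.node (.X 4 (.c 48 (.c 537002121 (.c 24 (.c 8 (.c 40 .nil))))) .nil) (.X 0 (.c 48 (.c 24 (.c 16 (.c 0 .nil)))) (.b 8 (.l 13057 .nil)))) (.node (.X 0 (.c 40 (.c 24 (.c 16 (.c 0 .nil)))) (.b 32 (.l 18497 .nil))) (.X 0 (.c 40 (.c 24 (.c 8 (.c 0 .nil)))) (.b 48 (.l 8321 .nil))))) (.node (.node (.X 4 (.c 40 (.c 8520195 (.c 24 (.c 16 (.c 48 .nil)))))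 .nil) (.X 0 (.c 48 (.c 12801 (.c 32 (.c 8 .nil)))) (.l 4737 .nil))) (.node (.X 0 (.c 48 (.c 8193 (.c 16 (.c 8 .nil)))) (.l 12993 .nil)) (.X 0 (.c 32 (.c 16 (.c 8 (.c 0 .nil)))) (.b 48 (.l 12993 .nil)))))) (.node (.node (.node (.X 0 (.c 40 (.c 32 (.c 24 (.c 2049 .nil)))) (.l 18497 .nil)) (.X 0 (.c 40 (.c 24 (.c 2049 (.c 8 .nil)))) (.l 18689 .nil))) (.node (.X 4 (.c 40 (.c 16 (.c 8 (.c 0 (.c 43655363 .nil))))) .nil) (.X 0 (.c 12801 (.c 32 (.c 16 (.c 8 .nil)))) (.l 18625 .nil)))) (.node (.node (.X 0 (.c 48 (.c 12801 (.c 16 (.c 8 .nil)))) (.l 8385 .nil)) (.X 4 (.c 48 (.c 21307459 (.c 16 (.c 0 (.c 24 .nil))))) .nil)) (.node (.X 4 (.c 48 (.c 21307523 (.c 8 (.c 0 (.c 24 .nil))))) .nil) (.X 0 (.c 48 (.c 40 (.c 2049 (.c 8 .nil)))) (.l 8385 .nil)))))) (.node (.node (.node (.node (.X 0 (.c 48 (.c 40 (.c 8 (.c 0 .nil)))) (.b 16 (.l 8385 .nil))) (.X 0 (.c 48 (.c 32 (.c 8 (.c 0 .nil)))) (.b 16 (.l 12993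 .nil)))) (.node (.X 4 (.c 21307523 (.c 24 (.c 8 (.c 0 (.c 48 .nil))))) .nil) (.X 4 (.c 43954947 (.c 16 (.c 8 (.c 0 (.c 24 .nil))))) .nil))) (.node (.node (.X 4 (.c 43954819 (.c 32 (.c 8 (.c 0 (.c 24 .nil))))) .nil) (.X 0 (.c 24 (.c 16 (.c 8 (.c 0 .nil)))) (.b 32 (.l 18753 .nil)))) (.node (.X 0 (.c 48 (.c 40 (.c 32 (.c 0 .nil)))) (.b 8 (.l 4737 .nil))) (.X 4 (.c 48 (.c 21099011 (.c 16 (.c 8 (.c 32 .nil))))) .nil)))) (.node (.node (.node (.X 4 (.c 48 (.c 169943369 (.c 16 (.c 8 (.c 32 .nil))))) .nil) (.X 4 (.c 48 (.c 1310925001 (.c 16 (.c 8 (.c 32 .nil))))) .nil)) (.node (.X 0 (.c 48 (.c 24 (.c 8 (.c 0 .nil)))) (.b 32 (.l 12929 .nil))) (.X 0 (.c 48 (.c 24 (.c 16 (.c 0 .nil)))) (.b 40 (.l 8257 .nil))))) (.node (.node (.X 0 (.c 48 (.c 12801 (.c 32 (.c 24 .nil)))) (.l 2113 .nil)) (.X 4 (.c 48 (.c 21099075 (.c 16 (.c 0 (.c 32 .nil))))) .nil)) (.node (.X 0 (.c 40 (.c 32 (.c 8 (.c 0 .nil)))) (.b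 16 (.l 18625 .nil))) (.X 0 (.c 48 (.c 40 (.c 8193 (.c 24 .nil)))) (.l 2113 .nil))))))))

noncomputable def c5_226 : Tr := (.node (.node (.node (.node (.node (.node (.X 0 (.c 48 (.c 40 (.c 32 (.c 4609 .nil)))) (.l 2113 .nil)) (.X 4 (.c 48 (.c 21099139 (.c 8 (.c 0 (.c 32 .nil))))) .nil)) (.node (.X 0 (.c 48 (.c 40 (.c 32 (.c 0 .nil)))) (.b 24 (.l 2113 .nil))) (.X 0 (.c 24 (.c 16 (.c 8 (.c 0 .nil)))) (.b 48 (.l 13057 .nil))))) (.node (.node (.X 4 (.c 537002313 (.c 24 (.c 16 (.c 8 (.c 48 .nil))))) .nil) (.X 4 (.c 21307395 (.c 24 (.c 16 (.c 8 (.c 48 .nil))))) .nil)) (.node (.X 0 (.c 18433 (.c 32 (.c 24 (.c 8 .nil)))) (.l 12929 .nil)) (.X 4 (.c 1310925065 (.c 24 (.c 16 (.c 8 (.c 48 .nil))))) .nil)))) (.node (.node (.node (.X 4 (.c 2718204105 (.c 40 (.c 16 (.c 8 (.c 32 .nil))))) .nil) (.X 4 (.c 169943433 (.c 40 (.c 16 (.c 8 (.c 32 .nil))))) .nil)) (.node (.X 4 (.c 43356675 (.c 40 (.c 16 (.c 8 (.c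 32 .nil))))) .nil) (.X 4 (.c 2718204105 (.c 32 (.c 16 (.c 8 (.c 40 .nil))))) .nil))) (.node (.node (.X 4 (.c 169943433 (.c 32 (.c 16 (.c 8 (.c 40 .nil))))) .nil) (.X 4 (.c 43059267 (.c 40 (.c 24 (.c 0 (.c 32 .nil))))) .nil)) (.node (.X 4 (.c 43059267 (.c 32 (.c 24 (.c 0 (.c 40 .nil))))) .nil) (.X 0 (.c 40 (.c 32 (.c 24 (.c 0 .nil)))) (.b 16 (.l 18497 .nil))))))) (.node (.node (.node (.node (.X 4 (.c 2718204041 (.c 40 (.c 24 (.c 8 (.c 32 .nil))))) .nil) (.X 4 (.c 33587593 (.c 40 (.c 24 (.c 8 (.c 32 .nil))))) .nil)) (.node (.X 4 (.c 43059203 (.c 40 (.c 24 (.c 8 (.c 32 .nil))))) .nil) (.X 4 (.c 2718204041 (.c 32 (.c 24 (.c 8 (.c 40 .nil))))) .nil))) (.node (.node (.X 4 (.c 33587593 (.c 32 (.c 24 (.c 8 (.c 40 .nil))))) .nil) (.X 4 (.c 43059203 (.c 32 (.c 24 (.c 8 (.c 40 .nil))))) .nil)) (.node (.X 4 (.c 42762755 (.c 32 (.c 24 (.c 16 (.c 40 .nil))))) .nil) (.X 4 (.c 2105737 (.c 32 (.c 24 (.c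 16 (.c 40 .nil))))) .nil)))) (.node (.node (.node (.X 4 (.c 2718203977 (.c 40 (.c 24 (.c 16 (.c 32 .nil))))) .nil) (.X 4 (.c 2105737 (.c 40 (.c 24 (.c 16 (.c 32 .nil))))) .nil)) (.node (.X 0 (.c 48 (.c 40 (.c 32 (.c 0 .nil)))) (.b 16 (.l 4673 .nil))) (.X 4 (.c 1310925193 (.c 32 (.c 16 (.c 8 (.c 24 .nil))))) .nil))) (.node (.node (.X 4 (.c 43954691 (.c 32 (.c 16 (.c 8 (.c 24 .nil))))) .nil) (.X 0 (.c 48 (.c 24 (.c 8 (.c 0 .nil)))) (.b 16 (.l 13057 .nil)))) (.node (.X 4 (.c 1310925193 (.c 24 (.c 16 (.c 8 (.c 32 .nil))))) .nil) (.X 4 (.c 43655299 (.c 40 (.c 8 (.c 0 (.c 24 .nil))))) .nil)))))) (.node (.node (.node (.node (.node (.X 4 (.c 43655235 (.c 24 (.c 16 (.c 0 (.c 40 .nil))))) .nil) (.X 0 (.c 32 (.c 24 (.c 8 (.c 0 .nil)))) (.b 40 (.l 18561 .nil)))) (.node (.X 4 (.c 537002377 (.c 24 (.c 16 (.c 8 (.c 40 .nil))))) .nil) (.X 4 (.c 43356803 (.c 40 (.c 8 (.c 0 (.c 32 .nil))))) .nil))) (.node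 (.node (.X 4 (.c 43356803 (.c 32 (.c 8 (.c 0 (.c 40 .nil))))) .nil) (.X 4 (.c 43356739 (.c 40 (.c 16 (.c 0 (.c 32 .nil))))) .nil)) (.node (.X 4 (.c 1310924873 (.c 32 (.c 24 (.c 16 (.c 48 .nil))))) .nil) (.X 0 (.c 40 (.c 32 (.c 16 (.c 0 .nil)))) (.b 24 (.l 18497 .nil)))))) (.node (.node (.node (.X 4 (.c 48 (.c 32 (.c 24 (.c 33587273 (.c 40 .nil))))) .nil) (.X 0 (.c 32 (.c 24 (.c 16 (.c 0 .nil)))) (.b 48 (.l 12865 .nil)))) (.node (.X 0 (.c 40 (.c 24 (.c 16 (.c 0 .nil)))) (.b 48 (.l 8257 .nil))) (.X 4 (.c 40 (.c 32 (.c 24 (.c 2105481 (.c 48 .nil))))) .nil))) (.node (.node (.X 0 (.c 40 (.c 32 (.c 16 (.c 513 .nil)))) (.l 18625 .nil)) (.X 0 (.c 12801 (.c 32 (.c 24 (.c 8 .nil)))) (.l 18561 .nil))) (.node (.X 0 (.c 18433 (.c 32 (.c 24 (.c 16 .nil)))) (.l 12865 .nil)) (.X 0 (.c 32 (.c 24 (.c 16 (.c 513 .nil)))) (.l 18753 .nil)))))) (.node (.node (.node (.node (.X 0 (.c 18433 (.c 40 (.c 32 (.c 16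 .nil)))) (.l 4673 .nil)) (.X 0 (.c 48 (.c 32 (.c 24 (.c 0 .nil)))) (.b 40 (.l 2113 .nil)))) (.node (.X 0 (.c 40 (.c 16 (.c 8 (.c 0 .nil)))) (.b 24 (.l 18689 .nil))) (.X 0 (.c 48 (.c 40 (.c 16 (.c 0 .nil)))) (.b 32 (.l 4673 .nil))))) (.node (.node (.X 0 (.c 40 (.c 24 (.c 8 (.c 0 .nil)))) (.b 16 (.l 18689 .nil))) (.X 0 (.c 48 (.c 32 (.c 4609 (.c 16 .nil)))) (.l 12865 .nil))) (.node (.X 0 (.c 48 (.c 40 (.c 32 (.c 2049 .nil)))) (.l 4673 .nil)) (.X 4 (.c 48 (.c 32 (.c 2803779 (.c 0 (.c 40 .nil))))) .nil)))) (.node (.node (.node (.X 4 (.c 40 (.c 32 (.c 2728451 (.c 16 (.c 48 .nil))))) .nil) (.X 4 (.c 48 (.c 32 (.c 169943177 (.c 8 (.c 40 .nil))))) .nil)) (.node (.X 0 (.c 48 (.c 40 (.c 8193 (.c 16 .nil)))) (.l 4673 .nil)) (.X 4 (.c 48 (.c 32 (.c 33587401 (.c 8 (.c 40 .nil))))) .nil))) (.node (.node (.X 4 (.c 48 (.c 32 (.c 2803715 (.c 8 (.c 40 .nil))))) .nil) (.X 4 (.c 48 (.c 32 (.c 169943113 (.c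 16 (.c 40 .nil))))) .nil)) (.node (.X 0 (.c 48 (.c 12801 (.c 24 (.c 16 .nil)))) (.l 8257 .nil)) (.X 0 (.c 18433 (.c 32 (.c 16 (.c 8 .nil)))) (.l 12993 .nil))))))))

noncomputable def c5_227 : Tr := (.node (.node (.node (.node (.node (.node (.X 4 (.c 48 (.c 32 (.c 2105545 (.c 16 (.c 40 .nil))))) .nil) (.X 4 (.c 48 (.c 32 (.c 2728451 (.c 16 (.c 40 .nil))))) .nil)) (.node (.X 0 (.c 40 (.c 16 (.c 8 (.c 0 .nil)))) (.b 48 (.l 8385 .nil))) (.X 4 (.c 20685315 (.c 32 (.c 24 (.c 16 (.c 48 .nil))))) .nil))) (.node (.node (.X 4 (.c 40 (.c 32 (.c 16 (.c 8 (.c 48 .nil))))) (.l 4609 .nil)) (.X 4 (.c 48 (.c 24 (.c 16 (.c 8 (.c 32 .nil))))) (.l 12801 .nil))) (.node (.X 4 (.c 48 (.c 32 (.c 24 (.c 8 (.c 40 .nil))))) (.l 2049 .nil)) (.X 4 (.c 48 (.c 32 (.c 16 (.c 8 (.c 40 .nil))))) (.l 4609 .nil))))) (.node (.node (.node (.X 4 (.c 33587529 (.c 32 (.c 24 (.c 8 (.c 48 .nil))))) .nil) (.X 4 (.c 40 (.c 32 (.c 24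 (.c 8 (.c 48 .nil))))) (.l 2049 .nil))) (.node (.X 4 (.c 20891715 (.c 32 (.c 24 (.c 0 (.c 48 .nil))))) .nil) (.X 4 (.c 48 (.c 20891715 (.c 24 (.c 0 (.c 32 .nil))))) .nil))) (.node (.node (.X 4 (.c 48 (.c 20685315 (.c 24 (.c 16 (.c 32 .nil))))) .nil) (.X 4 (.c 48 (.c 2105673 (.c 24 (.c 16 (.c 32 .nil))))) .nil)) (.node (.X 4 (.c 48 (.c 1310924873 (.c 24 (.c 16 (.c 32 .nil))))) .nil) (.X 4 (.c 1310924937 (.c 32 (.c 24 (.c 8 (.c 48 .nil))))) .nil))))) (.node (.node (.node (.node (.X 4 (.c 40 (.c 24 (.c 16 (.c 8 (.c 32 .nil))))) (.l 18433 .nil)) (.X 4 (.c 48 (.c 32 (.c 16 (.c 8 (.c 24 .nil))))) (.l 12801 .nil))) (.node (.X 4 (.c 48 (.c 40 (.c 16 (.c 8 (.c 24 .nil))))) (.l 8193 .nil)) (.X 4 (.c 40 (.c 32 (.c 16 (.c 8 (.c 24 .nil))))) (.l 18433 .nil)))) (.node (.node (.X 4 (.c 48 (.c 40 (.c 24 (.c 16 (.c 32 .nil))))) (.l 513 .nil)) (.X 4 (.c 40 (.c 24 (.c 8 (.c 0 (.c 43655299 .nil))))) .nil))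 (.node (.X 4 (.c 48 (.c 40 (.c 2728451 (.c 16 (.c 32 .nil))))) .nil) (.X 4 (.c 43655363 (.c 40 (.c 8 (.c 0 (.c 16 .nil))))) .nil)))) (.node (.node (.node (.X 4 (.c 48 (.c 40 (.c 24 (.c 557571 (.c 32 .nil))))) .nil) (.X 4 (.c 48 (.c 40 (.c 24 (.c 2105481 (.c 32 .nil))))) .nil)) (.node (.X 4 (.c 48 (.c 40 (.c 24 (.c 33587273 (.c 32 .nil))))) .nil) (.X 4 (.c 48 (.c 20685315 (.c 32 (.c 16 (.c 24 .nil))))) .nil))) (.node (.node (.X 4 (.c 48 (.c 40 (.c 2105545 (.c 16 (.c 32 .nil))))) .nil) (.X 4 (.c 48 (.c 40 (.c 8786499 (.c 0 (.c 16 .nil))))) .nil)) (.node (.X 4 (.c 48 (.c 33587529 (.c 32 (.c 8 (.c 24 .nil))))) .nil) (.X 4 (.c 48 (.c 1310925001 (.c 32 (.c 8 (.c 16 .nil))))) .nil)))))) (.node (.node (.node (.node (.node (.X 4 (.c 48 (.c 169943369 (.c 32 (.c 8 (.c 16 .nil))))) .nil) (.X 4 (.c 48 (.c 40 (.c 8 (.c 0 (.c 8786563 .nil))))) .nil)) (.node (.X 4 (.c 48 (.c 20891715 (.c 32 (.c 0 (.c 24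 .nil))))) .nil) (.X 4 (.c 48 (.c 1310924937 (.c 32 (.c 8 (.c 24 .nil))))) .nil))) (.node (.node (.X 4 (.c 48 (.c 20891651 (.c 32 (.c 8 (.c 24 .nil))))) .nil) (.X 4 (.c 48 (.c 2105673 (.c 32 (.c 16 (.c 24 .nil))))) .nil)) (.node (.X 4 (.c 43954947 (.c 24 (.c 8 (.c 0 (.c 16 .nil))))) .nil) (.X 4 (.c 48 (.c 40 (.c 33587401 (.c 8 (.c 32 .nil))))) .nil)))) (.node (.node (.node (.X 4 (.c 48 (.c 40 (.c 8786435 (.c 8 (.c 16 .nil))))) .nil) (.X 4 (.c 48 (.c 40 (.c 169943177 (.c 8 (.c 32 .nil))))) .nil)) (.node (.X 4 (.c 48 (.c 40 (.c 8652867 (.c 0 (.c 24 .nil))))) .nil) (.X 4 (.c 43954755 (.c 32 (.c 24 (.c 0 (.c 16 .nil))))) .nil))) (.node (.node (.X 4 (.c 48 (.c 40 (.c 33587465 (.c 8 (.c 24 .nil))))) .nil) (.X 4 (.c 48 (.c 40 (.c 8652803 (.c 8 (.c 24 .nil))))) .nil)) (.node (.X 4 (.c 43059203 (.c 40 (.c 32 (.c 8 (.c 24 .nil))))) .nil) (.X 4 (.c 169943433 (.c 40 (.c 32 (.c 8 (.c 16 .nil))))) .nil)))))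 (.node (.node (.node (.node (.X 4 (.c 43356675 (.c 40 (.c 32 (.c 8 (.c 16 .nil))))) .nil) (.X 4 (.c 2718204041 (.c 40 (.c 32 (.c 8 (.c 24 .nil))))) .nil)) (.node (.X 4 (.c 2718204105 (.c 40 (.c 32 (.c 8 (.c 16 .nil))))) .nil) (.X 4 (.c 42762755 (.c 40 (.c 32 (.c 16 (.c 24 .nil))))) .nil))) (.node (.node (.X 4 (.c 2718204169 (.c 40 (.c 24 (.c 8 (.c 16 .nil))))) .nil) (.X 4 (.c 537002377 (.c 40 (.c 24 (.c 8 (.c 16 .nil))))) .nil)) (.node (.X 4 (.c 48 (.c 1310925065 (.c 24 (.c 8 (.c 16 .nil))))) .nil) (.X 4 (.c 48 (.c 537002313 (.c 24 (.c 8 (.c 16 .nil))))) .nil)))) (.node (.node (.node (.X 4 (.c 48 (.c 21307395 (.c 24 (.c 8 (.c 16 .nil))))) .nil) (.X 4 (.c 48 (.c 21307587 (.c 8 (.c 0 (.c 16 .nil))))) .nil)) (.node (.X 4 (.c 48 (.c 21099075 (.c 32 (.c 0 (.c 16 .nil))))) .nil) (.X 1 (.c 48 (.c 12801 (.c 24 (.c 2113 (.c 32 .nil))))) .nil))) (.node (.node (.X 4 (.c 48 (.c 21307395 (.c 24 (.c 16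 (.c 8 .nil))))) .nil) (.X 3 (.c 48 (.c 0 (.c 32 (.c 16 (.c 8 .nil))))) (.t 24 40 .nil))) (.node (.X 1 (.c 18433 (.c 40 (.c 8257 (.c 24 (.c 16 .nil))))) .nil) (.X 1 (.c 18433 (.c 40 (.c 8257 (.c 16 (.c 24 .nil))))) .nil)))))))

noncomputable def c5_228 : Tr := (.node (.node (.node (.node (.node (.node (.X 1 (.c 18433 (.c 40 (.c 32 (.c 4737 (.c 8 .nil))))) .nil) (.X 1 (.c 18433 (.c 40 (.c 32 (.c 4673 (.c 16 .nil))))) .nil)) (.node (.X 4 (.c 42762755 (.c 40 (.c 32 (.c 24 (.c 16 .nil))))) .nil) (.X 1 (.c 18433 (.c 32 (.c 12929 (.c 24 (.c 8 .nil))))) .nil))) (.node (.node (.X 4 (.c 48 (.c 21307587 (.c 16 (.c 0 (.c 8 .nil))))) .nil) (.X 3 (.c 8 (.c 0 (.c 48 (.c 32 (.c 24 .nil))))) (.t 16 40 .nil))) (.node (.X 3 (.c 40 (.c 0 (.c 48 (.c 32 (.c 8 .nil))))) (.t 16 24 .nil)) (.X 4 (.c 32 (.c 24 (.c 16 (.c 0 (.c 43954755 .nil))))) .nil)))) (.node (.node (.node (.X 1 (.c 48 (.c 12801 (.c 8257 (.c 24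 (.c 16 .nil))))) .nil) (.X 4 (.c 43059203 (.c 40 (.c 32 (.c 24 (.c 8 .nil))))) .nil)) (.node (.X 1 (.c 48 (.c 12801 (.c 8257 (.c 16 (.c 24 .nil))))) .nil) (.X 4 (.c 43356675 (.c 40 (.c 32 (.c 16 (.c 8 .nil))))) .nil))) (.node (.node (.X 4 (.c 48 (.c 32 (.c 16 (.c 0 (.c 21099075 .nil))))) .nil) (.X 3 (.c 48 (.c 0 (.c 24 (.c 16 (.c 8 .nil))))) (.t 32 40 .nil))) (.node (.X 3 (.c 40 (.c 0 (.c 48 (.c 32 (.c 16 .nil))))) (.t 8 24 .nil)) (.X 4 (.c 48 (.c 32 (.c 24 (.c 0 (.c 20891715 .nil))))) .nil))))) (.node (.node (.node (.node (.X 3 (.c 32 (.c 0 (.c 48 (.c 40 (.c 16 .nil))))) (.t 8 24 .nil)) (.X 3 (.c 8 (.c 0 (.c 48 (.c 40 (.c 16 .nil))))) (.t 24 32 .nil))) (.node (.X 4 (.c 48 (.c 40 (.c 8520195 (.c 24 (.c 16 .nil))))) .nil) (.X 1 (.c 40 (.c 8193 (.c 4673 (.c 16 (.c 48 .nil))))) .nil))) (.node (.node (.X 4 (.c 48 (.c 40 (.c 32 (.c 2728451 (.c 16 .nil))))) .nil) (.X 3 (.c 48 (.c 0 (.c 32 (.c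 24 (.c 8 .nil))))) (.t 16 40 .nil))) (.node (.X 4 (.c 48 (.c 40 (.c 16 (.c 0 (.c 8786499 .nil))))) .nil) (.X 4 (.c 48 (.c 21099011 (.c 32 (.c 16 (.c 8 .nil))))) .nil)))) (.node (.node (.node (.X 3 (.c 32 (.c 0 (.c 48 (.c 24 (.c 8 .nil))))) (.t 16 40 .nil)) (.X 4 (.c 40 (.c 24 (.c 16 (.c 0 (.c 43655235 .nil))))) .nil)) (.node (.X 3 (.c 40 (.c 0 (.c 48 (.c 32 (.c 24 .nil))))) (.t 8 16 .nil)) (.X 4 (.c 48 (.c 40 (.c 8786435 (.c 16 (.c 8 .nil))))) .nil))) (.node (.node (.X 4 (.c 48 (.c 40 (.c 8786563 (.c 0 (.c 8 .nil))))) .nil) (.X 3 (.c 48 (.c 0 (.c 32 (.c 24 (.c 16 .nil))))) (.t 8 40 .nil))) (.node (.X 4 (.c 48 (.c 20685315 (.c 32 (.c 24 (.c 16 .nil))))) .nil) (.X 4 (.c 40 (.c 32 (.c 16 (.c 0 (.c 43356739 .nil))))) .nil)))))) (.node (.node (.node (.node (.node (.X 3 (.c 16 (.c 0 (.c 32 (.c 24 (.c 8 .nil))))) (.t 40 48 .nil)) (.X 4 (.c 43655171 (.c 40 (.c 24 (.c 16 (.c 8 .nil))))) .nil)) (.node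 (.X 4 (.c 43954819 (.c 32 (.c 24 (.c 0 (.c 8 .nil))))) .nil) (.X 4 (.c 43954883 (.c 32 (.c 16 (.c 0 (.c 8 .nil))))) .nil))) (.node (.node (.X 4 (.c 48 (.c 40 (.c 32 (.c 8 (.c 24 .nil))))) (.l 2049 .nil)) (.X 3 (.c 8 (.c 0 (.c 40 (.c 24 (.c 16 .nil))))) (.t 32 48 .nil))) (.node (.X 4 (.c 48 (.c 40 (.c 32 (.c 16 (.c 24 .nil))))) (.l 513 .nil)) (.X 3 (.c 40 (.c 0 (.c 24 (.c 16 (.c 8 .nil))))) (.t 32 48 .nil))))) (.node (.node (.node (.X 3 (.c 8 (.c 0 (.c 40 (.c 32 (.c 16 .nil))))) (.t 24 48 .nil)) (.X 4 (.c 43655363 (.c 40 (.c 16 (.c 0 (.c 8 .nil))))) .nil)) (.node (.X 3 (.c 32 (.c 0 (.c 40 (.c 24 (.c 8 .nil))))) (.t 16 48 .nil)) (.X 3 (.c 24 (.c 0 (.c 32 (.c 16 (.c 8 .nil))))) (.t 40 48 .nil)))) (.node (.node (.X 3 (.c 8 (.c 0 (.c 32 (.c 24 (.c 16 .nil))))) (.t 40 48 .nil)) (.X 4 (.c 43655299 (.c 40 (.c 24 (.c 0 (.c 8 .nil))))) .nil)) (.node (.X 3 (.c 12801 (.c 8 (.c 48 (.c 32 (.c 24 .nil)))))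 (.b 16 .nil)) (.X 3 (.c 4609 (.c 16 (.c 40 (.c 32 (.c 8 .nil))))) (.b 48 .nil)))))) (.node (.node (.node (.node (.X 3 (.c 40 (.c 2049 (.c 32 (.c 24 (.c 8 .nil))))) (.b 48 .nil)) (.X 3 (.c 40 (.c 8193 (.c 24 (.c 16 (.c 8 .nil))))) (.b 48 .nil))) (.node (.X 3 (.c 32 (.c 4609 (.c 40 (.c 16 (.c 8 .nil))))) (.b 48 .nil)) (.X 3 (.c 40 (.c 513 (.c 48 (.c 32 (.c 24 .nil))))) (.b 16 .nil)))) (.node (.node (.X 3 (.c 48 (.c 8193 (.c 40 (.c 24 (.c 16 .nil))))) (.b 8 .nil)) (.X 3 (.c 48 (.c 2049 (.c 40 (.c 32 (.c 24 .nil))))) (.b 8 .nil))) (.node (.X 3 (.c 12801 (.c 32 (.c 48 (.c 24 (.c 16 .nil))))) (.b 8 .nil)) (.X 3 (.c 12801 (.c 24 (.c 48 (.c 32 (.c 16 .nil))))) (.b 8 .nil))))) (.node (.node (.node (.X 3 (.c 12801 (.c 16 (.c 48 (.c 32 (.c 24 .nil))))) (.b 8 .nil)) (.X 3 (.c 18433 (.c 24 (.c 40 (.c 16 (.c 8 .nil))))) (.b 32 .nil))) (.node (.X 3 (.c 40 (.c 8193 (.c 48 (.c 24 (.c 16 .nil))))) (.b 8 .nil))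 (.X 3 (.c 32 (.c 513 (.c 48 (.c 24 (.c 16 .nil))))) (.b 40 .nil)))) (.node (.node (.X 3 (.c 4609 (.c 16 (.c 48 (.c 32 (.c 8 .nil))))) (.b 40 .nil)) (.X 3 (.c 18433 (.c 40 (.c 32 (.c 24 (.c 8 .nil))))) (.b 16 .nil))) (.node (.X 3 (.c 48 (.c 12801 (.c 32 (.c 24 (.c 8 .nil))))) (.b 16 .nil)) (.X 3 (.c 48 (.c 4609 (.c 32 (.c 16 (.c 8 .nil))))) (.b 40 .nil))))))))

noncomputable def c5_229 : Tr := (.node (.node (.node (.node (.node (.node (.X 3 (.c 48 (.c 8193 (.c 24 (.c 16 (.c 8 .nil))))) (.b 40 .nil)) (.X 3 (.c 12801 (.c 8 (.c 48 (.c 24 (.c 16 .nil))))) (.b 32 .nil))) (.node (.X 3 (.c 12801 (.c 32 (.c 48 (.c 16 (.c 8 .nil))))) (.b 24 .nil)) (.X 3 (.c 48 (.c 12801 (.c 32 (.c 16 (.c 8 .nil))))) (.b 24 .nil)))) (.node (.node (.X 0 (.c 40 (.c 32 (.c 4673 (.c 2049 .nil)))) (.l 48 .nil)) (.X 0 (.c 18561 (.c 32 (.c 24 (.c 0 .nil)))) (.b 40 (.l 8 .nil)))) (.node (.X 0 (.c 48 (.c 8257 (.c 4609 (.c 16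 .nil)))) (.l 40 .nil)) (.X 0 (.c 48 (.c 8193 (.c 24 (.c 2113 .nil)))) (.l 40 .nil))))) (.node (.node (.node (.X 0 (.c 40 (.c 32 (.c 4673 (.c 0 .nil)))) (.b 48 (.l 16 .nil))) (.X 0 (.c 174695753 (.c 32 (.c 16 (.c 0 .nil)))) (.b 48 .nil))) (.node (.X 0 (.c 48 (.c 32 (.c 35718345 (.c 0 .nil)))) (.b 40 .nil)) (.X 0 (.c 12865 (.c 32 (.c 24 (.c 2049 .nil)))) (.l 48 .nil)))) (.node (.node (.X 0 (.c 12801 (.c 8257 (.c 24 (.c 16 .nil)))) (.l 48 .nil)) (.X 0 (.c 18497 (.c 32 (.c 24 (.c 0 .nil)))) (.b 40 (.l 16 .nil)))) (.node (.X 0 (.c 48 (.c 545424521 (.c 24 (.c 0 .nil)))) (.b 40 .nil)) (.X 0 (.c 18433 (.c 8257 (.c 24 (.c 16 .nil)))) (.l 40 .nil)))))) (.node (.node (.node (.node (.X 0 (.c 18433 (.c 32 (.c 4673 (.c 16 .nil)))) (.l 40 .nil)) (.X 0 (.c 48 (.c 545424585 (.c 16 (.c 0 .nil)))) (.b 40 .nil))) (.node (.X 0 (.c 48 (.c 40 (.c 4609 (.c 2113 .nil)))) (.l 32 .nil)) (.X 0 (.c 48 (.c 40 (.c 4673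 (.c 2049 .nil)))) (.l 32 .nil)))) (.node (.node (.X 5 (.c 48 (.c 24 (.c 40 (.c 0 (.c 32 (.c 2113 .nil)))))) .nil) (.X 0 (.c 48 (.c 40 (.c 545424521 (.c 4609 .nil)))) .nil)) (.node (.X 0 (.c 48 (.c 40 (.c 545424585 (.c 2049 .nil)))) .nil) (.X 5 (.c 48 (.c 2113 (.c 40 (.c 32 (.c 24 (.c 0 .nil)))))) .nil)))) (.node (.node (.node (.X 0 (.c 48 (.c 40 (.c 174695561 (.c 0 .nil)))) (.b 32 .nil)) (.X 0 (.c 48 (.c 12801 (.c 24 (.c 2113 .nil)))) (.l 32 .nil))) (.node (.X 0 (.c 48 (.c 40 (.c 8193 (.c 35718345 .nil)))) .nil) (.X 5 (.c 48 (.c 24 (.c 12865 (.c 32 (.c 16 (.c 0 .nil)))))) .nil))) (.node (.node (.X 0 (.c 48 (.c 40 (.c 8193 (.c 4673 .nil)))) (.l 16 .nil)) (.X 0 (.c 48 (.c 40 (.c 35718409 (.c 4609 .nil)))) .nil)) (.node (.X 5 (.c 48 (.c 24 (.c 40 (.c 8321 (.c 8 (.c 0 .nil)))))) .nil) (.X 0 (.c 48 (.c 35718473 (.c 24 (.c 0 .nil)))) (.b 32 .nil))))))) (.node (.node (.node (.node (.node (.X 0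 (.c 48 (.c 1324065929 (.c 24 (.c 0 .nil)))) (.b 32 .nil)) (.X 0 (.c 18433 (.c 40 (.c 35718409 (.c 24 .nil)))) .nil)) (.node (.X 5 (.c 48 (.c 16 (.c 40 (.c 4673 (.c 32 (.c 0 .nil)))))) .nil) (.X 0 (.c 48 (.c 12801 (.c 4673 (.c 16 .nil)))) (.l 32 .nil)))) (.node (.node (.X 0 (.c 18433 (.c 40 (.c 32 (.c 174695561 .nil)))) .nil) (.X 0 (.c 18625 (.c 40 (.c 32 (.c 0 .nil)))) (.b 8 (.l 16 .nil)))) (.node (.X 0 (.c 48 (.c 12865 (.c 24 (.c 2049 .nil)))) (.l 32 .nil)) (.X 0 (.c 48 (.c 12801 (.c 32 (.c 4673 .nil)))) (.l 16 .nil))))) (.node (.node (.node (.X 5 (.c 48 (.c 32 (.c 12865 (.c 24 (.c 16 (.c 0 .nil)))))) .nil) (.X 5 (.c 48 (.c 32 (.c 12865 (.c 16 (.c 24 (.c 0 .nil)))))) .nil)) (.node (.X 0 (.c 18625 (.c 40 (.c 32 (.c 513 .nil)))) (.l 16 .nil)) (.X 0 (.c 2737112201 (.c 40 (.c 8193 (.c 24 .nil)))) .nil))) (.node (.node (.X 5 (.c 48 (.c 32 (.c 40 (.c 4737 (.c 8 (.c 0 .nil)))))) .nil) (.X 0 (.c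 35718537 (.c 40 (.c 32 (.c 4609 .nil)))) .nil)) (.node (.X 0 (.c 18497 (.c 12801 (.c 32 (.c 24 .nil)))) (.l 16 .nil)) (.X 5 (.c 48 (.c 32 (.c 40 (.c 2113 (.c 24 (.c 0 .nil)))))) .nil))))) (.node (.node (.node (.node (.X 0 (.c 18497 (.c 40 (.c 8193 (.c 24 .nil)))) (.l 16 .nil)) (.X 0 (.c 2737112329 (.c 40 (.c 24 (.c 0 .nil)))) (.b 16 .nil))) (.node (.X 5 (.c 48 (.c 8257 (.c 40 (.c 16 (.c 24 (.c 0 .nil)))))) .nil) (.X 5 (.c 48 (.c 32 (.c 12929 (.c 24 (.c 8 (.c 0 .nil)))))) .nil))) (.node (.node (.X 0 (.c 18497 (.c 40 (.c 24 (.c 0 .nil)))) (.b 32 (.l 16 .nil))) (.X 0 (.c 18561 (.c 40 (.c 24 (.c 0 .nil)))) (.b 32 (.l 8 .nil)))) (.node (.X 5 (.c 48 (.c 4673 (.c 40 (.c 32 (.c 16 (.c 0 .nil)))))) .nil) (.X 5 (.c 48 (.c 4673 (.c 40 (.c 16 (.c 32 (.c 0 .nil)))))) .nil)))) (.node (.node (.node (.X 5 (.c 48 (.c 32 (.c 40 (.c 0 (.c 4673 (.c 16 .nil)))))) .nil) (.X 5 (.c 48 (.c 4737 (.c 40 (.c 32 (.c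 8 (.c 0 .nil)))))) .nil)) (.node (.X 0 (.c 48 (.c 12801 (.c 32 (.c 2113 .nil)))) (.l 24 .nil)) (.X 5 (.c 48 (.c 0 (.c 40 (.c 4673 (.c 32 (.c 16 .nil)))))) .nil))) (.node (.node (.X 0 (.c 48 (.c 40 (.c 8257 (.c 2049 .nil)))) (.l 24 .nil)) (.X 0 (.c 1337272713 (.c 32 (.c 24 (.c 513 .nil)))) .nil)) (.node (.X 5 (.c 48 (.c 0 (.c 40 (.c 2113 (.c 32 (.c 24 .nil)))))) .nil) (.X 0 (.c 48 (.c 12865 (.c 8193 (.c 16 .nil)))) (.l 24 .nil))))))))

noncomputable def c5_230 : Tr := (.node (.node (.node (.node (.node (.node (.X 5 (.c 48 (.c 0 (.c 40 (.c 24 (.c 32 (.c 2113 .nil)))))) .nil) (.X 0 (.c 48 (.c 12929 (.c 32 (.c 0 .nil)))) (.b 24 (.l 8 .nil)))) (.node (.X 0 (.c 48 (.c 40 (.c 8321 (.c 0 .nil)))) (.b 24 (.l 8 .nil))) (.X 5 (.c 48 (.c 0 (.c 40 (.c 32 (.c 4673 (.c 16 .nil)))))) .nil))) (.node (.node (.X 5 (.c 48 (.c 0 (.c 12865 (.c 24 (.c 32 (.c 16 .nil)))))) .nil) (.X 5 (.c 48 (.c 0 (.c 12865 (.c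 32 (.c 24 (.c 16 .nil)))))) .nil)) (.node (.X 0 (.c 48 (.c 179513673 (.c 32 (.c 513 .nil)))) .nil) (.X 0 (.c 48 (.c 1337272521 (.c 32 (.c 513 .nil)))) .nil)))) (.node (.node (.node (.X 5 (.c 48 (.c 16 (.c 40 (.c 0 (.c 32 (.c 4673 .nil)))))) .nil) (.X 5 (.c 48 (.c 16 (.c 40 (.c 0 (.c 8257 (.c 24 .nil)))))) .nil)) (.node (.X 5 (.c 48 (.c 12865 (.c 32 (.c 24 (.c 16 (.c 0 .nil)))))) .nil) (.X 5 (.c 18497 (.c 16 (.c 40 (.c 0 (.c 32 (.c 24 .nil)))))) .nil))) (.node (.node (.X 5 (.c 48 (.c 40 (.c 8257 (.c 24 (.c 16 (.c 0 .nil)))))) .nil) (.X 5 (.c 48 (.c 40 (.c 32 (.c 4673 (.c 16 (.c 0 .nil)))))) .nil)) (.node (.X 5 (.c 48 (.c 40 (.c 32 (.c 4737 (.c 8 (.c 0 .nil)))))) .nil) (.X 5 (.c 48 (.c 40 (.c 8257 (.c 16 (.c 24 (.c 0 .nil)))))) .nil))))) (.node (.node (.node (.node (.X 5 (.c 48 (.c 40 (.c 8321 (.c 24 (.c 8 (.c 0 .nil)))))) .nil) (.X 5 (.c 18561 (.c 40 (.c 32 (.c 24 (.c 8 (.c 0 .nil)))))) .nil))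 (.node (.X 5 (.c 18561 (.c 24 (.c 40 (.c 32 (.c 8 (.c 0 .nil)))))) .nil) (.X 5 (.c 18497 (.c 16 (.c 40 (.c 32 (.c 24 (.c 0 .nil)))))) .nil))) (.node (.node (.X 5 (.c 18497 (.c 24 (.c 40 (.c 0 (.c 32 (.c 16 .nil)))))) .nil) (.X 5 (.c 18497 (.c 24 (.c 40 (.c 16 (.c 32 (.c 0 .nil)))))) .nil)) (.node (.X 5 (.c 18497 (.c 24 (.c 40 (.c 32 (.c 16 (.c 0 .nil)))))) .nil) (.X 5 (.c 18497 (.c 32 (.c 40 (.c 16 (.c 24 (.c 0 .nil)))))) .nil)))) (.node (.node (.node (.X 5 (.c 18497 (.c 40 (.c 32 (.c 16 (.c 24 (.c 0 .nil)))))) .nil) (.X 1 (.c 18561 (.c 24 (.c 32 (.c 513 (.c 40 .nil))))) .nil)) (.node (.X 5 (.c 48 (.c 8321 (.c 40 (.c 0 (.c 24 (.c 8 .nil)))))) .nil) (.X 5 (.c 18689 (.c 40 (.c 24 (.c 8 (.c 16 (.c 0 .nil)))))) .nil))) (.node (.node (.X 5 (.c 48 (.c 12993 (.c 32 (.c 8 (.c 16 (.c 0 .nil)))))) .nil) (.X 5 (.c 18625 (.c 32 (.c 40 (.c 16 (.c 8 (.c 0 .nil)))))) .nil)) (.node (.X 5 (.c 48 (.c 13057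 (.c 24 (.c 8 (.c 16 (.c 0 .nil)))))) .nil) (.X 5 (.c 48 (.c 8 (.c 12929 (.c 32 (.c 24 (.c 0 .nil)))))) .nil)))))) (.node (.node (.node (.node (.node (.X 5 (.c 18689 (.c 40 (.c 24 (.c 0 (.c 16 (.c 8 .nil)))))) .nil) (.X 5 (.c 48 (.c 8 (.c 40 (.c 8321 (.c 24 (.c 0 .nil)))))) .nil)) (.node (.X 5 (.c 48 (.c 16 (.c 12993 (.c 32 (.c 8 (.c 0 .nil)))))) .nil) (.X 5 (.c 48 (.c 12929 (.c 32 (.c 0 (.c 24 (.c 8 .nil)))))) .nil))) (.node (.node (.X 5 (.c 18625 (.c 40 (.c 32 (.c 16 (.c 8 (.c 0 .nil)))))) .nil) (.X 5 (.c 48 (.c 0 (.c 12929 (.c 32 (.c 24 (.c 8 .nil)))))) .nil)) (.node (.X 5 (.c 48 (.c 0 (.c 40 (.c 8 (.c 32 (.c 4737 .nil)))))) .nil) (.X 3 (.c 32 (.c 8 (.c 48 (.c 24 (.c 16 .nil))))) (.b 12801 .nil))))) (.node (.node (.node (.X 3 (.c 24 (.c 8 (.c 48 (.c 32 (.c 16 .nil))))) (.t 0 40 .nil)) (.X 3 (.c 48 (.c 8 (.c 32 (.c 24 (.c 16 .nil))))) (.t 0 40 .nil))) (.node (.X 3 (.c 40 (.c 16 (.c 48 (.c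 32 (.c 24 .nil))))) (.t 0 8 .nil)) (.X 3 (.c 40 (.c 8 (.c 48 (.c 32 (.c 16 .nil))))) (.b 0 (.b 24 .nil))))) (.node (.node (.X 3 (.c 16 (.c 8 (.c 48 (.c 32 (.c 24 .nil))))) (.t 0 40 .nil)) (.X 3 (.c 24 (.c 8 (.c 48 (.c 40 (.c 16 .nil))))) (.t 0 32 .nil))) (.node (.X 3 (.c 24 (.c 8 (.c 40 (.c 32 (.c 16 .nil))))) (.b 0 (.b 48 .nil))) (.X 3 (.c 24 (.c 0 (.c 48 (.c 40 (.c 32 .nil))))) (.l 2113 .nil)))))) (.node (.node (.node (.node (.X 3 (.c 32 (.c 0 (.c 48 (.c 40 (.c 24 .nil))))) (.l 2113 .nil)) (.X 3 (.c 48 (.c 0 (.c 32 (.c 24 (.c 16 .nil))))) (.l 12865 .nil))) (.node (.X 3 (.c 32 (.c 0 (.c 48 (.c 24 (.c 16 .nil))))) (.l 12865 .nil)) (.X 3 (.c 48 (.c 0 (.c 32 (.c 24 (.c 8 .nil))))) (.l 12929 .nil)))) (.node (.node (.X 3 (.c 16 (.c 0 (.c 48 (.c 40 (.c 8 .nil))))) (.l 8385 .nil)) (.X 3 (.c 8 (.c 0 (.c 48 (.c 40 (.c 16 .nil))))) (.l 8385 .nil))) (.node (.X 3 (.c 40 (.c 0 (.c 32 (.c 24 (.c 8 .nil)))))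 (.l 18561 .nil)) (.X 3 (.c 24 (.c 0 (.c 40 (.c 32 (.c 16 .nil))))) (.l 18497 .nil))))) (.node (.node (.node (.X 3 (.c 16 (.c 0 (.c 48 (.c 24 (.c 8 .nil))))) (.l 13057 .nil)) (.X 3 (.c 24 (.c 0 (.c 48 (.c 32 (.c 8 .nil))))) (.l 12929 .nil))) (.node (.X 3 (.c 40 (.c 0 (.c 32 (.c 24 (.c 16 .nil))))) (.l 18497 .nil)) (.X 3 (.c 48 (.c 0 (.c 32 (.c 16 (.c 8 .nil))))) (.l 12993 .nil)))) (.node (.node (.X 3 (.c 8 (.c 0 (.c 48 (.c 32 (.c 16 .nil))))) (.l 12993 .nil)) (.X 3 (.c 48 (.c 0 (.c 24 (.c 16 (.c 8 .nil))))) (.l 13057 .nil))) (.node (.X 3 (.c 16 (.c 0 (.c 40 (.c 24 (.c 8 .nil))))) (.l 18689 .nil)) (.X 3 (.c 24 (.c 0 (.c 40 (.c 16 (.c 8 .nil))))) (.l 18689 .nil))))))))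

noncomputable def c5_231 : Tr := (.node (.node (.node (.node (.node (.node (.X 3 (.c 32 (.c 0 (.c 48 (.c 40 (.c 16 .nil))))) (.l 4673 .nil)) (.X 3 (.c 40 (.c 0 (.c 48 (.c 32 (.c 16 .nil))))) (.l 4673 .nil))) (.node (.X 3 (.c 40 (.c 0 (.c 48 (.c 32 (.c 8 .nil))))) (.l 4737 .nil)) (.X 3 (.c 8 (.c 0 (.c 48 (.c 40 (.c 32 .nil))))) (.l 4737 .nil)))) (.node (.node (.X 3 (.c 24 (.c 0 (.c 32 (.c 16 (.c 8 .nil))))) (.l 18753 .nil)) (.X 3 (.c 32 (.c 0 (.c 24 (.c 16 (.c 8 .nil))))) (.l 18753 .nil))) (.node (.X 3 (.c 16 (.c 0 (.c 48 (.c 40 (.c 24 .nil))))) (.l 8257 .nil)) (.X 3 (.c 40 (.c 0 (.c 48 (.c 24 (.c 16 .nil))))) (.l 8257 .nil))))) (.node (.node (.node (.X 3 (.c 40 (.c 0 (.c 48 (.c 24 (.c 8 .nil))))) (.l 8321 .nil)) (.X 3 (.c 32 (.c 0 (.c 40 (.c 24 (.c 8 .nil))))) (.l 18561 .nil))) (.node (.X 3 (.c 24 (.c 0 (.c 48 (.c 40 (.c 8 .nil))))) (.l 8321 .nil)) (.X 3 (.c 8 (.c 0 (.c 40 (.c 32 (.c 16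 .nil))))) (.l 18625 .nil)))) (.node (.node (.X 3 (.c 32 (.c 0 (.c 40 (.c 16 (.c 8 .nil))))) (.l 18625 .nil)) (.X 0 (.c 40 (.c 24 (.c 8 (.c 0 .nil)))) (.l 2756086025 .nil))) (.node (.X 0 (.c 40 (.c 16 (.c 8 (.c 0 .nil)))) (.l 562466185 .nil)) (.X 0 (.c 48 (.c 32 (.c 8 (.c 0 .nil)))) (.l 1337272521 .nil)))))) (.node (.node (.node (.node (.X 0 (.c 48 (.c 40 (.c 24 (.c 0 .nil)))) (.l 35718409 .nil)) (.X 0 (.c 48 (.c 40 (.c 24 (.c 0 .nil)))) (.l 545424521 .nil))) (.node (.X 0 (.c 48 (.c 40 (.c 16 (.c 0 .nil)))) (.l 545424585 .nil)) (.X 0 (.c 40 (.c 24 (.c 8 (.c 0 .nil)))) (.l 553912713 .nil)))) (.node (.node (.X 0 (.c 48 (.c 40 (.c 8 (.c 0 .nil)))) (.l 553912521 .nil)) (.X 0 (.c 48 (.c 40 (.c 8 (.c 0 .nil)))) (.l 179513609 .nil))) (.node (.X 0 (.c 40 (.c 16 (.c 8 (.c 0 .nil)))) (.l 2775125257 .nil)) (.X 0 (.c 32 (.c 24 (.c 16 (.c 0 .nil)))) (.l 1324066185 .nil))))) (.node (.node (.node (.X 0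 (.c 48 (.c 32 (.c 24 (.c 0 .nil)))) (.l 35718473 .nil)) (.X 0 (.c 32 (.c 16 (.c 8 (.c 0 .nil)))) (.l 1350544777 .nil))) (.node (.X 0 (.c 40 (.c 32 (.c 16 (.c 0 .nil)))) (.l 174695817 .nil)) (.X 0 (.c 40 (.c 32 (.c 16 (.c 0 .nil)))) (.l 2737112265 .nil)))) (.node (.node (.X 0 (.c 48 (.c 16 (.c 8 (.c 0 .nil)))) (.l 562466121 .nil)) (.X 0 (.c 48 (.c 16 (.c 8 (.c 0 .nil)))) (.l 1350544649 .nil))) (.node (.X 0 (.c 24 (.c 16 (.c 8 (.c 0 .nil)))) (.l 1363882377 .nil)) (.X 0 (.c 48 (.c 40 (.c 32 (.c 0 .nil)))) (.l 35718345 .nil))))))) (.node (.node (.node (.node (.node (.X 0 (.c 32 (.c 24 (.c 2113 (.c 0 .nil)))) (.l 18753 .nil)) (.X 0 (.c 12929 (.c 32 (.c 24 (.c 0 .nil)))) (.l 18497 .nil))) (.node (.X 0 (.c 48 (.c 4673 (.c 16 (.c 0 .nil)))) (.l 13057 .nil)) (.X 0 (.c 40 (.c 8321 (.c 24 (.c 0 .nil)))) (.l 18497 .nil)))) (.node (.node (.X 0 (.c 18497 (.c 40 (.c 32 (.c 0 .nil)))) (.l 4737 .nil)) (.X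 0 (.c 40 (.c 8257 (.c 24 (.c 0 .nil)))) (.l 18561 .nil))) (.node (.X 0 (.c 48 (.c 40 (.c 8321 (.c 0 .nil)))) (.l 4673 .nil)) (.X 0 (.c 18561 (.c 40 (.c 32 (.c 0 .nil)))) (.l 4673 .nil))))) (.node (.node (.node (.X 0 (.c 18561 (.c 32 (.c 24 (.c 0 .nil)))) (.l 12865 .nil)) (.X 0 (.c 48 (.c 12865 (.c 16 (.c 0 .nil)))) (.l 8385 .nil))) (.node (.X 0 (.c 48 (.c 40 (.c 4673 (.c 0 .nil)))) (.l 8321 .nil)) (.X 0 (.c 40 (.c 4673 (.c 16 (.c 0 .nil)))) (.l 18689 .nil)))) (.node (.node (.X 0 (.c 40 (.c 24 (.c 2113 (.c 0 .nil)))) (.l 18689 .nil)) (.X 2 (.c 48 (.c 40 (.c 32 (.c 0 (.c 16 .nil))))) (.b 4673 .nil))) (.node (.X 2 (.c 48 (.c 32 (.c 16 (.c 0 (.c 40 .nil))))) (.b 4673 .nil)) (.X 2 (.c 40 (.c 32 (.c 24 (.c 0 (.c 48 .nil))))) (.b 2113 .nil)))))) (.node (.node (.node (.node (.X 2 (.c 48 (.c 0 (.c 40 (.c 32 (.c 16 .nil))))) (.b 4673 .nil)) (.X 2 (.c 48 (.c 32 (.c 24 (.c 0 (.c 40 .nil))))) (.b 2113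 .nil))) (.node (.X 4 (.c 48 (.c 12865 (.c 24 (.c 2049 (.c 32 .nil))))) .nil) (.X 4 (.c 18433 (.c 12865 (.c 24 (.c 16 (.c 32 .nil))))) .nil))) (.node (.node (.X 4 (.c 48 (.c 12865 (.c 4609 (.c 16 (.c 32 .nil))))) .nil) (.X 4 (.c 48 (.c 12801 (.c 8257 (.c 16 (.c 24 .nil))))) .nil)) (.node (.X 4 (.c 48 (.c 12801 (.c 4673 (.c 16 (.c 32 .nil))))) .nil) (.X 4 (.c 40 (.c 32 (.c 4609 (.c 2113 (.c 48 .nil))))) .nil)))) (.node (.node (.node (.X 4 (.c 12801 (.c 32 (.c 24 (.c 2113 (.c 48 .nil))))) .nil) (.X 4 (.c 18433 (.c 8257 (.c 24 (.c 16 (.c 40 .nil))))) .nil)) (.node (.X 4 (.c 48 (.c 32 (.c 4609 (.c 2113 (.c 40 .nil))))) .nil) (.X 4 (.c 18433 (.c 40 (.c 24 (.c 2113 (.c 32 .nil))))) .nil))) (.node (.node (.X 4 (.c 48 (.c 8193 (.c 4673 (.c 16 (.c 40 .nil))))) .nil) (.X 4 (.c 18497 (.c 40 (.c 24 (.c 2049 (.c 32 .nil))))) .nil)) (.node (.X 4 (.c 48 (.c 32 (.c 4673 (.c 2049 (.c 40 .nil))))) .nil) (.X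 4 (.c 18497 (.c 8193 (.c 24 (.c 16 (.c 40 .nil))))) .nil)))))))

noncomputable def c5_232 : Tr := (.node (.node (.node (.node (.node (.node (.X 4 (.c 18497 (.c 40 (.c 8193 (.c 16 (.c 24 .nil))))) .nil) (.X 4 (.c 18433 (.c 12865 (.c 32 (.c 16 (.c 24 .nil))))) .nil)) (.node (.X 4 (.c 12865 (.c 32 (.c 4609 (.c 16 (.c 48 .nil))))) .nil) (.X 4 (.c 48 (.c 8257 (.c 24 (.c 2049 (.c 40 .nil))))) .nil))) (.node (.node (.X 2 (.c 48 (.c 40 (.c 8 (.c 0 (.c 24 .nil))))) (.b 8321 .nil)) (.X 2 (.c 48 (.c 24 (.c 40 (.c 0 (.c 16 .nil))))) (.b 8257 .nil))) (.node (.X 2 (.c 48 (.c 40 (.c 16 (.c 0 (.c 24 .nil))))) (.l 8257 .nil)) (.X 2 (.c 40 (.c 16 (.c 24 (.c 0 (.c 48 .nil))))) (.b 8257 .nil))))) (.node (.node (.node (.X 2 (.c 40 (.c 24 (.c 16 (.c 0 (.c 48 .nil))))) (.b 8257 .nil)) (.X 2 (.c 32 (.c 24 (.c 16 (.c 0 (.c 48 .nil))))) (.l 12865 .nil))) (.node (.X 2 (.c 48 (.c 24 (.c 16 (.c 0 (.c 32 .nil))))) (.b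 12865 .nil)) (.X 2 (.c 48 (.c 24 (.c 32 (.c 0 (.c 16 .nil))))) (.b 12865 .nil)))) (.node (.node (.X 2 (.c 32 (.c 0 (.c 24 (.c 16 (.c 40 .nil))))) (.l 18497 .nil)) (.X 2 (.c 32 (.c 16 (.c 24 (.c 0 (.c 40 .nil))))) (.l 18497 .nil))) (.node (.X 2 (.c 48 (.c 1310924937 (.c 32 (.c 8 (.c 24 .nil))))) .nil) (.X 2 (.c 48 (.c 1310924937 (.c 24 (.c 8 (.c 32 .nil))))) .nil))))) (.node (.node (.node (.node (.X 2 (.c 48 (.c 33587529 (.c 32 (.c 8 (.c 24 .nil))))) .nil) (.X 2 (.c 48 (.c 169943369 (.c 16 (.c 8 (.c 32 .nil))))) .nil)) (.node (.X 2 (.c 48 (.c 1310924873 (.c 32 (.c 16 (.c 24 .nil))))) .nil) (.X 2 (.c 48 (.c 1310924873 (.c 24 (.c 16 (.c 32 .nil))))) .nil))) (.node (.node (.X 2 (.c 48 (.c 169943369 (.c 32 (.c 8 (.c 16 .nil))))) .nil) (.X 2 (.c 2718203977 (.c 16 (.c 32 (.c 24 (.c 40 .nil))))) .nil)) (.node (.X 2 (.c 48 (.c 1310925065 (.c 24 (.c 16 (.c 8 .nil))))) .nil) (.X 2 (.c 2105737 (.c 32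 (.c 40 (.c 16 (.c 24 .nil))))) .nil)))) (.node (.node (.node (.X 2 (.c 2718203977 (.c 32 (.c 40 (.c 16 (.c 24 .nil))))) .nil) (.X 2 (.c 48 (.c 537002313 (.c 24 (.c 8 (.c 16 .nil))))) .nil)) (.node (.X 2 (.c 48 (.c 537002057 (.c 40 (.c 24 (.c 16 .nil))))) .nil) (.X 2 (.c 48 (.c 33587465 (.c 24 (.c 8 (.c 40 .nil))))) .nil))) (.node (.node (.X 2 (.c 48 (.c 33587465 (.c 40 (.c 8 (.c 24 .nil))))) .nil) (.X 2 (.c 48 (.c 169943305 (.c 16 (.c 8 (.c 40 .nil))))) .nil)) (.node (.X 2 (.c 48 (.c 537002057 (.c 40 (.c 16 (.c 24 .nil))))) .nil) (.X 2 (.c 48 (.c 169943305 (.c 40 (.c 8 (.c 16 .nil))))) .nil)))))) (.node (.node (.node (.node (.node (.X 2 (.c 48 (.c 40 (.c 24 (.c 33587273 (.c 32 .nil))))) .nil) (.X 2 (.c 48 (.c 40 (.c 2105545 (.c 16 (.c 32 .nil))))) .nil)) (.node (.X 2 (.c 48 (.c 40 (.c 33587401 (.c 8 (.c 32 .nil))))) .nil) (.X 2 (.c 48 (.c 32 (.c 33587529 (.c 8 (.c 24 .nil))))) .nil))) (.node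 (.node (.X 2 (.c 48 (.c 32 (.c 40 (.c 2105545 (.c 16 .nil))))) .nil) (.X 2 (.c 48 (.c 32 (.c 40 (.c 169943113 (.c 16 .nil))))) .nil)) (.node (.X 2 (.c 48 (.c 32 (.c 2105673 (.c 24 (.c 16 .nil))))) .nil) (.X 2 (.c 48 (.c 32 (.c 33587529 (.c 24 (.c 8 .nil))))) .nil)))) (.node (.node (.node (.X 2 (.c 48 (.c 32 (.c 1310924937 (.c 24 (.c 8 .nil))))) .nil) (.X 2 (.c 48 (.c 40 (.c 169943305 (.c 8 (.c 16 .nil))))) .nil)) (.node (.X 2 (.c 48 (.c 40 (.c 169943305 (.c 16 (.c 8 .nil))))) .nil) (.X 2 (.c 48 (.c 40 (.c 169943177 (.c 8 (.c 32 .nil))))) .nil))) (.node (.node (.X 2 (.c 48 (.c 40 (.c 32 (.c 2105481 (.c 24 .nil))))) .nil) (.X 2 (.c 48 (.c 40 (.c 32 (.c 33587273 (.c 24 .nil))))) .nil)) (.node (.X 2 (.c 48 (.c 40 (.c 32 (.c 169943113 (.c 16 .nil))))) .nil) (.X 2 (.c 48 (.c 40 (.c 32 (.c 33587401 (.c 8 .nil))))) .nil))))) (.node (.node (.node (.node (.X 2 (.c 48 (.c 40 (.c 2105609 (.c 16 (.c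 24 .nil))))) .nil) (.X 2 (.c 48 (.c 40 (.c 537002057 (.c 16 (.c 24 .nil))))) .nil)) (.node (.X 2 (.c 48 (.c 40 (.c 2105609 (.c 24 (.c 16 .nil))))) .nil) (.X 2 (.c 48 (.c 40 (.c 537002121 (.c 8 (.c 24 .nil))))) .nil))) (.node (.node (.X 2 (.c 2718204233 (.c 24 (.c 16 (.c 8 (.c 32 .nil))))) .nil) (.X 2 (.c 1310925193 (.c 24 (.c 32 (.c 8 (.c 16 .nil))))) .nil)) (.node (.X 2 (.c 2718204233 (.c 24 (.c 32 (.c 8 (.c 16 .nil))))) .nil) (.X 2 (.c 1310925193 (.c 32 (.c 16 (.c 8 (.c 24 .nil))))) .nil)))) (.node (.node (.node (.X 2 (.c 2718204233 (.c 32 (.c 24 (.c 8 (.c 16 .nil))))) .nil) (.X 2 (.c 1310925193 (.c 8 (.c 32 (.c 16 (.c 24 .nil))))) .nil)) (.node (.X 2 (.c 2718204169 (.c 24 (.c 40 (.c 16 (.c 8 .nil))))) .nil) (.X 2 (.c 537002377 (.c 40 (.c 24 (.c 8 (.c 16 .nil))))) .nil))) (.node (.node (.X 2 (.c 2718204169 (.c 40 (.c 24 (.c 8 (.c 16 .nil))))) .nil) (.X 2 (.c 2718204233 (.c 8 (.c 24 (.c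 16 (.c 32 .nil))))) .nil)) (.node (.X 2 (.c 33587593 (.c 8 (.c 40 (.c 24 (.c 32 .nil))))) .nil) (.X 2 (.c 2718204041 (.c 8 (.c 40 (.c 24 (.c 32 .nil))))) .nil)))))))

noncomputable def c5_233 : Tr := (.node (.node (.node (.node (.node (.node (.X 2 (.c 33587593 (.c 24 (.c 32 (.c 8 (.c 40 .nil))))) .nil) (.X 2 (.c 2718204041 (.c 24 (.c 32 (.c 8 (.c 40 .nil))))) .nil)) (.node (.X 2 (.c 33587593 (.c 32 (.c 40 (.c 8 (.c 24 .nil))))) .nil) (.X 2 (.c 169943433 (.c 40 (.c 16 (.c 8 (.c 32 .nil))))) .nil))) (.node (.node (.X 2 (.c 2718204105 (.c 40 (.c 16 (.c 8 (.c 32 .nil))))) .nil) (.X 2 (.c 169943433 (.c 16 (.c 32 (.c 8 (.c 40 .nil))))) .nil)) (.node (.X 2 (.c 2718204105 (.c 8 (.c 32 (.c 16 (.c 40 .nil))))) .nil) (.X 2 (.c 40 (.c 8 (.c 32 (.c 169943177 (.c 48 .nil))))) .nil)))) (.node (.node (.node (.X 2 (.c 40 (.c 8 (.c 33587465 (.c 24 (.c 48 .nil))))) .nil) (.X 2 (.c 40 (.c 8 (.c 169943305 (.c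 16 (.c 48 .nil))))) .nil)) (.node (.X 2 (.c 40 (.c 8 (.c 537002185 (.c 16 (.c 48 .nil))))) .nil) (.X 2 (.c 40 (.c 16 (.c 32 (.c 2105545 (.c 48 .nil))))) .nil))) (.node (.node (.X 2 (.c 40 (.c 16 (.c 2105609 (.c 24 (.c 48 .nil))))) .nil) (.X 2 (.c 40 (.c 2105481 (.c 32 (.c 24 (.c 48 .nil))))) .nil)) (.node (.X 2 (.c 40 (.c 24 (.c 32 (.c 2105481 (.c 48 .nil))))) .nil) (.X 2 (.c 40 (.c 24 (.c 32 (.c 33587273 (.c 48 .nil))))) .nil))))) (.node (.node (.node (.node (.X 2 (.c 40 (.c 2105545 (.c 32 (.c 16 (.c 48 .nil))))) .nil) (.X 2 (.c 48 (.c 16 (.c 40 (.c 0 (.c 32 .nil))))) (.b 4673 .nil))) (.node (.X 2 (.c 48 (.c 0 (.c 40 (.c 16 (.c 32 .nil))))) (.l 4673 .nil)) (.X 2 (.c 48 (.c 16 (.c 40 (.c 0 (.c 32 .nil))))) (.l 4673 .nil)))) (.node (.node (.X 2 (.c 48 (.c 32 (.c 8 (.c 0 (.c 40 .nil))))) (.b 4737 .nil)) (.X 2 (.c 48 (.c 8 (.c 537002313 (.c 24 (.c 16 .nil))))) .nil)) (.node (.X 2 (.c 48 (.c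 16 (.c 537002313 (.c 24 (.c 8 .nil))))) .nil) (.X 0 (.c 48 (.c 12802 (.c 8786563 (.c 8 .nil)))) .nil)))) (.node (.node (.node (.X 0 (.c 48 (.c 12802 (.c 8786499 (.c 16 .nil)))) .nil) (.X 0 (.c 43356803 (.c 40 (.c 8194 (.c 8 .nil)))) .nil)) (.node (.X 0 (.c 48 (.c 20891715 (.c 8194 (.c 24 .nil)))) .nil) (.X 0 (.c 48 (.c 8258 (.c 24 (.c 16 .nil)))) (.l 12801 .nil)))) (.node (.node (.X 0 (.c 43655299 (.c 40 (.c 4610 (.c 8 .nil)))) .nil) (.X 2 (.c 48 (.c 0 (.c 40 (.c 8 (.c 24 .nil))))) (.b 8321 .nil))) (.node (.X 0 (.c 48 (.c 59555580703138 (.c 32 (.c 16 .nil)))) .nil) (.X 0 (.c 48 (.c 12866 (.c 32 (.c 24 .nil)))) (.l 2049 .nil))))))) (.node (.node (.node (.node (.node (.X 0 (.c 48 (.c 21307523 (.c 4610 (.c 8 .nil)))) .nil) (.X 0 (.c 48 (.c 21099139 (.c 8194 (.c 8 .nil)))) .nil)) (.node (.X 0 (.c 43356803 (.c 12802 (.c 32 (.c 8 .nil)))) .nil) (.X 0 (.c 48 (.c 12866 (.c 32 (.c 16 .nil)))) (.l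 4609 .nil)))) (.node (.node (.X 0 (.c 43954755 (.c 32 (.c 4610 (.c 16 .nil)))) .nil) (.X 0 (.c 40 (.c 8258 (.c 24 (.c 16 .nil)))) (.l 18433 .nil))) (.node (.X 0 (.c 43655235 (.c 40 (.c 4610 (.c 16 .nil)))) .nil) (.X 0 (.c 43356739 (.c 12802 (.c 32 (.c 16 .nil)))) .nil)))) (.node (.node (.node (.X 0 (.c 43954819 (.c 32 (.c 4610 (.c 8 .nil)))) .nil) (.X 0 (.c 43356739 (.c 40 (.c 8194 (.c 16 .nil)))) .nil)) (.node (.X 0 (.c 48 (.c 12866 (.c 24 (.c 16 .nil)))) (.l 8193 .nil)) (.X 0 (.c 48 (.c 3632106110100554 (.c 16 (.c 8 .nil)))) .nil))) (.node (.node (.X 0 (.c 48 (.c 12802 (.c 8652867 (.c 24 .nil)))) .nil) (.X 2 (.c 48 (.c 8 (.c 32 (.c 0 (.c 24 .nil))))) (.b 12929 .nil))) (.node (.X 0 (.c 48 (.c 580749850866082 (.c 24 (.c 16 .nil)))) .nil) (.X 0 (.c 43059267 (.c 12802 (.c 32 (.c 24 .nil)))) .nil))))) (.node (.node (.node (.node (.X 0 (.c 48 (.c 62886564839842 (.c 32 (.c 8 .nil)))) .nil) (.X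 0 (.c 48 (.c 12930 (.c 32 (.c 24 .nil)))) (.l 513 .nil))) (.node (.X 0 (.c 48 (.c 3561346290217186 (.c 32 (.c 8 .nil)))) .nil) (.X 0 (.c 43356739 (.c 40 (.c 32 (.c 2050 .nil)))) .nil))) (.node (.node (.X 0 (.c 40 (.c 32 (.c 4674 (.c 16 .nil)))) (.l 18433 .nil)) (.X 0 (.c 48 (.c 32 (.c 4674 (.c 16 .nil)))) (.l 12801 .nil))) (.node (.X 0 (.c 48 (.c 21307587 (.c 2050 (.c 8 .nil)))) .nil) (.X 3 (.c 169943433 (.c 16 (.c 40 (.c 32 (.c 8 .nil))))) .nil)))) (.node (.node (.node (.X 0 (.c 43655363 (.c 40 (.c 2050 (.c 8 .nil)))) .nil) (.X 0 (.c 48 (.c 40 (.c 8258 (.c 16 .nil)))) (.l 4609 .nil))) (.node (.X 0 (.c 48 (.c 40 (.c 8786499 (.c 2050 .nil)))) .nil) (.X 0 (.c 48 (.c 40 (.c 580749850865954 (.c 16 .nil)))) .nil))) (.node (.node (.X 0 (.c 48 (.c 40 (.c 617629514823754 (.c 8 .nil)))) .nil) (.X 0 (.c 48 (.c 40 (.c 62886564839778 (.c 8 .nil)))) .nil)) (.node (.X 0 (.c 48 (.c 40 (.c 8652867 (.c 4610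 .nil)))) .nil) (.X 0 (.c 48 (.c 40 (.c 2487087821154 (.c 24 .nil)))) .nil)))))))

noncomputable def c5_234 : Tr := (.node (.node (.node (.node (.node (.node (.X 2 (.c 32 (.c 24 (.c 16 (.c 0 (.c 40 .nil))))) (.b 18497 .nil)) (.X 2 (.c 40 (.c 0 (.c 24 (.c 16 (.c 32 .nil))))) (.b 18497 .nil))) (.node (.X 0 (.c 48 (.c 40 (.c 4674 (.c 16 .nil)))) (.l 8193 .nil)) (.X 0 (.c 48 (.c 40 (.c 8258 (.c 24 .nil)))) (.l 2049 .nil)))) (.node (.node (.X 2 (.c 40 (.c 16 (.c 8 (.c 0 (.c 48 .nil))))) (.b 8385 .nil)) (.X 2 (.c 48 (.c 16 (.c 8 (.c 0 (.c 32 .nil))))) (.b 12993 .nil))) (.node (.X 2 (.c 48 (.c 32 (.c 8 (.c 0 (.c 24 .nil))))) (.b 12929 .nil)) (.X 2 (.c 48 (.c 24 (.c 8 (.c 0 (.c 16 .nil))))) (.b 13057 .nil))))) (.node (.node (.node (.X 0 (.c 48 (.c 40 (.c 8322 (.c 24 .nil)))) (.l 513 .nil)) (.X 0 (.c 48 (.c 20891715 (.c 32 (.c 4610 .nil)))) .nil)) (.node (.X 0 (.c 48 (.c 3423058218676514 (.c 32 (.c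 16 .nil)))) .nil) (.X 0 (.c 15246191989555618 (.c 24 (.c 16 (.c 8 .nil)))) .nil))) (.node (.node (.X 0 (.c 14832760048435618 (.c 32 (.c 24 (.c 8 .nil)))) .nil) (.X 0 (.c 15456119238881634 (.c 24 (.c 16 (.c 8 .nil)))) .nil)) (.node (.X 0 (.c 3423058218676706 (.c 32 (.c 24 (.c 16 .nil)))) .nil) (.X 0 (.c 14629226063622562 (.c 32 (.c 24 (.c 16 .nil)))) .nil))))) (.node (.node (.node (.node (.X 0 (.c 15456298926182474 (.c 24 (.c 16 (.c 8 .nil)))) .nil) (.X 0 (.c 15038410483298722 (.c 32 (.c 16 (.c 8 .nil)))) .nil)) (.node (.X 0 (.c 15456119238881570 (.c 32 (.c 16 (.c 8 .nil)))) .nil) (.X 2 (.c 32 (.c 0 (.c 24 (.c 8 (.c 40 .nil))))) (.b 18561 .nil)))) (.node (.node (.X 2 (.c 32 (.c 8 (.c 24 (.c 0 (.c 40 .nil))))) (.b 18561 .nil)) (.X 2 (.c 40 (.c 0 (.c 32 (.c 8 (.c 24 .nil))))) (.b 18561 .nil))) (.node (.X 0 (.c 14832760048435554 (.c 40 (.c 24 (.c 8 .nil)))) .nil) (.X 0 (.c 43954819 (.c 32 (.c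 24 (.c 514 .nil)))) .nil)))) (.node (.node (.node (.X 0 (.c 15456119238881506 (.c 32 (.c 24 (.c 8 .nil)))) .nil) (.X 0 (.c 43655363 (.c 40 (.c 16 (.c 514 .nil)))) .nil)) (.node (.X 0 (.c 43356803 (.c 40 (.c 32 (.c 514 .nil)))) .nil) (.X 0 (.c 48 (.c 40 (.c 598968067276962 (.c 24 .nil)))) .nil))) (.node (.node (.X 0 (.c 48 (.c 40 (.c 580749850865890 (.c 24 .nil)))) .nil) (.X 0 (.c 48 (.c 40 (.c 32 (.c 62886564839586 .nil)))) .nil)) (.node (.X 2 (.c 18433 (.c 16 (.c 40 (.c 24 (.c 8 .nil))))) (.b 32 .nil)) (.X 2 (.c 18433 (.c 16 (.c 40 (.c 8 (.c 24 .nil))))) (.b 32 .nil))))))) (.node (.node (.node (.node (.node (.X 2 (.c 18433 (.c 24 (.c 16 (.c 8 (.c 40 .nil))))) (.b 32 .nil)) (.X 2 (.c 12801 (.c 24 (.c 16 (.c 8 (.c 48 .nil))))) (.b 32 .nil))) (.node (.X 2 (.c 18433 (.c 8 (.c 40 (.c 24 (.c 16 .nil))))) (.b 32 .nil)) (.X 2 (.c 18433 (.c 24 (.c 40 (.c 8 (.c 16 .nil))))) (.b 32 .nil)))) (.node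 (.node (.X 2 (.c 48 (.c 8 (.c 40 (.c 0 (.c 32 .nil))))) (.l 4737 .nil)) (.X 2 (.c 18433 (.c 8 (.c 32 (.c 16 (.c 40 .nil))))) (.b 24 .nil))) (.node (.X 2 (.c 12801 (.c 32 (.c 16 (.c 8 (.c 48 .nil))))) (.b 24 .nil)) (.X 2 (.c 40 (.c 32 (.c 2049 (.c 8 (.c 48 .nil))))) (.b 24 .nil))))) (.node (.node (.node (.X 2 (.c 40 (.c 32 (.c 16 (.c 513 (.c 48 .nil))))) (.b 24 .nil)) (.X 2 (.c 48 (.c 0 (.c 40 (.c 8 (.c 32 .nil))))) (.l 4737 .nil))) (.node (.X 2 (.c 40 (.c 8 (.c 24 (.c 0 (.c 48 .nil))))) (.l 8321 .nil)) (.X 2 (.c 48 (.c 8 (.c 24 (.c 0 (.c 40 .nil))))) (.l 8321 .nil)))) (.node (.node (.X 2 (.c 48 (.c 0 (.c 40 (.c 24 (.c 8 .nil))))) (.l 8321 .nil)) (.X 2 (.c 48 (.c 0 (.c 40 (.c 8 (.c 24 .nil))))) (.l 8321 .nil))) (.node (.X 2 (.c 40 (.c 0 (.c 24 (.c 8 (.c 48 .nil))))) (.l 8321 .nil)) (.X 2 (.c 32 (.c 0 (.c 24 (.c 8 (.c 48 .nil))))) (.l 12929 .nil)))))) (.node (.node (.node (.node (.X 2 (.c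 32 (.c 8 (.c 24 (.c 0 (.c 48 .nil))))) (.l 12929 .nil)) (.X 2 (.c 12801 (.c 32 (.c 24 (.c 8 (.c 16 .nil))))) (.b 48 .nil))) (.node (.X 2 (.c 12801 (.c 32 (.c 24 (.c 16 (.c 8 .nil))))) (.b 48 .nil)) (.X 2 (.c 40 (.c 513 (.c 24 (.c 16 (.c 48 .nil))))) (.b 32 .nil)))) (.node (.node (.X 2 (.c 40 (.c 8 (.c 24 (.c 2049 (.c 48 .nil))))) (.b 32 .nil)) (.X 2 (.c 8193 (.c 24 (.c 16 (.c 8 (.c 48 .nil))))) (.b 40 .nil))) (.node (.X 2 (.c 18433 (.c 16 (.c 32 (.c 8 (.c 24 .nil))))) (.b 40 .nil)) (.X 2 (.c 18433 (.c 24 (.c 32 (.c 8 (.c 16 .nil))))) (.b 40 .nil))))) (.node (.node (.node (.X 2 (.c 32 (.c 0 (.c 24 (.c 8 (.c 40 .nil))))) (.l 18561 .nil)) (.X 2 (.c 32 (.c 8 (.c 24 (.c 0 (.c 40 .nil))))) (.l 18561 .nil))) (.node (.X 2 (.c 40 (.c 16 (.c 4609 (.c 8 (.c 48 .nil))))) (.b 32 .nil)) (.X 2 (.c 8193 (.c 24 (.c 16 (.c 8 (.c 40 .nil))))) (.b 48 .nil)))) (.node (.node (.X 2 (.c 40 (.c 8 (.c 32 (.c 2049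 (.c 24 .nil))))) (.b 48 .nil)) (.X 2 (.c 40 (.c 16 (.c 32 (.c 513 (.c 24 .nil))))) (.b 48 .nil))) (.node (.X 2 (.c 40 (.c 24 (.c 32 (.c 2049 (.c 8 .nil))))) (.b 48 .nil)) (.X 2 (.c 8193 (.c 16 (.c 24 (.c 8 (.c 40 .nil))))) (.b 48 .nil))))))))

noncomputable def c5_235 : Tr := (.node (.node (.node (.node (.node (.node (.X 2 (.c 12801 (.c 16 (.c 24 (.c 8 (.c 32 .nil))))) (.b 48 .nil)) (.X 2 (.c 32 (.c 16 (.c 24 (.c 513 (.c 40 .nil))))) (.b 48 .nil))) (.node (.X 2 (.c 32 (.c 8 (.c 24 (.c 2049 (.c 40 .nil))))) (.b 48 .nil)) (.X 0 (.c 48 (.c 40 (.c 24 (.c 2114 .nil)))) (.l 8193 .nil)))) (.node (.node (.X 0 (.c 48 (.c 21307523 (.c 24 (.c 514 .nil)))) .nil) (.X 2 (.c 40 (.c 24 (.c 8193 (.c 8 (.c 48 .nil))))) (.b 16 .nil))) (.node (.X 2 (.c 40 (.c 32 (.c 4609 (.c 8 (.c 48 .nil))))) (.b 16 .nil)) (.X 0 (.c 48 (.c 40 (.c 32 (.c 4738 .nil)))) (.l 513 .nil))))) (.node (.node (.node (.X 2 (.c 18433 (.c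 8 (.c 32 (.c 24 (.c 40 .nil))))) (.b 16 .nil)) (.X 0 (.c 48 (.c 21307587 (.c 16 (.c 514 .nil)))) .nil)) (.node (.X 2 (.c 18433 (.c 32 (.c 16 (.c 8 (.c 40 .nil))))) (.b 24 .nil)) (.X 2 (.c 18433 (.c 40 (.c 16 (.c 8 (.c 32 .nil))))) (.b 24 .nil)))) (.node (.node (.X 0 (.c 48 (.c 32 (.c 24 (.c 2114 .nil)))) (.l 12801 .nil)) (.X 0 (.c 40 (.c 32 (.c 24 (.c 2114 .nil)))) (.l 18433 .nil))) (.node (.X 5 (.c 48 (.c 40 (.c 32 (.c 16 (.c 8 (.c 0 .nil)))))) (.l 24 .nil)) (.X 5 (.c 48 (.c 40 (.c 32 (.c 8 (.c 16 (.c 0 .nil)))))) (.l 24 .nil)))))) (.node (.node (.node (.node (.X 5 (.c 48 (.c 40 (.c 32 (.c 0 (.c 16 (.c 8 .nil)))))) (.l 24 .nil)) (.X 5 (.c 48 (.c 32 (.c 40 (.c 0 (.c 16 (.c 8 .nil)))))) (.l 24 .nil))) (.node (.X 5 (.c 48 (.c 32 (.c 40 (.c 8 (.c 16 (.c 0 .nil)))))) (.l 24 .nil)) (.X 5 (.c 48 (.c 32 (.c 40 (.c 16 (.c 8 (.c 0 .nil)))))) (.l 24 .nil)))) (.node (.node (.X 0 (.c 42762755 (.c 40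 (.c 8322 (.c 24 .nil)))) .nil) (.X 5 (.c 48 (.c 40 (.c 24 (.c 0 (.c 16 (.c 8 .nil)))))) (.l 32 .nil))) (.node (.X 5 (.c 48 (.c 40 (.c 24 (.c 8 (.c 16 (.c 0 .nil)))))) (.l 32 .nil)) (.X 0 (.c 43655171 (.c 40 (.c 4674 (.c 16 .nil)))) .nil)))) (.node (.node (.node (.X 0 (.c 43655171 (.c 12866 (.c 24 (.c 16 .nil)))) .nil) (.X 2 (.c 40 (.c 8 (.c 32 (.c 2049 (.c 48 .nil))))) (.b 24 .nil))) (.node (.X 2 (.c 18433 (.c 40 (.c 32 (.c 16 (.c 8 .nil))))) (.b 24 .nil)) (.X 2 (.c 40 (.c 8193 (.c 24 (.c 8 (.c 48 .nil))))) (.b 16 .nil)))) (.node (.node (.X 2 (.c 18433 (.c 24 (.c 40 (.c 8 (.c 32 .nil))))) (.b 16 .nil)) (.X 2 (.c 40 (.c 4609 (.c 32 (.c 8 (.c 48 .nil))))) (.b 16 .nil))) (.node (.X 0 (.c 43059203 (.c 12994 (.c 32 (.c 8 .nil)))) .nil) (.X 5 (.c 48 (.c 16 (.c 32 (.c 0 (.c 24 (.c 8 .nil)))))) (.l 40 .nil))))))) (.node (.node (.node (.node (.node (.X 5 (.c 48 (.c 8 (.c 32 (.c 16 (.c 24 (.c 0 .nil))))))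 (.l 40 .nil)) (.X 5 (.c 48 (.c 8 (.c 32 (.c 0 (.c 24 (.c 16 .nil)))))) (.l 40 .nil))) (.node (.X 5 (.c 48 (.c 0 (.c 32 (.c 16 (.c 24 (.c 8 .nil)))))) (.l 40 .nil)) (.X 5 (.c 48 (.c 0 (.c 32 (.c 8 (.c 24 (.c 16 .nil)))))) (.l 40 .nil)))) (.node (.node (.X 5 (.c 40 (.c 32 (.c 24 (.c 16 (.c 8 (.c 0 .nil)))))) (.l 48 .nil)) (.X 5 (.c 48 (.c 16 (.c 40 (.c 0 (.c 32 (.c 8 .nil)))))) (.l 24 .nil))) (.node (.X 5 (.c 48 (.c 16 (.c 40 (.c 8 (.c 32 (.c 0 .nil)))))) (.l 24 .nil)) (.X 5 (.c 48 (.c 8 (.c 40 (.c 16 (.c 32 (.c 0 .nil)))))) (.l 24 .nil))))) (.node (.node (.node (.X 5 (.c 48 (.c 8 (.c 40 (.c 16 (.c 24 (.c 0 .nil)))))) (.l 32 .nil)) (.X 5 (.c 48 (.c 24 (.c 32 (.c 0 (.c 16 (.c 8 .nil)))))) (.l 40 .nil))) (.node (.X 5 (.c 48 (.c 24 (.c 32 (.c 8 (.c 16 (.c 0 .nil)))))) (.l 40 .nil)) (.X 5 (.c 48 (.c 24 (.c 32 (.c 16 (.c 8 (.c 0 .nil)))))) (.l 40 .nil)))) (.node (.node (.X 5 (.c 48 (.c 32 (.c 24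 (.c 0 (.c 16 (.c 8 .nil)))))) (.l 40 .nil)) (.X 5 (.c 48 (.c 32 (.c 24 (.c 8 (.c 16 (.c 0 .nil)))))) (.l 40 .nil))) (.node (.X 5 (.c 48 (.c 0 (.c 40 (.c 8 (.c 24 (.c 16 .nil)))))) (.l 32 .nil)) (.X 5 (.c 48 (.c 0 (.c 40 (.c 16 (.c 24 (.c 8 .nil)))))) (.l 32 .nil)))))) (.node (.node (.node (.node (.X 5 (.c 48 (.c 0 (.c 40 (.c 24 (.c 16 (.c 8 .nil)))))) (.l 32 .nil)) (.X 5 (.c 48 (.c 8 (.c 40 (.c 0 (.c 24 (.c 16 .nil)))))) (.l 32 .nil))) (.node (.X 5 (.c 48 (.c 16 (.c 32 (.c 8 (.c 24 (.c 0 .nil)))))) (.l 40 .nil)) (.X 5 (.c 48 (.c 8 (.c 40 (.c 24 (.c 16 (.c 0 .nil)))))) (.l 32 .nil)))) (.node (.node (.X 5 (.c 48 (.c 16 (.c 40 (.c 0 (.c 24 (.c 8 .nil)))))) (.l 32 .nil)) (.X 5 (.c 48 (.c 16 (.c 40 (.c 8 (.c 24 (.c 0 .nil)))))) (.l 32 .nil))) (.node (.X 5 (.c 48 (.c 16 (.c 40 (.c 24 (.c 8 (.c 0 .nil)))))) (.l 32 .nil)) (.X 5 (.c 48 (.c 24 (.c 40 (.c 0 (.c 16 (.c 8 .nil)))))) (.l 32 .nil)))))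 (.node (.node (.node (.X 5 (.c 48 (.c 24 (.c 40 (.c 8 (.c 16 (.c 0 .nil)))))) (.l 32 .nil)) (.X 5 (.c 48 (.c 24 (.c 40 (.c 16 (.c 8 (.c 0 .nil)))))) (.l 32 .nil))) (.node (.X 5 (.c 48 (.c 0 (.c 40 (.c 8 (.c 32 (.c 16 .nil)))))) (.l 24 .nil)) (.X 5 (.c 48 (.c 0 (.c 40 (.c 16 (.c 32 (.c 8 .nil)))))) (.l 24 .nil)))) (.node (.node (.X 5 (.c 48 (.c 8 (.c 40 (.c 0 (.c 32 (.c 16 .nil)))))) (.l 24 .nil)) (.X 0 (.c 48 (.c 12930 (.c 32 (.c 2728451 .nil)))) .nil)) (.node (.X 0 (.c 43655363 (.c 12866 (.c 16 (.c 0 .nil)))) .nil) (.X 0 (.c 48 (.c 12994 (.c 32 (.c 16 .nil)))) (.l 513 .nil))))))))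

noncomputable def c5_236 : Tr := (.node (.node (.node (.node (.node (.node (.X 0 (.c 48 (.c 12930 (.c 32 (.c 8 .nil)))) (.l 4609 .nil)) (.X 0 (.c 48 (.c 20685315 (.c 8322 (.c 24 .nil)))) .nil)) (.node (.X 0 (.c 48 (.c 617620587708322 (.c 16 (.c 0 .nil)))) .nil) (.X 0 (.c 48 (.c 12866 (.c 8786563 (.c 0 .nil)))) .nil))) (.node (.node (.X 0 (.c 48 (.c 12994 (.c 32 (.c 8 .nil)))) (.l 2049 .nil)) (.X 0 (.c 43655299 (.c 40 (.c 4674 (.c 0 .nil)))) .nil)) (.node (.X 0 (.c 48 (.c 21307523 (.c 4674 (.c 0 .nil)))) .nil) (.X 0 (.c 43954819 (.c 8258 (.c 24 (.c 0 .nil)))) .nil)))) (.node (.node (.node (.X 0 (.c 48 (.c 12866 (.c 8786435 (.c 16 .nil)))) .nil) (.X 0 (.c 48 (.c 20891651 (.c 8258 (.c 24 .nil)))) .nil)) (.node (.X 0 (.c 48 (.c 62889435877282 (.c 32 (.c 0 .nil)))) .nil) (.X 0 (.c 48 (.c 598976927780770 (.c 24 (.c 0 .nil)))) .nil))) (.node (.node (.X 0 (.c 48 (.c 8322 (.c 24 (.c 8 .nil)))) (.l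 12801 .nil)) (.X 0 (.c 48 (.c 12930 (.c 24 (.c 8 .nil)))) (.l 8193 .nil))) (.node (.X 0 (.c 40 (.c 8322 (.c 24 (.c 8 .nil)))) (.l 18433 .nil)) (.X 0 (.c 48 (.c 13058 (.c 16 (.c 8 .nil)))) (.l 4609 .nil)))))) (.node (.node (.node (.node (.X 2 (.c 32 (.c 24 (.c 16 (.c 8 (.c 40 .nil))))) (.b 18433 .nil)) (.X 2 (.c 18433 (.c 40 (.c 24 (.c 16 (.c 32 .nil))))) (.b 8 .nil))) (.node (.X 2 (.c 18433 (.c 32 (.c 40 (.c 24 (.c 16 .nil))))) (.b 8 .nil)) (.X 2 (.c 48 (.c 32 (.c 12801 (.c 16 (.c 8 .nil))))) (.b 24 .nil)))) (.node (.node (.X 0 (.c 43655363 (.c 12930 (.c 8 (.c 0 .nil)))) .nil) (.X 0 (.c 48 (.c 3632084461624610 (.c 8 (.c 0 .nil)))) .nil)) (.node (.X 2 (.c 48 (.c 24 (.c 32 (.c 513 (.c 16 .nil))))) (.b 40 .nil)) (.X 0 (.c 48 (.c 40 (.c 8258 (.c 2803715 .nil)))) .nil)))) (.node (.node (.node (.X 0 (.c 48 (.c 8386 (.c 16 (.c 8 .nil)))) (.l 12801 .nil)) (.X 0 (.c 48 (.c 13058 (.c 2728451 (.c 16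 .nil)))) .nil)) (.node (.X 0 (.c 48 (.c 13058 (.c 24 (.c 8 .nil)))) (.l 2049 .nil)) (.X 0 (.c 48 (.c 12930 (.c 8786435 (.c 8 .nil)))) .nil))) (.node (.node (.X 2 (.c 40 (.c 32 (.c 4609 (.c 16 (.c 8 .nil))))) (.b 48 .nil)) (.X 0 (.c 48 (.c 40 (.c 8322 (.c 8 .nil)))) (.l 4609 .nil))) (.node (.X 2 (.c 18433 (.c 16 (.c 40 (.c 32 (.c 24 .nil))))) (.b 8 .nil)) (.X 2 (.c 48 (.c 8 (.c 4609 (.c 16 (.c 32 .nil))))) (.b 40 .nil))))))) (.node (.node (.node (.node (.node (.X 0 (.c 43059267 (.c 12994 (.c 32 (.c 0 .nil)))) .nil) (.X 0 (.c 48 (.c 21307395 (.c 24 (.c 2114 .nil)))) .nil)) (.node (.X 0 (.c 48 (.c 13058 (.c 24 (.c 16 .nil)))) (.l 513 .nil)) (.X 0 (.c 48 (.c 40 (.c 8386 (.c 16 .nil)))) (.l 513 .nil)))) (.node (.node (.X 0 (.c 48 (.c 12994 (.c 16 (.c 8 .nil)))) (.l 8193 .nil)) (.X 0 (.c 48 (.c 40 (.c 8386 (.c 8 .nil)))) (.l 2049 .nil))) (.node (.X 0 (.c 48 (.c 32 (.c 4738 (.c 8 .nil)))) (.l 12801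 .nil)) (.X 0 (.c 40 (.c 32 (.c 4738 (.c 8 .nil)))) (.l 18433 .nil))))) (.node (.node (.node (.X 0 (.c 40 (.c 8386 (.c 16 (.c 8 .nil)))) (.l 18433 .nil)) (.X 0 (.c 48 (.c 40 (.c 4738 (.c 8 .nil)))) (.l 8193 .nil))) (.node (.X 0 (.c 48 (.c 16 (.c 8 (.c 0 .nil)))) (.l 13057 (.l 24 .nil))) (.X 0 (.c 48 (.c 1324065929 (.c 32 (.c 0 .nil)))) (.l 24 .nil)))) (.node (.node (.X 0 (.c 48 (.c 35718473 (.c 32 (.c 0 .nil)))) (.l 24 .nil)) (.X 0 (.c 32 (.c 24 (.c 8 (.c 0 .nil)))) (.l 40 (.l 18561 .nil)))) (.node (.X 0 (.c 40 (.c 32 (.c 35718345 (.c 0 .nil)))) (.l 48 .nil)) (.X 0 (.c 40 (.c 545424585 (.c 16 (.c 0 .nil)))) (.l 48 .nil)))))) (.node (.node (.node (.node (.X 0 (.c 35718537 (.c 40 (.c 32 (.c 0 .nil)))) (.l 24 .nil)) (.X 0 (.c 2737112265 (.c 40 (.c 16 (.c 0 .nil)))) (.l 32 .nil))) (.node (.X 0 (.c 2737112265 (.c 40 (.c 32 (.c 0 .nil)))) (.l 16 .nil)) (.X 4 (.c 12801 (.c 8321 (.c 24 (.c 8 (.c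 48 .nil))))) .nil))) (.node (.node (.X 4 (.c 12801 (.c 32 (.c 4737 (.c 8 (.c 48 .nil))))) .nil) (.X 0 (.c 1337272713 (.c 32 (.c 24 (.c 0 .nil)))) (.l 8 .nil))) (.node (.X 0 (.c 48 (.c 545424713 (.c 16 (.c 0 .nil)))) (.l 24 .nil)) (.X 0 (.c 48 (.c 35718473 (.c 24 (.c 0 .nil)))) (.l 32 .nil))))) (.node (.node (.node (.X 4 (.c 48 (.c 8193 (.c 4737 (.c 8 (.c 40 .nil))))) .nil) (.X 0 (.c 174695817 (.c 40 (.c 32 (.c 0 .nil)))) (.l 16 .nil))) (.node (.X 0 (.c 32 (.c 24 (.c 16 (.c 0 .nil)))) (.l 40 (.l 18497 .nil))) (.X 0 (.c 48 (.c 553912649 (.c 24 (.c 0 .nil)))) (.l 8 .nil)))) (.node (.node (.X 0 (.c 48 (.c 24 (.c 8 (.c 0 .nil)))) (.l 40 (.l 8321 .nil))) (.X 0 (.c 48 (.c 32 (.c 24 (.c 0 .nil)))) (.l 40 (.l 2113 .nil)))) (.node (.X 0 (.c 48 (.c 32 (.c 8 (.c 0 .nil)))) (.l 40 (.l 4737 .nil))) (.X 0 (.c 48 (.c 1324065993 (.c 32 (.c 0 .nil)))) (.l 16 .nil))))))))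

noncomputable def c5_237 : Tr := (.node (.node (.node (.node (.node (.node (.X 0 (.c 48 (.c 32 (.c 16 (.c 0 .nil)))) (.l 40 (.l 4673 .nil))) (.X 0 (.c 48 (.c 24 (.c 16 (.c 0 .nil)))) (.l 40 (.l 8257 .nil)))) (.node (.X 0 (.c 174695817 (.c 32 (.c 16 (.c 0 .nil)))) (.l 40 .nil)) (.X 0 (.c 2737112265 (.c 32 (.c 16 (.c 0 .nil)))) (.l 40 .nil)))) (.node (.node (.X 4 (.c 18433 (.c 8321 (.c 24 (.c 8 (.c 40 .nil))))) .nil) (.X 0 (.c 48 (.c 32 (.c 35718345 (.c 0 .nil)))) (.l 40 .nil))) (.node (.X 0 (.c 32 (.c 16 (.c 8 (.c 0 .nil)))) (.l 40 (.l 18625 .nil))) (.X 0 (.c 24 (.c 16 (.c 8 (.c 0 .nil)))) (.l 18753 (.l 32 .nil)))))) (.node (.node (.node (.X 0 (.c 545424777 (.c 24 (.c 16 (.c 0 .nil)))) (.l 40 .nil)) (.X 0 (.c 24 (.c 16 (.c 8 (.c 0 .nil)))) (.l 48 (.l 13057 .nil)))) (.node (.X 2 (.c 48 (.c 16 (.c 40 (.c 513 (.c 24 .nil))))) (.b 32 .nil)) (.X 0 (.c 59109068473256441362 (.c 32 (.c 16 (.c 8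 .nil)))) .nil))) (.node (.node (.X 0 (.c 59109062906374564370 (.c 32 (.c 24 (.c 16 .nil)))) .nil) (.X 0 (.c 35473043351570 (.c 32 (.c 24 (.c 16 .nil)))) .nil)) (.node (.X 0 (.c 2306972427525220370 (.c 24 (.c 16 (.c 8 .nil)))) .nil) (.X 0 (.c 2718204169 (.c 40 (.c 4674 (.c 16 .nil)))) .nil))))) (.node (.node (.node (.node (.X 0 (.c 2718204169 (.c 12866 (.c 24 (.c 16 .nil)))) .nil) (.X 0 (.c 33587593 (.c 40 (.c 8258 (.c 24 .nil)))) .nil)) (.node (.X 0 (.c 1310925193 (.c 32 (.c 4674 (.c 16 .nil)))) .nil) (.X 0 (.c 169943433 (.c 40 (.c 8258 (.c 16 .nil)))) .nil))) (.node (.node (.X 0 (.c 2718204041 (.c 12866 (.c 32 (.c 24 .nil)))) .nil) (.X 0 (.c 2105737 (.c 12930 (.c 32 (.c 24 .nil)))) .nil)) (.node (.X 0 (.c 2718203977 (.c 40 (.c 8322 (.c 24 .nil)))) .nil) (.X 0 (.c 2718204169 (.c 12930 (.c 24 (.c 8 .nil)))) .nil)))) (.node (.node (.node (.X 0 (.c 2718204105 (.c 40 (.c 32 (.c 2114 .nil))))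 .nil) (.X 0 (.c 537002377 (.c 12930 (.c 24 (.c 8 .nil)))) .nil)) (.node (.X 0 (.c 169943433 (.c 40 (.c 32 (.c 2114 .nil)))) .nil) (.X 0 (.c 537002377 (.c 40 (.c 4738 (.c 8 .nil)))) .nil))) (.node (.node (.X 0 (.c 537002377 (.c 40 (.c 24 (.c 2114 .nil)))) .nil) (.X 0 (.c 169943433 (.c 12930 (.c 32 (.c 8 .nil)))) .nil)) (.node (.X 0 (.c 2718204169 (.c 40 (.c 4738 (.c 8 .nil)))) .nil) (.X 0 (.c 2718203977 (.c 12994 (.c 32 (.c 16 .nil)))) .nil)))))) (.node (.node (.node (.node (.node (.X 0 (.c 2718203977 (.c 40 (.c 8386 (.c 16 .nil)))) .nil) (.X 0 (.c 2718203977 (.c 40 (.c 32 (.c 4738 .nil)))) .nil)) (.node (.X 0 (.c 2105737 (.c 40 (.c 32 (.c 4738 .nil)))) .nil) (.X 0 (.c 2718204041 (.c 40 (.c 32 (.c 4674 .nil)))) .nil))) (.node (.node (.X 0 (.c 33587593 (.c 40 (.c 32 (.c 4674 .nil)))) .nil) (.X 0 (.c 33587593 (.c 12994 (.c 32 (.c 8 .nil)))) .nil)) (.node (.X 0 (.c 2718204041 (.c 12994 (.c 32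 (.c 8 .nil)))) .nil) (.X 0 (.c 33587593 (.c 40 (.c 8386 (.c 8 .nil)))) .nil)))) (.node (.node (.node (.X 0 (.c 2718204041 (.c 40 (.c 8386 (.c 8 .nil)))) .nil) (.X 0 (.c 2718204233 (.c 8322 (.c 24 (.c 8 .nil)))) .nil)) (.node (.X 0 (.c 1310925193 (.c 32 (.c 4738 (.c 8 .nil)))) .nil) (.X 0 (.c 2718204233 (.c 32 (.c 24 (.c 2114 .nil)))) .nil))) (.node (.node (.X 0 (.c 2718204233 (.c 32 (.c 4738 (.c 8 .nil)))) .nil) (.X 4 (.c 1324065993 (.c 32 (.c 16 (.c 0 (.c 48 .nil))))) .nil)) (.node (.X 4 (.c 174695817 (.c 40 (.c 16 (.c 0 (.c 32 .nil))))) .nil) (.X 4 (.c 2737112265 (.c 32 (.c 16 (.c 0 (.c 40 .nil))))) .nil))))) (.node (.node (.node (.node (.X 4 (.c 1324065929 (.c 32 (.c 24 (.c 0 (.c 48 .nil))))) .nil) (.X 4 (.c 35718473 (.c 32 (.c 24 (.c 0 (.c 48 .nil))))) .nil)) (.node (.X 4 (.c 48 (.c 1324066057 (.c 16 (.c 0 (.c 24 .nil))))) .nil) (.X 4 (.c 40 (.c 174695689 (.c 16 (.c 0 (.c 48 .nil)))))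 .nil))) (.node (.node (.X 4 (.c 40 (.c 545424585 (.c 16 (.c 0 (.c 48 .nil))))) .nil) (.X 4 (.c 2737112393 (.c 32 (.c 16 (.c 0 (.c 24 .nil))))) .nil)) (.node (.X 4 (.c 48 (.c 1324065929 (.c 24 (.c 0 (.c 32 .nil))))) .nil) (.X 4 (.c 48 (.c 35718409 (.c 24 (.c 0 (.c 40 .nil))))) .nil)))) (.node (.node (.node (.X 4 (.c 545424777 (.c 40 (.c 16 (.c 0 (.c 24 .nil))))) .nil) (.X 0 (.c 48 (.c 12994 (.c 32 (.c 2105481 .nil)))) .nil)) (.node (.X 4 (.c 174695817 (.c 40 (.c 32 (.c 0 (.c 16 .nil))))) .nil) (.X 0 (.c 48 (.c 12866 (.c 537002121 (.c 24 .nil)))) .nil))) (.node (.node (.X 0 (.c 48 (.c 12866 (.c 169943305 (.c 16 .nil)))) .nil) (.X 0 (.c 48 (.c 537002313 (.c 4674 (.c 16 .nil)))) .nil)) (.node (.X 0 (.c 48 (.c 1310924873 (.c 8322 (.c 24 .nil)))) .nil) (.X 0 (.c 48 (.c 2105673 (.c 8322 (.c 24 .nil)))) .nil)))))))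

noncomputable def c5_238 : Tr := (.node (.node (.node (.node (.node (.node (.X 0 (.c 48 (.c 12930 (.c 32 (.c 2105545 .nil)))) .nil) (.X 0 (.c 48 (.c 1310925065 (.c 4674 (.c 16 .nil)))) .nil)) (.node (.X 4 (.c 48 (.c 40 (.c 545424585 (.c 0 (.c 16 .nil))))) .nil) (.X 0 (.c 48 (.c 40 (.c 8322 (.c 169943113 .nil)))) .nil))) (.node (.node (.X 0 (.c 48 (.c 12930 (.c 537002185 (.c 8 .nil)))) .nil) (.X 0 (.c 48 (.c 40 (.c 2105609 (.c 4738 .nil)))) .nil)) (.node (.X 0 (.c 48 (.c 12994 (.c 537002057 (.c 16 .nil)))) .nil) (.X 0 (.c 48 (.c 12994 (.c 2105609 (.c 16 .nil)))) .nil)))) (.node (.node (.node (.X 0 (.c 48 (.c 40 (.c 537002057 (.c 4738 .nil)))) .nil) (.X 0 (.c 48 (.c 13058 (.c 2105545 (.c 16 .nil)))) .nil)) (.node (.X 0 (.c 48 (.c 169943369 (.c 8322 (.c 8 .nil)))) .nil) (.X 0 (.c 48 (.c 1310925001 (.c 8322 (.c 8 .nil)))) .nil))) (.node (.node (.X 0 (.c 48 (.c 40 (.c 8386 (.c 2105481 .nil))))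 .nil) (.X 0 (.c 48 (.c 12994 (.c 33587465 (.c 8 .nil)))) .nil)) (.node (.X 0 (.c 48 (.c 2105673 (.c 8386 (.c 16 .nil)))) .nil) (.X 0 (.c 48 (.c 33587529 (.c 8386 (.c 8 .nil)))) .nil))))) (.node (.node (.node (.node (.X 0 (.c 48 (.c 13058 (.c 169943177 (.c 8 .nil)))) .nil) (.X 0 (.c 48 (.c 169943369 (.c 32 (.c 2114 .nil)))) .nil)) (.node (.X 0 (.c 48 (.c 537002313 (.c 24 (.c 2114 .nil)))) .nil) (.X 0 (.c 48 (.c 40 (.c 169943305 (.c 2114 .nil)))) .nil))) (.node (.node (.X 0 (.c 48 (.c 33587529 (.c 32 (.c 4674 .nil)))) .nil) (.X 0 (.c 48 (.c 1310925065 (.c 24 (.c 2114 .nil)))) .nil)) (.node (.X 0 (.c 48 (.c 40 (.c 33587465 (.c 4674 .nil)))) .nil) (.X 0 (.c 48 (.c 35470887109074 (.c 24 (.c 16 .nil)))) .nil)))) (.node (.node (.node (.X 0 (.c 48 (.c 13748194876462200274 (.c 16 (.c 8 .nil)))) .nil) (.X 0 (.c 48 (.c 2306971877634818450 (.c 16 (.c 8 .nil)))) .nil)) (.node (.X 0 (.c 48 (.c 13748196218849434514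 (.c 16 (.c 8 .nil)))) .nil) (.X 0 (.c 48 (.c 13748192191687928274 (.c 24 (.c 16 .nil)))) .nil))) (.node (.node (.X 0 (.c 48 (.c 13748193534075031506 (.c 24 (.c 8 .nil)))) .nil) (.X 0 (.c 48 (.c 9024977103307154 (.c 32 (.c 8 .nil)))) .nil)) (.node (.X 0 (.c 48 (.c 13748193534075031442 (.c 32 (.c 8 .nil)))) .nil) (.X 0 (.c 48 (.c 231045990696108370 (.c 32 (.c 8 .nil)))) .nil)))))) (.node (.node (.node (.node (.node (.X 0 (.c 48 (.c 13748192191687928210 (.c 32 (.c 16 .nil)))) .nil) (.X 0 (.c 48 (.c 35470887109010 (.c 32 (.c 16 .nil)))) .nil)) (.node (.X 0 (.c 48 (.c 13748194876462200146 (.c 32 (.c 8 .nil)))) .nil) (.X 0 (.c 48 (.c 2306971877634818386 (.c 24 (.c 8 .nil)))) .nil))) (.node (.node (.X 0 (.c 48 (.c 13748196218849434450 (.c 24 (.c 8 .nil)))) .nil) (.X 0 (.c 18754 (.c 537002121 (.c 24 (.c 8 .nil)))) .nil)) (.node (.X 0 (.c 18754 (.c 169943305 (.c 16 (.c 8 .nil)))) .nil) (.X 0 (.c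 18690 (.c 40 (.c 2105545 (.c 16 .nil)))) .nil)))) (.node (.node (.node (.X 0 (.c 18754 (.c 32 (.c 169943113 (.c 16 .nil)))) .nil) (.X 0 (.c 18754 (.c 32 (.c 24 (.c 33587273 .nil)))) .nil)) (.node (.X 0 (.c 18690 (.c 40 (.c 24 (.c 2105481 .nil)))) .nil) (.X 4 (.c 48 (.c 32 (.c 16 (.c 0 (.c 40 .nil))))) (.l 4673 .nil)))) (.node (.node (.X 4 (.c 48 (.c 24 (.c 16 (.c 0 (.c 32 .nil))))) (.l 12865 .nil)) (.X 4 (.c 40 (.c 32 (.c 16 (.c 0 (.c 48 .nil))))) (.l 4673 .nil))) (.node (.X 4 (.c 48 (.c 32 (.c 24 (.c 0 (.c 40 .nil))))) (.l 2113 .nil)) (.X 4 (.c 40 (.c 32 (.c 24 (.c 0 (.c 48 .nil))))) (.l 2113 .nil)))))) (.node (.node (.node (.node (.X 4 (.c 40 (.c 24 (.c 16 (.c 0 (.c 32 .nil))))) (.l 18497 .nil)) (.X 0 (.c 18562 (.c 40 (.c 537002057 (.c 24 .nil)))) .nil)) (.node (.X 0 (.c 18562 (.c 40 (.c 2105609 (.c 24 .nil)))) .nil) (.X 4 (.c 48 (.c 40 (.c 16 (.c 0 (.c 24 .nil))))) (.l 8257 .nil)))) (.node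 (.node (.X 4 (.c 48 (.c 32 (.c 16 (.c 0 (.c 24 .nil))))) (.l 12865 .nil)) (.X 4 (.c 40 (.c 32 (.c 16 (.c 0 (.c 24 .nil))))) (.l 18497 .nil))) (.node (.X 4 (.c 48 (.c 179513673 (.c 32 (.c 0 (.c 8 .nil))))) .nil) (.X 4 (.c 48 (.c 40 (.c 179513609 (.c 0 (.c 8 .nil))))) .nil)))) (.node (.node (.node (.X 4 (.c 48 (.c 40 (.c 553912521 (.c 0 (.c 8 .nil))))) .nil) (.X 4 (.c 48 (.c 24 (.c 8 (.c 0 (.c 32 .nil))))) (.l 12929 .nil))) (.node (.X 4 (.c 40 (.c 24 (.c 8 (.c 0 (.c 32 .nil))))) (.l 18561 .nil)) (.X 4 (.c 48 (.c 16 (.c 8 (.c 0 (.c 40 .nil))))) (.l 8385 .nil)))) (.node (.node (.X 4 (.c 24 (.c 16 (.c 8 (.c 0 (.c 48 .nil))))) (.l 13057 .nil)) (.X 4 (.c 24 (.c 16 (.c 8 (.c 0 (.c 40 .nil))))) (.l 18689 .nil))) (.node (.X 4 (.c 48 (.c 16 (.c 8 (.c 0 (.c 32 .nil))))) (.l 12993 .nil)) (.X 4 (.c 40 (.c 16 (.c 8 (.c 0 (.c 32 .nil))))) (.l 18625 .nil))))))))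

noncomputable def c5_239 : Tr := (.node (.node (.node (.node (.X 4 (.c 40 (.c 32 (.c 8 (.c 0 (.c 24 .nil))))) (.l 18561 .nil)) (.node (.X 4 (.c 48 (.c 32 (.c 8 (.c 0 (.c 24 .nil))))) (.l 12929 .nil)) (.X 4 (.c 48 (.c 40 (.c 8 (.c 0 (.c 24 .nil))))) (.l 8321 .nil)))) (.node (.node (.X 4 (.c 48 (.c 40 (.c 8 (.c 0 (.c 32 .nil))))) (.l 4737 .nil)) (.X 4 (.c 48 (.c 40 (.c 32 (.c 0 (.c 24 .nil))))) (.l 2113 .nil))) (.node (.X 4 (.c 40 (.c 16 (.c 8 (.c 0 (.c 24 .nil))))) (.l 18689 .nil)) (.X 4 (.c 32 (.c 16 (.c 8 (.c 0 (.c 24 .nil))))) (.l 18753 .nil))))) (.node (.node (.node (.X 5 (.c 48 (.c 0 (.c 40 (.c 8 (.c 32 (.c 4738 .nil)))))) .nil) (.X 5 (.c 48 (.c 0 (.c 40 (.c 8 (.c 8322 (.c 24 .nil)))))) .nil)) (.node (.X 5 (.c 48 (.c 0 (.c 12994 (.c 32 (.c 16 (.c 8 .nil)))))) .nil) (.X 5 (.c 48 (.c 0 (.c 40 (.c 16 (.c 32 (.c 4674 .nil)))))) .nil))) (.node (.node (.X 5 (.c 48 (.c 0 (.c 12866 (.c 32 (.c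 24 (.c 16 .nil)))))) .nil) (.X 5 (.c 48 (.c 0 (.c 40 (.c 8258 (.c 24 (.c 16 .nil)))))) .nil)) (.node (.X 5 (.c 48 (.c 0 (.c 40 (.c 16 (.c 8258 (.c 24 .nil)))))) .nil) (.X 5 (.c 48 (.c 8 (.c 12994 (.c 32 (.c 16 (.c 0 .nil)))))) .nil))))) (.node (.node (.node (.X 5 (.c 48 (.c 8 (.c 12930 (.c 32 (.c 24 (.c 0 .nil)))))) .nil) (.node (.X 5 (.c 48 (.c 16 (.c 40 (.c 8386 (.c 8 (.c 0 .nil)))))) .nil) (.X 5 (.c 48 (.c 8 (.c 40 (.c 8322 (.c 24 (.c 0 .nil)))))) .nil))) (.node (.node (.X 5 (.c 48 (.c 0 (.c 40 (.c 8 (.c 8386 (.c 16 .nil)))))) .nil) (.X 5 (.c 48 (.c 0 (.c 40 (.c 16 (.c 8386 (.c 8 .nil)))))) .nil)) (.node (.X 5 (.c 48 (.c 0 (.c 13058 (.c 8 (.c 24 (.c 16 .nil)))))) .nil) (.X 0 (.c 18434 (.c 40 (.c 32 (.c 24 .nil)))) (.l 2113 .nil))))) (.node (.node (.node (.X 0 (.c 18434 (.c 40 (.c 32 (.c 16 .nil)))) (.l 4673 .nil)) (.X 5 (.c 48 (.c 8 (.c 13058 (.c 16 (.c 24 (.c 0 .nil)))))) .nil)) (.node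 (.X 5 (.c 48 (.c 16 (.c 13058 (.c 24 (.c 8 (.c 0 .nil)))))) .nil) (.X 0 (.c 48 (.c 12802 (.c 32 (.c 24 .nil)))) (.l 2113 .nil)))) (.node (.node (.X 0 (.c 48 (.c 12802 (.c 32 (.c 16 .nil)))) (.l 4673 .nil)) (.X 0 (.c 48 (.c 40 (.c 8194 (.c 16 .nil)))) (.l 4673 .nil))) (.node (.X 0 (.c 48 (.c 40 (.c 8194 (.c 24 .nil)))) (.l 2113 .nil)) (.X 5 (.c 48 (.c 13058 (.c 24 (.c 16 (.c 8 (.c 0 .nil)))))) .nil))))))

noncomputable def c5T : Tr := (.node (.node (.node (.node (.node (.node (.node (c5_0) (.node (c5_1) (c5_2))) (.node (.node (c5_3) (c5_4)) (.node (c5_5) (c5_6)))) (.node (.node (.node (c5_7) (c5_8)) (.node (c5_9) (c5_10))) (.node (.node (c5_11) (c5_12)) (.node (c5_13) (c5_14))))) (.node (.node (.node (c5_15) (.node (c5_16) (c5_17))) (.node (.node (c5_18) (c5_19)) (.node (c5_20) (c5_21)))) (.node (.node (.node (c5_22) (c5_23)) (.node (c5_24) (c5_25))) (.node (.node (c5_26) (c5_27)) (.node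 (c5_28) (c5_29)))))) (.node (.node (.node (.node (c5_30) (.node (c5_31) (c5_32))) (.node (.node (c5_33) (c5_34)) (.node (c5_35) (c5_36)))) (.node (.node (.node (c5_37) (c5_38)) (.node (c5_39) (c5_40))) (.node (.node (c5_41) (c5_42)) (.node (c5_43) (c5_44))))) (.node (.node (.node (c5_45) (.node (c5_46) (c5_47))) (.node (.node (c5_48) (c5_49)) (.node (c5_50) (c5_51)))) (.node (.node (.node (c5_52) (c5_53)) (.node (c5_54) (c5_55))) (.node (.node (c5_56) (c5_57)) (.node (c5_58) (c5_59))))))) (.node (.node (.node (.node (.node (c5_60) (.node (c5_61) (c5_62))) (.node (.node (c5_63) (c5_64)) (.node (c5_65) (c5_66)))) (.node (.node (.node (c5_67) (c5_68)) (.node (c5_69) (c5_70))) (.node (.node (c5_71) (c5_72)) (.node (c5_73) (c5_74))))) (.node (.node (.node (c5_75) (.node (c5_76) (c5_77))) (.node (.node (c5_78) (c5_79)) (.node (c5_80) (c5_81)))) (.node (.node (.node (c5_82) (c5_83)) (.node (c5_84)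 (c5_85))) (.node (.node (c5_86) (c5_87)) (.node (c5_88) (c5_89)))))) (.node (.node (.node (.node (c5_90) (.node (c5_91) (c5_92))) (.node (.node (c5_93) (c5_94)) (.node (c5_95) (c5_96)))) (.node (.node (.node (c5_97) (c5_98)) (.node (c5_99) (c5_100))) (.node (.node (c5_101) (c5_102)) (.node (c5_103) (c5_104))))) (.node (.node (.node (c5_105) (.node (c5_106) (c5_107))) (.node (.node (c5_108) (c5_109)) (.node (c5_110) (c5_111)))) (.node (.node (.node (c5_112) (c5_113)) (.node (c5_114) (c5_115))) (.node (.node (c5_116) (c5_117)) (.node (c5_118) (c5_119)))))))) (.node (.node (.node (.node (.node (.node (c5_120) (.node (c5_121) (c5_122))) (.node (.node (c5_123) (c5_124)) (.node (c5_125) (c5_126)))) (.node (.node (.node (c5_127) (c5_128)) (.node (c5_129) (c5_130))) (.node (.node (c5_131) (c5_132)) (.node (c5_133) (c5_134))))) (.node (.node (.node (c5_135) (.node (c5_136) (c5_137))) (.node (.node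 (c5_138) (c5_139)) (.node (c5_140) (c5_141)))) (.node (.node (.node (c5_142) (c5_143)) (.node (c5_144) (c5_145))) (.node (.node (c5_146) (c5_147)) (.node (c5_148) (c5_149)))))) (.node (.node (.node (.node (c5_150) (.node (c5_151) (c5_152))) (.node (.node (c5_153) (c5_154)) (.node (c5_155) (c5_156)))) (.node (.node (.node (c5_157) (c5_158)) (.node (c5_159) (c5_160))) (.node (.node (c5_161) (c5_162)) (.node (c5_163) (c5_164))))) (.node (.node (.node (c5_165) (.node (c5_166) (c5_167))) (.node (.node (c5_168) (c5_169)) (.node (c5_170) (c5_171)))) (.node (.node (.node (c5_172) (c5_173)) (.node (c5_174) (c5_175))) (.node (.node (c5_176) (c5_177)) (.node (c5_178) (c5_179))))))) (.node (.node (.node (.node (.node (c5_180) (.node (c5_181) (c5_182))) (.node (.node (c5_183) (c5_184)) (.node (c5_185) (c5_186)))) (.node (.node (.node (c5_187) (c5_188)) (.node (c5_189) (c5_190))) (.node (.node (c5_191)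 (c5_192)) (.node (c5_193) (c5_194))))) (.node (.node (.node (c5_195) (.node (c5_196) (c5_197))) (.node (.node (c5_198) (c5_199)) (.node (c5_200) (c5_201)))) (.node (.node (.node (c5_202) (c5_203)) (.node (c5_204) (c5_205))) (.node (.node (c5_206) (c5_207)) (.node (c5_208) (c5_209)))))) (.node (.node (.node (.node (c5_210) (.node (c5_211) (c5_212))) (.node (.node (c5_213) (c5_214)) (.node (c5_215) (c5_216)))) (.node (.node (.node (c5_217) (c5_218)) (.node (c5_219) (c5_220))) (.node (.node (c5_221) (c5_222)) (.node (c5_223) (c5_224))))) (.node (.node (.node (c5_225) (.node (c5_226) (c5_227))) (.node (.node (c5_228) (c5_229)) (.node (c5_230) (c5_231)))) (.node (.node (.node (c5_232) (c5_233)) (.node (c5_234) (c5_235))) (.node (.node (c5_236) (c5_237)) (.node (c5_238) (c5_239)))))))))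

noncomputable def c5G : TL := .p (.m (.b (.x 0) (.x 1)) (.b (.b (.x 2) (.x 3)) (.m (.b (.x 4) (.x 5)) (.x 6)))) <| .p (.m (.b (.x 2) (.x 3)) (.b (.b (.x 0) (.x 1)) (.m (.b (.x 4) (.x 5)) (.x 6)))) <| .p (.m (.m (.b (.x 4) (.x 5)) (.x 6)) (.b (.b (.x 0) (.x 1)) (.b (.x 2) (.x 3)))) .nil

theorem c5C : chk hl5 c5G c5T = true := by decide +kernel

end Pool.Agent.TP.Chk2
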