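import Pool.Agent.Helper52_TP.C2Lem

/-! Certificates for the identity W in characteristic 2, generated (helper52). -/

set_option autoImplicit false
set_option maxRecDepth 1000000

namespace Pool.Agent.TP.Chk2

/-- relation V -/
noncomputable def hV : TL := .p (.b (.x 1) (.m (.b (.x 0) (.x 3)) (.b (.x 2) (.x 4)))) <| .p (.b (.x 1) (.m (.b (.x 2) (.x 3)) (.b (.x 0) (.x 4)))) <| .p (.b (.x 1) (.b (.x 0) (.t (.x 2) (.x 3) (.x 4)))) <| .p (.b (.x 1) (.b (.x 2) (.t (.x 0) (.x 3) (.x 4)))) <| .p (.b (.x 0) (.m (.b (.x 1) (.x 3)) (.b (.x 2) (.x 4)))) <| .p (.b (.x 0) (.m (.b (.x 2) (.x 3)) (.b (.x 1) (.x 4)))) <| .p (.b (.x 0) (.b (.x 1) (.t (.x 2) (.x 3) (.x 4)))) <| .p (.b (.x 0) (.b (.x 2) (.t (.x 1) (.x 3) (.x 4)))) <| .p (.b (.x 2) (.m (.b (.x 0) (.x 3)) (.b (.x 1) (.x 4)))) <| .p (.b (.x 2) (.m (.b (.x 1) (.x 3)) (.b (.x 0) (.x 4)))) <| .p (.b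 (.x 2) (.b (.x 0) (.t (.x 1) (.x 3) (.x 4)))) <| .p (.b (.x 2) (.b (.x 1) (.t (.x 0) (.x 3) (.x 4)))) .nil

noncomputable def hl0 : HL := (.c hJ4 (.c hRR (.c hET .nil)))

noncomputable def hl1 : HL := (.c hJ4 (.c hRR (.c hET (.c hV .nil))))

noncomputable def cv_0 : Tr := (.node (.node (.node (.node (.node (.node (.I .jac (.c 3632040653488393 (.c 8 (.c 16 .nil))) .nil) (.I .jac (.c 3632106110100553 (.c 8 (.c 16 .nil))) .nil)) (.node (.I .jac (.c 3632040653488329 (.c 8 (.c 24 .nil))) .nil) (.I .jac (.c 598967998054793 (.c 8 (.c 24 .nil))) .nil))) (.node (.node (.I .jac (.c 3632084291164233 (.c 8 (.c 24 .nil))) .nil) (.I .jac (.c 3423058053194057 (.c 16 (.c 24 .nil))) .nil)) (.node (.I .jac (.c 580749782704521 (.c 16 (.c 24 .nil))) .nil) (.I .jac (.c 3632062472293449 (.c 16 (.c 24 .nil))) .nil)))) (.node (.node (.node (.I .jac (.c 21307395 (.c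 8 (.c 24 .nil))) (.b 16 .nil)) (.I .jac (.c 21307395 (.c 2113 (.c 24 .nil))) .nil)) (.node (.I .jac (.c 21307395 (.c 8 (.c 16 .nil))) (.b 24 .nil)) (.I .jac (.c 3491688652046601 (.c 8 (.c 32 .nil))) .nil))) (.node (.node (.I .jac (.c 3423058053193993 (.c 16 (.c 32 .nil))) .nil) (.I .jac (.c 3561367726845001 (.c 16 (.c 32 .nil))) .nil)) (.node (.I .jac (.c 21099011 (.c 8257 (.c 16 .nil))) .nil) (.I .jac (.c 21099011 (.c 8 (.c 32 .nil))) (.b 16 .nil)))))) (.node (.node (.node (.node (.I .jac (.c 3491688652046473 (.c 24 (.c 32 .nil))) .nil) (.I .jac (.c 3423058053193929 (.c 24 (.c 32 .nil))) .nil)) (.node (.I .jac (.c 20891651 (.c 8257 (.c 24 .nil))) .nil) (.I .jac (.c 20891651 (.c 8 (.c 32 .nil))) (.b 24 .nil)))) (.node (.node (.I .jac (.c 20891651 (.c 4673 (.c 32 .nil))) .nil) (.I .jac (.c 20891651 (.c 8 (.c 24 .nil))) (.b 32 .nil))) (.node (.I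 .jac (.c 20685315 (.c 16 (.c 32 .nil))) (.b 24 .nil)) (.I .jac (.c 20685315 (.c 4737 (.c 32 .nil))) .nil)))) (.node (.node (.node (.I .jac (.c 20685315 (.c 16 (.c 24 .nil))) (.b 32 .nil)) (.I .jac (.c 12801 (.c 8786499 (.c 16 .nil))) .nil)) (.node (.I .jac (.c 12801 (.c 8 (.c 8786563 .nil))) .nil) (.I .jac (.c 598967998054665 (.c 8 (.c 40 .nil))) .nil))) (.node (.node (.I .jac (.c 617629514823753 (.c 8 (.c 40 .nil))) .nil) (.I .jac (.c 580749782704393 (.c 16 (.c 40 .nil))) .nil)) (.node (.I .jac (.c 617620517416009 (.c 16 (.c 40 .nil))) .nil) (.I .jac (.c 8786435 (.c 8 (.c 40 .nil))) (.b 16 .nil))))))) (.node (.node (.node (.node (.node (.I .jac (.c 8652803 (.c 8 (.c 24 .nil))) (.b 40 .nil)) (.I .jac (.c 8520195 (.c 16 (.c 24 .nil))) (.b 40 .nil))) (.node (.I .jac (.c 8193 (.c 21099075 (.c 16 .nil))) .nil) (.I .jac (.c 62886542409865 (.c 32 (.c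 40 .nil))) .nil))) (.node (.node (.I .jac (.c 59555558875337 (.c 32 (.c 40 .nil))) .nil) (.I .jac (.c 2803715 (.c 8 (.c 40 .nil))) (.b 32 .nil))) (.node (.I .jac (.c 2728451 (.c 16 (.c 40 .nil))) (.b 32 .nil)) (.I .jac (.c 4609 (.c 21307459 (.c 16 .nil))) .nil)))) (.node (.node (.node (.I .jac (.c 4609 (.c 8 (.c 21307523 .nil))) .nil) (.I .jac (.c 2049 (.c 21099075 (.c 32 .nil))) .nil)) (.node (.I .jac (.c 0 (.c 3561367726845257 (.c 16 .nil))) .nil) (.I .jac (.c 0 (.c 8 (.c 21307587 .nil))) (.b 16 .nil)))) (.node (.node (.I .jac (.c 0 (.c 3632062472293577 (.c 24 .nil))) .nil) (.I .jac (.c 0 (.c 21307459 (.c 16 .nil))) (.b 24 .nil))) (.node (.I .jac (.c 0 (.c 3632084291164297 (.c 24 .nil))) .nil) (.I .jac (.c 0 (.c 8 (.c 21307523 .nil))) (.b 24 .nil)))))) (.node (.node (.node (.node (.I .jac (.c 0 (.c 3561389332330633 (.c 32 .nil))) .nil) (.I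 .jac (.c 0 (.c 8 (.c 21099139 .nil))) (.b 32 .nil))) (.node (.I .jac (.c 0 (.c 8786499 (.c 16 .nil))) (.b 40 .nil)) (.I .jac (.c 0 (.c 8 (.c 8786563 .nil))) (.b 40 .nil)))) (.node (.node (.I .jac (.c 0 (.c 8257 (.c 21099139 .nil))) .nil) (.I .jac (.c 0 (.c 8 (.c 32 .nil))) (.b 21099139 .nil))) (.node (.I .jac (.c 0 (.c 8 (.c 24 .nil))) (.b 21307523 .nil)) (.I .jac (.c 0 (.c 2113 (.c 21307587 .nil))) .nil)))) (.node (.node (.node (.I .tdb (.c 32 (.c 12801 (.c 8 (.c 24 .nil)))) (.b 16 .nil)) (.I .tdb (.c 0 (.c 40 (.c 8 (.c 24 .nil)))) (.b 32 (.b 16 .nil)))) (.node (.I .tdb (.c 16 (.c 21307395 (.c 8 (.c 24 .nil)))) .nil) (.I .tdb (.c 32 (.c 1310924937 (.c 8 (.c 24 .nil)))) .nil))) (.node (.node (.I .tdb (.c 16 (.c 12801 (.c 8 (.c 24 .nil)))) (.b 32 .nil)) (.I .tdb (.c 0 (.c 40 (.c 8 (.c 24 .nil)))) (.b 16 (.b 32 .nil)))) (.node (.I .tdb (.c 0 (.c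 32 (.c 8 (.c 24 .nil)))) (.b 16 (.b 40 .nil))) (.I .tdb (.c 32 (.c 2049 (.c 8 (.c 24 .nil)))) (.b 40 .nil))))))))

noncomputable def cv_1 : Tr := (.node (.node (.node (.node (.node (.node (.I .tdb (.c 16 (.c 0 (.c 8 (.c 24 .nil)))) (.b 32 (.b 40 .nil))) (.I .tdb (.c 8652803 (.c 40 (.c 8 (.c 24 .nil)))) .nil)) (.node (.I .tdb (.c 8 (.c 21307395 (.c 16 (.c 24 .nil)))) .nil) (.I .tdb (.c 32 (.c 1310924873 (.c 16 (.c 24 .nil)))) .nil))) (.node (.node (.I .tdb (.c 8 (.c 12801 (.c 16 (.c 24 .nil)))) (.b 32 .nil)) (.I .tdb (.c 0 (.c 40 (.c 16 (.c 24 .nil)))) (.b 8 (.b 32 .nil)))) (.node (.I .tdb (.c 0 (.c 32 (.c 16 (.c 24 .nil)))) (.b 8 (.b 40 .nil))) (.I .tdb (.c 32 (.c 513 (.c 16 (.c 24 .nil)))) (.b 40 .nil))))) (.node (.node (.node (.I .tdb (.c 8 (.c 0 (.c 16 (.c 24 .nil)))) (.b 32 (.b 40 .nil))) (.I .tdb (.c 8520195 (.c 40 (.c 16 (.c 24 .nil))))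 .nil)) (.node (.I .tdb (.c 24 (.c 12801 (.c 8 (.c 32 .nil)))) (.b 16 .nil)) (.I .tdb (.c 0 (.c 40 (.c 8 (.c 32 .nil)))) (.b 24 (.b 16 .nil))))) (.node (.node (.I .tdb (.c 16 (.c 21099011 (.c 8 (.c 32 .nil)))) .nil) (.I .tdb (.c 24 (.c 1310924937 (.c 8 (.c 32 .nil)))) .nil)) (.node (.I .tdb (.c 16 (.c 12801 (.c 8 (.c 32 .nil)))) (.b 24 .nil)) (.I .tdb (.c 0 (.c 40 (.c 8 (.c 32 .nil)))) (.b 16 (.b 24 .nil))))))) (.node (.node (.node (.node (.I .tdb (.c 24 (.c 2049 (.c 8 (.c 32 .nil)))) (.b 40 .nil)) (.I .tdb (.c 16 (.c 0 (.c 8 (.c 32 .nil)))) (.b 24 (.b 40 .nil)))) (.node (.I .tdb (.c 40 (.c 2803715 (.c 8 (.c 32 .nil)))) .nil) (.I .tdb (.c 4609 (.c 40 (.c 16 (.c 32 .nil)))) (.b 8 .nil)))) (.node (.node (.I .tdb (.c 0 (.c 24 (.c 16 (.c 32 .nil)))) (.b 40 (.b 8 .nil))) (.I .tdb (.c 8 (.c 21099011 (.c 16 (.c 32 .nil)))) .nil)) (.node (.I .tdb (.c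 24 (.c 1310924873 (.c 16 (.c 32 .nil)))) .nil) (.I .tdb (.c 8 (.c 12801 (.c 16 (.c 32 .nil)))) (.b 24 .nil))))) (.node (.node (.node (.I .tdb (.c 0 (.c 40 (.c 16 (.c 32 .nil)))) (.b 8 (.b 24 .nil))) (.I .tdb (.c 24 (.c 513 (.c 16 (.c 32 .nil)))) (.b 40 .nil))) (.node (.I .tdb (.c 8 (.c 0 (.c 16 (.c 32 .nil)))) (.b 24 (.b 40 .nil))) (.I .tdb (.c 2728451 (.c 40 (.c 16 (.c 32 .nil)))) .nil))) (.node (.node (.I .tdb (.c 8 (.c 1310924937 (.c 24 (.c 32 .nil)))) .nil) (.I .tdb (.c 16 (.c 12801 (.c 24 (.c 32 .nil)))) (.b 8 .nil))) (.node (.I .tdb (.c 0 (.c 40 (.c 24 (.c 32 .nil)))) (.b 16 (.b 8 .nil))) (.I .tdb (.c 16 (.c 1310924873 (.c 24 (.c 32 .nil)))) .nil)))))) (.node (.node (.node (.node (.node (.I .tdb (.c 8 (.c 12801 (.c 24 (.c 32 .nil)))) (.b 16 .nil)) (.I .tdb (.c 0 (.c 40 (.c 24 (.c 32 .nil)))) (.b 8 (.b 16 .nil)))) (.node (.I .tdb (.c 513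 (.c 40 (.c 24 (.c 32 .nil)))) (.b 16 .nil)) (.I .tdb (.c 8 (.c 0 (.c 24 (.c 32 .nil)))) (.b 40 (.b 16 .nil))))) (.node (.node (.I .tdb (.c 8 (.c 2049 (.c 24 (.c 32 .nil)))) (.b 40 .nil)) (.I .tdb (.c 16 (.c 0 (.c 24 (.c 32 .nil)))) (.b 8 (.b 40 .nil)))) (.node (.I .tdb (.c 16 (.c 513 (.c 24 (.c 32 .nil)))) (.b 40 .nil)) (.I .tdb (.c 8 (.c 0 (.c 24 (.c 32 .nil)))) (.b 16 (.b 40 .nil)))))) (.node (.node (.node (.I .tdb (.c 0 (.c 40 (.c 16 (.c 32 .nil)))) (.b 4673 .nil)) (.I .tdb (.c 0 (.c 40 (.c 16 (.c 8786499 .nil)))) .nil)) (.node (.I .tdb (.c 0 (.c 40 (.c 8 (.c 32 .nil)))) (.b 4737 .nil)) (.I .tdb (.c 0 (.c 40 (.c 8 (.c 8786563 .nil)))) .nil))) (.node (.node (.I .tdb (.c 16 (.c 537002185 (.c 8 (.c 40 .nil)))) .nil) (.I .tdb (.c 24 (.c 8193 (.c 8 (.c 40 .nil)))) (.b 16 .nil))) (.node (.I .tdb (.c 16 (.c 8786435 (.c 8 (.c 40 .nil)))) .nil) (.I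 .tdb (.c 24 (.c 537002121 (.c 8 (.c 40 .nil)))) .nil))))) (.node (.node (.node (.node (.I .tdb (.c 16 (.c 8193 (.c 8 (.c 40 .nil)))) (.b 24 .nil)) (.I .tdb (.c 0 (.c 32 (.c 8 (.c 40 .nil)))) (.b 16 (.b 24 .nil)))) (.node (.I .tdb (.c 0 (.c 8786563 (.c 8 (.c 40 .nil)))) .nil) (.I .tdb (.c 8 (.c 537002185 (.c 16 (.c 40 .nil)))) .nil))) (.node (.node (.I .tdb (.c 24 (.c 8193 (.c 16 (.c 40 .nil)))) (.b 8 .nil)) (.I .tdb (.c 32 (.c 4609 (.c 16 (.c 40 .nil)))) (.b 8 .nil))) (.node (.I .tdb (.c 0 (.c 24 (.c 40 (.c 16 .nil)))) (.b 32 (.b 8 .nil))) (.I .tdb (.c 8 (.c 8786435 (.c 16 (.c 40 .nil)))) .nil)))) (.node (.node (.node (.I .tdb (.c 24 (.c 537002057 (.c 16 (.c 40 .nil)))) .nil) (.I .tdb (.c 8 (.c 8193 (.c 16 (.c 40 .nil)))) (.b 24 .nil))) (.node (.I .tdb (.c 0 (.c 32 (.c 16 (.c 40 .nil)))) (.b 8 (.b 24 .nil))) (.I .tdb (.c 0 (.c 8786499 (.c 16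 (.c 40 .nil)))) .nil))) (.node (.node (.I .tdb (.c 0 (.c 32 (.c 24 (.c 40 .nil)))) (.b 16 (.b 8 .nil))) (.I .tdb (.c 0 (.c 32 (.c 24 (.c 40 .nil)))) (.b 8 (.b 16 .nil)))) (.node (.I .tdb (.c 8 (.c 40 (.c 0 (.c 24 .nil)))) (.b 32 (.b 16 .nil))) (.I .jac (.c 0 (.c 16 (.c 21307587 .nil))) (.b 8 .nil))))))))

noncomputable def cv_2 : Tr := (.node (.node (.node (.node (.node (.node (.I .tdb (.c 24 (.c 2049 (.c 32 (.c 40 .nil)))) (.b 8 .nil)) (.I .tdb (.c 16 (.c 0 (.c 40 (.c 32 .nil)))) (.b 24 (.b 8 .nil)))) (.node (.I .tdb (.c 8 (.c 40 (.c 0 (.c 32 .nil)))) (.b 24 (.b 16 .nil))) (.I .jac (.c 0 (.c 21099139 (.c 32 .nil))) (.b 8 .nil)))) (.node (.node (.I .tdb (.c 8 (.c 32 (.c 0 (.c 40 .nil)))) (.b 16 (.b 24 .nil))) (.I .tdb (.c 16 (.c 8257 (.c 0 (.c 40 .nil)))) (.b 24 .nil))) (.node (.I .tdb (.c 8 (.c 32 (.c 24 (.c 40 .nil)))) (.b 16 (.b 0 .nil)))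 (.I .jac (.c 8 (.c 16 (.c 21307587 .nil))) (.b 0 .nil))))) (.node (.node (.node (.I .tdb (.c 32 (.c 12865 (.c 0 (.c 24 .nil)))) (.b 16 .nil)) (.I .tdb (.c 24 (.c 12865 (.c 0 (.c 32 .nil)))) (.b 16 .nil))) (.node (.I .tdb (.c 8 (.c 32 (.c 16 (.c 40 .nil)))) (.b 24 (.b 0 .nil))) (.I .tdb (.c 24 (.c 8257 (.c 0 (.c 40 .nil)))) (.b 16 .nil)))) (.node (.node (.I .jac (.c 8520195 (.c 24 (.c 40 .nil))) (.b 16 .nil)) (.I .jac (.c 20685315 (.c 24 (.c 32 .nil))) (.b 16 .nil))) (.node (.I .jac (.c 8786435 (.c 16 (.c 40 .nil))) (.b 8 .nil)) (.I .jac (.c 21099011 (.c 16 (.c 32 .nil))) (.b 8 .nil)))))) (.node (.node (.node (.node (.I .jac (.c 21307395 (.c 16 (.c 24 .nil))) (.b 8 .nil)) (.I .tdb (.c 40 (.c 4737 (.c 0 (.c 32 .nil)))) (.b 8 .nil))) (.node (.I .tdb (.c 16 (.c 24 (.c 0 (.c 32 .nil)))) (.b 40 (.b 8 .nil))) (.I .tdb (.c 16 (.c 32 (.c 40 (.c 8 .nil))))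 (.b 24 (.b 0 .nil))))) (.node (.node (.I .tdb (.c 16 (.c 32 (.c 40 (.c 0 .nil)))) (.b 24 (.b 8 .nil))) (.I .tdb (.c 32 (.c 4737 (.c 0 (.c 40 .nil)))) (.b 8 .nil))) (.node (.I .tdb (.c 16 (.c 24 (.c 0 (.c 40 .nil)))) (.b 32 (.b 8 .nil))) (.I .jac (.c 8652803 (.c 24 (.c 40 .nil))) (.b 8 .nil))))) (.node (.node (.node (.I .jac (.c 20891651 (.c 24 (.c 32 .nil))) (.b 8 .nil)) (.I .tdb (.c 16 (.c 21307459 (.c 0 (.c 24 .nil)))) .nil)) (.node (.I .tdb (.c 8 (.c 32 (.c 0 (.c 24 .nil)))) (.b 16 (.b 40 .nil))) (.I .tdb (.c 8 (.c 21307523 (.c 0 (.c 24 .nil)))) .nil))) (.node (.node (.I .tdb (.c 16 (.c 21099075 (.c 0 (.c 32 .nil)))) .nil) (.I .tdb (.c 8 (.c 21099139 (.c 0 (.c 32 .nil)))) .nil)) (.node (.I .tdb (.c 16 (.c 545424585 (.c 0 (.c 40 .nil)))) .nil) (.I .tdb (.c 16 (.c 8786499 (.c 0 (.c 40 .nil)))) .nil)))))) (.node (.node (.node (.node (.node (.I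 .tdb (.c 24 (.c 545424521 (.c 0 (.c 40 .nil)))) .nil) (.I .tdb (.c 8 (.c 8786563 (.c 0 (.c 40 .nil)))) .nil)) (.node (.I .tdp (.c 4609 (.c 8321 (.c 40 (.c 8 .nil)))) .nil) (.I .tdb (.c 0 (.c 24 (.c 40 (.c 8 .nil)))) (.l 8321 .nil)))) (.node (.node (.I .tdb (.c 16 (.c 32 (.c 40 (.c 8 .nil)))) (.r 4609 .nil)) (.I .com (.c 4609 (.c 3632062472293577 .nil)) .nil)) (.node (.I .tdb (.c 16 (.c 32 (.c 40 (.c 8 .nil)))) (.b 4609 .nil)) (.I .tdb (.c 0 (.c 24 (.c 8321 (.c 8 .nil)))) (.b 40 .nil))))) (.node (.node (.node (.I .tdb (.c 16 (.c 32 (.c 8 (.c 24 .nil)))) (.b 0 (.b 40 .nil))) (.I .tdb (.c 0 (.c 24 (.c 8321 (.c 40 .nil)))) (.b 8 .nil))) (.node (.I .tdb (.c 16 (.c 32 (.c 40 (.c 24 .nil)))) (.b 0 (.b 8 .nil))) (.I .jac (.c 8193 (.c 16 (.c 24 .nil))) (.t 8 40 .nil)))) (.node (.node (.I .com (.c 8193 (.c 4737 .nil)) (.t 8 40 .nil)) (.I .tdp (.c 8193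 (.c 4737 (.c 8 (.c 40 .nil)))) .nil)) (.node (.I .tdb (.c 0 (.c 32 (.c 8 (.c 40 .nil)))) (.l 4737 .nil)) (.I .tdb (.c 16 (.c 24 (.c 8 (.c 40 .nil)))) (.r 8193 .nil)))))) (.node (.node (.node (.node (.I .com (.c 8193 (.c 3561367726845129 .nil)) .nil) (.I .tdb (.c 16 (.c 24 (.c 8 (.c 40 .nil)))) (.b 8193 .nil))) (.node (.I .tdb (.c 0 (.c 32 (.c 8 (.c 40 .nil)))) (.b 4737 .nil)) (.I .tdb (.c 16 (.c 24 (.c 8193 (.c 40 .nil)))) (.b 8 .nil)))) (.node (.node (.I .tdb (.c 16 (.c 24 (.c 8193 (.c 8 .nil)))) (.b 40 .nil)) (.I .tdp (.c 4673 (.c 8321 (.c 0 (.c 40 .nil)))) .nil)) (.node (.I .tdb (.c 8 (.c 24 (.c 40 (.c 0 .nil)))) (.l 8321 .nil)) (.I .tdb (.c 16 (.c 32 (.c 40 (.c 0 .nil)))) (.r 4673 .nil))))) (.node (.node (.node (.I .tdb (.c 16 (.c 32 (.c 40 (.c 0 .nil)))) (.b 4673 .nil)) (.I .tdb (.c 8 (.c 24 (.c 40 (.c 0 .nil)))) (.b 8321 .nil))) (.node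 (.I .jac (.c 8 (.c 21099139 (.c 32 .nil))) (.b 0 .nil)) (.I .tdb (.c 8 (.c 24 (.c 8321 (.c 40 .nil)))) (.b 0 .nil)))) (.node (.node (.I .tdb (.c 16 (.c 32 (.c 40 (.c 24 .nil)))) (.b 8 (.b 0 .nil))) (.I .tdb (.c 16 (.c 32 (.c 0 (.c 24 .nil)))) (.b 8 (.b 40 .nil)))) (.node (.I .tdb (.c 8 (.c 24 (.c 8321 (.c 0 .nil)))) (.b 40 .nil)) (.I .jac (.c 8257 (.c 16 (.c 24 .nil))) (.t 0 40 .nil))))))))

noncomputable def cv_3 : Tr := (.node (.node (.node (.node (.node (.node (.I .com (.c 8257 (.c 4737 .nil)) (.t 0 40 .nil)) (.I .tdp (.c 8257 (.c 4737 (.c 0 (.c 40 .nil)))) .nil)) (.node (.I .tdb (.c 8 (.c 32 (.c 0 (.c 40 .nil)))) (.l 4737 .nil)) (.I .tdb (.c 16 (.c 24 (.c 0 (.c 40 .nil)))) (.r 8257 .nil)))) (.node (.node (.I .tdb (.c 16 (.c 24 (.c 0 (.c 40 .nil)))) (.b 8257 .nil)) (.I .tdb (.c 8 (.c 32 (.c 0 (.c 40 .nil)))) (.b 4737 .nil))) (.node (.I .tdb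 (.c 16 (.c 24 (.c 8257 (.c 40 .nil)))) (.b 0 .nil)) (.I .tdb (.c 16 (.c 24 (.c 8257 (.c 0 .nil)))) (.b 40 .nil))))) (.node (.node (.node (.I .tdp (.c 4609 (.c 8257 (.c 16 (.c 40 .nil)))) .nil) (.I .tdb (.c 0 (.c 24 (.c 40 (.c 16 .nil)))) (.l 8257 .nil))) (.node (.I .com (.c 3491688652046601 (.c 8257 .nil)) .nil) (.I .tdb (.c 8 (.c 32 (.c 16 (.c 40 .nil)))) (.r 4609 .nil)))) (.node (.node (.I .com (.c 4609 (.c 3632084291164297 .nil)) .nil) (.I .tdb (.c 8 (.c 32 (.c 16 (.c 40 .nil)))) (.b 4609 .nil))) (.node (.I .tdb (.c 0 (.c 24 (.c 40 (.c 8257 .nil)))) (.b 16 .nil)) (.I .tdb (.c 8 (.c 32 (.c 24 (.c 40 .nil)))) (.b 0 (.b 16 .nil))))))) (.node (.node (.node (.node (.I .tdb (.c 0 (.c 24 (.c 8257 (.c 16 .nil)))) (.b 40 .nil)) (.I .tdb (.c 8 (.c 32 (.c 16 (.c 24 .nil)))) (.b 0 (.b 40 .nil)))) (.node (.I .jac (.c 8193 (.c 8 (.c 24 .nil))) (.t 16 40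 .nil)) (.I .com (.c 8193 (.c 4673 .nil)) (.t 16 40 .nil)))) (.node (.node (.I .tdp (.c 8193 (.c 4673 (.c 16 (.c 40 .nil)))) .nil) (.I .tdb (.c 0 (.c 32 (.c 16 (.c 40 .nil)))) (.l 4673 .nil))) (.node (.I .com (.c 3491688652046665 (.c 4673 .nil)) .nil) (.I .tdb (.c 8 (.c 24 (.c 40 (.c 16 .nil)))) (.r 8193 .nil))))) (.node (.node (.node (.I .com (.c 8193 (.c 3561389332330633 .nil)) .nil) (.I .tdb (.c 8 (.c 24 (.c 40 (.c 16 .nil)))) (.b 8193 .nil))) (.node (.I .tdb (.c 0 (.c 32 (.c 16 (.c 40 .nil)))) (.b 4673 .nil)) (.I .tdb (.c 8 (.c 24 (.c 40 (.c 8193 .nil)))) (.b 16 .nil)))) (.node (.node (.I .tdb (.c 8 (.c 24 (.c 8193 (.c 16 .nil)))) (.b 40 .nil)) (.I .com (.c 3561346121425097 (.c 8257 .nil)) .nil)) (.node (.I .tdb (.c 16 (.c 24 (.c 8 (.c 32 .nil)))) (.b 12801 .nil)) (.I .tdb (.c 8 (.c 24 (.c 16 (.c 32 .nil)))) (.b 12801 .nil))))))) (.node (.node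 (.node (.node (.node (.I .tdb (.c 0 (.c 24 (.c 8 (.c 32 .nil)))) (.b 12929 .nil)) (.I .tdb (.c 0 (.c 24 (.c 16 (.c 32 .nil)))) (.b 12865 .nil))) (.node (.I .tdb (.c 8 (.c 16 (.c 0 (.c 40 .nil)))) (.b 8385 .nil)) (.I .tdb (.c 8 (.c 0 (.c 40 (.c 24 .nil)))) (.b 8321 .nil)))) (.node (.node (.I .tdb (.c 16 (.c 0 (.c 40 (.c 24 .nil)))) (.b 8257 .nil)) (.I .tdb (.c 8 (.c 16 (.c 24 (.c 40 .nil)))) (.b 8193 .nil))) (.node (.I .tdb (.c 16 (.c 24 (.c 8 (.c 0 .nil)))) (.b 13057 .nil)) (.I .com (.c 3632040653488329 (.c 4673 .nil)) .nil)))) (.node (.node (.node (.I .jac (.c 0 (.c 16 (.c 24 .nil))) (.b 21307459 .nil)) (.I .tdb (.c 8 (.c 24 (.c 16 (.c 0 .nil)))) (.b 13057 .nil))) (.node (.I .tdb (.c 8 (.c 0 (.c 40 (.c 32 .nil)))) (.b 4737 .nil)) (.I .tdb (.c 16 (.c 0 (.c 40 (.c 32 .nil)))) (.b 4673 .nil)))) (.node (.node (.I .tdb (.c 0 (.c 40 (.c 8 (.c 24 .nil))))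 (.t 16 32 .nil)) (.I .tdb (.c 0 (.c 40 (.c 16 (.c 24 .nil)))) (.t 8 32 .nil))) (.node (.I .tdb (.c 0 (.c 40 (.c 8 (.c 32 .nil)))) (.t 16 24 .nil)) (.I .tdb (.c 0 (.c 40 (.c 16 (.c 32 .nil)))) (.t 8 24 .nil)))))) (.node (.node (.node (.node (.I .tdb (.c 8 (.c 16 (.c 0 (.c 32 .nil)))) (.t 24 40 .nil)) (.I .tdb (.c 8 (.c 16 (.c 0 (.c 32 .nil)))) (.l 12993 .nil))) (.node (.I .tdb (.c 16 (.c 0 (.c 8 (.c 32 .nil)))) (.t 24 40 .nil)) (.I .tdb (.c 16 (.c 0 (.c 8 (.c 32 .nil)))) (.l 12993 .nil)))) (.node (.node (.I .tdb (.c 8 (.c 0 (.c 16 (.c 32 .nil)))) (.t 24 40 .nil)) (.I .tdb (.c 8 (.c 0 (.c 16 (.c 32 .nil)))) (.l 12993 .nil))) (.node (.I .tdb (.c 8 (.c 0 (.c 40 (.c 24 .nil)))) (.t 16 32 .nil)) (.I .tdb (.c 8 (.c 0 (.c 40 (.c 24 .nil)))) (.l 8321 .nil))))) (.node (.node (.node (.I .tdb (.c 16 (.c 0 (.c 40 (.c 24 .nil)))) (.t 8 32 .nil)) (.I .tdb (.c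 16 (.c 0 (.c 40 (.c 24 .nil)))) (.l 8257 .nil))) (.node (.I .tdb (.c 8 (.c 16 (.c 24 (.c 40 .nil)))) (.t 0 32 .nil)) (.I .tdb (.c 8 (.c 16 (.c 24 (.c 40 .nil)))) (.l 8193 .nil)))) (.node (.node (.I .tdb (.c 8 (.c 16 (.c 0 (.c 24 .nil)))) (.t 32 40 .nil)) (.I .tdb (.c 8 (.c 16 (.c 0 (.c 24 .nil)))) (.l 13057 .nil))) (.node (.I .tdb (.c 16 (.c 0 (.c 8 (.c 24 .nil)))) (.t 32 40 .nil)) (.I .tdb (.c 16 (.c 0 (.c 8 (.c 24 .nil)))) (.l 13057 .nil))))))))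

noncomputable def cv_4 : Tr := (.node (.node (.node (.node (.node (.I .tdb (.c 8 (.c 0 (.c 16 (.c 24 .nil)))) (.t 32 40 .nil)) (.node (.I .tdb (.c 8 (.c 0 (.c 16 (.c 24 .nil)))) (.l 13057 .nil)) (.I .tdb (.c 8 (.c 0 (.c 40 (.c 32 .nil)))) (.t 16 24 .nil)))) (.node (.I .tdb (.c 8 (.c 0 (.c 40 (.c 32 .nil)))) (.l 4737 .nil)) (.node (.I .tdb (.c 16 (.c 0 (.c 40 (.c 32 .nil)))) (.t 8 24 .nil)) (.I .tdb (.c 16 (.c 0 (.c 40 (.c 32 .nil)))) (.l 4673 .nil))))) (.node (.node (.I .tdb (.c 8 (.c 16 (.c 32 (.c 40 .nil)))) (.t 0 24 .nil)) (.node (.I .tdb (.c 8 (.c 16 (.c 32 (.c 40 .nil)))) (.l 4609 .nil)) (.I .jac (.c 0 (.c 16 (.c 24 .nil))) (.t 32 40 (.b 8 .nil))))) (.node (.node (.I .jac (.c 0 (.c 8 (.c 40 .nil))) (.t 24 32 (.b 16 .nil))) (.X 0 (.c 40 (.c 32 (.c 24 (.c 0 (.c 8 .nil))))) (.b 16 .nil))) (.node (.X 0 (.c 40 (.c 32 (.c 8 (.c 0 (.c 24 .nil)))))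 (.b 16 .nil)) (.X 0 (.c 24 (.c 0 (.c 16 (.c 8 (.c 32 .nil))))) (.b 40 .nil)))))) (.node (.node (.node (.X 0 (.c 40 (.c 8 (.c 24 (.c 0 (.c 16 .nil))))) (.b 32 .nil)) (.node (.X 0 (.c 40 (.c 24 (.c 8 (.c 0 (.c 32 .nil))))) (.b 16 .nil)) (.X 0 (.c 40 (.c 0 (.c 24 (.c 16 (.c 8 .nil))))) (.b 32 .nil)))) (.node (.node (.X 0 (.c 40 (.c 24 (.c 16 (.c 0 (.c 32 .nil))))) (.b 8 .nil)) (.X 0 (.c 40 (.c 24 (.c 32 (.c 0 (.c 16 .nil))))) (.b 8 .nil))) (.node (.X 0 (.c 40 (.c 16 (.c 32 (.c 0 (.c 24 .nil))))) (.b 8 .nil)) (.X 0 (.c 40 (.c 16 (.c 24 (.c 0 (.c 32 .nil))))) (.b 8 .nil))))) (.node (.node (.X 0 (.c 40 (.c 24 (.c 8 (.c 0 (.c 16 .nil))))) (.b 32 .nil)) (.node (.X 0 (.c 40 (.c 8 (.c 16 (.c 0 (.c 32 .nil))))) (.b 24 .nil)) (.X 0 (.c 32 (.c 8 (.c 16 (.c 0 (.c 40 .nil))))) (.b 24 .nil)))) (.node (.node (.X 0 (.c 40 (.c 8 (.c 32 (.c 0 (.c 16 .nil))))) (.b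 24 .nil)) (.X 0 (.c 40 (.c 0 (.c 32 (.c 16 (.c 8 .nil))))) (.b 24 .nil))) (.node (.X 0 (.c 32 (.c 24 (.c 16 (.c 513 (.c 40 .nil))))) .nil) (.X 0 (.c 40 (.c 4609 (.c 16 (.c 8 (.c 32 .nil))))) .nil)))))) (.node (.node (.node (.node (.X 0 (.c 40 (.c 16 (.c 32 (.c 4609 (.c 8 .nil))))) .nil) (.node (.X 0 (.c 32 (.c 8 (.c 24 (.c 2049 (.c 40 .nil))))) .nil) (.X 2 (.c 16 (.c 0 (.c 32 (.c 24 (.c 8 .nil))))) (.b 40 .nil)))) (.node (.X 0 (.c 40 (.c 8 (.c 32 (.c 4609 (.c 16 .nil))))) .nil) (.node (.X 0 (.c 40 (.c 8 (.c 32 (.c 2049 (.c 24 .nil))))) .nil) (.X 0 (.c 12801 (.c 24 (.c 16 (.c 8 (.c 32 .nil))))) .nil)))) (.node (.node (.X 0 (.c 40 (.c 24 (.c 32 (.c 2049 (.c 8 .nil))))) .nil) (.node (.X 2 (.c 24 (.c 0 (.c 40 (.c 32 (.c 16 .nil))))) (.b 8 .nil)) (.X 2 (.c 40 (.c 0 (.c 32 (.c 24 (.c 8 .nil))))) (.b 16 .nil)))) (.node (.node (.X 2 (.c 8 (.c 0 (.c 32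 (.c 24 (.c 16 .nil))))) (.b 40 .nil)) (.X 2 (.c 24 (.c 16 (.c 40 (.c 32 (.c 0 .nil))))) (.b 8 .nil))) (.node (.X 2 (.c 40 (.c 8 (.c 32 (.c 24 (.c 0 .nil))))) (.b 16 .nil)) (.X 0 (.c 40 (.c 4737 (.c 32 (.c 0 (.c 8 .nil))))) .nil))))) (.node (.node (.node (.X 0 (.c 40 (.c 4673 (.c 32 (.c 0 (.c 16 .nil))))) .nil) (.node (.X 0 (.c 32 (.c 2113 (.c 24 (.c 0 (.c 40 .nil))))) .nil) (.X 1 (.c 40 (.c 32 (.c 24 (.c 513 (.c 16 .nil))))) .nil))) (.node (.node (.X 1 (.c 40 (.c 32 (.c 2113 (.c 0 (.c 24 .nil))))) .nil) (.X 1 (.c 40 (.c 32 (.c 16 (.c 513 (.c 24 .nil))))) .nil)) (.node (.X 1 (.c 40 (.c 24 (.c 32 (.c 513 (.c 16 .nil))))) .nil) (.X 1 (.c 40 (.c 8 (.c 24 (.c 2049 (.c 32 .nil))))) .nil)))) (.node (.node (.X 1 (.c 40 (.c 8 (.c 32 (.c 2049 (.c 24 .nil))))) .nil) (.node (.X 1 (.c 40 (.c 513 (.c 24 (.c 16 (.c 32 .nil))))) .nil) (.X 1 (.c 40 (.c 16 (.c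 24 (.c 513 (.c 32 .nil))))) .nil))) (.node (.node (.X 1 (.c 40 (.c 0 (.c 24 (.c 2113 (.c 32 .nil))))) .nil) (.X 2 (.c 12801 (.c 16 (.c 32 (.c 24 (.c 8 .nil))))) .nil)) (.node (.X 1 (.c 40 (.c 2113 (.c 32 (.c 0 (.c 24 .nil))))) .nil) (.X 2 (.c 12801 (.c 8 (.c 32 (.c 24 (.c 16 .nil))))) .nil)))))))

noncomputable def cvT : Tr := (.node (.node (cv_0) (cv_1)) (.node (cv_2) (.node (cv_3) (cv_4))))

noncomputable def cvG : TL := .p (.t (.x 1) (.m (.b (.x 0) (.x 3)) (.b (.x 2) (.x 4))) (.x 5)) <| .p (.t (.x 1) (.m (.b (.x 2) (.x 3)) (.b (.x 0) (.x 4))) (.x 5)) <| .p (.t (.x 1) (.b (.x 0) (.t (.x 2) (.x 3) (.x 4))) (.x 5)) <| .p (.t (.x 1) (.b (.x 2) (.t (.x 0) (.x 3) (.x 4))) (.x 5)) <| .p (.t (.x 0) (.m (.b (.x 1) (.x 3)) (.b (.x 2) (.x 4))) (.x 5)) <| .p (.t (.x 0) (.m (.b (.x 2) (.x 3)) (.b (.x 1) (.x 4))) (.x 5)) <| .p (.t (.x 0) (.b (.x 1) (.t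 (.x 2) (.x 3) (.x 4))) (.x 5)) <| .p (.t (.x 0) (.b (.x 2) (.t (.x 1) (.x 3) (.x 4))) (.x 5)) <| .p (.t (.x 2) (.m (.b (.x 0) (.x 3)) (.b (.x 1) (.x 4))) (.x 5)) <| .p (.t (.x 2) (.m (.b (.x 1) (.x 3)) (.b (.x 0) (.x 4))) (.x 5)) <| .p (.t (.x 2) (.b (.x 0) (.t (.x 1) (.x 3) (.x 4))) (.x 5)) <| .p (.t (.x 2) (.b (.x 1) (.t (.x 0) (.x 3) (.x 4))) (.x 5)) .nil

theorem cvC : chk hl0 cvG cvT = true := by decide +kernel

noncomputable def cw_0 : Tr := (.node (.node (.node (.node (.node (.node (.I .jac (.c 2306971873338799945 (.c 8 (.c 16 .nil))) .nil) (.I .jac (.c 231045815314584521 (.c 8 (.c 16 .nil))) .nil)) (.node (.I .jac (.c 617611520074121 (.c 8 (.c 16 .nil))) .nil) (.I .jac (.c 13748193523587632009 (.c 8 (.c 24 .nil))) .nil))) (.node (.node (.I .jac (.c 9024976834606985 (.c 8 (.c 24 .nil))) .nil) (.I .jac (.c 3491688652046665 (.c 8 (.c 24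 .nil))) .nil)) (.node (.I .jac (.c 2306970223667989449 (.c 8 (.c 24 .nil))) .nil) (.I .jac (.c 9024942441010121 (.c 8 (.c 24 .nil))) .nil)))) (.node (.node (.node (.I .jac (.c 3632084291164233 (.c 8 (.c 24 .nil))) .nil) (.I .jac (.c 2306971873338799817 (.c 16 (.c 24 .nil))) .nil)) (.node (.I .jac (.c 3423058053194057 (.c 16 (.c 24 .nil))) .nil) (.I .jac (.c 2306969673777850313 (.c 16 (.c 24 .nil))) .nil))) (.node (.node (.I .jac (.c 1310925065 (.c 2113 (.c 24 .nil))) .nil) (.I .jac (.c 1310925065 (.c 8 (.c 16 .nil))) (.b 24 .nil))) (.node (.I .jac (.c 537002313 (.c 4673 (.c 16 .nil))) .nil) (.I .jac (.c 537002313 (.c 8 (.c 24 .nil))) (.b 16 .nil)))))) (.node (.node (.node (.node (.I .jac (.c 537002313 (.c 2113 (.c 24 .nil))) .nil) (.I .jac (.c 537002313 (.c 8 (.c 16 .nil))) (.b 24 .nil))) (.node (.I .jac (.c 21307395 (.c 4673 (.c 16 .nil))) .nil)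 (.I .jac (.c 231045989336561417 (.c 8 (.c 32 .nil))) .nil))) (.node (.node (.I .jac (.c 13748193523587631945 (.c 8 (.c 32 .nil))) .nil) (.I .jac (.c 9024976834606921 (.c 8 (.c 32 .nil))) .nil)) (.node (.I .jac (.c 9024908047478729 (.c 8 (.c 32 .nil))) .nil) (.I .jac (.c 3561389332330569 (.c 8 (.c 32 .nil))) .nil)))) (.node (.node (.node (.I .jac (.c 231045989336561353 (.c 16 (.c 32 .nil))) .nil) (.I .jac (.c 3561346121425033 (.c 16 (.c 32 .nil))) .nil)) (.node (.I .jac (.c 3423058053193993 (.c 16 (.c 32 .nil))) .nil) (.I .jac (.c 231045293249046473 (.c 16 (.c 32 .nil))) .nil))) (.node (.node (.I .jac (.c 1310925001 (.c 8257 (.c 16 .nil))) .nil) (.I .jac (.c 169943369 (.c 8257 (.c 16 .nil))) .nil)) (.node (.I .jac (.c 169943369 (.c 2113 (.c 32 .nil))) .nil) (.I .jac (.c 169943369 (.c 8 (.c 16 .nil))) (.b 32 .nil))))))) (.node (.node (.node (.node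 (.node (.I .jac (.c 21099011 (.c 2113 (.c 32 .nil))) .nil) (.I .jac (.c 9024976834606793 (.c 24 (.c 32 .nil))) .nil)) (.node (.I .jac (.c 3491688652046473 (.c 24 (.c 32 .nil))) .nil) (.I .jac (.c 35470870263561 (.c 24 (.c 32 .nil))) .nil))) (.node (.node (.I .jac (.c 9024839260612553 (.c 24 (.c 32 .nil))) .nil) (.I .jac (.c 35464401931209 (.c 24 (.c 32 .nil))) .nil)) (.node (.I .jac (.c 3491710045129801 (.c 24 (.c 32 .nil))) .nil) (.I .jac (.c 1310924937 (.c 8 (.c 24 .nil))) (.b 32 .nil))))) (.node (.node (.node (.I .jac (.c 33587529 (.c 8257 (.c 24 .nil))) .nil) (.I .jac (.c 33587529 (.c 8 (.c 32 .nil))) (.b 24 .nil))) (.node (.I .jac (.c 33587529 (.c 4673 (.c 32 .nil))) .nil) (.I .jac (.c 33587529 (.c 8 (.c 24 .nil))) (.b 32 .nil)))) (.node (.node (.I .jac (.c 20891651 (.c 8 (.c 24 .nil))) (.b 32 .nil)) (.I .jac (.c 2105673 (.c 16 (.c 32 .nil)))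 (.b 24 .nil))) (.node (.I .jac (.c 2105673 (.c 4737 (.c 32 .nil))) .nil) (.I .jac (.c 20685315 (.c 8321 (.c 24 .nil))) .nil))))) (.node (.node (.node (.node (.I .jac (.c 20685315 (.c 16 (.c 32 .nil))) (.b 24 .nil)) (.I .jac (.c 20685315 (.c 16 (.c 24 .nil))) (.b 32 .nil))) (.node (.I .jac (.c 12801 (.c 8257 (.c 24 .nil))) (.b 16 .nil)) (.I .jac (.c 12801 (.c 174695689 (.c 16 .nil))) .nil))) (.node (.node (.I .jac (.c 12801 (.c 4673 (.c 32 .nil))) (.b 16 .nil)) (.I .jac (.c 12801 (.c 8 (.c 24 .nil))) (.b 32 (.b 16 .nil)))) (.node (.I .jac (.c 12801 (.c 8786499 (.c 16 .nil))) .nil) (.I .jac (.c 12801 (.c 8257 (.c 16 .nil))) (.b 24 .nil))))) (.node (.node (.node (.I .jac (.c 12801 (.c 35718409 (.c 24 .nil))) .nil) (.I .jac (.c 12801 (.c 2113 (.c 32 .nil))) (.b 24 .nil))) (.node (.I .jac (.c 12801 (.c 8 (.c 16 .nil))) (.b 32 (.b 24 .nil))) (.I .jac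 (.c 12801 (.c 174695561 (.c 32 .nil))) .nil))) (.node (.node (.I .jac (.c 12801 (.c 35718345 (.c 32 .nil))) .nil) (.I .jac (.c 12801 (.c 2113 (.c 24 .nil))) (.b 32 .nil))) (.node (.I .jac (.c 12801 (.c 8 (.c 16 .nil))) (.b 24 (.b 32 .nil))) (.I .jac (.c 12801 (.c 2803779 (.c 32 .nil))) .nil)))))))

noncomputable def cw_1 : Tr := (.node (.node (.node (.node (.node (.node (.I .jac (.c 12801 (.c 8 (.c 8786563 .nil))) .nil) (.I .jac (.c 2306970773558193929 (.c 8 (.c 40 .nil))) .nil)) (.node (.I .jac (.c 2306970223667989321 (.c 8 (.c 40 .nil))) .nil) (.I .jac (.c 598967998054665 (.c 8 (.c 40 .nil))) .nil))) (.node (.node (.I .jac (.c 62886542410057 (.c 8 (.c 40 .nil))) .nil) (.I .jac (.c 2306970773558193865 (.c 16 (.c 40 .nil))) .nil)) (.node (.I .jac (.c 231045815314584265 (.c 16 (.c 40 .nil))) .nil) (.I .jac (.c 2306969673777850185 (.c 16 (.c 40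 .nil))) .nil)))) (.node (.node (.node (.I .jac (.c 580749782704393 (.c 16 (.c 40 .nil))) .nil) (.I .jac (.c 231045293249046409 (.c 16 (.c 40 .nil))) .nil)) (.node (.I .jac (.c 537002185 (.c 8 (.c 16 .nil))) (.b 40 .nil)) (.I .jac (.c 169943305 (.c 12865 (.c 16 .nil))) .nil))) (.node (.node (.I .jac (.c 169943305 (.c 8 (.c 40 .nil))) (.b 16 .nil)) (.I .jac (.c 169943305 (.c 2113 (.c 40 .nil))) .nil)) (.node (.I .jac (.c 8786435 (.c 2113 (.c 40 .nil))) .nil) (.I .jac (.c 8786435 (.c 8 (.c 16 .nil))) (.b 40 .nil)))))) (.node (.node (.node (.node (.I .jac (.c 580749782704329 (.c 24 (.c 40 .nil))) .nil) (.I .jac (.c 2487083360585 (.c 24 (.c 40 .nil))) .nil)) (.node (.I .jac (.c 537002121 (.c 12865 (.c 24 .nil))) .nil) (.I .jac (.c 537002121 (.c 4673 (.c 40 .nil))) .nil))) (.node (.node (.I .jac (.c 537002121 (.c 8 (.c 24 .nil))) (.b 40 .nil)) (.I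 .jac (.c 33587465 (.c 8 (.c 40 .nil))) (.b 24 .nil))) (.node (.I .jac (.c 33587465 (.c 4673 (.c 40 .nil))) .nil) (.I .jac (.c 8652803 (.c 12865 (.c 24 .nil))) .nil)))) (.node (.node (.node (.I .jac (.c 8652803 (.c 8 (.c 40 .nil))) (.b 24 .nil)) (.I .jac (.c 537002057 (.c 16 (.c 40 .nil))) (.b 24 .nil))) (.node (.I .jac (.c 537002057 (.c 16 (.c 24 .nil))) (.b 40 .nil)) (.I .jac (.c 2105609 (.c 12929 (.c 24 .nil))) .nil))) (.node (.node (.I .jac (.c 2105609 (.c 4737 (.c 40 .nil))) .nil) (.I .jac (.c 8520195 (.c 12929 (.c 24 .nil))) .nil)) (.node (.I .jac (.c 8520195 (.c 16 (.c 40 .nil))) (.b 24 .nil)) (.I .jac (.c 8520195 (.c 4737 (.c 40 .nil))) .nil)))))) (.node (.node (.node (.node (.node (.I .jac (.c 8520195 (.c 16 (.c 24 .nil))) (.b 40 .nil)) (.I .jac (.c 8193 (.c 1324065993 (.c 16 .nil))) .nil)) (.node (.I .jac (.c 8193 (.c 174695753 (.c 16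 .nil))) .nil) (.I .jac (.c 8193 (.c 4673 (.c 40 .nil))) (.b 16 .nil)))) (.node (.node (.I .jac (.c 8193 (.c 12865 (.c 16 .nil))) (.b 24 .nil)) (.I .jac (.c 8193 (.c 8 (.c 40 .nil))) (.b 16 (.b 24 .nil)))) (.node (.I .jac (.c 8193 (.c 35718473 (.c 24 .nil))) .nil) (.I .jac (.c 8193 (.c 2113 (.c 40 .nil))) (.b 24 .nil))))) (.node (.node (.node (.I .jac (.c 8193 (.c 8 (.c 16 .nil))) (.b 40 (.b 24 .nil))) (.I .jac (.c 8193 (.c 20891715 (.c 24 .nil))) .nil)) (.node (.I .jac (.c 8193 (.c 4673 (.c 16 .nil))) (.b 40 .nil)) (.I .jac (.c 8193 (.c 35718345 (.c 40 .nil))) .nil))) (.node (.node (.I .jac (.c 8193 (.c 2113 (.c 24 .nil))) (.b 40 .nil)) (.I .jac (.c 8193 (.c 8 (.c 16 .nil))) (.b 24 (.b 40 .nil)))) (.node (.I .jac (.c 231045467270826697 (.c 32 (.c 40 .nil))) .nil) (.I .jac (.c 9024908047478473 (.c 32 (.c 40 .nil))) .nil))))) (.node (.node (.node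 (.node (.I .jac (.c 231045293249046281 (.c 32 (.c 40 .nil))) .nil) (.I .jac (.c 35466557976329 (.c 32 (.c 40 .nil))) .nil)) (.node (.I .jac (.c 59555558875337 (.c 32 (.c 40 .nil))) .nil) (.I .jac (.c 9024839260612425 (.c 32 (.c 40 .nil))) .nil))) (.node (.node (.I .jac (.c 35464401931081 (.c 32 (.c 40 .nil))) .nil) (.I .jac (.c 62889413446729 (.c 32 (.c 40 .nil))) .nil)) (.node (.I .jac (.c 33587401 (.c 8 (.c 40 .nil))) (.b 32 .nil)) (.I .jac (.c 33587401 (.c 8257 (.c 40 .nil))) .nil)))) (.node (.node (.node (.I .jac (.c 2803715 (.c 8 (.c 32 .nil))) (.b 40 .nil)) (.I .jac (.c 169943113 (.c 16 (.c 40 .nil))) (.b 32 .nil))) (.node (.I .jac (.c 169943113 (.c 16 (.c 32 .nil))) (.b 40 .nil)) (.I .jac (.c 2105545 (.c 12929 (.c 32 .nil))) .nil))) (.node (.node (.I .jac (.c 2105545 (.c 16 (.c 32 .nil))) (.b 40 .nil)) (.I .jac (.c 2728451 (.c 8321 (.c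 40 .nil))) .nil)) (.node (.I .jac (.c 2728451 (.c 16 (.c 32 .nil))) (.b 40 .nil)) (.I .jac (.c 4609 (.c 545424713 (.c 16 .nil))) .nil)))))))

noncomputable def cw_2 : Tr := (.node (.node (.node (.node (.node (.node (.I .jac (.c 4609 (.c 8257 (.c 40 .nil))) (.b 16 .nil)) (.I .jac (.c 4609 (.c 8 (.c 32 .nil))) (.b 40 (.b 16 .nil)))) (.node (.I .jac (.c 4609 (.c 21307459 (.c 16 .nil))) .nil) (.I .jac (.c 4609 (.c 1324065929 (.c 32 .nil))) .nil))) (.node (.node (.I .jac (.c 4609 (.c 2113 (.c 40 .nil))) (.b 32 .nil)) (.I .jac (.c 4609 (.c 8 (.c 16 .nil))) (.b 40 (.b 32 .nil)))) (.node (.I .jac (.c 4609 (.c 8257 (.c 16 .nil))) (.b 40 .nil)) (.I .jac (.c 4609 (.c 8 (.c 32 .nil))) (.b 16 (.b 40 .nil)))))) (.node (.node (.node (.I .jac (.c 4609 (.c 2113 (.c 32 .nil))) (.b 40 .nil)) (.I .jac (.c 4609 (.c 8 (.c 16 .nil))) (.b 32 (.b 40 .nil)))) (.node (.I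 .jac (.c 4609 (.c 8652867 (.c 40 .nil))) .nil) (.I .jac (.c 4609 (.c 8 (.c 21307523 .nil))) .nil))) (.node (.node (.I .jac (.c 33587273 (.c 24 (.c 40 .nil))) (.b 32 .nil)) (.I .jac (.c 2105481 (.c 24 (.c 40 .nil))) (.b 32 .nil))) (.node (.I .jac (.c 2049 (.c 12865 (.c 32 .nil))) (.b 24 .nil)) (.I .jac (.c 2049 (.c 8 (.c 40 .nil))) (.b 32 (.b 24 .nil))))))) (.node (.node (.node (.node (.I .jac (.c 2049 (.c 8257 (.c 40 .nil))) (.b 24 .nil)) (.I .jac (.c 2049 (.c 21307459 (.c 24 .nil))) .nil)) (.node (.I .jac (.c 2049 (.c 12865 (.c 24 .nil))) (.b 32 .nil)) (.I .jac (.c 2049 (.c 174695753 (.c 32 .nil))) .nil))) (.node (.node (.I .jac (.c 2049 (.c 4673 (.c 40 .nil))) (.b 32 .nil)) (.I .jac (.c 2049 (.c 545424585 (.c 40 .nil))) .nil)) (.node (.I .jac (.c 2049 (.c 8 (.c 24 .nil))) (.b 32 (.b 40 .nil))) (.I .jac (.c 513 (.c 1337272585 (.c 24 .nil)))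 .nil)))) (.node (.node (.node (.I .jac (.c 513 (.c 8321 (.c 40 .nil))) (.b 24 .nil)) (.I .jac (.c 513 (.c 16 (.c 32 .nil))) (.b 40 (.b 24 .nil)))) (.node (.I .jac (.c 513 (.c 1337272521 (.c 32 .nil))) .nil) (.I .jac (.c 513 (.c 179513673 (.c 32 .nil))) .nil))) (.node (.node (.I .jac (.c 513 (.c 21099139 (.c 32 .nil))) .nil) (.I .jac (.c 513 (.c 179513609 (.c 40 .nil))) .nil)) (.node (.I .jac (.c 513 (.c 4737 (.c 32 .nil))) (.b 40 .nil)) (.I .jac (.c 513 (.c 16 (.c 24 .nil))) (.b 32 (.b 40 .nil)))))))) (.node (.node (.node (.node (.node (.I .jac (.c 513 (.c 8786563 (.c 40 .nil))) .nil) (.I .jac (.c 0 (.c 2379904940409059145 (.c 16 .nil))) .nil)) (.node (.I .jac (.c 0 (.c 545424713 (.c 24 .nil))) (.b 16 .nil)) (.I .jac (.c 0 (.c 8257 (.c 40 .nil))) (.b 24 (.b 16 .nil))))) (.node (.node (.I .jac (.c 0 (.c 8 (.c 32 .nil))) (.b 40 (.b 24 (.b 16 .nil))))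 (.I .jac (.c 0 (.c 244148670041478089 (.c 16 .nil))) .nil)) (.node (.I .jac (.c 0 (.c 174695689 (.c 40 .nil))) (.b 16 .nil)) (.I .jac (.c 0 (.c 4673 (.c 32 .nil))) (.b 40 (.b 16 .nil)))))) (.node (.node (.node (.I .jac (.c 0 (.c 8 (.c 24 .nil))) (.b 32 (.b 40 (.b 16 .nil)))) (.I .jac (.c 0 (.c 617620517416329 (.c 16 .nil))) .nil)) (.node (.I .jac (.c 0 (.c 8 (.c 21307587 .nil))) (.b 16 .nil)) (.I .jac (.c 0 (.c 1324066057 (.c 16 .nil))) (.b 24 .nil)))) (.node (.node (.I .jac (.c 0 (.c 12865 (.c 32 .nil))) (.b 16 (.b 24 .nil))) (.I .jac (.c 0 (.c 8 (.c 40 .nil))) (.b 32 (.b 16 (.b 24 .nil))))) (.node (.I .jac (.c 0 (.c 2379904940409059081 (.c 24 .nil))) .nil) (.I .jac (.c 0 (.c 21307459 (.c 16 .nil))) (.b 24 .nil)))))) (.node (.node (.node (.node (.I .jac (.c 0 (.c 14025204674709064585 (.c 24 .nil))) .nil) (.I .jac (.c 0 (.c 545424521 (.c 40 .nil)))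 (.b 24 .nil))) (.node (.I .jac (.c 0 (.c 8257 (.c 16 .nil))) (.b 40 (.b 24 .nil))) (.I .jac (.c 0 (.c 8 (.c 32 .nil))) (.b 16 (.b 40 (.b 24 .nil)))))) (.node (.node (.I .jac (.c 0 (.c 598976858557833 (.c 24 .nil))) .nil) (.I .jac (.c 0 (.c 8652867 (.c 40 .nil))) (.b 24 .nil))) (.node (.I .jac (.c 0 (.c 8 (.c 21307523 .nil))) (.b 24 .nil)) (.I .jac (.c 0 (.c 21099075 (.c 16 .nil))) (.b 32 .nil))))) (.node (.node (.node (.I .jac (.c 0 (.c 14025204674709064521 (.c 32 .nil))) .nil) (.I .jac (.c 0 (.c 1324065929 (.c 24 .nil))) (.b 32 .nil))) (.node (.I .jac (.c 0 (.c 12865 (.c 16 .nil))) (.b 24 (.b 32 .nil))) (.I .jac (.c 0 (.c 8 (.c 40 .nil))) (.b 16 (.b 24 (.b 32 .nil)))))) (.node (.node (.I .jac (.c 0 (.c 3491710045129993 (.c 32 .nil))) .nil) (.I .jac (.c 0 (.c 244148312264838089 (.c 32 .nil))) .nil)) (.node (.I .jac (.c 0 (.c 174695561 (.c 40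 .nil))) (.b 32 .nil)) (.I .jac (.c 0 (.c 4673 (.c 16 .nil))) (.b 40 (.b 32 .nil)))))))))

noncomputable def cw_3 : Tr := (.node (.node (.node (.node (.node (.node (.I .jac (.c 0 (.c 8 (.c 24 .nil))) (.b 16 (.b 40 (.b 32 .nil)))) (.I .jac (.c 0 (.c 62889413447049 (.c 32 .nil))) .nil)) (.node (.I .jac (.c 0 (.c 3561389332330633 (.c 32 .nil))) .nil) (.I .jac (.c 0 (.c 12865 (.c 8786563 .nil))) .nil))) (.node (.node (.I .jac (.c 0 (.c 244148670041477897 (.c 40 .nil))) .nil) (.I .jac (.c 0 (.c 174695689 (.c 16 .nil))) (.b 40 .nil))) (.node (.I .jac (.c 0 (.c 4673 (.c 32 .nil))) (.b 16 (.b 40 .nil))) (.I .jac (.c 0 (.c 8 (.c 24 .nil))) (.b 32 (.b 16 (.b 40 .nil))))))) (.node (.node (.node (.I .jac (.c 0 (.c 617620517416137 (.c 40 .nil))) .nil) (.I .jac (.c 0 (.c 8652867 (.c 24 .nil))) (.b 40 .nil))) (.node (.I .jac (.c 0 (.c 244148312264838025 (.c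 40 .nil))) .nil) (.I .jac (.c 0 (.c 174695561 (.c 32 .nil))) (.b 40 .nil)))) (.node (.node (.I .jac (.c 0 (.c 4673 (.c 16 .nil))) (.b 32 (.b 40 .nil))) (.I .jac (.c 0 (.c 8 (.c 24 .nil))) (.b 16 (.b 32 (.b 40 .nil))))) (.node (.I .jac (.c 0 (.c 62889413446985 (.c 40 .nil))) .nil) (.I .jac (.c 0 (.c 617629514823817 (.c 40 .nil))) .nil))))) (.node (.node (.node (.node (.I .jac (.c 0 (.c 8257 (.c 21099139 .nil))) .nil) (.I .jac (.c 0 (.c 8 (.c 32 .nil))) (.b 21099139 .nil))) (.node (.I .jac (.c 0 (.c 4673 (.c 21307523 .nil))) .nil) (.I .jac (.c 0 (.c 2113 (.c 21307587 .nil))) .nil))) (.node (.node (.I .jac (.c 0 (.c 8 (.c 16 .nil))) (.b 21307587 .nil)) (.I .tdb (.c 32 (.c 12801 (.c 8 (.c 16 .nil)))) (.b 24 .nil))) (.node (.I .tdb (.c 0 (.c 40 (.c 8 (.c 16 .nil)))) (.b 32 (.b 24 .nil))) (.I .tdb (.c 8193 (.c 40 (.c 8 (.c 16 .nil)))) (.b 24 .nil)))))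 (.node (.node (.node (.I .tdb (.c 0 (.c 32 (.c 8 (.c 16 .nil)))) (.b 40 (.b 24 .nil))) (.I .tdb (.c 24 (.c 12801 (.c 8 (.c 16 .nil)))) (.b 32 .nil))) (.node (.I .tdb (.c 4609 (.c 40 (.c 8 (.c 16 .nil)))) (.b 32 .nil)) (.I .tdb (.c 32 (.c 21099011 (.c 8 (.c 16 .nil)))) .nil))) (.node (.node (.I .tdb (.c 0 (.c 32 (.c 8 (.c 16 .nil)))) (.b 24 (.b 40 .nil))) (.I .tdb (.c 32 (.c 4609 (.c 8 (.c 16 .nil)))) (.b 40 .nil))) (.node (.I .tdb (.c 8786435 (.c 40 (.c 8 (.c 16 .nil)))) .nil) (.I .tdb (.c 0 (.c 40 (.c 8 (.c 24 .nil)))) (.b 32 (.b 16 .nil)))))))) (.node (.node (.node (.node (.node (.I .tdb (.c 8193 (.c 40 (.c 8 (.c 24 .nil)))) (.b 16 .nil)) (.I .tdb (.c 0 (.c 32 (.c 8 (.c 24 .nil)))) (.b 40 (.b 16 .nil)))) (.node (.I .tdb (.c 2049 (.c 40 (.c 8 (.c 24 .nil)))) (.b 32 .nil)) (.I .tdb (.c 0 (.c 32 (.c 8 (.c 24 .nil)))) (.b 16 (.b 40 .nil))))) (.node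 (.node (.I .tdb (.c 32 (.c 2049 (.c 8 (.c 24 .nil)))) (.b 40 .nil)) (.I .tdb (.c 8 (.c 1310925065 (.c 16 (.c 24 .nil)))) .nil)) (.node (.I .tdb (.c 8 (.c 537002313 (.c 16 (.c 24 .nil)))) .nil) (.I .tdb (.c 8193 (.c 40 (.c 16 (.c 24 .nil)))) (.b 8 .nil))))) (.node (.node (.node (.I .tdb (.c 32 (.c 1310924873 (.c 16 (.c 24 .nil)))) .nil) (.I .tdb (.c 8 (.c 0 (.c 16 (.c 24 .nil)))) (.b 40 (.b 32 .nil)))) (.node (.I .tdb (.c 32 (.c 20685315 (.c 16 (.c 24 .nil)))) .nil) (.I .tdb (.c 40 (.c 537002057 (.c 16 (.c 24 .nil)))) .nil))) (.node (.node (.I .tdb (.c 8 (.c 8193 (.c 16 (.c 24 .nil)))) (.b 40 .nil)) (.I .tdb (.c 8 (.c 0 (.c 16 (.c 24 .nil)))) (.b 32 (.b 40 .nil)))) (.node (.I .tdb (.c 8520195 (.c 40 (.c 16 (.c 24 .nil)))) .nil) (.I .tdb (.c 8 (.c 24 (.c 1310925065 (.c 16 .nil)))) .nil))))) (.node (.node (.node (.node (.I .tdb (.c 16 (.c 24 (.c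 1310925065 (.c 8 .nil)))) .nil) (.I .tdb (.c 4609 (.c 40 (.c 8 (.c 32 .nil)))) (.b 16 .nil))) (.node (.I .tdb (.c 2049 (.c 40 (.c 8 (.c 32 .nil)))) (.b 24 .nil)) (.I .tdb (.c 24 (.c 20891651 (.c 8 (.c 32 .nil)))) .nil))) (.node (.node (.I .tdb (.c 16 (.c 4609 (.c 8 (.c 32 .nil)))) (.b 40 .nil)) (.I .tdb (.c 0 (.c 24 (.c 8 (.c 32 .nil)))) (.b 16 (.b 40 .nil)))) (.node (.I .tdb (.c 40 (.c 2803715 (.c 8 (.c 32 .nil)))) .nil) (.I .tdb (.c 8 (.c 1310925001 (.c 16 (.c 32 .nil)))) .nil)))) (.node (.node (.node (.I .tdb (.c 24 (.c 12801 (.c 16 (.c 32 .nil)))) (.b 8 .nil)) (.I .tdb (.c 0 (.c 40 (.c 16 (.c 32 .nil)))) (.b 24 (.b 8 .nil)))) (.node (.I .tdb (.c 8 (.c 169943369 (.c 16 (.c 32 .nil)))) .nil) (.I .tdb (.c 24 (.c 1310924873 (.c 16 (.c 32 .nil)))) .nil))) (.node (.node (.I .tdb (.c 513 (.c 40 (.c 16 (.c 32 .nil)))) (.b 24 .nil)) (.I .tdb (.c 8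 (.c 0 (.c 16 (.c 32 .nil)))) (.b 40 (.b 24 .nil)))) (.node (.I .tdb (.c 24 (.c 20685315 (.c 16 (.c 32 .nil)))) .nil) (.I .tdb (.c 40 (.c 169943113 (.c 16 (.c 32 .nil)))) .nil)))))))

noncomputable def cw_4 : Tr := (.node (.node (.node (.node (.node (.node (.I .tdb (.c 8 (.c 4609 (.c 16 (.c 32 .nil)))) (.b 40 .nil)) (.I .tdb (.c 2728451 (.c 40 (.c 16 (.c 32 .nil)))) .nil)) (.node (.I .tdb (.c 8 (.c 16 (.c 32 (.c 169943369 .nil)))) .nil) (.I .tdb (.c 16 (.c 32 (.c 1310925001 (.c 8 .nil)))) .nil))) (.node (.node (.I .tdb (.c 8 (.c 1310924937 (.c 24 (.c 32 .nil)))) .nil) (.I .tdb (.c 0 (.c 40 (.c 24 (.c 32 .nil)))) (.b 16 (.b 8 .nil)))) (.node (.I .tdb (.c 8 (.c 33587529 (.c 24 (.c 32 .nil)))) .nil) (.I .tdb (.c 16 (.c 1310924873 (.c 24 (.c 32 .nil)))) .nil)))) (.node (.node (.node (.I .tdb (.c 8 (.c 12801 (.c 24 (.c 32 .nil)))) (.b 16 .nil)) (.I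 .tdb (.c 513 (.c 40 (.c 24 (.c 32 .nil)))) (.b 16 .nil))) (.node (.I .tdb (.c 8 (.c 0 (.c 24 (.c 32 .nil)))) (.b 40 (.b 16 .nil))) (.I .tdb (.c 40 (.c 33587273 (.c 24 (.c 32 .nil)))) .nil))) (.node (.node (.I .tdb (.c 8 (.c 2049 (.c 24 (.c 32 .nil)))) (.b 40 .nil)) (.I .tdb (.c 8 (.c 24 (.c 1310924937 (.c 32 .nil)))) .nil)) (.node (.I .tdb (.c 8 (.c 24 (.c 33587529 (.c 32 .nil)))) .nil) (.I .tdb (.c 16 (.c 32 (.c 2105673 (.c 24 .nil)))) .nil))))) (.node (.node (.node (.node (.I .tdb (.c 16 (.c 24 (.c 1310924873 (.c 32 .nil)))) .nil) (.I .tdb (.c 24 (.c 32 (.c 1310924873 (.c 16 .nil)))) .nil)) (.node (.I .tdb (.c 24 (.c 32 (.c 2105673 (.c 16 .nil)))) .nil) (.I .tdb (.c 0 (.c 40 (.c 16 (.c 24 .nil)))) (.b 8257 .nil)))) (.node (.node (.I .tdb (.c 32 (.c 4673 (.c 12801 (.c 16 .nil)))) .nil) (.I .tdb (.c 0 (.c 40 (.c 16 (.c 32 .nil)))) (.b 4673 .nil)))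 (.node (.I .tdb (.c 8 (.c 24 (.c 12801 (.c 16 .nil)))) (.b 32 .nil)) (.I .tdb (.c 2113 (.c 32 (.c 12801 (.c 24 .nil)))) .nil)))) (.node (.node (.node (.I .tdb (.c 8 (.c 16 (.c 24 (.c 12801 .nil)))) (.b 32 .nil)) (.I .tdb (.c 8 (.c 24 (.c 12801 (.c 32 .nil)))) (.b 16 .nil))) (.node (.I .tdb (.c 8 (.c 16 (.c 32 (.c 12801 .nil)))) (.b 24 .nil)) (.I .tdb (.c 8 (.c 24 (.c 8321 (.c 12801 .nil)))) .nil))) (.node (.node (.I .tdb (.c 16 (.c 32 (.c 12801 (.c 24 .nil)))) (.b 8 .nil)) (.I .tdb (.c 8 (.c 16 (.c 8385 (.c 12801 .nil)))) .nil)) (.node (.I .tdb (.c 24 (.c 32 (.c 12801 (.c 16 .nil)))) (.b 8 .nil)) (.I .tdb (.c 0 (.c 40 (.c 8 (.c 32 .nil)))) (.b 4737 .nil))))))) (.node (.node (.node (.node (.node (.I .tdb (.c 24 (.c 8193 (.c 8 (.c 40 .nil)))) (.b 16 .nil)) (.I .tdb (.c 0 (.c 32 (.c 40 (.c 8 .nil)))) (.b 24 (.b 16 .nil)))) (.node (.I .tdb (.c 32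 (.c 4609 (.c 8 (.c 40 .nil)))) (.b 16 .nil)) (.I .tdb (.c 24 (.c 8652803 (.c 8 (.c 40 .nil)))) .nil))) (.node (.node (.I .tdb (.c 16 (.c 4609 (.c 8 (.c 40 .nil)))) (.b 32 .nil)) (.I .tdb (.c 0 (.c 24 (.c 40 (.c 8 .nil)))) (.b 16 (.b 32 .nil)))) (.node (.I .tdb (.c 16 (.c 0 (.c 40 (.c 8 .nil)))) (.b 24 (.b 32 .nil))) (.I .tdb (.c 32 (.c 2803715 (.c 8 (.c 40 .nil)))) .nil)))) (.node (.node (.node (.I .tdb (.c 8 (.c 537002185 (.c 16 (.c 40 .nil)))) .nil) (.I .tdb (.c 24 (.c 8193 (.c 16 (.c 40 .nil)))) (.b 8 .nil))) (.node (.I .tdb (.c 0 (.c 32 (.c 40 (.c 16 .nil)))) (.b 24 (.b 8 .nil))) (.I .tdb (.c 8 (.c 169943305 (.c 16 (.c 40 .nil)))) .nil))) (.node (.node (.I .tdb (.c 24 (.c 537002057 (.c 16 (.c 40 .nil)))) .nil) (.I .tdb (.c 8 (.c 8193 (.c 16 (.c 40 .nil)))) (.b 24 .nil))) (.node (.I .tdb (.c 0 (.c 32 (.c 40 (.c 16 .nil)))) (.b 8 (.b 24 .nil)))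 (.I .tdb (.c 32 (.c 169943113 (.c 16 (.c 40 .nil)))) .nil))))) (.node (.node (.node (.node (.I .tdb (.c 8 (.c 4609 (.c 16 (.c 40 .nil)))) (.b 32 .nil)) (.I .tdb (.c 24 (.c 8193 (.c 12865 (.c 16 .nil)))) .nil)) (.node (.I .tdb (.c 8 (.c 40 (.c 16 (.c 24 .nil)))) (.b 8193 .nil)) (.I .tdb (.c 0 (.c 32 (.c 12865 (.c 16 .nil)))) (.b 24 .nil)))) (.node (.node (.I .tdb (.c 8 (.c 40 (.c 16 (.c 24 .nil)))) (.b 0 (.b 32 .nil))) (.I .tdb (.c 8 (.c 16 (.c 40 (.c 169943305 .nil)))) .nil)) (.node (.I .tdb (.c 16 (.c 40 (.c 8 (.c 24 .nil)))) (.b 8193 .nil)) (.I .tdb (.c 16 (.c 40 (.c 8 (.c 0 .nil)))) (.b 32 (.b 24 .nil)))))) (.node (.node (.node (.I .tdb (.c 32 (.c 4609 (.c 12929 (.c 8 .nil)))) .nil) (.I .tdb (.c 16 (.c 40 (.c 8 (.c 32 .nil)))) (.b 4609 .nil))) (.node (.I .tdb (.c 0 (.c 24 (.c 12929 (.c 8 .nil)))) (.b 32 .nil)) (.I .tdb (.c 8 (.c 537002121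 (.c 24 (.c 40 .nil)))) .nil))) (.node (.node (.I .tdb (.c 8 (.c 33587465 (.c 24 (.c 40 .nil)))) .nil) (.I .tdb (.c 32 (.c 2049 (.c 24 (.c 40 .nil)))) (.b 8 .nil))) (.node (.I .tdb (.c 16 (.c 537002057 (.c 24 (.c 40 .nil)))) .nil) (.I .tdb (.c 8 (.c 8193 (.c 24 (.c 40 .nil)))) (.b 16 .nil))))))))

noncomputable def cw_5 : Tr := (.node (.node (.node (.node (.node (.node (.I .tdb (.c 0 (.c 32 (.c 40 (.c 24 .nil)))) (.b 8 (.b 16 .nil))) (.I .tdb (.c 16 (.c 8520195 (.c 24 (.c 40 .nil)))) .nil)) (.node (.I .tdb (.c 32 (.c 33587273 (.c 24 (.c 40 .nil)))) .nil) (.I .tdb (.c 8 (.c 2049 (.c 24 (.c 40 .nil)))) (.b 32 .nil)))) (.node (.node (.I .tdb (.c 16 (.c 0 (.c 40 (.c 24 .nil)))) (.b 8 (.b 32 .nil))) (.I .tdb (.c 32 (.c 557571 (.c 24 (.c 40 .nil)))) .nil)) (.node (.I .tdb (.c 8 (.c 40 (.c 0 (.c 24 .nil)))) (.b 16 (.b 32 .nil))) (.I .tdb (.c 8 (.c 24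 (.c 40 (.c 537002121 .nil)))) .nil)))) (.node (.node (.node (.I .tdb (.c 24 (.c 40 (.c 8 (.c 0 .nil)))) (.b 16 (.b 32 .nil))) (.I .tdb (.c 8 (.c 8193 (.c 12929 (.c 24 .nil)))) .nil)) (.node (.I .tdb (.c 0 (.c 32 (.c 12929 (.c 24 .nil)))) (.b 8 .nil)) (.I .tdb (.c 32 (.c 513 (.c 12929 (.c 24 .nil)))) .nil))) (.node (.node (.I .tdb (.c 16 (.c 40 (.c 24 (.c 32 .nil)))) (.b 513 .nil)) (.I .tdb (.c 16 (.c 24 (.c 40 (.c 537002057 .nil)))) .nil)) (.node (.I .tdb (.c 32 (.c 513 (.c 4737 (.c 40 .nil)))) .nil) (.I .tdb (.c 8 (.c 0 (.c 4737 (.c 40 .nil)))) (.b 32 .nil)))))) (.node (.node (.node (.node (.I .tdb (.c 16 (.c 24 (.c 40 (.c 0 .nil)))) (.b 8 (.b 32 .nil))) (.I .jac (.c 0 (.c 21307523 (.c 24 .nil))) (.b 8 .nil))) (.node (.I .tdb (.c 24 (.c 40 (.c 16 (.c 0 .nil)))) (.b 32 (.b 8 .nil))) (.I .tdb (.c 8 (.c 0 (.c 12993 (.c 16 .nil)))) (.b 32 .nil))))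 (.node (.node (.I .tdb (.c 24 (.c 12865 (.c 16 (.c 32 .nil)))) (.b 0 .nil)) (.I .tdb (.c 0 (.c 32 (.c 174695753 (.c 16 .nil)))) .nil)) (.node (.I .tdb (.c 4673 (.c 40 (.c 16 (.c 0 .nil)))) (.b 32 .nil)) (.I .tdb (.c 0 (.c 32 (.c 1324065929 (.c 24 .nil)))) .nil)))) (.node (.node (.node (.I .tdb (.c 16 (.c 12865 (.c 0 (.c 24 .nil)))) (.b 32 .nil)) (.I .tdb (.c 16 (.c 12865 (.c 24 (.c 32 .nil)))) (.b 0 .nil))) (.node (.I .tdb (.c 0 (.c 32 (.c 35718473 (.c 24 .nil)))) .nil) (.I .tdb (.c 8 (.c 16 (.c 0 (.c 24 .nil)))) (.b 40 (.b 32 .nil))))) (.node (.node (.I .tdb (.c 2113 (.c 40 (.c 24 (.c 32 .nil)))) (.b 0 .nil)) (.I .tdb (.c 0 (.c 32 (.c 40 (.c 174695561 .nil)))) .nil)) (.node (.I .tdb (.c 16 (.c 4673 (.c 32 (.c 40 .nil)))) (.b 0 .nil)) (.I .tdb (.c 0 (.c 32 (.c 1337272521 (.c 8 .nil)))) .nil)))))) (.node (.node (.node (.node (.node (.I .tdb (.c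 24 (.c 12929 (.c 8 (.c 0 .nil)))) (.b 32 .nil)) (.I .jac (.c 8786499 (.c 16 (.c 40 .nil))) (.b 0 .nil))) (.node (.I .tdb (.c 24 (.c 12929 (.c 8 (.c 32 .nil)))) (.b 0 .nil)) (.I .tdb (.c 16 (.c 24 (.c 8 (.c 0 .nil)))) (.b 40 (.b 32 .nil))))) (.node (.node (.I .jac (.c 21307459 (.c 16 (.c 24 .nil))) (.b 0 .nil)) (.I .tdb (.c 16 (.c 24 (.c 8 (.c 32 .nil)))) (.b 40 (.b 0 .nil)))) (.node (.I .tdb (.c 16 (.c 0 (.c 40 (.c 32 .nil)))) (.b 24 (.b 8 .nil))) (.I .tdb (.c 16 (.c 2728451 (.c 32 (.c 40 .nil)))) .nil)))) (.node (.node (.node (.I .tdb (.c 16 (.c 0 (.c 40 (.c 32 .nil)))) (.b 8 (.b 24 .nil))) (.I .tdb (.c 24 (.c 557571 (.c 32 (.c 40 .nil)))) .nil)) (.node (.I .tdb (.c 0 (.c 24 (.c 12865 (.c 32 .nil)))) (.b 16 .nil)) (.I .tdb (.c 24 (.c 2049 (.c 12865 (.c 32 .nil)))) .nil))) (.node (.node (.I .tdb (.c 8 (.c 40 (.c 0 (.c 32 .nil)))) (.b 16 (.b 24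 .nil))) (.I .tdb (.c 32 (.c 40 (.c 33587401 (.c 8 .nil)))) .nil)) (.node (.I .tdb (.c 8 (.c 4609 (.c 12929 (.c 32 .nil)))) .nil) (.I .tdb (.c 0 (.c 24 (.c 12929 (.c 32 .nil)))) (.b 8 .nil)))))) (.node (.node (.node (.node (.I .tdb (.c 8 (.c 0 (.c 12929 (.c 32 .nil)))) (.b 24 .nil)) (.I .tdb (.c 24 (.c 513 (.c 8321 (.c 40 .nil)))) .nil)) (.node (.I .tdb (.c 16 (.c 32 (.c 40 (.c 24 .nil)))) (.b 513 .nil)) (.I .tdb (.c 16 (.c 32 (.c 40 (.c 8 .nil)))) (.b 0 (.b 24 .nil))))) (.node (.node (.I .tdb (.c 16 (.c 32 (.c 40 (.c 0 .nil)))) (.b 8 (.b 24 .nil))) (.I .tdb (.c 32 (.c 40 (.c 169943113 (.c 16 .nil)))) .nil)) (.node (.I .tdb (.c 24 (.c 513 (.c 13057 (.c 16 .nil)))) .nil) (.I .tdb (.c 32 (.c 40 (.c 16 (.c 24 .nil)))) (.b 513 .nil))))) (.node (.node (.node (.I .tdb (.c 8 (.c 0 (.c 13057 (.c 16 .nil)))) (.b 24 .nil)) (.I .tdb (.c 32 (.c 40 (.c 16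 (.c 0 .nil)))) (.b 8 (.b 24 .nil)))) (.node (.I .tdb (.c 0 (.c 24 (.c 1324066057 (.c 16 .nil)))) .nil) (.I .tdb (.c 32 (.c 12865 (.c 16 (.c 0 .nil)))) (.b 24 .nil)))) (.node (.node (.I .tdb (.c 8 (.c 40 (.c 16 (.c 24 .nil)))) (.b 32 (.b 0 .nil))) (.I .tdb (.c 0 (.c 24 (.c 545424713 (.c 16 .nil)))) .nil)) (.node (.I .tdb (.c 8257 (.c 40 (.c 16 (.c 24 .nil)))) (.b 0 .nil)) (.I .tdb (.c 8 (.c 32 (.c 16 (.c 24 .nil)))) (.b 40 (.b 0 .nil)))))))))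

noncomputable def cw_6 : Tr := (.node (.node (.node (.node (.node (.node (.I .tdb (.c 2113 (.c 40 (.c 0 (.c 32 .nil)))) (.b 24 .nil)) (.I .tdb (.c 8 (.c 16 (.c 0 (.c 32 .nil)))) (.b 40 (.b 24 .nil)))) (.node (.I .tdb (.c 16 (.c 32 (.c 12865 (.c 0 .nil)))) (.b 24 .nil)) (.I .tdb (.c 0 (.c 24 (.c 40 (.c 545424521 .nil)))) .nil))) (.node (.node (.I .tdb (.c 16 (.c 8257 (.c 0 (.c 40 .nil)))) (.b 24 .nil)) (.I .tdb (.c 16 (.c 8257 (.c 24 (.c 40 .nil)))) (.b 0 .nil))) (.node (.I .tdb (.c 8 (.c 32 (.c 40 (.c 24 .nil)))) (.b 16 (.b 0 .nil))) (.I .tdb (.c 0 (.c 24 (.c 40 (.c 35718409 .nil)))) .nil)))) (.node (.node (.node (.I .tdb (.c 2113 (.c 32 (.c 0 (.c 40 .nil)))) (.b 24 .nil)) (.I .tdb (.c 8 (.c 16 (.c 0 (.c 40 .nil)))) (.b 32 (.b 24 .nil)))) (.node (.I .tdb (.c 2113 (.c 32 (.c 24 (.c 40 .nil)))) (.b 0 .nil)) (.I .tdb (.c 0 (.c 24 (.c 8257 (.c 12929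 .nil)))) .nil))) (.node (.node (.I .tdb (.c 8 (.c 32 (.c 12929 (.c 0 .nil)))) (.b 24 .nil)) (.I .jac (.c 8 (.c 16 (.c 21307587 .nil))) (.b 0 .nil))) (.node (.I .tdb (.c 16 (.c 40 (.c 24 (.c 32 .nil)))) (.b 8 (.b 0 .nil))) (.I .tdb (.c 0 (.c 24 (.c 13057 (.c 8 .nil)))) (.b 16 .nil)))))) (.node (.node (.node (.node (.I .tdb (.c 32 (.c 40 (.c 8 (.c 0 .nil)))) (.b 24 (.b 16 .nil))) (.I .tdb (.c 32 (.c 40 (.c 8 (.c 24 .nil)))) (.b 0 (.b 16 .nil)))) (.node (.I .jac (.c 0 (.c 21099139 (.c 32 .nil))) (.b 8 .nil)) (.I .tdb (.c 32 (.c 12929 (.c 8 (.c 0 .nil)))) (.b 24 .nil)))) (.node (.node (.I .tdb (.c 0 (.c 24 (.c 553912649 (.c 8 .nil)))) .nil) (.I .tdb (.c 16 (.c 32 (.c 8 (.c 0 .nil)))) (.b 40 (.b 24 .nil)))) (.node (.I .tdb (.c 16 (.c 32 (.c 8 (.c 24 .nil)))) (.b 40 (.b 0 .nil))) (.I .tdb (.c 8 (.c 0 (.c 12993 (.c 32 .nil)))) (.b 16 .nil))))) (.node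 (.node (.node (.I .tdb (.c 8 (.c 2049 (.c 8385 (.c 40 .nil)))) .nil) (.I .tdb (.c 24 (.c 32 (.c 8 (.c 40 .nil)))) (.b 2049 .nil))) (.node (.I .tdb (.c 16 (.c 0 (.c 40 (.c 8385 .nil)))) (.b 8 .nil)) (.I .tdb (.c 24 (.c 32 (.c 16 (.c 40 .nil)))) (.b 0 (.b 8 .nil))))) (.node (.node (.I .tdb (.c 8 (.c 0 (.c 40 (.c 8385 .nil)))) (.b 16 .nil)) (.I .tdb (.c 24 (.c 32 (.c 8 (.c 40 .nil)))) (.b 0 (.b 16 .nil)))) (.node (.I .tdb (.c 32 (.c 40 (.c 33587273 (.c 24 .nil)))) .nil) (.I .tdb (.c 16 (.c 0 (.c 1324066057 (.c 24 .nil)))) .nil)))))) (.node (.node (.node (.node (.node (.I .tdb (.c 32 (.c 12865 (.c 0 (.c 24 .nil)))) (.b 16 .nil)) (.I .tdb (.c 8257 (.c 40 (.c 0 (.c 24 .nil)))) (.b 16 .nil))) (.node (.I .tdb (.c 16 (.c 0 (.c 1324065993 (.c 32 .nil)))) .nil) (.I .tdb (.c 24 (.c 12865 (.c 0 (.c 32 .nil)))) (.b 16 .nil)))) (.node (.node (.I .tdb (.c 16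 (.c 0 (.c 174695753 (.c 32 .nil)))) .nil) (.I .tdb (.c 4673 (.c 40 (.c 0 (.c 32 .nil)))) (.b 16 .nil))) (.node (.I .tdb (.c 8 (.c 32 (.c 40 (.c 16 .nil)))) (.b 24 (.b 0 .nil))) (.I .tdb (.c 8 (.c 32 (.c 40 (.c 0 .nil)))) (.b 24 (.b 16 .nil)))))) (.node (.node (.node (.I .tdb (.c 16 (.c 0 (.c 40 (.c 174695689 .nil)))) .nil) (.I .tdb (.c 32 (.c 4673 (.c 16 (.c 40 .nil)))) (.b 0 .nil))) (.node (.I .tdb (.c 32 (.c 4673 (.c 0 (.c 40 .nil)))) (.b 16 .nil)) (.I .tdb (.c 8 (.c 24 (.c 40 (.c 0 .nil)))) (.b 32 (.b 16 .nil))))) (.node (.node (.I .tdb (.c 16 (.c 0 (.c 8257 (.c 12993 .nil)))) .nil) (.I .jac (.c 8 (.c 21307523 (.c 24 .nil))) (.b 0 .nil))) (.node (.I .tdb (.c 24 (.c 40 (.c 16 (.c 32 .nil)))) (.b 8 (.b 0 .nil))) (.I .tdb (.c 16 (.c 0 (.c 13057 (.c 8 .nil)))) (.b 24 .nil)))))) (.node (.node (.node (.node (.I .tdb (.c 32 (.c 40 (.c 8 (.c 0 .nil))))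 (.b 16 (.b 24 .nil))) (.I .tdb (.c 16 (.c 0 (.c 1350544649 (.c 8 .nil)))) .nil)) (.node (.I .tdb (.c 16 (.c 0 (.c 562466121 (.c 8 .nil)))) .nil) (.I .jac (.c 20891715 (.c 24 (.c 32 .nil))) (.b 0 .nil)))) (.node (.node (.I .tdb (.c 40 (.c 8385 (.c 8 (.c 16 .nil)))) (.b 0 .nil)) (.I .tdb (.c 24 (.c 32 (.c 8 (.c 16 .nil)))) (.b 40 (.b 0 .nil)))) (.node (.I .jac (.c 20685315 (.c 24 (.c 32 .nil))) (.b 16 .nil)) (.I .tdb (.c 40 (.c 8385 (.c 8 (.c 0 .nil)))) (.b 16 .nil))))) (.node (.node (.node (.I .tdb (.c 24 (.c 32 (.c 8 (.c 0 .nil)))) (.b 40 (.b 16 .nil))) (.I .jac (.c 8786435 (.c 16 (.c 40 .nil))) (.b 8 .nil))) (.node (.I .tdb (.c 32 (.c 12929 (.c 0 (.c 24 .nil)))) (.b 8 .nil)) (.I .tdb (.c 8 (.c 0 (.c 553912649 (.c 24 .nil)))) .nil))) (.node (.node (.I .jac (.c 21099011 (.c 16 (.c 32 .nil))) (.b 8 .nil)) (.I .jac (.c 21307395 (.c 16 (.c 24 .nil)))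 (.b 8 .nil))) (.node (.I .tdb (.c 8 (.c 0 (.c 8385 (.c 12929 .nil)))) .nil) (.I .tdb (.c 24 (.c 32 (.c 12929 (.c 8 .nil)))) (.b 0 .nil))))))))

noncomputable def cw_7 : Tr := (.node (.node (.node (.node (.node (.node (.I .tdb (.c 24 (.c 32 (.c 12929 (.c 0 .nil)))) (.b 8 .nil)) (.I .tdb (.c 16 (.c 32 (.c 40 (.c 8 .nil)))) (.b 24 (.b 0 .nil)))) (.node (.I .tdb (.c 16 (.c 32 (.c 40 (.c 0 .nil)))) (.b 24 (.b 8 .nil))) (.I .tdb (.c 8 (.c 0 (.c 40 (.c 179513609 .nil)))) .nil))) (.node (.node (.I .tdb (.c 32 (.c 4737 (.c 8 (.c 40 .nil)))) (.b 0 .nil)) (.I .tdb (.c 32 (.c 4737 (.c 0 (.c 40 .nil)))) (.b 8 .nil))) (.node (.I .tdb (.c 16 (.c 24 (.c 40 (.c 0 .nil)))) (.b 32 (.b 8 .nil))) (.I .tdb (.c 8 (.c 0 (.c 8321 (.c 12993 .nil)))) .nil)))) (.node (.node (.node (.I .tdb (.c 24 (.c 40 (.c 8 (.c 32 .nil)))) (.b 16 (.b 0 .nil))) (.I .tdb (.c 16 (.c 32 (.c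 12993 (.c 8 .nil)))) (.b 0 .nil))) (.node (.I .tdb (.c 16 (.c 32 (.c 12993 (.c 0 .nil)))) (.b 8 .nil)) (.I .tdb (.c 32 (.c 40 (.c 8 (.c 16 .nil)))) (.b 24 (.b 0 .nil))))) (.node (.node (.I .tdb (.c 32 (.c 40 (.c 8 (.c 24 .nil)))) (.b 16 (.b 0 .nil))) (.I .tdb (.c 8 (.c 0 (.c 1350544649 (.c 16 .nil)))) .nil)) (.node (.I .tdb (.c 24 (.c 21307459 (.c 16 (.c 0 .nil)))) .nil) (.I .tdb (.c 32 (.c 21099075 (.c 16 (.c 0 .nil)))) .nil))))) (.node (.node (.node (.node (.I .tdb (.c 8 (.c 32 (.c 16 (.c 0 .nil)))) (.b 24 (.b 40 .nil))) (.I .tdb (.c 8 (.c 24 (.c 16 (.c 0 .nil)))) (.b 32 (.b 40 .nil)))) (.node (.I .tdb (.c 16 (.c 21307459 (.c 0 (.c 24 .nil)))) .nil) (.I .tdb (.c 32 (.c 20891715 (.c 0 (.c 24 .nil)))) .nil))) (.node (.node (.I .tdb (.c 8 (.c 16 (.c 0 (.c 24 .nil)))) (.b 32 (.b 40 .nil))) (.I .tdb (.c 16 (.c 24 (.c 545424713 (.c 0 .nil)))) .nil))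 (.node (.I .tdb (.c 16 (.c 4673 (.c 0 (.c 32 .nil)))) (.b 40 .nil)) (.I .tdb (.c 24 (.c 32 (.c 35718473 (.c 0 .nil)))) .nil)))) (.node (.node (.node (.I .tdb (.c 24 (.c 8321 (.c 12865 (.c 0 .nil)))) .nil) (.I .tdb (.c 8 (.c 40 (.c 0 (.c 24 .nil)))) (.b 8321 .nil))) (.node (.I .tdb (.c 32 (.c 4737 (.c 12865 (.c 0 .nil)))) .nil) (.I .tdb (.c 8 (.c 40 (.c 0 (.c 32 .nil)))) (.b 4737 .nil)))) (.node (.node (.I .tdb (.c 16 (.c 24 (.c 12865 (.c 0 .nil)))) (.b 32 .nil)) (.I .tdb (.c 16 (.c 8786499 (.c 40 (.c 0 .nil)))) .nil)) (.node (.I .tdb (.c 24 (.c 8652867 (.c 0 (.c 40 .nil)))) .nil) (.I .tdb (.c 16 (.c 40 (.c 0 (.c 24 .nil)))) (.b 8257 .nil))))))) (.node (.node (.node (.node (.node (.I .tdb (.c 32 (.c 4673 (.c 12929 (.c 0 .nil)))) .nil) (.I .tdb (.c 8 (.c 24 (.c 12929 (.c 0 .nil)))) (.b 32 .nil))) (.node (.I .tdb (.c 16 (.c 8257 (.c 12993 (.c 0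 .nil)))) .nil) (.I .tdb (.c 2113 (.c 32 (.c 12993 (.c 0 .nil)))) .nil))) (.node (.node (.I .tdb (.c 8 (.c 16 (.c 0 (.c 12993 .nil)))) (.b 32 .nil)) (.I .tdb (.c 32 (.c 40 (.c 174695561 (.c 0 .nil)))) .nil)) (.node (.I .tdb (.c 8 (.c 24 (.c 1337272585 (.c 0 .nil)))) .nil) (.I .tdb (.c 8 (.c 24 (.c 553912649 (.c 0 .nil)))) .nil)))) (.node (.node (.node (.I .tdb (.c 8 (.c 16 (.c 0 (.c 1350544649 .nil)))) .nil) (.I .tdb (.c 16 (.c 24 (.c 8 (.c 0 .nil)))) (.b 32 (.b 40 .nil)))) (.node (.I .jac (.c 513 (.c 16 (.c 24 .nil))) (.b 13057 .nil)) (.I .jac (.c 2049 (.c 8 (.c 24 .nil))) (.b 13057 .nil)))) (.node (.node (.I .jac (.c 4609 (.c 8 (.c 16 .nil))) (.b 13057 .nil)) (.I .tdb (.c 32 (.c 40 (.c 16 (.c 0 .nil)))) (.b 4673 .nil))) (.node (.I .com (.c 59555558875465 (.c 12929 .nil)) .nil) (.I .com (.c 62886542410057 (.c 12865 .nil)) .nil))))) (.node (.node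 (.node (.node (.I .com (.c 62886542410121 (.c 8257 .nil)) .nil) (.I .tdb (.c 32 (.c 40 (.c 0 (.c 24 .nil)))) (.b 2113 .nil))) (.node (.I .com (.c 2487083360649 (.c 8385 .nil)) .nil) (.I .com (.c 580749782704393 (.c 12929 .nil)) .nil))) (.node (.node (.I .com (.c 580749782704521 (.c 4737 .nil)) .nil) (.I .com (.c 598967998054665 (.c 12865 .nil)) .nil)) (.node (.I .com (.c 49484669142536990413609865 (.c 24 .nil)) .nil) (.I .com (.c 49484669139990217052338121 (.c 24 .nil)) .nil)))) (.node (.node (.node (.I .tdb (.c 16 (.c 40 (.c 8 (.c 0 .nil)))) (.b 8385 .nil)) (.I .com (.c 2698162480890786870601550715721 (.c 16 .nil)) .nil)) (.node (.I .com (.c 617611520074121 (.c 2113 .nil)) .nil) (.I .jac (.c 0 (.c 16 (.c 40 .nil))) (.b 8786499 .nil)))) (.node (.node (.I .com (.c 28374916743812808375320238985 (.c 16 .nil)) .nil) (.I .com (.c 28374916743751823483031730121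 (.c 16 .nil)) .nil)) (.node (.I .tdb (.c 8 (.c 40 (.c 16 (.c 0 .nil)))) (.b 8385 .nil)) (.I .com (.c 2870101301550132088254642182985 (.c 8 .nil)) .nil)))))))

noncomputable def cw_8 : Tr := (.node (.node (.node (.node (.node (.node (.I .com (.c 2870101301548905401794626098121 (.c 8 .nil)) .nil) (.I .com (.c 3051551917826130935626671381257 (.c 8 .nil)) .nil)) (.node (.I .com (.c 3051551917824233633037003976649 (.c 8 .nil)) .nil) (.I .tdb (.c 0 (.c 40 (.c 8 (.c 16 .nil)))) (.b 8385 .nil)))) (.node (.node (.I .com (.c 3423058053193993 (.c 8321 .nil)) .nil) (.I .com (.c 3423058053194057 (.c 4737 .nil)) .nil)) (.node (.I .com (.c 3491688652046601 (.c 8257 .nil)) .nil) (.I .com (.c 93738611484289995286311130272649 (.c 16 .nil)) .nil)))) (.node (.node (.node (.I .com (.c 3561346121425225 (.c 2113 .nil)) .nil) (.I .com (.c 97535117142651651247146700977993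 (.c 8 .nil)) .nil)) (.node (.I .com (.c 101465489572723947598282130405129 (.c 8 .nil)) .nil) (.I .tdb (.c 8 (.c 32 (.c 16 (.c 24 .nil)))) (.b 12801 .nil)))) (.node (.node (.I .tdb (.c 0 (.c 32 (.c 16 (.c 24 .nil)))) (.b 12865 .nil)) (.I .tdb (.c 16 (.c 24 (.c 40 (.c 0 .nil)))) (.b 8257 .nil))) (.node (.I .tdb (.c 8 (.c 24 (.c 40 (.c 0 .nil)))) (.b 8321 .nil)) (.I .tdb (.c 8 (.c 24 (.c 0 (.c 32 .nil)))) (.b 12929 .nil)))))) (.node (.node (.node (.node (.I .tdb (.c 8 (.c 24 (.c 40 (.c 16 .nil)))) (.b 8193 .nil)) (.I .tdb (.c 8 (.c 24 (.c 16 (.c 32 .nil)))) (.b 12801 .nil))) (.node (.I .tdb (.c 0 (.c 24 (.c 40 (.c 8 .nil)))) (.b 8321 .nil)) (.I .tdb (.c 0 (.c 24 (.c 16 (.c 32 .nil)))) (.b 12865 .nil)))) (.node (.node (.I .tdb (.c 8 (.c 16 (.c 0 (.c 32 .nil)))) (.b 12993 .nil)) (.I .tdb (.c 8 (.c 0 (.c 16 (.c 32 .nil)))) (.b 12993 .nil))) (.node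 (.I .tdb (.c 8 (.c 16 (.c 24 (.c 32 .nil)))) (.b 12801 .nil)) (.I .jac (.c 0 (.c 16 (.c 24 .nil))) (.b 21307459 .nil))))) (.node (.node (.node (.I .tdb (.c 8 (.c 24 (.c 16 (.c 0 .nil)))) (.b 13057 .nil)) (.I .com (.c 105533754468739142964158285779721 (.c 8 .nil)) .nil)) (.node (.I .com (.c 105533754468735423754529113698121 (.c 8 .nil)) .nil) (.I .tdb (.c 8 (.c 16 (.c 0 (.c 24 .nil)))) (.b 13057 .nil)))) (.node (.node (.I .tdb (.c 16 (.c 0 (.c 8 (.c 24 .nil)))) (.b 13057 .nil)) (.I .tdb (.c 8 (.c 0 (.c 40 (.c 32 .nil)))) (.b 4737 .nil))) (.node (.I .tdb (.c 16 (.c 0 (.c 40 (.c 32 .nil)))) (.b 4673 .nil)) (.I .tdb (.c 8 (.c 16 (.c 32 (.c 40 .nil)))) (.b 4609 .nil))))))) (.node (.node (.node (.node (.node (.I .tdb (.c 8 (.c 32 (.c 40 (.c 24 .nil)))) (.b 2049 .nil)) (.I .tdb (.c 0 (.c 32 (.c 40 (.c 24 .nil)))) (.b 2113 .nil))) (.node (.I .tdb (.c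 8 (.c 24 (.c 40 (.c 32 .nil)))) (.b 2049 .nil)) (.I .jac (.c 2803715 (.c 32 (.c 40 .nil))) (.b 8 .nil)))) (.node (.node (.I .com (.c 101465489572713007142997112408969 (.c 16 .nil)) .nil) (.I .com (.c 3051551917823601198840448306121 (.c 16 .nil)) .nil)) (.node (.I .com (.c 3561367726910545 (.c 16 .nil)) .nil) (.I .jac (.c 2728451 (.c 32 (.c 40 .nil))) (.b 16 .nil))))) (.node (.node (.node (.I .com (.c 3632062472330321 (.c 16 .nil)) .nil) (.I .com (.c 93738611484286490074864659656585 (.c 24 .nil)) .nil)) (.node (.I .com (.c 97535117142651651247146700977865 (.c 24 .nil)) .nil) (.I .com (.c 97535117142640924779607613918089 (.c 24 .nil)) .nil))) (.node (.node (.I .com (.c 2698162480890786870601550715657 (.c 24 .nil)) .nil) (.I .com (.c 2870101301550132088254642182857 (.c 24 .nil)) .nil)) (.node (.I .com (.c 2870101301547678715334610275273 (.c 24 .nil))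 .nil) (.I .com (.c 598976858659921 (.c 24 .nil)) .nil))))) (.node (.node (.node (.node (.I .com (.c 3632062472309841 (.c 24 .nil)) .nil) (.I .com (.c 97535117142648075757967005225673 (.c 32 .nil)) .nil)) (.node (.I .com (.c 97535117142640924779607613918025 (.c 32 .nil)) .nil) (.I .com (.c 28374916743812808375320238857 (.c 32 .nil)) .nil))) (.node (.node (.I .com (.c 3491710045166673 (.c 32 .nil)) .nil) (.I .com (.c 101465489572716653961425451675337 (.c 32 .nil)) .nil)) (.node (.I .com (.c 101465489572713007142997112408841 (.c 32 .nil)) .nil) (.I .com (.c 49484669142536990413609801 (.c 32 .nil)) .nil)))) (.node (.node (.node (.I .com (.c 3561367726861393 (.c 32 .nil)) .nil) (.I .com (.c 2870101301548905401794626097865 (.c 40 .nil)) .nil)) (.node (.I .com (.c 2870101301547678715334610275145 (.c 40 .nil)) .nil) (.I .com (.c 28374916743751823483031729929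 (.c 40 .nil)) .nil))) (.node (.node (.I .com (.c 28374916743629853698454908809 (.c 40 .nil)) .nil) (.I .com (.c 3051551917824233633037003976393 (.c 40 .nil)) .nil)) (.node (.I .com (.c 3051551917823601198840448305929 (.c 40 .nil)) .nil) (.I .com (.c 49484669139990217052337993 (.c 40 .nil)) .nil)))))))

noncomputable def cw_9 : Tr := (.node (.node (.node (.node (.node (.node (.I .com (.c 49484669137443443691131785 (.c 40 .nil)) .nil) (.I .com (.c 2728451 (.c 1337272585 .nil)) .nil)) (.node (.I .com (.c 2728451 (.c 553912649 .nil)) .nil) (.I .com (.c 2803715 (.c 1324066057 .nil)) .nil))) (.node (.node (.I .com (.c 2803715 (.c 545424713 .nil)) .nil) (.I .com (.c 8520195 (.c 1337272521 .nil)) .nil)) (.node (.I .com (.c 8520195 (.c 179513673 .nil)) .nil) (.I .com (.c 8652803 (.c 1324065993 .nil)) .nil)))) (.node (.node (.node (.I .com (.c 3561367726845001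 (.c 8321 .nil)) .nil) (.I .tdb (.c 24 (.c 40 (.c 8 (.c 16 .nil)))) (.l 8193 .nil))) (.node (.I .tdb (.c 24 (.c 40 (.c 8 (.c 32 .nil)))) (.l 2049 .nil)) (.I .com (.c 8786435 (.c 35718473 .nil)) .nil))) (.node (.node (.I .com (.c 3491688652046473 (.c 8385 .nil)) .nil) (.I .tdb (.c 16 (.c 40 (.c 8 (.c 24 .nil)))) (.t 0 32 .nil))) (.node (.I .tdb (.c 16 (.c 40 (.c 8 (.c 32 .nil)))) (.t 0 24 .nil)) (.I .tdb (.c 8 (.c 40 (.c 16 (.c 24 .nil)))) (.t 0 32 .nil)))))) (.node (.node (.node (.node (.I .tdb (.c 8 (.c 40 (.c 16 (.c 24 .nil)))) (.l 8193 .nil)) (.I .tdb (.c 8 (.c 40 (.c 16 (.c 32 .nil)))) (.t 0 24 .nil))) (.node (.I .tdb (.c 8 (.c 40 (.c 24 (.c 32 .nil)))) (.l 2049 .nil)) (.I .tdb (.c 0 (.c 40 (.c 8 (.c 16 .nil)))) (.t 24 32 .nil)))) (.node (.node (.I .tdb (.c 0 (.c 40 (.c 8 (.c 16 .nil)))) (.l 8385 .nil)) (.I .tdb (.c 0 (.c 40 (.c 16 (.c 24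 .nil)))) (.t 8 32 .nil))) (.node (.I .tdb (.c 0 (.c 40 (.c 16 (.c 24 .nil)))) (.l 8257 .nil)) (.I .tdb (.c 0 (.c 40 (.c 8 (.c 32 .nil)))) (.t 16 24 .nil))))) (.node (.node (.node (.I .tdb (.c 0 (.c 40 (.c 8 (.c 32 .nil)))) (.l 4737 .nil)) (.I .tdb (.c 0 (.c 40 (.c 24 (.c 32 .nil)))) (.t 8 16 .nil))) (.node (.I .tdb (.c 0 (.c 40 (.c 24 (.c 32 .nil)))) (.l 2113 .nil)) (.I .com (.c 20685315 (.c 553912521 .nil)) .nil))) (.node (.node (.I .com (.c 20685315 (.c 179513609 .nil)) .nil) (.I .com (.c 20891651 (.c 545424585 .nil)) .nil)) (.node (.I .tdb (.c 24 (.c 32 (.c 8 (.c 16 .nil)))) (.l 12801 .nil)) (.I .com (.c 21099011 (.c 35718409 .nil)) .nil)))))) (.node (.node (.node (.node (.node (.I .com (.c 598967998054537 (.c 12993 .nil)) .nil) (.I .com (.c 598976858557513 (.c 12993 .nil)) .nil)) (.node (.I .tdb (.c 16 (.c 32 (.c 8 (.c 24 .nil)))) (.t 0 40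 .nil)) (.I .tdb (.c 8 (.c 32 (.c 16 (.c 0 .nil)))) (.l 12993 .nil)))) (.node (.node (.I .tdb (.c 8 (.c 32 (.c 0 (.c 24 .nil)))) (.l 12929 .nil)) (.I .tdb (.c 8 (.c 32 (.c 16 (.c 24 .nil)))) (.t 0 40 .nil))) (.node (.I .tdb (.c 8 (.c 32 (.c 16 (.c 24 .nil)))) (.l 12801 .nil)) (.I .tdb (.c 0 (.c 32 (.c 8 (.c 16 .nil)))) (.t 24 40 .nil))))) (.node (.node (.node (.I .tdb (.c 0 (.c 32 (.c 8 (.c 16 .nil)))) (.l 12993 .nil)) (.I .tdb (.c 0 (.c 32 (.c 16 (.c 24 .nil)))) (.t 8 40 .nil))) (.node (.I .tdb (.c 0 (.c 32 (.c 16 (.c 24 .nil)))) (.l 12865 .nil)) (.I .tdb (.c 16 (.c 24 (.c 8 (.c 32 .nil)))) (.t 0 40 .nil)))) (.node (.node (.I .tdb (.c 16 (.c 24 (.c 8 (.c 32 .nil)))) (.l 12801 .nil)) (.I .tdb (.c 16 (.c 24 (.c 40 (.c 8 .nil)))) (.t 0 32 .nil))) (.node (.I .tdb (.c 16 (.c 24 (.c 40 (.c 8 .nil)))) (.l 8193 .nil)) (.I .tdb (.c 8 (.c 24 (.c 0 (.c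 32 .nil)))) (.l 12929 .nil)))))) (.node (.node (.node (.node (.I .tdb (.c 8 (.c 24 (.c 16 (.c 32 .nil)))) (.l 12801 .nil)) (.I .tdb (.c 0 (.c 24 (.c 40 (.c 8 .nil)))) (.l 8321 .nil))) (.node (.I .tdb (.c 0 (.c 24 (.c 16 (.c 32 .nil)))) (.t 8 40 .nil)) (.I .tdb (.c 0 (.c 24 (.c 16 (.c 32 .nil)))) (.l 12865 .nil)))) (.node (.node (.I .tdb (.c 0 (.c 24 (.c 40 (.c 16 .nil)))) (.t 8 32 .nil)) (.I .tdb (.c 0 (.c 24 (.c 40 (.c 16 .nil)))) (.l 8257 .nil))) (.node (.I .tdb (.c 8 (.c 16 (.c 0 (.c 32 .nil)))) (.l 12993 .nil)) (.I .tdb (.c 16 (.c 0 (.c 8 (.c 32 .nil)))) (.t 24 40 .nil))))) (.node (.node (.node (.I .tdb (.c 16 (.c 0 (.c 8 (.c 32 .nil)))) (.l 12993 .nil)) (.I .tdb (.c 16 (.c 0 (.c 40 (.c 8 .nil)))) (.t 24 32 .nil))) (.node (.I .tdb (.c 8 (.c 0 (.c 16 (.c 32 .nil)))) (.l 12993 .nil)) (.I .tdb (.c 8 (.c 0 (.c 40 (.c 16 .nil)))) (.l 8385 .nil))))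 (.node (.node (.I .tdb (.c 8 (.c 16 (.c 24 (.c 32 .nil)))) (.t 0 40 .nil)) (.I .tdb (.c 8 (.c 16 (.c 24 (.c 40 .nil)))) (.t 0 32 .nil))) (.node (.I .tdb (.c 8 (.c 16 (.c 24 (.c 40 .nil)))) (.l 8193 .nil)) (.I .com (.c 59555558875337 (.c 13057 .nil)) .nil)))))))

noncomputable def cw_10 : Tr := (.node (.node (.node (.node (.node (.node (.I .com (.c 2487083360521 (.c 13057 .nil)) .nil) (.I .tdb (.c 8 (.c 24 (.c 16 (.c 0 .nil)))) (.l 13057 .nil))) (.node (.I .tdb (.c 16 (.c 32 (.c 40 (.c 8 .nil)))) (.t 0 24 .nil)) (.I .tdb (.c 16 (.c 32 (.c 40 (.c 8 .nil)))) (.l 4609 .nil)))) (.node (.node (.I .tdb (.c 8 (.c 32 (.c 40 (.c 16 .nil)))) (.t 0 24 .nil)) (.I .tdb (.c 8 (.c 32 (.c 40 (.c 16 .nil)))) (.l 4609 .nil))) (.node (.I .tdb (.c 0 (.c 32 (.c 40 (.c 8 .nil)))) (.t 16 24 .nil)) (.I .tdb (.c 0 (.c 32 (.c 40 (.c 8 .nil)))) (.l 4737 .nil))))) (.node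 (.node (.node (.I .tdb (.c 8 (.c 16 (.c 0 (.c 24 .nil)))) (.l 13057 .nil)) (.I .tdb (.c 8 (.c 16 (.c 32 (.c 40 .nil)))) (.l 4609 .nil))) (.node (.I .tdb (.c 0 (.c 32 (.c 40 (.c 24 .nil)))) (.t 8 16 .nil)) (.I .tdb (.c 0 (.c 32 (.c 40 (.c 24 .nil)))) (.l 2113 .nil)))) (.node (.node (.I .tdb (.c 8 (.c 24 (.c 40 (.c 32 .nil)))) (.l 2049 .nil)) (.I .com (.c 8520195 (.c 12929 .nil)) (.b 24 .nil))) (.node (.I .adp (.c 8520195 (.c 12929 (.c 24 .nil))) .nil) (.I .com (.c 20685315 (.c 8321 .nil)) (.b 24 .nil)))))) (.node (.node (.node (.node (.I .adp (.c 20685315 (.c 8321 (.c 24 .nil))) .nil) (.I .com (.c 8652803 (.c 12865 .nil)) (.b 24 .nil))) (.node (.I .adp (.c 8652803 (.c 12865 (.c 24 .nil))) .nil) (.I .com (.c 20891651 (.c 8257 .nil)) (.b 24 .nil)))) (.node (.node (.I .adp (.c 20891651 (.c 8257 (.c 24 .nil))) .nil) (.I .com (.c 2728451 (.c 12929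 .nil)) (.b 32 .nil))) (.node (.I .adp (.c 2728451 (.c 12929 (.c 32 .nil))) .nil) (.I .com (.c 20685315 (.c 4737 .nil)) (.b 32 .nil))))) (.node (.node (.node (.I .adp (.c 20685315 (.c 4737 (.c 32 .nil))) .nil) (.I .adp (.c 2803715 (.c 12865 (.c 32 .nil))) .nil)) (.node (.I .adp (.c 4609 (.c 20891715 (.c 32 .nil))) .nil) (.I .com (.c 21099011 (.c 2113 .nil)) (.b 32 .nil)))) (.node (.node (.I .adp (.c 21099011 (.c 2113 (.c 32 .nil))) .nil) (.I .adp (.c 2049 (.c 21099075 (.c 32 .nil))) .nil)) (.node (.I .com (.c 2728451 (.c 8321 .nil)) (.b 40 .nil)) (.I .adp (.c 2728451 (.c 8321 (.c 40 .nil))) .nil)))))) (.node (.node (.node (.node (.node (.I .com (.c 8520195 (.c 4737 .nil)) (.b 40 .nil)) (.I .adp (.c 8520195 (.c 4737 (.c 40 .nil))) .nil)) (.node (.I .adp (.c 2803715 (.c 8257 (.c 40 .nil))) .nil) (.I .adp (.c 4609 (.c 8652867 (.c 40 .nil))) .nil)))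 (.node (.node (.I .com (.c 8786435 (.c 2113 .nil)) (.b 40 .nil)) (.I .adp (.c 8786435 (.c 2113 (.c 40 .nil))) .nil)) (.node (.I .adp (.c 2049 (.c 8786499 (.c 40 .nil))) .nil) (.I .tdb (.c 16 (.c 40 (.c 8 (.c 0 .nil)))) (.b 24 (.l 32 .nil)))))) (.node (.node (.node (.I .tdp (.c 8257 (.c 12993 (.c 16 (.c 0 .nil)))) .nil) (.I .tdb (.c 24 (.c 40 (.c 16 (.c 0 .nil)))) (.r 8257 .nil))) (.node (.I .com (.c 97536312314082855488951506397001 (.c 32 .nil)) .nil) (.I .tdp (.c 12801 (.c 8385 (.c 8 (.c 16 .nil)))) .nil))) (.node (.node (.I .tdb (.c 24 (.c 32 (.c 8 (.c 16 .nil)))) (.r 12801 .nil)) (.I .com (.c 12801 (.c 598976858557705 .nil)) .nil)) (.node (.I .tdp (.c 8193 (.c 12993 (.c 8 (.c 16 .nil)))) .nil) (.I .tdb (.c 24 (.c 40 (.c 8 (.c 16 .nil)))) (.r 8193 .nil)))))) (.node (.node (.node (.node (.I .com (.c 8193 (.c 3491710045129993 .nil)) .nil) (.I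 .tdp (.c 8257 (.c 12929 (.c 0 (.c 24 .nil)))) .nil)) (.node (.I .tdb (.c 16 (.c 40 (.c 0 (.c 24 .nil)))) (.r 8257 .nil)) (.I .com (.c 101466720686505037251115829520137 (.c 32 .nil)) .nil))) (.node (.node (.I .tdp (.c 12801 (.c 8321 (.c 8 (.c 24 .nil)))) .nil) (.I .tdb (.c 16 (.c 32 (.c 8 (.c 24 .nil)))) (.r 12801 .nil))) (.node (.I .com (.c 12801 (.c 617620517416137 .nil)) .nil) (.I .tdp (.c 8193 (.c 12929 (.c 8 (.c 24 .nil)))) .nil)))) (.node (.node (.node (.I .tdb (.c 16 (.c 40 (.c 8 (.c 24 .nil)))) (.r 8193 .nil)) (.I .com (.c 8193 (.c 3561367726845129 .nil)) .nil)) (.node (.I .tdb (.c 16 (.c 40 (.c 8 (.c 0 .nil)))) (.b 32 (.l 24 .nil))) (.I .tdp (.c 4673 (.c 13057 (.c 16 (.c 0 .nil)))) .nil))) (.node (.node (.I .tdb (.c 32 (.c 40 (.c 16 (.c 0 .nil)))) (.r 4673 .nil)) (.I .tdb (.c 8 (.c 24 (.c 13057 (.c 16 .nil)))) (.b 0 .nil))) (.node (.I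 .tdb (.c 0 (.c 40 (.c 8 (.c 16 .nil)))) (.b 32 (.l 24 .nil))) (.I .com (.c 97536312314082855488951506397065 (.c 24 .nil)) .nil)))))))

noncomputable def cw_11 : Tr := (.node (.node (.node (.node (.node (.node (.I .com (.c 2870186216699415475033029961673 (.c 24 .nil)) .nil) (.I .com (.c 4609 (.c 598976858557833 .nil)) .nil)) (.node (.I .tdp (.c 4673 (.c 12929 (.c 0 (.c 32 .nil)))) .nil) (.I .tdb (.c 16 (.c 40 (.c 0 (.c 32 .nil)))) (.r 4673 .nil)))) (.node (.node (.I .tdb (.c 8 (.c 24 (.c 12929 (.c 32 .nil)))) (.b 0 .nil)) (.I .tdb (.c 0 (.c 40 (.c 8 (.c 32 .nil)))) (.b 16 (.l 24 .nil)))) (.node (.I .tdp (.c 4609 (.c 12929 (.c 8 (.c 32 .nil)))) .nil) (.I .tdb (.c 16 (.c 40 (.c 8 (.c 32 .nil)))) (.r 4609 .nil))))) (.node (.node (.node (.I .com (.c 4609 (.c 3632062472293577 .nil)) .nil) (.I .tdb (.c 24 (.c 40 (.c 8 (.c 0 .nil)))) (.b 32 (.r 16 .nil))))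 (.node (.I .tdp (.c 2113 (.c 13057 (.c 0 (.c 24 .nil)))) .nil) (.I .tdb (.c 32 (.c 40 (.c 0 (.c 24 .nil)))) (.r 2113 .nil)))) (.node (.node (.I .tdb (.c 8 (.c 16 (.c 24 (.c 13057 .nil)))) (.b 0 .nil)) (.I .tdb (.c 0 (.c 40 (.c 8 (.c 24 .nil)))) (.b 32 (.l 16 .nil)))) (.node (.I .com (.c 2049 (.c 617620517416329 .nil)) .nil) (.I .tdp (.c 2113 (.c 12993 (.c 0 (.c 32 .nil)))) .nil))))) (.node (.node (.node (.node (.I .tdb (.c 24 (.c 40 (.c 0 (.c 32 .nil)))) (.r 2113 .nil)) (.I .tdb (.c 8 (.c 16 (.c 32 (.c 12993 .nil)))) (.b 0 .nil))) (.node (.I .tdb (.c 0 (.c 40 (.c 8 (.c 32 .nil)))) (.b 24 (.l 16 .nil))) (.I .tdp (.c 2049 (.c 12993 (.c 8 (.c 32 .nil)))) .nil))) (.node (.node (.I .tdb (.c 24 (.c 40 (.c 8 (.c 32 .nil)))) (.r 2049 .nil)) (.I .com (.c 2049 (.c 3632062472293641 .nil)) .nil)) (.node (.I .tdb (.c 24 (.c 40 (.c 16 (.c 0 .nil)))) (.b 32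 (.r 8 .nil))) (.I .tdb (.c 16 (.c 40 (.c 0 (.c 24 .nil)))) (.b 32 (.r 8 .nil)))))) (.node (.node (.node (.I .tdb (.c 16 (.c 40 (.c 0 (.c 32 .nil)))) (.b 24 (.r 8 .nil))) (.I .tdb (.c 0 (.c 40 (.c 16 (.c 32 .nil)))) (.b 24 (.l 8 .nil)))) (.node (.I .com (.c 105536290384975911038036627826505 (.c 8 .nil)) .nil) (.I .tdb (.c 0 (.c 40 (.c 24 (.c 32 .nil)))) (.b 16 (.l 8 .nil))))) (.node (.node (.I .com (.c 105537558360238163450942167246601 (.c 8 .nil)) .nil) (.I .tdb (.c 0 (.c 40 (.c 8 (.c 24 .nil)))) (.b 32 (.r 16 .nil)))) (.node (.I .tdb (.c 24 (.c 40 (.c 8 (.c 0 .nil)))) (.b 32 (.l 16 .nil))) (.I .tdb (.c 24 (.c 40 (.c 16 (.c 0 .nil)))) (.b 32 (.l 8 .nil)))))))) (.node (.node (.node (.node (.node (.I .tdb (.c 16 (.c 40 (.c 0 (.c 24 .nil)))) (.b 32 (.l 8 .nil))) (.I .tdb (.c 0 (.c 40 (.c 8 (.c 32 .nil)))) (.b 24 (.r 16 .nil)))) (.node (.I .tdb (.c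 0 (.c 40 (.c 16 (.c 32 .nil)))) (.b 24 (.r 8 .nil))) (.I .tdb (.c 16 (.c 40 (.c 0 (.c 32 .nil)))) (.b 24 (.l 8 .nil))))) (.node (.node (.I .tdb (.c 0 (.c 40 (.c 8 (.c 32 .nil)))) (.b 16 (.r 24 .nil))) (.I .tdb (.c 0 (.c 40 (.c 24 (.c 32 .nil)))) (.b 16 (.r 8 .nil)))) (.node (.I .tdb (.c 16 (.c 32 (.c 0 (.c 24 .nil)))) (.b 8 (.b 40 .nil))) (.I .tdb (.c 0 (.c 24 (.c 8321 (.c 8 .nil)))) (.b 40 .nil))))) (.node (.node (.node (.I .tdb (.c 16 (.c 32 (.c 8 (.c 24 .nil)))) (.b 0 (.b 40 .nil))) (.I .tdb (.c 0 (.c 24 (.c 8257 (.c 16 .nil)))) (.b 40 .nil))) (.node (.I .tdb (.c 8 (.c 24 (.c 8193 (.c 16 .nil)))) (.b 40 .nil)) (.I .tdb (.c 24 (.c 32 (.c 8 (.c 0 .nil)))) (.b 16 (.b 40 .nil))))) (.node (.node (.I .tdb (.c 24 (.c 32 (.c 16 (.c 0 .nil)))) (.b 8 (.b 40 .nil))) (.I .tdb (.c 16 (.c 0 (.c 8385 (.c 8 .nil)))) (.b 40 .nil))) (.node (.I .tdb (.c 8 (.c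 16 (.c 24 (.c 8193 .nil)))) (.b 40 .nil)) (.I .tdb (.c 8 (.c 32 (.c 40 (.c 16 .nil)))) (.b 0 (.b 24 .nil))))))) (.node (.node (.node (.node (.I .tdb (.c 16 (.c 0 (.c 8257 (.c 24 .nil)))) (.b 40 .nil)) (.I .tdb (.c 8 (.c 0 (.c 8385 (.c 16 .nil)))) (.b 40 .nil))) (.node (.I .tdb (.c 8 (.c 0 (.c 8321 (.c 24 .nil)))) (.b 40 .nil)) (.I .tdb (.c 8 (.c 16 (.c 4609 (.c 40 .nil)))) (.b 32 .nil)))) (.node (.node (.I .tdb (.c 8 (.c 16 (.c 32 (.c 4609 .nil)))) (.b 40 .nil)) (.I .tdb (.c 8 (.c 24 (.c 2049 (.c 40 .nil)))) (.b 32 .nil))) (.node (.I .tdb (.c 8 (.c 24 (.c 2049 (.c 32 .nil)))) (.b 40 .nil)) (.I .tdb (.c 16 (.c 24 (.c 8 (.c 32 .nil)))) (.b 0 (.b 40 .nil)))))) (.node (.node (.node (.I .com (.c 2049 (.c 545424713 .nil)) (.b 24 .nil)) (.I .adp (.c 2049 (.c 1324066057 (.c 24 .nil))) .nil)) (.node (.I .com (.c 1310925065 (.c 2113 .nil)) (.b 24 .nil))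 (.I .com (.c 537002313 (.c 2113 .nil)) (.b 24 .nil)))) (.node (.node (.I .com (.c 4609 (.c 545424713 .nil)) (.b 16 .nil)) (.I .adp (.c 4609 (.c 1324066057 (.c 16 .nil))) .nil)) (.node (.I .adp (.c 4609 (.c 545424713 (.c 16 .nil))) .nil) (.I .com (.c 1310925065 (.c 4673 .nil)) (.b 16 .nil))))))))

noncomputable def cw_12 : Tr := (.node (.node (.node (.node (.node (.node (.I .com (.c 537002313 (.c 4673 .nil)) (.b 16 .nil)) (.I .adp (.c 1310925065 (.c 4673 (.c 16 .nil))) .nil)) (.node (.I .com (.c 33587529 (.c 8257 .nil)) (.b 24 .nil)) (.I .adp (.c 2049 (.c 1324168978 (.c 24 .nil))) .nil))) (.node (.node (.I .adp (.c 12865 (.c 32 (.c 24 .nil))) (.l 2049 .nil)) (.I .tdp (.c 12865 (.c 32 (.c 24 (.c 2049 .nil)))) .nil)) (.node (.I .tdb (.c 16 (.c 0 (.c 24 (.c 32 .nil)))) (.r 12865 .nil)) (.I .tdb (.c 0 (.c 40 (.c 24 (.c 32 .nil)))) (.r 2113 .nil)))))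 (.node (.node (.node (.I .adp (.c 8193 (.c 35735378 (.c 24 .nil))) .nil) (.I .adp (.c 2113 (.c 40 (.c 24 .nil))) (.l 8193 .nil))) (.node (.I .tdp (.c 2113 (.c 40 (.c 24 (.c 8193 .nil)))) .nil) (.I .adp (.c 2487083360585 (.c 40 (.c 24 .nil))) .nil))) (.node (.node (.I .adp (.c 20685315 (.c 32 (.c 16 .nil))) (.b 24 .nil)) (.I .adp (.c 3423058053193929 (.c 32 (.c 24 .nil))) .nil)) (.node (.I .com (.c 174695753 (.c 32 .nil)) (.l 2049 .nil)) (.I .tdb (.c 16 (.c 0 (.c 40 (.c 32 .nil)))) (.r 4673 .nil)))))) (.node (.node (.node (.node (.I .ass (.c 33587465 (.c 40 (.c 4673 .nil))) .nil) (.I .com (.c 4673 (.c 40 .nil)) (.l 33587465 .nil))) (.node (.I .com (.c 35718473 (.c 32 .nil)) (.l 4609 .nil)) (.I .tdb (.c 0 (.c 24 (.c 40 (.c 32 .nil)))) (.r 2113 .nil)))) (.node (.node (.I .ass (.c 169943305 (.c 40 (.c 2113 .nil))) .nil) (.I .com (.c 2113 (.c 40 .nil))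 (.l 169943305 .nil))) (.node (.I .adp (.c 4609 (.c 1324168978 (.c 16 .nil))) .nil) (.I .adp (.c 12865 (.c 32 (.c 16 .nil))) (.l 4609 .nil))))) (.node (.node (.node (.I .tdp (.c 12865 (.c 32 (.c 16 (.c 4609 .nil)))) .nil) (.I .tdb (.c 0 (.c 24 (.c 16 (.c 32 .nil)))) (.r 12865 .nil))) (.node (.I .tdb (.c 0 (.c 40 (.c 16 (.c 32 .nil)))) (.r 4673 .nil)) (.I .adp (.c 8193 (.c 174733138 (.c 16 .nil))) .nil))) (.node (.node (.I .adp (.c 4673 (.c 40 (.c 16 .nil))) (.l 8193 .nil)) (.I .tdp (.c 4673 (.c 40 (.c 16 (.c 8193 .nil)))) .nil)) (.node (.I .adp (.c 59555558875465 (.c 40 (.c 16 .nil))) .nil) (.I .adp (.c 20685315 (.c 32 (.c 24 .nil))) (.b 16 .nil))))))) (.node (.node (.node (.node (.node (.I .adp (.c 3423058053193993 (.c 32 (.c 16 .nil))) .nil) (.I .com (.c 513 (.c 1337272585 .nil)) (.b 24 .nil))) (.node (.I .com (.c 513 (.c 553912649 .nil)) (.b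 24 .nil)) (.I .adp (.c 513 (.c 553912649 (.c 24 .nil))) .nil))) (.node (.node (.I .jac (.c 169943305 (.c 16 (.c 40 .nil))) (.b 8 .nil)) (.I .jac (.c 4609 (.c 12929 (.c 32 .nil))) (.b 8 .nil))) (.node (.I .jac (.c 4609 (.c 16 (.c 40 .nil))) (.b 32 (.b 8 .nil))) (.I .jac (.c 4609 (.c 8321 (.c 40 .nil))) (.b 8 .nil))))) (.node (.node (.node (.I .jac (.c 4609 (.c 16 (.c 32 .nil))) (.b 40 (.b 8 .nil))) (.I .com (.c 4609 (.c 1337272585 .nil)) (.b 8 .nil))) (.node (.I .com (.c 4609 (.c 553912649 .nil)) (.b 8 .nil)) (.I .jac (.c 8257 (.c 16 (.c 40 .nil))) (.l 4609 .nil)))) (.node (.node (.I .adp (.c 4609 (.c 553912649 (.c 8 .nil))) .nil) (.I .jac (.c 12865 (.c 16 (.c 32 .nil))) (.l 4609 .nil))) (.node (.I .jac (.c 8 (.c 8321 (.c 40 .nil))) (.l 4609 .nil)) (.I .jac (.c 8 (.c 16 (.c 32 .nil))) (.b 40 (.l 4609 .nil))))))) (.node (.node (.node (.node (.I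 .jac (.c 537002313 (.c 16 (.c 24 .nil))) (.b 8 .nil)) (.I .adp (.c 1310925065 (.c 4737 (.c 8 .nil))) .nil)) (.node (.I .jac (.c 8 (.c 16 (.c 24 .nil))) (.l 1310925065 .nil)) (.I .com (.c 2105609 (.c 12929 .nil)) (.b 24 .nil)))) (.node (.node (.I .adp (.c 2105673 (.c 8321 (.c 24 .nil))) .nil) (.I .adp (.c 2105609 (.c 12929 (.c 24 .nil))) .nil)) (.node (.I .adp (.c 513 (.c 1337376018 (.c 24 .nil))) .nil) (.I .adp (.c 12929 (.c 32 (.c 24 .nil))) (.l 513 .nil))))) (.node (.node (.node (.I .tdp (.c 12929 (.c 32 (.c 24 (.c 513 .nil)))) .nil) (.I .jac (.c 0 (.c 21099075 (.c 16 .nil))) (.l 32 .nil))) (.node (.I .tdb (.c 16 (.c 40 (.c 8 (.c 24 .nil)))) (.b 0 (.l 32 .nil))) (.I .adp (.c 513 (.c 553979218 (.c 24 .nil))) .nil))) (.node (.node (.I .adp (.c 8321 (.c 40 (.c 24 .nil))) (.l 513 .nil)) (.I .tdp (.c 8321 (.c 40 (.c 24 (.c 513 .nil)))) .nil)) (.node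 (.I .adp (.c 3491688652046473 (.c 32 (.c 24 .nil))) .nil) (.I .adp (.c 598967998054537 (.c 40 (.c 24 .nil))) .nil)))))))

noncomputable def cw_13 : Tr := (.node (.node (.node (.node (.node (.node (.I .com (.c 179513673 (.c 32 .nil)) (.l 513 .nil)) (.I .jac (.c 0 (.c 21099075 (.c 16 .nil))) (.r 32 .nil))) (.node (.I .jac (.c 0 (.c 20891715 (.c 24 .nil))) (.r 32 .nil)) (.I .com (.c 169943369 (.c 8321 .nil)) (.b 8 .nil)))) (.node (.node (.I .adp (.c 169943369 (.c 8321 (.c 8 .nil))) .nil) (.I .jac (.c 8 (.c 16 (.c 32 .nil))) (.l 169943369 .nil))) (.node (.I .adp (.c 169943305 (.c 12929 (.c 8 .nil))) .nil) (.I .jac (.c 8 (.c 16 (.c 40 .nil))) (.l 169943305 .nil))))) (.node (.node (.node (.I .tdb (.c 0 (.c 24 (.c 12929 (.c 8 .nil)))) (.l 32 .nil)) (.I .jac (.c 8 (.c 16 (.c 32 .nil))) (.r 40 (.l 4609 .nil)))) (.node (.I .tdb (.c 0 (.c 24 (.c 40 (.c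 8 .nil)))) (.r 8321 .nil)) (.I .com (.c 12929 (.c 32 .nil)) (.l 513 (.b 24 .nil))))) (.node (.node (.I .jac (.c 174695689 (.c 16 (.c 40 .nil))) (.b 0 .nil)) (.I .adp (.c 4673 (.c 1337272585 (.c 0 .nil))) .nil)) (.node (.I .jac (.c 0 (.c 12929 (.c 32 .nil))) (.l 4673 .nil)) (.I .jac (.c 0 (.c 16 (.c 40 .nil))) (.b 32 (.l 4673 .nil))))))) (.node (.node (.node (.node (.I .com (.c 13748193523587632009 (.c 4673 .nil)) .nil) (.I .com (.c 9024976834606985 (.c 4673 .nil)) .nil)) (.node (.I .com (.c 2306970223667989449 (.c 4673 .nil)) .nil) (.I .jac (.c 0 (.c 8 (.c 24 .nil))) (.r 1337272585 .nil)))) (.node (.node (.I .adp (.c 4673 (.c 553912649 (.c 0 .nil))) .nil) (.I .jac (.c 0 (.c 8321 (.c 40 .nil))) (.l 4673 .nil))) (.node (.I .jac (.c 0 (.c 16 (.c 32 .nil))) (.b 40 (.l 4673 .nil))) (.I .com (.c 9024942441010121 (.c 4673 .nil)) .nil)))) (.node (.node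 (.node (.I .jac (.c 0 (.c 8 (.c 24 .nil))) (.r 553912649 .nil)) (.I .jac (.c 545424713 (.c 16 (.c 24 .nil))) (.b 0 .nil))) (.node (.I .com (.c 545424713 (.c 4737 .nil)) (.b 0 .nil)) (.I .adp (.c 545424713 (.c 4737 (.c 0 .nil))) .nil))) (.node (.node (.I .jac (.c 0 (.c 16 (.c 24 .nil))) (.l 545424713 .nil)) (.I .com (.c 169943177 (.c 545424713 .nil)) .nil)) (.node (.I .com (.c 33587401 (.c 545424713 .nil)) .nil) (.I .jac (.c 12801 (.c 8 (.c 32 .nil))) (.r 4737 .nil))))))) (.node (.node (.node (.node (.node (.I .jac (.c 0 (.c 8257 (.c 40 .nil))) (.r 4737 .nil)) (.I .jac (.c 0 (.c 8 (.c 32 .nil))) (.b 40 (.r 4737 .nil)))) (.node (.I .com (.c 174695689 (.c 12929 .nil)) (.b 0 .nil)) (.I .jac (.c 12801 (.c 8 (.c 24 .nil))) (.r 8321 .nil)))) (.node (.node (.I .adp (.c 174695689 (.c 12929 (.c 0 .nil))) .nil) (.I .jac (.c 0 (.c 16 (.c 40 .nil))) (.l 174695689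 .nil))) (.node (.I .com (.c 1310924937 (.c 174695689 .nil)) .nil) (.I .com (.c 33587529 (.c 174695689 .nil)) .nil)))) (.node (.node (.node (.I .jac (.c 0 (.c 4673 (.c 32 .nil))) (.r 12929 .nil)) (.I .jac (.c 0 (.c 8 (.c 24 .nil))) (.b 32 (.r 12929 .nil)))) (.node (.I .jac (.c 8193 (.c 16 (.c 24 .nil))) (.l 12865 .nil)) (.I .com (.c 2306970773558193929 (.c 12865 .nil)) .nil))) (.node (.node (.I .adp (.c 12865 (.c 179513609 (.c 0 .nil))) .nil) (.I .jac (.c 0 (.c 4737 (.c 32 .nil))) (.l 12865 .nil))) (.node (.I .jac (.c 0 (.c 16 (.c 24 .nil))) (.b 32 (.l 12865 .nil))) (.I .com (.c 9024908047478665 (.c 12865 .nil)) .nil))))) (.node (.node (.node (.node (.I .jac (.c 0 (.c 8 (.c 40 .nil))) (.r 179513609 .nil)) (.I .jac (.c 2105609 (.c 24 (.c 40 .nil))) (.b 16 .nil))) (.node (.I .jac (.c 513 (.c 8385 (.c 40 .nil))) (.b 16 .nil)) (.I .jac (.c 513 (.c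 24 (.c 32 .nil))) (.b 40 (.b 16 .nil))))) (.node (.node (.I .com (.c 513 (.c 562466121 .nil)) (.b 16 .nil)) (.I .adp (.c 513 (.c 1350544649 (.c 16 .nil))) .nil)) (.node (.I .jac (.c 16 (.c 12993 (.c 32 .nil))) (.l 513 .nil)) (.I .jac (.c 16 (.c 24 (.c 40 .nil))) (.b 32 (.l 513 .nil)))))) (.node (.node (.node (.I .jac (.c 12929 (.c 24 (.c 32 .nil))) (.l 513 .nil)) (.I .jac (.c 33587529 (.c 24 (.c 32 .nil))) (.b 8 .nil))) (.node (.I .jac (.c 33587465 (.c 24 (.c 40 .nil))) (.b 8 .nil)) (.I .jac (.c 2049 (.c 8385 (.c 40 .nil))) (.b 8 .nil)))) (.node (.node (.I .jac (.c 2049 (.c 24 (.c 32 .nil))) (.b 40 (.b 8 .nil))) (.I .com (.c 2049 (.c 562466121 .nil)) (.b 8 .nil))) (.node (.I .adp (.c 2049 (.c 1350544649 (.c 8 .nil))) .nil) (.I .jac (.c 8 (.c 12993 (.c 32 .nil))) (.l 2049 .nil))))))))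

noncomputable def cw_14 : Tr := (.node (.node (.node (.node (.node (.node (.I .jac (.c 8 (.c 24 (.c 40 .nil))) (.b 32 (.l 2049 .nil))) (.I .adp (.c 2049 (.c 562466121 (.c 8 .nil))) .nil)) (.node (.I .jac (.c 12865 (.c 24 (.c 32 .nil))) (.l 2049 .nil)) (.I .jac (.c 8 (.c 8385 (.c 40 .nil))) (.l 2049 .nil)))) (.node (.node (.I .jac (.c 8 (.c 24 (.c 32 .nil))) (.b 40 (.l 2049 .nil))) (.I .com (.c 2105609 (.c 12993 .nil)) (.b 16 .nil))) (.node (.I .com (.c 2105673 (.c 8385 .nil)) (.b 16 .nil)) (.I .adp (.c 2105673 (.c 8385 (.c 16 .nil))) .nil)))) (.node (.node (.node (.I .jac (.c 16 (.c 24 (.c 32 .nil))) (.l 2105673 .nil)) (.I .adp (.c 513 (.c 1350648594 (.c 16 .nil))) .nil)) (.node (.I .adp (.c 12993 (.c 32 (.c 16 .nil))) (.l 513 .nil)) (.I .com (.c 8321 (.c 12993 .nil)) (.l 513 .nil)))) (.node (.node (.I .jac (.c 16 (.c 24 (.c 40 .nil))) (.r 32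 (.l 513 .nil))) (.I .tdp (.c 12993 (.c 32 (.c 16 (.c 513 .nil)))) .nil)) (.node (.I .jac (.c 0 (.c 20891715 (.c 24 .nil))) (.l 32 .nil)) (.I .tdb (.c 24 (.c 40 (.c 8 (.c 16 .nil)))) (.b 0 (.l 32 .nil))))))) (.node (.node (.node (.node (.I .tdb (.c 8 (.c 0 (.c 16 (.c 32 .nil)))) (.r 12993 .nil)) (.I .adp (.c 513 (.c 562533202 (.c 16 .nil))) .nil)) (.node (.I .adp (.c 8385 (.c 40 (.c 16 .nil))) (.l 513 .nil)) (.I .com (.c 12929 (.c 8385 .nil)) (.l 513 .nil)))) (.node (.node (.I .jac (.c 16 (.c 24 (.c 32 .nil))) (.r 40 (.l 513 .nil))) (.I .tdp (.c 8385 (.c 40 (.c 16 (.c 513 .nil)))) .nil)) (.node (.I .tdb (.c 8 (.c 0 (.c 40 (.c 16 .nil)))) (.r 8385 .nil)) (.I .adp (.c 3561346121425033 (.c 32 (.c 16 .nil))) .nil)))) (.node (.node (.node (.I .adp (.c 617611520073865 (.c 40 (.c 16 .nil))) .nil) (.I .com (.c 33587465 (.c 12993 .nil)) (.b 8 .nil))) (.node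 (.I .adp (.c 33587529 (.c 8385 (.c 8 .nil))) .nil) (.I .jac (.c 8 (.c 24 (.c 32 .nil))) (.l 33587529 .nil)))) (.node (.node (.I .tdb (.c 16 (.c 0 (.c 12993 (.c 8 .nil)))) (.l 32 .nil)) (.I .tdb (.c 24 (.c 40 (.c 8 (.c 0 .nil)))) (.b 16 (.l 32 .nil)))) (.node (.I .jac (.c 8 (.c 24 (.c 32 .nil))) (.r 40 (.l 2049 .nil))) (.I .tdb (.c 16 (.c 0 (.c 40 (.c 8 .nil)))) (.r 8385 .nil))))))) (.node (.node (.node (.node (.node (.I .com (.c 12993 (.c 32 .nil)) (.l 513 (.b 16 .nil))) (.I .adp (.c 2113 (.c 1350544649 (.c 0 .nil))) .nil)) (.node (.I .jac (.c 0 (.c 12993 (.c 32 .nil))) (.l 2113 .nil)) (.I .jac (.c 0 (.c 24 (.c 40 .nil))) (.b 32 (.l 2113 .nil))))) (.node (.node (.I .com (.c 231045989336561545 (.c 2113 .nil)) .nil) (.I .jac (.c 0 (.c 8 (.c 16 .nil))) (.r 1350544649 .nil))) (.node (.I .jac (.c 12801 (.c 24 (.c 32 .nil))) (.l 2113 .nil)) (.I .com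 (.c 13748196208362033993 (.c 2113 .nil)) .nil)))) (.node (.node (.node (.I .adp (.c 35718473 (.c 8385 (.c 0 .nil))) .nil) (.I .jac (.c 0 (.c 24 (.c 32 .nil))) (.l 35718473 .nil))) (.node (.I .com (.c 537002185 (.c 35718473 .nil)) .nil) (.I .com (.c 169943305 (.c 35718473 .nil)) .nil))) (.node (.node (.I .jac (.c 0 (.c 2113 (.c 40 .nil))) (.r 8385 .nil)) (.I .jac (.c 0 (.c 8 (.c 16 .nil))) (.b 40 (.r 8385 .nil)))) (.node (.I .adp (.c 35718409 (.c 12993 (.c 0 .nil))) .nil) (.I .jac (.c 0 (.c 24 (.c 40 .nil))) (.l 35718409 .nil)))))) (.node (.node (.node (.node (.I .com (.c 1310925001 (.c 35718409 .nil)) .nil) (.I .com (.c 169943369 (.c 35718409 .nil)) .nil)) (.node (.I .jac (.c 0 (.c 2113 (.c 32 .nil))) (.r 12993 .nil)) (.I .jac (.c 0 (.c 8 (.c 16 .nil))) (.b 32 (.r 12993 .nil))))) (.node (.node (.I .com (.c 2049 (.c 1324065993 .nil)) (.b 32 .nil))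 (.I .jac (.c 0 (.c 24 (.c 40 .nil))) (.l 2113 (.b 32 .nil)))) (.node (.I .com (.c 1310925001 (.c 2113 .nil)) (.b 32 .nil)) (.I .com (.c 169943369 (.c 2113 .nil)) (.b 32 .nil))))) (.node (.node (.node (.I .adp (.c 169943369 (.c 2113 (.c 32 .nil))) .nil) (.I .adp (.c 8193 (.c 2113 (.c 12993 .nil))) .nil)) (.node (.I .jac (.c 2113 (.c 24 (.c 40 .nil))) (.l 8193 .nil)) (.I .jac (.c 8193 (.c 24 (.c 40 .nil))) (.r 2113 .nil)))) (.node (.node (.I .com (.c 8193 (.c 1324065993 .nil)) (.b 16 .nil)) (.I .adp (.c 8193 (.c 1324065993 (.c 16 .nil))) .nil)) (.node (.I .jac (.c 0 (.c 24 (.c 40 .nil))) (.l 8257 (.b 16 .nil))) (.I .ass (.c 12865 (.c 2049 (.c 24 .nil))) (.b 32 .nil))))))))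

noncomputable def cw_15 : Tr := (.node (.node (.node (.node (.node (.node (.I .ass (.c 2049 (.c 12865 (.c 24 .nil))) (.b 32 .nil)) (.I .com (.c 12865 (.c 2049 .nil)) (.r 24 (.b 32 .nil)))) (.node (.I .jac (.c 2049 (.c 8 (.c 40 .nil))) (.r 24 (.b 32 .nil))) (.I .com (.c 33587529 (.c 4673 .nil)) (.b 32 .nil)))) (.node (.node (.I .adp (.c 9024976834606793 (.c 24 (.c 32 .nil))) .nil) (.I .adp (.c 9024839260612553 (.c 24 (.c 32 .nil))) .nil)) (.node (.I .adp (.c 33587529 (.c 4673 (.c 32 .nil))) .nil) (.I .adp (.c 33587401 (.c 12865 (.c 32 .nil))) .nil)))) (.node (.node (.node (.I .jac (.c 0 (.c 8652867 (.c 40 .nil))) (.l 24 .nil)) (.I .adp (.c 2049 (.c 174733138 (.c 32 .nil))) .nil)) (.node (.I .adp (.c 4673 (.c 40 (.c 32 .nil))) (.l 2049 .nil)) (.I .tdp (.c 4673 (.c 40 (.c 32 (.c 2049 .nil)))) .nil))) (.node (.node (.I .com (.c 12801 (.c 24 .nil))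 (.l 2113 (.b 32 .nil))) (.I .ass (.c 2113 (.c 12801 (.c 24 .nil))) (.b 32 .nil))) (.node (.I .ass (.c 12801 (.c 2113 (.c 24 .nil))) (.b 32 .nil)) (.I .com (.c 2113 (.c 12801 .nil)) (.r 24 (.b 32 .nil))))))) (.node (.node (.node (.node (.I .jac (.c 12801 (.c 8 (.c 16 .nil))) (.r 24 (.b 32 .nil))) (.I .adp (.c 13748193523587631817 (.c 24 (.c 32 .nil))) .nil)) (.node (.I .adp (.c 13748192181200529161 (.c 24 (.c 32 .nil))) .nil) (.I .adp (.c 12801 (.c 35735250 (.c 32 .nil))) .nil))) (.node (.node (.I .adp (.c 2113 (.c 24 (.c 32 .nil))) (.l 12801 .nil)) (.I .tdp (.c 2113 (.c 24 (.c 12801 (.c 32 .nil)))) .nil)) (.node (.I .adp (.c 4609 (.c 35735378 (.c 32 .nil))) .nil) (.I .adp (.c 2113 (.c 40 (.c 32 .nil))) (.l 4609 .nil))))) (.node (.node (.node (.I .tdp (.c 2113 (.c 40 (.c 32 (.c 4609 .nil)))) .nil) (.I .adp (.c 2487083360649 (.c 24 (.c 32 .nil)))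 .nil)) (.node (.I .adp (.c 2487083360521 (.c 40 (.c 32 .nil))) .nil) (.I .com (.c 2728451 (.c 40 .nil)) (.b 16 (.b 32 .nil))))) (.node (.node (.I .adp (.c 2728451 (.c 40 (.c 16 .nil))) (.b 32 .nil)) (.I .adp (.c 59555558875337 (.c 40 (.c 32 .nil))) .nil)) (.node (.I .com (.c 651596688508328804762888218546121 (.c 24 .nil)) .nil) (.I .com (.c 651581789439140617179291382201289 (.c 24 .nil)) .nil)))))) (.node (.node (.node (.node (.node (.I .com (.c 42576892903125856676158477119718330313 (.c 24 .nil)) .nil) (.I .com (.c 42576872605845441665422493413917717449 (.c 24 .nil)) .nil)) (.node (.I .ass (.c 537002313 (.c 24 (.c 2113 .nil))) .nil) (.I .com (.c 2113 (.c 24 .nil)) (.l 537002313 .nil)))) (.node (.node (.I .ass (.c 537002185 (.c 40 (.c 2113 .nil))) .nil) (.I .com (.c 2113 (.c 40 .nil)) (.l 537002185 .nil))) (.node (.I .adp (.c 537002185 (.c 12865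 (.c 16 .nil))) .nil) (.I .com (.c 2728451 (.c 40 .nil)) (.b 32 (.b 16 .nil)))))) (.node (.node (.node (.I .adp (.c 2728451 (.c 40 (.c 32 .nil))) (.b 16 .nil)) (.I .jac (.c 0 (.c 24 (.c 40 .nil))) (.r 2113 (.b 32 .nil)))) (.node (.I .jac (.c 8 (.c 24 (.c 40 .nil))) (.l 2049 (.b 32 .nil))) (.I .jac (.c 8 (.c 24 (.c 40 .nil))) (.l 8193 (.b 16 .nil))))) (.node (.node (.I .adp (.c 4609 (.c 35718473 (.c 32 .nil))) .nil) (.I .com (.c 12865 (.c 24 .nil)) (.l 2049 (.b 32 .nil)))) (.node (.I .adp (.c 12801 (.c 545424585 (.c 16 .nil))) .nil) (.I .com (.c 513 (.c 1337272521 .nil)) (.b 32 .nil)))))) (.node (.node (.node (.node (.I .com (.c 513 (.c 179513673 .nil)) (.b 32 .nil)) (.I .adp (.c 513 (.c 8321 (.c 12993 .nil))) .nil)) (.node (.I .jac (.c 513 (.c 24 (.c 40 .nil))) (.r 8321 .nil)) (.I .jac (.c 8193 (.c 12929 (.c 24 .nil))) (.b 8 .nil)))) (.node (.node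 (.I .jac (.c 8193 (.c 16 (.c 40 .nil))) (.b 24 (.b 8 .nil))) (.I .jac (.c 8193 (.c 4737 (.c 40 .nil))) (.b 8 .nil))) (.node (.I .jac (.c 8193 (.c 16 (.c 24 .nil))) (.b 40 (.b 8 .nil))) (.I .com (.c 8193 (.c 1337272521 .nil)) (.b 8 .nil))))) (.node (.node (.node (.I .com (.c 8193 (.c 179513673 .nil)) (.b 8 .nil)) (.I .adp (.c 8193 (.c 1337272521 (.c 8 .nil))) .nil)) (.node (.I .jac (.c 8 (.c 12929 (.c 24 .nil))) (.l 8193 .nil)) (.I .jac (.c 8 (.c 16 (.c 40 .nil))) (.b 24 (.l 8193 .nil))))) (.node (.node (.I .adp (.c 1310925001 (.c 8321 (.c 8 .nil))) .nil) (.I .jac (.c 8 (.c 16 (.c 32 .nil))) (.l 1310925001 .nil))) (.node (.I .com (.c 2105545 (.c 12929 .nil)) (.b 32 .nil)) (.I .com (.c 2105673 (.c 4737 .nil)) (.b 32 .nil))))))))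

noncomputable def cw_16 : Tr := (.node (.node (.node (.node (.node (.node (.I .adp (.c 513 (.c 1337375954 (.c 32 .nil))) .nil) (.I .adp (.c 12929 (.c 24 (.c 32 .nil))) (.l 513 .nil))) (.node (.I .tdp (.c 12929 (.c 24 (.c 32 (.c 513 .nil)))) .nil) (.I .jac (.c 0 (.c 21307459 (.c 16 .nil))) (.l 24 .nil)))) (.node (.node (.I .tdb (.c 16 (.c 40 (.c 8 (.c 32 .nil)))) (.b 0 (.l 24 .nil))) (.I .adp (.c 3491688652046473 (.c 24 (.c 32 .nil))) .nil)) (.node (.I .com (.c 553912649 (.c 24 .nil)) (.l 513 .nil)) (.I .ass (.c 2105673 (.c 24 (.c 8321 .nil))) .nil)))) (.node (.node (.node (.I .com (.c 8321 (.c 24 .nil)) (.l 2105673 .nil)) (.I .ass (.c 2105545 (.c 40 (.c 8321 .nil))) .nil)) (.node (.I .com (.c 8321 (.c 40 .nil)) (.l 2105545 .nil)) (.I .jac (.c 0 (.c 21307459 (.c 16 .nil))) (.r 24 .nil)))) (.node (.node (.I .com (.c 537002185 (.c 12929 .nil))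 (.b 8 .nil)) (.I .tdb (.c 0 (.c 32 (.c 12929 (.c 8 .nil)))) (.l 24 .nil))) (.node (.I .tdb (.c 16 (.c 32 (.c 12801 (.c 8 .nil)))) (.l 24 .nil)) (.I .jac (.c 16 (.c 24 (.c 40 .nil))) (.l 513 (.b 32 .nil))))))) (.node (.node (.node (.node (.I .jac (.c 0 (.c 24 (.c 40 .nil))) (.r 8321 (.b 8 .nil))) (.I .com (.c 12929 (.c 24 .nil)) (.l 513 (.b 32 .nil)))) (.node (.I .jac (.c 4609 (.c 8 (.c 40 .nil))) (.r 8321 .nil)) (.I .com (.c 12801 (.c 2803779 .nil)) (.b 32 .nil)))) (.node (.node (.I .jac (.c 4609 (.c 8 (.c 32 .nil))) (.r 12929 .nil)) (.I .jac (.c 4609 (.c 16 (.c 32 .nil))) (.l 12865 .nil))) (.node (.I .com (.c 231045815314584329 (.c 12865 .nil)) .nil) (.I .jac (.c 0 (.c 8652867 (.c 40 .nil))) (.r 24 .nil))))) (.node (.node (.node (.I .jac (.c 16 (.c 24 (.c 40 .nil))) (.l 8257 (.b 0 .nil))) (.I .adp (.c 12865 (.c 553912521 (.c 0 .nil))) .nil))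 (.node (.I .jac (.c 0 (.c 8321 (.c 24 .nil))) (.l 12865 .nil)) (.I .jac (.c 0 (.c 16 (.c 32 .nil))) (.b 24 (.l 12865 .nil))))) (.node (.node (.I .com (.c 9024942441009993 (.c 12865 .nil)) .nil) (.I .jac (.c 0 (.c 8 (.c 40 .nil))) (.r 553912521 .nil))) (.node (.I .adp (.c 2105545 (.c 13057 (.c 16 .nil))) .nil) (.I .jac (.c 16 (.c 32 (.c 40 .nil))) (.l 2105545 .nil))))))) (.node (.node (.node (.node (.node (.I .com (.c 1337272585 (.c 24 .nil)) (.l 513 .nil)) (.I .adp (.c 33587401 (.c 13057 (.c 8 .nil))) .nil)) (.node (.I .jac (.c 8 (.c 32 (.c 40 .nil))) (.l 33587401 .nil)) (.I .com (.c 4609 (.c 35718473 .nil)) (.b 32 .nil)))) (.node (.node (.I .adp (.c 4609 (.c 1324065929 (.c 32 .nil))) .nil) (.I .com (.c 1310924937 (.c 4673 .nil)) (.b 32 .nil))) (.node (.I .adp (.c 1310924937 (.c 4673 (.c 32 .nil))) .nil) (.I .jac (.c 4609 (.c 8 (.c 32 .nil)))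 (.b 12929 .nil))))) (.node (.node (.node (.I .com (.c 4609 (.c 8257 .nil)) (.b 12929 .nil)) (.I .jac (.c 8193 (.c 8 (.c 24 .nil))) (.b 12929 .nil))) (.node (.I .com (.c 8193 (.c 4673 .nil)) (.b 12929 .nil)) (.I .adp (.c 8193 (.c 4673 (.c 12929 .nil))) .nil))) (.node (.node (.I .jac (.c 8193 (.c 16 (.c 40 .nil))) (.r 4673 .nil)) (.I .com (.c 8193 (.c 1324065929 .nil)) (.b 24 .nil))) (.node (.I .com (.c 1310924937 (.c 8257 .nil)) (.b 24 .nil)) (.I .com (.c 4609 (.c 16 .nil)) (.l 12865 (.b 32 .nil))))))) (.node (.node (.node (.node (.I .ass (.c 12865 (.c 4609 (.c 16 .nil))) (.b 32 .nil)) (.I .ass (.c 4609 (.c 12865 (.c 16 .nil))) (.b 32 .nil))) (.node (.I .com (.c 12865 (.c 4609 .nil)) (.r 16 (.b 32 .nil))) (.I .jac (.c 4609 (.c 8 (.c 40 .nil))) (.r 16 (.b 32 .nil))))) (.node (.node (.I .adp (.c 231045989336561353 (.c 16 (.c 32 .nil))) .nil) (.I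 .adp (.c 231045293249046473 (.c 16 (.c 32 .nil))) .nil)) (.node (.I .com (.c 12801 (.c 16 .nil)) (.l 4673 (.b 32 .nil))) (.I .ass (.c 4673 (.c 12801 (.c 16 .nil))) (.b 32 .nil))))) (.node (.node (.node (.I .ass (.c 12801 (.c 4673 (.c 16 .nil))) (.b 32 .nil)) (.I .com (.c 4673 (.c 12801 .nil)) (.r 16 (.b 32 .nil)))) (.node (.I .jac (.c 12801 (.c 8 (.c 24 .nil))) (.r 16 (.b 32 .nil))) (.I .adp (.c 13748194865974800073 (.c 16 (.c 32 .nil))) .nil))) (.node (.node (.I .adp (.c 13748192181200529225 (.c 16 (.c 32 .nil))) .nil) (.I .adp (.c 12801 (.c 174732946 (.c 32 .nil))) .nil)) (.node (.I .adp (.c 4673 (.c 16 (.c 32 .nil))) (.l 12801 .nil)) (.I .tdp (.c 4673 (.c 16 (.c 12801 (.c 32 .nil)))) .nil)))))))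

noncomputable def cw_17 : Tr := (.node (.node (.node (.node (.node (.node (.I .adp (.c 59555558875529 (.c 16 (.c 32 .nil))) .nil) (.I .com (.c 557571 (.c 40 .nil)) (.b 24 (.b 32 .nil)))) (.node (.I .adp (.c 557571 (.c 40 (.c 24 .nil))) (.b 32 .nil)) (.I .jac (.c 0 (.c 21099075 (.c 32 .nil))) (.r 16 .nil)))) (.node (.node (.I .com (.c 427057350195047847081321678284722121 (.c 16 .nil)) .nil) (.I .com (.c 427055420260302801104238302686362569 (.c 16 .nil)) .nil)) (.node (.I .com (.c 42576913200413531150059165447389106121 (.c 16 .nil)) .nil) (.I .com (.c 42576872605845444027759439362436274121 (.c 16 .nil)) .nil)))) (.node (.node (.node (.I .ass (.c 537002313 (.c 16 (.c 4673 .nil))) .nil) (.I .com (.c 4673 (.c 16 .nil)) (.l 537002313 .nil))) (.node (.I .ass (.c 537002121 (.c 40 (.c 4673 .nil))) .nil) (.I .com (.c 4673 (.c 40 .nil)) (.l 537002121 .nil))))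 (.node (.node (.I .com (.c 557571 (.c 40 .nil)) (.b 32 (.b 24 .nil))) (.I .adp (.c 557571 (.c 40 (.c 32 .nil))) (.b 24 .nil))) (.node (.I .jac (.c 0 (.c 16 (.c 40 .nil))) (.r 8257 (.b 24 .nil))) (.I .com (.c 4673 (.c 16 .nil)) (.l 12801 (.b 32 .nil))))))) (.node (.node (.node (.node (.I .com (.c 12865 (.c 16 .nil)) (.l 4609 (.b 32 .nil))) (.I .adp (.c 12801 (.c 545424521 (.c 24 .nil))) .nil)) (.node (.I .adp (.c 513 (.c 8385 (.c 12929 .nil))) .nil) (.I .jac (.c 1310924937 (.c 24 (.c 32 .nil))) (.b 8 .nil)))) (.node (.node (.I .com (.c 1310924937 (.c 8385 .nil)) (.b 8 .nil)) (.I .ass (.c 513 (.c 16 (.c 12993 .nil))) (.b 32 .nil))) (.node (.I .adp (.c 513 (.c 1350544522 (.c 32 .nil))) .nil) (.I .adp (.c 16 (.c 12993 (.c 32 .nil))) (.l 513 .nil))))) (.node (.node (.node (.I .tdp (.c 16 (.c 12993 (.c 32 (.c 513 .nil)))) .nil) (.I .jac (.c 0 (.c 21307459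 (.c 24 .nil))) (.r 16 .nil))) (.node (.I .tdb (.c 8 (.c 0 (.c 12993 (.c 32 .nil)))) (.r 16 .nil)) (.I .tdb (.c 24 (.c 40 (.c 0 (.c 32 .nil)))) (.b 8 (.r 16 .nil))))) (.node (.node (.I .adp (.c 3561346121425033 (.c 16 (.c 32 .nil))) .nil) (.I .ass (.c 2105673 (.c 16 (.c 8385 .nil))) .nil)) (.node (.I .ass (.c 2105481 (.c 40 (.c 8385 .nil))) .nil) (.I .com (.c 8385 (.c 40 .nil)) (.l 2105481 .nil))))))) (.node (.node (.node (.node (.node (.I .tdb (.c 8 (.c 0 (.c 40 (.c 8385 .nil)))) (.r 16 .nil)) (.I .tdb (.c 24 (.c 32 (.c 8 (.c 40 .nil)))) (.b 0 (.r 16 .nil)))) (.node (.I .tdb (.c 24 (.c 32 (.c 0 (.c 40 .nil)))) (.b 8 (.r 16 .nil))) (.I .com (.c 1324065993 (.c 16 .nil)) (.l 8193 .nil)))) (.node (.node (.I .tdb (.c 0 (.c 32 (.c 12993 (.c 8 .nil)))) (.r 16 .nil)) (.I .com (.c 545424585 (.c 16 .nil)) (.l 12801 .nil))) (.node (.I .tdb (.c 24 (.c 32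 (.c 12801 (.c 8 .nil)))) (.r 16 .nil)) (.I .jac (.c 0 (.c 16 (.c 40 .nil))) (.r 8385 (.b 8 .nil)))))) (.node (.node (.node (.I .jac (.c 1324065929 (.c 24 (.c 32 .nil))) (.b 0 .nil)) (.I .com (.c 1324065929 (.c 8385 .nil)) (.b 0 .nil))) (.node (.I .jac (.c 2049 (.c 8 (.c 40 .nil))) (.r 8385 .nil)) (.I .adp (.c 545424521 (.c 12993 (.c 0 .nil))) .nil))) (.node (.node (.I .jac (.c 0 (.c 24 (.c 40 .nil))) (.l 545424521 .nil)) (.I .com (.c 1310925001 (.c 545424521 .nil)) .nil)) (.node (.I .com (.c 169943369 (.c 545424521 .nil)) .nil) (.I .jac (.c 0 (.c 8257 (.c 16 .nil))) (.r 12993 .nil)))))) (.node (.node (.node (.node (.I .jac (.c 0 (.c 8 (.c 32 .nil))) (.b 16 (.r 12993 .nil))) (.I .adp (.c 174695561 (.c 13057 (.c 0 .nil))) .nil)) (.node (.I .jac (.c 0 (.c 32 (.c 40 .nil))) (.l 174695561 .nil)) (.I .com (.c 1310925065 (.c 174695561 .nil)) .nil)))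 (.node (.node (.I .com (.c 537002313 (.c 174695561 .nil)) .nil) (.I .jac (.c 2049 (.c 8 (.c 24 .nil))) (.r 13057 .nil))) (.node (.I .jac (.c 0 (.c 4673 (.c 16 .nil))) (.r 13057 .nil)) (.I .jac (.c 0 (.c 8 (.c 24 .nil))) (.b 16 (.r 13057 .nil)))))) (.node (.node (.node (.I .adp (.c 1310924873 (.c 4737 (.c 32 .nil))) .nil) (.I .adp (.c 4609 (.c 8321 (.c 12865 .nil))) .nil)) (.node (.I .adp (.c 1310924873 (.c 8321 (.c 24 .nil))) .nil) (.I .adp (.c 4609 (.c 1337272394 (.c 32 .nil))) .nil))) (.node (.node (.I .adp (.c 8 (.c 12929 (.c 32 .nil))) (.l 4609 .nil)) (.I .tdp (.c 8 (.c 12929 (.c 32 (.c 4609 .nil)))) .nil)) (.node (.I .tdb (.c 0 (.c 24 (.c 12929 (.c 32 .nil)))) (.r 8 .nil)) (.I .tdp (.c 8 (.c 40 (.c 16 (.c 0 .nil)))) (.b 24 (.b 32 .nil)))))))))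

noncomputable def cw_18 : Tr := (.node (.node (.node (.node (.node (.node (.I .adp (.c 3491688652046601 (.c 8 (.c 32 .nil))) .nil) (.I .adp (.c 4609 (.c 8321 (.c 12866 .nil))) .nil)) (.node (.I .adp (.c 8 (.c 40 (.c 8321 .nil))) (.l 4609 .nil)) (.I .com (.c 169943369 (.c 8 .nil)) (.r 8321 .nil)))) (.node (.node (.I .adp (.c 8 (.c 40 (.c 4609 .nil))) (.r 8321 .nil)) (.I .ass (.c 169943369 (.c 8 (.c 8321 .nil))) .nil)) (.node (.I .tdp (.c 8 (.c 40 (.c 4609 (.c 8321 .nil)))) .nil) (.I .adp (.c 8 (.c 40 (.c 598967998054665 .nil))) .nil)))) (.node (.node (.node (.I .adp (.c 8193 (.c 1337272394 (.c 24 .nil))) .nil) (.I .adp (.c 8 (.c 12929 (.c 24 .nil))) (.l 8193 .nil))) (.node (.I .tdp (.c 8 (.c 12929 (.c 24 (.c 8193 .nil)))) .nil) (.I .tdb (.c 0 (.c 32 (.c 12929 (.c 24 .nil)))) (.r 8 .nil)))) (.node (.node (.I .adp (.c 12801 (.c 553912394 (.c 24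 .nil))) .nil) (.I .adp (.c 8 (.c 8321 (.c 24 .nil))) (.l 12801 .nil))) (.node (.I .tdp (.c 8 (.c 8321 (.c 12801 (.c 24 .nil)))) .nil) (.I .tdb (.c 16 (.c 32 (.c 12801 (.c 24 .nil)))) (.r 8 .nil)))))) (.node (.node (.node (.node (.I .adp (.c 8 (.c 40 (.c 8652803 .nil))) (.b 24 .nil)) (.I .com (.c 598967998054793 (.c 8 .nil)) (.b 24 .nil))) (.node (.I .adp (.c 598967998054793 (.c 8 (.c 24 .nil))) .nil) (.I .tdp (.c 8 (.c 40 (.c 16 (.c 0 .nil)))) (.b 32 (.b 24 .nil))))) (.node (.node (.I .adp (.c 3491688652046665 (.c 8 (.c 24 .nil))) .nil) (.I .jac (.c 0 (.c 8 (.c 40 .nil))) (.r 8321 (.b 24 .nil)))) (.node (.I .adp (.c 8 (.c 40 (.c 16 .nil))) (.l 4609 (.b 32 .nil))) (.I .adp (.c 8 (.c 40 (.c 0 .nil))) (.r 8321 (.b 24 .nil)))))) (.node (.node (.node (.I .com (.c 12801 (.c 8 .nil)) (.r 8321 (.b 24 .nil))) (.I .ass (.c 12801 (.c 8 (.c 8321 .nil)))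 (.b 24 .nil))) (.node (.I .ass (.c 513 (.c 40 (.c 8321 .nil))) (.b 24 .nil)) (.I .com (.c 8321 (.c 40 .nil)) (.l 513 (.b 24 .nil))))) (.node (.node (.I .adp (.c 8 (.c 40 (.c 16 .nil))) (.l 8193 (.b 24 .nil))) (.I .jac (.c 2049 (.c 24 (.c 32 .nil))) (.b 12865 .nil))) (.node (.I .com (.c 2049 (.c 8385 .nil)) (.b 12865 .nil)) (.I .adp (.c 2049 (.c 8385 (.c 12865 .nil))) .nil)))))) (.node (.node (.node (.node (.node (.I .jac (.c 16 (.c 24 (.c 32 .nil))) (.l 1310924873 .nil)) (.I .adp (.c 33587273 (.c 12993 (.c 32 .nil))) .nil)) (.node (.I .adp (.c 2049 (.c 1350544458 (.c 32 .nil))) .nil) (.I .adp (.c 8 (.c 12993 (.c 32 .nil))) (.l 2049 .nil)))) (.node (.node (.I .tdp (.c 8 (.c 12993 (.c 32 (.c 2049 .nil)))) .nil) (.I .tdb (.c 16 (.c 0 (.c 12993 (.c 32 .nil)))) (.r 8 .nil))) (.node (.I .tdb (.c 24 (.c 40 (.c 0 (.c 32 .nil)))) (.b 16 (.r 8 .nil)))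 (.I .tdp (.c 8 (.c 40 (.c 0 (.c 24 .nil)))) (.b 16 (.b 32 .nil)))))) (.node (.node (.node (.I .adp (.c 3561346121425097 (.c 8 (.c 32 .nil))) .nil) (.I .adp (.c 2049 (.c 8385 (.c 12866 .nil))) .nil)) (.node (.I .adp (.c 8 (.c 40 (.c 8385 .nil))) (.l 2049 .nil)) (.I .com (.c 33587529 (.c 8 .nil)) (.r 8385 .nil)))) (.node (.node (.I .adp (.c 8 (.c 40 (.c 2049 .nil))) (.r 8385 .nil)) (.I .ass (.c 33587529 (.c 8 (.c 8385 .nil))) .nil)) (.node (.I .tdp (.c 8 (.c 40 (.c 2049 (.c 8385 .nil)))) .nil) (.I .adp (.c 8 (.c 40 (.c 617611520073929 .nil))) .nil))))) (.node (.node (.node (.node (.I .adp (.c 537002057 (.c 12993 (.c 16 .nil))) .nil) (.I .adp (.c 8193 (.c 1350544458 (.c 16 .nil))) .nil)) (.node (.I .adp (.c 8 (.c 12993 (.c 16 .nil))) (.l 8193 .nil)) (.I .jac (.c 16 (.c 24 (.c 40 .nil))) (.l 8 (.l 8193 .nil))))) (.node (.node (.I .tdp (.c 8 (.c 12993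 (.c 16 (.c 8193 .nil)))) .nil) (.I .tdb (.c 0 (.c 32 (.c 12993 (.c 16 .nil)))) (.r 8 .nil))) (.node (.I .adp (.c 12801 (.c 562465866 (.c 16 .nil))) .nil) (.I .adp (.c 8 (.c 8385 (.c 16 .nil))) (.l 12801 .nil))))) (.node (.node (.node (.I .jac (.c 16 (.c 24 (.c 32 .nil))) (.l 8 (.l 12801 .nil))) (.I .tdp (.c 8 (.c 8385 (.c 12801 (.c 16 .nil)))) .nil)) (.node (.I .tdb (.c 24 (.c 32 (.c 12801 (.c 16 .nil)))) (.r 8 .nil)) (.I .adp (.c 8 (.c 40 (.c 8786435 .nil))) (.b 16 .nil)))) (.node (.node (.I .com (.c 617611520074121 (.c 8 .nil)) (.b 16 .nil)) (.I .adp (.c 617611520074121 (.c 8 (.c 16 .nil))) .nil)) (.node (.I .tdp (.c 8 (.c 40 (.c 0 (.c 24 .nil)))) (.b 32 (.b 16 .nil))) (.I .adp (.c 3561346121425225 (.c 8 (.c 16 .nil))) .nil)))))))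

noncomputable def cw_19 : Tr := (.node (.node (.node (.node (.node (.node (.I .jac (.c 0 (.c 8 (.c 40 .nil))) (.r 8385 (.b 16 .nil))) (.I .adp (.c 8 (.c 40 (.c 24 .nil))) (.l 2049 (.b 32 .nil)))) (.node (.I .adp (.c 8 (.c 40 (.c 0 .nil))) (.r 8385 (.b 16 .nil))) (.I .com (.c 12801 (.c 8 .nil)) (.r 8385 (.b 16 .nil))))) (.node (.node (.I .ass (.c 12801 (.c 8 (.c 8385 .nil))) (.b 16 .nil)) (.I .ass (.c 513 (.c 40 (.c 8385 .nil))) (.b 16 .nil))) (.node (.I .com (.c 8385 (.c 40 .nil)) (.l 513 (.b 16 .nil))) (.I .adp (.c 8 (.c 40 (.c 24 .nil))) (.l 8193 (.b 16 .nil)))))) (.node (.node (.node (.I .tdb (.c 24 (.c 40 (.c 0 (.c 32 .nil)))) (.b 16 (.l 8 .nil))) (.I .ass (.c 8 (.c 1310925001 (.c 8321 .nil))) .nil)) (.node (.I .ass (.c 1310925001 (.c 8 (.c 8321 .nil))) .nil) (.I .com (.c 8 (.c 1310925001 .nil)) (.r 8321 .nil)))) (.node (.node (.I .ass (.c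 8 (.c 537002121 (.c 12993 .nil))) .nil) (.I .ass (.c 537002121 (.c 8 (.c 12993 .nil))) .nil)) (.node (.I .com (.c 8 (.c 537002121 .nil)) (.r 12993 .nil)) (.I .ass (.c 8 (.c 33587465 (.c 12993 .nil))) .nil))))) (.node (.node (.node (.node (.I .ass (.c 33587465 (.c 8 (.c 12993 .nil))) .nil) (.I .com (.c 8 (.c 33587465 .nil)) (.r 12993 .nil))) (.node (.I .ass (.c 8 (.c 1310924937 (.c 8385 .nil))) .nil) (.I .ass (.c 1310924937 (.c 8 (.c 8385 .nil))) .nil))) (.node (.node (.I .com (.c 8 (.c 1310924937 .nil)) (.r 8385 .nil)) (.I .ass (.c 8 (.c 537002185 (.c 12929 .nil))) .nil)) (.node (.I .ass (.c 537002185 (.c 8 (.c 12929 .nil))) .nil) (.I .com (.c 8 (.c 537002185 .nil)) (.r 12929 .nil))))) (.node (.node (.node (.I .ass (.c 8 (.c 169943305 (.c 12929 .nil))) .nil) (.I .ass (.c 169943305 (.c 8 (.c 12929 .nil))) .nil)) (.node (.I .com (.c 8 (.c 169943305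 .nil)) (.r 12929 .nil)) (.I .ass (.c 2049 (.c 8 (.c 13057 .nil))) (.b 24 .nil)))) (.node (.node (.I .adp (.c 33587273 (.c 13057 (.c 24 .nil))) .nil) (.I .jac (.c 24 (.c 32 (.c 40 .nil))) (.l 33587273 .nil))) (.node (.I .ass (.c 4609 (.c 8 (.c 13057 .nil))) (.b 16 .nil)) (.I .adp (.c 169943113 (.c 13057 (.c 16 .nil))) .nil)))))) (.node (.node (.node (.node (.node (.I .jac (.c 16 (.c 32 (.c 40 .nil))) (.l 169943113 .nil)) (.I .adp (.c 4673 (.c 8321 (.c 12801 .nil))) .nil)) (.node (.I .adp (.c 0 (.c 1337309714 (.c 32 .nil))) .nil) (.I .jac (.c 0 (.c 16 (.c 24 .nil))) (.r 12865 (.b 32 .nil))))) (.node (.node (.I .com (.c 0 (.c 20891715 .nil)) (.b 24 (.b 32 .nil))) (.I .adp (.c 0 (.c 20891715 (.c 24 .nil))) (.b 32 .nil))) (.node (.I .adp (.c 0 (.c 3491710045129993 (.c 32 .nil))) .nil) (.I .adp (.c 0 (.c 1337338386 (.c 24 .nil))) .nil)))) (.node (.node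 (.node (.I .com (.c 0 (.c 20891715 .nil)) (.b 32 (.b 24 .nil))) (.I .adp (.c 0 (.c 20891715 (.c 32 .nil))) (.b 24 .nil))) (.node (.I .adp (.c 0 (.c 3491710045130057 (.c 24 .nil))) .nil) (.I .ass (.c 0 (.c 4673 (.c 12929 .nil))) (.b 32 .nil)))) (.node (.node (.I .jac (.c 0 (.c 8 (.c 24 .nil))) (.r 12929 (.b 32 .nil))) (.I .ass (.c 0 (.c 8257 (.c 12929 .nil))) (.b 24 .nil))) (.node (.I .jac (.c 0 (.c 8 (.c 32 .nil))) (.r 12929 (.b 24 .nil))) (.I .jac (.c 2113 (.c 24 (.c 32 .nil))) (.b 12801 .nil)))))) (.node (.node (.node (.node (.I .com (.c 2113 (.c 8385 .nil)) (.b 12801 .nil)) (.I .adp (.c 2113 (.c 8385 (.c 12801 .nil))) .nil)) (.node (.I .adp (.c 0 (.c 1350561298 (.c 32 .nil))) .nil) (.I .com (.c 0 (.c 21099075 .nil)) (.b 16 (.b 32 .nil))))) (.node (.node (.I .adp (.c 0 (.c 21099075 (.c 16 .nil))) (.b 32 .nil)) (.I .adp (.c 0 (.c 3561367726845129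 (.c 32 .nil))) .nil)) (.node (.I .adp (.c 0 (.c 1350610450 (.c 16 .nil))) .nil) (.I .com (.c 0 (.c 21099075 .nil)) (.b 32 (.b 16 .nil)))))) (.node (.node (.node (.I .adp (.c 0 (.c 21099075 (.c 32 .nil))) (.b 16 .nil)) (.I .adp (.c 0 (.c 3561367726845257 (.c 16 .nil))) .nil)) (.node (.I .ass (.c 0 (.c 2113 (.c 12993 .nil))) (.b 32 .nil)) (.I .jac (.c 0 (.c 8 (.c 16 .nil))) (.r 12993 (.b 32 .nil))))) (.node (.node (.I .ass (.c 0 (.c 8257 (.c 12993 .nil))) (.b 16 .nil)) (.I .adp (.c 0 (.c 1363898898 (.c 24 .nil))) .nil)) (.node (.I .com (.c 0 (.c 21307459 .nil)) (.b 16 (.b 24 .nil))) (.I .adp (.c 0 (.c 21307459 (.c 16 .nil))) (.b 24 .nil))))))))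

noncomputable def cw_20 : Tr := (.node (.node (.node (.node (.node (.node (.I .adp (.c 0 (.c 3632062472293577 (.c 24 .nil))) .nil) (.I .adp (.c 0 (.c 1363919378 (.c 16 .nil))) .nil)) (.node (.I .com (.c 0 (.c 21307459 .nil)) (.b 24 (.b 16 .nil))) (.I .adp (.c 0 (.c 21307459 (.c 24 .nil))) (.b 16 .nil)))) (.node (.node (.I .adp (.c 0 (.c 3632062472293641 (.c 16 .nil))) .nil) (.I .ass (.c 0 (.c 2113 (.c 13057 .nil))) (.b 24 .nil))) (.node (.I .ass (.c 0 (.c 4673 (.c 13057 .nil))) (.b 16 .nil)) (.I .jac (.c 0 (.c 8 (.c 24 .nil))) (.r 13057 (.b 16 .nil)))))) (.node (.node (.node (.I .jac (.c 0 (.c 16 (.c 24 .nil))) (.r 13057 (.b 8 .nil))) (.I .jac (.c 2049 (.c 8 (.c 40 .nil))) (.b 8385 .nil))) (.node (.I .com (.c 2049 (.c 12865 .nil)) (.b 8385 .nil)) (.I .adp (.c 2049 (.c 12865 (.c 8385 .nil))) .nil))) (.node (.node (.I .jac (.c 2049 (.c 24 (.c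 32 .nil))) (.r 12865 .nil)) (.I .com (.c 2049 (.c 545424585 .nil)) (.b 40 .nil))) (.node (.I .com (.c 2049 (.c 174695689 .nil)) (.b 40 .nil)) (.I .adp (.c 2049 (.c 174695689 (.c 40 .nil))) .nil))))) (.node (.node (.node (.node (.I .adp (.c 169943305 (.c 2113 (.c 40 .nil))) .nil) (.I .jac (.c 0 (.c 24 (.c 32 .nil))) (.l 12865 (.b 16 .nil)))) (.node (.I .com (.c 12801 (.c 545424585 .nil)) (.b 16 .nil)) (.I .com (.c 12801 (.c 174695689 .nil)) (.b 16 .nil)))) (.node (.node (.I .com (.c 651601654921513992739479373959049 (.c 24 .nil)) .nil) (.I .com (.c 651581789439149858614694249422729 (.c 24 .nil)) .nil)) (.node (.I .ass (.c 2049 (.c 1324065993 (.c 32 .nil))) .nil) (.I .com (.c 1512102601296135227280972429874805772169 (.c 24 .nil)) .nil)))) (.node (.node (.node (.I .com (.c 1512102306009786909181484737811290911625 (.c 24 .nil)) .nil) (.I .adp (.c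 12801 (.c 2113 (.c 32 .nil))) (.l 24 .nil))) (.node (.I .ass (.c 24 (.c 1310925065 (.c 2113 .nil))) .nil) (.I .ass (.c 1310925065 (.c 24 (.c 2113 .nil))) .nil))) (.node (.node (.I .com (.c 24 (.c 1310925065 .nil)) (.r 2113 .nil)) (.I .com (.c 2113 (.c 24 .nil)) (.l 1310925065 .nil))) (.node (.I .com (.c 33587401 (.c 8257 .nil)) (.b 40 .nil)) (.I .ass (.c 8257 (.c 2049 (.c 24 .nil))) (.b 40 .nil))))))) (.node (.node (.node (.node (.node (.I .ass (.c 2049 (.c 8257 (.c 24 .nil))) (.b 40 .nil)) (.I .com (.c 8257 (.c 2049 .nil)) (.r 24 (.b 40 .nil)))) (.node (.I .jac (.c 2049 (.c 8 (.c 32 .nil))) (.r 24 (.b 40 .nil))) (.I .com (.c 33587465 (.c 4673 .nil)) (.b 40 .nil)))) (.node (.node (.I .adp (.c 9024942441009865 (.c 24 (.c 40 .nil))) .nil) (.I .adp (.c 9024839260612489 (.c 24 (.c 40 .nil))) .nil)) (.node (.I .com (.c 8193 (.c 24 .nil)) (.l 2113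 (.b 40 .nil))) (.I .ass (.c 2113 (.c 8193 (.c 24 .nil))) (.b 40 .nil))))) (.node (.node (.node (.I .ass (.c 8193 (.c 2113 (.c 24 .nil))) (.b 40 .nil)) (.I .com (.c 2113 (.c 8193 .nil)) (.r 24 (.b 40 .nil)))) (.node (.I .jac (.c 8193 (.c 8 (.c 16 .nil))) (.r 24 (.b 40 .nil))) (.I .adp (.c 2306970223667989193 (.c 24 (.c 40 .nil))) .nil))) (.node (.node (.I .adp (.c 2306969673777850121 (.c 24 (.c 40 .nil))) .nil) (.I .adp (.c 8193 (.c 35735250 (.c 40 .nil))) .nil)) (.node (.I .adp (.c 2113 (.c 24 (.c 40 .nil))) (.l 8193 .nil)) (.I .tdp (.c 2113 (.c 24 (.c 8193 (.c 40 .nil)))) .nil))))) (.node (.node (.node (.node (.I .adp (.c 2487083360585 (.c 24 (.c 40 .nil))) .nil) (.I .adp (.c 4609 (.c 35718409 (.c 40 .nil))) .nil)) (.node (.I .com (.c 8257 (.c 24 .nil)) (.l 2049 (.b 40 .nil))) (.I .jac (.c 513 (.c 16 (.c 40 .nil))) (.b 8385 .nil)))) (.node (.node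 (.I .com (.c 513 (.c 12929 .nil)) (.b 8385 .nil)) (.I .adp (.c 513 (.c 12929 (.c 8385 .nil))) .nil)) (.node (.I .jac (.c 513 (.c 24 (.c 32 .nil))) (.r 12929 .nil)) (.I .adp (.c 513 (.c 179513609 (.c 40 .nil))) .nil)))) (.node (.node (.node (.I .jac (.c 0 (.c 24 (.c 32 .nil))) (.l 12929 (.b 8 .nil))) (.I .adp (.c 513 (.c 12929 (.c 32 .nil))) (.l 24 .nil))) (.node (.I .ass (.c 24 (.c 2105609 (.c 12929 .nil))) .nil) (.I .ass (.c 2105609 (.c 24 (.c 12929 .nil))) .nil))) (.node (.node (.I .com (.c 24 (.c 2105609 .nil)) (.r 12929 .nil)) (.I .com (.c 12929 (.c 24 .nil)) (.l 2105609 .nil))) (.node (.I .ass (.c 24 (.c 513 (.c 1337272585 .nil))) .nil) (.I .ass (.c 513 (.c 24 (.c 1337272585 .nil))) .nil)))))))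

noncomputable def cw_21 : Tr := (.node (.node (.node (.node (.node (.node (.I .com (.c 24 (.c 513 .nil)) (.r 1337272585 .nil)) (.I .tdb (.c 16 (.c 40 (.c 8 (.c 24 .nil)))) (.b 0 (.r 32 .nil)))) (.node (.I .com (.c 2105545 (.c 8321 .nil)) (.b 40 .nil)) (.I .adp (.c 2105609 (.c 4737 (.c 40 .nil))) .nil))) (.node (.node (.I .adp (.c 2105545 (.c 8321 (.c 40 .nil))) .nil) (.I .adp (.c 513 (.c 553979090 (.c 40 .nil))) .nil)) (.node (.I .adp (.c 8321 (.c 24 (.c 40 .nil))) (.l 513 .nil)) (.I .tdp (.c 8321 (.c 24 (.c 513 (.c 40 .nil)))) .nil)))) (.node (.node (.node (.I .adp (.c 598967998054537 (.c 24 (.c 40 .nil))) .nil) (.I .com (.c 8321 (.c 24 .nil)) (.l 513 (.b 40 .nil)))) (.node (.I .com (.c 8193 (.c 2803779 .nil)) (.b 40 .nil)) (.I .jac (.c 4609 (.c 8 (.c 40 .nil))) (.b 8321 .nil)))) (.node (.node (.I .com (.c 4609 (.c 12865 .nil)) (.b 8321 .nil))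 (.I .adp (.c 4609 (.c 12865 (.c 8321 .nil))) .nil)) (.node (.I .jac (.c 4609 (.c 16 (.c 32 .nil))) (.r 12865 .nil)) (.I .com (.c 4609 (.c 545424521 .nil)) (.b 40 .nil)))))) (.node (.node (.node (.node (.I .com (.c 4609 (.c 35718409 .nil)) (.b 40 .nil)) (.I .adp (.c 4609 (.c 545424521 (.c 40 .nil))) .nil)) (.node (.I .jac (.c 0 (.c 16 (.c 32 .nil))) (.l 4673 (.b 40 .nil))) (.I .com (.c 537002121 (.c 4673 .nil)) (.b 40 .nil)))) (.node (.node (.I .adp (.c 537002121 (.c 4673 (.c 40 .nil))) .nil) (.I .com (.c 427057993508083379515198226665525129 (.c 16 .nil)) .nil)) (.node (.I .com (.c 427055420260303037694618589709918089 (.c 16 .nil)) .nil) (.I .ass (.c 4609 (.c 1324065929 (.c 32 .nil))) .nil)))) (.node (.node (.node (.I .com (.c 1512102896582526807535925483778566442889 (.c 16 .nil)) .nil) (.I .com (.c 1512102306009786923259633531360632805257 (.c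 16 .nil)) .nil)) (.node (.I .adp (.c 12801 (.c 4673 (.c 32 .nil))) (.l 16 .nil)) (.I .ass (.c 16 (.c 1310925065 (.c 4673 .nil))) .nil))) (.node (.node (.I .ass (.c 1310925065 (.c 16 (.c 4673 .nil))) .nil) (.I .com (.c 16 (.c 1310925065 .nil)) (.r 4673 .nil))) (.node (.I .com (.c 4673 (.c 16 .nil)) (.l 1310925065 .nil)) (.I .com (.c 4609 (.c 16 .nil)) (.l 8257 (.b 40 .nil)))))))) (.node (.node (.node (.node (.node (.I .com (.c 169943177 (.c 8257 .nil)) (.b 40 .nil)) (.I .ass (.c 8257 (.c 4609 (.c 16 .nil))) (.b 40 .nil))) (.node (.I .ass (.c 4609 (.c 8257 (.c 16 .nil))) (.b 40 .nil)) (.I .com (.c 8257 (.c 4609 .nil)) (.r 16 (.b 40 .nil))))) (.node (.node (.I .jac (.c 4609 (.c 8 (.c 32 .nil))) (.r 16 (.b 40 .nil))) (.I .adp (.c 231045815314584265 (.c 16 (.c 40 .nil))) .nil)) (.node (.I .adp (.c 231045293249046409 (.c 16 (.c 40 .nil))) .nil) (.I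 .jac (.c 0 (.c 21099075 (.c 32 .nil))) (.l 16 .nil))))) (.node (.node (.node (.I .com (.c 8193 (.c 16 .nil)) (.l 4673 (.b 40 .nil))) (.I .ass (.c 4673 (.c 8193 (.c 16 .nil))) (.b 40 .nil))) (.node (.I .ass (.c 8193 (.c 4673 (.c 16 .nil))) (.b 40 .nil)) (.I .com (.c 4673 (.c 8193 .nil)) (.r 16 (.b 40 .nil))))) (.node (.node (.I .jac (.c 8193 (.c 8 (.c 24 .nil))) (.r 16 (.b 40 .nil))) (.I .adp (.c 2306970773558193865 (.c 16 (.c 40 .nil))) .nil)) (.node (.I .adp (.c 2306969673777850185 (.c 16 (.c 40 .nil))) .nil) (.I .adp (.c 8193 (.c 174732946 (.c 40 .nil))) .nil))))) (.node (.node (.node (.node (.I .adp (.c 4673 (.c 16 (.c 40 .nil))) (.l 8193 .nil)) (.I .tdp (.c 4673 (.c 16 (.c 8193 (.c 40 .nil)))) .nil)) (.node (.I .adp (.c 59555558875465 (.c 16 (.c 40 .nil))) .nil) (.I .com (.c 4673 (.c 16 .nil)) (.l 8193 (.b 40 .nil))))) (.node (.node (.I .adp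 (.c 8193 (.c 174695561 (.c 40 .nil))) .nil) (.I .com (.c 8257 (.c 16 .nil)) (.l 4609 (.b 40 .nil)))) (.node (.I .jac (.c 513 (.c 24 (.c 40 .nil))) (.b 8321 .nil)) (.I .com (.c 513 (.c 12993 .nil)) (.b 8321 .nil))))) (.node (.node (.node (.I .adp (.c 513 (.c 12993 (.c 8321 .nil))) .nil) (.I .jac (.c 0 (.c 16 (.c 32 .nil))) (.l 12993 (.b 8 .nil)))) (.node (.I .jac (.c 0 (.c 21307459 (.c 24 .nil))) (.l 16 .nil)) (.I .tdb (.c 8 (.c 0 (.c 12993 (.c 32 .nil)))) (.l 16 .nil)))) (.node (.node (.I .tdb (.c 24 (.c 40 (.c 0 (.c 32 .nil)))) (.b 8 (.l 16 .nil))) (.I .adp (.c 513 (.c 12993 (.c 32 .nil))) (.l 16 .nil))) (.node (.I .ass (.c 16 (.c 2105609 (.c 12993 .nil))) .nil) (.I .ass (.c 2105609 (.c 16 (.c 12993 .nil))) .nil)))))))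

noncomputable def cw_22 : Tr := (.node (.node (.node (.node (.node (.node (.I .com (.c 16 (.c 2105609 .nil)) (.r 12993 .nil)) (.I .ass (.c 16 (.c 513 (.c 1350544649 .nil))) .nil)) (.node (.I .ass (.c 513 (.c 16 (.c 1350544649 .nil))) .nil) (.I .com (.c 16 (.c 513 .nil)) (.r 1350544649 .nil)))) (.node (.node (.I .tdb (.c 24 (.c 40 (.c 8 (.c 16 .nil)))) (.b 0 (.r 32 .nil))) (.I .ass (.c 513 (.c 16 (.c 8385 .nil))) (.b 40 .nil))) (.node (.I .adp (.c 513 (.c 562465930 (.c 40 .nil))) .nil) (.I .adp (.c 16 (.c 8385 (.c 40 .nil))) (.l 513 .nil))))) (.node (.node (.node (.I .tdp (.c 16 (.c 8385 (.c 513 (.c 40 .nil)))) .nil) (.I .adp (.c 617611520073865 (.c 16 (.c 40 .nil))) .nil)) (.node (.I .adp (.c 4609 (.c 12929 (.c 8257 .nil))) .nil) (.I .jac (.c 12801 (.c 16 (.c 24 .nil))) (.b 8257 .nil)))) (.node (.node (.I .com (.c 12801 (.c 4737 .nil)) (.b 8257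 .nil)) (.I .com (.c 537002057 (.c 4737 .nil)) (.b 40 .nil))) (.node (.I .adp (.c 537002057 (.c 4737 (.c 40 .nil))) .nil) (.I .com (.c 537002057 (.c 12929 .nil)) (.b 24 .nil)))))) (.node (.node (.node (.node (.I .adp (.c 8 (.c 32 (.c 1337309202 .nil))) .nil) (.I .tdb (.c 0 (.c 24 (.c 12929 (.c 32 .nil)))) (.l 8 .nil))) (.node (.I .adp (.c 4609 (.c 12929 (.c 32 .nil))) (.l 8 .nil)) (.I .ass (.c 8 (.c 4609 (.c 1337272585 .nil))) .nil))) (.node (.node (.I .ass (.c 4609 (.c 8 (.c 1337272585 .nil))) .nil) (.I .com (.c 8 (.c 4609 .nil)) (.r 1337272585 .nil))) (.node (.I .tdb (.c 0 (.c 24 (.c 12929 (.c 8 .nil)))) (.r 32 .nil)) (.I .tdb (.c 16 (.c 40 (.c 8 (.c 0 .nil)))) (.b 24 (.r 32 .nil)))))) (.node (.node (.node (.I .jac (.c 8 (.c 16 (.c 40 .nil))) (.l 4609 (.r 32 .nil))) (.I .adp (.c 4609 (.c 12929 (.c 8 .nil))) (.r 32 .nil))) (.node (.I .ass (.c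 169943113 (.c 12929 (.c 32 .nil))) .nil) (.I .ass (.c 4609 (.c 35718473 (.c 32 .nil))) .nil))) (.node (.node (.I .ass (.c 8 (.c 12801 (.c 179513609 .nil))) .nil) (.I .ass (.c 12801 (.c 8 (.c 179513609 .nil))) .nil)) (.node (.I .com (.c 8 (.c 12801 .nil)) (.r 179513609 .nil)) (.I .adp (.c 8 (.c 32 (.c 3491688652046601 .nil))) .nil)))))) (.node (.node (.node (.node (.node (.I .ass (.c 4609 (.c 8 (.c 8321 .nil))) (.b 40 .nil)) (.I .adp (.c 169943113 (.c 8321 (.c 40 .nil))) .nil)) (.node (.I .adp (.c 4609 (.c 553912394 (.c 40 .nil))) .nil) (.I .adp (.c 8 (.c 8321 (.c 40 .nil))) (.l 4609 .nil)))) (.node (.node (.I .tdp (.c 8 (.c 8321 (.c 4609 (.c 40 .nil)))) .nil) (.I .adp (.c 598967998054665 (.c 8 (.c 40 .nil))) .nil)) (.node (.I .adp (.c 8 (.c 32 (.c 20891651 .nil))) (.b 24 .nil)) (.I .com (.c 3491688652046665 (.c 8 .nil)) (.b 24 .nil))))) (.node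 (.node (.node (.I .jac (.c 0 (.c 8 (.c 32 .nil))) (.r 4737 (.b 40 .nil))) (.I .adp (.c 8 (.c 32 (.c 0 .nil))) (.r 12929 (.b 24 .nil)))) (.node (.I .com (.c 8193 (.c 8 .nil)) (.r 12929 (.b 24 .nil))) (.I .ass (.c 513 (.c 32 (.c 12929 .nil))) (.b 24 .nil)))) (.node (.node (.I .adp (.c 2049 (.c 12993 (.c 8257 .nil))) .nil) (.I .adp (.c 8 (.c 32 (.c 1350560786 .nil))) .nil)) (.node (.I .tdb (.c 16 (.c 0 (.c 12993 (.c 32 .nil)))) (.l 8 .nil)) (.I .adp (.c 2049 (.c 12993 (.c 32 .nil))) (.l 8 .nil)))))) (.node (.node (.node (.node (.I .ass (.c 8 (.c 2049 (.c 1350544649 .nil))) .nil) (.I .ass (.c 2049 (.c 8 (.c 1350544649 .nil))) .nil)) (.node (.I .com (.c 8 (.c 2049 .nil)) (.r 1350544649 .nil)) (.I .tdb (.c 16 (.c 0 (.c 12993 (.c 8 .nil)))) (.r 32 .nil)))) (.node (.node (.I .tdb (.c 24 (.c 40 (.c 8 (.c 0 .nil)))) (.b 16 (.r 32 .nil))) (.I .jac (.c 8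 (.c 24 (.c 40 .nil))) (.l 2049 (.r 32 .nil)))) (.node (.I .adp (.c 2049 (.c 12993 (.c 8 .nil))) (.r 32 .nil)) (.I .ass (.c 33587273 (.c 12993 (.c 32 .nil))) .nil)))) (.node (.node (.node (.I .ass (.c 2049 (.c 174695753 (.c 32 .nil))) .nil) (.I .adp (.c 8 (.c 32 (.c 3561346121425097 .nil))) .nil)) (.node (.I .ass (.c 2049 (.c 8 (.c 8385 .nil))) (.b 40 .nil)) (.I .adp (.c 2049 (.c 562465866 (.c 40 .nil))) .nil))) (.node (.node (.I .adp (.c 8 (.c 8385 (.c 40 .nil))) (.l 2049 .nil)) (.I .tdp (.c 8 (.c 8385 (.c 2049 (.c 40 .nil)))) .nil)) (.node (.I .adp (.c 617611520073929 (.c 8 (.c 40 .nil))) .nil) (.I .adp (.c 8 (.c 32 (.c 21099011 .nil))) (.b 16 .nil))))))))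

noncomputable def cw_23 : Tr := (.node (.node (.node (.node (.node (.node (.I .com (.c 3561346121425225 (.c 8 .nil)) (.b 16 .nil)) (.I .adp (.c 8 (.c 32 (.c 0 .nil))) (.r 12993 (.b 16 .nil)))) (.node (.I .com (.c 8193 (.c 8 .nil)) (.r 12993 (.b 16 .nil))) (.I .ass (.c 513 (.c 32 (.c 12993 .nil))) (.b 16 .nil)))) (.node (.node (.I .jac (.c 4673 (.c 16 (.c 40 .nil))) (.b 8193 .nil)) (.I .com (.c 4673 (.c 12929 .nil)) (.b 8193 .nil))) (.node (.I .adp (.c 4673 (.c 12929 (.c 8193 .nil))) .nil) (.I .jac (.c 12865 (.c 16 (.c 24 .nil))) (.b 8193 .nil))))) (.node (.node (.node (.I .com (.c 12865 (.c 4737 .nil)) (.b 8193 .nil)) (.I .jac (.c 2113 (.c 24 (.c 40 .nil))) (.b 8193 .nil))) (.node (.I .com (.c 2113 (.c 12993 .nil)) (.b 8193 .nil)) (.I .adp (.c 2113 (.c 12993 (.c 8193 .nil))) .nil))) (.node (.node (.I .jac (.c 0 (.c 8 (.c 16 .nil))) (.r 8385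 (.b 40 .nil))) (.I .jac (.c 0 (.c 16 (.c 24 .nil))) (.l 8257 (.b 40 .nil)))) (.node (.I .jac (.c 8193 (.c 8 (.c 40 .nil))) (.b 4737 .nil)) (.I .com (.c 8193 (.c 12865 .nil)) (.b 4737 .nil)))))) (.node (.node (.node (.node (.I .adp (.c 16 (.c 24 (.c 0 .nil))) (.l 12865 (.b 32 .nil))) (.I .adp (.c 16 (.c 24 (.c 8 .nil))) (.r 12801 (.b 32 .nil)))) (.node (.I .com (.c 4673 (.c 16 .nil)) (.r 12801 (.b 32 .nil))) (.I .ass (.c 4673 (.c 16 (.c 12801 .nil))) (.b 32 .nil)))) (.node (.node (.I .ass (.c 2113 (.c 24 (.c 12801 .nil))) (.b 32 .nil)) (.I .com (.c 557571 (.c 24 .nil)) (.b 40 (.b 32 .nil)))) (.node (.I .adp (.c 2728451 (.c 16 (.c 40 .nil))) (.b 32 .nil)) (.I .adp (.c 557571 (.c 24 (.c 40 .nil))) (.b 32 .nil))))) (.node (.node (.node (.I .adp (.c 16 (.c 24 (.c 0 .nil))) (.l 8257 (.b 40 .nil))) (.I .adp (.c 16 (.c 24 (.c 8 .nil))) (.r 8193 (.b 40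 .nil)))) (.node (.I .com (.c 4673 (.c 16 .nil)) (.r 8193 (.b 40 .nil))) (.I .ass (.c 4673 (.c 16 (.c 8193 .nil))) (.b 40 .nil)))) (.node (.node (.I .ass (.c 2113 (.c 24 (.c 8193 .nil))) (.b 40 .nil)) (.I .com (.c 557571 (.c 24 .nil)) (.b 32 (.b 40 .nil)))) (.node (.I .adp (.c 2728451 (.c 16 (.c 32 .nil))) (.b 40 .nil)) (.I .adp (.c 557571 (.c 24 (.c 32 .nil))) (.b 40 .nil))))))) (.node (.node (.node (.node (.node (.I .jac (.c 8193 (.c 8 (.c 40 .nil))) (.b 4738 .nil)) (.I .com (.c 8193 (.c 12865 .nil)) (.b 4738 .nil))) (.node (.I .adp (.c 16 (.c 24 (.c 2306971873338799817 .nil))) .nil) (.I .adp (.c 16 (.c 24 (.c 2306969673777850313 .nil))) .nil))) (.node (.node (.I .ass (.c 16 (.c 8193 (.c 1324065993 .nil))) .nil) (.I .ass (.c 8193 (.c 16 (.c 1324065993 .nil))) .nil)) (.node (.I .com (.c 16 (.c 8193 .nil)) (.r 1324065993 .nil)) (.I .ass (.c 8193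 (.c 1324065929 (.c 24 .nil))) .nil)))) (.node (.node (.node (.I .jac (.c 12801 (.c 8 (.c 32 .nil))) (.b 4738 .nil)) (.I .com (.c 12801 (.c 8257 .nil)) (.b 4738 .nil))) (.node (.I .adp (.c 16 (.c 24 (.c 13748196208362033865 .nil))) .nil) (.I .adp (.c 16 (.c 24 (.c 13748192181200529289 .nil))) .nil))) (.node (.node (.I .ass (.c 16 (.c 12801 (.c 545424585 .nil))) .nil) (.I .ass (.c 12801 (.c 16 (.c 545424585 .nil))) .nil)) (.node (.I .com (.c 16 (.c 12801 .nil)) (.r 545424585 .nil)) (.I .tdb (.c 0 (.c 40 (.c 8 (.c 16 .nil)))) (.b 32 (.r 24 .nil))))))) (.node (.node (.node (.node (.I .ass (.c 12801 (.c 545424521 (.c 24 .nil))) .nil) (.I .adp (.c 16 (.c 24 (.c 8 .nil))) (.l 12801 (.b 32 .nil)))) (.node (.I .adp (.c 16 (.c 24 (.c 0 .nil))) (.r 12865 (.b 32 .nil))) (.I .com (.c 4609 (.c 16 .nil)) (.r 12865 (.b 32 .nil))))) (.node (.node (.I .ass (.c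 4609 (.c 16 (.c 12865 .nil))) (.b 32 .nil)) (.I .ass (.c 2049 (.c 24 (.c 12865 .nil))) (.b 32 .nil))) (.node (.I .adp (.c 16 (.c 24 (.c 8 .nil))) (.l 8193 (.b 40 .nil))) (.I .adp (.c 16 (.c 24 (.c 0 .nil))) (.r 8257 (.b 40 .nil)))))) (.node (.node (.node (.I .com (.c 4609 (.c 16 .nil)) (.r 8257 (.b 40 .nil))) (.I .ass (.c 4609 (.c 16 (.c 8257 .nil))) (.b 40 .nil))) (.node (.I .ass (.c 2049 (.c 24 (.c 8257 .nil))) (.b 40 .nil)) (.I .com (.c 169943113 (.c 12929 .nil)) (.b 32 .nil)))) (.node (.node (.I .com (.c 169943113 (.c 8321 .nil)) (.b 40 .nil)) (.I .jac (.c 8193 (.c 16 (.c 40 .nil))) (.b 4673 .nil))) (.node (.I .com (.c 8193 (.c 12929 .nil)) (.b 4673 .nil)) (.I .tdp (.c 8 (.c 24 (.c 16 (.c 0 .nil)))) (.b 40 (.b 32 .nil)))))))))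

noncomputable def cw_24 : Tr := (.node (.node (.node (.node (.node (.node (.I .adp (.c 8 (.c 24 (.c 20891651 .nil))) (.b 32 .nil)) (.I .com (.c 3491688652046601 (.c 8 .nil)) (.b 32 .nil))) (.node (.I .tdp (.c 8 (.c 24 (.c 16 (.c 0 .nil)))) (.b 32 (.b 40 .nil))) (.I .adp (.c 8 (.c 24 (.c 8652803 .nil))) (.b 40 .nil)))) (.node (.node (.I .com (.c 598967998054665 (.c 8 .nil)) (.b 40 .nil)) (.I .adp (.c 8 (.c 24 (.c 1337337874 .nil))) .nil)) (.node (.I .tdb (.c 0 (.c 32 (.c 12929 (.c 24 .nil)))) (.l 8 .nil)) (.I .adp (.c 8193 (.c 12929 (.c 24 .nil))) (.l 8 .nil))))) (.node (.node (.node (.I .tdb (.c 0 (.c 32 (.c 12929 (.c 8 .nil)))) (.r 24 .nil)) (.I .tdb (.c 16 (.c 40 (.c 8 (.c 0 .nil)))) (.b 32 (.r 24 .nil)))) (.node (.I .tdb (.c 16 (.c 40 (.c 8 (.c 32 .nil)))) (.b 0 (.r 24 .nil))) (.I .jac (.c 8 (.c 16 (.c 40 .nil))) (.l 8193 (.r 24 .nil)))))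 (.node (.node (.I .adp (.c 8193 (.c 12929 (.c 8 .nil))) (.r 24 .nil)) (.I .ass (.c 537002057 (.c 12929 (.c 24 .nil))) .nil)) (.node (.I .ass (.c 8193 (.c 35718473 (.c 24 .nil))) .nil) (.I .adp (.c 8 (.c 24 (.c 1311093786 .nil))) .nil))))) (.node (.node (.node (.node (.I .tdb (.c 16 (.c 32 (.c 12801 (.c 24 .nil)))) (.l 8 .nil)) (.I .adp (.c 12801 (.c 8321 (.c 24 .nil))) (.l 8 .nil))) (.node (.I .tdb (.c 16 (.c 32 (.c 12801 (.c 8 .nil)))) (.r 24 .nil)) (.I .jac (.c 8 (.c 16 (.c 32 .nil))) (.l 12801 (.r 24 .nil))))) (.node (.node (.I .adp (.c 12801 (.c 8321 (.c 8 .nil))) (.r 24 .nil)) (.I .ass (.c 1310924873 (.c 8321 (.c 24 .nil))) .nil)) (.node (.I .ass (.c 12801 (.c 35718409 (.c 24 .nil))) .nil) (.I .adp (.c 8 (.c 24 (.c 598967998054793 .nil))) .nil)))) (.node (.node (.node (.I .adp (.c 8 (.c 24 (.c 3491688652046665 .nil))) .nil) (.I .adp (.c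 8 (.c 24 (.c 16 .nil))) (.l 12801 (.b 32 .nil)))) (.node (.I .adp (.c 8 (.c 24 (.c 0 .nil))) (.r 12929 (.b 32 .nil))) (.I .com (.c 4609 (.c 8 .nil)) (.r 12929 (.b 32 .nil))))) (.node (.node (.I .ass (.c 513 (.c 24 (.c 12929 .nil))) (.b 32 .nil)) (.I .adp (.c 8 (.c 24 (.c 16 .nil))) (.l 8193 (.b 40 .nil)))) (.node (.I .adp (.c 8 (.c 24 (.c 0 .nil))) (.r 8321 (.b 40 .nil))) (.I .com (.c 4609 (.c 8 .nil)) (.r 8321 (.b 40 .nil)))))))) (.node (.node (.node (.node (.node (.I .ass (.c 513 (.c 24 (.c 8321 .nil))) (.b 40 .nil)) (.I .tdp (.c 8 (.c 16 (.c 0 (.c 24 .nil)))) (.b 40 (.b 32 .nil)))) (.node (.I .com (.c 2728451 (.c 16 .nil)) (.b 40 (.b 32 .nil))) (.I .tdp (.c 8 (.c 16 (.c 0 (.c 24 .nil)))) (.b 32 (.b 40 .nil))))) (.node (.node (.I .com (.c 2728451 (.c 16 .nil)) (.b 32 (.b 40 .nil))) (.I .tdp (.c 0 (.c 8 (.c 16 (.c 40 .nil)))) (.b 24 (.b 32 .nil))))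 (.node (.I .com (.c 20891651 (.c 8 .nil)) (.b 24 (.b 32 .nil))) (.I .tdp (.c 0 (.c 8 (.c 16 (.c 40 .nil)))) (.b 32 (.b 24 .nil)))))) (.node (.node (.node (.I .com (.c 20891651 (.c 8 .nil)) (.b 32 (.b 24 .nil))) (.I .adp (.c 0 (.c 8 (.c 24 .nil))) (.r 12929 (.b 32 .nil)))) (.node (.I .adp (.c 0 (.c 8 (.c 32 .nil))) (.r 12929 (.b 24 .nil))) (.I .adp (.c 8 (.c 16 (.c 24 .nil))) (.l 12801 (.b 32 .nil))))) (.node (.node (.I .adp (.c 8 (.c 16 (.c 24 .nil))) (.l 8193 (.b 40 .nil))) (.I .com (.c 2105481 (.c 12993 .nil)) (.b 32 .nil))) (.node (.I .com (.c 33587273 (.c 12993 .nil)) (.b 32 .nil)) (.I .adp (.c 8 (.c 16 (.c 21099011 .nil))) (.b 32 .nil)))))) (.node (.node (.node (.node (.I .com (.c 3561346121425097 (.c 8 .nil)) (.b 32 .nil)) (.I .adp (.c 8 (.c 16 (.c 8786435 .nil))) (.b 40 .nil))) (.node (.I .com (.c 617611520073929 (.c 8 .nil)) (.b 40 .nil))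 (.I .adp (.c 8 (.c 16 (.c 1350609938 .nil))) .nil))) (.node (.node (.I .tdb (.c 0 (.c 32 (.c 12993 (.c 16 .nil)))) (.l 8 .nil)) (.I .jac (.c 16 (.c 24 (.c 40 .nil))) (.l 8193 (.l 8 .nil)))) (.node (.I .adp (.c 8193 (.c 12993 (.c 16 .nil))) (.l 8 .nil)) (.I .ass (.c 8 (.c 8193 (.c 179513673 .nil))) .nil)))) (.node (.node (.node (.I .ass (.c 8193 (.c 8 (.c 179513673 .nil))) .nil) (.I .com (.c 8 (.c 8193 .nil)) (.r 179513673 .nil))) (.node (.I .jac (.c 8 (.c 24 (.c 40 .nil))) (.l 8193 (.r 16 .nil))) (.I .adp (.c 8193 (.c 12993 (.c 8 .nil))) (.r 16 .nil)))) (.node (.node (.I .ass (.c 537002057 (.c 12993 (.c 16 .nil))) .nil) (.I .com (.c 16 (.c 12993 .nil)) (.l 537002057 .nil))) (.node (.I .ass (.c 8193 (.c 1324065993 (.c 16 .nil))) .nil) (.I .ass (.c 8193 (.c 174695753 (.c 16 .nil))) .nil)))))))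

noncomputable def cw_25 : Tr := (.node (.node (.node (.node (.node (.node (.I .adp (.c 8 (.c 16 (.c 1311094298 .nil))) .nil) (.I .tdb (.c 24 (.c 32 (.c 12801 (.c 16 .nil)))) (.l 8 .nil))) (.node (.I .jac (.c 16 (.c 24 (.c 32 .nil))) (.l 12801 (.l 8 .nil))) (.I .adp (.c 12801 (.c 8385 (.c 16 .nil))) (.l 8 .nil)))) (.node (.node (.I .jac (.c 8 (.c 24 (.c 32 .nil))) (.l 12801 (.r 16 .nil))) (.I .adp (.c 12801 (.c 8385 (.c 8 .nil))) (.r 16 .nil))) (.node (.I .ass (.c 1310924873 (.c 8385 (.c 16 .nil))) .nil) (.I .com (.c 16 (.c 8385 .nil)) (.l 1310924873 .nil))))) (.node (.node (.node (.I .ass (.c 12801 (.c 545424585 (.c 16 .nil))) .nil) (.I .ass (.c 12801 (.c 174695689 (.c 16 .nil))) .nil)) (.node (.I .adp (.c 8 (.c 16 (.c 617611520074121 .nil))) .nil) (.I .adp (.c 8 (.c 16 (.c 3561346121425225 .nil))) .nil))) (.node (.node (.I .adp (.c 8 (.c 16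 (.c 0 .nil))) (.r 12993 (.b 32 .nil))) (.I .com (.c 2049 (.c 8 .nil)) (.r 12993 (.b 32 .nil)))) (.node (.I .adp (.c 8 (.c 16 (.c 0 .nil))) (.r 8385 (.b 40 .nil))) (.I .com (.c 2049 (.c 8 .nil)) (.r 8385 (.b 40 .nil))))))) (.node (.node (.node (.node (.I .jac (.c 8257 (.c 24 (.c 40 .nil))) (.b 2049 .nil)) (.I .com (.c 8257 (.c 12993 .nil)) (.b 2049 .nil))) (.node (.I .tdp (.c 0 (.c 8 (.c 24 (.c 40 .nil)))) (.b 16 (.b 32 .nil))) (.I .com (.c 21099011 (.c 8 .nil)) (.b 16 (.b 32 .nil))))) (.node (.node (.I .tdp (.c 0 (.c 8 (.c 24 (.c 40 .nil)))) (.b 32 (.b 16 .nil))) (.I .com (.c 21099011 (.c 8 .nil)) (.b 32 (.b 16 .nil)))) (.node (.I .adp (.c 0 (.c 8 (.c 16 .nil))) (.r 12993 (.b 32 .nil))) (.I .adp (.c 0 (.c 8 (.c 32 .nil))) (.r 12993 (.b 16 .nil)))))) (.node (.node (.node (.I .adp (.c 8321 (.c 12993 (.c 513 .nil))) .nil) (.I .jac (.c 513 (.c 24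 (.c 40 .nil))) (.l 8321 .nil))) (.node (.I .com (.c 35470870263625 (.c 8321 .nil)) .nil) (.I .com (.c 35466557976521 (.c 8321 .nil)) .nil))) (.node (.node (.I .jac (.c 12929 (.c 24 (.c 32 .nil))) (.b 513 .nil)) (.I .com (.c 12929 (.c 8385 .nil)) (.b 513 .nil))) (.node (.I .adp (.c 12929 (.c 8385 (.c 513 .nil))) .nil) (.I .jac (.c 513 (.c 24 (.c 32 .nil))) (.l 12929 .nil))))))) (.node (.node (.node (.node (.node (.I .com (.c 35468714087241 (.c 12929 .nil)) .nil) (.I .com (.c 35466557976457 (.c 12929 .nil)) .nil)) (.node (.I .tdb (.c 8 (.c 24 (.c 40 (.c 16 .nil)))) (.b 0 (.b 32 .nil))) (.I .tdb (.c 8 (.c 16 (.c 24 (.c 40 .nil)))) (.b 0 (.b 32 .nil))))) (.node (.node (.I .tdb (.c 8 (.c 16 (.c 24 (.c 32 .nil)))) (.b 0 (.b 40 .nil))) (.I .jac (.c 513 (.c 32 (.c 40 .nil))) (.b 4737 .nil))) (.node (.I .com (.c 513 (.c 13057 .nil)) (.b 4737 .nil)) (.I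 .jac (.c 169943177 (.c 32 (.c 40 .nil))) (.b 8 .nil))))) (.node (.node (.node (.I .jac (.c 33587401 (.c 32 (.c 40 .nil))) (.b 8 .nil)) (.I .jac (.c 0 (.c 16 (.c 24 .nil))) (.l 13057 (.b 8 .nil)))) (.node (.I .com (.c 169943177 (.c 13057 .nil)) (.b 8 .nil)) (.I .com (.c 33587401 (.c 13057 .nil)) (.b 8 .nil)))) (.node (.node (.I .ass (.c 16 (.c 513 (.c 562466121 .nil))) .nil) (.I .ass (.c 513 (.c 16 (.c 562466121 .nil))) .nil)) (.node (.I .com (.c 16 (.c 513 .nil)) (.r 562466121 .nil)) (.I .jac (.c 174695561 (.c 32 (.c 40 .nil))) (.b 0 .nil)))))) (.node (.node (.node (.node (.I .com (.c 174695561 (.c 13057 .nil)) (.b 0 .nil)) (.I .jac (.c 2049 (.c 32 (.c 40 .nil))) (.b 4673 .nil))) (.node (.I .com (.c 2049 (.c 13057 .nil)) (.b 4673 .nil)) (.I .jac (.c 33587273 (.c 32 (.c 40 .nil))) (.b 24 .nil)))) (.node (.node (.I .jac (.c 2105481 (.c 32 (.c 40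 .nil))) (.b 24 .nil)) (.I .com (.c 2105481 (.c 13057 .nil)) (.b 24 .nil))) (.node (.I .com (.c 33587273 (.c 13057 .nil)) (.b 24 .nil)) (.I .jac (.c 4673 (.c 32 (.c 40 .nil))) (.b 2049 .nil))))) (.node (.node (.node (.I .com (.c 4673 (.c 13057 .nil)) (.b 2049 .nil)) (.I .tdp (.c 8 (.c 32 (.c 0 (.c 40 .nil)))) (.b 16 (.b 24 .nil)))) (.node (.I .com (.c 20685315 (.c 32 .nil)) (.b 16 (.b 24 .nil))) (.I .tdp (.c 8 (.c 32 (.c 0 (.c 40 .nil)))) (.b 24 (.b 16 .nil))))) (.node (.node (.I .com (.c 20685315 (.c 32 .nil)) (.b 24 (.b 16 .nil))) (.I .tdp (.c 0 (.c 8 (.c 32 (.c 40 .nil)))) (.b 16 (.b 24 .nil)))) (.node (.I .com (.c 21307395 (.c 8 .nil)) (.b 16 (.b 24 .nil))) (.I .tdp (.c 0 (.c 8 (.c 32 (.c 40 .nil)))) (.b 24 (.b 16 .nil)))))))))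

noncomputable def cw_26 : Tr := (.node (.node (.node (.node (.node (.node (.I .com (.c 21307395 (.c 8 .nil)) (.b 24 (.b 16 .nil))) (.I .adp (.c 0 (.c 8 (.c 16 .nil))) (.r 13057 (.b 24 .nil)))) (.node (.I .adp (.c 0 (.c 8 (.c 24 .nil))) (.r 13057 (.b 16 .nil))) (.I .adp (.c 8 (.c 32 (.c 40 .nil))) (.l 2049 (.b 24 .nil))))) (.node (.node (.I .adp (.c 8 (.c 32 (.c 40 .nil))) (.l 4609 (.b 16 .nil))) (.I .jac (.c 4737 (.c 32 (.c 40 .nil))) (.b 513 .nil))) (.node (.I .com (.c 4737 (.c 13057 .nil)) (.b 513 .nil)) (.I .tdb (.c 8 (.c 24 (.c 40 (.c 32 .nil)))) (.b 0 (.b 16 .nil)))))) (.node (.node (.node (.I .jac (.c 4609 (.c 8 (.c 40 .nil))) (.b 32 (.l 16 .nil))) (.I .com (.c 4609 (.c 12865 .nil)) (.b 32 (.l 16 .nil)))) (.node (.I .jac (.c 12801 (.c 8 (.c 24 .nil))) (.b 32 (.l 16 .nil))) (.I .com (.c 12801 (.c 4673 .nil)) (.b 32 (.l 16 .nil))))) (.node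 (.node (.I .jac (.c 4609 (.c 8 (.c 32 .nil))) (.b 40 (.l 16 .nil))) (.I .com (.c 4609 (.c 8257 .nil)) (.b 40 (.l 16 .nil)))) (.node (.I .jac (.c 8193 (.c 8 (.c 24 .nil))) (.b 40 (.l 16 .nil))) (.I .com (.c 8193 (.c 4673 .nil)) (.b 40 (.l 16 .nil))))))) (.node (.node (.node (.node (.I .adp (.c 8193 (.c 4673 (.c 40 .nil))) (.l 16 .nil)) (.I .ass (.c 16 (.c 537002313 (.c 4673 .nil))) .nil)) (.node (.I .com (.c 16 (.c 537002313 .nil)) (.r 4673 .nil)) (.I .jac (.c 8193 (.c 8 (.c 40 .nil))) (.b 24 (.l 16 .nil))))) (.node (.node (.I .com (.c 8193 (.c 12865 .nil)) (.b 24 (.l 16 .nil))) (.I .jac (.c 12801 (.c 8 (.c 32 .nil))) (.b 24 (.l 16 .nil)))) (.node (.I .com (.c 12801 (.c 8257 .nil)) (.b 24 (.l 16 .nil))) (.I .tdb (.c 8 (.c 0 (.c 40 (.c 8385 .nil)))) (.l 16 .nil))))) (.node (.node (.node (.I .tdb (.c 24 (.c 32 (.c 8 (.c 40 .nil)))) (.b 0 (.l 16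 .nil))) (.I .tdb (.c 24 (.c 32 (.c 0 (.c 40 .nil)))) (.b 8 (.l 16 .nil)))) (.node (.I .adp (.c 513 (.c 8385 (.c 40 .nil))) (.l 16 .nil)) (.I .ass (.c 16 (.c 2105673 (.c 8385 .nil))) .nil))) (.node (.node (.I .com (.c 16 (.c 2105673 .nil)) (.r 8385 .nil)) (.I .tdb (.c 0 (.c 32 (.c 12993 (.c 8 .nil)))) (.l 16 .nil))) (.node (.I .jac (.c 8 (.c 24 (.c 40 .nil))) (.l 8193 (.l 16 .nil))) (.I .adp (.c 8193 (.c 12993 (.c 8 .nil))) (.l 16 .nil))))))) (.node (.node (.node (.node (.node (.I .ass (.c 16 (.c 537002057 (.c 12993 .nil))) .nil) (.I .ass (.c 537002057 (.c 16 (.c 12993 .nil))) .nil)) (.node (.I .com (.c 16 (.c 537002057 .nil)) (.r 12993 .nil)) (.I .tdb (.c 24 (.c 32 (.c 12801 (.c 8 .nil)))) (.l 16 .nil)))) (.node (.node (.I .jac (.c 8 (.c 24 (.c 32 .nil))) (.l 12801 (.l 16 .nil))) (.I .adp (.c 12801 (.c 8385 (.c 8 .nil))) (.l 16 .nil))) (.node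 (.I .ass (.c 16 (.c 1310924873 (.c 8385 .nil))) .nil) (.I .ass (.c 1310924873 (.c 16 (.c 8385 .nil))) .nil)))) (.node (.node (.node (.I .com (.c 16 (.c 1310924873 .nil)) (.r 8385 .nil)) (.I .com (.c 8193 (.c 12865 .nil)) (.b 16 (.b 24 .nil)))) (.node (.I .com (.c 12801 (.c 8257 .nil)) (.b 16 (.b 24 .nil))) (.I .jac (.c 2049 (.c 8 (.c 40 .nil))) (.b 32 (.l 24 .nil))))) (.node (.node (.I .com (.c 2049 (.c 12865 .nil)) (.b 32 (.l 24 .nil))) (.I .jac (.c 12801 (.c 8 (.c 16 .nil))) (.b 32 (.l 24 .nil)))) (.node (.I .com (.c 12801 (.c 2113 .nil)) (.b 32 (.l 24 .nil))) (.I .jac (.c 2049 (.c 8 (.c 32 .nil))) (.b 40 (.l 24 .nil))))))) (.node (.node (.node (.node (.I .com (.c 2049 (.c 8257 .nil)) (.b 40 (.l 24 .nil))) (.I .jac (.c 8193 (.c 8 (.c 16 .nil))) (.b 40 (.l 24 .nil)))) (.node (.I .com (.c 8193 (.c 2113 .nil)) (.b 40 (.l 24 .nil))) (.I .adp (.c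 8193 (.c 2113 (.c 40 .nil))) (.l 24 .nil)))) (.node (.node (.I .ass (.c 24 (.c 537002313 (.c 2113 .nil))) .nil) (.I .com (.c 24 (.c 537002313 .nil)) (.r 2113 .nil))) (.node (.I .jac (.c 8193 (.c 8 (.c 40 .nil))) (.b 16 (.l 24 .nil))) (.I .com (.c 8193 (.c 12865 .nil)) (.b 16 (.l 24 .nil)))))) (.node (.node (.node (.I .com (.c 42576953795010651407263038383993868041 (.c 24 .nil)) .nil) (.I .com (.c 42576872605845448752433331259473583881 (.c 24 .nil)) .nil)) (.node (.I .ass (.c 24 (.c 8193 (.c 1324065929 .nil))) .nil) (.I .ass (.c 8193 (.c 24 (.c 1324065929 .nil))) .nil))) (.node (.node (.I .com (.c 24 (.c 8193 .nil)) (.r 1324065929 .nil)) (.I .com (.c 1324065929 (.c 24 .nil)) (.l 8193 .nil))) (.node (.I .jac (.c 12801 (.c 8 (.c 32 .nil))) (.b 16 (.l 24 .nil))) (.I .com (.c 12801 (.c 8257 .nil)) (.b 16 (.l 24 .nil)))))))))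

noncomputable def cw_27 : Tr := (.node (.node (.node (.node (.node (.node (.I .com (.c 1512103191868961635872417890875254705929 (.c 24 .nil)) .nil) (.I .com (.c 1512102306009786937337782324909974764297 (.c 24 .nil)) .nil)) (.node (.I .ass (.c 24 (.c 12801 (.c 545424521 .nil))) .nil) (.I .ass (.c 12801 (.c 24 (.c 545424521 .nil))) .nil))) (.node (.node (.I .com (.c 24 (.c 12801 .nil)) (.r 545424521 .nil)) (.I .com (.c 545424521 (.c 24 .nil)) (.l 12801 .nil))) (.node (.I .jac (.c 8193 (.c 16 (.c 40 .nil))) (.b 8 (.b 24 .nil))) (.I .com (.c 8193 (.c 12929 .nil)) (.b 8 (.b 24 .nil)))))) (.node (.node (.node (.I .jac (.c 12801 (.c 16 (.c 32 .nil))) (.b 8 (.b 24 .nil))) (.I .com (.c 12801 (.c 8321 .nil)) (.b 8 (.b 24 .nil)))) (.node (.I .adp (.c 513 (.c 8321 (.c 40 .nil))) (.l 24 .nil)) (.I .ass (.c 24 (.c 2105673 (.c 8321 .nil))) .nil))) (.node (.node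 (.I .com (.c 24 (.c 2105673 .nil)) (.r 8321 .nil)) (.I .ass (.c 24 (.c 513 (.c 553912649 .nil))) .nil)) (.node (.I .ass (.c 513 (.c 24 (.c 553912649 .nil))) .nil) (.I .com (.c 24 (.c 513 .nil)) (.r 553912649 .nil)))))) (.node (.node (.node (.node (.I .jac (.c 8 (.c 16 (.c 40 .nil))) (.l 8193 (.l 24 .nil))) (.I .adp (.c 8193 (.c 12929 (.c 8 .nil))) (.l 24 .nil))) (.node (.I .ass (.c 24 (.c 537002057 (.c 12929 .nil))) .nil) (.I .ass (.c 537002057 (.c 24 (.c 12929 .nil))) .nil))) (.node (.node (.I .com (.c 24 (.c 537002057 .nil)) (.r 12929 .nil)) (.I .com (.c 12929 (.c 24 .nil)) (.l 537002057 .nil))) (.node (.I .jac (.c 8 (.c 16 (.c 32 .nil))) (.l 12801 (.l 24 .nil))) (.I .adp (.c 12801 (.c 8321 (.c 8 .nil))) (.l 24 .nil))))) (.node (.node (.node (.I .ass (.c 24 (.c 1310924873 (.c 8321 .nil))) .nil) (.I .ass (.c 1310924873 (.c 24 (.c 8321 .nil)))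 .nil)) (.node (.I .com (.c 24 (.c 1310924873 .nil)) (.r 8321 .nil)) (.I .com (.c 8321 (.c 24 .nil)) (.l 1310924873 .nil)))) (.node (.node (.I .jac (.c 8257 (.c 16 (.c 40 .nil))) (.b 0 (.b 24 .nil))) (.I .com (.c 8257 (.c 12929 .nil)) (.b 0 (.b 24 .nil)))) (.node (.I .jac (.c 12865 (.c 16 (.c 32 .nil))) (.b 0 (.b 24 .nil))) (.I .com (.c 12865 (.c 8321 .nil)) (.b 0 (.b 24 .nil)))))))) (.node (.node (.node (.node (.node (.I .adp (.c 2049 (.c 12865 (.c 24 .nil))) (.l 32 .nil)) (.I .ass (.c 32 (.c 33587401 (.c 12865 .nil))) .nil)) (.node (.I .ass (.c 33587401 (.c 32 (.c 12865 .nil))) .nil) (.I .com (.c 32 (.c 33587401 .nil)) (.r 12865 .nil)))) (.node (.node (.I .com (.c 12865 (.c 32 .nil)) (.l 33587401 .nil)) (.I .ass (.c 32 (.c 2049 (.c 174695753 .nil))) .nil)) (.node (.I .ass (.c 2049 (.c 32 (.c 174695753 .nil))) .nil) (.I .com (.c 32 (.c 2049 .nil))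 (.r 174695753 .nil))))) (.node (.node (.node (.I .ass (.c 32 (.c 4609 (.c 35718473 .nil))) .nil) (.I .ass (.c 4609 (.c 32 (.c 35718473 .nil))) .nil)) (.node (.I .com (.c 32 (.c 4609 .nil)) (.r 35718473 .nil)) (.I .adp (.c 4609 (.c 12865 (.c 16 .nil))) (.l 32 .nil)))) (.node (.node (.I .ass (.c 32 (.c 169943177 (.c 12865 .nil))) .nil) (.I .ass (.c 169943177 (.c 32 (.c 12865 .nil))) .nil)) (.node (.I .com (.c 32 (.c 169943177 .nil)) (.r 12865 .nil)) (.I .com (.c 12865 (.c 32 .nil)) (.l 169943177 .nil)))))) (.node (.node (.node (.node (.I .adp (.c 513 (.c 12929 (.c 24 .nil))) (.l 32 .nil)) (.I .ass (.c 32 (.c 2105545 (.c 12929 .nil))) .nil)) (.node (.I .ass (.c 2105545 (.c 32 (.c 12929 .nil))) .nil) (.I .com (.c 32 (.c 2105545 .nil)) (.r 12929 .nil)))) (.node (.node (.I .com (.c 12929 (.c 32 .nil)) (.l 2105545 .nil)) (.I .ass (.c 32 (.c 513 (.c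 179513673 .nil))) .nil)) (.node (.I .ass (.c 513 (.c 32 (.c 179513673 .nil))) .nil) (.I .com (.c 32 (.c 513 .nil)) (.r 179513673 .nil))))) (.node (.node (.node (.I .jac (.c 8 (.c 16 (.c 40 .nil))) (.l 4609 (.l 32 .nil))) (.I .adp (.c 4609 (.c 12929 (.c 8 .nil))) (.l 32 .nil))) (.node (.I .ass (.c 32 (.c 169943113 (.c 12929 .nil))) .nil) (.I .ass (.c 169943113 (.c 32 (.c 12929 .nil))) .nil))) (.node (.node (.I .com (.c 32 (.c 169943113 .nil)) (.r 12929 .nil)) (.I .com (.c 12929 (.c 32 .nil)) (.l 169943113 .nil))) (.node (.I .jac (.c 16 (.c 24 (.c 40 .nil))) (.l 513 (.l 32 .nil))) (.I .adp (.c 513 (.c 12993 (.c 16 .nil))) (.l 32 .nil))))))))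

noncomputable def cw_28 : Tr := (.node (.node (.node (.node (.node (.node (.I .ass (.c 32 (.c 2105481 (.c 12993 .nil))) .nil) (.I .ass (.c 2105481 (.c 32 (.c 12993 .nil))) .nil)) (.node (.I .com (.c 32 (.c 2105481 .nil)) (.r 12993 .nil)) (.I .com (.c 12993 (.c 32 .nil)) (.l 2105481 .nil)))) (.node (.node (.I .jac (.c 8 (.c 24 (.c 40 .nil))) (.l 2049 (.l 32 .nil))) (.I .adp (.c 2049 (.c 12993 (.c 8 .nil))) (.l 32 .nil))) (.node (.I .ass (.c 32 (.c 33587273 (.c 12993 .nil))) .nil) (.I .ass (.c 33587273 (.c 32 (.c 12993 .nil))) .nil)))) (.node (.node (.node (.I .com (.c 32 (.c 33587273 .nil)) (.r 12993 .nil)) (.I .com (.c 12993 (.c 32 .nil)) (.l 33587273 .nil))) (.node (.I .ass (.c 40 (.c 2049 (.c 545424585 .nil))) .nil) (.I .ass (.c 2049 (.c 40 (.c 545424585 .nil))) .nil))) (.node (.node (.I .com (.c 40 (.c 2049 .nil)) (.r 545424585 .nil)) (.I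 .com (.c 545424585 (.c 40 .nil)) (.l 2049 .nil))) (.node (.I .adp (.c 8193 (.c 2113 (.c 24 .nil))) (.l 40 .nil)) (.I .ass (.c 40 (.c 537002185 (.c 2113 .nil))) .nil))))) (.node (.node (.node (.node (.I .com (.c 40 (.c 537002185 .nil)) (.r 2113 .nil)) (.I .ass (.c 40 (.c 8193 (.c 35718345 .nil))) .nil)) (.node (.I .ass (.c 8193 (.c 40 (.c 35718345 .nil))) .nil) (.I .com (.c 40 (.c 8193 .nil)) (.r 35718345 .nil)))) (.node (.node (.I .com (.c 35718345 (.c 40 .nil)) (.l 8193 .nil)) (.I .adp (.c 2049 (.c 4673 (.c 32 .nil))) (.l 40 .nil))) (.node (.I .ass (.c 40 (.c 33587465 (.c 4673 .nil))) .nil) (.I .com (.c 40 (.c 33587465 .nil)) (.r 4673 .nil))))) (.node (.node (.node (.I .adp (.c 4609 (.c 2113 (.c 32 .nil))) (.l 40 .nil)) (.I .ass (.c 40 (.c 169943305 (.c 2113 .nil))) .nil)) (.node (.I .com (.c 40 (.c 169943305 .nil)) (.r 2113 .nil)) (.I .ass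 (.c 40 (.c 4609 (.c 545424521 .nil))) .nil))) (.node (.node (.I .ass (.c 4609 (.c 40 (.c 545424521 .nil))) .nil) (.I .com (.c 40 (.c 4609 .nil)) (.r 545424521 .nil))) (.node (.I .com (.c 545424521 (.c 40 .nil)) (.l 4609 .nil)) (.I .adp (.c 8193 (.c 4673 (.c 16 .nil))) (.l 40 .nil))))))) (.node (.node (.node (.node (.node (.I .ass (.c 40 (.c 537002121 (.c 4673 .nil))) .nil) (.I .com (.c 40 (.c 537002121 .nil)) (.r 4673 .nil))) (.node (.I .ass (.c 40 (.c 8193 (.c 174695561 .nil))) .nil) (.I .ass (.c 8193 (.c 40 (.c 174695561 .nil))) .nil))) (.node (.node (.I .com (.c 40 (.c 8193 .nil)) (.r 174695561 .nil)) (.I .com (.c 174695561 (.c 40 .nil)) (.l 8193 .nil))) (.node (.I .adp (.c 513 (.c 8321 (.c 24 .nil))) (.l 40 .nil)) (.I .ass (.c 40 (.c 2105545 (.c 8321 .nil))) .nil)))) (.node (.node (.node (.I .com (.c 40 (.c 2105545 .nil)) (.r 8321 .nil))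 (.I .ass (.c 40 (.c 513 (.c 179513609 .nil))) .nil)) (.node (.I .ass (.c 513 (.c 40 (.c 179513609 .nil))) .nil) (.I .com (.c 40 (.c 513 .nil)) (.r 179513609 .nil)))) (.node (.node (.I .com (.c 179513609 (.c 40 .nil)) (.l 513 .nil)) (.I .jac (.c 8 (.c 16 (.c 32 .nil))) (.l 4609 (.l 40 .nil)))) (.node (.I .adp (.c 4609 (.c 8321 (.c 8 .nil))) (.l 40 .nil)) (.I .ass (.c 40 (.c 169943113 (.c 8321 .nil))) .nil))))) (.node (.node (.node (.node (.I .com (.c 40 (.c 169943113 .nil)) (.r 8321 .nil)) (.I .jac (.c 16 (.c 24 (.c 32 .nil))) (.l 513 (.l 40 .nil)))) (.node (.I .adp (.c 513 (.c 8385 (.c 16 .nil))) (.l 40 .nil)) (.I .ass (.c 40 (.c 2105481 (.c 8385 .nil))) .nil))) (.node (.node (.I .com (.c 40 (.c 2105481 .nil)) (.r 8385 .nil)) (.I .jac (.c 8 (.c 24 (.c 32 .nil))) (.l 2049 (.l 40 .nil)))) (.node (.I .adp (.c 2049 (.c 8385 (.c 8 .nil))) (.l 40 .nil))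 (.I .ass (.c 40 (.c 33587273 (.c 8385 .nil))) .nil)))) (.node (.node (.node (.I .com (.c 40 (.c 33587273 .nil)) (.r 8385 .nil)) (.X 0 (.c 32 (.c 8 (.c 16 (.c 0 (.c 24 .nil))))) (.b 40 .nil))) (.node (.X 0 (.c 32 (.c 8 (.c 24 (.c 0 (.c 16 .nil))))) (.b 40 .nil)) (.X 0 (.c 32 (.c 16 (.c 24 (.c 0 (.c 8 .nil))))) (.b 40 .nil)))) (.node (.node (.X 0 (.c 40 (.c 32 (.c 24 (.c 0 (.c 8 .nil))))) (.b 16 .nil)) (.X 0 (.c 32 (.c 16 (.c 24 (.c 0 (.c 40 .nil))))) (.b 8 .nil))) (.node (.X 0 (.c 40 (.c 8 (.c 32 (.c 0 (.c 24 .nil))))) (.b 16 .nil)) (.X 0 (.c 40 (.c 8 (.c 24 (.c 0 (.c 32 .nil))))) (.b 16 .nil))))))))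

noncomputable def cw_29 : Tr := (.node (.node (.node (.node (.node (.node (.X 0 (.c 40 (.c 16 (.c 24 (.c 0 (.c 32 .nil))))) (.b 8 .nil)) (.X 0 (.c 40 (.c 24 (.c 16 (.c 0 (.c 8 .nil))))) (.b 32 .nil))) (.node (.X 0 (.c 40 (.c 0 (.c 32 (.c 16 (.c 24 .nil))))) (.b 8 .nil)) (.X 0 (.c 40 (.c 16 (.c 24 (.c 0 (.c 8 .nil))))) (.b 32 .nil)))) (.node (.node (.X 0 (.c 40 (.c 16 (.c 8193 (.c 8 (.c 24 .nil))))) .nil) (.X 2 (.c 32 (.c 0 (.c 40 (.c 24 (.c 8 .nil))))) (.b 16 .nil))) (.node (.X 0 (.c 32 (.c 24 (.c 2049 (.c 8 (.c 40 .nil))))) .nil) (.X 0 (.c 40 (.c 32 (.c 2049 (.c 8 (.c 24 .nil))))) .nil)))) (.node (.node (.node (.X 2 (.c 32 (.c 0 (.c 40 (.c 16 (.c 8 .nil))))) (.b 24 .nil)) (.X 0 (.c 40 (.c 16 (.c 24 (.c 513 (.c 32 .nil))))) .nil)) (.node (.X 0 (.c 32 (.c 8 (.c 4609 (.c 16 (.c 40 .nil))))) .nil) (.X 0 (.c 32 (.c 8 (.c 24 (.c 2049 (.c 40 .nil)))))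 .nil))) (.node (.node (.X 0 (.c 40 (.c 24 (.c 32 (.c 2049 (.c 8 .nil))))) .nil) (.X 2 (.c 40 (.c 0 (.c 32 (.c 16 (.c 8 .nil))))) (.b 24 .nil))) (.node (.X 0 (.c 12801 (.c 24 (.c 16 (.c 8 (.c 32 .nil))))) .nil) (.X 2 (.c 16 (.c 0 (.c 32 (.c 24 (.c 8 .nil))))) (.b 40 .nil)))))) (.node (.node (.node (.node (.X 0 (.c 12801 (.c 32 (.c 24 (.c 8 (.c 16 .nil))))) .nil) (.X 2 (.c 40 (.c 0 (.c 32 (.c 24 (.c 8 .nil))))) (.b 16 .nil))) (.node (.X 2 (.c 16 (.c 0 (.c 40 (.c 24 (.c 8 .nil))))) (.b 32 .nil)) (.X 2 (.c 24 (.c 0 (.c 40 (.c 16 (.c 8 .nil))))) (.b 32 .nil)))) (.node (.node (.X 2 (.c 24 (.c 0 (.c 32 (.c 16 (.c 8 .nil))))) (.b 40 .nil)) (.X 0 (.c 12929 (.c 24 (.c 32 (.c 0 (.c 8 .nil))))) .nil)) (.node (.X 0 (.c 32 (.c 4673 (.c 16 (.c 0 (.c 40 .nil))))) .nil) (.X 0 (.c 12865 (.c 24 (.c 32 (.c 0 (.c 16 .nil))))) .nil)))) (.node (.node (.node (.X 0 (.c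 32 (.c 0 (.c 4737 (.c 8 (.c 40 .nil))))) .nil) (.X 0 (.c 40 (.c 8257 (.c 24 (.c 0 (.c 16 .nil))))) .nil)) (.node (.X 0 (.c 40 (.c 0 (.c 8257 (.c 16 (.c 24 .nil))))) .nil) (.X 1 (.c 32 (.c 8 (.c 16 (.c 0 (.c 40 .nil))))) (.b 24 .nil)))) (.node (.node (.X 1 (.c 32 (.c 16 (.c 8 (.c 0 (.c 40 .nil))))) (.b 24 .nil)) (.X 1 (.c 40 (.c 0 (.c 16 (.c 8 (.c 32 .nil))))) (.b 24 .nil))) (.node (.X 1 (.c 32 (.c 0 (.c 24 (.c 16 (.c 8 .nil))))) (.b 40 .nil)) (.X 1 (.c 32 (.c 16 (.c 24 (.c 0 (.c 8 .nil))))) (.b 40 .nil))))))) (.node (.node (.node (.node (.node (.X 1 (.c 24 (.c 8 (.c 16 (.c 0 (.c 40 .nil))))) (.b 32 .nil)) (.X 1 (.c 40 (.c 0 (.c 16 (.c 8 (.c 24 .nil))))) (.b 32 .nil))) (.node (.X 1 (.c 32 (.c 16 (.c 8 (.c 0 (.c 24 .nil))))) (.b 40 .nil)) (.X 1 (.c 40 (.c 4609 (.c 32 (.c 16 (.c 8 .nil))))) .nil))) (.node (.node (.X 1 (.c 40 (.c 4609 (.c 16 (.c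 8 (.c 32 .nil))))) .nil) (.X 1 (.c 40 (.c 24 (.c 8321 (.c 0 (.c 8 .nil))))) .nil)) (.node (.X 1 (.c 40 (.c 24 (.c 8257 (.c 0 (.c 16 .nil))))) .nil) (.X 1 (.c 40 (.c 24 (.c 8193 (.c 16 (.c 8 .nil))))) .nil)))) (.node (.node (.node (.X 1 (.c 40 (.c 8 (.c 32 (.c 4609 (.c 16 .nil))))) .nil) (.X 1 (.c 40 (.c 24 (.c 8193 (.c 8 (.c 16 .nil))))) .nil)) (.node (.X 1 (.c 40 (.c 8 (.c 8193 (.c 16 (.c 24 .nil))))) .nil) (.X 1 (.c 40 (.c 8 (.c 8193 (.c 24 (.c 16 .nil))))) .nil))) (.node (.node (.X 1 (.c 12929 (.c 0 (.c 32 (.c 24 (.c 8 .nil))))) .nil) (.X 1 (.c 12801 (.c 24 (.c 32 (.c 16 (.c 8 .nil))))) .nil)) (.node (.X 1 (.c 12801 (.c 32 (.c 16 (.c 8 (.c 24 .nil))))) .nil) (.X 1 (.c 12865 (.c 0 (.c 24 (.c 16 (.c 32 .nil))))) .nil))))) (.node (.node (.node (.node (.X 1 (.c 12865 (.c 0 (.c 32 (.c 16 (.c 24 .nil))))) .nil) (.X 1 (.c 12801 (.c 16 (.c 32 (.c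 8 (.c 24 .nil))))) .nil)) (.node (.X 1 (.c 40 (.c 32 (.c 4737 (.c 0 (.c 8 .nil))))) .nil) (.X 1 (.c 40 (.c 32 (.c 24 (.c 2049 (.c 8 .nil))))) .nil))) (.node (.node (.X 1 (.c 40 (.c 32 (.c 2113 (.c 0 (.c 24 .nil))))) .nil) (.X 3 (.c 32 (.c 24 (.c 16 (.c 0 (.c 12865 .nil))))) .nil)) (.node (.X 3 (.c 32 (.c 24 (.c 16 (.c 8 (.c 40 .nil))))) (.l 0 .nil)) (.X 3 (.c 32 (.c 24 (.c 16 (.c 8 (.c 12801 .nil))))) .nil)))) (.node (.node (.node (.X 3 (.c 40 (.c 24 (.c 8 (.c 2049 (.c 32 .nil))))) .nil) (.X 3 (.c 40 (.c 32 (.c 8 (.c 4609 (.c 16 .nil))))) .nil)) (.node (.X 3 (.c 40 (.c 32 (.c 8 (.c 2049 (.c 24 .nil))))) .nil) (.X 3 (.c 32 (.c 24 (.c 16 (.c 12865 (.c 0 .nil))))) .nil))) (.node (.node (.X 3 (.c 40 (.c 24 (.c 8 (.c 32 (.c 2049 .nil))))) .nil) (.X 3 (.c 40 (.c 32 (.c 16 (.c 8 (.c 4609 .nil))))) .nil)) (.node (.X 3 (.c 40 (.c 32 (.c 24 (.c 8 (.c 2049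 .nil))))) .nil) (.X 3 (.c 40 (.c 24 (.c 8 (.c 16 (.c 8193 .nil))))) .nil)))))))

noncomputable def cw_30 : Tr := (.node (.node (.node (.node (.node (.node (.X 3 (.c 40 (.c 32 (.c 8 (.c 16 (.c 4609 .nil))))) .nil) (.X 3 (.c 12801 (.c 32 (.c 24 (.c 8 (.c 16 .nil))))) .nil)) (.node (.X 3 (.c 40 (.c 32 (.c 24 (.c 16 (.c 513 .nil))))) .nil) (.X 3 (.c 40 (.c 32 (.c 8 (.c 24 (.c 2049 .nil))))) .nil))) (.node (.node (.X 3 (.c 32 (.c 24 (.c 8 (.c 0 (.c 40 .nil))))) (.l 16 .nil)) (.X 3 (.c 40 (.c 8193 (.c 24 (.c 8 (.c 16 .nil))))) .nil)) (.node (.X 3 (.c 12801 (.c 24 (.c 8 (.c 32 (.c 16 .nil))))) .nil) (.X 3 (.c 40 (.c 32 (.c 16 (.c 24 (.c 513 .nil))))) .nil)))) (.node (.node (.node (.X 3 (.c 40 (.c 24 (.c 16 (.c 32 (.c 513 .nil))))) .nil) (.X 3 (.c 32 (.c 16 (.c 8 (.c 0 (.c 40 .nil))))) (.l 24 .nil))) (.node (.X 3 (.c 8193 (.c 24 (.c 8 (.c 40 (.c 16 .nil)))))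 .nil) (.X 3 (.c 8193 (.c 16 (.c 8 (.c 24 (.c 40 .nil))))) .nil))) (.node (.node (.X 3 (.c 8193 (.c 16 (.c 8 (.c 40 (.c 24 .nil))))) .nil) (.X 3 (.c 24 (.c 16 (.c 8 (.c 0 (.c 40 .nil))))) (.l 32 .nil))) (.node (.X 3 (.c 12865 (.c 32 (.c 24 (.c 0 (.c 16 .nil))))) .nil) (.X 3 (.c 32 (.c 4673 (.c 16 (.c 0 (.c 40 .nil))))) .nil))))) (.node (.node (.node (.node (.X 3 (.c 40 (.c 24 (.c 8 (.c 0 (.c 32 .nil))))) (.l 16 .nil)) (.X 3 (.c 12929 (.c 24 (.c 8 (.c 0 (.c 32 .nil))))) .nil)) (.node (.X 3 (.c 40 (.c 32 (.c 16 (.c 4673 (.c 0 .nil))))) .nil) (.X 3 (.c 40 (.c 24 (.c 16 (.c 8257 (.c 0 .nil))))) .nil))) (.node (.node (.X 3 (.c 40 (.c 16 (.c 8 (.c 0 (.c 32 .nil))))) (.l 24 .nil)) (.X 3 (.c 32 (.c 16 (.c 8 (.c 0 (.c 12993 .nil))))) .nil)) (.node (.X 3 (.c 32 (.c 16 (.c 0 (.c 12865 (.c 24 .nil))))) .nil) (.X 3 (.c 12865 (.c 24 (.c 0 (.c 32 (.c 16 .nil)))))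 .nil)))) (.node (.node (.node (.X 3 (.c 32 (.c 24 (.c 0 (.c 8 (.c 40 .nil))))) (.l 16 .nil)) (.X 3 (.c 32 (.c 4737 (.c 8 (.c 0 (.c 40 .nil))))) .nil)) (.node (.X 3 (.c 32 (.c 24 (.c 0 (.c 8 (.c 12929 .nil))))) .nil) (.X 3 (.c 32 (.c 16 (.c 0 (.c 8 (.c 40 .nil))))) (.l 24 .nil)))) (.node (.node (.X 3 (.c 32 (.c 24 (.c 513 (.c 16 (.c 40 .nil))))) .nil) (.X 3 (.c 32 (.c 16 (.c 8 (.c 0 (.c 24 .nil))))) (.l 40 .nil))) (.node (.X 3 (.c 32 (.c 24 (.c 8 (.c 0 (.c 16 .nil))))) (.l 40 .nil)) (.X 3 (.c 40 (.c 32 (.c 8 (.c 0 (.c 16 .nil))))) (.l 24 .nil))))))) (.node (.node (.node (.node (.node (.X 3 (.c 32 (.c 8 (.c 0 (.c 40 (.c 16 .nil))))) (.l 24 .nil)) (.X 3 (.c 40 (.c 24 (.c 0 (.c 8 (.c 32 .nil))))) (.l 16 .nil))) (.node (.X 3 (.c 40 (.c 32 (.c 513 (.c 16 (.c 24 .nil))))) .nil) (.X 3 (.c 40 (.c 16 (.c 0 (.c 8 (.c 32 .nil))))) (.l 24 .nil)))) (.node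 (.node (.X 3 (.c 24 (.c 16 (.c 513 (.c 32 (.c 40 .nil))))) .nil) (.X 3 (.c 40 (.c 8257 (.c 24 (.c 0 (.c 16 .nil))))) .nil)) (.node (.X 3 (.c 32 (.c 16 (.c 513 (.c 40 (.c 24 .nil))))) .nil) (.X 3 (.c 32 (.c 2049 (.c 8 (.c 40 (.c 24 .nil))))) .nil)))) (.node (.node (.node (.X 3 (.c 32 (.c 24 (.c 2049 (.c 8 (.c 40 .nil))))) .nil) (.X 3 (.c 24 (.c 2049 (.c 8 (.c 40 (.c 32 .nil))))) .nil)) (.node (.X 3 (.c 8257 (.c 24 (.c 0 (.c 16 (.c 40 .nil))))) .nil) (.X 3 (.c 12993 (.c 32 (.c 8 (.c 0 (.c 16 .nil))))) .nil))) (.node (.node (.X 3 (.c 40 (.c 32 (.c 0 (.c 8 (.c 24 .nil))))) (.l 16 .nil)) (.X 3 (.c 40 (.c 8 (.c 0 (.c 32 (.c 16 .nil))))) (.l 24 .nil))) (.node (.X 3 (.c 12929 (.c 32 (.c 8 (.c 24 (.c 0 .nil))))) .nil) (.X 3 (.c 12929 (.c 24 (.c 8 (.c 32 (.c 0 .nil))))) .nil))))) (.node (.node (.node (.node (.X 3 (.c 4673 (.c 16 (.c 0 (.c 40 (.c 32 .nil)))))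 .nil) (.X 3 (.c 8321 (.c 24 (.c 8 (.c 40 (.c 0 .nil))))) .nil)) (.node (.X 3 (.c 8385 (.c 16 (.c 8 (.c 40 (.c 0 .nil))))) .nil) (.X 3 (.c 40 (.c 32 (.c 0 (.c 2113 (.c 24 .nil))))) .nil))) (.node (.node (.X 3 (.c 32 (.c 4673 (.c 0 (.c 40 (.c 16 .nil))))) .nil) (.X 3 (.c 32 (.c 4737 (.c 8 (.c 40 (.c 0 .nil))))) .nil)) (.node (.X 3 (.c 40 (.c 32 (.c 0 (.c 8 (.c 4737 .nil))))) .nil) (.X 3 (.c 40 (.c 24 (.c 0 (.c 8 (.c 8321 .nil))))) .nil)))) (.node (.node (.node (.X 3 (.c 32 (.c 16 (.c 0 (.c 8 (.c 12993 .nil))))) .nil) (.X 3 (.c 16 (.c 8 (.c 0 (.c 40 (.c 32 .nil))))) (.b 24 .nil))) (.node (.X 3 (.c 16 (.c 8 (.c 0 (.c 32 (.c 40 .nil))))) (.b 24 .nil)) (.X 3 (.c 32 (.c 24 (.c 16 (.c 514 (.c 40 .nil))))) .nil))) (.node (.node (.X 3 (.c 12866 (.c 32 (.c 24 (.c 0 (.c 16 .nil))))) .nil) (.X 3 (.c 12866 (.c 32 (.c 16 (.c 0 (.c 24 .nil))))) .nil)) (.node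 (.X 3 (.c 40 (.c 32 (.c 2114 (.c 0 (.c 24 .nil))))) .nil) (.X 3 (.c 40 (.c 32 (.c 4738 (.c 0 (.c 8 .nil))))) .nil)))))))

noncomputable def cw_31 : Tr := (.node (.X 3 (.c 8258 (.c 24 (.c 16 (.c 0 (.c 40 .nil))))) .nil) (.node (.X 3 (.c 40 (.c 32 (.c 4674 (.c 0 (.c 16 .nil))))) .nil) (.X 3 (.c 40 (.c 32 (.c 4738 (.c 8 (.c 0 .nil))))) .nil)))

noncomputable def cwT : Tr := (.node (.node (.node (.node (.node (cw_0) (cw_1)) (.node (cw_2) (cw_3))) (.node (.node (cw_4) (cw_5)) (.node (cw_6) (cw_7)))) (.node (.node (.node (cw_8) (cw_9)) (.node (cw_10) (cw_11))) (.node (.node (cw_12) (cw_13)) (.node (cw_14) (cw_15))))) (.node (.node (.node (.node (cw_16) (cw_17)) (.node (cw_18) (cw_19))) (.node (.node (cw_20) (cw_21)) (.node (cw_22) (cw_23)))) (.node (.node (.node (cw_24) (cw_25)) (.node (cw_26) (cw_27))) (.node (.node (cw_28) (cw_29)) (.node (cw_30)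 (cw_31))))))

noncomputable def cwG : TL := .p (.b (.b (.b (.x 0) (.x 1)) (.b (.x 2) (.x 3))) (.b (.x 4) (.x 5))) <| .p (.b (.b (.b (.x 0) (.x 2)) (.b (.x 1) (.x 3))) (.b (.x 4) (.x 5))) <| .p (.b (.b (.b (.x 0) (.x 3)) (.b (.x 1) (.x 2))) (.b (.x 4) (.x 5))) .nil

theorem cwC : chk hl1 cwG cwT = true := by decide +kernel

end Pool.Agent.TP.Chk2
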