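import Pool.Agent.Helper50_TP2.Chain
import Pool.Agent.Helper99_TP2.RS2
import Pool.Agent.Helper52_TP.CertW
import Pool.Agent.Helper52_TP.Cert2
import Pool.Agent.Helper52_TP.Cert4
import Pool.Agent.Helper52_TP.Cert5

/-!
# MP_ce3ba7_al, characteristic 2: modules W, C2, C4, C5 from the kernel certificates (helper52)
-/

set_option autoImplicit false

namespace Pool.Agent.TP.Chk2

open H50

section
variable {B : Type} [NonUnitalNonAssocRing B]

/-- letters -/
def vv (a b c d e f g : B) (i : ℕ) : B :=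
  match i with
  | 0 => a
  | 1 => b
  | 2 => c
  | 3 => d
  | 4 => e
  | 5 => f
  | _ => g

theorem holdsW (hW : ∀ a b c d : B, WW a b c d = 0) (v : ℕ → B) : Chk2.hW.val v = 0 := by
  show (cm (cm ((v 0)) ((v 1))) (cm ((v 2)) ((v 3)))) + ((cm (cm ((v 0)) ((v 2))) (cm ((v 1)) ((v 3)))) + ((cm (cm ((v 0)) ((v 3))) (cm ((v 1)) ((v 2)))) + (0))) = 0
  have h := hW (v 0) (v 1) (v 2) (v 3)
  unfold WW at h
  linear_combination (norm := abel) h

theorem holdsK (hk : ∀ u a b c d : B, kk u a b c d = 0) (v : ℕ → B) : hK.val v = 0 := by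
  show (((v 4)) * (cm (cm ((v 0)) ((v 1))) (cm ((v 2)) ((v 3))))) + (((cm ((v 0)) ((v 1))) * (cm ((v 4)) (cm ((v 2)) ((v 3))))) + (((cm ((v 2)) ((v 3))) * (cm ((v 4)) (cm ((v 0)) ((v 1))))) + ((((v 4)) * (cm (cm ((v 0)) ((v 2))) (cm ((v 1)) ((v 3))))) + (((cm ((v 0)) ((v 2))) * (cm ((v 4)) (cm ((v 1)) ((v 3))))) + (((cm ((v 1)) ((v 3))) * (cm ((v 4)) (cm ((v 0)) ((v 2))))) + ((((v 4)) * (cm (cm ((v 0)) ((v 3))) (cm ((v 1)) ((v 2))))) + (((cm ((v 0)) ((v 3))) * (cm ((v 4)) (cm ((v 1)) ((v 2))))) + (((cm ((v 1)) ((v 2))) * (cm ((v 4)) (cm ((v 0)) ((v 3))))) + (0))))))))) = 0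
  have h := hk (v 4) (v 0) (v 1) (v 2) (v 3)
  unfold kk hh at h
  linear_combination (norm := abel) h

theorem holdsH (h3 : ∀ a b c d e f : B, hh (cm a b) (cm c d) (cm e f) = 0) (v : ℕ → B) :
    hH.val v = 0 := by
  show ((cm ((v 0)) ((v 1))) * (cm (cm ((v 2)) ((v 3))) (cm ((v 4)) ((v 5))))) + (((cm ((v 2)) ((v 3))) * (cm (cm ((v 0)) ((v 1))) (cm ((v 4)) ((v 5))))) + (((cm ((v 4)) ((v 5))) * (cm (cm ((v 0)) ((v 1))) (cm ((v 2)) ((v 3))))) + (0))) = 0
  have h := h3 (v 0) (v 1) (v 2) (v 3) (v 4) (v 5)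
  unfold hh at h
  linear_combination (norm := abel) h

/-- the element `B_xz` of helper78 -/
def BX (x z a b : B) : B := cm x a * cm z b + cm z a * cm x b + cm x (asc z a b) + cm z (asc x a b)

theorem asc_add2' (x y y' z : B) : asc x (y + y') z = asc x y z + asc x y' z := by
  unfold asc; simp only [add_mul, mul_add]; abel

theorem nx_cond (h2 : ∀ x : B, x + x = 0) (hA : IsAlt B) (x y z a b w : B) :
    asc y (BX x z a b) w + asc x (BX y z a b) w + asc z (BX x y a b) w = 0 := by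
  have h : (asc y ((cm x a) * (cm z b)) w) + ((asc y ((cm z a) * (cm x b)) w) + ((asc y (cm x (asc z a b)) w) + ((asc y (cm z (asc x a b)) w) + ((asc x ((cm y a) * (cm z b)) w) + ((asc x ((cm z a) * (cm y b)) w) + ((asc x (cm y (asc z a b)) w) + ((asc x (cm z (asc y a b)) w) + ((asc z ((cm x a) * (cm y b)) w) + ((asc z ((cm y a) * (cm x b)) w) + ((asc z (cm x (asc y a b)) w) + ((asc z (cm y (asc x a b)) w) + (0)))))))))))) = 0 :=
    sound h2 hA hl0 (holds_lem h2 hA) cvG cvT cvC (vv x y z a b w w)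
  unfold BX
  simp only [asc_add2']
  linear_combination (norm := abel) h

theorem holdsV (hR : Rules2 B) (v : ℕ → B) : hV.val v = 0 := by
  show (cm ((v 1)) ((cm ((v 0)) ((v 3))) * (cm ((v 2)) ((v 4))))) + ((cm ((v 1)) ((cm ((v 2)) ((v 3))) * (cm ((v 0)) ((v 4))))) + ((cm ((v 1)) (cm ((v 0)) (asc ((v 2)) ((v 3)) ((v 4))))) + ((cm ((v 1)) (cm ((v 2)) (asc ((v 0)) ((v 3)) ((v 4))))) + ((cm ((v 0)) ((cm ((v 1)) ((v 3))) * (cm ((v 2)) ((v 4))))) + ((cm ((v 0)) ((cm ((v 2)) ((v 3))) * (cm ((v 1)) ((v 4))))) + ((cm ((v 0)) (cm ((v 1)) (asc ((v 2)) ((v 3)) ((v 4))))) + ((cm ((v 0)) (cm ((v 2)) (asc ((v 1)) ((v 3)) ((v 4))))) + ((cm ((v 2)) ((cm ((v 0)) ((v 3))) * (cm ((v 1)) ((v 4))))) + ((cm ((v 2)) ((cm ((v 1)) ((v 3))) * (cm ((v 0)) ((v 4))))) + ((cm ((v 2)) (cm ((v 0)) (asc ((v 1)) ((v 3)) ((v 4))))) + ((cm ((v 2)) (cm ((v 1)) (asc ((v 0)) ((v 3)) ((v 4))))) + (0)))))))))))) = 0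
  have h := hR.nx [(v 1, BX (v 0) (v 2) (v 3) (v 4)), (v 0, BX (v 1) (v 2) (v 3) (v 4)),
    (v 2, BX (v 0) (v 1) (v 3) (v 4))] (by
      intro w
      simp only [List.map_cons, List.map_nil, List.sum_cons, List.sum_nil, add_zero]
      rw [← add_assoc]
      exact nx_cond hR.two hR.alt (v 0) (v 1) (v 2) (v 3) (v 4) w)
  simp only [List.map_cons, List.map_nil, List.sum_cons, List.sum_nil, BX, cm_add_right] at h
  linear_combination (norm := abel) h

theorem w_comm (hR : Rules2 B) (a b c d e f : B) : cm (WW a b c d) (cm e f) = 0 := by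
  have hh' : Holds B hl1 := by
    have h := holds_lem hR.two hR.alt
    refine holds_c _ _ (fun v => h 0 v) (holds_c _ _ (fun v => h 1 v)
      (holds_c _ _ (fun v => h 2 v) (holds_c _ _ (holdsV hR) holds_nil)))
  have h : (cm (cm (cm a b) (cm c d)) (cm e f)) + ((cm (cm (cm a c) (cm b d)) (cm e f)) + ((cm (cm (cm a d) (cm b c)) (cm e f)) + (0))) = 0 :=
    sound hR.two hR.alt hl1 hh' cwG cwT cwC (vv a b c d e f f)
  unfold WW
  simp only [cm_add_left]
  linear_combination (norm := abel) h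

end

/-- MODULE C1 -/
theorem wStmt : WStmt := by
  intro B _ hR a b c d
  exact RS.rs B hR _ fun e f => w_comm hR a b c d e f

/-- MODULE C2 -/
theorem c2Stmt : C2Stmt := by
  intro B _ hA h2 hW a b c d e f g
  have h : (cm ((cm e f) * (cm (cm a b) (cm c d))) g) + ((cm ((cm a b) * (cm (cm e f) (cm c d))) g) + ((cm ((cm c d) * (cm (cm e f) (cm a b))) g) + ((cm ((cm e f) * (cm (cm a c) (cm b d))) g) + ((cm ((cm a c) * (cm (cm e f) (cm b d))) g) + ((cm ((cm b d) * (cm (cm e f) (cm a c))) g) + ((cm ((cm e f) * (cm (cm a d) (cm b c))) g) + ((cm ((cm a d) * (cm (cm e f) (cm b c))) g) + ((cm ((cm b c) * (cm (cm e f) (cm a d))) g) + (0))))))))) = 0 :=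
    sound h2 hA hl2 (holds_c _ _ (holdsW hW) (holds_lem h2 hA)) c2G c2T c2C (vv a b c d e f g)
  unfold kk hh
  simp only [cm_add_left]
  linear_combination (norm := abel) h

/-- MODULE C4 -/
theorem c4Stmt : C4Stmt := by
  intro B _ hA h2 hW hk a b c d e f g
  have hl := holds_lem h2 hA
  have hh' : Holds B hl4 := holds_c _ _ (holdsW hW) (holds_c _ _ (fun v => hl 0 v)
    (holds_c _ _ (fun v => hl 1 v) (holds_c _ _ (fun v => hl 2 v)
      (holds_c _ _ (holdsK hk) holds_nil))))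
  have h : (cm ((cm a b) * (cm (cm c d) (cm e f))) g) + ((cm ((cm c d) * (cm (cm a b) (cm e f))) g) + ((cm ((cm e f) * (cm (cm a b) (cm c d))) g) + (0))) = 0 :=
    sound h2 hA hl4 hh' c4G c4T c4C (vv a b c d e f g)
  unfold hh
  simp only [cm_add_left]
  linear_combination (norm := abel) h

/-- MODULE C5 -/
theorem c5Stmt : C5Stmt := by
  intro B _ hA h2 hW hk h3 a b g c d e f
  have hl := holds_lem h2 hA
  have hh' : Holds B hl5 := holds_c _ _ (holdsW hW) (holds_c _ _ (fun v => hl 0 v)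
    (holds_c _ _ (fun v => hl 1 v) (holds_c _ _ (fun v => hl 2 v)
      (holds_c _ _ (holdsK hk) (holds_c _ _ (holdsH h3) holds_nil)))))
  have h : ((cm c d) * (cm (cm e f) ((cm a b) * g))) + (((cm e f) * (cm (cm c d) ((cm a b) * g))) + ((((cm a b) * g) * (cm (cm c d) (cm e f))) + (0))) = 0 :=
    sound h2 hA hl5 hh' c5G c5T c5C (vv c d e f a b g)
  unfold hh
  rw [cm_comm (cm e f) (cm a b * g), cm_comm (cm c d) (cm a b * g)] at h
  linear_combination (norm := abel) h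

/-- CHARACTERISTIC 2 -/
theorem char2 : Char2Stmt := char2_of RS.rs wStmt c2Stmt c4Stmt c5Stmt

end Pool.Agent.TP.Chk2
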