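import Pool.Agent.Helper52_TP.Chk2

/-! Hypothesis relations for the certificates in characteristic 2 (helper52). -/

set_option autoImplicit false

namespace Pool.Agent.TP.Chk2

/-- relation W -/
noncomputable def hW : TL := .p (.b (.b (.x 0) (.x 1)) (.b (.x 2) (.x 3))) <| .p (.b (.b (.x 0) (.x 2)) (.b (.x 1) (.x 3))) <| .p (.b (.b (.x 0) (.x 3)) (.b (.x 1) (.x 2))) .nil

/-- relation J4 -/
noncomputable def hJ4 : TL := .p (.b (.b (.x 1) (.x 2)) (.t (.x 0) (.x 3) (.x 4))) <| .p (.b (.b (.x 1) (.x 3)) (.t (.x 0) (.x 2) (.x 4))) <| .p (.b (.b (.x 0) (.x 2)) (.t (.x 1) (.x 3) (.x 4))) <| .p (.b (.b (.x 0) (.x 3)) (.t (.x 1) (.x 2) (.x 4))) .nil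

/-- relation RR -/
noncomputable def hRR : TL := .p (.t (.x 0) (.x 2) (.t (.x 1) (.x 3) (.x 4))) <| .p (.m (.b (.x 0) (.x 2)) (.t (.x 1) (.x 3) (.x 4))) <| .p (.t (.x 1) (.x 2) (.t (.x 0) (.x 3) (.x 4))) <| .p (.m (.b (.x 1) (.x 2)) (.t (.x 0) (.x 3) (.x 4))) <| .p (.t (.x 0) (.x 3) (.t (.x 1) (.x 2) (.x 4))) <| .p (.m (.b (.x 0) (.x 3)) (.t (.x 1) (.x 2) (.x 4))) <| .p (.t (.x 1) (.x 3) (.t (.x 0) (.x 2) (.x 4))) <| .p (.m (.b (.x 1) (.x 3)) (.t (.x 0) (.x 2) (.x 4))) .nil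

/-- relation ET -/
noncomputable def hET : TL := .p (.t (.x 0) (.x 1) (.t (.x 2) (.x 3) (.x 4))) <| .p (.b (.b (.x 0) (.x 1)) (.t (.x 2) (.x 3) (.x 4))) <| .p (.t (.t (.x 0) (.x 1) (.x 2)) (.x 3) (.x 4)) <| .p (.t (.b (.b (.x 0) (.x 1)) (.x 2)) (.x 3) (.x 4)) <| .p (.t (.x 2) (.t (.x 0) (.x 1) (.x 3)) (.x 4)) <| .p (.t (.x 2) (.b (.b (.x 0) (.x 1)) (.x 3)) (.x 4)) <| .p (.t (.x 2) (.x 3) (.t (.x 0) (.x 1) (.x 4))) <| .p (.t (.x 2) (.x 3) (.b (.b (.x 0) (.x 1)) (.x 4))) .nil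

/-- relation K -/
noncomputable def hK : TL := .p (.m (.x 4) (.b (.b (.x 0) (.x 1)) (.b (.x 2) (.x 3)))) <| .p (.m (.b (.x 0) (.x 1)) (.b (.x 4) (.b (.x 2) (.x 3)))) <| .p (.m (.b (.x 2) (.x 3)) (.b (.x 4) (.b (.x 0) (.x 1)))) <| .p (.m (.x 4) (.b (.b (.x 0) (.x 2)) (.b (.x 1) (.x 3)))) <| .p (.m (.b (.x 0) (.x 2)) (.b (.x 4) (.b (.x 1) (.x 3)))) <| .p (.m (.b (.x 1) (.x 3)) (.b (.x 4) (.b (.x 0) (.x 2)))) <| .p (.m (.x 4) (.b (.b (.x 0) (.x 3)) (.b (.x 1) (.x 2)))) <| .p (.m (.b (.x 0) (.x 3)) (.b (.x 4) (.b (.x 1) (.x 2)))) <| .p (.m (.b (.x 1) (.x 2)) (.b (.x 4) (.b (.x 0) (.x 3)))) .nil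

/-- relation H -/
noncomputable def hH : TL := .p (.m (.b (.x 0) (.x 1)) (.b (.b (.x 2) (.x 3)) (.b (.x 4) (.x 5)))) <| .p (.m (.b (.x 2) (.x 3)) (.b (.b (.x 0) (.x 1)) (.b (.x 4) (.x 5)))) <| .p (.m (.b (.x 4) (.x 5)) (.b (.b (.x 0) (.x 1)) (.b (.x 2) (.x 3)))) .nil

noncomputable def hl2 : HL := (.c hW (.c hJ4 (.c hRR (.c hET .nil))))

noncomputable def hl4 : HL := (.c hW (.c hJ4 (.c hRR (.c hET (.c hK .nil)))))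

noncomputable def hl5 : HL := (.c hW (.c hJ4 (.c hRR (.c hET (.c hK (.c hH .nil))))))

end Pool.Agent.TP.Chk2
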