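import Pool.Agent.Helper52_TP.C2Hyp

/-! Lemma relations in characteristic 2: certificates, generated (helper52). -/

set_option autoImplicit false
set_option maxRecDepth 1000000

namespace Pool.Agent.TP.Chk2

noncomputable def lJ4T : Tr := (.node (.node (.node (.node (.I .jac (.c 8786435 (.c 8 (.c 16 .nil))) .nil) (.I .jac (.c 8652803 (.c 8 (.c 24 .nil))) .nil)) (.node (.I .jac (.c 0 (.c 8786499 (.c 16 .nil))) .nil) (.node (.I .jac (.c 0 (.c 8652867 (.c 24 .nil))) .nil) (.I .tdb (.c 0 (.c 32 (.c 8 (.c 16 .nil)))) (.b 24 .nil))))) (.node (.node (.I .tdb (.c 0 (.c 32 (.c 8 (.c 24 .nil)))) (.b 16 .nil)) (.node (.I .tdb (.c 16 (.c 24 (.c 8193 (.c 8 .nil)))) .nil) (.I .tdb (.c 16 (.c 32 (.c 8 (.c 0 .nil)))) (.b 24 .nil)))) (.node (.I .tdb (.c 24 (.c 32 (.c 8 (.c 0 .nil)))) (.b 16 .nil)) (.node (.I .tdb (.c 16 (.c 32 (.c 0 (.c 24 .nil))))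 (.b 8 .nil)) (.I .tdb (.c 16 (.c 24 (.c 8 (.c 32 .nil)))) (.b 0 .nil)))))) (.node (.node (.node (.I .tdb (.c 24 (.c 32 (.c 16 (.c 0 .nil)))) (.b 8 .nil)) (.I .tdb (.c 8 (.c 24 (.c 16 (.c 0 .nil)))) (.b 32 .nil))) (.node (.I .tdb (.c 8 (.c 16 (.c 0 (.c 24 .nil)))) (.b 32 .nil)) (.node (.I .tdb (.c 8 (.c 24 (.c 0 (.c 32 .nil)))) (.b 16 .nil)) (.I .tdb (.c 8 (.c 16 (.c 0 (.c 32 .nil)))) (.b 24 .nil))))) (.node (.node (.I .tdb (.c 8 (.c 24 (.c 8321 (.c 0 .nil)))) .nil) (.node (.I .tdb (.c 8 (.c 16 (.c 0 (.c 8385 .nil)))) .nil) (.I .tdb (.c 16 (.c 24 (.c 8 (.c 0 .nil)))) (.b 32 .nil)))) (.node (.I .tdb (.c 32 (.c 24 (.c 2113 (.c 0 .nil)))) .nil) (.node (.I .tdb (.c 32 (.c 16 (.c 4673 (.c 0 .nil)))) .nil) (.I .tdb (.c 32 (.c 0 (.c 4737 (.c 8 .nil)))) .nil))))))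

theorem lJ4C : chk .nil hJ4 lJ4T = true := by decide +kernel

noncomputable def lRRT : Tr := (.node (.node (.node (.node (.node (.I .jac (.c 8786435 (.c 8 (.c 16 .nil))) .nil) (.node (.I .jac (.c 8652803 (.c 8 (.c 24 .nil))) .nil) (.I .jac (.c 8520195 (.c 16 (.c 24 .nil))) .nil))) (.node (.node (.I .jac (.c 2803715 (.c 8 (.c 32 .nil))) .nil) (.I .tdb (.c 0 (.c 32 (.c 16 (.c 8 .nil)))) (.b 24 .nil))) (.node (.I .tdb (.c 0 (.c 16 (.c 8 (.c 24 .nil)))) (.b 32 .nil)) (.I .tdb (.c 0 (.c 32 (.c 16 (.c 24 .nil)))) (.b 8 .nil))))) (.node (.node (.I .tdb (.c 8 (.c 24 (.c 8193 (.c 16 .nil)))) .nil) (.node (.I .tdb (.c 0 (.c 16 (.c 8 (.c 32 .nil)))) (.b 24 .nil)) (.I .tdb (.c 8 (.c 32 (.c 16 (.c 24 .nil)))) (.b 0 .nil)))) (.node (.node (.I .tdb (.c 8 (.c 24 (.c 16 (.c 32 .nil)))) (.b 0 .nil)) (.I .tdb (.c 0 (.c 16 (.c 8385 (.c 8 .nil)))) .nil))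 (.node (.I .tdb (.c 24 (.c 32 (.c 16 (.c 8 .nil)))) (.b 0 .nil)) (.I .tdb (.c 16 (.c 24 (.c 8 (.c 32 .nil)))) (.b 0 .nil)))))) (.node (.node (.node (.I .tdb (.c 24 (.c 32 (.c 0 (.c 16 .nil)))) (.b 8 .nil)) (.node (.I .tdb (.c 8 (.c 24 (.c 0 (.c 16 .nil)))) (.b 32 .nil)) (.I .tdb (.c 16 (.c 8 (.c 0 (.c 24 .nil)))) (.b 32 .nil)))) (.node (.node (.I .tdb (.c 16 (.c 24 (.c 8257 (.c 0 .nil)))) .nil) (.I .tdb (.c 16 (.c 8 (.c 0 (.c 32 .nil)))) (.b 24 .nil))) (.node (.I .tdb (.c 16 (.c 8 (.c 8385 (.c 0 .nil)))) .nil) (.I .com (.c 8786435 (.c 2113 .nil)) .nil)))) (.node (.node (.node (.I .com (.c 8652803 (.c 4673 .nil)) .nil) (.I .com (.c 0 (.c 617620517416137 .nil)) .nil)) (.node (.I .com (.c 0 (.c 598976858557705 .nil)) .nil) (.I .tdp (.c 16 (.c 24 (.c 8257 (.c 0 .nil)))) .nil))) (.node (.node (.I .tdb (.c 8 (.c 32 (.c 0 (.c 16 .nil))))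 (.l 24 .nil)) (.I .com (.c 598967998054537 (.c 24 .nil)) .nil)) (.node (.I .com (.c 2487083360585 (.c 24 .nil)) .nil) (.I .tdb (.c 8 (.c 32 (.c 0 (.c 24 .nil)))) (.r 16 .nil))))))) (.node (.node (.node (.node (.I .com (.c 2487083360521 (.c 32 .nil)) .nil) (.node (.I .com (.c 59555558875337 (.c 32 .nil)) .nil) (.I .tdb (.c 16 (.c 24 (.c 0 (.c 8 .nil)))) (.l 32 .nil)))) (.node (.node (.I .adp (.c 8786435 (.c 16 (.c 8 .nil))) .nil) (.I .adp (.c 8652803 (.c 24 (.c 8 .nil))) .nil)) (.node (.I .tdb (.c 16 (.c 24 (.c 8 (.c 32 .nil)))) (.r 0 .nil)) (.I .adp (.c 2728451 (.c 32 (.c 16 .nil))) .nil)))) (.node (.node (.I .adp (.c 0 (.c 8786499 (.c 16 .nil))) .nil) (.node (.I .adp (.c 557571 (.c 32 (.c 24 .nil))) .nil) (.I .adp (.c 0 (.c 8652867 (.c 24 .nil))) .nil))) (.node (.node (.I .tdp (.c 0 (.c 32 (.c 8 (.c 4737 .nil)))) .nil) (.I .adp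 (.c 2728451 (.c 16 (.c 32 .nil))) .nil)) (.node (.I .adp (.c 557571 (.c 24 (.c 32 .nil))) .nil) (.I .com (.c 2728451 (.c 32 .nil)) (.b 16 .nil)))))) (.node (.node (.node (.I .com (.c 8652803 (.c 24 .nil)) (.b 8 .nil)) (.node (.I .tdp (.c 16 (.c 24 (.c 0 (.c 32 .nil)))) (.b 8 .nil)) (.I .com (.c 0 (.c 8786499 .nil)) (.b 16 .nil)))) (.node (.node (.I .tdp (.c 0 (.c 32 (.c 8 (.c 24 .nil)))) (.b 16 .nil)) (.I .com (.c 0 (.c 8652867 .nil)) (.b 24 .nil))) (.node (.I .com (.c 557571 (.c 32 .nil)) (.b 24 .nil)) (.I .tdp (.c 0 (.c 32 (.c 16 (.c 8 .nil)))) (.b 24 .nil))))) (.node (.node (.node (.I .tdp (.c 16 (.c 24 (.c 0 (.c 8 .nil)))) (.b 32 .nil)) (.I .com (.c 557571 (.c 24 .nil)) (.b 32 .nil))) (.node (.I .tdb (.c 32 (.c 24 (.c 2113 (.c 0 .nil)))) .nil) (.I .tdb (.c 32 (.c 8 (.c 4737 (.c 0 .nil)))) .nil))) (.node (.node (.I .tdb (.c 32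 (.c 0 (.c 4673 (.c 16 .nil)))) .nil) (.I .tdb (.c 32 (.c 24 (.c 2049 (.c 8 .nil)))) .nil)) (.node (.I .tdb (.c 32 (.c 8 (.c 4738 (.c 0 .nil)))) .nil) (.I .tdb (.c 24 (.c 16 (.c 8194 (.c 8 .nil)))) .nil)))))))

theorem lRRC : chk .nil hRR lRRT = true := by decide +kernel

noncomputable def lETT : Tr := (.node (.node (.node (.node (.node (.node (.I .jac (.c 8786435 (.c 8 (.c 16 .nil))) .nil) (.I .tdb (.c 0 (.c 16 (.c 8 (.c 24 .nil)))) (.b 32 .nil))) (.node (.I .tdb (.c 32 (.c 513 (.c 16 (.c 24 .nil)))) .nil) (.I .tdb (.c 0 (.c 8 (.c 16 (.c 24 .nil)))) (.b 32 .nil)))) (.node (.node (.I .tdb (.c 0 (.c 16 (.c 8 (.c 32 .nil)))) (.b 24 .nil)) (.I .tdb (.c 24 (.c 513 (.c 16 (.c 32 .nil)))) .nil)) (.node (.I .tdb (.c 8 (.c 32 (.c 0 (.c 16 .nil)))) (.b 24 .nil)) (.I .tdb (.c 16 (.c 513 (.c 24 (.c 32 .nil)))) .nil)))) (.node (.node (.node (.I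 .tdb (.c 0 (.c 16 (.c 8385 (.c 8 .nil)))) .nil) (.I .tdb (.c 0 (.c 8 (.c 4737 (.c 32 .nil)))) .nil)) (.node (.I .tdb (.c 16 (.c 24 (.c 8 (.c 32 .nil)))) (.b 0 .nil)) (.I .tdb (.c 24 (.c 32 (.c 0 (.c 16 .nil)))) (.b 8 .nil)))) (.node (.node (.I .tdb (.c 16 (.c 8257 (.c 0 (.c 24 .nil)))) .nil) (.I .tdb (.c 8 (.c 16 (.c 0 (.c 24 .nil)))) (.b 32 .nil))) (.node (.I .tdb (.c 16 (.c 24 (.c 8257 (.c 0 .nil)))) .nil) (.I .tdb (.c 8 (.c 16 (.c 0 (.c 32 .nil)))) (.b 24 .nil)))))) (.node (.node (.node (.node (.I .tdb (.c 16 (.c 24 (.c 0 (.c 8 .nil)))) (.b 32 .nil)) (.I .com (.c 0 (.c 598976858557705 .nil)) .nil)) (.node (.I .com (.c 0 (.c 617629514823817 .nil)) .nil) (.I .com (.c 2803715 (.c 8257 .nil)) .nil))) (.node (.node (.I .com (.c 2487083360585 (.c 24 .nil)) .nil) (.I .com (.c 62886542409865 (.c 32 .nil)) .nil)) (.node (.I .tdb (.c 8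 (.c 16 (.c 0 (.c 24 .nil)))) (.l 32 .nil)) (.I .com (.c 59555558875337 (.c 32 .nil)) .nil)))) (.node (.node (.node (.I .tdb (.c 8 (.c 16 (.c 24 (.c 32 .nil)))) (.b 0 .nil)) (.I .com (.c 617629514823753 (.c 8 .nil)) .nil)) (.node (.I .com (.c 62886542410057 (.c 8 .nil)) .nil) (.I .com (.c 557571 (.c 8385 .nil)) .nil))) (.node (.node (.I .adp (.c 8786435 (.c 16 (.c 8 .nil))) .nil) (.I .tdb (.c 0 (.c 32 (.c 8 (.c 16 .nil)))) (.l 24 .nil))) (.node (.I .com (.c 598976858557513 (.c 24 .nil)) .nil) (.I .adp (.c 2803715 (.c 32 (.c 8 .nil))) .nil)))))) (.node (.node (.node (.node (.node (.I .adp (.c 0 (.c 8 (.c 8786563 .nil))) .nil) (.I .tdb (.c 24 (.c 32 (.c 8 (.c 16 .nil)))) (.r 0 .nil))) (.node (.I .com (.c 617611520073865 (.c 16 .nil)) .nil) (.I .tdb (.c 8 (.c 32 (.c 0 (.c 24 .nil)))) (.l 16 .nil)))) (.node (.node (.I .tdb (.c 8 (.c 32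 (.c 16 (.c 24 .nil)))) (.r 0 .nil)) (.I .tdp (.c 8193 (.c 24 (.c 8 (.c 16 .nil)))) .nil)) (.node (.I .tdb (.c 0 (.c 32 (.c 16 (.c 24 .nil)))) (.l 8 .nil)) (.I .tdp (.c 0 (.c 8385 (.c 8 (.c 16 .nil)))) .nil)))) (.node (.node (.node (.I .tdp (.c 8257 (.c 16 (.c 0 (.c 24 .nil)))) .nil) (.I .tdp (.c 2113 (.c 32 (.c 0 (.c 24 .nil)))) .nil)) (.node (.I .adp (.c 0 (.c 24 (.c 8652867 .nil))) .nil) (.I .adp (.c 16 (.c 32 (.c 2728451 .nil))) .nil))) (.node (.node (.I .tdp (.c 8193 (.c 8 (.c 16 (.c 24 .nil)))) .nil) (.I .tdp (.c 0 (.c 8257 (.c 16 (.c 24 .nil)))) .nil)) (.node (.I .adp (.c 2803715 (.c 8 (.c 32 .nil))) .nil) (.I .adp (.c 557571 (.c 24 (.c 32 .nil))) .nil))))) (.node (.node (.node (.node (.I .com (.c 2803715 (.c 32 .nil)) (.b 8 .nil)) (.I .tdp (.c 16 (.c 32 (.c 0 (.c 24 .nil)))) (.b 8 .nil))) (.node (.I .adp (.c 0 (.c 24 (.c 32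 .nil))) (.t 8 16 .nil)) (.I .com (.c 8257 (.c 16 .nil)) (.t 0 24 .nil)))) (.node (.node (.I .adp (.c 16 (.c 32 (.c 8 .nil))) (.t 0 24 .nil)) (.I .adp (.c 0 (.c 8 (.c 32 .nil))) (.t 16 24 .nil))) (.node (.I .com (.c 2803715 (.c 8 .nil)) (.b 32 .nil)) (.I .com (.c 557571 (.c 24 .nil)) (.b 32 .nil))))) (.node (.node (.node (.I .tdp (.c 0 (.c 8 (.c 16 (.c 24 .nil)))) (.b 32 .nil)) (.I .tdp (.c 0 (.c 24 (.c 8 (.c 16 .nil)))) (.b 32 .nil))) (.node (.I .tdb (.c 32 (.c 8 (.c 4737 (.c 0 .nil)))) .nil) (.I .tdb (.c 24 (.c 16 (.c 32 (.c 513 .nil)))) .nil))) (.node (.node (.I .tdb (.c 32 (.c 24 (.c 2049 (.c 8 .nil)))) .nil) (.I .tdb (.c 32 (.c 514 (.c 24 (.c 16 .nil)))) .nil)) (.node (.I .tdb (.c 8322 (.c 8 (.c 24 (.c 0 .nil)))) .nil) (.I .tdb (.c 32 (.c 4610 (.c 16 (.c 8 .nil)))) .nil)))))))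

theorem lETC : chk .nil hET lETT = true := by decide +kernel

section
variable {B : Type} [NonUnitalNonAssocRing B]

theorem holds_lem (h2 : ∀ x : B, x + x = 0) (hA : IsAlt B) :
    Holds B (.c hJ4 (.c hRR (.c hET .nil))) :=
  holds_c _ _ (sound h2 hA .nil holds_nil _ _ lJ4C)
    (holds_c _ _ (sound h2 hA .nil holds_nil _ _ lRRC)
      (holds_c _ _ (sound h2 hA .nil holds_nil _ _ lETC) holds_nil))

end

end Pool.Agent.TP.Chk2
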