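import Pool.Agent.Helper50_TP2.Rules2

/-!
# MP_ce3ba7_al, characteristic 2 (helper52): kernel checker for certificates

Words in commutator, product, associator and the derivations `E_{a,b}`, coded by numbers:
letter `i` is `8 i`, the others are `8 pr(..) + tag` with `pr` the pairing function.
A certificate is a binary tree of instances of base relations and of hypothesis relations,
wrapped in frames.
-/

set_option autoImplicit false
set_option linter.constructorNameAsVariable false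

namespace Pool.Agent.TP.Chk2

open H50 H51

/-! ### definitions evaluated by the kernel -/

/-- forcing -/
noncomputable def fN {α : Type} (n : ℕ) (f : ℕ → α) : α :=
  @Nat.rec (fun _ => α) (f 0) (fun m _ => f (Nat.succ m)) n

/-- codes of words or zero -/
inductive S where
  | z : S
  | mk (c : ℕ) : S

/-- pairing -/
noncomputable def pr (a b : ℕ) : ℕ :=
  @Bool.rec (fun _ => ℕ) (Nat.add (Nat.mul b b) a) (Nat.add (Nat.add (Nat.mul a a) a) b)
    (Nat.ble b a)

noncomputable def mkF (n : ℕ) : S := fN n (fun c => S.mk c)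

noncomputable def c1 (a b : ℕ) : S := mkF (Nat.add (Nat.mul 8 (pr a b)) 1)
noncomputable def c2 (a b : ℕ) : S := mkF (Nat.add (Nat.mul 8 (pr a b)) 2)
noncomputable def c3 (a b c : ℕ) : S := mkF (Nat.add (Nat.mul 8 (pr a (pr b c))) 3)
noncomputable def c4 (a b c : ℕ) : S := mkF (Nat.add (Nat.mul 8 (pr a (pr b c))) 4)

noncomputable def brc (a b : ℕ) : S :=
  @Bool.rec (fun _ => S) (c1 a b)
    (@Bool.rec (fun _ => S) (c1 b a) S.z (Nat.beq a b)) (Nat.ble b a)

noncomputable def Ec (a b c : ℕ) : S :=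
  @Bool.rec (fun _ => S) (c4 a b c)
    (@Bool.rec (fun _ => S) (c4 b a c) S.z (Nat.beq a b)) (Nat.ble b a)

/-- `b`, `c` in increasing order, `a` arbitrary -/
noncomputable def tc1 (a b c : ℕ) : S :=
  @Bool.rec (fun _ => S) (c3 a b c)
    (@Bool.rec (fun _ => S)
      (@Bool.rec (fun _ => S) (c3 b a c)
        (@Bool.rec (fun _ => S) (c3 b c a) S.z (Nat.beq a c)) (Nat.ble c a))
      S.z (Nat.beq a b)) (Nat.ble b a)

noncomputable def tcc (a b c : ℕ) : S :=
  @Bool.rec (fun _ => S) (tc1 a b c)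
    (@Bool.rec (fun _ => S) (tc1 a c b) S.z (Nat.beq b c)) (Nat.ble c b)

noncomputable def mkb (x y : S) : S :=
  @S.rec (fun _ => S) S.z (fun a => @S.rec (fun _ => S) S.z (fun b => brc a b) y) x

noncomputable def mkm (x y : S) : S :=
  @S.rec (fun _ => S) S.z (fun a => @S.rec (fun _ => S) S.z (fun b => c2 a b) y) x

noncomputable def mkt (x y w : S) : S :=
  @S.rec (fun _ => S) S.z (fun a => @S.rec (fun _ => S) S.z (fun b =>
    @S.rec (fun _ => S) S.z (fun c => tcc a b c) w) y) x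

noncomputable def mkE (x y w : S) : S :=
  @S.rec (fun _ => S) S.z (fun a => @S.rec (fun _ => S) S.z (fun b =>
    @S.rec (fun _ => S) S.z (fun c => Ec a b c) w) y) x

/-- words, also used as templates -/
inductive W where
  | x (i : ℕ) : W
  | b (x y : W) : W
  | m (x y : W) : W
  | t (x y z : W) : W
  | e (x y z : W) : W

/-- lists of templates -/
inductive TL where
  | nil : TL
  | p (e : W) (r : TL) : TL

/-- names of the base relations -/
inductive Q where
  | com : Q
  | ass : Q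
  | adp : Q
  | jac : Q
  | tdb : Q
  | tdp : Q
  | edef : Q
  | emu : Q
  | ebr : Q
  | eT : Q
  | ee : Q
  | ecy : Q

/-- frames -/
inductive Fs where
  | nil : Fs
  | b (w : ℕ) (r : Fs) : Fs
  | l (w : ℕ) (r : Fs) : Fs
  | r (w : ℕ) (r : Fs) : Fs
  | t (w w' : ℕ) (r : Fs) : Fs
  | e (w w' : ℕ) (r : Fs) : Fs
  | d (w w' : ℕ) (r : Fs) : Fs

/-- lists of arguments -/
inductive As where
  | nil : As
  | c (a : ℕ) (r : As) : As

/-- trees of framed instances -/
inductive Tr where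
  | nil : Tr
  | I (q : Q) (a : As) (f : Fs) : Tr
  | X (i : ℕ) (a : As) (f : Fs) : Tr
  | node (l r : Tr) : Tr

/-- lists of codes -/
inductive L where
  | nil : L
  | cons (c : ℕ) (r : L) : L

/-- lists of hypotheses -/
inductive HL where
  | nil : HL
  | c (h : TL) (r : HL) : HL

/-- argument number `i` -/
noncomputable def nth (l : As) : ℕ → ℕ :=
  @As.rec (fun _ => ℕ → ℕ) (fun _ => 0)
    (fun a _ ih i => @Nat.rec (fun _ => ℕ) a (fun j _ => ih j) i) l

/-- hypothesis number `i` -/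
noncomputable def nthH (l : HL) : ℕ → TL :=
  @HL.rec (fun _ => ℕ → TL) (fun _ => TL.nil)
    (fun a _ ih i => @Nat.rec (fun _ => TL) a (fun j _ => ih j) i) l

/-- evaluation of a template -/
noncomputable def ev (l : As) (x : W) : S :=
  @W.rec (fun _ => S) (fun i => S.mk (nth l i)) (fun _ _ X Y => mkb X Y) (fun _ _ X Y => mkm X Y)
    (fun _ _ _ X Y Z => mkt X Y Z) (fun _ _ _ X Y Z => mkE X Y Z) x

/-- evaluation of a word -/
noncomputable def evm (x : W) : S :=
  @W.rec (fun _ => S) (fun i => mkF (Nat.mul 8 i)) (fun _ _ X Y => mkb X Y)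
    (fun _ _ X Y => mkm X Y) (fun _ _ _ X Y Z => mkt X Y Z) (fun _ _ _ X Y Z => mkE X Y Z) x

/-- base relations -/
noncomputable def base (q : Q) : TL :=
  @Q.rec (fun _ => TL)
    (TL.p (.m (.x 0) (.x 1)) <| TL.p (.m (.x 1) (.x 0)) <| TL.p (.b (.x 0) (.x 1)) TL.nil)
    (TL.p (.m (.m (.x 0) (.x 1)) (.x 2)) <| TL.p (.m (.x 0) (.m (.x 1) (.x 2))) <|
      TL.p (.t (.x 0) (.x 1) (.x 2)) TL.nil)
    (TL.p (.b (.m (.x 0) (.x 1)) (.x 2)) <| TL.p (.m (.x 0) (.b (.x 1) (.x 2))) <|
      TL.p (.m (.b (.x 0) (.x 2)) (.x 1)) <| TL.p (.t (.x 0) (.x 1) (.x 2)) TL.nil)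
    (TL.p (.b (.b (.x 0) (.x 1)) (.x 2)) <| TL.p (.b (.b (.x 1) (.x 2)) (.x 0)) <|
      TL.p (.b (.b (.x 2) (.x 0)) (.x 1)) TL.nil)
    (TL.p (.t (.b (.x 0) (.x 1)) (.x 2) (.x 3)) <|
      TL.p (.b (.x 1) (.t (.x 0) (.x 2) (.x 3))) <|
      TL.p (.b (.x 0) (.t (.x 1) (.x 2) (.x 3))) TL.nil)
    (TL.p (.t (.m (.x 0) (.x 1)) (.x 2) (.x 3)) <|
      TL.p (.m (.x 1) (.t (.x 0) (.x 2) (.x 3))) <|
      TL.p (.m (.t (.x 1) (.x 2) (.x 3)) (.x 0)) <|
      TL.p (.b (.x 0) (.t (.x 1) (.x 2) (.x 3))) <|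
      TL.p (.b (.x 1) (.t (.x 0) (.x 2) (.x 3))) <|
      TL.p (.b (.x 2) (.t (.x 0) (.x 1) (.x 3))) <|
      TL.p (.b (.x 3) (.t (.x 0) (.x 1) (.x 2))) TL.nil)
    (TL.p (.e (.x 0) (.x 1) (.x 2)) <| TL.p (.b (.b (.x 0) (.x 1)) (.x 2)) <|
      TL.p (.t (.x 0) (.x 1) (.x 2)) TL.nil)
    (TL.p (.e (.x 0) (.x 1) (.m (.x 2) (.x 3))) <|
      TL.p (.m (.e (.x 0) (.x 1) (.x 2)) (.x 3)) <|
      TL.p (.m (.x 2) (.e (.x 0) (.x 1) (.x 3))) TL.nil)
    (TL.p (.e (.x 0) (.x 1) (.b (.x 2) (.x 3))) <|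
      TL.p (.b (.e (.x 0) (.x 1) (.x 2)) (.x 3)) <|
      TL.p (.b (.x 2) (.e (.x 0) (.x 1) (.x 3))) TL.nil)
    (TL.p (.e (.x 0) (.x 1) (.t (.x 2) (.x 3) (.x 4))) <|
      TL.p (.t (.e (.x 0) (.x 1) (.x 2)) (.x 3) (.x 4)) <|
      TL.p (.t (.x 2) (.e (.x 0) (.x 1) (.x 3)) (.x 4)) <|
      TL.p (.t (.x 2) (.x 3) (.e (.x 0) (.x 1) (.x 4))) TL.nil)
    (TL.p (.e (.x 0) (.x 1) (.e (.x 2) (.x 3) (.x 4))) <|
      TL.p (.e (.x 2) (.x 3) (.e (.x 0) (.x 1) (.x 4))) <|
      TL.p (.e (.e (.x 0) (.x 1) (.x 2)) (.x 3) (.x 4)) <|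
      TL.p (.e (.x 2) (.e (.x 0) (.x 1) (.x 3)) (.x 4)) TL.nil)
    (TL.p (.e (.m (.x 0) (.x 1)) (.x 2) (.x 3)) <|
      TL.p (.e (.m (.x 1) (.x 2)) (.x 0) (.x 3)) <|
      TL.p (.e (.m (.x 2) (.x 0)) (.x 1) (.x 3)) TL.nil)
    q

noncomputable def fr (f : Fs) : S → S :=
  @Fs.rec (fun _ => S → S) (fun x => x) (fun w _ ih x => ih (mkb x (S.mk w)))
    (fun w _ ih x => ih (mkm (S.mk w) x)) (fun w _ ih x => ih (mkm x (S.mk w)))
    (fun w w' _ ih x => ih (mkt x (S.mk w) (S.mk w')))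
    (fun w w' _ ih x => ih (mkE x (S.mk w) (S.mk w')))
    (fun w w' _ ih x => ih (mkE (S.mk w) (S.mk w') x)) f

/-- insertion in a sorted list modulo 2 -/
noncomputable def insC (c : ℕ) (l : L) : L :=
  @L.rec (fun _ => L) (L.cons c L.nil)
    (fun d r ih => @Bool.rec (fun _ => L) (L.cons d ih)
      (@Bool.rec (fun _ => L) (L.cons c (L.cons d r)) r (Nat.beq c d)) (Nat.ble c d)) l

noncomputable def ins (x : S) (l : L) : L :=
  @S.rec (fun _ => L) l (fun c => insC c l) x

/-- merging of sorted lists modulo 2 -/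
noncomputable def mrg (x : L) : L → L :=
  @L.rec (fun _ => L → L) (fun y => y)
    (fun c r ih y => @L.rec (fun _ => L) (L.cons c r)
      (fun d r' ih' => @Bool.rec (fun _ => L) (L.cons d ih')
        (@Bool.rec (fun _ => L) (L.cons c (ih (L.cons d r'))) (ih r') (Nat.beq c d))
        (Nat.ble c d)) y) x

noncomputable def evR (a : As) (f : Fs) (l : TL) : L :=
  @TL.rec (fun _ => L) L.nil (fun x _ ih => ins (fr f (ev a x)) ih) l

noncomputable def evT (h : HL) (t : Tr) : L :=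
  @Tr.rec (fun _ => L) L.nil (fun q a f => evR a f (base q)) (fun i a f => evR a f (nthH h i))
    (fun _ _ X Y => mrg X Y) t

noncomputable def evG (g : TL) : L :=
  @TL.rec (fun _ => L) L.nil (fun x _ ih => ins (evm x) ih) g

noncomputable def isN (l : L) : Bool := @L.rec (fun _ => Bool) true (fun _ _ _ => false) l

/-- the checker -/
noncomputable def chk (h : HL) (g : TL) (t : Tr) : Bool := isN (mrg (evG g) (evT h t))

/-! ### values -/

section values

variable {B : Type} [NonUnitalNonAssocRing B]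

/-- value of a code -/
noncomputable def val (v : ℕ → B) (n : ℕ) : B :=
  if h0 : n % 8 = 0 then v (n / 8)
  else if n % 8 = 1 then cm (val v (Nat.unpair (n / 8)).1) (val v (Nat.unpair (n / 8)).2)
  else if n % 8 = 2 then (val v (Nat.unpair (n / 8)).1) * (val v (Nat.unpair (n / 8)).2)
  else if n % 8 = 3 then asc (val v (Nat.unpair (n / 8)).1)
    (val v (Nat.unpair (Nat.unpair (n / 8)).2).1) (val v (Nat.unpair (Nat.unpair (n / 8)).2).2)
  else EE (val v (Nat.unpair (n / 8)).1)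
    (val v (Nat.unpair (Nat.unpair (n / 8)).2).1) (val v (Nat.unpair (Nat.unpair (n / 8)).2).2)
termination_by n
decreasing_by
  all_goals
    have h1 := Nat.unpair_left_le (n / 8)
    have h2 := Nat.unpair_right_le (n / 8)
    have h3 := Nat.unpair_left_le (Nat.unpair (n / 8)).2
    have h4 := Nat.unpair_right_le (Nat.unpair (n / 8)).2
    omega

theorem pr_eq (a b : ℕ) : pr a b = Nat.pair a b := by
  unfold pr Nat.pair
  by_cases h : a < b
  · rw [if_pos h]
    have : Nat.ble b a = false := by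
      rw [← Bool.not_eq_true, Nat.ble_eq]; omega
    rw [this]; rfl
  · rw [if_neg h]
    have : Nat.ble b a = true := by rw [Nat.ble_eq]; omega
    rw [this]; rfl

theorem val0 (v : ℕ → B) (i : ℕ) : val v (Nat.mul 8 i) = v i := by
  have e : Nat.mul 8 i = 8 * i := rfl
  rw [val, dif_pos (by rw [e]; omega)]
  rw [e, Nat.mul_div_cancel_left _ (by norm_num)]

theorem val1 (v : ℕ → B) (a b : ℕ) : val v (Nat.add (Nat.mul 8 (pr a b)) 1) =
    cm (val v a) (val v b) := by
  have e : Nat.add (Nat.mul 8 (pr a b)) 1 = 8 * pr a b + 1 := rfl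
  have h1 : (8 * pr a b + 1) % 8 = 1 := by omega
  have h2 : (8 * pr a b + 1) / 8 = pr a b := by omega
  rw [e, val, dif_neg (by rw [h1]; norm_num), if_pos h1, h2, pr_eq, Nat.unpair_pair]

theorem val2 (v : ℕ → B) (a b : ℕ) : val v (Nat.add (Nat.mul 8 (pr a b)) 2) =
    (val v a) * (val v b) := by
  have e : Nat.add (Nat.mul 8 (pr a b)) 2 = 8 * pr a b + 2 := rfl
  have h1 : (8 * pr a b + 2) % 8 = 2 := by omega
  have h2 : (8 * pr a b + 2) / 8 = pr a b := by omega
  rw [e, val, dif_neg (by rw [h1]; norm_num), if_neg (by rw [h1]; norm_num), if_pos h1, h2, pr_eq,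
    Nat.unpair_pair]

theorem val3 (v : ℕ → B) (a b c : ℕ) : val v (Nat.add (Nat.mul 8 (pr a (pr b c))) 3) =
    asc (val v a) (val v b) (val v c) := by
  have e : Nat.add (Nat.mul 8 (pr a (pr b c))) 3 = 8 * pr a (pr b c) + 3 := rfl
  have h1 : (8 * pr a (pr b c) + 3) % 8 = 3 := by omega
  have h2 : (8 * pr a (pr b c) + 3) / 8 = pr a (pr b c) := by omega
  rw [e, val, dif_neg (by rw [h1]; norm_num), if_neg (by rw [h1]; norm_num),
    if_neg (by rw [h1]; norm_num), if_pos h1, h2, pr_eq, Nat.unpair_pair, pr_eq, Nat.unpair_pair]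

theorem val4 (v : ℕ → B) (a b c : ℕ) : val v (Nat.add (Nat.mul 8 (pr a (pr b c))) 4) =
    EE (val v a) (val v b) (val v c) := by
  have e : Nat.add (Nat.mul 8 (pr a (pr b c))) 4 = 8 * pr a (pr b c) + 4 := rfl
  have h1 : (8 * pr a (pr b c) + 4) % 8 = 4 := by omega
  have h2 : (8 * pr a (pr b c) + 4) / 8 = pr a (pr b c) := by omega
  rw [e, val, dif_neg (by rw [h1]; norm_num), if_neg (by rw [h1]; norm_num),
    if_neg (by rw [h1]; norm_num), if_neg (by rw [h1]; norm_num), h2, pr_eq, Nat.unpair_pair,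
    pr_eq, Nat.unpair_pair]

/-- value of a word or zero -/
noncomputable def sv (v : ℕ → B) (x : S) : B :=
  @S.rec (fun _ => B) 0 (fun c => val v c) x

theorem sv_z (v : ℕ → B) : sv v S.z = 0 := rfl
theorem sv_mk (v : ℕ → B) (c : ℕ) : sv v (S.mk c) = val v c := rfl

theorem fN_eq {α : Type} (n : ℕ) (f : ℕ → α) : fN n f = f n := by cases n <;> rfl

theorem sv_mkF (v : ℕ → B) (n : ℕ) : sv v (mkF n) = val v n := by
  unfold mkF; rw [fN_eq, sv_mk]

theorem sv_c1 (v : ℕ → B) (a b : ℕ) : sv v (c1 a b) = cm (val v a) (val v b) := by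
  unfold c1; rw [sv_mkF, val1]

theorem sv_c2 (v : ℕ → B) (a b : ℕ) : sv v (c2 a b) = (val v a) * (val v b) := by
  unfold c2; rw [sv_mkF, val2]

theorem sv_c3 (v : ℕ → B) (a b c : ℕ) : sv v (c3 a b c) = asc (val v a) (val v b) (val v c) := by
  unfold c3; rw [sv_mkF, val3]

theorem sv_c4 (v : ℕ → B) (a b c : ℕ) : sv v (c4 a b c) = EE (val v a) (val v b) (val v c) := by
  unfold c4; rw [sv_mkF, val4]

theorem bool_rec {α : Type} (b : Bool) (x y : α) :
    @Bool.rec (fun _ => α) x y b = if b = true then y else x := by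
  cases b <;> rfl

variable (h2 : ∀ x : B, x + x = 0)
include h2

theorem cm_self (x : B) : cm x x = 0 := h2 _

theorem sv_brc (v : ℕ → B) (a b : ℕ) : sv v (brc a b) = cm (val v a) (val v b) := by
  unfold brc
  rw [bool_rec, bool_rec]
  split_ifs with h1 h3
  · replace h3 := Nat.eq_of_beq_eq_true h3
    rw [h3, sv_z, cm_self h2]
  · rw [sv_c1, cm_comm]
  · exact sv_c1 v a b

theorem sv_mkb (v : ℕ → B) (x y : S) : sv v (mkb x y) = cm (sv v x) (sv v y) := by
  cases x with
  | z => exact (cm_zero_left _).symm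
  | mk a =>
    cases y with
    | z => exact (cm_zero_right _).symm
    | mk b =>
      show sv v (brc a b) = _
      rw [sv_brc h2, sv_mk, sv_mk]

omit h2 in
theorem sv_mkm (v : ℕ → B) (x y : S) : sv v (mkm x y) = (sv v x) * (sv v y) := by
  cases x with
  | z => exact (zero_mul _).symm
  | mk a =>
    cases y with
    | z => exact (mul_zero _).symm
    | mk b =>
      show sv v (c2 a b) = _
      rw [sv_c2, sv_mk, sv_mk]

variable (hA : IsAlt B)
include hA

omit h2 in
theorem aux1 (x z : B) : asc x x z = 0 := sub_eq_zero.mpr (hA.1 x z)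

omit h2 in
theorem aux3 (x z : B) : asc z x x = 0 := sub_eq_zero.mpr (hA.2 x z)

theorem aux2 (x z : B) : asc x z x = 0 := by
  rw [t23 hA h2, aux1 hA]

theorem EE_self (x z : B) : EE x x z = 0 := by
  unfold EE; rw [cm_self h2, cm_zero_left, aux1 hA, add_zero]

theorem EE_comm (x y z : B) : EE x y z = EE y x z := by
  unfold EE; rw [cm_comm x y, t12 hA h2]

theorem sv_Ec (v : ℕ → B) (a b c : ℕ) : sv v (Ec a b c) =
    EE (val v a) (val v b) (val v c) := by
  unfold Ec
  rw [bool_rec, bool_rec]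
  split_ifs with h1 h3
  · replace h3 := Nat.eq_of_beq_eq_true h3
    rw [h3, sv_z, EE_self h2 hA]
  · rw [sv_c4, EE_comm h2 hA]
  · exact sv_c4 v a b c

theorem sv_tc1 (v : ℕ → B) (a b c : ℕ) : sv v (tc1 a b c) =
    asc (val v a) (val v b) (val v c) := by
  unfold tc1
  simp only [bool_rec]
  split_ifs with h1 h3 h4 h5
  · replace h3 := Nat.eq_of_beq_eq_true h3
    rw [h3, sv_z, aux1 hA]
  · replace h5 := Nat.eq_of_beq_eq_true h5
    rw [h5, sv_z, aux2 h2 hA]
  · rw [sv_c3, ← tcyc hA]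
  · rw [sv_c3, t12 hA h2]
  · exact sv_c3 v a b c

theorem sv_tcc (v : ℕ → B) (a b c : ℕ) : sv v (tcc a b c) =
    asc (val v a) (val v b) (val v c) := by
  unfold tcc
  simp only [bool_rec]
  split_ifs with h1 h3
  · replace h3 := Nat.eq_of_beq_eq_true h3
    rw [h3, sv_z, aux3 hA]
  · rw [sv_tc1 h2 hA, t23 hA h2]
  · exact sv_tc1 h2 hA v a b c

theorem sv_mkt (v : ℕ → B) (x y w : S) : sv v (mkt x y w) =
    asc (sv v x) (sv v y) (sv v w) := by
  cases x with
  | z => exact (asc_zero1 _ _).symm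
  | mk a =>
    cases y with
    | z => exact (asc_zero2 _ _).symm
    | mk b =>
      cases w with
      | z => exact (asc_zero3 _ _).symm
      | mk c =>
        show sv v (tcc a b c) = _
        rw [sv_tcc h2 hA, sv_mk, sv_mk, sv_mk]

omit h2 hA in
theorem EE_zero1 (y z : B) : EE 0 y z = 0 := by
  unfold EE; rw [cm_zero_left, cm_zero_left, asc_zero1, add_zero]

omit h2 hA in
theorem EE_zero2 (y z : B) : EE y 0 z = 0 := by
  unfold EE; rw [cm_zero_right, cm_zero_left, asc_zero2, add_zero]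

omit h2 hA in
theorem EE_zero3 (y z : B) : EE y z 0 = 0 := by
  unfold EE; rw [cm_zero_right, asc_zero3, add_zero]

theorem sv_mkE (v : ℕ → B) (x y w : S) : sv v (mkE x y w) =
    EE (sv v x) (sv v y) (sv v w) := by
  cases x with
  | z => exact (EE_zero1 _ _).symm
  | mk a =>
    cases y with
    | z => exact (EE_zero2 _ _).symm
    | mk b =>
      cases w with
      | z => exact (EE_zero3 _ _).symm
      | mk c =>
        show sv v (Ec a b c) = _
        rw [sv_Ec h2 hA, sv_mk, sv_mk, sv_mk]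

/-- value of a word -/
noncomputable def W.val (v : ℕ → B) (x : W) : B :=
  @W.rec (fun _ => B) v (fun _ _ X Y => cm X Y) (fun _ _ X Y => X * Y)
    (fun _ _ _ X Y Z => asc X Y Z) (fun _ _ _ X Y Z => EE X Y Z) x

theorem sv_ev (v : ℕ → B) (l : As) (x : W) : sv v (ev l x) =
    x.val (fun i => val v (nth l i)) := by
  induction x with
  | x i => rfl
  | b x y hx hy =>
    show sv v (mkb _ _) = _
    rw [sv_mkb h2]
    exact congrArg₂ cm hx hy
  | m x y hx hy =>
    show sv v (mkm _ _) = _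
    rw [sv_mkm]
    exact congrArg₂ (· * ·) hx hy
  | t x y z hx hy hz =>
    show sv v (mkt _ _ _) = _
    rw [sv_mkt h2 hA]
    show asc (sv v (ev l x)) (sv v (ev l y)) (sv v (ev l z)) = _
    rw [hx, hy, hz]
    rfl
  | e x y z hx hy hz =>
    show sv v (mkE _ _ _) = _
    rw [sv_mkE h2 hA]
    show EE (sv v (ev l x)) (sv v (ev l y)) (sv v (ev l z)) = _
    rw [hx, hy, hz]
    rfl

theorem sv_evm (v : ℕ → B) (x : W) : sv v (evm x) = x.val v := by
  induction x with
  | x i =>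
    show sv v (mkF (Nat.mul 8 i)) = v i
    rw [sv_mkF, val0]
  | b x y hx hy =>
    show sv v (mkb _ _) = _
    rw [sv_mkb h2]
    exact congrArg₂ cm hx hy
  | m x y hx hy =>
    show sv v (mkm _ _) = _
    rw [sv_mkm]
    exact congrArg₂ (· * ·) hx hy
  | t x y z hx hy hz =>
    show sv v (mkt _ _ _) = _
    rw [sv_mkt h2 hA]
    show asc (sv v (evm x)) (sv v (evm y)) (sv v (evm z)) = _
    rw [hx, hy, hz]
    rfl
  | e x y z hx hy hz =>
    show sv v (mkE _ _ _) = _
    rw [sv_mkE h2 hA]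
    show EE (sv v (evm x)) (sv v (evm y)) (sv v (evm z)) = _
    rw [hx, hy, hz]
    rfl

/-- value of a list of words -/
noncomputable def TL.val (v : ℕ → B) (x : TL) : B :=
  @TL.rec (fun _ => B) 0 (fun x _ X => x.val v + X) x

/-- value of a list of codes -/
noncomputable def L.val (v : ℕ → B) (x : L) : B :=
  @L.rec (fun _ => B) 0 (fun c _ X => Chk2.val v c + X) x

omit h2 hA in
theorem lval_nil (v : ℕ → B) : L.nil.val v = 0 := rfl
omit h2 hA in
theorem lval_cons (v : ℕ → B) (c : ℕ) (r : L) :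
    (L.cons c r).val v = val v c + r.val v := rfl

omit hA in
theorem val_insC (v : ℕ → B) (c : ℕ) (l : L) :
    (insC c l).val v = val v c + l.val v := by
  induction l with
  | nil => rfl
  | cons d r ih =>
    show (@Bool.rec (fun _ => L) (L.cons d (insC c r)) _ _).val v = _
    simp only [bool_rec]
    split_ifs with h1 h3
    · replace h3 := Nat.eq_of_beq_eq_true h3
      rw [lval_cons, h3, ← add_assoc, h2, zero_add]
    · rfl
    · rw [lval_cons, lval_cons, ih]; abel

omit hA in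
theorem val_ins (v : ℕ → B) (x : S) (l : L) : (ins x l).val v = sv v x + l.val v := by
  cases x with
  | z => exact (zero_add _).symm
  | mk c => exact val_insC h2 v c l

omit hA in
theorem val_mrg (v : ℕ → B) (x : L) : ∀ y : L, (mrg x y).val v = x.val v + y.val v := by
  induction x with
  | nil => intro y; exact (zero_add _).symm
  | cons c r ih =>
    intro y
    induction y with
    | nil => exact (add_zero _).symm
    | cons d r' ih' =>
      show (@Bool.rec (fun _ => L) (L.cons d (mrg (L.cons c r) r')) (@Bool.rec (fun _ => L)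
        (L.cons c (mrg r (L.cons d r'))) (mrg r r') (Nat.beq c d)) (Nat.ble c d)).val v = _
      simp only [bool_rec]
      split_ifs with h1 h3
      · replace h3 := Nat.eq_of_beq_eq_true h3
        have := h2 (val v d)
        rw [ih, lval_cons, lval_cons, h3]
        linear_combination (norm := abel) - this
      · rw [lval_cons, ih, lval_cons v c r, add_assoc]
      · rw [lval_cons, ih', lval_cons v d r']; abel

/-- value of frames -/
noncomputable def Fs.val (v : ℕ → B) (f : Fs) : B → B :=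
  @Fs.rec (fun _ => B → B) (fun x => x) (fun w _ ih x => ih (cm x (Chk2.val v w)))
    (fun w _ ih x => ih (Chk2.val v w * x)) (fun w _ ih x => ih (x * Chk2.val v w))
    (fun w w' _ ih x => ih (asc x (Chk2.val v w) (Chk2.val v w')))
    (fun w w' _ ih x => ih (EE x (Chk2.val v w) (Chk2.val v w')))
    (fun w w' _ ih x => ih (EE (Chk2.val v w) (Chk2.val v w') x)) f

theorem sv_fr (v : ℕ → B) (f : Fs) : ∀ x : S, sv v (fr f x) = f.val v (sv v x) := by
  induction f with
  | nil => intro x; rfl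
  | b w r ih =>
    intro x
    show sv v (fr r (mkb x (S.mk w))) = _
    rw [ih, sv_mkb h2]; rfl
  | l w r ih =>
    intro x
    show sv v (fr r (mkm (S.mk w) x)) = _
    rw [ih, sv_mkm]; rfl
  | r w r ih =>
    intro x
    show sv v (fr r (mkm x (S.mk w))) = _
    rw [ih, sv_mkm]; rfl
  | t w w' r ih =>
    intro x
    show sv v (fr r (mkt x (S.mk w) (S.mk w'))) = _
    rw [ih, sv_mkt h2 hA]; rfl
  | e w w' r ih =>
    intro x
    show sv v (fr r (mkE x (S.mk w) (S.mk w'))) = _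
    rw [ih, sv_mkE h2 hA]; rfl
  | d w w' r ih =>
    intro x
    show sv v (fr r (mkE (S.mk w) (S.mk w') x)) = _
    rw [ih, sv_mkE h2 hA]; rfl

omit h2 hA in
theorem Fs.zero (v : ℕ → B) (f : Fs) : f.val v 0 = 0 := by
  induction f with
  | nil => rfl
  | b w r ih =>
    show r.val v (cm 0 _) = 0
    rw [cm_zero_left, ih]
  | l w r ih =>
    show r.val v (_ * 0) = 0
    rw [mul_zero, ih]
  | r w r ih =>
    show r.val v (0 * _) = 0
    rw [zero_mul, ih]
  | t w w' r ih =>
    show r.val v (asc 0 _ _) = 0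
    rw [asc_zero1, ih]
  | e w w' r ih =>
    show r.val v (EE 0 _ _) = 0
    rw [EE_zero1, ih]
  | d w w' r ih =>
    show r.val v (EE _ _ 0) = 0
    rw [EE_zero3, ih]

omit h2 hA in
theorem EE_add1 (x x' y z : B) : EE (x + x') y z = EE x y z + EE x' y z := by
  unfold EE; rw [cm_add_left, cm_add_left, asc_add1]; abel

omit h2 hA in
theorem EE_add3 (x x' y z : B) : EE y z (x + x') = EE y z x + EE y z x' := by
  unfold EE; rw [cm_add_right, asc_add3]; abel

omit h2 hA in
theorem Fs.add (v : ℕ → B) (f : Fs) : ∀ x y : B, f.val v (x + y) = f.val v x + f.val v y := by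
  induction f with
  | nil => intro x y; rfl
  | b w r ih =>
    intro x y
    show r.val v (cm (x + y) _) = r.val v (cm x _) + r.val v (cm y _)
    rw [cm_add_left, ih]
  | l w r ih =>
    intro x y
    show r.val v (_ * (x + y)) = r.val v (_ * x) + r.val v (_ * y)
    rw [mul_add, ih]
  | r w r ih =>
    intro x y
    show r.val v ((x + y) * _) = r.val v (x * _) + r.val v (y * _)
    rw [add_mul, ih]
  | t w w' r ih =>
    intro x y
    show r.val v (asc (x + y) _ _) = r.val v (asc x _ _) + r.val v (asc y _ _)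
    rw [asc_add1, ih]
  | e w w' r ih =>
    intro x y
    show r.val v (EE (x + y) _ _) = r.val v (EE x _ _) + r.val v (EE y _ _)
    rw [EE_add1, ih]
  | d w w' r ih =>
    intro x y
    show r.val v (EE _ _ (x + y)) = r.val v (EE _ _ x) + r.val v (EE _ _ y)
    rw [EE_add3, ih]

theorem val_evR (v : ℕ → B) (a : As) (f : Fs) (l : TL) :
    (evR a f l).val v = f.val v (l.val (fun i => val v (nth a i))) := by
  induction l with
  | nil =>
    show (0 : B) = f.val v 0
    rw [Fs.zero]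
  | p x r ih =>
    show (ins (fr f (ev a x)) (evR a f r)).val v = _
    rw [val_ins h2, ih, sv_fr h2 hA, sv_ev h2 hA, ← Fs.add]
    rfl

theorem EE_cm (a b c d : B) : EE a b (cm c d) = cm (EE a b c) d + cm c (EE a b d) := by
  unfold cm
  rw [EE_add3, EE_mul hA h2, EE_mul hA h2]
  abel

theorem EE_asc (a b c d e : B) : EE a b (asc c d e) = asc (EE a b c) d e +
    asc c (EE a b d) e + asc c d (EE a b e) := by
  rw [asc2 h2, asc2 h2, asc2 h2, asc2 h2, EE_add3, EE_mul hA h2, EE_mul hA h2, EE_mul hA h2,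
    EE_mul hA h2]
  simp only [add_mul, mul_add]
  abel

theorem EE_EE (a b c d e : B) : EE a b (EE c d e) = EE c d (EE a b e) + EE (EE a b c) d e +
    EE c (EE a b d) e := by
  have h : EE a b (EE c d e) = EE a b (cm (cm c d) e) + EE a b (asc c d e) := by
    rw [← EE_add3]; rfl
  rw [h, EE_cm h2 hA, EE_cm h2 hA, EE_asc h2 hA]
  unfold EE
  simp only [cm_add_left]
  abel

theorem hsum (a b c : B) : cm (a * b) c + cm (b * c) a + cm (c * a) b = asc a b c := by
  have e1 : asc b c a = asc a b c := (tcyc hA a b c).symm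
  have e2 : asc c a b = asc a b c := tcyc hA c a b
  have h : cm (a * b) c + cm (b * c) a + cm (c * a) b = asc a b c + asc b c a + asc c a b := by
    rw [asc2 h2, asc2 h2, asc2 h2]
    unfold cm
    abel
  rw [h, e1, e2, h2, zero_add]

theorem ecy (a b c d : B) : EE (a * b) c d + (EE (b * c) a d + (EE (c * a) b d + 0)) = 0 := by
  have k1 := kf_def2 hA h2 a b c d
  have k2 := kf_def2 hA h2 b c a d
  have k3 := kf_def2 hA h2 c a b d
  have s1 := kf_sum hA h2 a b c d
  have s2 := kf_sum hA h2 b c a d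
  have s3 := kf_sum hA h2 c a b d
  have p1 : asc c d a = asc a c d := (tcyc hA a c d).symm
  have p2 : asc d a b = asc a b d := tcyc hA d a b
  have p3 : asc c a d = asc a c d := t12 hA h2 c a d
  have p4 : asc a d b = asc a b d := t23 hA h2 a d b
  have p5 : asc d b c = asc b c d := tcyc hA d b c
  have p6 : asc b a d = asc a b d := t12 hA h2 b a d
  have p7 : asc b c a = asc a b c := (tcyc hA a b c).symm
  have p8 : asc b d c = asc b c d := t23 hA h2 b d c
  have p9 : asc d c a = asc a c d := by rw [t12 hA h2 d c a, p1]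
  have p10 : asc c b d = asc b c d := t12 hA h2 c b d
  have p11 : asc c a b = asc a b c := tcyc hA c a b
  rw [p1, p2] at s1
  rw [p3, p4, p5, p7] at s2
  rw [p6, p3] at k2
  rw [p8, p9, p11] at s3
  rw [p10] at k3
  rw [s1] at k1
  rw [s2] at k2
  rw [s3] at k3
  have hs := hsum h2 hA a b c
  have hc : cm (cm (a * b) c) d + cm (cm (b * c) a) d + cm (cm (c * a) b) d =
      cm d (asc a b c) := by
    rw [← hs, cm_add_right, cm_add_right, cm_comm d, cm_comm d, cm_comm d]
  unfold EE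
  have t1 := h2 (cm a (asc b c d))
  have t2 := h2 (cm b (asc a c d))
  have t3 := h2 (cm c (asc a b d))
  have t4 := h2 (cm d (asc a b c))
  have q1 : cm a (asc b c d) = a * asc b c d + asc b c d * a := rfl
  have q2 : cm b (asc a c d) = b * asc a c d + asc a c d * b := rfl
  have q3 : cm c (asc a b d) = c * asc a b d + asc a b d * c := rfl
  linear_combination (norm := abel) hc - k1 - k2 - k3 + q1 + q2 + q3 + t1 + t2 + t3 + t4 + t4

theorem base_zero (q : Q) (v : ℕ → B) : (base q).val v = 0 := by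
  cases q with
  | com =>
    show v 0 * v 1 + (v 1 * v 0 + (cm (v 0) (v 1) + 0)) = 0
    rw [add_zero, ← add_assoc]
    exact h2 _
  | ass =>
    show v 0 * v 1 * v 2 + (v 0 * (v 1 * v 2) + (asc (v 0) (v 1) (v 2) + 0)) = 0
    rw [add_zero, ← add_assoc, asc2 h2]
    exact h2 _
  | adp =>
    show cm (v 0 * v 1) (v 2) + (v 0 * cm (v 1) (v 2) + (cm (v 0) (v 2) * v 1 +
      (asc (v 0) (v 1) (v 2) + 0))) = 0
    have h := cm_mul hA h2 (v 0) (v 1) (v 2)
    have h' := h2 (cm (v 0 * v 1) (v 2))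
    linear_combination (norm := abel) h' - h
  | jac =>
    show cm (cm (v 0) (v 1)) (v 2) + (cm (cm (v 1) (v 2)) (v 0) +
      (cm (cm (v 2) (v 0)) (v 1) + 0)) = 0
    have e1 := tcyc hA (v 0) (v 1) (v 2)
    have e2 := t12 hA h2 (v 0) (v 1) (v 2)
    have e3 := t23 hA h2 (v 0) (v 1) (v 2)
    have e4 := tcyc hA (v 1) (v 2) (v 0)
    have e5 := tcyc hA (v 1) (v 0) (v 2)
    have key : cm (cm (v 0) (v 1)) (v 2) + (cm (cm (v 1) (v 2)) (v 0) +
      (cm (cm (v 2) (v 0)) (v 1) + 0)) = asc (v 0) (v 1) (v 2) + asc (v 1) (v 0) (v 2) +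
      asc (v 1) (v 2) (v 0) + asc (v 2) (v 1) (v 0) + asc (v 2) (v 0) (v 1) +
      asc (v 0) (v 2) (v 1) := by
      rw [asc2 h2, asc2 h2, asc2 h2, asc2 h2, asc2 h2, asc2 h2]
      unfold cm
      simp only [add_mul, mul_add]
      abel
    rw [key]
    have f1 : asc (v 1) (v 2) (v 0) = asc (v 0) (v 1) (v 2) := e1.symm
    have f2 : asc (v 2) (v 0) (v 1) = asc (v 0) (v 1) (v 2) := by rw [← e4, ← e1]
    have f3 : asc (v 1) (v 0) (v 2) = asc (v 0) (v 1) (v 2) := e2.symm
    have f4 : asc (v 0) (v 2) (v 1) = asc (v 0) (v 1) (v 2) := e3.symm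
    have f5 : asc (v 2) (v 1) (v 0) = asc (v 0) (v 1) (v 2) := by
      rw [tcyc hA (v 2) (v 1) (v 0), f3]
    rw [f1, f2, f3, f4, f5]
    have h6 := h2 (asc (v 0) (v 1) (v 2))
    rw [h6, zero_add, h6, zero_add, h6]
  | tdb =>
    show asc (cm (v 0) (v 1)) (v 2) (v 3) + (cm (v 1) (asc (v 0) (v 2) (v 3)) +
      (cm (v 0) (asc (v 1) (v 2) (v 3)) + 0)) = 0
    have h := asc_cm hA h2 (v 0) (v 1) (v 2) (v 3)
    have h' := h2 (asc (cm (v 0) (v 1)) (v 2) (v 3))
    linear_combination (norm := abel) h' - h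
  | tdp =>
    show asc (v 0 * v 1) (v 2) (v 3) + (v 1 * asc (v 0) (v 2) (v 3) +
      (asc (v 1) (v 2) (v 3) * v 0 + (cm (v 0) (asc (v 1) (v 2) (v 3)) +
      (cm (v 1) (asc (v 0) (v 2) (v 3)) + (cm (v 2) (asc (v 0) (v 1) (v 3)) +
      (cm (v 3) (asc (v 0) (v 1) (v 2)) + 0)))))) = 0
    have e1 := kf_def2 hA h2 (v 0) (v 1) (v 2) (v 3)
    have e2 := kf_sum hA h2 (v 0) (v 1) (v 2) (v 3)
    rw [e2] at e1
    have e3 : asc (v 2) (v 3) (v 0) = asc (v 0) (v 2) (v 3) := (tcyc hA _ _ _).symm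
    have e4 : asc (v 3) (v 0) (v 1) = asc (v 0) (v 1) (v 3) := tcyc hA _ _ _
    rw [e3, e4] at e1
    rw [eq2 h2] at e1
    linear_combination (norm := abel) e1
  | edef =>
    show EE (v 0) (v 1) (v 2) + (cm (cm (v 0) (v 1)) (v 2) + (asc (v 0) (v 1) (v 2) + 0)) = 0
    rw [add_zero]
    exact h2 _
  | emu =>
    show EE (v 0) (v 1) (v 2 * v 3) + (EE (v 0) (v 1) (v 2) * v 3 +
      (v 2 * EE (v 0) (v 1) (v 3) + 0)) = 0
    have h := EE_mul hA h2 (v 0) (v 1) (v 2) (v 3)
    have h' := h2 (EE (v 0) (v 1) (v 2 * v 3))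
    linear_combination (norm := abel) h' - h
  | ebr =>
    show EE (v 0) (v 1) (cm (v 2) (v 3)) + (cm (EE (v 0) (v 1) (v 2)) (v 3) +
      (cm (v 2) (EE (v 0) (v 1) (v 3)) + 0)) = 0
    have h := EE_cm h2 hA (v 0) (v 1) (v 2) (v 3)
    have h' := h2 (EE (v 0) (v 1) (cm (v 2) (v 3)))
    linear_combination (norm := abel) h' - h
  | eT =>
    show EE (v 0) (v 1) (asc (v 2) (v 3) (v 4)) + (asc (EE (v 0) (v 1) (v 2)) (v 3) (v 4) +
      (asc (v 2) (EE (v 0) (v 1) (v 3)) (v 4) + (asc (v 2) (v 3) (EE (v 0) (v 1) (v 4)) + 0))) = 0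
    have h := EE_asc h2 hA (v 0) (v 1) (v 2) (v 3) (v 4)
    have h' := h2 (EE (v 0) (v 1) (asc (v 2) (v 3) (v 4)))
    linear_combination (norm := abel) h' - h
  | ee =>
    show EE (v 0) (v 1) (EE (v 2) (v 3) (v 4)) + (EE (v 2) (v 3) (EE (v 0) (v 1) (v 4)) +
      (EE (EE (v 0) (v 1) (v 2)) (v 3) (v 4) + (EE (v 2) (EE (v 0) (v 1) (v 3)) (v 4) + 0))) = 0
    have h := EE_EE h2 hA (v 0) (v 1) (v 2) (v 3) (v 4)
    have h' := h2 (EE (v 0) (v 1) (EE (v 2) (v 3) (v 4)))
    linear_combination (norm := abel) h' - h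
  | ecy =>
    show EE (v 0 * v 1) (v 2) (v 3) + (EE (v 1 * v 2) (v 0) (v 3) +
      (EE (v 2 * v 0) (v 1) (v 3) + 0)) = 0
    exact ecy h2 hA (v 0) (v 1) (v 2) (v 3)

/-- the hypotheses hold -/
def Holds (B : Type) [NonUnitalNonAssocRing B] (h : HL) : Prop :=
  ∀ (i : ℕ) (v : ℕ → B), (nthH h i).val v = 0

omit h2 hA in
theorem holds_nil : Holds B HL.nil := fun _ _ => rfl

omit h2 hA in
theorem holds_c (h : TL) (r : HL) (h1 : ∀ v : ℕ → B, h.val v = 0) (hr : Holds B r) :
    Holds B (HL.c h r) := by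
  intro i v
  cases i with
  | zero => exact h1 v
  | succ i => exact hr i v

theorem val_evT (h : HL) (hh : Holds B h) (v : ℕ → B) (t : Tr) : (evT h t).val v = 0 := by
  induction t with
  | nil => rfl
  | I q a f =>
    show (evR a f (base q)).val v = 0
    rw [val_evR h2 hA, base_zero h2 hA, Fs.zero]
  | X i a f =>
    show (evR a f (nthH h i)).val v = 0
    rw [val_evR h2 hA, hh, Fs.zero]
  | node l r hl hr =>
    show (mrg (evT h l) (evT h r)).val v = 0
    rw [val_mrg h2, hl, hr, add_zero]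

theorem val_evG (v : ℕ → B) (g : TL) : (evG g).val v = g.val v := by
  induction g with
  | nil => rfl
  | p x r ih =>
    show (ins (evm x) (evG r)).val v = _
    rw [val_ins h2, ih, sv_evm h2 hA]; rfl

/-- soundness of the checker -/
theorem sound (h : HL) (hh : Holds B h) (g : TL) (t : Tr) (hc : chk h g t = true) (v : ℕ → B) :
    g.val v = 0 := by
  have h1 := val_mrg h2 v (evG g) (evT h t)
  have h3 : mrg (evG g) (evT h t) = L.nil := by
    unfold chk at hc
    cases hm : mrg (evG g) (evT h t) with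
    | nil => rfl
    | cons c r =>
      rw [hm] at hc
      exact absurd (show false = true from hc) (by decide)
  rw [h3, val_evG h2 hA, val_evT h2 hA h hh, add_zero] at h1
  exact h1.symm

end values

end Pool.Agent.TP.Chk2
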