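import Pool.Agent.Helper50_TP3.Base3

/-!
# MP_ce3ba7_al, module C3-ID1 (helper52): kernel checker for certificates in characteristic 3

Words in commutator, Jordan product and associator are coded by numbers:
letter `i` is `4 i`, the others are `4 pr(..) + tag` with `pr` the pairing function.
A certificate is a binary tree of instances of the base relations of `B3`, wrapped in frames.
-/

set_option autoImplicit false

namespace Pool.Agent.TP.Chk3

open H67 B3

/-! ### definitions evaluated by the kernel -/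

/-- forcing -/
noncomputable def fN {α : Type} (n : ℕ) (f : ℕ → α) : α :=
  @Nat.rec (fun _ => α) (f 0) (fun m _ => f (Nat.succ m)) n

/-- exclusive or -/
noncomputable def bx (s t : Bool) : Bool :=
  @Bool.rec (fun _ => Bool) t (@Bool.rec (fun _ => Bool) true false t) s

/-- negation -/
noncomputable def bn (s : Bool) : Bool := @Bool.rec (fun _ => Bool) true false s

/-- signed codes -/
inductive S where
  | z : S
  | mk (s : Bool) (c : ℕ) : S

/-- pairing -/
noncomputable def pr (a b : ℕ) : ℕ :=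
  @Bool.rec (fun _ => ℕ) (Nat.add (Nat.mul b b) a) (Nat.add (Nat.add (Nat.mul a a) a) b)
    (Nat.ble b a)

/-- forced signed code -/
noncomputable def mkF (s : Bool) (n : ℕ) : S := fN n (fun c => S.mk s c)

/-- bracket of codes `a`, `b` with `a < b` -/
noncomputable def cb (s : Bool) (a b : ℕ) : S :=
  mkF s (Nat.add (Nat.mul 4 (pr a b)) 1)

noncomputable def cj (s : Bool) (a b : ℕ) : S :=
  mkF s (Nat.add (Nat.mul 4 (pr a b)) 2)

noncomputable def ct3 (s : Bool) (a b c : ℕ) : S :=
  mkF s (Nat.add (Nat.mul 4 (pr a (pr b c))) 3)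

noncomputable def brc (s : Bool) (a b : ℕ) : S :=
  @Bool.rec (fun _ => S) (cb s a b)
    (@Bool.rec (fun _ => S) (cb (bn s) b a) S.z (Nat.beq a b)) (Nat.ble b a)

noncomputable def joc (s : Bool) (a b : ℕ) : S :=
  @Bool.rec (fun _ => S) (cj s b a) (cj s a b) (Nat.ble a b)

/-- `b`, `c` in increasing order, `a` arbitrary -/
noncomputable def tc1 (s : Bool) (a b c : ℕ) : S :=
  @Bool.rec (fun _ => S) (ct3 s a b c)
    (@Bool.rec (fun _ => S)
      (@Bool.rec (fun _ => S) (ct3 (bn s) b a c)
        (@Bool.rec (fun _ => S) (ct3 s b c a) S.z (Nat.beq a c)) (Nat.ble c a))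
      S.z (Nat.beq a b)) (Nat.ble b a)

noncomputable def tcc (s : Bool) (a b c : ℕ) : S :=
  @Bool.rec (fun _ => S) (tc1 s a b c)
    (@Bool.rec (fun _ => S) (tc1 (bn s) a c b) S.z (Nat.beq b c)) (Nat.ble c b)

noncomputable def mkb (x y : S) : S :=
  @S.rec (fun _ => S) S.z (fun s a => @S.rec (fun _ => S) S.z (fun t b => brc (bx s t) a b) y) x

noncomputable def mkj (x y : S) : S :=
  @S.rec (fun _ => S) S.z (fun s a => @S.rec (fun _ => S) S.z (fun t b => joc (bx s t) a b) y) x

noncomputable def mkt (x y w : S) : S :=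
  @S.rec (fun _ => S) S.z (fun s a => @S.rec (fun _ => S) S.z (fun t b =>
    @S.rec (fun _ => S) S.z (fun u c => tcc (bx s (bx t u)) a b c) w) y) x

/-- templates -/
inductive E where
  | a : E
  | b : E
  | c : E
  | d : E
  | e : E
  | br (x y : E) : E
  | jo (x y : E) : E
  | T (x y z : E) : E

/-- signed lists of templates -/
inductive TL where
  | nil : TL
  | p (e : E) (r : TL) : TL
  | m (e : E) (r : TL) : TL

/-- names of the base relations -/
inductive Q where
  | jac : Q
  | adj : Q
  | tdj : Q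
  | adt : Q
  | F : Q
  | K : Q
  | R : Q
  | G : Q
  | H : Q
  | A : Q

/-- frames -/
inductive Fs where
  | nil : Fs
  | b (w : ℕ) (r : Fs) : Fs
  | j (w : ℕ) (r : Fs) : Fs
  | t (w w' : ℕ) (r : Fs) : Fs

/-- trees of framed instances -/
inductive Tr where
  | nil : Tr
  | I (s : Bool) (q : Q) (a b c d e : ℕ) (f : Fs) : Tr
  | node (l r : Tr) : Tr

/-- lists of signed codes -/
inductive L where
  | nil : L
  | cons (s : Bool) (c : ℕ) (r : L) : L

/-- words -/
inductive Tm where
  | v (i : ℕ) : Tm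
  | br (x y : Tm) : Tm
  | jo (x y : Tm) : Tm
  | T (x y z : Tm) : Tm

/-- targets -/
inductive Tg where
  | nil : Tg
  | p (e : Tm) (r : Tg) : Tg
  | m (e : Tm) (r : Tg) : Tg

noncomputable def ev (a b c d e : ℕ) (x : E) : S :=
  @E.rec (fun _ => S) (S.mk false a) (S.mk false b) (S.mk false c) (S.mk false d) (S.mk false e)
    (fun _ _ X Y => mkb X Y) (fun _ _ X Y => mkj X Y) (fun _ _ _ X Y Z => mkt X Y Z) x

noncomputable def evm (x : Tm) : S :=
  @Tm.rec (fun _ => S) (fun i => mkF false (Nat.mul 4 i))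
    (fun _ _ X Y => mkb X Y) (fun _ _ X Y => mkj X Y) (fun _ _ _ X Y Z => mkt X Y Z) x

/-- base relations -/
noncomputable def base (q : Q) : TL :=
  @Q.rec (fun _ => TL)
    (TL.p (E.br (E.br E.a E.b) E.c) <| TL.p (E.br (E.br E.b E.c) E.a) <|
      TL.p (E.br (E.br E.c E.a) E.b) TL.nil)
    (TL.p (E.br (E.jo E.a E.b) E.c) <| TL.m (E.jo E.a (E.br E.b E.c)) <|
      TL.m (E.jo E.b (E.br E.a E.c)) TL.nil)
    (TL.p (E.T (E.jo E.a E.b) E.c E.d) <| TL.m (E.jo E.a (E.T E.b E.c E.d)) <|
      TL.m (E.jo E.b (E.T E.a E.c E.d)) TL.nil)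
    (TL.p (E.br (E.T E.a E.b E.c) E.d) <| TL.m (E.T (E.br E.a E.d) E.b E.c) <|
      TL.m (E.T E.a (E.br E.b E.d) E.c) <| TL.m (E.T E.a E.b (E.br E.c E.d)) TL.nil)
    (TL.p (E.T (E.br E.a E.b) E.c E.d) <| TL.p (E.T (E.br E.c E.d) E.a E.b) <|
      TL.p (E.T (E.br E.a E.c) E.b E.d) <| TL.p (E.T (E.br E.b E.d) E.a E.c) TL.nil)
    (TL.p (E.T E.a E.b (E.br E.c E.d)) <| TL.m (E.br (E.T E.a E.b E.c) E.d) <|
      TL.m (E.br E.c (E.T E.a E.b E.d)) <| TL.m (E.T (E.br E.a E.b) E.c E.d) TL.nil)
    (TL.p (E.T E.a E.b (E.T E.c E.d E.e)) <| TL.m (E.T (E.T E.a E.b E.c) E.d E.e) <|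
      TL.m (E.T E.c (E.T E.a E.b E.d) E.e) <| TL.m (E.T E.c E.d (E.T E.a E.b E.e)) <|
      TL.p (E.br E.d (E.T (E.br E.a E.b) E.c E.e)) <|
      TL.p (E.T (E.br E.a E.b) E.d (E.br E.c E.e)) TL.nil)
    (TL.p (E.jo (E.br E.a E.c) (E.T E.b E.d E.e)) <|
      TL.p (E.jo (E.br E.b E.c) (E.T E.a E.d E.e)) <|
      TL.p (E.jo (E.br E.a E.d) (E.T E.b E.c E.e)) <|
      TL.p (E.jo (E.br E.b E.d) (E.T E.a E.c E.e)) TL.nil)
    (TL.p (E.br (E.br E.a E.c) (E.T E.b E.d E.e)) <| TL.p (E.T E.a E.c (E.T E.b E.d E.e)) <|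
      TL.p (E.br (E.br E.b E.c) (E.T E.a E.d E.e)) <| TL.p (E.T E.b E.c (E.T E.a E.d E.e)) <|
      TL.p (E.br (E.br E.a E.d) (E.T E.b E.c E.e)) <| TL.p (E.T E.a E.d (E.T E.b E.c E.e)) <|
      TL.p (E.br (E.br E.b E.d) (E.T E.a E.c E.e)) <| TL.p (E.T E.b E.d (E.T E.a E.c E.e)) TL.nil)
    (TL.p (E.jo (E.jo E.a E.b) E.c) <| TL.m (E.jo E.a (E.jo E.b E.c)) <|
      TL.m (E.br E.b (E.br E.a E.c)) <| TL.m (E.T E.a E.b E.c) TL.nil)
    q

noncomputable def fr (f : Fs) : S → S :=
  @Fs.rec (fun _ => S → S) (fun x => x) (fun w _ ih x => ih (mkb x (S.mk false w)))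
    (fun w _ ih x => ih (mkj x (S.mk false w)))
    (fun w w' _ ih x => ih (mkt x (S.mk false w) (S.mk false w'))) f

/-- insertion of a signed code in a sorted list modulo 3 -/
noncomputable def insC (s : Bool) (c : ℕ) (l : L) : L :=
  @L.rec (fun _ => L) (L.cons s c L.nil)
    (fun t d r ih => @Bool.rec (fun _ => L) (L.cons t d ih)
      (@Bool.rec (fun _ => L) (L.cons s c (L.cons t d r))
        (@Bool.rec (fun _ => L) (L.cons (bn s) c r) r (bx s t)) (Nat.beq c d)) (Nat.ble c d)) l

noncomputable def ins (x : S) (l : L) : L :=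
  @S.rec (fun _ => L) l (fun s c => insC s c l) x

/-- negation of a signed code -/
noncomputable def sn (s : Bool) (x : S) : S :=
  @S.rec (fun _ => S) S.z (fun t c => S.mk (bx s t) c) x

/-- merging of sorted lists modulo 3 -/
noncomputable def mrg (x : L) : L → L :=
  @L.rec (fun _ => L → L) (fun y => y)
    (fun s c r ih y => @L.rec (fun _ => L) (L.cons s c r)
      (fun t d r' ih' => @Bool.rec (fun _ => L) (L.cons t d ih')
        (@Bool.rec (fun _ => L) (L.cons s c (ih (L.cons t d r')))
          (@Bool.rec (fun _ => L) (L.cons (bn s) c (ih r')) (ih r') (bx s t)) (Nat.beq c d))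
        (Nat.ble c d)) y) x

noncomputable def evR (s : Bool) (a b c d e : ℕ) (f : Fs) (l : TL) : L :=
  @TL.rec (fun _ => L) L.nil (fun x _ ih => ins (sn s (fr f (ev a b c d e x))) ih)
    (fun x _ ih => ins (sn (bn s) (fr f (ev a b c d e x))) ih) l

noncomputable def evT (t : Tr) : L :=
  @Tr.rec (fun _ => L) L.nil (fun s q a b c d e f => evR s a b c d e f (base q))
    (fun _ _ X Y => mrg X Y) t

noncomputable def evG (g : Tg) : L :=
  @Tg.rec (fun _ => L) L.nil (fun x _ ih => ins (evm x) ih)
    (fun x _ ih => ins (sn true (evm x)) ih) g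

noncomputable def isN (l : L) : Bool := @L.rec (fun _ => Bool) true (fun _ _ _ _ => false) l

/-- the checker -/
noncomputable def chk (g : Tg) (t : Tr) : Bool := isN (mrg (evG g) (evT t))

/-- equality of lists, to cut a certificate in pieces -/
noncomputable def eqL (x : L) : L → Bool :=
  @L.rec (fun _ => L → Bool) (fun y => isN y)
    (fun s c _ ih y => @L.rec (fun _ => Bool) false
      (fun t d r' _ => @Bool.rec (fun _ => Bool) false
        (@Bool.rec (fun _ => Bool) (ih r') false (bx s t)) (Nat.beq c d)) y) x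

/-! ### values -/

section values

variable {B : Type} [NonUnitalNonAssocRing B]

/-- value of a code -/
noncomputable def val (v : ℕ → B) (n : ℕ) : B :=
  if h0 : n % 4 = 0 then v (n / 4)
  else if n % 4 = 1 then kb (val v (Nat.unpair (n / 4)).1) (val v (Nat.unpair (n / 4)).2)
  else if n % 4 = 2 then jo (val v (Nat.unpair (n / 4)).1) (val v (Nat.unpair (n / 4)).2)
  else asc (val v (Nat.unpair (n / 4)).1) (val v (Nat.unpair (Nat.unpair (n / 4)).2).1)
    (val v (Nat.unpair (Nat.unpair (n / 4)).2).2)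
termination_by n
decreasing_by
  all_goals
    have h1 := Nat.unpair_left_le (n / 4)
    have h2 := Nat.unpair_right_le (n / 4)
    have h3 := Nat.unpair_left_le (Nat.unpair (n / 4)).2
    have h4 := Nat.unpair_right_le (Nat.unpair (n / 4)).2
    omega

theorem pr_eq (a b : ℕ) : pr a b = Nat.pair a b := by
  unfold pr Nat.pair
  by_cases h : a < b
  · rw [if_pos h]
    have : Nat.ble b a = false := by
      rw [← Bool.not_eq_true, Nat.ble_eq]; omega
    rw [this]; rfl
  · rw [if_neg h]
    have : Nat.ble b a = true := by rw [Nat.ble_eq]; omega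
    rw [this]; rfl

theorem val0 (v : ℕ → B) (i : ℕ) : val v (Nat.mul 4 i) = v i := by
  have e : Nat.mul 4 i = 4 * i := rfl
  rw [val, dif_pos (by rw [e]; omega)]
  rw [e, Nat.mul_div_cancel_left _ (by norm_num)]

theorem val1 (v : ℕ → B) (a b : ℕ) : val v (Nat.add (Nat.mul 4 (pr a b)) 1) =
    kb (val v a) (val v b) := by
  have e : Nat.add (Nat.mul 4 (pr a b)) 1 = 4 * pr a b + 1 := rfl
  have h1 : (4 * pr a b + 1) % 4 = 1 := by omega
  have h2 : (4 * pr a b + 1) / 4 = pr a b := by omega
  rw [e, val, dif_neg (by rw [h1]; norm_num), if_pos h1, h2, pr_eq, Nat.unpair_pair]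

theorem val2 (v : ℕ → B) (a b : ℕ) : val v (Nat.add (Nat.mul 4 (pr a b)) 2) =
    jo (val v a) (val v b) := by
  have e : Nat.add (Nat.mul 4 (pr a b)) 2 = 4 * pr a b + 2 := rfl
  have h1 : (4 * pr a b + 2) % 4 = 2 := by omega
  have h2 : (4 * pr a b + 2) / 4 = pr a b := by omega
  rw [e, val, dif_neg (by rw [h1]; norm_num), if_neg (by rw [h1]; norm_num), if_pos h1, h2, pr_eq,
    Nat.unpair_pair]

theorem val3 (v : ℕ → B) (a b c : ℕ) : val v (Nat.add (Nat.mul 4 (pr a (pr b c))) 3) =
    asc (val v a) (val v b) (val v c) := by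
  have e : Nat.add (Nat.mul 4 (pr a (pr b c))) 3 = 4 * pr a (pr b c) + 3 := rfl
  have h1 : (4 * pr a (pr b c) + 3) % 4 = 3 := by omega
  have h2 : (4 * pr a (pr b c) + 3) / 4 = pr a (pr b c) := by omega
  rw [e, val, dif_neg (by rw [h1]; norm_num), if_neg (by rw [h1]; norm_num),
    if_neg (by rw [h1]; norm_num), h2, pr_eq, Nat.unpair_pair, pr_eq, Nat.unpair_pair]

/-- sign -/
noncomputable def sg (s : Bool) (x : B) : B := @Bool.rec (fun _ => B) x (-x) s

theorem sg_f (x : B) : sg false x = x := rfl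
theorem sg_t (x : B) : sg true x = -x := rfl

/-- value of a signed code -/
noncomputable def sv (v : ℕ → B) (x : S) : B :=
  @S.rec (fun _ => B) 0 (fun s c => sg s (val v c)) x

theorem sv_z (v : ℕ → B) : sv v S.z = 0 := rfl
theorem sv_mk (v : ℕ → B) (s : Bool) (c : ℕ) : sv v (S.mk s c) = sg s (val v c) := rfl

theorem fN_eq {α : Type} (n : ℕ) (f : ℕ → α) : fN n f = f n := by cases n <;> rfl

theorem sv_mkF (v : ℕ → B) (s : Bool) (n : ℕ) : sv v (mkF s n) = sg s (val v n) := by
  unfold mkF; rw [fN_eq, sv_mk]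

theorem sv_cb (v : ℕ → B) (s : Bool) (a b : ℕ) : sv v (cb s a b) =
    sg s (kb (val v a) (val v b)) := by
  unfold cb; rw [sv_mkF, val1]

theorem sv_cj (v : ℕ → B) (s : Bool) (a b : ℕ) : sv v (cj s a b) =
    sg s (jo (val v a) (val v b)) := by
  unfold cj; rw [sv_mkF, val2]

theorem sv_ct3 (v : ℕ → B) (s : Bool) (a b c : ℕ) : sv v (ct3 s a b c) =
    sg s (asc (val v a) (val v b) (val v c)) := by
  unfold ct3; rw [sv_mkF, val3]

theorem sg_bn (s : Bool) (x : B) : sg (bn s) x = - sg s x := by
  cases s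
  · rfl
  · exact (neg_neg x).symm

theorem sg_neg (s : Bool) (x : B) : sg s (-x) = - sg s x := by
  cases s <;> rfl

theorem sg_bx (s t : Bool) (x : B) : sg (bx s t) x = sg s (sg t x) := by
  cases s <;> cases t
  · rfl
  · rfl
  · rfl
  · exact (neg_neg x).symm

theorem sg_zero (s : Bool) : sg s (0 : B) = 0 := by
  cases s
  · rfl
  · exact neg_zero

theorem sg_add (s : Bool) (x y : B) : sg s (x + y) = sg s x + sg s y := by
  cases s
  · rfl
  · simp only [sg_t]; abel

theorem bool_rec {α : Type} (b : Bool) (x y : α) :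
    @Bool.rec (fun _ => α) x y b = if b = true then y else x := by
  cases b <;> rfl

theorem sv_brc (v : ℕ → B) (s : Bool) (a b : ℕ) : sv v (brc s a b) =
    sg s (kb (val v a) (val v b)) := by
  unfold brc
  rw [bool_rec, bool_rec]
  split_ifs with h1 h2
  · replace h2 := Nat.eq_of_beq_eq_true h2
    rw [h2, sv_z, kb_self, sg_zero]
  · rw [sv_cb, sg_bn, kb_skew (val v b), sg_neg, neg_neg]
  · exact sv_cb v s a b

theorem sv_joc (v : ℕ → B) (s : Bool) (a b : ℕ) : sv v (joc s a b) =
    sg s (jo (val v a) (val v b)) := by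
  unfold joc
  rw [bool_rec]
  split_ifs with h1
  · exact sv_cj v s a b
  · rw [sv_cj, jo_comm]

variable (hB : IsAlt B)
include hB

theorem sv_tc1 (v : ℕ → B) (s : Bool) (a b c : ℕ) : sv v (tc1 s a b c) =
    sg s (asc (val v a) (val v b) (val v c)) := by
  unfold tc1
  simp only [bool_rec]
  split_ifs with h1 h2 h3 h4
  · replace h2 := Nat.eq_of_beq_eq_true h2
    rw [h2, sv_z, a_xxz hB, sg_zero]
  · replace h4 := Nat.eq_of_beq_eq_true h4
    rw [h4, sv_z, a_xzx hB, sg_zero]
  · rw [sv_ct3, cyc hB]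
  · rw [sv_ct3, sg_bn, s12 hB (val v a), sg_neg, neg_neg]
  · exact sv_ct3 v s a b c

theorem sv_tcc (v : ℕ → B) (s : Bool) (a b c : ℕ) : sv v (tcc s a b c) =
    sg s (asc (val v a) (val v b) (val v c)) := by
  unfold tcc
  simp only [bool_rec]
  split_ifs with h1 h2
  · replace h2 := Nat.eq_of_beq_eq_true h2
    rw [h2, sv_z, a_zxx hB, sg_zero]
  · rw [sv_tc1 hB, sg_bn, s23 hB (val v a) (val v b), sg_neg, neg_neg]
  · exact sv_tc1 hB v s a b c

omit hB in
theorem sg_kb (s t : Bool) (x y : B) : sg (bx s t) (kb x y) = kb (sg s x) (sg t y) := by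
  rw [sg_bx]
  cases s <;> cases t <;> simp only [sg_f, sg_t, kb_neg1, kb_neg2, neg_neg]

omit hB in
theorem sg_jo (s t : Bool) (x y : B) : sg (bx s t) (jo x y) = jo (sg s x) (sg t y) := by
  rw [sg_bx]
  cases s <;> cases t <;> simp only [sg_f, sg_t, jo_neg1, jo_neg2, neg_neg]

omit hB in
theorem sg_asc (s t u : Bool) (x y z : B) : sg (bx s (bx t u)) (asc x y z) =
    asc (sg s x) (sg t y) (sg u z) := by
  rw [sg_bx, sg_bx]
  cases s <;> cases t <;> cases u <;>
    simp only [sg_f, sg_t, asc_neg1, asc_neg2, asc_neg3, neg_neg]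

omit hB in
theorem sv_mkb (v : ℕ → B) (x y : S) : sv v (mkb x y) = kb (sv v x) (sv v y) := by
  cases x with
  | z => exact (kb_zero1 _).symm
  | mk s a =>
    cases y with
    | z => exact (kb_zero2 _).symm
    | mk t b =>
      show sv v (brc (bx s t) a b) = _
      rw [sv_brc, sv_mk, sv_mk, sg_kb]

omit hB in
theorem sv_mkj (v : ℕ → B) (x y : S) : sv v (mkj x y) = jo (sv v x) (sv v y) := by
  cases x with
  | z => exact (jo_zero1 _).symm
  | mk s a =>
    cases y with
    | z => exact (jo_zero2 _).symm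
    | mk t b =>
      show sv v (joc (bx s t) a b) = _
      rw [sv_joc, sv_mk, sv_mk, sg_jo]

theorem sv_mkt (v : ℕ → B) (x y w : S) : sv v (mkt x y w) =
    asc (sv v x) (sv v y) (sv v w) := by
  cases x with
  | z => exact (asc_zero1 _ _).symm
  | mk s a =>
    cases y with
    | z => exact (asc_zero2 _ _).symm
    | mk t b =>
      cases w with
      | z => exact (asc_zero3 _ _).symm
      | mk u c =>
        show sv v (tcc (bx s (bx t u)) a b c) = _
        rw [sv_tcc hB, sv_mk, sv_mk, sv_mk, sg_asc]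

/-- value of a template -/
noncomputable def E.val (a b c d e : B) (x : E) : B :=
  @E.rec (fun _ => B) a b c d e (fun _ _ X Y => kb X Y) (fun _ _ X Y => B3.jo X Y)
    (fun _ _ _ X Y Z => asc X Y Z) x

theorem sv_ev (v : ℕ → B) (a b c d e : ℕ) (x : E) : sv v (ev a b c d e x) =
    x.val (val v a) (val v b) (val v c) (val v d) (val v e) := by
  induction x with
  | a => rfl
  | b => rfl
  | c => rfl
  | d => rfl
  | e => rfl
  | br x y hx hy =>
    show sv v (mkb _ _) = _
    rw [sv_mkb]
    exact congrArg₂ kb hx hy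
  | jo x y hx hy =>
    show sv v (mkj _ _) = _
    rw [sv_mkj]
    exact congrArg₂ B3.jo hx hy
  | T x y z hx hy hz =>
    show sv v (mkt _ _ _) = _
    rw [sv_mkt hB]
    show asc (sv v (ev a b c d e x)) (sv v (ev a b c d e y)) (sv v (ev a b c d e z)) = _
    rw [hx, hy, hz]
    rfl

/-- value of a word -/
noncomputable def Tm.val (v : ℕ → B) (x : Tm) : B :=
  @Tm.rec (fun _ => B) v (fun _ _ X Y => kb X Y) (fun _ _ X Y => B3.jo X Y)
    (fun _ _ _ X Y Z => asc X Y Z) x

theorem sv_evm (v : ℕ → B) (x : Tm) : sv v (evm x) = x.val v := by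
  induction x with
  | v i =>
    show sv v (mkF false (Nat.mul 4 i)) = v i
    rw [sv_mkF, sg_f, val0]
  | br x y hx hy =>
    show sv v (mkb _ _) = _
    rw [sv_mkb]
    exact congrArg₂ kb hx hy
  | jo x y hx hy =>
    show sv v (mkj _ _) = _
    rw [sv_mkj]
    exact congrArg₂ B3.jo hx hy
  | T x y z hx hy hz =>
    show sv v (mkt _ _ _) = _
    rw [sv_mkt hB]
    show asc (sv v (evm x)) (sv v (evm y)) (sv v (evm z)) = _
    rw [hx, hy, hz]
    rfl

/-- value of a list of templates -/
noncomputable def TL.val (a b c d e : B) (x : TL) : B :=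
  @TL.rec (fun _ => B) 0 (fun x _ X => x.val a b c d e + X) (fun x _ X => -x.val a b c d e + X) x

/-- value of a target -/
noncomputable def Tg.val (v : ℕ → B) (x : Tg) : B :=
  @Tg.rec (fun _ => B) 0 (fun x _ X => x.val v + X) (fun x _ X => -x.val v + X) x

/-- value of a list of signed codes -/
noncomputable def L.val (v : ℕ → B) (x : L) : B :=
  @L.rec (fun _ => B) 0 (fun s c _ X => sg s (Chk3.val v c) + X) x

omit hB in
theorem lval_nil (v : ℕ → B) : L.nil.val v = 0 := rfl
omit hB in
theorem lval_cons (v : ℕ → B) (s : Bool) (c : ℕ) (r : L) :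
    (L.cons s c r).val v = sg s (val v c) + r.val v := rfl

variable (h3 : ∀ x : B, x + x + x = 0)

omit hB in
include h3 in
/-- the rule `s + s = - s` -/
theorem sg_two (s : Bool) (x : B) : sg (bn s) x = sg s x + sg s x := by
  have h := h3 (sg s x)
  rw [sg_bn, neg_eq_iff_add_eq_zero, ← add_assoc, h]

omit hB in
theorem bx_t (s t : Bool) (h : bx s t = true) (x : B) : sg s x + sg t x = 0 := by
  cases s <;> cases t
  · exact absurd (show false = true from h) (by decide)
  · exact add_neg_cancel x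
  · exact neg_add_cancel x
  · exact absurd (show false = true from h) (by decide)

omit hB in
theorem bx_f (s t : Bool) (h : ¬ bx s t = true) : s = t := by
  cases s <;> cases t
  · rfl
  · exact absurd rfl h
  · exact absurd rfl h
  · rfl

omit hB in
include h3 in
theorem val_insC (v : ℕ → B) (s : Bool) (c : ℕ) (l : L) :
    (insC s c l).val v = sg s (val v c) + l.val v := by
  induction l with
  | nil => rfl
  | cons t d r ih =>
    show (@Bool.rec (fun _ => L) (L.cons t d (insC s c r)) _ _).val v = _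
    simp only [bool_rec]
    split_ifs with h1 h2 h4
    · replace h2 := Nat.eq_of_beq_eq_true h2
      rw [lval_cons, h2, ← add_assoc, bx_t s t h4, zero_add]
    · replace h2 := Nat.eq_of_beq_eq_true h2
      rw [lval_cons, lval_cons, h2, bx_f s t h4, sg_two h3, add_assoc]
    · rfl
    · rw [lval_cons, lval_cons, ih]; abel

omit hB in
include h3 in
theorem val_ins (v : ℕ → B) (x : S) (l : L) : (ins x l).val v = sv v x + l.val v := by
  cases x with
  | z => exact (zero_add _).symm
  | mk s c => exact val_insC h3 v s c l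

omit hB in
theorem sv_sn (v : ℕ → B) (s : Bool) (x : S) : sv v (sn s x) = sg s (sv v x) := by
  cases x with
  | z => exact (sg_zero s).symm
  | mk t c => exact sg_bx s t _

omit hB in
include h3 in
theorem val_mrg (v : ℕ → B) (x : L) : ∀ y : L, (mrg x y).val v = x.val v + y.val v := by
  induction x with
  | nil => intro y; exact (zero_add _).symm
  | cons s c r ih =>
    intro y
    induction y with
    | nil => exact (add_zero _).symm
    | cons t d r' ih' =>
      show (@Bool.rec (fun _ => L) (L.cons t d (mrg (L.cons s c r) r')) (@Bool.rec (fun _ => L)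
        (L.cons s c (mrg r (L.cons t d r'))) (@Bool.rec (fun _ => L) (L.cons (bn s) c (mrg r r'))
          (mrg r r') (bx s t)) (Nat.beq c d)) (Nat.ble c d)).val v = _
      simp only [bool_rec]
      split_ifs with h1 h2 h4
      · replace h2 := Nat.eq_of_beq_eq_true h2
        have := bx_t s t h4 (val v d)
        rw [ih, lval_cons, lval_cons, h2]
        linear_combination (norm := abel) - this
      · replace h2 := Nat.eq_of_beq_eq_true h2
        rw [lval_cons, lval_cons, lval_cons, ih, h2, bx_f s t h4, sg_two h3]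
        abel
      · rw [lval_cons, ih, lval_cons v s c r, add_assoc]
      · rw [lval_cons, ih', lval_cons v t d r']; abel

/-- value of frames -/
noncomputable def Fs.val (v : ℕ → B) (f : Fs) : B → B :=
  @Fs.rec (fun _ => B → B) (fun x => x) (fun w _ ih x => ih (kb x (Chk3.val v w)))
    (fun w _ ih x => ih (B3.jo x (Chk3.val v w)))
    (fun w w' _ ih x => ih (asc x (Chk3.val v w) (Chk3.val v w'))) f

theorem sv_fr (v : ℕ → B) (f : Fs) : ∀ x : S, sv v (fr f x) = f.val v (sv v x) := by
  induction f with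
  | nil => intro x; rfl
  | b w r ih =>
    intro x
    show sv v (fr r (mkb x (S.mk false w))) = _
    rw [ih, sv_mkb]; rfl
  | j w r ih =>
    intro x
    show sv v (fr r (mkj x (S.mk false w))) = _
    rw [ih, sv_mkj]; rfl
  | t w w' r ih =>
    intro x
    show sv v (fr r (mkt x (S.mk false w) (S.mk false w'))) = _
    rw [ih, sv_mkt hB]; rfl

omit hB in
theorem Fs.zero (v : ℕ → B) (f : Fs) : f.val v 0 = 0 := by
  induction f with
  | nil => rfl
  | b w r ih =>
    show r.val v (kb 0 _) = 0
    rw [kb_zero1, ih]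
  | j w r ih =>
    show r.val v (B3.jo 0 _) = 0
    rw [jo_zero1, ih]
  | t w w' r ih =>
    show r.val v (asc 0 _ _) = 0
    rw [asc_zero1, ih]

omit hB in
theorem Fs.add (v : ℕ → B) (f : Fs) : ∀ x y : B, f.val v (x + y) = f.val v x + f.val v y := by
  induction f with
  | nil => intro x y; rfl
  | b w r ih =>
    intro x y
    show r.val v (kb (x + y) _) = r.val v (kb x _) + r.val v (kb y _)
    rw [kb_add1, ih]
  | j w r ih =>
    intro x y
    show r.val v (B3.jo (x + y) _) = r.val v (B3.jo x _) + r.val v (B3.jo y _)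
    rw [jo_add1, ih]
  | t w w' r ih =>
    intro x y
    show r.val v (asc (x + y) _ _) = r.val v (asc x _ _) + r.val v (asc y _ _)
    rw [asc_add1, ih]

omit hB in
theorem Fs.neg (v : ℕ → B) (f : Fs) (x : B) : f.val v (-x) = - f.val v x := by
  rw [eq_neg_iff_add_eq_zero, ← Fs.add, neg_add_cancel, Fs.zero]

omit hB in
theorem Fs.sg (v : ℕ → B) (f : Fs) (s : Bool) (x : B) :
    f.val v (Chk3.sg s x) = Chk3.sg s (f.val v x) := by
  cases s
  · rfl
  · exact Fs.neg v f x

include h3 in
theorem val_evR (v : ℕ → B) (s : Bool) (a b c d e : ℕ) (f : Fs) (l : TL) :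
    (evR s a b c d e f l).val v =
      sg s (f.val v (l.val (val v a) (val v b) (val v c) (val v d) (val v e))) := by
  induction l with
  | nil =>
    show (0 : B) = sg s (f.val v 0)
    rw [Fs.zero, sg_zero]
  | p x r ih =>
    show (ins (sn s (fr f (ev a b c d e x))) (evR s a b c d e f r)).val v = _
    rw [val_ins h3, ih, sv_sn, sv_fr hB, sv_ev hB, ← sg_add, ← Fs.add]
    rfl
  | m x r ih =>
    show (ins (sn (bn s) (fr f (ev a b c d e x))) (evR s a b c d e f r)).val v = _
    rw [val_ins h3, ih, sv_sn, sv_fr hB, sv_ev hB, sg_bn, ← sg_neg, ← Fs.neg, ← sg_add, ← Fs.add]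
    rfl

include h3 in
theorem H8 (x y z : B) : kb (kb x y) (asc x y z) + asc x y (asc x y z) = 0 := by
  rw [PK hB (three2 h3), h3]

include h3 in
theorem base_zero (q : Q) (a b c d e : B) : (base q).val a b c d e = 0 := by
  cases q with
  | jac =>
    show kb (kb a b) c + (kb (kb b c) a + (kb (kb c a) b + 0)) = 0
    have h := jacobi hB h3 a b c
    linear_combination (norm := abel) h
  | adj =>
    show kb (jo a b) c + (-jo a (kb b c) + (-jo b (kb a c) + 0)) = 0
    have h := ad_jo hB h3 c a b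
    rw [kb_skew c (jo a b), kb_skew c a, kb_skew c b, jo_neg1, jo_neg2, jo_comm (kb a c)] at h
    linear_combination (norm := abel) - h
  | tdj =>
    show asc (jo a b) c d + (-jo a (asc b c d) + (-jo b (asc a c d) + 0)) = 0
    have h := T_jo1 hB a b c d
    linear_combination (norm := abel) h
  | adt =>
    show kb (asc a b c) d + (-asc (kb a d) b c + (-asc a (kb b d) c +
      (-asc a b (kb c d) + 0))) = 0
    have h := ad_asc hB h3 d a b c
    rw [kb_skew d (asc a b c), kb_skew d a, kb_skew d b, kb_skew d c, asc_neg1, asc_neg2,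
      asc_neg3] at h
    linear_combination (norm := abel) - h
  | F =>
    show asc (kb a b) c d + (asc (kb c d) a b + (asc (kb a c) b d + (asc (kb b d) a c + 0))) = 0
    have h1 := F1 hB a b c d
    have h2 := F1 hB a c b d
    have h4 := kf23 hB a b c d
    rw [h1, h2] at h4
    linear_combination (norm := abel) h4
  | K =>
    show asc a b (kb c d) + (-kb (asc a b c) d + (-kb c (asc a b d) +
      (-asc (kb a b) c d + 0))) = 0
    have h := K3 hB h3 a b c d
    linear_combination (norm := abel) h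
  | R =>
    show asc a b (asc c d e) + (-asc (asc a b c) d e + (-asc c (asc a b d) e +
      (-asc c d (asc a b e) + (kb d (asc (kb a b) c e) + (asc (kb a b) d (kb c e) + 0))))) = 0
    have h := R8 hB h3 a b c d e
    linear_combination (norm := abel) h
  | G =>
    show jo (kb a c) (asc b d e) + (jo (kb b c) (asc a d e) + (jo (kb a d) (asc b c e) +
      (jo (kb b d) (asc a c e) + 0))) = 0
    have h1 := PJ hB h3 (a + b) (c + d) e
    have h2 := PJ hB h3 a (c + d) e
    have h4 := PJ hB h3 b (c + d) e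
    have h5 := PJ hB h3 (a + b) c e
    have h6 := PJ hB h3 (a + b) d e
    have h7 := PJ hB h3 a c e
    have h8 := PJ hB h3 a d e
    have h9 := PJ hB h3 b c e
    have h10 := PJ hB h3 b d e
    simp only [kb_add1, kb_add2, asc_add1, asc_add2, jo_add1, jo_add2] at h1 h2 h4 h5 h6
    linear_combination (norm := abel) h1 - h2 - h4 - h5 - h6 + h7 + h8 + h9 + h10
  | H =>
    show kb (kb a c) (asc b d e) + (asc a c (asc b d e) + (kb (kb b c) (asc a d e) +
      (asc b c (asc a d e) + (kb (kb a d) (asc b c e) + (asc a d (asc b c e) +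
      (kb (kb b d) (asc a c e) + (asc b d (asc a c e) + 0))))))) = 0
    have h1 := H8 hB h3 (a + b) (c + d) e
    have h2 := H8 hB h3 a (c + d) e
    have h4 := H8 hB h3 b (c + d) e
    have h5 := H8 hB h3 (a + b) c e
    have h6 := H8 hB h3 (a + b) d e
    have h7 := H8 hB h3 a c e
    have h8 := H8 hB h3 a d e
    have h9 := H8 hB h3 b c e
    have h10 := H8 hB h3 b d e
    simp only [kb_add1, kb_add2, asc_add1, asc_add2, asc_add3] at h1 h2 h4 h5 h6
    linear_combination (norm := abel) h1 - h2 - h4 - h5 - h6 + h7 + h8 + h9 + h10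
  | A =>
    show jo (jo a b) c + (-jo a (jo b c) + (-kb b (kb a c) + (-asc a b c + 0))) = 0
    have h := A3 hB h3 a b c
    linear_combination (norm := abel) h

include h3 in
theorem val_evT (v : ℕ → B) (t : Tr) : (evT t).val v = 0 := by
  induction t with
  | nil => rfl
  | I s q a b c d e f =>
    show (evR s a b c d e f (base q)).val v = 0
    rw [val_evR hB h3, base_zero hB h3, Fs.zero, sg_zero]
  | node l r hl hr =>
    show (mrg (evT l) (evT r)).val v = 0
    rw [val_mrg h3, hl, hr, add_zero]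

include h3 in
theorem val_evG (v : ℕ → B) (g : Tg) : (evG g).val v = g.val v := by
  induction g with
  | nil => rfl
  | p x r ih =>
    show (ins (evm x) (evG r)).val v = _
    rw [val_ins h3, ih, sv_evm hB]; rfl
  | m x r ih =>
    show (ins (sn true (evm x)) (evG r)).val v = _
    rw [val_ins h3, ih, sv_sn, sv_evm hB]; rfl

include h3 in
/-- soundness of the checker -/
theorem sound (g : Tg) (t : Tr) (h : chk g t = true) (v : ℕ → B) : g.val v = 0 := by
  have h1 := val_mrg h3 v (evG g) (evT t)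
  have h2 : mrg (evG g) (evT t) = L.nil := by
    unfold chk at h
    cases hm : mrg (evG g) (evT t) with
    | nil => rfl
    | cons s c r =>
      rw [hm] at h
      exact absurd (show false = true from h) (by decide)
  rw [h2, val_evG hB h3, val_evT hB h3, add_zero] at h1
  exact h1.symm

end values

end Pool.Agent.TP.Chk3
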