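import Pool.Agent.Helper52_TP.Hom

/-!
MP_ce3ba7_al, characteristic 2: multilinear identities in terms of words.
-/

set_option autoImplicit false
set_option linter.unusedSectionVars false

namespace Pool.Agent.TP.H52

open H67

section
variable {F K B C : Type} [Field F] [Field K] [NonUnitalNonAssocRing B] [Module F B]
  [NonUnitalNonAssocRing C] [Module K C] [IsScalarTower K C C] [SMulCommClass K C C]

/-- change of labels -/
def lb {X Y : Type} (y : X → Y) (s : Multiset (X × ZMod 3)) : Multiset (Y × ZMod 3) :=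
  s.map fun p => (y p.1, p.2)

theorem lb_sh {X Y : Type} (y : X → Y) (k : ZMod 3) (s : Multiset (X × ZMod 3)) :
    lb y (sh k s) = sh k (lb y s) := by
  unfold lb sh
  rw [Multiset.map_map, Multiset.map_map]
  rfl

theorem lb_add {X Y : Type} (y : X → Y) (s t : Multiset (X × ZMod 3)) :
    lb y (s + t) = lb y s + lb y t := Multiset.map_add _ _ _

theorem kl_lb {X Y : Type} (y : X → Y) (s : Multiset (X × ZMod 3)) : kl (lb y s) = kl s := by
  unfold kl lb
  rw [Multiset.map_map]
  rfl

theorem good_lb {X Y : Type} (y : X → Y) {s : Multiset (X × ZMod 3)} (hs : Good s) :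
    Good (lb y s) := by
  refine ⟨by rw [kl_lb]; exact hs.1, ?_⟩
  rcases hs.2 with h | ⟨p, hp, q, hq, h⟩
  · left; unfold lb; rw [Multiset.card_map, h]
  · right
    exact ⟨_, Multiset.mem_map_of_mem _ hp, _, Multiset.mem_map_of_mem _ hq, h⟩

/-- words of a monomial -/
noncomputable def Th (D : ExtD F K B C) : FreeMagma ℕ → (Multiset (ℕ × ZMod 3) →₀ K)
  | .of i => Finsupp.single {(i, 0)} 1
  | .mul u v => (Th D u).sum fun s a => (Th D v).sum fun t b =>
      (a * b) • (Finsupp.single (sh 1 s + sh 2 t) 1 + D.w • Finsupp.single (sh 1 t + sh 2 s) 1)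

theorem Th_supp (D : ExtD F K B C) (w : FreeMagma ℕ) :
    Th D w ∈ Finsupp.supported K K {s | Good s ∧ s.map Prod.fst = lets w} := by
  induction w using FreeMagma.recOnMul with
  | ih1 i =>
    exact Finsupp.single_mem_supported K 1 ⟨good_E (Tr.lf i), rfl⟩
  | ih2 u v ihu ihv =>
    show (Th D u).sum (fun s a => (Th D v).sum fun t b =>
      (a * b) • (Finsupp.single (sh 1 s + sh 2 t) 1 + D.w • Finsupp.single (sh 1 t + sh 2 s) 1)) ∈ _
    unfold Finsupp.sum
    refine Submodule.sum_mem _ fun s hs => Submodule.sum_mem _ fun t ht =>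
      Submodule.smul_mem _ _ (Submodule.add_mem _ ?_ (Submodule.smul_mem _ _ ?_))
    · have h1 := (Finsupp.mem_supported _ _).1 ihu hs
      have h2 := (Finsupp.mem_supported _ _).1 ihv ht
      refine Finsupp.single_mem_supported K 1 ⟨good_mul h1.1 h2.1, ?_⟩
      rw [Multiset.map_add, lets_mul, ← h1.2, ← h2.2]
      unfold sh
      rw [Multiset.map_map, Multiset.map_map]
      rfl
    · have h1 := (Finsupp.mem_supported _ _).1 ihu hs
      have h2 := (Finsupp.mem_supported _ _).1 ihv ht
      refine Finsupp.single_mem_supported K 1 ⟨good_mul h2.1 h1.1, ?_⟩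
      rw [Multiset.map_add, lets_mul, ← h1.2, ← h2.2, add_comm (s.map Prod.fst)]
      unfold sh
      rw [Multiset.map_map, Multiset.map_map]
      rfl

/-- evaluation of words -/
noncomputable def Ev (D : ExtD F K B C) (y : ℕ → C) : (Multiset (ℕ × ZMod 3) →₀ K) →ₗ[K] C :=
  Finsupp.linearCombination K fun s => wd (op D) (lb y s)

theorem Ev_single (D : ExtD F K B C) (y : ℕ → C) (s : Multiset (ℕ × ZMod 3)) (a : K) :
    Ev D y (Finsupp.single s a) = a • wd (op D) (lb y s) := by
  unfold Ev
  rw [Finsupp.linearCombination_single]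

theorem Ev_Th (D : ExtD F K B C) (hA : IsAlt B) (hH : HB B) (y : ℕ → C) (w : FreeMagma ℕ) :
    Ev D y (Th D w) = FreeMagma.lift y w := by
  induction w using FreeMagma.recOnMul with
  | ih1 i =>
    show Ev D y (Finsupp.single {(i, 0)} 1) = _
    rw [Ev_single, one_smul, FreeMagma.lift_of]
    exact wd_one (lr D hA hH) (y i)
  | ih2 u v ihu ihv =>
    rw [map_mul, ← ihu, ← ihv]
    have h1 : ∀ p : Multiset (ℕ × ZMod 3) →₀ K, Ev D y p =
        p.sum fun s a => a • wd (op D) (lb y s) := fun p => Finsupp.linearCombination_apply _ _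
    show Ev D y ((Th D u).sum fun s a => (Th D v).sum fun t b =>
      (a * b) • (Finsupp.single (sh 1 s + sh 2 t) 1 +
        D.w • Finsupp.single (sh 1 t + sh 2 s) 1)) = _
    rw [h1 (Th D u), h1 (Th D v)]
    unfold Finsupp.sum
    rw [map_sum, Finset.sum_mul]
    refine Finset.sum_congr rfl fun s hs => ?_
    rw [map_sum, Finset.mul_sum]
    refine Finset.sum_congr rfl fun t ht => ?_
    have h2 := ((Finsupp.mem_supported _ _).1 (Th_supp D u) hs).1
    have h3 := ((Finsupp.mem_supported _ _).1 (Th_supp D v) ht).1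
    rw [map_smul, map_add, map_smul, Ev_single, Ev_single, one_smul, one_smul, lb_add, lb_add,
      lb_sh, lb_sh, lb_sh, lb_sh, ← wd_mul (lr D hA hH) (good_lb y h2) (good_lb y h3),
      ← wd_mul (lr D hA hH) (good_lb y h3) (good_lb y h2), ← mul_op D, smul_mul_assoc,
      mul_smul_comm, smul_smul]

/-- sum of the coefficients -/
noncomputable def Tt (K : Type) [Field K] : (Multiset (ℕ × ZMod 3) →₀ K) →ₗ[K] K :=
  Finsupp.linearCombination K fun _ => 1

theorem Tt_Th (D : ExtD F K B C) (w : FreeMagma ℕ) :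
    Tt K (Th D w) * (1 + D.w) = (1 + D.w) ^ (lets w).card := by
  induction w using FreeMagma.recOnMul with
  | ih1 i =>
    show Tt K (Finsupp.single {(i, 0)} 1) * _ = _
    unfold Tt
    rw [Finsupp.linearCombination_single, lets_of, Multiset.card_singleton, pow_one]
    simp
  | ih2 u v ihu ihv =>
    have h1 : ∀ p : Multiset (ℕ × ZMod 3) →₀ K, Tt K p = p.sum fun s a => a := by
      intro p
      unfold Tt
      rw [Finsupp.linearCombination_apply]
      simp
    have h2 : Tt K (Th D (u * v)) = Tt K (Th D u) * Tt K (Th D v) * (1 + D.w) := by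
      show Tt K ((Th D u).sum fun s a => (Th D v).sum fun t b =>
        (a * b) • (Finsupp.single (sh 1 s + sh 2 t) 1 +
          D.w • Finsupp.single (sh 1 t + sh 2 s) 1)) = _
      rw [h1 (Th D u), h1 (Th D v)]
      unfold Finsupp.sum
      rw [map_sum, Finset.sum_mul, Finset.sum_mul]
      refine Finset.sum_congr rfl fun s hs => ?_
      rw [map_sum, Finset.mul_sum, Finset.sum_mul]
      refine Finset.sum_congr rfl fun t ht => ?_
      rw [map_smul, map_add, map_smul]
      unfold Tt
      rw [Finsupp.linearCombination_single, Finsupp.linearCombination_single]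
      simp only [smul_eq_mul]
      ring
    rw [h2, lets_mul, Multiset.card_add, pow_add, ← ihu, ← ihv]
    ring

/-- multilinear identities pass to the extension -/
theorem ml_ext (D : ExtD F K B C) (A : Finset ℕ) (T : Finset (FreeMagma ℕ))
    (c : FreeMagma ℕ → F) (hT : ∀ w ∈ T, lets w = A.val)
    (hB : ∀ y : ℕ → B, ∑ w ∈ T, c w • FreeMagma.lift y w = 0) :
    ∀ (A1 : Finset ℕ) (y : ℕ → C), A1 ⊆ A → (∀ a, a ∉ A1 → ∃ b, y a = D.j b) →
      ∑ w ∈ T, D.i (c w) • FreeMagma.lift y w = 0 := by
  classical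
  intro A1
  induction A1 using Finset.induction_on with
  | empty =>
    intro y _ hy
    choose z hz using fun a => hy a (Finset.notMem_empty a)
    have h1 : ∀ w, FreeMagma.lift y w = D.j (FreeMagma.lift z w) := by
      intro w
      induction w using FreeMagma.recOnMul with
      | ih1 i => rw [FreeMagma.lift_of, FreeMagma.lift_of, hz]
      | ih2 u v ihu ihv => rw [map_mul, map_mul, ihu, ihv, D.j_mul]
    have h2 := congrArg D.j (hB z)
    rw [j_zero D] at h2
    rw [← h2]
    let J : B →+ C := ⟨⟨D.j, j_zero D⟩, D.j_add⟩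
    have h3 : D.j (∑ w ∈ T, c w • FreeMagma.lift z w) = ∑ w ∈ T,
        D.j (c w • FreeMagma.lift z w) := map_sum J _ _
    rw [h3]
    refine Finset.sum_congr rfl fun w _ => ?_
    rw [D.j_smul, h1]
  | insert a A1 ha ih =>
    intro y hsub hy
    have hcount : ∀ w ∈ T, (lets w).count a = 1 := by
      intro w hw
      rw [hT w hw]
      exact Multiset.count_eq_one_of_mem A.nodup (hsub (Finset.mem_insert_self _ _))
    rw [← Function.update_eq_self a y]
    refine span_ind D (p := fun u => ∑ w ∈ T, D.i (c w) •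
      FreeMagma.lift (Function.update y a u) w = 0) (fun b => ?_) (fun u v hu hv => ?_)
      (fun d u hu => ?_) (y a)
    · refine ih _ (fun x hx => hsub (Finset.mem_insert_of_mem hx)) fun x hx => ?_
      by_cases hxa : x = a
      · subst hxa
        exact ⟨b, Function.update_self _ _ _⟩
      · rw [Function.update_of_ne hxa]
        exact hy x (by rw [Finset.mem_insert]; push Not; exact ⟨hxa, hx⟩)
    · rw [← add_zero (0 : C)]
      nth_rewrite 1 [← hu]
      rw [← hv, ← Finset.sum_add_distrib]
      refine Finset.sum_congr rfl fun w hw => ?_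
      rw [lift_add y a u v w (hcount w hw), smul_add]
    · rw [← smul_zero d, ← hu, Finset.smul_sum]
      refine Finset.sum_congr rfl fun w hw => ?_
      rw [lift_smul y a d u w (hcount w hw), smul_comm]

theorem ml_ext' (D : ExtD F K B C) (A : Finset ℕ) (T : Finset (FreeMagma ℕ))
    (c : FreeMagma ℕ → F) (hT : ∀ w ∈ T, lets w = A.val)
    (hB : ∀ y : ℕ → B, ∑ w ∈ T, c w • FreeMagma.lift y w = 0) (y : ℕ → C) :
    ∑ w ∈ T, D.i (c w) • FreeMagma.lift y w = 0 := by
  classical
  have h1 := ml_ext D A T c hT hB A (fun a => if a ∈ A then y a else D.j 0)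
    (Finset.Subset.refl _) (fun a ha => ⟨0, by rw [if_neg ha]⟩)
  rw [← h1]
  refine Finset.sum_congr rfl fun w hw => ?_
  congr 1
  refine lift_congr _ _ w fun a ha => ?_
  rw [hT w hw] at ha
  rw [if_pos (show a ∈ A from ha)]

/-- a relation between words with a nonzero coefficient -/
theorem exists_word (D : ExtD F K B C) (hA : IsAlt B) (hH : HB B) (A : Finset ℕ)
    (T : Finset (FreeMagma ℕ)) (c : FreeMagma ℕ → F) (hT : ∀ w ∈ T, lets w = A.val)
    (hc : ∑ w ∈ T, c w ≠ 0) (hB : ∀ y : ℕ → B, ∑ w ∈ T, c w • FreeMagma.lift y w = 0) :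
    ∃ p : Multiset (ℕ × ZMod 3) →₀ K, p ≠ 0 ∧
      (∀ s ∈ p.support, Good s ∧ s.map Prod.fst = A.val) ∧ ∀ y : ℕ → C, Ev D y p = 0 := by
  refine ⟨∑ w ∈ T, D.i (c w) • Th D w, ?_, ?_, ?_⟩
  · intro h
    have h1 := congrArg (Tt K) h
    rw [map_zero, map_sum] at h1
    have h2 : (∑ w ∈ T, Tt K (D.i (c w) • Th D w)) * (1 + D.w) =
        D.i (∑ w ∈ T, c w) * (1 + D.w) ^ A.card := by
      rw [Finset.sum_mul, map_sum, Finset.sum_mul]
      refine Finset.sum_congr rfl fun w hw => ?_
      rw [map_smul, smul_eq_mul, mul_assoc, Tt_Th, hT w hw]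
      rfl
    rw [h1, zero_mul] at h2
    have h3 : (1 + D.w) ≠ 0 := by
      intro h4
      have h5 := D.hw
      have h6 : D.w = 1 := by
        have h7 := D.h2
        linear_combination h4 - h7
      rw [h6] at h5
      have h7 := D.h2
      exact one_ne_zero (α := K) (by linear_combination h5 + h7)
    rcases mul_eq_zero.1 h2.symm with h4 | h4
    · exact hc ((map_eq_zero D.i).1 h4)
    · exact absurd h4 (pow_ne_zero _ h3)
  · have h1 : (∑ w ∈ T, D.i (c w) • Th D w) ∈
        Finsupp.supported K K {s : Multiset (ℕ × ZMod 3) | Good s ∧ s.map Prod.fst = A.val} := by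
      refine Submodule.sum_mem _ fun w hw => Submodule.smul_mem _ _ ?_
      have := Th_supp D w
      rw [hT w hw] at this
      exact this
    intro s hs
    exact (Finsupp.mem_supported _ _).1 h1 hs
  · intro y
    rw [map_sum, ← ml_ext' D A T c hT hB y]
    refine Finset.sum_congr rfl fun w _ => ?_
    rw [map_smul, Ev_Th D hA hH]

end

end Pool.Agent.TP.H52
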