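import Pool.Agent.Helper52_TP.Wd
import Pool.Agent.Helper59_TP3.PrimeQ

/-!
MP_ce3ba7_al, characteristic 2: scalar extension by a cube root of unity.
-/

set_option autoImplicit false
set_option linter.unusedSectionVars false

namespace Pool.Agent.TP.H52

/-- an algebra `C` over a field containing a cube root of unity, spanned by a copy of `B` -/
structure ExtD (F K B C : Type) [Field F] [Field K] [NonUnitalNonAssocRing B] [Module F B]
    [NonUnitalNonAssocRing C] [Module K C] where
  i : F →+* K
  j : B → C
  j_add : ∀ a b, j (a + b) = j a + j b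
  j_mul : ∀ a b, j (a * b) = j a * j b
  j_smul : ∀ (c : F) (b : B), j (c • b) = i c • j b
  j_inj : ∀ b, j b = 0 → b = 0
  span : Submodule.span K (Set.range j) = ⊤
  w : K
  hw : w * w = w + 1
  h2 : (2 : K) = 0

section
variable {F K B C : Type} [Field F] [Field K] [NonUnitalNonAssocRing B] [Module F B]
  [NonUnitalNonAssocRing C] [Module K C]

/-- the twisted product -/
def op (D : ExtD F K B C) (x y : C) : C := (D.w + 1) • (x * y) + y * x

/-- the third identity -/
def HB (B : Type) [NonUnitalNonAssocRing B] : Prop := ∀ x y z : B,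
  x * (y * z) + x * (z * y) + y * (x * z) + y * (z * x) + z * (x * y) + z * (y * x) = 0

variable [IsScalarTower K C C] [SMulCommClass K C C]

theorem two (D : ExtD F K B C) (x : C) : x + x = 0 := by
  have : (2 : K) • x = 0 := by rw [D.h2, zero_smul]
  rwa [two_smul] at this

theorem neg' (D : ExtD F K B C) (x : C) : -x = x := (eq_neg_of_add_eq_zero_left (two D x)).symm

theorem twoB (D : ExtD F K B C) (x : B) : x + x = 0 := D.j_inj _ (by rw [D.j_add]; exact two D _)

theorem negB (D : ExtD F K B C) (x : B) : -x = x := (eq_neg_of_add_eq_zero_left (twoB D x)).symm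

theorem j_zero (D : ExtD F K B C) : D.j 0 = 0 := by
  have := D.j_add 0 0
  rw [add_zero] at this
  exact left_eq_add.1 this

theorem span_ind (D : ExtD F K B C) {p : C → Prop} (h1 : ∀ b, p (D.j b))
    (h2 : ∀ x y, p x → p y → p (x + y)) (h3 : ∀ (c : K) x, p x → p (c • x)) (x : C) : p x := by
  have hx : x ∈ Submodule.span K (Set.range D.j) := by rw [D.span]; trivial
  induction hx using Submodule.span_induction with
  | mem x hx => obtain ⟨b, rfl⟩ := hx; exact h1 b
  | zero => have := h1 0; rwa [j_zero D] at this
  | add x y _ _ hx hy => exact h2 x y hx hy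
  | smul c x _ hx => exact h3 c x hx

/-- linearized alternativity in `B` -/
theorem sa1B (hA : IsAlt B) (x y z : B) :
    (x * y) * z + (y * x) * z = x * (y * z) + y * (x * z) := by
  have h1 := hA.1 (x + y) z
  have h2 := hA.1 x z
  have h3 := hA.1 y z
  simp only [add_mul, mul_add] at h1
  rw [h2, h3] at h1
  have e : x * (x * z) + y * x * z + (x * y * z + y * (y * z)) - (x * (x * z) + y * (y * z)) =
    x * (x * z) + x * (y * z) + (y * (x * z) + y * (y * z)) - (x * (x * z) + y * (y * z)) := by
      rw [h1]; abel
  have e1 : x * (x * z) + y * x * z + (x * y * z + y * (y * z)) - (x * (x * z) + y * (y * z)) =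
    (x * y) * z + (y * x) * z := by abel
  have e2 : x * (x * z) + x * (y * z) + (y * (x * z) + y * (y * z)) -
    (x * (x * z) + y * (y * z)) = x * (y * z) + y * (x * z) := by abel
  rw [← e1, ← e2, e]

theorem sa2B (hA : IsAlt B) (x y z : B) :
    (z * x) * y + (z * y) * x = z * (x * y) + z * (y * x) := by
  have h1 := hA.2 (x + y) z
  have h2 := hA.2 x z
  have h3 := hA.2 y z
  simp only [add_mul, mul_add] at h1
  rw [h2, h3] at h1
  have e : z * (x * x) + z * y * x + (z * x * y + z * (y * y)) - (z * (x * x) + z * (y * y)) =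
    z * (x * x) + z * (x * y) + (z * (y * x) + z * (y * y)) - (z * (x * x) + z * (y * y)) := by
      rw [h1]; abel
  have e1 : z * (x * x) + z * y * x + (z * x * y + z * (y * y)) - (z * (x * x) + z * (y * y)) =
    (z * x) * y + (z * y) * x := by abel
  have e2 : z * (x * x) + z * (x * y) + (z * (y * x) + z * (y * y)) -
    (z * (x * x) + z * (y * y)) = z * (x * y) + z * (y * x) := by abel
  rw [← e1, ← e2, e]

theorem sa1C (D : ExtD F K B C) (hA : IsAlt B) (x y z : C) :
    (x * y) * z + (y * x) * z = x * (y * z) + y * (x * z) := by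
  revert x y z
  intro x
  refine span_ind D (p := fun x => ∀ y z, (x * y) * z + (y * x) * z = x * (y * z) + y * (x * z))
    (fun a => ?_) (fun x x' hx hx' y z => ?_) (fun c x hx y z => ?_) x
  · intro y
    refine span_ind D (p := fun y => ∀ z, (D.j a * y) * z + (y * D.j a) * z =
      D.j a * (y * z) + y * (D.j a * z)) (fun b => ?_) (fun x x' hx hx' z => ?_)
      (fun c x hx z => ?_) y
    · intro z
      refine span_ind D (p := fun z => (D.j a * D.j b) * z + (D.j b * D.j a) * z =
        D.j a * (D.j b * z) + D.j b * (D.j a * z)) (fun c => ?_) (fun x x' hx hx' => ?_)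
        (fun c x hx => ?_) z
      · simp only [← D.j_mul, ← D.j_add, sa1B hA]
      · simp only [mul_add]
        calc _ = (D.j a * D.j b * x + D.j b * D.j a * x) +
              (D.j a * D.j b * x' + D.j b * D.j a * x') := by abel
          _ = _ := by rw [hx, hx']; abel
      · simp only [mul_smul_comm, ← smul_add, hx]
    · simp only [mul_add, add_mul]
      calc _ = (D.j a * x * z + x * D.j a * z) + (D.j a * x' * z + x' * D.j a * z) := by abel
        _ = _ := by rw [hx, hx']; abel
    · simp only [mul_smul_comm, smul_mul_assoc, ← smul_add, hx]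
  · simp only [mul_add, add_mul]
    calc _ = (x * y * z + y * x * z) + (x' * y * z + y * x' * z) := by abel
      _ = _ := by rw [hx, hx']; abel
  · simp only [mul_smul_comm, smul_mul_assoc, ← smul_add, hx]

theorem sa2C (D : ExtD F K B C) (hA : IsAlt B) (x y z : C) :
    (z * x) * y + (z * y) * x = z * (x * y) + z * (y * x) := by
  revert x y z
  intro x
  refine span_ind D (p := fun x => ∀ y z, (z * x) * y + (z * y) * x = z * (x * y) + z * (y * x))
    (fun a => ?_) (fun x x' hx hx' y z => ?_) (fun c x hx y z => ?_) x
  · intro y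
    refine span_ind D (p := fun y => ∀ z, (z * D.j a) * y + (z * y) * D.j a =
      z * (D.j a * y) + z * (y * D.j a)) (fun b => ?_) (fun x x' hx hx' z => ?_)
      (fun c x hx z => ?_) y
    · intro z
      refine span_ind D (p := fun z => (z * D.j a) * D.j b + (z * D.j b) * D.j a =
        z * (D.j a * D.j b) + z * (D.j b * D.j a)) (fun c => ?_) (fun x x' hx hx' => ?_)
        (fun c x hx => ?_) z
      · simp only [← D.j_mul, ← D.j_add, sa2B hA]
      · simp only [add_mul]
        calc _ = (x * D.j a * D.j b + x * D.j b * D.j a) +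
              (x' * D.j a * D.j b + x' * D.j b * D.j a) := by abel
          _ = _ := by rw [hx, hx']; abel
      · simp only [smul_mul_assoc, ← smul_add, hx]
    · simp only [mul_add, add_mul]
      calc _ = (z * D.j a * x + z * x * D.j a) + (z * D.j a * x' + z * x' * D.j a) := by abel
        _ = _ := by rw [hx, hx']; abel
    · simp only [mul_smul_comm, smul_mul_assoc, ← smul_add, hx]
  · simp only [mul_add, add_mul]
    calc _ = (z * x * y + z * y * x) + (z * x' * y + z * y * x') := by abel
      _ = _ := by rw [hx, hx']; abel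
  · simp only [mul_smul_comm, smul_mul_assoc, ← smul_add, hx]

theorem hC (D : ExtD F K B C) (hH : HB B) : HB C := by
  intro x
  refine span_ind D (p := fun x => ∀ y z,
    x * (y * z) + x * (z * y) + y * (x * z) + y * (z * x) + z * (x * y) + z * (y * x) = 0)
    (fun a => ?_) (fun x x' hx hx' y z => ?_) (fun c x hx y z => ?_) x
  · intro y
    refine span_ind D (p := fun y => ∀ z, D.j a * (y * z) + D.j a * (z * y) + y * (D.j a * z) +
      y * (z * D.j a) + z * (D.j a * y) + z * (y * D.j a) = 0) (fun b => ?_)
      (fun x x' hx hx' z => ?_) (fun c x hx z => ?_) y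
    · intro z
      refine span_ind D (p := fun z => D.j a * (D.j b * z) + D.j a * (z * D.j b) +
        D.j b * (D.j a * z) + D.j b * (z * D.j a) + z * (D.j a * D.j b) + z * (D.j b * D.j a) = 0)
        (fun c => ?_) (fun x x' hx hx' => ?_) (fun c x hx => ?_) z
      · simp only [← D.j_mul, ← D.j_add, hH a b c, j_zero D]
      · simp only [mul_add, add_mul]
        rw [← add_zero (0 : C)]
        nth_rewrite 1 [← hx]
        nth_rewrite 1 [← hx']
        abel
      · simp only [mul_smul_comm, smul_mul_assoc, ← smul_add, hx, smul_zero]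
    · simp only [mul_add, add_mul]
      rw [← add_zero (0 : C)]
      nth_rewrite 1 [← hx z]
      nth_rewrite 1 [← hx' z]
      abel
    · simp only [mul_smul_comm, smul_mul_assoc, ← smul_add, hx, smul_zero]
  · simp only [mul_add, add_mul]
    rw [← add_zero (0 : C)]
    nth_rewrite 1 [← hx y z]
    nth_rewrite 1 [← hx' y z]
    abel
  · simp only [mul_smul_comm, smul_mul_assoc, ← smul_add, hx, smul_zero]

end

end Pool.Agent.TP.H52
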