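import Pool.Agent.Helper52_TP.Abel

/-!
MP_ce3ba7_al, characteristic 2: a multilinear identity with nonzero coefficient sum (also over
finite fields).
-/

set_option autoImplicit false
set_option linter.unusedSectionVars false

namespace Pool.Agent.TP.H52

open H67

section
variable {F K B C : Type} [Field F] [Field K] [NonUnitalNonAssocRing B] [Module F B]
  [NonUnitalNonAssocRing C] [Module K C] [IsScalarTower K C C] [SMulCommClass K C C]

/-- span of the words with at least `k` occurrences of `s` -/
def QQ (D : ExtD F K B C) (s : C) (k : ℕ) : Submodule K C :=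
  Submodule.span K {c | ∃ W : Multiset (C × ZMod 3), Good W ∧ k ≤ cn s W ∧ c = wd (op D) W}

theorem QQ_zero (D : ExtD F K B C) (hA : IsAlt B) (hH : HB B) (s c : C) : c ∈ QQ D s 0 :=
  Submodule.subset_span ⟨{(c, 0)}, good_E (Tr.lf c), Nat.zero_le _, (wd_one (lr D hA hH) c).symm⟩

theorem QQ_one (D : ExtD F K B C) (hA : IsAlt B) (hH : HB B) (s : C) : s ∈ QQ D s 1 := by
  classical
  refine Submodule.subset_span ⟨{(s, 0)}, good_E (Tr.lf s), ?_, (wd_one (lr D hA hH) s).symm⟩
  unfold cn
  rw [Multiset.filter_singleton, if_pos rfl, Multiset.card_singleton]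

theorem QQ_op (D : ExtD F K B C) (hA : IsAlt B) (hH : HB B) (s : C) (k l : ℕ) (a b : C)
    (ha : a ∈ QQ D s k) (hb : b ∈ QQ D s l) : op D a b ∈ QQ D s (k + l) := by
  unfold QQ at ha
  induction ha using Submodule.span_induction with
  | mem a ha =>
    unfold QQ at hb
    induction hb using Submodule.span_induction with
    | mem b hb =>
      obtain ⟨W, hW1, hW2, rfl⟩ := ha
      obtain ⟨V, hV1, hV2, rfl⟩ := hb
      rw [wd_mul (lr D hA hH) hW1 hV1]
      refine Submodule.subset_span ⟨_, good_mul hW1 hV1, ?_, rfl⟩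
      rw [cn_add, cn_sh, cn_sh]
      omega
    | zero => rw [(op_zero D _).2]; exact Submodule.zero_mem _
    | add b b' _ _ h3 h4 => rw [op_add_right]; exact Submodule.add_mem _ h3 h4
    | smul c b _ h3 => rw [op_smul_right]; exact Submodule.smul_mem _ _ h3
  | zero => rw [(op_zero D _).1]; exact Submodule.zero_mem _
  | add b b' _ _ h3 h4 => rw [op_add_left]; exact Submodule.add_mem _ h3 h4
  | smul c b _ h3 => rw [op_smul_left]; exact Submodule.smul_mem _ _ h3

theorem QQ_mul (D : ExtD F K B C) (hA : IsAlt B) (hH : HB B) (s : C) (k l : ℕ) (a b : C)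
    (ha : a ∈ QQ D s k) (hb : b ∈ QQ D s l) : a * b ∈ QQ D s (k + l) := by
  rw [mul_op D]
  refine Submodule.add_mem _ (QQ_op D hA hH s k l a b ha hb) (Submodule.smul_mem _ _ ?_)
  rw [add_comm k l]
  exact QQ_op D hA hH s l k b a hb ha

theorem QQ_four (D : ExtD F K B C) (hA : IsAlt B) (hH : HB B) (s : C) (hs : Nul (op D) s)
    (k : ℕ) (hk : 4 ≤ k) (a : C) (ha : a ∈ QQ D s k) : a = 0 := by
  unfold QQ at ha
  induction ha using Submodule.span_induction with
  | mem a ha =>
    obtain ⟨W, hW1, hW2, rfl⟩ := ha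
    exact nul4 (lr D hA hH) (op_zero D) hs hW1 (le_trans hk hW2)
  | zero => rfl
  | add b b' _ _ h3 h4 => rw [h3, h4, add_zero]
  | smul c b _ h3 => rw [h3, smul_zero]

/-- monomials with an argument containing a null element twice -/
theorem lift_QQ (D : ExtD F K B C) (hA : IsAlt B) (hH : HB B) (y : ℕ → B) (s : C) (a : ℕ)
    (ha : D.j (y a) ∈ QQ D s 2) (w : FreeMagma ℕ) :
    D.j (FreeMagma.lift y w) ∈ QQ D s (2 * (lets w).count a) := by
  induction w using FreeMagma.recOnMul with
  | ih1 i =>
    rw [FreeMagma.lift_of, lets_of, Multiset.count_singleton]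
    by_cases h : a = i
    · rw [if_pos h, mul_one, ← h]; exact ha
    · rw [if_neg h, mul_zero]; exact QQ_zero D hA hH _ _
  | ih2 v w ihv ihw =>
    rw [map_mul, D.j_mul, lets_mul, Multiset.count_add, mul_add]
    exact QQ_mul D hA hH s _ _ _ _ ihv ihw

theorem lift_two (D : ExtD F K B C) (hA : IsAlt B) (hH : HB B) (hn : ∀ s, Nul (op D) (D.j s))
    (y : ℕ → B) (s : B) (a : ℕ) (ha : D.j (y a) ∈ QQ D (D.j s) 2) (w : FreeMagma ℕ)
    (hw : 2 ≤ (lets w).count a) : FreeMagma.lift y w = 0 := by
  apply D.j_inj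
  exact QQ_four D hA hH _ (hn s) _ (by omega) _ (lift_QQ D hA hH y (D.j s) a ha w)

theorem lift_zero {A : Type} [NonUnitalNonAssocRing A] (y : ℕ → A) (a : ℕ) (ha : y a = 0)
    (w : FreeMagma ℕ) (hw : a ∈ lets w) : FreeMagma.lift y w = 0 := by
  induction w using FreeMagma.recOnMul with
  | ih1 i =>
    rw [lets_of, Multiset.mem_singleton] at hw
    rw [FreeMagma.lift_of, ← hw, ha]
  | ih2 v w ihv ihw =>
    rw [lets_mul, Multiset.mem_add] at hw
    rw [map_mul]
    rcases hw with hw | hw
    · rw [ihv hw, zero_mul]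
    · rw [ihw hw, mul_zero]

theorem lift_congr {A : Type} [NonUnitalNonAssocRing A] (y z : ℕ → A) (w : FreeMagma ℕ)
    (h : ∀ a ∈ lets w, y a = z a) : FreeMagma.lift y w = FreeMagma.lift z w := by
  induction w using FreeMagma.recOnMul with
  | ih1 i => rw [FreeMagma.lift_of, FreeMagma.lift_of]; exact h i (by rw [lets_of]; simp)
  | ih2 v w ihv ihw =>
    rw [map_mul, map_mul, ihv fun a ha => h a (by rw [lets_mul]; simp [ha]),
      ihw fun a ha => h a (by rw [lets_mul]; simp [ha])]

theorem lift_add {A : Type} [NonUnitalNonAssocRing A] (y : ℕ → A) (a : ℕ) (u v : A)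
    (w : FreeMagma ℕ) (h : (lets w).count a = 1) : FreeMagma.lift (Function.update y a (u + v)) w =
      FreeMagma.lift (Function.update y a u) w + FreeMagma.lift (Function.update y a v) w := by
  have key : ∀ (w : FreeMagma ℕ) (t : A), (lets w).count a = 0 →
      FreeMagma.lift (Function.update y a t) w = FreeMagma.lift y w := by
    intro w t hw
    refine lift_congr _ _ w fun b hb => ?_
    have : b ≠ a := by
      rintro rfl
      exact (Multiset.count_pos.2 hb).ne' hw
    rw [Function.update_of_ne this]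
  induction w using FreeMagma.recOnMul with
  | ih1 i =>
    rw [lets_of, Multiset.count_singleton] at h
    have : a = i := by
      by_contra hne
      rw [if_neg hne] at h
      exact absurd h (by norm_num)
    subst this
    simp
  | ih2 v' w ihv ihw =>
    rw [lets_mul, Multiset.count_add] at h
    rw [map_mul, map_mul, map_mul]
    rcases (by omega : ((lets v').count a = 1 ∧ (lets w).count a = 0) ∨
      ((lets v').count a = 0 ∧ (lets w).count a = 1)) with ⟨h1, h2⟩ | ⟨h1, h2⟩
    · rw [ihv h1, key w _ h2, key w _ h2, key w _ h2, add_mul]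
    · rw [ihw h2, key v' _ h1, key v' _ h1, key v' _ h1, mul_add]

theorem lift_smul {R A : Type} [Field R] [NonUnitalNonAssocRing A] [Module R A]
    [IsScalarTower R A A] [SMulCommClass R A A] (y : ℕ → A) (a : ℕ) (c : R) (u : A)
    (w : FreeMagma ℕ) (h : (lets w).count a = 1) : FreeMagma.lift (Function.update y a (c • u)) w =
      c • FreeMagma.lift (Function.update y a u) w := by
  have key : ∀ (w : FreeMagma ℕ) (t : A), (lets w).count a = 0 →
      FreeMagma.lift (Function.update y a t) w = FreeMagma.lift y w := by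
    intro w t hw
    refine lift_congr _ _ w fun b hb => ?_
    have : b ≠ a := by
      rintro rfl
      exact (Multiset.count_pos.2 hb).ne' hw
    rw [Function.update_of_ne this]
  induction w using FreeMagma.recOnMul with
  | ih1 i =>
    rw [lets_of, Multiset.count_singleton] at h
    have : a = i := by
      by_contra hne
      rw [if_neg hne] at h
      exact absurd h (by norm_num)
    subst this
    simp
  | ih2 v' w ihv ihw =>
    rw [lets_mul, Multiset.count_add] at h
    rw [map_mul, map_mul]
    rcases (by omega : ((lets v').count a = 1 ∧ (lets w).count a = 0) ∨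
      ((lets v').count a = 0 ∧ (lets w).count a = 1)) with ⟨h1, h2⟩ | ⟨h1, h2⟩
    · rw [ihv h1, key w _ h2, key w _ h2, smul_mul_assoc]
    · rw [ihw h2, key v' _ h1, key v' _ h1, mul_smul_comm]

/-- elements obtained from a square by multiplications -/
inductive SqP (B : Type) [NonUnitalNonAssocRing B] : B → Prop
  | sq (s : B) : SqP B (s * s)
  | mulr (a b : B) : SqP B a → SqP B (a * b)
  | mull (a b : B) : SqP B a → SqP B (b * a)

theorem SqP_QQ (D : ExtD F K B C) (hA : IsAlt B) (hH : HB B) {b : B} (hb : SqP B b) :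
    ∃ s : B, D.j b ∈ QQ D (D.j s) 2 := by
  induction hb with
  | sq s =>
    refine ⟨s, ?_⟩
    rw [D.j_mul]
    exact QQ_mul D hA hH _ 1 1 _ _ (QQ_one D hA hH _) (QQ_one D hA hH _)
  | mulr a b _ ih =>
    obtain ⟨s, hs⟩ := ih
    refine ⟨s, ?_⟩
    rw [D.j_mul]
    exact QQ_mul D hA hH _ 2 0 _ _ hs (QQ_zero D hA hH _ _)
  | mull a b _ ih =>
    obtain ⟨s, hs⟩ := ih
    refine ⟨s, ?_⟩
    rw [D.j_mul]
    exact QQ_mul D hA hH _ 0 2 _ _ (QQ_zero D hA hH _ _) hs

/-- the T-ideal generated by the squares -/
def Sq0 (F B : Type) [Field F] [NonUnitalNonAssocRing B] [Module F B] : Submodule F B :=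
  Submodule.span F {b | SqP B b}

variable [IsScalarTower F B B] [SMulCommClass F B B]

theorem Sq0_T : TIdeal F B (Sq0 F B) := by
  refine ⟨fun a ha b => ?_, fun Φ a ha => ?_⟩
  · unfold Sq0 at ha
    induction ha using Submodule.span_induction with
    | mem a ha =>
      exact ⟨Submodule.subset_span (SqP.mulr a b ha), Submodule.subset_span (SqP.mull a b ha)⟩
    | zero => rw [zero_mul, mul_zero]; exact ⟨Submodule.zero_mem _, Submodule.zero_mem _⟩
    | add a a' h1 h2 h3 h4 =>
      rw [add_mul, mul_add]
      exact ⟨Submodule.add_mem _ h3.1 h4.1, Submodule.add_mem _ h3.2 h4.2⟩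
    | smul c a h1 h3 =>
      rw [smul_mul_assoc, mul_smul_comm]
      exact ⟨Submodule.smul_mem _ _ h3.1, Submodule.smul_mem _ _ h3.2⟩
  · unfold Sq0 at ha
    induction ha using Submodule.span_induction with
    | mem a ha =>
      refine Submodule.subset_span ?_
      show SqP B (Φ a)
      have ha' : SqP B a := ha
      clear ha
      induction ha' with
      | sq s => rw [map_mul]; exact SqP.sq _
      | mulr a b _ ih => rw [map_mul]; exact SqP.mulr _ _ ih
      | mull a b _ ih => rw [map_mul]; exact SqP.mull _ _ ih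
    | zero => rw [map_zero]; exact Submodule.zero_mem _
    | add a a' h1 h2 h3 h4 => rw [map_add]; exact Submodule.add_mem _ h3 h4
    | smul c a h1 h3 => rw [map_smul]; exact Submodule.smul_mem _ _ h3

/-- the part of letters exactly `A` vanishes on special arguments -/
theorem part_zero (D : ExtD F K B C) (hA : IsAlt B) (hH : HB B)
    (hn : ∀ s, Nul (op D) (D.j s)) (T : Finset (FreeMagma ℕ)) (c : FreeMagma ℕ → F)
    (hG : ∀ y : ℕ → B, ∑ w ∈ T, c w • FreeMagma.lift y w = 0) (y s : ℕ → B)
    (hy : ∀ a, D.j (y a) ∈ QQ D (D.j (s a)) 2) (A : Finset ℕ) :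
    ∑ w ∈ T with lets w = A.val, c w • FreeMagma.lift y w = 0 := by
  classical
  induction A using Finset.strongInduction with
  | _ A ih =>
  have h1 := hG (fun a => if a ∈ A then y a else 0)
  have h2 : ∑ w ∈ T, c w • FreeMagma.lift (fun a => if a ∈ A then y a else 0) w =
      ∑ w ∈ T with ((lets w).Nodup ∧ (lets w).toFinset ⊆ A), c w • FreeMagma.lift y w := by
    rw [Finset.sum_filter]
    refine Finset.sum_congr rfl fun w _ => ?_
    by_cases hsub : (lets w).toFinset ⊆ A
    · have h3 : FreeMagma.lift (fun a => if a ∈ A then y a else 0) w = FreeMagma.lift y w := by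
        refine lift_congr _ _ w fun a ha => ?_
        rw [if_pos (hsub (Multiset.mem_toFinset.2 ha))]
      rw [h3]
      by_cases hnd : (lets w).Nodup
      · rw [if_pos ⟨hnd, hsub⟩]
      · rw [if_neg (fun h => hnd h.1)]
        rw [Multiset.nodup_iff_count_le_one] at hnd
        push Not at hnd
        obtain ⟨a, ha⟩ := hnd
        rw [lift_two D hA hH hn y (s a) a (hy a) w ha, smul_zero]
    · rw [if_neg (fun h => hsub h.2)]
      rw [Finset.not_subset] at hsub
      obtain ⟨a, ha, haA⟩ := hsub
      rw [lift_zero _ a (by rw [if_neg haA]) w (Multiset.mem_toFinset.1 ha), smul_zero]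
  rw [h2] at h1
  rw [← Finset.sum_fiberwise_of_maps_to (t := A.powerset) (g := fun w => (lets w).toFinset)
    (fun w hw => Finset.mem_powerset.2 (Finset.mem_filter.1 hw).2.2)] at h1
  have h4 : ∀ A' ∈ A.powerset, ∑ w ∈ (T.filter fun w => (lets w).Nodup ∧
      (lets w).toFinset ⊆ A) with (lets w).toFinset = A', c w • FreeMagma.lift y w =
      ∑ w ∈ T with lets w = A'.val, c w • FreeMagma.lift y w := by
    intro A' hA'
    rw [Finset.filter_filter]
    refine Finset.sum_congr (Finset.filter_congr fun w _ => ?_) fun _ _ => rfl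
    constructor
    · rintro ⟨⟨h5, _⟩, rfl⟩
      rw [Multiset.toFinset_val, h5.dedup]
    · intro h5
      have h6 : (lets w).Nodup := by rw [h5]; exact A'.nodup
      have h7 : (lets w).toFinset = A' := by
        apply Finset.val_injective
        rw [Multiset.toFinset_val, h6.dedup, h5]
      exact ⟨⟨h6, by rw [h7]; exact Finset.mem_powerset.1 hA'⟩, h7⟩
  rw [Finset.sum_congr rfl h4, ← Finset.insert_erase (Finset.mem_powerset_self A),
    Finset.sum_insert (Finset.notMem_erase _ _)] at h1
  rw [Finset.sum_eq_zero (fun A' hA' => ih A' ?_), add_zero] at h1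
  · exact h1
  · rw [Finset.mem_erase, Finset.mem_powerset] at hA'
    exact Finset.ssubset_iff_subset_ne.2 ⟨hA'.2, hA'.1⟩

/-- the part of letters exactly `A` vanishes on the T-ideal generated by squares -/
theorem part_zero' (D : ExtD F K B C) (hA : IsAlt B) (hH : HB B)
    (hn : ∀ s, Nul (op D) (D.j s)) (T : Finset (FreeMagma ℕ)) (c : FreeMagma ℕ → F)
    (hG : ∀ y : ℕ → B, ∑ w ∈ T, c w • FreeMagma.lift y w = 0) (A : Finset ℕ) :
    ∀ (A1 : Finset ℕ) (y : ℕ → B), A1 ⊆ A → (∀ a ∈ A1, y a ∈ Sq0 F B) →
      (∀ a, a ∉ A1 → ∃ s : B, D.j (y a) ∈ QQ D (D.j s) 2) →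
      ∑ w ∈ T with lets w = A.val, c w • FreeMagma.lift y w = 0 := by
  classical
  intro A1
  induction A1 using Finset.induction_on with
  | empty =>
    intro y _ _ hy
    choose s hs using fun a => hy a (Finset.notMem_empty a)
    exact part_zero D hA hH hn T c hG y s hs A
  | insert a A1 ha ih =>
    intro y hsub h1 h2
    have h3 : y a ∈ Sq0 F B := h1 a (Finset.mem_insert_self _ _)
    have h4 : y = Function.update y a (y a) := (Function.update_eq_self a y).symm
    rw [h4]
    have hcount : ∀ w ∈ T.filter (fun w => lets w = A.val), (lets w).count a = 1 := by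
      intro w hw
      rw [(Finset.mem_filter.1 hw).2]
      exact Multiset.count_eq_one_of_mem A.nodup (hsub (Finset.mem_insert_self _ _))
    have key : ∀ b ∈ Sq0 F B, ∑ w ∈ T with lets w = A.val,
        c w • FreeMagma.lift (Function.update y a b) w = 0 := by
      intro b hb
      unfold Sq0 at hb
      induction hb using Submodule.span_induction with
      | mem b hb =>
        refine ih _ (fun x hx => hsub (Finset.mem_insert_of_mem hx)) (fun x hx => ?_)
          (fun x hx => ?_)
        · have : x ≠ a := by rintro rfl; exact ha hx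
          rw [Function.update_of_ne this]
          exact h1 x (Finset.mem_insert_of_mem hx)
        · by_cases hxa : x = a
          · subst hxa
            rw [Function.update_self]
            exact SqP_QQ D hA hH hb
          · rw [Function.update_of_ne hxa]
            exact h2 x (by rw [Finset.mem_insert]; push Not; exact ⟨hxa, hx⟩)
      | zero =>
        refine Finset.sum_eq_zero fun w hw => ?_
        rw [lift_zero _ a (Function.update_self _ _ _) w
          (Multiset.count_pos.1 (by rw [hcount w hw]; norm_num)), smul_zero]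
      | add u v _ _ h5 h6 =>
        rw [← add_zero (0 : B)]
        nth_rewrite 1 [← h5]
        rw [← h6, ← Finset.sum_add_distrib]
        refine Finset.sum_congr rfl fun w hw => ?_
        rw [lift_add y a u v w (hcount w hw), smul_add]
      | smul d u _ h5 =>
        rw [← smul_zero d, ← h5, Finset.smul_sum]
        refine Finset.sum_congr rfl fun w hw => ?_
        rw [lift_smul y a d u w (hcount w hw), smul_comm]
    exact key _ h3

/-- a multilinear identity with nonzero coefficient sum -/
theorem exists_ml (D : ExtD F K B C) (hA : IsAlt B) (hH : HB B)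
    (hn : ∀ s, Nul (op D) (D.j s)) {S : Set (MonoidAlgebra F (FreeMagma ℕ))} (hS : AssNil F S)
    {x : ℕ → B} (h : MaxAlg F S B x) (h0 : Sq0 F B ≠ ⊥) :
    ∃ (A : Finset ℕ) (T : Finset (FreeMagma ℕ)) (c : FreeMagma ℕ → F),
      (∀ w ∈ T, lets w = A.val) ∧ ∑ w ∈ T, c w ≠ 0 ∧
      ∀ y : ℕ → B, ∑ w ∈ T, c w • FreeMagma.lift y w = 0 := by
  classical
  obtain ⟨G, hG1, hG2⟩ := exists_G hS h.sat
  obtain ⟨T, c, rfl⟩ := rep G
  have hG3 : ∀ y : ℕ → B, ∑ w ∈ T, c w • FreeMagma.lift y w = 0 := by
    intro y
    have := hG1 y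
    rw [map_sum] at this
    rw [← this]
    refine Finset.sum_congr rfl fun w _ => ?_
    rw [map_smul, ev_mo]
  obtain ⟨A, hAc⟩ := Lq_ne T c hG2
  refine ⟨A, T.filter (fun w => lets w = A.val), c, fun w hw => (Finset.mem_filter.1 hw).2, hAc,
    ?_⟩
  have hb : ∑ w ∈ T with lets w = A.val, c w • FreeMagma.lift x w = 0 := by
    refine h.lemQI (Sq0 F B) Sq0_T h0 _ fun Φ hΦ => ?_
    rw [map_sum]
    have e : ∀ w ∈ T.filter (fun w => lets w = A.val), Φ (c w • FreeMagma.lift x w) =
        c w • FreeMagma.lift (fun i => if i ∈ A then Φ (x i) else 0) w := by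
      intro w hw
      rw [map_smul]
      congr 1
      have h1 : FreeMagma.lift x w = ev (F := F) x (mo F w) := (ev_mo x w).symm
      rw [h1, ev_comp, ev_mo]
      refine lift_congr _ _ w fun a ha => ?_
      rw [(Finset.mem_filter.1 hw).2] at ha
      rw [if_pos (show a ∈ A from ha)]
    rw [Finset.sum_congr rfl e]
    refine part_zero' D hA hH hn T c hG3 A A _ (Finset.Subset.refl _) (fun a ha => ?_)
      (fun a ha => ?_)
    · rw [if_pos ha]; exact hΦ a
    · refine ⟨0, ?_⟩
      rw [if_neg ha, j_zero D]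
      exact Submodule.zero_mem _
  intro y
  obtain ⟨Φ, hΦ⟩ := h.rel.ext y
  have h1 := congrArg Φ hb
  rw [map_zero, map_sum] at h1
  rw [← h1]
  refine Finset.sum_congr rfl fun w _ => ?_
  rw [map_smul]
  congr 1
  have h2 : FreeMagma.lift x w = ev (F := F) x (mo F w) := (ev_mo x w).symm
  rw [h2, ev_comp, ev_mo]
  congr 1
  exact (congrArg _ (funext hΦ)).symm

end

end Pool.Agent.TP.H52
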