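import Pool.Agent.Helper52_TP.Ext

/-!
MP_ce3ba7_al, characteristic 2: the map `kap x y = xyx + x^2 y + y x^2` is zero on a T-prime
algebra satisfying the third identity.
-/

set_option autoImplicit false
set_option linter.unusedSectionVars false

namespace Pool.Agent.TP.H52

section
variable {F K B C : Type} [Field F] [Field K] [NonUnitalNonAssocRing B] [Module F B]
  [NonUnitalNonAssocRing C] [Module K C] [IsScalarTower K C C] [SMulCommClass K C C]

theorem lr1 (D : ExtD F K B C) (hA : IsAlt B) (hH : HB B) (x y z : C) :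
    op D (op D x y) z = op D (op D z y) x := by
  have e1 := sa2C D hA y z x
  have e2 := sa1C D hA x z y
  have e3 := sa2C D hA x y z
  have e4 := sa2C D hA x z y
  have e5 := hC D hH x y z
  have h2 := D.h2
  have hw := D.hw
  unfold op
  simp only [smul_add, mul_add, add_mul, smul_mul_assoc, mul_smul_comm]
  generalize D.w = w at *
  linear_combination (norm := (match_scalars <;> grind)) w • (e1 + e2 + e3) + (w + 1) • e4 +
    (w + 1) • e5

theorem lr2 (D : ExtD F K B C) (hA : IsAlt B) (hH : HB B) (x y z : C) :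
    op D x (op D y z) = op D z (op D y x) := by
  have e1 := sa2C D hA x y z
  have e2 := sa2C D hA x z y
  have e3 := sa2C D hA y z x
  have e5 := sa1C D hA x z y
  have e7 := hC D hH x y z
  have h2 := D.h2
  have hw := D.hw
  unfold op
  simp only [smul_add, mul_add, add_mul, smul_mul_assoc, mul_smul_comm]
  generalize D.w = w at *
  linear_combination (norm := (match_scalars <;> grind)) e3 + e5 + e1 + (w + 1) • (e2 + e7)

theorem lr (D : ExtD F K B C) (hA : IsAlt B) (hH : HB B) : LR (op D) :=
  ⟨lr1 D hA hH, lr2 D hA hH⟩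

theorem op_zero (D : ExtD F K B C) (x : C) : op D 0 x = 0 ∧ op D x 0 = 0 := by
  unfold op; simp

theorem op_add_left (D : ExtD F K B C) (x y z : C) :
    op D (x + y) z = op D x z + op D y z := by
  unfold op; simp only [add_mul, mul_add, smul_add]; abel

theorem op_add_right (D : ExtD F K B C) (x y z : C) :
    op D x (y + z) = op D x y + op D x z := by
  unfold op; simp only [add_mul, mul_add, smul_add]; abel

theorem op_smul_left (D : ExtD F K B C) (c : K) (x y : C) :
    op D (c • x) y = c • op D x y := by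
  unfold op
  simp only [smul_mul_assoc, mul_smul_comm, smul_add]
  rw [smul_comm c (D.w + 1)]

theorem op_smul_right (D : ExtD F K B C) (c : K) (x y : C) :
    op D x (c • y) = c • op D x y := by
  unfold op
  simp only [smul_mul_assoc, mul_smul_comm, smul_add]
  rw [smul_comm c (D.w + 1)]

/-- the product in terms of the twisted product -/
theorem mul_op (D : ExtD F K B C) (x y : C) : x * y = op D x y + D.w • op D y x := by
  have h2 := D.h2
  have hw := D.hw
  unfold op
  simp only [smul_add]
  generalize D.w = w at *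
  match_scalars <;> grind

/-- the twisted square map -/
def sg (D : ExtD F K B C) (s y : C) : C := op D s (op D y s)

theorem flexB (hA : IsAlt B) (x y : B) : (x * y) * x = x * (y * x) := by
  have h1 := sa1B hA x y x
  have h2 := hA.2 x y
  have h3 := sa2B hA y x x
  have h4 := hA.1 x y
  -- (xy)x + (yx)x = x(yx) + y(xx)
  rw [h2] at h1
  exact add_right_cancel h1

theorem flex (D : ExtD F K B C) (hA : IsAlt B) (s : B) (y : C) :
    op D (op D (D.j s) y) (D.j s) = op D (D.j s) (op D y (D.j s)) := by
  refine span_ind D (p := fun y => op D (op D (D.j s) y) (D.j s) =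
    op D (D.j s) (op D y (D.j s))) (fun b => ?_) (fun x y hx hy => ?_) (fun c x hx => ?_) y
  · have h1 : (D.j s * D.j b) * D.j s = D.j s * (D.j b * D.j s) := by
      simp only [← D.j_mul, flexB hA]
    have h2 := D.h2
    have hw := D.hw
    unfold op
    simp only [smul_add, mul_add, add_mul, smul_mul_assoc, mul_smul_comm]
    generalize D.w = w at *
    linear_combination (norm := (match_scalars <;> grind)) (w + 1) • h1
  · rw [op_add_right, op_add_left, hx, hy, op_add_left, op_add_right]
  · rw [op_smul_right, op_smul_left, hx, op_smul_left, op_smul_right]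

theorem sg_add (D : ExtD F K B C) (hA : IsAlt B) (hH : HB B) (s t y : C) :
    sg D (s + t) y = sg D s y + sg D t y := by
  unfold sg
  rw [op_add_right, op_add_left, op_add_right, op_add_right, lr2 D hA hH s y t]
  have := two D (op D t (op D y s))
  calc _ = op D s (op D y s) + op D t (op D y t) +
        (op D t (op D y s) + op D t (op D y s)) := by abel
    _ = _ := by rw [this, add_zero]

theorem sg_smul (D : ExtD F K B C) (c : K) (s y : C) : sg D (c • s) y = (c * c) • sg D s y := by
  unfold sg
  rw [op_smul_right, op_smul_left, op_smul_right, smul_smul]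

theorem sg_smul_right (D : ExtD F K B C) (c : K) (s y : C) : sg D s (c • y) = c • sg D s y := by
  unfold sg
  rw [op_smul_left, op_smul_right]

theorem sg_add_right (D : ExtD F K B C) (s y z : C) :
    sg D s (y + z) = sg D s y + sg D s z := by
  unfold sg
  rw [op_add_left, op_add_right]

/-- `sg s` is in the centroid -/
theorem sg_op1 (D : ExtD F K B C) (hA : IsAlt B) (hH : HB B) (s : B) (y z : C) :
    sg D (D.j s) (op D y z) = op D (sg D (D.j s) y) z := by
  unfold sg
  rw [← flex D hA s (op D y z)]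
  exact ev_eq (op D) (lr D hA hH) ![D.j s, y, z] 4
    (.nd (.nd (.lf 0) (.nd (.lf 1) (.lf 2))) (.lf 0))
    (.nd (.nd (.lf 0) (.nd (.lf 1) (.lf 0))) (.lf 2)) (by decide) (by decide)

theorem sg_op2 (D : ExtD F K B C) (hA : IsAlt B) (hH : HB B) (s : B) (y z : C) :
    sg D (D.j s) (op D y z) = op D y (sg D (D.j s) z) := by
  unfold sg
  rw [← flex D hA s z]
  exact ev_eq (op D) (lr D hA hH) ![D.j s, y, z] 4
    (.nd (.lf 0) (.nd (.nd (.lf 1) (.lf 2)) (.lf 0)))
    (.nd (.lf 1) (.nd (.nd (.lf 0) (.lf 2)) (.lf 0))) (by decide) (by decide)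

theorem sg_comm (D : ExtD F K B C) (hA : IsAlt B) (hH : HB B) (s : C) (t : B) (z : C) :
    sg D s (sg D (D.j t) z) = sg D (D.j t) (sg D s z) := by
  unfold sg
  have h1 := sg_op2 D hA hH t s (op D z s)
  have h2 := sg_op1 D hA hH t z s
  unfold sg at h1 h2
  rw [h1, h2]

theorem sg_mul_op (D : ExtD F K B C) (hA : IsAlt B) (hH : HB B) (x y : B) (z : C) :
    sg D (op D (D.j x) (D.j y)) z = sg D (D.j x) (sg D (D.j y) z) := by
  have h1 : sg D (op D (D.j x) (D.j y)) z =
      op D (op D (sg D (D.j y) (D.j x)) z) (D.j x) := by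
    unfold sg
    exact ev_eq (op D) (lr D hA hH) ![D.j x, D.j y, z] 5
      (.nd (.nd (.lf 0) (.lf 1)) (.nd (.lf 2) (.nd (.lf 0) (.lf 1))))
      (.nd (.nd (.nd (.lf 1) (.nd (.lf 0) (.lf 1))) (.lf 2)) (.lf 0)) (by decide) (by decide)
  rw [h1, ← sg_op1 D hA hH, ← sg_op1 D hA hH, flex D hA]
  rw [sg_comm D hA hH]
  rfl

/-- the natural form of the square map -/
def kap (x y : B) : B := (x * y) * x + (x * x) * y + y * (x * x)

theorem j_kap (D : ExtD F K B C) (hA : IsAlt B) (x y : B) :
    D.j (kap x y) = D.w • sg D (D.j x) (D.j y) := by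
  have h1 : (D.j x * D.j y) * D.j x = D.j x * (D.j y * D.j x) := by
    simp only [← D.j_mul, flexB hA]
  have h3 : (D.j x * D.j x) * D.j y = D.j x * (D.j x * D.j y) := by
    simp only [← D.j_mul, hA.1]
  have h4 : (D.j y * D.j x) * D.j x = D.j y * (D.j x * D.j x) := by
    simp only [← D.j_mul, hA.2]
  have h2 := D.h2
  have hw := D.hw
  unfold kap sg op
  simp only [D.j_add, D.j_mul, smul_add, mul_add, add_mul, smul_mul_assoc, mul_smul_comm]
  generalize D.w = w at *
  linear_combination (norm := (match_scalars <;> grind)) h3 + (w + 1) • h1 + h4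

theorem kap_add (D : ExtD F K B C) (hA : IsAlt B) (hH : HB B) (x x' y : B) :
    kap (x + x') y = kap x y + kap x' y := by
  have h : D.j (kap (x + x') y + (kap x y + kap x' y)) = 0 := by
    rw [D.j_add, D.j_add, j_kap D hA, j_kap D hA, j_kap D hA, D.j_add, sg_add D hA hH, smul_add]
    exact two D _
  have := D.j_inj _ h
  rw [← negB D (kap x y + kap x' y)] at this
  exact eq_of_sub_eq_zero (by rw [sub_eq_add_neg]; exact this)

theorem eq_of_jsum (D : ExtD F K B C) {x y : B} (h : D.j x = D.j y) : x = y := by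
  have h1 : D.j (x + y) = 0 := by rw [D.j_add, h]; exact two D _
  have := D.j_inj _ h1
  rw [← negB D y] at this
  exact eq_of_sub_eq_zero (by rw [sub_eq_add_neg]; exact this)

theorem kap_mul (D : ExtD F K B C) (hA : IsAlt B) (hH : HB B) (x y z : B) :
    kap (x * y) z = kap x (kap y z) := by
  apply eq_of_jsum D
  rw [j_kap D hA, j_kap D hA, j_kap D hA, sg_smul_right, D.j_mul, mul_op D, sg_add D hA hH,
    sg_smul, sg_mul_op D hA hH, sg_mul_op D hA hH, sg_comm D hA hH (D.j y) x]
  have h2 := D.h2
  have hw := D.hw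
  generalize D.w = w at *
  match_scalars <;> grind

theorem kap_op1 (D : ExtD F K B C) (hA : IsAlt B) (hH : HB B) (x y z : B) :
    kap x (y * z) = kap x y * z := by
  apply eq_of_jsum D
  rw [j_kap D hA, D.j_mul, D.j_mul, j_kap D hA, mul_op D, sg_add_right, sg_smul_right,
    sg_op1 D hA hH, sg_op2 D hA hH, mul_op D (D.w • sg D (D.j x) (D.j y)), op_smul_left,
    op_smul_right, smul_add]

theorem kap_op2 (D : ExtD F K B C) (hA : IsAlt B) (hH : HB B) (x y z : B) :
    kap x (y * z) = y * kap x z := by
  apply eq_of_jsum D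
  rw [j_kap D hA, D.j_mul, D.j_mul, j_kap D hA, mul_op D, sg_add_right, sg_smul_right,
    sg_op2 D hA hH, sg_op1 D hA hH, mul_op D _ (D.w • sg D (D.j x) (D.j z)), op_smul_left,
    op_smul_right, smul_add]

theorem kap_zero_left (y : B) : kap (0 : B) y = 0 := by
  unfold kap; simp

theorem kap_zero_right (y : B) : kap y (0 : B) = 0 := by
  unfold kap; simp

theorem kap_add_right (x y z : B) : kap x (y + z) = kap x y + kap x z := by
  unfold kap; simp only [mul_add, add_mul]; abel

variable [IsScalarTower F B B] [SMulCommClass F B B]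

theorem kap_smul (c : F) (x y : B) : kap (c • x) y = (c * c) • kap x y := by
  unfold kap
  simp only [smul_mul_assoc, mul_smul_comm, smul_smul, smul_add]

theorem kap_smul_right (c : F) (x y : B) : kap x (c • y) = c • kap x y := by
  unfold kap
  simp only [smul_mul_assoc, mul_smul_comm, smul_add]

theorem kap_map (Φ : B →ₙₐ[F] B) (x y : B) : Φ (kap x y) = kap (Φ x) (Φ y) := by
  unfold kap
  simp only [map_add, map_mul]

/-- powers of the ideal generated by the values of `kap` -/
def JJ (F B : Type) [Field F] [NonUnitalNonAssocRing B] [Module F B] : ℕ → Submodule F B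
  | 0 => ⊤
  | k + 1 => Submodule.span F {b | ∃ x : B, ∃ y ∈ JJ F B k, b = kap x y}

theorem JJ_T (D : ExtD F K B C) (hA : IsAlt B) (hH : HB B) (k : ℕ) : TIdeal F B (JJ F B k) := by
  induction k with
  | zero => exact ⟨fun _ _ _ => ⟨trivial, trivial⟩, fun _ _ _ => trivial⟩
  | succ k ih =>
    refine ⟨fun a ha b => ?_, fun Φ a ha => ?_⟩
    · have ha' : a ∈ Submodule.span F {b | ∃ x : B, ∃ y ∈ JJ F B k, b = kap x y} := ha
      clear ha
      induction ha' using Submodule.span_induction with
      | mem a ha =>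
        obtain ⟨x, y, hy, rfl⟩ := ha
        rw [← kap_op1 D hA hH, ← kap_op2 D hA hH]
        exact ⟨Submodule.subset_span ⟨x, y * b, (ih.1 y hy b).1, rfl⟩,
          Submodule.subset_span ⟨x, b * y, (ih.1 y hy b).2, rfl⟩⟩
      | zero => rw [zero_mul, mul_zero]; exact ⟨Submodule.zero_mem _, Submodule.zero_mem _⟩
      | add a a' h1 h2 h3 h4 =>
        rw [add_mul, mul_add]
        exact ⟨Submodule.add_mem _ h3.1 h4.1, Submodule.add_mem _ h3.2 h4.2⟩
      | smul c a h1 h3 =>
        rw [smul_mul_assoc, mul_smul_comm]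
        exact ⟨Submodule.smul_mem _ _ h3.1, Submodule.smul_mem _ _ h3.2⟩
    · have ha' : a ∈ Submodule.span F {b | ∃ x : B, ∃ y ∈ JJ F B k, b = kap x y} := ha
      clear ha
      induction ha' using Submodule.span_induction with
      | mem a ha =>
        obtain ⟨x, y, hy, rfl⟩ := ha
        rw [kap_map]
        exact Submodule.subset_span ⟨Φ x, Φ y, ih.2 Φ y hy, rfl⟩
      | zero => rw [map_zero]; exact Submodule.zero_mem _
      | add a a' h1 h2 h3 h4 => rw [map_add]; exact Submodule.add_mem _ h3 h4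
      | smul c a h1 h3 => rw [map_smul]; exact Submodule.smul_mem _ _ h3

theorem JJ_mul (D : ExtD F K B C) (hA : IsAlt B) (hH : HB B) (k : ℕ) (a b : B)
    (ha : a ∈ JJ F B k) (hb : b ∈ JJ F B 1) : a * b ∈ JJ F B (k + 1) := by
  have hb' : b ∈ Submodule.span F {b | ∃ x : B, ∃ y ∈ JJ F B 0, b = kap x y} := hb
  clear hb
  induction hb' using Submodule.span_induction with
  | mem b hb =>
    obtain ⟨x, y, hy, rfl⟩ := hb
    rw [← kap_op2 D hA hH]
    exact Submodule.subset_span ⟨x, a * y, ((JJ_T D hA hH k).1 a ha y).1, rfl⟩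
  | zero => rw [mul_zero]; exact Submodule.zero_mem _
  | add a a' h1 h2 h3 h4 => rw [mul_add]; exact Submodule.add_mem _ h3 h4
  | smul c a h1 h3 => rw [mul_smul_comm]; exact Submodule.smul_mem _ _ h3

/-- right normed products of `k + 1` elements -/
def RN (B : Type) [NonUnitalNonAssocRing B] : ℕ → Set B
  | 0 => Set.univ
  | k + 1 => {b | ∃ x : B, ∃ y ∈ RN B k, b = x * y}

theorem JJ_le (D : ExtD F K B C) (hA : IsAlt B) (hH : HB B) (k : ℕ) :
    JJ F B (k + 1) ≤ Submodule.span F {b | ∃ p ∈ RN B k, ∃ y : B, b = kap p y} := by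
  induction k with
  | zero =>
    refine Submodule.span_mono ?_
    rintro b ⟨x, y, _, rfl⟩
    exact ⟨x, trivial, y, rfl⟩
  | succ k ih =>
    refine Submodule.span_le.mpr ?_
    rintro b ⟨x, y, hy, rfl⟩
    have hy' := ih hy
    clear hy
    show kap x y ∈ _
    induction hy' using Submodule.span_induction with
    | mem y hy =>
      obtain ⟨p, hp, y, rfl⟩ := hy
      refine Submodule.subset_span ⟨x * p, ⟨x, p, hp, rfl⟩, y, ?_⟩
      rw [kap_mul D hA hH]
    | zero => rw [kap_zero_right]; exact Submodule.zero_mem _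
    | add a a' h1 h2 h3 h4 =>
      rw [kap_add_right]
      exact Submodule.add_mem _ h3 h4
    | smul c a h1 h3 => rw [kap_smul_right]; exact Submodule.smul_mem _ _ h3

/-- the kernel of `kap` -/
def KK (D : ExtD F K B C) (hA : IsAlt B) (hH : HB B) : Submodule F B where
  carrier := {x | ∀ y, kap x y = 0}
  add_mem' := by
    intro a b ha hb y
    rw [kap_add D hA hH, ha, hb, add_zero]
  zero_mem' := kap_zero_left
  smul_mem' := by
    intro c x hx y
    rw [kap_smul, hx, smul_zero]

theorem KK_ideal (D : ExtD F K B C) (hA : IsAlt B) (hH : HB B) :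
    ∀ a ∈ KK (F := F) D hA hH, ∀ b : B, a * b ∈ KK D hA hH ∧ b * a ∈ KK D hA hH := by
  intro a ha b
  refine ⟨fun y => ?_, fun y => ?_⟩
  · rw [kap_mul D hA hH]; exact ha _
  · rw [kap_mul D hA hH, ha y, kap_zero_right]

theorem kap_nil (D : ExtD F K B C) (hA : IsAlt B) (hH : HB B)
    {S : Set (MonoidAlgebra F (FreeMagma ℕ))} (hS : AssNil F S) (hsat : Sat F S B) :
    ∃ n, ∀ p ∈ RN B n, ∀ y, kap p y = 0 := by
  have hP := KK_ideal (F := F) D hA hH
  set P := KK (F := F) D hA hH with hPdef
  letI iR := H67.qRing P hP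
  haveI iT : IsScalarTower F (B ⧸ P) (B ⧸ P) := H67.q_tower P hP
  haveI iC : SMulCommClass F (B ⧸ P) (B ⧸ P) := H67.q_comm P hP
  set π : B →ₙₐ[F] (B ⧸ P) := H67.qmk P hP with hπ
  have hsurj : Function.Surjective π := Submodule.Quotient.mk_surjective P
  have hker : ∀ a, π a = 0 ↔ a ∈ P := fun a => Submodule.Quotient.mk_eq_zero P
  obtain ⟨n, V, hV0, hV, hVn⟩ := hS (B ⧸ P)
    (by
      intro x y
      obtain ⟨a, rfl⟩ := hsurj x
      obtain ⟨b, rfl⟩ := hsurj y
      rw [← map_mul, ← map_mul, ← map_mul, ← map_mul, hA.1])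
    (by
      intro x y
      obtain ⟨a, rfl⟩ := hsurj x
      obtain ⟨b, rfl⟩ := hsurj y
      rw [← map_mul, ← map_mul, ← map_mul, ← map_mul, hA.2])
    (by
      intro f hf φ
      choose a ha using fun i => hsurj (φ i)
      have e : φ = fun i => π (a i) := funext fun i => (ha i).symm
      change H67.ev φ f = 0
      rw [e, ← H67.ev_comp]
      have : H67.ev a f = 0 := hsat f hf a
      rw [this, map_zero])
    (by
      intro x y z
      obtain ⟨a, rfl⟩ := hsurj x
      obtain ⟨b, rfl⟩ := hsurj y
      obtain ⟨c, rfl⟩ := hsurj z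
      rw [← sub_eq_zero, ← map_mul, ← map_mul, ← map_mul, ← map_mul, ← map_sub, hker]
      intro u
      rw [sub_eq_add_neg, negB D, kap_add D hA hH, kap_mul D hA hH, kap_mul D hA hH,
        kap_mul D hA hH, kap_mul D hA hH]
      exact twoB D _)
  refine ⟨n, ?_⟩
  have key : ∀ k, ∀ p ∈ RN B k, π p ∈ V k := by
    intro k
    induction k with
    | zero => intro p _; rw [hV0]; trivial
    | succ k ih =>
      rintro p ⟨x, q, hq, rfl⟩
      rw [map_mul]
      have := hV 0 k (π x) (by rw [hV0]; trivial) (π q) (ih q hq)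
      rwa [Nat.zero_add] at this
  intro p hp
  have h1 := key n p hp
  rw [hVn, Submodule.mem_bot, hker] at h1
  exact h1

/-- the square map is zero -/
theorem kap_zero (D : ExtD F K B C) (hA : IsAlt B) (hH : HB B)
    {S : Set (MonoidAlgebra F (FreeMagma ℕ))} (hS : AssNil F S) (hsat : Sat F S B)
    (hp : TPrime F B) (x y : B) : kap x y = 0 := by
  obtain ⟨n, hn⟩ := kap_nil D hA hH hS hsat
  have h1 : JJ F B (n + 1) = ⊥ := by
    rw [eq_bot_iff]
    refine (JJ_le D hA hH n).trans ?_
    refine Submodule.span_le.mpr ?_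
    rintro b ⟨p, hp, y, rfl⟩
    exact hn p hp y
  have h2 : ∀ k, JJ F B (k + 1) = ⊥ → JJ F B 1 = ⊥ := by
    intro k
    induction k with
    | zero => exact fun h => h
    | succ k ih =>
      intro h
      rcases hp _ _ (JJ_T D hA hH (k + 1)) (JJ_T D hA hH 1) (fun a ha b hb => by
        have := JJ_mul D hA hH (k + 1) a b ha hb
        rw [h] at this
        exact this) with h3 | h3
      · exact ih h3
      · exact h3
  have h3 := h2 n h1
  have h4 : kap x y ∈ JJ F B 1 := Submodule.subset_span ⟨x, y, trivial, rfl⟩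
  rw [h3] at h4
  exact h4

/-- all elements of `B` are null -/
theorem nul_j (D : ExtD F K B C) (hA : IsAlt B) (hH : HB B)
    {S : Set (MonoidAlgebra F (FreeMagma ℕ))} (hS : AssNil F S) (hsat : Sat F S B)
    (hp : TPrime F B) (s : B) : Nul (op D) (D.j s) := by
  have hw0 : D.w ≠ 0 := by
    intro h
    have := D.hw
    rw [h] at this
    simp at this
  have h1 : ∀ y, sg D (D.j s) y = 0 := by
    refine span_ind D (fun b => ?_) (fun x y hx hy => ?_) (fun c x hx => ?_)
    · have h2 := j_kap D hA s b
      rw [kap_zero D hA hH hS hsat hp, j_zero D] at h2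
      exact (smul_eq_zero.1 h2.symm).resolve_left hw0
    · rw [sg_add_right, hx, hy, add_zero]
    · rw [sg_smul_right, hx, smul_zero]
  intro y
  refine ⟨h1 y, ?_⟩
  rw [flex D hA]
  exact h1 y

end

end Pool.Agent.TP.H52
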