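import Pool.Agent.Helper52_TP.Bal
import Pool.Agent.Helper51_TP.Rules

/-!
MP_ce3ba7_al, characteristic 2, PART II: there is no maximal T-prime algebra of characteristic 2
which satisfies the third identity.
-/

set_option autoImplicit false
set_option linter.unusedSectionVars false

namespace Pool.Agent.TP.H52

open H67

section
variable {F K B C : Type} [Field F] [Field K] [NonUnitalNonAssocRing B] [Module F B]
  [NonUnitalNonAssocRing C] [Module K C] [IsScalarTower K C C] [SMulCommClass K C C]

theorem dist12 : ∀ i j : ZMod 3, i ≠ j → ∃ c : ZMod 3, (i = c + 1 ∧ j = c + 2) ∨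
    (i = c + 2 ∧ j = c + 1) := by decide

theorem kl_map_const (c : ZMod 3) (X : Multiset C) :
    kl (X.map fun x => (x, c)) = X.card • al c := by
  induction X using Multiset.induction_on with
  | empty => simp
  | cons x X ih => rw [Multiset.map_cons, kl_cons, ih, Multiset.card_cons, succ_nsmul, add_comm]

theorem kl_sqc (c : ZMod 3) (X : Multiset C) (n : ℕ) (h : X.card = 2 * n) :
    kl (sqc c X) = 0 := by
  unfold sqc
  rw [kl_add, kl_map_const, kl_map_const, h, mul_comm, mul_nsmul, mul_nsmul, two_nsmul, two_nsmul,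
    kk_add, kk_add, add_zero]

theorem kl_let3 (Y : ZMod 3 → Multiset C) (n : ℕ) (h : ∀ d, (Y d).card = n) :
    kl (let3 Y) = 0 := by
  unfold let3
  rw [kl_add, kl_add, kl_map_const, kl_map_const, kl_map_const, h, h, h, ← nsmul_add,
    ← nsmul_add]
  have : al 0 + al 1 + al 2 = 0 := by decide
  rw [this, nsmul_zero]

theorem split_exp (Z : Multiset (C × ZMod 3)) : ∃ Y : ZMod 3 → Multiset C, Z = let3 Y ∧
    ∀ d, (Y d).card = Z.countP fun p => p.2 = d := by
  classical
  refine ⟨fun d => (Z.filter fun p => p.2 = d).map Prod.fst, ?_, fun d => ?_⟩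
  · induction Z using Multiset.induction_on with
    | empty => rfl
    | cons p Z ih =>
      obtain ⟨x, d⟩ := p
      have e : ∀ d' : ZMod 3, ((((x, d) ::ₘ Z).filter fun p => p.2 = d').map Prod.fst) =
          if d = d' then x ::ₘ ((Z.filter fun p => p.2 = d').map Prod.fst) else
            ((Z.filter fun p => p.2 = d').map Prod.fst) := by
        intro d'
        by_cases h : d = d'
        · rw [if_pos h, Multiset.filter_cons_of_pos (p := fun p : C × ZMod 3 => p.2 = d') _ h,
            Multiset.map_cons]
        · rw [if_neg h, Multiset.filter_cons_of_neg (p := fun p : C × ZMod 3 => p.2 = d') _ h]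
      unfold let3 at ih ⊢
      simp only at ih ⊢
      rw [e, e, e]
      conv_lhs => rw [ih]
      rcases z_cases d with rfl | rfl | rfl
      · rw [if_pos rfl, if_neg z01, if_neg z02, Multiset.map_cons]
        simp only [← Multiset.singleton_add]
        abel
      · rw [if_neg z10, if_pos rfl, if_neg z12, Multiset.map_cons]
        simp only [← Multiset.singleton_add]
        abel
      · rw [if_neg z20, if_neg z21, if_pos rfl, Multiset.map_cons]
        simp only [← Multiset.singleton_add]
        abel
  · rw [Multiset.card_map, Multiset.countP_eq_card_filter]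

theorem kl_sumL (m : C → C → C) (L : LW C) (hL : ∀ p ∈ L, Good p.1) : kl (sumL L) =
    kl ((L.map fun p => ((wd m p.1, p.2) : C × ZMod 3) : List (C × ZMod 3)) :
      Multiset (C × ZMod 3)) := by
  induction L with
  | nil => rfl
  | cons p L ih =>
    have h1 : sumL (p :: L) = sh p.2 p.1 + sumL L := by
      unfold sumL; rw [List.map_cons, List.sum_cons]
    rw [h1, kl_add, kl_sh, (hL p (by simp)).1, ro_al, zero_add,
      ih fun q hq => hL q (by simp [hq]), List.map_cons, ← Multiset.cons_coe, kl_cons]

/-- words with many squares vanish -/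
theorem van (D : ExtD F K B C) (hA : IsAlt B) (hH : HB B) (hn : ∀ s, Nul (op D) (D.j s))
    (n : ℕ) (hn1 : 1 ≤ n) (hrel : Rel2 D n) (L : LW C) (hL : ∀ p ∈ L, Sp D p.1)
    (hg : Good (sumL L)) (hc : ∀ d, 3 * (2 * (n - 1)) + n + 1 ≤ cntL d L) :
    wd (op D) (sumL L) = 0 := by
  classical
  have hlen : ∀ d, cntL d L ≤ L.length := fun d => by
    unfold cntL
    exact List.countP_le_length
  by_cases hrep : ∃ p ∈ L, ∃ (s : B) (i : ZMod 3) (R : Multiset (C × ZMod 3)),
      p.1 = (D.j s, i) ::ₘ (D.j s, i) ::ₘ R
  · -- a repeated letter with equal exponents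
    obtain ⟨p, hp, s, i, R, hpR⟩ := hrep
    have h1 := List.perm_cons_erase hp
    have h2 : sumL L = sh p.2 p.1 + sumL (L.erase p) := by
      rw [sumL_perm h1]
      unfold sumL; rw [List.map_cons, List.sum_cons]
    have h3 : (L.erase p).length + 1 = L.length := by
      rw [List.length_erase_of_mem hp]
      have := List.length_pos_of_mem hp
      omega
    obtain ⟨q, hq⟩ : ∃ q, q ∈ L.erase p := by
      have := hlen 0
      have := hc 0
      have h4 : 0 < (L.erase p).length := by omega
      exact List.exists_mem_of_length_pos h4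
    obtain ⟨u, hu, v, hv, huv⟩ := Sp_nc (hL q (List.mem_of_mem_erase hq))
    have h5 : ∀ x ∈ sh q.2 q.1, x ∈ sumL (L.erase p) := by
      intro x hx
      have h6 := List.perm_cons_erase hq
      rw [sumL_perm h6]
      unfold sumL
      rw [List.map_cons, List.sum_cons]
      exact Multiset.mem_add.2 (Or.inl hx)
    rw [h2, hpR, sh_cons, sh_cons, Multiset.cons_add, Multiset.cons_add] at hg ⊢
    refine nul2 (lr D hA hH) (op_zero D) (hn s) hg
      ⟨_, Multiset.mem_add.2 (Or.inr (h5 _ (mem_sh' hu))), _,
        Multiset.mem_add.2 (Or.inr (h5 _ (mem_sh' hv))), fun h => huv (add_right_cancel h)⟩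
  · push Not at hrep
    set m := 3 * (2 * (n - 1)) with hm
    have hty : ∀ p ∈ L.take m, ∃ c, Ty D c p := by
      intro p hp
      have hpL := List.mem_of_mem_take hp
      obtain ⟨_, s, hs⟩ := hL p hpL
      obtain ⟨i, j, R, hR⟩ := exists_two hs
      have hij : i ≠ j := by
        rintro rfl
        exact hrep p hpL s i R hR
      have hij' : i + p.2 ≠ j + p.2 := fun h => hij (add_right_cancel h)
      obtain ⟨c, hc1 | hc1⟩ := dist12 _ _ hij'
      · refine ⟨c, s, sh p.2 R, ?_⟩
        rw [hR, sh_cons, sh_cons]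
        simp only
        rw [hc1.1, hc1.2]
      · refine ⟨c, s, sh p.2 R, ?_⟩
        rw [hR, sh_cons, sh_cons]
        simp only
        rw [hc1.1, hc1.2, Multiset.cons_swap]
    have hm2 : m ≤ L.length := by
      have := hlen 0
      have := hc 0
      omega
    obtain ⟨c, L1, L2, hperm, hL1, hL1c⟩ := pigeon (Ty D) (2 * (n - 1)) (L.take m) hty (by
      rw [List.length_take]; omega)
    obtain ⟨X, R0, hX1, hX2, hX3⟩ := Ty_sum D c L1 hL1c
    have hsum : sumL L = (sqc c X + R0 + sumL L2) + sumL (L.drop m) := by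
      conv_lhs => rw [← List.take_append_drop m L]
      rw [sumL_append, sumL_perm hperm, sumL_append, hX3]
    -- regroup the rest
    set L3 := L.drop m with hL3
    have hL3m : ∀ p ∈ L3, Sp D p.1 := fun p hp => hL p (List.mem_of_mem_drop hp)
    have hc3 : ∀ d, n + 1 ≤ cntL d L3 := by
      intro d
      have h1 := hc d
      have h2 : cntL d L = cntL d (L.take m) + cntL d L3 := by
        rw [hL3, ← cntL_append, List.take_append_drop]
      have h3 : cntL d (L.take m) ≤ m := by
        unfold cntL
        refine le_trans List.countP_le_length ?_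
        rw [List.length_take]; omega
      omega
    set Z : Multiset (C × ZMod 3) :=
      ((L3.map fun p => ((wd (op D) p.1, p.2) : C × ZMod 3) : List (C × ZMod 3)) :
        Multiset (C × ZMod 3)) with hZ
    have hZc : ∀ d, (Z.countP fun p => p.2 = d) = cntL d L3 := by
      intro d
      rw [hZ, Multiset.coe_countP, List.countP_map]
      unfold cntL
      exact List.countP_congr fun p _ => Iff.rfl
    obtain ⟨Y, hY1, hY2⟩ := split_exp Z
    choose Y1 Y2 hYs hYc using fun d => exists_split (Y d) n (by
      rw [hY2, hZc]; have := hc3 d; omega)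
    have hY2pos : ∀ d, ∃ y, y ∈ Y2 d := by
      intro d
      have h1 : (Y d).card = (Y1 d).card + (Y2 d).card := by
        rw [← Multiset.card_add, ← hYs d]
      rw [hY2, hZc, hYc] at h1
      have := hc3 d
      exact Multiset.card_pos_iff_exists_mem.1 (by omega)
    have hlet : let3 Y = let3 Y1 + let3 Y2 := by
      unfold let3
      conv_lhs => rw [hYs 0, hYs 1, hYs 2]
      simp only [Multiset.map_add]
      abel
    -- Klein weights
    have hklL3 : kl (sumL L3) = kl Z := kl_sumL (op D) L3 fun p hp => (hL3m p hp).1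
    have hXn : ∀ x ∈ X, Nul (op D) x := by
      intro x hx
      obtain ⟨s, rfl⟩ := hX2 x hx
      exact hn s
    have hXc : X.card = 2 * (n - 1) := by rw [hX1, hL1]
    have hnc2 : ∀ V : Multiset (C × ZMod 3), ∃ p ∈ V + let3 Y2, ∃ q ∈ V + let3 Y2,
        p.2 ≠ q.2 := by
      intro V
      obtain ⟨y0, hy0⟩ := hY2pos 0
      obtain ⟨y1, hy1⟩ := hY2pos 1
      refine ⟨(y0, 0), ?_, (y1, 1), ?_, z01⟩
      · unfold let3
        simp only [Multiset.mem_add]
        right; left; left
        exact Multiset.mem_map_of_mem _ hy0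
      · unfold let3
        simp only [Multiset.mem_add]
        right; left; right
        exact Multiset.mem_map_of_mem _ hy1
    have hgZ : Good ((sqc c X + R0 + sumL L2) + Z) := by
      refine ⟨?_, Or.inr ?_⟩
      · rw [kl_add, ← hklL3, ← kl_add, ← hsum]
        exact hg.1
      · rw [hY1, hlet, ← add_assoc]
        exact hnc2 _
    obtain ⟨_, h7⟩ := wd_subs (lr D hA hH) L3 (fun p hp => (hL3m p hp).1)
      (sqc c X + R0 + sumL L2) hgZ
    have h8 : (L3.map fun p => sh p.2 p.1).sum = sumL L3 := rfl
    rw [h8, ← hsum] at h7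
    rw [h7]
    -- the rest is one letter
    set U := (R0 + sumL L2) + let3 Y2 with hU
    set s' := sqc c X + let3 Y1 with hs'
    have e1 : (sqc c X + R0 + sumL L2) + Z = sh 0 U + s' := by
      rw [sh_0, hU, hs', hY1, hlet]
      abel
    have hks' : kl s' = 0 := by
      rw [hs', kl_add, kl_sqc c X (n - 1) hXc, kl_let3 Y1 n hYc, add_zero]
    have hgU : Good U := by
      refine ⟨?_, Or.inr (hnc2 _)⟩
      have h9 := hgZ.1
      rw [e1, kl_add, hks', add_zero, sh_0] at h9
      exact h9
    have hgs : Good ((wd (op D) U, 0) ::ₘ s') := by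
      refine ⟨by rw [kl_cons, hks', add_zero], Or.inr ?_⟩
      obtain ⟨y1, hy1⟩ : ∃ y, y ∈ Y1 1 := by
        have := hYc 1
        exact Multiset.card_pos_iff_exists_mem.1 (by omega)
      refine ⟨(wd (op D) U, 0), Multiset.mem_cons_self _ _, (y1, 1), ?_, z01⟩
      rw [hs']
      unfold let3
      simp only [Multiset.mem_cons, Multiset.mem_add]
      right; right; left; right
      exact Multiset.mem_map_of_mem _ hy1
    obtain ⟨_, h10⟩ := wd_sub (lr D hA hH) hgs hgU rfl
    have h11 := hrel c X Y1 (wd (op D) U) hXc hXn hYc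
    show wd (op D) ((sqc c X + R0 + sumL L2) + Z) = 0
    rw [e1, h10]
    exact h11

/-- large balanced words vanish -/
theorem PP_van (D : ExtD F K B C) (hA : IsAlt B) (hH : HB B) (hn : ∀ s, Nul (op D) (D.j s))
    (n : ℕ) (hn1 : 1 ≤ n) (hrel : Rel2 D n) (x : C)
    (hx : x ∈ PP D ((3 * (2 * (n - 1)) + n + 1) + 2)) : x = 0 := by
  unfold PP at hx
  induction hx using Submodule.span_induction with
  | mem x hx =>
    obtain ⟨L, hL, rfl⟩ := hx
    refine van D hA hH hn n hn1 hrel L (BL_mem _ L hL) (BL_good (fun _ h => h.1) _ L hL)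
      fun d => ?_
    exact le_trans (Nat.lt_two_pow_self).le (BL_cnt _ d L hL)
  | zero => rfl
  | add b b' _ _ h3 h4 => rw [h3, h4, add_zero]
  | smul c b _ h3 => rw [h3, smul_zero]

variable [IsScalarTower F B B] [SMulCommClass F B B]

/-- squares do not all vanish -/
theorem Sq0_ne (D : ExtD F K B C) {S : Set (MonoidAlgebra F (FreeMagma ℕ))} (hS : AssNil F S)
    {x : ℕ → B} (h : MaxAlg F S B x) : Sq0 F B ≠ ⊥ := by
  intro h0
  have hA := h.alt
  have hsq : ∀ a : B, a * a = 0 := by
    intro a
    have : a * a ∈ Sq0 F B := Submodule.subset_span (SqP.sq a)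
    rwa [h0, Submodule.mem_bot] at this
  have hcomm : ∀ a b : B, a * b = b * a := by
    intro a b
    have h1 := hsq (a + b)
    rw [mul_add, add_mul, add_mul, hsq a, hsq b, zero_add, add_zero] at h1
    have h2 : b * a = -(a * b) := eq_neg_of_add_eq_zero_left h1
    rw [h2, negB D]
  have h3 : ∀ a b c : B, a * (b * c) = b * (a * c) := by
    intro a b c
    have h1 := sa1B hA a b c
    rw [hcomm b a, twoB D] at h1
    have h2 : a * (b * c) = -(b * (a * c)) := eq_neg_of_add_eq_zero_left h1.symm
    rw [h2, negB D]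
  obtain ⟨a, b, c, hne⟩ := (rules F S hS B x h.rel h.alt h.sat h.prime h.nsol).nonassoc
  apply hne
  unfold asc
  rw [sub_eq_zero, hcomm (a * b) c, h3 c a b, hcomm c b]

/-- PART II, with an extension -/
theorem part2_ext (D : ExtD F K B C) {S : Set (MonoidAlgebra F (FreeMagma ℕ))}
    (hS : AssNil F S) {x : ℕ → B} (h : MaxAlg F S B x) (hH : HB B) : False := by
  have hA := h.alt
  have hn := fun s => nul_j D hA hH hS h.sat h.prime s
  have h0 := Sq0_ne D hS h
  obtain ⟨A, T, c, hT, hc, hB⟩ := exists_ml D hA hH hn hS h h0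
  obtain ⟨p, hp0, hps, hpE⟩ := exists_word D hA hH A T c hT hc hB
  obtain ⟨a0, ha0, hr⟩ := rel D hA hH A p hp0 hps hpE
  have hrel := rel2 D A a0 ha0 hr
  have hn1 : 1 ≤ A.card := Finset.card_pos.2 ⟨a0, ha0⟩
  obtain ⟨n0, hn0⟩ := h.max (Sq0 F B) Sq0_T h0
  set k := (3 * (2 * (A.card - 1)) + A.card + 1) + 2 with hk
  have h1 : FreeMagma.lift (fun i => FreeMagma.lift x (dd n0 (i * 2 ^ n0))) (dd k 0) = 0 := by
    apply D.j_inj
    apply PP_van D hA hH hn A.card hn1 hrel
    refine PP_dd D hA hH _ (fun i => ?_) k 0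
    have h2 := hn0 fun j => x (i * 2 ^ n0 + j)
    have h3 : FreeMagma.lift (fun j => x (i * 2 ^ n0 + j)) (dd n0 0) =
        FreeMagma.lift x (dd n0 (i * 2 ^ n0)) :=
      lift_dd n0 0 _ _ _ fun j _ => by rw [Nat.zero_add]
    rwa [h3] at h2
  rw [lift_dd_dd] at h1
  exact h.nd _ _ h1

end

/-- PART II: a maximal T-prime algebra of characteristic 2 does not satisfy the third
identity. -/
theorem part2 {F : Type} [Field F] (h2 : (2 : F) = 0) {S : Set (MonoidAlgebra F (FreeMagma ℕ))}
    (hS : AssNil F S) {B : Type} [NonUnitalNonAssocRing B] [Module F B] [IsScalarTower F B B]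
    [SMulCommClass F B B] {x : ℕ → B} (h : MaxAlg F S B x) (hH : HB B) : False := by
  let K := AlgebraicClosure F
  have h2K : (2 : K) = 0 := by
    have := congrArg (algebraMap F K) h2
    rwa [map_zero, map_ofNat] at this
  obtain ⟨w, hw⟩ : ∃ w : K, w * w = w + 1 := by
    obtain ⟨w, hw⟩ := IsAlgClosed.exists_root
      (Polynomial.X ^ 2 + Polynomial.X + 1 : Polynomial K) (by
        have : (Polynomial.X ^ 2 + Polynomial.X + 1 : Polynomial K).degree = 2 := by
          compute_degree!
        rw [this]
        decide)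
    refine ⟨w, ?_⟩
    simp only [Polynomial.IsRoot.def, Polynomial.eval_add, Polynomial.eval_pow,
      Polynomial.eval_X, Polynomial.eval_one] at hw
    linear_combination hw - (w + 1) * h2K
  have hinj : Function.Injective (TensorProduct.mk F K B 1) :=
    Module.FaithfullyFlat.tensorProduct_mk_injective B
  let D : ExtD F K B (TensorProduct F K B) :=
    { i := algebraMap F K
      j := fun b => (1 : K) ⊗ₜ[F] b
      j_add := fun a b => TensorProduct.tmul_add _ _ _
      j_mul := fun a b => by
        rw [Algebra.TensorProduct.tmul_mul_tmul, one_mul]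
      j_smul := fun c b => by
        rw [TensorProduct.tmul_smul, algebraMap_smul]
      j_inj := fun b hb => hinj (by
        show (1 : K) ⊗ₜ[F] b = (1 : K) ⊗ₜ[F] (0 : B)
        rw [TensorProduct.tmul_zero]
        exact hb)
      span := by
        rw [eq_top_iff]
        rintro z -
        induction z using TensorProduct.induction_on with
        | zero => exact Submodule.zero_mem _
        | tmul k b =>
          have : k ⊗ₜ[F] b = k • ((1 : K) ⊗ₜ[F] b) := by
            rw [TensorProduct.smul_tmul', smul_eq_mul, mul_one]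
          rw [this]
          exact Submodule.smul_mem _ _ (Submodule.subset_span ⟨b, rfl⟩)
        | add a b ha hb => exact Submodule.add_mem _ ha hb
      w := w
      hw := hw
      h2 := h2K }
  exact part2_ext D hS h hH

end Pool.Agent.TP.H52
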