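import Pool.Agent.Helper52_TP.Words

/-!
MP_ce3ba7_al, characteristic 2: which multisets of pairs (leaf, exponent) come from trees.
-/

set_option autoImplicit false

namespace Pool.Agent.TP.H52

variable {ι : Type}

/-- Klein weight of an exponent -/
def al (c : ZMod 3) : ZMod 2 × ZMod 2 := if c = 0 then (1, 1) else if c = 1 then (1, 0) else (0, 1)

/-- rotation of Klein weights -/
def ro (c : ZMod 3) (v : ZMod 2 × ZMod 2) : ZMod 2 × ZMod 2 :=
  if c = 0 then v else if c = 1 then (v.2, v.1 + v.2) else (v.1 + v.2, v.1)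

theorem ro_al : ∀ c d : ZMod 3, ro c (al d) = al (d + c) := by decide

theorem ro_zero : ∀ c : ZMod 3, ro c 0 = 0 := by decide

theorem ro_add (c : ZMod 3) (v w : ZMod 2 × ZMod 2) : ro c (v + w) = ro c v + ro c w := by
  revert c v w; decide

/-- Klein weight of a multiset -/
def kl (s : Multiset (ι × ZMod 3)) : ZMod 2 × ZMod 2 := (s.map fun p => al p.2).sum

@[simp] theorem kl_zero : kl (0 : Multiset (ι × ZMod 3)) = 0 := rfl

@[simp] theorem kl_cons (p : ι × ZMod 3) (s : Multiset (ι × ZMod 3)) :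
    kl (p ::ₘ s) = al p.2 + kl s := by
  unfold kl; rw [Multiset.map_cons, Multiset.sum_cons]

@[simp] theorem kl_add (s t : Multiset (ι × ZMod 3)) : kl (s + t) = kl s + kl t := by
  unfold kl; rw [Multiset.map_add, Multiset.sum_add]

@[simp] theorem kl_singleton (p : ι × ZMod 3) : kl {p} = al p.2 := by
  unfold kl; rw [Multiset.map_singleton, Multiset.sum_singleton]

theorem kl_sh (k : ZMod 3) (s : Multiset (ι × ZMod 3)) : kl (sh k s) = ro k (kl s) := by
  induction s using Multiset.induction_on with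
  | empty => rw [sh_zero', kl_zero, ro_zero]
  | cons p s ih => rw [sh_cons, kl_cons, kl_cons, ih, ro_add, ro_al]

/-- the multisets of trees -/
def Good (s : Multiset (ι × ZMod 3)) : Prop :=
  kl s = al 0 ∧ (s.card = 1 ∨ ∃ p ∈ s, ∃ q ∈ s, p.2 ≠ q.2)

theorem kl_E (T : Tr ι) : kl T.E = al 0 := by
  induction T with
  | lf i => simp [Tr.E]
  | nd a b ha hb =>
    simp only [Tr.E, kl_add, kl_sh, ha, hb]
    decide

theorem good_E (T : Tr ι) : Good T.E := by
  refine ⟨kl_E T, ?_⟩
  have h1 := card_pos T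
  rcases Nat.lt_or_ge 1 T.E.card with h | h
  · right
    obtain ⟨p, hp, _⟩ := not_all 0 T h
    obtain ⟨q, hq, hqp⟩ := not_all p.2 T h
    exact ⟨p, hp, q, hq, fun h => hqp h.symm⟩
  · left; omega

theorem exists_cons2 {α : Type} {s : Multiset α} {p q : α} (hp : p ∈ s) (hq : q ∈ s)
    (hpq : p ≠ q) : ∃ r, s = p ::ₘ q ::ₘ r := by
  obtain ⟨t, rfl⟩ := Multiset.exists_cons_of_mem hp
  have : q ∈ t := by
    rcases Multiset.mem_cons.1 hq with h | h
    · exact absurd h.symm hpq
    · exact h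
  obtain ⟨r, rfl⟩ := Multiset.exists_cons_of_mem this
  exact ⟨r, rfl⟩

theorem exists_tri {s : Multiset (ι × ZMod 3)} (hs : Good s) (hc : 3 ≤ s.card) :
    ∃ p p' q r, s = p ::ₘ p' ::ₘ q ::ₘ r ∧ p.2 = p'.2 ∧ p.2 ≠ q.2 := by
  obtain ⟨hk, h1 | ⟨p, hp, q, hq, hpq⟩⟩ := hs
  · omega
  obtain ⟨r, rfl⟩ := exists_cons2 hp hq (fun h => hpq (by rw [h]))
  obtain ⟨x, r', rfl⟩ : ∃ x r', r = x ::ₘ r' := by
    have : r ≠ 0 := by
      intro h
      rw [h] at hc
      simp at hc
    obtain ⟨x, hx⟩ := Multiset.exists_mem_of_ne_zero this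
    obtain ⟨t, rfl⟩ := Multiset.exists_cons_of_mem hx
    exact ⟨x, t, rfl⟩
  by_cases h1 : x.2 = p.2
  · exact ⟨p, x, q, r', by rw [Multiset.cons_swap q x], h1.symm, hpq⟩
  by_cases h2 : x.2 = q.2
  · refine ⟨q, x, p, r', ?_, h2.symm, fun h => hpq h.symm⟩
    rw [Multiset.cons_swap p q, Multiset.cons_swap p x]
  have hr' : r' ≠ 0 := by
    intro h
    subst h
    simp only [kl_cons, kl_zero] at hk
    have : ∀ a b c : ZMod 3, a ≠ b → c ≠ a → c ≠ b → al a + (al b + (al c + 0)) ≠ al 0 := by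
      decide
    exact this _ _ _ hpq h1 h2 hk
  obtain ⟨y, hy⟩ := Multiset.exists_mem_of_ne_zero hr'
  obtain ⟨t, rfl⟩ := Multiset.exists_cons_of_mem hy
  have h3 : y.2 = p.2 ∨ y.2 = q.2 ∨ y.2 = x.2 := by
    have : ∀ a b c d : ZMod 3, a ≠ b → c ≠ a → c ≠ b → d = a ∨ d = b ∨ d = c := by decide
    exact this _ _ _ _ hpq h1 h2
  rcases h3 with h3 | h3 | h3
  · refine ⟨p, y, q, x ::ₘ t, ?_, h3.symm, hpq⟩
    rw [Multiset.cons_swap x y, Multiset.cons_swap q y]
  · refine ⟨q, y, p, x ::ₘ t, ?_, h3.symm, fun h => hpq h.symm⟩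
    rw [Multiset.cons_swap x y, Multiset.cons_swap p q, Multiset.cons_swap p y]
  · refine ⟨x, y, p, q ::ₘ t, ?_, h3.symm, h1⟩
    rw [Multiset.cons_swap q x, Multiset.cons_swap p x, Multiset.cons_swap q y,
      Multiset.cons_swap p y]

/-- exponents of a multiset of trees -/
def sE (s : Multiset (Tr ι × ZMod 3)) : Multiset (ι × ZMod 3) := s.bind fun p => sh p.2 p.1.E

theorem sE_cons (p : Tr ι × ZMod 3) (s : Multiset (Tr ι × ZMod 3)) :
    sE (p ::ₘ s) = sh p.2 p.1.E + sE s := Multiset.cons_bind _ _ _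

theorem sE_zero : sE (0 : Multiset (Tr ι × ZMod 3)) = 0 := rfl

theorem merge {p q : Tr ι × ZMod 3} (h : p.2 ≠ q.2) : ∃ z : Tr ι × ZMod 3,
    sh z.2 z.1.E = sh p.2 p.1.E + sh q.2 q.1.E ∧ al z.2 = al p.2 + al q.2 ∧ z.2 ≠ p.2 ∧
      z.2 ≠ q.2 := by
  have h1 : q.2 = p.2 + 1 ∨ p.2 = q.2 + 1 := by
    revert h
    generalize p.2 = a
    generalize q.2 = b
    revert a b
    decide
  rcases h1 with h1 | h1
  · refine ⟨(.nd p.1 q.1, p.2 + 2), ?_, ?_, ?_, ?_⟩
    · simp only [Tr.E, sh_add, sh_sh, h1]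
      have e1 : (1 : ZMod 3) + (p.2 + 2) = p.2 := by
        generalize p.2 = a
        revert a
        decide
      have e2 : (2 : ZMod 3) + (p.2 + 2) = p.2 + 1 := by
        generalize p.2 = a
        revert a
        decide
      rw [e1, e2]
    · rw [h1]
      simp only
      generalize p.2 = a
      revert a
      decide
    · simp only
      generalize p.2 = a
      revert a
      decide
    · rw [h1]
      simp only
      generalize p.2 = a
      revert a
      decide
  · refine ⟨(.nd q.1 p.1, q.2 + 2), ?_, ?_, ?_, ?_⟩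
    · simp only [Tr.E, sh_add, sh_sh, h1]
      have e1 : (1 : ZMod 3) + (q.2 + 2) = q.2 := by
        generalize q.2 = a
        revert a
        decide
      have e2 : (2 : ZMod 3) + (q.2 + 2) = q.2 + 1 := by
        generalize q.2 = a
        revert a
        decide
      rw [e1, e2, add_comm]
    · rw [h1]
      simp only
      generalize q.2 = a
      revert a
      decide
    · rw [h1]
      simp only
      generalize q.2 = a
      revert a
      decide
    · simp only
      generalize q.2 = a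
      revert a
      decide

theorem real_aux : ∀ (n : ℕ) (s : Multiset (Tr ι × ZMod 3)), s.card = n → Good s →
    ∃ T : Tr ι, T.E = sE s := by
  intro n
  induction n with
  | zero =>
    intro s hn hs
    rw [Multiset.card_eq_zero] at hn
    subst hn
    obtain ⟨hk, _⟩ := hs
    rw [kl_zero] at hk
    exact absurd hk (by decide)
  | succ n ih =>
    intro s hn hs
    rcases Nat.lt_or_ge n 1 with h0 | h0
    · -- one letter
      obtain rfl : n = 0 := by omega
      obtain ⟨p, rfl⟩ := Multiset.card_eq_one.1 hn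
      have hk := hs.1
      rw [kl_singleton] at hk
      have hp : p.2 = 0 := by
        have : ∀ c : ZMod 3, al c = al 0 → c = 0 := by decide
        exact this _ hk
      refine ⟨p.1, ?_⟩
      unfold sE
      rw [Multiset.singleton_bind, hp, sh_0]
    rcases Nat.lt_or_ge n 2 with h1 | h1
    · -- two letters
      obtain rfl : n = 1 := by omega
      obtain ⟨p, q, rfl⟩ := Multiset.card_eq_two.1 hn
      have hpq : p.2 ≠ q.2 := by
        intro h
        have hk := hs.1
        have e : ({p, q} : Multiset (Tr ι × ZMod 3)) = p ::ₘ q ::ₘ 0 := rfl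
        rw [e, kl_cons, kl_cons, kl_zero, h] at hk
        have : ∀ c : ZMod 3, al c + (al c + 0) ≠ al 0 := by decide
        exact this _ hk
      obtain ⟨z, hz1, hz2, _, _⟩ := merge hpq
      have e : ({p, q} : Multiset (Tr ι × ZMod 3)) = p ::ₘ q ::ₘ 0 := rfl
      obtain ⟨T, hT⟩ := ih {z} (Multiset.card_singleton z) ⟨by
        have hk := hs.1
        rw [e, kl_cons, kl_cons, kl_zero, add_zero] at hk
        rw [kl_singleton, hz2, hk], Or.inl (Multiset.card_singleton z)⟩
      refine ⟨T, ?_⟩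
      rw [hT, e, sE_cons, sE_cons, sE_zero, add_zero, ← hz1]
      unfold sE
      rw [Multiset.singleton_bind]
    · obtain ⟨p, p', q, r, rfl, h2, h3⟩ := exists_tri hs (by omega)
      obtain ⟨z, hz1, hz2, hz3, hz4⟩ := merge h3
      obtain ⟨T, hT⟩ := ih (z ::ₘ p' ::ₘ r) (by simp at hn ⊢; omega) ⟨by
        have hk := hs.1
        rw [kl_cons, kl_cons, kl_cons] at hk
        rw [kl_cons, kl_cons, hz2, ← hk]
        abel, Or.inr ⟨z, Multiset.mem_cons_self _ _, p', by simp, by rw [← h2]; exact hz3⟩⟩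
      refine ⟨T, ?_⟩
      rw [hT, sE_cons, sE_cons, sE_cons, sE_cons, sE_cons, hz1]
      abel

/-- REALIZATION -/
theorem real {s : Multiset (ι × ZMod 3)} (hs : Good s) : ∃ T : Tr ι, T.E = s := by
  obtain ⟨T, hT⟩ := real_aux (s.map fun p => (Tr.lf p.1, p.2)).card
    (s.map fun p => (Tr.lf p.1, p.2)) rfl (by
      refine ⟨?_, ?_⟩
      · rw [← hs.1]
        unfold kl
        rw [Multiset.map_map]
        rfl
      · rcases hs.2 with h | ⟨p, hp, q, hq, h⟩
        · left; rw [Multiset.card_map, h]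
        · right
          exact ⟨(Tr.lf p.1, p.2), Multiset.mem_map_of_mem _ hp, (Tr.lf q.1, q.2),
            Multiset.mem_map_of_mem _ hq, h⟩)
  refine ⟨T, ?_⟩
  rw [hT]
  unfold sE
  rw [Multiset.bind_map]
  simp only [Tr.E, sh_singleton, zero_add]
  induction s using Multiset.induction_on with
  | empty => rfl
  | cons p s _ =>
    rw [Multiset.bind_singleton (p ::ₘ s) (fun a : ι × ZMod 3 => (a.1, a.2))]
    simp

end Pool.Agent.TP.H52
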