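import Pool.Agent.Helper52_TP.Exp

/-!
MP_ce3ba7_al, characteristic 2: words with many squares of one type vanish.
-/

set_option autoImplicit false
set_option linter.unusedSectionVars false

namespace Pool.Agent.TP.H52

open H67

theorem z_b1 : ∀ c d : ZMod 3, c + 1 + (d + 1) = c + 2 + d := by decide

theorem z_b2 : ∀ c d : ZMod 3, c + 2 + (d + 2) = c + 1 + d := by decide

theorem z_cases : ∀ t : ZMod 3, t = 0 ∨ t = 1 ∨ t = 2 := by decide

theorem kl_sum {ι X : Type} (A : Finset ι) (f : ι → Multiset (X × ZMod 3)) :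
    kl (∑ a ∈ A, f a) = ∑ a ∈ A, kl (f a) := by
  let H : Multiset (X × ZMod 3) →+ (ZMod 2 × ZMod 2) := ⟨⟨kl, kl_zero⟩, kl_add⟩
  exact map_sum H f A

theorem sh_sum {ι X : Type} (k : ZMod 3) (A : Finset ι) (f : ι → Multiset (X × ZMod 3)) :
    sh k (∑ a ∈ A, f a) = ∑ a ∈ A, sh k (f a) := by
  let H : Multiset (X × ZMod 3) →+ Multiset (X × ZMod 3) := ⟨⟨sh k, sh_zero' k⟩, sh_add k⟩
  exact map_sum H f A

theorem exists_fun : ∀ (A : Finset ℕ) (s : Multiset (ℕ × ZMod 3)), s.map Prod.fst = A.val →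
    ∃ v : ℕ → ZMod 3, s = A.val.map fun a => (a, v a) := by
  classical
  intro A
  induction A using Finset.induction_on with
  | empty =>
    intro s hs
    rw [Finset.empty_val, Multiset.map_eq_zero] at hs
    exact ⟨fun _ => 0, by rw [hs]; rfl⟩
  | insert a A ha ih =>
    intro s hs
    rw [Finset.insert_val_of_notMem ha] at hs
    have h1 : a ∈ s.map Prod.fst := by rw [hs]; exact Multiset.mem_cons_self _ _
    obtain ⟨p, hp, hpa⟩ := Multiset.mem_map.1 h1
    obtain ⟨s', rfl⟩ := Multiset.exists_cons_of_mem hp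
    rw [Multiset.map_cons, hpa, Multiset.cons_inj_right] at hs
    obtain ⟨v, hv⟩ := ih s' hs
    refine ⟨Function.update v a p.2, ?_⟩
    rw [Finset.insert_val_of_notMem ha, Multiset.map_cons, Function.update_self, hv]
    congr 1
    · rw [← hpa]
    · refine Multiset.map_congr rfl fun b hb => ?_
      have : b ≠ a := by rintro rfl; exact ha hb
      rw [Function.update_of_ne this]

section
variable {C : Type}

/-- three letters with the three exponents -/
def tri (r : ZMod 3 → C) : Multiset (C × ZMod 3) := (r 0, 0) ::ₘ (r 1, 1) ::ₘ (r 2, 2) ::ₘ 0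

open Classical in
/-- first part of a triple -/
noncomputable def rest (c v : ZMod 3) (r : ZMod 3 → C) : Multiset (C × ZMod 3) :=
  if v = c then 0 else (r c, c) ::ₘ (r v, v) ::ₘ 0

open Classical in
/-- second part of a triple -/
noncomputable def rest' (c v : ZMod 3) (r : ZMod 3 → C) : Multiset (C × ZMod 3) :=
  if v = c then tri r else (r (-c - v), -c - v) ::ₘ 0

theorem rest_add (c v : ZMod 3) (r : ZMod 3 → C) : rest c v r + rest' c v r = tri r := by
  have e1 : (-0 - 1 : ZMod 3) = 2 := by decide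
  have e2 : (-0 - 2 : ZMod 3) = 1 := by decide
  have e3 : (-1 - 0 : ZMod 3) = 2 := by decide
  have e4 : (-1 - 2 : ZMod 3) = 0 := by decide
  have e5 : (-2 - 0 : ZMod 3) = 1 := by decide
  have e6 : (-2 - 1 : ZMod 3) = 0 := by decide
  unfold rest rest' tri
  rcases z_cases c with rfl | rfl | rfl <;> rcases z_cases v with rfl | rfl | rfl
  · rw [if_pos rfl, if_pos rfl, zero_add]
  · rw [if_neg z10, if_neg z10, e1]
    simp only [← Multiset.singleton_add, add_zero]
    abel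
  · rw [if_neg z20, if_neg z20, e2]
    simp only [← Multiset.singleton_add, add_zero]
    abel
  · rw [if_neg z01, if_neg z01, e3]
    simp only [← Multiset.singleton_add, add_zero]
    abel
  · rw [if_pos rfl, if_pos rfl, zero_add]
  · rw [if_neg z21, if_neg z21, e4]
    simp only [← Multiset.singleton_add, add_zero]
    abel
  · rw [if_neg z02, if_neg z02, e5]
    simp only [← Multiset.singleton_add, add_zero]
    abel
  · rw [if_neg z12, if_neg z12, e6]
    simp only [← Multiset.singleton_add, add_zero]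
    abel
  · rw [if_pos rfl, if_pos rfl, zero_add]

theorem kl_tri (r : ZMod 3 → C) : kl (tri r) = 0 := by
  unfold tri
  simp only [kl_cons, kl_zero]
  decide

theorem kl_rest (c v : ZMod 3) (r : ZMod 3 → C) : kl (rest c v r) = al c + al v := by
  unfold rest
  by_cases h : v = c
  · rw [if_pos h, kl_zero, h, al_al]
  · rw [if_neg h]
    simp only [kl_cons, kl_zero, add_zero]

theorem kl_rest' (c v : ZMod 3) (r : ZMod 3 → C) : kl (rest' c v r) = al c + al v := by
  unfold rest'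
  by_cases h : v = c
  · rw [if_pos h, kl_tri, h, al_al]
  · rw [if_neg h]
    simp only [kl_cons, kl_zero, add_zero]
    revert h
    revert c v
    decide

open Classical in
/-- blocks -/
noncomputable def Vb (A : Finset ℕ) (a0 : ℕ) (c : ZMod 3) (v : ℕ → ZMod 3) (e : C)
    (r : ℕ → ZMod 3 → C) (t t' : ℕ → C) (a : ℕ) : Multiset (C × ZMod 3) :=
  if a = a0 then (e, 0) ::ₘ (tri (r a0) + ∑ b ∈ A.erase a0,
    ((t b, c + 1) ::ₘ (t' b, c + 2) ::ₘ rest' c (v b) (r b)))
  else (t a, c + 2) ::ₘ (t' a, c + 1) ::ₘ rest c (v a) (r a)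

theorem al12 : ∀ c : ZMod 3, al (c + 1) + al (c + 2) = al c := by decide

theorem al_inj : ∀ c d : ZMod 3, al c = al d → c = d := by decide

theorem kk_add (v : ZMod 2 × ZMod 2) : v + v = 0 := by revert v; decide

theorem kl_Vb (A : Finset ℕ) (a0 : ℕ) (ha0 : a0 ∈ A) (c : ZMod 3) (v : ℕ → ZMod 3) (e : C)
    (r : ℕ → ZMod 3 → C) (t t' : ℕ → C) (hv : ∑ a ∈ A, al (v a) = al 0) (a : ℕ) :
    kl (Vb A a0 c v e r t t' a) = al (v a) := by
  classical
  unfold Vb
  by_cases h : a = a0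
  · subst h
    rw [if_pos rfl, kl_cons, kl_add, kl_tri, zero_add, kl_sum]
    have h1 : ∀ b ∈ A.erase a, kl ((t b, c + 1) ::ₘ (t' b, c + 2) ::ₘ rest' c (v b) (r b)) =
        al (v b) := by
      intro b _
      rw [kl_cons, kl_cons, kl_rest', ← add_assoc, al12, ← add_assoc, al_al, zero_add]
    rw [Finset.sum_congr rfl h1]
    simp only
    rw [← hv, ← Finset.add_sum_erase A _ ha0, add_assoc, kk_add, add_zero]
  · rw [if_neg h, kl_cons, kl_cons, kl_rest, ← add_assoc]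
    simp only
    rw [add_comm (al (c + 2)), al12, ← add_assoc, al_al, zero_add]

theorem nc_Vb (A : Finset ℕ) (a0 : ℕ) (c : ZMod 3) (v : ℕ → ZMod 3) (e : C)
    (r : ℕ → ZMod 3 → C) (t t' : ℕ → C) (a : ℕ) :
    ∃ p ∈ Vb A a0 c v e r t t' a, ∃ q ∈ Vb A a0 c v e r t t' a, p.2 ≠ q.2 := by
  classical
  unfold Vb
  by_cases h : a = a0
  · rw [if_pos h]
    refine ⟨(r a0 0, 0), ?_, (r a0 1, 1), ?_, z01'⟩
    · unfold tri; simp
    · unfold tri; simp
  · rw [if_neg h]
    refine ⟨(t a, c + 2), by simp, (t' a, c + 1), by simp, ?_⟩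
    simp only
    intro h2
    exact z21 (add_left_cancel h2)
  where z01' : (0 : ZMod 3) ≠ 1 := by decide

theorem good_Vb (A : Finset ℕ) (a0 : ℕ) (ha0 : a0 ∈ A) (c : ZMod 3) (v : ℕ → ZMod 3) (e : C)
    (r : ℕ → ZMod 3 → C) (t t' : ℕ → C) (hv : ∑ a ∈ A, al (v a) = al 0) (a : ℕ) :
    Good (sh (-(v a)) (Vb A a0 c v e r t t' a)) := by
  refine ⟨?_, Or.inr ?_⟩
  · rw [kl_sh, kl_Vb A a0 ha0 c v e r t t' hv, ro_al, add_neg_cancel]
  · obtain ⟨p, hp, q, hq, hpq⟩ := nc_Vb A a0 c v e r t t' a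
    exact ⟨_, mem_sh' hp, _, mem_sh' hq, fun h => hpq (add_right_cancel h)⟩

end

section
variable {F K B C : Type} [Field F] [Field K] [NonUnitalNonAssocRing B] [Module F B]
  [NonUnitalNonAssocRing C] [Module K C] [IsScalarTower K C C] [SMulCommClass K C C]

/-- killing of the words with a wrong rotation -/
theorem kill (D : ExtD F K B C) (hA : IsAlt B) (hH : HB B) (A : Finset ℕ) (a0 : ℕ) (ha0 : a0 ∈ A)
    (c : ZMod 3) (v : ℕ → ZMod 3) (e : C) (r : ℕ → ZMod 3 → C) (t t' : ℕ → C)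
    (ht : ∀ a, Nul (op D) (t a)) (ht' : ∀ a, Nul (op D) (t' a)) (δ : ℕ → ZMod 3)
    (hg : Good (∑ a ∈ A, sh (δ a) (Vb A a0 c v e r t t' a))) (a : ℕ) (ha : a ∈ A.erase a0)
    (hδ : δ a ≠ δ a0) : wd (op D) (∑ a ∈ A, sh (δ a) (Vb A a0 c v e r t t' a)) = 0 := by
  classical
  have e0 : Vb A a0 c v e r t t' a0 = (e, 0) ::ₘ (tri (r a0) +
      (((t a, c + 1) ::ₘ (t' a, c + 2) ::ₘ rest' c (v a) (r a)) + ∑ b ∈ (A.erase a0).erase a,
      ((t b, c + 1) ::ₘ (t' b, c + 2) ::ₘ rest' c (v b) (r b)))) := by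
    unfold Vb
    rw [if_pos rfl, Finset.add_sum_erase (A.erase a0)
      (fun b => (t b, c + 1) ::ₘ (t' b, c + 2) ::ₘ rest' c (v b) (r b)) ha]
  have e1 : Vb A a0 c v e r t t' a = (t a, c + 2) ::ₘ (t' a, c + 1) ::ₘ rest c (v a) (r a) := by
    unfold Vb
    rw [if_neg (Finset.ne_of_mem_erase ha)]
  have e2 : ∑ a ∈ A, sh (δ a) (Vb A a0 c v e r t t' a) =
      sh (δ a0) (Vb A a0 c v e r t t' a0) + (sh (δ a) (Vb A a0 c v e r t t' a) +
        ∑ b ∈ (A.erase a0).erase a, sh (δ b) (Vb A a0 c v e r t t' b)) := by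
    rw [Finset.add_sum_erase (A.erase a0) (fun b => sh (δ b) (Vb A a0 c v e r t t' b)) ha,
      Finset.add_sum_erase A (fun b => sh (δ b) (Vb A a0 c v e r t t' b)) ha0]
  rw [e2, e0, e1] at hg ⊢
  generalize ∑ b ∈ (A.erase a0).erase a, sh (δ b) (Vb A a0 c v e r t t' b) = R1 at *
  generalize ∑ b ∈ (A.erase a0).erase a,
      ((t b, c + 1) ::ₘ (t' b, c + 2) ::ₘ rest' c (v b) (r b)) = R2 at *
  generalize rest' c (v a) (r a) = R3 at *
  generalize rest c (v a) (r a) = R4 at *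
  have hnc : ∀ R : Multiset (C × ZMod 3), ∃ p ∈ sh (δ a0) (tri (r a0)) + R,
      ∃ q ∈ sh (δ a0) (tri (r a0)) + R, p.2 ≠ q.2 := by
    intro R
    refine ⟨(r a0 0, 0 + δ a0), ?_, (r a0 1, 1 + δ a0), ?_, ?_⟩
    · unfold tri; simp
    · unfold tri; simp
    · simp only
      intro h2
      exact z01 (by
        have := add_right_cancel h2
        exact absurd this (by decide))
  simp only [sh_add, sh_cons] at hg ⊢
  have h3 : ∀ x y : ZMod 3, x ≠ y → y = x + 1 ∨ y = x + 2 := by decide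
  rcases h3 _ _ hδ with h4 | h4
  · have e3 : c + 1 + δ a0 = c + 2 + δ a := by
      rw [h4]
      exact z_b1 c (δ a)
    have e4 : ((e, 0 + δ a0) ::ₘ (sh (δ a0) (tri (r a0)) + ((t a, c + 1 + δ a0) ::ₘ
        (t' a, c + 2 + δ a0) ::ₘ sh (δ a0) R3 + sh (δ a0) R2)) + ((t a, c + 2 + δ a) ::ₘ
        (t' a, c + 1 + δ a) ::ₘ sh (δ a) R4 + R1)) = (t a, c + 2 + δ a) ::ₘ
        (t a, c + 2 + δ a) ::ₘ (sh (δ a0) (tri (r a0)) + ((e, 0 + δ a0) ::ₘ
        ((t' a, c + 2 + δ a0) ::ₘ sh (δ a0) R3 + sh (δ a0) R2) + ((t' a, c + 1 + δ a) ::ₘ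
        sh (δ a) R4 + R1))) := by
      rw [e3]
      simp only [← Multiset.singleton_add]
      abel
    rw [e4] at hg ⊢
    exact nul2 (lr D hA hH) (op_zero D) (ht a) hg (hnc _)
  · have e3 : c + 2 + δ a0 = c + 1 + δ a := by
      rw [h4]
      exact z_b2 c (δ a)
    have e4 : ((e, 0 + δ a0) ::ₘ (sh (δ a0) (tri (r a0)) + ((t a, c + 1 + δ a0) ::ₘ
        (t' a, c + 2 + δ a0) ::ₘ sh (δ a0) R3 + sh (δ a0) R2)) + ((t a, c + 2 + δ a) ::ₘ
        (t' a, c + 1 + δ a) ::ₘ sh (δ a) R4 + R1)) = (t' a, c + 1 + δ a) ::ₘ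
        (t' a, c + 1 + δ a) ::ₘ (sh (δ a0) (tri (r a0)) + ((e, 0 + δ a0) ::ₘ
        ((t a, c + 1 + δ a0) ::ₘ sh (δ a0) R3 + sh (δ a0) R2) + ((t a, c + 2 + δ a) ::ₘ
        sh (δ a) R4 + R1))) := by
      rw [e3]
      simp only [← Multiset.singleton_add]
      abel
    rw [e4] at hg ⊢
    exact nul2 (lr D hA hH) (op_zero D) (ht' a) hg (hnc _)

theorem V_sum (A : Finset ℕ) (a0 : ℕ) (ha0 : a0 ∈ A) (c : ZMod 3) (v : ℕ → ZMod 3) (e : C)
    (r : ℕ → ZMod 3 → C) (t t' : ℕ → C) :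
    ∑ a ∈ A, Vb A a0 c v e r t t' a = (e, 0) ::ₘ (∑ a ∈ A, tri (r a) + ∑ a ∈ A.erase a0,
      ((t a, c + 1) ::ₘ (t a, c + 2) ::ₘ (t' a, c + 1) ::ₘ (t' a, c + 2) ::ₘ 0)) := by
  classical
  rw [← Finset.add_sum_erase A _ ha0]
  have h1 : Vb A a0 c v e r t t' a0 = (e, 0) ::ₘ (tri (r a0) + ∑ b ∈ A.erase a0,
    ((t b, c + 1) ::ₘ (t' b, c + 2) ::ₘ rest' c (v b) (r b))) := by
      unfold Vb; rw [if_pos rfl]
  have h2 : ∀ a ∈ A.erase a0, Vb A a0 c v e r t t' a =
      (t a, c + 2) ::ₘ (t' a, c + 1) ::ₘ rest c (v a) (r a) := by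
    intro a ha
    unfold Vb
    rw [if_neg (Finset.ne_of_mem_erase ha)]
  rw [Finset.sum_congr rfl h2, h1, ← Finset.add_sum_erase A (fun a => tri (r a)) ha0]
  have h3 : ∑ b ∈ A.erase a0, ((t b, c + 1) ::ₘ (t' b, c + 2) ::ₘ rest' c (v b) (r b)) +
      ∑ b ∈ A.erase a0, ((t b, c + 2) ::ₘ (t' b, c + 1) ::ₘ rest c (v b) (r b)) =
      ∑ b ∈ A.erase a0, tri (r b) + ∑ a ∈ A.erase a0,
      ((t a, c + 1) ::ₘ (t a, c + 2) ::ₘ (t' a, c + 1) ::ₘ (t' a, c + 2) ::ₘ 0) := by
    rw [← Finset.sum_add_distrib, ← Finset.sum_add_distrib]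
    refine Finset.sum_congr rfl fun b _ => ?_
    rw [← rest_add c (v b) (r b)]
    simp only [← Multiset.singleton_add, add_zero]
    abel
  rw [Multiset.cons_add, add_assoc (tri (r a0)), h3, add_assoc (tri (r a0))]

/-- RELATION -/
theorem rel (D : ExtD F K B C) (hA : IsAlt B) (hH : HB B) (A : Finset ℕ)
    (p : Multiset (ℕ × ZMod 3) →₀ K) (hp0 : p ≠ 0)
    (hps : ∀ s ∈ p.support, Good s ∧ s.map Prod.fst = A.val)
    (hpE : ∀ y : ℕ → C, Ev D y p = 0) : ∃ a0 ∈ A, ∀ (c : ZMod 3) (e : C)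
      (r : ℕ → ZMod 3 → C) (t t' : ℕ → C), (∀ a, Nul (op D) (t a)) →
      (∀ a, Nul (op D) (t' a)) → wd (op D) ((e, 0) ::ₘ (∑ a ∈ A, tri (r a) +
        ∑ a ∈ A.erase a0, ((t a, c + 1) ::ₘ (t a, c + 2) ::ₘ (t' a, c + 1) ::ₘ
          (t' a, c + 2) ::ₘ 0))) = 0 := by
  classical
  obtain ⟨s0, hs0⟩ := Finsupp.support_nonempty_iff.2 hp0
  obtain ⟨hg0, hl0⟩ := hps s0 hs0
  obtain ⟨v, hv⟩ := exists_fun A s0 hl0
  have hkl : ∑ a ∈ A, al (v a) = al 0 := by
    have h1 := hg0.1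
    rw [hv] at h1
    unfold kl at h1
    rw [Multiset.map_map] at h1
    exact h1
  obtain ⟨a0, ha0⟩ : A.Nonempty := by
    rw [Finset.nonempty_iff_ne_empty]
    rintro rfl
    rw [Finset.sum_empty] at hkl
    exact absurd hkl (by decide)
  refine ⟨a0, ha0, fun c e r t t' ht ht' => ?_⟩
  set y : ℕ → C := fun a => wd (op D) (sh (-(v a)) (Vb A a0 c v e r t t' a)) with hy
  have hgood := good_Vb A a0 ha0 c v e r t t' hkl
  -- words of the relation
  have key : ∀ u : ℕ → ZMod 3, Good (A.val.map fun a => (a, u a)) →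
      Good (∑ a ∈ A, sh (u a - v a) (Vb A a0 c v e r t t' a)) ∧
      wd (op D) (lb y (A.val.map fun a => (a, u a))) =
        wd (op D) (∑ a ∈ A, sh (u a - v a) (Vb A a0 c v e r t t' a)) := by
    intro u hu
    have h1 := wd_subs (lr D hA hH)
      (A.toList.map fun a => (sh (-(v a)) (Vb A a0 c v e r t t' a), u a))
      (by
        intro q hq
        obtain ⟨a, _, rfl⟩ := List.mem_map.1 hq
        exact hgood a) 0
    have h2 : (((A.toList.map fun a => (sh (-(v a)) (Vb A a0 c v e r t t' a), u a)).map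
        fun q => ((wd (op D) q.1, q.2) : C × ZMod 3) : List (C × ZMod 3)) :
        Multiset (C × ZMod 3)) = lb y (A.val.map fun a => (a, u a)) := by
      rw [List.map_map, ← Multiset.map_coe]
      unfold lb
      rw [Multiset.map_map, Finset.coe_toList]
      rfl
    have h3 : ((A.toList.map fun a => (sh (-(v a)) (Vb A a0 c v e r t t' a), u a)).map
        fun q => sh q.2 q.1).sum = ∑ a ∈ A, sh (u a - v a) (Vb A a0 c v e r t t' a) := by
      rw [List.map_map, Finset.sum, ← Finset.coe_toList, Multiset.map_coe, Multiset.sum_coe]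
      congr 1
      refine List.map_congr_left fun a _ => ?_
      show sh (u a) (sh (-(v a)) (Vb A a0 c v e r t t' a)) = _
      rw [sh_sh, neg_add_eq_sub]
    rw [h2, h3, zero_add, zero_add] at h1
    obtain ⟨h4, h5⟩ := h1 (good_lb y hu)
    exact ⟨h4, h5.symm⟩
  -- wrong rotations
  have hkill : ∀ s ∈ p.support, s ≠ s0 → wd (op D) (lb y s) = 0 := by
    intro s hs hss
    obtain ⟨hg1, hl1⟩ := hps s hs
    obtain ⟨u, hu⟩ := exists_fun A s hl1
    rw [hu] at hg1 ⊢
    obtain ⟨h1, h2⟩ := key u hg1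
    rw [h2]
    have h3 : ∃ a ∈ A.erase a0, u a - v a ≠ u a0 - v a0 := by
      by_contra hcon
      push Not at hcon
      apply hss
      have h4 : ∀ a ∈ A, u a = v a + (u a0 - v a0) := by
        intro a ha
        by_cases h5 : a = a0
        · subst h5; ring
        · have := hcon a (Finset.mem_erase.2 ⟨h5, ha⟩)
          rw [← this]; ring
      have h6 : ∑ a ∈ A, al (u a) = al 0 := by
        have h1 := hg1.1
        unfold kl at h1
        rw [Multiset.map_map] at h1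
        exact h1
      have h7 : ∑ a ∈ A, al (u a) = ro (u a0 - v a0) (∑ a ∈ A, al (v a)) := by
        let H : (ZMod 2 × ZMod 2) →+ (ZMod 2 × ZMod 2) :=
          ⟨⟨ro (u a0 - v a0), ro_zero _⟩, ro_add _⟩
        have h8 : ro (u a0 - v a0) (∑ a ∈ A, al (v a)) =
            ∑ a ∈ A, ro (u a0 - v a0) (al (v a)) := map_sum H _ _
        rw [h8]
        refine Finset.sum_congr rfl fun a ha => ?_
        rw [ro_al, ← h4 a ha]
      rw [h6, hkl, ro_al, zero_add] at h7
      have h9 := al_inj _ _ h7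
      rw [hu, hv]
      refine Multiset.map_congr rfl fun a ha => ?_
      rw [h4 a ha, ← h9, add_zero]
    obtain ⟨a, ha, hne⟩ := h3
    exact kill D hA hH A a0 ha0 c v e r t t' ht ht' (fun a => u a - v a) h1 a ha hne
  -- conclusion
  have h1 := hpE y
  have h2 : Ev D y p = p.sum fun s a => a • wd (op D) (lb y s) :=
    Finsupp.linearCombination_apply _ _
  rw [h2, Finsupp.sum, Finset.sum_eq_single s0] at h1
  · rcases smul_eq_zero.1 h1 with h3 | h3
    · exact absurd h3 (Finsupp.mem_support_iff.1 hs0)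
    · rw [hv] at h3 hg0
      obtain ⟨_, h5⟩ := key v hg0
      rw [h5] at h3
      simp only [sub_self, sh_0] at h3
      rw [V_sum A a0 ha0] at h3
      exact h3
  · intro s hs hss
    rw [hkill s hs hss, smul_zero]
  · intro h
    exact absurd hs0 h

end

end Pool.Agent.TP.H52
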