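import Pool.Agent.Helper52_TP.Real

/-!
MP_ce3ba7_al, characteristic 2: values of multisets in a magma with `(xy)z = (zy)x` and
`x(yz) = z(yx)`.
-/

set_option autoImplicit false

namespace Pool.Agent.TP.H52

variable {M : Type}

/-- value of a multiset of pairs (element, exponent) -/
noncomputable def wd [Zero M] (m : M → M → M) (s : Multiset (M × ZMod 3)) : M :=
  open Classical in if h : ∃ T : Tr M, T.E = s then (h.choose).ev m id else 0

theorem wd_E [Zero M] {m : M → M → M} (hm : LR m) (T : Tr M) : wd m T.E = T.ev m id := by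
  have h : ∃ T' : Tr M, T'.E = T.E := ⟨T, rfl⟩
  unfold wd
  rw [dif_pos h]
  exact ev_eq m hm id _ _ _ rfl h.choose_spec

theorem wd_one [Zero M] {m : M → M → M} (hm : LR m) (z : M) : wd m {(z, 0)} = z :=
  wd_E hm (Tr.lf z)

theorem good_mul {ι : Type} {s t : Multiset (ι × ZMod 3)} (hs : Good s) (ht : Good t) :
    Good (sh 1 s + sh 2 t) := by
  obtain ⟨T, rfl⟩ := real hs
  obtain ⟨U, rfl⟩ := real ht
  exact good_E (Tr.nd T U)

theorem wd_mul [Zero M] {m : M → M → M} (hm : LR m) {s t : Multiset (M × ZMod 3)} (hs : Good s)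
    (ht : Good t) : m (wd m s) (wd m t) = wd m (sh 1 s + sh 2 t) := by
  obtain ⟨T, rfl⟩ := real hs
  obtain ⟨U, rfl⟩ := real ht
  rw [wd_E hm, wd_E hm]
  exact (wd_E hm (Tr.nd T U)).symm

/-- replacing a leaf by a tree -/
theorem repl (m : M → M → M) (T' : Tr M) : ∀ (T : Tr M) (c : ZMod 3) (s : Multiset (M × ZMod 3)),
    T.E = (T'.ev m id, c) ::ₘ s → ∃ U : Tr M, U.E = sh c T'.E + s ∧ U.ev m id = T.ev m id := by
  intro T
  induction T with
  | lf i =>
    intro c s h
    have h1 : ({(i, 0)} : Multiset (M × ZMod 3)) = (T'.ev m id, c) ::ₘ s := h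
    rw [Multiset.singleton_eq_cons_iff] at h1
    obtain ⟨h2, h3⟩ := h1
    obtain ⟨h4, h5⟩ := Prod.ext_iff.1 h2
    simp only at h4 h5
    subst h3 h5
    refine ⟨T', by rw [sh_0, add_zero], ?_⟩
    rw [← h4]
    rfl
  | nd a b iha ihb =>
    intro c s h
    have hmem : (T'.ev m id, c) ∈ sh 1 a.E + sh 2 b.E := by
      have : (T'.ev m id, c) ∈ (Tr.nd a b).E := by rw [h]; exact Multiset.mem_cons_self _ _
      exact this
    rcases Multiset.mem_add.1 hmem with h1 | h1
    · have h2 := mem_sh h1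
      obtain ⟨r, hr⟩ := Multiset.exists_cons_of_mem h2
      obtain ⟨U, hU1, hU2⟩ := iha _ _ hr
      refine ⟨Tr.nd U b, ?_, ?_⟩
      · have hs : s = sh 1 r + sh 2 b.E := by
          have h3 : sh 1 a.E + sh 2 b.E = (T'.ev m id, c) ::ₘ s := h
          rw [hr, sh_cons, Multiset.cons_add] at h3
          simp only [sub_add_cancel] at h3
          exact ((Multiset.cons_inj_right _).1 h3).symm
        simp only [Tr.E]
        rw [hU1, sh_add, sh_sh, sub_add_cancel, hs, add_assoc]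
      · simp only [Tr.ev]; rw [hU2]
    · have h2 := mem_sh h1
      obtain ⟨r, hr⟩ := Multiset.exists_cons_of_mem h2
      obtain ⟨U, hU1, hU2⟩ := ihb _ _ hr
      refine ⟨Tr.nd a U, ?_, ?_⟩
      · have hs : s = sh 1 a.E + sh 2 r := by
          have h3 : sh 1 a.E + sh 2 b.E = (T'.ev m id, c) ::ₘ s := h
          rw [hr, sh_cons, Multiset.add_cons] at h3
          simp only [sub_add_cancel] at h3
          exact ((Multiset.cons_inj_right _).1 h3).symm
        simp only [Tr.E]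
        rw [hU1, sh_add, sh_sh, sub_add_cancel, hs, add_left_comm]
      · simp only [Tr.ev]; rw [hU2]

/-- substitution -/
theorem wd_sub [Zero M] {m : M → M → M} (hm : LR m) {z : M} {c : ZMod 3}
    {s t : Multiset (M × ZMod 3)} (hs : Good ((z, c) ::ₘ s)) (ht : Good t) (hz : wd m t = z) :
    Good (sh c t + s) ∧ wd m (sh c t + s) = wd m ((z, c) ::ₘ s) := by
  obtain ⟨T, hT⟩ := real hs
  obtain ⟨T', rfl⟩ := real ht
  rw [wd_E hm] at hz
  obtain ⟨U, hU1, hU2⟩ := repl m T' T c s (by rw [hz]; exact hT)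
  rw [← hU1, ← hT]
  exact ⟨good_E U, by rw [wd_E hm, wd_E hm, hU2]⟩

/-- simultaneous substitution -/
theorem wd_subs [Zero M] {m : M → M → M} (hm : LR m) (L : List (Multiset (M × ZMod 3) × ZMod 3))
    (hL : ∀ p ∈ L, Good p.1) : ∀ s : Multiset (M × ZMod 3),
    Good (s + ((L.map fun p => ((wd m p.1, p.2) : M × ZMod 3) : List (M × ZMod 3)) :
      Multiset (M × ZMod 3))) →
    Good (s + (L.map fun p => sh p.2 p.1).sum) ∧ wd m (s + (L.map fun p => sh p.2 p.1).sum) =
      wd m (s + ((L.map fun p => ((wd m p.1, p.2) : M × ZMod 3) : List (M × ZMod 3)) :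
        Multiset (M × ZMod 3))) := by
  induction L with
  | nil =>
    intro s hs
    simpa using hs
  | cons p L ih =>
    intro s hs
    have hp := hL p (by simp)
    have hL' : ∀ p ∈ L, Good p.1 := fun q hq => hL q (by simp [hq])
    rw [List.map_cons, ← Multiset.cons_coe, Multiset.add_cons] at hs
    have h1 := wd_sub hm hs hp rfl
    have e : sh p.2 p.1 + (s + ((L.map fun p => ((wd m p.1, p.2) : M × ZMod 3) :
        List (M × ZMod 3)) : Multiset (M × ZMod 3))) = (s + sh p.2 p.1) + ((L.map fun p =>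
        ((wd m p.1, p.2) : M × ZMod 3) : List (M × ZMod 3)) : Multiset (M × ZMod 3)) := by
      rw [← add_assoc, add_comm (sh p.2 p.1) s]
    rw [e] at h1
    obtain ⟨h2, h3⟩ := ih hL' _ h1.1
    rw [List.map_cons, List.sum_cons, ← add_assoc]
    refine ⟨h2, ?_⟩
    rw [h3, h1.2, List.map_cons, ← Multiset.cons_coe, Multiset.add_cons]

/-- trees with a zero leaf -/
theorem ev_zero [Zero M] {m : M → M → M} (h0 : ∀ x, m 0 x = 0 ∧ m x 0 = 0) :
    ∀ (T : Tr M) (c : ZMod 3), (0, c) ∈ T.E → T.ev m id = 0 := by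
  intro T
  induction T with
  | lf i =>
    intro c h
    have h1 : ((0 : M), c) ∈ ({(i, 0)} : Multiset (M × ZMod 3)) := h
    rw [Multiset.mem_singleton] at h1
    exact (Prod.ext_iff.1 h1).1.symm
  | nd a b iha ihb =>
    intro c h
    have h1 : ((0 : M), c) ∈ sh 1 a.E + sh 2 b.E := h
    simp only [Tr.ev]
    rcases Multiset.mem_add.1 h1 with h1 | h1
    · rw [iha _ (mem_sh h1)]; exact (h0 _).1
    · rw [ihb _ (mem_sh h1)]; exact (h0 _).2

theorem wd_zero [Zero M] {m : M → M → M} (hm : LR m) (h0 : ∀ x, m 0 x = 0 ∧ m x 0 = 0)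
    {c : ZMod 3} {s : Multiset (M × ZMod 3)} (hs : Good ((0, c) ::ₘ s)) :
    wd m ((0, c) ::ₘ s) = 0 := by
  obtain ⟨T, hT⟩ := real hs
  rw [← hT, wd_E hm]
  exact ev_zero h0 T c (by rw [hT]; exact Multiset.mem_cons_self _ _)

theorem al_al : ∀ i : ZMod 3, al i + al i = 0 := by decide
theorem z_dich : ∀ i j : ZMod 3, i ≠ j → i = j + 1 ∨ i = j + 2 := by decide
theorem z_a1 : ∀ j : ZMod 3, 1 + 2 + j = j := by decide
theorem z_a2 : ∀ j : ZMod 3, 2 + 2 + j = j + 1 := by decide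
theorem z_a3 : ∀ j : ZMod 3, 1 + 1 + j = j + 2 := by decide
theorem z_a4 : ∀ j : ZMod 3, 2 + 1 + j = j := by decide
theorem kl_four : ∀ i j : ZMod 3, al i + (al i + (al j + (al j + 0))) ≠ al 0 := by decide

/-- null elements -/
def Nul [Zero M] (m : M → M → M) (s : M) : Prop := ∀ y, m s (m y s) = 0 ∧ m (m s y) s = 0

theorem nul2 [Zero M] {m : M → M → M} (hm : LR m) (h0 : ∀ x, m 0 x = 0 ∧ m x 0 = 0) {s : M}
    (hs : Nul m s) {i : ZMod 3} {W : Multiset (M × ZMod 3)} (hW : Good ((s, i) ::ₘ (s, i) ::ₘ W))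
    (hn : ∃ p ∈ W, ∃ q ∈ W, p.2 ≠ q.2) : wd m ((s, i) ::ₘ (s, i) ::ₘ W) = 0 := by
  obtain ⟨p, hp, q, hq, hpq⟩ := hn
  -- a partner with a different exponent
  obtain ⟨y, j, W', hyj, hji⟩ : ∃ (y : M) (j : ZMod 3) (W' : Multiset (M × ZMod 3)),
      W = (y, j) ::ₘ W' ∧ i ≠ j := by
    by_cases h : p.2 = i
    · obtain ⟨W', hW'⟩ := Multiset.exists_cons_of_mem hq
      exact ⟨q.1, q.2, W', hW', by rw [← h]; exact hpq⟩
    · obtain ⟨W', hW'⟩ := Multiset.exists_cons_of_mem hp
      exact ⟨p.1, p.2, W', hW', fun h' => h h'.symm⟩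
  have hkl : al i + al i = 0 := al_al i
  have hgood : ∀ z : M, Good ((z, j) ::ₘ W') := by
    intro z
    refine ⟨?_, Or.inr ?_⟩
    · have h1 := hW.1
      rw [kl_cons, kl_cons, hyj, kl_cons, ← add_assoc, hkl, zero_add] at h1
      rw [kl_cons]
      exact h1
    · rw [hyj] at hp hq
      rcases Multiset.mem_cons.1 hp with h1 | h1 <;> rcases Multiset.mem_cons.1 hq with h2 | h2
      · exact absurd (by rw [h1, h2]) hpq
      · exact ⟨(z, j), Multiset.mem_cons_self _ _, q, Multiset.mem_cons_of_mem h2,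
          by rw [h1] at hpq; exact hpq⟩
      · exact ⟨p, Multiset.mem_cons_of_mem h1, (z, j), Multiset.mem_cons_self _ _,
          by rw [h2] at hpq; exact hpq⟩
      · exact ⟨p, Multiset.mem_cons_of_mem h1, q, Multiset.mem_cons_of_mem h2, hpq⟩
  have hij : i = j + 1 ∨ i = j + 2 := z_dich i j hji
  subst hyj
  rcases hij with rfl | rfl
  · have h1 := wd_sub hm (hgood (m s (m y s))) (good_E (Tr.nd (Tr.lf s) (Tr.nd (Tr.lf y)
      (Tr.lf s)))) (wd_E hm _)
    have e : sh j (Tr.nd (Tr.lf s) (Tr.nd (Tr.lf y) (Tr.lf s))).E + W' =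
        (s, j + 1) ::ₘ (s, j + 1) ::ₘ (y, j) ::ₘ W' := by
      simp only [Tr.E, sh_add, sh_singleton, zero_add]
      have e1 : (1 : ZMod 3) + 2 + j = j := z_a1 j
      have e2 : (2 : ZMod 3) + 2 + j = j + 1 := z_a2 j
      have e3 : (1 : ZMod 3) + j = j + 1 := add_comm _ _
      rw [e1, e2, e3]
      simp only [← Multiset.singleton_add]
      abel
    rw [e, (hs y).1, wd_zero hm h0 (hgood 0)] at h1
    exact h1.2
  · have h1 := wd_sub hm (hgood (m (m s y) s)) (good_E (Tr.nd (Tr.nd (Tr.lf s) (Tr.lf y))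
      (Tr.lf s))) (wd_E hm _)
    have e : sh j (Tr.nd (Tr.nd (Tr.lf s) (Tr.lf y)) (Tr.lf s)).E + W' =
        (s, j + 2) ::ₘ (s, j + 2) ::ₘ (y, j) ::ₘ W' := by
      simp only [Tr.E, sh_add, sh_singleton, zero_add]
      have e1 : (1 : ZMod 3) + 1 + j = j + 2 := z_a3 j
      have e2 : (2 : ZMod 3) + 1 + j = j := z_a4 j
      have e3 : (2 : ZMod 3) + j = j + 2 := add_comm _ _
      rw [e1, e2, e3]
      simp only [← Multiset.singleton_add]
      abel
    rw [e, (hs y).2, wd_zero hm h0 (hgood 0)] at h1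
    exact h1.2

/-- number of occurrences of a label -/
noncomputable def cn (s : M) (W : Multiset (M × ZMod 3)) : ℕ :=
  open Classical in (W.filter fun p => p.1 = s).card

@[simp] theorem cn_add (s : M) (W V : Multiset (M × ZMod 3)) : cn s (W + V) = cn s W + cn s V := by
  unfold cn; rw [Multiset.filter_add, Multiset.card_add]

@[simp] theorem cn_sh (s : M) (k : ZMod 3) (W : Multiset (M × ZMod 3)) :
    cn s (sh k W) = cn s W := by
  classical
  unfold cn sh
  rw [Multiset.filter_map, Multiset.card_map]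
  congr 1

theorem exists_pair {s : M} {W : Multiset (M × ZMod 3)} (h : 4 ≤ cn s W) :
    ∃ (i : ZMod 3) (W' : Multiset (M × ZMod 3)), W = (s, i) ::ₘ (s, i) ::ₘ W' ∧
      2 ≤ cn s W' := by
  classical
  have h1 : ¬ ((W.filter fun p => p.1 = s).map Prod.snd).Nodup := by
    intro hnd
    have h2 := Multiset.toFinset_card_of_nodup hnd
    have h3 := Finset.card_le_univ ((W.filter fun p => p.1 = s).map Prod.snd).toFinset
    rw [h2, Multiset.card_map, ZMod.card] at h3
    have h4 : (W.filter fun p => p.1 = s).card = cn s W := by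
      unfold cn
      congr
    omega
  rw [Multiset.nodup_iff_le] at h1
  push Not at h1
  obtain ⟨i, hi⟩ := h1
  obtain ⟨r, hr⟩ := Multiset.le_iff_exists_add.1 hi
  -- the two preimages
  have h5 : i ∈ (W.filter fun p => p.1 = s).map Prod.snd := by
    rw [hr]; simp
  obtain ⟨p, hp, hpi⟩ := Multiset.mem_map.1 h5
  have hp2 := Multiset.mem_filter.1 hp
  have hpe : p = (s, i) := Prod.ext hp2.2 hpi
  obtain ⟨W1, hW1⟩ := Multiset.exists_cons_of_mem hp2.1
  rw [hpe] at hW1
  have h6 : (W.filter fun p => p.1 = s) = (s, i) ::ₘ (W1.filter fun p => p.1 = s) := by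
    rw [hW1, Multiset.filter_cons_of_pos (p := fun p : M × ZMod 3 => p.1 = s) _ rfl]
  rw [h6, Multiset.map_cons] at hr
  have h7 : (W1.filter fun p => p.1 = s).map Prod.snd = i ::ₘ (0 + r) := by
    have : (i ::ₘ i ::ₘ (0 : Multiset (ZMod 3))) + r = i ::ₘ (i ::ₘ (0 + r)) := by
      rw [Multiset.cons_add, Multiset.cons_add]
    rw [this] at hr
    exact (Multiset.cons_inj_right _).1 hr
  have h8 : i ∈ (W1.filter fun p => p.1 = s).map Prod.snd := by
    rw [h7]; exact Multiset.mem_cons_self _ _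
  obtain ⟨q, hq, hqi⟩ := Multiset.mem_map.1 h8
  have hq2 := Multiset.mem_filter.1 hq
  have hqe : q = (s, i) := Prod.ext hq2.2 hqi
  obtain ⟨W2, hW2⟩ := Multiset.exists_cons_of_mem hq2.1
  rw [hqe] at hW2
  refine ⟨i, W2, by rw [hW1, hW2], ?_⟩
  rw [hW1, hW2] at h
  have e : ∀ V : Multiset (M × ZMod 3), cn s ((s, i) ::ₘ V) = cn s V + 1 := by
    intro V
    unfold cn
    rw [Multiset.filter_cons_of_pos (p := fun p : M × ZMod 3 => p.1 = s) _ rfl, Multiset.card_cons]
  rw [e, e] at h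
  omega

theorem exists_of_cn {s : M} {W : Multiset (M × ZMod 3)} (h : 1 ≤ cn s W) :
    ∃ (i : ZMod 3) (W' : Multiset (M × ZMod 3)), W = (s, i) ::ₘ W' ∧ cn s W = cn s W' + 1 := by
  classical
  have h1 : (W.filter fun p => p.1 = s) ≠ 0 := by
    intro h0
    have : cn s W = (W.filter fun p => p.1 = s).card := by
      unfold cn
      congr
    rw [this, h0] at h
    simp at h
  obtain ⟨p, hp⟩ := Multiset.exists_mem_of_ne_zero h1
  have hp2 := Multiset.mem_filter.1 hp
  obtain ⟨W1, hW1⟩ := Multiset.exists_cons_of_mem hp2.1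
  have hpe : p = (s, p.2) := Prod.ext hp2.2 rfl
  rw [hpe] at hW1
  refine ⟨p.2, W1, hW1, ?_⟩
  rw [hW1]
  unfold cn
  rw [Multiset.filter_cons_of_pos (p := fun p : M × ZMod 3 => p.1 = s) _ rfl, Multiset.card_cons]

/-- null elements occurring four times -/
theorem nul4 [Zero M] {m : M → M → M} (hm : LR m) (h0 : ∀ x, m 0 x = 0 ∧ m x 0 = 0) {s : M}
    (hs : Nul m s) {W : Multiset (M × ZMod 3)} (hW : Good W) (h : 4 ≤ cn s W) : wd m W = 0 := by
  obtain ⟨i, W', rfl, h2⟩ := exists_pair h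
  by_cases hn : ∃ p ∈ W', ∃ q ∈ W', p.2 ≠ q.2
  · exact nul2 hm h0 hs hW hn
  push Not at hn
  obtain ⟨j, W1, rfl, h3⟩ := exists_of_cn (s := s) (W := W') (by omega)
  obtain ⟨j', W2, rfl, h4⟩ := exists_of_cn (s := s) (W := W1) (by omega)
  have hjj : j' = j := by
    have := hn (s, j') (by simp) (s, j) (by simp)
    exact this
  subst hjj
  have hij : i ≠ j' := by
    intro hij
    rcases hW.2 with h5 | ⟨p, hp, q, hq, hpq⟩
    · simp at h5
    · apply hpq
      have key : ∀ p ∈ (s, i) ::ₘ (s, i) ::ₘ (s, j') ::ₘ (s, j') ::ₘ W2, p.2 = j' := by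
        intro p hp
        rcases Multiset.mem_cons.1 hp with h | hp
        · rw [h]; exact hij
        rcases Multiset.mem_cons.1 hp with h | hp
        · rw [h]; exact hij
        · exact hn p hp (s, j') (by simp)
      rw [key p hp, key q hq]
  obtain ⟨x, W3, rfl⟩ : ∃ x W3, W2 = x ::ₘ W3 := by
    have : W2 ≠ 0 := by
      intro h5
      subst h5
      have h6 := hW.1
      simp only [kl_cons, kl_zero] at h6
      exact kl_four i j' h6
    obtain ⟨x, hx⟩ := Multiset.exists_mem_of_ne_zero this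
    obtain ⟨t, rfl⟩ := Multiset.exists_cons_of_mem hx
    exact ⟨x, t, rfl⟩
  have hx : x.2 = j' := hn x (by simp) (s, j') (by simp)
  have e : (s, i) ::ₘ (s, i) ::ₘ (s, j') ::ₘ (s, j') ::ₘ x ::ₘ W3 =
      (s, j') ::ₘ (s, j') ::ₘ (s, i) ::ₘ (s, i) ::ₘ x ::ₘ W3 := by
    simp only [← Multiset.singleton_add]
    abel
  rw [e] at hW ⊢
  exact nul2 hm h0 hs hW ⟨(s, i), by simp, x, by simp, by rw [hx]; exact hij⟩

end Pool.Agent.TP.H52
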