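import Mathlib

/-!
MP_ce3ba7_al, characteristic 2: magmas with `(xy)z = (zy)x` and `x(yz) = z(yx)`. Two trees with the
same multiset of pairs (leaf, exponent in `ZMod 3`) have the same value; a left edge contributes
`1`, a right edge contributes `2` to the exponent.
-/

set_option autoImplicit false

namespace Pool.Agent.TP.H52

/-- trees with labelled leaves -/
inductive Tr (ι : Type) : Type
  | lf (i : ι) : Tr ι
  | nd (a b : Tr ι) : Tr ι

/-- the two laws -/
def LR {M : Type} (m : M → M → M) : Prop :=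
  (∀ x y z, m (m x y) z = m (m z y) x) ∧ ∀ x y z, m x (m y z) = m z (m y x)

theorem z12 : (1 : ZMod 3) ≠ 2 := by decide
theorem z21 : (2 : ZMod 3) ≠ 1 := by decide
theorem z02 : (0 : ZMod 3) ≠ 2 := by decide
theorem z01 : (0 : ZMod 3) ≠ 1 := by decide
theorem z10 : (1 : ZMod 3) ≠ 0 := by decide
theorem z20 : (2 : ZMod 3) ≠ 0 := by decide

variable {ι : Type}

/-- value of a tree -/
def Tr.ev {M : Type} (m : M → M → M) (v : ι → M) : Tr ι → M
  | .lf i => v i
  | .nd a b => m (a.ev m v) (b.ev m v)

/-- shift of all exponents -/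
def sh (k : ZMod 3) (s : Multiset (ι × ZMod 3)) : Multiset (ι × ZMod 3) :=
  s.map fun p => (p.1, p.2 + k)

/-- leaves with exponents -/
def Tr.E : Tr ι → Multiset (ι × ZMod 3)
  | .lf i => {(i, 0)}
  | .nd a b => sh 1 a.E + sh 2 b.E

@[simp] theorem sh_add (k : ZMod 3) (s t : Multiset (ι × ZMod 3)) :
    sh k (s + t) = sh k s + sh k t := Multiset.map_add _ _ _

@[simp] theorem sh_zero' (k : ZMod 3) : sh k (0 : Multiset (ι × ZMod 3)) = 0 := rfl

@[simp] theorem sh_cons (k : ZMod 3) (p : ι × ZMod 3) (s : Multiset (ι × ZMod 3)) :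
    sh k (p ::ₘ s) = (p.1, p.2 + k) ::ₘ sh k s := Multiset.map_cons _ _ _

@[simp] theorem sh_singleton (k : ZMod 3) (p : ι × ZMod 3) :
    sh k {p} = {(p.1, p.2 + k)} := Multiset.map_singleton _ _

@[simp] theorem sh_sh (k l : ZMod 3) (s : Multiset (ι × ZMod 3)) :
    sh k (sh l s) = sh (l + k) s := by
  unfold sh
  rw [Multiset.map_map]
  apply Multiset.map_congr rfl
  intro p _
  simp [add_assoc]

@[simp] theorem sh_0 (s : Multiset (ι × ZMod 3)) : sh 0 s = s := by
  unfold sh
  simp

@[simp] theorem card_sh (k : ZMod 3) (s : Multiset (ι × ZMod 3)) :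
    (sh k s).card = s.card := Multiset.card_map _ _

theorem mem_sh {k : ZMod 3} {s : Multiset (ι × ZMod 3)} {p : ι × ZMod 3} (h : p ∈ sh k s) :
    (p.1, p.2 - k) ∈ s := by
  unfold sh at h
  rw [Multiset.mem_map] at h
  obtain ⟨q, hq, rfl⟩ := h
  simpa using hq

theorem mem_sh' {k : ZMod 3} {s : Multiset (ι × ZMod 3)} {p : ι × ZMod 3} (h : p ∈ s) :
    (p.1, p.2 + k) ∈ sh k s := by
  unfold sh
  exact Multiset.mem_map_of_mem (fun p : ι × ZMod 3 => (p.1, p.2 + k)) h

theorem sh_inj {k : ZMod 3} {s t : Multiset (ι × ZMod 3)} (h : sh k s = sh k t) : s = t := by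
  have := congrArg (sh (-k)) h
  simpa using this

theorem sh_eq {k : ZMod 3} {s t : Multiset (ι × ZMod 3)} (h : sh k s = t) : s = sh (-k) t := by
  rw [← h]; simp

theorem card_pos (T : Tr ι) : 1 ≤ T.E.card := by
  induction T with
  | lf i => simp [Tr.E]
  | nd a b ha hb => simp only [Tr.E, Multiset.card_add, card_sh]; omega

/-- not all exponents are equal -/
theorem not_all (c : ZMod 3) (T : Tr ι) (h : 2 ≤ T.E.card) : ∃ x ∈ T.E, x.2 ≠ c := by
  induction T generalizing c with
  | lf i => simp [Tr.E] at h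
  | nd a b ha hb =>
    by_contra hcon
    push Not at hcon
    have h1 : ∀ x ∈ a.E, x.2 = c - 1 := by
      intro x hx
      have := hcon (x.1, x.2 + 1) (Multiset.mem_add.2 (Or.inl (mem_sh' hx)))
      simp only at this
      rw [← this]; ring
    have h2 : ∀ x ∈ b.E, x.2 = c - 2 := by
      intro x hx
      have := hcon (x.1, x.2 + 2) (Multiset.mem_add.2 (Or.inr (mem_sh' hx)))
      simp only at this
      rw [← this]; ring
    cases a with
    | lf i =>
      cases b with
      | lf j =>
        have e1 := h1 (i, 0) (by simp [Tr.E])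
        have e2 := h2 (j, 0) (by simp [Tr.E])
        simp only at e1 e2
        rw [e1] at e2
        have : (1 : ZMod 3) = 2 := by
          have := sub_right_injective e2
          exact this
        exact absurd this (by decide)
      | nd b1 b2 =>
        have hc : 2 ≤ (Tr.nd b1 b2).E.card := by
          have := card_pos b1
          have := card_pos b2
          simp only [Tr.E, Multiset.card_add, card_sh]; omega
        obtain ⟨x, hx, hne⟩ := hb (c - 2) hc
        exact hne (h2 x hx)
    | nd a1 a2 =>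
      have hc : 2 ≤ (Tr.nd a1 a2).E.card := by
        have := card_pos a1
        have := card_pos a2
        simp only [Tr.E, Multiset.card_add, card_sh]; omega
      obtain ⟨x, hx, hne⟩ := ha (c - 1) hc
      exact hne (h1 x hx)

theorem card_one {T : Tr ι} (h : T.E.card = 1) : ∃ i, T = .lf i := by
  cases T with
  | lf i => exact ⟨i, rfl⟩
  | nd a b =>
    have := card_pos a
    have := card_pos b
    simp only [Tr.E, Multiset.card_add, card_sh] at h
    omega

theorem card_two {T : Tr ι} (h : T.E.card = 2) : ∃ i j, T = .nd (.lf i) (.lf j) := by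
  cases T with
  | lf i => simp [Tr.E] at h
  | nd a b =>
    have h1 := card_pos a
    have h2 := card_pos b
    simp only [Tr.E, Multiset.card_add, card_sh] at h
    obtain ⟨i, rfl⟩ := card_one (T := a) (by omega)
    obtain ⟨j, rfl⟩ := card_one (T := b) (by omega)
    exact ⟨i, j, rfl⟩

/-- the mirror tree -/
def Tr.op : Tr ι → Tr ι
  | .lf i => .lf i
  | .nd a b => .nd b.op a.op

theorem op_op (T : Tr ι) : T.op.op = T := by
  induction T with
  | lf i => rfl
  | nd a b ha hb => simp [Tr.op, ha, hb]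

/-- negation of exponents -/
def ng (s : Multiset (ι × ZMod 3)) : Multiset (ι × ZMod 3) := s.map fun p => (p.1, -p.2)

theorem ng_ng (s : Multiset (ι × ZMod 3)) : ng (ng s) = s := by
  unfold ng; simp

theorem ng_sh (k : ZMod 3) (s : Multiset (ι × ZMod 3)) : ng (sh k s) = sh (-k) (ng s) := by
  unfold ng sh
  rw [Multiset.map_map, Multiset.map_map]
  apply Multiset.map_congr rfl
  intro p _
  simp [add_comm]

theorem E_op (T : Tr ι) : T.op.E = ng T.E := by
  induction T with
  | lf i => simp [Tr.op, Tr.E, ng]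
  | nd a b ha hb =>
    rw [Tr.op, Tr.E, Tr.E, ha, hb]
    have e : ng (sh 1 a.E + sh 2 b.E) = ng (sh 1 a.E) + ng (sh 2 b.E) := by
      unfold ng; rw [Multiset.map_add]
    rw [e, ng_sh, ng_sh, add_comm]
    congr 1

theorem ev_op {M : Type} (m : M → M → M) (v : ι → M) (T : Tr ι) :
    T.op.ev (fun x y => m y x) v = T.ev m v := by
  induction T with
  | lf i => rfl
  | nd a b ha hb => simp [Tr.op, Tr.ev, ha, hb]

theorem LR.op {M : Type} {m : M → M → M} (h : LR m) : LR (fun x y => m y x) :=
  ⟨fun x y z => h.2 z y x, fun x y z => h.1 z y x⟩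

theorem LR.medial {M : Type} {m : M → M → M} (h : LR m) (a b c d : M) :
    m (m a b) (m c d) = m (m a c) (m b d) := by
  rw [h.1 a b (m c d), h.1 c d b, ← h.1 a c (m b d)]

/-- statement A: a leaf with exponent 1 can be moved to the left of the root -/
def SA (n : ℕ) (M : Type) (m : M → M → M) (v : ι → M) : Prop :=
  ∀ T : Tr ι, T.E.card = n → ∀ i R, T.E = (i, 1) ::ₘ R → 2 ≤ R.card → (∃ x ∈ R, x.2 ≠ 2) →
    ∃ X : Tr ι, T.ev m v = m (v i) (X.ev m v) ∧ sh 2 X.E = R

/-- statement B: a leaf with exponent 2 can be moved to the right of the root -/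
def SB (n : ℕ) (M : Type) (m : M → M → M) (v : ι → M) : Prop :=
  ∀ T : Tr ι, T.E.card = n → ∀ i R, T.E = (i, 2) ::ₘ R → 2 ≤ R.card → (∃ x ∈ R, x.2 ≠ 1) →
    ∃ X : Tr ι, T.ev m v = m (X.ev m v) (v i) ∧ sh 1 X.E = R

theorem SB_of_SA {n : ℕ} {M : Type} {m : M → M → M} {v : ι → M}
    (h : SA n M (fun x y => m y x) v) : SB n M m v := by
  intro T hT i R hE hR hx
  have hE' : T.op.E = (i, 1) ::ₘ ng R := by
    rw [E_op, hE]
    unfold ng
    rw [Multiset.map_cons]
    congr 1
  have hcard : T.op.E.card = n := by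
    rw [E_op]; unfold ng; rw [Multiset.card_map]; exact hT
  obtain ⟨X, h1, h2⟩ := h T.op hcard i (ng R) hE' (by unfold ng; rwa [Multiset.card_map]) (by
    obtain ⟨x, hx, hne⟩ := hx
    refine ⟨(x.1, -x.2), Multiset.mem_map_of_mem _ hx, ?_⟩
    intro hh
    apply hne
    simp only at hh
    have : x.2 = -2 := by rw [← hh, neg_neg]
    rw [this]; decide)
  refine ⟨X.op, ?_, ?_⟩
  · rw [ev_op] at h1
    rw [h1]
    have : X.op.ev m v = X.ev (fun x y => m y x) v := by
      have := ev_op (fun x y => m y x) v X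
      exact this
    rw [this]
  · rw [E_op]
    have : ng (sh 2 X.E) = ng (ng R) := by rw [h2]
    rw [ng_ng, ng_sh] at this
    rw [← this]
    congr 1

/-- the right factor case -/
theorem VC {n : ℕ} {M : Type} {m : M → M → M} (hm : LR m) {v : ι → M}
    (hA : ∀ k < n, SA k M m v) (hB : ∀ k < n, SB k M m v) :
    ∀ (k : ℕ) (V : Tr ι), V.E.card = k → k < n → ∀ (W : Tr ι) (i : ι) (R : Multiset (ι × ZMod 3)),
      V.E = (i, 2) ::ₘ R →
      ∃ X : Tr ι, m (W.ev m v) (V.ev m v) = m (v i) (X.ev m v) ∧
        sh 2 X.E = sh 1 W.E + sh 2 R := by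
  intro k
  induction k using Nat.strong_induction_on with
  | _ k ih =>
  intro V hV hk W i R hE
  have hcR : k = R.card + 1 := by rw [← hV, hE, Multiset.card_cons]
  rcases Nat.lt_or_ge R.card 2 with h2 | h2
  · -- `R` has at most one element
    have hR1 : R.card = 1 := by
      by_contra hne
      have h0 : R.card = 0 := by omega
      have hR0 : R = 0 := Multiset.card_eq_zero.1 h0
      subst hR0
      obtain ⟨j, rfl⟩ := card_one (T := V) (by rw [hV, hcR, h0])
      have : ((j, 0) : ι × ZMod 3) = (i, 2) := by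
        have h3 : ({(j, 0)} : Multiset (ι × ZMod 3)) = {(i, 2)} := hE
        exact Multiset.singleton_inj.1 h3
      exact z02 (Prod.ext_iff.1 this).2
    obtain ⟨a, b, rfl⟩ := card_two (T := V) (by rw [hV, hcR, hR1])
    have hE2 : ({(a, 1)} : Multiset (ι × ZMod 3)) + {(b, 2)} = (i, 2) ::ₘ R := by
      rw [← hE]; simp [Tr.E]
    have hmem : ((i, 2) : ι × ZMod 3) ∈ ({(a, 1)} : Multiset (ι × ZMod 3)) + {(b, 2)} := by
      rw [hE2]; exact Multiset.mem_cons_self _ _
    have hib : i = b := by
      rcases Multiset.mem_add.1 hmem with h | h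
      · have := Multiset.mem_singleton.1 h
        exact absurd (Prod.ext_iff.1 this).2 z21
      · have := Multiset.mem_singleton.1 h
        exact (Prod.ext_iff.1 this).1
    subst hib
    have hRa : R = {(a, 1)} := by
      have h3 : (i, 2) ::ₘ ({(a, 1)} : Multiset (ι × ZMod 3)) = (i, 2) ::ₘ R := by
        rw [← hE2, add_comm]; rfl
      exact ((Multiset.cons_inj_right _).1 h3).symm
    refine ⟨.nd (.lf a) W, ?_, ?_⟩
    · simp only [Tr.ev]
      exact hm.2 _ _ _
    · rw [hRa]
      simp only [Tr.E, sh_add, sh_singleton, sh_sh]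
      rw [add_comm]
      congr 1
  · by_cases hx : ∃ x ∈ R, x.2 ≠ 1
    · obtain ⟨X0, h3, h4⟩ := hB k hk V hV i R hE h2 hx
      refine ⟨.nd X0 W, ?_, ?_⟩
      · rw [h3]; simp only [Tr.ev]; exact hm.2 _ _ _
      · simp only [Tr.E, sh_add]
        rw [h4, sh_sh, add_comm]
        congr 1
    · push Not at hx
      -- all exponents in `R` are `1`
      obtain ⟨⟨q, eq⟩, R1, rfl⟩ : ∃ a s, R = a ::ₘ s := by
        obtain ⟨a, ha⟩ := Multiset.card_pos_iff_exists_mem.1 (show 0 < R.card by omega)
        obtain ⟨s, hs⟩ := Multiset.exists_cons_of_mem ha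
        exact ⟨a, s, hs⟩
      have heq : eq = 1 := hx _ (Multiset.mem_cons_self _ _)
      subst heq
      rw [Multiset.card_cons] at h2 hcR
      obtain ⟨⟨r, er⟩, R2, rfl⟩ : ∃ a s, R1 = a ::ₘ s := by
        obtain ⟨a, ha⟩ := Multiset.card_pos_iff_exists_mem.1 (show 0 < R1.card by omega)
        obtain ⟨s, hs⟩ := Multiset.exists_cons_of_mem ha
        exact ⟨a, s, hs⟩
      have her : er = 1 := hx (r, er) (by simp)
      subst her
      rw [Multiset.card_cons] at h2 hcR
      -- move `q` to the left of `V`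
      obtain ⟨V2, h3, h4⟩ := hA k hk V hV q ((i, 2) ::ₘ (r, 1) ::ₘ R2)
        (by rw [hE, Multiset.cons_swap]) (by simp) ⟨(r, 1), by simp, z12⟩
      have hV2 : V2.E = (r, 2) ::ₘ (i, 0) ::ₘ sh 1 R2 := by
        have := sh_eq h4
        rw [this]
        simp only [sh_cons]
        rw [Multiset.cons_swap]
        congr 1
      have hcV2 : V2.E.card = R2.card + 2 := by rw [hV2]; simp
      have hR2 : R2.card ≠ 0 := by
        intro h0
        have hR0 : R2 = 0 := Multiset.card_eq_zero.1 h0
        subst hR0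
        obtain ⟨a, b, rfl⟩ := card_two (T := V2) (by rw [hcV2]; simp)
        have hmem : ((i, 0) : ι × ZMod 3) ∈ (Tr.nd (.lf a) (.lf b) : Tr ι).E := by
          rw [hV2]; simp
        simp only [Tr.E, sh_singleton, Multiset.mem_add, Multiset.mem_singleton,
          Prod.ext_iff] at hmem
        rcases hmem with ⟨_, h⟩ | ⟨_, h⟩
        · exact absurd h (by decide)
        · exact absurd h (by decide)
      obtain ⟨U5, h5, h6⟩ := hB V2.E.card (by omega) V2 rfl r ((i, 0) ::ₘ sh 1 R2) hV2
        (by simp; omega) ⟨(i, 0), by simp, z01⟩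
      have hU5 : U5.E = (i, 2) ::ₘ R2 := by
        have := sh_eq h6
        rw [this]
        simp only [sh_cons, sh_sh]
        have e1 : (0 : ZMod 3) + -1 = 2 := by decide
        have e2 : (1 : ZMod 3) + -1 = 0 := by decide
        rw [e1, e2, sh_0]
      have hcU5 : U5.E.card = R2.card + 1 := by rw [hU5]; simp
      obtain ⟨X, h7, h8⟩ := ih U5.E.card (by omega) U5 rfl (by omega)
        (.nd (.nd (.lf q) W) (.lf r)) i R2 hU5
      refine ⟨X, ?_, ?_⟩
      · rw [← h7, h3, h5]
        simp only [Tr.ev]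
        rw [hm.2 (W.ev m v) (v q) (m (U5.ev m v) (v r)), hm.1 (U5.ev m v) (v r)]
      · rw [h8]
        simp only [Tr.E, sh_add, sh_singleton, sh_sh, sh_cons]
        have e1 : (1 : ZMod 3) + 1 + 1 = 0 := by decide
        have e3 : (2 : ZMod 3) + 1 = 0 := by decide
        have e4 : (1 : ZMod 3) + 2 = 0 := by decide
        rw [← Multiset.singleton_add, ← Multiset.singleton_add]
        simp only [← add_assoc, e1, e3, e4, zero_add]
        abel

theorem exists_cons {s : Multiset (ι × ZMod 3)} (h : 1 ≤ s.card) : ∃ a t, s = a ::ₘ t := by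
  obtain ⟨a, ha⟩ := Multiset.card_pos_iff_exists_mem.1 (show 0 < s.card by omega)
  obtain ⟨t, ht⟩ := Multiset.exists_cons_of_mem ha
  exact ⟨a, t, ht⟩

/-- the left factor case -/
theorem UC {n : ℕ} {M : Type} {m : M → M → M} (hm : LR m) {v : ι → M}
    (hA : ∀ k < n, SA k M m v) (hB : ∀ k < n, SB k M m v) (U V : Tr ι)
    (hn : U.E.card + V.E.card = n) (i : ι) (R : Multiset (ι × ZMod 3))
    (hE : U.E = (i, 0) ::ₘ R) (hx : ∃ x ∈ sh 1 R + sh 2 V.E, x.2 ≠ 2) :
    ∃ X : Tr ι, m (U.ev m v) (V.ev m v) = m (v i) (X.ev m v) ∧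
      sh 2 X.E = sh 1 R + sh 2 V.E := by
  have hcR : U.E.card = R.card + 1 := by rw [hE, Multiset.card_cons]
  have hVpos := card_pos V
  rcases Nat.eq_zero_or_pos R.card with h0 | hpos
  · have hR0 : R = 0 := Multiset.card_eq_zero.1 h0
    subst hR0
    obtain ⟨j, rfl⟩ := card_one (T := U) (by rw [hcR, h0])
    have hij : j = i := by
      have h3 : ({(j, 0)} : Multiset (ι × ZMod 3)) = {(i, 0)} := hE
      exact (Prod.ext_iff.1 (Multiset.singleton_inj.1 h3)).1
    subst hij
    exact ⟨V, rfl, by simp⟩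
  -- `U` has a leaf with exponent different from `0`
  obtain ⟨⟨j, e⟩, hj, hje⟩ := not_all 0 U (by omega)
  simp only at hje
  rw [hE, Multiset.mem_cons] at hj
  have hj' : (j, e) ∈ R := by
    rcases hj with h | h
    · exact absurd (Prod.ext_iff.1 h).2 hje
    · exact h
  obtain ⟨R1, rfl⟩ := Multiset.exists_cons_of_mem hj'
  rw [Multiset.card_cons] at hcR
  have hR1 : 1 ≤ R1.card := by
    by_contra hcon
    have h0 : R1 = 0 := Multiset.card_eq_zero.1 (by omega)
    subst h0
    obtain ⟨a, b, rfl⟩ := card_two (T := U) (by rw [hcR]; simp)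
    have hmem : ((i, 0) : ι × ZMod 3) ∈ (Tr.nd (.lf a) (.lf b) : Tr ι).E := by
      rw [hE]; simp
    simp only [Tr.E, sh_singleton, Multiset.mem_add, Multiset.mem_singleton,
      Prod.ext_iff] at hmem
    rcases hmem with ⟨_, h⟩ | ⟨_, h⟩
    · exact absurd h (by decide)
    · exact absurd h (by decide)
  have hecase : e = 1 ∨ e = 2 := by
    revert hje
    generalize e = t
    revert t
    decide
  rcases hecase with rfl | rfl
  · -- exponent 1
    obtain ⟨U2, h3, h4⟩ := hA U.E.card (by omega) U rfl j ((i, 0) ::ₘ R1)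
      (by rw [hE, Multiset.cons_swap]) (by simp; omega) ⟨(i, 0), by simp, z02⟩
    have hU2 : U2.E = (i, 1) ::ₘ sh 1 R1 := by
      have := sh_eq h4
      rw [this]
      simp only [sh_cons]
      have e1 : (0 : ZMod 3) + -2 = 1 := by decide
      have e2 : (-2 : ZMod 3) = 1 := by decide
      rw [e1, e2]
    have hcU2 : U2.E.card = R1.card + 1 := by rw [hU2]; simp
    cases V with
    | nd V1 V2 =>
      have c1 := card_pos V1
      have c2 := card_pos V2
      have cV : (Tr.nd V1 V2).E.card = V1.E.card + V2.E.card := by simp [Tr.E]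
      have hY : (Tr.nd U2 V2).E = (i, 2) ::ₘ (sh 2 R1 + sh 2 V2.E) := by
        simp only [Tr.E, hU2, sh_cons, sh_sh]
        have e1 : (1 : ZMod 3) + 1 = 2 := by decide
        rw [e1, Multiset.cons_add]
      obtain ⟨X, h5, h6⟩ := VC hm hA hB (Tr.nd U2 V2).E.card (Tr.nd U2 V2) rfl
        (by simp only [Tr.E, Multiset.card_add, card_sh]; omega) (.nd (.lf j) V1) i _ hY
      refine ⟨X, ?_, ?_⟩
      · rw [← h5, h3]
        simp only [Tr.ev]
        exact hm.medial _ _ _ _
      · rw [h6]
        simp only [Tr.E, sh_add, sh_singleton, sh_sh, sh_cons]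
        have e1 : (2 : ZMod 3) + 1 = 0 := by decide
        have e2 : (2 : ZMod 3) + 2 = 1 := by decide
        have e3 : (1 : ZMod 3) + 2 = 0 := by decide
        rw [← Multiset.singleton_add]
        simp only [e1, e2, e3, zero_add]
        abel
    | lf d =>
      have hy : ∃ y ∈ sh 1 R1, y.2 ≠ 2 := by
        obtain ⟨x, hx, hne⟩ := hx
        rw [sh_cons, Multiset.cons_add, Multiset.mem_cons, Multiset.mem_add] at hx
        rcases hx with h | h | h
        · rw [h] at hne
          have e1 : (1 : ZMod 3) + 1 = 2 := by decide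
          exact absurd e1 hne
        · exact ⟨x, h, hne⟩
        · simp only [Tr.E, sh_singleton, Multiset.mem_singleton] at h
          rw [h] at hne
          simp at hne
      have hR12 : 2 ≤ R1.card := by
        by_contra hcon
        obtain ⟨a, b, rfl⟩ := card_two (T := U2) (by omega)
        obtain ⟨y, hy, hne⟩ := hy
        have hsum : ({(a, 1)} : Multiset (ι × ZMod 3)) + {(b, 2)} = (i, 1) ::ₘ sh 1 R1 := by
          rw [← hU2]; simp [Tr.E]
        have hmem : ((i, 1) : ι × ZMod 3) ∈ ({(a, 1)} : Multiset (ι × ZMod 3)) + {(b, 2)} := by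
          rw [hsum]; exact Multiset.mem_cons_self _ _
        have hia : i = a := by
          rcases Multiset.mem_add.1 hmem with h | h
          · exact (Prod.ext_iff.1 (Multiset.mem_singleton.1 h)).1
          · exact absurd (Prod.ext_iff.1 (Multiset.mem_singleton.1 h)).2 z12
        subst hia
        have h7 : sh 1 R1 = {(b, 2)} := by
          have h8 : (i, 1) ::ₘ ({(b, 2)} : Multiset (ι × ZMod 3)) = (i, 1) ::ₘ sh 1 R1 := by
            rw [← hsum]; rfl
          exact ((Multiset.cons_inj_right _).1 h8).symm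
        rw [h7, Multiset.mem_singleton] at hy
        rw [hy] at hne
        exact hne rfl
      obtain ⟨U3, h5, h6⟩ := hA U2.E.card (by omega) U2 rfl i (sh 1 R1) hU2
        (by rw [card_sh]; exact hR12) hy
      have hcU3 : U3.E.card = R1.card := by
        have := congrArg Multiset.card h6
        simpa using this
      cases U3 with
      | lf k => simp [Tr.E] at hcU3; omega
      | nd V1 V2 =>
        have c1 := card_pos V1
        have c2 := card_pos V2
        have cV : (Tr.nd V1 V2).E.card = V1.E.card + V2.E.card := by simp [Tr.E]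
        have hY : (Tr.nd (.nd (.lf i) (.lf j)) V2).E = (i, 2) ::ₘ ((j, 0) ::ₘ sh 2 V2.E) := by
          simp only [Tr.E, sh_singleton, sh_add]
          have e1 : (0 : ZMod 3) + 1 + 1 = 2 := by decide
          have e2 : (0 : ZMod 3) + 2 + 1 = 0 := by decide
          rw [e1, e2]
          rw [← Multiset.singleton_add, ← Multiset.singleton_add, add_assoc]
        have hlt : (Tr.nd (.nd (.lf i) (.lf j)) V2).E.card < n := by
          rw [hY]
          simp only [Multiset.card_cons, card_sh]
          omega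
        obtain ⟨X, h7, h8⟩ := VC hm hA hB _ (Tr.nd (.nd (.lf i) (.lf j)) V2) rfl
          hlt (.nd (.lf d) V1) i _ hY
        refine ⟨X, ?_, ?_⟩
        · rw [← h7, h3, h5]
          simp only [Tr.ev]
          rw [hm.2 (v j) (v i), hm.1 _ (m (v i) (v j)) (v d), hm.medial]
        · rw [h8]
          have h9 : sh 1 R1 = V1.E + sh 1 V2.E := by
            rw [← h6]
            simp only [Tr.E, sh_add, sh_sh]
            have e1 : (1 : ZMod 3) + 2 = 0 := by decide
            have e2 : (2 : ZMod 3) + 2 = 1 := by decide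
            rw [e1, e2, sh_0]
          rw [sh_cons 1 (j, 1) R1, h9]
          simp only [Tr.E, sh_add, sh_singleton, sh_sh, sh_cons]
          have e1 : (2 : ZMod 3) + 1 = 0 := by decide
          have e2 : (2 : ZMod 3) + 2 = 1 := by decide
          have e3 : (1 : ZMod 3) + 1 = 2 := by decide
          rw [← Multiset.singleton_add, ← Multiset.singleton_add]
          simp only [e1, e2, e3, zero_add, sh_0]
          abel
  · -- exponent 2
    obtain ⟨U2, h3, h4⟩ := hB U.E.card (by omega) U rfl j ((i, 0) ::ₘ R1)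
      (by rw [hE, Multiset.cons_swap]) (by simp; omega) ⟨(i, 0), by simp, z01⟩
    have hU2 : U2.E = (i, 2) ::ₘ sh 2 R1 := by
      have := sh_eq h4
      rw [this]
      simp only [sh_cons]
      have e1 : (0 : ZMod 3) + -1 = 2 := by decide
      have e2 : (-1 : ZMod 3) = 2 := by decide
      rw [e1, e2]
    have hcU2 : U2.E.card = R1.card + 1 := by rw [hU2]; simp
    obtain ⟨X, h5, h6⟩ := VC hm hA hB U2.E.card U2 rfl (by omega) (.nd V (.lf j)) i _ hU2
    refine ⟨X, ?_, ?_⟩
    · rw [← h5, h3]
      simp only [Tr.ev]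
      exact hm.1 _ _ _
    · rw [h6]
      simp only [Tr.E, sh_add, sh_singleton, sh_sh, sh_cons]
      have e1 : (1 : ZMod 3) + 1 = 2 := by decide
      have e2 : (2 : ZMod 3) + 2 = 1 := by decide
      have e3 : (2 : ZMod 3) + 1 = 0 := by decide
      rw [← Multiset.singleton_add]
      simp only [e1, e2, e3, zero_add]
      abel

theorem SA_step {n : ℕ} {M : Type} {m : M → M → M} (hm : LR m) {v : ι → M}
    (hA : ∀ k < n, SA k M m v) (hB : ∀ k < n, SB k M m v) : SA n M m v := by
  intro T hT i R hE hR hx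
  cases T with
  | lf j =>
    exfalso
    have h3 : ({(j, 0)} : Multiset (ι × ZMod 3)) = (i, 1) ::ₘ R := hE
    have := congrArg Multiset.card h3
    rw [Multiset.card_cons, Multiset.card_singleton] at this
    omega
  | nd U V =>
    have hUV : U.E.card + V.E.card = n := by rw [← hT]; simp [Tr.E]
    have hU := card_pos U
    have hV := card_pos V
    have hmem : ((i, 1) : ι × ZMod 3) ∈ sh 1 U.E + sh 2 V.E := by
      have : sh 1 U.E + sh 2 V.E = (i, 1) ::ₘ R := hE
      rw [this]; exact Multiset.mem_cons_self _ _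
    rcases Multiset.mem_add.1 hmem with h | h
    · have h' := mem_sh h
      have e1 : (1 : ZMod 3) - 1 = 0 := by decide
      simp only [e1] at h'
      obtain ⟨R', hR'⟩ := Multiset.exists_cons_of_mem h'
      have hRR : R = sh 1 R' + sh 2 V.E := by
        have h4 : sh 1 U.E + sh 2 V.E = (i, 1) ::ₘ R := hE
        rw [hR', sh_cons, zero_add, Multiset.cons_add] at h4
        exact ((Multiset.cons_inj_right _).1 h4).symm
      obtain ⟨X, h5, h6⟩ := UC hm hA hB U V hUV i R' hR' (by rw [← hRR]; exact hx)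
      exact ⟨X, h5, by rw [h6, hRR]⟩
    · have h' := mem_sh h
      have e1 : (1 : ZMod 3) - 2 = 2 := by decide
      simp only [e1] at h'
      obtain ⟨R', hR'⟩ := Multiset.exists_cons_of_mem h'
      have hRR : R = sh 1 U.E + sh 2 R' := by
        have h4 : sh 1 U.E + sh 2 V.E = (i, 1) ::ₘ R := hE
        have e2 : (2 : ZMod 3) + 2 = 1 := by decide
        rw [hR', sh_cons, e2, Multiset.add_cons] at h4
        exact ((Multiset.cons_inj_right _).1 h4).symm
      obtain ⟨X, h5, h6⟩ := VC hm hA hB V.E.card V rfl (by omega) U i R' hR'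
      exact ⟨X, h5, by rw [h6, hRR]⟩

theorem SA_all {M : Type} (v : ι → M) : ∀ (n : ℕ) (m : M → M → M), LR m → SA n M m v := by
  intro n
  induction n using Nat.strong_induction_on with
  | _ n ih =>
  intro m hm
  exact SA_step hm (fun k hk => ih k hk m hm) (fun k hk => SB_of_SA (ih k hk _ hm.op))

theorem SB_all {M : Type} (v : ι → M) (n : ℕ) (m : M → M → M) (hm : LR m) : SB n M m v :=
  SB_of_SA (SA_all v n _ hm.op)

/-- MAIN: trees with the same exponents have the same value -/
theorem ev_eq {M : Type} (m : M → M → M) (hm : LR m) (v : ι → M) :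
    ∀ (n : ℕ) (T T' : Tr ι), T.E.card = n → T.E = T'.E → T.ev m v = T'.ev m v := by
  intro n
  induction n using Nat.strong_induction_on with
  | _ n ih =>
  intro T T' hT hE
  have hT' : T'.E.card = n := by rw [← hE]; exact hT
  have hpos := card_pos T
  rcases Nat.lt_or_ge n 3 with hn | hn
  · have : n = 1 ∨ n = 2 := by omega
    rcases this with rfl | rfl
    · obtain ⟨i, rfl⟩ := card_one hT
      obtain ⟨j, rfl⟩ := card_one hT'
      have h3 : ({(i, 0)} : Multiset (ι × ZMod 3)) = {(j, 0)} := hE
      have h4 : i = j := (Prod.ext_iff.1 (Multiset.singleton_inj.1 h3)).1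
      rw [h4]
    · obtain ⟨i, j, rfl⟩ := card_two hT
      obtain ⟨k, l, rfl⟩ := card_two hT'
      simp only [Tr.E, sh_singleton, zero_add] at hE
      have hik : i = k := by
        have : ((i, 1) : ι × ZMod 3) ∈ ({(k, 1)} : Multiset (ι × ZMod 3)) + {(l, 2)} := by
          rw [← hE]; simp
        rcases Multiset.mem_add.1 this with h | h
        · exact (Prod.ext_iff.1 (Multiset.mem_singleton.1 h)).1
        · exact absurd (Prod.ext_iff.1 (Multiset.mem_singleton.1 h)).2 z12
      have hjl : j = l := by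
        have : ((j, 2) : ι × ZMod 3) ∈ ({(k, 1)} : Multiset (ι × ZMod 3)) + {(l, 2)} := by
          rw [← hE]; simp
        rcases Multiset.mem_add.1 this with h | h
        · exact absurd (Prod.ext_iff.1 (Multiset.mem_singleton.1 h)).2 z21
        · exact (Prod.ext_iff.1 (Multiset.mem_singleton.1 h)).1
      rw [hik, hjl]
  · -- the choice of a leaf
    have key1 : ∀ i R, T.E = (i, 1) ::ₘ R → (∃ x ∈ R, x.2 ≠ 2) → T.ev m v = T'.ev m v := by
      intro i R hR hx
      have hcR : R.card + 1 = n := by rw [← hT, hR, Multiset.card_cons]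
      obtain ⟨X, h1, h2⟩ := SA_all v n m hm T hT i R hR (by omega) hx
      obtain ⟨X', h3, h4⟩ := SA_all v n m hm T' hT' i R (by rw [← hE, hR]) (by omega) hx
      have hc : X.E.card = R.card := by rw [← h2, card_sh]
      rw [h1, h3, ih X.E.card (by omega) X X' rfl (sh_inj (by rw [h2, h4]))]
    have key2 : ∀ i R, T.E = (i, 2) ::ₘ R → (∃ x ∈ R, x.2 ≠ 1) → T.ev m v = T'.ev m v := by
      intro i R hR hx
      have hcR : R.card + 1 = n := by rw [← hT, hR, Multiset.card_cons]
      obtain ⟨X, h1, h2⟩ := SB_all v n m hm T hT i R hR (by omega) hx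
      obtain ⟨X', h3, h4⟩ := SB_all v n m hm T' hT' i R (by rw [← hE, hR]) (by omega) hx
      have hc : X.E.card = R.card := by rw [← h2, card_sh]
      rw [h1, h3, ih X.E.card (by omega) X X' rfl (sh_inj (by rw [h2, h4]))]
    have dec : ∀ t : ZMod 3, t = 0 ∨ t = 1 ∨ t = 2 := by decide
    by_cases hz : ∃ z ∈ T.E, z.2 = 0
    · obtain ⟨z, hz, hz0⟩ := hz
      obtain ⟨⟨j, e⟩, hj, hje⟩ := not_all 0 T (by omega)
      obtain ⟨R, hR⟩ := Multiset.exists_cons_of_mem hj
      have hzR : z ∈ R := by
        rw [hR, Multiset.mem_cons] at hz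
        rcases hz with h | h
        · exfalso; apply hje; rw [← h]; exact hz0
        · exact h
      simp only at hje
      rcases dec e with rfl | rfl | rfl
      · exact absurd rfl hje
      · exact key1 j R hR ⟨z, hzR, by rw [hz0]; exact z02⟩
      · exact key2 j R hR ⟨z, hzR, by rw [hz0]; exact z01⟩
    · push Not at hz
      obtain ⟨⟨a, ea⟩, ha, hae⟩ := not_all 2 T (by omega)
      obtain ⟨⟨b, eb⟩, hb, hbe⟩ := not_all 1 T (by omega)
      have hea : ea = 1 := by
        have h0 := hz _ ha
        simp only at h0 hae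
        rcases dec ea with rfl | rfl | rfl
        · exact absurd rfl h0
        · rfl
        · exact absurd rfl hae
      have heb : eb = 2 := by
        have h0 := hz _ hb
        simp only at h0 hbe
        rcases dec eb with rfl | rfl | rfl
        · exact absurd rfl h0
        · exact absurd rfl hbe
        · rfl
      subst hea heb
      obtain ⟨R, hR⟩ := Multiset.exists_cons_of_mem ha
      have hbR : (b, 2) ∈ R := by
        rw [hR, Multiset.mem_cons] at hb
        rcases hb with h | h
        · exact absurd (Prod.ext_iff.1 h).2 z21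
        · exact h
      obtain ⟨R2, rfl⟩ := Multiset.exists_cons_of_mem hbR
      have hcR : R2.card + 1 + 1 = n := by rw [← hT, hR]; simp
      obtain ⟨⟨c, ec⟩, S, hS⟩ := exists_cons (s := R2) (by omega)
      have hc0 : ec ≠ 0 := by
        have := hz (c, ec) (by rw [hR, hS]; simp)
        exact this
      rcases dec ec with rfl | rfl | rfl
      · exact absurd rfl hc0
      · exact key1 a _ hR ⟨(c, 1), by rw [hS]; simp, z12⟩
      · exact key2 b ((a, 1) ::ₘ R2) (by rw [hR, Multiset.cons_swap])
          ⟨(c, 2), by rw [hS]; simp, z21⟩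

end Pool.Agent.TP.H52
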